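import Pool.Agent.ABS.StE

/-!
# Project ABS: combinations of induced characters
-/

open NumberField IsDedekindDomain
open scoped TensorProduct Classical

namespace StarkC.ABS

namespace COMBx

/-- the form of `PPall` for any set of primes equal to the given one -/
theorem pp_of {n : ℕ} {K L : Type} [Field K] [NumberField K] [Field L] [NumberField L]
    [Algebra K L] {ψ : (L ≃ₐ[K] L) →* ℂˣ} {S : Finset (HeightOneSpectrum (𝓞 K))}
    (h : PPall n ψ S) {T : Set (HeightOneSpectrum (𝓞 L))} (hT : aboveSet K L S = T)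
    (φ : XQ L T ≃ₗ[ℚ] QU L T) (Θ : XC L T →ₗ[ℂ] XC L T) (hφ : IsPhiTheta K T φ Θ) :
    ∃ (F : ℂ → ℂ) (α : Cyc n), IsArtinL (cSum n ψ) (S : Set (HeightOneSpectrum (𝓞 K))) F ∧
      α ≠ 0 ∧ cReg n T ψ Θ = nm n α * meromorphicTrailingCoeffAt F 0 := by
  subst hT
  exact h φ Θ hφ

theorem nm_mul (n : ℕ) (α β : Cyc n) : nm n (α * β) = nm n α * nm n β := by
  unfold nm
  rw [map_mul, Rat.cast_mul]

theorem nm_one (n : ℕ) : nm n (1 : Cyc n) = 1 := by
  unfold nm
  rw [map_one, Rat.cast_one]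

theorem nm_prod (n : ℕ) {ι : Type} (s : Finset ι) (α : ι → Cyc n) :
    nm n (∏ i ∈ s, α i) = ∏ i ∈ s, nm n (α i) := by
  unfold nm
  rw [map_prod, Rat.cast_prod]

theorem nm_zpow (n : ℕ) (α : Cyc n) (hα : α ≠ 0) (k : ℤ) : nm n (α ^ k) = nm n α ^ k := by
  unfold nm
  have h1 : α ^ k = ((Units.mk0 α hα ^ k : (Cyc n)ˣ) : Cyc n) := by
    rw [Units.val_zpow_eq_zpow_val, Units.val_mk0]
  have h2 : Algebra.norm ℚ (α ^ k) = (Algebra.norm ℚ α) ^ k := by
    rw [h1]
    have h3 : Algebra.norm ℚ (((Units.mk0 α hα ^ k : (Cyc n)ˣ)) : Cyc n) =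
        ((Units.map (Algebra.norm ℚ (S := Cyc n)) (Units.mk0 α hα ^ k) : ℚˣ) : ℚ) := rfl
    rw [h3, map_zpow, Units.val_zpow_eq_zpow_val]
    rfl
  rw [h2, Rat.cast_zpow]

section

variable {K N : Type} [Field K] [NumberField K] [Field N] [NumberField N] [Algebra K N]
  [IsGalois K N]

theorem logL_fs (S : Set (HeightOneSpectrum (𝓞 K))) (s : ℂ) (hs : 1 < s.re) (A : Finset ℕ)
    (χ : ℕ → (N ≃ₐ[K] N) → ℂ) :
    logL (fun g => ∑ t ∈ A, χ t g) S s = ∑ t ∈ A, logL (χ t) S s := by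
  let e : Fin A.card ≃ A := A.equivFin.symm
  have h1 : (fun g => ∑ t ∈ A, χ t g) = fun g => ∑ j : Fin A.card, (1 : ℂ) * χ (e j) g := by
    funext g
    rw [← Finset.sum_coe_sort A (fun t => χ t g), ← Equiv.sum_comp e]
    exact Finset.sum_congr rfl fun j _ => (one_mul _).symm
  rw [h1, IND.logL_sum LA_thm ALLT.lb S s hs, ← Finset.sum_coe_sort A (fun t => logL (χ t) S s),
    ← Equiv.sum_comp e]
  exact Finset.sum_congr rfl fun j _ => one_mul _

omit [IsGalois K N] in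
theorem lift_pow (H : Subgroup (N ≃ₐ[K] N)) (ψ : H →* ℂˣ) (t : ℕ) :
    liftChar H (ψ ^ t) = liftChar H ψ ^ t := MonoidHom.ext fun _ => rfl

/-- the series of an induced sum of conjugates -/
theorem logL_ind (S : Set (HeightOneSpectrum (𝓞 K))) (s : ℂ) (hs : 1 < s.re) (q : ℕ)
    (H : Subgroup (N ≃ₐ[K] N)) (ψ : H →* ℂˣ)
    (S' : Set (HeightOneSpectrum (𝓞 (IntermediateField.fixedField H))))
    (hS' : aboveSet (IntermediateField.fixedField H) N S' = aboveSet K N S) :
    logL (fun g => ∑ t ∈ Ex q, indFun H (extZ (ψ ^ t)) g) S s =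
      logL (cSum q (liftChar H ψ)) S' s := by
  rw [logL_fs S s hs (Ex q) fun t => indFun H (extZ (ψ ^ t))]
  have h1 : cSum q (liftChar H ψ) = fun g => ∑ t ∈ Ex q, ((liftChar H (ψ ^ t) g : ℂˣ) : ℂ) := by
    funext g
    refine Finset.sum_congr rfl fun t _ => ?_
    rw [lift_pow, MonoidHom.pow_apply, Units.val_pow_eq_pow_val]
  rw [h1, logL_fs S' s hs (Ex q) fun t g => ((liftChar H (ψ ^ t) g : ℂˣ) : ℂ)]
  exact Finset.sum_congr rfl fun t _ => ALLT.lind K N H (ψ ^ t) S S' s hS' hs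

end

end COMBx

open COMBx

theorem COMB_thm : Stmt_COMB := by
  intro hC K L _ _ _ _ _ _ ℓ k S φ Θ m H ψ c θ hOk hord hφ hθ
  set q := ℓ ^ k with hq
  have hTf : (aboveSet K L (S : Set (HeightOneSpectrum (𝓞 K)))).Finite :=
    IND.aboveSet_finite _ S.finite_toSet
  have hT := STB_thm K L (S : Set (HeightOneSpectrum (𝓞 K)))
  have hc := ALLT.thc K L _ hT φ Θ hTf hφ
  have hb := ALLT.thb K L _ φ Θ hTf hφ
  have hex : ∀ i, ∃ (S' : Finset (HeightOneSpectrum (𝓞 (IntermediateField.fixedField (H i)))))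
      (F : ℂ → ℂ) (α : Cyc q), aboveSet (IntermediateField.fixedField (H i)) L S' =
        aboveSet K L S ∧ IsArtinL (cSum q (liftChar (H i) (ψ i)))
          (S' : Set (HeightOneSpectrum (𝓞 (IntermediateField.fixedField (H i))))) F ∧ α ≠ 0 ∧
        cReg q (aboveSet K L S) (liftChar (H i) (ψ i)) Θ =
          nm q α * meromorphicTrailingCoeffAt F 0 := by
    intro i
    obtain ⟨S', hS'⟩ := IND.exists_S' (IntermediateField.fixedField (H i))
      (S : Set (HeightOneSpectrum (𝓞 K))) S.finite_toSet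
    have h1 : orderOf (liftChar (H i) (ψ i)) = ℓ ^ k := by
      rw [← hq, ← hord i]
      refine orderOf_eq_orderOf_iff.2 fun j => ?_
      constructor
      · intro h
        refine MonoidHom.ext fun g => ?_
        have h2 := DFunLike.congr_fun h (IntermediateField.subgroupEquivAlgEquiv (H i) g)
        have h3 : ((liftChar (H i) (ψ i)) ^ j)
            (IntermediateField.subgroupEquivAlgEquiv (H i) g) = (ψ i ^ j) g := by
          show (ψ i ((IntermediateField.subgroupEquivAlgEquiv (H i)).symm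
            (IntermediateField.subgroupEquivAlgEquiv (H i) g))) ^ j = (ψ i g) ^ j
          rw [MulEquiv.symm_apply_apply]
        rw [h3] at h2
        exact h2
      · intro h
        rw [← lift_pow, h]
        rfl
    obtain ⟨F, α, h2, h3, h4⟩ := pp_of (hC (IntermediateField.fixedField (H i)) L ℓ k
      (liftChar (H i) (ψ i)) S' hOk h1) hS' φ Θ (IND.isPhiTheta_sub _ hφ)
    exact ⟨S', F, α, hS', h2, h3, h4⟩
  choose S' F α hS' hF hα hR using hex
  refine ⟨fun z => ∏ i, F i z ^ c i, ∏ i, α i ^ c i, ⟨?_, ?_⟩, ?_, ?_⟩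
  · intro z
    exact MeromorphicAt.fun_prod fun i _ => ((hF i).1 z).fun_zpow _
  · intro s hs
    have h1 : θ = fun g => ∑ i, (c i : ℂ) *
        (fun g => ∑ t ∈ Ex q, indFun (H i) (extZ (ψ i ^ t)) g) g := funext hθ
    rw [h1, IND.logL_sum LA_thm ALLT.lb _ s hs m (fun i => (c i : ℂ))
      (fun i g => ∑ t ∈ Ex q, indFun (H i) (extZ (ψ i ^ t)) g), Complex.exp_sum]
    refine Finset.prod_congr rfl fun i _ => ?_
    rw [(hF i).2 s hs, ← Complex.exp_int_mul, logL_ind _ s hs q (H i) (ψ i) _ (hS' i)]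
  · exact Finset.prod_ne_zero_iff.2 fun i _ => zpow_ne_zero _ (hα i)
  · intro V _ _ _ ρ hρ
    let e : Fin (Fintype.card (Fin m × Ex q)) ≃ Fin m × Ex q := (Fintype.equivFin _).symm
    have hχ : ∀ g, ((1 : ℕ) : ℂ) * ρ.character g = ∑ j, (c (e j).1 : ℂ) *
        indFun (H (e j).1) (extZ (ψ (e j).1 ^ ((e j).2 : ℕ))) g := by
      intro g
      rw [Nat.cast_one, one_mul, hρ g, hθ g]
      rw [Equiv.sum_comp e fun p : Fin m × Ex q => (c p.1 : ℂ) *
        indFun (H p.1) (extZ (ψ p.1 ^ (p.2 : ℕ))) g, Fintype.sum_prod_type]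
      refine Finset.sum_congr rfl fun i _ => ?_
      rw [Finset.mul_sum]
      exact (Finset.sum_coe_sort (Ex q) fun t => (c i : ℂ) *
        indFun (H i) (extZ (ψ i ^ t)) g).symm
    have h1 := INDP.reg_comb TRD_thm ALLT.rgt hTf hT Θ hb hc V ρ 1
      (Fintype.card (Fin m × Ex q)) (fun j => H (e j).1)
      (fun j => ψ (e j).1 ^ ((e j).2 : ℕ)) (fun j => c (e j).1) hχ
    rw [pow_one] at h1
    have h2 : ∏ j, Reg (aboveSet K L S)
          (linRep (liftChar (H (e j).1) (ψ (e j).1 ^ ((e j).2 : ℕ)))) Θ ^ c (e j).1 =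
        ∏ i, cReg q (aboveSet K L S) (liftChar (H i) (ψ i)) Θ ^ c i := by
      rw [Equiv.prod_comp e fun p : Fin m × Ex q => Reg (aboveSet K L S)
          (linRep (liftChar (H p.1) (ψ p.1 ^ (p.2 : ℕ)))) Θ ^ c p.1, Fintype.prod_prod_type]
      refine Finset.prod_congr rfl fun i _ => ?_
      unfold cReg
      rw [← Finset.prod_zpow, ← Finset.prod_coe_sort (Ex q)]
      refine Finset.prod_congr rfl fun t _ => ?_
      rw [lift_pow]
    rw [h1, h2, nm_prod, INDT.lead_comb c F fun i => (hF i).1 0, ← Finset.prod_mul_distrib]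
    refine Finset.prod_congr rfl fun i _ => ?_
    rw [hR i, nm_zpow q (α i) (hα i), mul_zpow]

end StarkC.ABS
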