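import Pool.Agent.ABS.LAST
import Pool.Agent.ABS.COMB

/-!
# Project ABS: absolute values of linear characters of order `3`, `4`, `6`
-/

open NumberField IsDedekindDomain Filter Topology ComplexConjugate
open scoped TensorProduct Classical

namespace StarkC.ABS

namespace ABLx

open LASTx

theorem nm_abs (hN : Stmt_NORMT) {q : ℕ} (hq : q = 3 ∨ q = 4 ∨ q = 6) (α : Cyc q) :
    nm q α = (α : ℂ) * conj (α : ℂ) := by
  have hEx := Ex_eq hq
  have hq3 : 3 ≤ q := by rcases hq with rfl | rfl | rfl <;> norm_num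
  have hne : (1 : ℕ) ≠ q - 1 := by omega
  have hσ : ∀ t ∈ Ex q, ∀ z : ℂ, z ^ q = 1 →
      (fun t : ℕ => if t = 1 then RingEquiv.refl ℂ else (starRingAut : ℂ ≃+* ℂ)) t z =
        z ^ t := by
    intro t ht z hz
    rw [hEx, Finset.mem_insert, Finset.mem_singleton] at ht
    rcases ht with rfl | rfl
    · simp
    · beta_reduce
      rw [if_neg hne.symm]
      exact (pow_conj hq3 hz).symm
  rw [hN q _ (by omega) hσ α, hEx, Finset.prod_pair hne, if_pos rfl, if_neg hne.symm]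
  rfl

end ABLx

open LASTx in
/-- The absolute value of the Stark number for orders `3`, `4`, `6`. -/
theorem abs_lin (hN : Stmt_NORMT) (hR : Stmt_REGC) {K L : Type} [Field K]
    [NumberField K] [Field L] [NumberField L] [Algebra K L] [IsGalois K L]
    (n q : ℕ) (hn : n = 3 ∨ n = 4 ∨ n = 6) (hq : q = 3 ∨ q = 4 ∨ q = 6)
    (ψ : (L ≃ₐ[K] L) →* ℂˣ) (hψ : ψ ^ n = 1)
    (S : Finset (HeightOneSpectrum (𝓞 K)))
    (φ : XQ L (aboveSet K L S) ≃ₗ[ℚ] QU L (aboveSet K L S))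
    (Θ : XC L (aboveSet K L S) →ₗ[ℂ] XC L (aboveSet K L S))
    (hφ : IsPhiTheta K (aboveSet K L S) φ Θ) (F : ℂ → ℂ) (α : Cyc q)
    (hF : IsArtinL (cSum n ψ) (S : Set (HeightOneSpectrum (𝓞 K))) F)
    (hE : cReg n (aboveSet K L S) ψ Θ = nm q α * meromorphicTrailingCoeffAt F 0)
    (f : ℂ → ℂ)
    (hf : IsArtinL (fun g => ((ψ g : ℂˣ) : ℂ)) (S : Set (HeightOneSpectrum (𝓞 K))) f) :
    ‖Reg (aboveSet K L S) (linRep ψ) Θ / meromorphicTrailingCoeffAt f 0‖ = ‖(α : ℂ)‖ := by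
  have hn3 : 3 ≤ n := by rcases hn with rfl | rfl | rfl <;> norm_num
  have hEx := Ex_eq hn
  have hne : (1 : ℕ) ≠ n - 1 := by omega
  have hval : ∀ g, ((ψ g : ℂˣ) : ℂ) ^ n = 1 := by
    intro g
    have := DFunLike.congr_fun hψ g
    rw [MonoidHom.pow_apply] at this
    rw [← Units.val_pow_eq_pow_val, this]
    rfl
  have hcs : cSum n ψ = fun g => ((ψ g : ℂˣ) : ℂ) + conj ((ψ g : ℂˣ) : ℂ) := by
    funext g
    unfold cSum
    rw [hEx, Finset.sum_pair hne, pow_one, pow_conj hn3 (hval g)]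
  -- the two continuations
  have ht : meromorphicTrailingCoeffAt F 0 =
      meromorphicTrailingCoeffAt f 0 * conj (meromorphicTrailingCoeffAt f 0) := by
    rw [← cf_trail (hf.1 0)]
    have h1 := MeromorphicAt.meromorphicTrailingCoeffAt_mul (hf.1 0)
      (cf_mero (f := f) (z := 0) (by simpa using hf.1 0))
    rw [← h1]
    refine trail_unique hF.1 (fun z => (hf.1 z).mul (cf_mero (hf.1 (conj z)))) fun s hs => ?_
    rw [hF.2 s hs, hcs]
    show _ = f s * cf f s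
    have h2 := IND.logL_sum (K := K) (N := L) LA_thm ALLT.lb
      (S : Set (HeightOneSpectrum (𝓞 K))) s hs 2 ![1, 1]
      ![fun g => ((ψ g : ℂˣ) : ℂ), fun g => conj ((ψ g : ℂˣ) : ℂ)]
    simp only [Fin.sum_univ_two, Matrix.cons_val_zero, Matrix.cons_val_one, one_mul] at h2
    rw [h2, Complex.exp_add, ← hf.2 s hs, logL_conj, cf_apply, hf.2 (conj s) (by simpa using hs),
      Complex.exp_conj]
  -- the regulators
  have hreg : cReg n (aboveSet K L S) ψ Θ = Reg (aboveSet K L S) (linRep ψ) Θ *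
      conj (Reg (aboveSet K L S) (linRep ψ) Θ) := by
    unfold cReg
    have h3 : ψ ^ (n - 1) = ψ⁻¹ := by
      refine MonoidHom.ext fun g => ?_
      rw [MonoidHom.inv_apply, MonoidHom.pow_apply, eq_inv_iff_mul_eq_one, ← pow_succ,
        Nat.sub_add_cancel (by omega)]
      exact Units.ext (by rw [Units.val_pow_eq_pow_val]; exact hval g)
    have h1 : ψ ^ 1 = ψ := MonoidHom.ext fun g => by rw [MonoidHom.pow_apply, pow_one]
    have h4 := hR K L ψ S φ Θ hφ
    rw [hEx, Finset.prod_pair hne, h1, h3, h4]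
  rw [hreg, ABLx.nm_abs hN hq α, ht, Complex.mul_conj', Complex.mul_conj', Complex.mul_conj'] at hE
  have hE' : ‖Reg (aboveSet K L S) (linRep ψ) Θ‖ ^ 2 =
      ‖(α : ℂ)‖ ^ 2 * ‖meromorphicTrailingCoeffAt f 0‖ ^ 2 := by exact_mod_cast hE
  have hR0 := StarkG.reg_ne_zero S φ Θ hφ ℂ (linRep ψ)
  have hf0 : meromorphicTrailingCoeffAt f 0 ≠ 0 := by
    intro h
    rw [h, norm_zero, zero_pow two_ne_zero, mul_zero] at hE'
    exact hR0 (norm_eq_zero.1 (pow_eq_zero_iff two_ne_zero |>.1 hE'))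
  rw [norm_div, div_eq_iff (norm_ne_zero_iff.2 hf0)]
  rw [← mul_pow] at hE'
  exact (pow_left_inj₀ (norm_nonneg _) (by positivity) two_ne_zero).1 hE'

/-- The same for every representation whose character is induced from a linear character of order
`3` of a subgroup. -/
theorem abs_ind (hC : Concl1) (hN : Stmt_NORMT) (hR : Stmt_REGC) {K L : Type} [Field K]
    [NumberField K] [Field L] [NumberField L] [Algebra K L] [IsGalois K L]
    (ℓ k : ℕ) (hOk : OkOrd ℓ k) (hq : ℓ ^ k = 3 ∨ ℓ ^ k = 4 ∨ ℓ ^ k = 6)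
    (H : Subgroup (L ≃ₐ[K] L)) (ψ : H →* ℂˣ) (hord : orderOf ψ = ℓ ^ k)
    (S : Finset (HeightOneSpectrum (𝓞 K)))
    (φ : XQ L (aboveSet K L S) ≃ₗ[ℚ] QU L (aboveSet K L S))
    (Θ : XC L (aboveSet K L S) →ₗ[ℂ] XC L (aboveSet K L S))
    (hφ : IsPhiTheta K (aboveSet K L S) φ Θ) (f : ℂ → ℂ)
    (hf : IsArtinL (indFun H (extZ ψ)) (S : Set (HeightOneSpectrum (𝓞 K))) f) :
    ∃ α : Cyc (ℓ ^ k), α ≠ 0 ∧ ∀ (V : Type) [AddCommGroup V] [Module ℂ V] [Module.Finite ℂ V]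
      (ρ : Representation ℂ (L ≃ₐ[K] L) V), ρ.character = indFun H (extZ ψ) →
      ‖Reg (aboveSet K L S) ρ Θ / meromorphicTrailingCoeffAt f 0‖ = ‖(α : ℂ)‖ := by
  have hTf : (aboveSet K L (S : Set (HeightOneSpectrum (𝓞 K)))).Finite :=
    IND.aboveSet_finite _ S.finite_toSet
  have hT := STB_thm K L (S : Set (HeightOneSpectrum (𝓞 K)))
  have hc := ALLT.thc K L _ hT φ Θ hTf hφ
  have hb := ALLT.thb K L _ φ Θ hTf hφ
  obtain ⟨S', hS'⟩ := IND.exists_S' (IntermediateField.fixedField H)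
    (S : Set (HeightOneSpectrum (𝓞 K))) S.finite_toSet
  have hord' : orderOf (liftChar H ψ) = ℓ ^ k := by
    rw [← hord]
    refine orderOf_eq_orderOf_iff.2 fun j => ?_
    constructor
    · intro h
      refine MonoidHom.ext fun g => ?_
      have h2 := DFunLike.congr_fun h (IntermediateField.subgroupEquivAlgEquiv H g)
      have h3 : ((liftChar H ψ) ^ j)
          (IntermediateField.subgroupEquivAlgEquiv H g) = (ψ ^ j) g := by
        show (ψ ((IntermediateField.subgroupEquivAlgEquiv H).symm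
          (IntermediateField.subgroupEquivAlgEquiv H g))) ^ j = (ψ g) ^ j
        rw [MulEquiv.symm_apply_apply]
      rw [h3] at h2
      exact h2
    · intro h
      rw [← COMBx.lift_pow, h]
      rfl
  have hP := hC (IntermediateField.fixedField H) L ℓ k (liftChar H ψ) S' hOk hord'
  have hψ1 : (liftChar H ψ) ^ (ℓ ^ k) = 1 := by
    rw [← hord']
    exact pow_orderOf_eq_one _
  have hf' : IsArtinL (fun g => ((liftChar H ψ g : ℂˣ) : ℂ))
      (S' : Set (HeightOneSpectrum (𝓞 (IntermediateField.fixedField H)))) f :=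
    ⟨hf.1, fun s hs => by rw [hf.2 s hs, ALLT.lind K L H ψ S S' s hS' hs]⟩
  have key : ∀ (T : Set (HeightOneSpectrum (𝓞 L)))
      (_ : aboveSet (IntermediateField.fixedField H) L S' = T)
      (φ : XQ L T ≃ₗ[ℚ] QU L T) (Θ : XC L T →ₗ[ℂ] XC L T),
      IsPhiTheta (IntermediateField.fixedField H) T φ Θ → ∃ α : Cyc (ℓ ^ k), α ≠ 0 ∧
        ‖Reg T (linRep (liftChar H ψ)) Θ / meromorphicTrailingCoeffAt f 0‖ = ‖(α : ℂ)‖ := by
    intro T hTT φ Θ h
    subst hTT
    obtain ⟨F, α, hF, hα, hE⟩ := hP φ Θ h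
    exact ⟨α, hα, abs_lin hN hR _ _ hq hq _ hψ1 S' φ Θ h F α hF hE f hf'⟩
  obtain ⟨α, hα, h⟩ := key _ hS' φ Θ (IND.isPhiTheta_sub _ hφ)
  refine ⟨α, hα, fun V _ _ _ ρ hρ => ?_⟩
  have h1 := INDP.reg_comb TRD_thm ALLT.rgt hTf hT Θ hb hc V ρ 1 1 (fun _ => H) (fun _ => ψ)
    (fun _ => 1) fun g => by rw [hρ]; simp
  rw [pow_one, Fin.prod_univ_one, zpow_one] at h1
  rw [h1]
  exact h

end StarkC.ABS
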