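import Pool.Agent.ABS.PDefsR

/-!
# Definitions for the statement about one `φ`: the class of characters
-/

open NumberField IsDedekindDomain MatrixGroups

namespace StarkP

/-- The image of `ρ` is nilpotent and its `2`-part is not symplectic: no nondegenerate alternating
form on `V` is invariant under the `ρ g` of `2`-power order. -/
def NilNS {G V : Type} [Group G] [AddCommGroup V] [Module ℂ V] (ρ : Representation ℂ G V) : Prop :=
  Group.IsNilpotent (G ⧸ MonoidHom.ker ρ) ∧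
    ¬ ∃ B : V →ₗ[ℂ] V →ₗ[ℂ] ℂ, (∀ v, B v v = 0) ∧ (∀ v, (∀ w, B v w = 0) → v = 0) ∧
      ∀ g : G, (∃ j : ℕ, ρ (g ^ (2 ^ j)) = 1) → ∀ v w, B (ρ g v) (ρ g w) = B v w

/-- The image of `ρ` is isomorphic to `PSL₂(k)` or `PGL₂(k)`, `k` a finite field (`PSL₂` only if `k` has
at least four elements). -/
def ProjIm {G V : Type} [Group G] [AddCommGroup V] [Module ℂ V] (ρ : Representation ℂ G V) : Prop :=
  ∃ (k : Type) (_ : Field k) (_ : Fintype k),
    (4 ≤ Fintype.card k ∧
      Nonempty (G ⧸ MonoidHom.ker ρ ≃* Matrix.ProjectiveSpecialLinearGroup (Fin 2) k)) ∨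
    Nonempty (G ⧸ MonoidHom.ker ρ ≃* Matrix.ProjGenLinGroup (Fin 2) k)

/-- `NilNS` with image a group of prime power order or `ℚ(χ)/ℚ` cyclic; or `ProjIm` with `ℚ(χ)`
contained in the field of the `ℓ^j`-th roots of unity, `ℓ` odd. -/
def InC {G V : Type} [Group G] [AddCommGroup V] [Module ℂ V] (ρ : Representation ℂ G V) : Prop :=
  (NilNS ρ ∧ ((∃ ℓ : ℕ, ℓ.Prime ∧ HasImage ℓ ρ) ∨
    IsCyclic (charField ρ.character ≃ₐ[ℚ] charField ρ.character))) ∨
  (ProjIm ρ ∧ ∃ ℓ j : ℕ, ℓ.Prime ∧ ℓ ≠ 2 ∧ charField ρ.character ≤ rootField (ℓ ^ j))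

section Ind

variable {G V W : Type} [Group G] [Fintype G] [AddCommGroup V] [Module ℂ V] [AddCommGroup W]
  [Module ℂ W]

open scoped Classical in
/-- `χ = Ind_H τ` (the character of `ρ` is induced from the character of `τ`), and
`ℚ(χ) = ℚ(τ)`. -/
def IsInd (H : Subgroup G) (τ : Representation ℂ H W) (ρ : Representation ℂ G V) : Prop :=
  charField τ.character = charField ρ.character ∧ ∀ g, ρ.character g =
    (∑ x : G, if h : x⁻¹ * g * x ∈ H then τ.character ⟨x⁻¹ * g * x, h⟩ else 0) / (Nat.card H : ℂ)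

/-- The class of representations: `χ = Ind_H τ`, `ℚ(χ) = ℚ(τ)`, for an irreducible representation
`τ` as in `InC` of a subgroup. -/
def InCI (ρ : Representation ℂ G V) : Prop :=
  ∃ (H : Subgroup G) (W : Type) (_ : AddCommGroup W) (_ : Module ℂ W) (_ : Module.Finite ℂ W)
    (τ : Representation ℂ H W), τ.IsIrreducible ∧ InC τ ∧ IsInd H τ ρ

end Ind

end StarkP
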