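import Pool.Agent.ABS.FINZ
import Pool.Agent.ABS.PDefsC

/-!
# Project ABS (MP_46b841_nt): odd degrees (helper72)
-/

set_option autoImplicit false

open scoped Classical

namespace StarkC.ABS

/-- No nondegenerate alternating form in odd dimension. -/
theorem no_alt {V : Type} [AddCommGroup V] [Module ℂ V] [Module.Finite ℂ V]
    (hodd : Odd (Module.finrank ℂ V)) (B : V →ₗ[ℂ] V →ₗ[ℂ] ℂ) (h1 : ∀ v, B v v = 0)
    (h2 : ∀ v, (∀ w, B v w = 0) → v = 0) : False := by
  let b := Module.finBasis ℂ V
  let A : Matrix (Fin (Module.finrank ℂ V)) (Fin (Module.finrank ℂ V)) ℂ :=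
    Matrix.of fun i j => B (b i) (b j)
  have hskew : ∀ v w, B v w = -B w v := by
    intro v w
    have h3 := h1 (v + w)
    simp only [map_add, LinearMap.add_apply, h1, zero_add, add_zero] at h3
    linear_combination h3
  have hT : A.transpose = -A := by
    ext i j
    show B (b j) (b i) = -B (b i) (b j)
    exact hskew _ _
  have hdet : A.det = 0 := by
    have h3 := congrArg Matrix.det hT
    rw [Matrix.det_transpose, Matrix.det_neg, Fintype.card_fin, hodd.neg_one_pow,
      neg_one_mul] at h3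
    exact self_eq_neg.1 h3
  obtain ⟨v, hv0, hv⟩ := Matrix.exists_vecMul_eq_zero_iff.2 hdet
  apply hv0
  have h3 : ∑ i, v i • b i = 0 := by
    apply h2
    have h4 : B (∑ i, v i • b i) = 0 := by
      refine b.ext fun j => ?_
      have h5 := congrFun hv j
      rw [map_sum, LinearMap.sum_apply, LinearMap.zero_apply]
      simp only [map_smul, LinearMap.smul_apply, smul_eq_mul]
      exact h5
    intro w
    rw [h4, LinearMap.zero_apply]
  funext i
  exact Fintype.linearIndependent_iff.1 b.linearIndependent v h3 i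

/-- The degree of an irreducible representation of a nilpotent group of odd order is odd. -/
theorem odd_deg {G V : Type} [Group G] [Fintype G] [AddCommGroup V] [Module ℂ V]
    [Module.Finite ℂ V] (ρ : Representation ℂ G V) (hirr : ρ.IsIrreducible)
    (hnil : Group.IsNilpotent G) (hodd : Odd (Nat.card G)) : Odd (Module.finrank ℂ V) := by
  have htriv : ∀ a : G, (∃ j : ℕ, a ^ (2 ^ j) = 1) → a = 1 := by
    rintro a ⟨j, hj⟩
    have h1 : orderOf a ∣ 2 ^ j := orderOf_dvd_of_pow_eq_one hj
    have h2 : orderOf a ∣ Nat.card G := orderOf_dvd_natCard a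
    have h3 : (2 ^ j).Coprime (Nat.card G) := Nat.Coprime.pow_left j (Nat.coprime_two_left.2 hodd)
    have h4 := Nat.dvd_gcd h1 h2
    rw [h3] at h4
    exact orderOf_eq_one_iff.1 (Nat.dvd_one.1 h4)
  obtain ⟨H, ψ, -, hχ, -⟩ := FINZx.indData_N ρ hirr inferInstance fun a b ha hb => by
    rw [htriv a ha, htriv b hb]
  have h1 := congrFun hχ 1
  rw [Representation.char_one] at h1
  have h2 : indFun H (extZ ψ) 1 = (Nat.card G : ℂ) / (Nat.card H : ℂ) := by
    unfold indFun
    congr 1
    have h3 : ∀ x : G, (if x⁻¹ * 1 * x ∈ H then extZ ψ (x⁻¹ * 1 * x) else 0) = (1 : ℂ) := by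
      intro x
      have h4 : x⁻¹ * (1 : G) * x = 1 := by group
      rw [h4, if_pos H.one_mem]
      unfold extZ
      rw [dif_pos H.one_mem]
      have h5 : (⟨1, H.one_mem⟩ : H) = 1 := rfl
      rw [h5, map_one, Units.val_one]
    rw [Finset.sum_congr rfl fun x _ => h3 x, Finset.sum_const, nsmul_eq_mul, mul_one,
      Finset.card_univ, Nat.card_eq_fintype_card]
  have hH : (Nat.card H : ℂ) ≠ 0 := by exact_mod_cast Nat.card_pos.ne'
  rw [h2, eq_div_iff hH] at h1
  have h3 : Module.finrank ℂ V * Nat.card H = Nat.card G := by exact_mod_cast h1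
  rw [← h3] at hodd
  exact (Nat.odd_mul.1 hodd).1

theorem nilNS_of_odd_deg {G V : Type} [Group G] [AddCommGroup V] [Module ℂ V]
    [Module.Finite ℂ V] (ρ : Representation ℂ G V)
    (hnil : Group.IsNilpotent (G ⧸ MonoidHom.ker ρ)) (hodd : Odd (Module.finrank ℂ V)) :
    StarkP.NilNS ρ :=
  ⟨hnil, fun ⟨B, h1, h2, _⟩ => no_alt hodd B h1 h2⟩

/-- Irreducible representations of nilpotent groups of odd order. -/
theorem nilNS_of_odd {G V : Type} [Group G] [Fintype G] [AddCommGroup V] [Module ℂ V]
    [Module.Finite ℂ V] (ρ : Representation ℂ G V) (hirr : ρ.IsIrreducible)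
    (hnil : Group.IsNilpotent G) (hodd : Odd (Nat.card G)) : StarkP.NilNS ρ :=
  nilNS_of_odd_deg ρ inferInstance (odd_deg ρ hirr hnil hodd)

end StarkC.ABS
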