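import Pool.Agent.ABS.StA3

/-!
# ABS, module AU4: the automorphisms of `ℚ(ζ)`, `ζ` of order `2 ^ k`, which fix `i`
-/

open NumberField Polynomial

namespace ABS

namespace AU4

/-- `ℚ(ζ)`, `ζ` of order `2 ^ (j + 2)`. -/
abbrev EE (j : ℕ) : Type := CyclotomicField (2 ^ (j + 2)) ℚ

theorem cyc (j : ℕ) : IsCyclotomicExtension {2 ^ (j + 2)} ℚ (EE j) :=
  CyclotomicField.isCyclotomicExtension (2 ^ (j + 2)) ℚ

attribute [local instance] cyc

/-! ### The units modulo `2 ^ k` -/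

section Units

variable (j : ℕ)

/-- the unit `5` -/
def u5 : (ZMod (2 ^ (j + 2)))ˣ :=
  ZMod.unitOfCoprime 5 (Nat.Coprime.pow_right _ (by norm_num))

theorem u5_val : ((u5 j : (ZMod (2 ^ (j + 2)))ˣ) : ZMod (2 ^ (j + 2))) = 5 := by
  unfold u5
  rw [ZMod.coe_unitOfCoprime]
  rfl

theorem order_u5 : orderOf (u5 j) = 2 ^ j := by
  rw [← orderOf_units, u5_val, ZMod.orderOf_five]

theorem dv4 : 4 ∣ 2 ^ (j + 2) := ⟨2 ^ j, by ring⟩

theorem card_ker : Nat.card (ZMod.unitsMap (dv4 j)).ker = 2 ^ j := by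
  have h1 := Subgroup.card_eq_card_quotient_mul_card_subgroup (ZMod.unitsMap (dv4 j)).ker
  have h2 : Nat.card ((ZMod (2 ^ (j + 2)))ˣ ⧸ (ZMod.unitsMap (dv4 j)).ker) = 2 := by
    rw [Nat.card_congr (QuotientGroup.quotientKerEquivOfSurjective _
      (ZMod.unitsMap_surjective (dv4 j))).toEquiv, Nat.card_eq_fintype_card,
      ZMod.card_units_eq_totient]
    decide
  rw [h2, Nat.card_eq_fintype_card, ZMod.card_units_eq_totient,
    Nat.totient_prime_pow Nat.prime_two (by omega)] at h1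
  have h3 : 2 ^ (j + 2 - 1) * (2 - 1) = 2 * 2 ^ j := by
    rw [show j + 2 - 1 = j + 1 by omega, pow_succ]
    ring
  rw [h3] at h1
  omega

theorem mem_five {t : (ZMod (2 ^ (j + 2)))ˣ} (ht : ZMod.unitsMap (dv4 j) t = 1) :
    t ∈ Subgroup.zpowers (u5 j) := by
  have h1 : Subgroup.zpowers (u5 j) ≤ (ZMod.unitsMap (dv4 j)).ker := by
    rw [Subgroup.zpowers_le, MonoidHom.mem_ker]
    apply Units.ext
    rw [ZMod.unitsMap_val, u5_val]
    have h2 : ((5 : ZMod (2 ^ (j + 2))).cast : ZMod 4) = ZMod.castHom (dv4 j) (ZMod 4) 5 := rfl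
    rw [h2, map_ofNat]
    rfl
  have h2 : Subgroup.zpowers (u5 j) = (ZMod.unitsMap (dv4 j)).ker := by
    apply Subgroup.eq_of_le_of_card_ge h1
    rw [card_ker, Nat.card_zpowers, order_u5]
  rw [h2]
  exact ht

theorem one_or (t : (ZMod 4)ˣ) : t = 1 ∨ t = -1 := by
  revert t
  decide

end Units

/-! ### Numbers -/

section Num

theorem sum_five (m : ℕ) : 4 * ∑ i ∈ Finset.range m, 5 ^ i + 1 = 5 ^ m := by
  induction m with
  | zero => simp
  | succ m ih =>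
    rw [Finset.sum_range_succ, mul_add, pow_succ, ← ih]
    ring

theorem five_dvd (j : ℕ) : ∃ r : ℕ, Odd r ∧ ∑ i ∈ Finset.range (2 ^ j), 5 ^ i = 2 ^ j * r := by
  have h0 := sum_five (2 ^ j)
  have hd : ∀ k : ℕ, 2 ^ (k + 2) ∣ 4 * ∑ i ∈ Finset.range (2 ^ j), 5 ^ i ↔
      (5 : ZMod (2 ^ (k + 2))) ^ (2 ^ j) = 1 := by
    intro k
    have h1 : ((4 * ∑ i ∈ Finset.range (2 ^ j), 5 ^ i : ℕ) : ZMod (2 ^ (k + 2))) + 1 =
        (5 : ZMod (2 ^ (k + 2))) ^ (2 ^ j) := by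
      have := congrArg (fun x : ℕ => (x : ZMod (2 ^ (k + 2)))) h0
      push_cast at this
      push_cast
      exact this
    rw [← ZMod.natCast_eq_zero_iff, ← h1]
    constructor
    · intro h
      rw [h, zero_add]
    · intro h
      exact add_eq_right.1 h
  have h1 : 2 ^ (j + 2) ∣ 4 * ∑ i ∈ Finset.range (2 ^ j), 5 ^ i := by
    rw [hd j]
    have := pow_orderOf_eq_one (5 : ZMod (2 ^ (j + 2)))
    rwa [ZMod.orderOf_five] at this
  have h2 : ¬ 2 ^ (j + 1 + 2) ∣ 4 * ∑ i ∈ Finset.range (2 ^ j), 5 ^ i := by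
    rw [hd (j + 1)]
    intro h
    have h3 := orderOf_dvd_of_pow_eq_one h
    rw [ZMod.orderOf_five] at h3
    have h4 := Nat.le_of_dvd (by positivity) h3
    rw [pow_succ] at h4
    have : 0 < 2 ^ j := by positivity
    omega
  obtain ⟨r, hr⟩ := h1
  have e : ∑ i ∈ Finset.range (2 ^ j), 5 ^ i = 2 ^ j * r := by
    have h3 : 2 ^ (j + 2) * r = 4 * (2 ^ j * r) := by ring
    rw [h3] at hr
    exact Nat.eq_of_mul_eq_mul_left (by norm_num) hr
  refine ⟨r, ?_, e⟩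
  rw [← Nat.not_even_iff_odd]
  intro h
  obtain ⟨s, hs⟩ := even_iff_two_dvd.1 h
  apply h2
  rw [e, hs]
  exact ⟨s, by ring⟩

theorem four_dvd {r : ℕ} (hr : Odd r) : 4 ∣ 3 * r ^ 2 + 1 := by
  obtain ⟨s, rfl⟩ := hr
  exact ⟨3 * s ^ 2 + 3 * s + 1, by ring⟩

end Num

/-! ### Automorphisms -/

section Aut

variable (j : ℕ)

theorem irr : Irreducible (cyclotomic (2 ^ (j + 2)) ℚ) :=
  cyclotomic.irreducible_rat (by positivity)

/-- the isomorphism of the Galois group with the units -/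
noncomputable def Psi : (EE j ≃ₐ[ℚ] EE j) ≃* (ZMod (2 ^ (j + 2)))ˣ :=
  IsCyclotomicExtension.autEquivPow (EE j) (irr j)

/-- the root of unity -/
noncomputable def zt : EE j := IsCyclotomicExtension.zeta (2 ^ (j + 2)) ℚ (EE j)

theorem zt_spec : IsPrimitiveRoot (zt j) (2 ^ (j + 2)) :=
  IsCyclotomicExtension.zeta_spec (2 ^ (j + 2)) ℚ (EE j)

theorem Psi_spec (σ : EE j ≃ₐ[ℚ] EE j) :
    σ (zt j) = zt j ^ ((Psi j σ : (ZMod (2 ^ (j + 2)))ˣ) : ZMod (2 ^ (j + 2))).val :=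
  ((zt_spec j).autToPow_spec ℚ σ).symm

theorem pow_iff (a b : ℕ) : zt j ^ a = zt j ^ b ↔ a ≡ b [MOD 2 ^ (j + 2)] := by
  have hu : IsUnit (zt j) := (zt_spec j).isUnit (by positivity)
  have h := pow_eq_pow_iff_modEq (x := hu.unit) (n := a) (m := b)
  rw [← orderOf_units, hu.unit_spec, ← (zt_spec j).eq_orderOf] at h
  rw [← h]
  constructor
  · intro h1
    apply Units.ext
    exact h1
  · intro h1
    exact congrArg Units.val h1

theorem isq : (zt j ^ 2 ^ j) ^ 2 = -1 := by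
  have h1 : (zt j ^ 2 ^ j) ^ 2 * (zt j ^ 2 ^ j) ^ 2 = 1 := by
    rw [← pow_mul, ← pow_add, ← (zt_spec j).pow_eq_one]
    congr 1
    ring
  have h2 : (zt j ^ 2 ^ j) ^ 2 ≠ 1 := by
    rw [← pow_mul, ← pow_zero (zt j), Ne, pow_iff]
    intro h
    have h3 := (Nat.modEq_zero_iff_dvd).1 h
    have h4 := Nat.le_of_dvd (by positivity) h3
    have h5 : 2 ^ (j + 2) = 4 * 2 ^ j := by ring
    have : 0 < 2 ^ j := by positivity
    omega
  rcases mul_self_eq_one_iff.1 h1 with h | h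
  · exact absurd h h2
  · exact h

theorem map_pow_zt (σ : EE j ≃ₐ[ℚ] EE j) (a : ℕ) : σ (zt j ^ a) =
    zt j ^ (((Psi j σ : (ZMod (2 ^ (j + 2)))ˣ) : ZMod (2 ^ (j + 2))).val * a) := by
  rw [map_pow, Psi_spec, pow_mul]

theorem unitsMap_iff (t : (ZMod (2 ^ (j + 2)))ˣ) :
    ZMod.unitsMap (dv4 j) t = 1 ↔ (t : ZMod (2 ^ (j + 2))).val ≡ 1 [MOD 4] := by
  have h1 : ((ZMod.unitsMap (dv4 j) t : (ZMod 4)ˣ) : ZMod 4) =
      (((t : ZMod (2 ^ (j + 2))).val : ℕ) : ZMod 4) := by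
    rw [ZMod.unitsMap_val, ZMod.natCast_val]
  rw [← ZMod.natCast_eq_natCast_iff, ← h1, Nat.cast_one]
  exact ⟨fun h => by rw [h, Units.val_one], fun h => Units.ext h⟩

theorem fix_i (σ : EE j ≃ₐ[ℚ] EE j) :
    σ (zt j ^ 2 ^ j) = zt j ^ 2 ^ j ↔ ZMod.unitsMap (dv4 j) (Psi j σ) = 1 := by
  rw [unitsMap_iff, map_pow_zt, pow_iff]
  generalize ((Psi j σ : (ZMod (2 ^ (j + 2)))ˣ) : ZMod (2 ^ (j + 2))).val = v
  have h5 : 2 ^ (j + 2) = 4 * 2 ^ j := by ring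
  rw [h5]
  constructor
  · intro h
    have h6 : v * 2 ^ j ≡ 1 * 2 ^ j [MOD 4 * 2 ^ j] := by
      rw [one_mul]
      exact h
    exact Nat.ModEq.mul_right_cancel' (by positivity) h6
  · intro h
    have h6 := Nat.ModEq.mul_right' (2 ^ j) h
    rwa [one_mul] at h6

theorem fix4_iff (σ : EE j ≃ₐ[ℚ] EE j) :
    Fix4 (k := j + 2) σ ↔ ZMod.unitsMap (dv4 j) (Psi j σ) = 1 := by
  rw [← fix_i]
  constructor
  · intro h
    exact h _ (isq j)
  · intro h x hx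
    rcases sq_eq_sq_iff_eq_or_eq_neg.1 (hx.trans (isq j).symm) with h1 | h1
    · rw [h1, h]
    · rw [h1, map_neg, h]

/-- the generator -/
noncomputable def gg : EE j ≃ₐ[ℚ] EE j := (Psi j).symm (u5 j)

theorem Psi_gg : Psi j (gg j) = u5 j := (Psi j).apply_symm_apply _

theorem mem_zp {σ : EE j ≃ₐ[ℚ] EE j} (h : ZMod.unitsMap (dv4 j) (Psi j σ) = 1) :
    σ ∈ Subgroup.zpowers (gg j) := by
  obtain ⟨z, hz⟩ := Subgroup.mem_zpowers_iff.1 (mem_five j h)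
  refine Subgroup.mem_zpowers_iff.2 ⟨z, (Psi j).injective ?_⟩
  rw [map_zpow, Psi_gg, hz]

theorem fix_gg : Fix4 (k := j + 2) (gg j) := by
  rw [fix4_iff, Psi_gg]
  apply Units.ext
  rw [ZMod.unitsMap_val, u5_val]
  have h2 : ((5 : ZMod (2 ^ (j + 2))).cast : ZMod 4) = ZMod.castHom (dv4 j) (ZMod 4) 5 := rfl
  rw [h2, map_ofNat]
  rfl

theorem order_gg : orderOf (gg j) = 2 ^ j := by
  rw [← order_u5 j, ← Psi_gg j]
  exact ((Psi j).orderOf_eq (gg j)).symm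

theorem gg_zt : gg j (zt j) = zt j ^ 5 := by
  rw [Psi_spec, Psi_gg, pow_iff, ← ZMod.natCast_eq_natCast_iff, ZMod.natCast_val, ZMod.cast_id,
    u5_val]
  norm_num

theorem gg_pow (i : ℕ) : (gg j ^ i) (zt j) = zt j ^ (5 ^ i) := by
  induction i with
  | zero => simp
  | succ i ih =>
    have h : gg j ^ (i + 1) = gg j ^ i * gg j := pow_succ _ _
    rw [h, AlgEquiv.mul_apply, gg_zt, map_pow, ih, ← pow_mul]
    congr 1

/-- complex conjugation -/
noncomputable def cc : EE j ≃ₐ[ℚ] EE j := (Psi j).symm (-1)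

theorem Psi_cc : Psi j (cc j) = -1 := (Psi j).apply_symm_apply _

theorem cc_zt : cc j (zt j) * zt j = 1 := by
  rw [Psi_spec, Psi_cc]
  have h1 : zt j ^ (((-1 : (ZMod (2 ^ (j + 2)))ˣ) : ZMod (2 ^ (j + 2))).val + 1) = zt j ^ 0 := by
    rw [pow_iff, ← ZMod.natCast_eq_natCast_iff, Nat.cast_add, ZMod.natCast_val, ZMod.cast_id]
    simp
  rw [← pow_succ, h1, pow_zero]

theorem comm (σ τ : EE j ≃ₐ[ℚ] EE j) (x : EE j) : σ (τ x) = τ (σ x) := by
  have h : σ * τ = τ * σ := (Psi j).injective (by rw [map_mul, map_mul, mul_comm])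
  exact congrArg (fun ρ : EE j ≃ₐ[ℚ] EE j => ρ x) h

theorem cc_cc (x : EE j) : cc j (cc j x) = x := by
  have h : cc j * cc j = 1 := (Psi j).injective (by rw [map_mul, Psi_cc, map_one]; simp)
  exact congrArg (fun ρ : EE j ≃ₐ[ℚ] EE j => ρ x) h

theorem ext_hom (φ ψ : EE j →+* ℂ) (h : φ (zt j) = ψ (zt j)) : φ = ψ := by
  have h1 : φ.toRatAlgHom = ψ.toRatAlgHom := by
    apply ((zt_spec j).powerBasis ℚ).algHom_ext
    rw [IsPrimitiveRoot.powerBasis_gen]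
    exact h
  ext x
  exact congrArg (fun ρ : EE j →ₐ[ℚ] ℂ => ρ x) h1

theorem conj_apply (φ : EE j →+* ℂ) (x : EE j) : φ (cc j x) = starRingEnd ℂ (φ x) := by
  have h : φ.comp ((cc j : EE j ≃ₐ[ℚ] EE j) : EE j ≃+* EE j).toRingHom =
      (starRingEnd ℂ).comp φ := by
    apply ext_hom
    change φ (cc j (zt j)) = starRingEnd ℂ (φ (zt j))
    have h1 : φ (cc j (zt j)) * φ (zt j) = 1 := by rw [← map_mul, cc_zt, map_one]
    have h2 : ‖φ (zt j)‖ = 1 := by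
      have h3 : φ (zt j) ^ (2 ^ (j + 2)) = 1 := by
        rw [← map_pow, (zt_spec j).pow_eq_one, map_one]
      exact Complex.norm_eq_one_of_pow_eq_one h3 (by positivity)
    have h4 : starRingEnd ℂ (φ (zt j)) * φ (zt j) = 1 := by
      rw [mul_comm, Complex.mul_conj, Complex.normSq_eq_norm_sq, h2]
      norm_num
    have h5 : φ (zt j) ≠ 0 := by
      intro h6
      rw [h6, norm_zero] at h2
      exact zero_ne_one h2
    exact mul_right_cancel₀ h5 (h1.trans h4.symm)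
  exact congrArg (fun ρ : EE j →+* ℂ => ρ x) h

/-- A number fixed by `g` and `c` is fixed by all automorphisms. -/
theorem fixed {x : EE j} (h1 : gg j x = x) (h2 : cc j x = x) (σ : EE j ≃ₐ[ℚ] EE j) : σ x = x := by
  have hz : ∀ τ : EE j ≃ₐ[ℚ] EE j, ZMod.unitsMap (dv4 j) (Psi j τ) = 1 → τ x = x := by
    intro τ hτ
    have h3 : Subgroup.zpowers (gg j) ≤ MulAction.stabilizer (EE j ≃ₐ[ℚ] EE j) x := by
      rw [Subgroup.zpowers_le]
      exact h1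
    exact h3 (mem_zp j hτ)
  rcases one_or (ZMod.unitsMap (dv4 j) (Psi j σ)) with h | h
  · exact hz σ h
  · have h3 := hz (σ * cc j) (by
      rw [map_mul, map_mul, h, Psi_cc]
      have h4 : ZMod.unitsMap (dv4 j) (-1) = -1 := by
        apply Units.ext
        have h5 : ZMod.castHom (dv4 j) (ZMod 4) (-1) = -1 := by rw [map_neg, map_one]
        exact h5
      rw [h4]
      simp)
    rw [AlgEquiv.mul_apply, h2] at h3
    exact h3

theorem norm_one (u : (𝓞 (EE j))ˣ) (hu : gg j ((u : 𝓞 (EE j)) : EE j) = ((u : 𝓞 (EE j)) : EE j))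
    (φ : EE j →+* ℂ) : ‖φ ((u : 𝓞 (EE j)) : EE j)‖ = 1 := by
  have hG : IsGalois ℚ (EE j) := IsCyclotomicExtension.isGalois {2 ^ (j + 2)} ℚ (EE j)
  set x : EE j := ((u : 𝓞 (EE j)) : EE j) with hx
  have hfix : ∀ σ : EE j ≃ₐ[ℚ] EE j, σ (x * cc j x) = x * cc j x := by
    apply fixed
    · rw [map_mul, comm, hu]
    · rw [map_mul, cc_cc, mul_comm]
  have h1 := Algebra.norm_eq_prod_automorphisms ℚ (x * cc j x)
  rw [Finset.prod_congr rfl fun σ _ => hfix σ, Finset.prod_const, Finset.card_univ] at h1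
  have h2 : |Algebra.norm ℚ x| = 1 := Units.norm (EE j) u
  have h3 : Algebra.norm ℚ (cc j x) = Algebra.norm ℚ x := by
    apply (algebraMap ℚ (EE j)).injective
    rw [Algebra.norm_eq_prod_automorphisms, Algebra.norm_eq_prod_automorphisms]
    exact Fintype.prod_equiv (Equiv.mulRight (cc j)) _ _ fun σ => rfl
  have h4 : |Algebra.norm ℚ (x * cc j x)| = 1 := by
    rw [map_mul, h3, abs_mul, h2, one_mul]
  have h5 : ‖φ (algebraMap ℚ (EE j) (Algebra.norm ℚ (x * cc j x)))‖ = 1 := by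
    have h6 : φ (algebraMap ℚ (EE j) (Algebra.norm ℚ (x * cc j x))) =
        ((Algebra.norm ℚ (x * cc j x) : ℚ) : ℂ) := by
      rw [eq_ratCast, map_ratCast]
    rw [h6]
    have h7 : ‖((Algebra.norm ℚ (x * cc j x) : ℚ) : ℂ)‖ =
        ((|Algebra.norm ℚ (x * cc j x)| : ℚ) : ℝ) := by
      rw [Complex.norm_ratCast, Rat.cast_abs]
    rw [h7, h4, Rat.cast_one]
  rw [h1, map_pow, norm_pow, map_mul, norm_mul, conj_apply, RCLike.norm_conj] at h5
  have h8 : ‖φ x‖ * ‖φ x‖ = 1 := by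
    refine (pow_eq_one_iff_of_nonneg (by positivity) ?_).1 h5
    exact Fintype.card_ne_zero
  have h9 : 0 ≤ ‖φ x‖ := norm_nonneg _
  nlinarith

theorem root (u : (𝓞 (EE j))ˣ) (hu : gg j ((u : 𝓞 (EE j)) : EE j) = ((u : 𝓞 (EE j)) : EE j)) :
    ∃ b : ℕ, ((u : 𝓞 (EE j)) : EE j) = zt j ^ b := by
  obtain ⟨N, hN, h1⟩ := Embeddings.pow_eq_one_of_norm_eq_one (EE j) ℂ
    (RingOfIntegers.isIntegral_coe (u : 𝓞 (EE j))) (norm_one j u hu)
  have h2 : u ^ N = 1 := by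
    apply Units.ext
    apply RingOfIntegers.ext
    show (algebraMap (𝓞 (EE j)) (EE j)) ((u : 𝓞 (EE j)) ^ N) = algebraMap (𝓞 (EE j)) (EE j) 1
    rw [map_pow, h1, map_one]
  have h3 : u ∈ Units.torsion (EE j) := by
    rw [Units.torsion, CommGroup.mem_torsion]
    exact isOfFinOrder_iff_pow_eq_one.2 ⟨N, hN, h2⟩
  have h4 : (⟨u, h3⟩ : Units.torsion (EE j)) ^ (2 ^ (j + 2)) = 1 := by
    have h5 := IsCyclotomicExtension.Rat.torsionOrder_eq (n := 2 ^ (j + 2)) (K := EE j)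
    rw [if_pos (by rw [pow_succ]; exact even_iff_two_dvd.2 (Dvd.intro_left _ rfl))] at h5
    have h6 : (⟨u, h3⟩ : Units.torsion (EE j)) ^ (Units.torsionOrder (EE j)) = 1 :=
      pow_card_eq_one'
    have h7 := congrArg (fun m : ℕ => (⟨u, h3⟩ : Units.torsion (EE j)) ^ m) h5
    exact h7.symm.trans h6
  have h5 : ((u : 𝓞 (EE j)) : EE j) ^ (2 ^ (j + 2)) = 1 := by
    have h6 := congrArg (fun y : Units.torsion (EE j) => (((y : (𝓞 (EE j))ˣ) : 𝓞 (EE j)) : EE j)) h4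
    exact h6
  obtain ⟨b, -, hb⟩ := (zt_spec j).eq_pow_of_pow_eq_one h5
  exact ⟨b, hb.symm⟩

end Aut

end AU4

open AU4 in
theorem AU4_thm : Stmt_AU4 := by
  intro k hk
  obtain ⟨j, rfl⟩ : ∃ j, k = j + 2 := ⟨k - 2, by omega⟩
  refine ⟨gg j, fix_gg j, fun h hh => mem_zp j ((fix4_iff j h).1 hh), ?_⟩
  intro u hu
  obtain ⟨b, hb⟩ := root j u hu
  obtain ⟨t, rfl⟩ : 2 ^ j ∣ b := by
    rw [hb, map_pow, gg_zt, ← pow_mul, pow_iff] at hu
    have h1 : 2 ^ (j + 2) ∣ 5 * b - b := (Nat.modEq_iff_dvd' (by omega)).1 hu.symm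
    have h2 : 5 * b - b = 4 * b := by omega
    have h3 : 2 ^ (j + 2) = 4 * 2 ^ j := by ring
    rw [h2, h3] at h1
    exact Nat.dvd_of_mul_dvd_mul_left (by norm_num) h1
  obtain ⟨r, hr, hS⟩ := five_dvd j
  let w : (𝓞 (EE j))ˣ := ((zt_spec j).toInteger_isPrimitiveRoot.isUnit (NeZero.ne _)).unit
  have hw : ((w : 𝓞 (EE j)) : EE j) = zt j := rfl
  refine ⟨w ^ (3 * r * t), ?_⟩
  have h1 : (((w ^ (3 * r * t) : (𝓞 (EE j))ˣ) : 𝓞 (EE j)) : EE j) = zt j ^ (3 * r * t) := by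
    rw [← hw]
    rfl
  rw [h1, hb, order_gg]
  have h2 : ∏ i ∈ Finset.range (2 ^ j), (gg j ^ i) (zt j ^ (3 * r * t)) =
      zt j ^ (2 ^ j * r * (3 * r * t)) := by
    rw [← hS, Finset.sum_mul, ← Finset.prod_pow_eq_pow_sum]
    refine Finset.prod_congr rfl fun i _ => ?_
    rw [map_pow, gg_pow, ← pow_mul]
  rw [h2, ← pow_add, ← pow_zero (zt j), pow_iff, Nat.modEq_zero_iff_dvd]
  obtain ⟨s, hs⟩ := four_dvd hr
  have h3 : 2 ^ j * r * (3 * r * t) + 2 ^ j * t = 2 ^ j * t * (3 * r ^ 2 + 1) := by ring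
  rw [h3, hs]
  exact ⟨t * s, by ring⟩

end ABS
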