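import Pool.Agent.ABS.StB

/-!
# Project ABS, module BASE: the faithful case
-/

open NumberField IsDedekindDomain
open scoped TensorProduct Classical

namespace StarkC.ABS

namespace BASEx

theorem mem_Ex {n t : ℕ} : t ∈ Ex n ↔ t < n ∧ n.Coprime t := by
  simp [Ex]

/-- a product over the exponents of conjugate pairs is positive -/
theorem pair_prod {n : ℕ} (hn : 3 ≤ n) (f : ℕ → ℂ)
    (hc : ∀ t ∈ Ex n, f (n - t) = starRingEnd ℂ (f t)) (h0 : ∀ t ∈ Ex n, f t ≠ 0) :
    ∃ r : ℝ, 0 < r ∧ ∏ t ∈ Ex n, f t = (r : ℂ) := by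
  set A := (Ex n).filter fun t => 2 * t < n with hA
  have hne : ∀ t ∈ Ex n, 2 * t ≠ n := by
    intro t ht h
    obtain ⟨h1, h2⟩ := mem_Ex.1 ht
    have h3 : t ∣ n := ⟨2, by omega⟩
    have h4 : Nat.gcd n t = t := Nat.gcd_eq_right h3
    have h5 : Nat.gcd n t = 1 := h2
    omega
  have hpos : ∀ t ∈ Ex n, 0 < t := by
    intro t ht
    obtain ⟨h1, h2⟩ := mem_Ex.1 ht
    rcases Nat.eq_zero_or_pos t with h | h
    · subst h
      have h5 : Nat.gcd n 0 = 1 := h2
      rw [Nat.gcd_zero_right] at h5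
      omega
    · exact h
  have hmem : ∀ t ∈ Ex n, n - t ∈ Ex n := by
    intro t ht
    obtain ⟨h1, h2⟩ := mem_Ex.1 ht
    have h3 := hpos t ht
    refine mem_Ex.2 ⟨by omega, ?_⟩
    exact (Nat.coprime_self_sub_right h1.le).2 h2
  have hsplit : ∏ t ∈ Ex n, f t = ∏ t ∈ A, (f t * f (n - t)) := by
    rw [Finset.prod_mul_distrib, ← Finset.prod_filter_mul_prod_filter_not (Ex n)
      (fun t => 2 * t < n) f]
    congr 1
    symm
    refine Finset.prod_bij (fun t _ => n - t) ?_ ?_ ?_ ?_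
    · intro t ht
      obtain ⟨h1, h2⟩ := Finset.mem_filter.1 ht
      exact Finset.mem_filter.2 ⟨hmem t h1, by omega⟩
    · intro a ha b hb hab
      obtain ⟨h1, h2⟩ := Finset.mem_filter.1 ha
      obtain ⟨h3, h4⟩ := Finset.mem_filter.1 hb
      have := (mem_Ex.1 h1).1
      have := (mem_Ex.1 h3).1
      omega
    · intro t ht
      obtain ⟨h1, h2⟩ := Finset.mem_filter.1 ht
      have h3 := (mem_Ex.1 h1).1
      have h4 := hne t h1
      exact ⟨n - t, Finset.mem_filter.2 ⟨hmem t h1, by omega⟩, by omega⟩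
    · intro t _
      rfl
  refine ⟨∏ t ∈ A, ‖f t‖ ^ 2, Finset.prod_pos fun t ht => ?_, ?_⟩
  · have h1 := norm_pos_iff.2 (h0 t (Finset.mem_filter.1 ht).1)
    positivity
  · rw [hsplit, Complex.ofReal_prod]
    refine Finset.prod_congr rfl fun t ht => ?_
    rw [hc t (Finset.mem_filter.1 ht).1, Complex.mul_conj']
    push_cast
    rfl

theorem isCyclic_of_inj {G : Type} [Group G] [Finite G] (ψ : G →* ℂˣ)
    (h : Function.Injective ψ) : IsCyclic G := by
  have h1 : Function.Injective ((Units.coeHom ℂ).comp ψ) := by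
    intro a b hab
    exact h (Units.ext hab)
  exact isCyclic_of_injective_ringHom _ h1

theorem three_le {ℓ k : ℕ} (h : OkOrd ℓ k) : 3 ≤ ℓ ^ k := h.2.2

end BASEx

theorem BASE_thm : Stmt_BASE := by
  intro hSIGT hNORMT hNPOS hCHI hREGI hREGB hLFB hREGC hZ hC K L _ _ _ _ _ _ ℓ k ψ hok hcard hinj φ Θ hφ
  have hn3 := BASEx.three_le hok
  have hcyc : IsCyclic (L ≃ₐ[K] L) := BASEx.isCyclic_of_inj ψ hinj
  have hfact : Fact ℓ.Prime := ⟨hok.1⟩
  obtain ⟨B, hB⟩ := Sylow.exists_subgroup_card_pow_prime (G := L ≃ₐ[K] L) ℓ (n := 1)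
    (by rw [hcard]; exact pow_dvd_pow ℓ hok.2.1)
  rw [pow_one] at hB
  have hpow : ψ ^ (ℓ ^ k) = 1 := by
    refine MonoidHom.ext fun g => ?_
    rw [MonoidHom.pow_apply, ← map_pow, ← hcard, pow_card_eq_one', map_one]
    rfl
  obtain ⟨ZL, hZL, tL⟩ := hZ L
  obtain ⟨ZF, hZF, tF⟩ := hZ (IntermediateField.fixedField B)
  obtain ⟨α, hα, hcore⟩ := hC K L ℓ k B φ Θ hok hcyc hcard hB hφ
  have hreg := hREGB hCHI hREGI K L ℓ k ψ B ∅ φ Θ hok.1 hok.2.1 hcard hinj hB hφ
  obtain ⟨r, hr, hnm⟩ := hNPOS hSIGT hNORMT (ℓ ^ k) hn3 α hα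
  have hTf : (aboveSet K L ((∅ : Finset (HeightOneSpectrum (𝓞 K))) :
      Set (HeightOneSpectrum (𝓞 K)))).Finite :=
    IND.aboveSet_finite _ (Finset.finite_toSet _)
  have hb := ALLT.thb K L _ φ Θ hTf hφ
  have hdet : LinearMap.det Θ ≠ 0 := by
    have := LinearEquiv.isUnit_det' (LinearEquiv.ofBijective Θ hb)
    exact this.ne_zero
  have hcR : cReg (ℓ ^ k) (aboveSet K L ((∅ : Finset (HeightOneSpectrum (𝓞 K))) :
      Set (HeightOneSpectrum (𝓞 K)))) ψ Θ ≠ 0 := by
    intro h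
    rw [h, zero_mul] at hreg
    exact hdet hreg.symm
  have hRF : Reg (aboveSet K L ((∅ : Finset (HeightOneSpectrum (𝓞 K))) :
      Set (HeightOneSpectrum (𝓞 K))))
      (linRep (1 : (L ≃ₐ[IntermediateField.fixedField B] L) →* ℂˣ)) Θ ≠ 0 := by
    intro h
    rw [h, mul_zero] at hreg
    exact hdet hreg.symm
  -- positivity
  obtain ⟨c, hc, hcR2⟩ := BASEx.pair_prod hn3
    (fun t => Reg (aboveSet K L ((∅ : Finset (HeightOneSpectrum (𝓞 K))) :
      Set (HeightOneSpectrum (𝓞 K)))) (linRep (ψ ^ t)) Θ) (fun t ht => by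
        have h1 := (BASEx.mem_Ex.1 ht).1
        have h2 : ψ ^ (ℓ ^ k - t) = (ψ ^ t)⁻¹ := by
          refine MonoidHom.ext fun g => ?_
          have h4 := DFunLike.congr_fun hpow g
          rw [MonoidHom.pow_apply] at h4
          rw [MonoidHom.inv_apply, MonoidHom.pow_apply, MonoidHom.pow_apply,
            eq_inv_iff_mul_eq_one, ← pow_add, Nat.sub_add_cancel h1.le]
          exact h4
        have h3 := hREGC K L (ψ ^ t) ∅ φ Θ hφ
        rw [← h2] at h3
        exact h3)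
    (fun t ht h0 => hcR (Finset.prod_eq_zero ht h0))
  have hcR3 : cReg (ℓ ^ k) (aboveSet K L ((∅ : Finset (HeightOneSpectrum (𝓞 K))) :
      Set (HeightOneSpectrum (𝓞 K)))) ψ Θ = (c : ℂ) := hcR2
  -- the L-function
  have hLne : (Units.regulator L : ℝ) ≠ 0 := (Units.regulator_pos L).ne'
  refine ⟨fun z => ZL z * (ZF z)⁻¹, α, ⟨fun z => ((hZL.1 z).mul (hZF.1 z).inv), ?_⟩, hα, ?_⟩
  · intro s hs
    have h1 := hLFB hCHI K L ℓ k ψ B s hok.1 hok.2.1 hcard hinj hB hs
    rw [Finset.coe_empty, h1, Complex.exp_sub, div_eq_mul_inv]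
    show ZL s * (ZF s)⁻¹ = _
    rw [hZL.2 s hs, hZF.2 s hs]
  · have htr : meromorphicTrailingCoeffAt (fun z => ZL z * (ZF z)⁻¹) 0 =
        meromorphicTrailingCoeffAt ZL 0 * (meromorphicTrailingCoeffAt ZF 0)⁻¹ := by
      have h1 := MeromorphicAt.meromorphicTrailingCoeffAt_mul (hZL.1 0) (hZF.1 0).inv
      rw [meromorphicTrailingCoeffAt_inv] at h1
      exact h1
    have hn1 : ‖LinearMap.det Θ‖ = c * ‖Reg (aboveSet K L
        ((∅ : Finset (HeightOneSpectrum (𝓞 K))) : Set (HeightOneSpectrum (𝓞 K))))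
        (linRep (1 : (L ≃ₐ[IntermediateField.fixedField B] L) →* ℂˣ)) Θ‖ := by
      rw [← hreg, norm_mul, hcR3, Complex.norm_real, Real.norm_of_nonneg hc.le]
    have hn2 : ‖nm (ℓ ^ k) α‖ = r := by
      rw [hnm, Complex.norm_real, Real.norm_of_nonneg hr.le]
    rw [hn1, hn2] at hcore
    have e1 : (0 : ℝ) < Units.regulator L := Units.regulator_pos L
    have e2 : (0 : ℝ) < Units.regulator (IntermediateField.fixedField B) :=
      Units.regulator_pos _
    have e3 : (0 : ℝ) < (classNumber L : ℝ) := by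
      exact_mod_cast Nat.pos_of_ne_zero (classNumber_ne_zero L)
    have e4 : (0 : ℝ) < (classNumber (IntermediateField.fixedField B) : ℝ) := by
      exact_mod_cast Nat.pos_of_ne_zero (classNumber_ne_zero _)
    have e5 : (0 : ℝ) < (Units.torsionOrder L : ℝ) := by
      exact_mod_cast Nat.pos_of_ne_zero (Units.torsionOrder_ne_zero L)
    have e6 : (0 : ℝ) < (Units.torsionOrder (IntermediateField.fixedField B) : ℝ) := by
      exact_mod_cast Nat.pos_of_ne_zero (Units.torsionOrder_ne_zero _)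
    have e7 := norm_pos_iff.2 hRF
    have key : c = r * (((classNumber L : ℝ) * Units.regulator L / (Units.torsionOrder L : ℝ)) *
        ((classNumber (IntermediateField.fixedField B) : ℝ) *
          Units.regulator (IntermediateField.fixedField B) /
          (Units.torsionOrder (IntermediateField.fixedField B) : ℝ))⁻¹) := by
      field_simp
      field_simp at hcore
      linarith
    rw [htr, hcR3, hnm, tL, tF, key]
    push_cast
    rw [inv_neg, neg_mul_neg]

end StarkC.ABS
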