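import Pool.Agent.ABS.StF

/-!
# ABS: the field of values of a linear character (MP_46b841_nt)
-/

open scoped Classical

namespace StarkC.ABS

namespace CFLx

/-- a linear character of a finite group takes a value of the order of the character -/
theorem exists_gen (G : Type) [Group G] [Finite G] (ψ : G →* ℂˣ) :
    ∃ g : G, orderOf (ψ g) = orderOf ψ := by
  have hfin : Finite ψ.range := Set.finite_range ψ
  obtain ⟨⟨_, g, rfl⟩, hg⟩ := IsCyclic.exists_generator (α := ψ.range)
  have h1 : orderOf (ψ g) = Nat.card ψ.range := by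
    have h2 := orderOf_eq_card_of_forall_mem_zpowers hg
    rw [← h2]
    exact Subgroup.orderOf_coe (⟨ψ g, ⟨g, rfl⟩⟩ : ψ.range)
  refine ⟨g, Nat.dvd_antisymm ?_ ?_⟩
  · rw [orderOf_dvd_iff_pow_eq_one]
    have h3 := DFunLike.congr_fun (pow_orderOf_eq_one ψ) g
    rwa [MonoidHom.pow_apply, MonoidHom.one_apply] at h3
  · rw [orderOf_dvd_iff_pow_eq_one]
    ext x
    rw [MonoidHom.pow_apply, MonoidHom.one_apply, h1]
    have h4 : (⟨ψ x, x, rfl⟩ : ψ.range) ^ Nat.card ψ.range = 1 := pow_card_eq_one'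
    have h5 := congrArg Subtype.val h4
    exact congrArg Units.val h5

end CFLx

theorem CFL_thm : Stmt_CFL := by
  intro G _ _ ψ
  obtain ⟨g, hg⟩ := CFLx.exists_gen G ψ
  have hpos : 0 < orderOf (ψ g) := by
    have h1 : ψ g ^ Nat.card G = 1 := by rw [← map_pow, pow_card_eq_one', map_one]
    exact orderOf_pos_iff.2 (isOfFinOrder_iff_pow_eq_one.2 ⟨Nat.card G, Nat.card_pos, h1⟩)
  have hprim : IsPrimitiveRoot ((ψ g : ℂˣ) : ℂ) (orderOf ψ) := by
    rw [← hg, IsPrimitiveRoot.coe_units_iff]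
    exact IsPrimitiveRoot.orderOf (ψ g)
  have hset : Set.range (fun g => ((ψ g : ℂˣ) : ℂ)) = {z : ℂ | z ^ orderOf ψ = 1} := by
    ext z
    constructor
    · rintro ⟨x, rfl⟩
      have h3 := DFunLike.congr_fun (pow_orderOf_eq_one ψ) x
      rw [MonoidHom.pow_apply, MonoidHom.one_apply] at h3
      have h4 := congrArg Units.val h3
      rwa [Units.val_pow_eq_pow_val, Units.val_one] at h4
    · intro hz
      have : NeZero (orderOf ψ) := ⟨by rw [← hg]; exact hpos.ne'⟩
      obtain ⟨i, _, hi⟩ := hprim.eq_pow_of_pow_eq_one hz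
      refine ⟨g ^ i, ?_⟩
      show ((ψ (g ^ i) : ℂˣ) : ℂ) = z
      rw [map_pow, Units.val_pow_eq_pow_val, hi]
  unfold StarkP.charField Cyc
  rw [hset]

end StarkC.ABS
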