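import Pool.Agent.ABS.StB

/-!
# Numbers fixed by all automorphisms of `ℂ` over `ℚ(ζ_n)`
-/

set_option autoImplicit false

namespace StarkC.ABS

namespace FIXCx

/-- A number fixed by all automorphisms of `ℂ` over a subfield `F` is in `F`. -/
theorem core (F : Subfield ℂ) (x : ℂ)
    (h : ∀ σ : ℂ ≃+* ℂ, (∀ y ∈ F, σ y = y) → σ x = x) : x ∈ F := by
  by_cases halg : IsAlgebraic F x
  · have hmem : x ∈ algebraicClosure F ℂ := mem_algebraicClosure_iff.2 halg
    have hnormal : Normal F (algebraicClosure F ℂ) := IsAlgClosure.normal F _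
    have hgal : IsGalois F (algebraicClosure F ℂ) := { }
    have hfix : (⟨x, hmem⟩ : algebraicClosure F ℂ) ∈
        Set.range (algebraMap F (algebraicClosure F ℂ)) := by
      rw [InfiniteGalois.mem_range_algebraMap_iff_fixed]
      intro τ
      obtain ⟨σ, hσ, hσ2⟩ := StarkAlg.AutF.exists_extend F τ
      apply Subtype.ext
      rw [← hσ2]
      exact h σ hσ
    obtain ⟨y, hy⟩ := hfix
    have h1 : ((algebraMap F (algebraicClosure F ℂ) y : algebraicClosure F ℂ) : ℂ) = x :=
      congrArg Subtype.val hy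
    rw [← h1]
    exact y.2
  · obtain ⟨σ, hσ, h1⟩ := StarkAlg.AutF.exists_transcendental F x halg
    have h2 := h σ hσ
    rw [h1] at h2
    exact absurd h2 (by simp)

end FIXCx

/-- A number fixed by all automorphisms of `ℂ` over `ℚ(ζ_n)` is in `ℚ(ζ_n)`. -/
theorem FIXC_thm : Stmt_FIXC := by
  intro n x h
  have h1 : x ∈ (Cyc n).toSubfield := FIXCx.core (Cyc n).toSubfield x fun σ hσ =>
    h σ fun y hy => hσ y hy
  exact h1

end StarkC.ABS
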