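import Pool.Agent.ABS.StF
import Pool.Agent.ABS.FIXC

/-!
# Subfields of `ℂ` fixed by the same automorphisms
-/

set_option autoImplicit false

namespace StarkC.ABS

/-- Two subfields of `ℂ` fixed by the same automorphisms of `ℂ` are equal. -/
theorem CFR_thm : Stmt_CFR := by
  intro G n χ h
  apply le_antisymm
  · refine IntermediateField.adjoin_le_iff.2 ?_
    rintro _ ⟨g, rfl⟩
    refine FIXC_thm n (χ g) fun σ hσ => ?_
    exact (h σ).2 (fun z hz => hσ z (IntermediateField.subset_adjoin ℚ _ hz)) g
  · refine IntermediateField.adjoin_le_iff.2 ?_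
    intro z hz
    have h1 : z ∈ (StarkP.charField χ).toSubfield :=
      FIXCx.core (StarkP.charField χ).toSubfield z fun σ hσ =>
        (h σ).1 (fun g => hσ (χ g) (IntermediateField.subset_adjoin ℚ _ ⟨g, rfl⟩)) z hz
    exact h1

end StarkC.ABS
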