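import Pool.Agent.ABS.StB

/-!
# ABS_CHI: Ramanujan sums of prime power order
-/

set_option autoImplicit false

open NumberField IsDedekindDomain
open scoped TensorProduct Classical

namespace StarkC.ABS

namespace CHIx

lemma geom (n : ℕ) (z : ℂ) (hz : z ^ n = 1) :
    ∑ t ∈ Finset.range n, z ^ t = if z = 1 then (n : ℂ) else 0 := by
  split_ifs with h
  · simp [h]
  · rw [geom_sum_eq h, hz, sub_self, zero_div]

lemma sumEx (ℓ k : ℕ) (hl : ℓ.Prime) (hk : 0 < k) (z : ℂ) (hz : z ^ (ℓ ^ k) = 1) :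
    ∑ t ∈ Ex (ℓ ^ k), z ^ t =
      (if z = 1 then ((ℓ ^ k : ℕ) : ℂ) else 0) -
        (if z ^ ℓ = 1 then ((ℓ ^ (k - 1) : ℕ) : ℂ) else 0) := by
  obtain ⟨j, rfl⟩ : ∃ j, k = j + 1 := ⟨k - 1, by omega⟩
  have hco : ∀ t, (ℓ ^ (j + 1)).Coprime t ↔ ¬ ℓ ∣ t := by
    intro t
    rw [Nat.coprime_pow_left_iff (Nat.succ_pos j), hl.coprime_iff_not_dvd]
  have h1 : ∑ t ∈ Finset.range (ℓ ^ (j + 1)), z ^ t =
      ∑ t ∈ (Finset.range (ℓ ^ (j + 1))).filter (fun t => ℓ ∣ t), z ^ t +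
        ∑ t ∈ Ex (ℓ ^ (j + 1)), z ^ t := by
    rw [← Finset.sum_filter_add_sum_filter_not (Finset.range (ℓ ^ (j + 1))) (fun t => ℓ ∣ t)]
    congr 1
    refine Finset.sum_congr ?_ fun _ _ => rfl
    unfold Ex
    ext t
    simp only [Finset.mem_filter, hco t]
  have h2 : ∑ t ∈ (Finset.range (ℓ ^ (j + 1))).filter (fun t => ℓ ∣ t), z ^ t =
      ∑ s ∈ Finset.range (ℓ ^ j), (z ^ ℓ) ^ s := by
    symm
    refine Finset.sum_bij (fun s _ => ℓ * s) ?_ ?_ ?_ ?_
    · intro s hs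
      rw [Finset.mem_range] at hs
      rw [Finset.mem_filter, Finset.mem_range]
      refine ⟨?_, dvd_mul_right _ _⟩
      rw [pow_succ, mul_comm]
      exact Nat.mul_lt_mul_of_pos_right hs hl.pos
    · intro s _ s' _ h
      exact Nat.eq_of_mul_eq_mul_left hl.pos h
    · intro t ht
      rw [Finset.mem_filter, Finset.mem_range] at ht
      obtain ⟨ht1, s, rfl⟩ := ht
      refine ⟨s, ?_, rfl⟩
      rw [Finset.mem_range]
      rw [pow_succ, mul_comm] at ht1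
      exact Nat.lt_of_mul_lt_mul_right ht1
    · intro s _
      rw [pow_mul]
  have h3 : (z ^ ℓ) ^ (ℓ ^ j) = 1 := by
    rw [← pow_mul, ← pow_succ', hz]
  rw [geom _ z hz, h2, geom _ _ h3] at h1
  rw [Nat.add_sub_cancel]
  rw [h1]
  ring

end CHIx

open CHIx in
theorem CHI_thm : Stmt_CHI := by
  intro G _ _ ℓ k ψ B hl hk hG hψ hB g
  have hcyc : IsCyclic G := isCyclic_of_injective_ringHom
    ((Units.coeHom ℂ).comp ψ) (fun a b h => hψ (Units.ext h))
  have hcomm : ∀ x : G, x⁻¹ * g * x = g := by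
    intro x
    apply hψ
    rw [map_mul, map_mul, map_inv]
    rw [mul_comm (ψ x)⁻¹, mul_assoc, inv_mul_cancel, mul_one]
  have hmemB : ∀ x : G, x ∈ B ↔ x ^ ℓ = 1 := by
    have h1 : (Finset.univ.filter fun x : G => x ∈ B) ⊆ Finset.univ.filter fun x : G => x ^ ℓ = 1 := by
      intro x hx
      rw [Finset.mem_filter] at hx ⊢
      refine ⟨Finset.mem_univ _, ?_⟩
      have h2 : (⟨x, hx.2⟩ : B) ^ Nat.card B = 1 := pow_card_eq_one'
      rw [hB] at h2
      exact congrArg Subtype.val h2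
    have h3 : (Finset.univ.filter fun x : G => x ∈ B).card = ℓ := by
      rw [← hB, Nat.card_eq_fintype_card, Fintype.card_subtype]
    have h4 : (Finset.univ.filter fun x : G => x ^ ℓ = 1).card ≤
        (Finset.univ.filter fun x : G => x ∈ B).card := by
      rw [h3]
      exact IsCyclic.card_pow_eq_one_le hl.pos
    have h5 := Finset.eq_of_subset_of_card_le h1 h4
    intro x
    have h6 := Finset.ext_iff.1 h5 x
    simpa using h6
  have hz : ((ψ g : ℂˣ) : ℂ) ^ (ℓ ^ k) = 1 := by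
    rw [← Units.val_pow_eq_pow_val, ← map_pow, ← hG, pow_card_eq_one', map_one, Units.val_one]
  have hz1 : ((ψ g : ℂˣ) : ℂ) = 1 ↔ g = 1 := by
    rw [Units.val_eq_one, ← map_one ψ]
    exact ⟨fun h => hψ h, fun h => congrArg ψ h⟩
  have hz2 : ((ψ g : ℂˣ) : ℂ) ^ ℓ = 1 ↔ g ∈ B := by
    rw [← Units.val_pow_eq_pow_val, Units.val_eq_one, ← map_pow, hmemB, ← map_one ψ]
    exact ⟨fun h => hψ h, fun h => congrArg ψ h⟩
  have hcard : (∑ _x : G, (1 : ℂ)) = ((ℓ ^ k : ℕ) : ℂ) := by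
    rw [Finset.sum_const, Finset.card_univ, nsmul_eq_mul, mul_one, ← Nat.card_eq_fintype_card, hG]
  have hi1 : indFun (⊥ : Subgroup G) (fun _ => 1) g = if g = 1 then ((ℓ ^ k : ℕ) : ℂ) else 0 := by
    unfold indFun
    simp only [hcomm]
    rw [Subgroup.card_bot, Nat.cast_one, div_one]
    simp only [Subgroup.mem_bot]
    split_ifs with h
    · exact hcard
    · exact Finset.sum_const_zero
  have hi2 : indFun B (fun _ => 1) g = if g ∈ B then ((ℓ ^ (k - 1) : ℕ) : ℂ) else 0 := by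
    unfold indFun
    simp only [hcomm]
    rw [hB]
    have hl0 : (ℓ : ℂ) ≠ 0 := Nat.cast_ne_zero.2 hl.ne_zero
    split_ifs with h
    · rw [hcard, div_eq_iff hl0, ← Nat.cast_mul, ← pow_succ]
      congr 2
      omega
    · rw [Finset.sum_const_zero, zero_div]
  rw [hi1, hi2]
  show ∑ t ∈ Ex (ℓ ^ k), ((ψ g : ℂˣ) : ℂ) ^ t = _
  rw [sumEx ℓ k hl hk _ hz]
  simp only [hz1, hz2]

end StarkC.ABS
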