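import Pool.Agent.ABS.StA

/-!
# Module CLG: the class groups of `F` and `L`
-/

open NumberField NumberField.InfinitePlace
open scoped Classical nonZeroDivisors

namespace ABS

namespace CLG

/-- A multiplicative map of ideals which respects principal ideals induces a homomorphism of the
class groups. -/
theorem ind {A B : Type} [CommRing A] [IsDedekindDomain A] [CommRing B] [IsDedekindDomain B]
    (f : Ideal A →* Ideal B) (h0 : ∀ I : Ideal A, I ≠ ⊥ → f I ≠ ⊥)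
    (hp : ∀ a : A, a ≠ 0 → ∃ b : B, b ≠ 0 ∧ f (Ideal.span {a}) = Ideal.span {b}) :
    ∃ φ : ClassGroup A →* ClassGroup B, ∀ (I : (Ideal A)⁰) (J : (Ideal B)⁰),
      (J : Ideal B) = f I → φ (ClassGroup.mk0 I) = ClassGroup.mk0 J := by
  have hmem : ∀ I : (Ideal A)⁰, f I ∈ (Ideal B)⁰ := fun I =>
    mem_nonZeroDivisors_iff_ne_zero.2 (h0 I (mem_nonZeroDivisors_iff_ne_zero.1 I.2))
  let g : (Ideal A)⁰ → ClassGroup B := fun I => ClassGroup.mk0 ⟨f I, hmem I⟩
  have hg : ∀ I J : (Ideal A)⁰, ClassGroup.mk0 I = ClassGroup.mk0 J → g I = g J := by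
    intro I J h
    obtain ⟨x, y, hx, hy, hxy⟩ := ClassGroup.mk0_eq_mk0_iff.1 h
    obtain ⟨x', hx', ex⟩ := hp x hx
    obtain ⟨y', hy', ey⟩ := hp y hy
    refine ClassGroup.mk0_eq_mk0_iff.2 ⟨x', y', hx', hy', ?_⟩
    show Ideal.span {x'} * f I = Ideal.span {y'} * f J
    rw [← ex, ← ey, ← map_mul, ← map_mul, hxy]
  let r : ClassGroup A → (Ideal A)⁰ := Function.surjInv ClassGroup.mk0_surjective
  have hr : ∀ c, ClassGroup.mk0 (r c) = c := Function.surjInv_eq ClassGroup.mk0_surjective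
  have hgm : ∀ I J : (Ideal A)⁰, g (I * J) = g I * g J := by
    intro I J
    show ClassGroup.mk0 _ = ClassGroup.mk0 _ * ClassGroup.mk0 _
    rw [← map_mul]
    congr 1
    apply Subtype.ext
    show f ((I : Ideal A) * (J : Ideal A)) = f I * f J
    rw [map_mul]
  have hg1 : g 1 = 1 := by
    show ClassGroup.mk0 _ = 1
    rw [← map_one ClassGroup.mk0]
    congr 1
    apply Subtype.ext
    show f 1 = 1
    rw [map_one]
  refine ⟨⟨⟨fun c => g (r c), ?_⟩, ?_⟩, ?_⟩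
  · rw [← hg1]
    exact hg _ _ (by rw [hr, map_one])
  · intro c d
    show g (r (c * d)) = g (r c) * g (r d)
    rw [← hgm]
    exact hg _ _ (by rw [map_mul, hr, hr, hr])
  · intro I J hJ
    show g (r (ClassGroup.mk0 I)) = ClassGroup.mk0 J
    rw [hg (r (ClassGroup.mk0 I)) I (hr _)]
    show ClassGroup.mk0 _ = ClassGroup.mk0 J
    congr 1
    exact Subtype.ext hJ.symm

end CLG

open CLG

theorem CLG_thm : Stmt_CLG := by
  intro hGEN hCLN l k K F L _ _ _ _ _ _ _ _ _ _ _ _ σ hT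
  obtain ⟨hσ, hsum⟩ := hGEN l k K F L σ hT
  have hinj : Function.Injective (algebraMap (𝓞 F) (𝓞 L)) :=
    FaithfulSMul.algebraMap_injective _ _
  -- extension of ideals
  let fj : Ideal (𝓞 F) →* Ideal (𝓞 L) :=
    ⟨⟨fun I => I.map (algebraMap (𝓞 F) (𝓞 L)), by
      rw [Ideal.one_eq_top, Ideal.map_top, Ideal.one_eq_top]⟩, fun I J => Ideal.map_mul _ I J⟩
  obtain ⟨j, hj⟩ := ind fj
    (fun I hI h => hI ((Ideal.map_eq_bot_iff_of_injective hinj).1 h))
    (fun a ha => ⟨algebraMap (𝓞 F) (𝓞 L) a, fun h => ha (hinj (by rw [h, map_zero])), by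
      show Ideal.map _ _ = _
      rw [Ideal.map_span, Set.image_singleton]⟩)
  -- norm of ideals
  let fn : Ideal (𝓞 L) →* Ideal (𝓞 F) :=
    ⟨⟨fun I => Ideal.relNorm (𝓞 F) I, map_one _⟩, fun I J => map_mul _ I J⟩
  obtain ⟨N, hN⟩ := ind fn
    (fun I hI h => hI (Ideal.relNorm_eq_bot_iff.1 h))
    (fun a ha => ⟨Algebra.intNorm (𝓞 F) (𝓞 L) a, by
      rw [ne_eq, Algebra.intNorm_eq_zero]; exact ha, Ideal.relNorm_singleton (𝓞 F) a⟩)
  -- the action
  let act : (L ≃ₐ[K] L) → Ideal (𝓞 L) → Ideal (𝓞 L) := fun g I =>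
    I.map (RingOfIntegers.mapRingEquiv (g : L ≃+* L))
  have act_mul : ∀ g h I, act (g * h) I = act g (act h I) := by
    intro g h I
    show Ideal.map _ _ = Ideal.map _ (Ideal.map _ _)
    have := Ideal.map_map
      ((RingOfIntegers.mapRingEquiv (h : L ≃+* L) : 𝓞 L ≃+* 𝓞 L) : 𝓞 L →+* 𝓞 L)
      ((RingOfIntegers.mapRingEquiv (g : L ≃+* L) : 𝓞 L ≃+* 𝓞 L) : 𝓞 L →+* 𝓞 L) (I := I)
    exact this.symm
  have act_one : ∀ I, act 1 I = I := by
    intro I
    have := Ideal.map_id I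
    exact this
  have act_inj : ∀ g : L ≃ₐ[K] L, ∀ I : Ideal (𝓞 L), I ≠ ⊥ → act g I ≠ ⊥ := by
    intro g I hI h
    apply hI
    have h2 := act_mul g⁻¹ g I
    rw [inv_mul_cancel, act_one, h] at h2
    rw [h2]
    exact Ideal.map_bot
  let fs : Ideal (𝓞 L) →* Ideal (𝓞 L) :=
    ⟨⟨act σ, by
      show Ideal.map _ _ = _
      rw [Ideal.one_eq_top, Ideal.map_top]⟩, fun I J => Ideal.map_mul _ I J⟩
  obtain ⟨s, hs⟩ := ind fs (act_inj σ)
    (fun a ha => ⟨RingOfIntegers.mapRingEquiv (σ : L ≃+* L) a, by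
      rw [ne_eq, map_eq_zero_iff _ (RingEquiv.injective _)]; exact ha, by
      show Ideal.map _ _ = _
      rw [Ideal.map_span, Set.image_singleton]⟩)
  have hmem : ∀ (g : L ≃ₐ[K] L) (I : (Ideal (𝓞 L))⁰), act g I ∈ (Ideal (𝓞 L))⁰ := fun g I =>
    mem_nonZeroDivisors_iff_ne_zero.2 (act_inj g I (mem_nonZeroDivisors_iff_ne_zero.1 I.2))
  have hiter : ∀ (i : ℕ) (I : (Ideal (𝓞 L))⁰),
      s^[i] (ClassGroup.mk0 I) = ClassGroup.mk0 ⟨act (σ ^ i) I, hmem _ I⟩ := by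
    intro i
    induction i with
    | zero =>
      intro I
      rw [Function.iterate_zero, id]
      congr 1
      apply Subtype.ext
      show (I : Ideal (𝓞 L)) = act (σ ^ 0) I
      rw [pow_zero, act_one]
    | succ i ih =>
      intro I
      rw [Function.iterate_succ_apply', ih, hs _ ⟨act (σ ^ (i + 1)) I, hmem _ I⟩ ?_]
      show act (σ ^ (i + 1)) I = act σ (act (σ ^ i) I)
      rw [pow_succ', act_mul]
  refine ⟨MonoidHom.toAdditive s, MonoidHom.toAdditive j, MonoidHom.toAdditive N, ?_, ?_, ?_⟩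
  · intro x
    obtain ⟨I, hI⟩ := ClassGroup.mk0_surjective x.toMul
    have h := hiter (l ^ k) I
    have h2 : s^[l ^ k] x.toMul = x.toMul := by
      rw [← hI, h]
      congr 1
      apply Subtype.ext
      show act (σ ^ (l ^ k)) I = I
      rw [hσ, act_one]
    exact h2
  · intro a
    obtain ⟨I, hI⟩ := ClassGroup.mk0_surjective a.toMul
    have hI0 : (I : Ideal (𝓞 F)) ≠ ⊥ := mem_nonZeroDivisors_iff_ne_zero.1 I.2
    have hm : fj I ∈ (Ideal (𝓞 L))⁰ := mem_nonZeroDivisors_iff_ne_zero.2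
      (fun h => hI0 ((Ideal.map_eq_bot_iff_of_injective hinj).1 h))
    have h1 : j (ClassGroup.mk0 I) = ClassGroup.mk0 ⟨fj I, hm⟩ := hj I ⟨fj I, hm⟩ rfl
    have h2 : N (ClassGroup.mk0 ⟨fj I, hm⟩) = ClassGroup.mk0 (I ^ l) := by
      apply hN
      show ((I : Ideal (𝓞 F)) ^ l) = Ideal.relNorm (𝓞 F) (Ideal.map (algebraMap (𝓞 F) (𝓞 L)) I)
      rw [Ideal.relNorm_algebraMap]
      congr 1
      rw [← hT.rank]
      exact IsFractionRing.finrank_eq (𝓞 F) F (𝓞 L) L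
    have h3 : N (j a.toMul) = a.toMul ^ l := by
      rw [← hI, h1, h2, map_pow]
    exact h3
  · intro x
    obtain ⟨I, hI⟩ := ClassGroup.mk0_surjective x.toMul
    have hI0 : (I : Ideal (𝓞 L)) ≠ ⊥ := mem_nonZeroDivisors_iff_ne_zero.1 I.2
    have hm : fn I ∈ (Ideal (𝓞 F))⁰ := mem_nonZeroDivisors_iff_ne_zero.2
      (fun h => hI0 (Ideal.relNorm_eq_bot_iff.1 h))
    have hm' : fj (fn I) ∈ (Ideal (𝓞 L))⁰ := mem_nonZeroDivisors_iff_ne_zero.2
      (fun h => hI0 (Ideal.relNorm_eq_bot_iff.1 ((Ideal.map_eq_bot_iff_of_injective hinj).1 h)))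
    have h1 : N (ClassGroup.mk0 I) = ClassGroup.mk0 ⟨fn I, hm⟩ := hN I ⟨fn I, hm⟩ rfl
    have h2 : j (ClassGroup.mk0 ⟨fn I, hm⟩) = ClassGroup.mk0 ⟨fj (fn I), hm'⟩ := hj _ _ rfl
    have h3 : fj (fn I) = ∏ i ∈ Finset.range l, act (σ ^ (l ^ k / l * i)) I := by
      have h4 := hCLN F L I
      have h5 := hsum (Additive (Ideal (𝓞 L))) (fun g => Additive.ofMul (act g I))
      have h6 : (∏ b : L ≃ₐ[F] L, (I : Ideal (𝓞 L)).map
          (RingOfIntegers.mapRingEquiv (b : L ≃+* L))) =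
          ∏ b : L ≃ₐ[F] L, act (b.restrictScalars K) I := rfl
      rw [h6] at h4
      have h7 := congrArg Additive.toMul h5
      rw [toMul_sum, toMul_sum] at h7
      exact h4.trans h7
    have h4 : j (N x.toMul) = ∏ i ∈ Finset.range l, s^[l ^ k / l * i] x.toMul := by
      rw [← hI, h1, h2]
      have h5 : (⟨fj (fn I), hm'⟩ : (Ideal (𝓞 L))⁰) =
          ∏ i ∈ Finset.range l, ⟨act (σ ^ (l ^ k / l * i)) I, hmem _ I⟩ := by
        apply Subtype.ext
        rw [Submonoid.coe_finsetProd]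
        exact h3
      rw [h5, map_prod]
      exact Finset.prod_congr rfl fun i _ => (hiter _ I).symm
    have h5 := congrArg Additive.ofMul h4
    rw [ofMul_prod] at h5
    exact h5

end ABS
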