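import Pool.Agent.ABS.StA

/-!
# CLN: the norm of an ideal is the product of its conjugates
-/

open NumberField NumberField.InfinitePlace
open scoped Classical

namespace ABS

namespace CLN

variable {F L : Type} [Field F] [NumberField F] [Field L] [NumberField L] [Algebra F L]
  [IsGalois F L]

theorem lhs_rhs_principal (a : 𝓞 L) :
    (Ideal.relNorm (𝓞 F) (Ideal.span {a})).map (algebraMap (𝓞 F) (𝓞 L)) =
      ∏ b : L ≃ₐ[F] L, (Ideal.span {a}).map (RingOfIntegers.mapRingEquiv (b : L ≃+* L)) := by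
  rw [Ideal.relNorm_singleton, Ideal.map_span, Set.image_singleton]
  simp only [Ideal.map_span, Set.image_singleton]
  rw [Ideal.prod_span_singleton]
  congr 2
  apply RingOfIntegers.ext
  have h1 : ((algebraMap (𝓞 F) (𝓞 L) (Algebra.intNorm (𝓞 F) (𝓞 L) a) : 𝓞 L) : L) =
      algebraMap F L (Algebra.norm F (a : L)) := by
    rw [← Algebra.algebraMap_intNorm (A := 𝓞 F) (K := F) (L := L) (B := 𝓞 L)]
    rw [← IsScalarTower.algebraMap_apply (𝓞 F) F L, IsScalarTower.algebraMap_apply (𝓞 F) (𝓞 L) L]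
  have h2 : ((∏ b : L ≃ₐ[F] L, RingOfIntegers.mapRingEquiv (b : L ≃+* L) a : 𝓞 L) : L) =
      ∏ b : L ≃ₐ[F] L, ((RingOfIntegers.mapRingEquiv (b : L ≃+* L) a : 𝓞 L) : L) :=
    map_prod (algebraMap (𝓞 L) L) _ _
  rw [h1, Algebra.norm_eq_prod_automorphisms]
  exact h2.symm

end CLN

theorem CLN_thm : Stmt_CLN := by
  intro F L _ _ _ _ _ _ I
  by_cases hI : I = ⊥
  · subst hI
    rw [Ideal.relNorm_bot, Ideal.map_bot]
    rw [Finset.prod_eq_zero (Finset.mem_univ (1 : L ≃ₐ[F] L)) (by rw [Ideal.map_bot]; rfl)]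
    rfl
  have hI0 : I ∈ nonZeroDivisors (Ideal (𝓞 L)) := mem_nonZeroDivisors_of_ne_zero hI
  set h := Fintype.card (ClassGroup (𝓞 L)) with hh
  have hpos : 0 < h := Fintype.card_pos
  have hp : (I ^ h).IsPrincipal := by
    have h0 : (⟨I ^ h, pow_mem hI0 h⟩ : nonZeroDivisors (Ideal (𝓞 L))) = ⟨I, hI0⟩ ^ h :=
      Subtype.ext (by rw [SubmonoidClass.coe_pow])
    have h1 : ClassGroup.mk0 (⟨I ^ h, pow_mem hI0 h⟩ : nonZeroDivisors (Ideal (𝓞 L))) = 1 := by
      rw [h0, map_pow, hh, pow_card_eq_one]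
    exact (ClassGroup.mk0_eq_one_iff (pow_mem hI0 h)).1 h1
  obtain ⟨a, ha⟩ := hp
  have ha' : I ^ h = Ideal.span {a} := ha
  have key := CLN.lhs_rhs_principal (F := F) (L := L) a
  rw [← ha', map_pow, Ideal.map_pow] at key
  simp only [Ideal.map_pow] at key
  rw [Finset.prod_pow] at key
  exact le_antisymm
    ((Ideal.dvd_iff_le).1 ((UniqueFactorizationMonoid.pow_dvd_pow_iff_dvd hpos.ne').1
      (dvd_of_eq key.symm)))
    ((Ideal.dvd_iff_le).1 ((UniqueFactorizationMonoid.pow_dvd_pow_iff_dvd hpos.ne').1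
      (dvd_of_eq key)))

end ABS
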