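import Pool.Agent.ABS.PDefsU

/-!
# Definitions for the statement of Stark's conjecture in norm: induced characters
-/

namespace StarkP

open scoped Classical in
/-- The character of `G` induced from the linear character `ψ` of the subgroup `H`:
`g ↦ |H|⁻¹ ∑ ψ(x⁻¹ g x)`, the sum over the `x ∈ G` with `x⁻¹ g x ∈ H`. -/
noncomputable def indChar {G : Type} [Group G] [Fintype G] (H : Subgroup G) (ψ : H →* ℂˣ) : G → ℂ :=
  fun g => (∑ x : G, if h : x⁻¹ * g * x ∈ H then ((ψ ⟨x⁻¹ * g * x, h⟩ : ℂˣ) : ℂ) else 0) /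
    (Nat.card H : ℂ)

/-- `θ` is an integral combination of characters induced from linear characters `ψ`, `ψ^n = 1`, of
subgroups.  (For `n = 1`: of permutation characters.) -/
def MonComb {G : Type} [Group G] [Fintype G] (n : ℕ) (θ : G → ℂ) : Prop :=
  ∃ (r : ℕ) (H : Fin r → Subgroup G) (ψ : ∀ i, H i →* ℂˣ) (c : Fin r → ℤ), (∀ i, ψ i ^ n = 1) ∧
    ∀ g, θ g = ∑ i, (c i : ℂ) * indChar (H i) (ψ i) g

end StarkP
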