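import Pool.Agent.ABS.PDefsC
import Pool.Agent.ABS.PDefsG

/-!
# Definitions for the statement about one `φ`: traces over a field and integral combinations
-/

open NumberField IsDedekindDomain

namespace StarkP

/-- The trace of `f` over `F`: the sum of the conjugates of `f` over `F`. -/
noncomputable def traceOver (F : IntermediateField ℚ ℂ) {X : Type} (f : X → ℂ) : X → ℂ := fun x =>
  ((Algebra.trace F (IntermediateField.adjoin F (Set.range f))
    ⟨f x, IntermediateField.subset_adjoin F _ (Set.mem_range_self x)⟩ : F) : ℂ)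

open scoped Classical in
/-- The function `Ind_H θ` on `G`. -/
noncomputable def indOf {G : Type} [Group G] [Fintype G] (H : Subgroup G) (θ : H → ℂ) : G → ℂ :=
  fun g => (∑ x : G, if h : x⁻¹ * g * x ∈ H then θ ⟨x⁻¹ * g * x, h⟩ else 0) / (Nat.card H : ℂ)

/-- The condition on a character `χ` of a subgroup, for a field `F`: `NilNS` or `ProjIm`, with
`F ∩ ℚ(χ)` contained in the field of the `ℓ^j`-th roots of unity for some prime power `ℓ^j`; or
`NilNS` with `F ∩ ℚ(χ)` cyclic over `ℚ`; or, for some `n` with `(ℤ/n)ˣ` cyclic, the trace of `χ` over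
`F` is an integral combination of characters induced from linear characters `ψ`, `ψ^n = 1`, and
`Tr χ` is an integral combination of permutation characters. -/
def InB (F : IntermediateField ℚ ℂ) {G V : Type} [Group G] [Fintype G] [AddCommGroup V]
    [Module ℂ V] (ρ : Representation ℂ G V) : Prop :=
  ((NilNS ρ ∨ ProjIm ρ) ∧
    ∃ ℓ j : ℕ, ℓ.Prime ∧ F ⊓ charField ρ.character ≤ rootField (ℓ ^ j)) ∨
  (NilNS ρ ∧ IsCyclic
    ((F ⊓ charField ρ.character : IntermediateField ℚ ℂ) ≃ₐ[ℚ]
      (F ⊓ charField ρ.character : IntermediateField ℚ ℂ))) ∨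
  ∃ n : ℕ, 0 < n ∧ IsCyclic (ZMod n)ˣ ∧ MonComb n (traceOver F ρ.character) ∧
    MonComb 1 (trChar ρ.character)

open scoped Classical in
/-- `χ` is an integral combination of characters induced from the traces over `ℚ(χ)` of irreducible
characters of subgroups as in `InB` (with `F = ℚ(χ)`). -/
def InK {G V : Type} [Group G] [Fintype G] [AddCommGroup V] [Module ℂ V]
    (ρ : Representation ℂ G V) : Prop :=
  ∃ (m : ℕ) (H : Fin m → Subgroup G) (W : Fin m → Type) (_ : ∀ i, AddCommGroup (W i))
    (_ : ∀ i, Module ℂ (W i)) (_ : ∀ i, Module.Finite ℂ (W i))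
    (τ : ∀ i, Representation ℂ (H i) (W i)) (c : Fin m → ℤ),
    (∀ i, (τ i).IsIrreducible ∧ InB (charField ρ.character) (τ i)) ∧
    ∀ g, ρ.character g =
      ∑ i, (c i : ℂ) * indOf (H i) (traceOver (charField ρ.character) (τ i).character) g

/-- A hyperelementary group: it has a cyclic normal subgroup of `p`-power index and order prime to
`p`, for some prime `p`. -/
def IsHyper (G : Type) [Group G] : Prop :=
  ∃ (p : ℕ) (C : Subgroup G), p.Prime ∧ C.Normal ∧ IsCyclic C ∧ ¬ p ∣ Nat.card C ∧
    ∃ n : ℕ, C.index = p ^ n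

open scoped Classical in
/-- Every irreducible constituent of the restriction of `ρ` to a hyperelementary subgroup is as in
`InB` (with `F = ℚ(χ)`). -/
def InH {G V : Type} [Group G] [Fintype G] [AddCommGroup V] [Module ℂ V]
    (ρ : Representation ℂ G V) : Prop :=
  ∀ H : Subgroup G, IsHyper H → ∀ (W : Type) [AddCommGroup W] [Module ℂ W] [Module.Finite ℂ W]
    (τ : Representation ℂ H W), τ.IsIrreducible → IsSub τ (ρ.comp H.subtype) →
    InB (charField ρ.character) τ

end StarkP
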