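import Pool.Agent.ABS.INJ
import Pool.Agent.ABS.PDefsE

/-!
# Project ABS: Stark in norm for integral combinations of induced traces (helper6)
-/

set_option autoImplicit false

open NumberField IsDedekindDomain
open scoped TensorProduct Classical

namespace StarkC.ABS

open StarkP (charField trChar rootField NormIn HasImage Realizable traceOver indOf)

namespace COMx

/-! ### Towers -/

open IntermediateField in
/-- The degree of a compositum. -/
theorem deg (F F' : IntermediateField ℚ ℂ) [IsGalois ℚ F] [FiniteDimensional ℚ F]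
    [FiniteDimensional ℚ F'] :
    Module.finrank ℚ (F ⊔ F' : IntermediateField ℚ ℂ) *
      Module.finrank ℚ (F ⊓ F' : IntermediateField ℚ ℂ) =
      Module.finrank ℚ F * Module.finrank ℚ F' := by
  let B : IntermediateField ℚ ℂ := F ⊓ F'
  let X : IntermediateField B ℂ := extendScalars (inf_le_left : B ≤ F)
  let Y : IntermediateField B ℂ := extendScalars (inf_le_right : B ≤ F')
  have hFX : FiniteDimensional ℚ X := ‹FiniteDimensional ℚ F›
  have hFY : FiniteDimensional ℚ Y := ‹FiniteDimensional ℚ F'›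
  have hGX : IsGalois ℚ X := ‹IsGalois ℚ F›
  have : FiniteDimensional B X := Module.Finite.of_restrictScalars_finite ℚ B X
  have : FiniteDimensional B Y := Module.Finite.of_restrictScalars_finite ℚ B Y
  have : IsGalois B X := IsGalois.tower_top_of_isGalois ℚ B X
  have hXY : X ⊓ Y = ⊥ := by
    rw [extendScalars_inf]
    exact extendScalars_self B
  have hd := (LinearDisjoint.of_inf_eq_bot hXY).finrank_sup
  have hB : FiniteDimensional ℚ B :=
    FiniteDimensional.of_injective (inclusion (inf_le_left : B ≤ F)).toLinearMap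
      (inclusion_injective (inf_le_left : B ≤ F))
  have h1 : Module.finrank ℚ B * Module.finrank B X = Module.finrank ℚ F :=
    Module.finrank_mul_finrank ℚ B X
  have h2 : Module.finrank ℚ B * Module.finrank B Y = Module.finrank ℚ F' :=
    Module.finrank_mul_finrank ℚ B Y
  have h3 : X ⊔ Y = extendScalars (inf_le_left.trans le_sup_left : B ≤ F ⊔ F') :=
    extendScalars_sup (inf_le_left : B ≤ F) (inf_le_right : B ≤ F')
  have h4 : Module.finrank ℚ B * Module.finrank B (X ⊔ Y : IntermediateField B ℂ) =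
      Module.finrank ℚ (F ⊔ F' : IntermediateField ℚ ℂ) := by
    rw [h3]
    exact Module.finrank_mul_finrank ℚ B
      (extendScalars (inf_le_left.trans le_sup_left : B ≤ F ⊔ F'))
  rw [← h1, ← h2, ← h4, hd]
  ring

/-- Trace and norm for `F ⊆ F(s) ⊇ ℚ(s)`. -/
theorem tower (F : IntermediateField ℚ ℂ) (s : Set ℂ) [hF : FiniteDimensional ℚ F]
    [hG : IsGalois ℚ F] (hs : s.Finite) (hint : ∀ x ∈ s, IsIntegral ℚ x) :
    ∃ e : ℕ, 0 < e ∧ (∀ (z : ℂ) (hz : z ∈ s),
      INIx.tF F ((Algebra.trace F (IntermediateField.adjoin F s)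
        ⟨z, IntermediateField.subset_adjoin F s hz⟩ : F) : ℂ) =
        (e : ℂ) * INIx.tF (IntermediateField.adjoin ℚ s) z) ∧
      ∀ β : (F ⊓ IntermediateField.adjoin ℚ s : IntermediateField ℚ ℂ),
        Algebra.norm ℚ (IntermediateField.inclusion
          (inf_le_left : F ⊓ IntermediateField.adjoin ℚ s ≤ F) β) = Algebra.norm ℚ β ^ e := by
  have hfs : Finite s := hs.to_subtype
  have hA : FiniteDimensional F (IntermediateField.adjoin F s) :=
    IntermediateField.finiteDimensional_adjoin fun x hx => (hint x hx).tower_top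
  have hF' : FiniteDimensional ℚ (IntermediateField.adjoin ℚ s) :=
    IntermediateField.finiteDimensional_adjoin hint
  have hQA : FiniteDimensional ℚ (IntermediateField.adjoin F s) :=
    FiniteDimensional.trans ℚ F (IntermediateField.adjoin F s)
  have hle : IntermediateField.adjoin ℚ s ≤ (IntermediateField.adjoin F s).restrictScalars ℚ :=
    IntermediateField.adjoin_le_iff.2 (IntermediateField.subset_adjoin F s)
  have hsup : (IntermediateField.adjoin F s).restrictScalars ℚ =
      F ⊔ IntermediateField.adjoin ℚ s := by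
    refine le_antisymm ?_ (sup_le (fun x hx => ?_) hle)
    · have h1 : IntermediateField.adjoin F s ≤
          IntermediateField.extendScalars (le_sup_left : F ≤ F ⊔ IntermediateField.adjoin ℚ s) :=
        IntermediateField.adjoin_le_iff.2 fun x hx =>
          (le_sup_right : _ ≤ F ⊔ IntermediateField.adjoin ℚ s)
            (IntermediateField.subset_adjoin ℚ s hx)
      exact fun x hx => h1 hx
    · exact (IntermediateField.adjoin F s).algebraMap_mem ⟨x, hx⟩
  let i : IntermediateField.adjoin ℚ s →ₐ[ℚ] IntermediateField.adjoin F s :=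
    IntermediateField.inclusion hle
  let _ : Algebra (IntermediateField.adjoin ℚ s) (IntermediateField.adjoin F s) :=
    i.toRingHom.toAlgebra
  have hT : IsScalarTower ℚ (IntermediateField.adjoin ℚ s) (IntermediateField.adjoin F s) :=
    IsScalarTower.of_algebraMap_eq fun x => (i.commutes x).symm
  have hM : Module.Finite (IntermediateField.adjoin ℚ s) (IntermediateField.adjoin F s) :=
    Module.Finite.of_restrictScalars_finite ℚ _ _
  have hfree : Module.Free (IntermediateField.adjoin ℚ s) (IntermediateField.adjoin F s) :=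
    Module.Free.of_divisionRing _ _
  refine ⟨Module.finrank (IntermediateField.adjoin ℚ s) (IntermediateField.adjoin F s),
    Module.finrank_pos, fun z hz => ?_, fun β => ?_⟩
  · have hz' : z ∈ IntermediateField.adjoin ℚ s := IntermediateField.subset_adjoin ℚ s hz
    rw [INIx.tF, dif_pos (SetLike.coe_mem _), INIx.tF, dif_pos hz']
    have h3 : (⟨z, IntermediateField.subset_adjoin F s hz⟩ : IntermediateField.adjoin F s) =
        algebraMap (IntermediateField.adjoin ℚ s) (IntermediateField.adjoin F s) ⟨z, hz'⟩ := rfl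
    have h4 : Algebra.trace ℚ F (Algebra.trace F (IntermediateField.adjoin F s)
        ⟨z, IntermediateField.subset_adjoin F s hz⟩) =
        Algebra.trace ℚ (IntermediateField.adjoin F s)
          ⟨z, IntermediateField.subset_adjoin F s hz⟩ := Algebra.trace_trace (S := F) _
    have h5 : Algebra.trace ℚ (IntermediateField.adjoin F s)
          ⟨z, IntermediateField.subset_adjoin F s hz⟩ =
        Module.finrank (IntermediateField.adjoin ℚ s) (IntermediateField.adjoin F s) •
          Algebra.trace ℚ (IntermediateField.adjoin ℚ s) ⟨z, hz'⟩ := by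
      rw [h3, ← Algebra.trace_trace (S := IntermediateField.adjoin ℚ s),
        Algebra.trace_algebraMap, map_nsmul]
    have h6 := h4.trans h5
    rw [Subtype.coe_eta, h6, nsmul_eq_mul]
    push_cast
    rfl
  · let B : IntermediateField ℚ ℂ := F ⊓ IntermediateField.adjoin ℚ s
    have hBF : B ≤ F := inf_le_left
    let _ : Algebra B F := (IntermediateField.inclusion hBF).toRingHom.toAlgebra
    have hTB : IsScalarTower ℚ B F :=
      IsScalarTower.of_algebraMap_eq fun x => ((IntermediateField.inclusion hBF).commutes x).symm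
    have hBf : FiniteDimensional ℚ B :=
      FiniteDimensional.of_injective (IntermediateField.inclusion hBF).toLinearMap
        (IntermediateField.inclusion_injective hBF)
    have hMB : Module.Finite B F := Module.Finite.of_restrictScalars_finite ℚ B F
    have e1 : Module.finrank ℚ B * Module.finrank B F = Module.finrank ℚ F :=
      Module.finrank_mul_finrank ℚ B F
    have e2 : Module.finrank ℚ (IntermediateField.adjoin ℚ s) *
        Module.finrank (IntermediateField.adjoin ℚ s) (IntermediateField.adjoin F s) =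
        Module.finrank ℚ (IntermediateField.adjoin F s) :=
      Module.finrank_mul_finrank ℚ (IntermediateField.adjoin ℚ s) (IntermediateField.adjoin F s)
    have e3 : Module.finrank ℚ (IntermediateField.adjoin F s) =
        Module.finrank ℚ (F ⊔ IntermediateField.adjoin ℚ s : IntermediateField ℚ ℂ) := by
      rw [← hsup]
      rfl
    have e4 := deg F (IntermediateField.adjoin ℚ s)
    have e5 : Module.finrank (IntermediateField.adjoin ℚ s) (IntermediateField.adjoin F s) =
        Module.finrank B F := by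
      rw [← e3, ← e2, ← e1] at e4
      have p1 : 0 < Module.finrank ℚ B := Module.finrank_pos
      have p2 : 0 < Module.finrank ℚ (IntermediateField.adjoin ℚ s) := Module.finrank_pos
      have e6 : (Module.finrank ℚ (IntermediateField.adjoin ℚ s) * Module.finrank ℚ B) *
          Module.finrank (IntermediateField.adjoin ℚ s) (IntermediateField.adjoin F s) =
          (Module.finrank ℚ (IntermediateField.adjoin ℚ s) * Module.finrank ℚ B) *
          Module.finrank B F := by
        have e7 : Module.finrank ℚ (F ⊓ IntermediateField.adjoin ℚ s : IntermediateField ℚ ℂ) =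
          Module.finrank ℚ B := rfl
        rw [e7] at e4
        linarith [e4]
      exact Nat.eq_of_mul_eq_mul_left (Nat.mul_pos p2 p1) e6
    rw [e5]
    have h1 : IntermediateField.inclusion hBF β = algebraMap B F β := rfl
    rw [h1, ← Algebra.norm_norm (R := ℚ) (S := B) (a := algebraMap B F β),
      Algebra.norm_algebraMap, map_pow]

theorem tF_mul (F : IntermediateField ℚ ℂ) {x : ℂ} (hx : x ∈ F) (c : ℤ) :
    INIx.tF F ((c : ℂ) * x) = (c : ℂ) * INIx.tF F x := by
  have hmem : (c : ℂ) * x ∈ F := F.mul_mem (intCast_mem F c) hx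
  rw [INIx.tF, dif_pos hmem, INIx.tF, dif_pos hx]
  have h1 : (⟨(c : ℂ) * x, hmem⟩ : F) = (c : ℚ) • (⟨x, hx⟩ : F) := by
    apply Subtype.ext
    show (c : ℂ) * x = (((c : ℚ) • (⟨x, hx⟩ : F) : F) : ℂ)
    rw [IntermediateField.coe_smul, Rat.smul_def, Rat.cast_intCast]
  rw [h1, map_smul, smul_eq_mul, Rat.cast_mul, Rat.cast_intCast]

/-- Extension by zero. -/
noncomputable def ex0 {G : Type} [Group G] {H : Subgroup G} (θ : H → ℂ) : G → ℂ :=
  fun g => if h : g ∈ H then θ ⟨g, h⟩ else 0

theorem ex0_mem {G : Type} [Group G] {H : Subgroup G} (θ : H → ℂ) (h : H) :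
    ex0 θ (h : G) = θ h := by
  unfold ex0
  rw [dif_pos h.2]

theorem indFun_mem {G : Type} [Group G] [Fintype G] {H : Subgroup G} (θ : H → ℂ)
    (F : IntermediateField ℚ ℂ) (hF : ∀ h, θ h ∈ F) (g : G) : indFun H (ex0 θ) g ∈ F := by
  unfold indFun
  refine F.div_mem (F.sum_mem fun x _ => ?_) (natCast_mem F _)
  split_ifs with h
  · rw [ex0, dif_pos h]
    exact hF _
  · exact F.zero_mem

theorem tF_indFun {G : Type} [Group G] [Fintype G] {H : Subgroup G} (θ : H → ℂ)
    (F : IntermediateField ℚ ℂ) (hF : ∀ h, θ h ∈ F) (g : G) :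
    INIx.tF F (indFun H (ex0 θ) g) = indFun H (ex0 fun h => INIx.tF F (θ h)) g := by
  have h1 : ∀ x : G, (if x⁻¹ * g * x ∈ H then ex0 θ (x⁻¹ * g * x) else 0) ∈ F := by
    intro x
    split_ifs with h
    · rw [ex0, dif_pos h]
      exact hF _
    · exact F.zero_mem
  unfold indFun
  rw [INIx.tF_div F (F.sum_mem fun x _ => h1 x) _ Nat.card_pos.ne', INIx.tF_sum F _ _ h1]
  congr 1
  refine Finset.sum_congr rfl fun x _ => ?_
  by_cases h : x⁻¹ * g * x ∈ H
  · rw [if_pos h, if_pos h, ex0, dif_pos h, ex0, dif_pos h]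
  · rw [if_neg h, if_neg h, INIx.tF_zero]

/-- The induced function. -/
theorem indOf_eq {G : Type} [Group G] [Fintype G] (H : Subgroup G) (θ : H → ℂ) :
    indOf H θ = indFun H (ex0 θ) := by
  funext g
  unfold StarkP.indOf indFun
  congr 1
  refine Finset.sum_congr rfl fun x _ => ?_
  by_cases h : x⁻¹ * g * x ∈ H
  · rw [dif_pos h, if_pos h, ex0, dif_pos h]
  · rw [dif_neg h, if_neg h]

/-- The trace of a combination. -/
theorem trChar_comb {G : Type} [Group G] [Fintype G] (χ : G → ℂ)
    [hfin : FiniteDimensional ℚ (charField χ)] [hgal : IsGalois ℚ (charField χ)] (m : ℕ)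
    (H : Fin m → Subgroup G) (θ : ∀ i, H i → ℂ) (c : Fin m → ℤ) (hint : ∀ i h, IsIntegral ℚ (θ i h))
    (hχ : ∀ g, χ g = ∑ i, (c i : ℂ) * indOf (H i) (traceOver (charField χ) (θ i)) g) :
    ∃ e : Fin m → ℕ, (∀ g, trChar χ g =
        ∑ i, ((c i * (e i : ℤ) : ℤ) : ℂ) * indFun (H i) (ex0 (trChar (θ i))) g) ∧
      ∀ i (β : (charField χ ⊓ charField (θ i) : IntermediateField ℚ ℂ)),
        Algebra.norm ℚ (IntermediateField.inclusion
          (inf_le_left : charField χ ⊓ charField (θ i) ≤ charField χ) β) =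
          Algebra.norm ℚ β ^ e i := by
  choose e he1 he2 he3 using fun i => tower (charField χ) (Set.range (θ i)) (Set.finite_range _)
    (by
      rintro x ⟨h, rfl⟩
      exact hint i h)
  refine ⟨e, fun g => ?_, he3⟩
  have hmem : ∀ i h, traceOver (charField χ) (θ i) h ∈ charField χ := fun i h => SetLike.coe_mem _
  have h0 : ∀ i, indOf (H i) (traceOver (charField χ) (θ i)) g =
      indFun (H i) (ex0 (traceOver (charField χ) (θ i))) g := fun i => by rw [indOf_eq]
  rw [INIx.trChar_eq, hχ g, INIx.tF_sum _ _ _ fun i => (charField χ).mul_mem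
    (intCast_mem _ _) (by rw [h0]; exact indFun_mem _ _ (hmem i) g)]
  refine Finset.sum_congr rfl fun i _ => ?_
  rw [h0, tF_mul _ (indFun_mem _ _ (hmem i) g), tF_indFun _ _ (hmem i)]
  have h1 : indFun (H i) (ex0 fun h => INIx.tF (charField χ) (traceOver (charField χ) (θ i) h)) g =
      (e i : ℂ) * indFun (H i) (ex0 (trChar (θ i))) g := by
    unfold indFun
    rw [← mul_div_assoc, Finset.mul_sum]
    congr 1
    refine Finset.sum_congr rfl fun x _ => ?_
    by_cases h : x⁻¹ * g * x ∈ H i
    · rw [if_pos h, if_pos h, ex0, dif_pos h, ex0, dif_pos h, INIx.trChar_eq]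
      exact he2 i _ (Set.mem_range_self _)
    · rw [if_neg h, if_neg h, mul_zero]
  rw [h1]
  push_cast
  ring

/-! ### Regulators and `L`-series -/

section Comb

variable {K N : Type} [Field K] [NumberField K] [Field N] [NumberField N] [Algebra K N]
  [IsGalois K N] (m : ℕ) (H : Fin m → Subgroup (N ≃ₐ[K] N)) (f : Fin m → (N ≃ₐ[K] N) → ℂ)
  (f' : ∀ i, (N ≃ₐ[IntermediateField.fixedField (H i)] N) → ℂ)
  (hf : ∀ i, ∀ h : H i, f' i (IntermediateField.subgroupEquivAlgEquiv (H i) h) = f i h)
  (n : Fin m → ℤ)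

include hf

/-- The regulator of a combination. -/
theorem reg_comb {T : Set (HeightOneSpectrum (𝓞 N))} (hTf : T.Finite) (hT : StableT K T)
    (Θ : XC N T →ₗ[ℂ] XC N T) (hb : Function.Bijective Θ)
    (hc : ∀ g : N ≃ₐ[K] N, Θ ∘ₗ repX K T hT g = repX K T hT g ∘ₗ Θ)
    (V : Type) [AddCommGroup V] [Module ℂ V] [Module.Finite ℂ V]
    (ρ : Representation ℂ (N ≃ₐ[K] N) V)
    (hρ : ∀ g, ρ.character g = ∑ i, (n i : ℂ) * indFun (H i) (f i) g)
    (W : Fin m → Type) [∀ i, AddCommGroup (W i)] [∀ i, Module ℂ (W i)]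
    [∀ i, Module.Finite ℂ (W i)]
    (ρ' : ∀ i, Representation ℂ (N ≃ₐ[IntermediateField.fixedField (H i)] N) (W i))
    (hρ' : ∀ i, (ρ' i).character = f' i) : Reg T ρ Θ = ∏ i, Reg T (ρ' i) Θ ^ n i := by
  have hci : ∀ i, ∀ g : N ≃ₐ[IntermediateField.fixedField (H i)] N,
      Θ ∘ₗ repX (IntermediateField.fixedField (H i)) T (IND.stable_sub _ hT) g =
        repX (IntermediateField.fixedField (H i)) T (IND.stable_sub _ hT) g ∘ₗ Θ := by
    intro i g
    rw [IND.repX_sub]
    exact hc _
  obtain ⟨W₁, a1, a2, a3, B₁, h1, h2, h3⟩ := ALLT.rgt K N T hT Θ V ρ hTf hc hb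
  have hex := fun i => ALLT.rgt (IntermediateField.fixedField (H i)) N T
    (IND.stable_sub _ hT) Θ (W i) (ρ' i) hTf (hci i) hb
  choose W₂ b1 b2 b3 B₂ h4 h5 h6 using hex
  have key := TRD_thm m W₁ B₁ W₂ B₂ n h5 (fun k => by
    have h7 : INDT.pair hT Θ ρ.character k =
        ∑ i, (n i : ℂ) * INDT.pair hT Θ (indFun (H i) (f i)) k := by
      unfold INDT.pair
      simp_rw [hρ, Finset.sum_mul]
      rw [Finset.sum_comm, Finset.sum_div]
      refine Finset.sum_congr rfl fun i _ => ?_
      rw [← mul_div_assoc, Finset.mul_sum]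
      congr 1
      exact Finset.sum_congr rfl fun g _ => by ring
    rw [h3 k]
    refine Eq.trans h7 (Finset.sum_congr rfl fun i _ => ?_)
    rw [h6 i k, hρ' i]
    congr 1
    exact INIx.pair_ind (H i) (f i) (f' i) (hf i) hT Θ hc k)
  rw [h1] at key
  rw [key]
  exact Finset.prod_congr rfl fun i _ => by rw [h4 i]

/-- The `L`-series of a combination. -/
theorem artin_comb (S : Set (HeightOneSpectrum (𝓞 K))) (θ : (N ≃ₐ[K] N) → ℂ)
    (hθ : ∀ g, θ g = ∑ i, (n i : ℂ) * indFun (H i) (f i) g)
    (S' : ∀ i, Set (HeightOneSpectrum (𝓞 (IntermediateField.fixedField (H i)))))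
    (hS : ∀ i, aboveSet (IntermediateField.fixedField (H i)) N (S' i) = aboveSet K N S)
    (F : Fin m → ℂ → ℂ) (hF : ∀ i, IsArtinL (f' i) (S' i) (F i)) :
    IsArtinL θ S (fun z => ∏ i, F i z ^ n i) := by
  refine ⟨fun z => ?_, fun s hs => ?_⟩
  · exact MeromorphicAt.fun_prod fun i _ => ((hF i).1 z).fun_zpow (n i)
  · have h1 : θ = fun g => ∑ i, (n i : ℂ) * indFun (H i) (f i) g := funext hθ
    rw [h1, IND.logL_sum LA_thm ALLT.lb S s hs m (fun i => (n i : ℂ))
      fun i => indFun (H i) (f i), Complex.exp_sum]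
    refine Finset.prod_congr rfl fun i _ => ?_
    rw [(hF i).2 s hs, ← Complex.exp_int_mul,
      INIx.logL_ind (H i) (f i) (f' i) (hf i) S (S' i) s (hS i) hs]

end Comb

/-! ### Stark in norm -/

theorem norm_zpow {E : IntermediateField ℚ ℂ} (x : E) (hx : x ≠ 0) (n : ℤ) :
    Algebra.norm ℚ (x ^ n) = Algebra.norm ℚ x ^ n := by
  have h1 : ∀ y : E, y ≠ 0 → Algebra.norm ℚ y⁻¹ = (Algebra.norm ℚ y)⁻¹ := by
    intro y hy
    refine eq_inv_of_mul_eq_one_left ?_
    rw [← map_mul, inv_mul_cancel₀ hy, map_one]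
  obtain ⟨k, rfl | rfl⟩ := n.eq_nat_or_neg
  · rw [zpow_natCast, zpow_natCast, map_pow]
  · rw [zpow_neg, zpow_neg, zpow_natCast, zpow_natCast, h1 _ (pow_ne_zero _ hx), map_pow]

/-- Norms from `ℚ(χ) ∩ ℚ(τ i)` for the `τ i` over the fixed fields give Stark in norm for an integral
combination `χ` of the characters induced from the traces over `ℚ(χ)` of the `τ i`. -/
theorem normIn_comb {K L : Type} [Field K] [NumberField K] [Field L] [NumberField L]
    [Algebra K L] [IsGalois K L] (S : Finset (HeightOneSpectrum (𝓞 K)))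
    (Θ : ((L → ℝ) →₀ ℂ) →ₗ[ℂ] ((L → ℝ) →₀ ℂ))
    (hΘ : StarkP.IsTheta K (StarkP.aboveSet K L S) Θ)
    (m : ℕ) (H : Fin m → Subgroup (L ≃ₐ[K] L))
    (W : Fin m → Type) [∀ i, AddCommGroup (W i)] [∀ i, Module ℂ (W i)]
    [∀ i, Module.Finite ℂ (W i)] (τ : ∀ i, Representation ℂ (H i) (W i)) (c : Fin m → ℤ)
    (χ : (L ≃ₐ[K] L) → ℂ) (hfin : FiniteDimensional ℚ (charField χ))
    (hgal : IsGalois ℚ (charField χ))
    (hχ : ∀ g, χ g = ∑ i, (c i : ℂ) * indOf (H i) (traceOver (charField χ) (τ i).character) g)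
    (hN : ∀ i, ∀ S' : Finset (HeightOneSpectrum (𝓞 (IntermediateField.fixedField (H i)))),
      StarkP.IsTheta (IntermediateField.fixedField (H i))
        (StarkP.aboveSet (IntermediateField.fixedField (H i)) L S') Θ →
      NormIn (charField χ ⊓ charField (τ i).character)
        (INJx.pb (IntermediateField.subgroupEquivAlgEquiv (H i)).symm (τ i)).character
        (S' : Set (HeightOneSpectrum (𝓞 (IntermediateField.fixedField (H i))))) Θ) :
    NormIn (charField χ) χ (S : Set (HeightOneSpectrum (𝓞 K))) Θ := by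
  choose S' hS' using fun i => IND.exists_S' (IntermediateField.fixedField (H i))
    (S : Set (HeightOneSpectrum (𝓞 K))) S.finite_toSet
  have hST : ∀ i, StarkP.aboveSet (IntermediateField.fixedField (H i)) L
      (S' i : Set (HeightOneSpectrum (𝓞 (IntermediateField.fixedField (H i))))) =
      StarkP.aboveSet K L (S : Set (HeightOneSpectrum (𝓞 K))) := hS'
  have hΘ' : ∀ i, StarkP.IsTheta (IntermediateField.fixedField (H i))
      (StarkP.aboveSet (IntermediateField.fixedField (H i)) L
        (S' i : Set (HeightOneSpectrum (𝓞 (IntermediateField.fixedField (H i)))))) Θ := by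
    intro i
    rw [hST i]
    exact INJx.isTheta_sub _ Θ hΘ
  choose F α hF hα hE using fun i => hN i (S' i) (hΘ' i)
  obtain ⟨e, htr, hnorm⟩ := trChar_comb χ m H (fun i => (τ i).character) c
    (fun i h => ZTNx.int_char (τ i) h) hχ
  let γ : Fin m → charField χ := fun i => IntermediateField.inclusion
    (inf_le_left : charField χ ⊓ charField (τ i).character ≤ charField χ) (α i)
  have hγ0 : ∀ i, γ i ≠ 0 := fun i h => hα i
    ((map_eq_zero_iff _ (IntermediateField.inclusion_injective _)).1 h)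
  have hγ : ∀ i, Algebra.norm ℚ (γ i) = Algebra.norm ℚ (α i) ^ e i := fun i => hnorm i (α i)
  have hff : ∀ i, ∀ h : H i,
      trChar (INJx.pb (IntermediateField.subgroupEquivAlgEquiv (H i)).symm (τ i)).character
        (IntermediateField.subgroupEquivAlgEquiv (H i) h) = ex0 (trChar (τ i).character) h := by
    intro i h
    rw [INJx.pb_trChar, MulEquiv.symm_apply_apply, ex0_mem]
  choose U i1 i2 i3 κ hκ using fun i =>
    INIx.ex_tr (INJx.pb (IntermediateField.subgroupEquivAlgEquiv (H i)).symm (τ i))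
  have hTf : (aboveSet K L (S : Set (HeightOneSpectrum (𝓞 K)))).Finite :=
    IND.aboveSet_finite _ S.finite_toSet
  have hT : StableT K (aboveSet K L (S : Set (HeightOneSpectrum (𝓞 K)))) :=
    STB_thm K L (S : Set (HeightOneSpectrum (𝓞 K)))
  obtain ⟨φ, Θ₀, hφ, h2⟩ := StarkB.exists_phiTheta hT hTf
    (StarkB.actU_mem' (S : Set (HeightOneSpectrum (𝓞 K)))) Θ hΘ
  have hb := ALLT.thb K L _ φ Θ₀ hTf hφ
  have hc := ALLT.thc K L _ hT φ Θ₀ hTf hφ
  refine ⟨fun z => ∏ i, F i z ^ (c i * (e i : ℤ)),
    ∏ i, γ i ^ c i, ?_, ?_, fun V₁ _ _ _ ρ₁ hρ₁ => ?_⟩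
  · exact artin_comb m H (fun i => ex0 (trChar (τ i).character))
      (fun i => trChar (INJx.pb (IntermediateField.subgroupEquivAlgEquiv (H i)).symm
        (τ i)).character) hff (fun i => c i * (e i : ℤ))
      (S : Set (HeightOneSpectrum (𝓞 K))) (trChar χ) htr
      (fun i => (S' i : Set (HeightOneSpectrum (𝓞 (IntermediateField.fixedField (H i)))))) hS' F hF
  · exact Finset.prod_ne_zero_iff.2 fun i _ => zpow_ne_zero _ (hγ0 i)
  · have h3 : Reg (aboveSet K L (S : Set (HeightOneSpectrum (𝓞 K)))) ρ₁ Θ₀ =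
        ∏ i, Reg (aboveSet K L (S : Set (HeightOneSpectrum (𝓞 K)))) (κ i) Θ₀ ^
          (c i * (e i : ℤ)) :=
      reg_comb m H (fun i => ex0 (trChar (τ i).character))
        (fun i => trChar (INJx.pb (IntermediateField.subgroupEquivAlgEquiv (H i)).symm
          (τ i)).character) hff (fun i => c i * (e i : ℤ)) hTf hT Θ₀ hb hc V₁ ρ₁
        (fun g => by rw [hρ₁]; exact htr g) U κ hκ
    have h4 : StarkP.Reg (StarkP.aboveSet K L (S : Set (HeightOneSpectrum (𝓞 K)))) ρ₁ Θ =
        Reg (aboveSet K L (S : Set (HeightOneSpectrum (𝓞 K)))) ρ₁ Θ₀ :=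
      StarkB.Reg_eq ρ₁ Θ₀ Θ h2
    have h5 : ∀ i, Reg (aboveSet K L (S : Set (HeightOneSpectrum (𝓞 K)))) (κ i) Θ₀ /
        meromorphicTrailingCoeffAt (F i) 0 = ((Algebra.norm ℚ (α i) : ℚ) : ℂ) := by
      intro i
      have h6 := hE i (U i) (κ i) (hκ i)
      rw [hST i] at h6
      rw [← h6]
      congr 1
      exact (StarkB.Reg_eq (κ i) Θ₀ Θ h2).symm
    have h7 : meromorphicTrailingCoeffAt (fun z => ∏ i, F i z ^ (c i * (e i : ℤ))) 0 =
        ∏ i, meromorphicTrailingCoeffAt (F i) 0 ^ (c i * (e i : ℤ)) :=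
      IND.lead_comb (fun i => c i * (e i : ℤ)) F fun i => (hF i).1 0
    rw [h4, h3, h7, ← Finset.prod_div_distrib]
    rw [map_prod, Rat.cast_prod]
    refine Finset.prod_congr rfl fun i _ => ?_
    rw [← div_zpow, h5 i, norm_zpow _ (hγ0 i), hγ i, ← zpow_natCast, ← zpow_mul,
      Rat.cast_zpow, mul_comm (e i : ℤ)]

end COMx

end StarkC.ABS
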