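import Pool.Agent.ABS.StA

/-!
# The map `T'` commutes with the norm `nf`
-/

set_option autoImplicit false

open NumberField NumberField.InfinitePlace
open scoped Classical

namespace ABS

namespace COMN

theorem jf_inj (hJN : Stmt_JN) (F L : Type) [Field F] [NumberField F] [Field L] [NumberField L]
    [Algebra F L] [IsGalois F L] : Function.Injective (jf F L) := by
  intro x y h
  have h1 := (hJN F L).1 x
  have h2 := (hJN F L).1 y
  rw [h, h2] at h1
  have h3 : ((Module.finrank F L : ℕ) : ℝ) ≠ 0 := by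
    have h4 : FiniteDimensional F L := Module.Finite.of_restrictScalars_finite ℚ F L
    have h5 : 0 < Module.finrank F L := Module.finrank_pos
    exact_mod_cast h5.ne'
  exact (smul_right_injective _ h3 h1).symm

theorem actf_mem {K L : Type} [Field K] [Field L] [NumberField L] [Algebra K L]
    (g : L ≃ₐ[K] L) {y : InfinitePlace L → ℝ} (hy : y ∈ V L) : actf g y ∈ V L := by
  show ∑ w, y (g⁻¹ • w) = 0
  have h : ∑ w, y (g⁻¹ • w) = ∑ w, y w := Equiv.sum_comp (MulAction.toPerm g⁻¹) y
  rw [h]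
  exact hy

end COMN

open COMN

theorem COMN_thm : Stmt_COMN := by
  intro hJN hJV K F L _ _ _ _ _ _ _ _ _ _ _ T T' hT y x hx
  apply jf_inj hJN F L
  obtain ⟨hV, -, -, -⟩ := hJV hJN F L
  have h1 := hT.compat x ⟨jf F L x, hV x x.2⟩ rfl
  rw [← h1]
  have h2 : (⟨jf F L x, hV x x.2⟩ : V L) =
      ∑ b : L ≃ₐ[F] L, (⟨actf b y, actf_mem b y.2⟩ : V L) := by
    apply Subtype.ext
    rw [Submodule.coe_sum]
    show jf F L x = _
    rw [hx, (hJN F L).2]
  rw [h2, map_sum, Submodule.coe_sum, (hJN F L).2]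
  refine Finset.sum_congr rfl fun b _ => ?_
  exact hT.comm (b.restrictScalars K) y ⟨actf b y, actf_mem b y.2⟩ rfl

end ABS
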