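import Pool.Agent.ABS.StA

/-!
# The core formula
-/

open NumberField NumberField.InfinitePlace
open scoped Classical

namespace ABS

namespace CORE

/-- The consequence of TRG used here. -/
def Quot : Prop :=
  ∀ (l k : ℕ), Ok l k → ∀ (A M : Type) [AddCommGroup A] [AddCommGroup M] [Finite A] [Finite M],
    TRData (l ^ k) l A M → IsNrm (l ^ k) ((Nat.card M : ℚ) / Nat.card A)

section

variable {G : Type} [AddCommGroup G]

theorem card_quot (A B : AddSubgroup G) : Nat.card (B ⧸ A.addSubgroupOf B) = A.relIndex B := rfl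

theorem finite_quot (A B : AddSubgroup G) (h : A.relIndex B ≠ 0) :
    Finite (B ⧸ A.addSubgroupOf B) := by
  apply Nat.finite_of_card_ne_zero
  rw [card_quot]
  exact h

end

/-- The lattice `m T X`. -/
noncomputable def img {F : Type} [Field F] [NumberField F] (m : ℕ) (T : V F →ₗ[ℝ] V F) :
    AddSubgroup (V F) :=
  AddSubgroup.map ((m : ℝ) • T).toAddMonoidHom (X F)

theorem mem_img {F : Type} [Field F] [NumberField F] {m : ℕ} {T : V F →ₗ[ℝ] V F} {x : V F} :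
    x ∈ img m T ↔ ∃ y ∈ X F, (m : ℝ) • T y = x := Iff.rfl

section

variable {K F L : Type} [Field K] [NumberField K] [Field F] [NumberField F] [Field L]
    [NumberField L] [Algebra K F] [Algebra K L] [Algebra F L] [IsScalarTower K F L]
    [IsGalois K L] [IsGalois F L]

/-- The quotients of orders for two pairs of stable lattices of the form `m T X ≤ B`. -/
theorem pair (hQ : Quot) (hGEN : Stmt_GEN) (hJN : Stmt_JN) (hJV : Stmt_JV) (hLG : Stmt_LG)
    (hQUO : Stmt_QUO) {l k : ℕ} (hok : Ok l k) {σ : L ≃ₐ[K] L}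
    (htow : Tow l k K F L σ) {T : V L →ₗ[ℝ] V L} {T' : V F →ₗ[ℝ] V F}
    (compat : ∀ (x : V F) (y : V L), (y : InfinitePlace L → ℝ) = jf F L x →
      ((T y : V L) : InfinitePlace L → ℝ) = jf F L (T' x : V F))
    (comn : ∀ (y : V L) (x : V F), (x : InfinitePlace F → ℝ) = nf F L y →
      ((T' x : V F) : InfinitePlace F → ℝ) = nf F L (T y : V L))
    (comm : ∀ (g : L ≃ₐ[K] L) (x y : V L), (y : InfinitePlace L → ℝ) = actf g x →
      ((T y : V L) : InfinitePlace L → ℝ) = actf g (T x : V L))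
    (m : ℕ) (B : AddSubgroup (V F)) (B' : AddSubgroup (V L))
    (h1 : ∀ (x : V F) (y : V L), (y : InfinitePlace L → ℝ) = jf F L x → x ∈ B → y ∈ B')
    (h2 : ∀ (y : V L) (x : V F), (x : InfinitePlace F → ℝ) = nf F L y → y ∈ B' → x ∈ B)
    (h3 : ∀ (y z : V L), (z : InfinitePlace L → ℝ) = actf σ y → y ∈ B' → z ∈ B')
    (hB : (img m T').relIndex B ≠ 0) (hB' : (img m T).relIndex B' ≠ 0) :
    IsNrm (l ^ k) (((img m T).relIndex B' : ℚ) / (img m T').relIndex B) := by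
  obtain ⟨jv1, jv2, jv3, jv4⟩ := hJV hJN F L
  obtain ⟨-, lg2, lg3⟩ := hLG K L σ
  have hd := hQUO hGEN hJN hJV hLG l k K F L σ htow (img m T') B (img m T) B' ?_ ?_ ?_
  · have := finite_quot _ _ hB
    have := finite_quot _ _ hB'
    have h := hQ l k hok _ _ hd
    rwa [card_quot, card_quot] at h
  · intro x y hxy
    refine ⟨fun hx => ?_, h1 x y hxy⟩
    rw [mem_img] at hx ⊢
    obtain ⟨x₀, hx₀, rfl⟩ := hx
    refine ⟨⟨jf F L x₀, jv1 _ x₀.2⟩, fun w => jv3 _ hx₀ w, Subtype.ext ?_⟩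
    rw [hxy, Submodule.coe_smul, Submodule.coe_smul, compat x₀ ⟨jf F L x₀, jv1 _ x₀.2⟩ rfl, map_smul]
  · intro y x hyx
    refine ⟨fun hy => ?_, h2 y x hyx⟩
    rw [mem_img] at hy ⊢
    obtain ⟨y₀, hy₀, rfl⟩ := hy
    refine ⟨⟨nf F L y₀, jv2 _ y₀.2⟩, fun w => jv4 _ hy₀ w, Subtype.ext ?_⟩
    rw [hyx, Submodule.coe_smul, Submodule.coe_smul, comn y₀ ⟨nf F L y₀, jv2 _ y₀.2⟩ rfl, map_smul]
  · intro y z hyz
    refine ⟨fun hy => ?_, h3 y z hyz⟩
    rw [mem_img] at hy ⊢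
    obtain ⟨y₀, hy₀, rfl⟩ := hy
    refine ⟨⟨actf σ y₀, lg2 _ y₀.2⟩, fun w => lg3 _ hy₀ w, Subtype.ext ?_⟩
    rw [hyz, Submodule.coe_smul, Submodule.coe_smul, comm σ y₀ ⟨actf σ y₀, lg2 _ y₀.2⟩ rfl, map_smul]

end

/-- The final calculation. -/
theorem calc_final {dL dF aL aF mL mF RL RF hL hF wL wF : ℝ} (h1 : dL * mL = aL * RL)
    (h2 : dF * mF = aF * RF) (hmL : mL ≠ 0) (hmF : mF ≠ 0) (hRL : RL ≠ 0) (hRF : RF ≠ 0)
    (haF : aF ≠ 0) (hhL : hL ≠ 0) (hhF : hF ≠ 0) (hwL : wL ≠ 0) (hwF : wF ≠ 0) :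
    dL / (hL * RL / wL) =
      (aL / aF * (mL / mF)⁻¹ * (hL / hF)⁻¹ * (wL / wF)) * (dF / (hF * RF / wF)) := by
  have e1 : dL = aL * RL / mL := by field_simp; linarith
  have e2 : dF = aF * RF / mF := by field_simp; linarith
  rw [e1, e2]
  field_simp

end CORE

/-- CORE, with the hypotheses used. -/
theorem CORE_thm (hQ : CORE.Quot) (hGEN : Stmt_GEN) (hCLN : Stmt_CLN) (hCLG : Stmt_CLG)
    (hMUG : Stmt_MUG) (hJN : Stmt_JN) (hJV : Stmt_JV) (hLJ : Stmt_LJ) (hLG : Stmt_LG)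
    (hQUO : Stmt_QUO) (hREG1 : Stmt_REG1) (hXI : Stmt_XI) (hMUL : Stmt_MUL)
    (hCOMN : Stmt_COMN) : Stmt_CORE := by
  intro l k K F L _ _ _ _ _ _ _ _ _ _ _ _ σ hok htow T T' hTH
  obtain ⟨m, hm, hmL, hmF⟩ := hMUL hJN hJV hLJ K F L T T' hTH
  obtain ⟨jv1, jv2, jv3, jv4⟩ := hJV hJN F L
  obtain ⟨lj1, lj2⟩ := hLJ hJN F L
  obtain ⟨lg1, lg2, lg3⟩ := hLG K L σ
  obtain ⟨rL0, rL1⟩ := hREG1 L T m hm hTH.inj hmL
  obtain ⟨rF0, rF1⟩ := hREG1 F T' m hm hTH.inj' hmF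
  have xL := hXI L m hm
  have xF := hXI F m hm
  have hm0 : (m : ℝ) ≠ 0 := by exact_mod_cast hm.ne'
  -- the four pairs
  have q1 := CORE.pair hQ hGEN hJN hJV hLG hQUO hok htow hTH.compat
    (hCOMN hJN hJV K F L T T' hTH) hTH.comm m (Lam F) (Lam L) ?_ ?_ ?_ rF0 rL0
  rotate_left
  · rintro x y hxy ⟨u, rfl⟩
    obtain ⟨u', -, hu'⟩ := lj1 u
    exact ⟨u', Subtype.ext (by rw [hu', hxy])⟩
  · rintro y x hyx ⟨u, rfl⟩
    obtain ⟨u', -, hu'⟩ := lj2 u
    exact ⟨u', Subtype.ext (by rw [← hu', hyx])⟩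
  · rintro y z hyz ⟨u, rfl⟩
    obtain ⟨u', -, hu'⟩ := lg1 u
    exact ⟨u', Subtype.ext (by rw [hu', hyz])⟩
  have q2 := CORE.pair hQ hGEN hJN hJV hLG hQUO hok htow (T := LinearMap.id)
    (T' := LinearMap.id) (fun x y hxy => hxy) (fun y x hyx => hyx) (fun g x y hxy => hxy) m
    (X F) (X L) ?_ ?_ ?_ ?_ ?_
  rotate_left
  · intro x y hxy hx w
    rw [hxy]
    exact jv3 _ hx w
  · intro y x hyx hy w
    rw [hyx]
    exact jv4 _ hy w
  · intro y z hyz hy w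
    rw [hyz]
    exact lg3 _ hy w
  · show (AddSubgroup.map ((m : ℝ) • (LinearMap.id : V F →ₗ[ℝ] V F)).toAddMonoidHom
      (X F)).relIndex (X F) ≠ 0
    rw [xF]
    exact pow_ne_zero _ hm.ne'
  · show (AddSubgroup.map ((m : ℝ) • (LinearMap.id : V L →ₗ[ℝ] V L)).toAddMonoidHom
      (X L)).relIndex (X L) ≠ 0
    rw [xL]
    exact pow_ne_zero _ hm.ne'
  have q3 := hQ l k hok _ _ (hCLG hGEN hCLN l k K F L σ htow)
  have q4 := hQ l k hok _ _ (hMUG hGEN l k K F L σ htow)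
  refine ⟨_, ((q1.mul q2.inv).mul q3.inv).mul q4, ?_⟩
  have c1 : (CORE.img m (LinearMap.id : V L →ₗ[ℝ] V L)).relIndex (X L) = m ^ (Units.rank L) := xL
  have c2 : (CORE.img m (LinearMap.id : V F →ₗ[ℝ] V F)).relIndex (X F) = m ^ (Units.rank F) := xF
  have c3 : Nat.card (Additive (ClassGroup (𝓞 L))) = classNumber L := by
    rw [classNumber, ← Nat.card_eq_fintype_card]
    rfl
  have c4 : Nat.card (Additive (ClassGroup (𝓞 F))) = classNumber F := by
    rw [classNumber, ← Nat.card_eq_fintype_card]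
    rfl
  have c5 : Nat.card (Additive (Units.torsion L)) = Units.torsionOrder L := by
    rfl
  have c6 : Nat.card (Additive (Units.torsion F)) = Units.torsionOrder F := by
    rfl
  rw [c1, c2, c3, c4, c5, c6]
  have hh : ∀ (E : Type) [Field E] [NumberField E], (classNumber E : ℝ) ≠ 0 := by
    intro E _ _
    exact_mod_cast classNumber_ne_zero E
  have hw : ∀ (E : Type) [Field E] [NumberField E], (Units.torsionOrder E : ℝ) ≠ 0 := by
    intro E _ _
    exact_mod_cast Units.torsionOrder_ne_zero E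
  have hR : ∀ (E : Type) [Field E] [NumberField E], Units.regulator E ≠ 0 := by
    intro E _ _
    exact (Units.regulator_pos E).ne'
  have key := CORE.calc_final rL1 rF1 (pow_ne_zero _ hm0) (pow_ne_zero _ hm0) (hR L) (hR F)
    (by exact_mod_cast rF0) (hh L) (hh F) (hw L) (hw F)
  rw [key]
  push_cast
  rfl

end ABS
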