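import Pool.Agent.ABS.StB

/-!
# Project ABS: the core formula, from the printed form of the definitions
-/

open NumberField IsDedekindDomain
open scoped TensorProduct Classical

namespace StarkC.ABS

namespace COREBx

theorem isCyc (n : ℕ) (hn : n ≠ 0) : IsCyclotomicExtension {n} ℚ (Cyc n) := by
  have h := IntermediateField.isCyclotomicExtension_adjoin_of_exists_isPrimitiveRoot {n} ℚ ℂ (by
    intro m hm hm0
    exact ⟨_, Complex.isPrimitiveRoot_exp m hm0⟩)
  have e : {b : ℂ | ∃ m ∈ ({n} : Set ℕ), m ≠ 0 ∧ b ^ m = 1} = {z : ℂ | z ^ n = 1} := by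
    ext z
    simp [hn]
  rw [e] at h
  exact h

theorem norm_cyc' (n : ℕ) (hn : n ≠ 0) (C : Type) [Field C] [Algebra ℚ C]
    [IsCyclotomicExtension {n} ℚ C] (α : C) (hα : α ≠ 0) :
    ∃ β : Cyc n, β ≠ 0 ∧ Algebra.norm ℚ β = Algebra.norm ℚ α := by
  have : NeZero n := ⟨hn⟩
  have := isCyc n hn
  let e : C ≃ₐ[ℚ] Cyc n := IsCyclotomicExtension.algEquiv {n} ℚ _ _
  exact ⟨e α, by simpa using hα, Algebra.norm_eq_of_algEquiv e α⟩

theorem norm_cyc (n : ℕ) (hn : n ≠ 0) (α : CyclotomicField n ℚ) (hα : α ≠ 0) :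
    ∃ β : Cyc n, β ≠ 0 ∧ Algebra.norm ℚ β = Algebra.norm ℚ α := by
  have : NeZero n := ⟨hn⟩
  have : NeZero ((n : ℕ) : ℚ) := ⟨Nat.cast_ne_zero.2 hn⟩
  obtain ⟨β, hβ, hN⟩ := @norm_cyc' n hn (CyclotomicField n ℚ) _ _
    (CyclotomicField.isCyclotomicExtension n ℚ) α hα
  refine ⟨β, hβ, ?_⟩
  rw [hN]
  congr!

section

variable {K L : Type} [Field K] [NumberField K] [Field L] [NumberField L] [Algebra K L]

theorem restr_mem (B : Subgroup (L ≃ₐ[K] L)) (g : L ≃ₐ[IntermediateField.fixedField B] L) :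
    g.restrictScalars K ∈ B := by
  have : FiniteDimensional K L := Module.Finite.of_restrictScalars_finite ℚ K L
  have h2 : g.restrictScalars K ∈ (IntermediateField.fixedField B).fixingSubgroup := by
    rw [IntermediateField.mem_fixingSubgroup_iff]
    intro x hx
    exact g.commutes ⟨x, hx⟩
  exact (SetLike.ext_iff.1 (IntermediateField.fixingSubgroup_fixedField B) _).1 h2

omit [NumberField K] [NumberField L] in
theorem exists_lift (B : Subgroup (L ≃ₐ[K] L)) (b : L ≃ₐ[K] L) (hb : b ∈ B) :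
    ∃ g : L ≃ₐ[IntermediateField.fixedField B] L, (g : L ≃+* L) = (b : L ≃+* L) := by
  have h : ∀ r : IntermediateField.fixedField B, (b : L ≃+* L)
      (algebraMap (IntermediateField.fixedField B) L r) =
        algebraMap (IntermediateField.fixedField B) L r := by
    intro r
    exact (IntermediateField.mem_fixedField_iff B (r : L)).1 r.2 b hb
  exact ⟨AlgEquiv.ofRingEquiv h, rfl⟩

omit [NumberField K] in
theorem stable {T : Set (HeightOneSpectrum (𝓞 L))} (hT : StableT K T)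
    (B : Subgroup (L ≃ₐ[K] L)) : StableT (IntermediateField.fixedField B) T :=
  fun g a ha => hT (g.restrictScalars K) a ha

omit [NumberField K] in
theorem rep_eq {T : Set (HeightOneSpectrum (𝓞 L))} (hT : StableT K T)
    (B : Subgroup (L ≃ₐ[K] L)) (g : L ≃ₐ[IntermediateField.fixedField B] L) :
    repX (IntermediateField.fixedField B) T (stable hT B) g =
      repX K T hT (g.restrictScalars K) := rfl

theorem mem_inv {T : Set (HeightOneSpectrum (𝓞 L))} (hT : StableT K T)
    (B : Subgroup (L ≃ₐ[K] L)) (x : XC L T) :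
    x ∈ (repX (IntermediateField.fixedField B) T (stable hT B)).invariants ↔
      x.val ∈ StarkP.ABS.fixP B := by
  rw [Representation.mem_invariants]
  constructor
  · intro h b hb
    obtain ⟨g, hg⟩ := exists_lift B b hb
    have h1 := congrArg (fun y : XC L T => y.val) (h g)
    have h2 : actC (g : L ≃+* L) x.val = x.val := h1
    rw [hg] at h2
    exact h2
  · intro h g
    apply Subtype.ext
    exact h _ (restr_mem B g)

/-- the invariants and the fixed combinations of places -/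
noncomputable def eqv {T : Set (HeightOneSpectrum (𝓞 L))} (hT : StableT K T)
    (B : Subgroup (L ≃ₐ[K] L)) :
    (repX (IntermediateField.fixedField B) T (stable hT B)).invariants ≃ₗ[ℂ]
      ↥(StarkP.XC L T ⊓ StarkP.ABS.fixP B) where
  toFun x := ⟨x.1.val, x.1.2, (mem_inv hT B x.1).1 x.2⟩
  map_add' _ _ := rfl
  map_smul' _ _ := rfl
  invFun y := ⟨(⟨y.1, y.2.1⟩ : XC L T), (mem_inv hT B (⟨y.1, y.2.1⟩ : XC L T)).2 y.2.2⟩
  left_inv _ := rfl
  right_inv _ := rfl

end

theorem norm_rat (q : ℚ) : ‖((q : ℚ) : ℂ)‖ = |((q : ℚ) : ℝ)| := by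
  rw [← Complex.ofReal_ratCast, Complex.norm_real, Real.norm_eq_abs]

end COREBx

open COREBx

theorem COREB_thm : Stmt_COREB := by
  intro hP hREGI K L _ _ _ _ _ _ ℓ k B φ Θ hOk hcyc hcard hB hΘ
  have hfin : (aboveSet K L ((∅ : Finset (HeightOneSpectrum (𝓞 K))) :
      Set (HeightOneSpectrum (𝓞 K)))).Finite :=
    IND.aboveSet_finite _ (Finset.finite_toSet _)
  have hT : StableT K (aboveSet K L ((∅ : Finset (HeightOneSpectrum (𝓞 K))) :
      Set (HeightOneSpectrum (𝓞 K)))) := STB_thm K L _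
  have hemp : aboveSet K L ((∅ : Finset (HeightOneSpectrum (𝓞 K))) :
      Set (HeightOneSpectrum (𝓞 K))) = StarkP.aboveSet K L ∅ := by
    rw [Finset.coe_empty]
    rfl
  have hP' := hP K L ℓ k B
  rw [← hemp] at hP'
  generalize aboveSet K L ((∅ : Finset (HeightOneSpectrum (𝓞 K))) :
      Set (HeightOneSpectrum (𝓞 K))) = T at *
  obtain ⟨Θ', hΘ'⟩ := LinearMap.exists_extend (p := XCsub L T)
    (XC.val ∘ₗ Θ : XCsub L T →ₗ[ℂ] ((L → ℝ) →₀ ℂ))
  have h1 : ∀ x : XC L T, Θ' x.val = (Θ x).val := fun x => LinearMap.congr_fun hΘ' x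
  have hIs : StarkP.IsTheta K T Θ' := StarkB.isTheta_of hT hfin φ Θ hΘ Θ' h1
  obtain ⟨α, hα, hform⟩ := hP' Θ' hOk hcyc hcard hB hIs
  have hn : ℓ ^ k ≠ 0 := pow_ne_zero _ hOk.1.ne_zero
  obtain ⟨β, hβ, hN⟩ := norm_cyc (ℓ ^ k) hn α hα
  refine ⟨β, hβ, ?_⟩
  -- the determinant on the whole space
  have hd1 : StarkP.detOn Θ' (StarkP.XC L T) = LinearMap.det Θ :=
    StarkB.detOn_eq (M := XC L T) Θ' (StarkP.XC L T)
      (fun x hx => by
        have h2 := h1 (⟨x, hx⟩ : XC L T)
        have h3 : Θ' x = (Θ (⟨x, hx⟩ : XC L T)).val := h2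
        rw [h3]
        exact (Θ (⟨x, hx⟩ : XC L T)).2) Θ
      (LinearEquiv.refl ℂ (XC L T) : XC L T ≃ₗ[ℂ] XCsub L T) h1
  -- the determinant on the invariants
  have hcomm : ∀ g : L ≃ₐ[K] L, Θ ∘ₗ repX K T hT g = repX K T hT g ∘ₗ Θ :=
    fun g => THC_thm XRAT_thm K L T hT φ Θ hfin hΘ g
  have hinv : ∀ x ∈ (repX (IntermediateField.fixedField B) T (stable hT B)).invariants,
      Θ x ∈ (repX (IntermediateField.fixedField B) T (stable hT B)).invariants := by
    intro x hx
    rw [Representation.mem_invariants] at hx ⊢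
    intro g
    have h2 := LinearMap.congr_fun (hcomm (g.restrictScalars K)) x
    have h3 := hx g
    rw [rep_eq hT B g] at h3 ⊢
    have h4 : Θ (repX K T hT (g.restrictScalars K) x) =
        repX K T hT (g.restrictScalars K) (Θ x) := h2
    rw [← h4, h3]
  have hR := hREGI (IntermediateField.fixedField B) L T (stable hT B) Θ hfin
    (fun g => by rw [rep_eq hT B g]; exact hcomm _) hinv
  have hd2 : StarkP.detOn Θ' (StarkP.XC L T ⊓ StarkP.ABS.fixP B) =
      LinearMap.det (Θ.restrict hinv) :=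
    StarkB.detOn_eq (M := (repX (IntermediateField.fixedField B) T (stable hT B)).invariants)
      Θ' (StarkP.XC L T ⊓ StarkP.ABS.fixP B)
      (fun x hx => by
        have h3 : Θ' x = (Θ (⟨x, hx.1⟩ : XC L T)).val := h1 (⟨x, hx.1⟩ : XC L T)
        rw [h3]
        exact ⟨(Θ (⟨x, hx.1⟩ : XC L T)).2, (mem_inv hT B _).1
          (hinv _ ((mem_inv hT B (⟨x, hx.1⟩ : XC L T)).2 hx.2))⟩)
      (Θ.restrict hinv) (eqv hT B) (fun x => h1 x.1)
  rw [hd1, hd2, ← hR, ← hN, ← norm_rat] at hform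
  exact hform

end StarkC.ABS
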