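import Pool.Agent.ABS.StA2

/-!
# Project ABS, module COX: the core formula for the fixed field
-/

open NumberField NumberField.InfinitePlace IsDedekindDomain
open scoped Classical

namespace ABS

namespace COX

theorem actf_congr {K K' L : Type} [Field K] [Field K'] [Field L] [NumberField L] [Algebra K L]
    [Algebra K' L] (g : L ≃ₐ[K] L) (g' : L ≃ₐ[K'] L) (h : ∀ x, g x = g' x) :
    actf g = actf g' := by
  refine LinearMap.ext fun y => funext fun w => ?_
  show y (g⁻¹ • w) = y (g'⁻¹ • w)
  have h1 : g⁻¹ • w = g'⁻¹ • w := by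
    refine DFunLike.ext _ _ fun x => ?_
    rw [InfinitePlace.smul_apply, InfinitePlace.smul_apply]
    exact congrArg w (h x)
  rw [h1]

theorem ok_of {l k : ℕ} (h : StarkP.ABS.OkOrd l k) : Ok l k := h

theorem final {a b h h' r r' w w' q : ℝ} (ha : 0 ≤ a) (hb : 0 ≤ b) (hh : 0 < h) (hh' : 0 < h')
    (hr : 0 < r) (hr' : 0 < r') (hw : 0 < w) (hw' : 0 < w')
    (e : a / (h * r / w) = q * (b / (h' * r' / w'))) :
    a * (h' * r' * w) = |q| * b * (h * r * w') := by
  have e1 : a * (h' * r' * w) = q * b * (h * r * w') := by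
    field_simp at e
    linarith
  have e2 : |a * (h' * r' * w)| = |q * b * (h * r * w')| := by rw [e1]
  rw [abs_of_nonneg (by positivity), abs_mul, abs_mul, abs_of_nonneg hb,
    abs_of_nonneg (by positivity : 0 ≤ h * r * w')] at e2
  exact e2

section

variable {K L : Type} [Field K] [NumberField K] [Field L] [NumberField L] [Algebra K L]
  (B : Subgroup (L ≃ₐ[K] L))

theorem exists_up (b : L ≃ₐ[K] L) (hb : b ∈ B) :
    ∃ b' : L ≃ₐ[IntermediateField.fixedField B] L, ∀ x, b x = b' x := by
  have h1 : b ∈ (IntermediateField.fixedField B).fixingSubgroup := by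
    rw [IntermediateField.fixingSubgroup_fixedField]
    exact hb
  exact ⟨IntermediateField.fixingSubgroupEquiv _ ⟨b, h1⟩, fun x => rfl⟩

theorem exists_down (b' : L ≃ₐ[IntermediateField.fixedField B] L) :
    ∃ b ∈ B, ∀ x, b x = b' x := by
  have h1 : b'.restrictScalars K ∈ (IntermediateField.fixedField B).fixingSubgroup := by
    rw [IntermediateField.mem_fixingSubgroup_iff]
    intro x hx
    exact b'.commutes ⟨x, hx⟩
  exact ⟨b'.restrictScalars K, (IntermediateField.fixingSubgroup_fixedField B).le h1,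
    fun x => rfl⟩

end

end COX

open COX

theorem COX_thm : Stmt_COX := by
  intro hIOT hLMU hSPN hTRE hJN hJV hLG hTRF hDTC hCORE K L _ _ _ _ _ _ l k B Θ hok hcyc hcard
    hB hΘ
  have hemp : StarkP.aboveSet K L (∅ : Set (HeightOneSpectrum (𝓞 K))) = ∅ := rfl
  rw [hemp] at hΘ
  rw [hemp]
  obtain ⟨i1, i2, i3, i4, i5, -, i7⟩ := hIOT L
  obtain ⟨T, hT1, hT2, hT3, hT4⟩ := hTRE hIOT hLMU hSPN K L Θ hΘ
  obtain ⟨f1, f2, T', hTH⟩ := hTRF hJN hJV hLG K (IntermediateField.fixedField B) L T hT2 hT3 hT4
  have hok' := ok_of hok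
  obtain ⟨σ, hσ⟩ := IsCyclic.exists_generator (α := L ≃ₐ[K] L)
  have hTow : Tow l k K (IntermediateField.fixedField B) L σ := by
    refine ⟨hok'.1, hok'.2.1, fun g => ?_, hcard, ?_⟩
    · obtain ⟨i, hi⟩ := mem_powers_iff_mem_zpowers.2 (hσ g)
      exact ⟨i, hi.symm⟩
    · rw [IntermediateField.finrank_fixedField_eq_card, hB]
  obtain ⟨q, ⟨α, hα, hq⟩, hcore⟩ := hCORE l k K (IntermediateField.fixedField B) L σ hok' hTow
    T T' hTH
  have hjv := (hJV hJN (IntermediateField.fixedField B) L).1
  -- the determinant on `XC L ∅`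
  have hd1 : StarkP.detOn Θ (StarkP.XC L ∅) = ((LinearMap.det T : ℝ) : ℂ) := by
    refine hDTC _ Θ _ (V L) (fun x => iot L (x : InfinitePlace L → ℝ)) T
      (fun x y => i1 _ _) (fun c x => i2 _ _) (fun x => i4 _ x.2) (fun w hw => ?_)
      (fun x y h => ?_) hT1
    · obtain ⟨x, hx, y, hy, h⟩ := i5 w hw
      exact ⟨⟨x, hx⟩, ⟨y, hy⟩, h⟩
    · obtain ⟨h1, h2⟩ := i3 _ _ h
      exact ⟨Subtype.ext h1, Subtype.ext h2⟩
  -- the determinant on the fixed part
  have hd2 : StarkP.detOn Θ (StarkP.XC L ∅ ⊓ StarkP.ABS.fixP B) =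
      ((LinearMap.det T' : ℝ) : ℂ) := by
    have hfix : ∀ x : V (IntermediateField.fixedField B), ∀ b ∈ B,
        actf b (jf (IntermediateField.fixedField B) L x) =
          jf (IntermediateField.fixedField B) L x := by
      intro x b hb
      obtain ⟨b', hb'⟩ := exists_up B b hb
      rw [actf_congr b b' hb']
      exact (f1 ⟨_, hjv _ x.2⟩).2 ⟨x, rfl⟩ b'
    refine hDTC _ Θ _ (V (IntermediateField.fixedField B))
      (fun x => iot L (jf (IntermediateField.fixedField B) L
        (x : InfinitePlace (IntermediateField.fixedField B) → ℝ))) T'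
      (fun x y => ?_) (fun c x => ?_) (fun x => ?_) (fun w hw => ?_)
      (fun x y h => ?_) (fun x => ?_)
    · show iot L (jf (IntermediateField.fixedField B) L
        ((x : InfinitePlace (IntermediateField.fixedField B) → ℝ) + y)) = _
      rw [map_add, i1]
    · show iot L (jf (IntermediateField.fixedField B) L
        (c • (x : InfinitePlace (IntermediateField.fixedField B) → ℝ))) = _
      rw [map_smul, i2]
    · refine Submodule.mem_inf.2 ⟨i4 _ (hjv _ x.2), fun b hb => ?_⟩
      rw [i7 K b, hfix x b hb]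
    · obtain ⟨hw1, hw2⟩ := Submodule.mem_inf.1 hw
      obtain ⟨x₀, hx₀, y₀, hy₀, h⟩ := i5 w hw1
      have hact : ∀ b ∈ B, actf b x₀ = x₀ ∧ actf b y₀ = y₀ := by
        intro b hb
        have h1 := hw2 b hb
        rw [h, map_add, map_smul, i7 K b, i7 K b] at h1
        have h2 : iot L (actf b x₀ - x₀) + Complex.I • iot L (actf b y₀ - y₀) = 0 := by
          have h3 : ∀ a c : InfinitePlace L → ℝ, iot L (a - c) = iot L a - iot L c := by
            intro a c
            have h4 := i1 (a - c) c
            rw [sub_add_cancel] at h4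
            rw [h4, add_sub_cancel_right]
          rw [h3, h3, smul_sub]
          have h5 := sub_eq_zero.2 h1
          rw [← h5]
          abel
        obtain ⟨h6, h7⟩ := i3 _ _ h2
        exact ⟨sub_eq_zero.1 h6, sub_eq_zero.1 h7⟩
      obtain ⟨x, hx⟩ := (f1 ⟨x₀, hx₀⟩).1 fun b' => by
        obtain ⟨b, hb, hbb⟩ := exists_down B b'
        rw [← actf_congr b b' hbb]
        exact (hact b hb).1
      obtain ⟨y, hy⟩ := (f1 ⟨y₀, hy₀⟩).1 fun b' => by
        obtain ⟨b, hb, hbb⟩ := exists_down B b'
        rw [← actf_congr b b' hbb]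
        exact (hact b hb).2
      refine ⟨x, y, ?_⟩
      show w = iot L (jf (IntermediateField.fixedField B) L x) +
        Complex.I • iot L (jf (IntermediateField.fixedField B) L y)
      rw [hx, hy]
      exact h
    · obtain ⟨h1, h2⟩ := i3 _ _ h
      have h0 : jf (IntermediateField.fixedField B) L
          ((0 : V (IntermediateField.fixedField B)) :
            InfinitePlace (IntermediateField.fixedField B) → ℝ) = 0 := by
        rw [Submodule.coe_zero, map_zero]
      exact ⟨f2 x 0 (h1.trans h0.symm), f2 y 0 (h2.trans h0.symm)⟩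
    · show Θ (iot L (jf (IntermediateField.fixedField B) L x)) =
        iot L (jf (IntermediateField.fixedField B) L (T' x : V (IntermediateField.fixedField B)))
      have h1 := hT1 ⟨jf (IntermediateField.fixedField B) L x, hjv _ x.2⟩
      rw [hTH.compat x ⟨jf (IntermediateField.fixedField B) L x, hjv _ x.2⟩ rfl] at h1
      exact h1
  refine ⟨α, hα, ?_⟩
  rw [hd1, hd2, Complex.norm_real, Complex.norm_real, Real.norm_eq_abs, Real.norm_eq_abs, hq]
  exact final (abs_nonneg _) (abs_nonneg _)
    (by exact_mod_cast Nat.pos_of_ne_zero (classNumber_ne_zero L))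
    (by exact_mod_cast Nat.pos_of_ne_zero (classNumber_ne_zero _))
    (Units.regulator_pos L) (Units.regulator_pos _)
    (by exact_mod_cast Units.torsionOrder_pos L) (by exact_mod_cast Units.torsionOrder_pos _) hcore

end ABS
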