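import Pool.Agent.ABS.StA

/-!
# ABS, module CRD: the order of a finite module over `𝓞 E` is the norm of an ideal
-/

open NumberField
open scoped Classical

namespace ABS

namespace CRD

theorem main (E : Type) [Field E] [NumberField E] (n : ℕ) : ∀ (M : Type) [AddCommGroup M]
    [Module (𝓞 E) M] [Finite M], Nat.card M = n →
    ∃ I : Ideal (𝓞 E), I ≠ ⊥ ∧ Ideal.absNorm I = Nat.card M := by
  induction n using Nat.strong_induction_on with
  | _ n ih =>
    intro M _ _ _ hn
    rcases subsingleton_or_nontrivial M with h | h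
    · refine ⟨⊤, top_ne_bot, ?_⟩
      rw [Ideal.absNorm_top]
      exact (Nat.card_unique (α := M)).symm
    · obtain ⟨x, hx⟩ := exists_ne (0 : M)
      obtain ⟨f, hf⟩ : ∃ f : 𝓞 E →ₗ[𝓞 E] M, f 1 = x :=
        ⟨LinearMap.toSpanSingleton (𝓞 E) M x, by simp⟩
      have hcard : Nat.card M = Nat.card (LinearMap.range f) * Nat.card (M ⧸ LinearMap.range f) :=
        Submodule.card_eq_card_quotient_mul_card (LinearMap.range f)
      have h1 : Ideal.absNorm (LinearMap.ker f) = Nat.card (LinearMap.range f) := by
        rw [Ideal.absNorm_apply, Submodule.cardQuot_apply]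
        exact Nat.card_congr (LinearMap.quotKerEquivRange f).toEquiv
      have hxr : x ∈ LinearMap.range f := ⟨1, hf⟩
      have h2 : 1 < Nat.card (LinearMap.range f) := by
        have : Nontrivial (LinearMap.range f) :=
          ⟨⟨⟨x, hxr⟩, 0, fun h => hx (by simpa using congrArg Subtype.val h)⟩⟩
        exact Finite.one_lt_card
      have hfin : Finite (M ⧸ LinearMap.range f) :=
        Finite.of_surjective _ (Submodule.mkQ_surjective (LinearMap.range f))
      have h3 : 0 < Nat.card (M ⧸ LinearMap.range f) := Nat.card_pos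
      have h4 : Nat.card (M ⧸ LinearMap.range f) < n := by
        rw [← hn, hcard]
        exact lt_mul_of_one_lt_left h3 h2
      obtain ⟨J, hJ, hJc⟩ := ih _ h4 (M ⧸ LinearMap.range f) rfl
      have h5 : (LinearMap.ker f : Ideal (𝓞 E)) ≠ ⊥ := by
        intro h0
        rw [h0, Ideal.absNorm_bot] at h1
        omega
      refine ⟨LinearMap.ker f * J, mul_ne_zero h5 hJ, ?_⟩
      rw [map_mul, h1, hJc, hcard]

end CRD

theorem CRD_thm : Stmt_CRD := by
  intro E _ _ M _ _ _
  exact CRD.main E _ M rfl

end ABS
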