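import Pool.Agent.ABS.StB

/-!
# The fields of the roots of unity of orders `n` and `2 n` agree for odd `n`

If `z ^ (2 n) = 1` then `z ^ n = 1` or `(- z) ^ n = 1`.
-/

namespace StarkC.ABS

/-- `CYC2`.  `ℚ(ζ_2n) = ℚ(ζ_n)` for odd `n`. -/
theorem CYC2_thm : Stmt_CYC2 := by
  intro n hn
  unfold Cyc
  apply le_antisymm
  · rw [IntermediateField.adjoin_le_iff]
    intro z hz
    have hz' : z ^ (2 * n) = 1 := hz
    have h1 : (z ^ n) ^ 2 = 1 := by
      rw [← pow_mul, mul_comm]
      exact hz'
    rcases sq_eq_one_iff.mp h1 with h | h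
    · exact IntermediateField.subset_adjoin ℚ _ h
    · have h2 : (-z) ^ n = 1 := by
        rw [hn.neg_pow, h, neg_neg]
      have h3 : -z ∈ IntermediateField.adjoin ℚ {z : ℂ | z ^ n = 1} :=
        IntermediateField.subset_adjoin ℚ _ h2
      have h4 := neg_mem h3
      rwa [neg_neg] at h4
  · rw [IntermediateField.adjoin_le_iff]
    intro z hz
    have hz' : z ^ n = 1 := hz
    refine IntermediateField.subset_adjoin ℚ _ ?_
    show z ^ (2 * n) = 1
    rw [mul_comm, pow_mul, hz', one_pow]

end StarkC.ABS
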