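import Pool.Agent.Stark.PDefs

/-!
# Project ABS (MP_46b841_nt): the core formula (interface between part A and part B)
-/

open NumberField IsDedekindDomain
open scoped Classical

namespace StarkP.ABS

/-- The orders `n = ℓ^k` for which the core formula is proved. -/
def OkOrd (ℓ k : ℕ) : Prop := ℓ.Prime ∧ 0 < k ∧ 2 < ℓ ^ k

/-- The formal combinations of places of `L` fixed by `B`. -/
def fixP {K L : Type} [Field K] [Field L] [NumberField L] [Algebra K L]
    (B : Subgroup (L ≃ₐ[K] L)) : Submodule ℂ ((L → ℝ) →₀ ℂ) where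
  carrier := {x | ∀ b ∈ B, act ((b : L ≃ₐ[K] L) : L ≃+* L) x = x}
  add_mem' := by
    intro x y hx hy b hb
    rw [map_add, hx b hb, hy b hb]
  zero_mem' := fun b _ => map_zero _
  smul_mem' := by
    intro c x hx b hb
    rw [map_smul, hx b hb]

/-- CORE: the class number formulas of `L` and `F = L^B` for `S = S_∞`, up to the norm of an
element of `ℚ(ζ_n)`, `n = ℓ^k = [L : K]`, `B` of order `ℓ`. -/
def Stmt_COREP : Prop :=
  ∀ (K L : Type) [Field K] [NumberField K] [Field L] [NumberField L] [Algebra K L] [IsGalois K L]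
    (ℓ k : ℕ) (B : Subgroup (L ≃ₐ[K] L)) (Θ : ((L → ℝ) →₀ ℂ) →ₗ[ℂ] ((L → ℝ) →₀ ℂ)),
    OkOrd ℓ k → IsCyclic (L ≃ₐ[K] L) → Nat.card (L ≃ₐ[K] L) = ℓ ^ k → Nat.card B = ℓ →
    IsTheta K (aboveSet K L ∅) Θ →
    ∃ α : CyclotomicField (ℓ ^ k) ℚ, α ≠ 0 ∧
      ‖detOn Θ (XC L (aboveSet K L ∅))‖ *
          ((classNumber (IntermediateField.fixedField B) : ℝ) *
            Units.regulator (IntermediateField.fixedField B) * (Units.torsionOrder L : ℝ)) =
        |((Algebra.norm ℚ α : ℚ) : ℝ)| *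
          ‖detOn Θ (XC L (aboveSet K L ∅) ⊓ fixP B)‖ *
          ((classNumber L : ℝ) * Units.regulator L *
            (Units.torsionOrder (IntermediateField.fixedField B) : ℝ))

end StarkP.ABS
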