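import Pool.Agent.ABS.StD4

/-!
# ABS, module DBB: the leaf over the fixed field of `A ∪ g A`
-/

set_option autoImplicit false

open NumberField IsDedekindDomain
open scoped TensorProduct Classical

namespace StarkC.ABS

namespace DBBx

section

variable {G : Type} [Group G]

/-- The subgroup `A ∪ g A`. -/
def BB (A : Subgroup G) (g : G) (h1 : ∀ a ∈ A, g⁻¹ * a * g ∈ A) (h2 : g * g ∈ A) :
    Subgroup G where
  carrier := {x | x ∈ A ∨ g⁻¹ * x ∈ A}
  one_mem' := Or.inl A.one_mem
  mul_mem' := by
    rintro x y (hx | hx) (hy | hy)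
    · exact Or.inl (A.mul_mem hx hy)
    · refine Or.inr ?_
      have e : g⁻¹ * (x * y) = (g⁻¹ * x * g) * (g⁻¹ * y) := by group
      rw [e]
      exact A.mul_mem (h1 x hx) hy
    · refine Or.inr ?_
      rw [← mul_assoc]
      exact A.mul_mem hx hy
    · refine Or.inl ?_
      have e : x * y = (g * g) * (g⁻¹ * (g⁻¹ * x) * g) * (g⁻¹ * y) := by group
      rw [e]
      exact A.mul_mem (A.mul_mem h2 (h1 _ hx)) hy
  inv_mem' := by
    rintro x (hx | hx)
    · exact Or.inl (A.inv_mem hx)
    · refine Or.inr ?_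
      have e : g⁻¹ * x⁻¹ = (g⁻¹ * (g⁻¹ * x)⁻¹ * g) * (g * g)⁻¹ := by group
      rw [e]
      exact A.mul_mem (h1 _ (A.inv_mem hx)) (A.inv_mem h2)

theorem leaf_comap {G' : Type} [Group G'] (φ : G' →* G) (A : Subgroup G) (ψ : A →* ℂˣ) (g : G)
    (g' : G') (n m s : ℕ) (h : Leaf A ψ g n m s) (hg : φ g' = g)
    (hA : ∀ a ∈ A, ∃ a', φ a' = a) :
    Leaf (A.comap φ) (ψ.comp (φ.subgroupComap A)) g' n m s where
  tt := h.tt
  odd := h.odd
  one := h.one
  ord := by
    have hs : Function.Surjective (φ.subgroupComap A) := by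
      rintro ⟨a, ha⟩
      obtain ⟨a', ha'⟩ := hA a ha
      refine ⟨⟨a', ?_⟩, Subtype.ext ha'⟩
      rw [Subgroup.mem_comap, ha']
      exact ha
    rw [← h.ord]
    refine orderOf_injective (MonoidHom.compHom' (P := ℂˣ) (φ.subgroupComap A)) ?_ ψ
    intro a b hab
    exact (MonoidHom.cancel_right hs).1 hab
  norm := by
    intro a ha
    rw [Subgroup.mem_comap] at ha ⊢
    rw [map_mul, map_mul, map_inv, hg]
    exact h.norm _ ha
  conj := by
    intro a b hab
    refine h.conj (φ.subgroupComap A a) (φ.subgroupComap A b) ?_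
    change φ b = g⁻¹ * φ a * g
    rw [hab, map_mul, map_mul, map_inv, hg]
  mem := by
    rw [Subgroup.mem_comap, map_mul, hg]
    exact h.mem
  sq := by
    intro a ha
    refine h.sq (φ.subgroupComap A a) ?_
    change φ a = g * g
    rw [ha, map_mul, hg]

end

/-- Restriction of scalars. -/
def rs {K L : Type} [Field K] [Field L] [Algebra K L] (M : IntermediateField K L) :
    (L ≃ₐ[M] L) →* (L ≃ₐ[K] L) where
  toFun x := x.restrictScalars K
  map_one' := rfl
  map_mul' _ _ := rfl

end DBBx

open DBBx in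
theorem DBB_thm : Stmt_DBB := by
  intro K L _ _ _ _ _ _ A ψ g k t h
  have hup : ∀ b ∈ BB A g h.norm h.mem,
      ∃ b', rs (IntermediateField.fixedField (BB A g h.norm h.mem)) b' = b := by
    intro b hb
    have h1 : b ∈ (IntermediateField.fixedField (BB A g h.norm h.mem)).fixingSubgroup := by
      rw [IntermediateField.fixingSubgroup_fixedField]
      exact hb
    exact ⟨IntermediateField.fixingSubgroupEquiv _ ⟨b, h1⟩, AlgEquiv.ext fun x => rfl⟩
  have hdown : ∀ b', rs (IntermediateField.fixedField (BB A g h.norm h.mem)) b' ∈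
      BB A g h.norm h.mem := by
    intro b'
    have h1 : b'.restrictScalars K ∈
        (IntermediateField.fixedField (BB A g h.norm h.mem)).fixingSubgroup := by
      rw [IntermediateField.mem_fixingSubgroup_iff]
      intro x hx
      exact b'.commutes ⟨x, hx⟩
    exact (IntermediateField.fixingSubgroup_fixedField (BB A g h.norm h.mem)).le h1
  have hAB : A ≤ BB A g h.norm h.mem := fun a ha => Or.inl ha
  have hgB : g ∈ BB A g h.norm h.mem := Or.inr (by rw [inv_mul_cancel]; exact A.one_mem)
  obtain ⟨g', hg'⟩ := hup g hgB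
  refine ⟨BB A g h.norm h.mem, A.comap (rs _), ψ.comp ((rs _).subgroupComap A), g', hAB,
    leaf_comap (rs _) A ψ g g' k 1 t h hg' fun a ha => hup a (hAB ha), ?_, fun x => Iff.rfl, ?_⟩
  · intro x
    rw [Subgroup.mem_comap, Subgroup.mem_comap, map_mul, map_inv, hg']
    exact hdown x
  · intro x y hy
    change ψ _ = ψ _
    congr 1
    exact Subtype.ext hy.symm

end StarkC.ABS
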