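import Pool.Agent.ABS.StB

/-!
# Project ABS: the last step
-/

open NumberField IsDedekindDomain Filter Topology ComplexConjugate
open scoped TensorProduct Classical

namespace StarkC.ABS

namespace LASTx

variable {K L : Type} [Field K] [NumberField K] [Field L] [NumberField L] [Algebra K L]
  [IsGalois K L]

omit [IsGalois K L] in
/-- The regulator of a sum of linear characters. -/
theorem reg_sum {T : Set (HeightOneSpectrum (𝓞 L))} (hTf : T.Finite) (hT : StableT K T)
    (Θ : XC L T →ₗ[ℂ] XC L T) (hb : Function.Bijective Θ)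
    (hc : ∀ g : L ≃ₐ[K] L, Θ ∘ₗ repX K T hT g = repX K T hT g ∘ₗ Θ)
    (V : Type) [AddCommGroup V] [Module ℂ V] [Module.Finite ℂ V]
    (ρ : Representation ℂ (L ≃ₐ[K] L) V) (s : Finset ℕ) (χ : ℕ → (L ≃ₐ[K] L) →* ℂˣ)
    (h : ∀ g, ρ.character g = ∑ t ∈ s, ((χ t g : ℂˣ) : ℂ)) :
    Reg T ρ Θ = ∏ t ∈ s, Reg T (linRep (χ t)) Θ := by
  obtain ⟨W₀, _, _, _, B₀, hdet0, -, htr0⟩ := ALLT.rgt K L T hT Θ V ρ hTf hc hb
  choose W hW1 hW2 hW3 B hdet hne htr using fun t : ℕ =>
    ALLT.rgt K L T hT Θ ℂ (linRep (χ t)) hTf hc hb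
  let e : Fin s.card ≃ s := s.equivFin.symm
  have key := @TRD_thm s.card W₀ _ _ _ B₀ (fun i => W (e i)) (fun i => hW1 (e i))
    (fun i => hW2 (e i)) (fun i => hW3 (e i)) (fun i => B (e i)) (fun _ => 1)
    (fun i => hne (e i)) ?_
  · rw [hdet0] at key
    rw [key, ← Finset.prod_coe_sort s, ← Equiv.prod_comp e]
    refine Finset.prod_congr rfl fun i _ => ?_
    rw [zpow_one]
    exact hdet (e i)
  · intro k
    rw [htr0 k]
    have h1 : (∑ g : L ≃ₐ[K] L, ρ.character g *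
        LinearMap.trace ℂ (XC L T) (repX K T hT g ∘ₗ (Θ ^ k))) =
        ∑ t ∈ s, ∑ g : L ≃ₐ[K] L, (linRep (χ t)).character g *
          LinearMap.trace ℂ (XC L T) (repX K T hT g ∘ₗ (Θ ^ k)) := by
      rw [Finset.sum_comm]
      refine Finset.sum_congr rfl fun g _ => ?_
      rw [h, Finset.sum_mul]
      refine Finset.sum_congr rfl fun t _ => ?_
      rw [IND.linRep_character]
    rw [h1, Finset.sum_div, ← Finset.sum_coe_sort s, ← Equiv.sum_comp e]
    refine Finset.sum_congr rfl fun i _ => ?_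
    rw [Int.cast_one, one_mul]
    exact (htr (e i) k).symm

/-- Uniqueness of the continuation near `0`. -/
theorem trail_unique {f g : ℂ → ℂ} (hf : ∀ z, MeromorphicAt f z) (hg : ∀ z, MeromorphicAt g z)
    (h : ∀ s : ℂ, 1 < s.re → f s = g s) :
    meromorphicTrailingCoeffAt f 0 = meromorphicTrailingCoeffAt g 0 := by
  have hm : MeromorphicOn (f - g) Set.univ := fun z _ => (hf z).sub (hg z)
  have h2 : meromorphicOrderAt (f - g) 2 = ⊤ := by
    rw [meromorphicOrderAt_eq_top_iff]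
    have h3 : {s : ℂ | 1 < s.re} ∈ 𝓝 (2 : ℂ) :=
      (isOpen_lt continuous_const Complex.continuous_re).mem_nhds (by norm_num)
    have h4 : ∀ᶠ s in 𝓝 (2 : ℂ), (f - g) s = 0 := by
      filter_upwards [h3] with s hs
      show f s - g s = 0
      rw [h s hs, sub_self]
    exact h4.filter_mono nhdsWithin_le_nhds
  have h0 : meromorphicOrderAt (f - g) 0 = ⊤ := by
    by_contra hne
    exact hm.meromorphicOrderAt_ne_top_of_isPreconnected (x := 0) isPreconnected_univ
      (Set.mem_univ _) (Set.mem_univ 2) hne h2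
  rw [meromorphicOrderAt_eq_top_iff] at h0
  refine meromorphicTrailingCoeffAt_congr_nhdsNE ?_
  filter_upwards [h0] with s hs
  exact sub_eq_zero.1 hs

/-! ### Complex conjugation -/

/-- `z ↦ conj (f (conj z))` -/
noncomputable def cf (f : ℂ → ℂ) : ℂ → ℂ := conj ∘ f ∘ conj

theorem cf_apply (f : ℂ → ℂ) (z : ℂ) : cf f z = conj (f (conj z)) := rfl

theorem tendsto_conj (z : ℂ) : Tendsto (conj : ℂ → ℂ) (𝓝 z) (𝓝 (conj z)) :=
  Complex.continuous_conj.continuousAt

theorem cf_analytic {f : ℂ → ℂ} {z : ℂ} (h : AnalyticAt ℂ f (conj z)) :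
    AnalyticAt ℂ (cf f) z := by
  rw [Complex.analyticAt_iff_eventually_differentiableAt] at h ⊢
  filter_upwards [(tendsto_conj z).eventually h] with w hw
  exact differentiableAt_conj_conj_iff.2 hw

theorem cf_mero {f : ℂ → ℂ} {z : ℂ} (h : MeromorphicAt f (conj z)) :
    MeromorphicAt (cf f) z := by
  obtain ⟨n, hn⟩ := h
  refine ⟨n, ?_⟩
  have h1 := cf_analytic (z := z) hn
  have h2 : cf (fun w => (w - conj z) ^ n • f w) = fun w => (w - z) ^ n • cf f w := by
    funext w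
    rw [cf_apply, cf_apply, smul_eq_mul, smul_eq_mul, map_mul, map_pow, map_sub,
      Complex.conj_conj, Complex.conj_conj]
  rwa [h2] at h1

theorem cf_trail {f : ℂ → ℂ} (hf : MeromorphicAt f 0) :
    meromorphicTrailingCoeffAt (cf f) 0 = conj (meromorphicTrailingCoeffAt f 0) := by
  have hc0 : Tendsto (conj : ℂ → ℂ) (𝓝[≠] 0) (𝓝[≠] 0) := by
    refine tendsto_nhdsWithin_iff.2 ⟨?_, ?_⟩
    · have := tendsto_conj 0
      rw [map_zero] at this
      exact this.mono_left nhdsWithin_le_nhds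
    · filter_upwards [self_mem_nhdsWithin] with w hw
      intro h
      exact hw ((map_eq_zero (starRingEnd ℂ)).1 h)
  by_cases ho : meromorphicOrderAt f 0 = ⊤
  · have h1 : meromorphicOrderAt (cf f) 0 = ⊤ := by
      rw [meromorphicOrderAt_eq_top_iff] at ho ⊢
      filter_upwards [hc0.eventually ho] with w hw
      rw [cf_apply, hw, map_zero]
    rw [MeromorphicAt.meromorphicTrailingCoeffAt_of_order_eq_top ho,
      MeromorphicAt.meromorphicTrailingCoeffAt_of_order_eq_top h1, map_zero]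
  · obtain ⟨g, hg1, hg2, hg3⟩ := (meromorphicOrderAt_ne_top_iff hf).1 ho
    have hg1' : AnalyticAt ℂ (cf g) 0 := cf_analytic (by rwa [map_zero])
    have hg2' : cf g 0 ≠ 0 := by
      rw [cf_apply, map_zero]
      exact fun h => hg2 ((map_eq_zero (starRingEnd ℂ)).1 h)
    have h2 : cf f =ᶠ[𝓝[≠] 0]
        fun z => (z - 0) ^ ((meromorphicOrderAt f 0).untop₀) • cf g z := by
      filter_upwards [hc0.eventually hg3] with w hw
      rw [cf_apply, hw, cf_apply, smul_eq_mul, smul_eq_mul, map_mul, map_zpow₀, map_sub,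
        Complex.conj_conj, map_zero]
    rw [hg1'.meromorphicTrailingCoeffAt_of_ne_zero_of_eq_nhdsNE hg2' h2,
      hg1.meromorphicTrailingCoeffAt_of_ne_zero_of_eq_nhdsNE hg2 hg3, cf_apply, map_zero]

omit [IsGalois K L] in
theorem artinCoef_conj (χ : (L ≃ₐ[K] L) → ℂ) (v : HeightOneSpectrum (𝓞 K)) (m : ℕ) :
    artinCoef (fun g => conj (χ g)) v m = conj (artinCoef χ v m) := by
  have h1 : ∀ w q, localTrace (fun g => conj (χ g)) w q = conj (localTrace χ w q) := by
    intro w q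
    unfold localTrace
    rw [map_div₀, map_sum, map_natCast]
  unfold artinCoef
  rw [map_div₀, map_natCast]
  congr 1
  simp only [h1]
  have e1 : ∀ f : HeightOneSpectrum (𝓞 L) → ℂ, conj (∑ᶠ w ∈ above K L v, f w) =
      ∑ᶠ w ∈ above K L v, conj (f w) := by
    intro f
    have h2 := AddEquiv.map_finsum (starRingAut : ℂ ≃+* ℂ).toAddEquiv
      (fun w => ∑ᶠ (_ : w ∈ above K L v), f w)
    have h3 : conj (∑ᶠ w ∈ above K L v, f w) =
        ∑ᶠ w, conj (∑ᶠ (_ : w ∈ above K L v), f w) := h2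
    rw [h3]
    refine finsum_congr fun w => ?_
    exact AddEquiv.map_finsum (starRingAut : ℂ ≃+* ℂ).toAddEquiv
      (fun _ : w ∈ above K L v => f w)
  exact (e1 _).symm

omit [IsGalois K L] in
theorem logL_conj (χ : (L ≃ₐ[K] L) → ℂ) (S : Set (HeightOneSpectrum (𝓞 K))) (s : ℂ) :
    logL (fun g => conj (χ g)) S s = conj (logL χ S (conj s)) := by
  unfold logL
  rw [Complex.conj_tsum]
  refine tsum_congr fun p => ?_
  split_ifs with h
  · simp
  · rw [map_div₀, map_mul, map_natCast, artinCoef_conj]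
    congr 2
    have h1 : ((Ideal.absNorm p.1.asIdeal : ℕ) : ℂ) ≠ 0 := by
      have := NumberField.HeightOneSpectrum.one_lt_absNorm p.1
      exact_mod_cast (by omega : Ideal.absNorm p.1.asIdeal ≠ 0)
    have h2 : ∀ z : ℂ, ((Ideal.absNorm p.1.asIdeal : ℕ) : ℂ) ^ z =
        Complex.exp (((Real.log (Ideal.absNorm p.1.asIdeal : ℕ) : ℝ) : ℂ) * z) := by
      intro z
      rw [Complex.cpow_def_of_ne_zero h1, ← Complex.natCast_log]
    rw [h2, h2, ← Complex.exp_conj, map_mul, map_mul, Complex.conj_ofReal, map_natCast,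
      Complex.conj_conj]

/-! ### Two conjugates -/

theorem pow_conj {n : ℕ} (hn : 3 ≤ n) {z : ℂ} (hz : z ^ n = 1) : z ^ (n - 1) = conj z := by
  have h0 : z ≠ 0 := by
    rintro rfl
    rw [zero_pow (by omega)] at hz
    exact zero_ne_one hz
  have h1 : ‖z‖ = 1 := Complex.norm_eq_one_of_pow_eq_one hz (by omega)
  have h2 : z * conj z = 1 := by
    rw [Complex.mul_conj', h1]
    simp
  have h3 : z * z ^ (n - 1) = 1 := by
    rw [← pow_succ', Nat.sub_add_cancel (by omega), hz]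
  exact mul_left_cancel₀ h0 (h3.trans h2.symm)

theorem Ex_eq {n : ℕ} (hn : n = 3 ∨ n = 4 ∨ n = 6) : Ex n = {1, n - 1} := by
  rcases hn with rfl | rfl | rfl <;> decide

end LASTx

open LASTx in
/-- The absolute value of the Stark number for orders `3`, `4`, `6`. -/
theorem last_abs (hN : Stmt_NORMT) (hR : Stmt_REGC) {K L : Type} [Field K]
    [NumberField K] [Field L] [NumberField L] [Algebra K L] [IsGalois K L]
    (n : ℕ) (hn : n = 3 ∨ n = 4 ∨ n = 6) (ψ : (L ≃ₐ[K] L) →* ℂˣ) (hψ : ψ ^ n = 1)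
    (S : Finset (HeightOneSpectrum (𝓞 K)))
    (φ : XQ L (aboveSet K L S) ≃ₗ[ℚ] QU L (aboveSet K L S))
    (Θ : XC L (aboveSet K L S) →ₗ[ℂ] XC L (aboveSet K L S))
    (hφ : IsPhiTheta K (aboveSet K L S) φ Θ) (hP : PP n ψ S Θ) (f : ℂ → ℂ)
    (hf : IsArtinL (fun g => ((ψ g : ℂˣ) : ℂ)) (S : Set (HeightOneSpectrum (𝓞 K))) f) :
    ∃ α : Cyc n, α ≠ 0 ∧
      ‖Reg (aboveSet K L S) (linRep ψ) Θ / meromorphicTrailingCoeffAt f 0‖ = ‖(α : ℂ)‖ := by
  have hn3 : 3 ≤ n := by rcases hn with rfl | rfl | rfl <;> norm_num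
  obtain ⟨F, α, hF, hα, hE⟩ := hP
  have hEx := Ex_eq hn
  have hne : (1 : ℕ) ≠ n - 1 := by omega
  have hval : ∀ g, ((ψ g : ℂˣ) : ℂ) ^ n = 1 := by
    intro g
    have := DFunLike.congr_fun hψ g
    rw [MonoidHom.pow_apply] at this
    rw [← Units.val_pow_eq_pow_val, this]
    rfl
  have hcs : cSum n ψ = fun g => ((ψ g : ℂˣ) : ℂ) + conj ((ψ g : ℂˣ) : ℂ) := by
    funext g
    unfold cSum
    rw [hEx, Finset.sum_pair hne, pow_one, pow_conj hn3 (hval g)]
  -- the two continuations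
  have ht : meromorphicTrailingCoeffAt F 0 =
      meromorphicTrailingCoeffAt f 0 * conj (meromorphicTrailingCoeffAt f 0) := by
    rw [← cf_trail (hf.1 0)]
    have h1 := MeromorphicAt.meromorphicTrailingCoeffAt_mul (hf.1 0)
      (cf_mero (f := f) (z := 0) (by simpa using hf.1 0))
    rw [← h1]
    refine trail_unique hF.1 (fun z => (hf.1 z).mul (cf_mero (hf.1 (conj z)))) fun s hs => ?_
    rw [hF.2 s hs, hcs]
    show _ = f s * cf f s
    have h2 := IND.logL_sum (K := K) (N := L) LA_thm ALLT.lb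
      (S : Set (HeightOneSpectrum (𝓞 K))) s hs 2 ![1, 1]
      ![fun g => ((ψ g : ℂˣ) : ℂ), fun g => conj ((ψ g : ℂˣ) : ℂ)]
    simp only [Fin.sum_univ_two, Matrix.cons_val_zero, Matrix.cons_val_one, one_mul] at h2
    rw [h2, Complex.exp_add, ← hf.2 s hs, logL_conj, cf_apply, hf.2 (conj s) (by simpa using hs),
      Complex.exp_conj]
  -- the regulators
  have hreg : cReg n (aboveSet K L S) ψ Θ = Reg (aboveSet K L S) (linRep ψ) Θ *
      conj (Reg (aboveSet K L S) (linRep ψ) Θ) := by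
    unfold cReg
    have h3 : ψ ^ (n - 1) = ψ⁻¹ := by
      refine MonoidHom.ext fun g => ?_
      rw [MonoidHom.inv_apply, MonoidHom.pow_apply, eq_inv_iff_mul_eq_one, ← pow_succ,
        Nat.sub_add_cancel (by omega)]
      exact Units.ext (by rw [Units.val_pow_eq_pow_val]; exact hval g)
    have h1 : ψ ^ 1 = ψ := MonoidHom.ext fun g => by rw [MonoidHom.pow_apply, pow_one]
    have h4 := hR K L ψ S φ Θ hφ
    rw [hEx, Finset.prod_pair hne, h1, h3, h4]
  -- the norm
  have hnm : nm n α = (α : ℂ) * conj (α : ℂ) := by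
    have hσ : ∀ t ∈ Ex n, ∀ z : ℂ, z ^ n = 1 →
        (fun t : ℕ => if t = 1 then RingEquiv.refl ℂ else (starRingAut : ℂ ≃+* ℂ)) t z =
          z ^ t := by
      intro t ht z hz
      rw [hEx, Finset.mem_insert, Finset.mem_singleton] at ht
      rcases ht with rfl | rfl
      · simp
      · beta_reduce
        rw [if_neg hne.symm]
        exact (pow_conj hn3 hz).symm
    rw [hN n _ (by omega) hσ α, hEx, Finset.prod_pair hne, if_pos rfl, if_neg hne.symm]
    rfl
  refine ⟨α, hα, ?_⟩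
  rw [hreg, hnm, ht, Complex.mul_conj', Complex.mul_conj', Complex.mul_conj'] at hE
  have hE' : ‖Reg (aboveSet K L S) (linRep ψ) Θ‖ ^ 2 =
      ‖(α : ℂ)‖ ^ 2 * ‖meromorphicTrailingCoeffAt f 0‖ ^ 2 := by exact_mod_cast hE
  have hα' : (α : ℂ) ≠ 0 := fun h => hα (Subtype.ext h)
  have hR0 := StarkG.reg_ne_zero S φ Θ hφ ℂ (linRep ψ)
  have hf0 : meromorphicTrailingCoeffAt f 0 ≠ 0 := by
    intro h
    rw [h, norm_zero, zero_pow two_ne_zero, mul_zero] at hE'
    exact hR0 (norm_eq_zero.1 (pow_eq_zero_iff two_ne_zero |>.1 hE'))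
  rw [norm_div, div_eq_iff (norm_ne_zero_iff.2 hf0)]
  rw [← mul_pow] at hE'
  exact (pow_left_inj₀ (norm_nonneg _) (by positivity) two_ne_zero).1 hE'

end StarkC.ABS
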