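import Pool.Agent.ABS.StB

/-!
# ABS, module LFB: the L-series of the sum of the conjugates
-/

open NumberField IsDedekindDomain
open scoped TensorProduct Classical

namespace StarkC.ABS

namespace LFBx

theorem indFun_congr {G : Type} [Group G] [Fintype G] (H : Subgroup G) (f f' : G → ℂ)
    (h : ∀ g ∈ H, f g = f' g) : indFun H f = indFun H f' := by
  funext g
  unfold indFun
  congr 1
  refine Finset.sum_congr rfl fun x _ => ?_
  split_ifs with h1
  · exact h _ h1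
  · rfl

theorem fix_top (K L : Type) [Field K] [Field L] [Algebra K L] : fixK K L L = ⊥ := by
  rw [eq_bot_iff]
  intro g hg
  rw [Subgroup.mem_bot]
  ext x
  exact hg x

section

variable {K L : Type} [Field K] [NumberField K] [Field L] [NumberField L] [Algebra K L]
  [IsGalois K L]

theorem bot_eq (s : ℂ) (hs : 1 < s.re) :
    logL (indFun (⊥ : Subgroup (L ≃ₐ[K] L)) (fun _ => 1)) (∅ : Set (HeightOneSpectrum (𝓞 K))) s =
      logL (K := L) (L := L) (fun _ => 1) ∅ s := by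
  have h := DOWNL.logL_eq (E := K) (K := L) (N := L) ALLT.lb ALLT.lc 1
    (∅ : Set (HeightOneSpectrum (𝓞 K))) (∅ : Set (HeightOneSpectrum (𝓞 L))) rfl s hs
  have e1 : (fun g : L ≃ₐ[L] L => (((1 : (L ≃ₐ[L] L) →* ℂˣ) g : ℂˣ) : ℂ)) = fun _ => 1 := by
    funext g
    rfl
  have e2 : indFun (fixK K L L) (extK K (1 : (L ≃ₐ[L] L) →* ℂˣ)) =
      indFun (⊥ : Subgroup (L ≃ₐ[K] L)) (fun _ => 1) := by
    rw [indFun_congr (fixK K L L) (extK K (1 : (L ≃ₐ[L] L) →* ℂˣ)) (fun _ => 1), fix_top]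
    intro g hg
    unfold extK
    rw [dif_pos hg]
    rfl
  rw [e1, e2] at h
  exact h.symm

theorem sub_eq (B : Subgroup (L ≃ₐ[K] L)) (s : ℂ) (hs : 1 < s.re) :
    logL (indFun B (fun _ => 1)) (∅ : Set (HeightOneSpectrum (𝓞 K))) s =
      logL (K := IntermediateField.fixedField B) (L := L) (fun _ => 1) ∅ s := by
  have h := ALLT.lind K L B 1 (∅ : Set (HeightOneSpectrum (𝓞 K)))
    (∅ : Set (HeightOneSpectrum (𝓞 (IntermediateField.fixedField B)))) s rfl hs
  have e1 : indFun B (extZ (1 : B →* ℂˣ)) = indFun B (fun _ => 1) := by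
    apply indFun_congr
    intro g hg
    unfold extZ
    rw [dif_pos hg]
    rfl
  have e2 : (fun g : L ≃ₐ[IntermediateField.fixedField B] L =>
      ((liftChar B (1 : B →* ℂˣ) g : ℂˣ) : ℂ)) = fun _ => 1 := by
    funext g
    rfl
  rw [e1, e2] at h
  exact h

theorem inf_eq (F : IntermediateField K L) (s : ℂ) :
    logL (K := F) (L := L) (fun _ => 1) ∅ s = logL (K := F) (L := F) (fun _ => 1) ∅ s := by
  unfold logL
  refine tsum_congr fun p => ?_
  have h := LINF_thm F F L (fun _ => 1) (fun _ _ => rfl) p.1 (p.2 + 1)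
  rw [h]

end

end LFBx

open LFBx in
theorem LFB_thm : Stmt_LFB := by
  intro hCHI K L _ _ _ _ _ _ ℓ k ψ B s hℓ hk hcard hψ hB hs
  have h1 := hCHI (L ≃ₐ[K] L) ℓ k ψ B hℓ hk hcard hψ hB
  have h2 : cSum (ℓ ^ k) ψ = fun g => ∑ i : Fin 2, (![(1 : ℂ), -1] : Fin 2 → ℂ) i *
      (![indFun (⊥ : Subgroup (L ≃ₐ[K] L)) (fun _ => 1), indFun B (fun _ => 1)] :
        Fin 2 → (L ≃ₐ[K] L) → ℂ) i g := by
    funext g
    rw [h1 g, Fin.sum_univ_two]
    simp
    ring
  rw [h2, IND.logL_sum LA_thm ALLT.lb _ s hs, Fin.sum_univ_two]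
  simp only [Matrix.cons_val_zero, Matrix.cons_val_one]
  rw [bot_eq s hs, sub_eq B s hs, inf_eq]
  ring

end StarkC.ABS
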