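import Pool.Agent.ABS.StD3
import Pool.Agent.ABS.LAST
import Pool.Agent.ABS.LFB

/-!
# Project ABS, part D: dihedral and semidihedral groups, the base case (module DBS)
-/

set_option autoImplicit false

open NumberField IsDedekindDomain
open scoped TensorProduct Classical

namespace StarkC.ABS

namespace DBSx

/-- the leading coefficient of the zeta function at `0`, up to the sign -/
noncomputable def rho (F : Type) [Field F] [NumberField F] : ℝ :=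
  (classNumber F : ℝ) * Units.regulator F / (Units.torsionOrder F : ℝ)

theorem rho_pos (F : Type) [Field F] [NumberField F] : 0 < rho F := by
  unfold rho
  have h1 : (0 : ℝ) < classNumber F := Nat.cast_pos.2 (classNumber_pos F)
  have h2 : (0 : ℝ) < Units.torsionOrder F := Nat.cast_pos.2 (Units.torsionOrder_pos F)
  have h3 := Units.regulator_pos F
  positivity

theorem rho_coe (F : Type) [Field F] [NumberField F] :
    -((classNumber F : ℂ) * ((Units.regulator F : ℝ) : ℂ) / (Units.torsionOrder F : ℂ)) =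
      -((rho F : ℝ) : ℂ) := by
  unfold rho
  push_cast
  rfl

section

variable {K L : Type} [Field K] [NumberField K] [Field L] [NumberField L] [Algebra K L]
  [IsGalois K L]

/-- relations with any finite index type -/
theorem rel (hDRC : Stmt_DRC) (S : Finset (HeightOneSpectrum (𝓞 K)))
    (φ : XQ L (aboveSet K L S) ≃ₗ[ℚ] QU L (aboveSet K L S))
    (Θ : XC L (aboveSet K L S) →ₗ[ℂ] XC L (aboveSet K L S))
    {ι : Type} [Fintype ι] (P : ι → Σ H : Subgroup (L ≃ₐ[K] L), (H →* ℂˣ)) (c : ι → ℤ)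
    (hΘ : IsPhiTheta K (aboveSet K L S) φ Θ)
    (h : ∀ g, ∑ i, (c i : ℂ) * indFun (P i).1 (extZ (P i).2) g = 0) :
    ∏ i, Reg (aboveSet K L S) (linRep (liftChar (P i).1 (P i).2)) Θ ^ c i = 1 := by
  let e : Fin (Fintype.card ι) ≃ ι := (Fintype.equivFin ι).symm
  have h1 := hDRC K L S φ Θ (Fintype.card ι) (fun j => (P (e j)).1) (fun j => (P (e j)).2)
    (fun j => c (e j)) hΘ (fun g => by
      rw [← h g]
      exact Equiv.sum_comp e (fun i => (c i : ℂ) * indFun (P i).1 (extZ (P i).2) g))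
  rw [← h1]
  exact (Equiv.prod_comp e (fun i =>
    Reg (aboveSet K L S) (linRep (liftChar (P i).1 (P i).2)) Θ ^ c i)).symm

theorem ext_one (H : Subgroup (L ≃ₐ[K] L)) :
    indFun H (extZ (1 : H →* ℂˣ)) = indFun H (fun _ => 1) := by
  apply LFBx.indFun_congr
  intro g hg
  unfold extZ
  rw [dif_pos hg]
  rfl

/-- a relation with two trivial characters -/
theorem rel2 (hDRC : Stmt_DRC) (S : Finset (HeightOneSpectrum (𝓞 K)))
    (φ : XQ L (aboveSet K L S) ≃ₗ[ℚ] QU L (aboveSet K L S))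
    (Θ : XC L (aboveSet K L S) →ₗ[ℂ] XC L (aboveSet K L S))
    (hΘ : IsPhiTheta K (aboveSet K L S) φ Θ) (A : Subgroup (L ≃ₐ[K] L)) (χ : ℕ → A →* ℂˣ)
    (s : Finset ℕ) (H₁ H₂ : Subgroup (L ≃ₐ[K] L)) (c₁ c₂ : ℤ)
    (h : ∀ g, ∑ j ∈ s, indFun A (extZ (χ j)) g + (c₁ * indFun H₁ (fun _ => 1) g +
      c₂ * indFun H₂ (fun _ => 1) g) = 0) :
    (∏ j ∈ s, Reg (aboveSet K L S) (linRep (liftChar A (χ j))) Θ) *
      (Reg (aboveSet K L S) (linRep (liftChar H₁ 1)) Θ ^ c₁ *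
        Reg (aboveSet K L S) (linRep (liftChar H₂ 1)) Θ ^ c₂) = 1 := by
  have h1 := rel hDRC S φ Θ (ι := Option (Option s))
    (fun i => Option.elim i ⟨H₁, 1⟩ (fun i' => Option.elim i' ⟨H₂, 1⟩ (fun j => ⟨A, χ j⟩)))
    (fun i => Option.elim i c₁ (fun i' => Option.elim i' c₂ (fun _ => 1))) hΘ (fun g => by
      rw [Fintype.sum_option, Fintype.sum_option]
      simp only [Option.elim_none, Option.elim_some]
      rw [ext_one, ext_one, ← h g]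
      have h2 : ∑ i : s, ((1 : ℤ) : ℂ) * indFun A (extZ (χ i)) g =
          ∑ j ∈ s, indFun A (extZ (χ j)) g := by
        rw [← Finset.sum_coe_sort s]
        refine Finset.sum_congr rfl fun j _ => ?_
        rw [Int.cast_one, one_mul]
      rw [h2]
      ring)
  rw [Fintype.prod_option, Fintype.prod_option] at h1
  have h1' : Reg (aboveSet K L S) (linRep (liftChar H₁ 1)) Θ ^ c₁ *
      (Reg (aboveSet K L S) (linRep (liftChar H₂ 1)) Θ ^ c₂ *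
        ∏ i : s, Reg (aboveSet K L S) (linRep (liftChar A (χ i))) Θ ^ (1 : ℤ)) = 1 := h1
  have h2 : ∏ i : s, Reg (aboveSet K L S) (linRep (liftChar A (χ i))) Θ ^ (1 : ℤ) =
      ∏ j ∈ s, Reg (aboveSet K L S) (linRep (liftChar A (χ j))) Θ := by
    rw [← Finset.prod_coe_sort s]
    refine Finset.prod_congr rfl fun j _ => ?_
    rw [zpow_one]
  rw [h2] at h1'
  linear_combination h1'

/-- the quotient of two `L`-functions -/
theorem artin_sub {a b c : (L ≃ₐ[K] L) → ℂ} {f g : ℂ → ℂ}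
    (hf : IsArtinL a (∅ : Set (HeightOneSpectrum (𝓞 K))) f)
    (hg : IsArtinL b (∅ : Set (HeightOneSpectrum (𝓞 K))) g) (hc : ∀ x, c x = a x - b x) :
    IsArtinL c (∅ : Set (HeightOneSpectrum (𝓞 K))) (fun z => f z * (g z)⁻¹) := by
  refine ⟨fun z => (hf.1 z).mul (hg.1 z).inv, fun s hs => ?_⟩
  have h2 : c = fun x => ∑ i : Fin 2, (![(1 : ℂ), -1] : Fin 2 → ℂ) i *
      (![a, b] : Fin 2 → (L ≃ₐ[K] L) → ℂ) i x := by
    funext x
    rw [hc x, Fin.sum_univ_two]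
    simp
    ring
  rw [h2, IND.logL_sum LA_thm ALLT.lb _ s hs, Fin.sum_univ_two]
  simp only [Matrix.cons_val_zero, Matrix.cons_val_one]
  rw [hf.2 s hs, hg.2 s hs, ← Complex.exp_neg, ← Complex.exp_add]
  congr 1
  ring

/-- the product of two `L`-functions -/
theorem artin_add {a b c : (L ≃ₐ[K] L) → ℂ} {f g : ℂ → ℂ}
    (hf : IsArtinL a (∅ : Set (HeightOneSpectrum (𝓞 K))) f)
    (hg : IsArtinL b (∅ : Set (HeightOneSpectrum (𝓞 K))) g) (hc : ∀ x, c x = a x + b x) :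
    IsArtinL c (∅ : Set (HeightOneSpectrum (𝓞 K))) (fun z => f z * g z) := by
  refine ⟨fun z => (hf.1 z).mul (hg.1 z), fun s hs => ?_⟩
  have h2 : c = fun x => ∑ i : Fin 2, (![(1 : ℂ), 1] : Fin 2 → ℂ) i *
      (![a, b] : Fin 2 → (L ≃ₐ[K] L) → ℂ) i x := by
    funext x
    rw [hc x, Fin.sum_univ_two]
    simp
  rw [h2, IND.logL_sum LA_thm ALLT.lb _ s hs, Fin.sum_univ_two]
  simp only [Matrix.cons_val_zero, Matrix.cons_val_one]
  rw [hf.2 s hs, hg.2 s hs, ← Complex.exp_add]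
  congr 1
  ring

theorem trail_quot {f g : ℂ → ℂ} (hf : ∀ z, MeromorphicAt f z) (hg : ∀ z, MeromorphicAt g z) :
    meromorphicTrailingCoeffAt (fun z => f z * (g z)⁻¹) 0 =
      meromorphicTrailingCoeffAt f 0 * (meromorphicTrailingCoeffAt g 0)⁻¹ := by
  have h1 := MeromorphicAt.meromorphicTrailingCoeffAt_mul (hf 0) (hg 0).inv
  rw [meromorphicTrailingCoeffAt_inv] at h1
  exact h1

end

/-- the final calculation -/
theorem calc_fin (c d rB : ℂ) (x1 x2 q : ℚ) (ρ1 ρ2 ρB ρL hB gB wB hL gL wL : ℝ)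
    (hx1 : x1 ≠ 0) (hx2 : x2 ≠ 0) (p1 : 0 < ρ1) (p2 : 0 < ρ2) (pB : 0 < ρB)
    (wB0 : 0 < wB) (wL0 : 0 < wL)
    (rel1 : c * (((x1 : ℂ) * -(ρ1 : ℂ)) ^ (-2 : ℤ) * ((x2 : ℂ) * -(ρ2 : ℂ)) ^ (2 : ℤ)) = 1)
    (rel2 : c * (d ^ (-1 : ℤ) * rB ^ (1 : ℤ)) = 1)
    (hu : (-(ρ1 : ℂ) * (-(ρ2 : ℂ))⁻¹) * (-(ρ1 : ℂ) * (-(ρ2 : ℂ))⁻¹) =
      -(ρL : ℂ) * (-(ρB : ℂ))⁻¹)
    (hcore : ‖d‖ * (hB * gB * wL) = (q : ℝ) * ‖rB‖ * (hL * gL * wB))
    (hrB : ρB = hB * gB / wB) (hrL : ρL = hL * gL / wL) :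
    c = (((|x1 / x2| : ℚ) : ℂ) * ((ρ1 / ρ2 : ℝ) : ℂ)) ^ 2 ∧ |x1 / x2| ^ 2 = q := by
  have e1 : -(ρ1 : ℂ) * (-(ρ2 : ℂ))⁻¹ = ((ρ1 / ρ2 : ℝ) : ℂ) := by
    push_cast
    rw [inv_neg, neg_mul_neg, div_eq_mul_inv]
  have e2 : -(ρL : ℂ) * (-(ρB : ℂ))⁻¹ = ((ρL / ρB : ℝ) : ℂ) := by
    push_cast
    rw [inv_neg, neg_mul_neg, div_eq_mul_inv]
  rw [e1, e2] at hu
  have hr : (ρ1 / ρ2) * (ρ1 / ρ2) = ρL / ρB := by exact_mod_cast hu
  have n1 : (x1 : ℂ) * -(ρ1 : ℂ) ≠ 0 :=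
    mul_ne_zero (by exact_mod_cast hx1) (neg_ne_zero.2 (by exact_mod_cast p1.ne'))
  have n2 : (x2 : ℂ) * -(ρ2 : ℂ) ≠ 0 :=
    mul_ne_zero (by exact_mod_cast hx2) (neg_ne_zero.2 (by exact_mod_cast p2.ne'))
  have hc1 : c = ((x1 : ℂ) * -(ρ1 : ℂ)) ^ 2 / ((x2 : ℂ) * -(ρ2 : ℂ)) ^ 2 := by
    have h1 : ((x1 : ℂ) * -(ρ1 : ℂ)) ^ (-2 : ℤ) = (((x1 : ℂ) * -(ρ1 : ℂ)) ^ 2)⁻¹ := by
      rw [zpow_neg]
      rfl
    have h2 : ((x2 : ℂ) * -(ρ2 : ℂ)) ^ (2 : ℤ) = ((x2 : ℂ) * -(ρ2 : ℂ)) ^ 2 := rfl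
    rw [h1, h2] at rel1
    rw [eq_div_iff (pow_ne_zero 2 n2)]
    have key : ∀ u v : ℂ, u ≠ 0 → c * ((u ^ 2)⁻¹ * v ^ 2) = 1 → c * v ^ 2 = u ^ 2 := by
      intro u v hu0 h
      calc c * v ^ 2 = (c * ((u ^ 2)⁻¹ * v ^ 2)) * u ^ 2 := by field_simp
        _ = u ^ 2 := by rw [h, one_mul]
    exact key _ _ n1 rel1
  have ha : (((|x1 / x2| : ℚ) : ℂ)) ^ 2 = ((x1 : ℂ) / (x2 : ℂ)) ^ 2 := by
    have h1 : |x1 / x2| ^ 2 = (x1 / x2) ^ 2 := sq_abs _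
    have h2 := congrArg (fun y : ℚ => (y : ℂ)) h1
    push_cast at h2
    push_cast
    exact h2
  have hx2' : (x2 : ℂ) ≠ 0 := by exact_mod_cast hx2
  have hρ2' : (ρ2 : ℂ) ≠ 0 := by exact_mod_cast p2.ne'
  have hc2 : c = (((|x1 / x2| : ℚ) : ℂ) * ((ρ1 / ρ2 : ℝ) : ℂ)) ^ 2 := by
    rw [mul_pow, ha, hc1]
    push_cast
    field_simp
  refine ⟨hc2, ?_⟩
  have hnorm : ‖c‖ = ((|x1 / x2| : ℚ) : ℝ) ^ 2 * ((ρ1 / ρ2) * (ρ1 / ρ2)) := by
    have h1 : c = (((((|x1 / x2| : ℚ) : ℝ) * (ρ1 / ρ2) : ℝ)) : ℂ) ^ 2 := by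
      rw [hc2, Complex.ofReal_mul, Complex.ofReal_ratCast]
    rw [h1, norm_pow, Complex.norm_real, Real.norm_eq_abs, sq_abs]
    ring
  have hd0 : d ≠ 0 := by
    rintro rfl
    rw [zpow_neg, zpow_one, inv_zero, zero_mul, mul_zero] at rel2
    exact zero_ne_one rel2
  have hrB0 : rB ≠ 0 := by
    rintro rfl
    rw [zpow_one, mul_zero, mul_zero] at rel2
    exact zero_ne_one rel2
  have hcd : c * rB = d := by
    rw [zpow_neg, zpow_one, zpow_one] at rel2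
    calc c * rB = (c * (d⁻¹ * rB)) * d := by field_simp
      _ = d := by rw [rel2, one_mul]
  have hcn : ‖c‖ * ‖rB‖ = ‖d‖ := by rw [← norm_mul, hcd]
  have hB' : hB * gB = ρB * wB := by rw [hrB]; field_simp
  have hL' : hL * gL = ρL * wL := by rw [hrL]; field_simp
  rw [← hcn, hB', hL'] at hcore
  have hrBn : 0 < ‖rB‖ := norm_pos_iff.2 hrB0
  have h3 : ‖c‖ * ρB = (q : ℝ) * ρL := by
    have h4 : (‖c‖ * ρB) * (‖rB‖ * wB * wL) = ((q : ℝ) * ρL) * (‖rB‖ * wB * wL) := by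
      linear_combination hcore
    exact mul_right_cancel₀ (by positivity) h4
  have h5 : ρL = ρB * ((ρ1 / ρ2) * (ρ1 / ρ2)) := by rw [hr]; field_simp
  rw [hnorm, h5] at h3
  have h6 : ((|x1 / x2| : ℚ) : ℝ) ^ 2 = (q : ℝ) := by
    have h7 : ((|x1 / x2| : ℚ) : ℝ) ^ 2 * (((ρ1 / ρ2) * (ρ1 / ρ2)) * ρB) =
        (q : ℝ) * (((ρ1 / ρ2) * (ρ1 / ρ2)) * ρB) := by
      linear_combination h3
    exact mul_right_cancel₀ (by positivity) h7
  exact_mod_cast h6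

end DBSx

open DBSx in
theorem DBS_thm : Stmt_DBS := by
  intro hE hSIGT hDEM hDCORE hCHI hREGI hZETA hOne hDI1 hDI2 hDRC hDRB hDZH K L _ _ _ _ _ _
    k t σ γ ψ hD hψ φ Θ hΘ
  obtain ⟨E, iF, iN, iA, τ, hFD, hnorm⟩ := hDEM hSIGT k t hD.k3 hD.tt
  obtain ⟨Z1, x1, hx1, hZ1, tZ1, R1⟩ := hDZH hZETA hOne K L φ Θ (Subgroup.zpowers γ) hΘ
  obtain ⟨Z2, x2, hx2, hZ2, tZ2, R2⟩ := hDZH hZETA hOne K L φ Θ
    (Subgroup.zpowers γ ⊔ Subgroup.zpowers (σ ^ (2 ^ k / 2))) hΘ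
  obtain ⟨ZB, xB, hxB, hZB, tZB, RB⟩ := hDZH hZETA hOne K L φ Θ
    (Subgroup.zpowers (σ ^ (2 ^ k / 2))) hΘ
  obtain ⟨ZL, hZL, tZL⟩ := hZETA L
  rw [rho_coe] at tZ1 tZ2 tZB tZL
  have i1 := hDI1 hCHI (L ≃ₐ[K] L) k t σ γ hD ψ hψ
  have i2 := hDI2 hCHI (L ≃ₐ[K] L) k t σ γ hD ψ hψ
  obtain ⟨q, hq, hcore⟩ := hDCORE k t E τ hFD K L σ γ (Subgroup.zpowers (σ ^ (2 ^ k / 2))) φ Θ
    hD.ord hD.inv hD.conj rfl hΘ
  have hdet := hDRB hREGI K L ∅ φ Θ hΘ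
  -- the relations
  have rel1 := rel2 hDRC ∅ φ Θ hΘ (Subgroup.zpowers σ) (fun j => ψ ^ j) (Ex (2 ^ k))
    (Subgroup.zpowers γ) (Subgroup.zpowers γ ⊔ Subgroup.zpowers (σ ^ (2 ^ k / 2))) (-2) 2
    (fun g => by
      have h := i1 g
      unfold lfun at h
      push_cast
      linear_combination 2 * h)
  have rel2' := rel2 hDRC ∅ φ Θ hΘ (Subgroup.zpowers σ) (fun j => ψ ^ j) (Ex (2 ^ k))
    ⊥ (Subgroup.zpowers (σ ^ (2 ^ k / 2))) (-1) 1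
    (fun g => by
      have h := i2 g
      unfold lfun at h
      push_cast
      linear_combination h)
  -- the `L`-functions
  have hF := artin_sub hZ1 hZ2 i1
  have hFF : IsArtinL (fun x => 2 * lfun k (Subgroup.zpowers σ) ψ x)
      (∅ : Set (HeightOneSpectrum (𝓞 K)))
      (fun z => (Z1 z * (Z2 z)⁻¹) * (Z1 z * (Z2 z)⁻¹)) :=
    artin_add hF hF (fun x => by ring)
  have hZL' : IsArtinL (indFun (⊥ : Subgroup (L ≃ₐ[K] L)) (fun _ => 1))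
      (∅ : Set (HeightOneSpectrum (𝓞 K))) ZL :=
    ⟨hZL.1, fun s hs => by rw [hZL.2 s hs, LFBx.bot_eq s hs]⟩
  have hQ : IsArtinL (fun x => 2 * lfun k (Subgroup.zpowers σ) ψ x)
      (∅ : Set (HeightOneSpectrum (𝓞 K))) (fun z => ZL z * (ZB z)⁻¹) :=
    artin_sub hZL' hZB i2
  have htF : meromorphicTrailingCoeffAt (fun z => Z1 z * (Z2 z)⁻¹) 0 =
      meromorphicTrailingCoeffAt Z1 0 * (meromorphicTrailingCoeffAt Z2 0)⁻¹ :=
    trail_quot hZ1.1 hZ2.1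
  have htFF : meromorphicTrailingCoeffAt
      (fun z => (Z1 z * (Z2 z)⁻¹) * (Z1 z * (Z2 z)⁻¹)) 0 =
      meromorphicTrailingCoeffAt (fun z => Z1 z * (Z2 z)⁻¹) 0 *
        meromorphicTrailingCoeffAt (fun z => Z1 z * (Z2 z)⁻¹) 0 :=
    MeromorphicAt.meromorphicTrailingCoeffAt_mul (hF.1 0) (hF.1 0)
  have htQ : meromorphicTrailingCoeffAt (fun z => ZL z * (ZB z)⁻¹) 0 =
      meromorphicTrailingCoeffAt ZL 0 * (meromorphicTrailingCoeffAt ZB 0)⁻¹ :=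
    trail_quot hZL.1 hZB.1
  have huniq := LASTx.trail_unique hFF.1 hQ.1 (fun s hs => (hFF.2 s hs).trans (hQ.2 s hs).symm)
  rw [htFF, htQ, htF, tZ1, tZ2, tZB, tZL] at huniq
  rw [tZ1] at R1
  rw [tZ2] at R2
  rw [tZB] at RB
  -- abbreviations
  have p1 := rho_pos (IntermediateField.fixedField (Subgroup.zpowers γ))
  have p2 := rho_pos (IntermediateField.fixedField
    (Subgroup.zpowers γ ⊔ Subgroup.zpowers (σ ^ (2 ^ k / 2))))
  have pB := rho_pos (IntermediateField.fixedField (Subgroup.zpowers (σ ^ (2 ^ k / 2))))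
  have pL := rho_pos L
  have hrB : rho (IntermediateField.fixedField (Subgroup.zpowers (σ ^ (2 ^ k / 2)))) =
      (classNumber (IntermediateField.fixedField (Subgroup.zpowers (σ ^ (2 ^ k / 2)))) : ℝ) *
        Units.regulator (IntermediateField.fixedField (Subgroup.zpowers (σ ^ (2 ^ k / 2)))) /
        (Units.torsionOrder
          (IntermediateField.fixedField (Subgroup.zpowers (σ ^ (2 ^ k / 2)))) : ℝ) := rfl
  have hrL : rho L = (classNumber L : ℝ) * Units.regulator L / (Units.torsionOrder L : ℝ) := rfl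
  have wB : (0 : ℝ) < (Units.torsionOrder
      (IntermediateField.fixedField (Subgroup.zpowers (σ ^ (2 ^ k / 2)))) : ℝ) :=
    Nat.cast_pos.2 (Units.torsionOrder_pos _)
  have wL : (0 : ℝ) < (Units.torsionOrder L : ℝ) := Nat.cast_pos.2 (Units.torsionOrder_pos L)
  have hl1 : linRep (liftChar (Subgroup.zpowers (σ ^ (2 ^ k / 2))) 1) =
      linRep (1 : (L ≃ₐ[IntermediateField.fixedField
        (Subgroup.zpowers (σ ^ (2 ^ k / 2)))] L) →* ℂˣ) := rfl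
  rw [hl1] at RB rel2'
  rw [R1, R2] at rel1
  rw [hdet] at rel2'
  obtain ⟨hc, ha⟩ := calc_fin _ _ _ x1 x2 q _ _ _ _ _ _ _ _ _ _ hx1 hx2 p1 p2 pB wB wL rel1
    rel2' huniq hcore hrB hrL
  have hapos : 0 < |x1 / x2| := abs_pos.2 (div_ne_zero hx1 hx2)
  obtain ⟨α, hα, hαn⟩ := hnorm _ (hE k t E τ hFD _ q hq ha fun _ => hapos)
  refine ⟨fun z => Z1 z * (Z2 z)⁻¹, α, _, ?_, hα, div_pos p1 p2, ?_, ?_⟩
  · rw [Finset.coe_empty]
    exact hF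
  · rw [htF, tZ1, tZ2]
    push_cast
    rw [inv_neg, neg_mul_neg, div_eq_mul_inv]
  · rw [hαn]
    exact hc

end StarkC.ABS
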