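import Pool.Agent.ABS.StD3
import Pool.Agent.ABS.COREB

/-!
# Project ABS, part D: the core formula, from the printed form of the definitions
-/

open NumberField IsDedekindDomain
open scoped TensorProduct Classical

namespace StarkC.ABS

open COREBx

theorem DCB_thm : Stmt_DCB := by
  intro hP hREGI k t E _ _ _ τ hFD K L _ _ _ _ _ _ σ γ B φ Θ hσ hγ hc hB hΘ
  have hfin : (aboveSet K L ((∅ : Finset (HeightOneSpectrum (𝓞 K))) :
      Set (HeightOneSpectrum (𝓞 K)))).Finite :=
    IND.aboveSet_finite _ (Finset.finite_toSet _)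
  have hT : StableT K (aboveSet K L ((∅ : Finset (HeightOneSpectrum (𝓞 K))) :
      Set (HeightOneSpectrum (𝓞 K)))) := STB_thm K L _
  have hemp : aboveSet K L ((∅ : Finset (HeightOneSpectrum (𝓞 K))) :
      Set (HeightOneSpectrum (𝓞 K))) = StarkP.aboveSet K L ∅ := by
    rw [Finset.coe_empty]
    rfl
  have hP' := hP k t E τ hFD K L σ γ B
  rw [← hemp] at hP'
  generalize aboveSet K L ((∅ : Finset (HeightOneSpectrum (𝓞 K))) :
      Set (HeightOneSpectrum (𝓞 K))) = T at *
  obtain ⟨Θ', hΘ'⟩ := LinearMap.exists_extend (p := XCsub L T)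
    (XC.val ∘ₗ Θ : XCsub L T →ₗ[ℂ] ((L → ℝ) →₀ ℂ))
  have h1 : ∀ x : XC L T, Θ' x.val = (Θ x).val := fun x => LinearMap.congr_fun hΘ' x
  have hIs : StarkP.IsTheta K T Θ' := StarkB.isTheta_of hT hfin φ Θ hΘ Θ' h1
  obtain ⟨q, hq, hform⟩ := hP' Θ' hσ hγ hc hB hIs
  refine ⟨q, hq, ?_⟩
  -- the determinant on the whole space
  have hd1 : StarkP.detOn Θ' (StarkP.XC L T) = LinearMap.det Θ :=
    StarkB.detOn_eq (M := XC L T) Θ' (StarkP.XC L T)
      (fun x hx => by
        have h2 := h1 (⟨x, hx⟩ : XC L T)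
        have h3 : Θ' x = (Θ (⟨x, hx⟩ : XC L T)).val := h2
        rw [h3]
        exact (Θ (⟨x, hx⟩ : XC L T)).2) Θ
      (LinearEquiv.refl ℂ (XC L T) : XC L T ≃ₗ[ℂ] XCsub L T) h1
  -- the determinant on the invariants
  have hcomm : ∀ g : L ≃ₐ[K] L, Θ ∘ₗ repX K T hT g = repX K T hT g ∘ₗ Θ :=
    fun g => THC_thm XRAT_thm K L T hT φ Θ hfin hΘ g
  have hinv : ∀ x ∈ (repX (IntermediateField.fixedField B) T (stable hT B)).invariants,
      Θ x ∈ (repX (IntermediateField.fixedField B) T (stable hT B)).invariants := by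
    intro x hx
    rw [Representation.mem_invariants] at hx ⊢
    intro g
    have h2 := LinearMap.congr_fun (hcomm (g.restrictScalars K)) x
    have h3 := hx g
    rw [rep_eq hT B g] at h3 ⊢
    have h4 : Θ (repX K T hT (g.restrictScalars K) x) =
        repX K T hT (g.restrictScalars K) (Θ x) := h2
    rw [← h4, h3]
  have hR := hREGI (IntermediateField.fixedField B) L T (stable hT B) Θ hfin
    (fun g => by rw [rep_eq hT B g]; exact hcomm _) hinv
  have hd2 : StarkP.detOn Θ' (StarkP.XC L T ⊓ StarkP.ABS.fixP B) =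
      LinearMap.det (Θ.restrict hinv) :=
    StarkB.detOn_eq (M := (repX (IntermediateField.fixedField B) T (stable hT B)).invariants)
      Θ' (StarkP.XC L T ⊓ StarkP.ABS.fixP B)
      (fun x hx => by
        have h3 : Θ' x = (Θ (⟨x, hx.1⟩ : XC L T)).val := h1 (⟨x, hx.1⟩ : XC L T)
        rw [h3]
        exact ⟨(Θ (⟨x, hx.1⟩ : XC L T)).2, (mem_inv hT B _).1
          (hinv _ ((mem_inv hT B (⟨x, hx.1⟩ : XC L T)).2 hx.2))⟩)
      (Θ.restrict hinv) (eqv hT B) (fun x => h1 x.1)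
  rw [hd1, hd2, ← hR] at hform
  exact hform

end StarkC.ABS
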