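import Pool.Agent.ABS.StD1
import Pool.Agent.ABS.CLG

/-!
# Module DCG: the class groups of `F` and `L`, with the involution
-/

open NumberField NumberField.InfinitePlace
open scoped Classical nonZeroDivisors

namespace ABS

namespace DCG

section

variable {K L : Type} [Field K] [Field L] [NumberField L] [Algebra K L]

/-- The action of the automorphisms on the ideals. -/
noncomputable def act (g : L ≃ₐ[K] L) (I : Ideal (𝓞 L)) : Ideal (𝓞 L) :=
  I.map (RingOfIntegers.mapRingEquiv (g : L ≃+* L))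

omit [NumberField L] in
theorem act_mul (g h : L ≃ₐ[K] L) (I : Ideal (𝓞 L)) : act (g * h) I = act g (act h I) := by
  show Ideal.map _ _ = Ideal.map _ (Ideal.map _ _)
  have := Ideal.map_map
    ((RingOfIntegers.mapRingEquiv (h : L ≃+* L) : 𝓞 L ≃+* 𝓞 L) : 𝓞 L →+* 𝓞 L)
    ((RingOfIntegers.mapRingEquiv (g : L ≃+* L) : 𝓞 L ≃+* 𝓞 L) : 𝓞 L →+* 𝓞 L) (I := I)
  exact this.symm

omit [NumberField L] in
theorem act_one (I : Ideal (𝓞 L)) : act (1 : L ≃ₐ[K] L) I = I := by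
  have := Ideal.map_id I
  exact this

theorem act_ne (g : L ≃ₐ[K] L) (I : Ideal (𝓞 L)) (hI : I ≠ ⊥) : act g I ≠ ⊥ := by
  intro h
  apply hI
  have h2 := act_mul g⁻¹ g I
  rw [inv_mul_cancel, act_one, h] at h2
  rw [h2]
  exact Ideal.map_bot

theorem act_mem (g : L ≃ₐ[K] L) (I : (Ideal (𝓞 L))⁰) : act g I ∈ (Ideal (𝓞 L))⁰ :=
  mem_nonZeroDivisors_iff_ne_zero.2 (act_ne g I (mem_nonZeroDivisors_iff_ne_zero.1 I.2))

/-- The homomorphism of the class group induced by an automorphism. -/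
theorem exists_act (g : L ≃ₐ[K] L) :
    ∃ s : ClassGroup (𝓞 L) →* ClassGroup (𝓞 L), ∀ I : (Ideal (𝓞 L))⁰,
      s (ClassGroup.mk0 I) = ClassGroup.mk0 ⟨act g I, act_mem g I⟩ := by
  let fs : Ideal (𝓞 L) →* Ideal (𝓞 L) :=
    ⟨⟨act g, by
      show Ideal.map _ _ = _
      rw [Ideal.one_eq_top, Ideal.map_top]⟩, fun I J => Ideal.map_mul _ I J⟩
  obtain ⟨s, hs⟩ := CLG.ind fs (act_ne g)
    (fun a ha => ⟨RingOfIntegers.mapRingEquiv (g : L ≃+* L) a, by
      rw [ne_eq, map_eq_zero_iff _ (RingEquiv.injective _)]; exact ha, by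
      show Ideal.map _ _ = _
      rw [Ideal.map_span, Set.image_singleton]⟩)
  exact ⟨s, fun I => hs I ⟨act g I, act_mem g I⟩ rfl⟩

theorem iter {g : L ≃ₐ[K] L} {s : ClassGroup (𝓞 L) →* ClassGroup (𝓞 L)}
    (hs : ∀ I : (Ideal (𝓞 L))⁰,
      s (ClassGroup.mk0 I) = ClassGroup.mk0 ⟨act g I, act_mem g I⟩) (i : ℕ) :
    ∀ I : (Ideal (𝓞 L))⁰,
      s^[i] (ClassGroup.mk0 I) = ClassGroup.mk0 ⟨act (g ^ i) I, act_mem _ I⟩ := by
  induction i with
  | zero =>
    intro I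
    rw [Function.iterate_zero, id]
    congr 1
    apply Subtype.ext
    show (I : Ideal (𝓞 L)) = act (g ^ 0) I
    rw [pow_zero, act_one]
  | succ i ih =>
    intro I
    rw [Function.iterate_succ_apply', ih, hs]
    congr 1
    apply Subtype.ext
    show act g (act (g ^ i) I) = act (g ^ (i + 1)) I
    rw [pow_succ', act_mul]

end

end DCG

open DCG

theorem DCG_thm : Stmt_DCG := by
  intro hCLN k t K F L _ _ _ _ _ _ _ _ _ _ _ σ γ hT
  have hσ := hT.pow
  have hsum := hT.sum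
  have hinj : Function.Injective (algebraMap (𝓞 F) (𝓞 L)) :=
    FaithfulSMul.algebraMap_injective _ _
  -- extension of ideals
  let fj : Ideal (𝓞 F) →* Ideal (𝓞 L) :=
    ⟨⟨fun I => I.map (algebraMap (𝓞 F) (𝓞 L)), by
      rw [Ideal.one_eq_top, Ideal.map_top, Ideal.one_eq_top]⟩, fun I J => Ideal.map_mul _ I J⟩
  obtain ⟨j, hj⟩ := CLG.ind fj
    (fun I hI h => hI ((Ideal.map_eq_bot_iff_of_injective hinj).1 h))
    (fun a ha => ⟨algebraMap (𝓞 F) (𝓞 L) a, fun h => ha (hinj (by rw [h, map_zero])), by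
      show Ideal.map _ _ = _
      rw [Ideal.map_span, Set.image_singleton]⟩)
  -- norm of ideals
  let fn : Ideal (𝓞 L) →* Ideal (𝓞 F) :=
    ⟨⟨fun I => Ideal.relNorm (𝓞 F) I, map_one _⟩, fun I J => map_mul _ I J⟩
  obtain ⟨N, hN⟩ := CLG.ind fn
    (fun I hI h => hI (Ideal.relNorm_eq_bot_iff.1 h))
    (fun a ha => ⟨Algebra.intNorm (𝓞 F) (𝓞 L) a, by
      rw [ne_eq, Algebra.intNorm_eq_zero]; exact ha, Ideal.relNorm_singleton (𝓞 F) a⟩)
  -- the actions
  obtain ⟨s, hs⟩ := exists_act σ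
  obtain ⟨g, hg⟩ := exists_act γ
  have hiter := iter hs
  refine ⟨MonoidHom.toAdditive s, MonoidHom.toAdditive g, MonoidHom.toAdditive j,
    MonoidHom.toAdditive N, ?_, ?_, ?_, ?_, ?_⟩
  · intro x
    obtain ⟨I, hI⟩ := ClassGroup.mk0_surjective x.toMul
    have h := hiter (2 ^ k) I
    have h2 : s^[2 ^ k] x.toMul = x.toMul := by
      rw [← hI, h]
      congr 1
      apply Subtype.ext
      show act (σ ^ (2 ^ k)) I = I
      rw [hσ, act_one]
    exact h2
  · intro a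
    obtain ⟨I, hI⟩ := ClassGroup.mk0_surjective a.toMul
    have hI0 : (I : Ideal (𝓞 F)) ≠ ⊥ := mem_nonZeroDivisors_iff_ne_zero.1 I.2
    have hm : fj I ∈ (Ideal (𝓞 L))⁰ := mem_nonZeroDivisors_iff_ne_zero.2
      (fun h => hI0 ((Ideal.map_eq_bot_iff_of_injective hinj).1 h))
    have h1 : j (ClassGroup.mk0 I) = ClassGroup.mk0 ⟨fj I, hm⟩ := hj I ⟨fj I, hm⟩ rfl
    have h2 : N (ClassGroup.mk0 ⟨fj I, hm⟩) = ClassGroup.mk0 (I ^ 2) := by
      apply hN
      show ((I : Ideal (𝓞 F)) ^ 2) = Ideal.relNorm (𝓞 F) (Ideal.map (algebraMap (𝓞 F) (𝓞 L)) I)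
      rw [Ideal.relNorm_algebraMap]
      congr 1
      rw [← hT.rank]
      exact IsFractionRing.finrank_eq (𝓞 F) F (𝓞 L) L
    have h3 : N (j a.toMul) = a.toMul ^ 2 := by
      rw [← hI, h1, h2, map_pow]
    exact h3
  · intro x
    obtain ⟨I, hI⟩ := ClassGroup.mk0_surjective x.toMul
    have hI0 : (I : Ideal (𝓞 L)) ≠ ⊥ := mem_nonZeroDivisors_iff_ne_zero.1 I.2
    have hm : fn I ∈ (Ideal (𝓞 F))⁰ := mem_nonZeroDivisors_iff_ne_zero.2
      (fun h => hI0 (Ideal.relNorm_eq_bot_iff.1 h))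
    have hm' : fj (fn I) ∈ (Ideal (𝓞 L))⁰ := mem_nonZeroDivisors_iff_ne_zero.2
      (fun h => hI0 (Ideal.relNorm_eq_bot_iff.1 ((Ideal.map_eq_bot_iff_of_injective hinj).1 h)))
    have h1 : N (ClassGroup.mk0 I) = ClassGroup.mk0 ⟨fn I, hm⟩ := hN I ⟨fn I, hm⟩ rfl
    have h2 : j (ClassGroup.mk0 ⟨fn I, hm⟩) = ClassGroup.mk0 ⟨fj (fn I), hm'⟩ := hj _ _ rfl
    have h3 : fj (fn I) = ∏ i ∈ Finset.range 2, act (σ ^ (2 ^ k / 2 * i)) I := by
      have h4 := hCLN F L I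
      have h5 := hsum (Additive (Ideal (𝓞 L))) (fun g => Additive.ofMul (act g I))
      have h6 : (∏ b : L ≃ₐ[F] L, (I : Ideal (𝓞 L)).map
          (RingOfIntegers.mapRingEquiv (b : L ≃+* L))) =
          ∏ b : L ≃ₐ[F] L, act (b.restrictScalars K) I := rfl
      rw [h6] at h4
      have h7 := congrArg Additive.toMul h5
      rw [toMul_sum, toMul_sum] at h7
      exact h4.trans h7
    have h4 : j (N x.toMul) = ∏ i ∈ Finset.range 2, s^[2 ^ k / 2 * i] x.toMul := by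
      rw [← hI, h1, h2]
      have h5 : (⟨fj (fn I), hm'⟩ : (Ideal (𝓞 L))⁰) =
          ∏ i ∈ Finset.range 2, ⟨act (σ ^ (2 ^ k / 2 * i)) I, act_mem _ I⟩ := by
        apply Subtype.ext
        rw [Submonoid.coe_finsetProd]
        exact h3
      rw [h5, map_prod]
      exact Finset.prod_congr rfl fun i _ => (hiter _ I).symm
    have h5 := congrArg Additive.ofMul h4
    rw [ofMul_prod] at h5
    exact h5
  · intro x
    obtain ⟨I, hI⟩ := ClassGroup.mk0_surjective x.toMul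
    have h : g (s x.toMul) = s^[t] (g x.toMul) := by
      rw [← hI, hs, hg, hg, hiter]
      congr 1
      apply Subtype.ext
      show act γ (act σ I) = act (σ ^ t) (act γ I)
      rw [← act_mul, ← act_mul, hT.conj]
    exact h
  · intro x
    obtain ⟨I, hI⟩ := ClassGroup.mk0_surjective x.toMul
    have h : g (g x.toMul) = x.toMul := by
      rw [← hI, hg, hg]
      congr 1
      apply Subtype.ext
      show act γ (act γ I) = I
      rw [← act_mul, hT.inv, act_one]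
    exact h

end ABS
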