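import Pool.Agent.ABS.StD1
import Pool.Agent.ABS.CORE

/-!
# The core formula, dihedral case
-/

open NumberField NumberField.InfinitePlace
open scoped Classical

namespace ABS

namespace DCO

section

variable {K F L : Type} [Field K] [NumberField K] [Field F] [NumberField F] [Field L]
    [NumberField L] [Algebra K F] [Algebra K L] [Algebra F L] [IsScalarTower K F L]
    [IsGalois F L]

/-- The quotients of orders for two pairs of stable lattices of the form `m T X ≤ B`. -/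
theorem pair (hQ : QuotG) (hJN : Stmt_JN) (hJV : Stmt_JV) (hLG : Stmt_LG)
    (hDQU : Stmt_DQU) {k t : ℕ} {E : Type} [Field E] [NumberField E]
    [Algebra E (CyclotomicField (2 ^ k) ℚ)]
    {τ : CyclotomicField (2 ^ k) ℚ ≃ₐ[E] CyclotomicField (2 ^ k) ℚ} (hFD : FD k t E τ)
    {σ γ : L ≃ₐ[K] L} (htow : TowG k t K F L σ γ) {T : V L →ₗ[ℝ] V L} {T' : V F →ₗ[ℝ] V F}
    (compat : ∀ (x : V F) (y : V L), (y : InfinitePlace L → ℝ) = jf F L x →
      ((T y : V L) : InfinitePlace L → ℝ) = jf F L (T' x : V F))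
    (comn : ∀ (y : V L) (x : V F), (x : InfinitePlace F → ℝ) = nf F L y →
      ((T' x : V F) : InfinitePlace F → ℝ) = nf F L (T y : V L))
    (comm : ∀ (g : L ≃ₐ[K] L) (x y : V L), (y : InfinitePlace L → ℝ) = actf g x →
      ((T y : V L) : InfinitePlace L → ℝ) = actf g (T x : V L))
    (m : ℕ) (B : AddSubgroup (V F)) (B' : AddSubgroup (V L))
    (h1 : ∀ (x : V F) (y : V L), (y : InfinitePlace L → ℝ) = jf F L x → x ∈ B → y ∈ B')
    (h2 : ∀ (y : V L) (x : V F), (x : InfinitePlace F → ℝ) = nf F L y → y ∈ B' → x ∈ B)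
    (h3 : ∀ (g : L ≃ₐ[K] L) (y z : V L), (z : InfinitePlace L → ℝ) = actf g y →
      y ∈ B' → z ∈ B')
    (hB : (CORE.img m T').relIndex B ≠ 0) (hB' : (CORE.img m T).relIndex B' ≠ 0) :
    SqF E (((CORE.img m T).relIndex B' : ℚ) / (CORE.img m T').relIndex B) := by
  obtain ⟨jv1, jv2, jv3, jv4⟩ := hJV hJN F L
  have hd := hDQU hJN hJV hLG k t K F L σ γ htow (CORE.img m T') B (CORE.img m T) B' ?_ ?_ ?_
  · have := CORE.finite_quot _ _ hB
    have := CORE.finite_quot _ _ hB'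
    have h := hQ k t E τ hFD _ _ hd
    rwa [CORE.card_quot, CORE.card_quot] at h
  · intro x y hxy
    refine ⟨fun hx => ?_, h1 x y hxy⟩
    rw [CORE.mem_img] at hx ⊢
    obtain ⟨x₀, hx₀, rfl⟩ := hx
    refine ⟨⟨jf F L x₀, jv1 _ x₀.2⟩, fun w => jv3 _ hx₀ w, Subtype.ext ?_⟩
    rw [hxy, Submodule.coe_smul, Submodule.coe_smul, compat x₀ ⟨jf F L x₀, jv1 _ x₀.2⟩ rfl, map_smul]
  · intro y x hyx
    refine ⟨fun hy => ?_, h2 y x hyx⟩
    rw [CORE.mem_img] at hy ⊢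
    obtain ⟨y₀, hy₀, rfl⟩ := hy
    refine ⟨⟨nf F L y₀, jv2 _ y₀.2⟩, fun w => jv4 _ hy₀ w, Subtype.ext ?_⟩
    rw [hyx, Submodule.coe_smul, Submodule.coe_smul, comn y₀ ⟨nf F L y₀, jv2 _ y₀.2⟩ rfl, map_smul]
  · intro g y z hyz
    obtain ⟨-, lg2, lg3⟩ := hLG K L g
    refine ⟨fun hy => ?_, h3 g y z hyz⟩
    rw [CORE.mem_img] at hy ⊢
    obtain ⟨y₀, hy₀, rfl⟩ := hy
    refine ⟨⟨actf g y₀, lg2 _ y₀.2⟩, fun w => lg3 _ hy₀ w, Subtype.ext ?_⟩
    rw [hyz, Submodule.coe_smul, Submodule.coe_smul, comm g y₀ ⟨actf g y₀, lg2 _ y₀.2⟩ rfl, map_smul]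

end

end DCO

theorem DCO_thm : Stmt_DCO := by
  intro hQ hCLN hDCG hDMU hJN hJV hLJ hLG hDQU hREG1 hXI hMUL hCOMN k t E _ _ _ τ hFD K F L
    _ _ _ _ _ _ _ _ _ _ _ σ γ htow T T' hTH
  obtain ⟨m, hm, hmL, hmF⟩ := hMUL hJN hJV hLJ K F L T T' hTH
  obtain ⟨jv1, jv2, jv3, jv4⟩ := hJV hJN F L
  obtain ⟨lj1, lj2⟩ := hLJ hJN F L
  obtain ⟨rL0, rL1⟩ := hREG1 L T m hm hTH.inj hmL
  obtain ⟨rF0, rF1⟩ := hREG1 F T' m hm hTH.inj' hmF
  have xL := hXI L m hm
  have xF := hXI F m hm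
  have hm0 : (m : ℝ) ≠ 0 := by exact_mod_cast hm.ne'
  -- the four pairs
  have q1 := DCO.pair hQ hJN hJV hLG hDQU hFD htow hTH.compat
    (hCOMN hJN hJV K F L T T' hTH) hTH.comm m (Lam F) (Lam L) ?_ ?_ ?_ rF0 rL0
  rotate_left
  · rintro x y hxy ⟨u, rfl⟩
    obtain ⟨u', -, hu'⟩ := lj1 u
    exact ⟨u', Subtype.ext (by rw [hu', hxy])⟩
  · rintro y x hyx ⟨u, rfl⟩
    obtain ⟨u', -, hu'⟩ := lj2 u
    exact ⟨u', Subtype.ext (by rw [← hu', hyx])⟩
  · rintro g y z hyz ⟨u, rfl⟩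
    obtain ⟨u', -, hu'⟩ := (hLG K L g).1 u
    exact ⟨u', Subtype.ext (by rw [hu', hyz])⟩
  have q2 := DCO.pair hQ hJN hJV hLG hDQU hFD htow (T := LinearMap.id)
    (T' := LinearMap.id) (fun x y hxy => hxy) (fun y x hyx => hyx) (fun g x y hxy => hxy) m
    (X F) (X L) ?_ ?_ ?_ ?_ ?_
  rotate_left
  · intro x y hxy hx w
    rw [hxy]
    exact jv3 _ hx w
  · intro y x hyx hy w
    rw [hyx]
    exact jv4 _ hy w
  · intro g y z hyz hy w
    rw [hyz]
    exact (hLG K L g).2.2 _ hy w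
  · show (AddSubgroup.map ((m : ℝ) • (LinearMap.id : V F →ₗ[ℝ] V F)).toAddMonoidHom
      (X F)).relIndex (X F) ≠ 0
    rw [xF]
    exact pow_ne_zero _ hm.ne'
  · show (AddSubgroup.map ((m : ℝ) • (LinearMap.id : V L →ₗ[ℝ] V L)).toAddMonoidHom
      (X L)).relIndex (X L) ≠ 0
    rw [xL]
    exact pow_ne_zero _ hm.ne'
  have q3 := hQ k t E τ hFD _ _ (hDCG hCLN k t K F L σ γ htow)
  have q4 := hQ k t E τ hFD _ _ (hDMU k t K F L σ γ htow)
  refine ⟨_, ((q1.mul q2.inv).mul q3.inv).mul q4, ?_⟩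
  have c1 : (CORE.img m (LinearMap.id : V L →ₗ[ℝ] V L)).relIndex (X L) = m ^ (Units.rank L) := xL
  have c2 : (CORE.img m (LinearMap.id : V F →ₗ[ℝ] V F)).relIndex (X F) = m ^ (Units.rank F) := xF
  have c3 : Nat.card (Additive (ClassGroup (𝓞 L))) = classNumber L := by
    rw [classNumber, ← Nat.card_eq_fintype_card]
    rfl
  have c4 : Nat.card (Additive (ClassGroup (𝓞 F))) = classNumber F := by
    rw [classNumber, ← Nat.card_eq_fintype_card]
    rfl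
  have c5 : Nat.card (Additive (Units.torsion L)) = Units.torsionOrder L := by
    rfl
  have c6 : Nat.card (Additive (Units.torsion F)) = Units.torsionOrder F := by
    rfl
  rw [c1, c2, c3, c4, c5, c6]
  have hh : ∀ (E : Type) [Field E] [NumberField E], (classNumber E : ℝ) ≠ 0 := by
    intro E _ _
    exact_mod_cast classNumber_ne_zero E
  have hw : ∀ (E : Type) [Field E] [NumberField E], (Units.torsionOrder E : ℝ) ≠ 0 := by
    intro E _ _
    exact_mod_cast Units.torsionOrder_ne_zero E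
  have hR : ∀ (E : Type) [Field E] [NumberField E], Units.regulator E ≠ 0 := by
    intro E _ _
    exact (Units.regulator_pos E).ne'
  have key := CORE.calc_final rL1 rF1 (pow_ne_zero _ hm0) (pow_ne_zero _ hm0) (hR L) (hR F)
    (by exact_mod_cast rF0) (hh L) (hh F) (hw L) (hw F)
  rw [key]
  push_cast
  rfl

end ABS
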