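import Pool.Agent.ABS.StD3
import Pool.Agent.ABS.COREB

/-!
# Project ABS, part D: the abstract form of the field `EF2 k t`
-/

set_option autoImplicit false

open scoped Classical

namespace StarkC.ABS

namespace DEMx

/-- `t + 1 = 4 M a`, `n = 8 M`. -/
theorem tt_form {k t : ℕ} (hk : 3 ≤ k) (ht : TT k t) :
    ∃ M a : ℕ, 0 < M ∧ 0 < a ∧ 2 ^ k = 8 * M ∧ t + 1 = 4 * M * a := by
  obtain ⟨j, rfl⟩ := Nat.exists_eq_add_of_le hk
  have hp : 2 ^ (3 + j) = 8 * 2 ^ j := by rw [pow_add]; norm_num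
  have hp' : 2 ^ (3 + j - 1) = 4 * 2 ^ j := by
    rw [show 3 + j - 1 = 2 + j by omega, pow_add]; norm_num
  have hM : 0 < 2 ^ j := by positivity
  have hdvd : 4 * 2 ^ j ∣ t + 1 := by
    have h1 := Nat.div_add_mod (t + 1) (2 ^ (3 + j))
    rcases ht.2 with h | ⟨-, h⟩
    · rw [h, hp, add_zero] at h1
      rw [← h1]
      exact ⟨2 * ((t + 1) / (8 * 2 ^ j)), by ring⟩
    · rw [h, hp', hp] at h1
      rw [← h1]
      exact ⟨2 * ((t + 1) / (8 * 2 ^ j)) + 1, by ring⟩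
  obtain ⟨a, ha⟩ := hdvd
  refine ⟨2 ^ j, a, hM, ?_, hp, ha⟩
  rcases Nat.eq_zero_or_pos a with h | h
  · rw [h, mul_zero] at ha
    omega
  · exact h

theorem sq_form {k t : ℕ} (hk : 3 ≤ k) (ht : TT k t) : ∃ c : ℕ, t * t = 2 ^ k * c + 1 := by
  obtain ⟨M, a, hM, ha, hn, hta⟩ := tt_form hk ht
  obtain ⟨b, hb⟩ : ∃ b, 4 * M * a = b + 4 := by
    have : 1 ≤ M * a := Nat.mul_pos hM ha
    refine ⟨4 * M * a - 4, ?_⟩
    have h2 : 4 * M * a = 4 * (M * a) := by ring
    omega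
  have ht3 : t = b + 3 := by omega
  have hb2 : ∃ d, 2 * M * a = d + 1 := by
    have : 1 ≤ M * a := Nat.mul_pos hM ha
    refine ⟨2 * M * a - 1, ?_⟩
    have h2 : 2 * M * a = 2 * (M * a) := by ring
    omega
  obtain ⟨d, hd⟩ := hb2
  refine ⟨a * d, ?_⟩
  have e1 : b + 3 = 2 * d + 1 := by
    have h2 : 4 * M * a = 2 * (2 * M * a) := by ring
    omega
  have e2 : 8 * M * (a * d) = 4 * (2 * M * a) * d := by ring
  rw [hn, e2, hd, ht3, e1]
  ring

theorem ne_one {k t : ℕ} (hk : 3 ≤ k) (ht : TT k t) : 1 ≤ t ∧ ¬ 2 ^ k ∣ t - 1 := by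
  obtain ⟨M, a, hM, ha, hn, hta⟩ := tt_form hk ht
  have h1 : 1 ≤ M * a := Nat.mul_pos hM ha
  have h2 : 4 * M * a = 4 * (M * a) := by ring
  refine ⟨by omega, ?_⟩
  rintro ⟨c, hc⟩
  rw [hn] at hc
  have h3 : 8 * M * c = 4 * (2 * (M * c)) := by ring
  omega

theorem coprime {k t : ℕ} (hk : 3 ≤ k) (ht : TT k t) : (2 ^ k).Coprime t := by
  obtain ⟨M, a, hM, ha, hn, hta⟩ := tt_form hk ht
  refine Nat.Coprime.pow_left k ?_
  rw [Nat.coprime_two_left]
  have h2 : 4 * M * a = 4 * (M * a) := by ring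
  rw [Nat.odd_iff]
  omega

theorem cases_zmod {k t : ℕ} (ht : TT k t) :
    (t : ZMod (2 ^ k)) = -1 ∨ (t : ZMod (2 ^ k)) = -1 + 2 ^ (k - 1) := by
  have h1 : ((t + 1 : ℕ) : ZMod (2 ^ k)) = (((t + 1) % 2 ^ k : ℕ) : ZMod (2 ^ k)) :=
    (ZMod.natCast_mod _ _).symm
  rcases ht.2 with h | ⟨-, h⟩
  · left
    rw [h, Nat.cast_zero, Nat.cast_add, Nat.cast_one] at h1
    exact eq_neg_of_add_eq_zero_left h1
  · right
    rw [h, Nat.cast_pow, Nat.cast_add, Nat.cast_one, Nat.cast_ofNat] at h1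
    rw [← h1]
    ring

/-- Two automorphisms of `ℂ` which agree on the roots of unity agree on `Cyc n`. -/
theorem agree {n : ℕ} (σ σ' : ℂ ≃+* ℂ) (h : ∀ z : ℂ, z ^ n = 1 → σ z = σ' z) :
    ∀ x ∈ Cyc n, σ x = σ' x := by
  intro x hx
  have h1 : Cyc n ≤ { carrier := {x : ℂ | σ x = σ' x}
                      mul_mem' := fun {a b} ha hb => by
                        show σ (a * b) = σ' (a * b)
                        rw [map_mul, map_mul, show σ a = σ' a from ha, show σ b = σ' b from hb]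
                      one_mem' := by show σ 1 = σ' 1; rw [map_one, map_one]
                      add_mem' := fun {a b} ha hb => by
                        show σ (a + b) = σ' (a + b)
                        rw [map_add, map_add, show σ a = σ' a from ha, show σ b = σ' b from hb]
                      zero_mem' := by show σ 0 = σ' 0; rw [map_zero, map_zero]
                      algebraMap_mem' := fun q => by
                        show σ (algebraMap ℚ ℂ q) = σ' (algebraMap ℚ ℂ q)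
                        rw [eq_ratCast, map_ratCast, map_ratCast]
                      inv_mem' := fun a ha => by
                        show σ a⁻¹ = σ' a⁻¹
                        rw [map_inv₀, map_inv₀, show σ a = σ' a from ha] :
                        IntermediateField ℚ ℂ } :=
    IntermediateField.adjoin_le_iff.2 fun z hz => h z hz
  exact h1 hx

theorem mem_iff {k t : ℕ} (σ : ℂ ≃+* ℂ) (hσ : ∀ z : ℂ, z ^ (2 ^ k) = 1 → σ z = z ^ t) (x : ℂ) :
    x ∈ EF2 k t ↔ x ∈ Cyc (2 ^ k) ∧ σ x = x := by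
  constructor
  · intro hx
    exact ⟨hx.1, hx.2 σ hσ⟩
  · intro hx
    refine ⟨hx.1, fun σ' hσ' => ?_⟩
    rw [← hx.2]
    rw [hx.2]
    have h := agree (n := 2 ^ k) σ' σ (fun z hz => by rw [hσ z hz, hσ' z hz]) x hx.1
    rw [h, hx.2]

/-- The automorphism of `Cyc n` induced by `σ`. -/
theorem exists_tau (k t : ℕ) (hk : 3 ≤ k) (ht : TT k t) (σ : ℂ ≃+* ℂ)
    (hσ : ∀ z : ℂ, z ^ (2 ^ k) = 1 → σ z = z ^ t) :
    ∃ τ : Cyc (2 ^ k) ≃ₐ[ℚ] Cyc (2 ^ k), (∀ x, ((τ x : Cyc (2 ^ k)) : ℂ) = σ (x : ℂ)) ∧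
      orderOf τ = 2 := by
  have hn : (2 : ℕ) ^ k ≠ 0 := by positivity
  have hne : NeZero ((2 : ℕ) ^ k) := ⟨hn⟩
  have hC := COREBx.isCyc (2 ^ k) hn
  have hG : IsGalois ℚ (Cyc (2 ^ k)) := IsCyclotomicExtension.isGalois {2 ^ k} ℚ _
  let σa : ℂ ≃ₐ[ℚ] ℂ := AlgEquiv.ofRingEquiv (f := σ) (fun q => by
    rw [eq_ratCast, map_ratCast])
  let τ : Cyc (2 ^ k) ≃ₐ[ℚ] Cyc (2 ^ k) := σa.restrictNormal (Cyc (2 ^ k))
  have hτ : ∀ x, ((τ x : Cyc (2 ^ k)) : ℂ) = σ (x : ℂ) := fun x =>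
    AlgEquiv.restrictNormal_commutes σa (Cyc (2 ^ k)) x
  refine ⟨τ, hτ, ?_⟩
  refine orderOf_eq_prime ?_ ?_
  · refine AlgEquiv.ext fun x => Subtype.ext ?_
    rw [pow_two, AlgEquiv.mul_apply, AlgEquiv.one_apply, hτ, hτ]
    have h := agree (n := 2 ^ k) (σ.trans σ) (RingEquiv.refl ℂ) (fun z hz => by
      show σ (σ z) = z
      obtain ⟨c, hc⟩ := sq_form hk ht
      rw [hσ z hz, map_pow, hσ z hz, ← pow_mul, hc, pow_add, pow_mul, hz, one_pow, one_mul,
        pow_one]) x x.2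
    exact h
  · intro h
    have hζ := Complex.isPrimitiveRoot_exp (2 ^ k) hn
    set ζ : ℂ := Complex.exp (2 * Real.pi * Complex.I / ((2 ^ k : ℕ) : ℂ)) with hζd
    have hζm : ζ ∈ Cyc (2 ^ k) := IntermediateField.subset_adjoin ℚ _ hζ.pow_eq_one
    have h1 : σ ζ = ζ := by
      rw [← hτ ⟨ζ, hζm⟩, h]
      rfl
    rw [hσ ζ hζ.pow_eq_one] at h1
    obtain ⟨ht1, ht2⟩ := ne_one hk ht
    apply ht2
    rw [← hζ.pow_eq_one_iff_dvd]
    have h2 : ζ ^ (t - 1) * ζ = 1 * ζ := by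
      rw [← pow_succ, Nat.sub_add_cancel ht1, one_mul, h1]
    exact mul_right_cancel₀ (hζ.ne_zero hn) h2

theorem exists_equiv' (n : ℕ) (hn : n ≠ 0) (C : Type) [Field C] [Algebra ℚ C]
    [IsCyclotomicExtension {n} ℚ C] : Nonempty (C ≃+* Cyc n) := by
  have : NeZero n := ⟨hn⟩
  have := COREBx.isCyc n hn
  exact ⟨(IsCyclotomicExtension.algEquiv {n} ℚ C (Cyc n)).toRingEquiv⟩

theorem exists_equiv (n : ℕ) (hn : n ≠ 0) : Nonempty (CyclotomicField n ℚ ≃+* Cyc n) := by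
  have : NeZero n := ⟨hn⟩
  have : NeZero ((n : ℕ) : ℚ) := ⟨Nat.cast_ne_zero.2 hn⟩
  exact @exists_equiv' n hn (CyclotomicField n ℚ) _ _
    (CyclotomicField.isCyclotomicExtension n ℚ)

end DEMx

open DEMx

/-- The abstract form of the field. -/
theorem DEM_thm : Stmt_DEM := by
  intro hS k t hk ht
  have hn : (2 : ℕ) ^ k ≠ 0 := by positivity
  have hne : NeZero ((2 : ℕ) ^ k) := ⟨hn⟩
  have hC := COREBx.isCyc (2 ^ k) hn
  obtain ⟨σ, hσ⟩ := hS (2 ^ k) t (Nat.pos_of_ne_zero hn) (coprime hk ht)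
  obtain ⟨τ₀, hτ₀, hord⟩ := exists_tau k t hk ht σ hσ
  have hfd : FiniteDimensional ℚ (Cyc (2 ^ k)) :=
    IsCyclotomicExtension.finiteDimensional {2 ^ k} ℚ _
  have hle : EF2 k t ≤ Cyc (2 ^ k) := fun x hx => hx.1
  have hfE : FiniteDimensional ℚ (EF2 k t) :=
    FiniteDimensional.of_injective (IntermediateField.inclusion hle).toLinearMap
      (IntermediateField.inclusion_injective hle)
  have hNF : NumberField (EF2 k t) := { to_charZero := inferInstance, to_finiteDimensional := by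
                                          convert hfE }
  obtain ⟨e⟩ := exists_equiv (2 ^ k) hn
  let inc : EF2 k t →+* Cyc (2 ^ k) := (IntermediateField.inclusion hle).toRingHom
  have hinc : ∀ r, ((inc r : Cyc (2 ^ k)) : ℂ) = (r : ℂ) := fun r => rfl
  let alg : Algebra (EF2 k t) (CyclotomicField (2 ^ k) ℚ) :=
    ((e.symm : Cyc (2 ^ k) →+* CyclotomicField (2 ^ k) ℚ).comp inc).toAlgebra
  have halg : ∀ r : EF2 k t, algebraMap (EF2 k t) (CyclotomicField (2 ^ k) ℚ) r =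
      e.symm (inc r) := fun r => rfl
  have hfix : ∀ r : EF2 k t, τ₀ (inc r) = inc r := fun r => Subtype.ext (by
    rw [hτ₀, hinc]
    exact ((mem_iff σ hσ (r : ℂ)).1 r.2).2)
  let τ : CyclotomicField (2 ^ k) ℚ ≃ₐ[EF2 k t] CyclotomicField (2 ^ k) ℚ :=
    AlgEquiv.ofRingEquiv (f := e.trans (τ₀.toRingEquiv.trans e.symm)) (fun r => by
      rw [halg]
      show e.symm (τ₀ (e (e.symm (inc r)))) = _
      rw [e.apply_symm_apply, hfix])
  have hτ : ∀ z, τ z = e.symm (τ₀ (e z)) := fun z => rfl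
  refine ⟨EF2 k t, inferInstance, hNF, alg, τ, ⟨hk, cases_zmod ht, fun z hz => ?_, ?_⟩, ?_⟩
  · rw [hτ, RingEquiv.symm_apply_eq, map_pow]
    apply Subtype.ext
    rw [hτ₀]
    have h1 : ((e z : Cyc (2 ^ k)) : ℂ) ^ (2 ^ k) = 1 := by
      have h2 : (e z) ^ (2 ^ k) = 1 := by rw [← map_pow, hz, map_one]
      exact congrArg Subtype.val h2
    rw [hσ _ h1]
    rfl
  · have hcard : Module.finrank (IntermediateField.fixedField (Subgroup.zpowers τ₀))
        (Cyc (2 ^ k)) = 2 := by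
      rw [IntermediateField.finrank_fixedField_eq_card, Nat.card_zpowers, hord]
    refine Eq.trans ?_ hcard
    have hmemF : ∀ r : EF2 k t, inc r ∈ IntermediateField.fixedField (Subgroup.zpowers τ₀) := by
      intro r
      rw [IntermediateField.mem_fixedField_iff]
      intro g hg
      obtain ⟨i, rfl⟩ := Subgroup.mem_zpowers_iff.1 hg
      have h1 : ∀ m : ℕ, (τ₀ ^ m) (inc r) = inc r := by
        intro m
        induction m with
        | zero => rfl
        | succ m ih => rw [pow_succ, AlgEquiv.mul_apply, hfix, ih]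
      rcases i with m | m
      · exact h1 m
      · rw [zpow_negSucc]
        have h2 := h1 (m + 1)
        rw [← h2]
        rw [h2]
        exact (AlgEquiv.symm_apply_eq _).2 h2.symm
    let i : EF2 k t →+* IntermediateField.fixedField (Subgroup.zpowers τ₀) :=
      inc.codRestrict (IntermediateField.fixedField (Subgroup.zpowers τ₀)) hmemF
    have hi : Function.Bijective i := by
      refine ⟨i.injective, fun y => ?_⟩
      have hy : τ₀ (y : Cyc (2 ^ k)) = y :=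
        (IntermediateField.mem_fixedField_iff _ _).1 y.2 τ₀ (Subgroup.mem_zpowers τ₀)
      refine ⟨⟨((y : Cyc (2 ^ k)) : ℂ), (mem_iff σ hσ _).2 ⟨(y : Cyc (2 ^ k)).2, ?_⟩⟩, ?_⟩
      · rw [← hτ₀, hy]
      · exact Subtype.ext (Subtype.ext rfl)
    refine Algebra.finrank_eq_of_equiv_equiv (RingEquiv.ofBijective i hi) e ?_
    ext r
    show ((inc r : Cyc (2 ^ k)) : ℂ) = ((e (e.symm (inc r)) : Cyc (2 ^ k)) : ℂ)
    rw [e.apply_symm_apply]
  · rintro q ⟨α, hα, hN⟩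
    refine ⟨α, hα, ?_⟩
    rw [← hN]

end StarkC.ABS
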