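import Pool.Agent.ABS.StD3

/-!
# ABS, module DEN (helper45): norms in `ℚ(ζ_n) ⊇ EF2 k t ⊇ ℚ`
-/

set_option autoImplicit false

open NumberField IsDedekindDomain
open scoped TensorProduct Classical

namespace StarkC.ABS

open StarkP (rootField)

namespace DENx

/-! ### The exponent -/

theorem exponent {k t : ℕ} (hk : 3 ≤ k) (h : TT k t) :
    ∃ m u : ℕ, t + 1 = 2 ^ (k - 1) * m ∧ t = 2 * u + 1 := by
  have h1 : 2 ^ k = 2 ^ (k - 1) * 2 := by
    rw [← pow_succ]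
    congr 1
    omega
  have h2 : 2 ^ (k - 1) ∣ t + 1 := by
    have h3 := Nat.div_add_mod (t + 1) (2 ^ k)
    rcases h.2 with h4 | ⟨-, h4⟩
    · rw [h4, add_zero] at h3
      rw [← h3, h1, mul_assoc]
      exact Dvd.intro _ rfl
    · rw [h4] at h3
      rw [← h3, h1, mul_assoc]
      exact Dvd.dvd.add (Dvd.intro _ rfl) dvd_rfl
  obtain ⟨m, hm⟩ := h2
  have h5 : 2 ^ (k - 1) = 2 * 2 ^ (k - 2) := by
    rw [← pow_succ']
    congr 1
    omega
  have h6 : t + 1 = 2 * (2 ^ (k - 2) * m) := by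
    rw [hm, h5, mul_assoc]
  refine ⟨m, 2 ^ (k - 2) * m - 1, hm, ?_⟩
  omega

theorem pow_sq {k t m u : ℕ} (hk : 3 ≤ k) (hm : t + 1 = 2 ^ (k - 1) * m) (hu : t = 2 * u + 1)
    {z : ℂ} (hz : z ^ (2 ^ k) = 1) : (z ^ t) ^ t = z := by
  have h1 : 2 ^ k = 2 ^ (k - 1) * 2 := by
    rw [← pow_succ]
    congr 1
    omega
  have h2 : t * t = (t + 1) * 2 * u + 1 := by
    rw [hu]
    ring
  have h3 : z ^ ((t + 1) * 2) = 1 := by
    rw [hm, mul_right_comm, ← h1, pow_mul, hz, one_pow]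
  rw [← pow_mul, h2, pow_succ, pow_mul, h3, one_pow, one_mul]

theorem root_ne {k t m u : ℕ} (hk : 3 ≤ k) (hm : t + 1 = 2 ^ (k - 1) * m) (hu : t = 2 * u + 1)
    {z : ℂ} (hz : IsPrimitiveRoot z (2 ^ k)) : z ^ t ≠ z := by
  intro h
  have h0 : z ≠ 0 := hz.ne_zero (pow_ne_zero _ two_ne_zero)
  rw [hu, pow_succ] at h
  have h1 : z ^ (2 * u) = 1 := mul_right_cancel₀ h0 (by rw [h, one_mul])
  have h2 : 2 ^ k ∣ 2 * u := hz.dvd_of_pow_eq_one _ h1
  have h3 : 2 ^ (k - 1) ∣ 2 * u := (pow_dvd_pow 2 (Nat.sub_le k 1)).trans h2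
  have h4 : 2 ^ (k - 1) ∣ 2 * u + 2 := by
    have : 2 * u + 2 = t + 1 := by omega
    rw [this, hm]
    exact Dvd.intro _ rfl
  have h5 : 2 ^ (k - 1) ∣ 2 := (Nat.dvd_add_right h3).1 h4
  have h6 : 2 ^ 2 ∣ 2 := (pow_dvd_pow 2 (by omega)).trans h5
  omega

/-! ### Automorphisms on `ℚ(ζ_n)` -/

theorem mem_cyc {n : ℕ} {z : ℂ} (h : z ^ n = 1) : z ∈ Cyc n :=
  IntermediateField.subset_adjoin ℚ _ h

theorem agree {n : ℕ} {s s' : ℂ ≃+* ℂ} (h : ∀ z : ℂ, z ^ n = 1 → s z = s' z) :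
    ∀ x ∈ Cyc n, s x = s' x := by
  intro x hx
  unfold Cyc at hx
  induction hx using IntermediateField.adjoin_induction with
  | mem x hx => exact h x hx
  | algebraMap q => rw [eq_ratCast, map_ratCast, map_ratCast]
  | add x y _ _ hx hy => rw [map_add, map_add, hx, hy]
  | inv x _ hx => rw [map_inv₀, map_inv₀, hx]
  | mul x y _ _ hx hy => rw [map_mul, map_mul, hx, hy]

theorem maps {n t : ℕ} {s : ℂ ≃+* ℂ} (h : ∀ z : ℂ, z ^ n = 1 → s z = z ^ t) :
    ∀ x ∈ Cyc n, s x ∈ Cyc n := by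
  intro x hx
  unfold Cyc at hx
  induction hx using IntermediateField.adjoin_induction with
  | mem x hx =>
    rw [h x hx]
    exact pow_mem (mem_cyc hx) t
  | algebraMap q =>
    rw [eq_ratCast, map_ratCast]
    exact (Cyc n).algebraMap_mem q
  | add x y _ _ hx hy =>
    rw [map_add]
    exact add_mem hx hy
  | inv x _ hx =>
    rw [map_inv₀]
    exact inv_mem hx
  | mul x y _ _ hx hy =>
    rw [map_mul]
    exact mul_mem hx hy

theorem invol {n t : ℕ} {s : ℂ ≃+* ℂ} (h : ∀ z : ℂ, z ^ n = 1 → s z = z ^ t)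
    (ht : ∀ z : ℂ, z ^ n = 1 → (z ^ t) ^ t = z) : ∀ x ∈ Cyc n, s (s x) = x := by
  intro x hx
  unfold Cyc at hx
  induction hx using IntermediateField.adjoin_induction with
  | mem x hx => rw [h x hx, map_pow, h x hx, ht x hx]
  | algebraMap q => rw [eq_ratCast, map_ratCast, map_ratCast]
  | add x y _ _ hx hy => rw [map_add, map_add, hx, hy]
  | inv x _ hx => rw [map_inv₀, map_inv₀, hx]
  | mul x y _ _ hx hy => rw [map_mul, map_mul, hx, hy]

theorem finite_cyc (n : ℕ) (hn : 0 < n) : FiniteDimensional ℚ (Cyc n) := by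
  have hfin : {z : ℂ | z ^ n = 1}.Finite := by
    have h1 : {z : ℂ | z ^ n = 1} ⊆ (Polynomial.nthRootsFinset n (1 : ℂ) : Set ℂ) := by
      intro z hz
      exact Finset.mem_coe.2 ((Polynomial.mem_nthRootsFinset hn (1 : ℂ)).2 hz)
    exact (Finset.finite_toSet _).subset h1
  have : Finite {z : ℂ | z ^ n = 1} := hfin
  refine IntermediateField.finiteDimensional_adjoin fun x hx => ?_
  refine ⟨Polynomial.X ^ n - 1, Polynomial.monic_X_pow_sub_C (1 : ℚ) hn.ne', ?_⟩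
  have hx1 : x ^ n = 1 := hx
  simp [hx1]

theorem le_cyc (k t : ℕ) : EF2 k t ≤ Cyc (2 ^ k) := fun _ hx => hx.1

/-- an element of `ℚ(ζ)` fixed by one automorphism `z ↦ z ^ t` is in `EF2 k t` -/
theorem mem_ef {k t : ℕ} {s : ℂ ≃+* ℂ} (h : ∀ z : ℂ, z ^ (2 ^ k) = 1 → s z = z ^ t) {x : ℂ}
    (hx : x ∈ Cyc (2 ^ k)) (hs : s x = x) : x ∈ EF2 k t := by
  refine ⟨hx, fun s' h' => ?_⟩
  rw [agree (s := s') (s' := s) (fun z hz => by rw [h' z hz, h z hz]) x hx, hs]

/-- `(a, b) ↦ a + w b` -/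
noncomputable def comb (k t : ℕ) (w : ℂ) (hw : w ∈ Cyc (2 ^ k)) :
    (EF2 k t × EF2 k t) →ₗ[ℚ] Cyc (2 ^ k) where
  toFun p := ⟨(p.1 : ℂ) + w * (p.2 : ℂ),
    add_mem (le_cyc k t p.1.2) (mul_mem hw (le_cyc k t p.2.2))⟩
  map_add' p q := by
    apply Subtype.ext
    show ((p + q).1 : ℂ) + w * ((p + q).2 : ℂ) =
      ((p.1 : ℂ) + w * (p.2 : ℂ)) + ((q.1 : ℂ) + w * (q.2 : ℂ))
    rw [Prod.fst_add, Prod.snd_add, IntermediateField.coe_add, IntermediateField.coe_add]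
    ring
  map_smul' c p := by
    apply Subtype.ext
    show ((c • p).1 : ℂ) + w * ((c • p).2 : ℂ) = c • ((p.1 : ℂ) + w * (p.2 : ℂ))
    rw [Prod.smul_fst, Prod.smul_snd, IntermediateField.coe_smul, IntermediateField.coe_smul]
    simp only [Algebra.smul_def]
    ring

theorem comb_apply (k t : ℕ) (w : ℂ) (hw : w ∈ Cyc (2 ^ k)) (p : EF2 k t × EF2 k t) :
    ((comb k t w hw p : Cyc (2 ^ k)) : ℂ) = (p.1 : ℂ) + w * (p.2 : ℂ) := rfl

theorem finrank_two {k t : ℕ} (hk : 3 ≤ k) (hT : TT k t) {s : ℂ ≃+* ℂ}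
    (h : ∀ z : ℂ, z ^ (2 ^ k) = 1 → s z = z ^ t) :
    Module.finrank ℚ (Cyc (2 ^ k)) = 2 * Module.finrank ℚ (EF2 k t) := by
  obtain ⟨m, u, hm, hu⟩ := exponent hk hT
  have hn : 0 < 2 ^ k := pow_pos (by norm_num) k
  have hfd := finite_cyc (2 ^ k) hn
  have hfe : FiniteDimensional ℚ (EF2 k t) :=
    FiniteDimensional.of_injective (IntermediateField.inclusion (le_cyc k t)).toLinearMap
      (IntermediateField.inclusion_injective (le_cyc k t))
  set z : ℂ := Complex.exp (2 * Real.pi * Complex.I / ((2 ^ k : ℕ) : ℂ)) with hz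
  have hprim : IsPrimitiveRoot z (2 ^ k) := Complex.isPrimitiveRoot_exp (2 ^ k) hn.ne'
  have hzk : z ^ (2 ^ k) = 1 := hprim.pow_eq_one
  have hinv := invol h fun y hy => pow_sq hk hm hu hy
  set w : ℂ := z - z ^ t with hw
  have hw0 : w ≠ 0 := fun h0 => root_ne hk hm hu hprim (sub_eq_zero.1 h0).symm
  have hwm : w ∈ Cyc (2 ^ k) := sub_mem (mem_cyc hzk) (pow_mem (mem_cyc hzk) t)
  have hsw : s w = -w := by
    rw [hw, map_sub, map_pow, h z hzk, pow_sq hk hm hu hzk]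
    ring
  have hfix : ∀ a : EF2 k t, s (a : ℂ) = a := fun a => a.2.2 s h
  have hbij : Function.Bijective (comb k t w hwm) := by
    constructor
    · rw [injective_iff_map_eq_zero]
      intro p hp
      have h1 : (p.1 : ℂ) + w * (p.2 : ℂ) = 0 := by
        rw [← comb_apply k t w hwm p, hp]
        rfl
      have h2 : (p.1 : ℂ) - w * (p.2 : ℂ) = 0 := by
        have h3 := congrArg s h1
        rw [map_add, map_mul, hsw, hfix, hfix, map_zero] at h3
        linear_combination h3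
      have h4 : (p.1 : ℂ) = 0 := by linear_combination (h1 + h2) / 2
      have h5 : w * (p.2 : ℂ) = 0 := by linear_combination h1 - h4
      have h6 : (p.2 : ℂ) = 0 := (mul_eq_zero.1 h5).resolve_left hw0
      exact Prod.ext (Subtype.ext h4) (Subtype.ext h6)
    · intro c
      have hc : (c : ℂ) ∈ Cyc (2 ^ k) := c.2
      have hsc := maps h c hc
      have hss := hinv c hc
      have h2 : (2 : ℂ) ∈ Cyc (2 ^ k) := by
        have := (Cyc (2 ^ k)).algebraMap_mem 2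
        rwa [map_ofNat] at this
      have hs2 : s (2 : ℂ) = 2 := map_ofNat s 2
      have ha : ((c : ℂ) + s c) / 2 ∈ EF2 k t := by
        refine mem_ef h (div_mem (add_mem hc hsc) h2) ?_
        rw [map_div₀, map_add, hss, hs2, add_comm]
      have hb : ((c : ℂ) - s c) / (2 * w) ∈ EF2 k t := by
        refine mem_ef h (div_mem (sub_mem hc hsc) (mul_mem h2 hwm)) ?_
        rw [map_div₀, map_sub, map_mul, hss, hs2, hsw, mul_neg, div_neg, ← neg_div, neg_sub]
      refine ⟨(⟨_, ha⟩, ⟨_, hb⟩), ?_⟩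
      apply Subtype.ext
      rw [comb_apply]
      show ((c : ℂ) + s c) / 2 + w * (((c : ℂ) - s c) / (2 * w)) = c
      field_simp
      ring
  have h7 := (LinearEquiv.ofBijective (comb k t w hwm) hbij).finrank_eq
  rw [Module.finrank_prod] at h7
  omega

end DENx

open DENx in
theorem DEN_thm : Stmt_DEN := by
  intro hS hP k t hk hT x hx
  obtain ⟨m, u, hm, hu⟩ := exponent hk hT
  have hn : 0 < 2 ^ k := pow_pos (by norm_num) k
  have hcop : (2 ^ k).Coprime t := by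
    refine Nat.Coprime.pow_left k ?_
    rw [Nat.coprime_two_left, hu]
    exact ⟨u, rfl⟩
  obtain ⟨s, hs⟩ := hS (2 ^ k) t hn hcop
  have hfd := finite_cyc (2 ^ k) hn
  obtain ⟨j, hj0, hj1, hj2⟩ := hP (Cyc (2 ^ k)) (EF2 k t) (le_cyc k t) hfd
  have hj : j = 2 := by
    have h1 := finrank_two hk hT hs
    have h2 : 0 < Module.finrank ℚ (EF2 k t) := by
      have hfe : FiniteDimensional ℚ (EF2 k t) :=
        FiniteDimensional.of_injective (IntermediateField.inclusion (le_cyc k t)).toLinearMap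
          (IntermediateField.inclusion_injective (le_cyc k t))
      exact Module.finrank_pos
    rw [h1] at hj1
    exact (Nat.eq_of_mul_eq_mul_right h2 hj1).symm
  have hmem : (x : ℂ) ∈ EF2 k t := mem_ef hs x.2 (hx s hs)
  refine ⟨⟨x, hmem⟩, rfl, ?_⟩
  have h3 := hj2 ⟨x, hmem⟩
  rw [hj] at h3
  have h4 : IntermediateField.inclusion (le_cyc k t) ⟨x, hmem⟩ = x := Subtype.ext rfl
  rw [h4] at h3
  unfold nm
  rw [h3, Rat.cast_pow]

end StarkC.ABS
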