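import Pool.Agent.ABS.StD2
import Pool.Agent.ABS.AU4

/-!
# Project ABS, part D: `E/ℚ` is Galois with cyclic group (module DFG)
-/

open NumberField NumberField.InfinitePlace
open scoped Classical

namespace ABS

namespace DFG

open AU4

attribute [local instance] AU4.cyc

theorem t_four (j t : ℕ) (hj : 1 ≤ j)
    (h : (t : ZMod (2 ^ (j + 2))) = -1 ∨
      (t : ZMod (2 ^ (j + 2))) = -1 + 2 ^ (j + 2 - 1)) : (t : ZMod 4) = -1 := by
  have h0 : (2 : ZMod 4) ^ (j + 2 - 1) = 0 := by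
    obtain ⟨i, rfl⟩ : ∃ i, j = i + 1 := ⟨j - 1, by omega⟩
    have h1 : i + 1 + 2 - 1 = 2 + i := by omega
    have h2 : (2 : ZMod 4) ^ 2 = 0 := by decide
    rw [h1, pow_add, h2, zero_mul]
  rcases h with h | h
  · have h1 := congrArg (ZMod.castHom (dv4 j) (ZMod 4)) h
    rw [map_natCast, map_neg, map_one] at h1
    exact h1
  · have h1 := congrArg (ZMod.castHom (dv4 j) (ZMod 4)) h
    rw [map_natCast, map_add, map_neg, map_one, map_pow, map_ofNat, h0, add_zero] at h1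
    exact h1

theorem psi_tau (j t : ℕ) (hj : 1 ≤ j) (τ : EE j ≃ₐ[ℚ] EE j)
    (h : (t : ZMod (2 ^ (j + 2))) = -1 ∨
      (t : ZMod (2 ^ (j + 2))) = -1 + 2 ^ (j + 2 - 1))
    (ht : τ (zt j) = zt j ^ t) : ZMod.unitsMap (dv4 j) (Psi j τ) = -1 := by
  rcases one_or (ZMod.unitsMap (dv4 j) (Psi j τ)) with h1 | h1
  · exfalso
    rw [unitsMap_iff] at h1
    have h2 := Psi_spec j τ
    rw [ht, pow_iff] at h2
    have h3 : t ≡ 1 [MOD 4] := (h2.of_dvd (dv4 j)).trans h1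
    rw [← ZMod.natCast_eq_natCast_iff, t_four j t hj h] at h3
    exact absurd h3 (by decide)
  · exact h1

theorem split (j t : ℕ) (hj : 1 ≤ j) (τ : EE j ≃ₐ[ℚ] EE j)
    (h : (t : ZMod (2 ^ (j + 2))) = -1 ∨
      (t : ZMod (2 ^ (j + 2))) = -1 + 2 ^ (j + 2 - 1))
    (ht : τ (zt j) = zt j ^ t) (σ : EE j ≃ₐ[ℚ] EE j) :
    σ ∈ Subgroup.zpowers (gg j) ∨ σ * τ ∈ Subgroup.zpowers (gg j) := by
  rcases one_or (ZMod.unitsMap (dv4 j) (Psi j σ)) with h1 | h1
  · exact Or.inl (mem_zp j h1)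
  · refine Or.inr (mem_zp j ?_)
    rw [map_mul, map_mul, h1, psi_tau j t hj τ h ht]
    decide

end DFG

open AU4 in
theorem DFG_thm : Stmt_DFG := by
  intro k t E _ _ _ τ hF
  obtain ⟨j, rfl⟩ : ∃ j, k = j + 2 := ⟨k - 2, by have := hF.k3; omega⟩
  have hj : 1 ≤ j := by have := hF.k3; omega
  haveI := AU4.cyc j
  haveI hAC : IsAbelianGalois ℚ (EE j) :=
    IsCyclotomicExtension.isAbelianGalois {2 ^ (j + 2)} ℚ (EE j)
  haveI hAE : IsAbelianGalois ℚ E := IsAbelianGalois.tower_bot ℚ E (EE j)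
  haveI hGE : IsGalois ℚ E := hAE.toIsGalois
  haveI hGC : IsGalois ℚ (EE j) := hAC.toIsGalois
  have hτz : τ.restrictScalars ℚ (zt j) = zt j ^ t := hF.act (zt j) (zt_spec j).pow_eq_one
  have hτ1 : AlgEquiv.restrictNormalHom E (τ.restrictScalars ℚ) = 1 := by
    ext x
    apply (algebraMap E (EE j)).injective
    have h1 := AlgEquiv.restrictNormal_commutes (τ.restrictScalars ℚ) E x
    refine h1.trans ?_
    exact τ.commutes x
  refine ⟨hGE, AlgEquiv.restrictNormalHom E (gg j), fun h => ?_⟩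
  obtain ⟨σ, rfl⟩ := AlgEquiv.restrictNormalHom_surjective (F := ℚ) (K₁ := E) (EE j) h
  rcases DFG.split j t hj (τ.restrictScalars ℚ) hF.cases hτz σ with h1 | h1
  · obtain ⟨z, hz⟩ := Subgroup.mem_zpowers_iff.1 h1
    refine Subgroup.mem_zpowers_iff.2 ⟨z, ?_⟩
    rw [← map_zpow, hz]
  · obtain ⟨z, hz⟩ := Subgroup.mem_zpowers_iff.1 h1
    refine Subgroup.mem_zpowers_iff.2 ⟨z, ?_⟩
    rw [← map_zpow, hz, map_mul, hτ1, mul_one]

end ABS
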