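import Pool.Agent.ABS.StD4

/-!
# Project ABS (MP_46b841_nt), part D, module DFI

The property `PD2all` for all data: reduction to the fixed field of `B` (DBB, DLV), then to the faithful
case (DFL, DIF), then induction on the set of primes.
-/

set_option autoImplicit false

open NumberField IsDedekindDomain
open scoped TensorProduct Classical

namespace StarkC.ABS

theorem DFI_thm : Stmt_DFI := by
  intro hB hS hPH hDIF hDFL hDRT hDLL hDLV hDBB
  have full : ∀ (K L : Type) [Field K] [NumberField K] [Field L] [NumberField L] [Algebra K L]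
      [IsGalois K L] (A : Subgroup (L ≃ₐ[K] L)) (ψ : A →* ℂˣ) (g : L ≃ₐ[K] L) (k t : ℕ), 3 ≤ k →
      Leaf A ψ g k 1 t → (∀ x : L ≃ₐ[K] L, x ∈ A ∨ g⁻¹ * x ∈ A) →
      ∀ S : Finset (HeightOneSpectrum (𝓞 K)), PD2all k t A ψ S := by
    intro K L _ _ _ _ _ _ A ψ g k t hk hl hx S
    obtain ⟨L₀, i1, i2, i3, i4, i5, i6, σ, γ, ψ₀, hd, hinj, hA, hψ⟩ :=
      hDFL K L A ψ g k t hk hl hx
    have h0 : PD2all k t (Subgroup.zpowers σ) ψ₀ S := by
      induction S using Finset.induction_on with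
      | empty => exact hB K L₀ k t σ γ ψ₀ hd hinj
      | insert v S hv ih => exact hS K L₀ k t σ γ ψ₀ hd hinj S v hv ih
    exact hDIF hPH K L₀ L k t σ γ ψ₀ A ψ g S hd hinj hl hA hψ h0
  intro K L _ _ _ _ _ _ A ψ g k t hk hl S
  obtain ⟨B, A', ψ', g', hAB, hl', hx', hA', hψ'⟩ := hDBB K L A ψ g k t hl
  exact hDLV hDRT hDLL K L B A ψ A' ψ' k t S hAB hA' hψ'
    (fun S' => full _ L A' ψ' g' k t hk hl' hx' S')

end StarkC.ABS
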