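import Pool.Agent.ABS.StD4

/-!
# DFL: the dihedral or semidihedral field cut out by a leaf
-/

open NumberField IsDedekindDomain

namespace StarkC.ABS

namespace DFLx

/-- a value of `ψ` which generates the image -/
theorem exists_gen {A : Type} [Group A] [Finite A] (ψ : A →* ℂˣ) :
    ∃ a : A, orderOf (ψ a) = orderOf ψ ∧ ∀ b : A, ∃ i : ℕ, ψ b = ψ a ^ i := by
  have hfin : Finite ψ.range := by
    have h1 : Finite (Set.range ψ) := Set.finite_range ψ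
    exact h1
  have hcyc : IsCyclic ψ.range := subgroup_units_cyclic ψ.range
  obtain ⟨⟨u, hu⟩, hgen⟩ := IsCyclic.exists_monoid_generator (α := ψ.range)
  obtain ⟨a, rfl⟩ := hu
  have hpow : ∀ b : A, ∃ i : ℕ, ψ b = ψ a ^ i := by
    intro b
    obtain ⟨i, hi⟩ := Submonoid.mem_powers_iff _ _ |>.1 (hgen ⟨ψ b, ⟨b, rfl⟩⟩)
    refine ⟨i, ?_⟩
    have h1 := congrArg (fun z : ψ.range => (z : ℂˣ)) hi
    simpa using h1.symm
  refine ⟨a, ?_, hpow⟩
  rw [orderOf_eq_orderOf_iff]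
  intro m
  constructor
  · intro h
    refine MonoidHom.ext fun b => ?_
    obtain ⟨i, hi⟩ := hpow b
    rw [MonoidHom.pow_apply, hi, MonoidHom.one_apply, ← pow_mul, mul_comm, pow_mul, h, one_pow]
  · intro h
    have h1 := DFunLike.congr_fun h a
    rwa [MonoidHom.pow_apply, MonoidHom.one_apply] at h1

/-- the image of the kernel of `ψ` in `G` -/
def Nn {G : Type} [Group G] (A : Subgroup G) (ψ : A →* ℂˣ) : Subgroup G :=
  ψ.ker.map A.subtype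

theorem mem_Nn {G : Type} [Group G] (A : Subgroup G) (ψ : A →* ℂˣ) (x : G) :
    x ∈ Nn A ψ ↔ ∃ a : A, (a : G) = x ∧ ψ a = 1 := by
  unfold Nn
  rw [Subgroup.mem_map]
  constructor
  · rintro ⟨a, ha, rfl⟩
    exact ⟨a, rfl, ha⟩
  · rintro ⟨a, rfl, ha⟩
    exact ⟨a, ha, rfl⟩

theorem conjA {G : Type} [Group G] (A : Subgroup G) (ψ : A →* ℂˣ) (x y : G) (hx : x ∈ A)
    (hy : y ∈ Nn A ψ) : x * y * x⁻¹ ∈ Nn A ψ := by
  rw [mem_Nn] at hy ⊢
  obtain ⟨a, rfl, ha⟩ := hy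
  refine ⟨⟨x, hx⟩ * a * ⟨x, hx⟩⁻¹, rfl, ?_⟩
  rw [map_mul, map_mul, map_inv, ha, mul_one, mul_inv_cancel]

theorem normal {G : Type} [Group G] (A : Subgroup G) (ψ : A →* ℂˣ) (g : G) (k t : ℕ)
    (hL : Leaf A ψ g k 1 t) (hall : ∀ x : G, x ∈ A ∨ g⁻¹ * x ∈ A) : (Nn A ψ).Normal := by
  have h1 : ∀ y ∈ Nn A ψ, g⁻¹ * y * g ∈ Nn A ψ := by
    intro y hy
    rw [mem_Nn] at hy ⊢
    obtain ⟨a, rfl, ha⟩ := hy
    refine ⟨⟨g⁻¹ * a * g, hL.norm a a.2⟩, rfl, ?_⟩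
    rw [hL.conj a ⟨g⁻¹ * a * g, hL.norm a a.2⟩ rfl, ha, one_pow]
  have h2 : ∀ y ∈ Nn A ψ, g * y * g⁻¹ ∈ Nn A ψ := by
    intro y hy
    have h3 := conjA A ψ (g * g) (g⁻¹ * y * g) hL.mem (h1 y hy)
    have h4 : g * g * (g⁻¹ * y * g) * (g * g)⁻¹ = g * y * g⁻¹ := by group
    rwa [h4] at h3
  refine ⟨fun y hy x => ?_⟩
  rcases hall x with hx | hx
  · exact conjA A ψ x y hx hy
  · have h3 := h2 _ (conjA A ψ (g⁻¹ * x) y hx hy)
    have h4 : g * (g⁻¹ * x * y * (g⁻¹ * x)⁻¹) * g⁻¹ = x * y * x⁻¹ := by group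
    rwa [h4] at h3

theorem group_part {G H : Type} [Group G] [Group H] [Finite G] (A : Subgroup G) (ψ : A →* ℂˣ)
    (g : G) (k t : ℕ) (hk : 3 ≤ k) (hL : Leaf A ψ g k 1 t)
    (hall : ∀ x : G, x ∈ A ∨ g⁻¹ * x ∈ A) (r : G →* H) (hr : Function.Surjective r)
    (hker : ∀ x : G, r x = 1 ↔ x ∈ Nn A ψ) :
    ∃ (σ γ : H) (ψ₀ : Subgroup.zpowers σ →* ℂˣ),
      DLeaf k t σ γ ∧ Function.Injective ψ₀ ∧ A = (Subgroup.zpowers σ).comap r ∧
      ∀ (a : A) (b : Subgroup.zpowers σ), (b : H) = r (a : G) → ψ a = ψ₀ b := by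
  obtain ⟨a₀, ha₀, hpow⟩ := exists_gen ψ
  rw [hL.ord, mul_one] at ha₀
  have hkerA : ∀ a : A, r (a : G) = 1 ↔ ψ a = 1 := by
    intro a
    rw [hker, mem_Nn]
    constructor
    · rintro ⟨b, hb, hb1⟩
      rwa [Subtype.ext hb] at hb1
    · intro h
      exact ⟨a, rfl, h⟩
  have heq : ∀ a b : A, ψ a = ψ b → r (a : G) = r (b : G) := by
    intro a b h
    have h1 : r ((a * b⁻¹ : A) : G) = 1 := by
      rw [hkerA, map_mul, map_inv, h, mul_inv_cancel]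
    rw [Subgroup.coe_mul, Subgroup.coe_inv, map_mul, map_inv, mul_inv_eq_one] at h1
    exact h1
  have hmem : ∀ (x : G) (a : A), r x = r (a : G) → x ∈ A := by
    intro x a h
    have h1 : r (x * (a : G)⁻¹) = 1 := by rw [map_mul, map_inv, h, mul_inv_cancel]
    rw [hker, mem_Nn] at h1
    obtain ⟨b, hb, -⟩ := h1
    have h2 : x = (b : G) * (a : G) := by rw [hb]; group
    rw [h2]
    exact A.mul_mem b.2 a.2
  have hres : ∀ a : A, ∃ i : ℕ, r (a : G) = r (a₀ : G) ^ i := by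
    intro a
    obtain ⟨i, hi⟩ := hpow a
    refine ⟨i, ?_⟩
    have h1 := heq a (a₀ ^ i) (by rw [hi, map_pow])
    rw [h1, Subgroup.coe_pow, map_pow]
  have hord : orderOf (r (a₀ : G)) = 2 ^ k := by
    rw [← ha₀, orderOf_eq_orderOf_iff]
    intro m
    rw [← map_pow, ← map_pow, ← Subgroup.coe_pow, hkerA]
  have hinv : r g * r g = 1 := by
    rw [← map_mul, hker, mem_Nn]
    exact ⟨⟨g * g, hL.mem⟩, rfl, hL.sq _ rfl⟩
  have hinv' : (r g)⁻¹ = r g := by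
    rw [inv_eq_iff_mul_eq_one]
    exact hinv
  have hconj : r g * r (a₀ : G) = r (a₀ : G) ^ t * r g := by
    have h1 := heq ⟨g⁻¹ * a₀ * g, hL.norm a₀ a₀.2⟩ (a₀ ^ t)
      (by rw [hL.conj a₀ ⟨g⁻¹ * a₀ * g, hL.norm a₀ a₀.2⟩ rfl, map_pow])
    rw [Subgroup.coe_pow, map_pow, map_mul, map_mul, map_inv, hinv'] at h1
    rw [← h1, mul_assoc (r g * r (a₀ : G)), hinv, mul_one]
  have hsc : ∀ i : ℕ, r g * r (a₀ : G) ^ i = r (a₀ : G) ^ (t * i) * r g := by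
    intro i
    have h1 : SemiconjBy (r g) (r (a₀ : G)) (r (a₀ : G) ^ t) := hconj
    have h2 := h1.pow_right i
    rw [pow_mul]
    exact h2
  let σ : H := r (a₀ : G)
  have hin : ∀ a : A, (r.comp A.subtype) a ∈ Subgroup.zpowers σ := by
    intro a
    obtain ⟨i, hi⟩ := hres a
    refine ⟨(i : ℤ), ?_⟩
    change σ ^ (i : ℤ) = r (a : G)
    rw [zpow_natCast, hi]
  let rA : A →* Subgroup.zpowers σ := (r.comp A.subtype).codRestrict (Subgroup.zpowers σ) hin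
  have hrA : Function.Surjective rA := by
    rintro ⟨h, i, rfl⟩
    refine ⟨a₀ ^ i, ?_⟩
    apply Subtype.ext
    change r ((a₀ ^ i : A) : G) = σ ^ i
    rw [Subgroup.coe_zpow, map_zpow]
  have hle : rA.ker ≤ ψ.ker := by
    intro a ha
    have h1 : ((rA a : Subgroup.zpowers σ) : H) = 1 := by
      rw [MonoidHom.mem_ker.1 ha]
      rfl
    exact (hkerA a).1 h1
  let ψ₀ : Subgroup.zpowers σ →* ℂˣ := MonoidHom.liftOfSurjective rA hrA ⟨ψ, hle⟩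
  have hψ₀ : ∀ a : A, ψ₀ (rA a) = ψ a :=
    fun a => MonoidHom.liftOfRightInverse_comp_apply _ _ _ ⟨ψ, hle⟩ a
  refine ⟨σ, r g, ψ₀, ⟨hk, hL.tt, hord, hinv, hconj, ?_⟩, ?_, ?_, ?_⟩
  · intro h
    obtain ⟨x, rfl⟩ := hr h
    rcases hall x with hx | hx
    · obtain ⟨i, hi⟩ := hres ⟨x, hx⟩
      exact ⟨i, Or.inl hi⟩
    · obtain ⟨i, hi⟩ := hres ⟨g⁻¹ * x, hx⟩
      refine ⟨t * i, Or.inr ?_⟩
      have h1 : x = g * (g⁻¹ * x) := by group
      change r x = r (a₀ : G) ^ (t * i) * r g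
      rw [← hsc, ← hi, ← map_mul, ← h1]
  · rw [injective_iff_map_eq_one]
    intro b hb
    obtain ⟨a, rfl⟩ := hrA b
    rw [hψ₀] at hb
    apply Subtype.ext
    exact (hkerA a).2 hb
  · ext x
    rw [Subgroup.mem_comap]
    constructor
    · intro hx
      exact hin ⟨x, hx⟩
    · rintro ⟨i, hi⟩
      refine hmem x (a₀ ^ i) ?_
      rw [Subgroup.coe_zpow, map_zpow]
      exact hi.symm
  · intro a b h
    have h1 : b = rA a := Subtype.ext h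
    rw [h1, hψ₀]

end DFLx

theorem DFL_thm : Stmt_DFL := by
  intro K L _ _ _ _ _ _ A ψ g k t hk hL hall
  have hn : (DFLx.Nn A ψ).Normal := DFLx.normal A ψ g k t hL hall
  let L₀ : IntermediateField K L := IntermediateField.fixedField (DFLx.Nn A ψ)
  have hgal : IsGalois K L₀ := IsGalois.of_fixedField_normal_subgroup (DFLx.Nn A ψ)
  have hfix : L₀.fixingSubgroup = DFLx.Nn A ψ :=
    IntermediateField.fixingSubgroup_fixedField (DFLx.Nn A ψ)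
  have hker : (AlgEquiv.restrictNormalHom L₀ : (L ≃ₐ[K] L) →* (L₀ ≃ₐ[K] L₀)).ker =
      DFLx.Nn A ψ := by
    rw [← hfix]
    exact IntermediateField.restrictNormalHom_ker L₀
  have hsurj : Function.Surjective
      (AlgEquiv.restrictNormalHom L₀ : (L ≃ₐ[K] L) →* (L₀ ≃ₐ[K] L₀)) :=
    AlgEquiv.restrictNormalHom_surjective L
  have hfin : Finite (L ≃ₐ[K] L) := inferInstance
  obtain ⟨σ, γ, ψ₀, h1, h2, h3, h4⟩ := DFLx.group_part A ψ g k t hk hL hall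
    (AlgEquiv.restrictNormalHom L₀ : (L ≃ₐ[K] L) →* (L₀ ≃ₐ[K] L₀)) hsurj
    (fun x => by rw [← hker, MonoidHom.mem_ker])
  exact ⟨L₀, inferInstance, inferInstance, inferInstance, inferInstance, inferInstance, hgal,
    σ, γ, ψ₀, h1, h2, h3, h4⟩

end StarkC.ABS
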