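import Pool.Agent.ABS.StA

/-!
# ABS_GNS: the genus lemma
-/

set_option autoImplicit false

open NumberField NumberField.InfinitePlace
open scoped Classical nonZeroDivisors

namespace ABS

namespace GNS

section

variable {R : Type} [CommRing R] [IsDedekindDomain R]

/-- the image of an ideal under an automorphism -/
noncomputable def im (e : R ≃+* R) (J : (Ideal R)⁰) : (Ideal R)⁰ :=
  ⟨(J : Ideal R).map e, by
    have h : (J : Ideal R) ≠ ⊥ := mem_nonZeroDivisors_iff_ne_zero.1 J.2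
    refine mem_nonZeroDivisors_iff_ne_zero.2 fun h2 => h ?_
    exact (Ideal.map_eq_bot_iff_of_injective e.injective).1 h2⟩

lemma im_mul (e : R ≃+* R) (I J : (Ideal R)⁰) : im e (I * J) = im e I * im e J := by
  apply Subtype.ext
  exact Ideal.map_mul (e : R →+* R) _ _

lemma mk0_im (e : R ≃+* R) {I J : (Ideal R)⁰} (h : ClassGroup.mk0 I = ClassGroup.mk0 J) :
    ClassGroup.mk0 (im e I) = ClassGroup.mk0 (im e J) := by
  obtain ⟨x, y, hx, hy, hxy⟩ := (ClassGroup.mk0_eq_mk0_iff (R := R)).1 h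
  refine (ClassGroup.mk0_eq_mk0_iff (R := R)).2 ⟨e x, e y, ?_, ?_, ?_⟩
  · simpa using hx
  · simpa using hy
  · have h2 := congrArg (Ideal.map (e : R →+* R)) hxy
    rw [Ideal.map_mul, Ideal.map_mul, Ideal.map_span, Ideal.map_span, Set.image_singleton,
      Set.image_singleton] at h2
    exact h2

/-- the endomorphism `c ↦ e(c) / c` -/
noncomputable def ph (e : R ≃+* R) : ClassGroup R →* ClassGroup R :=
  MonoidHom.mk' (fun c => ClassGroup.mk0 (im e (ClassGroup.mk0_surjective c).choose) * c⁻¹) <| by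
    intro c d
    have hc := (ClassGroup.mk0_surjective c).choose_spec
    have hd := (ClassGroup.mk0_surjective d).choose_spec
    have hcd := (ClassGroup.mk0_surjective (c * d)).choose_spec
    have h1 : ClassGroup.mk0 (im e (ClassGroup.mk0_surjective (c * d)).choose) =
        ClassGroup.mk0 (im e (ClassGroup.mk0_surjective c).choose) *
          ClassGroup.mk0 (im e (ClassGroup.mk0_surjective d).choose) := by
      rw [← map_mul, ← im_mul]
      apply mk0_im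
      rw [hcd, map_mul, hc, hd]
    show ClassGroup.mk0 (im e (ClassGroup.mk0_surjective (c * d)).choose) * (c * d)⁻¹ =
      ClassGroup.mk0 (im e (ClassGroup.mk0_surjective c).choose) * c⁻¹ *
        (ClassGroup.mk0 (im e (ClassGroup.mk0_surjective d).choose) * d⁻¹)
    rw [h1, mul_inv]
    exact mul_mul_mul_comm _ _ _ _

lemma ph_mk0 (e : R ≃+* R) (J : (Ideal R)⁰) :
    ph e (ClassGroup.mk0 J) = ClassGroup.mk0 (im e J) * (ClassGroup.mk0 J)⁻¹ := by
  have h := (ClassGroup.mk0_surjective (ClassGroup.mk0 J)).choose_spec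
  show ClassGroup.mk0 (im e (ClassGroup.mk0_surjective (ClassGroup.mk0 J)).choose) *
    (ClassGroup.mk0 J)⁻¹ = _
  rw [mk0_im e h]

end

lemma absNorm_im {E : Type} [Field E] [NumberField E] (e : 𝓞 E ≃+* 𝓞 E) (J : Ideal (𝓞 E)) :
    Ideal.absNorm (J.map e) = Ideal.absNorm J := by
  rw [Ideal.absNorm_apply, Ideal.absNorm_apply, Submodule.cardQuot_apply,
    Submodule.cardQuot_apply]
  exact (Nat.card_congr (Ideal.quotientEquiv J (J.map e) e rfl).toEquiv).symm

lemma cyce (l k : ℕ) (hpos : 0 < l ^ k) :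
    IsCyclotomicExtension {l ^ k} ℚ (CyclotomicField (l ^ k) ℚ) := by
  have : NeZero (l ^ k) := ⟨hpos.ne'⟩
  have : NeZero ((l ^ k : ℕ) : ℚ) := ⟨by exact_mod_cast hpos.ne'⟩
  have h := CyclotomicField.isCyclotomicExtension (l ^ k) ℚ
  convert h
  · rfl
  · exact Subsingleton.elim _ _

/-- the Galois group is cyclic -/
lemma cyc (l k : ℕ) (h : Ok l k) (h2 : l = 2 → k = 2) :
    ∃ g : CyclotomicField (l ^ k) ℚ ≃ₐ[ℚ] CyclotomicField (l ^ k) ℚ,
      ∀ h, h ∈ Subgroup.zpowers g := by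
  obtain ⟨hl, hk, hn⟩ := h
  have hpos : 0 < l ^ k := by omega
  have : NeZero (l ^ k) := ⟨hpos.ne'⟩
  have := cyce l k hpos
  have hc : IsCyclic (ZMod (l ^ k))ˣ := by
    by_cases hl2 : l = 2
    · subst hl2
      rw [h2 rfl]
      exact ZMod.isCyclic_units_four
    · exact ZMod.isCyclic_units_of_prime_pow l hl hl2 k
  have e := IsCyclotomicExtension.autEquivPow (CyclotomicField (l ^ k) ℚ)
    (Polynomial.cyclotomic.irreducible_rat hpos)
  obtain ⟨g, hg⟩ := hc.exists_generator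
  refine ⟨e.symm g, fun h => ?_⟩
  obtain ⟨i, hi⟩ := Subgroup.mem_zpowers_iff.1 (hg (e h))
  refine Subgroup.mem_zpowers_iff.2 ⟨i, ?_⟩
  rw [← map_zpow, hi, MulEquiv.symm_apply_apply]

end GNS

open GNS in
/-- The case of a cyclic Galois group. -/
theorem GNSC_thm : Stmt_HIL → Stmt_GIN → Stmt_POS → ∀ (l k : ℕ), Ok l k → (l = 2 → k = 2) →
    ∀ I : Ideal (𝓞 (CyclotomicField (l ^ k) ℚ)), I ≠ ⊥ → IsNrm (l ^ k) (Ideal.absNorm I) := by
  intro hHIL hGIN hPOS l k hok hc I hI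
  obtain ⟨g, hg⟩ := cyc l k hok hc
  set E := CyclotomicField (l ^ k) ℚ with hE
  have : NeZero (l ^ k) := ⟨by have := hok.2.2; omega⟩
  set e : 𝓞 E ≃+* 𝓞 E := RingOfIntegers.mapRingEquiv (g : E ≃+* E) with he
  have hinj : Function.Injective (ph e) := by
    rw [injective_iff_map_eq_one]
    intro c hc
    obtain ⟨J, rfl⟩ := ClassGroup.mk0_surjective c
    rw [ph_mk0, mul_inv_eq_one] at hc
    obtain ⟨x, y, hx, hy, hxy⟩ := (ClassGroup.mk0_eq_mk0_iff (R := 𝓞 E)).1 hc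
    have hJ : (J : Ideal (𝓞 E)) ≠ ⊥ := mem_nonZeroDivisors_iff_ne_zero.1 J.2
    obtain ⟨c, hc⟩ := hHIL hGIN hPOS l k hok g hg (J : Ideal (𝓞 E)) (im e J : Ideal (𝓞 E)) x y hJ
      hx hy (by
        intro u v huv
        have h1 : v = e u := by
          apply RingOfIntegers.ext
          rw [huv]
          rfl
        rw [h1]
        exact (Ideal.apply_mem_of_equiv_iff (f := e)).symm) hxy
    have h3 : ClassGroup.mk0 (⟨(J : Ideal (𝓞 E)), J.2⟩ : (Ideal (𝓞 E))⁰) = 1 := by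
      rw [ClassGroup.mk0_eq_one_iff, hc]
      exact ⟨c, rfl⟩
    exact h3
  have hsurj : Function.Surjective (ph e) := Finite.injective_iff_surjective.1 hinj
  have hI0 : I ∈ (Ideal (𝓞 E))⁰ := mem_nonZeroDivisors_iff_ne_zero.2 hI
  obtain ⟨c, hc⟩ := hsurj (ClassGroup.mk0 ⟨I, hI0⟩)
  obtain ⟨J, rfl⟩ := ClassGroup.mk0_surjective c
  rw [ph_mk0, mul_inv_eq_iff_eq_mul, ← map_mul] at hc
  obtain ⟨x, y, hx, hy, hxy⟩ := (ClassGroup.mk0_eq_mk0_iff (R := 𝓞 E)).1 hc
  have h1 := congrArg Ideal.absNorm hxy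
  rw [map_mul, map_mul, Ideal.absNorm_span_singleton, Ideal.absNorm_span_singleton,
    Submonoid.coe_mul, map_mul] at h1
  have h2 : Ideal.absNorm ((im e J : (Ideal (𝓞 E))⁰) : Ideal (𝓞 E)) =
      Ideal.absNorm (J : Ideal (𝓞 E)) := absNorm_im e _
  rw [h2] at h1
  have hJ : (J : Ideal (𝓞 E)) ≠ ⊥ := mem_nonZeroDivisors_iff_ne_zero.1 J.2
  have hJ0 : Ideal.absNorm (J : Ideal (𝓞 E)) ≠ 0 := by
    rw [Ne, Ideal.absNorm_eq_zero_iff]
    exact hJ
  have hcoe : ∀ z : 𝓞 E, z ≠ 0 →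
      (((Algebra.norm ℤ z).natAbs : ℕ) : ℚ) = Algebra.norm ℚ (z : E) := by
    intro z hz
    have hz' : (z : E) ≠ 0 := by simpa using hz
    have h4 := hPOS l k hok.1 hok.2.2 (z : E) hz'
    rw [← Algebra.coe_norm_int] at h4 ⊢
    have h5 : 0 < Algebra.norm ℤ z := by exact_mod_cast h4
    rw [← Int.cast_natCast, Int.natAbs_of_nonneg h5.le]
  have hx' : (x : E) ≠ 0 := by simpa using hx
  have hy' : (y : E) ≠ 0 := by simpa using hy
  refine ⟨(x : E) / (y : E), div_ne_zero hx' hy', ?_⟩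
  have hy0 : Algebra.norm ℚ (y : E) ≠ 0 := (hPOS l k hok.1 hok.2.2 (y : E) hy').ne'
  have h7 : Algebra.norm ℚ ((x : E) / (y : E)) * Algebra.norm ℚ (y : E) =
      Algebra.norm ℚ (x : E) := by
    rw [← map_mul, div_mul_cancel₀ _ hy']
  apply mul_right_cancel₀ hy0
  rw [h7, ← hcoe x hx, ← hcoe y hy]
  have h6 : ((Algebra.norm ℤ x).natAbs : ℚ) * Ideal.absNorm (J : Ideal (𝓞 E)) =
      (Algebra.norm ℤ y).natAbs * ((Ideal.absNorm I : ℚ) * Ideal.absNorm (J : Ideal (𝓞 E))) := by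
    exact_mod_cast h1
  have hJ1 : ((Ideal.absNorm (J : Ideal (𝓞 E)) : ℕ) : ℚ) ≠ 0 := by exact_mod_cast hJ0
  apply mul_right_cancel₀ hJ1
  rw [h6]
  ring

end ABS
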