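import Pool.Agent.ABS.StD2
import Pool.Agent.ABS.GNS

/-!
# ABS_DGE: the genus lemma for `E`, signs included
-/

set_option autoImplicit false

open NumberField NumberField.InfinitePlace
open scoped Classical nonZeroDivisors

namespace ABS

namespace DGE

/-- the absolute value of a norm from `𝓞 E` -/
lemma natAbs_norm {E : Type} [Field E] [NumberField E] (z : 𝓞 E) :
    (((Algebra.norm ℤ z).natAbs : ℕ) : ℚ) = |Algebra.norm ℚ (z : E)| := by
  rw [← Algebra.coe_norm_int, Nat.cast_natAbs, Int.cast_abs]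

/-- the absolute value of a norm is a norm -/
lemma sgn {E : Type} [Field E] [NumberField E] {g : E ≃ₐ[ℚ] E} (hg : GE E g) {q : ℚ}
    {α : E} (hα : α ≠ 0) (h : |Algebra.norm ℚ α| = q) : NoF E q := by
  rcases abs_cases (Algebra.norm ℚ α) with ⟨h1, h2⟩ | ⟨h1, h2⟩
  · exact ⟨α, hα, by rw [← h, h1]⟩
  · rcases hg.sgn with ⟨u, hu⟩ | hpos
    · refine ⟨((u : 𝓞 E) : E) * α, mul_ne_zero ?_ hα, ?_⟩
      · intro h3
        rw [h3] at hu
        have : (Algebra.norm ℚ (0 : E)) = 0 := Algebra.norm_zero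
        rw [this] at hu
        norm_num at hu
      · rw [map_mul, hu, ← h, h1]
        ring
    · exact absurd (hpos α hα) (not_lt.2 h2.le)

open GNS in
/-- the norm of an ideal is the norm of an element -/
lemma ideal (hDHI : Stmt_DHI) (E : Type) [Field E] [NumberField E] (g : E ≃ₐ[ℚ] E)
    (hg : GE E g) (I : Ideal (𝓞 E)) (hI : I ≠ ⊥) : NoF E (Ideal.absNorm I) := by
  set e : 𝓞 E ≃+* 𝓞 E := RingOfIntegers.mapRingEquiv (g : E ≃+* E) with he
  have hinj : Function.Injective (ph e) := by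
    rw [injective_iff_map_eq_one]
    intro c hc
    obtain ⟨J, rfl⟩ := ClassGroup.mk0_surjective c
    rw [ph_mk0, mul_inv_eq_one] at hc
    obtain ⟨x, y, hx, hy, hxy⟩ := (ClassGroup.mk0_eq_mk0_iff (R := 𝓞 E)).1 hc
    have hJ : (J : Ideal (𝓞 E)) ≠ ⊥ := mem_nonZeroDivisors_iff_ne_zero.1 J.2
    obtain ⟨c, hc⟩ := hDHI E g hg (J : Ideal (𝓞 E)) (im e J : Ideal (𝓞 E)) x y hJ
      hx hy (by
        intro u v huv
        have h1 : v = e u := by
          apply RingOfIntegers.ext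
          rw [huv]
          rfl
        rw [h1]
        exact (Ideal.apply_mem_of_equiv_iff (f := e)).symm) hxy
    have h3 : ClassGroup.mk0 (⟨(J : Ideal (𝓞 E)), J.2⟩ : (Ideal (𝓞 E))⁰) = 1 := by
      rw [ClassGroup.mk0_eq_one_iff, hc]
      exact ⟨c, rfl⟩
    exact h3
  have hsurj : Function.Surjective (ph e) := Finite.injective_iff_surjective.1 hinj
  have hI0 : I ∈ (Ideal (𝓞 E))⁰ := mem_nonZeroDivisors_iff_ne_zero.2 hI
  obtain ⟨c, hc⟩ := hsurj (ClassGroup.mk0 ⟨I, hI0⟩)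
  obtain ⟨J, rfl⟩ := ClassGroup.mk0_surjective c
  rw [ph_mk0, mul_inv_eq_iff_eq_mul, ← map_mul] at hc
  obtain ⟨x, y, hx, hy, hxy⟩ := (ClassGroup.mk0_eq_mk0_iff (R := 𝓞 E)).1 hc
  have h1 := congrArg Ideal.absNorm hxy
  rw [map_mul, map_mul, Ideal.absNorm_span_singleton, Ideal.absNorm_span_singleton,
    Submonoid.coe_mul, map_mul] at h1
  have h2 : Ideal.absNorm ((im e J : (Ideal (𝓞 E))⁰) : Ideal (𝓞 E)) =
      Ideal.absNorm (J : Ideal (𝓞 E)) := absNorm_im e _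
  rw [h2] at h1
  have hJ : (J : Ideal (𝓞 E)) ≠ ⊥ := mem_nonZeroDivisors_iff_ne_zero.1 J.2
  have hJ0 : Ideal.absNorm (J : Ideal (𝓞 E)) ≠ 0 := by
    rw [Ne, Ideal.absNorm_eq_zero_iff]
    exact hJ
  have hx' : (x : E) ≠ 0 := by simpa using hx
  have hy' : (y : E) ≠ 0 := by simpa using hy
  refine sgn hg (div_ne_zero hx' hy') ?_
  have hy0 : |Algebra.norm ℚ (y : E)| ≠ 0 :=
    abs_ne_zero.2 fun h => hy' (Algebra.norm_eq_zero_iff.1 h)
  have h7 : |Algebra.norm ℚ ((x : E) / (y : E))| * |Algebra.norm ℚ (y : E)| =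
      |Algebra.norm ℚ (x : E)| := by
    rw [← abs_mul, ← map_mul, div_mul_cancel₀ _ hy']
  apply mul_right_cancel₀ hy0
  rw [h7, ← natAbs_norm x, ← natAbs_norm y]
  have h6 : ((Algebra.norm ℤ x).natAbs : ℚ) * Ideal.absNorm (J : Ideal (𝓞 E)) =
      (Algebra.norm ℤ y).natAbs * ((Ideal.absNorm I : ℚ) * Ideal.absNorm (J : Ideal (𝓞 E))) := by
    exact_mod_cast h1
  have hJ1 : ((Ideal.absNorm (J : Ideal (𝓞 E)) : ℕ) : ℚ) ≠ 0 := by exact_mod_cast hJ0
  apply mul_right_cancel₀ hJ1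
  rw [h6]
  ring

/-- quotients -/
lemma quot {E : Type} [Field E] [NumberField E] {a b : ℚ} (ha : NoF E a) (hb : NoF E b) :
    NoF E (a / b) := by
  obtain ⟨x, hx, rfl⟩ := ha
  obtain ⟨y, hy, rfl⟩ := hb
  have hy0 : Algebra.norm ℚ y ≠ 0 := fun h => hy (Algebra.norm_eq_zero_iff.1 h)
  refine ⟨x / y, div_ne_zero hx hy, ?_⟩
  rw [eq_div_iff hy0, ← map_mul, div_mul_cancel₀ _ hy]

end DGE

theorem DGE_thm : Stmt_DGE := by
  intro hDHI E _ _ g hg q hq
  obtain ⟨I, J, hI, hJ, rfl⟩ := hq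
  exact DGE.quot (DGE.ideal hDHI E g hg I hI) (DGE.ideal hDHI E g hg J hJ)

end ABS
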