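import Pool.Agent.ABS.StA

/-!
# ABS, module GIN (helper20): stable ideals of `ℚ(ζ_n)`, `n = l ^ k`, are principal
-/

open NumberField NumberField.InfinitePlace

namespace ABS

namespace GIN

open Ideal UniqueFactorizationMonoid

variable {E : Type} [Field E] [NumberField E]

lemma coe_act (g : E ≃ₐ[ℚ] E) (x : 𝓞 E) : ((g • x : 𝓞 E) : E) = g (x : E) := rfl

lemma act_mem {J : Ideal (𝓞 E)} (h : Sta J) (g : E ≃ₐ[ℚ] E) {x : 𝓞 E} (hx : x ∈ J) :
    g • x ∈ J := h g x _ hx (coe_act g x)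

/-- division by a generator of a stable ideal -/
lemma step {J J' : Ideal (𝓞 E)} {c : 𝓞 E} (hc : c ≠ 0) (hJ : J = span {c} * J') (h : Sta J)
    (hg : ∀ g : E ≃ₐ[ℚ] E, span {g • c} = (span {c} : Ideal (𝓞 E))) : Sta J' := by
  intro g x y hx hy
  have hy' : y = g • x := by
    apply RingOfIntegers.ext
    rw [coe_act]
    exact hy
  have h1 : c * x ∈ J := by
    rw [hJ]
    exact mem_span_singleton_mul.2 ⟨x, hx, rfl⟩
  have h2 := act_mem h g h1
  rw [smul_mul', ← hy', hJ, ← hg g] at h2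
  obtain ⟨z, hz, hz'⟩ := mem_span_singleton_mul.1 h2
  have hgc : g • c ≠ 0 := by
    intro h0
    apply hc
    have h3 := congrArg (fun t => g⁻¹ • t) h0
    simpa using h3
  have h4 := mul_left_cancel₀ hgc hz'
  rw [← h4]
  exact hz

omit [NumberField E] in
/-- a prime ideal lies over a prime number -/
lemma exover (P : Ideal (𝓞 E)) [P.IsPrime] (hP : P ≠ ⊥) :
    ∃ p : ℕ, p.Prime ∧ P.LiesOver (span {(p : ℤ)}) := by
  have h1 : (P.under ℤ) ≠ ⊥ := by
    intro h
    exact hP (Ideal.eq_bot_of_comap_eq_bot h)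
  obtain ⟨a, ha⟩ := IsPrincipalIdealRing.principal (P.under ℤ)
  have ha' : P.under ℤ = span {a} := ha
  have ha0 : a ≠ 0 := by
    rintro rfl
    apply h1
    rw [ha', span_singleton_eq_bot]
  have h2 : (span {a} : Ideal ℤ).IsPrime := by
    rw [← ha']
    infer_instance
  have h3 := (span_singleton_prime ha0).1 h2
  refine ⟨a.natAbs, Int.prime_iff_natAbs_prime.1 h3, ⟨?_⟩⟩
  rw [Int.span_natAbs, ha']

end GIN

open GIN Ideal UniqueFactorizationMonoid in
theorem GIN_thm : Stmt_GIN := by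
  classical
  intro l k hl hk
  obtain ⟨k, rfl⟩ : ∃ k', k = k' + 1 := ⟨k - 1, by omega⟩
  have : Fact l.Prime := ⟨hl⟩
  have : NeZero (l ^ (k + 1)) := ⟨pow_ne_zero _ hl.ne_zero⟩
  have hcy : IsCyclotomicExtension {l ^ (k + 1)} ℚ (CyclotomicField (l ^ (k + 1)) ℚ) :=
    CyclotomicField.isCyclotomicExtension _ _
  have : IsGalois ℚ (CyclotomicField (l ^ (k + 1)) ℚ) :=
    IsCyclotomicExtension.isGalois {l ^ (k + 1)} ℚ _
  intro J hJ hst
  induction hn : absNorm J using Nat.strong_induction_on generalizing J with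
  | _ n ih =>
  by_cases hT : J = ⊤
  · exact ⟨1, by rw [hT, span_singleton_one]⟩
  obtain ⟨P, hPm, hJP⟩ := Ideal.exists_le_maximal J hT
  have hPp : P.IsPrime := hPm.isPrime
  have hP0 : P ≠ ⊥ := fun h => hJ (le_bot_iff.1 (h ▸ hJP))
  obtain ⟨p, hp, hover⟩ := exover P hP0
  -- it is enough to find `c`
  suffices H : ∃ c : 𝓞 (CyclotomicField (l ^ (k + 1)) ℚ), c ≠ 0 ∧ span {c} ≠ (⊤ : Ideal _) ∧
      span {c} ∣ J ∧ ∀ g : CyclotomicField (l ^ (k + 1)) ℚ ≃ₐ[ℚ] CyclotomicField (l ^ (k + 1)) ℚ,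
        span {g • c} = (span {c} : Ideal _) by
    obtain ⟨c, hc0, hc1, ⟨J', hJ'⟩, hcg⟩ := H
    have hJ'0 : J' ≠ ⊥ := by
      rintro rfl
      apply hJ
      rw [hJ', Ideal.mul_bot]
    have h1 : absNorm J = absNorm (span {c}) * absNorm J' := by rw [hJ', map_mul]
    have h2 : absNorm (span {c}) ≠ 1 := fun h => hc1 (absNorm_eq_one_iff.1 h)
    have h3 : absNorm (span {c}) ≠ 0 := fun h => by
      rw [absNorm_eq_zero_iff, span_singleton_eq_bot] at h
      exact hc0 h
    have h4 : absNorm J' ≠ 0 := fun h => hJ'0 (absNorm_eq_zero_iff.1 h)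
    have h5 : absNorm J' < n := by
      rw [← hn, h1]
      have h6 : 2 ≤ absNorm (span {c}) := by omega
      have h7 : 1 ≤ absNorm J' := by omega
      nlinarith
    obtain ⟨a, ha⟩ := ih _ h5 J' hJ'0 (step hc0 hJ' hst hcg) rfl
    exact ⟨c * a, by rw [hJ', ha, span_singleton_mul_span_singleton]⟩
  by_cases hpl : p = l
  · subst hpl
    have hζ := IsCyclotomicExtension.zeta_spec (p ^ (k + 1)) ℚ (CyclotomicField (p ^ (k + 1)) ℚ)
    have hP := IsCyclotomicExtension.Rat.eq_span_zeta_sub_one_of_liesOver p k _ hζ P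
    refine ⟨hζ.toInteger - 1, ?_, ?_, ?_, ?_⟩
    · intro h
      rw [h, span_singleton_eq_bot.2 rfl] at hP
      exact hP0 hP
    · rw [← hP]
      exact hPp.ne_top
    · rw [← hP]
      exact Ideal.dvd_iff_le.2 hJP
    · intro g
      have hζ' : IsPrimitiveRoot (g (IsCyclotomicExtension.zeta (p ^ (k + 1)) ℚ
          (CyclotomicField (p ^ (k + 1)) ℚ))) (p ^ (k + 1)) := hζ.map_of_injective g.injective
      have hP' := IsCyclotomicExtension.Rat.eq_span_zeta_sub_one_of_liesOver p k _ hζ' P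
      rw [← hP]
      rw [hP']
      congr 2
      apply RingOfIntegers.ext
      rw [coe_act]
      simp
  · have hpn : ¬ p ∣ l ^ (k + 1) := fun h =>
      hpl ((Nat.prime_dvd_prime_iff_eq hp hl).1 (hp.dvd_of_dvd_pow h))
    have : Fact p.Prime := ⟨hp⟩
    have hpZ : (span {(p : ℤ)} : Ideal ℤ) ≠ ⊥ := by
      rw [ne_eq, span_singleton_eq_bot]
      exact_mod_cast hp.ne_zero
    have hmax : (span {(p : ℤ)} : Ideal ℤ).IsMaximal := Int.ideal_span_isMaximal_of_prime p
    have hmap : (span {(p : ℤ)} : Ideal ℤ).map (algebraMap ℤ (𝓞 (CyclotomicField (l ^ (k + 1)) ℚ)))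
        = span {(p : 𝓞 (CyclotomicField (l ^ (k + 1)) ℚ))} := by
      rw [Ideal.map_span, Set.image_singleton, map_natCast]
    have hT0 : (span {(p : ℤ)} : Ideal ℤ).map
        (algebraMap ℤ (𝓞 (CyclotomicField (l ^ (k + 1)) ℚ))) ≠ ⊥ := map_ne_bot_of_ne_bot hpZ
    refine ⟨(p : 𝓞 (CyclotomicField (l ^ (k + 1)) ℚ)), ?_, ?_, ?_, ?_⟩
    · exact_mod_cast hp.ne_zero
    · rw [← hmap]
      intro h
      have h1 : (span {(p : ℤ)} : Ideal ℤ).map
          (algebraMap ℤ (𝓞 (CyclotomicField (l ^ (k + 1)) ℚ))) ≤ P :=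
        map_le_of_le_comap (P.over_def (span {(p : ℤ)})).le
      rw [h] at h1
      exact hPp.ne_top (top_le_iff.1 h1)
    · rw [← hmap, dvd_iff_normalizedFactors_le_normalizedFactors hT0 hJ, Multiset.le_iff_subset]
      · intro Q hQ
        rw [← mem_primesOver_iff_mem_normalizedFactors _ hpZ] at hQ
        obtain ⟨hQ1, hQ2⟩ := hQ
        obtain ⟨g, hg⟩ := exists_smul_eq_of_isGaloisGroup (span {(p : ℤ)}) P Q
          (CyclotomicField (l ^ (k + 1)) ℚ ≃ₐ[ℚ] CyclotomicField (l ^ (k + 1)) ℚ)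
        rw [Ideal.mem_normalizedFactors_iff hJ]
        refine ⟨hQ1, fun x hx => ?_⟩
        rw [← hg, Ideal.mem_pointwise_smul_iff_inv_smul_mem]
        exact hJP (act_mem hst g⁻¹ hx)
      · rw [Multiset.nodup_iff_count_le_one]
        intro Q
        by_cases hQ : Q ∈ normalizedFactors ((span {(p : ℤ)} : Ideal ℤ).map
          (algebraMap ℤ (𝓞 (CyclotomicField (l ^ (k + 1)) ℚ))))
        · have hQ' := hQ
          rw [← mem_primesOver_iff_mem_normalizedFactors _ hpZ] at hQ'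
          obtain ⟨hQ1, hQ2⟩ := hQ'
          rw [← IsDedekindDomain.ramificationIdx_eq_normalizedFactors_count _ _ hT0,
            IsCyclotomicExtension.Rat.ramificationIdx_eq_of_not_dvd (m := l ^ (k + 1)) p _ Q hpn]
        · rw [Multiset.count_eq_zero_of_notMem hQ]
          exact Nat.zero_le _
    · intro g
      congr 2
      apply RingOfIntegers.ext
      rw [coe_act]
      simp

end ABS
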