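import Pool.Agent.ABS.StD2
import Pool.Agent.ABS.GIN

/-!
# ABS, part D, module DGI (helper29): stable ideals of `ℚ(ζ_n)^τ`, `n = 2 ^ k`, are principal

Modified copy of `ABS/GIN.lean` (helper20).
-/

open NumberField NumberField.InfinitePlace
open scoped Classical

namespace ABS

namespace DGI

open GIN Ideal UniqueFactorizationMonoid
open scoped Pointwise

variable {E : Type} [Field E] [NumberField E]

/-- A generator of the only prime above `2` generates a stable ideal. -/
lemma smul_gen {π : 𝓞 E}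
    (hπ : ∀ P : Ideal (𝓞 E), P.IsPrime → P.LiesOver (span {(2 : ℤ)}) → P = span {π})
    (P : Ideal (𝓞 E)) [P.IsPrime] [P.LiesOver (span {(2 : ℤ)})] (g : E ≃ₐ[ℚ] E) :
    span {g • π} = (span {π} : Ideal (𝓞 E)) := by
  have h1 : P = span {π} := hπ P inferInstance inferInstance
  have h2 : g • P = span {π} := hπ (g • P) inferInstance inferInstance
  have h3 : g • P = span {g • π} := by
    rw [h1, Ideal.pointwise_smul_def, Ideal.map_span, Set.image_singleton]
    rfl
  rw [← h3, h2]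

theorem main [IsGalois ℚ E] (π : 𝓞 E)
    (hπ : ∀ P : Ideal (𝓞 E), P.IsPrime → P.LiesOver (span {(2 : ℤ)}) → P = span {π})
    (hur : ∀ p : ℕ, p.Prime → p ≠ 2 → (normalizedFactors (span {(p : 𝓞 E)})).Nodup) :
    ∀ J : Ideal (𝓞 E), J ≠ ⊥ → Sta J → ∃ a, J = span {a} := by
  intro J hJ hst
  induction hn : absNorm J using Nat.strong_induction_on generalizing J with
  | _ n ih =>
  by_cases hT : J = ⊤
  · exact ⟨1, by rw [hT, span_singleton_one]⟩
  obtain ⟨P, hPm, hJP⟩ := Ideal.exists_le_maximal J hT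
  have hPp : P.IsPrime := hPm.isPrime
  have hP0 : P ≠ ⊥ := fun h => hJ (le_bot_iff.1 (h ▸ hJP))
  obtain ⟨p, hp, hover⟩ := exover P hP0
  -- it is enough to find `c`
  suffices H : ∃ c : 𝓞 E, c ≠ 0 ∧ span {c} ≠ (⊤ : Ideal _) ∧
      span {c} ∣ J ∧ ∀ g : E ≃ₐ[ℚ] E, span {g • c} = (span {c} : Ideal _) by
    obtain ⟨c, hc0, hc1, ⟨J', hJ'⟩, hcg⟩ := H
    have hJ'0 : J' ≠ ⊥ := by
      rintro rfl
      apply hJ
      rw [hJ', Ideal.mul_bot]
    have h1 : absNorm J = absNorm (span {c}) * absNorm J' := by rw [hJ', map_mul]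
    have h2 : absNorm (span {c}) ≠ 1 := fun h => hc1 (absNorm_eq_one_iff.1 h)
    have h3 : absNorm (span {c}) ≠ 0 := fun h => by
      rw [absNorm_eq_zero_iff, span_singleton_eq_bot] at h
      exact hc0 h
    have h4 : absNorm J' ≠ 0 := fun h => hJ'0 (absNorm_eq_zero_iff.1 h)
    have h5 : absNorm J' < n := by
      rw [← hn, h1]
      have h6 : 2 ≤ absNorm (span {c}) := by omega
      have h7 : 1 ≤ absNorm J' := by omega
      nlinarith
    obtain ⟨a, ha⟩ := ih _ h5 J' hJ'0 (step hc0 hJ' hst hcg) rfl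
    exact ⟨c * a, by rw [hJ', ha, span_singleton_mul_span_singleton]⟩
  by_cases hpl : p = 2
  · subst hpl
    have hover' : P.LiesOver (span {(2 : ℤ)}) := by
      have h := hover
      rwa [Nat.cast_ofNat] at h
    have hP : P = span {π} := hπ P hPp hover'
    refine ⟨π, ?_, ?_, ?_, fun g => smul_gen hπ P g⟩
    · intro h
      rw [h, span_singleton_eq_bot.2 rfl] at hP
      exact hP0 hP
    · rw [← hP]
      exact hPp.ne_top
    · rw [← hP]
      exact Ideal.dvd_iff_le.2 hJP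
  · have : Fact p.Prime := ⟨hp⟩
    have hpZ : (span {(p : ℤ)} : Ideal ℤ) ≠ ⊥ := by
      rw [ne_eq, span_singleton_eq_bot]
      exact_mod_cast hp.ne_zero
    have hmax : (span {(p : ℤ)} : Ideal ℤ).IsMaximal := Int.ideal_span_isMaximal_of_prime p
    have hmap : (span {(p : ℤ)} : Ideal ℤ).map (algebraMap ℤ (𝓞 E)) = span {(p : 𝓞 E)} := by
      rw [Ideal.map_span, Set.image_singleton, map_natCast]
    have hT0 : (span {(p : ℤ)} : Ideal ℤ).map (algebraMap ℤ (𝓞 E)) ≠ ⊥ :=
      map_ne_bot_of_ne_bot hpZ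
    refine ⟨(p : 𝓞 E), ?_, ?_, ?_, ?_⟩
    · exact_mod_cast hp.ne_zero
    · rw [← hmap]
      intro h
      have h1 : (span {(p : ℤ)} : Ideal ℤ).map (algebraMap ℤ (𝓞 E)) ≤ P :=
        map_le_of_le_comap (P.over_def (span {(p : ℤ)})).le
      rw [h] at h1
      exact hPp.ne_top (top_le_iff.1 h1)
    · rw [← hmap, dvd_iff_normalizedFactors_le_normalizedFactors hT0 hJ, Multiset.le_iff_subset]
      · intro Q hQ
        rw [← mem_primesOver_iff_mem_normalizedFactors _ hpZ] at hQ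
        obtain ⟨hQ1, hQ2⟩ := hQ
        obtain ⟨g, hg⟩ := exists_smul_eq_of_isGaloisGroup (span {(p : ℤ)}) P Q (E ≃ₐ[ℚ] E)
        rw [Ideal.mem_normalizedFactors_iff hJ]
        refine ⟨hQ1, fun x hx => ?_⟩
        rw [← hg, Ideal.mem_pointwise_smul_iff_inv_smul_mem]
        exact hJP (act_mem hst g⁻¹ hx)
      · rw [hmap]
        exact hur p hp hpl
    · intro g
      congr 2
      apply RingOfIntegers.ext
      rw [coe_act]
      simp

end DGI

/-- **DGI**: stable ideals of `E` are principal. -/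
theorem DGI_thm : Stmt_DGI := by
  intro hFG hPR hUR k t E _ _ _ τ hτ J hJ hst
  obtain ⟨hG, -⟩ := hFG k t E τ hτ
  obtain ⟨π, -, hπ⟩ := hPR k t E τ hτ
  exact DGI.main π hπ (hUR k t E τ hτ) J hJ hst

end ABS
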