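import Pool.Agent.ABS.StA

/-!
# ABS_HIL: Hilbert 90 for ideals of `ℚ(ζ_n)`
-/

open NumberField

namespace ABS

namespace HIL

variable {E : Type} [Field E] [NumberField E]

/-- the automorphism of the ring of integers -/
noncomputable def ga (g : E ≃ₐ[ℚ] E) : 𝓞 E ≃+* 𝓞 E :=
  RingOfIntegers.mapRingEquiv g.toRingEquiv

lemma ga_coe (g : E ≃ₐ[ℚ] E) (x : 𝓞 E) : ((ga g x : 𝓞 E) : E) = g (x : E) := rfl

lemma map_eq (g : E ≃ₐ[ℚ] E) (J J' : Ideal (𝓞 E))
    (h : ∀ x y : 𝓞 E, (y : E) = g (x : E) → (x ∈ J ↔ y ∈ J')) :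
    J' = J.map (ga g : 𝓞 E →+* 𝓞 E) := by
  ext y
  constructor
  · intro hy
    have h1 : ga g ((ga g).symm y) = y := (ga g).apply_symm_apply y
    rw [← h1]
    refine Ideal.mem_map_of_mem (ga g : 𝓞 E →+* 𝓞 E) ((h _ y ?_).2 hy)
    rw [← ga_coe, h1]
  · intro hy
    obtain ⟨x, hx, rfl⟩ := (Ideal.mem_map_iff_of_surjective (ga g : 𝓞 E →+* 𝓞 E)
      (ga g).surjective).1 hy
    exact (h x _ (ga_coe g x)).1 hx

lemma absNorm_eq (g : E ≃ₐ[ℚ] E) (J J' : Ideal (𝓞 E))
    (h : ∀ x y : 𝓞 E, (y : E) = g (x : E) → (x ∈ J ↔ y ∈ J')) :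
    Ideal.absNorm J' = Ideal.absNorm J := by
  rw [Ideal.absNorm_apply, Ideal.absNorm_apply, Submodule.cardQuot_apply,
    Submodule.cardQuot_apply]
  exact (Nat.card_congr (Ideal.quotientEquiv J J' (ga g) (map_eq g J J' h)).toEquiv).symm

/-- an element of the field times an integer is integral -/
lemma clear (y : E) (hy : y ≠ 0) : ∃ (m : ℤ) (d : 𝓞 E), m ≠ 0 ∧ d ≠ 0 ∧ (d : E) = m * y := by
  have h1 : IsAlgebraic ℤ y := by
    have h2 : IsAlgebraic ℚ y := Algebra.IsAlgebraic.isAlgebraic y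
    exact (IsFractionRing.isAlgebraic_iff ℤ ℚ E).2 h2
  obtain ⟨m, hm, hi⟩ := h1.exists_integral_multiple
  refine ⟨m, ⟨m • y, hi⟩, hm, ?_, ?_⟩
  · intro h
    have h3 : m • y = 0 := congrArg (fun t : 𝓞 E => (t : E)) h
    rcases smul_eq_zero.1 h3 with h4 | h4
    · exact hm h4
    · exact hy h4
  · change m • y = m * y
    rw [zsmul_eq_mul]

end HIL

open HIL

theorem HIL_thm : Stmt_HIL := by
  intro hGIN hPOS l k hok g hg J J' a b hJ ha hb hJJ hab
  obtain ⟨hl, hk, h2⟩ := hok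
  have haE : ((a : 𝓞 (CyclotomicField (l ^ k) ℚ)) : CyclotomicField (l ^ k) ℚ) ≠ 0 := by
    intro h
    exact ha (RingOfIntegers.ext h)
  have hbE : ((b : 𝓞 (CyclotomicField (l ^ k) ℚ)) : CyclotomicField (l ^ k) ℚ) ≠ 0 := by
    intro h
    exact hb (RingOfIntegers.ext h)
  -- the norms
  have hn := congrArg Ideal.absNorm hab
  rw [map_mul, map_mul, absNorm_eq g J J' hJJ, Ideal.absNorm_span_singleton,
    Ideal.absNorm_span_singleton] at hn
  have hJ0 : Ideal.absNorm J ≠ 0 := by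
    intro h
    exact hJ (Ideal.absNorm_eq_zero_iff.1 h)
  have hn2 : (Algebra.norm ℤ a).natAbs = (Algebra.norm ℤ b).natAbs :=
    Nat.eq_of_mul_eq_mul_right (Nat.pos_of_ne_zero hJ0) hn
  have hpa := hPOS l k hl h2 (a : CyclotomicField (l ^ k) ℚ) haE
  have hpb := hPOS l k hl h2 (b : CyclotomicField (l ^ k) ℚ) hbE
  have hca : Algebra.norm ℚ (a : CyclotomicField (l ^ k) ℚ) = (Algebra.norm ℤ a : ℚ) :=
    (Algebra.coe_norm_int a).symm
  have hcb : Algebra.norm ℚ (b : CyclotomicField (l ^ k) ℚ) = (Algebra.norm ℤ b : ℚ) :=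
    (Algebra.coe_norm_int b).symm
  have hN : Algebra.norm ℚ (b : CyclotomicField (l ^ k) ℚ) =
      Algebra.norm ℚ (a : CyclotomicField (l ^ k) ℚ) := by
    rw [hca] at hpa ⊢
    rw [hcb] at hpb ⊢
    have h3 : 0 < Algebra.norm ℤ a := by exact_mod_cast hpa
    have h4 : 0 < Algebra.norm ℤ b := by exact_mod_cast hpb
    have h5 : Algebra.norm ℤ b = Algebra.norm ℤ a := by omega
    rw [h5]
  have hN1 : Algebra.norm ℚ ((b : CyclotomicField (l ^ k) ℚ) / a) = 1 := by
    have h6 : Algebra.norm ℚ ((b : CyclotomicField (l ^ k) ℚ) / a) *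
        Algebra.norm ℚ (a : CyclotomicField (l ^ k) ℚ) =
        1 * Algebra.norm ℚ (a : CyclotomicField (l ^ k) ℚ) := by
      rw [← map_mul, div_mul_cancel₀ _ haE, hN, one_mul]
    exact mul_right_cancel₀ hpa.ne' h6
  -- Hilbert 90
  have : NeZero (l ^ k) := ⟨by omega⟩
  have : NeZero ((l ^ k : ℕ) : ℚ) := ⟨by exact_mod_cast (show l ^ k ≠ 0 by omega)⟩
  have : IsCyclic (CyclotomicField (l ^ k) ℚ ≃ₐ[ℚ] CyclotomicField (l ^ k) ℚ) := ⟨g, hg⟩
  have : IsCyclotomicExtension {l ^ k} ℚ (CyclotomicField (l ^ k) ℚ) :=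
    CyclotomicField.isCyclotomicExtension _ _
  have : IsGalois ℚ (CyclotomicField (l ^ k) ℚ) :=
    IsCyclotomicExtension.isGalois {l ^ k} ℚ (CyclotomicField (l ^ k) ℚ)
  obtain ⟨y, hy⟩ := groupCohomology.exists_div_of_norm_eq_one hg hN1
  obtain ⟨m, d, hm, hd, hdm⟩ := clear (y : CyclotomicField (l ^ k) ℚ) y.ne_zero
  have hgy : g (y : CyclotomicField (l ^ k) ℚ) ≠ 0 := by
    intro h
    exact y.ne_zero ((map_eq_zero g).1 h)
  have hbd : b * ga g d = a * d := by
    apply RingOfIntegers.ext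
    change (b : CyclotomicField (l ^ k) ℚ) * g (d : CyclotomicField (l ^ k) ℚ) =
      (a : CyclotomicField (l ^ k) ℚ) * (d : CyclotomicField (l ^ k) ℚ)
    rw [hdm, map_mul, map_intCast]
    rw [div_eq_div_iff hgy haE] at hy
    linear_combination -(m : CyclotomicField (l ^ k) ℚ) * hy
  have hst : Ideal.span {ga g d} * J' = Ideal.span {d} * J := by
    have h3 : Ideal.span {a} * (Ideal.span {ga g d} * J') =
        Ideal.span {a} * (Ideal.span {d} * J) := by
      calc Ideal.span {a} * (Ideal.span {ga g d} * J') =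
          Ideal.span {ga g d} * (Ideal.span {a} * J') := by ring
        _ = Ideal.span {ga g d} * (Ideal.span {b} * J) := by rw [hab]
        _ = (Ideal.span {b} * Ideal.span {ga g d}) * J := by ring
        _ = (Ideal.span {a} * Ideal.span {d}) * J := by
            rw [Ideal.span_singleton_mul_span_singleton, hbd,
              Ideal.span_singleton_mul_span_singleton]
        _ = Ideal.span {a} * (Ideal.span {d} * J) := by ring
    exact (Ideal.span_singleton_mul_right_inj ha).1 h3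
  -- stability
  have hone : ∀ x ∈ Ideal.span {d} * J, ga g x ∈ Ideal.span {d} * J := by
    intro x hx
    obtain ⟨z, hz, rfl⟩ := Ideal.mem_span_singleton_mul.1 hx
    rw [← hst, map_mul]
    exact Ideal.mem_span_singleton_mul.2 ⟨ga g z, (hJJ z _ (ga_coe g z)).1 hz, rfl⟩
  have hall : ∀ (i : ℕ) (x y : 𝓞 (CyclotomicField (l ^ k) ℚ)), x ∈ Ideal.span {d} * J →
      (y : CyclotomicField (l ^ k) ℚ) = (g ^ i) (x : CyclotomicField (l ^ k) ℚ) →
      y ∈ Ideal.span {d} * J := by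
    intro i
    induction i with
    | zero =>
      intro x y hx hxy
      have : y = x := RingOfIntegers.ext hxy
      rw [this]
      exact hx
    | succ i ih =>
      intro x y hx hxy
      refine ih (ga g x) y (hone x hx) ?_
      rw [hxy, pow_succ, ga_coe]
      rfl
  have hSta : Sta (Ideal.span {d} * J) := by
    intro h x y hx hxy
    obtain ⟨i, hi⟩ := mem_powers_iff_mem_zpowers.2 (hg h)
    refine hall i x y hx ?_
    rw [hxy, ← hi]
  have hne : Ideal.span {d} * J ≠ ⊥ := by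
    intro h
    rcases Ideal.mul_eq_bot.1 h with h3 | h3
    · exact hd (Ideal.span_singleton_eq_bot.1 h3)
    · exact hJ h3
  obtain ⟨e, he⟩ := hGIN l k hl hk _ hne hSta
  have h5 : e ∈ Ideal.span {d} * J := by
    rw [he]
    exact Ideal.mem_span_singleton_self e
  obtain ⟨c, hc, rfl⟩ := Ideal.mem_span_singleton_mul.1 h5
  refine ⟨c, ?_⟩
  rw [← Ideal.span_singleton_mul_span_singleton] at he
  exact (Ideal.span_singleton_mul_right_inj hd).1 he

end ABS
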