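import Pool.Agent.ABS.StD2
import Pool.Agent.ABS.HIL

/-!
# ABS_DHI: Hilbert 90 for ideals of the fields of the genus lemma (a copy of `ABS/HIL.lean`)
-/

open NumberField

namespace ABS

namespace DHI

open HIL

variable {E : Type} [Field E] [NumberField E]

lemma core (g : E ≃ₐ[ℚ] E) (hGE : GE E g) (J J' : Ideal (𝓞 E)) (a b : 𝓞 E) (hJ : J ≠ ⊥)
    (ha : a ≠ 0) (hN : Algebra.norm ℚ (b : E) = Algebra.norm ℚ (a : E))
    (hJJ : ∀ x y : 𝓞 E, (y : E) = g (x : E) → (x ∈ J ↔ y ∈ J'))
    (hab : Ideal.span {a} * J' = Ideal.span {b} * J) : ∃ c, J = Ideal.span {c} := by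
  have haE : (a : E) ≠ 0 := by
    intro h
    exact ha (RingOfIntegers.ext h)
  have hN1 : Algebra.norm ℚ ((b : E) / a) = 1 := by
    have h6 : Algebra.norm ℚ ((b : E) / a) *
        Algebra.norm ℚ (a : E) =
        1 * Algebra.norm ℚ (a : E) := by
      rw [← map_mul, div_mul_cancel₀ _ haE, hN, one_mul]
    exact mul_right_cancel₀ (Algebra.norm_ne_zero_iff.2 haE) h6
  -- Hilbert 90
  have hg := hGE.gen
  have : IsCyclic (E ≃ₐ[ℚ] E) := ⟨g, hg⟩
  have : IsGalois ℚ E := hGE.gal
  obtain ⟨y, hy⟩ := groupCohomology.exists_div_of_norm_eq_one hg hN1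
  obtain ⟨m, d, hm, hd, hdm⟩ := clear (y : E) y.ne_zero
  have hgy : g (y : E) ≠ 0 := by
    intro h
    exact y.ne_zero ((map_eq_zero g).1 h)
  have hbd : b * ga g d = a * d := by
    apply RingOfIntegers.ext
    change (b : E) * g (d : E) =
      (a : E) * (d : E)
    rw [hdm, map_mul, map_intCast]
    rw [div_eq_div_iff hgy haE] at hy
    linear_combination -(m : E) * hy
  have hst : Ideal.span {ga g d} * J' = Ideal.span {d} * J := by
    have h3 : Ideal.span {a} * (Ideal.span {ga g d} * J') =
        Ideal.span {a} * (Ideal.span {d} * J) := by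
      calc Ideal.span {a} * (Ideal.span {ga g d} * J') =
          Ideal.span {ga g d} * (Ideal.span {a} * J') := by ring
        _ = Ideal.span {ga g d} * (Ideal.span {b} * J) := by rw [hab]
        _ = (Ideal.span {b} * Ideal.span {ga g d}) * J := by ring
        _ = (Ideal.span {a} * Ideal.span {d}) * J := by
            rw [Ideal.span_singleton_mul_span_singleton, hbd,
              Ideal.span_singleton_mul_span_singleton]
        _ = Ideal.span {a} * (Ideal.span {d} * J) := by ring
    exact (Ideal.span_singleton_mul_right_inj ha).1 h3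
  -- stability
  have hone : ∀ x ∈ Ideal.span {d} * J, ga g x ∈ Ideal.span {d} * J := by
    intro x hx
    obtain ⟨z, hz, rfl⟩ := Ideal.mem_span_singleton_mul.1 hx
    rw [← hst, map_mul]
    exact Ideal.mem_span_singleton_mul.2 ⟨ga g z, (hJJ z _ (ga_coe g z)).1 hz, rfl⟩
  have hall : ∀ (i : ℕ) (x y : 𝓞 (E)), x ∈ Ideal.span {d} * J →
      (y : E) = (g ^ i) (x : E) →
      y ∈ Ideal.span {d} * J := by
    intro i
    induction i with
    | zero =>
      intro x y hx hxy
      have : y = x := RingOfIntegers.ext hxy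
      rw [this]
      exact hx
    | succ i ih =>
      intro x y hx hxy
      refine ih (ga g x) y (hone x hx) ?_
      rw [hxy, pow_succ, ga_coe]
      rfl
  have hSta : Sta (Ideal.span {d} * J) := by
    intro h x y hx hxy
    obtain ⟨i, hi⟩ := mem_powers_iff_mem_zpowers.2 (hg h)
    refine hall i x y hx ?_
    rw [hxy, ← hi]
  have hne : Ideal.span {d} * J ≠ ⊥ := by
    intro h
    rcases Ideal.mul_eq_bot.1 h with h3 | h3
    · exact hd (Ideal.span_singleton_eq_bot.1 h3)
    · exact hJ h3
  obtain ⟨e, he⟩ := hGE.prin _ hne hSta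
  have h5 : e ∈ Ideal.span {d} * J := by
    rw [he]
    exact Ideal.mem_span_singleton_self e
  obtain ⟨c, hc, rfl⟩ := Ideal.mem_span_singleton_mul.1 h5
  refine ⟨c, ?_⟩
  rw [← Ideal.span_singleton_mul_span_singleton] at he
  exact (Ideal.span_singleton_mul_right_inj hd).1 he

end DHI

open HIL DHI

theorem DHI_thm : Stmt_DHI := by
  intro E _ _ g hGE J J' a b hJ ha hb hJJ hab
  have hn := congrArg Ideal.absNorm hab
  rw [map_mul, map_mul, absNorm_eq g J J' hJJ, Ideal.absNorm_span_singleton,
    Ideal.absNorm_span_singleton] at hn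
  have hJ0 : Ideal.absNorm J ≠ 0 := by
    intro h
    exact hJ (Ideal.absNorm_eq_zero_iff.1 h)
  have hn2 : (Algebra.norm ℤ a).natAbs = (Algebra.norm ℤ b).natAbs :=
    Nat.eq_of_mul_eq_mul_right (Nat.pos_of_ne_zero hJ0) hn
  have hca : Algebra.norm ℚ (a : E) = (Algebra.norm ℤ a : ℚ) := (Algebra.coe_norm_int a).symm
  have hcb : Algebra.norm ℚ (b : E) = (Algebra.norm ℤ b : ℚ) := (Algebra.coe_norm_int b).symm
  rcases Int.natAbs_eq_natAbs_iff.1 hn2 with h1 | h1
  · exact core g hGE J J' a b hJ ha (by rw [hca, hcb, h1]) hJJ hab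
  · rcases hGE.sgn with ⟨u, hu⟩ | hpos
    · refine core g hGE J J' a ((u : 𝓞 E) * b) hJ ha ?_ hJJ ?_
      · rw [RingOfIntegers.coe_eq_algebraMap, map_mul, map_mul,
          ← RingOfIntegers.coe_eq_algebraMap, ← RingOfIntegers.coe_eq_algebraMap, hu, hca, hcb,
          h1]
        push_cast
        ring
      · rw [hab, ← Ideal.span_singleton_mul_span_singleton,
          Ideal.span_singleton_eq_top.2 u.isUnit, Ideal.top_mul]
    · exfalso
      have haE : (a : E) ≠ 0 := by
        intro h
        exact ha (RingOfIntegers.ext h)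
      have hbE : (b : E) ≠ 0 := by
        intro h
        exact hb (RingOfIntegers.ext h)
      have hpa := hpos _ haE
      have hpb := hpos _ hbE
      rw [hca, h1] at hpa
      rw [hcb] at hpb
      push_cast at hpa
      linarith

end ABS
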