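import Pool.Agent.ABS.StD3
import Pool.Agent.ABS.CHI

/-!
# ABS_DI1: half the sum of the conjugates for dihedral and semidihedral groups
-/

set_option autoImplicit false

open scoped Classical

namespace StarkC.ABS

namespace DI1x

lemma tt4 {k t : ℕ} (hk : 3 ≤ k) (h : TT k t) : 4 ∣ t + 1 := by
  obtain ⟨-, h | ⟨-, h⟩⟩ := h
  · have h1 : 2 ^ k ∣ t + 1 := Nat.dvd_of_mod_eq_zero h
    exact dvd_trans (pow_dvd_pow 2 (by omega : 2 ≤ k)) h1
  · have h1 : t + 1 = 2 ^ k * ((t + 1) / 2 ^ k) + 2 ^ (k - 1) := by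
      conv_lhs => rw [← Nat.div_add_mod (t + 1) (2 ^ k), h]
    have h2 : 4 ∣ 2 ^ k := pow_dvd_pow 2 (by omega : 2 ≤ k)
    have h3 : 4 ∣ 2 ^ (k - 1) := pow_dvd_pow 2 (by omega : 2 ≤ k - 1)
    rw [h1]
    exact dvd_add (dvd_mul_of_dvd_left h2 _) h3

section

variable {G : Type} [Group G] {j t : ℕ} {σ γ : G}

lemma gpow (hconj : γ * σ = σ ^ t * γ) (m : ℕ) : γ * σ ^ m = σ ^ (t * m) * γ := by
  induction m with
  | zero => simp
  | succ m ih =>
    rw [pow_succ, ← mul_assoc, ih, mul_assoc, hconj, ← mul_assoc, ← pow_add]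
    rfl

lemma gnot (hord : orderOf σ = 2 ^ (j + 1)) (hj : 2 ≤ j) (ht : 4 ∣ t + 1)
    (hconj : γ * σ = σ ^ t * γ) : γ ∉ Subgroup.zpowers σ := by
  intro h
  have hc : γ * σ = σ * γ := by
    obtain ⟨m, rfl⟩ := h
    exact (Commute.zpow_self σ m).eq
  rw [hc] at hconj
  have h1 : σ ^ 1 = σ ^ t := by
    rw [pow_one]
    exact mul_right_cancel hconj
  rw [pow_eq_pow_iff_modEq, hord] at h1
  have h2 : 1 ≡ t [MOD 4] := h1.of_dvd (pow_dvd_pow 2 (by omega : 2 ≤ j + 1))
  unfold Nat.ModEq at h2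
  omega

lemma zz (hord : orderOf σ = 2 ^ (j + 1)) : σ ^ 2 ^ j * σ ^ 2 ^ j = 1 := by
  rw [← pow_add, ← two_mul, ← pow_succ', ← hord, pow_orderOf_eq_one]

lemma zne (hord : orderOf σ = 2 ^ (j + 1)) : σ ^ 2 ^ j ≠ 1 := by
  intro h
  have h1 := Nat.le_of_dvd (by positivity) (orderOf_dvd_of_pow_eq_one h)
  rw [hord, pow_succ] at h1
  have : 0 < 2 ^ j := by positivity
  omega

lemma zg (hord : orderOf σ = 2 ^ (j + 1)) (ht : 4 ∣ t + 1) (hconj : γ * σ = σ ^ t * γ) :
    γ * σ ^ 2 ^ j = σ ^ 2 ^ j * γ := by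
  rw [gpow hconj, mul_comm t, pow_mul]
  congr 1
  obtain ⟨u, rfl⟩ : ∃ u, t = 2 * u + 1 := ⟨t / 2, by omega⟩
  rw [pow_succ, pow_mul, pow_two, zz hord, one_pow, one_mul]

lemma zcen (hord : orderOf σ = 2 ^ (j + 1)) (ht : 4 ∣ t + 1) (hconj : γ * σ = σ ^ t * γ)
    (hall : ∀ g : G, ∃ i : ℕ, g = σ ^ i ∨ g = σ ^ i * γ) (y : G) :
    y * σ ^ 2 ^ j = σ ^ 2 ^ j * y := by
  obtain ⟨i, rfl | rfl⟩ := hall y
  · exact pow_mul_comm σ i (2 ^ j)
  · rw [mul_assoc, zg hord ht hconj, ← mul_assoc, pow_mul_comm σ i (2 ^ j), mul_assoc]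

lemma sq_one (hord : orderOf σ = 2 ^ (j + 1)) {x : G} (hx : x ∈ Subgroup.zpowers σ)
    (h : x * x = 1) : x = 1 ∨ x = σ ^ 2 ^ j := by
  have hfin : IsOfFinOrder σ := by
    rw [← orderOf_pos_iff, hord]
    positivity
  obtain ⟨i, rfl⟩ := (hfin.mem_powers_iff_mem_zpowers).2 hx
  simp only at h ⊢
  rw [← pow_add] at h
  have h1 := orderOf_dvd_of_pow_eq_one h
  rw [hord, pow_succ, ← two_mul, mul_comm 2 i] at h1
  obtain ⟨m, rfl⟩ := Nat.dvd_of_mul_dvd_mul_right (by norm_num) h1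
  rw [pow_mul]
  rcases Nat.even_or_odd' m with ⟨u, rfl | rfl⟩
  · left
    rw [pow_mul, pow_two, zz hord, one_pow]
  · right
    rw [pow_succ, pow_mul, pow_two, zz hord, one_pow, one_mul]

lemma idx (hord : orderOf σ = 2 ^ (j + 1)) (hj : 2 ≤ j) (ht : 4 ∣ t + 1) (hinv : γ * γ = 1)
    (hconj : γ * σ = σ ^ t * γ) (hall : ∀ g : G, ∃ i : ℕ, g = σ ^ i ∨ g = σ ^ i * γ) :
    (Subgroup.zpowers σ).index = 2 := by
  have hγ := gnot hord hj ht hconj
  rw [Subgroup.index_eq_two_iff]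
  refine ⟨γ, fun b => ?_⟩
  have hm : ∀ i : ℕ, σ ^ i ∈ Subgroup.zpowers σ := fun i => Subgroup.npow_mem_zpowers σ i
  obtain ⟨i, rfl | rfl⟩ := hall b
  · right
    refine ⟨hm i, fun h => hγ ?_⟩
    exact (Subgroup.mul_mem_cancel_left _ (hm i)).1 h
  · left
    rw [mul_assoc, hinv, mul_one]
    refine ⟨hm i, fun h => hγ ?_⟩
    exact (Subgroup.mul_mem_cancel_left _ (hm i)).1 h

lemma cardG (hord : orderOf σ = 2 ^ (j + 1)) (hj : 2 ≤ j) (ht : 4 ∣ t + 1) (hinv : γ * γ = 1)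
    (hconj : γ * σ = σ ^ t * γ) (hall : ∀ g : G, ∃ i : ℕ, g = σ ^ i ∨ g = σ ^ i * γ) :
    Nat.card G = 4 * 2 ^ j := by
  rw [← Subgroup.card_mul_index (Subgroup.zpowers σ), idx hord hj ht hinv hconj hall,
    Nat.card_zpowers, hord, pow_succ]
  ring

/-- The value of `lfun`. -/
lemma lfun_val [Fintype G] (hord : orderOf σ = 2 ^ (j + 1)) (hj : 2 ≤ j) (ht : 4 ∣ t + 1)
    (hinv : γ * γ = 1) (hconj : γ * σ = σ ^ t * γ)
    (hall : ∀ g : G, ∃ i : ℕ, g = σ ^ i ∨ g = σ ^ i * γ)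
    (ψ : Subgroup.zpowers σ →* ℂˣ) (hψ : Function.Injective ψ) (x : G) :
    lfun (j + 1) (Subgroup.zpowers σ) ψ x =
      (if x = 1 then (2 : ℂ) ^ j else 0) - (if x = σ ^ 2 ^ j then (2 : ℂ) ^ j else 0) := by
  have hN : (Subgroup.zpowers σ).Normal :=
    Subgroup.normal_of_index_eq_two (idx hord hj ht hinv hconj hall)
  have hzc := zcen hord ht hconj hall
  have hz1 := zne hord
  have hcj : ∀ x y g : G, y⁻¹ * x * y = g ↔ x = y * g * y⁻¹ := by
    intro x y g
    constructor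
    · rintro rfl
      group
    · rintro rfl
      group
  have e1 : lfun (j + 1) (Subgroup.zpowers σ) ψ x =
      (∑ y : G, ∑ i ∈ Ex (2 ^ (j + 1)), (if y⁻¹ * x * y ∈ Subgroup.zpowers σ then
        extZ (ψ ^ i) (y⁻¹ * x * y) else 0)) / (Nat.card (Subgroup.zpowers σ) : ℂ) / 2 := by
    unfold lfun indFun
    rw [← Finset.sum_div, Finset.sum_comm]
  have e2 : ∀ y : G, ∑ i ∈ Ex (2 ^ (j + 1)), (if y⁻¹ * x * y ∈ Subgroup.zpowers σ then
        extZ (ψ ^ i) (y⁻¹ * x * y) else 0) =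
      (if x = 1 then (2 : ℂ) ^ j else 0) - (if x = σ ^ 2 ^ j then (2 : ℂ) ^ j else 0) := by
    intro y
    by_cases hm : y⁻¹ * x * y ∈ Subgroup.zpowers σ
    · have hxA : x ∈ Subgroup.zpowers σ := by
        have := hN.conj_mem _ hm y
        rwa [show y * (y⁻¹ * x * y) * y⁻¹ = x by group] at this
      have f1 : ∑ i ∈ Ex (2 ^ (j + 1)), (if y⁻¹ * x * y ∈ Subgroup.zpowers σ then
          extZ (ψ ^ i) (y⁻¹ * x * y) else 0) =
          ∑ i ∈ Ex (2 ^ (j + 1)), ((ψ ⟨y⁻¹ * x * y, hm⟩ : ℂˣ) : ℂ) ^ i := by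
        refine Finset.sum_congr rfl fun i _ => ?_
        rw [if_pos hm]
        unfold extZ
        rw [dif_pos hm, MonoidHom.pow_apply, Units.val_pow_eq_pow_val]
      have hu : ∀ a : Subgroup.zpowers σ, ((ψ a : ℂˣ) : ℂ) = 1 ↔ (a : G) = 1 := by
        intro a
        rw [Units.val_eq_one, ← map_one ψ]
        constructor
        · intro h
          rw [hψ h]
          rfl
        · intro h
          exact congrArg ψ (Subtype.ext h)
      have g1 : ((ψ ⟨y⁻¹ * x * y, hm⟩ : ℂˣ) : ℂ) = 1 ↔ x = 1 := by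
        rw [hu, hcj]
        simp
      have g2 : ((ψ ⟨y⁻¹ * x * y, hm⟩ : ℂˣ) : ℂ) ^ 2 = 1 ↔ (x = 1 ∨ x = σ ^ 2 ^ j) := by
        rw [← Units.val_pow_eq_pow_val, ← map_pow, hu]
        have : (((⟨y⁻¹ * x * y, hm⟩ : Subgroup.zpowers σ) ^ 2 : Subgroup.zpowers σ) : G) =
            y⁻¹ * (x * x) * y := by
          rw [Subgroup.coe_pow]
          show (y⁻¹ * x * y) ^ 2 = _
          rw [pow_two]
          simp only [mul_assoc, mul_inv_cancel_left]
        rw [this, hcj]
        constructor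
        · intro h
          apply sq_one hord hxA
          rw [h]
          group
        · rintro (rfl | rfl)
          · simp
          · rw [zz hord]
            simp
      have g3 : ((ψ ⟨y⁻¹ * x * y, hm⟩ : ℂˣ) : ℂ) ^ (2 ^ (j + 1)) = 1 := by
        rw [← Units.val_pow_eq_pow_val, ← map_pow]
        have : (⟨y⁻¹ * x * y, hm⟩ : Subgroup.zpowers σ) ^ (2 ^ (j + 1)) = 1 := by
          rw [← hord, ← Nat.card_zpowers]
          exact pow_card_eq_one'
        rw [this, map_one, Units.val_one]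
      rw [f1, CHIx.sumEx 2 (j + 1) Nat.prime_two (Nat.succ_pos j) _ g3]
      simp only [g1, g2]
      by_cases h1 : x = 1
      · subst h1
        rw [if_pos rfl, if_pos (Or.inl rfl), if_pos rfl, if_neg (Ne.symm hz1)]
        rw [Nat.add_sub_cancel, pow_succ]
        push_cast
        ring
      · by_cases h2 : x = σ ^ 2 ^ j
        · rw [if_neg h1, if_pos (Or.inr h2), if_neg h1, if_pos h2, Nat.add_sub_cancel]
          push_cast
          ring
        · rw [if_neg h1, if_neg (by tauto), if_neg h1, if_neg h2]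
    · have h1 : x ≠ 1 := by
        rintro rfl
        apply hm
        rw [mul_one, inv_mul_cancel]
        exact one_mem _
      have h2 : x ≠ σ ^ 2 ^ j := by
        rintro rfl
        apply hm
        rw [mul_assoc, ← hzc, inv_mul_cancel_left]
        exact Subgroup.npow_mem_zpowers σ _
      rw [if_neg h1, if_neg h2, sub_zero]
      apply Finset.sum_eq_zero
      intro i _
      rw [if_neg hm]
  rw [e1, Finset.sum_congr rfl fun y _ => e2 y, Finset.sum_const, Finset.card_univ,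
    ← Nat.card_eq_fintype_card, cardG hord hj ht hinv hconj hall, Nat.card_zpowers, hord,
    nsmul_eq_mul]
  have h0 : (2 : ℂ) ^ j ≠ 0 := pow_ne_zero _ two_ne_zero
  push_cast
  rw [pow_succ]
  field_simp
  ring

lemma mem1 (hinv : γ * γ = 1) (g : G) : g ∈ Subgroup.zpowers γ ↔ (g = 1 ∨ g = γ) := by
  constructor
  · rintro ⟨m, rfl⟩
    simp only
    rcases Int.even_or_odd' m with ⟨u, rfl | rfl⟩
    · left
      rw [zpow_mul, zpow_two, hinv, one_zpow]
    · right
      rw [zpow_add_one, zpow_mul, zpow_two, hinv, one_zpow, one_mul]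
  · rintro (rfl | rfl)
    · exact one_mem _
    · exact Subgroup.mem_zpowers _

lemma mem2 {z : G} (hinv : γ * γ = 1) (hz : z * z = 1) (hc : γ * z = z * γ) (g : G) :
    g ∈ Subgroup.zpowers γ ⊔ Subgroup.zpowers z ↔ (g = 1 ∨ g = γ ∨ g = z ∨ g = γ * z) := by
  let H : Subgroup G :=
    { carrier := {g | g = 1 ∨ g = γ ∨ g = z ∨ g = γ * z}
      one_mem' := Or.inl rfl
      mul_mem' := by
        have a1 : γ * (γ * z) = z := by rw [← mul_assoc, hinv, one_mul]
        have a2 : z * γ = γ * z := hc.symm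
        have a3 : z * (γ * z) = γ := by rw [← mul_assoc, ← hc, mul_assoc, hz, mul_one]
        have a4 : γ * z * γ = z := by rw [hc, mul_assoc, hinv, mul_one]
        have a5 : γ * z * z = γ := by rw [mul_assoc, hz, mul_one]
        have a6 : γ * z * (γ * z) = 1 := by rw [← mul_assoc, a4, hz]
        rintro a b (rfl | rfl | rfl | rfl) (rfl | rfl | rfl | rfl) <;>
          simp only [Set.mem_ofPred_eq, one_mul, mul_one, hinv, hz, a1, a2, a3, a4, a5, a6,
            true_or, or_true]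
      inv_mem' := by
        have b1 : γ⁻¹ = γ := inv_eq_of_mul_eq_one_left hinv
        have b2 : z⁻¹ = z := inv_eq_of_mul_eq_one_left hz
        rintro a (rfl | rfl | rfl | rfl) <;>
          simp only [Set.mem_ofPred_eq, inv_one, mul_inv_rev, b1, b2, ← hc, true_or, or_true] }
  constructor
  · intro h
    have hle : Subgroup.zpowers γ ⊔ Subgroup.zpowers z ≤ H := by
      apply sup_le
      · rw [Subgroup.zpowers_le]
        exact Or.inr (Or.inl rfl)
      · rw [Subgroup.zpowers_le]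
        exact Or.inr (Or.inr (Or.inl rfl))
    exact hle h
  · have c1 : γ ∈ Subgroup.zpowers γ ⊔ Subgroup.zpowers z :=
      (le_sup_left : Subgroup.zpowers γ ≤ _) (Subgroup.mem_zpowers γ)
    have c2 : z ∈ Subgroup.zpowers γ ⊔ Subgroup.zpowers z :=
      (le_sup_right : Subgroup.zpowers z ≤ _) (Subgroup.mem_zpowers z)
    rintro (rfl | rfl | rfl | rfl)
    · exact one_mem _
    · exact c1
    · exact c2
    · exact mul_mem c1 c2

/-- The value of the difference of the two permutation characters. -/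
lemma ind_val [Fintype G] (hord : orderOf σ = 2 ^ (j + 1)) (hj : 2 ≤ j) (ht : 4 ∣ t + 1)
    (hinv : γ * γ = 1) (hconj : γ * σ = σ ^ t * γ)
    (hall : ∀ g : G, ∃ i : ℕ, g = σ ^ i ∨ g = σ ^ i * γ) (x : G) :
    indFun (Subgroup.zpowers γ) (fun _ => 1) x -
        indFun (Subgroup.zpowers γ ⊔ Subgroup.zpowers (σ ^ 2 ^ j)) (fun _ => 1) x =
      (if x = 1 then (2 : ℂ) ^ j else 0) - (if x = σ ^ 2 ^ j then (2 : ℂ) ^ j else 0) := by
  have hγ := gnot hord hj ht hconj
  have hzz := zz hord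
  have hz1 := zne hord
  have hzc := zcen hord ht hconj hall
  have hzA : σ ^ 2 ^ j ∈ Subgroup.zpowers σ := Subgroup.npow_mem_zpowers σ _
  have hγ1 : γ ≠ 1 := fun h => hγ (h ▸ one_mem _)
  have hγz : γ ≠ σ ^ 2 ^ j := fun h => hγ (h ▸ hzA)
  have hgz : γ * σ ^ 2 ^ j ∉ Subgroup.zpowers σ := fun h =>
    hγ ((Subgroup.mul_mem_cancel_right _ hzA).1 h)
  -- the conjugacy of `γ z` and `γ`
  obtain ⟨h, hh⟩ : ∃ h : G, γ * σ ^ 2 ^ j = h * γ * h⁻¹ := by
    refine ⟨σ ^ 2 ^ (j - 1), ?_⟩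
    rw [eq_mul_inv_iff_mul_eq, mul_assoc, ← pow_add, gpow hconj]
    congr 1
    rw [pow_eq_pow_iff_modEq, hord]
    obtain ⟨i, rfl⟩ : ∃ i, j = i + 1 := ⟨j - 1, by omega⟩
    obtain ⟨s, hs⟩ := ht
    have h3 : t * (2 ^ (i + 1) + 2 ^ (i + 1 - 1)) + 2 ^ (i + 1 + 1) =
        2 ^ (i + 1 - 1) + 2 ^ (i + 1 + 1) * (3 * s) := by
      have : t * (2 ^ (i + 1) + 2 ^ (i + 1 - 1)) = t * 3 * 2 ^ i := by
        rw [Nat.add_sub_cancel, pow_succ]
        ring
      rw [this, Nat.add_sub_cancel, pow_succ, pow_succ]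
      have : t * 3 + 4 = 1 + 4 * (3 * s) := by omega
      calc t * 3 * 2 ^ i + 2 ^ i * 2 * 2 = (t * 3 + 4) * 2 ^ i := by ring
        _ = (1 + 4 * (3 * s)) * 2 ^ i := by rw [this]
        _ = _ := by ring
    have h4 : t * (2 ^ (i + 1) + 2 ^ (i + 1 - 1)) + 2 ^ (i + 1 + 1) ≡
        2 ^ (i + 1 - 1) + 0 [MOD 2 ^ (i + 1 + 1)] := by
      rw [h3]
      exact Nat.ModEq.add_left _ (Nat.modEq_zero_iff_dvd.2 (dvd_mul_right _ _))
    have h5 : t * (2 ^ (i + 1) + 2 ^ (i + 1 - 1)) + 2 ^ (i + 1 + 1) ≡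
        t * (2 ^ (i + 1) + 2 ^ (i + 1 - 1)) + 0 [MOD 2 ^ (i + 1 + 1)] :=
      Nat.ModEq.add_left _ (Nat.modEq_zero_iff_dvd.2 dvd_rfl)
    simpa using h5.symm.trans h4
  set z := σ ^ 2 ^ j with hzdef
  set c : ℂ := ∑ y : G, (if y⁻¹ * x * y = γ then (1 : ℂ) else 0) with hc
  have hc2 : ∑ y : G, (if y⁻¹ * x * y = γ * z then (1 : ℂ) else 0) = c := by
    rw [hc]
    refine Fintype.sum_equiv (Equiv.mulRight h) _ _ fun y => ?_
    have : y⁻¹ * x * y = γ * z ↔ (y * h)⁻¹ * x * (y * h) = γ := by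
      rw [hh]
      constructor
      · intro e
        calc (y * h)⁻¹ * x * (y * h) = h⁻¹ * (y⁻¹ * x * y) * h := by group
          _ = γ := by rw [e]; group
      · intro e
        calc y⁻¹ * x * y = h * ((y * h)⁻¹ * x * (y * h)) * h⁻¹ := by group
          _ = h * γ * h⁻¹ := by rw [e]
    by_cases e0 : y⁻¹ * x * y = γ * z
    · rw [if_pos e0]
      exact (if_pos (this.1 e0)).symm
    · rw [if_neg e0]
      exact (if_neg (fun q => e0 (this.2 q))).symm
  have hs1 : ∑ y : G, (if y⁻¹ * x * y = 1 then (1 : ℂ) else 0) =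
      if x = 1 then (4 : ℂ) * 2 ^ j else 0 := by
    have : ∀ y : G, y⁻¹ * x * y = 1 ↔ x = 1 := by
      intro y
      constructor
      · intro e
        calc x = y * (y⁻¹ * x * y) * y⁻¹ := by group
          _ = 1 := by rw [e]; group
      · rintro rfl
        group
    simp only [this]
    split_ifs with h0
    · rw [Finset.sum_const, Finset.card_univ, ← Nat.card_eq_fintype_card,
        cardG hord hj ht hinv hconj hall, nsmul_eq_mul]
      push_cast
      ring
    · exact Finset.sum_const_zero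
  have hsz : ∑ y : G, (if y⁻¹ * x * y = z then (1 : ℂ) else 0) =
      if x = z then (4 : ℂ) * 2 ^ j else 0 := by
    have : ∀ y : G, y⁻¹ * x * y = z ↔ x = z := by
      intro y
      constructor
      · intro e
        calc x = y * (y⁻¹ * x * y) * y⁻¹ := by group
          _ = z := by rw [e, hzc]; group
      · rintro rfl
        rw [mul_assoc, ← hzc, inv_mul_cancel_left]
    simp only [this]
    split_ifs with h0
    · rw [Finset.sum_const, Finset.card_univ, ← Nat.card_eq_fintype_card,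
        cardG hord hj ht hinv hconj hall, nsmul_eq_mul]
      push_cast
      ring
    · exact Finset.sum_const_zero
  have hcard1 : Nat.card (Subgroup.zpowers γ) = 2 := by
    rw [Nat.card_zpowers]
    exact orderOf_eq_prime (by rw [pow_two, hinv]) hγ1
  have hcard2 : Nat.card (Subgroup.zpowers γ ⊔ Subgroup.zpowers z : Subgroup G) = 4 := by
    have e : ((Subgroup.zpowers γ ⊔ Subgroup.zpowers z : Subgroup G) : Set G) =
        (({1, γ, z, γ * z} : Finset G) : Set G) := by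
      ext g
      rw [SetLike.mem_coe, mem2 hinv hzz (hzc γ)]
      simp
    have e2 : Nat.card (Subgroup.zpowers γ ⊔ Subgroup.zpowers z : Subgroup G) =
        Set.ncard ((Subgroup.zpowers γ ⊔ Subgroup.zpowers z : Subgroup G) : Set G) := rfl
    rw [e2, e, Set.ncard_coe_finset]
    rw [Finset.card_insert_of_notMem, Finset.card_insert_of_notMem,
      Finset.card_insert_of_notMem, Finset.card_singleton]
    · rw [Finset.mem_singleton]
      intro e0
      exact hgz (e0 ▸ hzA)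
    · simp only [Finset.mem_insert, Finset.mem_singleton, not_or]
      refine ⟨hγz, fun e0 => hz1 ?_⟩
      have : γ * 1 = γ * z := by rw [mul_one]; exact e0
      exact (mul_left_cancel this).symm
    · simp only [Finset.mem_insert, Finset.mem_singleton, not_or]
      refine ⟨fun e0 => hγ1 e0.symm, fun e0 => hz1 e0.symm, fun e0 => hgz (e0 ▸ one_mem _)⟩
  have hi1 : indFun (Subgroup.zpowers γ) (fun _ => 1) x =
      ((if x = 1 then (4 : ℂ) * 2 ^ j else 0) + c) / 2 := by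
    unfold indFun
    rw [hcard1, ← hs1, hc, ← Finset.sum_add_distrib]
    congr 1
    refine Finset.sum_congr rfl fun y _ => ?_
    simp only [mem1 hinv]
    by_cases a1 : y⁻¹ * x * y = 1
    · rw [if_pos (Or.inl a1), if_pos a1, if_neg (fun e0 => hγ1 (e0.symm.trans a1)), add_zero]
    · by_cases a2 : y⁻¹ * x * y = γ
      · rw [if_pos (Or.inr a2), if_neg a1, if_pos a2, zero_add]
      · rw [if_neg (by tauto), if_neg a1, if_neg a2, add_zero]
  have hi2 : indFun (Subgroup.zpowers γ ⊔ Subgroup.zpowers z) (fun _ => 1) x =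
      ((if x = 1 then (4 : ℂ) * 2 ^ j else 0) + c + (if x = z then (4 : ℂ) * 2 ^ j else 0) + c) /
        4 := by
    unfold indFun
    rw [hcard2, ← hs1, ← hsz]
    nth_rewrite 2 [← hc2]
    rw [hc, ← Finset.sum_add_distrib, ← Finset.sum_add_distrib, ← Finset.sum_add_distrib]
    congr 1
    refine Finset.sum_congr rfl fun y _ => ?_
    simp only [mem2 hinv hzz (hzc γ)]
    have n1 : γ * z ≠ 1 := fun e0 => hgz (e0 ▸ one_mem _)
    have n2 : γ * z ≠ z := fun e0 => hgz (by rw [e0]; exact hzA)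
    have n3 : γ * z ≠ γ := fun e0 => hz1 (by
      have : γ * z = γ * 1 := by rw [mul_one]; exact e0
      exact mul_left_cancel this)
    by_cases a1 : y⁻¹ * x * y = 1
    · rw [a1, if_pos (Or.inl rfl), if_pos rfl, if_neg (Ne.symm hγ1), if_neg (Ne.symm hz1),
        if_neg (Ne.symm n1)]
      ring
    · by_cases a2 : y⁻¹ * x * y = γ
      · rw [a2, if_pos (Or.inr (Or.inl rfl)), if_neg hγ1, if_pos rfl, if_neg hγz,
          if_neg (Ne.symm n3)]
        ring
      · by_cases a3 : y⁻¹ * x * y = z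
        · rw [a3, if_pos (Or.inr (Or.inr (Or.inl rfl))), if_neg hz1, if_neg (Ne.symm hγz),
            if_pos rfl, if_neg (Ne.symm n2)]
          ring
        · by_cases a4 : y⁻¹ * x * y = γ * z
          · rw [if_pos (Or.inr (Or.inr (Or.inr a4))), if_neg a1, if_neg a2, if_neg a3,
              if_pos a4]
            ring
          · rw [if_neg (by tauto), if_neg a1, if_neg a2, if_neg a3, if_neg a4]
            ring
  rw [hi1, hi2]
  split_ifs <;> ring

end

end DI1x

open DI1x in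
theorem DI1_thm : Stmt_DI1 := by
  intro _ G _ _ k t σ γ hD ψ hψ x
  obtain ⟨j, rfl⟩ : ∃ j, k = j + 1 := ⟨k - 1, by have := hD.k3; omega⟩
  have hj : 2 ≤ j := by have := hD.k3; omega
  have ht := tt4 hD.k3 hD.tt
  have e : 2 ^ (j + 1) / 2 = 2 ^ j := by
    rw [pow_succ, Nat.mul_div_cancel _ (by norm_num)]
  rw [e, lfun_val hD.ord hj ht hD.inv hD.conj hD.all ψ hψ x,
    ind_val hD.ord hj ht hD.inv hD.conj hD.all x]

end StarkC.ABS
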