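import Pool.Agent.ABS.StD3
import Pool.Agent.ABS.CHI

/-!
# ABS_DI2 (MP_46b841_nt, part D): the sum of the conjugates is `Ind_⊥ 1 - Ind_⟨z⟩ 1`
-/

set_option autoImplicit false

open scoped Classical

namespace StarkC.ABS

namespace DI2x

theorem mem_iff {G : Type} [Group G] (σ : G) (k : ℕ) (hk : 0 < k) (hσ : orderOf σ = 2 ^ k)
    (a : G) : a ∈ Subgroup.zpowers (σ ^ (2 ^ k / 2)) ↔ a ∈ Subgroup.zpowers σ ∧ a ^ 2 = 1 := by
  obtain ⟨j, rfl⟩ : ∃ j, k = j + 1 := ⟨k - 1, by omega⟩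
  have h2 : 2 ^ (j + 1) / 2 = 2 ^ j := by
    rw [pow_succ, Nat.mul_div_cancel _ two_pos]
  rw [h2]
  constructor
  · intro h
    obtain ⟨i, rfl⟩ := Subgroup.mem_zpowers_iff.1 h
    refine ⟨Subgroup.zpow_mem _ (Subgroup.pow_mem _ (Subgroup.mem_zpowers σ) _) _, ?_⟩
    rw [← zpow_natCast ((σ ^ 2 ^ j) ^ i), ← zpow_mul, mul_comm, zpow_mul, zpow_natCast, ← pow_mul,
      ← pow_succ, ← hσ, pow_orderOf_eq_one, one_zpow]
  · rintro ⟨h, h1⟩
    obtain ⟨i, rfl⟩ := Subgroup.mem_zpowers_iff.1 h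
    rw [← zpow_natCast (σ ^ i), ← zpow_mul, ← orderOf_dvd_iff_zpow_eq_one, hσ] at h1
    obtain ⟨c, hc⟩ := h1
    have h3 : i = (2 ^ j : ℕ) * c := by
      push_cast at hc ⊢
      rw [pow_succ] at hc
      have : (2 : ℤ) * i = 2 * (2 ^ j * c) := by linarith
      exact mul_left_cancel₀ two_ne_zero this
    rw [h3, zpow_mul, zpow_natCast]
    exact Subgroup.zpow_mem _ (Subgroup.mem_zpowers _) _

theorem card_z {G : Type} [Group G] (σ : G) (k : ℕ) (hk : 0 < k) (hσ : orderOf σ = 2 ^ k) :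
    Nat.card (Subgroup.zpowers (σ ^ (2 ^ k / 2))) = 2 := by
  obtain ⟨j, rfl⟩ : ∃ j, k = j + 1 := ⟨k - 1, by omega⟩
  have h2 : 2 ^ (j + 1) / 2 = 2 ^ j := by
    rw [pow_succ, Nat.mul_div_cancel _ two_pos]
  rw [h2, Nat.card_zpowers, orderOf_pow_of_dvd (pow_ne_zero _ two_ne_zero)
    (by rw [hσ]; exact pow_dvd_pow 2 (Nat.le_succ j)), hσ, pow_succ]
  exact Nat.mul_div_cancel_left 2 (by positivity)

theorem key {G : Type} [Group G] (σ : G) (k : ℕ) (hk : 0 < k) (hσ : orderOf σ = 2 ^ k)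
    (ψ : Subgroup.zpowers σ →* ℂˣ) (hψ : Function.Injective ψ) (a : G) :
    (∑ j ∈ Ex (2 ^ k), if a ∈ Subgroup.zpowers σ then extZ (ψ ^ j) a else 0) =
      ((2 ^ k : ℕ) : ℂ) * ((if a ∈ (⊥ : Subgroup G) then 1 else 0) -
        (if a ∈ Subgroup.zpowers (σ ^ (2 ^ k / 2)) then 1 else 0) / 2) := by
  by_cases ha : a ∈ Subgroup.zpowers σ
  · have h1 : ∀ j ∈ Ex (2 ^ k), (if a ∈ Subgroup.zpowers σ then extZ (ψ ^ j) a else 0) =
        ((ψ ⟨a, ha⟩ : ℂˣ) : ℂ) ^ j := by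
      intro j _
      rw [if_pos ha]
      unfold extZ
      rw [dif_pos ha, MonoidHom.pow_apply, Units.val_pow_eq_pow_val]
    rw [Finset.sum_congr rfl h1, CHIx.sumEx 2 k Nat.prime_two hk]
    · have e1 : ((ψ ⟨a, ha⟩ : ℂˣ) : ℂ) = 1 ↔ a ∈ (⊥ : Subgroup G) := by
        rw [Units.val_eq_one, Subgroup.mem_bot, ← map_one ψ]
        exact ⟨fun h => congrArg Subtype.val (hψ h), fun h => congrArg ψ (Subtype.ext h)⟩
      have e2 : ((ψ ⟨a, ha⟩ : ℂˣ) : ℂ) ^ 2 = 1 ↔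
          a ∈ Subgroup.zpowers (σ ^ (2 ^ k / 2)) := by
        rw [mem_iff σ k hk hσ, ← Units.val_pow_eq_pow_val, Units.val_eq_one, ← map_pow,
          ← map_one ψ]
        exact ⟨fun h => ⟨ha, congrArg Subtype.val (hψ h)⟩, fun h => congrArg ψ (Subtype.ext h.2)⟩
      simp only [e1, e2]
      have e3 : ((2 ^ k : ℕ) : ℂ) = 2 * ((2 ^ (k - 1) : ℕ) : ℂ) := by
        obtain ⟨j, rfl⟩ : ∃ j, k = j + 1 := ⟨k - 1, by omega⟩
        rw [Nat.add_sub_cancel, pow_succ, Nat.cast_mul, mul_comm]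
        rfl
      rw [e3]
      split_ifs <;> ring
    · rw [← Units.val_pow_eq_pow_val, ← map_pow]
      have h2 : (⟨a, ha⟩ : Subgroup.zpowers σ) ^ (2 ^ k) = 1 := by
        have h3 : Nat.card (Subgroup.zpowers σ) = 2 ^ k := by rw [Nat.card_zpowers, hσ]
        rw [← h3]
        exact pow_card_eq_one'
      rw [h2, map_one, Units.val_one]
  · have h1 : a ∉ (⊥ : Subgroup G) := fun h => ha (by
      rw [Subgroup.mem_bot] at h
      rw [h]
      exact one_mem _)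
    have h2 : a ∉ Subgroup.zpowers (σ ^ (2 ^ k / 2)) := fun h =>
      ha ((mem_iff σ k hk hσ a).1 h).1
    simp only [if_neg ha, if_neg h1, if_neg h2, Finset.sum_const_zero, zero_div, sub_zero,
      mul_zero]

end DI2x

open DI2x in
theorem DI2_thm : Stmt_DI2 := by
  intro _ G _ _ k t σ γ h ψ hψ x
  have hk : 0 < k := by
    have := h.k3
    omega
  have hA : Nat.card (Subgroup.zpowers σ) = 2 ^ k := by rw [Nat.card_zpowers, h.ord]
  have hn : ((2 ^ k : ℕ) : ℂ) ≠ 0 := Nat.cast_ne_zero.2 (pow_ne_zero _ two_ne_zero)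
  unfold lfun
  rw [mul_div_cancel₀ _ (two_ne_zero : (2 : ℂ) ≠ 0)]
  unfold indFun
  rw [← Finset.sum_div, Finset.sum_comm, Finset.sum_congr rfl fun y _ =>
    key σ k hk h.ord ψ hψ (y⁻¹ * x * y), ← Finset.mul_sum, hA, mul_div_cancel_left₀ _ hn,
    card_z σ k hk h.ord, Finset.sum_sub_distrib, Subgroup.card_bot, Nat.cast_one, div_one,
    ← Finset.sum_div]
  rfl

end StarkC.ABS
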