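import Pool.Agent.ABS.StD3

/-!
# Project ABS (MP_46b841_nt), part D, module DI4: the semidihedral case
-/

set_option autoImplicit false

open scoped Classical

namespace StarkC.ABS

namespace DI4x

/-- odd numbers -/
theorem sum_odd (F : ℕ → ℂ) (M : ℕ) :
    ∑ j ∈ (Finset.range (2 * M)).filter Odd, F j = ∑ i ∈ Finset.range M, F (2 * i + 1) := by
  rw [Finset.sum_filter]
  induction M with
  | zero => rfl
  | succ M ih =>
    have h : 2 * (M + 1) = 2 * M + 1 + 1 := by ring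
    have h1 : Odd (2 * M + 1) := ⟨M, rfl⟩
    have h2 : ¬ Odd (2 * M) := by
      rw [Nat.not_odd_iff_even]
      exact ⟨M, two_mul M⟩
    rw [h, Finset.sum_range_succ, Finset.sum_range_succ, Finset.sum_range_succ, ih, if_pos h1,
      if_neg h2, add_zero]

theorem sum_four (F : ℕ → ℂ) (M : ℕ) :
    ∑ j ∈ (Finset.range (4 * (2 * M))).filter Odd, F j =
      ∑ j ∈ (Finset.range (2 * M)).filter Odd,
        (F j + F (2 * (2 * M) - j) + F (2 * (2 * M) + j) + F (4 * (2 * M) - j)) := by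
  have h4 : 4 * (2 * M) = 2 * (M + M + M + M) := by ring
  rw [h4, sum_odd, sum_odd (fun j => F j + F (2 * (2 * M) - j) + F (2 * (2 * M) + j) +
    F (2 * (M + M + M + M) - j)), Finset.sum_range_add, Finset.sum_range_add,
    Finset.sum_range_add]
  simp only [Finset.sum_add_distrib]
  congr 1
  · congr 1
    · congr 1
      rw [← Finset.sum_range_reflect]
      refine Finset.sum_congr rfl fun i hi => ?_
      have := Finset.mem_range.1 hi
      congr 1
      omega
    · refine Finset.sum_congr rfl fun i hi => ?_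
      congr 1
      omega
  · rw [← Finset.sum_range_reflect]
    refine Finset.sum_congr rfl fun i hi => ?_
    have := Finset.mem_range.1 hi
    congr 1
    omega

theorem pw1 {M : Type} [CommGroup M] (a : M) (n c h : ℕ) (hn : a ^ n = 1) :
    a ^ (n * c + h) = a ^ h := by
  rw [pow_add, pow_mul, hn, one_pow, one_mul]

theorem pw2 {M : Type} [CommGroup M] (a z : M) (j j' i : ℕ) (h1 : a ^ (j' + j) = z)
    (h2 : a ^ (i + j) = z) : a ^ j' = a ^ i := by
  rw [← h2, pow_add, pow_add] at h1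
  exact mul_right_cancel h1

theorem pw3 {M : Type} [CommGroup M] (a : M) (n j : ℕ) (hn : a ^ n = 1) (hj : j ≤ n) :
    a ^ (n - j) = a⁻¹ ^ j := by
  rw [inv_pow, eq_inv_iff_mul_eq_one, ← pow_add, Nat.sub_add_cancel hj, hn]

section

variable {G : Type} [Group G]

theorem mem_iff {A : Subgroup G} {ψ : A →* ℂˣ} {g : G} {n m s : ℕ} (L : Leaf A ψ g n m s)
    (u : G) : g⁻¹ * u * g ∈ A ↔ u ∈ A := by
  refine ⟨fun h => ?_, fun h => L.norm u h⟩
  have h1 := L.norm _ h
  have h2 : u = (g * g) * (g⁻¹ * (g⁻¹ * u * g) * g) * (g * g)⁻¹ := by group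
  rw [h2]
  exact mul_mem (mul_mem L.mem h1) (inv_mem L.mem)

theorem extZ_conj {A : Subgroup G} {ψ : A →* ℂˣ} {g : G} {n m s : ℕ} (L : Leaf A ψ g n m s)
    (j : ℕ) (u : G) : extZ (ψ ^ j) (g⁻¹ * u * g) = extZ (ψ ^ (s * j)) u := by
  unfold extZ
  by_cases h : u ∈ A
  · rw [dif_pos h, dif_pos (L.norm u h), MonoidHom.pow_apply, MonoidHom.pow_apply,
      L.conj ⟨u, h⟩ ⟨g⁻¹ * u * g, L.norm u h⟩ rfl, ← pow_mul]
  · rw [dif_neg h, dif_neg fun h' => h ((mem_iff L u).1 h')]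

theorem ind_conj [Fintype G] {A : Subgroup G} {ψ : A →* ℂˣ} {g : G} {n m s : ℕ}
    (L : Leaf A ψ g n m s) (j : ℕ) (y : G) :
    indFun A (extZ (ψ ^ (s * j))) y = indFun A (extZ (ψ ^ j)) y := by
  unfold indFun
  congr 1
  rw [← Equiv.sum_comp (Equiv.mulRight g) fun x =>
    if x⁻¹ * y * x ∈ A then extZ (ψ ^ j) (x⁻¹ * y * x) else 0]
  refine Finset.sum_congr rfl fun x _ => ?_
  have h : (Equiv.mulRight g x)⁻¹ * y * (Equiv.mulRight g x) = g⁻¹ * (x⁻¹ * y * x) * g := by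
    rw [Equiv.coe_mulRight]
    group
  rw [h, extZ_conj L, if_congr (mem_iff L _) rfl rfl]

end

end DI4x

open DI4x in
theorem DI4_thm : Stmt_DI4 := by
  intro G _ _ A ψ g k t hk L ht x
  obtain ⟨N, hN⟩ : ∃ N, N = 2 ^ (k - 3) := ⟨_, rfl⟩
  have hn : 2 ^ k = 4 * (2 * N) := by
    rw [hN]
    have : k = (k - 3) + 3 := by omega
    conv_lhs => rw [this]
    rw [pow_add]
    ring
  have hn1 : 2 ^ (k - 1) = 2 * (2 * N) := by
    rw [hN]
    have : k - 1 = (k - 3) + 2 := by omega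
    rw [this, pow_add]
    ring
  have hord : ψ ^ (4 * (2 * N)) = 1 := by
    have h := pow_orderOf_eq_one ψ
    rw [L.ord, mul_one, hn] at h
    exact h
  let F : ℕ → ℂ := fun j => indFun A (extZ (ψ ^ j)) x
  have hEx : Ex (2 ^ k) = (Finset.range (4 * (2 * N))).filter Odd := by
    unfold Ex
    rw [hn]
    refine Finset.filter_congr fun j _ => ?_
    rw [← hn, Nat.coprime_pow_left_iff (by omega), Nat.coprime_two_left]
  have key : ∀ j j' : ℕ, Odd j → ψ ^ (j' + j) = ψ ^ (2 * (2 * N)) → F j' = F j := by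
    intro j j' hj h
    have h1 : ψ ^ (t * j + j) = ψ ^ (2 * (2 * N)) := by
      obtain ⟨i, rfl⟩ := hj
      have h2 : t + 1 = 4 * (2 * N) * ((t + 1) / (4 * (2 * N))) + 2 * (2 * N) := by
        have h3 := Nat.div_add_mod (t + 1) (4 * (2 * N))
        rw [← hn, ht, hn1, hn] at h3
        exact h3.symm
      have h4 : t * (2 * i + 1) + (2 * i + 1) =
          4 * (2 * N) * ((t + 1) / (4 * (2 * N)) * (2 * i + 1) + i) + 2 * (2 * N) := by
        calc t * (2 * i + 1) + (2 * i + 1) = (t + 1) * (2 * i + 1) := by ring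
          _ = (4 * (2 * N) * ((t + 1) / (4 * (2 * N))) + 2 * (2 * N)) * (2 * i + 1) := by
            rw [← h2]
          _ = _ := by ring
      rw [h4]
      exact pw1 ψ _ _ _ hord
    have h2 : ψ ^ j' = ψ ^ (t * j) := pw2 ψ _ _ _ _ h h1
    show indFun A (extZ (ψ ^ j')) x = indFun A (extZ (ψ ^ j)) x
    rw [h2, ind_conj L]
  have h4N : 2 ^ k / 4 = 2 * N := by
    rw [hn]
    exact Nat.mul_div_cancel_left _ (by norm_num)
  unfold lfun
  rw [hEx, h4N]
  have hs := sum_four F N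
  rw [show ∑ j ∈ (Finset.range (4 * (2 * N))).filter Odd, indFun A (extZ (ψ ^ j)) x =
    ∑ j ∈ (Finset.range (4 * (2 * N))).filter Odd, F j from rfl, hs, Finset.sum_div]
  refine Finset.sum_congr rfl fun j hj => ?_
  rw [Finset.mem_filter, Finset.mem_range] at hj
  obtain ⟨hj1, hj2⟩ := hj
  have e1 : F (2 * (2 * N) - j) = F j := key j _ hj2 (by rw [Nat.sub_add_cancel (by omega)])
  have hodd : Odd (4 * (2 * N) - j) := by
    obtain ⟨i, rfl⟩ := hj2
    exact ⟨4 * N - i - 1, by omega⟩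
  have e2 : F (2 * (2 * N) + j) = F (4 * (2 * N) - j) := key _ _ hodd (by
    have : 2 * (2 * N) + j + (4 * (2 * N) - j) = 4 * (2 * N) * 1 + 2 * (2 * N) := by omega
    rw [this]
    exact pw1 ψ _ _ _ hord)
  have e3 : F (4 * (2 * N) - j) = indFun A (extZ (ψ⁻¹ ^ j)) x := by
    have h5 : ψ ^ (4 * (2 * N) - j) = ψ⁻¹ ^ j := pw3 ψ _ _ hord (by omega)
    show indFun A (extZ (ψ ^ (4 * (2 * N) - j))) x = _
    rw [h5]
  rw [e1, e2, e3]
  show (indFun A (extZ (ψ ^ j)) x + indFun A (extZ (ψ ^ j)) x + _ + _) / 2 = _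
  ring

end StarkC.ABS
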