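import Pool.Agent.ABS.StB

/-!
# Project ABS, module PINF: inflation
-/

open NumberField IsDedekindDomain
open scoped TensorProduct Classical

namespace StarkC.ABS

namespace PINFx

theorem cSum_class {G : Type} [Group G] (n : ℕ) (ψ : G →* ℂˣ) (g h : G) :
    cSum n ψ (h * g * h⁻¹) = cSum n ψ g := by
  unfold cSum
  refine Finset.sum_congr rfl fun t _ => ?_
  have h1 : ψ (h * g * h⁻¹) = ψ g := by
    rw [map_mul, map_mul, map_inv, mul_right_comm, mul_inv_cancel, one_mul]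
  rw [h1]

theorem pow_comp {G G' : Type} [Group G] [Group G'] (ψ : G →* ℂˣ) (r : G' →* G) (t : ℕ) :
    (ψ.comp r) ^ t = (ψ ^ t).comp r := by
  refine MonoidHom.ext fun g => ?_
  rfl

theorem logL_infl (K L N : Type) [Field K] [NumberField K] [Field L]
    [NumberField L] [Field N] [NumberField N]
    [Algebra K L] [Algebra K N] [Algebra L N] [IsScalarTower K L N] [IsGalois K L] [IsGalois K N]
    (χ : (L ≃ₐ[K] L) → ℂ) (hχ : ∀ g h, χ (h * g * h⁻¹) = χ g)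
    (S : Set (HeightOneSpectrum (𝓞 K))) (s : ℂ) :
    logL (K := K) (L := N) (fun g : N ≃ₐ[K] N => χ (AlgEquiv.restrictNormalHom L g)) S s =
      logL χ S s := by
  unfold logL
  refine tsum_congr fun p => ?_
  rw [LINF_thm K L N χ hχ p.1 (p.2 + 1)]

end PINFx

open PINFx in
theorem PINF_thm : Stmt_PINF := by
  intro hF hS hN hPR n K L N _ _ _ _ _ _ _ _ _ _ _ _ ψ ψ' S hn hψn hψψ' hall φ₂ Θ₂ hφ₂
  have hψ2 : ψ' = ψ.comp (AlgEquiv.restrictNormalHom L) := by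
    refine MonoidHom.ext fun g => ?_
    exact (hψψ' g).symm
  subst hψ2
  obtain ⟨φ₀, Θ₀, h₀⟩ := ALLT.exph K L S
  obtain ⟨F, α, hFL, hα, hEq⟩ := hall φ₀ Θ₀ h₀
  obtain ⟨φ₁, Θ₁, h₁, hReg⟩ := ALLT.infl K L N S φ₀ Θ₀ h₀
  have hpow : (ψ.comp (AlgEquiv.restrictNormalHom L) : (N ≃ₐ[K] N) →* ℂˣ) ^ n = 1 := by
    rw [pow_comp, hψn]
    rfl
  refine hPR hF hS hN n K N (ψ.comp (AlgEquiv.restrictNormalHom L)) S φ₁ φ₂ Θ₁ Θ₂ hn hpow h₁ hφ₂
    ⟨F, α, ⟨hFL.1, fun s hs => ?_⟩, hα, ?_⟩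
  · rw [hFL.2 s hs]
    congr 1
    exact (logL_infl K L N (cSum n ψ) (cSum_class n ψ) _ s).symm
  · rw [← hEq]
    unfold cReg
    refine Finset.prod_congr rfl fun t _ => ?_
    rw [pow_comp, BASEQ.linRep_comp]
    exact hReg ℂ (linRep (ψ ^ t))

end StarkC.ABS
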