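import Pool.Agent.ABS.StD4
import Pool.Agent.ABS.PINF

/-!
# ABS_DIF: inflation for dihedral and semidihedral leaves
-/

set_option autoImplicit false

open NumberField IsDedekindDomain
open scoped TensorProduct Classical

namespace StarkC.ABS

namespace DIFx

section

variable {G G' : Type} [Group G] [Group G'] (r : G' →* G) {H : Subgroup G} {ψ : H →* ℂˣ}
  {A : Subgroup G'} {ψ' : A →* ℂˣ}

theorem ext_eq (hA : A = H.comap r)
    (h : ∀ (a : A) (b : H), (b : G) = r (a : G') → ψ' a = ψ b) (j : ℕ) (x : G') (hx : x ∈ A) :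
    extZ (ψ' ^ j) x = extZ (ψ ^ j) (r x) := by
  have hr : r x ∈ H := by
    rw [hA] at hx
    exact hx
  unfold extZ
  rw [dif_pos hx, dif_pos hr, MonoidHom.pow_apply, MonoidHom.pow_apply,
    h ⟨x, hx⟩ ⟨r x, hr⟩ rfl]

theorem ind_eq [Fintype G] [Fintype G'] (hr : Function.Surjective r) (hA : A = H.comap r)
    (h : ∀ (a : A) (b : H), (b : G) = r (a : G') → ψ' a = ψ b) (j : ℕ) (x : G') :
    indFun A (extZ (ψ' ^ j)) x = indFun H (extZ (ψ ^ j)) (r x) := by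
  rw [CMB.indFun_infl r hr, ← hA]
  exact congrFun (CMB.indFun_congr A fun g hg => ext_eq r hA h j g hg) x

theorem lfun_eq [Fintype G] [Fintype G'] (hr : Function.Surjective r) (hA : A = H.comap r)
    (h : ∀ (a : A) (b : H), (b : G) = r (a : G') → ψ' a = ψ b) (k : ℕ) (x : G') :
    lfun k A ψ' x = lfun k H ψ (r x) := by
  unfold lfun
  congr 1
  exact Finset.sum_congr rfl fun j _ => ind_eq r hr hA h j x

end

theorem lfun_class {G : Type} [Group G] [Fintype G] (k : ℕ) (H : Subgroup G) (ψ : H →* ℂˣ)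
    (g h : G) : lfun k H ψ (h * g * h⁻¹) = lfun k H ψ g := by
  unfold lfun
  congr 1
  refine Finset.sum_congr rfl fun j _ => ?_
  have h1 := CCQ.indFun_conj H (extZ (ψ ^ j)) h⁻¹ g
  rw [inv_inv] at h1
  exact h1

/-- the regulator of an induced character -/
theorem reg_mono (K L : Type) [Field K] [NumberField K] [Field L] [NumberField L] [Algebra K L]
    [IsGalois K L] (S : Finset (HeightOneSpectrum (𝓞 K)))
    (φ : XQ L (aboveSet K L S) ≃ₗ[ℚ] QU L (aboveSet K L S))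
    (Θ : XC L (aboveSet K L S) →ₗ[ℂ] XC L (aboveSet K L S))
    (hφ : IsPhiTheta K (aboveSet K L S) φ Θ) (H : Subgroup (L ≃ₐ[K] L)) (ψ : H →* ℂˣ)
    (V : Type) [AddCommGroup V] [Module ℂ V] [Module.Finite ℂ V]
    (ρ : Representation ℂ (L ≃ₐ[K] L) V) (hρ : ∀ g, ρ.character g = indFun H (extZ ψ) g) :
    Reg (aboveSet K L S) ρ Θ = Reg (aboveSet K L S) (linRep (liftChar H ψ)) Θ := by
  have hTf : (aboveSet K L (S : Set (HeightOneSpectrum (𝓞 K)))).Finite :=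
    IND.aboveSet_finite _ S.finite_toSet
  have hT := STB_thm K L (S : Set (HeightOneSpectrum (𝓞 K)))
  have hc := ALLT.thc K L _ hT φ Θ hTf hφ
  have hb := ALLT.thb K L _ φ Θ hTf hφ
  have h1 := INDP.reg_comb TRD_thm ALLT.rgt hTf hT Θ hb hc V ρ 1 1 (fun _ => H) (fun _ => ψ)
    (fun _ => 1) (fun g => by
      rw [Nat.cast_one, one_mul, hρ g, Fin.sum_univ_one, Int.cast_one, one_mul])
  rw [pow_one, Fin.prod_univ_one, zpow_one] at h1
  exact h1

end DIFx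

open DIFx in
theorem DIF_thm : Stmt_DIF := by
  intro hPH K L N _ _ _ _ _ _ _ _ _ _ _ _ k t σ γ ψ A ψ' g S hD hψ hleaf hA hψψ' hall φ₂ Θ₂ hφ₂
  obtain ⟨φ₀, Θ₀, h₀⟩ := ALLT.exph K L S
  obtain ⟨F, α, r, hF, hα, hr, hlead, hprod⟩ := hall φ₀ Θ₀ h₀
  obtain ⟨φ₁, Θ₁, h₁, hReg⟩ := ALLT.infl K L N S φ₀ Θ₀ h₀
  have hsurj : Function.Surjective
      (AlgEquiv.restrictNormalHom L : (N ≃ₐ[K] N) →* (L ≃ₐ[K] L)) :=
    AlgEquiv.restrictNormalHom_surjective N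
  refine hPH K N S φ₁ φ₂ Θ₁ Θ₂ A ψ' g k t hD.k3 hleaf h₁ hφ₂
    ⟨F, α, r, ⟨hF.1, fun s hs => ?_⟩, hα, hr, hlead, ?_⟩
  · rw [hF.2 s hs]
    congr 1
    have h2 : lfun k A ψ' = fun x : N ≃ₐ[K] N =>
        lfun k (Subgroup.zpowers σ) ψ (AlgEquiv.restrictNormalHom L x) :=
      funext fun x => lfun_eq _ hsurj hA hψψ' k x
    rw [h2]
    exact (PINFx.logL_infl K L N (lfun k (Subgroup.zpowers σ) ψ)
      (lfun_class k (Subgroup.zpowers σ) ψ) _ s).symm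
  · rw [← hprod]
    refine Finset.prod_congr rfl fun j _ => ?_
    obtain ⟨V, _, _, _, ρ, hρ⟩ := INDREP_thm (L ≃ₐ[K] L) (Subgroup.zpowers σ) (ψ ^ j)
    rw [← reg_mono K L S φ₀ Θ₀ h₀ _ (ψ ^ j) V ρ hρ,
      ← reg_mono K N S φ₁ Θ₁ h₁ A (ψ' ^ j) V
        (ρ.comp (AlgEquiv.restrictNormalHom L : (N ≃ₐ[K] N) →* (L ≃ₐ[K] L)))
        (fun x => by
          rw [ind_eq _ hsurj hA hψψ' j x]
          exact hρ _)]
    exact hReg V ρ

end StarkC.ABS
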