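import Pool.Agent.ABS.StA

/-!
# ABS, module KER: modules over the ring of integers of a cyclotomic field
-/

open NumberField Polynomial
open scoped Classical

namespace ABS

namespace KER

theorem inst (n : ℕ) [NeZero n] : IsCyclotomicExtension {n} ℚ (CyclotomicField n ℚ) :=
  CyclotomicField.isCyclotomicExtension n ℚ

attribute [local instance] inst

theorem minpoly_eq (n : ℕ) [NeZero n] :
    minpoly ℤ (IsCyclotomicExtension.zeta_spec n ℚ (CyclotomicField n ℚ)).integralPowerBasis.gen =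
      cyclotomic n ℤ := by
  have h1 := IsCyclotomicExtension.zeta_spec n ℚ (CyclotomicField n ℚ)
  rw [IsPrimitiveRoot.integralPowerBasis_gen]
  rw [cyclotomic_eq_minpoly h1 (NeZero.pos n)]
  have h2 := minpoly.algebraMap_eq (A := ℤ) (B := 𝓞 (CyclotomicField n ℚ))
    (B' := CyclotomicField n ℚ) (RingOfIntegers.coe_injective) h1.toInteger
  rw [← h2]
  rfl

theorem aeval_cyc (l k : ℕ) (hl : l.Prime) (hk : 0 < k) (M : Type) [AddCommGroup M] (s : M →+ M)
    (h : ∀ x, ∑ i ∈ Finset.range l, s^[l ^ k / l * i] x = 0) :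
    aeval (s.toIntLinearMap : Module.End ℤ M) (cyclotomic (l ^ k) ℤ) = 0 := by
  obtain ⟨j, rfl⟩ : ∃ j, k = j + 1 := ⟨k - 1, by omega⟩
  rw [cyclotomic_prime_pow_eq_geom_sum hl, map_sum]
  ext x
  rw [LinearMap.sum_apply, LinearMap.zero_apply, ← h x]
  refine Finset.sum_congr rfl fun i _ => ?_
  have h1 : l ^ (j + 1) / l = l ^ j := by
    rw [pow_succ, Nat.mul_div_cancel _ hl.pos]
  rw [h1, map_pow, map_pow, aeval_X, ← pow_mul, Module.End.pow_apply]
  rfl

end KER

open KER in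
theorem KER_thm : Stmt_KER := by
  intro hCRD l k hl hk M _ _ s h
  have hn : NeZero (l ^ k) := ⟨pow_ne_zero _ hl.ne_zero⟩
  have hi := KER.inst (l ^ k)
  let pb := (IsCyclotomicExtension.zeta_spec (l ^ k) ℚ
    (CyclotomicField (l ^ k) ℚ)).integralPowerBasis
  have h1 : aeval (s.toIntLinearMap : Module.End ℤ M) (minpoly ℤ pb.gen) = 0 := by
    rw [minpoly_eq (l ^ k)]
    exact aeval_cyc l k hl hk M s h
  let φ : 𝓞 (CyclotomicField (l ^ k) ℚ) →ₐ[ℤ] Module.End ℤ M := pb.lift _ h1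
  let _ : Module (𝓞 (CyclotomicField (l ^ k) ℚ)) M := Module.compHom M φ.toRingHom
  exact hCRD (CyclotomicField (l ^ k) ℚ) M

end ABS
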