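import Pool.Agent.ABS.StD1
import Pool.Agent.ABS.KER

/-!
# ABS, module DKR: odd modules over the ring of integers of a cyclotomic field with an involution
-/

open NumberField Polynomial
open scoped Classical

namespace ABS

namespace DKR

theorem arith {k t : ℕ} (hk : 3 ≤ k)
    (h : (t : ZMod (2 ^ k)) = -1 ∨ (t : ZMod (2 ^ k)) = -1 + 2 ^ (k - 1)) :
    (∃ a, t * t = 2 ^ k * a + 1) ∧ 1 ≤ t ∧
      ∃ b, (t - 1) * (2 ^ k / 4) = 2 ^ k * b + 2 ^ k / 2 := by
  obtain ⟨j, rfl⟩ : ∃ j, k = j + 3 := ⟨k - 3, by omega⟩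
  have hN1 : 1 ≤ 2 ^ j := Nat.one_le_two_pow
  have hn : 2 ^ (j + 3) = 8 * 2 ^ j := by rw [pow_add]; ring
  have hn' : 2 ^ (j + 2) = 4 * 2 ^ j := by rw [pow_add]; ring
  have h1 : (∃ q, t + 1 = 8 * 2 ^ j * q) ∨ ∃ q, t + 1 = 8 * 2 ^ j * q + 4 * 2 ^ j := by
    rcases h with h | h
    · left
      have h2 : ((t + 1 : ℕ) : ZMod (2 ^ (j + 3))) = 0 := by push_cast; rw [h]; ring
      rw [ZMod.natCast_eq_zero_iff] at h2
      obtain ⟨q, hq⟩ := h2
      exact ⟨q, by rw [hq, hn]⟩
    · right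
      have h2 : ((t + 1 : ℕ) : ZMod (2 ^ (j + 3))) = ((2 ^ (j + 2) : ℕ) : ZMod (2 ^ (j + 3))) := by
        push_cast
        rw [h, show j + 3 - 1 = j + 2 from rfl]
        ring
      rw [ZMod.natCast_eq_natCast_iff', Nat.mod_eq_of_lt (a := 2 ^ (j + 2)) (by rw [hn, hn']; omega),
        hn, hn'] at h2
      refine ⟨(t + 1) / (8 * 2 ^ j), ?_⟩
      have h3 := Nat.div_add_mod (t + 1) (8 * 2 ^ j)
      rw [h2] at h3
      exact h3.symm
  rw [hn]
  generalize 2 ^ j = N at *
  have e4 : 8 * N / 4 = 2 * N := by omega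
  have e2 : 8 * N / 2 = 4 * N := by omega
  rw [e4, e2]
  rcases h1 with ⟨q, hq⟩ | ⟨q, hq⟩
  · have hq0 : q ≠ 0 := by rintro rfl; omega
    obtain ⟨r, rfl⟩ : ∃ r, q = r + 1 := ⟨q - 1, by omega⟩
    have ht : 1 ≤ t := by
      have : 8 * N ≤ 8 * N * (r + 1) := Nat.le_mul_of_pos_right _ (by omega)
      omega
    obtain ⟨u, rfl⟩ : ∃ u, t = u + 1 := ⟨t - 1, by omega⟩
    refine ⟨⟨(r + 1) * u, ?_⟩, ht, ?_⟩
    · calc (u + 1) * (u + 1) = (u + 1 + 1) * u + 1 := by ring
        _ = 8 * N * ((r + 1) * u) + 1 := by rw [hq]; ring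
    · obtain ⟨b, hb⟩ : ∃ b, 2 * N * (r + 1) = b + 1 := ⟨2 * N * (r + 1) - 1, by
        have : 2 * N ≤ 2 * N * (r + 1) := Nat.le_mul_of_pos_right _ (by omega)
        omega⟩
      refine ⟨b, ?_⟩
      have e : (u + 1 - 1) * (2 * N) + 4 * N = 8 * N * b + 4 * N + 4 * N := by
        calc (u + 1 - 1) * (2 * N) + 4 * N = (u + 1 + 1) * (2 * N) := by
              rw [Nat.add_sub_cancel]; ring
          _ = 8 * N * (2 * N * (r + 1)) := by rw [hq]; ring
          _ = _ := by rw [hb]; ring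
      omega
  · have ht : 1 ≤ t := by omega
    obtain ⟨u, rfl⟩ : ∃ u, t = u + 1 := ⟨t - 1, by omega⟩
    obtain ⟨w, hw⟩ : ∃ w, 4 * N * q + 2 * N = w + 1 := ⟨4 * N * q + 2 * N - 1, by omega⟩
    have hu : u = 2 * w := by
      have : 8 * N * q = 2 * (4 * N * q) := by ring
      omega
    refine ⟨⟨2 * q * w + w, ?_⟩, ht, ?_⟩
    · calc (u + 1) * (u + 1) = (u + 1 + 1) * u + 1 := by ring
        _ = 8 * N * (2 * q * w + w) + 1 := by rw [hq, hu]; ring
    · obtain ⟨b, hb⟩ : ∃ b, 2 * N * q + N = b + 1 := ⟨2 * N * q + N - 1, by omega⟩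
      refine ⟨b, ?_⟩
      have e : (u + 1 - 1) * (2 * N) + 4 * N = 8 * N * b + 4 * N + 4 * N := by
        calc (u + 1 - 1) * (2 * N) + 4 * N = (u + 1 + 1) * (2 * N) := by
              rw [Nat.add_sub_cancel]; ring
          _ = 8 * N * (2 * N * q + N) := by rw [hq]; ring
          _ = _ := by rw [hb]; ring
      omega

section

variable {M : Type} [AddCommGroup M] (s g : M →+ M)

theorem it_mul (m a : ℕ) (h : ∀ x, s^[m] x = x) (x : M) : s^[m * a] x = x := by
  induction a with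
  | zero => rfl
  | succ a ih => rw [Nat.mul_succ, Function.iterate_add_apply, h, ih]

theorem g_it (t : ℕ) (h : ∀ x, g (s x) = s^[t] (g x)) (j : ℕ) (x : M) :
    g (s^[j] x) = s^[t * j] (g x) := by
  induction j generalizing x with
  | zero => rfl
  | succ j ih =>
    rw [Function.iterate_succ_apply, ih, h, ← Function.iterate_add_apply, Nat.mul_succ]

theorem card_plus [Finite M] {k t : ℕ} (hk : 3 ≤ k)
    (h : (t : ZMod (2 ^ k)) = -1 ∨ (t : ZMod (2 ^ k)) = -1 + 2 ^ (k - 1))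
    (hodd : Odd (Nat.card M)) (hs : ∀ x, s^[2 ^ k / 2] x = -x) (hgs : ∀ x, g (s x) = s^[t] (g x))
    (hgg : ∀ x, g (g x) = x) : Nat.card {x : M // g x = x} ^ 2 = Nat.card M := by
  obtain ⟨⟨a, ha⟩, ht, b, hb⟩ := arith hk h
  have h2 : ∀ x : M, x + x = 0 → x = 0 := by
    intro x hx
    obtain ⟨m, hm⟩ := hodd
    have h3 : Nat.card M • x = 0 := card_nsmul_eq_zero'
    rwa [hm, add_nsmul, mul_nsmul, two_nsmul, hx, nsmul_zero, zero_add, one_nsmul] at h3
  have hper : ∀ x, s^[2 ^ k] x = x := by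
    intro x
    have e : 2 ^ k = 2 ^ k / 2 + 2 ^ k / 2 := by
      obtain ⟨j, rfl⟩ : ∃ j, k = j + 1 := ⟨k - 1, by omega⟩
      rw [pow_succ]
      omega
    rw [e, Function.iterate_add_apply, hs, hs, neg_neg]
  have htt : ∀ x, s^[t * t] x = s x := by
    intro x
    rw [ha, Function.iterate_add_apply, it_mul s _ _ hper]
    rfl
  have hinj1 : ∀ x y, s x = s y → x = y := by
    intro x y hxy
    have e : 2 ^ k = (2 ^ k - 1) + 1 := by
      have : 1 ≤ 2 ^ k := Nat.one_le_two_pow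
      omega
    rw [← hper x, ← hper y, e, Function.iterate_succ_apply, Function.iterate_succ_apply, hxy]
  have hδ : ∀ x, s x - s^[t] x = 0 → x = 0 := by
    intro x hx
    have e1 : s^[t - 1] x = x := by
      apply hinj1
      rw [← Function.iterate_succ_apply' s, Nat.succ_eq_add_one, show t - 1 + 1 = t from by omega]
      exact (sub_eq_zero.1 hx).symm
    have e2 : ∀ m : ℕ, s^[(t - 1) * m] x = x := by
      intro m
      induction m with
      | zero => rfl
      | succ m ih => rw [Nat.mul_succ, Function.iterate_add_apply, e1, ih]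
    have e3 := e2 (2 ^ k / 4)
    rw [hb, Function.iterate_add_apply, it_mul s _ _ hper, hs] at e3
    apply h2
    nth_rewrite 1 [← e3]
    exact neg_add_cancel x
  have hcard : Nat.card {x : M // g x = x} * Nat.card {y : M // g y = -y} = Nat.card M := by
    rw [← Nat.card_prod]
    refine Nat.card_congr (Equiv.ofBijective
      (fun p : {x : M // g x = x} × {y : M // g y = -y} => (p.1 : M) + p.2) ⟨?_, ?_⟩)
    · rintro ⟨⟨x, hx⟩, ⟨y, hy⟩⟩ ⟨⟨x', hx'⟩, ⟨y', hy'⟩⟩ hxy
      change x + y = x' + y' at hxy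
      have e1 : x - y = x' - y' := by
        have := congrArg g hxy
        rw [map_add, map_add, hx, hy, hx', hy'] at this
        rw [sub_eq_add_neg, sub_eq_add_neg, this]
      have e2 : x = x' := by
        have e3 : (x - x') + (x - x') = 0 := by
          have : (x - x') + (x - x') = (x + y) + (x - y) - ((x' + y') + (x' - y')) := by abel
          rw [this, hxy, e1, sub_self]
        exact sub_eq_zero.1 (h2 _ e3)
      subst e2
      have e3 : y = y' := add_left_cancel hxy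
      subst e3
      rfl
    · intro z
      have hdi : Function.Injective (fun x : M => x + x) := by
        intro x y hxy
        have e3 : (x - y) + (x - y) = 0 := by
          have : (x - y) + (x - y) = (x + x) - (y + y) := by abel
          rw [this]
          exact sub_eq_zero.2 hxy
        exact sub_eq_zero.1 (h2 _ e3)
      obtain ⟨w, hw⟩ := Finite.surjective_of_injective hdi z
      refine ⟨(⟨w + g w, ?_⟩, ⟨w - g w, ?_⟩), ?_⟩
      · rw [map_add, hgg, add_comm]
      · rw [map_sub, hgg, neg_sub]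
      · change w + g w + (w - g w) = z
        rw [← hw]
        change _ = w + w
        abel
  have hle1 : Nat.card {x : M // g x = x} ≤ Nat.card {y : M // g y = -y} := by
    refine Nat.card_le_card_of_injective (fun x => ⟨s x.1 - s^[t] x.1, ?_⟩) ?_
    · rw [map_sub, hgs, g_it s g t hgs, htt, x.2, neg_sub]
    · rintro ⟨x, hx⟩ ⟨y, hy⟩ hxy
      have e := congrArg Subtype.val hxy
      change s x - s^[t] x = s y - s^[t] y at e
      have e1 : s (x - y) - s^[t] (x - y) = 0 := by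
        rw [map_sub, iterate_map_sub]
        have : s x - s y - (s^[t] x - s^[t] y) = (s x - s^[t] x) - (s y - s^[t] y) := by abel
        rw [this, e, sub_self]
      exact Subtype.ext (sub_eq_zero.1 (hδ _ e1))
  have hle2 : Nat.card {y : M // g y = -y} ≤ Nat.card {x : M // g x = x} := by
    refine Nat.card_le_card_of_injective (fun x => ⟨s x.1 - s^[t] x.1, ?_⟩) ?_
    · rw [map_sub, hgs, g_it s g t hgs, htt, x.2, iterate_map_neg, map_neg, neg_sub_neg]
    · rintro ⟨x, hx⟩ ⟨y, hy⟩ hxy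
      have e := congrArg Subtype.val hxy
      change s x - s^[t] x = s y - s^[t] y at e
      have e1 : s (x - y) - s^[t] (x - y) = 0 := by
        rw [map_sub, iterate_map_sub]
        have : s x - s y - (s^[t] x - s^[t] y) = (s x - s^[t] x) - (s y - s^[t] y) := by abel
        rw [this, e, sub_self]
      exact Subtype.ext (sub_eq_zero.1 (hδ _ e1))
  rw [← hcard, ← le_antisymm hle1 hle2, sq]

end

end DKR

open KER in
theorem DKR_thm : Stmt_DKR := by
  intro hCRD k t E _ _ _ τ hFD M _ _ s g hodd hs hgs hgg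
  have hk := hFD.k3
  have hn : NeZero (2 ^ k) := ⟨by positivity⟩
  have hi := KER.inst (2 ^ k)
  have hζ := IsCyclotomicExtension.zeta_spec (2 ^ k) ℚ (CyclotomicField (2 ^ k) ℚ)
  let pb := (IsCyclotomicExtension.zeta_spec (2 ^ k) ℚ
    (CyclotomicField (2 ^ k) ℚ)).integralPowerBasis
  have h1 : aeval (s.toIntLinearMap : Module.End ℤ M) (minpoly ℤ pb.gen) = 0 := by
    rw [minpoly_eq (2 ^ k)]
    refine aeval_cyc 2 k Nat.prime_two (by omega) M s fun x => ?_
    rw [Finset.sum_range_succ, Finset.sum_range_one, mul_zero, mul_one, hs]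
    simp
  let φ : 𝓞 (CyclotomicField (2 ^ k) ℚ) →ₐ[ℤ] Module.End ℤ M := pb.lift _ h1
  have hφ : φ pb.gen = s.toIntLinearMap := pb.lift_gen _ h1
  have hpb : pb.gen = hζ.toInteger := IsPrimitiveRoot.integralPowerBasis_gen _
  let gl : Module.End ℤ M := g.toIntLinearMap
  have hgl : gl * gl = 1 := LinearMap.ext fun x => hgg x
  let ψ : 𝓞 (CyclotomicField (2 ^ k) ℚ) →ₐ[ℤ] Module.End ℤ M := RingHom.toIntAlgHom
    { toFun := fun x => gl * φ x * gl
      map_one' := by rw [map_one, mul_one, hgl]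
      map_mul' := fun x y => by
        rw [map_mul]
        calc gl * (φ x * φ y) * gl = gl * φ x * 1 * φ y * gl := by simp only [mul_one, mul_assoc]
          _ = gl * φ x * gl * (gl * φ y * gl) := by rw [← hgl]; simp only [mul_assoc]
      map_zero' := by rw [map_zero, mul_zero, zero_mul]
      map_add' := fun x y => by rw [map_add, mul_add, add_mul] }
  have hψ : ∀ x, ψ x = gl * φ x * gl := fun x => rfl
  let τ' : 𝓞 (CyclotomicField (2 ^ k) ℚ) →ₐ[ℤ] 𝓞 (CyclotomicField (2 ^ k) ℚ) :=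
    RingHom.toIntAlgHom (RingOfIntegers.mapRingHom τ)
  have hτ' : ∀ x, ((τ' x : 𝓞 (CyclotomicField (2 ^ k) ℚ)) : CyclotomicField (2 ^ k) ℚ) =
      τ (x : CyclotomicField (2 ^ k) ℚ) := fun x => rfl
  have h2 : ψ = φ.comp τ' := by
    apply pb.algHom_ext
    have h3 : τ' pb.gen = pb.gen ^ t := by
      apply RingOfIntegers.coe_injective
      rw [hpb]
      have e3 := hFD.act _ hζ.pow_eq_one
      have e4 := map_pow (algebraMap (𝓞 (CyclotomicField (2 ^ k) ℚ)) (CyclotomicField (2 ^ k) ℚ))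
        hζ.toInteger t
      exact e3.trans e4.symm
    rw [AlgHom.comp_apply, h3, map_pow, hφ, hψ, hφ]
    ext x
    rw [Module.End.pow_apply]
    change g (s (g x)) = s^[t] x
    rw [hgs, hgg]
  have hcomm : ∀ (e : 𝓞 E) (x : M),
      g (φ (algebraMap (𝓞 E) (𝓞 (CyclotomicField (2 ^ k) ℚ)) e) x) =
        φ (algebraMap (𝓞 E) (𝓞 (CyclotomicField (2 ^ k) ℚ)) e) (g x) := by
    intro e x
    have h3 : τ' (algebraMap (𝓞 E) (𝓞 (CyclotomicField (2 ^ k) ℚ)) e) =
        algebraMap (𝓞 E) (𝓞 (CyclotomicField (2 ^ k) ℚ)) e := by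
      apply RingOfIntegers.coe_injective
      change τ (algebraMap E (CyclotomicField (2 ^ k) ℚ) (e : E)) = _
      rw [AlgEquiv.commutes]
      rfl
    have h4 : ψ (algebraMap (𝓞 E) (𝓞 (CyclotomicField (2 ^ k) ℚ)) e) =
        φ (algebraMap (𝓞 E) (𝓞 (CyclotomicField (2 ^ k) ℚ)) e) := by
      rw [h2, AlgHom.comp_apply, h3]
    have h5 := congrArg (fun f : Module.End ℤ M => f (g x)) h4
    rw [← h5, hψ]
    change _ = g (φ _ (g (g x)))
    rw [hgg]
  let _ : Module (𝓞 E) M := Module.compHom M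
    ((φ : 𝓞 (CyclotomicField (2 ^ k) ℚ) →+* Module.End ℤ M).comp
      (algebraMap (𝓞 E) (𝓞 (CyclotomicField (2 ^ k) ℚ))))
  let P : Submodule (𝓞 E) M :=
    { carrier := {x | g x = x}
      add_mem' := fun {x y} hx hy => by
        change g (x + y) = x + y
        rw [map_add, hx, hy]
      zero_mem' := map_zero g
      smul_mem' := fun e x hx => by
        change g (φ (algebraMap (𝓞 E) (𝓞 (CyclotomicField (2 ^ k) ℚ)) e) x) =
          φ (algebraMap (𝓞 E) (𝓞 (CyclotomicField (2 ^ k) ℚ)) e) x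
        rw [hcomm, hx] }
  obtain ⟨I, hI, hc⟩ := hCRD E P
  refine ⟨I, hI, ?_⟩
  rw [hc]
  exact DKR.card_plus s g hk hFD.cases hodd hs hgs hgg

end ABS
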