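import Pool.Agent.ABS.StD4

/-!
# ABS_DLI: the character induced from `ψ ^ (j s)` is the one induced from `ψ ^ j`
-/

set_option autoImplicit false

open scoped Classical

namespace StarkC.ABS

theorem DLI_thm : Stmt_DLI := by
  intro G _ _ A ψ g n m s hL j x
  have hmem : ∀ a : G, g⁻¹ * a * g ∈ A ↔ a ∈ A := by
    let f : A → A := fun a => ⟨g⁻¹ * a * g, hL.norm a a.2⟩
    have hf : Function.Injective f := by
      intro a b h
      have h' := congrArg Subtype.val h
      apply Subtype.ext
      simpa [f] using h'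
    have hs := Finite.surjective_of_injective hf
    intro a
    constructor
    · intro h
      obtain ⟨b, hb⟩ := hs ⟨_, h⟩
      have h' := congrArg Subtype.val hb
      have hb' : (b : G) = a := by simpa [f] using h'
      rw [← hb']
      exact b.2
    · exact fun h => hL.norm a h
  unfold indFun
  congr 1
  rw [← Equiv.sum_comp (Equiv.mulRight g)
    (fun y : G => if y⁻¹ * x * y ∈ A then extZ (ψ ^ j) (y⁻¹ * x * y) else 0)]
  refine Finset.sum_congr rfl fun y _ => ?_
  have e : (Equiv.mulRight g y)⁻¹ * x * (Equiv.mulRight g y) = g⁻¹ * (y⁻¹ * x * y) * g := by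
    simp [mul_assoc]
  rw [e]
  by_cases h : y⁻¹ * x * y ∈ A
  · have h2 := (hmem _).2 h
    rw [if_pos h, if_pos h2]
    unfold extZ
    rw [dif_pos h, dif_pos h2]
    have h3 := hL.conj ⟨_, h⟩ ⟨_, h2⟩ rfl
    rw [MonoidHom.pow_apply, MonoidHom.pow_apply, h3, ← pow_mul, mul_comm]
  · rw [if_neg h, if_neg fun h2 => h ((hmem _).1 h2)]

end StarkC.ABS
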