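import Pool.Agent.ABS.StD4

/-!
# ABS, part D, module DLL: `L`-series over an intermediate field
-/

set_option autoImplicit false

open NumberField IsDedekindDomain
open scoped TensorProduct Classical

namespace StarkC.ABS

namespace DLLx

section

variable {K L : Type} [Field K] [NumberField K] [Field L] [NumberField L] [Algebra K L]
  [IsGalois K L]

omit [IsGalois K L] in
theorem exists_up (B : Subgroup (L ≃ₐ[K] L)) (y : L ≃ₐ[K] L)
    (hy : y ∈ B) :
    ∃ x : L ≃ₐ[IntermediateField.fixedField B] L, x.restrictScalars K = y :=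
  ⟨IntermediateField.subgroupEquivAlgEquiv B ⟨y, hy⟩, AlgEquiv.ext fun _ => rfl⟩

variable {B A : Subgroup (L ≃ₐ[K] L)} {ψ : A →* ℂˣ}
  {A' : Subgroup (L ≃ₐ[IntermediateField.fixedField B] L)} {ψ' : A' →* ℂˣ}

omit [IsGalois K L] in
theorem card_eq (hAB : A ≤ B)
    (hA : ∀ x : L ≃ₐ[IntermediateField.fixedField B] L, x ∈ A' ↔ x.restrictScalars K ∈ A) :
    Nat.card A' = Nat.card A := by
  refine Nat.card_eq_of_bijective
    (fun x : A' => (⟨(x : L ≃ₐ[IntermediateField.fixedField B] L).restrictScalars K,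
      (hA x).1 x.2⟩ : A)) ⟨?_, ?_⟩
  · intro x y h
    have h1 := congrArg Subtype.val h
    exact Subtype.ext (AlgEquiv.restrictScalars_injective K h1)
  · rintro ⟨y, hy⟩
    obtain ⟨x, hx⟩ := exists_up B y (hAB hy)
    refine ⟨⟨x, (hA x).2 (by rw [hx]; exact hy)⟩, Subtype.ext hx⟩

omit [IsGalois K L] in
theorem inner (hAB : A ≤ B)
    (hA : ∀ x : L ≃ₐ[IntermediateField.fixedField B] L, x ∈ A' ↔ x.restrictScalars K ∈ A)
    (hψ : ∀ (x : A') (y : A), (y : L ≃ₐ[K] L) =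
      (x : L ≃ₐ[IntermediateField.fixedField B] L).restrictScalars K → ψ' x = ψ y)
    (w : HeightOneSpectrum (𝓞 L)) (q : ℕ) :
    (∑ g ∈ Finset.univ.filter (fun g : L ≃ₐ[K] L => g ∈ A ∧ FrobPow L w q g), extZ ψ g) =
      ∑ g ∈ Finset.univ.filter (fun g : L ≃ₐ[IntermediateField.fixedField B] L =>
        g ∈ A' ∧ FrobPow L w q g), extZ ψ' g := by
  symm
  refine Finset.sum_bij (fun g _ => g.restrictScalars K) ?_ ?_ ?_ ?_
  · intro g hg
    rw [Finset.mem_filter] at hg ⊢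
    exact ⟨Finset.mem_univ _, (hA g).1 hg.2.1, hg.2.2⟩
  · intro a _ b _ hab
    exact AlgEquiv.restrictScalars_injective K hab
  · intro g hg
    rw [Finset.mem_filter] at hg
    obtain ⟨x, hx⟩ := exists_up B g (hAB hg.2.1)
    refine ⟨x, ?_, hx⟩
    rw [Finset.mem_filter]
    refine ⟨Finset.mem_univ _, (hA x).2 (by rw [hx]; exact hg.2.1), ?_⟩
    have h1 := hg.2.2
    rw [← hx] at h1
    exact h1
  · intro g hg
    rw [Finset.mem_filter] at hg
    unfold extZ
    rw [dif_pos hg.2.1, dif_pos ((hA g).1 hg.2.1)]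
    rw [hψ ⟨g, hg.2.1⟩ ⟨g.restrictScalars K, (hA g).1 hg.2.1⟩ rfl]

end

end DLLx

open DLLx in
theorem DLL_thm : Stmt_DLL := by
  intro K L _ _ _ _ _ _ B A ψ A' ψ' S S' s hs hAB hS hA hψ
  rw [ALLT.lb K L _ S s hs, ALLT.lb (IntermediateField.fixedField B) L _ S' s hs,
    ALLT.lc K L A (extZ ψ) S s hs,
    ALLT.lc (IntermediateField.fixedField B) L A' (extZ ψ') S' s hs, hS, card_eq hAB hA]
  congr 1
  refine tsum_congr fun p => ?_
  rw [inner hAB hA hψ]

end StarkC.ABS
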