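import Pool.Agent.ABS.StD4

/-!
# Project ABS, module DLV: change of the base field for the dihedral and semidihedral leaves
-/

set_option autoImplicit false

open NumberField IsDedekindDomain
open scoped TensorProduct Classical

namespace StarkC.ABS

namespace DLVx

section

variable {K N : Type} [Field K] [NumberField K] [Field N] [NumberField N] [Algebra K N]
  [IsGalois K N]

/-- the series of `lfun` -/
theorem logL_lfun (k : ℕ) (A : Subgroup (N ≃ₐ[K] N)) (ψ : A →* ℂˣ)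
    (S : Set (HeightOneSpectrum (𝓞 K))) (s : ℂ) (hs : 1 < s.re) :
    logL (lfun k A ψ) S s = ∑ j ∈ Ex (2 ^ k), (1 / 2 : ℂ) * logL (indFun A (extZ (ψ ^ j))) S s := by
  let e : Fin (Ex (2 ^ k)).card ≃ Ex (2 ^ k) := (Ex (2 ^ k)).equivFin.symm
  have h1 : lfun k A ψ = fun g => ∑ j : Fin (Ex (2 ^ k)).card, (1 / 2 : ℂ) *
      (fun g => indFun A (extZ (ψ ^ ((e j : Ex (2 ^ k)) : ℕ))) g) g := by
    funext g
    unfold lfun
    rw [← Finset.sum_coe_sort (Ex (2 ^ k)) (fun t => indFun A (extZ (ψ ^ t)) g),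
      ← Equiv.sum_comp e, Finset.sum_div]
    exact Finset.sum_congr rfl fun j _ => by ring
  rw [h1, IND.logL_sum LA_thm ALLT.lb S s hs,
    ← Finset.sum_coe_sort (Ex (2 ^ k)) (fun t => (1 / 2 : ℂ) * logL (indFun A (extZ (ψ ^ t))) S s),
    ← Equiv.sum_comp e]

end

/-- the property for any set of primes equal to the given one -/
theorem pd_of {k t : ℕ} {K L : Type} [Field K] [NumberField K] [Field L] [NumberField L]
    [Algebra K L] {A : Subgroup (L ≃ₐ[K] L)} {ψ : A →* ℂˣ}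
    {S : Finset (HeightOneSpectrum (𝓞 K))} (h : PD2all k t A ψ S)
    {T : Set (HeightOneSpectrum (𝓞 L))} (hT : aboveSet K L S = T)
    (φ : XQ L T ≃ₗ[ℚ] QU L T) (Θ : XC L T →ₗ[ℂ] XC L T) (hφ : IsPhiTheta K T φ Θ) :
    ∃ (F : ℂ → ℂ) (α : EF2 k t) (r : ℝ),
      IsArtinL (lfun k A ψ) (S : Set (HeightOneSpectrum (𝓞 K))) F ∧ α ≠ 0 ∧ 0 < r ∧
      meromorphicTrailingCoeffAt F 0 = (r : ℂ) ∧
      ∏ j ∈ Ex (2 ^ k), Reg T (linRep (liftChar A (ψ ^ j))) Θ =
        (((Algebra.norm ℚ α : ℚ) : ℂ) * (r : ℂ)) ^ 2 := by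
  subst hT
  exact h φ Θ hφ

section

variable {K L : Type} [Field K] [NumberField K] [Field L] [NumberField L] [Algebra K L]
  [IsGalois K L]

theorem equiv_apply (A : Subgroup (L ≃ₐ[K] L)) (a : A) (x : L) :
    (IntermediateField.subgroupEquivAlgEquiv A a) x = (a : L ≃ₐ[K] L) x := by
  have h := IND.symm_apply A (IntermediateField.subgroupEquivAlgEquiv A a) x
  rw [MulEquiv.symm_apply_apply] at h
  exact h.symm

/-- the regulators agree -/
theorem reg_eq (hDRT : Stmt_DRT) (B A : Subgroup (L ≃ₐ[K] L)) (ψ : A →* ℂˣ)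
    (A' : Subgroup (L ≃ₐ[IntermediateField.fixedField B] L)) (ψ' : A' →* ℂˣ) (hAB : A ≤ B)
    (hA' : ∀ x : L ≃ₐ[IntermediateField.fixedField B] L, x ∈ A' ↔ x.restrictScalars K ∈ A)
    (hψ' : ∀ (x : A') (y : A), (y : L ≃ₐ[K] L) =
      (x : L ≃ₐ[IntermediateField.fixedField B] L).restrictScalars K → ψ' x = ψ y)
    (T : Set (HeightOneSpectrum (𝓞 L))) (Θ : XC L T →ₗ[ℂ] XC L T) :
    Reg T (linRep (liftChar A ψ)) Θ = Reg T (linRep (liftChar A' ψ')) Θ := by
  refine hDRT (IntermediateField.fixedField A) (IntermediateField.fixedField A') L T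
    (liftChar A ψ) (liftChar A' ψ') Θ ?_ ?_
  · intro g₁
    set a : A := (IntermediateField.subgroupEquivAlgEquiv A).symm g₁ with ha
    set b : L ≃ₐ[IntermediateField.fixedField B] L :=
      IntermediateField.subgroupEquivAlgEquiv B ⟨(a : L ≃ₐ[K] L), hAB a.2⟩ with hb
    have hba : b.restrictScalars K = (a : L ≃ₐ[K] L) := by
      refine AlgEquiv.ext fun x => ?_
      rw [AlgEquiv.restrictScalars_apply, hb, equiv_apply]
    have hbA : b ∈ A' := (hA' b).2 (hba ▸ a.2)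
    refine ⟨IntermediateField.subgroupEquivAlgEquiv A' ⟨b, hbA⟩, fun x => ?_, ?_⟩
    · rw [equiv_apply]
      show b x = g₁ x
      rw [hb, equiv_apply]
      exact IND.symm_apply A g₁ x
    · show ψ' ((IntermediateField.subgroupEquivAlgEquiv A').symm
        (IntermediateField.subgroupEquivAlgEquiv A' ⟨b, hbA⟩)) = ψ a
      rw [MulEquiv.symm_apply_apply]
      exact hψ' ⟨b, hbA⟩ a hba.symm
  · intro g₂
    set b : A' := (IntermediateField.subgroupEquivAlgEquiv A').symm g₂ with hb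
    have hbA : (b : L ≃ₐ[IntermediateField.fixedField B] L).restrictScalars K ∈ A :=
      (hA' b).1 b.2
    refine ⟨IntermediateField.subgroupEquivAlgEquiv A ⟨_, hbA⟩, fun x => ?_, ?_⟩
    · rw [equiv_apply]
      show g₂ x = (b : L ≃ₐ[IntermediateField.fixedField B] L) x
      exact (IND.symm_apply A' g₂ x).symm
    · show ψ' b = ψ ((IntermediateField.subgroupEquivAlgEquiv A).symm
        (IntermediateField.subgroupEquivAlgEquiv A ⟨_, hbA⟩))
      rw [MulEquiv.symm_apply_apply]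
      exact hψ' b ⟨_, hbA⟩ rfl

end

end DLVx

open DLVx in
theorem DLV_thm : Stmt_DLV := by
  intro hDRT hDLL K L _ _ _ _ _ _ B A ψ A' ψ' k t S hAB hA' hψ' hPD φ Θ hφ
  obtain ⟨S', hS'⟩ := IND.exists_S' (IntermediateField.fixedField B)
    (S : Set (HeightOneSpectrum (𝓞 K))) S.finite_toSet
  obtain ⟨F, α, r, hF, hα, hr, hFr, hR⟩ := pd_of (hPD S') hS' φ Θ (IND.isPhiTheta_sub _ hφ)
  have hpow : ∀ j : ℕ, ∀ (x : A') (y : A), (y : L ≃ₐ[K] L) =
      (x : L ≃ₐ[IntermediateField.fixedField B] L).restrictScalars K →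
      (ψ' ^ j) x = (ψ ^ j) y := by
    intro j x y hxy
    rw [MonoidHom.pow_apply, MonoidHom.pow_apply, hψ' x y hxy]
  refine ⟨F, α, r, ⟨hF.1, fun s hs => ?_⟩, hα, hr, hFr, ?_⟩
  · rw [hF.2 s hs, logL_lfun k A ψ _ s hs, logL_lfun k A' ψ' _ s hs]
    congr 1
    refine Finset.sum_congr rfl fun j _ => ?_
    rw [hDLL K L B A (ψ ^ j) A' (ψ' ^ j) S S' s hs hAB hS' hA' (hpow j)]
  · rw [← hR]
    exact Finset.prod_congr rfl fun j _ =>
      reg_eq hDRT B A (ψ ^ j) A' (ψ' ^ j) hAB hA' (hpow j) _ Θ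

end StarkC.ABS
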