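import Pool.Agent.ABS.StA

/-!
# ABS, module MUG: the groups of roots of unity
-/

open NumberField NumberField.InfinitePlace
open scoped Classical

namespace ABS

namespace MUG

/-- the restriction of a homomorphism to the torsion subgroups -/
def tor {A B : Type} [CommGroup A] [CommGroup B] (f : A →* B) :
    CommGroup.torsion A →* CommGroup.torsion B :=
  (f.comp (CommGroup.torsion A).subtype).codRestrict _ fun x => f.isOfFinOrder x.2

/-- the value of a root of unity -/
noncomputable def vv (F : Type) [Field F] [NumberField F] : Units.torsion F →* F :=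
  ((algebraMap (𝓞 F) F : (𝓞 F) →* F).comp (Units.coeHom (𝓞 F))).comp (Units.torsion F).subtype

lemma vv_inj (F : Type) [Field F] [NumberField F] : Function.Injective (vv F) := by
  intro x y h
  apply Subtype.ext
  apply Units.ext
  exact RingOfIntegers.coe_injective h

/-- the action of an automorphism -/
noncomputable def act {K L : Type} [Field K] [Field L] [NumberField L] [Algebra K L]
    (g : L ≃ₐ[K] L) : Units.torsion L →* Units.torsion L :=
  tor (Units.map (RingOfIntegers.mapRingEquiv (g : L ≃+* L) : 𝓞 L →* 𝓞 L))

lemma vv_act {K L : Type} [Field K] [Field L] [NumberField L] [Algebra K L]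
    (g : L ≃ₐ[K] L) (x : Units.torsion L) : vv L (act g x) = g (vv L x) := rfl

lemma act_iter {K L : Type} [Field K] [Field L] [NumberField L] [Algebra K L]
    (g : L ≃ₐ[K] L) (x : Units.torsion L) (i : ℕ) :
    vv L ((act g)^[i] x) = (g ^ i) (vv L x) := by
  induction i with
  | zero => rfl
  | succ i ih =>
    rw [Function.iterate_succ_apply', vv_act, ih, pow_succ', AlgEquiv.mul_apply]

lemma add_iter {A : Type} [CommGroup A] (f : A →* A) (x : Additive A) (i : ℕ) :
    (MonoidHom.toAdditive f)^[i] x = Additive.ofMul (f^[i] x.toMul) := by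
  induction i with
  | zero => rfl
  | succ i ih =>
    rw [Function.iterate_succ_apply', ih, Function.iterate_succ_apply']
    rfl

section

variable (F L : Type) [Field F] [NumberField F] [Field L] [NumberField L] [Algebra F L]

/-- the inclusion -/
noncomputable def inc : Units.torsion F →* Units.torsion L :=
  tor (Units.map (algebraMap (𝓞 F) (𝓞 L) : 𝓞 F →* 𝓞 L))

lemma vv_inc (x : Units.torsion F) : vv L (inc F L x) = algebraMap F L (vv F x) := rfl

/-- the norm -/
noncomputable def nrm : Units.torsion L →* Units.torsion F :=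
  tor (Units.map (RingOfIntegers.norm F : 𝓞 L →* 𝓞 F))

lemma vv_nrm (x : Units.torsion L) : vv F (nrm F L x) = Algebra.norm F (vv L x) := rfl

end

end MUG

open MUG in
/-- **MUG.** -/
theorem MUG_thm : Stmt_MUG := by
  intro hGEN l k K F L _ _ _ _ _ _ _ _ _ _ _ _ σ hT
  obtain ⟨hσ, hsum⟩ := hGEN l k K F L σ hT
  refine ⟨MonoidHom.toAdditive (act σ), MonoidHom.toAdditive (inc F L),
    MonoidHom.toAdditive (nrm F L), fun x => ?_, fun a => ?_, fun x => ?_⟩
  · rw [add_iter]
    have h1 : (act σ)^[l ^ k] x.toMul = x.toMul := by
      apply vv_inj L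
      rw [act_iter, hσ, AlgEquiv.one_apply]
    rw [h1]
    rfl
  · have h1 : nrm F L (inc F L a.toMul) = a.toMul ^ l := by
      apply vv_inj F
      rw [vv_nrm, vv_inc, Algebra.norm_algebraMap, hT.rank, map_pow]
    exact congrArg Additive.ofMul h1
  · have h1 : inc F L (nrm F L x.toMul) = ∏ i ∈ Finset.range l,
        (act σ)^[l ^ k / l * i] x.toMul := by
      apply vv_inj L
      rw [vv_inc, vv_nrm, Algebra.norm_eq_prod_automorphisms, map_prod]
      have h2 := hsum (Additive L) fun g => Additive.ofMul (g (vv L x.toMul))
      have h3 := congrArg Additive.toMul h2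
      rw [toMul_sum, toMul_sum] at h3
      refine Eq.trans ?_ (h3.trans ?_)
      · rfl
      · refine Finset.prod_congr rfl fun i _ => ?_
        rw [act_iter]
        rfl
    have h2 : MonoidHom.toAdditive (inc F L) (MonoidHom.toAdditive (nrm F L) x) =
        Additive.ofMul (inc F L (nrm F L x.toMul)) := rfl
    rw [h2, h1, ofMul_prod]
    refine Finset.sum_congr rfl fun i _ => ?_
    rw [add_iter]

end ABS
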