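import Pool.Agent.ABS.StD1
import Pool.Agent.ABS.MUG

/-!
# ABS part D, module DMU: the groups of roots of unity
-/

open NumberField NumberField.InfinitePlace
open scoped Classical

namespace ABS

open MUG in
/-- **DMU.** -/
theorem DMU_thm : Stmt_DMU := by
  intro k t K F L _ _ _ _ _ _ _ _ _ _ _ σ γ hT
  refine ⟨MonoidHom.toAdditive (act σ), MonoidHom.toAdditive (act γ),
    MonoidHom.toAdditive (inc F L), MonoidHom.toAdditive (nrm F L), fun x => ?_, fun a => ?_,
    fun x => ?_, fun x => ?_, fun x => ?_⟩
  · rw [add_iter]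
    have h1 : (act σ)^[2 ^ k] x.toMul = x.toMul := by
      apply vv_inj L
      rw [act_iter, hT.pow, AlgEquiv.one_apply]
    rw [h1]
    rfl
  · have h1 : nrm F L (inc F L a.toMul) = a.toMul ^ 2 := by
      apply vv_inj F
      rw [vv_nrm, vv_inc, Algebra.norm_algebraMap, hT.rank, map_pow]
    exact congrArg Additive.ofMul h1
  · have h1 : inc F L (nrm F L x.toMul) = ∏ i ∈ Finset.range 2,
        (act σ)^[2 ^ k / 2 * i] x.toMul := by
      apply vv_inj L
      rw [vv_inc, vv_nrm, Algebra.norm_eq_prod_automorphisms, map_prod]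
      have h2 := hT.sum (Additive L) fun g => Additive.ofMul (g (vv L x.toMul))
      have h3 := congrArg Additive.toMul h2
      rw [toMul_sum, toMul_sum] at h3
      refine Eq.trans ?_ (h3.trans ?_)
      · rfl
      · refine Finset.prod_congr rfl fun i _ => ?_
        rw [act_iter]
        rfl
    have h2 : MonoidHom.toAdditive (inc F L) (MonoidHom.toAdditive (nrm F L) x) =
        Additive.ofMul (inc F L (nrm F L x.toMul)) := rfl
    rw [h2, h1, ofMul_prod]
    refine Finset.sum_congr rfl fun i _ => ?_
    rw [add_iter]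
  · rw [add_iter]
    have h1 : act γ (act σ x.toMul) = (act σ)^[t] (act γ x.toMul) := by
      apply vv_inj L
      rw [act_iter, vv_act, vv_act, vv_act, ← AlgEquiv.mul_apply, ← AlgEquiv.mul_apply, hT.conj]
    exact congrArg Additive.ofMul h1
  · have h1 : act γ (act γ x.toMul) = x.toMul := by
      apply vv_inj L
      rw [vv_act, vv_act, ← AlgEquiv.mul_apply, hT.inv, AlgEquiv.one_apply]
    exact congrArg Additive.ofMul h1

end ABS
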