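import Pool.Agent.ABS.StD2

/-!
# ABS, module DNE (helper45): the assembly, a square root of `r² 2^e` is a norm from `E`
-/

set_option autoImplicit false

open NumberField NumberField.InfinitePlace
open scoped Classical

namespace ABS

namespace DNE

section

variable {E : Type} [Field E] [NumberField E]

theorem idF_two {π : 𝓞 E} (h : Ideal.absNorm (Ideal.span {π}) = 2) : IdF E 2 := by
  refine ⟨Ideal.span {π}, ⊤, ?_, top_ne_bot, ?_⟩
  · intro h0
    rw [h0, Ideal.absNorm_bot] at h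
    omega
  · rw [h]
    simp

theorem idF_pow {a : ℚ} (h : IdF E a) (n : ℕ) : IdF E (a ^ n) := by
  induction n with
  | zero =>
    rw [pow_zero]
    exact IdF.one
  | succ n ih =>
    rw [pow_succ]
    exact ih.mul h

theorem idF_zpow {a : ℚ} (h : IdF E a) (n : ℤ) : IdF E (a ^ n) := by
  rcases Int.eq_nat_or_neg n with ⟨m, rfl | rfl⟩
  · rw [zpow_natCast]
    exact idF_pow h m
  · rw [zpow_neg, zpow_natCast]
    exact (idF_pow h m).inv

theorem noF_neg_one {u : (𝓞 E)ˣ} (h : Algebra.norm ℚ ((u : 𝓞 E) : E) = -1) : NoF E (-1) := by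
  refine ⟨((u : 𝓞 E) : E), ?_, h⟩
  intro h0
  rw [h0, Algebra.norm_zero] at h
  norm_num at h

end

/-- a rational square root of `2 ^ e` is `2 ^ f` or `- 2 ^ f` -/
theorem root_zpow {b : ℚ} {e : ℤ} (h : b ^ 2 = 2 ^ e) : ∃ f : ℤ, b = 2 ^ f ∨ b = -2 ^ f := by
  have h2 : (2 : ℚ) ≠ 0 := two_ne_zero
  have hb : b ≠ 0 := by
    rintro rfl
    have h3 : (0 : ℚ) < 2 ^ e := zpow_pos (by norm_num) e
    rw [← h] at h3
    norm_num at h3
  have h4 : padicValRat 2 (b ^ 2) = 2 * padicValRat 2 b := by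
    rw [padicValRat.pow]
    norm_num
  have h5 : padicValRat 2 ((2 : ℚ) ^ e) = e := by
    rw [padicValRat.zpow]
    have h6 : padicValRat 2 (2 : ℚ) = 1 := by
      have := padicValRat.self (p := 2) (by norm_num)
      exact_mod_cast this
    rw [h6, mul_one]
  rw [h, h5] at h4
  refine ⟨padicValRat 2 b, ?_⟩
  have h7 : b ^ 2 = (2 ^ padicValRat 2 b) ^ 2 := by
    rw [h, ← zpow_natCast, ← zpow_mul]
    congr 1
    rw [h4]
    push_cast
    ring
  exact sq_eq_sq_iff_eq_or_eq_neg.1 h7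

end DNE

open DNE in
theorem DNE_thm : Stmt_DNE := by
  intro hDFG hDPR hDUR hDGI hDUN hDPO hDHI hDGE k t E _ _ _ τ hF a q hq haq hpos
  obtain ⟨hgal, g, hg⟩ := hDFG k t E τ hF
  have hGE : GE E g := by
    refine ⟨hgal, hg, hDGI hDFG hDPR hDUR k t E τ hF, ?_⟩
    rcases hF.cases with ht | ht
    · exact Or.inl (hDUN k t E τ hF ht)
    · exact Or.inr (hDPO k t E τ hF ht)
  have hno : ∀ q : ℚ, IdF E q → NoF E q := hDGE hDHI E g hGE
  obtain ⟨π, hπ, -⟩ := hDPR k t E τ hF
  obtain ⟨r, e, hr, rfl⟩ := hq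
  have hr0 := hr.pos
  have h1 : (a / r) ^ 2 = 2 ^ e := by
    rw [div_pow, haq]
    field_simp
  obtain ⟨f, hf⟩ := root_zpow h1
  have h2 : IdF E (r * 2 ^ f) := hr.mul (idF_zpow (idF_two hπ) f)
  have h3 : (0 : ℚ) < 2 ^ f := zpow_pos (by norm_num) f
  rcases hf with hf | hf
  · have h4 : a = r * 2 ^ f := by
      rw [← hf]
      field_simp
    rw [h4]
    exact hno _ h2
  · have h4 : a = r * 2 ^ f * (-1) := by
      have h5 : a = r * (a / r) := by field_simp
      rw [h5, hf]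
      ring
    have h6 : a < 0 := by
      rw [h4]
      have : 0 < r * 2 ^ f := mul_pos hr0 h3
      linarith
    by_cases ht : (t : ZMod (2 ^ k)) = -1
    · obtain ⟨u, hu⟩ := hDUN k t E τ hF ht
      rw [h4]
      exact (hno _ h2).mul (noF_neg_one hu)
    · exact absurd (hpos ht) (not_lt.2 h6.le)

end ABS
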