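import Pool.Agent.ABS.StA

/-!
# ABS, module POS: the norms of the elements of a totally complex field are positive
-/

open NumberField NumberField.InfinitePlace
open scoped Classical

namespace ABS

namespace POS

/-- the norm of an element of a totally complex field is the product of the squares of its absolute
values -/
theorem norm_eq (E : Type) [Field E] [NumberField E] [IsTotallyComplex E] (α : E) :
    ((Algebra.norm ℚ α : ℚ) : ℝ) = ∏ w : InfinitePlace E, ‖w.embedding α‖ ^ 2 := by
  have h1 : ((Algebra.norm ℚ α : ℚ) : ℂ) = ∏ φ : E →+* ℂ, φ α := by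
    have h2 := Algebra.norm_eq_prod_embeddings ℚ ℂ α
    rw [eq_ratCast] at h2
    rw [h2]
    exact (Fintype.prod_equiv (RingHom.equivRatAlgHom E ℂ) (fun f => f α)
      (fun φ => φ α) fun _ => by simp [RingHom.equivRatAlgHom_apply]).symm
  have h3 : ∀ w : InfinitePlace E, ∏ φ ∈ (Finset.univ.filter fun φ : E →+* ℂ => mk φ = w), φ α =
      ((‖w.embedding α‖ ^ 2 : ℝ) : ℂ) := by
    intro w
    have hw : w.IsComplex := IsTotallyComplex.isComplex w
    have h4 : (Finset.univ.filter fun φ : E →+* ℂ => mk φ = w) =
        {w.embedding, ComplexEmbedding.conjugate w.embedding} := by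
      ext φ
      rw [Finset.mem_filter, Finset.mem_insert, Finset.mem_singleton]
      constructor
      · rintro ⟨-, h5⟩
        rw [← mk_embedding w, mk_eq_iff] at h5
        rcases h5 with h5 | h5
        · exact Or.inl h5
        · right
          rw [← h5]
          exact (star_involutive φ).symm
      · rintro (rfl | rfl)
        · exact ⟨Finset.mem_univ _, mk_embedding w⟩
        · exact ⟨Finset.mem_univ _, by rw [mk_conjugate_eq, mk_embedding w]⟩
    rw [h4, Finset.prod_pair]
    · rw [ComplexEmbedding.conjugate_coe_eq, Complex.mul_conj, Complex.normSq_eq_norm_sq]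
    · intro h5
      have h6 : ComplexEmbedding.IsReal w.embedding :=
        ComplexEmbedding.isReal_iff.2 h5.symm
      exact (isComplex_iff.1 hw) h6
  have h7 : ((Algebra.norm ℚ α : ℚ) : ℂ) =
      ((∏ w : InfinitePlace E, ‖w.embedding α‖ ^ 2 : ℝ) : ℂ) := by
    rw [h1, ← Finset.prod_fiberwise Finset.univ mk (fun φ : E →+* ℂ => φ α),
      Finset.prod_congr rfl fun w _ => h3 w, Complex.ofReal_prod]
  exact_mod_cast h7

theorem norm_pos (E : Type) [Field E] [NumberField E] [IsTotallyComplex E] (α : E) (hα : α ≠ 0) :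
    0 < Algebra.norm ℚ α := by
  have h : (0 : ℝ) < ((Algebra.norm ℚ α : ℚ) : ℝ) := by
    rw [norm_eq]
    refine Finset.prod_pos fun w _ => pow_pos (norm_pos_iff.2 ?_) 2
    exact (map_ne_zero _).2 hα
  exact_mod_cast h

end POS

theorem POS_thm : Stmt_POS := by
  intro l k _ hlk α hα
  have : NeZero (l ^ k) := ⟨by omega⟩
  have : NeZero (((l ^ k : ℕ) : ℚ)) := NeZero.charZero
  have : IsCyclotomicExtension {l ^ k} ℚ (CyclotomicField (l ^ k) ℚ) :=
    CyclotomicField.isCyclotomicExtension (l ^ k) ℚ
  have : IsTotallyComplex (CyclotomicField (l ^ k) ℚ) :=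
    IsCyclotomicExtension.Rat.isTotallyComplex (n := l ^ k) (CyclotomicField (l ^ k) ℚ) hlk
  exact POS.norm_pos _ α hα

end ABS
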