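import Pool.Agent.ABS.StD2
import Pool.Agent.ABS.POS

/-!
# ABS, module DPO (helper56): the norms of the elements of the semidihedral field are positive
-/

open NumberField NumberField.InfinitePlace
open scoped Classical

namespace ABS

namespace DPO

/-- the exponent `t + 1` -/
theorem pow_t {C : Type} [Field C] (k t : ℕ) (h1 : 3 ≤ k)
    (ht : (t : ZMod (2 ^ k)) = -1 + 2 ^ (k - 1)) (ζ : C) (hζ : IsPrimitiveRoot ζ (2 ^ k)) :
    ζ ^ t * ζ = -1 := by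
  have h2 : ((t + 1 : ℕ) : ZMod (2 ^ k)) = ((2 ^ (k - 1) : ℕ) : ZMod (2 ^ k)) := by
    push_cast
    rw [ht]
    ring
  have h3 : t + 1 ≡ 2 ^ (k - 1) [MOD 2 ^ k] := (ZMod.natCast_eq_natCast_iff _ _ _).1 h2
  have h4 : ζ ^ (t + 1) = ζ ^ (2 ^ (k - 1)) := pow_eq_pow_of_modEq h3 hζ.pow_eq_one
  have h5 : ζ ^ (2 ^ (k - 1)) * ζ ^ (2 ^ (k - 1)) = 1 := by
    rw [← pow_add, ← two_mul, ← pow_succ', show k - 1 + 1 = k by omega, hζ.pow_eq_one]
  have h6 : ζ ^ (2 ^ (k - 1)) ≠ 1 := by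
    intro h
    have h7 := (hζ.pow_eq_one_iff_dvd _).1 h
    have h8 := Nat.le_of_dvd (by positivity) h7
    have h9 : 2 ^ (k - 1) < 2 ^ k := Nat.pow_lt_pow_right (by norm_num) (by omega)
    omega
  rw [← pow_succ, h4]
  rcases mul_self_eq_one_iff.1 h5 with h | h
  · exact absurd h h6
  · exact h

/-- `ζ ^ 2 ≠ 1`, `ζ ^ 4 ≠ 1` -/
theorem sq_ne {C : Type} [Field C] (k : ℕ) (h1 : 3 ≤ k) (ζ : C) (hζ : IsPrimitiveRoot ζ (2 ^ k))
    (j : ℕ) (hj : 0 < j) (hj4 : j ≤ 4) : ζ ^ j ≠ 1 := by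
  intro h
  have h7 := (hζ.pow_eq_one_iff_dvd _).1 h
  have h8 := Nat.le_of_dvd hj h7
  have h9 : 2 ^ 3 ≤ 2 ^ k := Nat.pow_le_pow_right (by norm_num) h1
  omega

theorem exists_elt (k t : ℕ) (E : Type) [Field E] [NumberField E]
    [Algebra E (CyclotomicField (2 ^ k) ℚ)]
    (τ : CyclotomicField (2 ^ k) ℚ ≃ₐ[E] CyclotomicField (2 ^ k) ℚ) (h : FD k t E τ)
    (ht : (t : ZMod (2 ^ k)) = -1 + 2 ^ (k - 1)) :
    ∃ (ζ : CyclotomicField (2 ^ k) ℚ) (x : E), IsPrimitiveRoot ζ (2 ^ k) ∧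
      algebraMap E (CyclotomicField (2 ^ k) ℚ) x = ζ - ζ⁻¹ := by
  have : NeZero (2 ^ k) := ⟨by positivity⟩
  have : NeZero (((2 ^ k : ℕ) : ℚ)) := NeZero.charZero
  have hcyc : IsCyclotomicExtension {2 ^ k} ℚ (CyclotomicField (2 ^ k) ℚ) :=
    CyclotomicField.isCyclotomicExtension (2 ^ k) ℚ
  have hζ := IsCyclotomicExtension.zeta_spec (2 ^ k) ℚ (CyclotomicField (2 ^ k) ℚ)
  set ζ := IsCyclotomicExtension.zeta (2 ^ k) ℚ (CyclotomicField (2 ^ k) ℚ) with hζd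
  have hgal : IsGalois ℚ (CyclotomicField (2 ^ k) ℚ) :=
    IsCyclotomicExtension.isGalois {2 ^ k} ℚ (CyclotomicField (2 ^ k) ℚ)
  have htow : IsScalarTower ℚ E (CyclotomicField (2 ^ k) ℚ) :=
    IsScalarTower.of_algebraMap_eq fun q => by
      rw [eq_ratCast, eq_ratCast, map_ratCast]
  have hgE : IsGalois E (CyclotomicField (2 ^ k) ℚ) :=
    IsGalois.tower_top_of_isGalois ℚ E (CyclotomicField (2 ^ k) ℚ)
  have hfin : FiniteDimensional E (CyclotomicField (2 ^ k) ℚ) :=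
    Module.finite_of_finrank_pos (by rw [h.rank]; norm_num)
  have h0 : ζ ≠ 0 := hζ.ne_zero (by positivity)
  have hpt := pow_t k t h.k3 ht ζ hζ
  have hτ : τ ζ = -ζ⁻¹ := by
    rw [h.act ζ hζ.pow_eq_one]
    field_simp
    linear_combination hpt
  have hτx : τ (ζ - ζ⁻¹) = ζ - ζ⁻¹ := by
    rw [map_sub, map_inv₀, hτ, inv_neg, inv_inv]
    ring
  have hτ1 : τ ≠ 1 := by
    intro h1
    have h2 : ζ = -ζ⁻¹ := by
      rw [← hτ, h1, AlgEquiv.one_apply]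
    have h3 : ζ ^ 2 = -1 := by
      have h4 : ζ * ζ = -1 := by
        nth_rewrite 2 [h2]
        rw [mul_neg, mul_inv_cancel₀ h0]
      rw [pow_two, h4]
    have h4 : ζ ^ 4 = 1 := by
      have : ζ ^ 4 = (ζ ^ 2) ^ 2 := by ring
      rw [this, h3]
      norm_num
    exact sq_ne k h.k3 ζ hζ 4 (by norm_num) le_rfl h4
  have hcard : Nat.card (CyclotomicField (2 ^ k) ℚ ≃ₐ[E] CyclotomicField (2 ^ k) ℚ) = 2 := by
    rw [IsGalois.card_aut_eq_finrank, h.rank]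
  have hfix : ∀ f : CyclotomicField (2 ^ k) ℚ ≃ₐ[E] CyclotomicField (2 ^ k) ℚ,
      f (ζ - ζ⁻¹) = ζ - ζ⁻¹ := by
    intro f
    obtain ⟨y, hy, huniq⟩ := (Nat.card_eq_two_iff' (1 : CyclotomicField (2 ^ k) ℚ ≃ₐ[E]
      CyclotomicField (2 ^ k) ℚ)).1 hcard
    by_cases hf : f = 1
    · rw [hf, AlgEquiv.one_apply]
    · have h5 : f = τ := (huniq f hf).trans (huniq τ hτ1).symm
      rw [h5, hτx]
  obtain ⟨x, hx⟩ := (IsGalois.mem_range_algebraMap_iff_fixed (ζ - ζ⁻¹)).2 hfix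
  exact ⟨ζ, x, hζ, hx⟩

theorem not_real (k : ℕ) (hk : 3 ≤ k) (E : Type) [Field E] [NumberField E]
    [Algebra E (CyclotomicField (2 ^ k) ℚ)] [FiniteDimensional E (CyclotomicField (2 ^ k) ℚ)]
    (ζ : CyclotomicField (2 ^ k) ℚ) (x : E) (hζ : IsPrimitiveRoot ζ (2 ^ k))
    (hx : algebraMap E (CyclotomicField (2 ^ k) ℚ) x = ζ - ζ⁻¹) (φ : E →+* ℂ) :
    ¬ ComplexEmbedding.IsReal φ := by
  intro hre
  let _ : Algebra E ℂ := φ.toAlgebra
  let Φ : CyclotomicField (2 ^ k) ℚ →ₐ[E] ℂ := IsAlgClosed.lift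
  have h1 : Φ (ζ - ζ⁻¹) = φ x := by
    rw [← hx]
    exact Φ.commutes x
  have hz : IsPrimitiveRoot (Φ ζ) (2 ^ k) :=
    hζ.map_of_injective (f := Φ) Φ.toRingHom.injective
  have hn : ‖Φ ζ‖ = 1 := Complex.norm_eq_one_of_pow_eq_one hz.pow_eq_one (by positivity)
  have hinv : (Φ ζ)⁻¹ = (starRingEnd ℂ) (Φ ζ) := Complex.inv_eq_conj hn
  have h2 : (starRingEnd ℂ) (φ x) = φ x := RingHom.congr_fun hre x
  rw [← h1, map_sub, map_inv₀, hinv, map_sub, Complex.conj_conj, ← hinv] at h2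
  have h3 : Φ ζ = (Φ ζ)⁻¹ := by linear_combination (-1 / 2 : ℂ) * h2
  have h0 : Φ ζ ≠ 0 := hz.ne_zero (by positivity)
  have h4 : Φ ζ ^ 2 = 1 := by
    rw [pow_two]
    nth_rewrite 2 [h3]
    exact mul_inv_cancel₀ h0
  exact sq_ne k hk _ hz 2 (by norm_num) (by norm_num) h4

end DPO

theorem DPO_thm : Stmt_DPO := by
  intro k t E _ _ _ τ h ht α hα
  have hfin : FiniteDimensional E (CyclotomicField (2 ^ k) ℚ) :=
    Module.finite_of_finrank_pos (by rw [h.rank]; norm_num)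
  obtain ⟨ζ, x, hζ, hx⟩ := DPO.exists_elt k t E τ h ht
  have : IsTotallyComplex E :=
    ⟨fun v => isComplex_iff.2 (DPO.not_real k h.k3 E ζ x hζ hx v.embedding)⟩
  exact POS.norm_pos E α hα

end ABS
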