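import Pool.Agent.ABS.StD4
import Pool.Agent.ABS.DEN
import Pool.Agent.ABS.DPO

/-!
# ABS, module DP2 (helper52): the norms of the elements of the semidihedral field are positive
-/

set_option autoImplicit false

open NumberField NumberField.InfinitePlace
open scoped Classical

namespace StarkC.ABS

open StarkP (rootField)

namespace DP2x

theorem zmod_eq {k t : ℕ} (h : (t + 1) % 2 ^ k = 2 ^ (k - 1)) :
    (t : ZMod (2 ^ k)) = -1 + 2 ^ (k - 1) := by
  have h1 : ((t + 1 : ℕ) : ZMod (2 ^ k)) = (((t + 1) % 2 ^ k : ℕ) : ZMod (2 ^ k)) :=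
    (ZMod.natCast_mod _ _).symm
  rw [h, Nat.cast_pow, Nat.cast_add, Nat.cast_one, Nat.cast_ofNat] at h1
  rw [← h1]
  ring

/-- `ζ - ζ⁻¹` is in the field -/
theorem mem_elt {k t : ℕ} (hk : 3 ≤ k) (h : (t + 1) % 2 ^ k = 2 ^ (k - 1)) {ζ : ℂ}
    (hζ : IsPrimitiveRoot ζ (2 ^ k)) : ζ - ζ⁻¹ ∈ EF2 k t := by
  have hm : ζ ∈ Cyc (2 ^ k) := IntermediateField.subset_adjoin ℚ _ hζ.pow_eq_one
  refine ⟨sub_mem hm (inv_mem hm), fun σ hσ => ?_⟩
  have h0 : ζ ≠ 0 := hζ.ne_zero (by positivity)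
  have h1 : σ ζ = -ζ⁻¹ := by
    rw [hσ ζ hζ.pow_eq_one]
    have h2 := _root_.ABS.DPO.pow_t k t hk (zmod_eq h) ζ hζ
    field_simp
    linear_combination h2
  rw [map_sub, map_inv₀, h1, inv_neg, inv_inv]
  ring

theorem not_real_abs (k : ℕ) (hk : 3 ≤ k) (E C : Type) [Field E] [Field C] [Algebra ℚ E]
    [Algebra ℚ C] [FiniteDimensional ℚ C] (i : E →ₐ[ℚ] C) (z : C) (x : E)
    (hzp : IsPrimitiveRoot z (2 ^ k)) (hx : i x = z - z⁻¹) (φ : E →+* ℂ) :
    ¬ ComplexEmbedding.IsReal φ := by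
  intro hre
  let _ : Algebra E C := i.toRingHom.toAlgebra
  have htow : IsScalarTower ℚ E C := IsScalarTower.of_algebraMap_eq fun q => (i.commutes q).symm
  have hf : FiniteDimensional E C := FiniteDimensional.right ℚ E C
  let _ : Algebra E ℂ := φ.toAlgebra
  let Φ : C →ₐ[E] ℂ := IsAlgClosed.lift
  have h1 : Φ (z - z⁻¹) = φ x := by
    rw [← hx]
    exact Φ.commutes x
  have hz : IsPrimitiveRoot (Φ z) (2 ^ k) :=
    hzp.map_of_injective (f := Φ) Φ.toRingHom.injective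
  have hn1 : ‖Φ z‖ = 1 := Complex.norm_eq_one_of_pow_eq_one hz.pow_eq_one (by positivity)
  have hinv : (Φ z)⁻¹ = (starRingEnd ℂ) (Φ z) := Complex.inv_eq_conj hn1
  have h2 : (starRingEnd ℂ) (φ x) = φ x := RingHom.congr_fun hre x
  rw [← h1, map_sub, map_inv₀, hinv, map_sub, Complex.conj_conj, ← hinv] at h2
  have h3 : Φ z = (Φ z)⁻¹ := by linear_combination (-1 / 2 : ℂ) * h2
  have h0 : Φ z ≠ 0 := hz.ne_zero (by positivity)
  have h4 : Φ z ^ 2 = 1 := by
    rw [pow_two]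
    nth_rewrite 2 [h3]
    exact mul_inv_cancel₀ h0
  exact _root_.ABS.DPO.sq_ne k hk _ hz 2 (by norm_num) (by norm_num) h4

theorem not_real {k t : ℕ} (hk : 3 ≤ k) (h : (t + 1) % 2 ^ k = 2 ^ (k - 1))
    (φ : EF2 k t →+* ℂ) : ¬ ComplexEmbedding.IsReal φ := by
  have hn : (2 : ℕ) ^ k ≠ 0 := by positivity
  have hζ := Complex.isPrimitiveRoot_exp (2 ^ k) hn
  set ζ : ℂ := Complex.exp (2 * Real.pi * Complex.I / ((2 ^ k : ℕ) : ℂ)) with hζd
  have hm : ζ ∈ Cyc (2 ^ k) := IntermediateField.subset_adjoin ℚ _ hζ.pow_eq_one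
  have hle : EF2 k t ≤ Cyc (2 ^ k) := DENx.le_cyc k t
  have hfC : FiniteDimensional ℚ (Cyc (2 ^ k)) := DENx.finite_cyc _ (by positivity)
  have hzp : IsPrimitiveRoot (⟨ζ, hm⟩ : Cyc (2 ^ k)) (2 ^ k) :=
    IsPrimitiveRoot.coe_submonoidClass_iff.1 hζ
  exact not_real_abs k hk (EF2 k t) (Cyc (2 ^ k)) (IntermediateField.inclusion hle)
    ⟨ζ, hm⟩ ⟨ζ - ζ⁻¹, mem_elt hk h hζ⟩ hzp (Subtype.ext rfl) φ

end DP2x

theorem DP2_thm : Stmt_DP2 := by
  intro k t hk h α hα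
  have hle : EF2 k t ≤ Cyc (2 ^ k) := DENx.le_cyc k t
  have hfC : FiniteDimensional ℚ (Cyc (2 ^ k)) := DENx.finite_cyc _ (by positivity)
  have hfE : FiniteDimensional ℚ (EF2 k t) :=
    FiniteDimensional.of_injective (IntermediateField.inclusion hle).toLinearMap
      (IntermediateField.inclusion_injective hle)
  have hNF : NumberField (EF2 k t) := { to_charZero := inferInstance, to_finiteDimensional := by
                                          convert hfE }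
  have : IsTotallyComplex (EF2 k t) :=
    ⟨fun v => isComplex_iff.2 (DP2x.not_real hk h v.embedding)⟩
  have h1 := _root_.ABS.POS.norm_pos (EF2 k t) α hα
  convert h1

end StarkC.ABS
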