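import Pool.Agent.ABS.StD4

/-!
# Project ABS, module DPE: signs, the final form of theorem (D)
-/

set_option autoImplicit false

open NumberField IsDedekindDomain
open scoped TensorProduct Classical

namespace StarkC.ABS

open StarkP (rootField)

namespace DPEx

/-- the square of the regulator of a representation with character `lfun` -/
theorem reg_sq {K L : Type} [Field K] [NumberField K] [Field L] [NumberField L] [Algebra K L]
    [IsGalois K L] (S : Finset (HeightOneSpectrum (𝓞 K)))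
    (φ : XQ L (aboveSet K L S) ≃ₗ[ℚ] QU L (aboveSet K L S))
    (Θ : XC L (aboveSet K L S) →ₗ[ℂ] XC L (aboveSet K L S))
    (A : Subgroup (L ≃ₐ[K] L)) (ψ : A →* ℂˣ) (k : ℕ)
    (hφ : IsPhiTheta K (aboveSet K L S) φ Θ)
    (V : Type) [AddCommGroup V] [Module ℂ V] [Module.Finite ℂ V]
    (ρ : Representation ℂ (L ≃ₐ[K] L) V) (hρ : ∀ g, ρ.character g = lfun k A ψ g) :
    Reg (aboveSet K L S) ρ Θ ^ 2 =
      ∏ j ∈ Ex (2 ^ k), Reg (aboveSet K L S) (linRep (liftChar A (ψ ^ j))) Θ := by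
  have hTf : (aboveSet K L (S : Set (HeightOneSpectrum (𝓞 K)))).Finite :=
    IND.aboveSet_finite _ S.finite_toSet
  have hT := STB_thm K L (S : Set (HeightOneSpectrum (𝓞 K)))
  have hc := ALLT.thc K L _ hT φ Θ hTf hφ
  have hb := ALLT.thb K L _ φ Θ hTf hφ
  let e : Fin (Fintype.card (Ex (2 ^ k))) ≃ Ex (2 ^ k) := (Fintype.equivFin _).symm
  have hχ : ∀ g, ((2 : ℕ) : ℂ) * ρ.character g = ∑ j, ((1 : ℤ) : ℂ) *
      indFun A (extZ (ψ ^ ((e j : ℕ)))) g := by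
    intro g
    rw [hρ g]
    unfold lfun
    rw [Equiv.sum_comp e fun p : Ex (2 ^ k) => ((1 : ℤ) : ℂ) *
      indFun A (extZ (ψ ^ (p : ℕ))) g, ← Finset.sum_coe_sort (Ex (2 ^ k))]
    have h1 : ∀ p : Ex (2 ^ k), ((1 : ℤ) : ℂ) * indFun A (extZ (ψ ^ (p : ℕ))) g =
        indFun A (extZ (ψ ^ (p : ℕ))) g := fun p => by rw [Int.cast_one, one_mul]
    rw [Finset.sum_congr rfl fun p _ => h1 p]
    push_cast
    ring
  have h1 := INDP.reg_comb TRD_thm ALLT.rgt hTf hT Θ hb hc V ρ 2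
    (Fintype.card (Ex (2 ^ k))) (fun _ => A) (fun j => ψ ^ ((e j : ℕ))) (fun _ => 1) hχ
  rw [h1, Equiv.prod_comp e fun p : Ex (2 ^ k) => Reg (aboveSet K L S)
    (linRep (liftChar A (ψ ^ (p : ℕ)))) Θ ^ (1 : ℤ), ← Finset.prod_coe_sort (Ex (2 ^ k))]
  exact Finset.prod_congr rfl fun p _ => zpow_one _

end DPEx

open DPEx in
theorem DPE_thm : Stmt_DPE := by
  intro hPD hDTW hDP2 hDI4 hREGC hDPS hDRE K L _ _ _ _ _ _ S φ Θ A ψ g k t hk hleaf hφ
  obtain ⟨F, α, r, hF, hα, hr, htr, hprod⟩ := hPD K L A ψ g k t hk hleaf S φ Θ hφ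
  have hpm : ∀ (V : Type) [AddCommGroup V] [Module ℂ V] [Module.Finite ℂ V]
      (ρ : Representation ℂ (L ≃ₐ[K] L) V), (∀ g, ρ.character g = lfun k A ψ g) →
      Reg (aboveSet K L S) ρ Θ = ((Algebra.norm ℚ α : ℚ) : ℂ) * (r : ℂ) ∨
        Reg (aboveSet K L S) ρ Θ = -(((Algebra.norm ℚ α : ℚ) : ℂ) * (r : ℂ)) := by
    intro V _ _ _ ρ hρ
    have h1 := reg_sq S φ Θ A ψ k hφ V ρ hρ
    rw [hprod] at h1
    exact sq_eq_sq_iff_eq_or_eq_neg.1 h1
  rcases hleaf.tt.2 with h0 | ⟨_, h0⟩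
  · -- dihedral case
    by_cases hall : ∀ (V : Type) [AddCommGroup V] [Module ℂ V] [Module.Finite ℂ V]
      (ρ : Representation ℂ (L ≃ₐ[K] L) V), (∀ g, ρ.character g = lfun k A ψ g) →
      Reg (aboveSet K L S) ρ Θ = ((Algebra.norm ℚ α : ℚ) : ℂ) * (r : ℂ)
    · refine ⟨F, α, hF, hα, fun V _ _ _ ρ hρ => ?_⟩
      rw [htr]
      exact hall V ρ hρ
    · push Not at hall
      obtain ⟨V0, i1, i2, i3, ρ0, hρ0, hne⟩ := hall
      obtain ⟨β, hβ, hβn⟩ := (hDTW k t hk hleaf.tt).2 h0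
      have h2 := (hpm V0 ρ0 hρ0).resolve_left hne
      refine ⟨F, α * β, hF, mul_ne_zero hα hβ, fun V _ _ _ ρ hρ => ?_⟩
      have h3 := hDRE K L S φ Θ hφ V V0 ρ ρ0 fun g => (hρ g).trans (hρ0 g).symm
      rw [h3, h2, htr, map_mul, hβn]
      push_cast
      ring
  · -- semidihedral case
    have hN := hDP2 k t hk h0 α hα
    refine ⟨F, α, hF, hα, fun V _ _ _ ρ hρ => ?_⟩
    rw [htr]
    rcases hpm V ρ hρ with h1 | h1
    · exact h1
    · exfalso
      obtain ⟨r', hr', h2⟩ := hDPS hDI4 hREGC K L S φ Θ A ψ g k t hk hleaf h0 hφ V ρ hρ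
      rw [h2] at h1
      have h3 : r' = -(((Algebra.norm ℚ α : ℚ) : ℝ) * r) := by
        have h4 : ((r' : ℝ) : ℂ) = ((-(((Algebra.norm ℚ α : ℚ) : ℝ) * r) : ℝ) : ℂ) := by
          rw [h1]
          push_cast
          ring
        exact_mod_cast h4
      have h5 : (0 : ℝ) < ((Algebra.norm ℚ α : ℚ) : ℝ) := by exact_mod_cast hN
      have h6 := mul_pos h5 hr
      linarith

end StarkC.ABS
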