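import Pool.Agent.ABS.StB

/-!
# Project ABS, module PRAT: change of `φ` (helper43)
-/

open NumberField IsDedekindDomain
open scoped TensorProduct Classical

namespace StarkC.ABS

namespace PRATx

theorem nm_mul (n : ℕ) (α β : Cyc n) : nm n (α * β) = nm n α * nm n β := by
  unfold nm
  rw [map_mul, Rat.cast_mul]

/-- the values of `ψ` are `n`-th roots of unity -/
theorem val_pow {G : Type} [Group G] {n : ℕ} {ψ : G →* ℂˣ} (h : ψ ^ n = 1) (g : G) :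
    ((ψ g : ℂˣ) : ℂ) ^ n = 1 := by
  have h1 := congrArg (fun χ : G →* ℂˣ => χ g) h
  have h2 : (ψ g) ^ n = 1 := h1
  rw [← Units.val_pow_eq_pow_val, h2, Units.val_one]

/-- the values of `ψ` are in `ℚ(ζ_n)` -/
theorem val_mem {G : Type} [Group G] {n : ℕ} {ψ : G →* ℂˣ} (h : ψ ^ n = 1) (g : G) :
    ((ψ g : ℂˣ) : ℂ) ∈ Cyc n :=
  IntermediateField.subset_adjoin ℚ _ (val_pow h g)

end PRATx

open PRATx

theorem PRAT_thm : Stmt_PRAT := by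
  intro hF hS hN n K L _ _ _ _ _ _ ψ S φ φ₂ Θ Θ₂ hn hψ h h₂ hP
  obtain ⟨F, α, hL, hα, hR⟩ := hP
  have hne := StarkG.reg_ne_zero S φ Θ h ℂ (linRep ψ)
  obtain ⟨x, hx, h1, -⟩ := PHIR_thm K L S φ φ₂ Θ Θ₂ ℂ ℂ (linRep ψ) (linRep ψ) (RingEquiv.refl ℂ)
    h h₂ (fun g => rfl)
  -- `x` is in the cyclotomic field
  have hxC : x ∈ Cyc n := by
    refine hF n x fun σ hσ => ?_
    obtain ⟨y, hy, h3, h4⟩ := PHIR_thm K L S φ φ₂ Θ Θ₂ ℂ ℂ (linRep ψ) (linRep ψ) σ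
      h h₂ (fun g => by rw [SIND.chr]; exact (hσ _ (val_mem hψ g)).symm)
    have e1 : y = x := mul_right_cancel₀ hne (h3.symm.trans h1)
    have e2 : σ y = x := mul_right_cancel₀ hne (h4.symm.trans h1)
    rw [e1] at e2
    exact e2
  -- the conjugates
  obtain ⟨σ, hσ⟩ : ∃ σ : ℕ → (ℂ ≃+* ℂ), ∀ t ∈ Ex n, ∀ z : ℂ, z ^ n = 1 → σ t z = z ^ t := by
    have h5 : ∀ t : ℕ, ∃ τ : ℂ ≃+* ℂ, t ∈ Ex n → ∀ z : ℂ, z ^ n = 1 → τ z = z ^ t := by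
      intro t
      by_cases ht : t ∈ Ex n
      · obtain ⟨τ, hτ⟩ := hS n t hn (Finset.mem_filter.1 ht).2
        exact ⟨τ, fun _ => hτ⟩
      · exact ⟨RingEquiv.refl ℂ, fun h => absurd h ht⟩
    choose σ hσ using h5
    exact ⟨σ, hσ⟩
  have hc : ∀ t ∈ Ex n, Reg (aboveSet K L S) (linRep (ψ ^ t)) Θ₂ =
      σ t x * Reg (aboveSet K L S) (linRep (ψ ^ t)) Θ := by
    intro t ht
    obtain ⟨y, hy, h3, h4⟩ := PHIR_thm K L S φ φ₂ Θ Θ₂ ℂ ℂ (linRep ψ) (linRep (ψ ^ t)) (σ t)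
      h h₂ (fun g => by
        rw [SIND.chr, SIND.chr]
        show (((ψ ^ t) g : ℂˣ) : ℂ) = σ t ((ψ g : ℂˣ) : ℂ)
        rw [hσ t ht _ (val_pow hψ g), MonoidHom.pow_apply, Units.val_pow_eq_pow_val])
    have e1 : y = x := mul_right_cancel₀ hne (h3.symm.trans h1)
    rw [e1] at h4
    exact h4
  refine ⟨F, ⟨x, hxC⟩ * α, hL, mul_ne_zero (fun h0 => hx (congrArg Subtype.val h0)) hα, ?_⟩
  have hprod : cReg n (aboveSet K L S) ψ Θ₂ =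
      (∏ t ∈ Ex n, σ t x) * cReg n (aboveSet K L S) ψ Θ := by
    unfold cReg
    rw [← Finset.prod_mul_distrib]
    exact Finset.prod_congr rfl hc
  have hnx : nm n (⟨x, hxC⟩ : Cyc n) = ∏ t ∈ Ex n, σ t x := hN n σ hn hσ ⟨x, hxC⟩
  rw [hprod, hR, nm_mul, hnx, mul_assoc]

end StarkC.ABS
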