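import Pool.Agent.ABS.StD4
import Pool.Agent.ABS.PRAT
import Pool.Agent.ABS.COMB

/-!
# Project ABS (MP_46b841_nt), part D, module DPH: change of `φ`
-/

set_option autoImplicit false

open NumberField IsDedekindDomain
open scoped TensorProduct Classical

namespace StarkC.ABS

namespace DPHx

/-- the quotient of the regulators for two `φ`, for one linear character and its powers -/
theorem ratio (hF : Stmt_FIXC) (n : ℕ) {K L : Type} [Field K] [NumberField K] [Field L]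
    [NumberField L] [Algebra K L] [IsGalois K L] (ψ : (L ≃ₐ[K] L) →* ℂˣ)
    (S : Finset (HeightOneSpectrum (𝓞 K))) (hψ : ψ ^ n = 1)
    {T : Set (HeightOneSpectrum (𝓞 L))} (hT : aboveSet K L S = T)
    (φ φ₂ : XQ L T ≃ₗ[ℚ] QU L T) (Θ Θ₂ : XC L T →ₗ[ℂ] XC L T)
    (h : IsPhiTheta K T φ Θ) (h₂ : IsPhiTheta K T φ₂ Θ₂) :
    ∃ x : Cyc n, (x : ℂ) ≠ 0 ∧ Reg T (linRep ψ) Θ ≠ 0 ∧
      Reg T (linRep ψ) Θ₂ = x * Reg T (linRep ψ) Θ ∧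
      ∀ (σ : ℂ ≃+* ℂ) (j : ℕ), (∀ z : ℂ, z ^ n = 1 → σ z = z ^ j) →
        Reg T (linRep (ψ ^ j)) Θ₂ = σ x * Reg T (linRep (ψ ^ j)) Θ := by
  subst hT
  have hne := StarkG.reg_ne_zero S φ Θ h ℂ (linRep ψ)
  obtain ⟨x, hx, h1, -⟩ := PHIR_thm K L S φ φ₂ Θ Θ₂ ℂ ℂ (linRep ψ) (linRep ψ) (RingEquiv.refl ℂ)
    h h₂ (fun g => rfl)
  have hxC : x ∈ Cyc n := by
    refine hF n x fun σ hσ => ?_
    obtain ⟨y, hy, h3, h4⟩ := PHIR_thm K L S φ φ₂ Θ Θ₂ ℂ ℂ (linRep ψ) (linRep ψ) σ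
      h h₂ (fun g => by rw [SIND.chr]; exact (hσ _ (PRATx.val_mem hψ g)).symm)
    have e1 : y = x := mul_right_cancel₀ hne (h3.symm.trans h1)
    have e2 : σ y = x := mul_right_cancel₀ hne (h4.symm.trans h1)
    rw [e1] at e2
    exact e2
  refine ⟨⟨x, hxC⟩, hx, hne, h1, fun σ j hσ => ?_⟩
  obtain ⟨y, hy, h3, h4⟩ := PHIR_thm K L S φ φ₂ Θ Θ₂ ℂ ℂ (linRep ψ) (linRep (ψ ^ j)) σ
    h h₂ (fun g => by
      rw [SIND.chr, SIND.chr]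
      show (((ψ ^ j) g : ℂˣ) : ℂ) = σ ((ψ g : ℂˣ) : ℂ)
      rw [hσ _ (PRATx.val_pow hψ g), MonoidHom.pow_apply, Units.val_pow_eq_pow_val])
  have e1 : y = x := mul_right_cancel₀ hne (h3.symm.trans h1)
  rw [e1] at h4
  exact h4

/-- the regulators of `ψ ^ t` and `ψ` agree -/
theorem reg_t (hDLI : Stmt_DLI) (hDRC : Stmt_DRC) {K L : Type} [Field K] [NumberField K]
    [Field L] [NumberField L] [Algebra K L] [IsGalois K L]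
    (S : Finset (HeightOneSpectrum (𝓞 K)))
    (φ : XQ L (aboveSet K L S) ≃ₗ[ℚ] QU L (aboveSet K L S))
    (Θ : XC L (aboveSet K L S) →ₗ[ℂ] XC L (aboveSet K L S))
    (A : Subgroup (L ≃ₐ[K] L)) (ψ : A →* ℂˣ) (g : L ≃ₐ[K] L) (k t : ℕ)
    (hL : Leaf A ψ g k 1 t) (hφ : IsPhiTheta K (aboveSet K L S) φ Θ) :
    Reg (aboveSet K L S) (linRep (liftChar A ψ ^ t)) Θ =
      Reg (aboveSet K L S) (linRep (liftChar A ψ)) Θ := by
  have h1 := hDRC K L S φ Θ 2 (fun _ => A) ![ψ ^ (1 * t), ψ ^ 1] ![1, -1] hφ (by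
    intro x
    rw [Fin.sum_univ_two]
    have h2 := hDLI (L ≃ₐ[K] L) A ψ g k 1 t hL 1 x
    show ((1 : ℤ) : ℂ) * indFun A (extZ (ψ ^ (1 * t))) x +
      ((-1 : ℤ) : ℂ) * indFun A (extZ (ψ ^ 1)) x = 0
    rw [h2]
    push_cast
    ring)
  rw [Fin.prod_univ_two] at h1
  have h2 : Reg (aboveSet K L S) (linRep (liftChar A (ψ ^ (1 * t)))) Θ ^ (1 : ℤ) *
      Reg (aboveSet K L S) (linRep (liftChar A (ψ ^ 1))) Θ ^ (-1 : ℤ) = 1 := h1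
  rw [one_mul, pow_one, zpow_one, zpow_neg, zpow_one, COMBx.lift_pow] at h2
  have h3 : Reg (aboveSet K L S) (linRep (liftChar A ψ)) Θ ≠ 0 := by
    intro h0
    rw [h0, inv_zero, mul_zero] at h2
    exact zero_ne_one h2
  exact (mul_inv_eq_one₀ h3).1 h2

end DPHx

open DPHx

theorem DPH_thm : Stmt_DPH := by
  intro hF hS hN hDEN hDLI hDRC K L _ _ _ _ _ _ S φ φ₂ Θ Θ₂ A ψ g k t hk hL h h₂ hP
  obtain ⟨F, α, r, hFL, hα, hr, hlead, hR⟩ := hP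
  obtain ⟨S', hS'⟩ := IND.exists_S' (IntermediateField.fixedField A)
    (S : Set (HeightOneSpectrum (𝓞 K))) S.finite_toSet
  have hn : 0 < 2 ^ k := by positivity
  have hψ : liftChar A ψ ^ (2 ^ k) = 1 := by
    have h1 : ψ ^ (2 ^ k) = 1 := by
      have h2 := pow_orderOf_eq_one ψ
      rwa [hL.ord, mul_one] at h2
    rw [← COMBx.lift_pow, h1]
    rfl
  obtain ⟨x, hx, hne1, hone, hc⟩ := ratio hF (2 ^ k) (liftChar A ψ) S' hψ hS' φ φ₂ Θ Θ₂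
    (IND.isPhiTheta_sub _ h) (IND.isPhiTheta_sub _ h₂)
  have ht1 := reg_t hDLI hDRC S φ Θ A ψ g k t hL h
  have ht2 := reg_t hDLI hDRC S φ₂ Θ₂ A ψ g k t hL h₂
  have hfix : ∀ σ : ℂ ≃+* ℂ, (∀ z : ℂ, z ^ (2 ^ k) = 1 → σ z = z ^ t) → σ x = x := by
    intro σ hσ
    have h3 : Reg (aboveSet K L S) (linRep (liftChar A ψ ^ t)) Θ₂ =
        σ x * Reg (aboveSet K L S) (linRep (liftChar A ψ ^ t)) Θ := hc σ t hσ
    rw [ht1, ht2, hone] at h3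
    exact (mul_right_cancel₀ hne1 h3).symm
  obtain ⟨α', hα', hnm⟩ := hDEN k t hk hL.tt x hfix
  -- the conjugates
  obtain ⟨σ, hσ⟩ : ∃ σ : ℕ → (ℂ ≃+* ℂ), ∀ t ∈ Ex (2 ^ k), ∀ z : ℂ, z ^ (2 ^ k) = 1 →
      σ t z = z ^ t := by
    have h5 : ∀ t : ℕ, ∃ τ : ℂ ≃+* ℂ, t ∈ Ex (2 ^ k) → ∀ z : ℂ, z ^ (2 ^ k) = 1 →
        τ z = z ^ t := by
      intro t
      by_cases ht : t ∈ Ex (2 ^ k)
      · obtain ⟨τ, hτ⟩ := hS (2 ^ k) t hn (Finset.mem_filter.1 ht).2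
        exact ⟨τ, fun _ => hτ⟩
      · exact ⟨RingEquiv.refl ℂ, fun h => absurd h ht⟩
    choose σ hσ using h5
    exact ⟨σ, hσ⟩
  have hα0 : α' ≠ 0 := by
    intro h0
    apply hx
    rw [← hα', h0]
    rfl
  refine ⟨F, α * α', r, hFL, mul_ne_zero hα hα0, hr, hlead, ?_⟩
  have hprod : ∏ j ∈ Ex (2 ^ k), Reg (aboveSet K L S) (linRep (liftChar A (ψ ^ j))) Θ₂ =
      (∏ j ∈ Ex (2 ^ k), σ j x) *
        ∏ j ∈ Ex (2 ^ k), Reg (aboveSet K L S) (linRep (liftChar A (ψ ^ j))) Θ := by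
    rw [← Finset.prod_mul_distrib]
    refine Finset.prod_congr rfl fun j hj => ?_
    rw [COMBx.lift_pow]
    exact hc (σ j) j (hσ j hj)
  rw [hprod, hR, ← hN (2 ^ k) σ hn hσ x, hnm, map_mul, Rat.cast_mul]
  ring

end StarkC.ABS
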