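import Pool.Agent.ABS.StD2

/-!
# Project ABS (MP_46b841_nt), part D, module DPR: the prime above `2` is principal
-/

open NumberField
open scoped Classical

namespace ABS

namespace DPR

/-- the absolute norm of a relative norm -/
theorem absNorm_norm (E C : Type) [Field E] [NumberField E] [Field C] [NumberField C]
    [Algebra E C] (x : 𝓞 C) :
    Ideal.absNorm (Ideal.span {RingOfIntegers.norm E x}) = Ideal.absNorm (Ideal.span {x}) := by
  have : FiniteDimensional E C := FiniteDimensional.right ℚ E C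
  have h1 : (Algebra.norm ℤ (RingOfIntegers.norm E x) : ℚ) = (Algebra.norm ℤ x : ℚ) := by
    rw [Algebra.coe_norm_int, Algebra.coe_norm_int, RingOfIntegers.coe_norm, Algebra.norm_norm]
  have h2 : Algebra.norm ℤ (RingOfIntegers.norm E x) = Algebra.norm ℤ x := by exact_mod_cast h1
  rw [Ideal.absNorm_span_singleton, Ideal.absNorm_span_singleton, h2]

end DPR

theorem DPR_thm : Stmt_DPR := by
  intro k t E _ _ _ τ hFD
  obtain ⟨m, rfl⟩ : ∃ m, k = m + 1 := ⟨k - 1, by have := hFD.k3; omega⟩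
  have : Fact (Nat.Prime 2) := ⟨Nat.prime_two⟩
  have : IsCyclotomicExtension {2 ^ (m + 1)} ℚ (CyclotomicField (2 ^ (m + 1)) ℚ) :=
    CyclotomicField.isCyclotomicExtension (2 ^ (m + 1)) ℚ
  have hζ := IsCyclotomicExtension.zeta_spec (2 ^ (m + 1)) ℚ (CyclotomicField (2 ^ (m + 1)) ℚ)
  have hfin : FiniteDimensional E (CyclotomicField (2 ^ (m + 1)) ℚ) :=
    FiniteDimensional.right ℚ E _
  have hgal : IsGalois ℚ (CyclotomicField (2 ^ (m + 1)) ℚ) :=
    IsCyclotomicExtension.isGalois {2 ^ (m + 1)} ℚ _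
  have hgalE : IsGalois E (CyclotomicField (2 ^ (m + 1)) ℚ) :=
    IsGalois.tower_top_of_isGalois ℚ E _
  have hn : Ideal.absNorm (Ideal.span {RingOfIntegers.norm E (hζ.toInteger - 1)}) = 2 := by
    rw [DPR.absNorm_norm]
    exact IsCyclotomicExtension.Rat.absNorm_span_zeta_sub_one 2 m hζ
  refine ⟨RingOfIntegers.norm E (hζ.toInteger - 1), hn, fun P hP hL => ?_⟩
  have hprime : (Ideal.span {RingOfIntegers.norm E (hζ.toInteger - 1)}).IsPrime := by
    refine Ideal.isPrime_of_irreducible_absNorm ?_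
    rw [hn, Nat.irreducible_iff_prime]
    exact Nat.prime_two.prime
  have hne : Ideal.span {RingOfIntegers.norm E (hζ.toInteger - 1)} ≠ ⊥ := by
    intro h
    rw [h, Ideal.absNorm_bot] at hn
    omega
  have hmax : (Ideal.span {RingOfIntegers.norm E (hζ.toInteger - 1)}).IsMaximal :=
    hprime.isMaximal hne
  have hz : (Ideal.span {(2 : ℤ)}).IsMaximal := Int.ideal_span_isMaximal_of_prime 2
  have hPmax : P.IsMaximal := Ideal.IsMaximal.of_liesOver_isMaximal P (Ideal.span {(2 : ℤ)})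
  obtain ⟨Q, hQm, hQL⟩ := Ideal.exists_maximal_ideal_liesOver_of_isIntegral
    (S := 𝓞 (CyclotomicField (2 ^ (m + 1)) ℚ)) P
  have hQP : Q.IsPrime := hQm.isPrime
  have hQ2 : Q.LiesOver (Ideal.span {(2 : ℤ)}) := Ideal.LiesOver.trans Q P _
  have hQ := IsCyclotomicExtension.Rat.eq_span_zeta_sub_one_of_liesOver 2 m _ hζ Q
  refine (hmax.eq_of_le hP.ne_top ?_).symm
  rw [Ideal.span_singleton_le_iff_mem, hQL.over, Ideal.mem_comap, hQ, Ideal.mem_span_singleton]
  exact RingOfIntegers.dvd_norm E _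

end ABS
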