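import Pool.Agent.ABS.StD4
import Pool.Agent.ABS.COMB

/-!
# Project ABS, part D: the regulator is positive in the semidihedral case
-/

set_option autoImplicit false

open NumberField IsDedekindDomain
open scoped TensorProduct Classical

namespace StarkC.ABS

namespace DPSx

/-- REGC for any set of primes equal to the given one -/
theorem regc_of (hR : Stmt_REGC) {K L : Type} [Field K] [NumberField K] [Field L]
    [NumberField L] [Algebra K L] [IsGalois K L] (ψ : (L ≃ₐ[K] L) →* ℂˣ)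
    (S : Finset (HeightOneSpectrum (𝓞 K)))
    {T : Set (HeightOneSpectrum (𝓞 L))} (hT : aboveSet K L S = T)
    (φ : XQ L T ≃ₗ[ℚ] QU L T) (Θ : XC L T →ₗ[ℂ] XC L T) (hφ : IsPhiTheta K T φ Θ) :
    Reg T (linRep ψ⁻¹) Θ = starRingEnd ℂ (Reg T (linRep ψ) Θ) := by
  subst hT
  exact hR K L ψ S φ Θ hφ

end DPSx

open DPSx in
theorem DPS_thm : Stmt_DPS := by
  intro hDI4 hREGC K L _ _ _ _ _ _ S φ Θ A ψ g k t hk hLf ht hφ V _ _ _ ρ hρ
  have hTf : (aboveSet K L (S : Set (HeightOneSpectrum (𝓞 K)))).Finite :=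
    IND.aboveSet_finite _ S.finite_toSet
  have hT := STB_thm K L (S : Set (HeightOneSpectrum (𝓞 K)))
  have hc := ALLT.thc K L _ hT φ Θ hTf hφ
  have hb := ALLT.thb K L _ φ Θ hTf hφ
  let J : Finset ℕ := (Finset.range (2 ^ k / 4)).filter Odd
  let R : ℕ → ℂ := fun j => Reg (aboveSet K L S) (linRep (liftChar A (ψ ^ j))) Θ
  have hR' : ∀ j : ℕ, Reg (aboveSet K L S) (linRep (liftChar A (ψ⁻¹ ^ j))) Θ =
      starRingEnd ℂ (R j) := by
    intro j
    obtain ⟨S', hS'⟩ := IND.exists_S' (IntermediateField.fixedField A)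
      (S : Set (HeightOneSpectrum (𝓞 K))) S.finite_toSet
    have h1 : liftChar A (ψ⁻¹ ^ j) = (liftChar A (ψ ^ j))⁻¹ :=
      MonoidHom.ext fun a => inv_pow (liftChar A ψ a) j
    rw [h1]
    exact regc_of hREGC (liftChar A (ψ ^ j)) S' hS' φ Θ (IND.isPhiTheta_sub _ hφ)
  let e : Fin (Fintype.card (J × Bool)) ≃ (J × Bool) := (Fintype.equivFin _).symm
  let ψs : J × Bool → (A →* ℂˣ) := fun p => if p.2 then ψ ^ (p.1 : ℕ) else ψ⁻¹ ^ (p.1 : ℕ)
  have hχ : ∀ g, ((1 : ℕ) : ℂ) * ρ.character g = ∑ j, ((1 : ℤ) : ℂ) *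
      indFun A (extZ (ψs (e j))) g := by
    intro x
    rw [Nat.cast_one, one_mul, hρ x, hDI4 _ A ψ g k t hk hLf ht x]
    rw [Equiv.sum_comp e fun p : J × Bool => ((1 : ℤ) : ℂ) * indFun A (extZ (ψs p)) x,
      Fintype.sum_prod_type]
    rw [← Finset.sum_coe_sort J]
    refine Finset.sum_congr rfl fun j _ => ?_
    rw [Fintype.sum_bool, Int.cast_one, one_mul, one_mul]
    rfl
  have h1 := INDP.reg_comb TRD_thm ALLT.rgt hTf hT Θ hb hc V ρ 1
    (Fintype.card (J × Bool)) (fun _ => A) (fun j => ψs (e j)) (fun _ => 1) hχ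
  rw [pow_one] at h1
  have h2 : ∏ j, Reg (aboveSet K L S) (linRep (liftChar A (ψs (e j)))) Θ ^ (1 : ℤ) =
      ∏ j ∈ J, ((Complex.normSq (R j) : ℝ) : ℂ) := by
    rw [Equiv.prod_comp e fun p : J × Bool =>
      Reg (aboveSet K L S) (linRep (liftChar A (ψs p))) Θ ^ (1 : ℤ), Fintype.prod_prod_type]
    rw [← Finset.prod_coe_sort J]
    refine Finset.prod_congr rfl fun j _ => ?_
    rw [Fintype.prod_bool, zpow_one, zpow_one, Complex.normSq_eq_conj_mul_self, mul_comm]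
    exact congrArg₂ (fun a b : ℂ => a * b) (hR' j) rfl
  rw [h2, ← Complex.ofReal_prod] at h1
  refine ⟨∏ j ∈ J, Complex.normSq (R j), ?_, h1⟩
  have h3 : Reg (aboveSet K L S) ρ Θ ≠ 0 := StarkG.reg_ne_zero S φ Θ hφ V ρ
  have h4 : (∏ j ∈ J, Complex.normSq (R j)) ≠ 0 := by
    intro h
    rw [h1, h] at h3
    exact h3 Complex.ofReal_zero
  exact lt_of_le_of_ne (Finset.prod_nonneg fun j _ => Complex.normSq_nonneg _) (Ne.symm h4)

end StarkC.ABS
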