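import Pool.Agent.ABS.StA

/-!
# The transfer for quotients of lattices
-/

open NumberField NumberField.InfinitePlace
open scoped Classical

namespace ABS

namespace QUO

section maps

variable {G H : Type} [AddCommGroup G] [AddCommGroup H]

/-- The homomorphism of quotients. -/
noncomputable def qmap (A B : AddSubgroup G) (A' B' : AddSubgroup H) (f : G →+ H)
    (hA : ∀ x ∈ A, f x ∈ A') (hB : ∀ x ∈ B, f x ∈ B') :
    B ⧸ A.addSubgroupOf B →+ B' ⧸ A'.addSubgroupOf B' :=
  QuotientAddGroup.map _ _ ((f.comp B.subtype).codRestrict B' fun x => hB x x.2) (by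
    intro x hx
    exact hA x hx)

theorem qmap_mk (A B : AddSubgroup G) (A' B' : AddSubgroup H) (f : G →+ H)
    (hA : ∀ x ∈ A, f x ∈ A') (hB : ∀ x ∈ B, f x ∈ B') (b : B) :
    qmap A B A' B' f hA hB (QuotientAddGroup.mk b) =
      QuotientAddGroup.mk (⟨f b, hB b b.2⟩ : B') := rfl

theorem qmap_iterate (A B : AddSubgroup G) (f : G →+ G)
    (hA : ∀ x ∈ A, f x ∈ A) (hB : ∀ x ∈ B, f x ∈ B) (i : ℕ) (b : B)
    (h : (f^[i] (b : G)) ∈ B) :
    (qmap A B A B f hA hB)^[i] (QuotientAddGroup.mk b) =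
      QuotientAddGroup.mk (⟨f^[i] (b : G), h⟩ : B) := by
  induction i generalizing b with
  | zero => rfl
  | succ i ih =>
    rw [Function.iterate_succ_apply, qmap_mk, ih ⟨f b, hB b b.2⟩ (by
      rw [Function.iterate_succ_apply] at h
      exact h)]
    rfl

theorem iterate_mem (B : AddSubgroup G) (f : G →+ G) (hB : ∀ x ∈ B, f x ∈ B) (i : ℕ) (x : G)
    (hx : x ∈ B) : f^[i] x ∈ B := by
  induction i generalizing x with
  | zero => exact hx
  | succ i ih =>
    rw [Function.iterate_succ_apply]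
    exact ih _ (hB x hx)

theorem mk_eq (A B : AddSubgroup G) (b b' : B) (h : (b : G) = b') :
    (QuotientAddGroup.mk b : B ⧸ A.addSubgroupOf B) = QuotientAddGroup.mk b' := by
  rw [Subtype.ext h]

end maps

theorem actf_mul {K L : Type} [Field K] [Field L] [NumberField L] [Algebra K L]
    (g h : L ≃ₐ[K] L) (y : InfinitePlace L → ℝ) : actf (g * h) y = actf g (actf h y) := by
  ext w
  change y ((g * h)⁻¹ • w) = y (h⁻¹ • (g⁻¹ • w))
  rw [mul_inv_rev, mul_smul]

theorem actf_one {K L : Type} [Field K] [Field L] [NumberField L] [Algebra K L]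
    (y : InfinitePlace L → ℝ) : actf (1 : L ≃ₐ[K] L) y = y := by
  ext w
  change y ((1 : L ≃ₐ[K] L)⁻¹ • w) = y w
  rw [inv_one, one_smul]

theorem actf_restrictScalars {K F L : Type} [Field K] [Field F] [Field L] [NumberField L]
    [Algebra K F] [Algebra K L] [Algebra F L] [IsScalarTower K F L] (b : L ≃ₐ[F] L)
    (y : InfinitePlace L → ℝ) : actf (b.restrictScalars K) y = actf b y := by
  ext w
  change y _ = y _
  congr 1

end QUO

open QUO in
theorem QUO_thm : Stmt_QUO := by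
  intro hGEN hJN hJV hLG l k K F L _ _ _ _ _ _ _ _ _ _ _ _ σ hT A B A' B' hj hn ha
  obtain ⟨hσ, hsum⟩ := hGEN l k K F L σ hT
  obtain ⟨hN1, hN2⟩ := hJN F L
  obtain ⟨hV1, hV2, -, -⟩ := hJV hJN F L
  obtain ⟨-, hV3, -⟩ := hLG K L σ
  let J : V F →+ V L :=
    { toFun := fun x => ⟨jf F L x, hV1 x x.2⟩
      map_zero' := Subtype.ext (map_zero _)
      map_add' := fun x y => Subtype.ext (map_add _ _ _) }
  let Nn : V L →+ V F :=
    { toFun := fun y => ⟨nf F L y, hV2 y y.2⟩
      map_zero' := Subtype.ext (map_zero _)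
      map_add' := fun x y => Subtype.ext (map_add _ _ _) }
  let Sg : V L →+ V L :=
    { toFun := fun y => ⟨actf σ y, hV3 y y.2⟩
      map_zero' := Subtype.ext (map_zero _)
      map_add' := fun x y => Subtype.ext (map_add _ _ _) }
  have hSg : ∀ (i : ℕ) (y : V L), ((Sg^[i] y : V L) : InfinitePlace L → ℝ) = actf (σ ^ i) y := by
    intro i
    induction i with
    | zero =>
      intro y
      rw [pow_zero, actf_one]
      rfl
    | succ i ih =>
      intro y
      rw [Function.iterate_succ_apply, ih, pow_succ, actf_mul]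
      rfl
  have hJA : ∀ x ∈ A, J x ∈ A' := fun x hx => (hj x (J x) rfl).1 hx
  have hJB : ∀ x ∈ B, J x ∈ B' := fun x hx => (hj x (J x) rfl).2 hx
  have hNA : ∀ y ∈ A', Nn y ∈ A := fun y hy => (hn y (Nn y) rfl).1 hy
  have hNB : ∀ y ∈ B', Nn y ∈ B := fun y hy => (hn y (Nn y) rfl).2 hy
  have hSA : ∀ y ∈ A', Sg y ∈ A' := fun y hy => (ha y (Sg y) rfl).1 hy
  have hSB : ∀ y ∈ B', Sg y ∈ B' := fun y hy => (ha y (Sg y) rfl).2 hy
  refine ⟨qmap A' B' A' B' Sg hSA hSB, qmap A B A' B' J hJA hJB, qmap A' B' A B Nn hNA hNB,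
    ?_, ?_, ?_⟩
  · intro x
    obtain ⟨b, rfl⟩ := QuotientAddGroup.mk_surjective x
    rw [qmap_iterate A' B' Sg hSA hSB _ b (iterate_mem B' Sg hSB _ _ b.2)]
    refine mk_eq A' B' _ _ (Subtype.ext ?_)
    change ((Sg^[l ^ k] (b : V L) : V L) : InfinitePlace L → ℝ) = _
    rw [hSg, hσ, actf_one]
  · intro x
    obtain ⟨b, rfl⟩ := QuotientAddGroup.mk_surjective x
    rw [qmap_mk, qmap_mk]
    have h1 : (l • (QuotientAddGroup.mk b : B ⧸ A.addSubgroupOf B)) =
        QuotientAddGroup.mk (l • b) := rfl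
    rw [h1]
    refine mk_eq A B _ _ (Subtype.ext ?_)
    change nf F L (jf F L (b : V F)) = l • ((b : V F) : InfinitePlace F → ℝ)
    rw [hN1, hT.rank, Nat.cast_smul_eq_nsmul]
  · intro x
    obtain ⟨b, rfl⟩ := QuotientAddGroup.mk_surjective x
    rw [qmap_mk, qmap_mk]
    have h1 : ∀ i, (qmap A' B' A' B' Sg hSA hSB)^[l ^ k / l * i] (QuotientAddGroup.mk b) =
        (QuotientAddGroup.mk' (A'.addSubgroupOf B'))
          (⟨Sg^[l ^ k / l * i] (b : V L), iterate_mem B' Sg hSB _ _ b.2⟩ : B') := fun i =>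
      qmap_iterate A' B' Sg hSA hSB _ b (iterate_mem B' Sg hSB _ _ b.2)
    rw [Finset.sum_congr rfl fun i _ => h1 i, ← map_sum]
    refine mk_eq A' B' _ _ (Subtype.ext ?_)
    rw [AddSubgroup.val_finsetSum, Submodule.coe_sum]
    change jf F L (nf F L (b : V L)) = ∑ i ∈ Finset.range l,
      ((Sg^[l ^ k / l * i] (b : V L) : V L) : InfinitePlace L → ℝ)
    rw [hN2, Finset.sum_congr rfl fun i _ => hSg _ _,
      ← hsum (InfinitePlace L → ℝ) (fun g => actf g ((b : V L) : InfinitePlace L → ℝ))]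
    exact Finset.sum_congr rfl fun g _ => (actf_restrictScalars g _).symm

end ABS
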