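import Pool.Agent.ABS.StD1
import Pool.Agent.ABS.QUO

/-!
# ABS_DQU (MP_46b841_nt, part D): the transfer for quotients of lattices, with the involution
-/

set_option autoImplicit false

open NumberField NumberField.InfinitePlace
open scoped Classical

namespace ABS

open QUO in
theorem DQU_thm : Stmt_DQU := by
  intro hJN hJV hLG k t K F L _ _ _ _ _ _ _ _ _ _ _ σ γ hT A B A' B' hj hn ha
  have hσ := hT.pow
  have hsum := hT.sum
  obtain ⟨hN1, hN2⟩ := hJN F L
  obtain ⟨hV1, hV2, -, -⟩ := hJV hJN F L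
  obtain ⟨-, hV3, -⟩ := hLG K L σ
  obtain ⟨-, hV4, -⟩ := hLG K L γ
  let J : V F →+ V L :=
    { toFun := fun x => ⟨jf F L x, hV1 x x.2⟩
      map_zero' := Subtype.ext (map_zero _)
      map_add' := fun x y => Subtype.ext (map_add _ _ _) }
  let Nn : V L →+ V F :=
    { toFun := fun y => ⟨nf F L y, hV2 y y.2⟩
      map_zero' := Subtype.ext (map_zero _)
      map_add' := fun x y => Subtype.ext (map_add _ _ _) }
  let Sg : V L →+ V L :=
    { toFun := fun y => ⟨actf σ y, hV3 y y.2⟩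
      map_zero' := Subtype.ext (map_zero _)
      map_add' := fun x y => Subtype.ext (map_add _ _ _) }
  let Gg : V L →+ V L :=
    { toFun := fun y => ⟨actf γ y, hV4 y y.2⟩
      map_zero' := Subtype.ext (map_zero _)
      map_add' := fun x y => Subtype.ext (map_add _ _ _) }
  have hSg : ∀ (i : ℕ) (y : V L), ((Sg^[i] y : V L) : InfinitePlace L → ℝ) = actf (σ ^ i) y := by
    intro i
    induction i with
    | zero =>
      intro y
      rw [pow_zero, actf_one]
      rfl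
    | succ i ih =>
      intro y
      rw [Function.iterate_succ_apply, ih, pow_succ, actf_mul]
      rfl
  have hJA : ∀ x ∈ A, J x ∈ A' := fun x hx => (hj x (J x) rfl).1 hx
  have hJB : ∀ x ∈ B, J x ∈ B' := fun x hx => (hj x (J x) rfl).2 hx
  have hNA : ∀ y ∈ A', Nn y ∈ A := fun y hy => (hn y (Nn y) rfl).1 hy
  have hNB : ∀ y ∈ B', Nn y ∈ B := fun y hy => (hn y (Nn y) rfl).2 hy
  have hSA : ∀ y ∈ A', Sg y ∈ A' := fun y hy => (ha σ y (Sg y) rfl).1 hy
  have hSB : ∀ y ∈ B', Sg y ∈ B' := fun y hy => (ha σ y (Sg y) rfl).2 hy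
  have hGA : ∀ y ∈ A', Gg y ∈ A' := fun y hy => (ha γ y (Gg y) rfl).1 hy
  have hGB : ∀ y ∈ B', Gg y ∈ B' := fun y hy => (ha γ y (Gg y) rfl).2 hy
  refine ⟨qmap A' B' A' B' Sg hSA hSB, qmap A' B' A' B' Gg hGA hGB, qmap A B A' B' J hJA hJB,
    qmap A' B' A B Nn hNA hNB, ?_, ?_, ?_, ?_, ?_⟩
  · intro x
    obtain ⟨b, rfl⟩ := QuotientAddGroup.mk_surjective x
    rw [qmap_iterate A' B' Sg hSA hSB _ b (iterate_mem B' Sg hSB _ _ b.2)]
    refine mk_eq A' B' _ _ (Subtype.ext ?_)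
    change ((Sg^[2 ^ k] (b : V L) : V L) : InfinitePlace L → ℝ) = _
    rw [hSg, hσ, actf_one]
  · intro x
    obtain ⟨b, rfl⟩ := QuotientAddGroup.mk_surjective x
    rw [qmap_mk, qmap_mk]
    have h1 : (2 • (QuotientAddGroup.mk b : B ⧸ A.addSubgroupOf B)) =
        QuotientAddGroup.mk (2 • b) := rfl
    rw [h1]
    refine mk_eq A B _ _ (Subtype.ext ?_)
    change nf F L (jf F L (b : V F)) = 2 • ((b : V F) : InfinitePlace F → ℝ)
    rw [hN1, hT.rank, Nat.cast_smul_eq_nsmul]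
  · intro x
    obtain ⟨b, rfl⟩ := QuotientAddGroup.mk_surjective x
    rw [qmap_mk, qmap_mk]
    have h1 : ∀ i, (qmap A' B' A' B' Sg hSA hSB)^[2 ^ k / 2 * i] (QuotientAddGroup.mk b) =
        (QuotientAddGroup.mk' (A'.addSubgroupOf B'))
          (⟨Sg^[2 ^ k / 2 * i] (b : V L), iterate_mem B' Sg hSB _ _ b.2⟩ : B') := fun i =>
      qmap_iterate A' B' Sg hSA hSB _ b (iterate_mem B' Sg hSB _ _ b.2)
    rw [Finset.sum_congr rfl fun i _ => h1 i, ← map_sum]
    refine mk_eq A' B' _ _ (Subtype.ext ?_)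
    rw [AddSubgroup.val_finsetSum, Submodule.coe_sum]
    change jf F L (nf F L (b : V L)) = ∑ i ∈ Finset.range 2,
      ((Sg^[2 ^ k / 2 * i] (b : V L) : V L) : InfinitePlace L → ℝ)
    rw [hN2, Finset.sum_congr rfl fun i _ => hSg _ _,
      ← hsum (InfinitePlace L → ℝ) (fun g => actf g ((b : V L) : InfinitePlace L → ℝ))]
    exact Finset.sum_congr rfl fun g _ => (actf_restrictScalars g _).symm
  · intro x
    obtain ⟨b, rfl⟩ := QuotientAddGroup.mk_surjective x
    rw [qmap_mk, qmap_mk, qmap_mk,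
      qmap_iterate A' B' Sg hSA hSB _ _ (iterate_mem B' Sg hSB _ _ (hGB b b.2))]
    refine mk_eq A' B' _ _ (Subtype.ext ?_)
    change actf γ (actf σ ((b : V L) : InfinitePlace L → ℝ)) =
      ((Sg^[t] (Gg (b : V L)) : V L) : InfinitePlace L → ℝ)
    rw [hSg, ← actf_mul, hT.conj, actf_mul]
    rfl
  · intro x
    obtain ⟨b, rfl⟩ := QuotientAddGroup.mk_surjective x
    rw [qmap_mk, qmap_mk]
    refine mk_eq A' B' _ _ (Subtype.ext ?_)
    change actf γ (actf γ ((b : V L) : InfinitePlace L → ℝ)) = ((b : V L) : InfinitePlace L → ℝ)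
    rw [← actf_mul, hT.inv, actf_one]

end ABS
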