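import Pool.Agent.ABS.StD3

/-!
# ABS_DRB: the regulator over the fixed field of the trivial subgroup
-/

set_option autoImplicit false

open NumberField IsDedekindDomain
open scoped TensorProduct Classical

namespace StarkC.ABS

namespace DRBx

section

variable {K L : Type} [Field K] [NumberField K] [Field L] [NumberField L] [Algebra K L]

/-- the Galois group over the fixed field of the trivial subgroup is trivial -/
theorem eq_one (g : L ≃ₐ[IntermediateField.fixedField (⊥ : Subgroup (L ≃ₐ[K] L))] L) :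
    g = 1 := by
  have : FiniteDimensional K L := Module.Finite.of_restrictScalars_finite ℚ K L
  have h : (IntermediateField.subgroupEquivAlgEquiv (⊥ : Subgroup (L ≃ₐ[K] L))).symm g = 1 :=
    Subsingleton.elim _ _
  rw [← MulEquiv.apply_symm_apply (IntermediateField.subgroupEquivAlgEquiv
    (⊥ : Subgroup (L ≃ₐ[K] L))) g, h, map_one]

theorem core (hREGI : Stmt_REGI) [IsGalois K L] (T : Set (HeightOneSpectrum (𝓞 L)))
    (hTf : T.Finite) (hT : StableT K T) (Θ : XC L T →ₗ[ℂ] XC L T) :
    Reg T (linRep (liftChar (⊥ : Subgroup (L ≃ₐ[K] L)) 1)) Θ = LinearMap.det Θ := by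
  have hTF : StableT (IntermediateField.fixedField (⊥ : Subgroup (L ≃ₐ[K] L))) T :=
    IND.stable_sub _ hT
  have hid : ∀ g, repX (IntermediateField.fixedField (⊥ : Subgroup (L ≃ₐ[K] L))) T hTF g =
      LinearMap.id := by
    intro g
    rw [eq_one g, map_one]
    rfl
  have htop : (repX (IntermediateField.fixedField (⊥ : Subgroup (L ≃ₐ[K] L))) T
      hTF).invariants = ⊤ := by
    rw [eq_top_iff]
    intro x _
    rw [Representation.mem_invariants]
    intro g
    rw [hid g]
    rfl
  have hlift : liftChar (⊥ : Subgroup (L ≃ₐ[K] L)) 1 = 1 := rfl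
  have hinv : ∀ x ∈ (repX (IntermediateField.fixedField (⊥ : Subgroup (L ≃ₐ[K] L))) T
      hTF).invariants, Θ x ∈ (repX (IntermediateField.fixedField (⊥ : Subgroup (L ≃ₐ[K] L))) T
      hTF).invariants := by
    intro x _
    rw [htop]
    trivial
  rw [hlift, hREGI (IntermediateField.fixedField (⊥ : Subgroup (L ≃ₐ[K] L))) L T hTF Θ hTf
    (fun g => by rw [hid g]; rfl) hinv]
  rw [← LinearMap.det_conj (Θ.restrict hinv) (LinearEquiv.ofTop _ htop)]
  congr 1

end

end DRBx

open DRBx in
theorem DRB_thm : Stmt_DRB := by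
  intro hREGI K L _ _ _ _ _ _ S φ Θ _
  exact core hREGI _ (IND.aboveSet_finite _ S.finite_toSet)
    (STB_thm K L (S : Set (HeightOneSpectrum (𝓞 K)))) Θ

end StarkC.ABS
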