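import Pool.Agent.ABS.StD3
import Pool.Agent.ABS.COMB

/-!
# Project ABS, part D, module DRC: relations between regulators

`INDP.reg_comb` with the exponent `M = 0`: the hypothesis on the characters is that the combination is zero.
-/

set_option autoImplicit false

open NumberField IsDedekindDomain
open scoped TensorProduct Classical

namespace StarkC.ABS

theorem DRC_thm : Stmt_DRC := by
  intro K L _ _ _ _ _ _ S φ Θ m H ψ c hφ h0
  have hTf : (aboveSet K L (S : Set (HeightOneSpectrum (𝓞 K)))).Finite :=
    IND.aboveSet_finite _ S.finite_toSet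
  have hT := STB_thm K L (S : Set (HeightOneSpectrum (𝓞 K)))
  have hc := ALLT.thc K L _ hT φ Θ hTf hφ
  have hb := ALLT.thb K L _ φ Θ hTf hφ
  have h1 := INDP.reg_comb TRD_thm ALLT.rgt hTf hT Θ hb hc ℂ
    (linRep (1 : (L ≃ₐ[K] L) →* ℂˣ)) 0 m H ψ c (by
      intro g
      rw [Nat.cast_zero, zero_mul, h0 g])
  rw [pow_zero] at h1
  exact h1.symm

end StarkC.ABS
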