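import Pool.Agent.ABS.StD4
import Pool.Agent.StarkT.PHIR
import Pool.Agent.Stark.INFL
import Pool.Agent.Stark.MAIN

/-!
# Project ABS, module DRE: the regulator depends only on the character
-/

set_option autoImplicit false

open NumberField IsDedekindDomain
open scoped TensorProduct Classical

namespace StarkC.ABS

/-- module DRE -/
theorem DRE_thm : Stmt_DRE := by
  intro K L _ _ _ _ _ _ S φ Θ hφ V V' _ _ _ _ _ _ ρ ρ' hρ
  have hTf : (aboveSet K L (S : Set (HeightOneSpectrum (𝓞 K)))).Finite :=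
    INFL.finite_aboveSet S.finite_toSet
  have hT : StableT K (aboveSet K L (S : Set (HeightOneSpectrum (𝓞 K)))) := STB_thm K L _
  obtain ⟨T, hTT⟩ : ∃ T, T = aboveSet K L (S : Set (HeightOneSpectrum (𝓞 K))) := ⟨_, rfl⟩
  revert φ Θ
  rw [← hTT] at hTf hT ⊢
  intro φ Θ hφ
  have hΘc := THC_thm XRAT_thm K L T hT φ Θ hTf hφ
  have hΘb := THB_thm XRAT_thm UNIT_thm K L T φ Θ hTf hφ
  obtain ⟨W, _, _, _, B, hB1, hB2, hB3⟩ :=
    RGT_thm RTR_thm K L T hT Θ V ρ hTf hΘc hΘb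
  obtain ⟨W', _, _, _, B', hB1', hB2', hB3'⟩ :=
    RGT_thm RTR_thm K L T hT Θ V' ρ' hTf hΘc hΘb
  rw [← hB1, ← hB1']
  have h := PHIR.det_conj TRD_thm (RingEquiv.refl ℂ) W' W B' B hB2' fun k => by
    rw [hB3' k, hB3 k, RingEquiv.refl_apply]
    congr 1
    exact Finset.sum_congr rfl fun g _ => by rw [hρ g]
  simpa using h

end StarkC.ABS
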