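import Pool.Agent.ABS.StD4

set_option autoImplicit false

open NumberField IsDedekindDomain
open scoped TensorProduct Classical

namespace StarkC.ABS

namespace DRTx

/-- The determinant of a restriction depends only on the subspace. -/
theorem det_eq {W : Type} [AddCommGroup W] [Module ℂ W] (A : W →ₗ[ℂ] W) (W₁ W₂ : Submodule ℂ W)
    (h : W₁ = W₂) :
    (if h : ∀ f ∈ W₁, A f ∈ W₁ then LinearMap.det (M := W₁) (A.restrict h) else 0) =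
      (if h : ∀ f ∈ W₂, A f ∈ W₂ then LinearMap.det (M := W₂) (A.restrict h) else 0) := by
  subst h
  rfl

/-- One inclusion. -/
theorem le {K₁ K₂ L : Type} [Field K₁] [NumberField K₁] [Field K₂] [NumberField K₂] [Field L]
    [NumberField L] [Algebra K₁ L] [Algebra K₂ L]
    (T : Set (HeightOneSpectrum (𝓞 L))) (ψ₁ : (L ≃ₐ[K₁] L) →* ℂˣ) (ψ₂ : (L ≃ₐ[K₂] L) →* ℂˣ)
    (h : ∀ g₂ : L ≃ₐ[K₂] L, ∃ g₁ : L ≃ₐ[K₁] L, (∀ x, g₂ x = g₁ x) ∧ ψ₂ g₂ = ψ₁ g₁)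
    (f : Module.Dual ℂ ℂ →ₗ[ℂ] XC L T) (hf : f ∈ homG (K := K₁) T (linRep ψ₁)) :
    f ∈ homG (K := K₂) T (linRep ψ₂) := by
  rw [SREG.mem_homG] at hf ⊢
  intro g₂
  obtain ⟨g₁, h1, h2⟩ := h g₂
  have h3 : (g₂ : L ≃+* L) = (g₁ : L ≃+* L) := RingEquiv.ext h1
  have h4 : ψ₂ g₂⁻¹ = ψ₁ g₁⁻¹ := by rw [map_inv, map_inv, h2]
  rw [h3, h4]
  exact hf g₁

end DRTx

theorem DRT_thm : Stmt_DRT := by
  intro K₁ K₂ L _ _ _ _ _ _ _ _ T ψ₁ ψ₂ Θ h₁ h₂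
  have h : homG (K := K₁) T (linRep ψ₁) = homG (K := K₂) T (linRep ψ₂) := by
    apply le_antisymm
    · intro f hf
      exact DRTx.le T ψ₁ ψ₂ h₂ f hf
    · intro f hf
      refine DRTx.le T ψ₂ ψ₁ (fun g₁ => ?_) f hf
      obtain ⟨g₂, h3, h4⟩ := h₁ g₁
      exact ⟨g₂, fun x => (h3 x).symm, h4.symm⟩
  exact DRTx.det_eq (LinearMap.compRight ℂ Θ) _ _ h

end StarkC.ABS
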