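import Pool.Agent.ABS.StD4
import Pool.Agent.ABS.LFB
import Pool.Agent.StarkT.SLF

/-!
# ABS, module DSL: Euler factors of the trivial character of a subgroup
-/

set_option autoImplicit false

open NumberField IsDedekindDomain
open scoped TensorProduct Classical

namespace StarkC.ABS

namespace DSLx

section

variable {M L : Type} [Field M] [NumberField M] [Field L] [NumberField L] [Algebra M L]
  [IsGalois M L]

/-- one prime -/
theorem step (v : HeightOneSpectrum (𝓞 M)) (S : Finset (HeightOneSpectrum (𝓞 M))) (hv : v ∉ S)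
    (s : ℂ) (hs : 1 < s.re) :
    Complex.exp (logL (K := M) (L := L) (fun _ => 1)
        ((insert v S : Finset (HeightOneSpectrum (𝓞 M))) : Set (HeightOneSpectrum (𝓞 M))) s) =
      Complex.exp (logL (K := M) (L := L) (fun _ => 1) (S : Set (HeightOneSpectrum (𝓞 M))) s) *
        (1 - (Ideal.absNorm v.asIdeal : ℂ) ^ (-s)) := by
  obtain ⟨z, -, hz, h⟩ := SLF_thm M L v 1 (RingEquiv.refl ℂ)
  have hz1 : z = 1 := hz.2 (fun w _ m g _ => rfl)
  have h1 := (h S hv s hs).1
  rw [hz1, one_mul] at h1
  exact h1

/-- finitely many primes -/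
theorem prod (S W : Finset (HeightOneSpectrum (𝓞 M))) (s : ℂ) (hs : 1 < s.re) :
    Disjoint W S →
    Complex.exp (logL (K := M) (L := L) (fun _ => 1)
        ((W ∪ S : Finset (HeightOneSpectrum (𝓞 M))) : Set (HeightOneSpectrum (𝓞 M))) s) =
      Complex.exp (logL (K := M) (L := L) (fun _ => 1) (S : Set (HeightOneSpectrum (𝓞 M))) s) *
        ∏ w ∈ W, (1 - (Ideal.absNorm w.asIdeal : ℂ) ^ (-s)) := by
  induction W using Finset.induction_on with
  | empty =>
    intro _
    rw [Finset.empty_union, Finset.prod_empty, mul_one]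
  | insert w W hw ih =>
    intro hd
    rw [Finset.disjoint_insert_left] at hd
    rw [Finset.insert_union, step w (W ∪ S) _ s hs, ih hd.2, Finset.prod_insert hw]
    · ring
    · rw [Finset.mem_union]
      rintro (h | h)
      · exact hw h
      · exact hd.1 h

end

section

variable {K L : Type} [Field K] [NumberField K] [Field L] [NumberField L] [Algebra K L]
  [IsGalois K L]

/-- the trivial character of a subgroup -/
theorem ind_eq (H : Subgroup (L ≃ₐ[K] L)) (T : Set (HeightOneSpectrum (𝓞 K)))
    (T' : Set (HeightOneSpectrum (𝓞 (IntermediateField.fixedField H))))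
    (hT : aboveSet (IntermediateField.fixedField H) L T' = aboveSet K L T)
    (s : ℂ) (hs : 1 < s.re) :
    logL (indFun H (fun _ => 1)) T s =
      logL (K := IntermediateField.fixedField H) (L := L) (fun _ => 1) T' s := by
  have h := ALLT.lind K L H 1 T T' s hT hs
  have e1 : indFun H (extZ (1 : H →* ℂˣ)) = indFun H (fun _ => 1) := by
    apply LFBx.indFun_congr
    intro g hg
    unfold extZ
    rw [dif_pos hg]
    rfl
  have e2 : (fun g : L ≃ₐ[IntermediateField.fixedField H] L =>
      ((liftChar H (1 : H →* ℂˣ) g : ℂˣ) : ℂ)) = fun _ => 1 := by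
    funext g
    rfl
  rw [e1, e2] at h
  exact h

end

end DSLx

open DSLx in
theorem DSL_thm : Stmt_DSL := by
  intro K L _ _ _ _ _ _ S v hv H W hW s hs
  obtain ⟨S', hS'⟩ := IND.exists_S' (IntermediateField.fixedField H)
    (S : Set (HeightOneSpectrum (𝓞 K))) S.finite_toSet
  have hmem : ∀ x : HeightOneSpectrum (𝓞 L),
      x.under (𝓞 (IntermediateField.fixedField H)) ∈ S' ↔ x.under (𝓞 K) ∈ S := by
    intro x
    have h1 : x ∈ aboveSet (IntermediateField.fixedField H) L
        (S' : Set (HeightOneSpectrum (𝓞 (IntermediateField.fixedField H)))) ↔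
        x ∈ aboveSet K L (S : Set (HeightOneSpectrum (𝓞 K))) := by rw [hS']
    exact h1
  have hS2 : aboveSet (IntermediateField.fixedField H) L
      ((W ∪ S' : Finset (HeightOneSpectrum (𝓞 (IntermediateField.fixedField H)))) :
        Set (HeightOneSpectrum (𝓞 (IntermediateField.fixedField H)))) =
      aboveSet K L ((insert v S : Finset (HeightOneSpectrum (𝓞 K))) :
        Set (HeightOneSpectrum (𝓞 K))) := by
    ext x
    show x.under (𝓞 (IntermediateField.fixedField H)) ∈ (W ∪ S' : Finset _) ↔
      x.under (𝓞 K) ∈ (insert v S : Finset _)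
    rw [Finset.mem_union, Finset.mem_insert, hmem, hW,
      IND.under_under (IntermediateField.fixedField H) x]
  have hd : Disjoint W S' := by
    rw [Finset.disjoint_left]
    intro w hw hw'
    obtain ⟨x, hx⟩ := SLF.exists_above (L := L) w
    have hx' : x.under (𝓞 (IntermediateField.fixedField H)) = w := hx
    have h1 : x.under (𝓞 K) ∈ S := (hmem x).1 (by rw [hx']; exact hw')
    rw [← IND.under_under (IntermediateField.fixedField H) x, hx', (hW w).1 hw] at h1
    exact hv h1
  rw [ind_eq H _ _ hS2 s hs, ind_eq H _ _ hS' s hs]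
  exact prod S' W s hs hd

end StarkC.ABS
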