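import Pool.Agent.ABS.StD4
import Pool.Agent.StarkT.SREG

/-!
# ABS_DSP (MP_46b841_nt, part D): regulators of the trivial character, several primes added
-/

set_option autoImplicit false

open NumberField IsDedekindDomain
open scoped TensorProduct Classical

namespace StarkC.ABS

namespace DSPx

variable {M L : Type} [Field M] [NumberField M] [Field L] [NumberField L] [Algebra M L]

theorem placeSet_union (A B : Set (HeightOneSpectrum (𝓞 L))) :
    placeSet L (A ∪ B) = placeSet L A ∪ placeSet L B := by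
  unfold placeSet
  rw [Set.image_union]
  ext a
  constructor
  · rintro (h | h | h)
    · exact Or.inl (Or.inl h)
    · exact Or.inl (Or.inr h)
    · exact Or.inr (Or.inr h)
  · rintro ((h | h) | (h | h))
    · exact Or.inl h
    · exact Or.inr (Or.inl h)
    · exact Or.inl h
    · exact Or.inr (Or.inr h)

theorem stable_union {T : Set (HeightOneSpectrum (𝓞 L))} (hT : StableT M T)
    (S : Set (HeightOneSpectrum (𝓞 M))) : StableT M (T ∪ aboveSet M L S) := by
  intro g a ha
  rw [placeSet_union] at ha ⊢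
  rcases ha with ha | ha
  · exact Or.inl (hT g a ha)
  · exact Or.inr (STB_thm M L S g a ha)

theorem exists_above (v : HeightOneSpectrum (𝓞 M)) :
    ∃ w : HeightOneSpectrum (𝓞 L), w ∈ above M L v := by
  have := v.isMaximal
  obtain ⟨P, hP, hlie⟩ := Ideal.exists_maximal_ideal_liesOver_of_isIntegral (S := 𝓞 L) v.asIdeal
  have hPb : P ≠ ⊥ := by
    rintro rfl
    have h1 := hlie.over
    rw [Ideal.under_bot] at h1
    exact v.ne_bot h1
  refine ⟨⟨P, hP.isPrime, hPb⟩, ?_⟩
  show HeightOneSpectrum.under (𝓞 M) _ = v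
  apply HeightOneSpectrum.ext
  exact hlie.over.symm

theorem aboveSet_insert (w : HeightOneSpectrum (𝓞 M)) (W : Finset (HeightOneSpectrum (𝓞 M))) :
    aboveSet M L ((insert w W : Finset (HeightOneSpectrum (𝓞 M))) :
      Set (HeightOneSpectrum (𝓞 M))) =
      aboveSet M L (W : Set (HeightOneSpectrum (𝓞 M))) ∪ above M L w := by
  ext x
  show x.under (𝓞 M) ∈ ((insert w W : Finset (HeightOneSpectrum (𝓞 M))) : Set _) ↔
    x.under (𝓞 M) ∈ (W : Set (HeightOneSpectrum (𝓞 M))) ∨ x.under (𝓞 M) = w
  rw [Finset.coe_insert, Set.mem_insert_iff, or_comm]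

end DSPx

open DSPx in
theorem DSP_thm : Stmt_DSP := by
  intro M L _ _ _ _ _ _ T T₂ W h hT hT₂ Θ Θ₂ c hΘ hΘ₂ hinc hco
  induction W using Finset.induction_on generalizing T₂ with
  | empty =>
    have hE : T₂ = T := by
      rw [h.union]
      ext x
      constructor
      · rintro (hx | hx)
        · exact hx
        · have hx' : x.under (𝓞 M) ∈
            ((∅ : Finset (HeightOneSpectrum (𝓞 M))) : Set (HeightOneSpectrum (𝓞 M))) := hx
          rw [Finset.coe_empty] at hx'
          exact absurd hx' (Set.notMem_empty _)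
      · exact fun hx => Or.inl hx
    subst hE
    have h1 : Θ₂ = Θ := by
      refine LinearMap.ext fun z => ?_
      exact hinc z
    rw [h1, Finset.card_empty, pow_zero, mul_one]
  | insert w W hw ih =>
    have hs1 : SREG.Split T (T ∪ aboveSet M L (W : Set (HeightOneSpectrum (𝓞 M))))
        (aboveSet M L (W : Set (HeightOneSpectrum (𝓞 M)))) := by
      refine ⟨rfl, ?_, ?_⟩
      · intro x hx
        refine h.disj x ?_
        rw [aboveSet_insert]
        exact Or.inl hx
      · refine h.fin.subset ?_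
        rw [h.union, aboveSet_insert, ← Set.union_assoc]
        exact Set.subset_union_left
    have hs2 : SREG.Split (T ∪ aboveSet M L (W : Set (HeightOneSpectrum (𝓞 M)))) T₂
        (above M L w) := by
      refine ⟨?_, ?_, h.fin⟩
      · rw [h.union, aboveSet_insert, ← Set.union_assoc]
      · rintro x hx (hx2 | hx2)
        · refine h.disj x ?_ hx2
          rw [aboveSet_insert]
          exact Or.inr hx
        · have hx' : x.under (𝓞 M) = w := hx
          have hx2' : x.under (𝓞 M) ∈ (W : Set (HeightOneSpectrum (𝓞 M))) := hx2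
          rw [hx'] at hx2'
          exact hw hx2'
    have hT₁ := stable_union (L := L) hT (W : Set (HeightOneSpectrum (𝓞 M)))
    generalize T ∪ aboveSet M L (W : Set (HeightOneSpectrum (𝓞 M))) = T₁ at hs1 hs2 hT₁
    have hmem : ∀ z : XC L T₁, (Θ₂ (SREG.incC hs2.XC_le z)).val ∈ XCsub L T₁ := by
      intro z
      have hz1 : z.val ∈ XCsub L T₁ := z.2
      have hm : (Θ₂ (SREG.incC hs2.XC_le z)).val ∈ XCsub L T₂ :=
        (Θ₂ (SREG.incC hs2.XC_le z)).2
      rw [hs2.XC_iff hm]
      intro x
      have h3 := (hs2.XC_iff (hs2.XC_le hz1)).1 hz1 x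
      rw [hco x (by rw [aboveSet_insert]; exact Or.inr x.2), SREG.incC_val, h3, mul_zero]
    let Θ₁ : XC L T₁ →ₗ[ℂ] XC L T₁ :=
      { toFun := fun z => (⟨(Θ₂ (SREG.incC hs2.XC_le z)).val, hmem z⟩ : XCsub L T₁)
        map_add' := fun z z' => by
          apply Subtype.ext
          show (Θ₂ (SREG.incC hs2.XC_le (z + z'))).val = _ + _
          rw [map_add, map_add, map_add]
        map_smul' := fun a z => by
          apply Subtype.ext
          show (Θ₂ (SREG.incC hs2.XC_le (a • z))).val = a • _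
          rw [map_smul, map_smul, map_smul] }
    have hv : ∀ z, (Θ₁ z).val = (Θ₂ (SREG.incC hs2.XC_le z)).val := fun z => rfl
    have hΘ₁ : ∀ g : L ≃ₐ[M] L, Θ₁ ∘ₗ repX M T₁ hT₁ g = repX M T₁ hT₁ g ∘ₗ Θ₁ := by
      intro g
      refine LinearMap.ext fun z => ?_
      apply SREG.val_injective
      rw [LinearMap.comp_apply, LinearMap.comp_apply, hv, repX_val, hv]
      have e1 : SREG.incC hs2.XC_le (repX M T₁ hT₁ g z) =
          repX M T₂ hT₂ g (SREG.incC hs2.XC_le z) := SREG.val_injective rfl
      rw [e1]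
      have e2 := LinearMap.congr_fun (hΘ₂ g) (SREG.incC hs2.XC_le z)
      rw [LinearMap.comp_apply, LinearMap.comp_apply] at e2
      rw [e2, repX_val]
    have hinc1 : ∀ z : XC L T, Θ₁ (SREG.incC hs1.XC_le z) = SREG.incC hs1.XC_le (Θ z) := by
      intro z
      apply SREG.val_injective
      have e1 : SREG.incC hs2.XC_le (SREG.incC hs1.XC_le z) = SREG.incC h.XC_le z :=
        SREG.val_injective rfl
      rw [hv, e1, hinc z, SREG.incC_val, SREG.incC_val]
    have hco1 : ∀ x : HeightOneSpectrum (𝓞 L),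
        x ∈ aboveSet M L (W : Set (HeightOneSpectrum (𝓞 M))) → ∀ z : XC L T₁,
        (Θ₁ z).val (finAbs L x) = c * z.val (finAbs L x) := by
      intro x hx z
      rw [hv, hco x (by rw [aboveSet_insert]; exact Or.inl hx), SREG.incC_val]
    have hih := ih T₁ hs1 hT₁ Θ₁ hΘ₁ hinc1 hco1
    obtain ⟨w₀, hw₀⟩ := exists_above (M := M) (L := L) w
    have hreg := SREG.reg_eq hs2 hT₁ hT₂ Θ₁ Θ₂ hΘ₁ hΘ₂ (fun z => SREG.val_injective rfl) hw₀ c
      (hco w₀ (by rw [aboveSet_insert]; exact Or.inr hw₀)) 1
    have htr : TrivD w (1 : (L ≃ₐ[M] L) →* ℂˣ) := fun _ _ _ _ _ => rfl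
    rw [if_pos htr] at hreg
    rw [hreg, hih, Finset.card_insert_of_notMem hw, pow_succ, mul_assoc]

end StarkC.ABS
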