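import Pool.Agent.ABS.StD4

/-!
# ABS, module DSR (helper12): the isomorphism for `S ∪ {v}` and the trivial characters of all subgroups
-/

set_option autoImplicit false

open NumberField IsDedekindDomain Module
open scoped TensorProduct Classical

namespace StarkC.ABS

namespace DSRx

section

variable {K L : Type} [Field K] [NumberField K] [Field L] [NumberField L] [Algebra K L]

omit [NumberField L] in
theorem exists_above (v : HeightOneSpectrum (𝓞 K)) : ∃ w : HeightOneSpectrum (𝓞 L),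
    w.under (𝓞 K) = v := by
  have := v.isMaximal
  obtain ⟨P, hP, hlie⟩ := Ideal.exists_maximal_ideal_liesOver_of_isIntegral (S := 𝓞 L) v.asIdeal
  have hPb : P ≠ ⊥ := by
    rintro rfl
    have h1 := hlie.over
    rw [Ideal.under_bot] at h1
    exact v.ne_bot h1
  refine ⟨⟨P, hP.isPrime, hPb⟩, ?_⟩
  apply HeightOneSpectrum.ext
  exact hlie.over.symm

/-- All primes of `L` above `v` have the same norm. -/
theorem norm_eq [IsGalois K L] {w w' : HeightOneSpectrum (𝓞 L)}
    (h : w.under (𝓞 K) = w'.under (𝓞 K)) :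
    Ideal.absNorm w.asIdeal = Ideal.absNorm w'.asIdeal := by
  obtain ⟨g, hg⟩ := SREG.exists_mv h
  rw [← hg, STB.absNorm_mv]

/-- The residue degree divides the degree of a Galois extension. -/
theorem deg_dvd [IsGalois K L] (w : HeightOneSpectrum (𝓞 L)) :
    w.asIdeal.inertiaDeg (𝓞 K) ∣ Module.finrank K L := by
  have hp := w.isPrime
  have hv := (w.under (𝓞 K)).isPrime
  have hlie : w.asIdeal.LiesOver (w.under (𝓞 K)).asIdeal := ⟨rfl⟩
  have h1 := Ideal.ncard_primesOver_mul_ramificationIdxIn_mul_inertiaDegIn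
    (w.under (𝓞 K)).asIdeal (𝓞 L) (L ≃ₐ[K] L)
  have h2 := Ideal.inertiaDegIn_eq_inertiaDeg (w.under (𝓞 K)).asIdeal w.asIdeal (L ≃ₐ[K] L)
  rw [h2, IsGalois.card_aut_eq_finrank, ← mul_assoc] at h1
  exact Dvd.intro_left _ h1

end

end DSRx

theorem DSR_thm : Stmt_DSR := by
  intro hDSP K L _ _ _ _ _ _ S v hv φ Θ hφΘ
  have h : SREG.Split (aboveSet K L S)
      (aboveSet K L (insert v S : Finset (HeightOneSpectrum (𝓞 K)))) (above K L v) :=
    SREG.split_insert S v hv
  obtain ⟨φ₂, h1, h2, h3⟩ := SREG.exists_phi S _ v h φ hφΘ.1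
  obtain ⟨Θ₂, hΘ₂⟩ := THE_thm XRAT_thm UNIT_thm K L _ φ₂ h.fin h1
  obtain ⟨w₀, hw₀⟩ := DSRx.exists_above (L := L) v
  have hT := STB_thm K L (S : Set (HeightOneSpectrum (𝓞 K)))
  have hT₂ := STB_thm K L ((insert v S : Finset (HeightOneSpectrum (𝓞 K))) : Set _)
  have hc := THC_thm XRAT_thm K L _ hT φ Θ h.finT hφΘ
  have hc₂ := THC_thm XRAT_thm K L _ hT₂ φ₂ Θ₂ h.fin hΘ₂
  have hN : (1 : ℝ) < (Ideal.absNorm w₀.asIdeal : ℝ) := by
    exact_mod_cast HeightOneSpectrum.one_lt_absNorm w₀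
  refine ⟨φ₂, Θ₂, Real.log (Ideal.absNorm w₀.asIdeal), Real.log_pos hN, hΘ₂, fun H W hW => ?_⟩
  have hiff : ∀ w : HeightOneSpectrum (𝓞 L),
      w.under (𝓞 (IntermediateField.fixedField H)) ∈ W ↔ w.under (𝓞 K) = v := by
    intro w
    rw [hW, IND.under_under]
  refine ⟨fun w hw => ?_, ?_⟩
  · obtain ⟨w', hw'⟩ := DSRx.exists_above (L := L) w
    have h4 : w₀.under (𝓞 K) = w'.under (𝓞 K) := by
      rw [hw₀, (hiff w').1 (by rw [hw']; exact hw)]
    have h5 := DSRx.norm_eq h4
    have h6 := LB.absNorm_under (K := IntermediateField.fixedField H) w'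
    rw [hw'] at h6
    refine ⟨w'.asIdeal.inertiaDeg (𝓞 (IntermediateField.fixedField H)), ?_, ?_⟩
    · have h7 := DSRx.deg_dvd (K := IntermediateField.fixedField H) w'
      rwa [IntermediateField.finrank_fixedField_eq_card] at h7
    · rw [h5, ← h6, Nat.cast_pow, Real.log_pow]
  · have hset : aboveSet (IntermediateField.fixedField H) L
        (W : Set (HeightOneSpectrum (𝓞 (IntermediateField.fixedField H)))) = above K L v := by
      ext w
      exact hiff w
    have hsp : SREG.Split (aboveSet K L S)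
        (aboveSet K L (insert v S : Finset (HeightOneSpectrum (𝓞 K))))
        (aboveSet (IntermediateField.fixedField H) L
          (W : Set (HeightOneSpectrum (𝓞 (IntermediateField.fixedField H))))) := by
      rw [hset]
      exact h
    have e1 : liftChar H 1 = 1 := by
      ext g
      rfl
    rw [e1]
    refine hDSP (IntermediateField.fixedField H) L _ _ W hsp (IND.stable_sub _ hT)
      (IND.stable_sub _ hT₂) Θ Θ₂ _ ?_ ?_ ?_ ?_
    · intro g
      rw [IND.repX_sub]
      exact hc _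
    · intro g
      rw [IND.repX_sub]
      exact hc₂ _
    · intro z
      exact SREG.theta_inc h φ Θ φ₂ Θ₂ hφΘ.2 hΘ₂.2 h2 z
    · intro w hw z
      have hw' : w.under (𝓞 K) = v := (hiff w).1 hw
      have h4 := SREG.theta_coord h φ₂ Θ₂ hΘ₂.2 h3 ⟨w, hw'⟩ z
      rw [h4, DSRx.norm_eq (w := w₀) (w' := w) (by rw [hw₀, hw'])]

end StarkC.ABS
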