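import Pool.Agent.StarkAlg.GCore
import Pool.Agent.Stark.PBridgeReg
import Pool.Agent.ABS.CoreP

/-!
# Project ABS (MP_46b841_nt): Stark's conjecture in norm for characters of prime power order

`K` a number field, `ψ` a linear character of `Gal(L/K)` of order `n = ℓ^k` (`ℓ` odd), `4`, or
`2 ℓ^k`.  Then `∏_t A(ψ^t) = N(α)` with `α ∈ ℚ(ζ_n)^*`, `t ∈ (ℤ/n)^*`.
Part B: from the core formula (`Stmt_CORE`, part A) and the zeta functions (`Stmt_ZETA`) to the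
theorem.  One module for each `Stmt_...`; hypotheses `Stmt_A → ...` are inputs.  The library is
`Pool/Agent/Stark*`; the closest models are `StarkAlg/GCore.lean` (independence of `S`, `φ`),
`StarkT/INDP.lean`, `StarkT/DOWNL.lean`, `StarkU/CNMAIN.lean`.
-/

open NumberField IsDedekindDomain
open scoped TensorProduct Classical

namespace StarkC.ABS

/-- The exponents of the conjugates of a root of unity of order `n`. -/
def Ex (n : ℕ) : Finset ℕ := (Finset.range n).filter fun t => n.Coprime t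

/-- The sum of the conjugates of a linear character of order `n`. -/
noncomputable def cSum {G : Type} [Group G] (n : ℕ) (ψ : G →* ℂˣ) : G → ℂ :=
  fun g => ∑ t ∈ Ex n, ((ψ g : ℂˣ) : ℂ) ^ t

/-- The product of the regulators of the conjugates. -/
noncomputable def cReg (n : ℕ) {K L : Type} [Field K] [Field L] [NumberField L] [Algebra K L]
    (T : Set (HeightOneSpectrum (𝓞 L))) (ψ : (L ≃ₐ[K] L) →* ℂˣ)
    (Θ : XC L T →ₗ[ℂ] XC L T) : ℂ :=
  ∏ t ∈ Ex n, Reg T (linRep (ψ ^ t)) Θ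

/-- The norm of an element of `ℚ(ζ_n)`, as a complex number. -/
noncomputable def nm (n : ℕ) (α : Cyc n) : ℂ := ((Algebra.norm ℚ α : ℚ) : ℂ)

/-- `A_S(∑_t ψ^t, φ) = N(α)` with `α ∈ ℚ(ζ_n)^*`. -/
def PP (n : ℕ) {K L : Type} [Field K] [NumberField K] [Field L] [NumberField L] [Algebra K L]
    (ψ : (L ≃ₐ[K] L) →* ℂˣ) (S : Finset (HeightOneSpectrum (𝓞 K)))
    (Θ : XC L (aboveSet K L S) →ₗ[ℂ] XC L (aboveSet K L S)) : Prop :=
  ∃ (F : ℂ → ℂ) (α : Cyc n), IsArtinL (cSum n ψ) (S : Set (HeightOneSpectrum (𝓞 K))) F ∧ α ≠ 0 ∧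
    cReg n (aboveSet K L S) ψ Θ = nm n α * meromorphicTrailingCoeffAt F 0

/-- The same for all `φ`. -/
def PPall (n : ℕ) {K L : Type} [Field K] [NumberField K] [Field L] [NumberField L] [Algebra K L]
    (ψ : (L ≃ₐ[K] L) →* ℂˣ) (S : Finset (HeightOneSpectrum (𝓞 K))) : Prop :=
  ∀ (φ : XQ L (aboveSet K L S) ≃ₗ[ℚ] QU L (aboveSet K L S))
    (Θ : XC L (aboveSet K L S) →ₗ[ℂ] XC L (aboveSet K L S)),
    IsPhiTheta K (aboveSet K L S) φ Θ → PP n ψ S Θ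

/-! ### The cyclotomic field -/

/-- FIXC.  A number fixed by all automorphisms of `ℂ` over `ℚ(ζ_n)` is in `ℚ(ζ_n)`:
`StarkAlg.AutF.exists_transcendental` (`x ↦ x + 1`) if `x` is transcendental, and
`StarkAlg.AutF.exists_extend` with a conjugate `≠ x` if it is algebraic (see `AutF.power_mem`). -/
def Stmt_FIXC : Prop :=
  ∀ (n : ℕ) (x : ℂ), (∀ σ : ℂ ≃+* ℂ, (∀ y ∈ Cyc n, σ y = y) → σ x = x) → x ∈ Cyc n

/-- SIGT.  `UVAL.exists_hom` gives `τ : K →+* ℂ` with `τ z = z^t`; extend it to `ℂ` (for `τ` as an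
automorphism of the normal field `Cyc n`, `AutF.exists_extend` with `F = ⊥` after
`IsAlgClosed.lift`/`AlgHom.liftNormal` to `algebraicClosure ℚ ℂ`). -/
def Stmt_SIGT : Prop :=
  ∀ (n t : ℕ), 0 < n → n.Coprime t → ∃ σ : ℂ ≃+* ℂ, ∀ z : ℂ, z ^ n = 1 → σ z = z ^ t

/-- NORMT.  `Algebra.norm_eq_prod_embeddings` (or `Algebra.norm_eq_prod_automorphisms`): the
restrictions of the `σ t` to `Cyc n` are all embeddings `Cyc n → ℂ`
(`[Cyc n : ℚ] = φ(n) = #Ex n`, `IsCyclotomicExtension`). -/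
def Stmt_NORMT : Prop :=
  ∀ (n : ℕ) (σ : ℕ → (ℂ ≃+* ℂ)), 0 < n → (∀ t ∈ Ex n, ∀ z : ℂ, z ^ n = 1 → σ t z = z ^ t) →
    ∀ x : Cyc n, nm n x = ∏ t ∈ Ex n, σ t x

/-- NPOS.  `N(α) > 0` for `α ≠ 0`, `n ≥ 3`: `Q(ζ_n)` is totally complex (pair `t` and `n - t` in
NORMT; take `σ (n - t) = conj ∘ σ t`). -/
def Stmt_NPOS : Prop :=
  Stmt_SIGT → Stmt_NORMT → ∀ (n : ℕ), 3 ≤ n → ∀ α : Cyc n, α ≠ 0 →
    ∃ r : ℝ, 0 < r ∧ nm n α = (r : ℂ)

/-! ### Independence of `S` and `φ`, inflation -/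

/-- PRAT.  `PHIR_thm` with `σ = σ_t` (`ρ = linRep ψ`, `ρ' = linRep (ψ^t)`) for every `t ∈ Ex n`
(the number `x` is the same for all `t`, as `Reg ≠ 0`: `StarkG.reg_ne_zero`), and with `σ` over
`Cyc n` and `ρ' = ρ` (see `StarkG.ratio`): `x ∈ Cyc n` by FIXC, so `cReg` changes by `N(x)`. -/
def Stmt_PRAT : Prop :=
  Stmt_FIXC → Stmt_SIGT → Stmt_NORMT →
  ∀ (n : ℕ) (K L : Type) [Field K] [NumberField K] [Field L] [NumberField L] [Algebra K L]
    [IsGalois K L] (ψ : (L ≃ₐ[K] L) →* ℂˣ) (S : Finset (HeightOneSpectrum (𝓞 K)))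
    (φ φ₂ : XQ L (aboveSet K L S) ≃ₗ[ℚ] QU L (aboveSet K L S))
    (Θ Θ₂ : XC L (aboveSet K L S) →ₗ[ℂ] XC L (aboveSet K L S)),
    0 < n → ψ ^ n = 1 → IsPhiTheta K (aboveSet K L S) φ Θ → IsPhiTheta K (aboveSet K L S) φ₂ Θ₂ →
    PP n ψ S Θ → PP n ψ S Θ₂

/-- PSTEP (model: `StarkG.step`).  `SLF_thm K L v ψ (σ_t)`: the Euler factor of `ψ^t` is
`1 - σ_t(z) N^(-s)` (the `z` of different `t` agree, see `StarkG.slf`), `z ∈ Cyc n` by FIXC;
`F` changes by the product of the Euler factors (`SIND.mulL`, `SIND.divL`, `LEULZ_thm`), `cReg` by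
`SREG_thm`; `TrivD v (ψ^t) ↔ z = 1`.  The quotient changes by `N(q)` or `N(1 - z)`. -/
def Stmt_PSTEP : Prop :=
  Stmt_FIXC → Stmt_SIGT → Stmt_NORMT → Stmt_PRAT →
  ∀ (n : ℕ) (K L : Type) [Field K] [NumberField K] [Field L] [NumberField L] [Algebra K L]
    [IsGalois K L] (ψ : (L ≃ₐ[K] L) →* ℂˣ) (S : Finset (HeightOneSpectrum (𝓞 K)))
    (v : HeightOneSpectrum (𝓞 K)), 0 < n → ψ ^ n = 1 → v ∉ S →
    PPall n ψ S → PPall n ψ (insert v S)

/-- PINF.  Inflation: `ALLT.infl` gives one `Θ'` with equal regulators (for `linRep (ψ^t)`;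
`linRep (ψ'^t) = (linRep (ψ^t)).comp res`), `MAIN.logL_infl LINF_thm` the same series; then PRAT. -/
def Stmt_PINF : Prop :=
  Stmt_FIXC → Stmt_SIGT → Stmt_NORMT → Stmt_PRAT →
  ∀ (n : ℕ) (K L N : Type) [Field K] [NumberField K] [Field L] [NumberField L] [Field N]
    [NumberField N] [Algebra K L] [Algebra K N] [Algebra L N] [IsScalarTower K L N]
    [IsGalois K L] [IsGalois K N] (ψ : (L ≃ₐ[K] L) →* ℂˣ) (ψ' : (N ≃ₐ[K] N) →* ℂˣ)
    (S : Finset (HeightOneSpectrum (𝓞 K))), 0 < n → ψ ^ n = 1 →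
    (∀ g : N ≃ₐ[K] N, ψ (AlgEquiv.restrictNormalHom L g : L ≃ₐ[K] L) = ψ' g) →
    PPall n ψ S → PPall n ψ' S

/-! ### The faithful case -/

/-- CHI.  Ramanujan sums of prime power order: for `g` of order `d` the sum of the conjugates is
`φ(n)` if `d = 1`, `-ℓ^(k-1)` if `d = ℓ` and `0` otherwise (`ψ` injective, `G` cyclic). -/
def Stmt_CHI : Prop :=
  ∀ (G : Type) [Group G] [Fintype G] (ℓ k : ℕ) (ψ : G →* ℂˣ) (B : Subgroup G),
    ℓ.Prime → 0 < k → Nat.card G = ℓ ^ k → Function.Injective ψ → Nat.card B = ℓ →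
    ∀ g, cSum (ℓ ^ k) ψ g = indFun (⊥ : Subgroup G) (fun _ => 1) g - indFun B (fun _ => 1) g

/-- REGI.  The regulator of the trivial character of `Gal(L/F)` is the determinant of `Θ` on the
invariants (`homG T (linRep 1)` is isomorphic to the invariants by `f ↦ f (LinearMap.id)`). -/
def Stmt_REGI : Prop :=
  ∀ (F L : Type) [Field F] [NumberField F] [Field L] [NumberField L] [Algebra F L] [IsGalois F L]
    (T : Set (HeightOneSpectrum (𝓞 L))) (hT : StableT F T) (Θ : XC L T →ₗ[ℂ] XC L T),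
    T.Finite → (∀ g : L ≃ₐ[F] L, Θ ∘ₗ repX F T hT g = repX F T hT g ∘ₗ Θ) →
    ∀ h : ∀ x ∈ (repX F T hT).invariants, Θ x ∈ (repX F T hT).invariants,
      Reg T (linRep (1 : (L ≃ₐ[F] L) →* ℂˣ)) Θ = LinearMap.det (Θ.restrict h)

/-- REGB.  `INDP.reg_comb` for `ρ = linRep ψ`, `M = 1` and
`ψ = Ind_⊥ 1 - Ind_B 1 - ∑_{t ≠ 1} Ind_⊤ ψ^t` (CHI), `Ind_⊤ ψ^t` being `ψ^t` itself (again
`reg_comb`); for `⊥` use REGI over `fixedField ⊥` (all of `XC` is invariant). -/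
def Stmt_REGB : Prop :=
  Stmt_CHI → Stmt_REGI →
  ∀ (K L : Type) [Field K] [NumberField K] [Field L] [NumberField L] [Algebra K L] [IsGalois K L]
    (ℓ k : ℕ) (ψ : (L ≃ₐ[K] L) →* ℂˣ) (B : Subgroup (L ≃ₐ[K] L))
    (S : Finset (HeightOneSpectrum (𝓞 K)))
    (φ : XQ L (aboveSet K L S) ≃ₗ[ℚ] QU L (aboveSet K L S))
    (Θ : XC L (aboveSet K L S) →ₗ[ℂ] XC L (aboveSet K L S)),
    ℓ.Prime → 0 < k → Nat.card (L ≃ₐ[K] L) = ℓ ^ k → Function.Injective ψ → Nat.card B = ℓ →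
    IsPhiTheta K (aboveSet K L S) φ Θ →
    cReg (ℓ ^ k) (aboveSet K L S) ψ Θ *
        Reg (aboveSet K L S) (linRep (1 : (L ≃ₐ[IntermediateField.fixedField B] L) →* ℂˣ)) Θ =
      LinearMap.det Θ

/-- LFB.  `CHI`, `IND.logL_sum` and `DOWNL.logL_eq` (for `K ⊆ L ⊆ L` and
`K ⊆ fixedField B ⊆ L`, `fixK K F L = B`), then `LINF_thm` for `F ⊆ F ⊆ L`. -/
def Stmt_LFB : Prop :=
  Stmt_CHI →
  ∀ (K L : Type) [Field K] [NumberField K] [Field L] [NumberField L] [Algebra K L] [IsGalois K L]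
    (ℓ k : ℕ) (ψ : (L ≃ₐ[K] L) →* ℂˣ) (B : Subgroup (L ≃ₐ[K] L)) (s : ℂ),
    ℓ.Prime → 0 < k → Nat.card (L ≃ₐ[K] L) = ℓ ^ k → Function.Injective ψ → Nat.card B = ℓ →
    1 < s.re →
    logL (cSum (ℓ ^ k) ψ) (∅ : Set (HeightOneSpectrum (𝓞 K))) s =
      logL (K := L) (L := L) (fun _ => 1) ∅ s -
        logL (K := IntermediateField.fixedField B) (L := IntermediateField.fixedField B)
          (fun _ => 1) ∅ s

/-- REGC.  The regulator of the inverse character is the complex conjugate: `Θ` and the Galois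
group commute with the conjugation of coordinates on `XC` (`Stmt_XRAT`: a basis of rational
vectors; `Θ` maps them to real vectors), which exchanges the eigenspaces of `ψ` and `ψ⁻¹`. -/
def Stmt_REGC : Prop :=
  ∀ (K L : Type) [Field K] [NumberField K] [Field L] [NumberField L] [Algebra K L] [IsGalois K L]
    (ψ : (L ≃ₐ[K] L) →* ℂˣ) (S : Finset (HeightOneSpectrum (𝓞 K)))
    (φ : XQ L (aboveSet K L S) ≃ₗ[ℚ] QU L (aboveSet K L S))
    (Θ : XC L (aboveSet K L S) →ₗ[ℂ] XC L (aboveSet K L S)),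
    IsPhiTheta K (aboveSet K L S) φ Θ →
    Reg (aboveSet K L S) (linRep ψ⁻¹) Θ = starRingEnd ℂ (Reg (aboveSet K L S) (linRep ψ) Θ)

/-- The zeta function of `F` and its leading term at `0` (from `HEZ.zeta0`). -/
def Stmt_ZETA : Prop :=
  ∀ (F : Type) [Field F] [NumberField F], ∃ Z : ℂ → ℂ,
    IsArtinL (K := F) (L := F) (fun _ => 1) ∅ Z ∧
    meromorphicTrailingCoeffAt Z 0 =
      -((classNumber F : ℂ) * ((Units.regulator F : ℝ) : ℂ) / (Units.torsionOrder F : ℂ))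

export StarkP.ABS (OkOrd)

/-- CORE: the class number formulas for `L` and `F = L^B`, up to the norm of an element of
`ℚ(ζ_n)` (from part A, see COREB). -/
def Stmt_CORE : Prop :=
  ∀ (K L : Type) [Field K] [NumberField K] [Field L] [NumberField L] [Algebra K L] [IsGalois K L]
    (ℓ k : ℕ) (B : Subgroup (L ≃ₐ[K] L))
    (φ : XQ L (aboveSet K L (∅ : Finset (HeightOneSpectrum (𝓞 K)))) ≃ₗ[ℚ]
      QU L (aboveSet K L (∅ : Finset (HeightOneSpectrum (𝓞 K)))))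
    (Θ : XC L (aboveSet K L (∅ : Finset (HeightOneSpectrum (𝓞 K)))) →ₗ[ℂ]
      XC L (aboveSet K L (∅ : Finset (HeightOneSpectrum (𝓞 K))))),
    OkOrd ℓ k → IsCyclic (L ≃ₐ[K] L) → Nat.card (L ≃ₐ[K] L) = ℓ ^ k → Nat.card B = ℓ →
    IsPhiTheta K (aboveSet K L (∅ : Finset (HeightOneSpectrum (𝓞 K)))) φ Θ →
    ∃ α : Cyc (ℓ ^ k), α ≠ 0 ∧
      ‖LinearMap.det Θ‖ * ((classNumber (IntermediateField.fixedField B) : ℝ) *
          Units.regulator (IntermediateField.fixedField B) * (Units.torsionOrder L : ℝ)) =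
        ‖nm (ℓ ^ k) α‖ *
          ‖Reg (aboveSet K L (∅ : Finset (HeightOneSpectrum (𝓞 K))))
            (linRep (1 : (L ≃ₐ[IntermediateField.fixedField B] L) →* ℂˣ)) Θ‖ *
          ((classNumber L : ℝ) * Units.regulator L *
            (Units.torsionOrder (IntermediateField.fixedField B) : ℝ))

/-- COREB.  From the printed form of the core formula: `StarkB.isTheta_of` (extend `Θ` to the
ambient space, `LinearMap.exists_extend`), `StarkB.detOn_eq`/`StarkB.Reg_eq` (`Stark/PReg.lean`),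
REGI over `fixedField B` (the invariants of `Gal(L / L^B)` in `XC` are `XC ⊓ fixP B`), and the norm
of `CyclotomicField (ℓ^k) ℚ ≃ₐ[ℚ] Cyc (ℓ^k)`. -/
def Stmt_COREB : Prop := StarkP.ABS.Stmt_COREP → Stmt_REGI → Stmt_CORE

/-- BASE.  `F = Z_L / Z_F` (LFB, ZETA), trailing coefficient
`(h_L R_L w_F) / (w_L h_F R_F) > 0`; REGB and CORE give the absolute value of `cReg`; both sides are
positive (REGC: `cReg` is a product of `|Reg(ψ^t)|^2` over pairs `{t, n - t}`, NPOS). -/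
def Stmt_BASE : Prop :=
  Stmt_SIGT → Stmt_NORMT → Stmt_NPOS → Stmt_CHI → Stmt_REGI → Stmt_REGB → Stmt_LFB → Stmt_REGC →
  Stmt_ZETA → Stmt_CORE →
  ∀ (K L : Type) [Field K] [NumberField K] [Field L] [NumberField L] [Algebra K L] [IsGalois K L]
    (ℓ k : ℕ) (ψ : (L ≃ₐ[K] L) →* ℂˣ),
    OkOrd ℓ k → Nat.card (L ≃ₐ[K] L) = ℓ ^ k → Function.Injective ψ →
    PPall (ℓ ^ k) ψ (∅ : Finset (HeightOneSpectrum (𝓞 K)))

/-! ### Orders `2 ℓ^k` -/

/-- CYC2.  `ℚ(ζ_2n) = ℚ(ζ_n)` for odd `n`. -/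
def Stmt_CYC2 : Prop := ∀ n : ℕ, Odd n → Cyc (2 * n) = Cyc n

/-- ORD2.  `H` = the subgroup of index `2`, `ψ' = ψ|H` of order `n`, `χ = ψ^(n+1)` of order `n`:
`∑_{t ∈ Ex(2n)} ψ^t = Ind_H (∑_{t ∈ Ex n} ψ'^t) - ∑_{t ∈ Ex n} χ^t`, hence
`cReg(ψ) cReg(χ) = cReg(ψ')` (`reg_comb`) and `F = F' / F_χ` (`logL_sum`, `LIND`).  `PP` for
`ψ'` over `fixedField H` with the same `Θ`. -/
def Stmt_ORD2 : Prop :=
  Stmt_CYC2 →
  ∀ (n : ℕ) (K L : Type) [Field K] [NumberField K] [Field L] [NumberField L] [Algebra K L]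
    [IsGalois K L] (ψ : (L ≃ₐ[K] L) →* ℂˣ), Odd n → 1 < n → Nat.card (L ≃ₐ[K] L) = 2 * n →
    Function.Injective ψ →
    (∀ H : Subgroup (L ≃ₐ[K] L), Nat.card H = n →
      PPall n (liftChar H (ψ.comp H.subtype))
        (∅ : Finset (HeightOneSpectrum (𝓞 (IntermediateField.fixedField H))))) →
    PPall n (ψ ^ (n + 1)) (∅ : Finset (HeightOneSpectrum (𝓞 K))) →
    PPall (2 * n) ψ (∅ : Finset (HeightOneSpectrum (𝓞 K)))

/-! ### The end -/

/-- FINA.  All `L/K`, `ψ`, `S`.  `FAITH.exists_field` (the field cut out by `ψ`), BASE, PINF, PSTEP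
(induction on `S`), ORD2 for `n = 2 ℓ^k` (the hypotheses of ORD2 are BASE over `fixedField H` and
PINF + BASE for `ψ^(n+1)`). -/
def Stmt_FINA : Prop :=
  Stmt_FIXC → Stmt_SIGT → Stmt_NORMT → Stmt_PRAT → Stmt_PSTEP → Stmt_PINF → Stmt_CYC2 →
  Stmt_ORD2 →
  (∀ (K L : Type) [Field K] [NumberField K] [Field L] [NumberField L] [Algebra K L] [IsGalois K L]
    (ℓ k : ℕ) (ψ : (L ≃ₐ[K] L) →* ℂˣ),
    OkOrd ℓ k → Nat.card (L ≃ₐ[K] L) = ℓ ^ k → Function.Injective ψ →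
    PPall (ℓ ^ k) ψ (∅ : Finset (HeightOneSpectrum (𝓞 K)))) →
  ∀ (K L : Type) [Field K] [NumberField K] [Field L] [NumberField L] [Algebra K L] [IsGalois K L]
    (ℓ k : ℕ) (ψ : (L ≃ₐ[K] L) →* ℂˣ) (S : Finset (HeightOneSpectrum (𝓞 K))), OkOrd ℓ k →
    (orderOf ψ = ℓ ^ k → PPall (ℓ ^ k) ψ S) ∧
      (ℓ ≠ 2 → orderOf ψ = 2 * ℓ ^ k → PPall (2 * ℓ ^ k) ψ S)

end StarkC.ABS
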