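import Pool.Agent.ABS.StD4
import Pool.Agent.ABS.StB

/-!
# Project ABS, part D, module DST: change of `S` for dihedral and semidihedral groups
-/

set_option autoImplicit false

open NumberField IsDedekindDomain
open scoped TensorProduct Classical

namespace StarkC.ABS

namespace DSTx

/-! ### Euler factors -/

theorem mulW {ι : Type} (E : Finset ι) (N : ι → ℕ) (hN : ∀ i ∈ E, 1 < N i) :
    (∀ a, MeromorphicAt (fun s : ℂ => ∏ i ∈ E, (1 - (N i : ℂ) ^ (-s))) a) ∧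
      meromorphicTrailingCoeffAt (fun s : ℂ => ∏ i ∈ E, (1 - (N i : ℂ) ^ (-s))) 0 =
        ((∏ i ∈ E, Real.log (N i) : ℝ) : ℂ) := by
  induction E using Finset.induction_on with
  | empty =>
    simp only [Finset.prod_empty, Complex.ofReal_one]
    exact ⟨fun a => MeromorphicAt.const 1 a, meromorphicTrailingCoeffAt_const⟩
  | insert w E hw ih =>
    obtain ⟨m, e⟩ := ih fun i hi => hN i (Finset.mem_insert_of_mem hi)
    obtain ⟨m1, e1⟩ := LEULZ_thm (N w) (hN w (Finset.mem_insert_self w E)) 1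
    simp only [one_mul, if_true] at m1 e1
    have hfun : (fun s : ℂ => ∏ i ∈ insert w E, (1 - (N i : ℂ) ^ (-s))) =
        fun s : ℂ => (1 - (N w : ℂ) ^ (-s)) * ∏ i ∈ E, (1 - (N i : ℂ) ^ (-s)) := by
      funext s
      rw [Finset.prod_insert hw]
    rw [hfun]
    refine ⟨fun a => (m1 a).mul (m a), ?_⟩
    rw [MeromorphicAt.meromorphicTrailingCoeffAt_fun_mul (m1 0) (m 0), e, e1,
      Finset.prod_insert hw]
    push_cast
    rfl

/-! ### The group -/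

section Grp

variable {G : Type} [Group G] {k t : ℕ} {σ γ : G}

theorem semi (h : DLeaf k t σ γ) (i : ℤ) : γ * σ ^ i = (σ ^ i) ^ t * γ := by
  have h1 : SemiconjBy γ σ (σ ^ t) := h.conj
  have h2 := (h1.zpow_right i).eq
  rw [h2, ← zpow_natCast (σ ^ i) t, ← zpow_natCast σ t, ← zpow_mul, ← zpow_mul, mul_comm i]

theorem inv_eq (h : DLeaf k t σ γ) : γ⁻¹ = γ := by
  rw [inv_eq_iff_mul_eq_one]
  exact h.inv

theorem conj' (h : DLeaf k t σ γ) (a : G) (ha : a ∈ Subgroup.zpowers σ) :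
    γ⁻¹ * a * γ = a ^ t := by
  obtain ⟨i, rfl⟩ := Subgroup.mem_zpowers_iff.1 ha
  rw [inv_eq h, semi h, mul_assoc, h.inv, mul_one]

theorem pGroup (h : DLeaf k t σ γ) : IsPGroup 2 G := by
  intro g
  obtain ⟨i, hi⟩ := h.all g
  rcases hi with rfl | rfl
  · refine ⟨k, ?_⟩
    rw [← pow_mul, mul_comm, pow_mul, ← h.ord, pow_orderOf_eq_one, one_pow]
  · refine ⟨k + 1, ?_⟩
    have h1 : σ ^ i * γ * (σ ^ i * γ) = σ ^ (i + i * t) := by
      have h2 := semi h (i : ℤ)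
      rw [zpow_natCast] at h2
      calc σ ^ i * γ * (σ ^ i * γ) = σ ^ i * (γ * σ ^ i) * γ := by simp only [mul_assoc]
        _ = σ ^ i * ((σ ^ i) ^ t * γ) * γ := by rw [h2]
        _ = σ ^ i * (σ ^ i) ^ t * (γ * γ) := by simp only [mul_assoc]
        _ = _ := by rw [h.inv, mul_one, ← pow_mul, ← pow_add]
    rw [pow_succ', pow_mul, pow_two, h1, ← pow_mul, mul_comm, pow_mul, ← h.ord,
      pow_orderOf_eq_one, one_pow]

theorem dvd_two_pow [Finite G] (h : DLeaf k t σ γ) (H : Subgroup G) (f : ℕ)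
    (hf : f ∣ Nat.card H) : ∃ b : ℕ, f = 2 ^ b := by
  have : Fact (Nat.Prime 2) := ⟨Nat.prime_two⟩
  obtain ⟨a, ha⟩ := IsPGroup.iff_card.1 ((pGroup h).to_subgroup H)
  rw [ha] at hf
  obtain ⟨b, -, hb⟩ := (Nat.dvd_prime_pow Nat.prime_two).1 hf
  exact ⟨b, hb⟩

theorem leaf (h : DLeaf k t σ γ) (ψ : Subgroup.zpowers σ →* ℂˣ) (hψ : Function.Injective ψ) :
    Leaf (Subgroup.zpowers σ) ψ γ k 1 t where
  tt := h.tt
  odd := odd_one
  one := by rw [Nat.mod_one, Nat.mod_one]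
  ord := by
    rw [mul_one]
    refine Nat.dvd_antisymm ?_ ?_
    · refine orderOf_dvd_of_pow_eq_one ?_
      ext a
      rw [MonoidHom.pow_apply, ← map_pow, ← h.ord, ← Nat.card_zpowers, pow_card_eq_one', map_one,
        MonoidHom.one_apply]
    · rw [← h.ord]
      refine orderOf_dvd_of_pow_eq_one ?_
      have h1 : ψ (⟨σ, Subgroup.mem_zpowers σ⟩ ^ orderOf ψ) = 1 := by
        rw [map_pow, ← MonoidHom.pow_apply, pow_orderOf_eq_one, MonoidHom.one_apply]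
      have h2 := hψ (h1.trans (map_one ψ).symm)
      exact congrArg Subtype.val h2
  norm a ha := by
    rw [conj' h a ha]
    exact Subgroup.pow_mem _ ha t
  conj a b hb := by
    rw [conj' h a a.2] at hb
    have : b = a ^ t := Subtype.ext hb
    rw [this, map_pow]
  mem := by
    rw [h.inv]
    exact one_mem _
  sq a ha := by
    rw [h.inv] at ha
    have : a = 1 := Subtype.ext ha
    rw [this, map_one]

end Grp

theorem ind_one {G : Type} [Group G] [Fintype G] (H : Subgroup G) :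
    indFun H (extZ (1 : H →* ℂˣ)) = indFun H (fun _ => 1) := by
  apply CMB.indFun_congr
  intro g hg
  unfold extZ
  rw [dif_pos hg, MonoidHom.one_apply, Units.val_one]

section Fld

variable {K L : Type} [Field K] [NumberField K] [Field L] [NumberField L] [Algebra K L]
  [IsGalois K L]

/-! ### Relations -/

theorem drc (hD : Stmt_DRC) (S : Finset (HeightOneSpectrum (𝓞 K)))
    (φ : XQ L (aboveSet K L S) ≃ₗ[ℚ] QU L (aboveSet K L S))
    (Θ : XC L (aboveSet K L S) →ₗ[ℂ] XC L (aboveSet K L S))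
    (hφ : IsPhiTheta K (aboveSet K L S) φ Θ) (ι : Type) [Fintype ι]
    (H : ι → Subgroup (L ≃ₐ[K] L)) (ψ : ∀ i, H i →* ℂˣ) (c : ι → ℤ)
    (h : ∀ g, ∑ i, (c i : ℂ) * indFun (H i) (extZ (ψ i)) g = 0) :
    ∏ i, Reg (aboveSet K L S) (linRep (liftChar (H i) (ψ i))) Θ ^ c i = 1 := by
  have e := (Fintype.equivFin ι).symm
  have h1 := hD K L S φ Θ (Fintype.card ι) (fun i => H (e i)) (fun i => ψ (e i))
    (fun i => c (e i)) hφ (fun g => by
      rw [Equiv.sum_comp e fun i => (c i : ℂ) * indFun (H i) (extZ (ψ i)) g]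
      exact h g)
  rwa [Equiv.prod_comp e fun i =>
    Reg (aboveSet K L S) (linRep (liftChar (H i) (ψ i))) Θ ^ c i] at h1

theorem rel (hDI : ConclDI1) (hD : Stmt_DRC) (S : Finset (HeightOneSpectrum (𝓞 K)))
    (φ : XQ L (aboveSet K L S) ≃ₗ[ℚ] QU L (aboveSet K L S))
    (Θ : XC L (aboveSet K L S) →ₗ[ℂ] XC L (aboveSet K L S))
    (hφ : IsPhiTheta K (aboveSet K L S) φ Θ) {k t : ℕ} {σ γ : L ≃ₐ[K] L}
    (h : DLeaf k t σ γ) (ψ : Subgroup.zpowers σ →* ℂˣ) (hψ : Function.Injective ψ)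
    (H₁ H₂ : Subgroup (L ≃ₐ[K] L)) (hH₁ : H₁ = Subgroup.zpowers γ)
    (hH₂ : H₂ = Subgroup.zpowers γ ⊔ Subgroup.zpowers (σ ^ (2 ^ k / 2))) :
    Reg (aboveSet K L S) (linRep (liftChar H₁ 1)) Θ ≠ 0 ∧
      Reg (aboveSet K L S) (linRep (liftChar H₂ 1)) Θ ≠ 0 ∧
      ∏ j ∈ Ex (2 ^ k), Reg (aboveSet K L S)
        (linRep (liftChar (Subgroup.zpowers σ) (ψ ^ j))) Θ =
        (Reg (aboveSet K L S) (linRep (liftChar H₁ 1)) Θ /
          Reg (aboveSet K L S) (linRep (liftChar H₂ 1)) Θ) ^ 2 := by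
  let H : Option (Option (Ex (2 ^ k))) → Subgroup (L ≃ₐ[K] L) := fun i =>
    match i with
    | none => H₁
    | some none => H₂
    | some (some _) => Subgroup.zpowers σ
  let χ : ∀ i, H i →* ℂˣ := fun i =>
    match i with
    | none => (1 : H₁ →* ℂˣ)
    | some none => (1 : H₂ →* ℂˣ)
    | some (some j) => ψ ^ (j : ℕ)
  let c : Option (Option (Ex (2 ^ k))) → ℤ := fun i =>
    match i with
    | none => -2
    | some none => 2
    | some (some _) => 1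
  have h1 := drc hD S φ Θ hφ (Option (Option (Ex (2 ^ k)))) H χ c (by
    intro g
    rw [Fintype.sum_option, Fintype.sum_option]
    have e1 := hDI (L ≃ₐ[K] L) k t σ γ h ψ hψ g
    rw [← hH₁] at e1
    have e2 : lfun k (Subgroup.zpowers σ) ψ g =
        (∑ j : Ex (2 ^ k), indFun (Subgroup.zpowers σ) (extZ (ψ ^ (j : ℕ))) g) / 2 := by
      unfold lfun
      rw [← Finset.sum_coe_sort]
    change ((-2 : ℤ) : ℂ) * indFun H₁ (extZ (1 : H₁ →* ℂˣ)) g +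
      (((2 : ℤ) : ℂ) * indFun H₂ (extZ (1 : H₂ →* ℂˣ)) g +
        ∑ j : Ex (2 ^ k), ((1 : ℤ) : ℂ) * indFun (Subgroup.zpowers σ) (extZ (ψ ^ (j : ℕ))) g) = 0
    rw [ind_one, ind_one]
    have e3 : ∑ j : Ex (2 ^ k), ((1 : ℤ) : ℂ) *
        indFun (Subgroup.zpowers σ) (extZ (ψ ^ (j : ℕ))) g =
        ∑ j : Ex (2 ^ k), indFun (Subgroup.zpowers σ) (extZ (ψ ^ (j : ℕ))) g := by
      refine Finset.sum_congr rfl fun j _ => ?_
      rw [Int.cast_one, one_mul]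
    rw [e3]
    rw [e2, hH₁, ← hH₂] at e1
    rw [hH₁]
    push_cast
    linear_combination 2 * e1)
  rw [Fintype.prod_option, Fintype.prod_option] at h1
  change Reg (aboveSet K L S) (linRep (liftChar H₁ 1)) Θ ^ (-2 : ℤ) *
    (Reg (aboveSet K L S) (linRep (liftChar H₂ 1)) Θ ^ (2 : ℤ) *
      ∏ j : Ex (2 ^ k), Reg (aboveSet K L S)
        (linRep (liftChar (Subgroup.zpowers σ) (ψ ^ (j : ℕ)))) Θ ^ (1 : ℤ)) = 1 at h1
  simp only [zpow_one] at h1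
  rw [Finset.prod_coe_sort (Ex (2 ^ k)) fun j => Reg (aboveSet K L S)
    (linRep (liftChar (Subgroup.zpowers σ) (ψ ^ j))) Θ] at h1
  have hx : Reg (aboveSet K L S) (linRep (liftChar H₁ 1)) Θ ≠ 0 := by
    intro h0
    rw [h0, zero_zpow _ (by norm_num), zero_mul] at h1
    exact zero_ne_one h1
  have hy : Reg (aboveSet K L S) (linRep (liftChar H₂ 1)) Θ ≠ 0 := by
    intro h0
    rw [h0, zero_zpow _ (by norm_num), zero_mul, mul_zero] at h1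
    exact zero_ne_one h1
  refine ⟨hx, hy, ?_⟩
  rw [div_pow, eq_div_iff (pow_ne_zero _ hy)]
  rw [zpow_neg, inv_mul_eq_one₀ (zpow_ne_zero _ hx)] at h1
  have e4 : ∀ z : ℂ, z ^ (2 : ℤ) = z ^ 2 := fun z => by norm_cast
  rw [e4, e4] at h1
  rw [h1]
  ring

omit [IsGalois K L] in
/-- the number attached to the primes above `v` -/
theorem powers {k t : ℕ} {σ γ : L ≃ₐ[K] L} (h : DLeaf k t σ γ) (H : Subgroup (L ≃ₐ[K] L))
    (W : Finset (HeightOneSpectrum (𝓞 (IntermediateField.fixedField H)))) (c : ℝ)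
    (hW : ∀ w ∈ W, ∃ f : ℕ, f ∣ Nat.card H ∧ c = f * Real.log (Ideal.absNorm w.asIdeal)) :
    ∃ b : ℕ, c ^ W.card = 2 ^ b * ∏ w ∈ W, Real.log (Ideal.absNorm w.asIdeal) := by
  have h1 : ∀ w ∈ W, ∃ b : ℕ, c = 2 ^ b * Real.log (Ideal.absNorm w.asIdeal) := by
    intro w hw
    obtain ⟨f, hf, hc⟩ := hW w hw
    obtain ⟨b, rfl⟩ := dvd_two_pow h H f hf
    refine ⟨b, ?_⟩
    rw [hc]
    push_cast
    rfl
  choose! b hb using h1
  refine ⟨∑ w ∈ W, b w, ?_⟩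
  rw [← Finset.prod_pow_eq_pow_sum, ← Finset.prod_mul_distrib, ← Finset.prod_const]
  exact Finset.prod_congr rfl fun w hw => hb w hw

theorem one_lt (M : Type) [Field M] [NumberField M] (w : HeightOneSpectrum (𝓞 M)) :
    1 < Ideal.absNorm w.asIdeal := NumberField.HeightOneSpectrum.one_lt_absNorm w

/-- the `L`-function of the difference -/
theorem logL_lfun (hDI : ConclDI1) {k t : ℕ} {σ γ : L ≃ₐ[K] L} (h : DLeaf k t σ γ)
    (ψ : Subgroup.zpowers σ →* ℂˣ) (hψ : Function.Injective ψ)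
    (S : Set (HeightOneSpectrum (𝓞 K))) (s : ℂ) (hs : 1 < s.re) :
    logL (lfun k (Subgroup.zpowers σ) ψ) S s =
      logL (indFun (Subgroup.zpowers γ) (fun _ => 1)) S s -
        logL (indFun (Subgroup.zpowers γ ⊔ Subgroup.zpowers (σ ^ (2 ^ k / 2)))
          (fun _ => 1)) S s := by
  have e := IND.logL_sum (K := K) (N := L) LA_thm ALLT.lb S s hs 2 ![1, -1]
    ![indFun (Subgroup.zpowers γ) (fun _ => 1),
      indFun (Subgroup.zpowers γ ⊔ Subgroup.zpowers (σ ^ (2 ^ k / 2))) (fun _ => 1)]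
  rw [Fin.sum_univ_two] at e
  simp only [Matrix.cons_val_zero, Matrix.cons_val_one, one_mul, neg_mul] at e
  have e1 : (lfun k (Subgroup.zpowers σ) ψ) = fun g => ∑ i : Fin 2,
      (![1, -1] : Fin 2 → ℂ) i * (![indFun (Subgroup.zpowers γ) (fun _ => 1),
        indFun (Subgroup.zpowers γ ⊔ Subgroup.zpowers (σ ^ (2 ^ k / 2))) (fun _ => 1)] :
          Fin 2 → (L ≃ₐ[K] L) → ℂ) i g := by
    funext g
    rw [hDI (L ≃ₐ[K] L) k t σ γ h ψ hψ g, Fin.sum_univ_two]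
    simp only [Matrix.cons_val_zero, Matrix.cons_val_one, one_mul, neg_mul]
    ring
  rw [e1, e]
  ring

end Fld

end DSTx

open DSTx in
theorem DST_thm : Stmt_DST := by
  intro hDI hDRC hDSR hDSL hDTW hDPH K L _ _ _ _ _ _ k t σ γ ψ h hψ S v hv hPD φ₃ Θ₃ h₃
  obtain ⟨φ, Θ, hφ⟩ := ALLT.exph K L S
  obtain ⟨F, α, r, hF, hα, hr, hFr, hprod⟩ := hPD φ Θ hφ
  obtain ⟨φ₂, Θ₂, c, hc, hφ₂, hH⟩ := hDSR K L S v hv φ Θ hφ
  refine hDPH K L (insert v S) φ₂ φ₃ Θ₂ Θ₃ (Subgroup.zpowers σ) ψ γ k t h.k3 (leaf h ψ hψ)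
    hφ₂ h₃ ?_
  obtain ⟨H₁, hH₁⟩ : ∃ H₁ : Subgroup (L ≃ₐ[K] L), H₁ = Subgroup.zpowers γ := ⟨_, rfl⟩
  obtain ⟨H₂, hH₂⟩ : ∃ H₂ : Subgroup (L ≃ₐ[K] L),
      H₂ = Subgroup.zpowers γ ⊔ Subgroup.zpowers (σ ^ (2 ^ k / 2)) := ⟨_, rfl⟩
  obtain ⟨W₁, hW₁⟩ : ∃ W : Finset (HeightOneSpectrum (𝓞 (IntermediateField.fixedField H₁))),
      ∀ w, w ∈ W ↔ w.under (𝓞 K) = v :=
    ⟨(INFL.finite_above v).toFinset, fun w => by rw [Set.Finite.mem_toFinset]; rfl⟩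
  obtain ⟨W₂, hW₂⟩ : ∃ W : Finset (HeightOneSpectrum (𝓞 (IntermediateField.fixedField H₂))),
      ∀ w, w ∈ W ↔ w.under (𝓞 K) = v :=
    ⟨(INFL.finite_above v).toFinset, fun w => by rw [Set.Finite.mem_toFinset]; rfl⟩
  obtain ⟨f₁, R₁⟩ := hH H₁ W₁ hW₁
  obtain ⟨f₂, R₂⟩ := hH H₂ W₂ hW₂
  obtain ⟨b₁, hb₁⟩ := powers h H₁ W₁ c f₁
  obtain ⟨b₂, hb₂⟩ := powers h H₂ W₂ c f₂
  obtain ⟨x1, x2, x3⟩ := rel hDI hDRC S φ Θ hφ h ψ hψ H₁ H₂ hH₁ hH₂
  obtain ⟨y1, y2, y3⟩ := rel hDI hDRC (insert v S) φ₂ Θ₂ hφ₂ h ψ hψ H₁ H₂ hH₁ hH₂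
  obtain ⟨⟨β, hβ, hβ2⟩, -⟩ := hDTW k t h.k3 h.tt
  obtain ⟨m1, t1⟩ := mulW W₁ (fun w => Ideal.absNorm w.asIdeal) fun w _ => one_lt _ w
  obtain ⟨m2, t2⟩ := mulW W₂ (fun w => Ideal.absNorm w.asIdeal) fun w _ => one_lt _ w
  have hl1 : 0 < ∏ w ∈ W₁, Real.log (Ideal.absNorm w.asIdeal) :=
    Finset.prod_pos fun w _ => Real.log_pos (by exact_mod_cast one_lt _ w)
  have hl2 : 0 < ∏ w ∈ W₂, Real.log (Ideal.absNorm w.asIdeal) :=
    Finset.prod_pos fun w _ => Real.log_pos (by exact_mod_cast one_lt _ w)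
  have hNβ : Algebra.norm ℚ (β ^ b₂) * Algebra.norm ℚ ((β ^ b₂)⁻¹) = 1 := by
    rw [← map_mul, mul_inv_cancel₀ (pow_ne_zero _ hβ), map_one]
  have hNβ' : Algebra.norm ℚ ((β ^ b₂)⁻¹) = ((2 : ℚ) ^ b₂)⁻¹ := by
    rw [map_pow, hβ2] at hNβ
    exact eq_inv_of_mul_eq_one_right hNβ
  refine ⟨fun s : ℂ => F s * (∏ w ∈ W₁, (1 - (Ideal.absNorm w.asIdeal : ℂ) ^ (-s))) *
      (∏ w ∈ W₂, (1 - (Ideal.absNorm w.asIdeal : ℂ) ^ (-s)))⁻¹,
    α * β ^ b₁ * (β ^ b₂)⁻¹,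
    r * (∏ w ∈ W₁, Real.log (Ideal.absNorm w.asIdeal)) *
      (∏ w ∈ W₂, Real.log (Ideal.absNorm w.asIdeal))⁻¹, ⟨?_, ?_⟩, ?_, ?_, ?_, ?_⟩
  · intro a
    exact ((hF.1 a).mul (m1 a)).mul (m2 a).inv
  · intro s hs
    beta_reduce
    have e1 := hDSL K L S v hv H₁ W₁ hW₁ s hs
    have e2 := hDSL K L S v hv H₂ W₂ hW₂ s hs
    rw [hF.2 s hs, logL_lfun hDI h ψ hψ _ s hs, logL_lfun hDI h ψ hψ _ s hs, ← hH₂, ← hH₁]
    rw [Complex.exp_sub, Complex.exp_sub, e1, e2, div_eq_mul_inv, div_eq_mul_inv, mul_inv]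
    ring
  · exact mul_ne_zero (mul_ne_zero hα (pow_ne_zero _ hβ)) (inv_ne_zero (pow_ne_zero _ hβ))
  · positivity
  · have g1 := MeromorphicAt.meromorphicTrailingCoeffAt_fun_mul (hF.1 0) (m1 0)
    have g2 : MeromorphicAt (fun s : ℂ => F s *
        ∏ w ∈ W₁, (1 - (Ideal.absNorm w.asIdeal : ℂ) ^ (-s))) 0 := (hF.1 0).mul (m1 0)
    have g3 : MeromorphicAt (fun s : ℂ =>
        (∏ w ∈ W₂, (1 - (Ideal.absNorm w.asIdeal : ℂ) ^ (-s)))⁻¹) 0 := (m2 0).inv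
    rw [MeromorphicAt.meromorphicTrailingCoeffAt_fun_mul g2 g3,
      meromorphicTrailingCoeffAt_fun_inv, g1, hFr, t1, t2]
    push_cast
    ring
  · rw [y3, R₁, R₂]
    rw [x3] at hprod
    have c1 : ((c : ℝ) : ℂ) ^ W₁.card =
        2 ^ b₁ * ((∏ w ∈ W₁, Real.log (Ideal.absNorm w.asIdeal) : ℝ) : ℂ) := by
      rw [← Complex.ofReal_pow, hb₁]
      push_cast
      rfl
    have c2 : ((c : ℝ) : ℂ) ^ W₂.card =
        2 ^ b₂ * ((∏ w ∈ W₂, Real.log (Ideal.absNorm w.asIdeal) : ℝ) : ℂ) := by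
      rw [← Complex.ofReal_pow, hb₂]
      push_cast
      rfl
    rw [c1, c2, mul_div_mul_comm, mul_pow, hprod, map_mul, map_mul, hNβ', map_pow, hβ2,
      Complex.ofReal_mul, Complex.ofReal_mul, Complex.ofReal_inv]
    have d2 : ((∏ w ∈ W₂, Real.log (Ideal.absNorm w.asIdeal) : ℝ) : ℂ) ≠ 0 := by
      exact_mod_cast hl2.ne'
    have d3 : (2 : ℂ) ^ b₂ ≠ 0 := pow_ne_zero _ two_ne_zero
    push_cast at d2 ⊢
    field_simp

end StarkC.ABS
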