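import Pool.Agent.ABS.StA2

/-!
# Module DTC: determinants and complexification
-/

open NumberField NumberField.InfinitePlace IsDedekindDomain
open scoped Classical

namespace ABS

namespace DTC

variable {M : Type} [AddCommGroup M] [Module ℂ M] {V₀ : Type} [AddCommGroup V₀] [Module ℝ V₀]
  {κ : V₀ → M}

theorem map_sum' (hadd : ∀ x y, κ (x + y) = κ x + κ y)
    (hsmul : ∀ (c : ℝ) (x : V₀), κ (c • x) = (c : ℂ) • κ x) {ι : Type} [Fintype ι] (c : ι → ℝ)
    (b : ι → V₀) : κ (∑ i, c i • b i) = ∑ i, (c i : ℂ) • κ (b i) := by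
  have h := map_sum (AddMonoidHom.mk' κ hadd) (fun i => c i • b i) Finset.univ
  refine Eq.trans h ?_
  exact Finset.sum_congr rfl fun i _ => hsmul (c i) (b i)

end DTC

open DTC in
theorem DTC_thm : Stmt_DTC := by
  intro M _ _ Θ W V₀ _ _ _ κ T hadd hsmul hW hsurj hinj hΘ
  have hst : ∀ x ∈ W, Θ x ∈ W := by
    intro x hx
    obtain ⟨a, c, rfl⟩ := hsurj x hx
    rw [map_add, map_smul, hΘ, hΘ]
    exact W.add_mem (hW _) (W.smul_mem _ (hW _))
  unfold StarkP.detOn
  rw [dif_pos hst]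
  obtain ⟨b, hb⟩ : ∃ b : Module.Basis (Fin (Module.finrank ℝ V₀)) ℝ V₀, b = Module.finBasis ℝ V₀ :=
    ⟨_, rfl⟩
  obtain ⟨v, hv⟩ : ∃ v : Fin (Module.finrank ℝ V₀) → W, v = fun i => ⟨κ (b i), hW (b i)⟩ :=
    ⟨_, rfl⟩
  have hvi : ∀ i, ((v i : W) : M) = κ (b i) := by
    intro i
    rw [hv]
  have hli : LinearIndependent ℂ v := by
    rw [Fintype.linearIndependent_iff]
    intro c hc i
    have h1 : ∑ j, c j • κ (b j) = 0 := by
      have h2 := congrArg (fun w : W => (w : M)) hc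
      simp only [Submodule.coe_sum, Submodule.coe_smul, hvi, Submodule.coe_zero] at h2
      exact h2
    have h3 : κ (∑ j, (c j).re • b j) + Complex.I • κ (∑ j, (c j).im • b j) = 0 := by
      rw [map_sum' hadd hsmul, map_sum' hadd hsmul, Finset.smul_sum, ← Finset.sum_add_distrib,
        ← h1]
      refine Finset.sum_congr rfl fun j _ => ?_
      rw [smul_smul, ← add_smul, mul_comm, Complex.re_add_im]
    obtain ⟨h4, h5⟩ := hinj _ _ h3
    have hbl := Fintype.linearIndependent_iff.1 b.linearIndependent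
    apply Complex.ext
    · exact hbl _ h4 i
    · exact hbl _ h5 i
  have hmem : ∀ x : V₀, (⟨κ x, hW x⟩ : W) = ∑ i, ((b.repr x i : ℝ) : ℂ) • v i := by
    intro x
    apply Subtype.ext
    rw [Submodule.coe_sum]
    have h1 := map_sum' hadd hsmul (fun i => b.repr x i) (fun i => b i)
    rw [b.sum_repr x] at h1
    show κ x = _
    rw [h1]
    refine Finset.sum_congr rfl fun i _ => ?_
    rw [Submodule.coe_smul, hvi]
  have hsp : ⊤ ≤ Submodule.span ℂ (Set.range v) := by
    intro w _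
    have hκ : ∀ x : V₀, (⟨κ x, hW x⟩ : W) ∈ Submodule.span ℂ (Set.range v) := by
      intro x
      rw [hmem]
      exact Submodule.sum_mem _ fun i _ =>
        Submodule.smul_mem _ _ (Submodule.subset_span ⟨i, rfl⟩)
    obtain ⟨x, y, hxy⟩ := hsurj w w.2
    have h1 : w = (⟨κ x, hW x⟩ : W) + Complex.I • (⟨κ y, hW y⟩ : W) := Subtype.ext hxy
    rw [h1]
    exact Submodule.add_mem _ (hκ x) (Submodule.smul_mem _ _ (hκ y))
  obtain ⟨B, hB⟩ : ∃ B : Module.Basis (Fin (Module.finrank ℝ V₀)) ℂ W, B = Module.Basis.mk hli hsp :=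
    ⟨_, rfl⟩
  have hBi : ∀ i, B i = v i := by
    intro i
    rw [hB, Module.Basis.mk_apply]
  have hmat : LinearMap.toMatrix B B (Θ.restrict hst) =
      Complex.ofRealHom.mapMatrix (LinearMap.toMatrix b b T) := by
    ext i j
    rw [LinearMap.toMatrix_apply, RingHom.mapMatrix_apply, Matrix.map_apply,
      LinearMap.toMatrix_apply]
    have h1 : Θ.restrict hst (B j) = (⟨κ (T (b j)), hW _⟩ : W) := by
      apply Subtype.ext
      rw [LinearMap.coe_restrict_apply, hBi, hvi, hΘ]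
    rw [h1, hmem]
    have h2 : ∑ i, ((b.repr (T (b j)) i : ℝ) : ℂ) • v i = ∑ i, ((b.repr (T (b j)) i : ℝ) : ℂ) • B i :=
      Finset.sum_congr rfl fun i _ => by rw [hBi]
    rw [h2, B.repr_sum_self]
    rfl
  rw [← LinearMap.det_toMatrix B, hmat, ← RingHom.map_det, LinearMap.det_toMatrix]
  rfl

end ABS
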