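import Pool.Agent.ABS.StD3

/-!
# ABS part D, module DTG: the Galois group of `L` over the fixed field of `{1, σ ^ (n / 2)}` (helper59)
-/

set_option autoImplicit false

open NumberField IsDedekindDomain
open scoped TensorProduct Classical

namespace StarkC.ABS

theorem DTG_thm : Stmt_DTG := by
  intro k t K L _ _ _ _ _ _ σ γ B hk hord hγ hγσ hB
  have hdiv : 2 ^ k / 2 * 2 = 2 ^ k := Nat.div_mul_cancel (dvd_pow_self 2 hk.ne')
  have hpos : 0 < 2 ^ k / 2 := by
    have : 0 < 2 ^ k := pow_pos (by norm_num) k
    omega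
  have hs : orderOf (σ ^ (2 ^ k / 2)) = 2 := by
    rw [orderOf_pow' σ hpos.ne', hord, Nat.gcd_eq_right ⟨2, hdiv.symm⟩]
    nth_rewrite 1 [← hdiv]
    exact Nat.mul_div_cancel_left 2 hpos
  have hcard : Nat.card B = 2 := by
    rw [hB, Nat.card_zpowers, hs]
  have hrank : Module.finrank (IntermediateField.fixedField B) L = 2 := by
    rw [IntermediateField.finrank_fixedField_eq_card, hcard]
  refine ⟨?_, hγ, hγσ, hrank, ?_⟩
  · rw [← hord]
    exact pow_orderOf_eq_one σ
  intro M _ f
  have hinjL : Function.Injective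
      (fun b : L ≃ₐ[IntermediateField.fixedField B] L => b.restrictScalars K) :=
    AlgEquiv.restrictScalars_injective K
  have hL : (Finset.univ.image
      fun b : L ≃ₐ[IntermediateField.fixedField B] L => b.restrictScalars K) =
      Finset.univ.filter fun g : L ≃ₐ[K] L => g ∈ B := by
    ext g
    rw [Finset.mem_image, Finset.mem_filter]
    constructor
    · rintro ⟨b, -, rfl⟩
      refine ⟨Finset.mem_univ _, ?_⟩
      have h1 : b.restrictScalars K ∈ (IntermediateField.fixedField B).fixingSubgroup := by
        rw [IntermediateField.mem_fixingSubgroup_iff]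
        intro x hx
        exact b.commutes ⟨x, hx⟩
      exact (IntermediateField.fixingSubgroup_fixedField B).le h1
    · rintro ⟨-, hg⟩
      have h1 : g ∈ (IntermediateField.fixedField B).fixingSubgroup := by
        rw [IntermediateField.fixingSubgroup_fixedField]
        exact hg
      exact ⟨IntermediateField.fixingSubgroupEquiv _ ⟨g, h1⟩, Finset.mem_univ _, rfl⟩
  have hR : ((Finset.range 2).image fun i => σ ^ (2 ^ k / 2 * i)) =
      Finset.univ.filter fun g : L ≃ₐ[K] L => g ∈ B := by
    ext g
    rw [Finset.mem_filter, hB, mem_zpowers_iff_mem_range_orderOf, hs]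
    simp only [pow_mul, Finset.mem_univ, true_and]
  have hinjR : Set.InjOn (fun i : ℕ => σ ^ (2 ^ k / 2 * i)) (Finset.range 2) := by
    intro i hi j hj hij
    have hi' : i < orderOf (σ ^ (2 ^ k / 2)) := by
      rw [hs]
      exact Finset.mem_range.mp hi
    have hj' : j < orderOf (σ ^ (2 ^ k / 2)) := by
      rw [hs]
      exact Finset.mem_range.mp hj
    simp only [pow_mul] at hij
    exact pow_injOn_Iio_orderOf hi' hj' hij
  calc ∑ b : L ≃ₐ[IntermediateField.fixedField B] L, f (b.restrictScalars K)
      = ∑ g ∈ Finset.univ.image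
          (fun b : L ≃ₐ[IntermediateField.fixedField B] L => b.restrictScalars K), f g :=
        (Finset.sum_image fun a _ b _ h => hinjL h).symm
    _ = ∑ g ∈ (Finset.range 2).image (fun i => σ ^ (2 ^ k / 2 * i)), f g := by
        rw [hL, hR]
    _ = ∑ i ∈ Finset.range 2, f (σ ^ (2 ^ k / 2 * i)) := Finset.sum_image hinjR

end StarkC.ABS
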