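import Pool.Agent.ABS.StA

/-!
# ABS_TRN: the orders of the two groups of a transfer
-/

set_option autoImplicit false

open NumberField NumberField.InfinitePlace
open scoped Classical

namespace ABS

namespace TRN

/-- A finite group which is killed by `l` has order a power of `l`. -/
lemma card_pow (l : ℕ) (hl : l.Prime) (B : Type) [AddCommGroup B] [Finite B]
    (h : ∀ x : B, l • x = 0) : ∃ d : ℕ, Nat.card B = l ^ d := by
  have : Fact l.Prime := ⟨hl⟩
  let m : Module (ZMod l) B := AddCommGroup.zmodModule h
  have hf : Module.Finite (ZMod l) B := Module.Finite.of_finite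
  have e : Nat.card B = Nat.card (ZMod l) ^ Module.finrank (ZMod l) B :=
    @Module.natCard_eq_pow_finrank (ZMod l) B _ _ m hf
  rw [Nat.card_zmod] at e
  exact ⟨_, e⟩

lemma card_ker_range {G H : Type} [AddCommGroup G] [AddCommGroup H] (f : G →+ H) :
    Nat.card G = Nat.card f.ker * Nat.card f.range := by
  rw [← AddSubgroup.index_ker f, AddSubgroup.card_mul_index]

end TRN

open TRN in
theorem TRN_thm : Stmt_TRN := by
  intro hKER hCRD l k hl hk A M _ _ _ _ hD
  obtain ⟨s, j, N, h1, h2, h3⟩ := hD
  -- the kernel of `j N` is stable under `s`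
  have hsum : ∀ x, j (N (s x)) = s (j (N x)) := by
    intro x
    rw [h3, h3, map_sum]
    refine Finset.sum_congr rfl fun i _ => ?_
    rw [← Function.iterate_succ_apply, Function.iterate_succ_apply']
  have hst : ∀ x : (j.comp N).ker, s.comp (j.comp N).ker.subtype x ∈ (j.comp N).ker := by
    intro x
    rw [AddMonoidHom.mem_ker]
    show j (N (s (x : M))) = 0
    have hx : j (N (x : M)) = 0 := x.2
    rw [hsum, hx, map_zero]
  let s' : (j.comp N).ker →+ (j.comp N).ker :=
    (s.comp (j.comp N).ker.subtype).codRestrict (j.comp N).ker hst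
  have hs' : ∀ (m : ℕ) (x : (j.comp N).ker), ((s'^[m] x : (j.comp N).ker) : M) = s^[m] (x : M) := by
    intro m
    induction m with
    | zero => intro x; rfl
    | succ m ih =>
      intro x
      rw [Function.iterate_succ_apply, Function.iterate_succ_apply, ih]
      rfl
  obtain ⟨I, hI, hcard⟩ := hKER hCRD l k hl hk (j.comp N).ker s' (by
    intro x
    apply Subtype.ext
    rw [AddSubgroup.val_finsetSum, ZeroMemClass.coe_zero]
    simp only [hs']
    rw [← h3]
    exact x.2)
  -- the orders
  obtain ⟨d, hd⟩ := card_pow l hl (j.comp N.range.subtype).ker (by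
    rintro ⟨x, hx⟩
    apply Subtype.ext
    apply Subtype.ext
    show l • (x : A) = 0
    have hx' : j (x : A) = 0 := hx
    rw [← h2, hx', map_zero])
  obtain ⟨c, hc⟩ := card_pow l hl (A ⧸ N.range) (by
    intro x
    induction x using QuotientAddGroup.induction_on with
    | H a =>
      rw [← QuotientAddGroup.mk_nsmul, QuotientAddGroup.eq_zero_iff, ← h2]
      exact ⟨_, rfl⟩)
  have e1 := card_ker_range (j.comp N)
  have e2 := card_ker_range (j.comp N.range.subtype)
  have e3 : Nat.card A = Nat.card N.range * Nat.card (A ⧸ N.range) := by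
    rw [← AddSubgroup.card_mul_index N.range, AddSubgroup.index]
  have e4 : Nat.card (j.comp N.range.subtype).range = Nat.card (j.comp N).range := by
    have : (j.comp N.range.subtype).range = (j.comp N).range := by
      ext y
      simp only [AddMonoidHom.mem_range, AddMonoidHom.comp_apply, AddSubgroup.coe_subtype]
      constructor
      · rintro ⟨⟨x, z, rfl⟩, rfl⟩
        exact ⟨z, rfl⟩
      · rintro ⟨z, rfl⟩
        exact ⟨⟨N z, z, rfl⟩, rfl⟩
    rw [this]
  refine ⟨I, c + d, 0, hI, ?_⟩
  rw [hcard, e3, e2, e4, hd, hc, e1]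
  ring

end ABS
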