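import Pool.Agent.ABS.StD1
import Pool.Agent.ABS.TRN

/-!
# ABS_DTN: the orders of the two groups of a transfer with an involution
-/

set_option autoImplicit false

open NumberField NumberField.InfinitePlace
open scoped Classical

namespace ABS

namespace DTN

/-- A finite group which is killed by `2 ^ e` has order a power of `2`. -/
lemma card_two_pow (e : ℕ) (B : Type) [AddCommGroup B] [Finite B]
    (h : ∀ x : B, 2 ^ e • x = 0) : ∃ d : ℕ, Nat.card B = 2 ^ d := by
  refine ⟨_, Nat.eq_prime_pow_of_unique_prime_dvd (p := 2) Nat.card_pos.ne' ?_⟩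
  intro p hp hdvd
  have : Fact p.Prime := ⟨hp⟩
  obtain ⟨x, hx⟩ := exists_prime_addOrderOf_dvd_card' (G := B) p hdvd
  have h1 : addOrderOf x ∣ 2 ^ e := addOrderOf_dvd_of_nsmul_eq_zero (h x)
  rw [hx] at h1
  exact (Nat.prime_dvd_prime_iff_eq hp Nat.prime_two).1 (hp.dvd_of_dvd_pow h1)

/-- A finite group which is killed by an odd number has odd order. -/
lemma card_odd (m : ℕ) (hm : Odd m) (B : Type) [AddCommGroup B] [Finite B]
    (h : ∀ x : B, m • x = 0) : Odd (Nat.card B) := by
  by_contra hodd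
  rw [Nat.not_odd_iff_even, even_iff_two_dvd] at hodd
  have : Fact (Nat.Prime 2) := ⟨Nat.prime_two⟩
  obtain ⟨x, hx⟩ := exists_prime_addOrderOf_dvd_card' (G := B) 2 hodd
  have h1 : addOrderOf x ∣ m := addOrderOf_dvd_of_nsmul_eq_zero (h x)
  rw [hx] at h1
  exact (Nat.not_even_iff_odd.2 hm) (even_iff_two_dvd.2 h1)

/-- The order of a group with `s`, `g`, where `s ^ (n / 2) = - 1`. -/
lemma main (hCRD : Stmt_CRD) (hDKR : Stmt_DKR) (k t : ℕ) (E : Type) [Field E] [NumberField E]
    [Algebra E (CyclotomicField (2 ^ k) ℚ)]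
    (τ : CyclotomicField (2 ^ k) ℚ ≃ₐ[E] CyclotomicField (2 ^ k) ℚ) (hF : FD k t E τ)
    (M : Type) [AddCommGroup M] [Finite M] (s g : M →+ M)
    (h1 : ∀ x, s^[2 ^ k / 2] x = -x) (h2 : ∀ x, g (s x) = s^[t] (g x)) (h3 : ∀ x, g (g x) = x) :
    ∃ (r : ℚ) (e : ℕ), IdF E r ∧ (Nat.card M : ℚ) = r ^ 2 * 2 ^ e := by
  obtain ⟨e, m, hm, hcard⟩ := Nat.exists_eq_two_pow_mul_odd (n := Nat.card M) Nat.card_pos.ne'
  -- the kernel of `m`
  have hker : ∀ x : M, x ∈ (nsmulAddMonoidHom (α := M) m).ker ↔ m • x = 0 := by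
    intro x
    rw [AddMonoidHom.mem_ker, nsmulAddMonoidHom_apply]
  have hst : ∀ x : (nsmulAddMonoidHom (α := M) m).ker,
      s.comp (nsmulAddMonoidHom (α := M) m).ker.subtype x ∈ (nsmulAddMonoidHom (α := M) m).ker := by
    intro x
    rw [hker]
    show m • s (x : M) = 0
    rw [← map_nsmul, (hker _).1 x.2, map_zero]
  have hgt : ∀ x : (nsmulAddMonoidHom (α := M) m).ker,
      g.comp (nsmulAddMonoidHom (α := M) m).ker.subtype x ∈ (nsmulAddMonoidHom (α := M) m).ker := by
    intro x
    rw [hker]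
    show m • g (x : M) = 0
    rw [← map_nsmul, (hker _).1 x.2, map_zero]
  let s' : (nsmulAddMonoidHom (α := M) m).ker →+ (nsmulAddMonoidHom (α := M) m).ker :=
    (s.comp (nsmulAddMonoidHom (α := M) m).ker.subtype).codRestrict
      (nsmulAddMonoidHom (α := M) m).ker hst
  let g' : (nsmulAddMonoidHom (α := M) m).ker →+ (nsmulAddMonoidHom (α := M) m).ker :=
    (g.comp (nsmulAddMonoidHom (α := M) m).ker.subtype).codRestrict
      (nsmulAddMonoidHom (α := M) m).ker hgt
  have hs' : ∀ (i : ℕ) (x : (nsmulAddMonoidHom (α := M) m).ker),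
      ((s'^[i] x : (nsmulAddMonoidHom (α := M) m).ker) : M) = s^[i] (x : M) := by
    intro i
    induction i with
    | zero => intro x; rfl
    | succ i ih =>
      intro x
      rw [Function.iterate_succ_apply, Function.iterate_succ_apply, ih]
      rfl
  obtain ⟨I, hI, hIc⟩ := hDKR hCRD k t E τ hF (nsmulAddMonoidHom (α := M) m).ker s' g'
    (card_odd m hm _ (by
      rintro ⟨x, hx⟩
      apply Subtype.ext
      exact (hker x).1 hx))
    (by
      intro x
      apply Subtype.ext
      rw [hs', h1]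
      rfl)
    (by
      intro x
      apply Subtype.ext
      rw [hs']
      exact h2 (x : M))
    (by
      intro x
      apply Subtype.ext
      exact h3 (x : M))
  obtain ⟨c, hc⟩ := card_two_pow e (nsmulAddMonoidHom (α := M) m).range (by
    rintro ⟨x, y, rfl⟩
    apply Subtype.ext
    show 2 ^ e • (nsmulAddMonoidHom (α := M) m y) = 0
    rw [nsmulAddMonoidHom_apply, ← mul_nsmul', ← hcard]
    exact card_nsmul_eq_zero')
  have e1 := TRN.card_ker_range (nsmulAddMonoidHom (α := M) m)
  refine ⟨(Ideal.absNorm I : ℚ), c, ⟨I, ⊤, hI, top_ne_bot, by simp⟩, ?_⟩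
  rw [e1, hc, ← hIc]
  push_cast
  ring

end DTN

open DTN TRN in
theorem DTN_thm : Stmt_DTN := by
  intro hCRD hDKR k t E _ _ _ τ hF A M _ _ _ _ hD
  obtain ⟨s, g, j, N, h1, h2, h3, h4, h5⟩ := hD
  have h3' : ∀ x, j (N x) = x + s^[2 ^ k / 2] x := by
    intro x
    rw [h3, Finset.sum_range_succ, Finset.sum_range_one, Nat.mul_zero, Nat.mul_one]
    rfl
  -- `s ^ (n / 2)` and `g`
  have hti : ∀ (i : ℕ) (x : M), g (s^[i] x) = s^[t * i] (g x) := by
    intro i
    induction i with
    | zero => intro x; rfl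
    | succ i ih =>
      intro x
      rw [Function.iterate_succ_apply, ih, h4, ← Function.iterate_add_apply, Nat.mul_succ]
  have hodd : Odd t := by
    have hk3 := hF.k3
    have h2k : (2 : ℕ) ∣ 2 ^ k := dvd_pow_self 2 (by omega)
    have hc : ((t : ZMod (2 ^ k)) : ZMod (2 ^ k)) = (t : ZMod (2 ^ k)) := rfl
    have hcast : (ZMod.castHom h2k (ZMod 2)) (t : ZMod (2 ^ k)) = (t : ZMod 2) := by
      rw [map_natCast]
    have h21 : (ZMod.castHom h2k (ZMod 2)) (2 : ZMod (2 ^ k)) = 0 := by
      have : (2 : ZMod (2 ^ k)) = ((2 : ℕ) : ZMod (2 ^ k)) := by norm_cast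
      rw [this, map_natCast]
      rfl
    have ht : (t : ZMod 2) = 1 := by
      rcases hF.cases with h | h
      · rw [← hcast, h, map_neg, map_one]
        rfl
      · rw [← hcast, h, map_add, map_neg, map_one, map_pow, h21, zero_pow (by omega)]
        rfl
    exact (ZMod.natCast_eq_one_iff_odd).1 ht
  have hgs : ∀ x, g (s^[2 ^ k / 2] x) = s^[2 ^ k / 2] (g x) := by
    intro x
    rw [hti]
    obtain ⟨u, hu⟩ := hodd
    have hk3 := hF.k3
    have hh : 2 * (2 ^ k / 2) = 2 ^ k := Nat.mul_div_cancel' (dvd_pow_self 2 (by omega))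
    have : t * (2 ^ k / 2) = 2 ^ k / 2 + 2 ^ k * u := by
      calc t * (2 ^ k / 2) = 2 ^ k / 2 + (2 * (2 ^ k / 2)) * u := by rw [hu]; ring
        _ = 2 ^ k / 2 + 2 ^ k * u := by rw [hh]
    rw [this, Function.iterate_add_apply, Function.iterate_mul]
    congr 1
    have : s^[2 ^ k] = id := by
      funext y
      exact h1 y
    rw [this, Function.iterate_id]
    rfl
  -- the kernel of `j N` is stable under `s` and `g`
  have hsum : ∀ x, j (N (s x)) = s (j (N x)) := by
    intro x
    rw [h3', h3', map_add, ← Function.iterate_succ_apply, Function.iterate_succ_apply']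
  have hgum : ∀ x, j (N (g x)) = g (j (N x)) := by
    intro x
    rw [h3', h3', map_add, hgs]
  have hst : ∀ x : (j.comp N).ker, s.comp (j.comp N).ker.subtype x ∈ (j.comp N).ker := by
    intro x
    rw [AddMonoidHom.mem_ker]
    show j (N (s (x : M))) = 0
    have hx : j (N (x : M)) = 0 := x.2
    rw [hsum, hx, map_zero]
  have hgt : ∀ x : (j.comp N).ker, g.comp (j.comp N).ker.subtype x ∈ (j.comp N).ker := by
    intro x
    rw [AddMonoidHom.mem_ker]
    show j (N (g (x : M))) = 0
    have hx : j (N (x : M)) = 0 := x.2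
    rw [hgum, hx, map_zero]
  let s' : (j.comp N).ker →+ (j.comp N).ker :=
    (s.comp (j.comp N).ker.subtype).codRestrict (j.comp N).ker hst
  let g' : (j.comp N).ker →+ (j.comp N).ker :=
    (g.comp (j.comp N).ker.subtype).codRestrict (j.comp N).ker hgt
  have hs' : ∀ (m : ℕ) (x : (j.comp N).ker), ((s'^[m] x : (j.comp N).ker) : M) = s^[m] (x : M) := by
    intro m
    induction m with
    | zero => intro x; rfl
    | succ m ih =>
      intro x
      rw [Function.iterate_succ_apply, Function.iterate_succ_apply, ih]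
      rfl
  obtain ⟨r, e, hr, hre⟩ := main hCRD hDKR k t E τ hF (j.comp N).ker s' g'
    (by
      intro x
      apply Subtype.ext
      rw [hs']
      have hx : j (N (x : M)) = 0 := x.2
      rw [h3'] at hx
      exact eq_neg_of_add_eq_zero_right hx)
    (by
      intro x
      apply Subtype.ext
      rw [hs']
      exact h4 (x : M))
    (by
      intro x
      apply Subtype.ext
      exact h5 (x : M))
  -- the orders
  obtain ⟨d, hd⟩ := card_pow 2 Nat.prime_two (j.comp N.range.subtype).ker (by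
    rintro ⟨x, hx⟩
    apply Subtype.ext
    apply Subtype.ext
    show 2 • (x : A) = 0
    have hx' : j (x : A) = 0 := hx
    rw [← h2, hx', map_zero])
  obtain ⟨c, hc⟩ := card_pow 2 Nat.prime_two (A ⧸ N.range) (by
    intro x
    induction x using QuotientAddGroup.induction_on with
    | H a =>
      rw [← QuotientAddGroup.mk_nsmul, QuotientAddGroup.eq_zero_iff, ← h2]
      exact ⟨_, rfl⟩)
  have e1 := card_ker_range (j.comp N)
  have e2 := card_ker_range (j.comp N.range.subtype)
  have e3 : Nat.card A = Nat.card N.range * Nat.card (A ⧸ N.range) := by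
    rw [← AddSubgroup.card_mul_index N.range, AddSubgroup.index]
  have e4 : Nat.card (j.comp N.range.subtype).range = Nat.card (j.comp N).range := by
    have : (j.comp N.range.subtype).range = (j.comp N).range := by
      ext y
      simp only [AddMonoidHom.mem_range, AddMonoidHom.comp_apply, AddSubgroup.coe_subtype]
      constructor
      · rintro ⟨⟨x, z, rfl⟩, rfl⟩
        exact ⟨z, rfl⟩
      · rintro ⟨z, rfl⟩
        exact ⟨⟨N z, z, rfl⟩, rfl⟩
    rw [this]
  refine ⟨r, (e : ℤ) - d - c, hr, ?_⟩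
  have hpos : (Nat.card (j.comp N).range : ℚ) ≠ 0 := by
    exact_mod_cast Nat.card_pos.ne'
  rw [e3, e2, e4, hd, hc, e1, zpow_sub₀ (by norm_num : (2 : ℚ) ≠ 0),
    zpow_sub₀ (by norm_num : (2 : ℚ) ≠ 0), zpow_natCast, zpow_natCast, zpow_natCast]
  push_cast
  rw [hre]
  field_simp

end ABS
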