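import Pool.Agent.ABS.StD4

/-!
# Project ABS (MP_46b841_nt), part D: module DTW

`2` (always) and `-1` (for `t = -1` modulo `2 ^ k`) are norms of elements of `EF2 k t`.
-/

set_option autoImplicit false

open NumberField IsDedekindDomain
open scoped TensorProduct Classical

namespace StarkC.ABS

open StarkP (rootField)

namespace DTWx

/-- `4 = 1² 2²`. -/
theorem sqF_four (E : Type) [Field E] [NumberField E] : _root_.ABS.SqF E 4 :=
  ⟨1, 2, _root_.ABS.IdF.one, by norm_num⟩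

/-- `1 = 1² 2⁰`. -/
theorem sqF_one (E : Type) [Field E] [NumberField E] : _root_.ABS.SqF E 1 :=
  ⟨1, 0, _root_.ABS.IdF.one, by norm_num⟩

/-- `t + 1 = 0` modulo `2 ^ k` gives `t = -1` in `ZMod (2 ^ k)`. -/
theorem t_eq {k t : ℕ} (h : (t + 1) % 2 ^ k = 0) : (t : ZMod (2 ^ k)) = -1 := by
  have h1 : ((t + 1 : ℕ) : ZMod (2 ^ k)) = 0 :=
    (ZMod.natCast_eq_zero_iff _ _).2 (Nat.dvd_of_mod_eq_zero h)
  rw [Nat.cast_add, Nat.cast_one] at h1
  exact eq_neg_of_add_eq_zero_left h1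

end DTWx

theorem DTW_thm : Stmt_DTW := by
  intro hE hS hD k t hk ht
  obtain ⟨E, _, _, _, τ, hF, hN⟩ := hD hS k t hk ht
  refine ⟨?_, fun h => ?_⟩
  · exact hN 2 (hE k t E τ hF 2 4 (DTWx.sqF_four E) (by norm_num) (fun _ => by norm_num))
  · exact hN (-1) (hE k t E τ hF (-1) 1 (DTWx.sqF_one E) (by norm_num)
      (fun h' => absurd (DTWx.t_eq h) h'))

end StarkC.ABS
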