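import Pool.Agent.ABS.StD2

/-!
# ABS, part D, module DUN: a unit of norm `-1` in `ℚ(ζ)⁺`, `ζ` of order `2 ^ k`
-/

set_option autoImplicit false

open NumberField NumberField.InfinitePlace
open scoped Classical

namespace ABS

namespace DUN

open Polynomial

/-- `X² - 2`. -/
noncomputable def T : Polynomial ℤ := Polynomial.X ^ 2 - Polynomial.C 2

/-- `X² - 2`, and `P (j + 1) = P j (X² - 2)`. -/
noncomputable def P : ℕ → Polynomial ℤ
  | 0 => T
  | j + 1 => (P j).comp T

theorem T_monic : T.Monic := monic_X_pow_sub_C 2 (by norm_num)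

theorem T_natDegree : T.natDegree = 2 := natDegree_X_pow_sub_C

theorem T_eval (x : ℤ) : T.eval x = x ^ 2 - 2 := by
  unfold T
  simp

theorem T_aeval {R : Type} [CommRing R] (x : R) : eval₂ (Int.castRingHom R) x T = x ^ 2 - 2 := by
  unfold T
  rw [eval₂_sub, eval₂_pow, eval₂_X, eval₂_C, map_ofNat]

theorem P_monic_natDegree (j : ℕ) : (P j).Monic ∧ (P j).natDegree = 2 ^ (j + 1) := by
  induction j with
  | zero => exact ⟨T_monic, T_natDegree⟩
  | succ j ih =>
    refine ⟨ih.1.comp T_monic (by rw [T_natDegree]; norm_num), ?_⟩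
    show ((P j).comp T).natDegree = _
    rw [natDegree_comp, ih.2, T_natDegree, pow_succ 2 (j + 1)]

theorem aeval_P {R : Type} [CommRing R] (j : ℕ) : ∀ z w : R, z * w = 1 →
    eval₂ (Int.castRingHom R) (z + w) (P j) = z ^ (2 ^ (j + 1)) + w ^ (2 ^ (j + 1)) := by
  induction j with
  | zero =>
    intro z w h
    have h1 : z ^ 2 ^ (0 + 1) + w ^ 2 ^ (0 + 1) = (z + w) ^ 2 - 2 * (z * w) := by ring
    rw [h1, h, mul_one]
    exact T_aeval _
  | succ j ih =>
    intro z w h
    show eval₂ (Int.castRingHom R) (z + w) ((P j).comp T) = _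
    have h1 : eval₂ (Int.castRingHom R) (z + w) T = z ^ 2 + w ^ 2 := by
      have h1 : z ^ 2 + w ^ 2 = (z + w) ^ 2 - 2 * (z * w) := by ring
      rw [h1, h, mul_one]
      exact T_aeval _
    rw [eval₂_comp, h1, ih (z ^ 2) (w ^ 2) (by rw [← mul_pow, h, one_pow]), ← pow_mul, ← pow_mul,
      ← pow_succ']

theorem P_eval (j : ℕ) (x : ℤ) : (P (j + 1)).eval x = (P j).eval (x ^ 2 - 2) := by
  show ((P j).comp T).eval x = _
  rw [eval_comp, T_eval]

theorem P_two (j : ℕ) : (P j).eval 2 = 2 ∧ (P j).eval (-2) = 2 ∧ (P j).eval (-1) = -1 := by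
  induction j with
  | zero =>
    refine ⟨?_, ?_, ?_⟩
    · exact (T_eval _).trans (by norm_num)
    · exact (T_eval _).trans (by norm_num)
    · exact (T_eval _).trans (by norm_num)
  | succ j ih =>
    rw [P_eval, P_eval, P_eval]
    norm_num
    exact ⟨ih.1, ih.2.2⟩

theorem P_zero (j : ℕ) : (P j).coeff 0 = 2 ∨ (P j).coeff 0 = -2 := by
  rw [coeff_zero_eq_eval_zero]
  cases j with
  | zero =>
    right
    exact (T_eval _).trans (by norm_num)
  | succ j =>
    left
    rw [P_eval]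
    norm_num
    exact (P_two j).2.1

theorem P_map (j : ℕ) :
    (P j).map (Int.castRingHom (ZMod 2)) = Polynomial.X ^ (2 ^ (j + 1)) := by
  have h0 : T.map (Int.castRingHom (ZMod 2)) = Polynomial.X ^ 2 := by
    have h1 : (2 : Polynomial (ZMod 2)) = 0 := by
      have h2 : (2 : Polynomial (ZMod 2)) = Polynomial.C (2 : ZMod 2) :=
        (map_ofNat Polynomial.C 2).symm
      rw [h2, show (2 : ZMod 2) = 0 from rfl, C_0]
    unfold T
    simp [h1]
  induction j with
  | zero => exact h0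
  | succ j ih =>
    show ((P j).comp T).map _ = _
    rw [Polynomial.map_comp, ih, h0, X_pow_comp, ← pow_mul, ← pow_succ']

theorem P_irr (j : ℕ) : Irreducible (P j) := by
  obtain ⟨h1, h2⟩ := P_monic_natDegree j
  have hp : (Ideal.span {(2 : ℤ)}).IsPrime :=
    (Ideal.span_singleton_prime (by norm_num)).2 Int.prime_two
  refine (h1.isEisensteinAt_of_mem_of_notMem hp.ne_top ?_ ?_).irreducible hp h1.isPrimitive ?_
  · intro n hn
    rw [Ideal.mem_span_singleton]
    have h3 : (((P j).coeff n : ℤ) : ZMod 2) = 0 := by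
      have h4 := congrArg (fun p => coeff p n) (P_map j)
      simp only [coeff_map, coeff_X_pow] at h4
      rw [if_neg (by omega)] at h4
      exact h4
    exact (ZMod.intCast_zmod_eq_zero_iff_dvd _ 2).1 h3
  · rw [Ideal.span_singleton_pow, Ideal.mem_span_singleton]
    rcases P_zero j with h | h <;> rw [h] <;> norm_num
  · rw [h2]
    positivity

theorem P_irrQ (j : ℕ) : Irreducible ((P j).map (Int.castRingHom ℚ)) :=
  (IsPrimitive.Int.irreducible_iff_irreducible_map_cast (P_monic_natDegree j).1.isPrimitive).1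
    (P_irr j)

/-- The norm of a generator. -/
theorem norm_gen {K L : Type} [Field K] [Field L] [Algebra K L] [FiniteDimensional K L] (x : L)
    (h : (minpoly K x).natDegree = Module.finrank K L) :
    Algebra.norm K x = (-1) ^ (minpoly K x).natDegree * (minpoly K x).coeff 0 := by
  have hint : IsIntegral K x := IsIntegral.of_finite K x
  have hfin : Module.finrank (IntermediateField.adjoin K {x}) L = 1 := by
    have h3 := Module.finrank_mul_finrank K (IntermediateField.adjoin K {x}) L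
    rw [IntermediateField.adjoin.finrank hint, h] at h3
    exact Nat.eq_of_mul_eq_mul_left Module.finrank_pos (h3.trans (mul_one _).symm)
  rw [Algebra.norm_eq_norm_adjoin, hfin, pow_one,
    ← IntermediateField.adjoin.powerBasis_gen hint,
    Algebra.PowerBasis.norm_gen_eq_coeff_zero_minpoly,
    IntermediateField.adjoin.powerBasis_gen, IntermediateField.adjoin.powerBasis_dim,
    IntermediateField.minpoly_gen]

/-- The norm of `η + 1` for a root `η` of `P j` which generates the field. -/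
theorem norm_add_one {E : Type} [Field E] [NumberField E] (j : ℕ) (η : E)
    (h : eval₂ (Int.castRingHom E) η (P j) = 0) (hE : Module.finrank ℚ E = 2 ^ (j + 1)) :
    Algebra.norm ℚ (η + 1) = -1 := by
  obtain ⟨h1, h2⟩ := P_monic_natDegree j
  have hm : minpoly ℚ η = (P j).map (Int.castRingHom ℚ) := by
    refine (minpoly.eq_of_irreducible_of_monic (P_irrQ j) ?_ (h1.map _)).symm
    rw [aeval_def, eval₂_map, RingHom.ext_int ((algebraMap ℚ E).comp (Int.castRingHom ℚ))
      (Int.castRingHom E)]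
    exact h
  have hm1 : minpoly ℚ (η + 1) = ((P j).map (Int.castRingHom ℚ)).comp
      (Polynomial.X - Polynomial.C 1) := by
    rw [← hm, ← minpoly.add_algebraMap, map_one]
  have hdeg : (minpoly ℚ (η + 1)).natDegree = 2 ^ (j + 1) := by
    rw [hm1, natDegree_comp, natDegree_X_sub_C, mul_one, natDegree_map_eq_of_injective
      (RingHom.injective_int (Int.castRingHom ℚ)), h2]
  rw [norm_gen (η + 1) (hdeg.trans hE.symm), hdeg, hm1, coeff_zero_eq_eval_zero, eval_comp]
  have h4 : ((P j).map (Int.castRingHom ℚ)).eval (-1) = -1 := by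
    have h5 : ((P j).map (Int.castRingHom ℚ)).eval (((-1 : ℤ) : ℚ)) = (((P j).eval (-1) : ℤ) : ℚ) :=
      eval_intCast_map (Int.castRingHom ℚ) (P j) (-1)
    rw [(P_two j).2.2] at h5
    push_cast at h5
    exact h5
  have h6 : (-1 : ℚ) ^ 2 ^ (j + 1) = 1 := by
    rw [pow_succ', pow_mul]
    norm_num
  rw [h6, one_mul]
  have h7 : eval 0 (Polynomial.X - Polynomial.C 1 : Polynomial ℚ) = -1 := by simp
  rw [h7, h4]

/-- A fixed element of a quadratic extension. -/
theorem mem_of_fixed {E C : Type} [Field E] [Field C] [Algebra E C] [FiniteDimensional E C]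
    [IsGalois E C] (hr : Module.finrank E C = 2) (τ : C ≃ₐ[E] C) (z x : C) (hz : τ z ≠ z)
    (hx : τ x = x) : ∃ y : E, algebraMap E C y = x := by
  refine (IsGalois.mem_range_algebraMap_iff_fixed (F := E) x).2 fun f => ?_
  have hτ : τ ≠ 1 := by
    rintro rfl
    exact hz rfl
  have hc : Nat.card (C ≃ₐ[E] C) = 2 := by
    rw [IsGalois.card_aut_eq_finrank, hr]
  obtain ⟨y, hy, hu⟩ := (Nat.card_eq_two_iff' (1 : C ≃ₐ[E] C)).1 hc
  by_cases hf : f = 1
  · rw [hf]
    rfl
  · have h1 : f = y := hu f hf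
    have h2 : τ = y := hu τ hτ
    rw [h1, ← h2]
    exact hx

end DUN

open DUN in
theorem DUN_thm : Stmt_DUN := by
  intro k t E _ _ _ τ hF ht
  obtain ⟨j, rfl⟩ : ∃ j, k = j + 3 := ⟨k - 3, by have := hF.k3; omega⟩
  have : NeZero (2 ^ (j + 3)) := ⟨by positivity⟩
  have hcy : IsCyclotomicExtension {2 ^ (j + 3)} ℚ (CyclotomicField (2 ^ (j + 3)) ℚ) :=
    CyclotomicField.isCyclotomicExtension _ _
  have hgal : IsGalois ℚ (CyclotomicField (2 ^ (j + 3)) ℚ) :=
    IsCyclotomicExtension.isGalois {2 ^ (j + 3)} ℚ _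
  have hgal' : IsGalois E (CyclotomicField (2 ^ (j + 3)) ℚ) :=
    IsGalois.tower_top_of_isGalois ℚ E _
  have hζ := IsCyclotomicExtension.zeta_spec (2 ^ (j + 3)) ℚ (CyclotomicField (2 ^ (j + 3)) ℚ)
  obtain ⟨ζ, hζ'⟩ : ∃ z, z = IsCyclotomicExtension.zeta (2 ^ (j + 3)) ℚ
    (CyclotomicField (2 ^ (j + 3)) ℚ) := ⟨_, rfl⟩
  rw [← hζ'] at hζ
  clear hζ'
  have hζ0 : ζ ≠ 0 := hζ.ne_zero (NeZero.ne _)
  -- `τ ζ = ζ⁻¹`
  have hτ : τ ζ = ζ⁻¹ := by
    rw [hF.act ζ hζ.pow_eq_one]
    have h1 : ((t + 1 : ℕ) : ZMod (2 ^ (j + 3))) = 0 := by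
      push_cast
      rw [ht]
      ring
    have h2 : 2 ^ (j + 3) ∣ t + 1 := (ZMod.natCast_eq_zero_iff _ _).1 h1
    have h3 : ζ ^ (t + 1) = 1 := (hζ.pow_eq_one_iff_dvd _).2 h2
    exact eq_inv_of_mul_eq_one_left ((pow_succ ζ t).symm.trans h3)
  have hne : τ ζ ≠ ζ := by
    rw [hτ]
    intro h
    have h1 : ζ ^ 2 = 1 := by
      rw [pow_two]
      nth_rewrite 1 [← h]
      exact inv_mul_cancel₀ hζ0
    have h2 := (hζ.pow_eq_one_iff_dvd 2).1 h1
    have h3 := Nat.le_of_dvd (by norm_num) h2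
    have h4 : 2 ^ (j + 3) = 2 ^ j * 8 := by rw [pow_add]; norm_num
    have h5 : 0 < 2 ^ j := by positivity
    omega
  have hfix : τ (ζ + ζ⁻¹) = ζ + ζ⁻¹ := by
    rw [map_add, map_inv₀, hτ, inv_inv]
    exact add_comm _ _
  obtain ⟨η, hη⟩ := mem_of_fixed hF.rank τ ζ (ζ + ζ⁻¹) hne hfix
  -- the polynomial of `η`
  have hP : Polynomial.eval₂ (Int.castRingHom E) η (P j) = 0 := by
    have h1 : Polynomial.eval₂ (Int.castRingHom (CyclotomicField (2 ^ (j + 3)) ℚ))
        (algebraMap E (CyclotomicField (2 ^ (j + 3)) ℚ) η) (P j) = 0 := by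
      rw [hη, aeval_P j ζ ζ⁻¹ (mul_inv_cancel₀ hζ0)]
      have h2 : (ζ ^ 2 ^ (j + 1)) ^ 2 = -1 := by
        rw [← pow_mul, ← pow_succ]
        have h3 : IsPrimitiveRoot (ζ ^ 2 ^ (j + 1 + 1)) 2 := by
          refine hζ.pow (NeZero.pos _) ?_
          rw [← pow_succ]
        exact h3.eq_neg_one_of_two_right
      have h3 : ζ ^ 2 ^ (j + 1) ≠ 0 := pow_ne_zero _ hζ0
      rw [inv_pow]
      field_simp
      rw [h2]
      ring
    have h2 := Polynomial.hom_eval₂ (P j) (Int.castRingHom E)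
      (algebraMap E (CyclotomicField (2 ^ (j + 3)) ℚ)) η
    rw [RingHom.ext_int ((algebraMap E (CyclotomicField (2 ^ (j + 3)) ℚ)).comp
      (Int.castRingHom E)) (Int.castRingHom _), h1] at h2
    exact (map_eq_zero _).1 h2
  have hdeg : Module.finrank ℚ E = 2 ^ (j + 1) := by
    have h1 := Module.finrank_mul_finrank ℚ E (CyclotomicField (2 ^ (j + 3)) ℚ)
    rw [hF.rank, IsCyclotomicExtension.Rat.finrank (2 ^ (j + 3)) (CyclotomicField (2 ^ (j + 3)) ℚ),
      Nat.totient_prime_pow_succ Nat.prime_two] at h1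
    have h2 : 2 ^ (j + 2) = 2 ^ (j + 1) * 2 := pow_succ _ _
    omega
  have hnorm := norm_add_one j η hP hdeg
  have hint : IsIntegral ℤ (η + 1) :=
    IsIntegral.add ⟨P j, (P_monic_natDegree j).1, hP⟩ isIntegral_one
  obtain ⟨x, hx⟩ : ∃ x : 𝓞 E, (x : E) = η + 1 := ⟨⟨η + 1, hint⟩, rfl⟩
  have hu : IsUnit x := by
    rw [NumberField.isUnit_iff_norm, RingOfIntegers.coe_norm, hx, hnorm]
    norm_num
  refine ⟨hu.unit, ?_⟩
  rw [IsUnit.unit_spec, hx, hnorm]

end ABS
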