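import Pool.Agent.ABS.StD2

/-!
# ABS, part D, module DUR (helper90): odd primes are unramified in `E`
-/

open NumberField NumberField.InfinitePlace
open scoped Classical

namespace ABS

open Ideal UniqueFactorizationMonoid in
theorem DUR_thm : Stmt_DUR := by
  intro k t E _ _ _ τ hFD p hp hp2
  have hpF : Fact p.Prime := ⟨hp⟩
  have h2k : NeZero (2 ^ k) := ⟨pow_ne_zero _ (by norm_num)⟩
  have hcy : IsCyclotomicExtension {2 ^ k} ℚ (CyclotomicField (2 ^ k) ℚ) :=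
    CyclotomicField.isCyclotomicExtension _ _
  have hpn : ¬ p ∣ 2 ^ k := fun h =>
    hp2 ((Nat.prime_dvd_prime_iff_eq hp Nat.prime_two).1 (hp.dvd_of_dvd_pow h))
  have hpZ : (span {(p : ℤ)} : Ideal ℤ) ≠ ⊥ := by
    rw [ne_eq, span_singleton_eq_bot]
    exact_mod_cast hp.ne_zero
  have hmax : (span {(p : ℤ)} : Ideal ℤ).IsMaximal := Int.ideal_span_isMaximal_of_prime p
  have hmap : (span {(p : ℤ)} : Ideal ℤ).map (algebraMap ℤ (𝓞 E)) = span {(p : 𝓞 E)} := by
    rw [Ideal.map_span, Set.image_singleton, map_natCast]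
  have hT0 : (span {(p : ℤ)} : Ideal ℤ).map (algebraMap ℤ (𝓞 E)) ≠ ⊥ :=
    map_ne_bot_of_ne_bot hpZ
  rw [← hmap, Multiset.nodup_iff_count_le_one]
  intro Q
  by_cases hQ : Q ∈ normalizedFactors ((span {(p : ℤ)} : Ideal ℤ).map (algebraMap ℤ (𝓞 E)))
  · have hQ' := hQ
    rw [← mem_primesOver_iff_mem_normalizedFactors _ hpZ] at hQ'
    obtain ⟨hQ1, hQ2⟩ := hQ'
    rw [← IsDedekindDomain.ramificationIdx_eq_normalizedFactors_count _ _ hT0]
    obtain ⟨⟨R, hR1, hR2⟩⟩ :=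
      (inferInstance : Nonempty (primesOver Q (𝓞 (CyclotomicField (2 ^ k) ℚ))))
    have hR3 : R.LiesOver (span {(p : ℤ)} : Ideal ℤ) := LiesOver.trans R Q _
    have h1 : Q.ramificationIdx ℤ ∣ R.ramificationIdx ℤ := ramificationIdx_below_dvd Q R
    rw [IsCyclotomicExtension.Rat.ramificationIdx_eq_of_not_dvd (m := 2 ^ k) p _ R hpn] at h1
    exact (Nat.dvd_one.1 h1).le
  · rw [Multiset.count_eq_zero_of_notMem hQ]
    exact Nat.zero_le _

end ABS
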