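import Pool.Agent.ABS.StG
import Pool.Agent.ABS.COREB

/-!
# ABS, module FRT: rationality for the trivial character
-/

set_option autoImplicit false

open NumberField IsDedekindDomain
open scoped TensorProduct Classical

namespace StarkC.ABS

namespace FRTx

theorem finrank_one : Module.finrank ℚ (Cyc 1) = 1 := by
  have h := COREBx.isCyc 1 one_ne_zero
  have h1 := IsCyclotomicExtension.finrank (n := 1) (Cyc 1)
    (Polynomial.cyclotomic.irreducible_rat Nat.one_pos)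
  rw [h1, Nat.totient_one]

theorem ex_one : Ex 1 = {0} := by
  unfold Ex
  rw [Finset.range_one]
  rfl

theorem cSum_one {G : Type} [Group G] : cSum 1 (1 : G →* ℂˣ) = fun _ => 1 := by
  funext g
  unfold cSum
  rw [ex_one, Finset.sum_singleton, pow_zero]

theorem nm_rat (b : ℚ) : nm 1 (algebraMap ℚ (Cyc 1) b) = (b : ℂ) := by
  unfold nm
  rw [Algebra.norm_algebraMap, finrank_one, pow_one]

section

variable {K L : Type} [Field K] [NumberField K] [Field L] [NumberField L] [Algebra K L]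

omit [NumberField K] in
theorem mem_inv {T : Set (HeightOneSpectrum (𝓞 L))} (hT : StableT K T) (x : XC L T) :
    x ∈ (repX K T hT).invariants ↔
      x.val ∈ StarkP.ABS.fixP (⊤ : Subgroup (L ≃ₐ[K] L)) := by
  rw [Representation.mem_invariants]
  constructor
  · intro h b _
    exact congrArg (fun y : XC L T => y.val) (h b)
  · intro h g
    exact Subtype.ext (h g (Subgroup.mem_top g))

/-- the invariants and the fixed combinations of places -/
noncomputable def eqv {T : Set (HeightOneSpectrum (𝓞 L))} (hT : StableT K T) :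
    (repX K T hT).invariants ≃ₗ[ℂ]
      ↥(StarkP.XC L T ⊓ StarkP.ABS.fixP (⊤ : Subgroup (L ≃ₐ[K] L))) where
  toFun x := ⟨x.1.val, x.1.2, (mem_inv hT x.1).1 x.2⟩
  map_add' _ _ := rfl
  map_smul' _ _ := rfl
  invFun y := ⟨(⟨y.1, y.2.1⟩ : XC L T), (mem_inv hT (⟨y.1, y.2.1⟩ : XC L T)).2 y.2.2⟩
  left_inv _ := rfl
  right_inv _ := rfl

theorem inf_eq [IsGalois K L] (s : ℂ) :
    logL (K := K) (L := L) (fun _ => 1) ∅ s = logL (K := K) (L := K) (fun _ => 1) ∅ s := by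
  unfold logL
  refine tsum_congr fun p => ?_
  have h := LINF_thm K K L (fun _ => 1) (fun _ _ => rfl) p.1 (p.2 + 1)
  rw [h]

/-- the regulator of the trivial character -/
theorem reg_one (hREGI : Stmt_REGI) [IsGalois K L]
    (hF : ∀ (Θ : ((L → ℝ) →₀ ℂ) →ₗ[ℂ] ((L → ℝ) →₀ ℂ)),
      StarkP.IsTheta K (StarkP.aboveSet K L ∅) Θ →
      ∃ a : ℚ, a ≠ 0 ∧
        StarkP.detOn Θ (StarkP.XC L (StarkP.aboveSet K L ∅) ⊓
          StarkP.ABS.fixP (⊤ : Subgroup (L ≃ₐ[K] L))) =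
            (((a : ℝ) * Units.regulator K : ℝ) : ℂ))
    (φ : XQ L (aboveSet K L ((∅ : Finset (HeightOneSpectrum (𝓞 K))) :
      Set (HeightOneSpectrum (𝓞 K)))) ≃ₗ[ℚ]
      QU L (aboveSet K L ((∅ : Finset (HeightOneSpectrum (𝓞 K))) :
      Set (HeightOneSpectrum (𝓞 K)))))
    (Θ : XC L (aboveSet K L ((∅ : Finset (HeightOneSpectrum (𝓞 K))) :
      Set (HeightOneSpectrum (𝓞 K)))) →ₗ[ℂ]
      XC L (aboveSet K L ((∅ : Finset (HeightOneSpectrum (𝓞 K))) :
      Set (HeightOneSpectrum (𝓞 K)))))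
    (hΘ : IsPhiTheta K (aboveSet K L ((∅ : Finset (HeightOneSpectrum (𝓞 K))) :
      Set (HeightOneSpectrum (𝓞 K)))) φ Θ) :
    ∃ a : ℚ, a ≠ 0 ∧ Reg (aboveSet K L ((∅ : Finset (HeightOneSpectrum (𝓞 K))) :
      Set (HeightOneSpectrum (𝓞 K)))) (linRep (1 : (L ≃ₐ[K] L) →* ℂˣ)) Θ =
        (((a : ℝ) * Units.regulator K : ℝ) : ℂ) := by
  have hfin : (aboveSet K L ((∅ : Finset (HeightOneSpectrum (𝓞 K))) :
      Set (HeightOneSpectrum (𝓞 K)))).Finite :=
    IND.aboveSet_finite _ (Finset.finite_toSet _)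
  have hT : StableT K (aboveSet K L ((∅ : Finset (HeightOneSpectrum (𝓞 K))) :
      Set (HeightOneSpectrum (𝓞 K)))) := STB_thm K L _
  have hemp : aboveSet K L ((∅ : Finset (HeightOneSpectrum (𝓞 K))) :
      Set (HeightOneSpectrum (𝓞 K))) = StarkP.aboveSet K L ∅ := by
    rw [Finset.coe_empty]
    rfl
  rw [← hemp] at hF
  generalize aboveSet K L ((∅ : Finset (HeightOneSpectrum (𝓞 K))) :
      Set (HeightOneSpectrum (𝓞 K))) = T at *
  obtain ⟨Θ', hΘ'⟩ := LinearMap.exists_extend (p := XCsub L T)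
    (XC.val ∘ₗ Θ : XCsub L T →ₗ[ℂ] ((L → ℝ) →₀ ℂ))
  have h1 : ∀ x : XC L T, Θ' x.val = (Θ x).val := fun x => LinearMap.congr_fun hΘ' x
  have hIs : StarkP.IsTheta K T Θ' := StarkB.isTheta_of hT hfin φ Θ hΘ Θ' h1
  obtain ⟨a, ha, hform⟩ := hF Θ' hIs
  refine ⟨a, ha, ?_⟩
  have hcomm : ∀ g : L ≃ₐ[K] L, Θ ∘ₗ repX K T hT g = repX K T hT g ∘ₗ Θ :=
    fun g => THC_thm XRAT_thm K L T hT φ Θ hfin hΘ g
  have hinv : ∀ x ∈ (repX K T hT).invariants, Θ x ∈ (repX K T hT).invariants := by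
    intro x hx
    rw [Representation.mem_invariants] at hx ⊢
    intro g
    have h2 := LinearMap.congr_fun (hcomm g) x
    have h3 := hx g
    have h4 : Θ (repX K T hT g x) = repX K T hT g (Θ x) := h2
    rw [← h4, h3]
  have hR := hREGI K L T hT Θ hfin hcomm hinv
  have hd2 : StarkP.detOn Θ' (StarkP.XC L T ⊓
      StarkP.ABS.fixP (⊤ : Subgroup (L ≃ₐ[K] L))) = LinearMap.det (Θ.restrict hinv) :=
    StarkB.detOn_eq (M := (repX K T hT).invariants)
      Θ' (StarkP.XC L T ⊓ StarkP.ABS.fixP (⊤ : Subgroup (L ≃ₐ[K] L)))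
      (fun x hx => by
        have h3 : Θ' x = (Θ (⟨x, hx.1⟩ : XC L T)).val := h1 (⟨x, hx.1⟩ : XC L T)
        rw [h3]
        exact ⟨(Θ (⟨x, hx.1⟩ : XC L T)).2, (mem_inv hT _).1
          (hinv _ ((mem_inv hT (⟨x, hx.1⟩ : XC L T)).2 hx.2))⟩)
      (Θ.restrict hinv) (eqv hT) (fun x => h1 x.1)
  rw [hR, ← hd2, hform]

end

end FRTx

open FRTx in
theorem FRT_thm : Stmt_FRT := by
  intro hF hREGI hZETA hstep K L _ _ _ _ _ _ S
  induction S using Finset.induction_on with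
  | insert v S hv ih =>
    exact hstep 1 K L 1 S v Nat.one_pos
      (MonoidHom.ext fun g => by rw [MonoidHom.pow_apply, pow_one]) hv ih
  | empty =>
    intro φ Θ hΘ
    obtain ⟨a, ha, hreg⟩ := reg_one hREGI (hF K L) φ Θ hΘ
    obtain ⟨Z, hZ, hZ0⟩ := hZETA K
    have hh : (classNumber K : ℚ) ≠ 0 := Nat.cast_ne_zero.2 (classNumber_ne_zero K)
    have hw : (Units.torsionOrder K : ℚ) ≠ 0 := Nat.cast_ne_zero.2 (Units.torsionOrder_ne_zero K)
    have hb : -(a * (Units.torsionOrder K : ℚ) / (classNumber K : ℚ)) ≠ 0 :=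
      neg_ne_zero.2 (div_ne_zero (mul_ne_zero ha hw) hh)
    refine ⟨Z, algebraMap ℚ (Cyc 1) (-(a * (Units.torsionOrder K : ℚ) / (classNumber K : ℚ))),
      ⟨hZ.1, fun s hs => ?_⟩, ?_, ?_⟩
    · rw [hZ.2 s hs, cSum_one, Finset.coe_empty, inf_eq (K := K) (L := L)]
    · exact fun h => hb ((map_eq_zero _).1 h)
    · have h0 : (1 : (L ≃ₐ[K] L) →* ℂˣ) ^ 0 = 1 :=
        MonoidHom.ext fun g => by
          rw [MonoidHom.pow_apply, pow_zero]
          rfl
      unfold cReg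
      rw [ex_one, Finset.prod_singleton, h0, hreg, hZ0, nm_rat]
      have hh' : (classNumber K : ℂ) ≠ 0 := Nat.cast_ne_zero.2 (classNumber_ne_zero K)
      have hw' : (Units.torsionOrder K : ℂ) ≠ 0 :=
        Nat.cast_ne_zero.2 (Units.torsionOrder_ne_zero K)
      push_cast
      field_simp

end StarkC.ABS
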