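import Pool.Agent.ABS.StD3
import Pool.Agent.ABS.LFB
import Pool.Agent.ABS.LAST
import Pool.Agent.ABS.FRT
import Pool.Agent.ABS.COMB

/-!
# ABS, part D, module DZH: the trivial character of a subgroup, `S` empty
-/

set_option autoImplicit false

open NumberField IsDedekindDomain
open scoped TensorProduct Classical

namespace StarkC.ABS

namespace DZHx

theorem above_empty {K L : Type} [Field K] [NumberField K] [Field L] [NumberField L]
    [Algebra K L] (F : IntermediateField K L) :
    aboveSet F L ((∅ : Finset (HeightOneSpectrum (𝓞 F))) : Set (HeightOneSpectrum (𝓞 F))) =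
      aboveSet K L ((∅ : Finset (HeightOneSpectrum (𝓞 K))) : Set (HeightOneSpectrum (𝓞 K))) := by
  ext w
  unfold aboveSet
  simp

end DZHx

open DZHx in
theorem DZH_thm : Stmt_DZH := by
  intro hZETA hOne K L _ _ _ _ _ _ φ Θ H hφ
  obtain ⟨Z, hZ, hZ0⟩ := hZETA (IntermediateField.fixedField H)
  obtain ⟨F, α, hF, hα, hE⟩ := COMBx.pp_of
    (hOne (IntermediateField.fixedField H) L
      (∅ : Finset (HeightOneSpectrum (𝓞 (IntermediateField.fixedField H)))))
    (above_empty (IntermediateField.fixedField H)) φ Θ (IND.isPhiTheta_sub _ hφ)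
  have hfin : Module.Finite ℚ (Cyc 1) :=
    Module.finite_of_finrank_pos (by rw [FRTx.finrank_one]; exact Nat.one_pos)
  have hlift : liftChar H (1 : H →* ℂˣ) = 1 := MonoidHom.ext fun _ => rfl
  refine ⟨Z, Algebra.norm ℚ α, Algebra.norm_ne_zero_iff.2 hα, ⟨hZ.1, fun s hs => ?_⟩, hZ0, ?_⟩
  · rw [hZ.2 s hs, LFBx.sub_eq H s hs, LFBx.inf_eq]
  · have h1 : meromorphicTrailingCoeffAt F 0 = meromorphicTrailingCoeffAt Z 0 := by
      refine LASTx.trail_unique hF.1 hZ.1 fun s hs => ?_
      rw [hF.2 s hs, hZ.2 s hs, FRTx.cSum_one, Finset.coe_empty, LFBx.inf_eq]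
    have h0 : (1 : (L ≃ₐ[IntermediateField.fixedField H] L) →* ℂˣ) ^ 0 = 1 :=
      MonoidHom.ext fun g => by
        rw [MonoidHom.pow_apply, pow_zero]
        rfl
    unfold cReg at hE
    rw [FRTx.ex_one, Finset.prod_singleton, h0, h1] at hE
    rw [hlift, hE]
    rfl

end StarkC.ABS
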