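import Pool.Agent.ABS.HOF2

/-!
# Project ABS (MP_46b841_nt): groups with elementary abelian Sylow subgroups (helper72, helper91)
-/

set_option autoImplicit false

open scoped Classical

namespace StarkC.ABS

open StarkP (rootField charField trChar traceOver)
open SOL3x (trF Cj Fx)

namespace HOF3x

open HOF2x

theorem monC_sum {G : Type} [Group G] [Fintype G] (n m : ℕ) (θ : Fin m → G → ℂ)
    (h : ∀ i, MonC n (θ i)) : MonC n fun g => ∑ i, θ i g := by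
  choose r H ψ c hψ hc using h
  let e := Fintype.equivFin (Σ i : Fin m, Fin (r i))
  refine ⟨Fintype.card (Σ i : Fin m, Fin (r i)), fun k => H (e.symm k).1 (e.symm k).2,
    fun k => ψ (e.symm k).1 (e.symm k).2, fun k => c (e.symm k).1 (e.symm k).2,
    fun k => hψ _ _, fun g => ?_⟩
  have h1 : ∑ i, θ i g = ∑ p : (Σ i : Fin m, Fin (r i)),
      (c p.1 p.2 : ℂ) * indFun (H p.1 p.2) (extZ (ψ p.1 p.2)) g := by
    rw [Fintype.sum_sigma]
    exact Finset.sum_congr rfl fun i _ => hc i g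
  show ∑ i, θ i g = _
  rw [h1]
  exact (Equiv.sum_comp e.symm fun p : (Σ i : Fin m, Fin (r i)) =>
    (c p.1 p.2 : ℂ) * indFun (H p.1 p.2) (extZ (ψ p.1 p.2)) g).symm

section

variable {G : Type} [Group G] [Fintype G] {T : Subgroup G} {ψ : T →* ℂˣ} {P : Subgroup G}

omit [Fintype G] in
/-- The data for a conjugate character. -/
theorem hol_pow (h : HolD T ψ P) {q : ℕ} (hq : (orderOf ψ).Coprime q) :
    HolD T (ψ ^ q) P ∧ orderOf (ψ ^ q) = orderOf ψ := by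
  refine ⟨⟨h.norm, h.disj, h.gen, ?_, ?_⟩, ?_⟩
  · intro x hx
    obtain ⟨s, hs⟩ := h.act x hx
    refine ⟨s, fun a b hb => ?_⟩
    show ψ b ^ q = (ψ a ^ q) ^ s
    rw [hs a b hb, ← pow_mul, ← pow_mul, mul_comm]
  · intro x hx hab
    refine h.faith x hx fun a b hb => ?_
    have h1 : ψ b ^ q = ψ a ^ q := hab a b hb
    have h2 : (ψ b * (ψ a)⁻¹) ^ q = 1 := by rw [mul_pow, inv_pow, h1, mul_inv_cancel]
    have h3 : (ψ b * (ψ a)⁻¹) ^ orderOf ψ = 1 := by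
      rw [mul_pow, inv_pow, (ord_dvd ψ _).1 dvd_rfl, (ord_dvd ψ _).1 dvd_rfl, inv_one, mul_one]
    have h4 := Nat.dvd_gcd (orderOf_dvd_of_pow_eq_one h3) (orderOf_dvd_of_pow_eq_one h2)
    rw [hq] at h4
    exact mul_inv_eq_one.1 (orderOf_eq_one_iff.1 (Nat.dvd_one.1 h4))
  · refine Nat.dvd_antisymm ?_ ?_
    · rw [ord_dvd]
      intro t
      show (ψ t ^ q) ^ orderOf ψ = 1
      rw [← pow_mul, mul_comm, pow_mul, (ord_dvd ψ _).1 dvd_rfl, one_pow]
    · have h1 : orderOf ψ ∣ q * orderOf (ψ ^ q) := by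
        rw [ord_dvd]
        intro t
        rw [pow_mul]
        exact (ord_dvd (ψ ^ q) _).1 dvd_rfl t
      exact hq.dvd_of_dvd_mul_left h1

/-- The trace over a field contained in `ℚ(ζ_(ℓ^j))`. -/
theorem trF_F (h : HolD T ψ P) (F : IntermediateField ℚ ℂ) (ℓ j : ℕ) (hℓ : ℓ.Prime)
    (hF : F ≤ rootField (ℓ ^ j)) : ∃ a : ℕ, MonC (ℓ ^ a) (trF F (indFun T (extZ ψ))) := by
  have hN0 : 0 < orderOf ψ := s_pos
  obtain ⟨a, n, hln, hN⟩ := Nat.exists_eq_pow_mul_and_not_dvd hN0.ne' ℓ hℓ.ne_one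
  refine ⟨a, ?_⟩
  have hMn : (ℓ ^ a).Coprime n := Nat.Coprime.pow_left a ((Nat.Prime.coprime_iff_not_dvd hℓ).2 hln)
  have hM : 0 < ℓ ^ a := pow_pos hℓ.pos a
  have hn : 0 < n := by
    rcases Nat.eq_zero_or_pos n with h0 | h0
    · rw [h0] at hln
      exact absurd (dvd_zero ℓ) hln
    · exact h0
  have hj0 : 0 < ℓ ^ j := pow_pos hℓ.pos j
  have hFd : FiniteDimensional ℚ F := ZENx.fin_of hj0 F hF
  have hMd : FiniteDimensional ℚ (rootField (ℓ ^ a)) := ZENx.fin_of hM _ le_rfl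
  let X : Finset (G → ℂ) := (Ex (orderOf ψ)).image (f (G := G) ψ)
  have hXm : ∀ (σ : ℂ ≃+* ℂ) (t : ℕ), (orderOf ψ).Coprime t → gcj σ (f (G := G) ψ t) ∈ X := by
    intro σ t ht
    obtain ⟨u, hu, hact⟩ := VINx.act σ (orderOf ψ) hN0
    rw [gcj_f σ u hact, ← f_mod]
    exact Finset.mem_image_of_mem _ (ZTRx.mod_mem hN0 (Nat.Coprime.mul_right ht hu))
  have hX : ∀ p ∈ X, ∀ σ : ℂ ≃+* ℂ, gcj σ p ∈ X := by
    intro p hp σ
    obtain ⟨t, ht, rfl⟩ := Finset.mem_image.1 hp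
    exact hXm σ t (Finset.mem_filter.1 ht).2
  have hint : ∀ p ∈ X, ∀ x, IsIntegral ℚ (p x) := by
    intro p hp x
    obtain ⟨t, ht, rfl⟩ := Finset.mem_image.1 hp
    exact f_int h t x
  have hXF : ∀ p ∈ Cj F (indFun T (extZ ψ)), p ∈ X := by
    rintro p ⟨σ, _, rfl⟩
    rw [← f_one]
    exact hXm σ 1 (Nat.coprime_one_right _)
  have hn1 : ∀ p ∈ X, ∀ σ : ℂ ≃+* ℂ, Fx (rootField (ℓ ^ a)) σ →
      (if gcj σ p ∈ Cj F (indFun T (extZ ψ)) then 1 else 0 : ℕ) =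
        if p ∈ Cj F (indFun T (extZ ψ)) then 1 else 0 := by
    intro p hp σ hσ
    obtain ⟨t, ht, rfl⟩ := Finset.mem_image.1 hp
    obtain ⟨u, hu, hact⟩ := VINx.act σ (orderOf ψ) hN0
    have hMN : ℓ ^ a ∣ orderOf ψ := by
      rw [hN]
      exact Dvd.intro n rfl
    have hu1 : u ≡ 1 [MOD ℓ ^ a] := exp_one hM hMN σ hact hσ
    -- an automorphism which fixes `F`
    have hco : (ℓ ^ max a j).Coprime n :=
      Nat.Coprime.pow_left _ ((Nat.Prime.coprime_iff_not_dvd hℓ).2 hln)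
    obtain ⟨v, hv1, hv2⟩ := Nat.chineseRemainder hco 1 u
    have hN' : 0 < ℓ ^ max a j * n := Nat.mul_pos (pow_pos hℓ.pos _) hn
    have hvc : (ℓ ^ max a j * n).Coprime v := by
      refine Nat.Coprime.mul_left ?_ ?_
      · have h1 := hv1.gcd_eq
        rw [Nat.gcd_one_left] at h1
        exact Nat.Coprime.symm h1
      · have h1 := hv2.gcd_eq
        have h2 : n.Coprime u := by
          rw [hN] at hu
          exact Nat.Coprime.coprime_mul_left hu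
        have h3 : Nat.gcd u n = 1 := Nat.Coprime.symm h2
        rw [h3] at h1
        exact Nat.Coprime.symm h1
    obtain ⟨τ, hτ⟩ := SIGT_thm (ℓ ^ max a j * n) v hN' hvc
    have hτF : Fx F τ := by
      intro x hx
      have hd : ℓ ^ j ∣ ℓ ^ max a j * n :=
        (pow_dvd_pow ℓ (le_max_right a j)).trans (Dvd.intro n rfl)
      refine fix_root hd τ hτ ?_ x (hF hx)
      exact hv1.of_dvd (pow_dvd_pow ℓ (le_max_right a j))
    have hNN : orderOf ψ ∣ ℓ ^ max a j * n := by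
      rw [hN]
      exact Nat.mul_dvd_mul_right (pow_dvd_pow ℓ (le_max_left a j)) n
    have hvu : v ≡ u [MOD orderOf ψ] := by
      rw [hN]
      refine (Nat.modEq_and_modEq_iff_modEq_mul hMn).1 ⟨?_, hv2⟩
      exact (hv1.of_dvd (pow_dvd_pow ℓ (le_max_left a j))).trans hu1.symm
    have hτu : ∀ z : ℂ, z ^ orderOf ψ = 1 → τ z = z ^ u := by
      intro z hz
      have hz' : z ^ (ℓ ^ max a j * n) = 1 := by
        obtain ⟨c, hc⟩ := hNN
        rw [hc, pow_mul, hz, one_pow]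
      rw [hτ z hz', ZFDx.pw hz hvu]
    have e : gcj σ (f (G := G) ψ t) = gcj τ (f ψ t) := by
      rw [gcj_f σ u hact, gcj_f τ u hτu]
    have h1 := SOL3x.Cj_gcj (indFun T (extZ ψ)) (f (G := G) ψ t) hτF
    rw [e]
    by_cases h2 : f (G := G) ψ t ∈ Cj F (indFun T (extZ ψ))
    · rw [if_pos (h1.2 h2), if_pos h2]
    · rw [if_neg fun h3 => h2 (h1.1 h3), if_neg h2]
  obtain ⟨m, τ, hτ, hsum⟩ := SOL3x.comb (rootField (ℓ ^ a)) hMd X hX hint _
    (fun p => if p ∈ Cj F (indFun T (extZ ψ)) then 1 else 0) hn1 rfl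
  have hF1 : ∀ x, trF F (indFun T (extZ ψ)) x = ∑ i, trF (rootField (ℓ ^ a)) (τ i) x := by
    intro x
    rw [← hsum x]
    have hO : ∀ p, p ∈ X.filter (fun p => p ∈ Cj F (indFun T (extZ ψ))) ↔
        p ∈ Cj F (indFun T (extZ ψ)) := by
      intro p
      rw [Finset.mem_filter]
      exact ⟨fun h1 => h1.2, fun h1 => ⟨hXF p h1, h1⟩⟩
    rw [SOL3x.trF_eq F hFd (indFun T (extZ ψ)) (fun g => by rw [← f_one]; exact f_int h 1 g) _ hO x,
      Finset.sum_filter]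
    refine Finset.sum_congr rfl fun p _ => ?_
    by_cases h1 : p ∈ Cj F (indFun T (extZ ψ))
    · simp only [if_pos h1, Nat.cast_one, one_mul]
    · simp only [if_neg h1, Nat.cast_zero, zero_mul]
  have e : trF F (indFun T (extZ ψ)) = fun x => ∑ i, trF (rootField (ℓ ^ a)) (τ i) x := funext hF1
  rw [e]
  refine monC_sum _ _ _ fun i => ?_
  obtain ⟨t, ht, ht'⟩ := Finset.mem_image.1 (hτ i).1
  obtain ⟨h1, h2⟩ := hol_pow h (Finset.mem_filter.1 ht).2
  rw [← ht']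
  exact trF_root h1 (ℓ ^ a) n hMn (h2.trans hN)

/-- The trace over `ℚ`. -/
theorem trChar_perm (h : HolD T ψ P) : PermC (trChar (indFun T (extZ ψ))) := by
  have h1 := trF_root h 1 (orderOf ψ) (Nat.coprime_one_left _) (one_mul _).symm
  have hN0 : 0 < orderOf ψ := s_pos
  have hfd : FiniteDimensional ℚ (rootField 1) := ZENx.fin_of one_pos _ le_rfl
  have hfix : ∀ σ : ℂ ≃+* ℂ, Fx (rootField 1) σ := by
    intro σ
    refine fix_root (M := 1) (N := 1) (u := 0) dvd_rfl σ (fun z hz => ?_) Nat.modEq_one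
    rw [pow_one] at hz
    rw [hz, map_one, one_pow]
  let O : Finset (G → ℂ) := (Ex (orderOf ψ)).image (f (G := G) ψ)
  have hO : ∀ p, p ∈ O ↔ ∃ σ : ℂ ≃+* ℂ, gcj σ (indFun T (extZ ψ)) = p := by
    intro p
    rw [Finset.mem_image]
    constructor
    · rintro ⟨t, ht, rfl⟩
      obtain ⟨σ, hσ⟩ := SIGT_thm (orderOf ψ) t hN0 (Finset.mem_filter.1 ht).2
      exact ⟨σ, by rw [← f_one, gcj_f σ t hσ, one_mul]⟩
    · rintro ⟨σ, rfl⟩
      obtain ⟨u, hu, hact⟩ := VINx.act σ (orderOf ψ) hN0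
      exact ⟨u % orderOf ψ, ZTRx.mod_mem hN0 hu, by
        rw [f_mod, ← f_one, gcj_f σ u hact, one_mul]⟩
  have hO' : ∀ p, p ∈ O ↔ p ∈ Cj (rootField 1) (indFun T (extZ ψ)) := by
    intro p
    rw [hO]
    exact ⟨fun ⟨σ, hσ⟩ => ⟨σ, hfix σ, hσ⟩, fun ⟨σ, _, hσ⟩ => ⟨σ, hσ⟩⟩
  have hint : ∀ g, IsIntegral ℚ (indFun T (extZ ψ) g) := fun g => by
    rw [← f_one]
    exact f_int h 1 g
  have e : trChar (indFun T (extZ ψ)) = trF (rootField 1) (indFun T (extZ ψ)) := by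
    funext g
    rw [FINC3x.trChar_eq _ hint O hO g, SOL3x.trF_eq (rootField 1) hfd _ hint O hO' g]
  rw [e]
  exact (GTRx.perm_iff _).1 ((GTRx.mon_iff _ _).2 h1)

end

end HOF3x

open HOF3x

theorem HOF1_thm : Stmt_HOF1 := fun _ _ _ _ _ _ h => trChar_perm h

/-- Characters with values in the field of the `ℓ^j`-th roots of unity, `ℓ` odd, of groups with
elementary abelian Sylow subgroups. -/
theorem inH_of_EA {G V : Type} [Group G] [Fintype G] [AddCommGroup V] [Module ℂ V]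
    (ρ : Representation ℂ G V) (hE : ElAb G) (ℓ j : ℕ) (hl : ℓ.Prime) (hl2 : ℓ ≠ 2)
    (hF : charField ρ.character ≤ rootField (ℓ ^ j)) : StarkP.InH ρ := by
  intro H hH W _ _ _ τ hτ _
  obtain ⟨p, T, P, ψ, hp, hP, hol, hχ⟩ := holD_of_hyper H W τ hτ (hE.subgroup H) hH
  have e : τ.character = indFun T (extZ ψ) := funext hχ
  obtain ⟨a, ha⟩ := trF_F hol (charField ρ.character) ℓ j hl hF
  refine Or.inr (Or.inr ⟨ℓ ^ a, pow_pos hl.pos a, ?_, ?_, ?_⟩)
  · exact ZMod.isCyclic_units_of_prime_pow ℓ hl hl2 a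
  · rw [e]
    exact (GTRx.mon_iff _ _).2 ha
  · rw [e]
    exact (GTRx.perm_iff _).2 (trChar_perm hol)

end StarkC.ABS
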