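import Pool.Agent.ABS.ALT
import Pool.Agent.ABS.HOF3

/-!
# Project ABS (MP_46b841_nt): groups of exponent dividing 6 (helper72)

All irreducible constituents of restrictions to hyperelementary subgroups are as in `InB`.
-/

set_option autoImplicit false

open scoped Classical

namespace StarkC.ABS

open StarkP (rootField charField trChar traceOver)

namespace EX6x

/-- Central elements act as scalars. -/
theorem central {G V : Type} [Group G] [AddCommGroup V] [Module ℂ V] [Module.Finite ℂ V]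
    (ρ : Representation ℂ G V) (hirr : ρ.IsIrreducible) {c : G} (hc : c ∈ Subgroup.center G) :
    ∃ μ : ℂ, ∀ v, ρ c v = μ • v := by
  have hnt : Nontrivial V := (FINZx.irr_of ρ hirr).1
  obtain ⟨μ, hμ⟩ := Module.End.exists_eigenvalue (ρ c)
  rcases (FINZx.irr_of ρ hirr).2 (Module.End.eigenspace (ρ c) μ) (by
    intro g v hv
    rw [Module.End.mem_eigenspace_iff] at hv ⊢
    have h1 : ρ c (ρ g v) = ρ g (ρ c v) := by
      rw [← Module.End.mul_apply, ← Module.End.mul_apply, ← map_mul, ← map_mul,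
        Subgroup.mem_center_iff.1 hc g]
    rw [h1, hv, map_smul]) with h | h
  · exact absurd h hμ
  · refine ⟨μ, fun v => ?_⟩
    rw [← Module.End.mem_eigenspace_iff, h]
    exact Submodule.mem_top

/-- The restriction to a supplement of a central subgroup is irreducible. -/
theorem irr_res {G V : Type} [Group G] [AddCommGroup V] [Module ℂ V] [Module.Finite ℂ V]
    (ρ : Representation ℂ G V) (hirr : ρ.IsIrreducible) (C P : Subgroup G)
    (hC : C ≤ Subgroup.center G) (hCP : ∀ g : G, ∃ c ∈ C, ∃ x ∈ P, g = c * x) :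
    Representation.IsIrreducible (ρ.comp P.subtype : Representation ℂ P V) := by
  let e : Subrepresentation (ρ.comp P.subtype : Representation ℂ P V) ≃o Subrepresentation ρ :=
    { toFun := fun W => ⟨W.toSubmodule, fun g v hv => by
        obtain ⟨c, hc, x, hx, rfl⟩ := hCP g
        obtain ⟨μ, hμ⟩ := central ρ hirr (hC hc)
        rw [map_mul, Module.End.mul_apply, hμ]
        exact Submodule.smul_mem _ _ (W.apply_mem_toSubmodule ⟨x, hx⟩ hv)⟩
      invFun := fun W => ⟨W.toSubmodule, fun x v hv => W.apply_mem_toSubmodule (x : G) hv⟩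
      left_inv := fun W => rfl
      right_inv := fun W => rfl
      map_rel_iff' := Iff.rfl }
  exact (OrderIso.isSimpleOrder_iff e).2 hirr

/-- A complement of the cyclic normal subgroup of a hyperelementary group. -/
theorem compl {G : Type} [Group G] [Finite G] (p : ℕ) (C : Subgroup G) (hp : p.Prime)
    [C.Normal] (hpC : ¬ p ∣ Nat.card C) (n : ℕ) (hn : C.index = p ^ n) :
    ∃ S : Subgroup G, IsPGroup p S ∧ Nat.card S = p ^ n ∧
      ∀ g : G, ∃ c ∈ C, ∃ x ∈ S, g = c * x := by
  have : Fact p.Prime := ⟨hp⟩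
  obtain ⟨S⟩ := (inferInstance : Nonempty (Sylow p G))
  have hcard : Nat.card C * p ^ n = Nat.card G := by
    rw [← hn]
    exact C.card_mul_index
  have hS : Nat.card (S : Subgroup G) = p ^ n := by
    rw [Sylow.card_eq_multiplicity, ← hcard]
    congr 1
    rw [Nat.factorization_mul Nat.card_pos.ne' (pow_ne_zero _ hp.ne_zero), Finsupp.add_apply,
      Nat.factorization_eq_zero_of_not_dvd hpC, hp.factorization_pow]
    simp
  have hcomp : Subgroup.IsComplement' C (S : Subgroup G) := by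
    refine Subgroup.isComplement'_of_coprime (by rw [hS, hcard]) ?_
    rw [hS]
    exact Nat.Coprime.pow_right n ((Nat.Prime.coprime_iff_not_dvd hp).2 hpC).symm
  refine ⟨S, S.isPGroup', hS, fun g => ?_⟩
  obtain ⟨⟨c, s⟩, h, -⟩ := hcomp.existsUnique g
  exact ⟨c, c.2, s, s.2, h.symm⟩

/-- Hyperelementary groups with central cyclic part, `p` odd. -/
theorem nilNS_central {G V : Type} [Group G] [Fintype G] [AddCommGroup V] [Module ℂ V]
    [Module.Finite ℂ V] (ρ : Representation ℂ G V) (hirr : ρ.IsIrreducible) (p : ℕ)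
    (C : Subgroup G) (hp : p.Prime) (hp2 : p ≠ 2) (hC : C.Normal) (hpC : ¬ p ∣ Nat.card C) (n : ℕ)
    (hn : C.index = p ^ n) (hcen : C ≤ Subgroup.center G) : StarkP.NilNS ρ := by
  have : Fact p.Prime := ⟨hp⟩
  obtain ⟨S, hS, hcS, hCS⟩ := compl p C hp hpC n hn
  have hoddp : Odd p := hp.odd_of_ne_two hp2
  have hodd : Odd (Module.finrank ℂ V) := by
    refine odd_deg _ (irr_res ρ hirr C S hcen hCS) hS.isNilpotent ?_
    rw [hcS]
    exact hoddp.pow
  have hq : IsPGroup p (G ⧸ C) := IsPGroup.of_card (n := n) (by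
    rw [← hn]
    rfl)
  have h1 : Group.IsNilpotent (G ⧸ C) := hq.isNilpotent
  have h2 : Group.IsNilpotent G := Subgroup.isNilpotent_of_ker_le_center (QuotientGroup.mk' C) (by
    rw [QuotientGroup.ker_mk']
    exact hcen)
  exact nilNS_of_odd_deg ρ inferInstance hodd

/-- Hyperelementary groups, `p` with elementary abelian Sylow subgroups. -/
theorem holD_of_p (G V : Type) [Group G] [Fintype G] [AddCommGroup V] [Module ℂ V]
    [Module.Finite ℂ V] (ρ : Representation ℂ G V) (hirr : ρ.IsIrreducible) (p : ℕ)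
    (C : Subgroup G) (hp : p.Prime) (hC : C.Normal) (hcyc : IsCyclic C) (hpC : ¬ p ∣ Nat.card C)
    (n : ℕ) (hn : C.index = p ^ n)
    (hel : ∀ P : Subgroup G, IsPGroup p P → (∀ x ∈ P, x ^ p = 1) ∧
      ∀ x ∈ P, ∀ y ∈ P, x * y = y * x) :
    ∃ (T P : Subgroup G) (ψ : T →* ℂˣ), HolD T ψ P ∧
      ∀ g, ρ.character g = indFun T (extZ ψ) g := by
  obtain ⟨S, hS, hcS, hCS⟩ := compl p C hp hpC n hn
  obtain ⟨T, P, ψ, hol, hPS, hχ⟩ := HEA_thm G V ρ p C S hirr hp hC hcyc hpC
    (hel S hS).1 (hel S hS).2 hCS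
  exact ⟨T, P, ψ, hol, hχ⟩

/-- The third case of `InB` from `HolD`, for `F ≤ ℚ(ζ_(ℓ^j))`. -/
theorem inB_of_holD {G V : Type} [Group G] [Fintype G] [AddCommGroup V] [Module ℂ V]
    (ρ : Representation ℂ G V) {T P : Subgroup G} {ψ : T →* ℂˣ} (hol : HolD T ψ P)
    (hχ : ∀ g, ρ.character g = indFun T (extZ ψ) g) (F : IntermediateField ℚ ℂ) (ℓ j : ℕ)
    (hl : ℓ.Prime) (hl2 : ℓ ≠ 2) (hF : F ≤ rootField (ℓ ^ j)) : StarkP.InB F ρ := by
  have e : ρ.character = indFun T (extZ ψ) := funext hχ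
  obtain ⟨a, ha⟩ := HOF3x.trF_F hol F ℓ j hl hF
  refine Or.inr (Or.inr ⟨ℓ ^ a, pow_pos hl.pos a, ?_, ?_, ?_⟩)
  · exact ZMod.isCyclic_units_of_prime_pow ℓ hl hl2 a
  · rw [e]
    exact (GTRx.mon_iff _ _).2 ha
  · rw [e]
    exact (GTRx.perm_iff _).2 (HOF3x.trChar_perm hol)

theorem dvd_of {G : Type} [Group G] {x : G} {a b d : ℕ} (ha : x ^ a = 1) (hb : x ^ b = 1)
    (hd : Nat.gcd a b ∣ d) : x ^ d = 1 := by
  have h1 := Nat.dvd_gcd (orderOf_dvd_of_pow_eq_one ha) (orderOf_dvd_of_pow_eq_one hb)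
  exact orderOf_dvd_iff_pow_eq_one.1 (h1.trans hd)

end EX6x

open EX6x

/-- Groups of exponent dividing 6. -/
theorem inH_of_exp6 {G V : Type} [Group G] [Fintype G] [AddCommGroup V] [Module ℂ V]
    [Module.Finite ℂ V] (ρ : Representation ℂ G V) (h6 : ∀ g : G, g ^ 6 = 1) :
    StarkP.InH ρ := by
  have hF : charField ρ.character ≤ rootField (3 ^ 1) := by
    have h1 := charField_le ρ 6 (by norm_num) fun g => by rw [← map_pow, h6, map_one]
    exact h1.trans (FINC2x.root_two 3 1 Nat.prime_three (by norm_num))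
  intro H hH W _ _ _ τ hτ _
  have h6H : ∀ x : H, x ^ 6 = 1 := fun x => Subtype.ext (h6 x)
  obtain ⟨p, C, hp, hC, hcyc, hpC, n, hn⟩ := hH
  have : Fact p.Prime := ⟨hp⟩
  by_cases hp2 : p = 2
  · subst hp2
    have hsq : ∀ P : Subgroup H, IsPGroup 2 P → ∀ x ∈ P, x ^ 2 = 1 := by
      intro P hP x hx
      obtain ⟨k, hk⟩ := hP ⟨x, hx⟩
      have hk' : x ^ 2 ^ k = 1 := congrArg Subtype.val hk
      refine dvd_of hk' (h6H x) ?_
      have h1 : (2 ^ k).Coprime 3 := Nat.Coprime.pow_left k (by norm_num)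
      have h2 : Nat.gcd (2 ^ k) 6 ∣ 2 * 3 := Nat.gcd_dvd_right _ _
      exact (Nat.Coprime.coprime_dvd_left (Nat.gcd_dvd_left _ _) h1).dvd_of_dvd_mul_right h2
    obtain ⟨T, P, ψ, hol, hχ⟩ := holD_of_p H W τ hτ 2 C hp hC hcyc hpC n hn fun P hP => by
      refine ⟨hsq P hP, fun x hx y hy => ?_⟩
      have h1 := hsq P hP (x * y) (P.mul_mem hx hy)
      have h2 := hsq P hP x hx
      have h3 := hsq P hP y hy
      rw [pow_two] at h1 h2 h3
      have h4 : x⁻¹ = x := inv_eq_of_mul_eq_one_left h2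
      have h5 : y⁻¹ = y := inv_eq_of_mul_eq_one_left h3
      have h7 : (x * y)⁻¹ = x * y := inv_eq_of_mul_eq_one_left h1
      rw [← h7, mul_inv_rev, h4, h5]
    exact inB_of_holD τ hol hχ _ 3 1 Nat.prime_three (by norm_num) hF
  · refine Or.inl ⟨Or.inl ?_, 3, 1, Nat.prime_three, inf_le_left.trans hF⟩
    refine nilNS_central τ hτ p C hp hp2 hC hpC n hn ?_
    by_cases hp3 : p = 3
    · subst hp3
      -- `C` has at most two elements
      have hc2 : ∀ c ∈ C, c ^ 2 = 1 := by
        intro c hc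
        have h1 : orderOf c ∣ Nat.card C := by
          rw [← Subgroup.orderOf_mk c hc]
          exact orderOf_dvd_natCard _
        have h2 : (orderOf c).Coprime 3 :=
          Nat.Coprime.coprime_dvd_left h1 ((Nat.Prime.coprime_iff_not_dvd hp).2 hpC).symm
        have h3 : orderOf c ∣ 2 * 3 := orderOf_dvd_of_pow_eq_one (h6H c)
        exact orderOf_dvd_iff_pow_eq_one.1 (h2.dvd_of_dvd_mul_right h3)
      obtain ⟨⟨c₀, hc₀⟩, hgen⟩ := hcyc.exists_generator
      have hcc : ∀ c ∈ C, c = 1 ∨ c = c₀ := by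
        intro c hc
        obtain ⟨k, hk⟩ := Subgroup.mem_zpowers_iff.1 (hgen ⟨c, hc⟩)
        have hk' : c₀ ^ k = c := congrArg Subtype.val hk
        rcases Int.even_or_odd' k with ⟨m, rfl | rfl⟩
        · left
          rw [← hk', zpow_mul]
          have h1 : c₀ ^ (2 : ℤ) = 1 := by exact_mod_cast hc2 c₀ hc₀
          rw [h1, one_zpow]
        · right
          rw [← hk', zpow_add, zpow_mul, zpow_one]
          have h1 : c₀ ^ (2 : ℤ) = 1 := by exact_mod_cast hc2 c₀ hc₀
          rw [h1, one_zpow, one_mul]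
      intro c hc
      rw [Subgroup.mem_center_iff]
      intro g
      by_cases h1 : c = 1
      · rw [h1, mul_one, one_mul]
      · have h2 := hC.conj_mem c hc g
        rcases hcc _ h2 with h3 | h3
        · exfalso
          apply h1
          have h4 : c = g⁻¹ * (g * c * g⁻¹) * g := by group
          rw [h4, h3]
          group
        · rcases hcc c hc with h4 | h4
          · exact absurd h4 h1
          · rw [← h4] at h3
            calc g * c = g * c * g⁻¹ * g := by group
              _ = c * g := by rw [h3]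
    · -- `H = C`
      have hn0 : n = 0 := by
        by_contra hne
        have h1 : p ∣ Nat.card H := by
          have h2 : C.index ∣ Nat.card H := C.index_dvd_card
          rw [hn] at h2
          exact (dvd_pow_self p hne).trans h2
        obtain ⟨x, hx⟩ := exists_prime_orderOf_dvd_card' p h1
        have h2 : p ∣ 6 := by
          rw [← hx]
          exact orderOf_dvd_of_pow_eq_one (h6H x)
        have h3 : p ∣ 2 * 3 := h2
        rcases (Nat.Prime.dvd_mul hp).1 h3 with h4 | h4
        · exact hp2 ((Nat.prime_dvd_prime_iff_eq hp Nat.prime_two).1 h4)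
        · exact hp3 ((Nat.prime_dvd_prime_iff_eq hp Nat.prime_three).1 h4)
      rw [hn0, pow_zero, Subgroup.index_eq_one] at hn
      intro c hc
      rw [Subgroup.mem_center_iff]
      intro g
      have hg : g ∈ C := by
        rw [hn]
        exact Subgroup.mem_top g
      have hcomm : ∀ a b : C, a * b = b * a := fun a b => by
        obtain ⟨z, hz⟩ := hcyc.exists_generator
        obtain ⟨i, rfl⟩ := Subgroup.mem_zpowers_iff.1 (hz a)
        obtain ⟨k, rfl⟩ := Subgroup.mem_zpowers_iff.1 (hz b)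
        rw [← zpow_add, ← zpow_add, add_comm]
      exact congrArg Subtype.val (hcomm ⟨g, hg⟩ ⟨c, hc⟩)

end StarkC.ABS
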