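import Pool.Agent.ABS.StN2

/-!
# Project ABS, module NRE: a value which is not real
-/

set_option autoImplicit false

open NumberField IsDedekindDomain
open scoped TensorProduct Classical

namespace StarkC.ABS

open StarkP (rootField charField)

namespace NREx

/-- the field of the real numbers in `ℂ`, as an intermediate field over `ℚ` -/
noncomputable def realField : IntermediateField ℚ ℂ :=
  (Complex.ofRealAm.restrictScalars ℚ).fieldRange

theorem im_of_mem {z : ℂ} (h : z ∈ realField) : z.im = 0 := by
  obtain ⟨r, rfl⟩ := h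
  exact Complex.ofReal_im r

theorem mem_of_im {z : ℂ} (h : z.im = 0) : z ∈ realField :=
  ⟨z.re, Complex.ext (Complex.ofReal_re _) ((Complex.ofReal_im _).trans h.symm)⟩

theorem sin_pos (o : ℕ) (ho : 3 ≤ o) : 0 < Real.sin (2 * Real.pi / o) := by
  have h1 : (3 : ℝ) ≤ o := by exact_mod_cast ho
  have h2 := Real.pi_pos
  refine Real.sin_pos_of_pos_of_lt_pi (by positivity) ?_
  rw [div_lt_iff₀ (by linarith)]
  nlinarith

theorem exp_im (o : ℕ) : (Complex.exp (2 * Real.pi * Complex.I / o)).im =
    Real.sin (2 * Real.pi / o) := by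
  have h1 : (2 * Real.pi * Complex.I / o : ℂ) = ((2 * Real.pi / o : ℝ) : ℂ) * Complex.I := by
    push_cast
    ring
  rw [h1, Complex.exp_ofReal_mul_I_im]

end NREx

open NREx in
/-- module NRE -/
theorem NRE_thm : Stmt_NRE := by
  intro G χ o ho hχ hf
  by_contra hcon
  push Not at hcon
  have h1 : charField χ ≤ realField := by
    unfold StarkP.charField
    rw [IntermediateField.adjoin_le_iff]
    rintro z ⟨g, rfl⟩
    exact mem_of_im (hcon g)
  have ho2 : o ≤ 2 := by
    by_contra h
    have ho3 : 3 ≤ o := by omega
    have h2 : Complex.exp (2 * Real.pi * Complex.I / o) ∈ rootField o := by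
      unfold StarkP.rootField
      refine IntermediateField.subset_adjoin ℚ _ ?_
      exact (Complex.isPrimitiveRoot_exp o (by omega)).pow_eq_one
    rw [← hχ] at h2
    have h3 := im_of_mem (h1 h2)
    rw [exp_im] at h3
    exact (sin_pos o ho3).ne' h3
  have h4 : charField χ = ⊥ := by
    rw [hχ]
    unfold StarkP.rootField
    rw [IntermediateField.adjoin_eq_bot_iff]
    intro z hz
    have hz' : z ^ o = 1 := hz
    have h5 : z = 1 ∨ z = -1 := by
      have h6 : o = 1 ∨ o = 2 := by omega
      rcases h6 with rfl | rfl
      · left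
        simpa using hz'
      · exact sq_eq_one_iff.mp hz'
    rcases h5 with rfl | rfl
    · exact one_mem _
    · exact neg_mem (one_mem _)
  rw [h4, IntermediateField.finrank_bot] at hf
  exact absurd hf (by norm_num)

end StarkC.ABS
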