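import Pool.Agent.ABS.EXO
import Pool.Agent.ABS.NRE

/-!
# Project ABS: one exact `φ` and absolute values for representations of exponent `3`, `4`, `6`
-/

set_option autoImplicit false

open NumberField IsDedekindDomain
open scoped TensorProduct Classical

namespace StarkC.ABS

namespace EXNx

theorem finrank_two (n : ℕ) (hn : n = 4 ∨ n = 6) :
    Module.finrank ℚ (StarkP.rootField n) = 2 := by
  rcases hn with rfl | rfl
  · exact RESFx.finrank_cyc 4 (by norm_num)
  · exact RESFx.finrank_cyc 6 (by norm_num)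

/-- Representations of exponent dividing `4` or `6`: rational-valued, or `ℚ(χ)` is imaginary
quadratic. -/
theorem small {G V : Type} [Group G] [Fintype G] [AddCommGroup V] [Module ℂ V]
    [Module.Finite ℂ V] (ρ : Representation ℂ G V) (n : ℕ) (hn : n = 4 ∨ n = 6)
    (hρ : ∀ g, ρ g ^ n = 1) :
    (∀ g, ∃ q : ℚ, ρ.character g = (q : ℂ)) ∨
      (Module.finrank ℚ (StarkP.charField ρ.character) = 2 ∧ ∃ g, (ρ.character g).im ≠ 0) := by
  have hn0 : 0 < n := by rcases hn with rfl | rfl <;> norm_num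
  have hle := charField_le ρ n hn0 hρ
  have h2 := finrank_two n hn
  have hfin : FiniteDimensional ℚ (StarkP.rootField n) :=
    Module.finite_of_finrank_pos (by rw [h2]; norm_num)
  have hdvd : Module.finrank ℚ (StarkP.charField ρ.character) ∣ 2 := by
    rw [← h2]
    exact IntermediateField.finrank_dvd_of_le_right hle
  rcases (Nat.dvd_prime Nat.prime_two).1 hdvd with h1 | h1
  · left
    intro g
    have h3 : StarkP.charField ρ.character = ⊥ := IntermediateField.finrank_eq_one_iff.1 h1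
    have h4 : ρ.character g ∈ StarkP.charField ρ.character :=
      IntermediateField.subset_adjoin ℚ _ (Set.mem_range_self g)
    rw [h3, IntermediateField.mem_bot] at h4
    obtain ⟨q, hq⟩ := h4
    refine ⟨q, ?_⟩
    rw [← hq, eq_ratCast]
  · right
    have h3 : StarkP.charField ρ.character = StarkP.rootField n :=
      IntermediateField.eq_of_le_of_finrank_eq hle (by rw [h1, h2])
    exact ⟨h1, NRE_thm _ _ n hn0 h3 h1⟩

end EXNx

open EXOx EXNx in
/-- If `φ` is exact on the rational-valued characters all of whose constituents are good, then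
`|R_S(χ, φ)| = |L_S^*(0, χ)|` for every good irreducible `χ` of exponent dividing `4` or `6`. -/
theorem expo_abs {K L : Type} [Field K] [NumberField K] [Field L] [NumberField L]
    [Algebra K L] [IsGalois K L] (S : Finset (HeightOneSpectrum (𝓞 K)))
    (Θ : ((L → ℝ) →₀ ℂ) →ₗ[ℂ] ((L → ℝ) →₀ ℂ))
    (hΘ : StarkP.IsTheta K (StarkP.aboveSet K L S) Θ)
    (hex : ∀ (V : Type) [AddCommGroup V] [Module ℂ V] [Module.Finite ℂ V]
        (ρ : Representation ℂ (L ≃ₐ[K] L) V), (∀ g, ∃ q : ℚ, ρ.character g = (q : ℂ)) →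
        (∀ (W : Type) [AddCommGroup W] [Module ℂ W] [Module.Finite ℂ W]
          (σ : Representation ℂ (L ≃ₐ[K] L) W), σ.IsIrreducible → StarkP.IsSub σ ρ →
          StarkP.OccursIn (StarkP.aboveSet K L S) σ ∧ StarkP.Realizable σ.character ∧
          ∃ Θ' : ((L → ℝ) →₀ ℂ) →ₗ[ℂ] ((L → ℝ) →₀ ℂ),
            StarkP.IsTheta K (StarkP.aboveSet K L S) Θ' ∧
            StarkP.NormIn (StarkP.charField σ.character) σ.character
              (S : Set (HeightOneSpectrum (𝓞 K))) Θ') →
        ∃ F : ℂ → ℂ, StarkP.IsArtinL ρ.character (S : Set (HeightOneSpectrum (𝓞 K))) F ∧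
          StarkP.Reg (StarkP.aboveSet K L S) ρ Θ = meromorphicTrailingCoeffAt F 0)
    (V : Type) [AddCommGroup V] [Module ℂ V] [Module.Finite ℂ V]
    (ρ : Representation ℂ (L ≃ₐ[K] L) V) (hirr : ρ.IsIrreducible)
    (hocc : StarkP.OccursIn (StarkP.aboveSet K L S) ρ) (hreal : StarkP.Realizable ρ.character)
    (hN : ∃ Θ' : ((L → ℝ) →₀ ℂ) →ₗ[ℂ] ((L → ℝ) →₀ ℂ),
      StarkP.IsTheta K (StarkP.aboveSet K L S) Θ' ∧
      StarkP.NormIn (StarkP.charField ρ.character) ρ.character
        (S : Set (HeightOneSpectrum (𝓞 K))) Θ')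
    (h2 : (∀ g, ∃ q : ℚ, ρ.character g = (q : ℂ)) ∨
      (Module.finrank ℚ (StarkP.charField ρ.character) = 2 ∧ ∃ g, (ρ.character g).im ≠ 0))
    (f : ℂ → ℂ) (hf : StarkP.IsArtinL ρ.character (S : Set (HeightOneSpectrum (𝓞 K))) f) :
    ‖StarkP.Reg (StarkP.aboveSet K L S) ρ Θ‖ = ‖meromorphicTrailingCoeffAt f 0‖ := by
  rcases h2 with hq | ⟨h2, him⟩
  · obtain ⟨F, hF, hR⟩ := hex V ρ hq (fun W _ _ _ σ hσ hsub => by
      obtain ⟨i, hi, hG⟩ := hsub
      have h0 : i ≠ 0 := by
        rintro rfl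
        have hWn := ZDUx.nontrivial_of σ hσ
        obtain ⟨w, hw⟩ := exists_ne (0 : W)
        exact hw (hi (by rw [LinearMap.zero_apply, LinearMap.zero_apply]))
      obtain ⟨e, he⟩ := schur ρ σ hirr hσ i hG h0
      rw [char_of_equiv ρ σ e he]
      exact ⟨occ_iso _ V W ρ σ e he hocc, hreal, hN⟩)
    rw [hR, LASTx.trail_unique hF.1 hf.1 fun s hs => (hF.2 s hs).trans (hf.2 s hs).symm]
  · exact abs_of_exact S Θ hΘ hex V ρ hirr hocc hreal hN h2 him f hf

end StarkC.ABS
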