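import Pool.Agent.ABS.StZ

/-!
# Project ABS, part Z, module ZDU: the dual of an irreducible representation is irreducible
-/

set_option autoImplicit false

open NumberField IsDedekindDomain
open scoped TensorProduct Classical

namespace StarkC.ABS

namespace ZDUx

variable {G V : Type} [Group G] [AddCommGroup V] [Module ℂ V]

theorem nontrivial_of (ρ : Representation ℂ G V) (h : ρ.IsIrreducible) : Nontrivial V := by
  by_contra hV
  rw [not_nontrivial_iff_subsingleton] at hV
  have h1 : (⊥ : Subrepresentation ρ) = ⊤ := by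
    apply Subrepresentation.toSubmodule_injective
    exact Subsingleton.elim _ _
  exact bot_ne_top h1

theorem sub_of (ρ : Representation ℂ G V) (h : ρ.IsIrreducible) (W : Submodule ℂ V)
    (hW : ∀ g, ∀ v ∈ W, ρ g v ∈ W) : W = ⊥ ∨ W = ⊤ := by
  have h1 := h.eq_bot_or_eq_top ⟨W, fun g v hv => hW g v hv⟩
  rcases h1 with h1 | h1
  · left
    exact congrArg Subrepresentation.toSubmodule h1
  · right
    exact congrArg Subrepresentation.toSubmodule h1

theorem irr_of (ρ : Representation ℂ G V) (h0 : Nontrivial V)
    (h : ∀ W : Submodule ℂ V, (∀ g, ∀ v ∈ W, ρ g v ∈ W) → W = ⊥ ∨ W = ⊤) : ρ.IsIrreducible := by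
  have hnt : Nontrivial (Subrepresentation ρ) := by
    refine ⟨⟨⊥, ⊤, fun h1 => ?_⟩⟩
    have h2 : (⊥ : Submodule ℂ V) = ⊤ := congrArg Subrepresentation.toSubmodule h1
    exact bot_ne_top h2
  refine { hnt with eq_bot_or_eq_top := fun W => ?_ }
  rcases h W.toSubmodule (fun g v hv => W.apply_mem_toSubmodule g hv) with h1 | h1
  · left
    apply Subrepresentation.toSubmodule_injective
    exact h1
  · right
    apply Subrepresentation.toSubmodule_injective
    exact h1

theorem dual_irr [Module.Finite ℂ V] (ρ : Representation ℂ G V) (h : ρ.IsIrreducible) :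
    ρ.dual.IsIrreducible := by
  have hV := nontrivial_of ρ h
  have hD : Nontrivial (Module.Dual ℂ V) := inferInstance
  refine irr_of ρ.dual hD fun U hU => ?_
  have hst : ∀ g, ∀ v ∈ U.dualCoannihilator, ρ g v ∈ U.dualCoannihilator := by
    intro g v hv
    rw [Submodule.mem_dualCoannihilator] at hv ⊢
    intro α hα
    have h1 := hU g⁻¹ α hα
    have h2 := hv _ h1
    rw [Representation.dual_apply, inv_inv, Module.Dual.transpose_apply] at h2
    exact h2
  rcases sub_of ρ h _ hst with h1 | h1
  · right
    have h2 := Subspace.dualCoannihilator_dualAnnihilator_eq (W := U)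
    rw [h1, Submodule.dualAnnihilator_bot] at h2
    exact h2.symm
  · left
    have h2 := Subspace.dualCoannihilator_dualAnnihilator_eq (W := U)
    rw [h1, Submodule.dualAnnihilator_top] at h2
    exact h2.symm

end ZDUx

theorem ZDU_thm : Stmt_ZDU := by
  intro G V _ _ _ _ _ ρ h
  refine ⟨ZDUx.dual_irr ρ h, ?_⟩
  funext g
  exact Representation.char_dual ρ g

end StarkC.ABS
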