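import Pool.Agent.ABS.FAX
import Pool.Agent.ABS.ZDU

/-!
# Project ABS: one exact `φ` and absolute values (helper6)
-/

set_option autoImplicit false

open NumberField IsDedekindDomain ComplexConjugate
open scoped TensorProduct Classical

namespace StarkC.ABS

namespace EXOx

/-! ### Complex conjugation of coefficients -/

section Cj

variable {L : Type}

/-- Complex conjugation of the coefficients. -/
noncomputable def cj (x : (L → ℝ) →₀ ℂ) : (L → ℝ) →₀ ℂ :=
  Finsupp.mapRange (starRingEnd ℂ) (map_zero _) x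

theorem cj_apply (x : (L → ℝ) →₀ ℂ) (a : L → ℝ) : cj x a = conj (x a) := rfl

theorem cj_add (x y : (L → ℝ) →₀ ℂ) : cj (x + y) = cj x + cj y := by
  ext a
  simp [cj_apply]

theorem cj_smul (c : ℂ) (x : (L → ℝ) →₀ ℂ) : cj (c • x) = conj c • cj x := by
  ext a
  simp [cj_apply]

theorem cj_inj (x : (L → ℝ) →₀ ℂ) (h : cj x = 0) : x = 0 := by
  ext a
  have h1 : cj x a = 0 := by rw [h]; rfl
  rw [cj_apply] at h1
  have h2 : x a = 0 := by
    have h3 := congrArg (starRingEnd ℂ) h1
    rwa [Complex.conj_conj, map_zero] at h3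
  rw [h2]
  rfl

theorem cj_act [Field L] (g : L ≃+* L) (x : (L → ℝ) →₀ ℂ) :
    cj (StarkP.act g x) = StarkP.act g (cj x) := by
  show Finsupp.mapRange (starRingEnd ℂ) (map_zero _) (Finsupp.mapDomain _ x) =
    Finsupp.mapDomain _ (Finsupp.mapRange (starRingEnd ℂ) (map_zero _) x)
  exact (Finsupp.mapDomain_mapRange (fun a : L → ℝ => a ∘ g.symm) x (starRingEnd ℂ)
    (map_zero _) (map_add _)).symm

theorem cj_mem [Field L] [NumberField L] (T : Set (HeightOneSpectrum (𝓞 L)))
    (x : (L → ℝ) →₀ ℂ) (hx : x ∈ StarkP.XC L T) : cj x ∈ StarkP.XC L T := by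
  obtain ⟨h1, h2⟩ := hx
  refine ⟨?_, ?_⟩
  · rw [SetLike.mem_coe, Finsupp.mem_supported] at h1 ⊢
    refine fun a ha => h1 ?_
    rw [Finset.mem_coe, Finsupp.mem_support_iff] at ha ⊢
    intro h3
    apply ha
    rw [cj_apply, h3, map_zero]
  · rw [SetLike.mem_coe, LinearMap.mem_ker] at h2 ⊢
    have h3 : Finsupp.linearCombination ℂ (fun _ : L → ℝ => (1 : ℂ)) (cj x) =
        conj (Finsupp.linearCombination ℂ (fun _ : L → ℝ => (1 : ℂ)) x) := by
      rw [Finsupp.linearCombination_apply, Finsupp.linearCombination_apply, Finsupp.sum,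
        Finsupp.sum, map_sum]
      have h4 : (cj x).support = x.support := by
        ext a
        rw [Finsupp.mem_support_iff, Finsupp.mem_support_iff, cj_apply]
        simp
      rw [h4]
      refine Finset.sum_congr rfl fun a _ => ?_
      rw [cj_apply]
      simp
    rw [h3, h2, map_zero]

end Cj

/-! ### An invariant hermitian form -/

section Herm

variable {G V : Type} [Group G] [Fintype G] [AddCommGroup V] [Module ℂ V] [Module.Finite ℂ V]
  (ρ : Representation ℂ G V)

/-- The invariant hermitian form. -/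
noncomputable def J (v : V) : Module.Dual ℂ V :=
  ∑ g, ∑ i, conj ((Module.finBasis ℂ V).repr (ρ g v) i) •
    ((Module.finBasis ℂ V).coord i ∘ₗ ρ g)

theorem J_apply (v w : V) : J ρ v w = ∑ g, ∑ i,
    conj ((Module.finBasis ℂ V).repr (ρ g v) i) * (Module.finBasis ℂ V).repr (ρ g w) i := by
  simp only [J, LinearMap.sum_apply, LinearMap.smul_apply, LinearMap.comp_apply,
    Module.Basis.coord_apply, smul_eq_mul]

theorem J_add (v w : V) : J ρ (v + w) = J ρ v + J ρ w := by
  ext u
  rw [LinearMap.add_apply, J_apply, J_apply, J_apply, ← Finset.sum_add_distrib]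
  refine Finset.sum_congr rfl fun g _ => ?_
  rw [← Finset.sum_add_distrib]
  refine Finset.sum_congr rfl fun i _ => ?_
  rw [map_add, map_add, Finsupp.add_apply, map_add, add_mul]

theorem J_smul (c : ℂ) (v : V) : J ρ (c • v) = conj c • J ρ v := by
  ext u
  rw [LinearMap.smul_apply, J_apply, J_apply, smul_eq_mul, Finset.mul_sum]
  refine Finset.sum_congr rfl fun g _ => ?_
  rw [Finset.mul_sum]
  refine Finset.sum_congr rfl fun i _ => ?_
  rw [map_smul, map_smul, Finsupp.smul_apply, smul_eq_mul, map_mul, mul_assoc]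

theorem J_equiv (h : G) (v : V) : J ρ (ρ h v) = ρ.dual h (J ρ v) := by
  ext w
  rw [Representation.dual_apply, Module.Dual.transpose_apply, LinearMap.comp_apply, J_apply,
    J_apply]
  refine Fintype.sum_equiv (Equiv.mulRight h) _ _ fun g => ?_
  refine Finset.sum_congr rfl fun i _ => ?_
  rw [Equiv.coe_mulRight, map_mul, Module.End.mul_apply, Module.End.mul_apply]
  congr 2
  have h1 : ρ h (ρ h⁻¹ w) = w := by
    rw [← Module.End.mul_apply, ← map_mul, mul_inv_cancel, map_one, Module.End.one_apply]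
  rw [h1]

theorem J_inj (v : V) (h : J ρ v = 0) : v = 0 := by
  have h1 : J ρ v v = 0 := by rw [h]; rfl
  rw [J_apply] at h1
  have h2 : (∑ g, ∑ i, Complex.normSq ((Module.finBasis ℂ V).repr (ρ g v) i) : ℝ) = 0 := by
    have h3 : ((∑ g, ∑ i, Complex.normSq ((Module.finBasis ℂ V).repr (ρ g v) i) : ℝ) : ℂ) = 0 := by
      rw [← h1]
      push_cast
      refine Finset.sum_congr rfl fun g _ => Finset.sum_congr rfl fun i _ => ?_
      rw [mul_comm, Complex.mul_conj]
    exact_mod_cast h3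
  have h4 : ∀ g ∈ (Finset.univ : Finset G),
      0 ≤ ∑ i, Complex.normSq ((Module.finBasis ℂ V).repr (ρ g v) i) :=
    fun g _ => Finset.sum_nonneg fun i _ => Complex.normSq_nonneg _
  have h5 := (Finset.sum_eq_zero_iff_of_nonneg h4).1 h2 1 (Finset.mem_univ _)
  have h6 := (Finset.sum_eq_zero_iff_of_nonneg fun i _ => Complex.normSq_nonneg _).1 h5
  have h7 : (Module.finBasis ℂ V).repr v = 0 := by
    ext i
    have h8 := Complex.normSq_eq_zero.1 (h6 i (Finset.mem_univ _))
    rw [map_one, Module.End.one_apply] at h8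
    rw [h8]
    rfl
  exact (Module.finBasis ℂ V).repr.map_eq_zero_iff.1 h7

end Herm

section Main

variable {K L : Type} [Field K] [NumberField K] [Field L] [NumberField L] [Algebra K L]
  [IsGalois K L]

omit [IsGalois K L] in
/-- `V` occurs if its contragredient does. -/
theorem occ_dual (T : Set (HeightOneSpectrum (𝓞 L)))
    (V : Type) [AddCommGroup V] [Module ℂ V] [Module.Finite ℂ V]
    (ρ : Representation ℂ (L ≃ₐ[K] L) V) (hirr : ρ.IsIrreducible) (h : StarkP.OccursIn T ρ) :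
    StarkP.OccursIn T ρ.dual := by
  obtain ⟨f, hf, hfT, hfG⟩ := h
  have hD := ZDUx.dual_irr ρ hirr
  have hVn := ZDUx.nontrivial_of ρ hirr
  have hker : LinearMap.ker f = ⊥ := by
    rcases ZDUx.sub_of ρ.dual hD (LinearMap.ker f) (fun g α hα => by
      rw [LinearMap.mem_ker] at hα ⊢
      rw [hfG, hα, map_zero]) with h1 | h1
    · exact h1
    · exact absurd (LinearMap.ker_eq_top.1 h1) hf
  let f₁ : V →ₗ[ℂ] ((L → ℝ) →₀ ℂ) :=
    { toFun := fun v => cj (f (J ρ v))
      map_add' := fun v w => by rw [J_add, map_add, cj_add]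
      map_smul' := fun c v => by
        rw [J_smul, map_smul, cj_smul, Complex.conj_conj]
        rfl }
  let e : V ≃ₗ[ℂ] Module.Dual ℂ (Module.Dual ℂ V) := Module.evalEquiv ℂ V
  refine ⟨f₁ ∘ₗ (e.symm : Module.Dual ℂ (Module.Dual ℂ V) →ₗ[ℂ] V), ?_, ?_, ?_⟩
  · intro h0
    obtain ⟨v, hv⟩ := exists_ne (0 : V)
    apply hv
    have h1 : f₁ v = 0 := by
      have h2 := LinearMap.congr_fun h0 (e v)
      rw [LinearMap.comp_apply, LinearEquiv.coe_coe, e.symm_apply_apply] at h2
      exact h2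
    have h3 : f (J ρ v) = 0 := cj_inj _ h1
    have h4 : J ρ v ∈ LinearMap.ker f := h3
    rw [hker, Submodule.mem_bot] at h4
    exact J_inj ρ v h4
  · intro β
    exact cj_mem T _ (hfT _)
  · intro g β
    obtain ⟨v, rfl⟩ := e.surjective β
    have h1 : ρ.dual.dual g (e v) = e (ρ g v) := by
      ext α
      rw [Representation.dual_apply, Module.Dual.transpose_apply, LinearMap.comp_apply]
      show (ρ.dual g⁻¹ α) v = α (ρ g v)
      rw [Representation.dual_apply, inv_inv, Module.Dual.transpose_apply]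
      rfl
    rw [h1, LinearMap.comp_apply, LinearMap.comp_apply, LinearEquiv.coe_coe, e.symm_apply_apply,
      e.symm_apply_apply]
    show cj (f (J ρ (ρ g v))) = StarkP.act (g : L ≃+* L) (cj (f (J ρ v)))
    rw [J_equiv, hfG, cj_act]

omit [NumberField K] [IsGalois K L] in
/-- Isomorphic representations. -/
theorem occ_iso (T : Set (HeightOneSpectrum (𝓞 L)))
    (V W : Type) [AddCommGroup V] [Module ℂ V] [AddCommGroup W] [Module ℂ W]
    (ρ : Representation ℂ (L ≃ₐ[K] L) V) (σ : Representation ℂ (L ≃ₐ[K] L) W)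
    (e : W ≃ₗ[ℂ] V) (he : ∀ g w, e (σ g w) = ρ g (e w)) (h : StarkP.OccursIn T ρ) :
    StarkP.OccursIn T σ := by
  obtain ⟨f, hf, hfT, hfG⟩ := h
  have he' : ∀ g v, e.symm (ρ g v) = σ g (e.symm v) := fun g v => by
    rw [LinearEquiv.symm_apply_eq, he, e.apply_symm_apply]
  -- the dual of the inverse
  let d : Module.Dual ℂ W →ₗ[ℂ] Module.Dual ℂ V := Module.Dual.transpose (e.symm : V →ₗ[ℂ] W)
  have hd : ∀ (α : Module.Dual ℂ W) (v : V), d α v = α (e.symm v) := fun α v => rfl
  refine ⟨f ∘ₗ d, ?_, fun α => hfT _, fun g α => ?_⟩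
  · intro h0
    apply hf
    ext1 β
    have h1 := LinearMap.congr_fun h0 (Module.Dual.transpose (e : W →ₗ[ℂ] V) β)
    rw [LinearMap.comp_apply] at h1
    have h2 : d (Module.Dual.transpose (e : W →ₗ[ℂ] V) β) = β := by
      ext v
      show β (e (e.symm v)) = β v
      rw [e.apply_symm_apply]
    rw [h2] at h1
    rw [h1]
    rfl
  · rw [LinearMap.comp_apply, LinearMap.comp_apply, ← hfG]
    congr 1
    ext v
    rw [hd]
    show α (σ g⁻¹ (e.symm v)) = α (e.symm (ρ g⁻¹ v))
    rw [he']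

end Main

/-! ### The contragredient representation -/

section Dual

variable {G V : Type} [Group G] [AddCommGroup V] [Module ℂ V]

theorem charField_inv (χ : G → ℂ) :
    StarkP.charField (fun g => χ g⁻¹) = StarkP.charField χ := by
  have h : Set.range (fun g => χ g⁻¹) = Set.range χ := by
    ext z
    constructor
    · rintro ⟨g, rfl⟩
      exact ⟨g⁻¹, rfl⟩
    · rintro ⟨g, rfl⟩
      exact ⟨g⁻¹, by simp⟩
  show IntermediateField.adjoin ℚ (Set.range (fun g => χ g⁻¹)) = _
  rw [h]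
  rfl

theorem realizable_inv (χ : G → ℂ) (h : StarkP.Realizable χ) :
    StarkP.Realizable (fun g => χ g⁻¹) := by
  obtain ⟨d, R, hR, ht⟩ := h
  refine ⟨d, { toFun := fun g => (R g⁻¹).transpose, map_one' := ?_, map_mul' := ?_ }, ?_, ?_⟩
  · rw [inv_one, map_one, Matrix.transpose_one]
  · intro a b
    rw [mul_inv_rev, map_mul, Matrix.transpose_mul]
  · intro g i j
    rw [charField_inv]
    exact hR g⁻¹ j i
  · intro g
    show (R g⁻¹).transpose.trace = χ g⁻¹
    rw [Matrix.trace_transpose, ht]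

/-- Schur's lemma. -/
theorem schur {W : Type} [AddCommGroup W] [Module ℂ W] (ρ : Representation ℂ G V)
    (σ : Representation ℂ G W) (hρ : ρ.IsIrreducible) (hσ : σ.IsIrreducible) (f : W →ₗ[ℂ] V)
    (hf : ∀ g w, f (σ g w) = ρ g (f w)) (h0 : f ≠ 0) :
    ∃ e : W ≃ₗ[ℂ] V, ∀ g w, e (σ g w) = ρ g (e w) := by
  have hker : LinearMap.ker f = ⊥ := by
    rcases ZDUx.sub_of σ hσ (LinearMap.ker f) (fun g w hw => by
      rw [LinearMap.mem_ker] at hw ⊢
      rw [hf, hw, map_zero]) with h1 | h1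
    · exact h1
    · exact absurd (LinearMap.ker_eq_top.1 h1) h0
  have hran : LinearMap.range f = ⊤ := by
    rcases ZDUx.sub_of ρ hρ (LinearMap.range f) (fun g v hv => by
      obtain ⟨w, rfl⟩ := hv
      exact ⟨σ g w, hf g w⟩) with h1 | h1
    · exact absurd (LinearMap.range_eq_bot.1 h1) h0
    · exact h1
  exact ⟨LinearEquiv.ofBijective f ⟨LinearMap.ker_eq_bot.1 hker, LinearMap.range_eq_top.1 hran⟩,
    hf⟩

theorem char_of_equiv {W : Type} [AddCommGroup W] [Module ℂ W] (ρ : Representation ℂ G V)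
    (σ : Representation ℂ G W) (e : W ≃ₗ[ℂ] V) (he : ∀ g w, e (σ g w) = ρ g (e w)) :
    σ.character = ρ.character := by
  funext g
  have h1 : ρ g = (e : W →ₗ[ℂ] V) ∘ₗ σ g ∘ₗ (e.symm : V →ₗ[ℂ] W) := by
    ext v
    show ρ g v = e (σ g (e.symm v))
    rw [he, e.apply_symm_apply]
  show LinearMap.trace ℂ W (σ g) = LinearMap.trace ℂ V (ρ g)
  rw [h1]
  exact (LinearMap.trace_conj' (σ g) e).symm

/-- The constituents of `ρ ⊕ ρ^*`. -/
theorem con_prod [Module.Finite ℂ V] {W : Type} [AddCommGroup W] [Module ℂ W]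
    (ρ : Representation ℂ G V) (hρ : ρ.IsIrreducible) (σ : Representation ℂ G W)
    (hσ : σ.IsIrreducible) (h : StarkP.IsSub σ (ρ.prod ρ.dual)) :
    (∃ e : W ≃ₗ[ℂ] V, ∀ g w, e (σ g w) = ρ g (e w)) ∨
      ∃ e : W ≃ₗ[ℂ] Module.Dual ℂ V, ∀ g w, e (σ g w) = ρ.dual g (e w) := by
  obtain ⟨i, hi, hG⟩ := h
  by_cases h1 : LinearMap.fst ℂ V (Module.Dual ℂ V) ∘ₗ i = 0
  · right
    refine schur ρ.dual σ (ZDUx.dual_irr ρ hρ) hσ (LinearMap.snd ℂ V (Module.Dual ℂ V) ∘ₗ i)
      (fun g w => ?_) fun h2 => ?_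
    · show (i (σ g w)).2 = ρ.dual g (i w).2
      rw [hG]
      rfl
    · have hWn := ZDUx.nontrivial_of σ hσ
      obtain ⟨w, hw⟩ := exists_ne (0 : W)
      apply hw
      apply hi
      rw [map_zero]
      exact Prod.ext (LinearMap.congr_fun h1 w) (LinearMap.congr_fun h2 w)
  · left
    refine schur ρ σ hρ hσ (LinearMap.fst ℂ V (Module.Dual ℂ V) ∘ₗ i) (fun g w => ?_) h1
    show (i (σ g w)).1 = ρ g (i w).1
    rw [hG]
    rfl

end Dual

end EXOx

open EXOx FABx in
/-- If `φ` is exact on the rational-valued characters all of whose constituents are good, then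
`|R_S(χ, φ)| = |L_S^*(0, χ)|` for every good `χ` with imaginary quadratic `ℚ(χ)`. -/
theorem abs_of_exact {K L : Type} [Field K] [NumberField K] [Field L] [NumberField L]
    [Algebra K L] [IsGalois K L] (S : Finset (HeightOneSpectrum (𝓞 K)))
    (Θ : ((L → ℝ) →₀ ℂ) →ₗ[ℂ] ((L → ℝ) →₀ ℂ))
    (hΘ : StarkP.IsTheta K (StarkP.aboveSet K L S) Θ)
    (hex : ∀ (V : Type) [AddCommGroup V] [Module ℂ V] [Module.Finite ℂ V]
        (ρ : Representation ℂ (L ≃ₐ[K] L) V), (∀ g, ∃ q : ℚ, ρ.character g = (q : ℂ)) →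
        (∀ (W : Type) [AddCommGroup W] [Module ℂ W] [Module.Finite ℂ W]
          (σ : Representation ℂ (L ≃ₐ[K] L) W), σ.IsIrreducible → StarkP.IsSub σ ρ →
          StarkP.OccursIn (StarkP.aboveSet K L S) σ ∧ StarkP.Realizable σ.character ∧
          ∃ Θ' : ((L → ℝ) →₀ ℂ) →ₗ[ℂ] ((L → ℝ) →₀ ℂ),
            StarkP.IsTheta K (StarkP.aboveSet K L S) Θ' ∧
            StarkP.NormIn (StarkP.charField σ.character) σ.character
              (S : Set (HeightOneSpectrum (𝓞 K))) Θ') →
        ∃ F : ℂ → ℂ, StarkP.IsArtinL ρ.character (S : Set (HeightOneSpectrum (𝓞 K))) F ∧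
          StarkP.Reg (StarkP.aboveSet K L S) ρ Θ = meromorphicTrailingCoeffAt F 0)
    (V : Type) [AddCommGroup V] [Module ℂ V] [Module.Finite ℂ V]
    (ρ : Representation ℂ (L ≃ₐ[K] L) V) (hirr : ρ.IsIrreducible)
    (hocc : StarkP.OccursIn (StarkP.aboveSet K L S) ρ) (hreal : StarkP.Realizable ρ.character)
    (hN : ∃ Θ' : ((L → ℝ) →₀ ℂ) →ₗ[ℂ] ((L → ℝ) →₀ ℂ),
      StarkP.IsTheta K (StarkP.aboveSet K L S) Θ' ∧
      StarkP.NormIn (StarkP.charField ρ.character) ρ.character
        (S : Set (HeightOneSpectrum (𝓞 K))) Θ')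
    (h2 : Module.finrank ℚ (StarkP.charField ρ.character) = 2)
    (him : ∃ g, (ρ.character g).im ≠ 0)
    (f : ℂ → ℂ) (hf : StarkP.IsArtinL ρ.character (S : Set (HeightOneSpectrum (𝓞 K))) f) :
    ‖StarkP.Reg (StarkP.aboveSet K L S) ρ Θ‖ = ‖meromorphicTrailingCoeffAt f 0‖ := by
  obtain ⟨r, H, ψ, c, -, hχ⟩ := monC_all ρ (Fintype.card (L ≃ₐ[K] L)) fun g => by
    rw [← map_pow, pow_card_eq_one, map_one]
  obtain ⟨g₀, hg₀⟩ := him
  have hfin : FiniteDimensional ℚ (StarkP.charField ρ.character) :=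
    Module.finite_of_finrank_pos (by rw [h2]; norm_num)
  let x₀ : StarkP.charField ρ.character :=
    ⟨ρ.character g₀, IntermediateField.subset_adjoin ℚ _ (Set.mem_range_self g₀)⟩
  have hx₀ : (x₀ : ℂ).im ≠ 0 := hg₀
  have htr : StarkP.trChar ρ.character = fun g => ρ.character g + conj (ρ.character g) := by
    funext g
    exact tr_eq h2 x₀ hx₀ _
  have hinv : ∀ g, ρ.character g⁻¹ = conj (ρ.character g) := by
    intro g
    rw [hχ g⁻¹, hχ g, map_sum]
    refine Finset.sum_congr rfl fun i _ => ?_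
    rw [ind_inv, map_mul, map_intCast]
  have hdual : ρ.dual.character = fun g => ρ.character g⁻¹ := by
    funext g
    exact Representation.char_dual ρ g
  have hτ : (ρ.prod ρ.dual).character = StarkP.trChar ρ.character := by
    rw [htr]
    funext g
    have h3 : (ρ.prod ρ.dual).character g = ρ.character g + ρ.dual.character g :=
      LinearMap.trace_prodMap' (ρ g) (ρ.dual g)
    rw [h3, Representation.char_dual, hinv]
  have hcf : StarkP.charField ρ.dual.character = StarkP.charField ρ.character := by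
    rw [hdual]
    exact charField_inv _
  have hfin' : FiniteDimensional ℚ (StarkP.charField ρ.dual.character) := by
    rw [hcf]
    exact hfin
  have htr' : StarkP.trChar ρ.dual.character = StarkP.trChar ρ.character := by
    rw [htr]
    funext g
    let y₀ : StarkP.charField ρ.dual.character :=
      ⟨ρ.dual.character g₀, IntermediateField.subset_adjoin ℚ _ (Set.mem_range_self g₀)⟩
    have hy₀ : (y₀ : ℂ).im ≠ 0 := by
      show (ρ.dual.character g₀).im ≠ 0
      rw [Representation.char_dual, hinv, Complex.conj_im]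
      exact neg_ne_zero.2 hg₀
    have h3 : StarkP.trChar ρ.dual.character g =
        ρ.dual.character g + conj (ρ.dual.character g) :=
      tr_eq (by rw [hcf]; exact h2) y₀ hy₀ _
    rw [h3, Representation.char_dual, hinv, Complex.conj_conj, add_comm]
  obtain ⟨F, hF, hR⟩ := hex (V × Module.Dual ℂ V) (ρ.prod ρ.dual) (fun g => by
    rw [hτ]
    exact ⟨_, rfl⟩) (fun W _ _ _ σ hσ hsub => by
    rcases con_prod ρ hirr σ hσ hsub with ⟨e, he⟩ | ⟨e, he⟩
    · have h3 := char_of_equiv ρ σ e he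
      rw [h3]
      exact ⟨occ_iso _ V W ρ σ e he hocc, hreal, hN⟩
    · have h3 := char_of_equiv ρ.dual σ e he
      rw [h3]
      refine ⟨occ_iso _ (Module.Dual ℂ V) W ρ.dual σ e he (occ_dual _ V ρ hirr hocc), ?_, ?_⟩
      · rw [hdual]
        exact realizable_inv _ hreal
      · obtain ⟨Θ', hΘ', F', α, h4, h5, h6⟩ := hN
        refine ⟨Θ', hΘ', ?_⟩
        rw [hcf]
        refine ⟨F', α, ?_, h5, ?_⟩
        · rw [htr']
          exact h4
        · intro V' _ _ _ ρ' hρ'
          exact h6 V' ρ' (hρ'.trans htr'))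
  refine abs_exact S Θ hΘ V ρ h2 ⟨g₀, hg₀⟩ F ?_ hR f hf
  rw [← hτ]
  exact hF

end StarkC.ABS
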