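import Pool.Agent.ABS.EXR

/-!
# Project ABS: characters of groups of exponent dividing `4` or `6` have rational real part
-/

set_option autoImplicit false

open NumberField IsDedekindDomain ComplexConjugate
open scoped Classical

namespace StarkC.ABS

namespace EXQx

theorem mem_root {n : ℕ} (z : ℂ) (hz : z ^ n = 1) : z ∈ StarkP.rootField n :=
  IntermediateField.subset_adjoin ℚ _ hz

theorem exists_im (n : ℕ) (hn : n = 4 ∨ n = 6) :
    ∃ x₀ : StarkP.rootField n, (x₀ : ℂ).im ≠ 0 := by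
  have hn0 : n ≠ 0 := by rcases hn with rfl | rfl <;> norm_num
  have hζ := Complex.isPrimitiveRoot_exp n hn0
  refine ⟨⟨_, mem_root _ hζ.pow_eq_one⟩, fun h => ?_⟩
  set ζ : ℂ := Complex.exp (2 * Real.pi * Complex.I / (n : ℂ)) with hζd
  have h1 : ζ = ((ζ.re : ℝ) : ℂ) := Complex.ext rfl (by rw [h, Complex.ofReal_im])
  have h2 : ‖ζ‖ = 1 := Complex.norm_eq_one_of_pow_eq_one hζ.pow_eq_one hn0
  have h3 : ζ ^ 2 = 1 := by
    rw [h1] at h2 ⊢
    rw [Complex.norm_real, Real.norm_eq_abs] at h2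
    rw [← Complex.ofReal_pow, ← sq_abs, h2]
    norm_num
  have h4 := hζ.dvd_of_pow_eq_one 2 h3
  rcases hn with rfl | rfl
  · exact absurd (Nat.le_of_dvd two_pos h4) (by norm_num)
  · exact absurd (Nat.le_of_dvd two_pos h4) (by norm_num)

/-- The real part of a character of exponent dividing `4` or `6` is rational. -/
theorem re_rational {G V : Type} [Group G] [Fintype G] [AddCommGroup V] [Module ℂ V]
    [Module.Finite ℂ V] (ρ : Representation ℂ G V) (n : ℕ) (hn : n = 4 ∨ n = 6)
    (hρ : ∀ g, ρ g ^ n = 1) (g : G) : ∃ q : ℚ, (ρ.character g).re = (q : ℝ) := by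
  have hn0 : 0 < n := by rcases hn with rfl | rfl <;> norm_num
  have hle := charField_le ρ n hn0 hρ
  obtain ⟨x₀, hx₀⟩ := exists_im n hn
  have hm : ρ.character g ∈ StarkP.rootField n :=
    hle (IntermediateField.subset_adjoin ℚ _ (Set.mem_range_self g))
  have hfd : FiniteDimensional ℚ (StarkP.rootField n) :=
    Module.finite_of_finrank_pos (by rw [EXNx.finrank_two n hn]; norm_num)
  have h1 := FABx.tr_eq (EXNx.finrank_two n hn) x₀ hx₀ ⟨ρ.character g, hm⟩
  have h2 := congrArg Complex.re h1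
  refine ⟨Algebra.trace ℚ (StarkP.rootField n) ⟨ρ.character g, hm⟩ / 2, ?_⟩
  rw [Complex.add_re, Complex.conj_re, Complex.ratCast_re] at h2
  push_cast
  rw [h2]
  ring

end EXQx

end StarkC.ABS
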