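import Pool.Agent.ABS.EX6

/-!
# Project ABS (MP_46b841_nt): groups of exponent dividing `2 ℓ^k`, `ℓ` an odd prime (helper91)

The proof is that of `EX6.lean` (helper72) with `ℓ^k` in place of 3.
-/

set_option autoImplicit false

open scoped Classical

namespace StarkC.ABS

open StarkP (rootField charField)
open EX6x

/-- Groups of exponent dividing `2 ℓ^k`, `ℓ` an odd prime. -/
theorem inH_of_exp2 {G V : Type} [Group G] [Fintype G] [AddCommGroup V] [Module ℂ V]
    [Module.Finite ℂ V] (ρ : Representation ℂ G V) (ℓ k : ℕ) (hl : ℓ.Prime) (hl2 : ℓ ≠ 2)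
    (h6 : ∀ g : G, g ^ (2 * ℓ ^ k) = 1) : StarkP.InH ρ := by
  have hF : charField ρ.character ≤ rootField (ℓ ^ k) := by
    have h1 := charField_le ρ (2 * ℓ ^ k) (Nat.mul_pos two_pos (pow_pos hl.pos k)) fun g => by
      rw [← map_pow, h6, map_one]
    exact h1.trans (FINC2x.root_two ℓ k hl hl2)
  intro H hH W _ _ _ τ hτ _
  have h6H : ∀ x : H, x ^ (2 * ℓ ^ k) = 1 := fun x => Subtype.ext (h6 x)
  obtain ⟨p, C, hp, hC, hcyc, hpC, n, hn⟩ := hH
  have : Fact p.Prime := ⟨hp⟩
  have h2l : Nat.Coprime 2 ℓ := (Nat.coprime_primes Nat.prime_two hl).2 (Ne.symm hl2)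
  by_cases hp2 : p = 2
  · subst hp2
    have hsq : ∀ P : Subgroup H, IsPGroup 2 P → ∀ x ∈ P, x ^ 2 = 1 := by
      intro P hP x hx
      obtain ⟨i, hi⟩ := hP ⟨x, hx⟩
      have hi' : x ^ 2 ^ i = 1 := congrArg Subtype.val hi
      refine dvd_of hi' (h6H x) ?_
      have h1 : (2 ^ i).Coprime (ℓ ^ k) := Nat.Coprime.pow i k h2l
      exact (Nat.Coprime.coprime_dvd_left (Nat.gcd_dvd_left _ _) h1).dvd_of_dvd_mul_right
        (Nat.gcd_dvd_right _ _)
    obtain ⟨T, P, ψ, hol, hχ⟩ := holD_of_p H W τ hτ 2 C hp hC hcyc hpC n hn fun P hP => by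
      refine ⟨hsq P hP, fun x hx y hy => ?_⟩
      have h1 := hsq P hP (x * y) (P.mul_mem hx hy)
      have h2 := hsq P hP x hx
      have h3 := hsq P hP y hy
      rw [pow_two] at h1 h2 h3
      have h4 : x⁻¹ = x := inv_eq_of_mul_eq_one_left h2
      have h5 : y⁻¹ = y := inv_eq_of_mul_eq_one_left h3
      have h7 : (x * y)⁻¹ = x * y := inv_eq_of_mul_eq_one_left h1
      rw [← h7, mul_inv_rev, h4, h5]
    exact inB_of_holD τ hol hχ _ ℓ k hl hl2 hF
  · refine Or.inl ⟨Or.inl ?_, ℓ, k, hl, inf_le_left.trans hF⟩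
    refine nilNS_central τ hτ p C hp hp2 hC hpC n hn ?_
    by_cases hp3 : p = ℓ
    · subst hp3
      -- `C` has at most two elements
      have hc2 : ∀ c ∈ C, c ^ 2 = 1 := by
        intro c hc
        have h1 : orderOf c ∣ Nat.card C := by
          rw [← Subgroup.orderOf_mk c hc]
          exact orderOf_dvd_natCard _
        have h2 : (orderOf c).Coprime (p ^ k) :=
          Nat.Coprime.pow_right k
            (Nat.Coprime.coprime_dvd_left h1 ((Nat.Prime.coprime_iff_not_dvd hp).2 hpC).symm)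
        have h3 : orderOf c ∣ 2 * p ^ k := orderOf_dvd_of_pow_eq_one (h6H c)
        exact orderOf_dvd_iff_pow_eq_one.1 (h2.dvd_of_dvd_mul_right h3)
      obtain ⟨⟨c₀, hc₀⟩, hgen⟩ := hcyc.exists_generator
      have hcc : ∀ c ∈ C, c = 1 ∨ c = c₀ := by
        intro c hc
        obtain ⟨i, hi⟩ := Subgroup.mem_zpowers_iff.1 (hgen ⟨c, hc⟩)
        have hi' : c₀ ^ i = c := congrArg Subtype.val hi
        rcases Int.even_or_odd' i with ⟨m, rfl | rfl⟩
        · left
          rw [← hi', zpow_mul]
          have h1 : c₀ ^ (2 : ℤ) = 1 := by exact_mod_cast hc2 c₀ hc₀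
          rw [h1, one_zpow]
        · right
          rw [← hi', zpow_add, zpow_mul, zpow_one]
          have h1 : c₀ ^ (2 : ℤ) = 1 := by exact_mod_cast hc2 c₀ hc₀
          rw [h1, one_zpow, one_mul]
      intro c hc
      rw [Subgroup.mem_center_iff]
      intro g
      by_cases h1 : c = 1
      · rw [h1, mul_one, one_mul]
      · have h2 := hC.conj_mem c hc g
        rcases hcc _ h2 with h3 | h3
        · exfalso
          apply h1
          have h4 : c = g⁻¹ * (g * c * g⁻¹) * g := by group
          rw [h4, h3]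
          group
        · rcases hcc c hc with h4 | h4
          · exact absurd h4 h1
          · rw [← h4] at h3
            calc g * c = g * c * g⁻¹ * g := by group
              _ = c * g := by rw [h3]
    · -- `H = C`
      have hn0 : n = 0 := by
        by_contra hne
        have h1 : p ∣ Nat.card H := by
          have h2 : C.index ∣ Nat.card H := C.index_dvd_card
          rw [hn] at h2
          exact (dvd_pow_self p hne).trans h2
        obtain ⟨x, hx⟩ := exists_prime_orderOf_dvd_card' p h1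
        have h2 : p ∣ 2 * ℓ ^ k := by
          rw [← hx]
          exact orderOf_dvd_of_pow_eq_one (h6H x)
        rcases (Nat.Prime.dvd_mul hp).1 h2 with h4 | h4
        · exact hp2 ((Nat.prime_dvd_prime_iff_eq hp Nat.prime_two).1 h4)
        · exact hp3 ((Nat.prime_dvd_prime_iff_eq hp hl).1 (hp.dvd_of_dvd_pow h4))
      rw [hn0, pow_zero, Subgroup.index_eq_one] at hn
      intro c hc
      rw [Subgroup.mem_center_iff]
      intro g
      have hg : g ∈ C := by
        rw [hn]
        exact Subgroup.mem_top g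
      have hcomm : ∀ a b : C, a * b = b * a := fun a b => by
        obtain ⟨z, hz⟩ := hcyc.exists_generator
        obtain ⟨i, rfl⟩ := Subgroup.mem_zpowers_iff.1 (hz a)
        obtain ⟨j, rfl⟩ := Subgroup.mem_zpowers_iff.1 (hz b)
        rw [← zpow_add, ← zpow_add, add_comm]
      exact congrArg Subtype.val (hcomm ⟨g, hg⟩ ⟨c, hc⟩)

end StarkC.ABS
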