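import Pool.Agent.ABS.EXN

/-!
# Project ABS: one exact `φ` and absolute values, characters with rational real part
-/

set_option autoImplicit false

open NumberField IsDedekindDomain ComplexConjugate
open scoped TensorProduct Classical

namespace StarkC.ABS

namespace EXRx

open EXOx

/-! ### Duals -/

section Dual

variable {G V : Type} [Group G] [Fintype G] [AddCommGroup V] [Module ℂ V] [Module.Finite ℂ V]

/-- A subrepresentation of the contragredient is the contragredient of a subrepresentation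
(Maschke). -/
theorem sub_of_dual {W : Type} [AddCommGroup W] [Module ℂ W] [Module.Finite ℂ W]
    (ρ : Representation ℂ G V) (σ : Representation ℂ G W) (h : StarkP.IsSub σ ρ.dual) :
    StarkP.IsSub σ.dual ρ := by
  obtain ⟨i, hi, hG⟩ := h
  let p : V →ₗ[ℂ] Module.Dual ℂ W := i.dualMap ∘ₗ Module.Dual.eval ℂ V
  have hp : ∀ v w, p v w = i w v := fun v w => rfl
  have hpG : ∀ g v, p (ρ g v) = σ.dual g (p v) := by
    intro g v
    ext w
    rw [hp, Representation.dual_apply, Module.Dual.transpose_apply, LinearMap.comp_apply, hp, hG,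
      Representation.dual_apply, inv_inv, Module.Dual.transpose_apply, LinearMap.comp_apply]
  have hps : Function.Surjective p := by
    have h1 : Function.Surjective i.dualMap := LinearMap.dualMap_surjective_of_injective hi
    exact h1.comp (Module.evalEquiv ℂ V).surjective
  obtain ⟨s, hs⟩ := LinearMap.exists_rightInverse_of_surjective p (LinearMap.range_eq_top.2 hps)
  have hs' : ∀ α, p (s α) = α := fun α => LinearMap.congr_fun hs α
  let t : Module.Dual ℂ W →ₗ[ℂ] V := (Fintype.card G : ℂ)⁻¹ • ∑ g : G, ρ g ∘ₗ s ∘ₗ σ.dual g⁻¹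
  have ht : ∀ α, t α = (Fintype.card G : ℂ)⁻¹ • ∑ g : G, ρ g (s (σ.dual g⁻¹ α)) := by
    intro α
    simp only [t, LinearMap.smul_apply, LinearMap.sum_apply, LinearMap.comp_apply]
  have hc : (Fintype.card G : ℂ) ≠ 0 := by exact_mod_cast Fintype.card_ne_zero
  have hinv : ∀ (g : G) (α : Module.Dual ℂ W), σ.dual g (σ.dual g⁻¹ α) = α := by
    intro g α
    rw [← Module.End.mul_apply, ← map_mul, mul_inv_cancel, map_one, Module.End.one_apply]
  have hpt : ∀ α, p (t α) = α := by
    intro α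
    rw [ht, map_smul, map_sum]
    have h1 : ∀ g : G, p (ρ g (s (σ.dual g⁻¹ α))) = α := fun g => by
      rw [hpG, hs', hinv]
    rw [Finset.sum_congr rfl fun g _ => h1 g, Finset.sum_const, Finset.card_univ,
      ← Nat.cast_smul_eq_nsmul ℂ, smul_smul, inv_mul_cancel₀ hc, one_smul]
  refine ⟨t, fun α β h => by rw [← hpt α, h, hpt], fun h α => ?_⟩
  rw [ht, ht, map_smul, map_sum]
  congr 1
  refine Fintype.sum_equiv (Equiv.mulLeft h⁻¹) _ _ fun g => ?_
  rw [Equiv.coe_mulLeft]
  have h1 : σ.dual (h⁻¹ * g)⁻¹ α = σ.dual g⁻¹ (σ.dual h α) := by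
    rw [mul_inv_rev, inv_inv, map_mul, Module.End.mul_apply]
  have h2 : ρ h (ρ (h⁻¹ * g) (s (σ.dual g⁻¹ (σ.dual h α)))) =
      ρ g (s (σ.dual g⁻¹ (σ.dual h α))) := by
    rw [← Module.End.mul_apply, ← map_mul, mul_inv_cancel_left]
  rw [h1, h2]

omit [Fintype G] [Module.Finite ℂ V] in
/-- The constituents of `ρ ⊕ ρ^*`. -/
theorem con_prod' {W : Type} [AddCommGroup W] [Module ℂ W]
    (ρ : Representation ℂ G V) (σ : Representation ℂ G W)
    (hσ : σ.IsIrreducible) (h : StarkP.IsSub σ (ρ.prod ρ.dual)) :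
    StarkP.IsSub σ ρ ∨ StarkP.IsSub σ ρ.dual := by
  obtain ⟨i, hi, hG⟩ := h
  by_cases h1 : LinearMap.fst ℂ V (Module.Dual ℂ V) ∘ₗ i = 0
  · right
    refine ⟨LinearMap.snd ℂ V (Module.Dual ℂ V) ∘ₗ i, fun v w hvw => hi ?_, fun g w => ?_⟩
    · refine Prod.ext ?_ hvw
      exact (LinearMap.congr_fun h1 v).trans (LinearMap.congr_fun h1 w).symm
    · show (i (σ g w)).2 = ρ.dual g (i w).2
      rw [hG]
      rfl
  · left
    have hf : ∀ g w, (LinearMap.fst ℂ V (Module.Dual ℂ V) ∘ₗ i) (σ g w) =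
        ρ g ((LinearMap.fst ℂ V (Module.Dual ℂ V) ∘ₗ i) w) := by
      intro g w
      show (i (σ g w)).1 = ρ g (i w).1
      rw [hG]
      rfl
    refine ⟨LinearMap.fst ℂ V (Module.Dual ℂ V) ∘ₗ i, ?_, hf⟩
    rcases ZDUx.sub_of σ hσ (LinearMap.ker (LinearMap.fst ℂ V (Module.Dual ℂ V) ∘ₗ i))
      (fun g w hw => by
        rw [LinearMap.mem_ker] at hw ⊢
        rw [hf, hw, map_zero]) with h2 | h2
    · exact LinearMap.ker_eq_bot.1 h2
    · exact absurd (LinearMap.ker_eq_top.1 h2) h1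

/-- `χ(g⁻¹)` is the complex conjugate of `χ(g)`. -/
theorem char_inv (ρ : Representation ℂ G V) (g : G) :
    ρ.character g⁻¹ = conj (ρ.character g) := by
  obtain ⟨r, H, ψ, c, -, hχ⟩ := monC_all ρ (Fintype.card G) fun g => by
    rw [← map_pow, pow_card_eq_one, map_one]
  rw [hχ g⁻¹, hχ g, map_sum]
  refine Finset.sum_congr rfl fun i _ => ?_
  rw [FABx.ind_inv, map_mul, map_intCast]

theorem trace_eq (F F₀ : IntermediateField ℚ ℂ) (h : F = F₀) (x : ℂ) (hx : x ∈ F) (hx₀ : x ∈ F₀) :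
    Algebra.trace ℚ F ⟨x, hx⟩ = Algebra.trace ℚ F₀ ⟨x, hx₀⟩ := by
  subst h
  rfl

/-- `Tr χ` and `Tr` of the contragredient character. -/
theorem trChar_inv (ρ : Representation ℂ G V) :
    StarkP.trChar (fun g => ρ.character g⁻¹) = StarkP.trChar ρ.character := by
  funext g
  have hn : 0 < Fintype.card G := Fintype.card_pos
  have hle := charField_le ρ (Fintype.card G) hn fun g => by
    rw [← map_pow, pow_card_eq_one, map_one]
  have hG : IsGalois ℚ (StarkP.charField ρ.character) := galois_of_le _ hn _ hle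
  let c : ℂ ≃ₐ[ℚ] ℂ := Complex.conjAe.restrictScalars ℚ
  let c' : StarkP.charField ρ.character ≃ₐ[ℚ] StarkP.charField ρ.character :=
    c.restrictNormal (StarkP.charField ρ.character)
  have hc' : ∀ x : StarkP.charField ρ.character, ((c' x : StarkP.charField ρ.character) : ℂ) =
      conj (x : ℂ) := fun x => AlgEquiv.restrictNormal_commutes c _ x
  unfold StarkP.trChar
  congr 1
  have hm : ρ.character g ∈ StarkP.charField ρ.character :=
    IntermediateField.subset_adjoin ℚ _ (Set.mem_range_self g)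
  have hm' : ρ.character g⁻¹ ∈ StarkP.charField ρ.character :=
    IntermediateField.subset_adjoin ℚ _ (Set.mem_range_self g⁻¹)
  refine (trace_eq _ _ (charField_inv ρ.character) (ρ.character g⁻¹) _ hm').trans ?_
  have h1 : (⟨ρ.character g⁻¹, hm'⟩ : StarkP.charField ρ.character) =
      c' ⟨ρ.character g, hm⟩ := Subtype.ext (by rw [hc']; exact char_inv ρ g)
  rw [h1]
  exact Algebra.trace_eq_of_algEquiv c' ⟨ρ.character g, hm⟩

end Dual

section Good

variable {K L : Type} [Field K] [NumberField K] [Field L] [NumberField L]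
  [Algebra K L] [IsGalois K L]

/-- The condition on the constituents. -/
def Good (S : Finset (HeightOneSpectrum (𝓞 K))) {W : Type} [AddCommGroup W] [Module ℂ W]
    (σ : Representation ℂ (L ≃ₐ[K] L) W) : Prop :=
  StarkP.OccursIn (StarkP.aboveSet K L S) σ ∧ StarkP.Realizable σ.character ∧
    ∃ Θ' : ((L → ℝ) →₀ ℂ) →ₗ[ℂ] ((L → ℝ) →₀ ℂ),
      StarkP.IsTheta K (StarkP.aboveSet K L S) Θ' ∧
      StarkP.NormIn (StarkP.charField σ.character) σ.character
        (S : Set (HeightOneSpectrum (𝓞 K))) Θ'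

omit [IsGalois K L] in
theorem good_dual (S : Finset (HeightOneSpectrum (𝓞 K))) {W : Type} [AddCommGroup W]
    [Module ℂ W] [Module.Finite ℂ W] (σ : Representation ℂ (L ≃ₐ[K] L) W)
    (hσ : σ.IsIrreducible) (h : Good S σ.dual) : Good S σ := by
  obtain ⟨h1, h2, Θ', hΘ', F, α, h3, h4, h5⟩ := h
  have hdual : σ.dual.character = fun g => σ.character g⁻¹ := by
    funext g
    exact Representation.char_dual σ g
  have hcf : StarkP.charField σ.dual.character = StarkP.charField σ.character := by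
    rw [hdual]
    exact charField_inv _
  have htr : StarkP.trChar σ.dual.character = StarkP.trChar σ.character := by
    rw [hdual]
    exact trChar_inv σ
  refine ⟨?_, ?_, Θ', hΘ', ?_⟩
  · refine occ_iso _ (Module.Dual ℂ (Module.Dual ℂ W)) W σ.dual.dual σ (Module.evalEquiv ℂ W)
      (fun g w => ?_) (occ_dual _ _ σ.dual (ZDUx.dual_irr σ hσ) h1)
    ext α
    rw [Representation.dual_apply, Module.Dual.transpose_apply, LinearMap.comp_apply]
    show α (σ g w) = (σ.dual g⁻¹ α) w
    rw [Representation.dual_apply, inv_inv, Module.Dual.transpose_apply]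
    rfl
  · have h6 := realizable_inv _ h2
    rw [hdual] at h6
    simpa only [inv_inv] using h6
  · rw [← hcf]
    refine ⟨F, α, ?_, h4, fun V' _ _ _ ρ' hρ' => ?_⟩
    · rw [← htr]
      exact h3
    · exact h5 V' ρ' (hρ'.trans htr.symm)

open LASTx FABx in
/-- If `φ` is exact on `χ + conj χ` then `|R_S(χ, φ)| = |L_S^*(0, χ)|`. -/
theorem abs_exact' (S : Finset (HeightOneSpectrum (𝓞 K)))
    (Θ : ((L → ℝ) →₀ ℂ) →ₗ[ℂ] ((L → ℝ) →₀ ℂ))
    (hΘ : StarkP.IsTheta K (StarkP.aboveSet K L S) Θ)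
    (V : Type) [AddCommGroup V] [Module ℂ V] [Module.Finite ℂ V]
    (ρ : Representation ℂ (L ≃ₐ[K] L) V)
    (F : ℂ → ℂ) (hF : StarkP.IsArtinL (fun g => ρ.character g + conj (ρ.character g))
      (S : Set (HeightOneSpectrum (𝓞 K))) F)
    (hE : StarkP.Reg (StarkP.aboveSet K L S) (ρ.prod ρ.dual) Θ = meromorphicTrailingCoeffAt F 0)
    (f : ℂ → ℂ) (hf : StarkP.IsArtinL ρ.character (S : Set (HeightOneSpectrum (𝓞 K))) f) :
    ‖StarkP.Reg (StarkP.aboveSet K L S) ρ Θ‖ = ‖meromorphicTrailingCoeffAt f 0‖ := by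
  obtain ⟨r, H, ψ, c, -, hχ'⟩ := monC_all ρ (Fintype.card (L ≃ₐ[K] L)) fun g => by
    rw [← map_pow, pow_card_eq_one, map_one]
  have hχ : ∀ g, ((1 : ℕ) : ℂ) * ρ.character g =
      ∑ i, (c i : ℂ) * indFun (H i) (extZ (ψ i)) g := fun g => by
    rw [Nat.cast_one, one_mul]
    exact hχ' g
  obtain ⟨φ, Θ₀, hφ, hreg⟩ := StarkB.exists_isPhiTheta (K := K) (L := L)
    (S : Set (HeightOneSpectrum (𝓞 K))) S.finite_toSet Θ hΘ
  have hinv : ∀ g, ρ.character g⁻¹ = conj (ρ.character g) := char_inv ρ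
  -- the two continuations
  have ht : meromorphicTrailingCoeffAt F 0 =
      meromorphicTrailingCoeffAt f 0 * conj (meromorphicTrailingCoeffAt f 0) := by
    rw [← cf_trail (hf.1 0)]
    have h1 := MeromorphicAt.meromorphicTrailingCoeffAt_mul (hf.1 0)
      (cf_mero (f := f) (z := 0) (by simpa using hf.1 0))
    rw [← h1]
    refine trail_unique hF.1 (fun z => (hf.1 z).mul (cf_mero (hf.1 (conj z)))) fun s hs => ?_
    rw [hF.2 s hs]
    show _ = f s * cf f s
    have h2 := IND.logL_sum (K := K) (N := L) LA_thm ALLT.lb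
      (S : Set (HeightOneSpectrum (𝓞 K))) s hs 2 ![1, 1]
      ![ρ.character, fun g => conj (ρ.character g)]
    simp only [Fin.sum_univ_two, Matrix.cons_val_zero, Matrix.cons_val_one, one_mul] at h2
    have h3 : StarkP.logL (fun g => ρ.character g + conj (ρ.character g))
        (S : Set (HeightOneSpectrum (𝓞 K))) s =
        logL (fun g => ρ.character g + conj (ρ.character g))
          (S : Set (HeightOneSpectrum (𝓞 K))) s := rfl
    have h4 : f s = Complex.exp (logL ρ.character (S : Set (HeightOneSpectrum (𝓞 K))) s) :=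
      hf.2 s hs
    have h5 : f (conj s) =
        Complex.exp (logL ρ.character (S : Set (HeightOneSpectrum (𝓞 K))) (conj s)) :=
      hf.2 (conj s) (by simpa using hs)
    rw [h3, h2, Complex.exp_add, ← h4, logL_conj, cf_apply, h5, Complex.exp_conj]
  have hτ : ∀ g, (ρ.prod ρ.dual).character g = ρ.character g + conj (ρ.character g) := by
    intro g
    have h3 : (ρ.prod ρ.dual).character g = ρ.character g + ρ.dual.character g :=
      LinearMap.trace_prodMap' (ρ g) (ρ.dual g)
    rw [h3, Representation.char_dual, hinv]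
  have h7 := reg_two REGC_thm S φ Θ₀ hφ V ρ (V × Module.Dual ℂ V) (ρ.prod ρ.dual)
    hτ 1 r one_pos H ψ c hχ
  have h6 := hE
  rw [show StarkP.Reg (StarkP.aboveSet K L S) (ρ.prod ρ.dual) Θ = _ from
    hreg (V × Module.Dual ℂ V) (ρ.prod ρ.dual), ht] at h6
  rw [show StarkP.Reg (StarkP.aboveSet K L S) ρ Θ = _ from hreg V ρ]
  have h8 := congrArg norm h6
  rw [h7, norm_mul, Complex.norm_conj, ← sq] at h8
  exact (pow_left_inj₀ (norm_nonneg _) (norm_nonneg _) two_ne_zero).1 h8

end Good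

end EXRx

open EXRx EXOx in
/-- One `φ` which is exact on the rational-valued characters with good constituents satisfies
`|R_S(χ, φ)| = |L_S^*(0, χ)|` for all characters with good constituents and rational real part. -/
theorem abs_re {K L : Type} [Field K] [NumberField K] [Field L] [NumberField L]
    [Algebra K L] [IsGalois K L] (S : Finset (HeightOneSpectrum (𝓞 K)))
    (Θ : ((L → ℝ) →₀ ℂ) →ₗ[ℂ] ((L → ℝ) →₀ ℂ))
    (hΘ : StarkP.IsTheta K (StarkP.aboveSet K L S) Θ)
    (hex : ∀ (V : Type) [AddCommGroup V] [Module ℂ V] [Module.Finite ℂ V]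
        (ρ : Representation ℂ (L ≃ₐ[K] L) V), (∀ g, ∃ q : ℚ, ρ.character g = (q : ℂ)) →
        (∀ (W : Type) [AddCommGroup W] [Module ℂ W] [Module.Finite ℂ W]
          (σ : Representation ℂ (L ≃ₐ[K] L) W), σ.IsIrreducible → StarkP.IsSub σ ρ →
          StarkP.OccursIn (StarkP.aboveSet K L S) σ ∧ StarkP.Realizable σ.character ∧
          ∃ Θ' : ((L → ℝ) →₀ ℂ) →ₗ[ℂ] ((L → ℝ) →₀ ℂ),
            StarkP.IsTheta K (StarkP.aboveSet K L S) Θ' ∧
            StarkP.NormIn (StarkP.charField σ.character) σ.character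
              (S : Set (HeightOneSpectrum (𝓞 K))) Θ') →
        ∃ F : ℂ → ℂ, StarkP.IsArtinL ρ.character (S : Set (HeightOneSpectrum (𝓞 K))) F ∧
          StarkP.Reg (StarkP.aboveSet K L S) ρ Θ = meromorphicTrailingCoeffAt F 0)
    (V : Type) [AddCommGroup V] [Module ℂ V] [Module.Finite ℂ V]
    (ρ : Representation ℂ (L ≃ₐ[K] L) V)
    (hcon : ∀ (W : Type) [AddCommGroup W] [Module ℂ W] [Module.Finite ℂ W]
      (σ : Representation ℂ (L ≃ₐ[K] L) W), σ.IsIrreducible → StarkP.IsSub σ ρ →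
      StarkP.OccursIn (StarkP.aboveSet K L S) σ ∧ StarkP.Realizable σ.character ∧
        ∃ Θ' : ((L → ℝ) →₀ ℂ) →ₗ[ℂ] ((L → ℝ) →₀ ℂ),
          StarkP.IsTheta K (StarkP.aboveSet K L S) Θ' ∧
          StarkP.NormIn (StarkP.charField σ.character) σ.character
            (S : Set (HeightOneSpectrum (𝓞 K))) Θ')
    (hre : ∀ g, ∃ q : ℚ, (ρ.character g).re = (q : ℝ))
    (f : ℂ → ℂ) (hf : StarkP.IsArtinL ρ.character (S : Set (HeightOneSpectrum (𝓞 K))) f) :
    ‖StarkP.Reg (StarkP.aboveSet K L S) ρ Θ‖ = ‖meromorphicTrailingCoeffAt f 0‖ := by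
  have hτ : ∀ g, (ρ.prod ρ.dual).character g = ρ.character g + conj (ρ.character g) := by
    intro g
    have h3 : (ρ.prod ρ.dual).character g = ρ.character g + ρ.dual.character g :=
      LinearMap.trace_prodMap' (ρ g) (ρ.dual g)
    rw [h3, Representation.char_dual, char_inv]
  obtain ⟨F, hF, hR⟩ := hex (V × Module.Dual ℂ V) (ρ.prod ρ.dual) (fun g => by
    obtain ⟨q, hq⟩ := hre g
    refine ⟨2 * q, ?_⟩
    rw [hτ, Complex.add_conj, hq]
    push_cast
    ring) (fun W _ _ _ σ hσ hsub => by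
    rcases con_prod' ρ σ hσ hsub with h1 | h1
    · exact hcon W σ hσ h1
    · exact good_dual S σ hσ (hcon _ σ.dual (ZDUx.dual_irr σ hσ) (sub_of_dual ρ σ h1)))
  refine abs_exact' S Θ hΘ V ρ F ?_ hR f hf
  have h1 : (ρ.prod ρ.dual).character = fun g => ρ.character g + conj (ρ.character g) :=
    funext hτ
  rw [← h1]
  exact hF

end StarkC.ABS
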