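import Pool.Agent.ABS.StG4

set_option autoImplicit false

open scoped Classical
open Polynomial IntermediateField

namespace StarkC.ABS

namespace FA5x

theorem no_rat (q : ℚ) : q ^ 2 ≠ q + 1 := by
  intro h
  have h5 : IsSquare (5 : ℚ) := ⟨2 * q - 1, by linear_combination (-4) * h⟩
  rw [Rat.isSquare_iff] at h5
  have h6 : IsSquare (5 : ℤ) := h5.1
  obtain ⟨r, hr⟩ := h6
  have h1 : r ≤ 2 := by nlinarith
  have h2 : -2 ≤ r := by nlinarith
  interval_cases r <;> omega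

theorem monic_p : (X ^ 2 - X - 1 : ℚ[X]).Monic := by monicity!

theorem deg_p : (X ^ 2 - X - 1 : ℚ[X]).natDegree = 2 := by compute_degree!

theorem minp {E : Type} [Field E] [Algebra ℚ E] (z : E) (hz : z ^ 2 = z + 1) :
    minpoly ℚ z = X ^ 2 - X - 1 := by
  have hirr : Irreducible (X ^ 2 - X - 1 : ℚ[X]) := by
    apply Polynomial.irreducible_of_degree_le_three_of_not_isRoot
    · rw [deg_p]; decide
    · intro q hq
      have h : q ^ 2 - q - 1 = 0 := by simpa [Polynomial.IsRoot] using hq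
      exact no_rat q (by linarith)
  symm
  apply minpoly.eq_of_irreducible_of_monic hirr _ monic_p
  simp [hz]

theorem int_p {E : Type} [Field E] [Algebra ℚ E] (z : E) (hz : z ^ 2 = z + 1) :
    IsIntegral ℚ z := by
  rw [← minpoly.ne_zero_iff, minp z hz]
  exact monic_p.ne_zero

theorem next_p : (X ^ 2 - X - 1 : ℚ[X]).nextCoeff = -1 := by
  rw [nextCoeff_of_natDegree_pos (by rw [deg_p]; norm_num), deg_p]
  simp [coeff_X, coeff_one]

theorem tr_one (K : IntermediateField ℚ ℂ) (hK : Module.finrank ℚ K = 2) (x : K)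
    (hx : x ^ 2 = x + 1) : Algebra.trace ℚ K x = 1 := by
  have : FiniteDimensional ℚ K := Module.finite_of_finrank_pos (by omega)
  rw [trace_eq_finrank_mul_minpoly_nextCoeff, minp x hx, next_p]
  have h1 : Module.finrank ℚ ℚ⟮x⟯ = 2 := by
    rw [adjoin.finrank (int_p x hx), minp x hx, deg_p]
  have h2 := Module.finrank_mul_finrank ℚ ℚ⟮x⟯ K
  have h3 : Module.finrank ℚ⟮x⟯ K = 1 := by
    rw [h1, hK] at h2
    omega
  rw [h3]
  norm_num

theorem sq_eq (ζ : ℂ) (hζ : IsPrimitiveRoot ζ 5) (j : ℕ) (hj : ¬ 5 ∣ j) :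
    (1 + ζ ^ j + (ζ ^ j)⁻¹) ^ 2 = (1 + ζ ^ j + (ζ ^ j)⁻¹) + 1 := by
  have h1 : IsPrimitiveRoot (ζ ^ j) 5 :=
    hζ.pow_of_coprime j ((Nat.Prime.coprime_iff_not_dvd Nat.prime_five).2 hj).symm
  generalize ζ ^ j = z at h1
  have h0 : z ≠ 0 := h1.ne_zero (by norm_num)
  have hs : 1 + z + z ^ 2 + z ^ 3 + z ^ 4 = 0 := by
    have h := h1.geom_sum_eq_zero (by norm_num)
    simpa [Finset.sum_range_succ] using h
  have h5 : z ^ 5 = 1 := h1.pow_eq_one
  have hi : z⁻¹ = z ^ 4 := by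
    exact (eq_inv_of_mul_eq_one_left (by rw [← h5]; ring)).symm
  rw [hi]
  linear_combination hs + (z ^ 3 + 2) * h5

theorem fin_two {G : Type} (θ : G → ℂ) (w : ℂ) (hw : w ^ 2 = w + 1) (hm : w ∈ Set.range θ)
    (hall : ∀ g, (∃ r : ℚ, θ g = r) ∨ θ g ^ 2 = θ g + 1) :
    Module.finrank ℚ (StarkP.charField θ) = 2 := by
  have h : StarkP.charField θ = ℚ⟮w⟯ := by
    apply le_antisymm
    · unfold StarkP.charField
      rw [adjoin_le_iff]
      rintro _ ⟨g, rfl⟩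
      rcases hall g with ⟨r, hr⟩ | hg
      · rw [hr]
        exact (algebraMap ℚ ℚ⟮w⟯ r).2
      · have h1 : (θ g - w) * (θ g - (1 - w)) = 0 := by linear_combination hg - hw
        rcases mul_eq_zero.1 h1 with h2 | h2
        · rw [sub_eq_zero.1 h2]
          exact mem_adjoin_simple_self ℚ w
        · rw [sub_eq_zero.1 h2]
          exact sub_mem (one_mem _) (mem_adjoin_simple_self ℚ w)
    · rw [adjoin_simple_le_iff]
      exact subset_adjoin ℚ _ hm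
  rw [h, adjoin.finrank (int_p w hw), minp w hw, deg_p]

theorem tr_rat {G : Type} (θ : G → ℂ) (hK : Module.finrank ℚ (StarkP.charField θ) = 2) (g : G)
    (r : ℚ) (h : θ g = r) : StarkP.trChar θ g = 2 * r := by
  unfold StarkP.trChar
  have h1 : (⟨θ g, subset_adjoin ℚ _ (Set.mem_range_self g)⟩ : StarkP.charField θ) =
      algebraMap ℚ (StarkP.charField θ) r := by
    apply Subtype.ext
    exact h
  rw [h1, Algebra.trace_algebraMap, hK]
  simp

theorem tr_w {G : Type} (θ : G → ℂ) (hK : Module.finrank ℚ (StarkP.charField θ) = 2) (g : G)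
    (h : θ g ^ 2 = θ g + 1) : StarkP.trChar θ g = 1 := by
  unfold StarkP.trChar
  rw [tr_one _ hK _ (Subtype.ext h)]
  simp

theorem ind_top {G : Type} [Group G] [Fintype G] (g : G) :
    indFun (⊤ : Subgroup G) (fun _ => 1) g = 1 := by
  unfold indFun
  have : (Fintype.card G : ℂ) ≠ 0 := by
    exact_mod_cast Fintype.card_ne_zero
  simp [this]

theorem ind_one {G : Type} [Group G] [Fintype G] (H : Subgroup G) :
    indFun H (extZ (1 : H →* ℂˣ)) = indFun H (fun _ => 1) := by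
  funext g
  unfold indFun extZ
  congr 1
  apply Finset.sum_congr rfl
  intro x _
  by_cases h : x⁻¹ * g * x ∈ H
  · simp [h]
  · simp [h]

theorem one_five {G : Type} [Group G] (H : Subgroup G) : (1 : H →* ℂˣ) ^ 5 = 1 := by
  ext x
  simp

theorem exists_psi (hK : Stmt_FK5) (ζ : ℂ) (hζ : IsPrimitiveRoot ζ 5) :
    ∃ ψ : Subgroup.zpowers g5 →* ℂˣ, ψ ^ 5 = 1 ∧ extZ ψ g5 = ζ := by
  have h1 : g5 ≠ 1 ∧ g5 ^ 5 = 1 := by
    have h := hK.2.1 1 1 (by norm_num)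
    simpa using h
  have : Fact (Nat.Prime 5) := ⟨Nat.prime_five⟩
  have ho : orderOf g5 = 5 := orderOf_eq_prime h1.2 h1.1
  have h0 : ζ ≠ 0 := hζ.ne_zero (by norm_num)
  let u : ℂˣ := Units.mk0 ζ h0
  have hu : u ^ 5 = 1 := by
    apply Units.ext
    simpa [u] using hζ.pow_eq_one
  let c : Subgroup.zpowers g5 := ⟨g5, Subgroup.mem_zpowers g5⟩
  have hc : ∀ x : Subgroup.zpowers g5, x ∈ Subgroup.zpowers c := by
    rintro ⟨x, n, rfl⟩
    exact ⟨n, Subtype.ext (by simp [c])⟩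
  have hoc : orderOf c = 5 := (Subgroup.orderOf_mk _ _).trans ho
  have hd : orderOf u ∣ orderOf c := by
    rw [hoc]
    exact orderOf_dvd_of_pow_eq_one hu
  refine ⟨monoidHomOfForallMemZpowers hc hd, ?_, ?_⟩
  · ext x
    obtain ⟨n, hn⟩ := hc x
    have hc5 : c ^ 5 = 1 := Subtype.ext h1.2
    have hx : x ^ 5 = 1 := by
      have hn' : c ^ n = x := hn
      rw [← hn', ← zpow_natCast, ← zpow_mul, mul_comm, zpow_mul, zpow_natCast, hc5, one_zpow]
    simp only [MonoidHom.pow_apply, MonoidHom.one_apply]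
    rw [← map_pow, hx, map_one]
  · unfold extZ
    rw [dif_pos (Subgroup.mem_zpowers g5)]
    rw [monoidHomOfForallMemZpowers_apply_gen]
    rfl

end FA5x

open FA5x in
theorem FA5_thm : Stmt_FA5 := by
  intro hK hV hI hJ V _ _ _ ρ hdim hnt
  obtain ⟨ζ, hζ, h1, h2, h3, h5⟩ := hV hK V ρ hdim hnt
  obtain ⟨A, D, T, ⟨hA1, hD1, hT1⟩, hI2, hI3, hI5⟩ := hI
  obtain ⟨ψ, hψ, hψz⟩ := exists_psi hK ζ hζ
  obtain ⟨hC1, hC2, hC3, hC5⟩ := hJ ψ
  rw [hψz] at hC5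
  have hw : (1 + ζ ^ 1 + (ζ ^ 1)⁻¹) ^ 2 = (1 + ζ ^ 1 + (ζ ^ 1)⁻¹) + 1 :=
    sq_eq ζ hζ 1 (by norm_num)
  have hF : Module.finrank ℚ (StarkP.charField ρ.character) = 2 := by
    refine fin_two ρ.character _ hw ⟨(1 : A5)⁻¹ * g5 ^ 1 * 1, h5 1 1 (by norm_num)⟩ ?_
    intro g
    rcases hK.1 g with rfl | ⟨hg, hg2⟩ | ⟨hg, hg3⟩ | ⟨x, j, hj, rfl⟩
    · exact Or.inl ⟨3, by rw [h1]; norm_num⟩
    · exact Or.inl ⟨-1, by rw [h2 g hg hg2]; norm_num⟩
    · exact Or.inl ⟨0, by rw [h3 g hg hg3]; norm_num⟩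
    · right
      rw [h5 x j hj]
      exact sq_eq ζ hζ j hj
  refine ⟨⟨4, ![Subgroup.zpowers g5, A, D, ⊤], fun | 0 => ψ | 1 => 1 | 2 => 1 | 3 => 1,
    ![1, -1, -1, 2], ?_, ?_⟩, ⟨4, ![T, A, D, ⊤], ![1, -2, -1, 2], ?_⟩⟩
  · intro i
    fin_cases i
    · exact hψ
    · exact one_five A
    · exact one_five D
    · exact one_five ⊤
  · intro g
    rw [Fin.sum_univ_four]
    change ρ.character g = ((1 : ℤ) : ℂ) * indFun (Subgroup.zpowers g5) (extZ ψ) g +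
      ((-1 : ℤ) : ℂ) * indFun A (extZ (1 : A →* ℂˣ)) g +
      ((-1 : ℤ) : ℂ) * indFun D (extZ (1 : D →* ℂˣ)) g +
      ((2 : ℤ) : ℂ) * indFun ⊤ (extZ (1 : (⊤ : Subgroup A5) →* ℂˣ)) g
    rw [ind_one, ind_one, ind_one, ind_top]
    rcases hK.1 g with rfl | ⟨hg, hg2⟩ | ⟨hg, hg3⟩ | ⟨x, j, hj, rfl⟩
    · rw [h1, hC1, hA1, hD1]
      norm_num
    · rw [h2 g hg hg2, hC2 g hg hg2, (hI2 g hg hg2).1, (hI2 g hg hg2).2.1]
      norm_num
    · rw [h3 g hg hg3, hC3 g hg hg3, (hI3 g hg hg3).1, (hI3 g hg hg3).2.1]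
      norm_num
    · have h6 := hK.2.1 x j hj
      rw [h5 x j hj, hC5 x j hj, (hI5 _ h6.1 h6.2).1, (hI5 _ h6.1 h6.2).2.1]
      push_cast
      ring
  · intro g
    rw [Fin.sum_univ_four]
    change StarkP.trChar ρ.character g = ((1 : ℤ) : ℂ) * indFun T (fun _ => 1) g +
      ((-2 : ℤ) : ℂ) * indFun A (fun _ => 1) g +
      ((-1 : ℤ) : ℂ) * indFun D (fun _ => 1) g +
      ((2 : ℤ) : ℂ) * indFun ⊤ (fun _ => 1) g
    rw [ind_top]
    rcases hK.1 g with rfl | ⟨hg, hg2⟩ | ⟨hg, hg3⟩ | ⟨x, j, hj, rfl⟩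
    · rw [tr_rat _ hF 1 3 (by rw [h1]; norm_num), hT1, hA1, hD1]
      norm_num
    · rw [tr_rat _ hF g (-1) (by rw [h2 g hg hg2]; norm_num), (hI2 g hg hg2).1,
        (hI2 g hg hg2).2.1, (hI2 g hg hg2).2.2]
      norm_num
    · rw [tr_rat _ hF g 0 (by rw [h3 g hg hg3]; norm_num), (hI3 g hg hg3).1,
        (hI3 g hg hg3).2.1, (hI3 g hg hg3).2.2]
      norm_num
    · have h6 := hK.2.1 x j hj
      rw [tr_w _ hF _ (by rw [h5 x j hj]; exact sq_eq ζ hζ j hj), (hI5 _ h6.1 h6.2).1,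
        (hI5 _ h6.1 h6.2).2.1, (hI5 _ h6.1 h6.2).2.2]
      norm_num

end StarkC.ABS
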