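import Pool.Agent.ABS.StG
import Pool.Agent.ABS.ABL

/-!
# Project ABS, part G, module FAB (helper28): absolute values for imaginary quadratic `ℚ(χ)`
-/

set_option autoImplicit false

open NumberField IsDedekindDomain Filter Topology ComplexConjugate
open scoped TensorProduct Classical

namespace StarkC.ABS

namespace FABx

open LASTx

/-! ### The field -/

theorem sum_two {A : Type} [Fintype A] {a b : A} (hab : a ≠ b) (hc : Fintype.card A = 2)
    (f : A → ℂ) : ∑ x, f x = f a + f b := by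
  have h : (Finset.univ : Finset A) = {a, b} :=
    (Finset.eq_univ_of_card _ (by rw [Finset.card_pair hab, hc])).symm
  rw [h, Finset.sum_pair hab]

theorem prod_two {A : Type} [Fintype A] {a b : A} (hab : a ≠ b) (hc : Fintype.card A = 2)
    (f : A → ℂ) : ∏ x, f x = f a * f b := by
  have h : (Finset.univ : Finset A) = {a, b} :=
    (Finset.eq_univ_of_card _ (by rw [Finset.card_pair hab, hc])).symm
  rw [h, Finset.prod_pair hab]

/-- the second embedding -/
noncomputable def cemb (E : IntermediateField ℚ ℂ) : E →ₐ[ℚ] ℂ :=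
  (Complex.conjAe.toAlgHom.restrictScalars ℚ).comp E.val

theorem cemb_apply {E : IntermediateField ℚ ℂ} (x : E) : cemb E x = conj (x : ℂ) := rfl

theorem cemb_ne {E : IntermediateField ℚ ℂ} (x : E) (hx : (x : ℂ).im ≠ 0) :
    E.val ≠ cemb E := by
  intro h
  have h1 : (x : ℂ) = conj (x : ℂ) := DFunLike.congr_fun h x
  exact hx (Complex.conj_eq_iff_im.1 h1.symm)

theorem tr_eq {E : IntermediateField ℚ ℂ} [FiniteDimensional ℚ E]
    (h2 : Module.finrank ℚ E = 2) (x : E) (hx : (x : ℂ).im ≠ 0) (y : E) :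
    ((Algebra.trace ℚ E y : ℚ) : ℂ) = (y : ℂ) + conj (y : ℂ) := by
  have h := trace_eq_sum_embeddings (K := ℚ) (L := E) ℂ (x := y)
  have h3 := sum_two (cemb_ne x hx) ((AlgHom.card ℚ E ℂ).trans h2) (fun σ : E →ₐ[ℚ] ℂ => σ y)
  exact h.trans h3

theorem norm_eq {E : IntermediateField ℚ ℂ} [FiniteDimensional ℚ E]
    (h2 : Module.finrank ℚ E = 2) (x : E) (hx : (x : ℂ).im ≠ 0) (y : E) :
    ((Algebra.norm ℚ y : ℚ) : ℂ) = (y : ℂ) * conj (y : ℂ) := by
  have h := Algebra.norm_eq_prod_embeddings (K := ℚ) (L := E) ℂ y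
  have h3 := prod_two (cemb_ne x hx) ((AlgHom.card ℚ E ℂ).trans h2) (fun σ : E →ₐ[ℚ] ℂ => σ y)
  exact h.trans h3

/-! ### Characters -/

theorem val_inv {G : Type} [Group G] [Fintype G] {H : Subgroup G} (ψ : H →* ℂˣ) (h : H) :
    ((ψ h⁻¹ : ℂˣ) : ℂ) = conj ((ψ h : ℂˣ) : ℂ) := by
  have h1 : ((ψ h : ℂˣ) : ℂ) ^ Nat.card H = 1 := by
    rw [← Units.val_pow_eq_pow_val, ← map_pow, pow_card_eq_one', map_one]
    rfl
  have h2 : ‖((ψ h : ℂˣ) : ℂ)‖ = 1 :=
    Complex.norm_eq_one_of_pow_eq_one h1 Nat.card_pos.ne'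
  rw [map_inv]
  have h3 : ((ψ h : ℂˣ) : ℂ) * conj ((ψ h : ℂˣ) : ℂ) = 1 := by
    rw [Complex.mul_conj', h2]
    simp
  rw [Units.val_inv_eq_inv_val]
  exact inv_eq_of_mul_eq_one_right h3

theorem extZ_inv {G : Type} [Group G] [Fintype G] {H : Subgroup G} (ψ : H →* ℂˣ) (g : G) :
    extZ ψ⁻¹ g = conj (extZ ψ g) := by
  unfold extZ
  split_ifs with h
  · rw [← val_inv, MonoidHom.inv_apply, map_inv]
  · rw [map_zero]

theorem extZ_of_inv {G : Type} [Group G] [Fintype G] {H : Subgroup G} (ψ : H →* ℂˣ) (g : G) :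
    extZ ψ g⁻¹ = conj (extZ ψ g) := by
  unfold extZ
  by_cases h : g ∈ H
  · rw [dif_pos h, dif_pos (H.inv_mem h), ← val_inv]
    rfl
  · rw [dif_neg h, dif_neg fun h' => h ((H.inv_mem_iff).1 h'), map_zero]

theorem indFun_conj {G : Type} [Group G] [Fintype G] (H : Subgroup G) (f : G → ℂ) (g : G) :
    indFun H (fun g => conj (f g)) g = conj (indFun H f g) := by
  unfold indFun
  rw [map_div₀, map_sum, map_natCast]
  congr 1
  refine Finset.sum_congr rfl fun x _ => ?_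
  split_ifs
  · rfl
  · rw [map_zero]

theorem indFun_inv {G : Type} [Group G] [Fintype G] (H : Subgroup G) (f : G → ℂ) (g : G) :
    indFun H f g⁻¹ = indFun H (fun g => f g⁻¹) g := by
  unfold indFun
  congr 1
  refine Finset.sum_congr rfl fun x _ => ?_
  have h1 : (x⁻¹ * g⁻¹ * x) = (x⁻¹ * g * x)⁻¹ := by group
  have h2 : x⁻¹ * g⁻¹ * x ∈ H ↔ x⁻¹ * g * x ∈ H := by rw [h1, H.inv_mem_iff]
  by_cases h : x⁻¹ * g * x ∈ H
  · rw [if_pos h, if_pos (h2.2 h), h1]
  · rw [if_neg h, if_neg fun h' => h (h2.1 h')]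

theorem ind_inv {G : Type} [Group G] [Fintype G] (H : Subgroup G) (ψ : H →* ℂˣ) (g : G) :
    indFun H (extZ ψ) g⁻¹ = conj (indFun H (extZ ψ) g) := by
  rw [indFun_inv, ← indFun_conj]
  congr 1
  funext x
  exact extZ_of_inv ψ x

theorem ind_conj {G : Type} [Group G] [Fintype G] (H : Subgroup G) (ψ : H →* ℂˣ) (g : G) :
    indFun H (extZ ψ⁻¹) g = conj (indFun H (extZ ψ) g) := by
  rw [← indFun_conj]
  congr 1
  funext x
  exact extZ_inv ψ x

/-! ### Regulators -/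

variable {K L : Type} [Field K] [NumberField K] [Field L] [NumberField L] [Algebra K L]
  [IsGalois K L]

/-- the regulator of the inverse character of a subgroup -/
theorem reg_lift (hR : Stmt_REGC) (H : Subgroup (L ≃ₐ[K] L)) (ψ : H →* ℂˣ)
    (S : Finset (HeightOneSpectrum (𝓞 K)))
    (φ : XQ L (aboveSet K L S) ≃ₗ[ℚ] QU L (aboveSet K L S))
    (Θ : XC L (aboveSet K L S) →ₗ[ℂ] XC L (aboveSet K L S))
    (hφ : IsPhiTheta K (aboveSet K L S) φ Θ) :
    Reg (aboveSet K L S) (linRep (liftChar H ψ⁻¹)) Θ =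
      conj (Reg (aboveSet K L S) (linRep (liftChar H ψ)) Θ) := by
  obtain ⟨S', hS'⟩ := IND.exists_S' (IntermediateField.fixedField H)
    (S : Set (HeightOneSpectrum (𝓞 K))) S.finite_toSet
  have key : ∀ (T : Set (HeightOneSpectrum (𝓞 L)))
      (_ : aboveSet (IntermediateField.fixedField H) L S' = T)
      (φ : XQ L T ≃ₗ[ℚ] QU L T) (Θ : XC L T →ₗ[ℂ] XC L T),
      IsPhiTheta (IntermediateField.fixedField H) T φ Θ →
        Reg T (linRep (liftChar H ψ)⁻¹) Θ = conj (Reg T (linRep (liftChar H ψ)) Θ) := by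
    intro T hTT φ Θ h
    subst hTT
    exact hR (IntermediateField.fixedField H) L (liftChar H ψ) S' φ Θ h
  exact key _ hS' φ Θ (IND.isPhiTheta_sub _ hφ)

theorem reg_two (hR : Stmt_REGC) (S : Finset (HeightOneSpectrum (𝓞 K)))
    (φ : XQ L (aboveSet K L S) ≃ₗ[ℚ] QU L (aboveSet K L S))
    (Θ : XC L (aboveSet K L S) →ₗ[ℂ] XC L (aboveSet K L S))
    (hφ : IsPhiTheta K (aboveSet K L S) φ Θ)
    (V : Type) [AddCommGroup V] [Module ℂ V] [Module.Finite ℂ V]
    (ρ : Representation ℂ (L ≃ₐ[K] L) V)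
    (W : Type) [AddCommGroup W] [Module ℂ W] [Module.Finite ℂ W]
    (τ : Representation ℂ (L ≃ₐ[K] L) W)
    (hτ : ∀ g, τ.character g = ρ.character g + conj (ρ.character g))
    (m r : ℕ) (hm : 0 < m) (H : Fin r → Subgroup (L ≃ₐ[K] L)) (ψ : ∀ i, H i →* ℂˣ)
    (c : Fin r → ℤ)
    (h : ∀ g, (m : ℂ) * ρ.character g = ∑ i, (c i : ℂ) * indFun (H i) (extZ (ψ i)) g) :
    ‖Reg (aboveSet K L S) τ Θ‖ = ‖Reg (aboveSet K L S) ρ Θ‖ ^ 2 := by
  have hTf : (aboveSet K L (S : Set (HeightOneSpectrum (𝓞 K)))).Finite :=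
    IND.aboveSet_finite _ S.finite_toSet
  have hT := STB_thm K L (S : Set (HeightOneSpectrum (𝓞 K)))
  have hc := ALLT.thc K L _ hT φ Θ hTf hφ
  have hb := ALLT.thb K L _ φ Θ hTf hφ
  have h1 := INDP.reg_comb TRD_thm ALLT.rgt hTf hT Θ hb hc V ρ m r H ψ c h
  obtain ⟨p, hpl, hpr⟩ : ∃ p : Fin (r + r) → Fin r, (∀ i : Fin r, p (Fin.castAdd r i) = i) ∧
      ∀ i : Fin r, p (Fin.natAdd r i) = i :=
    ⟨fun i => Fin.addCases (motive := fun _ => Fin r) id id i,
      fun i => Fin.addCases_left (motive := fun _ => Fin r) i,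
      fun i => Fin.addCases_right (motive := fun _ => Fin r) i⟩
  set ψ' : ∀ i : Fin (r + r), H (p i) →* ℂˣ := fun i => if (i : ℕ) < r then ψ (p i) else
    (ψ (p i))⁻¹ with hψ'
  have hl : ∀ i : Fin r, ψ' (Fin.castAdd r i) = ψ (p (Fin.castAdd r i)) := fun i => by
    rw [hψ']
    exact if_pos i.2
  have hr : ∀ i : Fin r, ψ' (Fin.natAdd r i) = (ψ (p (Fin.natAdd r i)))⁻¹ := fun i => by
    rw [hψ']
    refine if_neg ?_
    simp
  have h2 := INDP.reg_comb TRD_thm ALLT.rgt hTf hT Θ hb hc W τ m (r + r) (fun i => H (p i)) ψ'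
    (fun i => c (p i)) (by
      intro g
      rw [hτ g, mul_add, Fin.sum_univ_add]
      congr 1
      · rw [h g]
        refine Finset.sum_congr rfl fun i _ => ?_
        rw [hl i, hpl i]
      · have h3 : (m : ℂ) * conj (ρ.character g) = conj ((m : ℂ) * ρ.character g) := by
          rw [map_mul, map_natCast]
        rw [h3, h g, map_sum]
        refine Finset.sum_congr rfl fun i _ => ?_
        rw [hr i, hpr i, ind_conj, map_mul, map_intCast])
  rw [Fin.prod_univ_add] at h2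
  have h3 : ∏ i : Fin r, Reg (aboveSet K L S) (linRep (liftChar (H (p (Fin.castAdd r i)))
      (ψ' (Fin.castAdd r i)))) Θ ^ c (p (Fin.castAdd r i)) =
      Reg (aboveSet K L S) ρ Θ ^ m := by
    rw [h1]
    refine Finset.prod_congr rfl fun i _ => ?_
    rw [hl i, hpl i]
  have h4 : ∏ i : Fin r, Reg (aboveSet K L S) (linRep (liftChar (H (p (Fin.natAdd r i)))
      (ψ' (Fin.natAdd r i)))) Θ ^ c (p (Fin.natAdd r i)) =
      conj (Reg (aboveSet K L S) ρ Θ ^ m) := by
    rw [h1, map_prod]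
    refine Finset.prod_congr rfl fun i _ => ?_
    rw [hr i, hpr i, reg_lift hR _ _ S φ Θ hφ, map_zpow₀]
  rw [h3, h4] at h2
  have h5 := congrArg norm h2
  rw [norm_pow, norm_mul, Complex.norm_conj, norm_pow, ← mul_pow, ← sq] at h5
  exact (pow_left_inj₀ (norm_nonneg _) (by positivity) hm.ne').1 h5

end FABx

open LASTx FABx in
theorem FAB_thm : Stmt_FAB := by
  intro hR K L _ _ _ _ _ _ χ n m S Θ hΘ hn hm hmon h2 him hN f hf
  obtain ⟨r, H, ψ, c, -, hχ'⟩ := hmon
  have hχ : ∀ g, (m : ℂ) * χ g = ∑ i, (c i : ℂ) * indFun (H i) (extZ (ψ i)) g := hχ'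
  obtain ⟨g₀, hg₀⟩ := him
  obtain ⟨F, α, hF, hα, hE⟩ := hN
  obtain ⟨φ, Θ₀, hφ, hreg⟩ := StarkB.exists_isPhiTheta (K := K) (L := L)
    (S : Set (HeightOneSpectrum (𝓞 K))) S.finite_toSet Θ hΘ
  have hfin : FiniteDimensional ℚ (StarkP.charField χ) :=
    Module.finite_of_finrank_pos (by rw [h2]; norm_num)
  have hm0 : (m : ℂ) ≠ 0 := Nat.cast_ne_zero.2 hm.ne'
  let x₀ : StarkP.charField χ :=
    ⟨χ g₀, IntermediateField.subset_adjoin ℚ _ (Set.mem_range_self g₀)⟩
  have hx₀ : (x₀ : ℂ).im ≠ 0 := hg₀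
  have htr : StarkP.trChar χ = fun g => χ g + conj (χ g) := by
    funext g
    exact tr_eq h2 x₀ hx₀ _
  have hinv : ∀ g, χ g⁻¹ = conj (χ g) := by
    intro g
    refine mul_left_cancel₀ hm0 ?_
    have h3 : (m : ℂ) * conj (χ g) = conj ((m : ℂ) * χ g) := by
      rw [map_mul, map_natCast]
    rw [h3, hχ g⁻¹, hχ g, map_sum]
    refine Finset.sum_congr rfl fun i _ => ?_
    rw [ind_inv, map_mul, map_intCast]
  -- the two continuations
  have ht : meromorphicTrailingCoeffAt F 0 =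
      meromorphicTrailingCoeffAt f 0 * conj (meromorphicTrailingCoeffAt f 0) := by
    rw [← cf_trail (hf.1 0)]
    have h1 := MeromorphicAt.meromorphicTrailingCoeffAt_mul (hf.1 0)
      (cf_mero (f := f) (z := 0) (by simpa using hf.1 0))
    rw [← h1]
    refine trail_unique hF.1 (fun z => (hf.1 z).mul (cf_mero (hf.1 (conj z)))) fun s hs => ?_
    rw [hF.2 s hs, htr]
    show _ = f s * cf f s
    have h2 := IND.logL_sum (K := K) (N := L) LA_thm ALLT.lb
      (S : Set (HeightOneSpectrum (𝓞 K))) s hs 2 ![1, 1] ![χ, fun g => conj (χ g)]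
    simp only [Fin.sum_univ_two, Matrix.cons_val_zero, Matrix.cons_val_one, one_mul] at h2
    have h3 : StarkP.logL (fun g => χ g + conj (χ g)) (S : Set (HeightOneSpectrum (𝓞 K))) s =
        logL (fun g => χ g + conj (χ g)) (S : Set (HeightOneSpectrum (𝓞 K))) s := rfl
    have h4 : f s = Complex.exp (logL χ (S : Set (HeightOneSpectrum (𝓞 K))) s) := hf.2 s hs
    have h5 : f (conj s) = Complex.exp (logL χ (S : Set (HeightOneSpectrum (𝓞 K))) (conj s)) :=
      hf.2 (conj s) (by simpa using hs)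
    rw [h3, h2, Complex.exp_add, ← h4, logL_conj, cf_apply, h5, Complex.exp_conj]
  refine ⟨α, hα, fun V _ _ _ ρ hρ => ?_⟩
  have hτ : (ρ.prod ρ.dual).character = StarkP.trChar χ := by
    rw [htr]
    funext g
    have h3 : (ρ.prod ρ.dual).character g = ρ.character g + ρ.dual.character g :=
      LinearMap.trace_prodMap' (ρ g) (ρ.dual g)
    rw [h3, Representation.char_dual, hρ, hinv]
  have h6 := hE (V × Module.Dual ℂ V) (ρ.prod ρ.dual) hτ
  have h7 := reg_two hR S φ Θ₀ hφ V ρ (V × Module.Dual ℂ V) (ρ.prod ρ.dual)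
    (fun g => by rw [hτ, htr, hρ]) m r hm H ψ c (fun g => by rw [hρ]; exact hχ g)
  rw [norm_eq h2 x₀ hx₀] at h6
  rw [show StarkP.Reg (StarkP.aboveSet K L S) (ρ.prod ρ.dual) Θ = _ from
    hreg (V × Module.Dual ℂ V) (ρ.prod ρ.dual), ht] at h6
  rw [show StarkP.Reg (StarkP.aboveSet K L S) ρ Θ = _ from hreg V ρ]
  have h8 := congrArg norm h6
  rw [norm_div, h7, norm_mul, norm_mul, Complex.norm_conj, Complex.norm_conj, ← sq, ← sq,
    ← div_pow, ← norm_div] at h8
  exact (pow_left_inj₀ (norm_nonneg _) (norm_nonneg _) two_ne_zero).1 h8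

end StarkC.ABS
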