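import Pool.Agent.Stark.PDefs

/-!
# Definitions for the statement of Stark's conjecture in norm
-/

open NumberField IsDedekindDomain

namespace StarkP

/-- The field `ℚ(χ)` generated by the values of `χ`. -/
noncomputable def charField {G : Type} (χ : G → ℂ) : IntermediateField ℚ ℂ :=
  IntermediateField.adjoin ℚ (Set.range χ)

/-- `Tr χ`, where `Tr` is the trace of `ℚ(χ)/ℚ`: the sum of the conjugates of `χ`. -/
noncomputable def trChar {G : Type} (χ : G → ℂ) : G → ℂ := fun g =>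
  ((Algebra.trace ℚ (charField χ)
    ⟨χ g, IntermediateField.subset_adjoin ℚ _ (Set.mem_range_self g)⟩ : ℚ) : ℂ)

/-- The field `ℚ(ζ_n)` generated by the `n`-th roots of unity in `ℂ`. -/
noncomputable def rootField (n : ℕ) : IntermediateField ℚ ℂ :=
  IntermediateField.adjoin ℚ {z : ℂ | z ^ n = 1}

/-- The image of `ρ` is an `ℓ`-group. -/
def HasImage (ℓ : ℕ) {G V : Type} [Group G] [AddCommGroup V] [Module ℂ V]
    (ρ : Representation ℂ G V) : Prop :=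
  ∀ g, ∃ j : ℕ, ρ (g ^ (ℓ ^ j)) = 1

section Norm

variable {K L : Type} [Field K] [NumberField K] [Field L] [NumberField L] [Algebra K L]

/-- The Artin `L`-series of `Tr χ` has a meromorphic continuation `f` and
`A_S(Tr χ, φ) = R / L^* = N(α)` for some `α ∈ E^*`, where `N` is the norm of `E/ℚ`. -/
def NormIn (E : IntermediateField ℚ ℂ) (χ : (L ≃ₐ[K] L) → ℂ)
    (S : Set (HeightOneSpectrum (𝓞 K))) (Θ : ((L → ℝ) →₀ ℂ) →ₗ[ℂ] ((L → ℝ) →₀ ℂ)) : Prop :=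
  ∃ (f : ℂ → ℂ) (α : E), IsArtinL (trChar χ) S f ∧ α ≠ 0 ∧
    ∀ (V : Type) [AddCommGroup V] [Module ℂ V] [Module.Finite ℂ V]
      (ρ : Representation ℂ (L ≃ₐ[K] L) V), ρ.character = trChar χ →
      Reg (aboveSet K L S) ρ Θ / meromorphicTrailingCoeffAt f 0 = ((Algebra.norm ℚ α : ℚ) : ℂ)

/-- Every meromorphic continuation `f` of the Artin `L`-series of `χ` gives
`|A_S(χ, φ)| = |R / L^*| = |α|` for some `α ∈ ℚ(χ)^*`. -/
def AbsIn (χ : (L ≃ₐ[K] L) → ℂ) (S : Set (HeightOneSpectrum (𝓞 K)))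
    (Θ : ((L → ℝ) →₀ ℂ) →ₗ[ℂ] ((L → ℝ) →₀ ℂ)) : Prop :=
  ∀ f : ℂ → ℂ, IsArtinL χ S f → ∃ α : charField χ, α ≠ 0 ∧
    ∀ (V : Type) [AddCommGroup V] [Module ℂ V] [Module.Finite ℂ V]
      (ρ : Representation ℂ (L ≃ₐ[K] L) V), ρ.character = χ →
      ‖Reg (aboveSet K L S) ρ Θ / meromorphicTrailingCoeffAt f 0‖ = ‖(α : ℂ)‖

end Norm

end StarkP
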