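import Pool.Agent.Stark.MON

/-!
# Project ABS, stage R: all irreducible characters of groups of odd prime power order (helper72)

ROQUETTE: `ℓ` odd, `χ` an irreducible character of a finite `ℓ`-group: `χ = Ind_H ψ`, `ψ` linear,
`ℚ(ψ) = ℚ(χ)`.  So `∏_σ A(χ^σ)` over the conjugates of `χ` is the norm of an element of `ℚ(χ)`.

Modules: one for each `Stmt_...`, theorem `StarkC.ABS.X_thm : Stmt_X` in `Pool/Agent/ABS/X.lean`,
import `Pool.Agent.ABS.StR1` (group theory; RFM: `StR2`); hypotheses `Stmt_A → ...` are inputs.  The library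
`Pool/Agent/Stark/MON.lean` (namespace `StarkC.MON`: `indL`, `sub`, `IsScal`, `scalSub`, `stab`, `avg`,
`exists_proj`, `indL_indFun`, `tr`, `scalar_case`) is imported.
-/

open NumberField IsDedekindDomain
open scoped TensorProduct Classical

namespace StarkC.ABS

open StarkC.MON

/-- A representation is irreducible. -/
def Irr {G V : Type} [Group G] [AddCommGroup V] [Module ℂ V] (ρ : Representation ℂ G V) : Prop :=
  Nontrivial V ∧ ∀ W : Submodule ℂ V, (∀ g, ∀ v ∈ W, ρ g v ∈ W) → W = ⊥ ∨ W = ⊤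

/-- The image is a `ℓ`-group. -/
def LImg (ℓ : ℕ) {G V : Type} [Group G] [AddCommGroup V] [Module ℂ V]
    (ρ : Representation ℂ G V) : Prop :=
  ∀ g, ∃ j : ℕ, ρ (g ^ (ℓ ^ j)) = 1

/-- RCY (60 lines).  A finite abelian `ℓ`-group is cyclic if its elements of order dividing `ℓ` are
powers of one of them.  PROOF. `isCyclic_of_card_pow_eq_one_le`: for `n > 0` the elements `a` with
`a ^ n = 1` are those with `a ^ (ℓ ^ j) = 1`, `ℓ ^ j` the gcd of `n` and the order of the group; their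
number is at most `ℓ ^ j`, by induction on `j` (`a ↦ a ^ (ℓ ^ j)` maps the elements with
`a ^ (ℓ ^ (j+1)) = 1` to those with `a ^ ℓ = 1`, at most `ℓ`, and the fibres have at most as many
elements as the kernel). -/
def Stmt_RCY : Prop :=
  ∀ (ℓ : ℕ) (A : Type) [CommGroup A] [Finite A] (c : A), ℓ.Prime → IsPGroup ℓ A → c ^ ℓ = 1 →
    (∀ a : A, a ^ ℓ = 1 → a ∈ Subgroup.zpowers c) → IsCyclic A

/-- RGP (200 lines).  The group lemma.  PROOF. Induction on `|G|`; `Z` = the center, `Z ≠ 1`.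
POWERS: if `b a = z a b` with `z` central then `b a^n = z^n a^n b` and `(a b)^n = z^(n(n-1)/2) a^n b^n`
(induction); so if `a^ℓ` (or `b^ℓ`) is central then `z^ℓ = 1` and, `ℓ` being odd, `(a b)^ℓ = a^ℓ b^ℓ`.
Let `Z_2 = {x : all [g, x] ∈ Z}` (preimage of the center of `G/Z`).
(1) `G/Z` is a nontrivial `ℓ`-group: its center has an element of order `ℓ`: `x ∈ Z_2`, `x ∉ Z`,
`x^ℓ ∈ Z`.  (2) If `x^ℓ = w^ℓ`, `w ∈ Z`: take `a = x w⁻¹`.  (3) Otherwise `x^ℓ` generates the cyclic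
`ℓ`-group `Z` (it is no `ℓ`-th power in it).  (4) If some `y ∈ Z_2`, `y^ℓ ∈ Z`, is not in `<x>`:
`y^ℓ = x^(ℓ k)`, `a = y x^(-k)`: `a^ℓ = 1` (POWERS), `a ∈ Z_2`, `a ∉ Z` (else `y ∈ <x>`, as `Z ⊆ <x>`).
(5) Otherwise every `y ∈ Z_2` with `y^ℓ ∈ Z` is in `<x>`, so the center of `G/Z` is cyclic (RCY with
`c` = the class of `x`).  `G/Z` is not abelian (else it is its own center, cyclic, and `G` is abelian:
`commutative_of_cyclic_center_quotient` or directly).  By induction there is `a ∈ G`, class not central in `G/Z`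
(`a ∉ Z_2`), `a^ℓ ∈ Z = <x^ℓ>`, all `[g, a] ∈ Z_2`.  `a^ℓ = x^(ℓ k)`; replace `a` by `a x^(-k)`: now
`a^ℓ = 1` (POWERS, `x ∈ Z_2`), still `a ∉ Z_2` and `[g, a] ∈ Z_2`.  Let `c = g⁻¹ a g a⁻¹ ∈ Z_2`;
`(c a)^ℓ = 1`; modulo `Z` (the class of `c` is central) `c^ℓ = 1`, so `c ∈ <x>` by (5), `c = x^i`;
POWERS for `c` and `a` (`[a, c] ∈ Z`): `c^ℓ = 1`, i.e. `x^(ℓ i) = 1`; the order of `x` is divisible by
`ℓ²` (`x^ℓ` generates `Z ≠ 1`), so `ℓ ∣ i` and `c ∈ <x^ℓ> = Z`.  So `[g, a] ∈ Z` for all `g`, `a ∈ Z_2`, a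
contradiction. -/
def Stmt_RGP : Prop :=
  Stmt_RCY → ∀ (ℓ : ℕ) (G : Type) [Group G] [Finite G], ℓ.Prime → ℓ ≠ 2 → IsPGroup ℓ G →
    IsCyclic (Subgroup.center G) → (¬ ∀ a b : G, a * b = b * a) →
    ∃ a : G, a ∉ Subgroup.center G ∧ a ^ ℓ = 1 ∧
      ∀ g : G, g⁻¹ * a * g * a⁻¹ ∈ Subgroup.center G

/-- REL (120 lines).  PROOF. `N = ρ.ker` (normal), `Ḡ = G/N` is a finite `ℓ`-group (LImg).  `g` is a
scalar iff the class of `g` is central in `Ḡ` (Schur: if `ρ g` commutes with all `ρ h`, an eigenspace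
of `ρ g` is stable, so it is `⊤`; conversely clear).  The center of `Ḡ` is cyclic:
`isCyclic_of_subgroup_isDomain` or `isCyclic_of_injective_ringHom`-like: the scalar is an injective
homomorphism of the center to `ℂˣ`.  `Ḡ` is not abelian (some `ρ g` is no scalar).  RGP for `Ḡ`; lift
`a`.  `z`: an element of order `ℓ` of the center of `Ḡ` (nontrivial, Cauchy), lifted; its scalar `ζ`
has order `ℓ`. -/
def Stmt_REL : Prop :=
  Stmt_RCY → Stmt_RGP →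
  ∀ (ℓ : ℕ) (G V : Type) [Group G] [Fintype G] [AddCommGroup V] [Module ℂ V] [Module.Finite ℂ V]
    (ρ : Representation ℂ G V), ℓ.Prime → ℓ ≠ 2 → Irr ρ → LImg ℓ ρ → (¬ ∀ g, IsScal ρ g) →
    ∃ (a z : G) (ζ : ℂ), ¬ IsScal ρ a ∧ ρ (a ^ ℓ) = 1 ∧
      (∀ y : G, ∃ c : ℂ, ∀ v, ρ (y⁻¹ * a * y) v = c • ρ a v) ∧ IsPrimitiveRoot ζ ℓ ∧
      ∀ v, ρ z v = ζ • v

/-- RAV (150 lines).  PROOF. Copy `MON.avg` and `MON.exists_proj` (`W` = the eigenspace of `ρ a` for an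
eigenvalue `l`, `H` = its stabiliser, `P` = the projection
`(orderOf a)⁻¹ ∑_j (l⁻¹ ρ a)^j`), keeping more: the trace of `ρ h P` is the character of `W` at `h ∈ H`
(there `htr`), which gives the formula; `W` is irreducible for `H`: let `U ≤ W` be `H`-stable, `U ≠ ⊥`; the span
`X` of all `ρ g u` is stable and not `⊥`, so `⊤`; `P (ρ g u) = 0` for `g ∉ H` (`hout`) and `= ρ g u ∈ U` for
`g ∈ H`, so `P X ≤ U`, `W = P W ≤ U`. -/
def Stmt_RAV : Prop :=
  ∀ (G V : Type) [Group G] [Fintype G] [AddCommGroup V] [Module ℂ V] [Module.Finite ℂ V]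
    (ρ : Representation ℂ G V) (a : G), Irr ρ → ¬ IsScal ρ a →
    (∀ y : G, ∃ c : ℂ, ∀ v, ρ (y⁻¹ * a * y) v = c • ρ a v) →
    ∃ (H : Subgroup G) (W : Submodule ℂ V) (hW : ∀ g ∈ H, ∀ v ∈ W, ρ g v ∈ W) (l : ℂ),
      H ≠ ⊤ ∧ ρ.character = indL H (sub ρ H W hW).character ∧ Irr (sub ρ H W hW) ∧
      (∃ v : V, v ≠ 0 ∧ ρ a v = l • v) ∧
      ∀ h : H, (sub ρ H W hW).character h =
        (∑ j ∈ Finset.range (orderOf a), l⁻¹ ^ j * ρ.character ((h : G) * a ^ j)) / (orderOf a : ℂ)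

/-- ROQ (120 lines).  ROQUETTE.  PROOF. Induction on `|G|`.  If all `ρ g` are scalars: dimension one
(as in `MON.scalar_case`), `H = ⊤`, `ψ` = the scalar, `ψ^(ℓ^j) = 1` for a common `j`, `σ` fixes `χ = ψ`.
Otherwise REL and RAV; `θ` = the character of `sub ρ H W hW`, which is irreducible with LImg; `|H| < |G|`;
by induction `θ = indFun K (extZ ψ)`, `K ≤ H`, and `χ = indL H θ = indFun (K.map H.subtype) (extZ (tr K ψ))`
(`MON.indL_indFun`).  Let `σ` fix `χ`.  `χ z = ζ dim V`, so `σ ζ = ζ`; `l^ℓ = 1`, so `l` is a power of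
`ζ` and `σ l = l`; by the formula of RAV `σ` fixes `θ`, so `ψ`. -/
def Stmt_ROQ : Prop :=
  Stmt_RCY → Stmt_RGP → Stmt_REL → Stmt_RAV →
  ∀ (ℓ : ℕ) (G V : Type) [Group G] [Fintype G] [AddCommGroup V] [Module ℂ V] [Module.Finite ℂ V]
    (ρ : Representation ℂ G V), ℓ.Prime → ℓ ≠ 2 → Irr ρ → LImg ℓ ρ →
    ∃ (H : Subgroup G) (ψ : H →* ℂˣ), ρ.character = indFun H (extZ ψ) ∧
      (∃ j : ℕ, ψ ^ (ℓ ^ j) = 1) ∧
      ∀ σ : ℂ ≃+* ℂ, (∀ g, σ (ρ.character g) = ρ.character g) →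
        ∀ h, σ ((ψ h : ℂˣ) : ℂ) = ((ψ h : ℂˣ) : ℂ)

/-- RFX (100 lines), the field of values.  PROOF. `H`, `ψ` from ROQ, `n` = the order of `ψ`, a power of
`ℓ`, `n ≠ 1` (if `ψ = 1` then `χ = Ind_H 1` contains the trivial character: the sum of `χ g` over `g` is
`|G| ≠ 0`, so there is an invariant vector (`Representation.averageMap`, trace of the average), the line spanned by it is all
of `V` and `ρ` is trivial).  If `σ` fixes `χ` it fixes the values of `ψ`, a finite cyclic group of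
order `n`, so all `n`-th roots of unity (`ψ` takes a value of order `n`: its range is cyclic of order `n`).
`σ χ = indFun H (extZ ψ^t)` if `σ` acts on the `n`-th roots of unity as `z ↦ z^t`. -/
def Stmt_RFX : Prop :=
  Stmt_RCY → Stmt_RGP → Stmt_REL → Stmt_RAV → Stmt_ROQ →
  ∀ (ℓ : ℕ) (G V : Type) [Group G] [Fintype G] [AddCommGroup V] [Module ℂ V] [Module.Finite ℂ V]
    (ρ : Representation ℂ G V), ℓ.Prime → ℓ ≠ 2 → Irr ρ → LImg ℓ ρ → (¬ ∀ g, ρ g = 1) →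
    ∃ (k : ℕ) (H : Subgroup G) (ψ : H →* ℂˣ), 0 < k ∧ orderOf ψ = ℓ ^ k ∧
      (∀ σ : ℂ ≃+* ℂ, (∀ g, σ (ρ.character g) = ρ.character g) ↔
        ∀ z : ℂ, z ^ (ℓ ^ k) = 1 → σ z = z) ∧
      ∀ (σ : ℂ ≃+* ℂ) (t : ℕ), (∀ z : ℂ, z ^ (ℓ ^ k) = 1 → σ z = z ^ t) →
        ∀ g, σ (ρ.character g) = indFun H (extZ (ψ ^ t)) g

end StarkC.ABS
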