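import Pool.Agent.ABS.StE
import Pool.Agent.ABS.StR1
import Pool.Agent.ABS.PDefsA

/-!
# Project ABS: the last statements (fields of values, traces)
-/

open NumberField IsDedekindDomain
open scoped TensorProduct Classical

namespace StarkC.ABS

/-- TRT.  The trace of `ℚ(ζ_n)/ℚ` (the same proof as `NORMT_thm`, with the trace instead of the
norm: `trace_eq_sum_embeddings`). -/
def Stmt_TRT : Prop :=
  ∀ (n : ℕ) (σ : ℕ → (ℂ ≃+* ℂ)), 0 < n → (∀ t ∈ Ex n, ∀ z : ℂ, z ^ n = 1 → σ t z = z ^ t) →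
    ∀ x : Cyc n, ((Algebra.trace ℚ (Cyc n) x : ℚ) : ℂ) = ∑ t ∈ Ex n, σ t x

/-- TRX.  `trChar` when `ℚ(χ) = ℚ(ζ_n)` and the conjugates of `χ` are known (rewrite the trace along
`charField χ = Cyc n`, then TRT; the `σ t` exist by SIGT). -/
def Stmt_TRX : Prop :=
  Stmt_SIGT → Stmt_TRT →
  ∀ (G : Type) (n : ℕ) (χ : G → ℂ) (χt : ℕ → G → ℂ), 0 < n → StarkP.charField χ = Cyc n →
    (∀ t ∈ Ex n, ∀ σ : ℂ ≃+* ℂ, (∀ z : ℂ, z ^ n = 1 → σ z = z ^ t) → ∀ g, σ (χ g) = χt t g) →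
    ∀ g, StarkP.trChar χ g = ∑ t ∈ Ex n, χt t g

/-- CFL.  The field of values of a linear character of order `n` (the range of `ψ` is a finite
cyclic group of order `n`, so it is the set of all `n`-th roots of unity). -/
def Stmt_CFL : Prop :=
  ∀ (G : Type) [Group G] [Finite G] (ψ : G →* ℂˣ),
    StarkP.charField (fun g => ((ψ g : ℂˣ) : ℂ)) = Cyc (orderOf ψ)

/-- CFR.  Two finitely generated algebraic subfields (here generated by values of characters and by
roots of unity) fixed by the same automorphisms of `ℂ` are equal: `FIXCx.core` (a number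
fixed by `Aut(ℂ/F)` is in `F`) in both directions. -/
def Stmt_CFR : Prop :=
  ∀ (G : Type) (n : ℕ) (χ : G → ℂ),
    (∀ σ : ℂ ≃+* ℂ, (∀ g, σ (χ g) = χ g) ↔ ∀ z : ℂ, z ^ n = 1 → σ z = z) →
    StarkP.charField χ = Cyc n

end StarkC.ABS
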