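import Pool.Agent.ABS.ABL
import Pool.Agent.ABS.StF
import Pool.Agent.ABS.COREB

/-!
# Project ABS: the printed statement, from the last modules
-/

open NumberField IsDedekindDomain
open scoped TensorProduct Classical

namespace StarkC.ABS

namespace RESFx

/-! ### Fields -/

theorem finrank_cyc (n : ℕ) (hn : n ≠ 0) : Module.finrank ℚ (Cyc n) = n.totient := by
  have h := COREBx.isCyc n hn
  have : NeZero n := ⟨hn⟩
  exact IsCyclotomicExtension.finrank (Cyc n) (Polynomial.cyclotomic.irreducible_rat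
    (Nat.pos_of_ne_zero hn))

theorem totient_two {ℓ k : ℕ} (hℓ : ℓ.Prime) (hk : 0 < k) (h : (ℓ ^ k).totient = 2) :
    ℓ ^ k = 3 ∨ ℓ ^ k = 4 := by
  rw [Nat.totient_prime_pow hℓ hk] at h
  obtain ⟨j, rfl⟩ : ∃ j, k = j + 1 := ⟨k - 1, by omega⟩
  rw [Nat.add_sub_cancel] at h
  have h2 := hℓ.two_le
  rcases Nat.lt_or_ge ℓ 4 with h4 | h4
  · have h5 : ℓ = 2 ∨ ℓ = 3 := by omega
    rcases h5 with rfl | rfl
    · right
      rw [Nat.pow_succ]
      have : 2 ^ j = 2 := by simpa using h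
      rw [this]
    · left
      have h6 : 3 ^ j * 2 = 2 := by simpa using h
      rw [Nat.pow_succ]
      omega
  · exfalso
    have h6 : 1 ≤ ℓ ^ j := Nat.one_le_pow _ _ (by omega)
    have h7 : 3 ≤ ℓ - 1 := by omega
    have h8 : 1 * 3 ≤ ℓ ^ j * (ℓ - 1) := Nat.mul_le_mul h6 h7
    omega

section

variable {K L : Type} [Field K] [NumberField K] [Field L] [NumberField L] [Algebra K L]
  [IsGalois K L]

/-- from `PT` to the printed form -/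
theorem normIn_of (S : Finset (HeightOneSpectrum (𝓞 K)))
    (Θ : ((L → ℝ) →₀ ℂ) →ₗ[ℂ] ((L → ℝ) →₀ ℂ))
    (φ : XQ L (aboveSet K L S) ≃ₗ[ℚ] QU L (aboveSet K L S))
    (Θ₀ : XC L (aboveSet K L S) →ₗ[ℂ] XC L (aboveSet K L S))
    (hφ : IsPhiTheta K (aboveSet K L S) φ Θ₀)
    (hreg : ∀ (V : Type) [AddCommGroup V] [Module ℂ V] (ρ : Representation ℂ (L ≃ₐ[K] L) V),
      StarkP.Reg (aboveSet K L S) ρ Θ = Reg (aboveSet K L S) ρ Θ₀)
    (q : ℕ) (χ : (L ≃ₐ[K] L) → ℂ) (h : PT q (StarkP.trChar χ) S Θ₀)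
    (E : IntermediateField ℚ ℂ) (hE : E = Cyc q) :
    StarkP.NormIn E χ (S : Set (HeightOneSpectrum (𝓞 K))) Θ := by
  subst hE
  obtain ⟨F, α, hF, hα, hR⟩ := h
  refine ⟨F, α, ⟨hF.1, hF.2⟩, hα, fun V _ _ _ ρ hρ => ?_⟩
  have h1 := hR V ρ fun g => by rw [hρ]
  have h0 : meromorphicTrailingCoeffAt F 0 ≠ 0 := by
    intro h
    have h2 := StarkG.reg_ne_zero S φ Θ₀ hφ V ρ
    rw [h1, h, mul_zero] at h2
    exact h2 rfl
  rw [show StarkP.Reg (StarkP.aboveSet K L S) ρ Θ = _ from hreg V ρ, h1, mul_div_assoc,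
    div_self h0, mul_one]
  rfl

/-- The diagonal representation with the linear characters `χ t`, `t ∈ s`. -/
noncomputable def diagRep {G : Type} [Group G] (s : Finset ℕ) (χ : ℕ → G →* ℂˣ) :
    Representation ℂ G (s → ℂ) where
  toFun g := Matrix.toLin' (Matrix.diagonal fun t : s => ((χ t g : ℂˣ) : ℂ))
  map_one' := by
    simp only [map_one, Units.val_one]
    rw [Matrix.diagonal_one, Matrix.toLin'_one]
    rfl
  map_mul' a b := by
    rw [Module.End.mul_eq_comp, ← Matrix.toLin'_mul, Matrix.diagonal_mul_diagonal]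
    simp only [map_mul, Units.val_mul]

theorem diagRep_char {G : Type} [Group G] (s : Finset ℕ) (χ : ℕ → G →* ℂˣ) (g : G) :
    (diagRep s χ).character g = ∑ t ∈ s, ((χ t g : ℂˣ) : ℂ) := by
  show LinearMap.trace ℂ (s → ℂ) (Matrix.toLin' (Matrix.diagonal fun t : s =>
    ((χ t g : ℂˣ) : ℂ))) = _
  rw [Matrix.trace_toLin'_eq, Matrix.trace_diagonal, ← Finset.sum_coe_sort s]

omit [IsGalois K L] in
/-- `cReg` from `PT` -/
theorem creg_of (n : ℕ) (ψ : (L ≃ₐ[K] L) →* ℂˣ) (S : Finset (HeightOneSpectrum (𝓞 K)))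
    (φ : XQ L (aboveSet K L S) ≃ₗ[ℚ] QU L (aboveSet K L S))
    (Θ : XC L (aboveSet K L S) →ₗ[ℂ] XC L (aboveSet K L S))
    (hφ : IsPhiTheta K (aboveSet K L S) φ Θ) (c : ℂ)
    (h : ∀ (V : Type) [AddCommGroup V] [Module ℂ V] [Module.Finite ℂ V]
      (ρ : Representation ℂ (L ≃ₐ[K] L) V), (∀ g, ρ.character g = cSum n ψ g) →
      Reg (aboveSet K L S) ρ Θ = c) : cReg n (aboveSet K L S) ψ Θ = c := by
  have hTf : (aboveSet K L (S : Set (HeightOneSpectrum (𝓞 K)))).Finite :=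
    IND.aboveSet_finite _ S.finite_toSet
  have hT := STB_thm K L (S : Set (HeightOneSpectrum (𝓞 K)))
  have hcm := ALLT.thc K L _ hT φ Θ hTf hφ
  have hb := ALLT.thb K L _ φ Θ hTf hφ
  have h1 := LASTx.reg_sum hTf hT Θ hb hcm (Ex n → ℂ) (diagRep (Ex n) fun t => ψ ^ t) (Ex n)
    (fun t => ψ ^ t) fun g => diagRep_char _ _ g
  have h2 := h (Ex n → ℂ) (diagRep (Ex n) fun t => ψ ^ t) fun g => by
    rw [diagRep_char]
    refine Finset.sum_congr rfl fun t _ => ?_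
    rw [MonoidHom.pow_apply, Units.val_pow_eq_pow_val]
  rw [← h2, h1]
  rfl

omit [IsGalois K L] in
/-- the regulator depends only on the character (linear case) -/
theorem reg_lin (ψ : (L ≃ₐ[K] L) →* ℂˣ) (S : Finset (HeightOneSpectrum (𝓞 K)))
    (φ : XQ L (aboveSet K L S) ≃ₗ[ℚ] QU L (aboveSet K L S))
    (Θ : XC L (aboveSet K L S) →ₗ[ℂ] XC L (aboveSet K L S))
    (hφ : IsPhiTheta K (aboveSet K L S) φ Θ)
    (V : Type) [AddCommGroup V] [Module ℂ V] [Module.Finite ℂ V]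
    (ρ : Representation ℂ (L ≃ₐ[K] L) V)
    (hρ : ∀ g, ρ.character g = ((ψ g : ℂˣ) : ℂ)) :
    Reg (aboveSet K L S) ρ Θ = Reg (aboveSet K L S) (linRep ψ) Θ := by
  have hTf : (aboveSet K L (S : Set (HeightOneSpectrum (𝓞 K)))).Finite :=
    IND.aboveSet_finite _ S.finite_toSet
  have hT := STB_thm K L (S : Set (HeightOneSpectrum (𝓞 K)))
  have hcm := ALLT.thc K L _ hT φ Θ hTf hφ
  have hb := ALLT.thb K L _ φ Θ hTf hφ
  rw [LASTx.reg_sum hTf hT Θ hb hcm V ρ {0} (fun _ => ψ) fun g => by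
    rw [Finset.sum_singleton, hρ g], Finset.prod_singleton]

/-- The linear case. -/
theorem linear (hORD : ∀ (K L : Type) [Field K] [NumberField K] [Field L] [NumberField L]
    [Algebra K L] [IsGalois K L]
    (ℓ k m : ℕ) (ψ : (L ≃ₐ[K] L) →* ℂˣ) (S : Finset (HeightOneSpectrum (𝓞 K)))
    (φ : XQ L (aboveSet K L S) ≃ₗ[ℚ] QU L (aboveSet K L S))
    (Θ : XC L (aboveSet K L S) →ₗ[ℂ] XC L (aboveSet K L S)),
    OkOrd ℓ k → 0 < m → (ℓ ^ k).Coprime m → orderOf ψ = ℓ ^ k * m →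
    IsPhiTheta K (aboveSet K L S) φ Θ → PT (ℓ ^ k) (cSum (ℓ ^ k * m) ψ) S Θ)
    (hC2 : Stmt_CYC2) (hN : Stmt_NORMT) (hR : Stmt_REGC) (hCFL : Stmt_CFL)
    (hTRX : ∀ (G : Type) (n : ℕ) (χ : G → ℂ) (χt : ℕ → G → ℂ), 0 < n →
      StarkP.charField χ = Cyc n →
      (∀ t ∈ Ex n, ∀ σ : ℂ ≃+* ℂ, (∀ z : ℂ, z ^ n = 1 → σ z = z ^ t) → ∀ g, σ (χ g) = χt t g) →
      ∀ g, StarkP.trChar χ g = ∑ t ∈ Ex n, χt t g)
    (S : Finset (HeightOneSpectrum (𝓞 K)))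
    (Θ : ((L → ℝ) →₀ ℂ) →ₗ[ℂ] ((L → ℝ) →₀ ℂ))
    (hΘ : StarkP.IsTheta K (StarkP.aboveSet K L S) Θ)
    (ψ : (L ≃ₐ[K] L) →* ℂˣ) (ℓ k m : ℕ) (hOk : OkOrd ℓ k) (hq3 : 3 ≤ ℓ ^ k)
    (hcop : (ℓ ^ k).Coprime m) (hord : orderOf ψ = ℓ ^ k * m) :
    StarkP.NormIn (StarkP.rootField (ℓ ^ k)) (fun g => ((ψ g : ℂˣ) : ℂ))
        (S : Set (HeightOneSpectrum (𝓞 K))) Θ ∧
      (m ≤ 2 → StarkP.charField (fun g => ((ψ g : ℂˣ) : ℂ)) = StarkP.rootField (ℓ ^ k)) ∧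
      (Module.finrank ℚ (StarkP.charField (fun g => ((ψ g : ℂˣ) : ℂ))) = 2 →
        StarkP.AbsIn (fun g => ((ψ g : ℂˣ) : ℂ)) (S : Set (HeightOneSpectrum (𝓞 K))) Θ) := by
  have hqpos : 0 < ℓ ^ k := pow_pos hOk.1.pos _
  have hnpos : 0 < orderOf ψ := orderOf_pos_iff.2 <| isOfFinOrder_iff_pow_eq_one.2
    ⟨Nat.card (L ≃ₐ[K] L), Nat.card_pos, MonoidHom.ext fun g => by
      rw [MonoidHom.pow_apply, ← map_pow, pow_card_eq_one']; simp⟩
  have hm : 0 < m := by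
    rcases Nat.eq_zero_or_pos m with h | h
    · rw [hord, h, mul_zero] at hnpos
      exact absurd hnpos (lt_irrefl 0)
    · exact h
  obtain ⟨φ, Θ₀, hφ, hreg⟩ := StarkB.exists_isPhiTheta (K := K) (L := L)
    (S : Set (HeightOneSpectrum (𝓞 K))) S.finite_toSet Θ hΘ
  have hPT := hORD K L ℓ k m ψ S φ Θ₀ hOk hm hcop hord hφ
  have hCF : StarkP.charField (fun g => ((ψ g : ℂˣ) : ℂ)) = Cyc (ℓ ^ k * m) := by
    rw [hCFL (L ≃ₐ[K] L) ψ, hord]
  have hψ1 : ψ ^ (ℓ ^ k * m) = 1 := by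
    rw [← hord]
    exact pow_orderOf_eq_one ψ
  have hval : ∀ g, ((ψ g : ℂˣ) : ℂ) ^ (ℓ ^ k * m) = 1 := fun g => by
    have := DFunLike.congr_fun hψ1 g
    rw [MonoidHom.pow_apply] at this
    rw [← Units.val_pow_eq_pow_val, this]
    rfl
  have htr : StarkP.trChar (fun g => ((ψ g : ℂˣ) : ℂ)) = cSum (ℓ ^ k * m) ψ := by
    funext g
    exact hTRX _ _ _ (fun t g => ((ψ g : ℂˣ) : ℂ) ^ t) (Nat.mul_pos hqpos hm) hCF
      (fun t _ σ hσ g => hσ _ (hval g)) g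
  have hCm : m ≤ 2 → Cyc (ℓ ^ k * m) = Cyc (ℓ ^ k) := by
    intro h2
    have h3 : m = 1 ∨ m = 2 := by omega
    rcases h3 with rfl | rfl
    · rw [mul_one]
    · rw [mul_comm]
      refine hC2 _ ?_
      rw [← Nat.not_even_iff_odd]
      intro he
      have h4 : 2 ∣ Nat.gcd (ℓ ^ k) 2 := Nat.dvd_gcd he.two_dvd dvd_rfl
      rw [hcop] at h4
      omega
  refine ⟨?_, fun h2 => ?_, fun h2 => ?_⟩
  · refine normIn_of S Θ φ Θ₀ hφ hreg (ℓ ^ k) _ ?_ _ rfl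
    rw [htr]
    exact hPT
  · rw [hCF, hCm h2]
    rfl
  · rw [hCF, finrank_cyc _ (Nat.mul_pos hqpos hm).ne', Nat.totient_mul hcop] at h2
    have hev : 2 ∣ (ℓ ^ k).totient := (Nat.totient_even (by omega)).two_dvd
    have hmt : 0 < m.totient := Nat.totient_pos.2 hm
    have hqt : (ℓ ^ k).totient = 2 ∧ m.totient = 1 := by
      obtain ⟨c, hc⟩ := hev
      rw [hc] at h2
      have h5 : c * m.totient = 1 := by
        have : 2 * (c * m.totient) = 2 * 1 := by rw [← mul_assoc, h2]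
        omega
      have h6 := Nat.eq_one_of_mul_eq_one_right h5
      have h7 := Nat.eq_one_of_mul_eq_one_left h5
      constructor
      · omega
      · exact h7
    have hm2 : m ≤ 2 := by
      have := Nat.totient_eq_one_iff.1 hqt.2
      omega
    have hq := totient_two hOk.1 hOk.2.1 hqt.1
    have hn : ℓ ^ k * m = 3 ∨ ℓ ^ k * m = 4 ∨ ℓ ^ k * m = 6 := by
      have h3 : m = 1 ∨ m = 2 := by omega
      rcases hq with h | h <;> rcases h3 with rfl | rfl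
      · left; omega
      · right; right; omega
      · right; left; omega
      · rw [h] at hcop
        exact absurd hcop (by norm_num)
    have hq' : ℓ ^ k = 3 ∨ ℓ ^ k = 4 ∨ ℓ ^ k = 6 := by omega
    obtain ⟨F, α, hF, hα, hE⟩ := hPT
    have hcr := creg_of (ℓ ^ k * m) ψ S φ Θ₀ hφ _ hE
    have hEq : StarkP.charField (fun g => ((ψ g : ℂˣ) : ℂ)) = Cyc (ℓ ^ k) := by
      rw [hCF, hCm hm2]
    intro f hf
    have habs := abs_lin hN hR (ℓ ^ k * m) (ℓ ^ k) hn hq' ψ hψ1 S φ Θ₀ hφ F α hF hcr f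
      ⟨hf.1, hf.2⟩
    refine ⟨⟨(α : ℂ), by rw [hEq]; exact α.2⟩, fun h => hα ?_, ?_⟩
    · have h2 : (α : ℂ) = 0 := congrArg (Subtype.val (p := fun x : ℂ => x ∈
        StarkP.charField (fun g => ((ψ g : ℂˣ) : ℂ)))) h
      exact Subtype.ext h2
    · intro V _ _ _ ρ hρ
      rw [show StarkP.Reg (StarkP.aboveSet K L S) ρ Θ = _ from hreg V ρ,
        reg_lin ψ S φ Θ₀ hφ V ρ fun g => by rw [hρ]]
      exact habs

theorem totient_gt {ℓ k : ℕ} (hℓ : ℓ.Prime) (h2 : ℓ ≠ 2) (hk : 0 < k) : 2 < ℓ ^ k := by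
  have h3 : 3 ≤ ℓ := by
    have := hℓ.two_le
    omega
  calc 2 < 3 ^ 1 := by norm_num
    _ ≤ ℓ ^ 1 := by simpa using h3
    _ ≤ ℓ ^ k := Nat.pow_le_pow_right (by omega) hk

omit [NumberField K] [NumberField L] [IsGalois K L] in
theorem irr_of {V : Type} [AddCommGroup V] [Module ℂ V] (ρ : Representation ℂ (L ≃ₐ[K] L) V)
    (h : ρ.IsIrreducible) : Irr ρ := by
  constructor
  · by_contra hV
    rw [not_nontrivial_iff_subsingleton] at hV
    have h1 : (⊥ : Subrepresentation ρ) = ⊤ := by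
      apply Subrepresentation.toSubmodule_injective
      exact Subsingleton.elim _ _
    exact bot_ne_top h1
  · intro W hW
    have h1 := h.eq_bot_or_eq_top ⟨W, fun g v hv => hW g v hv⟩
    rcases h1 with h1 | h1
    · left
      exact congrArg Subrepresentation.toSubmodule h1
    · right
      exact congrArg Subrepresentation.toSubmodule h1

/-- Irreducible characters whose image is a group of odd prime power order. -/
theorem irr (hC : Concl1) (hCOMB : Stmt_COMB) (hN : Stmt_NORMT) (hR : Stmt_REGC)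
    (hCFR : Stmt_CFR)
    (hRFX : ∀ (ℓ : ℕ) (G V : Type) [Group G] [Fintype G] [AddCommGroup V] [Module ℂ V]
      [Module.Finite ℂ V] (ρ : Representation ℂ G V), ℓ.Prime → ℓ ≠ 2 → Irr ρ → LImg ℓ ρ →
      (¬ ∀ g, ρ g = 1) →
      ∃ (k : ℕ) (H : Subgroup G) (ψ : H →* ℂˣ), 0 < k ∧ orderOf ψ = ℓ ^ k ∧
        (∀ σ : ℂ ≃+* ℂ, (∀ g, σ (ρ.character g) = ρ.character g) ↔
          ∀ z : ℂ, z ^ (ℓ ^ k) = 1 → σ z = z) ∧
        ∀ (σ : ℂ ≃+* ℂ) (t : ℕ), (∀ z : ℂ, z ^ (ℓ ^ k) = 1 → σ z = z ^ t) →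
          ∀ g, σ (ρ.character g) = indFun H (extZ (ψ ^ t)) g)
    (hTRX : ∀ (G : Type) (n : ℕ) (χ : G → ℂ) (χt : ℕ → G → ℂ), 0 < n →
      StarkP.charField χ = Cyc n →
      (∀ t ∈ Ex n, ∀ σ : ℂ ≃+* ℂ, (∀ z : ℂ, z ^ n = 1 → σ z = z ^ t) → ∀ g, σ (χ g) = χt t g) →
      ∀ g, StarkP.trChar χ g = ∑ t ∈ Ex n, χt t g)
    (S : Finset (HeightOneSpectrum (𝓞 K)))
    (Θ : ((L → ℝ) →₀ ℂ) →ₗ[ℂ] ((L → ℝ) →₀ ℂ))
    (hΘ : StarkP.IsTheta K (StarkP.aboveSet K L S) Θ)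
    (V : Type) [AddCommGroup V] [Module ℂ V] [Module.Finite ℂ V]
    (ρ : Representation ℂ (L ≃ₐ[K] L) V) (ℓ : ℕ) (hℓ : ℓ.Prime) (hℓ2 : ℓ ≠ 2)
    (hirr : ρ.IsIrreducible) (hone : ¬ ∀ g, ρ g = 1) (himg : StarkP.HasImage ℓ ρ) :
    StarkP.NormIn (StarkP.charField ρ.character) ρ.character
        (S : Set (HeightOneSpectrum (𝓞 K))) Θ ∧
      (Module.finrank ℚ (StarkP.charField ρ.character) = 2 →
        StarkP.AbsIn ρ.character (S : Set (HeightOneSpectrum (𝓞 K))) Θ) := by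
  obtain ⟨k, H, ψ, hk, hord, hfix, hconj⟩ := hRFX ℓ (L ≃ₐ[K] L) V ρ hℓ hℓ2 (irr_of ρ hirr) himg
    hone
  have hgt := totient_gt hℓ hℓ2 hk
  have hOk : OkOrd ℓ k := ⟨hℓ, hk, hgt⟩
  obtain ⟨φ, Θ₀, hφ, hreg⟩ := StarkB.exists_isPhiTheta (K := K) (L := L)
    (S : Set (HeightOneSpectrum (𝓞 K))) S.finite_toSet Θ hΘ
  have hCF : StarkP.charField ρ.character = Cyc (ℓ ^ k) := hCFR _ _ _ hfix
  have htr : ∀ g, StarkP.trChar ρ.character g =
      ∑ t ∈ Ex (ℓ ^ k), indFun H (extZ (ψ ^ t)) g :=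
    hTRX _ _ _ (fun t g => indFun H (extZ (ψ ^ t)) g) (by omega) hCF
      fun t _ σ hσ g => hconj σ t hσ g
  have hPT : PT (ℓ ^ k) (StarkP.trChar ρ.character) S Θ₀ :=
    hCOMB hC K L ℓ k S φ Θ₀ 1 (fun _ => H) (fun _ => ψ) (fun _ => 1) _ hOk (fun _ => hord) hφ
      fun g => by rw [htr g]; simp
  refine ⟨normIn_of S Θ φ Θ₀ hφ hreg (ℓ ^ k) _ hPT _ hCF, fun h2 => ?_⟩
  rw [hCF, finrank_cyc _ (by omega)] at h2
  have hq := totient_two hℓ hk h2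
  have hχ : ρ.character = indFun H (extZ ψ) := by
    funext g
    have h1 := hconj (RingEquiv.refl ℂ) 1 (fun z _ => (pow_one z).symm) g
    have h3 : ψ ^ 1 = ψ := MonoidHom.ext fun g => by rw [MonoidHom.pow_apply, pow_one]
    rw [h3] at h1
    exact h1
  intro f hf
  obtain ⟨α, hα, h⟩ := abs_ind hC hN hR ℓ k hOk (by omega) H ψ hord S φ Θ₀ hφ f
    ⟨hf.1, fun s hs => by rw [← hχ]; exact hf.2 s hs⟩
  refine ⟨⟨(α : ℂ), by rw [hCF]; exact α.2⟩, fun h => hα ?_, ?_⟩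
  · have h2 : (α : ℂ) = 0 := congrArg (Subtype.val (p := fun x : ℂ => x ∈
      StarkP.charField ρ.character)) h
    exact Subtype.ext h2
  · intro W _ _ _ η hη
    rw [show StarkP.Reg (StarkP.aboveSet K L S) η Θ = _ from hreg W η]
    exact h W η (hη.trans hχ)

end

end RESFx

end StarkC.ABS
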