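import Pool.Agent.ABS.StG
import Pool.Agent.ABS.COMB
import Pool.Agent.ABS.RESF

/-!
# Project ABS (MP_46b841_nt), module FAS: the criterion (theorem (G))
-/

set_option autoImplicit false

open NumberField IsDedekindDomain
open scoped TensorProduct Classical

namespace StarkC.ABS

namespace FASx

/-! ### Generalities -/

theorem norm_zpow {F : Type} [Field F] [Algebra ℚ F] (α : F) (hα : α ≠ 0) (k : ℤ) :
    Algebra.norm ℚ (α ^ k) = (Algebra.norm ℚ α) ^ k := by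
  have h1 : α ^ k = ((Units.mk0 α hα ^ k : Fˣ) : F) := by
    rw [Units.val_zpow_eq_zpow_val, Units.val_mk0]
  rw [h1]
  have h3 : Algebra.norm ℚ (((Units.mk0 α hα ^ k : Fˣ)) : F) =
      ((Units.map (Algebra.norm ℚ (S := F)) (Units.mk0 α hα ^ k) : ℚˣ) : ℚ) := rfl
  rw [h3, map_zpow, Units.val_zpow_eq_zpow_val]
  rfl

/-- a number `a` with `a ^ m = N(α)`, `m` prime to the degree, is a norm -/
theorem bezout (F : IntermediateField ℚ ℂ) (m : ℕ) (a : ℚ) (ha : a ≠ 0)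
    (hm : m.Coprime (Module.finrank ℚ F)) (α : F) (hα : α ≠ 0)
    (h : Algebra.norm ℚ α = a ^ m) : ∃ β : F, β ≠ 0 ∧ Algebra.norm ℚ β = a := by
  have h0 : algebraMap ℚ F a ≠ 0 := by
    intro h1
    exact ha ((map_eq_zero (algebraMap ℚ F)).1 h1)
  have hb := Nat.gcd_eq_gcd_ab m (Module.finrank ℚ F)
  rw [show m.gcd (Module.finrank ℚ F) = 1 from hm] at hb
  refine ⟨α ^ (m.gcdA (Module.finrank ℚ F)) *
    (algebraMap ℚ F a) ^ (m.gcdB (Module.finrank ℚ F)), mul_ne_zero (zpow_ne_zero _ hα)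
      (zpow_ne_zero _ h0), ?_⟩
  rw [map_mul, norm_zpow α hα, norm_zpow _ h0, h, Algebra.norm_algebraMap, ← zpow_natCast,
    ← zpow_natCast, ← zpow_mul, ← zpow_mul, ← zpow_add₀ ha, ← hb]
  simp

theorem ex_one : Ex 1 = {0} := by
  unfold Ex
  decide

theorem indFun_one {G : Type} [Group G] [Fintype G] (H : Subgroup G) (t : ℕ) (g : G) :
    indFun H (extZ ((1 : H →* ℂˣ) ^ t)) g = indFun H (fun _ => 1) g := by
  unfold indFun
  congr 1
  refine Finset.sum_congr rfl fun x _ => ?_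
  by_cases hx : x⁻¹ * g * x ∈ H
  · rw [if_pos hx, if_pos hx]
    unfold extZ
    rw [dif_pos hx, MonoidHom.pow_apply, MonoidHom.one_apply, one_pow]
    rfl
  · rw [if_neg hx, if_neg hx]

section

variable {K L : Type} [Field K] [NumberField K] [Field L] [NumberField L] [Algebra K L]
  [IsGalois K L]

/-- FCX for a family with any finite index type. -/
theorem fcx (hFCX : Stmt_FCX) (S : Finset (HeightOneSpectrum (𝓞 K)))
    (φ : XQ L (aboveSet K L S) ≃ₗ[ℚ] QU L (aboveSet K L S))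
    (Θ : XC L (aboveSet K L S) →ₗ[ℂ] XC L (aboveSet K L S))
    {ι : Type} [Fintype ι] (H : ι → Subgroup (L ≃ₐ[K] L)) (q : ι → ℕ) (ψ : ∀ i, H i →* ℂˣ)
    (hφ : IsPhiTheta K (aboveSet K L S) φ Θ)
    (hP : ∀ i (S' : Finset (HeightOneSpectrum (𝓞 (IntermediateField.fixedField (H i))))),
      PPall (q i) (liftChar (H i) (ψ i)) S') :
    ∃ x : ι → ℂ, (∀ i, ∃ α : Cyc (q i), α ≠ 0 ∧ x i = nm (q i) α) ∧
      ∀ (c : ι → ℤ) (θ : (L ≃ₐ[K] L) → ℂ),
        (∀ g, θ g = ∑ i, (c i : ℂ) * ∑ t ∈ Ex (q i), indFun (H i) (extZ (ψ i ^ t)) g) →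
        ∃ F : ℂ → ℂ, IsArtinL θ (S : Set (HeightOneSpectrum (𝓞 K))) F ∧
          ∀ (V : Type) [AddCommGroup V] [Module ℂ V] [Module.Finite ℂ V]
            (ρ : Representation ℂ (L ≃ₐ[K] L) V), (∀ g, ρ.character g = θ g) →
            Reg (aboveSet K L S) ρ Θ = (∏ i, x i ^ c i) * meromorphicTrailingCoeffAt F 0 := by
  let e : Fin (Fintype.card ι) ≃ ι := (Fintype.equivFin ι).symm
  obtain ⟨x, hx, h⟩ := hFCX K L S φ Θ (Fintype.card ι) (fun i => H (e i)) (fun i => q (e i))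
    (fun i => ψ (e i)) hφ fun i S' => hP (e i) S'
  refine ⟨fun i => x (e.symm i), fun i => ?_, fun c θ hθ => ?_⟩
  · obtain ⟨j, rfl⟩ := e.surjective i
    obtain ⟨α, hα, h1⟩ := hx j
    refine ⟨α, hα, ?_⟩
    show x (e.symm (e j)) = _
    rw [e.symm_apply_apply, h1]
  · obtain ⟨F, hF, hR⟩ := h (fun i => c (e i)) θ fun g => by
      rw [hθ g]
      exact (Equiv.sum_comp e fun i => (c i : ℂ) *
        ∑ t ∈ Ex (q i), indFun (H i) (extZ (ψ i ^ t)) g).symm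
    refine ⟨F, hF, fun V _ _ _ ρ hρ => ?_⟩
    rw [hR V ρ hρ, ← Equiv.prod_comp e fun i => x (e.symm i) ^ c i]
    congr 1
    refine Finset.prod_congr rfl fun i _ => ?_
    rw [e.symm_apply_apply]

/-- The representation on the zero space. -/
noncomputable def zeroRep (G : Type) [Group G] : Representation ℂ G PUnit.{1} := 1

theorem zeroRep_char (G : Type) [Group G] (g : G) : (zeroRep G).character g = 0 := by
  have h : (zeroRep G) g = 0 := Subsingleton.elim _ _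
  show LinearMap.trace ℂ PUnit.{1} ((zeroRep G) g) = 0
  rw [h, map_zero]

omit [IsGalois K L] in
theorem lift_one (H : Subgroup (L ≃ₐ[K] L)) : liftChar H (1 : H →* ℂˣ) = 1 :=
  MonoidHom.ext fun _ => rfl

end

end FASx

open FASx

theorem FAS_thm : Stmt_FAS := by
  intro hSIGT hTRT hFCX hFCH hP1 hPn hFEN K L _ _ _ _ _ _ χ ℓ k₀ m S Θ hΘ hℓ hℓ2 hm hcop hPerm hMon
  obtain ⟨φ, Θ₀, hφ, hreg⟩ := StarkB.exists_isPhiTheta (K := K) (L := L)
    (S : Set (HeightOneSpectrum (𝓞 K))) S.finite_toSet Θ hΘ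
  obtain ⟨r, H, c, hc⟩ := hPerm
  obtain ⟨r', H', ψ', c', hψ'0, hc'⟩ := hMon
  obtain ⟨k, hk, hψ'⟩ : ∃ k : ℕ, 0 < k ∧ ∀ i, ψ' i ^ (ℓ ^ k) = 1 := by
    refine ⟨k₀ + 1, Nat.succ_pos _, fun i => ?_⟩
    refine MonoidHom.ext fun g => ?_
    have h1 := DFunLike.congr_fun (hψ'0 i) g
    rw [MonoidHom.pow_apply] at h1 ⊢
    rw [pow_succ, pow_mul, h1, MonoidHom.one_apply, one_pow]
  have hn : 0 < ℓ ^ k := pow_pos hℓ.pos _
  obtain ⟨hle, e, he, -, hdeg, htr⟩ := hFCH hSIGT hTRT (L ≃ₐ[K] L) (ℓ ^ k) m r' χ H' ψ' c' hn hm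
    hψ' hc'
  -- the family
  let HH : Fin r ⊕ Fin r' → Subgroup (L ≃ₐ[K] L) := Sum.elim H H'
  let q : Fin r ⊕ Fin r' → ℕ := Sum.elim (fun _ => 1) (fun _ => ℓ ^ k)
  let ψ : ∀ i, HH i →* ℂˣ := fun i => match i with
    | Sum.inl _ => 1
    | Sum.inr j => ψ' j
  obtain ⟨x, hx, hX⟩ := fcx hFCX S φ Θ₀ HH q ψ hφ (by
    rintro (i | j) S'
    · show PPall 1 (liftChar (H i) 1) S'
      rw [lift_one]
      exact hP1 _ L S'
    · show PPall (ℓ ^ k) (liftChar (H' j) (ψ' j)) S'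
      refine hPn _ L ℓ k (liftChar (H' j) (ψ' j)) S' hℓ hℓ2 ?_
      rw [← COMBx.lift_pow, hψ' j, lift_one])
  have hα' : ∀ i : Fin r, ∃ α : Cyc 1, α ≠ 0 ∧ x (Sum.inl i) = nm 1 α := fun i => hx (Sum.inl i)
  have hβ' : ∀ j : Fin r', ∃ β : Cyc (ℓ ^ k), β ≠ 0 ∧ x (Sum.inr j) = nm (ℓ ^ k) β :=
    fun j => hx (Sum.inr j)
  choose α hα hxα using hα'
  choose β hβ hxβ using hβ'
  -- the rational number
  set a : ℚ := ∏ i, (Algebra.norm ℚ (α i)) ^ c i with ha_def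
  have hfin1 : FiniteDimensional ℚ (Cyc 1) := by
    apply Module.finite_of_finrank_pos
    rw [RESFx.finrank_cyc 1 one_ne_zero]
    exact Nat.totient_pos.2 one_pos
  have ha : a ≠ 0 := Finset.prod_ne_zero_iff.2 fun i _ => zpow_ne_zero _
    (Algebra.norm_ne_zero_iff.2 (hα i))
  have hxa : ∏ i, x (Sum.inl i) ^ c i = (a : ℂ) := by
    rw [ha_def, Rat.cast_prod]
    refine Finset.prod_congr rfl fun i _ => ?_
    rw [Rat.cast_zpow, hxα i]
    rfl
  -- the character `0`, in two ways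
  obtain ⟨F₁, hF₁, hR₁⟩ := hX (fun _ => 0) (fun _ => 0) fun g => by simp
  obtain ⟨F₂, hF₂, hR₂⟩ := hX (Sum.elim (fun i => ((m * e : ℕ) : ℤ) * c i) fun j => - c' j)
    (fun _ => 0) fun g => by
      rw [Fintype.sum_sum_type]
      have h1 : ∑ i : Fin r, ((Sum.elim (fun i => ((m * e : ℕ) : ℤ) * c i) (fun j => - c' j)
          (Sum.inl i) : ℤ) : ℂ) * ∑ t ∈ Ex (q (Sum.inl i)), indFun (HH (Sum.inl i))
            (extZ (ψ (Sum.inl i) ^ t)) g = ((m * e : ℕ) : ℂ) * StarkP.trChar χ g := by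
        rw [hc g, Finset.mul_sum]
        refine Finset.sum_congr rfl fun i _ => ?_
        show ((((m * e : ℕ) : ℤ) * c i : ℤ) : ℂ) * ∑ t ∈ Ex 1, indFun (H i)
          (extZ ((1 : H i →* ℂˣ) ^ t)) g = _
        rw [ex_one, Finset.sum_singleton, indFun_one]
        push_cast
        ring
      have h2 : ∑ j : Fin r', ((Sum.elim (fun i => ((m * e : ℕ) : ℤ) * c i) (fun j => - c' j)
          (Sum.inr j) : ℤ) : ℂ) * ∑ t ∈ Ex (q (Sum.inr j)), indFun (HH (Sum.inr j))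
            (extZ (ψ (Sum.inr j) ^ t)) g = - (((m * e : ℕ) : ℂ) * StarkP.trChar χ g) := by
        rw [htr g, ← Finset.sum_neg_distrib]
        refine Finset.sum_congr rfl fun j _ => ?_
        show ((- c' j : ℤ) : ℂ) * ∑ t ∈ Ex (ℓ ^ k), indFun (H' j) (extZ (ψ' j ^ t)) g = _
        push_cast
        ring
      rw [h1, h2]
      ring
  have hz1 := hR₁ PUnit.{1} (zeroRep _) fun g => zeroRep_char _ g
  have hz2 := hR₂ PUnit.{1} (zeroRep _) fun g => zeroRep_char _ g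
  have hne : Reg (aboveSet K L S) (zeroRep (L ≃ₐ[K] L)) Θ₀ ≠ 0 :=
    StarkG.reg_ne_zero S φ Θ₀ hφ PUnit.{1} (zeroRep _)
  have htrail : meromorphicTrailingCoeffAt F₁ 0 = meromorphicTrailingCoeffAt F₂ 0 :=
    LASTx.trail_unique hF₁.1 hF₂.1 fun s hs => by rw [hF₁.2 s hs, hF₂.2 s hs]
  have h1 : (∏ i, x (Sum.inl i) ^ (((m * e : ℕ) : ℤ) * c i)) * ∏ j, x (Sum.inr j) ^ (- c' j) =
      1 := by
    have h2 : meromorphicTrailingCoeffAt F₂ 0 ≠ 0 := by
      intro h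
      rw [hz2, h, mul_zero] at hne
      exact hne rfl
    rw [hz1, htrail] at hz2
    have h3 := mul_right_cancel₀ h2 hz2
    simp only [zpow_zero, Finset.prod_const_one] at h3
    rw [Fintype.prod_sum_type] at h3
    exact h3.symm
  have h2 : ((a ^ m) ^ e : ℚ) = Algebra.norm ℚ (∏ j, β j ^ c' j) := by
    have h3 : (((a ^ m) ^ e : ℚ) : ℂ) = nm (ℓ ^ k) (∏ j, β j ^ c' j) := by
      rw [COMBx.nm_prod]
      have h4 : ∏ j, nm (ℓ ^ k) (β j ^ c' j) = ∏ j, x (Sum.inr j) ^ c' j :=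
        Finset.prod_congr rfl fun j _ => by rw [COMBx.nm_zpow _ _ (hβ j), hxβ j]
      have h5 : (∏ i, x (Sum.inl i) ^ (((m * e : ℕ) : ℤ) * c i)) = (((a ^ m) ^ e : ℚ) : ℂ) := by
        rw [← pow_mul, Rat.cast_pow, ← hxa, ← Finset.prod_pow]
        refine Finset.prod_congr rfl fun i _ => ?_
        rw [mul_comm, zpow_mul, zpow_natCast]
      have h6 : ∏ j, x (Sum.inr j) ^ (- c' j) = (∏ j, x (Sum.inr j) ^ c' j)⁻¹ := by
        rw [← Finset.prod_inv_distrib]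
        exact Finset.prod_congr rfl fun j _ => zpow_neg _ _
      rw [h4]
      rw [h5, h6] at h1
      exact eq_of_mul_inv_eq_one h1
    exact Rat.cast_injective (α := ℂ) h3
  -- norms from `ℚ(χ)`
  obtain ⟨γ, hγ, hγn⟩ := hFEN ℓ k e (a ^ m) (∏ j, β j ^ c' j) (StarkP.charField χ) hℓ hℓ2 hk he
    (pow_ne_zero _ ha) h2.symm hle hdeg
  obtain ⟨δ, hδ, hδn⟩ := bezout (StarkP.charField χ) m a ha hcop γ hγ hγn
  -- the end
  obtain ⟨F, hF, hR⟩ := hX (Sum.elim c fun _ => 0) (StarkP.trChar χ) fun g => by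
    rw [Fintype.sum_sum_type, hc g]
    have h3 : ∑ j : Fin r', ((Sum.elim c (fun _ : Fin r' => (0 : ℤ)) (Sum.inr j) : ℤ) : ℂ) *
        ∑ t ∈ Ex (q (Sum.inr j)), indFun (HH (Sum.inr j)) (extZ (ψ (Sum.inr j) ^ t)) g = 0 :=
      Finset.sum_eq_zero fun j _ => by
        show ((0 : ℤ) : ℂ) * _ = 0
        rw [Int.cast_zero, zero_mul]
    rw [h3, add_zero]
    refine Finset.sum_congr rfl fun i _ => ?_
    show _ = ((c i : ℤ) : ℂ) * ∑ t ∈ Ex 1, indFun (H i) (extZ ((1 : H i →* ℂˣ) ^ t)) g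
    rw [ex_one, Finset.sum_singleton, indFun_one]
  refine ⟨F, δ, ⟨hF.1, hF.2⟩, hδ, fun V _ _ _ ρ hρ => ?_⟩
  have h3 := hR V ρ fun g => by rw [hρ]
  rw [Fintype.prod_sum_type] at h3
  have h4 : ∏ j : Fin r', x (Sum.inr j) ^
      (Sum.elim c (fun _ : Fin r' => (0 : ℤ)) (Sum.inr j)) = 1 :=
    Finset.prod_eq_one fun j _ => zpow_zero _
  have h5 : ∏ i : Fin r, x (Sum.inl i) ^
      (Sum.elim c (fun _ : Fin r' => (0 : ℤ)) (Sum.inl i)) = (a : ℂ) := hxa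
  rw [h4, h5, mul_one] at h3
  have h0 : meromorphicTrailingCoeffAt F 0 ≠ 0 := by
    intro h
    have h2 := StarkG.reg_ne_zero S φ Θ₀ hφ V ρ
    rw [h3, h, mul_zero] at h2
    exact h2 rfl
  rw [show StarkP.Reg (StarkP.aboveSet K L S) ρ Θ = _ from hreg V ρ, h3, mul_div_assoc,
    div_self h0, mul_one, hδn]

end StarkC.ABS
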