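import Pool.Agent.ABS.FINV

/-!
# Project ABS: absolute values for one exact `φ`, imaginary quadratic `ℚ(χ)` (helper6)
-/

set_option autoImplicit false

open NumberField IsDedekindDomain Filter Topology ComplexConjugate
open scoped TensorProduct Classical

namespace StarkC.ABS

open LASTx FABx in
/-- If `φ` is exact on `Tr χ`, `ℚ(χ)` imaginary quadratic, then `|R_S(χ, φ)| = |L_S^*(0, χ)|`. -/
theorem abs_exact {K L : Type} [Field K] [NumberField K] [Field L] [NumberField L] [Algebra K L]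
    [IsGalois K L] (S : Finset (HeightOneSpectrum (𝓞 K)))
    (Θ : ((L → ℝ) →₀ ℂ) →ₗ[ℂ] ((L → ℝ) →₀ ℂ))
    (hΘ : StarkP.IsTheta K (StarkP.aboveSet K L S) Θ)
    (V : Type) [AddCommGroup V] [Module ℂ V] [Module.Finite ℂ V]
    (ρ : Representation ℂ (L ≃ₐ[K] L) V)
    (h2 : Module.finrank ℚ (StarkP.charField ρ.character) = 2)
    (him : ∃ g, (ρ.character g).im ≠ 0)
    (F : ℂ → ℂ) (hF : StarkP.IsArtinL (StarkP.trChar ρ.character)
      (S : Set (HeightOneSpectrum (𝓞 K))) F)
    (hE : StarkP.Reg (StarkP.aboveSet K L S) (ρ.prod ρ.dual) Θ = meromorphicTrailingCoeffAt F 0)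
    (f : ℂ → ℂ) (hf : StarkP.IsArtinL ρ.character (S : Set (HeightOneSpectrum (𝓞 K))) f) :
    ‖StarkP.Reg (StarkP.aboveSet K L S) ρ Θ‖ = ‖meromorphicTrailingCoeffAt f 0‖ := by
  obtain ⟨r, H, ψ, c, -, hχ'⟩ := monC_all ρ (Fintype.card (L ≃ₐ[K] L)) fun g => by
    rw [← map_pow, pow_card_eq_one, map_one]
  have hχ : ∀ g, ((1 : ℕ) : ℂ) * ρ.character g =
      ∑ i, (c i : ℂ) * indFun (H i) (extZ (ψ i)) g := fun g => by
    rw [Nat.cast_one, one_mul]
    exact hχ' g
  obtain ⟨g₀, hg₀⟩ := him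
  obtain ⟨φ, Θ₀, hφ, hreg⟩ := StarkB.exists_isPhiTheta (K := K) (L := L)
    (S : Set (HeightOneSpectrum (𝓞 K))) S.finite_toSet Θ hΘ
  have hfin : FiniteDimensional ℚ (StarkP.charField ρ.character) :=
    Module.finite_of_finrank_pos (by rw [h2]; norm_num)
  let x₀ : StarkP.charField ρ.character :=
    ⟨ρ.character g₀, IntermediateField.subset_adjoin ℚ _ (Set.mem_range_self g₀)⟩
  have hx₀ : (x₀ : ℂ).im ≠ 0 := hg₀
  have htr : StarkP.trChar ρ.character = fun g => ρ.character g + conj (ρ.character g) := by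
    funext g
    exact tr_eq h2 x₀ hx₀ _
  have hinv : ∀ g, ρ.character g⁻¹ = conj (ρ.character g) := by
    intro g
    have h0 := hχ g⁻¹
    have h1 := hχ g
    rw [Nat.cast_one, one_mul] at h0 h1
    rw [h0, h1, map_sum]
    refine Finset.sum_congr rfl fun i _ => ?_
    rw [ind_inv, map_mul, map_intCast]
  -- the two continuations
  have ht : meromorphicTrailingCoeffAt F 0 =
      meromorphicTrailingCoeffAt f 0 * conj (meromorphicTrailingCoeffAt f 0) := by
    rw [← cf_trail (hf.1 0)]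
    have h1 := MeromorphicAt.meromorphicTrailingCoeffAt_mul (hf.1 0)
      (cf_mero (f := f) (z := 0) (by simpa using hf.1 0))
    rw [← h1]
    refine trail_unique hF.1 (fun z => (hf.1 z).mul (cf_mero (hf.1 (conj z)))) fun s hs => ?_
    rw [hF.2 s hs, htr]
    show _ = f s * cf f s
    have h2 := IND.logL_sum (K := K) (N := L) LA_thm ALLT.lb
      (S : Set (HeightOneSpectrum (𝓞 K))) s hs 2 ![1, 1]
      ![ρ.character, fun g => conj (ρ.character g)]
    simp only [Fin.sum_univ_two, Matrix.cons_val_zero, Matrix.cons_val_one, one_mul] at h2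
    have h3 : StarkP.logL (fun g => ρ.character g + conj (ρ.character g))
        (S : Set (HeightOneSpectrum (𝓞 K))) s =
        logL (fun g => ρ.character g + conj (ρ.character g))
          (S : Set (HeightOneSpectrum (𝓞 K))) s := rfl
    have h4 : f s = Complex.exp (logL ρ.character (S : Set (HeightOneSpectrum (𝓞 K))) s) :=
      hf.2 s hs
    have h5 : f (conj s) =
        Complex.exp (logL ρ.character (S : Set (HeightOneSpectrum (𝓞 K))) (conj s)) :=
      hf.2 (conj s) (by simpa using hs)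
    rw [h3, h2, Complex.exp_add, ← h4, logL_conj, cf_apply, h5, Complex.exp_conj]
  have hτ : (ρ.prod ρ.dual).character = StarkP.trChar ρ.character := by
    rw [htr]
    funext g
    have h3 : (ρ.prod ρ.dual).character g = ρ.character g + ρ.dual.character g :=
      LinearMap.trace_prodMap' (ρ g) (ρ.dual g)
    rw [h3, Representation.char_dual, hinv]
  have h7 := reg_two REGC_thm S φ Θ₀ hφ V ρ (V × Module.Dual ℂ V) (ρ.prod ρ.dual)
    (fun g => by rw [hτ, htr]) 1 r one_pos H ψ c hχ
  have h6 := hE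
  rw [show StarkP.Reg (StarkP.aboveSet K L S) (ρ.prod ρ.dual) Θ = _ from
    hreg (V × Module.Dual ℂ V) (ρ.prod ρ.dual), ht] at h6
  rw [show StarkP.Reg (StarkP.aboveSet K L S) ρ Θ = _ from hreg V ρ]
  have h8 := congrArg norm h6
  rw [h7, norm_mul, Complex.norm_conj, ← sq] at h8
  exact (pow_left_inj₀ (norm_nonneg _) (norm_nonneg _) two_ne_zero).1 h8

end StarkC.ABS
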