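import Pool.Agent.ABS.StG

/-!
# Project ABS, module FCH: the field of values and the traces of a combination of monomial characters
-/

set_option autoImplicit false

open NumberField IsDedekindDomain
open scoped TensorProduct Classical

namespace StarkC.ABS

namespace FCHx

lemma finite_roots (n : ℕ) (hn : 0 < n) : {z : ℂ | z ^ n = 1}.Finite := by
  have h : {z : ℂ | z ^ n = 1} = ((Polynomial.nthRootsFinset n (1 : ℂ) : Finset ℂ) : Set ℂ) := by
    ext z
    rw [Set.mem_ofPred_eq, Finset.mem_coe, Polynomial.mem_nthRootsFinset hn]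
  rw [h]
  exact Finset.finite_toSet _

lemma integral_root (n : ℕ) (hn : 0 < n) (z : ℂ) (hz : z ^ n = 1) : IsIntegral ℚ z := by
  refine ⟨Polynomial.X ^ n - Polynomial.C 1, Polynomial.monic_X_pow_sub_C 1 hn.ne', ?_⟩
  simp [hz]

lemma finDim (n : ℕ) (hn : 0 < n) : FiniteDimensional ℚ (Cyc n) := by
  have h1 : Finite {z : ℂ | z ^ n = 1} := (finite_roots n hn).to_subtype
  exact IntermediateField.finiteDimensional_adjoin fun z hz => integral_root n hn z hz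

/-- the restriction of an automorphism of `ℂ` -/
noncomputable def rst (n : ℕ) (s : ℂ ≃+* ℂ) : Cyc n →ₐ[ℚ] ℂ :=
  (s : ℂ →+* ℂ).toRatAlgHom.comp (Cyc n).val

lemma rst_apply (n : ℕ) (s : ℂ ≃+* ℂ) (x : Cyc n) : rst n s x = s x := rfl

lemma root_mem {n : ℕ} {z : ℂ} (hz : z ^ n = 1) : z ∈ Cyc n :=
  IntermediateField.subset_adjoin ℚ _ hz

/-- the restriction is determined by the exponent -/
lemma rst_ext {n t : ℕ} (f : Cyc n →ₐ[ℚ] ℂ) (s : ℂ ≃+* ℂ)
    (h : ∀ (z : ℂ) (hz : z ^ n = 1), f ⟨z, root_mem hz⟩ = z ^ t)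
    (hs : ∀ z : ℂ, z ^ n = 1 → s z = z ^ t) : rst n s = f := by
  refine IntermediateField.adjoin_algHom_ext (F := ℚ) (fun z hz1 => ?_)
  rw [Set.mem_ofPred_eq] at hz1
  have h1 : rst n s ⟨z, root_mem hz1⟩ = f ⟨z, root_mem hz1⟩ := by
    rw [rst_apply, h z hz1]
    exact hs z hz1
  exact h1

/-- different exponents, different restrictions -/
lemma rst_inj {n t t' : ℕ} (hn : 0 < n) (ht : t < n) (ht' : t' < n) (s s' : ℂ ≃+* ℂ)
    (hs : ∀ z : ℂ, z ^ n = 1 → s z = z ^ t) (hs' : ∀ z : ℂ, z ^ n = 1 → s' z = z ^ t')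
    (h : rst n s = rst n s') : t = t' := by
  have : NeZero n := ⟨hn.ne'⟩
  have hζ := Complex.isPrimitiveRoot_exp n hn.ne'
  have h2 : rst n s ⟨_, root_mem hζ.pow_eq_one⟩ = rst n s' ⟨_, root_mem hζ.pow_eq_one⟩ := by
    rw [h]
  rw [rst_apply, rst_apply] at h2
  refine hζ.pow_inj ht ht' ?_
  rw [← hs _ hζ.pow_eq_one, ← hs' _ hζ.pow_eq_one]
  exact h2

/-- every embedding has an exponent -/
lemma exists_exp {n : ℕ} (hn : 0 < n) (f : Cyc n →ₐ[ℚ] ℂ) : ∃ t ∈ Ex n,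
    ∀ (z : ℂ) (hz : z ^ n = 1), f ⟨z, root_mem hz⟩ = z ^ t := by
  have : NeZero n := ⟨hn.ne'⟩
  have hζ : IsPrimitiveRoot (Complex.exp (2 * Real.pi * Complex.I / n)) n :=
    Complex.isPrimitiveRoot_exp n hn.ne'
  set ζ : ℂ := Complex.exp (2 * Real.pi * Complex.I / n) with hζd
  have hz : IsPrimitiveRoot (f ⟨ζ, root_mem hζ.pow_eq_one⟩) n := by
    have h4 : IsPrimitiveRoot (⟨ζ, root_mem hζ.pow_eq_one⟩ : Cyc n) n :=
      IsPrimitiveRoot.of_map_of_injective (f := (Cyc n).val) hζ (Cyc n).val.injective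
    exact h4.map_of_injective f.toRingHom.injective
  obtain ⟨t, ht, hc, he⟩ := hζ.isPrimitiveRoot_iff.1 hz
  have htE : t ∈ Ex n := by
    unfold Ex
    rw [Finset.mem_filter, Finset.mem_range]
    exact ⟨ht, hc.symm⟩
  refine ⟨t, htE, fun z hz1 => ?_⟩
  obtain ⟨j, hj, rfl⟩ := hζ.eq_pow_of_pow_eq_one hz1
  have h5 : (⟨ζ ^ j, root_mem hz1⟩ : Cyc n) = ⟨ζ, root_mem hζ.pow_eq_one⟩ ^ j := rfl
  rw [h5, map_pow, ← he, ← pow_mul, ← pow_mul, mul_comm]

/-- automorphisms which fix the values fix the field -/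
lemma fix_field {G : Type} (χ : G → ℂ) (s : ℂ ≃+* ℂ) (h : ∀ g, s (χ g) = χ g) (x : ℂ)
    (hx : x ∈ StarkP.charField χ) : s x = x := by
  have h1 : (s : ℂ →+* ℂ).toRatAlgHom.comp (StarkP.charField χ).val =
      (StarkP.charField χ).val := by
    refine IntermediateField.adjoin_algHom_ext (F := ℚ) (fun z hz => ?_)
    obtain ⟨g, rfl⟩ := hz
    exact h g
  exact congrArg (fun f : StarkP.charField χ →ₐ[ℚ] ℂ => f ⟨x, hx⟩) h1

/-- the number of the exponents which fix a subfield, and the trace -/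
theorem count {n : ℕ} (hn : 0 < n) (hTRT : Stmt_TRT) {G : Type} (χ : G → ℂ)
    (hF : StarkP.charField χ ≤ Cyc n) (σ : ℕ → (ℂ ≃+* ℂ))
    (hσ : ∀ t ∈ Ex n, ∀ z : ℂ, z ^ n = 1 → σ t z = z ^ t) :
    ∃ e : ℕ, 0 < e ∧
      e = ((Ex n).filter fun t => ∀ σ : ℂ ≃+* ℂ, (∀ z : ℂ, z ^ n = 1 → σ z = z ^ t) →
        ∀ g, σ (χ g) = χ g).card ∧
      e * Module.finrank ℚ (StarkP.charField χ) = n.totient ∧
      ∀ g, (e : ℂ) * StarkP.trChar χ g = ∑ t ∈ Ex n, σ t (χ g) := by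
  have hfd : FiniteDimensional ℚ (Cyc n) := finDim n hn
  set F' : IntermediateField ℚ (Cyc n) := IntermediateField.restrict hF with hF'
  have hmem : ∀ g, χ g ∈ StarkP.charField χ := fun g =>
    IntermediateField.subset_adjoin ℚ _ (Set.mem_range_self g)
  have hfr : Module.finrank ℚ (StarkP.charField χ) = Module.finrank ℚ F' :=
    (IntermediateField.restrictAlgEquiv hF).toLinearEquiv.finrank_eq
  have htower : Module.finrank ℚ F' * Module.finrank F' (Cyc n) =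
      Module.finrank ℚ (Cyc n) := Module.finrank_mul_finrank ℚ F' (Cyc n)
  have hcardE : (Ex n).card = n.totient := by
    unfold Ex
    rfl
  -- `[Cyc n : ℚ]`
  have hcyc : Module.finrank ℚ (Cyc n) = n.totient := by
    rw [← AlgHom.card ℚ (Cyc n) ℂ, ← hcardE, ← Finset.card_univ]
    symm
    refine Finset.card_bij (fun t _ => rst n (σ t)) (fun _ _ => Finset.mem_univ _) ?_ ?_
    · intro t ht t' ht' h
      have h1 := (Finset.mem_filter.1 ht).1
      have h2 := (Finset.mem_filter.1 ht').1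
      exact rst_inj hn (Finset.mem_range.1 h1) (Finset.mem_range.1 h2) _ _ (hσ t ht)
        (hσ t' ht') h
    · intro f _
      obtain ⟨t, ht, h⟩ := exists_exp hn f
      exact ⟨t, ht, rst_ext f (σ t) h (hσ t ht)⟩
  -- the number `e`
  have he : Module.finrank F' (Cyc n) = ((Ex n).filter fun t => ∀ σ : ℂ ≃+* ℂ,
      (∀ z : ℂ, z ^ n = 1 → σ z = z ^ t) → ∀ g, σ (χ g) = χ g).card := by
    rw [← AlgHom.card F' (Cyc n) ℂ, ← Finset.card_univ]
    symm
    refine Finset.card_bij (fun t ht => (AlgHom.mk (rst n (σ t)).toRingHom (fun y => ?_) :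
      Cyc n →ₐ[F'] ℂ)) (fun _ _ => Finset.mem_univ _) ?_ ?_
    · rw [Finset.mem_filter] at ht
      exact fix_field χ (σ t) (ht.2 (σ t) (hσ t ht.1)) ((y : Cyc n) : ℂ)
        ((IntermediateField.mem_restrict hF (y : Cyc n)).1 y.2)
    · intro t ht t' ht' h
      rw [Finset.mem_filter] at ht ht'
      have h1 := (Finset.mem_filter.1 ht.1).1
      have h2 := (Finset.mem_filter.1 ht'.1).1
      refine rst_inj hn (Finset.mem_range.1 h1) (Finset.mem_range.1 h2) _ _ (hσ t ht.1)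
        (hσ t' ht'.1) ?_
      ext x
      exact congrArg (fun f : Cyc n →ₐ[F'] ℂ => f x) h
    · intro f _
      obtain ⟨t, ht, h⟩ := exists_exp hn (f.restrictScalars ℚ)
      have h1 := rst_ext (f.restrictScalars ℚ) (σ t) h (hσ t ht)
      refine ⟨t, ?_, ?_⟩
      · rw [Finset.mem_filter]
        refine ⟨ht, fun s hs g => ?_⟩
        have h2 := rst_ext (f.restrictScalars ℚ) s h hs
        have h3 : rst n s ⟨χ g, hF (hmem g)⟩ = f ⟨χ g, hF (hmem g)⟩ := by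
          rw [h2]
          rfl
        have h4 : f (algebraMap F' (Cyc n) ⟨⟨χ g, hF (hmem g)⟩,
            (IntermediateField.mem_restrict hF _).2 (hmem g)⟩) = χ g := f.commutes _
        exact h3.trans h4
      · ext x
        exact congrArg (fun f : Cyc n →ₐ[ℚ] ℂ => f x) h1
  have hphi : 0 < n.totient := Nat.totient_pos.2 hn
  refine ⟨Module.finrank F' (Cyc n), ?_, he, ?_, ?_⟩
  · rcases Nat.eq_zero_or_pos (Module.finrank F' (Cyc n)) with h | h
    · rw [h, mul_zero, hcyc] at htower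
      omega
    · exact h
  · rw [hfr, mul_comm, htower, hcyc]
  · intro g
    have h1 := hTRT n σ hn hσ ⟨χ g, hF (hmem g)⟩
    rw [← h1]
    unfold StarkP.trChar
    have h2 : Algebra.trace ℚ (StarkP.charField χ) ⟨χ g, hmem g⟩ =
        Algebra.trace ℚ F' (IntermediateField.restrictAlgEquiv hF ⟨χ g, hmem g⟩) :=
      (Algebra.trace_eq_of_algEquiv (IntermediateField.restrictAlgEquiv hF) _).symm
    have h3 : (⟨χ g, hF (hmem g)⟩ : Cyc n) =
        algebraMap F' (Cyc n) (IntermediateField.restrictAlgEquiv hF ⟨χ g, hmem g⟩) := rfl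
    have h4 : Algebra.trace ℚ (Cyc n) ⟨χ g, hF (hmem g)⟩ = Module.finrank F' (Cyc n) •
        Algebra.trace ℚ F' (IntermediateField.restrictAlgEquiv hF ⟨χ g, hmem g⟩) := by
      rw [h3, ← Algebra.trace_trace (S := F'), Algebra.trace_algebraMap, map_nsmul]
    rw [h4, h2, nsmul_eq_mul]
    push_cast
    rfl

/-- the conjugates of an induced character -/
theorem conj_ind {G : Type} [Group G] [Fintype G] {n t : ℕ} (H : Subgroup G) (ψ : H →* ℂˣ)
    (hψ : ψ ^ n = 1) (s : ℂ ≃+* ℂ) (hs : ∀ z : ℂ, z ^ n = 1 → s z = z ^ t) (g : G) :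
    s (indFun H (extZ ψ) g) = indFun H (extZ (ψ ^ t)) g := by
  unfold indFun
  rw [map_div₀, map_sum, map_natCast]
  congr 1
  refine Finset.sum_congr rfl fun x _ => ?_
  by_cases hx : x⁻¹ * g * x ∈ H
  · rw [if_pos hx, if_pos hx]
    unfold extZ
    rw [dif_pos hx, dif_pos hx]
    have h1 : ((ψ ⟨x⁻¹ * g * x, hx⟩ : ℂˣ) : ℂ) ^ n = 1 := by
      rw [← Units.val_pow_eq_pow_val]
      have h2 : (ψ ^ n) ⟨x⁻¹ * g * x, hx⟩ = 1 := by rw [hψ]; rfl
      have h3 : (ψ ⟨x⁻¹ * g * x, hx⟩) ^ n = 1 := h2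
      rw [h3]
      rfl
    rw [hs _ h1, ← Units.val_pow_eq_pow_val]
    rfl
  · rw [if_neg hx, if_neg hx, map_zero]

theorem ind_mem {G : Type} [Group G] [Fintype G] {n : ℕ} (H : Subgroup G) (ψ : H →* ℂˣ)
    (hψ : ψ ^ n = 1) (g : G) : indFun H (extZ ψ) g ∈ Cyc n := by
  unfold indFun
  refine div_mem (sum_mem fun x _ => ?_) (natCast_mem _ _)
  by_cases hx : x⁻¹ * g * x ∈ H
  · rw [if_pos hx]
    unfold extZ
    rw [dif_pos hx]
    refine root_mem ?_
    rw [← Units.val_pow_eq_pow_val]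
    have h2 : (ψ ^ n) ⟨x⁻¹ * g * x, hx⟩ = 1 := by rw [hψ]; rfl
    have h3 : (ψ ⟨x⁻¹ * g * x, hx⟩) ^ n = 1 := h2
    rw [h3]
    rfl
  · rw [if_neg hx]
    exact zero_mem _

end FCHx

open FCHx in
theorem FCH_thm : Stmt_FCH := by
  intro hSIGT hTRT G _ _ n m r χ H ψ c hn hm hψ hχ
  have hm' : (m : ℂ) ≠ 0 := Nat.cast_ne_zero.2 hm.ne'
  have hmem : ∀ g, χ g ∈ Cyc n := by
    intro g
    have h1 : χ g = (∑ i, (c i : ℂ) * indFun (H i) (extZ (ψ i)) g) / (m : ℂ) := by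
      rw [← hχ g]
      field_simp
    rw [h1]
    exact div_mem (sum_mem fun i _ => mul_mem (intCast_mem _ _) (ind_mem _ _ (hψ i) g))
      (natCast_mem _ _)
  have hF : StarkP.charField χ ≤ Cyc n := by
    unfold StarkP.charField
    rw [IntermediateField.adjoin_le_iff]
    rintro _ ⟨g, rfl⟩
    exact hmem g
  obtain ⟨σ, hσ⟩ : ∃ σ : ℕ → (ℂ ≃+* ℂ), ∀ t ∈ Ex n, ∀ z : ℂ, z ^ n = 1 → σ t z = z ^ t := by
    have h5 : ∀ t : ℕ, ∃ τ : ℂ ≃+* ℂ, t ∈ Ex n → ∀ z : ℂ, z ^ n = 1 → τ z = z ^ t := by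
      intro t
      by_cases ht : t ∈ Ex n
      · obtain ⟨τ, hτ⟩ := hSIGT n t hn (Finset.mem_filter.1 ht).2
        exact ⟨τ, fun _ => hτ⟩
      · exact ⟨RingEquiv.refl ℂ, fun h => absurd h ht⟩
    choose σ hσ using h5
    exact ⟨σ, hσ⟩
  obtain ⟨e, he0, he, hef, het⟩ := count hn hTRT χ hF σ hσ
  refine ⟨hF, e, he0, he, hef, fun g => ?_⟩
  have h1 : ∀ t ∈ Ex n, (m : ℂ) * σ t (χ g) =
      ∑ i, (c i : ℂ) * indFun (H i) (extZ (ψ i ^ t)) g := by
    intro t ht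
    have h2 : σ t ((m : ℂ) * χ g) = ∑ i, (c i : ℂ) * indFun (H i) (extZ (ψ i ^ t)) g := by
      rw [hχ g, map_sum]
      refine Finset.sum_congr rfl fun i _ => ?_
      rw [map_mul, map_intCast, conj_ind (H i) (ψ i) (hψ i) (σ t) (hσ t ht)]
    rw [← h2, map_mul, map_natCast]
  rw [Nat.cast_mul, mul_assoc, het g, Finset.mul_sum, Finset.sum_congr rfl h1,
    Finset.sum_comm]
  refine Finset.sum_congr rfl fun i _ => ?_
  rw [Finset.mul_sum]

end StarkC.ABS
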