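import Pool.Agent.ABS.StG1

/-!
# Project ABS, part G: Clifford theory
-/

set_option autoImplicit false

open scoped Classical

namespace StarkC.ABS

namespace FCLx

variable {G V : Type} [Group G] [AddCommGroup V] [Module ℂ V]

theorem irr_of (ρ : Representation ℂ G V) (h : ρ.IsIrreducible) :
    Nontrivial V ∧ ∀ W : Submodule ℂ V, (∀ g, ∀ v ∈ W, ρ g v ∈ W) → W = ⊥ ∨ W = ⊤ := by
  constructor
  · by_contra hV
    rw [not_nontrivial_iff_subsingleton] at hV
    have h1 : (⊥ : Subrepresentation ρ) = ⊤ := by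
      apply Subrepresentation.toSubmodule_injective
      exact Subsingleton.elim _ _
    exact bot_ne_top h1
  · intro W hW
    have h1 := h.eq_bot_or_eq_top ⟨W, fun g v hv => hW g v hv⟩
    rcases h1 with h1 | h1
    · left
      exact congrArg Subrepresentation.toSubmodule h1
    · right
      exact congrArg Subrepresentation.toSubmodule h1

theorem exists_common [Module.Finite ℂ V] (ρ : Representation ℂ G V) (U : Subgroup G)
    (hnt : Nontrivial V) (hc : ∀ a ∈ U, ∀ b ∈ U, ρ a * ρ b = ρ b * ρ a) :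
    ∃ v : V, v ≠ 0 ∧ ∀ a ∈ U, ∃ c : ℂ, ρ a v = c • v := by
  let P : ℕ → Prop := fun n => ∃ W : Submodule ℂ V, W ≠ ⊥ ∧ Module.finrank ℂ W = n ∧
    ∀ a ∈ U, ∀ v ∈ W, ρ a v ∈ W
  have hP : ∃ n, P n := ⟨_, ⊤, bot_ne_top.symm, rfl, fun a _ v _ => Submodule.mem_top⟩
  obtain ⟨W, hW0, hWn, hWs⟩ := Nat.find_spec hP
  obtain ⟨v, hv, hv0⟩ := W.exists_mem_ne_zero_of_ne_bot hW0
  refine ⟨v, hv0, fun a ha => ?_⟩
  have hWnt : Nontrivial W := Submodule.nontrivial_iff_ne_bot.2 hW0
  obtain ⟨l, hl⟩ := Module.End.exists_eigenvalue ((ρ a).restrict (hWs a ha))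
  obtain ⟨w, hw⟩ := hl.exists_hasEigenvector
  have hwe := congrArg Subtype.val hw.apply_eq_smul
  have hwe' : ρ a (w : V) = l • (w : V) := hwe
  have hw0 : (w : V) ≠ 0 := fun h => hw.2 (Subtype.ext h)
  let W' : Submodule ℂ V := W ⊓ LinearMap.ker (ρ a - l • (1 : Module.End ℂ V))
  have hmem : ∀ u, u ∈ W' ↔ u ∈ W ∧ ρ a u = l • u := by
    intro u
    show u ∈ W ⊓ LinearMap.ker (ρ a - l • (1 : Module.End ℂ V)) ↔ _
    rw [Submodule.mem_inf, LinearMap.mem_ker, LinearMap.sub_apply, LinearMap.smul_apply,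
      Module.End.one_apply, sub_eq_zero]
  have hW'0 : W' ≠ ⊥ := by
    intro h
    have h1 : (w : V) ∈ W' := (hmem _).2 ⟨w.2, hwe'⟩
    rw [h, Submodule.mem_bot] at h1
    exact hw0 h1
  have hW's : ∀ b ∈ U, ∀ u ∈ W', ρ b u ∈ W' := by
    intro b hb u hu
    rw [hmem] at hu ⊢
    refine ⟨hWs b hb u hu.1, ?_⟩
    rw [← Module.End.mul_apply, hc a ha b hb, Module.End.mul_apply, hu.2, map_smul]
  have h1 : Nat.find hP ≤ Module.finrank ℂ W' := Nat.find_min' hP ⟨W', hW'0, rfl, hW's⟩
  have h2 : W' = W := Submodule.eq_of_le_of_finrank_le inf_le_left (by rw [hWn]; exact h1)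
  have h3 : v ∈ W' := by
    rw [h2]
    exact hv
  exact ⟨l, ((hmem v).1 h3).2⟩

theorem sum_coset [Fintype G] (U : Subgroup G) (F : G → ℂ) (hF : ∀ x, ∀ u ∈ U, F (x * u) = F x) :
    ∑ x, F x = (Nat.card U : ℂ) * ∑ q : G ⧸ U, F q.out := by
  have hb : Function.Bijective (fun p : (G ⧸ U) × U => p.1.out * (p.2 : G)) := by
    constructor
    · rintro ⟨q, u⟩ ⟨q', u'⟩ h
      have h' : q.out * (u : G) = q'.out * (u' : G) := h
      have h1 : q = q' := by
        have h2 : (QuotientGroup.mk (q.out * (u : G)) : G ⧸ U) = QuotientGroup.mk q.out :=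
          QuotientGroup.mk_mul_of_mem _ u.2
        have h3 : (QuotientGroup.mk (q'.out * (u' : G)) : G ⧸ U) = QuotientGroup.mk q'.out :=
          QuotientGroup.mk_mul_of_mem _ u'.2
        rw [← QuotientGroup.out_eq' q, ← QuotientGroup.out_eq' q', ← h2, ← h3, h']
      subst h1
      have h4 : u = u' := Subtype.ext (mul_left_cancel h')
      rw [h4]
    · intro x
      have h1 : (QuotientGroup.mk x : G ⧸ U).out⁻¹ * x ∈ U := by
        rw [← QuotientGroup.eq, QuotientGroup.out_eq']
      refine ⟨(QuotientGroup.mk x, ⟨_, h1⟩), ?_⟩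
      show _ * (_⁻¹ * x) = x
      rw [mul_inv_cancel_left]
  rw [← Function.Bijective.sum_comp hb F, Fintype.sum_prod_type, Finset.mul_sum]
  refine Finset.sum_congr rfl fun q _ => ?_
  rw [Finset.sum_congr rfl fun (u : U) _ => hF q.out u u.2, Finset.sum_const, Finset.card_univ,
    nsmul_eq_mul, Nat.card_eq_fintype_card]

end FCLx

theorem FCL_thm : Stmt_FCL := by
  intro G V _ _ _ _ _ ρ ℓ U hℓ hirr hU hdim hcomm htors hone
  obtain ⟨hnt, hir⟩ := FCLx.irr_of ρ hirr
  obtain ⟨v, hv0, hve⟩ := FCLx.exists_common ρ U hnt hcomm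
  have hinj : ∀ x y : ℂ, x • v = y • v → x = y := fun x y hxy => by
    have h2 : (x - y) • v = 0 := by rw [sub_smul, hxy, sub_self]
    rcases smul_eq_zero.1 h2 with h3 | h3
    · exact sub_eq_zero.1 h3
    · exact absurd h3 hv0
  choose c hc using fun a : U => hve a a.2
  let χ : U →* ℂ :=
    { toFun := c
      map_one' := by
        apply hinj
        rw [← hc, OneMemClass.coe_one, map_one, Module.End.one_apply, one_smul]
      map_mul' := by
        intro g h
        apply hinj
        rw [← hc, Subgroup.coe_mul, map_mul, Module.End.mul_apply, hc h, map_smul, hc g, smul_smul,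
          mul_comm] }
  let ψ : U →* ℂˣ := χ.toHomUnits
  have hψ : ∀ a : U, ((ψ a : ℂˣ) : ℂ) = c a := fun a => rfl
  have hρψ : ∀ (g : G) (a : U), ρ (g * a) v = ((ψ a : ℂˣ) : ℂ) • ρ g v := by
    intro g a
    rw [map_mul, Module.End.mul_apply, hc, map_smul, hψ]
  -- order of `ψ`
  have htor : ∀ a : U, ∃ j : ℕ, ψ a ^ ℓ ^ j = 1 := by
    intro a
    obtain ⟨j, hj⟩ := htors a a.2
    refine ⟨j, ?_⟩
    apply Units.ext
    rw [Units.val_pow_eq_pow_val, Units.val_one, hψ]
    apply hinj
    rw [one_smul, ← StarkC.MON.pow_apply_eigen ρ (hc a), hj, Module.End.one_apply]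
  choose J hJ using htor
  have hord : ψ ^ ℓ ^ (∑ a : U, J a) = 1 := by
    ext a
    rw [MonoidHom.pow_apply]
    have h1 : J a ≤ ∑ a : U, J a :=
      Finset.single_le_sum (f := J) (fun _ _ => Nat.zero_le _) (Finset.mem_univ a)
    obtain ⟨d, hd⟩ := Nat.exists_eq_add_of_le h1
    rw [hd, pow_add, pow_mul, hJ, one_pow]
    rfl
  have hdvd : orderOf ψ ∣ ℓ ^ (∑ a : U, J a) := by
    apply orderOf_dvd_of_pow_eq_one
    exact hord
  obtain ⟨k, -, hk⟩ := (Nat.dvd_prime_pow hℓ).1 hdvd
  -- the basis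
  have hspan : ⊤ ≤ Submodule.span ℂ (Set.range fun q : G ⧸ U => ρ q.out v) := by
    rcases hir (Submodule.span ℂ (Set.range fun g : G => ρ g v)) (by
      intro g u hu
      induction hu using Submodule.span_induction with
      | mem x hx =>
        obtain ⟨y, rfl⟩ := hx
        apply Submodule.subset_span
        refine ⟨g * y, ?_⟩
        show ρ (g * y) v = ρ g (ρ y v)
        rw [map_mul, Module.End.mul_apply]
      | zero => rw [map_zero]; exact Submodule.zero_mem _
      | add x y _ _ hx hy => rw [map_add]; exact Submodule.add_mem _ hx hy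
      | smul a x _ hx => rw [map_smul]; exact Submodule.smul_mem _ _ hx) with h | h
    · exfalso
      apply hv0
      have h1 : v ∈ Submodule.span ℂ (Set.range fun g : G => ρ g v) := by
        apply Submodule.subset_span
        refine ⟨1, ?_⟩
        show ρ 1 v = v
        rw [map_one, Module.End.one_apply]
      rw [h, Submodule.mem_bot] at h1
      exact h1
    · rw [← h, Submodule.span_le]
      rintro _ ⟨g, rfl⟩
      obtain ⟨u, hu⟩ := QuotientGroup.mk_out_eq_mul U g
      have h1 : ρ g v = ((ψ u : ℂˣ) : ℂ)⁻¹ • ρ (QuotientGroup.mk g : G ⧸ U).out v := by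
        rw [hu, hρψ, inv_smul_smul₀ (Units.ne_zero _)]
      show ρ g v ∈ _
      rw [h1]
      exact Submodule.smul_mem _ _ (Submodule.subset_span ⟨_, rfl⟩)
  have hcard : Fintype.card (G ⧸ U) = Module.finrank ℂ V := by
    rw [hdim, Subgroup.index, Nat.card_eq_fintype_card]
  let b := basisOfTopLeSpanOfCardEqFinrank (fun q : G ⧸ U => ρ q.out v) hspan hcard
  have hb : ∀ q, b q = ρ q.out v := fun q => by
    rw [coe_basisOfTopLeSpanOfCardEqFinrank]
  have hF : ∀ (h x : G), ∀ u ∈ U,
      extZ ψ ((x * u)⁻¹ * h * (x * u)) = extZ ψ (x⁻¹ * h * x) := by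
    intro h x u hu
    have e : (x * u)⁻¹ * h * (x * u) = u⁻¹ * (x⁻¹ * h * x) * u := by group
    rw [e]
    by_cases hy : x⁻¹ * h * x ∈ U
    · have hy' : u⁻¹ * (x⁻¹ * h * x) * u ∈ U := U.mul_mem (U.mul_mem (U.inv_mem hu) hy) hu
      rw [extZ, dif_pos hy', extZ, dif_pos hy]
      have e2 : (⟨u⁻¹ * (x⁻¹ * h * x) * u, hy'⟩ : U) =
          (⟨u, hu⟩ : U)⁻¹ * ⟨x⁻¹ * h * x, hy⟩ * ⟨u, hu⟩ := rfl
      rw [e2, map_mul, map_mul, map_inv, mul_comm (ψ ⟨u, hu⟩)⁻¹, inv_mul_cancel_right]
    · have hy' : u⁻¹ * (x⁻¹ * h * x) * u ∉ U := by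
        intro h1
        apply hy
        have h2 := U.mul_mem (U.mul_mem hu h1) (U.inv_mem hu)
        have e3 : u * (u⁻¹ * (x⁻¹ * h * x) * u) * u⁻¹ = x⁻¹ * h * x := by group
        rw [e3] at h2
        exact h2
      rw [extZ, dif_neg hy', extZ, dif_neg hy]
  have hchar : ∀ g, ρ.character g = indFun U (extZ ψ) g := by
    intro h
    rw [StarkC.MON.indFun_extZ, FCLx.sum_coset U (fun x => extZ ψ (x⁻¹ * h * x)) (hF h),
      mul_div_cancel_left₀]
    · show LinearMap.trace ℂ V (ρ h) = _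
      rw [LinearMap.trace_eq_matrix_trace ℂ b, Matrix.trace]
      refine Finset.sum_congr rfl fun q _ => ?_
      rw [Matrix.diag_apply, LinearMap.toMatrix_apply, hb]
      obtain ⟨u, hu⟩ := QuotientGroup.mk_out_eq_mul U (h * q.out)
      have h1 : ρ h (ρ q.out v) = ((ψ u : ℂˣ) : ℂ)⁻¹ • b (QuotientGroup.mk (h * q.out)) := by
        rw [hb, hu, hρψ, inv_smul_smul₀ (Units.ne_zero _), map_mul, Module.End.mul_apply]
      rw [h1, map_smul, Finsupp.smul_apply, Module.Basis.repr_self, Finsupp.single_apply,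
        smul_eq_mul]
      by_cases hq : (QuotientGroup.mk (h * q.out) : G ⧸ U) = q
      · rw [if_pos hq, mul_one]
        rw [hq] at hu
        have e : q.out⁻¹ * h * q.out = ((u⁻¹ : U) : G) := by
          rw [Subgroup.coe_inv]
          have h2 : h * q.out = q.out * (u : G)⁻¹ := by
            rw [eq_mul_inv_iff_mul_eq]
            exact hu.symm
          rw [mul_assoc, h2, inv_mul_cancel_left]
        rw [e, extZ, dif_pos (SetLike.coe_mem _)]
        show _ = ((ψ u⁻¹ : ℂˣ) : ℂ)
        rw [map_inv, Units.val_inv_eq_inv_val]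
      · rw [if_neg hq, mul_zero, extZ, dif_neg]
        intro h2
        apply hq
        have h3 : (QuotientGroup.mk (h * q.out) : G ⧸ U) = QuotientGroup.mk q.out := by
          rw [eq_comm, QuotientGroup.eq, ← mul_assoc]
          exact h2
        rw [h3, QuotientGroup.out_eq']
    · exact_mod_cast Nat.card_pos.ne'
  have hstab : ∀ g, cj ψ g 1 → g ∈ U := by
    intro g hg
    have hg' : ∀ u : U, ∀ hu : g⁻¹ * u * g ∈ U, ψ ⟨g⁻¹ * u * g, hu⟩ = ψ u := by
      intro u hu
      have h1 := hg u u.2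
      rw [pow_one, extZ, dif_pos hu, extZ, dif_pos u.2] at h1
      exact Units.ext h1
    have hT0 : ∀ (x : G) (u : U), ρ (x * u * g) v = ((ψ u : ℂˣ) : ℂ) • ρ (x * g) v := by
      intro x u
      have hu : g⁻¹ * u * g ∈ U := by
        have := hU.conj_mem u u.2 g⁻¹
        rw [inv_inv] at this
        exact this
      rw [← hg' u hu, ← hρψ]
      congr 2
      show x * u * g = x * g * (g⁻¹ * u * g)
      group
    let T : Module.End ℂ V := b.constr ℂ fun q => ρ (q.out * g) v
    have hTb : ∀ q, T (b q) = ρ (q.out * g) v := fun q => Module.Basis.constr_basis b ℂ _ q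
    have hTx : ∀ x : G, T (ρ x v) = ρ (x * g) v := by
      intro x
      obtain ⟨u, hu⟩ := QuotientGroup.mk_out_eq_mul U x
      have h1 : ρ x v = ((ψ u : ℂˣ) : ℂ)⁻¹ • b (QuotientGroup.mk x) := by
        rw [hb, hu, hρψ, inv_smul_smul₀ (Units.ne_zero _)]
      rw [h1, map_smul, hTb, hu, hT0, inv_smul_smul₀ (Units.ne_zero _)]
    have hcT : ∀ h, ρ h * T = T * ρ h := by
      intro h
      apply b.ext
      intro q
      rw [Module.End.mul_apply, Module.End.mul_apply, hTb, hb, ← Module.End.mul_apply,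
        ← Module.End.mul_apply (ρ h), ← map_mul, ← map_mul, hTx, mul_assoc]
    obtain ⟨l, hl⟩ := Module.End.exists_eigenvalue T
    obtain ⟨w, hw⟩ := hl.exists_hasEigenvector
    have hker : LinearMap.ker (T - l • (1 : Module.End ℂ V)) = ⊤ := by
      rcases hir (LinearMap.ker (T - l • (1 : Module.End ℂ V))) (by
        intro h u hu
        rw [LinearMap.mem_ker, LinearMap.sub_apply, LinearMap.smul_apply, Module.End.one_apply,
          sub_eq_zero] at hu ⊢
        rw [← Module.End.mul_apply, ← hcT, Module.End.mul_apply, hu, map_smul]) with h | h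
      · exfalso
        have h2 : w ∈ LinearMap.ker (T - l • (1 : Module.End ℂ V)) := by
          rw [LinearMap.mem_ker, LinearMap.sub_apply, LinearMap.smul_apply, Module.End.one_apply,
            sub_eq_zero]
          exact hw.apply_eq_smul
        rw [h, Submodule.mem_bot] at h2
        exact hw.2 h2
      · exact h
    have h3 : b (QuotientGroup.mk 1) ∈ LinearMap.ker (T - l • (1 : Module.End ℂ V)) := by
      rw [hker]
      trivial
    rw [LinearMap.mem_ker, LinearMap.sub_apply, LinearMap.smul_apply, Module.End.one_apply,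
      sub_eq_zero, hTb] at h3
    set q₁ : G ⧸ U := QuotientGroup.mk 1 with hq₁
    obtain ⟨u, hu⟩ := QuotientGroup.mk_out_eq_mul U (q₁.out * g)
    have h4 : ρ (q₁.out * g) v = ((ψ u : ℂˣ) : ℂ)⁻¹ • b (QuotientGroup.mk (q₁.out * g)) := by
      rw [hb, hu, hρψ, inv_smul_smul₀ (Units.ne_zero _)]
    by_contra hgU
    have hne : (QuotientGroup.mk (q₁.out * g) : G ⧸ U) ≠ q₁ := by
      intro h5
      apply hgU
      have h6 : (QuotientGroup.mk (q₁.out * g) : G ⧸ U) = QuotientGroup.mk q₁.out := by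
        rw [h5, QuotientGroup.out_eq']
      rw [eq_comm, QuotientGroup.eq, inv_mul_cancel_left] at h6
      exact h6
    have h7 := congrArg (fun z => b.repr z (QuotientGroup.mk (q₁.out * g))) (h4.symm.trans h3)
    simp only [map_smul, Finsupp.smul_apply, Module.Basis.repr_self, Finsupp.single_apply,
      smul_eq_mul] at h7
    rw [if_pos trivial, if_neg hne.symm, mul_zero, mul_one] at h7
    exact inv_ne_zero (Units.ne_zero _) h7
  have hk0 : 0 < k := by
    rcases Nat.eq_zero_or_pos k with h0 | h0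
    · exfalso
      rw [h0, pow_zero, orderOf_eq_one_iff] at hk
      have hψ1 : ∀ a : U, ψ a = 1 := fun a => by rw [hk, MonoidHom.one_apply]
      have hall : ∀ g : G, g ∈ U := by
        intro g
        apply hstab
        intro u hu
        have hu' : g⁻¹ * u * g ∈ U := by
          have := hU.conj_mem u hu g⁻¹
          rw [inv_inv] at this
          exact this
        rw [pow_one, extZ, dif_pos hu', extZ, dif_pos hu, hψ1, hψ1]
      have htop : U = ⊤ := by
        rw [eq_top_iff]
        exact fun g _ => hall g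
      have hd1 : Module.finrank ℂ V = 1 := by rw [hdim, htop, Subgroup.index_top]
      apply hone
      intro g
      ext w
      obtain ⟨z, hz⟩ := (finrank_eq_one_iff_of_nonzero' v hv0).1 hd1 w
      have h5 : ρ g v = v := by
        have h6 := hc ⟨g, hall g⟩
        rw [← hψ, hψ1, Units.val_one, one_smul] at h6
        exact h6
      rw [← hz, map_smul, h5, Module.End.one_apply]
    · exact h0
  exact ⟨k, ψ, hk0, hk, hchar, hstab⟩

end StarkC.ABS
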