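import Pool.Agent.ABS.StG
import Pool.Agent.ABS.COMB

/-!
# Project ABS, module FCX (helper85): combinations of induced characters with several orders at once
-/

set_option autoImplicit false

open NumberField IsDedekindDomain
open scoped TensorProduct Classical

namespace StarkC.ABS

open COMBx

theorem FCX_thm : Stmt_FCX := by
  intro K L _ _ _ _ _ _ S φ Θ m H q ψ hφ hPP
  have hTf : (aboveSet K L (S : Set (HeightOneSpectrum (𝓞 K)))).Finite :=
    IND.aboveSet_finite _ S.finite_toSet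
  have hT := STB_thm K L (S : Set (HeightOneSpectrum (𝓞 K)))
  have hc := ALLT.thc K L _ hT φ Θ hTf hφ
  have hb := ALLT.thb K L _ φ Θ hTf hφ
  have hex : ∀ i, ∃ (S' : Finset (HeightOneSpectrum (𝓞 (IntermediateField.fixedField (H i)))))
      (F : ℂ → ℂ) (α : Cyc (q i)), aboveSet (IntermediateField.fixedField (H i)) L S' =
        aboveSet K L S ∧ IsArtinL (cSum (q i) (liftChar (H i) (ψ i)))
          (S' : Set (HeightOneSpectrum (𝓞 (IntermediateField.fixedField (H i))))) F ∧ α ≠ 0 ∧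
        cReg (q i) (aboveSet K L S) (liftChar (H i) (ψ i)) Θ =
          nm (q i) α * meromorphicTrailingCoeffAt F 0 := by
    intro i
    obtain ⟨S', hS'⟩ := IND.exists_S' (IntermediateField.fixedField (H i))
      (S : Set (HeightOneSpectrum (𝓞 K))) S.finite_toSet
    obtain ⟨F, α, h2, h3, h4⟩ := pp_of (hPP i S') hS' φ Θ (IND.isPhiTheta_sub _ hφ)
    exact ⟨S', F, α, hS', h2, h3, h4⟩
  choose S' F α hS' hF hα hR using hex
  refine ⟨fun i => nm (q i) (α i), fun i => ⟨α i, hα i, rfl⟩, fun c θ hθ => ?_⟩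
  refine ⟨fun z => ∏ i, F i z ^ c i, ⟨?_, ?_⟩, ?_⟩
  · intro z
    exact MeromorphicAt.fun_prod fun i _ => ((hF i).1 z).fun_zpow _
  · intro s hs
    have h1 : θ = fun g => ∑ i, (c i : ℂ) *
        (fun g => ∑ t ∈ Ex (q i), indFun (H i) (extZ (ψ i ^ t)) g) g := funext hθ
    rw [h1, IND.logL_sum LA_thm ALLT.lb _ s hs m (fun i => (c i : ℂ))
      (fun i g => ∑ t ∈ Ex (q i), indFun (H i) (extZ (ψ i ^ t)) g), Complex.exp_sum]
    refine Finset.prod_congr rfl fun i _ => ?_
    rw [(hF i).2 s hs, ← Complex.exp_int_mul, logL_ind _ s hs (q i) (H i) (ψ i) _ (hS' i)]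
  · intro V _ _ _ ρ hρ
    let e : Fin (Fintype.card (Σ i : Fin m, Ex (q i))) ≃ (Σ i : Fin m, Ex (q i)) :=
      (Fintype.equivFin _).symm
    have hχ : ∀ g, ((1 : ℕ) : ℂ) * ρ.character g = ∑ j, (c (e j).1 : ℂ) *
        indFun (H (e j).1) (extZ (ψ (e j).1 ^ ((e j).2 : ℕ))) g := by
      intro g
      rw [Nat.cast_one, one_mul, hρ g, hθ g]
      rw [Equiv.sum_comp e fun p : (Σ i : Fin m, Ex (q i)) => (c p.1 : ℂ) *
        indFun (H p.1) (extZ (ψ p.1 ^ (p.2 : ℕ))) g, Fintype.sum_sigma]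
      refine Finset.sum_congr rfl fun i _ => ?_
      rw [Finset.mul_sum]
      exact (Finset.sum_coe_sort (Ex (q i)) fun t => (c i : ℂ) *
        indFun (H i) (extZ (ψ i ^ t)) g).symm
    have h1 := INDP.reg_comb TRD_thm ALLT.rgt hTf hT Θ hb hc V ρ 1
      (Fintype.card (Σ i : Fin m, Ex (q i))) (fun j => H (e j).1)
      (fun j => ψ (e j).1 ^ ((e j).2 : ℕ)) (fun j => c (e j).1) hχ
    rw [pow_one] at h1
    have h2 : ∏ j, Reg (aboveSet K L S)
          (linRep (liftChar (H (e j).1) (ψ (e j).1 ^ ((e j).2 : ℕ)))) Θ ^ c (e j).1 =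
        ∏ i, cReg (q i) (aboveSet K L S) (liftChar (H i) (ψ i)) Θ ^ c i := by
      rw [Equiv.prod_comp e fun p : (Σ i : Fin m, Ex (q i)) => Reg (aboveSet K L S)
          (linRep (liftChar (H p.1) (ψ p.1 ^ (p.2 : ℕ)))) Θ ^ c p.1, Fintype.prod_sigma]
      refine Finset.prod_congr rfl fun i _ => ?_
      unfold cReg
      rw [← Finset.prod_zpow, ← Finset.prod_coe_sort (Ex (q i))]
      refine Finset.prod_congr rfl fun t _ => ?_
      rw [lift_pow]
    rw [h1, h2, INDT.lead_comb c F fun i => (hF i).1 0, ← Finset.prod_mul_distrib]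
    refine Finset.prod_congr rfl fun i _ => ?_
    rw [hR i, mul_zpow]

end StarkC.ABS
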