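import Pool.Agent.ABS.StS
import Pool.Agent.StarkAlg.AUTF

/-!
# Norms from cyclic subfields of `ℚ(ζ_n)`: the end
-/

set_option autoImplicit false

open scoped Classical

namespace StarkC.ABS

open StarkP (rootField)

namespace SFFx

/-- A number fixed by all automorphisms of `ℂ` over a subfield `F` is in `F`. -/
theorem core (F : Subfield ℂ) (x : ℂ)
    (h : ∀ σ : ℂ ≃+* ℂ, (∀ y ∈ F, σ y = y) → σ x = x) : x ∈ F := by
  by_cases halg : IsAlgebraic F x
  · have hmem : x ∈ algebraicClosure F ℂ := mem_algebraicClosure_iff.2 halg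
    have hnormal : Normal F (algebraicClosure F ℂ) := IsAlgClosure.normal F _
    have hgal : IsGalois F (algebraicClosure F ℂ) := { }
    have hfix : (⟨x, hmem⟩ : algebraicClosure F ℂ) ∈
        Set.range (algebraMap F (algebraicClosure F ℂ)) := by
      rw [InfiniteGalois.mem_range_algebraMap_iff_fixed]
      intro τ
      obtain ⟨σ, hσ, hσ2⟩ := StarkAlg.AutF.exists_extend F τ
      apply Subtype.ext
      rw [← hσ2]
      exact h σ hσ
    obtain ⟨y, hy⟩ := hfix
    have h1 : ((algebraMap F (algebraicClosure F ℂ) y : algebraicClosure F ℂ) : ℂ) = x :=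
      congrArg Subtype.val hy
    rw [← h1]
    exact y.2
  · obtain ⟨σ, hσ, h1⟩ := StarkAlg.AutF.exists_transcendental F x halg
    have h2 := h σ hσ
    rw [h1] at h2
    exact absurd h2 (by simp)

/-- `ℚ(ζ_n)` has finite degree. -/
theorem finite_root (n : ℕ) (hn : 0 < n) : FiniteDimensional ℚ (rootField n) := by
  have hfin : {z : ℂ | z ^ n = 1}.Finite := by
    have h1 : {z : ℂ | z ^ n = 1} ⊆ (Polynomial.nthRootsFinset n (1 : ℂ) : Set ℂ) := by
      intro z hz
      exact Finset.mem_coe.2 ((Polynomial.mem_nthRootsFinset hn (1 : ℂ)).2 hz)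
    exact (Finset.finite_toSet _).subset h1
  have : Finite {z : ℂ | z ^ n = 1} := hfin
  refine IntermediateField.finiteDimensional_adjoin fun x hx => ?_
  refine ⟨Polynomial.X ^ n - 1, Polynomial.monic_X_pow_sub_C (1 : ℚ) hn.ne', ?_⟩
  have hx1 : x ^ n = 1 := hx
  simp [hx1]

/-- The product of the conjugates. -/
theorem prod_succ (g : ℂ ≃+* ℂ) (y : ℂ) (j : ℕ) :
    ∏ i ∈ Finset.range (j + 1), (g ^ i) y = y * g (∏ i ∈ Finset.range j, (g ^ i) y) := by
  rw [Finset.prod_range_succ', map_prod, mul_comm]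
  congr 1
  refine Finset.prod_congr rfl fun i _ => ?_
  rw [pow_succ']
  rfl

theorem vl_pow {n d : ℕ} [NeZero d] (κ : (ZMod n)ˣ →* Multiplicative (ZMod d)) (u : (ZMod n)ˣ)
    (h1 : vl κ u = 1) (j : ℕ) : vl κ (u ^ j) = j % d := by
  have h2 : Multiplicative.toAdd (κ u) = ((1 : ℕ) : ZMod d) := by
    rw [← h1]
    exact (ZMod.natCast_zmod_val _).symm
  show (Multiplicative.toAdd (κ (u ^ j))).val = j % d
  rw [map_pow, toAdd_pow, h2, ← ZMod.val_natCast]
  congr 1
  simp

end SFFx

/-- SFF. -/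
theorem SFF_thm : Stmt_SFF := by
  intro hY hH hK n _ a ha hall F hF hG hC
  have hn : 0 < n := Nat.pos_of_ne_zero (NeZero.ne n)
  have hfd : FiniteDimensional ℚ F := by
    have h1 := SFFx.finite_root n hn
    exact Module.Finite.of_injective (IntermediateField.inclusion hF).toLinearMap
      (IntermediateField.inclusion hF).injective
  have hpos : 0 < Module.finrank ℚ F := Module.finrank_pos
  by_cases h1 : Module.finrank ℚ F = 1
  · refine ⟨algebraMap ℚ F a, ?_⟩
    rw [Algebra.norm_algebraMap, h1, pow_one]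
  have hd : 1 < Module.finrank ℚ F := by omega
  obtain ⟨κ, g, hg1, hfix, hnorm⟩ := hK hY n F hF hG hC hd
  have hne : NeZero (Module.finrank ℚ F) := ⟨by omega⟩
  generalize hdd : Module.finrank ℚ F = d at *
  obtain ⟨b, hb0, hb1, hb2, hb3⟩ := hH hY n d a κ ha (hall d κ)
  set u := cych n g with hu
  have hyF : b u ∈ F := by
    have h2 : b u ∈ F.toSubfield := SFFx.core F.toSubfield (b u) fun σ hσ =>
      hb3 σ u (hfix σ fun x hx => hσ x hx)
    exact h2
  have hind : ∀ j : ℕ, j < d → ∏ i ∈ Finset.range j, (g ^ i) (b u) = b (u ^ j) := by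
    intro j
    induction j with
    | zero =>
      intro _
      rw [Finset.prod_range_zero, pow_zero, hb2 1]
      have h3 := SFFx.vl_pow κ u hg1 0
      rw [pow_zero, Nat.zero_mod] at h3
      exact h3
    | succ j ih =>
      intro hj
      rw [SFFx.prod_succ, ih (by omega), hu, hb1 g (u ^ j), ← hu, hg1,
        SFFx.vl_pow κ u hg1 j, Nat.mod_eq_of_lt (by omega : j < d),
        Nat.div_eq_of_lt (by omega : 1 + j < d), pow_zero, mul_one, ← pow_succ']
  refine ⟨⟨b u, hyF⟩, ?_⟩
  have h4 := hnorm ⟨b u, hyF⟩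
  have h5 : ∏ i ∈ Finset.range d, (g ^ i) (b u) = (a : ℂ) := by
    obtain ⟨e, he⟩ : ∃ e, d = e + 1 := ⟨d - 1, by omega⟩
    have hcarry : (1 + e) / d = 1 := by
      rw [he, add_comm 1 e]
      exact Nat.div_self (by omega)
    have hlast : b (u ^ (e + 1)) = 1 := by
      apply hb2
      rw [SFFx.vl_pow κ u hg1 (e + 1), ← he, Nat.mod_self]
    have h6 := hb1 g (u ^ e)
    rw [← hu, hg1, SFFx.vl_pow κ u hg1 e, Nat.mod_eq_of_lt (by omega : e < d), hcarry,
      ← pow_succ', hlast, one_mul, pow_one] at h6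
    rw [he, SFFx.prod_succ, hind e (by omega), h6]
  rw [h5] at h4
  exact_mod_cast h4

end StarkC.ABS
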