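import Pool.Agent.ABS.StG2
import Pool.Agent.ABS.SFF

/-!
# Project ABS, part G: norms from subfields of `ℚ(ζ_(ℓ^k))`
-/

set_option autoImplicit false

open scoped Classical

namespace StarkC.ABS

open StarkP (rootField)

namespace FENx

theorem isCyc (n : ℕ) (hn : n ≠ 0) : IsCyclotomicExtension {n} ℚ (rootField n) := by
  have h := IntermediateField.isCyclotomicExtension_adjoin_of_exists_isPrimitiveRoot {n} ℚ ℂ (by
    intro m hm hm0
    exact ⟨_, Complex.isPrimitiveRoot_exp m hm0⟩)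
  have e : {b : ℂ | ∃ m ∈ ({n} : Set ℕ), m ≠ 0 ∧ b ^ m = 1} = {z : ℂ | z ^ n = 1} := by
    ext z
    simp [hn]
  rw [e] at h
  exact h

theorem cyc (ℓ k : ℕ) (hℓ : ℓ.Prime) (h2 : ℓ ≠ 2) (F : IntermediateField ℚ ℂ)
    (hF : F ≤ rootField (ℓ ^ k)) (hG : IsGalois ℚ F) : IsCyclic (F ≃ₐ[ℚ] F) := by
  have hn : 0 < ℓ ^ k := pow_pos hℓ.pos k
  have : NeZero (ℓ ^ k) := ⟨hn.ne'⟩
  have h1 : IsCyclotomicExtension {ℓ ^ k} ℚ (rootField (ℓ ^ k)) := isCyc _ hn.ne'
  have h3 : IsGalois ℚ (rootField (ℓ ^ k)) := IsCyclotomicExtension.isGalois {ℓ ^ k} ℚ _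
  have h4 : IsCyclic (ZMod (ℓ ^ k))ˣ := ZMod.isCyclic_units_of_prime_pow ℓ hℓ h2 k
  let e := IsCyclotomicExtension.autEquivPow (rootField (ℓ ^ k))
    (Polynomial.cyclotomic.irreducible_rat hn)
  have h5 : IsCyclic (rootField (ℓ ^ k) ≃ₐ[ℚ] rootField (ℓ ^ k)) :=
    isCyclic_of_surjective e.symm e.symm.surjective
  let : Algebra F (rootField (ℓ ^ k)) := (IntermediateField.inclusion hF).toRingHom.toAlgebra
  have : IsScalarTower ℚ F (rootField (ℓ ^ k)) :=
    IsScalarTower.of_algebraMap_eq fun x => ((IntermediateField.inclusion hF).commutes x).symm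
  exact isCyclic_of_surjective
    (AlgEquiv.restrictNormalHom F : (rootField (ℓ ^ k) ≃ₐ[ℚ] rootField (ℓ ^ k)) →* (F ≃ₐ[ℚ] F))
    (AlgEquiv.restrictNormalHom_surjective _)

end FENx

/-- FEN. -/
theorem FEN_thm : Stmt_FEN := by
  intro hY hN hB hH hK hFPW hFKM hgal ℓ k m a β F hℓ h2 hk hm ha hβ hF hdeg
  have hn : 0 < ℓ ^ k := pow_pos hℓ.pos k
  have hne1 : NeZero (ℓ ^ k) := ⟨hn.ne'⟩
  have hne2 : NeZero m := ⟨hm.ne'⟩
  have hG : IsGalois ℚ F := hgal (ℓ ^ k) F hn hF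
  have hC : IsCyclic (F ≃ₐ[ℚ] F) := FENx.cyc ℓ k hℓ h2 F hF hG
  have hfd : FiniteDimensional ℚ F := by
    have h1 := SFFx.finite_root (ℓ ^ k) hn
    exact Module.Finite.of_injective (IntermediateField.inclusion hF).toLinearMap
      (IntermediateField.inclusion hF).injective
  have key : ∃ α : F, Algebra.norm ℚ α = a := by
    have hpos : 0 < Module.finrank ℚ F := Module.finrank_pos
    by_cases h1 : Module.finrank ℚ F = 1
    · refine ⟨algebraMap ℚ F a, ?_⟩
      rw [Algebra.norm_algebraMap, h1, pow_one]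
    have hd : 1 < Module.finrank ℚ F := by omega
    obtain ⟨κ, g, hg1, hfix, hnorm⟩ := hK hY (ℓ ^ k) F hF hG hC hd
    have hne : NeZero (Module.finrank ℚ F) := ⟨by omega⟩
    generalize hdd : Module.finrank ℚ F = d at *
    obtain ⟨κ', hκ'⟩ := hFKM ℓ k m d hℓ h2 hk hdeg κ
    have hne3 : NeZero (m * d) := ⟨Nat.mul_ne_zero hm.ne' hpos.ne'⟩
    have hc1 : Coch (ℓ ^ k) (m * d) (a ^ m) κ' :=
      hB hY hN (ℓ ^ k) (m * d) (a ^ m) β (pow_ne_zero m ha) hβ κ'
    have hc2 : Coch (ℓ ^ k) d a κ := by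
      rw [← hκ']
      exact hFPW (ℓ ^ k) m d a κ' ha hc1
    obtain ⟨b, hb0, hb1, hb2, hb3⟩ := hH hY (ℓ ^ k) d a κ ha hc2
    set u := cych (ℓ ^ k) g with hu
    have hyF : b u ∈ F := by
      have h2 : b u ∈ F.toSubfield := SFFx.core F.toSubfield (b u) fun σ hσ =>
        hb3 σ u (hfix σ fun x hx => hσ x hx)
      exact h2
    have hind : ∀ j : ℕ, j < d → ∏ i ∈ Finset.range j, (g ^ i) (b u) = b (u ^ j) := by
      intro j
      induction j with
      | zero =>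
        intro _
        rw [Finset.prod_range_zero, pow_zero, hb2 1]
        have h3 := SFFx.vl_pow κ u hg1 0
        rw [pow_zero, Nat.zero_mod] at h3
        exact h3
      | succ j ih =>
        intro hj
        rw [SFFx.prod_succ, ih (by omega), hu, hb1 g (u ^ j), ← hu, hg1,
          SFFx.vl_pow κ u hg1 j, Nat.mod_eq_of_lt (by omega : j < d),
          Nat.div_eq_of_lt (by omega : 1 + j < d), pow_zero, mul_one, ← pow_succ']
    refine ⟨⟨b u, hyF⟩, ?_⟩
    have h4 := hnorm ⟨b u, hyF⟩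
    have h5 : ∏ i ∈ Finset.range d, (g ^ i) (b u) = (a : ℂ) := by
      obtain ⟨e, he⟩ : ∃ e, d = e + 1 := ⟨d - 1, by omega⟩
      have hcarry : (1 + e) / d = 1 := by
        rw [he, add_comm 1 e]
        exact Nat.div_self (by omega)
      have hlast : b (u ^ (e + 1)) = 1 := by
        apply hb2
        rw [SFFx.vl_pow κ u hg1 (e + 1), ← he, Nat.mod_self]
      have h6 := hb1 g (u ^ e)
      rw [← hu, hg1, SFFx.vl_pow κ u hg1 e, Nat.mod_eq_of_lt (by omega : e < d), hcarry,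
        ← pow_succ', hlast, one_mul, pow_one] at h6
      rw [he, SFFx.prod_succ, hind e (by omega), h6]
    rw [h5] at h4
    exact_mod_cast h4
  obtain ⟨α, hα⟩ := key
  refine ⟨α, ?_, hα⟩
  rintro rfl
  rw [Algebra.norm_zero] at hα
  exact ha hα.symm

end StarkC.ABS
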