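import Pool.Agent.ABS.StG5

/-!
# Project ABS, part G: corollary (F')
-/

set_option autoImplicit false

open scoped Classical

namespace StarkC.ABS

namespace FFPx

theorem map_extZ {G : Type} [Group G] (H : Subgroup G) (ψ : H →* ℂˣ) (σ : ℂ ≃+* ℂ) (t : ℕ)
    (h : ∀ x : H, σ ((ψ x : ℂˣ) : ℂ) = ((ψ x : ℂˣ) : ℂ) ^ t) (g : G) (hg : g ∈ H) :
    σ (extZ ψ g) = extZ (ψ ^ t) g := by
  unfold extZ
  rw [dif_pos hg, dif_pos hg, h]
  simp

theorem map_indFun {G : Type} [Group G] [Fintype G] (H : Subgroup G) (ψ : H →* ℂˣ) (σ : ℂ ≃+* ℂ)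
    (t : ℕ) (h : ∀ x : H, σ ((ψ x : ℂˣ) : ℂ) = ((ψ x : ℂˣ) : ℂ) ^ t) (g : G) :
    σ (indFun H (extZ ψ) g) = indFun H (extZ (ψ ^ t)) g := by
  unfold indFun
  rw [map_div₀, map_natCast, map_sum]
  congr 1
  refine Finset.sum_congr rfl fun x _ => ?_
  split_ifs with hx
  · exact map_extZ H ψ σ t h _ hx
  · exact map_zero σ

theorem map_one_indFun {G : Type} [Group G] [Fintype G] (H : Subgroup G) (σ : ℂ ≃+* ℂ) (g : G) :
    σ (indFun H (fun _ => 1) g) = indFun H (fun _ => 1) g := by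
  unfold indFun
  rw [map_div₀, map_natCast, map_sum]
  congr 1
  refine Finset.sum_congr rfl fun x _ => ?_
  split_ifs with hx
  · exact map_one σ
  · exact map_zero σ

theorem indFun_one {G : Type} [Group G] [Fintype G] (H : Subgroup G) (t : ℕ) (g : G) :
    indFun H (extZ ((1 : H →* ℂˣ) ^ t)) g = indFun H (fun _ => 1) g := by
  unfold indFun
  congr 1
  refine Finset.sum_congr rfl fun x _ => ?_
  split_ifs with hx
  · rw [extZ, dif_pos hx, MonoidHom.pow_apply, MonoidHom.one_apply, one_pow, Units.val_one]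
  · rfl

theorem extZ_ne {G : Type} [Group G] {U : Subgroup G} (ψ : U →* ℂˣ) (g : G) :
    extZ ψ g ≠ 0 ↔ g ∈ U := by
  constructor
  · intro h
    by_contra hg
    exact h (by rw [extZ, dif_neg hg])
  · intro hg
    rw [extZ, dif_pos hg]
    exact Units.ne_zero _

/-- `h⁻¹ U h ⊆ U` -/
theorem cj_mem {G : Type} [Group G] {U : Subgroup G} {ψ : U →* ℂˣ} {h : G} {t : ℕ}
    (hc : cj ψ h t) : ∀ u ∈ U, h⁻¹ * u * h ∈ U := by
  intro u hu
  rw [← extZ_ne ψ, hc u hu]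
  exact pow_ne_zero _ ((extZ_ne ψ u).2 hu)

/-- and `h U h⁻¹ ⊆ U` -/
theorem cj_mem_iff {G : Type} [Group G] [Finite G] {U : Subgroup G} {ψ : U →* ℂˣ} {h : G} {t : ℕ}
    (hc : cj ψ h t) (y : G) : h⁻¹ * y * h ∈ U ↔ y ∈ U := by
  refine ⟨fun hy => ?_, fun hy => cj_mem hc y hy⟩
  let f : U → U := fun u => ⟨h⁻¹ * u * h, cj_mem hc u u.2⟩
  have hf : Function.Injective f := by
    intro a b hab
    have h1 : h⁻¹ * (a : G) * h = h⁻¹ * (b : G) * h := congrArg Subtype.val hab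
    exact Subtype.ext (mul_left_cancel (mul_right_cancel h1))
  obtain ⟨a, ha⟩ := (Finite.surjective_of_injective hf) ⟨_, hy⟩
  have h2 : h⁻¹ * (a : G) * h = h⁻¹ * y * h := congrArg Subtype.val ha
  rw [← mul_left_cancel (mul_right_cancel h2)]
  exact a.2

theorem cj_pow {G : Type} [Group G] {U : Subgroup G} {ψ : U →* ℂˣ} {h : G} {t : ℕ}
    (hc : cj ψ h t) (i : ℕ) : cj ψ (h ^ i) (t ^ i) := by
  induction i with
  | zero =>
    intro u hu
    rw [pow_zero, pow_zero, pow_one, inv_one, one_mul, mul_one]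
  | succ i ih =>
    intro u hu
    have e : (h ^ (i + 1))⁻¹ * u * h ^ (i + 1) = h⁻¹ * ((h ^ i)⁻¹ * u * h ^ i) * h := by
      rw [pow_succ, mul_inv_rev]
      simp only [mul_assoc]
    rw [e, hc _ (cj_mem ih u hu), ih u hu, ← pow_mul, pow_succ]

theorem extZ_pow {G : Type} [Group G] {U : Subgroup G} (ψ : U →* ℂˣ) (s : ℕ) (u : G)
    (hu : u ∈ U) : extZ (ψ ^ s) u = extZ ψ u ^ s := by
  rw [extZ, dif_pos hu, extZ, dif_pos hu, MonoidHom.pow_apply, Units.val_pow_eq_pow_val]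

theorem modEq_iff {G : Type} [Group G] {U : Subgroup G} (ψ : U →* ℂˣ) (a b : ℕ) :
    ψ ^ a = ψ ^ b ↔ a ≡ b [MOD orderOf ψ] := by
  have h := pow_eq_pow_iff_modEq (x := ψ) (m := b) (n := a)
  exact h

theorem ind_cj {G : Type} [Group G] [Fintype G] {U : Subgroup G} {ψ : U →* ℂˣ} {h : G} {t : ℕ}
    (hc : cj ψ h t) (g : G) : indFun U (extZ (ψ ^ t)) g = indFun U (extZ ψ) g := by
  unfold indFun
  congr 1
  rw [← Equiv.sum_comp (Equiv.mulRight h) (fun x => if x⁻¹ * g * x ∈ U then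
    extZ ψ (x⁻¹ * g * x) else 0)]
  refine Finset.sum_congr rfl fun x _ => ?_
  have e : (x * h)⁻¹ * g * (x * h) = h⁻¹ * (x⁻¹ * g * x) * h := by group
  rw [Equiv.coe_mulRight, e]
  by_cases hx : x⁻¹ * g * x ∈ U
  · rw [if_pos hx, if_pos ((cj_mem_iff hc _).2 hx), hc _ hx, extZ_pow ψ t _ hx]
  · rw [if_neg hx, if_neg fun h1 => hx ((cj_mem_iff hc _).1 h1)]

end FFPx

open FFPx

theorem FFP_thm : Stmt_FFP := by
  intro hSIGT hTRT hFGN hFCH G _ _ ℓ k U ψ h t m hD hfld r H a e χ he hχ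
  have hn : 0 < ℓ ^ k := pow_pos hD.prime.pos k
  have hψn : ψ ^ (ℓ ^ k) = 1 := by
    rw [← hD.ord]
    exact pow_orderOf_eq_one ψ
  have hval : ∀ x : U, (((ψ x : ℂˣ) : ℂ)) ^ (ℓ ^ k) = 1 := by
    intro x
    have h1 : (ψ ^ (ℓ ^ k)) x = 1 := by
      rw [hψn]
      rfl
    rw [MonoidHom.pow_apply] at h1
    rw [← Units.val_pow_eq_pow_val, h1, Units.val_one]
  have he0 : (e : ℂ) ≠ 0 := by
    rcases he with h1 | h1
    · rw [h1]; norm_num
    · rw [h1]; norm_num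
  let HH : Fin (r + 1) → Subgroup G := Fin.cons U H
  let ΨΨ : ∀ i, HH i →* ℂˣ := Fin.cons ψ (fun i => (1 : H i →* ℂˣ))
  let cc : Fin (r + 1) → ℤ := Fin.cons e a
  have hΨn : ∀ i, ΨΨ i ^ (ℓ ^ k) = 1 := by
    intro i
    refine Fin.cases ?_ (fun i => ?_) i
    · exact hψn
    · show (1 : H i →* ℂˣ) ^ (ℓ ^ k) = 1
      ext x
      rw [MonoidHom.pow_apply, MonoidHom.one_apply, one_pow]
  have hsum : ∀ (s : ℕ) (g : G), ∑ i, (cc i : ℂ) * indFun (HH i) (extZ (ΨΨ i ^ s)) g =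
      (e : ℂ) * indFun U (extZ (ψ ^ s)) g + ∑ i, (a i : ℂ) * indFun (H i) (fun _ => 1) g := by
    intro s g
    rw [Fin.sum_univ_succ]
    congr 1
    refine Finset.sum_congr rfl fun i _ => ?_
    show (a i : ℂ) * indFun (H i) (extZ ((1 : H i →* ℂˣ) ^ s)) g = _
    rw [indFun_one]
  have hΨ1 : ∀ i, ΨΨ i ^ 1 = ΨΨ i := by
    intro i
    ext x
    rw [MonoidHom.pow_apply, pow_one]
  have hψ1 : ψ ^ 1 = ψ := by
    ext x
    rw [MonoidHom.pow_apply, pow_one]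
  have hχ' : ∀ g, χ g = ∑ i, (cc i : ℂ) * indFun (HH i) (extZ (ΨΨ i)) g := by
    intro g
    have h1 := hsum 1 g
    rw [hψ1] at h1
    rw [hχ g, ← h1]
    refine Finset.sum_congr rfl fun i _ => ?_
    rw [hΨ1]
  refine ⟨⟨r + 1, HH, ΨΨ, cc, hΨn, hχ'⟩, ?_⟩
  obtain ⟨-, e', he', hecard, hedeg, hesum⟩ := hFCH hSIGT hTRT G (ℓ ^ k) 1 (r + 1) χ HH ΨΨ cc hn
    one_pos hΨn (by
      intro g
      rw [Nat.cast_one, one_mul]
      exact hχ' g)
  obtain ⟨H₁, H₂, hH⟩ := hFGN G ℓ k U ψ h t m hD.prime hD.kpos hD.ord hD.mpos hD.conj hD.pow hD.ker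
    hD.free
  -- `t ^ m ≡ 1`
  have hhm : h ^ m ∈ U := by
    rw [← extZ_ne ψ, hD.pow]
    exact one_ne_zero
  have htm : t ^ m ≡ 1 [MOD ℓ ^ k] := by
    rw [← hD.ord, ← modEq_iff, hψ1]
    ext u
    have h1 := cj_pow hD.conj m u u.2
    have hu : (h ^ m)⁻¹ * (u : G) * h ^ m ∈ U := cj_mem (cj_pow hD.conj m) u u.2
    rw [extZ, dif_pos hu, extZ, dif_pos u.2] at h1
    have e2 : (⟨(h ^ m)⁻¹ * (u : G) * h ^ m, hu⟩ : U) = (⟨h ^ m, hhm⟩ : U)⁻¹ * u * ⟨h ^ m, hhm⟩ := rfl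
    rw [e2, map_mul, map_mul, map_inv, mul_comm (ψ ⟨h ^ m, hhm⟩)⁻¹, inv_mul_cancel_right] at h1
    rw [MonoidHom.pow_apply, Units.val_pow_eq_pow_val]
    exact h1.symm
  have hcop : (ℓ ^ k).Coprime t := by
    have h1 : (ℓ ^ k).Coprime (t ^ m) := by
      rw [Nat.coprime_iff_gcd_eq_one, Nat.gcd_comm, htm.gcd_eq, Nat.gcd_one_left]
    exact Nat.Coprime.coprime_dvd_right (dvd_pow_self t hD.mpos.ne') h1
  have hkl : ℓ ∣ ℓ ^ k := dvd_pow_self ℓ hD.kpos.ne'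
  have hcopl : Nat.Coprime ℓ t := Nat.Coprime.coprime_dvd_left hkl hcop
  have hinj : ∀ i j, i < j → j < m → ¬ t ^ i ≡ t ^ j [MOD ℓ] := by
    intro i j hij hj h1
    apply hD.free (j - i) (by omega) (by omega)
    have h2 : t ^ j = t ^ i * t ^ (j - i) := by
      rw [← pow_add]
      congr 1
      omega
    have h3 : t ^ i * 1 ≡ t ^ i * t ^ (j - i) [MOD ℓ] := by
      rw [mul_one, ← h2]
      exact h1
    exact (Nat.ModEq.cancel_left_of_coprime (hcopl.pow_right i) h3).symm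
  have hem : e' = m := by
    have himg : ((Ex (ℓ ^ k)).filter fun s => ∀ σ : ℂ ≃+* ℂ,
        (∀ z : ℂ, z ^ (ℓ ^ k) = 1 → σ z = z ^ s) → ∀ g, σ (χ g) = χ g) =
        (Finset.range m).image (fun i => t ^ i % ℓ ^ k) := by
      ext s
      rw [Finset.mem_filter, Finset.mem_image, Ex, Finset.mem_filter, Finset.mem_range]
      have key : ∀ σ : ℂ ≃+* ℂ, (∀ z : ℂ, z ^ (ℓ ^ k) = 1 → σ z = z ^ s) → ∀ g,
          σ (χ g) = (e : ℂ) * indFun U (extZ (ψ ^ s)) g +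
            ∑ i, (a i : ℂ) * indFun (H i) (fun _ => 1) g := by
        intro σ hσ g
        rw [hχ g, map_add, map_mul, map_intCast, map_sum,
          map_indFun U ψ σ s (fun x => hσ _ (hval x)) g]
        congr 1
        refine Finset.sum_congr rfl fun i _ => ?_
        rw [map_mul, map_intCast, map_one_indFun]
      constructor
      · rintro ⟨⟨hs, hsc⟩, h1⟩
        obtain ⟨σ, hσ⟩ := hSIGT (ℓ ^ k) s hn hsc
        obtain ⟨i, hi⟩ := hfld s hsc (by
          intro g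
          have h2 := h1 σ hσ g
          rw [key σ hσ g, hχ g] at h2
          exact mul_left_cancel₀ he0 (add_right_cancel h2))
        refine ⟨i % m, Finset.mem_range.2 (Nat.mod_lt _ hD.mpos), ?_⟩
        have h3 : t ^ i ≡ t ^ (i % m) [MOD ℓ ^ k] := by
          have h4 : t ^ i = t ^ (i % m) * (t ^ m) ^ (i / m) := by
            rw [← pow_mul, ← pow_add]
            congr 1
            exact (Nat.mod_add_div i m).symm
          have h5 : t ^ (i % m) * (t ^ m) ^ (i / m) ≡ t ^ (i % m) * 1 ^ (i / m) [MOD ℓ ^ k] :=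
            Nat.ModEq.mul_left _ (htm.pow _)
          rw [one_pow, mul_one] at h5
          rw [h4]
          exact h5
        have h6 : s ≡ t ^ (i % m) [MOD ℓ ^ k] := hi.trans h3
        show t ^ (i % m) % ℓ ^ k = s
        rw [← h6, Nat.mod_eq_of_lt hs]
      · rintro ⟨i, hi, rfl⟩
        have hs : t ^ i % ℓ ^ k ≡ t ^ i [MOD ℓ ^ k] := Nat.mod_modEq _ _
        refine ⟨⟨Nat.mod_lt _ hn, ?_⟩, ?_⟩
        · have h1 : (ℓ ^ k).Coprime (t ^ i) := hcop.pow_right i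
          rw [Nat.coprime_iff_gcd_eq_one, Nat.gcd_comm, hs.gcd_eq, Nat.gcd_comm]
          exact h1
        · intro σ hσ g
          have h2 : ψ ^ (t ^ i % ℓ ^ k) = ψ ^ (t ^ i) := by
            rw [modEq_iff, hD.ord]
            exact hs
          rw [key σ hσ g, hχ g, h2, ind_cj (cj_pow hD.conj i)]
    rw [hecard, himg, Finset.card_image_of_injOn, Finset.card_range]
    intro i hi j hj hij
    have hij' : t ^ i ≡ t ^ j [MOD ℓ] := Nat.ModEq.of_dvd hkl hij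
    have hi' := Finset.mem_range.1 hi
    have hj' := Finset.mem_range.1 hj
    rcases lt_trichotomy i j with h1 | h1 | h1
    · exact absurd hij' (hinj i j h1 hj')
    · exact h1
    · exact absurd hij'.symm (hinj j i h1 hi')
  refine ⟨r + 2, Fin.cons H₁ (Fin.cons H₂ H),
    Fin.cons e (Fin.cons (-e) fun i => (Module.finrank ℚ (StarkP.charField χ) : ℤ) * a i),
    fun g => ?_⟩
  have hm0 : (m : ℂ) ≠ 0 := by exact_mod_cast hD.mpos.ne'
  have h2 := hesum g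
  rw [one_mul, hem] at h2
  have h3 : ∑ i, (cc i : ℂ) * ∑ s ∈ Ex (ℓ ^ k), indFun (HH i) (extZ (ΨΨ i ^ s)) g =
      ∑ s ∈ Ex (ℓ ^ k), ((e : ℂ) * indFun U (extZ (ψ ^ s)) g +
        ∑ i, (a i : ℂ) * indFun (H i) (fun _ => 1) g) := by
    rw [Finset.sum_congr rfl fun i _ => Finset.mul_sum _ _ _, Finset.sum_comm]
    exact Finset.sum_congr rfl fun s _ => hsum s g
  have hcardEx : (Ex (ℓ ^ k)).card = (ℓ ^ k).totient := by
    rw [Ex, Nat.totient_eq_card_coprime]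
  have h4 : ∑ s ∈ Ex (ℓ ^ k), indFun U (extZ (ψ ^ s)) g =
      (m : ℂ) * (indFun H₁ (fun _ => 1) g - indFun H₂ (fun _ => 1) g) := (hH g).symm
  rw [h3, Finset.sum_add_distrib, ← Finset.mul_sum, h4, Finset.sum_const, hcardEx, ← hedeg, hem,
    nsmul_eq_mul] at h2
  apply mul_left_cancel₀ hm0
  rw [h2, Fin.sum_univ_succ, Fin.sum_univ_succ]
  simp only [Fin.cons_zero, Fin.cons_succ]
  rw [mul_add, mul_add, Finset.mul_sum, Finset.mul_sum]
  push_cast
  have h5 : ∀ i : Fin r, (m : ℂ) * ((Module.finrank ℚ (StarkP.charField χ) : ℂ) * (a i : ℂ) *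
      indFun (H i) (fun _ => 1) g) = (m : ℂ) * (Module.finrank ℚ (StarkP.charField χ) : ℂ) *
      ((a i : ℂ) * indFun (H i) (fun _ => 1) g) := fun i => by ring
  rw [Finset.sum_congr rfl fun i _ => h5 i]
  ring

end StarkC.ABS
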