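import Pool.Agent.ABS.StG

set_option autoImplicit false

open scoped Classical

namespace StarkC.ABS

namespace FGAx

theorem map_extZ {G : Type} [Group G] (H : Subgroup G) (ψ : H →* ℂˣ) (σ : ℂ ≃+* ℂ) (t : ℕ)
    (h : ∀ x : H, σ ((ψ x : ℂˣ) : ℂ) = ((ψ x : ℂˣ) : ℂ) ^ t) (g : G) (hg : g ∈ H) :
    σ (extZ ψ g) = extZ (ψ ^ t) g := by
  unfold extZ
  rw [dif_pos hg, dif_pos hg, h]
  simp

theorem map_indFun {G : Type} [Group G] [Fintype G] (H : Subgroup G) (ψ : H →* ℂˣ) (σ : ℂ ≃+* ℂ)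
    (t : ℕ) (h : ∀ x : H, σ ((ψ x : ℂˣ) : ℂ) = ((ψ x : ℂˣ) : ℂ) ^ t) (g : G) :
    σ (indFun H (extZ ψ) g) = indFun H (extZ (ψ ^ t)) g := by
  unfold indFun
  rw [map_div₀, map_natCast, map_sum]
  congr 1
  refine Finset.sum_congr rfl fun x _ => ?_
  split_ifs with hx
  · exact map_extZ H ψ σ t h _ hx
  · exact map_zero σ

end FGAx

open FGAx

theorem FGA_thm : Stmt_FGA := by
  intro hSIGT hTRT hFCL hFGB hFGT hFGM hFCH G V _ _ _ _ _ ρ ℓ U hS
  obtain ⟨k, ψ, hk, hord, hχ, hstab⟩ := hFCL G V ρ ℓ U hS.prime hS.irr hS.normal hS.dim hS.comm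
    hS.pgroup hS.nontriv
  have hn : 0 < ℓ ^ k := pow_pos hS.prime.pos k
  have hψn : ψ ^ (ℓ ^ k) = 1 := by
    rw [← hord]
    exact pow_orderOf_eq_one ψ
  have hval : ∀ x : U, (((ψ x : ℂˣ) : ℂ)) ^ (ℓ ^ k) = 1 := by
    intro x
    have h1 : (ψ ^ (ℓ ^ k)) x = 1 := by
      rw [hψn]
      rfl
    rw [MonoidHom.pow_apply] at h1
    rw [← Units.val_pow_eq_pow_val, h1, Units.val_one]
  refine ⟨?_, k, hk, ?_⟩
  · obtain ⟨h, t, m, hm, hcj, hext, hdiv, hmod, hcard⟩ := hFGT G ℓ k U ψ hS.prime hS.odd hk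
      hS.normal hS.coprime hord hstab
    obtain ⟨H₁, H₂, hH⟩ := hFGM G ℓ k U ψ h t m hS.prime hk hS.normal hord hm hcj hext hdiv hmod
    obtain ⟨-, e, he, hecard, -, hesum⟩ := hFCH hSIGT hTRT G (ℓ ^ k) 1 1 ρ.character (fun _ => U)
      (fun _ => ψ) (fun _ => 1) hn one_pos (fun _ => hψn) (by
        intro g
        simp [hχ g])
    have hem : e = m := by
      rw [hecard, hcard]
      congr 1
      ext s
      rw [Finset.mem_filter, Finset.mem_filter]
      have hEx : s ∈ Ex (ℓ ^ k) ↔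
          s ∈ (Finset.range (ℓ ^ k)).filter fun s => (ℓ ^ k).Coprime s := by
        unfold Ex
        simp only [Finset.mem_filter]
      rw [hEx]
      refine and_congr_right fun hs => ?_
      have hcop : (ℓ ^ k).Coprime s := (Finset.mem_filter.1 hs).2
      have key : ∀ σ : ℂ ≃+* ℂ, (∀ z : ℂ, z ^ (ℓ ^ k) = 1 → σ z = z ^ s) → ∀ g,
          σ (ρ.character g) = indFun U (extZ (ψ ^ s)) g := by
        intro σ hσ g
        rw [hχ g]
        exact map_indFun U ψ σ s (fun x => hσ _ (hval x)) g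
      rw [← hFGB G U ψ s hS.normal]
      constructor
      · intro h1 g
        obtain ⟨σ, hσ⟩ := hSIGT (ℓ ^ k) s hn hcop
        rw [← key σ hσ g, h1 σ hσ g, hχ g]
      · intro h1 σ hσ g
        rw [key σ hσ g, h1 g, hχ g]
    refine ⟨2, ![H₁, H₂], ![1, -1], fun g => ?_⟩
    have h1 := hH g
    have h2 := hesum g
    rw [hem] at h2
    simp only [Finset.univ_unique, Int.cast_one, one_mul, Finset.sum_const, Finset.card_singleton,
      one_smul] at h2
    have hm0 : (m : ℂ) ≠ 0 := by exact_mod_cast hm.ne'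
    have h3 : (m : ℂ) * StarkP.trChar ρ.character g =
        (m : ℂ) * (indFun H₁ (fun _ => 1) g - indFun H₂ (fun _ => 1) g) := by
      rw [h1, h2]
      unfold Ex
      congr 1
    have h4 := mul_left_cancel₀ hm0 h3
    rw [h4, Fin.sum_univ_two]
    simp
    ring
  · refine ⟨1, fun _ => U, fun _ => ψ, fun _ => 1, fun _ => hψn, fun g => ?_⟩
    simp [hχ g]

end StarkC.ABS
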