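import Pool.Agent.ABS.StG1

/-!
# Project ABS, part G, module FGB

`Ind ψ^t = Ind ψ` if and only if `ψ^t` is conjugate to `ψ`.
-/

set_option autoImplicit false

open scoped Classical

namespace StarkC.ABS

namespace FGBx

variable {G : Type} [Group G]

/-- the conjugate `u ↦ ψ (x⁻¹ u x)` of a linear character, with values in `ℂ` -/
noncomputable def ch {U : Subgroup G} [U.Normal] (ψ : U →* ℂˣ) (x : G) : U →* ℂ :=
  (Units.coeHom ℂ).comp (ψ.comp (MulAut.conjNormal x⁻¹ : MulAut U).toMonoidHom)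

theorem conj_mem {U : Subgroup G} [hU : U.Normal] (x : G) {g : G} (h : g ∈ U) :
    x⁻¹ * g * x ∈ U := by
  have := hU.conj_mem g h x⁻¹
  rwa [inv_inv] at this

theorem ch_apply {U : Subgroup G} [hU : U.Normal] (ψ : U →* ℂˣ) (x : G) (u : U) :
    ch ψ x u = extZ ψ (x⁻¹ * u * x) := by
  rw [extZ, dif_pos (conj_mem x u.2)]
  change ((ψ (MulAut.conjNormal x⁻¹ u) : ℂˣ) : ℂ) = _
  have e : (MulAut.conjNormal x⁻¹ u : U) = ⟨x⁻¹ * (u : G) * x, conj_mem x u.2⟩ := by
    apply Subtype.ext
    rw [MulAut.conjNormal_apply, inv_inv]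
  rw [e]

theorem extZ_pow_mem {U : Subgroup G} (ψ : U →* ℂˣ) (t : ℕ) {u : G} (hu : u ∈ U) :
    extZ (ψ ^ t) u = extZ ψ u ^ t := by
  rw [extZ, dif_pos hu, extZ, dif_pos hu, MonoidHom.pow_apply, Units.val_pow_eq_pow_val]

/-- two sums of homomorphisms to `ℂ` which agree have a common term -/
theorem common {M ι : Type} [Monoid M] [Fintype ι] (a b : ι → M →* ℂ)
    (h : ∀ u, ∑ x, a x u = ∑ x, b x u) (i : ι) : ∃ x, b x = a i := by
  have hli := linearIndependent_monoidHom M ℂ
  have e : (∑ x, Finsupp.single (a x) (1 : ℂ)) = ∑ x, Finsupp.single (b x) (1 : ℂ) := by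
    apply hli
    rw [map_sum, map_sum]
    simp only [Finsupp.linearCombination_single, one_smul]
    funext u
    rw [Finset.sum_apply, Finset.sum_apply]
    exact h u
  by_contra hc
  push Not at hc
  have e1 := DFunLike.congr_fun e (a i)
  rw [Finsupp.finsetSum_apply, Finsupp.finsetSum_apply] at e1
  have e2 : ∑ x, (Finsupp.single (b x) (1 : ℂ)) (a i) = 0 :=
    Finset.sum_eq_zero fun x _ => by
      rw [Finsupp.single_apply, if_neg (hc x)]
  rw [e2] at e1
  have e3 : ∑ x, (Finsupp.single (a x) (1 : ℂ)) (a i) =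
      (((Finset.univ.filter fun x => a x = a i).card : ℕ) : ℂ) := by
    simp only [Finsupp.single_apply]
    rw [Finset.sum_ite, Finset.sum_const_zero, add_zero, Finset.sum_const, nsmul_eq_mul, mul_one]
  rw [e3, Nat.cast_eq_zero, Finset.card_eq_zero] at e1
  have : i ∈ Finset.univ.filter fun x => a x = a i := by simp
  rw [e1] at this
  exact absurd this (Finset.notMem_empty i)

end FGBx

open FGBx

theorem FGB_thm : Stmt_FGB := by
  intro G _ _ U ψ t hU
  constructor
  · intro h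
    have h0 : (Nat.card U : ℂ) ≠ 0 := by
      have : Nat.card U ≠ 0 := Nat.card_pos.ne'
      exact_mod_cast this
    have h1 : ∀ u : U, ∑ x : G, ch (ψ ^ t) x u = ∑ x : G, ch ψ x u := by
      intro u
      have h2 := h u
      unfold indFun at h2
      have h3 := (div_left_inj' h0).1 h2
      have e : ∀ φ : U →* ℂˣ, ∑ x : G, ch φ x u =
          ∑ x : G, if x⁻¹ * (u : G) * x ∈ U then extZ φ (x⁻¹ * u * x) else 0 := by
        intro φ
        apply Finset.sum_congr rfl
        intro x _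
        rw [if_pos (conj_mem x u.2), ch_apply]
      rw [e, e]
      exact h3
    obtain ⟨x, hx⟩ := common _ _ h1 1
    refine ⟨x, fun u hu => ?_⟩
    have h4 := DFunLike.congr_fun hx (⟨u, hu⟩ : U)
    rw [ch_apply, ch_apply] at h4
    have h5 : (1 : G)⁻¹ * u * 1 = u := by simp
    have h6 : extZ ψ (x⁻¹ * u * x) = extZ (ψ ^ t) ((1 : G)⁻¹ * u * 1) := h4
    rw [h6, h5, extZ_pow_mem ψ t hu]
  · rintro ⟨y, hy⟩ g
    unfold indFun
    congr 1
    apply Fintype.sum_equiv (Equiv.mulRight y)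
    intro x
    have e : (Equiv.mulRight y x)⁻¹ * g * (Equiv.mulRight y x) = y⁻¹ * (x⁻¹ * g * x) * y := by
      simp only [Equiv.coe_mulRight]
      group
    rw [e]
    by_cases hx : x⁻¹ * g * x ∈ U
    · rw [if_pos hx, if_pos (conj_mem y hx), hy _ hx, extZ_pow_mem ψ t hx]
    · rw [if_neg hx, if_neg]
      intro hc
      apply hx
      have h7 := hU.conj_mem _ hc y
      have h8 : y * (y⁻¹ * (x⁻¹ * g * x) * y) * y⁻¹ = x⁻¹ * g * x := by group
      rwa [h8] at h7

end StarkC.ABS
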