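import Pool.Agent.ABS.StG1

/-!
# ABS_FGM: the sum of the induced powers of a linear character of prime power order
-/

set_option autoImplicit false

open scoped Classical

namespace StarkC.ABS

namespace FGMx

/-! ### Ramanujan sums -/

lemma geom (n : ℕ) (z : ℂ) (hz : z ^ n = 1) :
    ∑ t ∈ Finset.range n, z ^ t = if z = 1 then (n : ℂ) else 0 := by
  split_ifs with h
  · simp [h]
  · rw [geom_sum_eq h, hz, sub_self, zero_div]

lemma sumEx (ℓ j : ℕ) (hl : ℓ.Prime) (z : ℂ) (hz : z ^ (ℓ ^ (j + 1)) = 1) :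
    ∑ t ∈ (Finset.range (ℓ ^ (j + 1))).filter (fun s => (ℓ ^ (j + 1)).Coprime s), z ^ t =
      (if z = 1 then ((ℓ ^ (j + 1) : ℕ) : ℂ) else 0) -
        (if z ^ ℓ = 1 then ((ℓ ^ j : ℕ) : ℂ) else 0) := by
  have hco : ∀ t, (ℓ ^ (j + 1)).Coprime t ↔ ¬ ℓ ∣ t := by
    intro t
    rw [Nat.coprime_pow_left_iff (Nat.succ_pos j), hl.coprime_iff_not_dvd]
  have h1 : ∑ t ∈ Finset.range (ℓ ^ (j + 1)), z ^ t =
      ∑ t ∈ (Finset.range (ℓ ^ (j + 1))).filter (fun t => ℓ ∣ t), z ^ t +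
        ∑ t ∈ (Finset.range (ℓ ^ (j + 1))).filter (fun s => (ℓ ^ (j + 1)).Coprime s), z ^ t := by
    rw [← Finset.sum_filter_add_sum_filter_not (Finset.range (ℓ ^ (j + 1))) (fun t => ℓ ∣ t)]
    congr 1
    refine Finset.sum_congr ?_ fun _ _ => rfl
    ext t
    simp only [Finset.mem_filter, hco t]
  have h2 : ∑ t ∈ (Finset.range (ℓ ^ (j + 1))).filter (fun t => ℓ ∣ t), z ^ t =
      ∑ s ∈ Finset.range (ℓ ^ j), (z ^ ℓ) ^ s := by
    symm
    refine Finset.sum_bij (fun s _ => ℓ * s) ?_ ?_ ?_ ?_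
    · intro s hs
      rw [Finset.mem_range] at hs
      rw [Finset.mem_filter, Finset.mem_range]
      refine ⟨?_, dvd_mul_right _ _⟩
      rw [pow_succ, mul_comm]
      exact Nat.mul_lt_mul_of_pos_right hs hl.pos
    · intro s _ s' _ h
      exact Nat.eq_of_mul_eq_mul_left hl.pos h
    · intro t ht
      rw [Finset.mem_filter, Finset.mem_range] at ht
      obtain ⟨ht1, s, rfl⟩ := ht
      refine ⟨s, ?_, rfl⟩
      rw [Finset.mem_range]
      rw [pow_succ, mul_comm] at ht1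
      exact Nat.lt_of_mul_lt_mul_right ht1
    · intro s _
      rw [pow_mul]
  have h3 : (z ^ ℓ) ^ (ℓ ^ j) = 1 := by
    rw [← pow_mul, ← pow_succ', hz]
  rw [geom _ z hz, h2, geom _ _ h3] at h1
  rw [h1]
  ring

/-! ### Subgroups and counting -/

variable {G : Type} [Group G] [Fintype G]

/-- the subgroup generated by `h` and a subgroup `N` normalised by `h` -/
def HH (h : G) (N : Subgroup G) (hN : ∀ u ∈ N, h⁻¹ * u * h ∈ N) : Subgroup G where
  carrier := {x | ∃ i : ℕ, ∃ u ∈ N, x = h ^ i * u}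
  mul_mem' := by
    rintro x y ⟨i, u, hu, rfl⟩ ⟨j, v, hv, rfl⟩
    have hc : ∀ j : ℕ, ∀ u ∈ N, (h ^ j)⁻¹ * u * h ^ j ∈ N := by
      intro j
      induction j with
      | zero => intro u hu; simpa using hu
      | succ j ih =>
        intro u hu
        have := hN _ (ih u hu)
        rw [pow_succ, mul_inv_rev]
        simpa only [mul_assoc] using this
    refine ⟨i + j, (h ^ j)⁻¹ * u * h ^ j * v, N.mul_mem (hc j u hu) hv, ?_⟩
    rw [pow_add]
    group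
  one_mem' := ⟨0, 1, N.one_mem, by simp⟩
  inv_mem' := by
    rintro x hx
    have hc : ∀ j : ℕ, ∀ u ∈ N, (h ^ j)⁻¹ * u * h ^ j ∈ N := by
      intro j
      induction j with
      | zero => intro u hu; simpa using hu
      | succ j ih =>
        intro u hu
        have := hN _ (ih u hu)
        rw [pow_succ, mul_inv_rev]
        simpa only [mul_assoc] using this
    obtain ⟨i, u, hu, rfl⟩ := hx
    have hpow : ∀ k : ℕ, ∃ i' : ℕ, ∃ u' ∈ N, (h ^ i * u) ^ k = h ^ i' * u' := by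
      intro k
      induction k with
      | zero => exact ⟨0, 1, N.one_mem, by simp⟩
      | succ k ih =>
        obtain ⟨i', u', hu', e⟩ := ih
        refine ⟨i' + i, (h ^ i)⁻¹ * u' * h ^ i * u, N.mul_mem (hc i u' hu') hu, ?_⟩
        rw [pow_succ, e, pow_add]
        group
    obtain ⟨i', u', hu', e⟩ := hpow (orderOf (h ^ i * u) - 1)
    refine ⟨i', u', hu', ?_⟩
    rw [← e]
    have ho := orderOf_pos (h ^ i * u)
    have h2 : (h ^ i * u) ^ (orderOf (h ^ i * u) - 1) * (h ^ i * u) = 1 := by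
      rw [← pow_succ, Nat.sub_add_cancel ho, pow_orderOf_eq_one]
    exact (eq_inv_of_mul_eq_one_left h2).symm

lemma mem_HH {h : G} {N : Subgroup G} {hN : ∀ u ∈ N, h⁻¹ * u * h ∈ N} {x : G} :
    x ∈ HH h N hN ↔ ∃ i : ℕ, ∃ u ∈ N, x = h ^ i * u := Iff.rfl

omit [Fintype G] in
lemma card_mul {a : G} {N N' : Subgroup G} {d : ℕ} (hNN : N ≤ N') (ha : a ∈ N')
    (hsur : ∀ x ∈ N', ∃ i < d, (a ^ i)⁻¹ * x ∈ N) (hinj : ∀ i, 0 < i → i < d → a ^ i ∉ N) :
    Nat.card N' = d * Nat.card N := by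
  have hF : Function.Bijective (fun p : Fin d × N =>
      (⟨a ^ (p.1 : ℕ) * p.2, N'.mul_mem (N'.pow_mem ha _) (hNN p.2.2)⟩ : N')) := by
    constructor
    · rintro ⟨i, u⟩ ⟨j, v⟩ hij
      have e : a ^ (i : ℕ) * (u : G) = a ^ (j : ℕ) * (v : G) := congrArg Subtype.val hij
      have key : ∀ (i j : ℕ) (u v : N), i < d → j ≤ i → a ^ i * (u : G) = a ^ j * (v : G) →
          i = j := by
        intro i j u v hi hj e
        by_contra hne
        have h1 : a ^ (i - j) = (v : G) * (u : G)⁻¹ := by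
          have h2 : a ^ i = a ^ j * a ^ (i - j) := by rw [← pow_add, Nat.add_sub_cancel' hj]
          rw [h2, mul_assoc] at e
          have h3 := mul_left_cancel e
          rw [← h3]
          group
        refine hinj (i - j) (by omega) (by omega) ?_
        rw [h1]
        exact N.mul_mem v.2 (N.inv_mem u.2)
      have hij' : (i : ℕ) = j := by
        rcases le_total (j : ℕ) i with h1 | h1
        · exact key i j u v i.2 h1 e
        · exact (key j i v u j.2 h1 e.symm).symm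
      have hi : i = j := Fin.ext hij'
      subst hi
      have := mul_left_cancel e
      have hu : u = v := Subtype.ext this
      rw [hu]
    · rintro ⟨x, hx⟩
      obtain ⟨i, hi, h1⟩ := hsur x hx
      refine ⟨(⟨i, hi⟩, ⟨_, h1⟩), ?_⟩
      apply Subtype.ext
      show a ^ i * ((a ^ i)⁻¹ * x) = x
      rw [mul_inv_cancel_left]
  rw [← Nat.card_congr (Equiv.ofBijective _ hF), Nat.card_prod, Nat.card_eq_fintype_card,
    Fintype.card_fin]

lemma pow_iff {z : ℂ} {n : ℕ} (hz : IsPrimitiveRoot z n) (hn : n ≠ 0) (a b : ℕ) :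
    z ^ a = z ^ b ↔ a ≡ b [MOD n] := by
  have hz0 : z ≠ 0 := hz.ne_zero hn
  have h1 : z ^ a = z ^ b ↔ z ^ ((b : ℤ) - a) = 1 := by
    rw [zpow_sub₀ hz0, zpow_natCast, zpow_natCast, div_eq_one_iff_eq (pow_ne_zero _ hz0)]
    exact eq_comm
  rw [h1, hz.zpow_eq_one_iff_dvd, Nat.modEq_iff_dvd]

/-- the number of the conjugates of `g` in `S` -/
noncomputable def cS (g : G) (S : Subgroup G) : ℂ := ∑ x : G, if x⁻¹ * g * x ∈ S then (1 : ℂ) else 0

lemma ind_one (S : Subgroup G) (g : G) :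
    indFun S (fun _ => 1) g = cS g S / (Nat.card S : ℂ) := rfl

end FGMx

open FGMx in
/-- the statement of FGM for arbitrary subgroups `U` (`cj ψ h t` implies that `h` normalises `U`) -/
theorem FGN_thm : ∀ (G : Type) [Group G] [Fintype G] (ℓ k : ℕ) (U : Subgroup G) (ψ : U →* ℂˣ)
    (h : G) (t m : ℕ), ℓ.Prime → 0 < k → orderOf ψ = ℓ ^ k → 0 < m → cj ψ h t →
    extZ ψ (h ^ m) = 1 → (∀ i, h ^ i ∈ U → m ∣ i) →
    (∀ i, 0 < i → i < m → ¬ t ^ i ≡ 1 [MOD ℓ]) →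
    ∃ H₁ H₂ : Subgroup G, ∀ g, (m : ℂ) * (indFun H₁ (fun _ => 1) g - indFun H₂ (fun _ => 1) g) =
      ∑ s ∈ (Finset.range (ℓ ^ k)).filter (fun s => (ℓ ^ k).Coprime s),
        indFun U (extZ (ψ ^ s)) g := by
  intro G _ _ ℓ k U ψ h t m hl hk hord hm hcj hhm hdiv hnt
  obtain ⟨j, rfl⟩ : ∃ j, k = j + 1 := ⟨k - 1, by omega⟩
  have nz1 : NeZero ℓ := ⟨hl.ne_zero⟩
  have nz2 : NeZero (ℓ ^ (j + 1)) := ⟨pow_ne_zero _ hl.ne_zero⟩
  obtain ⟨f, hf⟩ : ∃ f : G → ℂ, f = extZ ψ := ⟨_, rfl⟩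
  have f_in : ∀ x (hx : x ∈ U), f x = ((ψ ⟨x, hx⟩ : ℂˣ) : ℂ) := by
    intro x hx
    rw [hf]
    unfold extZ
    rw [dif_pos hx]
  have f_out : ∀ x, x ∉ U → f x = 0 := by
    intro x hx
    rw [hf]
    unfold extZ
    rw [dif_neg hx]
  have f_mul : ∀ x ∈ U, ∀ y ∈ U, f (x * y) = f x * f y := by
    intro x hx y hy
    rw [f_in x hx, f_in y hy, f_in _ (U.mul_mem hx hy), ← Units.val_mul, ← map_mul]
    rfl
  have f_one : f 1 = 1 := by
    rw [f_in 1 U.one_mem]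
    have : ψ ⟨1, U.one_mem⟩ = 1 := map_one ψ
    rw [this, Units.val_one]
  have f_ne : ∀ x ∈ U, f x ≠ 0 := by
    intro x hx
    rw [f_in x hx]
    exact Units.ne_zero _
  have f_pow : ∀ x ∈ U, ∀ i : ℕ, f (x ^ i) = f x ^ i := by
    intro x hx i
    induction i with
    | zero => rw [pow_zero, pow_zero, f_one]
    | succ i ih => rw [pow_succ, f_mul _ (U.pow_mem hx i) _ hx, ih, pow_succ]
  have f_inv : ∀ x ∈ U, f x⁻¹ = (f x)⁻¹ := by
    intro x hx
    have h1 := f_mul _ (U.inv_mem hx) x hx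
    rw [inv_mul_cancel, f_one] at h1
    exact eq_inv_of_mul_eq_one_left h1.symm
  have f_n : ∀ x ∈ U, f x ^ (ℓ ^ (j + 1)) = 1 := by
    intro x hx
    rw [f_in x hx, ← Units.val_pow_eq_pow_val, ← map_pow]
    have h1 : ψ ^ (ℓ ^ (j + 1)) = 1 := by rw [← hord, pow_orderOf_eq_one]
    have h2 := DFunLike.congr_fun h1 ⟨x, hx⟩
    rw [MonoidHom.pow_apply, MonoidHom.one_apply] at h2
    rw [map_pow, h2, Units.val_one]
  have hcU : ∀ u ∈ U, h⁻¹ * u * h ∈ U := by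
    intro u hu
    by_contra hcon
    have h3 := hcj u hu
    rw [← hf, f_out _ hcon] at h3
    exact pow_ne_zero _ (f_ne u hu) h3.symm
  have hcUi : ∀ i : ℕ, ∀ u ∈ U, (h ^ i)⁻¹ * u * h ^ i ∈ U := by
    intro i
    induction i with
    | zero => intro u hu; simpa using hu
    | succ i ih =>
      intro u hu
      have := hcU _ (ih u hu)
      rw [pow_succ, mul_inv_rev]
      simpa only [mul_assoc] using this
  have f_cj : ∀ i : ℕ, ∀ u ∈ U, f ((h ^ i)⁻¹ * u * h ^ i) = f u ^ t ^ i := by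
    intro i
    induction i with
    | zero => intro u hu; simp
    | succ i ih =>
      intro u hu
      have h1 : (h ^ (i + 1))⁻¹ * u * h ^ (i + 1) = h⁻¹ * ((h ^ i)⁻¹ * u * h ^ i) * h := by
        rw [pow_succ, mul_inv_rev]
        group
      have h2 : (h ^ i)⁻¹ * u * h ^ i ∈ U := hcUi i u hu
      have h3 := hcj _ h2
      rw [← hf] at h3
      rw [h1, h3, ih u hu, ← pow_mul, pow_succ]
  -- the element `u₀`
  obtain ⟨u₀, hu₀, hp₀⟩ : ∃ u₀ ∈ U, IsPrimitiveRoot (f u₀) (ℓ ^ (j + 1)) := by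
    have h1 : ψ ^ (ℓ ^ j) ≠ 1 := by
      intro h1
      have h2 : orderOf ψ ∣ ℓ ^ j := by
        rw [orderOf_dvd_iff_pow_eq_one]
        exact h1
      rw [hord] at h2
      have h3 := Nat.le_of_dvd (pow_pos hl.pos _) h2
      have h4 : ℓ ^ j < ℓ ^ (j + 1) := Nat.pow_lt_pow_right hl.one_lt (Nat.lt_succ_self j)
      omega
    obtain ⟨⟨u, hu⟩, h2⟩ : ∃ u : U, (ψ ^ (ℓ ^ j)) u ≠ 1 := by
      by_contra hcon
      simp only [not_exists, not_not] at hcon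
      exact h1 (MonoidHom.ext fun u => by rw [hcon u, MonoidHom.one_apply])
    refine ⟨u, hu, ?_⟩
    have : Fact ℓ.Prime := ⟨hl⟩
    have h3 : orderOf (f u) = ℓ ^ (j + 1) := by
      refine orderOf_eq_prime_pow ?_ (f_n u hu)
      rw [f_in u hu, ← Units.val_pow_eq_pow_val]
      intro h4
      apply h2
      rw [MonoidHom.pow_apply]
      exact Units.ext h4
    rw [← h3]
    exact IsPrimitiveRoot.orderOf (f u)
  obtain ⟨w, hw⟩ : ∃ w : G, w = u₀ ^ (ℓ ^ j) := ⟨_, rfl⟩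
  have hwU : w ∈ U := by rw [hw]; exact U.pow_mem hu₀ _
  have hζ : IsPrimitiveRoot (f w) ℓ := by
    rw [hw, f_pow u₀ hu₀]
    exact hp₀.pow (pow_pos hl.pos _) (pow_succ ℓ j)
  -- the subgroups `N₁` and `N₂`
  obtain ⟨N₁, hN₁⟩ : ∃ N : Subgroup G, ∀ x, x ∈ N ↔ x ∈ U ∧ f x = 1 :=
    ⟨{ carrier := {x | x ∈ U ∧ f x = 1}
       mul_mem' := fun {x y} hx hy => ⟨U.mul_mem hx.1 hy.1, by
        rw [f_mul x hx.1 y hy.1, hx.2, hy.2, one_mul]⟩
       one_mem' := ⟨U.one_mem, f_one⟩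
       inv_mem' := fun {x} hx => ⟨U.inv_mem hx.1, by rw [f_inv x hx.1, hx.2, inv_one]⟩ },
      fun x => Iff.rfl⟩
  obtain ⟨N₂, hN₂⟩ : ∃ N : Subgroup G, ∀ x, x ∈ N ↔ x ∈ U ∧ f x ^ ℓ = 1 :=
    ⟨{ carrier := {x | x ∈ U ∧ f x ^ ℓ = 1}
       mul_mem' := fun {x y} hx hy => ⟨U.mul_mem hx.1 hy.1, by
        rw [f_mul x hx.1 y hy.1, mul_pow, hx.2, hy.2, one_mul]⟩
       one_mem' := ⟨U.one_mem, by rw [f_one, one_pow]⟩
       inv_mem' := fun {x} hx => ⟨U.inv_mem hx.1, by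
        rw [f_inv x hx.1, inv_pow, hx.2, inv_one]⟩ },
      fun x => Iff.rfl⟩
  have hN12 : N₁ ≤ N₂ := fun x hx => by
    rw [hN₁] at hx
    rw [hN₂]
    exact ⟨hx.1, by rw [hx.2, one_pow]⟩
  have hN1U : N₁ ≤ U := fun x hx => ((hN₁ x).1 hx).1
  have hN2U : N₂ ≤ U := fun x hx => ((hN₂ x).1 hx).1
  have hc1 : ∀ u ∈ N₁, h⁻¹ * u * h ∈ N₁ := by
    intro u hu
    rw [hN₁] at hu ⊢
    refine ⟨hcU u hu.1, ?_⟩
    have h3 := hcj u hu.1
    rw [← hf] at h3
    rw [h3, hu.2, one_pow]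
  have hc2 : ∀ u ∈ N₂, h⁻¹ * u * h ∈ N₂ := by
    intro u hu
    rw [hN₂] at hu ⊢
    refine ⟨hcU u hu.1, ?_⟩
    have h3 := hcj u hu.1
    rw [← hf] at h3
    rw [h3, ← pow_mul, mul_comm, pow_mul, hu.2, one_pow]
  have hhmU : h ^ m ∈ U := by
    by_contra hcon
    have := f_out _ hcon
    rw [hf, hhm] at this
    exact one_ne_zero this
  have hhm1 : h ^ m ∈ N₁ := by
    rw [hN₁]
    exact ⟨hhmU, by rw [hf, hhm]⟩
  have hwN2 : w ∈ N₂ := by
    rw [hN₂]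
    exact ⟨hwU, hζ.pow_eq_one⟩
  have hdN1 : ∀ i, h ^ i ∈ U → h ^ i ∈ N₁ := by
    intro i hi
    obtain ⟨q, rfl⟩ := hdiv i hi
    rw [pow_mul]
    exact N₁.pow_mem hhm1 q
  -- orders
  have cH : ∀ (N : Subgroup G) (hN : ∀ u ∈ N, h⁻¹ * u * h ∈ N), N₁ ≤ N → N ≤ U →
      Nat.card (HH h N hN) = m * Nat.card N := by
    intro N hN h1 h2
    refine card_mul (a := h) (fun x hx => mem_HH.2 ⟨0, x, hx, by simp⟩)
      (mem_HH.2 ⟨1, 1, N.one_mem, by simp⟩) ?_ ?_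
    · intro x hx
      obtain ⟨i, u, hu, rfl⟩ := mem_HH.1 hx
      refine ⟨i % m, Nat.mod_lt _ hm, ?_⟩
      have e : (h ^ (i % m))⁻¹ * (h ^ i * u) = (h ^ m) ^ (i / m) * u := by
        have e1 : h ^ i = h ^ (i % m) * (h ^ m) ^ (i / m) := by
          rw [← pow_mul, ← pow_add, Nat.mod_add_div]
        rw [e1]
        group
      rw [e]
      exact N.mul_mem (N.pow_mem (h1 hhm1) _) hu
    · intro i hi0 him hcon
      have := Nat.le_of_dvd hi0 (hdiv i (h2 hcon))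
      omega
  have cN2 : Nat.card N₂ = ℓ * Nat.card N₁ := by
    refine card_mul (a := w) hN12 hwN2 ?_ ?_
    · intro x hx
      rw [hN₂] at hx
      obtain ⟨b, hb, e⟩ := hζ.eq_pow_of_pow_eq_one hx.2
      refine ⟨b, hb, ?_⟩
      rw [hN₁]
      have hwb := U.pow_mem hwU b
      refine ⟨U.mul_mem (U.inv_mem hwb) hx.1, ?_⟩
      rw [f_mul _ (U.inv_mem hwb) _ hx.1, f_inv _ hwb, f_pow w hwU, e,
        inv_mul_cancel₀ (f_ne x hx.1)]
    · intro i hi0 hi hcon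
      rw [hN₁, f_pow w hwU] at hcon
      have := Nat.le_of_dvd hi0 (hζ.dvd_of_pow_eq_one i hcon.2)
      omega
  have cU : Nat.card U = ℓ ^ (j + 1) * Nat.card N₁ := by
    refine card_mul (a := u₀) hN1U hu₀ ?_ ?_
    · intro x hx
      obtain ⟨b, hb, e⟩ := hp₀.eq_pow_of_pow_eq_one (f_n x hx)
      refine ⟨b, hb, ?_⟩
      rw [hN₁]
      have hwb := U.pow_mem hu₀ b
      refine ⟨U.mul_mem (U.inv_mem hwb) hx, ?_⟩
      rw [f_mul _ (U.inv_mem hwb) _ hx, f_inv _ hwb, f_pow u₀ hu₀, e,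
        inv_mul_cancel₀ (f_ne x hx)]
    · intro i hi0 hi hcon
      rw [hN₁, f_pow u₀ hu₀] at hcon
      have := Nat.le_of_dvd hi0 (hp₀.dvd_of_pow_eq_one i hcon.2)
      omega
  -- the intersections with `U`
  have hHU : ∀ (N : Subgroup G) (hN : ∀ u ∈ N, h⁻¹ * u * h ∈ N), N₁ ≤ N → N ≤ U →
      ∀ x ∈ U, (x ∈ HH h N hN ↔ x ∈ N) := by
    intro N hN h1 h2 x hx
    refine ⟨fun hxH => ?_, fun hxN => mem_HH.2 ⟨0, x, hxN, by simp⟩⟩
    obtain ⟨i, u, hu, rfl⟩ := mem_HH.1 hxH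
    refine N.mul_mem (h1 (hdN1 i ?_)) hu
    have := U.mul_mem hx (U.inv_mem (h2 hu))
    rwa [mul_inv_cancel_right] at this
  obtain ⟨H₁, hH₁⟩ : ∃ H : Subgroup G, H = HH h N₁ hc1 := ⟨_, rfl⟩
  obtain ⟨H₂, hH₂⟩ : ∃ H : Subgroup G, H = HH h N₂ hc2 := ⟨_, rfl⟩
  have hH12 : H₁ ≤ H₂ := by
    intro x hx
    rw [hH₁] at hx
    rw [hH₂]
    obtain ⟨i, u, hu, rfl⟩ := mem_HH.1 hx
    exact mem_HH.2 ⟨i, u, hN12 hu, rfl⟩
  have hwH2 : w ∈ H₂ := by
    rw [hH₂]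
    exact mem_HH.2 ⟨0, w, hwN2, by simp⟩
  -- `t ^ i` modulo `ℓ`
  have htm : t ^ m ≡ 1 [MOD ℓ] := by
    have h1 := f_cj m w hwU
    rw [f_mul _ (U.mul_mem (U.inv_mem hhmU) hwU) _ hhmU, f_mul _ (U.inv_mem hhmU) _ hwU,
      f_inv _ hhmU, ((hN₁ _).1 hhm1).2, inv_one, one_mul, mul_one] at h1
    have h2 : f w ^ 1 = f w ^ t ^ m := by rw [pow_one]; exact h1
    exact ((pow_iff hζ hl.ne_zero _ _).1 h2).symm
  have hti : ∀ i, ¬ m ∣ i → ¬ t ^ i ≡ 1 [MOD ℓ] := by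
    intro i hi hcon
    refine hnt (i % m) (Nat.pos_of_ne_zero fun h0 => hi (Nat.dvd_of_mod_eq_zero h0))
      (Nat.mod_lt _ hm) ?_
    have e : t ^ i = t ^ (i % m) * (t ^ m) ^ (i / m) := by
      rw [← pow_mul, ← pow_add, Nat.mod_add_div]
    have h1 : (t ^ m) ^ (i / m) ≡ 1 [MOD ℓ] := by
      have := htm.pow (i / m)
      rwa [one_pow] at this
    have h2 := h1.mul_left (t ^ (i % m))
    rw [mul_one, ← e] at h2
    exact h2.symm.trans hcon
  -- the key point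
  have key : ∀ y, y ∉ U → y ∈ H₂ →
      ∃ b < ℓ, ∀ i < ℓ, ((w ^ i)⁻¹ * y * w ^ i ∈ H₁ ↔ i = b) := by
    intro y hyU hy
    rw [hH₂] at hy
    obtain ⟨i, u, hu, rfl⟩ := mem_HH.1 hy
    have huU := hN2U hu
    have hi : ¬ m ∣ i := by
      rintro ⟨q, rfl⟩
      apply hyU
      refine U.mul_mem ?_ huU
      rw [pow_mul]
      exact U.pow_mem hhmU q
    obtain ⟨b, hb, eb⟩ := hζ.eq_pow_of_pow_eq_one ((hN₂ u).1 hu).2
    -- the criterion
    have crit : ∀ v ∈ U, (h ^ i * v ∈ H₁ ↔ f v = 1) := by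
      intro v hv
      rw [hH₁]
      constructor
      · intro hm1
        obtain ⟨i', v', hv', e⟩ := mem_HH.1 hm1
        have hv'U := hN1U hv'
        rcases le_total i' i with h1 | h1
        · have e1 : h ^ (i - i') * v = v' := by
            have e2 : h ^ i = h ^ i' * h ^ (i - i') := by rw [← pow_add, Nat.add_sub_cancel' h1]
            rw [e2, mul_assoc] at e
            exact mul_left_cancel e
          have e3 : h ^ (i - i') ∈ U := by
            have := U.mul_mem hv'U (U.inv_mem hv)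
            rwa [← e1, mul_inv_cancel_right] at this
          have e4 := f_mul _ e3 _ hv
          rw [e1, ((hN₁ _).1 hv').2, ((hN₁ _).1 (hdN1 _ e3)).2, one_mul] at e4
          exact e4.symm
        · have e1 : v = h ^ (i' - i) * v' := by
            have e2 : h ^ i' = h ^ i * h ^ (i' - i) := by rw [← pow_add, Nat.add_sub_cancel' h1]
            rw [e2, mul_assoc] at e
            exact mul_left_cancel e
          have e3 : h ^ (i' - i) ∈ U := by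
            have := U.mul_mem hv (U.inv_mem hv'U)
            rwa [e1, mul_inv_cancel_right] at this
          rw [e1, f_mul _ e3 _ hv'U, ((hN₁ _).1 hv').2, ((hN₁ _).1 (hdN1 _ e3)).2, one_mul]
      · intro h1
        exact mem_HH.2 ⟨i, v, (hN₁ v).2 ⟨hv, h1⟩, rfl⟩
    -- the values
    have val : ∀ a : ℕ, ((w ^ a)⁻¹ * (h ^ i * u) * w ^ a ∈ H₁ ↔
        f w ^ (b + a) = f w ^ (a * t ^ i)) := by
      intro a
      have hwa := U.pow_mem hwU a
      have hz : (h ^ i)⁻¹ * (w ^ a)⁻¹ * h ^ i ∈ U := hcUi i _ (U.inv_mem hwa)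
      have e : (w ^ a)⁻¹ * (h ^ i * u) * w ^ a =
          h ^ i * ((h ^ i)⁻¹ * (w ^ a)⁻¹ * h ^ i * u * w ^ a) := by group
      rw [e, crit _ (U.mul_mem (U.mul_mem hz huU) hwa), f_mul _ (U.mul_mem hz huU) _ hwa,
        f_mul _ hz _ huU, f_cj i _ (U.inv_mem hwa), f_inv _ hwa, f_pow w hwU, ← eb, inv_pow,
        ← pow_mul, mul_assoc, ← pow_add, inv_mul_eq_one₀ (pow_ne_zero _ (f_ne w hwU))]
      exact ⟨fun h => h.symm, fun h => h.symm⟩
    have hneW : (1 : ZMod ℓ) - (t : ZMod ℓ) ^ i ≠ 0 := by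
      intro h0
      apply hti i hi
      have h1 : ((t ^ i : ℕ) : ZMod ℓ) = ((1 : ℕ) : ZMod ℓ) := by
        push_cast
        exact (sub_eq_zero.1 h0).symm
      exact (ZMod.natCast_eq_natCast_iff _ _ _).1 h1
    have : Fact ℓ.Prime := ⟨hl⟩
    have val2 : ∀ a : ℕ, (f w ^ (b + a) = f w ^ (a * t ^ i) ↔
        (a : ZMod ℓ) = -(b : ZMod ℓ) / (1 - (t : ZMod ℓ) ^ i)) := by
      intro a
      rw [pow_iff hζ hl.ne_zero, ← ZMod.natCast_eq_natCast_iff, eq_div_iff hneW]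
      push_cast
      constructor
      · intro h1
        linear_combination h1
      · intro h1
        linear_combination h1
    refine ⟨(-(b : ZMod ℓ) / (1 - (t : ZMod ℓ) ^ i)).val, ZMod.val_lt _, fun a ha => ?_⟩
    rw [val a, val2 a]
    constructor
    · intro h1
      rw [← h1, ZMod.val_natCast_of_lt ha]
    · intro h1
      rw [h1, ZMod.natCast_zmod_val]
  refine ⟨H₁, H₂, fun g => ?_⟩
  -- the counting functions
  obtain ⟨d, hd⟩ : ∃ d : Subgroup G → ℂ, d = fun H => ∑ x : G,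
      if (x⁻¹ * g * x ∈ H ∧ x⁻¹ * g * x ∉ U) then (1 : ℂ) else 0 := ⟨_, rfl⟩
  have cd : ∀ (N H : Subgroup G), (∀ x ∈ U, (x ∈ H ↔ x ∈ N)) → N ≤ U → cS g H = cS g N + d H := by
    intro N H h1 h2
    rw [hd]
    unfold cS
    beta_reduce
    rw [← Finset.sum_add_distrib]
    refine Finset.sum_congr rfl fun x _ => ?_
    by_cases hx : x⁻¹ * g * x ∈ U
    · have hx2 : ¬ (x⁻¹ * g * x ∈ H ∧ x⁻¹ * g * x ∉ U) := fun h => h.2 hx
      rw [if_neg hx2, add_zero]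
      by_cases hx3 : x⁻¹ * g * x ∈ N
      · rw [if_pos hx3, if_pos ((h1 _ hx).2 hx3)]
      · rw [if_neg hx3, if_neg fun h => hx3 ((h1 _ hx).1 h)]
    · have hx2 : x⁻¹ * g * x ∉ N := fun h => hx (h2 h)
      rw [if_neg hx2, zero_add]
      by_cases hx3 : x⁻¹ * g * x ∈ H
      · rw [if_pos hx3, if_pos ⟨hx3, hx⟩]
      · rw [if_neg hx3, if_neg fun h => hx3 h.1]
  have d12 : d H₂ = ℓ * d H₁ := by
    have e1 : ∀ y : G, (if (y ∈ H₂ ∧ y ∉ U) then (1 : ℂ) else 0) = ∑ i ∈ Finset.range ℓ,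
        if ((w ^ i)⁻¹ * y * w ^ i ∈ H₁ ∧ (w ^ i)⁻¹ * y * w ^ i ∉ U) then (1 : ℂ) else 0 := by
      intro y
      have hcc : ∀ i : ℕ, ((w ^ i)⁻¹ * y * w ^ i ∈ U ↔ y ∈ U) := by
        intro i
        have hwi := U.pow_mem hwU i
        rw [U.mul_mem_cancel_right hwi, U.mul_mem_cancel_left (U.inv_mem hwi)]
      by_cases hyU : y ∈ U
      · rw [if_neg fun h => h.2 hyU]
        symm
        exact Finset.sum_eq_zero fun i _ => if_neg fun h => h.2 ((hcc i).2 hyU)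
      · by_cases hy2 : y ∈ H₂
        · rw [if_pos ⟨hy2, hyU⟩]
          obtain ⟨b, hb, h1⟩ := key y hyU hy2
          rw [Finset.sum_eq_single b]
          · rw [if_pos ⟨(h1 b hb).2 rfl, fun h => hyU ((hcc b).1 h)⟩]
          · intro i hi hib
            exact if_neg fun h => hib ((h1 i (Finset.mem_range.1 hi)).1 h.1)
          · intro h
            exact (h (Finset.mem_range.2 hb)).elim
        · rw [if_neg fun h => hy2 h.1]
          symm
          refine Finset.sum_eq_zero fun i _ => if_neg fun h => hy2 ?_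
          have h1 := hH12 h.1
          have hwi := H₂.pow_mem hwH2 i
          rwa [H₂.mul_mem_cancel_right hwi, H₂.mul_mem_cancel_left (H₂.inv_mem hwi)] at h1
    rw [hd]
    beta_reduce
    rw [Finset.sum_congr rfl fun x _ => e1 (x⁻¹ * g * x), Finset.sum_comm]
    have e2 : ∀ i ∈ Finset.range ℓ, (∑ x : G,
        if ((w ^ i)⁻¹ * (x⁻¹ * g * x) * w ^ i ∈ H₁ ∧ (w ^ i)⁻¹ * (x⁻¹ * g * x) * w ^ i ∉ U)
          then (1 : ℂ) else 0) = ∑ x : G,
        if (x⁻¹ * g * x ∈ H₁ ∧ x⁻¹ * g * x ∉ U) then (1 : ℂ) else 0 := by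
      intro i _
      refine Fintype.sum_equiv (Equiv.mulRight (w ^ i)) _ _ fun x => ?_
      have e3 : (w ^ i)⁻¹ * (x⁻¹ * g * x) * w ^ i
          = ((Equiv.mulRight (w ^ i)) x)⁻¹ * g * (Equiv.mulRight (w ^ i)) x := by
        rw [Equiv.coe_mulRight, mul_inv_rev]
        group
      rw [e3]
    rw [Finset.sum_congr rfl e2, Finset.sum_const, Finset.card_range, nsmul_eq_mul]
  have c1 := cd N₁ H₁ (by rw [hH₁]; exact hHU N₁ hc1 le_rfl hN1U) hN1U
  have c2 := cd N₂ H₂ (by rw [hH₂]; exact hHU N₂ hc2 hN12 hN2U) hN2U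
  -- the right side
  have hR : ∑ s ∈ (Finset.range (ℓ ^ (j + 1))).filter (fun s => (ℓ ^ (j + 1)).Coprime s),
      indFun U (extZ (ψ ^ s)) g
      = (((ℓ ^ (j + 1) : ℕ) : ℂ) * cS g N₁ - ((ℓ ^ j : ℕ) : ℂ) * cS g N₂) / (Nat.card U : ℂ) := by
    unfold indFun
    rw [← Finset.sum_div, Finset.sum_comm]
    congr 1
    unfold cS
    rw [Finset.mul_sum, Finset.mul_sum, ← Finset.sum_sub_distrib]
    refine Finset.sum_congr rfl fun x _ => ?_
    by_cases hx : x⁻¹ * g * x ∈ U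
    · have e1 : ∀ s ∈ (Finset.range (ℓ ^ (j + 1))).filter (fun s => (ℓ ^ (j + 1)).Coprime s),
          (if x⁻¹ * g * x ∈ U then extZ (ψ ^ s) (x⁻¹ * g * x) else 0) = f (x⁻¹ * g * x) ^ s := by
        intro s _
        rw [if_pos hx, f_in _ hx]
        unfold extZ
        rw [dif_pos hx, MonoidHom.pow_apply, Units.val_pow_eq_pow_val]
      rw [Finset.sum_congr rfl e1, sumEx ℓ j hl _ (f_n _ hx)]
      have e2 : (if f (x⁻¹ * g * x) = 1 then ((ℓ ^ (j + 1) : ℕ) : ℂ) else 0)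
          = ((ℓ ^ (j + 1) : ℕ) : ℂ) * (if x⁻¹ * g * x ∈ N₁ then 1 else 0) := by
        by_cases h1 : f (x⁻¹ * g * x) = 1
        · rw [if_pos h1, if_pos ((hN₁ _).2 ⟨hx, h1⟩), mul_one]
        · rw [if_neg h1, if_neg fun h => h1 ((hN₁ _).1 h).2, mul_zero]
      have e3 : (if f (x⁻¹ * g * x) ^ ℓ = 1 then ((ℓ ^ j : ℕ) : ℂ) else 0)
          = ((ℓ ^ j : ℕ) : ℂ) * (if x⁻¹ * g * x ∈ N₂ then 1 else 0) := by
        by_cases h1 : f (x⁻¹ * g * x) ^ ℓ = 1
        · rw [if_pos h1, if_pos ((hN₂ _).2 ⟨hx, h1⟩), mul_one]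
        · rw [if_neg h1, if_neg fun h => h1 ((hN₂ _).1 h).2, mul_zero]
      rw [e2, e3]
    · have e1 : ∀ s ∈ (Finset.range (ℓ ^ (j + 1))).filter (fun s => (ℓ ^ (j + 1)).Coprime s),
          (if x⁻¹ * g * x ∈ U then extZ (ψ ^ s) (x⁻¹ * g * x) else 0) = 0 := by
        intro s _
        rw [if_neg hx]
      rw [Finset.sum_congr rfl e1, Finset.sum_const_zero, if_neg fun h => hx (hN1U h),
        if_neg fun h => hx (hN2U h), mul_zero, mul_zero, sub_zero]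
  have hm0 : (m : ℂ) ≠ 0 := Nat.cast_ne_zero.2 hm.ne'
  have hl0 : (ℓ : ℂ) ≠ 0 := Nat.cast_ne_zero.2 hl.ne_zero
  have hN0 : (Nat.card N₁ : ℂ) ≠ 0 := Nat.cast_ne_zero.2 Nat.card_pos.ne'
  rw [hR, ind_one, ind_one, c1, c2, d12, cU]
  have k1 : Nat.card H₁ = m * Nat.card N₁ := by rw [hH₁]; exact cH N₁ hc1 le_rfl hN1U
  have k2 : Nat.card H₂ = m * Nat.card N₂ := by rw [hH₂]; exact cH N₂ hc2 hN12 hN2U
  rw [k1, k2, cN2]
  push_cast
  have hlj : (ℓ : ℂ) ^ j ≠ 0 := pow_ne_zero _ hl0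
  rw [pow_succ]
  field_simp
  ring

theorem FGM_thm : Stmt_FGM := by
  intro G _ _ ℓ k U ψ h t m hl hk _ hord hm hcj hhm hdiv hnt
  exact FGN_thm G ℓ k U ψ h t m hl hk hord hm hcj hhm hdiv hnt

end StarkC.ABS
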