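import Pool.Agent.ABS.StG1

/-!
# ABS, module FGT (helper89): the complement
-/

set_option autoImplicit false

open scoped Classical

namespace StarkC.ABS

namespace FGTx

variable {G : Type} [Group G] {U : Subgroup G} {ψ : U →* ℂˣ}

lemma extZ_mem {u : G} (hu : u ∈ U) : extZ ψ u = ((ψ ⟨u, hu⟩ : ℂˣ) : ℂ) := by
  unfold extZ
  rw [dif_pos hu]

lemma conj_mem (hU : U.Normal) (g : G) {u : G} (hu : u ∈ U) : g⁻¹ * u * g ∈ U := by
  have := hU.conj_mem u hu g⁻¹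
  rwa [inv_inv] at this

lemma cj_iff (hU : U.Normal) (g : G) (t : ℕ) : cj ψ g t ↔
    ∀ (u : G) (hu : u ∈ U), ψ ⟨g⁻¹ * u * g, conj_mem hU g hu⟩ = ψ ⟨u, hu⟩ ^ t := by
  unfold cj
  refine forall_congr' fun u => forall_congr' fun hu => ?_
  rw [extZ_mem (conj_mem hU g hu), extZ_mem hu, ← Units.val_pow_eq_pow_val]
  exact ⟨fun h => Units.ext h, fun h => congrArg _ h⟩

lemma cj_one : cj ψ 1 1 := by
  intro u _
  simp

lemma cj_mul (hU : U.Normal) {g h : G} {s t : ℕ} (hg : cj ψ g s) (hh : cj ψ h t) :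
    cj ψ (g * h) (s * t) := by
  intro u hu
  have h1 := hh (g⁻¹ * u * g) (conj_mem hU g hu)
  rw [hg u hu, ← pow_mul] at h1
  rw [← h1]
  congr 1
  group

lemma cj_pow (hU : U.Normal) {g : G} {t : ℕ} (hg : cj ψ g t) (j : ℕ) :
    cj ψ (g ^ j) (t ^ j) := by
  induction j with
  | zero =>
    rw [pow_zero, pow_zero]
    exact cj_one
  | succ j ih =>
    rw [pow_succ, pow_succ]
    exact cj_mul hU ih hg

lemma pw {n : ℕ} (ho : orderOf ψ = n) (u : U) : ψ u ^ n = 1 := by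
  have h3 : ψ ^ n = 1 := by
    rw [← ho]
    exact pow_orderOf_eq_one ψ
  exact DFunLike.congr_fun h3 u

lemma dv {n : ℕ} (ho : orderOf ψ = n) {j : ℕ} (h : ∀ u, ψ u ^ j = 1) : n ∣ j := by
  rw [← ho]
  exact orderOf_dvd_of_pow_eq_one (MonoidHom.ext h)

lemma modEq_aux {n : ℕ} (ho : orderOf ψ = n) {s t : ℕ} (hst : s ≤ t)
    (h : ∀ u, ψ u ^ s = ψ u ^ t) : s ≡ t [MOD n] := by
  rw [Nat.modEq_iff_dvd' hst]
  refine dv ho fun u => ?_
  have h1 : ψ u ^ s * ψ u ^ (t - s) = ψ u ^ s * 1 := by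
    rw [← pow_add, Nat.add_sub_cancel' hst, mul_one]
    exact (h u).symm
  exact mul_left_cancel h1

lemma modEq {n : ℕ} (ho : orderOf ψ = n) {s t : ℕ} (h : ∀ u, ψ u ^ s = ψ u ^ t) :
    s ≡ t [MOD n] := by
  rcases le_total s t with h1 | h1
  · exact modEq_aux ho h1 h
  · exact (modEq_aux ho h1 fun u => (h u).symm).symm

lemma pow_eq (hU : U.Normal) {g : G} {s t : ℕ} (h : cj ψ g s) (h' : cj ψ g t) (u : U) :
    ψ u ^ s = ψ u ^ t := by
  have h1 := (cj_iff hU g s).1 h u.1 u.2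
  have h2 := (cj_iff hU g t).1 h' u.1 u.2
  rw [h1] at h2
  exact h2

lemma cj_congr (hU : U.Normal) {g : G} {s t : ℕ} (hst : ∀ u, ψ u ^ s = ψ u ^ t)
    (h : cj ψ g s) : cj ψ g t := by
  rw [cj_iff hU] at h ⊢
  intro u hu
  rw [h u hu]
  exact hst ⟨u, hu⟩

/-- The exponents are prime to the order. -/
lemma cop (hU : U.Normal) {n : ℕ} (hn : 0 < n) (ho : orderOf ψ = n) {g : G} {t : ℕ}
    (h : cj ψ g t) : t.Coprime n := by
  rw [cj_iff hU] at h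
  obtain ⟨d, hd⟩ : ∃ d, d = t.gcd n := ⟨_, rfl⟩
  have hd0 : 0 < d := by
    rw [hd]
    exact Nat.gcd_pos_of_pos_right t hn
  obtain ⟨a, ha⟩ : d ∣ t := by
    rw [hd]
    exact Nat.gcd_dvd_left t n
  obtain ⟨b, hb⟩ : d ∣ n := by
    rw [hd]
    exact Nat.gcd_dvd_right t n
  have key : ∀ v : U, ψ v ^ b = 1 := by
    intro v
    have hm : g * v.1 * g⁻¹ ∈ U := hU.conj_mem v.1 v.2 g
    have h1 := h (g * v.1 * g⁻¹) hm
    have h2 : (⟨g⁻¹ * (g * v.1 * g⁻¹) * g, conj_mem hU g hm⟩ : U) = v := by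
      apply Subtype.ext
      show g⁻¹ * (g * v.1 * g⁻¹) * g = v.1
      group
    rw [h2] at h1
    have h4 : t * b = n * a := by
      rw [ha, hb]
      ring
    rw [h1, ← pow_mul, h4, pow_mul, pw ho, one_pow]
  have h1 := dv ho key
  have hb0 : 0 < b := by
    rcases Nat.eq_zero_or_pos b with h2 | h2
    · rw [h2, mul_zero] at hb
      omega
    · exact h2
  have h2 := Nat.le_of_dvd hb0 h1
  have h3 : d = 1 := by
    have h5 : d * b ≤ 1 * b := by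
      rw [← hb, one_mul]
      exact h2
    have := Nat.le_of_mul_le_mul_right h5 hb0
    omega
  rw [Nat.Coprime, ← hd, h3]

variable [Fintype G]

/-- The group of the `g` which multiply `ψ` by an exponent. -/
def T (hU : U.Normal) (ψ : U →* ℂˣ) : Subgroup G where
  carrier := {g | ∃ t, cj ψ g t}
  mul_mem' := by
    rintro g h ⟨s, hs⟩ ⟨t, ht⟩
    exact ⟨s * t, cj_mul hU hs ht⟩
  one_mem' := ⟨1, cj_one⟩
  inv_mem' := by
    rintro g ⟨t, ht⟩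
    refine ⟨t ^ (orderOf g - 1), ?_⟩
    have h1 : g⁻¹ = g ^ (orderOf g - 1) := by
      apply inv_eq_of_mul_eq_one_left
      rw [← pow_succ, Nat.sub_add_cancel (orderOf_pos g), pow_orderOf_eq_one]
    rw [h1]
    exact cj_pow hU ht _

/-- The homomorphism `τ`. -/
lemma exTau (hU : U.Normal) {n : ℕ} (hn : 0 < n) (ho : orderOf ψ = n) :
    ∃ τ : T hU ψ →* (ZMod n)ˣ, ∀ (g : T hU ψ) (t : ℕ),
      cj ψ (g : G) t ↔ ((τ g : (ZMod n)ˣ) : ZMod n) = t := by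
  choose f hf using fun g : T hU ψ => g.2
  have hc : ∀ g, (f g).Coprime n := fun g => cop hU hn ho (hf g)
  have key : ∀ (g : T hU ψ) (t : ℕ), cj ψ (g : G) t ↔
      ((ZMod.unitOfCoprime (f g) (hc g) : (ZMod n)ˣ) : ZMod n) = t := by
    intro g t
    rw [ZMod.coe_unitOfCoprime, ZMod.natCast_eq_natCast_iff]
    constructor
    · intro h
      exact modEq ho (pow_eq hU (hf g) h)
    · intro h
      exact cj_congr hU (fun u => pow_eq_pow_of_modEq h (pw ho u)) (hf g)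
  refine ⟨MonoidHom.mk' (fun g => ZMod.unitOfCoprime (f g) (hc g)) ?_, key⟩
  intro a b
  apply Units.ext
  have h1 := (key (a * b) (f a * f b)).1 (cj_mul hU (hf a) (hf b))
  rw [h1, Units.val_mul, ZMod.coe_unitOfCoprime, ZMod.coe_unitOfCoprime, Nat.cast_mul]

end FGTx

open FGTx in
theorem FGT_thm : Stmt_FGT := by
  intro G _ _ ℓ k U ψ hℓ hℓ2 hk hU hidx ho hst
  have hn : 0 < ℓ ^ k := pow_pos hℓ.pos k
  have : NeZero (ℓ ^ k) := ⟨hn.ne'⟩
  have hfact : Fact ℓ.Prime := ⟨hℓ⟩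
  obtain ⟨τ, hτ⟩ := exTau hU hn ho
  -- the kernel
  have hUT : U ≤ T hU ψ := by
    intro g hg
    refine ⟨1, (cj_iff hU g 1).2 fun u hu => ?_⟩
    have h1 : (⟨g⁻¹ * u * g, conj_mem hU g hu⟩ : U) = ⟨g, hg⟩⁻¹ * ⟨u, hu⟩ * ⟨g, hg⟩ := rfl
    rw [h1, map_mul, map_mul, map_inv, pow_one, mul_comm, mul_inv_cancel_left]
  have hker : ∀ g : T hU ψ, τ g = 1 ↔ (g : G) ∈ U := by
    intro g
    constructor
    · intro h
      apply hst
      rw [hτ, h]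
      simp
    · intro h
      have h1 : cj ψ (g : G) 1 := (cj_iff hU _ 1).2 fun u hu => by
        have h1 : (⟨(g : G)⁻¹ * u * g, conj_mem hU g hu⟩ : U) =
          ⟨g, h⟩⁻¹ * ⟨u, hu⟩ * ⟨g, h⟩ := rfl
        rw [h1, map_mul, map_mul, map_inv, pow_one, mul_comm, mul_inv_cancel_left]
      rw [hτ] at h1
      apply Units.ext
      rw [h1]
      simp
  have hkr : τ.ker = U.subgroupOf (T hU ψ) := by
    ext g
    rw [MonoidHom.mem_ker, Subgroup.mem_subgroupOf, hker]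
  -- the order of the image
  obtain ⟨m, hm⟩ : ∃ m : ℕ, m = Nat.card τ.range := ⟨_, rfl⟩
  have hm0 : 0 < m := by
    rw [hm]
    exact Nat.card_pos
  have hmi : m ∣ U.index := by
    have h1 : m = U.relIndex (T hU ψ) := by
      rw [hm, Subgroup.relIndex, ← hkr]
      exact (Subgroup.index_ker τ).symm
    rw [h1, ← Subgroup.relIndex_mul_index hUT]
    exact dvd_mul_right _ _
  have hcop : Nat.Coprime m ℓ := by
    rw [Nat.coprime_comm, hℓ.coprime_iff_not_dvd]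
    exact fun h => hidx (h.trans hmi)
  -- the generator
  have hcyc : IsCyclic (ZMod (ℓ ^ k))ˣ := ZMod.isCyclic_units_of_prime_pow ℓ hℓ hℓ2 k
  have hcyc2 : IsCyclic τ.range := inferInstance
  obtain ⟨γ, hγ⟩ := hcyc2.exists_generator
  have hγo : orderOf (γ : (ZMod (ℓ ^ k))ˣ) = m := by
    rw [Subgroup.orderOf_coe, hm]
    exact orderOf_eq_card_of_forall_mem_zpowers hγ
  obtain ⟨h₀, hh₀⟩ := γ.2
  have hcn : Nat.Coprime m (ℓ ^ k) := Nat.Coprime.pow_right k hcop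
  obtain ⟨c, hc⟩ : ∃ c : ℕ, ℓ ^ k * c ≡ 1 [MOD m] := by
    obtain ⟨y, hy⟩ := (ZMod.unitOfCoprime (ℓ ^ k) hcn.symm).isUnit.exists_right_inv
    have hmz : NeZero m := ⟨hm0.ne'⟩
    refine ⟨y.val, ?_⟩
    rw [← ZMod.natCast_eq_natCast_iff, Nat.cast_mul, ZMod.natCast_zmod_val, Nat.cast_one]
    rw [ZMod.coe_unitOfCoprime] at hy
    exact hy
  have hτm : τ (h₀ ^ m) = 1 := by
    rw [map_pow, hh₀, ← hγo, pow_orderOf_eq_one]
  have hhm : ((h₀ : G)) ^ m ∈ U := by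
    have := (hker (h₀ ^ m)).1 hτm
    exact this
  have hτh : τ (h₀ ^ (ℓ ^ k * c)) = (γ : (ZMod (ℓ ^ k))ˣ) := by
    rw [map_pow, hh₀]
    nth_rewrite 2 [← pow_one (γ : (ZMod (ℓ ^ k))ˣ)]
    rw [pow_eq_pow_iff_modEq, hγo]
    exact hc
  refine ⟨((h₀ ^ (ℓ ^ k * c) : T hU ψ) : G), ((γ : (ZMod (ℓ ^ k))ˣ) : ZMod (ℓ ^ k)).val, m, hm0,
    ?_, ?_, ?_, ?_, ?_⟩
  · rw [hτ, hτh, ZMod.natCast_zmod_val]
  · have h1 : (((h₀ ^ (ℓ ^ k * c) : T hU ψ) : G)) ^ m = (((h₀ : G)) ^ m) ^ (ℓ ^ k * c) := by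
      rw [Subgroup.coe_pow, ← pow_mul, ← pow_mul, mul_comm]
    rw [h1, extZ_mem (U.pow_mem hhm _)]
    have h2 : (⟨(((h₀ : G)) ^ m) ^ (ℓ ^ k * c), U.pow_mem hhm _⟩ : U) =
      (⟨((h₀ : G)) ^ m, hhm⟩ : U) ^ (ℓ ^ k * c) := rfl
    rw [h2, map_pow, pow_mul]
    have h3 : ψ ^ (ℓ ^ k) = 1 := by
      rw [← ho]
      exact pow_orderOf_eq_one ψ
    have h4 := DFunLike.congr_fun h3 (⟨((h₀ : G)) ^ m, hhm⟩ : U)
    have h5 : ψ (⟨((h₀ : G)) ^ m, hhm⟩ : U) ^ (ℓ ^ k) = 1 := h4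
    rw [h5, one_pow]
    rfl
  · intro i hi
    have h1 : (((h₀ ^ (ℓ ^ k * c)) ^ i : T hU ψ) : G) ∈ U := hi
    rw [← hker, map_pow, hτh] at h1
    rw [← hγo]
    exact orderOf_dvd_of_pow_eq_one h1
  · intro i hi him h
    have h1 : (ℓ : ℤ) ∣ ((((γ : (ZMod (ℓ ^ k))ˣ) : ZMod (ℓ ^ k)).val ^ i : ℕ) : ℤ) - 1 := by
      have := (Nat.modEq_iff_dvd.1 h.symm)
      simpa using this
    have h2 := dvd_sub_pow_of_dvd_sub h1 (k - 1)
    rw [Nat.sub_add_cancel hk, one_pow] at h2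
    have h3 : (γ : (ZMod (ℓ ^ k))ˣ) ^ (i * ℓ ^ (k - 1)) = 1 := by
      apply Units.ext
      have h4 : (((((((γ : (ZMod (ℓ ^ k))ˣ) : ZMod (ℓ ^ k)).val ^ i : ℕ) : ℤ) ^ ℓ ^ (k - 1) - 1 : ℤ)) :
          ZMod (ℓ ^ k)) = 0 := by
        rw [ZMod.intCast_zmod_eq_zero_iff_dvd]
        exact_mod_cast h2
      push_cast at h4
      rw [ZMod.natCast_zmod_val, ← pow_mul, sub_eq_zero] at h4
      rw [Units.val_pow_eq_pow_val, h4, Units.val_one]
    have h5 : m ∣ i * ℓ ^ (k - 1) := by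
      rw [← hγo]
      exact orderOf_dvd_of_pow_eq_one h3
    have h6 : m ∣ i := (Nat.Coprime.pow_right (k - 1) hcop).dvd_of_dvd_mul_right h5
    exact absurd (Nat.le_of_dvd hi h6) (not_le.2 him)
  · rw [hm, Nat.card_eq_fintype_card, Fintype.card_subtype]
    refine Finset.card_bij (fun a _ => ((a : (ZMod (ℓ ^ k))ˣ) : ZMod (ℓ ^ k)).val) ?_ ?_ ?_
    · intro a ha
      rw [Finset.mem_filter] at ha
      obtain ⟨g, hg⟩ := ha.2
      rw [Finset.mem_filter, Finset.mem_filter, Finset.mem_range]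
      refine ⟨⟨ZMod.val_lt _, (ZMod.val_coe_unit_coprime a).symm⟩, (g : G), ?_⟩
      rw [hτ, ZMod.natCast_zmod_val, hg]
    · intro a _ b _ hab
      exact Units.ext (ZMod.val_injective _ hab)
    · intro s hs
      rw [Finset.mem_filter, Finset.mem_filter, Finset.mem_range] at hs
      obtain ⟨⟨hs1, -⟩, g, hg⟩ := hs
      refine ⟨τ ⟨g, s, hg⟩, ?_, ?_⟩
      · rw [Finset.mem_filter]
        exact ⟨Finset.mem_univ _, ⟨⟨g, s, hg⟩, rfl⟩⟩
      · have h1 := (hτ ⟨g, s, hg⟩ s).1 hg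
        rw [h1, ZMod.val_natCast, Nat.mod_eq_of_lt hs1]

end StarkC.ABS
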