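import Pool.Agent.ABS.StG4

/-!
# Module FI5: permutation characters of `A_5`
-/

set_option autoImplicit false

open scoped Classical

namespace StarkC.ABS

namespace FI5x

/-- the cycle `(0 1 2)` -/
def c3 : A5 := ⟨Equiv.swap 0 1 * Equiv.swap 1 2, by
  rw [Equiv.Perm.mem_alternatingGroup]
  decide⟩

/-- fixes `4` -/
def pA (y : A5) : Prop := y.1 4 = 4

/-- normalises `g5` -/
def pD (y : A5) : Prop := y⁻¹ * g5 * y = g5 ∨ y⁻¹ * g5 * y = g5⁻¹

/-- a power of `c3` -/
def pT (y : A5) : Prop := y = 1 ∨ y = c3 ∨ y = c3⁻¹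

/-- `pD`, by values -/
def qD (y : A5) : Prop := (∀ i : Fin 5, y.1 (i + 1) = y.1 i + 1) ∨ ∀ i : Fin 5, y.1 (i + 1) + 1 = y.1 i

/-- `pT`, by values -/
def qT (y : A5) : Prop := y.1 4 = 4 ∧ y.1 3 = 3

instance : DecidablePred pA := fun y => inferInstanceAs (Decidable (y.1 4 = 4))
instance : DecidablePred pD := fun y =>
  inferInstanceAs (Decidable (y⁻¹ * g5 * y = g5 ∨ y⁻¹ * g5 * y = g5⁻¹))
instance : DecidablePred pT := fun y => inferInstanceAs (Decidable (y = 1 ∨ y = c3 ∨ y = c3⁻¹))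

instance : DecidablePred qD := fun y =>
  inferInstanceAs (Decidable ((∀ i : Fin 5, y.1 (i + 1) = y.1 i + 1) ∨
    ∀ i : Fin 5, y.1 (i + 1) + 1 = y.1 i))
instance : DecidablePred qT := fun y => inferInstanceAs (Decidable (y.1 4 = 4 ∧ y.1 3 = 3))

def sA : Subgroup A5 where
  carrier := {y | pA y}
  mul_mem' := by
    intro a b ha hb
    change (a * b).1 4 = 4
    have h1 : a.1 4 = 4 := ha
    have h2 : b.1 4 = 4 := hb
    rw [Subgroup.coe_mul, Equiv.Perm.mul_apply, h2, h1]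
  one_mem' := rfl
  inv_mem' := by
    intro a ha
    have h1 : a.1 4 = 4 := ha
    change (a⁻¹).1 4 = 4
    rw [Subgroup.coe_inv, Equiv.Perm.inv_eq_iff_eq]
    exact h1.symm

def sD : Subgroup A5 where
  carrier := {y | pD y}
  mul_mem' := by
    intro a b ha hb
    have e : (a * b)⁻¹ * g5 * (a * b) = b⁻¹ * (a⁻¹ * g5 * a) * b := by group
    have e2 : b⁻¹ * g5⁻¹ * b = (b⁻¹ * g5 * b)⁻¹ := by group
    change (a * b)⁻¹ * g5 * (a * b) = g5 ∨ (a * b)⁻¹ * g5 * (a * b) = g5⁻¹
    rw [e]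
    rcases ha with h1 | h1 <;> rcases hb with h2 | h2 <;> rw [h1]
    · exact Or.inl h2
    · exact Or.inr h2
    · rw [e2, h2]
      exact Or.inr rfl
    · rw [e2, h2, inv_inv]
      exact Or.inl rfl
  one_mem' := Or.inl (by group)
  inv_mem' := by
    intro a ha
    change (a⁻¹)⁻¹ * g5 * a⁻¹ = g5 ∨ (a⁻¹)⁻¹ * g5 * a⁻¹ = g5⁻¹
    rw [inv_inv]
    rcases ha with h1 | h1
    · left
      calc a * g5 * a⁻¹ = a * (a⁻¹ * g5 * a) * a⁻¹ := by rw [h1]
        _ = g5 := by group
    · right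
      calc a * g5 * a⁻¹ = a * (a⁻¹ * g5 * a)⁻¹ * a⁻¹ := by rw [h1, inv_inv]
        _ = g5⁻¹ := by group

theorem c3_cube : c3 * c3 = c3⁻¹ := by decide +kernel

def sT : Subgroup A5 where
  carrier := {y | pT y}
  mul_mem' := by
    intro a b ha hb
    change a * b = 1 ∨ a * b = c3 ∨ a * b = c3⁻¹
    have e : c3⁻¹ * c3⁻¹ = c3 := by
      rw [← mul_inv_rev, c3_cube, inv_inv]
    rcases ha with h1 | h1 | h1 <;> rcases hb with h2 | h2 | h2 <;> rw [h1, h2]
    · left; simp
    · right; left; simp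
    · right; right; simp
    · right; left; simp
    · right; right; exact c3_cube
    · left; simp
    · right; right; simp
    · left; simp
    · right; left; exact e
  one_mem' := Or.inl rfl
  inv_mem' := by
    intro a ha
    change a⁻¹ = 1 ∨ a⁻¹ = c3 ∨ a⁻¹ = c3⁻¹
    rcases ha with h1 | h1 | h1 <;> rw [h1]
    · left; simp
    · right; right; rfl
    · right; left; simp

set_option maxRecDepth 100000 in
theorem eD : ∀ y : A5, pD y ↔ qD y := by decide +kernel
set_option maxRecDepth 100000 in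
theorem eT : ∀ y : A5, pT y ↔ qT y := by decide +kernel

/-- the number of the conjugates -/
def N (p : A5 → Prop) [DecidablePred p] (g : A5) : ℕ :=
  (Finset.univ.filter (fun x : A5 => p (x⁻¹ * g * x))).card

set_option maxRecDepth 100000 in
theorem A1 : N pA 1 = 60 := by decide +kernel
set_option maxRecDepth 100000 in
theorem D1 : N qD 1 = 60 := by decide +kernel
set_option maxRecDepth 100000 in
theorem T1 : N qT 1 = 60 := by decide +kernel
set_option maxRecDepth 100000 in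
theorem A2 : ∀ g : A5, g ≠ 1 → g ^ 2 = 1 → N pA g = 12 := by decide +kernel
set_option maxRecDepth 100000 in
theorem D2 : ∀ g : A5, g ≠ 1 → g ^ 2 = 1 → N qD g = 20 := by decide +kernel
set_option maxRecDepth 100000 in
theorem T2 : ∀ g : A5, g ≠ 1 → g ^ 2 = 1 → N qT g = 0 := by decide +kernel
set_option maxRecDepth 100000 in
theorem A3 : ∀ g : A5, g ≠ 1 → g ^ 3 = 1 → N pA g = 24 := by decide +kernel
set_option maxRecDepth 100000 in
theorem D3 : ∀ g : A5, g ≠ 1 → g ^ 3 = 1 → N qD g = 0 := by decide +kernel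
set_option maxRecDepth 100000 in
theorem T3 : ∀ g : A5, g ≠ 1 → g ^ 3 = 1 → N qT g = 6 := by decide +kernel
set_option maxRecDepth 100000 in
theorem A5' : ∀ g : A5, g ≠ 1 → g ^ 5 = 1 → N pA g = 0 := by decide +kernel
set_option maxRecDepth 100000 in
theorem D5' : ∀ g : A5, g ≠ 1 → g ^ 5 = 1 → N qD g = 10 := by decide +kernel
set_option maxRecDepth 100000 in
theorem T5' : ∀ g : A5, g ≠ 1 → g ^ 5 = 1 → N qT g = 0 := by decide +kernel

set_option maxRecDepth 100000 in
theorem cA : (Finset.univ.filter pA).card = 12 := by decide +kernel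
set_option maxRecDepth 100000 in
theorem cD : (Finset.univ.filter qD).card = 10 := by decide +kernel
set_option maxRecDepth 100000 in
theorem cT : (Finset.univ.filter qT).card = 3 := by decide +kernel

theorem ind_eq (H : Subgroup A5) (p : A5 → Prop) [DecidablePred p] (hH : ∀ y, y ∈ H ↔ p y) (c : ℕ)
    (hc : (Finset.univ.filter p).card = c) (g : A5) :
    indFun H (fun _ => 1) g = (N p g : ℂ) / c := by
  have h1 : Nat.card H = c := by
    rw [← hc, Nat.card_eq_fintype_card, ← Fintype.card_subtype]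
    exact Fintype.card_congr (Equiv.subtypeEquivRight hH)
  unfold indFun
  rw [h1, Finset.sum_boole]
  congr 2
  unfold N
  congr 1
  ext x
  simp only [Finset.mem_filter, Finset.mem_univ, true_and, hH]

end FI5x

open FI5x in
theorem FI5_thm : Stmt_FI5 := by
  have hA := ind_eq sA pA (fun _ => Iff.rfl) 12 cA
  have hD := ind_eq sD qD eD 10 cD
  have hT := ind_eq sT qT eT 3 cT
  refine ⟨sA, sD, sT, ⟨?_, ?_, ?_⟩, fun g h1 h2 => ⟨?_, ?_, ?_⟩, fun g h1 h2 => ⟨?_, ?_, ?_⟩,
    fun g h1 h2 => ⟨?_, ?_, ?_⟩⟩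
  · rw [hA, A1]; norm_num
  · rw [hD, D1]; norm_num
  · rw [hT, T1]; norm_num
  · rw [hA, A2 g h1 h2]; norm_num
  · rw [hD, D2 g h1 h2]; norm_num
  · rw [hT, T2 g h1 h2]; norm_num
  · rw [hA, A3 g h1 h2]; norm_num
  · rw [hD, D3 g h1 h2]; norm_num
  · rw [hT, T3 g h1 h2]; norm_num
  · rw [hA, A5' g h1 h2]; norm_num
  · rw [hD, D5' g h1 h2]; norm_num
  · rw [hT, T5' g h1 h2]; norm_num

end StarkC.ABS
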