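import Pool.Agent.ABS.StB
import Pool.Agent.StarkU.FAITH

/-!
# Project ABS, module FINA: all characters, all `S`, all `φ`
-/

open NumberField IsDedekindDomain
open scoped TensorProduct Classical

namespace StarkC.ABS

namespace FINAx

theorem order_inj {G : Type} [Group G] [Finite G] (ψ : G →* ℂˣ) (h : Function.Injective ψ) :
    orderOf ψ = Nat.card G := by
  have hc : IsCyclic G := isCyclic_of_injective_ringHom ((Units.coeHom ℂ).comp ψ)
    (fun a b hab => h (Units.ext hab))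
  rw [← IsCyclic.exponent_eq_card]
  apply Nat.dvd_antisymm
  · rw [orderOf_dvd_iff_pow_eq_one]
    refine MonoidHom.ext fun g => ?_
    rw [MonoidHom.pow_apply, ← map_pow, Monoid.pow_exponent_eq_one, map_one]
    rfl
  · rw [Monoid.exponent_dvd_iff_forall_pow_eq_one]
    intro g
    apply h
    rw [map_pow, map_one, ← MonoidHom.pow_apply, pow_orderOf_eq_one]
    rfl

theorem order_comp {G H : Type} [Group G] [Group H] (f : G →* H) (hf : Function.Surjective f)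
    (ψ : G →* ℂˣ) (ψ' : H →* ℂˣ) (h : ∀ g, ψ' (f g) = ψ g) : orderOf ψ' = orderOf ψ := by
  apply Nat.dvd_antisymm
  · rw [orderOf_dvd_iff_pow_eq_one]
    refine MonoidHom.ext fun a => ?_
    obtain ⟨g, rfl⟩ := hf a
    rw [MonoidHom.pow_apply, h, ← MonoidHom.pow_apply, pow_orderOf_eq_one]
    rfl
  · rw [orderOf_dvd_iff_pow_eq_one]
    refine MonoidHom.ext fun g => ?_
    rw [MonoidHom.pow_apply, ← h, ← MonoidHom.pow_apply, pow_orderOf_eq_one]
    rfl

/-- induction on `S` -/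
theorem allS (h1 : Stmt_FIXC) (h2 : Stmt_SIGT) (h3 : Stmt_NORMT) (h4 : Stmt_PRAT)
    (h5 : Stmt_PSTEP) (n : ℕ) (K L : Type) [Field K] [NumberField K] [Field L] [NumberField L]
    [Algebra K L] [IsGalois K L] (ψ : (L ≃ₐ[K] L) →* ℂˣ) (hn : 0 < n) (hψ : ψ ^ n = 1)
    (h : PPall n ψ (∅ : Finset (HeightOneSpectrum (𝓞 K))))
    (S : Finset (HeightOneSpectrum (𝓞 K))) : PPall n ψ S := by
  induction S using Finset.induction_on with
  | empty => exact h
  | insert v S hv ih => exact h5 h1 h2 h3 h4 n K L ψ S v hn hψ hv ih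

/-- from the faithful characters to all characters -/
theorem allψ (h1 : Stmt_FIXC) (h2 : Stmt_SIGT) (h3 : Stmt_NORMT) (h4 : Stmt_PRAT)
    (h5 : Stmt_PSTEP) (h6 : Stmt_PINF) (n : ℕ) (hn : 0 < n)
    (K : Type) [Field K] [NumberField K]
    (hB : ∀ (L : Type) [Field L] [NumberField L] [Algebra K L] [IsGalois K L]
      (ψ : (L ≃ₐ[K] L) →* ℂˣ), Nat.card (L ≃ₐ[K] L) = n → Function.Injective ψ →
      PPall n ψ (∅ : Finset (HeightOneSpectrum (𝓞 K))))
    (N : Type) [Field N] [NumberField N] [Algebra K N] [IsGalois K N]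
    (ψ : (N ≃ₐ[K] N) →* ℂˣ) (hψ : orderOf ψ = n)
    (S : Finset (HeightOneSpectrum (𝓞 K))) : PPall n ψ S := by
  have hψ1 : ψ ^ n = 1 := by rw [← hψ]; exact pow_orderOf_eq_one ψ
  refine allS h1 h2 h3 h4 h5 n K N ψ hn hψ1 ?_ S
  obtain ⟨L, _, _, _, _, _, _, ψ', hinj, hψ'⟩ := FAITH.exists_field K N ψ
  have hord : orderOf ψ' = n := by
    rw [← hψ]
    exact order_comp (AlgEquiv.restrictNormalHom L : (N ≃ₐ[K] N) →* (L ≃ₐ[K] L))
      (AlgEquiv.restrictNormalHom_surjective N) ψ ψ' hψ'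
  have hcard : Nat.card (L ≃ₐ[K] L) = n := by
    rw [← hord]
    exact (order_inj ψ' hinj).symm
  exact h6 h1 h2 h3 h4 n K L N ψ' ψ ∅ hn (by rw [← hord]; exact pow_orderOf_eq_one ψ') hψ'
    (hB L ψ' hcard hinj)

end FINAx

theorem FINA_thm : Stmt_FINA := by
  intro h1 h2 h3 h4 h5 h6 h7 h8 hB K L _ _ _ _ _ _ ℓ k ψ S hok
  have hn : 0 < ℓ ^ k := pow_pos hok.1.pos k
  have hA : ∀ (K L : Type) [Field K] [NumberField K] [Field L] [NumberField L] [Algebra K L]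
      [IsGalois K L] (ψ : (L ≃ₐ[K] L) →* ℂˣ) (S : Finset (HeightOneSpectrum (𝓞 K))),
      orderOf ψ = ℓ ^ k → PPall (ℓ ^ k) ψ S := by
    intro K L _ _ _ _ _ _ ψ S hψ
    exact FINAx.allψ h1 h2 h3 h4 h5 h6 (ℓ ^ k) hn K
      (fun L _ _ _ _ ψ hc hi => hB K L ℓ k ψ hok hc hi) L ψ hψ S
  refine ⟨hA K L ψ S, fun hℓ hψ => ?_⟩
  have hodd : Odd (ℓ ^ k) := (hok.1.odd_of_ne_two hℓ).pow
  have hn1 : 1 < ℓ ^ k := Nat.one_lt_pow hok.2.1.ne' hok.1.one_lt
  refine FINAx.allψ h1 h2 h3 h4 h5 h6 (2 * ℓ ^ k) (by omega) K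
    (fun L _ _ _ _ ψ hc hi => ?_) L ψ hψ S
  refine h8 h7 (ℓ ^ k) K L ψ hodd hn1 hc hi (fun H hH => ?_) ?_
  · refine hB (IntermediateField.fixedField H) L ℓ k _ hok ?_ ?_
    · rw [← hH]
      exact Nat.card_congr (IntermediateField.subgroupEquivAlgEquiv H).symm.toEquiv
    · intro a b hab
      have h9 : ψ (((IntermediateField.subgroupEquivAlgEquiv H).symm a : H) : L ≃ₐ[K] L) =
          ψ (((IntermediateField.subgroupEquivAlgEquiv H).symm b : H) : L ≃ₐ[K] L) := hab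
      exact (IntermediateField.subgroupEquivAlgEquiv H).symm.injective (Subtype.ext (hi h9))
  · refine hA K L (ψ ^ (ℓ ^ k + 1)) ∅ ?_
    have ho : orderOf ψ = 2 * ℓ ^ k := by rw [FINAx.order_inj ψ hi, hc]
    rw [orderOf_pow' ψ (by omega : ℓ ^ k + 1 ≠ 0), ho]
    have hg : Nat.gcd (2 * ℓ ^ k) (ℓ ^ k + 1) = 2 := by
      obtain ⟨j, hj⟩ := hodd
      rw [hj]
      have e : 2 * j + 1 + 1 = 2 * (j + 1) := by ring
      rw [e, Nat.gcd_mul_left]
      have : Nat.gcd (2 * j + 1) (j + 1) = 1 := by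
        have a1 := Nat.gcd_dvd_left (2 * j + 1) (j + 1)
        have a2 := Nat.gcd_dvd_right (2 * j + 1) (j + 1)
        have a3 : Nat.gcd (2 * j + 1) (j + 1) ∣ 2 * j + 1 + 1 := by
          rw [e]
          exact a2.mul_left 2
        exact Nat.dvd_one.1 ((Nat.dvd_add_right a1).1 a3)
      rw [this]
    rw [hg]
    omega

end StarkC.ABS
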