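import Pool.Agent.ABS.StG2

/-!
# Project ABS, module FPW: from the class of `a ^ m` to the class of `a`
-/

set_option autoImplicit false

open scoped Classical

namespace StarkC.ABS

open StarkP (rootField)

namespace FPWx

theorem vl_redK {n : ℕ} (m d : ℕ) [NeZero m] [NeZero d]
    (κ : (ZMod n)ˣ →* Multiplicative (ZMod (m * d))) (u : (ZMod n)ˣ) :
    vl (redK m d κ) u = vl κ u % d := by
  have h1 : Multiplicative.toAdd (redK m d κ u) =
      ZMod.castHom (dvd_mul_left d m) (ZMod d) (Multiplicative.toAdd (κ u)) := rfl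
  unfold vl
  rw [h1, ZMod.castHom_apply, ZMod.cast_eq_val, ZMod.val_natCast]

theorem vl_mul {n d : ℕ} [NeZero d] (κ : (ZMod n)ˣ →* Multiplicative (ZMod d))
    (u w : (ZMod n)ˣ) : vl κ (u * w) = (vl κ u + vl κ w) % d := by
  unfold vl
  rw [map_mul, toAdd_mul, ZMod.val_add]

theorem carry {m d y z : ℕ} (hd : 0 < d) :
    (y % d + z % d) / d + y / d + z / d =
      m * ((y + z) / (m * d)) + ((y + z) % (m * d)) / d := by
  have e1 : y + z = (y % d + z % d) + d * (y / d + z / d) := by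
    have h1 := Nat.mod_add_div y d
    have h2 := Nat.mod_add_div z d
    rw [Nat.mul_add]
    omega
  have e2 : y + z = (y + z) % (m * d) + d * (m * ((y + z) / (m * d))) := by
    have h1 := Nat.mod_add_div (y + z) (m * d)
    rw [← Nat.mul_assoc, Nat.mul_comm d m]
    exact h1.symm
  have e3 : (y + z) / d = (y % d + z % d) / d + (y / d + z / d) := by
    conv_lhs => rw [e1]
    exact Nat.add_mul_div_left _ _ hd
  have e4 : (y + z) / d = ((y + z) % (m * d)) / d + m * ((y + z) / (m * d)) := by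
    conv_lhs => rw [e2]
    exact Nat.add_mul_div_left _ _ hd
  omega

end FPWx

open FPWx in
theorem FPW_thm : Stmt_FPW := by
  intro n m d _ _ _ a κ ha hc
  obtain ⟨b, hb, hco⟩ := hc
  have haC : (a : ℂ) ≠ 0 := by exact_mod_cast ha
  have hmd : NeZero (m * d) := ⟨mul_ne_zero (NeZero.ne m) (NeZero.ne d)⟩
  refine ⟨fun u => b u * ((a : ℂ) ^ (vl κ u / d))⁻¹, ?_, ?_⟩
  · intro u
    have haR : (a : ℂ) ∈ rootField n := by simp
    exact ⟨mul_mem (hb u).1 (inv_mem (pow_mem haR _)),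
      mul_ne_zero (hb u).2 (inv_ne_zero (pow_ne_zero _ haC))⟩
  · intro g w
    show b (cych n g) * ((a : ℂ) ^ (vl κ (cych n g) / d))⁻¹ *
        g (b w * ((a : ℂ) ^ (vl κ w / d))⁻¹) =
      b (cych n g * w) * ((a : ℂ) ^ (vl κ (cych n g * w) / d))⁻¹ *
        (a : ℂ) ^ ((vl (redK m d κ) (cych n g) + vl (redK m d κ) w) / d)
    have h1 := hco g w
    have h2 : g (a : ℂ) = (a : ℂ) := map_ratCast g a
    have h3 := carry (m := m) (y := vl κ (cych n g)) (z := vl κ w) (Nat.pos_of_ne_zero (NeZero.ne d))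
    rw [vl_redK, vl_redK, vl_mul, map_mul, map_inv₀, map_pow, h2]
    push_cast at h1
    rw [← pow_mul] at h1
    generalize vl κ (cych n g) = y at *
    generalize vl κ w = z at *
    have h4 : (a : ℂ) ^ ((y % d + z % d) / d) * (a : ℂ) ^ (y / d) * (a : ℂ) ^ (z / d) =
        (a : ℂ) ^ (m * ((y + z) / (m * d))) * (a : ℂ) ^ (((y + z) % (m * d)) / d) := by
      rw [← pow_add, ← pow_add, ← pow_add, h3]
    have p1 : (a : ℂ) ^ (y / d) ≠ 0 := pow_ne_zero _ haC
    have p2 : (a : ℂ) ^ (z / d) ≠ 0 := pow_ne_zero _ haC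
    have p3 : (a : ℂ) ^ (((y + z) % (m * d)) / d) ≠ 0 := pow_ne_zero _ haC
    have h5 : b (cych n g) * ((a : ℂ) ^ (y / d))⁻¹ * (g (b w) * ((a : ℂ) ^ (z / d))⁻¹) =
        (b (cych n g) * g (b w)) * (((a : ℂ) ^ (y / d))⁻¹ * ((a : ℂ) ^ (z / d))⁻¹) := by ring
    rw [h5, h1]
    field_simp
    linear_combination (-(b (cych n g * w))) * h4

end StarkC.ABS
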