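import Pool.Agent.ABS.StG3

/-!
# Project ABS, module FRA: the class number formula for the base field
-/

set_option autoImplicit false

open NumberField NumberField.InfinitePlace IsDedekindDomain
open scoped Classical

namespace ABS

namespace FRAx

theorem final {d R i p : ℝ} (hR : 0 < R) (hi : 0 < i) (hp : 0 < p) (h : |d| * p = i * R) :
    d = (i / p) * R ∨ d = (-(i / p)) * R := by
  have h1 : |d| = (i / p) * R := by
    rw [div_mul_eq_mul_div, eq_div_iff hp.ne']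
    exact h
  rcases abs_choice d with h2 | h2
  · left
    rw [← h1, h2]
  · right
    rw [neg_mul, ← h1, h2, neg_neg]

end FRAx

open FRAx

theorem FRA_thm : Stmt_FRA := by
  intro hIOT hLMU hSPN hTRE hJN hJV hLG hLJ hTRF hMUL hDTC hREG1 K L _ _ _ _ _ _ Θ hΘ
  have hemp : StarkP.aboveSet K L (∅ : Set (HeightOneSpectrum (𝓞 K))) = ∅ := rfl
  rw [hemp] at hΘ
  rw [hemp]
  obtain ⟨i1, i2, i3, i4, i5, -, i7⟩ := hIOT L
  obtain ⟨T, hT1, hT2, hT3, hT4⟩ := hTRE hIOT hLMU hSPN K L Θ hΘ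
  obtain ⟨f1, f2, T', hTH⟩ := hTRF hJN hJV hLG K K L T hT2 hT3 hT4
  have hjv := (hJV hJN K L).1
  -- the determinant on the fixed part
  have hd2 : StarkP.detOn Θ (StarkP.XC L ∅ ⊓ StarkP.ABS.fixP (⊤ : Subgroup (L ≃ₐ[K] L))) =
      ((LinearMap.det T' : ℝ) : ℂ) := by
    have hfix : ∀ x : V K, ∀ b : L ≃ₐ[K] L, actf b (jf K L x) = jf K L x := by
      intro x b
      exact (f1 ⟨_, hjv _ x.2⟩).2 ⟨x, rfl⟩ b
    refine hDTC _ Θ _ (V K) (fun x => iot L (jf K L (x : InfinitePlace K → ℝ))) T'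
      (fun x y => ?_) (fun c x => ?_) (fun x => ?_) (fun w hw => ?_)
      (fun x y h => ?_) (fun x => ?_)
    · show iot L (jf K L ((x : InfinitePlace K → ℝ) + y)) = _
      rw [map_add, i1]
    · show iot L (jf K L (c • (x : InfinitePlace K → ℝ))) = _
      rw [map_smul, i2]
    · refine Submodule.mem_inf.2 ⟨i4 _ (hjv _ x.2), fun b _ => ?_⟩
      rw [i7 K b, hfix x b]
    · obtain ⟨hw1, hw2⟩ := Submodule.mem_inf.1 hw
      obtain ⟨x₀, hx₀, y₀, hy₀, h⟩ := i5 w hw1
      have hact : ∀ b : L ≃ₐ[K] L, actf b x₀ = x₀ ∧ actf b y₀ = y₀ := by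
        intro b
        have h1 := hw2 b (Subgroup.mem_top b)
        rw [h, map_add, map_smul, i7 K b, i7 K b] at h1
        have h2 : iot L (actf b x₀ - x₀) + Complex.I • iot L (actf b y₀ - y₀) = 0 := by
          have h3 : ∀ a c : InfinitePlace L → ℝ, iot L (a - c) = iot L a - iot L c := by
            intro a c
            have h4 := i1 (a - c) c
            rw [sub_add_cancel] at h4
            rw [h4, add_sub_cancel_right]
          rw [h3, h3, smul_sub]
          have h5 := sub_eq_zero.2 h1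
          rw [← h5]
          abel
        obtain ⟨h6, h7⟩ := i3 _ _ h2
        exact ⟨sub_eq_zero.1 h6, sub_eq_zero.1 h7⟩
      obtain ⟨x, hx⟩ := (f1 ⟨x₀, hx₀⟩).1 fun b => (hact b).1
      obtain ⟨y, hy⟩ := (f1 ⟨y₀, hy₀⟩).1 fun b => (hact b).2
      refine ⟨x, y, ?_⟩
      show w = iot L (jf K L x) + Complex.I • iot L (jf K L y)
      rw [hx, hy]
      exact h
    · obtain ⟨h1, h2⟩ := i3 _ _ h
      have h0 : jf K L ((0 : V K) : InfinitePlace K → ℝ) = 0 := by
        rw [Submodule.coe_zero, map_zero]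
      exact ⟨f2 x 0 (h1.trans h0.symm), f2 y 0 (h2.trans h0.symm)⟩
    · show Θ (iot L (jf K L x)) = iot L (jf K L (T' x : V K))
      have h1 := hT1 ⟨jf K L x, hjv _ x.2⟩
      rw [hTH.compat x ⟨jf K L x, hjv _ x.2⟩ rfl] at h1
      exact h1
  obtain ⟨m, hm, -, hm2⟩ := hMUL hJN hJV hLJ K K L T T' hTH
  obtain ⟨r0, r1⟩ := hREG1 K T' m hm hTH.inj' hm2
  have hm0 : (m : ℚ) ≠ 0 := by exact_mod_cast hm.ne'
  have hq : (((AddSubgroup.map ((m : ℝ) • T').toAddMonoidHom (X K)).relIndex (Lam K) : ℚ) /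
      (m : ℚ) ^ (Units.rank K)) ≠ 0 :=
    div_ne_zero (by exact_mod_cast r0) (pow_ne_zero _ hm0)
  rw [hd2]
  have h1 := final (Units.regulator_pos K)
    (by exact_mod_cast Nat.pos_of_ne_zero r0) (by positivity) r1
  rcases h1 with h1 | h1
  · refine ⟨_, hq, ?_⟩
    rw [h1]
    push_cast
    rfl
  · refine ⟨_, neg_ne_zero.2 hq, ?_⟩
    rw [h1]
    push_cast
    rfl

end ABS
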