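import Pool.Agent.ABS.StU
import Pool.Agent.ABS.COMB

/-!
# Project ABS, module PCX: combinations of induced characters, arbitrary properties of the values
(after `ABS/FCX.lean` of helper85)
-/

set_option autoImplicit false

open NumberField IsDedekindDomain
open scoped TensorProduct Classical

namespace StarkC.ABS

open COMBx

namespace PCXx

/-- the form of `VAll` for any set of primes equal to the given one -/
theorem vv_of {n : ℕ} {Q : ℂ → Prop} {K L : Type} [Field K] [NumberField K] [Field L]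
    [NumberField L] [Algebra K L] {ψ : (L ≃ₐ[K] L) →* ℂˣ}
    {S : Finset (HeightOneSpectrum (𝓞 K))} (h : VAll n Q ψ S)
    {T : Set (HeightOneSpectrum (𝓞 L))} (hT : aboveSet K L S = T)
    (φ : XQ L T ≃ₗ[ℚ] QU L T) (Θ : XC L T →ₗ[ℂ] XC L T) (hφ : IsPhiTheta K T φ Θ) :
    ∃ (F : ℂ → ℂ) (x : ℂ), IsArtinL (cSum n ψ) (S : Set (HeightOneSpectrum (𝓞 K))) F ∧
      x ≠ 0 ∧ Q x ∧ cReg n T ψ Θ = x * meromorphicTrailingCoeffAt F 0 := by
  subst hT
  exact h φ Θ hφ

end PCXx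

open PCXx

theorem PCX_thm : Stmt_PCX := by
  intro K L _ _ _ _ _ _ S φ Θ m H q ψ Q hφ hPP
  have hTf : (aboveSet K L (S : Set (HeightOneSpectrum (𝓞 K)))).Finite :=
    IND.aboveSet_finite _ S.finite_toSet
  have hT := STB_thm K L (S : Set (HeightOneSpectrum (𝓞 K)))
  have hc := ALLT.thc K L _ hT φ Θ hTf hφ
  have hb := ALLT.thb K L _ φ Θ hTf hφ
  have hex : ∀ i, ∃ (S' : Finset (HeightOneSpectrum (𝓞 (IntermediateField.fixedField (H i)))))
      (F : ℂ → ℂ) (x : ℂ), aboveSet (IntermediateField.fixedField (H i)) L S' =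
        aboveSet K L S ∧ IsArtinL (cSum (q i) (liftChar (H i) (ψ i)))
          (S' : Set (HeightOneSpectrum (𝓞 (IntermediateField.fixedField (H i))))) F ∧
        (x ≠ 0 ∧ Q i x) ∧
        cReg (q i) (aboveSet K L S) (liftChar (H i) (ψ i)) Θ =
          x * meromorphicTrailingCoeffAt F 0 := by
    intro i
    obtain ⟨S', hS'⟩ := IND.exists_S' (IntermediateField.fixedField (H i))
      (S : Set (HeightOneSpectrum (𝓞 K))) S.finite_toSet
    obtain ⟨F, x, h2, h3, h3', h4⟩ := vv_of (hPP i S') hS' φ Θ (IND.isPhiTheta_sub _ hφ)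
    exact ⟨S', F, x, hS', h2, ⟨h3, h3'⟩, h4⟩
  choose S' F x hS' hF hx hR using hex
  refine ⟨x, hx, fun c θ hθ => ?_⟩
  refine ⟨fun z => ∏ i, F i z ^ c i, ⟨?_, ?_⟩, ?_⟩
  · intro z
    exact MeromorphicAt.fun_prod fun i _ => ((hF i).1 z).fun_zpow _
  · intro s hs
    have h1 : θ = fun g => ∑ i, (c i : ℂ) *
        (fun g => ∑ t ∈ Ex (q i), indFun (H i) (extZ (ψ i ^ t)) g) g := funext hθ
    rw [h1, IND.logL_sum LA_thm ALLT.lb _ s hs m (fun i => (c i : ℂ))
      (fun i g => ∑ t ∈ Ex (q i), indFun (H i) (extZ (ψ i ^ t)) g), Complex.exp_sum]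
    refine Finset.prod_congr rfl fun i _ => ?_
    rw [(hF i).2 s hs, ← Complex.exp_int_mul, logL_ind _ s hs (q i) (H i) (ψ i) _ (hS' i)]
  · intro V _ _ _ ρ hρ
    let e : Fin (Fintype.card (Σ i : Fin m, Ex (q i))) ≃ (Σ i : Fin m, Ex (q i)) :=
      (Fintype.equivFin _).symm
    have hχ : ∀ g, ((1 : ℕ) : ℂ) * ρ.character g = ∑ j, (c (e j).1 : ℂ) *
        indFun (H (e j).1) (extZ (ψ (e j).1 ^ ((e j).2 : ℕ))) g := by
      intro g
      rw [Nat.cast_one, one_mul, hρ g, hθ g]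
      rw [Equiv.sum_comp e fun p : (Σ i : Fin m, Ex (q i)) => (c p.1 : ℂ) *
        indFun (H p.1) (extZ (ψ p.1 ^ (p.2 : ℕ))) g, Fintype.sum_sigma]
      refine Finset.sum_congr rfl fun i _ => ?_
      rw [Finset.mul_sum]
      exact (Finset.sum_coe_sort (Ex (q i)) fun t => (c i : ℂ) *
        indFun (H i) (extZ (ψ i ^ t)) g).symm
    have h1 := INDP.reg_comb TRD_thm ALLT.rgt hTf hT Θ hb hc V ρ 1
      (Fintype.card (Σ i : Fin m, Ex (q i))) (fun j => H (e j).1)
      (fun j => ψ (e j).1 ^ ((e j).2 : ℕ)) (fun j => c (e j).1) hχ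
    rw [pow_one] at h1
    have h2 : ∏ j, Reg (aboveSet K L S)
          (linRep (liftChar (H (e j).1) (ψ (e j).1 ^ ((e j).2 : ℕ)))) Θ ^ c (e j).1 =
        ∏ i, cReg (q i) (aboveSet K L S) (liftChar (H i) (ψ i)) Θ ^ c i := by
      rw [Equiv.prod_comp e fun p : (Σ i : Fin m, Ex (q i)) => Reg (aboveSet K L S)
          (linRep (liftChar (H p.1) (ψ p.1 ^ (p.2 : ℕ)))) Θ ^ c p.1, Fintype.prod_sigma]
      refine Finset.prod_congr rfl fun i _ => ?_
      unfold cReg
      rw [← Finset.prod_zpow, ← Finset.prod_coe_sort (Ex (q i))]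
      refine Finset.prod_congr rfl fun t _ => ?_
      rw [lift_pow]
    rw [h1, h2, INDT.lead_comb c F fun i => (hF i).1 0, ← Finset.prod_mul_distrib]
    refine Finset.prod_congr rfl fun i _ => ?_
    rw [hR i, mul_zpow]

end StarkC.ABS
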