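import Pool.Agent.ABS.PDefsA

/-!
# Subfields of `ℚ(ζ_n)` are Galois over `ℚ`
-/

set_option autoImplicit false

namespace StarkC.ABS

theorem rootField_cyc (n : ℕ) [NeZero n] :
    IsCyclotomicExtension {n} ℚ (StarkP.rootField n) := by
  have h1 : {z : ℂ | z ^ n = 1} = {b : ℂ | ∃ m ∈ ({n} : Set ℕ), m ≠ 0 ∧ b ^ m = 1} := by
    ext z
    constructor
    · intro h
      exact ⟨n, Set.mem_singleton n, NeZero.ne n, h⟩
    · rintro ⟨m, hm, -, h⟩
      rw [Set.mem_singleton_iff] at hm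
      rw [← hm]
      exact h
  unfold StarkP.rootField
  rw [h1]
  refine IntermediateField.isCyclotomicExtension_adjoin_of_exists_isPrimitiveRoot {n} ℚ ℂ ?_
  intro m _ h0
  exact ⟨_, Complex.isPrimitiveRoot_exp m h0⟩

/-- Every subfield of `ℚ(ζ_n)` is Galois over `ℚ`. -/
theorem galois_of_le (n : ℕ) (hn : 0 < n) (E : IntermediateField ℚ ℂ)
    (hE : E ≤ StarkP.rootField n) : IsGalois ℚ E := by
  have : NeZero n := ⟨hn.ne'⟩
  have h1 := rootField_cyc n
  have h2 := IsCyclotomicExtension.isAbelianGalois {n} ℚ (StarkP.rootField n)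
  have h3 := @IsAbelianGalois.of_algHom _ _ _ _ _ _ _ _ (IntermediateField.inclusion hE) h2
  exact h3.toIsGalois

end StarkC.ABS
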