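import Pool.Agent.ABS.StU
import Pool.Agent.ABS.SYMH

/-!
# Project ABS, part U: subfields of cyclic subfields of `ℚ(ζ_N)` are cyclic
-/

set_option autoImplicit false

namespace StarkC.ABS

/-- PCY. -/
theorem PCY_thm : Stmt_PCY := by
  intro N E F hN hE hF hC
  have hGE : IsGalois ℚ E := galois_of_le N hN E hE
  have hGF : IsGalois ℚ F := galois_of_le N hN F (hF.trans hE)
  refine ⟨hGF, ?_⟩
  let : Algebra F E := (IntermediateField.inclusion hF).toRingHom.toAlgebra
  have : IsScalarTower ℚ F E :=
    IsScalarTower.of_algebraMap_eq fun x => ((IntermediateField.inclusion hF).commutes x).symm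
  exact isCyclic_of_surjective
    (AlgEquiv.restrictNormalHom F : (E ≃ₐ[ℚ] E) →* (F ≃ₐ[ℚ] F))
    (AlgEquiv.restrictNormalHom_surjective _)

end StarkC.ABS
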