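import Pool.Agent.ABS.StU

/-!
# ABS, module PFN (helper62): norms in towers of subfields of `ℂ`
-/

set_option autoImplicit false

open NumberField IsDedekindDomain
open scoped TensorProduct Classical

namespace StarkC.ABS

theorem PFN_thm : Stmt_PFN := by
  intro E E' h hE
  let _ : Algebra E' E := (IntermediateField.inclusion h).toRingHom.toAlgebra
  have hT : IsScalarTower ℚ E' E :=
    IsScalarTower.of_algebraMap_eq fun x => ((IntermediateField.inclusion h).commutes x).symm
  have hE' : FiniteDimensional ℚ E' :=
    FiniteDimensional.of_injective (IntermediateField.inclusion h).toLinearMap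
      (IntermediateField.inclusion_injective h)
  have hF : Module.Finite E' E := Module.Finite.of_restrictScalars_finite ℚ E' E
  refine ⟨Module.finrank E' E, Module.finrank_pos, ?_, fun β => ?_⟩
  · rw [mul_comm]
    exact (Module.finrank_mul_finrank ℚ E' E).symm
  · have h1 : IntermediateField.inclusion h β = algebraMap E' E β := rfl
    rw [h1, ← Algebra.norm_norm (R := ℚ) (S := E') (a := algebraMap E' E β),
      Algebra.norm_algebraMap, map_pow]

end StarkC.ABS
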