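import Pool.Agent.ABS.StU
import Pool.Agent.ABS.SYMH

/-!
# Project ABS, module PPP: Theorem (P)

`A_S(θ, φ)` is a norm from a cyclic field `E` for the combinations `θ` of induced traces of linear characters
with coefficients divisible by `[E : E ∩ ℚ(ψ_i)]`.
-/

set_option autoImplicit false

open NumberField IsDedekindDomain
open scoped TensorProduct Classical

namespace StarkC.ABS

open StarkP (rootField trRoot)

namespace PPPx

section Lift

variable {K L : Type} [Field K] [NumberField K] [Field L] [NumberField L] [Algebra K L]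

theorem lift_pow_eq_one (H : Subgroup (L ≃ₐ[K] L)) (ψ : H →* ℂˣ) (n : ℕ) :
    liftChar H ψ ^ n = 1 ↔ ψ ^ n = 1 := by
  constructor
  · intro h
    refine MonoidHom.ext fun a => ?_
    have h1 := DFunLike.congr_fun h (IntermediateField.subgroupEquivAlgEquiv H a)
    have h2 : ((liftChar H ψ) ^ n) (IntermediateField.subgroupEquivAlgEquiv H a) = (ψ ^ n) a := by
      show (ψ ((IntermediateField.subgroupEquivAlgEquiv H).symm
        (IntermediateField.subgroupEquivAlgEquiv H a))) ^ n = (ψ a) ^ n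
      rw [MulEquiv.symm_apply_apply]
    rw [h2] at h1
    exact h1
  · intro h
    refine MonoidHom.ext fun g => ?_
    have h1 := DFunLike.congr_fun h ((IntermediateField.subgroupEquivAlgEquiv H).symm g)
    exact h1

theorem orderOf_lift (H : Subgroup (L ≃ₐ[K] L)) (ψ : H →* ℂˣ) :
    orderOf (liftChar H ψ) = orderOf ψ :=
  orderOf_eq_orderOf_iff.2 fun n => lift_pow_eq_one H ψ n

end Lift

theorem fin_root (N : ℕ) (hN : 0 < N) : FiniteDimensional ℚ (rootField N) := by
  have : NeZero N := ⟨hN.ne'⟩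
  have h1 := rootField_cyc N
  exact IsCyclotomicExtension.finiteDimensional {N} ℚ (rootField N)

theorem fin_le {E E' : IntermediateField ℚ ℂ} (h : E ≤ E') [FiniteDimensional ℚ E'] :
    FiniteDimensional ℚ E :=
  FiniteDimensional.of_injective (IntermediateField.inclusion h).toLinearMap
    (IntermediateField.inclusion_injective h)

theorem norm_zpow {E : IntermediateField ℚ ℂ} (α : E) (hα : α ≠ 0) (k : ℤ) :
    Algebra.norm ℚ (α ^ k) = (Algebra.norm ℚ α) ^ k := by
  have h1 : α ^ k = ((Units.mk0 α hα ^ k : Eˣ) : E) := by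
    rw [Units.val_zpow_eq_zpow_val, Units.val_mk0]
  rw [h1]
  have h3 : Algebra.norm ℚ (((Units.mk0 α hα ^ k : Eˣ)) : E) =
      ((Units.map (Algebra.norm ℚ (S := E)) (Units.mk0 α hα ^ k) : ℚˣ) : ℚ) := rfl
  rw [h3, map_zpow, Units.val_zpow_eq_zpow_val]
  rfl

/-- The field part: one factor. -/
theorem factor (hPFN : Stmt_PFN) (hPCY : Stmt_PCY) (N : ℕ) (hN : 0 < N)
    (E : IntermediateField ℚ ℂ) (hE : E ≤ rootField N) (hcyc : IsCyclic (E ≃ₐ[ℚ] E))
    (o : ℕ) (x : ℂ) (hx : QQ o x) (c : ℤ)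
    (hc : (Module.finrank ℚ E : ℤ) ∣
      c * Module.finrank ℚ (E ⊓ rootField o : IntermediateField ℚ ℂ)) :
    ∃ α : E, α ≠ 0 ∧ x ^ c = ((Algebra.norm ℚ α : ℚ) : ℂ) := by
  have hfN := fin_root N hN
  have hfE : FiniteDimensional ℚ E := fin_le hE
  have hle : E ⊓ rootField o ≤ E := inf_le_left
  have hfE' : FiniteDimensional ℚ (E ⊓ rootField o : IntermediateField ℚ ℂ) := fin_le hle
  obtain ⟨hgal, hcyc'⟩ := hPCY N E (E ⊓ rootField o) hN hE hle hcyc
  obtain ⟨a, ha, rfl, hQ⟩ := hx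
  obtain ⟨β, hβ⟩ := hQ (E ⊓ rootField o) inf_le_right hgal hcyc'
  obtain ⟨k, hk, hk1, hk2⟩ := hPFN E (E ⊓ rootField o) hle hfE
  have hpos : 0 < Module.finrank ℚ (E ⊓ rootField o : IntermediateField ℚ ℂ) :=
    Module.finrank_pos
  obtain ⟨d, hd⟩ : (k : ℤ) ∣ c := by
    rw [hk1, Nat.cast_mul] at hc
    exact Int.dvd_of_mul_dvd_mul_right (by exact_mod_cast hpos.ne') hc
  have hβ0 : β ≠ 0 := by
    rintro rfl
    rw [Algebra.norm_zero] at hβ
    exact ha hβ.symm
  have hi0 : IntermediateField.inclusion hle β ≠ 0 := by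
    intro h
    exact hβ0 ((map_eq_zero_iff _ (IntermediateField.inclusion_injective hle)).1 h)
  refine ⟨IntermediateField.inclusion hle β ^ d, zpow_ne_zero _ hi0, ?_⟩
  rw [norm_zpow _ hi0, hk2, hβ, hd, zpow_mul, zpow_natCast, Rat.cast_zpow, Rat.cast_pow]

end PPPx

open PPPx in
/-- module PPP -/
theorem PPP_thm : Stmt_PPP := by
  intro hPCX hPFN hPCY hV K L _ _ _ _ _ _ S φ Θ N E r H ψ c θ hφ hN hE hcyc hc hθ
  obtain ⟨x, hx, h⟩ := hPCX K L S φ Θ r H (fun i => orderOf (ψ i)) ψ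
    (fun i => QQ (orderOf (ψ i))) hφ (fun i S' => by
      have h1 := hV (IntermediateField.fixedField (H i)) L (liftChar (H i) (ψ i)) S'
      rw [orderOf_lift] at h1
      exact h1)
  obtain ⟨F, hF, hR⟩ := h c θ hθ
  have hex : ∀ i, ∃ α : E, α ≠ 0 ∧ x i ^ c i = ((Algebra.norm ℚ α : ℚ) : ℂ) := fun i =>
    factor hPFN hPCY N hN E hE hcyc (orderOf (ψ i)) (x i) (hx i).2 (c i) (hc i)
  choose α hα0 hα using hex
  refine ⟨F, ∏ i, α i, hF, Finset.prod_ne_zero_iff.2 fun i _ => hα0 i, ?_⟩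
  intro V _ _ _ ρ hρ
  rw [hR V ρ hρ, map_prod, Rat.cast_prod]
  congr 1
  exact Finset.prod_congr rfl fun i _ => hα i

end StarkC.ABS
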