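import Pool.Agent.ABS.StU

/-!
# Project ABS, module PV1: the trivial character
-/

set_option autoImplicit false

open NumberField IsDedekindDomain
open scoped TensorProduct Classical

namespace StarkC.ABS

open StarkP (rootField trRoot)

namespace PV1x

theorem adjoin_one : IntermediateField.adjoin ℚ {z : ℂ | z ^ 1 = 1} = ⊥ := by
  rw [IntermediateField.adjoin_eq_bot_iff]
  intro z hz
  have hz' : z ^ 1 = 1 := hz
  rw [pow_one] at hz'
  rw [hz']
  exact one_mem _

theorem cyc_one : Cyc 1 = ⊥ := adjoin_one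

theorem rootField_one : rootField 1 = ⊥ := adjoin_one

theorem norm_ne (E : IntermediateField ℚ ℂ) (hE : E = ⊥) (α : E) (hα : α ≠ 0) :
    Algebra.norm ℚ α ≠ 0 := by
  subst hE
  exact Algebra.norm_ne_zero_iff.2 hα

theorem norm_surj (E : IntermediateField ℚ ℂ) (hE : E = ⊥) (a : ℚ) :
    ∃ β : E, Algebra.norm ℚ β = a := by
  subst hE
  refine ⟨algebraMap ℚ _ a, ?_⟩
  rw [Algebra.norm_algebraMap, IntermediateField.finrank_bot, pow_one]

end PV1x

open PV1x in
/-- **PV1**: the trivial character. -/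
theorem PV1_thm : Stmt_PV1 := by
  intro hOne K L _ _ _ _ _ _ S φ Θ hφ
  obtain ⟨F, α, hF, hα, hreg⟩ := hOne K L S φ Θ hφ
  have hn : Algebra.norm ℚ α ≠ 0 := norm_ne (Cyc 1) cyc_one α hα
  refine ⟨F, nm 1 α, hF, ?_, ⟨Algebra.norm ℚ α, hn, rfl, ?_⟩, hreg⟩
  · unfold nm
    exact_mod_cast hn
  · intro E hE _ _
    refine norm_surj E ?_ _
    rw [rootField_one] at hE
    exact le_bot_iff.1 hE

end StarkC.ABS
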