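import Pool.Agent.ABS.StE

/-!
# ABS, module IDX (helper62): inducing a linear character which extends
-/

open NumberField IsDedekindDomain
open scoped TensorProduct Classical

namespace StarkC.ABS

namespace IDXx

variable {G : Type} [Group G] [Fintype G]

lemma card_range (χ : G →* ℂˣ) : Nat.card χ.range = orderOf χ := by
  have hfin : Finite χ.range := Set.finite_range χ
  have hcyc : IsCyclic χ.range := inferInstance
  rw [← IsCyclic.exponent_eq_card]
  apply Nat.dvd_antisymm
  · apply Monoid.exponent_dvd_of_forall_pow_eq_one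
    rintro ⟨_, g, rfl⟩
    apply Subtype.ext
    have h := DFunLike.congr_fun (pow_orderOf_eq_one χ) g
    rw [MonoidHom.pow_apply, MonoidHom.one_apply] at h
    exact h
  · apply orderOf_dvd_of_pow_eq_one
    ext g
    have h := Monoid.pow_exponent_eq_one (⟨χ g, g, rfl⟩ : χ.range)
    have h1 := congrArg Subtype.val h
    have h2 : χ g ^ Monoid.exponent χ.range = 1 := by simpa using h1
    rw [MonoidHom.pow_apply, h2]
    simp

lemma exists_orderOf (χ : G →* ℂˣ) : ∃ g, orderOf (χ g) = orderOf χ := by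
  have hfin : Finite χ.range := Set.finite_range χ
  have hcyc : IsCyclic χ.range := inferInstance
  obtain ⟨⟨_, g, rfl⟩, hg⟩ := IsCyclic.exists_ofOrder_eq_natCard (α := χ.range)
  refine ⟨g, ?_⟩
  rw [card_range] at hg
  rw [← hg]
  exact Subgroup.orderOf_coe (⟨χ g, g, rfl⟩ : χ.range)

lemma index_ker (χ : G →* ℂˣ) : χ.ker.index = orderOf χ := by
  rw [Subgroup.index_ker, card_range]

omit [Fintype G] in
lemma apply_conj (χ : G →* ℂˣ) (x g : G) : χ (x⁻¹ * g * x) = χ g := by
  rw [map_mul, map_mul, map_inv, mul_comm, ← mul_assoc, mul_inv_cancel, one_mul]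

end IDXx

open IDXx in
theorem IDX_thm : Stmt_IDX := by
  intro G _ _ q m a d ψ hq hm hqm ha hma hψ hdm
  have hd : 0 < d := Nat.pos_of_dvd_of_pos hdm hm
  have hker : ∀ g, g ∈ (ψ ^ (q * d)).ker ↔ ψ g ^ (q * d) = 1 := by
    intro g
    rw [MonoidHom.mem_ker, MonoidHom.pow_apply]
  constructor
  · apply Nat.dvd_antisymm
    · apply orderOf_dvd_of_pow_eq_one
      ext ⟨h, hh⟩
      obtain ⟨e, rfl⟩ := hdm.trans hma
      have h1 := (hker h).1 hh
      have h2 : (ψ h ^ (d * e)) ^ q = 1 := by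
        rw [← pow_mul]
        have : d * e * q = (q * d) * e := by ring
        rw [this, pow_mul, h1, one_pow]
      rw [MonoidHom.pow_apply]
      simp only [MonoidHom.comp_apply, Subgroup.coe_subtype, MonoidHom.pow_apply]
      rw [h2]
      simp
    · obtain ⟨g, hg⟩ := exists_orderOf ψ
      have hm' : ψ (g ^ m) ^ q = 1 := by
        rw [map_pow, ← pow_mul, mul_comm m q, ← hψ, ← hg]
        exact pow_orderOf_eq_one _
      have hH : g ^ m ∈ (ψ ^ (q * d)).ker := by
        rw [hker, pow_mul, hm', one_pow]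
      have h1 := DFunLike.congr_fun
        (pow_orderOf_eq_one ((ψ ^ a).comp (ψ ^ (q * d)).ker.subtype)) ⟨g ^ m, hH⟩
      rw [MonoidHom.pow_apply] at h1
      simp only [MonoidHom.comp_apply, Subgroup.coe_subtype, MonoidHom.pow_apply,
        MonoidHom.one_apply, map_pow] at h1
      rw [← pow_mul, ← pow_mul] at h1
      have h2 := orderOf_dvd_of_pow_eq_one h1
      rw [hg, hψ] at h2
      have h3 : q * m ∣ (a * orderOf ((ψ ^ a).comp (ψ ^ (q * d)).ker.subtype)) * m := by
        convert h2 using 1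
        ring
      have h4 := Nat.dvd_of_mul_dvd_mul_right hm h3
      have h5 : Nat.Coprime a q := by
        have h6 : a ≡ 1 [MOD q] := ha
        have h7 := h6.gcd_eq
        rw [Nat.gcd_one_left] at h7
        exact h7
      exact h5.symm.dvd_of_dvd_mul_left h4
  · intro s g
    have hidx : (ψ ^ (q * d)).ker.index = m / d := by
      rw [index_ker, orderOf_pow_of_dvd (by positivity) (by rw [hψ]; exact mul_dvd_mul_left q hdm),
        hψ, Nat.mul_div_mul_left _ _ hq]
    have hval : ∀ x : G, (if x⁻¹ * g * x ∈ (ψ ^ (q * d)).ker then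
        extZ (((ψ ^ a).comp (ψ ^ (q * d)).ker.subtype) ^ s) (x⁻¹ * g * x) else 0) =
        if ((ψ g : ℂˣ) : ℂ) ^ (q * d) = 1 then (((ψ g : ℂˣ) : ℂ) ^ a) ^ s else 0 := by
      intro x
      have hc : x⁻¹ * g * x ∈ (ψ ^ (q * d)).ker ↔ ((ψ g : ℂˣ) : ℂ) ^ (q * d) = 1 := by
        rw [hker, apply_conj, Units.ext_iff]
        simp
      by_cases h : ((ψ g : ℂˣ) : ℂ) ^ (q * d) = 1
      · rw [if_pos h, if_pos (hc.2 h)]
        unfold extZ
        rw [dif_pos (hc.2 h)]
        simp only [MonoidHom.comp_apply, Subgroup.coe_subtype, MonoidHom.pow_apply, apply_conj]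
        simp
      · rw [if_neg h, if_neg (fun h' => h (hc.1 h'))]
    have hsum : (∑ x : G, if x⁻¹ * g * x ∈ (ψ ^ (q * d)).ker then
        extZ (((ψ ^ a).comp (ψ ^ (q * d)).ker.subtype) ^ s) (x⁻¹ * g * x) else 0) =
        (Fintype.card G : ℂ) *
          if ((ψ g : ℂˣ) : ℂ) ^ (q * d) = 1 then (((ψ g : ℂˣ) : ℂ) ^ a) ^ s else 0 := by
      rw [Finset.sum_congr rfl (fun x _ => hval x), Finset.sum_const, Finset.card_univ,
        nsmul_eq_mul]
    have hdef : indFun (ψ ^ (q * d)).ker
        (extZ (((ψ ^ a).comp (ψ ^ (q * d)).ker.subtype) ^ s)) g =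
        (∑ x : G, if x⁻¹ * g * x ∈ (ψ ^ (q * d)).ker then
        extZ (((ψ ^ a).comp (ψ ^ (q * d)).ker.subtype) ^ s) (x⁻¹ * g * x) else 0) /
          (Nat.card (ψ ^ (q * d)).ker : ℂ) := by
      unfold indFun
      congr!
    rw [hdef, hsum]
    have hcard : ((m / d : ℕ) : ℂ) * (Nat.card (ψ ^ (q * d)).ker : ℂ) = (Fintype.card G : ℂ) := by
      have h := Subgroup.index_mul_card (ψ ^ (q * d)).ker
      rw [hidx, Nat.card_eq_fintype_card (α := G)] at h
      exact_mod_cast h
    have hne : (Nat.card (ψ ^ (q * d)).ker : ℂ) ≠ 0 := by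
      have : 0 < Nat.card (ψ ^ (q * d)).ker := Nat.card_pos
      exact_mod_cast this.ne'
    by_cases h : ((ψ g : ℂˣ) : ℂ) ^ (q * d) = 1
    · rw [if_pos h, if_pos h, ← hcard]
      field_simp
    · rw [if_neg h, if_neg h]
      simp

end StarkC.ABS
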