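import Pool.Agent.ABS.StU
import Pool.Agent.ABS.IDX

/-!
# Project ABS (MP_46b841_nt), module PV2 (helper55): quadratic characters
-/

set_option autoImplicit false

open NumberField IsDedekindDomain
open scoped TensorProduct Classical

namespace StarkC.ABS

open StarkP (rootField trRoot)

namespace PV2x

theorem ex_one : Ex 1 = {0} := by
  unfold Ex
  decide

theorem ex_two : Ex 2 = {1} := by
  unfold Ex
  decide

theorem indFun_one {G : Type} [Group G] [Fintype G] (H : Subgroup G) (t : ℕ) (g : G) :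
    indFun H (extZ ((1 : H →* ℂˣ) ^ t)) g = indFun H (fun _ => 1) g := by
  unfold indFun
  congr 1
  refine Finset.sum_congr rfl fun x _ => ?_
  by_cases hx : x⁻¹ * g * x ∈ H
  · rw [if_pos hx, if_pos hx]
    unfold extZ
    rw [dif_pos hx, MonoidHom.pow_apply, MonoidHom.one_apply, one_pow]
    rfl
  · rw [if_neg hx, if_neg hx]

theorem ind_top {G : Type} [Group G] [Fintype G] (g : G) :
    indFun (⊤ : Subgroup G) (fun _ => 1) g = 1 := by
  unfold indFun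
  have : (Fintype.card G : ℂ) ≠ 0 := by
    exact_mod_cast Fintype.card_ne_zero
  simp [this]

theorem ind_ker {G : Type} [Group G] [Fintype G] (ψ : G →* ℂˣ) (h2 : orderOf ψ = 2) (g : G) :
    indFun ψ.ker (fun _ => 1) g = if ψ g = 1 then 2 else 0 := by
  unfold indFun
  have hm : ∀ x : G, x⁻¹ * g * x ∈ ψ.ker ↔ ψ g = 1 := fun x => by
    rw [MonoidHom.mem_ker, IDXx.apply_conj]
  simp only [hm]
  have hc := Subgroup.card_mul_index ψ.ker
  rw [IDXx.index_ker, h2] at hc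
  have hk : (Nat.card ψ.ker : ℂ) ≠ 0 := by
    exact_mod_cast (Nat.card_pos (α := ψ.ker)).ne'
  split_ifs with h
  · rw [div_eq_iff hk, Finset.sum_const, Finset.card_univ, nsmul_eq_mul, mul_one,
      ← Nat.card_eq_fintype_card, ← hc]
    push_cast
    ring
  · rw [Finset.sum_const_zero, zero_div]

theorem psi_val {G : Type} [Group G] (ψ : G →* ℂˣ) (h2 : orderOf ψ = 2) (g : G) :
    ((ψ g : ℂˣ) : ℂ) = -1 + if ψ g = 1 then 2 else 0 := by
  have h1 : ψ g ^ 2 = 1 := by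
    have h := DFunLike.congr_fun (pow_orderOf_eq_one ψ) g
    rwa [h2, MonoidHom.pow_apply, MonoidHom.one_apply] at h
  have h3 : ((ψ g : ℂˣ) : ℂ) ^ 2 = 1 := by
    rw [← Units.val_pow_eq_pow_val, h1, Units.val_one]
  split_ifs with h
  · rw [h, Units.val_one]
    norm_num
  · rcases sq_eq_one_iff.mp h3 with h4 | h4
    · exact absurd (Units.val_eq_one.mp h4) h
    · rw [h4, add_zero]

theorem lift_one {K L : Type} [Field K] [Field L] [NumberField K] [NumberField L] [Algebra K L]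
    (H : Subgroup (L ≃ₐ[K] L)) : liftChar H (1 : H →* ℂˣ) = 1 :=
  MonoidHom.ext fun _ => rfl

theorem theta_eq {G : Type} [Group G] [Fintype G] (ψ : G →* ℂˣ) (h2 : orderOf ψ = 2) (g : G) :
    cSum 2 ψ g = ∑ i : Fin 2, (((![-1, 1] : Fin 2 → ℤ) i : ℤ) : ℂ) *
      ∑ t ∈ Ex 1, indFun ((![⊤, ψ.ker] : Fin 2 → Subgroup G) i)
        (extZ ((1 : (![⊤, ψ.ker] : Fin 2 → Subgroup G) i →* ℂˣ) ^ t)) g := by
  rw [ex_one]
  simp only [Finset.sum_singleton]
  rw [Fin.sum_univ_two]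
  rw [indFun_one, indFun_one]
  have e0 : (![⊤, ψ.ker] : Fin 2 → Subgroup G) 0 = ⊤ := rfl
  have e1 : (![⊤, ψ.ker] : Fin 2 → Subgroup G) 1 = ψ.ker := rfl
  have e2 : (![-1, 1] : Fin 2 → ℤ) 0 = -1 := rfl
  have e3 : (![-1, 1] : Fin 2 → ℤ) 1 = 1 := rfl
  rw [e0, e1, e2, e3, ind_top, ind_ker ψ h2]
  unfold cSum
  rw [ex_two, Finset.sum_singleton, pow_one, psi_val ψ h2]
  push_cast
  ring

theorem qq_two {a b : ℂ} (ha : QQ 1 a) (hb : QQ 1 b) : QQ 2 (a⁻¹ * b) := by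
  obtain ⟨u, hu, rfl, -⟩ := ha
  obtain ⟨v, hv, rfl, -⟩ := hb
  refine ⟨u⁻¹ * v, mul_ne_zero (inv_ne_zero hu) hv, by push_cast; ring, fun E hE _ _ => ?_⟩
  rw [SYMx.rootField_two, le_bot_iff] at hE
  subst hE
  refine ⟨algebraMap ℚ _ (u⁻¹ * v), ?_⟩
  rw [Algebra.norm_algebraMap, IntermediateField.finrank_bot, pow_one]

end PV2x

open PV2x in
theorem PV2_thm : Stmt_PV2 := by
  intro hPCX hone K L _ _ _ _ _ _ ψ S hψ φ Θ hφ
  obtain ⟨x, hx, hxc⟩ := hPCX K L S φ Θ 2 ![⊤, ψ.ker] (fun _ => 1) (fun _ => 1) (fun _ => QQ 1)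
    hφ (fun i S' => by
      rw [lift_one]
      exact hone _ L S')
  obtain ⟨F, hF, hR⟩ := hxc ![-1, 1] (cSum 2 ψ) (theta_eq ψ hψ)
  refine ⟨F, (x 0)⁻¹ * x 1, hF, mul_ne_zero (inv_ne_zero (hx 0).1) (hx 1).1,
    qq_two (hx 0).2 (hx 1).2, ?_⟩
  unfold cReg
  rw [ex_two, Finset.prod_singleton, hR ℂ (linRep (ψ ^ 1)) fun g => ?_]
  · rw [Fin.prod_univ_two]
    have e2 : (![-1, 1] : Fin 2 → ℤ) 0 = -1 := rfl
    have e3 : (![-1, 1] : Fin 2 → ℤ) 1 = 1 := rfl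
    rw [e2, e3, zpow_neg_one, zpow_one]
  · rw [IND.linRep_character]
    show (((ψ ^ 1) g : ℂˣ) : ℂ) = cSum 2 ψ g
    unfold cSum
    rw [ex_two, Finset.sum_singleton, pow_one, MonoidHom.pow_apply, pow_one]

end StarkC.ABS
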