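import Pool.Agent.ABS.StU
import Pool.Agent.ABS.RESF

/-!
# Project ABS, part U: the values for linear characters of order at least three
-/

set_option autoImplicit false

open NumberField IsDedekindDomain
open scoped TensorProduct Classical

namespace StarkC.ABS

theorem PV3_thm : Stmt_PV3 := by
  intro hS hN K L _ _ _ _ _ _ ψ S hψ φ Θ hφ
  obtain ⟨F, a, hF, ha, hR, -, hnorm⟩ := cyc_of_PT hS (orderOf ψ) hψ ψ S φ Θ hφ
    fun ℓ k m hℓ hk h2 hn hc => by
      have hm : 0 < m := by
        rcases Nat.eq_zero_or_pos m with h | h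
        · rw [h, mul_zero] at hn
          omega
        · exact h
      have h := hN K L ℓ k m ψ S φ Θ ⟨hℓ, hk, h2⟩ hm hc hn hφ
      rw [← hn] at h
      exact h
  exact ⟨F, (a : ℂ), hF, Rat.cast_ne_zero.2 ha,
    ⟨a, ha, rfl, fun E hE hG hc => hnorm E hE hG hc⟩,
    RESFx.creg_of (orderOf ψ) ψ S φ Θ hφ _ fun V _ _ _ ρ hρ => hR V ρ hρ⟩

end StarkC.ABS
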