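import Pool.Agent.ABS.StU

/-!
# UEX: sums over the exponents modulo `n` and modulo `o ∣ n`
-/

set_option autoImplicit false

namespace StarkC.ABS

namespace UEXx

theorem mem_Ex {n t : ℕ} : t ∈ Ex n ↔ t < n ∧ n.Coprime t := by
  unfold Ex
  rw [Finset.mem_filter, Finset.mem_range]

theorem sum_units (n : ℕ) [NeZero n] (f : ℕ → ℂ) :
    ∑ u : (ZMod n)ˣ, f (u : ZMod n).val = ∑ t ∈ Ex n, f t := by
  refine Finset.sum_bij (fun u _ => (u : ZMod n).val) ?_ ?_ ?_ ?_
  · intro u _
    exact mem_Ex.2 ⟨ZMod.val_lt _, (ZMod.val_coe_unit_coprime u).symm⟩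
  · intro u _ v _ h
    exact Units.ext (ZMod.val_injective n h)
  · intro t ht
    obtain ⟨h1, h2⟩ := mem_Ex.1 ht
    refine ⟨ZMod.unitOfCoprime t h2.symm, Finset.mem_univ _, ?_⟩
    rw [ZMod.coe_unitOfCoprime, ZMod.val_natCast_of_lt h1]
  · intro u _
    rfl

end UEXx

open UEXx in
/-- sums over `Ex n` of functions which are periodic modulo `o ∣ n` -/
theorem UEX_thm : Stmt_UEX := by
  intro n o f hn h hf
  have : NeZero n := ⟨hn.ne'⟩
  have : NeZero o := ⟨fun h0 => hn.ne' (by rw [h0] at h; exact Nat.eq_zero_of_zero_dvd h)⟩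
  classical
  have hs := ZMod.unitsMap_surjective h
  obtain ⟨N, hN⟩ : ∃ N : ℕ, ∀ y : (ZMod o)ˣ,
      (Finset.univ.filter fun u : (ZMod n)ˣ => ZMod.unitsMap h u = y).card = N :=
    ⟨_, fun y => MonoidHom.card_fiber_eq_of_mem_range (ZMod.unitsMap h) (hs y) (hs 1)⟩
  have hcard : n.totient = o.totient * N := by
    rw [← ZMod.card_units_eq_totient n, ← ZMod.card_units_eq_totient o, ← Finset.card_univ,
      Finset.card_eq_sum_card_fiberwise (f := ZMod.unitsMap h) (t := Finset.univ)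
        (fun _ _ => Finset.mem_univ _)]
    simp only [hN, Finset.sum_const, Finset.card_univ, smul_eq_mul]
  have ho : 0 < o.totient := Nat.totient_pos.2 (NeZero.pos o)
  have hdiv : n.totient / o.totient = N := by
    rw [hcard, Nat.mul_div_cancel_left _ ho]
  have h1 : ∀ u : (ZMod n)ˣ, f (u : ZMod n).val
      = f ((ZMod.unitsMap h u : (ZMod o)ˣ) : ZMod o).val := by
    intro u
    rw [ZMod.unitsMap_val, ← ZMod.natCast_val, ZMod.val_natCast, hf]
  rw [hdiv, ← sum_units n f, ← sum_units o f, Finset.sum_congr rfl fun u _ => h1 u,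
    ← Finset.sum_fiberwise (s := Finset.univ) (g := fun u : (ZMod n)ˣ => ZMod.unitsMap h u),
    Finset.mul_sum]
  refine Finset.sum_congr rfl fun y _ => ?_
  have h2 : ∑ u ∈ Finset.univ.filter (fun u : (ZMod n)ˣ => ZMod.unitsMap h u = y),
      f ((ZMod.unitsMap h u : (ZMod o)ˣ) : ZMod o).val
      = ∑ u ∈ Finset.univ.filter (fun u : (ZMod n)ˣ => ZMod.unitsMap h u = y),
        f (y : ZMod o).val := by
    refine Finset.sum_congr rfl fun u hu => ?_
    rw [(Finset.mem_filter.1 hu).2]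
  rw [h2, Finset.sum_const, hN, nsmul_eq_mul]

end StarkC.ABS
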