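import Pool.Agent.ABS.StG4

/-!
# Project ABS, module FTR: transport along an isomorphism with `A_5`
-/

set_option autoImplicit false

open scoped Classical

namespace StarkC.ABS

namespace FTRx

variable {G G' : Type} [Group G] [Fintype G] [Group G'] [Fintype G']

theorem card_comap (e : G ≃* G') (H : Subgroup G') :
    Nat.card (H.comap e.toMonoidHom) = Nat.card H := by
  refine Nat.card_congr ⟨fun x => ⟨e x.1, x.2⟩, fun y => ⟨e.symm y.1, ?_⟩, ?_, ?_⟩
  · show e (e.symm y.1) ∈ H
    rw [e.apply_symm_apply]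
    exact y.2
  · intro x
    exact Subtype.ext (e.symm_apply_apply x.1)
  · intro y
    exact Subtype.ext (e.apply_symm_apply y.1)

theorem indFun_comap (e : G ≃* G') (H : Subgroup G') (f : G' → ℂ) (g : G) :
    indFun (H.comap e.toMonoidHom) (fun x => f (e x)) g = indFun H f (e g) := by
  unfold indFun
  rw [card_comap]
  refine congrArg (fun z : ℂ => z / (Nat.card H : ℂ)) ?_
  rw [← Equiv.sum_comp e.toEquiv
    (fun x : G' => if x⁻¹ * e g * x ∈ H then f (x⁻¹ * e g * x) else 0)]
  refine Finset.sum_congr rfl fun x _ => ?_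
  have h1 : e (x⁻¹ * g * x) = (e x)⁻¹ * e g * e x := by
    rw [map_mul, map_mul, map_inv]
  by_cases h : e (x⁻¹ * g * x) ∈ H
  · have h2 : (e.toEquiv x)⁻¹ * e g * e.toEquiv x ∈ H := by
      show (e x)⁻¹ * e g * e x ∈ H
      rw [← h1]
      exact h
    rw [if_pos (show x⁻¹ * g * x ∈ H.comap e.toMonoidHom from h), if_pos h2]
    exact congrArg f h1
  · have h2 : ¬ (e.toEquiv x)⁻¹ * e g * e.toEquiv x ∈ H := by
      intro h3
      apply h
      rw [h1]
      exact h3
    rw [if_neg (show ¬ x⁻¹ * g * x ∈ H.comap e.toMonoidHom from h), if_neg h2]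

theorem extZ_comap (e : G ≃* G') (H : Subgroup G') (ψ : H →* ℂˣ) :
    extZ (ψ.comp (e.toMonoidHom.subgroupComap H)) = fun x => extZ ψ (e x) := by
  funext x
  unfold extZ
  by_cases h : e x ∈ H
  · rw [dif_pos (show x ∈ H.comap e.toMonoidHom from h), dif_pos h]
    rfl
  · rw [dif_neg (show ¬ x ∈ H.comap e.toMonoidHom from h), dif_neg h]

theorem permC_comap (e : G ≃* G') (θ : G' → ℂ) (h : PermC θ) : PermC fun g => θ (e g) := by
  obtain ⟨r, H, c, h1⟩ := h
  refine ⟨r, fun i => (H i).comap e.toMonoidHom, c, fun g => ?_⟩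
  show θ (e g) = _
  rw [h1]
  exact Finset.sum_congr rfl fun i _ => by rw [indFun_comap e (H i) (fun _ => 1) g]

theorem monC_comap (n : ℕ) (e : G ≃* G') (θ : G' → ℂ) (h : MonC n θ) :
    MonC n fun g => θ (e g) := by
  obtain ⟨r, H, ψ, c, h0, h1⟩ := h
  refine ⟨r, fun i => (H i).comap e.toMonoidHom,
    fun i => (ψ i).comp (e.toMonoidHom.subgroupComap (H i)), c, fun i => ?_, fun g => ?_⟩
  · apply MonoidHom.ext
    intro x
    exact DFunLike.congr_fun (h0 i) (e.toMonoidHom.subgroupComap (H i) x)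
  · show θ (e g) = _
    rw [h1]
    refine Finset.sum_congr rfl fun i _ => ?_
    rw [extZ_comap, indFun_comap e (H i) (extZ (ψ i)) g]

theorem trace_eq {F F' : IntermediateField ℚ ℂ} (h : F = F') {x : ℂ} (hx : x ∈ F) (hx' : x ∈ F') :
    Algebra.trace ℚ F ⟨x, hx⟩ = Algebra.trace ℚ F' ⟨x, hx'⟩ := by
  subst h
  rfl

theorem trChar_comap (e : G ≃* G') (θ : G' → ℂ) :
    StarkP.trChar (fun g => θ (e g)) = fun g => StarkP.trChar θ (e g) := by
  funext g
  unfold StarkP.trChar
  refine congrArg (fun q : ℚ => (q : ℂ)) (trace_eq ?_ _ _)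
  unfold StarkP.charField
  refine congrArg (IntermediateField.adjoin ℚ) ?_
  exact e.surjective.range_comp θ

end FTRx

open FTRx in
theorem FTR_thm : Stmt_FTR := by
  intro hK hV hI hJ hA G V _ _ _ _ _ ρ he hd hn
  obtain ⟨e⟩ := he
  obtain ⟨h1, h2⟩ := hA hK hV hI hJ V (ρ.comp e.symm.toMonoidHom) hd (by
    intro h
    apply hn
    intro g
    have h3 := h (e g)
    have h4 : ρ (e.symm (e g)) = 1 := h3
    rwa [e.symm_apply_apply] at h4)
  have hchar : (fun g => Representation.character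
      (ρ.comp e.symm.toMonoidHom : Representation ℂ A5 V) (e g)) = ρ.character := by
    funext g
    show LinearMap.trace ℂ V (ρ (e.symm (e g))) = LinearMap.trace ℂ V (ρ g)
    rw [e.symm_apply_apply]
  constructor
  · have h3 := monC_comap 5 e _ h1
    rwa [hchar] at h3
  · have h3 := permC_comap e _ h2
    rwa [← trChar_comap, hchar] at h3

end StarkC.ABS
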