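import Pool.Agent.ABS.StB

/-!
# ABS: automorphisms of `ℂ` which raise roots of unity to a power (MP_46b841_nt)
-/

set_option autoImplicit false

namespace StarkC.ABS

namespace SIGTx

/-- Every automorphism of the field of algebraic numbers extends to `ℂ`. -/
theorem extendQ (τ : algebraicClosure ℚ ℂ ≃ₐ[ℚ] algebraicClosure ℚ ℂ) :
    ∃ σ : ℂ ≃+* ℂ, ∀ x : algebraicClosure ℚ ℂ, σ (x : ℂ) = (τ x : ℂ) := by
  obtain ⟨t, ht⟩ := exists_isTranscendenceBasis (algebraicClosure ℚ ℂ) ℂ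
  let e0 := ht.1.aevalEquiv
  let e := (e0.symm.toRingEquiv.trans (MvPolynomial.mapEquiv t τ.toRingEquiv)).trans
    e0.toRingEquiv
  let _ : IsAlgClosure (Algebra.adjoin (algebraicClosure ℚ ℂ) (Set.range ((↑) : t → ℂ))) ℂ :=
    IsAlgClosed.isAlgClosure_of_transcendence_basis _ ht
  refine ⟨IsAlgClosure.equivOfEquiv ℂ ℂ e, fun x => ?_⟩
  have h1 : (x : ℂ) = algebraMap
      (Algebra.adjoin (algebraicClosure ℚ ℂ) (Set.range ((↑) : t → ℂ))) ℂ
      (algebraMap (algebraicClosure ℚ ℂ) _ x) := rfl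
  rw [h1, IsAlgClosure.equivOfEquiv_algebraMap]
  have h2 : e (algebraMap (algebraicClosure ℚ ℂ) _ x) =
      algebraMap (algebraicClosure ℚ ℂ) _ (τ x) := by
    show e0 (MvPolynomial.map (τ.toRingEquiv : algebraicClosure ℚ ℂ →+* algebraicClosure ℚ ℂ)
      (e0.symm (algebraMap (algebraicClosure ℚ ℂ) _ x))) = _
    rw [AlgEquiv.commutes, MvPolynomial.algebraMap_eq, MvPolynomial.map_C,
      ← MvPolynomial.algebraMap_eq]
    exact e0.commutes _
  rw [h2]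
  rfl

end SIGTx

theorem SIGT_thm : Stmt_SIGT := by
  intro n t hn hnt
  have hζ : IsPrimitiveRoot (Complex.exp (2 * Real.pi * Complex.I / n)) n :=
    Complex.isPrimitiveRoot_exp n hn.ne'
  set ζ : ℂ := Complex.exp (2 * Real.pi * Complex.I / n) with hζd
  have hζt : IsPrimitiveRoot (ζ ^ t) n := hζ.pow_of_coprime t hnt.symm
  have hint : IsIntegral ℚ ζ := (hζ.isIntegral hn).tower_top
  have hintt : IsIntegral ℚ (ζ ^ t) := (hζt.isIntegral hn).tower_top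
  have hmin : minpoly ℚ (ζ ^ t) = minpoly ℚ ζ := by
    rw [← Polynomial.cyclotomic_eq_minpoly_rat hζ hn,
      ← Polynomial.cyclotomic_eq_minpoly_rat hζt hn]
  have hmem : ζ ∈ algebraicClosure ℚ ℂ := mem_algebraicClosure_iff.2 hint.isAlgebraic
  have hmemt : ζ ^ t ∈ algebraicClosure ℚ ℂ := mem_algebraicClosure_iff.2 hintt.isAlgebraic
  have hconj : IsConjRoot ℚ (⟨ζ ^ t, hmemt⟩ : algebraicClosure ℚ ℂ) ⟨ζ, hmem⟩ := by
    show minpoly ℚ _ = minpoly ℚ _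
    rw [← minpoly.algebraMap_eq (FaithfulSMul.algebraMap_injective (algebraicClosure ℚ ℂ) ℂ)
        (⟨ζ, hmem⟩ : algebraicClosure ℚ ℂ),
      ← minpoly.algebraMap_eq (FaithfulSMul.algebraMap_injective (algebraicClosure ℚ ℂ) ℂ)
        (⟨ζ ^ t, hmemt⟩ : algebraicClosure ℚ ℂ)]
    exact hmin
  have hnormal : Normal ℚ (algebraicClosure ℚ ℂ) := by
    have h1 := @IsAlgClosure.normal ℚ (algebraicClosure ℚ ℂ) _ _ _
      (algebraicClosure.isAlgClosure ℚ ℂ)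
    convert h1
  obtain ⟨τ, hτ⟩ := isConjRoot_iff_exists_algEquiv.1 hconj
  obtain ⟨σ, hσ⟩ := SIGTx.extendQ τ
  have h3 : σ ζ = ζ ^ t := by
    have h4 := hσ ⟨ζ, hmem⟩
    rw [hτ] at h4
    exact h4
  have hne : NeZero n := ⟨hn.ne'⟩
  refine ⟨σ, fun z hz => ?_⟩
  obtain ⟨i, _, rfl⟩ := hζ.eq_pow_of_pow_eq_one hz
  rw [map_pow, h3, ← pow_mul, ← pow_mul, mul_comm]

end StarkC.ABS
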