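import Pool.Agent.ABS.StB

/-!
# Module NORMT of the project ABS: the norm of `ℚ(ζ_n)` as a product
-/

open NumberField IsDedekindDomain
open scoped TensorProduct Classical

namespace StarkC.ABS

namespace NORMTx

lemma finite_roots (n : ℕ) (hn : 0 < n) : {z : ℂ | z ^ n = 1}.Finite := by
  have h : {z : ℂ | z ^ n = 1} = ((Polynomial.nthRootsFinset n (1 : ℂ) : Finset ℂ) : Set ℂ) := by
    ext z
    rw [Set.mem_ofPred_eq, Finset.mem_coe, Polynomial.mem_nthRootsFinset hn]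
  rw [h]
  exact Finset.finite_toSet _

lemma integral_root (n : ℕ) (hn : 0 < n) (z : ℂ) (hz : z ^ n = 1) : IsIntegral ℚ z := by
  refine ⟨Polynomial.X ^ n - Polynomial.C 1, Polynomial.monic_X_pow_sub_C 1 hn.ne', ?_⟩
  simp [hz]

lemma finDim (n : ℕ) (hn : 0 < n) : FiniteDimensional ℚ (Cyc n) := by
  have h1 : Finite {z : ℂ | z ^ n = 1} := (finite_roots n hn).to_subtype
  exact IntermediateField.finiteDimensional_adjoin fun z hz => integral_root n hn z hz

/-- the restriction of an automorphism of `ℂ` -/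
noncomputable def rst (n : ℕ) (s : ℂ ≃+* ℂ) : Cyc n →ₐ[ℚ] ℂ :=
  (s : ℂ →+* ℂ).toRatAlgHom.comp (Cyc n).val

lemma rst_apply (n : ℕ) (s : ℂ ≃+* ℂ) (x : Cyc n) : rst n s x = s x := rfl

end NORMTx

open NORMTx in
theorem NORMT_thm : Stmt_NORMT := by
  intro n σ hn hσ x
  have : NeZero n := ⟨hn.ne'⟩
  have hfd : FiniteDimensional ℚ (Cyc n) := finDim n hn
  have hζ : IsPrimitiveRoot (Complex.exp (2 * Real.pi * Complex.I / n)) n :=
    Complex.isPrimitiveRoot_exp n hn.ne'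
  set ζ : ℂ := Complex.exp (2 * Real.pi * Complex.I / n) with hζd
  have hmem : ζ ∈ Cyc n := IntermediateField.subset_adjoin ℚ _ hζ.pow_eq_one
  have h1 : nm n x = ∏ f : Cyc n →ₐ[ℚ] ℂ, f x := by
    unfold nm
    rw [← Algebra.norm_eq_prod_embeddings ℚ ℂ x, eq_ratCast]
  rw [h1]
  symm
  refine Finset.prod_bij (fun t _ => rst n (σ t)) (fun t _ => Finset.mem_univ _) ?_ ?_ ?_
  · intro t ht t' ht' h
    have h2 : rst n (σ t) ⟨ζ, hmem⟩ = rst n (σ t') ⟨ζ, hmem⟩ := by rw [h]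
    rw [rst_apply, rst_apply] at h2
    have h3 : ζ ^ t = ζ ^ t' := by
      rw [← hσ t ht ζ hζ.pow_eq_one, ← hσ t' ht' ζ hζ.pow_eq_one]
      exact h2
    unfold Ex at ht ht'
    rw [Finset.mem_filter, Finset.mem_range] at ht ht'
    exact hζ.pow_inj ht.1 ht'.1 h3
  · intro f _
    have hz : IsPrimitiveRoot (f ⟨ζ, hmem⟩) n := by
      have h4 : IsPrimitiveRoot (⟨ζ, hmem⟩ : Cyc n) n :=
        IsPrimitiveRoot.of_map_of_injective (f := (Cyc n).val) hζ (Cyc n).val.injective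
      exact h4.map_of_injective f.toRingHom.injective
    obtain ⟨t, ht, hc, he⟩ := hζ.isPrimitiveRoot_iff.1 hz
    have htE : t ∈ Ex n := by
      unfold Ex
      rw [Finset.mem_filter, Finset.mem_range]
      exact ⟨ht, hc.symm⟩
    refine ⟨t, htE, ?_⟩
    refine IntermediateField.adjoin_algHom_ext (F := ℚ) (fun z hz1 => ?_)
    rw [Set.mem_ofPred_eq] at hz1
    obtain ⟨j, hj, rfl⟩ := hζ.eq_pow_of_pow_eq_one hz1
    have h5 : (⟨ζ ^ j, IntermediateField.subset_adjoin ℚ _ hz1⟩ : Cyc n) = ⟨ζ, hmem⟩ ^ j := rfl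
    change rst n (σ t) ⟨ζ ^ j, _⟩ = f ⟨ζ ^ j, _⟩
    rw [h5, map_pow, map_pow, rst_apply]
    rw [← he]
    congr 1
    exact hσ t htE ζ hζ.pow_eq_one
  · intro t _
    rfl

end StarkC.ABS
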