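import Pool.Agent.ABS.StF
import Pool.Agent.ABS.NORMT

/-!
# Module TRT of the project ABS: the trace of `ℚ(ζ_n)` as a sum
-/

open NumberField IsDedekindDomain
open scoped TensorProduct Classical

namespace StarkC.ABS

open NORMTx in
theorem TRT_thm : Stmt_TRT := by
  intro n σ hn hσ x
  have : NeZero n := ⟨hn.ne'⟩
  have hfd : FiniteDimensional ℚ (Cyc n) := finDim n hn
  have hζ : IsPrimitiveRoot (Complex.exp (2 * Real.pi * Complex.I / n)) n :=
    Complex.isPrimitiveRoot_exp n hn.ne'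
  set ζ : ℂ := Complex.exp (2 * Real.pi * Complex.I / n) with hζd
  have hmem : ζ ∈ Cyc n := IntermediateField.subset_adjoin ℚ _ hζ.pow_eq_one
  have h1 : ((Algebra.trace ℚ (Cyc n) x : ℚ) : ℂ) = ∑ f : Cyc n →ₐ[ℚ] ℂ, f x := by
    rw [← trace_eq_sum_embeddings ℂ (K := ℚ) (x := x), eq_ratCast]
  rw [h1]
  symm
  refine Finset.sum_bij (fun t _ => rst n (σ t)) (fun t _ => Finset.mem_univ _) ?_ ?_ ?_
  · intro t ht t' ht' h
    have h2 : rst n (σ t) ⟨ζ, hmem⟩ = rst n (σ t') ⟨ζ, hmem⟩ := by rw [h]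
    rw [rst_apply, rst_apply] at h2
    have h3 : ζ ^ t = ζ ^ t' := by
      rw [← hσ t ht ζ hζ.pow_eq_one, ← hσ t' ht' ζ hζ.pow_eq_one]
      exact h2
    unfold Ex at ht ht'
    rw [Finset.mem_filter, Finset.mem_range] at ht ht'
    exact hζ.pow_inj ht.1 ht'.1 h3
  · intro f _
    have hz : IsPrimitiveRoot (f ⟨ζ, hmem⟩) n := by
      have h4 : IsPrimitiveRoot (⟨ζ, hmem⟩ : Cyc n) n :=
        IsPrimitiveRoot.of_map_of_injective (f := (Cyc n).val) hζ (Cyc n).val.injective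
      exact h4.map_of_injective f.toRingHom.injective
    obtain ⟨t, ht, hc, he⟩ := hζ.isPrimitiveRoot_iff.1 hz
    have htE : t ∈ Ex n := by
      unfold Ex
      rw [Finset.mem_filter, Finset.mem_range]
      exact ⟨ht, hc.symm⟩
    refine ⟨t, htE, ?_⟩
    refine IntermediateField.adjoin_algHom_ext (F := ℚ) (fun z hz1 => ?_)
    rw [Set.mem_ofPred_eq] at hz1
    obtain ⟨j, hj, rfl⟩ := hζ.eq_pow_of_pow_eq_one hz1
    have h5 : (⟨ζ ^ j, IntermediateField.subset_adjoin ℚ _ hz1⟩ : Cyc n) = ⟨ζ, hmem⟩ ^ j := rfl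
    change rst n (σ t) ⟨ζ ^ j, _⟩ = f ⟨ζ ^ j, _⟩
    rw [h5, map_pow, map_pow, rst_apply]
    rw [← he]
    congr 1
    exact hσ t htE ζ hζ.pow_eq_one
  · intro t _
    rfl

end StarkC.ABS
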