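import Pool.Agent.ABS.StV

/-!
# Project ABS, part V: Artin's formula (module VAG)
-/

set_option autoImplicit false

open scoped Classical

namespace StarkC.ABS

namespace VAGx

lemma term_eq {G : Type} [Group G] [Fintype G] (θ : G → ℂ) (hθ : ∀ x g, θ (x⁻¹ * g * x) = θ g)
    (g : G) (C : Subgroup G) :
    indFun C (fun y => if Subgroup.zpowers y = C then (Nat.card C : ℂ) * θ y else 0) g =
      ∑ x : G, if Subgroup.zpowers (x⁻¹ * g * x) = C then θ g else 0 := by
  unfold indFun
  have hC : (Nat.card C : ℂ) ≠ 0 := by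
    exact_mod_cast (Nat.card_pos (α := C)).ne'
  rw [Finset.sum_div]
  refine Finset.sum_congr rfl fun x _ => ?_
  by_cases h : Subgroup.zpowers (x⁻¹ * g * x) = C
  · have hm : x⁻¹ * g * x ∈ C := by
      rw [← h]; exact Subgroup.mem_zpowers _
    rw [if_pos hm, if_pos h]
    beta_reduce
    rw [if_pos h, hθ x g]
    field_simp
  · simp [h]

end VAGx

theorem VAG_thm : Stmt_VAG := by
  intro G _ _ θ hθ g
  rw [Finset.sum_congr rfl fun C _ => VAGx.term_eq θ hθ g C, Finset.sum_comm]
  have h : ∀ x : G, ∑ C ∈ (Finset.univ : Finset (Subgroup G)).filter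
      (fun C : Subgroup G => IsCyclic C),
      (if Subgroup.zpowers (x⁻¹ * g * x) = C then θ g else 0) = θ g := by
    intro x
    rw [Finset.sum_eq_single (Subgroup.zpowers (x⁻¹ * g * x))]
    · simp
    · intro C _ hne
      rw [if_neg (fun h => hne h.symm)]
    · intro hnot
      have hcyc : IsCyclic (Subgroup.zpowers (x⁻¹ * g * x)) := inferInstance
      exact (hnot (by rw [Finset.mem_filter]; exact ⟨Finset.mem_univ _, hcyc⟩)).elim
  rw [Finset.sum_congr rfl fun x _ => h x]
  simp [Finset.card_univ]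

end StarkC.ABS
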