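import Pool.Agent.ABS.StV

/-!
# Artin's theorem for traces of characters (project ABS, module VAR)

`|G| Tr χ` is an integral combination of the traces of characters induced from linear characters of
cyclic subgroups, with coefficients divisible by the degrees `[E : E ∩ ℚ(ψ)]`.
-/

set_option autoImplicit false

open scoped Classical

namespace StarkC.ABS

namespace VARx

variable {G : Type} [Group G] [Fintype G]

theorem indFun_congr (H : Subgroup G) (f f' : G → ℂ) (h : ∀ y ∈ H, f y = f' y) (g : G) :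
    indFun H f g = indFun H f' g := by
  unfold indFun
  congr 1
  refine Finset.sum_congr rfl fun x _ => ?_
  split_ifs with hx
  · exact h _ hx
  · rfl

theorem indFun_sum {ι : Type} (H : Subgroup G) (s : Finset ι) (f : ι → G → ℂ) (g : G) :
    indFun H (fun y => ∑ i ∈ s, f i y) g = ∑ i ∈ s, indFun H (f i) g := by
  unfold indFun
  rw [← Finset.sum_div, Finset.sum_comm]
  congr 1
  refine Finset.sum_congr rfl fun x _ => ?_
  split_ifs with hx
  · rfl
  · rw [Finset.sum_const_zero]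

theorem indFun_mul (H : Subgroup G) (a : ℂ) (f : G → ℂ) (g : G) :
    indFun H (fun y => a * f y) g = a * indFun H f g := by
  unfold indFun
  rw [← mul_div_assoc, Finset.mul_sum]
  congr 1
  refine Finset.sum_congr rfl fun x _ => ?_
  rw [mul_ite, mul_zero]

omit [Fintype G] in
theorem extZ_pow {H : Subgroup G} (ψ : H →* ℂˣ) (t : ℕ) {z : G} (hz : z ∈ H) :
    extZ (ψ ^ t) z = (((ψ ⟨z, hz⟩ : ℂˣ) : ℂ)) ^ t := by
  unfold extZ
  rw [dif_pos hz, MonoidHom.pow_apply, Units.val_pow_eq_pow_val]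

/-- a family indexed by any finite type -/
theorem trC_of_fintype {ι : Type} [Fintype ι] (E : IntermediateField ℚ ℂ) (θ : G → ℂ)
    (H : ι → Subgroup G) (ψ : ∀ i, H i →* ℂˣ) (c : ι → ℤ)
    (h1 : ∀ i, (Module.finrank ℚ E : ℤ) ∣
      c i * (Module.finrank ℚ ↥(E ⊓ Cyc (orderOf (ψ i))) : ℤ))
    (h2 : ∀ g, θ g = ∑ i, (c i : ℂ) * ∑ t ∈ Ex (orderOf (ψ i)), indFun (H i) (extZ (ψ i ^ t)) g) :
    TrC E θ := by
  refine ⟨Fintype.card ι, fun i => H ((Fintype.equivFin ι).symm i),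
    fun i => ψ ((Fintype.equivFin ι).symm i), fun i => c ((Fintype.equivFin ι).symm i),
    fun i => h1 _, fun g => ?_⟩
  rw [h2 g]
  exact (Equiv.sum_comp (Fintype.equivFin ι).symm fun i =>
    (c i : ℂ) * ∑ t ∈ Ex (orderOf (ψ i)), indFun (H i) (extZ (ψ i ^ t)) g).symm

/-- the contribution of one cyclic subgroup -/
theorem perC (hSIGT : Stmt_SIGT) (hVFO : Stmt_VFO) (hVIN : Stmt_VIN) (hVCF : Stmt_VCF)
    (hVNI : Stmt_VNI) (hVDV : Stmt_VDV) (n : ℕ) (χ : G → ℂ) (E : IntermediateField ℚ ℂ)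
    (hn : 0 < n) (hmon : MonC n χ) (hF : StarkP.charField χ ≤ Cyc n)
    (hE : E ≤ StarkP.charField χ) [FiniteDimensional ℚ (StarkP.charField χ)]
    [IsGalois ℚ (StarkP.charField χ)] (C : Subgroup G) (hC : IsCyclic C) :
    ∃ (ψ : ℕ → (C →* ℂˣ)) (b : ℕ → ℤ),
      (∀ d ∈ (Nat.card C).divisors, (Module.finrank ℚ E : ℤ) ∣
        b d * (Module.finrank ℚ ↥(E ⊓ Cyc (orderOf (ψ d))) : ℤ)) ∧
      ∀ g, indFun C (fun y => if Subgroup.zpowers y = C then
          (Nat.card C : ℂ) * StarkP.trChar χ y else 0) g =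
        ∑ d ∈ (Nat.card C).divisors, (b d : ℂ) *
          ∑ t ∈ Ex (orderOf (ψ d)), indFun C (extZ (ψ d ^ t)) g := by
  obtain ⟨ψ, ho, hf⟩ := hVFO C
  have hcard : Fintype.card C = Nat.card C := Fintype.card_eq_nat_card
  rw [hcard] at ho hf
  have hc := fun d => hVCF hSIGT hVIN G n χ hn hmon hF C (ψ d)
  choose c h1 h2 h3 using hc
  refine ⟨ψ, fun d => ∑ τ, c d τ, fun d hd => hVDV hSIGT hVNI n (orderOf (ψ d))
    (StarkP.charField χ) E hn ?_ hF hE (c d) (h1 d), fun g => ?_⟩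
  · rw [ho d hd]
    exact Nat.div_pos (Nat.divisor_le hd) (Nat.pos_of_mem_divisors hd)
  · have hsum : ∀ (d t : ℕ), ∑ x : C, (if Subgroup.zpowers (x : G) = C then
        StarkP.trChar χ x else 0) * ((((ψ d x : ℂˣ) : ℂ)) ^ t)⁻¹ =
        ∑ x : C, (if Subgroup.zpowers (x : G) = C then
          StarkP.trChar χ x * ((((ψ d x : ℂˣ) : ℂ)) ^ t)⁻¹ else 0) := by
      intro d t
      refine Finset.sum_congr rfl fun x _ => ?_
      rw [ite_mul, zero_mul]
    have hsum1 : ∀ d : ℕ, ∑ x : C, (if Subgroup.zpowers (x : G) = C then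
        StarkP.trChar χ x else 0) * ((ψ d x : ℂˣ) : ℂ)⁻¹ = ((∑ τ, c d τ : ℤ) : ℂ) := by
      intro d
      rw [← h2 d]
      refine Finset.sum_congr rfl fun x _ => ?_
      rw [ite_mul, zero_mul]
    have key := hf (fun x : C => if Subgroup.zpowers (x : G) = C then StarkP.trChar χ x else 0)
      (fun d hd t ht => by
        rw [hsum d t, hsum1 d]
        rw [← ho d hd] at ht
        exact h3 d t ht)
    rw [indFun_congr C _ (fun z => ∑ d ∈ (Nat.card C).divisors, ((∑ τ, c d τ : ℤ) : ℂ) *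
      ∑ t ∈ Ex (orderOf (ψ d)), extZ (ψ d ^ t) z) ?_ g]
    · rw [indFun_sum]
      refine Finset.sum_congr rfl fun d _ => ?_
      rw [indFun_mul, indFun_sum]
    · intro z hz
      have k1 := key ⟨z, hz⟩
      simp only at k1
      rw [mul_ite, mul_zero] at k1
      rw [k1]
      refine Finset.sum_congr rfl fun d hd => ?_
      rw [hsum1 d, ho d hd]
      congr 1
      refine Finset.sum_congr rfl fun t _ => ?_
      rw [extZ_pow _ _ hz]

end VARx

open VARx in
theorem VAR_thm : Stmt_VAR := by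
  intro hSIGT hTRT hFCH hVAG hVFO hVIN hVCF hVNI hVDV hFIXC hGal G _ _ n χ E hn hmon hE
  obtain ⟨hcl, -, -⟩ := hVIN hFIXC hSIGT G n χ hn hmon
  obtain ⟨r, H, ψ0, c0, hψ0, hχ⟩ := id hmon
  obtain ⟨hF, e, he, -, hefr, -⟩ := hFCH hSIGT hTRT G n 1 r χ H ψ0 c0 hn one_pos hψ0
    (fun g => by rw [Nat.cast_one, one_mul]; exact hχ g)
  have hfr : 0 < Module.finrank ℚ (StarkP.charField χ) := by
    have h1 : 0 < n.totient := Nat.totient_pos.2 hn
    rw [← hefr] at h1
    exact Nat.pos_of_mul_pos_left h1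
  have : FiniteDimensional ℚ (StarkP.charField χ) := Module.finite_of_finrank_pos hfr
  have : IsGalois ℚ (StarkP.charField χ) := hGal n _ hn hF
  have hθ : ∀ x g, StarkP.trChar χ (x⁻¹ * g * x) = StarkP.trChar χ g := by
    intro x g
    unfold StarkP.trChar
    simp only [hcl x g]
  choose ψ b h1 h2 using fun C : {C : Subgroup G // IsCyclic C} =>
    perC hSIGT hVFO hVIN hVCF hVNI hVDV n χ E hn hmon hF hE C.1 C.2
  refine trC_of_fintype (ι := Σ C : {C : Subgroup G // IsCyclic C},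
      {d : ℕ // d ∈ (Nat.card C.1).divisors}) E _ (fun i => i.1.1)
    (fun i => ψ i.1 i.2.1) (fun i => b i.1 i.2.1) (fun i => h1 i.1 i.2.1 i.2.2) fun g => ?_
  rw [hVAG G _ hθ g, Fintype.sum_sigma,
    Finset.sum_subtype (p := fun C : Subgroup G => IsCyclic C) _ (by simp)]
  refine Finset.sum_congr rfl fun C _ => ?_
  rw [h2 C g]
  exact (Finset.sum_coe_sort (Nat.card C.1).divisors fun d => (b C d : ℂ) *
    ∑ t ∈ Ex (orderOf (ψ C d)), indFun C.1 (extZ (ψ C d ^ t)) g).symm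

end StarkC.ABS
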