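import Pool.Agent.ABS.StV

/-!
# Project ABS, module VBR: Brauer's theorem for the group `G / ker ρ`
-/

set_option autoImplicit false

open scoped Classical

namespace StarkC.ABS.VBRx

/-- Inflation of an integral combination along a surjective homomorphism. -/
theorem monC_infl {G Q : Type} [Group G] [Fintype G] [Group Q] [Fintype Q] (π : G →* Q)
    (hπ : Function.Surjective π) (n : ℕ) (θ : Q → ℂ) (h : MonC n θ) :
    MonC n (fun g => θ (π g)) := by
  obtain ⟨k, H, ψ, c, h1, h2⟩ := h
  refine ⟨k, fun i => (H i).comap π, fun i => (ψ i).comp (π.subgroupComap (H i)), c, ?_, ?_⟩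
  · intro i
    refine MonoidHom.ext fun x => ?_
    rw [MonoidHom.pow_apply, MonoidHom.one_apply, MonoidHom.comp_apply, ← MonoidHom.pow_apply,
      h1 i, MonoidHom.one_apply]
  · intro g
    show θ (π g) = _
    rw [h2]
    refine Finset.sum_congr rfl fun i _ => ?_
    rw [CMB.indFun_infl π hπ]
    rfl

end StarkC.ABS.VBRx

namespace StarkC.ABS

open VBRx in
theorem VBR_thm : Stmt_VBR := by
  intro hB G V _ _ _ _ _ ρ n hn
  let π : G →* (G ⧸ MonoidHom.ker ρ) := QuotientGroup.mk' (MonoidHom.ker ρ)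
  let iF : Fintype (G ⧸ MonoidHom.ker ρ) := Fintype.ofFinite _
  have hπ : Function.Surjective π := QuotientGroup.mk'_surjective _
  let ρ' : Representation ℂ (G ⧸ MonoidHom.ker ρ) V :=
    QuotientGroup.lift (MonoidHom.ker ρ) ρ (fun _ hg => hg)
  have hρ' : ∀ g, ρ' (π g) = ρ g := fun g => rfl
  have hinj : Function.Injective ρ' := by
    intro q q' h
    obtain ⟨g, rfl⟩ := hπ q
    obtain ⟨g', rfl⟩ := hπ q'
    rw [hρ', hρ'] at h
    have h1 : g⁻¹ * g' ∈ MonoidHom.ker ρ := by
      rw [MonoidHom.mem_ker, map_mul, ← h, ← map_mul, inv_mul_cancel, map_one]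
    exact QuotientGroup.eq.2 h1
  have hq : ∀ q : G ⧸ MonoidHom.ker ρ, q ^ n = 1 := by
    intro q
    obtain ⟨g, rfl⟩ := hπ q
    rw [← map_pow]
    refine (QuotientGroup.eq_one_iff _).2 ?_
    rw [MonoidHom.mem_ker, map_pow]
    exact hn g
  have hmon : MonC n ρ'.character := by
    obtain ⟨k, H, ψ, c, hχ⟩ := hB (G ⧸ MonoidHom.ker ρ) V ρ'
    refine ⟨k, H, ψ, c, fun i => ?_, hχ⟩
    refine MonoidHom.ext fun x => ?_
    rw [MonoidHom.pow_apply, MonoidHom.one_apply, ← map_pow]
    have h3 : x ^ n = 1 := by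
      apply Subtype.ext
      exact hq x
    rw [h3, map_one]
  have hchar : ∀ g, ρ.character g = ρ'.character (π g) := by
    intro g
    show LinearMap.trace ℂ V (ρ g) = LinearMap.trace ℂ V (ρ' (π g))
    rw [hρ']
  refine ⟨?_, G ⧸ MonoidHom.ker ρ, V, inferInstance, iF, inferInstance, inferInstance,
    inferInstance, π, ρ', hπ, ?_, ?_, hmon, hchar⟩
  · have h4 := monC_infl π hπ n ρ'.character hmon
    have h5 : (fun g => ρ'.character (π g)) = ρ.character := by
      funext g
      exact (hchar g).symm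
    rw [h5] at h4
    exact h4
  · have h6 : Set.range ρ = Set.range ρ' := by
      ext T
      constructor
      · rintro ⟨g, rfl⟩
        exact ⟨π g, hρ' g⟩
      · rintro ⟨q, rfl⟩
        obtain ⟨g, rfl⟩ := hπ q
        exact ⟨g, (hρ' g).symm⟩
    rw [h6, Nat.card_range_of_injective hinj, Nat.card_eq_fintype_card]
  · intro q
    rw [← map_pow, hq, map_one]

end StarkC.ABS
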