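import Pool.Agent.ABS.StV
import Pool.Agent.ABS.SIGT
import Pool.Agent.ABS.FIXC

/-!
# ABS (MP_46b841_nt), part V: VCF, the Galois conjugates of the coefficients
-/

set_option autoImplicit false

open scoped Classical

namespace StarkC.ABS

namespace VCFx

/-- Every automorphism of a finite subextension extends to `ℂ`. -/
theorem ext_aut (F : IntermediateField ℚ ℂ) [FiniteDimensional ℚ F] (τ : F ≃ₐ[ℚ] F) :
    ∃ σ : ℂ ≃+* ℂ, ∀ x : F, σ (x : ℂ) = (τ x : ℂ) := by
  have hle : F ≤ algebraicClosure ℚ ℂ := by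
    intro x hx
    rw [mem_algebraicClosure_iff]
    have h1 : IsAlgebraic ℚ (⟨x, hx⟩ : F) := Algebra.IsAlgebraic.isAlgebraic _
    exact (isAlgebraic_algebraMap_iff (FaithfulSMul.algebraMap_injective F ℂ)).2 h1
  let _ : Algebra F (algebraicClosure ℚ ℂ) := (IntermediateField.inclusion hle).toRingHom.toAlgebra
  have _ : IsScalarTower ℚ F (algebraicClosure ℚ ℂ) :=
    IsScalarTower.of_algebraMap_eq fun x => ((IntermediateField.inclusion hle).commutes x).symm
  have hnormal : Normal ℚ (algebraicClosure ℚ ℂ) := by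
    have h1 := @IsAlgClosure.normal ℚ (algebraicClosure ℚ ℂ) _ _ _
      (algebraicClosure.isAlgClosure ℚ ℂ)
    exact h1
  obtain ⟨σ, hσ⟩ := SIGTx.extendQ (τ.liftNormal (algebraicClosure ℚ ℂ))
  refine ⟨σ, fun x => ?_⟩
  have h1 := hσ (algebraMap F (algebraicClosure ℚ ℂ) x)
  rw [AlgEquiv.liftNormal_commutes] at h1
  exact h1

end VCFx

open VCFx in
theorem VCF_thm : Stmt_VCF := by
  intro hS hV G _ _ n χ hn hχ hF _ _ C ψ
  have hmem : ∀ x : G, χ x ∈ StarkP.charField χ := fun x =>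
    IntermediateField.subset_adjoin ℚ _ (Set.mem_range_self x)
  have hV' := hV FIXC_thm hS
  have hconj := (hV' G n χ hn hχ).2.1
  choose σ hσ using fun τ : StarkP.charField χ ≃ₐ[ℚ] StarkP.charField χ =>
    ext_aut (StarkP.charField χ) τ
  choose c hc using fun τ : StarkP.charField χ ≃ₐ[ℚ] StarkP.charField χ =>
    (hV' G n (fun g => σ τ (χ g)) hn (hconj (σ τ))).2.2 C ψ
  have hval : ∀ (τ : StarkP.charField χ ≃ₐ[ℚ] StarkP.charField χ) (x : G),
      σ τ (χ x) = ((τ ⟨χ x, hmem x⟩ : StarkP.charField χ) : ℂ) := fun τ x => hσ τ ⟨χ x, hmem x⟩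
  have hroot : ∀ x : C, (((ψ x : ℂˣ) : ℂ)) ^ orderOf ψ = 1 := by
    intro x
    have h1 : (ψ ^ orderOf ψ) x = 1 := by rw [pow_orderOf_eq_one]; rfl
    rw [MonoidHom.pow_apply] at h1
    rw [← Units.val_pow_eq_pow_val, h1, Units.val_one]
  have htr : ∀ x : G, StarkP.trChar χ x = ∑ τ : StarkP.charField χ ≃ₐ[ℚ] StarkP.charField χ,
      ((τ ⟨χ x, hmem x⟩ : StarkP.charField χ) : ℂ) := by
    intro x
    have h1 := trace_eq_sum_automorphisms (K := ℚ) (L := StarkP.charField χ) ⟨χ x, hmem x⟩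
    have h2 := congrArg (fun y : StarkP.charField χ => (y : ℂ)) h1
    rw [IntermediateField.coe_sum] at h2
    rw [← h2]
    rfl
  have hsum : ∑ x : C, (if Subgroup.zpowers (x : G) = C then
      StarkP.trChar χ x * ((ψ x : ℂˣ) : ℂ)⁻¹ else 0) = ((∑ τ, c τ : ℤ) : ℂ) := by
    rw [Int.cast_sum, ← Finset.sum_congr rfl fun τ _ => hc τ, Finset.sum_comm]
    refine Finset.sum_congr rfl fun x _ => ?_
    by_cases hx : Subgroup.zpowers (x : G) = C
    · simp only [if_pos hx]
      rw [htr, Finset.sum_mul]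
      exact Finset.sum_congr rfl fun τ _ => by rw [hval]
    · simp only [if_neg hx, Finset.sum_const_zero]
  refine ⟨c, ?_, hsum, ?_⟩
  · intro g τ τ' hg hτ
    have h1 : ((c τ' : ℤ) : ℂ) = g ((c τ : ℤ) : ℂ) := by
      rw [← hc τ', ← hc τ, map_sum]
      refine Finset.sum_congr rfl fun x _ => ?_
      by_cases hx : Subgroup.zpowers (x : G) = C
      · simp only [if_pos hx]
        rw [map_mul, map_inv₀, hg _ (hroot x), hval, hval, hτ]
      · simp only [if_neg hx, map_zero]
    rw [map_intCast] at h1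
    exact_mod_cast h1
  · intro t ht
    have ht' := Finset.mem_filter.1 ht
    have ho : 0 < orderOf ψ := lt_of_le_of_lt (Nat.zero_le t) (Finset.mem_range.1 ht'.1)
    obtain ⟨s, hs⟩ := hS (orderOf ψ) t ho ht'.2
    have h1 := congrArg s hsum
    rw [map_intCast, map_sum] at h1
    rw [← h1]
    refine Finset.sum_congr rfl fun x _ => ?_
    by_cases hx : Subgroup.zpowers (x : G) = C
    · simp only [if_pos hx]
      have h2 : s (StarkP.trChar χ x) = StarkP.trChar χ x := by
        unfold StarkP.trChar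
        exact map_ratCast s _
      rw [map_mul, map_inv₀, hs _ (hroot x), h2]
    · simp only [if_neg hx, map_zero]

end StarkC.ABS
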