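import Pool.Agent.ABS.StV
import Pool.Agent.ABS.SIGT

/-!
# ABS, module VDV (helper62): divisibility of a sum over a Galois group (MP_46b841_nt)
-/

set_option autoImplicit false

open scoped Classical

namespace StarkC.ABS

namespace VDVx

/-- An automorphism of a finite extension of `ℚ` in `ℂ` extends to `ℂ`. -/
theorem extendF (F : IntermediateField ℚ ℂ) [FiniteDimensional ℚ F] (w : F ≃ₐ[ℚ] F) :
    ∃ σ : ℂ ≃+* ℂ, ∀ x : F, σ (x : ℂ) = ((w x : F) : ℂ) := by
  have hle : F ≤ algebraicClosure ℚ ℂ := fun x hx => by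
    rw [mem_algebraicClosure_iff]
    exact (isIntegral_algebraMap_iff (FaithfulSMul.algebraMap_injective F ℂ)
      (x := (⟨x, hx⟩ : F))).2 (Algebra.IsIntegral.isIntegral _) |>.isAlgebraic
  let _ : Algebra F (algebraicClosure ℚ ℂ) :=
    (IntermediateField.inclusion hle).toRingHom.toAlgebra
  have hT : IsScalarTower ℚ F (algebraicClosure ℚ ℂ) :=
    IsScalarTower.of_algebraMap_eq fun x =>
      ((IntermediateField.inclusion hle).commutes x).symm
  have hnormal : Normal ℚ (algebraicClosure ℚ ℂ) := by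
    have h1 := @IsAlgClosure.normal ℚ (algebraicClosure ℚ ℂ) _ _ _
      (algebraicClosure.isAlgClosure ℚ ℂ)
    convert h1
  obtain ⟨σ, hσ⟩ := SIGTx.extendQ (w.liftNormal (algebraicClosure ℚ ℂ))
  refine ⟨σ, fun x => ?_⟩
  have h1 := hσ (algebraMap F (algebraicClosure ℚ ℂ) x)
  rw [AlgEquiv.liftNormal_commutes] at h1
  exact h1

/-- A function which is constant on the cosets `W g`: the order of `W` divides its sum. -/
theorem sum_dvd {G : Type*} [Group G] [Fintype G] (W : Subgroup G) (c : G → ℤ)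
    (hc : ∀ w ∈ W, ∀ g, c (w * g) = c g) : (Nat.card W : ℤ) ∣ ∑ g, c g := by
  let C : G ⧸ W → ℤ := Quotient.lift (s := QuotientGroup.leftRel W) (fun g => c g⁻¹) (by
    intro a b hab
    have h1 : a⁻¹ * b ∈ W := QuotientGroup.leftRel_apply.1 hab
    have h2 := hc _ h1 b⁻¹
    show c a⁻¹ = c b⁻¹
    rw [← h2]
    congr 1
    group)
  have h1 : ∀ g : G, c g⁻¹ = C (Subgroup.groupEquivQuotientProdSubgroup (s := W) g).1 :=
    fun g => rfl
  have h2 : ∑ g, c g = ∑ g : G, c g⁻¹ :=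
    (Fintype.sum_equiv (Equiv.inv G) (fun g => c g⁻¹) c (fun g => rfl)).symm
  have h3 : ∑ g : G, c g⁻¹ = ∑ p : (G ⧸ W) × W, C p.1 :=
    Fintype.sum_equiv (Subgroup.groupEquivQuotientProdSubgroup (s := W)) _ _ h1
  rw [h2, h3, Fintype.sum_prod_type]
  refine Finset.dvd_sum fun q _ => ?_
  simp only [Finset.sum_const, Finset.card_univ, nsmul_eq_mul, Nat.card_eq_fintype_card]
  exact Dvd.intro _ rfl

theorem cyc_mono {a b : ℕ} (h : a ∣ b) : Cyc a ≤ Cyc b := by
  refine IntermediateField.adjoin.mono ℚ _ _ fun z hz => ?_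
  obtain ⟨k, rfl⟩ := h
  have h1 : z ^ a = 1 := hz
  show z ^ (a * k) = 1
  rw [pow_mul, h1, one_pow]

/-- The order of the group of `F` over `F ∩ M`. -/
theorem card_mul (F M : IntermediateField ℚ ℂ) [FiniteDimensional ℚ F] [IsGalois ℚ F] :
    Nat.card (IntermediateField.restrict (inf_le_left : F ⊓ M ≤ F)).fixingSubgroup *
      Module.finrank ℚ ↥(F ⊓ M) = Module.finrank ℚ F := by
  have hG : @IsGalois ℚ _ F _ (IntermediateField.algebra' F) := ‹IsGalois ℚ F›
  have h1 := IsGalois.card_fixingSubgroup_eq_finrank (F := ℚ) (E := F)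
    (IntermediateField.restrict (inf_le_left : F ⊓ M ≤ F))
  rw [h1,
    (IntermediateField.restrictAlgEquiv (inf_le_left : F ⊓ M ≤ F)).toLinearEquiv.finrank_eq,
    mul_comm]
  exact Module.finrank_mul_finrank ℚ _ _

end VDVx

theorem VDV_thm : Stmt_VDV := by
  intro hS hV N o F E _ _ hN ho hF hE c hc
  have hN' : 0 < N * o := Nat.mul_pos hN ho
  have hFN : F ≤ Cyc (N * o) := hF.trans (VDVx.cyc_mono (Dvd.intro _ rfl))
  have hMN : Cyc o ≤ Cyc (N * o) := VDVx.cyc_mono (Dvd.intro_left _ rfl)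
  have hD : F ⊓ Cyc o ≤ F := inf_le_left
  -- the order of `W` divides the sum
  have h1 : (Nat.card (IntermediateField.restrict (inf_le_left : F ⊓ Cyc o ≤ F)).fixingSubgroup
      : ℤ) ∣ ∑ τ, c τ := by
    refine VDVx.sum_dvd _ c fun w hw τ => ?_
    obtain ⟨σ, hσ⟩ := VDVx.extendF F w
    have hw' : ∀ x : F, (x : ℂ) ∈ Cyc o → w x = x := fun x hx =>
      (IntermediateField.mem_fixingSubgroup_iff _ w).1 hw x
        ((IntermediateField.mem_restrict hD x).2 ⟨x.2, hx⟩)
    obtain ⟨g, hg1, hg2⟩ := (hV hS (N * o) F (Cyc o) hN' hFN hMN).2 σ (by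
      intro x hx
      have h2 := hσ ⟨x, hx.1⟩
      rw [hw' ⟨x, hx.1⟩ hx.2] at h2
      exact h2)
    refine hc g τ (w * τ) (fun z hz => hg1 z ?_) fun x => ?_
    · exact IntermediateField.subset_adjoin ℚ _ hz
    · rw [hg2 _ (τ x).2]
      exact (hσ (τ x)).symm
  -- numbers
  have h2 := VDVx.card_mul F (Cyc o)
  have h3 := (hV hS (N * o) E (F ⊓ Cyc o) hN' (hE.trans hFN) (hD.trans hFN)).1
  have h4 : E ⊓ (F ⊓ Cyc o) = E ⊓ Cyc o := by
    rw [← inf_assoc, inf_eq_left.2 hE]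
  rw [h4] at h3
  obtain ⟨k, hk⟩ := IntermediateField.finrank_dvd_of_le_right (sup_le hE hD)
  have hfd : FiniteDimensional ℚ ↥(F ⊓ Cyc o) :=
    FiniteDimensional.of_injective (IntermediateField.inclusion hD).toLinearMap
      (IntermediateField.inclusion_injective hD)
  have hpos : 0 < Module.finrank ℚ ↥(F ⊓ Cyc o) := Module.finrank_pos
  obtain ⟨s, hs⟩ := h1
  have h5 : Nat.card (IntermediateField.restrict (inf_le_left : F ⊓ Cyc o ≤ F)).fixingSubgroup *
      Module.finrank ℚ ↥(E ⊓ Cyc o) = Module.finrank ℚ E * k := by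
    refine Nat.eq_of_mul_eq_mul_right hpos ?_
    calc _ = (Nat.card (IntermediateField.restrict
          (inf_le_left : F ⊓ Cyc o ≤ F)).fixingSubgroup * Module.finrank ℚ ↥(F ⊓ Cyc o)) *
            Module.finrank ℚ ↥(E ⊓ Cyc o) := by ring
      _ = (Module.finrank ℚ ↥(E ⊔ F ⊓ Cyc o) * Module.finrank ℚ ↥(E ⊓ Cyc o)) * k := by
          rw [h2, hk]; ring
      _ = _ := by rw [← h3]; ring
  refine ⟨(k : ℤ) * s, ?_⟩
  rw [hs]
  have h6 : (Nat.card (IntermediateField.restrict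
      (inf_le_left : F ⊓ Cyc o ≤ F)).fixingSubgroup : ℤ) *
      (Module.finrank ℚ ↥(E ⊓ Cyc o) : ℤ) = (Module.finrank ℚ E : ℤ) * (k : ℤ) := by
    exact_mod_cast h5
  linear_combination s * h6

end StarkC.ABS
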