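import Pool.Agent.ABS.StV

/-!
# Fourier analysis on a finite cyclic group (module `ABS_VFO`)
-/

set_option autoImplicit false

open scoped Classical

namespace StarkC.ABS

namespace VFOx

/-- the numbers `j < n` are the `d t`, `d ∣ n`, `t ∈ Ex (n / d)` -/
theorem sum_gcd (n : ℕ) (hn : 0 < n) (F : ℕ → ℂ) :
    ∑ j ∈ Finset.range n, F j = ∑ d ∈ n.divisors, ∑ t ∈ Ex (n / d), F (d * t) := by
  have h1 : ∀ j ∈ Finset.range n, n.gcd j ∈ n.divisors := fun j _ =>
    Nat.mem_divisors.mpr ⟨Nat.gcd_dvd_left n j, hn.ne'⟩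
  rw [← Finset.sum_fiberwise_of_maps_to h1]
  refine Finset.sum_congr rfl fun d hd => ?_
  obtain ⟨m, rfl⟩ := (Nat.mem_divisors.mp hd).1
  have hd0 : 0 < d := Nat.pos_of_ne_zero fun h => by simp [h] at hn
  rw [Nat.mul_div_cancel_left m hd0]
  symm
  refine Finset.sum_bij (fun t _ => d * t) ?_ ?_ ?_ ?_
  · intro t ht
    rw [Ex, Finset.mem_filter, Finset.mem_range] at ht
    rw [Finset.mem_filter, Finset.mem_range]
    refine ⟨Nat.mul_lt_mul_of_pos_left ht.1 hd0, ?_⟩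
    rw [Nat.gcd_mul_left, Nat.Coprime.gcd_eq_one ht.2, mul_one]
  · intro t _ t' _ h
    exact Nat.eq_of_mul_eq_mul_left hd0 h
  · intro j hj
    rw [Finset.mem_filter, Finset.mem_range] at hj
    obtain ⟨t, rfl⟩ : d ∣ j := by
      have h2 := Nat.gcd_dvd_right (d * m) j
      rwa [hj.2] at h2
    refine ⟨t, ?_, rfl⟩
    rw [Ex, Finset.mem_filter, Finset.mem_range]
    refine ⟨Nat.lt_of_mul_lt_mul_left hj.1, ?_⟩
    have h2 := hj.2
    rw [Nat.gcd_mul_left] at h2
    exact Nat.eq_of_mul_eq_mul_left hd0 (by rw [h2, mul_one])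
  · intro t _
    rfl

/-- Fourier inversion -/
theorem four {C : Type} [Group C] [Fintype C] (ψ : C →* ℂˣ) (hψ : Function.Injective ψ)
    (f : C → ℂ) (y : C) :
    (Fintype.card C : ℂ) * f y = ∑ j ∈ Finset.range (Fintype.card C),
      (∑ x, f x * ((((ψ x : ℂˣ) : ℂ)) ^ j)⁻¹) * ((ψ y : ℂˣ) : ℂ) ^ j := by
  have h1 : ∀ x : C, ∑ j ∈ Finset.range (Fintype.card C),
      ((((ψ x : ℂˣ) : ℂ)) ^ j)⁻¹ * ((ψ y : ℂˣ) : ℂ) ^ j =
        if x = y then (Fintype.card C : ℂ) else 0 := by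
    intro x
    have e1 : ∀ j : ℕ, ((((ψ x : ℂˣ) : ℂ)) ^ j)⁻¹ * ((ψ y : ℂˣ) : ℂ) ^ j =
        (((ψ (x⁻¹ * y) : ℂˣ)) : ℂ) ^ j := by
      intro j
      rw [map_mul, map_inv, Units.val_mul, Units.val_inv_eq_inv_val, mul_pow, inv_pow]
    rw [Finset.sum_congr rfl fun j _ => e1 j]
    by_cases hxy : x = y
    · rw [if_pos hxy, hxy, inv_mul_cancel, map_one, Units.val_one]
      simp
    · rw [if_neg hxy]
      have hz : (((ψ (x⁻¹ * y) : ℂˣ)) : ℂ) ≠ 1 := by
        intro h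
        apply hxy
        have h2 : ψ (x⁻¹ * y) = 1 := Units.ext h
        have h3 : x⁻¹ * y = 1 := hψ (by rw [h2, map_one])
        exact inv_mul_eq_one.mp h3
      rw [geom_sum_eq hz, ← Units.val_pow_eq_pow_val, ← map_pow, pow_card_eq_one, map_one,
        Units.val_one, sub_self, zero_div]
  calc (Fintype.card C : ℂ) * f y
      = ∑ x, f x * (if x = y then (Fintype.card C : ℂ) else 0) := by
        rw [Finset.sum_eq_single y (fun x _ hx => by rw [if_neg hx, mul_zero])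
          (fun h => absurd (Finset.mem_univ y) h), if_pos rfl, mul_comm]
    _ = ∑ x, ∑ j ∈ Finset.range (Fintype.card C),
          f x * ((((ψ x : ℂˣ) : ℂ)) ^ j)⁻¹ * ((ψ y : ℂˣ) : ℂ) ^ j := by
        refine Finset.sum_congr rfl fun x _ => ?_
        rw [← h1 x, Finset.mul_sum]
        exact Finset.sum_congr rfl fun j _ => (mul_assoc _ _ _).symm
    _ = _ := by
        rw [Finset.sum_comm]
        exact Finset.sum_congr rfl fun j _ => (Finset.sum_mul _ _ _).symm

/-- a faithful character of a finite cyclic group -/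
theorem exists_faithful (C : Type) [Group C] [Fintype C] [IsCyclic C] :
    ∃ ψ : C →* ℂˣ, Function.Injective ψ ∧ orderOf ψ = Fintype.card C := by
  obtain ⟨g, hg⟩ := IsCyclic.exists_generator (α := C)
  have hN : Fintype.card C ≠ 0 := Fintype.card_ne_zero
  have hprim := Complex.isPrimitiveRoot_exp (Fintype.card C) hN
  obtain ⟨ζ, hζ⟩ : ∃ ζ : ℂˣ, orderOf ζ = Fintype.card C := by
    refine ⟨(hprim.isUnit hN).unit, ?_⟩
    exact (IsPrimitiveRoot.coe_units_iff.mp (by rwa [IsUnit.unit_spec])).eq_orderOf.symm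
  have hog : orderOf g = Fintype.card C := by
    rw [orderOf_eq_card_of_forall_mem_zpowers hg, Nat.card_eq_fintype_card]
  have hdvd : orderOf ζ ∣ orderOf g := by rw [hζ, hog]
  have hgen : monoidHomOfForallMemZpowers hg hdvd g = ζ :=
    monoidHomOfForallMemZpowers_apply_gen hg hdvd
  generalize monoidHomOfForallMemZpowers hg hdvd = ψ at hgen
  refine ⟨ψ, ?_, ?_⟩
  · rw [injective_iff_map_eq_one]
    intro x hx
    obtain ⟨k, rfl⟩ := Subgroup.mem_zpowers_iff.mp (hg x)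
    rw [map_zpow, hgen, ← orderOf_dvd_iff_zpow_eq_one, hζ, ← hog] at hx
    exact orderOf_dvd_iff_zpow_eq_one.mp hx
  · refine Nat.dvd_antisymm ?_ ?_
    · rw [orderOf_dvd_iff_pow_eq_one]
      ext x
      rw [MonoidHom.pow_apply, ← map_pow, pow_card_eq_one, map_one, MonoidHom.one_apply]
    · rw [← hζ, orderOf_dvd_iff_pow_eq_one, ← hgen, ← MonoidHom.pow_apply, pow_orderOf_eq_one,
        MonoidHom.one_apply]

end VFOx

open VFOx in
theorem VFO_thm : Stmt_VFO := by
  intro C _ _ _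
  obtain ⟨ψ, hψ, ho⟩ := exists_faithful C
  have hN : 0 < Fintype.card C := Fintype.card_pos
  refine ⟨fun d => ψ ^ d, fun d hd => ?_, fun f hf y => ?_⟩
  · have hd1 := (Nat.mem_divisors.mp hd).1
    have hd0 : d ≠ 0 := fun h => by
      rw [h, zero_dvd_iff] at hd1
      omega
    rw [orderOf_pow_of_dvd hd0 (by rwa [ho]), ho]
  · rw [four ψ hψ f y, sum_gcd _ hN]
    refine Finset.sum_congr rfl fun d hd => ?_
    rw [Finset.mul_sum]
    refine Finset.sum_congr rfl fun t ht => ?_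
    have h1 : ∀ x : C, ((ψ x : ℂˣ) : ℂ) ^ (d * t) = ((((ψ ^ d) x : ℂˣ) : ℂ)) ^ t := by
      intro x
      rw [MonoidHom.pow_apply, Units.val_pow_eq_pow_val, pow_mul]
    rw [h1 y, ← hf d hd t ht]
    congr 1
    exact Finset.sum_congr rfl fun x _ => by rw [h1 x]

end StarkC.ABS
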