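import Pool.Agent.ABS.StV

/-!
# ABS_VIN: integrality of the sums over generators (MP_46b841_nt, part V)
-/

set_option autoImplicit false

open scoped Classical

namespace StarkC.ABS

namespace VINx

/-- an automorphism of `ℂ` acts on the `n`-th roots of unity as a power -/
theorem act (σ : ℂ ≃+* ℂ) (n : ℕ) (hn : 0 < n) :
    ∃ t : ℕ, n.Coprime t ∧ ∀ z : ℂ, z ^ n = 1 → σ z = z ^ t := by
  have hζ : IsPrimitiveRoot (Complex.exp (2 * Real.pi * Complex.I / n)) n :=
    Complex.isPrimitiveRoot_exp n hn.ne'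
  set ζ := Complex.exp (2 * Real.pi * Complex.I / n)
  have hσ : IsPrimitiveRoot (σ ζ) n := hζ.map_of_injective σ.injective
  have : NeZero n := ⟨hn.ne'⟩
  obtain ⟨t, _, ht⟩ := hζ.eq_pow_of_pow_eq_one hσ.pow_eq_one
  refine ⟨t, ?_, ?_⟩
  · rw [← ht] at hσ
    exact ((hζ.pow_iff_coprime hn t).1 hσ).symm
  · intro z hz
    obtain ⟨i, _, rfl⟩ := hζ.eq_pow_of_pow_eq_one hz
    rw [map_pow, ← ht, ← pow_mul, ← pow_mul, mul_comm]

variable {G : Type} [Group G] [Fintype G]

theorem ind_conj (H : Subgroup G) (f : G → ℂ) (x g : G) :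
    indFun H f (x⁻¹ * g * x) = indFun H f g := by
  unfold indFun
  congr 1
  refine Fintype.sum_equiv (Equiv.mulLeft x) _ _ fun y => ?_
  have h : y⁻¹ * (x⁻¹ * g * x) * y = (x * y)⁻¹ * g * (x * y) := by group
  change (if y⁻¹ * (x⁻¹ * g * x) * y ∈ H then f (y⁻¹ * (x⁻¹ * g * x) * y) else 0) =
    (if (x * y)⁻¹ * g * (x * y) ∈ H then f ((x * y)⁻¹ * g * (x * y)) else 0)
  rw [h]

theorem ind_sig (σ : ℂ ≃+* ℂ) {n t : ℕ} (hσ : ∀ z : ℂ, z ^ n = 1 → σ z = z ^ t) (H : Subgroup G)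
    (ψ : H →* ℂˣ) (hψ : ψ ^ n = 1) (g : G) :
    σ (indFun H (extZ ψ) g) = indFun H (extZ (ψ ^ t)) g := by
  unfold indFun
  rw [map_div₀, map_sum, map_natCast]
  congr 1
  refine Finset.sum_congr rfl fun x _ => ?_
  rw [apply_ite σ, map_zero]
  by_cases h : x⁻¹ * g * x ∈ H
  · rw [if_pos h, if_pos h]
    unfold extZ
    rw [dif_pos h, dif_pos h, hσ]
    · simp
    · have h1 := congrArg (fun f : H →* ℂˣ => ((f ⟨_, h⟩ : ℂˣ) : ℂ)) hψ
      simpa using h1
  · rw [if_neg h, if_neg h]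

/-- the sum of a character over the generators is an integer -/
theorem gen_sum (hF : Stmt_FIXC) (C : Subgroup G) (μ : C →* ℂˣ) :
    ∃ a : ℤ, ∑ x : C, (if Subgroup.zpowers (x : G) = C then ((μ x : ℂˣ) : ℂ) else 0) = (a : ℂ) := by
  set s : ℂ := ∑ x : C, (if Subgroup.zpowers (x : G) = C then ((μ x : ℂˣ) : ℂ) else 0) with hs
  have hN : 0 < Nat.card C := Nat.card_pos
  have hroot : ∀ x : C, ((μ x : ℂˣ) : ℂ) ^ Nat.card C = 1 := by
    intro x
    rw [← Units.val_pow_eq_pow_val, ← map_pow, pow_card_eq_one', map_one, Units.val_one]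
  have hfix : ∀ σ : ℂ ≃+* ℂ, σ s = s := by
    intro σ
    obtain ⟨t, ht, hσ⟩ := act σ (Nat.card C) hN
    rw [hs, map_sum]
    refine Fintype.sum_equiv (powCoprime ht) _ _ fun x => ?_
    have hz : Subgroup.zpowers ((powCoprime ht x : C) : G) = Subgroup.zpowers (x : G) := by
      have h1 : ((powCoprime ht x : C) : G) = (x : G) ^ t := by
        simp [powCoprime]
      rw [h1]
      apply le_antisymm
      · rw [Subgroup.zpowers_le]
        exact pow_mem (Subgroup.mem_zpowers _) t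
      · rw [Subgroup.zpowers_le]
        have h5 : orderOf (x : G) ∣ Nat.card C := by
          rw [Subgroup.orderOf_coe]
          exact orderOf_dvd_natCard x
        have h2 : t.Coprime (orderOf (x : G)) := (Nat.Coprime.coprime_dvd_left h5 ht).symm
        obtain ⟨m, hm⟩ := exists_pow_eq_self_of_coprime h2
        have h6 : ((x : G) ^ t) ^ m ∈ Subgroup.zpowers ((x : G) ^ t) :=
          pow_mem (Subgroup.mem_zpowers ((x : G) ^ t)) m
        rwa [hm] at h6
    rw [hz, apply_ite σ, map_zero, hσ _ (hroot x)]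
    have h3 : ((μ (powCoprime ht x) : ℂˣ) : ℂ) = ((μ x : ℂˣ) : ℂ) ^ t := by
      simp [powCoprime]
    rw [h3]
  have hmem : s ∈ Cyc 1 := hF 1 s fun σ _ => hfix σ
  have hbot : Cyc 1 = ⊥ := by
    unfold Cyc
    rw [IntermediateField.adjoin_eq_bot_iff]
    intro z hz
    change z ^ 1 = 1 at hz
    rw [pow_one] at hz
    rw [hz]
    exact one_mem _
  rw [hbot, IntermediateField.mem_bot] at hmem
  obtain ⟨q, hq⟩ := hmem
  have hint : IsIntegral ℤ s := by
    rw [hs]
    refine IsIntegral.sum _ fun x _ => ?_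
    split_ifs
    · exact IsIntegral.of_pow hN (by rw [hroot]; exact isIntegral_one)
    · exact isIntegral_zero
  rw [← hq] at hint
  have hq2 : IsIntegral ℤ q := (isIntegral_algebraMap_iff (algebraMap ℚ ℂ).injective).1 hint
  obtain ⟨a, ha⟩ := IsIntegrallyClosed.isIntegral_iff.1 hq2
  refine ⟨a, ?_⟩
  rw [← hq, ← ha]
  simp

/-- sums over cosets -/
theorem coset_sum (H : Subgroup G) (T : G → ℂ) (hT : ∀ y, ∀ h ∈ H, T (y * h) = T y) :
    ∑ y, T y = (Nat.card H : ℂ) * ∑ q : G ⧸ H, T q.out := by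
  have hbij : Function.Bijective (fun p : (G ⧸ H) × H => p.1.out * (p.2 : G)) := by
    constructor
    · rintro ⟨q, h⟩ ⟨q', h'⟩ he
      simp only at he
      have h1 : ((q.out * (h : G) : G) : G ⧸ H) = ((q'.out * (h' : G) : G) : G ⧸ H) :=
        congrArg _ he
      rw [QuotientGroup.mk_mul_of_mem _ h.2, QuotientGroup.mk_mul_of_mem _ h'.2,
        QuotientGroup.out_eq', QuotientGroup.out_eq'] at h1
      subst h1
      rw [mul_right_inj] at he
      exact Prod.ext rfl (Subtype.ext he)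
    · intro y
      refine ⟨((y : G ⧸ H), ⟨(y : G ⧸ H).out⁻¹ * y, ?_⟩), ?_⟩
      · rw [← QuotientGroup.eq, QuotientGroup.out_eq']
      · simp
  rw [← Equiv.sum_comp (Equiv.ofBijective _ hbij) T, Fintype.sum_prod_type, Finset.mul_sum]
  refine Finset.sum_congr rfl fun q _ => ?_
  have h2 : ∀ h : H, T ((Equiv.ofBijective _ hbij) (q, h)) = T q.out := fun h => hT _ _ h.2
  rw [Finset.sum_congr rfl fun h _ => h2 h, Finset.sum_const, Finset.card_univ, nsmul_eq_mul,
    Nat.card_eq_fintype_card]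

/-- the sum for one element `y` -/
noncomputable def T (C H : Subgroup G) (l : H →* ℂˣ) (ψ : C →* ℂˣ) (y : G) : ℂ :=
  ∑ x : C, (if Subgroup.zpowers (x : G) = C then
    (if y⁻¹ * x * y ∈ H then extZ l (y⁻¹ * x * y) else 0) * ((ψ x : ℂˣ) : ℂ)⁻¹ else 0)

theorem T_int (hF : Stmt_FIXC) (C H : Subgroup G) (l : H →* ℂˣ) (ψ : C →* ℂˣ) (y : G) :
    ∃ a : ℤ, T C H l ψ y = (a : ℂ) := by
  by_cases hC : ∀ x : C, y⁻¹ * (x : G) * y ∈ H
  · let κ : C →* H :=
      { toFun := fun x => ⟨y⁻¹ * (x : G) * y, hC x⟩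
        map_one' := by ext; simp
        map_mul' := fun a b => by ext; simp; group }
    obtain ⟨a, ha⟩ := gen_sum hF C ((l.comp κ) * ψ⁻¹)
    refine ⟨a, ?_⟩
    rw [← ha]
    unfold T
    refine Finset.sum_congr rfl fun x _ => ?_
    rw [if_pos (hC x)]
    have h1 : extZ l (y⁻¹ * (x : G) * y) = ((l (κ x) : ℂˣ) : ℂ) := by
      unfold extZ
      rw [dif_pos (hC x)]
      rfl
    rw [h1]
    simp
  · refine ⟨0, ?_⟩
    unfold T
    rw [Int.cast_zero]
    refine Finset.sum_eq_zero fun x _ => ?_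
    by_cases hx : Subgroup.zpowers (x : G) = C
    · have h1 : y⁻¹ * (x : G) * y ∉ H := by
        intro h
        apply hC
        intro z
        have hz : (z : G) ∈ Subgroup.zpowers (x : G) := by rw [hx]; exact z.2
        obtain ⟨k, hk⟩ := Subgroup.mem_zpowers_iff.1 hz
        rw [← hk]
        have h2 : y⁻¹ * (x : G) ^ k * y = (y⁻¹ * (x : G) * y) ^ k := by
          have h3 := (conj_zpow (i := k) (a := y⁻¹) (b := (x : G))).symm
          rw [inv_inv] at h3
          exact h3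
        rw [h2]
        exact zpow_mem h k
      rw [if_pos hx, if_neg h1, zero_mul]
    · rw [if_neg hx]

theorem T_mul (C H : Subgroup G) (l : H →* ℂˣ) (ψ : C →* ℂˣ) (y h : G) (hh : h ∈ H) :
    T C H l ψ (y * h) = T C H l ψ y := by
  unfold T
  refine Finset.sum_congr rfl fun x _ => ?_
  have h1 : (y * h)⁻¹ * (x : G) * (y * h) = h⁻¹ * (y⁻¹ * (x : G) * y) * h := by group
  have h2 : (h⁻¹ * (y⁻¹ * (x : G) * y) * h ∈ H) ↔ (y⁻¹ * (x : G) * y ∈ H) := by
    rw [Subgroup.mul_mem_cancel_right _ hh, Subgroup.mul_mem_cancel_left _ (inv_mem hh)]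
  rw [h1]
  by_cases hx : y⁻¹ * (x : G) * y ∈ H
  · have h3 : extZ l (h⁻¹ * (y⁻¹ * (x : G) * y) * h) = extZ l (y⁻¹ * (x : G) * y) := by
      unfold extZ
      rw [dif_pos (h2.2 hx), dif_pos hx]
      have h4 : (⟨h⁻¹ * (y⁻¹ * (x : G) * y) * h, h2.2 hx⟩ : H) =
          ⟨h, hh⟩⁻¹ * ⟨y⁻¹ * (x : G) * y, hx⟩ * ⟨h, hh⟩ := by
        ext
        simp
      rw [h4, map_mul, map_mul, map_inv, mul_comm, ← mul_assoc, mul_inv_cancel, one_mul]
    rw [if_pos hx, if_pos (h2.2 hx), h3]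
  · rw [if_neg hx, if_neg (fun h' => hx (h2.1 h'))]

theorem one_int (hF : Stmt_FIXC) (C H : Subgroup G) (l : H →* ℂˣ) (ψ : C →* ℂˣ) : ∃ a : ℤ,
    ∑ x : C, (if Subgroup.zpowers (x : G) = C then
      indFun H (extZ l) x * ((ψ x : ℂˣ) : ℂ)⁻¹ else 0) = (a : ℂ) := by
  have hH : (Nat.card H : ℂ) ≠ 0 := by
    exact_mod_cast (Nat.card_pos (α := H)).ne'
  have h1 : ∑ x : C, (if Subgroup.zpowers (x : G) = C then
      indFun H (extZ l) x * ((ψ x : ℂˣ) : ℂ)⁻¹ else 0) =
      (∑ y : G, T C H l ψ y) / (Nat.card H : ℂ) := by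
    unfold T
    rw [Finset.sum_comm, Finset.sum_div]
    refine Finset.sum_congr rfl fun x _ => ?_
    by_cases hx : Subgroup.zpowers (x : G) = C
    · simp only [if_pos hx]
      unfold indFun
      rw [← Finset.sum_mul]
      ring
    · simp only [if_neg hx]
      rw [Finset.sum_const_zero, zero_div]
  rw [h1, coset_sum H _ (fun y h hh => T_mul C H l ψ y h hh), mul_div_cancel_left₀ _ hH]
  choose a ha using fun q : G ⧸ H => T_int hF C H l ψ q.out
  refine ⟨∑ q, a q, ?_⟩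
  rw [Int.cast_sum]
  exact Finset.sum_congr rfl fun q _ => ha q

end VINx

open VINx in
theorem VIN_thm : Stmt_VIN := by
  intro hF _ G _ _ n χ hn hχ
  obtain ⟨r, H, l, c, hl, hc⟩ := hχ
  refine ⟨?_, ?_, ?_⟩
  · intro x g
    rw [hc, hc]
    exact Finset.sum_congr rfl fun i _ => by rw [ind_conj]
  · intro σ
    obtain ⟨t, _, ht⟩ := act σ n hn
    refine ⟨r, H, fun i => l i ^ t, c, fun i => ?_, fun g => ?_⟩
    · refine MonoidHom.ext fun x => ?_
      have h6 : (l i x) ^ n = 1 := by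
        have h7 := DFunLike.congr_fun (hl i) x
        simpa using h7
      change ((l i x) ^ t) ^ n = 1
      rw [← pow_mul, mul_comm, pow_mul, h6, one_pow]
    · simp only
      rw [hc, map_sum]
      refine Finset.sum_congr rfl fun i _ => ?_
      rw [map_mul, map_intCast, ind_sig σ ht (H i) (l i) (hl i) g]
  · intro C ψ
    choose a ha using fun i => one_int hF C (H i) (l i) ψ
    refine ⟨∑ i, c i * a i, ?_⟩
    have h1 : ∀ x : C, (if Subgroup.zpowers (x : G) = C then χ x * ((ψ x : ℂˣ) : ℂ)⁻¹ else 0) =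
        ∑ i, (c i : ℂ) * (if Subgroup.zpowers (x : G) = C then
          indFun (H i) (extZ (l i)) x * ((ψ x : ℂˣ) : ℂ)⁻¹ else 0) := by
      intro x
      by_cases hx : Subgroup.zpowers (x : G) = C
      · simp only [if_pos hx]
        rw [hc, Finset.sum_mul]
        exact Finset.sum_congr rfl fun i _ => by ring
      · simp only [if_neg hx, mul_zero, Finset.sum_const_zero]
    rw [Finset.sum_congr rfl fun x _ => h1 x, Finset.sum_comm, Int.cast_sum]
    refine Finset.sum_congr rfl fun i _ => ?_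
    rw [← Finset.mul_sum, ha, Int.cast_mul]

end StarkC.ABS
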