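import Pool.Agent.ABS.StV
import Pool.Agent.ABS.COREB

/-!
# ABS, module VNI: natural irrationalities in cyclotomic fields
-/

set_option autoImplicit false

open scoped Classical

namespace StarkC.ABS

namespace VNIx

open IntermediateField

section

variable {k L : Type} [Field k] [Field L] [Algebra k L] [FiniteDimensional k L]
  [IsAbelianGalois k L]

omit [FiniteDimensional k L] in
theorem comm (a b : L ≃ₐ[k] L) : a * b = b * a :=
  (IsMulCommutative.is_comm (M := L ≃ₐ[k] L)).comm a b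

theorem fix_inf (E M : IntermediateField k L) :
    (E ⊓ M).fixingSubgroup = E.fixingSubgroup ⊔ M.fixingSubgroup := by
  have h1 : fixedField (E.fixingSubgroup ⊔ M.fixingSubgroup) = E ⊓ M := by
    apply le_antisymm
    · refine le_inf ?_ ?_
      · refine (fixedField_le le_sup_left).trans ?_
        rw [IsGalois.fixedField_fixingSubgroup]
      · refine (fixedField_le le_sup_right).trans ?_
        rw [IsGalois.fixedField_fixingSubgroup]
    · rw [le_iff_le]
      exact sup_le (fixingSubgroup_le inf_le_left) (fixingSubgroup_le inf_le_right)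
  rw [← h1, fixingSubgroup_fixedField]

theorem deg (E M : IntermediateField k L) : Module.finrank k E * Module.finrank k M =
    Module.finrank k ↥(E ⊔ M) * Module.finrank k ↥(E ⊓ M) := by
  rw [finrank_eq_fixingSubgroup_index, finrank_eq_fixingSubgroup_index,
    finrank_eq_fixingSubgroup_index, finrank_eq_fixingSubgroup_index, fixingSubgroup_sup, fix_inf]
  generalize E.fixingSubgroup = A
  generalize M.fixingSubgroup = B
  have h1 := Subgroup.relIndex_mul_index (inf_le_left : A ⊓ B ≤ A)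
  have h2 := Subgroup.relIndex_mul_index (le_sup_right : B ≤ A ⊔ B)
  rw [Subgroup.inf_relIndex_left] at h1
  rw [Subgroup.relIndex_sup_right] at h2
  rw [← h1, ← h2]
  ring

theorem split (E M : IntermediateField k L) (γ : L ≃ₐ[k] L) (h : ∀ x ∈ E ⊓ M, γ x = x) :
    ∃ b : L ≃ₐ[k] L, (∀ x ∈ M, b x = x) ∧ ∀ x ∈ E, b x = γ x := by
  have h1 : γ ∈ (E ⊓ M).fixingSubgroup := (mem_fixingSubgroup_iff _ _).2 h
  rw [fix_inf, Subgroup.mem_sup_of_normal_right] at h1
  obtain ⟨a, ha, b, hb, rfl⟩ := h1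
  refine ⟨b, (mem_fixingSubgroup_iff _ _).1 hb, fun x hx => ?_⟩
  rw [comm a b]
  change b x = b (a x)
  rw [(mem_fixingSubgroup_iff _ _).1 ha x hx]

end

section

variable {k F : Type} [Field k] [Field F] [Algebra k F]

theorem gdeg (C E M : IntermediateField k F) [FiniteDimensional k C] [IsAbelianGalois k C]
    (hE : E ≤ C) (hM : M ≤ C) : Module.finrank k E * Module.finrank k M =
    Module.finrank k ↥(E ⊔ M) * Module.finrank k ↥(E ⊓ M) := by
  have h := deg (restrict hE) (restrict hM)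
  have e1 : Module.finrank k E = Module.finrank k (restrict hE) :=
    (restrictAlgEquiv hE).toLinearEquiv.finrank_eq
  have e2 : Module.finrank k M = Module.finrank k (restrict hM) :=
    (restrictAlgEquiv hM).toLinearEquiv.finrank_eq
  have e3 : Module.finrank k ↥(E ⊔ M) = Module.finrank k ↥(restrict hE ⊔ restrict hM) := by
    have h1 : E ⊔ M = lift (restrict hE ⊔ restrict hM) := by
      rw [lift_sup, lift_restrict, lift_restrict]
    rw [h1]
    exact (liftAlgEquiv _).toLinearEquiv.finrank_eq.symm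
  have e4 : Module.finrank k ↥(E ⊓ M) = Module.finrank k ↥(restrict hE ⊓ restrict hM) := by
    have h1 : E ⊓ M = lift (restrict hE ⊓ restrict hM) := by
      rw [lift_inf, lift_restrict, lift_restrict]
    rw [h1]
    exact (liftAlgEquiv _).toLinearEquiv.finrank_eq.symm
  rw [e1, e2, e3, e4]
  exact h

theorem gsplit (C E M : IntermediateField k F) [FiniteDimensional k C] [IsAbelianGalois k C]
    (hE : E ≤ C) (hM : M ≤ C) (G : F ≃ₐ[k] F) (hG : ∀ x ∈ E ⊓ M, G x = x) :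
    ∃ b : C ≃+* C, (∀ x : C, (x : F) ∈ M → b x = x) ∧ ∀ x : C, (x : F) ∈ E → (b x : F) = G x := by
  have hγ : ∀ x : C, ((G.restrictNormal C x : C) : F) = G x :=
    fun x => G.restrictNormal_commutes C x
  obtain ⟨b, hb1, hb2⟩ := split (restrict hE) (restrict hM) (G.restrictNormal C)
    (fun x hx => Subtype.ext (by
      rw [hγ]
      exact hG x ⟨(mem_restrict hE x).1 hx.1, (mem_restrict hM x).1 hx.2⟩))
  refine ⟨b.toRingEquiv, fun x hx => hb1 x ((mem_restrict hM x).2 hx), fun x hx => ?_⟩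
  change ((b x : C) : F) = G x
  rw [hb2 x ((mem_restrict hE x).2 hx), hγ]

end

/-- automorphisms of `ℚ(ζ_N)` extend to `ℂ` -/
theorem exists_ext (hS : Stmt_SIGT) (N : ℕ) (hN : 0 < N) (b : Cyc N ≃+* Cyc N) :
    ∃ σ : ℂ ≃+* ℂ, ∀ x : Cyc N, σ x = ((b x : Cyc N) : ℂ) := by
  obtain ⟨ζ, hζ⟩ : ∃ ζ : ℂ, IsPrimitiveRoot ζ N := ⟨_, Complex.isPrimitiveRoot_exp N hN.ne'⟩
  have hmem : ζ ∈ Cyc N := subset_adjoin _ _ hζ.pow_eq_one
  have h1 : IsPrimitiveRoot (⟨ζ, hmem⟩ : Cyc N) N :=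
    IsPrimitiveRoot.of_map_of_injective (f := (Cyc N).val) hζ Subtype.val_injective
  have h2 : IsPrimitiveRoot (b ⟨ζ, hmem⟩) N := h1.map_of_injective b.injective
  have h3 : IsPrimitiveRoot ((b ⟨ζ, hmem⟩ : Cyc N) : ℂ) N :=
    h2.map_of_injective (f := (Cyc N).val) Subtype.val_injective
  have hN0 : NeZero N := ⟨hN.ne'⟩
  obtain ⟨t, -, ht2, ht3⟩ := hζ.isPrimitiveRoot_iff.1 h3
  obtain ⟨σ, hσ⟩ := hS N t hN ht2.symm
  refine ⟨σ, ?_⟩
  rintro ⟨x, hx⟩
  change σ x = ((b ⟨x, hx⟩ : Cyc N) : ℂ)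
  refine IntermediateField.adjoin_induction ℚ
    (p := fun x hx => σ x = ((b (⟨x, hx⟩ : Cyc N) : Cyc N) : ℂ)) ?_ ?_ ?_ ?_ ?_ hx
  · intro y hy
    obtain ⟨j, -, hj⟩ := hζ.eq_pow_of_pow_eq_one hy
    have h4 : (⟨y, subset_adjoin _ _ hy⟩ : Cyc N) = (⟨ζ, hmem⟩ : Cyc N) ^ j :=
      Subtype.ext hj.symm
    rw [hσ y hy]
    have h5 : ((b (⟨y, subset_adjoin _ _ hy⟩ : Cyc N) : Cyc N) : ℂ) =
        ((b (⟨ζ, hmem⟩ : Cyc N) : Cyc N) : ℂ) ^ j := by
      rw [h4, map_pow]
      rfl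
    refine Eq.trans ?_ h5.symm
    rw [← ht3, ← hj, ← pow_mul, ← pow_mul, mul_comm]
  · intro r
    have h4 : b (algebraMap ℚ (Cyc N) r) = algebraMap ℚ (Cyc N) r := map_ratCast b r
    have h6 : σ (algebraMap ℚ ℂ r) = algebraMap ℚ ℂ r := map_ratCast σ r
    rw [h6]
    exact (congrArg Subtype.val h4).symm
  · intro x y hx hy h4 h5
    rw [map_add, h4, h5]
    have h6 := congrArg Subtype.val (map_add b (⟨x, hx⟩ : Cyc N) ⟨y, hy⟩)
    exact h6.symm
  · intro x hx h4
    rw [map_inv₀, h4]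
    have h6 := congrArg Subtype.val (map_inv₀ b (⟨x, hx⟩ : Cyc N))
    exact h6.symm
  · intro x y hx hy h4 h5
    rw [map_mul, h4, h5]
    have h6 := congrArg Subtype.val (map_mul b (⟨x, hx⟩ : Cyc N) ⟨y, hy⟩)
    exact h6.symm

theorem cyc_ab (N : ℕ) (hN : 0 < N) :
    @IsAbelianGalois ℚ (Cyc N) _ _ (Cyc N).algebra' ∧
    @Module.Finite ℚ (Cyc N) _ _ (Cyc N).algebra'.toModule := by
  have hcyc := COREBx.isCyc N hN.ne'
  have hN0 : NeZero N := ⟨hN.ne'⟩
  have e : ∀ a : Algebra ℚ (Cyc N), @IsCyclotomicExtension {N} ℚ (Cyc N) _ _ a →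
      @IsCyclotomicExtension {N} ℚ (Cyc N) _ _ (Cyc N).algebra' := by
    intro a ha
    rw [Subsingleton.elim (Cyc N).algebra' a]
    exact ha
  have hc := e _ hcyc
  exact ⟨@IsCyclotomicExtension.isAbelianGalois {N} ℚ (Cyc N) _ _ (Cyc N).algebra' hc,
    @IsCyclotomicExtension.finite {N} ℚ (Cyc N) _ _ (Cyc N).algebra' _ _ hc⟩

end VNIx

open VNIx IntermediateField in
theorem VNI_thm : Stmt_VNI := by
  intro hS N E M hN hE hM
  obtain ⟨hab, hfd⟩ := cyc_ab N hN
  constructor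
  · exact @gdeg ℚ ℂ _ _ _ (Cyc N) E M hfd hab hE hM
  · intro g hg
    obtain ⟨b, hb1, hb2⟩ := @gsplit ℚ ℂ _ _ _ (Cyc N) E M hfd hab hE hM
      (AlgEquiv.ofRingEquiv (f := g) (fun r => map_ratCast g r)) hg
    obtain ⟨σ, hσ⟩ := exists_ext hS N hN b
    refine ⟨σ, fun x hx => ?_, fun x hx => ?_⟩
    · have h1 := hσ ⟨x, hM hx⟩
      rw [hb1 _ hx] at h1
      exact h1
    · have h1 := hσ ⟨x, hE hx⟩
      exact h1.trans (hb2 _ hx)

end StarkC.ABS
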