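import Pool.Agent.ABS.StV

/-!
# Project ABS (MP_46b841_nt), module VTC (helper68): closure properties of `TrC`, inflation of `MonC`
-/

set_option autoImplicit false

open scoped Classical

namespace StarkC.ABS

namespace VTCx

theorem ex_one : Ex 1 = {0} := by
  unfold Ex
  decide

theorem indFun_one {G : Type} [Group G] [Fintype G] (H : Subgroup G) (t : ℕ) (g : G) :
    indFun H (extZ ((1 : H →* ℂˣ) ^ t)) g = indFun H (fun _ => 1) g := by
  unfold indFun
  congr 1
  refine Finset.sum_congr rfl fun x _ => ?_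
  by_cases hx : x⁻¹ * g * x ∈ H
  · rw [if_pos hx, if_pos hx]
    unfold extZ
    rw [dif_pos hx, MonoidHom.pow_apply, MonoidHom.one_apply, one_pow]
    rfl
  · rw [if_neg hx, if_neg hx]

/-- families with any finite index type -/
theorem of_fam {G : Type} [Group G] [Fintype G] (E : IntermediateField ℚ ℂ) (θ : G → ℂ)
    {ι : Type} [Fintype ι] (H : ι → Subgroup G) (ψ : ∀ i, H i →* ℂˣ) (c : ι → ℤ)
    (hd : ∀ i, (Module.finrank ℚ E : ℤ) ∣
      c i * (Module.finrank ℚ ↥(E ⊓ Cyc (orderOf (ψ i))) : ℤ))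
    (hθ : ∀ g, θ g = ∑ i, (c i : ℂ) * ∑ t ∈ Ex (orderOf (ψ i)), indFun (H i) (extZ (ψ i ^ t)) g) :
    TrC E θ := by
  let e : Fin (Fintype.card ι) ≃ ι := (Fintype.equivFin ι).symm
  refine ⟨Fintype.card ι, fun i => H (e i), fun i => ψ (e i), fun i => c (e i),
    fun i => hd (e i), fun g => ?_⟩
  rw [hθ g]
  exact (Equiv.sum_comp e fun i => (c i : ℂ) *
    ∑ t ∈ Ex (orderOf (ψ i)), indFun (H i) (extZ (ψ i ^ t)) g).symm

/-- combinations -/
theorem comb {G : Type} [Group G] [Fintype G] (E : IntermediateField ℚ ℂ) (θ θ' : G → ℂ)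
    (u v : ℤ) (h : TrC E θ) (h' : TrC E θ') :
    TrC E (fun g => (u : ℂ) * θ g + (v : ℂ) * θ' g) := by
  obtain ⟨r, H, ψ, c, hd, hθ⟩ := h
  obtain ⟨r', H', ψ', c', hd', hθ'⟩ := h'
  let HH : Fin r ⊕ Fin r' → Subgroup G := Sum.elim H H'
  let ψψ : ∀ i, HH i →* ℂˣ := fun i => match i with
    | Sum.inl i => ψ i
    | Sum.inr j => ψ' j
  let cc : Fin r ⊕ Fin r' → ℤ := Sum.elim (fun i => u * c i) (fun j => v * c' j)
  refine of_fam E _ HH ψψ cc ?_ fun g => ?_
  · rintro (i | j)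
    · show (Module.finrank ℚ E : ℤ) ∣ u * c i * (Module.finrank ℚ ↥(E ⊓ Cyc (orderOf (ψ i))) : ℤ)
      rw [mul_assoc]
      exact (hd i).mul_left u
    · show (Module.finrank ℚ E : ℤ) ∣ v * c' j * (Module.finrank ℚ ↥(E ⊓ Cyc (orderOf (ψ' j))) : ℤ)
      rw [mul_assoc]
      exact (hd' j).mul_left v
  · rw [Fintype.sum_sum_type]
    show (u : ℂ) * θ g + (v : ℂ) * θ' g =
      ∑ i, ((u * c i : ℤ) : ℂ) * ∑ t ∈ Ex (orderOf (ψ i)), indFun (H i) (extZ (ψ i ^ t)) g +
      ∑ j, ((v * c' j : ℤ) : ℂ) * ∑ t ∈ Ex (orderOf (ψ' j)), indFun (H' j) (extZ (ψ' j ^ t)) g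
    rw [hθ g, hθ' g, Finset.mul_sum, Finset.mul_sum]
    congr 1
    · refine Finset.sum_congr rfl fun i _ => ?_
      push_cast
      ring
    · refine Finset.sum_congr rfl fun i _ => ?_
      push_cast
      ring

/-- permutation characters -/
theorem perm {G : Type} [Group G] [Fintype G] (E : IntermediateField ℚ ℂ) (θ : G → ℂ)
    (h : PermC θ) : TrC E (fun g => (Module.finrank ℚ E : ℂ) * θ g) := by
  obtain ⟨r, H, c, hc⟩ := h
  refine ⟨r, H, fun _ => 1, fun i => (Module.finrank ℚ E : ℤ) * c i, fun i => ?_, fun g => ?_⟩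
  · rw [mul_assoc]
    exact dvd_mul_right _ _
  · show (Module.finrank ℚ E : ℂ) * θ g = _
    rw [hc g, Finset.mul_sum]
    refine Finset.sum_congr rfl fun i _ => ?_
    rw [orderOf_one, ex_one, Finset.sum_singleton, indFun_one]
    push_cast
    ring

section Infl

variable {G Q : Type} [Group G] [Group Q]

/-- the inflation of a linear character of a subgroup -/
def lift (π : G →* Q) {H : Subgroup Q} (ψ : H →* ℂˣ) : (H.comap π) →* ℂˣ :=
  ψ.comp (π.subgroupComap H)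

theorem lift_pow (π : G →* Q) {H : Subgroup Q} (ψ : H →* ℂˣ) (t : ℕ) :
    lift π (ψ ^ t) = lift π ψ ^ t := rfl

theorem extZ_lift (π : G →* Q) {H : Subgroup Q} (ψ : H →* ℂˣ) :
    extZ (lift π ψ) = fun x => extZ ψ (π x) := rfl

theorem order_lift (π : G →* Q) (hπ : Function.Surjective π) {H : Subgroup Q} (ψ : H →* ℂˣ) :
    orderOf (lift π ψ) = orderOf ψ := by
  have hs : Function.Surjective (π.subgroupComap H) := by
    rintro ⟨y, hy⟩
    obtain ⟨x, rfl⟩ := hπ y
    exact ⟨⟨x, hy⟩, rfl⟩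
  have hi : Function.Injective (MonoidHom.compHom' (π.subgroupComap H) :
      (H →* ℂˣ) →* ((H.comap π) →* ℂˣ)) := by
    intro a b hab
    refine MonoidHom.ext fun y => ?_
    obtain ⟨x, rfl⟩ := hs y
    exact DFunLike.congr_fun hab x
  exact orderOf_injective _ hi ψ

end Infl

theorem infl {G Q : Type} [Group G] [Fintype G] [Group Q] [Fintype Q] (π : G →* Q)
    (E : IntermediateField ℚ ℂ) (θ : Q → ℂ) (hπ : Function.Surjective π) (h : TrC E θ) :
    TrC E (fun g => θ (π g)) := by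
  obtain ⟨r, H, ψ, c, hd, hθ⟩ := h
  refine ⟨r, fun i => (H i).comap π, fun i => lift π (ψ i), c, fun i => ?_, fun g => ?_⟩
  · rw [order_lift π hπ]
    exact hd i
  · show θ (π g) = _
    rw [hθ (π g)]
    refine Finset.sum_congr rfl fun i _ => ?_
    rw [order_lift π hπ]
    congr 1
    refine Finset.sum_congr rfl fun t _ => ?_
    rw [CMB.indFun_infl π hπ]
    rfl

theorem inflM {G Q : Type} [Group G] [Fintype G] [Group Q] [Fintype Q] (π : G →* Q) (n : ℕ)
    (θ : Q → ℂ) (hπ : Function.Surjective π) (h : MonC n θ) : MonC n (fun g => θ (π g)) := by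
  obtain ⟨r, H, ψ, c, hψ, hθ⟩ := h
  refine ⟨r, fun i => (H i).comap π, fun i => lift π (ψ i), c, fun i => ?_, fun g => ?_⟩
  · rw [← lift_pow, hψ i]
    rfl
  · show θ (π g) = _
    rw [hθ (π g)]
    refine Finset.sum_congr rfl fun i _ => ?_
    rw [CMB.indFun_infl π hπ]
    rfl

end VTCx

theorem VTC_thm : Stmt_VTC := by
  refine ⟨?_, ?_, ?_, ?_⟩
  · intro G _ _ E θ θ' u v h h'
    exact VTCx.comb E θ θ' u v h h'
  · intro G _ _ E θ h
    exact VTCx.perm E θ h
  · intro G Q _ _ _ _ π E θ hπ h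
    exact VTCx.infl π E θ hπ h
  · intro G Q _ _ _ _ π n θ hπ h
    exact VTCx.inflM π n θ hπ h

end StarkC.ABS
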