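import Pool.Agent.ABS.StV
import Pool.Agent.ABS.FCH

/-!
# Project ABS, module VUE: the second multiple of the trace of a monomial combination
-/

set_option autoImplicit false

open scoped Classical

namespace StarkC.ABS

namespace VUEx

/-- `[ℚ(ζ_n) : ℚ] = φ(n)` -/
lemma finrank_cyc (hS : Stmt_SIGT) {n : ℕ} (hn : 0 < n) :
    Module.finrank ℚ (Cyc n) = n.totient := by
  have hfd : FiniteDimensional ℚ (Cyc n) := FCHx.finDim n hn
  have hcardE : (Ex n).card = n.totient := by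
    unfold Ex
    rfl
  have hex : ∀ t : ℕ, ∃ σ : ℂ ≃+* ℂ, t ∈ Ex n → ∀ z : ℂ, z ^ n = 1 → σ z = z ^ t := by
    intro t
    by_cases ht : t ∈ Ex n
    · obtain ⟨σ, hσ⟩ := hS n t hn (Finset.mem_filter.1 ht).2
      exact ⟨σ, fun _ => hσ⟩
    · exact ⟨RingEquiv.refl ℂ, fun h => absurd h ht⟩
  choose σ hσ using hex
  rw [← AlgHom.card ℚ (Cyc n) ℂ, ← hcardE, ← Finset.card_univ]
  symm
  refine Finset.card_bij (fun t _ => FCHx.rst n (σ t)) (fun _ _ => Finset.mem_univ _) ?_ ?_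
  · intro t ht t' ht' h
    have h1 := (Finset.mem_filter.1 ht).1
    have h2 := (Finset.mem_filter.1 ht').1
    exact FCHx.rst_inj hn (Finset.mem_range.1 h1) (Finset.mem_range.1 h2) _ _ (hσ t ht)
      (hσ t' ht') h
  · intro f _
    obtain ⟨t, ht, h⟩ := FCHx.exists_exp hn f
    exact ⟨t, ht, FCHx.rst_ext f (σ t) h (hσ t ht)⟩

/-- sums over `Ex n` as sums over the units of `ZMod n` -/
lemma sum_ex_units {n : ℕ} [NeZero n] (f : ℕ → ℂ) :
    ∑ t ∈ Ex n, f t = ∑ u : (ZMod n)ˣ, f (u : ZMod n).val := by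
  symm
  refine Finset.sum_bij (fun u _ => (u : ZMod n).val) ?_ ?_ ?_ (fun _ _ => rfl)
  · intro u _
    refine Finset.mem_filter.2 ⟨Finset.mem_range.2 (ZMod.val_lt _), ?_⟩
    exact (ZMod.val_coe_unit_coprime u).symm
  · intro u _ v _ h
    exact Units.ext (ZMod.val_injective n h)
  · intro t ht
    have h1 := Finset.mem_range.1 (Finset.mem_filter.1 ht).1
    have h2 := (Finset.mem_filter.1 ht).2
    refine ⟨ZMod.unitOfCoprime t h2.symm, Finset.mem_univ _, ?_⟩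
    rw [ZMod.coe_unitOfCoprime, ZMod.val_natCast, Nat.mod_eq_of_lt h1]

/-- a function of `t` modulo `o`, summed over `Ex n` -/
lemma sum_ex {n o : ℕ} (hn : 0 < n) (ho : o ∣ n) : ∃ k : ℕ, k * o.totient = n.totient ∧
    ∀ f : ℕ → ℂ, (∀ t, f t = f (t % o)) → ∑ t ∈ Ex n, f t = (k : ℂ) * ∑ t ∈ Ex o, f t := by
  have hn' : NeZero n := ⟨hn.ne'⟩
  have ho' : NeZero o := ⟨(Nat.pos_of_dvd_of_pos ho hn).ne'⟩
  have hsurj := ZMod.unitsMap_surjective (m := n) ho
  set π : (ZMod n)ˣ →* (ZMod o)ˣ := ZMod.unitsMap ho with hπ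
  set k : ℕ := (Finset.univ.filter fun u : (ZMod n)ˣ => π u = 1).card with hk
  have hfib : ∀ v : (ZMod o)ˣ, (Finset.univ.filter fun u : (ZMod n)ˣ => π u = v).card = k :=
    fun v => MonoidHom.card_fiber_eq_of_mem_range π (hsurj v) (hsurj 1)
  refine ⟨k, ?_, ?_⟩
  · have h1 := Finset.card_eq_sum_card_fiberwise (f := π) (s := Finset.univ)
      (t := Finset.univ) (fun _ _ => Finset.mem_coe.2 (Finset.mem_univ _))
    rw [Finset.sum_congr rfl fun v _ => hfib v, Finset.sum_const, Finset.card_univ,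
      Finset.card_univ, ZMod.card_units_eq_totient, ZMod.card_units_eq_totient,
      smul_eq_mul] at h1
    rw [h1, mul_comm]
  · intro f hf
    rw [sum_ex_units, sum_ex_units]
    have h2 : ∀ u : (ZMod n)ˣ, f (u : ZMod n).val = f ((π u : (ZMod o)ˣ) : ZMod o).val := by
      intro u
      rw [hf, hπ, ZMod.unitsMap_val]
      congr 1
      rw [ZMod.cast_eq_val, ZMod.val_natCast]
    rw [Finset.sum_congr rfl fun u _ => h2 u, ← Finset.sum_fiberwise Finset.univ π,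
      Finset.mul_sum]
    refine Finset.sum_congr rfl fun v _ => ?_
    rw [Finset.sum_congr rfl (g := fun _ => f (v : ZMod o).val), Finset.sum_const, hfib v,
      nsmul_eq_mul]
    intro u hu
    rw [(Finset.mem_filter.1 hu).2]

/-- `[E : ℚ]` divides `(φ(n) / φ(o)) [E ∩ ℚ(ζ_o) : ℚ]` -/
lemma dvd_deg (hS : Stmt_SIGT) (hV : Stmt_VNI) {n o k : ℕ} (hn : 0 < n) (ho : o ∣ n)
    (hk : k * o.totient = n.totient) (E : IntermediateField ℚ ℂ) (hE : E ≤ Cyc n) :
    Module.finrank ℚ E ∣ k * Module.finrank ℚ ↥(E ⊓ Cyc o) := by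
  have ho' : 0 < o := Nat.pos_of_dvd_of_pos ho hn
  have hM : Cyc o ≤ Cyc n := by
    refine IntermediateField.adjoin_le_iff.2 ?_
    intro z hz
    rw [Set.mem_ofPred_eq] at hz
    obtain ⟨j, rfl⟩ := ho
    refine FCHx.root_mem ?_
    rw [pow_mul, hz, one_pow]
  have h1 := (hV hS n E (Cyc o) hn hE hM).1
  rw [finrank_cyc hS ho'] at h1
  have h2 : Module.finrank ℚ ↥(E ⊔ Cyc o) ∣ Module.finrank ℚ (Cyc n) :=
    IntermediateField.finrank_dvd_of_le_right (sup_le hE hM)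
  rw [finrank_cyc hS hn, ← hk] at h2
  obtain ⟨w, hw⟩ := h2
  refine ⟨w, ?_⟩
  have h3 : 0 < o.totient := Nat.totient_pos.2 ho'
  refine Nat.eq_of_mul_eq_mul_right h3 ?_
  calc k * Module.finrank ℚ ↥(E ⊓ Cyc o) * o.totient
      = (k * o.totient) * Module.finrank ℚ ↥(E ⊓ Cyc o) := by ring
    _ = (Module.finrank ℚ ↥(E ⊔ Cyc o) * Module.finrank ℚ ↥(E ⊓ Cyc o)) * w := by
      rw [hw]; ring
    _ = Module.finrank ℚ E * w * o.totient := by rw [← h1]; ring

end VUEx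

open VUEx in
theorem VUE_thm : Stmt_VUE := by
  intro hSIGT hTRT hFCH hVNI G _ _ n χ E hn hχ hE
  obtain ⟨r, H, ψ, c, hψ, hc⟩ := hχ
  have h1 := hFCH hSIGT hTRT G n 1 r χ H ψ c hn one_pos hψ (by
    intro g
    rw [Nat.cast_one, one_mul, hc g])
  obtain ⟨_, e, he, _, hdeg, htr⟩ := h1
  have ho : ∀ i, orderOf (ψ i) ∣ n := fun i => orderOf_dvd_of_pow_eq_one (hψ i)
  choose k hk hsum using fun i => sum_ex hn (ho i)
  refine ⟨e, he, hdeg, r, H, ψ, fun i => c i * (k i : ℤ), ?_, ?_⟩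
  · intro i
    have h2 := dvd_deg hSIGT hVNI hn (ho i) (hk i) E hE
    have h3 : (Module.finrank ℚ E : ℤ) ∣
        ((k i * Module.finrank ℚ ↥(E ⊓ Cyc (orderOf (ψ i))) : ℕ) : ℤ) :=
      Int.natCast_dvd_natCast.2 h2
    rw [Nat.cast_mul] at h3
    rw [mul_assoc]
    exact Dvd.dvd.mul_left h3 (c i)
  · intro g
    have h4 := htr g
    rw [one_mul] at h4
    refine h4.trans ?_
    refine Finset.sum_congr rfl fun i _ => ?_
    rw [hsum i (fun t => indFun (H i) (extZ (ψ i ^ t)) g) (fun t => by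
      simp only [pow_mod_orderOf])]
    push_cast
    ring

end StarkC.ABS
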