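import Pool.Agent.ABS.StU
import Pool.Agent.ABS.VTC
import Pool.Agent.ABS.VBR
import Pool.Agent.ABS.VAG
import Pool.Agent.ABS.VFO
import Pool.Agent.ABS.VIN
import Pool.Agent.ABS.VCF
import Pool.Agent.ABS.VNI
import Pool.Agent.ABS.VDV
import Pool.Agent.ABS.VAR
import Pool.Agent.ABS.VUE
import Pool.Agent.ABS.FCH
import Pool.Agent.ABS.SIGT
import Pool.Agent.ABS.TRT
import Pool.Agent.ABS.FIXC
import Pool.Agent.ABS.SYMH
import Pool.Agent.ABS.FTR
import Pool.Agent.ABS.UAS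
import Pool.Agent.Stark.MON
import Pool.Agent.Stark.BRA
import Pool.Agent.Stark.SOL

/-!
# Project ABS, part V: all characters (assembly)
-/

set_option autoImplicit false

open NumberField IsDedekindDomain
open scoped TensorProduct Classical

namespace StarkC.ABS

namespace VFINx

theorem gal (n : ℕ) (E : IntermediateField ℚ ℂ) (hn : 0 < n) (h : E ≤ Cyc n) : IsGalois ℚ E :=
  galois_of_le n hn E h

theorem charField_comp {G Q : Type} (π : G → Q) (hπ : Function.Surjective π) (θ : Q → ℂ) :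
    StarkP.charField (fun g => θ (π g)) = StarkP.charField θ := by
  unfold StarkP.charField
  exact congrArg (IntermediateField.adjoin ℚ) (hπ.range_comp θ)

theorem trChar_comp {G Q : Type} (π : G → Q) (hπ : Function.Surjective π) (θ : Q → ℂ) :
    StarkP.trChar (fun g => θ (π g)) = fun g => StarkP.trChar θ (π g) := by
  funext g
  unfold StarkP.trChar
  refine congrArg (fun q : ℚ => (q : ℂ)) (FTRx.trace_eq ?_ _ _)
  exact charField_comp π hπ θ

theorem charField_mul {G : Type} (k : ℕ) (hk : 0 < k) (χ : G → ℂ) :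
    StarkP.charField (fun g => (k : ℂ) * χ g) = StarkP.charField χ := by
  have hk' : (k : ℂ) ≠ 0 := by exact_mod_cast hk.ne'
  unfold StarkP.charField
  refine le_antisymm ?_ ?_
  · refine IntermediateField.adjoin_le_iff.2 ?_
    rintro _ ⟨g, rfl⟩
    exact mul_mem (natCast_mem _ k) (IntermediateField.subset_adjoin ℚ _ ⟨g, rfl⟩)
  · refine IntermediateField.adjoin_le_iff.2 ?_
    rintro _ ⟨g, rfl⟩
    have h1 : (k : ℂ) * χ g ∈ IntermediateField.adjoin ℚ (Set.range fun g => (k : ℂ) * χ g) :=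
      IntermediateField.subset_adjoin ℚ _ ⟨g, rfl⟩
    have h2 := mul_mem (inv_mem (natCast_mem
      (IntermediateField.adjoin ℚ (Set.range fun g => (k : ℂ) * χ g)) k)) h1
    rwa [← mul_assoc, inv_mul_cancel₀ hk', one_mul] at h2

theorem trace_of_eq {A B : IntermediateField ℚ ℂ} (h : A = B) (x : A) (y : B)
    (hxy : (x : ℂ) = (y : ℂ)) : Algebra.trace ℚ A x = Algebra.trace ℚ B y := by
  subst h
  congr 1
  exact Subtype.ext hxy

theorem trChar_mul {G : Type} (k : ℕ) (hk : 0 < k) (χ : G → ℂ) :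
    StarkP.trChar (fun g => (k : ℂ) * χ g) = fun g => (k : ℂ) * StarkP.trChar χ g := by
  funext g
  unfold StarkP.trChar
  have h1 : (k : ℂ) * χ g ∈ StarkP.charField χ :=
    mul_mem (natCast_mem _ k) (IntermediateField.subset_adjoin ℚ _ ⟨g, rfl⟩)
  rw [trace_of_eq (charField_mul k hk χ) _ ⟨(k : ℂ) * χ g, h1⟩ rfl]
  have h2 : (⟨(k : ℂ) * χ g, h1⟩ : StarkP.charField χ) = k •
      ⟨χ g, IntermediateField.subset_adjoin ℚ _ (Set.mem_range_self g)⟩ := by
    apply Subtype.ext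
    rw [nsmul_eq_mul]
    rfl
  rw [h2, map_nsmul, nsmul_eq_mul]
  push_cast
  rfl

end VFINx

open VFINx

/-- Every character: the multiple `D Tr χ`, `D = gcd(|ρ(G)|, [ℚ(ζ_n) : ℚ(χ)])`. -/
theorem trC_all (G V : Type) [Group G] [Fintype G] [AddCommGroup V] [Module ℂ V]
    [Module.Finite ℂ V] (ρ : Representation ℂ G V) (n : ℕ) (E : IntermediateField ℚ ℂ)
    (hn : 0 < n) (hρ : ∀ g, ρ g ^ n = 1) (hE : E ≤ StarkP.charField ρ.character) :
    TrC E (fun g => ((Nat.gcd (Nat.card (Set.range ρ))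
      (n.totient / Module.finrank ℚ (StarkP.charField ρ.character)) : ℕ) : ℂ) *
        StarkP.trChar ρ.character g) := by
  have hBRA : Stmt_BRA := BRA_thm SOL_thm MON_thm
  obtain ⟨hM, Q, W, iQ, iF, iA, iM, iD, π, ρ', hπ, hcard, hρ', hM', hχ⟩ :=
    VBR_thm hBRA G V ρ n hρ
  have hfun : ρ.character = fun g => ρ'.character (π g) := funext hχ
  have h1 : TrC E (fun q => (Fintype.card Q : ℂ) * StarkP.trChar ρ'.character q) := by
    refine VAR_thm SIGT_thm TRT_thm FCH_thm VAG_thm VFO_thm VIN_thm VCF_thm VNI_thm VDV_thm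
      FIXC_thm gal Q n ρ'.character E hn hM' ?_
    rw [hfun, charField_comp π hπ] at hE
    exact hE
  have h2 : TrC E (fun g => (Fintype.card Q : ℂ) * StarkP.trChar ρ.character g) := by
    have h3 := VTC_thm.2.2.1 G Q π E _ hπ h1
    rw [hfun, trChar_comp π hπ]
    exact h3
  have hle : StarkP.charField ρ.character ≤ Cyc n := by
    obtain ⟨r, H, ψ, c, hψ, hc⟩ := hM
    exact (FCH_thm SIGT_thm TRT_thm G n 1 r ρ.character H ψ c hn one_pos hψ (by
      intro g
      rw [Nat.cast_one, one_mul, hc g])).1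
  obtain ⟨e, he, hdeg, h3⟩ := VUE_thm SIGT_thm TRT_thm FCH_thm VNI_thm G n ρ.character E hn hM
    (hE.trans hle)
  have hpos : 0 < Module.finrank ℚ (StarkP.charField ρ.character) := by
    rcases Nat.eq_zero_or_pos (Module.finrank ℚ (StarkP.charField ρ.character)) with h | h
    · rw [h, mul_zero] at hdeg
      exact absurd hdeg.symm (Nat.totient_pos.2 hn).ne'
    · exact h
  have he' : n.totient / Module.finrank ℚ (StarkP.charField ρ.character) = e := by
    rw [← hdeg]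
    exact Nat.mul_div_cancel _ hpos
  rw [he', ← hcard]
  have hb := Nat.gcd_eq_gcd_ab (Fintype.card Q) e
  have h4 := VTC_thm.1 G E _ _ ((Fintype.card Q).gcdA e) ((Fintype.card Q).gcdB e) h2 h3
  have h5 : (((Fintype.card Q).gcd e : ℕ) : ℂ) =
      (Fintype.card Q : ℂ) * (((Fintype.card Q).gcdA e : ℤ) : ℂ) +
        (e : ℂ) * (((Fintype.card Q).gcdB e : ℤ) : ℂ) := by
    exact_mod_cast congrArg (fun z : ℤ => (z : ℂ)) hb
  have h6 : (fun g => (((Fintype.card Q).gcd e : ℕ) : ℂ) * StarkP.trChar ρ.character g) =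
      fun g => (((Fintype.card Q).gcdA e : ℤ) : ℂ) *
        ((Fintype.card Q : ℂ) * StarkP.trChar ρ.character g) +
        (((Fintype.card Q).gcdB e : ℤ) : ℂ) * ((e : ℂ) * StarkP.trChar ρ.character g) := by
    funext g
    rw [h5]
    ring
  rw [h6]
  exact h4

/-- With permutation characters: the greatest common divisor with the degree of `E`. -/
theorem trC_perm (G : Type) [Group G] [Fintype G] (E : IntermediateField ℚ ℂ) (θ : G → ℂ) (D : ℕ)
    (h : TrC E (fun g => (D : ℂ) * θ g)) (hP : PermC θ) (hD : D.Coprime (Module.finrank ℚ E)) :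
    TrC E θ := by
  have h1 := VTC_thm.2.1 G E θ hP
  have hb := Nat.gcd_eq_gcd_ab D (Module.finrank ℚ E)
  rw [show D.gcd (Module.finrank ℚ E) = 1 from hD] at hb
  have h4 := VTC_thm.1 G E _ _ (D.gcdA (Module.finrank ℚ E)) (D.gcdB (Module.finrank ℚ E)) h h1
  have h5 : (1 : ℂ) = (D : ℂ) * ((D.gcdA (Module.finrank ℚ E) : ℤ) : ℂ) +
      (Module.finrank ℚ E : ℂ) * ((D.gcdB (Module.finrank ℚ E) : ℤ) : ℂ) := by
    exact_mod_cast congrArg (fun z : ℤ => (z : ℂ)) hb
  have h6 : θ = fun g => ((D.gcdA (Module.finrank ℚ E) : ℤ) : ℂ) * ((D : ℂ) * θ g) +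
      ((D.gcdB (Module.finrank ℚ E) : ℤ) : ℂ) * ((Module.finrank ℚ E : ℂ) * θ g) := by
    funext g
    calc θ g = 1 * θ g := (one_mul _).symm
      _ = _ := by
        rw [h5]
        ring
  rw [h6]
  exact h4

/-- Theorem (P), printed form. -/
theorem normIn_of_trC
    (hP : ∀ (K L : Type) [Field K] [NumberField K] [Field L] [NumberField L] [Algebra K L]
    [IsGalois K L] (S : Finset (HeightOneSpectrum (𝓞 K)))
    (φ : XQ L (aboveSet K L S) ≃ₗ[ℚ] QU L (aboveSet K L S))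
    (Θ : XC L (aboveSet K L S) →ₗ[ℂ] XC L (aboveSet K L S))
    (N : ℕ) (E : IntermediateField ℚ ℂ)
    (r : ℕ) (H : Fin r → Subgroup (L ≃ₐ[K] L)) (ψ : ∀ i, H i →* ℂˣ) (c : Fin r → ℤ)
    (θ : (L ≃ₐ[K] L) → ℂ),
    IsPhiTheta K (aboveSet K L S) φ Θ → 0 < N → E ≤ StarkP.rootField N → IsCyclic (E ≃ₐ[ℚ] E) →
    (∀ i, (Module.finrank ℚ E : ℤ) ∣
      c i * Module.finrank ℚ (E ⊓ StarkP.rootField (orderOf (ψ i)) : IntermediateField ℚ ℂ)) →
    (∀ g, θ g = ∑ i, (c i : ℂ) * ∑ t ∈ Ex (orderOf (ψ i)), indFun (H i) (extZ (ψ i ^ t)) g) →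
    PE E θ S Θ)
    (K L : Type) [Field K] [NumberField K] [Field L] [NumberField L] [Algebra K L] [IsGalois K L]
    (S : Finset (HeightOneSpectrum (𝓞 K))) (Θ : ((L → ℝ) →₀ ℂ) →ₗ[ℂ] ((L → ℝ) →₀ ℂ))
    (hΘ : StarkP.IsTheta K (StarkP.aboveSet K L S) Θ) (N : ℕ) (E : IntermediateField ℚ ℂ)
    (χ : (L ≃ₐ[K] L) → ℂ) (hN : 0 < N) (hE : E ≤ StarkP.rootField N)
    (hcyc : IsCyclic (E ≃ₐ[ℚ] E)) (h : TrC E (StarkP.trChar χ)) :
    StarkP.NormIn E χ (S : Set (HeightOneSpectrum (𝓞 K))) Θ := by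
  obtain ⟨φ, Θ₀, hφ, hreg⟩ := StarkB.exists_isPhiTheta (K := K) (L := L)
    (S : Set (HeightOneSpectrum (𝓞 K))) S.finite_toSet Θ hΘ
  obtain ⟨r, H, ψ, c, hc, hθ⟩ := h
  exact UASx.normOf_of S Θ φ Θ₀ hφ hreg E _
    (hP K L S φ Θ₀ N E r H ψ c (StarkP.trChar χ) hφ hN hE hcyc hc hθ)

end StarkC.ABS
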