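import Pool.Agent.ABS.StW
import Pool.Agent.ABS.FAS

/-!
# Project ABS (MP_46b841_nt), module WAS: the criterion (G*)
(after `ABS/FAS.lean`)
-/

set_option autoImplicit false

open NumberField IsDedekindDomain
open scoped TensorProduct Classical

namespace StarkC.ABS

namespace WASx

open FASx

section

variable {K L : Type} [Field K] [NumberField K] [Field L] [NumberField L] [Algebra K L]
  [IsGalois K L]

/-- PCX for a family with any finite index type. -/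
theorem pcx (hPCX : Stmt_PCX) (S : Finset (HeightOneSpectrum (𝓞 K)))
    (φ : XQ L (aboveSet K L S) ≃ₗ[ℚ] QU L (aboveSet K L S))
    (Θ : XC L (aboveSet K L S) →ₗ[ℂ] XC L (aboveSet K L S))
    {ι : Type} [Fintype ι] (H : ι → Subgroup (L ≃ₐ[K] L)) (q : ι → ℕ) (ψ : ∀ i, H i →* ℂˣ)
    (Q : ι → ℂ → Prop) (hφ : IsPhiTheta K (aboveSet K L S) φ Θ)
    (hP : ∀ i (S' : Finset (HeightOneSpectrum (𝓞 (IntermediateField.fixedField (H i))))),
      VAll (q i) (Q i) (liftChar (H i) (ψ i)) S') :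
    ∃ x : ι → ℂ, (∀ i, x i ≠ 0 ∧ Q i (x i)) ∧
      ∀ (c : ι → ℤ) (θ : (L ≃ₐ[K] L) → ℂ),
        (∀ g, θ g = ∑ i, (c i : ℂ) * ∑ t ∈ Ex (q i), indFun (H i) (extZ (ψ i ^ t)) g) →
        ∃ F : ℂ → ℂ, IsArtinL θ (S : Set (HeightOneSpectrum (𝓞 K))) F ∧
          ∀ (V : Type) [AddCommGroup V] [Module ℂ V] [Module.Finite ℂ V]
            (ρ : Representation ℂ (L ≃ₐ[K] L) V), (∀ g, ρ.character g = θ g) →
            Reg (aboveSet K L S) ρ Θ = (∏ i, x i ^ c i) * meromorphicTrailingCoeffAt F 0 := by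
  let e : Fin (Fintype.card ι) ≃ ι := (Fintype.equivFin ι).symm
  obtain ⟨x, hx, h⟩ := hPCX K L S φ Θ (Fintype.card ι) (fun i => H (e i)) (fun i => q (e i))
    (fun i => ψ (e i)) (fun i => Q (e i)) hφ fun i S' => hP (e i) S'
  refine ⟨fun i => x (e.symm i), fun i => ?_, fun c θ hθ => ?_⟩
  · obtain ⟨j, rfl⟩ := e.surjective i
    have h1 := hx j
    show x (e.symm (e j)) ≠ 0 ∧ Q (e j) (x (e.symm (e j)))
    rw [e.symm_apply_apply]
    exact h1
  · obtain ⟨F, hF, hR⟩ := h (fun i => c (e i)) θ fun g => by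
      rw [hθ g]
      exact (Equiv.sum_comp e fun i => (c i : ℂ) *
        ∑ t ∈ Ex (q i), indFun (H i) (extZ (ψ i ^ t)) g).symm
    refine ⟨F, hF, fun V _ _ _ ρ hρ => ?_⟩
    rw [hR V ρ hρ, ← Equiv.prod_comp e fun i => x (e.symm i) ^ c i]
    congr 1
    refine Finset.prod_congr rfl fun i _ => ?_
    rw [e.symm_apply_apply]

omit [IsGalois K L] in
/-- the order of a character of a subgroup, as a character of the Galois group -/
theorem order_lift (H : Subgroup (L ≃ₐ[K] L)) (ψ : H →* ℂˣ) :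
    orderOf (liftChar H ψ) = orderOf ψ := by
  refine orderOf_eq_orderOf_iff.2 fun j => ?_
  constructor
  · intro h
    refine MonoidHom.ext fun g => ?_
    have h2 := DFunLike.congr_fun h (IntermediateField.subgroupEquivAlgEquiv H g)
    have h3 : ((liftChar H ψ) ^ j) (IntermediateField.subgroupEquivAlgEquiv H g) =
        (ψ ^ j) g := by
      show (ψ ((IntermediateField.subgroupEquivAlgEquiv H).symm
        (IntermediateField.subgroupEquivAlgEquiv H g))) ^ j = (ψ g) ^ j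
      rw [MulEquiv.symm_apply_apply]
    rw [h3] at h2
    exact h2
  · intro h
    rw [← COMBx.lift_pow, h]
    rfl

theorem vlift
    (hVN : ∀ (K L : Type) [Field K] [NumberField K] [Field L] [NumberField L] [Algebra K L]
      [IsGalois K L] (ψ : (L ≃ₐ[K] L) →* ℂˣ) (S : Finset (HeightOneSpectrum (𝓞 K))),
      VAll (orderOf ψ) (NQ (orderOf ψ)) ψ S)
    (H : Subgroup (L ≃ₐ[K] L)) (ψ : H →* ℂˣ)
    (S' : Finset (HeightOneSpectrum (𝓞 (IntermediateField.fixedField H)))) :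
    VAll (orderOf ψ) (NQ (orderOf ψ)) (liftChar H ψ) S' := by
  have h1 := hVN _ L (liftChar H ψ) S'
  rw [order_lift] at h1
  exact h1

end

theorem vone (hV : ConclV) (K L : Type) [Field K] [NumberField K] [Field L] [NumberField L]
    [Algebra K L] [IsGalois K L] (S : Finset (HeightOneSpectrum (𝓞 K))) :
    VAll 1 (QQ 1) (1 : (L ≃ₐ[K] L) →* ℂˣ) S := by
  have h1 := hV K L 1 S
  rw [orderOf_one] at h1
  exact h1

theorem nq_one (n : ℕ) : NQ n 1 :=
  ⟨1, one_ne_zero, by simp, fun p k _ _ _ _ => ⟨1, map_one _⟩⟩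

theorem nq_prod {n : ℕ} (hmul : ∀ (n : ℕ) (x y : ℂ), NQ n x → NQ n y → NQ n (x * y))
    {ι : Type} (s : Finset ι) (f : ι → ℂ) (h : ∀ i ∈ s, NQ n (f i)) : NQ n (∏ i ∈ s, f i) := by
  induction s using Finset.induction_on with
  | empty =>
    rw [Finset.prod_empty]
    exact nq_one n
  | insert a s ha ih =>
    rw [Finset.prod_insert ha]
    exact hmul n _ _ (h a (Finset.mem_insert_self _ _))
      (ih fun i hi => h i (Finset.mem_insert_of_mem hi))

end WASx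

open FASx WASx

theorem WAS_thm : Stmt_WAS := by
  intro hSIGT hTRT hFCH hUEX hPCX hV hVN hWTW hWEN K L _ _ _ _ _ _ χ n m E S Θ hΘ hn hm hPerm hMon
    hEle hEcyc htor
  obtain ⟨hmul, hzp, htw⟩ := hWTW
  obtain ⟨φ, Θ₀, hφ, hreg⟩ := StarkB.exists_isPhiTheta (K := K) (L := L)
    (S : Set (HeightOneSpectrum (𝓞 K))) S.finite_toSet Θ hΘ
  obtain ⟨r, H, c, hc⟩ := hPerm
  obtain ⟨r', H', ψ', c', hψ', hc'⟩ := hMon
  obtain ⟨-, e, he, -, hdeg, htr⟩ := hFCH hSIGT hTRT (L ≃ₐ[K] L) n m r' χ H' ψ' c' hn hm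
    hψ' hc'
  have hdvd : ∀ j, orderOf (ψ' j) ∣ n := fun j => orderOf_dvd_of_pow_eq_one (hψ' j)
  let k : Fin r' → ℕ := fun j => n.totient / (orderOf (ψ' j)).totient
  have htr' : ∀ g, ((m * e : ℕ) : ℂ) * StarkP.trChar χ g =
      ∑ j, ((c' j * (k j : ℤ) : ℤ) : ℂ) *
        ∑ t ∈ Ex (orderOf (ψ' j)), indFun (H' j) (extZ (ψ' j ^ t)) g := by
    intro g
    rw [htr g]
    refine Finset.sum_congr rfl fun j _ => ?_
    rw [hUEX n (orderOf (ψ' j)) (fun t => indFun (H' j) (extZ (ψ' j ^ t)) g) hn (hdvd j)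
      (fun t => by rw [pow_mod_orderOf])]
    push_cast
    ring
  -- the family
  let HH : Fin r ⊕ Fin r' → Subgroup (L ≃ₐ[K] L) := Sum.elim H H'
  let q : Fin r ⊕ Fin r' → ℕ := Sum.elim (fun _ => 1) (fun j => orderOf (ψ' j))
  let ψ : ∀ i, HH i →* ℂˣ := fun i => match i with
    | Sum.inl _ => 1
    | Sum.inr j => ψ' j
  let Q : Fin r ⊕ Fin r' → ℂ → Prop := Sum.elim (fun _ => QQ 1) (fun j => NQ (orderOf (ψ' j)))
  obtain ⟨x, hx, hX⟩ := pcx hPCX S φ Θ₀ HH q ψ Q hφ (by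
    rintro (i | j) S'
    · show VAll 1 (QQ 1) (liftChar (H i) 1) S'
      rw [lift_one]
      exact vone hV _ L S'
    · exact vlift hVN (H' j) (ψ' j) S')
  have hα' : ∀ i : Fin r, ∃ α : ℚ, α ≠ 0 ∧ x (Sum.inl i) = (α : ℂ) := fun i => by
    obtain ⟨α, h1, h2, -⟩ := (hx (Sum.inl i)).2
    exact ⟨α, h1, h2⟩
  have hβ : ∀ j : Fin r', NQ (orderOf (ψ' j)) (x (Sum.inr j)) := fun j => (hx (Sum.inr j)).2
  choose α hα hxα using hα'
  -- the rational number
  set a : ℚ := ∏ i, (α i) ^ c i with ha_def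
  have ha : a ≠ 0 := Finset.prod_ne_zero_iff.2 fun i _ => zpow_ne_zero _ (hα i)
  have hxa : ∏ i, x (Sum.inl i) ^ c i = (a : ℂ) := by
    rw [ha_def, Rat.cast_prod]
    refine Finset.prod_congr rfl fun i _ => ?_
    rw [Rat.cast_zpow, hxα i]
  -- the character `0`, in two ways
  obtain ⟨F₁, hF₁, hR₁⟩ := hX (fun _ => 0) (fun _ => 0) fun g => by simp
  obtain ⟨F₂, hF₂, hR₂⟩ := hX (Sum.elim (fun i => ((m * e : ℕ) : ℤ) * c i)
    fun j => - (c' j * (k j : ℤ))) (fun _ => 0) fun g => by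
      rw [Fintype.sum_sum_type]
      have h1 : ∑ i : Fin r, ((Sum.elim (fun i => ((m * e : ℕ) : ℤ) * c i)
          (fun j => - (c' j * (k j : ℤ)))
          (Sum.inl i) : ℤ) : ℂ) * ∑ t ∈ Ex (q (Sum.inl i)), indFun (HH (Sum.inl i))
            (extZ (ψ (Sum.inl i) ^ t)) g = ((m * e : ℕ) : ℂ) * StarkP.trChar χ g := by
        rw [hc g, Finset.mul_sum]
        refine Finset.sum_congr rfl fun i _ => ?_
        show ((((m * e : ℕ) : ℤ) * c i : ℤ) : ℂ) * ∑ t ∈ Ex 1, indFun (H i)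
          (extZ ((1 : H i →* ℂˣ) ^ t)) g = _
        rw [ex_one, Finset.sum_singleton, indFun_one]
        push_cast
        ring
      have h2 : ∑ j : Fin r', ((Sum.elim (fun i => ((m * e : ℕ) : ℤ) * c i)
          (fun j => - (c' j * (k j : ℤ)))
          (Sum.inr j) : ℤ) : ℂ) * ∑ t ∈ Ex (q (Sum.inr j)), indFun (HH (Sum.inr j))
            (extZ (ψ (Sum.inr j) ^ t)) g = - (((m * e : ℕ) : ℂ) * StarkP.trChar χ g) := by
        rw [htr' g, ← Finset.sum_neg_distrib]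
        refine Finset.sum_congr rfl fun j _ => ?_
        show ((- (c' j * (k j : ℤ)) : ℤ) : ℂ) * ∑ t ∈ Ex (orderOf (ψ' j)),
          indFun (H' j) (extZ (ψ' j ^ t)) g = _
        push_cast
        ring
      rw [h1, h2]
      ring
  have hz1 := hR₁ PUnit.{1} (zeroRep _) fun g => zeroRep_char _ g
  have hz2 := hR₂ PUnit.{1} (zeroRep _) fun g => zeroRep_char _ g
  have hne : Reg (aboveSet K L S) (zeroRep (L ≃ₐ[K] L)) Θ₀ ≠ 0 :=
    StarkG.reg_ne_zero S φ Θ₀ hφ PUnit.{1} (zeroRep _)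
  have htrail : meromorphicTrailingCoeffAt F₁ 0 = meromorphicTrailingCoeffAt F₂ 0 :=
    LASTx.trail_unique hF₁.1 hF₂.1 fun s hs => by rw [hF₁.2 s hs, hF₂.2 s hs]
  have h1 : (∏ i, x (Sum.inl i) ^ (((m * e : ℕ) : ℤ) * c i)) *
      ∏ j, x (Sum.inr j) ^ (- (c' j * (k j : ℤ))) = 1 := by
    have h2 : meromorphicTrailingCoeffAt F₂ 0 ≠ 0 := by
      intro h
      rw [hz2, h, mul_zero] at hne
      exact hne rfl
    rw [hz1, htrail] at hz2
    have h3 := mul_right_cancel₀ h2 hz2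
    simp only [zpow_zero, Finset.prod_const_one] at h3
    rw [Fintype.prod_sum_type] at h3
    exact h3.symm
  have h2 : (((a ^ (m * e) : ℚ)) : ℂ) = ∏ j, x (Sum.inr j) ^ (c' j * (k j : ℤ)) := by
    have h5 : (∏ i, x (Sum.inl i) ^ (((m * e : ℕ) : ℤ) * c i)) = ((a ^ (m * e) : ℚ) : ℂ) := by
      rw [Rat.cast_pow, ← hxa, ← Finset.prod_pow]
      refine Finset.prod_congr rfl fun i _ => ?_
      rw [mul_comm, zpow_mul, zpow_natCast]
    have h6 : ∏ j, x (Sum.inr j) ^ (- (c' j * (k j : ℤ))) =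
        (∏ j, x (Sum.inr j) ^ (c' j * (k j : ℤ)))⁻¹ := by
      rw [← Finset.prod_inv_distrib]
      exact Finset.prod_congr rfl fun j _ => zpow_neg _ _
    rw [h5, h6] at h1
    exact eq_of_mul_inv_eq_one h1
  have hnq : NQ n (((a ^ (m * e) : ℚ)) : ℂ) := by
    rw [h2]
    refine nq_prod hmul Finset.univ _ fun j _ => ?_
    rw [mul_comm (c' j), zpow_mul, zpow_natCast]
    exact hzp n _ (c' j) hn (htw n (orderOf (ψ' j)) _ hn (hdvd j) (hβ j))
  -- norms from `E`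
  have hfr : 0 < Module.finrank ℚ (StarkP.charField χ) := by
    rcases Nat.eq_zero_or_pos (Module.finrank ℚ (StarkP.charField χ)) with h | h
    · rw [h, mul_zero] at hdeg
      have := Nat.totient_pos.2 hn
      omega
    · exact h
  have hquot : n.totient / Module.finrank ℚ (StarkP.charField χ) = e := by
    rw [← hdeg, Nat.mul_div_cancel _ hfr]
  rw [hquot] at htor
  obtain ⟨δ, hδ, hδn⟩ := hWEN n (m * e) a E hn (Nat.mul_pos hm he) ha hnq hEle hEcyc htor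
  -- the end
  obtain ⟨F, hF, hR⟩ := hX (Sum.elim c fun _ => 0) (StarkP.trChar χ) fun g => by
    rw [Fintype.sum_sum_type, hc g]
    have h3 : ∑ j : Fin r', ((Sum.elim c (fun _ : Fin r' => (0 : ℤ)) (Sum.inr j) : ℤ) : ℂ) *
        ∑ t ∈ Ex (q (Sum.inr j)), indFun (HH (Sum.inr j)) (extZ (ψ (Sum.inr j) ^ t)) g = 0 :=
      Finset.sum_eq_zero fun j _ => by
        show ((0 : ℤ) : ℂ) * _ = 0
        rw [Int.cast_zero, zero_mul]
    rw [h3, add_zero]
    refine Finset.sum_congr rfl fun i _ => ?_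
    show _ = ((c i : ℤ) : ℂ) * ∑ t ∈ Ex 1, indFun (H i) (extZ ((1 : H i →* ℂˣ) ^ t)) g
    rw [ex_one, Finset.sum_singleton, indFun_one]
  refine ⟨F, δ, ⟨hF.1, hF.2⟩, hδ, fun V _ _ _ ρ hρ => ?_⟩
  have h3 := hR V ρ fun g => by rw [hρ]
  rw [Fintype.prod_sum_type] at h3
  have h4 : ∏ j : Fin r', x (Sum.inr j) ^
      (Sum.elim c (fun _ : Fin r' => (0 : ℤ)) (Sum.inr j)) = 1 :=
    Finset.prod_eq_one fun j _ => zpow_zero _
  have h5 : ∏ i : Fin r, x (Sum.inl i) ^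
      (Sum.elim c (fun _ : Fin r' => (0 : ℤ)) (Sum.inl i)) = (a : ℂ) := hxa
  rw [h4, h5, mul_one] at h3
  have h0 : meromorphicTrailingCoeffAt F 0 ≠ 0 := by
    intro h
    have h2 := StarkG.reg_ne_zero S φ Θ₀ hφ V ρ
    rw [h3, h, mul_zero] at h2
    exact h2 rfl
  rw [show StarkP.Reg (StarkP.aboveSet K L S) ρ Θ = _ from hreg V ρ, h3, mul_div_assoc,
    div_self h0, mul_one, hδn]

end StarkC.ABS
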