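import Pool.Agent.ABS.StW

/-!
# ABS_WCP: the torsion condition when the degree is prime to `d` (MP_46b841_nt)
-/

set_option autoImplicit false

namespace StarkC.ABS

open StarkP (rootField)

namespace WCPx

/-- An automorphism which is trivial on the `n`-th roots of unity is trivial on `ℚ(ζ_n)`. -/
theorem fix_root {n : ℕ} {τ : ℂ ≃+* ℂ} (h : ∀ z : ℂ, z ^ n = 1 → τ z = z) :
    ∀ x ∈ rootField n, τ x = x := by
  intro x hx
  induction hx using IntermediateField.adjoin_induction with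
  | mem x hx => exact h x hx
  | algebraMap x => exact map_ratCast τ x
  | add x y _ _ hx hy => rw [map_add, hx, hy]
  | inv x _ hx => rw [map_inv₀, hx]
  | mul x y _ _ hx hy => rw [map_mul, hx, hy]

/-- The automorphism of the `ℚ`-algebra `ℂ`. -/
noncomputable def al (σ : ℂ ≃+* ℂ) : ℂ ≃ₐ[ℚ] ℂ :=
  AlgEquiv.ofRingEquiv (f := σ) fun r => map_ratCast σ r

theorem al_apply (σ : ℂ ≃+* ℂ) (x : ℂ) : al σ x = σ x := rfl

theorem al_pow (σ : ℂ ≃+* ℂ) (d : ℕ) (x : ℂ) : (al σ ^ d) x = (σ ^ d) x := by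
  induction d generalizing x with
  | zero => rfl
  | succ d ih =>
    rw [pow_succ, pow_succ]
    exact ih _

end WCPx

open WCPx in
theorem WCP_thm : Stmt_WCP := by
  intro hGal n d E hn hE hd σ hσ
  have hg : IsGalois ℚ E := hGal n E hn hE
  have hN : Normal ℚ E := hg.to_normal
  have h1 : ∀ x ∈ E, (σ ^ d) x = x := fun x hx => fix_root hσ x (hE hx)
  let τ : E ≃ₐ[ℚ] E := AlgEquiv.restrictNormalHom E (al σ)
  have hres : ∀ (ρ : ℂ ≃ₐ[ℚ] ℂ) (x : E),
      ((AlgEquiv.restrictNormalHom E ρ x : E) : ℂ) = ρ x := fun ρ x =>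
    AlgEquiv.restrictNormal_commutes ρ E x
  have hτ : ∀ x : E, ((τ x : E) : ℂ) = σ x := fun x => hres (al σ) x
  have hτd : τ ^ d = 1 := by
    rw [← map_pow]
    apply AlgEquiv.ext
    intro x
    apply Subtype.ext
    rw [hres, al_pow]
    exact h1 x x.2
  have h2 : orderOf τ ∣ d := orderOf_dvd_of_pow_eq_one hτd
  have h3 : orderOf τ ∣ Module.finrank ℚ E := by
    by_cases hf : FiniteDimensional ℚ E
    · rw [← IsGalois.card_aut_eq_finrank]
      exact orderOf_dvd_natCard τ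
    · rw [Module.finrank_of_not_finite hf]
      exact dvd_zero _
  have h4 : orderOf τ = 1 := Nat.eq_one_of_dvd_coprimes hd h2 h3
  have h5 : τ = 1 := orderOf_eq_one_iff.1 h4
  intro x hx
  have h6 := hτ ⟨x, hx⟩
  rw [h5] at h6
  exact h6.symm

end StarkC.ABS
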