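import Pool.Agent.ABS.StW
import Pool.Agent.ABS.SFF

/-!
# Project ABS, part W: norms from cyclic fields by duality (module WEN)
-/

set_option autoImplicit false

open scoped Classical

namespace StarkC.ABS

open StarkP (rootField)

namespace WENx

theorem mem_root {n : ℕ} {z : ℂ} (h : z ^ n = 1) : z ∈ rootField n :=
  IntermediateField.subset_adjoin ℚ _ h

/-- a character which vanishes on the automorphisms trivial on `E` is trivial on the elements of
order dividing `m` -/
theorem ker {n m d : ℕ} [NeZero n] (hY : Stmt_SCY) (E : IntermediateField ℚ ℂ)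
    (κ : (ZMod n)ˣ →* Multiplicative (ZMod d))
    (hfix : ∀ h : ℂ ≃+* ℂ, (∀ x ∈ E, h x = x) → vl κ (cych n h) = 0)
    (htor : ∀ σ : ℂ ≃+* ℂ, (∀ z : ℂ, z ^ n = 1 → (σ ^ m) z = z) → ∀ x ∈ E, σ x = x)
    (u : (ZMod n)ˣ) (hu : u ^ m = 1) : κ u = 1 := by
  obtain ⟨h1, h2, -, -⟩ := hY n
  obtain ⟨g, hg⟩ := h1 u
  have h3 : cych n (g ^ m) = cych n 1 := by
    rw [map_pow, map_one, hg, hu]
  have h4 : ∀ z : ℂ, z ^ n = 1 → (g ^ m) z = z := fun z hz => by
    have := h2 (g ^ m) 1 h3 z (mem_root hz)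
    rw [this]
    rfl
  have h5 := hfix g (htor g h4)
  rw [hg] at h5
  unfold vl at h5
  rw [ZMod.val_eq_zero] at h5
  exact toAdd_eq_zero.1 h5

end WENx

/-- WEN. -/
theorem WEN_thm : Stmt_WEN := by
  intro hY hN hB hPM hPI hCR hA hH hK hFPW hWKM hgal n m a F hn hm ha hNQ hF hC htor
  have hne1 : NeZero n := ⟨hn.ne'⟩
  have hne2 : NeZero m := ⟨hm.ne'⟩
  have hG : IsGalois ℚ F := hgal n F hn hF
  have hfd : FiniteDimensional ℚ F := by
    have h1 := SFFx.finite_root n hn
    exact Module.Finite.of_injective (IntermediateField.inclusion hF).toLinearMap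
      (IntermediateField.inclusion hF).injective
  have hall : ∀ (d : ℕ) [NeZero d] (κ : (ZMod n)ˣ →* Multiplicative (ZMod d)),
      Coch n d (a ^ m) κ := by
    intro d _ κ
    obtain ⟨a', -, ha', hq⟩ := hNQ
    have h1 : a ^ m = a' := by exact_mod_cast ha'
    rw [h1]
    refine hA hY hN hB hPM hPI hCR n d a' ?_ hq κ
    rw [← h1]
    exact pow_ne_zero m ha
  have key : ∃ α : F, Algebra.norm ℚ α = a := by
    have hpos : 0 < Module.finrank ℚ F := Module.finrank_pos
    by_cases h1 : Module.finrank ℚ F = 1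
    · refine ⟨algebraMap ℚ F a, ?_⟩
      rw [Algebra.norm_algebraMap, h1, pow_one]
    have hd : 1 < Module.finrank ℚ F := by omega
    obtain ⟨κ, g, hg1, hfix, hnorm⟩ := hK hY n F hF hG hC hd
    have hne : NeZero (Module.finrank ℚ F) := ⟨by omega⟩
    generalize hdd : Module.finrank ℚ F = d at *
    obtain ⟨κ', hκ'⟩ := hWKM n m d κ fun u hu => WENx.ker hY F κ hfix htor u hu
    have hne3 : NeZero (m * d) := ⟨Nat.mul_ne_zero hm.ne' hpos.ne'⟩
    have hc1 : Coch n (m * d) (a ^ m) κ' := hall (m * d) κ'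
    have hc2 : Coch n d a κ := by
      rw [← hκ']
      exact hFPW n m d a κ' ha hc1
    obtain ⟨b, hb0, hb1, hb2, hb3⟩ := hH hY n d a κ ha hc2
    set u := cych n g with hu
    have hyF : b u ∈ F := by
      have h2 : b u ∈ F.toSubfield := SFFx.core F.toSubfield (b u) fun σ hσ =>
        hb3 σ u (hfix σ fun x hx => hσ x hx)
      exact h2
    have hind : ∀ j : ℕ, j < d → ∏ i ∈ Finset.range j, (g ^ i) (b u) = b (u ^ j) := by
      intro j
      induction j with
      | zero =>
        intro _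
        rw [Finset.prod_range_zero, pow_zero, hb2 1]
        have h3 := SFFx.vl_pow κ u hg1 0
        rw [pow_zero, Nat.zero_mod] at h3
        exact h3
      | succ j ih =>
        intro hj
        rw [SFFx.prod_succ, ih (by omega), hu, hb1 g (u ^ j), ← hu, hg1,
          SFFx.vl_pow κ u hg1 j, Nat.mod_eq_of_lt (by omega : j < d),
          Nat.div_eq_of_lt (by omega : 1 + j < d), pow_zero, mul_one, ← pow_succ']
    refine ⟨⟨b u, hyF⟩, ?_⟩
    have h4 := hnorm ⟨b u, hyF⟩
    have h5 : ∏ i ∈ Finset.range d, (g ^ i) (b u) = (a : ℂ) := by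
      obtain ⟨e, he⟩ : ∃ e, d = e + 1 := ⟨d - 1, by omega⟩
      have hcarry : (1 + e) / d = 1 := by
        rw [he, add_comm 1 e]
        exact Nat.div_self (by omega)
      have hlast : b (u ^ (e + 1)) = 1 := by
        apply hb2
        rw [SFFx.vl_pow κ u hg1 (e + 1), ← he, Nat.mod_self]
      have h6 := hb1 g (u ^ e)
      rw [← hu, hg1, SFFx.vl_pow κ u hg1 e, Nat.mod_eq_of_lt (by omega : e < d), hcarry,
        ← pow_succ', hlast, one_mul, pow_one] at h6
      rw [he, SFFx.prod_succ, hind e (by omega), h6]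
    rw [h5] at h4
    exact_mod_cast h4
  obtain ⟨α, hα⟩ := key
  refine ⟨α, ?_, hα⟩
  rintro rfl
  rw [Algebra.norm_zero] at hα
  exact ha hα.symm

end StarkC.ABS
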