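import Pool.Agent.ABS.StW

/-!
# ABS_WKM (helper49): duality, division of characters
-/

set_option autoImplicit false

open scoped Classical

namespace StarkC.ABS

namespace WKMx

/-- equal powers of a primitive root -/
lemma cast_eq {ζ : ℂˣ} {k : ℕ} (h : IsPrimitiveRoot ζ k) {a b : ℕ} (hab : ζ ^ a = ζ ^ b) :
    (a : ZMod k) = (b : ZMod k) := by
  have h1 := pow_eq_pow_iff_modEq.1 hab
  rw [← h.eq_orderOf] at h1
  exact (ZMod.natCast_eq_natCast_iff a b k).2 h1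

lemma pow_val_add {ζ : ℂˣ} {k : ℕ} [NeZero k] (h : IsPrimitiveRoot ζ k) (a b : ZMod k) :
    ζ ^ (a + b).val = ζ ^ a.val * ζ ^ b.val := by
  have h1 : ζ ^ ((a.val + b.val) % k) = ζ ^ ((a.val + b.val) % orderOf ζ) := by
    rw [← h.eq_orderOf]
  rw [← pow_add, ZMod.val_add, h1]
  exact pow_mod_orderOf _ _

lemma gen {G : Type} [CommGroup G] [Finite G] (m d : ℕ) [NeZero m] [NeZero d]
    (κ : G →* Multiplicative (ZMod d)) (h : ∀ u, u ^ m = 1 → κ u = 1) :
    ∃ κ' : G →* Multiplicative (ZMod (m * d)), ∀ u,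
      ZMod.castHom (dvd_mul_left d m) (ZMod d) (Multiplicative.toAdd (κ' u)) =
        Multiplicative.toAdd (κ u) := by
  have hmd : NeZero (m * d) := ⟨mul_ne_zero (NeZero.ne m) (NeZero.ne d)⟩
  obtain ⟨ζ, hζ⟩ : ∃ ζ : ℂˣ, IsPrimitiveRoot ζ (m * d) :=
    ⟨_, (Complex.isPrimitiveRoot_exp (m * d) hmd.ne).isUnit_unit hmd.ne⟩
  have hξ : IsPrimitiveRoot (ζ ^ m) d :=
    hζ.pow (Nat.pos_of_ne_zero hmd.ne) rfl
  -- the character with values in the complex numbers
  let κt : G →* ℂˣ := MonoidHom.mk' (fun u => (ζ ^ m) ^ (Multiplicative.toAdd (κ u)).val) (by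
    intro u v
    rw [map_mul, toAdd_mul]
    exact pow_val_add hξ _ _)
  have hκt : ∀ u, κt u = (ζ ^ m) ^ (Multiplicative.toAdd (κ u)).val := fun _ => rfl
  let p : G →* G := powMonoidHom m
  have hsurj : Function.Surjective p.rangeRestrict := p.rangeRestrict_surjective
  have hker : p.rangeRestrict.ker ≤ κt.ker := by
    intro u hu
    rw [MonoidHom.ker_rangeRestrict, MonoidHom.mem_ker] at hu
    have h1 : κ u = 1 := h u hu
    rw [MonoidHom.mem_ker, hκt, h1, toAdd_one, ZMod.val_zero, pow_zero]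
  let lam : p.range →* ℂˣ := p.rangeRestrict.liftOfSurjective hsurj ⟨κt, hker⟩
  have hlam : ∀ u, lam (p.rangeRestrict u) = κt u := fun u =>
    MonoidHom.liftOfRightInverse_comp_apply _ _ _ ⟨κt, hker⟩ u
  have : NeZero (Monoid.exponent G) := ⟨Monoid.exponent_ne_zero_of_finite⟩
  obtain ⟨lam', hlam'⟩ := MonoidHom.domRestrict_surjective (M := ℂ) p.range lam
  have h1 : ∀ u, lam' (u ^ m) = κt u := by
    intro u
    have h2 : lam' (p u) = lam (p.rangeRestrict u) := by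
      rw [← hlam']
      rfl
    rw [← hlam u, ← h2]
    rfl
  have h2 : ∀ u, ∃ y : ℕ, ζ ^ y = lam' u := by
    intro u
    have h3 : lam' u ∈ Subgroup.zpowers ζ := by
      rw [hζ.zpowers_eq, mem_rootsOfUnity, pow_mul, ← map_pow, h1, hκt, ← pow_mul, mul_comm,
        pow_mul, hξ.pow_eq_one, one_pow]
    obtain ⟨i, hi⟩ := (hζ.isOfFinOrder hmd.ne).mem_powers_iff_mem_zpowers.2 h3
    exact ⟨i, hi⟩
  choose y hy using h2
  refine ⟨MonoidHom.mk' (fun u => Multiplicative.ofAdd ((y u : ℕ) : ZMod (m * d))) ?_, ?_⟩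
  · intro u v
    rw [← ofAdd_add, ← Nat.cast_add]
    congr 1
    refine cast_eq hζ ?_
    rw [hy, map_mul, pow_add, hy, hy]
  · intro u
    change ZMod.castHom (dvd_mul_left d m) (ZMod d) ((y u : ℕ) : ZMod (m * d)) = _
    rw [map_natCast]
    have h3 : (ζ ^ m) ^ (y u) = (ζ ^ m) ^ (Multiplicative.toAdd (κ u)).val := by
      rw [← hκt, ← h1, map_pow, ← hy u, ← pow_mul, ← pow_mul, mul_comm]
    rw [cast_eq hξ h3, ZMod.natCast_zmod_val]

end WKMx

/-- `WKM`. -/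
theorem WKM_thm : Stmt_WKM := by
  intro n m d _ _ _ κ h
  obtain ⟨κ', hκ'⟩ := WKMx.gen m d κ h
  refine ⟨κ', ?_⟩
  apply MonoidHom.ext
  intro u
  exact hκ' u

end StarkC.ABS
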