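import Pool.Agent.ABS.StW
import Pool.Agent.ABS.RESF

/-!
# Project ABS (MP_46b841_nt), module WNQ: the values for linear characters, prime powers exactly dividing
-/

set_option autoImplicit false

open NumberField IsDedekindDomain
open scoped TensorProduct Classical

namespace StarkC.ABS

open StarkP (rootField)

theorem WNQ_thm : Stmt_WNQ := by
  intro hS hN hV K L _ _ _ _ _ _ ψ S φ Θ hφ
  by_cases h3 : 3 ≤ orderOf ψ
  · obtain ⟨F, a, hF, ha, hR, hpp, -⟩ := cyc_of_PT hS (orderOf ψ) h3 ψ S φ Θ hφ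
      fun ℓ k m hℓ hk h2 hn hc => by
        have hm : 0 < m := by
          rcases Nat.eq_zero_or_pos m with h | h
          · rw [h, mul_zero] at hn
            omega
          · exact h
        have h := hN K L ℓ k m ψ S φ Θ ⟨hℓ, hk, h2⟩ hm hc hn hφ
        rw [← hn] at h
        exact h
    exact ⟨F, (a : ℂ), hF, Rat.cast_ne_zero.2 ha, ⟨a, ha, rfl, hpp⟩,
      RESFx.creg_of (orderOf ψ) ψ S φ Θ hφ _ fun V _ _ _ ρ hρ => hR V ρ hρ⟩
  · obtain ⟨F, x, hF, hx, ⟨a, ha, hxa, -⟩, hc⟩ := hV K L ψ S φ Θ hφ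
    refine ⟨F, x, hF, hx, ⟨a, ha, hxa, fun p k hp hk hd _ => ?_⟩, hc⟩
    have hpos : 0 < orderOf ψ := orderOf_pos_iff.2 <| isOfFinOrder_iff_pow_eq_one.2
      ⟨Nat.card (L ≃ₐ[K] L), Nat.card_pos, MonoidHom.ext fun g => by
        rw [MonoidHom.pow_apply, ← map_pow, pow_card_eq_one']; simp⟩
    have h1 : p ^ k ≤ orderOf ψ := Nat.le_of_dvd hpos hd
    have h2 : 2 ≤ p ^ k := le_trans hp.two_le (Nat.le_self_pow hk.ne' p)
    have h4 : p ^ k = 2 := by omega
    have key : ∀ r : ℕ, r = 2 → ∃ α : rootField r, Algebra.norm ℚ α = a := by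
      rintro r rfl
      exact SYMx.norm_two a
    exact key _ h4

end StarkC.ABS
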