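import Pool.Agent.ABS.FINF
import Pool.Agent.ABS.FRA
import Pool.Agent.ABS.FRT
import Pool.Agent.ABS.FAB
import Pool.Agent.ABS.FPW
import Pool.Agent.ABS.PV1
import Pool.Agent.ABS.PV2
import Pool.Agent.ABS.PV3
import Pool.Agent.ABS.PCX
import Pool.Agent.ABS.PFN
import Pool.Agent.ABS.PCY
import Pool.Agent.ABS.PPP
import Pool.Agent.ABS.UEX
import Pool.Agent.ABS.VFIN
import Pool.Agent.ABS.WKM
import Pool.Agent.ABS.WEN
import Pool.Agent.ABS.WNQ
import Pool.Agent.ABS.WTW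
import Pool.Agent.ABS.WAS
import Pool.Agent.ABS.WCP

/-!
# Project ABS, parts V and W: all characters, and the criterion (G*) (working forms)
-/

set_option autoImplicit false

open NumberField IsDedekindDomain
open scoped TensorProduct Classical

namespace StarkC.ABS

namespace FINVx

/-- The class number formula for `K`. -/
theorem fra : ∀ (K L : Type) [Field K] [NumberField K] [Field L] [NumberField L] [Algebra K L]
    [IsGalois K L] (Θ : ((L → ℝ) →₀ ℂ) →ₗ[ℂ] ((L → ℝ) →₀ ℂ)),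
    StarkP.IsTheta K (StarkP.aboveSet K L ∅) Θ →
    ∃ a : ℚ, a ≠ 0 ∧
      StarkP.detOn Θ (StarkP.XC L (StarkP.aboveSet K L ∅) ⊓
        StarkP.ABS.fixP (⊤ : Subgroup (L ≃ₐ[K] L))) = (((a : ℝ) * Units.regulator K : ℝ) : ℂ) :=
  _root_.ABS.FRA_thm _root_.ABS.IOT_thm _root_.ABS.LMU_thm _root_.ABS.SPN_thm _root_.ABS.TRE_thm
    _root_.ABS.JN_thm _root_.ABS.JV_thm _root_.ABS.LG_thm _root_.ABS.LJ_thm _root_.ABS.TRF_thm
    _root_.ABS.MUL_thm _root_.ABS.DTC_thm _root_.ABS.REG1_thm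

/-- The trivial character. -/
theorem one : ConclOne :=
  FRT_thm fra REGI_thm FINFx.zeta
    (fun n K L _ _ _ _ _ _ ψ S v hn hψ hv => PSTEP_thm FIXC_thm SIGT_thm NORMT_thm PRAT_thm n K L
      ψ S v hn hψ hv)

/-- All orders. -/
theorem conclN : ConclN := ORDN_thm FINFx.concl1 COMB_thm RAM_thm IDX_thm

/-- The values for all linear characters. -/
theorem conclV : ConclV := by
  intro K L _ _ _ _ _ _ ψ S
  have h0 : orderOf ψ ≠ 0 := (orderOf_pos_iff.2 (isOfFinOrder_of_finite ψ)).ne'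
  by_cases h1 : orderOf ψ = 1
  · have h2 : ψ = 1 := orderOf_eq_one_iff.1 h1
    rw [h1, h2]
    exact PV1_thm one K L S
  by_cases h2 : orderOf ψ = 2
  · rw [h2]
    exact PV2_thm PCX_thm (PV1_thm one) K L ψ S h2
  exact PV3_thm SYM_thm conclN K L ψ S (by omega)

/-- Theorem (P). -/
theorem ppp : ∀ (K L : Type) [Field K] [NumberField K] [Field L] [NumberField L] [Algebra K L]
    [IsGalois K L] (S : Finset (HeightOneSpectrum (𝓞 K)))
    (φ : XQ L (aboveSet K L S) ≃ₗ[ℚ] QU L (aboveSet K L S))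
    (Θ : XC L (aboveSet K L S) →ₗ[ℂ] XC L (aboveSet K L S))
    (N : ℕ) (E : IntermediateField ℚ ℂ)
    (r : ℕ) (H : Fin r → Subgroup (L ≃ₐ[K] L)) (ψ : ∀ i, H i →* ℂˣ) (c : Fin r → ℤ)
    (θ : (L ≃ₐ[K] L) → ℂ),
    IsPhiTheta K (aboveSet K L S) φ Θ → 0 < N → E ≤ StarkP.rootField N → IsCyclic (E ≃ₐ[ℚ] E) →
    (∀ i, (Module.finrank ℚ E : ℤ) ∣
      c i * Module.finrank ℚ (E ⊓ StarkP.rootField (orderOf (ψ i)) : IntermediateField ℚ ℂ)) →
    (∀ g, θ g = ∑ i, (c i : ℂ) * ∑ t ∈ Ex (orderOf (ψ i)), indFun (H i) (extZ (ψ i ^ t)) g) →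
    PE E θ S Θ :=
  PPP_thm PCX_thm PFN_thm PCY_thm conclV

/-- Theorem (G*). -/
theorem crit : ∀ (K L : Type) [Field K] [NumberField K] [Field L] [NumberField L] [Algebra K L]
    [IsGalois K L] (χ : (L ≃ₐ[K] L) → ℂ) (n m : ℕ) (E : IntermediateField ℚ ℂ)
    (S : Finset (HeightOneSpectrum (𝓞 K))) (Θ : ((L → ℝ) →₀ ℂ) →ₗ[ℂ] ((L → ℝ) →₀ ℂ)),
    StarkP.IsTheta K (StarkP.aboveSet K L S) Θ → 0 < n → 0 < m → PermC (StarkP.trChar χ) →
    MonC n (fun g => (m : ℂ) * χ g) → E ≤ StarkP.rootField n → IsCyclic (E ≃ₐ[ℚ] E) →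
    (∀ σ : ℂ ≃+* ℂ, (∀ z : ℂ, z ^ n = 1 →
      (σ ^ (m * (n.totient / Module.finrank ℚ (StarkP.charField χ)))) z = z) → ∀ x ∈ E, σ x = x) →
    StarkP.NormIn E χ (S : Set (HeightOneSpectrum (𝓞 K))) Θ :=
  WAS_thm SIGT_thm TRT_thm FCH_thm UEX_thm PCX_thm conclV (WNQ_thm SYM_thm conclN conclV)
    (WTW_thm PFN_thm)
    (WEN_thm SCY_thm SNM_thm SPB_thm SPM_thm SPI_thm SCR_thm SPA_thm SH9_thm SKA_thm FPW_thm
      WKM_thm fun n E hn h => galois_of_le n hn E h)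

/-- Absolute values. -/
theorem abs : ∀ (K L : Type) [Field K] [NumberField K] [Field L] [NumberField L] [Algebra K L]
    [IsGalois K L] (χ : (L ≃ₐ[K] L) → ℂ) (n m : ℕ)
    (S : Finset (HeightOneSpectrum (𝓞 K))) (Θ : ((L → ℝ) →₀ ℂ) →ₗ[ℂ] ((L → ℝ) →₀ ℂ)),
    StarkP.IsTheta K (StarkP.aboveSet K L S) Θ → 0 < n → 0 < m →
    MonC n (fun g => (m : ℂ) * χ g) →
    Module.finrank ℚ (StarkP.charField χ) = 2 → (∃ g, (χ g).im ≠ 0) →
    StarkP.NormIn (StarkP.charField χ) χ (S : Set (HeightOneSpectrum (𝓞 K))) Θ →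
    StarkP.AbsIn χ (S : Set (HeightOneSpectrum (𝓞 K))) Θ :=
  FAB_thm REGC_thm

end FINVx

open FINVx

/-- `D = gcd(|ρ(G)|, [ℚ(ζ_n) : ℚ(χ)])`. -/
noncomputable def dN {G V : Type} [Group G] [AddCommGroup V] [Module ℂ V]
    (ρ : Representation ℂ G V) (n : ℕ) : ℕ :=
  Nat.gcd (Nat.card (Set.range ρ)) (n.totient / Module.finrank ℚ (StarkP.charField ρ.character))

/-- Brauer's theorem. -/
theorem monC_all {G V : Type} [Group G] [Fintype G] [AddCommGroup V] [Module ℂ V]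
    [Module.Finite ℂ V] (ρ : Representation ℂ G V) (n : ℕ)
    (hρ : ∀ g, ρ g ^ n = 1) : MonC n ρ.character :=
  (VBR_thm (BRA_thm SOL_thm MON_thm) G V ρ n hρ).1

theorem charField_le_of_monC {G : Type} [Group G] [Fintype G] (χ : G → ℂ) (n : ℕ) (hn : 0 < n)
    (h : MonC n χ) : StarkP.charField χ ≤ StarkP.rootField n := by
  obtain ⟨r, H, ψ, c, hψ, hc⟩ := h
  exact (FCH_thm SIGT_thm TRT_thm G n 1 r χ H ψ c hn one_pos hψ (by
    intro g
    rw [Nat.cast_one, one_mul, hc g])).1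

/-- `ℚ(χ)` is contained in `ℚ(ζ_n)`. -/
theorem charField_le {G V : Type} [Group G] [Fintype G] [AddCommGroup V] [Module ℂ V]
    [Module.Finite ℂ V] (ρ : Representation ℂ G V) (n : ℕ) (hn : 0 < n)
    (hρ : ∀ g, ρ g ^ n = 1) : StarkP.charField ρ.character ≤ StarkP.rootField n :=
  charField_le_of_monC _ n hn (monC_all ρ n hρ)

theorem dN_pos {G V : Type} [Group G] [Fintype G] [AddCommGroup V] [Module ℂ V]
    [Module.Finite ℂ V] (ρ : Representation ℂ G V) (n : ℕ) : 0 < dN ρ n := by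
  refine Nat.gcd_pos_of_pos_left _ ?_
  have : Finite (Set.range ρ) := Set.finite_range _
  exact Nat.card_pos

section

variable {K L : Type} [Field K] [NumberField K] [Field L] [NumberField L] [Algebra K L]
  [IsGalois K L] (S : Finset (HeightOneSpectrum (𝓞 K)))
  (Θ : ((L → ℝ) →₀ ℂ) →ₗ[ℂ] ((L → ℝ) →₀ ℂ))

/-- Theorem (P), printed form. -/
theorem normIn_trC (hΘ : StarkP.IsTheta K (StarkP.aboveSet K L S) Θ) (N : ℕ)
    (E : IntermediateField ℚ ℂ)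
    (χ : (L ≃ₐ[K] L) → ℂ) (hN : 0 < N) (hE : E ≤ StarkP.rootField N)
    (hcyc : IsCyclic (E ≃ₐ[ℚ] E)) (h : TrC E (StarkP.trChar χ)) :
    StarkP.NormIn E χ (S : Set (HeightOneSpectrum (𝓞 K))) Θ :=
  normIn_of_trC ppp K L S Θ hΘ N E χ hN hE hcyc h

/-- Theorem (A): all characters. -/
theorem finalA (hΘ : StarkP.IsTheta K (StarkP.aboveSet K L S) Θ)
    (V : Type) [AddCommGroup V] [Module ℂ V] [Module.Finite ℂ V]
    (ρ : Representation ℂ (L ≃ₐ[K] L) V) (n : ℕ) (hn : 0 < n) (hρ : ∀ g, ρ g ^ n = 1)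
    (E : IntermediateField ℚ ℂ) (hE : E ≤ StarkP.charField ρ.character)
    (hcyc : IsCyclic (E ≃ₐ[ℚ] E)) :
    StarkP.NormIn E (fun g => (dN ρ n : ℂ) * ρ.character g)
      (S : Set (HeightOneSpectrum (𝓞 K))) Θ ∧
    (PermC (StarkP.trChar ρ.character) → (dN ρ n).Coprime (Module.finrank ℚ E) →
      StarkP.NormIn E ρ.character (S : Set (HeightOneSpectrum (𝓞 K))) Θ) := by
  have hEn : E ≤ StarkP.rootField n := hE.trans (charField_le ρ n hn hρ)
  have h1 := trC_all (L ≃ₐ[K] L) V ρ n E hn hρ hE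
  refine ⟨normIn_trC S Θ hΘ n E _ hn hEn hcyc ?_, fun hP hD =>
    normIn_trC S Θ hΘ n E _ hn hEn hcyc (trC_perm _ E _ _ h1 hP hD)⟩
  rw [VFINx.trChar_mul (dN ρ n) (dN_pos ρ n)]
  exact h1

/-- Theorem (A), absolute values: the power `D` of `|A_S(χ, φ)|`. -/
theorem finalAabs (hΘ : StarkP.IsTheta K (StarkP.aboveSet K L S) Θ)
    (V : Type) [AddCommGroup V] [Module ℂ V] [Module.Finite ℂ V]
    (ρ : Representation ℂ (L ≃ₐ[K] L) V) (n : ℕ) (hn : 0 < n) (hρ : ∀ g, ρ g ^ n = 1)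
    (h2 : Module.finrank ℚ (StarkP.charField ρ.character) = 2)
    (him : ∃ g, (ρ.character g).im ≠ 0) :
    StarkP.AbsIn (fun g => (dN ρ n : ℂ) * ρ.character g)
      (S : Set (HeightOneSpectrum (𝓞 K))) Θ := by
  have hG : IsGalois ℚ (StarkP.charField ρ.character) :=
    galois_of_le n hn _ (charField_le ρ n hn hρ)
  have hcyc : IsCyclic (StarkP.charField ρ.character ≃ₐ[ℚ] StarkP.charField ρ.character) := by
    have hfd : FiniteDimensional ℚ (StarkP.charField ρ.character) :=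
      Module.finite_of_finrank_pos (by rw [h2]; norm_num)
    have : Fact (Nat.Prime 2) := ⟨Nat.prime_two⟩
    refine isCyclic_of_prime_card (p := 2) ?_
    rw [IsGalois.card_aut_eq_finrank, h2]
  have hD := dN_pos ρ n
  have hD' : (dN ρ n : ℂ) ≠ 0 := by exact_mod_cast hD.ne'
  have hcf := VFINx.charField_mul (dN ρ n) hD ρ.character
  refine abs K L _ n 1 S Θ hΘ hn one_pos ?_ ?_ ?_ ?_
  · obtain ⟨r, H, ψ, c, hψ, hc⟩ := monC_all ρ n hρ
    refine ⟨r, H, ψ, fun i => (dN ρ n : ℤ) * c i, hψ, fun g => ?_⟩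
    show ((1 : ℕ) : ℂ) * ((dN ρ n : ℂ) * ρ.character g) = _
    rw [hc g, Nat.cast_one, one_mul, Finset.mul_sum]
    refine Finset.sum_congr rfl fun i _ => ?_
    push_cast
    ring
  · rw [hcf]
    exact h2
  · obtain ⟨g, hg⟩ := him
    refine ⟨g, ?_⟩
    have h3 : ((dN ρ n : ℂ) * ρ.character g).im = (dN ρ n : ℝ) * (ρ.character g).im := by
      rw [← Complex.ofReal_natCast, Complex.im_ofReal_mul]
    rw [h3]
    exact mul_ne_zero (by exact_mod_cast hD.ne') hg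
  · rw [hcf]
    exact (finalA S Θ hΘ V ρ n hn hρ _ le_rfl hcyc).1

/-- Absolute values in general. -/
theorem abs_of_normIn (hΘ : StarkP.IsTheta K (StarkP.aboveSet K L S) Θ)
    (V : Type) [AddCommGroup V] [Module ℂ V] [Module.Finite ℂ V]
    (ρ : Representation ℂ (L ≃ₐ[K] L) V)
    (h2 : Module.finrank ℚ (StarkP.charField ρ.character) = 2)
    (him : ∃ g, (ρ.character g).im ≠ 0)
    (h : StarkP.NormIn (StarkP.charField ρ.character) ρ.character
      (S : Set (HeightOneSpectrum (𝓞 K))) Θ) :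
    StarkP.AbsIn ρ.character (S : Set (HeightOneSpectrum (𝓞 K))) Θ := by
  have hn : 0 < Fintype.card (L ≃ₐ[K] L) := Fintype.card_pos
  refine abs K L _ (Fintype.card (L ≃ₐ[K] L)) 1 S Θ hΘ hn one_pos ?_ h2 him h
  obtain ⟨r, H, ψ, c, hψ, hc⟩ := monC_all ρ (Fintype.card (L ≃ₐ[K] L)) fun g => by
    rw [← map_pow, pow_card_eq_one, map_one]
  refine ⟨r, H, ψ, c, hψ, fun g => ?_⟩
  show ((1 : ℕ) : ℂ) * ρ.character g = _
  rw [hc g, Nat.cast_one, one_mul]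

/-- Criterion (G*), with the degree of `E` prime to `d`. -/
theorem crit_coprime (hΘ : StarkP.IsTheta K (StarkP.aboveSet K L S) Θ)
    (χ : (L ≃ₐ[K] L) → ℂ) (n m : ℕ) (E : IntermediateField ℚ ℂ) (hn : 0 < n) (hm : 0 < m)
    (hP : PermC (StarkP.trChar χ)) (hM : MonC n (fun g => (m : ℂ) * χ g))
    (hE : E ≤ StarkP.rootField n) (hcyc : IsCyclic (E ≃ₐ[ℚ] E))
    (hd : (m * (n.totient / Module.finrank ℚ (StarkP.charField χ))).Coprime
      (Module.finrank ℚ E)) :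
    StarkP.NormIn E χ (S : Set (HeightOneSpectrum (𝓞 K))) Θ :=
  crit K L χ n m E S Θ hΘ hn hm hP hM hE hcyc
    (WCP_thm (fun n E hn h => galois_of_le n hn E h) n _ E hn hE hd)

end

end StarkC.ABS
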