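import Pool.Agent.ABS.StG2

/-!
# Characters of the cyclic group of the units modulo a power of an odd prime number
-/

set_option autoImplicit false

open scoped Classical

namespace StarkC.ABS

/-- `FKM`.  A character with values in `ℤ/d` is the reduction of one with values in `ℤ/(m d)`. -/
theorem FKM_thm : Stmt_FKM := by
  intro ℓ k m d hℓ hℓ2 hk hmd κ
  have hcyc : IsCyclic (ZMod (ℓ ^ k))ˣ := ZMod.isCyclic_units_of_prime_pow ℓ hℓ hℓ2 k
  obtain ⟨g, hg⟩ := hcyc.exists_generator
  have hpos : 0 < ℓ ^ k := pow_pos hℓ.pos k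
  have hne : NeZero (ℓ ^ k) := ⟨hpos.ne'⟩
  have hord : orderOf g = m * d := by
    rw [orderOf_eq_card_of_forall_mem_zpowers hg, Nat.card_eq_fintype_card,
      ZMod.card_units_eq_totient, hmd]
  obtain ⟨e, he⟩ := ZMod.castHom_surjective (dvd_mul_left d m) (Multiplicative.toAdd (κ g))
  have hdvd : orderOf (Multiplicative.ofAdd e) ∣ orderOf g := by
    rw [hord]
    apply orderOf_dvd_of_pow_eq_one
    rw [← ofAdd_nsmul, nsmul_eq_mul, ZMod.natCast_self, zero_mul, ofAdd_zero]
  refine ⟨monoidHomOfForallMemZpowers hg hdvd, ?_⟩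
  have hgen : redK m d (monoidHomOfForallMemZpowers hg hdvd) g = κ g := by
    unfold redK
    rw [MonoidHom.comp_apply, monoidHomOfForallMemZpowers_apply_gen]
    show Multiplicative.ofAdd (ZMod.castHom (dvd_mul_left d m) (ZMod d) e) = κ g
    rw [he]
    rfl
  apply MonoidHom.ext
  intro x
  obtain ⟨i, rfl⟩ := Subgroup.mem_zpowers_iff.mp (hg x)
  rw [map_zpow, map_zpow, hgen]

end StarkC.ABS
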