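import Pool.Agent.ABS.StG
import Pool.Agent.ABS.COMB

/-!
# Project ABS, module FPD (helper95): a character of order dividing `ℓ^k`, seen at the level `ℓ^k`
-/

set_option autoImplicit false

open NumberField IsDedekindDomain
open scoped TensorProduct Classical

namespace StarkC.ABS

namespace FPDx

theorem mem_Ex {n t : ℕ} : t ∈ Ex n ↔ t < n ∧ n.Coprime t := by simp [Ex]

/-- the reduction of the exponents -/
structure Red (n n' f : ℕ) : Prop where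
  dvd : n' ∣ n
  pos : 0 < n
  prod : ∀ F : ℕ → ℂ, (∀ t, F t = F (t % n')) → ∏ t ∈ Ex n, F t = (∏ t ∈ Ex n', F t) ^ f
  sum : ∀ F : ℕ → ℂ, (∀ t, F t = F (t % n')) → ∑ t ∈ Ex n, F t = f * ∑ t ∈ Ex n', F t

theorem Ex_one : Ex 1 = {0} := by
  ext t
  rw [mem_Ex, Finset.mem_singleton]
  constructor
  · rintro ⟨h, -⟩
    omega
  · rintro rfl
    exact ⟨Nat.one_pos, Nat.coprime_one_left 0⟩

theorem red_one (n : ℕ) (hn : 0 < n) : Red n 1 (Ex n).card where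
  dvd := one_dvd _
  pos := hn
  prod F hF := by
    have h : ∀ t ∈ Ex n, F t = F 0 := fun t _ => by rw [hF t, Nat.mod_one]
    rw [Finset.prod_congr rfl h, Finset.prod_const, Ex_one, Finset.prod_singleton]
  sum F hF := by
    have h : ∀ t ∈ Ex n, F t = F 0 := fun t _ => by rw [hF t, Nat.mod_one]
    rw [Finset.sum_congr rfl h, Finset.sum_const, Ex_one, Finset.sum_singleton, nsmul_eq_mul]

theorem coprime_pow {ℓ j t : ℕ} (hj : 0 < j) : (ℓ ^ j).Coprime t ↔ ℓ.Coprime t :=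
  Nat.coprime_pow_left_iff hj ℓ t

theorem Ex_pow {ℓ j k : ℕ} (hl : ℓ.Prime) (hj : 0 < j) (hjk : j ≤ k) :
    Ex (ℓ ^ k) = (Ex (ℓ ^ j) ×ˢ Finset.range (ℓ ^ (k - j))).image
      fun p => p.1 + ℓ ^ j * p.2 := by
  have hlp : 0 < ℓ ^ j := pow_pos hl.pos j
  have hk : ℓ ^ k = ℓ ^ j * ℓ ^ (k - j) := by
    rw [← pow_add]
    congr 1
    omega
  ext t
  rw [Finset.mem_image, mem_Ex, coprime_pow (lt_of_lt_of_le hj hjk)]
  constructor
  · rintro ⟨h1, h2⟩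
    refine ⟨(t % ℓ ^ j, t / ℓ ^ j), ?_, Nat.mod_add_div t _⟩
    rw [Finset.mem_product, mem_Ex, coprime_pow hj, Finset.mem_range]
    refine ⟨⟨Nat.mod_lt _ hlp, ?_⟩, ?_⟩
    · have h3 : ℓ ∣ ℓ ^ j := dvd_pow_self ℓ hj.ne'
      rw [Nat.Prime.coprime_iff_not_dvd hl] at h2 ⊢
      intro h4
      exact h2 ((Nat.dvd_mod_iff h3).1 h4)
    · rw [Nat.div_lt_iff_lt_mul hlp, mul_comm, ← hk]
      exact h1
  · rintro ⟨⟨u, s⟩, h1, rfl⟩
    rw [Finset.mem_product, mem_Ex, coprime_pow hj, Finset.mem_range] at h1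
    obtain ⟨⟨h2, h3⟩, h4⟩ := h1
    dsimp only at h2 h3 h4 ⊢
    constructor
    · rw [hk]
      have h5 : s + 1 ≤ ℓ ^ (k - j) := h4
      calc u + ℓ ^ j * s < ℓ ^ j + ℓ ^ j * s := by omega
        _ = ℓ ^ j * (s + 1) := by ring
        _ ≤ _ := Nat.mul_le_mul_left _ h5
    · rw [Nat.Prime.coprime_iff_not_dvd hl] at h3 ⊢
      intro h5
      exact h3 ((Nat.dvd_add_left ((dvd_pow_self ℓ hj.ne').mul_right s)).1 h5)

theorem inj_pow {m : ℕ} (hm : 0 < m) (s : Finset ℕ) :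
    Set.InjOn (fun p : ℕ × ℕ => p.1 + m * p.2) (Ex m ×ˢ s : Finset (ℕ × ℕ)) := by
  rintro ⟨u, a⟩ h1 ⟨v, b⟩ h2 h
  rw [Finset.mem_coe, Finset.mem_product, mem_Ex] at h1 h2
  dsimp only at h1 h2 h
  have h3 : u = v := by
    have h4 : (u + m * a) % m = (v + m * b) % m := by rw [h]
    rwa [Nat.add_mul_mod_self_left, Nat.add_mul_mod_self_left, Nat.mod_eq_of_lt h1.1.1,
      Nat.mod_eq_of_lt h2.1.1] at h4
  subst h3
  have h5 : m * a = m * b := by omega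
  rw [Nat.eq_of_mul_eq_mul_left hm h5]

theorem red_pow {ℓ j k : ℕ} (hl : ℓ.Prime) (hj : 0 < j) (hjk : j ≤ k) :
    Red (ℓ ^ k) (ℓ ^ j) (ℓ ^ (k - j)) where
  dvd := pow_dvd_pow ℓ hjk
  pos := pow_pos hl.pos k
  prod F hF := by
    rw [Ex_pow hl hj hjk, Finset.prod_image (inj_pow (pow_pos hl.pos j) _), Finset.prod_product,
      ← Finset.prod_pow]
    refine Finset.prod_congr rfl fun u _ => ?_
    have h : ∀ s ∈ Finset.range (ℓ ^ (k - j)), F (u + ℓ ^ j * s) = F u := fun s _ => by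
      rw [hF (u + ℓ ^ j * s), Nat.add_mul_mod_self_left, ← hF u]
    rw [Finset.prod_congr rfl h, Finset.prod_const, Finset.card_range]
  sum F hF := by
    rw [Ex_pow hl hj hjk, Finset.sum_image (inj_pow (pow_pos hl.pos j) _), Finset.sum_product,
      Finset.mul_sum]
    refine Finset.sum_congr rfl fun u _ => ?_
    have h : ∀ s ∈ Finset.range (ℓ ^ (k - j)), F (u + ℓ ^ j * s) = F u := fun s _ => by
      rw [hF (u + ℓ ^ j * s), Nat.add_mul_mod_self_left, ← hF u]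
    rw [Finset.sum_congr rfl h, Finset.sum_const, Finset.card_range, nsmul_eq_mul]

theorem mod_mem {n n' t : ℕ} (hn : 0 < n) (h : n' ∣ n) (ht : t ∈ Ex n) : t % n' ∈ Ex n' := by
  rw [mem_Ex] at ht ⊢
  refine ⟨Nat.mod_lt _ (Nat.pos_of_dvd_of_pos h hn), ?_⟩
  have h1 : n'.Coprime t := Nat.Coprime.coprime_dvd_left h ht.2
  have h2 : Nat.gcd n' (t % n') = Nat.gcd n' t := by
    rw [Nat.gcd_rec n' t, Nat.gcd_comm]
  unfold Nat.Coprime at h1 ⊢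
  rw [h2]
  exact h1

theorem cyc_le {n n' : ℕ} (h : n' ∣ n) : Cyc n' ≤ Cyc n := by
  refine IntermediateField.adjoin.mono ℚ _ _ ?_
  intro z hz
  obtain ⟨m, rfl⟩ := h
  rw [Set.mem_ofPred_eq] at hz ⊢
  rw [pow_mul, hz, one_pow]

/-- two automorphisms which agree on the roots of unity agree on the field -/
theorem agree {n : ℕ} {σ τ : ℂ ≃+* ℂ} (h : ∀ z : ℂ, z ^ n = 1 → σ z = τ z) (x : ℂ)
    (hx : x ∈ Cyc n) : σ x = τ x := by
  induction hx using IntermediateField.adjoin_induction with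
  | mem z hz => exact h z hz
  | algebraMap q =>
    rw [eq_ratCast, map_ratCast, map_ratCast]
  | add x y _ _ hx hy => rw [map_add, map_add, hx, hy]
  | inv x _ hx => rw [map_inv₀, map_inv₀, hx]
  | mul x y _ _ hx hy => rw [map_mul, map_mul, hx, hy]

/-- the norms at the two levels -/
theorem nm_red (hS : Stmt_SIGT) (hN : Stmt_NORMT) {n n' f : ℕ} (hr : Red n n' f) (α : Cyc n')
    (β : Cyc n) (hβ : (β : ℂ) = (α : ℂ)) : nm n β = nm n' α ^ f := by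
  have hn' : 0 < n' := Nat.pos_of_dvd_of_pos hr.dvd hr.pos
  have e1 : ∀ t : ℕ, ∃ σ : ℂ ≃+* ℂ, t ∈ Ex n → ∀ z : ℂ, z ^ n = 1 → σ z = z ^ t := by
    intro t
    by_cases ht : t ∈ Ex n
    · obtain ⟨σ, hσ⟩ := hS n t hr.pos (mem_Ex.1 ht).2
      exact ⟨σ, fun _ => hσ⟩
    · exact ⟨RingEquiv.refl ℂ, fun h => absurd h ht⟩
  have e2 : ∀ t : ℕ, ∃ σ : ℂ ≃+* ℂ, t ∈ Ex n' → ∀ z : ℂ, z ^ n' = 1 → σ z = z ^ t := by
    intro t
    by_cases ht : t ∈ Ex n'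
    · obtain ⟨σ, hσ⟩ := hS n' t hn' (mem_Ex.1 ht).2
      exact ⟨σ, fun _ => hσ⟩
    · exact ⟨RingEquiv.refl ℂ, fun h => absurd h ht⟩
  choose σ hσ using e1
  choose τ hτ using e2
  rw [hN n σ hr.pos (fun t ht => hσ t ht), hN n' τ hn' (fun t ht => hτ t ht)]
  have h1 : ∀ t ∈ Ex n, σ t (β : ℂ) = (fun t => τ (t % n') (α : ℂ)) t := by
    intro t ht
    rw [hβ]
    refine agree (n := n') (fun z hz => ?_) _ α.2
    have h3 : z ^ n = 1 := by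
      obtain ⟨m, hm⟩ := hr.dvd
      rw [hm, pow_mul, hz, one_pow]
    rw [hσ t ht z h3, hτ _ (mod_mem hr.pos hr.dvd ht) z hz]
    conv_lhs => rw [← Nat.mod_add_div t n', pow_add, pow_mul, hz, one_pow, mul_one]
  rw [Finset.prod_congr rfl h1, hr.prod (fun t => τ (t % n') (α : ℂ)) (fun t => by
    rw [Nat.mod_mod])]
  congr 1
  refine Finset.prod_congr rfl fun t ht => ?_
  rw [Nat.mod_eq_of_lt (mem_Ex.1 ht).1]

/-- the powers of `ψ` at the two levels -/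
theorem pow_mod {G : Type} [Monoid G] {g : G} {n' : ℕ} (h : g ^ n' = 1) (t : ℕ) :
    g ^ t = g ^ (t % n') := by
  conv_lhs => rw [← Nat.mod_add_div t n', pow_add, pow_mul, h, one_pow, mul_one]

section grp

variable {G : Type} [Group G]

theorem ord_dvd (ψ : G →* ℂˣ) (n : ℕ) (h : ∀ g, ψ g ^ n = 1) : orderOf ψ ∣ n :=
  orderOf_dvd_of_pow_eq_one (MonoidHom.ext h)

theorem pow_ord (ψ : G →* ℂˣ) (g : G) : ψ g ^ orderOf ψ = 1 :=
  DFunLike.congr_fun (pow_orderOf_eq_one ψ) g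

theorem eq_one (ψ : G →* ℂˣ) (h : ∀ g, ψ g ^ 1 = 1) : ψ = 1 :=
  MonoidHom.ext fun g => by rw [← pow_one (ψ g), h g, MonoidHom.one_apply]

theorem mod_hom (ψ : G →* ℂˣ) {n' : ℕ} (h : ∀ g, ψ g ^ n' = 1) (t : ℕ) :
    ψ ^ t = ψ ^ (t % n') :=
  MonoidHom.ext fun g => by rw [MonoidHom.pow_apply, MonoidHom.pow_apply, pow_mod (h g) t]

theorem mod_val (ψ : G →* ℂˣ) {n' : ℕ} (h : ∀ g, ψ g ^ n' = 1) (g : G) (t : ℕ) :
    ((ψ g : ℂˣ) : ℂ) ^ t = ((ψ g : ℂˣ) : ℂ) ^ (t % n') := by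
  rw [← Units.val_pow_eq_pow_val, ← Units.val_pow_eq_pow_val, ← pow_mod (h g) t]

theorem cSum_red {n n' f : ℕ} (hr : Red n n' f) (ψ : G →* ℂˣ) (h : ∀ g, ψ g ^ n' = 1) (g : G) :
    cSum n ψ g = (f : ℂ) * cSum n' ψ g :=
  hr.sum (fun t => ((ψ g : ℂˣ) : ℂ) ^ t) (mod_val ψ h g)

end grp

theorem cReg_red {n n' f : ℕ} (hr : Red n n' f) {K L : Type} [Field K] [Field L] [NumberField L]
    [Algebra K L] (T : Set (HeightOneSpectrum (𝓞 L))) (ψ : (L ≃ₐ[K] L) →* ℂˣ)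
    (h : ∀ g, ψ g ^ n' = 1) (Θ : XC L T →ₗ[ℂ] XC L T) :
    cReg n T ψ Θ = cReg n' T ψ Θ ^ f := by
  refine hr.prod (fun t => Reg T (linRep (ψ ^ t)) Θ) (fun t => ?_)
  have h1 := mod_hom ψ h t
  exact congrArg (fun c => Reg T (linRep c) Θ) h1

end FPDx

open FPDx COMBx

theorem FPD_thm : Stmt_FPD := by
  intro hSIGT hNORMT hC hone K L _ _ _ _ _ _ ℓ k ψ S hl hl2 hψ
  have h0 : ∀ g, ψ g ^ (ℓ ^ k) = 1 := fun g => DFunLike.congr_fun hψ g
  obtain ⟨j, hjk, hj⟩ := (Nat.dvd_prime_pow hl).1 (ord_dvd ψ (ℓ ^ k) h0)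
  have hψ' : ∀ g, ψ g ^ (ℓ ^ j) = 1 := by
    intro g
    rw [← hj]
    exact pow_ord ψ g
  have hex : ∃ f, Red (ℓ ^ k) (ℓ ^ j) f := by
    rcases Nat.eq_zero_or_pos j with h | h
    · rw [h, pow_zero]
      exact ⟨_, red_one _ (pow_pos hl.pos k)⟩
    · exact ⟨_, red_pow hl h hjk⟩
  obtain ⟨f, hr⟩ := hex
  have hPP : PPall (ℓ ^ j) ψ S := by
    rcases Nat.eq_zero_or_pos j with h | h
    · have h1 : ψ = 1 := by
        rw [h, pow_zero] at hψ'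
        exact eq_one ψ hψ'
      rw [h, pow_zero, h1]
      exact hone K L S
    · refine hC K L ℓ j ψ S ⟨hl, h, ?_⟩ hj
      have h3 : 3 ≤ ℓ := by
        have := hl.two_le
        omega
      calc 2 < ℓ := h3
        _ = ℓ ^ 1 := (pow_one ℓ).symm
        _ ≤ ℓ ^ j := Nat.pow_le_pow_right hl.pos h
  intro φ Θ hφ
  obtain ⟨F, α, hF, hα, hR⟩ := hPP φ Θ hφ
  refine ⟨fun z => F z ^ f, ⟨(α : ℂ), cyc_le hr.dvd α.2⟩, ⟨?_, ?_⟩, ?_, ?_⟩
  · intro z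
    exact (hF.1 z).fun_pow f
  · intro s hs
    have h1 : cSum (ℓ ^ k) ψ = fun g => ∑ i : Fin 1, (fun _ : Fin 1 => (f : ℂ)) i *
        (fun _ : Fin 1 => cSum (ℓ ^ j) ψ) i g := by
      funext g
      rw [Fin.sum_univ_one]
      exact cSum_red hr ψ hψ' g
    rw [h1, IND.logL_sum LA_thm ALLT.lb _ s hs 1 (fun _ => (f : ℂ)) (fun _ => cSum (ℓ ^ j) ψ),
      Fin.sum_univ_one, Complex.exp_nat_mul, ← hF.2 s hs]
  · intro h0
    have h1 : (α : ℂ) = ((0 : Cyc (ℓ ^ k)) : ℂ) := congrArg (fun x : Cyc (ℓ ^ k) => (x : ℂ)) h0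
    rw [ZeroMemClass.coe_zero] at h1
    exact hα (Subtype.ext (h1.trans (ZeroMemClass.coe_zero _).symm))
  · rw [cReg_red hr _ ψ hψ' Θ, hR, nm_red hSIGT hNORMT hr α ⟨(α : ℂ), cyc_le hr.dvd α.2⟩ rfl, mul_pow]
    congr 1
    have h2 := INDT.lead_comb (fun _ : Fin 1 => (f : ℤ)) (fun _ => F) (fun _ => hF.1 0)
    simp only [Fin.prod_univ_one, zpow_natCast] at h2
    exact h2.symm

end StarkC.ABS
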