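import Pool.Agent.ABS.StP

/-!
# Project ABS, part P, module PEQ: identification of the character
-/

set_option autoImplicit false

open scoped Classical MatrixGroups ComplexConjugate

namespace StarkC.ABS

namespace PEQx

section Char

variable {H V : Type} [Group H] [Fintype H] [AddCommGroup V] [Module ℂ V] [Module.Finite ℂ V]

open scoped Matrix ComplexOrder in
theorem char_inv (ρ : Representation ℂ H V) (g : H) :
    ρ.character g⁻¹ = conj (ρ.character g) := by
  let b := Module.finBasis ℂ V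
  let M : H → Matrix (Fin (Module.finrank ℂ V)) (Fin (Module.finrank ℂ V)) ℂ :=
    fun h => LinearMap.toMatrix b b (ρ h)
  have hM1 : M 1 = 1 := by
    simp only [M, map_one]
    exact LinearMap.toMatrix_one b
  have hMm : ∀ a c, M (a * c) = M a * M c := by
    intro a c
    simp only [M, map_mul]
    exact LinearMap.toMatrix_mul b _ _
  have htr : ∀ h, ρ.character h = (M h).trace := by
    intro h
    change LinearMap.trace ℂ _ (ρ h) = _
    rw [LinearMap.trace_eq_matrix_trace ℂ b]
  obtain ⟨A, hAd⟩ : ∃ A : Matrix (Fin (Module.finrank ℂ V)) (Fin (Module.finrank ℂ V)) ℂ,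
    A = ∑ h, (M h)ᴴ * M h := ⟨_, rfl⟩
  have hA : ∀ a, (M a)ᴴ * A * M a = A := by
    intro a
    rw [hAd, Finset.mul_sum, Finset.sum_mul]
    rw [← Equiv.sum_comp (Equiv.mulRight a) (fun h => (M h)ᴴ * M h)]
    refine Finset.sum_congr rfl fun h _ => ?_
    simp only [Equiv.coe_mulRight]
    rw [hMm, Matrix.conjTranspose_mul]
    simp only [Matrix.mul_assoc]
  have hpd : A.PosDef := by
    rw [hAd, ← Finset.add_sum_erase _ _ (Finset.mem_univ (1 : H)), hM1,
      Matrix.conjTranspose_one, Matrix.one_mul]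
    apply Matrix.PosDef.add_posSemidef Matrix.PosDef.one
    exact Matrix.posSemidef_sum _ fun h _ => Matrix.posSemidef_conjTranspose_mul_self _
  have hdet : IsUnit A.det := (Matrix.isUnit_iff_isUnit_det A).mp hpd.isUnit
  have h1 : (M g)ᴴ * A = A * M g⁻¹ := by
    have h2 : M g * M g⁻¹ = 1 := by rw [← hMm, mul_inv_cancel, hM1]
    calc (M g)ᴴ * A = (M g)ᴴ * A * (M g * M g⁻¹) := by rw [h2, Matrix.mul_one]
      _ = (M g)ᴴ * A * M g * M g⁻¹ := by rw [Matrix.mul_assoc _ (M g)]
      _ = A * M g⁻¹ := by rw [hA]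
  rw [htr, htr, starRingEnd_apply, ← Matrix.trace_conjTranspose]
  calc (M g⁻¹).trace = (M g⁻¹ * (A⁻¹ * A)).trace := by
        rw [Matrix.nonsing_inv_mul A hdet, Matrix.mul_one]
    _ = (A * (M g⁻¹ * A⁻¹)).trace := by
        rw [← Matrix.mul_assoc, Matrix.trace_mul_comm]
    _ = ((M g)ᴴ * A * A⁻¹).trace := by rw [← Matrix.mul_assoc, ← h1]
    _ = ((M g)ᴴ).trace := by
        rw [Matrix.mul_assoc, Matrix.mul_nonsing_inv A hdet, Matrix.mul_one]

theorem sum_self (ρ : Representation ℂ H V) (hρ : ρ.IsIrreducible) :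
    ∑ g, Complex.normSq (ρ.character g) = (Fintype.card H : ℝ) := by
  have hc : (Nat.card H : ℂ) ≠ 0 := Nat.cast_ne_zero.2 Nat.card_pos.ne'
  have : Invertible (Nat.card H : ℂ) := invertibleOfNonzero hc
  have h := Representation.char_orthonormal ρ ρ
  rw [if_pos ⟨Representation.Equiv.refl ρ⟩] at h
  have h1 : ∑ g : H, ρ.character g * ρ.character g⁻¹ = (Nat.card H : ℂ) := by
    rw [inv_mul_eq_iff_eq_mul₀ hc, mul_one] at h
    exact h
  have h2 : ((∑ g, Complex.normSq (ρ.character g) : ℝ) : ℂ) = ((Fintype.card H : ℝ) : ℂ) := by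
    rw [Complex.ofReal_sum, Complex.ofReal_natCast, ← Nat.card_eq_fintype_card, ← h1]
    refine Finset.sum_congr rfl fun g _ => ?_
    rw [char_inv, Complex.mul_conj]
  exact_mod_cast h2

omit [Fintype H] [Module.Finite ℂ V] in
theorem cls_char (ρ : Representation ℂ H V) (x g : H) :
    ρ.character (x⁻¹ * g * x) = ρ.character g := by
  have h := ρ.char_conj g x⁻¹
  rw [inv_inv] at h
  exact h

end Char

section Count

variable {k G : Type} [Field k] [Fintype k] [Group G] [Fintype G] {e : ℤ}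

theorem odd_of (h : GoodQ k e) : Fintype.card k % 2 = 1 := by
  obtain ⟨-, h | h⟩ := h <;> omega

theorem neg_ne (h : Fintype.card k % 2 = 1) (a : kˣ) : -a ≠ a := by
  intro h1
  have h2 : (2 : k) = 0 := by
    have h3 := congrArg (Units.val) h1
    rw [Units.val_neg] at h3
    have h4 : (2 : k) * (a : k) = 0 := by
      rw [two_mul]
      nth_rewrite 1 [← h3]
      exact neg_add_cancel _
    exact (mul_eq_zero.1 h4).resolve_right a.ne_zero
  have h5 : (Fintype.card k : k) = 0 := FiniteField.cast_card_eq_zero k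
  rw [← Nat.div_add_mod (Fintype.card k) 2, h, Nat.cast_add, Nat.cast_mul, Nat.cast_ofNat, h2,
    zero_mul, zero_add, Nat.cast_one] at h5
  exact one_ne_zero h5

theorem t_neg (d : PD k G e) (a : kˣ) : d.t (-a) = d.t a := by
  have h : d.t (-1) = 1 := (d.t_one (-1)).2 (by simp)
  have h1 := d.t_mul (-1) a
  rw [h, one_mul, neg_one_mul] at h1
  exact h1

/-- The pairs `(x, b)` with `x⁻¹ g x = u b`, `b ≠ 0`. -/
noncomputable def prs (d : PD k G e) (g : G) : Finset (G × k) :=
  Finset.univ.filter fun p => p.2 ≠ 0 ∧ p.1⁻¹ * g * p.1 = d.u p.2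

theorem card_prs (d : PD k G e) (hq : Fintype.card k % 2 = 1) (g : G) :
    2 * (prs d g).card ≤ Fintype.card k * (Fintype.card k - 1) := by
  rcases (prs d g).eq_empty_or_nonempty with h0 | ⟨⟨x₀, b₀⟩, h0⟩
  · rw [h0, Finset.card_empty, mul_zero]
    exact Nat.zero_le _
  rw [prs, Finset.mem_filter] at h0
  obtain ⟨-, hb0, h0⟩ := h0
  let φ : k × kˣ → G := fun p => x₀ * (d.u p.1 * d.t p.2)
  have h1 : (prs d g).card ≤ (Finset.univ.image φ).card := by
    refine Finset.card_le_card_of_injOn Prod.fst ?_ ?_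
    · rintro ⟨x, b⟩ hx
      rw [Finset.mem_coe, prs, Finset.mem_filter] at hx
      obtain ⟨-, hb, hx⟩ := hx
      have h2 : (x₀⁻¹ * x)⁻¹ * d.u b₀ * (x₀⁻¹ * x) = d.u b := by
        rw [← h0, ← hx]
        group
      obtain ⟨c, a, h3⟩ := d.tu _ _ _ hb0 h2
      rw [Finset.mem_coe, Finset.mem_image]
      refine ⟨(c, a), Finset.mem_univ _, ?_⟩
      change x₀ * (d.u c * d.t a) = x
      rw [← h3, mul_inv_cancel_left]
    · rintro ⟨x, b⟩ hx ⟨y, c⟩ hy hxy
      rw [Finset.mem_coe, prs, Finset.mem_filter] at hx hy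
      change x = y at hxy
      subst hxy
      have h2 : d.u b = d.u c := hx.2.2.symm.trans hy.2.2
      rw [d.u_inj h2]
  have h2 : 2 * (Finset.univ.image φ).card ≤ (Finset.univ : Finset (k × kˣ)).card := by
    refine Finset.mul_card_image_le_card _ 2 ?_
    intro y hy
    rw [Finset.mem_image] at hy
    obtain ⟨⟨c, a⟩, -, rfl⟩ := hy
    have h3 : ({(c, a), (c, -a)} : Finset (k × kˣ)) ⊆
        Finset.univ.filter fun p => φ p = φ (c, a) := by
      intro p hp
      rw [Finset.mem_insert, Finset.mem_singleton] at hp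
      rw [Finset.mem_filter]
      refine ⟨Finset.mem_univ _, ?_⟩
      rcases hp with rfl | rfl
      · rfl
      · change x₀ * (d.u c * d.t (-a)) = x₀ * (d.u c * d.t a)
        rw [t_neg]
    have h4 : ({(c, a), (c, -a)} : Finset (k × kˣ)).card = 2 := by
      refine Finset.card_pair ?_
      intro h5
      exact neg_ne hq a (congrArg Prod.snd h5).symm
    rw [← h4]
    exact Finset.card_le_card h3
  have h3 : (Finset.univ : Finset (k × kˣ)).card = Fintype.card k * (Fintype.card k - 1) := by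
    rw [Finset.card_univ, Fintype.card_prod, Fintype.card_units]
  omega

theorem sum_prs (d : PD k G e) (F : G → ℝ) (hF : ∀ x g, F (x⁻¹ * g * x) = F g) :
    ∑ g, F g * ((prs d g).card : ℝ) =
      (Fintype.card G : ℝ) * ∑ b : k, (if b = 0 then 0 else F (d.u b)) := by
  have h1 : ∀ g, F g * ((prs d g).card : ℝ) =
      ∑ x : G, ∑ b : k, if b ≠ 0 ∧ x⁻¹ * g * x = d.u b then F g else 0 := by
    intro g
    rw [prs, Finset.card_filter, ← Finset.univ_product_univ, Finset.sum_product, Nat.cast_sum,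
      Finset.mul_sum]
    refine Finset.sum_congr rfl fun x _ => ?_
    rw [Nat.cast_sum, Finset.mul_sum]
    refine Finset.sum_congr rfl fun b _ => ?_
    by_cases h : b ≠ 0 ∧ x⁻¹ * g * x = d.u b
    · rw [if_pos h, if_pos h, Nat.cast_one, mul_one]
    · rw [if_neg h, if_neg h, Nat.cast_zero, mul_zero]
  rw [Finset.sum_congr rfl fun g _ => h1 g, Finset.sum_comm]
  have h2 : ∀ x : G, ∑ g : G, ∑ b : k, (if b ≠ 0 ∧ x⁻¹ * g * x = d.u b then F g else 0) =
      ∑ b : k, (if b = 0 then 0 else F (d.u b)) := by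
    intro x
    rw [Finset.sum_comm]
    refine Finset.sum_congr rfl fun b _ => ?_
    by_cases hb : b = 0
    · rw [if_pos hb]
      refine Finset.sum_eq_zero fun g _ => ?_
      rw [if_neg fun h => h.1 hb]
    · rw [if_neg hb, Finset.sum_eq_single (x * d.u b * x⁻¹)]
      · have h3 : x⁻¹ * (x * d.u b * x⁻¹) * x = d.u b := by group
        rw [if_pos ⟨hb, h3⟩, ← hF x, h3]
      · intro g _ hg
        rw [if_neg]
        rintro ⟨-, h⟩
        apply hg
        rw [← h]
        group
      · intro h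
        exact absurd (Finset.mem_univ _) h
  rw [Finset.sum_congr rfl fun x _ => h2 x, Finset.sum_const, Finset.card_univ, nsmul_eq_mul]

end Count

end PEQx

open PEQx in
/-- PEQ. -/
theorem PEQ_thm : Stmt_PEQ := by
  intro hPGS hPNO hPIN hPFR hPVU hPVD k G V _ _ _ _ e d _ _ _ ρ ψ hq hirr hdim hψ hu
  have hodd := odd_of hq
  have hq5 : 5 ≤ Fintype.card k := hq.1
  have hoddk : Odd (Fintype.card k) := Nat.odd_iff.2 hodd
  obtain ⟨hcl, -, hv, hn⟩ := hPNO hPFR hPGS hPVU hPVD k G e d ψ hq hψ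
  obtain ⟨N, hN⟩ := hPIN hPFR hPGS k G V e d ρ ψ hq hdim hψ hu
  obtain ⟨-, hG2, -⟩ := hPGS k ψ hoddk hψ
  set χ : G → ℂ := ρ.character with hχ
  set χ₀ : G → ℂ := d.chi ψ with hχ₀
  have hGpos : (0 : ℝ) < (Fintype.card G : ℝ) := by
    exact_mod_cast Fintype.card_pos
  have e1 : ∑ g, Complex.normSq (χ g) = (Fintype.card G : ℝ) := sum_self ρ hirr
  have e2 : ∑ g, Complex.normSq (χ₀ g) = (Fintype.card G : ℝ) := by
    have h : ((∑ g, Complex.normSq (χ₀ g) : ℝ) : ℂ) = ((Fintype.card G : ℝ) : ℂ) := by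
      rw [Complex.ofReal_sum, Complex.ofReal_natCast, ← hn]
      refine Finset.sum_congr rfl fun g _ => ?_
      rw [Complex.mul_conj]
    exact_mod_cast h
  have e3 : ∑ g, (χ g * conj (χ₀ g)).re = (Fintype.card G : ℝ) * (N : ℝ) := by
    have h := congrArg Complex.re hN
    rw [Complex.re_sum] at h
    rw [h]
    have h1 : (Fintype.card G : ℂ) * (N : ℂ) = (((Fintype.card G : ℝ) * (N : ℝ) : ℝ) : ℂ) := by
      push_cast
      rfl
    rw [h1, Complex.ofReal_re]
  have e4 : ∑ g, Complex.normSq (χ g - χ₀ g) = 2 * (Fintype.card G : ℝ) * (1 - (N : ℝ)) := by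
    have h : ∀ g, Complex.normSq (χ g - χ₀ g) =
        Complex.normSq (χ g) + Complex.normSq (χ₀ g) - 2 * (χ g * conj (χ₀ g)).re :=
      fun g => Complex.normSq_sub _ _
    rw [Finset.sum_congr rfl fun g _ => h g, Finset.sum_sub_distrib, Finset.sum_add_distrib,
      ← Finset.mul_sum, e1, e2, e3]
    ring
  -- the values on the unipotent elements
  have hF : ∀ x g, Complex.normSq (χ (x⁻¹ * g * x)) = Complex.normSq (χ g) := by
    intro x g
    rw [hχ, cls_char]
  have e5 := sum_prs d (fun g => Complex.normSq (χ g)) hF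
  have hee : (e : ℝ) ^ 2 = 1 := by
    obtain ⟨-, ⟨h, -⟩ | ⟨h, -⟩⟩ := hq <;> rw [h] <;> norm_num
  have e6 : ∑ b : k, (if b = 0 then 0 else Complex.normSq (χ (d.u b))) =
      ((Fintype.card k : ℝ) - 1) * ((Fintype.card k : ℝ) + 1) / 4 := by
    rw [← hG2, Finset.sum_div]
    refine Finset.sum_congr rfl fun b _ => ?_
    by_cases hb : b = 0
    · rw [if_pos hb, if_pos hb, zero_div]
    · rw [if_neg hb, if_neg hb, hu b hb, Complex.normSq_mul, Complex.normSq_div,
        Complex.normSq_eq_norm_sq (∑ a : kˣ, ψ ((a : k) ^ 2 * b))]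
      have h1 : Complex.normSq (e : ℂ) = 1 := by
        rw [← Complex.ofReal_intCast, Complex.normSq_ofReal, ← sq, hee]
      have h2 : Complex.normSq (2 : ℂ) = 4 := by
        rw [Complex.normSq_ofNat]
        norm_num
      rw [h1, h2]
      ring
  rw [e6] at e5
  -- the set of the conjugates
  obtain ⟨FS, hFS⟩ : ∃ FS : ℝ, FS = ∑ g, if (prs d g).Nonempty then Complex.normSq (χ g) else 0 :=
    ⟨_, rfl⟩
  have hQ1 : (4 : ℝ) ≤ (Fintype.card k : ℝ) - 1 := by
    have h : (5 : ℝ) ≤ (Fintype.card k : ℝ) := by exact_mod_cast hq5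
    linarith
  have e7 : (Fintype.card G : ℝ) * (((Fintype.card k : ℝ) - 1) * ((Fintype.card k : ℝ) + 1) / 4) ≤
      (Fintype.card k : ℝ) * ((Fintype.card k : ℝ) - 1) / 2 * FS := by
    rw [← e5, hFS, Finset.mul_sum]
    refine Finset.sum_le_sum fun g _ => ?_
    by_cases h : (prs d g).Nonempty
    · rw [if_pos h, mul_comm]
      refine mul_le_mul_of_nonneg_right ?_ (Complex.normSq_nonneg _)
      have h1 := card_prs d hodd g
      have h2 : (2 : ℝ) * ((prs d g).card : ℝ) ≤
          (Fintype.card k : ℝ) * ((Fintype.card k : ℝ) - 1) := by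
        have h3 : ((2 * (prs d g).card : ℕ) : ℝ) ≤
            ((Fintype.card k * (Fintype.card k - 1) : ℕ) : ℝ) := by exact_mod_cast h1
        rw [Nat.cast_mul, Nat.cast_mul, Nat.cast_sub (by omega), Nat.cast_ofNat, Nat.cast_one] at h3
        exact h3
      linarith
    · rw [if_neg h, Finset.not_nonempty_iff_eq_empty.1 h, Finset.card_empty, Nat.cast_zero,
        mul_zero, mul_zero]
  have e8 : (Fintype.card G : ℝ) < 2 * FS := by
    by_contra hcon
    rw [not_lt] at hcon
    set Q : ℝ := (Fintype.card k : ℝ) with hQ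
    have hQ0 : 0 < Q := by linarith
    have h1 : Q * (Q - 1) / 2 * FS ≤ Q * (Q - 1) / 2 * ((Fintype.card G : ℝ) / 2) := by
      refine mul_le_mul_of_nonneg_left (by linarith) ?_
      have : 0 ≤ Q * (Q - 1) := mul_nonneg hQ0.le (by linarith)
      linarith
    have h2 : (Fintype.card G : ℝ) * ((Q - 1) * (Q + 1) / 4) ≤
        Q * (Q - 1) / 2 * ((Fintype.card G : ℝ) / 2) := e7.trans h1
    have h3 : (Fintype.card G : ℝ) * ((Q - 1) * (Q + 1) / 4) -
        Q * (Q - 1) / 2 * ((Fintype.card G : ℝ) / 2) = (Fintype.card G : ℝ) * (Q - 1) / 4 := by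
      ring
    have h4 : 0 < (Fintype.card G : ℝ) * (Q - 1) / 4 := by
      have : 0 < (Fintype.card G : ℝ) * (Q - 1) := mul_pos hGpos (by linarith)
      linarith
    linarith
  have e9 : ∑ g, Complex.normSq (χ g - χ₀ g) ≤
      2 * (Fintype.card G : ℝ) + 2 * (Fintype.card G : ℝ) - 4 * FS := by
    have h : ∀ g, Complex.normSq (χ g - χ₀ g) ≤ 2 * Complex.normSq (χ g) +
        2 * Complex.normSq (χ₀ g) -
          4 * (if (prs d g).Nonempty then Complex.normSq (χ g) else 0) := by
      intro g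
      by_cases h : (prs d g).Nonempty
      · rw [if_pos h]
        obtain ⟨⟨x, b⟩, hx⟩ := h
        rw [prs, Finset.mem_filter] at hx
        obtain ⟨-, hb, hx⟩ := hx
        have h1 : χ g = χ₀ g := by
          rw [← hcl x g, hx, hv b hb, ← hu b hb, ← hx, hχ, cls_char]
        rw [h1, sub_self, Complex.normSq_zero]
        linarith
      · rw [if_neg h, mul_zero, sub_zero]
        have h1 : Complex.normSq (χ g - χ₀ g) + Complex.normSq (χ g + χ₀ g) =
            2 * Complex.normSq (χ g) + 2 * Complex.normSq (χ₀ g) := by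
          rw [Complex.normSq_sub, Complex.normSq_add]
          ring
        have h2 := Complex.normSq_nonneg (χ g + χ₀ g)
        linarith
    refine (Finset.sum_le_sum fun g _ => h g).trans (le_of_eq ?_)
    rw [Finset.sum_sub_distrib, Finset.sum_add_distrib, ← Finset.mul_sum, ← Finset.mul_sum,
      ← Finset.mul_sum, e1, e2, hFS]
  have e10 : (0 : ℝ) < (N : ℝ) := by
    have h1 : 2 * (Fintype.card G : ℝ) * (1 - (N : ℝ)) < 2 * (Fintype.card G : ℝ) * 1 := by
      rw [← e4]
      linarith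
    have h2 := lt_of_mul_lt_mul_left h1 (by linarith)
    linarith
  have e11 : (1 : ℝ) ≤ (N : ℝ) := by
    have h1 : (0 : ℤ) < N := by exact_mod_cast e10
    exact_mod_cast (show (1 : ℤ) ≤ N by omega)
  have e12 : ∑ g, Complex.normSq (χ g - χ₀ g) ≤ 0 := by
    rw [e4]
    exact mul_nonpos_of_nonneg_of_nonpos (by linarith) (by linarith)
  intro g
  have h1 : ∑ g, Complex.normSq (χ g - χ₀ g) = 0 :=
    le_antisymm e12 (Finset.sum_nonneg fun g _ => Complex.normSq_nonneg _)
  have h2 := (Finset.sum_eq_zero_iff_of_nonneg fun g _ => Complex.normSq_nonneg _).1 h1 g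
    (Finset.mem_univ g)
  exact sub_eq_zero.1 (Complex.normSq_eq_zero.1 h2)

end StarkC.ABS
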