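import Pool.Agent.ABS.StP

/-!
# ABS (MP_46b841_nt), part P: PFR, Frobenius reciprocity
-/

set_option autoImplicit false

open scoped Classical ComplexConjugate

namespace StarkC.ABS

theorem PFR_thm : Stmt_PFR := by
  intro G _ _ H φ f hφ
  have h1 : ∀ g, φ g * conj (indFun H f g) =
      (∑ x : G, φ g * conj (if x⁻¹ * g * x ∈ H then f (x⁻¹ * g * x) else 0)) /
        (Nat.card H : ℂ) := by
    intro g
    unfold indFun
    rw [map_div₀, map_sum, map_natCast, ← Finset.mul_sum, mul_div_assoc]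
  rw [Finset.sum_congr rfl fun g _ => h1 g, ← Finset.sum_div, Finset.sum_comm]
  have h2 : ∀ x : G, ∑ g, φ g * conj (if x⁻¹ * g * x ∈ H then f (x⁻¹ * g * x) else 0) =
      ∑ h, if h ∈ H then φ h * conj (f h) else 0 := by
    intro x
    refine Fintype.sum_equiv (MulAut.conj x⁻¹).toEquiv _ _ fun g => ?_
    have h3 : (MulAut.conj x⁻¹).toEquiv g = x⁻¹ * g * x := by simp
    rw [h3, hφ]
    split_ifs <;> simp
  rw [Finset.sum_congr rfl fun x _ => h2 x, Finset.sum_const, Finset.card_univ, nsmul_eq_mul]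
  ring

end StarkC.ABS
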