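import Pool.Agent.ABS.StP

/-!
# Sums of additive characters of a finite field over the squares (module `ABS_PGS`)
-/

set_option autoImplicit false

open scoped Classical MatrixGroups ComplexConjugate

namespace StarkC.ABS

namespace PGSx

variable {k : Type} [Field k] [Fintype k]

theorem sum_units (f : k → ℂ) : ∑ a : k, f a = f 0 + ∑ a : kˣ, f (a : k) := by
  rw [← Finset.add_sum_erase Finset.univ f (Finset.mem_univ 0)]
  congr 1
  symm
  refine Finset.sum_bij (fun a _ => (a : k)) ?_ ?_ ?_ ?_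
  · intro a _
    simp
  · intro a _ b _ h
    exact Units.ext h
  · intro a ha
    exact ⟨Units.mk0 a (Finset.ne_of_mem_erase ha), Finset.mem_univ _, rfl⟩
  · intro a _
    rfl

theorem char_ne (h : Odd (Fintype.card k)) : ringChar k ≠ 2 := by
  intro h2
  have h3 := FiniteField.even_card_iff_char_two.1 h2
  rw [Nat.odd_iff] at h
  omega

/-- the number of the square roots -/
theorem card_sqrt (h : Odd (Fintype.card k)) (c : k) :
    ((Finset.univ.filter fun a : k => a ^ 2 = c).card : ℂ) = ((quadraticChar k c : ℤ) : ℂ) + 1 := by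
  have h1 := quadraticChar_card_sqrts (char_ne h) c
  have h2 : ({x : k | x ^ 2 = c} : Set k).toFinset = Finset.univ.filter fun a : k => a ^ 2 = c := by
    ext x
    simp
  rw [h2] at h1
  have h3 := congrArg (fun z : ℤ => (z : ℂ)) h1
  push_cast at h3
  exact h3

/-- substitution `c = a ^ 2` -/
theorem sum_sq (h : Odd (Fintype.card k)) (F : k → ℂ) :
    ∑ a : k, F (a ^ 2) = ∑ c : k, (((quadraticChar k c : ℤ) : ℂ) + 1) * F c := by
  calc ∑ a : k, F (a ^ 2) = ∑ a : k, ∑ c : k, (if a ^ 2 = c then F c else 0) := by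
        refine Finset.sum_congr rfl fun a _ => ?_
        rw [Finset.sum_ite_eq Finset.univ (a ^ 2) F, if_pos (Finset.mem_univ _)]
    _ = ∑ c : k, ∑ a : k, (if a ^ 2 = c then F c else 0) := Finset.sum_comm
    _ = _ := by
        refine Finset.sum_congr rfl fun c _ => ?_
        rw [← Finset.sum_filter, Finset.sum_const, nsmul_eq_mul, card_sqrt h]

variable {ψ : AddChar k ℂ}

theorem orth (hψ : ψ ≠ 1) (y : k) :
    ∑ b : k, ψ (y * b) = if y = 0 then (Fintype.card k : ℂ) else 0 := by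
  have h1 := AddChar.sum_mulShift y (AddChar.IsPrimitive.of_ne_one hψ)
  have h2 : ∑ b : k, ψ (y * b) = ∑ b : k, ψ (b * y) :=
    Finset.sum_congr rfl fun b _ => by rw [mul_comm]
  rw [h2, h1]
  split_ifs
  · rfl
  · exact Nat.cast_zero

/-- the double sum of (1) -/
theorem dbl (h : Odd (Fintype.card k)) (hψ : ψ ≠ 1) {c : k} (hc : c ≠ 0) :
    ∑ b : k, (∑ a : kˣ, ψ ((a : k) ^ 2 * b)) * ψ (-(c * b)) =
      (Fintype.card k : ℂ) * (((quadraticChar k c : ℤ) : ℂ) + 1) := by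
  have h1 : ∑ b : k, (∑ a : kˣ, ψ ((a : k) ^ 2 * b)) * ψ (-(c * b)) =
      ∑ a : kˣ, (if (a : k) ^ 2 = c then (Fintype.card k : ℂ) else 0) := by
    simp only [Finset.sum_mul]
    rw [Finset.sum_comm]
    refine Finset.sum_congr rfl fun a _ => ?_
    have h2 : ∀ b : k, ψ ((a : k) ^ 2 * b) * ψ (-(c * b)) = ψ (((a : k) ^ 2 - c) * b) := by
      intro b
      rw [← AddChar.map_add_eq_mul]
      congr 1
      ring
    rw [Finset.sum_congr rfl fun b _ => h2 b, orth hψ]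
    simp only [sub_eq_zero]
  have h3 := sum_units (fun a : k => if a ^ 2 = c then (Fintype.card k : ℂ) else 0)
  have h4 : ¬ ((0 : k) ^ 2 = c) := by
    rw [zero_pow two_ne_zero]
    exact fun h => hc h.symm
  simp only [if_neg h4, zero_add] at h3
  rw [h1, ← h3, ← Finset.sum_filter, Finset.sum_const, nsmul_eq_mul, card_sqrt h, mul_comm]

theorem dbl_sq (h : Odd (Fintype.card k)) (hψ : ψ ≠ 1) {c : k} (hc : c ≠ 0) (hs : IsSquare c) :
    ∑ b : k, (∑ a : kˣ, ψ ((a : k) ^ 2 * b)) * ψ (-(c * b)) = 2 * (Fintype.card k : ℂ) := by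
  rw [dbl h hψ hc, (quadraticChar_one_iff_isSquare hc).2 hs]
  push_cast
  ring

theorem dbl_non (h : Odd (Fintype.card k)) (hψ : ψ ≠ 1) {c : k} (hc : c ≠ 0)
    (hs : ¬ IsSquare c) :
    ∑ b : k, (∑ a : kˣ, ψ ((a : k) ^ 2 * b)) * ψ (-(c * b)) = 0 := by
  rw [dbl h hψ hc, quadraticChar_neg_one_iff_not_isSquare.2 hs]
  push_cast
  ring

theorem card_units_eq : ((Fintype.card kˣ : ℕ) : ℂ) = (Fintype.card k : ℂ) - 1 := by
  rw [Fintype.card_units, Nat.cast_sub Fintype.card_pos]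
  simp

/-- the sum of the squares, all `b` -/
theorem sq_all (h : Odd (Fintype.card k)) (hψ : ψ ≠ 1) :
    ∑ b : k, (∑ a : kˣ, ψ ((a : k) ^ 2 * b)) * conj (∑ a : kˣ, ψ ((a : k) ^ 2 * b)) =
      2 * (Fintype.card k : ℂ) * ((Fintype.card k : ℂ) - 1) := by
  have h1 : ∀ b : k, (∑ a : kˣ, ψ ((a : k) ^ 2 * b)) * conj (∑ a : kˣ, ψ ((a : k) ^ 2 * b)) =
      ∑ a' : kˣ, (∑ a : kˣ, ψ ((a : k) ^ 2 * b)) * ψ (-((a' : k) ^ 2 * b)) := by
    intro b
    rw [map_sum, Finset.mul_sum]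
    refine Finset.sum_congr rfl fun a' _ => ?_
    rw [AddChar.map_neg_eq_conj]
  rw [Finset.sum_congr rfl fun b _ => h1 b, Finset.sum_comm]
  have h2 : ∀ a' : kˣ, ∑ b : k, (∑ a : kˣ, ψ ((a : k) ^ 2 * b)) * ψ (-((a' : k) ^ 2 * b)) =
      2 * (Fintype.card k : ℂ) := fun a' =>
    dbl_sq h hψ (pow_ne_zero 2 a'.ne_zero) ⟨(a' : k), sq (a' : k)⟩
  rw [Finset.sum_congr rfl fun a' _ => h2 a', Finset.sum_const, Finset.card_univ, nsmul_eq_mul,
    card_units_eq]
  ring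

theorem part3 (h : Odd (Fintype.card k)) (hψ : ψ ≠ 1) {ν b : k} (hν : ¬ IsSquare ν)
    (hb : b ≠ 0) :
    ∑ a : kˣ, ψ ((a : k) ^ 2 * b) + ∑ a : kˣ, ψ (ν * ((a : k) ^ 2 * b)) = -2 := by
  have hν0 : ν ≠ 0 := fun h0 => hν (h0 ▸ ⟨0, (mul_zero 0).symm⟩)
  have e1 := sum_units (fun a : k => ψ (a ^ 2 * b))
  have e2 := sum_units (fun a : k => ψ (ν * (a ^ 2 * b)))
  have z1 : ψ ((0 : k) ^ 2 * b) = 1 := by
    rw [zero_pow two_ne_zero, zero_mul, AddChar.map_zero_eq_one]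
  have z2 : ψ (ν * ((0 : k) ^ 2 * b)) = 1 := by
    rw [zero_pow two_ne_zero, zero_mul, mul_zero, AddChar.map_zero_eq_one]
  simp only [z1] at e1
  simp only [z2] at e2
  have t1 := sum_sq h (fun c : k => ψ (c * b))
  have t2 := sum_sq h (fun c : k => ψ (ν * (c * b)))
  have t1' : ∑ c : k, (((quadraticChar k c : ℤ) : ℂ) + 1) * ψ (c * b) =
      ∑ c : k, (-((quadraticChar k c : ℤ) : ℂ) + 1) * ψ (ν * (c * b)) := by
    symm
    refine Fintype.sum_equiv (Equiv.mulLeft₀ ν hν0) _ _ fun c => ?_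
    have q1 : quadraticChar k (ν * c) = - quadraticChar k c := by
      rw [map_mul (quadraticChar k), quadraticChar_neg_one_iff_not_isSquare.2 hν]
      ring
    have q2 : (Equiv.mulLeft₀ ν hν0) c = ν * c := rfl
    rw [q2, q1, mul_assoc ν c b]
    push_cast
    ring
  have t3 : ∑ c : k, (((quadraticChar k c : ℤ) : ℂ) + 1) * ψ (c * b) +
      ∑ c : k, (((quadraticChar k c : ℤ) : ℂ) + 1) * ψ (ν * (c * b)) = 0 := by
    rw [t1', ← Finset.sum_add_distrib]
    have t4 : ∀ c : k, (-((quadraticChar k c : ℤ) : ℂ) + 1) * ψ (ν * (c * b)) +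
        (((quadraticChar k c : ℤ) : ℂ) + 1) * ψ (ν * (c * b)) = 2 * ψ (ν * b * c) := by
      intro c
      have : ν * (c * b) = ν * b * c := by ring
      rw [this]
      ring
    rw [Finset.sum_congr rfl fun c _ => t4 c, ← Finset.mul_sum, orth hψ,
      if_neg (mul_ne_zero hν0 hb), mul_zero]
  rw [← t1, ← t2, e1, e2] at t3
  linear_combination t3

end PGSx

open PGSx in
theorem PGS_thm : Stmt_PGS := by
  intro k _ _ ψ h hψ
  refine ⟨fun c hc => ⟨fun hs => dbl_sq h hψ hc hs, fun hs => dbl_non h hψ hc hs⟩, ?_,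
    fun ν b hν hb => part3 h hψ hν hb⟩
  have h1 := sq_all h hψ
  have h2 : ∑ b : k, ((‖∑ a : kˣ, ψ ((a : k) ^ 2 * b)‖ ^ 2 : ℝ) : ℂ) =
      2 * (Fintype.card k : ℂ) * ((Fintype.card k : ℂ) - 1) := by
    rw [← h1]
    refine Finset.sum_congr rfl fun b _ => ?_
    rw [Complex.mul_conj, Complex.normSq_eq_norm_sq]
  have h3 : ∑ b : k, ‖∑ a : kˣ, ψ ((a : k) ^ 2 * b)‖ ^ 2 =
      2 * (Fintype.card k : ℝ) * ((Fintype.card k : ℝ) - 1) := by
    exact_mod_cast h2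
  have h4 : ‖∑ a : kˣ, ψ ((a : k) ^ 2 * 0)‖ ^ 2 = ((Fintype.card k : ℝ) - 1) ^ 2 := by
    have e : ∑ a : kˣ, ψ ((a : k) ^ 2 * 0) = (((Fintype.card k : ℝ) - 1 : ℝ) : ℂ) := by
      simp only [mul_zero, AddChar.map_zero_eq_one]
      rw [Finset.sum_const, Finset.card_univ, nsmul_eq_mul, mul_one, card_units_eq]
      push_cast
      rfl
    rw [e, Complex.norm_real, Real.norm_eq_abs, sq_abs]
  have h5 : ∑ b : k, (if b = 0 then 0 else ‖∑ a : kˣ, ψ ((a : k) ^ 2 * b)‖ ^ 2) =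
      ∑ b : k, ‖∑ a : kˣ, ψ ((a : k) ^ 2 * b)‖ ^ 2 - ‖∑ a : kˣ, ψ ((a : k) ^ 2 * 0)‖ ^ 2 := by
    rw [← Finset.add_sum_erase Finset.univ (fun b : k => ‖∑ a : kˣ, ψ ((a : k) ^ 2 * b)‖ ^ 2)
        (Finset.mem_univ (0 : k)),
      ← Finset.add_sum_erase Finset.univ
        (fun b : k => if b = 0 then 0 else ‖∑ a : kˣ, ψ ((a : k) ^ 2 * b)‖ ^ 2)
        (Finset.mem_univ (0 : k))]
    simp only [if_true]
    rw [zero_add, add_sub_cancel_left]
    exact Finset.sum_congr rfl fun b hb => if_neg (Finset.ne_of_mem_erase hb)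
  rw [h5, h3, h4]
  ring

end StarkC.ABS
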