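import Pool.Agent.ABS.StP

/-!
# Project ABS (MP_46b841_nt), module PIN (helper55): integrality of the inner product
-/

set_option autoImplicit false

open scoped Classical MatrixGroups ComplexConjugate

namespace StarkC.ABS

namespace PINx

theorem avg {H V : Type} [Group H] [Fintype H] [AddCommGroup V] [Module ℂ V] [Module.Finite ℂ V]
    (ρ : Representation ℂ H V) : ∃ n : ℕ, ∑ h, ρ.character h = (Nat.card H : ℂ) * n := by
  have h0 : (Nat.card H : ℂ) ≠ 0 := by
    exact_mod_cast Nat.card_pos.ne'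
  have hi : Invertible (Nat.card H : ℂ) := invertibleOfNonzero h0
  refine ⟨Module.finrank ℂ ρ.invariants, ?_⟩
  have h1 := ρ.card_inv_mul_sum_char_eq_finrank
  rw [← h1, ← mul_assoc, mul_inv_cancel₀ h0, one_mul]

theorem sub_avg {G V : Type} [Group G] [Fintype G] [AddCommGroup V] [Module ℂ V]
    [Module.Finite ℂ V] (ρ : Representation ℂ G V) (H : Subgroup G) :
    ∃ n : ℕ, ∑ g : G, (if g ∈ H then ρ.character g else 0) = (Nat.card H : ℂ) * n := by
  obtain ⟨n, hn⟩ := avg (ρ.comp H.subtype)
  refine ⟨n, ?_⟩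
  rw [← hn, ← Finset.sum_filter]
  exact (Finset.sum_subtype (Finset.univ.filter fun g => g ∈ H) (by simp)
    (fun g => ρ.character g))

section

variable {k G : Type} [Field k] [Fintype k] [Group G] [Fintype G] {e : ℤ}

theorem ext_u (d : PD k G e) (ψ : AddChar k ℂ) (b : k) : d.ext ψ (d.u b) = ψ b := by
  unfold PD.ext
  have h : ∃ b', d.u b' = d.u b := ⟨b, rfl⟩
  rw [dif_pos h, d.u_inj h.choose_spec]

theorem sum_U (d : PD k G e) (F : G → ℂ) :
    ∑ g : G, (if g ∈ d.U then F g else 0) = ∑ b : k, F (d.u b) := by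
  rw [← Finset.sum_filter]
  have h1 : (Finset.univ.filter fun g => g ∈ d.U) = Finset.univ.image d.u := by
    ext g
    rw [Finset.mem_filter, Finset.mem_image]
    constructor
    · rintro ⟨-, b, hb⟩
      exact ⟨b, Finset.mem_univ _, hb⟩
    · rintro ⟨b, -, hb⟩
      exact ⟨Finset.mem_univ _, b, hb⟩
  rw [h1, Finset.sum_image fun a _ b _ h => d.u_inj h]

theorem card_U (d : PD k G e) : Nat.card d.U = Fintype.card k := by
  have h : Nat.card d.U = Nat.card k :=
    Nat.card_congr (Equiv.ofInjective d.u d.u_inj).symm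
  rw [h, Nat.card_eq_fintype_card]

end

end PINx

open PINx in
theorem PIN_thm : Stmt_PIN := by
  intro hPFR hPGS k G V _ _ _ _ e d _ _ _ ρ ψ hq hdim hψ hρ
  have he : e = 1 ∨ e = -1 := hq.2.imp And.left And.left
  have hodd : Odd (Fintype.card k) := by
    rw [Nat.odd_iff]
    rcases hq.2 with h | h
    · omega
    · omega
  have hq0 : (Fintype.card k : ℂ) ≠ 0 := by
    exact_mod_cast Fintype.card_ne_zero
  have hG0 : (Fintype.card G : ℂ) ≠ 0 := by
    exact_mod_cast Fintype.card_ne_zero
  have hcl : ∀ x g, ρ.character (x⁻¹ * g * x) = ρ.character g := by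
    intro x g
    have h := ρ.char_conj g x⁻¹
    rwa [inv_inv] at h
  -- the group `U`
  have hU : ∑ g, ρ.character g * conj (indFun d.U (d.ext ψ) g) =
      (Fintype.card G : ℂ) * ((1 + (e : ℂ)) / 2) := by
    rw [hPFR G d.U ρ.character (d.ext ψ) hcl, sum_U d fun g => ρ.character g * conj (d.ext ψ g),
      card_U]
    have hP := ((hPGS k ψ hodd hψ).1 1 one_ne_zero).1 ⟨1, (mul_one 1).symm⟩
    have h0 : ρ.character (d.u 0) = ((Fintype.card k : ℂ) - e) / 2 := by
      have hu0 : d.u 0 = 1 := by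
        have h := d.u_add 0 0
        rw [add_zero] at h
        exact (mul_eq_left.1 h.symm)
      rw [hu0, ρ.char_one]
      have h1 : (2 : ℂ) * (Module.finrank ℂ V : ℂ) = (Fintype.card k : ℂ) - e := by
        exact_mod_cast hdim
      linear_combination h1 / 2
    have hsum : ∑ b : k, ρ.character (d.u b) * conj (d.ext ψ (d.u b)) =
        (Fintype.card k : ℂ) * ((1 + (e : ℂ)) / 2) := by
      have h1 : ∀ b : k, ρ.character (d.u b) * conj (d.ext ψ (d.u b)) =
          (e : ℂ) / 2 * ((∑ a : kˣ, ψ ((a : k) ^ 2 * b)) * ψ (-(1 * b))) +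
          if b = 0 then ((Fintype.card k : ℂ) - e) / 2 - (e : ℂ) / 2 * ((Fintype.card k : ℂ) - 1)
          else 0 := by
        intro b
        rw [ext_u, ← AddChar.map_neg_eq_conj, one_mul]
        by_cases hb : b = 0
        · subst hb
          rw [if_pos rfl, h0, neg_zero]
          simp only [mul_zero, AddChar.map_zero_eq_one, Finset.sum_const, Finset.card_univ,
            Fintype.card_units, nsmul_eq_mul, mul_one]
          rw [Nat.cast_sub Fintype.card_pos]
          push_cast
          ring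
        · rw [if_neg hb, hρ b hb]
          ring
      rw [Finset.sum_congr rfl fun b _ => h1 b, Finset.sum_add_distrib, ← Finset.mul_sum, hP,
        Finset.sum_ite_eq' Finset.univ (0 : k), if_pos (Finset.mem_univ _)]
      ring
    rw [hsum]
    field_simp
  -- the other groups
  have hH : ∀ H : Subgroup G, ∃ n : ℕ, ∑ g, ρ.character g * conj (indFun H (fun _ => 1) g) =
      (Fintype.card G : ℂ) * n := by
    intro H
    obtain ⟨n, hn⟩ := sub_avg ρ H
    refine ⟨n, ?_⟩
    rw [hPFR G H ρ.character (fun _ => 1) hcl]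
    simp only [map_one, mul_one]
    have h0 : (Nat.card H : ℂ) ≠ 0 := by
      exact_mod_cast Nat.card_pos.ne'
    rw [hn]
    field_simp
  obtain ⟨n₁, hn₁⟩ := hH d.D₁
  obtain ⟨n₂, hn₂⟩ := hH d.D
  have hall : ∑ g, ρ.character g * conj (d.chi ψ g) =
      (e : ℂ) * (∑ g, ρ.character g * conj (indFun d.U (d.ext ψ) g) -
        ∑ g, ρ.character g * conj (indFun d.D₁ (fun _ => 1) g) +
        ∑ g, ρ.character g * conj (indFun d.D (fun _ => 1) g)) := by
    rw [← Finset.sum_sub_distrib, ← Finset.sum_add_distrib, Finset.mul_sum]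
    refine Finset.sum_congr rfl fun g _ => ?_
    unfold PD.chi
    rw [map_mul, map_add, map_sub, map_intCast]
    ring
  rw [hall, hU, hn₁, hn₂]
  rcases he with rfl | rfl
  · refine ⟨1 - n₁ + n₂, ?_⟩
    push_cast
    ring
  · refine ⟨n₁ - n₂, ?_⟩
    push_cast
    ring

end StarkC.ABS
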