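import Pool.Agent.ABS.StP

/-!
# ABS part P, module PM1 (helper34)
-/

set_option autoImplicit false

open scoped Classical MatrixGroups ComplexConjugate

namespace StarkC.ABS

namespace PM1x

variable {k : Type} [Field k]

theorem two_ne [Fintype k] (h : Odd (Fintype.card k)) : (2 : k) ≠ 0 := by
  refine Ring.two_ne_zero fun h2 => ?_
  have h3 := FiniteField.even_card_iff_char_two.1 h2
  rw [Nat.odd_iff] at h
  omega

theorem pi_eq {G : Type} [Group G] {π : SL(2, k) →* G} (hp : IsPi π) {X Y : SL(2, k)}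
    (h : π X = π Y) : (X : Matrix (Fin 2) (Fin 2) k) = Y ∨
      (X : Matrix (Fin 2) (Fin 2) k) = -(Y : Matrix (Fin 2) (Fin 2) k) := by
  have h1 : π (X * Y⁻¹) = 1 := by rw [map_mul, map_inv, h, mul_inv_cancel]
  have h2 : X = (X * Y⁻¹) * Y := by rw [inv_mul_cancel_right]
  have h3 : (X : Matrix (Fin 2) (Fin 2) k) = ((X * Y⁻¹ : SL(2, k)) : Matrix (Fin 2) (Fin 2) k) *
      (Y : Matrix (Fin 2) (Fin 2) k) := by
    rw [← Matrix.SpecialLinearGroup.coe_mul, ← h2]
  rcases (hp.2 _).1 h1 with h4 | h4
  · left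
    rw [h3, h4, one_mul]
  · right
    rw [h3, h4, neg_mul, one_mul]

theorem mU_add (a b : k) : mU (a + b) = mU a * mU b := by
  apply Subtype.ext
  rw [Matrix.SpecialLinearGroup.coe_mul]
  show !![1, a + b; 0, 1] = !![1, a; 0, 1] * !![1, b; 0, 1]
  rw [Matrix.mul_fin_two]
  ext i j
  fin_cases i <;> fin_cases j <;> simp [add_comm]

theorem mT_mul (a b : kˣ) : mT (a * b) = mT a * mT b := by
  apply Subtype.ext
  rw [Matrix.SpecialLinearGroup.coe_mul]
  show !![(((a * b)⁻¹ : kˣ) : k), 0; 0, ((a * b : kˣ) : k)] =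
    !![((a⁻¹ : kˣ) : k), 0; 0, (a : k)] * !![((b⁻¹ : kˣ) : k), 0; 0, (b : k)]
  rw [Matrix.mul_fin_two]
  ext i j
  fin_cases i <;> fin_cases j <;> simp [mul_comm]

theorem mU_mT (b : k) (a : kˣ) : mU b * mT a = mT a * mU ((a : k) ^ 2 * b) := by
  apply Subtype.ext
  rw [Matrix.SpecialLinearGroup.coe_mul, Matrix.SpecialLinearGroup.coe_mul]
  show !![1, b; 0, 1] * !![((a⁻¹ : kˣ) : k), 0; 0, (a : k)] =
    !![((a⁻¹ : kˣ) : k), 0; 0, (a : k)] * !![1, (a : k) ^ 2 * b; 0, 1]
  rw [Matrix.mul_fin_two, Matrix.mul_fin_two]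
  have h : b * (a : k) = ((a⁻¹ : kˣ) : k) * ((a : k) ^ 2 * b) := by
    rw [pow_two, ← mul_assoc, ← mul_assoc, Units.inv_mul, one_mul, mul_comm]
  ext i j
  fin_cases i <;> fin_cases j <;> simp [h]

end PM1x

open PM1x in
theorem PM1_thm : Stmt_PM1 := by
  intro k G _ _ _ _ π hp hodd
  have h2 := two_ne hodd
  refine ⟨fun a b => by rw [mU_add, map_mul], ?_, fun a b => by rw [mT_mul, map_mul], ?_, ?_, ?_⟩
  · intro a b hab
    rcases pi_eq hp hab with h | h
    · have := congrFun (congrFun h 0) 1
      simpa [mU] using this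
    · have := congrFun (congrFun h 0) 0
      have h3 : (1 : k) = -1 := by simpa [mU] using this
      exact absurd (by linear_combination h3) h2
  · intro a
    rw [hp.2]
    constructor
    · rintro (h | h)
      · have := congrFun (congrFun h 1) 1
        have h3 : (a : k) = 1 := by simpa [mT] using this
        apply Units.ext
        rw [Units.val_pow_eq_pow_val, h3]
        simp
      · have := congrFun (congrFun h 1) 1
        have h3 : (a : k) = -1 := by simpa [mT] using this
        apply Units.ext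
        rw [Units.val_pow_eq_pow_val, h3]
        simp
    · intro h
      have h3 : ((a : k)) ^ 2 = 1 := by
        have := congrArg Units.val h
        simpa using this
      have h4 : ((a : k) - 1) * ((a : k) + 1) = 0 := by linear_combination h3
      rcases mul_eq_zero.1 h4 with h5 | h5
      · left
        have h6 : a = 1 := Units.ext (by rw [Units.val_one]; linear_combination h5)
        rw [h6]
        ext i j
        fin_cases i <;> fin_cases j <;> simp [mT]
      · right
        have h6 : a = -1 := Units.ext (by rw [Units.val_neg, Units.val_one]; linear_combination h5)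
        rw [h6]
        ext i j
        fin_cases i <;> fin_cases j <;> simp [mT]
  · intro a b
    rw [mul_assoc, ← map_mul, mU_mT, map_mul, inv_mul_cancel_left]
  · intro x b c hb hx
    obtain ⟨X, rfl⟩ := hp.1 x
    have h3 : π (mU b * X) = π (X * mU c) := by
      rw [map_mul, map_mul, ← hx]
      group
    have hdet : X.1 0 0 * X.1 1 1 - X.1 0 1 * X.1 1 0 = 1 := by
      have := X.2
      rwa [Matrix.det_fin_two] at this
    have e00 : ((mU b * X : SL(2, k)) : Matrix (Fin 2) (Fin 2) k) 0 0 = X.1 0 0 + b * X.1 1 0 := by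
      rw [Matrix.SpecialLinearGroup.coe_mul, Matrix.mul_apply, Fin.sum_univ_two]
      simp [mU]
    have e10 : ((mU b * X : SL(2, k)) : Matrix (Fin 2) (Fin 2) k) 1 0 = X.1 1 0 := by
      rw [Matrix.SpecialLinearGroup.coe_mul, Matrix.mul_apply, Fin.sum_univ_two]
      simp [mU]
    have f00 : ((X * mU c : SL(2, k)) : Matrix (Fin 2) (Fin 2) k) 0 0 = X.1 0 0 := by
      rw [Matrix.SpecialLinearGroup.coe_mul, Matrix.mul_apply, Fin.sum_univ_two]
      simp [mU]
    have f10 : ((X * mU c : SL(2, k)) : Matrix (Fin 2) (Fin 2) k) 1 0 = X.1 1 0 := by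
      rw [Matrix.SpecialLinearGroup.coe_mul, Matrix.mul_apply, Fin.sum_univ_two]
      simp [mU]
    rcases pi_eq hp h3 with h | h
    · have h00 := congrFun (congrFun h 0) 0
      rw [e00, f00] at h00
      have h5 : b * X.1 1 0 = 0 := by linear_combination h00
      have hγ : X.1 1 0 = 0 := (mul_eq_zero.1 h5).resolve_left hb
      rw [hγ, mul_zero, sub_zero] at hdet
      have hδ : X.1 1 1 ≠ 0 := by
        intro h6
        rw [h6, mul_zero] at hdet
        exact zero_ne_one hdet
      let a : kˣ := Units.mk0 (X.1 1 1) hδ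
      refine ⟨X.1 0 1 / X.1 1 1, a, ?_⟩
      rw [← map_mul]
      congr 1
      apply Subtype.ext
      rw [Matrix.SpecialLinearGroup.coe_mul]
      show X.1 = !![1, X.1 0 1 / X.1 1 1; 0, 1] * !![((a⁻¹ : kˣ) : k), 0; 0, (a : k)]
      have ha : ((a⁻¹ : kˣ) : k) = X.1 0 0 := by
        rw [Units.val_inv_eq_inv_val]
        show (X.1 1 1)⁻¹ = X.1 0 0
        rw [eq_comm]
        exact eq_inv_of_mul_eq_one_left hdet
      have ha2 : (a : k) = X.1 1 1 := rfl
      rw [ha, ha2, Matrix.mul_fin_two]
      ext i j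
      fin_cases i <;> fin_cases j
      · simp
      · simp [div_mul_cancel₀ _ hδ]
      · simp [hγ]
      · simp
    · exfalso
      have h00 := congrFun (congrFun h 0) 0
      have h10 := congrFun (congrFun h 1) 0
      rw [Matrix.neg_apply, e00, f00] at h00
      rw [Matrix.neg_apply, e10, f10] at h10
      have hγ : X.1 1 0 = 0 := by
        have : 2 * X.1 1 0 = 0 := by linear_combination h10
        exact (mul_eq_zero.1 this).resolve_left h2
      rw [hγ] at h00 hdet
      have hα : X.1 0 0 = 0 := by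
        have : 2 * X.1 0 0 = 0 := by linear_combination h00
        exact (mul_eq_zero.1 this).resolve_left h2
      rw [hα] at hdet
      simp at hdet

end StarkC.ABS
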