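import Pool.Agent.ABS.StP

/-!
# Project ABS (MP_46b841_nt), part P, module PM2: involutions of `PSL_2(k)`
-/

set_option autoImplicit false

open scoped Classical MatrixGroups ComplexConjugate

namespace StarkC.ABS

namespace PM2x

theorem ext2 {k : Type} {A B : Matrix (Fin 2) (Fin 2) k} (h00 : A 0 0 = B 0 0) (h01 : A 0 1 = B 0 1)
    (h10 : A 1 0 = B 1 0) (h11 : A 1 1 = B 1 1) : A = B := by
  ext i j
  fin_cases i <;> fin_cases j <;> assumption

variable {k : Type} [Field k]

theorem det2 (X : SL(2, k)) : X.1 0 0 * X.1 1 1 - X.1 0 1 * X.1 1 0 = 1 := by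
  have h := X.2
  rwa [Matrix.det_fin_two] at h

theorem mul00 (X Y : SL(2, k)) : (X * Y).1 0 0 = X.1 0 0 * Y.1 0 0 + X.1 0 1 * Y.1 1 0 := by
  show (X.1 * Y.1) 0 0 = _
  rw [Matrix.mul_apply, Fin.sum_univ_two]

theorem mul01 (X Y : SL(2, k)) : (X * Y).1 0 1 = X.1 0 0 * Y.1 0 1 + X.1 0 1 * Y.1 1 1 := by
  show (X.1 * Y.1) 0 1 = _
  rw [Matrix.mul_apply, Fin.sum_univ_two]

theorem mul10 (X Y : SL(2, k)) : (X * Y).1 1 0 = X.1 1 0 * Y.1 0 0 + X.1 1 1 * Y.1 1 0 := by
  show (X.1 * Y.1) 1 0 = _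
  rw [Matrix.mul_apply, Fin.sum_univ_two]

theorem mul11 (X Y : SL(2, k)) : (X * Y).1 1 1 = X.1 1 0 * Y.1 0 1 + X.1 1 1 * Y.1 1 1 := by
  show (X.1 * Y.1) 1 1 = _
  rw [Matrix.mul_apply, Fin.sum_univ_two]

theorem J00 : (mJ k).1 0 0 = 0 := rfl
theorem J01 : (mJ k).1 0 1 = -1 := rfl
theorem J10 : (mJ k).1 1 0 = 1 := rfl
theorem J11 : (mJ k).1 1 1 = 0 := rfl

theorem one_entries : (1 : Matrix (Fin 2) (Fin 2) k) 0 0 = 1 ∧
    (1 : Matrix (Fin 2) (Fin 2) k) 0 1 = 0 ∧ (1 : Matrix (Fin 2) (Fin 2) k) 1 0 = 0 ∧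
    (1 : Matrix (Fin 2) (Fin 2) k) 1 1 = 1 := by
  refine ⟨?_, ?_, ?_, ?_⟩ <;> simp

variable {G : Type} [Group G] {π : SL(2, k) →* G}

/-- equality of images -/
theorem pi_eq_iff (hπ : IsPi π) (X Y : SL(2, k)) :
    π X = π Y ↔ (Y : Matrix (Fin 2) (Fin 2) k) = X ∨ (Y : Matrix (Fin 2) (Fin 2) k) = -X := by
  have h1 : π X = π Y ↔ π (X⁻¹ * Y) = 1 := by
    rw [map_mul, map_inv, inv_mul_eq_one]
  have hX : (X : Matrix (Fin 2) (Fin 2) k) * ((X⁻¹ * Y : SL(2, k)) : Matrix (Fin 2) (Fin 2) k)
      = Y := by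
    have : X * (X⁻¹ * Y) = Y := by group
    exact congrArg Subtype.val this
  have hX' : ((X⁻¹ : SL(2, k)) : Matrix (Fin 2) (Fin 2) k) * X = 1 := by
    have : X⁻¹ * X = 1 := by group
    exact congrArg Subtype.val this
  have hXY : ((X⁻¹ * Y : SL(2, k)) : Matrix (Fin 2) (Fin 2) k) =
    ((X⁻¹ : SL(2, k)) : Matrix (Fin 2) (Fin 2) k) * Y := rfl
  rw [h1, hπ.2]
  constructor
  · rintro (h | h)
    · left
      rw [← hX, h, mul_one]
    · right
      rw [← hX, h, mul_neg, mul_one]
  · rintro (h | h)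
    · left
      rw [hXY, h, hX']
    · right
      rw [hXY, h, mul_neg, hX']

theorem pi_eq_of (hπ : IsPi π) (X Y : SL(2, k)) (ε : k) (hε : ε = 1 ∨ ε = -1)
    (h00 : Y.1 0 0 = ε * X.1 0 0) (h01 : Y.1 0 1 = ε * X.1 0 1) (h10 : Y.1 1 0 = ε * X.1 1 0)
    (h11 : Y.1 1 1 = ε * X.1 1 1) : π X = π Y := by
  rw [pi_eq_iff hπ]
  rcases hε with rfl | rfl
  · left
    refine ext2 ?_ ?_ ?_ ?_
    · rw [h00, one_mul]
    · rw [h01, one_mul]
    · rw [h10, one_mul]
    · rw [h11, one_mul]
  · right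
    refine ext2 ?_ ?_ ?_ ?_
    · rw [h00, Matrix.neg_apply]; ring
    · rw [h01, Matrix.neg_apply]; ring
    · rw [h10, Matrix.neg_apply]; ring
    · rw [h11, Matrix.neg_apply]; ring

/-- the kernel -/
theorem pi_one (hπ : IsPi π) (X : SL(2, k)) (h : π X = 1) : X.1 0 1 = 0 ∧ X.1 1 0 = 0 ∧
    ((X.1 0 0 = 1 ∧ X.1 1 1 = 1) ∨ (X.1 0 0 = -1 ∧ X.1 1 1 = -1)) := by
  obtain ⟨e0, e1, e2, e3⟩ := one_entries (k := k)
  rcases (hπ.2 X).1 h with h | h
  · rw [h]
    exact ⟨e1, e2, Or.inl ⟨e0, e3⟩⟩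
  · rw [h]
    refine ⟨?_, ?_, Or.inr ⟨?_, ?_⟩⟩
    · rw [Matrix.neg_apply, e1, neg_zero]
    · rw [Matrix.neg_apply, e2, neg_zero]
    · rw [Matrix.neg_apply, e0]
    · rw [Matrix.neg_apply, e3]

theorem pi_one_of (hπ : IsPi π) (X : SL(2, k)) (ε : k) (hε : ε = 1 ∨ ε = -1)
    (h00 : X.1 0 0 = ε) (h01 : X.1 0 1 = 0) (h10 : X.1 1 0 = 0) (h11 : X.1 1 1 = ε) :
    π X = 1 := by
  obtain ⟨e0, e1, e2, e3⟩ := one_entries (k := k)
  rw [hπ.2]
  rcases hε with rfl | rfl
  · left
    exact ext2 (h00.trans e0.symm) (h01.trans e1.symm) (h10.trans e2.symm) (h11.trans e3.symm)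
  · right
    refine ext2 ?_ ?_ ?_ ?_
    · rw [h00, Matrix.neg_apply, e0]
    · rw [h01, Matrix.neg_apply, e1, neg_zero]
    · rw [h10, Matrix.neg_apply, e2, neg_zero]
    · rw [h11, Matrix.neg_apply, e3]

/-- the elements whose images commute with the image of `mJ` -/
theorem comm (hπ : IsPi π) (X : SL(2, k)) (h : π X * π (mJ k) = π (mJ k) * π X) :
    (X.1 0 0 = X.1 1 1 ∧ X.1 0 1 = -X.1 1 0) ∨ (X.1 0 0 = -X.1 1 1 ∧ X.1 0 1 = X.1 1 0) := by
  rw [← map_mul, ← map_mul, pi_eq_iff hπ] at h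
  rcases h with h | h
  · left
    have h0 := congrFun (congrFun h 0) 0
    have h1 := congrFun (congrFun h 1) 0
    have h0' : (mJ k * X).1 0 0 = (X * mJ k).1 0 0 := h0
    have h1' : (mJ k * X).1 1 0 = (X * mJ k).1 1 0 := h1
    rw [mul00, mul00, J00, J01, J10] at h0'
    rw [mul10, mul10, J00, J10, J11] at h1'
    constructor
    · linear_combination h1'
    · linear_combination -h0'
  · right
    have h0 := congrFun (congrFun h 0) 0
    have h1 := congrFun (congrFun h 1) 0
    have h0' : (mJ k * X).1 0 0 = -(X * mJ k).1 0 0 := h0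
    have h1' : (mJ k * X).1 1 0 = -(X * mJ k).1 1 0 := h1
    rw [mul00, mul00, J00, J01, J10] at h0'
    rw [mul10, mul10, J00, J10, J11] at h1'
    constructor
    · linear_combination h1'
    · linear_combination h0'

theorem comm_of (hπ : IsPi π) (X : SL(2, k))
    (h : (X.1 0 0 = X.1 1 1 ∧ X.1 0 1 = -X.1 1 0) ∨ (X.1 0 0 = -X.1 1 1 ∧ X.1 0 1 = X.1 1 0)) :
    π X * π (mJ k) = π (mJ k) * π X := by
  rw [← map_mul, ← map_mul]
  rcases h with ⟨h0, h1⟩ | ⟨h0, h1⟩
  · refine pi_eq_of hπ _ _ 1 (Or.inl rfl) ?_ ?_ ?_ ?_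
    · rw [mul00, mul00, J00, J01, J10]; linear_combination -h1
    · rw [mul01, mul01, J00, J01, J11]; linear_combination h0
    · rw [mul10, mul10, J00, J10, J11]; linear_combination h0
    · rw [mul11, mul11, J01, J10, J11]; linear_combination h1
  · refine pi_eq_of hπ _ _ (-1) (Or.inr rfl) ?_ ?_ ?_ ?_
    · rw [mul00, mul00, J00, J01, J10]; linear_combination h1
    · rw [mul01, mul01, J00, J01, J11]; linear_combination -h0
    · rw [mul10, mul10, J00, J10, J11]; linear_combination h0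
    · rw [mul11, mul11, J01, J10, J11]; linear_combination h1

theorem mem_C (X : SL(2, k)) :
    X ∈ Subgroup.centralizer {mJ k} ↔ X.1 0 0 = X.1 1 1 ∧ X.1 0 1 = -X.1 1 0 := by
  rw [Subgroup.mem_centralizer_singleton_iff]
  constructor
  · intro h
    have h0' : (mJ k * X).1 0 0 = (X * mJ k).1 0 0 := by rw [h]
    have h1' : (mJ k * X).1 1 0 = (X * mJ k).1 1 0 := by rw [h]
    rw [mul00, mul00, J00, J01, J10] at h0'
    rw [mul10, mul10, J00, J10, J11] at h1'
    constructor
    · linear_combination h1'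
    · linear_combination -h0'
  · rintro ⟨h0, h1⟩
    apply Subtype.ext
    refine ext2 ?_ ?_ ?_ ?_
    · rw [mul00, mul00, J00, J01, J10]; linear_combination h1
    · rw [mul01, mul01, J00, J01, J11]; linear_combination -h0
    · rw [mul10, mul10, J00, J10, J11]; linear_combination -h0
    · rw [mul11, mul11, J01, J10, J11]; linear_combination -h1

/-- sums of two squares -/
theorem sum_sq [Fintype k] (hq : Odd (Fintype.card k)) (c : k) : ∃ a b : k, a ^ 2 + b ^ 2 = c := by
  obtain ⟨a, b, h⟩ := FiniteField.exists_root_sum_quadratic (R := k)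
    (f := (Polynomial.X ^ 2 : Polynomial k)) (g := (Polynomial.X ^ 2 - Polynomial.C c))
    (Polynomial.degree_X_pow 2) (Polynomial.degree_X_pow_sub_C (by norm_num) c)
    (Nat.odd_iff.1 hq)
  refine ⟨a, b, ?_⟩
  simp only [Polynomial.eval_pow, Polynomial.eval_X, Polynomial.eval_sub, Polynomial.eval_C] at h
  linear_combination h

theorem two_ne [Fintype k] (hq : Odd (Fintype.card k)) : (2 : k) ≠ 0 := by
  refine Ring.two_ne_zero fun h => ?_
  have h1 := FiniteField.even_card_iff_char_two.1 h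
  rw [Nat.odd_iff] at hq
  omega

end PM2x

open PM2x

theorem PM2_thm : Stmt_PM2 := by
  intro k G _ _ _ _ π hπ hq
  have h2 : (2 : k) ≠ 0 := two_ne hq
  have sq_pm : ∀ a : k, a ^ 2 = 1 → a = 1 ∨ a = -1 := by
    intro a h
    have h' : (a - 1) * (a + 1) = 0 := by linear_combination h
    rcases mul_eq_zero.1 h' with h' | h'
    · left; linear_combination h'
    · right; linear_combination h'
  refine ⟨?_, ?_, ?_, ?_, ?_, ?_⟩
  · rw [← map_mul]
    refine pi_one_of hπ _ (-1) (Or.inr rfl) ?_ ?_ ?_ ?_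
    · rw [mul00, J00, J01, J10]; ring
    · rw [mul01, J00, J01, J11]; ring
    · rw [mul10, J10, J00, J11]; ring
    · rw [mul11, J01, J10, J11]; ring
  · intro h
    obtain ⟨h, -⟩ := pi_one hπ _ h
    rw [J01] at h
    exact one_ne_zero (neg_eq_zero.1 h)
  · intro g hg hgg
    obtain ⟨M, rfl⟩ := hπ.1 g
    have hd := det2 M
    rw [← map_mul] at hgg
    obtain ⟨k1, k2, k3⟩ := pi_one hπ _ hgg
    rw [mul01] at k1
    rw [mul10] at k2
    rw [mul00, mul11] at k3
    obtain ⟨a, ha⟩ : ∃ a, a = M.1 0 0 := ⟨_, rfl⟩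
    obtain ⟨b, hb⟩ : ∃ b, b = M.1 0 1 := ⟨_, rfl⟩
    obtain ⟨c, hc⟩ : ∃ c, c = M.1 1 0 := ⟨_, rfl⟩
    obtain ⟨d, hdd⟩ : ∃ d, d = M.1 1 1 := ⟨_, rfl⟩
    rw [← ha, ← hb, ← hc, ← hdd] at hd k3
    rw [← ha, ← hb, ← hdd] at k1
    rw [← ha, ← hc, ← hdd] at k2
    rcases k3 with ⟨k3, k4⟩ | ⟨k3, k4⟩
    · exfalso
      have hs : a + d ≠ 0 := by
        intro hs
        apply h2
        linear_combination a * hs - k3 - hd
      have hb0 : b = 0 := by
        have : b * (a + d) = 0 := by linear_combination k1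
        exact (mul_eq_zero.1 this).resolve_right hs
      have hc0 : c = 0 := by
        have : c * (a + d) = 0 := by linear_combination k2
        exact (mul_eq_zero.1 this).resolve_right hs
      have ha2 : a ^ 2 = 1 := by
        rw [hb0] at k3
        linear_combination k3
      have had : d = a := by
        have h1 : a * d = 1 := by
          rw [hb0] at hd
          linear_combination hd
        have h3 : a * (d - a) = 0 := by linear_combination h1 - ha2
        have ha0 : a ≠ 0 := by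
          rintro h0
          rw [h0] at ha2
          exact zero_ne_one (by linear_combination ha2)
        have := (mul_eq_zero.1 h3).resolve_left ha0
        linear_combination this
      exact hg (pi_one_of hπ M a (sq_pm a ha2) ha.symm (hb.symm.trans hb0) (hc.symm.trans hc0)
        (hdd.symm.trans had))
    · have hda : d = -a := by
        by_contra hne
        have hs : a + d ≠ 0 := fun h => hne (by linear_combination h)
        have ha0 : a = 0 := by
          have : a * (a + d) = 0 := by linear_combination k3 + hd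
          exact (mul_eq_zero.1 this).resolve_right hs
        have hb0 : b = 0 := by
          have : b * (a + d) = 0 := by linear_combination k1
          exact (mul_eq_zero.1 this).resolve_right hs
        rw [ha0, hb0] at hd
        exact zero_ne_one (by linear_combination hd)
      have hdet : -a ^ 2 - b * c = 1 := by
        rw [hda] at hd
        linear_combination hd
      obtain ⟨p, r, hpr⟩ : ∃ p r : k, c * p ^ 2 - 2 * a * p * r - b * r ^ 2 = 1 := by
        by_cases hc0 : c = 0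
        · have ha0 : a ≠ 0 := by
            intro h0
            rw [h0, hc0] at hdet
            exact zero_ne_one (by linear_combination hdet)
          refine ⟨(-1 - b) / (2 * a), 1, ?_⟩
          rw [hc0]
          field_simp
          ring
        · obtain ⟨s, r, hsr⟩ := sum_sq hq c
          refine ⟨(s + a * r) / c, r, ?_⟩
          have hkey : c * (c * ((s + a * r) / c) ^ 2 - 2 * a * ((s + a * r) / c) * r - b * r ^ 2 - 1)
              = 0 := by
            have e1 : c * ((s + a * r) / c) = s + a * r := by field_simp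
            have e2 : c * (c * ((s + a * r) / c) ^ 2 - 2 * a * ((s + a * r) / c) * r - b * r ^ 2 - 1)
                = (c * ((s + a * r) / c)) ^ 2 - 2 * a * (c * ((s + a * r) / c)) * r
                  - b * c * r ^ 2 - c := by ring
            rw [e2, e1]
            linear_combination hsr + r ^ 2 * hdet
          have := (mul_eq_zero.1 hkey).resolve_left hc0
          linear_combination this
      let X : SL(2, k) := ⟨!![p, a * p + b * r; r, c * p - a * r], by
        rw [Matrix.det_fin_two_of]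
        linear_combination hpr⟩
      have X00 : X.1 0 0 = p := rfl
      have X01 : X.1 0 1 = a * p + b * r := rfl
      have X10 : X.1 1 0 = r := rfl
      have X11 : X.1 1 1 = c * p - a * r := rfl
      have hMX : M * X = X * mJ k := by
        apply Subtype.ext
        refine ext2 ?_ ?_ ?_ ?_
        · rw [mul00, mul00, J00, J10, X00, X01, X10, ← ha, ← hb]; ring
        · rw [mul01, mul01, J01, J11, X00, X01, X11, ← ha, ← hb]
          linear_combination -p * hdet
        · rw [mul10, mul10, J00, J10, X00, X10, X11, ← hc, ← hdd, hda]; ring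
        · rw [mul11, mul11, J01, J11, X10, X01, X11, ← hc, ← hdd, hda]
          linear_combination -r * hdet
      refine ⟨π X, ?_⟩
      rw [mul_assoc, ← map_mul, hMX, map_mul, inv_mul_cancel_left]
  · rintro g ⟨X, hX, rfl⟩ hgg
    rw [SetLike.mem_coe, mem_C] at hX
    obtain ⟨hX1, hX2⟩ := hX
    have hd := det2 X
    rw [← map_mul] at hgg
    obtain ⟨k1, -, -⟩ := pi_one hπ _ hgg
    rw [mul01, hX1, hX2] at k1
    rw [hX1, hX2] at hd
    have k2 : X.1 1 1 * X.1 1 0 = 0 := by
      have : 2 * (X.1 1 1 * X.1 1 0) = 0 := by linear_combination -k1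
      exact (mul_eq_zero.1 this).resolve_left h2
    rcases mul_eq_zero.1 k2 with h0 | h0
    · right
      rw [h0] at hd hX1
      have hs : X.1 1 0 ^ 2 = 1 := by linear_combination hd
      symm
      refine pi_eq_of hπ _ _ (X.1 1 0) (sq_pm _ hs) ?_ ?_ ?_ ?_
      · rw [J00, hX1]; ring
      · rw [J01, hX2]; ring
      · rw [J10]; ring
      · rw [J11, h0]; ring
    · left
      rw [h0] at hd hX2
      have hs : X.1 1 1 ^ 2 = 1 := by linear_combination hd
      exact pi_one_of hπ _ (X.1 1 1) (sq_pm _ hs) hX1 (by rw [hX2, neg_zero]) h0 rfl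
  · intro g hg hgn
    obtain ⟨X, rfl⟩ := hπ.1 g
    have hd := det2 X
    rcases comm hπ X hg with h | ⟨h0, h1⟩
    · exact absurd ⟨X, (mem_C X).2 h, rfl⟩ hgn
    · rw [← map_mul]
      rw [h0, h1] at hd
      refine pi_one_of hπ _ (-1) (Or.inr rfl) ?_ ?_ ?_ ?_
      · rw [mul00, h0, h1]; linear_combination -hd
      · rw [mul01, h0, h1]; ring
      · rw [mul10, h0]; ring
      · rw [mul11, h1]; linear_combination -hd
  · rintro g ⟨X, hX, rfl⟩ hgg x hx
    rw [SetLike.mem_coe, mem_C] at hX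
    obtain ⟨hX1, hX2⟩ := hX
    obtain ⟨Y, rfl⟩ := hπ.1 x
    have hd := det2 X
    rw [hX1, hX2] at hd
    have hdY := det2 Y
    obtain ⟨Z, hZ⟩ : ∃ Z : SL(2, k), Z = Y⁻¹ * X * Y := ⟨_, rfl⟩
    have hYZ : X * Y = Y * Z := by rw [hZ]; group
    have hdZ := det2 Z
    have hxZ : π Z * π (mJ k) = π (mJ k) * π Z := by
      rw [hZ, map_mul, map_mul, map_inv]
      exact hx
    have ha0 : X.1 1 1 ≠ 0 := by
      intro h0
      apply hgg
      rw [← map_mul]
      rw [h0] at hd hX1
      refine pi_one_of hπ _ (-1) (Or.inr rfl) ?_ ?_ ?_ ?_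
      · rw [mul00, hX1, hX2]; linear_combination -hd
      · rw [mul01, hX1, h0]; ring
      · rw [mul10, hX1, h0]; ring
      · rw [mul11, hX2, h0]; linear_combination -hd
    have hb0 : X.1 1 0 ≠ 0 := by
      intro h0
      apply hgg
      rw [← map_mul]
      rw [h0] at hd hX2
      refine pi_one_of hπ _ 1 (Or.inl rfl) ?_ ?_ ?_ ?_
      · rw [mul00, hX1, hX2]; linear_combination hd
      · rw [mul01, hX2]; ring
      · rw [mul10, h0]; ring
      · rw [mul11, hX2, h0]; linear_combination hd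
    have e00 : (X * Y).1 0 0 = (Y * Z).1 0 0 := by rw [hYZ]
    have e01 : (X * Y).1 0 1 = (Y * Z).1 0 1 := by rw [hYZ]
    have e10 : (X * Y).1 1 0 = (Y * Z).1 1 0 := by rw [hYZ]
    have e11 : (X * Y).1 1 1 = (Y * Z).1 1 1 := by rw [hYZ]
    rw [mul00, mul00] at e00
    rw [mul01, mul01] at e01
    rw [mul10, mul10] at e10
    rw [mul11, mul11] at e11
    rw [hX1, hX2] at e00 e01
    -- the trace
    have htr : Z.1 0 0 + Z.1 1 1 = 2 * X.1 1 1 := by
      linear_combination (2 * X.1 1 1 - Z.1 0 0 - Z.1 1 1) * hdY - Y.1 1 1 * e00 + Y.1 0 1 * e10 +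
        Y.1 1 0 * e01 - Y.1 0 0 * e11
    rcases comm hπ Z hxZ with ⟨hz1, hz2⟩ | ⟨hz1, -⟩
    · have hz : Z.1 1 1 = X.1 1 1 := by
        have : 2 * (Z.1 1 1 - X.1 1 1) = 0 := by
          rw [hz1] at htr
          linear_combination htr
        have := (mul_eq_zero.1 this).resolve_left h2
        linear_combination this
      rw [hz1, hz2, hz] at hdZ
      rw [hz1, hz] at e00 e10
      rw [hz2, hz] at e01 e11
      have hzz : (Z.1 1 0 - X.1 1 0) * (Z.1 1 0 + X.1 1 0) = 0 := by
        linear_combination hdZ - hd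
      apply comm_of hπ
      rcases mul_eq_zero.1 hzz with h | h
      · have hz3 : Z.1 1 0 = X.1 1 0 := by linear_combination h
        rw [hz3] at e00 e01 e10 e11
        left
        constructor
        · refine mul_left_cancel₀ hb0 ?_
          linear_combination e10
        · refine mul_left_cancel₀ hb0 ?_
          linear_combination -e00
      · have hz3 : Z.1 1 0 = -X.1 1 0 := by linear_combination h
        rw [hz3] at e00 e01 e10 e11
        right
        constructor
        · refine mul_left_cancel₀ hb0 ?_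
          linear_combination e10
        · refine mul_left_cancel₀ hb0 ?_
          linear_combination e00
    · exfalso
      apply ha0
      have : 2 * X.1 1 1 = 0 := by
        rw [hz1] at htr
        linear_combination -htr
      exact (mul_eq_zero.1 this).resolve_left h2

end StarkC.ABS
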