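import Pool.Agent.ABS.StP

/-!
# Project ABS, part P, module PM3: the order of `PSL_2(k)` (helper37)
-/

set_option autoImplicit false

open scoped Classical MatrixGroups

namespace StarkC.ABS

namespace PM3x

variable {k : Type} [Field k] [Fintype k]

/-- `(u 0; 0 1)` -/
noncomputable def D (u : kˣ) : GL (Fin 2) k :=
  Matrix.GeneralLinearGroup.mkOfDetNeZero !![(u : k), 0; 0, 1] (by simp [Matrix.det_fin_two])

theorem det_D (u : kˣ) : Matrix.det ((D u : GL (Fin 2) k) : Matrix (Fin 2) (Fin 2) k) = u := by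
  show Matrix.det !![(u : k), 0; 0, 1] = u
  simp [Matrix.det_fin_two]

/-- the product decomposition -/
noncomputable def f (p : SL(2, k) × kˣ) : GL (Fin 2) k :=
  Matrix.SpecialLinearGroup.toGL p.1 * D p.2

theorem det_f (p : SL(2, k) × kˣ) :
    Matrix.det ((f p : GL (Fin 2) k) : Matrix (Fin 2) (Fin 2) k) = p.2 := by
  unfold f
  rw [Units.val_mul, Matrix.det_mul, det_D]
  show Matrix.det (p.1 : Matrix (Fin 2) (Fin 2) k) * (p.2 : k) = p.2
  rw [Matrix.SpecialLinearGroup.det_coe, one_mul]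

theorem f_bij : Function.Bijective (f (k := k)) := by
  constructor
  · rintro ⟨X, u⟩ ⟨Y, v⟩ h
    have h1 : u = v := by
      have h2 := det_f (X, u)
      rw [h, det_f] at h2
      exact Units.ext h2.symm
    subst h1
    have h3 : Matrix.SpecialLinearGroup.toGL X = Matrix.SpecialLinearGroup.toGL Y :=
      mul_right_cancel h
    rw [Matrix.SpecialLinearGroup.toGL_injective h3]
  · intro g
    have hd : Matrix.det (g : Matrix (Fin 2) (Fin 2) k) ≠ 0 := g.det_ne_zero
    have h1 : Matrix.det ((g * (D (Units.mk0 _ hd))⁻¹ : GL (Fin 2) k) :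
        Matrix (Fin 2) (Fin 2) k) = 1 := by
      have h2 := congrArg (fun x : GL (Fin 2) k => Matrix.det (x : Matrix (Fin 2) (Fin 2) k))
        (inv_mul_cancel_right g (D (Units.mk0 _ hd)))
      simp only [Units.val_mul, Matrix.det_mul] at h2
      rw [det_D, Units.val_mk0] at h2
      rw [Units.val_mul, Matrix.det_mul]
      exact mul_right_cancel₀ hd (by rw [h2, one_mul])
    refine ⟨(⟨_, h1⟩, Units.mk0 _ hd), ?_⟩
    unfold f
    have h3 : Matrix.SpecialLinearGroup.toGL (⟨_, h1⟩ : SL(2, k)) =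
        g * (D (Units.mk0 _ hd))⁻¹ := Units.ext rfl
    rw [h3, inv_mul_cancel_right]

theorem card_SL : (Nat.card SL(2, k) : ℤ) =
    (Fintype.card k : ℤ) * ((Fintype.card k : ℤ) ^ 2 - 1) := by
  have h1 : Nat.card (SL(2, k) × kˣ) = Nat.card (GL (Fin 2) k) := Nat.card_congr
    (Equiv.ofBijective f f_bij)
  rw [Nat.card_prod, Matrix.card_GL_field, Nat.card_units, Nat.card_eq_fintype_card (α := k)] at h1
  have hq : 1 < Fintype.card k := Fintype.one_lt_card
  obtain ⟨r, hr⟩ : ∃ r, Fintype.card k = r + 2 := ⟨Fintype.card k - 2, by omega⟩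
  have h2 : ∏ i : Fin 2, (Fintype.card k ^ 2 - Fintype.card k ^ (i : ℕ)) =
      (Fintype.card k ^ 2 - 1) * (Fintype.card k ^ 2 - Fintype.card k) := by
    rw [Fin.prod_univ_two]
    simp
  rw [h2] at h1
  have h3 : 1 ≤ Fintype.card k ^ 2 := Nat.one_le_pow _ _ (by omega)
  have h4 : Fintype.card k ≤ Fintype.card k ^ 2 := Nat.le_self_pow (by norm_num) _
  have h5 : (Nat.card SL(2, k) : ℤ) * ((Fintype.card k : ℤ) - 1) =
      ((Fintype.card k : ℤ) ^ 2 - 1) * ((Fintype.card k : ℤ) ^ 2 - Fintype.card k) := by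
    have h6 := congrArg (fun x : ℕ => (x : ℤ)) h1
    simp only [Nat.cast_mul] at h6
    rw [Nat.cast_sub (by omega : 1 ≤ Fintype.card k), Nat.cast_sub h3, Nat.cast_sub h4] at h6
    push_cast at h6
    exact h6
  have h7 : ((Fintype.card k : ℤ) - 1) ≠ 0 := by
    rw [hr]
    push_cast
    omega
  have h8 : (Nat.card SL(2, k) : ℤ) * ((Fintype.card k : ℤ) - 1) =
      (Fintype.card k : ℤ) * ((Fintype.card k : ℤ) ^ 2 - 1) * ((Fintype.card k : ℤ) - 1) := by
    rw [h5]
    ring
  exact mul_right_cancel₀ h7 h8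

/-- `-1` -/
def neg1 : SL(2, k) := ⟨-1, by simp [Matrix.det_fin_two]⟩

theorem two_ne (h : Odd (Fintype.card k)) : (2 : k) ≠ 0 := by
  intro h2
  have h3 : ringChar k = 2 := CharP.ringChar_of_prime_eq_zero Nat.prime_two (by exact_mod_cast h2)
  have h4 := FiniteField.even_card_of_char_two h3
  have h5 := Nat.odd_iff.1 h
  omega

theorem neg1_ne (h : Odd (Fintype.card k)) : (neg1 : SL(2, k)) ≠ 1 := by
  intro h1
  have h2 := congrArg (fun x : SL(2, k) => (x : Matrix (Fin 2) (Fin 2) k) 0 0) h1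
  have h3 : (-1 : k) = 1 := by
    simpa [neg1] using h2
  apply two_ne h
  have h4 : (2 : k) = 1 - (-1) := by ring
  rw [h4, h3, sub_self]

end PM3x

open PM3x in
theorem PM3_thm : Stmt_PM3 := by
  intro k G _ _ _ _ π hπ hodd
  obtain ⟨hsurj, hker⟩ := hπ
  have h1 : Nat.card SL(2, k) = Nat.card (SL(2, k) ⧸ π.ker) * Nat.card π.ker :=
    Subgroup.card_eq_card_quotient_mul_card_subgroup π.ker
  have h2 : Nat.card (SL(2, k) ⧸ π.ker) = Fintype.card G := by
    rw [Nat.card_congr (QuotientGroup.quotientKerEquivOfSurjective π hsurj).toEquiv,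
      Nat.card_eq_fintype_card]
  have h3 : (π.ker : Set SL(2, k)) = {1, neg1} := by
    ext x
    rw [SetLike.mem_coe, MonoidHom.mem_ker, hker, Set.mem_insert_iff, Set.mem_singleton_iff]
    constructor
    · rintro (h | h)
      · exact Or.inl (Subtype.ext h)
      · exact Or.inr (Subtype.ext h)
    · rintro (h | h)
      · exact Or.inl (congrArg Subtype.val h)
      · exact Or.inr (congrArg Subtype.val h)
  have h4 : Nat.card π.ker = 2 := by
    have h5 : Nat.card π.ker = (π.ker : Set SL(2, k)).ncard := rfl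
    rw [h5, h3, Set.ncard_pair (neg1_ne hodd).symm]
  have h6 := card_SL (k := k)
  rw [h1, h2, h4] at h6
  push_cast at h6
  linarith

end StarkC.ABS
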