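import Pool.Agent.ABS.StP

/-!
# Module PM4 (project ABS, part P): the orders of `T` and `D`
-/

set_option autoImplicit false

open scoped Classical MatrixGroups ComplexConjugate

namespace StarkC.ABS

namespace PM4x

open Matrix

variable {k G : Type} [Field k] [Group G]

lemma vmul (X Y : SL(2, k)) : (X * Y).1 = X.1 * Y.1 := rfl

lemma vone : (1 : SL(2, k)).1 = 1 := rfl

lemma vJ : (mJ k).1 = !![0, -1; 1, 0] := rfl

lemma eq_or {π : SL(2, k) →* G} (hπ : IsPi π) {X Y : SL(2, k)} (h : π X = π Y) :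
    X.1 = Y.1 ∨ X.1 = -Y.1 := by
  have h1 : π (X * Y⁻¹) = 1 := by rw [map_mul, map_inv, h, mul_inv_cancel]
  have h2 : X.1 = (X * Y⁻¹).1 * Y.1 := by
    have h3 := vmul (X * Y⁻¹) Y
    rw [inv_mul_cancel_right] at h3
    exact h3
  rcases (hπ.2 _).1 h1 with h3 | h3
  · left
    have h4 : X.1 = 1 * Y.1 := h2.trans (congrArg (fun M => M * Y.1) h3)
    rw [one_mul] at h4
    exact h4
  · right
    have h4 : X.1 = -1 * Y.1 := h2.trans (congrArg (fun M => M * Y.1) h3)
    rw [neg_mul, one_mul] at h4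
    exact h4

lemma of_neg {π : SL(2, k) →* G} (hπ : IsPi π) {X Y : SL(2, k)}
    (h : X.1 = -Y.1) : π X = π Y := by
  have h1 : π (X * Y⁻¹) = 1 := by
    refine (hπ.2 _).2 (Or.inr ?_)
    have h2 : (X * Y⁻¹).1 = -Y.1 * (Y⁻¹).1 := (vmul X Y⁻¹).trans (congrArg (fun M => M * (Y⁻¹).1) h)
    have h3 : Y.1 * (Y⁻¹).1 = 1 := by
      have h4 := vmul Y Y⁻¹
      rw [mul_inv_cancel] at h4
      exact h4.symm
    rw [neg_mul, h3] at h2
    exact h2
  rw [map_mul, map_inv] at h1
  exact mul_inv_eq_one.1 h1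

lemma mulJ (X : SL(2, k)) : (X * mJ k).1 = !![X.1 0 1, -X.1 0 0; X.1 1 1, -X.1 1 0] := by
  have h : (X * mJ k).1 = X.1 * !![0, -1; 1, 0] := rfl
  refine h.trans ?_
  ext i j
  fin_cases i <;> fin_cases j <;> simp [Matrix.mul_apply, Fin.sum_univ_two]

lemma Jmul (X : SL(2, k)) : (mJ k * X).1 = !![-X.1 1 0, -X.1 1 1; X.1 0 0, X.1 0 1] := by
  have h : (mJ k * X).1 = !![0, -1; 1, 0] * X.1 := rfl
  refine h.trans ?_
  ext i j
  fin_cases i <;> fin_cases j <;> simp [Matrix.mul_apply, Fin.sum_univ_two]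

lemma comm_iff (X : SL(2, k)) : X * mJ k = mJ k * X ↔
    X.1 0 0 = X.1 1 1 ∧ X.1 0 1 = -X.1 1 0 := by
  constructor
  · intro h
    have h0 : (X * mJ k).1 = (mJ k * X).1 := congrArg Subtype.val h
    have h1 : (!![X.1 0 1, -X.1 0 0; X.1 1 1, -X.1 1 0] : Matrix (Fin 2) (Fin 2) k) =
        !![-X.1 1 0, -X.1 1 1; X.1 0 0, X.1 0 1] := ((mulJ X).symm.trans h0).trans (Jmul X)
    have h2 := congrFun (congrFun h1 1) 0
    have h3 := congrFun (congrFun h1 0) 0
    simp at h2 h3
    exact ⟨h2.symm, h3⟩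
  · rintro ⟨h1, h2⟩
    refine Subtype.ext ((mulJ X).trans (Eq.trans ?_ (Jmul X).symm))
    rw [h1, h2]

lemma mem_C (X : SL(2, k)) : X ∈ Subgroup.centralizer {mJ k} ↔ X * mJ k = mJ k * X := by
  rw [Subgroup.mem_centralizer_singleton_iff]

/-- the matrix `(a -b; b a)` -/
def mk2 (p : {p : k × k // p.1 ^ 2 + p.2 ^ 2 = 1}) : SL(2, k) :=
  ⟨!![p.1.1, -p.1.2; p.1.2, p.1.1], by
    rw [Matrix.det_fin_two_of]
    linear_combination p.2⟩

lemma mk2_mem (p : {p : k × k // p.1 ^ 2 + p.2 ^ 2 = 1}) :
    mk2 p ∈ Subgroup.centralizer {mJ k} := by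
  refine (mem_C _).2 ((comm_iff _).2 ⟨?_, ?_⟩)
  · rfl
  · rfl

/-- the centraliser of `mJ` and the circle -/
noncomputable def eqC : (Subgroup.centralizer {mJ k} : Subgroup SL(2, k)) ≃
    {p : k × k // p.1 ^ 2 + p.2 ^ 2 = 1} where
  toFun X := ⟨(X.1.1 0 0, X.1.1 1 0), by
    obtain ⟨h1, h2⟩ := (comm_iff X.1).1 ((mem_C X.1).1 X.2)
    have h3 := X.1.2
    rw [Matrix.det_fin_two, ← h1, h2] at h3
    simp only
    linear_combination h3⟩
  invFun p := ⟨mk2 p, mk2_mem p⟩
  left_inv X := by
    obtain ⟨h1, h2⟩ := (comm_iff X.1).1 ((mem_C X.1).1 X.2)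
    refine Subtype.ext (Subtype.ext ?_)
    have h3 : X.1.1 = !![X.1.1 0 0, X.1.1 0 1; X.1.1 1 0, X.1.1 1 1] := Matrix.eta_fin_two _
    refine Eq.trans ?_ h3.symm
    rw [← h1, h2]
    rfl
  right_inv p := by
    refine Subtype.ext ?_
    rfl

variable [Fintype k]

lemma two_ne (hq : Fintype.card k % 4 = 1 ∨ Fintype.card k % 4 = 3) : (2 : k) ≠ 0 := by
  have h : ringChar k ≠ 2 := by
    intro h
    have := FiniteField.even_card_of_char_two h
    omega
  exact Ring.two_ne_zero h

lemma card3 (hq : Fintype.card k % 4 = 3) :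
    Nat.card {p : k × k // p.1 ^ 2 + p.2 ^ 2 = 1} = Fintype.card k + 1 := by
  have h2 : (2 : k) ≠ 0 := two_ne (Or.inr hq)
  have hs : ∀ s : k, s ^ 2 + 1 ≠ 0 := by
    intro s h
    have h1 : IsSquare (-1 : k) := ⟨s, by linear_combination -h⟩
    exact FiniteField.isSquare_neg_one_iff.1 h1 hq
  let E : Option k ≃ {p : k × k // p.1 ^ 2 + p.2 ^ 2 = 1} :=
    { toFun := fun o => match o with
        | none => ⟨(1, 0), by simp⟩
        | some s => ⟨((s ^ 2 - 1) / (s ^ 2 + 1), 2 * s / (s ^ 2 + 1)), by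
            have := hs s
            simp only
            field_simp
            ring⟩
      invFun := fun p => if p.1.1 = 1 then none else some (p.1.2 / (1 - p.1.1))
      left_inv := by
        intro o
        match o with
        | none => simp
        | some s =>
          have h := hs s
          have h3 : ¬ (s ^ 2 - 1) / (s ^ 2 + 1) = 1 := by
            intro h3
            rw [div_eq_one_iff_eq h] at h3
            exact h2 (by linear_combination -h3)
          simp only [h3, if_false]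
          congr 1
          have h4 : 1 - (s ^ 2 - 1) / (s ^ 2 + 1) = 2 / (s ^ 2 + 1) := by
            field_simp
            ring
          rw [h4]
          field_simp
      right_inv := by
        rintro ⟨⟨a, b⟩, h⟩
        simp only at h
        by_cases ha : a = 1
        · subst ha
          have hb : b = 0 := by
            have : b ^ 2 = 0 := by linear_combination h
            exact pow_eq_zero_iff (two_ne_zero) |>.1 this
          subst hb
          simp
        · have ha' : 1 - a ≠ 0 := sub_ne_zero.2 (Ne.symm ha)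
          have h5 : (b / (1 - a)) ^ 2 + 1 = 2 / (1 - a) := by
            field_simp
            linear_combination h
          have h6 : (b / (1 - a)) ^ 2 - 1 = 2 * a / (1 - a) := by
            field_simp
            linear_combination h
          simp only [ha, if_false]
          apply Subtype.ext
          simp only [h5, h6]
          ext
          · simp only
            field_simp
          · simp only
            field_simp }
  rw [← Nat.card_congr E, Nat.card_eq_fintype_card, Fintype.card_option]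

lemma card1 (hq : Fintype.card k % 4 = 1) :
    Nat.card {p : k × k // p.1 ^ 2 + p.2 ^ 2 = 1} + 1 = Fintype.card k := by
  have h2 : (2 : k) ≠ 0 := two_ne (Or.inl hq)
  have h1 : IsSquare (-1 : k) := FiniteField.isSquare_neg_one_iff.2 (by omega)
  obtain ⟨i, hi⟩ := h1
  have hi0 : i ≠ 0 := by
    rintro rfl
    simp at hi
  let E : kˣ ≃ {p : k × k // p.1 ^ 2 + p.2 ^ 2 = 1} :=
    { toFun := fun u => ⟨(((u : k) + (u : k)⁻¹) / 2, ((u : k) - (u : k)⁻¹) / (2 * i)), by
        have hu : (u : k) ≠ 0 := u.ne_zero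
        have e1 : (((u : k) - (u : k)⁻¹) / (2 * i)) ^ 2 =
            -(((u : k) - (u : k)⁻¹) / 2) ^ 2 := by
          have : (2 * i) ^ 2 = -(2 ^ 2 : k) := by linear_combination -4 * hi
          rw [div_pow, this, div_pow, div_neg]
        simp only
        rw [e1]
        field_simp
        ring⟩
      invFun := fun p => ⟨p.1.1 + i * p.1.2, p.1.1 - i * p.1.2, by
          linear_combination p.2 + p.1.2 ^ 2 * hi, by
          linear_combination p.2 + p.1.2 ^ 2 * hi⟩
      left_inv := by
        intro u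
        apply Units.ext
        simp only
        have hu : (u : k) ≠ 0 := u.ne_zero
        field_simp
        ring
      right_inv := by
        rintro ⟨⟨a, b⟩, h⟩
        simp only at h
        have e2 : (a + i * b)⁻¹ = a - i * b := by
          refine inv_eq_of_mul_eq_one_right ?_
          linear_combination h + b ^ 2 * hi
        apply Subtype.ext
        simp only [e2]
        ext
        · simp only
          field_simp
          ring
        · simp only
          field_simp
          ring }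
  have h3 := Fintype.card_pos (α := k)
  rw [← Nat.card_congr E, Nat.card_eq_fintype_card, Fintype.card_units]
  omega

lemma card_C {e : ℤ} (h : GoodQ k e) :
    (Nat.card (Subgroup.centralizer {mJ k} : Subgroup SL(2, k)) : ℤ) = (Fintype.card k : ℤ) + e := by
  rw [Nat.card_congr eqC]
  rcases h.2 with ⟨rfl, h3⟩ | ⟨rfl, h1⟩
  · rw [card3 h3]
    push_cast
    ring
  · have := card1 h1
    omega

omit [Fintype k] in
/-- the matrix `-1` -/
lemma exN : ∃ N : SL(2, k), N.1 = -1 ∧ N * N = 1 ∧ (∀ X : SL(2, k), (N * X).1 = -X.1) ∧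
    ∀ X : SL(2, k), N * X = X * N := by
  let N : SL(2, k) := ⟨!![-1, 0; 0, -1], by simp [Matrix.det_fin_two]⟩
  have h1 : N.1 = -1 := by
    show (!![-1, 0; 0, -1] : Matrix (Fin 2) (Fin 2) k) = -1
    ext i j
    fin_cases i <;> fin_cases j <;> simp
  have h2 : ∀ X : SL(2, k), (N * X).1 = -X.1 := by
    intro X
    refine (vmul N X).trans ?_
    rw [h1, neg_mul, one_mul]
  have h3 : ∀ X : SL(2, k), (X * N).1 = -X.1 := by
    intro X
    refine (vmul X N).trans ?_
    rw [h1, mul_neg, mul_one]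
  refine ⟨N, h1, ?_, h2, fun X => Subtype.ext ((h2 X).trans (h3 X).symm)⟩
  refine Subtype.ext ((h2 N).trans ?_)
  rw [h1, neg_neg]
  rfl

omit [Fintype k] in
lemma card_T (h2 : (2 : k) ≠ 0) {π : SL(2, k) →* G} (hπ : IsPi π) :
    2 * Nat.card ((Subgroup.centralizer {mJ k}).map π) =
      Nat.card (Subgroup.centralizer {mJ k} : Subgroup SL(2, k)) := by
  obtain ⟨N, hN, -, hN2, hN3⟩ := exN (k := k)
  have hNC : N ∈ Subgroup.centralizer {mJ k} := (mem_C N).2 (hN3 _)
  have hN1 : N ≠ 1 := by
    intro h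
    have h3 : (1 : SL(2, k)).1 = -1 := by rw [← h]; exact hN
    have h4 : (1 : Matrix (Fin 2) (Fin 2) k) = -1 := h3
    have h5 := congrFun (congrFun h4 0) 0
    simp at h5
    exact h2 (by linear_combination h5)
  have hNπ : π N = 1 := (hπ.2 N).2 (Or.inr hN)
  set f := π.comp (Subgroup.centralizer {mJ k} : Subgroup SL(2, k)).subtype with hf
  have hr : f.range = (Subgroup.centralizer {mJ k}).map π := by
    rw [hf, MonoidHom.range_eq_map, ← Subgroup.map_map, ← MonoidHom.range_eq_map,
      Subgroup.range_subtype]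
  have hk : Nat.card f.ker = 2 := by
    rw [Nat.card_eq_two_iff]
    refine ⟨1, ⟨⟨N, hNC⟩, ?_⟩, ?_, ?_⟩
    · rw [MonoidHom.mem_ker]
      exact hNπ
    · intro h
      exact hN1 (congrArg (fun x => (x.1.1 : SL(2, k))) h).symm
    · refine Set.eq_univ_iff_forall.2 fun x => ?_
      have hx : π x.1.1 = 1 := x.2
      rcases (hπ.2 _).1 hx with h | h
      · left
        refine Subtype.ext (Subtype.ext (Subtype.ext ?_))
        exact h
      · right
        refine Subtype.ext (Subtype.ext (Subtype.ext ?_))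
        exact h.trans hN.symm
  have h1 := Subgroup.card_eq_card_quotient_mul_card_subgroup f.ker
  rw [hk, Nat.card_congr (QuotientGroup.quotientKerEquivRange f).toEquiv, hr, mul_comm] at h1
  exact h1.symm

lemma exs (hq : Fintype.card k % 2 = 1) {N : SL(2, k)} (hN2 : ∀ X : SL(2, k), (N * X).1 = -X.1) :
    ∃ s : SL(2, k), s * mJ k = N * (mJ k * s) := by
  have h : ∃ a b : k, a ^ 2 + b ^ 2 = -1 := by
    let f : Polynomial k := Polynomial.X ^ 2
    let g : Polynomial k := Polynomial.X ^ 2 - Polynomial.C (-1)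
    obtain ⟨a, b, hab⟩ : ∃ a b, f.eval a + g.eval b = 0 :=
      FiniteField.exists_root_sum_quadratic (Polynomial.degree_X_pow 2)
        (Polynomial.degree_X_pow_sub_C (by decide) _) hq
    refine ⟨a, b, ?_⟩
    simp only [f, g, Polynomial.eval_pow, Polynomial.eval_X, Polynomial.eval_sub,
      Polynomial.eval_C] at hab
    linear_combination hab
  obtain ⟨a, b, hab⟩ := h
  refine ⟨⟨!![a, b; b, -a], by
    rw [Matrix.det_fin_two_of]
    linear_combination -hab⟩, ?_⟩
  refine Subtype.ext ((mulJ _).trans (Eq.trans ?_ (hN2 _).symm))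
  refine Eq.trans ?_ (congrArg (fun M => -M) (Jmul _)).symm
  ext i j
  fin_cases i <;> fin_cases j <;> simp

lemma card_D (h2 : (2 : k) ≠ 0) (hq : Fintype.card k % 2 = 1) {π : SL(2, k) →* G}
    (hπ : IsPi π) [Finite G] :
    Nat.card (Subgroup.centralizer {π (mJ k)}) =
      2 * Nat.card ((Subgroup.centralizer {mJ k}).map π) := by
  obtain ⟨N, hN, hNN, hN2, hN3⟩ := exN (k := k)
  obtain ⟨s, hs⟩ := exs hq hN2
  have hNπ : π N = 1 := (hπ.2 N).2 (Or.inr hN)
  set T := (Subgroup.centralizer {mJ k}).map π with hT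
  have hmemT : ∀ X : SL(2, k), X * mJ k = mJ k * X → π X ∈ T := fun X h =>
    ⟨X, (mem_C X).2 h, rfl⟩
  have hmemD : ∀ g : G, g ∈ Subgroup.centralizer {π (mJ k)} ↔ g * π (mJ k) = π (mJ k) * g :=
    fun g => Subgroup.mem_centralizer_singleton_iff
  -- elements which anticommute
  have hanti : ∀ X : SL(2, k), X * mJ k = N * (mJ k * X) →
      s⁻¹ * X * mJ k = mJ k * (s⁻¹ * X) := by
    intro X hX
    have h1 : s⁻¹ * mJ k = N * (mJ k * s⁻¹) := by
      have h3 : mJ k * s⁻¹ = s⁻¹ * (s * mJ k) * s⁻¹ := by group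
      rw [h3, hs, ← mul_assoc s⁻¹, ← hN3 s⁻¹]
      have h4 : N * (N * s⁻¹ * (mJ k * s) * s⁻¹) = (N * N) * (s⁻¹ * mJ k) := by group
      rw [h4, hNN, one_mul]
    rw [mul_assoc, hX, ← mul_assoc s⁻¹ N, ← hN3 s⁻¹, mul_assoc N, ← mul_assoc s⁻¹ (mJ k), h1,
      ← mul_assoc N, ← mul_assoc N, hNN, one_mul, mul_assoc]
  have hset : (Subgroup.centralizer {π (mJ k)} : Set G) =
      (T : Set G) ∪ (fun g => π s * g) '' (T : Set G) := by
    ext g
    rw [SetLike.mem_coe, hmemD]
    constructor
    · intro hg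
      obtain ⟨X, rfl⟩ := hπ.1 g
      rw [← map_mul, ← map_mul] at hg
      rcases eq_or hπ hg with h | h
      · left
        exact hmemT X (Subtype.ext h)
      · right
        refine ⟨π (s⁻¹ * X), hmemT _ (hanti X (Subtype.ext (h.trans (hN2 _).symm))), ?_⟩
        show π s * π (s⁻¹ * X) = π X
        rw [← map_mul, mul_inv_cancel_left]
    · rintro (h | ⟨y, h, rfl⟩)
      · obtain ⟨X, hX, rfl⟩ := h
        have hX' : X * mJ k = mJ k * X := (mem_C X).1 hX
        rw [← map_mul, ← map_mul, hX']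
      · obtain ⟨X, hX, rfl⟩ := h
        have hX' : X * mJ k = mJ k * X := (mem_C X).1 hX
        show π s * π X * π (mJ k) = π (mJ k) * (π s * π X)
        rw [← map_mul, ← map_mul, ← map_mul, mul_assoc, hX', ← mul_assoc, hs, map_mul, map_mul, hNπ,
          one_mul, map_mul, map_mul, map_mul, mul_assoc]
  have hdis : Disjoint (T : Set G) ((fun g => π s * g) '' (T : Set G)) := by
    rw [Set.disjoint_left]
    rintro _ ⟨Y, hY, rfl⟩ ⟨_, ⟨X, hX, rfl⟩, h⟩
    have h' : π (s * X) = π Y := by rw [map_mul]; exact h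
    have hNC : N ∈ Subgroup.centralizer {mJ k} := (mem_C N).2 (hN3 _)
    have h3 : s * X ∈ Subgroup.centralizer {mJ k} := by
      rcases eq_or hπ h' with h4 | h4
      · have : s * X = Y := Subtype.ext h4
        rw [this]
        exact hY
      · have : s * X = N * Y := Subtype.ext (h4.trans (hN2 _).symm)
        rw [this]
        exact Subgroup.mul_mem _ hNC hY
    have h5 : s ∈ Subgroup.centralizer {mJ k} := by
      have := Subgroup.mul_mem _ h3 (Subgroup.inv_mem _ hX)
      rwa [mul_inv_cancel_right] at this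
    have h6 : s * mJ k = mJ k * s := (mem_C s).1 h5
    rw [h6] at hs
    have h7 : N = 1 := (mul_eq_right.1 hs.symm)
    have h8 : (1 : SL(2, k)).1 = -1 := by rw [← h7]; exact hN
    have h9 : (1 : Matrix (Fin 2) (Fin 2) k) = -1 := h8
    have h10 := congrFun (congrFun h9 0) 0
    simp at h10
    exact h2 (by linear_combination h10)
  have hc : (Subgroup.centralizer {π (mJ k)} : Set G).ncard = (T : Set G).ncard + (T : Set G).ncard := by
    rw [hset, Set.ncard_union_eq hdis (Set.toFinite _) (Set.toFinite _),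
      Set.ncard_image_of_injective _ (mul_right_injective (π s))]
  rw [two_mul]
  exact hc

end PM4x

open PM4x in
theorem PM4_thm : Stmt_PM4 := by
  intro k G _ _ _ _ e π hπ h
  have hq : Fintype.card k % 4 = 1 ∨ Fintype.card k % 4 = 3 := by
    rcases h.2 with ⟨-, h3⟩ | ⟨-, h1⟩
    · exact Or.inr h3
    · exact Or.inl h1
  have h2 : (2 : k) ≠ 0 := two_ne hq
  have hT := card_T h2 hπ
  have hD := card_D h2 (by omega) hπ
  have hC := card_C h
  rw [← hT] at hC
  refine ⟨by exact_mod_cast hC, ?_⟩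
  rw [hD]
  exact_mod_cast hC

end StarkC.ABS
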