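import Pool.Agent.ABS.StP

/-!
# Project ABS, part P: the second subgroup of index two of the dihedral group (module PM5)
-/

set_option autoImplicit false

open scoped Classical MatrixGroups ComplexConjugate

namespace StarkC.ABS

namespace PM5x

section

variable {G : Type} [Group G] (T : Subgroup G) (hc : ∀ x ∈ T, ∀ y ∈ T, x * y = y * x)

/-- the squaring map of a commutative subgroup -/
def sqh : T →* G where
  toFun x := (x : G) * x
  map_one' := by simp
  map_mul' x y := by
    have h := hc x x.2 y y.2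
    show (x : G) * y * (x * y) = x * x * (y * y)
    calc (x : G) * y * (x * y) = x * (y * x) * y := by group
      _ = x * (x * y) * y := by rw [h]
      _ = x * x * (y * y) := by group

theorem range_le : (sqh T hc).range ≤ T := by
  rintro _ ⟨x, rfl⟩
  exact T.mul_mem x.2 x.2

theorem card_T {z : G} (hz : z ∈ T) (hz1 : z ≠ 1) (hzz : z * z = 1)
    (hsq : ∀ g ∈ T, g * g = 1 → g = 1 ∨ g = z) :
    Nat.card T = 2 * Nat.card (sqh T hc).range := by
  have h1 := Subgroup.card_mul_index (sqh T hc).ker
  rw [Subgroup.index_ker] at h1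
  have h2 : Nat.card (sqh T hc).ker = 2 := by
    rw [Nat.card_eq_two_iff]
    refine ⟨⟨1, (sqh T hc).ker.one_mem⟩, ⟨⟨z, hz⟩, (MonoidHom.mem_ker).2 hzz⟩, ?_, ?_⟩
    · intro h
      have h3 : (1 : G) = z := congrArg (fun w : (sqh T hc).ker => ((w : T) : G)) h
      exact hz1 h3.symm
    · rw [Set.eq_univ_iff_forall]
      rintro ⟨⟨g, hg⟩, hk⟩
      have h3 : g * g = 1 := (MonoidHom.mem_ker).1 hk
      rcases hsq g hg h3 with h4 | h4
      · left
        subst h4
        rfl
      · right
        subst h4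
        rfl
  rw [h2] at h1
  exact h1.symm

variable {s : G}

/-- the second subgroup -/
def dd (hs : s * s = 1) (hinv : ∀ x ∈ T, s * x * s = x⁻¹) : Subgroup G where
  carrier := {g | g ∈ (sqh T hc).range ∨ s * g ∈ (sqh T hc).range}
  one_mem' := Or.inl (sqh T hc).range.one_mem
  mul_mem' := by
    have hR : ∀ r ∈ (sqh T hc).range, s * r * s ∈ (sqh T hc).range := fun r hr => by
      rw [hinv r (range_le T hc hr)]
      exact (sqh T hc).range.inv_mem hr
    rintro g h (hg | hg) (hh | hh)
    · exact Or.inl ((sqh T hc).range.mul_mem hg hh)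
    · right
      have : s * (g * h) = (s * g * s) * (s * h) := by
        calc s * (g * h) = s * g * 1 * h := by group
          _ = s * g * (s * s) * h := by rw [hs]
          _ = (s * g * s) * (s * h) := by group
      rw [this]
      exact (sqh T hc).range.mul_mem (hR g hg) hh
    · right
      rw [← mul_assoc]
      exact (sqh T hc).range.mul_mem hg hh
    · left
      have : g * h = (s * (s * g) * s) * (s * h) := by
        calc g * h = 1 * g * 1 * h := by group
          _ = (s * s) * g * (s * s) * h := by rw [hs]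
          _ = (s * (s * g) * s) * (s * h) := by group
      rw [this]
      exact (sqh T hc).range.mul_mem (hR _ hg) hh
  inv_mem' := by
    rintro g (hg | hg)
    · exact Or.inl ((sqh T hc).range.inv_mem hg)
    · right
      have h1 := hinv _ (T.inv_mem (range_le T hc hg))
      have hs' : s⁻¹ = s := inv_eq_of_mul_eq_one_left hs
      have h2 : s * (s * g)⁻¹ * s = s * g⁻¹ := by
        calc s * (s * g)⁻¹ * s = s * g⁻¹ * (s⁻¹ * s) := by group
          _ = s * g⁻¹ := by group
      rw [h2, inv_inv] at h1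
      show s * g⁻¹ ∈ _
      rw [h1]
      exact hg

theorem card_dd (hs : s * s = 1) (hinv : ∀ x ∈ T, s * x * s = x⁻¹) (hsT : s ∉ T) :
    Nat.card (dd T hc hs hinv) = Nat.card (sqh T hc).range + Nat.card (sqh T hc).range := by
  have hmul : ∀ r, s * (s * r) = r := fun r => by rw [← mul_assoc, hs, one_mul]
  have hne : ∀ r ∈ (sqh T hc).range, ∀ r' ∈ (sqh T hc).range, r ≠ s * r' := by
    intro r hr r' hr' h
    apply hsT
    have : s = r * r'⁻¹ := by rw [h]; group
    rw [this]
    exact T.mul_mem (range_le T hc hr) (T.inv_mem (range_le T hc hr'))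
  let f : (sqh T hc).range ⊕ (sqh T hc).range → dd T hc hs hinv :=
    Sum.elim (fun r => ⟨r, Or.inl r.2⟩) (fun r => ⟨s * r, Or.inr (by rw [hmul]; exact r.2)⟩)
  have hf : Function.Bijective f := by
    constructor
    · rintro (a | a) (b | b) h
      · have h1 : (a : G) = b := congrArg (fun w : dd T hc hs hinv => (w : G)) h
        rw [Subtype.ext h1]
      · have h1 : (a : G) = s * b := congrArg (fun w : dd T hc hs hinv => (w : G)) h
        exact absurd h1 (hne a a.2 b b.2)
      · have h1 : s * (a : G) = b := congrArg (fun w : dd T hc hs hinv => (w : G)) h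
        exact absurd h1.symm (hne b b.2 a a.2)
      · have h1 : s * (a : G) = s * b := congrArg (fun w : dd T hc hs hinv => (w : G)) h
        rw [Subtype.ext (mul_left_cancel h1)]
    · rintro ⟨g, hg | hg⟩
      · exact ⟨Sum.inl ⟨g, hg⟩, rfl⟩
      · exact ⟨Sum.inr ⟨s * g, hg⟩, Subtype.ext (hmul g)⟩
  rw [← Nat.card_congr (Equiv.ofBijective f hf)]
  by_cases hfin : Finite (sqh T hc).range
  · rw [Nat.card_sum]
  · have h1 : Infinite (sqh T hc).range := not_finite_iff_infinite.1 hfin
    rw [Nat.card_eq_zero_of_infinite, Nat.card_eq_zero_of_infinite]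

end

section

variable {k : Type} [Field k]

theorem cent {X : SL(2, k)} (h : X ∈ Subgroup.centralizer {mJ k}) :
    X.1 0 1 = - X.1 1 0 ∧ X.1 0 0 = X.1 1 1 := by
  rw [Subgroup.mem_centralizer_singleton_iff] at h
  have h1 := congrArg Subtype.val h
  have h2 : X.1 * (mJ k).1 = (mJ k).1 * X.1 := h1
  have h3 := congrFun (congrFun h2 0) 0
  have h4 := congrFun (congrFun h2 1) 0
  simp [mJ, Matrix.mul_apply, Fin.sum_univ_two] at h3 h4
  exact ⟨h3, h4.symm⟩

theorem comm {X Y : SL(2, k)} (hX : X ∈ Subgroup.centralizer {mJ k})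
    (hY : Y ∈ Subgroup.centralizer {mJ k}) : X * Y = Y * X := by
  obtain ⟨a1, a2⟩ := cent hX
  obtain ⟨b1, b2⟩ := cent hY
  apply Subtype.ext
  show X.1 * Y.1 = Y.1 * X.1
  ext i j
  fin_cases i <;> fin_cases j <;> simp [Matrix.mul_apply, Fin.sum_univ_two, a1, a2, b1, b2] <;>
    ring

/-- the matrix `s` -/
def sM (a b : k) (h : a ^ 2 + b ^ 2 = -1) : SL(2, k) := ⟨!![a, b; b, -a], by
  rw [Matrix.det_fin_two_of]
  linear_combination -h⟩

theorem sM_val (a b : k) (h : a ^ 2 + b ^ 2 = -1) : (sM a b h).1 0 0 = a ∧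
    (sM a b h).1 0 1 = b ∧ (sM a b h).1 1 0 = b ∧ (sM a b h).1 1 1 = -a :=
  ⟨rfl, rfl, rfl, rfl⟩

theorem sM_sq (a b : k) (h : a ^ 2 + b ^ 2 = -1) :
    ((sM a b h * sM a b h : SL(2, k)) : Matrix (Fin 2) (Fin 2) k) = -1 := by
  show (sM a b h).1 * (sM a b h).1 = -1
  obtain ⟨s1, s2, s3, s4⟩ := sM_val a b h
  rw [← Matrix.ext_iff]
  simp only [Fin.forall_fin_two, Matrix.mul_apply, Fin.sum_univ_two, s1, s2, s3, s4,
    Matrix.neg_apply, Matrix.one_apply]
  norm_num
  refine ⟨⟨?_, ?_⟩, ?_, ?_⟩ <;> first | linear_combination h | ring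

theorem sM_inv (a b : k) (h : a ^ 2 + b ^ 2 = -1) {X : SL(2, k)}
    (hX : X ∈ Subgroup.centralizer {mJ k}) : X * (sM a b h * X) = sM a b h := by
  obtain ⟨a1, a2⟩ := cent hX
  have hd : X.1 0 0 * X.1 1 1 - X.1 0 1 * X.1 1 0 = 1 := by
    rw [← Matrix.det_fin_two]
    exact X.2
  rw [a1, a2] at hd
  obtain ⟨s1, s2, s3, s4⟩ := sM_val a b h
  apply Subtype.ext
  show X.1 * ((sM a b h).1 * X.1) = (sM a b h).1
  rw [← Matrix.ext_iff]
  simp only [Fin.forall_fin_two, Matrix.mul_apply, Fin.sum_univ_two, s1, s2, s3, s4, a1, a2]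
  refine ⟨⟨?_, ?_⟩, ?_, ?_⟩
  · linear_combination a * hd
  · linear_combination b * hd
  · linear_combination b * hd
  · linear_combination -a * hd

end

end PM5x

open PM5x in
/-- PM5. -/
theorem PM5_thm : Stmt_PM5 := by
  intro h2 k G _ _ _ _ π hπ hodd
  obtain ⟨z1, z2, -, z3, -, -⟩ := h2 k G π hπ hodd
  obtain ⟨a, b, hab⟩ : ∃ a b : k, a ^ 2 + b ^ 2 = -1 := by
    have hp := CharP.exists k
    obtain ⟨p, hp⟩ := hp
    have hp0 : p ≠ 0 := CharP.char_ne_zero_of_finite k p
    have : NeZero p := ⟨hp0⟩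
    obtain ⟨a, b, h⟩ := CharP.sq_add_sq k p (-1)
    exact ⟨a, b, by rw [h]; push_cast; rfl⟩
  have h2k : (2 : k) ≠ 0 := by
    intro h
    have h3 : ringChar k = 2 := by
      have := ringChar.dvd (R := k) (x := 2) (by exact_mod_cast h)
      rcases (Nat.dvd_prime Nat.prime_two).1 this with h4 | h4
      · exact absurd h4 (CharP.ringChar_ne_one)
      · exact h4
    have h4 := FiniteField.even_card_of_char_two h3
    have h5 := Nat.odd_iff.1 hodd
    omega
  set C := Subgroup.centralizer {mJ k} with hC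
  have hJ : mJ k ∈ C := by
    rw [hC, Subgroup.mem_centralizer_singleton_iff]
  have hcomm : ∀ x ∈ C.map π, ∀ y ∈ C.map π, x * y = y * x := by
    rintro _ ⟨X, hX, rfl⟩ _ ⟨Y, hY, rfl⟩
    rw [← map_mul, ← map_mul, comm hX hY]
  have hs : π (sM a b hab) * π (sM a b hab) = 1 := by
    rw [← map_mul]
    exact (hπ.2 _).2 (Or.inr (sM_sq a b hab))
  have hinv : ∀ x ∈ C.map π, π (sM a b hab) * x * π (sM a b hab) = x⁻¹ := by
    rintro _ ⟨X, hX, rfl⟩
    have h3 : π X * (π (sM a b hab) * π X) = π (sM a b hab) := by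
      rw [← map_mul, ← map_mul, sM_inv a b hab hX]
    rw [eq_inv_iff_mul_eq_one]
    calc π (sM a b hab) * π X * π (sM a b hab) * π X
        = π (sM a b hab) * (π X * (π (sM a b hab) * π X)) := by group
      _ = 1 := by rw [h3, hs]
  have hsT : π (sM a b hab) ∉ C.map π := by
    rintro ⟨X, hX, h3⟩
    have h4 : π (X⁻¹ * sM a b hab) = 1 := by
      rw [map_mul, map_inv, h3, inv_mul_cancel]
    obtain ⟨c1, c2⟩ := cent hX
    rcases (hπ.2 _).1 h4 with h5 | h5
    · have h6 : X⁻¹ * sM a b hab = 1 := Subtype.ext h5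
      have h7 : sM a b hab = X := by rw [← mul_one X, ← h6]; group
      rw [← h7] at c1 c2
      simp [sM] at c1 c2
      have h8 : a = 0 := by
        have : 2 * a = 0 := by linear_combination c2
        exact (mul_eq_zero.1 this).resolve_left h2k
      have h9 : b = 0 := by
        have : 2 * b = 0 := by linear_combination c1
        exact (mul_eq_zero.1 this).resolve_left h2k
      rw [h8, h9] at hab
      simp at hab
    · have h6 : X.1 * (X⁻¹ * sM a b hab : SL(2, k)).1 = (sM a b hab).1 := by
        have : X * (X⁻¹ * sM a b hab) = sM a b hab := by group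
        exact congrArg Subtype.val this
      rw [h5] at h6
      have h7 : (sM a b hab).1 = - X.1 := by rw [← h6]; simp
      have e01 := congrFun (congrFun h7 0) 1
      have e10 := congrFun (congrFun h7 1) 0
      have e00 := congrFun (congrFun h7 0) 0
      have e11 := congrFun (congrFun h7 1) 1
      simp [sM] at e01 e10 e00 e11
      have h8 : a = 0 := by
        have : 2 * a = 0 := by linear_combination e00 + e11 - c2
        exact (mul_eq_zero.1 this).resolve_left h2k
      have h9 : b = 0 := by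
        have : 2 * b = 0 := by linear_combination e01 + e10 - c1
        exact (mul_eq_zero.1 this).resolve_left h2k
      rw [h8, h9] at hab
      simp at hab
  refine ⟨dd (C.map π) hcomm hs hinv, ?_, ?_, ?_⟩
  · have hzT : π (mJ k) ∈ C.map π := ⟨_, hJ, rfl⟩
    have hsz : π (sM a b hab) * π (mJ k) = π (mJ k) * π (sM a b hab) := by
      have h3 := hinv _ hzT
      rw [inv_eq_of_mul_eq_one_left z1] at h3
      calc π (sM a b hab) * π (mJ k)
          = π (sM a b hab) * π (mJ k) * (π (sM a b hab) * π (sM a b hab)) := by rw [hs, mul_one]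
        _ = (π (sM a b hab) * π (mJ k) * π (sM a b hab)) * π (sM a b hab) := by group
        _ = _ := by rw [h3]
    rintro g (hg | hg)
    · exact hcomm g (range_le _ hcomm hg) _ hzT
    · have h3 := hcomm _ (range_le _ hcomm hg) _ hzT
      have h4 : g = π (sM a b hab) * (π (sM a b hab) * g) := by
        rw [← mul_assoc, hs, one_mul]
      rw [h4, mul_assoc, h3, ← mul_assoc, hsz, mul_assoc]
  · rw [card_dd, card_T _ hcomm ⟨_, hJ, rfl⟩ z2 z1 z3, two_mul]
    exact hsT
  · intro h
    apply hsT
    rw [← h]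
    right
    rw [hs]
    exact (sqh _ hcomm).range.one_mem

end StarkC.ABS
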