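import Pool.Agent.ABS.StP

/-! Project ABS, module PM6: the data for the groups isomorphic to `PSL(2, k)`. -/

set_option autoImplicit false

open scoped Classical MatrixGroups ComplexConjugate

namespace StarkC.ABS

namespace PM6x

variable {k G : Type} [Field k] [Group G]

/-- The quotient map. -/
noncomputable def pi (φ : G ≃* PSL(2, k)) : SL(2, k) →* G :=
  φ.symm.toMonoidHom.comp (QuotientGroup.mk' (Subgroup.center SL(2, k)))

theorem isPi (φ : G ≃* PSL(2, k)) : IsPi (pi φ) := by
  refine ⟨φ.symm.surjective.comp (QuotientGroup.mk'_surjective _), fun x => ?_⟩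
  have h1 : pi φ x = 1 ↔ x ∈ Subgroup.center SL(2, k) := by
    show φ.symm (QuotientGroup.mk' (Subgroup.center SL(2, k)) x) = 1 ↔ _
    rw [map_eq_one_iff φ.symm φ.symm.injective]
    exact QuotientGroup.eq_one_iff x
  rw [h1, Matrix.SpecialLinearGroup.mem_center_iff]
  constructor
  · rintro ⟨r, hr, hx⟩
    have h2 : r = 1 ∨ r = -1 := by
      rw [Fintype.card_fin] at hr
      have h3 : (r - 1) * (r + 1) = 0 := by
        rw [show (r - 1) * (r + 1) = r ^ 2 - 1 by ring, hr, sub_self]
      rcases mul_eq_zero.1 h3 with h4 | h4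
      · exact Or.inl (sub_eq_zero.1 h4)
      · exact Or.inr (eq_neg_of_add_eq_zero_left h4)
    rcases h2 with rfl | rfl
    · left
      rw [← hx, map_one]
    · right
      rw [← hx, map_neg, map_one]
  · rintro (h | h)
    · exact ⟨1, one_pow _, by rw [map_one, h]⟩
    · refine ⟨-1, ?_, by rw [map_neg, map_one, h]⟩
      rw [Fintype.card_fin]
      ring

theorem odd_of_good [Fintype k] {e : ℤ} (h : GoodQ k e) : Odd (Fintype.card k) := by
  rw [Nat.odd_iff]
  obtain ⟨-, ⟨-, h1⟩ | ⟨-, h1⟩⟩ := h <;> omega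

end PM6x

open PM6x in
theorem PM6_thm : Stmt_PM6 := by
  intro h1 h2 h3 h4 h5 k G _ _ _ _ e hq ⟨φ⟩
  have hodd := odd_of_good hq
  obtain ⟨π, hπ⟩ : ∃ π : SL(2, k) →* G, IsPi π := ⟨pi φ, isPi φ⟩
  obtain ⟨u_add, u_inj, t_mul, t_one, t_u, tu⟩ := h1 k G π hπ hodd
  obtain ⟨z_sq, z_ne, inv_conj, T_sq, out, reg⟩ := h2 k G π hπ hodd
  obtain ⟨card_T, card_D⟩ := h4 k G e π hπ hq
  obtain ⟨D₁, D₁_z, card_D₁, D₁_ne⟩ := h5 h2 k G π hπ hodd
  have hsimple : IsSimpleGroup G := by
    have h6 : IsSimpleGroup PSL(2, k) := by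
      apply Matrix.ProjectiveSpecialLinearGroup.rank_two_simple
      rw [Nat.card_eq_fintype_card]
      have := hq.1
      omega
    exact φ.isSimpleGroup
  have u0 : π (mU 0) = 1 := by
    have h := u_add 0 0
    rw [add_zero] at h
    exact mul_eq_left.1 h.symm
  have hC : ∀ x : SL(2, k), x ∈ Subgroup.centralizer {mJ k} ↔ x * mJ k = mJ k * x := by
    intro x
    rw [Subgroup.mem_centralizer_singleton_iff]
  exact ⟨{
    u := fun b => π (mU b)
    t := fun a => π (mT a)
    z := π (mJ k)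
    T := (Subgroup.centralizer {mJ k}).map π
    D₁ := D₁
    u_add := u_add
    u_inj := u_inj
    t_mul := t_mul
    t_one := t_one
    t_u := t_u
    tu := tu
    card := h3 k G π hπ hodd
    simple := by
      intro N hN h
      rcases hsimple.eq_bot_or_eq_top_of_normal N hN with h7 | h7
      · exfalso
        rw [h7, Subgroup.mem_bot, ← u0] at h
        exact one_ne_zero (u_inj h)
      · exact h7
    z_sq := z_sq
    z_ne := z_ne
    inv_conj := inv_conj
    z_T := ⟨mJ k, (hC _).2 rfl, rfl⟩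
    T_z := by
      rintro _ ⟨x, hx, rfl⟩
      rw [← map_mul, (hC x).1 hx, map_mul]
    T_sq := T_sq
    out := out
    reg := reg
    card_T := card_T
    card_D := card_D
    D₁_z := D₁_z
    card_D₁ := card_D₁
    D₁_ne := D₁_ne }⟩

end StarkC.ABS
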