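import Pool.Agent.ABS.StP

/-!
# Project ABS, part P, module PNO (helper43): the norm and the values of `χ₀`
-/

set_option autoImplicit false

open scoped Classical MatrixGroups ComplexConjugate

namespace StarkC.ABS

namespace PNOx

variable {k G : Type} [Field k] [Fintype k] [Group G] [Fintype G] {e : ℤ}

theorem indFun_class (H : Subgroup G) (f : G → ℂ) (x g : G) :
    indFun H f (x⁻¹ * g * x) = indFun H f g := by
  unfold indFun
  congr 1
  refine Fintype.sum_equiv (Equiv.mulLeft x) _ _ fun y => ?_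
  have h : y⁻¹ * (x⁻¹ * g * x) * y = (x * y)⁻¹ * g * (x * y) := by group
  rw [h, Equiv.coe_mulLeft]

theorem chi_class (d : PD k G e) (ψ : AddChar k ℂ) (x g : G) :
    d.chi ψ (x⁻¹ * g * x) = d.chi ψ g := by
  unfold PD.chi
  rw [indFun_class, indFun_class, indFun_class]

theorem ind_zero (H : Subgroup G) (f : G → ℂ) (g : G) (h : ∀ x : G, x⁻¹ * g * x ∉ H) :
    indFun H f g = 0 := by
  unfold indFun
  rw [Finset.sum_eq_zero fun x _ => if_neg (h x), zero_div]

theorem mem_D (d : PD k G e) (g : G) : g ∈ d.D ↔ g * d.z = d.z * g := by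
  unfold PD.D
  rw [Subgroup.mem_centralizer_singleton_iff]

theorem e_sq (hq : GoodQ k e) : (e : ℂ) * (e : ℂ) = 1 := by
  rcases hq.2 with ⟨h, -⟩ | ⟨h, -⟩ <;> rw [h] <;> norm_num

theorem u_zero (d : PD k G e) : d.u 0 = 1 := by
  have h := d.u_add 0 0
  rw [add_zero] at h
  exact mul_eq_left.1 h.symm

theorem ext_u (d : PD k G e) (ψ : AddChar k ℂ) (b : k) : d.ext ψ (d.u b) = ψ b := by
  have h : ∃ b', d.u b' = d.u b := ⟨b, rfl⟩
  unfold PD.ext
  rw [dif_pos h]
  have h1 : h.choose = b := d.u_inj h.choose_spec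
  rw [h1]

theorem card_U (d : PD k G e) : Nat.card d.U = Fintype.card k := by
  have h1 : Nat.card d.U = Nat.card (Set.range d.u) := rfl
  rw [h1, ← Nat.card_congr (Equiv.ofInjective d.u d.u_inj), Nat.card_eq_fintype_card]

theorem mem_U (d : PD k G e) (g : G) : g ∈ d.U ↔ g ∈ Set.range d.u := Iff.rfl

theorem sum_U (d : PD k G e) (F : G → ℂ) :
    ∑ g, (if g ∈ d.U then F g else 0) = ∑ b : k, F (d.u b) := by
  symm
  refine Fintype.sum_of_injective d.u d.u_inj _ _ (fun g hg => ?_) fun b => ?_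
  · rw [if_neg fun h => hg ((mem_U d g).1 h)]
  · rw [if_pos ((mem_U d _).2 ⟨b, rfl⟩)]

theorem sum_subgroup_const (H : Subgroup G) (c : ℂ) :
    ∑ g, (if g ∈ H then c else 0) = (Nat.card H : ℂ) * c := by
  rw [← Finset.sum_filter, Finset.sum_const, nsmul_eq_mul, Nat.card_eq_fintype_card,
    Fintype.card_subtype]

theorem chi_one (hU : Stmt_PVU) (hD : Stmt_PVD) (d : PD k G e) (ψ : AddChar k ℂ)
    (hq : GoodQ k e) : d.chi ψ 1 = ((Fintype.card k : ℂ) - (e : ℂ)) / 2 := by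
  obtain ⟨h1, -⟩ := hU k G e d ψ hq
  obtain ⟨h2, -⟩ := hD k G e d hq
  have he := e_sq hq
  unfold PD.chi
  linear_combination (e : ℂ) * h1 - (e : ℂ) * h2 + (Fintype.card k : ℂ) / 2 * he

theorem chi_u (hU : Stmt_PVU) (d : PD k G e) (ψ : AddChar k ℂ) (hq : GoodQ k e) (b : k)
    (hb : b ≠ 0) : d.chi ψ (d.u b) = (e : ℂ) / 2 * ∑ a : kˣ, ψ ((a : k) ^ 2 * b) := by
  obtain ⟨-, h1, -, h2⟩ := hU k G e d ψ hq
  have h3 : indFun d.D₁ (fun _ => 1) (d.u b) = 0 := by
    refine ind_zero _ _ _ fun x hx => ?_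
    exact h2 b x hb (d.D₁_z _ hx)
  have h4 : indFun d.D (fun _ => 1) (d.u b) = 0 := by
    refine ind_zero _ _ _ fun x hx => ?_
    exact h2 b x hb ((mem_D d _).1 hx)
  unfold PD.chi
  rw [h3, h4, h1 b hb]
  ring

/-- the sum over `U` -/
theorem sum_U_chi (hG : Stmt_PGS) (hU : Stmt_PVU) (hD : Stmt_PVD) (d : PD k G e)
    (ψ : AddChar k ℂ) (hq : GoodQ k e) (hψ : ψ ≠ 1) :
    ∑ g, (if g ∈ d.U then d.chi ψ g * conj (d.ext ψ g) else 0) =
      (Fintype.card k : ℂ) * (1 + (e : ℂ)) / 2 := by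
  have hodd : Odd (Fintype.card k) := by
    rw [Nat.odd_iff]
    rcases hq.2 with ⟨-, h⟩ | ⟨-, h⟩ <;> omega
  obtain ⟨hG1, -⟩ := hG k ψ hodd hψ
  have hS := (hG1 1 one_ne_zero).1 ⟨1, by ring⟩
  have hcard : (Fintype.card kˣ : ℂ) = (Fintype.card k : ℂ) - 1 := by
    have h5 : Fintype.card kˣ = Fintype.card k - 1 := Fintype.card_units k
    rw [h5, Nat.cast_sub (by have := hq.1; omega), Nat.cast_one]
  have hterm : ∀ b : k, d.chi ψ (d.u b) * conj (d.ext ψ (d.u b)) =
      (e : ℂ) / 2 * ((∑ a : kˣ, ψ ((a : k) ^ 2 * b)) * ψ (-(1 * b))) +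
        (if b = 0 then ((Fintype.card k : ℂ) - (e : ℂ)) / 2 -
          (e : ℂ) / 2 * ((Fintype.card k : ℂ) - 1) else 0) := by
    intro b
    rw [ext_u, ← AddChar.map_neg_eq_conj, one_mul]
    by_cases hb : b = 0
    · subst hb
      rw [if_pos rfl, u_zero, chi_one hU hD d ψ hq, neg_zero, AddChar.map_zero_eq_one]
      have h6 : ∑ a : kˣ, ψ ((a : k) ^ 2 * 0) = (Fintype.card k : ℂ) - 1 := by
        rw [Finset.sum_congr rfl fun a _ => by rw [mul_zero, AddChar.map_zero_eq_one],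
          Finset.sum_const, Finset.card_univ, nsmul_eq_mul, mul_one, hcard]
      rw [h6]
      ring
    · rw [if_neg hb, chi_u hU d ψ hq b hb]
      ring
  rw [sum_U, Finset.sum_congr rfl fun b _ => hterm b, Finset.sum_add_distrib, ← Finset.mul_sum,
    hS, Finset.sum_ite_eq' Finset.univ (0 : k), if_pos (Finset.mem_univ _)]
  ring

/-- the sum over `D` with signs -/
theorem sum_D_chi (hU : Stmt_PVU) (hD : Stmt_PVD) (d : PD k G e)
    (ψ : AddChar k ℂ) (hq : GoodQ k e) :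
    2 * ∑ g, (if g ∈ d.D₁ then d.chi ψ g * conj (1 : ℂ) else 0) -
      ∑ g, (if g ∈ d.D then d.chi ψ g * conj (1 : ℂ) else 0) =
      ((Fintype.card k : ℂ) - (e : ℂ)) / 2 + (e : ℂ) - (e : ℂ) * (Nat.card d.T : ℂ) := by
  obtain ⟨-, h2, h3, h4⟩ := hD k G e d hq
  obtain ⟨-, -, h5, -⟩ := hU k G e d ψ hq
  have hone := chi_one hU hD d ψ hq
  have hterm : ∀ g : G, 2 * (if g ∈ d.D₁ then d.chi ψ g * conj (1 : ℂ) else 0) -
      (if g ∈ d.D then d.chi ψ g * conj (1 : ℂ) else 0) =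
      (if g = 1 then ((Fintype.card k : ℂ) - (e : ℂ)) / 2 + (e : ℂ) else 0) +
      (if g ∈ d.T then -(e : ℂ) else 0) +
      (-(e : ℂ) * (if d.z ∈ d.D₁ then 1 else -1)) *
        (if g * d.z = d.z * g ∧ g ∉ d.T then (if g ∈ d.D₁ then (1 : ℂ) else -1) else 0) := by
    intro g
    rw [map_one, mul_one]
    by_cases hg : g * d.z = d.z * g
    · have hgD : g ∈ d.D := (mem_D d g).2 hg
      rw [if_pos hgD]
      by_cases hT : g ∈ d.T
      · have hc : ¬ (g * d.z = d.z * g ∧ g ∉ d.T) := fun h => h.2 hT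
        rw [if_pos hT, if_neg hc, mul_zero, add_zero]
        by_cases h1 : g = 1
        · subst h1
          rw [if_pos rfl, if_pos d.D₁.one_mem, hone]
          ring
        · rw [if_neg h1]
          have h6 := h2 g hT h1
          have h7 := h5 g hg h1
          have h8 : d.chi ψ g = -(e : ℂ) * (if g ∈ d.D₁ then 1 else -1) := by
            unfold PD.chi
            rw [h7, ← h6]
            ring
          rw [h8]
          by_cases h9 : g ∈ d.D₁
          · rw [if_pos h9, if_pos h9]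
            ring
          · rw [if_neg h9, if_neg h9]
            ring
      · have h1 : g ≠ 1 := by
          rintro rfl
          exact hT d.T.one_mem
        have hc : g * d.z = d.z * g ∧ g ∉ d.T := ⟨hg, hT⟩
        rw [if_neg h1, if_neg hT, if_pos hc]
        have h6 := h3 g hg hT
        have h7 := h5 g hg h1
        have h8 : d.chi ψ g = -(e : ℂ) * (if d.z ∈ d.D₁ then 1 else -1) := by
          unfold PD.chi
          rw [h7, ← h6]
          ring
        rw [h8]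
        by_cases h9 : g ∈ d.D₁
        · rw [if_pos h9, if_pos h9]
          ring
        · rw [if_neg h9, if_neg h9]
          ring
    · have hgD : g ∉ d.D := fun h => hg ((mem_D d g).1 h)
      have hg1 : g ∉ d.D₁ := fun h => hg (d.D₁_z g h)
      have hgT : g ∉ d.T := fun h => hg (d.T_z g h)
      have h1 : g ≠ 1 := by
        rintro rfl
        exact hgT d.T.one_mem
      have hc : ¬ (g * d.z = d.z * g ∧ g ∉ d.T) := fun h => hg h.1
      rw [if_neg hgD, if_neg hg1, if_neg hgT, if_neg h1, if_neg hc]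
      ring
  rw [Finset.mul_sum, ← Finset.sum_sub_distrib, Finset.sum_congr rfl fun g _ => hterm g,
    Finset.sum_add_distrib, Finset.sum_add_distrib, ← Finset.mul_sum, h4, mul_zero, add_zero,
    sum_subgroup_const, Finset.sum_ite_eq' Finset.univ (1 : G), if_pos (Finset.mem_univ _)]
  ring

end PNOx

open PNOx in
theorem PNO_thm : Stmt_PNO := by
  intro hF hG hU hD k G _ _ _ _ e d ψ hq hψ
  refine ⟨chi_class d ψ, chi_one hU hD d ψ hq, chi_u hU d ψ hq, ?_⟩
  have hcl := chi_class d ψ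
  have f1 := hF G d.U (d.chi ψ) (d.ext ψ) hcl
  have f2 := hF G d.D₁ (d.chi ψ) (fun _ => 1) hcl
  have f3 := hF G d.D (d.chi ψ) (fun _ => 1) hcl
  have s1 := sum_U_chi hG hU hD d ψ hq hψ
  have s2 := sum_D_chi hU hD d ψ hq
  rw [s1, card_U] at f1
  have hconj : ∀ g, d.chi ψ g * conj (d.chi ψ g) = (e : ℂ) *
      (d.chi ψ g * conj (indFun d.U (d.ext ψ) g) - d.chi ψ g * conj (indFun d.D₁ (fun _ => 1) g) +
        d.chi ψ g * conj (indFun d.D (fun _ => 1) g)) := by
    intro g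
    have h1 : conj (d.chi ψ g) = (e : ℂ) * (conj (indFun d.U (d.ext ψ) g) -
        conj (indFun d.D₁ (fun _ => 1) g) + conj (indFun d.D (fun _ => 1) g)) := by
      conv_lhs => unfold PD.chi
      rw [map_mul, map_add, map_sub, map_intCast]
    rw [h1]
    ring
  rw [Finset.sum_congr rfl fun g _ => hconj g, ← Finset.mul_sum, Finset.sum_add_distrib,
    Finset.sum_sub_distrib, f1, f2, f3]
  have hT : 2 * (Nat.card d.T : ℂ) = (Fintype.card k : ℂ) + (e : ℂ) := by
    exact_mod_cast congrArg (fun n : ℤ => (n : ℂ)) d.card_T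
  have hcD : (Nat.card d.D : ℂ) = (Fintype.card k : ℂ) + (e : ℂ) := by
    exact_mod_cast congrArg (fun n : ℤ => (n : ℂ)) d.card_D
  have hcD₁ : (Nat.card d.D₁ : ℂ) = (Nat.card d.T : ℂ) := by rw [d.card_D₁]
  have hTne : (Nat.card d.T : ℂ) ≠ 0 := by
    exact_mod_cast Nat.card_pos.ne'
  have hkne : (Fintype.card k : ℂ) ≠ 0 := by
    exact_mod_cast Fintype.card_ne_zero
  set S1 : ℂ := ∑ g, (if g ∈ d.D₁ then d.chi ψ g * conj (1 : ℂ) else 0) with hS1
  set S2 : ℂ := ∑ g, (if g ∈ d.D then d.chi ψ g * conj (1 : ℂ) else 0) with hS2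
  set q : ℂ := (Fintype.card k : ℂ) with hqq
  set τ : ℂ := (Nat.card d.T : ℂ) with hτ
  set N : ℂ := (Fintype.card G : ℂ) with hN
  rw [hcD₁, hcD, ← hT]
  have hS2' : S2 = 2 * S1 - ((q - (e : ℂ)) / 2 + (e : ℂ) - (e : ℂ) * τ) := by
    rw [← s2]
    ring
  have he := e_sq hq
  have hqe : q = 2 * τ - (e : ℂ) := by rw [hT]; ring
  rw [hS2']
  field_simp
  rcases hq.2 with ⟨h, -⟩ | ⟨h, -⟩
  · rw [h] at hqe ⊢
    rw [hqe]
    push_cast
    ring
  · rw [h] at hqe ⊢
    rw [hqe]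
    push_cast
    ring

end StarkC.ABS
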