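import Pool.Agent.ABS.StP

/-!
# Project ABS (MP_46b841_nt), part P, module PPM: the conjugates of `Ind_U ψ`
-/

set_option autoImplicit false

open scoped Classical MatrixGroups ComplexConjugate

namespace StarkC.ABS

namespace PPMx

section

variable {k G : Type} [Field k] [Fintype k] [Group G] [Fintype G] {e : ℤ} (d : PD k G e)

include d

theorem u_zero : d.u 0 = 1 := by
  have h := d.u_add 0 0
  rw [add_zero] at h
  exact mul_eq_left.1 h.symm

theorem u_neg (b : k) : d.u (-b) = (d.u b)⁻¹ := by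
  rw [eq_inv_iff_mul_eq_one, ← d.u_add, neg_add_cancel, u_zero]

theorem ext_u (ψ : AddChar k ℂ) (b : k) : d.ext ψ (d.u b) = ψ b := by
  unfold PD.ext
  have h : ∃ c, d.u c = d.u b := ⟨b, rfl⟩
  rw [dif_pos h]
  rw [d.u_inj h.choose_spec]

theorem ext_out (ψ : AddChar k ℂ) {g : G} (h : g ∉ d.U) : d.ext ψ g = 0 := dif_neg h

theorem ind_U (ψ : AddChar k ℂ) (g : G) :
    indFun d.U (d.ext ψ) g = (∑ x : G, d.ext ψ (x⁻¹ * g * x)) / (Nat.card d.U : ℂ) := by
  unfold indFun
  congr 1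
  refine Finset.sum_congr rfl fun x _ => ?_
  split_ifs with h
  · rfl
  · exact (ext_out d ψ h).symm

theorem card_U : Nat.card d.U = Fintype.card k :=
  (show Nat.card (Set.range d.u) = _ from Nat.card_range_of_injective d.u_inj).trans
    Nat.card_eq_fintype_card

theorem t_u' (a : kˣ) (b : k) :
    d.t a * d.u b * (d.t a)⁻¹ = d.u (((a⁻¹ : kˣ) : k) ^ 2 * b) := by
  have h := d.t_u a (((a⁻¹ : kˣ) : k) ^ 2 * b)
  have h2 : (a : k) ^ 2 * (((a⁻¹ : kˣ) : k) ^ 2 * b) = b := by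
    rw [← mul_assoc, ← mul_pow, Units.mul_inv, one_pow, one_mul]
  rw [h2] at h
  rw [← h]
  group

theorem t_one' : d.t 1 = 1 := (d.t_one 1).2 (one_pow 2)

theorem t_inv (a : kˣ) : d.t a⁻¹ = (d.t a)⁻¹ := by
  rw [eq_inv_iff_mul_eq_one, ← d.t_mul, inv_mul_cancel, t_one']

theorem ext_conj (ψ : AddChar k ℂ) (a : kˣ) (h : G) :
    d.ext ψ ((d.t a)⁻¹ * h * d.t a) = d.ext (AddChar.mulShift ψ ((a : k) ^ 2)) h := by
  by_cases hh : h ∈ d.U
  · obtain ⟨b, rfl⟩ := hh
    rw [d.t_u, ext_u, ext_u, AddChar.mulShift_apply]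
  · rw [ext_out d _ hh, ext_out]
    rintro ⟨c, hc⟩
    exact hh ⟨_, by rw [← t_u' d a c, hc]; group⟩

theorem sum_inv (ψ : AddChar k ℂ) (a : kˣ) (g : G) :
    ∑ x : G, d.ext (AddChar.mulShift ψ ((a : k) ^ 2)) (x⁻¹ * g * x) =
      ∑ x : G, d.ext ψ (x⁻¹ * g * x) := by
  rw [← Equiv.sum_comp (Equiv.mulRight (d.t a)) fun x => d.ext ψ (x⁻¹ * g * x)]
  refine Finset.sum_congr rfl fun x _ => ?_
  rw [← ext_conj]
  congr 1
  rw [Equiv.coe_mulRight]
  group

theorem ind_inv (ψ : AddChar k ℂ) (a : kˣ) (g : G) :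
    indFun d.U (d.ext (AddChar.mulShift ψ ((a : k) ^ 2))) g = indFun d.U (d.ext ψ) g := by
  rw [ind_U, ind_U, sum_inv]

/-- `S ∩ U = 1` -/
theorem S_U (a : kˣ) (c : k) (h : d.t a = d.u c) : d.t a = 1 := by
  rw [d.t_one]
  have h1 := d.t_u a 1
  rw [h, ← u_neg, ← d.u_add, ← d.u_add, mul_one] at h1
  have h2 := d.u_inj h1
  have h3 : (a : k) ^ 2 = 1 := by
    rw [← h2]
    ring
  exact Units.ext (by rw [Units.val_pow_eq_pow_val, h3, Units.val_one])

/-- the homomorphism `t` -/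
noncomputable def tH : kˣ →* G where
  toFun := d.t
  map_one' := t_one' d
  map_mul' := d.t_mul

/-- `B` -/
def BB : Subgroup G where
  carrier := {x | ∃ (c : k) (a : kˣ), x = d.u c * d.t a}
  mul_mem' := by
    rintro _ _ ⟨c, a, rfl⟩ ⟨c', a', rfl⟩
    refine ⟨c + ((a⁻¹ : kˣ) : k) ^ 2 * c', a * a', ?_⟩
    rw [d.u_add, d.t_mul, ← t_u' d a c']
    group
  one_mem' := ⟨0, 1, by rw [u_zero, t_one', one_mul]⟩
  inv_mem' := by
    rintro _ ⟨c, a, rfl⟩
    refine ⟨(a : k) ^ 2 * (-c), a⁻¹, ?_⟩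
    rw [← d.t_u a (-c), t_inv, u_neg]
    group

theorem card_S (hodd : Odd (Fintype.card k)) :
    2 * (Nat.card (tH d).range : ℂ) = (Fintype.card k : ℂ) - 1 := by
  have hchar : (1 : kˣ) ≠ -1 := by
    intro h
    have h0 : (1 : k) = -1 := by
      have := congrArg Units.val h
      simpa using this
    have h2 : (2 : k) = 0 := by
      have : (1 : k) + 1 = 0 := by
        nth_rewrite 2 [h0]
        ring
      rw [← this]
      norm_num
    have h3 := FiniteField.cast_card_eq_zero k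
    obtain ⟨m, hm⟩ := hodd
    rw [hm] at h3
    push_cast at h3
    rw [h2, zero_mul, zero_add] at h3
    exact one_ne_zero h3
  have hker : Nat.card (tH d).ker = 2 := by
    have h1 : ((tH d).ker : Set kˣ) = {1, -1} := by
      ext a
      rw [SetLike.mem_coe, MonoidHom.mem_ker]
      show d.t a = 1 ↔ _
      rw [d.t_one, Set.mem_insert_iff, Set.mem_singleton_iff, pow_two]
      rw [← Units.val_inj, ← Units.val_inj, ← Units.val_inj, Units.val_mul, Units.val_one,
        Units.val_neg, Units.val_one]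
      exact mul_self_eq_one_iff
    have h2 : Nat.card (tH d).ker = Set.ncard ((tH d).ker : Set kˣ) := rfl
    rw [h2, h1]
    exact Set.ncard_pair hchar
  have hu : Nat.card kˣ = Fintype.card k - 1 := by
    rw [Nat.card_eq_fintype_card, Fintype.card_units]
  have h1 := Subgroup.card_mul_index (tH d).ker
  rw [Subgroup.index_ker, hker, hu] at h1
  have h2 : 1 ≤ Fintype.card k := Fintype.card_pos
  have h3 : ((2 * Nat.card (tH d).range : ℕ) : ℂ) = ((Fintype.card k - 1 : ℕ) : ℂ) := by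
    rw [h1]
  rw [Nat.cast_mul, Nat.cast_sub h2] at h3
  exact_mod_cast h3

theorem card_B : Nat.card (BB d) = Fintype.card k * Nat.card (tH d).range := by
  rw [← Nat.card_eq_fintype_card (α := k), ← Nat.card_prod]
  symm
  refine Nat.card_congr (Equiv.ofBijective (fun p : k × (tH d).range =>
    (⟨d.u p.1 * (p.2 : G), by
      obtain ⟨a, ha⟩ := p.2.2
      exact ⟨p.1, a, by rw [← ha]; rfl⟩⟩ : BB d)) ⟨?_, ?_⟩)
  · rintro ⟨c, s, a, rfl⟩ ⟨c', s', a', rfl⟩ h
    have h1 : d.u c * d.t a = d.u c' * d.t a' := congrArg Subtype.val h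
    have h2 : d.t (a' * a⁻¹) = d.u (-c' + c) := by
      rw [d.t_mul, d.u_add, t_inv, u_neg, mul_inv_eq_iff_eq_mul, mul_assoc, h1]
      group
    have h3 := S_U d _ _ h2
    have h4 : d.u (-c' + c) = d.u 0 := by rw [← h2, h3, u_zero]
    have h5 : c = c' := by
      have := d.u_inj h4
      linear_combination this
    subst h5
    have h6 : d.t a = d.t a' := mul_left_cancel h1
    exact Prod.ext rfl (Subtype.ext h6)
  · rintro ⟨x, c, a, rfl⟩
    exact ⟨(c, ⟨d.t a, a, rfl⟩), rfl⟩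

theorem conj_form (c x : k) (a : kˣ) :
    (d.u x)⁻¹ * (d.u c * d.t a) * d.u x = d.u (c - x + ((a⁻¹ : kˣ) : k) ^ 2 * x) * d.t a := by
  rw [sub_eq_add_neg, add_comm c, d.u_add, d.u_add, u_neg, ← t_u' d a x]
  group

theorem mem_S (g : G) : g ∈ (tH d).range ↔ ∃ a, d.t a = g := Iff.rfl

theorem mem_B (g : G) : g ∈ BB d ↔ ∃ (c : k) (a : kˣ), g = d.u c * d.t a := Iff.rfl

/-- the indicator -/
noncomputable def I (P : Prop) : ℂ := if P then 1 else 0

omit [Field k] [Fintype k] [Group G] [Fintype G] d in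
theorem I_pos {P : Prop} (h : P) : I P = 1 := if_pos h

omit [Field k] [Fintype k] [Group G] [Fintype G] d in
theorem I_neg {P : Prop} (h : ¬ P) : I P = 0 := if_neg h

theorem pt (h : G) :
    ∑ x : k, (I ((d.u x)⁻¹ * h * d.u x ∈ (tH d).range) - I ((d.u x)⁻¹ * h * d.u x = 1)) =
      I (h ∈ BB d) - I (h ∈ d.U) := by
  by_cases hU : h ∈ d.U
  · obtain ⟨b, rfl⟩ := hU
    have hB : d.u b ∈ BB d := ⟨b, 1, by rw [t_one', mul_one]⟩
    have hU' : d.u b ∈ d.U := ⟨b, rfl⟩
    rw [I_pos hB, I_pos hU', sub_self]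
    refine Finset.sum_eq_zero fun x _ => ?_
    have h1 : (d.u x)⁻¹ * d.u b * d.u x = d.u b := by
      rw [← u_neg, ← d.u_add, ← d.u_add]
      congr 1
      ring
    rw [h1]
    by_cases h2 : d.u b = 1
    · rw [I_pos h2, I_pos (by rw [h2]; exact one_mem _), sub_self]
    · rw [I_neg h2, I_neg, sub_self]
      rintro ⟨a, ha⟩
      exact h2 (by rw [← ha]; exact S_U d a b ha)
  · rw [I_neg hU, sub_zero]
    have hone : ∀ x : k, (d.u x)⁻¹ * h * d.u x ≠ 1 := by
      intro x hx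
      apply hU
      refine ⟨0, ?_⟩
      rw [u_zero]
      have : h = d.u x * ((d.u x)⁻¹ * h * d.u x) * (d.u x)⁻¹ := by group
      rw [this, hx]
      group
    rw [Finset.sum_congr rfl fun x _ => by rw [I_neg (hone x), sub_zero]]
    by_cases hB : h ∈ BB d
    · rw [I_pos hB]
      obtain ⟨c, a, rfl⟩ := hB
      have ha : (a : k) ^ 2 ≠ 1 := by
        intro h2
        apply hU
        have h3 : d.t a = 1 := (d.t_one a).2 (Units.ext (by
          rw [Units.val_pow_eq_pow_val, h2, Units.val_one]))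
        exact ⟨c, by rw [h3, mul_one]⟩
      have ha2 : 1 - ((a⁻¹ : kˣ) : k) ^ 2 ≠ 0 := by
        intro h2
        apply ha
        have h3 : ((a⁻¹ : kˣ) : k) ^ 2 = 1 := by linear_combination -h2
        have h4 : (a : k) ^ 2 * ((a⁻¹ : kˣ) : k) ^ 2 = 1 := by
          rw [← mul_pow, Units.mul_inv, one_pow]
        rw [h3, mul_one] at h4
        exact h4
      rw [Finset.sum_eq_single (c / (1 - ((a⁻¹ : kˣ) : k) ^ 2))]
      · rw [I_pos]
        rw [conj_form]
        refine ⟨a, ?_⟩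
        have h5 : c - c / (1 - ((a⁻¹ : kˣ) : k) ^ 2) +
            ((a⁻¹ : kˣ) : k) ^ 2 * (c / (1 - ((a⁻¹ : kˣ) : k) ^ 2)) = 0 := by
          have h6 : c / (1 - ((a⁻¹ : kˣ) : k) ^ 2) * (1 - ((a⁻¹ : kˣ) : k) ^ 2) = c :=
            div_mul_cancel₀ _ ha2
          linear_combination -h6
        rw [h5, u_zero, one_mul]
        rfl
      · intro x _ hx
        rw [I_neg]
        rw [conj_form]
        rintro ⟨a', ha'⟩
        apply hx
        have h5 : d.t (a' * a⁻¹) = d.u (c - x + ((a⁻¹ : kˣ) : k) ^ 2 * x) := by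
          rw [d.t_mul, t_inv, mul_inv_eq_iff_eq_mul]
          exact ha'
        have h6 := S_U d _ _ h5
        have h7 : d.u (c - x + ((a⁻¹ : kˣ) : k) ^ 2 * x) = d.u 0 := by rw [← h5, h6, u_zero]
        have h8 := d.u_inj h7
        rw [eq_div_iff ha2]
        linear_combination -h8
      · intro h6
        exact absurd (Finset.mem_univ _) h6
    · rw [I_neg hB]
      refine Finset.sum_eq_zero fun x _ => ?_
      rw [I_neg]
      rintro ⟨a, ha⟩
      apply hB
      have h1 : h = d.u x * d.t a * (d.u x)⁻¹ := by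
        have h2 : d.t a = (d.u x)⁻¹ * h * d.u x := ha
        rw [h2]
        group
      rw [h1]
      exact mul_mem (mul_mem ⟨x, 1, by rw [t_one', mul_one]⟩ ⟨0, a, by rw [u_zero, one_mul]⟩)
        (inv_mem ⟨x, 1, by rw [t_one', mul_one]⟩)

/-- the numbers of the `x` -/
noncomputable def cn (P : G → Prop) (g : G) : ℂ := ∑ x : G, I (P (x⁻¹ * g * x))

omit [Field k] [Fintype k] d in
theorem ind_one (H : Subgroup G) (g : G) :
    indFun H (fun _ => 1) g = cn (fun x => x ∈ H) g / (Nat.card H : ℂ) := rfl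

omit [Field k] [Fintype k] d in
theorem cn_shift (P : G → Prop) (g y : G) :
    ∑ x : G, I (P (y⁻¹ * (x⁻¹ * g * x) * y)) = cn P g := by
  unfold cn
  refine Eq.trans ?_ (Equiv.sum_comp (Equiv.mulRight y) fun x : G => I (P (x⁻¹ * g * x)))
  refine Finset.sum_congr rfl fun x _ => ?_
  have h2 : (Equiv.mulRight y x)⁻¹ * g * (Equiv.mulRight y x) = y⁻¹ * (x⁻¹ * g * x) * y := by
    rw [Equiv.coe_mulRight]
    group
  rw [h2]

theorem count (g : G) :
    (Fintype.card k : ℂ) * (cn (fun x => x ∈ (tH d).range) g - cn (fun x => x = 1) g) =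
      cn (fun x => x ∈ BB d) g - cn (fun x => x ∈ d.U) g := by
  have h1 : ∀ y : k, ∑ x : G, (I ((d.u y)⁻¹ * (x⁻¹ * g * x) * d.u y ∈ (tH d).range) -
      I ((d.u y)⁻¹ * (x⁻¹ * g * x) * d.u y = 1)) =
      cn (fun x => x ∈ (tH d).range) g - cn (fun x => x = 1) g := by
    intro y
    rw [Finset.sum_sub_distrib]
    congr 1
    · exact cn_shift (fun x => x ∈ (tH d).range) g (d.u y)
    · exact cn_shift (fun x => x = 1) g (d.u y)
  have h3 : ∑ y : k, ∑ x : G, (I ((d.u y)⁻¹ * (x⁻¹ * g * x) * d.u y ∈ (tH d).range) -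
      I ((d.u y)⁻¹ * (x⁻¹ * g * x) * d.u y = 1)) =
      (Fintype.card k : ℂ) *
        (cn (fun x => x ∈ (tH d).range) g - cn (fun x => x = 1) g) := by
    rw [Finset.sum_congr rfl fun y _ => h1 y, Finset.sum_const, Finset.card_univ, nsmul_eq_mul]
  rw [← h3, Finset.sum_comm]
  unfold cn
  rw [← Finset.sum_sub_distrib]
  exact Finset.sum_congr rfl fun x _ => pt d _

/-! ### the sum over the conjugates -/

omit d [Group G] [Fintype G] in
theorem t_ne {t : ℕ} (ht : (ringChar k).Coprime t) : (t : k) ≠ 0 := by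
  intro h
  have h1 : ringChar k ∣ t := (ringChar.spec k t).1 h
  have h2 : ringChar k = 1 := Nat.Coprime.eq_one_of_dvd ht h1
  have h3 : (ringChar k).Prime := CharP.char_is_prime k (ringChar k)
  exact h3.one_lt.ne' h2

omit [Group G] [Fintype G] d in
theorem sumf (hPSQ : Stmt_PSQ) (hodd : Odd (Fintype.card k)) (hsq : ¬ IsSquare (Fintype.card k))
    (f : k → ℂ) :
    ∑ t ∈ (Finset.range (ringChar k)).filter (fun t => (ringChar k).Coprime t),
      ∑ a : kˣ, f ((t : k) * (a : k) ^ 2) =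
      ((ringChar k : ℂ) - 1) * (∑ c : k, f c - f 0) := by
  have h1 := (hPSQ k hodd hsq).2
  have h2 : ((ringChar k : ℂ) - 1) * (∑ c : k, f c - f 0) =
      ∑ c ∈ Finset.univ.erase (0 : k), ((ringChar k : ℂ) - 1) * f c := by
    rw [← Finset.mul_sum, Finset.sum_erase_eq_sub (Finset.mem_univ _)]
  rw [h2]
  have h3 : ∀ c ∈ Finset.univ.erase (0 : k), ((ringChar k : ℂ) - 1) * f c =
      ∑ t ∈ (Finset.range (ringChar k)).filter (fun t => (ringChar k).Coprime t),
        ∑ a : kˣ, (if (t : k) * (a : k) ^ 2 = c then f c else 0) :=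
    fun c hc => (h1 c (Finset.ne_of_mem_erase hc) f).symm
  rw [Finset.sum_congr rfl h3]
  symm
  rw [Finset.sum_comm]
  refine Finset.sum_congr rfl fun t ht => ?_
  rw [Finset.sum_comm]
  refine Finset.sum_congr rfl fun a _ => ?_
  rw [Finset.sum_ite_eq, if_pos]
  rw [Finset.mem_erase]
  exact ⟨mul_ne_zero (t_ne (Finset.mem_filter.1 ht).2) (pow_ne_zero _ a.ne_zero),
    Finset.mem_univ _⟩

theorem Dh (hPSQ : Stmt_PSQ) (hodd : Odd (Fintype.card k)) (hsq : ¬ IsSquare (Fintype.card k))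
    (ψ : AddChar k ℂ) (hψ : ψ ≠ 1) (h : G) :
    ∑ t ∈ (Finset.range (ringChar k)).filter (fun t => (ringChar k).Coprime t),
      ∑ a : kˣ, d.ext (AddChar.mulShift (ψ ^ t) ((a : k) ^ 2)) h =
      ((ringChar k : ℂ) - 1) * ((Fintype.card k : ℂ) * I (h = 1) - I (h ∈ d.U)) := by
  by_cases hU : h ∈ d.U
  · obtain ⟨b, rfl⟩ := hU
    have hU' : d.u b ∈ d.U := ⟨b, rfl⟩
    rw [I_pos hU']
    have h1 := sumf hPSQ hodd hsq (fun c => ψ (c * b))
    have h2 := AddChar.sum_mulShift b (AddChar.IsPrimitive.of_ne_one hψ)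
    have h3 : I (d.u b = 1) = if b = 0 then 1 else 0 := by
      by_cases hb : b = 0
      · rw [if_pos hb, I_pos (by rw [hb, u_zero])]
      · rw [if_neg hb, I_neg]
        intro h4
        exact hb (d.u_inj (h4.trans (u_zero d).symm))
    rw [h3]
    have h4 : ∑ c : k, ψ (c * b) - ψ (0 * b) =
        (Fintype.card k : ℂ) * (if b = 0 then 1 else 0) - 1 := by
      rw [h2, zero_mul, AddChar.map_zero_eq_one]
      by_cases hb : b = 0
      · rw [if_pos hb, if_pos hb, mul_one]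
      · rw [if_neg hb, if_neg hb, mul_zero, Nat.cast_zero]
    rw [← h4, ← h1]
    refine Finset.sum_congr rfl fun t _ => Finset.sum_congr rfl fun a _ => ?_
    rw [ext_u, AddChar.mulShift_apply, AddChar.pow_mulShift, AddChar.mulShift_apply]
    congr 1
    ring
  · have h1 : h ≠ 1 := by
      rintro rfl
      exact hU (one_mem _)
    rw [I_neg hU, I_neg h1, mul_zero, sub_zero, mul_zero]
    exact Finset.sum_eq_zero fun t _ => Finset.sum_eq_zero fun a _ => ext_out d _ hU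

theorem left (hPSQ : Stmt_PSQ) (hodd : Odd (Fintype.card k)) (hsq : ¬ IsSquare (Fintype.card k))
    (ψ : AddChar k ℂ) (hψ : ψ ≠ 1) (g : G) :
    ((Fintype.card k : ℂ) - 1) * ∑ t ∈ (Finset.range (ringChar k)).filter
      (fun t => (ringChar k).Coprime t), ∑ x : G, d.ext (ψ ^ t) (x⁻¹ * g * x) =
      ((ringChar k : ℂ) - 1) * ((Fintype.card k : ℂ) * cn (fun x => x = 1) g -
        cn (fun x => x ∈ d.U) g) := by
  have hu : (Fintype.card kˣ : ℂ) = (Fintype.card k : ℂ) - 1 := by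
    rw [Fintype.card_units, Nat.cast_sub Fintype.card_pos, Nat.cast_one]
  have h1 : ∀ t : ℕ, ((Fintype.card k : ℂ) - 1) * ∑ x : G, d.ext (ψ ^ t) (x⁻¹ * g * x) =
      ∑ x : G, ∑ a : kˣ, d.ext (AddChar.mulShift (ψ ^ t) ((a : k) ^ 2)) (x⁻¹ * g * x) := by
    intro t
    rw [Finset.sum_comm, Finset.sum_congr rfl fun a _ => sum_inv d (ψ ^ t) a g, Finset.sum_const,
      Finset.card_univ, nsmul_eq_mul, hu]
  rw [Finset.mul_sum, Finset.sum_congr rfl fun t _ => h1 t, Finset.sum_comm]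
  rw [Finset.sum_congr rfl fun x _ => Dh d hPSQ hodd hsq ψ hψ _]
  unfold cn
  rw [← Finset.mul_sum, Finset.sum_sub_distrib, ← Finset.mul_sum]

theorem part4 (hPSQ : Stmt_PSQ) (hodd : Odd (Fintype.card k)) (hsq : ¬ IsSquare (Fintype.card k))
    (hq : 5 ≤ Fintype.card k) (ψ : AddChar k ℂ) (hψ : ψ ≠ 1) (g : G) :
    ∑ t ∈ (Finset.range (ringChar k)).filter
      (fun t => (ringChar k).Coprime t), indFun d.U (d.ext (ψ ^ t)) g =
      ((ringChar k : ℂ) - 1) / 2 * (indFun (tH d).range (fun _ => 1) g -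
        indFun (BB d) (fun _ => 1) g) := by
  have h1 := left d hPSQ hodd hsq ψ hψ g
  have h2 := card_S d hodd
  have h3 := count d g
  rw [Finset.sum_congr rfl fun t _ => ind_U d (ψ ^ t) g, ← Finset.sum_div, card_U, ind_one,
    ind_one, card_B]
  rw [← h2] at h1
  have hq0 : (Fintype.card k : ℂ) ≠ 0 := by
    have : 0 < Fintype.card k := by omega
    exact_mod_cast this.ne'
  have hs0 : (Nat.card (tH d).range : ℂ) ≠ 0 := by
    intro h
    rw [h, mul_zero] at h2
    have h4 : (Fintype.card k : ℂ) = 1 := by linear_combination -h2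
    have h5 : Fintype.card k = 1 := by exact_mod_cast h4
    omega
  rw [Nat.cast_mul]
  set s : ℂ := (Nat.card (tH d).range : ℂ)
  set q : ℂ := (Fintype.card k : ℂ)
  set X := ∑ t ∈ (Finset.range (ringChar k)).filter
      (fun t => (ringChar k).Coprime t), ∑ x : G, d.ext (ψ ^ t) (x⁻¹ * g * x)
  field_simp
  linear_combination h1 - ((ringChar k : ℂ) - 1) * h3

end

end PPMx

open PPMx in
theorem PPM_thm : Stmt_PPM := by
  intro hPGS hPVU hPSQ k G _ _ _ _ e d ψ hgood hsq hψ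
  have hodd : Odd (Fintype.card k) := by
    rw [← Nat.not_even_iff_odd, Nat.even_iff]
    rcases hgood.2 with h | h <;> omega
  have hq0 : (Fintype.card k : ℂ) ≠ 0 := by
    have : 0 < Fintype.card k := Fintype.card_pos
    exact_mod_cast this.ne'
  have hodd' := hodd
  have hval : ∀ (χ : AddChar k ℂ) (b : k), b ≠ 0 →
      indFun d.U (d.ext χ) (d.u b) = (∑ a : kˣ, χ ((a : k) ^ 2 * b)) / 2 :=
    fun χ b hb => (hPVU k G e d χ hgood).2.1 b hb
  refine ⟨fun t ht hts g => ?_, fun t ht h => ?_, fun h => ?_, (tH d).range, BB d,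
    fun g => part4 d hPSQ hodd hsq hgood.1 ψ hψ g⟩
  · obtain ⟨s, hs⟩ := hts
    have hs0 : s ≠ 0 := by
      rintro rfl
      exact t_ne ht (by rw [hs, mul_zero])
    have h1 := ind_inv d ψ (Units.mk0 s hs0) g
    rw [Units.val_mk0, pow_two, ← hs, ← AddChar.pow_mulShift] at h1
    exact h1
  · by_contra hns
    have ht0 : (t : k) ≠ 0 := t_ne ht
    have hψt : ψ ^ t ≠ 1 := by
      intro h1
      apply hψ
      ext c
      have h2 : (ψ ^ t) ((t : k)⁻¹ * c) = 1 := by rw [h1, AddChar.one_apply]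
      rw [AddChar.pow_mulShift, AddChar.mulShift_apply, mul_inv_cancel_left₀ ht0] at h2
      rw [h2, AddChar.one_apply]
    have key : ∀ b : k, ∑ a : kˣ, (ψ ^ t) ((a : k) ^ 2 * b) = ∑ a : kˣ, ψ ((a : k) ^ 2 * b) := by
      intro b
      by_cases hb : b = 0
      · rw [hb]
        simp only [mul_zero, AddChar.map_zero_eq_one]
      · have h1 := h b hb
        rw [hval _ b hb, hval _ b hb] at h1
        linear_combination 2 * h1
    have h1 := ((hPGS k (ψ ^ t) hodd hψt).1 1 one_ne_zero).1 ⟨1, by ring⟩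
    have h2 := ((hPGS k ψ hodd hψ).1 t ht0).2 hns
    have h3 : ∑ b : k, (∑ a : kˣ, (ψ ^ t) ((a : k) ^ 2 * b)) * (ψ ^ t) (-(1 * b)) =
        ∑ b : k, (∑ a : kˣ, ψ ((a : k) ^ 2 * b)) * ψ (-((t : k) * b)) := by
      refine Finset.sum_congr rfl fun b _ => ?_
      rw [key b, AddChar.pow_mulShift, AddChar.mulShift_apply]
      congr 2
      ring
    rw [h3, h2] at h1
    exact hq0 (by linear_combination -h1 / 2)
  · by_contra hns
    have key : ∀ b : k, ∑ a : kˣ, ψ ((a : k) ^ 2 * -b) = ∑ a : kˣ, ψ ((a : k) ^ 2 * b) := by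
      intro b
      by_cases hb : b = 0
      · rw [hb]
        simp only [mul_zero, neg_zero]
      · have h1 := h b hb
        rw [hval _ b hb, hval _ (-b) (neg_ne_zero.2 hb)] at h1
        linear_combination 2 * h1
    have h1 := ((hPGS k ψ hodd hψ).1 1 one_ne_zero).1 ⟨1, by ring⟩
    have h2 := ((hPGS k ψ hodd hψ).1 (-1) (neg_ne_zero.2 one_ne_zero)).2 hns
    have h3 : ∑ b : k, (∑ a : kˣ, ψ ((a : k) ^ 2 * b)) * ψ (-(-1 * b)) =
        ∑ b : k, (∑ a : kˣ, ψ ((a : k) ^ 2 * b)) * ψ (-(1 * b)) := by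
      rw [← Equiv.sum_comp (Equiv.neg k)]
      refine Finset.sum_congr rfl fun b _ => ?_
      rw [Equiv.neg_apply, key b]
      congr 2
      ring
    rw [← h3, h2] at h1
    exact hq0 (by linear_combination -h1 / 2)

end StarkC.ABS
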