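import Pool.Agent.ABS.StP

/-!
# The restriction of `ρ` to the unipotent elements (module PRU)
-/

set_option autoImplicit false

open scoped Classical MatrixGroups ComplexConjugate

namespace StarkC.ABS

namespace PRUx

section Fourier

variable {k V : Type} [Field k] [Fintype k] [AddCommGroup V] [Module ℂ V] [Module.Finite ℂ V]

/-- the projection to the `ψ(c ·)`-part -/
noncomputable def P (r : k → Module.End ℂ V) (ψ : AddChar k ℂ) (c : k) : Module.End ℂ V :=
  (Fintype.card k : ℂ)⁻¹ • ∑ b, ψ (-(c * b)) • r b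

/-- the multiplicity -/
noncomputable def mu (r : k → Module.End ℂ V) (ψ : AddChar k ℂ) (c : k) : ℕ :=
  Module.finrank ℂ (LinearMap.range (P r ψ c))

variable {r : k → Module.End ℂ V} {ψ : AddChar k ℂ}

omit [Field k] in
lemma card_ne [Nonempty k] : (Fintype.card k : ℂ) ≠ 0 := Nat.cast_ne_zero.2 Fintype.card_ne_zero

omit [Module.Finite ℂ V] in
lemma r_mul_P (hadd : ∀ a b, r (a + b) = r a * r b) (b c : k) :
    r b * P r ψ c = ψ (c * b) • P r ψ c := by
  unfold P
  rw [mul_smul_comm, smul_comm (ψ (c * b))]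
  congr 1
  rw [Finset.mul_sum, Finset.smul_sum]
  refine Fintype.sum_equiv (Equiv.addLeft b) _ _ fun x => ?_
  rw [mul_smul_comm, ← hadd, Equiv.coe_addLeft, smul_smul, ← AddChar.map_add_eq_mul]
  congr 2
  ring

omit [Module.Finite ℂ V] in
lemma P_idem (hadd : ∀ a b, r (a + b) = r a * r b) (c : k) : IsIdempotentElem (P r ψ c) := by
  change P r ψ c * P r ψ c = P r ψ c
  calc P r ψ c * P r ψ c
      = ((Fintype.card k : ℂ)⁻¹ • ∑ b, ψ (-(c * b)) • r b) * P r ψ c := rfl
    _ = (Fintype.card k : ℂ)⁻¹ • ∑ _b : k, P r ψ c := by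
        rw [smul_mul_assoc, Finset.sum_mul]
        congr 1
        refine Finset.sum_congr rfl fun b _ => ?_
        rw [smul_mul_assoc, r_mul_P hadd, smul_smul, ← AddChar.map_add_eq_mul, neg_add_cancel,
          AddChar.map_zero_eq_one, one_smul]
    _ = P r ψ c := by
        rw [Finset.sum_const, Finset.card_univ, ← Nat.cast_smul_eq_nsmul ℂ, smul_smul,
          inv_mul_cancel₀ card_ne, one_smul]

lemma sum_char (hψ : ψ.IsPrimitive) (x : k) :
    ∑ c, ψ (c * x) = if x = 0 then (Fintype.card k : ℂ) else 0 := by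
  rw [AddChar.sum_mulShift x hψ]
  split_ifs <;> simp

omit [Module.Finite ℂ V] in
lemma sum_P (hψ : ψ.IsPrimitive) (b : k) : ∑ c, ψ (c * b) • P r ψ c = r b := by
  have h : ∀ c, ψ (c * b) • P r ψ c =
      (Fintype.card k : ℂ)⁻¹ • ∑ b', ψ (c * (b - b')) • r b' := by
    intro c
    unfold P
    rw [smul_comm, Finset.smul_sum]
    congr 1
    refine Finset.sum_congr rfl fun b' _ => ?_
    rw [smul_smul, ← AddChar.map_add_eq_mul]
    congr 2
    ring
  rw [Finset.sum_congr rfl fun c _ => h c, ← Finset.smul_sum, Finset.sum_comm]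
  have h2 : ∀ b', ∑ c, ψ (c * (b - b')) • r b' =
      if b = b' then (Fintype.card k : ℂ) • r b' else 0 := by
    intro b'
    rw [← Finset.sum_smul, sum_char hψ]
    by_cases h : b = b'
    · rw [if_pos (by rw [h, sub_self]), if_pos h]
    · rw [if_neg (sub_ne_zero.2 h), if_neg h, zero_smul]
  rw [Finset.sum_congr rfl fun b' _ => h2 b', Finset.sum_ite_eq, if_pos (Finset.mem_univ _),
    smul_smul, inv_mul_cancel₀ card_ne, one_smul]

lemma tr_P (hadd : ∀ a b, r (a + b) = r a * r b) (c : k) :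
    LinearMap.trace ℂ V (P r ψ c) = (mu r ψ c : ℂ) :=
  LinearMap.IsProj.trace ((LinearMap.isProj_range_iff_isIdempotentElem _).2 (P_idem hadd c))

lemma tr_r (hadd : ∀ a b, r (a + b) = r a * r b) (hψ : ψ.IsPrimitive) (b : k) :
    LinearMap.trace ℂ V (r b) = ∑ c, ψ (c * b) * (mu r ψ c : ℂ) := by
  conv_lhs => rw [← sum_P (r := r) hψ b]
  rw [map_sum]
  refine Finset.sum_congr rfl fun c _ => ?_
  rw [map_smul, smul_eq_mul, tr_P hadd]

lemma P_zero (c : k) (h : mu r ψ c = 0) : P r ψ c = 0 := by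
  unfold mu at h
  rw [Submodule.finrank_eq_zero] at h
  exact LinearMap.range_eq_bot.1 h

lemma mu_sq (hadd : ∀ a b, r (a + b) = r a * r b)
    (hc : ∀ (a : kˣ) (b : k), LinearMap.trace ℂ V (r ((a : k) ^ 2 * b)) =
      LinearMap.trace ℂ V (r b)) (a : kˣ) (c : k) :
    mu r ψ ((a : k) ^ 2 * c) = mu r ψ c := by
  have h : ∀ c, (mu r ψ c : ℂ) = (Fintype.card k : ℂ)⁻¹ *
      ∑ b, ψ (-(c * b)) * LinearMap.trace ℂ V (r b) := by
    intro c
    rw [← tr_P hadd]
    unfold P
    rw [map_smul, smul_eq_mul, map_sum]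
    congr 1
    refine Finset.sum_congr rfl fun b _ => ?_
    rw [map_smul, smul_eq_mul]
  have h1 : (mu r ψ ((a : k) ^ 2 * c) : ℂ) = (mu r ψ c : ℂ) := by
    rw [h, h]
    congr 1
    refine Fintype.sum_equiv (Units.mulLeft (a ^ 2)) _ _ fun b => ?_
    change _ = ψ (-(c * (((a ^ 2 : kˣ) : k) * b))) *
      LinearMap.trace ℂ V (r (((a ^ 2 : kˣ) : k) * b))
    rw [Units.val_pow_eq_pow_val, hc]
    congr 3
    ring
  exact_mod_cast h1

end Fourier

section Count

variable {k : Type} [Field k] [Fintype k]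

lemma sum_units (f : k → ℂ) : f 0 + ∑ a : kˣ, f a = ∑ x : k, f x := by
  rw [← Finset.add_sum_erase Finset.univ f (Finset.mem_univ 0), add_right_inj]
  refine Finset.sum_bij (fun a _ => (a : k)) ?_ ?_ ?_ ?_
  · intro a _
    simp
  · intro a _ b _ h
    exact Units.ext h
  · intro x hx
    exact ⟨Units.mk0 x (by simpa using hx), Finset.mem_univ _, rfl⟩
  · intro a _
    rfl

lemma sum_sq (h2 : ringChar k ≠ 2) (f : k → ℂ) :
    ∑ x : k, f (x ^ 2) = ∑ c, (((quadraticChar k c : ℤ) : ℂ) + 1) * f c := by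
  rw [← Finset.sum_fiberwise_of_maps_to (t := Finset.univ) (g := fun x : k => x ^ 2)
    (fun _ _ => Finset.mem_univ _)]
  refine Finset.sum_congr rfl fun c _ => ?_
  rw [Finset.sum_congr rfl (g := fun _ => f c)
    (fun x hx => by rw [(Finset.mem_filter.1 hx).2]), Finset.sum_const, nsmul_eq_mul]
  congr 1
  have h := quadraticChar_card_sqrts h2 c
  have h3 : Finset.univ.filter (fun x : k => x ^ 2 = c) = {x : k | x ^ 2 = c}.toFinset := by
    ext x
    simp
  rw [h3]
  exact_mod_cast h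

lemma ringChar_ne (h : Odd (Fintype.card k)) : ringChar k ≠ 2 := by
  intro h2
  have h3 := FiniteField.even_card_iff_char_two.1 h2
  have h4 := Nat.odd_iff.1 h
  omega

lemma sum_split (hodd : Odd (Fintype.card k)) (ν : k) (hν : ¬ IsSquare ν) (f : k → ℂ) :
    2 * ∑ c, f c = 2 * f 0 + ∑ a : kˣ, f ((a : k) ^ 2) + ∑ a : kˣ, f (ν * (a : k) ^ 2) := by
  have h2 := ringChar_ne hodd
  have hν0 : ν ≠ 0 := by
    rintro rfl
    exact hν ⟨0, by simp⟩
  have e1 : f 0 + ∑ a : kˣ, f ((a : k) ^ 2) =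
      ∑ c, (((quadraticChar k c : ℤ) : ℂ) + 1) * f c := by
    have h4 := sum_units (fun x : k => f (x ^ 2))
    simp only [ne_eq, OfNat.ofNat_ne_zero, not_false_eq_true, zero_pow] at h4
    rw [h4, sum_sq h2]
  have e2 : f 0 + ∑ a : kˣ, f (ν * (a : k) ^ 2) =
      ∑ c, (1 - ((quadraticChar k c : ℤ) : ℂ)) * f c := by
    have h3 := sum_sq h2 (fun c => f (ν * c))
    have h4 := sum_units (fun x : k => f (ν * x ^ 2))
    simp only [ne_eq, OfNat.ofNat_ne_zero, not_false_eq_true, zero_pow, mul_zero] at h4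
    rw [h4, h3]
    refine Fintype.sum_equiv (Equiv.mulLeft₀ ν hν0) _ _ fun c => ?_
    rw [Equiv.mulLeft₀_apply, map_mul, quadraticChar_neg_one_iff_not_isSquare.2 hν]
    push_cast
    ring
  have e3 : ∑ c, (((quadraticChar k c : ℤ) : ℂ) + 1) * f c +
      ∑ c, (1 - ((quadraticChar k c : ℤ) : ℂ)) * f c = 2 * ∑ c, f c := by
    rw [← Finset.sum_add_distrib, Finset.mul_sum]
    refine Finset.sum_congr rfl fun c _ => ?_
    ring
  linear_combination -e3 - e1 - e2

end Count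

end PRUx

open PRUx in
/-- PRU: the restriction of `ρ` to `U`. -/
theorem PRU_thm : Stmt_PRU := by
  intro hPGS k G V _ _ _ _ e d _ _ _ ρ hQ hdim hne
  obtain ⟨ψ, hψx⟩ := AddChar.exists_apply_ne_zero.2 (one_ne_zero : (1 : k) ≠ 0)
  have hψ1 : ψ ≠ 1 := by
    rintro rfl
    exact hψx (AddChar.one_apply _)
  have hψ : ψ.IsPrimitive := AddChar.IsPrimitive.of_ne_one hψ1
  let r : k → Module.End ℂ V := fun b => ρ (d.u b)
  have hadd : ∀ a b, r (a + b) = r a * r b := by
    intro a b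
    change ρ (d.u (a + b)) = ρ (d.u a) * ρ (d.u b)
    rw [d.u_add, map_mul]
  have hc : ∀ (a : kˣ) (b : k), LinearMap.trace ℂ V (r ((a : k) ^ 2 * b)) =
      LinearMap.trace ℂ V (r b) := by
    intro a b
    have h := ρ.char_conj (d.u b) (d.t a)⁻¹
    rw [inv_inv, d.t_u] at h
    exact h
  have hu0 : d.u 0 = 1 := by
    have h := d.u_add 0 0
    rw [add_zero] at h
    exact (mul_eq_left.1 h.symm)
  have hq5 := hQ.1
  have hodd : Odd (Fintype.card k) := by
    rw [Nat.odd_iff]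
    rcases hQ.2 with ⟨_, h⟩ | ⟨_, h⟩ <;> omega
  obtain ⟨ν, hν⟩ := FiniteField.exists_nonsquare (ringChar_ne hodd)
  have hν0 : ν ≠ 0 := by
    rintro rfl
    exact hν ⟨0, by simp⟩
  -- the multiplicities
  have hsq : ∀ a : kˣ, mu r ψ ((a : k) ^ 2) = mu r ψ 1 := by
    intro a
    have h := mu_sq (ψ := ψ) hadd hc a 1
    rwa [mul_one] at h
  have hns : ∀ a : kˣ, mu r ψ (ν * (a : k) ^ 2) = mu r ψ ν := by
    intro a
    have h := mu_sq (ψ := ψ) hadd hc a ν
    rwa [mul_comm] at h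
  have hchar : ∀ b, ρ.character (d.u b) = (mu r ψ 0 : ℂ) +
      ((mu r ψ 1 : ℂ) * ∑ a : kˣ, ψ ((a : k) ^ 2 * b) +
        (mu r ψ ν : ℂ) * ∑ a : kˣ, ψ (ν * ((a : k) ^ 2 * b))) / 2 := by
    intro b
    have h1 : ρ.character (d.u b) = ∑ c, ψ (c * b) * (mu r ψ c : ℂ) := tr_r hadd hψ b
    have h2 := sum_split hodd ν hν (fun c => ψ (c * b) * (mu r ψ c : ℂ))
    simp only [zero_mul, AddChar.map_zero_eq_one, one_mul, hsq, hns] at h2
    rw [← Finset.sum_mul, ← Finset.sum_mul] at h2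
    rw [h1]
    simp only [mul_assoc] at h2
    linear_combination (1 / 2 : ℂ) * h2
  have hcardu : ∀ x : ℂ, ∑ _a : kˣ, x = ((Fintype.card k : ℂ) - 1) * x := by
    intro x
    have h := sum_units (fun _ : k => x)
    have h2 : ∑ _x : k, x = (Fintype.card k : ℂ) * x := by
      rw [Finset.sum_const, Finset.card_univ, nsmul_eq_mul]
    rw [h2] at h
    linear_combination h
  have hdimN : (Module.finrank ℂ V : ℂ) * 2 = 2 * (mu r ψ 0 : ℂ) +
      ((mu r ψ 1 : ℂ) + (mu r ψ ν : ℂ)) * ((Fintype.card k : ℂ) - 1) := by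
    have h := hchar 0
    rw [hu0, Representation.char_one] at h
    simp only [mul_zero, AddChar.map_zero_eq_one] at h
    rw [hcardu] at h
    rw [h]
    ring
  have hdimZ : (Fintype.card k : ℤ) - e = 2 * (mu r ψ 0 : ℤ) +
      ((mu r ψ 1 : ℤ) + (mu r ψ ν : ℤ)) * ((Fintype.card k : ℤ) - 1) := by
    rw [← hdim]
    have h : (((2 * (Module.finrank ℂ V : ℤ) : ℤ)) : ℂ) = ((2 * (mu r ψ 0 : ℤ) +
      ((mu r ψ 1 : ℤ) + (mu r ψ ν : ℤ)) * ((Fintype.card k : ℤ) - 1) : ℤ) : ℂ) := by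
      push_cast
      linear_combination hdimN
    exact_mod_cast h
  -- not all multiplicities vanish
  have hpos : 1 ≤ mu r ψ 1 + mu r ψ ν := by
    by_contra hlt
    have h1 : mu r ψ 1 = 0 := by omega
    have h2 : mu r ψ ν = 0 := by omega
    apply hne
    have hP : ∀ c : k, c ≠ 0 → P r ψ c = 0 := by
      intro c hc0
      apply P_zero
      by_cases hs : IsSquare c
      · obtain ⟨x, hx⟩ := hs
        have hx0 : x ≠ 0 := by
          rintro rfl
          exact hc0 (by rw [hx, mul_zero])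
        have h := hsq (Units.mk0 x hx0)
        rw [Units.val_mk0, sq, ← hx] at h
        rw [h, h1]
      · have hs2 : IsSquare (ν⁻¹ * c) := by
          have h3 := quadraticChar_neg_one_iff_not_isSquare.2 hs
          have h4 := quadraticChar_neg_one_iff_not_isSquare.2
            (fun h : IsSquare ν⁻¹ => hν (isSquare_inv.1 h))
          have h5 : quadraticChar k (ν⁻¹ * c) = 1 := by rw [map_mul, h3, h4]; norm_num
          exact (quadraticChar_one_iff_isSquare (mul_ne_zero (inv_ne_zero hν0) hc0)).1 h5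
        obtain ⟨x, hx⟩ := hs2
        have hx0 : x ≠ 0 := by
          rintro rfl
          rw [mul_zero] at hx
          exact mul_ne_zero (inv_ne_zero hν0) hc0 hx
        have h := hns (Units.mk0 x hx0)
        rw [Units.val_mk0, sq, ← hx, ← mul_assoc, mul_inv_cancel₀ hν0, one_mul] at h
        rw [h, h2]
    have hr : ∀ b, r b = P r ψ 0 := by
      intro b
      have h := sum_P (r := r) hψ b
      rw [Finset.sum_eq_single 0 (fun c _ hc0 => by rw [hP c hc0, smul_zero])
        (fun h => absurd (Finset.mem_univ _) h), zero_mul, AddChar.map_zero_eq_one, one_smul] at h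
      exact h.symm
    have hu1 : ρ (d.u 1) = 1 := by
      have h3 : r 1 = r 0 := (hr 1).trans (hr 0).symm
      have h4 : r 0 = 1 := by
        change ρ (d.u 0) = 1
        rw [hu0, map_one]
      exact h3.trans h4
    have hker := d.simple (MonoidHom.ker ρ) inferInstance (MonoidHom.mem_ker.2 hu1)
    intro g
    have hg : g ∈ MonoidHom.ker ρ := by
      rw [hker]
      exact Subgroup.mem_top g
    exact MonoidHom.mem_ker.1 hg
  -- the values
  have hψν : AddChar.mulShift ψ ν ≠ 1 := hψ hν0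
  have he : e = 1 ∨ e = -1 := by
    rcases hQ.2 with ⟨h, _⟩ | ⟨h, _⟩
    · exact Or.inl h
    · exact Or.inr h
  have hsum : mu r ψ 1 + mu r ψ ν = 1 := by
    by_contra hne1
    have h2 : (2 : ℤ) ≤ (mu r ψ 1 : ℤ) + (mu r ψ ν : ℤ) := by omega
    have h3 : (2 : ℤ) * ((Fintype.card k : ℤ) - 1) ≤
        ((mu r ψ 1 : ℤ) + (mu r ψ ν : ℤ)) * ((Fintype.card k : ℤ) - 1) :=
      mul_le_mul_of_nonneg_right h2 (by omega)
    rcases he with h | h <;> omega
  have hsumZ : (mu r ψ 1 : ℤ) + (mu r ψ ν : ℤ) = 1 := by exact_mod_cast hsum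
  have hm0 : 2 * (mu r ψ 0 : ℤ) = 1 - e := by
    rw [hsumZ] at hdimZ
    linarith
  obtain ⟨_, _, hG3⟩ := hPGS k ψ hodd hψ1
  have hcases : (mu r ψ 1 = 1 ∧ mu r ψ ν = 0) ∨ (mu r ψ 1 = 0 ∧ mu r ψ ν = 1) := by omega
  have hshift : ∀ b : k, ∑ a : kˣ, AddChar.mulShift ψ ν ((a : k) ^ 2 * b) =
      ∑ a : kˣ, ψ (ν * ((a : k) ^ 2 * b)) := fun b =>
    Finset.sum_congr rfl fun a _ => AddChar.mulShift_apply
  rcases he with rfl | rfl
  · have h0 : mu r ψ 0 = 0 := by omega
    rcases hcases with ⟨h1, h2⟩ | ⟨h1, h2⟩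
    · refine ⟨ψ, hψ1, fun b _ => ?_⟩
      rw [hchar b, h0, h1, h2]
      push_cast
      ring
    · refine ⟨AddChar.mulShift ψ ν, hψν, fun b _ => ?_⟩
      rw [hchar b, h0, h1, h2, hshift]
      push_cast
      ring
  · have h0 : mu r ψ 0 = 1 := by omega
    rcases hcases with ⟨h1, h2⟩ | ⟨h1, h2⟩
    · refine ⟨AddChar.mulShift ψ ν, hψν, fun b hb => ?_⟩
      rw [hchar b, h0, h1, h2, hshift]
      push_cast
      linear_combination (1 / 2 : ℂ) * hG3 ν b hν hb
    · refine ⟨ψ, hψ1, fun b hb => ?_⟩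
      rw [hchar b, h0, h1, h2]
      push_cast
      linear_combination (1 / 2 : ℂ) * hG3 ν b hν hb

end StarkC.ABS
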