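import Pool.Agent.ABS.StP

/-!
# ABS, part P, module PSL: the end of the part

`ρ` is nontrivial (an irreducible trivial representation has dimension at most one), so PRU gives
the additive character, PEQ identifies `χ` with `χ₀`, and PTR (a hypothesis) gives the conclusion.
-/

set_option autoImplicit false

open scoped Classical MatrixGroups ComplexConjugate

namespace StarkC.ABS

namespace PSLx

/-- An irreducible representation which is trivial has dimension at most one. -/
theorem finrank_le_of_trivial {G V : Type} [Group G] [AddCommGroup V] [Module ℂ V]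
    [Module.Finite ℂ V] (ρ : Representation ℂ G V) (hirr : ρ.IsIrreducible)
    (h : ∀ g, ρ g = 1) : Module.finrank ℂ V ≤ 1 := by
  by_contra hlt
  have hpos : 0 < Module.finrank ℂ V := by omega
  have hnt : Nontrivial V := Module.nontrivial_of_finrank_pos hpos
  obtain ⟨v, hv⟩ := exists_ne (0 : V)
  let S : Subrepresentation ρ :=
    { toSubmodule := Submodule.span ℂ {v}
      apply_mem_toSubmodule := fun g w hw => by
        rw [h g]
        exact hw }
  have hS := hirr.eq_bot_or_eq_top S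
  have hbot : S.toSubmodule ≠ ⊥ := by
    intro hb
    have : v ∈ (⊥ : Submodule ℂ V) := by
      rw [← hb]
      exact Submodule.mem_span_singleton_self v
    exact hv ((Submodule.mem_bot ℂ).1 this)
  rcases hS with hS | hS
  · exact hbot (by rw [hS]; rfl)
  · have htop : Submodule.span ℂ {v} = ⊤ := by
      have : S.toSubmodule = ⊤ := by rw [hS]; rfl
      exact this
    have h1 : Module.finrank ℂ (Submodule.span ℂ {v}) = 1 := finrank_span_singleton hv
    rw [htop, finrank_top] at h1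
    omega

end PSLx

theorem PSL_thm : Stmt_PSL := by
  intro hPM6 hPRU hPEQ hPFR hPGS hPVU hPVD hPNO hPIN hPM1 hPM2 hPM3 hPM4 hPM5 hT
    k G V _ _ _ _ _ _ _ ρ h5 hsq hiso hirr hdim
  obtain ⟨e, hQ, hd, he⟩ : ∃ e : ℤ, GoodQ k e ∧
      2 * (Module.finrank ℂ V : ℤ) = (Fintype.card k : ℤ) - e ∧
      (Fintype.card k % 4 = 3 → e = 1) := by
    rcases hdim with ⟨h3, hd⟩ | ⟨h1, hd⟩
    · exact ⟨1, ⟨h5, Or.inl ⟨rfl, h3⟩⟩, by omega, fun _ => rfl⟩
    · exact ⟨-1, ⟨h5, Or.inr ⟨rfl, h1⟩⟩, by omega, fun h => by omega⟩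
  obtain ⟨d⟩ := hPM6 hPM1 hPM2 hPM3 hPM4 hPM5 k G e hQ hiso
  have hnt : ¬ ∀ g, ρ g = 1 := by
    intro h
    have := PSLx.finrank_le_of_trivial ρ hirr h
    rcases hdim with ⟨_, hd'⟩ | ⟨_, hd'⟩ <;> omega
  obtain ⟨ψ, hψ, hu⟩ := hPRU hPGS k G V e d ρ hQ hd hnt
  have heq := hPEQ hPGS hPNO hPIN hPFR hPVU hPVD k G V e d ρ ψ hQ hirr hd hψ hu
  have hfun : ρ.character = d.chi ψ := funext heq
  rw [hfun]
  obtain ⟨h1, h2, h3, h4⟩ := hT k G e d ψ hQ hsq hψ
  exact ⟨h1, h2, h3, fun hmod => h4 (he hmod)⟩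

end StarkC.ABS
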