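import Pool.Agent.ABS.StP

/-!
# Project ABS, part P, module PTR: the character `χ₀` is monomial, its trace is a combination of
permutation characters, its field of values is quadratic
-/

set_option autoImplicit false

open scoped Classical MatrixGroups ComplexConjugate

namespace StarkC.ABS

namespace PTRx

section

variable {G : Type} [Group G] [Fintype G]

lemma indFun_congr (H : Subgroup G) (f f' : G → ℂ) (h : ∀ g ∈ H, f g = f' g) (g : G) :
    indFun H f g = indFun H f' g := by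
  unfold indFun
  congr 1
  refine Finset.sum_congr rfl fun x _ => ?_
  by_cases hx : x⁻¹ * g * x ∈ H
  · rw [if_pos hx, if_pos hx, h _ hx]
  · rw [if_neg hx, if_neg hx]

lemma indFun_one (H : Subgroup G) (g : G) :
    indFun H (extZ (1 : H →* ℂˣ)) g = indFun H (fun _ => 1) g := by
  refine indFun_congr H _ _ (fun x hx => ?_) g
  unfold extZ
  rw [dif_pos hx]
  simp

/-- an automorphism of `ℂ` and induction -/
lemma map_indFun (σ : ℂ ≃+* ℂ) (H : Subgroup G) (f : G → ℂ) (g : G) :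
    σ (indFun H f g) = indFun H (fun x => σ (f x)) g := by
  unfold indFun
  rw [map_div₀, map_sum, map_natCast]
  congr 1
  refine Finset.sum_congr rfl fun x _ => ?_
  by_cases hx : x⁻¹ * g * x ∈ H
  · rw [if_pos hx, if_pos hx]
  · rw [if_neg hx, if_neg hx, map_zero]

lemma map_indFun_one (σ : ℂ ≃+* ℂ) (H : Subgroup G) (g : G) :
    σ (indFun H (fun _ => 1) g) = indFun H (fun _ => 1) g := by
  rw [map_indFun]
  simp

end

section

variable {k G : Type} [Field k] [Fintype k] [Group G] [Fintype G] {e : ℤ}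

/-- the three subgroups -/
def Hh (d : PD k G e) : Fin 3 → Subgroup G
  | 0 => d.U
  | 1 => d.D₁
  | 2 => d.D

/-- the three linear characters -/
def Ps (d : PD k G e) (ψ' : d.U →* ℂˣ) : ∀ i, Hh d i →* ℂˣ
  | 0 => ψ'
  | 1 => 1
  | 2 => 1

omit [Fintype k] in
lemma charPow (ψ : AddChar k ℂ) (b : k) : ψ b ^ ringChar k = 1 := by
  rw [← AddChar.map_nsmul_eq_pow]
  simp

lemma map_ext (σ : ℂ ≃+* ℂ) (t : ℕ) (hσ : ∀ z : ℂ, z ^ ringChar k = 1 → σ z = z ^ t)
    (d : PD k G e) (ψ : AddChar k ℂ) (g : G) : σ (d.ext ψ g) = d.ext (ψ ^ t) g := by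
  unfold PD.ext
  by_cases h : ∃ b, d.u b = g
  · rw [dif_pos h, dif_pos h, hσ _ (charPow ψ _), AddChar.pow_apply]
  · rw [dif_neg h, dif_neg h, map_zero]

lemma map_chi (σ : ℂ ≃+* ℂ) (t : ℕ) (hσ : ∀ z : ℂ, z ^ ringChar k = 1 → σ z = z ^ t)
    (d : PD k G e) (ψ : AddChar k ℂ) (g : G) :
    σ (d.chi ψ g) = (e : ℂ) * (indFun d.U (d.ext (ψ ^ t)) g - indFun d.D₁ (fun _ => 1) g +
      indFun d.D (fun _ => 1) g) := by
  unfold PD.chi
  rw [map_mul, map_add, map_sub, map_indFun_one, map_indFun_one, map_indFun, map_intCast]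
  rw [funext fun y => map_ext σ t hσ d ψ y]

lemma e_sq (hQ : GoodQ k e) : (e : ℂ) * (e : ℂ) = 1 := by
  rcases hQ.2 with ⟨h, _⟩ | ⟨h, _⟩ <;> subst h <;> norm_num

lemma prime_char : (ringChar k).Prime :=
  CharP.char_is_prime k (ringChar k)

lemma odd_card (hQ : GoodQ k e) : Odd (Fintype.card k) := by
  rw [Nat.odd_iff]
  rcases hQ.2 with ⟨_, h⟩ | ⟨_, h⟩ <;> omega

end

end PTRx

open PTRx in
theorem PTR_thm : Stmt_PTR := by
  intro hPFR hPGS hPVU hPVD hPNO hPSQ hPPM hPUH hsig hF k G _ _ _ _ e d ψ hQ hns hψ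
  have hp : (ringChar k).Prime := prime_char
  have hodd := odd_card hQ
  have hee := e_sq (k := k) hQ
  have he0 : (e : ℂ) ≠ 0 := fun h => by rw [h] at hee; simp at hee
  obtain ⟨ψ', hψ1, hψ2⟩ := hPUH k G e d ψ
  obtain ⟨hP1, hP2, hP3, S, B, hSB⟩ := hPPM hPGS hPVU hPSQ k G e d ψ hQ hns hψ
  obtain ⟨_, hV2, _, _⟩ := hPVU k G e d ψ hQ
  have hψn : ∀ i, Ps d ψ' i ^ ringChar k = 1 := by
    intro i
    fin_cases i
    · exact hψ1
    · exact one_pow (M := d.D₁ →* ℂˣ) (ringChar k)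
    · exact one_pow (M := d.D →* ℂˣ) (ringChar k)
  -- the formula for `χ₀`
  have hU : ∀ (t : ℕ) (g : G), indFun d.U (extZ (ψ' ^ t)) g = indFun d.U (d.ext (ψ ^ t)) g :=
    fun t g => indFun_congr _ _ _ (fun x hx => hψ2 t x hx) g
  have hU1 : ∀ g : G, indFun d.U (extZ ψ') g = indFun d.U (d.ext ψ) g := fun g => by
    have h1 := hU 1 g
    have h2 : ψ' ^ 1 = ψ' := pow_one ψ'
    rwa [h2, pow_one] at h1
  have hterm : ∀ (t : ℕ) (g : G), indFun (Hh d 0) (extZ (Ps d ψ' 0 ^ t)) g =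
      indFun d.U (d.ext (ψ ^ t)) g := fun t g => hU t g
  have hterm1 : ∀ (t : ℕ) (g : G), indFun (Hh d 1) (extZ (Ps d ψ' 1 ^ t)) g =
      indFun d.D₁ (fun _ => 1) g := fun t g => by
    have h : Ps d ψ' 1 ^ t = (1 : d.D₁ →* ℂˣ) := one_pow (M := d.D₁ →* ℂˣ) t
    rw [h]
    exact indFun_one d.D₁ g
  have hterm2 : ∀ (t : ℕ) (g : G), indFun (Hh d 2) (extZ (Ps d ψ' 2 ^ t)) g =
      indFun d.D (fun _ => 1) g := fun t g => by
    have h : Ps d ψ' 2 ^ t = (1 : d.D →* ℂˣ) := one_pow (M := d.D →* ℂˣ) t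
    rw [h]
    exact indFun_one d.D g
  set c : Fin 3 → ℤ := ![e, -e, e] with hc
  have hchi : ∀ g, d.chi ψ g = ∑ i, (c i : ℂ) * indFun (Hh d i) (extZ (Ps d ψ' i)) g := by
    intro g
    have h0 : indFun (Hh d 0) (extZ (Ps d ψ' 0)) g = indFun d.U (d.ext ψ) g := hU1 g
    have h1 : indFun (Hh d 1) (extZ (Ps d ψ' 1)) g = indFun d.D₁ (fun _ => 1) g :=
      indFun_one d.D₁ g
    have h2 : indFun (Hh d 2) (extZ (Ps d ψ' 2)) g = indFun d.D (fun _ => 1) g :=
      indFun_one d.D g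
    rw [Fin.sum_univ_three, h0, h1, h2]
    unfold PD.chi
    simp only [hc, Matrix.cons_val_zero, Matrix.cons_val_one, Matrix.cons_val, Int.cast_neg]
    ring
  obtain ⟨e', he', hcard, hfin, htr⟩ := hF G (ringChar k) 1 3 (d.chi ψ) (Hh d) (Ps d ψ') c hp.pos
    one_pos hψn (fun g => by rw [Nat.cast_one, one_mul]; exact hchi g)
  rw [Nat.totient_prime hp] at hfin
  -- the automorphisms
  have hcount : e' = (((Finset.range (ringChar k)).filter fun t => (ringChar k).Coprime t).filter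
      fun t : ℕ => IsSquare (t : k)).card := by
    rw [hcard]
    congr 1
    refine Finset.filter_congr fun t ht => ?_
    have hco : (ringChar k).Coprime t := (Finset.mem_filter.1 ht).2
    constructor
    · intro h
      obtain ⟨σ, hσ⟩ := hsig (ringChar k) t hp.pos hco
      refine hP2 t hco fun b _ => ?_
      have h1 := h σ hσ (d.u b)
      rw [map_chi σ t hσ] at h1
      unfold PD.chi at h1
      have h2 := mul_left_cancel₀ he0 h1
      linear_combination h2
    · intro h σ hσ g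
      rw [map_chi σ t hσ, hP1 t hco h]
      rfl
  have h2e : 2 * e' = ringChar k - 1 := by
    rw [hcount]
    exact (hPSQ k hodd hns).1
  have hfin2 : Module.finrank ℚ (StarkP.charField (d.chi ψ)) = 2 := by
    have : e' * Module.finrank ℚ (StarkP.charField (d.chi ψ)) = e' * 2 := by
      rw [hfin, ← h2e, mul_comm]
    exact Nat.eq_of_mul_eq_mul_left he' this
  have he'0 : (e' : ℂ) ≠ 0 := Nat.cast_ne_zero.2 he'.ne'
  have hpe : (ringChar k : ℂ) - 1 = 2 * (e' : ℂ) := by
    have h1 : ringChar k = 2 * e' + 1 := by have := hp.one_lt; omega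
    rw [h1]
    push_cast
    ring
  have hfc : (((Finset.range (ringChar k)).filter fun t => (ringChar k).Coprime t).card : ℂ) =
      2 * (e' : ℂ) := by
    have h1 : ((Finset.range (ringChar k)).filter fun t => (ringChar k).Coprime t).card =
        (ringChar k).totient := rfl
    rw [h1, Nat.totient_prime hp, ← h2e]
    push_cast
    ring
  refine ⟨⟨3, Hh d, Ps d ψ', c, hψn, hchi⟩, ?_, hfin2, ?_⟩
  · -- the trace
    refine ⟨4, ![S, B, d.D₁, d.D], ![e, -e, -(2 * e), 2 * e], fun g => ?_⟩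
    have h1 := htr g
    rw [Fin.sum_univ_three] at h1
    simp only [hterm, hterm1, hterm2] at h1
    rw [hSB g, Finset.sum_const, Finset.sum_const, nsmul_eq_mul, nsmul_eq_mul, hfc, hpe,
      one_mul] at h1
    simp only [hc, Matrix.cons_val_zero, Matrix.cons_val_one, Matrix.cons_val, Int.cast_neg] at h1
    rw [Fin.sum_univ_four]
    simp only [Matrix.cons_val_zero, Matrix.cons_val_one, Matrix.cons_val, Int.cast_neg,
      Int.cast_mul, Int.cast_ofNat]
    refine mul_left_cancel₀ he'0 ?_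
    rw [h1]
    ring
  · -- not real
    intro he1
    by_contra hcon
    push Not at hcon
    have hreal : ∀ g, conj (d.chi ψ g) = d.chi ψ g := fun g => Complex.conj_eq_iff_im.2 (hcon g)
    have hsq : IsSquare (-1 : k) := by
      refine hP3 fun b hb => ?_
      obtain ⟨_, _, hN3, _⟩ := hPNO hPFR hPGS hPVU hPVD k G e d ψ hQ hψ
      have h1 := hreal (d.u b)
      rw [hN3 b hb] at h1
      have h2 := hV2 b hb
      have h3 := hV2 (-b) (neg_ne_zero.2 hb)
      have h4 : ∑ a : kˣ, ψ ((a : k) ^ 2 * -b) = conj (∑ a : kˣ, ψ ((a : k) ^ 2 * b)) := by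
        rw [map_sum]
        refine Finset.sum_congr rfl fun a _ => ?_
        rw [mul_neg, AddChar.map_neg_eq_conj]
      rw [h2, h3, h4]
      rw [map_mul, map_div₀, Complex.conj_ofNat, map_intCast] at h1
      have h5 : (e : ℂ) / 2 ≠ 0 := div_ne_zero he0 two_ne_zero
      rw [mul_left_cancel₀ h5 h1]
    rcases hQ.2 with ⟨_, h⟩ | ⟨h, _⟩
    · exact (FiniteField.isSquare_neg_one_iff.1 hsq) h
    · rw [he1] at h
      norm_num at h

end StarkC.ABS
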