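import Pool.Agent.ABS.StP

/-!
# Module PUH: an additive character as a homomorphism
-/

set_option autoImplicit false

open scoped Classical MatrixGroups ComplexConjugate

namespace StarkC.ABS

namespace PUHx

variable {k G : Type} [Field k] [Fintype k] [Group G] [Fintype G] {e : ℤ}

/-- The element `b` of `k` with `u b = g`. -/
noncomputable def co (d : PD k G e) (g : d.U) : k := Classical.choose g.2

theorem u_co (d : PD k G e) (g : d.U) : d.u (co d g) = g := Classical.choose_spec g.2

theorem co_mul (d : PD k G e) (g h : d.U) : co d (g * h) = co d g + co d h := by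
  apply d.u_inj
  rw [d.u_add, u_co, u_co, u_co]
  rfl

theorem co_one (d : PD k G e) : co d 1 = 0 := by
  have h := co_mul d 1 1
  rw [one_mul] at h
  exact (add_eq_left.1 h.symm)

/-- The homomorphism with values in `ℂ`. -/
noncomputable def hom (d : PD k G e) (ψ : AddChar k ℂ) : d.U →* ℂ where
  toFun g := ψ (co d g)
  map_one' := by rw [co_one, AddChar.map_zero_eq_one]
  map_mul' g h := by rw [co_mul, AddChar.map_add_eq_mul]

end PUHx

open PUHx in
theorem PUH_thm : Stmt_PUH := by
  intro k G _ _ _ _ e d ψ
  refine ⟨(hom d ψ).toHomUnits, ?_, fun t g hg => ?_⟩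
  · ext g
    rw [MonoidHom.pow_apply, Units.val_pow_eq_pow_val, MonoidHom.coe_toHomUnits]
    show ψ (co d g) ^ ringChar k = 1
    rw [← AddChar.map_nsmul_eq_pow, nsmul_eq_mul, ringChar.Nat.cast_ringChar, zero_mul,
      AddChar.map_zero_eq_one]
  · have h1 : ∃ b, d.u b = g := hg
    unfold extZ PD.ext
    rw [dif_pos hg, dif_pos h1, MonoidHom.pow_apply, Units.val_pow_eq_pow_val,
      MonoidHom.coe_toHomUnits, AddChar.pow_apply]
    show ψ (co d ⟨g, hg⟩) ^ t = ψ h1.choose ^ t
    have h2 : co d ⟨g, hg⟩ = h1.choose := by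
      apply d.u_inj
      rw [u_co, h1.choose_spec]
    rw [h2]

end StarkC.ABS
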