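import Pool.Agent.ABS.StP

/-!
# Project ABS, part P: module PVD (helper1), the values of `Ind_{D₁} 1 - Ind_D 1` on `D`
-/

set_option autoImplicit false

open scoped Classical MatrixGroups ComplexConjugate

namespace StarkC.ABS

namespace PVDx

variable {k G : Type} [Field k] [Fintype k] [Group G] [Fintype G] {e : ℤ}

theorem mem_D (d : PD k G e) (g : G) : g ∈ d.D ↔ g * d.z = d.z * g := by
  unfold PD.D
  rw [Subgroup.mem_centralizer_iff]
  constructor
  · intro h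
    exact (h d.z (Set.mem_singleton _)).symm
  · intro h y hy
    rw [Set.mem_singleton_iff.1 hy]
    exact h.symm

theorem card_D' (d : PD k G e) : Nat.card d.D = 2 * Nat.card d.T := by
  have h1 := d.card_T
  have h2 : (Nat.card d.D : ℤ) = (Fintype.card k : ℤ) + e := d.card_D
  have h3 : (Nat.card d.D : ℤ) = 2 * (Nat.card d.T : ℤ) := by rw [h1, h2]
  exact_mod_cast h3

theorem T_le (d : PD k G e) : d.T ≤ d.D := fun g hg => (mem_D d g).2 (d.T_z g hg)

theorem D1_le (d : PD k G e) : d.D₁ ≤ d.D := fun g hg => (mem_D d g).2 (d.D₁_z g hg)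

theorem index_two {H D : Subgroup G} (hle : H ≤ D) (hc : Nat.card D = 2 * Nat.card H) {a b : G}
    (ha : a ∈ D) (hb : b ∈ D) : a * b ∈ H ↔ (a ∈ H ↔ b ∈ H) := by
  have h1 : (H.subgroupOf D).index = 2 := by
    have h2 := Subgroup.card_mul_index (H.subgroupOf D)
    have h3 : Nat.card (H.subgroupOf D) = Nat.card H :=
      Nat.card_congr (Subgroup.subgroupOfEquivOfLe hle).toEquiv
    rw [h3, hc] at h2
    have h4 : 0 < Nat.card H := Nat.card_pos
    exact Nat.eq_of_mul_eq_mul_left h4 (by rw [h2]; ring)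
  have h5 := Subgroup.mul_mem_iff_of_index_two h1 (a := ⟨a, ha⟩) (b := ⟨b, hb⟩)
  simpa [Subgroup.mem_subgroupOf] using h5

theorem mulD1 (d : PD k G e) {a b : G} (ha : a ∈ d.D) (hb : b ∈ d.D) :
    a * b ∈ d.D₁ ↔ (a ∈ d.D₁ ↔ b ∈ d.D₁) :=
  index_two (D1_le d) (by rw [card_D', d.card_D₁]) ha hb

theorem mulT (d : PD k G e) {a b : G} (ha : a ∈ d.D) (hb : b ∈ d.D) :
    a * b ∈ d.T ↔ (a ∈ d.T ↔ b ∈ d.T) :=
  index_two (T_le d) (card_D' d) ha hb

/-- the function `δ` -/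
noncomputable def dl (d : PD k G e) (g : G) : ℂ :=
  if g ∈ d.D then (if g ∈ d.D₁ then 1 else -1) else 0

theorem E_eq (d : PD k G e) (g : G) :
    indFun d.D₁ (fun _ => 1) g - indFun d.D (fun _ => 1) g =
      (∑ x : G, dl d (x⁻¹ * g * x)) / (Nat.card d.D : ℂ) := by
  have hT : (Nat.card d.T : ℂ) ≠ 0 := by
    have : 0 < Nat.card d.T := Nat.card_pos
    exact_mod_cast this.ne'
  have h1 : ∀ x : G, dl d (x⁻¹ * g * x) = 2 * (if x⁻¹ * g * x ∈ d.D₁ then (1 : ℂ) else 0) -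
      (if x⁻¹ * g * x ∈ d.D then (1 : ℂ) else 0) := by
    intro x
    unfold dl
    by_cases h : x⁻¹ * g * x ∈ d.D₁
    · rw [if_pos h, if_pos h, if_pos (D1_le d h)]
      norm_num
    · rw [if_neg h, if_neg h]
      by_cases h' : x⁻¹ * g * x ∈ d.D
      · rw [if_pos h', if_pos h']
        norm_num
      · rw [if_neg h', if_neg h']
        norm_num
  have h2 : (∑ x : G, dl d (x⁻¹ * g * x)) =
      2 * (∑ x : G, if x⁻¹ * g * x ∈ d.D₁ then (1 : ℂ) else 0) -
        ∑ x : G, if x⁻¹ * g * x ∈ d.D then (1 : ℂ) else 0 := by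
    rw [Finset.mul_sum, ← Finset.sum_sub_distrib]
    exact Finset.sum_congr rfl fun x _ => h1 x
  rw [h2]
  unfold indFun
  rw [d.card_D₁, card_D']
  push_cast
  field_simp

theorem dl_conj (d : PD k G e) {g x : G} (hg : g ∈ d.D) (hx : x ∈ d.D) :
    dl d (x⁻¹ * g * x) = dl d g := by
  have hx' : x⁻¹ ∈ d.D := d.D.inv_mem hx
  have h1 : x⁻¹ * g ∈ d.D := d.D.mul_mem hx' hg
  have h2 : x⁻¹ * g * x ∈ d.D₁ ↔ g ∈ d.D₁ := by
    rw [mulD1 d h1 hx, mulD1 d hx' hg, inv_mem_iff]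
    tauto
  unfold dl
  rw [if_pos hg, if_pos (d.D.mul_mem h1 hx)]
  by_cases h : g ∈ d.D₁
  · rw [if_pos h, if_pos (h2.2 h)]
  · rw [if_neg h, if_neg fun h' => h (h2.1 h')]

theorem card_sum (H : Subgroup G) : (∑ x : G, if x ∈ H then (1 : ℂ) else 0) = (Nat.card H : ℂ) := by
  rw [Finset.sum_boole, Nat.card_eq_fintype_card, Fintype.card_subtype]

/-- (b) -/
theorem E_reg (d : PD k G e) {g : G} (hg : g ∈ d.T) (h2 : g * g ≠ 1) :
    indFun d.D₁ (fun _ => 1) g - indFun d.D (fun _ => 1) g = dl d g := by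
  have hD : (Nat.card d.D : ℂ) ≠ 0 := by
    have : 0 < Nat.card d.D := Nat.card_pos
    exact_mod_cast this.ne'
  rw [E_eq, div_eq_iff hD]
  have h3 : ∀ x : G, dl d (x⁻¹ * g * x) = dl d g * if x ∈ d.D then (1 : ℂ) else 0 := by
    intro x
    by_cases hx : x ∈ d.D
    · rw [if_pos hx, mul_one]
      exact dl_conj d (T_le d hg) hx
    · rw [if_neg hx, mul_zero]
      unfold dl
      rw [if_neg]
      intro h4
      exact hx ((mem_D d x).2 (d.reg g hg h2 x ((mem_D d _).1 h4)))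
  rw [Finset.sum_congr rfl fun x _ => h3 x, ← Finset.mul_sum, card_sum]

/-- the part of `δ` outside `T` has the sum zero -/
theorem sum_zero (d : PD k G e) :
    ∑ g : G, (if g ∈ d.D ∧ g ∉ d.T then (if g ∈ d.D₁ then (1 : ℂ) else -1) else 0) = 0 := by
  obtain ⟨s, hs, hs'⟩ : ∃ s, s ∈ d.T ∧ s ∉ d.D₁ := by
    by_contra hcon
    push Not at hcon
    have hle : d.T ≤ d.D₁ := fun s hs => hcon s hs
    exact d.D₁_ne (Subgroup.eq_of_le_of_card_ge hle (le_of_eq d.card_D₁)).symm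
  have hsD : s ∈ d.D := T_le d hs
  set F : G → ℂ := fun g =>
    if g ∈ d.D ∧ g ∉ d.T then (if g ∈ d.D₁ then (1 : ℂ) else -1) else 0 with hF
  have h1 : ∀ g, F (s * g) = - F g := by
    intro g
    simp only [hF]
    by_cases hg : g ∈ d.D
    · have hsg : s * g ∈ d.D := d.D.mul_mem hsD hg
      by_cases hgT : g ∈ d.T
      · have h2 : s * g ∈ d.T := d.T.mul_mem hs hgT
        rw [if_neg (fun h => h.2 h2), if_neg (fun h => h.2 hgT), neg_zero]
      · have h2 : s * g ∉ d.T := by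
          rw [mulT d hsD hg]
          tauto
        rw [if_pos (⟨hsg, h2⟩ : s * g ∈ d.D ∧ s * g ∉ d.T),
          if_pos (⟨hg, hgT⟩ : g ∈ d.D ∧ g ∉ d.T)]
        have h3 : s * g ∈ d.D₁ ↔ ¬ g ∈ d.D₁ := by
          rw [mulD1 d hsD hg]
          tauto
        by_cases h4 : g ∈ d.D₁
        · rw [if_pos h4, if_neg fun h => h3.1 h h4]
        · rw [if_neg h4, if_pos (h3.2 h4), neg_neg]
    · have hsg : s * g ∉ d.D := fun h => hg ((d.D.mul_mem_cancel_left hsD).1 h)
      rw [if_neg fun h => hsg h.1, if_neg fun h => hg h.1, neg_zero]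
  have h2 : ∑ g, F g = ∑ g, F (s * g) := (Equiv.sum_comp (Equiv.mulLeft s) F).symm
  rw [Finset.sum_congr rfl fun g _ => h1 g, Finset.sum_neg_distrib] at h2
  have h3 : (2 : ℂ) * ∑ g, F g = 0 := by
    rw [two_mul]
    nth_rewrite 2 [h2]
    ring
  rcases mul_eq_zero.1 h3 with h4 | h4
  · exact absurd h4 two_ne_zero
  · exact h4

/-- the number of the `x` with `x⁻¹ z x = y` -/
theorem fib (d : PD k G e) (y : G) :
    (∑ x : G, if x⁻¹ * d.z * x = y then (1 : ℂ) else 0) =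
      if y * y = 1 ∧ y ≠ 1 then (Nat.card d.D : ℂ) else 0 := by
  by_cases hy : y * y = 1 ∧ y ≠ 1
  · rw [if_pos hy]
    obtain ⟨w, hw⟩ := d.inv_conj y hy.2 hy.1
    have hw' : y = w * d.z * w⁻¹ := by
      rw [← hw]
      group
    rw [← card_sum d.D]
    rw [← Equiv.sum_comp (Equiv.mulRight w⁻¹)
      (fun x : G => if x⁻¹ * d.z * x = y then (1 : ℂ) else 0)]
    refine Finset.sum_congr rfl fun x _ => ?_
    have h1 : ((x * w⁻¹)⁻¹ * d.z * (x * w⁻¹) = y) ↔ x ∈ d.D := by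
      rw [mem_D, hw']
      constructor
      · intro h
        have h2 : w * (x⁻¹ * d.z * x) * w⁻¹ = w * d.z * w⁻¹ := by
          rw [← h]
          group
        have h3 : x⁻¹ * d.z * x = d.z := mul_left_cancel (mul_right_cancel h2)
        calc x * d.z = x * (x⁻¹ * d.z * x) := by rw [h3]
          _ = d.z * x := by group
      · intro h
        calc (x * w⁻¹)⁻¹ * d.z * (x * w⁻¹) = w * (x⁻¹ * (d.z * x)) * w⁻¹ := by group
          _ = w * (x⁻¹ * (x * d.z)) * w⁻¹ := by rw [h]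
          _ = w * d.z * w⁻¹ := by group
    show (if (x * w⁻¹)⁻¹ * d.z * (x * w⁻¹) = y then (1 : ℂ) else 0) = _
    by_cases h : x ∈ d.D
    · rw [if_pos h, if_pos (h1.2 h)]
    · rw [if_neg h, if_neg fun h' => h (h1.1 h')]
  · rw [if_neg hy]
    refine Finset.sum_eq_zero fun x _ => if_neg fun h => hy ?_
    subst h
    constructor
    · calc x⁻¹ * d.z * x * (x⁻¹ * d.z * x) = x⁻¹ * (d.z * d.z) * x := by group
        _ = 1 := by rw [d.z_sq]; group
    · intro h
      apply d.z_ne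
      calc d.z = x * (x⁻¹ * d.z * x) * x⁻¹ := by group
        _ = 1 := by rw [h]; group

/-- (c) -/
theorem E_z (d : PD k G e) :
    indFun d.D₁ (fun _ => 1) d.z - indFun d.D (fun _ => 1) d.z = dl d d.z := by
  have hD : (Nat.card d.D : ℂ) ≠ 0 := by
    have : 0 < Nat.card d.D := Nat.card_pos
    exact_mod_cast this.ne'
  rw [E_eq, div_eq_iff hD]
  have h1 : (∑ x : G, dl d (x⁻¹ * d.z * x)) =
      ∑ y : G, dl d y * ∑ x : G, if x⁻¹ * d.z * x = y then (1 : ℂ) else 0 := by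
    rw [Finset.sum_congr rfl fun y _ => Finset.mul_sum _ _ _, Finset.sum_comm]
    refine Finset.sum_congr rfl fun x _ => ?_
    rw [Finset.sum_eq_single (x⁻¹ * d.z * x)]
    · rw [if_pos rfl, mul_one]
    · intro y _ hy
      rw [if_neg fun h => hy h.symm, mul_zero]
    · intro h
      exact absurd (Finset.mem_univ _) h
  have hzD : d.z ∈ d.D := T_le d d.z_T
  have h2 : ∀ y : G, dl d y * (if y * y = 1 ∧ y ≠ 1 then (Nat.card d.D : ℂ) else 0) =
      ((if y = d.z then dl d d.z else 0) +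
        (if y ∈ d.D ∧ y ∉ d.T then (if y ∈ d.D₁ then (1 : ℂ) else -1) else 0)) *
        (Nat.card d.D : ℂ) := by
    intro y
    by_cases hyD : y ∈ d.D
    · by_cases hyT : y ∈ d.T
      · rw [if_neg (fun h : y ∈ d.D ∧ y ∉ d.T => h.2 hyT), add_zero]
        by_cases hyz : y = d.z
        · rw [if_pos hyz, if_pos, hyz]
          rw [hyz]
          exact ⟨d.z_sq, d.z_ne⟩
        · rw [if_neg hyz, if_neg, mul_zero, zero_mul]
          rintro ⟨h3, h4⟩
          rcases d.T_sq y hyT h3 with h5 | h5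
          · exact h4 h5
          · exact hyz h5
      · have hyz : y ≠ d.z := fun h => hyT (h ▸ d.z_T)
        have hy1 : y ≠ 1 := fun h => hyT (h ▸ d.T.one_mem)
        rw [if_pos (⟨hyD, hyT⟩ : y ∈ d.D ∧ y ∉ d.T), if_neg hyz, zero_add,
          if_pos ⟨d.out y ((mem_D d y).1 hyD) hyT, hy1⟩]
        unfold dl
        rw [if_pos hyD]
    · have hyz : y ≠ d.z := fun h => hyD (h ▸ hzD)
      rw [if_neg (fun h : y ∈ d.D ∧ y ∉ d.T => hyD h.1), if_neg hyz, add_zero, zero_mul]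
      unfold dl
      rw [if_neg hyD, zero_mul]
  rw [h1, Finset.sum_congr rfl fun y _ => by rw [fib d y, h2 y], ← Finset.sum_mul,
    Finset.sum_add_distrib, sum_zero, add_zero, Finset.sum_ite_eq' Finset.univ d.z,
    if_pos (Finset.mem_univ _)]

/-- (d) -/
theorem E_out (d : PD k G e) {g : G} (hg : g ∈ d.D) (hgT : g ∉ d.T) :
    indFun d.D₁ (fun _ => 1) g - indFun d.D (fun _ => 1) g = dl d d.z := by
  have hg1 : g ≠ 1 := fun h => hgT (h ▸ d.T.one_mem)
  obtain ⟨w, hw⟩ := d.inv_conj g hg1 (d.out g ((mem_D d g).1 hg) hgT)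
  rw [← E_z, E_eq, E_eq]
  congr 1
  rw [← Equiv.sum_comp (Equiv.mulLeft w⁻¹) (fun x : G => dl d (x⁻¹ * d.z * x))]
  refine Finset.sum_congr rfl fun x _ => ?_
  show dl d (x⁻¹ * g * x) = dl d ((w⁻¹ * x)⁻¹ * d.z * (w⁻¹ * x))
  congr 1
  rw [← hw]
  group

end PVDx

open PVDx in
theorem PVD_thm : Stmt_PVD := by
  intro k G _ _ _ _ e d hq
  have hdl : ∀ g, g ∈ d.D → dl d g = if g ∈ d.D₁ then 1 else -1 := by
    intro g hg
    unfold dl
    rw [if_pos hg]
  refine ⟨?_, ?_, ?_, ?_⟩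
  · rw [E_eq]
    have h1 : ∀ x : G, dl d (x⁻¹ * 1 * x) = 1 := by
      intro x
      rw [mul_one, inv_mul_cancel, hdl 1 d.D.one_mem, if_pos d.D₁.one_mem]
    rw [Finset.sum_congr rfl fun x _ => h1 x, Finset.sum_const, Finset.card_univ, nsmul_eq_mul,
      mul_one]
    have hD : (Nat.card d.D : ℂ) ≠ 0 := by
      have : 0 < Nat.card d.D := Nat.card_pos
      exact_mod_cast this.ne'
    have h2 : (Nat.card d.D : ℂ) = (Fintype.card k : ℂ) + (e : ℂ) := by
      have h3 : (Nat.card d.D : ℤ) = (Fintype.card k : ℤ) + e := d.card_D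
      exact_mod_cast congrArg (fun n : ℤ => (n : ℂ)) h3
    have h4 : 2 * (Fintype.card G : ℂ) =
        (Fintype.card k : ℂ) * ((Fintype.card k : ℂ) ^ 2 - 1) := by
      have h5 := d.card
      exact_mod_cast congrArg (fun n : ℤ => (n : ℂ)) h5
    have he : (e : ℂ) ^ 2 = 1 := by
      rcases hq.2 with h | h
      · rw [h.1]
        norm_num
      · rw [h.1]
        norm_num
    rw [div_eq_iff hD, h2]
    have h6 : (Fintype.card G : ℂ) =
        (Fintype.card k : ℂ) * ((Fintype.card k : ℂ) ^ 2 - 1) / 2 := by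
      rw [← h4]
      ring
    rw [h6, ← he]
    ring
  · intro g hg hg1
    by_cases h2 : g * g = 1
    · have hz : g = d.z := (d.T_sq g hg h2).resolve_left hg1
      rw [hz, E_z, hdl _ (T_le d d.z_T)]
    · rw [E_reg d hg h2, hdl _ (T_le d hg)]
  · intro g hg hgT
    rw [E_out d ((mem_D d g).2 hg) hgT, hdl _ (T_le d d.z_T)]
  · refine Eq.trans (Finset.sum_congr rfl fun g _ => ?_) (sum_zero d)
    by_cases h : g ∈ d.D ∧ g ∉ d.T
    · rw [if_pos h, if_pos ⟨(mem_D d g).1 h.1, h.2⟩]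
    · rw [if_neg h, if_neg fun h' => h ⟨(mem_D d g).2 h'.1, h'.2⟩]

end StarkC.ABS
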