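import Pool.Agent.ABS.StP

/-!
# Project ABS, module PVU: the values of `Ind_U ψ`
-/

set_option autoImplicit false

open scoped Classical MatrixGroups ComplexConjugate

namespace StarkC.ABS

namespace PVUx

variable {k G : Type} [Field k] [Fintype k] [Group G] [Fintype G] {e : ℤ}

lemma u_zero (d : PD k G e) : d.u 0 = 1 := by
  have h := d.u_add 0 0
  rw [add_zero] at h
  exact (mul_eq_left.1 h.symm)

lemma u_neg (d : PD k G e) (b : k) : d.u (-b) = (d.u b)⁻¹ := by
  rw [eq_inv_iff_mul_eq_one, ← d.u_add, neg_add_cancel, u_zero]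

lemma u_nsmul (d : PD k G e) (n : ℕ) (b : k) : d.u (n • b) = d.u b ^ n := by
  induction n with
  | zero => rw [zero_smul, pow_zero, u_zero]
  | succ n ih => rw [succ_nsmul, d.u_add, ih, pow_succ]

lemma u_card (d : PD k G e) (b : k) : d.u b ^ Fintype.card k = 1 := by
  rw [← u_nsmul, card_nsmul_eq_zero, u_zero]

lemma ext_u (d : PD k G e) (ψ : AddChar k ℂ) (b : k) : d.ext ψ (d.u b) = ψ b := by
  unfold PD.ext
  have h : ∃ b', d.u b' = d.u b := ⟨b, rfl⟩
  rw [dif_pos h, d.u_inj h.choose_spec]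

lemma card_U (d : PD k G e) : Nat.card d.U = Fintype.card k := by
  rw [← Nat.card_eq_fintype_card]
  exact (Nat.card_congr (show k ≃ d.U from Equiv.ofInjective d.u d.u_inj)).symm

/-- the orders -/
lemma ord (hQ : GoodQ k e) (d : PD k G e) (g : G) (hz : g * d.z = d.z * g) (x : G) (b : k)
    (h : x⁻¹ * g * x = d.u b) : g = 1 := by
  have h1 : g ^ Fintype.card k = 1 := by
    have h2 : g = x * d.u b * x⁻¹ := by
      rw [← h]
      group
    rw [h2, conj_pow, u_card, mul_one, mul_inv_cancel]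
  have hD : g ∈ Subgroup.centralizer {d.z} := by
    rw [Subgroup.mem_centralizer_iff]
    intro y hy
    rw [Set.mem_singleton_iff] at hy
    rw [hy, hz]
  have h4 : g ^ Nat.card (Subgroup.centralizer {d.z}) = 1 := by
    have h5 := pow_card_eq_one' (x := (⟨g, hD⟩ : Subgroup.centralizer {d.z}))
    exact congrArg Subtype.val h5
  have hc := d.card_D
  rcases hQ with ⟨h5, ⟨rfl, -⟩ | ⟨rfl, -⟩⟩
  · have h6 : Nat.card (Subgroup.centralizer {d.z}) = Fintype.card k + 1 := by
      exact_mod_cast hc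
    rw [h6, pow_succ, h1, one_mul] at h4
    exact h4
  · have h6 : Fintype.card k = Nat.card (Subgroup.centralizer {d.z}) + 1 := by
      omega
    rw [h6, pow_succ, h4, one_mul] at h1
    exact h1

lemma conj_ut (d : PD k G e) (c : k) (a : kˣ) (b : k) :
    (d.u c * d.t a)⁻¹ * d.u b * (d.u c * d.t a) = d.u ((a : k) ^ 2 * b) := by
  have h : (d.u c)⁻¹ * d.u b * d.u c = d.u b := by
    rw [← u_neg, ← d.u_add, ← d.u_add]
    congr 1
    ring
  rw [← d.t_u a b]
  calc (d.u c * d.t a)⁻¹ * d.u b * (d.u c * d.t a) =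
        (d.t a)⁻¹ * ((d.u c)⁻¹ * d.u b * d.u c) * d.t a := by group
    _ = (d.t a)⁻¹ * d.u b * d.t a := by rw [h]

lemma t_neg (d : PD k G e) (a : kˣ) : d.t (-a) = d.t a := by
  have h : -a = (-1) * a := by rw [neg_one_mul]
  rw [h, d.t_mul, (d.t_one (-1)).2 neg_one_sq, one_mul]

lemma fib (d : PD k G e) {c c' : k} {a a' : kˣ} (h : d.u c * d.t a = d.u c' * d.t a') :
    c = c' ∧ (a' = a ∨ a' = -a) := by
  have h1 : (a : k) ^ 2 * 1 = (a' : k) ^ 2 * 1 := by
    apply d.u_inj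
    rw [← conj_ut d c a 1, h, conj_ut]
  rw [mul_one, mul_one] at h1
  have h2 : a' = a ∨ a' = -a := by
    rcases sq_eq_sq_iff_eq_or_eq_neg.1 h1.symm with h3 | h3
    · exact Or.inl (Units.ext h3)
    · refine Or.inr (Units.ext ?_)
      rw [Units.val_neg]
      exact h3
  refine ⟨?_, h2⟩
  have h4 : d.t a' = d.t a := by
    rcases h2 with h3 | h3
    · rw [h3]
    · rw [h3, t_neg]
  rw [h4] at h
  exact d.u_inj (mul_right_cancel h)

lemma two_ne (hQ : GoodQ k e) : (2 : k) ≠ 0 := by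
  refine Ring.two_ne_zero fun h => ?_
  have h1 := FiniteField.even_card_iff_char_two.1 h
  rcases hQ with ⟨-, ⟨-, h2⟩ | ⟨-, h2⟩⟩
  · omega
  · omega

lemma ne_neg (hQ : GoodQ k e) (a : kˣ) : a ≠ -a := by
  intro h
  have h1 : (a : k) = -(a : k) := by
    have := congrArg (fun y : kˣ => (y : k)) h
    simpa using this
  have h2 : (2 : k) * a = 0 := by
    linear_combination h1
  rcases mul_eq_zero.1 h2 with h3 | h3
  · exact two_ne hQ h3
  · exact a.ne_zero h3

lemma fib_card (hQ : GoodQ k e) (d : PD k G e) (c : k) (a : kˣ) :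
    (Finset.univ.filter fun p : k × kˣ => d.u p.1 * d.t p.2 = d.u c * d.t a).card = 2 := by
  have h : (Finset.univ.filter fun p : k × kˣ => d.u p.1 * d.t p.2 = d.u c * d.t a) =
      {(c, a), (c, -a)} := by
    ext ⟨c', a'⟩
    rw [Finset.mem_filter, Finset.mem_insert, Finset.mem_singleton]
    constructor
    · rintro ⟨-, h1⟩
      obtain ⟨h2, h3 | h3⟩ := fib d h1.symm
      · left
        exact Prod.ext h2.symm h3
      · right
        exact Prod.ext h2.symm h3
    · rintro (h1 | h1)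
      · have h2 := congrArg Prod.fst h1
        have h3 := congrArg Prod.snd h1
        simp only at h2 h3
        subst h2 h3
        exact ⟨Finset.mem_univ _, rfl⟩
      · have h2 := congrArg Prod.fst h1
        have h3 := congrArg Prod.snd h1
        simp only at h2 h3
        subst h2 h3
        exact ⟨Finset.mem_univ _, by rw [t_neg]⟩
  rw [h, Finset.card_pair]
  intro h1
  exact ne_neg hQ a (congrArg Prod.snd h1)

/-- the sum over the group -/
lemma sumG (hQ : GoodQ k e) (d : PD k G e) (ψ : AddChar k ℂ) (b : k) (hb : b ≠ 0) :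
    2 * (∑ x : G, if x⁻¹ * d.u b * x ∈ d.U then d.ext ψ (x⁻¹ * d.u b * x) else 0) =
      (Fintype.card k : ℂ) * ∑ a : kˣ, ψ ((a : k) ^ 2 * b) := by
  have h1 : (Fintype.card k : ℂ) * ∑ a : kˣ, ψ ((a : k) ^ 2 * b) =
      ∑ p : k × kˣ, (fun x : G => if x⁻¹ * d.u b * x ∈ d.U then
        d.ext ψ (x⁻¹ * d.u b * x) else 0) (d.u p.1 * d.t p.2) := by
    rw [Fintype.sum_prod_type]
    have h2 : ∀ c : k, (∑ a : kˣ, (fun x : G => if x⁻¹ * d.u b * x ∈ d.U then
        d.ext ψ (x⁻¹ * d.u b * x) else 0) (d.u (c, a).1 * d.t (c, a).2)) =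
        ∑ a : kˣ, ψ ((a : k) ^ 2 * b) := by
      intro c
      refine Finset.sum_congr rfl fun a _ => ?_
      show (if (d.u c * d.t a)⁻¹ * d.u b * (d.u c * d.t a) ∈ d.U then
        d.ext ψ ((d.u c * d.t a)⁻¹ * d.u b * (d.u c * d.t a)) else 0) = _
      rw [conj_ut, ext_u, if_pos]
      exact ⟨_, rfl⟩
    rw [Finset.sum_congr rfl fun c _ => h2 c, Finset.sum_const, Finset.card_univ, nsmul_eq_mul]
  rw [h1, ← Finset.sum_fiberwise Finset.univ (fun p : k × kˣ => d.u p.1 * d.t p.2),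
    Finset.mul_sum]
  refine Finset.sum_congr rfl fun x _ => ?_
  have h3 : ∑ p ∈ Finset.univ.filter (fun p : k × kˣ => d.u p.1 * d.t p.2 = x),
      (fun x : G => if x⁻¹ * d.u b * x ∈ d.U then
        d.ext ψ (x⁻¹ * d.u b * x) else 0) (d.u p.1 * d.t p.2) =
      ((Finset.univ.filter fun p : k × kˣ => d.u p.1 * d.t p.2 = x).card : ℂ) *
        (if x⁻¹ * d.u b * x ∈ d.U then d.ext ψ (x⁻¹ * d.u b * x) else 0) := by
    rw [← nsmul_eq_mul, ← Finset.sum_const]
    refine Finset.sum_congr rfl fun p hp => ?_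
    rw [(Finset.mem_filter.1 hp).2]
  rw [h3]
  by_cases hx : x⁻¹ * d.u b * x ∈ d.U
  · obtain ⟨c, hc⟩ := hx
    obtain ⟨c', a, rfl⟩ := d.tu x b c hb hc.symm
    rw [fib_card hQ d c' a]
    norm_num
  · rw [if_neg hx, mul_zero, mul_zero]

end PVUx

open PVUx in
theorem PVU_thm : Stmt_PVU := by
  intro k G _ _ _ _ e d ψ hQ
  have hq0 : (Fintype.card k : ℂ) ≠ 0 := Nat.cast_ne_zero.2 Fintype.card_ne_zero
  have hU : (Nat.card d.U : ℂ) = (Fintype.card k : ℂ) := by rw [card_U]
  refine ⟨?_, fun b hb => ?_, fun g hg hg1 => ?_, fun b x hb hz => ?_⟩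
  · unfold indFun
    have h1 : (∑ x : G, if x⁻¹ * 1 * x ∈ d.U then d.ext ψ (x⁻¹ * 1 * x) else 0) =
        (Fintype.card G : ℂ) := by
      have h2 : ∀ x : G, (if x⁻¹ * 1 * x ∈ d.U then d.ext ψ (x⁻¹ * 1 * x) else 0) = 1 := by
        intro x
        have h3 : x⁻¹ * 1 * x = d.u 0 := by rw [u_zero, mul_one, inv_mul_cancel]
        rw [h3, ext_u, if_pos ⟨0, rfl⟩]
        exact AddChar.map_zero_eq_one ψ
      rw [Finset.sum_congr rfl fun x _ => h2 x, Finset.sum_const, Finset.card_univ, nsmul_eq_mul,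
        mul_one]
    rw [h1, hU, div_eq_iff hq0]
    have h4 : (2 : ℂ) * (Fintype.card G : ℂ) =
        (Fintype.card k : ℂ) * ((Fintype.card k : ℂ) ^ 2 - 1) := by
      exact_mod_cast congrArg (fun y : ℤ => (y : ℂ)) d.card
    linear_combination h4 / 2
  · unfold indFun
    have h1 := sumG hQ d ψ b hb
    rw [hU, div_eq_iff hq0]
    linear_combination h1 / 2
  · unfold indFun
    rw [Finset.sum_eq_zero, zero_div]
    intro x _
    rw [if_neg]
    rintro ⟨b, hb⟩
    exact hg1 (ord hQ d g hg x b hb.symm)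
  · have h1 := ord hQ d (x⁻¹ * d.u b * x) hz x⁻¹ b (by group)
    have h2 : d.u b = d.u 0 := by
      rw [u_zero]
      calc d.u b = x * (x⁻¹ * d.u b * x) * x⁻¹ := by group
        _ = 1 := by rw [h1]; group
    exact hb (d.u_inj h2)

end StarkC.ABS
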