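import Pool.Agent.ABS.FINU
import Pool.Agent.ABS.VFIN
import Pool.Agent.ABS.VBR
import Pool.Agent.ABS.FAS
import Pool.Agent.ABS.FAB
import Pool.Agent.ABS.FPD
import Pool.Agent.ABS.FCX
import Pool.Agent.ABS.FEN
import Pool.Agent.ABS.FKM
import Pool.Agent.ABS.FPW
import Pool.Agent.ABS.PFR
import Pool.Agent.ABS.PGS
import Pool.Agent.ABS.PVU
import Pool.Agent.ABS.PVD
import Pool.Agent.ABS.PNO
import Pool.Agent.ABS.PRU
import Pool.Agent.ABS.PIN
import Pool.Agent.ABS.PEQ
import Pool.Agent.ABS.PSQ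
import Pool.Agent.ABS.PPM
import Pool.Agent.ABS.PUH
import Pool.Agent.ABS.PTR
import Pool.Agent.ABS.PM1
import Pool.Agent.ABS.PM2
import Pool.Agent.ABS.PM3
import Pool.Agent.ABS.PM4
import Pool.Agent.ABS.PM5
import Pool.Agent.ABS.PM6
import Pool.Agent.ABS.PSL

/-!
# Project ABS (MP_46b841_nt), part P: assembly (helper91)

Stark's conjecture in norm, and in absolute value if `q ≡ 3` mod `4`, for the irreducible
representations of degree `(q - 1)/2` (`q ≡ 3` mod `4`) and `(q + 1)/2` (`q ≡ 1` mod `4`) with image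
isomorphic to `PSL_2(k)`, `k` a finite field with `q ≥ 5` elements, `q` odd and not a square.
-/

set_option autoImplicit false

open NumberField IsDedekindDomain
open scoped TensorProduct Classical MatrixGroups

namespace StarkC.ABS

namespace FINPx

theorem gal (n : ℕ) (E : IntermediateField ℚ ℂ) (hn : 0 < n) (h : E ≤ StarkP.rootField n) :
    IsGalois ℚ E :=
  galois_of_le n hn E h

/-- Theorem (G): the criterion. -/
theorem critG (K L : Type) [Field K] [NumberField K] [Field L] [NumberField L] [Algebra K L]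
    [IsGalois K L] (χ : (L ≃ₐ[K] L) → ℂ) (ℓ k m : ℕ)
    (S : Finset (HeightOneSpectrum (𝓞 K))) (Θ : ((L → ℝ) →₀ ℂ) →ₗ[ℂ] ((L → ℝ) →₀ ℂ))
    (hΘ : StarkP.IsTheta K (StarkP.aboveSet K L S) Θ) (hℓ : ℓ.Prime) (h2 : ℓ ≠ 2) (hm : 0 < m)
    (hcop : m.Coprime (Module.finrank ℚ (StarkP.charField χ))) (hP : PermC (StarkP.trChar χ))
    (hM : MonC (ℓ ^ k) (fun g => (m : ℂ) * χ g)) :
    StarkP.NormIn (StarkP.charField χ) χ (S : Set (HeightOneSpectrum (𝓞 K))) Θ :=
  FAS_thm SIGT_thm TRT_thm FCX_thm FCH_thm FINUx.conclOne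
    (FPD_thm SIGT_thm NORMT_thm FINFx.concl1 FINUx.conclOne)
    (FEN_thm SCY_thm SNM_thm SPB_thm SH9_thm SKA_thm FPW_thm FKM_thm gal)
    K L χ ℓ k m S Θ hΘ hℓ h2 hm hcop hP hM

/-- The group theory. -/
theorem psl (k G V : Type) [Field k] [Fintype k] [Group G] [Fintype G] [AddCommGroup V]
    [Module ℂ V] [Module.Finite ℂ V] (ρ : Representation ℂ G V) (h5 : 5 ≤ Fintype.card k)
    (hsq : ¬ IsSquare (Fintype.card k)) (hG : Nonempty (G ≃* PSL(2, k))) (hρ : ρ.IsIrreducible)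
    (hdim : Fintype.card k % 4 = 3 ∧ 2 * Module.finrank ℂ V + 1 = Fintype.card k ∨
      Fintype.card k % 4 = 1 ∧ 2 * Module.finrank ℂ V = Fintype.card k + 1) :
    MonC (ringChar k) ρ.character ∧ PermC (StarkP.trChar ρ.character) ∧
      Module.finrank ℚ (StarkP.charField ρ.character) = 2 ∧
      (Fintype.card k % 4 = 3 → ∃ g, (ρ.character g).im ≠ 0) :=
  PSL_thm PM6_thm PRU_thm PEQ_thm PFR_thm PGS_thm PVU_thm PVD_thm PNO_thm PIN_thm PM1_thm PM2_thm
    PM3_thm PM4_thm PM5_thm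
    (PTR_thm PFR_thm PGS_thm PVU_thm PVD_thm PNO_thm PSQ_thm PPM_thm PUH_thm SIGT_thm
      fun G _ _ n m r χ H ψ c hn hm hψ hχ => (FCH_thm SIGT_thm TRT_thm G n m r χ H ψ c hn hm hψ hχ).2)
    k G V ρ h5 hsq hG hρ hdim

/-- Irreducibility over a quotient. -/
theorem irr_of {G Q V : Type} [Group G] [Group Q] [AddCommGroup V] [Module ℂ V] (π : G →* Q)
    (hπ : Function.Surjective π) (ρ : Representation ℂ G V) (ρ' : Representation ℂ Q V)
    (h : ∀ g, ρ' (π g) = ρ g) (hρ : ρ.IsIrreducible) : ρ'.IsIrreducible := by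
  let e : Subrepresentation ρ' ≃o Subrepresentation ρ :=
    { toFun := fun W => ⟨W.toSubmodule, fun g v hv => by
        rw [← h g]
        exact W.apply_mem_toSubmodule (π g) hv⟩
      invFun := fun W => ⟨W.toSubmodule, fun q v hv => by
        obtain ⟨g, rfl⟩ := hπ q
        rw [h g]
        exact W.apply_mem_toSubmodule g hv⟩
      left_inv := fun W => rfl
      right_inv := fun W => rfl
      map_rel_iff' := Iff.rfl }
  exact (OrderIso.isSimpleOrder_iff e).2 hρ

end FINPx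

open FINPx

/-- Theorem (P_PSL): representations with image `PSL_2(k)` of degree `(q ± 1)/2`, the smallest degree
greater than `1`. -/
theorem finalPSL (K L : Type) [Field K] [NumberField K] [Field L] [NumberField L] [Algebra K L]
    [IsGalois K L] (S : Finset (HeightOneSpectrum (𝓞 K)))
    (Θ : ((L → ℝ) →₀ ℂ) →ₗ[ℂ] ((L → ℝ) →₀ ℂ))
    (hΘ : StarkP.IsTheta K (StarkP.aboveSet K L S) Θ)
    (V : Type) [AddCommGroup V] [Module ℂ V] [Module.Finite ℂ V]
    (ρ : Representation ℂ (L ≃ₐ[K] L) V) (k : Type) [Field k] [Fintype k]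
    (hρ : ρ.IsIrreducible) (h5 : 5 ≤ Fintype.card k) (hsq : ¬ IsSquare (Fintype.card k))
    (hG : Nonempty ((L ≃ₐ[K] L) ⧸ MonoidHom.ker ρ ≃* PSL(2, k)))
    (hdim : Fintype.card k % 4 = 3 ∧ 2 * Module.finrank ℂ V + 1 = Fintype.card k ∨
      Fintype.card k % 4 = 1 ∧ 2 * Module.finrank ℂ V = Fintype.card k + 1) :
    Module.finrank ℚ (StarkP.charField ρ.character) = 2 ∧
    StarkP.NormIn (StarkP.charField ρ.character) ρ.character
      (S : Set (HeightOneSpectrum (𝓞 K))) Θ ∧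
    (Fintype.card k % 4 = 3 →
      StarkP.AbsIn ρ.character (S : Set (HeightOneSpectrum (𝓞 K))) Θ) := by
  let π : (L ≃ₐ[K] L) →* ((L ≃ₐ[K] L) ⧸ MonoidHom.ker ρ) := QuotientGroup.mk' (MonoidHom.ker ρ)
  let _ : Fintype ((L ≃ₐ[K] L) ⧸ MonoidHom.ker ρ) := Fintype.ofFinite _
  have hπ : Function.Surjective π := QuotientGroup.mk'_surjective _
  let ρ' : Representation ℂ ((L ≃ₐ[K] L) ⧸ MonoidHom.ker ρ) V :=
    QuotientGroup.lift (MonoidHom.ker ρ) ρ (fun _ hg => hg)
  have hρ' : ∀ g, ρ' (π g) = ρ g := fun g => rfl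
  have hchar : (fun g => ρ'.character (π g)) = ρ.character := rfl
  obtain ⟨hM, hP, hF, him⟩ := psl k _ V ρ' h5 hsq hG (irr_of π hπ ρ ρ' hρ' hρ) hdim
  have hp : (ringChar k).Prime := CharP.char_is_prime k (ringChar k)
  have hcF : StarkP.charField ρ.character = StarkP.charField ρ'.character := by
    rw [← hchar]
    exact VFINx.charField_comp π hπ _
  have hF2 : Module.finrank ℚ (StarkP.charField ρ.character) = 2 := by
    rw [hcF]
    exact hF
  have hM2 : MonC (ringChar k) ρ.character := by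
    rw [← hchar]
    exact VBRx.monC_infl π hπ _ _ hM
  have hP2 : PermC (StarkP.trChar ρ.character) := by
    rw [← hchar, VFINx.trChar_comp π hπ]
    obtain ⟨r, H, c, hc⟩ := hP
    refine ⟨r, fun i => (H i).comap π, c, fun g => ?_⟩
    show StarkP.trChar ρ'.character (π g) = _
    rw [hc (π g)]
    refine Finset.sum_congr rfl fun i _ => ?_
    rw [CMB.indFun_infl π hπ]
  have hM3 : MonC (ringChar k ^ 1) (fun g => ((1 : ℕ) : ℂ) * ρ.character g) := by
    rw [pow_one]
    simpa only [Nat.cast_one, one_mul] using hM2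
  have hodd : ringChar k ≠ 2 := by
    intro h2
    have h3 : Fintype.card k % 2 = 0 := FiniteField.even_card_iff_char_two.1 h2
    omega
  have hN : StarkP.NormIn (StarkP.charField ρ.character) ρ.character
      (S : Set (HeightOneSpectrum (𝓞 K))) Θ :=
    critG K L ρ.character (ringChar k) 1 1 S Θ hΘ hp hodd one_pos (Nat.coprime_one_left _) hP2 hM3
  refine ⟨hF2, hN, fun h3 => ?_⟩
  obtain ⟨q, hq⟩ := him h3
  obtain ⟨g, rfl⟩ := hπ q
  exact FAB_thm REGC_thm K L ρ.character (ringChar k ^ 1) 1 S Θ hΘ (pow_pos hp.pos 1) one_pos hM3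
    hF2 ⟨g, hq⟩ hN

end StarkC.ABS
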