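import Pool.Agent.ABS.StR1
import Pool.Agent.ABS.PDefsA

/-!
# Project ABS (MP_46b841_nt), part G: group theory

See `ABS/StG.lean` for the plan.  Module `X` proves `theorem StarkC.ABS.X_thm : Stmt_X` in the file
`Pool/Agent/ABS/X.lean` (import `Pool.Agent.ABS.StG1`); helper lemmas in `namespace StarkC.ABS.Xx`.
-/

set_option autoImplicit false

open scoped Classical

namespace StarkC.ABS

/-! ### Combinations -/

/-- `θ` is an integral combination of permutation characters. -/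
def PermC {G : Type} [Group G] [Fintype G] (θ : G → ℂ) : Prop :=
  ∃ (r : ℕ) (H : Fin r → Subgroup G) (c : Fin r → ℤ),
    ∀ g, θ g = ∑ i, (c i : ℂ) * indFun (H i) (fun _ => 1) g

/-- `θ` is an integral combination of characters induced from linear characters of subgroups with
`ψ^n = 1`. -/
def MonC {G : Type} [Group G] [Fintype G] (n : ℕ) (θ : G → ℂ) : Prop :=
  ∃ (r : ℕ) (H : Fin r → Subgroup G) (ψ : ∀ i, H i →* ℂˣ) (c : Fin r → ℤ), (∀ i, ψ i ^ n = 1) ∧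
    ∀ g, θ g = ∑ i, (c i : ℂ) * indFun (H i) (extZ (ψ i)) g

/-! ### Groups -/

/-- `ψ^g = ψ^t`. -/
def cj {G : Type} [Group G] {U : Subgroup G} (ψ : U →* ℂˣ) (g : G) (t : ℕ) : Prop :=
  ∀ u ∈ U, extZ ψ (g⁻¹ * u * g) = extZ ψ u ^ t

/-- FCL (about 200 lines), Clifford theory.  (A stable submodule is `⊥` or `⊤`:
`IsIrreducible.eq_bot_or_eq_top` for `Subrepresentation`, see `RESFx.irr_of` in `ABS/RESF.lean`.)  Let `W ≠ 0` be a subspace of minimal dimension which is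
stable under all `ρ a`, `a ∈ U`; an eigenspace of `ρ a` in `W` is stable (the operators commute), so
it is `W`: every `ρ a` is a scalar `ψ a` on `W`.  `v ∈ W`, `v ≠ 0`; `ψ` is a homomorphism
`U →* ℂˣ`, `ψ (a)^(ℓ^j) = 1` for some `j`, so `ψ^(ℓ^J) = 1` with a common `J` and
`orderOf ψ = ℓ^k` (`Nat.dvd_prime_pow`).  The span of the `ρ g v` is stable, so it is `V`; `ρ (g a) v =
ψ(a) ρ g v`, so the `ρ g v`, `g` in a set of representatives of `G/U`, span `V`, and as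
`dim V = [G : U]` they are a basis (`basisOfTopLeSpanOfCardEqFinrank`).  `ρ h` maps the line of `ρ g v`
to the line of `ρ (h g) v`; so the trace is `∑_{g ∈ G/U, g⁻¹ h g ∈ U} ψ(g⁻¹ h g)`, which is
`indFun U (extZ ψ) h` (the sum over all `x : G` is `|U|` times the sum over the cosets, `U` is normal).
The stabiliser: `∑_g χ(g) χ(g⁻¹) = |G|` as `ρ` is irreducible (`Representation.char_orthonormal` in
Mathlib, `RepresentationTheory/Character.lean`, for `σ = ρ`), `χ` is zero outside `U`, and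
`∑_{u ∈ U} χ(u) χ(u⁻¹) = |U|⁻² ∑_{x, y ∈ G} ∑_{u ∈ U} ψ(x⁻¹ u x) ψ(y⁻¹ u⁻¹ y)`, where the sum over
`u` is `|U|` if `ψ^x = ψ^y` and zero otherwise (the sum of a nontrivial character of `U` is zero).  For
every `x` the number of the `y` with `ψ^x = ψ^y` is `|I|`, `I` = the set of the `g` with `cj ψ g 1`.  So
`|G| = |U|⁻¹ |G| |I|`, `|I| = |U|`, and `U ⊆ I`.  `k > 0`: if `ψ = 1` then `I = G = U`, so
`dim V = 1` and `χ = 1`, `ρ = 1`. -/
def Stmt_FCL : Prop :=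
  ∀ (G V : Type) [Group G] [Fintype G] [AddCommGroup V] [Module ℂ V] [Module.Finite ℂ V]
    (ρ : Representation ℂ G V) (ℓ : ℕ) (U : Subgroup G), ℓ.Prime → ρ.IsIrreducible → U.Normal →
    Module.finrank ℂ V = U.index → (∀ a ∈ U, ∀ b ∈ U, ρ a * ρ b = ρ b * ρ a) →
    (∀ a ∈ U, ∃ j : ℕ, ρ (a ^ ℓ ^ j) = 1) → (¬ ∀ g, ρ g = 1) →
    ∃ (k : ℕ) (ψ : U →* ℂˣ), 0 < k ∧ orderOf ψ = ℓ ^ k ∧ (∀ g, ρ.character g = indFun U (extZ ψ) g) ∧
      ∀ g, cj ψ g 1 → g ∈ U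

/-- FGB (about 100 lines).  If `ψ^g = ψ^t`: substitute `x ↦ x g` in the sum of `indFun` (`U` is
normal, `extZ (ψ^t) u = extZ ψ u ^ t` for `u ∈ U`; `0 ^ t` occurs only outside `U`, where both sides are
zero since `U` is normal).  Conversely, at `u ∈ U`: `∑_x (ψ^t)^x (u) = ∑_x ψ^x (u)`, sums over
`x : G` of homomorphisms `U →* ℂ`.  Homomorphisms are linearly independent
(`linearIndependent_monoidHom U ℂ`), so `ψ^t` (`x = 1` on the left, with coefficient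
`#{x | (ψ^t)^x = ψ^t} > 0`) occurs on the right: `ψ^x = ψ^t` for some `x`. -/
def Stmt_FGB : Prop :=
  ∀ (G : Type) [Group G] [Fintype G] (U : Subgroup G) (ψ : U →* ℂˣ) (t : ℕ), U.Normal →
    ((∀ g, indFun U (extZ (ψ ^ t)) g = indFun U (extZ ψ) g) ↔ ∃ g : G, cj ψ g t)

/-- FGT (about 180 lines).  `n = ℓ^k`.  If `cj ψ g t` then `t` is prime to `n` (`ψ^g` has order
`n`), and `t` is unique modulo `n`.  `T` = the set of the `g` with `cj ψ g t` for some `t`, a subgroup;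
`τ : T →* (ZMod n)ˣ`, `g ↦ t` (`cj ψ g s` and `cj ψ h t` give `cj ψ (g h) (s t)`, as
`ψ((g h)⁻¹ u g h) = ψ(g⁻¹ u g)^t = ψ(u)^(s t)`), with kernel `U` (`U ⊆ T` with `t = 1`; stabiliser).  So
`T/U` is isomorphic to the image `M`, `m = |M| = [T : U]` divides `[G : U]` and is prime to `ℓ`, and
`M` is the set of the classes of the `s < n` prime to `n` with `cj ψ g s` for some `g`.  `(ZMod n)ˣ` is cyclic
(`ZMod.isCyclic_units_of_prime_pow` for powers of odd primes), so is `M`; let `τ(h₀)` be a generator of `M`.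
Then `h₀^m ∈ U`.  Let `n c ≡ 1` modulo `m` and `h = h₀^(n c)`: `τ(h) = τ(h₀)^(n c) = τ(h₀)`, and
`ψ(h^m) = ψ(h₀^m)^(n c) = 1`.  Let `t < n` represent `τ(h)`.  `h^i ∈ U` iff `τ(h)^i = 1` iff `m ∣ i`.  If
`t^i ≡ 1` modulo `ℓ`, `0 < i < m`: `τ(h)^i` is in the kernel of `(ZMod ℓ^k)ˣ → (ZMod ℓ)ˣ`, whose order
is a power of `ℓ` (or: `t^i ≡ 1` modulo `ℓ` implies `(t^i)^(ℓ^(k-1)) ≡ 1` modulo `ℓ^k`), and the order
of `τ(h)^i` divides `m`, prime to `ℓ`; so `τ(h)^i = 1`, contradiction. -/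
def Stmt_FGT : Prop :=
  ∀ (G : Type) [Group G] [Fintype G] (ℓ k : ℕ) (U : Subgroup G) (ψ : U →* ℂˣ), ℓ.Prime → ℓ ≠ 2 →
    0 < k → U.Normal → ¬ ℓ ∣ U.index → orderOf ψ = ℓ ^ k → (∀ g, cj ψ g 1 → g ∈ U) →
    ∃ (h : G) (t m : ℕ), 0 < m ∧ cj ψ h t ∧ extZ ψ (h ^ m) = 1 ∧ (∀ i, h ^ i ∈ U → m ∣ i) ∧
      (∀ i, 0 < i → i < m → ¬ t ^ i ≡ 1 [MOD ℓ]) ∧
      m = (((Finset.range (ℓ ^ k)).filter fun s => (ℓ ^ k).Coprime s).filter fun s => ∃ g : G, cj ψ g s).card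

/-- FGM (about 250 lines).  `n = ℓ^k`, `N₁ = {u ∈ U | ψ(u) = 1}`, `N₂ = {u ∈ U | ψ(u)^ℓ = 1}`,
subgroups normalised by `U` and by `h` (`ψ(h⁻¹ u h) = ψ(u)^t`; `h` permutes the finite group `N_j`), and
`h^m ∈ N₁` (`extZ ψ (h^m) = 1` implies `h^m ∈ U`).
(a) For `N = N₁, N₂`: `H = {h^i u | i ∈ ℕ, u ∈ N}` is a subgroup (`u h^j = h^j (h^(-j) u h^j)`;
inverses: `G` is finite), `H ∩ U = N` (if `h^i ∈ U` then `m ∣ i` and `h^i ∈ N`) and `|H| = m |N|`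
(`(i, u) ↦ h^i u`, `i < m`, is bijective onto `H`).
(b) `|U| = n |N₁|`, `|N₂| = ℓ |N₁|` (`ψ` maps `U` onto the group of `n`-th roots of unity: its range is
cyclic and has exponent `n`; `N₂` is the preimage of the group of order `ℓ`), and for `z^n = 1`
`∑_{s < n, (s, n) = 1} z^s = n [z = 1] - (n/ℓ) [z^ℓ = 1]` (as in `ABS/CHI.lean`).  Hence the right side at `g` is
`#{x | x⁻¹ g x ∈ N₁} / |N₁| - #{x | x⁻¹ g x ∈ N₂} / |N₂|`.
(c) The left side is `#{x | x⁻¹ g x ∈ H₁} / |N₁| - #{x | x⁻¹ g x ∈ H₂} / |N₂|` by (a).  For `g ∈ U`: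
`x⁻¹ g x ∈ U` (`U` is normal), so `x⁻¹ g x ∈ H_j` iff `∈ N_j`; equal.  For `g ∉ U` the right side is zero
and the claim is `#{x | x⁻¹ g x ∈ H₂} = ℓ #{x | x⁻¹ g x ∈ H₁}`.  Let `w ∈ N₂` with `ψ(w)` of order
`ℓ`.  For `y ∈ H₂ \ U` there is exactly one `j < ℓ` with `w^(-j) y w^j ∈ H₁`: `y = h^i u`, `u ∈ N₂`, not
`m ∣ i`; `w^(-j) h^i u w^j = h^i (h^(-i) w^(-j) h^i) u w^j`, where the last factor is in `N₂` and its
value under `ψ` is `ψ(w)^(j (1 - t^i)) ψ(u)`; it is in `H₁` iff this value is `1` (if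
`h^i v ∈ H₁`, `v ∈ N₂`, then `h^i v = h^(i') v'`, `v' ∈ N₁`, `h^(i - i') ∈ U`, so `m` divides
`i - i'`, `h^(i-i') ∈ N₁` and `v ∈ N₁`); `1 - t^i` is prime to `ℓ` (write `i = i₀ + m i₁`,
`0 < i₀ < m`; `t^m ≡ 1` modulo `n` as `h^m ∈ U`, and `n` is divisible by `ℓ`), and `ψ(u)` is a power of
`ψ(w)`: exactly one `j` modulo `ℓ`.  So
`{x | x⁻¹ g x ∈ H₂} = ⊔_{j < ℓ} {x | (x w^j)⁻¹ g (x w^j) ∈ H₁}`, and each set on the right has
`#{x | x⁻¹ g x ∈ H₁}` elements (`x ↦ x w^j`). -/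
def Stmt_FGM : Prop :=
  ∀ (G : Type) [Group G] [Fintype G] (ℓ k : ℕ) (U : Subgroup G) (ψ : U →* ℂˣ) (h : G) (t m : ℕ),
    ℓ.Prime → 0 < k → U.Normal → orderOf ψ = ℓ ^ k → 0 < m → cj ψ h t → extZ ψ (h ^ m) = 1 →
    (∀ i, h ^ i ∈ U → m ∣ i) → (∀ i, 0 < i → i < m → ¬ t ^ i ≡ 1 [MOD ℓ]) →
    ∃ H₁ H₂ : Subgroup G, ∀ g, (m : ℂ) * (indFun H₁ (fun _ => 1) g - indFun H₂ (fun _ => 1) g) =
      ∑ s ∈ (Finset.range (ℓ ^ k)).filter (fun s => (ℓ ^ k).Coprime s), indFun U (extZ (ψ ^ s)) g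

end StarkC.ABS
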