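import Pool.Agent.ABS.StS

/-!
# Project ABS (MP_46b841_nt), part G: cochains

See `ABS/StG.lean` for the plan.  Module `X` proves `theorem StarkC.ABS.X_thm : Stmt_X` in the file
`Pool/Agent/ABS/X.lean` (import `Pool.Agent.ABS.StG2`); helper lemmas in `namespace StarkC.ABS.Xx`.
-/

set_option autoImplicit false

open scoped Classical

namespace StarkC.ABS

open StarkP (rootField)

/-! ### Cochains -/

/-- Reduction of a character with values in `ℤ/(m d)` modulo `d`. -/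
noncomputable def redK {n : ℕ} (m d : ℕ) (κ : (ZMod n)ˣ →* Multiplicative (ZMod (m * d))) :
    (ZMod n)ˣ →* Multiplicative (ZMod d) :=
  (AddMonoidHom.toMultiplicative
    (ZMod.castHom (dvd_mul_left d m) (ZMod d)).toAddMonoidHom).comp κ

/-- FPW (about 60 lines).  `y = vl κ u < m d`, `x = vl (redK m d κ) u = y % d`, `c(u) = y / d`,
`y = x + d c(u)`.  Take `b'(u) = b(u) a^(-c(u))` (`zpow`).  With `g`, `u = cych n g`, `w`:
`y_u + y_w = y_(uw) + m d C'` where `C' = (y_u + y_w) / (m d)` (`ZMod.val_add`), and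
`x_u + x_w = x_(uw) + d C`, `C = (x_u + x_w) / d`, so `C = m C' - (c_u + c_w - c_(uw))` (divide by
`d`).  `b'(u) g(b'(w)) = b(u) g(b(w)) a^(-c_u-c_w) = b(uw) (a^m)^(C') a^(-c_u-c_w) = b'(uw) a^C`. -/
def Stmt_FPW : Prop :=
  ∀ (n m d : ℕ) [NeZero n] [NeZero m] [NeZero d] (a : ℚ)
    (κ : (ZMod n)ˣ →* Multiplicative (ZMod (m * d))), a ≠ 0 → Coch n (m * d) (a ^ m) κ →
    Coch n d a (redK m d κ)

/-- FKM (about 80 lines).  `(ZMod (ℓ^k))ˣ` is cyclic of order `φ(ℓ^k) = m d`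
(`ZMod.isCyclic_units_of_prime_pow`, `ZMod.card_units_eq_totient`); let `g` be a generator and `e ∈ ZMod (m d)` with
`e` modulo `d` equal to `κ g` (`ZMod.castHom_surjective`, or the cast of `ZMod.val`).  `m d e = 0`, so
there is `κ'` with `κ' g = e` (`zmodCyclicMulEquiv`, or `IsCyclic` and `zpowersHom`; for instance
`κ' (g^i) = i e`, well defined), and `redK m d κ' = κ`, as both agree at `g`. -/
def Stmt_FKM : Prop :=
  ∀ (ℓ k m d : ℕ), ℓ.Prime → ℓ ≠ 2 → 0 < k → m * d = (ℓ ^ k).totient →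
    ∀ κ : (ZMod (ℓ ^ k))ˣ →* Multiplicative (ZMod d),
      ∃ κ' : (ZMod (ℓ ^ k))ˣ →* Multiplicative (ZMod (m * d)), redK m d κ' = κ

/-- FEN (about 120 lines).  The proof of `SFF_thm` (`ABS/SFF.lean`), in which the hypothesis
`hall d κ` is used for one `κ` only (from SKA): FKM gives `κ'`, SPB (for `ℚ(ζ_n)`, `a^m = N(β)`) gives
`Coch n (m * d) (a ^ m) κ'`, FPW gives `Coch n d a κ`.  `F/ℚ` is Galois (`galois_of_le`,
`ABS/SYMG.lean` or hypothesis `hgal`) and cyclic: its group is a quotient of the group of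
`ℚ(ζ_n)/ℚ`, which is isomorphic to the cyclic group `(ℤ/n)^*`
(`IsCyclotomicExtension.autEquivPow`, `rootField_cyc` in `ABS/SNM.lean` or `COREBx.isCyc`; `AlgEquiv.restrictNormalHom_surjective`,
`isCyclic_of_surjective`).  `α ≠ 0` as `a ≠ 0` (`F` is finite over `ℚ`). -/
def Stmt_FEN : Prop :=
  Stmt_SCY → Stmt_SNM → Stmt_SPB → Stmt_SH9 → Stmt_SKA → Stmt_FPW → Stmt_FKM →
  (∀ (n : ℕ) (E : IntermediateField ℚ ℂ), 0 < n → E ≤ rootField n → IsGalois ℚ E) →
  ∀ (ℓ k m : ℕ) (a : ℚ) (β : rootField (ℓ ^ k)) (F : IntermediateField ℚ ℂ), ℓ.Prime → ℓ ≠ 2 →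
    0 < k → 0 < m → a ≠ 0 → Algebra.norm ℚ β = a ^ m → F ≤ rootField (ℓ ^ k) →
    m * Module.finrank ℚ F = (ℓ ^ k).totient →
    ∃ α : F, α ≠ 0 ∧ Algebra.norm ℚ α = a

end StarkC.ABS
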