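import Pool.Agent.ABS.StA2

/-!
# Project ABS (MP_46b841_nt), part G: the class number formula for `K`

See `ABS/StG.lean` for the plan.  FRA: `theorem ABS.FRA_thm : ABS.Stmt_FRA` in
`Pool/Agent/ABS/FRA.lean`, import `Pool.Agent.ABS.StG3`; helper lemmas in `namespace ABS.FRAx`.
-/

set_option autoImplicit false

open NumberField NumberField.InfinitePlace IsDedekindDomain
open scoped Classical

namespace ABS

/-- FRA (about 150 lines), part A form of the class number formula for `K` and `L/K`.  The first part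
is the half `hd2` of the proof of COX (`ABS/COX.lean`) with `F = K`, all `g : L ≃ₐ[K] L` in place of
`b ∈ B` (no `exists_up`, `exists_down`, `actf_congr` needed; `fixP ⊤`: membership in `⊤` is trivial):
TRE gives `T`, TRF for `K ⊆ K ⊆ L` (`F = K`) gives `T' : V K →ₗ V K` with `TH K K L T T'`, and DTC gives
`detOn Θ (XC ⊓ fixP ⊤) = det T'`.  There is an integer `m > 0` with `m T'(X K) ⊆ Lam K`: this is
`Stmt_MUL` for `F = K`.  REG1 for `K`, `T'`, `m`: `|det T'| m^r = [Lam : m T' X] R_K`, so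
`det T' = a R_K` with the rational number `a = ± [Lam : m T' X] / m^r ≠ 0`
(`abs_eq_abs`/`abs_choice`). -/
def Stmt_FRA : Prop :=
  Stmt_IOT → Stmt_LMU → Stmt_SPN → Stmt_TRE → Stmt_JN → Stmt_JV → Stmt_LG → Stmt_LJ → Stmt_TRF →
    Stmt_MUL → Stmt_DTC → Stmt_REG1 →
  ∀ (K L : Type) [Field K] [NumberField K] [Field L] [NumberField L] [Algebra K L] [IsGalois K L]
    (Θ : ((L → ℝ) →₀ ℂ) →ₗ[ℂ] ((L → ℝ) →₀ ℂ)),
    StarkP.IsTheta K (StarkP.aboveSet K L ∅) Θ →
    ∃ a : ℚ, a ≠ 0 ∧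
      StarkP.detOn Θ (StarkP.XC L (StarkP.aboveSet K L ∅) ⊓
        StarkP.ABS.fixP (⊤ : Subgroup (L ≃ₐ[K] L))) = (((a : ℝ) * Units.regulator K : ℝ) : ℂ)

end ABS
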