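import Pool.Agent.ABS.StF
import Pool.Agent.ABS.StG1
import Pool.Agent.ABS.StG2
import Pool.Agent.ABS.StG3

/-!
# Project ABS (MP_46b841_nt), part G: a criterion, and characters with a small field of values

`ℓ` an odd prime, `G = Gal(L/K)`.  THEOREM (G) (criterion, helper91): let `χ` be a class function such
that (i) `Tr χ` is an integral combination of permutation characters, (ii) `m χ` is an integral
combination of characters `Ind_H ψ`, `ψ` linear, `ψ^(ℓ^k) = 1`, for some `m ≥ 1` prime to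
`[ℚ(χ) : ℚ]`.  Then `A_S(Tr χ, φ) = N(α)`, `α ∈ ℚ(χ)^*` (`N` the norm of `ℚ(χ)/ℚ`).
THEOREM (F): it applies to the irreducible `ρ` for which there is a normal subgroup `U` of index
`dim ρ`, prime to `ℓ`, such that `ρ(U)` is an abelian `ℓ`-group.  (A5): and to the representations of
degree `3` of `A_5`, `ℚ(χ) = ℚ(√5)`.

PROOF of (G).  `n = ℓ^k`, `F = ℚ(χ) ⊆ ℚ(ζ_n)`, `e = [ℚ(ζ_n) : F]`; `e m Tr χ = ∑_t ∑_i c_i Ind ψ_i^t`
(FCH).  `q = A_S(Tr χ, φ)` is rational by (i) (FRA, FRT: the class number formula; FCX).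
`q^(m e) = N(β)`, `β ∈ ℚ(ζ_n)` (`Concl1`, FPD, FCX).  So the classes `(κ', (q^m)^e)`, `κ'` a
character of `(ℤ/n)^*`, are trivial (SPB), i.e. `(e κ', q^m) = 0` (FPW); every character of
`Gal(F/ℚ)` is `e κ'` (FKM: `(ℤ/n)^*` is cyclic); so `q^m` is a norm from `F` (FEN, as SFF), and so is
`q^[F:ℚ]`, and `m` is prime to `[F : ℚ]` (FAS).  FAB: absolute values.
PROOF of (F): FCL, FGB, FGT, FGM, FGA.

Module `X` proves `theorem StarkC.ABS.X_thm : Stmt_X` in the file `Pool/Agent/ABS/X.lean` (FRA: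
`theorem ABS.FRA_thm : ABS.Stmt_FRA`); helper lemmas in `namespace StarkC.ABS.Xx`.  The statements used
are hypotheses inside `Stmt_X`.
-/

set_option autoImplicit false

open NumberField NumberField.InfinitePlace IsDedekindDomain
open scoped TensorProduct Classical

namespace StarkC.ABS

open StarkP (rootField)

/-! ### Rational values -/

/-- FRT (about 150 lines), the trivial character.  `S = ∅`: the second half of COREB
(`ABS/COREB.lean`: `Θ'`, `stable`, `rep_eq`, `mem_inv`, `eqv` with `Gal(L/K)` itself in place of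
`Gal(L / L^B)`, `fixP ⊤`) gives `Reg T (linRep 1) Θ = detOn Θ' (XC ⊓ fixP ⊤) = a R_K` (REGI, FRA).
ZETA gives `Z` with leading coefficient `- h R_K / w`, and `LINF_thm` (as in `MAIN.logL_infl`, LFB)
the same series for `L/K`, so `Reg = (- a w / h) Z^*`; `cSum 1 1 = 1`, `Ex 1 = {0}`,
`cReg 1 T 1 Θ = Reg T (linRep (1 ^ 0)) Θ`, and `nm 1 (algebraMap ℚ (Cyc 1) b) = b`
(`Algebra.norm_algebraMap`, `finrank ℚ (Cyc 1) = 1`: `RESFx.finrank_cyc`).  All `S`: induction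
(`Finset.induction_on`) with the conclusion of PSTEP, which is the hypothesis `hstep`, for
`n = 1`, `ψ = 1`. -/
def Stmt_FRT : Prop :=
  (∀ (K L : Type) [Field K] [NumberField K] [Field L] [NumberField L] [Algebra K L] [IsGalois K L]
    (Θ : ((L → ℝ) →₀ ℂ) →ₗ[ℂ] ((L → ℝ) →₀ ℂ)),
    StarkP.IsTheta K (StarkP.aboveSet K L ∅) Θ →
    ∃ a : ℚ, a ≠ 0 ∧
      StarkP.detOn Θ (StarkP.XC L (StarkP.aboveSet K L ∅) ⊓
        StarkP.ABS.fixP (⊤ : Subgroup (L ≃ₐ[K] L))) = (((a : ℝ) * Units.regulator K : ℝ) : ℂ)) →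
  Stmt_REGI → Stmt_ZETA →
  (∀ (n : ℕ) (K L : Type) [Field K] [NumberField K] [Field L] [NumberField L] [Algebra K L]
    [IsGalois K L] (ψ : (L ≃ₐ[K] L) →* ℂˣ) (S : Finset (HeightOneSpectrum (𝓞 K)))
    (v : HeightOneSpectrum (𝓞 K)), 0 < n → ψ ^ n = 1 → v ∉ S →
    PPall n ψ S → PPall n ψ (insert v S)) →
  ∀ (K L : Type) [Field K] [NumberField K] [Field L] [NumberField L] [Algebra K L] [IsGalois K L]
    (S : Finset (HeightOneSpectrum (𝓞 K))), PPall 1 (1 : (L ≃ₐ[K] L) →* ℂˣ) S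

/-- FPD (about 120 lines).  `ψ^(ℓ^k) = 1`, so `orderOf ψ = ℓ^j`, `j ≤ k`; `n = ℓ^k`, `n' = ℓ^j`.  `PPall n' ψ S`:
`Concl1` if `j > 0` (`OkOrd ℓ j`, `ℓ` odd), the hypothesis `hone` if `j = 0` (`ψ = 1`).  If
`j = k` we are done.  Otherwise reduction modulo `n'` maps `Ex n` onto `Ex n'` with fibres of
`f = φ(n) / φ(n')` elements (`j = 0`: `Ex 1 = {0}`), `ψ^t` depends on `t` modulo `n'`, so
`cSum n ψ = f · cSum n' ψ` and `cReg n = (cReg n')^f`; with `F`, `α` from `PPall n' ψ S` take `F^f`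
(`MeromorphicAt.pow`, the leading coefficient of a power; `IND.logL_sum` for `f` times a function, as
in COMB with `r = 1`, `c = f`), and `α ∈ Cyc n' ≤ Cyc n` as an element of `Cyc n`:
`nm n α = (nm n' α)^f` by NORMT for `n` and `n'` (`∏_{t ∈ Ex n} σ_t α`, where `σ_t α` depends on `t`
modulo `n'`; SIGT gives the `σ_t`, `t ∈ Ex n`, and for `n'` use `σ_(t')` with any `t' ∈ Ex n` over `t`; or
`Algebra.norm_algebraMap`-like in the tower).  The count of the fibres: `f` is the same for all `t`: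
`(ZMod n)ˣ → (ZMod n')ˣ` is surjective (`ZMod.unitsMap_surjective`); or by induction on `k - j`: from
`ℓ^i` to `ℓ^(i+1)`, `i ≥ 1`, the fibre of `t` is `t + n' s`, `s < ℓ`, and from `1` to `ℓ` it is
`1, ..., ℓ - 1`. -/
def Stmt_FPD : Prop :=
  Stmt_SIGT → Stmt_NORMT → Concl1 →
  (∀ (K L : Type) [Field K] [NumberField K] [Field L] [NumberField L] [Algebra K L] [IsGalois K L]
    (S : Finset (HeightOneSpectrum (𝓞 K))), PPall 1 (1 : (L ≃ₐ[K] L) →* ℂˣ) S) →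
  ∀ (K L : Type) [Field K] [NumberField K] [Field L] [NumberField L] [Algebra K L] [IsGalois K L]
    (ℓ k : ℕ) (ψ : (L ≃ₐ[K] L) →* ℂˣ) (S : Finset (HeightOneSpectrum (𝓞 K))), ℓ.Prime → ℓ ≠ 2 →
    ψ ^ (ℓ ^ k) = 1 → PPall (ℓ ^ k) ψ S

/-- FCX (about 130 lines).  Combinations with several orders at once: the proof of `COMB_thm`
(`ABS/COMB.lean`) with `q i` in place of `q`; `x i = nm (q i) (α i)` is chosen before `c`, `θ`; for
given `c`, `θ` the function is `∏ i, F i ^ c i`. -/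
def Stmt_FCX : Prop :=
  ∀ (K L : Type) [Field K] [NumberField K] [Field L] [NumberField L] [Algebra K L] [IsGalois K L]
    (S : Finset (HeightOneSpectrum (𝓞 K)))
    (φ : XQ L (aboveSet K L S) ≃ₗ[ℚ] QU L (aboveSet K L S))
    (Θ : XC L (aboveSet K L S) →ₗ[ℂ] XC L (aboveSet K L S))
    (r : ℕ) (H : Fin r → Subgroup (L ≃ₐ[K] L)) (q : Fin r → ℕ) (ψ : ∀ i, H i →* ℂˣ),
    IsPhiTheta K (aboveSet K L S) φ Θ →
    (∀ i (S' : Finset (HeightOneSpectrum (𝓞 (IntermediateField.fixedField (H i))))),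
      PPall (q i) (liftChar (H i) (ψ i)) S') →
    ∃ x : Fin r → ℂ, (∀ i, ∃ α : Cyc (q i), α ≠ 0 ∧ x i = nm (q i) α) ∧
      ∀ (c : Fin r → ℤ) (θ : (L ≃ₐ[K] L) → ℂ),
        (∀ g, θ g = ∑ i, (c i : ℂ) * ∑ t ∈ Ex (q i), indFun (H i) (extZ (ψ i ^ t)) g) →
        ∃ F : ℂ → ℂ, IsArtinL θ (S : Set (HeightOneSpectrum (𝓞 K))) F ∧
          ∀ (V : Type) [AddCommGroup V] [Module ℂ V] [Module.Finite ℂ V]
            (ρ : Representation ℂ (L ≃ₐ[K] L) V), (∀ g, ρ.character g = θ g) →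
            Reg (aboveSet K L S) ρ Θ = (∏ i, x i ^ c i) * meromorphicTrailingCoeffAt F 0

/-! ### The field of values -/

/-- FCH (about 180 lines).  `F = ℚ(χ)`.  `m χ g` is in `Cyc n` (sums of `n`-th roots of unity divided by
`|H i|`), so `F ≤ Cyc n`.  Let `σ_t`, `t ∈ Ex n`, be automorphisms with `σ_t z = z^t` for `z^n = 1`
(SIGT): `m σ_t (χ g) = ∑_i c_i indFun (H i) (extZ (ψ i ^ t)) g` (`t ≠ 0` or `n = 1`; outside `H i` the
extension by zero is zero on both sides).  The restrictions of the `σ_t` to `Cyc n` are the `φ(n)`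
different elements of the Galois group of `Cyc n/ℚ` (see the proof of NORMT, `ABS/NORMT.lean`), and
automorphisms of `ℂ` with the same `t` agree on `Cyc n`; so the group which fixes `F` has `e` elements,
`e` the number of the `t` of the statement, and `e [F : ℚ] = [Cyc n : ℚ] = φ(n)`
(`IsGalois.card_fixingSubgroup_eq_finrank`, `Module.finrank_mul_finrank`, `RESFx.finrank_cyc`).  TRT
for `x = χ g`: `∑_{t ∈ Ex n} σ_t (χ g) = tr_{Cyc n/ℚ}(χ g) = [Cyc n : F] tr_{F/ℚ}(χ g)`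
(`Algebra.trace_trace`, `Algebra.trace_algebraMap`), `[Cyc n : F] = e`. -/
def Stmt_FCH : Prop :=
  Stmt_SIGT → Stmt_TRT →
  ∀ (G : Type) [Group G] [Fintype G] (n m r : ℕ) (χ : G → ℂ) (H : Fin r → Subgroup G)
    (ψ : ∀ i, H i →* ℂˣ) (c : Fin r → ℤ), 0 < n → 0 < m → (∀ i, ψ i ^ n = 1) →
    (∀ g, (m : ℂ) * χ g = ∑ i, (c i : ℂ) * indFun (H i) (extZ (ψ i)) g) →
    StarkP.charField χ ≤ Cyc n ∧ ∃ e : ℕ, 0 < e ∧
      e = ((Ex n).filter fun t => ∀ σ : ℂ ≃+* ℂ, (∀ z : ℂ, z ^ n = 1 → σ z = z ^ t) →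
        ∀ g, σ (χ g) = χ g).card ∧
      e * Module.finrank ℚ (StarkP.charField χ) = n.totient ∧
      ∀ g, ((m * e : ℕ) : ℂ) * StarkP.trChar χ g =
        ∑ i, (c i : ℂ) * ∑ t ∈ Ex n, indFun (H i) (extZ (ψ i ^ t)) g

/-! ### The end -/

/-- FAS (about 200 lines), THEOREM (G).  `n = ℓ^k`.  `StarkB.exists_isPhiTheta` (see `RESFx.irr`,
`ABS/RESF.lean`) gives `φ`, `Θ₀`.  FCH gives `e`.  FCX for the family: `(⊤, 1, q = 1)`, the `(H_i, 1, q = 1)` of
PermC, and the `(H'_j, ψ_j, q = n)` of MonC (`Fin (1 + r + r')`; `indFun H (fun _ => 1)` and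
`indFun H (extZ 1)` are equal; `liftChar H 1 = 1`, `liftChar H ψ ^ n = 1`; PPall by the hypotheses):
`x₀`, `x_i`, `y_j`, the first ones norms from `Cyc 1`, so rational and `≠ 0`, and `y_j = nm n β_j`.
`c = (0, c_i, 0)`, `θ = Tr χ` (the sum over `Ex 1 = {0}`): `F` with `Reg ρ' Θ₀ = a F^*`, `a = ∏ x_i^(c_i) ∈ ℚ^*`,
for all `ρ'` with character `Tr χ`.  `c = (1, 0, 0)` and `c = (1, m e c_i, - c'_j)`, both with `θ = 1`
(by FCH), and the trivial representation (`linRep 1`): `x₀ F₀^* = x₀ a^(m e) (∏ y_j^(c'_j))⁻¹ F₁^*`; both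
functions are continuations of the same series (`LASTx.trail_unique`), and `Reg ≠ 0`
(`StarkG.reg_ne_zero`), so `(a^m)^e = ∏ y_j^(c'_j) = nm n β` (`COMBx.nm_prod`, `nm_zpow`).  FEN (for
`a^m` and `e`): `a^m = N(α')`, `α' ∈ F = ℚ(χ)`.  `u m + v [F : ℚ] = 1` with integers `u`, `v`:
`a = N(α'^u a^v)` (`Algebra.norm_algebraMap`; `zpow` of the norm as in `COMBx.nm_zpow`).  The end as
`RESFx.normIn_of`.  (If `k = 0`, then `ℚ(χ) = ℚ`; FEN needs `0 < k`: replace `k` by `k + 1`.) -/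
def Stmt_FAS : Prop :=
  Stmt_SIGT → Stmt_TRT → Stmt_FCX → Stmt_FCH →
  (∀ (K L : Type) [Field K] [NumberField K] [Field L] [NumberField L] [Algebra K L] [IsGalois K L]
    (S : Finset (HeightOneSpectrum (𝓞 K))), PPall 1 (1 : (L ≃ₐ[K] L) →* ℂˣ) S) →
  (∀ (K L : Type) [Field K] [NumberField K] [Field L] [NumberField L] [Algebra K L] [IsGalois K L]
    (ℓ k : ℕ) (ψ : (L ≃ₐ[K] L) →* ℂˣ) (S : Finset (HeightOneSpectrum (𝓞 K))), ℓ.Prime → ℓ ≠ 2 →
    ψ ^ (ℓ ^ k) = 1 → PPall (ℓ ^ k) ψ S) →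
  (∀ (ℓ k m : ℕ) (a : ℚ) (β : rootField (ℓ ^ k)) (F : IntermediateField ℚ ℂ), ℓ.Prime → ℓ ≠ 2 →
    0 < k → 0 < m → a ≠ 0 → Algebra.norm ℚ β = a ^ m → F ≤ rootField (ℓ ^ k) →
    m * Module.finrank ℚ F = (ℓ ^ k).totient → ∃ α : F, α ≠ 0 ∧ Algebra.norm ℚ α = a) →
  ∀ (K L : Type) [Field K] [NumberField K] [Field L] [NumberField L] [Algebra K L]
    [IsGalois K L] (χ : (L ≃ₐ[K] L) → ℂ) (ℓ k m : ℕ)
    (S : Finset (HeightOneSpectrum (𝓞 K))) (Θ : ((L → ℝ) →₀ ℂ) →ₗ[ℂ] ((L → ℝ) →₀ ℂ)),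
    StarkP.IsTheta K (StarkP.aboveSet K L S) Θ → ℓ.Prime → ℓ ≠ 2 → 0 < m →
    m.Coprime (Module.finrank ℚ (StarkP.charField χ)) → PermC (StarkP.trChar χ) →
    MonC (ℓ ^ k) (fun g => (m : ℂ) * χ g) →
    StarkP.NormIn (StarkP.charField χ) χ (S : Set (HeightOneSpectrum (𝓞 K))) Θ

/-- FAB (about 200 lines), absolute values, when `E = ℚ(χ)` is imaginary quadratic.  `E` has degree two
and contains a number which is not real; so it is Galois over `ℚ`, the complex conjugation restricts to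
its nontrivial automorphism, `tr_{E/ℚ} x = x + conj x`, `N(α) = α conj α = |α|²`,
`Tr χ = χ + conj χ`.  Take `α` from NormIn.  `f` an Artin `L`-function of `χ`,
`cf f(s) = conj (f (conj s))` one of `conj χ` (`logL_conj`, `cf_mero`, `cf_trail` of `LASTx`, used in
`ABS/ABL.lean`), `f · cf f` is one of `Tr χ`, so `F^* = |f^*|²` (`trail_unique`).  Regulators, for `ρ`
with character `χ` and `Θ₀` from `StarkB.exists_isPhiTheta`: `INDP.reg_comb` with the exponent `M = m`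
(see the end of `abs_ind`, `ABS/ABL.lean`) gives `(Reg ρ)^m = ∏ R_i^(c_i)`,
`R_i = Reg (linRep (liftChar (H i) (ψ i)))`, and `(Reg τ)^m = ∏ R_i^(c_i) · ∏ R'_i^(c_i)` for
`τ = ρ.prod ρ.dual` (`Representation.prod`, `Representation.char_dual`; its character is
`χ(g) + χ(g⁻¹) = χ + conj χ`: `χ(g⁻¹) = conj (χ g)` holds for characters of finite groups, or
from `m χ = ∑ c_i Ind ψ_i`), with `R'_i` for `ψ_i⁻¹`; REGC over `L^(H i)`: `R'_i = conj R_i`.  So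
`|Reg τ| = |Reg ρ|²`, and NormIn for `τ`: `Reg τ = N(α) F^*`.  Hence `|Reg ρ|² = |α|² |f^*|²`. -/
def Stmt_FAB : Prop :=
  Stmt_REGC →
  ∀ (K L : Type) [Field K] [NumberField K] [Field L] [NumberField L] [Algebra K L]
    [IsGalois K L] (χ : (L ≃ₐ[K] L) → ℂ) (n m : ℕ)
    (S : Finset (HeightOneSpectrum (𝓞 K))) (Θ : ((L → ℝ) →₀ ℂ) →ₗ[ℂ] ((L → ℝ) →₀ ℂ)),
    StarkP.IsTheta K (StarkP.aboveSet K L S) Θ → 0 < n → 0 < m →
    MonC n (fun g => (m : ℂ) * χ g) →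
    Module.finrank ℚ (StarkP.charField χ) = 2 → (∃ g, (χ g).im ≠ 0) →
    StarkP.NormIn (StarkP.charField χ) χ (S : Set (HeightOneSpectrum (𝓞 K))) Θ →
    StarkP.AbsIn χ (S : Set (HeightOneSpectrum (𝓞 K))) Θ

/-! ### Corollary (F) -/

/-- The situation of theorem (F). -/
structure SitG (ℓ : ℕ) {G V : Type} [Group G] [AddCommGroup V] [Module ℂ V]
    (ρ : Representation ℂ G V) (U : Subgroup G) : Prop where
  prime : ℓ.Prime
  odd : ℓ ≠ 2
  irr : ρ.IsIrreducible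
  nontriv : ¬ ∀ g, ρ g = 1
  normal : U.Normal
  dim : Module.finrank ℂ V = U.index
  coprime : ¬ ℓ ∣ U.index
  comm : ∀ a ∈ U, ∀ b ∈ U, ρ a * ρ b = ρ b * ρ a
  pgroup : ∀ a ∈ U, ∃ j : ℕ, ρ (a ^ ℓ ^ j) = 1

/-- FGA (about 100 lines).  FCL: `χ = Ind_U ψ`, so MonC with one term (`ψ ^ (ℓ^k) = 1`).  FCH with
`m = 1`, `r = 1`: `e`, the number of the `t ∈ Ex n` with `σ χ = χ` for the `σ` acting as `z ↦ z^t`;
`σ χ = Ind ψ^t`, so `σ χ = χ` iff `cj ψ g t` for some `g` (FGB; there is such a `σ`: SIGT), and `e` is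
the `m` of FGT.  FGM: `e Tr χ = ∑_t Ind ψ^t = e (Ind_{H₁} 1 - Ind_{H₂} 1)`; cancel `e`. -/
def Stmt_FGA : Prop :=
  Stmt_SIGT → Stmt_TRT → Stmt_FCL → Stmt_FGB → Stmt_FGT → Stmt_FGM → Stmt_FCH →
  ∀ (G V : Type) [Group G] [Fintype G] [AddCommGroup V] [Module ℂ V] [Module.Finite ℂ V]
    (ρ : Representation ℂ G V) (ℓ : ℕ) (U : Subgroup G), SitG ℓ ρ U →
    PermC (StarkP.trChar ρ.character) ∧ ∃ k : ℕ, 0 < k ∧ MonC (ℓ ^ k) ρ.character

end StarkC.ABS
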