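import Pool.Agent.ABS.PDefsG
import Pool.Agent.ABS.StG

/-!
# Project ABS: transfer of MonC and PermC to the printed form
-/

set_option autoImplicit false

open scoped Classical

namespace StarkC.ABS

namespace GTRx

theorem indChar_eq {G : Type} [Group G] [Fintype G] (H : Subgroup G) (ψ : H →* ℂˣ) (g : G) :
    StarkP.indChar H ψ g = indFun H (extZ ψ) g := by
  simp only [StarkP.indChar, indFun, extZ]
  congr 1
  refine Finset.sum_congr rfl fun x _ => ?_
  by_cases h : x⁻¹ * g * x ∈ H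
  · simp only [h, dif_pos, if_pos]
  · simp only [h, dif_neg, if_neg, not_false_eq_true]

theorem mon_iff {G : Type} [Group G] [Fintype G] (n : ℕ) (θ : G → ℂ) :
    StarkP.MonComb n θ ↔ MonC n θ := by
  constructor
  · rintro ⟨r, H, ψ, c, h1, h2⟩
    exact ⟨r, H, ψ, c, h1, fun g => by rw [h2 g]; simp only [indChar_eq]⟩
  · rintro ⟨r, H, ψ, c, h1, h2⟩
    exact ⟨r, H, ψ, c, h1, fun g => by rw [h2 g]; simp only [indChar_eq]⟩

theorem indFun_one {G : Type} [Group G] [Fintype G] (H : Subgroup G) (g : G) :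
    indFun H (extZ (1 : H →* ℂˣ)) g = indFun H (fun _ => 1) g := by
  simp only [indFun, extZ]
  congr 1
  refine Finset.sum_congr rfl fun x _ => ?_
  by_cases h : x⁻¹ * g * x ∈ H
  · simp [h]
  · simp [h]

theorem perm_iff {G : Type} [Group G] [Fintype G] (θ : G → ℂ) :
    StarkP.MonComb 1 θ ↔ PermC θ := by
  rw [mon_iff]
  constructor
  · rintro ⟨r, H, ψ, c, h1, h2⟩
    refine ⟨r, H, c, fun g => ?_⟩
    rw [h2 g]
    refine Finset.sum_congr rfl fun i _ => ?_
    have h3 : ψ i = 1 := by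
      have h4 := h1 i
      ext x
      have h5 := congrArg (fun f : H i →* ℂˣ => f x) h4
      simpa using h5
    rw [h3, indFun_one]
  · rintro ⟨r, H, c, h2⟩
    refine ⟨r, H, fun _ => 1, c, ?_, fun g => ?_⟩
    · intro i
      ext x
      simp
    rw [h2 g]
    exact Finset.sum_congr rfl fun i _ => by rw [indFun_one]

theorem normOf_iff {K L : Type} [Field K] [NumberField K] [Field L] [NumberField L] [Algebra K L]
    (E : IntermediateField ℚ ℂ) (χ : (L ≃ₐ[K] L) → ℂ)
    (S : Set (IsDedekindDomain.HeightOneSpectrum (NumberField.RingOfIntegers K)))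
    (Θ : ((L → ℝ) →₀ ℂ) →ₗ[ℂ] ((L → ℝ) →₀ ℂ)) :
    StarkP.NormIn E χ S Θ ↔ StarkP.NormOf E (StarkP.trChar χ) S Θ := Iff.rfl

end GTRx

end StarkC.ABS
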