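import Pool.Agent.ABS.StR1

/-!
# A finite abelian `ℓ`-group with at most `ℓ` elements of order dividing `ℓ` is cyclic
-/

namespace StarkC.ABS

namespace RCY

variable {A : Type} [CommGroup A] [Finite A] {ℓ : ℕ} {c : A}

theorem card_ker (hℓ : ℓ.Prime) (hc : c ^ ℓ = 1)
    (h : ∀ a : A, a ^ ℓ = 1 → a ∈ Subgroup.zpowers c) (j : ℕ) :
    Nat.card (powMonoidHom (ℓ ^ j) : A →* A).ker ≤ ℓ ^ j := by
  induction j with
  | zero =>
    have h1 : (powMonoidHom (ℓ ^ 0) : A →* A).ker = ⊥ := by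
      rw [eq_bot_iff]
      intro a ha
      rw [MonoidHom.mem_ker, powMonoidHom_apply, pow_zero, pow_one] at ha
      exact ha
    rw [h1, Subgroup.card_bot, pow_zero]
  | succ j ih =>
    let K : Subgroup A := (powMonoidHom (ℓ ^ (j + 1)) : A →* A).ker
    let f : K →* A := (powMonoidHom (ℓ ^ j)).comp K.subtype
    have h1 : Nat.card f.ker * Nat.card f.range = Nat.card K := by
      rw [← Subgroup.index_ker, Subgroup.card_mul_index]
    have h2 : Nat.card f.ker ≤ ℓ ^ j := by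
      refine le_trans ?_ ih
      refine Nat.card_le_card_of_injective
        (fun x : f.ker => (⟨x.1.1, x.2⟩ : (powMonoidHom (ℓ ^ j) : A →* A).ker)) ?_
      intro x y hxy
      have h3 : x.1.1 = y.1.1 :=
        congrArg (fun z : (powMonoidHom (ℓ ^ j) : A →* A).ker => z.1) hxy
      exact Subtype.ext (Subtype.ext h3)
    have h3 : Nat.card f.range ≤ ℓ := by
      have h4 : f.range ≤ Subgroup.zpowers c := by
        rintro _ ⟨x, rfl⟩
        refine h _ ?_
        change (x.1 ^ (ℓ ^ j)) ^ ℓ = 1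
        have h5 : x.1 ^ (ℓ ^ (j + 1)) = 1 := x.2
        rw [← pow_mul, ← pow_succ]
        exact h5
      refine (Nat.card_le_card_of_injective _ (Subgroup.inclusion_injective h4)).trans ?_
      rw [Nat.card_zpowers]
      exact Nat.le_of_dvd hℓ.pos (orderOf_dvd_of_pow_eq_one hc)
    change Nat.card K ≤ ℓ ^ (j + 1)
    rw [← h1, pow_succ]
    exact Nat.mul_le_mul h2 h3

end RCY

theorem RCY_thm : Stmt_RCY := by
  intro ℓ A _ _ c hℓ hA hc h
  classical
  have _ := Fintype.ofFinite A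
  let _ := Fintype.ofFinite A
  refine isCyclic_of_card_pow_eq_one_le fun n hn => ?_
  obtain ⟨j, m, hm, rfl⟩ := Nat.exists_eq_pow_mul_and_not_dvd hn.ne' ℓ hℓ.one_lt.ne'
  have h1 : (Finset.univ.filter fun a : A => a ^ (ℓ ^ j * m) = 1).card ≤
      Nat.card (powMonoidHom (ℓ ^ j) : A →* A).ker := by
    rw [← Fintype.card_subtype, ← Nat.card_eq_fintype_card]
    refine Nat.card_le_card_of_injective
      (fun x : {a : A // a ^ (ℓ ^ j * m) = 1} =>
        (⟨x.1, ?_⟩ : (powMonoidHom (ℓ ^ j) : A →* A).ker)) ?_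
    · rw [MonoidHom.mem_ker, powMonoidHom_apply]
      obtain ⟨i, hi⟩ := hA x.1
      have h2 : orderOf x.1 ∣ ℓ ^ i := orderOf_dvd_of_pow_eq_one hi
      have h3 : orderOf x.1 ∣ ℓ ^ j * m := orderOf_dvd_of_pow_eq_one x.2
      have h4 : Nat.Coprime (orderOf x.1) m :=
        Nat.Coprime.coprime_dvd_left h2 (Nat.Coprime.pow_left i
          ((Nat.Prime.coprime_iff_not_dvd hℓ).2 hm))
      exact orderOf_dvd_iff_pow_eq_one.1 (h4.dvd_of_dvd_mul_right h3)
    · intro x y hxy
      exact Subtype.ext (congrArg (fun z : (powMonoidHom (ℓ ^ j) : A →* A).ker => z.1) hxy)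
  refine h1.trans ((RCY.card_ker hℓ hc h j).trans ?_)
  refine Nat.le_mul_of_pos_right _ (Nat.pos_of_ne_zero ?_)
  rintro rfl
  exact hm (dvd_zero ℓ)

end StarkC.ABS
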