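import Pool.Agent.ABS.StN3
import Pool.Agent.ABS.RCY

/-!
# Project ABS (MP_46b841_nt), module MAB: a noncyclic normal abelian subgroup
-/

set_option autoImplicit false

open scoped Classical commutatorElement

namespace StarkC.ABS

namespace MABx

variable {P : Type} [Group P] [Finite P]

/-- a cyclic group has at most one element of order two -/
theorem two_unique {Z : Type} [Group Z] [Finite Z] [IsCyclic Z] {a b : Z} (ha : a ^ 2 = 1)
    (hb : b ^ 2 = 1) (ha1 : a ≠ 1) (hb1 : b ≠ 1) : b = a := by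
  classical
  have _ := Fintype.ofFinite Z
  by_contra hne
  have h := IsCyclic.card_pow_eq_one_le (α := Z) (n := 2) (by norm_num)
  have h2 : ({1, a, b} : Finset Z) ⊆ Finset.univ.filter (fun x : Z => x ^ 2 = 1) := by
    intro x hx
    rw [Finset.mem_insert, Finset.mem_insert, Finset.mem_singleton] at hx
    rw [Finset.mem_filter]
    refine ⟨Finset.mem_univ _, ?_⟩
    rcases hx with rfl | rfl | rfl
    · exact one_pow 2
    · exact ha
    · exact hb
  have h3 := Finset.card_le_card h2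
  have h4 : ({1, a, b} : Finset Z).card = 3 := by
    rw [Finset.card_insert_of_notMem, Finset.card_insert_of_notMem, Finset.card_singleton]
    · rw [Finset.mem_singleton]
      exact fun h => hne h.symm
    · rw [Finset.mem_insert, Finset.mem_singleton]
      rintro (h | h)
      · exact ha1 h.symm
      · exact hb1 h.symm
  omega

/-- the elements of order two of `A` are not all central -/
theorem exists_noncentral (A : Subgroup P) (hP : IsPGroup 2 P)
    (hZ : IsCyclic (Subgroup.center P)) (hab : ∀ a ∈ A, ∀ b ∈ A, a * b = b * a)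
    (hA : ¬ IsCyclic A) : ∃ a ∈ A, a ^ 2 = 1 ∧ a ∉ Subgroup.center P := by
  by_contra hcon
  have hc : ∀ a ∈ A, a ^ 2 = 1 → a ∈ Subgroup.center P := by
    intro a ha h2
    by_contra h3
    exact hcon ⟨a, ha, h2, h3⟩
  apply hA
  let inst : CommGroup A :=
    { (inferInstance : Group A) with
      mul_comm := fun a b => Subtype.ext (hab a.1 a.2 b.1 b.2) }
  have key : ∃ c : A, c ^ 2 = 1 ∧ ∀ a : A, a ^ 2 = 1 → a ∈ Subgroup.zpowers c := by
    by_cases h : ∃ a : A, a ^ 2 = 1 ∧ a ≠ 1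
    · obtain ⟨c, hc2, hc1⟩ := h
      refine ⟨c, hc2, fun a ha => ?_⟩
      by_cases ha1 : a = 1
      · rw [ha1]
        exact Subgroup.one_mem _
      · have e1 : (c : P) ^ 2 = 1 := congrArg Subtype.val hc2
        have e2 : (a : P) ^ 2 = 1 := congrArg Subtype.val ha
        have h1 := two_unique (Z := Subgroup.center P) (a := ⟨c, hc c c.2 e1⟩)
          (b := ⟨a, hc a a.2 e2⟩) (Subtype.ext e1) (Subtype.ext e2)
          (fun h => hc1 (Subtype.ext (congrArg (fun z : Subgroup.center P => (z : P)) h)))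
          (fun h => ha1 (Subtype.ext (congrArg (fun z : Subgroup.center P => (z : P)) h)))
        have h2 : a = c := Subtype.ext (congrArg (fun z : Subgroup.center P => (z : P)) h1)
        rw [h2]
        exact Subgroup.mem_zpowers c
    · refine ⟨1, one_pow 2, fun a ha => ?_⟩
      by_cases ha1 : a = 1
      · rw [ha1]
        exact Subgroup.one_mem _
      · exact absurd ⟨a, ha, ha1⟩ h
  obtain ⟨c, hc2, hcall⟩ := key
  exact RCY_thm 2 A c Nat.prime_two (hP.to_subgroup A) hc2 hcall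

end MABx

open MABx in
theorem MAB_thm : Stmt_MAB := by
  intro P _ _ A hP hZ hAn hab hA
  have : Fact (Nat.Prime 2) := ⟨Nat.prime_two⟩
  have hnil : Group.IsNilpotent P := hP.isNilpotent
  obtain ⟨N, hN⟩ := Subgroup.nilpotent_iff_lowerCentralSeries.mp hnil
  obtain ⟨x, hxA, hx2, hxZ⟩ := exists_noncentral A hP hZ hab hA
  have hex : ∃ n, ¬ ∃ v ∈ (⊤ : Subgroup P).lowerCentralSeries n,
      v ∈ A ∧ v ^ 2 = 1 ∧ v ∉ Subgroup.center P := by
    refine ⟨N, ?_⟩
    rintro ⟨v, hv, -, -, hvZ⟩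
    rw [hN, Subgroup.mem_bot] at hv
    rw [hv] at hvZ
    exact hvZ (Subgroup.one_mem _)
  obtain ⟨m, hm1, hm2⟩ : ∃ m, (∃ v ∈ (⊤ : Subgroup P).lowerCentralSeries m,
      v ∈ A ∧ v ^ 2 = 1 ∧ v ∉ Subgroup.center P) ∧
      ¬ ∃ v ∈ (⊤ : Subgroup P).lowerCentralSeries (m + 1),
      v ∈ A ∧ v ^ 2 = 1 ∧ v ∉ Subgroup.center P := by
    have h1 := Nat.find_spec hex
    have h2 : Nat.find hex ≠ 0 := by
      intro h0
      rw [h0] at h1
      exact h1 ⟨x, by rw [Subgroup.lowerCentralSeries_zero]; exact Subgroup.mem_top x, hxA, hx2,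
        hxZ⟩
    obtain ⟨m, hm⟩ := Nat.exists_eq_succ_of_ne_zero h2
    refine ⟨m, ?_, ?_⟩
    · have h3 := Nat.find_min hex (m := m) (by omega)
      exact not_not.mp h3
    · rw [hm] at h1
      exact h1
  obtain ⟨a, ha, haA, ha2, haZ⟩ := hm1
  refine ⟨a, haZ, ha2, fun g => ?_⟩
  by_contra hcon
  have h3 : g⁻¹ * a * g ∈ A := by
    have := hAn.conj_mem a haA g⁻¹
    rwa [inv_inv] at this
  refine hm2 ⟨g⁻¹ * a * g * a⁻¹, ?_, A.mul_mem h3 (A.inv_mem haA), ?_, hcon⟩
  · have h1 : ⁅a, g⁻¹⁆ ∈ ⁅(⊤ : Subgroup P).lowerCentralSeries m, (⊤ : Subgroup P)⁆ :=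
      Subgroup.commutator_mem_commutator ha (Subgroup.mem_top _)
    have h2 : g⁻¹ * a * g * a⁻¹ = ⁅a, g⁻¹⁆⁻¹ := by
      rw [commutatorElement_inv, commutatorElement_def, inv_inv]
    rw [h2, Subgroup.lowerCentralSeries_succ]
    exact inv_mem h1
  · have h4 : a⁻¹ = a := by
      rw [inv_eq_iff_mul_eq_one, ← pow_two, ha2]
    have h5 := hab _ h3 a haA
    have h6 : (g⁻¹ * a * g) ^ 2 = 1 := by
      have : (g⁻¹ * a * g) ^ 2 = g⁻¹ * a ^ 2 * g := by
        rw [pow_two, pow_two]
        group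
      rw [this, ha2, mul_one, inv_mul_cancel]
    rw [h4, pow_two, mul_assoc, ← mul_assoc a, ← h5, mul_assoc (g⁻¹ * a * g) a a, ← pow_two a, ha2,
      mul_one, ← pow_two, h6]

end StarkC.ABS
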