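import Pool.Agent.ABS.StN3

/-!
# ABS_MAX: a normal abelian subgroup of a nilpotent group which is its own centraliser
(MP_46b841_nt, part N2)
-/

set_option autoImplicit false

open scoped Classical commutatorElement

namespace StarkC.ABS

open StarkC.MON

namespace MAXx

/-- normal and abelian -/
def NA {P : Type} [Group P] (A : Subgroup P) : Prop :=
  A.Normal ∧ ∀ a ∈ A, ∀ b ∈ A, a * b = b * a

lemma step {P : Type} [Group P] (A : Subgroup P) (hA : NA A) (v : P)
    (hv : ∀ a ∈ A, v * a = a * v) (hg : ∀ g : P, g * v * g⁻¹ * v⁻¹ ∈ A) :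
    NA (A ⊔ Subgroup.zpowers v) := by
  have hAn := hA.1
  have hvS : v ∈ A ⊔ Subgroup.zpowers v :=
    (le_sup_right : Subgroup.zpowers v ≤ _) (Subgroup.mem_zpowers v)
  have hAS : A ≤ A ⊔ Subgroup.zpowers v := le_sup_left
  refine ⟨⟨fun n hn g => ?_⟩, ?_⟩
  · rw [sup_comm, Subgroup.mem_sup_of_normal_right] at hn
    obtain ⟨y, hy, a, ha, rfl⟩ := hn
    obtain ⟨j, rfl⟩ := Subgroup.mem_zpowers_iff.mp hy
    have h1 : g * (v ^ j * a) * g⁻¹ = (g * v * g⁻¹) ^ j * (g * a * g⁻¹) := by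
      rw [conj_zpow]
      group
    rw [h1]
    refine mul_mem (zpow_mem ?_ j) (hAS (hAn.conj_mem a ha g))
    have h2 : g * v * g⁻¹ = (g * v * g⁻¹ * v⁻¹) * v := by group
    rw [h2]
    exact mul_mem (hAS (hg g)) hvS
  · have hc1 : A ≤ Subgroup.centralizer (A : Set P) := by
      intro a ha
      rw [Subgroup.mem_centralizer_iff]
      exact fun b hb => hA.2 b hb a ha
    have hc2 : Subgroup.zpowers v ≤ Subgroup.centralizer (A : Set P) := by
      rw [Subgroup.zpowers_le, Subgroup.mem_centralizer_iff]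
      exact fun a ha => (hv a ha).symm
    have hc3 : A ≤ Subgroup.centralizer (Subgroup.zpowers v : Set P) :=
      Subgroup.le_centralizer_iff.mp hc2
    have hc4 : Subgroup.zpowers v ≤ Subgroup.centralizer (Subgroup.zpowers v : Set P) := by
      intro x hx
      rw [Subgroup.mem_centralizer_iff]
      intro y hy
      obtain ⟨i, rfl⟩ := Subgroup.mem_zpowers_iff.mp hx
      obtain ⟨j, rfl⟩ := Subgroup.mem_zpowers_iff.mp hy
      rw [← zpow_add, ← zpow_add, add_comm]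
    have hc5 : A ≤ Subgroup.centralizer ((A ⊔ Subgroup.zpowers v : Subgroup P) : Set P) :=
      Subgroup.le_centralizer_iff.mp (sup_le hc1 hc2)
    have hc6 : Subgroup.zpowers v ≤
        Subgroup.centralizer ((A ⊔ Subgroup.zpowers v : Subgroup P) : Set P) :=
      Subgroup.le_centralizer_iff.mp (sup_le hc3 hc4)
    intro a ha b hb
    exact (Subgroup.mem_centralizer_iff.mp (sup_le hc5 hc6 hb)) a ha

end MAXx

open MAXx in
theorem MAX_thm : Stmt_MAX := by
  intro P _ _ hnil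
  obtain ⟨N, hN⟩ := Subgroup.nilpotent_iff_lowerCentralSeries.mp hnil
  obtain ⟨A, hA, hmax⟩ : ∃ A : Subgroup P, NA A ∧ ∀ B : Subgroup P, NA B →
      Nat.card B ≤ Nat.card A := by
    obtain ⟨A, hA, h⟩ := Set.exists_max_image {A : Subgroup P | NA A}
      (fun A : Subgroup P => Nat.card A) (Set.toFinite _)
      ⟨⊥, ⟨inferInstance, fun a ha b hb => by
        rw [Subgroup.mem_bot] at ha hb
        rw [ha, hb]⟩⟩
    exact ⟨A, hA, h⟩
  refine ⟨A, hA.1, hA.2, fun x hx => ?_⟩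
  by_contra hxA
  have hAn := hA.1
  have hex : ∃ n, ¬ ∃ v ∈ (⊤ : Subgroup P).lowerCentralSeries n,
      (∀ a ∈ A, v * a = a * v) ∧ v ∉ A := by
    refine ⟨N, ?_⟩
    rintro ⟨v, hv, -, hvA⟩
    rw [hN, Subgroup.mem_bot] at hv
    rw [hv] at hvA
    exact hvA A.one_mem
  obtain ⟨m, hm1, hm2⟩ : ∃ m, (∃ v ∈ (⊤ : Subgroup P).lowerCentralSeries m,
      (∀ a ∈ A, v * a = a * v) ∧ v ∉ A) ∧ ¬ ∃ v ∈ (⊤ : Subgroup P).lowerCentralSeries (m + 1),
      (∀ a ∈ A, v * a = a * v) ∧ v ∉ A := by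
    have h1 := Nat.find_spec hex
    have h2 : Nat.find hex ≠ 0 := by
      intro h0
      rw [h0] at h1
      exact h1 ⟨x, by rw [Subgroup.lowerCentralSeries_zero]; exact Subgroup.mem_top x, hx, hxA⟩
    obtain ⟨m, hm⟩ := Nat.exists_eq_succ_of_ne_zero h2
    refine ⟨m, ?_, ?_⟩
    · have h3 := Nat.find_min hex (m := m) (by omega)
      exact not_not.mp h3
    · rw [hm] at h1
      exact h1
  obtain ⟨v, hv, hvc, hvA⟩ := hm1
  have hg : ∀ g : P, g * v * g⁻¹ * v⁻¹ ∈ A := by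
    intro g
    by_contra hcon
    refine hm2 ⟨g * v * g⁻¹ * v⁻¹, ?_, ?_, hcon⟩
    · have h1 : ⁅v, g⁆ ∈ ⁅(⊤ : Subgroup P).lowerCentralSeries m, (⊤ : Subgroup P)⁆ :=
        Subgroup.commutator_mem_commutator hv (Subgroup.mem_top g)
      have h2 : g * v * g⁻¹ * v⁻¹ = ⁅v, g⁆⁻¹ := by
        rw [commutatorElement_inv, commutatorElement_def]
      rw [h2, Subgroup.lowerCentralSeries_succ]
      exact inv_mem h1
    · intro a ha
      have h3 : g⁻¹ * a * g ∈ A := by
        have := hAn.conj_mem a ha g⁻¹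
        rwa [inv_inv] at this
      have h4 := hvc _ h3
      have h5 := hvc a ha
      have h6 : v⁻¹ * a = a * v⁻¹ := by
        rw [inv_mul_eq_iff_eq_mul, ← mul_assoc, h5, mul_assoc, mul_inv_cancel, mul_one]
      have h7 : g * v * g⁻¹ * a = a * (g * v * g⁻¹) := by
        calc g * v * g⁻¹ * a = g * (v * (g⁻¹ * a * g)) * g⁻¹ := by group
          _ = g * ((g⁻¹ * a * g) * v) * g⁻¹ := by rw [h4]
          _ = a * (g * v * g⁻¹) := by group
      calc g * v * g⁻¹ * v⁻¹ * a = g * v * g⁻¹ * (v⁻¹ * a) := by group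
        _ = g * v * g⁻¹ * a * v⁻¹ := by rw [h6]; group
        _ = a * (g * v * g⁻¹ * v⁻¹) := by rw [h7]; group
  have hS := step A hA v hvc hg
  have hle : A ≤ A ⊔ Subgroup.zpowers v := le_sup_left
  have heq := Subgroup.eq_of_le_of_card_ge hle (hmax _ hS)
  apply hvA
  rw [heq]
  exact (le_sup_right : Subgroup.zpowers v ≤ _) (Subgroup.mem_zpowers v)

end StarkC.ABS
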