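import Pool.Agent.ABS.StR1

/-!
# ABS_REL: the element `a` and the scalar `ζ`
-/

open NumberField IsDedekindDomain
open scoped TensorProduct Classical

namespace StarkC.ABS

open StarkC.MON

namespace REL

variable {G V : Type} [Group G] [AddCommGroup V] [Module ℂ V]

theorem schur [Module.Finite ℂ V] (ρ : Representation ℂ G V) (hI : Irr ρ) (g : G)
    (hc : ∀ h v, ρ g (ρ h v) = ρ h (ρ g v)) : IsScal ρ g := by
  have := hI.1
  obtain ⟨μ, hμ⟩ := Module.End.exists_eigenvalue (ρ g)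
  have h := hI.2 (Module.End.eigenspace (ρ g) μ) (by
    intro h v hv
    rw [Module.End.mem_eigenspace_iff] at hv ⊢
    rw [hc, hv, map_smul])
  rcases h with h | h
  · obtain ⟨v, hv⟩ := hμ.exists_hasEigenvector
    exfalso
    apply hv.2
    have h1 : v ∈ Module.End.eigenspace (ρ g) μ := hv.1
    rw [h] at h1
    exact (Submodule.mem_bot ℂ).1 h1
  · refine ⟨μ, fun v => ?_⟩
    have hv : v ∈ Module.End.eigenspace (ρ g) μ := by
      rw [h]
      exact Submodule.mem_top
    exact Module.End.mem_eigenspace_iff.1 hv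

/-- the homomorphism to the units of the endomorphisms -/
noncomputable def ph (ρ : Representation ℂ G V) : G →* (V →ₗ[ℂ] V)ˣ :=
  MonoidHom.toHomUnits ρ

theorem ph_apply (ρ : Representation ℂ G V) (g : G) :
    ((ph ρ g : (V →ₗ[ℂ] V)ˣ) : V →ₗ[ℂ] V) = ρ g := rfl

/-- the image -/
abbrev Im (ρ : Representation ℂ G V) : Type := (ph ρ).range

/-- the map onto the image -/
noncomputable def pr (ρ : Representation ℂ G V) : G →* Im ρ := (ph ρ).rangeRestrict

theorem pr_surj (ρ : Representation ℂ G V) : Function.Surjective (pr ρ) :=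
  (ph ρ).rangeRestrict_surjective

theorem pr_eq (ρ : Representation ℂ G V) (g h : G) : pr ρ g = pr ρ h ↔ ρ g = ρ h := by
  constructor
  · intro he
    have h1 := congrArg (fun x : Im ρ => ((x : (V →ₗ[ℂ] V)ˣ) : V →ₗ[ℂ] V)) he
    exact h1
  · intro he
    apply Subtype.ext
    apply Units.ext
    exact he

theorem pr_one (ρ : Representation ℂ G V) (g : G) : pr ρ g = 1 ↔ ρ g = 1 := by
  rw [← map_one (pr ρ), pr_eq, map_one]

theorem mem_center [Module.Finite ℂ V] (ρ : Representation ℂ G V) (hI : Irr ρ) (g : G) :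
    pr ρ g ∈ Subgroup.center (Im ρ) ↔ IsScal ρ g := by
  rw [Subgroup.mem_center_iff]
  constructor
  · intro h
    refine schur ρ hI g fun x v => ?_
    have h1 := h (pr ρ x)
    rw [← map_mul, ← map_mul, pr_eq, map_mul, map_mul] at h1
    exact (LinearMap.congr_fun h1 v).symm
  · rintro ⟨c, hc⟩ x
    obtain ⟨y, rfl⟩ := pr_surj ρ x
    rw [← map_mul, ← map_mul, pr_eq, map_mul, map_mul]
    ext v
    show ρ y (ρ g v) = ρ g (ρ y v)
    rw [hc, hc, map_smul]

end REL

open REL in
theorem REL_thm : Stmt_REL := by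
  intro hRCY hRGP ℓ G V _ _ _ _ _ ρ hl hl2 hI hL hns
  have hnt := hI.1
  obtain ⟨v0, hv0⟩ := exists_ne (0 : V)
  have hfact : Fact ℓ.Prime := ⟨hl⟩
  have hfin : Finite (Im ρ) := Finite.of_surjective _ (pr_surj ρ)
  have hP : IsPGroup ℓ (Im ρ) := by
    intro x
    obtain ⟨g, rfl⟩ := pr_surj ρ x
    obtain ⟨j, hj⟩ := hL g
    exact ⟨j, by rw [← map_pow, pr_one, hj]⟩
  have hsc : ∀ x : Subgroup.center (Im ρ), ∃ c : ℂ, ∀ v,
      (((x : Im ρ) : (V →ₗ[ℂ] V)ˣ) : V →ₗ[ℂ] V) v = c • v := by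
    intro x
    obtain ⟨g, hg⟩ := pr_surj ρ (x : Im ρ)
    have h1 : pr ρ g ∈ Subgroup.center (Im ρ) := by
      rw [hg]
      exact x.2
    obtain ⟨c, hc⟩ := (mem_center ρ hI g).1 h1
    refine ⟨c, fun v => ?_⟩
    rw [← hg]
    exact hc v
  choose c hc using hsc
  have hinj : ∀ x y : ℂ, x • v0 = y • v0 → x = y := fun x y hxy => by
    have h2 : (x - y) • v0 = 0 := by rw [sub_smul, hxy, sub_self]
    rcases smul_eq_zero.1 h2 with h3 | h3
    · exact sub_eq_zero.1 h3
    · exact absurd h3 hv0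
  let f : Subgroup.center (Im ρ) →* ℂ :=
    { toFun := c
      map_one' := by
        apply hinj
        rw [← hc, one_smul]
        rfl
      map_mul' := by
        intro x y
        apply hinj
        have h1 : (((x * y : Subgroup.center (Im ρ)) : (V →ₗ[ℂ] V)ˣ) : V →ₗ[ℂ] V) v0 =
            (((x : Im ρ) : (V →ₗ[ℂ] V)ˣ) : V →ₗ[ℂ] V)
              ((((y : Im ρ) : (V →ₗ[ℂ] V)ˣ) : V →ₗ[ℂ] V) v0) := rfl
        rw [← hc, h1, hc y v0, map_smul, hc x v0, smul_smul, mul_comm] }
  have hfinj : Function.Injective f := by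
    intro x y hxy
    apply Subtype.ext
    apply Subtype.ext
    apply Units.ext
    ext v
    rw [hc x v, hc y v]
    exact congrArg (fun z => z • v) hxy
  have hcyc : IsCyclic (Subgroup.center (Im ρ)) := isCyclic_of_injective_ringHom f hfinj
  have hnab : ¬ ∀ a b : Im ρ, a * b = b * a := by
    intro h
    apply hns
    intro g
    rw [← mem_center ρ hI, Subgroup.mem_center_iff]
    intro x
    exact h _ _
  obtain ⟨a', ha1, ha2, ha3⟩ := hRGP hRCY ℓ (Im ρ) hl hl2 hP hcyc hnab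
  obtain ⟨a, rfl⟩ := pr_surj ρ a'
  have hntI : Nontrivial (Im ρ) := by
    by_contra h
    rw [not_nontrivial_iff_subsingleton] at h
    exact hnab fun x y => Subsingleton.elim _ _
  have hcn : Nontrivial (Subgroup.center (Im ρ)) := hP.center_nontrivial
  have hcard : ℓ ∣ Nat.card (Subgroup.center (Im ρ)) := by
    have h1 := hP.to_subgroup (Subgroup.center (Im ρ))
    obtain ⟨n, hn⟩ := (IsPGroup.iff_card).1 h1
    have h2 : 1 < Nat.card (Subgroup.center (Im ρ)) := Finite.one_lt_card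
    rw [hn] at h2 ⊢
    have h3 : n ≠ 0 := by
      rintro rfl
      simp at h2
    exact dvd_pow_self _ h3
  obtain ⟨x, hx⟩ := exists_prime_orderOf_dvd_card' ℓ hcard
  obtain ⟨z, hz⟩ := pr_surj ρ (x : Im ρ)
  refine ⟨a, z, c x, ?_, ?_, ?_, ?_, ?_⟩
  · rw [← mem_center ρ hI]
    exact ha1
  · rw [← map_pow, pr_one] at ha2
    exact ha2
  · intro y
    have h1 := ha3 (pr ρ y)
    rw [← map_inv, ← map_mul, ← map_mul, ← map_inv, ← map_mul, mem_center ρ hI] at h1
    obtain ⟨d, hd⟩ := h1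
    refine ⟨d, fun v => ?_⟩
    rw [← hd (ρ a v), ← Module.End.mul_apply, ← map_mul, inv_mul_cancel_right]
  · have h1 : f x ^ ℓ = 1 := by
      rw [← map_pow, ← hx, pow_orderOf_eq_one, map_one]
    have h2 : f x ≠ 1 := by
      intro h
      have h3 : x = 1 := hfinj (by rw [h, map_one])
      rw [h3, orderOf_one] at hx
      exact hl.one_lt.ne hx
    have h3 := orderOf_eq_prime h1 h2
    have h4 := IsPrimitiveRoot.orderOf (f x)
    rw [h3] at h4
    exact h4
  · intro v
    rw [← hc x v, ← hz]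
    rfl

end StarkC.ABS
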