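import Pool.Agent.ABS.StN3
import Pool.Agent.ABS.REL

/-!
# ABS_MCH: the automorphism which fixes the character but not `i`
-/

set_option autoImplicit false

open scoped Classical

namespace StarkC.ABS

open StarkC.MON

namespace MCHx

variable {G V : Type} [Group G] [AddCommGroup V] [Module ℂ V]

/-- the character depends on the operator only -/
theorem chr_congr (ρ : Representation ℂ G V) {a b : G} (h : ρ a = ρ b) :
    ρ.character a = ρ.character b := by
  show LinearMap.trace ℂ V (ρ a) = LinearMap.trace ℂ V (ρ b)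
  rw [h]

theorem chr_comm (ρ : Representation ℂ G V) (a b : G) :
    ρ.character (a * b) = ρ.character (b * a) := by
  show LinearMap.trace ℂ V (ρ (a * b)) = LinearMap.trace ℂ V (ρ (b * a))
  rw [map_mul ρ a b, map_mul ρ b a, LinearMap.trace_mul_comm]

theorem chr_scal (ρ : Representation ℂ G V) (a b : G) (w : ℂ) (h : ∀ v, ρ b v = w • v) :
    ρ.character (a * b) = w * ρ.character a := by
  show LinearMap.trace ℂ V (ρ (a * b)) = w * LinearMap.trace ℂ V (ρ a)
  have h1 : ρ (a * b) = w • ρ a := by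
    ext v
    rw [map_mul]
    show ρ a (ρ b v) = w • ρ a v
    rw [h, map_smul]
  rw [h1, map_smul, smul_eq_mul]

theorem pow_congr {M : Type} [Monoid M] (a : M) (o k l : ℕ) (h : a ^ o = 1) (hkl : k ≡ l [MOD o]) :
    a ^ k = a ^ l := by
  rw [pow_eq_pow_mod k h, pow_eq_pow_mod l h]
  congr 1

theorem conj_pow_eq (ρ : Representation ℂ G V) (x c : G) (s k : ℕ)
    (h : ρ (x⁻¹ * c * x) = ρ (c ^ s)) : ρ (x⁻¹ * c ^ k * x) = ρ (c ^ (s * k)) := by
  have h1 : x⁻¹ * c ^ k * x = (x⁻¹ * c * x) ^ k := by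
    have := conj_pow (a := x⁻¹) (b := c) (i := k)
    rw [inv_inv] at this
    exact this.symm
  rw [h1, map_pow, h, ← map_pow, ← pow_mul]

/-- the central involution acts as `-1` -/
theorem invol [Module.Finite ℂ V] (ρ : Representation ℂ G V) (c : G) (n : ℕ) (hI : Irr ρ)
    (hn : 2 ≤ n) (hc : ρ (c ^ (2 ^ n)) = 1) (hz : ρ (c ^ (2 ^ (n - 1))) ≠ 1)
    (hconj : ∀ x : G, ∃ s : ℕ, ρ (x⁻¹ * c * x) = ρ (c ^ s)) :
    ∀ v, ρ (c ^ (2 ^ (n - 1))) v = (-1 : ℂ) • v := by
  have hnt := hI.1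
  have h2 : 2 ^ (n - 1) * 2 = 2 ^ n := by
    rw [← pow_succ]
    congr 1
    omega
  have hz2 : ρ (c ^ (2 ^ (n - 1))) * ρ (c ^ (2 ^ (n - 1))) = 1 := by
    rw [← map_mul, ← pow_two, ← pow_mul, h2, hc]
  have hzpow : ∀ s : ℕ, ρ (c ^ (s * 2 ^ (n - 1))) = 1 ∨
      ρ (c ^ (s * 2 ^ (n - 1))) = ρ (c ^ (2 ^ (n - 1))) := by
    intro s
    rw [mul_comm, pow_mul, map_pow]
    rcases Nat.even_or_odd' s with ⟨k, hk | hk⟩
    · left
      rw [hk, pow_mul, pow_two, hz2, one_pow]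
    · right
      rw [hk, pow_succ, pow_mul, pow_two, hz2, one_pow, one_mul]
  have hcen : ∀ y : G, ρ (y⁻¹ * c ^ (2 ^ (n - 1)) * y) = ρ (c ^ (2 ^ (n - 1))) := by
    intro y
    obtain ⟨s, hs⟩ := hconj y
    have h1 := conj_pow_eq ρ y c s (2 ^ (n - 1)) hs
    rcases hzpow s with h3 | h3
    · exfalso
      apply hz
      rw [h3] at h1
      have h4 : c ^ (2 ^ (n - 1)) = y * (y⁻¹ * c ^ (2 ^ (n - 1)) * y) * y⁻¹ := by group
      rw [h4, map_mul, map_mul, h1, mul_one, ← map_mul, mul_inv_cancel, map_one]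
    · rw [h1, h3]
  obtain ⟨w, hw⟩ := REL.schur ρ hI (c ^ (2 ^ (n - 1))) (by
    intro h v
    have h1 : ρ (h * (h⁻¹ * c ^ (2 ^ (n - 1)) * h)) = ρ (h * c ^ (2 ^ (n - 1))) := by
      rw [map_mul, hcen, map_mul]
    have h2 : h * (h⁻¹ * c ^ (2 ^ (n - 1)) * h) = c ^ (2 ^ (n - 1)) * h := by group
    rw [h2, map_mul, map_mul] at h1
    exact LinearMap.congr_fun h1 v)
  obtain ⟨v0, hv0⟩ := exists_ne (0 : V)
  have hww : w * w = 1 := by
    have h1 := LinearMap.congr_fun hz2 v0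
    have h3 : (w * w) • v0 = (1 : ℂ) • v0 := by
      rw [one_smul, ← smul_smul]
      have h4 : (ρ (c ^ (2 ^ (n - 1))) * ρ (c ^ (2 ^ (n - 1)))) v0 =
          ρ (c ^ (2 ^ (n - 1))) (ρ (c ^ (2 ^ (n - 1))) v0) := rfl
      rw [h4, hw v0, map_smul, hw v0] at h1
      exact h1
    have h5 : (w * w - 1) • v0 = 0 := by rw [sub_smul, h3, sub_self]
    rcases smul_eq_zero.1 h5 with h6 | h6
    · exact sub_eq_zero.1 h6
    · exact absurd h6 hv0
  have hw1 : w ≠ 1 := by
    intro h1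
    apply hz
    ext v
    rw [hw, h1, one_smul]
    rfl
  have hwm : w = -1 := by
    rcases mul_self_eq_one_iff.1 hww with h1 | h1
    · exact absurd h1 hw1
    · exact h1
  intro v
  rw [hw, hwm]

/-- (1): the character vanishes off the centraliser of `ρ c` -/
theorem vanish [Module.Finite ℂ V] (ρ : Representation ℂ G V) (c : G) (n : ℕ) (hI : Irr ρ)
    (hn : 2 ≤ n) (hc : ρ (c ^ (2 ^ n)) = 1) (hz : ρ (c ^ (2 ^ (n - 1))) ≠ 1)
    (hconj : ∀ x : G, ∃ s : ℕ, ρ (x⁻¹ * c * x) = ρ (c ^ s)) (x : G)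
    (hx : ρ (x * c) ≠ ρ (c * x)) : ρ.character x = 0 := by
  obtain ⟨s, hs⟩ := hconj x
  set e : ℕ := s + (2 ^ n - 1) with he
  have h2n : 1 ≤ 2 ^ n := Nat.one_le_two_pow
  -- conjugation by powers of `c`
  have hkey : ∀ m : ℕ, ρ.character x = ρ.character (x * c ^ (e * m)) := by
    intro m
    have h1 : ρ.character (c ^ m * (x * c ^ ((2 ^ n - 1) * m))) = ρ.character x := by
      rw [chr_comm]
      apply chr_congr
      have h3 : x * c ^ ((2 ^ n - 1) * m) * c ^ m = x * (c ^ (2 ^ n)) ^ m := by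
        rw [mul_assoc, ← pow_add, ← pow_mul]
        congr 2
        have : (2 ^ n - 1) * m + m = (2 ^ n - 1 + 1) * m := by ring
        rw [this, Nat.sub_add_cancel h2n]
      rw [h3, map_mul, map_pow, hc, one_pow, mul_one]
    rw [← h1]
    apply chr_congr
    have h3 : c ^ m * (x * c ^ ((2 ^ n - 1) * m)) =
        x * (x⁻¹ * c ^ m * x) * c ^ ((2 ^ n - 1) * m) := by group
    rw [h3, map_mul, map_mul, conj_pow_eq ρ x c s m hs, ← map_mul, ← map_mul, mul_assoc,
      ← pow_add]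
    congr 3
    rw [he]
    ring
  have he0 : ¬ 2 ^ n ∣ e := by
    rintro ⟨q, hq⟩
    apply hx
    have h1 : ρ (c ^ e) = 1 := by
      rw [hq, pow_mul, map_pow, hc, one_pow]
    have h3 : ρ (c ^ s) = ρ c := by
      have h4 : c ^ e * c = c ^ s * c ^ (2 ^ n) := by
        rw [← pow_succ, ← pow_add]
        congr 1
        omega
      have h5 := congrArg ρ h4
      rw [map_mul, map_mul, h1, hc, one_mul, mul_one] at h5
      exact h5.symm
    rw [h3] at hs
    have h6 : c * x = x * (x⁻¹ * c * x) := by group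
    rw [h6, map_mul ρ x (x⁻¹ * c * x), hs, ← map_mul]
  have hepos : e ≠ 0 := fun h => he0 (h ▸ dvd_zero _)
  obtain ⟨v, w, hw, hvw⟩ := Nat.exists_eq_two_pow_mul_odd hepos
  have hv : v ≤ n - 1 := by
    by_contra h
    apply he0
    rw [hvw]
    exact Dvd.dvd.mul_right (pow_dvd_pow 2 (by omega)) w
  have h1 := hkey (2 ^ (n - 1 - v))
  have h3 : e * 2 ^ (n - 1 - v) = 2 ^ (n - 1) * w := by
    rw [hvw, mul_right_comm, ← pow_add]
    congr 2
    omega
  have h2 : 2 ^ (n - 1) * 2 = 2 ^ n := by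
    rw [← pow_succ]
    congr 1
    omega
  have hz2 : ρ (c ^ (2 ^ (n - 1))) * ρ (c ^ (2 ^ (n - 1))) = 1 := by
    rw [← map_mul, ← pow_two, ← pow_mul, h2, hc]
  have h4 : ρ (x * c ^ (2 ^ (n - 1) * w)) = ρ (x * c ^ (2 ^ (n - 1))) := by
    rw [map_mul, map_mul, pow_mul, map_pow]
    obtain ⟨k, hk⟩ := hw
    rw [hk, pow_succ, pow_mul, pow_two, hz2, one_pow, one_mul]
  rw [h3, chr_congr ρ h4, chr_scal ρ x _ (-1) (invol ρ c n hI hn hc hz hconj)] at h1
  have h5 : ρ.character x + ρ.character x = 0 := by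
    nth_rewrite 1 [h1]
    ring
  have h6 : (2 : ℂ) * ρ.character x = 0 := by
    rw [two_mul, h5]
  rcases mul_eq_zero.1 h6 with h7 | h7
  · norm_num at h7
  · exact h7

end MCHx

open MCHx in
theorem MCH_thm : Stmt_MCH := by
  intro hSIG hMSG G V _ _ _ _ _ ρ c g n t hI hn hc hz hconj hcen ht hg
  have hnt := hI.1
  obtain ⟨v0, hv0⟩ := exists_ne (0 : V)
  have hsm : ∀ w : ℂ, w • v0 = v0 → w = 1 := by
    intro w hw
    have h5 : (w - 1) • v0 = 0 := by rw [sub_smul, hw, one_smul, sub_self]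
    rcases smul_eq_zero.1 h5 with h6 | h6
    · exact sub_eq_zero.1 h6
    · exact absurd h6 hv0
  set K : ℕ := Fintype.card G with hK
  have hKpos : 0 < K := Fintype.card_pos
  obtain ⟨N, M, hM, hNM⟩ := Nat.exists_eq_two_pow_mul_odd hKpos.ne'
  have hpowK : ∀ x : G, x ^ K = 1 := fun x => pow_card_eq_one
  -- `2 ^ n` divides `K`
  have h2 : 2 ^ (n - 1) * 2 = 2 ^ n := by
    rw [← pow_succ]
    congr 1
    omega
  have hord : orderOf (ρ c) = 2 ^ n := by
    have h1 : orderOf (ρ c) = 2 ^ (n - 1 + 1) := by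
      apply orderOf_eq_prime_pow
      · rw [← map_pow]
        exact hz
      · rw [← map_pow, pow_succ, h2]
        exact hc
    rw [h1]
    congr 1
    omega
  have hdvd : 2 ^ n ∣ K := by
    rw [← hord]
    apply orderOf_dvd_of_pow_eq_one
    rw [← map_pow, hpowK, map_one]
  have hcopM : Nat.Coprime (2 ^ N) M := Nat.Coprime.pow_left _ (Nat.coprime_two_left.2 hM)
  have hnN : 2 ^ n ∣ 2 ^ N := by
    have h1 : Nat.Coprime (2 ^ n) M := Nat.Coprime.pow_left _ (Nat.coprime_two_left.2 hM)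
    rw [hNM] at hdvd
    exact h1.dvd_of_dvd_mul_right hdvd
  have h4n : 4 ∣ 2 ^ n := by
    have : (4 : ℕ) = 2 ^ 2 := by norm_num
    rw [this]
    exact pow_dvd_pow 2 hn
  obtain ⟨t', ht1, ht2⟩ := Nat.chineseRemainder hcopM t 1
  have ht4 : t' % 4 = 3 := by
    have h1 : t' ≡ t [MOD 4] := ht1.of_dvd (h4n.trans hnN)
    rw [← ht]
    exact h1
  have hcop : K.Coprime t' := by
    rw [hNM]
    apply Nat.Coprime.mul_left
    · apply Nat.Coprime.pow_left
      rw [Nat.coprime_two_left, Nat.odd_iff]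
      omega
    · have h1 : Nat.gcd t' M = Nat.gcd 1 M := ht2.gcd_eq
      rw [Nat.gcd_one_left] at h1
      exact (Nat.coprime_comm.1 h1)
  obtain ⟨σ, hσ⟩ := hSIG K t' hKpos hcop
  refine ⟨σ, ?_, ?_⟩
  · intro x
    by_cases hx : ρ (x * c) = ρ (c * x)
    · obtain ⟨j, m, u, hm, hum, ⟨w, hw⟩, hxe⟩ := hcen x hx
      have hchi : ρ.character x = w * ρ.character (c ^ j) := by
        rw [chr_congr ρ hxe, chr_scal ρ (c ^ j) u w hw]
      have hupow : ∀ k : ℕ, ρ (u ^ k) v0 = w ^ k • v0 := fun k =>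
        pow_apply_eigen ρ (hw v0) k
      have hwm : w ^ m = 1 := by
        apply hsm
        rw [← hupow, hum]
        rfl
      have hwK : w ^ K = 1 := by
        apply hsm
        rw [← hupow, hpowK, map_one]
        rfl
      have hwM : w ^ M = 1 := by
        rw [← orderOf_dvd_iff_pow_eq_one]
        have h1 : orderOf w ∣ 2 ^ N * M := by
          rw [← hNM]
          exact orderOf_dvd_of_pow_eq_one hwK
        have h3 : orderOf w ∣ m := orderOf_dvd_of_pow_eq_one hwm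
        have h4 : Nat.Coprime (orderOf w) (2 ^ N) :=
          (Nat.Coprime.pow_right _ (Nat.coprime_two_right.2 (Odd.of_dvd_nat hm h3)))
        exact h4.dvd_of_dvd_mul_left h1
      have hσw : σ w = w := by
        rw [hσ w hwK]
        rw [pow_congr w M t' 1 hwM ht2, pow_one]
      have hσc : σ (ρ.character (c ^ j)) = ρ.character (c ^ j) := by
        rw [hMSG G V ρ (c ^ j) K t' σ hKpos (by rw [hpowK, map_one]) hσ, ← pow_mul]
        have h1 : ρ (c ^ (j * t')) = ρ (c ^ (t * j)) := by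
          rw [map_pow, map_pow, mul_comm t j]
          exact pow_congr (ρ c) (2 ^ n) _ _ (by rw [← map_pow, hc]) ((ht1.of_dvd hnN).mul_left j)
        have h3 : ρ (c ^ (t * j)) = ρ (g * c ^ j * g⁻¹) := by
          rw [← conj_pow, map_pow ρ (g * c * g⁻¹) j, hg, ← map_pow, ← pow_mul]
        rw [chr_congr ρ (h1.trans h3), mul_assoc, chr_comm]
        congr 1
        group
      rw [hchi, map_mul, hσw, hσc]
    · rw [vanish ρ c n hI hn hc hz hconj x hx, map_zero]
  · have h4K : 4 ∣ K := h4n.trans hdvd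
    have hIK : Complex.I ^ K = 1 := by
      obtain ⟨q, hq⟩ := h4K
      rw [hq, pow_mul, Complex.I_pow_four, one_pow]
    rw [hσ _ hIK]
    have h1 : Complex.I ^ t' = Complex.I ^ (t' % 4) := by
      conv_lhs => rw [← Nat.div_add_mod t' 4, pow_add, pow_mul, Complex.I_pow_four, one_pow, one_mul]
    rw [h1, ht4, pow_succ, pow_two, Complex.I_mul_I]
    ring

end StarkC.ABS
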