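import Pool.Agent.ABS.StR1

/-!
# The group lemma for Roquette's theorem

A nonabelian finite `ℓ`-group, `ℓ` odd, with cyclic center has a noncentral element `a` of order `ℓ`
whose class modulo the center is central.
-/

open scoped Classical

namespace StarkC.ABS

namespace RGP

/-- `b a^n = z^n a^n b` if `b a = z a b`. -/
lemma mul_pow_of {G : Type} [Group G] (a b z : G) (hz : z ∈ Subgroup.center G)
    (h : b * a = z * (a * b)) (n : ℕ) : b * a ^ n = z ^ n * (a ^ n * b) := by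
  have hc : ∀ g, Commute z g := fun g => (Subgroup.mem_center_iff.mp hz g).symm
  induction n with
  | zero => simp
  | succ n ih =>
    calc b * a ^ (n + 1) = (b * a ^ n) * a := by rw [pow_succ, mul_assoc]
      _ = z ^ n * a ^ n * (b * a) := by rw [ih]; simp only [mul_assoc]
      _ = z ^ n * a ^ n * (z * (a * b)) := by rw [h]
      _ = z ^ n * (a ^ n * z) * (a * b) := by simp only [mul_assoc]
      _ = z ^ n * (z * a ^ n) * (a * b) := by rw [((hc (a ^ n)).eq)]
      _ = z ^ (n + 1) * (a ^ (n + 1) * b) := by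
        rw [pow_succ z, pow_succ a]
        simp only [mul_assoc]

/-- `b^n a = z^n a b^n` if `b a = z a b`. -/
lemma pow_mul_of {G : Type} [Group G] (a b z : G) (hz : z ∈ Subgroup.center G)
    (h : b * a = z * (a * b)) (n : ℕ) : b ^ n * a = z ^ n * (a * b ^ n) := by
  have hc : ∀ g, Commute z g := fun g => (Subgroup.mem_center_iff.mp hz g).symm
  induction n with
  | zero => simp
  | succ n ih =>
    calc b ^ (n + 1) * a = b ^ n * (b * a) := by rw [pow_succ, mul_assoc]
      _ = (b ^ n * z) * (a * b) := by rw [h]; simp only [mul_assoc]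
      _ = (z * b ^ n) * (a * b) := by rw [((hc (b ^ n)).eq)]
      _ = z * (b ^ n * a) * b := by simp only [mul_assoc]
      _ = z * (z ^ n * (a * b ^ n)) * b := by rw [ih]
      _ = z ^ (n + 1) * (a * b ^ (n + 1)) := by
        rw [pow_succ' z, pow_succ b]
        simp only [mul_assoc]

/-- `(a b)^n = z^(n (n - 1) / 2) a^n b^n` if `b a = z a b`. -/
lemma mul_pow_eq {G : Type} [Group G] (a b z : G) (hz : z ∈ Subgroup.center G)
    (h : b * a = z * (a * b)) (n : ℕ) : (a * b) ^ n = z ^ (n.choose 2) * (a ^ n * b ^ n) := by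
  have hc : ∀ g, Commute z g := fun g => (Subgroup.mem_center_iff.mp hz g).symm
  induction n with
  | zero => simp
  | succ n ih =>
    have e : (n + 1).choose 2 = n.choose 2 + n := by
      rw [Nat.choose_succ_succ' n 1, Nat.choose_one_right]
      ring
    calc (a * b) ^ (n + 1) = (a * b) ^ n * (a * b) := pow_succ _ _
      _ = z ^ (n.choose 2) * a ^ n * (b ^ n * a) * b := by rw [ih]; simp only [mul_assoc]
      _ = z ^ (n.choose 2) * a ^ n * (z ^ n * (a * b ^ n)) * b := by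
        rw [pow_mul_of a b z hz h]
      _ = z ^ (n.choose 2) * (a ^ n * z ^ n) * (a * b ^ n) * b := by simp only [mul_assoc]
      _ = z ^ (n.choose 2) * (z ^ n * a ^ n) * (a * b ^ n) * b := by
        rw [((hc (a ^ n)).pow_left n).eq]
      _ = z ^ ((n + 1).choose 2) * (a ^ (n + 1) * b ^ (n + 1)) := by
        rw [e, pow_add, pow_succ a, pow_succ b]
        simp only [mul_assoc]

/-- The power formula. -/
lemma pow_of_central {G : Type} [Group G] {ℓ : ℕ} (hℓ : ℓ.Prime) (hℓ2 : ℓ ≠ 2) (a b : G)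
    (hab : Commute (QuotientGroup.mk' (Subgroup.center G) a)
      (QuotientGroup.mk' (Subgroup.center G) b))
    (hc : a ^ ℓ ∈ Subgroup.center G ∨ b ^ ℓ ∈ Subgroup.center G) :
    (a * b) ^ ℓ = a ^ ℓ * b ^ ℓ := by
  set z : G := b * a * (a * b)⁻¹ with hzd
  have hz : z ∈ Subgroup.center G := by
    have h1 : QuotientGroup.mk' (Subgroup.center G) z = 1 := by
      rw [hzd, map_mul, map_inv, map_mul, map_mul, hab.eq, mul_inv_cancel]
    exact (QuotientGroup.eq_one_iff z).mp h1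
  have h : b * a = z * (a * b) := by
    rw [hzd, inv_mul_cancel_right]
  have hzℓ : z ^ ℓ = 1 := by
    rcases hc with hc | hc
    · have h2 := mul_pow_of a b z hz h ℓ
      have h3 : b * a ^ ℓ = a ^ ℓ * b := Subgroup.mem_center_iff.mp hc b
      rw [h3] at h2
      exact (mul_eq_right.mp h2.symm)
    · have h2 := pow_mul_of a b z hz h ℓ
      have h3 : a * b ^ ℓ = b ^ ℓ * a := Subgroup.mem_center_iff.mp hc a
      rw [← h3] at h2
      exact (mul_eq_right.mp h2.symm)
  have hdvd : ℓ ∣ ℓ.choose 2 := by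
    apply hℓ.dvd_choose_self (by norm_num)
    have := hℓ.two_le
    omega
  obtain ⟨t, ht⟩ := hdvd
  rw [mul_pow_eq a b z hz h ℓ, ht, pow_mul, hzℓ, one_pow, one_mul]

/-- In a cyclic `ℓ`-group an element which is no `ℓ`-th power is a generator. -/
lemma gen_of {A : Type} [Group A] {ℓ : ℕ} (hℓ : ℓ.Prime) (hA : IsPGroup ℓ A) [hcyc : IsCyclic A]
    (x : A) (hx : ¬ ∃ w : A, x = w ^ ℓ) (y : A) : y ∈ Subgroup.zpowers x := by
  obtain ⟨g, hg⟩ := hcyc.exists_generator
  obtain ⟨m, hm⟩ := Subgroup.mem_zpowers_iff.mp (hg x)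
  obtain ⟨k, hk⟩ := hA g
  have hnd : ¬ (ℓ : ℤ) ∣ m := by
    rintro ⟨t, rfl⟩
    apply hx
    refine ⟨g ^ t, ?_⟩
    rw [← hm, mul_comm, zpow_mul, zpow_natCast]
  have hp : Prime (ℓ : ℤ) := Nat.prime_iff_prime_int.mp hℓ
  have hco : IsCoprime ((ℓ : ℤ) ^ k) m := (hp.coprime_iff_not_dvd.mpr hnd).pow_left
  obtain ⟨u, v, huv⟩ := hco
  have hgx : g = x ^ v := by
    have h1 : g ^ (u * (ℓ : ℤ) ^ k + v * m) = g := by rw [huv, zpow_one]
    have h2 : g ^ (u * (ℓ : ℤ) ^ k) = 1 := by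
      rw [mul_comm, zpow_mul]
      have : g ^ ((ℓ : ℤ) ^ k) = 1 := by
        have h3 : ((ℓ : ℤ) ^ k) = ((ℓ ^ k : ℕ) : ℤ) := by push_cast; rfl
        rw [h3, zpow_natCast, hk]
      rw [this, one_zpow]
    rw [zpow_add, h2, one_mul, mul_comm, zpow_mul, hm] at h1
    exact h1.symm
  obtain ⟨i, hi⟩ := Subgroup.mem_zpowers_iff.mp (hg y)
  rw [← hi, hgx, ← zpow_mul]
  exact Subgroup.zpow_mem_zpowers x _

/-- The main induction. -/
theorem main (hRCY : Stmt_RCY) {ℓ : ℕ} (hℓ : ℓ.Prime) (hℓ2 : ℓ ≠ 2) : ∀ (n : ℕ) (G : Type)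
    [Group G] [Finite G], Nat.card G = n → IsPGroup ℓ G → IsCyclic (Subgroup.center G) →
    (¬ ∀ a b : G, a * b = b * a) →
    ∃ a : G, a ∉ Subgroup.center G ∧ a ^ ℓ = 1 ∧
      QuotientGroup.mk' (Subgroup.center G) a ∈ Subgroup.center (G ⧸ Subgroup.center G) := by
  intro n
  induction n using Nat.strong_induction_on with
  | _ n ih =>
  intro G _ _ hcard hG hcyc hnab
  have : Fact ℓ.Prime := ⟨hℓ⟩
  set π : G →* G ⧸ Subgroup.center G := QuotientGroup.mk' (Subgroup.center G) with hπ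
  have hπ1 : ∀ u : G, π u = 1 ↔ u ∈ Subgroup.center G := fun u => QuotientGroup.eq_one_iff u
  have hπs : Function.Surjective π := QuotientGroup.mk'_surjective _
  have hQ : IsPGroup ℓ (G ⧸ Subgroup.center G) := hG.to_quotient _
  have hZ : IsPGroup ℓ (Subgroup.center G) := hG.to_subgroup _
  -- the quotient is not trivial
  have hQnt : Nontrivial (G ⧸ Subgroup.center G) := by
    by_contra hnt
    rw [not_nontrivial_iff_subsingleton] at hnt
    apply hnab
    intro a b
    have h1 : a ∈ Subgroup.center G := (hπ1 a).mp (Subsingleton.elim _ _)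
    exact ((Subgroup.mem_center_iff.mp h1) b).symm
  have hGnt : Nontrivial G := hπs.nontrivial
  have hZnt : Nontrivial (Subgroup.center G) := hG.center_nontrivial
  have hCnt : Nontrivial (Subgroup.center (G ⧸ Subgroup.center G)) := hQ.center_nontrivial
  have hCp : IsPGroup ℓ (Subgroup.center (G ⧸ Subgroup.center G)) := hQ.to_subgroup _
  -- an element of order ℓ of the center of the quotient
  have hdvd : ℓ ∣ Nat.card (Subgroup.center (G ⧸ Subgroup.center G)) := by
    obtain ⟨k, hk0, hk⟩ := hCp.nontrivial_iff_card.mp hCnt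
    rw [hk]
    exact dvd_pow_self ℓ hk0.ne'
  obtain ⟨c₀, hc₀⟩ := exists_prime_orderOf_dvd_card' ℓ hdvd
  obtain ⟨x, hx⟩ := hπs (c₀ : G ⧸ Subgroup.center G)
  have hxC : π x ∈ Subgroup.center (G ⧸ Subgroup.center G) := by
    rw [hx]
    exact c₀.2
  have hc₀1 : c₀ ≠ 1 := by
    intro h
    rw [h, orderOf_one] at hc₀
    exact hℓ.one_lt.ne hc₀
  have hxZ : x ∉ Subgroup.center G := by
    intro h
    apply hc₀1
    apply Subtype.ext
    rw [← hx]
    exact (hπ1 x).mpr h
  have hπx : (π x) ^ ℓ = 1 := by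
    rw [hx]
    have h1 : c₀ ^ ℓ = 1 := by
      rw [← hc₀]
      exact pow_orderOf_eq_one c₀
    have h2 := congrArg Subtype.val h1
    simpa using h2
  have hxℓ : x ^ ℓ ∈ Subgroup.center G := by
    rw [← hπ1, map_pow]
    exact hπx
  by_cases h2 : ∃ w ∈ Subgroup.center G, x ^ ℓ = w ^ ℓ
  · obtain ⟨w, hw, hxw⟩ := h2
    refine ⟨x * w⁻¹, ?_, ?_, ?_⟩
    · intro h
      apply hxZ
      have h3 := mul_mem h hw
      rwa [inv_mul_cancel_right] at h3
    · have hcom : Commute x w⁻¹ := by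
        have := Subgroup.mem_center_iff.mp (inv_mem hw) x
        exact this
      rw [hcom.mul_pow, inv_pow, hxw, mul_inv_cancel]
    · have h3 : π (x * w⁻¹) = π x := by
        rw [map_mul, map_inv, (hπ1 w).mpr hw, inv_one, mul_one]
      rw [h3]
      exact hxC
  -- `x ^ ℓ` generates the center
  have hgen : ∀ z ∈ Subgroup.center G, ∃ k : ℤ, z = (x ^ ℓ) ^ k := by
    intro z hz
    have h3 : ¬ ∃ w : Subgroup.center G, (⟨x ^ ℓ, hxℓ⟩ : Subgroup.center G) = w ^ ℓ := by
      rintro ⟨w, hw⟩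
      apply h2
      refine ⟨w, w.2, ?_⟩
      have := congrArg Subtype.val hw
      simpa using this
    obtain ⟨k, hk⟩ := Subgroup.mem_zpowers_iff.mp
      (gen_of hℓ hZ (⟨x ^ ℓ, hxℓ⟩ : Subgroup.center G) h3 ⟨z, hz⟩)
    refine ⟨k, ?_⟩
    have := congrArg Subtype.val hk
    simpa using this.symm
  have hxc : ∀ (k : ℤ) (q : G ⧸ Subgroup.center G), Commute (π (x ^ k)) q := by
    intro k q
    have h3 : π (x ^ k) ∈ Subgroup.center (G ⧸ Subgroup.center G) := by
      rw [map_zpow]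
      exact zpow_mem hxC k
    exact ((Subgroup.mem_center_iff.mp h3) q).symm
  have hxkℓ : ∀ k : ℤ, (x ^ k) ^ ℓ = (x ^ ℓ) ^ k := by
    intro k
    rw [← zpow_natCast, ← zpow_mul, mul_comm, zpow_mul, zpow_natCast]
  by_cases h4 : ∃ y : G, π y ∈ Subgroup.center (G ⧸ Subgroup.center G) ∧
      y ^ ℓ ∈ Subgroup.center G ∧ y ∉ Subgroup.zpowers x
  · obtain ⟨y, hyC, hyℓ, hyx⟩ := h4
    obtain ⟨k, hk⟩ := hgen _ hyℓ
    refine ⟨y * x ^ (-k), ?_, ?_, ?_⟩
    · intro h
      obtain ⟨j, hj⟩ := hgen _ h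
      apply hyx
      have h5 : y = (x ^ ℓ) ^ j * x ^ k := by
        rw [← hj, zpow_neg, inv_mul_cancel_right]
      rw [h5]
      exact mul_mem (zpow_mem (pow_mem (Subgroup.mem_zpowers x) ℓ) j)
        (zpow_mem (Subgroup.mem_zpowers x) k)
    · rw [pow_of_central hℓ hℓ2 y (x ^ (-k)) (hxc (-k) (π y)).symm (Or.inl hyℓ), hxkℓ, hk,
        ← zpow_add, add_neg_cancel, zpow_zero]
    · rw [map_mul]
      refine mul_mem hyC ?_
      rw [map_zpow]
      exact zpow_mem hxC _
  -- the center of the quotient is cyclic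
  have h5 : ∀ y : G, π y ∈ Subgroup.center (G ⧸ Subgroup.center G) →
      y ^ ℓ ∈ Subgroup.center G → ∃ i : ℤ, y = x ^ i := by
    intro y h6 h7
    by_contra h8
    apply h4
    refine ⟨y, h6, h7, fun h9 => h8 ?_⟩
    obtain ⟨i, hi⟩ := Subgroup.mem_zpowers_iff.mp h9
    exact ⟨i, hi.symm⟩
  have hCcyc : IsCyclic (Subgroup.center (G ⧸ Subgroup.center G)) := by
    let instC : CommGroup (Subgroup.center (G ⧸ Subgroup.center G)) :=
      { (inferInstance : Group (Subgroup.center (G ⧸ Subgroup.center G))) with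
        mul_comm := fun a b => Subtype.ext (Subgroup.mem_center_iff.mp b.2 a) }
    refine hRCY ℓ (Subgroup.center (G ⧸ Subgroup.center G)) ⟨π x, hxC⟩ hℓ hCp ?_ ?_
    · apply Subtype.ext
      exact hπx
    · rintro ⟨a, haC⟩ ha
      have ha' : a ^ ℓ = 1 := by
        have := congrArg Subtype.val ha
        simpa using this
      obtain ⟨y, rfl⟩ := hπs a
      have h6 : y ^ ℓ ∈ Subgroup.center G := by
        rw [← hπ1, map_pow]
        exact ha'
      obtain ⟨i, hi⟩ := h5 y haC h6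
      rw [Subgroup.mem_zpowers_iff]
      refine ⟨i, ?_⟩
      apply Subtype.ext
      show (π x) ^ i = π y
      rw [hi, map_zpow]
  have hQnab : ¬ ∀ a b : G ⧸ Subgroup.center G, a * b = b * a := by
    intro h
    apply hnab
    have h6 : ∀ g, π g ∈ Subgroup.center (G ⧸ Subgroup.center G) := by
      intro g
      rw [Subgroup.mem_center_iff]
      intro q
      exact h _ _
    intro a b
    have h7 : (π.codRestrict (Subgroup.center (G ⧸ Subgroup.center G)) h6).ker ≤
        Subgroup.center G := by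
      intro g hg
      rw [← hπ1]
      exact congrArg Subtype.val hg
    exact (MonoidHom.isMulCommutative_of_isCyclic_of_ker_le_center _ h7).is_comm.comm a b
  have hlt : Nat.card (G ⧸ Subgroup.center G) < n := by
    rw [← hcard, Subgroup.card_eq_card_quotient_mul_card_subgroup (Subgroup.center G)]
    have h6 : 1 < Nat.card (Subgroup.center G) := Finite.one_lt_card
    have h7 : 0 < Nat.card (G ⧸ Subgroup.center G) := Nat.card_pos
    nlinarith
  obtain ⟨a', ha'C, ha'ℓ, ha'2⟩ := ih _ hlt (G ⧸ Subgroup.center G) rfl hQ hCcyc hQnab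
  -- lift it and correct the power
  obtain ⟨a₀, rfl⟩ := hπs a'
  have ha₀ : a₀ ^ ℓ ∈ Subgroup.center G := by
    rw [← hπ1, map_pow]
    exact ha'ℓ
  obtain ⟨k, hk⟩ := hgen _ ha₀
  set a : G := a₀ * x ^ (-k) with had
  have haℓ : a ^ ℓ = 1 := by
    rw [had, pow_of_central hℓ hℓ2 a₀ (x ^ (-k)) (hxc (-k) (π a₀)).symm (Or.inl ha₀), hxkℓ, hk,
      ← zpow_add, add_neg_cancel, zpow_zero]
  have haC : π a ∉ Subgroup.center (G ⧸ Subgroup.center G) := by
    intro h
    apply ha'C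
    have h6 : π a₀ = π a * (π x) ^ k := by
      rw [had, map_mul, map_zpow, zpow_neg, inv_mul_cancel_right]
    rw [h6]
    exact mul_mem h (zpow_mem hxC k)
  exfalso
  apply haC
  rw [Subgroup.mem_center_iff]
  intro q
  obtain ⟨g, rfl⟩ := hπs q
  -- the commutator with `g`
  set c : G := g⁻¹ * a * g * a⁻¹ with hcd
  have hcC : π c ∈ Subgroup.center (G ⧸ Subgroup.center G) := by
    have h6 : π c = (π g)⁻¹ * π a₀ * π g * (π a₀)⁻¹ := by
      have h7 : π a = π a₀ * π (x ^ (-k)) := by rw [had, map_mul]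
      have h8 := (hxc (-k) (π g)).eq
      rw [hcd, map_mul, map_mul, map_mul, map_inv, map_inv, h7, mul_inv_rev]
      calc (π g)⁻¹ * (π a₀ * π (x ^ (-k))) * π g * ((π (x ^ (-k)))⁻¹ * (π a₀)⁻¹)
          = (π g)⁻¹ * π a₀ * (π (x ^ (-k)) * π g) * (π (x ^ (-k)))⁻¹ * (π a₀)⁻¹ := by
            simp only [mul_assoc]
        _ = (π g)⁻¹ * π a₀ * π g * (π a₀)⁻¹ := by
            rw [h8]
            simp only [mul_assoc, mul_inv_cancel_left]
    rw [h6]
    rw [← QuotientGroup.eq_one_iff]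
    have h9 := Subgroup.mem_center_iff.mp ha'2
      (QuotientGroup.mk' (Subgroup.center (G ⧸ Subgroup.center G)) (π g))
    have h10 : QuotientGroup.mk' (Subgroup.center (G ⧸ Subgroup.center G))
        ((π g)⁻¹ * π a₀ * π g * (π a₀)⁻¹) = 1 := by
      rw [map_mul, map_mul, map_mul, map_inv, map_inv, mul_assoc _ _
        (QuotientGroup.mk' (Subgroup.center (G ⧸ Subgroup.center G)) (π g)), ← h9]
      group
    exact h10
  have hca : c * a = g⁻¹ * a * g := by
    rw [hcd, inv_mul_cancel_right]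
  have hcaℓ : (c * a) ^ ℓ = 1 := by
    rw [hca]
    have h6 : g⁻¹ * a * g = MulAut.conj g⁻¹ a := by
      rw [MulAut.conj_apply, inv_inv]
    rw [h6, ← map_pow, haℓ, map_one]
  have hcomm : Commute (π c) (π a) := ((Subgroup.mem_center_iff.mp hcC) (π a)).symm
  have hcℓZ : c ^ ℓ ∈ Subgroup.center G := by
    rw [← hπ1, map_pow]
    have h6 : (π c * π a) ^ ℓ = 1 := by
      rw [← map_mul, ← map_pow, hcaℓ, map_one]
    rw [hcomm.mul_pow, ← map_pow π a, haℓ, map_one, mul_one] at h6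
    exact h6
  have hcℓ : c ^ ℓ = 1 := by
    have h6 := pow_of_central hℓ hℓ2 c a hcomm (Or.inl hcℓZ)
    rw [hcaℓ, haℓ, mul_one] at h6
    exact h6.symm
  obtain ⟨i, hi⟩ := h5 c hcC hcℓZ
  have hxi : (x ^ ℓ) ^ i = 1 := by
    rw [← hxkℓ, ← hi, hcℓ]
  have hord : (ℓ : ℤ) ∣ i := by
    have h6 : (orderOf (x ^ ℓ) : ℤ) ∣ i := orderOf_dvd_iff_zpow_eq_one.mpr hxi
    refine dvd_trans ?_ h6
    obtain ⟨j, hj⟩ := hG.exists_orderOf_eq_pow (x ^ ℓ)
    have hj0 : j ≠ 0 := by
      rintro rfl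
      rw [pow_zero, orderOf_eq_one_iff] at hj
      apply h2
      exact ⟨1, one_mem _, by rw [hj, one_pow]⟩
    rw [hj]
    exact_mod_cast dvd_pow_self ℓ hj0
  have hcZ : c ∈ Subgroup.center G := by
    obtain ⟨t, rfl⟩ := hord
    rw [hi, zpow_mul, zpow_natCast]
    exact zpow_mem hxℓ t
  have h6 : π c = 1 := (hπ1 c).mpr hcZ
  have h7 : (π g)⁻¹ * π a * π g = π a := by
    have h8 : π (c * a) = π a := by rw [map_mul, h6, one_mul]
    rw [hca, map_mul, map_mul, map_inv] at h8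
    exact h8
  calc π g * π a = π g * ((π g)⁻¹ * π a * π g) := by rw [h7]
    _ = π a * π g := by group

end RGP

/-- `RGP`.  The group lemma. -/
theorem RGP_thm : Stmt_RGP := by
  intro hRCY ℓ G _ _ hℓ hℓ2 hG hcyc hnab
  obtain ⟨a, ha1, ha2, ha3⟩ := RGP.main hRCY hℓ hℓ2 _ G rfl hG hcyc hnab
  refine ⟨a, ha1, ha2, fun g => ?_⟩
  rw [← QuotientGroup.eq_one_iff]
  have h1 := Subgroup.mem_center_iff.mp ha3 (QuotientGroup.mk' (Subgroup.center G) g)
  have h2 : QuotientGroup.mk' (Subgroup.center G) (g⁻¹ * a * g * a⁻¹) = 1 := by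
    rw [map_mul, map_mul, map_mul, map_inv, map_inv, mul_assoc _ _
      (QuotientGroup.mk' (Subgroup.center G) g), ← h1]
    group
  exact h2

end StarkC.ABS
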