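import Pool.Agent.ABS.StN
import Pool.Agent.ABS.RGP
import Pool.Agent.ABS.RCY

/-!
# Part N, module NGP (helper7): the group lemma

A nonabelian finite nilpotent group with cyclic center whose elements of `2`-power order commute has a
noncentral element of prime order whose class modulo the center is central.
-/

set_option autoImplicit false

open scoped Classical

namespace StarkC.ABS

namespace NGPx

/-- The lemma for a direct factor which is a `p`-group. -/
theorem core (p : ℕ) (hp : p.Prime) (hp2 : p ≠ 2) (P G : Type) [Group P] [Finite P] [Group G]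
    [Finite G] (hP : IsPGroup p P) (i : P →* G) (c : G →* P) (h1 : ∀ x, c (i x) = x)
    (h2 : ∀ x h, c h = 1 → i x * h = h * i x) (hcyc : IsCyclic (Subgroup.center G))
    (hab : ¬ ∀ a b : P, a * b = b * a) :
    ∃ a z : G, a ∉ Subgroup.center G ∧ a ^ p = 1 ∧
      (∀ g : G, g⁻¹ * a * g * a⁻¹ ∈ Subgroup.center G) ∧ z ∈ Subgroup.center G ∧
      orderOf z = p := by
  have : Fact p.Prime := ⟨hp⟩
  have hi : Function.Injective i := Function.LeftInverse.injective h1
  -- the decomposition of an element
  have hdec : ∀ g : G, ∃ h : G, g = i (c g) * h ∧ ∀ x, i x * h = h * i x := by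
    intro g
    refine ⟨(i (c g))⁻¹ * g, by group, fun x => h2 x _ ?_⟩
    rw [map_mul, map_inv, h1, inv_mul_cancel]
  have hcen : ∀ x ∈ Subgroup.center P, i x ∈ Subgroup.center G := by
    intro x hx
    rw [Subgroup.mem_center_iff] at hx ⊢
    intro g
    obtain ⟨h, hg, hh⟩ := hdec g
    calc g * i x = i (c g) * (h * i x) := by rw [← mul_assoc, ← hg]
      _ = i (c g) * (i x * h) := by rw [hh]
      _ = i (c g * x) * h := by rw [← mul_assoc, map_mul]
      _ = i (x * c g) * h := by rw [hx]
      _ = i x * (i (c g) * h) := by rw [map_mul, mul_assoc]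
      _ = i x * g := by rw [← hg]
  have hcj : ∀ (g : G) (a : P), g⁻¹ * i a * g * (i a)⁻¹ = i ((c g)⁻¹ * a * c g * a⁻¹) := by
    intro g a
    obtain ⟨h, hg, hh⟩ := hdec g
    have h3 : g⁻¹ * i a * g = i ((c g)⁻¹ * a * c g) := by
      have h4 : i a * g = g * i ((c g)⁻¹ * a * c g) := by
        calc i a * g = i a * (i (c g) * h) := by rw [← hg]
          _ = i (a * c g) * h := by rw [← mul_assoc, map_mul]
          _ = i (c g * ((c g)⁻¹ * a * c g)) * h := by
            congr 2
            group
          _ = i (c g) * (i ((c g)⁻¹ * a * c g) * h) := by rw [map_mul, mul_assoc]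
          _ = i (c g) * (h * i ((c g)⁻¹ * a * c g)) := by rw [hh]
          _ = g * i ((c g)⁻¹ * a * c g) := by rw [← mul_assoc, ← hg]
      rw [mul_assoc, h4, inv_mul_cancel_left]
    rw [h3, map_mul i ((c g)⁻¹ * a * c g) a⁻¹, map_inv i a]
  -- the center of `P` is cyclic
  let j : Subgroup.center P →* Subgroup.center G :=
    { toFun := fun x => ⟨i x, hcen x x.2⟩
      map_one' := Subtype.ext (by simp)
      map_mul' := fun x y => Subtype.ext (by simp) }
  have hj : Function.Injective j := by
    intro x y hxy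
    have h3 : i (x : P) = i (y : P) := congrArg Subtype.val hxy
    exact Subtype.ext (hi h3)
  have hcycP : IsCyclic (Subgroup.center P) := isCyclic_of_injective j hj
  obtain ⟨a₀, ha1, ha2, ha3⟩ := RGP_thm RCY_thm p P hp hp2 hP hcycP hab
  -- an element of order `p`
  have hnt : Nontrivial P := by
    by_contra hcon
    rw [not_nontrivial_iff_subsingleton] at hcon
    exact hab fun a b => Subsingleton.elim _ _
  have hcn : Nontrivial (Subgroup.center P) := hP.center_nontrivial
  obtain ⟨n, hn, hcard⟩ := (hP.to_subgroup (Subgroup.center P)).nontrivial_iff_card.mp hcn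
  obtain ⟨z₀, hz₀⟩ := exists_prime_orderOf_dvd_card' (G := Subgroup.center P) p (by
    rw [hcard]
    exact dvd_pow_self p (by omega))
  refine ⟨i a₀, i z₀, ?_, ?_, ?_, hcen _ z₀.2, ?_⟩
  · intro hcon
    apply ha1
    rw [Subgroup.mem_center_iff] at hcon ⊢
    intro y
    apply hi
    rw [map_mul, map_mul]
    exact hcon (i y)
  · rw [← map_pow, ha2, map_one]
  · intro g
    rw [hcj]
    exact hcen _ (ha3 (c g))
  · rw [orderOf_injective i hi, Subgroup.orderOf_coe, hz₀]

end NGPx

open NGPx in
/-- NGP: the group lemma. -/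
theorem NGP_thm : Stmt_NGP := by
  intro G _ _ hnil h2 hcyc hab
  obtain ⟨e⟩ := (Group.isNilpotent_of_finite_tfae (G := G)).out 0 4 |>.mp hnil
  -- a nonabelian Sylow subgroup
  have hex : ∃ (p : (Nat.card G).primeFactors) (P : Sylow p G),
      ¬ ∀ a b : (P : Subgroup G), a * b = b * a := by
    by_contra hcon
    push Not at hcon
    apply hab
    intro a b
    apply e.symm.injective
    rw [map_mul, map_mul]
    funext p P
    exact hcon p P _ _
  obtain ⟨p, P, hP⟩ := hex
  have hp : (p : ℕ).Prime := Nat.prime_of_mem_primeFactors p.2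
  let i : (P : Subgroup G) →* G := e.toMonoidHom.comp
    ((MonoidHom.mulSingle (fun p : (Nat.card G).primeFactors =>
      ∀ P : Sylow p G, (P : Subgroup G)) p).comp
      (MonoidHom.mulSingle (fun P : Sylow p G => (P : Subgroup G)) P))
  let c : G →* (P : Subgroup G) :=
    (Pi.evalMonoidHom (fun P : Sylow p G => (P : Subgroup G)) P).comp
      ((Pi.evalMonoidHom (fun p : (Nat.card G).primeFactors =>
        ∀ P : Sylow p G, (P : Subgroup G)) p).comp e.symm.toMonoidHom)
  have hi : ∀ x, i x = e (Pi.mulSingle p (Pi.mulSingle P x)) := fun _ => rfl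
  have hc : ∀ g, c g = e.symm g p P := fun _ => rfl
  have h1 : ∀ x, c (i x) = x := by
    intro x
    rw [hc, hi, MulEquiv.symm_apply_apply, Pi.mulSingle_eq_same, Pi.mulSingle_eq_same]
  have h3 : ∀ x h, c h = 1 → i x * h = h * i x := by
    intro x h hh
    rw [hc] at hh
    apply e.symm.injective
    rw [map_mul, map_mul, hi, MulEquiv.symm_apply_apply]
    funext p' P'
    rw [Pi.mul_apply, Pi.mul_apply, Pi.mul_apply, Pi.mul_apply]
    by_cases hpp : p' = p
    · subst hpp
      rw [Pi.mulSingle_eq_same]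
      by_cases hPP : P' = P
      · subst hPP
        rw [Pi.mulSingle_eq_same, hh, mul_one, one_mul]
      · rw [Pi.mulSingle_eq_of_ne hPP, mul_one, one_mul]
    · rw [Pi.mulSingle_eq_of_ne hpp, Pi.one_apply, mul_one, one_mul]
  have hpg : IsPGroup p (P : Subgroup G) := P.isPGroup'
  have hp2 : (p : ℕ) ≠ 2 := by
    intro hp2
    apply hP
    intro x y
    have key : ∀ x : (P : Subgroup G), ∃ j : ℕ, i x ^ (2 ^ j) = 1 := by
      intro x
      obtain ⟨k, hk⟩ := hpg x
      refine ⟨k, ?_⟩
      have h5 : (2 : ℕ) ^ k = (p : ℕ) ^ k := by rw [hp2]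
      rw [h5, ← map_pow, hk, map_one]
    have h4 := h2 (i x) (i y) (key x) (key y)
    rw [← map_mul, ← map_mul] at h4
    exact Function.LeftInverse.injective h1 h4
  obtain ⟨a, z, ha1, ha2, ha3, hz1, hz2⟩ := core p hp hp2 (P : Subgroup G) G hpg i c h1 h3 hcyc hP
  exact ⟨p, a, z, hp, ha1, ha2, ha3, hz1, hz2⟩

end StarkC.ABS
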