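import Pool.Agent.ABS.StN3
import Pool.Agent.ABS.NGP
import Pool.Agent.ABS.REL

/-!
# Part N2, module MEL: the element `a` for nilpotent images with `i ∈ ℚ(χ)`
-/

set_option autoImplicit false

open scoped Classical

namespace StarkC.ABS

open StarkC.MON

namespace MELx

open REL

/-- the element `a` -/
def AltA (G : Type) [Group G] : Prop :=
  ∃ (p : ℕ) (a z : G), p.Prime ∧ a ∉ Subgroup.center G ∧ a ^ p = 1 ∧
    (∀ g : G, g⁻¹ * a * g * a⁻¹ ∈ Subgroup.center G) ∧ z ∈ Subgroup.center G ∧ orderOf z = p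

/-- the element `c` -/
def AltB (G : Type) [Group G] : Prop :=
  ∃ (c g : G) (t n : ℕ), 2 ≤ n ∧ orderOf c = 2 ^ n ∧ (∀ x : G, ∃ s : ℕ, x⁻¹ * c * x = c ^ s) ∧
    (∀ x : G, x * c = c * x → ∃ (j m : ℕ) (u : G), Odd m ∧ u ^ m = 1 ∧ u ∈ Subgroup.center G ∧
      x = c ^ j * u) ∧ t % 4 = 3 ∧ g * c * g⁻¹ = c ^ t

/-- The two cases for a direct factor which is a `2`-group, with central complement of odd order. -/
theorem core2 (hMAB : Stmt_MAB) (hMAX : Stmt_MAX) (hMGP : Stmt_MGP) (P G : Type) [Group P]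
    [Finite P] [Group G] [Finite G] (hP : IsPGroup 2 P) (i : P →* G) (c : G →* P)
    (h1 : ∀ x, c (i x) = x) (h2 : ∀ h, c h = 1 → h ∈ Subgroup.center G)
    (h3 : ∀ h, c h = 1 → ∃ m, Odd m ∧ h ^ m = 1) (hcyc : IsCyclic (Subgroup.center G))
    (hab : ¬ ∀ a b : P, a * b = b * a) : AltA G ∨ AltB G := by
  have hi : Function.Injective i := Function.LeftInverse.injective h1
  have hdec : ∀ g : G, ∃ h : G, g = i (c g) * h ∧ c h = 1 := by
    intro g
    refine ⟨(i (c g))⁻¹ * g, by group, ?_⟩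
    rw [map_mul, map_inv, h1, inv_mul_cancel]
  have hcj : ∀ (g : G) (a : P), g⁻¹ * i a * g = i ((c g)⁻¹ * a * c g) := by
    intro g a
    obtain ⟨h, hg, hh⟩ := hdec g
    have hh' := Subgroup.mem_center_iff.1 (h2 h hh)
    have h4 : i a * g = g * i ((c g)⁻¹ * a * c g) := by
      calc i a * g = i a * (i (c g) * h) := by rw [← hg]
        _ = i (a * c g) * h := by rw [← mul_assoc, map_mul]
        _ = i (c g * ((c g)⁻¹ * a * c g)) * h := by
          congr 2
          group
        _ = i (c g) * (i ((c g)⁻¹ * a * c g) * h) := by rw [map_mul, mul_assoc]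
        _ = i (c g) * (h * i ((c g)⁻¹ * a * c g)) := by rw [hh']
        _ = g * i ((c g)⁻¹ * a * c g) := by rw [← mul_assoc, ← hg]
    rw [mul_assoc, h4, inv_mul_cancel_left]
  have hcen : ∀ x ∈ Subgroup.center P, i x ∈ Subgroup.center G := by
    intro x hx
    rw [Subgroup.mem_center_iff] at hx ⊢
    intro g
    have h4 := hcj g x
    have h5 : (c g)⁻¹ * x * c g = x := by
      rw [mul_assoc, ← hx (c g), inv_mul_cancel_left]
    rw [h5, mul_assoc, inv_mul_eq_iff_eq_mul] at h4
    exact h4.symm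
  let j : Subgroup.center P →* Subgroup.center G :=
    { toFun := fun x => ⟨i x, hcen x x.2⟩
      map_one' := Subtype.ext (by simp)
      map_mul' := fun x y => Subtype.ext (by simp) }
  have hj : Function.Injective j := by
    intro x y hxy
    have h3 : i (x : P) = i (y : P) := congrArg Subtype.val hxy
    exact Subtype.ext (hi h3)
  have hcycP : IsCyclic (Subgroup.center P) := isCyclic_of_injective j hj
  rcases hMGP hMAB hMAX P hP hcycP hab with ⟨a₀, ha1, ha2, ha3⟩ |
    ⟨c₀, g₀, t, n, hn, hc, hcs, hcc, ht, hg⟩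
  · left
    have hnt : Nontrivial P := by
      by_contra hcon
      rw [not_nontrivial_iff_subsingleton] at hcon
      exact hab fun a b => Subsingleton.elim _ _
    have hcn : Nontrivial (Subgroup.center P) := hP.center_nontrivial
    obtain ⟨n, hn, hcard⟩ := (hP.to_subgroup (Subgroup.center P)).nontrivial_iff_card.mp hcn
    obtain ⟨z₀, hz₀⟩ := exists_prime_orderOf_dvd_card' (G := Subgroup.center P) 2 (by
      rw [hcard]
      exact dvd_pow_self 2 (by omega))
    refine ⟨2, i a₀, i z₀, Nat.prime_two, ?_, ?_, ?_, hcen _ z₀.2, ?_⟩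
    · intro hcon
      apply ha1
      rw [Subgroup.mem_center_iff] at hcon ⊢
      intro y
      apply hi
      rw [map_mul, map_mul]
      exact hcon (i y)
    · rw [← map_pow, ha2, map_one]
    · intro g
      rw [hcj, ← map_inv i a₀, ← map_mul]
      exact hcen _ (ha3 (c g))
    · rw [orderOf_injective i hi, Subgroup.orderOf_coe, hz₀]
  · right
    refine ⟨i c₀, i g₀, t, n, hn, ?_, ?_, ?_, ht, ?_⟩
    · rw [orderOf_injective i hi, hc]
    · intro x
      obtain ⟨s, hs⟩ := hcs (c x)
      exact ⟨s, by rw [hcj, hs, map_pow]⟩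
    · intro x hx
      have h4 := congrArg c hx
      rw [map_mul, map_mul, h1] at h4
      obtain ⟨k, hk⟩ := hcc (c x) h4
      obtain ⟨h, hxh, hh⟩ := hdec x
      obtain ⟨m, hm, hhm⟩ := h3 h hh
      refine ⟨k, m, h, hm, hhm, h2 h hh, ?_⟩
      rw [← map_pow, ← hk]
      exact hxh
    · rw [← map_mul, ← map_inv, ← map_mul, hg, map_pow]

/-- the factor for a Sylow subgroup -/
theorem exists_ic (G : Type) [Group G] [Finite G]
    (e : (∀ p : (Nat.card G).primeFactors, ∀ P : Sylow p G, (P : Subgroup G)) ≃* G)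
    (p : (Nat.card G).primeFactors) (P : Sylow p G) :
    ∃ (i : (P : Subgroup G) →* G) (c : G →* (P : Subgroup G)), (∀ x, c (i x) = x) ∧
      (∀ x h, c h = 1 → i x * h = h * i x) ∧ ∀ g, c g = e.symm g p P := by
  let i : (P : Subgroup G) →* G := e.toMonoidHom.comp
    ((MonoidHom.mulSingle (fun p : (Nat.card G).primeFactors =>
      ∀ P : Sylow p G, (P : Subgroup G)) p).comp
      (MonoidHom.mulSingle (fun P : Sylow p G => (P : Subgroup G)) P))
  let c : G →* (P : Subgroup G) :=
    (Pi.evalMonoidHom (fun P : Sylow p G => (P : Subgroup G)) P).comp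
      ((Pi.evalMonoidHom (fun p : (Nat.card G).primeFactors =>
        ∀ P : Sylow p G, (P : Subgroup G)) p).comp e.symm.toMonoidHom)
  have hi : ∀ x, i x = e (Pi.mulSingle p (Pi.mulSingle P x)) := fun _ => rfl
  have hc : ∀ g, c g = e.symm g p P := fun _ => rfl
  refine ⟨i, c, fun x => ?_, fun x h hh => ?_, hc⟩
  · rw [hc, hi, MulEquiv.symm_apply_apply, Pi.mulSingle_eq_same, Pi.mulSingle_eq_same]
  · rw [hc] at hh
    apply e.symm.injective
    rw [map_mul, map_mul, hi, MulEquiv.symm_apply_apply]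
    funext p' P'
    rw [Pi.mul_apply, Pi.mul_apply, Pi.mul_apply, Pi.mul_apply]
    by_cases hpp : p' = p
    · subst hpp
      rw [Pi.mulSingle_eq_same]
      by_cases hPP : P' = P
      · subst hPP
        rw [Pi.mulSingle_eq_same, hh, mul_one, one_mul]
      · rw [Pi.mulSingle_eq_of_ne hPP, mul_one, one_mul]
    · rw [Pi.mulSingle_eq_of_ne hpp, Pi.one_apply, mul_one, one_mul]

/-- the group lemma -/
theorem grp (hMAB : Stmt_MAB) (hMAX : Stmt_MAX) (hMGP : Stmt_MGP) (G : Type) [Group G] [Finite G]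
    (hnil : Group.IsNilpotent G) (hcyc : IsCyclic (Subgroup.center G))
    (hab : ¬ ∀ a b : G, a * b = b * a) : AltA G ∨ AltB G := by
  obtain ⟨e⟩ := (Group.isNilpotent_of_finite_tfae (G := G)).out 0 4 |>.mp hnil
  have hnorm := (Group.isNilpotent_of_finite_tfae (G := G)).out 0 3 |>.mp hnil
  by_cases hodd : ∃ (p : (Nat.card G).primeFactors) (P : Sylow p G), (p : ℕ) ≠ 2 ∧
      ¬ ∀ a b : (P : Subgroup G), a * b = b * a
  · obtain ⟨p, P, hp2, hP⟩ := hodd
    have hp : (p : ℕ).Prime := Nat.prime_of_mem_primeFactors p.2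
    obtain ⟨i, c, h1, h2, -⟩ := exists_ic G e p P
    left
    obtain ⟨a, z, ha1, ha2, ha3, hz1, hz2⟩ := NGPx.core p hp hp2 (P : Subgroup G) G P.isPGroup'
      i c h1 h2 hcyc hP
    exact ⟨p, a, z, hp, ha1, ha2, ha3, hz1, hz2⟩
  · have hodd' : ∀ (p : (Nat.card G).primeFactors) (P : Sylow p G), (p : ℕ) ≠ 2 →
        ∀ a b : (P : Subgroup G), a * b = b * a := by
      intro p P hp
      by_contra hcon
      exact hodd ⟨p, P, hp, hcon⟩
    have hex : ∃ (p : (Nat.card G).primeFactors) (P : Sylow p G),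
        ¬ ∀ a b : (P : Subgroup G), a * b = b * a := by
      by_contra hcon
      push Not at hcon
      apply hab
      intro a b
      apply e.symm.injective
      rw [map_mul, map_mul]
      funext p P
      exact hcon p P _ _
    obtain ⟨p, P, hP⟩ := hex
    have hp2 : (p : ℕ) = 2 := by
      by_contra h
      exact hP (hodd' p P h)
    have hp : (p : ℕ).Prime := Nat.prime_of_mem_primeFactors p.2
    have hfact : Fact (p : ℕ).Prime := ⟨hp⟩
    obtain ⟨i, c, h1, -, hc⟩ := exists_ic G e p P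
    have huniq : ∀ P' : Sylow p G, P' = P := fun P' =>
      (Sylow.unique_of_normal P (hnorm p hfact P)).uniq P' |>.trans
        ((Sylow.unique_of_normal P (hnorm p hfact P)).uniq P).symm
    have hpg : IsPGroup 2 (P : Subgroup G) := by
      intro x
      obtain ⟨k, hk⟩ := P.isPGroup' x
      refine ⟨k, ?_⟩
      have h5 : (2 : ℕ) ^ k = (p : ℕ) ^ k := by rw [hp2]
      rw [h5, hk]
    have hcard : Nat.card G ≠ 0 := Nat.card_pos.ne'
    obtain ⟨N, m, hm, hNm⟩ := Nat.exists_eq_two_pow_mul_odd hcard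
    refine core2 hMAB hMAX hMGP (P : Subgroup G) G hpg i c h1 (fun h hh => ?_)
      (fun h hh => ⟨m, hm, ?_⟩) hcyc hP
    · rw [hc] at hh
      rw [Subgroup.mem_center_iff]
      intro y
      apply e.symm.injective
      rw [map_mul, map_mul]
      funext p' P'
      by_cases hpp : p' = p
      · subst hpp
        rw [huniq P', Pi.mul_apply, Pi.mul_apply, Pi.mul_apply, Pi.mul_apply, hh, mul_one, one_mul]
      · exact hodd' p' P' (fun h => hpp (Subtype.ext (h.trans hp2.symm))) _ _
    · rw [hc] at hh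
      apply e.symm.injective
      rw [map_pow, map_one]
      funext p' P'
      rw [Pi.pow_apply, Pi.pow_apply, Pi.one_apply, Pi.one_apply]
      by_cases hpp : p' = p
      · subst hpp
        rw [huniq P', hh, one_pow]
      · have hp' : (p' : ℕ).Prime := Nat.prime_of_mem_primeFactors p'.2
        have hfact' : Fact (p' : ℕ).Prime := ⟨hp'⟩
        have hne : (p' : ℕ) ≠ 2 := fun h => hpp (Subtype.ext (h.trans hp2.symm))
        obtain ⟨k, hk⟩ := IsPGroup.iff_card.1 P'.isPGroup'
        have h4 : Nat.card (P' : Subgroup G) ∣ m := by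
          have h5 : Nat.card (P' : Subgroup G) ∣ 2 ^ N * m := by
            rw [← hNm]
            exact Subgroup.card_subgroup_dvd_card _
          refine Nat.Coprime.dvd_of_dvd_mul_left ?_ h5
          rw [hk]
          exact Nat.Coprime.pow _ _ ((Nat.coprime_primes hp' Nat.prime_two).2 hne)
        exact orderOf_dvd_iff_pow_eq_one.1 ((orderOf_dvd_natCard _).trans h4)

variable {G V : Type} [Group G] [AddCommGroup V] [Module ℂ V]

/-- the image is nilpotent -/
theorem nilp (ρ : Representation ℂ G V)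
    (h : ∃ n : ℕ, ∀ g ∈ (⊤ : Subgroup G).lowerCentralSeries n, ρ g = 1) :
    Group.IsNilpotent (Im ρ) := by
  obtain ⟨n, hn⟩ := h
  rw [Subgroup.nilpotent_iff_lowerCentralSeries]
  refine ⟨n, ?_⟩
  have h1 := Subgroup.map_lowerCentralSeries (⊤ : Subgroup G) (pr ρ) n
  rw [Subgroup.map_top_of_surjective _ (pr_surj ρ)] at h1
  rw [← h1, eq_bot_iff]
  rintro x ⟨g, hg, rfl⟩
  rw [Subgroup.mem_bot, pr_one]
  exact hn g hg

end MELx

open REL MELx in
theorem MEL_thm : Stmt_MEL := by
  intro hSIG hMSG hMCH hMAB hMAX hMGP G V _ _ _ _ _ ρ hI hN hns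
  have hnt := hI.1
  obtain ⟨v0, hv0⟩ := exists_ne (0 : V)
  have hfin : Finite (Im ρ) := Finite.of_surjective _ (pr_surj ρ)
  have hsc : ∀ x : Subgroup.center (Im ρ), ∃ c : ℂ, ∀ v,
      (((x : Im ρ) : (V →ₗ[ℂ] V)ˣ) : V →ₗ[ℂ] V) v = c • v := by
    intro x
    obtain ⟨g, hg⟩ := pr_surj ρ (x : Im ρ)
    have h1 : pr ρ g ∈ Subgroup.center (Im ρ) := by
      rw [hg]
      exact x.2
    obtain ⟨c, hc⟩ := (mem_center ρ hI g).1 h1
    refine ⟨c, fun v => ?_⟩
    rw [← hg]
    exact hc v
  choose c hc using hsc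
  have hinj : ∀ x y : ℂ, x • v0 = y • v0 → x = y := fun x y hxy => by
    have h2 : (x - y) • v0 = 0 := by rw [sub_smul, hxy, sub_self]
    rcases smul_eq_zero.1 h2 with h3 | h3
    · exact sub_eq_zero.1 h3
    · exact absurd h3 hv0
  let f : Subgroup.center (Im ρ) →* ℂ :=
    { toFun := c
      map_one' := by
        apply hinj
        rw [← hc, one_smul]
        rfl
      map_mul' := by
        intro x y
        apply hinj
        have h1 : (((x * y : Subgroup.center (Im ρ)) : (V →ₗ[ℂ] V)ˣ) : V →ₗ[ℂ] V) v0 =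
            (((x : Im ρ) : (V →ₗ[ℂ] V)ˣ) : V →ₗ[ℂ] V)
              ((((y : Im ρ) : (V →ₗ[ℂ] V)ˣ) : V →ₗ[ℂ] V) v0) := rfl
        rw [← hc, h1, hc y v0, map_smul, hc x v0, smul_smul, mul_comm] }
  have hfinj : Function.Injective f := by
    intro x y hxy
    apply Subtype.ext
    apply Subtype.ext
    apply Units.ext
    ext v
    rw [hc x v, hc y v]
    exact congrArg (fun z => z • v) hxy
  have hcyc : IsCyclic (Subgroup.center (Im ρ)) := isCyclic_of_injective_ringHom f hfinj
  have hnab : ¬ ∀ a b : Im ρ, a * b = b * a := by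
    intro h
    apply hns
    intro g
    rw [← mem_center ρ hI, Subgroup.mem_center_iff]
    intro x
    exact h _ _
  rcases grp hMAB hMAX hMGP (Im ρ) (nilp ρ hN.1) hcyc hnab with hA | hB
  · obtain ⟨p, a', z', hp, ha1, ha2, ha3, hz1, hz2⟩ := hA
    obtain ⟨a, rfl⟩ := pr_surj ρ a'
    obtain ⟨z, hz⟩ := pr_surj ρ z'
    let x : Subgroup.center (Im ρ) := ⟨z', hz1⟩
    have hx : orderOf x = p := by
      rw [← hz2]
      exact Subgroup.orderOf_mk z' hz1
    refine ⟨p, a, z, c x, hp, ?_, ?_, ?_, ?_, ?_⟩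
    · rw [← mem_center ρ hI]
      exact ha1
    · rw [← map_pow, pr_one] at ha2
      exact ha2
    · intro y
      have h1 := ha3 (pr ρ y)
      rw [← map_inv, ← map_mul, ← map_mul, ← map_inv, ← map_mul, mem_center ρ hI] at h1
      obtain ⟨d, hd⟩ := h1
      refine ⟨d, fun v => ?_⟩
      rw [← hd (ρ a v), ← Module.End.mul_apply, ← map_mul, inv_mul_cancel_right]
    · have h1 : f x ^ p = 1 := by
        rw [← map_pow, ← hx, pow_orderOf_eq_one, map_one]
      have h2 : f x ≠ 1 := by
        intro h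
        have h3 : x = 1 := hfinj (by rw [h, map_one])
        rw [h3, orderOf_one] at hx
        exact hp.one_lt.ne hx
      have hfact : Fact p.Prime := ⟨hp⟩
      have h3 := orderOf_eq_prime h1 h2
      have h4 := IsPrimitiveRoot.orderOf (f x)
      rw [h3] at h4
      exact h4
    · intro v
      rw [← hc x v]
      show ρ z v = ((z' : (V →ₗ[ℂ] V)ˣ) : V →ₗ[ℂ] V) v
      rw [← hz]
      rfl
  · exfalso
    obtain ⟨c', g', t, n, hn, hord, hcj, hcz, ht, hg⟩ := hB
    obtain ⟨c₁, rfl⟩ := pr_surj ρ c'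
    obtain ⟨g, rfl⟩ := pr_surj ρ g'
    obtain ⟨σ, hσ1, hσ2⟩ := hMCH hSIG hMSG G V ρ c₁ g n t hI hn
      (by rw [← pr_one, map_pow, ← hord, pow_orderOf_eq_one])
      (by
        rw [Ne, ← pr_one, map_pow]
        intro h
        have h1 := orderOf_dvd_of_pow_eq_one h
        rw [hord] at h1
        have h2 := (Nat.pow_dvd_pow_iff_le_right (by norm_num)).1 h1
        omega)
      (fun x => by
        obtain ⟨s, hs⟩ := hcj (pr ρ x)
        refine ⟨s, ?_⟩
        rw [← pr_eq, map_mul, map_mul, map_inv, map_pow]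
        exact hs)
      (fun x hx => by
        rw [← pr_eq, map_mul, map_mul] at hx
        obtain ⟨j, m, u', hm, hum, huc, hxu⟩ := hcz _ hx
        obtain ⟨u, rfl⟩ := pr_surj ρ u'
        refine ⟨j, m, u, hm, ?_, ?_, ?_⟩
        · rw [← pr_one, map_pow]
          exact hum
        · exact (mem_center ρ hI u).1 huc
        · rw [← pr_eq, map_mul, map_pow]
          exact hxu)
      ht
      (by
        rw [← pr_eq, map_mul, map_mul, map_inv, map_pow]
        exact hg)
    have h1 := hN.2 σ hσ1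
    rw [hσ2] at h1
    have h2 := congrArg Complex.im h1
    rw [Complex.neg_im, Complex.I_im] at h2
    norm_num at h2

end StarkC.ABS
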