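import Pool.Agent.ABS.StR1

/-!
# RFX: the field of values of an irreducible character of a group of odd prime power order
-/

open scoped TensorProduct Classical

namespace StarkC.ABS

namespace RFX

variable {G V : Type} [Group G] [Fintype G] [AddCommGroup V] [Module ℂ V]

omit [Fintype G] in
theorem extZ_pow {H : Subgroup G} (ψ : H →* ℂˣ) (g : G) (h : g ∈ H) :
    extZ ψ g = ((ψ ⟨g, h⟩ : ℂˣ) : ℂ) := dif_pos h

/-- The sum of the values of the permutation character. -/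
theorem sum_ne_zero (H : Subgroup G) : ∑ g, indFun H (extZ (1 : H →* ℂˣ)) g ≠ 0 := by
  have h1 : ∀ g : G, indFun H (extZ (1 : H →* ℂˣ)) g =
      (((Finset.univ.filter fun x : G => x⁻¹ * g * x ∈ H).card : ℕ) : ℂ) / (Nat.card H : ℂ) := by
    intro g
    unfold indFun
    congr 1
    rw [Finset.card_filter, Nat.cast_sum]
    refine Finset.sum_congr rfl fun x _ => ?_
    split_ifs with h
    · rw [extZ_pow _ _ h]
      simp
    · simp
  simp only [h1]
  rw [← Finset.sum_div, ← Nat.cast_sum]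
  have h2 : 0 < ∑ g : G, (Finset.univ.filter fun x : G => x⁻¹ * g * x ∈ H).card := by
    refine Finset.sum_pos' (fun _ _ => Nat.zero_le _) ⟨1, Finset.mem_univ _, ?_⟩
    rw [Finset.card_pos]
    exact ⟨1, by simp [H.one_mem]⟩
  have h3 : 0 < Nat.card H := Nat.card_pos
  exact div_ne_zero (Nat.cast_ne_zero.2 h2.ne') (Nat.cast_ne_zero.2 h3.ne')

/-- An irreducible representation whose character has sum different from zero is trivial. -/
theorem trivial_of_sum (ρ : Representation ℂ G V) (hI : Irr ρ)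
    (h : ∑ g, ρ.character g ≠ 0) (g : G) : ρ g = 1 := by
  let W : Submodule ℂ V := ρ.invariants
  have hW : W = ⊥ ∨ W = ⊤ := hI.2 W (fun g v hv => by
    have h1 : ρ g v = v := hv g
    rw [h1]
    exact hv)
  rcases hW with hW | hW
  · exfalso
    apply h
    have h1 : ∑ g, ρ g = 0 := by
      ext v
      have h2 : (∑ g, ρ g) v ∈ W := by
        intro k
        rw [LinearMap.sum_apply, map_sum]
        rw [← Equiv.sum_comp (Equiv.mulLeft k) (fun g => ρ g v)]
        refine Finset.sum_congr rfl fun g _ => ?_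
        rw [Equiv.coe_mulLeft, map_mul]
        rfl
      rw [hW] at h2
      exact (Submodule.mem_bot ℂ).1 h2
    have h3 : ∀ g, ρ.character g = LinearMap.trace ℂ V (ρ g) := fun g => rfl
    simp only [h3]
    rw [← map_sum, h1, map_zero]
  · ext v
    have h1 : v ∈ W := by rw [hW]; trivial
    exact h1 g

/-- A value of maximal order. -/
theorem exists_value {H : Type} [Group H] [Finite H] (ψ : H →* ℂˣ) :
    ∃ h : H, orderOf (ψ h) = orderOf ψ := by
  have : Finite ψ.range := Set.finite_range ψ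
  obtain ⟨⟨z, ⟨h, rfl⟩⟩, hz⟩ := IsCyclic.exists_generator (α := ψ.range)
  refine ⟨h, orderOf_eq_orderOf_iff.2 fun n => ⟨fun h1 => ?_, fun h1 => ?_⟩⟩
  · refine MonoidHom.ext fun x => ?_
    obtain ⟨m, hm⟩ := hz ⟨ψ x, ⟨x, rfl⟩⟩
    have hm' : ψ h ^ m = ψ x := congrArg Subtype.val hm
    rw [MonoidHom.pow_apply, ← hm', ← zpow_natCast, ← zpow_mul, mul_comm, zpow_mul, zpow_natCast,
      h1, one_zpow]
    rfl
  · have := DFunLike.congr_fun h1 h
    exact this

/-- The action of an automorphism which is `z ↦ z ^ t` on the values. -/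
theorem map_indFun (H : Subgroup G) (ψ : H →* ℂˣ) (σ : ℂ ≃+* ℂ) (t : ℕ)
    (h : ∀ x : H, σ ((ψ x : ℂˣ) : ℂ) = ((ψ x : ℂˣ) : ℂ) ^ t) (g : G) :
    σ (indFun H (extZ ψ) g) = indFun H (extZ (ψ ^ t)) g := by
  unfold indFun
  rw [map_div₀, map_natCast, map_sum]
  congr 1
  refine Finset.sum_congr rfl fun x _ => ?_
  split_ifs with hx
  · rw [extZ_pow _ _ hx, extZ_pow _ _ hx, h]
    simp
  · exact map_zero σ

end RFX

open RFX in
theorem RFX_thm : Stmt_RFX := by
  intro hRCY hRGP hREL hRAV hROQ ℓ G V _ _ _ _ _ ρ hℓ hℓ2 hI hL hnt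
  obtain ⟨H, ψ, hχ, ⟨j, hj⟩, hfix⟩ := hROQ hRCY hRGP hREL hRAV ℓ G V ρ hℓ hℓ2 hI hL
  have hj' : orderOf ψ ∣ ℓ ^ j := by
    apply orderOf_dvd_of_pow_eq_one
    exact hj
  obtain ⟨k, -, hk⟩ := (Nat.dvd_prime_pow hℓ).1 hj'
  have hval : ∀ x : H, (((ψ x : ℂˣ) : ℂ)) ^ (ℓ ^ k) = 1 := by
    intro x
    rw [← hk]
    have h1 : (ψ ^ orderOf ψ) x = 1 := by rw [pow_orderOf_eq_one]; rfl
    rw [← Units.val_pow_eq_pow_val, ← Units.val_one]
    exact congrArg Units.val h1
  refine ⟨k, H, ψ, ?_, hk, fun σ => ⟨fun h => ?_, fun h g => ?_⟩, fun σ t h g => ?_⟩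
  · rcases Nat.eq_zero_or_pos k with rfl | hk0
    · exfalso
      rw [pow_zero, orderOf_eq_one_iff] at hk
      subst hk
      refine hnt (trivial_of_sum ρ hI ?_)
      rw [hχ]
      exact sum_ne_zero H
    · exact hk0
  · intro z hz
    have h1 := hfix σ h
    obtain ⟨x, hx⟩ := exists_value ψ
    have h2 : IsPrimitiveRoot ((ψ x : ℂˣ) : ℂ) (ℓ ^ k) := by
      rw [IsPrimitiveRoot.coe_units_iff, ← hk, ← hx]
      exact IsPrimitiveRoot.orderOf _
    have : NeZero (ℓ ^ k) := ⟨(pow_pos hℓ.pos k).ne'⟩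
    obtain ⟨i, -, rfl⟩ := h2.eq_pow_of_pow_eq_one hz
    rw [map_pow, h1]
  · rw [hχ]
    have h1 := map_indFun H ψ σ 1 (fun x => by rw [h _ (hval x), pow_one]) g
    have h2 : ψ ^ 1 = ψ := MonoidHom.ext fun x => pow_one (ψ x)
    rw [h2] at h1
    exact h1
  · rw [hχ]
    exact map_indFun H ψ σ t (fun x => h _ (hval x)) g

end StarkC.ABS
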