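import Pool.Agent.ABS.StN3
import Pool.Agent.ABS.RFX

/-!
# ABS, module MFX: the field of values, 2-groups included
-/

set_option autoImplicit false

open scoped Classical

namespace StarkC.ABS

open RFX in
theorem MFX_thm : Stmt_MFX := by
  intro hNOQ G V _ _ _ _ _ ρ hI hN
  obtain ⟨H, ψ, hχ, hfix⟩ := hNOQ G V ρ hI hN
  have hval : ∀ x : H, (((ψ x : ℂˣ) : ℂ)) ^ (orderOf ψ) = 1 := by
    intro x
    have h1 : (ψ ^ orderOf ψ) x = 1 := by rw [pow_orderOf_eq_one]; rfl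
    rw [← Units.val_pow_eq_pow_val, ← Units.val_one]
    exact congrArg Units.val h1
  have hpos : 0 < orderOf ψ := by
    obtain ⟨x, hx⟩ := exists_value ψ
    rw [← hx, orderOf_pos_iff, isOfFinOrder_iff_pow_eq_one]
    refine ⟨Nat.card H, Nat.card_pos, ?_⟩
    rw [← map_pow, pow_card_eq_one', map_one]
  refine ⟨H, ψ, hpos, hχ, fun σ => ⟨fun h => ?_, fun h g => ?_⟩, fun σ t h g => ?_⟩
  · intro z hz
    have h1 := hfix σ h
    obtain ⟨x, hx⟩ := exists_value ψ
    have h2 : IsPrimitiveRoot ((ψ x : ℂˣ) : ℂ) (orderOf ψ) := by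
      rw [IsPrimitiveRoot.coe_units_iff, ← hx]
      exact IsPrimitiveRoot.orderOf _
    have : NeZero (orderOf ψ) := ⟨hpos.ne'⟩
    obtain ⟨i, -, rfl⟩ := h2.eq_pow_of_pow_eq_one hz
    rw [map_pow, h1]
  · rw [hχ]
    have h1 := map_indFun H ψ σ 1 (fun x => by rw [h _ (hval x), pow_one]) g
    have h2 : ψ ^ 1 = ψ := MonoidHom.ext fun x => pow_one (ψ x)
    rw [h2] at h1
    exact h1
  · rw [hχ]
    exact map_indFun H ψ σ t (fun x => h _ (hval x)) g

end StarkC.ABS
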