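import Pool.Agent.ABS.StN3

/-!
# Part N2, module MGP (helper7): the group lemma for `2`-groups
-/

set_option autoImplicit false

open scoped Classical

namespace StarkC.ABS

open StarkC.MON

namespace MGPx

/-- `k + m w` can be made divisible by `2 ^ n` if `w` is odd. -/
theorem exists_m (w : ℕ) (hw : w % 2 = 1) (k n : ℕ) : ∃ m, 2 ^ n ∣ k + m * w := by
  induction n with
  | zero => exact ⟨0, by simp⟩
  | succ n ih =>
    obtain ⟨m, r, hr⟩ := ih
    rcases Nat.even_or_odd r with ⟨r', hr'⟩ | ⟨r', hr'⟩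
    · refine ⟨m, r', ?_⟩
      rw [hr, hr', pow_succ]
      ring
    · obtain ⟨w', hw'⟩ : ∃ w', w = 2 * w' + 1 := ⟨w / 2, by omega⟩
      refine ⟨m + 2 ^ n, r' + w' + 1, ?_⟩
      have h1 : k + (m + 2 ^ n) * w = (k + m * w) + 2 ^ n * w := by ring
      rw [h1, hr, hr', hw', pow_succ]
      ring

theorem coprime_odd {w : ℕ} (hw : w % 2 = 1) (n : ℕ) : Nat.Coprime (2 ^ n) w := by
  apply Nat.Coprime.pow_left
  rw [Nat.coprime_two_left]
  exact Nat.odd_iff.mpr hw

/-- an element outside of `A` whose square is in `A` -/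
theorem exists_sq {P : Type} [Group P] (hP : IsPGroup 2 P) (A : Subgroup P) (g₀ : P)
    (hg : g₀ ∉ A) : ∃ g : P, g ∉ A ∧ g * g ∈ A := by
  have hex : ∃ k : ℕ, g₀ ^ (2 ^ k) ∈ A := by
    obtain ⟨k, hk⟩ := hP g₀
    exact ⟨k, by rw [hk]; exact A.one_mem⟩
  have h1 := Nat.find_spec hex
  have h2 : Nat.find hex ≠ 0 := by
    intro h0
    rw [h0, pow_zero, pow_one] at h1
    exact hg h1
  obtain ⟨k, hk⟩ : ∃ k, Nat.find hex = k + 1 := ⟨Nat.find hex - 1, by omega⟩
  refine ⟨g₀ ^ (2 ^ k), Nat.find_min hex (by omega), ?_⟩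
  rw [hk] at h1
  rw [← pow_add]
  have h3 : 2 ^ k + 2 ^ k = 2 ^ (k + 1) := by ring
  rw [h3]
  exact h1

variable {P : Type} [Group P]

/-- `x c^j = c^(s j) x` if `x c x⁻¹ = c^s` -/
theorem mv {c x : P} {s : ℕ} (h : x * c * x⁻¹ = c ^ s) (j : ℕ) : x * c ^ j = c ^ (s * j) * x := by
  have h1 : x * c ^ j * x⁻¹ = c ^ (s * j) := by
    rw [← conj_pow, h, ← pow_mul]
  rw [← h1]
  group

/-- the case of a cyclic `A` on which the group acts by powers with exponents `1` modulo `4` -/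
theorem main (hP : IsPGroup 2 P) (A : Subgroup P) (c : P) (n : ℕ)
    (hc : ∀ j, c ^ j = 1 ↔ 2 ^ n ∣ j) (hA : ∀ x, x ∈ A ↔ ∃ j : ℕ, x = c ^ j)
    (hcj : ∀ x, ∃ s : ℕ, x * c * x⁻¹ = c ^ s) (hcen : ∀ x, x * c = c * x → x ∈ A)
    (h1 : ∀ (x : P) (s : ℕ), x * c * x⁻¹ = c ^ s → s % 4 = 1) (g₀ : P) (hg₀ : g₀ ∉ A) :
    ∃ a : P, a ∉ Subgroup.center P ∧ a ^ 2 = 1 ∧
      ∀ g : P, g⁻¹ * a * g * a⁻¹ ∈ Subgroup.center P := by
  obtain ⟨g, hg, hgg⟩ := exists_sq hP A g₀ hg₀
  obtain ⟨s, hs⟩ := hcj g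
  have hs4 := h1 g s hs
  obtain ⟨q, hq⟩ : ∃ q, s = 4 * q + 1 := ⟨s / 4, by omega⟩
  obtain ⟨k, hk⟩ := (hA _).mp hgg
  have hw : (2 * q + 1) % 2 = 1 := by omega
  -- `s ^ 2 = 1`
  have hss : c ^ (s * s) = c := by
    have h2 : g * g * c = c * (g * g) := by
      rw [hk]
      exact (Commute.refl c).pow_left k
    have h3 : g * g * c = c ^ (s * s) * (g * g) := by
      have h4 := mv hs 1
      rw [pow_one, mul_one] at h4
      calc g * g * c = g * (g * c) := mul_assoc _ _ _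
        _ = g * (c ^ s * g) := by rw [h4]
        _ = (g * c ^ s) * g := (mul_assoc _ _ _).symm
        _ = c ^ (s * s) * g * g := by rw [mv hs s]
        _ = c ^ (s * s) * (g * g) := mul_assoc _ _ _
    exact mul_right_cancel (h3.symm.trans h2)
  have hd1 : 2 ^ n ∣ 8 * q := by
    have h2 : c ^ (8 * q * (2 * q + 1)) = 1 := by
      have h3 : s * s = 8 * q * (2 * q + 1) + 1 := by
        rw [hq]
        ring
      rw [h3, pow_succ] at hss
      exact mul_eq_right.mp hss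
    exact (coprime_odd hw n).dvd_of_dvd_mul_right ((hc _).mp h2)
  have hd2 : ¬ 2 ^ n ∣ 4 * q := by
    intro h2
    apply hg
    apply hcen
    have h3 := mv hs 1
    rw [pow_one, mul_one, hq, pow_succ, (hc _).mpr h2, one_mul] at h3
    exact h3
  -- `k` is even
  have hk2 : k % 2 = 0 := by
    by_contra hcon
    apply hd2
    have h2 : g * c ^ k = c ^ k * g := by
      rw [← hk]
      group
    have h3 := (mv hs k).symm.trans h2
    have h4 : c ^ (s * k) = c ^ k := mul_right_cancel h3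
    have h5 : c ^ (4 * q * k) = 1 := by
      have h6 : s * k = 4 * q * k + k := by
        rw [hq]
        ring
      rw [h6, pow_add] at h4
      exact mul_eq_right.mp h4
    exact (coprime_odd (by omega : k % 2 = 1) n).dvd_of_dvd_mul_right ((hc _).mp h5)
  obtain ⟨k', hk'⟩ : ∃ k', k = 2 * k' := ⟨k / 2, by omega⟩
  obtain ⟨m, hm⟩ := exists_m (2 * q + 1) hw k' n
  obtain ⟨x, hx⟩ : ∃ x, x = g * c ^ m := ⟨_, rfl⟩
  have hxc : x * c * x⁻¹ = c ^ s := by
    rw [← hs, hx, mul_assoc g, (Commute.refl c).pow_left m]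
    group
  have hxx : x * x = 1 := by
    have h2 : x * x = c ^ (2 * (k' + m * (2 * q + 1))) := by
      calc x * x = (g * c ^ m) * (g * c ^ m) := by rw [hx]
        _ = c ^ (s * m) * g * (g * c ^ m) := by rw [mv hs m]
        _ = c ^ (s * m) * (g * g) * c ^ m := by simp only [mul_assoc]
        _ = c ^ (s * m) * c ^ k * c ^ m := by rw [hk]
        _ = c ^ (s * m + k + m) := by rw [← pow_add, ← pow_add]
        _ = c ^ (2 * (k' + m * (2 * q + 1))) := by
          congr 1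
          rw [hq, hk']
          ring
    rw [h2, hc]
    exact Dvd.dvd.mul_left hm 2
  have hxA : x ∉ A := by
    intro h2
    apply hg
    have h3 : g = x * (c ^ m)⁻¹ := by
      rw [hx]
      group
    rw [h3]
    exact A.mul_mem h2 (A.inv_mem ((hA _).mpr ⟨m, rfl⟩))
  have hxs : x * c ^ s = c * x := by
    rw [mv hxc s, hss]
  have hxi : x⁻¹ * c = c ^ s * x⁻¹ := by
    have h2 : c ^ s = x⁻¹ * (c * x) := by
      rw [← hxs]
      group
    rw [h2]
    group
  refine ⟨x, ?_, by rw [pow_two]; exact hxx, ?_⟩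
  · intro h2
    apply hxA
    apply hcen
    exact (Subgroup.mem_center_iff.mp h2 c).symm
  · intro h
    obtain ⟨u, hu⟩ := hcj h
    obtain ⟨y, hy⟩ : ∃ y, y = h⁻¹ * x * h := ⟨_, rfl⟩
    have hyc : ∀ j, y * c ^ j = c ^ (s * j) * y := by
      intro j
      have h2 : h * c ^ j = c ^ (u * j) * h := mv hu j
      have h3 : c ^ (s * j) = h⁻¹ * c ^ (s * (u * j)) * h := by
        have h4 : h * c ^ (s * j) = c ^ (u * (s * j)) * h := mv hu (s * j)
        have h5 : s * (u * j) = u * (s * j) := by ring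
        rw [h5, mul_assoc, ← h4]
        group
      calc y * c ^ j = h⁻¹ * x * (h * c ^ j) := by rw [hy]; group
        _ = h⁻¹ * x * (c ^ (u * j) * h) := by rw [h2]
        _ = h⁻¹ * (x * c ^ (u * j)) * h := by simp only [mul_assoc]
        _ = h⁻¹ * (c ^ (s * (u * j)) * x) * h := by rw [mv hxc]
        _ = (h⁻¹ * c ^ (s * (u * j)) * h) * (h⁻¹ * x * h) := by group
        _ = c ^ (s * j) * y := by rw [← h3, ← hy]
    have hec : y * x⁻¹ * c = c * (y * x⁻¹) := by
      calc y * x⁻¹ * c = y * (x⁻¹ * c) := mul_assoc _ _ _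
        _ = y * (c ^ s * x⁻¹) := by rw [hxi]
        _ = y * c ^ s * x⁻¹ := (mul_assoc _ _ _).symm
        _ = c ^ (s * s) * y * x⁻¹ := by rw [hyc]
        _ = c * (y * x⁻¹) := by rw [hss, mul_assoc]
    obtain ⟨j, hj⟩ := (hA _).mp (hcen _ hec)
    have hyx : y = c ^ j * x := by
      rw [← hj]
      group
    have hyy : y * y = 1 := by
      calc y * y = h⁻¹ * (x * x) * h := by rw [hy]; group
        _ = 1 := by rw [hxx]; group
    have hdj : 2 ^ n ∣ 2 * j := by
      have h2 : c ^ (2 * j * (2 * q + 1)) = 1 := by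
        calc c ^ (2 * j * (2 * q + 1)) = c ^ (j + s * j) := by
              congr 1
              rw [hq]
              ring
          _ = c ^ j * c ^ (s * j) := pow_add _ _ _
          _ = c ^ j * c ^ (s * j) * (x * x) := by rw [hxx, mul_one]
          _ = c ^ j * (c ^ (s * j) * x) * x := by simp only [mul_assoc]
          _ = c ^ j * (x * c ^ j) * x := by rw [mv hxc j]
          _ = (c ^ j * x) * (c ^ j * x) := by simp only [mul_assoc]
          _ = 1 := by rw [← hyx, hyy]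
      exact (coprime_odd hw n).dvd_of_dvd_mul_right ((hc _).mp h2)
    rw [← hy, hj, Subgroup.mem_center_iff]
    intro z
    obtain ⟨v, hv⟩ := hcj z
    have hv4 := h1 z v hv
    obtain ⟨v', hv'⟩ : ∃ v', v = 2 * v' + 1 := ⟨v / 2, by omega⟩
    rw [mv hv j]
    congr 1
    have h2 : v * j = 2 * j * v' + j := by
      rw [hv']
      ring
    rw [h2, pow_add, (hc _).mpr (Dvd.dvd.mul_right hdj v'), one_mul]

end MGPx

open MGPx in
/-- MGP: the group lemma for `2`-groups. -/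
theorem MGP_thm : Stmt_MGP := by
  intro hMAB hMAX P _ _ hP hcyc hnab
  have : Fact (Nat.Prime 2) := ⟨Nat.prime_two⟩
  obtain ⟨A, hAn, hAab, hAc⟩ := hMAX P hP.isNilpotent
  by_cases hcA : IsCyclic A
  swap
  · exact Or.inl (hMAB P A hP hcyc hAn hAab hcA)
  obtain ⟨c₀, hc₀⟩ := hcA.exists_generator
  obtain ⟨c, hcc⟩ : ∃ c : P, c = (c₀ : P) := ⟨_, rfl⟩
  have hcA' : c ∈ A := by
    rw [hcc]
    exact c₀.2
  have hA : ∀ x, x ∈ A ↔ ∃ j : ℕ, x = c ^ j := by
    intro x
    constructor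
    · intro hx
      have h1 := (isOfFinOrder_of_finite c₀).mem_powers_iff_mem_zpowers.mpr (hc₀ ⟨x, hx⟩)
      obtain ⟨j, hj⟩ := h1
      refine ⟨j, ?_⟩
      have h2 : ((c₀ ^ j : A) : P) = x := congrArg Subtype.val hj
      rw [← h2, hcc]
      rfl
    · rintro ⟨j, rfl⟩
      exact A.pow_mem hcA' j
  have hcj : ∀ x, ∃ s : ℕ, x * c * x⁻¹ = c ^ s := fun x => (hA _).mp (hAn.conj_mem c hcA' x)
  have hcen : ∀ x, x * c = c * x → x ∈ A := by
    intro x hx
    apply hAc
    intro a ha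
    obtain ⟨j, rfl⟩ := (hA a).mp ha
    exact (Commute.pow_right (show Commute x c from hx) j)
  obtain ⟨n, hn⟩ := IsPGroup.iff_orderOf.mp hP c
  have hc : ∀ j, c ^ j = 1 ↔ 2 ^ n ∣ j := by
    intro j
    rw [← hn, orderOf_dvd_iff_pow_eq_one]
  have hne : ∃ g₀ : P, g₀ ∉ A := by
    by_contra hcon
    push Not at hcon
    exact hnab fun a b => hAab a (hcon a) b (hcon b)
  obtain ⟨g₀, hg₀⟩ := hne
  have hodd : 1 ≤ n → ∀ (x : P) (s : ℕ), x * c * x⁻¹ = c ^ s → s % 2 = 1 := by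
    intro hn1 x s hs
    by_contra hcon
    obtain ⟨s', hs'⟩ : ∃ s', s = 2 * s' := ⟨s / 2, by omega⟩
    obtain ⟨n', hn'⟩ : ∃ n', n = n' + 1 := ⟨n - 1, by omega⟩
    have h1 : (x * c * x⁻¹) ^ (2 ^ n') = 1 := by
      rw [hs, ← pow_mul, hc, hs', hn', pow_succ]
      exact ⟨s', by ring⟩
    rw [conj_pow, conj_eq_one_iff, hc, hn'] at h1
    have h2 := Nat.le_of_dvd (by positivity) h1
    have h3 : 2 ^ n' < 2 ^ (n' + 1) := by
      rw [pow_succ]
      have : 0 < 2 ^ n' := by positivity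
      omega
    omega
  have hn2 : 2 ≤ n := by
    by_contra hcon
    apply hg₀
    apply hcen
    obtain ⟨s, hs⟩ := hcj g₀
    have h1 : c ^ s = c := by
      rcases Nat.eq_zero_or_pos n with h0 | h0
      · have h2 : ∀ j, c ^ j = 1 := fun j => (hc j).mpr (by rw [h0, pow_zero]; exact one_dvd j)
        have h3 := h2 1
        rw [pow_one] at h3
        rw [h2, h3]
      · have h2 := hodd h0 g₀ s hs
        have h3 : n = 1 := by omega
        obtain ⟨s', hs'⟩ : ∃ s', s = 2 * s' + 1 := ⟨s / 2, by omega⟩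
        rw [hs', pow_succ, (hc (2 * s')).mpr (by rw [h3, pow_one]; exact dvd_mul_right 2 s'),
          one_mul]
    rw [h1] at hs
    have h4 : g₀ * c = c * g₀ := by
      calc g₀ * c = (g₀ * c * g₀⁻¹) * g₀ := by group
        _ = c * g₀ := by rw [hs]
    exact h4
  by_cases h3 : ∃ (g : P) (t : ℕ), t % 4 = 3 ∧ g * c * g⁻¹ = c ^ t
  · obtain ⟨g, t, ht, hgt⟩ := h3
    refine Or.inr ⟨c, g, t, n, hn2, hn, fun x => ?_, fun x hx => (hA x).mp (hcen x hx), ht, hgt⟩
    have h4 := hcj x⁻¹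
    rwa [inv_inv] at h4
  · push Not at h3
    refine Or.inl (main hP A c n hc hA hcj hcen (fun x s hs => ?_) g₀ hg₀)
    have h4 := hodd (by omega) x s hs
    have h5 : s % 4 ≠ 3 := fun h => h3 x s h hs
    omega

end StarkC.ABS
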