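import Pool.Agent.ABS.StN3

/-!
# The character of a power (project ABS, module MSG)

If `σ` acts on the `n`-th roots of unity as `z ↦ z ^ t` then `σ (χ g) = χ (g ^ t)`, where `ρ (g ^ n) = 1`.
-/

set_option autoImplicit false

open scoped Classical

namespace StarkC.ABS

namespace MSGx

open Finset

section

variable {V : Type} [AddCommGroup V] [Module ℂ V]

/-- the projection to the eigenspace of `ζ ^ k` -/
noncomputable def pr (n : ℕ) (ζ : ℂ) (f : Module.End ℂ V) (k : ℕ) : Module.End ℂ V :=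
  (n : ℂ)⁻¹ • ∑ j ∈ range n, ((ζ ^ k) ^ j)⁻¹ • f ^ j

theorem mul_pr {n : ℕ} {ζ : ℂ} {f : Module.End ℂ V} (hζ : ζ ^ n = 1) (hf : f ^ n = 1)
    (h0 : ζ ≠ 0) (k : ℕ) : f * pr n ζ f k = ζ ^ k • pr n ζ f k := by
  have hz : ζ ^ k ≠ 0 := pow_ne_zero k h0
  have h1 : ∑ j ∈ range n, ((ζ ^ k) ^ (j + 1))⁻¹ • f ^ (j + 1) =
      ∑ j ∈ range n, ((ζ ^ k) ^ j)⁻¹ • f ^ j := by
    have e1 := sum_range_succ' (fun j => ((ζ ^ k) ^ j)⁻¹ • f ^ j) n
    have e2 := sum_range_succ (fun j => ((ζ ^ k) ^ j)⁻¹ • f ^ j) n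
    have e3 : ((ζ ^ k) ^ n)⁻¹ • f ^ n = ((ζ ^ k) ^ 0)⁻¹ • f ^ 0 := by
      rw [hf, ← pow_mul, mul_comm k n, pow_mul, hζ, one_pow, pow_zero, pow_zero]
    rw [e2, e3] at e1
    exact (add_right_cancel e1).symm
  unfold pr
  rw [mul_smul_comm, smul_comm, mul_sum]
  congr 1
  conv_rhs => rw [← h1]
  rw [smul_sum]
  refine sum_congr rfl fun j _ => ?_
  rw [mul_smul_comm, ← pow_succ', smul_smul, pow_succ (ζ ^ k) j, mul_inv, mul_comm (ζ ^ k),
    mul_assoc, inv_mul_cancel₀ hz, mul_one]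

theorem pow_mul_pr {n : ℕ} {ζ : ℂ} {f : Module.End ℂ V} (hζ : ζ ^ n = 1) (hf : f ^ n = 1)
    (h0 : ζ ≠ 0) (k j : ℕ) : f ^ j * pr n ζ f k = (ζ ^ k) ^ j • pr n ζ f k := by
  induction j with
  | zero => rw [pow_zero, pow_zero, one_mul, one_smul]
  | succ j ih =>
    rw [pow_succ, mul_assoc, mul_pr hζ hf h0, mul_smul_comm, ih, smul_smul, ← pow_succ']

theorem pr_idem {n : ℕ} {ζ : ℂ} {f : Module.End ℂ V} (hn : 0 < n) (hζ : ζ ^ n = 1)
    (hf : f ^ n = 1) (h0 : ζ ≠ 0) (k : ℕ) : pr n ζ f k * pr n ζ f k = pr n ζ f k := by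
  have hn' : (n : ℂ) ≠ 0 := Nat.cast_ne_zero.2 hn.ne'
  have e : pr n ζ f k * pr n ζ f k = (n : ℂ)⁻¹ • ∑ j ∈ range n, pr n ζ f k := by
    conv_lhs => enter [1]; unfold pr
    rw [smul_mul_assoc, sum_mul]
    congr 1
    refine sum_congr rfl fun j _ => ?_
    rw [smul_mul_assoc, pow_mul_pr hζ hf h0, smul_smul,
      inv_mul_cancel₀ (pow_ne_zero j (pow_ne_zero k h0)), one_smul]
  rw [e, sum_const, card_range, ← Nat.cast_smul_eq_nsmul ℂ, smul_smul, inv_mul_cancel₀ hn',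
    one_smul]

theorem sum_pr {n : ℕ} {ζ : ℂ} (f : Module.End ℂ V) (hn : 0 < n) (hζ : IsPrimitiveRoot ζ n) :
    ∑ k ∈ range n, pr n ζ f k = 1 := by
  have hn' : (n : ℂ) ≠ 0 := Nat.cast_ne_zero.2 hn.ne'
  unfold pr
  rw [← smul_sum, sum_comm, sum_eq_single 0]
  · simp only [pow_zero, inv_one, one_smul]
    rw [sum_const, card_range, ← Nat.cast_smul_eq_nsmul ℂ, smul_smul, inv_mul_cancel₀ hn',
      one_smul]
  · intro j hj hj0
    rw [← sum_smul]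
    have h1 : ∑ k ∈ range n, ((ζ ^ k) ^ j)⁻¹ = ∑ k ∈ range n, ((ζ ^ j)⁻¹) ^ k := by
      refine sum_congr rfl fun k _ => ?_
      rw [inv_pow, ← pow_mul, ← pow_mul, mul_comm]
    have h2 : (ζ ^ j)⁻¹ ≠ 1 := by
      intro h
      exact hζ.pow_ne_one_of_pos_of_lt hj0 (mem_range.1 hj) (inv_eq_one.1 h)
    rw [h1, geom_sum_eq h2, inv_pow, ← pow_mul, mul_comm j n, pow_mul, hζ.pow_eq_one, one_pow,
      inv_one, sub_self, zero_div, zero_smul]
  · intro h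
    exact absurd (mem_range.2 hn) h

theorem trace_idem [Module.Finite ℂ V] (p : Module.End ℂ V) (h : p * p = p) :
    ∃ d : ℕ, LinearMap.trace ℂ V p = d :=
  ⟨_, LinearMap.IsProj.trace ((LinearMap.isProj_range_iff_isIdempotentElem p).2 h)⟩

end

end MSGx

open MSGx Finset in
theorem MSG_thm : Stmt_MSG := by
  intro G V _ _ _ _ ρ g n t σ hn hg hσ
  have hf : (ρ g) ^ n = 1 := by rw [← map_pow]; exact hg
  have hζ : IsPrimitiveRoot (Complex.exp (2 * Real.pi * Complex.I / n)) n :=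
    Complex.isPrimitiveRoot_exp n hn.ne'
  generalize Complex.exp (2 * Real.pi * Complex.I / n) = ζ at hζ
  have h0 : ζ ≠ 0 := hζ.ne_zero hn.ne'
  choose d hd using fun k => trace_idem (pr n ζ (ρ g) k) (pr_idem hn hζ.pow_eq_one hf h0 k)
  have key : ∀ s : ℕ, LinearMap.trace ℂ V ((ρ g) ^ s) = ∑ k ∈ range n, (ζ ^ k) ^ s * d k := by
    intro s
    have e : (ρ g) ^ s = ∑ k ∈ range n, (ζ ^ k) ^ s • pr n ζ (ρ g) k := by
      conv_lhs => rw [← mul_one ((ρ g) ^ s), ← sum_pr (ρ g) hn hζ, mul_sum]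
      exact sum_congr rfl fun k _ => pow_mul_pr hζ.pow_eq_one hf h0 k s
    rw [e, map_sum]
    refine sum_congr rfl fun k _ => ?_
    rw [map_smul, hd k, smul_eq_mul]
  have k1 := key 1
  rw [pow_one] at k1
  have e1 : ρ.character g = ∑ k ∈ range n, (ζ ^ k) ^ 1 * d k := k1
  have e2 : ρ.character (g ^ t) = ∑ k ∈ range n, (ζ ^ k) ^ t * d k := by
    rw [← key t, ← map_pow]
    rfl
  rw [e1, e2, map_sum]
  refine sum_congr rfl fun k _ => ?_
  rw [pow_one, map_mul, map_natCast, map_pow, hσ ζ hζ.pow_eq_one, ← pow_mul, ← pow_mul,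
    mul_comm t k]

end StarkC.ABS
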