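import Pool.Agent.ABS.StN2
import Pool.Agent.ABS.RESF
import Pool.Agent.ABS.SYMH

/-!
# Project ABS, part N: the assembly
-/

set_option autoImplicit false

open NumberField IsDedekindDomain
open scoped TensorProduct Classical

namespace StarkC.ABS

open StarkP (rootField charField trChar NormIn AbsIn IsTheta)

namespace NASx

variable {K L : Type} [Field K] [NumberField K] [Field L] [NumberField L] [Algebra K L]
  [IsGalois K L]

/-- from `PE` to the printed form -/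
theorem normIn_of_PE (S : Finset (HeightOneSpectrum (𝓞 K)))
    (Θ : ((L → ℝ) →₀ ℂ) →ₗ[ℂ] ((L → ℝ) →₀ ℂ))
    (φ : XQ L (aboveSet K L S) ≃ₗ[ℚ] QU L (aboveSet K L S))
    (Θ₀ : XC L (aboveSet K L S) →ₗ[ℂ] XC L (aboveSet K L S))
    (hφ : IsPhiTheta K (aboveSet K L S) φ Θ₀)
    (hreg : ∀ (V : Type) [AddCommGroup V] [Module ℂ V] (ρ : Representation ℂ (L ≃ₐ[K] L) V),
      StarkP.Reg (aboveSet K L S) ρ Θ = Reg (aboveSet K L S) ρ Θ₀)
    (χ : (L ≃ₐ[K] L) → ℂ) (E : IntermediateField ℚ ℂ) (h : PE E (trChar χ) S Θ₀) :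
    NormIn E χ (S : Set (HeightOneSpectrum (𝓞 K))) Θ := by
  obtain ⟨F, α, hF, hα, hR⟩ := h
  refine ⟨F, α, ⟨hF.1, hF.2⟩, hα, fun V _ _ _ ρ hρ => ?_⟩
  have h1 := hR V ρ fun g => by rw [hρ]
  have h0 : meromorphicTrailingCoeffAt F 0 ≠ 0 := by
    intro h
    have h2 := StarkG.reg_ne_zero S φ Θ₀ hφ V ρ
    rw [h1, h, mul_zero] at h2
    exact h2 rfl
  rw [show StarkP.Reg (StarkP.aboveSet K L S) ρ Θ = _ from hreg V ρ, h1, mul_div_assoc,
    div_self h0, mul_one]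

/-- the field of values is cyclic if its degree is one or two -/
theorem cyc_of {n : ℕ} (hn : 0 < n) (E : IntermediateField ℚ ℂ) (hE : E ≤ rootField n)
    (h : Module.finrank ℚ E = 1 ∨ Module.finrank ℚ E = 2) : IsCyclic (E ≃ₐ[ℚ] E) := by
  have hG : IsGalois ℚ E := galois_of_le n hn E hE
  have hfd : FiniteDimensional ℚ E :=
    FiniteDimensional.of_finrank_pos (by rcases h with h | h <;> omega)
  have hc := IsGalois.card_aut_eq_finrank ℚ E
  rcases h with h | h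
  · rw [h] at hc
    have : Subsingleton (E ≃ₐ[ℚ] E) := (Nat.card_eq_one_iff_unique.1 hc).1
    infer_instance
  · rw [h] at hc
    have : Fact (Nat.Prime 2) := ⟨Nat.prime_two⟩
    exact isCyclic_of_prime_card hc

end NASx

open NASx in
/-- **NAS**: theorem (N). -/
theorem NAS_thm : Stmt_NAS := by
  intro hNFX hNPR hCFR hSIGT hTRT hTRX hP hNIN hNQF hNRE hFAB K L _ _ _ _ _ _ S Θ hΘ V _ _ _ ρ
    hirr hnil h2c
  obtain ⟨H, ψ, ho, hχ, hfix, hconj⟩ := hNFX (L ≃ₐ[K] L) V ρ (RESFx.irr_of ρ hirr)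
    (hNPR _ V ρ hnil h2c)
  obtain ⟨φ, Θ₀, hφ, hreg⟩ := StarkB.exists_isPhiTheta (K := K) (L := L)
    (S : Set (HeightOneSpectrum (𝓞 K))) S.finite_toSet Θ hΘ
  have hCF : charField ρ.character = Cyc (orderOf ψ) := hCFR _ _ _ hfix
  have htr : ∀ g, trChar ρ.character g =
      ∑ t ∈ Ex (orderOf ψ), indFun H (extZ (ψ ^ t)) g :=
    hTRX hSIGT hTRT _ _ _ (fun t g => indFun H (extZ (ψ ^ t)) g) ho hCF
      fun t _ σ hσ g => hconj σ t hσ g
  have ha : ∀ E : IntermediateField ℚ ℂ, E ≤ charField ρ.character → IsCyclic (E ≃ₐ[ℚ] E) →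
      NormIn E ρ.character (S : Set (HeightOneSpectrum (𝓞 K))) Θ := by
    intro E hE hcyc
    have hE' : E ≤ rootField (orderOf ψ) := by
      rw [hCF] at hE
      exact hE
    refine normIn_of_PE S Θ φ Θ₀ hφ hreg _ E (hP K L S φ Θ₀ (orderOf ψ) E 1 (fun _ => H)
      (fun _ => ψ) (fun _ => 1) _ hφ ho hE' hcyc (fun i => ?_) (fun g => ?_))
    · rw [inf_eq_left.2 hE', one_mul]
    · rw [htr g]
      simp
  refine ⟨ha, fun q hq hCq => ?_, fun h2 => ?_⟩
  · rcases Nat.lt_or_ge q 3 with hq3 | hq3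
    · have hq2 : q = 2 := by
        have := hq.two_le
        omega
      subst hq2
      refine ha _ le_rfl (cyc_of (n := 2) (by norm_num) _ hCq.le (Or.inl ?_))
      rw [hCq, SYMx.rootField_two, IntermediateField.finrank_bot]
    · obtain ⟨ℓ, k, m, hOk, hm, hcop, hord, hqq⟩ := hNQF q (orderOf ψ) hq hq3 ho
        (hCF.symm.trans hCq)
      have hPT : PT (ℓ ^ k) (trChar ρ.character) S Θ₀ :=
        hNIN K L S φ Θ₀ H ψ ℓ k m _ hφ hOk hm hcop hord htr
      refine RESFx.normIn_of S Θ φ Θ₀ hφ hreg (ℓ ^ k) _ hPT _ ?_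
      rw [hCq, hqq]
      rfl
  · have hcyc := cyc_of ho (charField ρ.character) hCF.le (Or.inr h2)
    refine hFAB K L ρ.character (orderOf ψ) 1 S Θ hΘ ho one_pos
      ⟨1, fun _ => H, fun _ => ψ, fun _ => 1, fun _ => pow_orderOf_eq_one ψ, fun g => ?_⟩ h2
      (hNRE _ _ _ ho hCF h2) (ha _ le_rfl hcyc)
    rw [hχ]
    simp

end StarkC.ABS
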