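import Pool.Agent.ABS.StN
import Pool.Agent.ABS.REL

/-!
# ABS_NEL: the element `a` and the scalar `ζ` for nilpotent images
-/

set_option autoImplicit false

open scoped Classical

namespace StarkC.ABS

open StarkC.MON

namespace NELx

open REL

variable {G V : Type} [Group G] [AddCommGroup V] [Module ℂ V]

/-- the image is nilpotent -/
theorem nilp (ρ : Representation ℂ G V) (h : NImg ρ) : Group.IsNilpotent (Im ρ) := by
  obtain ⟨⟨n, hn⟩, -⟩ := h
  rw [Subgroup.nilpotent_iff_lowerCentralSeries]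
  refine ⟨n, ?_⟩
  have h1 := Subgroup.map_lowerCentralSeries (⊤ : Subgroup G) (pr ρ) n
  rw [Subgroup.map_top_of_surjective _ (pr_surj ρ)] at h1
  rw [← h1, eq_bot_iff]
  rintro x ⟨g, hg, rfl⟩
  rw [Subgroup.mem_bot, pr_one]
  exact hn g hg

/-- the elements of `2`-power order of the image commute -/
theorem comm2 [Finite G] (hNLI : Stmt_NLI) (ρ : Representation ℂ G V) (h : NImg ρ)
    (a b : Im ρ) (ha : ∃ j : ℕ, a ^ (2 ^ j) = 1) (hb : ∃ j : ℕ, b ^ (2 ^ j) = 1) :
    a * b = b * a := by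
  obtain ⟨x, rfl, hx⟩ := hNLI G (Im ρ) (pr ρ) a (pr_surj ρ) ha
  obtain ⟨y, rfl, hy⟩ := hNLI G (Im ρ) (pr ρ) b (pr_surj ρ) hb
  rw [← map_mul, ← map_mul, pr_eq]
  exact h.2 x y hx hy

end NELx

open REL NELx in
theorem NEL_thm : Stmt_NEL := by
  intro hNGP hNLI G V _ _ _ _ _ ρ hI hN hns
  have hnt := hI.1
  obtain ⟨v0, hv0⟩ := exists_ne (0 : V)
  have hfin : Finite (Im ρ) := Finite.of_surjective _ (pr_surj ρ)
  have hsc : ∀ x : Subgroup.center (Im ρ), ∃ c : ℂ, ∀ v,
      (((x : Im ρ) : (V →ₗ[ℂ] V)ˣ) : V →ₗ[ℂ] V) v = c • v := by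
    intro x
    obtain ⟨g, hg⟩ := pr_surj ρ (x : Im ρ)
    have h1 : pr ρ g ∈ Subgroup.center (Im ρ) := by
      rw [hg]
      exact x.2
    obtain ⟨c, hc⟩ := (mem_center ρ hI g).1 h1
    refine ⟨c, fun v => ?_⟩
    rw [← hg]
    exact hc v
  choose c hc using hsc
  have hinj : ∀ x y : ℂ, x • v0 = y • v0 → x = y := fun x y hxy => by
    have h2 : (x - y) • v0 = 0 := by rw [sub_smul, hxy, sub_self]
    rcases smul_eq_zero.1 h2 with h3 | h3
    · exact sub_eq_zero.1 h3
    · exact absurd h3 hv0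
  let f : Subgroup.center (Im ρ) →* ℂ :=
    { toFun := c
      map_one' := by
        apply hinj
        rw [← hc, one_smul]
        rfl
      map_mul' := by
        intro x y
        apply hinj
        have h1 : (((x * y : Subgroup.center (Im ρ)) : (V →ₗ[ℂ] V)ˣ) : V →ₗ[ℂ] V) v0 =
            (((x : Im ρ) : (V →ₗ[ℂ] V)ˣ) : V →ₗ[ℂ] V)
              ((((y : Im ρ) : (V →ₗ[ℂ] V)ˣ) : V →ₗ[ℂ] V) v0) := rfl
        rw [← hc, h1, hc y v0, map_smul, hc x v0, smul_smul, mul_comm] }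
  have hfinj : Function.Injective f := by
    intro x y hxy
    apply Subtype.ext
    apply Subtype.ext
    apply Units.ext
    ext v
    rw [hc x v, hc y v]
    exact congrArg (fun z => z • v) hxy
  have hcyc : IsCyclic (Subgroup.center (Im ρ)) := isCyclic_of_injective_ringHom f hfinj
  have hnab : ¬ ∀ a b : Im ρ, a * b = b * a := by
    intro h
    apply hns
    intro g
    rw [← mem_center ρ hI, Subgroup.mem_center_iff]
    intro x
    exact h _ _
  obtain ⟨p, a', z', hp, ha1, ha2, ha3, hz1, hz2⟩ := hNGP (Im ρ) (nilp ρ hN)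
    (fun a b ha hb => comm2 hNLI ρ hN a b ha hb) hcyc hnab
  obtain ⟨a, rfl⟩ := pr_surj ρ a'
  obtain ⟨z, hz⟩ := pr_surj ρ z'
  let x : Subgroup.center (Im ρ) := ⟨z', hz1⟩
  have hx : orderOf x = p := by
    rw [← hz2]
    exact Subgroup.orderOf_mk z' hz1
  refine ⟨p, a, z, c x, hp, ?_, ?_, ?_, ?_, ?_⟩
  · rw [← mem_center ρ hI]
    exact ha1
  · rw [← map_pow, pr_one] at ha2
    exact ha2
  · intro y
    have h1 := ha3 (pr ρ y)
    rw [← map_inv, ← map_mul, ← map_mul, ← map_inv, ← map_mul, mem_center ρ hI] at h1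
    obtain ⟨d, hd⟩ := h1
    refine ⟨d, fun v => ?_⟩
    rw [← hd (ρ a v), ← Module.End.mul_apply, ← map_mul, inv_mul_cancel_right]
  · have h1 : f x ^ p = 1 := by
      rw [← map_pow, ← hx, pow_orderOf_eq_one, map_one]
    have h2 : f x ≠ 1 := by
      intro h
      have h3 : x = 1 := hfinj (by rw [h, map_one])
      rw [h3, orderOf_one] at hx
      exact hp.one_lt.ne hx
    have hfact : Fact p.Prime := ⟨hp⟩
    have h3 := orderOf_eq_prime h1 h2
    have h4 := IsPrimitiveRoot.orderOf (f x)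
    rw [h3] at h4
    exact h4
  · intro v
    rw [← hc x v]
    show ρ z v = ((z' : (V →ₗ[ℂ] V)ˣ) : V →ₗ[ℂ] V) v
    rw [← hz]
    rfl

end StarkC.ABS
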