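import Pool.Agent.ABS.StN2
import Pool.Agent.ABS.PPP

/-!
# ABS, module NIN: transfer to the fixed field of `H`
-/

set_option autoImplicit false

open NumberField IsDedekindDomain
open scoped TensorProduct Classical

namespace StarkC.ABS

theorem NIN_thm : Stmt_NIN := by
  intro hPCX hV K L _ _ _ _ _ _ S φ Θ H ψ ℓ k m θ hφ hOk hm hco hord hθ
  obtain ⟨x, hx, h⟩ := hPCX K L S φ Θ 1 (fun _ => H) (fun _ => orderOf ψ) (fun _ => ψ)
    (fun _ => QN (ℓ ^ k)) hφ (fun i S' => by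
      have h1 := hV (IntermediateField.fixedField H) L (liftChar H ψ) S' ℓ k m hOk hm hco
        (by rw [PPPx.orderOf_lift, hord])
      rw [PPPx.orderOf_lift] at h1
      exact h1)
  obtain ⟨F, hF, hR⟩ := h (fun _ => 1) θ
    (fun g => by rw [hθ, Fin.sum_univ_one, Int.cast_one, one_mul])
  obtain ⟨hx0, α, hα, hxα⟩ := hx 0
  refine ⟨F, α, hF, hα, fun V _ _ _ ρ hρ => ?_⟩
  rw [hR V ρ hρ, Fin.prod_univ_one, zpow_one, hxα]

end StarkC.ABS
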