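import Pool.Agent.ABS.StN

/-!
# NLI: elements of `2`-power order lift
-/

set_option autoImplicit false

namespace StarkC.ABS

theorem NLI_thm : Stmt_NLI := by
  intro G Q _ _ _ f x hf ⟨j, hj⟩
  obtain ⟨g, hg⟩ := hf x
  have hN : orderOf g ≠ 0 := (orderOf_pos g).ne'
  obtain ⟨s, m, hm, hNe⟩ := Nat.exists_eq_two_pow_mul_odd hN
  have hco : Nat.Coprime m (2 ^ j) := (Nat.Coprime.pow_right j (Nat.coprime_two_right.2 hm))
  obtain ⟨k, hk0, hk1⟩ := Nat.chineseRemainder hco 0 1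
  refine ⟨g ^ k, ?_, s, ?_⟩
  · rw [map_pow, hg]
    have h1 : k ≡ 1 [MOD orderOf x] := hk1.of_dvd (orderOf_dvd_of_pow_eq_one hj)
    have := pow_eq_pow_iff_modEq.2 h1
    rw [this, pow_one]
  · rw [← pow_mul]
    apply orderOf_dvd_iff_pow_eq_one.1
    rw [hNe, Nat.mul_comm]
    exact Nat.mul_dvd_mul ((Nat.modEq_zero_iff_dvd).1 hk0) dvd_rfl

end StarkC.ABS
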