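import Pool.Agent.ABS.StR1

/-!
# Project ABS, stage R: module RAV

The eigenspace of an element whose conjugates act by multiples: the representation is induced from
its stabiliser, which acts irreducibly on it.
-/

open scoped Classical

namespace StarkC.ABS.RAV

open StarkC.MON

variable {G : Type} [Group G]
variable {V : Type} [AddCommGroup V] [Module ℂ V]

/-- the projection to an eigenspace -/
noncomputable def Pr (ρ : Representation ℂ G V) (a : G) (l : ℂ) : Module.End ℂ V :=
  (orderOf a : ℂ)⁻¹ • ∑ j ∈ Finset.range (orderOf a), (l⁻¹ • ρ a : Module.End ℂ V) ^ j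

/-- The projection to an eigenspace of `ρ a`. -/
theorem proj_spec [Finite G] (ρ : Representation ℂ G V) (a : G) (l : ℂ) (w : V) (hw0 : w ≠ 0)
    (hw : ρ a w = l • w) :
    (∀ v, ρ a (Pr ρ a l v) = l • Pr ρ a l v) ∧ (∀ v, ρ a v = l • v → Pr ρ a l v = v) ∧
      (∀ v m, m ≠ l → ρ a v = m • v → Pr ρ a l v = 0) := by
  have hN : 0 < orderOf a := orderOf_pos a
  have hlN : l ^ orderOf a = 1 := by
    have h1 := pow_apply_eigen ρ hw (orderOf a)
    rw [pow_orderOf_eq_one, map_one, Module.End.one_apply] at h1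
    have h2 : (l ^ orderOf a - 1) • w = 0 := by
      rw [sub_smul, one_smul, ← h1, sub_self]
    rcases smul_eq_zero.1 h2 with h3 | h3
    · exact sub_eq_zero.1 h3
    · exact absurd h3 hw0
  have hl0 : l ≠ 0 := by
    rintro rfl
    rw [zero_pow hN.ne'] at hlN
    exact zero_ne_one hlN
  have hqN : (l⁻¹ • ρ a : Module.End ℂ V) ^ orderOf a = 1 := by
    rw [smul_pow, ← map_pow, pow_orderOf_eq_one, map_one, inv_pow, hlN, inv_one, one_smul]
  have hNC : ((orderOf a : ℕ) : ℂ) ≠ 0 := by exact_mod_cast hN.ne'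
  unfold Pr
  refine ⟨?_, ?_, ?_⟩
  · intro v
    have h1 := mul_geom_sum (l⁻¹ • ρ a : Module.End ℂ V) (orderOf a)
    rw [hqN, sub_self] at h1
    have h2 := congrArg (fun f : Module.End ℂ V => f v) h1
    simp only [Module.End.mul_apply, LinearMap.sub_apply, Module.End.one_apply,
      LinearMap.zero_apply, LinearMap.smul_apply] at h2
    rw [sub_eq_zero, inv_smul_eq_iff₀ hl0] at h2
    rw [LinearMap.smul_apply, map_smul, h2, smul_comm]
  · intro v hv
    have h1 : ∀ j : ℕ, ((l⁻¹ • ρ a : Module.End ℂ V) ^ j) v = v := by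
      intro j
      induction j with
      | zero => simp
      | succ j ih =>
        rw [pow_succ, Module.End.mul_apply, LinearMap.smul_apply, hv, inv_smul_smul₀ hl0, ih]
    rw [LinearMap.smul_apply, LinearMap.sum_apply, Finset.sum_congr rfl fun j _ => h1 j,
      Finset.sum_const, Finset.card_range, ← Nat.cast_smul_eq_nsmul ℂ, inv_smul_smul₀ hNC]
  · intro v m hm hv
    have h1 := geom_sum_mul (l⁻¹ • ρ a : Module.End ℂ V) (orderOf a)
    rw [hqN, sub_self] at h1
    have h2 := congrArg (fun f : Module.End ℂ V => f v) h1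
    simp only [Module.End.mul_apply, LinearMap.sub_apply, Module.End.one_apply,
      LinearMap.zero_apply, LinearMap.smul_apply] at h2
    rw [hv, smul_smul] at h2
    have h3 : (l⁻¹ * m) • v - v = (l⁻¹ * m - 1) • v := by rw [sub_smul, one_smul]
    rw [h3, map_smul] at h2
    rcases smul_eq_zero.1 h2 with h4 | h4
    · exfalso
      apply hm
      rw [sub_eq_zero, inv_mul_eq_one₀ hl0] at h4
      exact h4.symm
    · rw [LinearMap.smul_apply, h4, smul_zero]

/-- the trace of `ρ h P` -/
theorem tr_proj [Module.Finite ℂ V] (ρ : Representation ℂ G V) (a : G) (l : ℂ) (h : G) :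
    LinearMap.trace ℂ V (ρ h * Pr ρ a l) =
      (∑ j ∈ Finset.range (orderOf a), l⁻¹ ^ j * ρ.character (h * a ^ j)) / (orderOf a : ℂ) := by
  unfold Pr
  rw [mul_smul_comm, map_smul, Finset.mul_sum, map_sum, smul_eq_mul, div_eq_inv_mul]
  congr 1
  refine Finset.sum_congr rfl fun j _ => ?_
  rw [smul_pow, mul_smul_comm, map_smul, ← map_pow, ← map_mul, smul_eq_mul]
  rfl

theorem main [Fintype G] [Module.Finite ℂ V] (ρ : Representation ℂ G V)
    (hnt : Nontrivial V)
    (hirr : ∀ W : Submodule ℂ V, (∀ g, ∀ v ∈ W, ρ g v ∈ W) → W = ⊥ ∨ W = ⊤) (a : G)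
    (ha : ¬ IsScal ρ a)
    (hy' : ∀ y : G, ∃ c : ℂ, ∀ v, ρ (y⁻¹ * a * y) v = c • ρ a v) :
    ∃ (H : Subgroup G) (W : Submodule ℂ V) (hW : ∀ g ∈ H, ∀ v ∈ W, ρ g v ∈ W) (l : ℂ),
      H ≠ ⊤ ∧ ρ.character = indL H (sub ρ H W hW).character ∧ Irr (sub ρ H W hW) ∧
      (∃ v : V, v ≠ 0 ∧ ρ a v = l • v) ∧
      ∀ h : H, (sub ρ H W hW).character h =
        (∑ j ∈ Finset.range (orderOf a), l⁻¹ ^ j * ρ.character ((h : G) * a ^ j)) /
          (orderOf a : ℂ) := by
  have hy : ∀ (y : G) (l : ℂ), ∃ m : ℂ, ∀ v, ρ a v = l • v → ρ (y⁻¹ * a * y) v = m • v := by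
    intro y l
    obtain ⟨c, hc⟩ := hy' y
    exact ⟨c * l, fun v hv => by rw [hc, hv, smul_smul]⟩
  obtain ⟨l, hl⟩ := Module.End.exists_eigenvalue (ρ a)
  obtain ⟨w, hw⟩ := hl.exists_hasEigenvector
  have hw0 : w ≠ 0 := hw.2
  have hwe : ρ a w = l • w := hw.apply_eq_smul
  obtain ⟨hP1, hP2, hP3⟩ := proj_spec ρ a l w hw0 hwe
  obtain ⟨P, hP⟩ : ∃ P, P = Pr ρ a l := ⟨_, rfl⟩
  rw [← hP] at hP1 hP2 hP3
  have hmem : ∀ v, v ∈ Module.End.eigenspace (ρ a) l ↔ ρ a v = l • v := fun v =>
    Module.End.mem_eigenspace_iff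
  generalize Module.End.eigenspace (ρ a) l = W at hmem
  have hWbot : W ≠ ⊥ := by
    intro h
    have : w ∈ W := (hmem w).2 hwe
    rw [h, Submodule.mem_bot] at this
    exact hw0 this
  have hWtop : W ≠ ⊤ := by
    intro h
    apply ha
    refine ⟨l, fun v => ?_⟩
    rw [← hmem, h]
    trivial
  have hPmem : ∀ v, P v ∈ W := fun v => (hmem _).2 (hP1 v)
  have hPid : ∀ v ∈ W, P v = v := fun v hv => hP2 v ((hmem v).1 hv)
  have hout : ∀ y, y ∉ stab ρ W → ∀ v ∈ W, P (ρ y v) = 0 := by
    intro y hyn v hv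
    obtain ⟨m, hm⟩ := hy y l
    have h1 : ∀ u ∈ W, ρ a (ρ y u) = m • ρ y u := by
      intro u hu
      have h2 := hm u ((hmem u).1 hu)
      rw [← map_smul, ← h2, ← Module.End.mul_apply, ← Module.End.mul_apply, ← map_mul, ← map_mul]
      congr 2
      group
    by_cases hml : m = l
    · exfalso
      apply hyn
      rw [mem_stab]
      intro u hu
      rw [hmem, ← hml]
      exact h1 u hu
    · exact hP3 _ m hml (h1 v hv)
  have htr : ∀ y, LinearMap.trace ℂ V (ρ y * P) = if h : y ∈ stab ρ W then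
      (sub ρ (stab ρ W) W (fun g hg => (mem_stab ρ W g).1 hg)).character ⟨y, h⟩ else 0 := by
    intro y
    split_ifs with hyH
    · rw [← LinearMap.trace_restrict_eq_of_forall_mem W (ρ y * P)
        (fun v => (mem_stab ρ W y).1 hyH _ (hPmem v))]
      show _ = LinearMap.trace ℂ W _
      congr 1
      ext v
      show ρ y (P (v : V)) = ρ y (v : V)
      rw [hPid _ v.2]
    · have hPP : P * P = P := by
        ext v
        exact hPid _ (hPmem v)
      rw [← hPP, ← mul_assoc, LinearMap.trace_mul_comm]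
      have h0 : P * (ρ y * P) = 0 := by
        ext v
        exact hout y hyH _ (hPmem v)
      rw [h0, map_zero]
  refine ⟨stab ρ W, W, fun g hg => (mem_stab ρ W g).1 hg, l, ?_, ?_, ?_, ⟨w, hw0, hwe⟩, ?_⟩
  · intro htop
    rcases hirr W (fun g => (mem_stab ρ W g).1 (by rw [htop]; trivial)) with h | h
    · exact hWbot h
    · exact hWtop h
  · -- the averaged projection
    set T : Module.End ℂ V := ∑ x : G, ρ x * P * ρ x⁻¹ with hT
    have hcomm : ∀ g, ρ g * T = T * ρ g := by
      intro g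
      rw [hT, Finset.mul_sum, Finset.sum_mul]
      refine Fintype.sum_equiv (Equiv.mulLeft g) _ _ fun x => ?_
      show ρ g * (ρ x * P * ρ x⁻¹) = ρ (g * x) * P * ρ (g * x)⁻¹ * ρ g
      rw [mul_assoc (ρ (g * x) * P), ← map_mul, mul_inv_rev, inv_mul_cancel_right, map_mul]
      simp only [mul_assoc]
    have hTW : ∀ v ∈ W, T v = (Nat.card (stab ρ W) : ℂ) • v := by
      intro v hv
      rw [hT, LinearMap.sum_apply, ← sum_mem_card]
      refine Finset.sum_congr rfl fun x _ => ?_
      rw [Module.End.mul_apply, Module.End.mul_apply]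
      split_ifs with hx
      · rw [hPid _ ((mem_stab ρ W _).1 ((stab ρ W).inv_mem hx) v hv), ← Module.End.mul_apply,
          ← map_mul, mul_inv_cancel, map_one, Module.End.one_apply]
      · rw [hout x⁻¹ (fun h => hx (by simpa using (stab ρ W).inv_mem h)) v hv, map_zero]
    have hTall : ∀ v, T v = (Nat.card (stab ρ W) : ℂ) • v := by
      have h1 := hirr (LinearMap.ker (T - (Nat.card (stab ρ W) : ℂ) • (1 : Module.End ℂ V))) (by
        intro g v hv
        rw [LinearMap.mem_ker, LinearMap.sub_apply, LinearMap.smul_apply, Module.End.one_apply,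
          sub_eq_zero] at hv ⊢
        rw [← Module.End.mul_apply, ← hcomm, Module.End.mul_apply, hv, map_smul])
      rcases h1 with h1 | h1
      · exfalso
        have h2 : w ∈ LinearMap.ker (T - (Nat.card (stab ρ W) : ℂ) • (1 : Module.End ℂ V)) := by
          rw [LinearMap.mem_ker, LinearMap.sub_apply, LinearMap.smul_apply, Module.End.one_apply,
            sub_eq_zero]
          exact hTW w ((hmem w).2 hwe)
        rw [h1, Submodule.mem_bot] at h2
        exact hw0 h2
      · intro v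
        have h2 : v ∈ LinearMap.ker (T - (Nat.card (stab ρ W) : ℂ) • (1 : Module.End ℂ V)) := by
          rw [h1]
          trivial
        rw [LinearMap.mem_ker, LinearMap.sub_apply, LinearMap.smul_apply, Module.End.one_apply,
            sub_eq_zero] at h2
        exact h2
    funext g
    have hc : (Nat.card (stab ρ W) : ℂ) ≠ 0 := by exact_mod_cast Nat.card_pos.ne'
    rw [indL_apply, eq_div_iff hc]
    have h1 : T * ρ g = (Nat.card (stab ρ W) : ℂ) • ρ g := by
      ext v
      exact hTall _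
    have h2 := congrArg (LinearMap.trace ℂ V) h1
    rw [map_smul, smul_eq_mul] at h2
    show LinearMap.trace ℂ V (ρ g) * _ = _
    rw [mul_comm, ← h2, hT, Finset.sum_mul, map_sum]
    refine Finset.sum_congr rfl fun x _ => ?_
    rw [← htr, mul_assoc (ρ x * P), ← map_mul, LinearMap.trace_mul_comm, ← mul_assoc, ← map_mul]
  · refine ⟨⟨⟨w, (hmem w).2 hwe⟩, 0, fun h => hw0 (congrArg Subtype.val h)⟩, fun U hU => ?_⟩
    by_cases hb : U = ⊥
    · exact Or.inl hb
    right
    obtain ⟨u0, hu0, hu0'⟩ := Submodule.exists_mem_ne_zero_of_ne_bot hb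
    obtain ⟨X, hX⟩ : ∃ X : Submodule ℂ V, X =
      Submodule.span ℂ {z | ∃ (g : G) (u : W), u ∈ U ∧ z = ρ g (u : V)} := ⟨_, rfl⟩
    have hXst : ∀ g, ∀ v ∈ X, ρ g v ∈ X := by
      intro g v hv
      rw [hX] at hv
      induction hv using Submodule.span_induction with
      | mem x hx =>
        obtain ⟨g', u, hu, rfl⟩ := hx
        rw [hX]
        refine Submodule.subset_span ⟨g * g', u, hu, ?_⟩
        rw [map_mul, Module.End.mul_apply]
      | zero =>
        rw [map_zero]
        exact X.zero_mem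
      | add x y _ _ h1 h2 =>
        rw [map_add]
        exact X.add_mem h1 h2
      | smul c x _ h1 =>
        rw [map_smul]
        exact X.smul_mem c h1
    have hXtop : X = ⊤ := (hirr X hXst).resolve_left (by
      intro h
      have h1 : (u0 : V) ∈ X := by
        rw [hX]
        refine Submodule.subset_span ⟨1, u0, hu0, ?_⟩
        rw [map_one, Module.End.one_apply]
      rw [h, Submodule.mem_bot] at h1
      exact hu0' (Subtype.ext h1))
    have hPX : ∀ v ∈ X, ∃ u ∈ U, P v = (u : V) := by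
      intro v hv
      rw [hX] at hv
      induction hv using Submodule.span_induction with
      | mem x hx =>
        obtain ⟨g, u, hu, rfl⟩ := hx
        by_cases hg : g ∈ stab ρ W
        · exact ⟨_, hU ⟨g, hg⟩ u hu, hPid _ ((mem_stab ρ W g).1 hg u u.2)⟩
        · exact ⟨0, U.zero_mem, hout g hg u u.2⟩
      | zero => exact ⟨0, U.zero_mem, by rw [map_zero]; rfl⟩
      | add x y _ _ h1 h2 =>
        obtain ⟨u1, hu1, e1⟩ := h1
        obtain ⟨u2, hu2, e2⟩ := h2
        exact ⟨u1 + u2, U.add_mem hu1 hu2, by rw [map_add, e1, e2]; rfl⟩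
      | smul c x _ h1 =>
        obtain ⟨u1, hu1, e1⟩ := h1
        exact ⟨c • u1, U.smul_mem c hu1, by rw [map_smul, e1]; rfl⟩
    rw [Submodule.eq_top_iff']
    intro u
    obtain ⟨u', hu', e⟩ := hPX u (by rw [hXtop]; trivial)
    rw [hPid _ u.2] at e
    rw [Subtype.ext e]
    exact hu'
  · intro h
    have h1 := htr h
    rw [dif_pos h.2] at h1
    rw [hP, tr_proj] at h1
    exact h1.symm

end StarkC.ABS.RAV

theorem StarkC.ABS.RAV_thm : StarkC.ABS.Stmt_RAV := by
  intro G V _ _ _ _ _ ρ a hirr ha hy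
  exact StarkC.ABS.RAV.main ρ hirr.1 hirr.2 a ha hy
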