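import Pool.Agent.ABS.StR1

/-!
# Project ABS, module ROQ: the induction of Roquette
-/

set_option autoImplicit false

open scoped Classical

namespace StarkC.ABS

open StarkC.MON

namespace ROQ

variable {G V : Type} [Group G] [AddCommGroup V] [Module ℂ V]

theorem char_scal [Module.Finite ℂ V] (ρ : Representation ℂ G V) {z : G} {ζ : ℂ}
    (hz : ∀ v, ρ z v = ζ • v) : ρ.character z = ζ * (Module.finrank ℂ V : ℂ) := by
  show LinearMap.trace ℂ V (ρ z) = _
  have h2 : ρ z = ζ • (1 : Module.End ℂ V) := by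
    ext u
    exact hz u
  rw [h2, map_smul, LinearMap.trace_one, smul_eq_mul]

/-- All elements act as scalars. -/
theorem scal [Fintype G] [Module.Finite ℂ V] {ℓ : ℕ} (ρ : Representation ℂ G V)
    (hirr : Irr ρ) (hL : LImg ℓ ρ) (hsc : ∀ g, IsScal ρ g) :
    ∃ (H : Subgroup G) (ψ : H →* ℂˣ), ρ.character = indFun H (extZ ψ) ∧
      (∃ j : ℕ, ψ ^ (ℓ ^ j) = 1) ∧
      ∀ σ : ℂ ≃+* ℂ, (∀ g, σ (ρ.character g) = ρ.character g) →
        ∀ h, σ ((ψ h : ℂˣ) : ℂ) = ((ψ h : ℂˣ) : ℂ) := by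
  choose c hc using hsc
  have hnt : Nontrivial V := hirr.1
  obtain ⟨v, hv⟩ := exists_ne (0 : V)
  have h1 : Module.finrank ℂ V = 1 := by
    rcases hirr.2 (Submodule.span ℂ {v}) (by
      intro g u hu
      rw [hc]
      exact Submodule.smul_mem _ _ hu) with h | h
    · exfalso
      rw [Submodule.span_singleton_eq_bot] at h
      exact hv h
    · rw [← finrank_top, ← h, finrank_span_singleton hv]
  have hinj : ∀ x y : ℂ, x • v = y • v → x = y := fun x y hxy => by
    have h2 : (x - y) • v = 0 := by rw [sub_smul, hxy, sub_self]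
    rcases smul_eq_zero.1 h2 with h3 | h3
    · exact sub_eq_zero.1 h3
    · exact absurd h3 hv
  let χ : G →* ℂ :=
    { toFun := c
      map_one' := by
        apply hinj
        rw [← hc, map_one, Module.End.one_apply, one_smul]
      map_mul' := by
        intro g h
        apply hinj
        rw [← hc, map_mul, Module.End.mul_apply, hc h, map_smul, hc g, smul_smul, mul_comm] }
  have hchar : ∀ g, ρ.character g = c g := by
    intro g
    rw [char_scal ρ (hc g), h1, Nat.cast_one, mul_one]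
  have hval : ∀ h : (⊤ : Subgroup G),
      (((χ.toHomUnits.comp (Subgroup.subtype ⊤)) h : ℂˣ) : ℂ) = c (h : G) := fun h => rfl
  refine ⟨⊤, χ.toHomUnits.comp (Subgroup.subtype ⊤), ?_, ?_, ?_⟩
  · funext g
    rw [indFun_extZ, hchar]
    have h2 : ∀ x : G, extZ (χ.toHomUnits.comp (Subgroup.subtype ⊤)) (x⁻¹ * g * x) = c g := by
      intro x
      rw [extZ, dif_pos (Subgroup.mem_top _)]
      show χ (x⁻¹ * g * x) = χ g
      rw [map_mul, map_mul, mul_comm (χ x⁻¹), mul_assoc, ← map_mul, inv_mul_cancel, map_one,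
        mul_one]
    rw [Finset.sum_congr rfl fun x _ => h2 x, Finset.sum_const, Finset.card_univ, nsmul_eq_mul,
      Subgroup.card_top, Nat.card_eq_fintype_card]
    have h3 : (Fintype.card G : ℂ) ≠ 0 := by exact_mod_cast Fintype.card_ne_zero
    rw [mul_div_cancel_left₀ _ h3]
  · choose J hJ using hL
    refine ⟨∑ g, J g, ?_⟩
    ext h
    have e1 : (c (h : G)) ^ (ℓ ^ J (h : G)) = 1 := by
      apply hinj
      rw [← pow_apply_eigen ρ (hc (h : G) v) (ℓ ^ J (h : G)), hJ (h : G), Module.End.one_apply,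
        one_smul]
    have hle : J (h : G) ≤ ∑ g, J g :=
      Finset.single_le_sum (f := J) (fun _ _ => Nat.zero_le _) (Finset.mem_univ (h : G))
    obtain ⟨k, hk⟩ := Nat.exists_eq_add_of_le hle
    show (((χ.toHomUnits.comp (Subgroup.subtype ⊤)) h : ℂˣ) : ℂ) ^ (ℓ ^ (∑ g, J g)) = 1
    rw [hval, hk, pow_add, pow_mul, e1, one_pow]
  · intro σ hσ h
    rw [hval, ← hchar]
    exact hσ _

/-- The automorphisms which fix the character of the representation fix the character of the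
eigenspace. -/
theorem fix_sub [Module.Finite ℂ V] {ℓ : ℕ} (ρ : Representation ℂ G V) (hnt : Nontrivial V)
    (hℓ : 0 < ℓ) {a z : G} {ζ l : ℂ} (hal : ρ (a ^ ℓ) = 1) (hζ : IsPrimitiveRoot ζ ℓ)
    (hz : ∀ v, ρ z v = ζ • v) {v : V} (hv : v ≠ 0) (hav : ρ a v = l • v) {H : Type} (θ : H → ℂ)
    (em : H → G)
    (hθ : ∀ h : H, θ h = (∑ j ∈ Finset.range (orderOf a), l⁻¹ ^ j * ρ.character (em h * a ^ j)) /
      (orderOf a : ℂ))
    (σ : ℂ ≃+* ℂ) (hσ : ∀ g, σ (ρ.character g) = ρ.character g) (h : H) : σ (θ h) = θ h := by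
  have hn : (Module.finrank ℂ V : ℂ) ≠ 0 := by
    exact_mod_cast (Module.finrank_pos (R := ℂ) (M := V)).ne'
  have h1 : σ ζ = ζ := by
    have h2 := hσ z
    rw [char_scal ρ hz, map_mul, map_natCast] at h2
    exact mul_right_cancel₀ hn h2
  have h3 : l ^ ℓ = 1 := by
    have h4 := pow_apply_eigen ρ hav ℓ
    rw [hal, Module.End.one_apply] at h4
    have h5 : (l ^ ℓ - 1) • v = 0 := by rw [sub_smul, one_smul, ← h4, sub_self]
    rcases smul_eq_zero.1 h5 with h6 | h6
    · exact sub_eq_zero.1 h6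
    · exact absurd h6 hv
  have h4 : σ l = l := by
    have : NeZero ℓ := ⟨hℓ.ne'⟩
    obtain ⟨i, _, hi⟩ := hζ.eq_pow_of_pow_eq_one h3
    rw [← hi, map_pow, h1]
  rw [hθ h, map_div₀, map_natCast, map_sum]
  congr 1
  refine Finset.sum_congr rfl fun j _ => ?_
  rw [map_mul, map_pow, map_inv₀, h4, hσ]

theorem main (hRCY : Stmt_RCY) (hRGP : Stmt_RGP) (hREL : Stmt_REL) (hRAV : Stmt_RAV) (ℓ : ℕ)
    (hℓ : ℓ.Prime) (hℓ2 : ℓ ≠ 2) (n : ℕ) : ∀ (G V : Type) [Group G] [Fintype G]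
    [AddCommGroup V] [Module ℂ V] [Module.Finite ℂ V] (ρ : Representation ℂ G V),
    Nat.card G ≤ n → Irr ρ → LImg ℓ ρ →
    ∃ (H : Subgroup G) (ψ : H →* ℂˣ), ρ.character = indFun H (extZ ψ) ∧
      (∃ j : ℕ, ψ ^ (ℓ ^ j) = 1) ∧
      ∀ σ : ℂ ≃+* ℂ, (∀ g, σ (ρ.character g) = ρ.character g) →
        ∀ h, σ ((ψ h : ℂˣ) : ℂ) = ((ψ h : ℂˣ) : ℂ) := by
  induction n with
  | zero =>
    intro G V _ _ _ _ _ ρ hG
    have : 0 < Nat.card G := Nat.card_pos
    omega
  | succ n ih =>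
    intro G V _ _ _ _ _ ρ hcard hirr hL
    by_cases hsc : ∀ g, IsScal ρ g
    · exact scal ρ hirr hL hsc
    · obtain ⟨a, z, ζ, ha, hal, hya, hζ, hz⟩ := hREL hRCY hRGP ℓ G V ρ hℓ hℓ2 hirr hL hsc
      obtain ⟨H, W, hW, l, hHt, hchi, hirrW, ⟨v, hv, hav⟩, hθ⟩ := hRAV G V ρ a hirr ha hya
      have h1 : Nat.card H < Nat.card G := by
        refine lt_of_le_of_ne (Subgroup.card_le_card_group H) ?_
        intro h2
        exact hHt (Subgroup.eq_top_of_card_eq H h2)
      have hLW : LImg ℓ (sub ρ H W hW) := by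
        intro g
        obtain ⟨j, hj⟩ := hL (g : G)
        refine ⟨j, ?_⟩
        ext w
        show ρ ((g ^ (ℓ ^ j) : H) : G) (w : V) = (w : V)
        rw [Subgroup.coe_pow, hj, Module.End.one_apply]
      obtain ⟨K, ψ, hK, ⟨j, hj⟩, hfix⟩ := ih H W (sub ρ H W hW) (by omega) hirrW hLW
      refine ⟨K.map H.subtype, tr K ψ, ?_, ⟨j, ?_⟩, ?_⟩
      · rw [hchi, hK, indL_indFun]
      · ext h
        have h2 := DFunLike.congr_fun hj
          ((K.equivMapOfInjective H.subtype H.subtype_injective).symm h)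
        have h3 := congrArg (fun u : ℂˣ => (u : ℂ)) h2
        exact h3
      · intro σ hσ h
        exact hfix σ (fix_sub ρ hirr.1 hℓ.pos hal hζ hz hv hav _ (fun h : H => (h : G)) hθ σ hσ)
          ((K.equivMapOfInjective H.subtype H.subtype_injective).symm h)

end ROQ

/-- **ROQ**: the theorem of Roquette. -/
theorem ROQ_thm : Stmt_ROQ := by
  intro hRCY hRGP hREL hRAV ℓ G V _ _ _ _ _ ρ hℓ hℓ2 hirr hL
  exact ROQ.main hRCY hRGP hREL hRAV ℓ hℓ hℓ2 _ G V ρ le_rfl hirr hL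

end StarkC.ABS
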