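import Pool.Agent.ABS.StN
import Pool.Agent.ABS.RAV
import Pool.Agent.ABS.ROQ

/-!
# Project ABS, part N, module NOQ (helper62): the induction of Roquette for nilpotent images
-/

set_option autoImplicit false

open scoped Classical

namespace StarkC.ABS

open StarkC.MON

namespace NOQx

variable {G V : Type} [Group G] [AddCommGroup V] [Module ℂ V]

/-- All elements act as scalars. -/
theorem scal [Fintype G] [Module.Finite ℂ V] (ρ : Representation ℂ G V)
    (hirr : Irr ρ) (hsc : ∀ g, IsScal ρ g) :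
    ∃ (H : Subgroup G) (ψ : H →* ℂˣ), ρ.character = indFun H (extZ ψ) ∧
      ∀ σ : ℂ ≃+* ℂ, (∀ g, σ (ρ.character g) = ρ.character g) →
        ∀ h, σ ((ψ h : ℂˣ) : ℂ) = ((ψ h : ℂˣ) : ℂ) := by
  choose c hc using hsc
  have hnt : Nontrivial V := hirr.1
  obtain ⟨v, hv⟩ := exists_ne (0 : V)
  have h1 : Module.finrank ℂ V = 1 := by
    rcases hirr.2 (Submodule.span ℂ {v}) (by
      intro g u hu
      rw [hc]
      exact Submodule.smul_mem _ _ hu) with h | h
    · exfalso
      rw [Submodule.span_singleton_eq_bot] at h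
      exact hv h
    · rw [← finrank_top, ← h, finrank_span_singleton hv]
  have hinj : ∀ x y : ℂ, x • v = y • v → x = y := fun x y hxy => by
    have h2 : (x - y) • v = 0 := by rw [sub_smul, hxy, sub_self]
    rcases smul_eq_zero.1 h2 with h3 | h3
    · exact sub_eq_zero.1 h3
    · exact absurd h3 hv
  let χ : G →* ℂ :=
    { toFun := c
      map_one' := by
        apply hinj
        rw [← hc, map_one, Module.End.one_apply, one_smul]
      map_mul' := by
        intro g h
        apply hinj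
        rw [← hc, map_mul, Module.End.mul_apply, hc h, map_smul, hc g, smul_smul, mul_comm] }
  have hchar : ∀ g, ρ.character g = c g := by
    intro g
    rw [ROQ.char_scal ρ (hc g), h1, Nat.cast_one, mul_one]
  have hval : ∀ h : (⊤ : Subgroup G),
      (((χ.toHomUnits.comp (Subgroup.subtype ⊤)) h : ℂˣ) : ℂ) = c (h : G) := fun h => rfl
  refine ⟨⊤, χ.toHomUnits.comp (Subgroup.subtype ⊤), ?_, ?_⟩
  · funext g
    rw [indFun_extZ, hchar]
    have h2 : ∀ x : G, extZ (χ.toHomUnits.comp (Subgroup.subtype ⊤)) (x⁻¹ * g * x) = c g := by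
      intro x
      rw [extZ, dif_pos (Subgroup.mem_top _)]
      show χ (x⁻¹ * g * x) = χ g
      rw [map_mul, map_mul, mul_comm (χ x⁻¹), mul_assoc, ← map_mul, inv_mul_cancel, map_one,
        mul_one]
    rw [Finset.sum_congr rfl fun x _ => h2 x, Finset.sum_const, Finset.card_univ, nsmul_eq_mul,
      Subgroup.card_top, Nat.card_eq_fintype_card]
    have h3 : (Fintype.card G : ℂ) ≠ 0 := by exact_mod_cast Fintype.card_ne_zero
    rw [mul_div_cancel_left₀ _ h3]
  · intro σ hσ h
    rw [hval, ← hchar]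
    exact hσ _

theorem main (hRAV : Stmt_RAV) (hNGP : Stmt_NGP) (hNLI : Stmt_NLI) (hNEL : Stmt_NEL)
    (hNSU : Stmt_NSU) (n : ℕ) : ∀ (G V : Type) [Group G] [Fintype G]
    [AddCommGroup V] [Module ℂ V] [Module.Finite ℂ V] (ρ : Representation ℂ G V),
    Nat.card G ≤ n → Irr ρ → NImg ρ →
    ∃ (H : Subgroup G) (ψ : H →* ℂˣ), ρ.character = indFun H (extZ ψ) ∧
      ∀ σ : ℂ ≃+* ℂ, (∀ g, σ (ρ.character g) = ρ.character g) →
        ∀ h, σ ((ψ h : ℂˣ) : ℂ) = ((ψ h : ℂˣ) : ℂ) := by
  induction n with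
  | zero =>
    intro G V _ _ _ _ _ ρ hG
    have : 0 < Nat.card G := Nat.card_pos
    omega
  | succ n ih =>
    intro G V _ _ _ _ _ ρ hcard hirr hN
    by_cases hsc : ∀ g, IsScal ρ g
    · exact scal ρ hirr hsc
    · obtain ⟨p, a, z, ζ, hp, ha, hap, hya, hζ, hz⟩ := hNEL hNGP hNLI G V ρ hirr hN hsc
      obtain ⟨H, W, hW, l, hHt, hchi, hirrW, ⟨v, hv, hav⟩, hθ⟩ := hRAV G V ρ a hirr ha hya
      have h1 : Nat.card H < Nat.card G := by
        refine lt_of_le_of_ne (Subgroup.card_le_card_group H) ?_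
        intro h2
        exact hHt (Subgroup.eq_top_of_card_eq H h2)
      obtain ⟨K, ψ, hK, hfix⟩ := ih H W (sub ρ H W hW) (by omega) hirrW
        (hNSU G V ρ H W hW hN)
      refine ⟨K.map H.subtype, tr K ψ, ?_, ?_⟩
      · rw [hchi, hK, indL_indFun]
      · intro σ hσ h
        exact hfix σ (ROQ.fix_sub ρ hirr.1 hp.pos hap hζ hz hv hav _ (fun h : H => (h : G)) hθ
          σ hσ) ((K.equivMapOfInjective H.subtype H.subtype_injective).symm h)

end NOQx

/-- **NOQ**: the theorem of Roquette for nilpotent images. -/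
theorem NOQ_thm : Stmt_NOQ := by
  intro hNEL hNSU hNGP hNLI G V _ _ _ _ _ ρ hirr hN
  exact NOQx.main RAV_thm hNGP hNLI hNEL hNSU _ G V ρ le_rfl hirr hN

end StarkC.ABS
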