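import Pool.Agent.ABS.StN

/-!
# Project ABS, part N, module NPR (helper28): nilpotent images, the printed form
-/

set_option autoImplicit false

open scoped Classical

namespace StarkC.ABS

theorem NPR_thm : Stmt_NPR := by
  intro G V _ _ _ ρ hnil h2
  refine ⟨?_, h2⟩
  obtain ⟨n, hn⟩ := Subgroup.nilpotent_iff_lowerCentralSeries.1 hnil
  refine ⟨n, fun g hg => ?_⟩
  have h1 : QuotientGroup.mk' (MonoidHom.ker ρ) g ∈
      ((⊤ : Subgroup G).lowerCentralSeries n).map (QuotientGroup.mk' (MonoidHom.ker ρ)) :=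
    Subgroup.mem_map_of_mem _ hg
  rw [Subgroup.map_lowerCentralSeries, Subgroup.map_top_of_surjective _
    (QuotientGroup.mk'_surjective _), hn, Subgroup.mem_bot] at h1
  exact (QuotientGroup.eq_one_iff g).1 h1

end StarkC.ABS
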