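import Pool.Agent.ABS.StN2

/-!
# Project ABS, module NQF: which cyclotomic fields are equal to `ℚ(ζ_q)`
-/

set_option autoImplicit false

namespace StarkC.ABS

namespace NQFx

open StarkP (rootField)

lemma root_mem {n : ℕ} {z : ℂ} (hz : z ^ n = 1) : z ∈ rootField n :=
  IntermediateField.subset_adjoin ℚ _ hz

lemma finrank_root (n : ℕ) (hn : 0 < n) : Module.finrank ℚ (rootField n) = n.totient := by
  have h := IntermediateField.isCyclotomicExtension_adjoin_of_exists_isPrimitiveRoot {n} ℚ ℂ (by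
    intro m hm hm0
    exact ⟨_, Complex.isPrimitiveRoot_exp m hm0⟩)
  have e : {b : ℂ | ∃ m ∈ ({n} : Set ℕ), m ≠ 0 ∧ b ^ m = 1} = {z : ℂ | z ^ n = 1} := by
    ext z
    simp [hn.ne']
  rw [e] at h
  have h' : IsCyclotomicExtension {n} ℚ (rootField n) := h
  have : NeZero n := ⟨hn.ne'⟩
  exact IsCyclotomicExtension.finrank (rootField n) (Polynomial.cyclotomic.irreducible_rat hn)

lemma root_le {n N : ℕ} (h : n ∣ N) : rootField n ≤ rootField N := by
  refine IntermediateField.adjoin_le_iff.2 fun z hz => ?_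
  have hz1 : z ^ n = 1 := hz
  obtain ⟨j, rfl⟩ := h
  refine root_mem ?_
  rw [pow_mul, hz1, one_pow]

/-- equal fields have the field of the least common multiple -/
lemma root_lcm {o q : ℕ} (ho : 0 < o) (hq : 0 < q) (h : rootField o = rootField q) :
    rootField (o.lcm q) = rootField q := by
  refine le_antisymm ?_ (root_le (Nat.dvd_lcm_right o q))
  have h1 := Complex.isPrimitiveRoot_exp o ho.ne'
  have h2 := Complex.isPrimitiveRoot_exp q hq.ne'
  have h3 := h1.pow_mul_pow_lcm h2 ho.ne' hq.ne'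
  have m1 := root_mem h1.pow_eq_one
  have m2 := root_mem h2.pow_eq_one
  rw [h] at m1
  have m3 := mul_mem (pow_mem m1 (o / Nat.factorizationLCMLeft o q))
    (pow_mem m2 (q / Nat.factorizationLCMRight o q))
  have hl : 0 < o.lcm q := Nat.lcm_pos ho hq
  have : NeZero (o.lcm q) := ⟨hl.ne'⟩
  refine IntermediateField.adjoin_le_iff.2 fun z hz => ?_
  have hz1 : z ^ (o.lcm q) = 1 := hz
  obtain ⟨j, _, rfl⟩ := h3.eq_pow_of_pow_eq_one hz1
  exact pow_mem m3 j

/-- a proper multiple of a prime power `ℓ ^ k` by powers of `ℓ` has a larger totient -/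
lemma tot_lt {ℓ a k : ℕ} (hℓ : ℓ.Prime) (hak : a < k) (hk : 3 ≤ ℓ ^ k) :
    (ℓ ^ a).totient < (ℓ ^ k).totient := by
  rcases Nat.eq_zero_or_pos a with rfl | ha
  · rw [pow_zero, Nat.totient_one]
    by_contra hcon
    have h1 : 0 < (ℓ ^ k).totient := Nat.totient_pos.2 (by omega)
    have h2 : (ℓ ^ k).totient = 1 := by omega
    rcases Nat.totient_eq_one_iff.1 h2 with h3 | h3 <;> omega
  · rw [Nat.totient_prime_pow hℓ ha, Nat.totient_prime_pow hℓ (by omega)]
    have h1 : 0 < ℓ - 1 := by have := hℓ.two_le; omega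
    refine Nat.mul_lt_mul_of_pos_right ?_ h1
    exact Nat.pow_lt_pow_right hℓ.one_lt (by omega)

end NQFx

open NQFx in
theorem NQF_thm : Stmt_NQF := by
  intro q o hq hq3 ho h
  obtain ⟨ℓ, k, hℓ, hk, rfl⟩ := hq
  rw [← Nat.prime_iff] at hℓ
  have hq0 : 0 < ℓ ^ k := by omega
  -- the numbers `φ`
  have e1 : o.totient = (ℓ ^ k).totient := by
    rw [← finrank_root o ho, ← finrank_root _ hq0, h]
  have e2 : (o.lcm (ℓ ^ k)).totient = (ℓ ^ k).totient := by
    rw [← finrank_root _ (Nat.lcm_pos ho hq0), ← finrank_root _ hq0, root_lcm ho hq0 h]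
  obtain ⟨a, b, hb, rfl⟩ := Nat.exists_eq_pow_mul_and_not_dvd ho.ne' ℓ hℓ.ne_one
  have hb0 : 0 < b := Nat.pos_of_ne_zero (by rintro rfl; simp at ho)
  have hcop : ∀ j : ℕ, (ℓ ^ j).Coprime b := fun j =>
    Nat.Coprime.pow_left j ((Nat.Prime.coprime_iff_not_dvd hℓ).2 hb)
  rw [Nat.totient_mul (hcop a)] at e1
  have hak : a = k := by
    rcases Nat.lt_trichotomy a k with hlt | heq | hgt
    · exfalso
      have h1 : (ℓ ^ a * b).lcm (ℓ ^ k) = ℓ ^ k * b := by
        refine Nat.dvd_antisymm ?_ ?_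
        · refine Nat.lcm_dvd (Nat.mul_dvd_mul_right (pow_dvd_pow ℓ hlt.le) b) (dvd_mul_right _ _)
        · refine Nat.Coprime.mul_dvd_of_dvd_of_dvd (hcop k) (Nat.dvd_lcm_right _ _) ?_
          exact (dvd_mul_left b (ℓ ^ a)).trans (Nat.dvd_lcm_left _ _)
      rw [h1, Nat.totient_mul (hcop k)] at e2
      have h2 := tot_lt hℓ hlt hq3
      have h3 : 0 < (ℓ ^ k).totient := Nat.totient_pos.2 hq0
      have h4 : b.totient = 1 := Nat.eq_of_mul_eq_mul_left h3 (by rw [e2, mul_one])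
      rw [h4, mul_one] at e1
      omega
    · exact heq
    · exfalso
      have h2 := tot_lt hℓ hgt (hq3.trans (Nat.pow_le_pow_right hℓ.pos hgt.le))
      have h3 : 0 < b.totient := Nat.totient_pos.2 hb0
      have h4 : (ℓ ^ a).totient ≤ (ℓ ^ a).totient * b.totient := Nat.le_mul_of_pos_right _ h3
      omega
  subst hak
  exact ⟨ℓ, a, b, ⟨hℓ, hk, by omega⟩, hb0, hcop a, rfl, rfl⟩

end StarkC.ABS
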