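import Pool.Agent.ABS.StN

/-!
# ABS_NSU: the hypothesis `NImg` passes to subgroups and stable subspaces (MP_46b841_nt, part N)
-/

set_option autoImplicit false

open scoped Classical

namespace StarkC.ABS

open StarkC.MON

theorem NSU_thm : Stmt_NSU := by
  intro G V _ _ _ ρ H W hW h
  obtain ⟨⟨n, hn⟩, h2⟩ := h
  refine ⟨⟨n, fun g hg => ?_⟩, fun a b ha hb => ?_⟩
  · have h1 : (g : G) ∈ (⊤ : Subgroup G).lowerCentralSeries n := by
      have h3 : (g : G) ∈ ((⊤ : Subgroup H).lowerCentralSeries n).map H.subtype :=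
        Subgroup.mem_map_of_mem H.subtype hg
      rw [Subgroup.top_subtype_lowerCentralSeries] at h3
      exact Subgroup.lowerCentralSeries_mono n le_top h3
    refine LinearMap.ext fun v => Subtype.ext ?_
    change ρ (g : G) (v : V) = (v : V)
    rw [hn _ h1]
    rfl
  · obtain ⟨i, hi⟩ := ha
    obtain ⟨j, hj⟩ := hb
    have h3 : (a : G) ^ (2 ^ i) = 1 := by
      rw [← Subgroup.coe_pow, hi, Subgroup.coe_one]
    have h4 : (b : G) ^ (2 ^ j) = 1 := by
      rw [← Subgroup.coe_pow, hj, Subgroup.coe_one]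
    have h1 := h2 (a : G) (b : G) ⟨i, h3⟩ ⟨j, h4⟩
    refine LinearMap.ext fun v => Subtype.ext ?_
    change ρ ((a * b : H) : G) (v : V) = ρ ((b * a : H) : G) (v : V)
    rw [Subgroup.coe_mul, Subgroup.coe_mul, h1]

end StarkC.ABS
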