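import Pool.Agent.ABS.StN2
import Pool.Agent.ABS.RESF

/-!
# Project ABS, module NVQ: values for linear characters of order `q m`
-/

set_option autoImplicit false

open NumberField IsDedekindDomain
open scoped TensorProduct Classical

namespace StarkC.ABS

open StarkP (rootField charField trChar NormIn AbsIn IsTheta)

namespace NVQx

theorem finDim (n : ℕ) (hn : 0 < n) : FiniteDimensional ℚ (Cyc n) := by
  have h1 : Finite {z : ℂ | z ^ n = 1} := by
    have h3 : {z : ℂ | z ^ n = 1} = ((Polynomial.nthRootsFinset n (1 : ℂ) : Finset ℂ) : Set ℂ) := by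
      ext z
      rw [Set.mem_ofPred_eq, Finset.mem_coe, Polynomial.mem_nthRootsFinset hn]
    rw [h3]
    exact (Finset.finite_toSet _).to_subtype
  refine IntermediateField.finiteDimensional_adjoin fun z hz => ?_
  refine ⟨Polynomial.X ^ n - Polynomial.C 1, Polynomial.monic_X_pow_sub_C 1 hn.ne', ?_⟩
  have hz' : z ^ n = 1 := hz
  simp [hz']

theorem nm_ne (n : ℕ) (hn : 0 < n) (α : Cyc n) (hα : α ≠ 0) : nm n α ≠ 0 := by
  have := finDim n hn
  have h : Algebra.norm ℚ α ≠ 0 := Algebra.norm_ne_zero_iff.2 hα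
  unfold nm
  exact_mod_cast h

end NVQx

/-- **NVQ**: values for linear characters of order `q m`. -/
theorem NVQ_thm : Stmt_NVQ := by
  intro hN K L _ _ _ _ _ _ ψ S ℓ k m hOk hm hc ho φ Θ hφ
  obtain ⟨F, α, hF, hα, hreg⟩ := hN K L ℓ k m ψ S φ Θ hOk hm hc ho hφ
  rw [ho]
  exact ⟨F, nm (ℓ ^ k) α, hF, NVQx.nm_ne (ℓ ^ k) (by have := hOk.2.2; omega) α hα, ⟨α, hα, rfl⟩,
    RESFx.creg_of (ℓ ^ k * m) ψ S φ Θ hφ _ hreg⟩

end StarkC.ABS
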