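import Pool.Agent.ABS.FINU
import Pool.Agent.ABS.FINV
import Pool.Agent.ABS.FINP
import Pool.Agent.ABS.GTR
import Pool.Agent.ABS.NAS
import Pool.Agent.ABS.NVQ
import Pool.Agent.ABS.NIN
import Pool.Agent.ABS.NQF
import Pool.Agent.ABS.NRE
import Pool.Agent.ABS.NFX
import Pool.Agent.ABS.NOQ
import Pool.Agent.ABS.NEL
import Pool.Agent.ABS.NSU
import Pool.Agent.ABS.NGP
import Pool.Agent.ABS.NLI
import Pool.Agent.ABS.NPR
import Pool.Agent.ABS.MFX
import Pool.Agent.ABS.MOQ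
import Pool.Agent.ABS.MEL
import Pool.Agent.ABS.MCH
import Pool.Agent.ABS.MSG
import Pool.Agent.ABS.MAB
import Pool.Agent.ABS.MAX
import Pool.Agent.ABS.MGP

/-!
# Project ABS: the theorem for all characters, printed form (assembly)
-/

set_option autoImplicit false

open NumberField IsDedekindDomain
open scoped TensorProduct Classical

namespace StarkC.ABS

open FINUx

namespace FINZx

/-- The trace of `ℚ(ζ_n)/ℚ` of the values of an integral combination of monomial characters. -/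
theorem trC_root {G : Type} [Group G] [Fintype G] (n : ℕ) (χ : G → ℂ) (E : IntermediateField ℚ ℂ)
    (hn : 0 < n) (hM : MonC n χ) (hE : E ≤ StarkP.rootField n) :
    TrC E (StarkP.trRoot n χ) := by
  obtain ⟨r, H, ψ, c, hψn, hχ⟩ := hM
  have hod : ∀ i, orderOf (ψ i) ∣ n := fun i => orderOf_dvd_of_pow_eq_one (hψn i)
  refine ⟨r, H, ψ, fun i => c i * ((n.totient / (orderOf (ψ i)).totient : ℕ) : ℤ),
    fun i => ?_, fun g => ?_⟩
  · have h1 := UDV_thm n (orderOf (ψ i)) E hn (hod i) hE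
    have h2 : (Module.finrank ℚ E : ℤ) ∣ (((n.totient / (orderOf (ψ i)).totient) *
        Module.finrank ℚ (E ⊓ StarkP.rootField (orderOf (ψ i)) : IntermediateField ℚ ℂ) : ℕ) : ℤ) :=
      Int.natCast_dvd_natCast.2 h1
    rw [Nat.cast_mul] at h2
    rw [mul_assoc]
    exact h2.mul_left _
  · rw [(UTR_thm SIGT_thm TRT_thm G n r χ H ψ c hn hψn hχ g).2]
    refine Finset.sum_congr rfl fun i _ => ?_
    rw [UEX_thm n (orderOf (ψ i)) (fun t => indFun (H i) (extZ (ψ i ^ t)) g) hn (hod i)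
      fun t => by rw [pow_mod_orderOf]]
    rw [Int.cast_mul, Int.cast_natCast, mul_assoc]

end FINZx

open FINZx

section

variable (K L : Type) [Field K] [NumberField K] [Field L] [NumberField L] [Algebra K L]
  [IsGalois K L] (S : Finset (HeightOneSpectrum (𝓞 K)))
  (Θ : ((L → ℝ) →₀ ℂ) →ₗ[ℂ] ((L → ℝ) →₀ ℂ))
  (hΘ : StarkP.IsTheta K (StarkP.aboveSet K L S) Θ)

include hΘ

/-- Theorem (P) for a function `θ`. -/
theorem finZ_trC (N : ℕ) (E : IntermediateField ℚ ℂ) (θ : (L ≃ₐ[K] L) → ℂ) (hN : 0 < N)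
    (hE : E ≤ StarkP.rootField N) (hc : IsCyclic (E ≃ₐ[ℚ] E)) (h : TrC E θ) :
    StarkP.NormOf E θ (S : Set (HeightOneSpectrum (𝓞 K))) Θ := by
  obtain ⟨φ, Θ₀, hφ, hreg⟩ := StarkB.exists_isPhiTheta (K := K) (L := L)
    (S : Set (HeightOneSpectrum (𝓞 K))) S.finite_toSet Θ hΘ
  obtain ⟨r, H, ψ, c, hdvd, hθ⟩ := h
  exact UASx.normOf_of S Θ φ Θ₀ hφ hreg E _
    (finalP K L S φ Θ₀ N E r H ψ c θ hφ hN hE hc hdvd hθ)

/-- Theorem (U). -/
theorem finZ_U (V : Type) [AddCommGroup V] [Module ℂ V] [Module.Finite ℂ V]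
    (ρ : Representation ℂ (L ≃ₐ[K] L) V) (n : ℕ) (E : IntermediateField ℚ ℂ) (hn : 0 < n)
    (hρ : ∀ g, ρ g ^ n = 1) (hE : E ≤ StarkP.rootField n) (hc : IsCyclic (E ≃ₐ[ℚ] E)) :
    StarkP.NormOf E (StarkP.trRoot n ρ.character) (S : Set (HeightOneSpectrum (𝓞 K))) Θ :=
  finZ_trC K L S Θ hΘ n E _ hn hE hc (trC_root n _ E hn (monC_all ρ n hρ) hE)

/-- Theorem (A). -/
theorem finZ_A (V : Type) [AddCommGroup V] [Module ℂ V] [Module.Finite ℂ V]
    (ρ : Representation ℂ (L ≃ₐ[K] L) V) (n : ℕ) (E : IntermediateField ℚ ℂ) (hn : 0 < n)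
    (hρ : ∀ g, ρ g ^ n = 1) (hE : E ≤ StarkP.charField ρ.character)
    (hc : IsCyclic (E ≃ₐ[ℚ] E)) (D : ℕ) (hD : D = Nat.gcd (Nat.card (Set.range ρ))
      (n.totient / Module.finrank ℚ (StarkP.charField ρ.character))) :
    StarkP.NormIn E (fun g => (D : ℂ) * ρ.character g)
      (S : Set (HeightOneSpectrum (𝓞 K))) Θ ∧
    (StarkP.MonComb 1 (StarkP.trChar ρ.character) → D.Coprime (Module.finrank ℚ E) →
      StarkP.NormIn E ρ.character (S : Set (HeightOneSpectrum (𝓞 K))) Θ) := by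
  subst hD
  obtain ⟨h1, h2⟩ := finalA S Θ hΘ V ρ n hn hρ E hE hc
  exact ⟨h1, fun hP hD => h2 ((GTRx.perm_iff _).1 hP) hD⟩

/-- Theorem (G*). -/
theorem finZ_W (χ : (L ≃ₐ[K] L) → ℂ) (n m : ℕ) (E : IntermediateField ℚ ℂ) (hn : 0 < n)
    (hm : 0 < m) (hP : StarkP.MonComb 1 (StarkP.trChar χ))
    (hM : StarkP.MonComb n fun g => (m : ℂ) * χ g) (hE : E ≤ StarkP.charField χ)
    (hc : IsCyclic (E ≃ₐ[ℚ] E))
    (hσ : ∀ σ : ℂ ≃+* ℂ, (∀ z : ℂ, z ^ n = 1 →
      (σ ^ (m * (n.totient / Module.finrank ℚ (StarkP.charField χ)))) z = z) →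
        ∀ x ∈ E, σ x = x) :
    StarkP.NormIn E χ (S : Set (HeightOneSpectrum (𝓞 K))) Θ := by
  have hM' : MonC n fun g => (m : ℂ) * χ g := (GTRx.mon_iff n _).1 hM
  have hle : StarkP.charField χ ≤ StarkP.rootField n := by
    obtain ⟨r, H, ψ, c, hψ, hc⟩ := hM'
    exact (FCH_thm SIGT_thm TRT_thm (L ≃ₐ[K] L) n m r χ H ψ c hn hm hψ hc).1
  exact FINVx.crit K L χ n m E S Θ hΘ hn hm ((GTRx.perm_iff _).1 hP) hM' (hE.trans hle) hc hσ

end

/-! ### Nilpotent images -/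

namespace FINZx

/-- The conclusion of NFX and MFX for one representation. -/
def IndData {G V : Type} [Group G] [Fintype G] [AddCommGroup V] [Module ℂ V]
    (ρ : Representation ℂ G V) : Prop :=
  ∃ (H : Subgroup G) (ψ : H →* ℂˣ), 0 < orderOf ψ ∧ ρ.character = indFun H (extZ ψ) ∧
    (∀ σ : ℂ ≃+* ℂ, (∀ g, σ (ρ.character g) = ρ.character g) ↔
      ∀ z : ℂ, z ^ orderOf ψ = 1 → σ z = z) ∧
    ∀ (σ : ℂ ≃+* ℂ) (t : ℕ), (∀ z : ℂ, z ^ orderOf ψ = 1 → σ z = z ^ t) →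
      ∀ g, σ (ρ.character g) = indFun H (extZ (ψ ^ t)) g

theorem norm_extZ_le {G : Type} [Group G] [Fintype G] (H : Subgroup G) (ψ : H →* ℂˣ) (g : G) :
    ‖(if g ∈ H then extZ ψ g else 0 : ℂ)‖ ≤ 1 := by
  by_cases h : g ∈ H
  · have h1 : (extZ ψ g) ^ (Nat.card G) = 1 := by
      have h2 : extZ ψ g = ((ψ ⟨g, h⟩ : ℂˣ) : ℂ) := by
        unfold extZ
        rw [dif_pos h]
      rw [h2, ← Units.val_pow_eq_pow_val, ← map_pow]
      have h3 : (⟨g, h⟩ : H) ^ Nat.card G = 1 := Subtype.ext (by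
        rw [Subgroup.coe_pow]
        exact pow_card_eq_one')
      rw [h3, map_one, Units.val_one]
    rw [if_pos h]
    exact (Complex.norm_eq_one_of_pow_eq_one h1 Nat.card_pos.ne').le
  · rw [if_neg h, norm_zero]
    exact zero_le_one

/-- `ψ` is trivial on `H ∩ ker ρ`. -/
theorem ker_triv {G V : Type} [Group G] [Fintype G] [AddCommGroup V] [Module ℂ V]
    (ρ : Representation ℂ G V) (H : Subgroup G) (ψ : H →* ℂˣ)
    (hχ : ρ.character = indFun H (extZ ψ)) (h : H) (hh : ρ h = 1) : ψ h = 1 := by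
  have h1 : ρ.character h = ρ.character 1 := by
    unfold Representation.character
    rw [hh, map_one ρ]
  rw [hχ] at h1
  unfold indFun at h1
  have hH : (Nat.card H : ℂ) ≠ 0 := by exact_mod_cast Nat.card_pos.ne'
  rw [div_left_inj' hH] at h1
  have h2 : ∑ x : G, (if x⁻¹ * (h : G) * x ∈ H then extZ ψ (x⁻¹ * (h : G) * x) else 0) =
      (Fintype.card G : ℂ) := by
    rw [h1]
    have h3 : ∀ x : G, (if x⁻¹ * (1 : G) * x ∈ H then extZ ψ (x⁻¹ * (1 : G) * x) else 0) =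
        (1 : ℂ) := by
      intro x
      have h4 : x⁻¹ * (1 : G) * x = 1 := by group
      rw [h4, if_pos H.one_mem]
      unfold extZ
      rw [dif_pos H.one_mem]
      have h5 : (⟨1, H.one_mem⟩ : H) = 1 := rfl
      rw [h5, map_one, Units.val_one]
    rw [Finset.sum_congr rfl fun x _ => h3 x, Finset.sum_const, nsmul_eq_mul, mul_one,
      Finset.card_univ]
  have h6 : ∀ x : G, (if x⁻¹ * (h : G) * x ∈ H then extZ ψ (x⁻¹ * (h : G) * x) else 0 : ℂ).re ≤ 1 :=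
    fun x => (Complex.re_le_norm _).trans (norm_extZ_le H ψ _)
  have h7 : ∑ x : G, (1 - (if x⁻¹ * (h : G) * x ∈ H then extZ ψ (x⁻¹ * (h : G) * x)
      else 0 : ℂ).re) = 0 := by
    rw [Finset.sum_sub_distrib, Finset.sum_const, nsmul_eq_mul, mul_one, Finset.card_univ]
    have h8 := congrArg Complex.re h2
    rw [Complex.re_sum, Complex.natCast_re] at h8
    rw [h8, sub_self]
  have h9 := (Finset.sum_eq_zero_iff_of_nonneg fun x _ => sub_nonneg.2 (h6 x)).1 h7 1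
    (Finset.mem_univ _)
  have h10 : (1 : G)⁻¹ * (h : G) * 1 = h := by group
  rw [h10, if_pos h.2] at h9
  have h11 : extZ ψ (h : G) = ((ψ h : ℂˣ) : ℂ) := by
    unfold extZ
    rw [dif_pos h.2]
  rw [h11] at h9
  have h12 : ‖((ψ h : ℂˣ) : ℂ)‖ ≤ 1 := by
    have := norm_extZ_le H ψ (h : G)
    rwa [if_pos h.2, h11] at this
  have h13 : ((ψ h : ℂˣ) : ℂ).re = 1 := by linarith
  have h14 : ((ψ h : ℂˣ) : ℂ) = 1 := by
    have h15 := Complex.sq_norm_sub_sq_re ((ψ h : ℂˣ) : ℂ)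
    rw [h13] at h15
    have h16 : ((ψ h : ℂˣ) : ℂ).im ^ 2 ≤ 0 := by
      have : ‖((ψ h : ℂˣ) : ℂ)‖ ^ 2 ≤ 1 := by
        have h17 := norm_nonneg ((ψ h : ℂˣ) : ℂ)
        nlinarith
      linarith
    have h17 : ((ψ h : ℂˣ) : ℂ).im = 0 := by
      have := sq_nonneg ((ψ h : ℂˣ) : ℂ).im
      exact pow_eq_zero_iff (two_ne_zero) |>.1 (le_antisymm h16 this)
    exact Complex.ext h13 h17
  exact Units.ext (by rw [h14, Units.val_one])

theorem order_pow {G V : Type} [Group G] [Fintype G] [AddCommGroup V] [Module ℂ V]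
    (ρ : Representation ℂ G V) (H : Subgroup G) (ψ : H →* ℂˣ)
    (hχ : ρ.character = indFun H (extZ ψ)) (ℓ : ℕ) (hℓ : ℓ.Prime) (h : StarkP.HasImage ℓ ρ) :
    ∃ k, orderOf ψ = ℓ ^ k := by
  choose j hj using h
  have h1 : orderOf ψ ∣ ℓ ^ ∑ g, j g := by
    refine orderOf_dvd_of_pow_eq_one (MonoidHom.ext fun x => ?_)
    rw [MonoidHom.pow_apply, MonoidHom.one_apply, ← map_pow]
    have h2 : j (x : G) ≤ ∑ g, j g := Finset.single_le_sum (fun _ _ => Nat.zero_le _)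
      (Finset.mem_univ _)
    obtain ⟨d, hd⟩ := Nat.exists_eq_add_of_le h2
    have h3 : ψ (x ^ (ℓ ^ j (x : G))) = 1 := by
      refine ker_triv ρ H ψ hχ _ ?_
      rw [Subgroup.coe_pow]
      exact hj x
    rw [hd, pow_add, pow_mul, map_pow, h3, one_pow]
  obtain ⟨k, -, hk⟩ := (Nat.dvd_prime_pow hℓ).1 h1
  exact ⟨k, hk⟩

end FINZx

section

variable (K L : Type) [Field K] [NumberField K] [Field L] [NumberField L] [Algebra K L]
  [IsGalois K L] (S : Finset (HeightOneSpectrum (𝓞 K)))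
  (Θ : ((L → ℝ) →₀ ℂ) →ₗ[ℂ] ((L → ℝ) →₀ ℂ))
  (hΘ : StarkP.IsTheta K (StarkP.aboveSet K L S) Θ)

include hΘ in
/-- The theorem for characters induced from `ψ` with `ℚ(χ) = ℚ(ψ)`. -/
theorem finZ_N (V : Type) [AddCommGroup V] [Module ℂ V] [Module.Finite ℂ V]
    (ρ : Representation ℂ (L ≃ₐ[K] L) V) (h : IndData ρ) :
    (∃ o : ℕ, 0 < o ∧ StarkP.charField ρ.character = StarkP.rootField o) ∧
    (∀ E : IntermediateField ℚ ℂ, E ≤ StarkP.charField ρ.character → IsCyclic (E ≃ₐ[ℚ] E) →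
      StarkP.NormIn E ρ.character (S : Set (HeightOneSpectrum (𝓞 K))) Θ) ∧
    (∀ q : ℕ, IsPrimePow q → StarkP.charField ρ.character = StarkP.rootField q →
      StarkP.NormIn (StarkP.charField ρ.character) ρ.character
        (S : Set (HeightOneSpectrum (𝓞 K))) Θ) ∧
    (∀ ℓ : ℕ, ℓ.Prime → StarkP.HasImage ℓ ρ →
      StarkP.NormIn (StarkP.charField ρ.character) ρ.character
        (S : Set (HeightOneSpectrum (𝓞 K))) Θ) ∧
    (Module.finrank ℚ (StarkP.charField ρ.character) = 2 →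
      StarkP.AbsIn ρ.character (S : Set (HeightOneSpectrum (𝓞 K))) Θ) := by
  obtain ⟨H, ψ, ho, hχ, hfix, hconj⟩ := h
  obtain ⟨φ, Θ₀, hφ, hreg⟩ := StarkB.exists_isPhiTheta (K := K) (L := L)
    (S : Set (HeightOneSpectrum (𝓞 K))) S.finite_toSet Θ hΘ
  have hCF : StarkP.charField ρ.character = StarkP.rootField (orderOf ψ) := CFR_thm _ _ _ hfix
  have htr : ∀ g, StarkP.trChar ρ.character g =
      ∑ t ∈ Ex (orderOf ψ), indFun H (extZ (ψ ^ t)) g :=
    TRX_thm SIGT_thm TRT_thm _ _ _ (fun t g => indFun H (extZ (ψ ^ t)) g) ho hCF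
      fun t _ σ hσ g => hconj σ t hσ g
  have ha : ∀ E : IntermediateField ℚ ℂ, E ≤ StarkP.charField ρ.character →
      IsCyclic (E ≃ₐ[ℚ] E) →
      StarkP.NormIn E ρ.character (S : Set (HeightOneSpectrum (𝓞 K))) Θ := by
    intro E hE hcyc
    have hE' : E ≤ StarkP.rootField (orderOf ψ) := by
      rw [hCF] at hE
      exact hE
    refine NASx.normIn_of_PE S Θ φ Θ₀ hφ hreg _ E (finalP K L S φ Θ₀ (orderOf ψ) E 1 (fun _ => H)
      (fun _ => ψ) (fun _ => 1) _ hφ ho hE' hcyc (fun i => ?_) (fun g => ?_))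
    · rw [inf_eq_left.2 hE', one_mul]
    · rw [htr g]
      simp
  have hq : ∀ q : ℕ, IsPrimePow q → StarkP.charField ρ.character = StarkP.rootField q →
      StarkP.NormIn (StarkP.charField ρ.character) ρ.character
        (S : Set (HeightOneSpectrum (𝓞 K))) Θ := by
    intro q hq hCq
    rcases Nat.lt_or_ge q 3 with hq3 | hq3
    · have hq2 : q = 2 := by
        have := hq.two_le
        omega
      subst hq2
      refine ha _ le_rfl (NASx.cyc_of (n := 2) (by norm_num) _ hCq.le (Or.inl ?_))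
      rw [hCq, SYMx.rootField_two, IntermediateField.finrank_bot]
    · obtain ⟨ℓ, k, m, hOk, hm, hcop, hord, hqq⟩ := NQF_thm q (orderOf ψ) hq hq3 ho
        (hCF.symm.trans hCq)
      have hPT : PT (ℓ ^ k) (StarkP.trChar ρ.character) S Θ₀ :=
        NIN_thm PCX_thm (NVQ_thm conclN) K L S φ Θ₀ H ψ ℓ k m _ hφ hOk hm hcop hord htr
      refine RESFx.normIn_of S Θ φ Θ₀ hφ hreg (ℓ ^ k) _ hPT _ ?_
      rw [hCq, hqq]
      rfl
  refine ⟨⟨orderOf ψ, ho, hCF⟩, ha, hq, fun ℓ hℓ himg => ?_, fun h2 => ?_⟩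
  · obtain ⟨k, hk⟩ := order_pow ρ H ψ hχ ℓ hℓ himg
    rcases Nat.eq_zero_or_pos k with h0 | h0
    · subst h0
      have h1 : StarkP.charField ρ.character = StarkP.rootField 2 := by
        rw [hCF, hk, pow_zero, SYMx.rootField_two]
        exact WTWx.root_one
      exact hq 2 Nat.prime_two.isPrimePow h1
    · exact hq (ℓ ^ k) (hℓ.isPrimePow.pow h0.ne') (by rw [hCF, hk])
  · have hcyc := NASx.cyc_of ho (StarkP.charField ρ.character) hCF.le (Or.inr h2)
    refine abs_of_normIn S Θ hΘ V ρ h2 (NRE_thm _ _ _ ho hCF h2) (ha _ le_rfl hcyc)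

end


namespace FINZx

theorem irr_of {G V : Type} [Group G] [AddCommGroup V] [Module ℂ V] (ρ : Representation ℂ G V)
    (h : ρ.IsIrreducible) : Irr ρ := by
  constructor
  · by_contra hV
    rw [not_nontrivial_iff_subsingleton] at hV
    have h1 : (⊥ : Subrepresentation ρ) = ⊤ := by
      apply Subrepresentation.toSubmodule_injective
      exact Subsingleton.elim _ _
    exact bot_ne_top h1
  · intro W hW
    have h1 := h.eq_bot_or_eq_top ⟨W, fun g v hv => hW g v hv⟩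
    rcases h1 with h1 | h1
    · left
      exact congrArg Subrepresentation.toSubmodule h1
    · right
      exact congrArg Subrepresentation.toSubmodule h1

theorem indData_N {G V : Type} [Group G] [Fintype G] [AddCommGroup V] [Module ℂ V]
    [Module.Finite ℂ V] (ρ : Representation ℂ G V) (hirr : ρ.IsIrreducible)
    (hnil : Group.IsNilpotent (G ⧸ MonoidHom.ker ρ))
    (h2 : ∀ a b : G, (∃ j : ℕ, a ^ (2 ^ j) = 1) → (∃ j : ℕ, b ^ (2 ^ j) = 1) →
      ρ (a * b) = ρ (b * a)) : IndData ρ :=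
  NFX_thm (NOQ_thm NEL_thm NSU_thm NGP_thm NLI_thm) G V ρ (irr_of ρ hirr)
    (NPR_thm G V ρ hnil h2)

theorem lcs_of {G V : Type} [Group G] [AddCommGroup V] [Module ℂ V] (ρ : Representation ℂ G V)
    (hnil : Group.IsNilpotent (G ⧸ MonoidHom.ker ρ)) :
    ∃ n : ℕ, ∀ g ∈ (⊤ : Subgroup G).lowerCentralSeries n, ρ g = 1 := by
  obtain ⟨n, hn⟩ := Subgroup.nilpotent_iff_lowerCentralSeries.1 hnil
  refine ⟨n, fun g hg => ?_⟩
  have h1 : QuotientGroup.mk' (MonoidHom.ker ρ) g ∈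
      ((⊤ : Subgroup G).lowerCentralSeries n).map (QuotientGroup.mk' (MonoidHom.ker ρ)) :=
    Subgroup.mem_map_of_mem _ hg
  rw [Subgroup.map_lowerCentralSeries, Subgroup.map_top_of_surjective _
    (QuotientGroup.mk'_surjective _), hn, Subgroup.mem_bot] at h1
  exact (QuotientGroup.eq_one_iff g).1 h1

theorem fix_I {G : Type} (χ : G → ℂ) (hI : Complex.I ∈ StarkP.charField χ) (σ : ℂ ≃+* ℂ)
    (hσ : ∀ g, σ (χ g) = χ g) : σ Complex.I = Complex.I := by
  have h1 : ∀ x ∈ StarkP.charField χ, σ x = x := by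
    intro x hx
    unfold StarkP.charField at hx
    induction hx using IntermediateField.adjoin_induction with
    | mem x hx =>
      obtain ⟨g, rfl⟩ := hx
      exact hσ g
    | algebraMap q => simp
    | add x y _ _ hx hy => rw [map_add, hx, hy]
    | inv x _ hx => rw [map_inv₀, hx]
    | mul x y _ _ hx hy => rw [map_mul, hx, hy]
  exact h1 _ hI

theorem indData_M {G V : Type} [Group G] [Fintype G] [AddCommGroup V] [Module ℂ V]
    [Module.Finite ℂ V] (ρ : Representation ℂ G V) (hirr : ρ.IsIrreducible)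
    (hnil : Group.IsNilpotent (G ⧸ MonoidHom.ker ρ))
    (hI : Complex.I ∈ StarkP.charField ρ.character) : IndData ρ :=
  MFX_thm (MOQ_thm (MEL_thm SIGT_thm MSG_thm MCH_thm MAB_thm MAX_thm MGP_thm)) G V ρ
    (irr_of ρ hirr) ⟨lcs_of ρ hnil, fun σ hσ => fix_I _ hI σ hσ⟩

theorem nil_of_image {G V : Type} [Group G] [Finite G] [AddCommGroup V] [Module ℂ V]
    (ρ : Representation ℂ G V) (ℓ : ℕ) (hℓ : ℓ.Prime) (h : StarkP.HasImage ℓ ρ) :
    Group.IsNilpotent (G ⧸ MonoidHom.ker ρ) := by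
  have : Fact ℓ.Prime := ⟨hℓ⟩
  have h1 : IsPGroup ℓ (G ⧸ MonoidHom.ker ρ) := by
    intro q
    obtain ⟨g, rfl⟩ := QuotientGroup.mk'_surjective (MonoidHom.ker ρ) q
    obtain ⟨j, hj⟩ := h g
    refine ⟨j, ?_⟩
    rw [← map_pow]
    exact (QuotientGroup.eq_one_iff _).2 hj
  exact h1.isNilpotent

theorem two_of_image {G V : Type} [Group G] [AddCommGroup V] [Module ℂ V]
    (ρ : Representation ℂ G V) (ℓ : ℕ) (hℓ : ℓ.Prime) (h2 : ℓ ≠ 2) (h : StarkP.HasImage ℓ ρ)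
    (a : G) (ha : ∃ j : ℕ, a ^ (2 ^ j) = 1) : ρ a = 1 := by
  obtain ⟨j, hj⟩ := ha
  obtain ⟨i, hi⟩ := h a
  have hcop : (2 ^ j).Coprime (ℓ ^ i) :=
    Nat.Coprime.pow _ _ ((Nat.coprime_primes Nat.prime_two hℓ).2 (Ne.symm h2))
  have h3 : (ρ a) ^ (2 ^ j) = 1 := by rw [← map_pow, hj, map_one]
  have h4 : (ρ a) ^ (ℓ ^ i) = 1 := by rw [← map_pow, hi]
  have h5 := Nat.dvd_gcd (orderOf_dvd_of_pow_eq_one h3) (orderOf_dvd_of_pow_eq_one h4)
  rw [hcop] at h5
  exact orderOf_eq_one_iff.1 (Nat.dvd_one.1 h5)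

end FINZx

section

variable (K L : Type) [Field K] [NumberField K] [Field L] [NumberField L] [Algebra K L]
  [IsGalois K L] (S : Finset (HeightOneSpectrum (𝓞 K)))
  (Θ : ((L → ℝ) →₀ ℂ) →ₗ[ℂ] ((L → ℝ) →₀ ℂ))
  (hΘ : StarkP.IsTheta K (StarkP.aboveSet K L S) Θ)

include hΘ

/-- Theorem (N): irreducible representations with nilpotent image. -/
theorem finZ_nil (V : Type) [AddCommGroup V] [Module ℂ V] [Module.Finite ℂ V]
    (ρ : Representation ℂ (L ≃ₐ[K] L) V) (hirr : ρ.IsIrreducible)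
    (hnil : Group.IsNilpotent ((L ≃ₐ[K] L) ⧸ MonoidHom.ker ρ))
    (h : (∀ a b : L ≃ₐ[K] L, (∃ j : ℕ, a ^ (2 ^ j) = 1) → (∃ j : ℕ, b ^ (2 ^ j) = 1) →
      ρ (a * b) = ρ (b * a)) ∨ Complex.I ∈ StarkP.charField ρ.character) :
    (∀ E : IntermediateField ℚ ℂ, E ≤ StarkP.charField ρ.character → IsCyclic (E ≃ₐ[ℚ] E) →
      StarkP.NormIn E ρ.character (S : Set (HeightOneSpectrum (𝓞 K))) Θ) ∧
    (∀ q : ℕ, IsPrimePow q → StarkP.charField ρ.character = StarkP.rootField q →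
      StarkP.NormIn (StarkP.charField ρ.character) ρ.character
        (S : Set (HeightOneSpectrum (𝓞 K))) Θ) ∧
    (∀ ℓ : ℕ, ℓ.Prime → StarkP.HasImage ℓ ρ →
      StarkP.NormIn (StarkP.charField ρ.character) ρ.character
        (S : Set (HeightOneSpectrum (𝓞 K))) Θ) ∧
    (Module.finrank ℚ (StarkP.charField ρ.character) = 2 →
      StarkP.AbsIn ρ.character (S : Set (HeightOneSpectrum (𝓞 K))) Θ) := by
  refine (finZ_N K L S Θ hΘ V ρ ?_).2
  rcases h with h | h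
  · exact indData_N ρ hirr hnil h
  · exact indData_M ρ hirr hnil h

end

end StarkC.ABS
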