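import Pool.Agent.ABS.StZR
import Pool.Agent.ABS.FIXC

/-!
# Project ABS, part Z, addition: monomial characters which are realized over `ℚ(χ)`
-/

set_option autoImplicit false

open scoped Classical

namespace StarkC.ABS

open StarkP (charField Realizable)

namespace RZMx

/-- The `1 × 1` matrices of a linear character. -/
noncomputable def mat {G : Type} [Group G] {H : Subgroup G} (ψ : H →* ℂˣ) :
    H →* Matrix (Fin 1) (Fin 1) ℂ :=
  ((Matrix.scalar (Fin 1) : ℂ →+* Matrix (Fin 1) (Fin 1) ℂ) : ℂ →* Matrix (Fin 1) (Fin 1) ℂ).comp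
    ((Units.coeHom ℂ).comp ψ)

theorem mat_apply {G : Type} [Group G] {H : Subgroup G} (ψ : H →* ℂˣ) (x : H) (i j : Fin 1) :
    mat ψ x i j = ((ψ x : ℂˣ) : ℂ) := by
  have hij : i = j := Subsingleton.elim i j
  subst hij
  show Matrix.scalar (Fin 1) ((ψ x : ℂˣ) : ℂ) i i = _
  rw [Matrix.scalar_apply, Matrix.diagonal_apply_eq]

theorem extM_mat {G : Type} [Group G] {H : Subgroup G} (ψ : H →* ℂˣ) :
    extM (mat ψ) = extZ ψ := by
  funext x
  unfold extM extZ
  by_cases hx : x ∈ H
  · rw [dif_pos hx, dif_pos hx, Matrix.trace_fin_one, mat_apply]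
  · rw [dif_neg hx, dif_neg hx]

end RZMx

/-- Monomial characters which are fixed by the same automorphisms as the linear character. -/
theorem RZM_thm : Stmt_RZM := by
  intro hI G _ _ H ψ h
  obtain ⟨d, R', h1, h2⟩ := hI G H 1 (RZMx.mat ψ) (charField (indFun H (extZ ψ))) (by
    intro x i j
    rw [RZMx.mat_apply]
    have h3 : ((ψ x : ℂˣ) : ℂ) ∈ (charField (indFun H (extZ ψ))).toSubfield :=
      FIXCx.core (charField (indFun H (extZ ψ))).toSubfield _ fun σ hσ =>
        h σ (fun g => hσ _ (IntermediateField.subset_adjoin ℚ _ (Set.mem_range_self g))) x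
    exact h3)
  refine ⟨d, R', h1, fun g => ?_⟩
  rw [h2, RZMx.extM_mat]

end StarkC.ABS
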