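import Pool.Agent.ABS.RZI
import Pool.Agent.ABS.RZM
import Pool.Agent.ABS.FINZ

/-!
# Project ABS, part Z: realizable characters (helper63)
-/

set_option autoImplicit false

open scoped Classical

namespace StarkC.ABS

open StarkP (charField Realizable)

/-- Data as in part N: `ψ` is fixed by the automorphisms which fix `χ`. -/
theorem real_of_indData {G V : Type} [Group G] [Fintype G] [AddCommGroup V] [Module ℂ V]
    (ρ : Representation ℂ G V) (h : FINZx.IndData ρ) : Realizable ρ.character := by
  obtain ⟨H, ψ, ho, hch, hfix, -⟩ := h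
  have hfun : ρ.character = indFun H (extZ ψ) := hch
  have key := RZM_thm RZI_thm G H ψ fun σ hσ x => by
    refine (hfix σ).1 (fun g => ?_) _ ?_
    · rw [hfun]
      exact hσ g
    · rw [← Units.val_pow_eq_pow_val, ← MonoidHom.pow_apply, pow_orderOf_eq_one,
        MonoidHom.one_apply, Units.val_one]
  rwa [← hfun] at key

/-- Irreducible characters with nilpotent image. -/
theorem real_nil {G V : Type} [Group G] [Fintype G] [AddCommGroup V] [Module ℂ V]
    [Module.Finite ℂ V] (ρ : Representation ℂ G V) (hirr : ρ.IsIrreducible)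
    (hnil : Group.IsNilpotent (G ⧸ MonoidHom.ker ρ))
    (h : (∀ a b : G, (∃ j : ℕ, a ^ (2 ^ j) = 1) → (∃ j : ℕ, b ^ (2 ^ j) = 1) →
      ρ (a * b) = ρ (b * a)) ∨ Complex.I ∈ charField ρ.character) :
    Realizable ρ.character := by
  rcases h with h | h
  · exact real_of_indData ρ (FINZx.indData_N ρ hirr hnil h)
  · exact real_of_indData ρ (FINZx.indData_M ρ hirr hnil h)

/-- Inflation. -/
theorem real_infl {G Q : Type} [Group G] [Group Q] (f : G →* Q) (hf : Function.Surjective f)
    (χ : Q → ℂ) (h : Realizable χ) : Realizable (fun g => χ (f g)) := by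
  obtain ⟨d, R, h1, h2⟩ := h
  have hr : Set.range (fun g => χ (f g)) = Set.range χ := hf.range_comp χ
  have hcf : charField (fun g => χ (f g)) = charField χ := by
    unfold charField
    rw [hr]
  refine ⟨d, R.comp f, fun g i j => ?_, fun g => h2 (f g)⟩
  rw [hcf]
  exact h1 (f g) i j

/-- A character which is contained exactly once in a character induced from a linear character with
values `±1` is realizable. -/
theorem real_of_mult_one (hP : Stmt_RZP) (hD : Stmt_YDE) {G : Type} [Group G] [Fintype G]
    (χ : G → ℂ) (hχ : IrrCh χ) (H : Subgroup G) (ψ : H →* ℂˣ) (hψ : ∀ h, ψ h = 1 ∨ ψ h = -1)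
    (h1 : ip (indFun H (extZ ψ)) χ = (Fintype.card G : ℂ)) : Realizable χ := by
  obtain ⟨d, R, hR, htr⟩ := RZI_thm G H 1 (RZMx.mat ψ) (charField χ) (by
    intro x i j
    rw [RZMx.mat_apply]
    rcases hψ x with h | h
    · rw [h, Units.val_one]
      exact one_mem _
    · rw [h, Units.val_neg, Units.val_one]
      exact neg_mem (one_mem _))
  refine hP hD G χ d R hχ hR ?_
  rw [← h1]
  congr 1
  funext g
  rw [htr, RZMx.extM_mat]

end StarkC.ABS
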