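import Pool.Agent.ABS.StY

/-!
# YDE: every representation of a finite group is a sum of irreducible subrepresentations
-/

set_option autoImplicit false

open NumberField IsDedekindDomain
open scoped TensorProduct Classical

namespace StarkC.ABS

namespace YDEx

variable {G : Type} [Group G]

theorem trans {V U : Type} [AddCommGroup V] [Module ℂ V] [AddCommGroup U] [Module ℂ U]
    {ρ : Representation ℂ G V} {τ : Representation ℂ G U} (h : StarkP.IsSub τ ρ) {χ : G → ℂ}
    (hχ : IsCon τ χ) : IsCon ρ χ := by
  obtain ⟨i, hi, hi'⟩ := h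
  obtain ⟨W, i1, i2, i3, σ, hσ, ⟨j, hj, hj'⟩, hc⟩ := hχ
  refine ⟨W, i1, i2, i3, σ, hσ, ⟨i ∘ₗ j, hi.comp hj, fun g w => ?_⟩, hc⟩
  show i (j (σ g w)) = ρ g (i (j w))
  rw [hj', hi']

theorem isSub {V : Type} [AddCommGroup V] [Module ℂ V]
    (ρ : Representation ℂ G V) (σ : Subrepresentation ρ) :
    StarkP.IsSub σ.toRepresentation ρ :=
  ⟨σ.toSubmodule.subtype, Subtype.val_injective, fun _ _ => rfl⟩

theorem char_add {V : Type} [AddCommGroup V] [Module ℂ V] [Module.Finite ℂ V]
    (ρ : Representation ℂ G V) (σ τ : Subrepresentation ρ)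
    (h : IsCompl σ.toSubmodule τ.toSubmodule) (g : G) :
    ρ.character g = σ.toRepresentation.character g + τ.toRepresentation.character g := by
  have h1 : ρ g = (Submodule.prodEquivOfIsCompl _ _ h).conj
      (LinearMap.prodMap (σ.toRepresentation g) (τ.toRepresentation g)) := by
    apply LinearMap.ext
    intro v
    obtain ⟨⟨x, y⟩, rfl⟩ := (Submodule.prodEquivOfIsCompl _ _ h).surjective v
    rw [LinearEquiv.conj_apply_apply, LinearEquiv.symm_apply_apply]
    show ρ g ((x : V) + (y : V)) = ρ g (x : V) + ρ g (y : V)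
    rw [map_add]
  unfold Representation.character
  rw [h1, LinearMap.trace_conj', LinearMap.trace_prodMap']

theorem main (G : Type) [Group G] [Fintype G] (n : ℕ) :
    ∀ (V : Type) [AddCommGroup V] [Module ℂ V] [Module.Finite ℂ V]
      (ρ : Representation ℂ G V), Module.finrank ℂ V = n → ∃ (m : ℕ) (χ : Fin m → G → ℂ),
        (∀ i, IsCon ρ (χ i)) ∧ ∀ g, ρ.character g = ∑ i, χ i g := by
  induction n using Nat.strong_induction_on with
  | _ n ih =>
    intro V _ _ _ ρ hn
    by_cases h0 : Subsingleton V
    · refine ⟨0, fun i => i.elim0, fun i => i.elim0, fun g => ?_⟩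
      have h1 : ρ g = 0 := LinearMap.ext fun v => Subsingleton.elim _ _
      simp [Representation.character, h1]
    have : Nontrivial V := not_subsingleton_iff_nontrivial.1 h0
    by_cases hirr : ρ.IsIrreducible
    · refine ⟨1, fun _ => ρ.character, fun _ => ?_, fun g => by simp⟩
      exact ⟨V, inferInstance, inferInstance, inferInstance, ρ, hirr,
        ⟨LinearMap.id, fun _ _ h => h, fun _ _ => rfl⟩, rfl⟩
    · -- a proper nonzero subrepresentation
      have h2 : ∃ σ : Subrepresentation ρ, σ ≠ ⊥ ∧ σ ≠ ⊤ := by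
        by_contra hcon
        push Not at hcon
        apply hirr
        have hne : (⊥ : Subrepresentation ρ) ≠ ⊤ := by
          intro he
          have he' : (⊥ : Submodule ℂ V) = ⊤ := congrArg Subrepresentation.toSubmodule he
          exact bot_ne_top he'
        have : Nontrivial (Subrepresentation ρ) := ⟨⊥, ⊤, hne⟩
        refine ⟨fun σ => ?_⟩
        by_cases h : σ = ⊥
        · exact Or.inl h
        · exact Or.inr (hcon σ h)
      obtain ⟨σ, hσ1, hσ2⟩ := h2
      have : NeZero (Nat.card G : ℂ) := ⟨by exact_mod_cast Nat.card_pos.ne'⟩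
      obtain ⟨τ, hτ⟩ := exists_isCompl σ
      have hcompl : IsCompl σ.toSubmodule τ.toSubmodule := by
        refine ⟨?_, ?_⟩
        · rw [disjoint_iff]
          exact congrArg Subrepresentation.toSubmodule hτ.inf_eq_bot
        · rw [codisjoint_iff]
          exact congrArg Subrepresentation.toSubmodule hτ.sup_eq_top
      have hσ1' : σ.toSubmodule ≠ ⊥ := fun h => hσ1 (Subrepresentation.toSubmodule_injective h)
      have hσ2' : σ.toSubmodule ≠ ⊤ := fun h => hσ2 (Subrepresentation.toSubmodule_injective h)
      have hτ2' : τ.toSubmodule ≠ ⊤ := by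
        intro h
        apply hσ1'
        have := hcompl.inf_eq_bot
        rwa [h, inf_top_eq] at this
      have f1 : Module.finrank ℂ σ.toSubmodule < n := by
        rw [← hn]; exact Submodule.finrank_lt hσ2'
      have f2 : Module.finrank ℂ τ.toSubmodule < n := by
        rw [← hn]; exact Submodule.finrank_lt hτ2'
      obtain ⟨m1, χ1, c1, e1⟩ := ih _ f1 σ.toSubmodule σ.toRepresentation rfl
      obtain ⟨m2, χ2, c2, e2⟩ := ih _ f2 τ.toSubmodule τ.toRepresentation rfl
      refine ⟨m1 + m2, Fin.append χ1 χ2, fun i => ?_, fun g => ?_⟩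
      · refine Fin.addCases (fun j => ?_) (fun j => ?_) i
        · rw [Fin.append_left]; exact trans (isSub ρ σ) (c1 j)
        · rw [Fin.append_right]; exact trans (isSub ρ τ) (c2 j)
      · rw [char_add ρ σ τ hcompl, e1, e2, Fin.sum_univ_add]
        simp [Fin.append_left, Fin.append_right]

end YDEx

/-- Every representation of a finite group is a sum of irreducible subrepresentations. -/
theorem YDE_thm : Stmt_YDE := by
  intro G V _ _ _ _ _ ρ
  exact YDEx.main G _ V ρ rfl

end StarkC.ABS
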