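import Pool.Agent.ABS.StZ

/-!
# Project ABS (MP_46b841_nt), part Z, module ZCJ (helper31)

The conjugate of an irreducible character which is realized over its field of values is
irreducible, and it is realized over its field of values.
-/

set_option autoImplicit false

open NumberField IsDedekindDomain
open scoped TensorProduct Classical

namespace StarkC.ABS

open StarkP (charField trChar Realizable OccursIn)

namespace ZCJx

variable {G : Type}

/-- conjugation of the field of values -/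
theorem map_mem (σ : ℂ ≃+* ℂ) (χ : G → ℂ) {x : ℂ} (hx : x ∈ charField χ) :
    σ x ∈ charField (gcj σ χ) := by
  unfold StarkP.charField at hx
  induction hx using IntermediateField.adjoin_induction with
  | mem x hx =>
    obtain ⟨g, rfl⟩ := hx
    exact IntermediateField.subset_adjoin ℚ _ (Set.mem_range_self g)
  | algebraMap q =>
    rw [eq_ratCast, map_ratCast, ← eq_ratCast (algebraMap ℚ ℂ) q]
    exact (charField (gcj σ χ)).algebraMap_mem q
  | add x y _ _ hx hy => rw [map_add]; exact add_mem hx hy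
  | inv x _ hx => rw [map_inv₀]; exact inv_mem hx
  | mul x y _ _ hx hy => rw [map_mul]; exact mul_mem hx hy

variable [Group G]

/-- the conjugate matrices -/
noncomputable def mat (σ : ℂ ≃+* ℂ) {d : ℕ} (R : G →* Matrix (Fin d) (Fin d) ℂ) :
    G →* Matrix (Fin d) (Fin d) ℂ :=
  (((σ : ℂ →+* ℂ).mapMatrix : Matrix (Fin d) (Fin d) ℂ →+* Matrix (Fin d) (Fin d) ℂ) :
    Matrix (Fin d) (Fin d) ℂ →* Matrix (Fin d) (Fin d) ℂ).comp R

theorem mat_apply (σ : ℂ ≃+* ℂ) {d : ℕ} (R : G →* Matrix (Fin d) (Fin d) ℂ) (g : G)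
    (i j : Fin d) : mat σ R g i j = σ (R g i j) := rfl

theorem trace_mat (σ : ℂ ≃+* ℂ) {d : ℕ} (R : G →* Matrix (Fin d) (Fin d) ℂ) (g : G) :
    (mat σ R g).trace = σ (R g).trace := by
  unfold Matrix.trace
  rw [map_sum]
  rfl

/-- the representation given by matrices -/
noncomputable def rep {d : ℕ} (R : G →* Matrix (Fin d) (Fin d) ℂ) :
    Representation ℂ G (Fin d → ℂ) where
  toFun g := Matrix.toLin' (R g)
  map_one' := by
    rw [map_one, Matrix.toLin'_one]
    rfl
  map_mul' a b := by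
    rw [map_mul, Matrix.toLin'_mul]
    rfl

theorem rep_character {d : ℕ} (R : G →* Matrix (Fin d) (Fin d) ℂ) (g : G) :
    (rep R).character g = (R g).trace := by
  show LinearMap.trace ℂ (Fin d → ℂ) (Matrix.toLin' (R g)) = (R g).trace
  rw [Matrix.trace_toLin'_eq]

theorem real (σ : ℂ ≃+* ℂ) (χ : G → ℂ) (h : Realizable χ) : Realizable (gcj σ χ) := by
  obtain ⟨d, R, h1, h2⟩ := h
  refine ⟨d, mat σ R, fun g i j => ?_, fun g => ?_⟩
  · rw [mat_apply]
    exact map_mem σ χ (h1 g i j)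
  · rw [trace_mat, h2 g]
    rfl

variable [Fintype G]

/-- `ip` of two irreducible characters -/
theorem ip_irr (χ χ' : G → ℂ) (h : IrrCh χ) (h' : IrrCh χ') :
    ∃ n : ℕ, ip χ χ' = (Fintype.card G : ℂ) * n ∧ (χ = χ' → n = 1) := by
  obtain ⟨W, _, _, _, κ, hκ, rfl⟩ := h
  obtain ⟨W', _, _, _, κ', hκ', rfl⟩ := h'
  have hc : (Nat.card G : ℂ) ≠ 0 := Nat.cast_ne_zero.2 Nat.card_pos.ne'
  have : Invertible (Nat.card G : ℂ) := invertibleOfNonzero hc
  have key : ∃ n : ℕ, ip κ.character κ'.character = (Fintype.card G : ℂ) * n := by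
    have h := Representation.char_orthonormal κ κ'
    rw [inv_mul_eq_iff_eq_mul₀ hc, Nat.card_eq_fintype_card] at h
    by_cases hn : Nonempty (κ'.Equiv κ)
    · rw [if_pos hn] at h
      exact ⟨1, by unfold ip; rw [h, Nat.cast_one]⟩
    · rw [if_neg hn] at h
      exact ⟨0, by unfold ip; rw [h, Nat.cast_zero]⟩
  obtain ⟨n, hn⟩ := key
  refine ⟨n, hn, fun he => ?_⟩
  have h := Representation.char_orthonormal κ κ
  rw [if_pos ⟨Representation.Equiv.refl κ⟩, inv_mul_eq_iff_eq_mul₀ hc,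
    Nat.card_eq_fintype_card] at h
  have hG : (Fintype.card G : ℂ) ≠ 0 := Nat.cast_ne_zero.2 Fintype.card_ne_zero
  have h2 : ip κ.character κ'.character = (Fintype.card G : ℂ) * 1 := by
    rw [← he]
    unfold ip
    exact h
  rw [hn] at h2
  exact_mod_cast mul_left_cancel₀ hG h2

theorem ip_self (χ : G → ℂ) (h : IrrCh χ) : ip χ χ = (Fintype.card G : ℂ) := by
  obtain ⟨n, h1, h2⟩ := ip_irr χ χ h h
  rw [h1, h2 rfl, Nat.cast_one, mul_one]

theorem ip_gcj (σ : ℂ ≃+* ℂ) (χ χ' : G → ℂ) : ip (gcj σ χ) (gcj σ χ') = σ (ip χ χ') := by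
  unfold ip gcj
  rw [map_sum]
  exact Finset.sum_congr rfl fun g _ => (map_mul σ _ _).symm

end ZCJx

open ZCJx in
theorem ZCJ_thm : Stmt_ZCJ := by
  intro hYDE G _ _ χ hirr hreal σ
  refine ⟨?_, real σ χ hreal⟩
  obtain ⟨d, R, h1, h2⟩ := hreal
  have hch : (rep (mat σ R)).character = gcj σ χ := by
    funext g
    rw [rep_character, trace_mat, h2 g]
    rfl
  obtain ⟨m, ψ, hψ, hsum⟩ := hYDE G (Fin d → ℂ) (rep (mat σ R))
  have hψ' : ∀ i, IrrCh (ψ i) := by
    intro i
    obtain ⟨W, x1, x2, x3, κ, hκ, _, hκc⟩ := hψ i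
    exact ⟨W, x1, x2, x3, κ, hκ, hκc⟩
  have hG : (Fintype.card G : ℂ) ≠ 0 := Nat.cast_ne_zero.2 Fintype.card_ne_zero
  have hself : ip (gcj σ χ) (gcj σ χ) = (Fintype.card G : ℂ) := by
    rw [ip_gcj, ip_self χ hirr, map_natCast]
  have hfun : ∀ g, gcj σ χ g = ∑ i, ψ i g := by
    intro g
    rw [← hch]
    exact hsum g
  choose c hc hc1 using fun i j => ip_irr (ψ i) (ψ j) (hψ' i) (hψ' j)
  have hexp : ip (gcj σ χ) (gcj σ χ) = (Fintype.card G : ℂ) * ((∑ i, ∑ j, c i j : ℕ) : ℂ) := by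
    have e1 : ip (gcj σ χ) (gcj σ χ) = ∑ i, ∑ j, ip (ψ i) (ψ j) := by
      unfold ip
      simp only [hfun, Finset.sum_mul_sum]
      rw [Finset.sum_comm]
      refine Finset.sum_congr rfl fun i _ => ?_
      rw [Finset.sum_comm]
    rw [e1]
    push_cast
    rw [Finset.mul_sum]
    refine Finset.sum_congr rfl fun i _ => ?_
    rw [Finset.mul_sum]
    exact Finset.sum_congr rfl fun j _ => hc i j
  rw [hself] at hexp
  have hone : (∑ i, ∑ j, c i j : ℕ) = 1 := by
    have h3 : (Fintype.card G : ℂ) * 1 = (Fintype.card G : ℂ) * ((∑ i, ∑ j, c i j : ℕ) : ℂ) := by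
      rw [mul_one]
      exact hexp
    exact_mod_cast (mul_left_cancel₀ hG h3).symm
  have hle : m ≤ 1 := by
    calc m = ∑ i : Fin m, c i i := by
          rw [Finset.sum_congr rfl fun i _ => hc1 i i rfl]
          simp
      _ ≤ ∑ i, ∑ j, c i j := by
          refine Finset.sum_le_sum fun i _ => ?_
          exact Finset.single_le_sum (f := fun j => c i j) (fun j _ => Nat.zero_le _)
            (Finset.mem_univ i)
      _ = 1 := hone
  have hm : m = 1 := by
    rcases Nat.lt_or_ge 0 m with h | h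
    · omega
    · exfalso
      have h0 : m = 0 := by omega
      subst h0
      simp at hone
  subst hm
  have hfin : gcj σ χ = ψ 0 := by
    funext g
    rw [hfun g]
    simp
  rw [hfin]
  exact hψ' 0

end StarkC.ABS
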