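import Pool.Agent.ABS.StZ

/-!
# ABS, part Z, module ZFS (helper48): finitely many irreducible characters
-/

set_option autoImplicit false

open NumberField IsDedekindDomain
open scoped TensorProduct Classical

namespace StarkC.ABS

namespace ZFSx

theorem ortho {G : Type} [Group G] [Fintype G] {χ χ' : G → ℂ} (h : IrrCh χ) (h' : IrrCh χ') :
    ip χ χ' = if χ = χ' then (Fintype.card G : ℂ) else 0 := by
  obtain ⟨W, _, _, _, κ, hκ, rfl⟩ := h
  obtain ⟨W', _, _, _, κ', hκ', rfl⟩ := h'
  have hc : (Nat.card G : ℂ) ≠ 0 := by
    exact_mod_cast Nat.card_pos.ne'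
  have : Invertible (Nat.card G : ℂ) := invertibleOfNonzero hc
  have key := Representation.char_orthonormal κ κ'
  have e1 : ip κ.character κ'.character =
      (Nat.card G : ℂ) * (if Nonempty (Representation.Equiv κ' κ) then (1 : ℂ) else 0) := by
    have h2 : (Nat.card G : ℂ)⁻¹ * ip κ.character κ'.character =
        (if Nonempty (Representation.Equiv κ' κ) then (1 : ℂ) else 0) := by
      unfold ip
      rw [key]
    rw [← h2, mul_inv_cancel_left₀ hc]
  by_cases hne : Nonempty (Representation.Equiv κ' κ)
  · have h3 : κ'.character = κ.character := Representation.char_iso hne.some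
    rw [e1, if_pos hne, if_pos h3.symm, mul_one, Nat.card_eq_fintype_card]
  · by_cases h3 : κ.character = κ'.character
    · exfalso
      have h4 := Representation.char_orthonormal κ κ
      have h5 : Nonempty (Representation.Equiv κ κ) := ⟨Representation.Equiv.refl _⟩
      rw [if_pos h5] at h4
      rw [if_neg hne, ← h3, h4] at key
      exact absurd key (by simp)
    · rw [e1, if_neg hne, if_neg h3, mul_zero]

end ZFSx

open ZFSx in
theorem ZFS_thm : Stmt_ZFS := by
  intro G _ _
  have hli : LinearIndependent ℂ (fun χ : {χ : G → ℂ // IrrCh χ} => (χ : G → ℂ)) := by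
    rw [linearIndependent_iff']
    intro s g hg i hi
    have h1 : ip (∑ j ∈ s, g j • (j : G → ℂ)) (i : G → ℂ) = 0 := by
      rw [hg]
      simp [ip]
    have h2 : ip (∑ j ∈ s, g j • (j : G → ℂ)) (i : G → ℂ) =
        ∑ j ∈ s, g j * ip (j : G → ℂ) (i : G → ℂ) := by
      unfold ip
      simp only [Finset.sum_apply, Pi.smul_apply, smul_eq_mul, Finset.sum_mul, Finset.mul_sum]
      rw [Finset.sum_comm]
      refine Finset.sum_congr rfl fun j _ => Finset.sum_congr rfl fun x _ => ?_
      ring
    rw [h2, Finset.sum_eq_single i] at h1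
    · rw [ortho i.2 i.2, if_pos rfl] at h1
      have hc : (Fintype.card G : ℂ) ≠ 0 := by
        exact_mod_cast Fintype.card_ne_zero
      exact (mul_eq_zero.1 h1).resolve_right hc
    · intro j _ hji
      rw [ortho j.2 i.2, if_neg (fun h => hji (Subtype.ext h)), mul_zero]
    · intro h
      exact absurd hi h
  have hfin : Finite {χ : G → ℂ // IrrCh χ} := hli.finite
  exact hfin

end StarkC.ABS
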