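import Pool.Agent.ABS.StZ
import Pool.Agent.ABS.SIGT

/-!
# ABS, part Z: trace and norm of the field of values over the class of a character
-/

set_option autoImplicit false

open NumberField IsDedekindDomain
open scoped TensorProduct Classical

namespace StarkC.ABS

open StarkP (charField trChar Realizable OccursIn)

namespace ZTNx

/-- Every embedding of a number field in `ℂ` extends to an automorphism of `ℂ`. -/
theorem ext (F : IntermediateField ℚ ℂ) (hF : FiniteDimensional ℚ F) (φ : F →ₐ[ℚ] ℂ) :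
    ∃ σ : ℂ ≃+* ℂ, ∀ x : F, σ (x : ℂ) = φ x := by
  have hFA : F ≤ algebraicClosure ℚ ℂ := by
    intro x hx
    rw [mem_algebraicClosure_iff]
    have h1 : IsIntegral ℚ (⟨x, hx⟩ : F) := IsIntegral.of_finite ℚ _
    exact (h1.map F.val).isAlgebraic
  have hA : algebraicClosure ℚ ℂ ≤
      IntermediateField.adjoin ℚ ((algebraicClosure ℚ ℂ : IntermediateField ℚ ℂ) : Set ℂ) :=
    fun x hx => IntermediateField.subset_adjoin ℚ _ hx
  obtain ⟨ψ, hψ⟩ := IntermediateField.exists_algHom_adjoin_of_splits (F := ℚ) (E := ℂ) (K := ℂ)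
    (S := ((algebraicClosure ℚ ℂ : IntermediateField ℚ ℂ) : Set ℂ))
    (fun s hs => ⟨(mem_algebraicClosure_iff.1 hs).isIntegral, IsAlgClosed.splits _⟩) φ
    (hFA.trans hA)
  have hmem : ∀ x : algebraicClosure ℚ ℂ,
      ψ (IntermediateField.inclusion hA x) ∈ (algebraicClosure ℚ ℂ).toSubalgebra := by
    intro x
    have h1 : IsIntegral ℚ (x : ℂ) := (mem_algebraicClosure_iff.1 x.2).isIntegral
    have h2 := (isIntegral_algHom_iff (algebraicClosure ℚ ℂ).val
      (algebraicClosure ℚ ℂ).val.injective (x := x)).1 h1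
    exact mem_algebraicClosure_iff.2
      (h2.map (ψ.comp (IntermediateField.inclusion hA))).isAlgebraic
  let τ0 : algebraicClosure ℚ ℂ →ₐ[ℚ] algebraicClosure ℚ ℂ :=
    (ψ.comp (IntermediateField.inclusion hA)).codRestrict (algebraicClosure ℚ ℂ).toSubalgebra hmem
  have hal : Algebra.IsAlgebraic ℚ (algebraicClosure ℚ ℂ) := by
    have h := algebraicClosure.isAlgebraic ℚ ℂ
    have hI : (IntermediateField.algebra' (algebraicClosure ℚ ℂ) :
        Algebra ℚ (algebraicClosure ℚ ℂ)) = DivisionRing.toRatAlgebra := Subsingleton.elim _ _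
    rw [hI] at h
    exact h
  have hb : Function.Bijective τ0 := Algebra.IsAlgebraic.algHom_bijective τ0
  obtain ⟨σ, hσ⟩ := SIGTx.extendQ (AlgEquiv.ofBijective τ0 hb)
  refine ⟨σ, fun x => ?_⟩
  have h1 := hσ (IntermediateField.inclusion hFA x)
  have h2 := DFunLike.congr_fun hψ x
  exact h1.trans h2

/-- The values of a character are algebraic. -/
theorem int_char {G V : Type} [Group G] [Fintype G] [AddCommGroup V] [Module ℂ V]
    [Module.Finite ℂ V] (ρ : Representation ℂ G V) (g : G) : IsIntegral ℚ (ρ.character g) := by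
  have h0 : ρ.character g = LinearMap.trace ℂ V (ρ g) := rfl
  rw [h0, Module.End.trace_eq_sum_roots_charpoly_of_splits (IsAlgClosed.splits _)]
  refine IsIntegral.multiset_sum fun z hz => ?_
  have h1 : Module.End.HasEigenvalue (ρ g : Module.End ℂ V) z :=
    (Module.End.hasEigenvalue_iff_isRoot_charpoly (ρ g) z).2 (Polynomial.isRoot_of_mem_roots hz)
  obtain ⟨v, hv⟩ := h1.exists_hasEigenvector
  have h2 : ∀ k : ℕ, ((ρ g) ^ k) v = z ^ k • v := fun k => hv.pow_apply k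
  have h3 : (ρ g) ^ (Fintype.card G) = 1 := by
    rw [← map_pow, pow_card_eq_one, map_one]
  have h4 := h2 (Fintype.card G)
  rw [h3] at h4
  have h5 : z ^ (Fintype.card G) = 1 := by
    have h6 : (z ^ (Fintype.card G) - 1) • v = 0 := by
      rw [sub_smul, one_smul, ← h4]
      exact sub_self v
    rcases smul_eq_zero.1 h6 with h7 | h7
    · exact sub_eq_zero.1 h7
    · exact absurd h7 hv.2
  refine ⟨Polynomial.X ^ (Fintype.card G) - Polynomial.C 1,
    Polynomial.monic_X_pow_sub_C 1 Fintype.card_ne_zero, ?_⟩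
  simp [h5]

theorem finDim {G : Type} [Group G] [Fintype G] (χ : G → ℂ) (h : IrrCh χ) :
    FiniteDimensional ℚ (charField χ) := by
  obtain ⟨W, _, _, _, κ, _, hκ⟩ := h
  have h1 : Finite (Set.range χ) := (Set.finite_range χ).to_subtype
  refine IntermediateField.finiteDimensional_adjoin fun z hz => ?_
  obtain ⟨g, rfl⟩ := hz
  rw [← hκ]
  exact int_char κ g

/-- The restriction of an automorphism of `ℂ`. -/
noncomputable def rst {G : Type} (χ : G → ℂ) (s : ℂ ≃+* ℂ) : charField χ →ₐ[ℚ] ℂ :=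
  (s : ℂ →+* ℂ).toRatAlgHom.comp (charField χ).val

theorem rst_apply {G : Type} (χ : G → ℂ) (s : ℂ ≃+* ℂ) (x : charField χ) :
    rst χ s x = s (x : ℂ) := rfl

/-- The conjugates of `χ` correspond to the embeddings of its field. -/
theorem bij {G : Type} [Group G] [Fintype G] (X : Finset (G → ℂ)) (r : (G → ℂ) → (G → ℂ))
    (χ : G → ℂ) (hX : Stb X) (hr : RepC X r) (hχ : χ ∈ X) (hrχ : r χ = χ)
    (hfd : FiniteDimensional ℚ (charField χ)) (s : (G → ℂ) → (ℂ ≃+* ℂ))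
    (hs : ∀ χ' ∈ X, r χ' = χ → gcj (s χ') χ = χ') :
    (∀ f : (charField χ →ₐ[ℚ] ℂ) → ℂ,
      ∏ χ' ∈ X.filter (fun χ' => r χ' = χ), f (rst χ (s χ')) = ∏ φ, f φ) ∧
    ∀ f : (charField χ →ₐ[ℚ] ℂ) → ℂ,
      ∑ χ' ∈ X.filter (fun χ' => r χ' = χ), f (rst χ (s χ')) = ∑ φ, f φ := by
  have hinj : ∀ χ₁ ∈ X.filter (fun χ' => r χ' = χ), ∀ χ₂ ∈ X.filter (fun χ' => r χ' = χ),
      rst χ (s χ₁) = rst χ (s χ₂) → χ₁ = χ₂ := by
    intro χ₁ h₁ χ₂ h₂ h
    rw [Finset.mem_filter] at h₁ h₂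
    rw [← hs χ₁ h₁.1 h₁.2, ← hs χ₂ h₂.1 h₂.2]
    funext g
    exact DFunLike.congr_fun h
      ⟨χ g, IntermediateField.subset_adjoin ℚ _ (Set.mem_range_self g)⟩
  have hsurj : ∀ φ : charField χ →ₐ[ℚ] ℂ, ∃ χ' ∈ X.filter (fun χ' => r χ' = χ),
      rst χ (s χ') = φ := by
    intro φ
    obtain ⟨σ, hσ⟩ := ext (charField χ) hfd φ
    have h1 : gcj σ χ ∈ X := hX χ hχ σ
    have h2 : r (gcj σ χ) = χ := by
      rw [(hr χ hχ).2.2 σ, hrχ]
    refine ⟨gcj σ χ, Finset.mem_filter.2 ⟨h1, h2⟩, ?_⟩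
    have h3 := hs (gcj σ χ) h1 h2
    refine IntermediateField.adjoin_algHom_ext (F := ℚ) (fun z hz1 => ?_)
    obtain ⟨g, rfl⟩ := hz1
    have h4 := congrFun h3 g
    have h5 := hσ ⟨χ g, IntermediateField.subset_adjoin ℚ _ (Set.mem_range_self g)⟩
    exact h4.trans h5
  constructor
  · intro f
    exact Finset.prod_bij (fun χ' _ => rst χ (s χ')) (fun _ _ => Finset.mem_univ _)
      (fun χ₁ h₁ χ₂ h₂ h => hinj χ₁ h₁ χ₂ h₂ h)
      (fun φ _ => by
        obtain ⟨χ', h1, h2⟩ := hsurj φ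
        exact ⟨χ', h1, h2⟩)
      (fun _ _ => rfl)
  · intro f
    exact Finset.sum_bij (fun χ' _ => rst χ (s χ')) (fun _ _ => Finset.mem_univ _)
      (fun χ₁ h₁ χ₂ h₂ h => hinj χ₁ h₁ χ₂ h₂ h)
      (fun φ _ => by
        obtain ⟨χ', h1, h2⟩ := hsurj φ
        exact ⟨χ', h1, h2⟩)
      (fun _ _ => rfl)

end ZTNx

open ZTNx in
theorem ZTN_thm : Stmt_ZTN := by
  intro G _ _ X r χ hX hr hχ hrχ hirr
  have hfd := finDim χ hirr
  constructor
  · intro g
    have hex : ∀ χ' : G → ℂ, ∃ σ : ℂ ≃+* ℂ, χ' ∈ X → r χ' = χ → gcj σ χ = χ' := by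
      intro χ'
      by_cases h : χ' ∈ X ∧ r χ' = χ
      · obtain ⟨σ, hσ⟩ := (hr χ' h.1).2.1
        rw [h.2] at hσ
        exact ⟨σ, fun _ _ => hσ⟩
      · exact ⟨RingEquiv.refl ℂ, fun h1 h2 => absurd ⟨h1, h2⟩ h⟩
    choose s hs using hex
    have h1 := (bij X r χ hX hr hχ hrχ hfd s hs).2
      (fun φ => φ ⟨χ g, IntermediateField.subset_adjoin ℚ _ (Set.mem_range_self g)⟩)
    have h2 : trChar χ g = ∑ φ : charField χ →ₐ[ℚ] ℂ,
        φ ⟨χ g, IntermediateField.subset_adjoin ℚ _ (Set.mem_range_self g)⟩ := by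
      unfold StarkP.trChar
      rw [← trace_eq_sum_embeddings ℂ (K := ℚ), eq_ratCast]
    rw [h2, ← h1]
    refine Finset.sum_congr rfl fun χ' h' => ?_
    rw [Finset.mem_filter] at h'
    exact congrFun (hs χ' h'.1 h'.2) g
  · intro s hs β
    have h1 := (bij X r χ hX hr hχ hrχ hfd s hs).1 (fun φ => φ β)
    have h2 : ((Algebra.norm ℚ β : ℚ) : ℂ) = ∏ φ : charField χ →ₐ[ℚ] ℂ, φ β := by
      rw [← Algebra.norm_eq_prod_embeddings ℚ ℂ β, eq_ratCast]
    rw [h2, ← h1]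
    rfl

end StarkC.ABS
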