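import Pool.Agent.ABS.RZP
import Pool.Agent.ABS.RZX
import Pool.Agent.ABS.YDE
import Pool.Agent.ABS.ZFS
import Pool.Agent.ABS.ZCJ
import Pool.Agent.ABS.ZTN

/-!
# Project ABS, part Z: a character with multiplicity gcd one in representations over `ℚ(χ)` is
realizable over `ℚ(χ)` (helper63)
-/

set_option autoImplicit false

open scoped Classical

namespace StarkC.ABS

open StarkP (charField trChar Realizable)

namespace RLCx

section Fld

variable {G : Type} [Group G] {F : Type} [Field F]

/-- The trace of an irreducible representation over `F`. -/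
def IrrF (χ : G → F) : Prop :=
  ∃ (W : Type) (_ : AddCommGroup W) (_ : Module F W) (_ : Module.Finite F W)
    (κ : Representation F G W), κ.IsIrreducible ∧ κ.character = χ

theorem char_add {V : Type} [AddCommGroup V] [Module F V] [Module.Finite F V]
    (ρ : Representation F G V) (σ τ : Subrepresentation ρ)
    (h : IsCompl σ.toSubmodule τ.toSubmodule) (g : G) :
    ρ.character g = σ.toRepresentation.character g + τ.toRepresentation.character g := by
  have h1 : ρ g = (Submodule.prodEquivOfIsCompl _ _ h).conj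
      (LinearMap.prodMap (σ.toRepresentation g) (τ.toRepresentation g)) := by
    apply LinearMap.ext
    intro v
    obtain ⟨⟨x, y⟩, rfl⟩ := (Submodule.prodEquivOfIsCompl _ _ h).surjective v
    rw [LinearEquiv.conj_apply_apply, LinearEquiv.symm_apply_apply]
    show ρ g ((x : V) + (y : V)) = ρ g (x : V) + ρ g (y : V)
    rw [map_add]
  unfold Representation.character
  rw [h1, LinearMap.trace_conj', LinearMap.trace_prodMap']

theorem decomp [CharZero F] (G : Type) [Group G] [Fintype G] (n : ℕ) :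
    ∀ (V : Type) [AddCommGroup V] [Module F V] [Module.Finite F V]
      (ρ : Representation F G V), Module.finrank F V = n → ∃ (m : ℕ) (χ : Fin m → G → F),
        (∀ i, IrrF (χ i)) ∧ ∀ g, ρ.character g = ∑ i, χ i g := by
  induction n using Nat.strong_induction_on with
  | _ n ih =>
    intro V _ _ _ ρ hn
    by_cases h0 : Subsingleton V
    · refine ⟨0, fun i => i.elim0, fun i => i.elim0, fun g => ?_⟩
      have h1 : ρ g = 0 := LinearMap.ext fun v => Subsingleton.elim _ _
      simp [Representation.character, h1]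
    have : Nontrivial V := not_subsingleton_iff_nontrivial.1 h0
    by_cases hirr : ρ.IsIrreducible
    · refine ⟨1, fun _ => ρ.character, fun _ => ?_, fun g => by simp⟩
      exact ⟨V, inferInstance, inferInstance, inferInstance, ρ, hirr, rfl⟩
    · -- a proper nonzero subrepresentation
      have h2 : ∃ σ : Subrepresentation ρ, σ ≠ ⊥ ∧ σ ≠ ⊤ := by
        by_contra hcon
        push Not at hcon
        apply hirr
        have hne : (⊥ : Subrepresentation ρ) ≠ ⊤ := by
          intro he
          have he' : (⊥ : Submodule F V) = ⊤ := congrArg Subrepresentation.toSubmodule he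
          exact bot_ne_top he'
        have : Nontrivial (Subrepresentation ρ) := ⟨⊥, ⊤, hne⟩
        refine ⟨fun σ => ?_⟩
        by_cases h : σ = ⊥
        · exact Or.inl h
        · exact Or.inr (hcon σ h)
      obtain ⟨σ, hσ1, hσ2⟩ := h2
      have : NeZero (Nat.card G : F) := ⟨by exact_mod_cast Nat.card_pos.ne'⟩
      obtain ⟨τ, hτ⟩ := exists_isCompl σ
      have hcompl : IsCompl σ.toSubmodule τ.toSubmodule := by
        refine ⟨?_, ?_⟩
        · rw [disjoint_iff]
          exact congrArg Subrepresentation.toSubmodule hτ.inf_eq_bot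
        · rw [codisjoint_iff]
          exact congrArg Subrepresentation.toSubmodule hτ.sup_eq_top
      have hσ1' : σ.toSubmodule ≠ ⊥ := fun h => hσ1 (Subrepresentation.toSubmodule_injective h)
      have hσ2' : σ.toSubmodule ≠ ⊤ := fun h => hσ2 (Subrepresentation.toSubmodule_injective h)
      have hτ2' : τ.toSubmodule ≠ ⊤ := by
        intro h
        apply hσ1'
        have := hcompl.inf_eq_bot
        rwa [h, inf_top_eq] at this
      have f1 : Module.finrank F σ.toSubmodule < n := by
        rw [← hn]; exact Submodule.finrank_lt hσ2'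
      have f2 : Module.finrank F τ.toSubmodule < n := by
        rw [← hn]; exact Submodule.finrank_lt hτ2'
      obtain ⟨m1, χ1, c1, e1⟩ := ih _ f1 σ.toSubmodule σ.toRepresentation rfl
      obtain ⟨m2, χ2, c2, e2⟩ := ih _ f2 τ.toSubmodule τ.toRepresentation rfl
      refine ⟨m1 + m2, Fin.append χ1 χ2, fun i => ?_, fun g => ?_⟩
      · refine Fin.addCases (fun j => ?_) (fun j => ?_) i
        · rw [Fin.append_left]; exact c1 j
        · rw [Fin.append_right]; exact c2 j
      · rw [char_add ρ σ τ hcompl, e1, e2, Fin.sum_univ_add]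
        simp [Fin.append_left, Fin.append_right]

/-- Two irreducible representations over `F` whose characters are not orthogonal have the same
character. -/
theorem eq_of_ne [CharZero F] [Fintype G] {χ χ' : G → F} (h : IrrF χ) (h' : IrrF χ')
    (hne : ∑ g, χ g * χ' g⁻¹ ≠ 0) : χ = χ' := by
  obtain ⟨W, _, _, _, κ, hκ, rfl⟩ := h
  obtain ⟨W', _, _, _, κ', hκ', rfl⟩ := h'
  have hc : (Nat.card G : F) ≠ 0 := by exact_mod_cast Nat.card_pos.ne'
  have : Invertible (Nat.card G : F) := invertibleOfNonzero hc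
  have key := Representation.card_inv_mul_sum_char_mul_char_eq_finrank κ' κ
  by_cases hn : Nonempty (Representation.Equiv κ' κ)
  · obtain ⟨φ⟩ := hn
    exact (Representation.char_iso φ).symm
  · exfalso
    have hE : IsEmpty (Representation.Equiv κ' κ) := not_nonempty_iff.1 hn
    have h0 : Module.finrank F (Representation.IntertwiningMap κ' κ) = 0 :=
      Module.finrank_zero_of_subsingleton
    rw [h0, Nat.cast_zero, mul_eq_zero] at key
    rcases key with h1 | h1
    · exact inv_ne_zero hc h1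
    · exact hne h1

end Fld

/-! ### Over a subfield of `ℂ` -/

variable {G : Type} [Group G] {F : IntermediateField ℚ ℂ}

/-- Matrices over `F` of a representation over `F`, with complex entries. -/
theorem mat_of {W : Type} [AddCommGroup W] [Module F W] [Module.Finite F W]
    (κ : Representation F G W) :
    ∃ (d : ℕ) (R : G →* Matrix (Fin d) (Fin d) ℂ), (∀ g i j, R g i j ∈ F) ∧
      ∀ g, (R g).trace = ((κ.character g : F) : ℂ) := by
  let b := Module.finBasis F W
  let M : G →* Matrix (Fin (Module.finrank F W)) (Fin (Module.finrank F W)) F :=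
    ((LinearMap.toMatrixAlgEquiv b : (W →ₗ[F] W) ≃ₐ[F] _) : (W →ₗ[F] W) →* _).comp κ
  let c : Matrix (Fin (Module.finrank F W)) (Fin (Module.finrank F W)) F →*
      Matrix (Fin (Module.finrank F W)) (Fin (Module.finrank F W)) ℂ :=
    (RingHom.mapMatrix (algebraMap F ℂ)).toMonoidHom
  refine ⟨Module.finrank F W, c.comp M, fun g i j => ?_, fun g => ?_⟩
  · show algebraMap F ℂ (M g i j) ∈ F
    exact (M g i j).2
  · have h1 : (M g).trace = κ.character g := by
      show (LinearMap.toMatrix b b (κ g)).trace = _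
      rw [Representation.character, LinearMap.trace_eq_matrix_trace F b]
    rw [← h1]
    show (Matrix.map (M g) (algebraMap F ℂ)).trace = _
    unfold Matrix.trace
    show ∑ i, algebraMap F ℂ (M g i i) = algebraMap F ℂ (∑ i, (M g i i))
    rw [map_sum]

/-- The representation over `F` given by complex matrices with entries in `F`. -/
theorem rep_of {d : ℕ} (R : G →* Matrix (Fin d) (Fin d) ℂ) (hR : ∀ g i j, R g i j ∈ F) :
    ∃ κ : Representation F G (Fin d → F), ∀ g, ((κ.character g : F) : ℂ) = (R g).trace := by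
  let M : G →* Matrix (Fin d) (Fin d) F :=
    { toFun := fun g i j => ⟨R g i j, hR g i j⟩
      map_one' := by
        ext i j
        show R 1 i j = ((1 : Matrix (Fin d) (Fin d) F) i j : ℂ)
        rw [map_one, Matrix.one_apply, Matrix.one_apply]
        by_cases h : i = j
        · rw [if_pos h, if_pos h]; rfl
        · rw [if_neg h, if_neg h]; rfl
      map_mul' := by
        intro a b
        ext i j
        show R (a * b) i j = ((∑ k, (⟨R a i k, hR a i k⟩ : F) * ⟨R b k j, hR b k j⟩ : F) : ℂ)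
        rw [map_mul, Matrix.mul_apply]
        push_cast
        rfl }
  let κ : Representation F G (Fin d → F) :=
    { toFun := fun g => Matrix.toLin' (M g)
      map_one' := by
        rw [map_one, Matrix.toLin'_one]
        rfl
      map_mul' := by
        intro a b
        rw [map_mul, Matrix.toLin'_mul]
        rfl }
  refine ⟨κ, fun g => ?_⟩
  have h1 : κ.character g = (M g).trace := by
    show LinearMap.trace F (Fin d → F) (Matrix.toLin' (M g)) = (M g).trace
    rw [Matrix.trace_toLin'_eq]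
  rw [h1]
  unfold Matrix.trace
  show ((∑ i, (⟨R g i i, hR g i i⟩ : F) : F) : ℂ) = ∑ i, R g i i
  push_cast
  rfl

variable [Fintype G]

/-- A complex matrix representation is a sum of irreducible characters. -/
theorem dec (d : ℕ) (R : G →* Matrix (Fin d) (Fin d) ℂ) :
    ∃ (m : ℕ) (ψ : Fin m → G → ℂ), (∀ i, IrrCh (ψ i)) ∧ ∀ g, (R g).trace = ∑ i, ψ i g := by
  obtain ⟨m, ψ, hψ, hsum⟩ := YDE_thm G (Fin d → ℂ) (ZCJx.rep R)
  refine ⟨m, ψ, fun i => ?_, fun g => ?_⟩
  · obtain ⟨W, x1, x2, x3, κ, hκ, _, hκc⟩ := hψ i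
    exact ⟨W, x1, x2, x3, κ, hκ, hκc⟩
  · rw [← ZCJx.rep_character]
    exact hsum g

/-- The inner product with an irreducible character is a multiplicity. -/
theorem mult (χ : G → ℂ) (hχ : IrrCh χ) {m : ℕ} (ψ : Fin m → G → ℂ) (hψ : ∀ i, IrrCh (ψ i))
    (f : G → ℂ) (hf : ∀ g, f g = ∑ i, ψ i g) :
    ip f χ = (Fintype.card G : ℂ) *
      (((Finset.univ.filter fun i => ψ i = χ).card : ℕ) : ℂ) := by
  have h1 : ip f χ = ∑ i, ip (ψ i) χ := by
    unfold ip
    rw [Finset.sum_comm]
    refine Finset.sum_congr rfl fun g _ => ?_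
    rw [hf, Finset.sum_mul]
  rw [h1, Finset.sum_congr rfl fun i _ => ZFSx.ortho (hψ i) hχ, ← Finset.sum_filter,
    Finset.sum_const, nsmul_eq_mul, mul_comm]

/-- The inner product of two characters with a common constituent is not zero. -/
theorem ne_zero (χ : G → ℂ) {m m' : ℕ} (ψ : Fin m → G → ℂ) (ψ' : Fin m' → G → ℂ)
    (hψ : ∀ i, IrrCh (ψ i)) (hψ' : ∀ i, IrrCh (ψ' i)) (f f' : G → ℂ)
    (hf : ∀ g, f g = ∑ i, ψ i g) (hf' : ∀ g, f' g = ∑ i, ψ' i g) (i₀ : Fin m) (j₀ : Fin m')
    (hi : ψ i₀ = χ) (hj : ψ' j₀ = χ) : ip f f' ≠ 0 := by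
  have h1 : ip f f' = ∑ j, ip f (ψ' j) := by
    unfold ip
    rw [Finset.sum_comm]
    refine Finset.sum_congr rfl fun g _ => ?_
    rw [hf' g⁻¹, Finset.mul_sum]
  have h2 : ∀ j, ip f (ψ' j) = (Fintype.card G : ℂ) *
      (((Finset.univ.filter fun i => ψ i = ψ' j).card : ℕ) : ℂ) := fun j =>
    mult (ψ' j) (hψ' j) ψ hψ f hf
  have h3 : ip f f' = (Fintype.card G : ℂ) *
      ((∑ j, (Finset.univ.filter fun i => ψ i = ψ' j).card : ℕ) : ℂ) := by
    rw [h1, Finset.sum_congr rfl fun j _ => h2 j, ← Finset.mul_sum]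
    push_cast
    rfl
  have h4 : 0 < ∑ j, (Finset.univ.filter fun i => ψ i = ψ' j).card := by
    have h5 : 0 < (Finset.univ.filter fun i => ψ i = ψ' j₀).card := by
      apply Finset.card_pos.2
      exact ⟨i₀, by rw [Finset.mem_filter]; exact ⟨Finset.mem_univ _, by rw [hi, hj]⟩⟩
    exact lt_of_lt_of_le h5 (Finset.single_le_sum
      (f := fun j => (Finset.univ.filter fun i => ψ i = ψ' j).card)
      (fun _ _ => Nat.zero_le _) (Finset.mem_univ j₀))
  rw [h3]
  refine mul_ne_zero (Nat.cast_ne_zero.2 Fintype.card_ne_zero) ?_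
  exact_mod_cast h4.ne'

end RLCx

open RLCx

/-- If the greatest common divisor of the multiplicities of `χ` in some representations over `ℚ(χ)` is
one then `χ` is realizable over `ℚ(χ)`. -/
theorem real_of_comb {G : Type} [Group G] [Fintype G] (χ : G → ℂ) (hχ : IrrCh χ) {r : ℕ}
    (d : Fin r → ℕ) (R : ∀ i, G →* Matrix (Fin (d i)) (Fin (d i)) ℂ) (c : Fin r → ℤ)
    (hR : ∀ i g a b, R i g a b ∈ charField χ)
    (h1 : ∑ i, (c i : ℂ) * ip (fun g => (R i g).trace) χ = (Fintype.card G : ℂ)) :
    Realizable χ := by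
  have hG : (Fintype.card G : ℂ) ≠ 0 := Nat.cast_ne_zero.2 Fintype.card_ne_zero
  -- the irreducible constituents over `ℚ(χ)`
  choose κ hκ using fun i => rep_of (F := charField χ) (R i) (hR i)
  choose m η hη hsum using fun i => decomp (F := charField χ) G _ _ (κ i) rfl
  -- the multiplicity of an irreducible constituent
  have hmult : ∀ θ : G → charField χ, IrrF θ → ∃ n : ℕ,
      ip (fun g => ((θ g : charField χ) : ℂ)) χ = (Fintype.card G : ℂ) * n := by
    rintro θ ⟨W, _, _, _, μ, hμ, rfl⟩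
    obtain ⟨e, Q, hQ, htr⟩ := mat_of μ
    obtain ⟨k, ψ, hψ, hs⟩ := dec e Q
    refine ⟨_, mult χ hχ ψ hψ _ fun g => ?_⟩
    rw [← htr, hs]
  have hsame : ∀ θ θ' : G → charField χ, IrrF θ → IrrF θ' →
      ip (fun g => ((θ g : charField χ) : ℂ)) χ ≠ 0 →
      ip (fun g => ((θ' g : charField χ) : ℂ)) χ ≠ 0 → θ = θ' := by
    intro θ θ' hθ hθ' hn hn'
    refine eq_of_ne hθ hθ' fun h0 => ?_
    obtain ⟨W, _, _, _, μ, hμ, rfl⟩ := hθ
    obtain ⟨W', _, _, _, μ', hμ', rfl⟩ := hθ'
    obtain ⟨e, Q, hQ, htr⟩ := mat_of μ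
    obtain ⟨k, ψ, hψ, hs⟩ := dec e Q
    obtain ⟨e', Q', hQ', htr'⟩ := mat_of μ'
    obtain ⟨k', ψ', hψ', hs'⟩ := dec e' Q'
    have hf : ∀ g, ((μ.character g : charField χ) : ℂ) = ∑ i, ψ i g := fun g => by
      rw [← htr, hs]
    have hf' : ∀ g, ((μ'.character g : charField χ) : ℂ) = ∑ i, ψ' i g := fun g => by
      rw [← htr', hs']
    rw [mult χ hχ ψ hψ _ hf] at hn
    rw [mult χ hχ ψ' hψ' _ hf'] at hn'
    have hc : (Finset.univ.filter fun i => ψ i = χ).card ≠ 0 := fun h => hn (by rw [h]; simp)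
    have hc' : (Finset.univ.filter fun i => ψ' i = χ).card ≠ 0 := fun h => hn' (by rw [h]; simp)
    obtain ⟨i₀, hi₀⟩ := Finset.card_pos.1 (Nat.pos_of_ne_zero hc)
    obtain ⟨j₀, hj₀⟩ := Finset.card_pos.1 (Nat.pos_of_ne_zero hc')
    rw [Finset.mem_filter] at hi₀ hj₀
    refine ne_zero χ ψ ψ' hψ hψ' _ _ hf hf' i₀ j₀ hi₀.2 hj₀.2 ?_
    have h2 := congrArg (algebraMap (charField χ) ℂ) h0
    rw [map_zero, map_sum] at h2
    rw [← h2]
    refine Finset.sum_congr rfl fun g _ => ?_
    rw [map_mul]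
    rfl
  -- some constituent contains `χ`
  have hipR : ∀ i, ip (fun g => (R i g).trace) χ =
      ∑ j, ip (fun g => ((η i j g : charField χ) : ℂ)) χ := by
    intro i
    unfold ip
    rw [Finset.sum_comm]
    refine Finset.sum_congr rfl fun g _ => ?_
    have h3 : (R i g).trace = ∑ j, ((η i j g : charField χ) : ℂ) := by
      rw [← hκ i g, hsum i g]
      push_cast
      rfl
    show (R i g).trace * χ g⁻¹ = _
    rw [h3, Finset.sum_mul]
  by_cases hall : ∀ i j, ip (fun g => ((η i j g : charField χ) : ℂ)) χ = 0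
  · exfalso
    apply hG
    rw [← h1]
    refine Finset.sum_eq_zero fun i _ => ?_
    rw [hipR i, Finset.sum_eq_zero fun j _ => hall i j, mul_zero]
  · push Not at hall
    obtain ⟨i₀, j₀, h0⟩ := hall
    obtain ⟨m₀, hm₀⟩ := hmult _ (hη i₀ j₀)
    -- all multiplicities are multiples of `m₀`
    have hb : ∀ i, ∃ b : ℤ, ip (fun g => (R i g).trace) χ =
        (Fintype.card G : ℂ) * ((m₀ : ℤ) * b : ℤ) := by
      intro i
      rw [hipR i]
      have h4 : ∀ j, ∃ b : ℤ, ip (fun g => ((η i j g : charField χ) : ℂ)) χ =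
          (Fintype.card G : ℂ) * ((m₀ : ℤ) * b : ℤ) := by
        intro j
        by_cases hz : ip (fun g => ((η i j g : charField χ) : ℂ)) χ = 0
        · exact ⟨0, by rw [hz]; simp⟩
        · have h5 := hsame _ _ (hη i j) (hη i₀ j₀) hz h0
          refine ⟨1, ?_⟩
          rw [h5, hm₀]
          simp
      choose b hb using h4
      refine ⟨∑ j, b j, ?_⟩
      rw [Finset.sum_congr rfl fun j _ => hb j]
      push_cast
      simp only [Finset.mul_sum]
    choose b hb using hb
    have hone : (m₀ : ℤ) * ∑ i, c i * b i = 1 := by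
      have h6 : (Fintype.card G : ℂ) * (((m₀ : ℤ) * ∑ i, c i * b i : ℤ) : ℂ) =
          (Fintype.card G : ℂ) * 1 := by
        rw [mul_one]
        refine Eq.trans ?_ h1
        push_cast
        rw [Finset.mul_sum, Finset.mul_sum]
        refine Finset.sum_congr rfl fun i _ => ?_
        rw [hb i]
        push_cast
        ring
      have h7 := mul_left_cancel₀ hG h6
      exact_mod_cast h7
    have hm1 : m₀ = 1 := by
      have h8 : (m₀ : ℤ) ∣ 1 := ⟨_, hone.symm⟩
      have h9 : (m₀ : ℤ) = 1 := Int.eq_one_of_dvd_one (by positivity) h8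
      exact_mod_cast h9
    rw [hm1, Nat.cast_one, mul_one] at hm₀
    obtain ⟨W, _, _, _, μ, hμ, hμc⟩ := hη i₀ j₀
    obtain ⟨e, Q, hQ, htr⟩ := mat_of μ
    refine RZP_thm YDE_thm G χ e Q hχ hQ ?_
    rw [← hm₀]
    congr 1
    funext g
    rw [htr, hμc]

/-- An irreducible character which is an integral combination of characters of representations over
`ℚ(χ)` is realizable over `ℚ(χ)`. -/
theorem real_of_sum {G : Type} [Group G] [Fintype G] (χ : G → ℂ) (hχ : IrrCh χ) {r : ℕ}
    (d : Fin r → ℕ) (R : ∀ i, G →* Matrix (Fin (d i)) (Fin (d i)) ℂ) (c : Fin r → ℤ)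
    (hR : ∀ i g a b, R i g a b ∈ charField χ) (h1 : ∀ g, χ g = ∑ i, (c i : ℂ) * (R i g).trace) :
    Realizable χ := by
  refine real_of_comb χ hχ d R c hR ?_
  rw [← ZCJx.ip_self χ hχ]
  unfold ip
  have h2 : ∀ i, (c i : ℂ) * ∑ g, (R i g).trace * χ g⁻¹ =
      ∑ g, (c i : ℂ) * (R i g).trace * χ g⁻¹ := fun i => by
    rw [Finset.mul_sum]
    exact Finset.sum_congr rfl fun g _ => (mul_assoc _ _ _).symm
  rw [Finset.sum_congr rfl fun i _ => h2 i, Finset.sum_comm]
  refine Finset.sum_congr rfl fun g _ => ?_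
  rw [← Finset.sum_mul, ← h1 g]

namespace RLCx

/-- The conjugates of an irreducible character are irreducible. -/
theorem irr_gcj {G : Type} [Group G] [Fintype G] (χ : G → ℂ) (hχ : IrrCh χ) (σ : ℂ ≃+* ℂ) :
    IrrCh (gcj σ χ) := by
  have hG : (Fintype.card G : ℂ) ≠ 0 := Nat.cast_ne_zero.2 Fintype.card_ne_zero
  have hself : ip (gcj σ χ) (gcj σ χ) = (Fintype.card G : ℂ) := by
    rw [ZCJx.ip_gcj, ZCJx.ip_self χ hχ, map_natCast]
  obtain ⟨W, _, _, _, κ, hκ, rfl⟩ := id hχ
  let b := Module.finBasis ℂ W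
  let M : G →* Matrix (Fin (Module.finrank ℂ W)) (Fin (Module.finrank ℂ W)) ℂ :=
    ((LinearMap.toMatrixAlgEquiv b : (W →ₗ[ℂ] W) ≃ₐ[ℂ] _) : (W →ₗ[ℂ] W) →* _).comp κ
  have hM : ∀ g, (M g).trace = κ.character g := by
    intro g
    show (LinearMap.toMatrix b b (κ g)).trace = _
    rw [Representation.character, LinearMap.trace_eq_matrix_trace ℂ b]
  obtain ⟨m, ψ, hψ, hs⟩ := dec _ (ZCJx.mat σ M)
  have hf : ∀ g, gcj σ κ.character g = ∑ i, ψ i g := by
    intro g
    rw [← hs, ZCJx.trace_mat, hM]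
    rfl
  have h2 : ip (gcj σ κ.character) (gcj σ κ.character) = (Fintype.card G : ℂ) *
      ((∑ j, (Finset.univ.filter fun i => ψ i = ψ j).card : ℕ) : ℂ) := by
    have h3 : ip (gcj σ κ.character) (gcj σ κ.character) =
        ∑ j, ip (gcj σ κ.character) (ψ j) := by
      unfold ip
      rw [Finset.sum_comm]
      refine Finset.sum_congr rfl fun g _ => ?_
      rw [hf g⁻¹, Finset.mul_sum]
    rw [h3, Finset.sum_congr rfl fun j _ => mult (ψ j) (hψ j) ψ hψ _ hf, ← Finset.mul_sum]
    push_cast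
    rfl
  rw [hself] at h2
  have hone : (∑ j, (Finset.univ.filter fun i => ψ i = ψ j).card : ℕ) = 1 := by
    have h3 : (Fintype.card G : ℂ) * 1 = (Fintype.card G : ℂ) *
        ((∑ j, (Finset.univ.filter fun i => ψ i = ψ j).card : ℕ) : ℂ) := by
      rw [mul_one]
      exact h2
    exact_mod_cast (mul_left_cancel₀ hG h3).symm
  have hle : m ≤ 1 := by
    calc m = ∑ j : Fin m, 1 := by simp
      _ ≤ ∑ j, (Finset.univ.filter fun i => ψ i = ψ j).card := by
          refine Finset.sum_le_sum fun j _ => ?_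
          exact Finset.card_pos.2 ⟨j, by rw [Finset.mem_filter]; exact ⟨Finset.mem_univ _, rfl⟩⟩
      _ = 1 := hone
  have hm : m = 1 := by
    rcases Nat.lt_or_ge 0 m with h | h
    · omega
    · exfalso
      have h0 : m = 0 := by omega
      subst h0
      simp at hone
  subst hm
  have hfin : gcj σ κ.character = ψ 0 := by
    funext g
    rw [hf g]
    simp
  rw [hfin]
  exact hψ 0

/-- The multiplicity of `χ` in `Tr χ` is one. -/
theorem ip_trChar {G : Type} [Group G] [Fintype G] (χ : G → ℂ) (hχ : IrrCh χ) :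
    ip (trChar χ) χ = (Fintype.card G : ℂ) := by
  have hfd : FiniteDimensional ℚ (charField χ) := ZTNx.finDim χ hχ
  choose s hs using fun φ : charField χ →ₐ[ℚ] ℂ => ZTNx.ext (charField χ) hfd φ
  have h1 : ∀ g, trChar χ g = ∑ φ : charField χ →ₐ[ℚ] ℂ, gcj (s φ) χ g := by
    intro g
    unfold trChar
    have h2 := trace_eq_sum_embeddings (K := ℚ) (L := charField χ) ℂ
      (x := ⟨χ g, IntermediateField.subset_adjoin ℚ _ (Set.mem_range_self g)⟩)
    rw [eq_ratCast] at h2
    rw [h2]
    exact Finset.sum_congr rfl fun φ _ => (hs φ _).symm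
  have h2 : ip (trChar χ) χ = ∑ φ : charField χ →ₐ[ℚ] ℂ, ip (gcj (s φ) χ) χ := by
    unfold ip
    rw [Finset.sum_comm]
    refine Finset.sum_congr rfl fun g _ => ?_
    rw [h1, Finset.sum_mul]
  have h3 : ∀ φ : charField χ →ₐ[ℚ] ℂ, ip (gcj (s φ) χ) χ =
      if φ = ZTNx.rst χ (RingEquiv.refl ℂ) then (Fintype.card G : ℂ) else 0 := by
    intro φ
    rw [ZFSx.ortho (irr_gcj χ hχ (s φ)) hχ]
    by_cases h : φ = ZTNx.rst χ (RingEquiv.refl ℂ)
    · rw [if_pos h, if_pos]
      funext g
      have h4 := hs φ ⟨χ g, IntermediateField.subset_adjoin ℚ _ (Set.mem_range_self g)⟩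
      have h5 : φ ⟨χ g, IntermediateField.subset_adjoin ℚ _ (Set.mem_range_self g)⟩ = χ g := by
        rw [h]
        rfl
      exact h4.trans h5
    · rw [if_neg h, if_neg]
      intro h5
      apply h
      apply AlgHom.ext
      intro x
      rw [← hs φ x]
      show s φ (x : ℂ) = (x : ℂ)
      have h6 : ∀ y ∈ charField χ, s φ y = y := by
        intro y hy
        unfold StarkP.charField at hy
        induction hy using IntermediateField.adjoin_induction with
        | mem y hy =>
          obtain ⟨g, rfl⟩ := hy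
          exact congrFun h5 g
        | algebraMap q => simp
        | add x y _ _ hx hy => rw [map_add, hx, hy]
        | inv x _ hx => rw [map_inv₀, hx]
        | mul x y _ _ hx hy => rw [map_mul, hx, hy]
      exact h6 _ x.2
  rw [h2, Finset.sum_congr rfl fun φ _ => h3 φ,
    Finset.sum_ite_eq' Finset.univ (ZTNx.rst χ (RingEquiv.refl ℂ)), if_pos (Finset.mem_univ _)]

end RLCx

/-- If `Tr χ` is an integral combination of permutation characters then `χ` is realizable over
`ℚ(χ)`. -/
theorem real_of_perm {G : Type} [Group G] [Fintype G] (χ : G → ℂ) (hχ : IrrCh χ)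
    (h : PermC (trChar χ)) : Realizable χ := by
  obtain ⟨r, H, c, hc⟩ := h
  have h1 : ∀ i, ∃ (d : ℕ) (R : G →* Matrix (Fin d) (Fin d) ℂ),
      (∀ g a b, R g a b ∈ charField χ) ∧ ∀ g, (R g).trace = indFun (H i) (fun _ => 1) g := by
    intro i
    obtain ⟨d, R, hR, htr⟩ := RZI_thm G (H i) 1 (RZMx.mat (1 : H i →* ℂˣ)) (charField χ) (by
      intro x a b
      rw [RZMx.mat_apply]
      exact one_mem _)
    refine ⟨d, R, hR, fun g => ?_⟩
    rw [htr, RZMx.extM_mat]
    unfold indFun extZ
    congr 1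
    refine Finset.sum_congr rfl fun x _ => ?_
    by_cases hx : x⁻¹ * g * x ∈ H i
    · rw [if_pos hx, if_pos hx, dif_pos hx]
      rfl
    · rw [if_neg hx, if_neg hx]
  choose d R hR htr using h1
  refine real_of_comb χ hχ d R c hR ?_
  rw [← RLCx.ip_trChar χ hχ]
  unfold ip
  have h2 : ∀ i, (c i : ℂ) * ∑ g, (R i g).trace * χ g⁻¹ =
      ∑ g, (c i : ℂ) * indFun (H i) (fun _ => 1) g * χ g⁻¹ := fun i => by
    rw [Finset.mul_sum]
    refine Finset.sum_congr rfl fun g _ => ?_
    rw [htr, mul_assoc]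
  rw [Finset.sum_congr rfl fun i _ => h2 i, Finset.sum_comm]
  refine Finset.sum_congr rfl fun g _ => ?_
  rw [← Finset.sum_mul, ← hc g]

end StarkC.ABS
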