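import Pool.Agent.ABS.FING
import Pool.Agent.ABS.FINV
import Pool.Agent.ABS.RLC

/-!
# Project ABS: the class (c)

Irreducible `ρ` with a normal subgroup `U` such that `ρ(U)` is an abelian `ℓ`-group, `ℓ` odd, and the
degree of `ρ` is the index of `U`, prime to `ℓ`; more generally `χ` in the `ℤ`-span of the characters
induced from linear characters of `ℓ`-power order, with `Tr χ` in the `ℤ`-span of the permutation
characters.
-/

set_option autoImplicit false

open NumberField IsDedekindDomain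
open scoped TensorProduct Classical

namespace StarkC.ABS

/-- The group theory of (c). -/
theorem sit_group {G V : Type} [Group G] [Fintype G] [AddCommGroup V] [Module ℂ V]
    [Module.Finite ℂ V] (ρ : Representation ℂ G V) (hirr : ρ.IsIrreducible) (ℓ : ℕ)
    (U : Subgroup G) (hℓ : ℓ.Prime) (h2 : ℓ ≠ 2) (hU : U.Normal)
    (hdim : Module.finrank ℂ V = U.index) (hco : ¬ ℓ ∣ U.index)
    (hcomm : ∀ a ∈ U, ∀ b ∈ U, ρ (a * b) = ρ (b * a))
    (hp : ∀ a ∈ U, ∃ j : ℕ, ρ (a ^ ℓ ^ j) = 1) :
    PermC (StarkP.trChar ρ.character) ∧ ∃ k : ℕ, MonC (ℓ ^ k) ρ.character := by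
  by_cases htriv : ∀ g, ρ g = 1
  · -- the trivial representation
    have hfin : Module.finrank ℂ V = 1 := by
      have h3 : ∀ g, ρ g = LinearMap.id := htriv
      have hab : ∀ a ∈ (⊤ : Subgroup G), ∀ b ∈ (⊤ : Subgroup G), ρ a * ρ b = ρ b * ρ a := by
        intro a _ b _
        rw [htriv a, htriv b]
      by_contra hne
      have hnt : Nontrivial V := Module.nontrivial_of_finrank_pos (R := ℂ) (by
        rw [hdim]
        exact Nat.pos_of_ne_zero U.index_ne_zero_of_finite)
      obtain ⟨v, hv⟩ := exists_ne (0 : V)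
      let W : Subrepresentation ρ := ⟨Submodule.span ℂ {v}, fun g w hw => by
        rw [htriv g]
        exact hw⟩
      rcases hirr.eq_bot_or_eq_top W with h4 | h4
      · have h5 : v ∈ W := Submodule.mem_span_singleton_self v
        rw [h4] at h5
        exact hv h5
      · have h5 : (Submodule.span ℂ {v}) = ⊤ := by
          have := congrArg Subrepresentation.toSubmodule h4
          exact this
        apply hne
        rw [← finrank_top ℂ V, ← h5]
        exact finrank_span_singleton hv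
    have hch : ∀ g, ρ.character g = 1 := by
      intro g
      show LinearMap.trace ℂ V (ρ g) = 1
      rw [htriv g]
      show LinearMap.trace ℂ V LinearMap.id = 1
      rw [LinearMap.trace_id, hfin, Nat.cast_one]
    have hind : ∀ g : G, indFun (⊤ : Subgroup G) (fun _ => 1) g = 1 := by
      intro g
      unfold indFun
      have h0 : (Nat.card (⊤ : Subgroup G) : ℂ) ≠ 0 := by exact_mod_cast Nat.card_pos.ne'
      have h1 : (∑ x : G, if x⁻¹ * g * x ∈ (⊤ : Subgroup G) then (1 : ℂ) else 0) =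
          (Nat.card (⊤ : Subgroup G) : ℂ) := by
        rw [Finset.sum_congr rfl fun x _ => if_pos (Subgroup.mem_top _), Finset.sum_const,
          Finset.card_univ, nsmul_eq_mul, mul_one, Subgroup.card_top, Nat.card_eq_fintype_card]
      rw [h1, div_self h0]
    have htr : ∀ g, StarkP.trChar ρ.character g = 1 := by
      intro g
      have hbot : StarkP.charField ρ.character = ⊥ := by
        unfold StarkP.charField
        rw [IntermediateField.adjoin_eq_bot_iff]
        rintro _ ⟨g, rfl⟩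
        show ρ.character g ∈ (⊥ : IntermediateField ℚ ℂ)
        rw [hch g]
        exact one_mem _
      unfold StarkP.trChar
      have h6 : (⟨ρ.character g, IntermediateField.subset_adjoin ℚ _ (Set.mem_range_self g)⟩ :
          StarkP.charField ρ.character) = 1 := Subtype.ext (hch g)
      have h7 : Module.finrank ℚ (StarkP.charField ρ.character) = 1 :=
        IntermediateField.finrank_eq_one_iff.2 hbot
      rw [h6, ← map_one (algebraMap ℚ (StarkP.charField ρ.character)), Algebra.trace_algebraMap,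
        h7, one_smul, Rat.cast_one]
    have hpow : (1 : (⊤ : Subgroup G) →* ℂˣ) ^ (ℓ ^ 0) = 1 := by
      refine MonoidHom.ext fun x => ?_
      rw [MonoidHom.pow_apply, MonoidHom.one_apply, one_pow]
    refine ⟨⟨1, fun _ => ⊤, fun _ => 1, fun g => ?_⟩, 0, 1, fun _ => ⊤, fun _ => 1, fun _ => 1,
      fun _ => hpow, fun g => ?_⟩
    · rw [htr g, Fin.sum_univ_one, Int.cast_one, one_mul]
      exact (hind g).symm
    · rw [hch g, Fin.sum_univ_one, Int.cast_one, one_mul]
      rw [← hind g]
      unfold indFun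
      congr 1
      refine Finset.sum_congr rfl fun x _ => ?_
      rw [if_pos (Subgroup.mem_top _), if_pos (Subgroup.mem_top _)]
      have h8 : extZ (1 : (⊤ : Subgroup G) →* ℂˣ) (x⁻¹ * g * x) = 1 := by
        unfold extZ
        rw [dif_pos (Subgroup.mem_top _)]
        simp
      exact h8.symm
  · obtain ⟨h3, k, -, h4⟩ := FINGx.fga G V ρ ℓ U
      ⟨hℓ, h2, hirr, htriv, hU, hdim, hco, fun a ha b hb => by
        rw [← map_mul, ← map_mul]
        exact hcomm a ha b hb, hp⟩
    exact ⟨h3, k, h4⟩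

section

variable {K L : Type} [Field K] [NumberField K] [Field L] [NumberField L] [Algebra K L]
  [IsGalois K L] (S : Finset (HeightOneSpectrum (𝓞 K)))
  (Θ : ((L → ℝ) →₀ ℂ) →ₗ[ℂ] ((L → ℝ) →₀ ℂ))

/-- Stark in norm for `χ` in the `ℤ`-span of the characters induced from linear characters of
`ℓ`-power order, `ℓ` odd, with `Tr χ` in the `ℤ`-span of the permutation characters. -/
theorem norm_of_span (hΘ : StarkP.IsTheta K (StarkP.aboveSet K L S) Θ)
    (χ : (L ≃ₐ[K] L) → ℂ) (ℓ k : ℕ) (hℓ : ℓ.Prime) (h2 : ℓ ≠ 2)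
    (hP : PermC (StarkP.trChar χ)) (hM : MonC (ℓ ^ k) χ) :
    StarkP.NormIn (StarkP.charField χ) χ (S : Set (HeightOneSpectrum (𝓞 K))) Θ := by
  refine FINGx.crit K L χ ℓ k 1 S Θ hΘ hℓ h2 one_pos (Nat.coprime_one_left _) hP ?_
  obtain ⟨r, H, ψ, c, hψ, hc⟩ := hM
  exact ⟨r, H, ψ, c, hψ, fun g => by
    show ((1 : ℕ) : ℂ) * χ g = _
    rw [Nat.cast_one, one_mul, hc g]⟩

/-- The class (c): Stark in norm, and realizability. -/
theorem sit_good (hΘ : StarkP.IsTheta K (StarkP.aboveSet K L S) Θ)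
    (V : Type) [AddCommGroup V] [Module ℂ V] [Module.Finite ℂ V]
    (ρ : Representation ℂ (L ≃ₐ[K] L) V) (hirr : ρ.IsIrreducible) (ℓ : ℕ)
    (U : Subgroup (L ≃ₐ[K] L)) (hℓ : ℓ.Prime) (h2 : ℓ ≠ 2) (hU : U.Normal)
    (hdim : Module.finrank ℂ V = U.index) (hco : ¬ ℓ ∣ U.index)
    (hcomm : ∀ a ∈ U, ∀ b ∈ U, ρ (a * b) = ρ (b * a))
    (hp : ∀ a ∈ U, ∃ j : ℕ, ρ (a ^ ℓ ^ j) = 1) :
    StarkP.NormIn (StarkP.charField ρ.character) ρ.character
      (S : Set (HeightOneSpectrum (𝓞 K))) Θ ∧ StarkP.Realizable ρ.character := by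
  obtain ⟨h3, k, h4⟩ := sit_group ρ hirr ℓ U hℓ h2 hU hdim hco hcomm hp
  exact ⟨norm_of_span S Θ hΘ _ ℓ k hℓ h2 h3 h4,
    real_of_perm _ ⟨V, inferInstance, inferInstance, inferInstance, ρ, hirr, rfl⟩ h3⟩

end

end StarkC.ABS
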