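import Pool.Agent.ABS.StN3
import Pool.Agent.ABS.NAS

/-!
# Project ABS, part N2: the assembly (nilpotent image and `i ∈ ℚ(χ)`)
-/

set_option autoImplicit false

open NumberField IsDedekindDomain
open scoped TensorProduct Classical

namespace StarkC.ABS

open StarkP (rootField charField trChar NormIn AbsIn IsTheta)

namespace MASx

/-- an automorphism of `ℂ` which fixes the values fixes the field of values -/
theorem fix_of {G : Type} (χ : G → ℂ) (σ : ℂ ≃+* ℂ) (h : ∀ g, σ (χ g) = χ g) (z : ℂ)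
    (hz : z ∈ charField χ) : σ z = z := by
  refine IntermediateField.adjoin_induction ℚ (p := fun z _ => σ z = z) ?_ ?_ ?_ ?_ ?_ hz
  · rintro _ ⟨g, rfl⟩
    exact h g
  · intro x
    exact map_ratCast σ x
  · intro x y _ _ hx hy
    rw [map_add, hx, hy]
  · intro x _ hx
    rw [map_inv₀, hx]
  · intro x y _ _ hx hy
    rw [map_mul, hx, hy]

end MASx

open NASx in
/-- **MAS**: theorem (N2). -/
theorem MAS_thm : ConclMFX → Stmt_NPR → Stmt_CFR → Stmt_SIGT → Stmt_TRT → Stmt_TRX → ConclPPP →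
    ConclNIN → Stmt_NQF → Stmt_NRE → ConclFAB →
  ∀ (K L : Type) [Field K] [NumberField K] [Field L] [NumberField L] [Algebra K L] [IsGalois K L]
    (S : Finset (HeightOneSpectrum (𝓞 K))) (Θ : ((L → ℝ) →₀ ℂ) →ₗ[ℂ] ((L → ℝ) →₀ ℂ)),
    IsTheta K (StarkP.aboveSet K L S) Θ →
    ∀ (V : Type) [AddCommGroup V] [Module ℂ V] [Module.Finite ℂ V]
      (ρ : Representation ℂ (L ≃ₐ[K] L) V), ρ.IsIrreducible →
      Group.IsNilpotent ((L ≃ₐ[K] L) ⧸ MonoidHom.ker ρ) →
      Complex.I ∈ charField ρ.character →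
      (∀ E : IntermediateField ℚ ℂ, E ≤ charField ρ.character → IsCyclic (E ≃ₐ[ℚ] E) →
        NormIn E ρ.character (S : Set (HeightOneSpectrum (𝓞 K))) Θ) ∧
      (∀ q : ℕ, IsPrimePow q → charField ρ.character = rootField q →
        NormIn (charField ρ.character) ρ.character (S : Set (HeightOneSpectrum (𝓞 K))) Θ) ∧
      (Module.finrank ℚ (charField ρ.character) = 2 →
        AbsIn ρ.character (S : Set (HeightOneSpectrum (𝓞 K))) Θ) := by
  intro hMFX hNPR hCFR hSIGT hTRT hTRX hP hNIN hNQF hNRE hFAB K L _ _ _ _ _ _ S Θ hΘ V _ _ _ ρ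
    hirr hnil hI
  have hNIm : NIm2 ρ := by
    refine ⟨?_, fun σ hσ => MASx.fix_of _ σ hσ _ hI⟩
    obtain ⟨n, hn⟩ := Subgroup.nilpotent_iff_lowerCentralSeries.1 hnil
    refine ⟨n, fun g hg => ?_⟩
    have h1 : QuotientGroup.mk' (MonoidHom.ker ρ) g ∈
        ((⊤ : Subgroup (L ≃ₐ[K] L)).lowerCentralSeries n).map
          (QuotientGroup.mk' (MonoidHom.ker ρ)) :=
      Subgroup.mem_map_of_mem _ hg
    rw [Subgroup.map_lowerCentralSeries, Subgroup.map_top_of_surjective _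
      (QuotientGroup.mk'_surjective _), hn, Subgroup.mem_bot] at h1
    exact (QuotientGroup.eq_one_iff g).1 h1
  obtain ⟨H, ψ, ho, hχ, hfix, hconj⟩ := hMFX (L ≃ₐ[K] L) V ρ (RESFx.irr_of ρ hirr) hNIm
  obtain ⟨φ, Θ₀, hφ, hreg⟩ := StarkB.exists_isPhiTheta (K := K) (L := L)
    (S : Set (HeightOneSpectrum (𝓞 K))) S.finite_toSet Θ hΘ
  have hCF : charField ρ.character = Cyc (orderOf ψ) := hCFR _ _ _ hfix
  have htr : ∀ g, trChar ρ.character g =
      ∑ t ∈ Ex (orderOf ψ), indFun H (extZ (ψ ^ t)) g :=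
    hTRX hSIGT hTRT _ _ _ (fun t g => indFun H (extZ (ψ ^ t)) g) ho hCF
      fun t _ σ hσ g => hconj σ t hσ g
  have ha : ∀ E : IntermediateField ℚ ℂ, E ≤ charField ρ.character → IsCyclic (E ≃ₐ[ℚ] E) →
      NormIn E ρ.character (S : Set (HeightOneSpectrum (𝓞 K))) Θ := by
    intro E hE hcyc
    have hE' : E ≤ rootField (orderOf ψ) := by
      rw [hCF] at hE
      exact hE
    refine normIn_of_PE S Θ φ Θ₀ hφ hreg _ E (hP K L S φ Θ₀ (orderOf ψ) E 1 (fun _ => H)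
      (fun _ => ψ) (fun _ => 1) _ hφ ho hE' hcyc (fun i => ?_) (fun g => ?_))
    · rw [inf_eq_left.2 hE', one_mul]
    · rw [htr g]
      simp
  refine ⟨ha, fun q hq hCq => ?_, fun h2 => ?_⟩
  · rcases Nat.lt_or_ge q 3 with hq3 | hq3
    · have hq2 : q = 2 := by
        have := hq.two_le
        omega
      subst hq2
      refine ha _ le_rfl (cyc_of (n := 2) (by norm_num) _ hCq.le (Or.inl ?_))
      rw [hCq, SYMx.rootField_two, IntermediateField.finrank_bot]
    · obtain ⟨ℓ, k, m, hOk, hm, hcop, hord, hqq⟩ := hNQF q (orderOf ψ) hq hq3 ho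
        (hCF.symm.trans hCq)
      have hPT : PT (ℓ ^ k) (trChar ρ.character) S Θ₀ :=
        hNIN K L S φ Θ₀ H ψ ℓ k m _ hφ hOk hm hcop hord htr
      refine RESFx.normIn_of S Θ φ Θ₀ hφ hreg (ℓ ^ k) _ hPT _ ?_
      rw [hCq, hqq]
      rfl
  · have hcyc := cyc_of ho (charField ρ.character) hCF.le (Or.inr h2)
    refine hFAB K L ρ.character (orderOf ψ) 1 S Θ hΘ ho one_pos
      ⟨1, fun _ => H, fun _ => ψ, fun _ => 1, fun _ => pow_orderOf_eq_one ψ, fun g => ?_⟩ h2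
      (hNRE _ _ _ ho hCF h2) (ha _ le_rfl hcyc)
    rw [hχ]
    simp

end StarkC.ABS
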