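import Pool.Agent.ABS.StZI
import Pool.Agent.ABS.MAS

/-!
# Project ABS, part Z: the end for a leaf
-/

set_option autoImplicit false

open NumberField IsDedekindDomain
open scoped TensorProduct Classical

namespace StarkC.ABS

open StarkC.MON
open StarkP (rootField charField trChar NormIn AbsIn IsTheta)

namespace ZENx

theorem mod_four {n s : ℕ} (h : TT n s) : s % 4 = 3 := by
  obtain ⟨hn, h⟩ := h
  have h4 : 4 ∣ 2 ^ n := by
    have := pow_dvd_pow 2 hn
    simpa using this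
  have h5 : 4 ∣ s + 1 := by
    rcases h with h | ⟨hn3, h⟩
    · exact h4.trans (Nat.dvd_of_mod_eq_zero h)
    · have h6 : 4 ∣ 2 ^ (n - 1) := by
        have := pow_dvd_pow 2 (show 2 ≤ n - 1 by omega)
        simpa using this
      rw [← h] at h6
      exact (Nat.dvd_mod_iff h4).1 h6
  omega

theorem arith {n m s : ℕ} (h : TT n s) (hm : Odd m) (h1 : s % m = 1 % m) :
    (2 ^ n * m).Coprime s ∧ s * s % (2 ^ n * m) = 1 % (2 ^ n * m) ∧
      s % (2 ^ n * m) ≠ 1 % (2 ^ n * m) := by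
  have h4 := mod_four h
  have hodd : Odd s := by
    rw [Nat.odd_iff]
    omega
  have hcm : m.Coprime s := by
    have h2 : Nat.gcd s m = Nat.gcd 1 m := Nat.ModEq.gcd_eq h1
    rw [Nat.gcd_one_left] at h2
    exact Nat.Coprime.symm h2
  have hc2 : (2 ^ n).Coprime s := Nat.Coprime.pow_left n (Nat.coprime_two_left.2 hodd)
  have hc : (2 ^ n).Coprime m := Nat.Coprime.pow_left n (Nat.coprime_two_left.2 hm)
  refine ⟨Nat.Coprime.mul_left hc2 hcm, ?_, ?_⟩
  · refine (Nat.modEq_and_modEq_iff_modEq_mul hc).1 ⟨?_, ?_⟩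
    · rw [Nat.modEq_iff_dvd]
      obtain ⟨hn, h⟩ := h
      rcases h with h | ⟨hn3, h⟩
      · have h5 : ((2 ^ n : ℕ) : ℤ) ∣ ((s + 1 : ℕ) : ℤ) :=
          Int.natCast_dvd_natCast.2 (Nat.dvd_of_mod_eq_zero h)
        refine (h5.mul_left (1 - (s : ℤ))).trans (dvd_of_eq ?_)
        push_cast
        ring
      · obtain ⟨k, rfl⟩ : ∃ k, n = k + 3 := ⟨n - 3, by omega⟩
        have h6 := Nat.div_add_mod (s + 1) (2 ^ (k + 3))
        rw [h] at h6
        have e1 : k + 3 - 1 = k + 2 := rfl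
        rw [e1] at h6
        generalize (s + 1) / 2 ^ (k + 3) = q at h6
        have h7 : (s : ℤ) = 2 ^ (k + 3) * q + 2 ^ (k + 2) - 1 := by
          have : ((2 ^ (k + 3) * q + 2 ^ (k + 2) : ℕ) : ℤ) = ((s + 1 : ℕ) : ℤ) := by rw [h6]
          push_cast at this
          linarith
        refine ⟨-((2 * q + 1) * (2 ^ (k + 1) * (2 * q + 1) - 1)), ?_⟩
        push_cast
        rw [h7]
        ring
    · have h5 : s ≡ 1 [MOD m] := h1
      have h6 := h5.mul h5
      simpa using h6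
  · intro h5
    have h6 : s ≡ 1 [MOD 2 ^ n * m] := h5
    have h7 : 4 ∣ 2 ^ n * m := by
      have := pow_dvd_pow 2 h.1
      exact Dvd.dvd.mul_right (by simpa using this) m
    have h8 : s ≡ 1 [MOD 4] := h6.of_dvd h7
    have h9 : s % 4 = 1 % 4 := h8
    omega

theorem root_mono {a b : ℕ} (h : a ∣ b) : rootField a ≤ rootField b := by
  unfold StarkP.rootField
  refine IntermediateField.adjoin.mono ℚ _ _ fun z hz => ?_
  obtain ⟨c, rfl⟩ := h
  have hz' : z ^ a = 1 := hz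
  show z ^ (a * c) = 1
  rw [pow_mul, hz', one_pow]

theorem cyc (ℓ k : ℕ) (hℓ : ℓ.Prime) (h2 : ℓ ≠ 2) (F : IntermediateField ℚ ℂ)
    (hF : F ≤ rootField (ℓ ^ k)) (hG : IsGalois ℚ F) : IsCyclic (F ≃ₐ[ℚ] F) := by
  have hn : 0 < ℓ ^ k := pow_pos hℓ.pos k
  have : NeZero (ℓ ^ k) := ⟨hn.ne'⟩
  have h1 : IsCyclotomicExtension {ℓ ^ k} ℚ (rootField (ℓ ^ k)) := rootField_cyc _
  have h3 : IsGalois ℚ (rootField (ℓ ^ k)) := IsCyclotomicExtension.isGalois {ℓ ^ k} ℚ _
  have h4 : IsCyclic (ZMod (ℓ ^ k))ˣ := ZMod.isCyclic_units_of_prime_pow ℓ hℓ h2 k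
  let e := IsCyclotomicExtension.autEquivPow (rootField (ℓ ^ k))
    (Polynomial.cyclotomic.irreducible_rat hn)
  have h5 : IsCyclic (rootField (ℓ ^ k) ≃ₐ[ℚ] rootField (ℓ ^ k)) :=
    isCyclic_of_surjective e.symm e.symm.surjective
  let : Algebra F (rootField (ℓ ^ k)) := (IntermediateField.inclusion hF).toRingHom.toAlgebra
  have : IsScalarTower ℚ F (rootField (ℓ ^ k)) :=
    IsScalarTower.of_algebraMap_eq fun x => ((IntermediateField.inclusion hF).commutes x).symm
  exact isCyclic_of_surjective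
    (AlgEquiv.restrictNormalHom F : (rootField (ℓ ^ k) ≃ₐ[ℚ] rootField (ℓ ^ k)) →* (F ≃ₐ[ℚ] F))
    (AlgEquiv.restrictNormalHom_surjective _)

theorem fin_of {o : ℕ} (ho : 0 < o) (E : IntermediateField ℚ ℂ) (h : E ≤ rootField o) :
    FiniteDimensional ℚ E := by
  have : NeZero o := ⟨ho.ne'⟩
  have h1 := rootField_cyc o
  have h2 : FiniteDimensional ℚ (rootField o) :=
    IsCyclotomicExtension.finiteDimensional {o} ℚ (rootField o)
  exact Module.Finite.of_injective (IntermediateField.inclusion h).toLinearMap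
    (IntermediateField.inclusion h).injective

end ZENx

open ZENx in
/-- **ZEN**: the end for a leaf. -/
theorem ZEN_thm : Stmt_ZEN := by
  intro hSIGT hTRT hZFX hZTR hZFD hZIM hL hZVA K L _ _ _ _ _ _ S Θ V _ _ _ ρ A ψ g n m s hΘ hLf
    hχ hσ
  obtain ⟨hcop, hss, hne⟩ := arith hLf.tt hLf.odd hLf.one
  have hm0 : 0 < m := hLf.odd.pos
  have ho : 0 < 2 ^ n * m := Nat.mul_pos (by positivity) hm0
  have hσ' := hσ
  rw [hχ] at hσ'
  obtain ⟨hiff, hconj⟩ := hZFX _ A ψ g n m s hLf hσ'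
  obtain ⟨hF, htr⟩ := hZTR hSIGT hTRT _ ρ.character (fun j x => indFun A (extZ (ψ ^ j)) x)
    (2 ^ n * m) s ho hcop hss hne (by rw [hχ]; exact hiff)
    (fun j _ σ h x => by rw [hχ]; exact hconj σ j h x)
  have htr' : trChar ρ.character = hTr A ψ (2 ^ n * m) := by
    funext x
    unfold hTr
    rw [eq_div_iff two_ne_zero, mul_comm]
    exact htr x
  obtain ⟨φ, Θ₀, hφ, hreg⟩ := StarkB.exists_isPhiTheta (K := K) (L := L)
    (S : Set (HeightOneSpectrum (𝓞 K))) S.finite_toSet Θ hΘ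
  obtain ⟨a, ha0, ⟨F0, hF0, hR⟩, h2m, hCS⟩ := hZVA K L S φ Θ₀ A ψ g n m s hφ hLf
  have hfix : ∀ σ : ℂ ≃+* ℂ, (∀ z : ℂ, z ^ (2 ^ n * m) = 1 → σ z = z ^ s) →
      ∀ x ∈ charField ρ.character, σ x = x := fun σ h x hx =>
    MASx.fix_of _ σ (by rw [hχ]; exact (hiff σ).2 (Or.inr h)) x hx
  obtain ⟨hn2, hI, hm1⟩ := hZFD hSIGT n m s (charField ρ.character) hLf.tt hLf.odd hLf.one hF hfix
  have hnorm : ∀ E : IntermediateField ℚ ℂ, E ≤ charField ρ.character →
      IsCyclic (E ≃ₐ[ℚ] E) → ∃ β : E, Algebra.norm ℚ β = a := by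
    intro E hE hcyc
    have hEo : E ≤ rootField (2 ^ n * m) := hE.trans hF
    have hG : IsGalois ℚ E := galois_of_le _ ho E hEo
    rcases Nat.lt_or_ge n 3 with hn | hn
    · have h2 : n = 2 := by
        have := hLf.tt.1
        omega
      exact h2m E (hE.trans (hn2 h2)) hG hcyc
    · refine hL n m s a E hLf.tt hLf.odd hLf.one (hCS hn) ?_ hEo hG hcyc
        (fun σ h x hx => hfix σ h x (hE hx))
      intro p k hp hk hpk _
      have hp2 : p ≠ 2 := by
        rintro rfl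
        have h3 : 2 ∣ m := (dvd_pow_self 2 hk.ne').trans hpk
        have h4 := hLf.odd
        rw [Nat.odd_iff] at h4
        omega
      have hG' : IsGalois ℚ (rootField (p ^ k)) :=
        galois_of_le (p ^ k) (pow_pos hp.pos k) _ le_rfl
      exact h2m (rootField (p ^ k)) (root_mono (hpk.trans (Dvd.intro_left 2 rfl))) hG'
        (cyc p k hp hp2 _ le_rfl hG')
  have key : ∀ E : IntermediateField ℚ ℂ, E ≤ charField ρ.character → IsCyclic (E ≃ₐ[ℚ] E) →
      NormIn E ρ.character (S : Set (HeightOneSpectrum (𝓞 K))) Θ := by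
    intro E hE hcyc
    obtain ⟨β, hβ⟩ := hnorm E hE hcyc
    have hfd : FiniteDimensional ℚ E := fin_of ho E (hE.trans hF)
    refine NASx.normIn_of_PE S Θ φ Θ₀ hφ hreg _ E ⟨F0, β, ?_, ?_, ?_⟩
    · rw [htr']
      exact hF0
    · rintro rfl
      rw [Algebra.norm_zero] at hβ
      exact ha0 hβ.symm
    · intro V' _ _ _ ρ' h
      rw [hβ]
      exact hR V' ρ' fun x => by rw [h x, htr']
  refine ⟨key, fun q hq hCq => ?_, fun hj => ?_⟩
  · obtain ⟨p, k, hp, hk, rfl⟩ := (isPrimePow_nat_iff q).1 hq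
    have hG : IsGalois ℚ (charField ρ.character) := galois_of_le _ ho _ hF
    by_cases hp2 : p = 2
    · subst hp2
      rcases Nat.lt_or_ge k 2 with hk2 | hk2
      · have hk1 : k = 1 := by omega
        subst hk1
        rw [pow_one] at hCq
        refine key _ le_rfl (NASx.cyc_of (n := 2) (by norm_num) _ hCq.le (Or.inl ?_))
        rw [hCq, SYMx.rootField_two, IntermediateField.finrank_bot]
      · exfalso
        apply hI
        rw [hCq]
        refine IntermediateField.subset_adjoin ℚ _ ?_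
        show Complex.I ^ 2 ^ k = 1
        obtain ⟨j, rfl⟩ : ∃ j, k = j + 2 := ⟨k - 2, by omega⟩
        rw [pow_add, mul_comm, pow_mul]
        norm_num
    · exact key _ le_rfl (cyc p k hp hp2 _ hCq.le hG)
  · have hm : m = 1 := (hZIM _ V ρ hj).2 A ψ g n m s hLf hχ
    exact key _ le_rfl (hm1 hm).2

end StarkC.ABS
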