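import Pool.Agent.ABS.FINC
import Pool.Agent.ABS.ZEN
import Pool.Agent.ABS.NQF
import Pool.Agent.ABS.WCP

/-!
# Project ABS: the class (c), linear characters of order dividing `2 ℓ^k`
-/

set_option autoImplicit false

open NumberField IsDedekindDomain
open scoped TensorProduct Classical

namespace StarkC.ABS

open StarkP (rootField charField)

namespace FINC2x

/-- In a finite cyclic group, an element with `a^f = 1` is in every subgroup of order `f`. -/
theorem mem_of_pow {A : Type} [Group A] [Finite A] [IsCyclic A] (H : Subgroup A) (f : ℕ)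
    (hf : Nat.card H = f) (a : A) (ha : a ^ f = 1) : a ∈ H := by
  have : Fintype A := Fintype.ofFinite A
  have hf0 : 0 < f := by
    rw [← hf]
    exact Nat.card_pos
  have h1 := IsCyclic.card_pow_eq_one_le (α := A) hf0
  have h2 : (Finset.univ.filter fun x : A => x ∈ H) ⊆ Finset.univ.filter fun x : A => x ^ f = 1 := by
    intro x hx
    rw [Finset.mem_filter] at hx ⊢
    refine ⟨Finset.mem_univ _, ?_⟩
    have h3 : (⟨x, hx.2⟩ : H) ^ f = 1 := by
      rw [← hf]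
      exact pow_card_eq_one'
    exact congrArg Subtype.val h3
  have h3 : (Finset.univ.filter fun x : A => x ∈ H).card = f := by
    rw [← hf, Nat.card_eq_fintype_card, Fintype.card_subtype]
  have h4 := Finset.eq_of_subset_of_card_le h2 (by
    rw [h3]
    exact h1)
  have h5 : a ∈ Finset.univ.filter fun x : A => x ^ f = 1 :=
    Finset.mem_filter.2 ⟨Finset.mem_univ _, ha⟩
  rw [← h4] at h5
  exact (Finset.mem_filter.1 h5).2

/-- `ℚ(ζ_(2 ℓ^k)) = ℚ(ζ_(ℓ^k))`. -/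
theorem root_two (ℓ k : ℕ) (hℓ : ℓ.Prime) (h2 : ℓ ≠ 2) :
    rootField (2 * ℓ ^ k) ≤ rootField (ℓ ^ k) := by
  unfold StarkP.rootField
  rw [IntermediateField.adjoin_le_iff]
  intro z hz
  have hz' : z ^ (2 * ℓ ^ k) = 1 := hz
  have h3 : (z ^ ℓ ^ k) ^ 2 = 1 := by rw [← pow_mul, mul_comm, hz']
  have hodd : Odd (ℓ ^ k) := (hℓ.odd_of_ne_two h2).pow
  have h3' : z ^ ℓ ^ k = 1 ∨ z ^ ℓ ^ k = -1 := by
    have h8 : (z ^ ℓ ^ k - 1) * (z ^ ℓ ^ k + 1) = 0 := by linear_combination h3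
    rcases mul_eq_zero.1 h8 with h9 | h9
    · exact Or.inl (sub_eq_zero.1 h9)
    · exact Or.inr (eq_neg_of_add_eq_zero_left h9)
  rcases h3' with h4 | h4
  · exact IntermediateField.subset_adjoin ℚ _ h4
  · have h5 : (-z) ^ ℓ ^ k = 1 := by rw [hodd.neg_pow, h4, neg_neg]
    have h6 : -z ∈ IntermediateField.adjoin ℚ {z : ℂ | z ^ ℓ ^ k = 1} :=
      IntermediateField.subset_adjoin ℚ _ h5
    have h7 := neg_mem h6
    rwa [neg_neg] at h7

/-- The condition of (G*) for `n = 2 ℓ^k`. -/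
theorem cond_two (ℓ k : ℕ) (hℓ : ℓ.Prime) (h2 : ℓ ≠ 2) (E : IntermediateField ℚ ℂ)
    (hE : E ≤ rootField (2 * ℓ ^ k)) (σ : ℂ ≃+* ℂ)
    (hσ : ∀ z : ℂ, z ^ (2 * ℓ ^ k) = 1 →
      (σ ^ (1 * ((2 * ℓ ^ k).totient / Module.finrank ℚ E))) z = z) :
    ∀ x ∈ E, σ x = x := by
  have hn : 0 < ℓ ^ k := pow_pos hℓ.pos k
  have hEM : E ≤ rootField (ℓ ^ k) := hE.trans (root_two ℓ k hℓ h2)
  have hMG : IsGalois ℚ (rootField (ℓ ^ k)) := galois_of_le _ hn _ le_rfl
  have hEG : IsGalois ℚ E := galois_of_le _ hn _ hEM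
  have hMf : FiniteDimensional ℚ (rootField (ℓ ^ k)) := ZENx.fin_of hn _ le_rfl
  have hEf : FiniteDimensional ℚ E := ZENx.fin_of hn _ hEM
  have hcyc : IsCyclic (rootField (ℓ ^ k) ≃ₐ[ℚ] rootField (ℓ ^ k)) :=
    ZENx.cyc ℓ k hℓ h2 _ le_rfl hMG
  let : Algebra E (rootField (ℓ ^ k)) := (IntermediateField.inclusion hEM).toRingHom.toAlgebra
  have : IsScalarTower ℚ E (rootField (ℓ ^ k)) :=
    IsScalarTower.of_algebraMap_eq fun x => ((IntermediateField.inclusion hEM).commutes x).symm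
  let res : (rootField (ℓ ^ k) ≃ₐ[ℚ] rootField (ℓ ^ k)) →* (E ≃ₐ[ℚ] E) :=
    AlgEquiv.restrictNormalHom E
  have hsurj : Function.Surjective res := AlgEquiv.restrictNormalHom_surjective _
  have htot : (2 * ℓ ^ k).totient = (ℓ ^ k).totient := by
    rw [Nat.totient_mul (Nat.Coprime.pow_right k ((Nat.coprime_primes Nat.prime_two hℓ).2
      (Ne.symm h2))), Nat.totient_two, one_mul]
  have hfr : Module.finrank ℚ (rootField (ℓ ^ k)) = (ℓ ^ k).totient := NQFx.finrank_root _ hn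
  have hcard : Nat.card res.ker = (2 * ℓ ^ k).totient / Module.finrank ℚ E := by
    have h3 := res.ker.card_mul_index
    rw [Subgroup.index_ker, MonoidHom.range_eq_top.2 hsurj, Subgroup.card_top,
      IsGalois.card_aut_eq_finrank, IsGalois.card_aut_eq_finrank, hfr, ← htot] at h3
    rw [← h3, Nat.mul_div_cancel _ Module.finrank_pos]
  let τ : rootField (ℓ ^ k) ≃ₐ[ℚ] rootField (ℓ ^ k) :=
    AlgEquiv.restrictNormalHom (rootField (ℓ ^ k)) (WCPx.al σ)
  have hres : ∀ (ρ : ℂ ≃ₐ[ℚ] ℂ) (x : rootField (ℓ ^ k)),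
      ((AlgEquiv.restrictNormalHom (rootField (ℓ ^ k)) ρ x : rootField (ℓ ^ k)) : ℂ) = ρ x :=
    fun ρ x => AlgEquiv.restrictNormal_commutes ρ (rootField (ℓ ^ k)) x
  have hτ : τ ^ ((2 * ℓ ^ k).totient / Module.finrank ℚ E) = 1 := by
    rw [← map_pow]
    apply AlgEquiv.ext
    intro x
    apply Subtype.ext
    rw [hres, WCPx.al_pow]
    refine WCPx.fix_root (n := 2 * ℓ ^ k) ?_ x ?_
    · intro z hz
      have := hσ z hz
      rwa [one_mul] at this
    · have h4 : rootField (ℓ ^ k) ≤ rootField (2 * ℓ ^ k) := by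
        unfold StarkP.rootField
        refine IntermediateField.adjoin.mono _ _ _ fun z hz => ?_
        show z ^ (2 * ℓ ^ k) = 1
        rw [mul_comm, pow_mul, show z ^ ℓ ^ k = 1 from hz, one_pow]
      exact h4 x.2
  have hmem : τ ∈ res.ker := mem_of_pow _ _ hcard τ hτ
  intro x hx
  have h5 : res τ = 1 := hmem
  have h6 : ((IntermediateField.inclusion hEM (res τ ⟨x, hx⟩) : rootField (ℓ ^ k)) : ℂ) =
      ((τ (IntermediateField.inclusion hEM ⟨x, hx⟩) : rootField (ℓ ^ k)) : ℂ) :=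
    congrArg Subtype.val (AlgEquiv.restrictNormal_commutes τ E ⟨x, hx⟩)
  rw [h5, hres] at h6
  exact h6.symm

end FINC2x

section

variable {K L : Type} [Field K] [NumberField K] [Field L] [NumberField L] [Algebra K L]
  [IsGalois K L] (S : Finset (HeightOneSpectrum (𝓞 K)))
  (Θ : ((L → ℝ) →₀ ℂ) →ₗ[ℂ] ((L → ℝ) →₀ ℂ))

/-- Stark in norm for `χ` in the `ℤ`-span of the characters induced from linear characters `ψ`,
`ψ^(2 ℓ^k) = 1`, `ℓ` odd, with `Tr χ` in the `ℤ`-span of the permutation characters. -/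
theorem norm_of_span2 (hΘ : StarkP.IsTheta K (StarkP.aboveSet K L S) Θ)
    (χ : (L ≃ₐ[K] L) → ℂ) (ℓ k : ℕ) (hℓ : ℓ.Prime) (h2 : ℓ ≠ 2)
    (hP : PermC (StarkP.trChar χ)) (hM : MonC (2 * ℓ ^ k) χ) :
    StarkP.NormIn (StarkP.charField χ) χ (S : Set (HeightOneSpectrum (𝓞 K))) Θ := by
  have hn : 0 < 2 * ℓ ^ k := Nat.mul_pos two_pos (pow_pos hℓ.pos k)
  have hle := charField_le_of_monC χ (2 * ℓ ^ k) hn hM
  have hle' : charField χ ≤ rootField (ℓ ^ k) := hle.trans (FINC2x.root_two ℓ k hℓ h2)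
  have hcyc := ZENx.cyc ℓ k hℓ h2 _ hle' (galois_of_le _ (pow_pos hℓ.pos k) _ hle')
  refine FINVx.crit K L χ (2 * ℓ ^ k) 1 _ S Θ hΘ hn one_pos hP ?_ hle hcyc
    fun σ hσ => FINC2x.cond_two ℓ k hℓ h2 _ hle σ hσ
  obtain ⟨r, H, ψ, c, hψ, hc⟩ := hM
  exact ⟨r, H, ψ, c, hψ, fun g => by
    show ((1 : ℕ) : ℂ) * χ g = _
    rw [Nat.cast_one, one_mul, hc g]⟩

end

end StarkC.ABS
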