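import Pool.Agent.ABS.FINC2

/-!
# Project ABS: linear characters of order dividing `n`, with `(ℤ/n)ˣ` cyclic (helper63)
-/

set_option autoImplicit false

open NumberField IsDedekindDomain
open scoped TensorProduct Classical

namespace StarkC.ABS

open StarkP (rootField charField)

namespace FINCNx

/-- Subfields of `ℚ(ζ_n)`, `(ℤ/n)ˣ` cyclic, are cyclic. -/
theorem cyc (n : ℕ) (hn : 0 < n) (hc : IsCyclic (ZMod n)ˣ) (F : IntermediateField ℚ ℂ)
    (hF : F ≤ rootField n) (hG : IsGalois ℚ F) : IsCyclic (F ≃ₐ[ℚ] F) := by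
  have : NeZero n := ⟨hn.ne'⟩
  have h1 : IsCyclotomicExtension {n} ℚ (rootField n) := rootField_cyc _
  have h3 : IsGalois ℚ (rootField n) := IsCyclotomicExtension.isGalois {n} ℚ _
  let e := IsCyclotomicExtension.autEquivPow (rootField n)
    (Polynomial.cyclotomic.irreducible_rat hn)
  have h5 : IsCyclic (rootField n ≃ₐ[ℚ] rootField n) :=
    isCyclic_of_surjective e.symm e.symm.surjective
  let : Algebra F (rootField n) := (IntermediateField.inclusion hF).toRingHom.toAlgebra
  have : IsScalarTower ℚ F (rootField n) :=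
    IsScalarTower.of_algebraMap_eq fun x => ((IntermediateField.inclusion hF).commutes x).symm
  exact isCyclic_of_surjective
    (AlgEquiv.restrictNormalHom F : (rootField n ≃ₐ[ℚ] rootField n) →* (F ≃ₐ[ℚ] F))
    (AlgEquiv.restrictNormalHom_surjective _)

/-- The condition of (G*) for `(ℤ/n)ˣ` cyclic. -/
theorem cond (n : ℕ) (hn : 0 < n) (hc : IsCyclic (ZMod n)ˣ) (E : IntermediateField ℚ ℂ)
    (hE : E ≤ rootField n) (σ : ℂ ≃+* ℂ)
    (hσ : ∀ z : ℂ, z ^ n = 1 → (σ ^ (1 * (n.totient / Module.finrank ℚ E))) z = z) :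
    ∀ x ∈ E, σ x = x := by
  have hMG : IsGalois ℚ (rootField n) := galois_of_le _ hn _ le_rfl
  have hEG : IsGalois ℚ E := galois_of_le _ hn _ hE
  have hMf : FiniteDimensional ℚ (rootField n) := ZENx.fin_of hn _ le_rfl
  have hEf : FiniteDimensional ℚ E := ZENx.fin_of hn _ hE
  have hcyc : IsCyclic (rootField n ≃ₐ[ℚ] rootField n) := cyc n hn hc _ le_rfl hMG
  let : Algebra E (rootField n) := (IntermediateField.inclusion hE).toRingHom.toAlgebra
  have : IsScalarTower ℚ E (rootField n) :=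
    IsScalarTower.of_algebraMap_eq fun x => ((IntermediateField.inclusion hE).commutes x).symm
  let res : (rootField n ≃ₐ[ℚ] rootField n) →* (E ≃ₐ[ℚ] E) :=
    AlgEquiv.restrictNormalHom E
  have hsurj : Function.Surjective res := AlgEquiv.restrictNormalHom_surjective _
  have hfr : Module.finrank ℚ (rootField n) = n.totient := NQFx.finrank_root _ hn
  have hcard : Nat.card res.ker = n.totient / Module.finrank ℚ E := by
    have h3 := res.ker.card_mul_index
    rw [Subgroup.index_ker, MonoidHom.range_eq_top.2 hsurj, Subgroup.card_top,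
      IsGalois.card_aut_eq_finrank, IsGalois.card_aut_eq_finrank, hfr] at h3
    rw [← h3, Nat.mul_div_cancel _ Module.finrank_pos]
  let τ : rootField n ≃ₐ[ℚ] rootField n :=
    AlgEquiv.restrictNormalHom (rootField n) (WCPx.al σ)
  have hres : ∀ (ρ : ℂ ≃ₐ[ℚ] ℂ) (x : rootField n),
      ((AlgEquiv.restrictNormalHom (rootField n) ρ x : rootField n) : ℂ) = ρ x :=
    fun ρ x => AlgEquiv.restrictNormal_commutes ρ (rootField n) x
  have hτ : τ ^ (n.totient / Module.finrank ℚ E) = 1 := by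
    rw [← map_pow]
    apply AlgEquiv.ext
    intro x
    apply Subtype.ext
    rw [hres, WCPx.al_pow]
    refine WCPx.fix_root (n := n) ?_ x x.2
    intro z hz
    have := hσ z hz
    rwa [one_mul] at this
  have hmem : τ ∈ res.ker := FINC2x.mem_of_pow _ _ hcard τ hτ
  intro x hx
  have h5 : res τ = 1 := hmem
  have h6 : ((IntermediateField.inclusion hE (res τ ⟨x, hx⟩) : rootField n) : ℂ) =
      ((τ (IntermediateField.inclusion hE ⟨x, hx⟩) : rootField n) : ℂ) :=
    congrArg Subtype.val (AlgEquiv.restrictNormal_commutes τ E ⟨x, hx⟩)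
  rw [h5, hres] at h6
  exact h6.symm

end FINCNx

section

variable {K L : Type} [Field K] [NumberField K] [Field L] [NumberField L] [Algebra K L]
  [IsGalois K L] (S : Finset (HeightOneSpectrum (𝓞 K)))
  (Θ : ((L → ℝ) →₀ ℂ) →ₗ[ℂ] ((L → ℝ) →₀ ℂ))

/-- Stark in norm for `χ` in the `ℤ`-span of the characters induced from linear characters `ψ`,
`ψ^n = 1`, `(ℤ/n)ˣ` cyclic, with `Tr χ` in the `ℤ`-span of the permutation characters. -/
theorem norm_of_spanN (hΘ : StarkP.IsTheta K (StarkP.aboveSet K L S) Θ)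
    (χ : (L ≃ₐ[K] L) → ℂ) (n : ℕ) (hn : 0 < n) (hc : IsCyclic (ZMod n)ˣ)
    (hP : PermC (StarkP.trChar χ)) (hM : MonC n χ) :
    StarkP.NormIn (StarkP.charField χ) χ (S : Set (HeightOneSpectrum (𝓞 K))) Θ := by
  have hle := charField_le_of_monC χ n hn hM
  have hcyc := FINCNx.cyc n hn hc _ hle (galois_of_le _ hn _ hle)
  refine FINVx.crit K L χ n 1 _ S Θ hΘ hn one_pos hP ?_ hle hcyc
    fun σ hσ => FINCNx.cond n hn hc _ hle σ hσ
  obtain ⟨r, H, ψ, c, hψ, hc⟩ := hM
  exact ⟨r, H, ψ, c, hψ, fun g => by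
    show ((1 : ℕ) : ℂ) * χ g = _
    rw [Nat.cast_one, one_mul, hc g]⟩

end

end StarkC.ABS
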