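import Pool.Agent.ABS.FINZJ
import Pool.Agent.ABS.PDefsC

/-!
# Project ABS (MP_46b841_nt): nilpotent image, not symplectic: norms from all cyclic subfields and
from all subfields of prime power conductor (helper72)
-/

set_option autoImplicit false

open NumberField IsDedekindDomain
open scoped TensorProduct Classical

namespace StarkC.ABS

open StarkC.MON FINUx FINZx FINZGx FINZHx
open StarkP (rootField charField trChar NormIn AbsIn IsTheta)

namespace FINZIx

/-- The intersection of two cyclotomic fields. -/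
theorem inf_root {a b : ℕ} (ha : 0 < a) (hb : 0 < b) (E : IntermediateField ℚ ℂ)
    (h1 : E ≤ rootField a) (h2 : E ≤ rootField b) : E ≤ rootField (Nat.gcd a b) := by
  intro x hx
  refine FIXC_thm (Nat.gcd a b) x fun σ hσ => ?_
  have hN : 0 < a * b := Nat.mul_pos ha hb
  obtain ⟨t, ht, hact⟩ := VINx.act σ (a * b) hN
  have hg0 : 0 < Nat.gcd a b := Nat.gcd_pos_of_pos_left _ ha
  -- `t = 1` modulo the gcd
  have hζ := Complex.isPrimitiveRoot_exp (Nat.gcd a b) hg0.ne'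
  obtain ⟨ζ, hζd⟩ : ∃ ζ, ζ = Complex.exp (2 * Real.pi * Complex.I / ((Nat.gcd a b : ℕ) : ℂ)) :=
    ⟨_, rfl⟩
  rw [← hζd] at hζ
  have hgab : Nat.gcd a b ∣ a * b := (Nat.gcd_dvd_left a b).mul_right b
  have hζN : ζ ^ (a * b) = 1 := by
    obtain ⟨c, hc⟩ := hgab
    rw [hc, pow_mul, hζ.pow_eq_one, one_pow]
  have h3 : ζ ^ t = ζ ^ 1 := by
    rw [← hact ζ hζN, pow_one]
    exact hσ _ (IntermediateField.subset_adjoin ℚ _ hζ.pow_eq_one)
  have h4 : t ≡ 1 [MOD Nat.gcd a b] := by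
    have hfo : IsOfFinOrder ζ := isOfFinOrder_iff_pow_eq_one.2 ⟨_, hg0, hζ.pow_eq_one⟩
    have h5 := hfo.pow_eq_pow_iff_modEq.1 h3
    rwa [← hζ.eq_orderOf] at h5
  obtain ⟨k, hka, hkb⟩ := Nat.chineseRemainder' h4
  have hcop : (a * b).Coprime k := by
    refine Nat.Coprime.mul_left ?_ ?_
    · have h5 := hka.gcd_eq
      have h6 : Nat.gcd t a = 1 := Nat.Coprime.symm (Nat.Coprime.coprime_mul_right ht)
      rw [h6] at h5
      exact Nat.Coprime.symm h5
    · have h5 := hkb.gcd_eq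
      rw [Nat.gcd_one_left] at h5
      exact Nat.Coprime.symm h5
  obtain ⟨τ, hτ⟩ := SIGT_thm (a * b) k hN hcop
  have h5 : σ x = τ x := by
    refine ZFDx.agree (N := a) (fun z hz => ?_) (h1 hx)
    have hz' : z ^ (a * b) = 1 := by rw [pow_mul, hz, one_pow]
    rw [hact z hz', hτ z hz', ZFDx.pw hz hka]
  have h6 : τ x = x := by
    refine ZFDx.agree (N := b) (τ := RingEquiv.refl ℂ) (fun z hz => ?_) (h2 hx)
    have hz' : z ^ (a * b) = 1 := by rw [mul_comm, pow_mul, hz, one_pow]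
    rw [hτ z hz', ZFDx.pw hz hkb, pow_one]
    rfl
  rw [h5, h6]

/-- Transitivity of the norm. -/
theorem normIn_le {K L : Type} [Field K] [NumberField K] [Field L] [NumberField L] [Algebra K L]
    [IsGalois K L] (S : Finset (HeightOneSpectrum (𝓞 K)))
    (Θ : ((L → ℝ) →₀ ℂ) →ₗ[ℂ] ((L → ℝ) →₀ ℂ)) (χ : (L ≃ₐ[K] L) → ℂ)
    (E E' : IntermediateField ℚ ℂ) (h : E ≤ E') (hfd : FiniteDimensional ℚ E')
    (hN : NormIn E' χ (S : Set (HeightOneSpectrum (𝓞 K))) Θ) :
    NormIn E χ (S : Set (HeightOneSpectrum (𝓞 K))) Θ := by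
  obtain ⟨F, α, hF, hα, hR⟩ := hN
  let _ : Algebra E E' := (IntermediateField.inclusion h).toRingHom.toAlgebra
  have hT : IsScalarTower ℚ E E' :=
    IsScalarTower.of_algebraMap_eq fun x => ((IntermediateField.inclusion h).commutes x).symm
  have hfin : Module.Finite E E' := Module.Finite.of_restrictScalars_finite ℚ E E'
  have hE : FiniteDimensional ℚ E :=
    FiniteDimensional.of_injective (IntermediateField.inclusion h).toLinearMap
      (IntermediateField.inclusion_injective h)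
  refine ⟨F, Algebra.norm E α, hF, Algebra.norm_ne_zero_iff.2 hα, fun V _ _ _ ρ hρ => ?_⟩
  rw [Algebra.norm_norm, hR V ρ hρ]

end FINZIx

open FINZIx

/-- Irreducible representations with nilpotent image, not symplectic: norms from `E ≤ ℚ(χ)`, cyclic
over `ℚ` or of prime power conductor. -/
theorem finZI (K L : Type) [Field K] [NumberField K] [Field L] [NumberField L]
    [Algebra K L] [IsGalois K L] (S : Finset (HeightOneSpectrum (𝓞 K)))
    (Θ : ((L → ℝ) →₀ ℂ) →ₗ[ℂ] ((L → ℝ) →₀ ℂ)) (hΘ : IsTheta K (StarkP.aboveSet K L S) Θ)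
    (V : Type) [AddCommGroup V] [Module ℂ V] [Module.Finite ℂ V]
    (ρ : Representation ℂ (L ≃ₐ[K] L) V) (hirr : ρ.IsIrreducible) (hρ : StarkP.NilNS ρ)
    (E : IntermediateField ℚ ℂ) (hE : E ≤ charField ρ.character)
    (h : IsCyclic (E ≃ₐ[ℚ] E) ∨ ∃ ℓ j : ℕ, ℓ.Prime ∧ E ≤ rootField (ℓ ^ j)) :
    NormIn E ρ.character (S : Set (HeightOneSpectrum (𝓞 K))) Θ := by
  obtain ⟨hnil, hsy⟩ := hρ
  have hcyc := (finZG K L S Θ hΘ V ρ hirr hnil hsy).1
  rcases h with h | ⟨ℓ, j, hℓ, hEj⟩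
  · exact hcyc E hE h
  by_cases h2 : ℓ = 2
  swap
  · exact hcyc E hE (ZENx.cyc ℓ j hℓ h2 E hEj (galois_of_le _ (pow_pos hℓ.pos j) E hEj))
  subst h2
  have hj0 : 0 < 2 ^ j := by positivity
  rcases conclZOQ (L ≃ₐ[K] L) V ρ (irr_of ρ hirr) (lcs_of ρ hnil) hsy with
    ⟨H, ψ, hχ, hfix'⟩ | ⟨A, ψ, g, n, m, s, hL, hχ, hσ⟩
  · -- linear case
    obtain ⟨H, ψ, ho, hχ, hfix, hconj⟩ := indData_of ρ H ψ hχ hfix'
    have hCF : charField ρ.character = rootField (orderOf ψ) := CFR_thm _ _ _ hfix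
    obtain ⟨n, m, hm, hom⟩ := Nat.exists_eq_two_pow_mul_odd ho.ne'
    have hE2 : E ≤ rootField (2 ^ n) := by
      have h1 := inf_root ho hj0 E (hE.trans hCF.le) hEj
      refine h1.trans (ZENx.root_mono ?_)
      rw [hom]
      refine Nat.Coprime.dvd_of_dvd_mul_right (m := 2 ^ n) (n := m) ?_ (Nat.gcd_dvd_left _ _)
      exact Nat.Coprime.coprime_dvd_left (Nat.gcd_dvd_right _ _)
        (Nat.Coprime.pow_left j (Nat.coprime_two_left.2 hm))
    rcases Nat.lt_or_ge n 2 with hn | hn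
    · refine hcyc E hE (NASx.cyc_of (n := 2) (by norm_num) E (hE2.trans ?_) (Or.inl ?_))
      · exact ZENx.root_mono (pow_dvd_pow 2 (show n ≤ 1 by omega))
      · have h1 : E ≤ rootField 2 := hE2.trans (ZENx.root_mono (pow_dvd_pow 2 (show n ≤ 1 by omega)))
        rw [SYMx.rootField_two, le_bot_iff] at h1
        rw [h1]
        exact IntermediateField.finrank_bot
    · obtain ⟨φ, Θ₀, hφ, hreg⟩ := StarkB.exists_isPhiTheta (K := K) (L := L)
        (S : Set (HeightOneSpectrum (𝓞 K))) S.finite_toSet Θ hΘ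
      have htr : ∀ g, trChar ρ.character g =
          ∑ t ∈ Ex (orderOf ψ), indFun H (extZ (ψ ^ t)) g :=
        TRX_thm SIGT_thm TRT_thm _ _ _ (fun t g => indFun H (extZ (ψ ^ t)) g) ho hCF
          fun t _ σ hσ g => hconj σ t hσ g
      have h4 : 4 ≤ 2 ^ n := by
        have := Nat.pow_le_pow_right (show 0 < 2 by norm_num) hn
        omega
      have hPT : PT (2 ^ n) (trChar ρ.character) S Θ₀ :=
        NIN_thm PCX_thm (NVQ_thm conclN) K L S φ Θ₀ H ψ 2 n m _ hφ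
          ⟨Nat.prime_two, by omega, by omega⟩ hm.pos
          (Nat.Coprime.pow_left n (Nat.coprime_two_left.2 hm)) hom htr
      refine normIn_le S Θ _ E (rootField (2 ^ n)) hE2 ?_
        (RESFx.normIn_of S Θ φ Θ₀ hφ hreg (2 ^ n) _ hPT _ rfl)
      exact ZENx.fin_of (by positivity : 0 < 2 ^ n) _ le_rfl
  · -- leaf
    have hσ' := hσ
    rw [hχ] at hσ'
    obtain ⟨hiff, hconj⟩ := ZFX_thm _ A ψ g n m s hL hσ'
    obtain ⟨hcop, hss, hne⟩ := ZENx.arith hL.tt hL.odd hL.one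
    have ho : 0 < 2 ^ n * m := Nat.mul_pos (by positivity) hL.odd.pos
    obtain ⟨hF, -⟩ := ZTR_thm SIGT_thm TRT_thm _ ρ.character
      (fun j x => indFun A (extZ (ψ ^ j)) x) (2 ^ n * m) s ho hcop hss hne
      (by rw [hχ]; exact hiff) (fun j _ σ h x => by rw [hχ]; exact hconj σ j h x)
    have hE2 : E ≤ rootField (2 ^ n) := by
      have h1 := inf_root ho hj0 E (hE.trans hF) hEj
      refine h1.trans (ZENx.root_mono ?_)
      refine Nat.Coprime.dvd_of_dvd_mul_right (m := 2 ^ n) (n := m) ?_ (Nat.gcd_dvd_left _ _)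
      exact Nat.Coprime.coprime_dvd_left (Nat.gcd_dvd_right _ _)
        (Nat.Coprime.pow_left j (Nat.coprime_two_left.2 hL.odd))
    refine hcyc E hE ((ZFD_thm SIGT_thm n 1 s E hL.tt odd_one (by rw [Nat.mod_one, Nat.mod_one])
      (by rw [mul_one]; exact hE2) (fun σ h x hx => ?_)).2.2 rfl).2
    -- `σ z = z ^ s` on the roots of unity of order `2 ^ n`; compare with `τ`
    obtain ⟨τ, hτ⟩ := SIGT_thm (2 ^ n * m) s ho hcop
    have h1 : σ x = τ x := by
      refine ZFDx.agree (N := 2 ^ n) (fun z hz => ?_) (hE2 hx)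
      rw [h z (by rw [mul_one]; exact hz), hτ z (by rw [pow_mul, hz, one_pow])]
    rw [h1]
    exact MASx.fix_of _ τ (by rw [hχ]; exact (hiff τ).2 (Or.inr hτ)) x (hE hx)

end StarkC.ABS
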