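import Pool.Agent.ABS.StZ

/-!
# Project ABS (MP_46b841_nt), part Z, module ZDC

A rational-valued character is a sum of classes of conjugate irreducible characters.
-/

set_option autoImplicit false

open NumberField IsDedekindDomain
open scoped TensorProduct Classical

namespace StarkC.ABS.ZDCx

variable {G : Type} [Group G] [Fintype G]

/-- orthogonality of irreducible characters -/
theorem ip_irr {χ χ' : G → ℂ} (h : IrrCh χ) (h' : IrrCh χ') :
    ip χ χ' = if χ = χ' then (Fintype.card G : ℂ) else 0 := by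
  obtain ⟨V, _, _, _, ρ, hρ, rfl⟩ := h
  obtain ⟨W, _, _, _, σ, hσ, rfl⟩ := h'
  have hc : (Nat.card G : ℂ) ≠ 0 := Nat.cast_ne_zero.2 Nat.card_pos.ne'
  have : Invertible (Nat.card G : ℂ) := invertibleOfNonzero hc
  have h1 := Representation.char_orthonormal ρ σ
  have h2 := Representation.char_orthonormal ρ ρ
  rw [if_pos ⟨Representation.Equiv.refl ρ⟩, inv_mul_eq_iff_eq_mul₀ hc, mul_one] at h2
  by_cases hn : Nonempty (Representation.Equiv σ ρ)
  · rw [if_pos hn, inv_mul_eq_iff_eq_mul₀ hc, mul_one] at h1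
    obtain ⟨e⟩ := hn
    rw [if_pos (Representation.char_iso e).symm]
    unfold ip
    rw [h1, Nat.card_eq_fintype_card]
  · rw [if_neg hn, inv_mul_eq_iff_eq_mul₀ hc, mul_zero] at h1
    by_cases he : ρ.character = σ.character
    · exfalso
      rw [← he, h2] at h1
      exact hc h1
    · rw [if_neg he]
      exact h1

end StarkC.ABS.ZDCx

namespace StarkC.ABS

open ZDCx in
theorem ZDC_thm : Stmt_ZDC := by
  intro hYDE G V _ _ _ _ _ ρ X hS hI hq hcon
  obtain ⟨m, χ, hχ1, hχ2⟩ := hYDE G V ρ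
  let n : (G → ℂ) → ℕ := fun p => (Finset.univ.filter fun i => χ i = p).card
  have hcar : ∀ g, ρ.character g = ∑ p ∈ X, (n p : ℂ) * p g := by
    intro g
    rw [hχ2 g, ← Finset.sum_fiberwise_of_maps_to (t := X) (g := χ)
      (fun i _ => hcon (χ i) (hχ1 i))]
    refine Finset.sum_congr rfl fun p _ => ?_
    rw [Finset.sum_congr rfl (g := fun _ => p g) (fun i hi => by
      rw [(Finset.mem_filter.1 hi).2]), Finset.sum_const, nsmul_eq_mul]
  have hG : (Fintype.card G : ℂ) ≠ 0 := Nat.cast_ne_zero.2 Fintype.card_ne_zero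
  have hip : ∀ p ∈ X, ∑ g, ρ.character g * p g⁻¹ = (n p : ℂ) * (Fintype.card G : ℂ) := by
    intro p hp
    have h1 : ∑ g, ρ.character g * p g⁻¹ = ∑ p' ∈ X, (n p' : ℂ) * ip p' p := by
      unfold ip
      simp only [hcar, Finset.sum_mul, Finset.mul_sum]
      rw [Finset.sum_comm]
      refine Finset.sum_congr rfl fun p' _ => Finset.sum_congr rfl fun g _ => ?_
      rw [mul_assoc]
    rw [h1, Finset.sum_eq_single p]
    · rw [ip_irr (hI p hp) (hI p hp), if_pos rfl]
    · intro p' hp' hne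
      rw [ip_irr (hI p' hp') (hI p hp), if_neg hne, mul_zero]
    · exact fun h => absurd hp h
  refine ⟨n, ?_, ?_, hcar⟩
  · intro p hp
    obtain ⟨i, hi⟩ := Finset.card_pos.1 (Nat.pos_of_ne_zero hp)
    have hi' := (Finset.mem_filter.1 hi).2
    rw [← hi']
    exact ⟨hcon _ (hχ1 i), hχ1 i⟩
  · intro σ p hp
    have h1 := hip (gcj σ p) (hS p hp σ)
    have h2 := congrArg σ (hip p hp)
    rw [map_mul, map_natCast, map_natCast, map_sum] at h2
    have h3 : ∑ g, σ (ρ.character g * p g⁻¹) = ∑ g, ρ.character g * gcj σ p g⁻¹ := by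
      refine Finset.sum_congr rfl fun g _ => ?_
      obtain ⟨a, ha⟩ := hq g
      rw [map_mul, ha, map_ratCast]
      rfl
    rw [h3, h1] at h2
    exact_mod_cast mul_right_cancel₀ hG h2

end StarkC.ABS
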