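import Pool.Agent.ABS.RLC
import Pool.Agent.ABS.ZDC

/-!
# Project ABS: a character with values in `F` is a sum of traces over `F` of its irreducible
constituents (helper37)
-/

set_option autoImplicit false

open scoped Classical

namespace StarkC.ABS

namespace SOL3x

/-- The trace over `F` (`StarkP.traceOver`). -/
noncomputable def trF (F : IntermediateField ℚ ℂ) {X : Type} (f : X → ℂ) : X → ℂ := fun x =>
  ((Algebra.trace F (IntermediateField.adjoin F (Set.range f))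
    ⟨f x, IntermediateField.subset_adjoin F _ (Set.mem_range_self x)⟩ : F) : ℂ)

/-- `σ` fixes the elements of `F`. -/
def Fx (F : IntermediateField ℚ ℂ) (σ : ℂ ≃+* ℂ) : Prop := ∀ x ∈ F, σ x = x

/-- The set of the functions conjugate over `F` to `f`. -/
def Cj (F : IntermediateField ℚ ℂ) {X : Type} (f : X → ℂ) : Set (X → ℂ) :=
  {p | ∃ σ : ℂ ≃+* ℂ, Fx F σ ∧ gcj σ f = p}

/-- The embedding given by an automorphism. -/
noncomputable def rstF (F : IntermediateField ℚ ℂ) (L : IntermediateField F ℂ) (σ : ℂ ≃+* ℂ)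
    (h : Fx F σ) : L →ₐ[F] ℂ :=
  { (σ : ℂ →+* ℂ).comp (algebraMap L ℂ) with
    commutes' := fun r => h (r : ℂ) r.2 }

theorem rstF_apply (F : IntermediateField ℚ ℂ) (L : IntermediateField F ℂ) (σ : ℂ ≃+* ℂ)
    (h : Fx F σ) (x : L) : rstF F L σ h x = σ (x : ℂ) := rfl

theorem ext_of (F : IntermediateField ℚ ℂ) (hF : FiniteDimensional ℚ F) (L : IntermediateField F ℂ)
    (hL : FiniteDimensional F L) (φ : L →ₐ[F] ℂ) :
    ∃ σ : ℂ ≃+* ℂ, Fx F σ ∧ ∀ x : L, σ (x : ℂ) = φ x := by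
  have h1 : FiniteDimensional ℚ L := FiniteDimensional.trans ℚ F L
  have h2 : FiniteDimensional ℚ (L.restrictScalars ℚ) := h1
  obtain ⟨σ, hσ⟩ := ZTNx.ext (L.restrictScalars ℚ) h2 ((φ : L →+* ℂ).toRatAlgHom)
  refine ⟨σ, fun x hx => ?_, fun x => hσ x⟩
  have h3 := hσ ⟨x, (algebraMap F L ⟨x, hx⟩).2⟩
  have h4 : φ (algebraMap F L ⟨x, hx⟩) = x := φ.commutes ⟨x, hx⟩
  exact h3.trans h4

theorem trF_eq (F : IntermediateField ℚ ℂ) (hF : FiniteDimensional ℚ F) {X : Type} [Finite X]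
    (f : X → ℂ) (hf : ∀ x, IsIntegral ℚ (f x)) (O : Finset (X → ℂ))
    (hO : ∀ p, p ∈ O ↔ p ∈ Cj F f) (x : X) : trF F f x = ∑ p ∈ O, p x := by
  set L := IntermediateField.adjoin F (Set.range f) with hLd
  have hLf : FiniteDimensional F L := by
    have h1 : Finite (Set.range f) := (Set.finite_range f).to_subtype
    refine IntermediateField.finiteDimensional_adjoin fun z hz => ?_
    obtain ⟨g, rfl⟩ := hz
    exact (hf g).tower_top
  have hmem : ∀ x, f x ∈ L := fun x => IntermediateField.subset_adjoin F _ (Set.mem_range_self x)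
  have h1 : trF F f x = ∑ φ : L →ₐ[F] ℂ, φ ⟨f x, hmem x⟩ := by
    unfold trF
    rw [← trace_eq_sum_embeddings ℂ (K := F)]
    rfl
  rw [h1]
  symm
  have hs : ∀ p : X → ℂ, ∃ φ : L →ₐ[F] ℂ, p ∈ O → ∀ y, φ ⟨f y, hmem y⟩ = p y := by
    intro p
    by_cases hp : p ∈ O
    · obtain ⟨σ, hσ, hp'⟩ := (hO p).1 hp
      refine ⟨rstF F L σ hσ, fun _ y => ?_⟩
      rw [rstF_apply, ← hp']
      rfl
    · exact ⟨L.val, fun h => absurd h hp⟩
  choose s hs using hs
  refine Finset.sum_bij (fun p _ => s p) (fun _ _ => Finset.mem_univ _) ?_ ?_ ?_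
  · intro p hp q hq h
    funext y
    rw [← hs p hp y, ← hs q hq y, h]
  · intro φ _
    obtain ⟨σ, hσ, hσ'⟩ := ext_of F hF L hLf φ
    have hp : gcj σ f ∈ O := (hO _).2 ⟨σ, hσ, rfl⟩
    refine ⟨gcj σ f, hp, ?_⟩
    refine IntermediateField.adjoin_algHom_ext (F := F) (fun z hz1 => ?_)
    obtain ⟨g, rfl⟩ := hz1
    exact (hs _ hp g).trans (hσ' ⟨f g, hmem g⟩)
  · intro p hp
    exact (hs p hp x).symm

theorem Fx_trans {F : IntermediateField ℚ ℂ} {σ τ : ℂ ≃+* ℂ} (h : Fx F σ) (h' : Fx F τ) :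
    Fx F (σ.trans τ) := fun x hx => by
  rw [RingEquiv.trans_apply, h x hx, h' x hx]

theorem Fx_symm {F : IntermediateField ℚ ℂ} {σ : ℂ ≃+* ℂ} (h : Fx F σ) : Fx F σ.symm :=
  fun x hx => by
    have h1 := h x hx
    rw [← h1, RingEquiv.symm_apply_apply, h1]

theorem Cj_gcj {F : IntermediateField ℚ ℂ} {X : Type} (f p : X → ℂ) {σ : ℂ ≃+* ℂ} (h : Fx F σ) :
    gcj σ p ∈ Cj F f ↔ p ∈ Cj F f := by
  constructor
  · rintro ⟨τ, hτ, h1⟩
    refine ⟨τ.trans σ.symm, Fx_trans hτ (Fx_symm h), ?_⟩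
    funext x
    have h2 := congrFun h1 x
    show σ.symm (τ (f x)) = p x
    have h3 : τ (f x) = σ (p x) := h2
    rw [h3, RingEquiv.symm_apply_apply]
  · rintro ⟨τ, hτ, rfl⟩
    exact ⟨τ.trans σ, Fx_trans hτ h, rfl⟩

theorem Cj_self (F : IntermediateField ℚ ℂ) {X : Type} (f : X → ℂ) : f ∈ Cj F f :=
  ⟨RingEquiv.refl ℂ, fun _ _ => rfl, rfl⟩

/-- The combinatorial part. -/
theorem comb (F : IntermediateField ℚ ℂ) (hF : FiniteDimensional ℚ F) {G : Type} [Finite G]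
    (X : Finset (G → ℂ)) (hX : ∀ p ∈ X, ∀ σ : ℂ ≃+* ℂ, gcj σ p ∈ X)
    (hint : ∀ p ∈ X, ∀ x, IsIntegral ℚ (p x)) (N : ℕ) :
    ∀ n : (G → ℂ) → ℕ, (∀ p ∈ X, ∀ σ : ℂ ≃+* ℂ, Fx F σ → n (gcj σ p) = n p) →
      ∑ p ∈ X, n p = N →
      ∃ (m : ℕ) (τ : Fin m → (G → ℂ)), (∀ i, τ i ∈ X ∧ n (τ i) ≠ 0) ∧
        ∀ x, ∑ p ∈ X, (n p : ℂ) * p x = ∑ i, trF F (τ i) x := by
  induction N using Nat.strong_induction_on with
  | _ N ih =>
    intro n hn hN
    by_cases h0 : ∀ p ∈ X, n p = 0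
    · refine ⟨0, Fin.elim0, fun i => i.elim0, fun x => ?_⟩
      rw [Finset.sum_eq_zero fun p hp => by rw [h0 p hp]; simp]
      simp
    push Not at h0
    obtain ⟨p0, hp0, hn0⟩ := h0
    let O : Finset (G → ℂ) := X.filter fun p => p ∈ Cj F p0
    have hO : ∀ p, p ∈ O ↔ p ∈ Cj F p0 := by
      intro p
      rw [Finset.mem_filter]
      refine ⟨fun h => h.2, fun h => ⟨?_, h⟩⟩
      obtain ⟨σ, _, rfl⟩ := h
      exact hX p0 hp0 σ
    have hnO : ∀ p ∈ O, n p = n p0 := by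
      intro p hp
      obtain ⟨σ, hσ, rfl⟩ := (hO p).1 hp
      exact hn p0 hp0 σ hσ
    have hOX : O ⊆ X := Finset.filter_subset _ _
    let n' : (G → ℂ) → ℕ := fun p => if p ∈ O then n p - 1 else n p
    have hn'le : ∀ p, n' p ≤ n p := by
      intro p
      show (if p ∈ O then n p - 1 else n p) ≤ n p
      split_ifs
      · exact Nat.sub_le _ _
      · exact le_rfl
    have hn' : ∀ p ∈ X, ∀ σ : ℂ ≃+* ℂ, Fx F σ → n' (gcj σ p) = n' p := by
      intro p hp σ hσ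
      have h1 : gcj σ p ∈ O ↔ p ∈ O := by
        rw [hO, hO]
        exact Cj_gcj p0 p hσ
      show (if gcj σ p ∈ O then n (gcj σ p) - 1 else n (gcj σ p)) = (if p ∈ O then n p - 1 else n p)
      rw [hn p hp σ hσ]
      by_cases h : p ∈ O
      · rw [if_pos h, if_pos (h1.2 h)]
      · rw [if_neg h, if_neg fun h' => h (h1.1 h')]
    have hp0O : p0 ∈ O := (hO p0).2 (Cj_self F p0)
    have hlt : ∑ p ∈ X, n' p < N := by
      rw [← hN]
      refine Finset.sum_lt_sum (fun p _ => hn'le p) ⟨p0, hp0, ?_⟩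
      show (if p0 ∈ O then n p0 - 1 else n p0) < n p0
      rw [if_pos hp0O]
      omega
    obtain ⟨m, τ, hτ, hsum⟩ := ih _ hlt n' hn' rfl
    refine ⟨m + 1, Fin.cons p0 τ, ?_, ?_⟩
    · intro i
      refine Fin.cases ?_ (fun i => ?_) i
      · exact ⟨hp0, hn0⟩
      · rw [Fin.cons_succ]
        refine ⟨(hτ i).1, fun h => (hτ i).2 ?_⟩
        have := hn'le (τ i)
        omega
    · intro x
      rw [Fin.sum_univ_succ, Fin.cons_zero]
      simp only [Fin.cons_succ]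
      rw [← hsum x, trF_eq F hF p0 (hint p0 hp0) O hO x]
      have h2 : ∑ p ∈ O, p x = ∑ p ∈ X, if p ∈ O then p x else 0 := by
        rw [← Finset.sum_filter]
        refine Finset.sum_congr ?_ fun _ _ => rfl
        ext p
        constructor
        · intro h
          exact Finset.mem_filter.2 ⟨hOX h, h⟩
        · intro h
          exact (Finset.mem_filter.1 h).2
      rw [h2, ← Finset.sum_add_distrib]
      refine Finset.sum_congr rfl fun p hp => ?_
      show (n p : ℂ) * p x = (if p ∈ O then p x else 0) +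
        ((if p ∈ O then n p - 1 else n p : ℕ) : ℂ) * p x
      by_cases h : p ∈ O
      · rw [if_pos h, if_pos h]
        have h3 : 1 ≤ n p := by
          rw [hnO p h]
          omega
        rw [Nat.cast_sub h3]
        ring
      · rw [if_neg h, if_neg h]
        ring

end SOL3x

open SOL3x

/-- A character with values in `F` is a sum of traces over `F` of irreducible constituents. -/
theorem trace_dec (G V : Type) [Group G] [Fintype G] [AddCommGroup V] [Module ℂ V]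
    [Module.Finite ℂ V] (ρ : Representation ℂ G V) (F : IntermediateField ℚ ℂ)
    (hF : FiniteDimensional ℚ F) (hρ : ∀ g, ρ.character g ∈ F) :
    ∃ (m : ℕ) (τ : Fin m → (G → ℂ)), (∀ i, IsCon ρ (τ i)) ∧
      ∀ g, ρ.character g = ∑ i, ((Algebra.trace F (IntermediateField.adjoin F (Set.range (τ i)))
        ⟨τ i g, IntermediateField.subset_adjoin F _ (Set.mem_range_self g)⟩ : F) : ℂ) := by
  obtain ⟨m, χ, hχ1, hχ2⟩ := YDE_thm G V ρ
  have hirr : ∀ i, IrrCh (χ i) := by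
    intro i
    obtain ⟨W, x1, x2, x3, κ, hκ, _, hκc⟩ := hχ1 i
    exact ⟨W, x1, x2, x3, κ, hκ, hκc⟩
  let X : Finset (G → ℂ) := (ZFS_thm G).toFinset
  have hXm : ∀ p, p ∈ X ↔ IrrCh p := fun p => by
    show p ∈ (ZFS_thm G).toFinset ↔ _
    rw [Set.Finite.mem_toFinset]
    rfl
  have hX : ∀ p ∈ X, ∀ σ : ℂ ≃+* ℂ, gcj σ p ∈ X := fun p hp σ =>
    (hXm _).2 (RLCx.irr_gcj p ((hXm p).1 hp) σ)
  have hint : ∀ p ∈ X, ∀ x, IsIntegral ℚ (p x) := by
    intro p hp x
    obtain ⟨W, _, _, _, κ, _, rfl⟩ := (hXm p).1 hp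
    exact ZTNx.int_char κ x
  let n : (G → ℂ) → ℕ := fun p => (Finset.univ.filter fun i => χ i = p).card
  have hcar : ∀ g, ρ.character g = ∑ p ∈ X, (n p : ℂ) * p g := by
    intro g
    rw [hχ2 g, ← Finset.sum_fiberwise_of_maps_to (t := X) (g := χ)
      (fun i _ => (hXm _).2 (hirr i))]
    refine Finset.sum_congr rfl fun p _ => ?_
    rw [Finset.sum_congr rfl (g := fun _ => p g) (fun i hi => by
      rw [(Finset.mem_filter.1 hi).2]), Finset.sum_const, nsmul_eq_mul]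
  have hG : (Fintype.card G : ℂ) ≠ 0 := Nat.cast_ne_zero.2 Fintype.card_ne_zero
  have hip : ∀ p ∈ X, ∑ g, ρ.character g * p g⁻¹ = (n p : ℂ) * (Fintype.card G : ℂ) := by
    intro p hp
    have h1 : ∑ g, ρ.character g * p g⁻¹ = ∑ p' ∈ X, (n p' : ℂ) * ip p' p := by
      unfold ip
      simp only [hcar, Finset.sum_mul, Finset.mul_sum]
      rw [Finset.sum_comm]
      refine Finset.sum_congr rfl fun p' _ => Finset.sum_congr rfl fun g _ => ?_
      rw [mul_assoc]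
    rw [h1, Finset.sum_eq_single p]
    · rw [ZDCx.ip_irr ((hXm p).1 hp) ((hXm p).1 hp), if_pos rfl]
    · intro p' hp' hne
      rw [ZDCx.ip_irr ((hXm p').1 hp') ((hXm p).1 hp), if_neg hne, mul_zero]
    · exact fun h => absurd hp h
  have hn : ∀ p ∈ X, ∀ σ : ℂ ≃+* ℂ, Fx F σ → n (gcj σ p) = n p := by
    intro p hp σ hσ
    have h1 := hip (gcj σ p) (hX p hp σ)
    have h2 := congrArg σ (hip p hp)
    rw [map_mul, map_natCast, map_natCast, map_sum] at h2
    have h3 : ∑ g, σ (ρ.character g * p g⁻¹) = ∑ g, ρ.character g * gcj σ p g⁻¹ := by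
      refine Finset.sum_congr rfl fun g _ => ?_
      rw [map_mul, hσ _ (hρ g)]
      rfl
    rw [h3, h1] at h2
    exact_mod_cast mul_right_cancel₀ hG h2
  obtain ⟨m', τ, hτ, hsum⟩ := comb F hF X hX hint _ n hn rfl
  refine ⟨m', τ, fun i => ?_, fun g => ?_⟩
  · obtain ⟨j, hj⟩ := Finset.card_pos.1 (Nat.pos_of_ne_zero (hτ i).2)
    rw [← (Finset.mem_filter.1 hj).2]
    exact hχ1 j
  · rw [hcar g, hsum g]
    rfl

end StarkC.ABS
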