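import Pool.Agent.ABS.FINC2
import Pool.Agent.ABS.SOLT3
import Pool.Agent.ABS.FIXC
import Pool.Agent.ABS.FINZI
import Pool.Agent.ABS.FINCN
import Pool.Agent.ABS.GTR
import Pool.Agent.ABS.PDefsE

/-!
# Project ABS: the trace over a field `F` of an irreducible character
-/

set_option autoImplicit false

open NumberField IsDedekindDomain
open scoped TensorProduct Classical

namespace StarkC.ABS

open StarkP (rootField charField trChar NormIn)

namespace FINC3x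

open SOL3x (trF Fx Cj)

/-- The trace is the sum of the conjugates. -/
theorem trChar_eq {X : Type} [Finite X] (f : X → ℂ) (hf : ∀ x, IsIntegral ℚ (f x))
    (O : Finset (X → ℂ)) (hO : ∀ p, p ∈ O ↔ ∃ σ : ℂ ≃+* ℂ, gcj σ f = p) (x : X) :
    trChar f x = ∑ p ∈ O, p x := by
  have hLf : FiniteDimensional ℚ (charField f) := by
    have h1 : Finite (Set.range f) := (Set.finite_range f).to_subtype
    refine IntermediateField.finiteDimensional_adjoin fun z hz => ?_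
    obtain ⟨g, rfl⟩ := hz
    exact hf g
  have hmem : ∀ x, f x ∈ charField f :=
    fun x => IntermediateField.subset_adjoin ℚ _ (Set.mem_range_self x)
  have h1 : trChar f x = ∑ φ : charField f →ₐ[ℚ] ℂ, φ ⟨f x, hmem x⟩ := by
    unfold StarkP.trChar
    rw [← trace_eq_sum_embeddings ℂ (K := ℚ), eq_ratCast]
  rw [h1]
  symm
  have hs : ∀ p : X → ℂ, ∃ φ : charField f →ₐ[ℚ] ℂ, p ∈ O → ∀ y, φ ⟨f y, hmem y⟩ = p y := by
    intro p
    by_cases hp : p ∈ O
    · obtain ⟨σ, hp'⟩ := (hO p).1 hp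
      refine ⟨(σ : ℂ →+* ℂ).toRatAlgHom.comp (charField f).val, fun _ y => ?_⟩
      rw [← hp']
      rfl
    · exact ⟨(charField f).val, fun h => absurd h hp⟩
  choose s hs using hs
  refine Finset.sum_bij (fun p _ => s p) (fun _ _ => Finset.mem_univ _) ?_ ?_ ?_
  · intro p hp q hq h
    funext y
    rw [← hs p hp y, ← hs q hq y, h]
  · intro φ _
    obtain ⟨σ, hσ'⟩ := ZTNx.ext (charField f) hLf φ
    have hp : gcj σ f ∈ O := (hO _).2 ⟨σ, rfl⟩
    refine ⟨gcj σ f, hp, ?_⟩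
    refine IntermediateField.adjoin_algHom_ext (F := ℚ) (fun z hz1 => ?_)
    obtain ⟨g, rfl⟩ := hz1
    exact (hs _ hp g).trans (hσ' ⟨f g, hmem g⟩)
  · intro p hp
    exact (hs p hp x).symm

/-- Automorphisms commute on cyclotomic fields. -/
theorem comm {N : ℕ} (hN : 0 < N) (σ τ : ℂ ≃+* ℂ) {x : ℂ} (hx : x ∈ rootField N) :
    σ (τ x) = τ (σ x) := by
  unfold StarkP.rootField at hx
  induction hx using IntermediateField.adjoin_induction with
  | mem y hy =>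
    have hN0 : NeZero N := ⟨hN.ne'⟩
    have hζ := Complex.isPrimitiveRoot_exp N hN.ne'
    have h1 : ∀ s : ℂ ≃+* ℂ, ∃ a : ℕ, ∀ z : ℂ, z ^ N = 1 → s z = z ^ a := by
      intro s
      have h2 : (s (Complex.exp (2 * Real.pi * Complex.I / N))) ^ N = 1 := by
        rw [← map_pow, hζ.pow_eq_one, map_one]
      obtain ⟨a, _, ha⟩ := hζ.eq_pow_of_pow_eq_one h2
      refine ⟨a, fun z hz => ?_⟩
      obtain ⟨b, _, hb⟩ := hζ.eq_pow_of_pow_eq_one hz
      rw [← hb, map_pow, ← ha, ← pow_mul, ← pow_mul, Nat.mul_comm a b]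
    obtain ⟨a, ha⟩ := h1 σ
    obtain ⟨b, hb⟩ := h1 τ
    have hy' : y ^ N = 1 := hy
    rw [hb y hy', ha y hy', map_pow, map_pow, ha y hy', hb y hy', ← pow_mul, ← pow_mul, Nat.mul_comm a b]
  | algebraMap q => simp
  | add x y _ _ hx hy => rw [map_add, map_add, hx, hy, map_add, map_add]
  | inv x _ hx => rw [map_inv₀, map_inv₀, hx, map_inv₀, map_inv₀]
  | mul x y _ _ hx hy => rw [map_mul, map_mul, hx, hy, map_mul, map_mul]

theorem map_root {N : ℕ} (σ : ℂ ≃+* ℂ) {x : ℂ} (hx : x ∈ rootField N) : σ x ∈ rootField N := by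
  unfold StarkP.rootField at hx
  induction hx using IntermediateField.adjoin_induction with
  | mem y hy =>
    refine IntermediateField.subset_adjoin ℚ _ ?_
    have hy' : y ^ N = 1 := hy
    show (σ y) ^ N = 1
    rw [← map_pow, hy', map_one]
  | algebraMap q =>
    have h1 : σ (algebraMap ℚ ℂ q) = algebraMap ℚ ℂ q := by simp
    rw [h1]
    exact (rootField N).algebraMap_mem q
  | add x y _ _ hx hy => rw [map_add]; exact add_mem hx hy
  | inv x _ hx => rw [map_inv₀]; exact inv_mem hx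
  | mul x y _ _ hx hy => rw [map_mul]; exact mul_mem hx hy

/-- Automorphisms which agree on the values of `f` agree on its field. -/
theorem agree {X : Type} (f : X → ℂ) (σ τ : ℂ ≃+* ℂ) (h : gcj σ f = gcj τ f) {x : ℂ}
    (hx : x ∈ charField f) : σ x = τ x := by
  unfold StarkP.charField at hx
  induction hx using IntermediateField.adjoin_induction with
  | mem y hy =>
    obtain ⟨g, rfl⟩ := hy
    exact congrFun h g
  | algebraMap q => simp
  | add x y _ _ hx hy => rw [map_add, hx, hy, map_add]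
  | inv x _ hx => rw [map_inv₀, hx, map_inv₀]
  | mul x y _ _ hx hy => rw [map_mul, hx, hy, map_mul]

section

variable {G : Type} [Group G] [Fintype G] (F : IntermediateField ℚ ℂ)
  (hF : FiniteDimensional ℚ F)

/-- The values of an irreducible character. -/
theorem val {χ : G → ℂ} (hχ : IrrCh χ) (g : G) : χ g ∈ rootField (Fintype.card G) := by
  obtain ⟨W, _, _, _, κ, _, rfl⟩ := hχ
  exact charField_le κ (Fintype.card G) Fintype.card_pos (fun g => by
    rw [← map_pow, pow_card_eq_one, map_one])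
    (IntermediateField.subset_adjoin ℚ _ (Set.mem_range_self g))

theorem intg {χ : G → ℂ} (hχ : IrrCh χ) (g : G) : IsIntegral ℚ (χ g) := by
  obtain ⟨W, _, _, _, κ, _, rfl⟩ := hχ
  exact ZTNx.int_char κ g

/-- The set of conjugates over `F`. -/
noncomputable def cj (F : IntermediateField ℚ ℂ) (χ : G → ℂ) : Finset (G → ℂ) :=
  (ZFS_thm G).toFinset.filter fun p => p ∈ Cj F χ

theorem mem_cj {χ : G → ℂ} (hχ : IrrCh χ) (p : G → ℂ) : p ∈ cj F χ ↔ p ∈ Cj F χ := by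
  unfold cj
  rw [Finset.mem_filter]
  refine ⟨fun h => h.2, fun h => ⟨?_, h⟩⟩
  obtain ⟨σ, _, rfl⟩ := h
  exact (Set.Finite.mem_toFinset _).2 (RLCx.irr_gcj χ hχ σ)

include hF in
theorem trF_cj {χ : G → ℂ} (hχ : IrrCh χ) (g : G) : trF F χ g = ∑ p ∈ cj F χ, p g :=
  SOL3x.trF_eq F hF χ (intg hχ) _ (mem_cj F hχ) g

omit [Group G] [Fintype G] in
theorem trF_mem {χ : G → ℂ} (g : G) : trF F χ g ∈ F := SetLike.coe_mem _

theorem irr_cj {χ : G → ℂ} (hχ : IrrCh χ) {p : G → ℂ} (hp : p ∈ cj F χ) : IrrCh p := by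
  obtain ⟨σ, _, rfl⟩ := (mem_cj F hχ p).1 hp
  exact RLCx.irr_gcj χ hχ σ

theorem self_mem {χ : G → ℂ} (hχ : IrrCh χ) : χ ∈ cj F χ :=
  (mem_cj F hχ χ).2 (SOL3x.Cj_self F χ)

theorem gcj_comm {χ : G → ℂ} (hχ : IrrCh χ) (σ τ : ℂ ≃+* ℂ) :
    gcj σ (gcj τ χ) = gcj τ (gcj σ χ) := by
  funext g
  exact comm Fintype.card_pos σ τ (val hχ g)

/-- The conjugates of `gcj σ χ` are the `gcj σ p`. -/
theorem cj_gcj {χ : G → ℂ} (hχ : IrrCh χ) (σ : ℂ ≃+* ℂ) :
    cj F (gcj σ χ) = (cj F χ).image (gcj σ) := by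
  ext p
  rw [mem_cj F (RLCx.irr_gcj χ hχ σ), Finset.mem_image]
  constructor
  · rintro ⟨s, hs, rfl⟩
    exact ⟨gcj s χ, (mem_cj F hχ _).2 ⟨s, hs, rfl⟩, gcj_comm hχ σ s⟩
  · rintro ⟨q, hq, rfl⟩
    obtain ⟨s, hs, rfl⟩ := (mem_cj F hχ q).1 hq
    exact ⟨s, hs, gcj_comm hχ s σ⟩

omit [Group G] [Fintype G] in
theorem gcj_inj (σ : ℂ ≃+* ℂ) {p q : G → ℂ} (h : gcj σ p = gcj σ q) : p = q := by
  funext g
  exact σ.injective (congrFun h g)

include hF in
/-- The trace of `gcj σ χ`. -/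
theorem trF_gcj {χ : G → ℂ} (hχ : IrrCh χ) (σ : ℂ ≃+* ℂ) :
    trF F (gcj σ χ) = gcj σ (trF F χ) := by
  funext g
  rw [trF_cj F hF (RLCx.irr_gcj χ hχ σ), cj_gcj F hχ σ,
    Finset.sum_image fun p _ q _ h => gcj_inj σ h]
  show _ = σ (trF F χ g)
  rw [trF_cj F hF hχ, map_sum]
  rfl

include hF in
/-- If `σ` fixes the trace of `χ` over `F` then `σ χ` is conjugate to `χ` over `F`. -/
theorem of_fix {χ : G → ℂ} (hχ : IrrCh χ) (σ : ℂ ≃+* ℂ) (h : gcj σ (trF F χ) = trF F χ) :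
    gcj σ χ ∈ cj F χ := by
  by_contra hne
  have hirr := RLCx.irr_gcj χ hχ σ
  have hG : (Fintype.card G : ℂ) ≠ 0 := Nat.cast_ne_zero.2 Fintype.card_ne_zero
  have h1 : ∀ (O : Finset (G → ℂ)) (f : G → ℂ), (∀ p ∈ O, IrrCh p) → (∀ g, f g = ∑ p ∈ O, p g) →
      ip f (gcj σ χ) = if gcj σ χ ∈ O then (Fintype.card G : ℂ) else 0 := by
    intro O f hO hf
    have h2 : ip f (gcj σ χ) = ∑ p ∈ O, ip p (gcj σ χ) := by
      unfold ip
      rw [Finset.sum_comm]
      refine Finset.sum_congr rfl fun g _ => ?_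
      rw [hf, Finset.sum_mul]
    rw [h2, Finset.sum_congr rfl fun p hp => ZFSx.ortho (hO p hp) hirr, Finset.sum_ite_eq']
  have h2 := h1 (cj F χ) (trF F χ) (fun p hp => irr_cj F hχ hp) (trF_cj F hF hχ)
  have h3 := h1 (cj F (gcj σ χ)) (trF F (gcj σ χ)) (fun p hp => irr_cj F hirr hp)
    (trF_cj F hF hirr)
  rw [if_neg hne] at h2
  rw [if_pos (self_mem F hirr), trF_gcj F hF hχ σ, h, h2] at h3
  exact hG h3.symm

include hF in
theorem fix_iff {χ : G → ℂ} (hχ : IrrCh χ) {p q : G → ℂ}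
    (hp : ∃ σ : ℂ ≃+* ℂ, gcj σ χ = p) (hq : ∃ σ : ℂ ≃+* ℂ, gcj σ χ = q) :
    trF F q = trF F p ↔ q ∈ cj F p := by
  obtain ⟨σ, rfl⟩ := hp
  obtain ⟨τ, rfl⟩ := hq
  have hirr := RLCx.irr_gcj χ hχ σ
  constructor
  · intro h
    have h1 : gcj (σ.symm.trans τ) (gcj σ χ) = gcj τ χ := by
      funext g
      show τ (σ.symm (σ (χ g))) = τ (χ g)
      rw [RingEquiv.symm_apply_apply]
    have h2 := of_fix F hF hirr (σ.symm.trans τ) (by
      rw [← trF_gcj F hF hirr, h1, h])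
    rwa [h1] at h2
  · intro h
    obtain ⟨s, hs, hsq⟩ := (mem_cj F hirr _).1 h
    rw [← hsq, trF_gcj F hF hirr s]
    funext g
    exact hs _ (trF_mem F g)

include hF in
/-- `Tr (Tr_F χ) = Tr χ`. -/
theorem trChar_trF {χ : G → ℂ} (hχ : IrrCh χ) : trChar (trF F χ) = trChar χ := by
  have hint : ∀ g, IsIntegral ℚ (trF F χ g) := fun g => by
    rw [trF_cj F hF hχ]
    exact IsIntegral.sum _ fun p hp => intg (irr_cj F hχ hp) g
  -- the conjugates of `χ`
  let A : Finset (G → ℂ) := (ZFS_thm G).toFinset.filter fun p => ∃ σ : ℂ ≃+* ℂ, gcj σ χ = p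
  have hA : ∀ p, p ∈ A ↔ ∃ σ : ℂ ≃+* ℂ, gcj σ χ = p := by
    intro p
    rw [Finset.mem_filter]
    refine ⟨fun h => h.2, fun h => ⟨?_, h⟩⟩
    obtain ⟨σ, rfl⟩ := h
    exact (Set.Finite.mem_toFinset _).2 (RLCx.irr_gcj χ hχ σ)
  have hB : ∀ p, p ∈ A.image (trF F) ↔ ∃ σ : ℂ ≃+* ℂ, gcj σ (trF F χ) = p := by
    intro p
    rw [Finset.mem_image]
    constructor
    · rintro ⟨q, hq, rfl⟩
      obtain ⟨σ, rfl⟩ := (hA q).1 hq
      exact ⟨σ, (trF_gcj F hF hχ σ).symm⟩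
    · rintro ⟨σ, rfl⟩
      exact ⟨gcj σ χ, (hA _).2 ⟨σ, rfl⟩, trF_gcj F hF hχ σ⟩
  funext g
  rw [trChar_eq χ (intg hχ) A hA, trChar_eq (trF F χ) hint _ hB,
    ← Finset.sum_fiberwise_of_maps_to (t := A.image (trF F)) (g := trF F)
      (fun p hp => Finset.mem_image_of_mem _ hp)]
  refine Finset.sum_congr rfl fun p hp => ?_
  obtain ⟨q, hq, rfl⟩ := Finset.mem_image.1 hp
  obtain ⟨σ, hσ⟩ := (hA q).1 hq
  have hirr : IrrCh q := by
    rw [← hσ]
    exact RLCx.irr_gcj χ hχ σ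
  rw [trF_cj F hF hirr]
  refine Finset.sum_congr ?_ fun _ _ => rfl
  ext r
  rw [Finset.mem_filter]
  constructor
  · intro hr
    have hr' : ∃ τ : ℂ ≃+* ℂ, gcj τ χ = r := by
      obtain ⟨s, _, hs⟩ := (mem_cj F hirr r).1 hr
      refine ⟨σ.trans s, ?_⟩
      rw [← hs, ← hσ]
      rfl
    exact ⟨(hA r).2 hr', (fix_iff F hF hχ ⟨σ, hσ⟩ hr').2 hr⟩
  · rintro ⟨h1, h2⟩
    exact (fix_iff F hF hχ ⟨σ, hσ⟩ ((hA r).1 h1)).1 h2

include hF in
/-- `F ∩ ℚ(χ)` is contained in the field of the trace. -/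
theorem inf_le {χ : G → ℂ} (hχ : IrrCh χ) : F ⊓ charField χ ≤ charField (trF F χ) := by
  intro x hx
  have h1 : x ∈ (charField (trF F χ)).toSubfield := by
    refine FIXCx.core _ x fun σ hσ => ?_
    have h2 : gcj σ (trF F χ) = trF F χ := by
      funext g
      exact hσ _ (IntermediateField.subset_adjoin ℚ _ (Set.mem_range_self g))
    obtain ⟨s, hs, hsq⟩ := (mem_cj F hχ _).1 (of_fix F hF hχ σ h2)
    rw [agree χ σ s hsq.symm hx.2]
    exact hs x hx.1
  exact h1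

end

end FINC3x

section

variable {K L : Type} [Field K] [NumberField K] [Field L] [NumberField L] [Algebra K L]
  [IsGalois K L] (S : Finset (HeightOneSpectrum (𝓞 K)))
  (Θ : ((L → ℝ) →₀ ℂ) →ₗ[ℂ] ((L → ℝ) →₀ ℂ))

/-- Stark in norm by the trace criterion (the third case of `InB`). -/
theorem good_c3 (hΘ : StarkP.IsTheta K (StarkP.aboveSet K L S) Θ)
    (V : Type) [AddCommGroup V] [Module ℂ V] [Module.Finite ℂ V]
    (ρ : Representation ℂ (L ≃ₐ[K] L) V) (hirr : ρ.IsIrreducible) (F : IntermediateField ℚ ℂ)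
    (hF : FiniteDimensional ℚ F)
    (h : ∃ n : ℕ, 0 < n ∧ IsCyclic (ZMod n)ˣ ∧
      StarkP.MonComb n (StarkP.traceOver F ρ.character) ∧
      StarkP.MonComb 1 (StarkP.trChar ρ.character)) :
    StarkP.NormIn (F ⊓ StarkP.charField ρ.character) ρ.character
      (S : Set (HeightOneSpectrum (𝓞 K))) Θ := by
  obtain ⟨n, hn, hc, hM, hP⟩ := h
  have hχ : IrrCh ρ.character := ⟨V, inferInstance, inferInstance, inferInstance, ρ, hirr, rfl⟩
  have h0 : StarkP.traceOver F ρ.character = SOL3x.trF F ρ.character := rfl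
  have h1 := FINC3x.trChar_trF F hF hχ
  have hle := FINC3x.inf_le F hF hχ
  rw [h0, GTRx.mon_iff] at hM
  rw [GTRx.perm_iff, ← h1] at hP
  have h2 := norm_of_spanN S Θ hΘ (SOL3x.trF F ρ.character) n hn hc hP hM
  have hfd : FiniteDimensional ℚ (StarkP.charField (SOL3x.trF F ρ.character)) :=
    ZENx.fin_of hn _ (charField_le_of_monC _ n hn hM)
  have h3 := FINZIx.normIn_le S Θ _ _ _ hle hfd h2
  unfold StarkP.NormIn at h3 ⊢
  rw [h1] at h3
  exact h3

end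

end StarkC.ABS
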