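import Pool.Agent.ABS.FINC3
import Pool.Agent.ABS.VNI

/-!
# Project ABS: the trace over `F` is the trace over `F ∩ ℚ(χ)`
-/

set_option autoImplicit false

open scoped Classical

namespace StarkC.ABS

open StarkP (rootField charField)

/-- The trace of an irreducible character `χ` over `F` is the trace over `F ∩ ℚ(χ)`. -/
theorem trF_inf {G : Type} [Group G] [Fintype G] (χ : G → ℂ) (hχ : IrrCh χ)
    (F : IntermediateField ℚ ℂ) (N : ℕ) (hN : 0 < N) (hF : F ≤ rootField N) :
    SOL3x.trF F χ = SOL3x.trF (F ⊓ charField χ) χ := by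
  have hfd : FiniteDimensional ℚ F := ZENx.fin_of hN F hF
  have hfd' : FiniteDimensional ℚ (F ⊓ charField χ : IntermediateField ℚ ℂ) :=
    ZENx.fin_of hN _ (inf_le_left.trans hF)
  have hM : charField χ ≤ rootField (Fintype.card G) := by
    unfold StarkP.charField
    rw [IntermediateField.adjoin_le_iff]
    rintro _ ⟨g, rfl⟩
    exact FINC3x.val hχ g
  have hN' : 0 < N * Fintype.card G := Nat.mul_pos hN Fintype.card_pos
  have hle : ∀ a b : ℕ, rootField a ≤ rootField (a * b) ∧ rootField b ≤ rootField (a * b) := by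
    intro a b
    constructor
    · refine IntermediateField.adjoin.mono _ _ _ fun z hz => ?_
      show z ^ (a * b) = 1
      rw [pow_mul, show z ^ a = 1 from hz, one_pow]
    · refine IntermediateField.adjoin.mono _ _ _ fun z hz => ?_
      show z ^ (a * b) = 1
      rw [mul_comm, pow_mul, show z ^ b = 1 from hz, one_pow]
  have hv := (VNI_thm SIGT_thm (N * Fintype.card G) (charField χ) F hN'
    (hM.trans (hle N (Fintype.card G)).2) (hF.trans (hle N (Fintype.card G)).1)).2
  have hset : ∀ p : G → ℂ, p ∈ FINC3x.cj F χ ↔ p ∈ SOL3x.Cj (F ⊓ charField χ) χ := by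
    intro p
    rw [FINC3x.mem_cj F hχ]
    constructor
    · rintro ⟨σ, hσ, rfl⟩
      exact ⟨σ, fun x hx => hσ x hx.1, rfl⟩
    · rintro ⟨σ, hσ, rfl⟩
      obtain ⟨s, hs, hs'⟩ := hv σ fun x hx => hσ x ⟨hx.2, hx.1⟩
      refine ⟨s, hs, ?_⟩
      funext g
      exact hs' _ (IntermediateField.subset_adjoin ℚ _ (Set.mem_range_self g))
  funext g
  rw [FINC3x.trF_cj F hfd hχ, SOL3x.trF_eq (F ⊓ charField χ) hfd' χ (FINC3x.intg hχ) _ hset g]

end StarkC.ABS
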