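import Pool.Agent.ABS.FING
import Pool.Agent.ABS.PFN
import Pool.Agent.ABS.DKR
import Pool.Agent.ABS.DTN
import Pool.Agent.ABS.DCG
import Pool.Agent.ABS.DMU
import Pool.Agent.ABS.DQU
import Pool.Agent.ABS.DCO
import Pool.Agent.ABS.DFG
import Pool.Agent.ABS.DPR
import Pool.Agent.ABS.DUR
import Pool.Agent.ABS.DGI
import Pool.Agent.ABS.DUN
import Pool.Agent.ABS.DPO
import Pool.Agent.ABS.DHI
import Pool.Agent.ABS.DGE
import Pool.Agent.ABS.DNE
import Pool.Agent.ABS.DTG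
import Pool.Agent.ABS.DCX
import Pool.Agent.ABS.DCB
import Pool.Agent.ABS.DEM
import Pool.Agent.ABS.DEN
import Pool.Agent.ABS.DI1
import Pool.Agent.ABS.DI2
import Pool.Agent.ABS.DI4
import Pool.Agent.ABS.DRC
import Pool.Agent.ABS.DRB
import Pool.Agent.ABS.DZH
import Pool.Agent.ABS.DBS
import Pool.Agent.ABS.DLI
import Pool.Agent.ABS.DPH
import Pool.Agent.ABS.DSP
import Pool.Agent.ABS.DSR
import Pool.Agent.ABS.DSL
import Pool.Agent.ABS.DTW
import Pool.Agent.ABS.DST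
import Pool.Agent.ABS.DIF
import Pool.Agent.ABS.DFL
import Pool.Agent.ABS.DRT
import Pool.Agent.ABS.DLL
import Pool.Agent.ABS.DLV
import Pool.Agent.ABS.DBB
import Pool.Agent.ABS.DFI
import Pool.Agent.ABS.DP2
import Pool.Agent.ABS.DPS
import Pool.Agent.ABS.DRE
import Pool.Agent.ABS.DPE

/-!
# Project ABS, part D: assembly
-/

set_option autoImplicit false

open NumberField IsDedekindDomain
open scoped TensorProduct Classical

namespace StarkC.ABS

namespace FINDx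

theorem conclE : _root_.ABS.ConclE :=
  _root_.ABS.DNE_thm _root_.ABS.DFG_thm _root_.ABS.DPR_thm _root_.ABS.DUR_thm _root_.ABS.DGI_thm
    _root_.ABS.DUN_thm _root_.ABS.DPO_thm _root_.ABS.DHI_thm _root_.ABS.DGE_thm

theorem quotG : _root_.ABS.QuotG := _root_.ABS.DTN_thm _root_.ABS.CRD_thm _root_.ABS.DKR_thm

theorem coreG : _root_.ABS.CoreG :=
  _root_.ABS.DCO_thm quotG _root_.ABS.CLN_thm _root_.ABS.DCG_thm _root_.ABS.DMU_thm
    _root_.ABS.JN_thm _root_.ABS.JV_thm _root_.ABS.LJ_thm _root_.ABS.LG_thm _root_.ABS.DQU_thm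
    _root_.ABS.REG1_thm _root_.ABS.XI_thm _root_.ABS.MUL_thm _root_.ABS.COMN_thm

theorem corep : StarkP.ABS.Stmt_DCOREP :=
  DCX_thm _root_.ABS.IOT_thm _root_.ABS.LMU_thm _root_.ABS.SPN_thm _root_.ABS.TRE_thm
    _root_.ABS.JN_thm _root_.ABS.JV_thm _root_.ABS.LG_thm _root_.ABS.TRF_thm _root_.ABS.DTC_thm
    coreG DTG_thm

theorem core : Stmt_DCORE := DCB_thm corep REGI_thm

theorem dtw : ConclDTW := DTW_thm conclE SIGT_thm DEM_thm

theorem dph : ConclDPH :=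
  DPH_thm FIXC_thm SIGT_thm NORMT_thm (DEN_thm SIGT_thm PFN_thm) DLI_thm DRC_thm

theorem conclPD : ConclPD :=
  DFI_thm
    (DBS_thm conclE SIGT_thm DEM_thm core CHI_thm REGI_thm FINFx.zeta FINGx.one DI1_thm DI2_thm
      DRC_thm DRB_thm DZH_thm)
    (DST_thm (DI1_thm CHI_thm) DRC_thm (DSR_thm DSP_thm) DSL_thm dtw dph)
    dph DIF_thm DFL_thm DRT_thm DLL_thm DLV_thm DBB_thm

end FINDx

open FINDx in
/-- Theorem (D). -/
theorem conclD : ConclD := DPE_thm conclPD dtw DP2_thm DI4_thm REGC_thm DPS_thm DRE_thm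

end StarkC.ABS
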