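import Pool.Agent.ABS.StB

/-!
# ABS_NPOS: the norm of a nonzero element of `ℚ(ζ_n)`, `n ≥ 3`, is positive
-/

open NumberField
open scoped Classical

namespace StarkC.ABS

namespace NPOSx

lemma mem_Ex (n t : ℕ) : t ∈ Ex n ↔ t < n ∧ n.Coprime t := by
  unfold Ex
  rw [Finset.mem_filter, Finset.mem_range]

lemma ne_zero_of_mem {n t : ℕ} (hn : 3 ≤ n) (h : t ∈ Ex n) : t ≠ 0 := by
  rintro rfl
  have h1 := ((mem_Ex n 0).1 h).2
  rw [Nat.coprime_zero_right] at h1
  omega

lemma two_ne {n t : ℕ} (hn : 3 ≤ n) (h : t ∈ Ex n) : 2 * t ≠ n := by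
  intro h1
  have h2 := ((mem_Ex n t).1 h).2
  have h3 : t ∣ n := ⟨2, by omega⟩
  have h4 : t = 1 := Nat.eq_one_of_dvd_coprimes h2 h3 dvd_rfl
  omega

lemma sub_mem {n t : ℕ} (hn : 3 ≤ n) (h : t ∈ Ex n) : n - t ∈ Ex n := by
  have h0 := ne_zero_of_mem hn h
  have h1 := (mem_Ex n t).1 h
  rw [mem_Ex]
  exact ⟨by omega, (Nat.coprime_self_sub_right h1.1.le).2 h1.2⟩

/-- a choice of automorphisms of `ℂ` compatible with the conjugation -/
noncomputable def sg (n : ℕ) (σ : ℕ → (ℂ ≃+* ℂ)) (t : ℕ) : ℂ ≃+* ℂ :=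
  if 2 * t < n then σ t else (σ (n - t)).trans (starRingAut : ℂ ≃+* ℂ)

end NPOSx

open NPOSx

theorem NPOS_thm : Stmt_NPOS := by
  intro hS hN n hn α hα
  choose! σ0 hσ0 using hS n
  have hσ : ∀ t ∈ Ex n, ∀ z : ℂ, z ^ n = 1 → sg n σ0 t z = z ^ t := by
    intro t ht z hz
    have h1 := (mem_Ex n t).1 ht
    unfold sg
    split_ifs with h2
    · exact hσ0 t (by omega) h1.2 z hz
    · have h3 := sub_mem hn ht
      have h4 := hσ0 (n - t) (by omega) ((mem_Ex n _).1 h3).2 z hz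
      rw [RingEquiv.trans_apply, h4]
      change (starRingEnd ℂ) (z ^ (n - t)) = z ^ t
      have h5 : ‖z‖ = 1 := by
        have h6 : ‖z‖ ^ n = 1 := by rw [← norm_pow, hz, norm_one]
        exact (pow_eq_one_iff_of_nonneg (norm_nonneg z) (by omega)).1 h6
      have h6 : (starRingEnd ℂ) z * z = 1 := by
        rw [mul_comm, Complex.mul_conj, Complex.normSq_eq_norm_sq, h5]
        norm_num
      rw [map_pow]
      have h7 : (starRingEnd ℂ) z ^ (n - t) * z ^ (n - t) = 1 := by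
        rw [← mul_pow, h6, one_pow]
      have h8 : z ^ t * z ^ (n - t) = 1 := by
        rw [← pow_add, show t + (n - t) = n by omega, hz]
      have h9 : z ^ (n - t) ≠ 0 := right_ne_zero_of_mul_eq_one h8
      exact mul_right_cancel₀ h9 (h7.trans h8.symm)
  have hprod := hN n (sg n σ0) (by omega) hσ α
  have hne : ∀ t, σ0 t (α : ℂ) ≠ 0 := by
    intro t h
    rw [map_eq_zero_iff _ (σ0 t).injective] at h
    exact hα (by exact_mod_cast h)
  have h1 : ∏ t ∈ Ex n, sg n σ0 t α =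
      ∏ t ∈ (Ex n).filter (fun t => 2 * t < n), ((‖σ0 t (α : ℂ)‖ ^ 2 : ℝ) : ℂ) := by
    rw [← Finset.prod_filter_mul_prod_filter_not (Ex n) (fun t => 2 * t < n)]
    have h2 : ∏ t ∈ (Ex n).filter (fun t => ¬ 2 * t < n), sg n σ0 t α =
        ∏ t ∈ (Ex n).filter (fun t => 2 * t < n), (starRingEnd ℂ) (σ0 t (α : ℂ)) := by
      refine Finset.prod_nbij' (fun t => n - t) (fun t => n - t) ?_ ?_ ?_ ?_ ?_
      · intro t ht
        rw [Finset.mem_filter] at ht ⊢
        have h3 := two_ne hn ht.1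
        exact ⟨sub_mem hn ht.1, by omega⟩
      · intro t ht
        rw [Finset.mem_filter] at ht ⊢
        have h4 := (mem_Ex n t).1 ht.1
        exact ⟨sub_mem hn ht.1, by omega⟩
      · intro t ht
        rw [Finset.mem_filter] at ht
        have h4 := (mem_Ex n t).1 ht.1
        omega
      · intro t ht
        rw [Finset.mem_filter] at ht
        have h4 := (mem_Ex n t).1 ht.1
        omega
      · intro t ht
        rw [Finset.mem_filter] at ht
        unfold sg
        rw [if_neg ht.2]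
        rfl
    rw [h2, ← Finset.prod_mul_distrib]
    refine Finset.prod_congr rfl fun t ht => ?_
    rw [Finset.mem_filter] at ht
    unfold sg
    rw [if_pos ht.2, Complex.mul_conj, Complex.normSq_eq_norm_sq]
  refine ⟨∏ t ∈ (Ex n).filter (fun t => 2 * t < n), ‖σ0 t (α : ℂ)‖ ^ 2, ?_, ?_⟩
  · refine Finset.prod_pos fun t _ => ?_
    have := norm_pos_iff.2 (hne t)
    positivity
  · rw [hprod, h1]
    push_cast
    rfl

end StarkC.ABS
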