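import Pool.Agent.ABS.COMB

/-!
# ABS, module ORD2: characters of order `2 n`, `n` odd
-/

open NumberField IsDedekindDomain
open scoped TensorProduct Classical

namespace StarkC.ABS

namespace ORD2x

open COMBx

/-! ### The exponents -/

/-- The odd number in `{u, u + n}`. -/
def li (n u : ℕ) : ℕ := if Odd u then u else u + n

theorem mem_Ex {n t : ℕ} : t ∈ Ex n ↔ t < n ∧ n.Coprime t := by simp [Ex]

theorem li_odd {n : ℕ} (hn : Odd n) (u : ℕ) : Odd (li n u) := by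
  unfold li
  split_ifs with h
  · exact h
  · exact (Nat.not_odd_iff_even.1 h).add_odd hn

theorem li_mem {n u : ℕ} (hn : Odd n) (hu : u ∈ Ex n) : li n u ∈ Ex (2 * n) := by
  rw [mem_Ex] at hu ⊢
  refine ⟨?_, Nat.Coprime.mul_left ?_ ?_⟩
  · unfold li
    split_ifs <;> omega
  · exact (Nat.coprime_two_left).2 (li_odd hn u)
  · unfold li
    split_ifs
    · exact hu.2
    · rw [Nat.coprime_add_self_right]
      exact hu.2

theorem mod_mem {n t : ℕ} (hn : 0 < n) (ht : t ∈ Ex (2 * n)) : t % n ∈ Ex n := by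
  rw [mem_Ex] at ht ⊢
  refine ⟨Nat.mod_lt _ hn, ?_⟩
  have h1 : n.Coprime t := Nat.Coprime.coprime_mul_left ht.2
  have h2 : Nat.gcd n (t % n) = Nat.gcd n t := by
    rw [Nat.gcd_rec n t, Nat.gcd_comm]
  unfold Nat.Coprime at h1 ⊢
  rw [h2]
  exact h1

theorem li_mod {n t : ℕ} (hn : Odd n) (ht : t ∈ Ex (2 * n)) : li n (t % n) = t := by
  rw [mem_Ex] at ht
  have hodd : Odd t := by
    have h1 : Nat.Coprime 2 t := Nat.Coprime.coprime_mul_right ht.2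
    exact (Nat.coprime_two_left).1 h1
  unfold li
  by_cases h : t < n
  · rw [Nat.mod_eq_of_lt h, if_pos hodd]
  · have h1 : t % n = t - n := by
      rw [Nat.mod_eq_sub_mod (not_lt.1 h), Nat.mod_eq_of_lt (by omega)]
    have h2 : ¬ Odd (t - n) := by
      rw [Nat.not_odd_iff_even]
      exact Nat.Odd.sub_odd hodd hn
    rw [h1, if_neg h2]
    omega

theorem mod_li {n u : ℕ} (hu : u ∈ Ex n) : li n u % n = u := by
  rw [mem_Ex] at hu
  unfold li
  split_ifs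
  · exact Nat.mod_eq_of_lt hu.1
  · rw [Nat.add_mod_right, Nat.mod_eq_of_lt hu.1]

theorem prod_Ex {M : Type} [CommMonoid M] {n : ℕ} (hn : Odd n) (f : ℕ → M) :
    ∏ t ∈ Ex (2 * n), f t = ∏ u ∈ Ex n, f (li n u) :=
  Finset.prod_bij' (fun t _ => t % n) (fun u _ => li n u) (fun _ ht => mod_mem hn.pos ht)
    (fun _ hu => li_mem hn hu) (fun _ ht => li_mod hn ht) (fun _ hu => mod_li hu)
    fun t ht => by rw [li_mod hn ht]

theorem sum_Ex {M : Type} [AddCommMonoid M] {n : ℕ} (hn : Odd n) (f : ℕ → M) :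
    ∑ t ∈ Ex (2 * n), f t = ∑ u ∈ Ex n, f (li n u) :=
  Finset.sum_bij' (fun t _ => t % n) (fun u _ => li n u) (fun _ ht => mod_mem hn.pos ht)
    (fun _ hu => li_mem hn hu) (fun _ ht => li_mod hn ht) (fun _ hu => mod_li hu)
    fun t ht => by rw [li_mod hn ht]

/-! ### Group theory -/

section group

variable {G : Type} [Group G] [Fintype G] {n : ℕ} {ψ : G →* ℂˣ}

theorem pow_two_n (hcard : Nat.card G = 2 * n) (g : G) : ((ψ g : ℂˣ) : ℂ) ^ (2 * n) = 1 := by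
  rw [← Units.val_pow_eq_pow_val, ← map_pow, ← hcard, pow_card_eq_one', map_one, Units.val_one]

theorem pow_n (hcard : Nat.card G = 2 * n) (g : G) :
    ((ψ g : ℂˣ) : ℂ) ^ n = 1 ∨ ((ψ g : ℂˣ) : ℂ) ^ n = -1 := by
  have h := pow_two_n (ψ := ψ) hcard g
  rw [mul_comm, pow_mul, sq] at h
  exact mul_self_eq_one_iff.1 h

theorem mem_ker {g : G} : g ∈ (ψ ^ n).ker ↔ ((ψ g : ℂˣ) : ℂ) ^ n = 1 := by
  rw [MonoidHom.mem_ker, MonoidHom.pow_apply, ← Units.val_inj, Units.val_pow_eq_pow_val,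
    Units.val_one]

theorem card_ker (hn : 0 < n) (hcard : Nat.card G = 2 * n) (hψ : Function.Injective ψ) :
    Nat.card (ψ ^ n).ker = n := by
  have hcyc : IsCyclic G :=
    isCyclic_of_subgroup_isDomain ((Units.coeHom ℂ).comp ψ) (Units.val_injective.comp hψ)
  have h1 : Nat.card (ψ ^ n).ker ≤ n := by
    have h2 := IsCyclic.card_pow_eq_one_le (α := G) hn
    refine le_trans (le_of_eq ?_) h2
    rw [Nat.card_eq_fintype_card, Fintype.card_subtype]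
    congr 1
    ext g
    rw [Finset.mem_filter, Finset.mem_filter, MonoidHom.mem_ker, MonoidHom.pow_apply, ← map_pow]
    constructor
    · rintro ⟨-, h⟩
      exact ⟨Finset.mem_univ _, hψ (h.trans (map_one ψ).symm)⟩
    · rintro ⟨-, h⟩
      exact ⟨Finset.mem_univ _, by rw [h, map_one]⟩
  have h3 : Nat.card (ψ ^ n).range ≤ 2 := by
    have h4 : ((ψ ^ n).range : Set ℂˣ) ⊆ {1, -1} := by
      rintro _ ⟨g, rfl⟩
      rw [MonoidHom.pow_apply]
      rcases pow_n (ψ := ψ) hcard g with h | h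
      · left
        exact Units.ext (by rw [Units.val_pow_eq_pow_val, h, Units.val_one])
      · right
        exact Units.ext (by rw [Units.val_pow_eq_pow_val, h, Units.val_neg, Units.val_one])
    have h5 := Set.ncard_le_ncard h4 (Set.toFinite _)
    have h6 : ({1, -1} : Set ℂˣ).ncard ≤ 2 := by
      refine (Set.ncard_insert_le _ _).trans ?_
      rw [Set.ncard_singleton]
    exact h5.trans h6
  have h7 : Nat.card G = Nat.card (ψ ^ n).range * Nat.card (ψ ^ n).ker := by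
    rw [Subgroup.card_eq_card_quotient_mul_card_subgroup (ψ ^ n).ker,
      Nat.card_congr (QuotientGroup.quotientKerEquivRange (ψ ^ n)).toEquiv]
  have h8 := Nat.mul_le_mul_right (Nat.card (ψ ^ n).ker) h3
  omega

theorem indFun_ker (hn : 0 < n) (hcard : Nat.card G = 2 * n) (hψ : Function.Injective ψ)
    (c : G →* ℂˣ) (g : G) :
    indFun (ψ ^ n).ker (extZ (c.comp (ψ ^ n).ker.subtype)) g =
      if ((ψ g : ℂˣ) : ℂ) ^ n = 1 then 2 * ((c g : ℂˣ) : ℂ) else 0 := by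
  have hcomm : ∀ x : G, x⁻¹ * g * x = g := by
    intro x
    apply hψ
    rw [map_mul, map_mul, map_inv, mul_comm, ← mul_assoc, mul_inv_cancel, one_mul]
  unfold indFun
  simp only [hcomm]
  rw [card_ker hn hcard hψ, Finset.sum_const, Finset.card_univ, ← Nat.card_eq_fintype_card,
    hcard, nsmul_eq_mul]
  have hn0 : (n : ℂ) ≠ 0 := by exact_mod_cast hn.ne'
  by_cases h : ((ψ g : ℂˣ) : ℂ) ^ n = 1
  · rw [if_pos (mem_ker.2 h), if_pos h]
    unfold extZ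
    rw [dif_pos (mem_ker.2 h)]
    show ((2 * n : ℕ) : ℂ) * ((c g : ℂˣ) : ℂ) / n = _
    push_cast
    field_simp
  · rw [if_neg (fun h' => h (mem_ker.1 h')), if_neg h]
    simp

theorem indFun_top (c : G →* ℂˣ) (g : G) :
    indFun (⊤ : Subgroup G) (extZ (c.comp (⊤ : Subgroup G).subtype)) g = ((c g : ℂˣ) : ℂ) := by
  have h1 : ∀ x : G, extZ (c.comp (⊤ : Subgroup G).subtype) x = ((c x : ℂˣ) : ℂ) := by
    intro x
    unfold extZ
    rw [dif_pos (Subgroup.mem_top x)]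
    rfl
  have h2 : ∀ x : G, c (x⁻¹ * g * x) = c g := by
    intro x
    rw [map_mul, map_mul, map_inv, mul_comm, ← mul_assoc, mul_inv_cancel, one_mul]
  have h3 : Nat.card (⊤ : Subgroup G) = Nat.card G := Nat.card_congr Subgroup.topEquiv.toEquiv
  have h4 : (Nat.card G : ℂ) ≠ 0 := by
    exact_mod_cast (Nat.card_pos (α := G)).ne'
  have h5 : (∑ x : G, if x⁻¹ * g * x ∈ (⊤ : Subgroup G) then
      extZ (c.comp (⊤ : Subgroup G).subtype) (x⁻¹ * g * x) else 0) =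
      ∑ _x : G, ((c g : ℂˣ) : ℂ) :=
    Finset.sum_congr rfl fun x _ => by rw [if_pos (Subgroup.mem_top _), h1, h2]
  unfold indFun
  rw [h5, h3, Finset.sum_const, Finset.card_univ, ← Nat.card_eq_fintype_card, nsmul_eq_mul]
  field_simp

/-- The characters of order `2 n`. -/
theorem chars (hn : Odd n) (hcard : Nat.card G = 2 * n) (hψ : Function.Injective ψ) (u : ℕ)
    (g : G) :
    ((ψ g : ℂˣ) : ℂ) ^ (li n u) =
      indFun (ψ ^ n).ker (extZ ((ψ ^ u).comp (ψ ^ n).ker.subtype)) g -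
        ((((ψ ^ (n + 1)) ^ u) g : ℂˣ) : ℂ) := by
  rw [indFun_ker hn.pos hcard hψ]
  set z : ℂ := ((ψ g : ℂˣ) : ℂ) with hz
  have e1 : (((ψ ^ u) g : ℂˣ) : ℂ) = z ^ u := by
    rw [MonoidHom.pow_apply, Units.val_pow_eq_pow_val]
  have e2 : ((((ψ ^ (n + 1)) ^ u) g : ℂˣ) : ℂ) = (z ^ (n + 1)) ^ u := by
    rw [MonoidHom.pow_apply, MonoidHom.pow_apply, Units.val_pow_eq_pow_val,
      Units.val_pow_eq_pow_val]
  rw [e1, e2]
  rcases pow_n (ψ := ψ) hcard g with h | h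
  · rw [← hz] at h
    rw [if_pos h, pow_succ, h, one_mul]
    have h2 : z ^ (li n u) = z ^ u := by
      unfold li
      split_ifs
      · rfl
      · rw [pow_add, h, mul_one]
    rw [h2]
    ring
  · rw [← hz] at h
    have h1 : ¬ z ^ n = 1 := by
      rw [h]
      norm_num
    rw [if_neg h1, pow_succ, h, zero_sub, neg_one_mul]
    unfold li
    split_ifs with hu
    · rw [hu.neg_pow, neg_neg]
    · rw [(Nat.not_odd_iff_even.1 hu).neg_pow, pow_add, h]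
      ring

end group

/-! ### Regulators and series -/

section arith

variable {K L : Type} [Field K] [NumberField K] [Field L] [NumberField L] [Algebra K L]
  [IsGalois K L] {n : ℕ} {ψ : (L ≃ₐ[K] L) →* ℂˣ}

/-- the form of `IND.reg_comb` for restrictions of characters of the group -/
theorem reg_comb (S : Finset (HeightOneSpectrum (𝓞 K)))
    (φ : XQ L (aboveSet K L S) ≃ₗ[ℚ] QU L (aboveSet K L S))
    (Θ : XC L (aboveSet K L S) →ₗ[ℂ] XC L (aboveSet K L S))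
    (hφ : IsPhiTheta K (aboveSet K L S) φ Θ) (c₀ : (L ≃ₐ[K] L) →* ℂˣ)
    (m : ℕ) (H : Fin m → Subgroup (L ≃ₐ[K] L)) (c : Fin m → ((L ≃ₐ[K] L) →* ℂˣ)) (e : Fin m → ℤ)
    (hχ : ∀ g, ((c₀ g : ℂˣ) : ℂ) =
      ∑ i, (e i : ℂ) * indFun (H i) (extZ ((c i).comp (H i).subtype)) g) :
    Reg (aboveSet K L S) (linRep c₀) Θ =
      ∏ i, Reg (aboveSet K L S) (linRep (liftChar (H i) ((c i).comp (H i).subtype))) Θ ^ e i := by
  have hTf : (aboveSet K L (S : Set (HeightOneSpectrum (𝓞 K)))).Finite :=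
    IND.aboveSet_finite _ S.finite_toSet
  have hT := STB_thm K L (S : Set (HeightOneSpectrum (𝓞 K)))
  have hc := ALLT.thc K L _ hT φ Θ hTf hφ
  have hb := ALLT.thb K L _ φ Θ hTf hφ
  exact IND.reg_comb TRD_thm ALLT.rgt hTf hT Θ hb hc ℂ (linRep c₀) m H
    (fun i => (c i).comp (H i).subtype) e (fun g => by rw [IND.linRep_character]; exact hχ g)

theorem reg_top (S : Finset (HeightOneSpectrum (𝓞 K)))
    (φ : XQ L (aboveSet K L S) ≃ₗ[ℚ] QU L (aboveSet K L S))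
    (Θ : XC L (aboveSet K L S) →ₗ[ℂ] XC L (aboveSet K L S))
    (hφ : IsPhiTheta K (aboveSet K L S) φ Θ) (c : (L ≃ₐ[K] L) →* ℂˣ) :
    Reg (aboveSet K L S) (linRep (liftChar (⊤ : Subgroup (L ≃ₐ[K] L))
      (c.comp (⊤ : Subgroup (L ≃ₐ[K] L)).subtype))) Θ = Reg (aboveSet K L S) (linRep c) Θ := by
  have h := reg_comb S φ Θ hφ c 1 (fun _ => ⊤) (fun _ => c) (fun _ => 1) (fun g => by
    rw [Fin.sum_univ_one, indFun_top, Int.cast_one, one_mul])
  rw [h, Fin.prod_univ_one, zpow_one]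

theorem reg_two (S : Finset (HeightOneSpectrum (𝓞 K)))
    (φ : XQ L (aboveSet K L S) ≃ₗ[ℚ] QU L (aboveSet K L S))
    (Θ : XC L (aboveSet K L S) →ₗ[ℂ] XC L (aboveSet K L S))
    (hφ : IsPhiTheta K (aboveSet K L S) φ Θ) (hn : Odd n)
    (hcard : Nat.card (L ≃ₐ[K] L) = 2 * n) (hψ : Function.Injective ψ) (u : ℕ) :
    Reg (aboveSet K L S) (linRep (ψ ^ (li n u))) Θ *
        Reg (aboveSet K L S) (linRep ((ψ ^ (n + 1)) ^ u)) Θ =
      Reg (aboveSet K L S) (linRep (liftChar (ψ ^ n).ker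
        ((ψ ^ u).comp (ψ ^ n).ker.subtype))) Θ := by
  have h := reg_comb S φ Θ hφ (ψ ^ (li n u)) 2 ![(ψ ^ n).ker, ⊤] ![ψ ^ u, (ψ ^ (n + 1)) ^ u]
    ![1, -1] (fun g => by
      rw [Fin.sum_univ_two, MonoidHom.pow_apply, Units.val_pow_eq_pow_val,
        chars hn hcard hψ u g]
      show _ = ((1 : ℤ) : ℂ) * indFun (ψ ^ n).ker (extZ ((ψ ^ u).comp (ψ ^ n).ker.subtype)) g +
        ((-1 : ℤ) : ℂ) * indFun ⊤ (extZ (((ψ ^ (n + 1)) ^ u).comp
          (⊤ : Subgroup (L ≃ₐ[K] L)).subtype)) g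
      rw [indFun_top]
      push_cast
      ring)
  rw [Fin.prod_univ_two] at h
  have h2 : Reg (aboveSet K L S) (linRep (ψ ^ (li n u))) Θ =
      Reg (aboveSet K L S) (linRep (liftChar (ψ ^ n).ker
        ((ψ ^ u).comp (ψ ^ n).ker.subtype))) Θ ^ (1 : ℤ) *
      Reg (aboveSet K L S) (linRep (liftChar (⊤ : Subgroup (L ≃ₐ[K] L))
        (((ψ ^ (n + 1)) ^ u).comp (⊤ : Subgroup (L ≃ₐ[K] L)).subtype))) Θ ^ (-1 : ℤ) := h
  have hne := StarkG.reg_ne_zero S φ Θ hφ ℂ (linRep ((ψ ^ (n + 1)) ^ u))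
  rw [h2, reg_top S φ Θ hφ, zpow_one, zpow_neg_one, mul_assoc, inv_mul_cancel₀ hne, mul_one]

theorem cReg_two (S : Finset (HeightOneSpectrum (𝓞 K)))
    (φ : XQ L (aboveSet K L S) ≃ₗ[ℚ] QU L (aboveSet K L S))
    (Θ : XC L (aboveSet K L S) →ₗ[ℂ] XC L (aboveSet K L S))
    (hφ : IsPhiTheta K (aboveSet K L S) φ Θ) (hn : Odd n)
    (hcard : Nat.card (L ≃ₐ[K] L) = 2 * n) (hψ : Function.Injective ψ) :
    cReg (2 * n) (aboveSet K L S) ψ Θ * cReg n (aboveSet K L S) (ψ ^ (n + 1)) Θ =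
      cReg n (aboveSet K L S) (liftChar (ψ ^ n).ker (ψ.comp (ψ ^ n).ker.subtype)) Θ := by
  unfold cReg
  rw [prod_Ex hn, ← Finset.prod_mul_distrib]
  refine Finset.prod_congr rfl fun u _ => ?_
  rw [reg_two S φ Θ hφ hn hcard hψ u]
  rfl

theorem cSum_two (hn : Odd n) (hcard : Nat.card (L ≃ₐ[K] L) = 2 * n)
    (hψ : Function.Injective ψ) (g : L ≃ₐ[K] L) :
    cSum (2 * n) ψ g = ∑ t ∈ Ex n, indFun (ψ ^ n).ker
      (extZ ((ψ.comp (ψ ^ n).ker.subtype) ^ t)) g - cSum n (ψ ^ (n + 1)) g := by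
  unfold cSum
  rw [sum_Ex hn, ← Finset.sum_sub_distrib]
  refine Finset.sum_congr rfl fun u _ => ?_
  rw [chars hn hcard hψ u g, MonoidHom.pow_apply (ψ ^ (n + 1)), Units.val_pow_eq_pow_val]
  rfl

theorem logL_two (hn : Odd n) (hcard : Nat.card (L ≃ₐ[K] L) = 2 * n)
    (hψ : Function.Injective ψ) (s : ℂ) (hs : 1 < s.re) :
    logL (cSum (2 * n) ψ) (∅ : Set (HeightOneSpectrum (𝓞 K))) s =
      logL (cSum n (liftChar (ψ ^ n).ker (ψ.comp (ψ ^ n).ker.subtype)))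
        (∅ : Set (HeightOneSpectrum (𝓞 (IntermediateField.fixedField (ψ ^ n).ker)))) s -
      logL (cSum n (ψ ^ (n + 1))) (∅ : Set (HeightOneSpectrum (𝓞 K))) s := by
  have h2 : cSum (2 * n) ψ = fun g => ∑ i : Fin 2, (![(1 : ℂ), -1] : Fin 2 → ℂ) i *
      (![fun g => ∑ t ∈ Ex n, indFun (ψ ^ n).ker
        (extZ ((ψ.comp (ψ ^ n).ker.subtype) ^ t)) g, cSum n (ψ ^ (n + 1))] :
        Fin 2 → (L ≃ₐ[K] L) → ℂ) i g := by
    funext g
    rw [cSum_two hn hcard hψ g, Fin.sum_univ_two]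
    simp
    ring
  rw [h2, IND.logL_sum LA_thm ALLT.lb _ s hs, Fin.sum_univ_two]
  simp only [Matrix.cons_val_zero, Matrix.cons_val_one]
  rw [logL_ind (∅ : Set (HeightOneSpectrum (𝓞 K))) s hs n (ψ ^ n).ker
    (ψ.comp (ψ ^ n).ker.subtype)
    (∅ : Set (HeightOneSpectrum (𝓞 (IntermediateField.fixedField (ψ ^ n).ker)))) rfl]
  ring

end arith

theorem nm_transfer {a b : ℕ} (h : Cyc a = Cyc b) (β : Cyc b) (hβ : β ≠ 0) :
    ∃ α : Cyc a, α ≠ 0 ∧ nm a α = nm b β := by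
  let e : Cyc a ≃ₐ[ℚ] Cyc b := IntermediateField.equivOfEq h
  refine ⟨e.symm β, ?_, ?_⟩
  · intro h0
    apply hβ
    have := congrArg e h0
    rwa [AlgEquiv.apply_symm_apply, map_zero] at this
  · unfold nm
    rw [Algebra.norm_eq_of_algEquiv e.symm β]

end ORD2x

open ORD2x COMBx in
/-- **The module.** -/
theorem ORD2_thm : Stmt_ORD2 := by
  intro hCYC n K L _ _ _ _ _ _ ψ hn hn1 hcard hψ hH hχ φ Θ hφ
  obtain ⟨F₁, α₁, hF₁, hα₁, hR₁⟩ := pp_of (hH (ψ ^ n).ker (card_ker hn.pos hcard hψ))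
    (T := aboveSet K L ((∅ : Finset (HeightOneSpectrum (𝓞 K))) :
      Set (HeightOneSpectrum (𝓞 K)))) (by
      ext w
      simp [aboveSet]) φ Θ (IND.isPhiTheta_sub _ hφ)
  obtain ⟨F₂, α₂, hF₂, hα₂, hR₂⟩ := hχ φ Θ hφ
  have hβ : α₁ * α₂⁻¹ ≠ 0 := mul_ne_zero hα₁ (inv_ne_zero hα₂)
  obtain ⟨α, hα, hnm⟩ := nm_transfer (hCYC n hn) (α₁ * α₂⁻¹) hβ
  have hnm2 : nm n (α₁ * α₂⁻¹) = nm n α₁ * (nm n α₂)⁻¹ := by
    have h1 := nm_zpow n α₂ hα₂ (-1)
    rw [zpow_neg_one, zpow_neg_one] at h1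
    rw [nm_mul, h1]
  refine ⟨fun z => ∏ i : Fin 2, (![F₁, F₂] : Fin 2 → ℂ → ℂ) i z ^ (![1, -1] : Fin 2 → ℤ) i, α,
    ⟨?_, ?_⟩, hα, ?_⟩
  · intro z
    refine MeromorphicAt.fun_prod fun i _ => ?_
    refine MeromorphicAt.fun_zpow ?_ _
    fin_cases i
    · exact hF₁.1 z
    · exact hF₂.1 z
  · intro s hs
    have h0 : (∏ i : Fin 2, (![F₁, F₂] : Fin 2 → ℂ → ℂ) i s ^ (![1, -1] : Fin 2 → ℤ) i) =
        F₁ s ^ (1 : ℤ) * F₂ s ^ (-1 : ℤ) := by
      rw [Fin.prod_univ_two]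
      rfl
    beta_reduce
    rw [h0]
    have h3 := hF₁.2 s hs
    have h4 := hF₂.2 s hs
    rw [Finset.coe_empty] at h3 h4 ⊢
    rw [h3, h4, logL_two hn hcard hψ s hs, zpow_one, zpow_neg_one, Complex.exp_sub,
      div_eq_mul_inv]
  · have hcr := cReg_two (∅ : Finset (HeightOneSpectrum (𝓞 K))) φ Θ hφ hn hcard hψ
    have hne : cReg n (aboveSet K L ((∅ : Finset (HeightOneSpectrum (𝓞 K))) :
        Set (HeightOneSpectrum (𝓞 K)))) (ψ ^ (n + 1)) Θ ≠ 0 := by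
      unfold cReg
      exact Finset.prod_ne_zero_iff.2 fun t _ => StarkG.reg_ne_zero _ φ Θ hφ ℂ _
    rw [INDT.lead_comb (![1, -1] : Fin 2 → ℤ) (![F₁, F₂] : Fin 2 → ℂ → ℂ) (fun i => by
      fin_cases i
      · exact hF₁.1 0
      · exact hF₂.1 0), Fin.prod_univ_two]
    show _ = nm (2 * n) α * (meromorphicTrailingCoeffAt F₁ 0 ^ (1 : ℤ) *
      meromorphicTrailingCoeffAt F₂ 0 ^ (-1 : ℤ))
    rw [hnm, hnm2, zpow_one, zpow_neg_one]
    rw [hR₁] at hcr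
    have h5 := eq_div_of_mul_eq hne hcr
    rw [h5, hR₂, div_eq_mul_inv, mul_inv]
    ring

end StarkC.ABS
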