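import Pool.Agent.ABS.StE

/-!
# Project ABS: module ORDN, all orders
-/

open NumberField IsDedekindDomain
open scoped TensorProduct Classical

namespace StarkC.ABS

/-- **ORDN**: all orders. -/
theorem ORDN_thm : Stmt_ORDN := by
  intro hC hComb hRam hIdx K L _ _ _ _ _ _ ℓ k m ψ S φ Θ hOk hm hcop hord hPT
  obtain ⟨q, hq⟩ : ∃ q, q = ℓ ^ k := ⟨_, rfl⟩
  have hq0 : 0 < q := by
    rw [hq]
    exact pow_pos (Nat.Prime.pos hOk.1) k
  rw [← hq] at hcop hord ⊢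
  obtain ⟨a, h1, h2⟩ := Nat.chineseRemainder hcop 1 0
  have ha : m ∣ a := (Nat.modEq_zero_iff_dvd).1 h2
  have ha1 : a % q = 1 % q := h1
  obtain ⟨e, -⟩ : ∃ e : Fin m.divisors.card ≃ m.divisors, True := ⟨m.divisors.equivFin.symm, trivial⟩
  have hdv : ∀ i, ((e i : m.divisors) : ℕ) ∣ m := fun i => Nat.dvd_of_mem_divisors (e i).2
  have key := hComb hC K L ℓ k S φ Θ m.divisors.card
    (fun i => (ψ ^ (q * ((e i : m.divisors) : ℕ))).ker)
    (fun i => (ψ ^ a).comp (ψ ^ (q * ((e i : m.divisors) : ℕ))).ker.subtype)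
    (fun i => ArithmeticFunction.moebius ((e i : m.divisors) : ℕ)) (cSum (q * m) ψ) hOk
  rw [← hq] at key
  refine key (fun i => (hIdx (L ≃ₐ[K] L) q m a _ ψ hq0 hm hcop ha1 ha hord (hdv i)).1) hPT ?_
  intro g
  obtain ⟨z, hz⟩ : ∃ z : ℂ, z = ((ψ g : ℂˣ) : ℂ) := ⟨_, rfl⟩
  have hz1 : z ^ (q * m) = 1 := by
    rw [hz, ← Units.val_pow_eq_pow_val, ← MonoidHom.pow_apply, ← hord, pow_orderOf_eq_one]
    rfl
  have hsum : ∀ f : ℕ → ℂ, ∑ i : Fin m.divisors.card, f ((e i : m.divisors) : ℕ) =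
      ∑ d ∈ m.divisors, f d := by
    intro f
    rw [← Finset.sum_coe_sort m.divisors f]
    exact Equiv.sum_comp e (fun d : m.divisors => f d)
  have h3 : ∀ i : Fin m.divisors.card, ((ArithmeticFunction.moebius ((e i : m.divisors) : ℕ) : ℤ) : ℂ) *
      ∑ t ∈ Ex q, indFun (ψ ^ (q * ((e i : m.divisors) : ℕ))).ker
        (extZ (((ψ ^ a).comp (ψ ^ (q * ((e i : m.divisors) : ℕ))).ker.subtype) ^ t)) g =
      (fun d : ℕ => ((ArithmeticFunction.moebius d : ℤ) : ℂ) *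
        ∑ t ∈ Ex q, if z ^ (q * d) = 1 then ((m / d : ℕ) : ℂ) * (z ^ a) ^ t else 0)
        ((e i : m.divisors) : ℕ) := by
    intro i
    beta_reduce
    congr 1
    refine Finset.sum_congr rfl fun t _ => ?_
    rw [hz]
    exact (hIdx (L ≃ₐ[K] L) q m a _ ψ hq0 hm hcop ha1 ha hord (hdv i)).2 t g
  rw [Finset.sum_congr rfl fun i _ => h3 i]
  refine Eq.trans ?_ (hsum (fun d : ℕ => ((ArithmeticFunction.moebius d : ℤ) : ℂ) *
    ∑ t ∈ Ex q, if z ^ (q * d) = 1 then ((m / d : ℕ) : ℂ) * (z ^ a) ^ t else 0)).symm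
  have h4 := hRam q m a z hq0 hm hcop ha1 ha hz1
  have h5 : cSum (q * m) ψ g = ∑ t ∈ Ex (q * m), z ^ t := by
    rw [hz]
    rfl
  rw [h5, h4, Finset.mul_sum]
  refine Finset.sum_congr rfl fun d _ => ?_
  by_cases h : z ^ (q * d) = 1
  · simp only [if_pos h]
    rw [← Finset.mul_sum]
    ring
  · simp only [if_neg h, Finset.sum_const_zero, mul_zero]

end StarkC.ABS
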