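import Pool.Agent.ABS.StA

/-!
# The subgroup of order `l` of a cyclic Galois group

Both `Gal(L/F)` and the powers of `σ ^ (l ^ k / l)` are the set of the `g` with `g ^ l = 1`.
-/

open NumberField NumberField.InfinitePlace
open scoped Classical

namespace ABS

/-- `GEN`.  The sum over `Gal(L/F)` in terms of the generator of `Gal(L/K)`. -/
theorem GEN_thm : Stmt_GEN := by
  intro l k K F L _ _ _ _ _ _ _ _ _ _ _ _ σ hT
  have hl : l.Prime := hT.prime
  have hcard : Nat.card (L ≃ₐ[K] L) = l ^ k := hT.card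
  have hz : ∀ g : L ≃ₐ[K] L, g ∈ Subgroup.zpowers σ := by
    intro g
    obtain ⟨i, rfl⟩ := hT.gen g
    exact Subgroup.npow_mem_zpowers σ i
  have hcyc : IsCyclic (L ≃ₐ[K] L) := ⟨σ, hz⟩
  have hord : orderOf σ = l ^ k := by
    rw [← hcard]
    exact orderOf_eq_card_of_forall_mem_zpowers hz
  have hpow : σ ^ (l ^ k) = 1 := by
    rw [← hord]
    exact pow_orderOf_eq_one σ
  have hdiv : l ^ k / l * l = l ^ k :=
    Nat.div_mul_cancel (dvd_pow_self l hT.pos.ne')
  refine ⟨hpow, ?_⟩
  intro M _ f
  have hS : (Finset.univ.filter fun g : L ≃ₐ[K] L => g ^ l = 1).card ≤ l :=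
    IsCyclic.card_pow_eq_one_le hl.pos
  have hinjL : Function.Injective (fun b : L ≃ₐ[F] L => b.restrictScalars K) :=
    AlgEquiv.restrictScalars_injective K
  have hcardF : Fintype.card (L ≃ₐ[F] L) = l := by
    rw [← Nat.card_eq_fintype_card, IsGalois.card_aut_eq_finrank, hT.rank]
  have hL : (Finset.univ.image fun b : L ≃ₐ[F] L => b.restrictScalars K) =
      Finset.univ.filter fun g : L ≃ₐ[K] L => g ^ l = 1 := by
    apply Finset.eq_of_subset_of_card_le
    · intro g hg
      obtain ⟨b, -, rfl⟩ := Finset.mem_image.mp hg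
      rw [Finset.mem_filter]
      refine ⟨Finset.mem_univ _, ?_⟩
      have h1 : b ^ l = 1 := by
        rw [← hcardF]
        exact pow_card_eq_one
      have h2 : (b.restrictScalars K) ^ l = (b ^ l).restrictScalars K := by
        exact (map_pow (AlgEquiv.restrictScalarsHom K : (L ≃ₐ[F] L) →* (L ≃ₐ[K] L)) b l).symm
      rw [h2, h1]
      rfl
    · rw [Finset.card_image_of_injective _ hinjL, Finset.card_univ, hcardF]
      exact hS
  have hinjR : Set.InjOn (fun i : ℕ => σ ^ (l ^ k / l * i)) (Finset.range l) := by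
    intro i hi j hj hij
    have hi' : i < l := Finset.mem_range.mp hi
    have hj' : j < l := Finset.mem_range.mp hj
    have hq : 0 < l ^ k / l :=
      Nat.div_pos (Nat.le_of_dvd (pow_pos hl.pos k) (dvd_pow_self l hT.pos.ne')) hl.pos
    have hlt : ∀ i : ℕ, i < l → l ^ k / l * i < orderOf σ := by
      intro i hi
      rw [hord]
      calc l ^ k / l * i < l ^ k / l * l := Nat.mul_lt_mul_of_pos_left hi hq
        _ = l ^ k := hdiv
    have h3 := pow_injOn_Iio_orderOf (x := σ) (hlt i hi') (hlt j hj') hij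
    exact Nat.eq_of_mul_eq_mul_left hq h3
  have hR : ((Finset.range l).image fun i => σ ^ (l ^ k / l * i)) =
      Finset.univ.filter fun g : L ≃ₐ[K] L => g ^ l = 1 := by
    apply Finset.eq_of_subset_of_card_le
    · intro g hg
      obtain ⟨i, -, rfl⟩ := Finset.mem_image.mp hg
      rw [Finset.mem_filter]
      refine ⟨Finset.mem_univ _, ?_⟩
      rw [← pow_mul, mul_right_comm, hdiv, pow_mul, hpow, one_pow]
    · rw [Finset.card_image_of_injOn hinjR, Finset.card_range]
      exact hS
  calc ∑ b : L ≃ₐ[F] L, f (b.restrictScalars K)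
      = ∑ g ∈ Finset.univ.image (fun b : L ≃ₐ[F] L => b.restrictScalars K), f g :=
        (Finset.sum_image fun a _ b _ h => hinjL h).symm
    _ = ∑ g ∈ (Finset.range l).image (fun i => σ ^ (l ^ k / l * i)), f g := by
        rw [hL, hR]
    _ = ∑ i ∈ Finset.range l, f (σ ^ (l ^ k / l * i)) := Finset.sum_image hinjR

end ABS
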