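import Pool.Agent.ABS.StA3
import Pool.Agent.ABS.GIN

/-!
# ABS, module GIN4 (helper62): ideals of `ℚ(ζ_{2^k})` stable under the automorphisms which fix `i`
are principal
-/

open NumberField NumberField.InfinitePlace

open scoped Pointwise

namespace ABS

namespace GIN4

open Ideal UniqueFactorizationMonoid ABS.GIN

variable {k : ℕ}

lemma act_mem4 {J : Ideal (𝓞 (CyclotomicField (2 ^ k) ℚ))} (h : Sta4 J)
    (g : CyclotomicField (2 ^ k) ℚ ≃ₐ[ℚ] CyclotomicField (2 ^ k) ℚ) (hg : Fix4 g)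
    {x : 𝓞 (CyclotomicField (2 ^ k) ℚ)} (hx : x ∈ J) :
    g • x ∈ J := h g hg x _ hx (coe_act g x)

lemma fix_inv (g : CyclotomicField (2 ^ k) ℚ ≃ₐ[ℚ] CyclotomicField (2 ^ k) ℚ) (hg : Fix4 g) :
    Fix4 g⁻¹ := by
  intro x hx
  have h := hg x hx
  have h1 : g⁻¹ (g x) = x := by
    rw [← AlgEquiv.mul_apply]
    simp
  rw [h] at h1
  exact h1

/-- division by a generator of a stable ideal -/
lemma step4 {J J' : Ideal (𝓞 (CyclotomicField (2 ^ k) ℚ))} {c : 𝓞 (CyclotomicField (2 ^ k) ℚ)}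
    (hc : c ≠ 0) (hJ : J = span {c} * J') (h : Sta4 J)
    (hg : ∀ g : CyclotomicField (2 ^ k) ℚ ≃ₐ[ℚ] CyclotomicField (2 ^ k) ℚ, Fix4 g →
      span {g • c} = (span {c} : Ideal (𝓞 (CyclotomicField (2 ^ k) ℚ)))) : Sta4 J' := by
  intro g hfix x y hx hy
  have hy' : y = g • x := by
    apply RingOfIntegers.ext
    rw [coe_act]
    exact hy
  have h1 : c * x ∈ J := by
    rw [hJ]
    exact mem_span_singleton_mul.2 ⟨x, hx, rfl⟩
  have h2 := act_mem4 h g hfix h1
  rw [smul_mul', ← hy', hJ, ← hg g hfix] at h2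
  obtain ⟨z, hz, hz'⟩ := mem_span_singleton_mul.1 h2
  have hgc : g • c ≠ 0 := by
    intro h0
    apply hc
    have h3 := congrArg (fun t => g⁻¹ • t) h0
    simpa using h3
  have h4 := mul_left_cancel₀ hgc hz'
  rw [← h4]
  exact hz

lemma pow_three_mod {R : Type} [CommRing R] {I : R} (hI : I ^ 2 = -1) {p : ℕ} (hp : p % 4 = 3) :
    I ^ p = -I := by
  obtain ⟨m, rfl⟩ : ∃ m, p = 4 * m + 3 := ⟨p / 4, by omega⟩
  have h4 : I ^ 4 = 1 := by
    have : I ^ 4 = (I ^ 2) ^ 2 := by ring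
    rw [this, hI]
    ring
  have h3 : I ^ 3 = -I := by
    have : I ^ 3 = I ^ 2 * I := by ring
    rw [this, hI]
    ring
  rw [pow_add, pow_mul, h4, one_pow, one_mul, h3]

/-- a square root of `-1` -/
lemma exI (hk : 2 ≤ k) : ∃ I : 𝓞 (CyclotomicField (2 ^ k) ℚ), I ^ 2 = -1 := by
  have : NeZero (2 ^ k) := ⟨pow_ne_zero _ two_ne_zero⟩
  have hcy : IsCyclotomicExtension {2 ^ k} ℚ (CyclotomicField (2 ^ k) ℚ) :=
    CyclotomicField.isCyclotomicExtension _ _
  have hζ := IsCyclotomicExtension.zeta_spec (2 ^ k) ℚ (CyclotomicField (2 ^ k) ℚ)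
  have hζ' := hζ.toInteger_isPrimitiveRoot
  refine ⟨hζ.toInteger ^ (2 ^ (k - 2)), ?_⟩
  have h1 : IsPrimitiveRoot ((hζ.toInteger ^ (2 ^ (k - 2))) ^ 2) 2 := by
    rw [← pow_mul]
    refine hζ'.pow (by positivity) ?_
    obtain ⟨j, rfl⟩ : ∃ j, k = j + 2 := ⟨k - 2, by omega⟩
    simp only [Nat.add_sub_cancel]
    ring
  exact h1.eq_neg_one_of_two_right

/-- an automorphism which does not move `I` fixes all the square roots of `-1` -/
lemma fix_of {I : 𝓞 (CyclotomicField (2 ^ k) ℚ)} (hI : I ^ 2 = -1)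
    (g : CyclotomicField (2 ^ k) ℚ ≃ₐ[ℚ] CyclotomicField (2 ^ k) ℚ) (hg : g • I = I) :
    Fix4 g := by
  intro x hx
  have hg' : g (I : CyclotomicField (2 ^ k) ℚ) = (I : CyclotomicField (2 ^ k) ℚ) := by
    rw [← coe_act, hg]
  have hI' : (I : CyclotomicField (2 ^ k) ℚ) ^ 2 = -1 := by
    have := congrArg (fun t : 𝓞 (CyclotomicField (2 ^ k) ℚ) => (t : CyclotomicField (2 ^ k) ℚ)) hI
    simpa using this
  have h1 : x ^ 2 = (I : CyclotomicField (2 ^ k) ℚ) ^ 2 := by rw [hx, hI']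
  rcases sq_eq_sq_iff_eq_or_eq_neg.1 h1 with h | h
  · rw [h, hg']
  · rw [h, map_neg, hg']

lemma act_I {I : 𝓞 (CyclotomicField (2 ^ k) ℚ)} (hI : I ^ 2 = -1)
    (g : CyclotomicField (2 ^ k) ℚ ≃ₐ[ℚ] CyclotomicField (2 ^ k) ℚ) :
    g • I = I ∨ g • I = -I := by
  apply sq_eq_sq_iff_eq_or_eq_neg.1
  rw [← smul_pow', hI]
  simp

lemma smul_I_of_fix {I : 𝓞 (CyclotomicField (2 ^ k) ℚ)} (hI : I ^ 2 = -1)
    (g : CyclotomicField (2 ^ k) ℚ ≃ₐ[ℚ] CyclotomicField (2 ^ k) ℚ) (hg : Fix4 g) :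
    g • I = I := by
  apply RingOfIntegers.ext
  rw [coe_act]
  apply hg
  have := congrArg (fun t : 𝓞 (CyclotomicField (2 ^ k) ℚ) => (t : CyclotomicField (2 ^ k) ℚ)) hI
  simpa using this

lemma smul_nat (g : CyclotomicField (2 ^ k) ℚ ≃ₐ[ℚ] CyclotomicField (2 ^ k) ℚ) (n : ℕ) :
    g • (n : 𝓞 (CyclotomicField (2 ^ k) ℚ)) = n := by
  apply RingOfIntegers.ext
  rw [coe_act]
  simp

/-- a stable ideal contained in `P` is contained in `g P` if `g` fixes `i` -/
lemma le_smul {J P Q : Ideal (𝓞 (CyclotomicField (2 ^ k) ℚ))} (hst : Sta4 J) (hJP : J ≤ P)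
    (g : CyclotomicField (2 ^ k) ℚ ≃ₐ[ℚ] CyclotomicField (2 ^ k) ℚ) (hfix : Fix4 g)
    (hg : g • P = Q) : J ≤ Q := by
  intro x hx
  rw [← hg, Ideal.mem_pointwise_smul_iff_inv_smul_mem]
  exact hJP (act_mem4 hst g⁻¹ (fix_inv g hfix) hx)

/-- a natural number in a prime over `p` is divisible by `p` -/
lemma dvd_of_mem {p : ℕ} {Q : Ideal (𝓞 (CyclotomicField (2 ^ k) ℚ))}
    (hQ : Q.LiesOver (span {(p : ℤ)})) {n : ℕ}
    (hn : (n : 𝓞 (CyclotomicField (2 ^ k) ℚ)) ∈ Q) : p ∣ n := by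
  have h1 : (n : ℤ) ∈ (span {(p : ℤ)} : Ideal ℤ) := by
    rw [hQ.over, Ideal.mem_comap]
    simpa using hn
  rw [mem_span_singleton] at h1
  exact_mod_cast h1

end GIN4

open GIN GIN4 Ideal UniqueFactorizationMonoid in
theorem GIN4_thm : Stmt_GIN4 := by
  classical
  intro k hk
  obtain ⟨k, rfl⟩ : ∃ k', k = k' + 1 := ⟨k - 1, by omega⟩
  have : Fact (Nat.Prime 2) := ⟨Nat.prime_two⟩
  have : NeZero (2 ^ (k + 1)) := ⟨pow_ne_zero _ two_ne_zero⟩
  have hcy : IsCyclotomicExtension {2 ^ (k + 1)} ℚ (CyclotomicField (2 ^ (k + 1)) ℚ) :=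
    CyclotomicField.isCyclotomicExtension _ _
  have : IsGalois ℚ (CyclotomicField (2 ^ (k + 1)) ℚ) :=
    IsCyclotomicExtension.isGalois {2 ^ (k + 1)} ℚ _
  obtain ⟨I, hI⟩ := exI hk
  intro J hJ hst
  induction hn : absNorm J using Nat.strong_induction_on generalizing J with
  | _ n ih =>
  by_cases hT : J = ⊤
  · exact ⟨1, by rw [hT, span_singleton_one]⟩
  obtain ⟨P, hPm, hJP⟩ := Ideal.exists_le_maximal J hT
  have hPp : P.IsPrime := hPm.isPrime
  have hP0 : P ≠ ⊥ := fun h => hJ (le_bot_iff.1 (h ▸ hJP))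
  obtain ⟨p, hp, hover⟩ := exover P hP0
  -- it is enough to find `c`
  suffices H : ∃ c : 𝓞 (CyclotomicField (2 ^ (k + 1)) ℚ), c ≠ 0 ∧ span {c} ≠ (⊤ : Ideal _) ∧
      span {c} ∣ J ∧ ∀ g : CyclotomicField (2 ^ (k + 1)) ℚ ≃ₐ[ℚ] CyclotomicField (2 ^ (k + 1)) ℚ,
        Fix4 g → span {g • c} = (span {c} : Ideal _) by
    obtain ⟨c, hc0, hc1, ⟨J', hJ'⟩, hcg⟩ := H
    have hJ'0 : J' ≠ ⊥ := by
      rintro rfl
      apply hJ
      rw [hJ', Ideal.mul_bot]
    have h1 : absNorm J = absNorm (span {c}) * absNorm J' := by rw [hJ', map_mul]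
    have h2 : absNorm (span {c}) ≠ 1 := fun h => hc1 (absNorm_eq_one_iff.1 h)
    have h3 : absNorm (span {c}) ≠ 0 := fun h => by
      rw [absNorm_eq_zero_iff, span_singleton_eq_bot] at h
      exact hc0 h
    have h4 : absNorm J' ≠ 0 := fun h => hJ'0 (absNorm_eq_zero_iff.1 h)
    have h5 : absNorm J' < n := by
      rw [← hn, h1]
      have h6 : 2 ≤ absNorm (span {c}) := by omega
      have h7 : 1 ≤ absNorm J' := by omega
      nlinarith
    obtain ⟨a, ha⟩ := ih _ h5 J' hJ'0 (step4 hc0 hJ' hst hcg) rfl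
    exact ⟨c * a, by rw [hJ', ha, span_singleton_mul_span_singleton]⟩
  by_cases hpl : p = 2
  · subst hpl
    have hζ := IsCyclotomicExtension.zeta_spec (2 ^ (k + 1)) ℚ (CyclotomicField (2 ^ (k + 1)) ℚ)
    have hP := IsCyclotomicExtension.Rat.eq_span_zeta_sub_one_of_liesOver 2 k _ hζ P
    refine ⟨hζ.toInteger - 1, ?_, ?_, ?_, ?_⟩
    · intro h
      rw [h, span_singleton_eq_bot.2 rfl] at hP
      exact hP0 hP
    · rw [← hP]
      exact hPp.ne_top
    · rw [← hP]
      exact Ideal.dvd_iff_le.2 hJP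
    · intro g _
      have hζ' : IsPrimitiveRoot (g (IsCyclotomicExtension.zeta (2 ^ (k + 1)) ℚ
          (CyclotomicField (2 ^ (k + 1)) ℚ))) (2 ^ (k + 1)) := hζ.map_of_injective g.injective
      have hP' := IsCyclotomicExtension.Rat.eq_span_zeta_sub_one_of_liesOver 2 k _ hζ' P
      rw [← hP]
      rw [hP']
      congr 2
      apply RingOfIntegers.ext
      rw [coe_act]
      simp
      all_goals rfl
  · have hpn : ¬ p ∣ 2 ^ (k + 1) := fun h =>
      hpl ((Nat.prime_dvd_prime_iff_eq hp Nat.prime_two).1 (hp.dvd_of_dvd_pow h))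
    have : Fact p.Prime := ⟨hp⟩
    have hpZ : (span {(p : ℤ)} : Ideal ℤ) ≠ ⊥ := by
      rw [ne_eq, span_singleton_eq_bot]
      exact_mod_cast hp.ne_zero
    have hmax : (span {(p : ℤ)} : Ideal ℤ).IsMaximal := Int.ideal_span_isMaximal_of_prime p
    have hmap : (span {(p : ℤ)} : Ideal ℤ).map (algebraMap ℤ (𝓞 (CyclotomicField (2 ^ (k + 1)) ℚ)))
        = span {(p : 𝓞 (CyclotomicField (2 ^ (k + 1)) ℚ))} := by
      rw [Ideal.map_span, Set.image_singleton, map_natCast]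
    have hT0 : (span {(p : ℤ)} : Ideal ℤ).map
        (algebraMap ℤ (𝓞 (CyclotomicField (2 ^ (k + 1)) ℚ))) ≠ ⊥ := map_ne_bot_of_ne_bot hpZ
    have hnd : (normalizedFactors ((span {(p : ℤ)} : Ideal ℤ).map
          (algebraMap ℤ (𝓞 (CyclotomicField (2 ^ (k + 1)) ℚ))))).Nodup := by
      rw [Multiset.nodup_iff_count_le_one]
      intro Q
      by_cases hQ : Q ∈ normalizedFactors ((span {(p : ℤ)} : Ideal ℤ).map
        (algebraMap ℤ (𝓞 (CyclotomicField (2 ^ (k + 1)) ℚ))))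
      · have hQ' := hQ
        rw [← mem_primesOver_iff_mem_normalizedFactors _ hpZ] at hQ'
        obtain ⟨hQ1, hQ2⟩ := hQ'
        rw [← IsDedekindDomain.ramificationIdx_eq_normalizedFactors_count _ _ hT0,
          IsCyclotomicExtension.Rat.ramificationIdx_eq_of_not_dvd (m := 2 ^ (k + 1)) p _ Q hpn]
      · rw [Multiset.count_eq_zero_of_notMem hQ]
        exact Nat.zero_le _
    -- it is enough that `c ∣ p`, `c ∈ P`, `c` fixed and each prime `h P ∋ c` contains `J`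
    suffices H : ∃ c d : 𝓞 (CyclotomicField (2 ^ (k + 1)) ℚ),
        c * d = (p : 𝓞 (CyclotomicField (2 ^ (k + 1)) ℚ)) ∧ c ∈ P ∧
        (∀ g : CyclotomicField (2 ^ (k + 1)) ℚ ≃ₐ[ℚ] CyclotomicField (2 ^ (k + 1)) ℚ,
          Fix4 g → g • c = c) ∧
        ∀ (Q : Ideal (𝓞 (CyclotomicField (2 ^ (k + 1)) ℚ))), Q.IsPrime →
          Q.LiesOver (span {(p : ℤ)}) → c ∈ Q →
          ∀ g : CyclotomicField (2 ^ (k + 1)) ℚ ≃ₐ[ℚ] CyclotomicField (2 ^ (k + 1)) ℚ,
            g • P = Q → J ≤ Q by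
      obtain ⟨c, d, hcd, hcP, hcf, hcQ⟩ := H
      have hp0 : (p : 𝓞 (CyclotomicField (2 ^ (k + 1)) ℚ)) ≠ 0 := by exact_mod_cast hp.ne_zero
      have hc0 : c ≠ 0 := by
        rintro rfl
        rw [zero_mul] at hcd
        exact hp0 hcd.symm
      have hcdvd : span {c} ∣ (span {(p : ℤ)} : Ideal ℤ).map
          (algebraMap ℤ (𝓞 (CyclotomicField (2 ^ (k + 1)) ℚ))) := by
        rw [hmap, ← hcd, ← span_singleton_mul_span_singleton]
        exact dvd_mul_right _ _
      have hc0' : (span {c} : Ideal (𝓞 (CyclotomicField (2 ^ (k + 1)) ℚ))) ≠ ⊥ := by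
        rw [ne_eq, span_singleton_eq_bot]
        exact hc0
      have hle := (dvd_iff_normalizedFactors_le_normalizedFactors hc0' hT0).1 hcdvd
      refine ⟨c, hc0, ?_, ?_, ?_⟩
      · intro h
        apply hPp.ne_top
        rw [← top_le_iff, ← h, span_singleton_le_iff_mem]
        exact hcP
      · rw [dvd_iff_normalizedFactors_le_normalizedFactors hc0' hJ, Multiset.le_iff_subset
          (Multiset.nodup_of_le hle hnd)]
        intro Q hQ
        have hQ3 : c ∈ Q := by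
          have h1 := dvd_of_mem_normalizedFactors hQ
          exact (Ideal.dvd_iff_le.1 h1) (mem_span_singleton_self c)
        have hQ' := Multiset.mem_of_le hle hQ
        rw [← mem_primesOver_iff_mem_normalizedFactors _ hpZ] at hQ'
        obtain ⟨hQ1, hQ2⟩ := hQ'
        obtain ⟨g, hg⟩ := exists_smul_eq_of_isGaloisGroup (span {(p : ℤ)}) P Q
          (CyclotomicField (2 ^ (k + 1)) ℚ ≃ₐ[ℚ] CyclotomicField (2 ^ (k + 1)) ℚ)
        rw [Ideal.mem_normalizedFactors_iff hJ]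
        exact ⟨hQ1, hcQ Q hQ1 hQ2 hQ3 g hg⟩
      · intro g hg
        rw [hcf g hg]
    have hpodd : p % 2 = 1 := by
      rcases hp.eq_two_or_odd with h | h
      · exact absurd h hpl
      · exact h
    have hpmem : ∀ Q : Ideal (𝓞 (CyclotomicField (2 ^ (k + 1)) ℚ)),
        Q.LiesOver (span {(p : ℤ)}) → (p : 𝓞 (CyclotomicField (2 ^ (k + 1)) ℚ)) ∈ Q := by
      intro Q hQ
      have h1 : (span {(p : ℤ)} : Ideal ℤ).map
          (algebraMap ℤ (𝓞 (CyclotomicField (2 ^ (k + 1)) ℚ))) ≤ Q :=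
        map_le_of_le_comap (Q.over_def (span {(p : ℤ)})).le
      rw [hmap, span_singleton_le_iff_mem] at h1
      exact h1
    by_cases hp4 : p % 4 = 3
    · refine ⟨p, 1, mul_one _, hpmem P hover, fun g _ => smul_nat g p, ?_⟩
      intro Q hQ1 hQ2 _ g hg
      rcases act_I hI g with h | h
      · exact le_smul hst hJP g (fix_of hI g h) hg
      · -- Frobenius at `P`
        have hfin : Finite (𝓞 (CyclotomicField (2 ^ (k + 1)) ℚ) ⧸ P) :=
          Ideal.finiteQuotientOfFreeOfNeBot P hP0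
        obtain ⟨f, hf⟩ := IsArithFrobAt.exists_of_isInvariant ℤ
          (CyclotomicField (2 ^ (k + 1)) ℚ ≃ₐ[ℚ] CyclotomicField (2 ^ (k + 1)) ℚ) P
        have hfP : f • P = P := hf.mem_stabilizer
        have hunder : P.under ℤ = span {(p : ℤ)} := hover.over.symm
        have hcard : Nat.card (ℤ ⧸ P.under ℤ) = p := by
          rw [hunder]
          rw [Nat.card_congr (Int.quotientSpanNatEquivZMod p).toEquiv, Nat.card_zmod]
        have hI4 : I ^ 4 = 1 := by
          have : I ^ 4 = (I ^ 2) ^ 2 := by ring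
          rw [this, hI]
          ring
        have h4P : ((4 : ℕ) : 𝓞 (CyclotomicField (2 ^ (k + 1)) ℚ)) ∉ P := by
          intro h4
          have h5 := dvd_of_mem hover h4
          have h6 : p ∣ 2 := hp.dvd_of_dvd_pow (n := 2) (by simpa using h5)
          exact hpl ((Nat.prime_dvd_prime_iff_eq hp Nat.prime_two).1 h6)
        have hfI := AlgHom.IsArithFrobAt.apply_of_pow_eq_one hf hI4 h4P
        rw [hcard] at hfI
        have hfI' : f • I = -I := by
          have h1 : I ^ p = -I := pow_three_mod hI hp4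
          rw [← h1, ← hfI]
          rfl
        have hgf : (g * f) • I = I := by
          rw [mul_smul, hfI', smul_neg, h, neg_neg]
        refine le_smul hst hJP (g * f) (fix_of hI _ hgf) ?_
        rw [mul_smul, hfP, hg]
    · have hp41 : p % 4 ≠ 3 := hp4
      obtain ⟨a, b, hab⟩ := Nat.Prime.sq_add_sq hp41
      have hp2a : ¬ p ∣ 2 * a := by
        intro h
        have h1 : p ∣ a := by
          rcases (hp.dvd_mul).1 h with h2 | h2
          · exact absurd ((Nat.prime_dvd_prime_iff_eq hp Nat.prime_two).1 h2) hpl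
          · exact h2
        rcases Nat.eq_zero_or_pos a with h2 | h2
        · rw [h2] at hab
          have h3 : ¬ (b ^ 2).Prime := Nat.Prime.not_prime_pow le_rfl
          apply h3
          have : b ^ 2 = p := by rw [← hab]; ring
          rw [this]
          exact hp
        · have h3 := Nat.le_of_dvd h2 h1
          have h4 := hp.two_le
          nlinarith
      have hab' : (a : 𝓞 (CyclotomicField (2 ^ (k + 1)) ℚ)) ^ 2 +
          (b : 𝓞 (CyclotomicField (2 ^ (k + 1)) ℚ)) ^ 2 = p := by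
        exact_mod_cast hab
      -- the conclusion for one of the two factors
      have key : ∀ I' : 𝓞 (CyclotomicField (2 ^ (k + 1)) ℚ), I' ^ 2 = -1 →
          (a : 𝓞 (CyclotomicField (2 ^ (k + 1)) ℚ)) + b * I' ∈ P →
          ∃ c d : 𝓞 (CyclotomicField (2 ^ (k + 1)) ℚ),
            c * d = (p : 𝓞 (CyclotomicField (2 ^ (k + 1)) ℚ)) ∧ c ∈ P ∧
            (∀ g : CyclotomicField (2 ^ (k + 1)) ℚ ≃ₐ[ℚ] CyclotomicField (2 ^ (k + 1)) ℚ,
              Fix4 g → g • c = c) ∧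
            ∀ (Q : Ideal (𝓞 (CyclotomicField (2 ^ (k + 1)) ℚ))), Q.IsPrime →
              Q.LiesOver (span {(p : ℤ)}) → c ∈ Q →
              ∀ g : CyclotomicField (2 ^ (k + 1)) ℚ ≃ₐ[ℚ] CyclotomicField (2 ^ (k + 1)) ℚ,
                g • P = Q → J ≤ Q := by
        intro I' hI' hmem
        refine ⟨a + b * I', a - b * I', ?_, hmem, ?_, ?_⟩
        · rw [← hab']
          linear_combination (-(b : 𝓞 (CyclotomicField (2 ^ (k + 1)) ℚ)) ^ 2) * hI'
        · intro g hg
          rw [smul_add, smul_mul', smul_nat, smul_nat, smul_I_of_fix hI' g hg]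
        · intro Q hQ1 hQ2 hcQ g hg
          rcases act_I hI' g with h | h
          · exact le_smul hst hJP g (fix_of hI' g h) hg
          · exfalso
            have h1 : g • ((a : 𝓞 (CyclotomicField (2 ^ (k + 1)) ℚ)) + b * I') ∈ Q := by
              rw [← hg]
              exact Ideal.smul_mem_pointwise_smul g _ P hmem
            rw [smul_add, smul_mul', smul_nat, smul_nat, h] at h1
            have h2 := Q.add_mem hcQ h1
            have h3 : (a : 𝓞 (CyclotomicField (2 ^ (k + 1)) ℚ)) + b * I' + (a + b * -I')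
                = ((2 * a : ℕ) : 𝓞 (CyclotomicField (2 ^ (k + 1)) ℚ)) := by
              push_cast
              ring
            rw [h3] at h2
            exact hp2a (dvd_of_mem hQ2 h2)
      have hprod : ((a : 𝓞 (CyclotomicField (2 ^ (k + 1)) ℚ)) + b * I) * (a + b * -I) ∈ P := by
        have h1 : ((a : 𝓞 (CyclotomicField (2 ^ (k + 1)) ℚ)) + b * I) * (a + b * -I) = p := by
          rw [← hab']
          linear_combination (-(b : 𝓞 (CyclotomicField (2 ^ (k + 1)) ℚ)) ^ 2) * hI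
        rw [h1]
        exact hpmem P hover
      rcases hPp.mem_or_mem hprod with h | h
      · exact key I hI h
      · exact key (-I) (by rw [neg_sq, hI]) h

end ABS
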