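import Pool.Agent.ABS.StA3
import Pool.Agent.ABS.GNS

/-!
# ABS_GNS4: the genus lemma for the orders `2 ^ k`
-/

set_option autoImplicit false

open NumberField NumberField.InfinitePlace
open scoped Classical nonZeroDivisors

namespace ABS

open GNS in
theorem GNS4_thm : Stmt_GNS4 := by
  intro hHIL hGIN hH90 hAU hPOS k hk I hI
  obtain ⟨g, _, hg, hu⟩ := hAU k hk
  have hn : 2 < 2 ^ k := by
    calc 2 < 2 ^ 3 := by norm_num
      _ ≤ 2 ^ k := Nat.pow_le_pow_right (by norm_num) hk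
  set E := CyclotomicField (2 ^ k) ℚ with hE
  have : NeZero (2 ^ k) := ⟨by omega⟩
  set e : 𝓞 E ≃+* 𝓞 E := RingOfIntegers.mapRingEquiv (g : E ≃+* E) with he
  have hinj : Function.Injective (ph e) := by
    rw [injective_iff_map_eq_one]
    intro c hc
    obtain ⟨J, rfl⟩ := ClassGroup.mk0_surjective c
    rw [ph_mk0, mul_inv_eq_one] at hc
    obtain ⟨x, y, hx, hy, hxy⟩ := (ClassGroup.mk0_eq_mk0_iff (R := 𝓞 E)).1 hc
    have hJ : (J : Ideal (𝓞 E)) ≠ ⊥ := mem_nonZeroDivisors_iff_ne_zero.1 J.2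
    obtain ⟨c, hc⟩ := hHIL hGIN hH90 k hk g hg hu (J : Ideal (𝓞 E)) (im e J : Ideal (𝓞 E)) x y hJ
      hx hy (by
        intro u v huv
        have h1 : v = e u := by
          apply RingOfIntegers.ext
          rw [huv]
          rfl
        rw [h1]
        exact (Ideal.apply_mem_of_equiv_iff (f := e)).symm) hxy
    have h3 : ClassGroup.mk0 (⟨(J : Ideal (𝓞 E)), J.2⟩ : (Ideal (𝓞 E))⁰) = 1 := by
      rw [ClassGroup.mk0_eq_one_iff, hc]
      exact ⟨c, rfl⟩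
    exact h3
  have hsurj : Function.Surjective (ph e) := Finite.injective_iff_surjective.1 hinj
  have hI0 : I ∈ (Ideal (𝓞 E))⁰ := mem_nonZeroDivisors_iff_ne_zero.2 hI
  obtain ⟨c, hc⟩ := hsurj (ClassGroup.mk0 ⟨I, hI0⟩)
  obtain ⟨J, rfl⟩ := ClassGroup.mk0_surjective c
  rw [ph_mk0, mul_inv_eq_iff_eq_mul, ← map_mul] at hc
  obtain ⟨x, y, hx, hy, hxy⟩ := (ClassGroup.mk0_eq_mk0_iff (R := 𝓞 E)).1 hc
  have h1 := congrArg Ideal.absNorm hxy
  rw [map_mul, map_mul, Ideal.absNorm_span_singleton, Ideal.absNorm_span_singleton,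
    Submonoid.coe_mul, map_mul] at h1
  have h2 : Ideal.absNorm ((im e J : (Ideal (𝓞 E))⁰) : Ideal (𝓞 E)) =
      Ideal.absNorm (J : Ideal (𝓞 E)) := absNorm_im e _
  rw [h2] at h1
  have hJ : (J : Ideal (𝓞 E)) ≠ ⊥ := mem_nonZeroDivisors_iff_ne_zero.1 J.2
  have hJ0 : Ideal.absNorm (J : Ideal (𝓞 E)) ≠ 0 := by
    rw [Ne, Ideal.absNorm_eq_zero_iff]
    exact hJ
  have hcoe : ∀ z : 𝓞 E, z ≠ 0 →
      (((Algebra.norm ℤ z).natAbs : ℕ) : ℚ) = Algebra.norm ℚ (z : E) := by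
    intro z hz
    have hz' : (z : E) ≠ 0 := by simpa using hz
    have h4 := hPOS 2 k Nat.prime_two hn (z : E) hz'
    rw [← Algebra.coe_norm_int] at h4 ⊢
    have h5 : 0 < Algebra.norm ℤ z := by exact_mod_cast h4
    rw [← Int.cast_natCast, Int.natAbs_of_nonneg h5.le]
  have hx' : (x : E) ≠ 0 := by simpa using hx
  have hy' : (y : E) ≠ 0 := by simpa using hy
  refine ⟨(x : E) / (y : E), div_ne_zero hx' hy', ?_⟩
  have hy0 : Algebra.norm ℚ (y : E) ≠ 0 := (hPOS 2 k Nat.prime_two hn (y : E) hy').ne'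
  have h7 : Algebra.norm ℚ ((x : E) / (y : E)) * Algebra.norm ℚ (y : E) =
      Algebra.norm ℚ (x : E) := by
    rw [← map_mul, div_mul_cancel₀ _ hy']
  apply mul_right_cancel₀ hy0
  rw [h7, ← hcoe x hx, ← hcoe y hy]
  have h6 : ((Algebra.norm ℤ x).natAbs : ℚ) * Ideal.absNorm (J : Ideal (𝓞 E)) =
      (Algebra.norm ℤ y).natAbs * ((Ideal.absNorm I : ℚ) * Ideal.absNorm (J : Ideal (𝓞 E))) := by
    exact_mod_cast h1
  have hJ1 : ((Ideal.absNorm (J : Ideal (𝓞 E)) : ℕ) : ℚ) ≠ 0 := by exact_mod_cast hJ0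
  apply mul_right_cancel₀ hJ1
  rw [h6]
  ring

end ABS
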