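import Pool.Agent.ABS.StA3

/-!
# Stark's conjecture in norm, module H90: Hilbert 90 in elementary form
-/

open NumberField

namespace ABS

namespace H90

/-- The products of the first `i` factors. -/
noncomputable def pr {E : Type} [Field E] [NumberField E] (g : E ≃ₐ[ℚ] E) (β : E) (i : ℕ) : E :=
  ∏ j ∈ Finset.range i, (g ^ j) β

/-- The resolvent. -/
noncomputable def res {E : Type} [Field E] [NumberField E] (g : E ≃ₐ[ℚ] E) (β c : E) : E :=
  ∑ i ∈ Finset.range (orderOf g), pr g β i * (g ^ i) c

variable {E : Type} [Field E] [NumberField E] (g : E ≃ₐ[ℚ] E) (β : E)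

lemma pr_succ (i : ℕ) : β * g (pr g β i) = pr g β (i + 1) := by
  unfold pr
  rw [map_prod, Finset.prod_range_succ', mul_comm]
  congr 1
  refine Finset.prod_congr rfl fun k _ => ?_
  rw [pow_succ']
  rfl

lemma exists_res : ∃ c : E, res g β c ≠ 0 := by
  by_contra hcon
  push Not at hcon
  have hm : 0 < orderOf g := orderOf_pos g
  have hli : LinearIndependent E
      (fun i : Fin (orderOf g) => ((((g ^ (i : ℕ) : E ≃ₐ[ℚ] E) : E →* E)) : E → E)) := by
    refine (linearIndependent_monoidHom E E).comp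
      (fun i : Fin (orderOf g) => (((g ^ (i : ℕ) : E ≃ₐ[ℚ] E) : E →* E))) ?_
    intro i j hij
    have h1 : g ^ (i : ℕ) = g ^ (j : ℕ) := by
      ext x
      exact DFunLike.congr_fun hij x
    exact Fin.ext (pow_injOn_Iio_orderOf i.2 j.2 h1)
  rw [Fintype.linearIndependent_iff] at hli
  have h2 := hli (fun i => pr g β i) (by
    funext c
    have h3 := hcon c
    unfold res at h3
    rw [Finset.sum_apply]
    simp only [Pi.smul_apply, smul_eq_mul, Pi.zero_apply]
    rw [← h3, ← Fin.sum_univ_eq_sum_range (fun i => pr g β i * (g ^ i) c)]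
    rfl) ⟨0, hm⟩
  simp [pr] at h2

lemma res_eq (h : pr g β (orderOf g) = 1) (c : E) : β * g (res g β c) = res g β c := by
  unfold res
  rw [map_sum, Finset.mul_sum]
  have h1 : ∀ i ∈ Finset.range (orderOf g), β * g (pr g β i * (g ^ i) c) =
      pr g β (i + 1) * (g ^ (i + 1)) c := by
    intro i _
    rw [map_mul, ← mul_assoc, pr_succ, pow_succ']
    rfl
  rw [Finset.sum_congr rfl h1]
  have h2 := Finset.sum_range_succ (fun i => pr g β i * (g ^ i) c) (orderOf g)
  have h3 := Finset.sum_range_succ' (fun i => pr g β i * (g ^ i) c) (orderOf g)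
  rw [h2] at h3
  have h4 : pr g β (orderOf g) * (g ^ orderOf g) c = c := by
    rw [h, pow_orderOf_eq_one]
    simp
  have h5 : pr g β 0 * (g ^ 0) c = c := by
    simp [pr]
  rw [h4, h5] at h3
  exact (add_right_cancel h3).symm

end H90

theorem H90_thm : Stmt_H90 := by
  intro E _ _ g β h
  obtain ⟨c, hc⟩ := H90.exists_res g β
  exact ⟨H90.res g β c, hc, H90.res_eq g β h c⟩

end ABS
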