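import Pool.Agent.ABS.StA3
import Pool.Agent.ABS.HIL

/-!
# ABS_HIL4 (helper55): Hilbert 90 for the ideals of `ℚ(ζ)`, `ζ` of order `2 ^ k`, over `ℚ(i)`
-/

open NumberField

namespace ABS

namespace HIL4

open HIL

variable {E : Type} [Field E] [NumberField E]

lemma ga_mul (g h : E ≃ₐ[ℚ] E) (x : 𝓞 E) : ga (g * h) x = ga g (ga h x) :=
  RingOfIntegers.ext rfl

lemma ga_one (x : 𝓞 E) : ga (1 : E ≃ₐ[ℚ] E) x = x := RingOfIntegers.ext rfl

lemma map_one' (J : Ideal (𝓞 E)) : J.map (ga (1 : E ≃ₐ[ℚ] E) : 𝓞 E →+* 𝓞 E) = J := by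
  have h : (ga (1 : E ≃ₐ[ℚ] E) : 𝓞 E →+* 𝓞 E) = RingHom.id _ := RingHom.ext ga_one
  rw [h, Ideal.map_id]

lemma map_mul' (g h : E ≃ₐ[ℚ] E) (J : Ideal (𝓞 E)) :
    (J.map (ga h : 𝓞 E →+* 𝓞 E)).map (ga g : 𝓞 E →+* 𝓞 E) =
      J.map (ga (g * h) : 𝓞 E →+* 𝓞 E) := by
  rw [Ideal.map_map]
  congr 1

/-- the relation between the ideals along the powers of `g` -/
lemma powers (g : E ≃ₐ[ℚ] E) (J : Ideal (𝓞 E)) (a b : 𝓞 E)
    (h : Ideal.span {a} * J.map (ga g : 𝓞 E →+* 𝓞 E) = Ideal.span {b} * J) (i : ℕ) :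
    Ideal.span {∏ j ∈ Finset.range i, ga (g ^ j) a} * J.map (ga (g ^ i) : 𝓞 E →+* 𝓞 E) =
      Ideal.span {∏ j ∈ Finset.range i, ga (g ^ j) b} * J := by
  induction i with
  | zero => rw [Finset.prod_range_zero, Finset.prod_range_zero, pow_zero, map_one']
  | succ i ih =>
    have h1 := congrArg (Ideal.map (ga (g ^ i) : 𝓞 E →+* 𝓞 E)) h
    rw [Ideal.map_mul, Ideal.map_mul, Ideal.map_span, Ideal.map_span, Set.image_singleton,
      Set.image_singleton, map_mul', ← pow_succ] at h1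
    rw [Finset.prod_range_succ, Finset.prod_range_succ, ← Ideal.span_singleton_mul_span_singleton,
      ← Ideal.span_singleton_mul_span_singleton]
    calc Ideal.span {∏ j ∈ Finset.range i, ga (g ^ j) a} * Ideal.span {ga (g ^ i) a} *
          J.map (ga (g ^ (i + 1)) : 𝓞 E →+* 𝓞 E) =
        Ideal.span {∏ j ∈ Finset.range i, ga (g ^ j) a} * (Ideal.span {ga (g ^ i) a} *
          J.map (ga (g ^ (i + 1)) : 𝓞 E →+* 𝓞 E)) := by rw [mul_assoc]
      _ = Ideal.span {∏ j ∈ Finset.range i, ga (g ^ j) a} * (Ideal.span {ga (g ^ i) b} *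
          J.map (ga (g ^ i) : 𝓞 E →+* 𝓞 E)) := by
            congr 1
      _ = Ideal.span {ga (g ^ i) b} * (Ideal.span {∏ j ∈ Finset.range i, ga (g ^ j) a} *
          J.map (ga (g ^ i) : 𝓞 E →+* 𝓞 E)) := by ring
      _ = Ideal.span {ga (g ^ i) b} * (Ideal.span {∏ j ∈ Finset.range i, ga (g ^ j) b} * J) := by
            rw [ih]
      _ = _ := by ring

/-- the product over the powers of `g` -/
lemma prod_coe (g : E ≃ₐ[ℚ] E) (m : ℕ) (x : 𝓞 E) :
    ((∏ j ∈ Finset.range m, ga (g ^ j) x : 𝓞 E) : E) = ∏ j ∈ Finset.range m, (g ^ j) (x : E) := by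
  exact map_prod (algebraMap (𝓞 E) E) _ _

/-- the norm over the fixed field is invariant -/
lemma prod_fixed (g : E ≃ₐ[ℚ] E) (x : E) (hx : x ≠ 0) :
    g (∏ j ∈ Finset.range (orderOf g), (g ^ j) x) =
      ∏ j ∈ Finset.range (orderOf g), (g ^ j) x := by
  have h1 : g (∏ j ∈ Finset.range (orderOf g), (g ^ j) x) =
      ∏ j ∈ Finset.range (orderOf g), (g ^ (j + 1)) x := by
    rw [map_prod]
    refine Finset.prod_congr rfl fun j _ => ?_
    rw [pow_succ']
    rfl
  have h2 := Finset.prod_range_succ' (fun j => (g ^ j) x) (orderOf g)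
  have h3 := Finset.prod_range_succ (fun j => (g ^ j) x) (orderOf g)
  rw [h3, pow_orderOf_eq_one, pow_zero] at h2
  rw [h1]
  exact (mul_right_cancel₀ hx h2).symm

end HIL4

open HIL HIL4

theorem HIL4_thm : Stmt_HIL4 := by
  intro hGIN hH90 k hk g hg hU J J' a b hJ ha hb hJJ hab
  have haE : ((a : 𝓞 (CyclotomicField (2 ^ k) ℚ)) : CyclotomicField (2 ^ k) ℚ) ≠ 0 := by
    intro h
    exact ha (RingOfIntegers.ext h)
  have hbE : ((b : 𝓞 (CyclotomicField (2 ^ k) ℚ)) : CyclotomicField (2 ^ k) ℚ) ≠ 0 := by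
    intro h
    exact hb (RingOfIntegers.ext h)
  -- the unit
  have hJ' := map_eq g J J' hJJ
  have hP := powers g J a b (by rw [← hJ']; exact hab) (orderOf g)
  rw [pow_orderOf_eq_one, map_one'] at hP
  have hP2 : Ideal.span {∏ j ∈ Finset.range (orderOf g), ga (g ^ j) a} =
      Ideal.span {∏ j ∈ Finset.range (orderOf g), ga (g ^ j) b} := mul_right_cancel₀ hJ hP
  obtain ⟨u, hu⟩ := Ideal.span_singleton_eq_span_singleton.1 hP2
  have huE : (∏ j ∈ Finset.range (orderOf g), (g ^ j) (a : CyclotomicField (2 ^ k) ℚ)) *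
      ((u : 𝓞 (CyclotomicField (2 ^ k) ℚ)) : CyclotomicField (2 ^ k) ℚ) =
      ∏ j ∈ Finset.range (orderOf g), (g ^ j) (b : CyclotomicField (2 ^ k) ℚ) := by
    rw [← prod_coe, ← prod_coe, ← hu]
    rfl
  have hA0 : ∏ j ∈ Finset.range (orderOf g), (g ^ j) (a : CyclotomicField (2 ^ k) ℚ) ≠ 0 :=
    Finset.prod_ne_zero_iff.2 fun j _ => (map_ne_zero _).2 haE
  have hfix : g ((u : 𝓞 (CyclotomicField (2 ^ k) ℚ)) : CyclotomicField (2 ^ k) ℚ) =
      ((u : 𝓞 (CyclotomicField (2 ^ k) ℚ)) : CyclotomicField (2 ^ k) ℚ) := by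
    have h1 := congrArg g huE
    rw [map_mul, prod_fixed g _ haE, prod_fixed g _ hbE, ← huE] at h1
    exact mul_left_cancel₀ hA0 h1
  obtain ⟨v, hv⟩ := hU u hfix
  -- Hilbert 90
  have hN1 : ∏ j ∈ Finset.range (orderOf g), (g ^ j)
      (((v : 𝓞 (CyclotomicField (2 ^ k) ℚ)) : CyclotomicField (2 ^ k) ℚ) *
        (b : CyclotomicField (2 ^ k) ℚ) / a) = 1 := by
    have h1 : ∀ j, (g ^ j) (((v : 𝓞 (CyclotomicField (2 ^ k) ℚ)) : CyclotomicField (2 ^ k) ℚ) *
        (b : CyclotomicField (2 ^ k) ℚ) / a) =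
        (g ^ j) ((v : 𝓞 (CyclotomicField (2 ^ k) ℚ)) : CyclotomicField (2 ^ k) ℚ) *
        (g ^ j) (b : CyclotomicField (2 ^ k) ℚ) / (g ^ j) (a : CyclotomicField (2 ^ k) ℚ) := by
      intro j
      rw [map_div₀, map_mul]
    simp only [h1]
    rw [Finset.prod_div_distrib, Finset.prod_mul_distrib, ← huE, div_eq_iff hA0]
    linear_combination
      (∏ j ∈ Finset.range (orderOf g), (g ^ j) (a : CyclotomicField (2 ^ k) ℚ)) * hv
  obtain ⟨y, hy0, hy⟩ := hH90 (CyclotomicField (2 ^ k) ℚ) g _ hN1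
  obtain ⟨m, d, hm, hd, hdm⟩ := clear y hy0
  have hbd : ((v : 𝓞 (CyclotomicField (2 ^ k) ℚ)) * b) * ga g d = a * d := by
    apply RingOfIntegers.ext
    change ((v : 𝓞 (CyclotomicField (2 ^ k) ℚ)) : CyclotomicField (2 ^ k) ℚ) *
      (b : CyclotomicField (2 ^ k) ℚ) * g (d : CyclotomicField (2 ^ k) ℚ) =
      (a : CyclotomicField (2 ^ k) ℚ) * (d : CyclotomicField (2 ^ k) ℚ)
    rw [hdm, map_mul, map_intCast]
    have h2 : ((v : 𝓞 (CyclotomicField (2 ^ k) ℚ)) : CyclotomicField (2 ^ k) ℚ) *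
        (b : CyclotomicField (2 ^ k) ℚ) * g y = (a : CyclotomicField (2 ^ k) ℚ) * y := by
      have h3 := congrArg (fun t => (a : CyclotomicField (2 ^ k) ℚ) * t) hy
      rw [← h3]
      field_simp
    linear_combination (m : CyclotomicField (2 ^ k) ℚ) * h2
  have hvb : Ideal.span {(v : 𝓞 (CyclotomicField (2 ^ k) ℚ)) * b} = Ideal.span {b} :=
    Ideal.span_singleton_mul_left_unit v.isUnit b
  have hst : Ideal.span {ga g d} * J' = Ideal.span {d} * J := by
    have h3 : Ideal.span {a} * (Ideal.span {ga g d} * J') =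
        Ideal.span {a} * (Ideal.span {d} * J) := by
      calc Ideal.span {a} * (Ideal.span {ga g d} * J') =
          Ideal.span {ga g d} * (Ideal.span {a} * J') := by ring
        _ = Ideal.span {ga g d} * (Ideal.span {(v : 𝓞 (CyclotomicField (2 ^ k) ℚ)) * b} * J) := by
            rw [hab, hvb]
        _ = (Ideal.span {(v : 𝓞 (CyclotomicField (2 ^ k) ℚ)) * b} *
            Ideal.span {ga g d}) * J := by ring
        _ = (Ideal.span {a} * Ideal.span {d}) * J := by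
            rw [Ideal.span_singleton_mul_span_singleton, hbd,
              Ideal.span_singleton_mul_span_singleton]
        _ = Ideal.span {a} * (Ideal.span {d} * J) := by ring
    exact (Ideal.span_singleton_mul_right_inj ha).1 h3
  -- stability
  have hone : ∀ x ∈ Ideal.span {d} * J, ga g x ∈ Ideal.span {d} * J := by
    intro x hx
    obtain ⟨z, hz, rfl⟩ := Ideal.mem_span_singleton_mul.1 hx
    rw [← hst, map_mul]
    exact Ideal.mem_span_singleton_mul.2 ⟨ga g z, (hJJ z _ (ga_coe g z)).1 hz, rfl⟩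
  have hall : ∀ (i : ℕ) (x y : 𝓞 (CyclotomicField (2 ^ k) ℚ)), x ∈ Ideal.span {d} * J →
      (y : CyclotomicField (2 ^ k) ℚ) = (g ^ i) (x : CyclotomicField (2 ^ k) ℚ) →
      y ∈ Ideal.span {d} * J := by
    intro i
    induction i with
    | zero =>
      intro x y hx hxy
      have : y = x := RingOfIntegers.ext hxy
      rw [this]
      exact hx
    | succ i ih =>
      intro x y hx hxy
      refine ih (ga g x) y (hone x hx) ?_
      rw [hxy, pow_succ, ga_coe]
      rfl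
  have hSta : Sta4 (Ideal.span {d} * J) := by
    intro h hh x y hx hxy
    obtain ⟨i, hi⟩ := mem_powers_iff_mem_zpowers.2 (hg h hh)
    refine hall i x y hx ?_
    rw [hxy, ← hi]
  have hne : Ideal.span {d} * J ≠ ⊥ := by
    intro h
    rcases Ideal.mul_eq_bot.1 h with h3 | h3
    · exact hd (Ideal.span_singleton_eq_bot.1 h3)
    · exact hJ h3
  obtain ⟨e, he⟩ := hGIN k (by omega) _ hne hSta
  have h5 : e ∈ Ideal.span {d} * J := by
    rw [he]
    exact Ideal.mem_span_singleton_self e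
  obtain ⟨c, hc, rfl⟩ := Ideal.mem_span_singleton_mul.1 h5
  refine ⟨c, ?_⟩
  rw [← Ideal.span_singleton_mul_span_singleton] at he
  exact (Ideal.span_singleton_mul_right_inj hd).1 he

end ABS
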