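import Pool.Agent.ABS.GNS
import Pool.Agent.ABS.H90
import Pool.Agent.ABS.AU4
import Pool.Agent.ABS.GIN4
import Pool.Agent.ABS.HIL4
import Pool.Agent.ABS.GNS4

/-!
# ABS, project of MP_46b841_nt: the genus lemma for all prime powers `> 2`
-/

namespace ABS

theorem GNS_thm : Stmt_GNS := by
  intro hHIL hGIN hPOS l k hok I hI
  by_cases hc : l = 2 → k = 2
  · exact GNSC_thm hHIL hGIN hPOS l k hok hc I hI
  · obtain ⟨rfl, hk⟩ := Classical.not_imp.1 hc
    have hk3 : 3 ≤ k := by
      have h1 : 2 < 2 ^ k := hok.2.2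
      have h2 : k ≠ 0 := by
        rintro rfl
        simp at h1
      have h3 : k ≠ 1 := by
        rintro rfl
        simp at h1
      omega
    exact GNS4_thm HIL4_thm GIN4_thm H90_thm AU4_thm hPOS k hk3 I hI

end ABS
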