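import Pool.Agent.ABS.StA2

/-!
ABS, module IOT: the real space of the infinite places inside the complex space of formal
combinations of places.
-/

open NumberField NumberField.InfinitePlace IsDedekindDomain
open scoped Classical

namespace ABS

namespace IOT

variable (L : Type) [Field L] [NumberField L]

theorem w_two (w : InfinitePlace L) : w (2 : L) = 2 := by
  rw [← InfinitePlace.norm_embedding_eq w (2 : L), map_ofNat, Complex.norm_ofNat]

theorem infAbs_inj : Function.Injective (StarkP.infAbs L) := by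
  intro w w' h
  have h2 : (w (2 : L)) ^ w.mult = (w' (2 : L)) ^ w'.mult := congrFun h 2
  rw [w_two, w_two] at h2
  have hm : w.mult = w'.mult := Nat.pow_right_injective (le_refl 2) (by exact_mod_cast h2)
  refine DFunLike.ext _ _ fun x => ?_
  have h3 : (w x) ^ w.mult = (w' x) ^ w'.mult := congrFun h x
  rw [← hm] at h3
  exact (pow_left_inj₀ (apply_nonneg w x) (apply_nonneg w' x) mult_ne_zero).1 h3

/-- The complex version of `iot`. -/
noncomputable def ic (z : InfinitePlace L → ℂ) : (L → ℝ) →₀ ℂ :=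
  ∑ w, Finsupp.single (StarkP.infAbs L w) (z w)

theorem ic_apply (z : InfinitePlace L → ℂ) (w : InfinitePlace L) :
    ic L z (StarkP.infAbs L w) = z w := by
  unfold ic
  rw [Finsupp.finsetSum_apply, Finset.sum_eq_single w]
  · simp
  · intro w' _ hw
    rw [Finsupp.single_apply, if_neg (fun h => hw (infAbs_inj L h))]
  · intro h
    exact absurd (Finset.mem_univ w) h

theorem ic_apply_of_not (z : InfinitePlace L → ℂ) {a : L → ℝ}
    (ha : a ∉ Set.range (StarkP.infAbs L)) : ic L z a = 0 := by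
  unfold ic
  rw [Finsupp.finsetSum_apply]
  refine Finset.sum_eq_zero fun w _ => ?_
  rw [Finsupp.single_apply, if_neg (fun h => ha ⟨w, h⟩)]

theorem ic_add (z z' : InfinitePlace L → ℂ) : ic L (z + z') = ic L z + ic L z' := by
  unfold ic
  rw [← Finset.sum_add_distrib]
  refine Finset.sum_congr rfl fun w _ => ?_
  rw [Pi.add_apply, Finsupp.single_add]

theorem ic_smul (c : ℂ) (z : InfinitePlace L → ℂ) : ic L (c • z) = c • ic L z := by
  unfold ic
  rw [Finset.smul_sum]
  refine Finset.sum_congr rfl fun w _ => ?_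
  rw [Pi.smul_apply, Finsupp.smul_single]

theorem iot_eq (x : InfinitePlace L → ℝ) : iot L x = ic L (fun w => (x w : ℂ)) := rfl

theorem iot_add_I (x y : InfinitePlace L → ℝ) :
    iot L x + Complex.I • iot L y = ic L (fun w => (x w : ℂ) + Complex.I * (y w : ℂ)) := by
  rw [iot_eq, iot_eq, ← ic_smul, ← ic_add]
  rfl

theorem lc_ic (z : InfinitePlace L → ℂ) :
    Finsupp.linearCombination ℂ (fun _ : L → ℝ => (1 : ℂ)) (ic L z) = ∑ w, z w := by
  unfold ic
  rw [map_sum]
  refine Finset.sum_congr rfl fun w _ => ?_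
  rw [Finsupp.linearCombination_single, smul_eq_mul, mul_one]

theorem placeSet_empty : StarkP.placeSet L ∅ = Set.range (StarkP.infAbs L) := by
  unfold StarkP.placeSet
  rw [Set.image_empty, Set.union_empty]

theorem mem_XC (z : (L → ℝ) →₀ ℂ) : z ∈ StarkP.XC L ∅ ↔
    (∀ a, a ∉ Set.range (StarkP.infAbs L) → z a = 0) ∧
      Finsupp.linearCombination ℂ (fun _ : L → ℝ => (1 : ℂ)) z = 0 := by
  unfold StarkP.XC
  rw [Submodule.mem_inf, LinearMap.mem_ker, placeSet_empty, Finsupp.mem_supported']

theorem eq_ic (z : (L → ℝ) →₀ ℂ) (h : ∀ a, a ∉ Set.range (StarkP.infAbs L) → z a = 0) :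
    z = ic L (fun w => z (StarkP.infAbs L w)) := by
  ext a
  by_cases ha : a ∈ Set.range (StarkP.infAbs L)
  · obtain ⟨w, rfl⟩ := ha
    rw [ic_apply]
  · rw [h a ha, ic_apply_of_not L _ ha]

theorem ic_mem (z : InfinitePlace L → ℂ) (h : ∑ w, z w = 0) : ic L z ∈ StarkP.XC L ∅ := by
  rw [mem_XC]
  exact ⟨fun a ha => ic_apply_of_not L z ha, by rw [lc_ic, h]⟩

theorem iot_mem (x : InfinitePlace L → ℝ) (h : x ∈ V L) : iot L x ∈ StarkP.XC L ∅ := by
  rw [iot_eq]
  apply ic_mem
  have h' : ∑ w, x w = 0 := h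
  exact_mod_cast h'

theorem of_XC (z : (L → ℝ) →₀ ℂ) (hz : z ∈ StarkP.XC L ∅) :
    (fun w => (z (StarkP.infAbs L w)).re) ∈ V L ∧ (fun w => (z (StarkP.infAbs L w)).im) ∈ V L ∧
    z = iot L (fun w => (z (StarkP.infAbs L w)).re) +
      Complex.I • iot L (fun w => (z (StarkP.infAbs L w)).im) := by
  rw [mem_XC] at hz
  obtain ⟨h1, h2⟩ := hz
  have h3 := eq_ic L z h1
  rw [h3, lc_ic] at h2
  refine ⟨?_, ?_, ?_⟩
  · show ∑ w, (z (StarkP.infAbs L w)).re = 0
    rw [← Complex.re_sum, h2, Complex.zero_re]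
  · show ∑ w, (z (StarkP.infAbs L w)).im = 0
    rw [← Complex.im_sum, h2, Complex.zero_im]
  · rw [iot_add_I]
    refine h3.trans ?_
    congr 1
    funext w
    rw [mul_comm]
    exact (Complex.re_add_im _).symm

omit [NumberField L] in
theorem mult_smul {K : Type} [Field K] [Algebra K L] (g : L ≃ₐ[K] L) (w : InfinitePlace L) :
    (g • w).mult = w.mult := by
  unfold InfinitePlace.mult
  rw [isReal_smul_iff]

theorem act_single {K : Type} [Field K] [Algebra K L] (g : L ≃ₐ[K] L) (x : InfinitePlace L → ℝ) :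
    StarkP.act (g : L ≃+* L) (iot L x) = iot L (actf g x) := by
  unfold iot StarkP.act
  rw [map_sum]
  rw [← Equiv.sum_comp (MulAction.toPerm g) (fun w => Finsupp.single (StarkP.infAbs L w)
    ((actf g x w : ℝ) : ℂ))]
  refine Finset.sum_congr rfl fun w _ => ?_
  rw [Finsupp.lmapDomain_apply, Finsupp.mapDomain_single]
  have h1 : StarkP.infAbs L w ∘ (g : L ≃+* L).symm = StarkP.infAbs L (MulAction.toPerm g w) := by
    funext y
    show (w ((g : L ≃+* L).symm y)) ^ w.mult = ((g • w) y) ^ (g • w).mult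
    rw [mult_smul, InfinitePlace.smul_apply]
    rfl
  have h2 : actf g x (MulAction.toPerm g w) = x w := by
    show x (g⁻¹ • (g • w)) = x w
    rw [inv_smul_smul]
  rw [h1, h2]

end IOT

open IOT in
theorem IOT_thm : Stmt_IOT := by
  intro L _ _
  refine ⟨?_, ?_, ?_, iot_mem L, ?_, ?_, ?_⟩
  · intro x y
    rw [iot_eq, iot_eq, iot_eq, ← ic_add]
    congr 1
    funext w
    simp
  · intro c x
    rw [iot_eq, iot_eq, ← ic_smul]
    congr 1
    funext w
    simp
  · intro x y h
    rw [iot_add_I] at h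
    have h1 : ∀ w, (x w : ℂ) + Complex.I * (y w : ℂ) = 0 := by
      intro w
      have h2 := ic_apply L (fun w => (x w : ℂ) + Complex.I * (y w : ℂ)) w
      rw [h] at h2
      exact h2.symm
    refine ⟨funext fun w => ?_, funext fun w => ?_⟩
    · have := congrArg Complex.re (h1 w)
      simpa using this
    · have := congrArg Complex.im (h1 w)
      simpa using this
  · intro z hz
    obtain ⟨h1, h2, h3⟩ := of_XC L z hz
    exact ⟨_, h1, _, h2, h3⟩
  · intro z
    constructor
    · rintro ⟨hz, hq⟩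
      obtain ⟨h1, h2, h3⟩ := of_XC L z hz
      refine ⟨_, h1, fun w => ?_, ?_⟩
      · obtain ⟨q, hq⟩ := hq (StarkP.infAbs L w)
        exact ⟨q, by rw [hq]; simp⟩
      · have h4 : (fun w => (z (StarkP.infAbs L w)).im) = 0 := by
          funext w
          obtain ⟨q, hq⟩ := hq (StarkP.infAbs L w)
          rw [hq]
          simp
        have h5 : iot L (0 : InfinitePlace L → ℝ) = 0 := by
          unfold iot
          simp
        rw [h4, h5, smul_zero, add_zero] at h3
        exact h3
    · rintro ⟨x, hx, hq, rfl⟩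
      refine ⟨iot_mem L x hx, fun a => ?_⟩
      by_cases ha : a ∈ Set.range (StarkP.infAbs L)
      · obtain ⟨w, rfl⟩ := ha
        obtain ⟨q, hq⟩ := hq w
        refine ⟨q, ?_⟩
        rw [iot_eq, ic_apply, hq]
        simp
      · exact ⟨0, by rw [iot_eq, ic_apply_of_not L _ ha]; simp⟩
  · intro K _ _ g x
    exact act_single L g x

end ABS
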