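import Pool.Agent.ABS.StA

/-!
# Module JN: the maps between the spaces of the infinite places
-/

open NumberField NumberField.InfinitePlace
open scoped Classical

namespace ABS

namespace JN

set_option linter.unusedSectionVars false

variable {F L : Type} [Field F] [NumberField F] [Field L] [NumberField L] [Algebra F L]

theorem res_smul (b : L ≃ₐ[F] L) (w : InfinitePlace L) : res F L (b • w) = res F L w := by
  unfold res
  rw [comap_smul, ← AlgEquiv.toAlgHom_toRingHom, AlgHom.comp_algebraMap]

theorem mult_smul (b : L ≃ₐ[F] L) (w : InfinitePlace L) : (b • w).mult = w.mult := by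
  unfold mult
  rw [if_congr (isReal_smul_iff (σ := b) (w := w)) rfl rfl]

variable [IsGalois F L]

/-- the order of the stabiliser -/
theorem card_stab (w : InfinitePlace L) :
    (Nat.card (MulAction.stabilizer (L ≃ₐ[F] L) w) : ℝ) =
      (w.mult : ℝ) / ((res F L w).mult : ℝ) := by
  rw [card_stabilizer]
  by_cases h : IsUnramified F w
  · rw [if_pos h]
    have h1 : (res F L w).mult = w.mult := h.eq
    rw [h1, Nat.cast_one, div_self]
    exact_mod_cast (mult_pos (w := w)).ne'
  · rw [if_neg h]
    obtain ⟨h1, h2⟩ := not_isUnramified_iff.1 h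
    have h3 : w.mult = 2 := mult_isComplex ⟨w, h1⟩
    have h4 : (res F L w).mult = 1 := mult_isReal ⟨res F L w, h2⟩
    rw [h3, h4]
    norm_num

/-- the number of automorphisms which map `w` to `w'` -/
theorem card_maps (w w' : InfinitePlace L) :
    (((Finset.univ : Finset (L ≃ₐ[F] L)).filter (fun b => b • w = w')).card : ℝ) =
      if res F L w' = res F L w then (w.mult : ℝ) / ((res F L w).mult : ℝ) else 0 := by
  by_cases h : res F L w' = res F L w
  · rw [if_pos h, ← card_stab]
    obtain ⟨σ, hσ⟩ := exists_smul_eq_of_comap_eq (k := F) (w := w) (w' := w') h.symm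
    rw [Nat.card_eq_fintype_card, Fintype.card_subtype]
    congr 1
    refine Finset.card_bij (fun b _ => σ⁻¹ * b) ?_ ?_ ?_
    · intro b hb
      rw [Finset.mem_filter] at hb ⊢
      refine ⟨Finset.mem_univ _, ?_⟩
      rw [MulAction.mem_stabilizer_iff, mul_smul, hb.2, ← hσ, inv_smul_smul]
    · intro b _ b' _ hbb
      exact mul_left_cancel hbb
    · intro b hb
      rw [Finset.mem_filter, MulAction.mem_stabilizer_iff] at hb
      refine ⟨σ * b, ?_, ?_⟩
      · rw [Finset.mem_filter]
        exact ⟨Finset.mem_univ _, by rw [mul_smul, hb.2, hσ]⟩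
      · exact inv_mul_cancel_left σ b
  · rw [if_neg h]
    rw [Finset.filter_eq_empty_iff.2, Finset.card_empty, Nat.cast_zero]
    intro b _ hb
    apply h
    rw [← hb, res_smul]

/-- the sum over the orbit -/
theorem sum_orbit (h : InfinitePlace L → ℝ) (w : InfinitePlace L) :
    ∑ b : L ≃ₐ[F] L, h (b • w) = (w.mult : ℝ) / ((res F L w).mult : ℝ) *
      ∑ w', if res F L w' = res F L w then h w' else 0 := by
  rw [← Finset.sum_fiberwise (Finset.univ : Finset (L ≃ₐ[F] L)) (fun b => b • w)
    (fun b => h (b • w)), Finset.mul_sum]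
  refine Finset.sum_congr rfl fun w' _ => ?_
  have h1 : ∑ b ∈ (Finset.univ : Finset (L ≃ₐ[F] L)).filter (fun b => b • w = w'), h (b • w) =
      ∑ b ∈ (Finset.univ : Finset (L ≃ₐ[F] L)).filter (fun b => b • w = w'), h w' :=
    Finset.sum_congr rfl fun b hb => by rw [(Finset.mem_filter.1 hb).2]
  rw [h1, Finset.sum_const, nsmul_eq_mul, card_maps]
  split_ifs
  · rfl
  · rw [zero_mul, mul_zero]

end JN

open JN in
theorem JN_thm : Stmt_JN := by
  intro F L _ _ _ _ _ _
  refine ⟨fun x => ?_, fun y => ?_⟩
  · funext v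
    obtain ⟨w, hw⟩ := comap_surjective (k := F) (K := L) v
    have hw' : res F L w = v := hw
    have h1 := sum_orbit (F := F) (jf F L x) w
    have h2 : ∀ b : L ≃ₐ[F] L, jf F L x (b • w) = jf F L x w := by
      intro b
      show ((b • w).mult : ℝ) / ((res F L (b • w)).mult : ℝ) * x (res F L (b • w)) = _
      rw [res_smul, mult_smul]
      rfl
    have h3 : ∑ w', (if res F L w' = res F L w then jf F L x w' else 0) = nf F L (jf F L x) v := by
      rw [hw']
      rfl
    have h4 : jf F L x w = (w.mult : ℝ) / ((res F L w).mult : ℝ) * x v := by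
      rw [← hw']
      rfl
    rw [Finset.sum_congr rfl fun b _ => h2 b, Finset.sum_const, nsmul_eq_mul, h3, h4,
      Finset.card_univ, ← Nat.card_eq_fintype_card, IsGalois.card_aut_eq_finrank] at h1
    have h5 : (w.mult : ℝ) / ((res F L w).mult : ℝ) ≠ 0 := by
      refine div_ne_zero ?_ ?_
      · exact_mod_cast (mult_pos (w := w)).ne'
      · exact_mod_cast (mult_pos (w := res F L w)).ne'
    have h6 : (w.mult : ℝ) / ((res F L w).mult : ℝ) * nf F L (jf F L x) v =
        (w.mult : ℝ) / ((res F L w).mult : ℝ) * ((Module.finrank F L : ℝ) * x v) := by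
      rw [← h1]
      ring
    exact mul_left_cancel₀ h5 h6
  · funext w
    have h1 := sum_orbit (F := F) y w
    rw [Finset.sum_apply]
    have h2 : ∑ b : L ≃ₐ[F] L, actf b y w = ∑ b : L ≃ₐ[F] L, y (b • w) :=
      Fintype.sum_equiv (Equiv.inv (L ≃ₐ[F] L)) _ _ fun b => rfl
    rw [h2, h1]
    rfl

end ABS
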