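import Pool.Agent.ABS.StA

/-!
# Project ABS, module JV: the maps between the places preserve `V` and integrality (helper43)
-/

open NumberField NumberField.InfinitePlace
open scoped Classical

namespace ABS

namespace JV

section

variable (F L : Type) [Field F] [NumberField F] [Field L] [NumberField L] [Algebra F L]

theorem sum_nf (y : InfinitePlace L → ℝ) : ∑ v, nf F L y v = ∑ w, y w := by
  have h1 : ∀ v, nf F L y v = ∑ w, if res F L w = v then y w else 0 := fun _ => rfl
  simp only [h1]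
  rw [Finset.sum_comm]
  refine Finset.sum_congr rfl fun w _ => ?_
  rw [Finset.sum_ite_eq, if_pos (Finset.mem_univ _)]

theorem ratio (w : InfinitePlace L) :
    ∃ k : ℤ, (w.mult : ℝ) / ((res F L w).mult : ℝ) = k := by
  have h1 : (res F L w).mult ≤ w.mult := InfinitePlace.mult_comap_le _ _
  have h2 : 0 < (res F L w).mult := InfinitePlace.mult_pos
  have h3 : w.mult ≤ 2 := by
    unfold InfinitePlace.mult
    split_ifs <;> omega
  obtain ⟨a, ha⟩ : ∃ a, a = (res F L w).mult := ⟨_, rfl⟩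
  obtain ⟨b, hb⟩ : ∃ b, b = w.mult := ⟨_, rfl⟩
  rw [← ha, ← hb]
  rw [← ha, ← hb] at h1
  rw [← ha] at h2
  rw [← hb] at h3
  have h4 : a = 1 ∨ a = 2 := by omega
  rcases h4 with h | h
  · exact ⟨b, by rw [h]; simp⟩
  · have h5 : b = 2 := by omega
    exact ⟨1, by rw [h, h5]; norm_num⟩

theorem int_mul {a b : ℝ} (ha : ∃ k : ℤ, a = k) (hb : ∃ k : ℤ, b = k) : ∃ k : ℤ, a * b = k := by
  obtain ⟨k, hk⟩ := ha
  obtain ⟨m, hm⟩ := hb
  exact ⟨k * m, by rw [hk, hm]; push_cast; rfl⟩

theorem int_sum {ι : Type} (s : Finset ι) (f : ι → ℝ) (h : ∀ i ∈ s, ∃ k : ℤ, f i = k) :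
    ∃ k : ℤ, ∑ i ∈ s, f i = k := by
  induction s using Finset.induction_on with
  | empty => exact ⟨0, by simp⟩
  | insert i s hi ih =>
    obtain ⟨k, hk⟩ := h i (Finset.mem_insert_self _ _)
    obtain ⟨m, hm⟩ := ih fun j hj => h j (Finset.mem_insert_of_mem hj)
    exact ⟨k + m, by rw [Finset.sum_insert hi, hk, hm]; push_cast; rfl⟩

end

end JV

open JV

theorem JV_thm : Stmt_JV := by
  intro hJN F L _ _ _ _ _ _
  obtain ⟨hJ, -⟩ := hJN F L
  refine ⟨?_, ?_, ?_, ?_⟩
  · intro x hx
    have hx' : ∑ v, x v = 0 := hx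
    show ∑ w, jf F L x w = 0
    rw [← sum_nf F L, hJ x]
    simp only [Pi.smul_apply, smul_eq_mul]
    rw [← Finset.mul_sum, hx', mul_zero]
  · intro y hy
    have hy' : ∑ w, y w = 0 := hy
    show ∑ v, nf F L y v = 0
    rw [sum_nf, hy']
  · intro x hx w
    exact int_mul (ratio F L w) (hx (res F L w))
  · intro y hy v
    refine int_sum Finset.univ (fun w => if res F L w = v then y w else 0) fun w _ => ?_
    split_ifs
    · exact hy w
    · exact ⟨0, by simp⟩

end ABS
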