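import Pool.Agent.ABS.LJ

/-!
# LG: the action of an automorphism on units and places
-/

open NumberField NumberField.InfinitePlace
open scoped Classical

namespace ABS

theorem LG_thm : Stmt_LG := by
  intro K L _ _ _ _ _ g
  refine ⟨fun u => ?_, fun y hy => ?_, fun y hy w => hy _⟩
  · refine ⟨Units.map (RingOfIntegers.mapRingEquiv (g : L ≃+* L)).toRingHom.toMonoidHom u, rfl, ?_⟩
    funext w
    show -((w.mult : ℝ) * Real.log (w (g ((u : 𝓞 L) : L)))) =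
      -((((g⁻¹ : L ≃ₐ[K] L) • w).mult : ℝ) * Real.log (((g⁻¹ : L ≃ₐ[K] L) • w) ((u : 𝓞 L) : L)))
    have h1 : ((g⁻¹ : L ≃ₐ[K] L) • w) ((u : 𝓞 L) : L) = w (g ((u : 𝓞 L) : L)) := by
      rw [InfinitePlace.smul_apply]
      rfl
    rw [h1, LJ.mult_smul]
  · show ∑ w, y (g⁻¹ • w) = 0
    rw [← (show ∑ w, y w = 0 from hy)]
    exact Fintype.sum_equiv (MulAction.toPerm (g⁻¹ : L ≃ₐ[K] L)) _ _ fun w => rfl

end ABS
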