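import Pool.Agent.ABS.StA

/-!
# ABS, module LJ: the regulator map, extension of fields and the norm
-/

open NumberField NumberField.InfinitePlace
open scoped Classical

namespace ABS

namespace LJ

theorem jf_inj (hJN : Stmt_JN) (F L : Type) [Field F] [NumberField F] [Field L] [NumberField L]
    [Algebra F L] [IsGalois F L] {x y : InfinitePlace F → ℝ} (h : jf F L x = jf F L y) : x = y := by
  have h1 := (hJN F L).1 x
  have h2 := (hJN F L).1 y
  rw [h, h2] at h1
  have h0 : (Module.finrank F L : ℝ) ≠ 0 := by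
    have : 0 < Module.finrank F L := Module.finrank_pos
    positivity
  funext v
  have h3 := congrFun h1 v
  simp only [Pi.smul_apply, smul_eq_mul] at h3
  exact (mul_left_cancel₀ h0 h3).symm

theorem lam_apply (F : Type) [Field F] [NumberField F] (u : (𝓞 F)ˣ) (w : InfinitePlace F) :
    (lam F u : InfinitePlace F → ℝ) w = -((w.mult : ℝ) * Real.log (w ((u : 𝓞 F) : F))) := rfl

theorem jf_apply (F L : Type) [Field F] [NumberField F] [Field L] [NumberField L] [Algebra F L]
    (x : InfinitePlace F → ℝ) (w : InfinitePlace L) :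
    jf F L x w = ((w.mult : ℝ) / ((res F L w).mult : ℝ)) * x (res F L w) := rfl

theorem jf_lam (F L : Type) [Field F] [NumberField F] [Field L] [NumberField L] [Algebra F L]
    (u : (𝓞 F)ˣ) (w : InfinitePlace L) :
    jf F L (lam F u) w = -((w.mult : ℝ) * Real.log (w (algebraMap F L ((u : 𝓞 F) : F)))) := by
  rw [jf_apply, lam_apply]
  have h1 : (res F L w) ((u : 𝓞 F) : F) = w (algebraMap F L ((u : 𝓞 F) : F)) := comap_apply _ _ _
  have h2 : ((res F L w).mult : ℝ) ≠ 0 := by
    have : 0 < (res F L w).mult := mult_pos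
    positivity
  rw [h1]
  field_simp

theorem mult_smul {K L : Type} [Field K] [Field L] [Algebra K L]
    (g : L ≃ₐ[K] L) (w : InfinitePlace L) : (g • w).mult = w.mult := by
  unfold InfinitePlace.mult
  simp only [isReal_smul_iff]

theorem actf_lam (F L : Type) [Field F] [NumberField F] [Field L] [NumberField L] [Algebra F L]
    (b : L ≃ₐ[F] L) (u : (𝓞 L)ˣ) (w : InfinitePlace L) :
    actf b (lam L u) w = -((w.mult : ℝ) * Real.log (w (b ((u : 𝓞 L) : L)))) := by
  have h1 : actf b (lam L u) w = (lam L u : InfinitePlace L → ℝ) (b⁻¹ • w) := rfl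
  rw [h1, lam_apply, mult_smul, InfinitePlace.smul_apply]
  rfl

end LJ

open LJ in
theorem LJ_thm : Stmt_LJ := by
  intro hJN F L _ _ _ _ _ _
  refine ⟨fun u => ?_, fun u => ?_⟩
  · refine ⟨Units.map (algebraMap (𝓞 F) (𝓞 L)) u, rfl, ?_⟩
    funext w
    rw [jf_lam, lam_apply]
    rfl
  · refine ⟨Units.map (RingOfIntegers.norm F) u, RingOfIntegers.coe_norm F _, ?_⟩
    apply jf_inj hJN F L
    rw [(hJN F L).2]
    funext w
    rw [jf_lam, Finset.sum_apply]
    simp only [actf_lam]
    have e1 : algebraMap F L (((Units.map (RingOfIntegers.norm F) u : (𝓞 F)ˣ) : 𝓞 F) : F) =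
        ∏ b : L ≃ₐ[F] L, b ((u : 𝓞 L) : L) := by
      rw [← Algebra.norm_eq_prod_automorphisms]
      exact congrArg (algebraMap F L) (RingOfIntegers.coe_norm F _)
    have h0 : ((u : 𝓞 L) : L) ≠ 0 := RingOfIntegers.coe_ne_zero_iff.2 u.ne_zero
    rw [e1, map_prod, Real.log_prod, Finset.mul_sum, Finset.sum_neg_distrib]
    intro b _
    rw [ne_eq, map_eq_zero, map_eq_zero]
    exact h0

end ABS
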