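import Pool.Agent.ABS.StA2

/-!
# ABS, module LMU (helper48): the vectors `λ(u)` and the set `LamU L ∅`
-/

open NumberField NumberField.InfinitePlace IsDedekindDomain
open scoped Classical

namespace ABS

namespace LMU

variable {L : Type} [Field L] [NumberField L]

theorem infAbs_inj (h : Stmt_IOT) : Function.Injective (StarkP.infAbs L) := by
  intro w w' hw
  by_contra hne
  obtain ⟨-, -, h3, -⟩ := h L
  have h1 : iot L (Pi.single w 1 - Pi.single w' 1) = 0 := by
    unfold iot
    have h4 : ∀ v : InfinitePlace L, Finsupp.single (StarkP.infAbs L v)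
        ((((Pi.single w 1 - Pi.single w' 1 : InfinitePlace L → ℝ) v : ℝ)) : ℂ) =
        (if v = w then Finsupp.single (StarkP.infAbs L w) (1 : ℂ) else 0) -
          if v = w' then Finsupp.single (StarkP.infAbs L w') (1 : ℂ) else 0 := by
      intro v
      by_cases h5 : v = w
      · subst h5
        have h6 : v ≠ w' := hne
        simp [Pi.single_apply, h6]
      · by_cases h6 : v = w'
        · subst h6
          simp [Pi.single_apply, h5]
        · simp [Pi.single_apply, h5, h6]
    rw [Finset.sum_congr rfl fun v _ => h4 v, Finset.sum_sub_distrib, Finset.sum_ite_eq',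
      Finset.sum_ite_eq', hw]
    simp
  have h2 := (h3 (Pi.single w 1 - Pi.single w' 1) 0 (by
    rw [h1]
    have : iot L (0 : InfinitePlace L → ℝ) = 0 := by
      unfold iot
      simp
    rw [this]
    simp)).1
  have h5 := congrFun h2 w
  simp [Pi.single_apply, hne] at h5

theorem iot_apply (h : Stmt_IOT) (x : InfinitePlace L → ℝ) (w : InfinitePlace L) :
    iot L x (StarkP.infAbs L w) = ((x w : ℝ) : ℂ) := by
  unfold iot
  rw [Finsupp.finset_sum_apply, Finset.sum_eq_single w]
  · rw [Finsupp.single_eq_same]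
  · intro v _ hv
    rw [Finsupp.single_apply, if_neg (fun h' => hv (infAbs_inj h h'))]
  · intro h'
    exact absurd (Finset.mem_univ w) h'

theorem iot_apply' (x : InfinitePlace L → ℝ) {a : L → ℝ} (ha : a ∉ Set.range (StarkP.infAbs L)) :
    iot L x a = 0 := by
  unfold iot
  rw [Finsupp.finset_sum_apply]
  apply Finset.sum_eq_zero
  intro v _
  rw [Finsupp.single_apply, if_neg (fun h' => ha ⟨v, h'⟩)]

theorem placeSet_empty : StarkP.placeSet L ∅ = Set.range (StarkP.infAbs L) := by
  unfold StarkP.placeSet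
  rw [Set.image_empty, Set.union_empty]

theorem log_infAbs (w : InfinitePlace L) (x : L) :
    Real.log (StarkP.infAbs L w x) = (w.mult : ℝ) * Real.log (w x) := by
  unfold StarkP.infAbs
  rw [Real.log_pow]

end LMU

open LMU in
theorem LMU_thm : Stmt_LMU := by
  intro hI L _ _ z
  constructor
  · rintro ⟨n, u, hn, hu, hz⟩
    have hn' : (n : ℝ) ≠ 0 := Nat.cast_ne_zero.mpr hn
    have hn'' : (n : ℂ) ≠ 0 := Nat.cast_ne_zero.mpr hn
    have hv : ∀ v : HeightOneSpectrum (𝓞 L), v.valuation L (u : L) = 1 :=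
      fun v => hu v (Set.notMem_empty v)
    obtain ⟨y, hy⟩ := HeightOneSpectrum.mem_integers_of_valuation_le_one (R := 𝓞 L) L (u : L)
      (fun v => (hv v).le)
    obtain ⟨y', hy'⟩ := HeightOneSpectrum.mem_integers_of_valuation_le_one (R := 𝓞 L) L
      ((u⁻¹ : Lˣ) : L) (fun v => by
        rw [Units.val_inv_eq_inv_val, map_inv₀, hv v, inv_one])
    have hinj : Function.Injective (algebraMap (𝓞 L) L) := RingOfIntegers.coe_injective
    have h1 : y * y' = 1 := by
      apply hinj
      rw [map_mul, hy, hy', map_one, Units.mul_inv]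
    have h2 : y' * y = 1 := by rw [mul_comm, h1]
    refine ⟨n, ⟨y, y', h1, h2⟩, (n : ℝ)⁻¹ • lam L ⟨y, y', h1, h2⟩, hn, ?_, ?_⟩
    · ext a
      by_cases ha : a ∈ Set.range (StarkP.infAbs L)
      · obtain ⟨w, rfl⟩ := ha
        rw [iot_apply hI]
        have h3 := hz (StarkP.infAbs L w)
        rw [placeSet_empty, if_pos ⟨w, rfl⟩, log_infAbs] at h3
        have h4 : (((n : ℝ)⁻¹ • lam L ⟨y, y', h1, h2⟩ : V L) : InfinitePlace L → ℝ) w =
            (n : ℝ)⁻¹ * -((w.mult : ℝ) * Real.log (w (u : L))) := by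
          rw [← hy]
          rfl
        rw [h4]
        apply mul_left_cancel₀ hn''
        rw [h3]
        push_cast
        field_simp
      · rw [iot_apply' _ ha]
        have h3 := hz a
        rw [placeSet_empty, if_neg ha] at h3
        exact (mul_eq_zero.mp h3).resolve_left hn''
    · rw [smul_smul, mul_inv_cancel₀ hn', one_smul]
  · rintro ⟨n, u, x, hn, rfl, hx⟩
    have hv : ∀ (u : (𝓞 L)ˣ) (v : HeightOneSpectrum (𝓞 L)),
        v.valuation L (algebraMap (𝓞 L) L (u : 𝓞 L)) ≤ 1 := fun u v => v.valuation_le_one _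
    refine ⟨n, Units.map (algebraMap (𝓞 L) L : 𝓞 L →* L) u, hn, ?_, ?_⟩
    · intro v _
      apply le_antisymm (hv u v)
      have h1 := hv u⁻¹ v
      have h2 : v.valuation L (algebraMap (𝓞 L) L (u : 𝓞 L)) *
          v.valuation L (algebraMap (𝓞 L) L ((u⁻¹ : (𝓞 L)ˣ) : 𝓞 L)) = 1 := by
        rw [← map_mul, ← map_mul, Units.mul_inv, map_one, map_one]
      calc (1 : _) = v.valuation L (algebraMap (𝓞 L) L (u : 𝓞 L)) *
          v.valuation L (algebraMap (𝓞 L) L ((u⁻¹ : (𝓞 L)ˣ) : 𝓞 L)) := h2.symm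
        _ ≤ v.valuation L (algebraMap (𝓞 L) L (u : 𝓞 L)) * 1 := mul_le_mul_right h1 _
        _ = _ := mul_one _
    · intro a
      rw [placeSet_empty]
      split_ifs with ha
      · obtain ⟨w, rfl⟩ := ha
        rw [iot_apply hI, log_infAbs]
        have h3 := congrArg (fun y : V L => (y : InfinitePlace L → ℝ) w) hx
        have h4 : (n : ℝ) * (x : InfinitePlace L → ℝ) w =
            -((w.mult : ℝ) * Real.log (w (algebraMap (𝓞 L) L (u : 𝓞 L)))) := h3
        have h5 := congrArg (fun r : ℝ => (r : ℂ)) h4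
        simpa using h5
      · rw [iot_apply' _ ha, mul_zero]

end ABS
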