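import Pool.Agent.ABS.StA

/-!
# ABS, module MUL (helper89): one integer for both fields
-/

open NumberField NumberField.InfinitePlace
open scoped Classical

namespace ABS

namespace MUL

section

variable (L : Type) [Field L] [NumberField L]

/-- The integral coordinates of the elements of `X L`. -/
noncomputable def co : X L →+ (InfinitePlace L → ℤ) where
  toFun x w := ⌊((x : V L) : InfinitePlace L → ℝ) w⌋
  map_zero' := by
    ext w
    simp
  map_add' x y := by
    ext w
    obtain ⟨a, ha⟩ := x.2 w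
    obtain ⟨b, hb⟩ := y.2 w
    have h : (((x + y : X L) : V L) : InfinitePlace L → ℝ) w = ((a + b : ℤ) : ℝ) := by
      push_cast
      rw [← ha, ← hb]
      rfl
    rw [Pi.add_apply, h, ha, hb, Int.floor_intCast, Int.floor_intCast, Int.floor_intCast]

theorem co_inj : Function.Injective (co L) := by
  intro x y h
  refine Subtype.ext (Subtype.ext (funext fun w => ?_))
  obtain ⟨a, ha⟩ := x.2 w
  obtain ⟨b, hb⟩ := y.2 w
  have h1 : ⌊((x : V L) : InfinitePlace L → ℝ) w⌋ = ⌊((y : V L) : InfinitePlace L → ℝ) w⌋ :=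
    congrFun h w
  rw [ha, hb, Int.floor_intCast, Int.floor_intCast] at h1
  rw [ha, hb, h1]

theorem finX : Module.Finite ℤ (X L) :=
  Module.Finite.of_injective (co L).toIntLinearMap (co_inj L)

/-- The multiplier for one field. -/
theorem one (T : V L →ₗ[ℝ] V L)
    (h : ∀ x ∈ X L, ∃ m : ℕ, 0 < m ∧ (m : ℝ) • T x ∈ Lam L) :
    ∃ m : ℕ, 0 < m ∧ ∀ x ∈ X L, (m : ℝ) • T x ∈ Lam L := by
  obtain ⟨S, hS⟩ := (finX L).fg_top
  choose f hf0 hf using fun x : X L => h x x.2
  refine ⟨∏ x ∈ S, f x, Finset.prod_pos fun x _ => hf0 x, ?_⟩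
  have key : ∀ x : X L, x ∈ Submodule.span ℤ (S : Set (X L)) →
      (((∏ x ∈ S, f x : ℕ)) : ℝ) • T (x : V L) ∈ Lam L := by
    intro x hx
    induction hx using Submodule.span_induction with
    | mem x hx =>
      obtain ⟨c, hc⟩ := Finset.dvd_prod_of_mem f (Finset.mem_coe.1 hx)
      rw [hc]
      have h1 : ((f x * c : ℕ) : ℝ) • T (x : V L) = c • ((f x : ℝ) • T (x : V L)) := by
        rw [← Nat.cast_smul_eq_nsmul ℝ, smul_smul]
        congr 1
        push_cast
        ring
      rw [h1]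
      exact AddSubgroup.nsmul_mem _ (hf x) c
    | zero =>
      have h1 : ((0 : X L) : V L) = 0 := rfl
      rw [h1, map_zero, smul_zero]
      exact (Lam L).zero_mem
    | add x y _ _ hx hy =>
      have h1 : ((x + y : X L) : V L) = (x : V L) + (y : V L) := rfl
      rw [h1, map_add, smul_add]
      exact (Lam L).add_mem hx hy
    | smul a x _ hx =>
      have h1 : ((a • x : X L) : V L) = a • (x : V L) := rfl
      rw [h1, map_zsmul, smul_comm]
      exact AddSubgroup.zsmul_mem _ hx a
  intro x hx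
  exact key ⟨x, hx⟩ (by rw [hS]; exact Submodule.mem_top)

end

end MUL

open MUL in
theorem MUL_thm : Stmt_MUL := by
  intro hJN hJV hLJ K F L _ _ _ _ _ _ _ _ _ T T' h
  obtain ⟨m, hm0, hm⟩ := one L T h.rat
  have hr : 0 < Module.finrank F L := Module.finrank_pos
  refine ⟨Module.finrank F L * m, Nat.mul_pos hr hm0, ?_, ?_⟩
  · intro x hx
    have h1 : ((Module.finrank F L * m : ℕ) : ℝ) • T x = Module.finrank F L • ((m : ℝ) • T x) := by
      rw [← Nat.cast_smul_eq_nsmul ℝ, smul_smul]
      congr 1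
      push_cast
      ring
    rw [h1]
    exact AddSubgroup.nsmul_mem _ (hm x hx) _
  · intro x hx
    obtain ⟨hV, -, hI, -⟩ := hJV hJN F L
    have hy : jf F L x ∈ V L := hV x x.2
    obtain ⟨u, hu⟩ := hm ⟨jf F L x, hy⟩ (fun w => hI x hx w)
    obtain ⟨u', -, hu'⟩ := (hLJ hJN F L).2 u
    refine ⟨u', Subtype.ext ?_⟩
    rw [← hu', hu]
    have h2 := h.compat x ⟨jf F L x, hy⟩ rfl
    have h3 : (((m : ℝ) • T ⟨jf F L x, hy⟩ : V L) : InfinitePlace L → ℝ) =
        (m : ℝ) • jf F L (T' x : V F) := by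
      rw [← h2]
      rfl
    rw [h3, map_smul, (hJN F L).1, smul_smul]
    have h4 : (((Module.finrank F L * m : ℕ) : ℝ) • T' x : V F) =
        ((m : ℝ) * (Module.finrank F L : ℝ)) • T' x := by
      congr 1
      push_cast
      ring
    rw [h4]
    rfl

end ABS
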