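import Pool.Agent.ABS.StA

/-!
# Module REG1: the determinant of `T`, the index and the regulator
-/

open NumberField NumberField.InfinitePlace
open NumberField.Units NumberField.Units.dirichletUnitTheorem
open scoped Classical

namespace ABS

namespace REG1

variable (F : Type) [Field F] [NumberField F]

/-- The coordinates at the places different from `w₀`. -/
noncomputable def E : V F ≃ₗ[ℝ] ({w : InfinitePlace F // w ≠ w₀} → ℝ) where
  toFun v i := (v : InfinitePlace F → ℝ) i
  map_add' _ _ := rfl
  map_smul' _ _ := rfl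
  invFun c := ⟨fun w => if h : w ≠ w₀ then c ⟨w, h⟩ else -∑ i, c i, by
    show ∑ w, _ = 0
    rw [Fintype.sum_eq_add_sum_subtype_ne _ (w₀ : InfinitePlace F)]
    rw [dif_neg (by simp)]
    have : ∀ i : {w : InfinitePlace F // w ≠ w₀},
        (if h : (i : InfinitePlace F) ≠ w₀ then c ⟨i, h⟩ else -∑ i, c i) = c i := fun i => by
      rw [dif_pos i.2]
    simp_rw [this]
    ring⟩
  left_inv v := by
    apply Subtype.ext
    funext w
    show (if h : w ≠ w₀ then (v : InfinitePlace F → ℝ) w else
      -∑ i : {w : InfinitePlace F // w ≠ w₀}, (v : InfinitePlace F → ℝ) i) = _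
    split_ifs with h
    · rfl
    · have h1 : ∑ w, (v : InfinitePlace F → ℝ) w = 0 := v.2
      rw [Fintype.sum_eq_add_sum_subtype_ne _ (w₀ : InfinitePlace F)] at h1
      have h2 : w = w₀ := not_not.1 h
      rw [h2]
      linarith
  right_inv c := by
    funext i
    show (if h : (i : InfinitePlace F) ≠ w₀ then c ⟨i, h⟩ else -∑ i, c i) = c i
    rw [dif_pos i.2]

theorem E_apply (v : V F) (i : {w : InfinitePlace F // w ≠ w₀}) :
    E F v i = (v : InfinitePlace F → ℝ) i := rfl

theorem E_lam (u : (𝓞 F)ˣ) : E F (lam F u) = -logEmbedding F (Additive.ofMul u) := by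
  funext i
  rfl

/-- `λ` as a homomorphism. -/
noncomputable def lamHom : Additive (𝓞 F)ˣ →+ V F :=
  ((E F).symm.toLinearMap.toAddMonoidHom).comp (-(logEmbedding F))

theorem lamHom_apply (u : (𝓞 F)ˣ) : lamHom F (Additive.ofMul u) = lam F u := by
  apply (E F).injective
  rw [E_lam]
  show E F ((E F).symm (-(logEmbedding F (Additive.ofMul u)))) = _
  rw [LinearEquiv.apply_symm_apply]

theorem range_lamHom : (lamHom F).range = Lam F := by
  ext v
  constructor
  · rintro ⟨u, rfl⟩
    exact ⟨u.toMul, (lamHom_apply F u.toMul).symm⟩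
  · rintro ⟨u, rfl⟩
    exact ⟨Additive.ofMul u, lamHom_apply F u⟩

theorem ker_lamHom : (lamHom F).ker = (torsion F).toAddSubgroup := by
  rw [← logEmbedding_ker]
  ext u
  rw [AddMonoidHom.mem_ker, AddMonoidHom.mem_ker]
  show (E F).symm (-(logEmbedding F u)) = 0 ↔ _
  rw [LinearEquiv.map_eq_zero_iff, neg_eq_zero]

/-- The basis vectors `w - w₀`. -/
noncomputable def xx (i : {w : InfinitePlace F // w ≠ w₀}) : V F := (E F).symm (Pi.single i 1)

theorem coe_symm (c : {w : InfinitePlace F // w ≠ w₀} → ℝ) (w : InfinitePlace F) :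
    (((E F).symm c : V F) : InfinitePlace F → ℝ) w =
      if h : w ≠ w₀ then c ⟨w, h⟩ else -∑ i, c i := rfl

theorem xx_mem (i : {w : InfinitePlace F // w ≠ w₀}) : xx F i ∈ X F := by
  intro w
  rw [xx, coe_symm]
  split_ifs with h
  · by_cases h2 : (⟨w, h⟩ : {w : InfinitePlace F // w ≠ w₀}) = i
    · refine ⟨1, ?_⟩
      rw [h2, Pi.single_eq_same]
      simp
    · refine ⟨0, ?_⟩
      rw [Pi.single_eq_of_ne h2]
      simp
  · refine ⟨-1, ?_⟩
    rw [Finset.sum_eq_single i (fun j _ hj => Pi.single_eq_of_ne hj _)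
      (fun h => absurd (Finset.mem_univ _) h), Pi.single_eq_same]
    simp

theorem closure_xx : AddSubgroup.closure (Set.range (xx F)) = X F := by
  apply le_antisymm
  · rw [AddSubgroup.closure_le]
    rintro _ ⟨i, rfl⟩
    exact xx_mem F i
  · intro v hv
    choose k hk using hv
    have h1 : v = ∑ i : {w : InfinitePlace F // w ≠ w₀}, k i • xx F i := by
      apply (E F).injective
      rw [map_sum]
      have h2 : ∀ i : {w : InfinitePlace F // w ≠ w₀}, E F (k i • xx F i) =
          (Pi.single i (k i : ℝ) : {w : InfinitePlace F // w ≠ w₀} → ℝ) := by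
        intro i
        rw [map_zsmul, xx, LinearEquiv.apply_symm_apply]
        funext j
        rw [Pi.smul_apply]
        by_cases hj : j = i
        · rw [hj, Pi.single_eq_same, Pi.single_eq_same]
          simp
        · rw [Pi.single_eq_of_ne hj, Pi.single_eq_of_ne hj, smul_zero]
      simp_rw [h2]
      funext j
      rw [Finset.sum_apply, Finset.sum_pi_single]
      rw [E_apply, hk]
      simp
    rw [h1]
    exact AddSubgroup.sum_mem _ fun i _ => AddSubgroup.zsmul_mem _
      (AddSubgroup.subset_closure (Set.mem_range_self i)) _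

theorem finrank_V : Module.finrank ℝ (V F) = Units.rank F := by
  rw [(E F).finrank_eq, Module.finrank_fintype_fun_eq_card, Units.rank,
    Fintype.card_subtype_compl, Fintype.card_subtype_eq]

end REG1

open REG1

theorem REG1_thm : Stmt_REG1 := by
  intro F _ _ T m hm hT hX
  have hm0 : (m : ℝ) ≠ 0 := by exact_mod_cast hm.ne'
  let T' : V F →ₗ[ℝ] V F := (m : ℝ) • T
  have hfin : Module.Finite ℝ (V F) := Module.Finite.equiv (E F).symm
  -- the units
  choose u hu using fun i => hX (xx F i) (xx_mem F i)
  have hu' : ∀ i, lam F (u i) = T' (xx F i) := hu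
  let u' : Fin (Units.rank F) → (𝓞 F)ˣ := fun i => u (equivFinRank F i)
  -- the determinant
  have hdet : |LinearMap.det T'| = regOfFamily u' := by
    rw [regOfFamily_eq_det', ← LinearMap.det_conj T' (E F), ← LinearMap.det_toMatrix']
    have h1 : LinearMap.toMatrix' ((E F).toLinearMap ∘ₗ T' ∘ₗ (E F).symm.toLinearMap) =
        -(Matrix.of fun i => logEmbedding F
          (Additive.ofMul (u' ((equivFinRank F).symm i)))).transpose := by
      ext a b
      rw [LinearMap.toMatrix'_apply]
      show E F (T' ((E F).symm (Pi.single b 1))) a = -(logEmbedding F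
          (Additive.ofMul (u (equivFinRank F ((equivFinRank F).symm b)))) a)
      rw [Equiv.apply_symm_apply]
      have h2 : (E F).symm (Pi.single b 1) = xx F b := rfl
      rw [h2, ← hu', E_lam]
      rfl
    rw [h1, Matrix.det_neg, Matrix.det_transpose, abs_mul, abs_pow, abs_neg, abs_one, one_pow,
      one_mul]
  have hdet0 : LinearMap.det T' ≠ 0 := by
    intro h
    have h1 := LinearMap.bot_lt_ker_of_det_eq_zero h
    have h2 : LinearMap.ker T' = ⊥ := by
      rw [LinearMap.ker_eq_bot]
      intro x y hxy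
      apply hT
      have h3 : (m : ℝ) • T x = (m : ℝ) • T y := hxy
      exact smul_right_injective _ hm0 h3
    exact h1.ne' h2
  have hmul : LinearMap.det T' = (m : ℝ) ^ (Units.rank F) * LinearMap.det T := by
    rw [LinearMap.det_smul, finrank_V]
  -- the index
  have hidx : (AddSubgroup.map T'.toAddMonoidHom (X F)).relIndex (Lam F) =
      (Subgroup.closure (Set.range u') ⊔ torsion F).index := by
    rw [← range_lamHom, ← AddSubgroup.index_comap, ← Subgroup.index_toAddSubgroup]
    congr 1
    have h1 : AddSubgroup.map T'.toAddMonoidHom (X F) =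
        AddSubgroup.map (lamHom F) (Subgroup.closure (Set.range u')).toAddSubgroup := by
      rw [← closure_xx, AddMonoidHom.map_closure, Subgroup.toAddSubgroup_closure,
        AddMonoidHom.map_closure]
      congr 1
      ext v
      constructor
      · rintro ⟨_, ⟨i, rfl⟩, rfl⟩
        refine ⟨Additive.ofMul (u i), ⟨(equivFinRank F).symm i, ?_⟩, ?_⟩
        · show u (equivFinRank F ((equivFinRank F).symm i)) = u i
          rw [Equiv.apply_symm_apply]
        · rw [lamHom_apply, hu']
          rfl
      · rintro ⟨_, ⟨i, rfl⟩, rfl⟩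
        refine ⟨xx F (equivFinRank F i), ⟨_, rfl⟩, ?_⟩
        exact (hu' _).symm.trans (lamHom_apply F _).symm
    rw [h1, AddSubgroup.comap_map_eq, ker_lamHom]
    exact (map_sup Subgroup.toAddSubgroup _ _).symm
  have hreg := regOfFamily_div_regulator u'
  have hR := regulator_pos F
  rw [div_eq_iff hR.ne'] at hreg
  have hfinal : |LinearMap.det T'| =
      ((AddSubgroup.map T'.toAddMonoidHom (X F)).relIndex (Lam F) : ℝ) * Units.regulator F := by
    rw [hdet, hreg, hidx]
  refine ⟨?_, ?_⟩
  · intro h
    change (AddSubgroup.map T'.toAddMonoidHom (X F)).relIndex (Lam F) = 0 at h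
    rw [h, Nat.cast_zero, zero_mul, abs_eq_zero] at hfinal
    exact hdet0 hfinal
  · have h1 : |LinearMap.det T| * (m : ℝ) ^ (Units.rank F) = |LinearMap.det T'| := by
      rw [hmul, abs_mul, abs_pow, Nat.abs_cast, mul_comm]
    rw [h1]
    exact hfinal

end ABS
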