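import Pool.Agent.ABS.StA2

/-!
# ABS, module SPN: subspaces containing the units or the integral vectors
-/

open NumberField NumberField.InfinitePlace NumberField.Units NumberField.Units.dirichletUnitTheorem
open scoped Classical

namespace ABS

namespace SPN

variable (L : Type) [Field L] [NumberField L]

/-- Drop the coordinate of the distinguished place and change the sign. -/
noncomputable def dr : V L →ₗ[ℝ] logSpace L where
  toFun x w := -((x : InfinitePlace L → ℝ) w.1)
  map_add' x y := by
    ext w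
    simp only [Submodule.coe_add, Pi.add_apply]
    ring
  map_smul' c x := by
    ext w
    simp only [Submodule.coe_smul, Pi.smul_apply, smul_eq_mul, RingHom.id_apply]
    ring

theorem dr_apply (x : V L) (w : {w : InfinitePlace L // w ≠ w₀}) :
    dr L x w = -((x : InfinitePlace L → ℝ) w.1) := rfl

theorem dr_inj : Function.Injective (dr L) := by
  intro x y h
  apply Subtype.ext
  have h1 : ∀ w : InfinitePlace L, w ≠ w₀ →
      (x : InfinitePlace L → ℝ) w = (y : InfinitePlace L → ℝ) w := by
    intro w hw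
    have h2 := congrFun h ⟨w, hw⟩
    rw [dr_apply, dr_apply] at h2
    exact neg_injective h2
  have hx : ∑ w, (x : InfinitePlace L → ℝ) w = 0 := x.2
  have hy : ∑ w, (y : InfinitePlace L → ℝ) w = 0 := y.2
  funext w
  by_cases hw : w = w₀
  · rw [hw]
    rw [← Finset.add_sum_erase Finset.univ _ (Finset.mem_univ (w₀ : InfinitePlace L))] at hx hy
    have h3 : ∑ w ∈ Finset.univ.erase (w₀ : InfinitePlace L), (x : InfinitePlace L → ℝ) w =
        ∑ w ∈ Finset.univ.erase (w₀ : InfinitePlace L), (y : InfinitePlace L → ℝ) w :=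
      Finset.sum_congr rfl fun w hw => h1 w (Finset.ne_of_mem_erase hw)
    linarith
  · exact h1 w hw

theorem dr_lam (u : (𝓞 L)ˣ) : dr L (lam L u) = logEmbedding L (Additive.ofMul u) := by
  funext w
  rw [dr_apply, logEmbedding_component]
  show - -((w.1.mult : ℝ) * Real.log (w.1 (u : L))) = _
  rw [neg_neg]

theorem top_of (W : Submodule ℝ (V L)) (h : (⊤ : Submodule ℝ (logSpace L)) ≤ W.map (dr L)) :
    W = ⊤ := by
  rw [eq_top_iff]
  intro x _
  obtain ⟨y, hy, hxy⟩ := h (Submodule.mem_top (x := dr L x))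
  rw [← dr_inj L hxy]
  exact hy

/-- The vector `e_w - e_(w₀)`. -/
noncomputable def vec (w : InfinitePlace L) : V L :=
  ⟨Pi.single w 1 - Pi.single w₀ 1, by
    show ∑ v, (Pi.single w (1 : ℝ) - Pi.single w₀ 1 : InfinitePlace L → ℝ) v = 0
    simp only [Pi.sub_apply, Finset.sum_sub_distrib]
    have h : ∀ a : InfinitePlace L, ∑ x, (Pi.single a (1 : ℝ) : InfinitePlace L → ℝ) x = 1 := by
      intro a
      simp [Pi.single_apply]
    rw [h, h, sub_self]⟩

theorem vec_mem (w : InfinitePlace L) : vec L w ∈ X L := by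
  intro v
  show ∃ k : ℤ, (Pi.single w (1 : ℝ) - Pi.single w₀ 1 : InfinitePlace L → ℝ) v = k
  rw [Pi.sub_apply, Pi.single_apply, Pi.single_apply]
  split_ifs
  · exact ⟨0, by simp⟩
  · exact ⟨1, by simp⟩
  · exact ⟨-1, by simp⟩
  · exact ⟨0, by simp⟩

theorem dr_vec (w : {w : InfinitePlace L // w ≠ w₀}) :
    dr L (vec L w.1) = -(Pi.single w (1 : ℝ)) := by
  funext v
  rw [dr_apply, Pi.neg_apply]
  show -((Pi.single w.1 (1 : ℝ) - Pi.single w₀ 1 : InfinitePlace L → ℝ) v.1) = _
  rw [Pi.sub_apply, Pi.single_apply, Pi.single_apply, Pi.single_apply, if_neg v.2, sub_zero]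
  congr 1
  by_cases h : v = w
  · rw [if_pos h, if_pos (congrArg Subtype.val h)]
  · rw [if_neg h, if_neg (fun h' => h (Subtype.ext h'))]

end SPN

open SPN in
theorem SPN_thm : Stmt_SPN := by
  intro L _ _ W
  constructor
  · intro h
    apply top_of L W
    rw [← unitLattice_span_eq_top L, Submodule.span_le]
    rintro _ ⟨u, -, rfl⟩
    exact ⟨lam L u.toMul, h _, dr_lam L _⟩
  · intro h
    apply top_of L W
    intro x _
    have h1 : x = ∑ w, x w • (Pi.single w (1 : ℝ) : logSpace L) := by
      funext v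
      rw [Finset.sum_apply]
      simp [Pi.single_apply]
    rw [h1]
    refine Submodule.sum_mem _ fun w _ => Submodule.smul_mem _ _ ?_
    refine ⟨-vec L w.1, W.neg_mem (h _ (vec_mem L w.1)), ?_⟩
    rw [map_neg, dr_vec, neg_neg]

end ABS
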