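import Pool.Agent.ABS.StA2

/-!
# ABS, module TRE: the real map `T` of a map `Θ` (MP_46b841_nt)
-/

open NumberField NumberField.InfinitePlace IsDedekindDomain
open scoped Classical

namespace ABS

namespace TRE

variable {L : Type} [Field L] [NumberField L]

theorem iot_zero (hI : Stmt_IOT) : iot L (0 : InfinitePlace L → ℝ) = 0 := by
  have h := (hI L).2.1 0 0
  rw [zero_smul] at h
  rw [h, Complex.ofReal_zero, zero_smul]

theorem iot_sub (hI : Stmt_IOT) (x y : InfinitePlace L → ℝ) :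
    iot L (x - y) = iot L x - iot L y := by
  have h := (hI L).1 (x - y) y
  rw [sub_add_cancel] at h
  rw [h, add_sub_cancel_right]

theorem iot_inj (hI : Stmt_IOT) {x y : InfinitePlace L → ℝ} (h : iot L x = iot L y) : x = y := by
  have h1 : iot L (x - y) + Complex.I • iot L (0 : InfinitePlace L → ℝ) = 0 := by
    rw [iot_sub hI, h, sub_self, iot_zero hI, smul_zero, add_zero]
  exact sub_eq_zero.1 ((hI L).2.2.1 _ _ h1).1

/-- the vectors with image in the real space -/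
def W0 (hI : Stmt_IOT) (Θ : ((L → ℝ) →₀ ℂ) →ₗ[ℂ] ((L → ℝ) →₀ ℂ)) : Submodule ℝ (V L) where
  carrier := {x | ∃ y : V L, Θ (iot L x) = iot L y}
  add_mem' := by
    rintro a b ⟨y, hy⟩ ⟨z, hz⟩
    refine ⟨y + z, ?_⟩
    show Θ (iot L ((a : InfinitePlace L → ℝ) + b)) = iot L ((y : InfinitePlace L → ℝ) + z)
    rw [(hI L).1, (hI L).1, map_add, hy, hz]
  zero_mem' := by
    refine ⟨0, ?_⟩
    show Θ (iot L (0 : InfinitePlace L → ℝ)) = iot L (0 : InfinitePlace L → ℝ)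
    rw [iot_zero hI, map_zero]
  smul_mem' := by
    rintro c a ⟨y, hy⟩
    refine ⟨c • y, ?_⟩
    show Θ (iot L (c • (a : InfinitePlace L → ℝ))) = iot L (c • (y : InfinitePlace L → ℝ))
    rw [(hI L).2.1, (hI L).2.1, map_smul, hy]

theorem x_mem (hI : Stmt_IOT) (hL : Stmt_LMU) {Θ : ((L → ℝ) →₀ ℂ) →ₗ[ℂ] ((L → ℝ) →₀ ℂ)}
    (hB : Set.BijOn Θ (StarkP.XQ L ∅) (StarkP.LamU L ∅)) {x : V L} (hx : x ∈ X L) :
    ∃ (n : ℕ) (u : (𝓞 L)ˣ) (y : V L), n ≠ 0 ∧ Θ (iot L x) = iot L y ∧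
      (n : ℝ) • y = lam L u := by
  have h1 : iot L (x : InfinitePlace L → ℝ) ∈ StarkP.XQ L ∅ := by
    refine ((hI L).2.2.2.2.2.1 _).2 ⟨x, x.2, fun w => ?_, rfl⟩
    obtain ⟨k, hk⟩ := hx w
    exact ⟨k, by rw [hk]; push_cast; rfl⟩
  exact (hL hI L _).1 (hB.1 h1)

end TRE

open TRE in
theorem TRE_thm : Stmt_TRE := by
  intro hI hL hS K L _ _ _ _ Θ hΘ
  obtain ⟨hc, hB⟩ := hΘ
  have htop : W0 hI Θ = ⊤ := (hS L (W0 hI Θ)).2 fun x hx => by
    obtain ⟨n, u, y, _, hy, _⟩ := x_mem hI hL hB hx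
    exact ⟨y, hy⟩
  have hex : ∀ x : V L, ∃ y : V L, Θ (iot L x) = iot L y := fun x => by
    have : x ∈ W0 hI Θ := by rw [htop]; trivial
    exact this
  choose f hf using hex
  have huniq : ∀ {x y : V L}, Θ (iot L x) = iot L y → f x = y := fun {x y} h =>
    Subtype.ext (iot_inj hI (by rw [← hf, h]))
  let T : V L →ₗ[ℝ] V L :=
    { toFun := f
      map_add' := fun x y => huniq (by
        show Θ (iot L ((x : InfinitePlace L → ℝ) + y)) = iot L ((f x : InfinitePlace L → ℝ) + f y)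
        rw [(hI L).1, (hI L).1, map_add, hf, hf])
      map_smul' := fun c x => huniq (by
        show Θ (iot L (c • (x : InfinitePlace L → ℝ))) = iot L (c • (f x : InfinitePlace L → ℝ))
        rw [(hI L).2.1, (hI L).2.1, map_smul, hf]) }
  have hT : ∀ x, T x = f x := fun _ => rfl
  refine ⟨T, fun x => hf x, ?_, ?_, ?_⟩
  · have hr : LinearMap.range T = ⊤ := (hS L _).1 fun u => by
      have h1 : iot L (lam L u : InfinitePlace L → ℝ) ∈ StarkP.LamU L ∅ :=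
        (hL hI L _).2 ⟨1, u, lam L u, one_ne_zero, rfl, by rw [Nat.cast_one, one_smul]⟩
      obtain ⟨z, hz, hz2⟩ := hB.2.2 h1
      obtain ⟨x, hx, _, rfl⟩ := ((hI L).2.2.2.2.2.1 z).1 hz
      exact ⟨⟨x, hx⟩, huniq hz2⟩
    exact LinearMap.injective_iff_surjective.2 (LinearMap.range_eq_top.1 hr)
  · intro g x y hy
    refine iot_inj hI ?_
    rw [hT, hT, ← hf, hy, ← (hI L).2.2.2.2.2.2 K g, hc g _ ((hI L).2.2.2.1 _ x.2), hf,
      (hI L).2.2.2.2.2.2 K g]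
  · intro x hx
    obtain ⟨n, u, y, hn, hy, hu⟩ := x_mem hI hL hB hx
    refine ⟨n, Nat.pos_of_ne_zero hn, u, ?_⟩
    rw [hT, huniq hy, hu]

end ABS
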