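import Pool.Agent.ABS.StA2

/-!
# ABS, module TRF (helper56)
-/

open NumberField NumberField.InfinitePlace
open scoped Classical

namespace ABS

namespace TRF

section

variable {F L : Type} [Field F] [NumberField F] [Field L] [NumberField L] [Algebra F L]

theorem res_smul (b : L ≃ₐ[F] L) (w : InfinitePlace L) : res F L (b • w) = res F L w := by
  ext x
  show (b • w) (algebraMap F L x) = w (algebraMap F L x)
  rw [InfinitePlace.smul_apply, AlgEquiv.commutes]

theorem mult_smul' (b : L ≃ₐ[F] L) (w : InfinitePlace L) : (b • w).mult = w.mult := by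
  unfold InfinitePlace.mult
  simp only [InfinitePlace.isReal_smul_iff]

theorem actf_jf (b : L ≃ₐ[F] L) (x : InfinitePlace F → ℝ) :
    actf b (jf F L x) = jf F L x := by
  ext w
  show (((b⁻¹ • w).mult : ℝ) / ((res F L (b⁻¹ • w)).mult : ℝ)) * x (res F L (b⁻¹ • w)) =
    ((w.mult : ℝ) / ((res F L w).mult : ℝ)) * x (res F L w)
  rw [res_smul, mult_smul']

variable {K : Type} [Field K] [Algebra K F] [Algebra K L] [IsScalarTower K F L]

theorem actf_res (b : L ≃ₐ[F] L) (y : InfinitePlace L → ℝ) :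
    actf (b.restrictScalars K) y = actf b y := by
  ext w
  show y ((b.restrictScalars K)⁻¹ • w) = y (b⁻¹ • w)
  congr 1

end

end TRF

open TRF in
theorem TRF_thm : Stmt_TRF := by
  intro hJN hJV _ K F L _ _ _ _ _ _ _ _ _ _ _ T hT hcomm hrat
  obtain ⟨n1, n2⟩ := hJN F L
  obtain ⟨v1, v2, -, -⟩ := hJV hJN F L
  have hfin : FiniteDimensional F L := inferInstance
  set d : ℝ := (Module.finrank F L : ℝ) with hd
  have hd0 : d ≠ 0 := by
    rw [hd]
    exact_mod_cast (Module.finrank_pos (R := F) (M := L)).ne'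
  have hcard : (Fintype.card (L ≃ₐ[F] L) : ℝ) = d := by
    rw [hd, ← IsGalois.card_aut_eq_finrank F L, Nat.card_eq_fintype_card]
  -- vectors which are fixed
  have hfix : ∀ y : InfinitePlace L → ℝ, (∀ b : L ≃ₐ[F] L, actf b y = y) →
      jf F L (nf F L y) = d • y := by
    intro y hy
    rw [n2, Finset.sum_congr rfl (fun b _ => hy b), Finset.sum_const, Finset.card_univ, ← hcard,
      Nat.cast_smul_eq_nsmul]
  have hinj : ∀ x x' : InfinitePlace F → ℝ, jf F L x = jf F L x' → x = x' := by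
    intro x x' h
    have h1 := congrArg (nf F L) h
    rw [n1, n1] at h1
    exact smul_right_injective _ hd0 h1
  let jV : V F →ₗ[ℝ] V L := (jf F L).restrict v1
  let nV : V L →ₗ[ℝ] V F := (nf F L).restrict v2
  have hjV : ∀ x : V F, ((jV x : V L) : InfinitePlace L → ℝ) = jf F L x := fun x => rfl
  have hnV : ∀ y : V L, ((nV y : V F) : InfinitePlace F → ℝ) = nf F L y := fun y => rfl
  let T' : V F →ₗ[ℝ] V F := d⁻¹ • (nV ∘ₗ T ∘ₗ jV)
  have hT' : ∀ x : V F, ((T' x : V F) : InfinitePlace F → ℝ) = d⁻¹ • nf F L (T (jV x) : V L) :=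
    fun x => rfl
  have hTfix : ∀ (x : V F) (b : L ≃ₐ[F] L),
      actf b ((T (jV x) : V L) : InfinitePlace L → ℝ) = (T (jV x) : V L) := by
    intro x b
    have h1 := hcomm (b.restrictScalars K) (jV x) (jV x) (by
      rw [actf_res, hjV, actf_jf])
    rw [actf_res] at h1
    exact h1.symm
  have hcompat : ∀ x : V F, ((T (jV x) : V L) : InfinitePlace L → ℝ) = jf F L (T' x : V F) := by
    intro x
    rw [hT', map_smul, hfix _ (hTfix x), smul_smul, inv_mul_cancel₀ hd0, one_smul]
  refine ⟨fun y => ⟨fun hy => ?_, ?_⟩, fun x x' h => Subtype.ext (hinj _ _ h), T', ?_⟩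
  · refine ⟨d⁻¹ • nV y, ?_⟩
    show jf F L (d⁻¹ • nf F L (y : InfinitePlace L → ℝ)) = y
    rw [map_smul, hfix _ hy, smul_smul, inv_mul_cancel₀ hd0, one_smul]
  · rintro ⟨x, hx⟩ b
    rw [← hx, actf_jf]
  · refine ⟨hT, ?_, hcomm, hrat, ?_⟩
    · intro x x' h
      have h1 : ((T (jV x) : V L) : InfinitePlace L → ℝ) = (T (jV x') : V L) := by
        rw [hcompat, hcompat, h]
      have h2 := hT (Subtype.ext h1)
      have h3 := congrArg (fun y : V L => (y : InfinitePlace L → ℝ)) h2
      exact Subtype.ext (hinj _ _ h3)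
    · intro x y hxy
      have h1 : y = jV x := Subtype.ext hxy
      rw [h1]
      exact hcompat x

end ABS
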