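import Pool.Agent.ABS.TRG
import Pool.Agent.ABS.TRN
import Pool.Agent.ABS.GNSF
import Pool.Agent.ABS.KER
import Pool.Agent.ABS.CRD
import Pool.Agent.ABS.HIL
import Pool.Agent.ABS.GIN
import Pool.Agent.ABS.POS
import Pool.Agent.ABS.GEN
import Pool.Agent.ABS.CLN
import Pool.Agent.ABS.CLG
import Pool.Agent.ABS.MUG
import Pool.Agent.ABS.JN
import Pool.Agent.ABS.JV
import Pool.Agent.ABS.LJ
import Pool.Agent.ABS.LG
import Pool.Agent.ABS.QUO
import Pool.Agent.ABS.REG1
import Pool.Agent.ABS.XI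
import Pool.Agent.ABS.MUL
import Pool.Agent.ABS.COMN
import Pool.Agent.ABS.CORE
import Pool.Agent.ABS.DTC
import Pool.Agent.ABS.IOT
import Pool.Agent.ABS.LMU
import Pool.Agent.ABS.SPN
import Pool.Agent.ABS.TRE
import Pool.Agent.ABS.TRF
import Pool.Agent.ABS.COX

/-!
# Part A of project ABS: the core formula
-/

namespace ABS

theorem PARTA.quot : CORE.Quot :=
  TRG_thm TRN_thm GNS_thm KER_thm CRD_thm HIL_thm GIN_thm POS_thm

theorem PARTA.core : Stmt_CORE :=
  CORE_thm PARTA.quot GEN_thm CLN_thm CLG_thm MUG_thm JN_thm JV_thm LJ_thm LG_thm QUO_thm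
    REG1_thm XI_thm MUL_thm COMN_thm

/-- The interface with part B. -/
theorem corep : StarkP.ABS.Stmt_COREP :=
  COX_thm IOT_thm LMU_thm SPN_thm TRE_thm JN_thm JV_thm LG_thm TRF_thm DTC_thm PARTA.core

end ABS
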