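import Pool.Agent.ABS.StB

/-!
# Module ABS_PSTEP: change of `S` (helper30)
-/

open NumberField IsDedekindDomain
open scoped TensorProduct Classical

namespace StarkC.ABS

namespace PSTEPx

theorem mem_Ex {n t : ℕ} (h : t ∈ Ex n) : n.Coprime t := (Finset.mem_filter.1 h).2

section

variable {K L : Type} [Field K] [NumberField K] [Field L] [NumberField L] [Algebra K L]
  [IsGalois K L]

theorem logL_finset (S : Set (HeightOneSpectrum (𝓞 K))) (s : ℂ) (hs : 1 < s.re) (E : Finset ℕ)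
    (χ : ℕ → (L ≃ₐ[K] L) → ℂ) :
    logL (fun g => ∑ t ∈ E, χ t g) S s = ∑ t ∈ E, logL (χ t) S s := by
  have h := IND.logL_sum (K := K) (N := L) LA_thm ALLT.lb S s hs E.card (fun _ => 1)
    (fun i => χ (E.equivFin.symm i))
  have e1 : ∀ f : ℕ → ℂ, ∑ t ∈ E, f t = ∑ i : Fin E.card, 1 * f (E.equivFin.symm i) := by
    intro f
    rw [← Finset.sum_coe_sort E f, ← Equiv.sum_comp E.equivFin.symm]
    exact Finset.sum_congr rfl fun i _ => (one_mul _).symm
  rw [e1 fun t => logL (χ t) S s, ← h]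
  congr 1
  funext g
  exact e1 fun t => χ t g

end

/-- multiplication by finitely many Euler factors -/
theorem mulE (N : ℕ) (hN : 1 < N) (w : ℕ → ℂ) (E : Finset ℕ) (f : ℂ → ℂ)
    (hf : ∀ a, MeromorphicAt f a) :
    (∀ a, MeromorphicAt (fun s : ℂ => f s * ∏ t ∈ E, (1 - w t * (N : ℂ) ^ (-s))) a) ∧
      meromorphicTrailingCoeffAt (fun s : ℂ => f s * ∏ t ∈ E, (1 - w t * (N : ℂ) ^ (-s))) 0 =
        meromorphicTrailingCoeffAt f 0 *
          ∏ t ∈ E, (if w t = 1 then ((Real.log N : ℝ) : ℂ) else 1 - w t) := by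
  induction E using Finset.induction_on with
  | empty => simpa using hf
  | insert t E ht ih =>
    obtain ⟨m, e⟩ := ih
    obtain ⟨m1, e1⟩ := LEULZ_thm N hN (w t)
    have hfun : (fun s : ℂ => f s * ∏ i ∈ insert t E, (1 - w i * (N : ℂ) ^ (-s))) =
        fun s : ℂ => (f s * ∏ i ∈ E, (1 - w i * (N : ℂ) ^ (-s))) *
          (1 - w t * (N : ℂ) ^ (-s)) := by
      funext s
      rw [Finset.prod_insert ht]
      ring
    rw [hfun]
    refine ⟨fun a => (m a).mul (m1 a), ?_⟩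
    rw [MeromorphicAt.meromorphicTrailingCoeffAt_fun_mul (m 0) (m1 0), e, e1,
      Finset.prod_insert ht]
    ring

end PSTEPx

open PSTEPx in
theorem PSTEP_thm : Stmt_PSTEP := by
  intro hF hSg hN hP n K L _ _ _ _ _ _ ψ S v hn hψ hv h φ₃ Θ₃ h₃
  obtain ⟨φ, Θ, hφ⟩ := ALLT.exph K L S
  obtain ⟨φ₂, Θ₂, q, hq, hφ₂, hReg⟩ := SREG_thm K L S v hv φ Θ hφ
  refine hP hF hSg hN n K L ψ (insert v S) φ₂ φ₃ Θ₂ Θ₃ hn hψ hφ₂ h₃ ?_
  obtain ⟨F, α, hFm, hα, hval⟩ := h φ Θ hφ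
  have hpow : ∀ g, ((ψ g : ℂˣ) : ℂ) ^ n = 1 := by
    intro g
    have h1 : ψ g ^ n = 1 := by
      rw [← MonoidHom.pow_apply, hψ, MonoidHom.one_apply]
    rw [← Units.val_pow_eq_pow_val, h1, Units.val_one]
  have hcyc : ∀ g, ((ψ g : ℂˣ) : ℂ) ∈ Cyc n := fun g =>
    IntermediateField.subset_adjoin ℚ _ (hpow g)
  have hex : ∀ t ∈ Ex n, ∃ σ : ℂ ≃+* ℂ, ∀ z : ℂ, z ^ n = 1 → σ z = z ^ t :=
    fun t ht => hSg n t hn (mem_Ex ht)
  haveI : Nonempty (ℂ ≃+* ℂ) := ⟨RingEquiv.refl ℂ⟩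
  choose! σ hσ using hex
  have hnm := hN n σ hn hσ
  have htw : ∀ t ∈ Ex n, twist (σ t) ψ = ψ ^ t := by
    intro t ht
    ext g
    change σ t ((ψ g : ℂˣ) : ℂ) = (((ψ ^ t) g : ℂˣ) : ℂ)
    rw [hσ t ht _ (hpow g), MonoidHom.pow_apply, Units.val_pow_eq_pow_val]
  obtain ⟨z, hz, hzT, hzσ, hL⟩ := StarkG.slf (n := n) v ψ hcyc
  have hzc : z ∈ Cyc n := hF n z hzσ
  have hNv : 1 < Ideal.absNorm v.asIdeal := NumberField.HeightOneSpectrum.one_lt_absNorm v
  -- the Euler factor of `ψ ^ t`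
  have hLt : ∀ t ∈ Ex n, ∀ s : ℂ, 1 < s.re →
      Complex.exp (logL (fun g : L ≃ₐ[K] L => ((ψ g : ℂˣ) : ℂ) ^ t)
          ((insert v S : Finset (HeightOneSpectrum (𝓞 K))) :
            Set (HeightOneSpectrum (𝓞 K))) s) =
        Complex.exp (logL (fun g : L ≃ₐ[K] L => ((ψ g : ℂˣ) : ℂ) ^ t)
          (S : Set (HeightOneSpectrum (𝓞 K))) s) *
          (1 - σ t z * (Ideal.absNorm v.asIdeal : ℂ) ^ (-s)) := by
    intro t ht s hs
    obtain ⟨y, -, -, hy⟩ := SLF_thm K L v ψ (σ t)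
    have ha : ((Ideal.absNorm v.asIdeal : ℕ) : ℂ) ^ (-(2 : ℂ)) ≠ 0 := by
      rw [Complex.cpow_ne_zero_iff]
      left
      exact_mod_cast (by omega : Ideal.absNorm v.asIdeal ≠ 0)
    have h2 : 1 < (2 : ℂ).re := by norm_num
    have e0 := hL ∅ (Finset.notMem_empty v) 2 h2
    have e1 := (hy ∅ (Finset.notMem_empty v) 2 h2).1
    have e2 := mul_left_cancel₀ (Complex.exp_ne_zero _) (e1.symm.trans e0)
    have e3 : y = z := mul_right_cancel₀ ha (sub_right_injective e2)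
    have e4 := (hy S hv s hs).2
    have e5 : (fun g : L ≃ₐ[K] L => σ t ((ψ g : ℂˣ) : ℂ)) = fun g => ((ψ g : ℂˣ) : ℂ) ^ t :=
      funext fun g => hσ t ht _ (hpow g)
    rw [e5, e3] at e4
    exact e4
  obtain ⟨m1, t1⟩ := mulE (Ideal.absNorm v.asIdeal) hNv (fun t => σ t z) (Ex n) F hFm.1
  -- the number
  have hlog : ((Real.log (Ideal.absNorm v.asIdeal) : ℝ) : ℂ) ≠ 0 := by
    have : 0 < Real.log (Ideal.absNorm v.asIdeal) := Real.log_pos (by exact_mod_cast hNv)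
    exact_mod_cast this.ne'
  have hσ1 : ∀ t, σ t z = 1 ↔ z = 1 := by
    intro t
    constructor
    · intro h1
      exact (σ t).injective (by rw [h1, map_one])
    · intro h1
      rw [h1, map_one]
  have hT : ∀ t ∈ Ex n, (TrivD v (ψ ^ t) ↔ z = 1) := by
    intro t ht
    rw [← htw t ht, SIND.trivD_twist, hzT]
  have hR : cReg n (aboveSet K L ((insert v S : Finset (HeightOneSpectrum (𝓞 K))) :
      Set (HeightOneSpectrum (𝓞 K)))) ψ Θ₂ =
      cReg n (aboveSet K L (S : Set (HeightOneSpectrum (𝓞 K)))) ψ Θ *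
        ∏ t ∈ Ex n, (if z = 1 then
          (q : ℂ) * ((Real.log (Ideal.absNorm v.asIdeal) : ℝ) : ℂ) else 1) := by
    unfold cReg
    rw [← Finset.prod_mul_distrib]
    refine Finset.prod_congr rfl fun t ht => ?_
    rw [hReg (ψ ^ t)]
    by_cases hz1 : z = 1
    · rw [if_pos ((hT t ht).2 hz1), if_pos hz1]
    · rw [if_neg fun h' => hz1 ((hT t ht).1 h'), if_neg hz1]
  have hart : IsArtinL (cSum n ψ) ((insert v S : Finset (HeightOneSpectrum (𝓞 K))) :
      Set (HeightOneSpectrum (𝓞 K)))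
      (fun s : ℂ => F s * ∏ t ∈ Ex n, (1 - σ t z * (Ideal.absNorm v.asIdeal : ℂ) ^ (-s))) := by
    refine ⟨m1, fun s hs => ?_⟩
    beta_reduce
    rw [hFm.2 s hs]
    unfold cSum
    rw [logL_finset _ s hs, logL_finset _ s hs, Complex.exp_sum, Complex.exp_sum,
      ← Finset.prod_mul_distrib]
    exact Finset.prod_congr rfl fun t ht => (hLt t ht s hs).symm
  -- the two cases
  by_cases hz1 : z = 1
  · let qc : Cyc n := algebraMap ℚ (Cyc n) q
    have hqc : ((qc : Cyc n) : ℂ) = (q : ℂ) := by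
      change algebraMap ℚ ℂ q = (q : ℂ)
      exact eq_ratCast _ q
    have hq0 : qc ≠ 0 := (map_ne_zero _).2 hq.ne'
    have hnq : nm n qc = ∏ t ∈ Ex n, (q : ℂ) := by
      rw [hnm qc]
      refine Finset.prod_congr rfl fun t _ => ?_
      rw [hqc, map_ratCast]
    refine ⟨_, α * qc, hart, mul_ne_zero hα hq0, ?_⟩
    have hmul : nm n (α * qc) = nm n α * nm n qc := by
      unfold nm
      rw [map_mul]
      push_cast
      rfl
    have e6 : (∏ t ∈ Ex n, (if z = 1 then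
          (q : ℂ) * ((Real.log (Ideal.absNorm v.asIdeal) : ℝ) : ℂ) else 1)) =
        (∏ t ∈ Ex n, (q : ℂ)) *
          ∏ t ∈ Ex n, (if σ t z = 1 then ((Real.log (Ideal.absNorm v.asIdeal) : ℝ) : ℂ)
            else 1 - σ t z) := by
      rw [← Finset.prod_mul_distrib]
      refine Finset.prod_congr rfl fun t _ => ?_
      rw [if_pos hz1, if_pos ((hσ1 t).2 hz1)]
    rw [hR, t1, hval, hmul, hnq, e6]
    ring
  · let u : Cyc n := ⟨1 - z, sub_mem (one_mem _) hzc⟩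
    have hu : ((u : Cyc n) : ℂ) = 1 - z := rfl
    have hu0 : u ≠ 0 := by
      intro h0
      have h1 : (1 : ℂ) - z = 0 := by rw [← hu, h0]; rfl
      exact hz1 (sub_eq_zero.1 h1).symm
    have hnu : nm n u = ∏ t ∈ Ex n, (1 - σ t z) := by
      rw [hnm u]
      refine Finset.prod_congr rfl fun t _ => ?_
      rw [hu, map_sub, map_one]
    refine ⟨_, α * u⁻¹, hart, mul_ne_zero hα (inv_ne_zero hu0), ?_⟩
    have hmul : nm n (α * u⁻¹) * nm n u = nm n α := by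
      unfold nm
      have : α * u⁻¹ * u = α := by rw [mul_assoc, inv_mul_cancel₀ hu0, mul_one]
      rw [← Rat.cast_mul, ← map_mul, this]
    have e6 : (∏ t ∈ Ex n, (if z = 1 then
          (q : ℂ) * ((Real.log (Ideal.absNorm v.asIdeal) : ℝ) : ℂ) else 1)) = 1 :=
      Finset.prod_eq_one fun t _ => if_neg hz1
    have e7 : (∏ t ∈ Ex n, (if σ t z = 1 then ((Real.log (Ideal.absNorm v.asIdeal) : ℝ) : ℂ)
            else 1 - σ t z)) = ∏ t ∈ Ex n, (1 - σ t z) :=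
      Finset.prod_congr rfl fun t _ => if_neg fun h' => hz1 ((hσ1 t).1 h')
    rw [hR, t1, hval, e6, e7, ← hnu, ← hmul]
    ring

end StarkC.ABS
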