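import Pool.Agent.ABS.StE

/-!
# ABS, module RAM (helper48): Ramanujan sums
-/

set_option autoImplicit false

open scoped Classical

namespace StarkC.ABS

namespace RAMx

theorem mem_Ex {n t : ℕ} : t ∈ Ex n ↔ t < n ∧ n.Coprime t := by
  rw [Ex, Finset.mem_filter, Finset.mem_range]

theorem coprime_mod_iff (n t : ℕ) : n.Coprime (t % n) ↔ n.Coprime t := by
  have h := (Nat.mod_modEq t n).gcd_eq
  rw [Nat.Coprime, Nat.Coprime, Nat.gcd_comm n, Nat.gcd_comm n t, h]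

theorem mod_mem_Ex {n t : ℕ} (hn : 0 < n) (h : n.Coprime t) : t % n ∈ Ex n :=
  mem_Ex.mpr ⟨Nat.mod_lt _ hn, (coprime_mod_iff n t).mpr h⟩

/-- The Chinese remainder theorem for the sums. -/
theorem sum_crt (q m : ℕ) (hq : 0 < q) (hm : 0 < m) (hqm : q.Coprime m) (F G : ℕ → ℂ) :
    ∑ t ∈ Ex (q * m), F (t % q) * G (t % m) = (∑ s ∈ Ex q, F s) * ∑ r ∈ Ex m, G r := by
  rw [Finset.sum_mul_sum, ← Finset.sum_product']
  refine Finset.sum_bij (fun t _ => (t % q, t % m)) ?_ ?_ ?_ ?_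
  · intro t ht
    obtain ⟨-, h2⟩ := mem_Ex.mp ht
    obtain ⟨h3, h4⟩ := Nat.coprime_mul_iff_left.mp h2
    exact Finset.mem_product.mpr ⟨mod_mem_Ex hq h3, mod_mem_Ex hm h4⟩
  · intro t ht t' ht' h
    obtain ⟨h1, h2⟩ := Prod.mk.inj h
    have h3 := (Nat.modEq_and_modEq_iff_modEq_mul hqm).mp ⟨h1, h2⟩
    exact Nat.ModEq.eq_of_lt_of_lt h3 (mem_Ex.mp ht).1 (mem_Ex.mp ht').1
  · rintro ⟨s, r⟩ h
    obtain ⟨hs, hr⟩ := Finset.mem_product.mp h
    obtain ⟨hs1, hs2⟩ := mem_Ex.mp hs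
    obtain ⟨hr1, hr2⟩ := mem_Ex.mp hr
    obtain ⟨k, hk1, hk2⟩ := Nat.chineseRemainder hqm s r
    have e1 : k % (q * m) % q = s := by
      rw [Nat.mod_mul_right_mod]
      exact (show k % q = s % q from hk1).trans (Nat.mod_eq_of_lt hs1)
    have e2 : k % (q * m) % m = r := by
      rw [Nat.mod_mul_left_mod]
      exact (show k % m = r % m from hk2).trans (Nat.mod_eq_of_lt hr1)
    refine ⟨k % (q * m), mem_Ex.mpr ⟨Nat.mod_lt _ (Nat.mul_pos hq hm), ?_⟩, ?_⟩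
    · rw [Nat.coprime_mul_iff_left, ← coprime_mod_iff q, ← coprime_mod_iff m, e1, e2]
      exact ⟨hs2, hr2⟩
    · exact Prod.ext e1 e2
  · intro t _
    rfl

theorem sum_moebius (n : ℕ) :
    ∑ d ∈ n.divisors, (ArithmeticFunction.moebius d : ℂ) = if n = 1 then 1 else 0 := by
  have h := congrArg (fun f : ArithmeticFunction ℤ => f n) ArithmeticFunction.moebius_mul_coe_zeta
  simp only [ArithmeticFunction.coe_mul_zeta_apply, ArithmeticFunction.one_apply] at h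
  have h2 := congrArg (fun z : ℤ => (z : ℂ)) h
  simp only [Int.cast_sum] at h2
  rw [h2]
  split_ifs <;> simp

/-- Möbius inversion for the sums. -/
theorem sum_Ex_pow (m : ℕ) (hm : 0 < m) (w : ℂ) :
    ∑ r ∈ Ex m, w ^ r = ∑ d ∈ m.divisors, (ArithmeticFunction.moebius d : ℂ) *
      ∑ j ∈ Finset.range (m / d), (w ^ d) ^ j := by
  have h1 : ∑ r ∈ Ex m, w ^ r = ∑ r ∈ Finset.range m, ∑ d ∈ m.divisors,
      if d ∣ r then (ArithmeticFunction.moebius d : ℂ) * w ^ r else 0 := by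
    rw [Ex, Finset.sum_filter]
    refine Finset.sum_congr rfl fun r _ => ?_
    rw [← Finset.sum_filter, ← Finset.sum_mul]
    have h2 : m.divisors.filter (fun d => d ∣ r) = (m.gcd r).divisors := by
      ext d
      rw [Finset.mem_filter, Nat.mem_divisors, Nat.mem_divisors, Nat.dvd_gcd_iff]
      constructor
      · rintro ⟨⟨h3, _⟩, h4⟩
        exact ⟨⟨h3, h4⟩, (Nat.gcd_pos_of_pos_left _ hm).ne'⟩
      · rintro ⟨⟨h3, h4⟩, _⟩
        exact ⟨⟨h3, hm.ne'⟩, h4⟩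
    rw [h2, sum_moebius]
    by_cases h3 : m.Coprime r
    · rw [if_pos h3, if_pos h3, one_mul]
    · rw [if_neg h3, if_neg h3, zero_mul]
  rw [h1, Finset.sum_comm]
  refine Finset.sum_congr rfl fun d hd => ?_
  obtain ⟨⟨e, rfl⟩, -⟩ := Nat.mem_divisors.mp hd
  have hd0 : 0 < d := Nat.pos_of_mul_pos_right hm
  rw [← Finset.sum_filter, Nat.mul_div_cancel_left e hd0, Finset.mul_sum]
  symm
  refine Finset.sum_bij (fun j _ => d * j) ?_ ?_ ?_ ?_
  · intro j hj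
    rw [Finset.mem_filter, Finset.mem_range]
    exact ⟨Nat.mul_lt_mul_of_pos_left (Finset.mem_range.mp hj) hd0, Dvd.intro _ rfl⟩
  · intro j _ j' _ h
    exact Nat.eq_of_mul_eq_mul_left hd0 h
  · intro r hr
    obtain ⟨h2, j, rfl⟩ := Finset.mem_filter.mp hr
    exact ⟨j, Finset.mem_range.mpr (Nat.lt_of_mul_lt_mul_left (Finset.mem_range.mp h2)), rfl⟩
  · intro j _
    rw [pow_mul]

theorem sum_Ex_root (m : ℕ) (hm : 0 < m) (w : ℂ) (hw : w ^ m = 1) :
    ∑ r ∈ Ex m, w ^ r = ∑ d ∈ m.divisors, if w ^ d = 1 then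
      (ArithmeticFunction.moebius d : ℂ) * ((m / d : ℕ) : ℂ) else 0 := by
  rw [sum_Ex_pow m hm w]
  refine Finset.sum_congr rfl fun d hd => ?_
  obtain ⟨hdm, -⟩ := Nat.mem_divisors.mp hd
  split_ifs with h
  · rw [h]
    simp
  · have h1 := mul_neg_geom_sum (w ^ d) (m / d)
    rw [← pow_mul, Nat.mul_div_cancel' hdm, hw, sub_self] at h1
    rcases mul_eq_zero.mp h1 with h2 | h2
    · exact absurd (sub_eq_zero.mp h2).symm h
    · rw [h2, mul_zero]

end RAMx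

open RAMx in
theorem RAM_thm : Stmt_RAM := by
  intro q m a z hq hm hqm haq hma hz
  obtain ⟨b, hb⟩ : ∃ b, b = 1 + a * (q * m - 1) := ⟨_, rfl⟩
  have hqm0 : 0 < q * m := Nat.mul_pos hq hm
  have hab : a + b = 1 + q * m * a := by
    obtain ⟨c, hc⟩ : ∃ c, q * m = c + 1 := ⟨q * m - 1, by omega⟩
    rw [hb, hc, Nat.add_sub_cancel]
    ring
  have hqb : q ∣ b := by
    have h1 : (a + b) % q = 1 % q := by
      rw [hab, mul_assoc, Nat.add_mul_mod_self_left]
    have h2 : a + b ≡ a + 0 [MOD q] := by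
      rw [add_zero]
      exact h1.trans haq.symm
    exact (Nat.modEq_zero_iff_dvd).mp (Nat.ModEq.add_left_cancel' a h2)
  have hzab : z = z ^ a * z ^ b := by
    rw [← pow_add, hab, pow_add, pow_one, pow_mul, hz, one_pow, mul_one]
  have hu : (z ^ a) ^ q = 1 := by
    obtain ⟨c, rfl⟩ := hma
    rw [← pow_mul, show m * c * q = q * m * c by ring, pow_mul, hz, one_pow]
  have hw : (z ^ b) ^ m = 1 := by
    obtain ⟨c, hc⟩ := hqb
    rw [← pow_mul, hc, show q * c * m = q * m * c by ring, pow_mul, hz, one_pow]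
  have h1 : ∀ t, z ^ t = (z ^ a) ^ (t % q) * (z ^ b) ^ (t % m) := by
    intro t
    rw [← pow_mod_orderOf (z ^ a) (t % q), Nat.mod_mod_of_dvd _ (orderOf_dvd_of_pow_eq_one hu),
      pow_mod_orderOf, ← pow_mod_orderOf (z ^ b) (t % m),
      Nat.mod_mod_of_dvd _ (orderOf_dvd_of_pow_eq_one hw), pow_mod_orderOf, ← mul_pow, ← hzab]
  rw [Finset.sum_congr rfl fun t _ => h1 t,
    sum_crt q m hq hm hqm (fun s => (z ^ a) ^ s) (fun r => (z ^ b) ^ r), sum_Ex_root m hm _ hw]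
  congr 1
  refine Finset.sum_congr rfl fun d _ => ?_
  have h2 : (z ^ b) ^ d = 1 ↔ z ^ (q * d) = 1 := by
    constructor
    · intro h
      rw [hzab, mul_pow, pow_mul, hu, one_pow, one_mul, mul_comm q d, pow_mul, h, one_pow]
    · intro h
      obtain ⟨c, hc⟩ := hqb
      rw [← pow_mul, hc, show q * c * d = q * d * c by ring, pow_mul, h, one_pow]
  by_cases h3 : z ^ (q * d) = 1
  · rw [if_pos h3, if_pos (h2.mpr h3)]
  · rw [if_neg h3, if_neg fun h => h3 (h2.mp h)]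

end StarkC.ABS
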