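import Pool.Agent.ABS.StB

/-!
# REGB: the product of the regulators of the conjugates (helper10)
-/

open NumberField IsDedekindDomain
open scoped TensorProduct Classical

namespace StarkC.ABS

namespace REGBx

/-- indexing by `Fin` -/
theorem sum_ex (s : Finset ℕ) (f : ℕ → ℂ) :
    ∑ i : Fin s.card, f (s.equivFin.symm i : ℕ) = ∑ t ∈ s, f t := by
  rw [← Finset.sum_coe_sort s f]
  exact Equiv.sum_comp s.equivFin.symm (fun x : s => f (x : ℕ))

/-- indexing by `Fin` -/
theorem prod_ex (s : Finset ℕ) (f : ℕ → ℂ) :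
    ∏ i : Fin s.card, f (s.equivFin.symm i : ℕ) = ∏ t ∈ s, f t := by
  rw [← Finset.prod_coe_sort s f]
  exact Equiv.prod_comp s.equivFin.symm (fun x : s => f (x : ℕ))

theorem core (hCHI : Stmt_CHI) (K L : Type) [Field K] [NumberField K] [Field L] [NumberField L]
    [Algebra K L] [IsGalois K L] (ℓ k : ℕ) (ψ : (L ≃ₐ[K] L) →* ℂˣ) (B : Subgroup (L ≃ₐ[K] L))
    (T : Set (HeightOneSpectrum (𝓞 L))) (hTf : T.Finite) (hT : StableT K T)
    (Θ : XC L T →ₗ[ℂ] XC L T)
    (hc : ∀ g : L ≃ₐ[K] L, Θ ∘ₗ repX K T hT g = repX K T hT g ∘ₗ Θ)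
    (hb : Function.Bijective Θ) (hℓ : ℓ.Prime) (hk : 0 < k)
    (hcard : Nat.card (L ≃ₐ[K] L) = ℓ ^ k) (hinj : Function.Injective ψ) (hB : Nat.card B = ℓ) :
    cReg (ℓ ^ k) T ψ Θ *
        Reg T (linRep (1 : (L ≃ₐ[IntermediateField.fixedField B] L) →* ℂˣ)) Θ =
      LinearMap.det Θ := by
  have hfin : Module.Finite ℂ (XC L T) := RGT.finite_XC T hTf
  have hTF : StableT (IntermediateField.fixedField B) T := IND.stable_sub _ hT
  have hcF : ∀ g : L ≃ₐ[IntermediateField.fixedField B] L,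
      Θ ∘ₗ repX (IntermediateField.fixedField B) T hTF g =
        repX (IntermediateField.fixedField B) T hTF g ∘ₗ Θ := by
    intro g
    rw [IND.repX_sub]
    exact hc _
  set E := Ex (ℓ ^ k) with hE
  set r : Fin (E.card + 1) → ℂ := Fin.cons
    (Reg T (linRep (1 : (L ≃ₐ[IntermediateField.fixedField B] L) →* ℂˣ)) Θ)
    (fun i => Reg T (linRep (ψ ^ (E.equivFin.symm i : ℕ))) Θ) with hr
  set t : Fin (E.card + 1) → ℕ → ℂ := Fin.cons
    (INDT.pair (K := IntermediateField.fixedField B) hTF Θ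
      (linRep (1 : (L ≃ₐ[IntermediateField.fixedField B] L) →* ℂˣ)).character)
    (fun i => INDT.pair hT Θ (linRep (ψ ^ (E.equivFin.symm i : ℕ))).character) with ht
  have hex : ∀ j : Fin (E.card + 1), ∃ (W : Type) (_ : AddCommGroup W) (_ : Module ℂ W)
      (_ : Module.Finite ℂ W) (B : W →ₗ[ℂ] W), LinearMap.det B = r j ∧ LinearMap.det B ≠ 0 ∧
        ∀ k : ℕ, LinearMap.trace ℂ W (B ^ k) = t j k := by
    intro j
    refine Fin.cases ?_ (fun i => ?_) j
    · exact ALLT.rgt (IntermediateField.fixedField B) L T hTF Θ ℂ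
        (linRep (1 : (L ≃ₐ[IntermediateField.fixedField B] L) →* ℂˣ)) hTf hcF hb
    · exact ALLT.rgt K L T hT Θ ℂ (linRep (ψ ^ (E.equivFin.symm i : ℕ))) hTf hc hb
  choose W hW1 hW2 hW3 A hdet hne htr using hex
  have key := @TRD_thm (E.card + 1) (XC L T) _ _ hfin Θ W hW1 hW2 hW3 A (fun _ => 1) hne ?_
  · rw [key, Fin.prod_univ_succ]
    simp only [zpow_one, hdet, hr, Fin.cons_zero, Fin.cons_succ]
    rw [prod_ex E (fun t => Reg T (linRep (ψ ^ t)) Θ), mul_comm]
    rfl
  · intro m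
    rw [Fin.sum_univ_succ]
    simp only [Int.cast_one, one_mul, htr, ht, Fin.cons_zero, Fin.cons_succ]
    -- the traces
    set τ : (L ≃ₐ[K] L) → ℂ := fun g => LinearMap.trace ℂ (XC L T) (repX K T hT g ∘ₗ (Θ ^ m))
      with hτ
    have hck : ∀ g : L ≃ₐ[K] L, (Θ ^ m) ∘ₗ repX K T hT g = repX K T hT g ∘ₗ (Θ ^ m) := by
      intro g
      have h1 : Commute Θ (repX K T hT g) := hc g
      exact (h1.pow_left m).eq
    have hclass : ∀ x g, τ (x * g * x⁻¹) = τ g := by
      intro x g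
      simp only [hτ]
      have h1 : repX K T hT (x * g * x⁻¹) ∘ₗ (Θ ^ m) =
          (repX K T hT x) * ((repX K T hT g ∘ₗ (Θ ^ m)) * repX K T hT x⁻¹) := by
        rw [map_mul, map_mul]
        show (repX K T hT x * repX K T hT g * repX K T hT x⁻¹) * (Θ ^ m) = _
        have h2 : (Θ ^ m) * repX K T hT x⁻¹ = repX K T hT x⁻¹ * (Θ ^ m) := hck x⁻¹
        rw [mul_assoc, ← h2]
        rfl
      rw [h1, LinearMap.trace_mul_comm, mul_assoc, ← map_mul]
      simp
    have h1 : τ 1 = LinearMap.trace ℂ (XC L T) (Θ ^ m) := by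
      simp only [hτ, map_one]
      rfl
    -- the sum over the conjugates
    have h2 : ∑ i : Fin E.card, INDT.pair hT Θ
        (linRep (ψ ^ (E.equivFin.symm i : ℕ))).character m =
        (∑ g : L ≃ₐ[K] L, cSum (ℓ ^ k) ψ g * τ g) / (Nat.card (L ≃ₐ[K] L) : ℂ) := by
      rw [sum_ex E (fun t => INDT.pair hT Θ (linRep (ψ ^ t)).character m)]
      unfold INDT.pair cSum
      rw [← Finset.sum_div]
      congr 1
      simp only [Finset.sum_mul]
      rw [Finset.sum_comm]
      refine Finset.sum_congr rfl fun g _ => Finset.sum_congr rfl fun t _ => ?_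
      rw [IND.linRep_character]
      simp only [MonoidHom.pow_apply, Units.val_pow_eq_pow_val, hτ]
    have h3 : (∑ g : L ≃ₐ[K] L, cSum (ℓ ^ k) ψ g * τ g) / (Nat.card (L ≃ₐ[K] L) : ℂ) =
        τ 1 - (∑ h : B, τ h) / (Nat.card B : ℂ) := by
      have h4 : ∑ g : L ≃ₐ[K] L, cSum (ℓ ^ k) ψ g * τ g =
          ∑ g, indFun (⊥ : Subgroup (L ≃ₐ[K] L)) (fun _ => 1) g * τ g -
            ∑ g, indFun B (fun _ => 1) g * τ g := by
        rw [← Finset.sum_sub_distrib]
        refine Finset.sum_congr rfl fun g _ => ?_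
        rw [hCHI (L ≃ₐ[K] L) ℓ k ψ B hℓ hk hcard hinj hB g, sub_mul]
      rw [h4, sub_div, IND.sum_indFun_mul _ _ τ hclass, IND.sum_indFun_mul _ _ τ hclass]
      simp
      rfl
    have h5 : INDT.pair (K := IntermediateField.fixedField B) hTF Θ
        (linRep (1 : (L ≃ₐ[IntermediateField.fixedField B] L) →* ℂˣ)).character m =
        (∑ h : B, τ h) / (Nat.card B : ℂ) := by
      unfold INDT.pair
      rw [← Nat.card_congr (IntermediateField.subgroupEquivAlgEquiv B).toEquiv]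
      congr 1
      symm
      refine Fintype.sum_equiv (IntermediateField.subgroupEquivAlgEquiv B).toEquiv _ _
        fun h => ?_
      have h7 : repX (IntermediateField.fixedField B) T hTF
          ((IntermediateField.subgroupEquivAlgEquiv B) h) = repX K T hT (h : L ≃ₐ[K] L) := by
        rw [IND.repX_sub, MulEquiv.symm_apply_apply]
      show τ h = (linRep (1 : (L ≃ₐ[IntermediateField.fixedField B] L) →* ℂˣ)).character
        ((IntermediateField.subgroupEquivAlgEquiv B) h) *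
        LinearMap.trace ℂ (XC L T) (repX (IntermediateField.fixedField B) T hTF
          ((IntermediateField.subgroupEquivAlgEquiv B) h) ∘ₗ (Θ ^ m))
      rw [h7, IND.linRep_character]
      simp only [MonoidHom.one_apply, Units.val_one, one_mul, hτ]
    rw [h5, h2, h3, ← h1]
    ring

end REGBx

open REGBx in
theorem REGB_thm : Stmt_REGB := by
  intro hCHI _ K L _ _ _ _ _ _ ℓ k ψ B S φ Θ hℓ hk hcard hinj hB hφ
  have hTf : (aboveSet K L (S : Set (HeightOneSpectrum (𝓞 K)))).Finite :=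
    IND.aboveSet_finite _ S.finite_toSet
  have hT := STB_thm K L (S : Set (HeightOneSpectrum (𝓞 K)))
  have hc := ALLT.thc K L _ hT φ Θ hTf hφ
  have hb := ALLT.thb K L _ φ Θ hTf hφ
  exact core hCHI K L ℓ k ψ B _ hTf hT Θ hc hb hℓ hk hcard hinj hB

end StarkC.ABS
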