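import Pool.Agent.ABS.StB

/-!
# Module REGI: the regulator of the trivial character (MP_46b841_nt)
-/

open NumberField IsDedekindDomain
open scoped TensorProduct Classical

namespace StarkC.ABS

namespace REGIx

variable {F L : Type} [Field F] [NumberField F] [Field L] [NumberField L] [Algebra F L]

theorem val_inj {T : Set (HeightOneSpectrum (𝓞 L))} {x y : XC L T} (h : x.val = y.val) : x = y :=
  Subtype.ext h

theorem dual_one (g : L ≃ₐ[F] L) (α : Module.Dual ℂ ℂ) :
    (linRep (1 : (L ≃ₐ[F] L) →* ℂˣ)).dual g α = α := by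
  ext
  simp [Representation.dual, linRep]

theorem dual_eq (α : Module.Dual ℂ ℂ) : α = (α 1) • (LinearMap.id : ℂ →ₗ[ℂ] ℂ) := by
  ext
  simp

theorem mem_iff (T : Set (HeightOneSpectrum (𝓞 L))) (hT : StableT F T)
    (f : Module.Dual ℂ ℂ →ₗ[ℂ] XC L T) :
    f ∈ homG T (linRep (1 : (L ≃ₐ[F] L) →* ℂˣ)) ↔
      ∀ (g : L ≃ₐ[F] L) (α : Module.Dual ℂ ℂ), repX F T hT g (f α) = f α := by
  constructor
  · intro h g α
    have h1 := h g α
    rw [dual_one] at h1
    exact val_inj h1.symm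
  · intro h g α
    rw [dual_one, ← repX_val T hT g (f α), h g α]

/-- the linear map with the value `x` at the identity -/
noncomputable def cst (T : Set (HeightOneSpectrum (𝓞 L))) (x : XC L T) :
    Module.Dual ℂ ℂ →ₗ[ℂ] XC L T where
  toFun α := α 1 • x
  map_add' a b := by rw [LinearMap.add_apply, add_smul]
  map_smul' c a := by rw [LinearMap.smul_apply, smul_assoc, RingHom.id_apply]

/-- `homG T (linRep 1)` is isomorphic to the space of the invariants -/
noncomputable def eqv (T : Set (HeightOneSpectrum (𝓞 L))) (hT : StableT F T) :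
    homG T (linRep (1 : (L ≃ₐ[F] L) →* ℂˣ)) ≃ₗ[ℂ] (repX F T hT).invariants where
  toFun f := ⟨f.1 (LinearMap.id : ℂ →ₗ[ℂ] ℂ), fun g => (mem_iff T hT f.1).1 f.2 g _⟩
  map_add' a b := Subtype.ext rfl
  map_smul' c a := Subtype.ext rfl
  invFun x := ⟨cst T x.1, (mem_iff T hT _).2 fun g α => by
    show repX F T hT g (α 1 • x.1) = α 1 • x.1
    rw [map_smul, x.2 g]⟩
  left_inv f := by
    apply Subtype.ext
    apply LinearMap.ext
    intro α
    show α 1 • f.1 (LinearMap.id : ℂ →ₗ[ℂ] ℂ) = f.1 α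
    rw [← map_smul, ← dual_eq]
  right_inv x := by
    apply Subtype.ext
    show (LinearMap.id : ℂ →ₗ[ℂ] ℂ) 1 • x.1 = x.1
    rw [LinearMap.id_apply, one_smul]

end REGIx

open REGIx in
/-- REGI. The regulator of the trivial character. -/
theorem REGI_thm : Stmt_REGI := by
  intro F L _ _ _ _ _ _ T hT Θ _ hΘ h
  have hh : ∀ f ∈ homG T (linRep (1 : (L ≃ₐ[F] L) →* ℂˣ)),
      LinearMap.compRight ℂ Θ f ∈ homG T (linRep (1 : (L ≃ₐ[F] L) →* ℂˣ)) := by
    intro f hf
    rw [mem_iff T hT] at hf ⊢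
    intro g α
    show repX F T hT g (Θ (f α)) = Θ (f α)
    have h1 := LinearMap.congr_fun (hΘ g) (f α)
    rw [LinearMap.comp_apply, LinearMap.comp_apply, hf g α] at h1
    exact h1.symm
  unfold Reg
  rw [dif_pos hh, ← LinearMap.det_conj ((LinearMap.compRight ℂ Θ).restrict hh) (eqv T hT)]
  congr 1
  apply LinearMap.ext
  intro x
  apply Subtype.ext
  show Θ ((LinearMap.id : ℂ →ₗ[ℂ] ℂ) 1 • x.1) = Θ x.1
  rw [LinearMap.id_apply, one_smul]

end StarkC.ABS
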