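import Pool.Agent.ABS.StS

/-!
# Chinese remainder theorem for the homomorphisms of `(ZMod n)ˣ`
-/

set_option autoImplicit false

namespace StarkC.ABS

namespace SCRx

/-- The units of `ZMod (x y)`. -/
noncomputable def eqv (x y : ℕ) (h : x.Coprime y) : (ZMod (x * y))ˣ ≃* (ZMod x)ˣ × (ZMod y)ˣ :=
  (Units.mapEquiv (ZMod.chineseRemainder h).toMulEquiv).trans MulEquiv.prodUnits

theorem eqv_apply (x y : ℕ) (h : x.Coprime y) (u : (ZMod (x * y))ˣ) :
    eqv x y h u = (ZMod.unitsMap (Nat.dvd_mul_right x y) u,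
      ZMod.unitsMap (Nat.dvd_mul_left y x) u) := by
  have h1 : (RingHom.fst (ZMod x) (ZMod y)).comp (ZMod.chineseRemainder h).toRingHom =
      ZMod.castHom (Nat.dvd_mul_right x y) (ZMod x) := Subsingleton.elim _ _
  have h2 : (RingHom.snd (ZMod x) (ZMod y)).comp (ZMod.chineseRemainder h).toRingHom =
      ZMod.castHom (Nat.dvd_mul_left y x) (ZMod y) := Subsingleton.elim _ _
  refine Prod.ext (Units.ext ?_) (Units.ext ?_)
  · exact RingHom.congr_fun h1 (u : ZMod (x * y))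
  · exact RingHom.congr_fun h2 (u : ZMod (x * y))

end SCRx

theorem SCR_thm : Stmt_SCR := by
  intro x y d _ _ h κ
  let e := SCRx.eqv x y h
  refine ⟨κ.comp (e.symm.toMonoidHom.comp (MonoidHom.inl (ZMod x)ˣ (ZMod y)ˣ)),
    κ.comp (e.symm.toMonoidHom.comp (MonoidHom.inr (ZMod x)ˣ (ZMod y)ˣ)), ?_⟩
  ext1 u
  have h1 : u = e.symm ((e u).1, 1) * e.symm (1, (e u).2) := by
    rw [← map_mul, Prod.mk_mul_mk, mul_one, one_mul]
    exact (e.symm_apply_apply u).symm
  have h2 : e u = (ZMod.unitsMap (Nat.dvd_mul_right x y) u,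
      ZMod.unitsMap (Nat.dvd_mul_left y x) u) := SCRx.eqv_apply x y h u
  conv_lhs => rw [h1, h2, map_mul]
  rfl

end StarkC.ABS
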