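import Pool.Agent.ABS.StS

/-!
# ABS, module SCY: the cyclotomic character of `Aut(ℂ)`
-/

set_option autoImplicit false

namespace StarkC.ABS

open StarkP (rootField)

namespace SCYx

/-- Every automorphism of the field of algebraic numbers extends to `ℂ`. -/
theorem extendQ (τ : algebraicClosure ℚ ℂ ≃ₐ[ℚ] algebraicClosure ℚ ℂ) :
    ∃ σ : ℂ ≃+* ℂ, ∀ x : algebraicClosure ℚ ℂ, σ (x : ℂ) = (τ x : ℂ) := by
  obtain ⟨t, ht⟩ := exists_isTranscendenceBasis (algebraicClosure ℚ ℂ) ℂ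
  let e0 := ht.1.aevalEquiv
  let e := (e0.symm.toRingEquiv.trans (MvPolynomial.mapEquiv t τ.toRingEquiv)).trans
    e0.toRingEquiv
  let _ : IsAlgClosure (Algebra.adjoin (algebraicClosure ℚ ℂ) (Set.range ((↑) : t → ℂ))) ℂ :=
    IsAlgClosed.isAlgClosure_of_transcendence_basis _ ht
  refine ⟨IsAlgClosure.equivOfEquiv ℂ ℂ e, fun x => ?_⟩
  have h1 : (x : ℂ) = algebraMap
      (Algebra.adjoin (algebraicClosure ℚ ℂ) (Set.range ((↑) : t → ℂ))) ℂ
      (algebraMap (algebraicClosure ℚ ℂ) _ x) := rfl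
  rw [h1, IsAlgClosure.equivOfEquiv_algebraMap]
  have h2 : e (algebraMap (algebraicClosure ℚ ℂ) _ x) =
      algebraMap (algebraicClosure ℚ ℂ) _ (τ x) := by
    show e0 (MvPolynomial.map (τ.toRingEquiv : algebraicClosure ℚ ℂ →+* algebraicClosure ℚ ℂ)
      (e0.symm (algebraMap (algebraicClosure ℚ ℂ) _ x))) = _
    rw [AlgEquiv.commutes, MvPolynomial.algebraMap_eq, MvPolynomial.map_C,
      ← MvPolynomial.algebraMap_eq]
    exact e0.commutes _
  rw [h2]
  rfl

/-- Automorphisms of `ℂ` which raise the roots of unity to the power `t`. -/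
theorem sig (n t : ℕ) (hn : 0 < n) (hnt : n.Coprime t) :
    ∃ σ : ℂ ≃+* ℂ, ∀ z : ℂ, z ^ n = 1 → σ z = z ^ t := by
  have hζ : IsPrimitiveRoot (Complex.exp (2 * Real.pi * Complex.I / n)) n :=
    Complex.isPrimitiveRoot_exp n hn.ne'
  set ζ : ℂ := Complex.exp (2 * Real.pi * Complex.I / n) with hζd
  have hζt : IsPrimitiveRoot (ζ ^ t) n := hζ.pow_of_coprime t hnt.symm
  have hint : IsIntegral ℚ ζ := (hζ.isIntegral hn).tower_top
  have hintt : IsIntegral ℚ (ζ ^ t) := (hζt.isIntegral hn).tower_top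
  have hmin : minpoly ℚ (ζ ^ t) = minpoly ℚ ζ := by
    rw [← Polynomial.cyclotomic_eq_minpoly_rat hζ hn,
      ← Polynomial.cyclotomic_eq_minpoly_rat hζt hn]
  have hmem : ζ ∈ algebraicClosure ℚ ℂ := mem_algebraicClosure_iff.2 hint.isAlgebraic
  have hmemt : ζ ^ t ∈ algebraicClosure ℚ ℂ := mem_algebraicClosure_iff.2 hintt.isAlgebraic
  have hconj : IsConjRoot ℚ (⟨ζ ^ t, hmemt⟩ : algebraicClosure ℚ ℂ) ⟨ζ, hmem⟩ := by
    show minpoly ℚ _ = minpoly ℚ _
    rw [← minpoly.algebraMap_eq (FaithfulSMul.algebraMap_injective (algebraicClosure ℚ ℂ) ℂ)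
        (⟨ζ, hmem⟩ : algebraicClosure ℚ ℂ),
      ← minpoly.algebraMap_eq (FaithfulSMul.algebraMap_injective (algebraicClosure ℚ ℂ) ℂ)
        (⟨ζ ^ t, hmemt⟩ : algebraicClosure ℚ ℂ)]
    exact hmin
  have hnormal : Normal ℚ (algebraicClosure ℚ ℂ) :=
    @IsAlgClosure.normal ℚ (algebraicClosure ℚ ℂ) _ _ _ (algebraicClosure.isAlgClosure ℚ ℂ)
  obtain ⟨τ, hτ⟩ := isConjRoot_iff_exists_algEquiv.1 hconj
  obtain ⟨σ, hσ⟩ := extendQ τ
  have h3 : σ ζ = ζ ^ t := by
    have h4 := hσ ⟨ζ, hmem⟩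
    rw [hτ] at h4
    exact h4
  have hne : NeZero n := ⟨hn.ne'⟩
  refine ⟨σ, fun z hz => ?_⟩
  obtain ⟨i, _, rfl⟩ := hζ.eq_pow_of_pow_eq_one hz
  rw [map_pow, h3, ← pow_mul, ← pow_mul, mul_comm]

theorem spec (n : ℕ) [NeZero n] (g : ℂ ≃+* ℂ) (z : ℂ) (hz : z ^ n = 1) :
    g z = z ^ (cych n g : ZMod n).val := by
  have hz0 : z ≠ 0 := by
    rintro rfl
    rw [zero_pow (NeZero.ne n)] at hz
    exact zero_ne_one hz
  have ht : Units.mk0 z hz0 ∈ rootsOfUnity n ℂ := by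
    rw [mem_rootsOfUnity]
    ext
    simpa using hz
  exact modularCyclotomicCharacter.spec ℂ (Complex.card_rootsOfUnity n) g ht

theorem uniq (n : ℕ) [NeZero n] (g : ℂ ≃+* ℂ) (u : (ZMod n)ˣ)
    (h : ∀ z : ℂ, z ^ n = 1 → g z = z ^ (u : ZMod n).val) : cych n g = u := by
  refine Units.ext (modularCyclotomicCharacter.unique ℂ (Complex.card_rootsOfUnity n) g ?_).symm
  intro t ht
  refine h t ?_
  rw [mem_rootsOfUnity] at ht
  rw [← Units.val_pow_eq_pow_val, ht, Units.val_one]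

end SCYx

open SCYx in
theorem SCY_thm : Stmt_SCY := by
  intro n _
  refine ⟨fun u => ?_, fun g h hgh x hx => ?_, fun g x hx => ?_, fun m _ hmn g => ?_⟩
  · obtain ⟨σ, hσ⟩ := sig n (u : ZMod n).val (NeZero.pos n) (ZMod.val_coe_unit_coprime u).symm
    exact ⟨σ, uniq n σ u hσ⟩
  · unfold rootField at hx
    induction hx using IntermediateField.adjoin_induction with
    | mem z hz => rw [spec n g z hz, spec n h z hz, hgh]
    | algebraMap q =>
      rw [eq_ratCast, map_ratCast, map_ratCast]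
    | add x y _ _ h1 h2 => rw [map_add, map_add, h1, h2]
    | inv x _ h1 => rw [map_inv₀, map_inv₀, h1]
    | mul x y _ _ h1 h2 => rw [map_mul, map_mul, h1, h2]
  · unfold rootField at hx ⊢
    induction hx using IntermediateField.adjoin_induction with
    | mem z hz =>
      refine IntermediateField.subset_adjoin ℚ _ ?_
      show (g z) ^ n = 1
      rw [← map_pow, hz, map_one]
    | algebraMap q =>
      rw [eq_ratCast, map_ratCast, ← eq_ratCast (algebraMap ℚ ℂ)]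
      exact IntermediateField.algebraMap_mem _ _
    | add x y _ _ h1 h2 => rw [map_add]; exact add_mem h1 h2
    | inv x _ h1 => rw [map_inv₀]; exact inv_mem h1
    | mul x y _ _ h1 h2 => rw [map_mul]; exact mul_mem h1 h2
  · refine uniq m g _ fun z hz => ?_
    have hzn : z ^ n = 1 := by
      obtain ⟨c, rfl⟩ := hmn
      rw [pow_mul, hz, one_pow]
    rw [spec n g z hzn, ZMod.unitsMap_val, ← ZMod.natCast_val, ZMod.val_natCast,
      ← pow_eq_pow_mod _ hz]

end StarkC.ABS
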