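import Pool.Agent.ABS.StS

/-!
# ABS_SH9: Hilbert 90 for the kernel of `κ` (MP_46b841_nt)
-/

set_option autoImplicit false

open scoped Classical

namespace StarkC.ABS

open StarkP (rootField)

namespace SH9x

/-- Automorphisms which agree on `ℚ(ζ_n)` have the same cyclotomic character. -/
theorem cych_eq (n : ℕ) [NeZero n] (g h : ℂ ≃+* ℂ) (H : ∀ x ∈ rootField n, g x = h x) :
    cych n g = cych n h := by
  have key : (((cych n g : (ZMod n)ˣ)) : ZMod n) = (cych n h : (ZMod n)ˣ) := by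
    apply modularCyclotomicCharacter.unique
    intro t ht
    have ht1 : (t : ℂ) ∈ rootField n := by
      apply IntermediateField.subset_adjoin
      have := (mem_rootsOfUnity n t).1 ht
      show (t : ℂ) ^ n = 1
      rw [← Units.val_pow_eq_pow_val, this, Units.val_one]
    rw [← H _ ht1]
    exact modularCyclotomicCharacter.spec ℂ (Complex.card_rootsOfUnity n) g ht
  exact Units.ext key

/-- `vl κ` vanishes on the kernel. -/
theorem vl_zero_iff {n d : ℕ} [NeZero d] (κ : (ZMod n)ˣ →* Multiplicative (ZMod d))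
    (u : (ZMod n)ˣ) : vl κ u = 0 ↔ κ u = 1 := by
  unfold vl
  rw [ZMod.val_eq_zero]
  exact toAdd_eq_zero

theorem vl_lt {n d : ℕ} [NeZero d] (κ : (ZMod n)ˣ →* Multiplicative (ZMod d))
    (u : (ZMod n)ˣ) : vl κ u < d := ZMod.val_lt _

theorem vl_mul {n d : ℕ} [NeZero d] (κ : (ZMod n)ˣ →* Multiplicative (ZMod d))
    (u w : (ZMod n)ˣ) (hu : vl κ u = 0) : vl κ (u * w) = vl κ w := by
  have h := (vl_zero_iff κ u).1 hu
  unfold vl
  rw [map_mul, h, one_mul]

theorem carry {n d : ℕ} [NeZero d] (κ : (ZMod n)ˣ →* Multiplicative (ZMod d))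
    (u w : (ZMod n)ˣ) (hu : vl κ u = 0) : (vl κ u + vl κ w) / d = 0 := by
  rw [hu, zero_add]
  exact Nat.div_eq_of_lt (vl_lt κ w)

theorem carry' {n d : ℕ} [NeZero d] (κ : (ZMod n)ˣ →* Multiplicative (ZMod d))
    (u w : (ZMod n)ˣ) (hw : vl κ w = 0) : (vl κ u + vl κ w) / d = 0 := by
  rw [hw, add_zero]
  exact Nat.div_eq_of_lt (vl_lt κ u)

/-- Dedekind: a non-zero value. -/
theorem exists_ne (n : ℕ) [NeZero n] (s : (ZMod n)ˣ → (ℂ ≃+* ℂ)) (hs : ∀ u, cych n (s u) = u)
    (b : (ZMod n)ˣ → ℂ) (H : Finset (ZMod n)ˣ) (u : (ZMod n)ˣ) (hu : u ∈ H) (hb : b u ≠ 0) :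
    ∃ x ∈ rootField n, ∑ h ∈ H, b h * s h x ≠ 0 := by
  by_contra hcon
  push Not at hcon
  let f : (ZMod n)ˣ → (rootField n →* ℂ) := fun v =>
    ((s v : ℂ →+* ℂ).comp (algebraMap (rootField n) ℂ) : rootField n →* ℂ)
  have hf : Function.Injective f := by
    intro v w h
    rw [← hs v, ← hs w]
    apply cych_eq
    intro x hx
    exact DFunLike.congr_fun h ⟨x, hx⟩
  have h1 := (linearIndependent_monoidHom (rootField n) ℂ).comp f hf
  have h2 := linearIndependent_iff'.1 h1 H b (by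
    funext x
    have h3 := hcon (x : ℂ) x.2
    rw [Finset.sum_apply]
    exact h3) u hu
  exact hb h2

end SH9x

open SH9x in
theorem SH9_thm : Stmt_SH9 := by
  intro hSCY n d _ _ a κ ha ⟨b, hb, hc⟩
  obtain ⟨h1, h2, h3, -⟩ := hSCY n
  choose s hs using h1
  let H : Finset (ZMod n)ˣ := Finset.univ.filter (fun u => vl κ u = 0)
  have hH : ∀ u, u ∈ H ↔ vl κ u = 0 := fun u => by simp [H]
  have hone : vl κ 1 = 0 := (vl_zero_iff κ 1).2 (map_one κ)
  obtain ⟨x, hx, hne⟩ := exists_ne n s hs b H 1 ((hH 1).2 hone) (hb 1).2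
  set c : ℂ := ∑ h ∈ H, b h * s h x with hcd
  have hcF : c ∈ rootField n := by
    rw [hcd]
    exact sum_mem fun h _ => mul_mem (hb h).1 (h3 _ _ hx)
  -- the action of the kernel on `c`
  have hgc : ∀ g : ℂ ≃+* ℂ, vl κ (cych n g) = 0 → b (cych n g) * g c = c := by
    intro g hg
    rw [hcd, map_sum, Finset.mul_sum]
    refine Finset.sum_bij' (fun h _ => cych n g * h) (fun h _ => (cych n g)⁻¹ * h) ?_ ?_ ?_ ?_ ?_
    · intro h hh
      rw [hH] at hh ⊢
      rw [vl_mul κ _ _ hg, hh]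
    · intro h hh
      rw [hH] at hh ⊢
      have hinv : vl κ (cych n g)⁻¹ = 0 := by
        rw [vl_zero_iff] at hg ⊢
        rw [map_inv, hg, inv_one]
      rw [vl_mul κ _ _ hinv, hh]
    · intro h _
      exact inv_mul_cancel_left _ _
    · intro h _
      exact mul_inv_cancel_left _ _
    · intro h hh
      have e1 := hc g h
      rw [carry κ _ _ hg, pow_zero, mul_one] at e1
      have e2 : g (s h x) = s (cych n g * h) x := by
        have := h2 (g * s h) (s (cych n g * h)) (by rw [map_mul, hs, hs]) x hx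
        exact this
      rw [map_mul, ← mul_assoc, e1, e2]
  have hsc : ∀ (g : ℂ ≃+* ℂ), g c = s (cych n g) c := fun g => h2 _ _ (hs _).symm c hcF
  have hgsc : ∀ (g : ℂ ≃+* ℂ) (w : (ZMod n)ˣ), g (s w c) = s (cych n g * w) c := fun g w =>
    h2 (g * s w) (s (cych n g * w)) (by rw [map_mul, hs, hs]) c hcF
  have hne' : ∀ g : ℂ ≃+* ℂ, g c ≠ 0 := fun g => (map_ne_zero_iff g g.injective).2 hne
  have hB : ∀ (g : ℂ ≃+* ℂ) (w : (ZMod n)ˣ),
      (b (cych n g) * s (cych n g) c / c) * g (b w * s w c / c) =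
        (b (cych n g * w) * s (cych n g * w) c / c) *
          (a : ℂ) ^ ((vl κ (cych n g) + vl κ w) / d) := by
    intro g w
    have e1 := hc g w
    rw [map_div₀, map_mul, hgsc g w, ← hsc g]
    have e2 := hne' g
    field_simp
    linear_combination (s (cych n g * w) c) * e1
  have hB1 : ∀ u, vl κ u = 0 → b u * s u c / c = 1 := by
    intro u hu
    have := hgc (s u) (by rw [hs]; exact hu)
    rw [hs] at this
    rw [this, div_self hne]
  refine ⟨fun u => b u * s u c / c, fun u => ⟨?_, ?_⟩, hB, hB1, ?_⟩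
  · exact div_mem (mul_mem (hb u).1 (h3 _ _ hcF)) hcF
  · exact div_ne_zero (mul_ne_zero (hb u).2 (hne' _)) hne
  · intro g u hg
    have e1 := hB g u
    rw [carry κ _ _ hg, pow_zero, mul_one, hB1 _ hg, one_mul] at e1
    have e2 := hB (s u) (cych n g)
    rw [hs, carry' κ _ _ hg, pow_zero, mul_one, hB1 _ hg, map_one, mul_one, mul_comm u] at e2
    show g (b u * s u c / c) = b u * s u c / c
    rw [e1, e2]

end StarkC.ABS
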