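import Pool.Agent.ABS.StS

/-!
# ABS, module SKA (helper48): the character of a cyclic subfield of `ℚ(ζ_n)`
-/

set_option autoImplicit false

open scoped Classical

namespace StarkC.ABS

open StarkP (rootField)

namespace SKAx

/-- Every automorphism of the field of algebraic numbers extends to `ℂ`. -/
theorem extendQ (τ : algebraicClosure ℚ ℂ ≃ₐ[ℚ] algebraicClosure ℚ ℂ) :
    ∃ σ : ℂ ≃+* ℂ, ∀ x : algebraicClosure ℚ ℂ, σ (x : ℂ) = (τ x : ℂ) := by
  obtain ⟨t, ht⟩ := exists_isTranscendenceBasis (algebraicClosure ℚ ℂ) ℂ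
  let e0 := ht.1.aevalEquiv
  let e := (e0.symm.toRingEquiv.trans (MvPolynomial.mapEquiv t τ.toRingEquiv)).trans
    e0.toRingEquiv
  let _ : IsAlgClosure (Algebra.adjoin (algebraicClosure ℚ ℂ) (Set.range ((↑) : t → ℂ))) ℂ :=
    IsAlgClosed.isAlgClosure_of_transcendence_basis _ ht
  refine ⟨IsAlgClosure.equivOfEquiv ℂ ℂ e, fun x => ?_⟩
  have h1 : (x : ℂ) = algebraMap
      (Algebra.adjoin (algebraicClosure ℚ ℂ) (Set.range ((↑) : t → ℂ))) ℂ
      (algebraMap (algebraicClosure ℚ ℂ) _ x) := rfl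
  rw [h1, IsAlgClosure.equivOfEquiv_algebraMap]
  have h2 : e (algebraMap (algebraicClosure ℚ ℂ) _ x) =
      algebraMap (algebraicClosure ℚ ℂ) _ (τ x) := by
    show e0 (MvPolynomial.map (τ.toRingEquiv : algebraicClosure ℚ ℂ →+* algebraicClosure ℚ ℂ)
      (e0.symm (algebraMap (algebraicClosure ℚ ℂ) _ x))) = _
    rw [AlgEquiv.commutes, MvPolynomial.algebraMap_eq, MvPolynomial.map_C,
      ← MvPolynomial.algebraMap_eq]
    exact e0.commutes _
  rw [h2]
  rfl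

/-- Restriction of automorphisms of `ℂ` to a normal field. -/
noncomputable def rh (F : IntermediateField ℚ ℂ) [Normal ℚ F] : (ℂ ≃+* ℂ) →* (F ≃ₐ[ℚ] F) where
  toFun g := (g.toRatAlgEquiv).restrictNormal F
  map_one' := by
    have h : (1 : ℂ ≃+* ℂ).toRatAlgEquiv = (1 : ℂ ≃ₐ[ℚ] ℂ) := rfl
    rw [h]
    exact map_one (AlgEquiv.restrictNormalHom F)
  map_mul' g h := by
    have h1 : (g * h).toRatAlgEquiv = (g.toRatAlgEquiv * h.toRatAlgEquiv : ℂ ≃ₐ[ℚ] ℂ) := rfl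
    rw [h1]
    exact map_mul (AlgEquiv.restrictNormalHom F) g.toRatAlgEquiv h.toRatAlgEquiv

theorem rh_apply (F : IntermediateField ℚ ℂ) [Normal ℚ F] (g : ℂ ≃+* ℂ) (x : F) :
    ((rh F g x : F) : ℂ) = g (x : ℂ) :=
  AlgEquiv.restrictNormal_commutes g.toRatAlgEquiv F x

theorem rh_eq_iff (F : IntermediateField ℚ ℂ) [Normal ℚ F] (g : ℂ ≃+* ℂ) (σ : F ≃ₐ[ℚ] F) :
    rh F g = σ ↔ ∀ x : F, g (x : ℂ) = (σ x : ℂ) := by
  constructor
  · rintro rfl x
    exact (rh_apply F g x).symm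
  · intro h
    apply AlgEquiv.ext
    intro x
    apply Subtype.ext
    rw [rh_apply, h]

theorem rh_surjective (F : IntermediateField ℚ ℂ) [Normal ℚ F] [FiniteDimensional ℚ F] :
    Function.Surjective (rh F) := by
  intro σ
  have hle : F ≤ algebraicClosure ℚ ℂ := by
    intro x hx
    rw [mem_algebraicClosure_iff]
    have h1 : IsAlgebraic ℚ (⟨x, hx⟩ : F) := Algebra.IsAlgebraic.isAlgebraic _
    exact h1.algebraMap (A := ℂ)
  let i : F →ₐ[ℚ] algebraicClosure ℚ ℂ := IntermediateField.inclusion hle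
  let _ : Algebra F (algebraicClosure ℚ ℂ) := i.toRingHom.toAlgebra
  have _ : IsScalarTower ℚ F (algebraicClosure ℚ ℂ) :=
    IsScalarTower.of_algebraMap_eq fun x => (i.commutes x).symm
  have _ : Normal ℚ (algebraicClosure ℚ ℂ) := by
    have h1 := @IsAlgClosure.normal ℚ (algebraicClosure ℚ ℂ) _ _ _
      (algebraicClosure.isAlgClosure ℚ ℂ)
    convert h1
  obtain ⟨τ, hτ⟩ := AlgEquiv.restrictNormalHom_surjective (F := ℚ) (K₁ := F)
    (algebraicClosure ℚ ℂ) σ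
  obtain ⟨g, hg⟩ := extendQ τ
  refine ⟨g, (rh_eq_iff F g σ).mpr fun x => ?_⟩
  have h2 : (i x : ℂ) = (x : ℂ) := rfl
  rw [← h2, hg, ← hτ]
  have h3 := AlgEquiv.restrictNormal_commutes τ F x
  have h4 : ((algebraMap F (algebraicClosure ℚ ℂ) (τ.restrictNormal F x) :
      algebraicClosure ℚ ℂ) : ℂ) = ((τ.restrictNormal F x : F) : ℂ) := rfl
  exact (h4.symm.trans (congrArg Subtype.val h3)).symm

end SKAx

open SKAx in
theorem SKA_thm : Stmt_SKA := by
  intro hscy n _ F hF hGal hcyc hd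
  obtain ⟨hs1, hs2, -, -⟩ := hscy n
  have hfd : FiniteDimensional ℚ F := FiniteDimensional.of_finrank_pos (by omega)
  have hcard : Nat.card (F ≃ₐ[ℚ] F) = Module.finrank ℚ F := IsGalois.card_aut_eq_finrank ℚ F
  rw [← hcard] at hd ⊢
  obtain ⟨e, he⟩ : ∃ e : Multiplicative (ZMod (Nat.card (F ≃ₐ[ℚ] F))) ≃* (F ≃ₐ[ℚ] F),
      e = zmodCyclicMulEquiv hcyc := ⟨_, rfl⟩
  have hNZ : NeZero (Nat.card (F ≃ₐ[ℚ] F)) := ⟨by omega⟩
  obtain ⟨g, hg⟩ := rh_surjective F (e (Multiplicative.ofAdd 1))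
  have hsurj : Function.Surjective (cych n) := hs1
  have hker : (cych n).ker ≤ ((e.symm.toMonoidHom).comp (rh F)).ker := by
    intro h hh
    rw [MonoidHom.mem_ker] at hh ⊢
    have h1 : rh F h = 1 := by
      rw [rh_eq_iff]
      intro x
      have h2 := hs2 h 1 (by rw [hh, map_one]) (x : ℂ) (hF x.2)
      rw [h2]
      rfl
    rw [MonoidHom.comp_apply, h1, map_one]
  obtain ⟨κ, hκ⟩ : ∃ κ : (ZMod n)ˣ →* Multiplicative (ZMod (Nat.card (F ≃ₐ[ℚ] F))),
      ∀ h, κ (cych n h) = e.symm (rh F h) := by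
    refine ⟨(cych n).liftOfSurjective hsurj ⟨(e.symm.toMonoidHom).comp (rh F), hker⟩, fun h => ?_⟩
    exact MonoidHom.liftOfRightInverse_comp_apply (cych n) _ _
      ⟨(e.symm.toMonoidHom).comp (rh F), hker⟩ h
  refine ⟨κ, g, ?_, ?_, ?_⟩
  · rw [vl, hκ, hg, MulEquiv.symm_apply_apply, toAdd_ofAdd, ZMod.val_one_eq_one_mod,
      Nat.mod_eq_of_lt hd]
  · intro h hh
    have h1 : rh F h = 1 := by
      rw [rh_eq_iff]
      intro x
      exact hh x x.2
    rw [vl, hκ, h1, map_one, toAdd_one, ZMod.val_zero]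
  · intro y
    obtain ⟨σ, hσ⟩ : ∃ σ, σ = e (Multiplicative.ofAdd 1) := ⟨_, rfl⟩
    have hgen : ∀ x, x ∈ Subgroup.zpowers σ := by
      intro x
      obtain ⟨k, rfl⟩ := e.surjective x
      refine ⟨((Multiplicative.toAdd k).val : ℤ), ?_⟩
      show σ ^ (((Multiplicative.toAdd k).val : ℕ) : ℤ) = e k
      rw [zpow_natCast, hσ, ← map_pow]
      congr 1
      rw [← ofAdd_nsmul, nsmul_one, ZMod.natCast_zmod_val]
      rfl
    have himg := IsCyclic.image_range_card hgen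
    have hinj : Set.InjOn (fun i => σ ^ i) (Finset.range (Nat.card (F ≃ₐ[ℚ] F))) := by
      apply Finset.injOn_of_card_image_eq
      rw [himg, Finset.card_univ, Finset.card_range, Nat.card_eq_fintype_card]
    have h1 := Algebra.norm_eq_prod_automorphisms ℚ y
    have h2 := congrArg (fun z : F => (z : ℂ)) h1
    have h3 : ((algebraMap ℚ F (Algebra.norm ℚ y) : F) : ℂ) = ((Algebra.norm ℚ y : ℚ) : ℂ) := by
      rw [eq_ratCast]
      exact map_ratCast (algebraMap F ℂ) _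
    rw [← h3]
    refine h2.trans ?_
    have h4 : ((∏ s : F ≃ₐ[ℚ] F, s y : F) : ℂ) = ∏ s : F ≃ₐ[ℚ] F, ((s y : F) : ℂ) :=
      map_prod (algebraMap F ℂ) _ _
    refine h4.trans ?_
    rw [← himg, Finset.prod_image hinj]
    refine Finset.prod_congr rfl fun i _ => ?_
    rw [hσ, ← hg, ← map_pow, rh_apply]

end StarkC.ABS
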