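import Pool.Agent.ABS.StS

/-!
# Module SNM of the project ABS: the norm of `ℚ(ζ_n)` as a product over the units modulo `n`
-/

set_option autoImplicit false

open scoped Classical

namespace StarkC.ABS

open StarkP (rootField)

namespace SNMx

lemma finite_roots (n : ℕ) (hn : 0 < n) : {z : ℂ | z ^ n = 1}.Finite := by
  have h : {z : ℂ | z ^ n = 1} = ((Polynomial.nthRootsFinset n (1 : ℂ) : Finset ℂ) : Set ℂ) := by
    ext z
    rw [Set.mem_ofPred_eq, Finset.mem_coe, Polynomial.mem_nthRootsFinset hn]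
  rw [h]
  exact Finset.finite_toSet _

lemma integral_root (n : ℕ) (hn : 0 < n) (z : ℂ) (hz : z ^ n = 1) : IsIntegral ℚ z := by
  refine ⟨Polynomial.X ^ n - Polynomial.C 1, Polynomial.monic_X_pow_sub_C 1 hn.ne', ?_⟩
  simp [hz]

lemma finDim (n : ℕ) (hn : 0 < n) : FiniteDimensional ℚ (rootField n) := by
  have h1 : Finite {z : ℂ | z ^ n = 1} := (finite_roots n hn).to_subtype
  exact IntermediateField.finiteDimensional_adjoin fun z hz => integral_root n hn z hz

/-- the restriction of an automorphism of `ℂ` -/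
noncomputable def rst (n : ℕ) (s : ℂ ≃+* ℂ) : rootField n →ₐ[ℚ] ℂ :=
  (s : ℂ →+* ℂ).toRatAlgHom.comp (rootField n).val

lemma rst_apply (n : ℕ) (s : ℂ ≃+* ℂ) (x : rootField n) : rst n s x = s x := rfl

lemma cych_spec (n : ℕ) [NeZero n] (g : ℂ ≃+* ℂ) (z : ℂ) (hz : z ^ n = 1) :
    g z = z ^ ((cych n g : (ZMod n)ˣ) : ZMod n).val := by
  have hz0 : z ≠ 0 := by
    rintro rfl
    rw [zero_pow (NeZero.ne n)] at hz
    exact zero_ne_one hz
  have hmem : Units.mk0 z hz0 ∈ rootsOfUnity n ℂ := by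
    rw [mem_rootsOfUnity]
    ext
    simpa using hz
  have h := modularCyclotomicCharacter.spec ℂ (Complex.card_rootsOfUnity n) g hmem
  unfold cych
  simpa using h

end SNMx

open SNMx in
theorem SNM_thm : Stmt_SNM := by
  intro n _ s hs x
  have hn : 0 < n := Nat.pos_of_ne_zero (NeZero.ne n)
  have hfd : FiniteDimensional ℚ (rootField n) := finDim n hn
  have hζ : IsPrimitiveRoot (Complex.exp (2 * Real.pi * Complex.I / n)) n :=
    Complex.isPrimitiveRoot_exp n hn.ne'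
  set ζ : ℂ := Complex.exp (2 * Real.pi * Complex.I / n) with hζd
  have hmem : ζ ∈ rootField n := IntermediateField.subset_adjoin ℚ _ hζ.pow_eq_one
  have h1 : ((Algebra.norm ℚ x : ℚ) : ℂ) = ∏ f : rootField n →ₐ[ℚ] ℂ, f x := by
    rw [← Algebra.norm_eq_prod_embeddings ℚ ℂ x, eq_ratCast]
  rw [h1]
  symm
  refine Finset.prod_bij (fun u _ => rst n (s u)) (fun u _ => Finset.mem_univ _) ?_ ?_ ?_
  · intro u _ u' _ h
    have h2 : rst n (s u) ⟨ζ, hmem⟩ = rst n (s u') ⟨ζ, hmem⟩ := by rw [h]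
    rw [rst_apply, rst_apply] at h2
    have h3 : ζ ^ ((u : (ZMod n)ˣ) : ZMod n).val = ζ ^ ((u' : (ZMod n)ˣ) : ZMod n).val := by
      have e1 := cych_spec n (s u) ζ hζ.pow_eq_one
      have e2 := cych_spec n (s u') ζ hζ.pow_eq_one
      rw [hs] at e1 e2
      rw [← e1, ← e2]
      exact h2
    exact Units.ext (ZMod.val_injective n (hζ.pow_inj (ZMod.val_lt _) (ZMod.val_lt _) h3))
  · intro f _
    have hz : IsPrimitiveRoot (f ⟨ζ, hmem⟩) n := by
      have h4 : IsPrimitiveRoot (⟨ζ, hmem⟩ : rootField n) n :=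
        IsPrimitiveRoot.of_map_of_injective (f := (rootField n).val) hζ (rootField n).val.injective
      exact h4.map_of_injective f.toRingHom.injective
    obtain ⟨t, ht, hc, he⟩ := hζ.isPrimitiveRoot_iff.1 hz
    refine ⟨ZMod.unitOfCoprime t hc, Finset.mem_univ _, ?_⟩
    refine IntermediateField.adjoin_algHom_ext (F := ℚ) (fun z hz1 => ?_)
    rw [Set.mem_ofPred_eq] at hz1
    obtain ⟨j, hj, rfl⟩ := hζ.eq_pow_of_pow_eq_one hz1
    have h5 : (⟨ζ ^ j, IntermediateField.subset_adjoin ℚ _ hz1⟩ : rootField n) =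
        ⟨ζ, hmem⟩ ^ j := rfl
    change rst n (s (ZMod.unitOfCoprime t hc)) ⟨ζ ^ j, _⟩ = f ⟨ζ ^ j, _⟩
    rw [h5, map_pow, map_pow, rst_apply]
    rw [← he]
    congr 1
    have e1 := cych_spec n (s (ZMod.unitOfCoprime t hc)) ζ hζ.pow_eq_one
    rw [hs, ZMod.coe_unitOfCoprime, ZMod.val_natCast, Nat.mod_eq_of_lt ht] at e1
    exact e1
  · intro u _
    rfl

end StarkC.ABS
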