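import Pool.Agent.ABS.StS

/-!
# Project ABS, module SPA: all characters, from prime powers
-/

set_option autoImplicit false

open scoped Classical

namespace StarkC.ABS

open StarkP (rootField)

namespace SPAx

/-- the local hypothesis for a factor prime to the rest -/
lemma hyp_left {x y : ℕ} (hxy : x.Coprime y) {a : ℚ}
    (hyp : ∀ p k : ℕ, p.Prime → 0 < k → p ^ k ∣ x * y → (x * y / p ^ k).Coprime p →
      ∃ α : rootField (p ^ k), Algebra.norm ℚ α = a) :
    ∀ p k : ℕ, p.Prime → 0 < k → p ^ k ∣ x → (x / p ^ k).Coprime p →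
      ∃ α : rootField (p ^ k), Algebra.norm ℚ α = a := by
  intro p k hp hk hd hc
  refine hyp p k hp hk (hd.mul_right y) ?_
  have h1 : p ∣ x := (dvd_pow_self p hk.ne').trans hd
  have h2 : y.Coprime p := (Nat.Coprime.coprime_dvd_left h1 hxy).symm
  have h3 : x * y / p ^ k = x / p ^ k * y := by
    rw [Nat.mul_div_right_comm hd]
  rw [h3]
  exact Nat.Coprime.mul_left hc h2

lemma hyp_right {x y : ℕ} (hxy : x.Coprime y) {a : ℚ}
    (hyp : ∀ p k : ℕ, p.Prime → 0 < k → p ^ k ∣ x * y → (x * y / p ^ k).Coprime p →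
      ∃ α : rootField (p ^ k), Algebra.norm ℚ α = a) :
    ∀ p k : ℕ, p.Prime → 0 < k → p ^ k ∣ y → (y / p ^ k).Coprime p →
      ∃ α : rootField (p ^ k), Algebra.norm ℚ α = a := by
  refine hyp_left hxy.symm ?_
  intro p k hp hk hd hc
  rw [mul_comm] at hd hc
  exact hyp p k hp hk hd hc

/-- the case `n = 1` -/
lemma one (d : ℕ) [NeZero d] (a : ℚ) [NeZero 1] (κ : (ZMod 1)ˣ →* Multiplicative (ZMod d)) :
    Coch 1 d a κ := by
  have h0 : ∀ u : (ZMod 1)ˣ, vl κ u = 0 := by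
    intro u
    have hu : u = 1 := Subsingleton.elim _ _
    unfold vl
    rw [hu, map_one, toAdd_one, ZMod.val_zero]
  refine ⟨fun _ => 1, fun _ => ⟨one_mem _, one_ne_zero⟩, ?_⟩
  intro g w
  rw [h0, h0, map_one, Nat.zero_div, pow_zero]

theorem main (hcy : Stmt_SCY) (hnm : Stmt_SNM) (hpb : Stmt_SPB) (hpm : Stmt_SPM)
    (hpi : Stmt_SPI) (hcr : Stmt_SCR) (d : ℕ) [NeZero d] (a : ℚ) (ha : a ≠ 0) (n : ℕ) :
    ∀ [NeZero n], (∀ p k : ℕ, p.Prime → 0 < k → p ^ k ∣ n → (n / p ^ k).Coprime p →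
      ∃ α : rootField (p ^ k), Algebra.norm ℚ α = a) →
    ∀ κ : (ZMod n)ˣ →* Multiplicative (ZMod d), Coch n d a κ := by
  induction n using Nat.recOnPosPrimePosCoprime with
  | prime_pow p k hp hk =>
    intro _ hyp κ
    obtain ⟨α, hα⟩ := hyp p k hp hk dvd_rfl (by
      rw [Nat.div_self (pow_pos hp.pos k)]
      exact Nat.coprime_one_left p)
    exact hpb hcy hnm (p ^ k) d a α ha hα κ
  | zero =>
    intro h0 _ _
    exact absurd rfl h0.out
  | one =>
    intro _ _ κ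
    exact one d a κ
  | coprime x y hx hy hxy ihx ihy =>
    intro _ hyp κ
    have : NeZero x := ⟨by omega⟩
    have : NeZero y := ⟨by omega⟩
    obtain ⟨κ₁, κ₂, hκ⟩ := hcr x y d hxy κ
    have h1 := ihx (hyp_left hxy hyp) κ₁
    have h2 := ihy (hyp_right hxy hyp) κ₂
    rw [hκ]
    exact hpm (x * y) d a _ _ ha (hpi hcy x (x * y) d (Nat.dvd_mul_right x y) a κ₁ h1)
      (hpi hcy y (x * y) d (Nat.dvd_mul_left y x) a κ₂ h2)

end SPAx

theorem SPA_thm : Stmt_SPA := by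
  intro hcy hnm hpb hpm hpi hcr n d _ _ a ha hyp κ
  exact SPAx.main hcy hnm hpb hpm hpi hcr d a ha n hyp κ

end StarkC.ABS
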