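import Pool.Agent.ABS.StS

/-!
# Project ABS, module SPB: the base cochain
-/

set_option autoImplicit false

open scoped Classical

namespace StarkC.ABS

open StarkP (rootField)

namespace SPBx

theorem vl_lt {n d : ℕ} [NeZero d] (κ : (ZMod n)ˣ →* Multiplicative (ZMod d)) (u : (ZMod n)ˣ) :
    vl κ u < d := ZMod.val_lt _

theorem vl_mul {n d : ℕ} [NeZero d] (κ : (ZMod n)ˣ →* Multiplicative (ZMod d))
    (u w : (ZMod n)ˣ) : vl κ (u * w) = (vl κ u + vl κ w) % d := by
  unfold vl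
  rw [map_mul, toAdd_mul, ZMod.val_add]

/-- the count of the factors -/
theorem count {d x v y : ℕ} (hx : x < d) (hv : v < d) (hy : y < d) :
    (if (x + v) % d < x then 1 else 0) + (if v < y then 1 else 0) =
      (if (x + v) % d < (x + y) % d then 1 else 0) + (x + y) / d := by
  have hmod : ∀ z, z < 2 * d → ¬ z < d → z % d = z - d := by
    intro z h1 h2
    rw [Nat.mod_eq_sub_mod (by omega), Nat.mod_eq_of_lt (by omega)]
  have hdiv : ∀ z, z < 2 * d → ¬ z < d → z / d = 1 := by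
    intro z h1 h2
    exact Nat.div_eq_of_lt_le (by omega) (by omega)
  by_cases h1 : x + v < d
  · rw [Nat.mod_eq_of_lt h1]
    by_cases h2 : x + y < d
    · rw [Nat.mod_eq_of_lt h2, Nat.div_eq_of_lt h2]
      split_ifs <;> omega
    · rw [hmod _ (by omega) h2, hdiv _ (by omega) h2]
      split_ifs <;> omega
  · rw [hmod _ (by omega) h1]
    by_cases h2 : x + y < d
    · rw [Nat.mod_eq_of_lt h2, Nat.div_eq_of_lt h2]
      split_ifs <;> omega
    · rw [hmod _ (by omega) h2, hdiv _ (by omega) h2]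
      split_ifs <;> omega

end SPBx

open SPBx in
theorem SPB_thm : Stmt_SPB := by
  intro hS hN n d _ _ a α ha hα κ
  obtain ⟨h1, h2, h3, _⟩ := hS n
  choose s hs using h1
  have hnorm : (a : ℂ) = ∏ u, s u (α : ℂ) := by
    rw [← hN n s hs α, hα]
  have hα0 : (α : ℂ) ≠ 0 := by
    intro h
    have h0 : (a : ℂ) ≠ 0 := by exact_mod_cast ha
    apply h0
    rw [hnorm, h]
    exact Finset.prod_eq_zero (Finset.mem_univ 1) (map_zero _)
  have hf : ∀ (g : ℂ ≃+* ℂ) (w : (ZMod n)ˣ), g (s w (α : ℂ)) = s (cych n g * w) (α : ℂ) := by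
    intro g w
    have h4 : cych n (g * s w) = cych n (s (cych n g * w)) := by
      rw [map_mul, hs, hs]
    exact h2 _ _ h4 (α : ℂ) α.2
  refine ⟨fun u => ∏ w, s w (α : ℂ) ^ (if vl κ w < vl κ u then 1 else 0), ?_, ?_⟩
  · intro u
    refine ⟨prod_mem fun w _ => pow_mem (h3 _ _ α.2) _, ?_⟩
    refine Finset.prod_ne_zero_iff.2 fun w _ => pow_ne_zero _ ?_
    rw [Ne, map_eq_zero_iff _ (s w).injective]
    exact hα0
  · intro g w
    show (∏ w', s w' (α : ℂ) ^ (if vl κ w' < vl κ (cych n g) then 1 else 0)) *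
      g (∏ w', s w' (α : ℂ) ^ (if vl κ w' < vl κ w then 1 else 0)) =
      (∏ w', s w' (α : ℂ) ^ (if vl κ w' < vl κ (cych n g * w) then 1 else 0)) *
        (a : ℂ) ^ ((vl κ (cych n g) + vl κ w) / d)
    have e1 : ∀ e : (ZMod n)ˣ → ℕ, ∏ w', s w' (α : ℂ) ^ e w' =
        ∏ w', s (cych n g * w') (α : ℂ) ^ e (cych n g * w') := fun e =>
      (Equiv.prod_comp (Equiv.mulLeft (cych n g)) (fun w' => s w' (α : ℂ) ^ e w')).symm
    rw [e1 (fun w' => if vl κ w' < vl κ (cych n g) then 1 else 0),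
      e1 (fun w' => if vl κ w' < vl κ (cych n g * w) then 1 else 0), map_prod, hnorm,
      ← Finset.prod_pow, e1 (fun _ => (vl κ (cych n g) + vl κ w) / d),
      ← Finset.prod_mul_distrib, ← Finset.prod_mul_distrib]
    refine Finset.prod_congr rfl fun w' _ => ?_
    rw [map_pow, hf, ← pow_add, ← pow_add]
    congr 1
    rw [vl_mul κ (cych n g) w', vl_mul κ (cych n g) w]
    exact count (vl_lt κ _) (vl_lt κ _) (vl_lt κ _)

end StarkC.ABS
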