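import Pool.Agent.ABS.StS

/-!
# Project ABS, module SPI: inflation of cochains (helper68)
-/

set_option autoImplicit false

open scoped Classical

namespace StarkC.ABS

open StarkP (rootField)

namespace SPIx

lemma rootField_mono {m n : ℕ} (h : m ∣ n) : rootField m ≤ rootField n := by
  unfold StarkP.rootField
  refine IntermediateField.adjoin.mono _ _ _ ?_
  intro z hz
  obtain ⟨k, rfl⟩ := h
  have hz' : z ^ m = 1 := hz
  show z ^ (m * k) = 1
  rw [pow_mul, hz', one_pow]

end SPIx

theorem SPI_thm : Stmt_SPI := by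
  intro hC m n d _ _ h a κ hκ
  obtain ⟨b, hb1, hb2⟩ := hκ
  obtain ⟨-, -, -, hc⟩ := hC n
  refine ⟨fun u => b (ZMod.unitsMap h u), fun u => ?_, fun g w => ?_⟩
  · exact ⟨SPIx.rootField_mono h (hb1 _).1, (hb1 _).2⟩
  · have h1 := hb2 g (ZMod.unitsMap h w)
    rw [hc m h g] at h1
    have e1 : ZMod.unitsMap h (cych n g * w) =
        ZMod.unitsMap h (cych n g) * ZMod.unitsMap h w := map_mul _ _ _
    have e2 : ∀ u : (ZMod n)ˣ, vl (κ.comp (ZMod.unitsMap h)) u = vl κ (ZMod.unitsMap h u) :=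
      fun _ => rfl
    show b (ZMod.unitsMap h (cych n g)) * g (b (ZMod.unitsMap h w)) =
      b (ZMod.unitsMap h (cych n g * w)) * _
    rw [e1, e2, e2]
    exact h1

end StarkC.ABS
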