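import Pool.Agent.ABS.StS

/-!
# SPM: products of cochains
-/

set_option autoImplicit false

open scoped Classical

namespace StarkC.ABS

open StarkP (rootField)

namespace SPMx

theorem vl_mul {n d : ℕ} [NeZero d] (κ : (ZMod n)ˣ →* Multiplicative (ZMod d)) (u w : (ZMod n)ˣ) :
    vl κ (u * w) = (vl κ u + vl κ w) % d := by
  unfold vl
  rw [map_mul, toAdd_mul, ZMod.val_add]

theorem vl_prod {n d : ℕ} [NeZero d] (κ κ' : (ZMod n)ˣ →* Multiplicative (ZMod d))
    (u : (ZMod n)ˣ) : vl (κ * κ') u = (vl κ u + vl κ' u) % d := by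
  unfold vl
  rw [MonoidHom.mul_apply, toAdd_mul, ZMod.val_add]

theorem arith {d x y x' y' : ℕ} (hd : 0 < d) :
    (x + x') / d + (y + y') / d + ((x + x') % d + (y + y') % d) / d =
      ((x + y) % d + (x' + y') % d) / d + (x + y) / d + (x' + y') / d := by
  have e1 := Nat.div_add_mod (x + x') d
  have e2 := Nat.div_add_mod (y + y') d
  have e3 := Nat.div_add_mod (x + y) d
  have e4 := Nat.div_add_mod (x' + y') d
  have e5 := Nat.div_add_mod ((x + x') % d + (y + y') % d) d
  have e6 := Nat.div_add_mod ((x + y) % d + (x' + y') % d) d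
  have l5 := Nat.mod_lt ((x + x') % d + (y + y') % d) hd
  have l6 := Nat.mod_lt ((x + y) % d + (x' + y') % d) hd
  set A := (x + x') / d
  set B := (y + y') / d
  set C := (x + y) / d
  set D := (x' + y') / d
  set E := ((x + x') % d + (y + y') % d) / d
  set F := ((x + y) % d + (x' + y') % d) / d
  set r5 := ((x + x') % d + (y + y') % d) % d
  set r6 := ((x + y) % d + (x' + y') % d) % d
  have key : d * (A + B + E) + r5 = d * (F + C + D) + r6 := by
    have k1 : d * (A + B + E) + r5 = x + x' + (y + y') := by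
      have : d * (A + B + E) = d * A + d * B + d * E := by ring
      omega
    have k2 : d * (F + C + D) + r6 = x + x' + (y + y') := by
      have : d * (F + C + D) = d * F + d * C + d * D := by ring
      omega
    rw [k1, k2]
  have h1 : (d * (A + B + E) + r5) / d = A + B + E := by
    rw [Nat.mul_add_div hd, Nat.div_eq_of_lt l5, add_zero]
  have h2 : (d * (F + C + D) + r6) / d = F + C + D := by
    rw [Nat.mul_add_div hd, Nat.div_eq_of_lt l6, add_zero]
  rw [← h1, ← h2, key]

end SPMx

theorem SPM_thm : Stmt_SPM := by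
  intro n d _ _ a κ κ' ha ⟨b, hb, hb'⟩ ⟨c, hc, hc'⟩
  have ha' : (a : ℂ) ≠ 0 := by exact_mod_cast ha
  have hd : 0 < d := Nat.pos_of_ne_zero (NeZero.ne d)
  have hm : (a : ℂ) ∈ rootField n := by
    have := (rootField n).algebraMap_mem a
    simp at this ⊢
  refine ⟨fun u => b u * c u / (a : ℂ) ^ ((vl κ u + vl κ' u) / d), fun u => ⟨?_, ?_⟩, fun g w => ?_⟩
  · exact div_mem (mul_mem (hb u).1 (hc u).1) (pow_mem hm _)
  · exact div_ne_zero (mul_ne_zero (hb u).2 (hc u).2) (pow_ne_zero _ ha')
  · have h1 := hb' g w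
    have h2 := hc' g w
    have hga : g (a : ℂ) = a := map_ratCast g a
    beta_reduce
    rw [map_div₀, map_mul, map_pow, hga, SPMx.vl_prod, SPMx.vl_prod, SPMx.vl_mul, SPMx.vl_mul,
      div_mul_div_comm, div_mul_eq_mul_div, div_eq_div_iff
      (mul_ne_zero (pow_ne_zero _ ha') (pow_ne_zero _ ha')) (pow_ne_zero _ ha')]
    have e := SPMx.arith (d := d) (x := vl κ (cych n g)) (y := vl κ' (cych n g)) (x' := vl κ w)
      (y' := vl κ' w) hd
    calc b (cych n g) * c (cych n g) * (g (b w) * g (c w)) *
          (a : ℂ) ^ (((vl κ (cych n g) + vl κ w) % d + (vl κ' (cych n g) + vl κ' w) % d) / d)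
        = (b (cych n g) * g (b w)) * (c (cych n g) * g (c w)) *
          (a : ℂ) ^ (((vl κ (cych n g) + vl κ w) % d + (vl κ' (cych n g) + vl κ' w) % d) / d) := by
          ring
      _ = b (cych n g * w) * c (cych n g * w) *
          (a : ℂ) ^ ((vl κ (cych n g) + vl κ w) / d + (vl κ' (cych n g) + vl κ' w) / d +
            ((vl κ (cych n g) + vl κ w) % d + (vl κ' (cych n g) + vl κ' w) % d) / d) := by
          rw [h1, h2, pow_add, pow_add]
          ring
      _ = _ := by
          rw [e, pow_add, pow_add]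
          ring

end StarkC.ABS
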