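import Pool.Agent.ABS.SYMG
import Pool.Agent.ABS.SYMH
import Pool.Agent.ABS.SCY
import Pool.Agent.ABS.SNM
import Pool.Agent.ABS.SPB
import Pool.Agent.ABS.SPM
import Pool.Agent.ABS.SPI
import Pool.Agent.ABS.SCR
import Pool.Agent.ABS.SPA
import Pool.Agent.ABS.SH9
import Pool.Agent.ABS.SKA
import Pool.Agent.ABS.SFF

/-!
# Project ABS: norms from cyclic subfields of `ℚ(ζ_n)`, the end of part S
-/

set_option autoImplicit false

namespace StarkC.ABS

theorem SYM_thm : Stmt_SYM :=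
  sym_of SCY_thm SNM_thm SPB_thm SPM_thm SPI_thm SCR_thm SPA_thm SH9_thm SKA_thm SFF_thm

/-- If `a` is a norm from `ℚ(ζ_q)` for all prime powers `q` exactly dividing `n`, then it is a norm
from every cyclic subfield of `ℚ(ζ_n)`. -/
theorem sym' (n : ℕ) (a : ℚ) (hn : 0 < n) (ha : a ≠ 0)
    (h : ∀ p k : ℕ, p.Prime → 0 < k → p ^ k ∣ n → (n / p ^ k).Coprime p →
      ∃ α : StarkP.rootField (p ^ k), Algebra.norm ℚ α = a)
    (E : IntermediateField ℚ ℂ) (hE : E ≤ StarkP.rootField n) (hc : IsCyclic (E ≃ₐ[ℚ] E)) :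
    ∃ β : E, Algebra.norm ℚ β = a :=
  SYM_thm n a hn ha h E hE (galois_of_le n hn E hE) hc

end StarkC.ABS
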