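import Pool.Agent.ABS.StF

/-!
# Project ABS, module TRX: the trace of a character
-/

open NumberField IsDedekindDomain
open scoped TensorProduct Classical

namespace StarkC.ABS

theorem TRX_thm : Stmt_TRX := by
  intro hS hT G n χ χt hn hCF hconj g
  obtain ⟨σ, hσ⟩ : ∃ σ : ℕ → (ℂ ≃+* ℂ), ∀ t ∈ Ex n, ∀ z : ℂ, z ^ n = 1 → σ t z = z ^ t := by
    have h5 : ∀ t : ℕ, ∃ τ : ℂ ≃+* ℂ, t ∈ Ex n → ∀ z : ℂ, z ^ n = 1 → τ z = z ^ t := by
      intro t
      by_cases ht : t ∈ Ex n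
      · obtain ⟨τ, hτ⟩ := hS n t hn (Finset.mem_filter.1 ht).2
        exact ⟨τ, fun _ => hτ⟩
      · exact ⟨RingEquiv.refl ℂ, fun h => absurd h ht⟩
    choose σ hσ using h5
    exact ⟨σ, hσ⟩
  have key : ∀ (E : IntermediateField ℚ ℂ) (x : E), E = Cyc n →
      ((Algebra.trace ℚ E x : ℚ) : ℂ) = ∑ t ∈ Ex n, σ t (x : ℂ) := by
    intro E x h
    subst h
    exact hT n σ hn hσ x
  unfold StarkP.trChar
  rw [key _ _ hCF]
  exact Finset.sum_congr rfl fun t ht => hconj t ht (σ t) (hσ t ht) g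

end StarkC.ABS
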