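import Pool.Agent.ABS.StB
import Pool.Agent.HEZ.LNK

/-!
# Project ABS: the zeta functions
-/

open NumberField IsDedekindDomain

namespace StarkC.ABS

/-- From the interface of `HEZ` to the one of part B. -/
theorem ZBR_thm (h : HEZ.S_ZETA0) : Stmt_ZETA := by
  intro F _ _
  obtain ⟨Z, h1, h2⟩ := h F
  refine ⟨Z, ⟨h1.1, h1.2⟩, ?_⟩
  rw [h2]
  push_cast
  ring

end StarkC.ABS
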