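import Pool.Agent.ABS.RESG
import Pool.Agent.ABS.SYM
import Pool.Agent.ABS.PARTA
import Pool.Agent.ABS.ZBR
import Pool.Agent.HEZ.ALL
import Pool.Agent.ABS.BASE
import Pool.Agent.ABS.FIXC
import Pool.Agent.ABS.SIGT
import Pool.Agent.ABS.NORMT
import Pool.Agent.ABS.NPOS
import Pool.Agent.ABS.PRAT
import Pool.Agent.ABS.PSTEP
import Pool.Agent.ABS.PINF
import Pool.Agent.ABS.CHI
import Pool.Agent.ABS.REGI
import Pool.Agent.ABS.REGB
import Pool.Agent.ABS.REGC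
import Pool.Agent.ABS.LFB
import Pool.Agent.ABS.CYC2
import Pool.Agent.ABS.ORD2
import Pool.Agent.ABS.FINA
import Pool.Agent.ABS.RAM
import Pool.Agent.ABS.IDX
import Pool.Agent.ABS.ORDN
import Pool.Agent.ABS.RCY
import Pool.Agent.ABS.RGP
import Pool.Agent.ABS.REL
import Pool.Agent.ABS.RAV
import Pool.Agent.ABS.ROQ
import Pool.Agent.ABS.RFX
import Pool.Agent.ABS.TRT
import Pool.Agent.ABS.TRX
import Pool.Agent.ABS.CFL
import Pool.Agent.ABS.CFR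

/-!
# Project ABS: the theorem
-/

open NumberField IsDedekindDomain
open scoped TensorProduct Classical

namespace StarkC.ABS

namespace FINFx

theorem core : Stmt_CORE := COREB_thm _root_.ABS.corep REGI_thm

theorem zeta : Stmt_ZETA := ZBR_thm HEZ.zeta0

theorem base : ∀ (K L : Type) [Field K] [NumberField K] [Field L] [NumberField L] [Algebra K L]
    [IsGalois K L] (ℓ k : ℕ) (ψ : (L ≃ₐ[K] L) →* ℂˣ),
    OkOrd ℓ k → Nat.card (L ≃ₐ[K] L) = ℓ ^ k → Function.Injective ψ →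
    PPall (ℓ ^ k) ψ (∅ : Finset (HeightOneSpectrum (𝓞 K))) :=
  BASE_thm SIGT_thm NORMT_thm NPOS_thm CHI_thm REGI_thm REGB_thm LFB_thm REGC_thm zeta core

theorem concl1 : Concl1 := fun K L _ _ _ _ _ _ ℓ k ψ S hOk h =>
  (FINA_thm FIXC_thm SIGT_thm NORMT_thm PRAT_thm PSTEP_thm PINF_thm CYC2_thm ORD2_thm base
    K L ℓ k ψ S hOk).1 h

/-- A prime power `> 2` exactly dividing `n ≥ 3`. -/
theorem exists_pp (n : ℕ) (hn : 3 ≤ n) : ∃ p k m : ℕ, p.Prime ∧ 0 < k ∧ 2 < p ^ k ∧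
    (p ^ k).Coprime m ∧ n = p ^ k * m := by
  have hn0 : n ≠ 0 := by omega
  have key : ∀ p : ℕ, p.Prime → p ∣ n → 2 < p ^ (n.factorization p) →
      ∃ p k m : ℕ, p.Prime ∧ 0 < k ∧ 2 < p ^ k ∧ (p ^ k).Coprime m ∧ n = p ^ k * m := by
    intro p hp hpn h2
    have hk : 0 < n.factorization p := hp.factorization_pos_of_dvd hn0 hpn
    exact ⟨p, n.factorization p, n / p ^ n.factorization p, hp, hk, h2,
      Nat.Coprime.pow_left _ (Nat.coprime_ordCompl hp hn0),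
      (Nat.ordProj_mul_ordCompl_eq_self n p).symm⟩
  by_cases h4 : ∃ p : ℕ, p.Prime ∧ p ∣ n ∧ p ≠ 2
  · obtain ⟨p, hp, hpn, h2⟩ := h4
    refine key p hp hpn ?_
    have hk : 0 < n.factorization p := hp.factorization_pos_of_dvd hn0 hpn
    have h3 : 2 < p := lt_of_le_of_ne hp.two_le (Ne.symm h2)
    exact lt_of_lt_of_le h3 (Nat.le_self_pow hk.ne' p)
  · push Not at h4
    have h5 : n = 2 ^ n.primeFactorsList.length :=
      Nat.eq_prime_pow_of_unique_prime_dvd hn0 fun {d} hd hdn => h4 d hd hdn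
    have h6 : 2 ∣ n := by
      rw [h5]
      refine dvd_pow_self 2 ?_
      intro h0
      rw [h0] at h5
      omega
    refine key 2 Nat.prime_two h6 ?_
    have h7 : n.factorization 2 = n.primeFactorsList.length := by
      conv_lhs => rw [h5]
      rw [Nat.Prime.factorization_pow Nat.prime_two, Finsupp.single_eq_same]
    rw [h7, ← h5]
    omega

end FINFx

open FINFx

/-- Stark's conjecture in norm. -/
theorem final (K L : Type) [Field K] [NumberField K] [Field L] [NumberField L] [Algebra K L]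
    [IsGalois K L] (S : Finset (HeightOneSpectrum (𝓞 K)))
    (Θ : ((L → ℝ) →₀ ℂ) →ₗ[ℂ] ((L → ℝ) →₀ ℂ))
    (hΘ : StarkP.IsTheta K (StarkP.aboveSet K L S) Θ) :
    (∀ (V : Type) [AddCommGroup V] [Module ℂ V] [Module.Finite ℂ V]
      (ρ : Representation ℂ (L ≃ₐ[K] L) V) (ℓ : ℕ), ℓ.Prime → ℓ ≠ 2 → ρ.IsIrreducible →
      (¬ ∀ g, ρ g = 1) → StarkP.HasImage ℓ ρ →
      StarkP.NormIn (StarkP.charField ρ.character) ρ.character
          (S : Set (HeightOneSpectrum (𝓞 K))) Θ ∧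
        (Module.finrank ℚ (StarkP.charField ρ.character) = 2 →
          StarkP.AbsIn ρ.character (S : Set (HeightOneSpectrum (𝓞 K))) Θ)) ∧
    ∀ ψ : (L ≃ₐ[K] L) →* ℂˣ, 3 ≤ orderOf ψ →
      (∀ q : ℕ, IsPrimePow q → orderOf ψ = q ∨ orderOf ψ = 2 * q →
        StarkP.NormIn (StarkP.charField (fun g => ((ψ g : ℂˣ) : ℂ))) (fun g => ((ψ g : ℂˣ) : ℂ))
          (S : Set (HeightOneSpectrum (𝓞 K))) Θ) ∧
      (∀ E : IntermediateField ℚ ℂ, E ≤ StarkP.charField (fun g => ((ψ g : ℂˣ) : ℂ)) →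
        IsCyclic (E ≃ₐ[ℚ] E) → StarkP.NormIn E (fun g => ((ψ g : ℂˣ) : ℂ))
          (S : Set (HeightOneSpectrum (𝓞 K))) Θ) ∧
      (Module.finrank ℚ (StarkP.charField (fun g => ((ψ g : ℂˣ) : ℂ))) = 2 →
        StarkP.AbsIn (fun g => ((ψ g : ℂˣ) : ℂ)) (S : Set (HeightOneSpectrum (𝓞 K))) Θ) := by
  have hlin : ∀ (ψ : (L ≃ₐ[K] L) →* ℂˣ) (ℓ k m : ℕ), OkOrd ℓ k → (ℓ ^ k).Coprime m →
      orderOf ψ = ℓ ^ k * m →
      StarkP.NormIn (StarkP.rootField (ℓ ^ k)) (fun g => ((ψ g : ℂˣ) : ℂ))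
          (S : Set (HeightOneSpectrum (𝓞 K))) Θ ∧
        (m ≤ 2 → StarkP.charField (fun g => ((ψ g : ℂˣ) : ℂ)) = StarkP.rootField (ℓ ^ k)) ∧
        (Module.finrank ℚ (StarkP.charField (fun g => ((ψ g : ℂˣ) : ℂ))) = 2 →
          StarkP.AbsIn (fun g => ((ψ g : ℂˣ) : ℂ)) (S : Set (HeightOneSpectrum (𝓞 K))) Θ) :=
    fun ψ ℓ k m hOk hcop hord =>
      RESFx.linear (ORDN_thm concl1 COMB_thm RAM_thm IDX_thm) CYC2_thm NORMT_thm REGC_thm
        CFL_thm (TRX_thm SIGT_thm TRT_thm) S Θ hΘ ψ ℓ k m hOk hOk.2.2 hcop hord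
  refine ⟨?_, fun ψ hψ => ⟨?_, ?_, ?_⟩⟩
  · intro V _ _ _ ρ ℓ hℓ h2 hirr hone himg
    exact RESFx.irr concl1 COMB_thm NORMT_thm REGC_thm CFR_thm
      (RFX_thm RCY_thm RGP_thm REL_thm RAV_thm ROQ_thm) (TRX_thm SIGT_thm TRT_thm) S Θ hΘ V ρ ℓ hℓ
      h2 hirr hone himg
  · intro q hq hn
    obtain ⟨ℓ, k, hℓ, hk, rfl⟩ := (isPrimePow_nat_iff q).1 hq
    have key : ∀ (k m : ℕ), 0 < k → m ≤ 2 → 2 < ℓ ^ k → (ℓ ^ k).Coprime m →
        orderOf ψ = ℓ ^ k * m →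
        StarkP.NormIn (StarkP.charField (fun g => ((ψ g : ℂˣ) : ℂ))) (fun g => ((ψ g : ℂˣ) : ℂ))
          (S : Set (HeightOneSpectrum (𝓞 K))) Θ := by
      intro k m hk hm h2 hcop hord
      obtain ⟨h3, h4, -⟩ := hlin ψ ℓ k m ⟨hℓ, hk, h2⟩ hcop hord
      rw [h4 hm]
      exact h3
    rcases hn with hn | hn
    · exact key k 1 hk (by norm_num) (by omega) (Nat.coprime_one_right _) (by omega)
    · by_cases h2 : ℓ = 2
      · subst h2
        exact key (k + 1) 1 (by omega) (by norm_num) (by rw [pow_succ]; omega)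
          (Nat.coprime_one_right _) (by rw [hn, pow_succ]; ring)
      · refine key k 2 hk le_rfl (RESFx.totient_gt hℓ h2 hk) ?_ (by rw [hn, mul_comm])
        exact Nat.Coprime.pow_left _ ((Nat.coprime_primes hℓ Nat.prime_two).2 h2)
  · intro E hE hcyc
    exact RESGx.cyc SYM_thm (fun n E hn h => galois_of_le n hn E h)
      (ORDN_thm concl1 COMB_thm RAM_thm IDX_thm) CFL_thm (TRX_thm SIGT_thm TRT_thm) S Θ hΘ ψ hψ E hE
      hcyc
  · intro h2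
    obtain ⟨ℓ, k, m, hℓ, hk, h3, hcop, hord⟩ : ∃ ℓ k m : ℕ, ℓ.Prime ∧ 0 < k ∧ 2 < ℓ ^ k ∧
        (ℓ ^ k).Coprime m ∧ orderOf ψ = ℓ ^ k * m := FINFx.exists_pp (orderOf ψ) hψ
    exact (hlin ψ ℓ k m ⟨hℓ, hk, h3⟩ hcop hord).2.2 h2

end StarkC.ABS
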