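import Pool.Agent.ABS.StG4

/-!
# The character of `A_5` induced from a character of order `5`
-/

set_option autoImplicit false

namespace StarkC.ABS

namespace FJ5x

theorem cnt1 : (Finset.univ.filter (fun z : A5 => z⁻¹ * g5 * z = g5)).card = 5 := by
  decide +kernel

theorem cnt2 : (Finset.univ.filter (fun z : A5 => z⁻¹ * g5 * z = g5⁻¹)).card = 5 := by
  decide +kernel

theorem cls : ∀ z : A5, z⁻¹ * g5 * z ≠ 1 ∧ z⁻¹ * g5 * z ≠ g5 ^ 2 ∧ z⁻¹ * g5 * z ≠ g5 ^ 3 := by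
  decide +kernel

theorem cardA : Fintype.card A5 = 60 := by
  decide +kernel

theorem g5_pow : g5 ^ 5 = 1 := by
  decide +kernel

theorem g5_ne : g5 ≠ 1 := by
  decide +kernel

theorem g5_ne' : g5 ≠ g5⁻¹ := by
  decide +kernel

theorem ord5 : orderOf g5 = 5 :=
  haveI : Fact (Nat.Prime 5) := ⟨Nat.prime_five⟩
  orderOf_eq_prime g5_pow g5_ne

theorem cardC : Nat.card (Subgroup.zpowers g5) = 5 := by
  rw [Nat.card_zpowers, ord5]

/-- conjugation and powers -/
theorem cjp (z g : A5) (n : ℕ) : z⁻¹ * g ^ n * z = (z⁻¹ * g * z) ^ n := by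
  induction n with
  | zero => simp
  | succ n ih => rw [pow_succ, pow_succ, ← ih]; group

/-- the elements of `C` -/
theorem memC (y : A5) (hy : y ∈ Subgroup.zpowers g5) :
    y = 1 ∨ y = g5 ∨ y = g5 ^ 2 ∨ y = g5 ^ 3 ∨ y = g5⁻¹ := by
  rw [mem_zpowers_iff_mem_range_orderOf, ord5, Finset.mem_image] at hy
  obtain ⟨i, hi, rfl⟩ := hy
  rw [Finset.mem_range] at hi
  have h4 : g5 ^ 4 = g5⁻¹ := by
    rw [eq_inv_iff_mul_eq_one, ← pow_succ]
    exact g5_pow
  interval_cases i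
  · left; simp
  · right; left; simp
  · right; right; left; rfl
  · right; right; right; left; rfl
  · right; right; right; right; exact h4

theorem pow5C (y : A5) (hy : y ∈ Subgroup.zpowers g5) : y ^ 5 = 1 := by
  obtain ⟨i, rfl⟩ := hy
  change (g5 ^ i) ^ 5 = 1
  rw [← zpow_natCast, ← zpow_mul, mul_comm, zpow_mul, zpow_natCast, g5_pow, one_zpow]

/-- an element whose order does not divide `5` has no conjugate in `C` -/
theorem notC (x g : A5) (h : x⁻¹ * g * x ∈ Subgroup.zpowers g5) : g ^ 5 = 1 := by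
  have h1 := pow5C _ h
  rw [← cjp] at h1
  have h2 : g ^ 5 = x * (x⁻¹ * g ^ 5 * x) * x⁻¹ := by group
  rw [h2, h1]
  group

/-- conjugates of powers of `g5` in `C` -/
theorem key (z : A5) (j : ℕ) (hj : ¬ 5 ∣ j) (h : z⁻¹ * g5 ^ j * z ∈ Subgroup.zpowers g5) :
    z⁻¹ * g5 * z = g5 ∨ z⁻¹ * g5 * z = g5⁻¹ := by
  have hc : Nat.Coprime j 5 := ((Nat.Prime.coprime_iff_not_dvd Nat.prime_five).2 hj).symm
  obtain ⟨k, hk⟩ := exists_pow_eq_self_of_coprime (x := g5) (n := j) (by rw [ord5]; exact hc)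
  have h1 : z⁻¹ * g5 * z ∈ Subgroup.zpowers g5 := by
    have h2 := Subgroup.pow_mem _ h k
    rw [← cjp, hk] at h2
    exact h2
  obtain ⟨c1, c2, c3⟩ := cls z
  rcases memC _ h1 with h2 | h2 | h2 | h2 | h2
  · exact absurd h2 c1
  · exact Or.inl h2
  · exact absurd h2 c2
  · exact absurd h2 c3
  · exact Or.inr h2

theorem g5_mem : g5 ∈ Subgroup.zpowers g5 := Subgroup.mem_zpowers g5

theorem ext_ne (ψ : Subgroup.zpowers g5 →* ℂˣ) : extZ ψ g5 ≠ 0 := by
  unfold extZ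
  rw [dif_pos g5_mem]
  exact Units.ne_zero _

theorem ext_pow (ψ : Subgroup.zpowers g5 →* ℂˣ) (j : ℕ) :
    extZ ψ (g5 ^ j) = extZ ψ g5 ^ j := by
  unfold extZ
  rw [dif_pos g5_mem, dif_pos (Subgroup.pow_mem _ g5_mem j), ← Units.val_pow_eq_pow_val,
    ← map_pow]
  rfl

theorem ext_inv (ψ : Subgroup.zpowers g5 →* ℂˣ) (y : A5) (hy : y ∈ Subgroup.zpowers g5) :
    extZ ψ y⁻¹ = (extZ ψ y)⁻¹ := by
  unfold extZ
  rw [dif_pos hy, dif_pos (Subgroup.inv_mem _ hy), ← Units.val_inv_eq_inv_val, ← map_inv]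
  rfl

theorem ext_one (ψ : Subgroup.zpowers g5 →* ℂˣ) : extZ ψ 1 = 1 := by
  have h := ext_pow ψ 0
  rwa [pow_zero, pow_zero] at h

open scoped Classical in
/-- the sum for `g5^j` -/
theorem main (ψ : Subgroup.zpowers g5 →* ℂˣ) (j : ℕ) (hj : ¬ 5 ∣ j) (z : A5) :
    (if z⁻¹ * g5 ^ j * z ∈ Subgroup.zpowers g5 then extZ ψ (z⁻¹ * g5 ^ j * z) else 0) =
      (if z⁻¹ * g5 * z = g5 then extZ ψ g5 ^ j else 0) +
      (if z⁻¹ * g5 * z = g5⁻¹ then (extZ ψ g5 ^ j)⁻¹ else 0) := by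
  by_cases h1 : z⁻¹ * g5 * z = g5
  · have h2 : ¬ z⁻¹ * g5 * z = g5⁻¹ := by rw [h1]; exact g5_ne'
    rw [if_pos h1, if_neg h2, cjp, h1, if_pos (Subgroup.pow_mem _ g5_mem j), ext_pow, add_zero]
  · by_cases h2 : z⁻¹ * g5 * z = g5⁻¹
    · rw [if_neg h1, if_pos h2, cjp, h2, inv_pow,
        if_pos (Subgroup.inv_mem _ (Subgroup.pow_mem _ g5_mem j)),
        ext_inv ψ _ (Subgroup.pow_mem _ g5_mem j), ext_pow, zero_add]
    · rw [if_neg h1, if_neg h2, add_zero, if_neg]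
      intro h
      rcases key z j hj h with h3 | h3
      · exact h1 h3
      · exact h2 h3

end FJ5x

open scoped Classical in
theorem FJ5_thm : Stmt_FJ5 := by
  intro ψ
  have hC : (Nat.card (Subgroup.zpowers g5) : ℂ) = 5 := by
    rw [FJ5x.cardC]; norm_num
  refine ⟨?_, ?_, ?_, ?_⟩
  · unfold indFun
    have h1 : ∀ x : A5, (if x⁻¹ * 1 * x ∈ Subgroup.zpowers g5 then extZ ψ (x⁻¹ * 1 * x) else 0) =
        (1 : ℂ) := by
      intro x
      rw [mul_one, inv_mul_cancel, if_pos (Subgroup.one_mem _), FJ5x.ext_one]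
    rw [Finset.sum_congr rfl fun x _ => h1 x, hC, Finset.sum_const, Finset.card_univ,
      FJ5x.cardA]
    norm_num
  · intro g hg hg2
    unfold indFun
    rw [Finset.sum_eq_zero, zero_div]
    intro x _
    rw [if_neg]
    intro h
    apply hg
    have h5 := FJ5x.notC x g h
    have e : g ^ 5 = (g ^ 2) ^ 2 * g := by group
    rw [e, hg2, one_pow, one_mul] at h5
    exact h5
  · intro g hg hg3
    unfold indFun
    rw [Finset.sum_eq_zero, zero_div]
    intro x _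
    rw [if_neg]
    intro h
    apply hg
    have h5 := FJ5x.notC x g h
    have e : g = (g ^ 3) ^ 2 * (g ^ 5)⁻¹ := by group
    rw [e, hg3, h5]
    simp
  · intro x j hj
    unfold indFun
    have h1 : ∑ y : A5, (if y⁻¹ * (x⁻¹ * g5 ^ j * x) * y ∈ Subgroup.zpowers g5 then
        extZ ψ (y⁻¹ * (x⁻¹ * g5 ^ j * x) * y) else 0) =
        ∑ z : A5, (if z⁻¹ * g5 ^ j * z ∈ Subgroup.zpowers g5 then
          extZ ψ (z⁻¹ * g5 ^ j * z) else 0) := by
      refine Fintype.sum_equiv (Equiv.mulLeft x) _ _ ?_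
      intro y
      have e : y⁻¹ * (x⁻¹ * g5 ^ j * x) * y = ((Equiv.mulLeft x) y)⁻¹ * g5 ^ j *
          (Equiv.mulLeft x) y := by
        rw [Equiv.coe_mulLeft]
        group
      rw [e]
    rw [h1, Finset.sum_congr rfl fun z _ => FJ5x.main ψ j hj z, Finset.sum_add_distrib,
      ← Finset.sum_filter, ← Finset.sum_filter, Finset.sum_const, Finset.sum_const, hC]
    have c1 : (Finset.univ.filter (fun z : A5 => z⁻¹ * g5 * z = g5)).card = 5 := by
      refine Eq.trans ?_ FJ5x.cnt1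
      exact congrArg Finset.card (Finset.ext fun z => by simp only [Finset.mem_filter])
    have c2 : (Finset.univ.filter (fun z : A5 => z⁻¹ * g5 * z = g5⁻¹)).card = 5 := by
      refine Eq.trans ?_ FJ5x.cnt2
      exact congrArg Finset.card (Finset.ext fun z => by simp only [Finset.mem_filter])
    rw [c1, c2]
    simp only [nsmul_eq_mul]
    push_cast
    ring

end StarkC.ABS
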