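import Pool.Agent.ABS.StG4

/-!
# Project ABS, module FK5: the elements of `A_5`
-/

set_option autoImplicit false

namespace StarkC.ABS

namespace FK5x

theorem key1 : ∀ g : A5, g = 1 ∨ g ^ 2 = 1 ∨ g ^ 3 = 1 ∨
    ∃ x : A5, g = x⁻¹ * g5 ^ 1 * x ∨ g = x⁻¹ * g5 ^ 2 * x := by
  decide +kernel

theorem key2 : ∀ g : A5, ∃ x : A5, x⁻¹ * g * x = g⁻¹ := by
  decide +kernel

theorem g5_pow : g5 ^ 5 = 1 := by
  decide +kernel

theorem g5_ne : g5 ≠ 1 := by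
  decide +kernel

theorem order_g5 : orderOf g5 = 5 := by
  haveI : Fact (Nat.Prime 5) := ⟨by norm_num⟩
  exact orderOf_eq_prime g5_pow g5_ne

theorem conj5 (x : A5) (j : ℕ) : (x⁻¹ * g5 ^ j * x) ^ 5 = 1 := by
  have h : x⁻¹ * g5 ^ j * x = x⁻¹ * g5 ^ j * (x⁻¹)⁻¹ := by rw [inv_inv]
  rw [h, conj_pow, ← pow_mul, mul_comm j 5, pow_mul, g5_pow, one_pow, mul_one, inv_inv,
    inv_mul_cancel]

theorem conj_ne (x : A5) (j : ℕ) (hj : ¬ 5 ∣ j) : x⁻¹ * g5 ^ j * x ≠ 1 := by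
  intro h
  apply hj
  have h1 : g5 ^ j = 1 := by
    have h2 : x * (x⁻¹ * g5 ^ j * x) * x⁻¹ = g5 ^ j := by group
    rw [← h2, h, mul_one, mul_inv_cancel]
  rw [← order_g5]
  exact orderOf_dvd_of_pow_eq_one h1

end FK5x

open FK5x in
theorem FK5_thm : Stmt_FK5 := by
  refine ⟨fun g => ?_, fun x j hj => ⟨conj_ne x j hj, conj5 x j⟩, key2⟩
  by_cases h1 : g = 1
  · exact Or.inl h1
  · rcases key1 g with h | h | h | ⟨x, h | h⟩
    · exact absurd h h1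
    · exact Or.inr (Or.inl ⟨h1, h⟩)
    · exact Or.inr (Or.inr (Or.inl ⟨h1, h⟩))
    · exact Or.inr (Or.inr (Or.inr ⟨x, 1, by norm_num, h⟩))
    · exact Or.inr (Or.inr (Or.inr ⟨x, 2, by norm_num, h⟩))

end StarkC.ABS
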