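import Pool.Agent.ABS.FINF
import Pool.Agent.ABS.FRA
import Pool.Agent.ABS.FRT
import Pool.Agent.ABS.FPD
import Pool.Agent.ABS.FCX
import Pool.Agent.ABS.FCH
import Pool.Agent.ABS.FPW
import Pool.Agent.ABS.FKM
import Pool.Agent.ABS.FEN
import Pool.Agent.ABS.FAS
import Pool.Agent.ABS.FAB
import Pool.Agent.ABS.FCL
import Pool.Agent.ABS.FGB
import Pool.Agent.ABS.FGT
import Pool.Agent.ABS.FGM
import Pool.Agent.ABS.FGA
import Pool.Agent.ABS.FK5
import Pool.Agent.ABS.FV5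
import Pool.Agent.ABS.FI5
import Pool.Agent.ABS.FJ5
import Pool.Agent.ABS.FA5
import Pool.Agent.ABS.FTR
import Pool.Agent.ABS.FFP

/-!
# Project ABS, part G: assembly (working forms)
-/

set_option autoImplicit false

open NumberField IsDedekindDomain
open scoped TensorProduct Classical

namespace StarkC.ABS

namespace FINGx

/-- The class number formula for `K`. -/
theorem fra : ∀ (K L : Type) [Field K] [NumberField K] [Field L] [NumberField L] [Algebra K L]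
    [IsGalois K L] (Θ : ((L → ℝ) →₀ ℂ) →ₗ[ℂ] ((L → ℝ) →₀ ℂ)),
    StarkP.IsTheta K (StarkP.aboveSet K L ∅) Θ →
    ∃ a : ℚ, a ≠ 0 ∧
      StarkP.detOn Θ (StarkP.XC L (StarkP.aboveSet K L ∅) ⊓
        StarkP.ABS.fixP (⊤ : Subgroup (L ≃ₐ[K] L))) = (((a : ℝ) * Units.regulator K : ℝ) : ℂ) :=
  _root_.ABS.FRA_thm _root_.ABS.IOT_thm _root_.ABS.LMU_thm _root_.ABS.SPN_thm _root_.ABS.TRE_thm
    _root_.ABS.JN_thm _root_.ABS.JV_thm _root_.ABS.LG_thm _root_.ABS.LJ_thm _root_.ABS.TRF_thm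
    _root_.ABS.MUL_thm _root_.ABS.DTC_thm _root_.ABS.REG1_thm

/-- The trivial character. -/
theorem one : ∀ (K L : Type) [Field K] [NumberField K] [Field L] [NumberField L] [Algebra K L]
    [IsGalois K L] (S : Finset (HeightOneSpectrum (𝓞 K))), PPall 1 (1 : (L ≃ₐ[K] L) →* ℂˣ) S :=
  FRT_thm fra REGI_thm FINFx.zeta
    (fun n K L _ _ _ _ _ _ ψ S v hn hψ hv => PSTEP_thm FIXC_thm SIGT_thm NORMT_thm PRAT_thm n K L
      ψ S v hn hψ hv)

/-- Linear characters of prime power order, all exponents. -/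
theorem pd : ∀ (K L : Type) [Field K] [NumberField K] [Field L] [NumberField L] [Algebra K L]
    [IsGalois K L] (ℓ k : ℕ) (ψ : (L ≃ₐ[K] L) →* ℂˣ) (S : Finset (HeightOneSpectrum (𝓞 K))),
    ℓ.Prime → ℓ ≠ 2 → ψ ^ (ℓ ^ k) = 1 → PPall (ℓ ^ k) ψ S :=
  FPD_thm SIGT_thm NORMT_thm FINFx.concl1 one

/-- Norms from cyclic subfields. -/
theorem en : ∀ (ℓ k m : ℕ) (a : ℚ) (β : StarkP.rootField (ℓ ^ k)) (F : IntermediateField ℚ ℂ),
    ℓ.Prime → ℓ ≠ 2 → 0 < k → 0 < m → a ≠ 0 → Algebra.norm ℚ β = a ^ m →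
    F ≤ StarkP.rootField (ℓ ^ k) → m * Module.finrank ℚ F = (ℓ ^ k).totient →
    ∃ α : F, α ≠ 0 ∧ Algebra.norm ℚ α = a :=
  FEN_thm SCY_thm SNM_thm SPB_thm SH9_thm SKA_thm FPW_thm FKM_thm
    (fun n E hn h => galois_of_le n hn E h)

/-- Theorem (G). -/
theorem crit : ∀ (K L : Type) [Field K] [NumberField K] [Field L] [NumberField L] [Algebra K L]
    [IsGalois K L] (χ : (L ≃ₐ[K] L) → ℂ) (ℓ k m : ℕ)
    (S : Finset (HeightOneSpectrum (𝓞 K))) (Θ : ((L → ℝ) →₀ ℂ) →ₗ[ℂ] ((L → ℝ) →₀ ℂ)),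
    StarkP.IsTheta K (StarkP.aboveSet K L S) Θ → ℓ.Prime → ℓ ≠ 2 → 0 < m →
    m.Coprime (Module.finrank ℚ (StarkP.charField χ)) → PermC (StarkP.trChar χ) →
    MonC (ℓ ^ k) (fun g => (m : ℂ) * χ g) →
    StarkP.NormIn (StarkP.charField χ) χ (S : Set (HeightOneSpectrum (𝓞 K))) Θ :=
  FAS_thm SIGT_thm TRT_thm FCX_thm FCH_thm one pd en

/-- Absolute values. -/
theorem abs : ∀ (K L : Type) [Field K] [NumberField K] [Field L] [NumberField L] [Algebra K L]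
    [IsGalois K L] (χ : (L ≃ₐ[K] L) → ℂ) (n m : ℕ)
    (S : Finset (HeightOneSpectrum (𝓞 K))) (Θ : ((L → ℝ) →₀ ℂ) →ₗ[ℂ] ((L → ℝ) →₀ ℂ)),
    StarkP.IsTheta K (StarkP.aboveSet K L S) Θ → 0 < n → 0 < m →
    MonC n (fun g => (m : ℂ) * χ g) →
    Module.finrank ℚ (StarkP.charField χ) = 2 → (∃ g, (χ g).im ≠ 0) →
    StarkP.NormIn (StarkP.charField χ) χ (S : Set (HeightOneSpectrum (𝓞 K))) Θ →
    StarkP.AbsIn χ (S : Set (HeightOneSpectrum (𝓞 K))) Θ :=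
  FAB_thm REGC_thm

/-- The group theory of corollary (F). -/
theorem fga : ∀ (G V : Type) [Group G] [Fintype G] [AddCommGroup V] [Module ℂ V]
    [Module.Finite ℂ V] (ρ : Representation ℂ G V) (ℓ : ℕ) (U : Subgroup G), SitG ℓ ρ U →
    PermC (StarkP.trChar ρ.character) ∧ ∃ k : ℕ, 0 < k ∧ MonC (ℓ ^ k) ρ.character :=
  FGA_thm SIGT_thm TRT_thm FCL_thm FGB_thm FGT_thm FGM_thm FCH_thm

/-- The representations of degree `3` of `A_5`. -/
theorem a5 : ∀ (G V : Type) [Group G] [Fintype G] [AddCommGroup V] [Module ℂ V]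
    [Module.Finite ℂ V] (ρ : Representation ℂ G V), Nonempty (G ≃* alternatingGroup (Fin 5)) →
    Module.finrank ℂ V = 3 → (¬ ∀ g, ρ g = 1) →
    MonC 5 ρ.character ∧ PermC (StarkP.trChar ρ.character) :=
  FTR_thm FK5_thm FV5_thm FI5_thm FJ5_thm FA5_thm

end FINGx

end StarkC.ABS
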