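import Pool.Agent.ABS.StN3
import Pool.Agent.ABS.NOQ

/-!
# Project ABS, part N2, module MOQ: the induction of Roquette for nilpotent images, `i ∈ ℚ(χ)`
-/

set_option autoImplicit false

open scoped Classical

namespace StarkC.ABS

open StarkC.MON

namespace MOQx

/-- `NIm2` for the stable subspace of RAV -/
theorem nim2_sub {G V : Type} [Group G] [Fintype G] [AddCommGroup V] [Module ℂ V]
    (ρ : Representation ℂ G V) (H : Subgroup G) (W : Submodule ℂ V)
    (hW : ∀ g ∈ H, ∀ v ∈ W, ρ g v ∈ W)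
    (hchi : ρ.character = indL H (sub ρ H W hW).character) (h : NIm2 ρ) :
    NIm2 (sub ρ H W hW) := by
  obtain ⟨⟨n, hn⟩, h2⟩ := h
  refine ⟨⟨n, fun g hg => ?_⟩, fun σ hσ => h2 σ fun g => ?_⟩
  · have h1 : (g : G) ∈ (⊤ : Subgroup G).lowerCentralSeries n := by
      have h3 : (g : G) ∈ ((⊤ : Subgroup H).lowerCentralSeries n).map H.subtype :=
        Subgroup.mem_map_of_mem H.subtype hg
      rw [Subgroup.top_subtype_lowerCentralSeries] at h3
      exact Subgroup.lowerCentralSeries_mono n le_top h3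
    refine LinearMap.ext fun v => Subtype.ext ?_
    change ρ (g : G) (v : V) = (v : V)
    rw [hn _ h1]
    rfl
  · rw [hchi, indL_apply, map_div₀, map_sum, map_natCast]
    congr 1
    refine Finset.sum_congr rfl fun x _ => ?_
    by_cases hx : x⁻¹ * g * x ∈ H
    · rw [dif_pos hx, hσ]
    · rw [dif_neg hx, map_zero]

theorem main (hRAV : Stmt_RAV) (hMEL : ConclMEL) (n : ℕ) : ∀ (G V : Type) [Group G] [Fintype G]
    [AddCommGroup V] [Module ℂ V] [Module.Finite ℂ V] (ρ : Representation ℂ G V),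
    Nat.card G ≤ n → Irr ρ → NIm2 ρ →
    ∃ (H : Subgroup G) (ψ : H →* ℂˣ), ρ.character = indFun H (extZ ψ) ∧
      ∀ σ : ℂ ≃+* ℂ, (∀ g, σ (ρ.character g) = ρ.character g) →
        ∀ h, σ ((ψ h : ℂˣ) : ℂ) = ((ψ h : ℂˣ) : ℂ) := by
  induction n with
  | zero =>
    intro G V _ _ _ _ _ ρ hG
    have : 0 < Nat.card G := Nat.card_pos
    omega
  | succ n ih =>
    intro G V _ _ _ _ _ ρ hcard hirr hN
    by_cases hsc : ∀ g, IsScal ρ g
    · exact NOQx.scal ρ hirr hsc
    · obtain ⟨p, a, z, ζ, hp, ha, hap, hya, hζ, hz⟩ := hMEL G V ρ hirr hN hsc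
      obtain ⟨H, W, hW, l, hHt, hchi, hirrW, ⟨v, hv, hav⟩, hθ⟩ := hRAV G V ρ a hirr ha hya
      have h1 : Nat.card H < Nat.card G := by
        refine lt_of_le_of_ne (Subgroup.card_le_card_group H) ?_
        intro h2
        exact hHt (Subgroup.eq_top_of_card_eq H h2)
      obtain ⟨K, ψ, hK, hfix⟩ := ih H W (sub ρ H W hW) (by omega) hirrW
        (nim2_sub ρ H W hW hchi hN)
      refine ⟨K.map H.subtype, tr K ψ, ?_, ?_⟩
      · rw [hchi, hK, indL_indFun]
      · intro σ hσ h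
        exact hfix σ (ROQ.fix_sub ρ hirr.1 hp.pos hap hζ hz hv hav _ (fun h : H => (h : G)) hθ
          σ hσ) ((K.equivMapOfInjective H.subtype H.subtype_injective).symm h)

end MOQx

/-- **MOQ**: the theorem of Roquette for nilpotent images, `i ∈ ℚ(χ)`. -/
theorem MOQ_thm : Stmt_MOQ := by
  intro hMEL G V _ _ _ _ _ ρ hirr hN
  exact MOQx.main RAV_thm hMEL _ G V ρ le_rfl hirr hN

end StarkC.ABS
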