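import Pool.Agent.ABS.FINU
import Pool.Agent.ABS.NAS
import Pool.Agent.ABS.NPR
import Pool.Agent.ABS.NIN
import Pool.Agent.ABS.NQF
import Pool.Agent.ABS.NRE
import Pool.Agent.ABS.NVQ
import Pool.Agent.ABS.NFX
import Pool.Agent.ABS.NOQ
import Pool.Agent.ABS.NEL
import Pool.Agent.ABS.NSU
import Pool.Agent.ABS.NGP
import Pool.Agent.ABS.NLI
import Pool.Agent.ABS.FAB
import Pool.Agent.ABS.MAS
import Pool.Agent.ABS.MAB
import Pool.Agent.ABS.MAX
import Pool.Agent.ABS.MGP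
import Pool.Agent.ABS.MSG
import Pool.Agent.ABS.MCH
import Pool.Agent.ABS.MEL
import Pool.Agent.ABS.MOQ
import Pool.Agent.ABS.MFX

/-!
# Project ABS, parts N and N2: irreducible characters with nilpotent image
-/

set_option autoImplicit false

open NumberField IsDedekindDomain
open scoped TensorProduct Classical

namespace StarkC.ABS

open StarkP (rootField charField trChar NormIn AbsIn IsTheta)

namespace FINNx

theorem conclNFX : ConclNFX := NFX_thm (NOQ_thm NEL_thm NSU_thm NGP_thm NLI_thm)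

theorem conclPPP : ConclPPP := finalP

theorem conclNIN : ConclNIN := NIN_thm PCX_thm (NVQ_thm FINUx.conclN)

theorem conclFAB : ConclFAB := FAB_thm REGC_thm

theorem conclMFX : ConclMFX :=
  MFX_thm (MOQ_thm (MEL_thm SIGT_thm MSG_thm MCH_thm MAB_thm MAX_thm MGP_thm))

end FINNx

open FINNx

/-- Theorem (N): irreducible characters with nilpotent image whose elements of `2`-power order
commute. -/
theorem finalN (K L : Type) [Field K] [NumberField K] [Field L] [NumberField L] [Algebra K L]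
    [IsGalois K L] (S : Finset (HeightOneSpectrum (𝓞 K)))
    (Θ : ((L → ℝ) →₀ ℂ) →ₗ[ℂ] ((L → ℝ) →₀ ℂ)) (hΘ : IsTheta K (StarkP.aboveSet K L S) Θ)
    (V : Type) [AddCommGroup V] [Module ℂ V] [Module.Finite ℂ V]
    (ρ : Representation ℂ (L ≃ₐ[K] L) V) (hirr : ρ.IsIrreducible)
    (hnil : Group.IsNilpotent ((L ≃ₐ[K] L) ⧸ MonoidHom.ker ρ))
    (h2 : ∀ a b : L ≃ₐ[K] L, (∃ j : ℕ, a ^ (2 ^ j) = 1) → (∃ j : ℕ, b ^ (2 ^ j) = 1) →
      ρ (a * b) = ρ (b * a)) :
    (∀ E : IntermediateField ℚ ℂ, E ≤ charField ρ.character → IsCyclic (E ≃ₐ[ℚ] E) →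
      NormIn E ρ.character (S : Set (HeightOneSpectrum (𝓞 K))) Θ) ∧
    (∀ q : ℕ, IsPrimePow q → charField ρ.character = rootField q →
      NormIn (charField ρ.character) ρ.character (S : Set (HeightOneSpectrum (𝓞 K))) Θ) ∧
    (Module.finrank ℚ (charField ρ.character) = 2 →
      AbsIn ρ.character (S : Set (HeightOneSpectrum (𝓞 K))) Θ) :=
  NAS_thm conclNFX NPR_thm CFR_thm SIGT_thm TRT_thm TRX_thm conclPPP conclNIN NQF_thm NRE_thm
    conclFAB K L S Θ hΘ V ρ hirr hnil h2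

/-- Theorem (N2): irreducible characters with nilpotent image and `i ∈ ℚ(χ)`. -/
theorem finalN2 (K L : Type) [Field K] [NumberField K] [Field L] [NumberField L] [Algebra K L]
    [IsGalois K L] (S : Finset (HeightOneSpectrum (𝓞 K)))
    (Θ : ((L → ℝ) →₀ ℂ) →ₗ[ℂ] ((L → ℝ) →₀ ℂ)) (hΘ : IsTheta K (StarkP.aboveSet K L S) Θ)
    (V : Type) [AddCommGroup V] [Module ℂ V] [Module.Finite ℂ V]
    (ρ : Representation ℂ (L ≃ₐ[K] L) V) (hirr : ρ.IsIrreducible)
    (hnil : Group.IsNilpotent ((L ≃ₐ[K] L) ⧸ MonoidHom.ker ρ))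
    (hI : Complex.I ∈ charField ρ.character) :
    (∀ E : IntermediateField ℚ ℂ, E ≤ charField ρ.character → IsCyclic (E ≃ₐ[ℚ] E) →
      NormIn E ρ.character (S : Set (HeightOneSpectrum (𝓞 K))) Θ) ∧
    (∀ q : ℕ, IsPrimePow q → charField ρ.character = rootField q →
      NormIn (charField ρ.character) ρ.character (S : Set (HeightOneSpectrum (𝓞 K))) Θ) ∧
    (Module.finrank ℚ (charField ρ.character) = 2 →
      AbsIn ρ.character (S : Set (HeightOneSpectrum (𝓞 K))) Θ) :=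
  MAS_thm conclMFX NPR_thm CFR_thm SIGT_thm TRT_thm TRX_thm conclPPP conclNIN NQF_thm NRE_thm
    conclFAB K L S Θ hΘ V ρ hirr hnil hI

/-- Theorems (N) and (N2) together. -/
theorem finalNN (K L : Type) [Field K] [NumberField K] [Field L] [NumberField L] [Algebra K L]
    [IsGalois K L] (S : Finset (HeightOneSpectrum (𝓞 K)))
    (Θ : ((L → ℝ) →₀ ℂ) →ₗ[ℂ] ((L → ℝ) →₀ ℂ)) (hΘ : IsTheta K (StarkP.aboveSet K L S) Θ)
    (V : Type) [AddCommGroup V] [Module ℂ V] [Module.Finite ℂ V]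
    (ρ : Representation ℂ (L ≃ₐ[K] L) V) (hirr : ρ.IsIrreducible)
    (hnil : Group.IsNilpotent ((L ≃ₐ[K] L) ⧸ MonoidHom.ker ρ))
    (h : (∀ a b : L ≃ₐ[K] L, (∃ j : ℕ, a ^ (2 ^ j) = 1) → (∃ j : ℕ, b ^ (2 ^ j) = 1) →
      ρ (a * b) = ρ (b * a)) ∨ Complex.I ∈ charField ρ.character) :
    (∀ E : IntermediateField ℚ ℂ, E ≤ charField ρ.character → IsCyclic (E ≃ₐ[ℚ] E) →
      NormIn E ρ.character (S : Set (HeightOneSpectrum (𝓞 K))) Θ) ∧
    (∀ q : ℕ, IsPrimePow q → charField ρ.character = rootField q →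
      NormIn (charField ρ.character) ρ.character (S : Set (HeightOneSpectrum (𝓞 K))) Θ) ∧
    (Module.finrank ℚ (charField ρ.character) = 2 →
      AbsIn ρ.character (S : Set (HeightOneSpectrum (𝓞 K))) Θ) := by
  rcases h with h | h
  · exact finalN K L S Θ hΘ V ρ hirr hnil h
  · exact finalN2 K L S Θ hΘ V ρ hirr hnil h

end StarkC.ABS
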