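import Pool.Agent.ABS.PDefsY

/-!
# Definitions for the statement about one `φ`: realizable characters
-/

open NumberField IsDedekindDomain

namespace StarkP

/-- `χ` is the character of a matrix representation with entries in `ℚ(χ)` (Schur index one over
`ℚ(χ)`, if `χ` is irreducible). -/
def Realizable {G : Type} [Group G] (χ : G → ℂ) : Prop :=
  ∃ (d : ℕ) (R : G →* Matrix (Fin d) (Fin d) ℂ),
    (∀ g i j, R g i j ∈ charField χ) ∧ ∀ g, (R g).trace = χ g

end StarkP
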