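import Pool.Agent.ABS.StY
import Pool.Agent.ABS.PDefsR

/-!
# Project ABS (MP_46b841_nt), part Z: Stark in norm makes all class number formulas exact

THEOREM (Z).  `L/K` any finite Galois extension of number fields, `G` its group, `S` finite.  There is
ONE `ℚ[G]`-isomorphism `φ` with `R_S(θ, φ) = L_S^*(0, θ)` for every rational-valued character `θ` of `G`
all of whose irreducible constituents `χ` satisfy: (a) `r_S(χ) ≥ 1` (`Hom_G(V_χ^*, ℂ ⊗ X) ≠ 0`), (b) `χ` can be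
realized over `ℚ(χ)`, (c) Stark in norm holds for `χ`: `A_S(Tr χ, φ') = N(α)`, `α ∈ ℚ(χ)^*`, for one `φ'`.
(By (N), (N2), (P), ... (c) is a theorem for large classes of characters.)  Conversely an exact `φ` gives
(c) with `α = 1`.

PROOF.  (c) does not depend on `φ'` (ZIN).  Let `𝒳` be the finite set of all irreducible characters which
satisfy (a), (b), (c) together with their conjugates, `a : 𝒳 → ℂ^*` with `σ(a_χ) = a_(σχ)` and
`∏_(χ' ∈ class of χ) a_(χ') = N(α_χ)⁻¹` (ZRR, ZTN, ZAF).  There is a `ℚ[G]`-automorphism `ξ` of `ℚ ⊗ X` whose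
determinant on `Hom_G(V_χ^*, ℂ ⊗ X)` is `a_χ` for all `χ ∈ 𝒳`:  in a rational basis of `ℂ ⊗ X` (matrices `B g`
of the action) there is for every `η = χ(g⁻¹)` an idempotent matrix `e_η` with entries in `ℚ(η)` which
commutes with all `B g` and has `tr(e_η B g) = η(g)` (ZPR), `σ(e_η) = e_(ση)` (ZEQ),
`ξ = 1 + ∑_η (a_η - 1) e_η` is rational (ZRT); for an irreducible `κ` with character `η` and
`f ∈ Hom_G(κ, ℂ ⊗ X)`: `e_η f = λ(f) i₀`, `λ(i₀) = 1`, and `e_η' f = 0` for `η' ≠ η` (ZHM), so `f ↦ ξ f` is a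
transvection with determinant `a_η` (ZRG).  `φ = φ₀ ∘ ξ`.

Module `Z` proves `theorem StarkC.ABS.Z_thm : Stmt_Z` in the file `Pool/Agent/ABS/Z.lean` (import
`Pool.Agent.ABS.StZ` and finished modules of ABS if you like); helper lemmas in
`namespace StarkC.ABS.Zx`.  The statements used are hypotheses inside `Stmt_Z`.
-/

set_option autoImplicit false

open NumberField IsDedekindDomain
open scoped TensorProduct Classical

namespace StarkC.ABS

open StarkP (charField trChar Realizable OccursIn)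

/-- The conjugate function. -/
def gcj {G : Type} (σ : ℂ ≃+* ℂ) (χ : G → ℂ) : G → ℂ := fun g => σ (χ g)

/-- `χ` is the character of an irreducible representation. -/
def IrrCh {G : Type} [Group G] (χ : G → ℂ) : Prop :=
  ∃ (W : Type) (_ : AddCommGroup W) (_ : Module ℂ W) (_ : Module.Finite ℂ W)
    (κ : Representation ℂ G W), κ.IsIrreducible ∧ κ.character = χ

/-- Stable under conjugation. -/
def Stb {G : Type} (X : Finset (G → ℂ)) : Prop := ∀ χ ∈ X, ∀ σ : ℂ ≃+* ℂ, gcj σ χ ∈ X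

/-- `r` chooses a representative in every class of conjugate functions of `X`. -/
def RepC {G : Type} (X : Finset (G → ℂ)) (r : (G → ℂ) → (G → ℂ)) : Prop :=
  ∀ χ ∈ X, r χ ∈ X ∧ (∃ σ : ℂ ≃+* ℂ, gcj σ (r χ) = χ) ∧ ∀ σ : ℂ ≃+* ℂ, r (gcj σ χ) = r χ

/-! ### Characters -/

/-- ZDU (about 70 lines).  `ρ.dual.character g = ρ.character g⁻¹` is `Representation.char_dual`.  The dual of an
irreducible representation is irreducible: a stable subspace `U` of the dual has the stable common kernel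
`{v | ∀ α ∈ U, α v = 0}`, which is `⊥` or `⊤` (`RESFx.irr_of` in `ABS/RESF.lean` gives the subspace form;
for the converse direction see the constructor of `Representation.IsIrreducible`), and
`U = ⊤` or `⊥` by finite dimension (`Submodule.dualAnnihilator`, `dualCoannihilator`). -/
def Stmt_ZDU : Prop :=
  ∀ (G V : Type) [Group G] [Fintype G] [AddCommGroup V] [Module ℂ V] [Module.Finite ℂ V]
    (ρ : Representation ℂ G V), ρ.IsIrreducible →
    ρ.dual.IsIrreducible ∧ ρ.dual.character = fun g => ρ.character g⁻¹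

/-- ZFS (about 90 lines).  There are finitely many irreducible characters.  Different ones satisfy
`ip χ χ' = 0` (`Representation.char_orthonormal`, `char_iso`), and `ip χ χ = |G| ≠ 0`, so a finite set of
them is linearly independent in `G → ℂ`, which has dimension `|G|`; a set all of whose finite subsets
have at most `|G|` elements is finite (`Set.infinite...exists_subset_card_eq`). -/
def Stmt_ZFS : Prop :=
  ∀ (G : Type) [Group G] [Fintype G], {χ : G → ℂ | IrrCh χ}.Finite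

/-- ZCJ (about 110 lines).  The conjugate of an irreducible character which is realized over
`ℚ(χ)`.  `R^σ g` has the entries `σ (R g i j)` (in `charField (gcj σ χ)`: `IntermediateField.adjoin_induction`)
and trace `σ (χ g)`; `κ` = the representation on `Fin d → ℂ` (`Matrix.toLin'` or `mulVecLin`).
`ip (gcj σ χ) (gcj σ χ) = σ (ip χ χ) = |G|`.  YDE: `κ.character = ∑_(i < m) χ_i`, irreducible, so
`|G| = ∑_(i,j) ip χ_i χ_j ≥ m |G|` (every term is `0` or `|G|`), and `m ≠ 0`; so `m = 1` and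
`gcj σ χ = χ_0`. -/
def Stmt_ZCJ : Prop :=
  Stmt_YDE → ∀ (G : Type) [Group G] [Fintype G] (χ : G → ℂ), IrrCh χ → Realizable χ →
    ∀ σ : ℂ ≃+* ℂ, IrrCh (gcj σ χ) ∧ Realizable (gcj σ χ)

/-- ZRR (about 40 lines).  Representatives: `χ ~ χ'` if `χ' = gcj σ χ` for some `σ` is an equivalence relation
on all functions; `Quotient.out` gives a representative `s χ` of the class, which is in `X` if `χ` is
(stability). -/
def Stmt_ZRR : Prop :=
  ∀ (G : Type) (X : Finset (G → ℂ)), Stb X → ∃ r : (G → ℂ) → (G → ℂ), RepC X r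

/-- ZTN (about 140 lines).  The embeddings of `F = charField χ` into `ℂ` correspond to the functions
conjugate to `χ` (`φ ↦ φ ∘ χ`, injective because the values of `χ` generate `F`; every embedding is the
restriction of an automorphism of `ℂ`: `StarkAlg.AutF.exists_extend` or `IsAlgClosed.lift`-like, see
`ABS/SIGT.lean`, `ABS/CFR.lean`).  `F` has finite degree: `charField_le` in `ABS/FINV.lean`
(`n = |G|`).  `Algebra.trace_eq_sum_embeddings`, `Algebra.norm_eq_prod_embeddings` (models: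
`ABS/TRT.lean`, `ABS/NORMT.lean`). -/
def Stmt_ZTN : Prop :=
  ∀ (G : Type) [Group G] [Fintype G] (X : Finset (G → ℂ)) (r : (G → ℂ) → (G → ℂ)) (χ : G → ℂ),
    Stb X → RepC X r → χ ∈ X → r χ = χ → IrrCh χ →
    (∀ g, trChar χ g = ∑ χ' ∈ X.filter (fun χ' => r χ' = χ), χ' g) ∧
    ∀ s : (G → ℂ) → (ℂ ≃+* ℂ), (∀ χ' ∈ X, r χ' = χ → gcj (s χ') χ = χ') →
      ∀ β : charField χ, ∏ χ' ∈ X.filter (fun χ' => r χ' = χ), s χ' (β : ℂ) =
        ((Algebra.norm ℚ β : ℚ) : ℂ)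

/-- ZAF (about 80 lines; model: `ABS/YFA.lean`).  For `χ ∈ X` choose `s χ` with `gcj (s χ) (r χ) = χ`,
`a χ = s χ (α (r χ))`; automorphisms with the same `gcj _ (r χ)` agree on `charField (r χ)`; the
product by ZTN. -/
def Stmt_ZAF : Prop :=
  Stmt_ZTN →
  ∀ (G : Type) [Group G] [Fintype G] (X : Finset (G → ℂ)) (r : (G → ℂ) → (G → ℂ))
    (α : (G → ℂ) → ℂ), Stb X → RepC X r → (∀ χ ∈ X, IrrCh χ) → (∀ χ ∈ X, α χ ∈ charField χ) →
    (∀ χ ∈ X, α χ ≠ 0) →
    ∃ a : (G → ℂ) → ℂ, (∀ χ ∈ X, a χ ≠ 0) ∧ (∀ (σ : ℂ ≃+* ℂ), ∀ χ ∈ X, σ (a χ) = a (gcj σ χ)) ∧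
      ∀ χ ∈ X, r χ = χ → ∀ β : charField χ, (β : ℂ) = α χ →
        ∏ χ' ∈ X.filter (fun χ' => r χ' = χ), a χ' = ((Algebra.norm ℚ β : ℚ) : ℂ)

/-- ZDC (about 90 lines; model: `ABS/YRO.lean`).  YDE; `n χ` = the number of the `i` with `χ i = χ`;
`n χ |G| = ip ρ.character χ'` with `χ' = χ` (orthogonality of irreducible characters, all functions in
question are irreducible characters), so `n (gcj σ χ) = n χ`, as `σ` fixes `ρ.character`. -/
def Stmt_ZDC : Prop :=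
  Stmt_YDE →
  ∀ (G V : Type) [Group G] [Fintype G] [AddCommGroup V] [Module ℂ V] [Module.Finite ℂ V]
    (ρ : Representation ℂ G V) (X : Finset (G → ℂ)), Stb X → (∀ χ ∈ X, IrrCh χ) →
    (∀ g, ∃ q : ℚ, ρ.character g = (q : ℂ)) → (∀ χ, IsCon ρ χ → χ ∈ X) →
    ∃ c : (G → ℂ) → ℕ, (∀ χ, c χ ≠ 0 → χ ∈ X ∧ IsCon ρ χ) ∧
      (∀ (σ : ℂ ≃+* ℂ), ∀ χ ∈ X, c (gcj σ χ) = c χ) ∧
      ∀ g, ρ.character g = ∑ χ ∈ X, (c χ : ℂ) * χ g

/-- ZSU (about 70 lines).  A representation with the sum of the characters: the space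
`∀ i, V' i` with the componentwise action (`LinearMap.pi`; the trace of a block diagonal map:
`LinearMap.trace_eq_sum_trace_restrict` or induction on `m` with `LinearMap.trace_prodMap`, or a basis
`Pi.basis`). -/
def Stmt_ZSU : Prop :=
  ∀ (G : Type) [Group G] (m : ℕ) (V' : Fin m → Type) [∀ i, AddCommGroup (V' i)]
    [∀ i, Module ℂ (V' i)] [∀ i, Module.Finite ℂ (V' i)] (ρ' : ∀ i, Representation ℂ G (V' i)),
    ∃ (V : Type) (_ : AddCommGroup V) (_ : Module ℂ V) (_ : Module.Finite ℂ V)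
      (ρ : Representation ℂ G V), ∀ g, ρ.character g = ∑ i, (ρ' i).character g

/-! ### The automorphism -/

/-- The complex matrices of the action. -/
noncomputable def BC {G : Type} [Group G] {n : ℕ} (B : G →* Matrix (Fin n) (Fin n) ℚ) (g : G) :
    Matrix (Fin n) (Fin n) ℂ := (B g).map (algebraMap ℚ ℂ)

/-- `e` is an equivariant idempotent whose image has character `η`. -/
def Pj {G : Type} [Group G] {n : ℕ} (B : G →* Matrix (Fin n) (Fin n) ℚ) (η : G → ℂ)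
    (e : Matrix (Fin n) (Fin n) ℂ) : Prop :=
  e * e = e ∧ (∀ g, e * BC B g = BC B g * e) ∧ ∀ g, (e * BC B g).trace = η g

/-- `f` is an intertwining map. -/
def Itw {G W : Type} [Group G] [AddCommGroup W] [Module ℂ W] {n : ℕ}
    (B : G →* Matrix (Fin n) (Fin n) ℚ) (κ : Representation ℂ G W) (f : W →ₗ[ℂ] (Fin n → ℂ)) : Prop :=
  ∀ g w, f (κ g w) = (BC B g).mulVec (f w)

/-- ZPR (about 200 lines).  `R` from `Realizable η`, `F = charField η`, `d` its size.  The representation `κ'` on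
`Fin d → ℂ` given by `R` has character `η`, so (`ip η η = |G|`, YDE as in ZCJ, or
`card_inv_mul_sum_char_mul_char_eq_finrank`: the space of intertwining maps between `κ` and
`κ'` has dimension one) it is isomorphic to `κ`; so there is a matrix `Z ≠ 0` (`n × d`) with
`BC B g * Z = Z * R g`.  For an `n × d` matrix `E` let `A(E) = ∑_g BC B g * E * R g⁻¹`: an intertwining matrix,
`A(Z) = |G| Z ≠ 0`, `A` is linear, so `A(E) ≠ 0` for some matrix unit `E`; `i = A(E)` has entries in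
`F`.  `i a b ≠ 0` for some `a`, `b`; `E'` = the `d × n` matrix unit at `(b, a)`,
`p = ∑_g R g * E' * BC B g⁻¹`: `tr(p i) = |G| tr(E' i) = |G| i a b ≠ 0`, and `p i` commutes with all `R g`, so
`p i = β 1` (Schur: intertwining maps of `κ'` form a space of dimension one), `β ∈ F`, `β ≠ 0`.
`e = β⁻¹ i p`: `tr(e BC B g) = β⁻¹ tr(p BC B g i) = β⁻¹ tr(p i R g) = tr(R g) = η g`. -/
def Stmt_ZPR : Prop :=
  ∀ (G : Type) [Group G] [Fintype G] (n : ℕ) (B : G →* Matrix (Fin n) (Fin n) ℚ) (η : G → ℂ)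
    (W : Type) [AddCommGroup W] [Module ℂ W] [Module.Finite ℂ W] (κ : Representation ℂ G W)
    (f : W →ₗ[ℂ] (Fin n → ℂ)), κ.IsIrreducible → κ.character = η → Itw B κ f → f ≠ 0 →
    Realizable η →
    ∃ e : Matrix (Fin n) (Fin n) ℂ, Pj B η e ∧ ∀ i j, e i j ∈ charField η

/-- ZEQ (about 100 lines).  `E χ = (e (r χ)).map (s χ)`, where `e` is chosen for the representatives and
`gcj (s χ) (r χ) = χ`; two automorphisms with the same `gcj _ (r χ)` agree on `charField (r χ)`, so on the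
entries of `e (r χ)`; the conditions `Pj` are preserved (`BC B g` is rational). -/
def Stmt_ZEQ : Prop :=
  ∀ (G : Type) [Group G] [Fintype G] (n : ℕ) (B : G →* Matrix (Fin n) (Fin n) ℚ)
    (Y : Finset (G → ℂ)) (r : (G → ℂ) → (G → ℂ)), Stb Y → RepC Y r →
    (∀ η ∈ Y, ∃ e : Matrix (Fin n) (Fin n) ℂ, Pj B η e ∧ ∀ i j, e i j ∈ charField η) →
    ∃ E : (G → ℂ) → Matrix (Fin n) (Fin n) ℂ, (∀ η ∈ Y, Pj B η (E η)) ∧
      ∀ (σ : ℂ ≃+* ℂ), ∀ η ∈ Y, (E η).map σ = E (gcj σ η)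

/-- ZRT (about 80 lines; model: `ABS/YFO.lean`).  The entries of `1 + ∑_η (a η - 1) E η` are fixed by all
`σ` (`η ↦ gcj σ η` is a bijection of `Y`), so rational (FIXC for `n = 1`); `ξ` commutes with `B g` because
its complex matrix commutes with `BC B g` and `ℚ → ℂ` is injective. -/
def Stmt_ZRT : Prop :=
  Stmt_FIXC →
  ∀ (G : Type) [Group G] [Fintype G] (n : ℕ) (B : G →* Matrix (Fin n) (Fin n) ℚ)
    (Y : Finset (G → ℂ)) (E : (G → ℂ) → Matrix (Fin n) (Fin n) ℂ) (a : (G → ℂ) → ℂ), Stb Y →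
    (∀ η ∈ Y, Pj B η (E η)) → (∀ (σ : ℂ ≃+* ℂ), ∀ η ∈ Y, (E η).map σ = E (gcj σ η)) →
    (∀ (σ : ℂ ≃+* ℂ), ∀ η ∈ Y, σ (a η) = a (gcj σ η)) →
    ∃ ξ : Matrix (Fin n) (Fin n) ℚ, (∀ g, ξ * B g = B g * ξ) ∧
      ξ.map (algebraMap ℚ ℂ) = 1 + ∑ η ∈ Y, (a η - 1) • E η

/-- ZHM (about 150 lines).  `U` = the range of `e` (`Matrix.toLin'`), stable under `BC B g`; the representation of
`G` on `U` has character `tr(e BC B g) = η g` (the trace of an endomorphism with range in `U` is the trace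
of its restriction to `U`: `LinearMap.trace_restrict_eq_of_forall_mem` or similar, `e` is the
identity on `U`).  `w ↦ e f(w)` is an intertwining map `W → U`; the space of these maps has dimension
`|G|⁻¹ ∑_g η(g) κ.character(g⁻¹)` (`Representation.card_inv_mul_sum_char_mul_char_eq_finrank`), which is
`0` if `κ.character ≠ η` (`η` is an irreducible character: `char_orthonormal`, `char_iso`) and `1` if they are
equal.  In the second case let `i₀` be a nonzero intertwining map `W → U`; `i₀ w₀` has a coordinate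
`k` which is not zero; `l f = (e f(w₀))_k / (i₀ w₀)_k`. -/
def Stmt_ZHM : Prop :=
  ∀ (G : Type) [Group G] [Fintype G] (n : ℕ) (B : G →* Matrix (Fin n) (Fin n) ℚ) (η : G → ℂ)
    (e : Matrix (Fin n) (Fin n) ℂ) (W : Type) [AddCommGroup W] [Module ℂ W] [Module.Finite ℂ W]
    (κ : Representation ℂ G W), Pj B η e → IrrCh η → κ.IsIrreducible →
    (κ.character ≠ η → ∀ f, Itw B κ f → ∀ w, e.mulVec (f w) = 0) ∧
    (κ.character = η → ∃ (i₀ : W →ₗ[ℂ] (Fin n → ℂ)) (l : (W →ₗ[ℂ] (Fin n → ℂ)) →ₗ[ℂ] ℂ),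
      Itw B κ i₀ ∧ l i₀ = 1 ∧ ∀ f, Itw B κ f → ∀ w, e.mulVec (f w) = l f • i₀ w)

/-- ZBI (about 100 lines).  `A = 1 + ∑ (a η - 1) E η` commutes with the action, so the kernel of `A` is
stable; if it is not zero it contains an irreducible subrepresentation (YDE for the representation on the
kernel: `m ≠ 0` as the dimension, the value of the character at `1`, is not zero): an irreducible `κ` and
an injective intertwining `f` with `A f = 0`.  ZHM: if the character of `κ` is not in `Y` then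
`A f = f`; if it is `η ∈ Y` then `0 = f + (a η - 1) l(f) i₀`; apply `l`: `a η l(f) = 0`, `l f = 0`, `f = 0`.  In both
cases `f = 0`, a contradiction. -/
def Stmt_ZBI : Prop :=
  Stmt_YDE → Stmt_ZHM →
  ∀ (G : Type) [Group G] [Fintype G] (n : ℕ) (B : G →* Matrix (Fin n) (Fin n) ℚ)
    (Y : Finset (G → ℂ)) (E : (G → ℂ) → Matrix (Fin n) (Fin n) ℂ) (a : (G → ℂ) → ℂ),
    (∀ η ∈ Y, IrrCh η ∧ Pj B η (E η) ∧ a η ≠ 0) →
    (1 + ∑ η ∈ Y, (a η - 1) • E η : Matrix (Fin n) (Fin n) ℂ).det ≠ 0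

/-! ### Regulators -/

/-- ZRG (about 70 lines).  On `homG T ρ` the map `f ↦ A ∘ f` is the transvection of `l` and `i₀`:
`LinearMap.transvection.det`; `homG T ρ` has finite dimension (`XRAT_thm` for `XC`; see
`ABS/XRG.lean`).  The condition in `Reg`: `PHIR.hom_stable`. -/
def Stmt_ZRG : Prop :=
  ∀ (K L : Type) [Field K] [NumberField K] [Field L] [NumberField L] [Algebra K L]
    (T : Set (HeightOneSpectrum (𝓞 L))) (hT : StableT K T) (V : Type) [AddCommGroup V] [Module ℂ V]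
    [Module.Finite ℂ V] (ρ : Representation ℂ (L ≃ₐ[K] L) V) (A : XC L T →ₗ[ℂ] XC L T)
    (i₀ : Module.Dual ℂ V →ₗ[ℂ] XC L T) (l : (Module.Dual ℂ V →ₗ[ℂ] XC L T) →ₗ[ℂ] ℂ), T.Finite →
    (∀ g : L ≃ₐ[K] L, A ∘ₗ repX K T hT g = repX K T hT g ∘ₗ A) → i₀ ∈ homG T ρ →
    (∀ f ∈ homG T ρ, A ∘ₗ f = f + l f • i₀) → Reg T ρ A = 1 + l i₀

/-- ZRS (about 70 lines; model: `LASTx.reg_sum` in `ABS/LAST.lean`).  `TRD_thm`, `ALLT.rgt`. -/
def Stmt_ZRS : Prop :=
  ∀ (K L : Type) [Field K] [NumberField K] [Field L] [NumberField L] [Algebra K L]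
    (T : Set (HeightOneSpectrum (𝓞 L))) (hT : StableT K T) (A : XC L T →ₗ[ℂ] XC L T)
    (V : Type) [AddCommGroup V] [Module ℂ V] [Module.Finite ℂ V]
    (ρ : Representation ℂ (L ≃ₐ[K] L) V) (m : ℕ) (V' : Fin m → Type) [∀ i, AddCommGroup (V' i)]
    [∀ i, Module ℂ (V' i)] [∀ i, Module.Finite ℂ (V' i)]
    (ρ' : ∀ i, Representation ℂ (L ≃ₐ[K] L) (V' i)) (c : Fin m → ℕ), T.Finite →
    (∀ g : L ≃ₐ[K] L, A ∘ₗ repX K T hT g = repX K T hT g ∘ₗ A) → Function.Bijective A →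
    (∀ g, ρ.character g = ∑ i, (c i : ℂ) * (ρ' i).character g) →
    Reg T ρ A = ∏ i, Reg T (ρ' i) A ^ c i

/-- ZLF (about 70 lines; the first half of `ABS/PCX.lean`).  `F z = ∏ F_i z ^ c i`: `IND.logL_sum`,
`INDT.lead_comb`. -/
def Stmt_ZLF : Prop :=
  ∀ (K L : Type) [Field K] [NumberField K] [Field L] [NumberField L] [Algebra K L] [IsGalois K L]
    (S : Set (HeightOneSpectrum (𝓞 K))) (m : ℕ) (χ : Fin m → (L ≃ₐ[K] L) → ℂ) (F : Fin m → ℂ → ℂ)
    (c : Fin m → ℕ) (θ : (L ≃ₐ[K] L) → ℂ), (∀ i, IsArtinL (χ i) S (F i)) →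
    (∀ g, θ g = ∑ i, (c i : ℂ) * χ i g) →
    ∃ f : ℂ → ℂ, IsArtinL θ S f ∧
      meromorphicTrailingCoeffAt f 0 = ∏ i, meromorphicTrailingCoeffAt (F i) 0 ^ c i

/-- ZIN (about 130 lines).  Stark in norm does not depend on `φ`.  `StarkB.exists_isPhiTheta` for both.
`ρ` irreducible with character `χ`; `PHIR_thm` with `σ = 1` and with every `σ`: `x = Reg ρ Θ₂ / Reg ρ Θ₁`
satisfies `Reg ρ_σ Θ₂ = σ(x) Reg ρ_σ Θ₁` for every representation `ρ_σ` with character `gcj σ χ` (it exists: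
ZCJ); `σ(x) = x` if `gcj σ χ = χ`, so `x ∈ charField χ` (`FIXCx.core` in `ABS/FIXC.lean`: a number fixed by
`Aut(ℂ/F)` is in `F`; model `ABS/CFR.lean`).  A representation with character `trChar χ` has the
regulator `∏ Reg ρ_(χ')` over the class (ZTN, ZRS), so it changes by `∏ s_(χ')(x) = N(x)` (ZTN).  `X` = the class of
`χ` (a finite stable set: the conjugates are irreducible characters, ZFS), `r` constant on it. -/
def Stmt_ZIN : Prop :=
  Stmt_FIXC → Stmt_YDE → Stmt_ZFS → Stmt_ZCJ → Stmt_ZTN → Stmt_ZRS →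
  ∀ (K L : Type) [Field K] [NumberField K] [Field L] [NumberField L] [Algebra K L] [IsGalois K L]
    (S : Finset (HeightOneSpectrum (𝓞 K))) (χ : (L ≃ₐ[K] L) → ℂ)
    (Θ₁ Θ₂ : ((L → ℝ) →₀ ℂ) →ₗ[ℂ] ((L → ℝ) →₀ ℂ)), IrrCh χ → Realizable χ →
    StarkP.IsTheta K (StarkP.aboveSet K L S) Θ₁ → StarkP.IsTheta K (StarkP.aboveSet K L S) Θ₂ →
    StarkP.NormIn (charField χ) χ (S : Set (HeightOneSpectrum (𝓞 K))) Θ₁ →
    StarkP.NormIn (charField χ) χ (S : Set (HeightOneSpectrum (𝓞 K))) Θ₂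

/-- The conclusion of ZPA. -/
def ConclZA : Prop :=
  ∀ (K L : Type) [Field K] [NumberField K] [Field L] [NumberField L] [Algebra K L] [IsGalois K L]
    (S : Finset (HeightOneSpectrum (𝓞 K)))
    (hT : StableT K (aboveSet K L (S : Set (HeightOneSpectrum (𝓞 K))))),
    ∃ (n : ℕ) (c : Module.Basis (Fin n) ℂ (XC L (aboveSet K L S)))
      (B : (L ≃ₐ[K] L) →* Matrix (Fin n) (Fin n) ℚ),
      (∀ (g : L ≃ₐ[K] L) (x : XC L (aboveSet K L S)),
        c.equivFun (repX K (aboveSet K L S) hT g x) = (BC B g).mulVec (c.equivFun x)) ∧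
      ∀ (φ : XQ L (aboveSet K L S) ≃ₗ[ℚ] QU L (aboveSet K L S))
        (Θ : XC L (aboveSet K L S) →ₗ[ℂ] XC L (aboveSet K L S)) (ξ : Matrix (Fin n) (Fin n) ℚ),
        IsPhiTheta K (aboveSet K L S) φ Θ → (∀ g, ξ * B g = B g * ξ) → ξ.det ≠ 0 →
        ∃ (φ₁ : XQ L (aboveSet K L S) ≃ₗ[ℚ] QU L (aboveSet K L S))
          (Θ₁ A : XC L (aboveSet K L S) →ₗ[ℂ] XC L (aboveSet K L S)),
          IsPhiTheta K (aboveSet K L S) φ₁ Θ₁ ∧ Θ₁ = Θ ∘ₗ A ∧ Function.Bijective A ∧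
          (∀ g : L ≃ₐ[K] L,
            A ∘ₗ repX K (aboveSet K L S) hT g = repX K (aboveSet K L S) hT g ∘ₗ A) ∧
          ∀ x, c.equivFun (A x) = (ξ.map (algebraMap ℚ ℂ)).mulVec (c.equivFun x)

/-- ZPA (about 150 lines; model: `ABS/XPH.lean`).  `b`, `c` from `XRAT_thm`; `B g` = the matrix of
`repQ` (`Stark/INFL.lean`) in the basis `b` (`LinearMap.toMatrixAlgEquiv b` as a monoid
homomorphism); it is the matrix of `repX g` in `c` because `j (b i) = c i`, `j x` = `x` with complex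
coefficients.  `ξ` gives the automorphism of `XQ` with this matrix in `b`, `A` has the matrix of `ξ` in `c`,
`φ₁ = ξ ≪≫ φ`, `Θ₁ = Θ ∘ A`. -/
def Stmt_ZPA : Prop := ConclZA

/-- The conclusion of ZPB. -/
def ConclZB : Prop :=
  ∀ (K L : Type) [Field K] [NumberField K] [Field L] [NumberField L] [Algebra K L] [IsGalois K L]
    (S : Finset (HeightOneSpectrum (𝓞 K)))
    (φ : XQ L (aboveSet K L S) ≃ₗ[ℚ] QU L (aboveSet K L S))
    (Θ : XC L (aboveSet K L S) →ₗ[ℂ] XC L (aboveSet K L S))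
    (hT : StableT K (aboveSet K L (S : Set (HeightOneSpectrum (𝓞 K)))))
    (X : Finset ((L ≃ₐ[K] L) → ℂ)) (a : ((L ≃ₐ[K] L) → ℂ) → ℂ),
    IsPhiTheta K (aboveSet K L S) φ Θ → Stb X → (∀ χ ∈ X, Realizable χ) → (∀ χ ∈ X, a χ ≠ 0) →
    (∀ (σ : ℂ ≃+* ℂ), ∀ χ ∈ X, σ (a χ) = a (gcj σ χ)) →
    (∀ χ ∈ X, ∃ (V : Type) (_ : AddCommGroup V) (_ : Module ℂ V) (_ : Module.Finite ℂ V)
      (ρ : Representation ℂ (L ≃ₐ[K] L) V), ρ.IsIrreducible ∧ ρ.character = χ ∧
        OccursIn (aboveSet K L S) ρ) →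
    ∃ (φ₁ : XQ L (aboveSet K L S) ≃ₗ[ℚ] QU L (aboveSet K L S))
      (Θ₁ A : XC L (aboveSet K L S) →ₗ[ℂ] XC L (aboveSet K L S)),
      IsPhiTheta K (aboveSet K L S) φ₁ Θ₁ ∧ Θ₁ = Θ ∘ₗ A ∧ Function.Bijective A ∧
      (∀ g : L ≃ₐ[K] L, A ∘ₗ repX K (aboveSet K L S) hT g = repX K (aboveSet K L S) hT g ∘ₗ A) ∧
      ∀ (V : Type) [AddCommGroup V] [Module ℂ V] [Module.Finite ℂ V]
        (ρ : Representation ℂ (L ≃ₐ[K] L) V), ρ.IsIrreducible → ρ.character ∈ X →
        Reg (aboveSet K L S) ρ A = a ρ.character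

/-- ZPB (about 200 lines).  `c`, `B` from ConclZA.  `Y` = the image of `X` under `χ ↦ (g ↦ χ g⁻¹)`,
`a' η = a (g ↦ η g⁻¹)`; `η ∈ Y` is irreducible (ZDU) and realizable (`(R g⁻¹)ᵀ`; the same field of values), and
the map `f` of `OccursIn` (values in `StarkP.XC = XCsub`) gives, in the coordinates of `c`, `Itw B ρ.dual f' `,
`f' ≠ 0`: ZPR.  ZRR for `Y`, ZEQ: `E`; ZRT: `ξ`; ZBI: `det ≠ 0` (`det (ξ.map _) = (det ξ : ℂ)`).  ConclZA gives
`φ₁`, `Θ₁`, `A`.  `Reg ρ A`: for `f ∈ homG T ρ`, `c.equivFun ∘ f` is intertwining for `ρ.dual` (irreducible, with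
character `η ∈ Y`, ZDU); by ZHM all `E η'`, `η' ≠ η`, kill it and `E η` gives `l(f) i₀`; so
`A f = f + (a' η - 1) l(f) i₀`, with `i₀` transported back by `c`; ZRG: `Reg ρ A = 1 + (a' η - 1) = a χ`. -/
def Stmt_ZPB : Prop :=
  Stmt_FIXC → Stmt_YDE → Stmt_ZDU → Stmt_ZRR → Stmt_ZPR → Stmt_ZEQ → Stmt_ZRT → Stmt_ZHM → Stmt_ZBI →
  Stmt_ZRG → ConclZA → ConclZB

/-! ### The theorem -/

/-- The conclusion of ZFI. -/
def ConclZ : Prop :=
  ∀ (K L : Type) [Field K] [NumberField K] [Field L] [NumberField L] [Algebra K L] [IsGalois K L]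
    (S : Finset (HeightOneSpectrum (𝓞 K))),
    ∃ (φ : XQ L (aboveSet K L S) ≃ₗ[ℚ] QU L (aboveSet K L S))
      (Θ : XC L (aboveSet K L S) →ₗ[ℂ] XC L (aboveSet K L S)),
      IsPhiTheta K (aboveSet K L S) φ Θ ∧
      ∀ (V : Type) [AddCommGroup V] [Module ℂ V] [Module.Finite ℂ V]
        (ρ : Representation ℂ (L ≃ₐ[K] L) V), (∀ g, ∃ q : ℚ, ρ.character g = (q : ℂ)) →
        (∀ (W : Type) [AddCommGroup W] [Module ℂ W] [Module.Finite ℂ W]
          (σ : Representation ℂ (L ≃ₐ[K] L) W), σ.IsIrreducible → StarkP.IsSub σ ρ →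
          OccursIn (aboveSet K L S) σ ∧ Realizable σ.character ∧
          ∃ Θ' : ((L → ℝ) →₀ ℂ) →ₗ[ℂ] ((L → ℝ) →₀ ℂ),
            StarkP.IsTheta K (StarkP.aboveSet K L S) Θ' ∧
            StarkP.NormIn (charField σ.character) σ.character
              (S : Set (HeightOneSpectrum (𝓞 K))) Θ') →
        ∃ F : ℂ → ℂ, IsArtinL ρ.character (S : Set (HeightOneSpectrum (𝓞 K))) F ∧
          Reg (aboveSet K L S) ρ Θ = meromorphicTrailingCoeffAt F 0

/-- ZFI (about 250 lines), THEOREM (Z).  `φ₀`, `Θ₀` from `ALLT.exph K L S`, `Θ₀'` its printed form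
(`StarkB.exists_isTheta`, equal regulators).  `Q χ`: there is an irreducible `ρ` with character `χ` and
`OccursIn`, and `NormIn (charField χ) χ S Θ₀'`.  `X'` = all `χ` with `IrrCh`, `Realizable` (finite by ZFS, stable by
ZCJ); `X` = all `χ ∈ X'` such that `Q (gcj σ χ)` for all `σ` (stable).  `NormIn` gives for `χ ∈ X`: `F_χ`, `α_χ`;
ZRR, ZAF for `X` and `α = α_χ⁻¹` (an element of the field): `a`, `∏_(class) a = N(α_χ)⁻¹`.  ConclZB: `φ₁`, `Θ₁`, `A`.
For `ρ`: every `IsCon ρ χ` is in `X'`; ZDC for `X'` gives `c`, constant on conjugates, so `c χ ≠ 0` implies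
`IsCon ρ (gcj σ χ)` for all `σ`, hence `Q (gcj σ χ)` (ZIN carries `NormIn` from `Θ'` to `Θ₀'`), and `χ ∈ X`.  So
`ρ.character = ∑_(χ ∈ X, r χ = χ) c χ Tr χ` (ZTN).  ZLF gives `F`, `F^* = ∏ (F_χ^*)^(c χ)`.  For `χ ∈ X`, `r χ = χ`, let
`ρ_χ` have character `Tr χ` (ZSU for the class, ZTN): `Reg ρ_χ Θ₀ = N(α_χ) F_χ^*`
(`NormIn`, `F_χ^* ≠ 0` as `Reg ≠ 0`: `StarkG.reg_ne_zero`) and `Reg ρ_χ A = ∏_(class) a = N(α_χ)⁻¹` (ZRS, ConclZB), so
`Reg ρ_χ Θ₁ = F_χ^*` (`PHIR.reg_mul`); and `Reg ρ Θ₁ = ∏ Reg(ρ_χ, Θ₁)^(c χ) = F^*` (ZRS). -/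
def Stmt_ZFI : Prop :=
  Stmt_FIXC → Stmt_YDE → Stmt_ZFS → Stmt_ZCJ → Stmt_ZRR → Stmt_ZTN → Stmt_ZAF → Stmt_ZDC → Stmt_ZSU →
  Stmt_ZRS → Stmt_ZLF → Stmt_ZIN → ConclZB → ConclZ

end StarkC.ABS
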