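import Pool.Agent.ABS.StZ

/-!
# Project ABS, part Z: an equivariant function on the characters with given norms
-/

set_option autoImplicit false

open NumberField IsDedekindDomain
open scoped TensorProduct Classical

namespace StarkC.ABS

open StarkP (charField trChar Realizable OccursIn)

namespace ZAFx

variable {G : Type}

theorem eq_on (χ : G → ℂ) (σ τ : ℂ ≃+* ℂ) (h : gcj σ χ = gcj τ χ) :
    ∀ x ∈ charField χ, σ x = τ x := by
  intro x hx
  unfold charField at hx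
  induction hx using IntermediateField.adjoin_induction with
  | mem x hx =>
    obtain ⟨g, rfl⟩ := hx
    exact congrFun h g
  | algebraMap q =>
    have h1 : ∀ ρ : ℂ ≃+* ℂ, ρ (algebraMap ℚ ℂ q) = algebraMap ℚ ℂ q := by
      intro ρ
      rw [eq_ratCast]
      exact map_ratCast ρ q
    rw [h1 σ, h1 τ]
  | add x y _ _ h1 h2 => rw [map_add, map_add, h1, h2]
  | inv x _ h1 => rw [map_inv₀, map_inv₀, h1]
  | mul x y _ _ h1 h2 => rw [map_mul, map_mul, h1, h2]

end ZAFx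

open ZAFx in
theorem ZAF_thm : Stmt_ZAF := by
  intro hZTN G _ _ X r α hX hr hirr hα hα0
  have hex : ∀ χ : G → ℂ, ∃ σ : ℂ ≃+* ℂ, χ ∈ X → gcj σ (r χ) = χ := by
    intro χ
    by_cases hχ : χ ∈ X
    · obtain ⟨σ, hσ⟩ := (hr χ hχ).2.1
      exact ⟨σ, fun _ => hσ⟩
    · exact ⟨RingEquiv.refl ℂ, fun h => absurd h hχ⟩
  choose s hs using hex
  refine ⟨fun χ => s χ (α (r χ)), fun χ hχ => ?_, fun σ χ hχ => ?_, fun χ hχ hrχ β hβ => ?_⟩
  · exact (map_ne_zero_iff _ (s χ).injective).2 (hα0 (r χ) (hr χ hχ).1)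
  · have hrr : r (gcj σ χ) = r χ := (hr χ hχ).2.2 σ
    have h1 : gcj ((s χ).trans σ) (r χ) = gcj (s (gcj σ χ)) (r χ) := by
      have h2 : gcj ((s χ).trans σ) (r χ) = gcj σ (gcj (s χ) (r χ)) := rfl
      have h3 := hs (gcj σ χ) (hX χ hχ σ)
      rw [hrr] at h3
      rw [h2, hs χ hχ, h3]
    have h2 := eq_on (r χ) _ _ h1 (α (r χ)) (hα (r χ) (hr χ hχ).1)
    show σ (s χ (α (r χ))) = s (gcj σ χ) (α (r (gcj σ χ)))
    rw [hrr, ← h2]
    rfl
  · have h1 := (hZTN G X r χ hX hr hχ hrχ (hirr χ hχ)).2 s (fun χ' hχ' hr' => by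
      have h2 := hs χ' hχ'
      rwa [hr'] at h2) β
    rw [← h1]
    refine Finset.prod_congr rfl fun χ' hχ' => ?_
    have h2 := (Finset.mem_filter.mp hχ').2
    show s χ' (α (r χ')) = s χ' (β : ℂ)
    rw [h2, hβ]

end StarkC.ABS
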