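import Pool.Agent.ABS.StZ

set_option autoImplicit false

open NumberField IsDedekindDomain
open scoped TensorProduct Classical

namespace StarkC.ABS

open StarkP (charField trChar Realizable OccursIn)

namespace ZBIx

theorem BC_one {G : Type} [Group G] {n : ℕ} (B : G →* Matrix (Fin n) (Fin n) ℚ) :
    BC B 1 = 1 := by
  unfold BC
  rw [map_one]
  exact Matrix.map_one (algebraMap ℚ ℂ) (map_zero _) (map_one _)

theorem BC_mul {G : Type} [Group G] {n : ℕ} (B : G →* Matrix (Fin n) (Fin n) ℚ) (g h : G) :
    BC B (g * h) = BC B g * BC B h := by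
  unfold BC
  rw [map_mul, Matrix.map_mul]

/-- The representation on the kernel of a commuting matrix. -/
noncomputable def kerRep {G : Type} [Group G] {n : ℕ} (B : G →* Matrix (Fin n) (Fin n) ℚ)
    (A : Matrix (Fin n) (Fin n) ℂ) (hA : ∀ g, A * BC B g = BC B g * A) :
    Representation ℂ G (LinearMap.ker (Matrix.mulVecLin A)) where
  toFun g := (Matrix.mulVecLin (BC B g)).restrict (p := LinearMap.ker (Matrix.mulVecLin A))
    (q := LinearMap.ker (Matrix.mulVecLin A)) (by
      intro x hx
      rw [LinearMap.mem_ker, Matrix.mulVecLin_apply] at hx ⊢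
      rw [Matrix.mulVecLin_apply, Matrix.mulVec_mulVec, hA, ← Matrix.mulVec_mulVec, hx,
        Matrix.mulVec_zero])
  map_one' := by
    apply LinearMap.ext
    intro x
    apply Subtype.ext
    simp [LinearMap.restrict_apply, BC_one]
  map_mul' g h := by
    apply LinearMap.ext
    intro x
    apply Subtype.ext
    simp [LinearMap.restrict_apply, BC_mul, Matrix.mulVec_mulVec]

theorem kerRep_apply {G : Type} [Group G] {n : ℕ} (B : G →* Matrix (Fin n) (Fin n) ℚ)
    (A : Matrix (Fin n) (Fin n) ℂ) (hA : ∀ g, A * BC B g = BC B g * A) (g : G)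
    (x : LinearMap.ker (Matrix.mulVecLin A)) :
    ((kerRep B A hA g x : LinearMap.ker (Matrix.mulVecLin A)) : Fin n → ℂ) =
      (BC B g).mulVec (x : Fin n → ℂ) := rfl

end ZBIx

open ZBIx

theorem ZBI_thm : Stmt_ZBI := by
  intro hYDE hZHM G _ _ n B Y E a hY hdet
  set A : Matrix (Fin n) (Fin n) ℂ := 1 + ∑ η ∈ Y, (a η - 1) • E η with hAdef
  have hA : ∀ g, A * BC B g = BC B g * A := by
    intro g
    rw [hAdef, Matrix.add_mul, Matrix.mul_add, Matrix.one_mul, Matrix.mul_one, Finset.sum_mul,
      Finset.mul_sum]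
    congr 1
    apply Finset.sum_congr rfl
    intro η hη
    rw [Matrix.smul_mul, Matrix.mul_smul, (hY η hη).2.1.2.1 g]
  obtain ⟨v, hv0, hv⟩ := Matrix.exists_mulVec_eq_zero_iff.mpr hdet
  have hvk : v ∈ LinearMap.ker (Matrix.mulVecLin A) := by
    rw [LinearMap.mem_ker, Matrix.mulVecLin_apply]; exact hv
  haveI : Nontrivial (LinearMap.ker (Matrix.mulVecLin A)) :=
    ⟨⟨⟨v, hvk⟩, 0, fun h => hv0 (congrArg Subtype.val h)⟩⟩
  obtain ⟨m, χ, hχ, hsum⟩ := hYDE G (LinearMap.ker (Matrix.mulVecLin A)) (kerRep B A hA)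
  have hm : m ≠ 0 := by
    intro hm
    subst hm
    have h1 := hsum 1
    rw [Representation.char_one] at h1
    simp only [Finset.univ_eq_empty, Finset.sum_empty, Nat.cast_eq_zero] at h1
    have : 0 < Module.finrank ℂ (LinearMap.ker (Matrix.mulVecLin A)) := Module.finrank_pos
    omega
  obtain ⟨W, i1, i2, i3, σ, hσ, ⟨i, hinj, hi⟩, hch⟩ := hχ ⟨0, Nat.pos_of_ne_zero hm⟩
  set f : W →ₗ[ℂ] (Fin n → ℂ) := (LinearMap.ker (Matrix.mulVecLin A)).subtype ∘ₗ i with hfdef
  have hItw : Itw B σ f := by
    intro g w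
    rw [hfdef, LinearMap.comp_apply, LinearMap.comp_apply, hi]
    rfl
  have hAf : ∀ w, A.mulVec (f w) = 0 := by
    intro w
    have := (i w).2
    rw [LinearMap.mem_ker, Matrix.mulVecLin_apply] at this
    exact this
  have hexp : ∀ w, f w + ∑ η ∈ Y, (a η - 1) • (E η).mulVec (f w) = 0 := by
    intro w
    rw [← hAf w, hAdef, Matrix.add_mulVec, Matrix.one_mulVec, Matrix.sum_mulVec]
    congr 1
    apply Finset.sum_congr rfl
    intro η _
    rw [Matrix.smul_mulVec]
  have hf0 : f = 0 := by
    by_cases hc : σ.character ∈ Y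
    · obtain ⟨hIrr, hPj, ha⟩ := hY _ hc
      obtain ⟨i₀, l, hi0, hl1, hl⟩ := (hZHM G n B σ.character (E σ.character) W σ hPj hIrr hσ).2 rfl
      have key : f + ((a σ.character - 1) * l f) • i₀ = 0 := by
        apply LinearMap.ext
        intro w
        rw [LinearMap.add_apply, LinearMap.smul_apply, LinearMap.zero_apply, ← hexp w]
        congr 1
        rw [Finset.sum_eq_single_of_mem _ hc, hl f hItw w, smul_smul]
        intro η hη hne
        rw [(hZHM G n B η (E η) W σ (hY η hη).2.1 (hY η hη).1 hσ).1 (Ne.symm hne) f hItw w,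
          smul_zero]
      have h2 := congrArg l key
      rw [map_add, map_smul, map_zero, hl1, smul_eq_mul, mul_one] at h2
      have h3 : a σ.character * l f = 0 := by rw [← h2]; ring
      have h4 : l f = 0 := by
        rcases mul_eq_zero.mp h3 with h | h
        · exact absurd h ha
        · exact h
      rw [h4, mul_zero, zero_smul, add_zero] at key
      exact key
    · apply LinearMap.ext
      intro w
      rw [LinearMap.zero_apply, ← hexp w, Finset.sum_eq_zero, add_zero]
      intro η hη
      rw [(hZHM G n B η (E η) W σ (hY η hη).2.1 (hY η hη).1 hσ).1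
        (fun h => hc (h ▸ hη)) f hItw w, smul_zero]
  have hnt : Nontrivial W := by
    by_contra hV
    rw [not_nontrivial_iff_subsingleton] at hV
    have h1 : (⊥ : Subrepresentation σ) = ⊤ := by
      apply Subrepresentation.toSubmodule_injective
      exact Subsingleton.elim _ _
    exact hσ.bot_ne_top h1
  obtain ⟨w, hw⟩ := exists_ne (0 : W)
  apply hw
  apply hinj
  apply Subtype.ext
  have := LinearMap.congr_fun hf0 w
  rw [map_zero]
  exact this

end StarkC.ABS
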