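import Pool.Agent.ABS.StZ

/-!
# Project ABS, part Z: equivariant choice of the idempotents
-/

set_option autoImplicit false

open NumberField IsDedekindDomain
open scoped TensorProduct Classical

namespace StarkC.ABS

open StarkP (charField trChar Realizable OccursIn)

namespace ZEQx

theorem agree {S : Set ℂ} (σ τ : ℂ ≃+* ℂ) (h : ∀ z ∈ S, σ z = τ z) (z : ℂ)
    (hz : z ∈ IntermediateField.adjoin ℚ S) : σ z = τ z := by
  induction hz using IntermediateField.adjoin_induction with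
  | mem x hx => exact h x hx
  | algebraMap q =>
    rw [eq_ratCast, map_ratCast, map_ratCast]
  | add x y hx hy ihx ihy => rw [map_add, map_add, ihx, ihy]
  | inv x hx ihx => rw [map_inv₀, map_inv₀, ihx]
  | mul x y hx hy ihx ihy => rw [map_mul, map_mul, ihx, ihy]

variable {G : Type} [Group G] {n : ℕ}

theorem bc_map (B : G →* Matrix (Fin n) (Fin n) ℚ) (g : G) (σ : ℂ ≃+* ℂ) :
    (BC B g).map σ = BC B g := by
  ext i j
  show σ (algebraMap ℚ ℂ (B g i j)) = algebraMap ℚ ℂ (B g i j)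
  rw [eq_ratCast, map_ratCast]

theorem mul_map (σ : ℂ ≃+* ℂ) (M N : Matrix (Fin n) (Fin n) ℂ) :
    (M * N).map σ = M.map σ * N.map σ :=
  Matrix.map_mul (L := M) (M := N) (f := (σ : ℂ →+* ℂ))

theorem pj_map {B : G →* Matrix (Fin n) (Fin n) ℚ} {η : G → ℂ}
    {e : Matrix (Fin n) (Fin n) ℂ} (h : Pj B η e) (σ : ℂ ≃+* ℂ) :
    Pj B (gcj σ η) (e.map σ) := by
  obtain ⟨h1, h2, h3⟩ := h
  refine ⟨by rw [← mul_map, h1], fun g => ?_, fun g => ?_⟩
  · have h4 := congrArg (fun M : Matrix (Fin n) (Fin n) ℂ => M.map σ) (h2 g)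
    simp only [mul_map, bc_map] at h4
    exact h4
  · show (e.map σ * BC B g).trace = σ (η g)
    have h4 : e.map σ * BC B g = (e * BC B g).map σ := by rw [mul_map, bc_map]
    rw [h4, ← h3 g]
    unfold Matrix.trace
    rw [map_sum]
    rfl

end ZEQx

theorem ZEQ_thm : Stmt_ZEQ := by
  intro G _ _ n B Y r hY hr hE
  have h1 : ∀ η : G → ℂ, ∃ e : Matrix (Fin n) (Fin n) ℂ,
      η ∈ Y → Pj B η e ∧ ∀ i j, e i j ∈ charField η := fun η => by
    by_cases h : η ∈ Y
    · obtain ⟨e, he⟩ := hE η h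
      exact ⟨e, fun _ => he⟩
    · exact ⟨0, fun h' => absurd h' h⟩
  choose e he using h1
  have h2 : ∀ η : G → ℂ, ∃ σ : ℂ ≃+* ℂ, η ∈ Y → gcj σ (r η) = η := fun η => by
    by_cases h : η ∈ Y
    · obtain ⟨σ, hσ⟩ := (hr η h).2.1
      exact ⟨σ, fun _ => hσ⟩
    · exact ⟨RingEquiv.refl ℂ, fun h' => absurd h' h⟩
  choose s hs using h2
  refine ⟨fun η => (e (r η)).map (s η), fun η hη => ?_, fun σ η hη => ?_⟩
  · have h3 := ZEQx.pj_map (he (r η) (hr η hη).1).1 (s η)
    rw [hs η hη] at h3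
    exact h3
  · have h4 : gcj σ η ∈ Y := hY η hη σ
    have h5 : r (gcj σ η) = r η := (hr η hη).2.2 σ
    have h6 : gcj (s (gcj σ η)) (r η) = gcj σ η := by
      have h := hs (gcj σ η) h4
      rw [h5] at h
      exact h
    show ((e (r η)).map (s η)).map σ = (e (r (gcj σ η))).map (s (gcj σ η))
    rw [h5]
    ext i j
    show σ (s η (e (r η) i j)) = s (gcj σ η) (e (r η) i j)
    have h7 : ∀ z ∈ Set.range (r η), ((s η).trans σ) z = s (gcj σ η) z := by
      rintro z ⟨g, rfl⟩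
      have h8 : s η (r η g) = η g := congrFun (hs η hη) g
      have h9 : s (gcj σ η) (r η g) = σ (η g) := congrFun h6 g
      rw [RingEquiv.trans_apply, h8, h9]
    exact ZEQx.agree ((s η).trans σ) (s (gcj σ η)) h7 _ ((he (r η) (hr η hη).1).2 i j)

end StarkC.ABS
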