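import Pool.Agent.ABS.StZ

/-!
# Project ABS, part Z: Stark in norm makes all class number formulas exact (module ZFI)
-/

set_option autoImplicit false

open NumberField IsDedekindDomain
open scoped TensorProduct Classical

namespace StarkC.ABS

open StarkP (charField trChar Realizable OccursIn)

namespace ZFIx

theorem norm_ne_zero' {F : Type} [Field F] [Algebra ℚ F] {α : F} (h : α ≠ 0) :
    (Algebra.norm ℚ α : ℚ) ≠ 0 := by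
  intro h1
  have h2 : (Algebra.norm ℚ (α * α⁻¹) : ℚ) = 1 := by rw [mul_inv_cancel₀ h, map_one]
  rw [map_mul, h1, zero_mul] at h2
  exact zero_ne_one h2

/-- The representative is its own representative. -/
theorem rep_rep {G : Type} {X : Finset (G → ℂ)} {r : (G → ℂ) → (G → ℂ)} (hr : RepC X r)
    {χ : G → ℂ} (hχ : χ ∈ X) : r (r χ) = r χ := by
  obtain ⟨h1, ⟨σ, hσ⟩, -⟩ := hr χ hχ
  have h2 := (hr (r χ) h1).2.2 σ
  rw [hσ] at h2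
  exact h2.symm

/-- Sum over the classes. -/
theorem sum_class {G : Type} {X Y : Finset (G → ℂ)} {r : (G → ℂ) → (G → ℂ)} (hr : RepC X r)
    (C : (G → ℂ) → Finset (G → ℂ)) (hY : ∀ ψ, ψ ∈ Y ↔ ψ ∈ X ∧ r ψ = ψ)
    (hC : ∀ ψ χ, χ ∈ C ψ ↔ χ ∈ X ∧ r χ = ψ)
    (c : (G → ℂ) → ℕ) (hc : ∀ (σ : ℂ ≃+* ℂ), ∀ χ ∈ X, c (gcj σ χ) = c χ) (g : G) :
    ∑ χ ∈ X, (c χ : ℂ) * χ g = ∑ ψ ∈ Y, (c ψ : ℂ) * ∑ χ ∈ C ψ, χ g := by
  have hmaps : ∀ χ ∈ X, r χ ∈ Y := fun χ hχ => (hY _).2 ⟨(hr χ hχ).1, rep_rep hr hχ⟩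
  rw [← Finset.sum_fiberwise_of_maps_to hmaps]
  refine Finset.sum_congr rfl fun ψ _ => ?_
  have hCψ : X.filter (fun χ => r χ = ψ) = C ψ := by
    ext χ
    rw [Finset.mem_filter, hC]
  rw [hCψ, Finset.mul_sum]
  refine Finset.sum_congr rfl fun χ hχ => ?_
  obtain ⟨hχ1, hχ2⟩ := (hC ψ χ).1 hχ
  obtain ⟨h1, ⟨σ, hσ⟩, -⟩ := hr χ hχ1
  have h2 : c χ = c ψ := by
    rw [← hχ2]
    conv_lhs => rw [← hσ]
    exact hc σ _ h1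
  rw [h2]

section

variable {K L : Type} [Field K] [NumberField K] [Field L] [NumberField L] [Algebra K L]
  [IsGalois K L]

omit [IsGalois K L] in
/-- A representation with character `Tr χ` and the product of the regulators. -/
theorem exists_rep (hZSU : Stmt_ZSU) (hZRS : Stmt_ZRS) {T : Set (HeightOneSpectrum (𝓞 L))}
    (hT : StableT K T) (hTf : T.Finite) (A : XC L T →ₗ[ℂ] XC L T)
    (hAc : ∀ g : L ≃ₐ[K] L, A ∘ₗ repX K T hT g = repX K T hT g ∘ₗ A) (hAb : Function.Bijective A)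
    (Y : Finset ((L ≃ₐ[K] L) → ℂ)) (hirr : ∀ χ ∈ Y, IrrCh χ) (a : ((L ≃ₐ[K] L) → ℂ) → ℂ)
    (ha : ∀ (V : Type) [AddCommGroup V] [Module ℂ V] [Module.Finite ℂ V]
      (ρ : Representation ℂ (L ≃ₐ[K] L) V), ρ.IsIrreducible → ρ.character ∈ Y →
      Reg T ρ A = a ρ.character) :
    ∃ (V : Type) (_ : AddCommGroup V) (_ : Module ℂ V) (_ : Module.Finite ℂ V)
      (ρ : Representation ℂ (L ≃ₐ[K] L) V), (∀ g, ρ.character g = ∑ χ ∈ Y, χ g) ∧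
        Reg T ρ A = ∏ χ ∈ Y, a χ := by
  let e : Fin Y.card ≃ Y := Y.equivFin.symm
  have h1 : ∀ i : Fin Y.card, IrrCh ((e i : Y) : (L ≃ₐ[K] L) → ℂ) := fun i => hirr _ (e i).2
  choose W hW1 hW2 hW3 κ hκ using h1
  obtain ⟨V, i1, i2, i3, ρ, hρ⟩ := hZSU (L ≃ₐ[K] L) Y.card W κ
  refine ⟨V, i1, i2, i3, ρ, fun g => ?_, ?_⟩
  · rw [hρ g, ← Finset.sum_coe_sort Y]
    have h2 : ∀ i, (κ i).character g = ((e i : Y) : (L ≃ₐ[K] L) → ℂ) g := fun i => by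
      rw [(hκ i).2]
    simp_rw [h2]
    exact Equiv.sum_comp e (fun χ : Y => (χ : (L ≃ₐ[K] L) → ℂ) g)
  · have h3 := hZRS K L T hT A V ρ Y.card W κ (fun _ => 1) hTf hAc hAb (fun g => by
      rw [hρ g]
      refine Finset.sum_congr rfl fun i _ => ?_
      rw [Nat.cast_one, one_mul])
    rw [h3, ← Finset.prod_coe_sort Y]
    have h4 : ∀ i, Reg T (κ i) A ^ 1 = a ((e i : Y) : (L ≃ₐ[K] L) → ℂ) := fun i => by
      rw [pow_one, ha (W i) (κ i) (hκ i).1 (by rw [(hκ i).2]; exact (e i).2), (hκ i).2]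
    simp_rw [h4]
    exact Equiv.prod_comp e (fun χ : Y => a (χ : (L ≃ₐ[K] L) → ℂ))

end

end ZFIx

open ZFIx in
theorem ZFI_thm : Stmt_ZFI := by
  intro hFIXC hYDE hZFS hZCJ hZRR hZTN hZAF hZDC hZSU hZRS hZLF hZIN hZB K L _ _ _ _ _ _ S
  obtain ⟨φ₀, Θ₀, h0⟩ := ALLT.exph K L S
  have hTf : (aboveSet K L (S : Set (HeightOneSpectrum (𝓞 K)))).Finite :=
    IND.aboveSet_finite _ S.finite_toSet
  have hT : StableT K (aboveSet K L (S : Set (HeightOneSpectrum (𝓞 K)))) := STB_thm K L _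
  have hc0 := ALLT.thc K L _ hT φ₀ Θ₀ hTf h0
  obtain ⟨Θ₀', hΘ₀', hreg0⟩ := StarkB.exists_isTheta (K := K) (L := L)
    (S : Set (HeightOneSpectrum (𝓞 K))) S.finite_toSet φ₀ Θ₀ h0
  let Q : ((L ≃ₐ[K] L) → ℂ) → Prop := fun χ =>
    (∃ (V : Type) (_ : AddCommGroup V) (_ : Module ℂ V) (_ : Module.Finite ℂ V)
      (ρ : Representation ℂ (L ≃ₐ[K] L) V), ρ.IsIrreducible ∧ ρ.character = χ ∧
        OccursIn (aboveSet K L (S : Set (HeightOneSpectrum (𝓞 K)))) ρ) ∧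
    StarkP.NormIn (charField χ) χ (S : Set (HeightOneSpectrum (𝓞 K))) Θ₀'
  let X' : Finset ((L ≃ₐ[K] L) → ℂ) := (hZFS (L ≃ₐ[K] L)).toFinset.filter Realizable
  have hX' : ∀ χ, χ ∈ X' ↔ IrrCh χ ∧ Realizable χ := by
    intro χ
    rw [Finset.mem_filter, Set.Finite.mem_toFinset]
    rfl
  have hStb' : Stb X' := by
    intro χ hχ σ
    obtain ⟨h1, h2⟩ := (hX' χ).1 hχ
    exact (hX' _).2 (hZCJ hYDE (L ≃ₐ[K] L) χ h1 h2 σ)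
  let X : Finset ((L ≃ₐ[K] L) → ℂ) := X'.filter (fun χ => ∀ σ : ℂ ≃+* ℂ, Q (gcj σ χ))
  have hXX' : ∀ χ ∈ X, χ ∈ X' := fun χ hχ => (Finset.mem_filter.1 hχ).1
  have hXQ : ∀ χ ∈ X, ∀ σ : ℂ ≃+* ℂ, Q (gcj σ χ) := fun χ hχ => (Finset.mem_filter.1 hχ).2
  have hXQ1 : ∀ χ ∈ X, Q χ := fun χ hχ => hXQ χ hχ (RingEquiv.refl ℂ)
  have hStb : Stb X := by
    intro χ hχ σ
    exact Finset.mem_filter.2 ⟨hStb' χ (hXX' χ hχ) σ, fun τ => hXQ χ hχ (σ.trans τ)⟩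
  -- the functions and the numbers
  have hN : ∀ χ : (L ≃ₐ[K] L) → ℂ, ∃ (f : ℂ → ℂ) (α : charField χ), α ≠ 0 ∧ (χ ∈ X →
      IsArtinL (trChar χ) (S : Set (HeightOneSpectrum (𝓞 K))) f ∧
      ∀ (V : Type) [AddCommGroup V] [Module ℂ V] [Module.Finite ℂ V]
        (ρ : Representation ℂ (L ≃ₐ[K] L) V), ρ.character = trChar χ →
        Reg (aboveSet K L (S : Set (HeightOneSpectrum (𝓞 K)))) ρ Θ₀ =
          ((Algebra.norm ℚ α : ℚ) : ℂ) * meromorphicTrailingCoeffAt f 0) := by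
    intro χ
    by_cases hχ : χ ∈ X
    · obtain ⟨f, α, hf, hα, hR⟩ := (hXQ1 χ hχ).2
      refine ⟨f, α, hα, fun _ => ⟨⟨hf.1, hf.2⟩, fun V _ _ _ ρ hρ => ?_⟩⟩
      have h1 := hR V ρ hρ
      have h2 : StarkP.Reg (StarkP.aboveSet K L (S : Set (HeightOneSpectrum (𝓞 K)))) ρ Θ₀' =
          Reg (aboveSet K L (S : Set (HeightOneSpectrum (𝓞 K)))) ρ Θ₀ := hreg0 V ρ
      rw [h2] at h1
      have h3 : meromorphicTrailingCoeffAt f 0 ≠ 0 := by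
        intro h4
        rw [h4, div_zero] at h1
        have h5 : (Algebra.norm ℚ α : ℚ) = 0 := by exact_mod_cast h1.symm
        exact norm_ne_zero' hα h5
      rw [← h1, div_mul_cancel₀ _ h3]
    · exact ⟨0, 1, one_ne_zero, fun h => absurd h hχ⟩
  choose f α hα0 hfα using hN
  obtain ⟨r, hr⟩ := hZRR (L ≃ₐ[K] L) X hStb
  have hXirr : ∀ χ ∈ X, IrrCh χ := fun χ hχ => ((hX' χ).1 (hXX' χ hχ)).1
  obtain ⟨a, ha0, haσ, haN⟩ := hZAF hZTN (L ≃ₐ[K] L) X r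
    (fun χ => ((α χ : charField χ) : ℂ)⁻¹) hStb hr hXirr (fun χ _ => inv_mem (α χ).2)
    (fun χ _ => inv_ne_zero fun h => hα0 χ (Subtype.ext h))
  obtain ⟨φ₁, Θ₁, A, h1, hΘ, hAb, hAc, hAr⟩ := hZB K L S φ₀ Θ₀ hT X a h0 hStb
    (fun χ hχ => ((hX' χ).1 (hXX' χ hχ)).2) ha0 haσ (fun χ hχ => (hXQ1 χ hχ).1)
  refine ⟨φ₁, Θ₁, h1, ?_⟩
  intro V _ _ _ ρ hq hcon
  have hcon' : ∀ χ, IsCon ρ χ → χ ∈ X' := by
    rintro χ ⟨W, j1, j2, j3, σ, hirr, hsub, rfl⟩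
    exact (hX' _).2 ⟨⟨W, j1, j2, j3, σ, hirr, rfl⟩, (hcon W σ hirr hsub).2.1⟩
  obtain ⟨c, hc1, hc2, hc3⟩ := hZDC hYDE (L ≃ₐ[K] L) V ρ X' hStb'
    (fun χ hχ => ((hX' χ).1 hχ).1) hq hcon'
  -- the constituents are in `X`
  have hcX : ∀ χ ∈ X', c χ ≠ 0 → χ ∈ X := by
    intro χ hχ hcχ
    refine Finset.mem_filter.2 ⟨hχ, fun σ => ?_⟩
    have h2 : c (gcj σ χ) ≠ 0 := by
      rw [hc2 σ χ hχ]
      exact hcχ
    obtain ⟨h3, W, j1, j2, j3, τ, hirr, hsub, hτ⟩ := hc1 _ h2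
    obtain ⟨hocc, hreal, Θ', hΘ', hnorm⟩ := hcon W τ hirr hsub
    rw [hτ] at hnorm hreal
    exact ⟨⟨W, j1, j2, j3, τ, hirr, hτ, hocc⟩,
      hZIN hFIXC hYDE hZFS hZCJ hZTN hZRS K L S (gcj σ χ) Θ' Θ₀' ((hX' _).1 h3).1 hreal hΘ' hΘ₀'
        hnorm⟩
  have hsumX : ∀ g, ρ.character g = ∑ χ ∈ X, (c χ : ℂ) * χ g := by
    intro g
    rw [hc3 g]
    symm
    refine Finset.sum_subset (fun χ hχ => hXX' χ hχ) fun χ hχ hχ2 => ?_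
    have h2 : c χ = 0 := by
      by_contra h
      exact hχ2 (hcX χ hχ h)
    rw [h2, Nat.cast_zero, zero_mul]
  let Y : Finset ((L ≃ₐ[K] L) → ℂ) := X.filter (fun ψ => r ψ = ψ)
  have hYm : ∀ ψ, ψ ∈ Y ↔ ψ ∈ X ∧ r ψ = ψ := by
    intro ψ
    simp only [Y, Finset.mem_filter]
  have hY : ∀ ψ ∈ Y, ψ ∈ X ∧ r ψ = ψ := fun ψ hψ => (hYm ψ).1 hψ
  let e : Fin Y.card ≃ Y := Y.equivFin.symm
  have htr : ∀ ψ ∈ Y, ∀ g, trChar ψ g = ∑ χ ∈ X.filter (fun χ => r χ = ψ), χ g := fun ψ hψ =>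
    (hZTN (L ≃ₐ[K] L) X r ψ hStb hr (hY ψ hψ).1 (hY ψ hψ).2 (hXirr ψ (hY ψ hψ).1)).1
  have hchar : ∀ g, ρ.character g = ∑ i, (c ((e i : Y) : (L ≃ₐ[K] L) → ℂ) : ℂ) *
      trChar ((e i : Y) : (L ≃ₐ[K] L) → ℂ) g := by
    intro g
    rw [hsumX g, sum_class hr (fun ψ => X.filter (fun χ => r χ = ψ)) hYm
      (fun ψ χ => by simp only [Finset.mem_filter]) c (fun σ χ hχ => hc2 σ χ (hXX' χ hχ)) g]
    have h2 : ∑ ψ ∈ Y, (c ψ : ℂ) *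
        ∑ χ ∈ X.filter (fun χ => r χ = ψ), χ g = ∑ ψ ∈ Y, (c ψ : ℂ) * trChar ψ g :=
      Finset.sum_congr rfl fun ψ hψ => by rw [htr ψ hψ g]
    rw [h2, ← Finset.sum_coe_sort Y]
    exact (Equiv.sum_comp e (fun ψ : Y => (c (ψ : (L ≃ₐ[K] L) → ℂ) : ℂ) *
      trChar (ψ : (L ≃ₐ[K] L) → ℂ) g)).symm
  obtain ⟨F, hF, hFc⟩ := hZLF K L (S : Set (HeightOneSpectrum (𝓞 K))) Y.card
    (fun i => trChar ((e i : Y) : (L ≃ₐ[K] L) → ℂ))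
    (fun i => f ((e i : Y) : (L ≃ₐ[K] L) → ℂ)) (fun i => c ((e i : Y) : (L ≃ₐ[K] L) → ℂ))
    ρ.character (fun i => (hfα _ (hY _ (e i).2).1).1) hchar
  refine ⟨F, hF, ?_⟩
  -- the representations with the characters `Tr ψ`
  have hrep : ∀ i : Fin Y.card, ∃ (V : Type) (_ : AddCommGroup V) (_ : Module ℂ V)
      (_ : Module.Finite ℂ V) (ρ' : Representation ℂ (L ≃ₐ[K] L) V),
      (∀ g, ρ'.character g = trChar ((e i : Y) : (L ≃ₐ[K] L) → ℂ) g) ∧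
      Reg (aboveSet K L (S : Set (HeightOneSpectrum (𝓞 K)))) ρ' A =
        ((Algebra.norm ℚ (α ((e i : Y) : (L ≃ₐ[K] L) → ℂ))⁻¹ : ℚ) : ℂ) := by
    intro i
    obtain ⟨hψX, hψr⟩ := hY _ (e i).2
    obtain ⟨V, i1, i2, i3, ρ', hρ', hρA⟩ := exists_rep hZSU hZRS hT hTf A hAc hAb
      (X.filter (fun χ => r χ = ((e i : Y) : (L ≃ₐ[K] L) → ℂ)))
      (fun χ hχ => hXirr χ (Finset.mem_filter.1 hχ).1) a
      (fun V _ _ _ ρ h3 h4 => hAr V ρ h3 (Finset.mem_filter.1 h4).1)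
    refine ⟨V, i1, i2, i3, ρ', fun g => ?_, ?_⟩
    · rw [hρ' g, htr _ (e i).2 g]
    · rw [hρA]
      exact haN _ hψX hψr (α ((e i : Y) : (L ≃ₐ[K] L) → ℂ))⁻¹ rfl
  choose V' i1 i2 i3 ρ' hρ' hρA using hrep
  have hc1' := ALLT.thc K L _ hT φ₁ Θ₁ hTf h1
  have hb1' := ALLT.thb K L _ φ₁ Θ₁ hTf h1
  have hRS := hZRS K L _ hT Θ₁ V ρ Y.card V' ρ' (fun i => c ((e i : Y) : (L ≃ₐ[K] L) → ℂ)) hTf
    hc1' hb1' (fun g => by
      rw [hchar g]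
      refine Finset.sum_congr rfl fun i _ => ?_
      rw [hρ' i g])
  rw [hRS, hFc]
  refine Finset.prod_congr rfl fun i _ => ?_
  congr 1
  have h5 := (hfα _ (hY _ (e i).2).1).2 (V' i) (ρ' i) (funext (hρ' i))
  rw [hΘ, PHIR.reg_mul hT (ρ' i) Θ₀ A hc0 hAc, hρA i, h5, ← mul_assoc, ← Rat.cast_mul, ← map_mul,
    inv_mul_cancel₀ (hα0 _), map_one, Rat.cast_one, one_mul]

end StarkC.ABS
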