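import Pool.Agent.ABS.StZ

/-!
# Project ABS, part Z, module ZHM (helper85): the action of an equivariant idempotent on intertwining maps
-/

set_option autoImplicit false

open NumberField IsDedekindDomain
open scoped TensorProduct Classical

namespace StarkC.ABS.ZHMx

open Representation

/-- the representation given by the matrices `B g` -/
noncomputable def RB {G : Type} [Group G] {n : ℕ} (B : G →* Matrix (Fin n) (Fin n) ℚ) :
    Representation ℂ G (Fin n → ℂ) where
  toFun g := Matrix.toLin' (BC B g)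
  map_one' := by
    show Matrix.toLin' (BC B 1) = 1
    unfold BC
    rw [map_one, Matrix.map_one _ (map_zero _) (map_one _), Matrix.toLin'_one]
    rfl
  map_mul' g h := by
    show Matrix.toLin' (BC B (g * h)) = Matrix.toLin' (BC B g) * Matrix.toLin' (BC B h)
    unfold BC
    rw [map_mul, Matrix.map_mul, Matrix.toLin'_mul]
    rfl

theorem RB_apply {G : Type} [Group G] {n : ℕ} (B : G →* Matrix (Fin n) (Fin n) ℚ) (g : G)
    (v : Fin n → ℂ) : RB B g v = (BC B g).mulVec v := rfl

/-- the range of the idempotent -/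
noncomputable def U {n : ℕ} (e : Matrix (Fin n) (Fin n) ℂ) : Submodule ℂ (Fin n → ℂ) :=
  LinearMap.range (Matrix.toLin' e)

theorem mulVec_mem {n : ℕ} (e : Matrix (Fin n) (Fin n) ℂ) (v : Fin n → ℂ) : e.mulVec v ∈ U e :=
  ⟨v, rfl⟩

theorem mulVec_of_mem {n : ℕ} {e : Matrix (Fin n) (Fin n) ℂ} (he : e * e = e) {v : Fin n → ℂ}
    (hv : v ∈ U e) : e.mulVec v = v := by
  obtain ⟨u, hu⟩ := hv
  have hu' : e.mulVec u = v := hu
  rw [← hu', Matrix.mulVec_mulVec, he]

variable {G : Type} [Group G] {n : ℕ} {B : G →* Matrix (Fin n) (Fin n) ℚ} {η : G → ℂ}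
  {e : Matrix (Fin n) (Fin n) ℂ}

theorem stable (h : Pj B η e) (g : G) : U e ≤ (U e).comap (RB B g) := by
  rintro v ⟨u, hu⟩
  have hu' : e.mulVec u = v := hu
  show (BC B g).mulVec v ∈ U e
  rw [← hu', Matrix.mulVec_mulVec, ← h.2.1 g, ← Matrix.mulVec_mulVec]
  exact mulVec_mem e _

/-- the subrepresentation -/
noncomputable def RU (h : Pj B η e) : Representation ℂ G (U e) :=
  (RB B).subrepresentation (U e) (stable h)

theorem RU_apply (h : Pj B η e) (g : G) (u : U e) :
    ((RU h g u : U e) : Fin n → ℂ) = (BC B g).mulVec (u : Fin n → ℂ) := rfl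

theorem char_RU (h : Pj B η e) : (RU h).character = η := by
  funext g
  have hm : ∀ x, (Matrix.toLin' (BC B g * e)) x ∈ U e := by
    intro x
    show (BC B g * e).mulVec x ∈ U e
    rw [← h.2.1 g, ← Matrix.mulVec_mulVec]
    exact mulVec_mem e _
  have e1 : RU h g = (Matrix.toLin' (BC B g * e)).restrict (fun x _ => hm x) := by
    refine LinearMap.ext fun u => Subtype.ext ?_
    rw [RU_apply]
    show _ = (BC B g * e).mulVec (u : Fin n → ℂ)
    rw [← Matrix.mulVec_mulVec, mulVec_of_mem h.1 u.2]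
  show LinearMap.trace ℂ (U e) (RU h g) = η g
  rw [e1, LinearMap.trace_restrict_eq_of_forall_mem (U e) _ hm, Matrix.trace_toLin'_eq,
    Matrix.trace_mul_comm, h.2.2]

variable {W : Type} [AddCommGroup W] [Module ℂ W] {κ : Representation ℂ G W}

/-- the intertwining map `e ∘ f` -/
noncomputable def im (h : Pj B η e) (f : W →ₗ[ℂ] (Fin n → ℂ)) (hf : Itw B κ f) :
    IntertwiningMap κ (RU h) where
  toLinearMap := ((Matrix.toLin' e) ∘ₗ f).codRestrict (U e) (fun w => mulVec_mem e (f w))
  isIntertwining' g := by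
    refine LinearMap.ext fun w => Subtype.ext ?_
    show e.mulVec (f (κ g w)) = (BC B g).mulVec (e.mulVec (f w))
    rw [hf g w, Matrix.mulVec_mulVec, Matrix.mulVec_mulVec, h.2.1 g]

theorem im_apply (h : Pj B η e) (f : W →ₗ[ℂ] (Fin n → ℂ)) (hf : Itw B κ f) (w : W) :
    (((im h f hf).toLinearMap w : U e) : Fin n → ℂ) = e.mulVec (f w) := rfl

/-- a space of intertwining maps of dimension one -/
theorem one_dim {V₁ V₂ : Type} [AddCommGroup V₁] [Module ℂ V₁] [AddCommGroup V₂] [Module ℂ V₂]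
    (κ₁ : Representation ℂ G V₁) (κ₂ : Representation ℂ G V₂)
    (h : Module.finrank ℂ (IntertwiningMap κ₁ κ₂) = 1) :
    ∃ i : IntertwiningMap κ₁ κ₂, i ≠ 0 ∧ ∀ w : IntertwiningMap κ₁ κ₂, ∃ c : ℂ, c • i = w := by
  obtain ⟨i, hi0, hi⟩ := finrank_eq_one_iff'.1 h
  exact ⟨i, hi0, hi⟩

/-- the dimension of the space of the intertwining maps -/
theorem fin_eq [Fintype G] [Module.Finite ℂ W] (h : Pj B η e) (hη : IrrCh η)
    (hκ : κ.IsIrreducible) :
    Module.finrank ℂ (IntertwiningMap κ (RU h)) = if κ.character = η then 1 else 0 := by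
  obtain ⟨W', i1, i2, i3, κ', hκ', hχ⟩ := hη
  have : Invertible (Nat.card G : ℂ) :=
    invertibleOfNonzero (Nat.cast_ne_zero.2 (Nat.card_pos.ne'))
  have h1 := card_inv_mul_sum_char_mul_char_eq_finrank κ (RU h)
  rw [char_RU h] at h1
  by_cases hc : κ.character = η
  · rw [if_pos hc]
    have h2 := card_inv_mul_sum_char_mul_char_eq_finrank κ κ
    rw [IsIrreducible.finrank_intertwiningMap_self κ] at h2
    rw [hc] at h1 h2
    have h3 := h1.symm.trans h2
    exact_mod_cast h3
  · rw [if_neg hc]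
    have h2 := card_inv_mul_sum_char_mul_char_eq_finrank κ κ'
    rw [hχ] at h2
    have h4 := char_orthonormal κ' κ
    have h5 : ¬ Nonempty (Equiv κ κ') := by
      rintro ⟨φ⟩
      exact hc ((char_iso φ).trans hχ)
    rw [if_neg h5, hχ] at h4
    have h3 := h1.symm.trans h4
    exact_mod_cast h3

end StarkC.ABS.ZHMx

namespace StarkC.ABS

open ZHMx Representation

theorem ZHM_thm : Stmt_ZHM := by
  intro G _ _ n B η e W _ _ _ κ h hη hκ
  have hfin := fin_eq (κ := κ) h hη hκ
  constructor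
  · intro hne f hf w
    rw [if_neg hne] at hfin
    have hs : Subsingleton (IntertwiningMap κ (RU h)) := Module.finrank_zero_iff.1 hfin
    have h1 : im h f hf = 0 := Subsingleton.elim _ _
    have h2 := im_apply h f hf w
    rw [h1] at h2
    rw [← h2]
    rfl
  · intro heq
    rw [if_pos heq] at hfin
    obtain ⟨i, hi0, hi⟩ := one_dim κ (RU h) hfin
    obtain ⟨w₀, k, hk⟩ : ∃ (w₀ : W) (k : Fin n), ((i.toLinearMap w₀ : U e) : Fin n → ℂ) k ≠ 0 := by
      by_contra hcon
      push Not at hcon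
      refine hi0 (IntertwiningMap.ext (LinearMap.ext fun w => Subtype.ext (funext fun k => ?_)))
      rw [hcon w k]
      rfl
    refine ⟨(U e).subtype ∘ₗ i.toLinearMap,
      (((i.toLinearMap w₀ : U e) : Fin n → ℂ) k)⁻¹ •
        ((LinearMap.proj k ∘ₗ Matrix.toLin' e) ∘ₗ LinearMap.applyₗ w₀), ?_, ?_, ?_⟩
    · intro g w
      have h1 := LinearMap.congr_fun (i.isIntertwining' g) w
      have h2 : i.toLinearMap (κ g w) = RU h g (i.toLinearMap w) := h1
      show ((i.toLinearMap (κ g w) : U e) : Fin n → ℂ) = _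
      rw [h2]
      rfl
    · show (((i.toLinearMap w₀ : U e) : Fin n → ℂ) k)⁻¹ *
        (e.mulVec ((i.toLinearMap w₀ : U e) : Fin n → ℂ)) k = 1
      rw [mulVec_of_mem h.1 (i.toLinearMap w₀).2, inv_mul_cancel₀ hk]
    · intro f hf w
      obtain ⟨c, hc⟩ := hi (im h f hf)
      have h1 : ∀ w, e.mulVec (f w) = c • ((i.toLinearMap w : U e) : Fin n → ℂ) := by
        intro w
        rw [← im_apply h f hf w, ← hc]
        rfl
      rw [h1 w]
      show _ = ((((i.toLinearMap w₀ : U e) : Fin n → ℂ) k)⁻¹ * (e.mulVec (f w₀)) k) •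
        ((i.toLinearMap w : U e) : Fin n → ℂ)
      rw [h1 w₀]
      congr 1
      show c = (((i.toLinearMap w₀ : U e) : Fin n → ℂ) k)⁻¹ *
        (c * ((i.toLinearMap w₀ : U e) : Fin n → ℂ) k)
      field_simp

end StarkC.ABS
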