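import Pool.Agent.ABS.StZ
import Pool.Agent.ABS.FIXC

/-!
# Project ABS, part Z: Stark in norm does not depend on the isomorphism
-/

set_option autoImplicit false

open NumberField IsDedekindDomain
open scoped TensorProduct Classical

namespace StarkC.ABS

namespace ZINx

open StarkP (charField trChar Realizable)

/-- The regulators of all conjugates of `χ` change by the conjugates of one number of `ℚ(χ)`. -/
theorem ratio {K L : Type} [Field K] [NumberField K] [Field L] [NumberField L] [Algebra K L]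
    [IsGalois K L] (S : Finset (HeightOneSpectrum (𝓞 K)))
    (φ₁ φ₂ : XQ L (aboveSet K L S) ≃ₗ[ℚ] QU L (aboveSet K L S))
    (T₁ T₂ : XC L (aboveSet K L S) →ₗ[ℂ] XC L (aboveSet K L S))
    (h₁ : IsPhiTheta K (aboveSet K L S) φ₁ T₁) (h₂ : IsPhiTheta K (aboveSet K L S) φ₂ T₂)
    (χ : (L ≃ₐ[K] L) → ℂ) (hχ : IrrCh χ) :
    ∃ x : ℂ, x ≠ 0 ∧ x ∈ charField χ ∧
      ∀ (σ : ℂ ≃+* ℂ) (V : Type) [AddCommGroup V] [Module ℂ V] [Module.Finite ℂ V]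
        (ρ : Representation ℂ (L ≃ₐ[K] L) V), ρ.character = gcj σ χ →
        Reg (aboveSet K L S) ρ T₂ = σ x * Reg (aboveSet K L S) ρ T₁ := by
  obtain ⟨W, _, _, _, κ, -, hκ⟩ := hχ
  have hne := StarkG.reg_ne_zero S φ₁ T₁ h₁ W κ
  obtain ⟨x, hx0, hx1, -⟩ := PHIR_thm K L S φ₁ φ₂ T₁ T₂ W W κ κ (RingEquiv.refl ℂ) h₁ h₂
    (fun g => rfl)
  have hall : ∀ (σ : ℂ ≃+* ℂ) (V : Type) [AddCommGroup V] [Module ℂ V] [Module.Finite ℂ V]
      (ρ : Representation ℂ (L ≃ₐ[K] L) V), ρ.character = gcj σ χ →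
      Reg (aboveSet K L S) ρ T₂ = σ x * Reg (aboveSet K L S) ρ T₁ := by
    intro σ V _ _ _ ρ hρ
    obtain ⟨y, hy0, hy1, hy2⟩ := PHIR_thm K L S φ₁ φ₂ T₁ T₂ W V κ ρ σ h₁ h₂
      (fun g => by rw [hρ, hκ]; rfl)
    have hxy : y = x := mul_right_cancel₀ hne (hy1.symm.trans hx1)
    rw [hy2, hxy]
  refine ⟨x, hx0, ?_, hall⟩
  have h1 : x ∈ (charField χ).toSubfield := by
    refine FIXCx.core (charField χ).toSubfield x fun σ hσ => ?_
    have hg : κ.character = gcj σ χ := by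
      funext g
      rw [hκ]
      exact (hσ (χ g) (IntermediateField.subset_adjoin ℚ _ (Set.mem_range_self g))).symm
    have h2 := hall σ W κ hg
    exact mul_right_cancel₀ hne (h2.symm.trans hx1)
  exact h1

end ZINx

open StarkP (charField trChar)

/-- Stark in norm does not depend on the isomorphism. -/
theorem ZIN_thm : Stmt_ZIN := by
  intro _ hYDE hFS hCJ hTN hRS K L _ _ _ _ _ _ S χ Θ₁ Θ₂ hχ hreal hΘ₁ hΘ₂ hN
  obtain ⟨φ₁, T₁, hφ₁, hreg₁⟩ := StarkB.exists_isPhiTheta (K := K) (L := L)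
    (S : Set (HeightOneSpectrum (𝓞 K))) S.finite_toSet Θ₁ hΘ₁
  obtain ⟨φ₂, T₂, hφ₂, hreg₂⟩ := StarkB.exists_isPhiTheta (K := K) (L := L)
    (S : Set (HeightOneSpectrum (𝓞 K))) S.finite_toSet Θ₂ hΘ₂
  obtain ⟨x, hx0, hxm, hx⟩ := ZINx.ratio S φ₁ φ₂ T₁ T₂ hφ₁ hφ₂ χ hχ
  obtain ⟨f, α, hf, hα, hR⟩ := hN
  have hIrr0 : ∀ σ : ℂ ≃+* ℂ, IrrCh (gcj σ χ) := fun σ =>
    (hCJ hYDE (L ≃ₐ[K] L) χ hχ hreal σ).1
  have hfin : {η : (L ≃ₐ[K] L) → ℂ | ∃ σ : ℂ ≃+* ℂ, gcj σ χ = η}.Finite := by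
    refine (hFS (L ≃ₐ[K] L)).subset ?_
    rintro _ ⟨σ, rfl⟩
    exact hIrr0 σ
  obtain ⟨X, hX⟩ : ∃ X : Finset ((L ≃ₐ[K] L) → ℂ), ∀ η, η ∈ X ↔ ∃ σ : ℂ ≃+* ℂ, gcj σ χ = η :=
    ⟨hfin.toFinset, fun η => by rw [Set.Finite.mem_toFinset]; rfl⟩
  have hχX : χ ∈ X := (hX χ).2 ⟨RingEquiv.refl ℂ, rfl⟩
  have hStb : Stb X := by
    intro η hη σ
    obtain ⟨τ, hτ⟩ := (hX η).1 hη
    refine (hX _).2 ⟨τ.trans σ, ?_⟩
    rw [← hτ]
    rfl
  have hRep : RepC X (fun _ => χ) := fun η hη => ⟨hχX, (hX η).1 hη, fun σ => rfl⟩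
  obtain ⟨htr, hnorm⟩ := hTN (L ≃ₐ[K] L) X (fun _ => χ) χ hStb hRep hχX rfl hχ
  obtain ⟨s, hs⟩ : ∃ s : ((L ≃ₐ[K] L) → ℂ) → (ℂ ≃+* ℂ), ∀ η ∈ X, gcj (s η) χ = η := by
    refine ⟨fun η => if h : ∃ σ : ℂ ≃+* ℂ, gcj σ χ = η then h.choose else RingEquiv.refl ℂ,
      fun η hη => ?_⟩
    have h := (hX η).1 hη
    simp only [dif_pos h]
    exact h.choose_spec
  have hnx := hnorm s (fun η hη _ => hs η hη) ⟨x, hxm⟩
  have htr' : ∀ g, trChar χ g = ∑ χ' ∈ X, χ' g := fun g => by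
    have h := htr g
    rwa [Finset.filter_true_of_mem (fun _ _ => rfl)] at h
  rw [Finset.filter_true_of_mem (fun _ _ => rfl)] at hnx
  have hIrr : ∀ i : Fin X.card, ∃ (W : Type) (_ : AddCommGroup W) (_ : Module ℂ W)
      (_ : Module.Finite ℂ W) (κ : Representation ℂ (L ≃ₐ[K] L) W), κ.IsIrreducible ∧
        κ.character = (X.equivFin.symm i : (L ≃ₐ[K] L) → ℂ) := by
    intro i
    obtain ⟨σ, hσ⟩ := (hX _).1 (X.equivFin.symm i).2
    rw [← hσ]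
    exact hIrr0 σ
  choose W hW1 hW2 hW3 κ hκ1 hκ2 using hIrr
  have hTf : (aboveSet K L (S : Set (HeightOneSpectrum (𝓞 K)))).Finite :=
    IND.aboveSet_finite _ S.finite_toSet
  have hT := STB_thm K L (S : Set (HeightOneSpectrum (𝓞 K)))
  have hsum : ∀ (V : Type) [AddCommGroup V] [Module ℂ V] [Module.Finite ℂ V]
      (ρ : Representation ℂ (L ≃ₐ[K] L) V), ρ.character = trChar χ →
      ∀ g, ρ.character g = ∑ i, ((1 : ℕ) : ℂ) * (κ i).character g := by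
    intro V _ _ _ ρ hρ g
    rw [hρ, htr' g, ← Finset.sum_coe_sort X (fun χ' => χ' g),
      ← Equiv.sum_comp X.equivFin.symm]
    refine Finset.sum_congr rfl fun i _ => ?_
    rw [hκ2 i, Nat.cast_one, one_mul]
  have hprod : ∀ (φ : XQ L (aboveSet K L S) ≃ₗ[ℚ] QU L (aboveSet K L S))
      (T : XC L (aboveSet K L S) →ₗ[ℂ] XC L (aboveSet K L S)),
      IsPhiTheta K (aboveSet K L S) φ T →
      ∀ (V : Type) [AddCommGroup V] [Module ℂ V] [Module.Finite ℂ V]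
        (ρ : Representation ℂ (L ≃ₐ[K] L) V), ρ.character = trChar χ →
        Reg (aboveSet K L S) ρ T = ∏ i, Reg (aboveSet K L S) (κ i) T := by
    intro φ T hφ V _ _ _ ρ hρ
    have h := hRS K L _ hT T V ρ X.card W κ (fun _ => 1) hTf
      (ALLT.thc K L _ hT φ T hTf hφ) (ALLT.thb K L _ φ T hTf hφ) (hsum V ρ hρ)
    simpa only [pow_one] using h
  refine ⟨f, ⟨x, hxm⟩ * α, hf, mul_ne_zero ?_ hα, fun V _ _ _ ρ hρ => ?_⟩
  · intro h0
    exact hx0 (congrArg Subtype.val h0)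
  · have h2 : Reg (aboveSet K L S) ρ T₂ =
        ((Algebra.norm ℚ (⟨x, hxm⟩ : charField χ) : ℚ) : ℂ) * Reg (aboveSet K L S) ρ T₁ := by
      rw [hprod φ₂ T₂ hφ₂ V ρ hρ, hprod φ₁ T₁ hφ₁ V ρ hρ, ← hnx,
        ← Finset.prod_coe_sort X (fun χ' => s χ' x), ← Equiv.prod_comp X.equivFin.symm,
        ← Finset.prod_mul_distrib]
      refine Finset.prod_congr rfl fun i _ => ?_
      refine hx _ (W i) (κ i) ?_
      rw [hκ2 i]
      exact (hs _ (X.equivFin.symm i).2).symm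
    rw [show StarkP.Reg (StarkP.aboveSet K L S) ρ Θ₂ = _ from hreg₂ V ρ, h2, map_mul,
      Rat.cast_mul, ← hR V ρ hρ,
      show StarkP.Reg (StarkP.aboveSet K L S) ρ Θ₁ = _ from hreg₁ V ρ, mul_div_assoc]

end StarkC.ABS
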