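import Pool.Agent.ABS.StZ
import Pool.Agent.Stark.INFL
import Pool.Agent.Stark.XRAT

/-!
# Project ABS, part Z: the space `ℂ ⊗ X` in rational coordinates

The action of the Galois group is given by rational matrices, and every invertible rational matrix
which commutes with them gives a new isomorphism `φ₁`.
-/

set_option autoImplicit false

open NumberField IsDedekindDomain
open scoped TensorProduct Classical

namespace StarkC.ABS.ZPAx

section

variable {P Q : Type} [AddCommGroup P] [Module ℚ P] [AddCommGroup Q] [Module ℂ Q] {n : ℕ}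

/-- A rational matrix acts on both spaces in the same way. -/
theorem key (j : P →+ Q) (hj : ∀ (q : ℚ) (x : P), j (q • x) = (q : ℂ) • j x)
    (b : Module.Basis (Fin n) ℚ P) (c : Module.Basis (Fin n) ℂ Q) (hbc : ∀ i, c i = j (b i))
    (M : Matrix (Fin n) (Fin n) ℚ) (u : P →ₗ[ℚ] P) (hu : LinearMap.toMatrix b b u = M) (y : P) :
    Matrix.toLin c c (M.map (algebraMap ℚ ℂ)) (j y) = j (u y) := by
  have hb : ∀ i, Matrix.toLin c c (M.map (algebraMap ℚ ℂ)) (j (b i)) = j (u (b i)) := by
    intro i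
    rw [← hbc i, Matrix.toLin_self]
    have h1 : u (b i) = ∑ k, M k i • b k := by
      rw [← hu, ← Matrix.toLin_self b b, Matrix.toLin_toMatrix]
    rw [h1, map_sum]
    refine Finset.sum_congr rfl fun k _ => ?_
    rw [hj, ← hbc k]
    rfl
  have hy := b.sum_repr y
  rw [← hy]
  simp only [map_sum, hj, map_smul, hb]

end

section

variable {L : Type} [Field L] [NumberField L] {T : Set (HeightOneSpectrum (𝓞 L))}

/-- An element of `ℂ ⊗ X` is determined by its coefficients. -/
theorem val_inj {x y : XC L T} (h : x.val = y.val) : x = y := Subtype.ext h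

theorem iN_smul (q : ℚ) (x : XQ L T) : INFL.iN T (q • x) = (q : ℂ) • INFL.iN T x := by
  apply val_inj
  ext a
  rw [INFL.iN_val, map_smul, Finsupp.smul_apply, INFL.iN_val, smul_eq_mul]
  have h : (((q • x : XQ L T) : (L → ℝ) →₀ ℚ) a : ℚ) = q * ((x : (L → ℝ) →₀ ℚ) a) := rfl
  rw [h]
  push_cast
  rfl

end

section

variable {K L : Type} [Field K] [NumberField K] [Field L] [NumberField L] [Algebra K L]
  {T : Set (HeightOneSpectrum (𝓞 L))}

theorem iN_act (hT : StableT K T) (g : L ≃ₐ[K] L) (x : XQ L T) :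
    INFL.iN T (INFL.repQ T hT g x) = repX K T hT g (INFL.iN T x) := by
  apply val_inj
  exact INFL.castQC_act (g : L ≃+* L) _

end

end StarkC.ABS.ZPAx

namespace StarkC.ABS

open ZPAx

theorem ZPA_thm : Stmt_ZPA := by
  intro K L _ _ _ _ _ _ S hT
  have hTf : (aboveSet K L (S : Set (HeightOneSpectrum (𝓞 K)))).Finite :=
    INFL.finite_aboveSet S.finite_toSet
  obtain ⟨n, b, c, hbc'⟩ := XRAT_thm L (aboveSet K L (S : Set (HeightOneSpectrum (𝓞 K)))) hTf
  have hbc : ∀ i, c i = INFL.iN (aboveSet K L (S : Set (HeightOneSpectrum (𝓞 K)))) (b i) := by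
    intro i
    apply val_inj
    ext x
    rw [INFL.iN_val, hbc']
  let B : (L ≃ₐ[K] L) →* Matrix (Fin n) (Fin n) ℚ :=
    (LinearMap.toMatrixAlgEquiv b : _ →* Matrix (Fin n) (Fin n) ℚ).comp
      (INFL.repQ (aboveSet K L (S : Set (HeightOneSpectrum (𝓞 K)))) hT)
  have hB : ∀ g, LinearMap.toMatrix b b
      (INFL.repQ (aboveSet K L (S : Set (HeightOneSpectrum (𝓞 K)))) hT g) = B g := fun g => rfl
  have hA : ∀ g, Matrix.toLin c c (BC B g) =
      repX K (aboveSet K L (S : Set (HeightOneSpectrum (𝓞 K)))) hT g := by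
    intro g
    refine c.ext fun i => ?_
    rw [hbc i, ← iN_act hT g (b i)]
    exact key _ iN_smul b c hbc (B g) _ (hB g) (b i)
  have hco : ∀ (M : Matrix (Fin n) (Fin n) ℂ)
      (x : XC L (aboveSet K L (S : Set (HeightOneSpectrum (𝓞 K))))),
      c.equivFun (Matrix.toLin c c M x) = M.mulVec (c.equivFun x) := by
    intro M x
    have h1 := LinearMap.toMatrix_mulVec_repr c c (Matrix.toLin c c M) x
    rw [LinearMap.toMatrix_toLin] at h1
    exact h1.symm
  refine ⟨n, c, B, ?_, ?_⟩
  · intro g x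
    rw [← hA g, hco]
  · intro φ Θ ξ hφ hcomm hdet
    have hdet' : IsUnit ξ.det := isUnit_iff_ne_zero.2 hdet
    let e : XQ L (aboveSet K L (S : Set (HeightOneSpectrum (𝓞 K)))) ≃ₗ[ℚ]
        XQ L (aboveSet K L (S : Set (HeightOneSpectrum (𝓞 K)))) :=
      LinearEquiv.ofIsUnitDet (v := b) (v' := b) (f := Matrix.toLin b b ξ)
        (by rw [LinearMap.toMatrix_toLin]; exact hdet')
    have he : ∀ x, e x = Matrix.toLin b b ξ x := fun x => rfl
    have hξ : LinearMap.toMatrix b b (Matrix.toLin b b ξ) = ξ := LinearMap.toMatrix_toLin b b ξ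
    set A := Matrix.toLin c c (ξ.map (algebraMap ℚ ℂ)) with hAdef
    have hAe : ∀ x, A (INFL.iN (aboveSet K L (S : Set (HeightOneSpectrum (𝓞 K)))) x) =
        INFL.iN (aboveSet K L (S : Set (HeightOneSpectrum (𝓞 K)))) (e x) := by
      intro x
      rw [he x]
      exact key _ iN_smul b c hbc ξ _ hξ x
    have hAc : ∀ g : L ≃ₐ[K] L,
        A ∘ₗ repX K (aboveSet K L (S : Set (HeightOneSpectrum (𝓞 K)))) hT g =
          repX K (aboveSet K L (S : Set (HeightOneSpectrum (𝓞 K)))) hT g ∘ₗ A := by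
      intro g
      rw [← hA g, hAdef, ← Matrix.toLin_mul c c c, ← Matrix.toLin_mul c c c]
      congr 1
      show ξ.map (algebraMap ℚ ℂ) * (B g).map (algebraMap ℚ ℂ) =
        (B g).map (algebraMap ℚ ℂ) * ξ.map (algebraMap ℚ ℂ)
      rw [← Matrix.map_mul, ← Matrix.map_mul, hcomm g]
    have hdC : IsUnit (ξ.map (algebraMap ℚ ℂ)).det := by
      have h1 : (ξ.map (algebraMap ℚ ℂ)).det = algebraMap ℚ ℂ ξ.det :=
        (RingHom.map_det (algebraMap ℚ ℂ) ξ).symm
      rw [h1]
      exact hdet'.map (algebraMap ℚ ℂ)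
    have hAbij : Function.Bijective A := by
      let eC := LinearEquiv.ofIsUnitDet (v := c) (v' := c) (f := A)
        (by rw [hAdef, LinearMap.toMatrix_toLin]; exact hdC)
      exact eC.bijective
    -- the commutation on `ℚ ⊗ X`
    have hQc : ∀ (g : L ≃ₐ[K] L) (x),
        e (INFL.repQ (aboveSet K L (S : Set (HeightOneSpectrum (𝓞 K)))) hT g x) =
          INFL.repQ (aboveSet K L (S : Set (HeightOneSpectrum (𝓞 K)))) hT g (e x) := by
      intro g x
      have h1 : Matrix.toLin b b (B g) =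
          INFL.repQ (aboveSet K L (S : Set (HeightOneSpectrum (𝓞 K)))) hT g := by
        rw [← hB g, Matrix.toLin_toMatrix]
      rw [he, he, ← h1]
      have h2 : Matrix.toLin b b ξ ∘ₗ Matrix.toLin b b (B g) =
          Matrix.toLin b b (B g) ∘ₗ Matrix.toLin b b ξ := by
        rw [← Matrix.toLin_mul b b b, ← Matrix.toLin_mul b b b, hcomm g]
      exact LinearMap.congr_fun h2 x
    refine ⟨e.trans φ, Θ ∘ₗ A, A, ⟨?_, ?_⟩, rfl, hAbij, hAc, fun x => hco _ x⟩
    · intro g x y hxy
      have h6 : y = INFL.repQ (aboveSet K L (S : Set (HeightOneSpectrum (𝓞 K)))) hT g x :=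
        Subtype.ext hxy
      rw [LinearEquiv.trans_apply, LinearEquiv.trans_apply]
      refine hφ.1 g (e x) (e y) ?_
      rw [h6, hQc g x, INFL.repQ_val]
    · intro x z hz
      have h6 : z = INFL.iN (aboveSet K L (S : Set (HeightOneSpectrum (𝓞 K)))) x := by
        apply val_inj
        ext a
        rw [hz a, INFL.iN_val]
      rw [LinearMap.comp_apply, LinearEquiv.trans_apply]
      refine hφ.2 (e x) (A z) ?_
      intro a
      rw [h6, hAe x, INFL.iN_val]

end StarkC.ABS
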