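import Pool.Agent.ABS.StZ
import Pool.Agent.Stark.INFL

/-!
# Project ABS, module ZPB: the automorphism with given determinants
-/

set_option autoImplicit false

open NumberField IsDedekindDomain
open scoped TensorProduct Classical

namespace StarkC.ABS

open StarkP (charField trChar Realizable OccursIn)

namespace ZPBx

/-- `χ(g⁻¹)`. -/
def inv {G : Type} [Group G] (χ : G → ℂ) : G → ℂ := fun g => χ g⁻¹

theorem inv_inv' {G : Type} [Group G] (χ : G → ℂ) : inv (inv χ) = χ := by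
  funext g
  simp [inv]

theorem gcj_inv {G : Type} [Group G] (σ : ℂ ≃+* ℂ) (χ : G → ℂ) :
    gcj σ (inv χ) = inv (gcj σ χ) := rfl

theorem field_inv {G : Type} [Group G] (χ : G → ℂ) : charField (inv χ) = charField χ := by
  unfold charField
  congr 1
  ext z
  constructor
  · rintro ⟨g, rfl⟩
    exact ⟨g⁻¹, rfl⟩
  · rintro ⟨g, rfl⟩
    exact ⟨g⁻¹, by simp [inv]⟩

theorem real_inv {G : Type} [Group G] (χ : G → ℂ) (h : Realizable χ) : Realizable (inv χ) := by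
  obtain ⟨d, R, h1, h2⟩ := h
  refine ⟨d, ⟨⟨fun g => (R g⁻¹).transpose, ?_⟩, ?_⟩, ?_, ?_⟩
  · simp
  · intro g h
    show (R (g * h)⁻¹).transpose = (R g⁻¹).transpose * (R h⁻¹).transpose
    rw [mul_inv_rev, map_mul, Matrix.transpose_mul]
  · intro g i j
    rw [field_inv]
    exact h1 g⁻¹ j i
  · intro g
    show (R g⁻¹).transpose.trace = inv χ g
    rw [Matrix.trace_transpose, h2]
    rfl

section

variable {K L : Type} [Field K] [NumberField K] [Field L] [NumberField L] [Algebra K L]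
  {T : Set (HeightOneSpectrum (𝓞 L))}

theorem val_inj {x y : XC L T} (h : x.val = y.val) : x = y := Subtype.ext h

theorem homG_iff (hT : StableT K T) {V : Type} [AddCommGroup V] [Module ℂ V]
    (ρ : Representation ℂ (L ≃ₐ[K] L) V) (f : Module.Dual ℂ V →ₗ[ℂ] XC L T) :
    f ∈ homG T ρ ↔ ∀ (g : L ≃ₐ[K] L) (α : Module.Dual ℂ V),
      f (ρ.dual g α) = repX K T hT g (f α) := by
  constructor
  · intro hf g α
    exact val_inj (hf g α)
  · intro hf g α
    rw [hf g α]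
    rfl

theorem itw_iff (hT : StableT K T) {V : Type} [AddCommGroup V] [Module ℂ V] {n : ℕ}
    (c : Module.Basis (Fin n) ℂ (XC L T)) (B : (L ≃ₐ[K] L) →* Matrix (Fin n) (Fin n) ℚ)
    (hB : ∀ (g : L ≃ₐ[K] L) (x : XC L T),
      c.equivFun (repX K T hT g x) = (BC B g).mulVec (c.equivFun x))
    (ρ : Representation ℂ (L ≃ₐ[K] L) V) (f : Module.Dual ℂ V →ₗ[ℂ] XC L T) :
    f ∈ homG T ρ ↔ Itw B ρ.dual ((c.equivFun : XC L T →ₗ[ℂ] (Fin n → ℂ)) ∘ₗ f) := by
  rw [homG_iff hT]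
  constructor
  · intro hf g α
    show c.equivFun (f (ρ.dual g α)) = (BC B g).mulVec (c.equivFun (f α))
    rw [hf g α, hB]
  · intro hf g α
    apply c.equivFun.injective
    rw [hB]
    exact hf g α

end

end ZPBx

open ZPBx

theorem ZPB_thm : Stmt_ZPB := by
  intro hFIXC hYDE hZDU hZRR hZPR hZEQ hZRT hZHM hZBI hZRG hZA K L _ _ _ _ _ _ S φ Θ hT X a hφ
    hStb hReal ha0 hσ hocc
  have hTf : (aboveSet K L (S : Set (HeightOneSpectrum (𝓞 K)))).Finite :=
    INFL.finite_aboveSet S.finite_toSet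
  obtain ⟨n, c, B, hB, hmain⟩ := hZA K L S hT
  set Y : Finset ((L ≃ₐ[K] L) → ℂ) := X.image inv with hY
  have hYm : ∀ η, η ∈ Y ↔ inv η ∈ X := by
    intro η
    rw [hY, Finset.mem_image]
    constructor
    · rintro ⟨χ, h1, rfl⟩
      rw [inv_inv']
      exact h1
    · intro h
      exact ⟨inv η, h, inv_inv' η⟩
  have hYS : Stb Y := by
    intro η hη σ
    rw [hYm] at hη ⊢
    rw [← gcj_inv]
    exact hStb _ hη σ
  have hkey : ∀ η ∈ Y, IrrCh η ∧ ∃ e : Matrix (Fin n) (Fin n) ℂ, Pj B η e ∧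
      ∀ i j, e i j ∈ charField η := by
    intro η hη
    rw [hYm] at hη
    obtain ⟨V, _, _, _, ρ, h1, h2, f, hf0, hf1, hf2⟩ := hocc _ hη
    obtain ⟨h3, h4⟩ := hZDU (L ≃ₐ[K] L) V ρ h1
    have h5 : ρ.dual.character = η := by
      rw [h4, h2]
      exact inv_inv' η
    refine ⟨⟨Module.Dual ℂ V, _, _, inferInstance, ρ.dual, h3, h5⟩, ?_⟩
    let f' : Module.Dual ℂ V →ₗ[ℂ] XC L (aboveSet K L (S : Set (HeightOneSpectrum (𝓞 K)))) :=
      LinearMap.codRestrict (XCsub L (aboveSet K L (S : Set (HeightOneSpectrum (𝓞 K))))) f hf1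
    have hf' : f' ∈ homG (aboveSet K L (S : Set (HeightOneSpectrum (𝓞 K)))) ρ := by
      intro g α
      exact hf2 g α
    refine hZPR (L ≃ₐ[K] L) n B η (Module.Dual ℂ V) ρ.dual _ h3 h5
      ((itw_iff hT c B hB ρ f').1 hf') ?_ ?_
    · intro h6
      apply hf0
      refine LinearMap.ext fun α => ?_
      have h7 := LinearMap.congr_fun h6 α
      have h8 : c.equivFun (f' α) = 0 := h7
      have h9 : f' α = 0 := by
        apply c.equivFun.injective
        rw [h8, map_zero]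
      exact congrArg Subtype.val h9
    · have h6 := real_inv _ (hReal _ hη)
      rwa [inv_inv'] at h6
  obtain ⟨r, hr⟩ := hZRR (L ≃ₐ[K] L) Y hYS
  obtain ⟨E, hE1, hE2⟩ := hZEQ (L ≃ₐ[K] L) n B Y r hYS hr (fun η hη => (hkey η hη).2)
  obtain ⟨ξ, hξ1, hξ2⟩ := hZRT hFIXC (L ≃ₐ[K] L) n B Y E (fun η => a (inv η)) hYS hE1 hE2 (by
    intro σ η hη
    exact hσ σ _ ((hYm η).1 hη))
  have hdet : ξ.det ≠ 0 := by
    have h1 := hZBI hYDE hZHM (L ≃ₐ[K] L) n B Y E (fun η => a (inv η))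
      (fun η hη => ⟨(hkey η hη).1, hE1 η hη, ha0 _ ((hYm η).1 hη)⟩)
    rw [← hξ2] at h1
    intro h2
    apply h1
    have h3 := RingHom.map_det (algebraMap ℚ ℂ) ξ
    rw [h2, map_zero] at h3
    rw [← RingHom.mapMatrix_apply, ← h3]
  obtain ⟨φ₁, Θ₁, A, g1, g2, g3, g4, g5⟩ := hmain φ Θ ξ hφ hξ1 hdet
  refine ⟨φ₁, Θ₁, A, g1, g2, g3, g4, ?_⟩
  intro V _ _ _ ρ hρ hρX
  obtain ⟨h3, h4⟩ := hZDU (L ≃ₐ[K] L) V ρ hρ
  have h5 : ρ.dual.character = inv ρ.character := h4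
  have hη : inv ρ.character ∈ Y := by
    rw [hYm, inv_inv']
    exact hρX
  obtain ⟨i₀, l, h6, h7, h8⟩ := (hZHM (L ≃ₐ[K] L) n B (inv ρ.character) (E (inv ρ.character))
    (Module.Dual ℂ V) ρ.dual (hE1 _ hη) (hkey _ hη).1 h3).2 h5
  have h9 : ∀ η ∈ Y, η ≠ inv ρ.character → ∀ f, Itw B ρ.dual f → ∀ w, (E η).mulVec (f w) = 0 := by
    intro η hη' hne
    refine (hZHM (L ≃ₐ[K] L) n B η (E η) (Module.Dual ℂ V) ρ.dual (hE1 _ hη') (hkey _ hη').1 h3).1
      ?_
    rw [h5]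
    exact fun h => hne h.symm
  let i₁ : Module.Dual ℂ V →ₗ[ℂ] XC L (aboveSet K L (S : Set (HeightOneSpectrum (𝓞 K)))) :=
    (c.equivFun.symm : (Fin n → ℂ) →ₗ[ℂ]
      XC L (aboveSet K L (S : Set (HeightOneSpectrum (𝓞 K))))) ∘ₗ i₀
  have hi₁ : (c.equivFun : XC L (aboveSet K L (S : Set (HeightOneSpectrum (𝓞 K)))) →ₗ[ℂ]
      (Fin n → ℂ)) ∘ₗ i₁ = i₀ := by
    refine LinearMap.ext fun w => ?_
    exact c.equivFun.apply_symm_apply (i₀ w)
  let l₁ : (Module.Dual ℂ V →ₗ[ℂ] XC L (aboveSet K L (S : Set (HeightOneSpectrum (𝓞 K))))) →ₗ[ℂ]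
      ℂ := (a ρ.character - 1) • (l ∘ₗ LinearMap.compRight ℂ
        (c.equivFun : XC L (aboveSet K L (S : Set (HeightOneSpectrum (𝓞 K)))) →ₗ[ℂ]
          (Fin n → ℂ)))
  have hl₁ : ∀ f, l₁ f = (a ρ.character - 1) * l ((c.equivFun :
      XC L (aboveSet K L (S : Set (HeightOneSpectrum (𝓞 K)))) →ₗ[ℂ] (Fin n → ℂ)) ∘ₗ f) :=
    fun f => rfl
  have hfin := hZRG K L (aboveSet K L (S : Set (HeightOneSpectrum (𝓞 K)))) hT V ρ A i₁ l₁ hTf g4
    (by
      rw [itw_iff hT c B hB, hi₁]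
      exact h6)
    (by
      intro f hf
      rw [itw_iff hT c B hB] at hf
      refine LinearMap.ext fun w => ?_
      apply c.equivFun.injective
      have e1 : c.equivFun ((A ∘ₗ f) w) =
          (ξ.map (algebraMap ℚ ℂ)).mulVec (c.equivFun (f w)) := g5 (f w)
      rw [e1, hξ2, Matrix.add_mulVec, Matrix.one_mulVec, Matrix.sum_mulVec]
      rw [Finset.sum_eq_single_of_mem (inv ρ.character) hη]
      · rw [Matrix.smul_mulVec]
        have e2 := h8 _ hf w
        have e3 : (E (inv ρ.character)).mulVec (c.equivFun (f w)) =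
            l ((c.equivFun : XC L (aboveSet K L (S : Set (HeightOneSpectrum (𝓞 K)))) →ₗ[ℂ]
              (Fin n → ℂ)) ∘ₗ f) • i₀ w := e2
        rw [e3]
        have e4 : c.equivFun ((f + l₁ f • i₁) w) = c.equivFun (f w) + l₁ f • i₀ w := by
          rw [LinearMap.add_apply, LinearMap.smul_apply, map_add, map_smul]
          congr 2
          exact c.equivFun.apply_symm_apply (i₀ w)
        rw [e4, hl₁, smul_smul, inv_inv']
      · intro η hη' hne
        rw [Matrix.smul_mulVec]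
        have e2 : (E η).mulVec (c.equivFun (f w)) = 0 := h9 η hη' hne _ hf w
        rw [e2, smul_zero])
  rw [hfin, hl₁, hi₁, h7]
  ring

end StarkC.ABS
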