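import Pool.Agent.ABS.StZ

/-!
# Project ABS, part Z, module ZPR (helper13): an equivariant idempotent over the field of the character
-/

set_option autoImplicit false

open NumberField IsDedekindDomain
open scoped TensorProduct Classical

namespace StarkC.ABS.ZPRx

open Representation

variable {G : Type} [Group G] {n d : ℕ}

/-- the representation given by the matrices `R g` -/
noncomputable def RR (R : G →* Matrix (Fin d) (Fin d) ℂ) : Representation ℂ G (Fin d → ℂ) where
  toFun g := Matrix.toLin' (R g)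
  map_one' := by
    show Matrix.toLin' (R 1) = 1
    rw [map_one, Matrix.toLin'_one]
    rfl
  map_mul' g h := by
    show Matrix.toLin' (R (g * h)) = Matrix.toLin' (R g) * Matrix.toLin' (R h)
    rw [map_mul, Matrix.toLin'_mul]
    rfl

theorem RR_apply (R : G →* Matrix (Fin d) (Fin d) ℂ) (g : G) (v : Fin d → ℂ) :
    RR R g v = (R g).mulVec v := rfl

theorem char_RR (R : G →* Matrix (Fin d) (Fin d) ℂ) (g : G) :
    (RR R).character g = (R g).trace := by
  show LinearMap.trace ℂ (Fin d → ℂ) (Matrix.toLin' (R g)) = _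
  rw [Matrix.trace_toLin'_eq]

theorem BC_one (B : G →* Matrix (Fin n) (Fin n) ℚ) : BC B 1 = 1 := by
  unfold BC
  rw [map_one, Matrix.map_one _ (map_zero _) (map_one _)]

theorem BC_mul (B : G →* Matrix (Fin n) (Fin n) ℚ) (g h : G) : BC B (g * h) = BC B g * BC B h := by
  unfold BC
  rw [map_mul, Matrix.map_mul]

/-- the spaces of intertwining maps have dimension one -/
theorem fin_one [Fintype G] {W : Type} [AddCommGroup W] [Module ℂ W] [Module.Finite ℂ W]
    (κ : Representation ℂ G W) [κ.IsIrreducible] (R : G →* Matrix (Fin d) (Fin d) ℂ)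
    (h : κ.character = (RR R).character) :
    Module.finrank ℂ (IntertwiningMap (RR R) κ) = 1 ∧
      Module.finrank ℂ (IntertwiningMap (RR R) (RR R)) = 1 := by
  have : Invertible (Nat.card G : ℂ) :=
    invertibleOfNonzero (Nat.cast_ne_zero.2 (Nat.card_pos.ne'))
  have h1 := card_inv_mul_sum_char_mul_char_eq_finrank κ κ
  have h2 := card_inv_mul_sum_char_mul_char_eq_finrank (RR R) κ
  have h3 := card_inv_mul_sum_char_mul_char_eq_finrank (RR R) (RR R)
  rw [IsIrreducible.finrank_intertwiningMap_self κ] at h1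
  rw [h] at h1 h2
  exact ⟨by exact_mod_cast h2.symm.trans h1, by exact_mod_cast h3.symm.trans h1⟩

/-- a nonzero intertwining matrix from `R` to `B` -/
theorem exists_Z [Fintype G] {W : Type} [AddCommGroup W] [Module ℂ W] [Module.Finite ℂ W]
    (B : G →* Matrix (Fin n) (Fin n) ℚ)
    (κ : Representation ℂ G W) [κ.IsIrreducible] (f : W →ₗ[ℂ] (Fin n → ℂ)) (hf : Itw B κ f)
    (hf0 : f ≠ 0) (R : G →* Matrix (Fin d) (Fin d) ℂ)
    (h : κ.character = (RR R).character) :
    ∃ Z : Matrix (Fin n) (Fin d) ℂ, Z ≠ 0 ∧ ∀ g, BC B g * Z = Z * R g := by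
  obtain ⟨T, hT0, -⟩ := finrank_eq_one_iff'.1 (fin_one κ R h).1
  have hs : Function.Surjective T := (IsIrreducible.surjective_or_eq_zero T).resolve_right hT0
  refine ⟨LinearMap.toMatrix' (f ∘ₗ T.toLinearMap), fun h0 => hf0 ?_, fun g => ?_⟩
  · have h1 : f ∘ₗ T.toLinearMap = 0 := LinearMap.toMatrix'.injective (by rw [h0, map_zero])
    refine LinearMap.ext fun w => ?_
    obtain ⟨v, rfl⟩ := hs w
    exact LinearMap.congr_fun h1 v
  · apply Matrix.toLin'.injective
    refine LinearMap.ext fun v => ?_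
    rw [Matrix.toLin'_mul, Matrix.toLin'_mul, Matrix.toLin'_toMatrix']
    show (BC B g).mulVec (f (T.toLinearMap v)) = f (T.toLinearMap ((R g).mulVec v))
    rw [← hf g]
    have h1 := LinearMap.congr_fun (T.isIntertwining' g) v
    have h2 : T.toLinearMap (RR R g v) = κ g (T.toLinearMap v) := h1
    rw [RR_apply] at h2
    rw [h2]

/-- the averaged matrix unit `(a, b)` -/
noncomputable def av [Fintype G] (B : G →* Matrix (Fin n) (Fin n) ℚ)
    (R : G →* Matrix (Fin d) (Fin d) ℂ) (E : Matrix (Fin n) (Fin d) ℂ) : Matrix (Fin n) (Fin d) ℂ :=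
  ∑ g : G, BC B g * E * R g⁻¹

/-- the averaged matrix unit `(b, a)` -/
noncomputable def aw [Fintype G] (B : G →* Matrix (Fin n) (Fin n) ℚ)
    (R : G →* Matrix (Fin d) (Fin d) ℂ) (E : Matrix (Fin d) (Fin n) ℂ) : Matrix (Fin d) (Fin n) ℂ :=
  ∑ g : G, R g * E * BC B g⁻¹

theorem av_comm [Fintype G] (B : G →* Matrix (Fin n) (Fin n) ℚ)
    (R : G →* Matrix (Fin d) (Fin d) ℂ) (E : Matrix (Fin n) (Fin d) ℂ) (h : G) :
    BC B h * av B R E = av B R E * R h := by
  unfold av
  rw [Matrix.mul_sum, Matrix.sum_mul]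
  refine Fintype.sum_equiv (Equiv.mulLeft h) _ _ fun g => ?_
  rw [Equiv.coe_mulLeft, BC_mul, mul_inv_rev, map_mul]
  simp only [Matrix.mul_assoc]
  rw [← map_mul R h⁻¹ h, inv_mul_cancel, map_one, Matrix.mul_one]

theorem aw_comm [Fintype G] (B : G →* Matrix (Fin n) (Fin n) ℚ)
    (R : G →* Matrix (Fin d) (Fin d) ℂ) (E : Matrix (Fin d) (Fin n) ℂ) (h : G) :
    R h * aw B R E = aw B R E * BC B h := by
  unfold aw
  rw [Matrix.mul_sum, Matrix.sum_mul]
  refine Fintype.sum_equiv (Equiv.mulLeft h) _ _ fun g => ?_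
  rw [Equiv.coe_mulLeft, map_mul, mul_inv_rev, BC_mul]
  simp only [Matrix.mul_assoc]
  rw [← BC_mul B h⁻¹ h, inv_mul_cancel, BC_one, Matrix.mul_one]

theorem exists_unit [Fintype G] (B : G →* Matrix (Fin n) (Fin n) ℚ)
    (R : G →* Matrix (Fin d) (Fin d) ℂ) (Z : Matrix (Fin n) (Fin d) ℂ) (hZ : Z ≠ 0)
    (h : ∀ g, BC B g * Z = Z * R g) : ∃ a b, av B R (Matrix.single a b 1) ≠ 0 := by
  by_contra hcon
  push Not at hcon
  have h1 : av B R Z = (Fintype.card G : ℂ) • Z := by
    unfold av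
    have : ∀ g : G, BC B g * Z * R g⁻¹ = Z := fun g => by
      rw [h g, Matrix.mul_assoc, ← map_mul, mul_inv_cancel, map_one, Matrix.mul_one]
    rw [Finset.sum_congr rfl fun g _ => this g, Finset.sum_const, Finset.card_univ,
      Nat.cast_smul_eq_nsmul]
  have h2 : av B R Z = 0 := by
    have h3 : Z = ∑ a, ∑ b, Z a b • Matrix.single a b (1 : ℂ) := by
      conv_lhs => rw [Matrix.matrix_eq_sum_single Z]
      refine Finset.sum_congr rfl fun a _ => Finset.sum_congr rfl fun b _ => ?_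
      rw [Matrix.smul_single, smul_eq_mul, mul_one]
    have h4 : av B R Z = ∑ a, ∑ b, Z a b • av B R (Matrix.single a b 1) := by
      conv_lhs => rw [h3]
      unfold av
      simp only [Finset.smul_sum, Matrix.mul_sum, Matrix.sum_mul, Matrix.mul_smul, Matrix.smul_mul]
      rw [Finset.sum_comm]
      refine Finset.sum_congr rfl fun a _ => ?_
      rw [Finset.sum_comm]
    rw [h4]
    simp [hcon]
  rw [h1] at h2
  have h5 : (Fintype.card G : ℂ) ≠ 0 := Nat.cast_ne_zero.2 Fintype.card_ne_zero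
  exact hZ ((smul_eq_zero.1 h2).resolve_left h5)

theorem trace_aw [Fintype G] (B : G →* Matrix (Fin n) (Fin n) ℚ)
    (R : G →* Matrix (Fin d) (Fin d) ℂ) (i : Matrix (Fin n) (Fin d) ℂ)
    (h : ∀ g, BC B g * i = i * R g) (a : Fin n) (b : Fin d) :
    (aw B R (Matrix.single b a 1) * i).trace = (Fintype.card G : ℂ) * i a b := by
  unfold aw
  rw [Matrix.sum_mul, Matrix.trace_sum]
  have : ∀ g : G, (R g * Matrix.single b a (1 : ℂ) * BC B g⁻¹ * i).trace = i a b := fun g => by
    rw [Matrix.mul_assoc, h, ← Matrix.mul_assoc, Matrix.trace_mul_comm, ← Matrix.mul_assoc,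
      ← Matrix.mul_assoc, ← map_mul, inv_mul_cancel, map_one, Matrix.one_mul,
      Matrix.trace_mul_comm, Matrix.trace_mul_single, MulOpposite.op_one, one_smul]
  rw [Finset.sum_congr rfl fun g _ => this g, Finset.sum_const, Finset.card_univ, nsmul_eq_mul]

/-- Schur's lemma -/
theorem scalar [Fintype G] {W : Type} [AddCommGroup W] [Module ℂ W] [Module.Finite ℂ W]
    (κ : Representation ℂ G W) [κ.IsIrreducible] (R : G →* Matrix (Fin d) (Fin d) ℂ)
    (h : κ.character = (RR R).character) (M : Matrix (Fin d) (Fin d) ℂ) (hM : M ≠ 0)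
    (hc : ∀ g, R g * M = M * R g) : ∃ β : ℂ, M = β • (1 : Matrix (Fin d) (Fin d) ℂ) := by
  let I : IntertwiningMap (RR R) (RR R) := ⟨LinearMap.id, fun g => rfl⟩
  let N : IntertwiningMap (RR R) (RR R) := ⟨Matrix.toLin' M, fun g => by
    refine LinearMap.ext fun v => ?_
    show M.mulVec ((R g).mulVec v) = (R g).mulVec (M.mulVec v)
    rw [Matrix.mulVec_mulVec, Matrix.mulVec_mulVec, hc g]⟩
  have hI : I ≠ 0 := by
    intro h0
    apply hM
    have h1 : (LinearMap.id : (Fin d → ℂ) →ₗ[ℂ] (Fin d → ℂ)) = 0 :=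
      congrArg (fun T : IntertwiningMap (RR R) (RR R) => T.toLinearMap) h0
    apply Matrix.toLin'.injective
    rw [map_zero, ← LinearMap.comp_id (Matrix.toLin' M), h1, LinearMap.comp_zero]
  obtain ⟨β, hβ⟩ := (finrank_eq_one_iff_of_nonzero' I hI).1 (fin_one κ R h).2 N
  refine ⟨β, Matrix.toLin'.injective ?_⟩
  have h1 : β • (LinearMap.id : (Fin d → ℂ) →ₗ[ℂ] (Fin d → ℂ)) = Matrix.toLin' M :=
    congrArg (fun T : IntertwiningMap (RR R) (RR R) => T.toLinearMap) hβ
  rw [← h1, map_smul, Matrix.toLin'_one]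

end StarkC.ABS.ZPRx

namespace StarkC.ABS

open ZPRx Representation

theorem ZPR_thm : Stmt_ZPR := by
  intro G _ _ n B η W _ _ _ κ f hirr hη hf hf0 hR
  obtain ⟨d, R, hRF, hRt⟩ := hR
  have := hirr
  have h : κ.character = (RR R).character := by
    rw [hη]
    funext g
    rw [char_RR, hRt]
  obtain ⟨Z, hZ0, hZ⟩ := exists_Z B κ f hf hf0 R h
  obtain ⟨a₀, b₀, hi0⟩ := exists_unit B R Z hZ0 hZ
  have hi := av_comm B R (Matrix.single a₀ b₀ 1)
  have hiF : ∀ a b, av B R (Matrix.single a₀ b₀ 1) a b ∈ StarkP.charField η := by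
    intro a b
    unfold av
    rw [Matrix.sum_apply]
    refine sum_mem fun g _ => ?_
    rw [Matrix.mul_assoc, Matrix.mul_apply]
    refine sum_mem fun x _ => mul_mem ?_ ?_
    · exact (StarkP.charField η).algebraMap_mem (B g a x)
    · rw [Matrix.mul_apply]
      refine sum_mem fun y _ => mul_mem ?_ (hRF _ _ _)
      rw [Matrix.single_apply]
      split_ifs
      · exact one_mem _
      · exact zero_mem _
  obtain ⟨a, b, hab⟩ : ∃ a b, av B R (Matrix.single a₀ b₀ 1) a b ≠ 0 := by
    by_contra hcon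
    push Not at hcon
    exact hi0 (Matrix.ext fun a b => hcon a b)
  generalize av B R (Matrix.single a₀ b₀ 1) = i at hi hiF hab
  have hp := aw_comm B R (Matrix.single b a 1)
  have hpF : ∀ x y, aw B R (Matrix.single b a 1) x y ∈ StarkP.charField η := by
    intro x y
    unfold aw
    rw [Matrix.sum_apply]
    refine sum_mem fun g _ => ?_
    rw [Matrix.mul_assoc, Matrix.mul_apply]
    refine sum_mem fun z _ => mul_mem (hRF _ _ _) ?_
    rw [Matrix.mul_apply]
    refine sum_mem fun w _ => mul_mem ?_ ?_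
    · rw [Matrix.single_apply]
      split_ifs
      · exact one_mem _
      · exact zero_mem _
    · exact (StarkP.charField η).algebraMap_mem (B g⁻¹ w y)
  have htr := trace_aw B R i hi a b
  generalize aw B R (Matrix.single b a 1) = p at hp hpF htr
  have hM0 : p * i ≠ 0 := by
    intro h0
    rw [h0, Matrix.trace_zero] at htr
    exact (mul_ne_zero (Nat.cast_ne_zero.2 Fintype.card_ne_zero) hab) htr.symm
  have hMc : ∀ g, R g * (p * i) = p * i * R g := fun g => by
    rw [← Matrix.mul_assoc, hp g, Matrix.mul_assoc, hi g, Matrix.mul_assoc]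
  obtain ⟨β, hβ⟩ := scalar κ R h (p * i) hM0 hMc
  have hβ0 : β ≠ 0 := by
    rintro rfl
    rw [zero_smul] at hβ
    exact hM0 hβ
  have hβF : β ∈ StarkP.charField η := by
    have h1 : (p * i) b b = β := by
      rw [hβ, Matrix.smul_apply, Matrix.one_apply_eq, smul_eq_mul, mul_one]
    rw [← h1, Matrix.mul_apply]
    exact sum_mem fun x _ => mul_mem (hpF _ _) (hiF _ _)
  refine ⟨β⁻¹ • (i * p), ⟨?_, fun g => ?_, fun g => ?_⟩, fun x y => ?_⟩
  · rw [Matrix.smul_mul, Matrix.mul_smul, Matrix.mul_assoc, ← Matrix.mul_assoc p i p, hβ,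
      Matrix.smul_mul, Matrix.one_mul, Matrix.mul_smul, smul_smul β⁻¹ β, inv_mul_cancel₀ hβ0,
      one_smul]
  · rw [Matrix.smul_mul, Matrix.mul_smul, Matrix.mul_assoc, ← hp g, ← Matrix.mul_assoc, ← hi g,
      Matrix.mul_assoc]
  · rw [Matrix.smul_mul, Matrix.trace_smul, Matrix.mul_assoc, ← hp g, Matrix.trace_mul_comm,
      Matrix.mul_assoc, hβ, Matrix.mul_smul, Matrix.mul_one, Matrix.trace_smul, hRt, smul_smul,
      inv_mul_cancel₀ hβ0, one_smul]
  · rw [Matrix.smul_apply, Matrix.mul_apply, smul_eq_mul]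
    exact mul_mem (inv_mem hβF) (sum_mem fun z _ => mul_mem (hiF _ _) (hpF _ _))

end StarkC.ABS
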