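import Pool.Agent.ABS.StZ

/-!
# Project ABS, module ZRG: the regulator of a representation for a transvection
-/

set_option autoImplicit false

open NumberField IsDedekindDomain
open scoped TensorProduct Classical

namespace StarkC.ABS

/-- **ZRG**: the regulator of a representation for a transvection. -/
theorem ZRG_thm : Stmt_ZRG := by
  intro K L _ _ _ _ _ T hT V _ _ _ ρ A i₀ l hfin hA hi hx
  obtain ⟨n, -, c, -⟩ := XRAT_thm L T hfin
  have hfd : Module.Finite ℂ (XC L T) := Module.Finite.of_basis c
  have hst := PHIR.hom_stable hT ρ A hA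
  rw [Reg, dif_pos hst]
  have h1 : ((LinearMap.compRight ℂ A).restrict hst) =
      LinearMap.transvection (l ∘ₗ (homG T ρ).subtype) (⟨i₀, hi⟩ : homG T ρ) := by
    refine LinearMap.ext fun f => ?_
    rw [LinearMap.transvection.apply]
    apply Subtype.ext
    exact hx f.1 f.2
  rw [h1, LinearMap.transvection.det]
  rfl

end StarkC.ABS
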