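import Pool.Agent.ABS.StZ

/-!
# ABS, module ZRR (helper12): representatives of the classes of conjugate functions
-/

set_option autoImplicit false

namespace StarkC.ABS

namespace ZRRx

/-- Conjugate functions are equivalent. -/
def cs (G : Type) : Setoid (G → ℂ) where
  r χ χ' := ∃ σ : ℂ ≃+* ℂ, gcj σ χ = χ'
  iseqv :=
    { refl := fun χ => ⟨RingEquiv.refl ℂ, funext fun _ => rfl⟩
      symm := by
        rintro χ χ' ⟨σ, rfl⟩
        exact ⟨σ.symm, funext fun g => σ.symm_apply_apply (χ g)⟩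
      trans := by
        rintro χ χ' χ'' ⟨σ, rfl⟩ ⟨τ, rfl⟩
        exact ⟨σ.trans τ, funext fun _ => rfl⟩ }

end ZRRx

theorem ZRR_thm : Stmt_ZRR := by
  intro G X hX
  refine ⟨fun χ => Quotient.out (Quotient.mk (ZRRx.cs G) χ), fun χ hχ => ?_⟩
  have h1 : (ZRRx.cs G).r (Quotient.out (Quotient.mk (ZRRx.cs G) χ)) χ :=
    Quotient.mk_out (s := ZRRx.cs G) χ
  obtain ⟨τ, hτ⟩ := (ZRRx.cs G).symm h1
  refine ⟨?_, h1, fun σ => ?_⟩
  · show Quotient.out (Quotient.mk (ZRRx.cs G) χ) ∈ X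
    rw [← hτ]
    exact hX χ hχ τ
  · show Quotient.out (Quotient.mk (ZRRx.cs G) (gcj σ χ)) =
      Quotient.out (Quotient.mk (ZRRx.cs G) χ)
    exact congrArg Quotient.out (Quotient.sound ((ZRRx.cs G).symm ⟨σ, rfl⟩))

end StarkC.ABS
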