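import Pool.Agent.ABS.StZ

/-!
# Project ABS, part Z: the regulator of a sum
-/

open NumberField IsDedekindDomain
open scoped TensorProduct Classical

namespace StarkC.ABS

theorem ZRS_thm : Stmt_ZRS := by
  intro K L _ _ _ _ _ T hT A V _ _ _ ρ m V' _ _ _ ρ' c hTf hc hb h
  obtain ⟨W₀, _, _, _, B₀, hdet0, -, htr0⟩ := ALLT.rgt K L T hT A V ρ hTf hc hb
  choose W hW1 hW2 hW3 B hdet hne htr using fun i : Fin m =>
    ALLT.rgt K L T hT A (V' i) (ρ' i) hTf hc hb
  have key := @TRD_thm m W₀ _ _ _ B₀ W hW1 hW2 hW3 B (fun i => (c i : ℤ)) hne ?_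
  · rw [hdet0] at key
    rw [key]
    refine Finset.prod_congr rfl fun i _ => ?_
    rw [zpow_natCast, hdet i]
  · intro k
    rw [htr0 k]
    have h1 : (∑ g : L ≃ₐ[K] L, ρ.character g *
        LinearMap.trace ℂ (XC L T) (repX K T hT g ∘ₗ (A ^ k))) =
        ∑ i, (c i : ℂ) * ∑ g : L ≃ₐ[K] L, (ρ' i).character g *
          LinearMap.trace ℂ (XC L T) (repX K T hT g ∘ₗ (A ^ k)) := by
      simp only [Finset.mul_sum]
      rw [Finset.sum_comm]
      refine Finset.sum_congr rfl fun g _ => ?_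
      rw [h, Finset.sum_mul]
      refine Finset.sum_congr rfl fun i _ => ?_
      rw [mul_assoc]
    rw [h1, Finset.sum_div]
    refine Finset.sum_congr rfl fun i _ => ?_
    rw [htr i k, Int.cast_natCast, mul_div_assoc]

end StarkC.ABS
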