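import Pool.Agent.ABS.StY

/-!
# Project ABS, part Y: the rational function `u` (module YFO)
-/

set_option autoImplicit false

open scoped Classical

namespace StarkC.ABS

namespace YFOx

theorem adjoin_one : IntermediateField.adjoin ℚ {z : ℂ | z ^ 1 = 1} = ⊥ := by
  rw [IntermediateField.adjoin_eq_bot_iff]
  intro z hz
  have hz' : z ^ 1 = 1 := hz
  rw [pow_one] at hz'
  rw [hz']
  exact one_mem _

theorem cyc_one : Cyc 1 = ⊥ := adjoin_one

/-- a number fixed by all automorphisms is rational -/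
theorem rat_of_fixed (h : Stmt_FIXC) (x : ℂ) (hx : ∀ σ : ℂ ≃+* ℂ, σ x = x) :
    ∃ q : ℚ, (q : ℂ) = x := by
  have h1 : x ∈ Cyc 1 := h 1 x fun σ _ => hx σ
  rw [cyc_one, IntermediateField.mem_bot] at h1
  obtain ⟨q, hq⟩ := h1
  exact ⟨q, by rw [← hq]; rfl⟩

theorem twist_coe {G : Type} [Group G] (σ : ℂ ≃+* ℂ) (ψ : G →* ℂˣ) (g : G) :
    ((twist σ ψ g : ℂˣ) : ℂ) = σ ((ψ g : ℂˣ) : ℂ) := rfl

theorem map_extZ {G : Type} [Group G] (σ : ℂ ≃+* ℂ) (p : Pr G) (g : G) :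
    σ (extZ (p.2⁻¹) g) = extZ ((tw σ p).2⁻¹) g := by
  unfold extZ
  show σ (if h : g ∈ p.1 then (((p.2⁻¹ : p.1 →* ℂˣ) ⟨g, h⟩ : ℂˣ) : ℂ) else 0) =
    if h : g ∈ p.1 then ((((twist σ p.2)⁻¹ : p.1 →* ℂˣ) ⟨g, h⟩ : ℂˣ) : ℂ) else 0
  split
  · rename_i h
    rw [MonoidHom.inv_apply, MonoidHom.inv_apply, Units.val_inv_eq_inv_val,
      Units.val_inv_eq_inv_val, map_inv₀, twist_coe]
  · exact map_zero σ

theorem tw_inj {G : Type} [Group G] (σ : ℂ ≃+* ℂ) : Function.Injective (tw (G := G) σ) := by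
  rintro ⟨H, ψ⟩ ⟨H', ψ'⟩ h
  have h1 : H = H' := congrArg Sigma.fst h
  subst h1
  have h2 : twist σ ψ = twist σ ψ' := eq_of_heq (Sigma.mk.inj h).2
  have h3 : ψ = ψ' := by
    refine MonoidHom.ext fun x => Units.ext ?_
    have h4 := congrArg (fun f : H →* ℂˣ => ((f x : ℂˣ) : ℂ)) h2
    exact σ.injective h4
  rw [h3]

end YFOx

open YFOx in
theorem YFO_thm : Stmt_YFO := by
  intro hF G _ _ P c hP hc
  have key : ∀ g : G, ∃ q : ℚ, (q : ℂ) =
      ∑ p ∈ P, (Nat.card p.1 : ℂ) * c p * extZ (p.2⁻¹) g := by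
    intro g
    refine rat_of_fixed hF _ fun σ => ?_
    rw [map_sum]
    have h1 : ∀ p ∈ P, σ ((Nat.card p.1 : ℂ) * c p * extZ (p.2⁻¹) g) =
        (fun q : Pr G => (Nat.card q.1 : ℂ) * c q * extZ (q.2⁻¹) g) (tw σ p) := by
      intro p hp
      rw [map_mul, map_mul, map_natCast, hc σ p hp, map_extZ]
      rfl
    rw [Finset.sum_congr rfl h1]
    have h2 : P.image (tw σ) = P := by
      refine Finset.eq_of_subset_of_card_le ?_ ?_
      · intro q hq
        obtain ⟨p, hp, rfl⟩ := Finset.mem_image.1 hq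
        exact hP p hp σ
      · rw [Finset.card_image_of_injective _ (tw_inj σ)]
    conv_rhs => rw [← h2, Finset.sum_image fun a _ b _ h => tw_inj σ h]
  choose u hu using key
  exact ⟨u, hu⟩

end StarkC.ABS
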