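import Pool.Agent.ABS.StZ
import Pool.Agent.ABS.YFO

/-!
# Project ABS, part Z: the rational automorphism `ξ` (module ZRT)
-/

set_option autoImplicit false

open scoped Classical

namespace StarkC.ABS

namespace ZRTx

theorem gcj_inj {G : Type} (σ : ℂ ≃+* ℂ) : Function.Injective (gcj (G := G) σ) := by
  intro χ χ' h
  funext g
  exact σ.injective (congrFun h g)

/-- conjugation permutes the summands -/
theorem sum_gcj {G : Type} (Y : Finset (G → ℂ)) (hY : Stb Y) (σ : ℂ ≃+* ℂ)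
    (F : (G → ℂ) → ℂ) : ∑ η ∈ Y, F (gcj σ η) = ∑ η ∈ Y, F η := by
  have h2 : Y.image (gcj σ) = Y := by
    refine Finset.eq_of_subset_of_card_le ?_ ?_
    · intro q hq
      obtain ⟨p, hp, rfl⟩ := Finset.mem_image.1 hq
      exact hY p hp σ
    · rw [Finset.card_image_of_injective _ (gcj_inj σ)]
  conv_rhs => rw [← h2, Finset.sum_image fun a _ b _ h => gcj_inj σ h]

end ZRTx

open ZRTx in
theorem ZRT_thm : Stmt_ZRT := by
  intro hF G _ _ n B Y E a hY hP hE ha
  have entry : ∀ i j, (1 + ∑ η ∈ Y, (a η - 1) • E η : Matrix (Fin n) (Fin n) ℂ) i j =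
      (1 : Matrix (Fin n) (Fin n) ℂ) i j + ∑ η ∈ Y, (a η - 1) * E η i j := by
    intro i j
    rw [Matrix.add_apply, Matrix.sum_apply]
    rfl
  have key : ∀ i j, ∃ q : ℚ,
      (q : ℂ) = (1 + ∑ η ∈ Y, (a η - 1) • E η : Matrix (Fin n) (Fin n) ℂ) i j := by
    intro i j
    refine YFOx.rat_of_fixed hF _ fun σ => ?_
    rw [entry, map_add, map_sum]
    have h0 : σ ((1 : Matrix (Fin n) (Fin n) ℂ) i j) = (1 : Matrix (Fin n) (Fin n) ℂ) i j := by
      by_cases h : i = j
      · subst h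
        rw [Matrix.one_apply_eq, map_one]
      · rw [Matrix.one_apply_ne h, map_zero]
    have h1 : ∀ η ∈ Y, σ ((a η - 1) * E η i j) =
        (fun η' => (a η' - 1) * E η' i j) (gcj σ η) := by
      intro η hη
      have h2 : σ (E η i j) = E (gcj σ η) i j := congrFun (congrFun (hE σ η hη) i) j
      rw [map_mul, map_sub, map_one, ha σ η hη, h2]
    rw [h0, Finset.sum_congr rfl h1, sum_gcj Y hY σ (fun η' => (a η' - 1) * E η' i j)]
  choose ξ hξ using key
  have hmap : (Matrix.of ξ).map (algebraMap ℚ ℂ) = 1 + ∑ η ∈ Y, (a η - 1) • E η := by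
    ext i j
    exact hξ i j
  refine ⟨Matrix.of ξ, fun g => ?_, hmap⟩
  have hcomm : (1 + ∑ η ∈ Y, (a η - 1) • E η : Matrix (Fin n) (Fin n) ℂ) * BC B g =
      BC B g * (1 + ∑ η ∈ Y, (a η - 1) • E η) := by
    rw [add_mul, mul_add, one_mul, mul_one, Finset.sum_mul, Finset.mul_sum]
    congr 1
    refine Finset.sum_congr rfl fun η hη => ?_
    rw [Matrix.smul_mul, Matrix.mul_smul, (hP η hη).2.1 g]
  have hinj : Function.Injective
      (fun A : Matrix (Fin n) (Fin n) ℚ => A.map (algebraMap ℚ ℂ)) :=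
    Matrix.map_injective (algebraMap ℚ ℂ).injective
  apply hinj
  show (Matrix.of ξ * B g).map (algebraMap ℚ ℂ) = (B g * Matrix.of ξ).map (algebraMap ℚ ℂ)
  rw [Matrix.map_mul, Matrix.map_mul, hmap]
  exact hcomm

end StarkC.ABS
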