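import Pool.Agent.ABS.StZ

/-!
# Project ABS (MP_46b841_nt), part Z: a representation with the sum of the characters (module ZSU)
-/

set_option autoImplicit false

namespace StarkC.ABS

namespace ZSUx

/-- The product of two representations. -/
noncomputable def prodRep {G V W : Type} [Group G] [AddCommGroup V] [Module ℂ V] [AddCommGroup W]
    [Module ℂ W] (ρ : Representation ℂ G V) (τ : Representation ℂ G W) :
    Representation ℂ G (V × W) where
  toFun g := (ρ g).prodMap (τ g)
  map_one' := by
    apply LinearMap.ext
    intro x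
    simp
  map_mul' g h := by
    apply LinearMap.ext
    intro x
    simp

theorem prodRep_char {G V W : Type} [Group G] [AddCommGroup V] [Module ℂ V] [AddCommGroup W]
    [Module ℂ W] [Module.Finite ℂ V] [Module.Finite ℂ W] (ρ : Representation ℂ G V)
    (τ : Representation ℂ G W) (g : G) :
    (prodRep ρ τ).character g = ρ.character g + τ.character g := by
  show LinearMap.trace ℂ (V × W) ((ρ g).prodMap (τ g)) = _
  rw [LinearMap.trace_prodMap']
  rfl

end ZSUx

theorem ZSU_thm : Stmt_ZSU := by
  intro G _ m
  induction m with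
  | zero =>
    intro V' _ _ _ ρ'
    refine ⟨PUnit, inferInstance, inferInstance, inferInstance, 1, fun g => ?_⟩
    show LinearMap.trace ℂ PUnit (1 : PUnit →ₗ[ℂ] PUnit) = _
    rw [LinearMap.trace_one, Module.finrank_zero_of_subsingleton]
    simp
  | succ m ih =>
    intro V' _ _ _ ρ'
    obtain ⟨V, i1, i2, i3, ρ, hρ⟩ := ih (fun i => V' i.succ) (fun i => ρ' i.succ)
    refine ⟨V' 0 × V, inferInstance, inferInstance, inferInstance, ZSUx.prodRep (ρ' 0) ρ,
      fun g => ?_⟩
    rw [ZSUx.prodRep_char, hρ g, Fin.sum_univ_succ]

end StarkC.ABS
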