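import Pool.Agent.ABS.FINY
import Pool.Agent.ABS.StZ
import Pool.Agent.ABS.ZDU
import Pool.Agent.ABS.ZFS
import Pool.Agent.ABS.ZCJ
import Pool.Agent.ABS.ZRR
import Pool.Agent.ABS.ZTN
import Pool.Agent.ABS.ZAF
import Pool.Agent.ABS.ZDC
import Pool.Agent.ABS.ZSU
import Pool.Agent.ABS.ZPR
import Pool.Agent.ABS.ZEQ
import Pool.Agent.ABS.ZRT
import Pool.Agent.ABS.ZHM
import Pool.Agent.ABS.ZBI
import Pool.Agent.ABS.ZRG
import Pool.Agent.ABS.ZRS
import Pool.Agent.ABS.ZLF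
import Pool.Agent.ABS.ZIN
import Pool.Agent.ABS.ZPA
import Pool.Agent.ABS.ZPB
import Pool.Agent.ABS.ZFI
import Pool.Agent.ABS.EXO
import Pool.Agent.ABS.RZX

/-!
# Project ABS, part Z: the theorem (one `φ` for all characters which satisfy Stark in norm)
-/

set_option autoImplicit false

open NumberField IsDedekindDomain
open scoped TensorProduct Classical

namespace StarkC.ABS

namespace FINRx

open FINUx FINFx FINXx FINYx

theorem conclZB : ConclZB :=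
  ZPB_thm FIXC_thm YDE_thm ZDU_thm ZRR_thm ZPR_thm ZEQ_thm ZRT_thm ZHM_thm
    ZBI_thm ZRG_thm ZPA_thm

theorem conclZ : ConclZ :=
  ZFI_thm FIXC_thm YDE_thm ZFS_thm ZCJ_thm ZRR_thm ZTN_thm ZAF_thm ZDC_thm ZSU_thm
    ZRS_thm ZLF_thm ZIN_thm conclZB

end FINRx

open FINRx

/-- THEOREM (Z). -/
theorem finalR (K L : Type) [Field K] [NumberField K] [Field L] [NumberField L] [Algebra K L]
    [IsGalois K L] (S : Finset (HeightOneSpectrum (𝓞 K))) :
    ∃ Θ : ((L → ℝ) →₀ ℂ) →ₗ[ℂ] ((L → ℝ) →₀ ℂ),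
      StarkP.IsTheta K (StarkP.aboveSet K L S) Θ ∧
      ∀ (V : Type) [AddCommGroup V] [Module ℂ V] [Module.Finite ℂ V]
        (ρ : Representation ℂ (L ≃ₐ[K] L) V), (∀ g, ∃ q : ℚ, ρ.character g = (q : ℂ)) →
        (∀ (W : Type) [AddCommGroup W] [Module ℂ W] [Module.Finite ℂ W]
          (σ : Representation ℂ (L ≃ₐ[K] L) W), σ.IsIrreducible → StarkP.IsSub σ ρ →
          StarkP.OccursIn (StarkP.aboveSet K L S) σ ∧ StarkP.Realizable σ.character ∧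
          ∃ Θ' : ((L → ℝ) →₀ ℂ) →ₗ[ℂ] ((L → ℝ) →₀ ℂ),
            StarkP.IsTheta K (StarkP.aboveSet K L S) Θ' ∧
            StarkP.NormIn (StarkP.charField σ.character) σ.character
              (S : Set (HeightOneSpectrum (𝓞 K))) Θ') →
        ∃ F : ℂ → ℂ, StarkP.IsArtinL ρ.character (S : Set (HeightOneSpectrum (𝓞 K))) F ∧
          StarkP.Reg (StarkP.aboveSet K L S) ρ Θ = meromorphicTrailingCoeffAt F 0 := by
  obtain ⟨φ, Θ₀, hφ, h⟩ := conclZ K L S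
  obtain ⟨Θ, hΘ, hreg⟩ := StarkB.exists_isTheta (K := K) (L := L)
    (S : Set (HeightOneSpectrum (𝓞 K))) S.finite_toSet φ Θ₀ hφ
  refine ⟨Θ, hΘ, fun V _ _ _ ρ hq hρ => ?_⟩
  obtain ⟨F, hF, hR⟩ := h V ρ hq hρ
  exact ⟨F, ⟨hF.1, hF.2⟩, (hreg V ρ).trans hR⟩

/-- THEOREM (Z) with absolute values: the same `φ` for the irreducible characters with imaginary
quadratic field of values. -/
theorem finalRA (K L : Type) [Field K] [NumberField K] [Field L] [NumberField L] [Algebra K L]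
    [IsGalois K L] (S : Finset (HeightOneSpectrum (𝓞 K))) :
    ∃ Θ : ((L → ℝ) →₀ ℂ) →ₗ[ℂ] ((L → ℝ) →₀ ℂ),
      StarkP.IsTheta K (StarkP.aboveSet K L S) Θ ∧
      (∀ (V : Type) [AddCommGroup V] [Module ℂ V] [Module.Finite ℂ V]
        (ρ : Representation ℂ (L ≃ₐ[K] L) V), (∀ g, ∃ q : ℚ, ρ.character g = (q : ℂ)) →
        (∀ (W : Type) [AddCommGroup W] [Module ℂ W] [Module.Finite ℂ W]
          (σ : Representation ℂ (L ≃ₐ[K] L) W), σ.IsIrreducible → StarkP.IsSub σ ρ →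
          StarkP.OccursIn (StarkP.aboveSet K L S) σ ∧ StarkP.Realizable σ.character ∧
          ∃ Θ' : ((L → ℝ) →₀ ℂ) →ₗ[ℂ] ((L → ℝ) →₀ ℂ),
            StarkP.IsTheta K (StarkP.aboveSet K L S) Θ' ∧
            StarkP.NormIn (StarkP.charField σ.character) σ.character
              (S : Set (HeightOneSpectrum (𝓞 K))) Θ') →
        ∃ F : ℂ → ℂ, StarkP.IsArtinL ρ.character (S : Set (HeightOneSpectrum (𝓞 K))) F ∧
          StarkP.Reg (StarkP.aboveSet K L S) ρ Θ = meromorphicTrailingCoeffAt F 0) ∧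
      ∀ (V : Type) [AddCommGroup V] [Module ℂ V] [Module.Finite ℂ V]
        (ρ : Representation ℂ (L ≃ₐ[K] L) V), ρ.IsIrreducible →
        StarkP.OccursIn (StarkP.aboveSet K L S) ρ → StarkP.Realizable ρ.character →
        (∃ Θ' : ((L → ℝ) →₀ ℂ) →ₗ[ℂ] ((L → ℝ) →₀ ℂ),
          StarkP.IsTheta K (StarkP.aboveSet K L S) Θ' ∧
          StarkP.NormIn (StarkP.charField ρ.character) ρ.character
            (S : Set (HeightOneSpectrum (𝓞 K))) Θ') →
        Module.finrank ℚ (StarkP.charField ρ.character) = 2 → (∃ g, (ρ.character g).im ≠ 0) →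
        ∀ f : ℂ → ℂ, StarkP.IsArtinL ρ.character (S : Set (HeightOneSpectrum (𝓞 K))) f →
          ‖StarkP.Reg (StarkP.aboveSet K L S) ρ Θ‖ = ‖meromorphicTrailingCoeffAt f 0‖ := by
  obtain ⟨Θ, hΘ, h⟩ := finalR K L S
  exact ⟨Θ, hΘ, h, fun V _ _ _ ρ hirr hocc hreal hN h2 him f hf =>
    abs_of_exact S Θ hΘ h V ρ hirr hocc hreal hN h2 him f hf⟩

/-- THEOREM (Z) for constituents with nilpotent image. -/
theorem finalRN (K L : Type) [Field K] [NumberField K] [Field L] [NumberField L] [Algebra K L]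
    [IsGalois K L] (S : Finset (HeightOneSpectrum (𝓞 K))) :
    ∃ Θ : ((L → ℝ) →₀ ℂ) →ₗ[ℂ] ((L → ℝ) →₀ ℂ),
      StarkP.IsTheta K (StarkP.aboveSet K L S) Θ ∧
      ∀ (V : Type) [AddCommGroup V] [Module ℂ V] [Module.Finite ℂ V]
        (ρ : Representation ℂ (L ≃ₐ[K] L) V), (∀ g, ∃ q : ℚ, ρ.character g = (q : ℂ)) →
        (∀ (W : Type) [AddCommGroup W] [Module ℂ W] [Module.Finite ℂ W]
          (σ : Representation ℂ (L ≃ₐ[K] L) W), σ.IsIrreducible → StarkP.IsSub σ ρ →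
          StarkP.OccursIn (StarkP.aboveSet K L S) σ ∧
          Group.IsNilpotent ((L ≃ₐ[K] L) ⧸ MonoidHom.ker σ) ∧
          ((∀ a b : L ≃ₐ[K] L, (∃ j : ℕ, a ^ (2 ^ j) = 1) → (∃ j : ℕ, b ^ (2 ^ j) = 1) →
            σ (a * b) = σ (b * a)) ∨ Complex.I ∈ StarkP.charField σ.character) ∧
          (IsCyclic (StarkP.charField σ.character ≃ₐ[ℚ] StarkP.charField σ.character) ∨
            ∃ q : ℕ, IsPrimePow q ∧ StarkP.charField σ.character = StarkP.rootField q)) →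
        ∃ F : ℂ → ℂ, StarkP.IsArtinL ρ.character (S : Set (HeightOneSpectrum (𝓞 K))) F ∧
          StarkP.Reg (StarkP.aboveSet K L S) ρ Θ = meromorphicTrailingCoeffAt F 0 := by
  obtain ⟨Θ, hΘ, h⟩ := finalR K L S
  refine ⟨Θ, hΘ, fun V _ _ _ ρ hq hρ => h V ρ hq fun W _ _ _ σ hσ hs => ?_⟩
  obtain ⟨hocc, hnil, hc, hf⟩ := hρ W σ hσ hs
  refine ⟨hocc, real_nil σ hσ hnil hc, Θ, hΘ, ?_⟩
  obtain ⟨h1, h2, -, -⟩ := finZ_nil K L S Θ hΘ W σ hσ hnil hc
  rcases hf with hf | ⟨q, hq', hf⟩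
  · exact h1 _ le_rfl hf
  · exact h2 q hq' hf

end StarkC.ABS
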