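import Pool.Agent.ABS.StQ

/-!
# Project ABS, part Q, module QBB (helper40): the elements of `B`
-/

set_option autoImplicit false

open scoped Classical MatrixGroups ComplexConjugate

namespace StarkC.ABS

namespace QBBx

variable {G : Type} [Group G] [Fintype G] {q d : ℕ}

theorem sum_sub (H : Subgroup G) (F : G → ℂ) :
    ∑ g, (if g ∈ H then F g else 0) = ∑ h : H, F h := by
  rw [← Finset.sum_filter]
  exact Finset.sum_subtype (Finset.univ.filter fun g => g ∈ H) (by simp) F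

theorem card_U (b : TB G q d) : Fintype.card b.U = q := by
  rw [← Nat.card_eq_fintype_card, b.card_U]

/-- the sum over the coset `U t`, `t ≠ 1` -/
theorem inner (b : TB G q d) (F : G → ℂ) (hF : ∀ x g, F (x⁻¹ * g * x) = F g) (t : G)
    (ht : t ∈ b.T) (h1 : t ≠ 1) : ∑ u : b.U, F ((u : G) * t) = (q : ℂ) * F t := by
  have hm : ∀ v ∈ b.U, v * (t * v⁻¹ * t⁻¹) ∈ b.U := by
    intro v hv
    refine b.U.mul_mem hv ?_
    have h := b.T_U t⁻¹ (b.T.inv_mem ht) v⁻¹ (b.U.inv_mem hv)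
    rwa [inv_inv] at h
  let f : b.U → b.U := fun v => ⟨(v : G) * (t * (v : G)⁻¹ * t⁻¹), hm v v.2⟩
  have hinj : Function.Injective f := by
    intro v v' h
    have h' : (v : G) * (t * (v : G)⁻¹ * t⁻¹) = (v' : G) * (t * (v' : G)⁻¹ * t⁻¹) :=
      congrArg Subtype.val h
    have h4 : (v' : G)⁻¹ * (v : G) * t = t * ((v' : G)⁻¹ * (v : G)) := by
      calc (v' : G)⁻¹ * (v : G) * t
          = (v' : G)⁻¹ * ((v : G) * (t * (v : G)⁻¹ * t⁻¹)) * (t * (v : G)) := by group
        _ = (v' : G)⁻¹ * ((v' : G) * (t * (v' : G)⁻¹ * t⁻¹)) * (t * (v : G)) := by rw [h']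
        _ = t * ((v' : G)⁻¹ * (v : G)) := by group
    have h2 : t⁻¹ * ((v' : G)⁻¹ * (v : G)) * t = (v' : G)⁻¹ * (v : G) := by
      rw [mul_assoc, h4, inv_mul_cancel_left]
    have h3 := b.free t ht ((v' : G)⁻¹ * (v : G)) (b.U.mul_mem (b.U.inv_mem v'.2) v.2) h1 h2
    exact Subtype.ext (inv_mul_eq_one.1 h3).symm
  have hb : Function.Bijective f := Finite.injective_iff_bijective.1 hinj
  rw [← hb.sum_comp (fun u : b.U => F ((u : G) * t))]
  have h : ∀ v : b.U, F ((f v : G) * t) = F t := by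
    intro v
    have h2 : (f v : G) * t = ((v : G)⁻¹)⁻¹ * t * (v : G)⁻¹ := by
      show (v : G) * (t * (v : G)⁻¹ * t⁻¹) * t = _
      group
    rw [h2, hF]
  rw [Finset.sum_congr rfl fun v _ => h v, Finset.sum_const, Finset.card_univ, card_U,
    nsmul_eq_mul]

/-- `B` is `U × T` as a set -/
theorem sum_B (b : TB G q d) (hUT : ∀ g ∈ b.U, g ∈ b.T → g = 1) (F : G → ℂ) :
    ∑ h : b.B, F h = ∑ t : b.T, ∑ u : b.U, F ((u : G) * t) := by
  let f : b.U × b.T → b.B := fun p => ⟨(p.1 : G) * p.2, (b.mem_B _).2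
    ⟨p.1, p.1.2, p.2, p.2.2, rfl⟩⟩
  have hinj : Function.Injective f := by
    rintro ⟨u, t⟩ ⟨u', t'⟩ h
    have h' : (u : G) * t = (u' : G) * t' := congrArg Subtype.val h
    have h2 : (u' : G)⁻¹ * u = t' * (t : G)⁻¹ := by
      rw [inv_mul_eq_iff_eq_mul, ← mul_assoc, eq_mul_inv_iff_mul_eq, h']
    have h3 : (u' : G)⁻¹ * u = 1 := by
      refine hUT _ (b.U.mul_mem (b.U.inv_mem u'.2) u.2) ?_
      rw [h2]
      exact b.T.mul_mem t'.2 (b.T.inv_mem t.2)
    have h4 : (t' : G) * (t : G)⁻¹ = 1 := by rw [← h2, h3]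
    exact Prod.ext (Subtype.ext (inv_mul_eq_one.1 h3).symm)
      (Subtype.ext (mul_inv_eq_one.1 h4).symm)
  have hsur : Function.Surjective f := by
    rintro ⟨g, hg⟩
    obtain ⟨u, hu, t, ht, rfl⟩ := (b.mem_B g).1 hg
    exact ⟨(⟨u, hu⟩, ⟨t, ht⟩), rfl⟩
  rw [← Function.Bijective.sum_comp ⟨hinj, hsur⟩ (fun h : b.B => F h),
    Fintype.sum_prod_type_right]

theorem first (b : TB G q d) (hUT : ∀ g ∈ b.U, g ∈ b.T → g = 1) (F : G → ℂ)
    (hF : ∀ x g, F (x⁻¹ * g * x) = F g) :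
    ∑ g, (if g ∈ b.B then F g else 0) = ∑ g, (if g ∈ b.U then F g else 0) +
      (q : ℂ) * ∑ g, (if g ∈ b.T ∧ g ≠ 1 then F g else 0) := by
  have h1 : ∑ g, (if g ∈ b.T ∧ g ≠ 1 then F g else 0) =
      ∑ t : b.T, (if (t : G) ≠ 1 then F t else 0) := by
    rw [← sum_sub b.T fun g => if g ≠ 1 then F g else 0]
    refine Finset.sum_congr rfl fun g _ => ?_
    by_cases h : g ∈ b.T
    · simp [h]
    · simp [h]
  rw [sum_sub, sum_sub, h1, sum_B b hUT, Finset.mul_sum]
  have h2 : ∀ t : b.T, ∑ u : b.U, F ((u : G) * t) =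
      (if t = 1 then ∑ u : b.U, F u else 0) + (q : ℂ) * (if (t : G) ≠ 1 then F t else 0) := by
    intro t
    by_cases h : t = 1
    · subst h
      simp
    · have h' : (t : G) ≠ 1 := fun h'' => h (Subtype.ext h'')
      rw [if_neg h, if_pos h', zero_add, inner b F hF t t.2 h']
  rw [Finset.sum_congr rfl fun t _ => h2 t, Finset.sum_add_distrib, Finset.sum_ite_eq' Finset.univ
    (1 : b.T), if_pos (Finset.mem_univ _)]

/-- the number of the `x` with `x⁻¹ g x = y` -/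
noncomputable def cnt (g y : G) : ℂ := ∑ x : G, if x⁻¹ * g * x = y then 1 else 0

theorem cnt_class (g x y : G) : cnt g (x⁻¹ * y * x) = cnt g y := by
  unfold cnt
  refine Fintype.sum_equiv (Equiv.mulRight x⁻¹) _ _ fun z => ?_
  rw [Equiv.coe_mulRight]
  have h : z⁻¹ * g * z = x⁻¹ * y * x ↔ (z * x⁻¹)⁻¹ * g * (z * x⁻¹) = y := by
    constructor
    · intro h
      have h2 : (z * x⁻¹)⁻¹ * g * (z * x⁻¹) = x * (z⁻¹ * g * z) * x⁻¹ := by group
      rw [h2, h]
      group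
    · intro h
      rw [← h]
      group
  by_cases h1 : z⁻¹ * g * z = x⁻¹ * y * x
  · rw [if_pos h1, if_pos (h.1 h1)]
  · rw [if_neg h1, if_neg fun h2 => h1 (h.2 h2)]

theorem sum_cnt (H : Subgroup G) (g : G) :
    ∑ y, (if y ∈ H then cnt g y else 0) = (Nat.card H : ℂ) * indFun H (fun _ => 1) g := by
  have hc : (Nat.card H : ℂ) ≠ 0 := by
    rw [Nat.card_eq_fintype_card]
    exact Nat.cast_ne_zero.2 Fintype.card_ne_zero
  unfold indFun
  rw [mul_div_cancel₀ _ hc]
  have h : ∀ y : G, (if y ∈ H then cnt g y else 0) =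
      ∑ x : G, if x⁻¹ * g * x = y then (if y ∈ H then (1 : ℂ) else 0) else 0 := by
    intro y
    unfold cnt
    by_cases hy : y ∈ H
    · simp only [if_pos hy]
    · simp only [if_neg hy, ite_self, Finset.sum_const_zero]
  rw [Finset.sum_congr rfl fun y _ => h y, Finset.sum_comm]
  refine Finset.sum_congr rfl fun x _ => ?_
  rw [Finset.sum_ite_eq Finset.univ (x⁻¹ * g * x), if_pos (Finset.mem_univ _)]

theorem cnt_one (g : G) : cnt g 1 = if g = 1 then (Fintype.card G : ℂ) else 0 := by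
  unfold cnt
  by_cases hg : g = 1
  · subst hg
    simp
  · rw [if_neg hg]
    refine Finset.sum_eq_zero fun x _ => if_neg fun h => hg ?_
    have h2 : g = x * (x⁻¹ * g * x) * x⁻¹ := by group
    rw [h2, h]
    group

end QBBx

open QBBx in
theorem QBB_thm : Stmt_QBB := by
  intro hQ G _ _ q d b
  obtain ⟨-, -, hUT, hB⟩ := hQ G q d b
  refine ⟨fun F hF => first b hUT F hF, fun g => ?_⟩
  have h := first b hUT (cnt g) (cnt_class g)
  have hq : (q : ℂ) ≠ 0 := by
    have h1 : 0 < Fintype.card b.U := Fintype.card_pos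
    rw [card_U b] at h1
    exact Nat.cast_ne_zero.2 h1.ne'
  have h3 : ∑ y, (if y ∈ b.T ∧ y ≠ 1 then cnt g y else 0) =
      (Nat.card b.T : ℂ) * indFun b.T (fun _ => 1) g -
        (if g = 1 then (Fintype.card G : ℂ) else 0) := by
    rw [← sum_cnt, ← cnt_one, eq_sub_iff_add_eq]
    have h4 : cnt g 1 = ∑ y, (if y = 1 then cnt g y else 0) := by
      rw [Finset.sum_ite_eq' Finset.univ (1 : G), if_pos (Finset.mem_univ _)]
    rw [h4, ← Finset.sum_add_distrib]
    refine Finset.sum_congr rfl fun y _ => ?_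
    by_cases hy : y = 1
    · subst hy
      simp [b.T.one_mem]
    · by_cases hy2 : y ∈ b.T
      · simp [hy, hy2]
      · simp [hy, hy2]
  rw [sum_cnt, sum_cnt, h3, hB, b.card_U, Nat.cast_mul] at h
  unfold TB.tau
  have h5 : (q : ℂ) * ((if g = 1 then (Fintype.card G : ℂ) else 0) -
      (indFun b.U (fun _ => 1) g + (Nat.card b.T : ℂ) *
        (indFun b.T (fun _ => 1) g - indFun b.B (fun _ => 1) g))) = 0 := by
    linear_combination h
  have h6 := (mul_eq_zero.1 h5).resolve_left hq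
  exact sub_eq_zero.1 h6

end StarkC.ABS
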