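import Pool.Agent.ABS.StQR

/-!
# Project ABS (MP_46b841_nt), part Q: the classification, first part, with multiplicity one
-/

set_option autoImplicit false

open scoped Classical MatrixGroups ComplexConjugate

namespace StarkC.ABS

namespace QC1Rx

variable {G : Type} [Group G] [Fintype G]

theorem ind_one (H : Subgroup G) (g : G) :
    indFun H (extZ (1 : H →* ℂˣ)) g = indFun H (fun _ => 1) g := by
  unfold indFun
  congr 1
  refine Finset.sum_congr rfl fun x _ => ?_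
  by_cases hx : x⁻¹ * g * x ∈ H
  · rw [if_pos hx, if_pos hx]
    unfold extZ
    rw [dif_pos hx]
    rfl
  · rw [if_neg hx, if_neg hx]

theorem ind_top (g : G) : indFun (⊤ : Subgroup G) (fun _ => (1 : ℂ)) g = 1 := by
  unfold indFun
  have h : ∀ x : G, (if x⁻¹ * g * x ∈ (⊤ : Subgroup G) then (1 : ℂ) else 0) = 1 := fun x =>
    if_pos (Subgroup.mem_top _)
  rw [Finset.sum_congr rfl fun x _ => h x, Finset.sum_const, Finset.card_univ, nsmul_eq_mul,
    mul_one, Subgroup.card_top, Nat.card_eq_fintype_card]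
  exact div_self (Nat.cast_ne_zero.2 Fintype.card_ne_zero)

theorem one_sq (H : Subgroup G) : (1 : H →* ℂˣ) ^ 2 = 1 :=
  MonoidHom.ext fun x => by
    rw [MonoidHom.pow_apply, MonoidHom.one_apply]
    exact one_pow 2

end QC1Rx

open QC1Rx

theorem QC1R_thm : QBase → Stmt_QEQ →
  ∀ (G V : Type) [Group G] [Fintype G] (q d : ℕ) (b : TB G q d) [AddCommGroup V] [Module ℂ V]
    [Module.Finite ℂ V] (ρ : Representation ℂ G V) (a₀ : ℕ) (s : ℤ) (n : (b.T →* ℂˣ) → ℤ)
    (m : (b.N →* ℂˣ) → ℤ), Mult b ρ a₀ s n m → ρ.IsIrreducible →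
    (∃ ψ : b.T →* ℂˣ, ψ ^ 2 ≠ 1 ∧ ∀ g, ρ.character g = b.pr ψ g) ∨
    (∃ φ : b.N →* ℂˣ, φ ^ 2 ≠ 1 ∧ ∀ g, ρ.character g = b.ds φ g) ∨
    (PermC ρ.character ∧ MOne ρ.character) ∨
    ((∀ ψ : b.T →* ℂˣ, (ψ ^ 2 ≠ 1 ∨ ψ = 1) → n ψ ≤ 0) ∧
      ∀ φ : b.N →* ℂˣ, (φ ^ 2 ≠ 1 ∨ φ = 1) → m φ ≤ 0) := by
  intro hB hEQ G V _ _ q d b _ _ _ ρ a₀ s n m hM hρ
  obtain ⟨hnorm, hD1, hIN⟩ := hB
  obtain ⟨hpr, hds, h01, hpr1, hds1, hprB, -⟩ := hnorm G q d b
  obtain ⟨hn, hm, -⟩ := hM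
  have hG0 : (Fintype.card G : ℂ) ≠ 0 := Nat.cast_ne_zero.2 Fintype.card_ne_zero
  by_cases h1 : ∃ ψ : b.T →* ℂˣ, ψ ^ 2 ≠ 1 ∧ 1 ≤ n ψ
  · obtain ⟨ψ, h2, h3⟩ := h1
    exact Or.inl ⟨ψ, h2, hEQ G V ρ _ (n ψ) hρ (by rw [hpr ψ, if_neg h2, mul_one]) (hn ψ) h3⟩
  by_cases h2 : ∃ φ : b.N →* ℂˣ, φ ^ 2 ≠ 1 ∧ 1 ≤ m φ
  · obtain ⟨φ, h4, h3⟩ := h2
    exact Or.inr (Or.inl ⟨φ, h4, hEQ G V ρ _ (m φ) hρ (by rw [hds φ, if_neg h4, mul_one])
      (hm φ) h3⟩)
  -- the multiplicity of the trivial character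
  obtain ⟨c, hc⟩ := hIN G V ρ ⊤ 1
  have hc' : ∑ g, ρ.character g * conj (1 : ℂ) = (Fintype.card G : ℂ) * (c : ℂ) := by
    rw [← hc]
    refine Finset.sum_congr rfl fun g _ => ?_
    rw [ind_one, ind_top]
  have key : 1 ≤ n 1 → PermC ρ.character ∧ MOne ρ.character := by
    intro h3
    by_cases h4 : 1 ≤ c
    · have h5 : ∀ g, ρ.character g = 1 := hEQ G V ρ (fun _ => 1) (c : ℤ) hρ (by
        simp) (by rw [hc']; simp) (by exact_mod_cast h4)
      refine ⟨⟨1, fun _ => ⊤, fun _ => 1, fun g => ?_⟩, ⟨⊤, 1, one_sq _, ?_⟩⟩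
      · rw [h5 g]
        simp [ind_top]
      · have h6 : ∀ g : G, ρ.character g * conj (indFun (⊤ : Subgroup G)
            (extZ (1 : (⊤ : Subgroup G) →* ℂˣ)) g) = 1 := by
          intro g
          rw [ind_one, ind_top, h5 g]
          simp
        rw [Finset.sum_congr rfl fun g _ => h6 g]
        simp
    · have hc0 : c = 0 := by omega
      rw [hc0, Nat.cast_zero, mul_zero] at hc'
      have hc'' : ∑ g, ρ.character g = 0 := by
        rw [← hc']
        simp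
      have hconj : ∑ g, conj (b.pr 1 g) = (Fintype.card G : ℂ) := by
        rw [← map_sum, hpr1]
        simp
      have h11 : ∑ g, b.pr 1 g * conj (b.pr 1 g) = (Fintype.card G : ℂ) * 2 := by
        rw [hpr 1, if_pos (one_sq _)]
      have h5 : ∀ g, ρ.character g = b.pr 1 g - 1 := hEQ G V ρ (fun g => b.pr 1 g - 1) (n 1) hρ (by
          have h6 : ∀ g, (b.pr 1 g - 1) * conj (b.pr 1 g - 1) =
              b.pr 1 g * conj (b.pr 1 g) - b.pr 1 g - conj (b.pr 1 g) + 1 := by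
            intro g
            rw [map_sub, map_one]
            ring
          rw [Finset.sum_congr rfl fun g _ => h6 g, Finset.sum_add_distrib, Finset.sum_sub_distrib,
            Finset.sum_sub_distrib, h11, hpr1, hconj, Finset.sum_const, Finset.card_univ,
            nsmul_eq_mul]
          ring) (by
          have h6 : ∀ g, ρ.character g * conj (b.pr 1 g - 1) =
              ρ.character g * conj (b.pr 1 g) - ρ.character g := by
            intro g
            rw [map_sub, map_one]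
            ring
          rw [Finset.sum_congr rfl fun g _ => h6 g, Finset.sum_sub_distrib, hn 1, hc'', sub_zero])
          h3
      refine ⟨⟨2, ![b.B, ⊤], ![1, -1], fun g => ?_⟩, ⟨b.B, 1, one_sq _, ?_⟩⟩
      · rw [h5 g, hprB g, Fin.sum_univ_two]
        simp [ind_top]
        ring
      · have h6 : ∀ g : G, ρ.character g * conj (indFun b.B (extZ (1 : b.B →* ℂˣ)) g) =
            b.pr 1 g * conj (b.pr 1 g) - conj (b.pr 1 g) := by
          intro g
          rw [ind_one, ← hprB g, h5 g]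
          ring
        rw [Finset.sum_congr rfl fun g _ => h6 g, Finset.sum_sub_distrib, h11, hconj]
        ring
  by_cases h3 : 1 ≤ n 1
  · exact Or.inr (Or.inr (Or.inl (key h3)))
  by_cases h4 : 1 ≤ m 1
  · refine Or.inr (Or.inr (Or.inl (key ?_)))
    have h5 : (Fintype.card G : ℂ) * (m 1 : ℂ) =
        (Fintype.card G : ℂ) * (n 1 : ℂ) - 2 * ((Fintype.card G : ℂ) * (c : ℂ)) := by
      rw [← hm 1, ← hn 1, ← hc', Finset.mul_sum, ← Finset.sum_sub_distrib]
      refine Finset.sum_congr rfl fun g _ => ?_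
      rw [hD1 G q d b g, map_sub, map_one]
      have : conj (2 : ℂ) = 2 := Complex.conj_ofNat 2
      rw [this]
      ring
    have h6 : (m 1 : ℂ) = (n 1 : ℂ) - 2 * (c : ℂ) := by
      apply mul_left_cancel₀ hG0
      rw [h5]
      ring
    have h7 : m 1 = n 1 - 2 * (c : ℤ) := by exact_mod_cast h6
    omega
  refine Or.inr (Or.inr (Or.inr ⟨fun ψ hψ => ?_, fun φ hφ => ?_⟩))
  · rcases hψ with hψ | hψ
    · by_contra h5
      exact h1 ⟨ψ, hψ, by omega⟩
    · rw [hψ]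
      omega
  · rcases hφ with hφ | hφ
    · by_contra h5
      exact h2 ⟨φ, hφ, by omega⟩
    · rw [hφ]
      omega

end StarkC.ABS
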