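import Pool.Agent.ABS.StQ

/-!
# Project ABS, part Q, module QC2: the half characters of `PSL_2(k)`
-/

set_option autoImplicit false

open scoped Classical MatrixGroups ComplexConjugate

namespace StarkC.ABS

namespace QC2x

/-! The lemmas `char_inv`, `sum_self` are copied from `PEQ.lean`. -/

section Char

variable {H V : Type} [Group H] [Fintype H] [AddCommGroup V] [Module ℂ V] [Module.Finite ℂ V]

open scoped Matrix ComplexOrder in
theorem char_inv (ρ : Representation ℂ H V) (g : H) :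
    ρ.character g⁻¹ = conj (ρ.character g) := by
  let b := Module.finBasis ℂ V
  let M : H → Matrix (Fin (Module.finrank ℂ V)) (Fin (Module.finrank ℂ V)) ℂ :=
    fun h => LinearMap.toMatrix b b (ρ h)
  have hM1 : M 1 = 1 := by
    simp only [M, map_one]
    exact LinearMap.toMatrix_one b
  have hMm : ∀ a c, M (a * c) = M a * M c := by
    intro a c
    simp only [M, map_mul]
    exact LinearMap.toMatrix_mul b _ _
  have htr : ∀ h, ρ.character h = (M h).trace := by
    intro h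
    change LinearMap.trace ℂ _ (ρ h) = _
    rw [LinearMap.trace_eq_matrix_trace ℂ b]
  obtain ⟨A, hAd⟩ : ∃ A : Matrix (Fin (Module.finrank ℂ V)) (Fin (Module.finrank ℂ V)) ℂ,
    A = ∑ h, (M h)ᴴ * M h := ⟨_, rfl⟩
  have hA : ∀ a, (M a)ᴴ * A * M a = A := by
    intro a
    rw [hAd, Finset.mul_sum, Finset.sum_mul]
    rw [← Equiv.sum_comp (Equiv.mulRight a) (fun h => (M h)ᴴ * M h)]
    refine Finset.sum_congr rfl fun h _ => ?_
    simp only [Equiv.coe_mulRight]
    rw [hMm, Matrix.conjTranspose_mul]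
    simp only [Matrix.mul_assoc]
  have hpd : A.PosDef := by
    rw [hAd, ← Finset.add_sum_erase _ _ (Finset.mem_univ (1 : H)), hM1,
      Matrix.conjTranspose_one, Matrix.one_mul]
    apply Matrix.PosDef.add_posSemidef Matrix.PosDef.one
    exact Matrix.posSemidef_sum _ fun h _ => Matrix.posSemidef_conjTranspose_mul_self _
  have hdet : IsUnit A.det := (Matrix.isUnit_iff_isUnit_det A).mp hpd.isUnit
  have h1 : (M g)ᴴ * A = A * M g⁻¹ := by
    have h2 : M g * M g⁻¹ = 1 := by rw [← hMm, mul_inv_cancel, hM1]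
    calc (M g)ᴴ * A = (M g)ᴴ * A * (M g * M g⁻¹) := by rw [h2, Matrix.mul_one]
      _ = (M g)ᴴ * A * M g * M g⁻¹ := by rw [Matrix.mul_assoc _ (M g)]
      _ = A * M g⁻¹ := by rw [hA]
  rw [htr, htr, starRingEnd_apply, ← Matrix.trace_conjTranspose]
  calc (M g⁻¹).trace = (M g⁻¹ * (A⁻¹ * A)).trace := by
        rw [Matrix.nonsing_inv_mul A hdet, Matrix.mul_one]
    _ = (A * (M g⁻¹ * A⁻¹)).trace := by
        rw [← Matrix.mul_assoc, Matrix.trace_mul_comm]
    _ = ((M g)ᴴ * A * A⁻¹).trace := by rw [← Matrix.mul_assoc, ← h1]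
    _ = ((M g)ᴴ).trace := by
        rw [Matrix.mul_assoc, Matrix.mul_nonsing_inv A hdet, Matrix.mul_one]

theorem sum_self (ρ : Representation ℂ H V) (hρ : ρ.IsIrreducible) :
    ∑ g, Complex.normSq (ρ.character g) = (Fintype.card H : ℝ) := by
  have hc : (Nat.card H : ℂ) ≠ 0 := Nat.cast_ne_zero.2 Nat.card_pos.ne'
  have : Invertible (Nat.card H : ℂ) := invertibleOfNonzero hc
  have h := Representation.char_orthonormal ρ ρ
  rw [if_pos ⟨Representation.Equiv.refl ρ⟩] at h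
  have h1 : ∑ g : H, ρ.character g * ρ.character g⁻¹ = (Nat.card H : ℂ) := by
    rw [inv_mul_eq_iff_eq_mul₀ hc, mul_one] at h
    exact h
  have h2 : ((∑ g, Complex.normSq (ρ.character g) : ℝ) : ℂ) = ((Fintype.card H : ℝ) : ℂ) := by
    rw [Complex.ofReal_sum, Complex.ofReal_natCast, ← Nat.card_eq_fintype_card, ← h1]
    refine Finset.sum_congr rfl fun g _ => ?_
    rw [char_inv, Complex.mul_conj]
  exact_mod_cast h2

end Char

theorem bound {G : Type} [Fintype G] [Nonempty G] (χ f : G → ℂ) (n : ℤ)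
    (h1 : ∑ g, Complex.normSq (χ g) = (Fintype.card G : ℝ))
    (h2 : ∑ g, f g * conj (f g) = (Fintype.card G : ℂ) * 2)
    (h3 : ∑ g, χ g * conj (f g) = (Fintype.card G : ℂ) * (n : ℂ)) : n ≤ 1 := by
  by_contra hn
  have hn2 : 2 ≤ n := by omega
  have hf : ∑ g, Complex.normSq (f g) = (Fintype.card G : ℝ) * 2 := by
    have h : ((∑ g, Complex.normSq (f g) : ℝ) : ℂ) = (((Fintype.card G : ℝ) * 2 : ℝ) : ℂ) := by
      rw [Complex.ofReal_sum]
      push_cast
      rw [← h2]
      exact Finset.sum_congr rfl fun g _ => (Complex.mul_conj _).symm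
    exact_mod_cast h
  have hx : ∑ g, (χ g * conj (f g)).re = (Fintype.card G : ℝ) * n := by
    rw [← Complex.re_sum, h3]
    have h : ((Fintype.card G : ℂ) * (n : ℂ)) = (((Fintype.card G : ℝ) * n : ℝ) : ℂ) := by
      push_cast
      rfl
    rw [h, Complex.ofReal_re]
  have h4 : ∑ g, Complex.normSq ((n : ℂ) * χ g - f g) =
      (Fintype.card G : ℝ) * (2 - (n : ℝ) ^ 2) := by
    have h5 : ∀ g, Complex.normSq ((n : ℂ) * χ g - f g) = (n : ℝ) ^ 2 * Complex.normSq (χ g) +
        Complex.normSq (f g) - 2 * (n : ℝ) * (χ g * conj (f g)).re := by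
      intro g
      rw [Complex.normSq_sub, Complex.normSq_mul]
      have h6 : Complex.normSq (n : ℂ) = (n : ℝ) ^ 2 := by
        have h7 : (n : ℂ) = ((n : ℝ) : ℂ) := by push_cast; rfl
        rw [h7, Complex.normSq_ofReal]
        ring
      have h8 : ((n : ℂ) * χ g * conj (f g)).re = (n : ℝ) * (χ g * conj (f g)).re := by
        have h7 : (n : ℂ) = ((n : ℝ) : ℂ) := by push_cast; rfl
        rw [h7, mul_assoc, Complex.re_ofReal_mul]
      rw [h6, h8]
      ring
    rw [Finset.sum_congr rfl fun g _ => h5 g, Finset.sum_sub_distrib, Finset.sum_add_distrib,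
      ← Finset.mul_sum, ← Finset.mul_sum, h1, hf, hx]
    ring
  have h5 : 0 ≤ ∑ g, Complex.normSq ((n : ℂ) * χ g - f g) :=
    Finset.sum_nonneg fun g _ => Complex.normSq_nonneg _
  rw [h4] at h5
  have hG : (0 : ℝ) < Fintype.card G := by exact_mod_cast Fintype.card_pos
  have hn3 : (2 : ℝ) ≤ n := by exact_mod_cast hn2
  have h6 : (2 : ℝ) - (n : ℝ) ^ 2 < 0 := by nlinarith
  have h7 := mul_neg_of_pos_of_neg hG h6
  linarith

theorem sum_le {X : Type} (k : ℕ) (f : Fin k → X) (hf : Function.Injective f) (n : X → ℤ)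
    (P : X → Prop) (h0 : ∀ x, ¬ P x → n x ≤ 0) (h1 : ∀ x, P x → n x ≤ 1)
    (hu : ∀ x y, P x → P y → x = y) : ∑ i, n (f i) ≤ 1 := by
  by_cases h : ∃ i, P (f i)
  · obtain ⟨i₀, hi⟩ := h
    have h2 : ∑ i, n (f i) ≤ ∑ i, (if i = i₀ then (1 : ℤ) else 0) := by
      refine Finset.sum_le_sum fun i _ => ?_
      split_ifs with h3
      · exact h1 _ (h3 ▸ hi)
      · exact h0 _ fun hP => h3 (hf (hu _ _ hP hi))
    refine h2.trans ?_
    rw [Finset.sum_ite_eq' Finset.univ i₀ (fun _ => (1 : ℤ)), if_pos (Finset.mem_univ _)]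
  · have h2 : ∑ i, n (f i) ≤ 0 :=
      Finset.sum_nonpos fun i _ => h0 _ fun hP => h ⟨i, hP⟩
    omega

theorem dim_one {G V : Type} [Group G] [Fintype G] [AddCommGroup V] [Module ℂ V]
    [Module.Finite ℂ V] (ρ : Representation ℂ G V) (hV : Module.finrank ℂ V = 1)
    (hc : commutator G = ⊤) (g : G) : ρ.character g = 1 := by
  obtain ⟨v, hv0, hv⟩ := finrank_eq_one_iff'.1 hV
  have hsc : ∀ A : V →ₗ[ℂ] V, ∃ c : ℂ, ∀ w, A w = c • w := by
    intro A
    obtain ⟨c, hc⟩ := hv (A v)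
    refine ⟨c, fun w => ?_⟩
    obtain ⟨d, rfl⟩ := hv w
    rw [map_smul, ← hc, smul_comm]
  have hcomm : ∀ a b : G, ρ a * ρ b = ρ b * ρ a := by
    intro a b
    obtain ⟨c, hc⟩ := hsc (ρ a)
    obtain ⟨d, hd⟩ := hsc (ρ b)
    refine LinearMap.ext fun w => ?_
    rw [Module.End.mul_apply, Module.End.mul_apply, hc, hd, hd, hc, smul_comm]
  have hker : commutator G ≤ (MonoidHom.toHomUnits ρ).ker := by
    rw [commutator_def, Subgroup.commutator_le]
    intro a _ b _
    rw [MonoidHom.mem_ker]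
    apply Units.ext
    rw [MonoidHom.coe_toHomUnits, commutatorElement_def, Units.val_one]
    have h1 : ρ (a * b * a⁻¹ * b⁻¹) = ρ (b * a * a⁻¹ * b⁻¹) := by
      rw [map_mul, map_mul, map_mul ρ a b, hcomm, map_mul ρ (b * a * a⁻¹), map_mul ρ (b * a),
        map_mul ρ b a]
    rw [h1]
    have h2 : b * a * a⁻¹ * b⁻¹ = 1 := by group
    rw [h2, map_one]
  have h1 : g ∈ (MonoidHom.toHomUnits ρ).ker := hker (hc ▸ Subgroup.mem_top g)
  rw [MonoidHom.mem_ker] at h1
  have h2 : ρ g = 1 := by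
    have h3 := congrArg Units.val h1
    rw [MonoidHom.coe_toHomUnits, Units.val_one] at h3
    exact h3
  change LinearMap.trace ℂ _ (ρ g) = _
  rw [h2, LinearMap.trace_one, hV, Nat.cast_one]

end QC2x

open QC2x in
theorem QC2_thm : Stmt_QC2 := by
  rintro ⟨hQN, -, -⟩ hQDU G V _ _ q b _ _ _ ρ a₀ s n m ⟨hM1, hM2, hM3, ⟨f, hf, hfs⟩, ⟨f', hf', hfs'⟩⟩
    hirr hperf hn hm
  obtain ⟨hN1, hN2, -, hN4, -, -, -⟩ := hQN G q 2 b
  have hself := sum_self ρ hirr
  obtain ⟨-, hT2, hT3⟩ := hQDU G b.T b.T_cyc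
  obtain ⟨-, hU2, hU3⟩ := hQDU G b.N b.N_cyc
  have hGpos : (Fintype.card G : ℂ) ≠ 0 := Nat.cast_ne_zero.2 Fintype.card_ne_zero
  -- bounds for the multiplicities
  have hn1 : ∀ ψ : b.T →* ℂˣ, (ψ ^ 2 = 1 ∧ ψ ≠ 1) → n ψ ≤ 1 := by
    intro ψ hψ
    have h1 := hN1 ψ
    rw [if_pos hψ.1] at h1
    exact bound ρ.character (b.pr ψ) (n ψ) hself h1 (hM1 ψ)
  have hm1 : ∀ φ : b.N →* ℂˣ, (φ ^ 2 = 1 ∧ φ ≠ 1) → m φ ≤ 1 := by
    intro φ hφ
    have h1 := hN2 φ
    rw [if_pos hφ.1] at h1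
    exact bound ρ.character (b.ds φ) (m φ) hself h1 (hM2 φ)
  have hn0 : ∀ ψ : b.T →* ℂˣ, ¬ (ψ ^ 2 = 1 ∧ ψ ≠ 1) → n ψ ≤ 0 := by
    intro ψ hψ
    refine hn ψ ?_
    by_cases h1 : ψ ^ 2 = 1
    · exact Or.inr (by_contra fun h2 => hψ ⟨h1, h2⟩)
    · exact Or.inl h1
  have hm0 : ∀ φ : b.N →* ℂˣ, ¬ (φ ^ 2 = 1 ∧ φ ≠ 1) → m φ ≤ 0 := by
    intro φ hφ
    refine hm φ ?_
    by_cases h1 : φ ^ 2 = 1
    · exact Or.inr (by_contra fun h2 => hφ ⟨h1, h2⟩)
    · exact Or.inl h1
  have hA1 : ∑ i, n (f i) ≤ 1 := sum_le _ f hf n (fun ψ => ψ ^ 2 = 1 ∧ ψ ≠ 1) hn0 hn1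
    fun ψ ψ' h1 h2 => hT2 ψ ψ' h1.1 h1.2 h2.1 h2.2
  have hB1 : ∑ i, m (f' i) ≤ 1 := sum_le _ f' hf' m (fun φ => φ ^ 2 = 1 ∧ φ ≠ 1) hm0 hm1
    fun φ φ' h1 h2 => hU2 φ φ' h1.1 h1.2 h2.1 h2.2
  have hA0 : Odd (Nat.card b.T) → ∑ i, n (f i) ≤ 0 := fun h =>
    Finset.sum_nonpos fun i _ => hn0 _ fun h1 => h1.2 (hT3 h _ h1.1)
  have hB0 : Odd (Nat.card b.N) → ∑ i, m (f' i) ≤ 0 := fun h =>
    Finset.sum_nonpos fun i _ => hm0 _ fun h1 => h1.2 (hU3 h _ h1.1)
  rw [← hfs] at hA1 hA0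
  rw [← hfs'] at hB1 hB0
  have hcT := b.card_T
  have hcN := b.card_N
  have hTpos : 0 < Nat.card b.T := Nat.card_pos
  -- the dimension is positive
  have hD : 0 < Module.finrank ℂ V := by
    by_contra h0
    have h1 : Module.finrank ℂ V = 0 := by omega
    have h2 : Subsingleton V := Module.finrank_zero_iff.1 h1
    have h3 : ∀ g, ρ.character g = 0 := by
      intro g
      change LinearMap.trace ℂ _ (ρ g) = _
      have h4 : ρ g = 0 := LinearMap.ext fun w => Subsingleton.elim _ _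
      rw [h4, map_zero]
    have h4 : ∑ g : G, Complex.normSq (ρ.character g) = 0 :=
      Finset.sum_eq_zero fun g _ => by rw [h3, map_zero]
    rw [hself] at h4
    have h5 : Fintype.card G = 0 := by exact_mod_cast h4
    exact Fintype.card_ne_zero h5
  -- dimension one is impossible
  have hD1 : Module.finrank ℂ V ≠ 1 := by
    intro h1
    have h2 := hM1 1
    have h3 : ∑ g, ρ.character g * conj (b.pr 1 g) = (Fintype.card G : ℂ) := by
      have h4 : ∀ g, ρ.character g * conj (b.pr 1 g) = conj (b.pr 1 g) := by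
        intro g
        rw [dim_one ρ h1 hperf g, one_mul]
      rw [Finset.sum_congr rfl fun g _ => h4 g, ← map_sum, hN4, Complex.conj_natCast]
    rw [h3] at h2
    have h4 : (n 1 : ℂ) = 1 := by
      have h5 : (Fintype.card G : ℂ) * (n 1 : ℂ) = (Fintype.card G : ℂ) * 1 := by
        rw [mul_one]
        exact h2.symm
      exact mul_left_cancel₀ hGpos h5
    have h5 : n 1 = 1 := by exact_mod_cast h4
    have h6 := hn 1 (Or.inr rfl)
    omega
  generalize Nat.card b.T = t at *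
  generalize Nat.card b.N = N' at *
  generalize Module.finrank ℂ V = D at *
  have hNt : (N' : ℤ) = t + 1 := by
    push_cast at hcT hcN
    omega
  have hq : q = 2 * t + 1 := by
    push_cast at hcT
    omega
  have hs1 : s - a₀ ≤ 1 := by
    have h1 : (N' : ℤ) * s - D = s - a₀ := by
      rw [hNt, hM3]
      ring
    omega
  rcases Nat.even_or_odd t with ht | ht
  · -- `t` even
    right
    have hNodd : Odd N' := by
      have h1 : N' = t + 1 := by exact_mod_cast hNt
      rw [h1]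
      exact ht.add_one
    have hB := hB0 hNodd
    have h1 : (N' : ℤ) * s - D = s - a₀ := by
      rw [hNt, hM3]
      ring
    rw [h1] at hB
    have ht' : (0 : ℤ) < t := by exact_mod_cast hTpos
    have hDz : (0 : ℤ) < D := by exact_mod_cast hD
    have ha : a₀ = 1 := by
      by_contra h2
      have h3 : a₀ = 0 := by omega
      have h4 : s ≤ 0 := by
        rw [h3] at hB
        simpa using hB
      rw [hM3, h3] at hDz
      have h5 : (t : ℤ) * s ≤ 0 := mul_nonpos_of_nonneg_of_nonpos ht'.le h4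
      push_cast at hDz
      omega
    rw [ha] at hB hM3
    have hs2 : s = 1 := by
      have h2 : s ≤ 1 := by push_cast at hB; omega
      by_contra h3
      have h4 : s ≤ 0 := by omega
      rcases lt_or_eq_of_le h4 with h5 | h5
      · have h6 : (t : ℤ) * s ≤ t * (-1) := mul_le_mul_of_nonneg_left (by omega) ht'.le
        push_cast at hM3
        omega
      · rw [h5] at hM3
        apply hD1
        push_cast at hM3
        omega
    rw [hs2] at hM3
    obtain ⟨r, hr⟩ := ht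
    push_cast at hM3
    refine ⟨by omega, by omega⟩
  · -- `t` odd
    left
    have hA := hA0 ht
    have ha : a₀ = 0 := by omega
    have ht' : (0 : ℤ) < t := by exact_mod_cast hTpos
    have hDz : (0 : ℤ) < D := by exact_mod_cast hD
    rw [ha] at hM3 hs1
    have hs2 : s = 1 := by
      have h2 : s ≤ 1 := by push_cast at hs1; omega
      by_contra h3
      have h4 : s ≤ 0 := by omega
      have h5 : (t : ℤ) * s ≤ 0 := mul_nonpos_of_nonneg_of_nonpos ht'.le h4
      push_cast at hM3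
      omega
    rw [hs2] at hM3
    obtain ⟨r, hr⟩ := ht
    push_cast at hM3
    refine ⟨by omega, by omega⟩

end StarkC.ABS
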