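import Pool.Agent.ABS.StQ

/-!
# Project ABS (MP_46b841_nt), part Q: QC3, the last case for `PGL_2(k)`
-/

set_option autoImplicit false

open scoped Classical MatrixGroups ComplexConjugate

namespace StarkC.ABS

namespace QC3x

section Sign

variable {G : Type} [Group G]

/-- The sign of a subgroup. -/
noncomputable def sgn (P : Subgroup G) (g : G) : ℂ := if g ∈ P then 1 else -1

/-- The sign character of a subgroup of index two. -/
noncomputable def sg (P : Subgroup G) (hP : P.index = 2) : G →* ℂˣ where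
  toFun g := if g ∈ P then 1 else -1
  map_one' := if_pos P.one_mem
  map_mul' a b := by
    have h := Subgroup.mul_mem_iff_of_index_two hP (a := a) (b := b)
    by_cases ha : a ∈ P <;> by_cases hb : b ∈ P <;> simp [h, ha, hb]

theorem sg_val (P : Subgroup G) (hP : P.index = 2) (g : G) :
    ((sg P hP g : ℂˣ) : ℂ) = sgn P g := by
  change (((if g ∈ P then 1 else -1 : ℂˣ)) : ℂ) = if g ∈ P then 1 else -1
  split_ifs <;> simp

theorem mem_conj {P : Subgroup G} (hP : P.index = 2) (x g : G) :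
    x⁻¹ * g * x ∈ P ↔ g ∈ P := by
  rw [Subgroup.mul_mem_iff_of_index_two hP, Subgroup.mul_mem_iff_of_index_two hP, inv_mem_iff]
  tauto

theorem sgn_conj {P : Subgroup G} (hP : P.index = 2) (x g : G) :
    sgn P (x⁻¹ * g * x) = sgn P g := by
  unfold sgn
  by_cases h : g ∈ P
  · rw [if_pos h, if_pos ((mem_conj hP x g).2 h)]
  · rw [if_neg h, if_neg (fun h1 => h ((mem_conj hP x g).1 h1))]

theorem sgn_sq (P : Subgroup G) (g : G) : sgn P g * sgn P g = 1 := by
  unfold sgn
  split_ifs <;> ring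

theorem conj_sgn (P : Subgroup G) (g : G) : conj (sgn P g) = sgn P g := by
  unfold sgn
  split_ifs <;> simp

/-- The restriction of the sign character. -/
noncomputable def rs (P : Subgroup G) (hP : P.index = 2) (H : Subgroup G) : H →* ℂˣ :=
  (sg P hP).comp H.subtype

theorem extZ_rs (P : Subgroup G) (hP : P.index = 2) (H : Subgroup G) {y : G} (hy : y ∈ H) :
    extZ (rs P hP H) y = sgn P y := by
  unfold extZ
  rw [dif_pos hy]
  exact sg_val P hP y

theorem extZ_one (H : Subgroup G) {y : G} (hy : y ∈ H) :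
    extZ (1 : H →* ℂˣ) y = 1 := by
  unfold extZ
  rw [dif_pos hy]
  rfl

theorem rs_sq (P : Subgroup G) (hP : P.index = 2) (H : Subgroup G) : rs P hP H ^ 2 = 1 := by
  ext y
  have h : ((rs P hP H y : ℂˣ) : ℂ) = sgn P y := sg_val P hP y
  rw [MonoidHom.pow_apply, Units.val_pow_eq_pow_val, h, sq, sgn_sq]
  rfl

theorem rs_ne (P : Subgroup G) (hP : P.index = 2) (H : Subgroup G) (hH : ¬ H ≤ P) :
    rs P hP H ≠ 1 := by
  intro h
  apply hH
  intro y hy
  by_contra hyP
  have h1 : ((rs P hP H ⟨y, hy⟩ : ℂˣ) : ℂ) = sgn P y := sg_val P hP y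
  rw [h] at h1
  unfold sgn at h1
  rw [if_neg hyP] at h1
  have h2 : (1 : ℂ) = -1 := h1
  norm_num at h2

end Sign

section Ind

variable {G : Type} [Group G] [Fintype G]

theorem ind_one (H : Subgroup G) (g : G) :
    indFun H (extZ (1 : H →* ℂˣ)) g = indFun H (fun _ => 1) g := by
  unfold indFun
  congr 1
  refine Finset.sum_congr rfl fun x _ => ?_
  by_cases hx : x⁻¹ * g * x ∈ H
  · rw [if_pos hx, if_pos hx, extZ_one H hx]
  · rw [if_neg hx, if_neg hx]

theorem ind_rs (P : Subgroup G) (hP : P.index = 2) (H : Subgroup G) (g : G) :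
    indFun H (extZ (rs P hP H)) g = sgn P g * indFun H (fun _ => 1) g := by
  unfold indFun
  rw [mul_div_assoc', Finset.mul_sum]
  congr 1
  refine Finset.sum_congr rfl fun x _ => ?_
  by_cases hx : x⁻¹ * g * x ∈ H
  · rw [if_pos hx, if_pos hx, extZ_rs P hP H hx, sgn_conj hP, mul_one]
  · rw [if_neg hx, if_neg hx, mul_zero]

theorem cardG_ne : (Fintype.card G : ℂ) ≠ 0 := Nat.cast_ne_zero.2 Fintype.card_ne_zero

theorem ind_top (g : G) : indFun (⊤ : Subgroup G) (fun _ => 1) g = 1 := by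
  unfold indFun
  rw [Finset.sum_congr rfl (fun x _ => if_pos (Subgroup.mem_top (x⁻¹ * g * x))),
    Finset.sum_const, Finset.card_univ, nsmul_eq_mul, mul_one, Subgroup.card_top,
    Nat.card_eq_fintype_card, div_self cardG_ne]

theorem ind_P {P : Subgroup G} (hP : P.index = 2) (g : G) :
    indFun P (fun _ => 1) g = sgn P g + 1 := by
  have h1 : Nat.card P * 2 = Fintype.card G := by
    rw [← hP, Subgroup.card_mul_index, Nat.card_eq_fintype_card]
  have h2 : (Nat.card P : ℂ) ≠ 0 := Nat.cast_ne_zero.2 Nat.card_pos.ne'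
  have h3 : (Fintype.card G : ℂ) = (Nat.card P : ℂ) * 2 := by exact_mod_cast h1.symm
  unfold indFun sgn
  by_cases h : g ∈ P
  · rw [Finset.sum_congr rfl (fun x _ => if_pos ((mem_conj hP x g).2 h)), Finset.sum_const,
      Finset.card_univ, nsmul_eq_mul, mul_one, if_pos h, h3]
    field_simp
    norm_num
  · rw [Finset.sum_congr rfl (fun x _ => if_neg (fun h1 => h ((mem_conj hP x g).1 h1))),
      Finset.sum_const_zero, if_neg h, zero_div]
    norm_num

/-- The kernel of the sign character on `H`. -/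
noncomputable def ker2 (P H : Subgroup G) : Subgroup G := (P.subgroupOf H).map H.subtype

omit [Fintype G] in
theorem mem_ker2 (P H : Subgroup G) (y : G) : y ∈ ker2 P H ↔ y ∈ H ∧ y ∈ P := by
  unfold ker2
  rw [Subgroup.subgroupOf_map_subtype, Subgroup.mem_inf]
  exact and_comm

omit [Fintype G] in
theorem card_ker2 {P : Subgroup G} (hP : P.index = 2) {H : Subgroup G} (hH : ¬ H ≤ P) :
    (Nat.card H : ℂ) = (Nat.card (ker2 P H) : ℂ) * 2 := by
  have h1 : (P.subgroupOf H).index = 2 := by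
    have hn : P.Normal := Subgroup.normal_of_index_eq_two hP
    have h2 : P.relIndex H ∣ 2 := hP ▸ Subgroup.relIndex_dvd_index_of_normal P H
    rcases (Nat.dvd_prime Nat.prime_two).1 h2 with h | h
    · exact absurd (Subgroup.relIndex_eq_one.1 h) hH
    · exact h
  have h3 : Nat.card (ker2 P H) = Nat.card (P.subgroupOf H) :=
    Nat.card_congr ((P.subgroupOf H).equivMapOfInjective H.subtype
      (Subgroup.subtype_injective H)).toEquiv.symm
  have h4 : Nat.card (P.subgroupOf H) * 2 = Nat.card H := by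
    rw [← h1, Subgroup.card_mul_index]
  rw [h3]
  exact_mod_cast h4.symm

theorem ind_ker2 {P : Subgroup G} (hP : P.index = 2) {H : Subgroup G} (hH : ¬ H ≤ P) (g : G) :
    indFun (ker2 P H) (fun _ => 1) g = (sgn P g + 1) * indFun H (fun _ => 1) g := by
  have h2 : (Nat.card (ker2 P H) : ℂ) ≠ 0 := Nat.cast_ne_zero.2 Nat.card_pos.ne'
  unfold indFun
  rw [card_ker2 hP hH]
  have h3 : ∑ x : G, (if x⁻¹ * g * x ∈ H then (1 : ℂ) else 0) * (sgn P g + 1) =
      ∑ x : G, (if x⁻¹ * g * x ∈ ker2 P H then (1 : ℂ) else 0) * 2 := by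
    refine Finset.sum_congr rfl fun x _ => ?_
    unfold sgn
    by_cases hx : x⁻¹ * g * x ∈ H
    · by_cases hg : g ∈ P
      · rw [if_pos hx, if_pos hg, if_pos ((mem_ker2 P H _).2 ⟨hx, (mem_conj hP x g).2 hg⟩)]
        norm_num
      · rw [if_pos hx, if_neg hg,
          if_neg (fun h1 => hg ((mem_conj hP x g).1 ((mem_ker2 P H _).1 h1).2))]
        norm_num
    · rw [if_neg hx, if_neg (fun h1 => hx ((mem_ker2 P H _).1 h1).1)]
      norm_num
  rw [← Finset.sum_mul, ← Finset.sum_mul] at h3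
  field_simp
  linear_combination -h3

theorem permC_sgn {P : Subgroup G} (hP : P.index = 2) {θ : G → ℂ} (h : ∀ g, θ g = sgn P g) :
    PermC θ := by
  refine ⟨2, ![P, ⊤], ![1, -1], fun g => ?_⟩
  rw [Fin.sum_univ_two, h]
  change sgn P g = ((1 : ℤ) : ℂ) * indFun P (fun _ => 1) g +
    ((-1 : ℤ) : ℂ) * indFun ⊤ (fun _ => 1) g
  rw [ind_P hP, ind_top]
  push_cast
  ring

end Ind

section Main

variable {G V : Type} [Group G] [Fintype G] {q : ℕ}

theorem permC_pr (b : TB G q 1) {P : Subgroup G} (hP : P.index = 2) (hT : ¬ b.T ≤ P)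
    {θ : G → ℂ} (h : ∀ g, θ g = b.pr (rs P hP b.T) g - sgn P g) : PermC θ := by
  refine ⟨5, ![ker2 P b.T, b.T, b.B, P, ⊤], ![1, -2, 1, -1, 1], fun g => ?_⟩
  rw [Fin.sum_univ_five, h]
  change b.pr (rs P hP b.T) g - sgn P g = ((1 : ℤ) : ℂ) * indFun (ker2 P b.T) (fun _ => 1) g +
    ((-2 : ℤ) : ℂ) * indFun b.T (fun _ => 1) g + ((1 : ℤ) : ℂ) * indFun b.B (fun _ => 1) g +
    ((-1 : ℤ) : ℂ) * indFun P (fun _ => 1) g + ((1 : ℤ) : ℂ) * indFun ⊤ (fun _ => 1) g
  rw [ind_P hP, ind_top, ind_ker2 hP hT]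
  unfold TB.pr TB.tau
  rw [ind_rs]
  push_cast
  ring

/-- `sgn τ = τ`. -/
theorem sgn_tau (b : TB G q 1) {P : Subgroup G} (hP : P.index = 2) (hU : b.U ≤ P)
    (hB : ∀ g : G, (if g = 1 then (Fintype.card G : ℂ) else 0) =
      indFun b.U (fun _ => 1) g + (Nat.card b.T : ℂ) * b.tau g) (g : G) :
    sgn P g * b.tau g = b.tau g := by
  by_cases hg : g ∈ P
  · unfold sgn
    rw [if_pos hg, one_mul]
  · have h1 : g ≠ 1 := fun h => hg (h ▸ P.one_mem)
    have h2 : indFun b.U (fun _ => 1) g = 0 := by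
      unfold indFun
      rw [Finset.sum_congr rfl (fun x _ => if_neg (fun h1 => hg ((mem_conj hP x g).1 (hU h1)))),
        Finset.sum_const_zero, zero_div]
    have h3 := hB g
    rw [if_neg h1, h2, zero_add] at h3
    have h4 : (Nat.card b.T : ℂ) ≠ 0 := Nat.cast_ne_zero.2 Nat.card_pos.ne'
    have h5 : b.tau g = 0 := (mul_eq_zero.1 h3.symm).resolve_left h4
    rw [h5, mul_zero]

end Main

end QC3x

open QC3x in
theorem QC3_thm : Stmt_QC3 := by
  intro hbase hQEQ hQDU hQDH hQBB G V _ _ q b _ _ _ ρ a₀ s n m hmult hirr hev hn hm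
  obtain ⟨hQNT, hQD1, hQIN⟩ := hbase
  obtain ⟨hnorm, -, -, hsum, -, -, -⟩ := hQNT G q 1 b
  obtain ⟨hM1, hM2, hM3, ⟨f, -, hM4⟩, ⟨f', -, hM5⟩⟩ := hmult
  obtain ⟨-, hT2, hT3⟩ := hQDU G b.T b.T_cyc
  obtain ⟨-, hN2, hN3⟩ := hQDU G b.N b.N_cyc
  have hct := b.card_T
  have hcn := b.card_N
  -- some multiplicity is positive
  have key : (∃ ψ, 1 ≤ n ψ) ∨ ∃ φ, 1 ≤ m φ := by
    by_contra hcon
    push Not at hcon
    obtain ⟨hc1, hc2⟩ := hcon
    have h1 : (a₀ : ℤ) ≤ 0 := by
      rw [hM4]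
      exact Finset.sum_nonpos fun i _ => by have := hc1 (f i); omega
    have h2 : (Nat.card b.N : ℤ) * s - Module.finrank ℂ V ≤ 0 := by
      rw [hM5]
      exact Finset.sum_nonpos fun i _ => by have := hc2 (f' i); omega
    have hnt : Nontrivial V := by
      by_contra hV
      have hsub : Subsingleton V := not_nontrivial_iff_subsingleton.1 hV
      obtain ⟨x, y, hxy⟩ := hirr.toNontrivial.exists_pair_ne
      exact hxy (SetLike.ext fun v => by
        rw [Subsingleton.elim v 0]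
        exact iff_of_true (zero_mem x.toSubmodule) (zero_mem y.toSubmodule))
    have h3 : 0 < Module.finrank ℂ V := Module.finrank_pos
    have h4 : (Nat.card b.N : ℤ) = Nat.card b.T + 2 := by push_cast at hct hcn; linarith
    have h5 : 0 < (Nat.card b.T : ℤ) := by exact_mod_cast Nat.card_pos
    rw [h4] at h2
    have h6 : s ≤ 0 := by nlinarith
    nlinarith
  have key2 : (∃ ψ, 1 ≤ n ψ ∧ ψ ^ 2 = 1 ∧ ψ ≠ 1) ∨ ∃ φ, 1 ≤ m φ ∧ φ ^ 2 = 1 ∧ φ ≠ 1 := by
    rcases key with ⟨ψ, h⟩ | ⟨φ, h⟩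
    · refine Or.inl ⟨ψ, h, ?_, ?_⟩
      · by_contra h1
        have := hn ψ (Or.inl h1)
        omega
      · intro h1
        have := hn ψ (Or.inr h1)
        omega
    · refine Or.inr ⟨φ, h, ?_, ?_⟩
      · by_contra h1
        have := hm φ (Or.inl h1)
        omega
      · intro h1
        have := hm φ (Or.inr h1)
        omega
  rcases hev with hev | ⟨P, hTS⟩
  · exfalso
    obtain ⟨k, hk⟩ := hev
    push_cast at hct hcn
    rcases key2 with ⟨ψ, -, h1, h2⟩ | ⟨φ, -, h1, h2⟩
    · exact h2 (hT3 (by rw [Nat.odd_iff]; omega) ψ h1)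
    · exact h2 (hN3 (by rw [Nat.odd_iff]; omega) φ h1)
  have hP := hTS.index
  obtain ⟨-, hB⟩ := hQBB hQDH G q 1 b
  -- the sign character
  have hpr : ∀ g, b.pr (rs P hP b.T) g = sgn P g * b.pr 1 g := by
    intro g
    unfold TB.pr
    rw [ind_rs, ind_one, mul_sub, sgn_tau b hP hTS.U_le hB]
  have hds : ∀ g, b.ds (rs P hP b.N) g = b.pr (rs P hP b.T) g - 2 * sgn P g := by
    intro g
    have h1 : b.ds (rs P hP b.N) g = sgn P g * b.ds 1 g := by
      unfold TB.ds
      rw [ind_rs, ind_one, mul_sub, sgn_tau b hP hTS.U_le hB]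
    rw [h1, hQD1, hpr]
    ring
  obtain ⟨c, hc⟩ := hQIN G V ρ ⊤ (rs P hP ⊤)
  have hc' : ∑ g, ρ.character g * conj (sgn P g) = (Fintype.card G : ℂ) * (c : ℂ) := by
    rw [← hc]
    refine Finset.sum_congr rfl fun g _ => ?_
    rw [ind_rs, ind_top, mul_one]
  have hG : (Fintype.card G : ℂ) ≠ 0 := cardG_ne
  have hmn : (m (rs P hP b.N) : ℂ) = n (rs P hP b.T) - 2 * c := by
    have h1 := hM2 (rs P hP b.N)
    have h2 := hM1 (rs P hP b.T)
    have h3 : ∑ g, ρ.character g * conj (b.ds (rs P hP b.N) g) =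
        ∑ g, ρ.character g * conj (b.pr (rs P hP b.T) g) -
          2 * ∑ g, ρ.character g * conj (sgn P g) := by
      rw [Finset.mul_sum, ← Finset.sum_sub_distrib]
      refine Finset.sum_congr rfl fun g _ => ?_
      rw [hds, map_sub, map_mul, Complex.conj_ofNat]
      ring
    rw [h1, h2, hc'] at h3
    apply mul_left_cancel₀ hG
    linear_combination h3
  have hmn' : m (rs P hP b.N) = n (rs P hP b.T) - 2 * (c : ℤ) := by exact_mod_cast hmn
  have hn1 : 1 ≤ n (rs P hP b.T) := by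
    rcases key2 with ⟨ψ, h0, h1, h2⟩ | ⟨φ, h0, h1, h2⟩
    · rw [hT2 (rs P hP b.T) ψ (rs_sq P hP b.T) (rs_ne P hP b.T hTS.T_not) h1 h2]
      exact h0
    · rw [hN2 φ (rs P hP b.N) h1 h2 (rs_sq P hP b.N) (rs_ne P hP b.N hTS.N_not)] at h0
      omega
  have hss : ∑ g, sgn P g * conj (sgn P g) = (Fintype.card G : ℂ) := by
    rw [Finset.sum_congr rfl (fun g _ => by rw [conj_sgn, sgn_sq]), Finset.sum_const,
      Finset.card_univ, nsmul_eq_mul, mul_one]
  rcases Nat.eq_zero_or_pos c with hc0 | hc0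
  · -- `χ = pr ψ₂ - sgn`
    refine permC_pr b hP hTS.T_not (hQEQ G V ρ (fun g => b.pr (rs P hP b.T) g - sgn P g)
      (n (rs P hP b.T)) hirr ?_ ?_ hn1)
    · have h1 := hnorm (rs P hP b.T)
      rw [if_pos (rs_sq P hP b.T)] at h1
      have h2 : ∑ g, b.pr (rs P hP b.T) g * conj (sgn P g) = (Fintype.card G : ℂ) := by
        rw [← hsum]
        refine Finset.sum_congr rfl fun g _ => ?_
        rw [hpr, conj_sgn]
        linear_combination b.pr 1 g * sgn_sq P g
      have h3 : ∑ g, sgn P g * conj (b.pr (rs P hP b.T) g) = (Fintype.card G : ℂ) := by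
        have h4 := congrArg conj h2
        rw [map_sum, Complex.conj_natCast] at h4
        rw [← h4]
        refine Finset.sum_congr rfl fun g _ => ?_
        rw [map_mul, Complex.conj_conj]
        ring
      have h5 : ∑ g, (b.pr (rs P hP b.T) g - sgn P g) *
          conj (b.pr (rs P hP b.T) g - sgn P g) =
          ∑ g, b.pr (rs P hP b.T) g * conj (b.pr (rs P hP b.T) g) -
            ∑ g, b.pr (rs P hP b.T) g * conj (sgn P g) -
            ∑ g, sgn P g * conj (b.pr (rs P hP b.T) g) + ∑ g, sgn P g * conj (sgn P g) := by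
        rw [← Finset.sum_sub_distrib, ← Finset.sum_sub_distrib, ← Finset.sum_add_distrib]
        refine Finset.sum_congr rfl fun g _ => ?_
        rw [map_sub]
        ring
      rw [h5, h1, h2, h3, hss]
      ring
    · have h1 : ∑ g, ρ.character g * conj (b.pr (rs P hP b.T) g - sgn P g) =
          ∑ g, ρ.character g * conj (b.pr (rs P hP b.T) g) -
            ∑ g, ρ.character g * conj (sgn P g) := by
        rw [← Finset.sum_sub_distrib]
        refine Finset.sum_congr rfl fun g _ => ?_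
        rw [map_sub]
        ring
      rw [h1, hM1, hc', hc0]
      push_cast
      ring
  · -- `χ = sgn`
    exact permC_sgn hP (hQEQ G V ρ (sgn P) c hirr hss (by rw [hc']; push_cast; ring)
      (by exact_mod_cast hc0))

end StarkC.ABS
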