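import Pool.Agent.ABS.StQ

set_option autoImplicit false

open scoped Classical MatrixGroups ComplexConjugate

namespace StarkC.ABS

namespace QCAx

theorem ind_one {G : Type} [Group G] [Fintype G] (H : Subgroup G) (g : G) :
    indFun H (fun _ => (1 : ℂ)) g = indFun H (extZ (1 : H →* ℂˣ)) g := by
  unfold indFun
  congr 1
  apply Finset.sum_congr rfl
  intro x _
  by_cases h : x⁻¹ * g * x ∈ H
  · simp [h, extZ]
  · simp [h]

theorem sum_ind {G : Type} [Group G] [Fintype G] (T : Subgroup G)
    (f : Fin (Nat.card T) → (T →* ℂˣ))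
    (hf : ∀ t : T, ∑ i, ((f i t : ℂˣ) : ℂ) = if t = 1 then (Nat.card T : ℂ) else 0) (g : G) :
    ∑ i, indFun T (extZ (f i)) g = if g = 1 then (Fintype.card G : ℂ) else 0 := by
  have hT : (Nat.card T : ℂ) ≠ 0 := by
    rw [Nat.cast_ne_zero]
    exact Nat.card_pos.ne'
  unfold indFun
  rw [← Finset.sum_div, Finset.sum_comm]
  have key : ∀ x : G, ∑ i, (if x⁻¹ * g * x ∈ T then extZ (f i) (x⁻¹ * g * x) else 0) =
      if g = 1 then (Nat.card T : ℂ) else 0 := by
    intro x
    by_cases h : x⁻¹ * g * x ∈ T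
    · have h1 : ∀ i, (if x⁻¹ * g * x ∈ T then extZ (f i) (x⁻¹ * g * x) else 0) =
          ((f i ⟨x⁻¹ * g * x, h⟩ : ℂˣ) : ℂ) := by
        intro i
        rw [if_pos h]
        unfold extZ
        rw [dif_pos h]
      rw [Finset.sum_congr rfl (fun i _ => h1 i), hf]
      by_cases hg : g = 1
      · subst hg
        rw [if_pos rfl, if_pos]
        apply Subtype.ext
        simp
      · rw [if_neg hg, if_neg]
        intro h2
        apply hg
        have h3 : x⁻¹ * g * x = 1 := congrArg Subtype.val h2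
        have h4 : g = x * (x⁻¹ * g * x) * x⁻¹ := by group
        rw [h4, h3]
        group
    · have hg : g ≠ 1 := by
        rintro rfl
        apply h
        simpa using T.one_mem
      rw [if_neg hg]
      apply Finset.sum_eq_zero
      intro i _
      rw [if_neg h]
  rw [Finset.sum_congr rfl (fun x _ => key x), Finset.sum_const, Finset.card_univ, nsmul_eq_mul]
  split_ifs
  · rw [mul_div_assoc, div_self hT, mul_one]
  · rw [mul_zero, zero_div]

theorem ip_delta {G : Type} [Group G] [Fintype G] (χ : G → ℂ) :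
    ∑ g, χ g * conj (if g = 1 then (Fintype.card G : ℂ) else 0) =
      (Fintype.card G : ℂ) * χ 1 := by
  rw [Finset.sum_eq_single (1 : G)]
  · rw [if_pos rfl, Complex.conj_natCast, mul_comm]
  · intro g _ hg
    rw [if_neg hg, map_zero, mul_zero]
  · intro h
    exact absurd (Finset.mem_univ _) h

end QCAx

open QCAx

theorem QCA_thm : Stmt_QCA := by
  intro hQDH hQBB hQDU hQIN G V _ _ q d b _ _ _ ρ
  have hG : (Fintype.card G : ℂ) ≠ 0 := by
    rw [Nat.cast_ne_zero]
    exact Fintype.card_ne_zero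
  choose M hM using fun (H : Subgroup G) (ψ : H →* ℂˣ) => hQIN G V ρ H ψ
  have hone : ∀ H : Subgroup G, ∑ g, ρ.character g * conj (indFun H (fun _ => (1 : ℂ)) g) =
      (Fintype.card G : ℂ) * (M H 1 : ℂ) := by
    intro H
    rw [← hM H 1]
    apply Finset.sum_congr rfl
    intro g _
    rw [ind_one]
  have htau : ∑ g, ρ.character g * conj (b.tau g) =
      (Fintype.card G : ℂ) * (((M b.T 1 : ℤ) - (M b.B 1 : ℤ) : ℤ) : ℂ) := by
    have : ∀ g, ρ.character g * conj (b.tau g) =
        ρ.character g * conj (indFun b.T (fun _ => (1 : ℂ)) g) -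
          ρ.character g * conj (indFun b.B (fun _ => (1 : ℂ)) g) := by
      intro g
      unfold TB.tau
      rw [map_sub, mul_sub]
    rw [Finset.sum_congr rfl (fun g _ => this g), Finset.sum_sub_distrib, hone, hone]
    push_cast
    ring
  have hfam : ∀ (T : Subgroup G) (f : Fin (Nat.card T) → (T →* ℂˣ)),
      (∀ t : T, ∑ i, ((f i t : ℂˣ) : ℂ) = if t = 1 then (Nat.card T : ℂ) else 0) →
      ((Module.finrank ℂ V : ℕ) : ℤ) = ∑ i, (M T (f i) : ℤ) := by
    intro T f hf
    have h1 : ∑ g, ρ.character g * conj (∑ i, indFun T (extZ (f i)) g) =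
        (Fintype.card G : ℂ) * ρ.character 1 := by
      rw [← ip_delta]
      apply Finset.sum_congr rfl
      intro g _
      rw [sum_ind T f hf g]
    have h2 : ∑ g, ρ.character g * conj (∑ i, indFun T (extZ (f i)) g) =
        (Fintype.card G : ℂ) * ∑ i, (M T (f i) : ℂ) := by
      rw [Finset.mul_sum, ← Finset.sum_congr rfl (fun i _ => hM T (f i)), Finset.sum_comm]
      apply Finset.sum_congr rfl
      intro g _
      rw [map_sum, Finset.mul_sum]
    rw [h1] at h2
    have h3 := mul_left_cancel₀ hG h2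
    rw [Representation.char_one] at h3
    exact_mod_cast h3
  have hdim : (Module.finrank ℂ V : ℤ) =
      M b.U 1 + Nat.card b.T * ((M b.T 1 : ℤ) - (M b.B 1 : ℤ)) := by
    have h1 := (hQBB hQDH G q d b).2
    have h2 : (Fintype.card G : ℂ) * ρ.character 1 =
        (Fintype.card G : ℂ) * ((M b.U 1 : ℂ) + (Nat.card b.T : ℂ) *
          (((M b.T 1 : ℤ) - (M b.B 1 : ℤ) : ℤ) : ℂ)) := by
      rw [← ip_delta]
      have : ∀ g, ρ.character g * conj (if g = 1 then (Fintype.card G : ℂ) else 0) =
          ρ.character g * conj (indFun b.U (fun _ => (1 : ℂ)) g) +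
            (Nat.card b.T : ℂ) * (ρ.character g * conj (b.tau g)) := by
        intro g
        rw [h1 g, map_add, map_mul, Complex.conj_natCast]
        ring
      rw [Finset.sum_congr rfl (fun g _ => this g), Finset.sum_add_distrib, ← Finset.mul_sum,
        hone, htau]
      ring
    have h3 := mul_left_cancel₀ hG h2
    rw [Representation.char_one] at h3
    exact_mod_cast h3
  refine ⟨M b.U 1, (M b.T 1 : ℤ) - (M b.B 1 : ℤ),
    fun ψ => (M b.T ψ : ℤ) - ((M b.T 1 : ℤ) - (M b.B 1 : ℤ)),
    fun φ => ((M b.T 1 : ℤ) - (M b.B 1 : ℤ)) - (M b.N φ : ℤ), ?_, ?_, hdim, ?_, ?_⟩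
  · intro ψ
    have : ∀ g, ρ.character g * conj (b.pr ψ g) =
        ρ.character g * conj (indFun b.T (extZ ψ) g) - ρ.character g * conj (b.tau g) := by
      intro g
      unfold TB.pr
      rw [map_sub, mul_sub]
    rw [Finset.sum_congr rfl (fun g _ => this g), Finset.sum_sub_distrib, hM, htau]
    push_cast
    ring
  · intro φ
    have : ∀ g, ρ.character g * conj (b.ds φ g) =
        ρ.character g * conj (b.tau g) - ρ.character g * conj (indFun b.N (extZ φ) g) := by
      intro g
      unfold TB.ds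
      rw [map_sub, mul_sub]
    rw [Finset.sum_congr rfl (fun g _ => this g), Finset.sum_sub_distrib, hM, htau]
    push_cast
    ring
  · obtain ⟨f, hinj, hf⟩ := (hQDU G b.T b.T_cyc).1
    refine ⟨f, hinj, ?_⟩
    have h1 := hfam b.T f hf
    rw [Finset.sum_sub_distrib, Finset.sum_const, Finset.card_univ, Fintype.card_fin, ← h1,
      nsmul_eq_mul, hdim]
    ring
  · obtain ⟨f, hinj, hf⟩ := (hQDU G b.N b.N_cyc).1
    refine ⟨f, hinj, ?_⟩
    have h1 := hfam b.N f hf
    rw [Finset.sum_sub_distrib, Finset.sum_const, Finset.card_univ, Fintype.card_fin, ← h1,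
      nsmul_eq_mul]

end StarkC.ABS
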