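import Pool.Agent.ABS.StQ

/-!
# ABS, module QD1 (helper45): `ds 1 = pr 1 - 2`
-/

set_option autoImplicit false

open scoped Classical MatrixGroups ComplexConjugate

namespace StarkC.ABS

namespace QD1x

/-- a function whose sum of squares of absolute values vanishes is zero -/
theorem eq_zero_of_sum {G : Type} [Fintype G] (F : G → ℂ) (h : ∑ g, F g * conj (F g) = 0) (g : G) :
    F g = 0 := by
  have h1 : ∀ x, F x * conj (F x) = ((Complex.normSq (F x) : ℝ) : ℂ) := fun x =>
    Complex.mul_conj (F x)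
  rw [Finset.sum_congr rfl fun x _ => h1 x, ← Complex.ofReal_sum] at h
  have h2 : ∑ x, Complex.normSq (F x) = 0 := by exact_mod_cast h
  have h3 := (Finset.sum_eq_zero_iff_of_nonneg fun x _ => Complex.normSq_nonneg (F x)).1 h2 g
    (Finset.mem_univ g)
  exact Complex.normSq_eq_zero.1 h3

theorem conj_sum {G : Type} [Fintype G] (F H : G → ℂ) {c : ℂ}
    (h : ∑ g, F g * conj (H g) = c) : ∑ g, H g * conj (F g) = conj c := by
  rw [← h, map_sum]
  refine Finset.sum_congr rfl fun g _ => ?_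
  rw [map_mul, Complex.conj_conj, mul_comm]

theorem expand {G : Type} [Fintype G] (D P : G → ℂ) (c : ℂ) (hc : conj c = c)
    (hG : ((Fintype.card G : ℕ) : ℂ) = c)
    (hD : ∑ g, D g * conj (D g) = c * 2) (hP : ∑ g, P g * conj (P g) = c * 2)
    (h3 : ∑ g, D g * conj (P g) = 0) (h4 : ∑ g, P g = c) (h5 : ∑ g, D g = -c) :
    ∑ g, (D g - P g + 2) * conj (D g - P g + 2) = 0 := by
  have h3' : ∑ g, P g * conj (D g) = 0 := by
    have := conj_sum D P h3
    rwa [map_zero] at this
  have h4' : ∑ g, conj (P g) = c := by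
    rw [← map_sum, h4, hc]
  have h5' : ∑ g, conj (D g) = -c := by
    rw [← map_sum, h5, map_neg, hc]
  have h6 : ∀ g, (D g - P g + 2) * conj (D g - P g + 2) =
      D g * conj (D g) + P g * conj (P g) - D g * conj (P g) - P g * conj (D g) +
        2 * D g + 2 * conj (D g) - 2 * P g - 2 * conj (P g) + 4 := by
    intro g
    rw [map_add, map_sub, Complex.conj_ofNat]
    ring
  rw [Finset.sum_congr rfl fun g _ => h6 g]
  simp only [Finset.sum_add_distrib, Finset.sum_sub_distrib, ← Finset.mul_sum]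
  rw [hD, hP, h3, h3', h4, h4', h5, h5', Finset.sum_const, Finset.card_univ, nsmul_eq_mul, hG]
  ring

end QD1x

open QD1x in
theorem QD1_thm : Stmt_QD1 := by
  intro h G _ _ q d b g
  obtain ⟨h1, h2, h3, h4, h5, -, -⟩ := h G q d b
  have hP := h1 1
  have hD := h2 1
  have e1 : (1 : b.T →* ℂˣ) ^ 2 = 1 := by
    ext x
    simp
  have e2 : (1 : b.N →* ℂˣ) ^ 2 = 1 := by
    ext x
    simp
  rw [if_pos e1] at hP
  rw [if_pos e2] at hD
  have key := expand (fun g => b.ds 1 g) (fun g => b.pr 1 g) (Fintype.card G : ℂ)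
    (Complex.conj_natCast _) rfl hD hP h3 h4 h5
  have h6 := eq_zero_of_sum (fun g => b.ds 1 g - b.pr 1 g + 2) key g
  have h7 : b.ds 1 g - b.pr 1 g + 2 = 0 := h6
  linear_combination h7

end StarkC.ABS
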