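import Pool.Agent.ABS.StQ

/-!
# Project ABS (MP_46b841_nt), module QDH: `T`, `w` and `N`, `v` are `Dih`, and `|B| = q |T|`
-/

set_option autoImplicit false

open scoped Classical MatrixGroups ComplexConjugate

namespace StarkC.ABS

namespace QDHx

variable {G : Type} [Group G] [Fintype G] {q d : ℕ}

lemma comm_of_cyc (H : Subgroup G) (h : IsCyclic H) : ∀ a ∈ H, ∀ b ∈ H, a * b = b * a := by
  intro a ha b hb
  obtain ⟨g, hg⟩ := IsCyclic.exists_generator (α := H)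
  obtain ⟨m, hm⟩ := hg ⟨a, ha⟩
  obtain ⟨n, hn⟩ := hg ⟨b, hb⟩
  have h1 : (⟨a, ha⟩ : H) * ⟨b, hb⟩ = ⟨b, hb⟩ * ⟨a, ha⟩ := by
    rw [← hm, ← hn]
    show g ^ m * g ^ n = g ^ n * g ^ m
    rw [← zpow_add, ← zpow_add, add_comm]
  exact congrArg Subtype.val h1

lemma inter (b : TB G q d) : ∀ g ∈ b.U, g ∈ b.T → g = 1 := by
  intro g hU hT
  by_contra hne
  exact hne (b.free g hT g hU hne (by group))

lemma T_le (b : TB G q d) : ∀ t ∈ b.T, t ∈ b.B := by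
  intro t ht
  rw [b.mem_B]
  exact ⟨1, b.U.one_mem, t, ht, (one_mul t).symm⟩

lemma aux (b : TB G q d) (t : G) (ht : t ∈ b.T) (hne : t ≠ 1) (x : G) (hx : x ∈ b.B)
    (h : x⁻¹ * t * x ∈ b.T) : x ∈ b.T := by
  obtain ⟨u, hu, s, hs, rfl⟩ := (b.mem_B x).1 hx
  have h1 : u⁻¹ * t * u ∈ b.T := by
    have h2 := b.T.mul_mem (b.T.mul_mem hs h) (b.T.inv_mem hs)
    have h3 : s * ((u * s)⁻¹ * t * (u * s)) * s⁻¹ = u⁻¹ * t * u := by group
    rwa [h3] at h2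
  have h4 : t * u * t⁻¹ ∈ b.U := by
    have := b.T_U t⁻¹ (b.T.inv_mem ht) u hu
    rwa [inv_inv] at this
  have h5 : u⁻¹ * t * u * t⁻¹ ∈ b.T := b.T.mul_mem h1 (b.T.inv_mem ht)
  have h6 : u⁻¹ * t * u * t⁻¹ ∈ b.U := by
    have h7 := b.U.mul_mem (b.U.inv_mem hu) h4
    have h8 : u⁻¹ * (t * u * t⁻¹) = u⁻¹ * t * u * t⁻¹ := by group
    rwa [h8] at h7
  have h9 := inter b _ h6 h5
  have h10 : t * u = u * t := by
    have h11 : u⁻¹ * t * u = t := by rwa [mul_inv_eq_one] at h9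
    calc t * u = u * (u⁻¹ * t * u) := by group
      _ = u * t := by rw [h11]
  have h12 : u = 1 := by
    apply b.free t ht u hu hne
    rw [mul_assoc, ← h10]
    group
  rw [h12, one_mul]
  exact hs

lemma dihT (b : TB G q d) : Dih b.T b.w := by
  refine ⟨comm_of_cyc b.T b.T_cyc, b.w_sq, b.w_T, fun h => b.w_B (T_le b _ h), ?_⟩
  intro t ht hne x hx
  rcases b.fus_T t ht hne x (T_le b _ hx) with h | h
  · exact Or.inl (aux b t ht hne x h hx)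
  · right
    apply aux b t⁻¹ (b.T.inv_mem ht) (by simpa using hne) (b.w * x) h
    have hw : b.w⁻¹ = b.w := inv_eq_of_mul_eq_one_left b.w_sq
    have h1 : (b.w * x)⁻¹ * t⁻¹ * (b.w * x) = x⁻¹ * (b.w * t⁻¹ * b.w) * x := by
      rw [mul_inv_rev, hw]
      group
    rw [h1, b.w_T t⁻¹ (b.T.inv_mem ht), inv_inv]
    exact hx

lemma cardB (b : TB G q d) : Nat.card b.B = q * Nat.card b.T := by
  have h1 : Nat.card b.B = Nat.card (b.U × b.T) := by
    symm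
    apply Nat.card_congr
    refine Equiv.ofBijective (fun p : b.U × b.T =>
      (⟨p.1.1 * p.2.1, (b.mem_B _).2 ⟨p.1.1, p.1.2, p.2.1, p.2.2, rfl⟩⟩ : b.B)) ⟨?_, ?_⟩
    · rintro ⟨⟨u, hu⟩, ⟨t, ht⟩⟩ ⟨⟨u', hu'⟩, ⟨t', ht'⟩⟩ h
      have h2 : u * t = u' * t' := congrArg Subtype.val h
      have h3 : u'⁻¹ * u = t' * t⁻¹ := by
        calc u'⁻¹ * u = u'⁻¹ * (u * t) * t⁻¹ := by group
          _ = u'⁻¹ * (u' * t') * t⁻¹ := by rw [h2]
          _ = t' * t⁻¹ := by group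
      have h4 : u'⁻¹ * u = 1 := by
        apply inter b
        · exact b.U.mul_mem (b.U.inv_mem hu') hu
        · rw [h3]
          exact b.T.mul_mem ht' (b.T.inv_mem ht)
      have h5 : u' = u := inv_mul_eq_one.1 h4
      have h6 : t' = t := by
        rw [h4] at h3
        exact (mul_inv_eq_one.1 h3.symm)
      subst h5
      subst h6
      rfl
    · rintro ⟨x, hx⟩
      obtain ⟨u, hu, t, ht, rfl⟩ := (b.mem_B x).1 hx
      exact ⟨(⟨u, hu⟩, ⟨t, ht⟩), rfl⟩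
  rw [h1, Nat.card_prod, b.card_U]

end QDHx

theorem QDH_thm : Stmt_QDH := by
  intro G _ _ q d b
  exact ⟨QDHx.dihT b, ⟨QDHx.comm_of_cyc b.N b.N_cyc, b.v_sq, b.v_N, b.v_not, b.fus_N⟩,
    QDHx.inter b, QDHx.cardB b⟩

end StarkC.ABS
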