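import Pool.Agent.ABS.StQ

/-!
# Part Q, module QDI (helper49): sums over the conjugates of `Ind_T ψ` are permutation characters

The first parts of `∑_c μ(r/c) Ind_(D_c) 1` are Ramanujan sums; the second parts are, by the same
formula, the sums over the `t` prime to `r` of `∑_x ψ^t(w x⁻¹ g x)` (zero outside of `T`), and each of
these is zero: the substitution `x ↦ x s`, `s ∈ T`, multiplies it with `ψ^t(s)²`.
-/

set_option autoImplicit false

open scoped Classical

namespace StarkC.ABS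

namespace QDIx

theorem sum_moebius (n : ℕ) :
    ∑ d ∈ n.divisors, ((ArithmeticFunction.moebius d : ℤ) : ℂ) = if n = 1 then 1 else 0 := by
  have h1 : ∑ d ∈ n.divisors, (ArithmeticFunction.moebius d : ℤ) = if n = 1 then 1 else 0 := by
    rw [← ArithmeticFunction.coe_mul_zeta_apply, ArithmeticFunction.moebius_mul_coe_zeta,
      ArithmeticFunction.one_apply]
  have h2 := congrArg (Int.cast : ℤ → ℂ) h1
  rw [Int.cast_sum] at h2
  rw [h2]
  split_ifs <;> simp

/-- the Ramanujan sum -/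
theorem ram {r : ℕ} (hr : 0 < r) (z : ℂ) (hz : z ^ r = 1) :
    ∑ t ∈ (Finset.range r).filter (fun t => r.Coprime t), z ^ t =
      ∑ d ∈ r.divisors, ((ArithmeticFunction.moebius d : ℤ) : ℂ) *
        (if z ^ d = 1 then ((r / d : ℕ) : ℂ) else 0) := by
  have h1 : ∀ t ∈ Finset.range r, (if r.Coprime t then z ^ t else 0) =
      ∑ d ∈ r.divisors, (if d ∣ t then ((ArithmeticFunction.moebius d : ℤ) : ℂ) * z ^ t else 0) := by
    intro t _
    have h2 : r.divisors.filter (fun d => d ∣ t) = (r.gcd t).divisors := by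
      ext d
      rw [Finset.mem_filter, Nat.mem_divisors, Nat.mem_divisors, Nat.dvd_gcd_iff]
      constructor
      · rintro ⟨⟨h3, -⟩, h4⟩
        exact ⟨⟨h3, h4⟩, (Nat.gcd_pos_of_pos_left t hr).ne'⟩
      · rintro ⟨⟨h3, h4⟩, -⟩
        exact ⟨⟨h3, hr.ne'⟩, h4⟩
    rw [← Finset.sum_filter, h2, ← Finset.sum_mul, sum_moebius]
    by_cases h3 : r.Coprime t
    · rw [if_pos h3, if_pos (show r.gcd t = 1 from h3), one_mul]
    · rw [if_neg h3, if_neg (show ¬ r.gcd t = 1 from h3), zero_mul]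
  rw [Finset.sum_filter, Finset.sum_congr rfl h1, Finset.sum_comm]
  refine Finset.sum_congr rfl fun d hd => ?_
  obtain ⟨⟨m, hm⟩, -⟩ := Nat.mem_divisors.1 hd
  have hd0 : 0 < d := Nat.pos_of_mem_divisors hd
  have hrd : r / d = m := by
    rw [hm, Nat.mul_div_cancel_left _ hd0]
  rw [← Finset.sum_filter, ← Finset.mul_sum, hrd]
  congr 1
  have h2 : ∑ t ∈ (Finset.range r).filter (fun t => d ∣ t), z ^ t =
      ∑ j ∈ Finset.range m, (z ^ d) ^ j := by
    symm
    refine Finset.sum_bij (fun j _ => d * j) ?_ ?_ ?_ ?_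
    · intro j hj
      rw [Finset.mem_filter, Finset.mem_range, hm]
      exact ⟨Nat.mul_lt_mul_of_pos_left (Finset.mem_range.1 hj) hd0, Dvd.intro j rfl⟩
    · intro i _ j _ h
      exact Nat.eq_of_mul_eq_mul_left hd0 h
    · intro t ht
      rw [Finset.mem_filter, Finset.mem_range, hm] at ht
      obtain ⟨h3, j, rfl⟩ := ht
      exact ⟨j, Finset.mem_range.2 (Nat.lt_of_mul_lt_mul_left h3), rfl⟩
    · intro j _
      rw [pow_mul]
  rw [h2]
  by_cases h3 : z ^ d = 1
  · rw [if_pos h3, h3]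
    simp
  · rw [if_neg h3]
    have h4 := geom_sum_mul (z ^ d) m
    rw [← pow_mul, ← hm, hz, sub_self] at h4
    exact (mul_eq_zero.1 h4).resolve_right (sub_ne_zero.2 h3)

variable {G : Type} [Group G]

theorem card_range [Finite G] (χ : G →* ℂˣ) : Nat.card χ.range = orderOf χ := by
  have hfin : Finite χ.range := Set.finite_range χ
  have hcyc : IsCyclic χ.range := inferInstance
  rw [← IsCyclic.exponent_eq_card]
  apply Nat.dvd_antisymm
  · apply Monoid.exponent_dvd_of_forall_pow_eq_one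
    rintro ⟨_, g, rfl⟩
    apply Subtype.ext
    have h := DFunLike.congr_fun (pow_orderOf_eq_one χ) g
    rw [MonoidHom.pow_apply, MonoidHom.one_apply] at h
    exact h
  · apply orderOf_dvd_of_pow_eq_one
    ext g
    have h := Monoid.pow_exponent_eq_one (⟨χ g, g, rfl⟩ : χ.range)
    have h1 := congrArg Subtype.val h
    have h2 : χ g ^ Monoid.exponent χ.range = 1 := by simpa using h1
    rw [MonoidHom.pow_apply, h2]
    simp

/-- the kernel of `ψ ^ d` as a subgroup of `G` -/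
def KK {T : Subgroup G} (ψ : T →* ℂˣ) (d : ℕ) : Subgroup G := (ψ ^ d).ker.map T.subtype

theorem mem_KK {T : Subgroup G} (ψ : T →* ℂˣ) (d : ℕ) (y : G) :
    y ∈ KK ψ d ↔ ∃ h : y ∈ T, ψ ⟨y, h⟩ ^ d = 1 := by
  unfold KK
  rw [Subgroup.mem_map]
  constructor
  · rintro ⟨⟨x, hx⟩, h1, rfl⟩
    rw [MonoidHom.mem_ker, MonoidHom.pow_apply] at h1
    exact ⟨hx, h1⟩
  · rintro ⟨h, h1⟩
    refine ⟨⟨y, h⟩, ?_, rfl⟩
    rw [MonoidHom.mem_ker, MonoidHom.pow_apply]
    exact h1

theorem card_KK [Finite G] {T : Subgroup G} (ψ : T →* ℂˣ) (d : ℕ) (hd : d ∣ orderOf ψ) (h0 : d ≠ 0) :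
    orderOf ψ / d * Nat.card (KK ψ d) = Nat.card T := by
  have h1 : Nat.card (KK ψ d) = Nat.card (ψ ^ d).ker :=
    Nat.card_congr ((ψ ^ d).ker.equivMapOfInjective T.subtype T.subtype_injective).toEquiv.symm
  have h2 := (ψ ^ d).ker.card_mul_index
  rw [Subgroup.index_ker, card_range, orderOf_pow_of_dvd h0 hd] at h2
  rw [h1, mul_comm]
  exact h2

/-- `K ∪ w K` -/
def DD {T : Subgroup G} {w : G} (hw : Dih T w) (K : Subgroup G) (hK : K ≤ T) : Subgroup G where
  carrier := {x | x ∈ K ∨ w * x ∈ K}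
  one_mem' := Or.inl K.one_mem
  mul_mem' := by
    rintro a b (ha | ha) (hb | hb)
    · exact Or.inl (K.mul_mem ha hb)
    · refine Or.inr ?_
      have h1 : w * (a * b) = (w * a * w) * (w * b) := by
        calc w * (a * b) = w * a * (1 * b) := by group
          _ = w * a * ((w * w) * b) := by rw [hw.sq]
          _ = (w * a * w) * (w * b) := by group
      rw [h1, hw.inv a (hK ha)]
      exact K.mul_mem (K.inv_mem ha) hb
    · refine Or.inr ?_
      rw [← mul_assoc]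
      exact K.mul_mem ha hb
    · refine Or.inl ?_
      have h1 : a * b = (w * (w * a) * w) * (w * b) := by
        calc a * b = (1 * a) * (1 * b) := by group
          _ = ((w * w) * a) * ((w * w) * b) := by rw [hw.sq]
          _ = (w * (w * a) * w) * (w * b) := by group
      rw [h1, hw.inv _ (hK ha)]
      exact K.mul_mem (K.inv_mem ha) hb
  inv_mem' := by
    rintro a (ha | ha)
    · exact Or.inl (K.inv_mem ha)
    · refine Or.inr ?_
      have hwi : w⁻¹ = w := inv_eq_of_mul_eq_one_left hw.sq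
      have h1 : w * a⁻¹ = (w * (w * a) * w)⁻¹ := by
        calc w * a⁻¹ = w * (1 * a)⁻¹ := by group
          _ = w * ((w * w) * a)⁻¹ := by rw [hw.sq]
          _ = w⁻¹ * ((w * w) * a)⁻¹ := by rw [hwi]
          _ = (w * (w * a) * w)⁻¹ := by group
      rw [h1, hw.inv _ (hK ha), inv_inv]
      exact ha

theorem mem_DD {T : Subgroup G} {w : G} (hw : Dih T w) (K : Subgroup G) (hK : K ≤ T) (x : G) :
    x ∈ DD hw K hK ↔ x ∈ K ∨ w * x ∈ K := Iff.rfl

theorem not_both {T : Subgroup G} {w : G} (hw : Dih T w) (K : Subgroup G) (hK : K ≤ T) (x : G)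
    (h : x ∈ K) (h' : w * x ∈ K) : False := by
  apply hw.not_mem
  have h1 : w = (w * x) * x⁻¹ := by group
  rw [h1]
  exact T.mul_mem (hK h') (T.inv_mem (hK h))

theorem card_DD [Finite G] {T : Subgroup G} {w : G} (hw : Dih T w) (K : Subgroup G) (hK : K ≤ T) :
    Nat.card (DD hw K hK) = 2 * Nat.card K := by
  have h1 : ((DD hw K hK : Subgroup G) : Set G) = (K : Set G) ∪ (fun x => w * x) '' (K : Set G) := by
    ext x
    constructor
    · rintro (h | h)
      · exact Or.inl h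
      · refine Or.inr ⟨w * x, h, ?_⟩
        show w * (w * x) = x
        rw [← mul_assoc, hw.sq, one_mul]
    · rintro (h | ⟨y, h, rfl⟩)
      · exact Or.inl h
      · refine Or.inr ?_
        show w * (w * y) ∈ K
        rw [← mul_assoc, hw.sq, one_mul]
        exact h
  have h2 : Disjoint (K : Set G) ((fun x => w * x) '' (K : Set G)) := by
    rw [Set.disjoint_left]
    rintro x hx ⟨y, hy, rfl⟩
    refine not_both hw K hK (w * y) hx ?_
    rw [← mul_assoc, hw.sq, one_mul]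
    exact hy
  have h3 : Nat.card (DD hw K hK) = ((DD hw K hK : Subgroup G) : Set G).ncard :=
    Nat.card_coe_set_eq _
  have h4 : Nat.card K = (K : Set G).ncard := Nat.card_coe_set_eq _
  rw [h3, h4, h1, Set.ncard_union_eq h2 (Set.toFinite _) (Set.toFinite _),
    Set.ncard_image_of_injective _ (mul_right_injective w), two_mul]

theorem extZ_pow {T : Subgroup G} (ψ : T →* ℂˣ) (t : ℕ) (y : G) (h : y ∈ T) :
    extZ (ψ ^ t) y = ((ψ ⟨y, h⟩ : ℂˣ) : ℂ) ^ t := by
  unfold extZ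
  rw [dif_pos h, MonoidHom.pow_apply, Units.val_pow_eq_pow_val]

theorem extZ_zero {T : Subgroup G} (ψ : T →* ℂˣ) (y : G) (h : y ∉ T) : extZ ψ y = 0 := by
  unfold extZ
  rw [dif_neg h]

/-- the formula for the values on `T` -/
theorem key {T : Subgroup G} (ψ : T →* ℂˣ) (hr : 0 < orderOf ψ) (y : G) :
    ∑ t ∈ (Finset.range (orderOf ψ)).filter (fun t => (orderOf ψ).Coprime t), extZ (ψ ^ t) y =
      ∑ d ∈ (orderOf ψ).divisors, ((ArithmeticFunction.moebius d : ℤ) : ℂ) *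
        (if y ∈ KK ψ d then ((orderOf ψ / d : ℕ) : ℂ) else 0) := by
  by_cases h : y ∈ T
  · have h1 : ((ψ ⟨y, h⟩ : ℂˣ) : ℂ) ^ orderOf ψ = 1 := by
      have h2 := DFunLike.congr_fun (pow_orderOf_eq_one ψ) ⟨y, h⟩
      rw [MonoidHom.pow_apply, MonoidHom.one_apply] at h2
      rw [← Units.val_pow_eq_pow_val, h2, Units.val_one]
    rw [Finset.sum_congr rfl fun t _ => extZ_pow ψ t y h, ram hr _ h1]
    refine Finset.sum_congr rfl fun d _ => ?_
    have h2 : y ∈ KK ψ d ↔ ((ψ ⟨y, h⟩ : ℂˣ) : ℂ) ^ d = 1 := by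
      rw [mem_KK, ← Units.val_pow_eq_pow_val, Units.val_eq_one]
      exact ⟨fun ⟨_, h3⟩ => h3, fun h3 => ⟨h, h3⟩⟩
    simp only [h2]
  · rw [Finset.sum_congr rfl fun t _ => extZ_zero (ψ ^ t) y h, Finset.sum_const_zero]
    symm
    refine Finset.sum_eq_zero fun d _ => ?_
    rw [if_neg, mul_zero]
    intro h1
    obtain ⟨h2, -⟩ := (mem_KK ψ d y).1 h1
    exact h h2

/-- the second parts are zero -/
theorem second [Fintype G] {T : Subgroup G} {w : G} (hw : Dih T w) (φ : T →* ℂˣ) (hφ : φ ^ 2 ≠ 1) (g : G) :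
    ∑ x : G, extZ φ (w * (x⁻¹ * g * x)) = 0 := by
  obtain ⟨⟨s, hs⟩, h1⟩ : ∃ s : T, (φ ^ 2) s ≠ 1 := by
    by_contra hcon
    push Not at hcon
    exact hφ (MonoidHom.ext hcon)
  rw [MonoidHom.pow_apply] at h1
  have h2 : ∀ x : G, extZ φ (w * ((x * s)⁻¹ * g * (x * s))) =
      ((φ ⟨s, hs⟩ : ℂˣ) : ℂ) ^ 2 * extZ φ (w * (x⁻¹ * g * x)) := by
    intro x
    obtain ⟨z, hz⟩ : ∃ z, z = w * (x⁻¹ * g * x) := ⟨_, rfl⟩
    have h3 : w * ((x * s)⁻¹ * g * (x * s)) = s * z * s := by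
      have h4 : w * s⁻¹ * w = s := by rw [hw.inv _ (T.inv_mem hs), inv_inv]
      calc w * ((x * s)⁻¹ * g * (x * s)) = w * s⁻¹ * (1 * (x⁻¹ * g * x)) * s := by group
        _ = w * s⁻¹ * ((w * w) * (x⁻¹ * g * x)) * s := by rw [hw.sq]
        _ = (w * s⁻¹ * w) * (w * (x⁻¹ * g * x)) * s := by group
        _ = s * z * s := by rw [h4, hz]
    rw [h3, ← hz]
    by_cases h5 : z ∈ T
    · have h6 : s * z * s ∈ T := T.mul_mem (T.mul_mem hs h5) hs
      unfold extZ
      rw [dif_pos h6, dif_pos h5]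
      have h7 : (⟨s * z * s, h6⟩ : T) = ⟨s, hs⟩ * ⟨z, h5⟩ * ⟨s, hs⟩ := rfl
      rw [h7, map_mul, map_mul, Units.val_mul, Units.val_mul]
      ring
    · have h6 : s * z * s ∉ T := by
        intro h7
        apply h5
        have h8 : z = s⁻¹ * (s * z * s) * s⁻¹ := by group
        rw [h8]
        exact T.mul_mem (T.mul_mem (T.inv_mem hs) h7) (T.inv_mem hs)
      rw [extZ_zero φ _ h6, extZ_zero φ _ h5, mul_zero]
  have h3 : ∑ x : G, extZ φ (w * (x⁻¹ * g * x)) =
      ((φ ⟨s, hs⟩ : ℂˣ) : ℂ) ^ 2 * ∑ x : G, extZ φ (w * (x⁻¹ * g * x)) := by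
    rw [Finset.mul_sum, ← Finset.sum_congr rfl fun x _ => h2 x]
    exact (Equiv.sum_comp (Equiv.mulRight s) fun x => extZ φ (w * (x⁻¹ * g * x))).symm
  have h4 : (((φ ⟨s, hs⟩ : ℂˣ) : ℂ) ^ 2 - 1) * ∑ x : G, extZ φ (w * (x⁻¹ * g * x)) = 0 := by
    rw [sub_mul, one_mul, ← h3, sub_self]
  refine (mul_eq_zero.1 h4).resolve_left ?_
  intro h5
  apply h1
  apply Units.ext
  rw [Units.val_pow_eq_pow_val, Units.val_one]
  exact sub_eq_zero.1 h5

theorem divisors_fin (r : ℕ) (f : ℕ → ℂ) :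
    ∑ i : Fin (r + 1), (if (i : ℕ) ∈ r.divisors then f i else 0) = ∑ d ∈ r.divisors, f d := by
  rw [Fin.sum_univ_eq_sum_range (fun i => if i ∈ r.divisors then f i else 0) (r + 1),
    ← Finset.sum_filter]
  refine Finset.sum_congr ?_ fun _ _ => rfl
  ext d
  rw [Finset.mem_filter, Finset.mem_range, and_iff_right_iff_imp]
  intro h
  exact Nat.lt_succ_of_le (Nat.divisor_le h)

end QDIx

open QDIx in
/-- QDI: dihedral groups. -/
theorem QDI_thm : Stmt_QDI := by
  intro G _ _ T w ψ hw hr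
  have hr0 : 0 < orderOf ψ := by omega
  have hK : ∀ d, KK ψ d ≤ T := fun d y hy => ((mem_KK ψ d y).1 hy).1
  have hT : (Nat.card T : ℂ) ≠ 0 := by
    exact_mod_cast (Nat.card_pos (α := T)).ne'
  refine ⟨fun g => ∑ i : Fin (orderOf ψ + 1),
    ((if (i : ℕ) ∈ (orderOf ψ).divisors then ArithmeticFunction.moebius (i : ℕ) else 0 : ℤ) : ℂ) *
      indFun (DD hw (KK ψ i) (hK i)) (fun _ => 1) g,
    ⟨orderOf ψ + 1, fun i => DD hw (KK ψ i) (hK i),
      fun i => if (i : ℕ) ∈ (orderOf ψ).divisors then ArithmeticFunction.moebius (i : ℕ) else 0,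
      fun g => rfl⟩, fun g => ?_⟩
  -- the right side
  have hR : (2 : ℂ) * ∑ i : Fin (orderOf ψ + 1),
      ((if (i : ℕ) ∈ (orderOf ψ).divisors then ArithmeticFunction.moebius (i : ℕ) else 0 : ℤ) : ℂ) *
        indFun (DD hw (KK ψ i) (hK i)) (fun _ => 1) g =
      (∑ x : G, ∑ d ∈ (orderOf ψ).divisors, ((ArithmeticFunction.moebius d : ℤ) : ℂ) *
        ((if x⁻¹ * g * x ∈ KK ψ d then ((orderOf ψ / d : ℕ) : ℂ) else 0) +
          (if w * (x⁻¹ * g * x) ∈ KK ψ d then ((orderOf ψ / d : ℕ) : ℂ) else 0))) /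
        (Nat.card T : ℂ) := by
    have h1 : ∀ i : Fin (orderOf ψ + 1),
        ((if (i : ℕ) ∈ (orderOf ψ).divisors then ArithmeticFunction.moebius (i : ℕ) else 0 : ℤ) : ℂ) *
          indFun (DD hw (KK ψ i) (hK i)) (fun _ => 1) g =
        if (i : ℕ) ∈ (orderOf ψ).divisors then
          (fun d : ℕ => ((ArithmeticFunction.moebius d : ℤ) : ℂ) *
            indFun (DD hw (KK ψ d) (hK d)) (fun _ => 1) g) i else 0 := by
      intro i
      split_ifs
      · rfl
      · rw [Int.cast_zero, zero_mul]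
    have h1' := (Finset.sum_congr rfl fun i (_ : i ∈ Finset.univ) => h1 i).trans
      (divisors_fin (orderOf ψ) (fun d : ℕ => ((ArithmeticFunction.moebius d : ℤ) : ℂ) *
        indFun (DD hw (KK ψ d) (hK d)) (fun _ => 1) g))
    rw [h1', Finset.sum_comm, Finset.mul_sum, Finset.sum_div]
    refine Finset.sum_congr rfl fun d hd => ?_
    have hd1 := (Nat.mem_divisors.1 hd).1
    have hd0 : d ≠ 0 := (Nat.pos_of_mem_divisors hd).ne'
    have h2 := card_KK ψ d hd1 hd0
    have h3 : ((orderOf ψ / d : ℕ) : ℂ) * (Nat.card (KK ψ d) : ℂ) = (Nat.card T : ℂ) := by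
      exact_mod_cast h2
    have h4 : ((orderOf ψ / d : ℕ) : ℂ) ≠ 0 := fun h => hT (by rw [← h3, h, zero_mul])
    have h5 : (Nat.card (KK ψ d) : ℂ) ≠ 0 := fun h => hT (by rw [← h3, h, mul_zero])
    have h6 : ∀ x : G, (if x⁻¹ * g * x ∈ DD hw (KK ψ d) (hK d) then (1 : ℂ) else 0) =
        (if x⁻¹ * g * x ∈ KK ψ d then 1 else 0) +
          (if w * (x⁻¹ * g * x) ∈ KK ψ d then 1 else 0) := by
      intro x
      by_cases h7 : x⁻¹ * g * x ∈ KK ψ d
      · have h8 : w * (x⁻¹ * g * x) ∉ KK ψ d := fun h => not_both hw _ (hK d) _ h7 h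
        rw [if_pos h7, if_neg h8, if_pos ((mem_DD hw _ (hK d) _).2 (Or.inl h7)), add_zero]
      · by_cases h8 : w * (x⁻¹ * g * x) ∈ KK ψ d
        · rw [if_neg h7, if_pos h8, if_pos ((mem_DD hw _ (hK d) _).2 (Or.inr h8)), zero_add]
        · rw [if_neg h7, if_neg h8, if_neg, add_zero]
          rintro (h | h)
          · exact h7 h
          · exact h8 h
    have h7 : indFun (DD hw (KK ψ d) (hK d)) (fun _ => 1) g =
        (∑ x : G, ((if x⁻¹ * g * x ∈ KK ψ d then (1 : ℂ) else 0) +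
          (if w * (x⁻¹ * g * x) ∈ KK ψ d then 1 else 0))) / (2 * (Nat.card (KK ψ d) : ℂ)) := by
      unfold indFun
      rw [card_DD, Nat.cast_mul, Nat.cast_two, Finset.sum_congr rfl fun x _ => h6 x]
    have h8 : ∀ x : G, ((ArithmeticFunction.moebius d : ℤ) : ℂ) *
        ((if x⁻¹ * g * x ∈ KK ψ d then ((orderOf ψ / d : ℕ) : ℂ) else 0) +
          (if w * (x⁻¹ * g * x) ∈ KK ψ d then ((orderOf ψ / d : ℕ) : ℂ) else 0)) =
        ((ArithmeticFunction.moebius d : ℤ) : ℂ) * ((orderOf ψ / d : ℕ) : ℂ) *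
          ((if x⁻¹ * g * x ∈ KK ψ d then (1 : ℂ) else 0) +
            (if w * (x⁻¹ * g * x) ∈ KK ψ d then 1 else 0)) := by
      intro x
      split_ifs <;> ring
    rw [Finset.sum_congr rfl fun x _ => h8 x, ← Finset.mul_sum, h7, ← h3]
    field_simp
  show _ = (2 : ℂ) * ∑ i : Fin (orderOf ψ + 1),
      ((if (i : ℕ) ∈ (orderOf ψ).divisors then ArithmeticFunction.moebius (i : ℕ) else 0 : ℤ) : ℂ) *
        indFun (DD hw (KK ψ i) (hK i)) (fun _ => 1) g
  rw [hR]
  have hx : ∀ x : G, ∑ d ∈ (orderOf ψ).divisors, ((ArithmeticFunction.moebius d : ℤ) : ℂ) *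
        ((if x⁻¹ * g * x ∈ KK ψ d then ((orderOf ψ / d : ℕ) : ℂ) else 0) +
          (if w * (x⁻¹ * g * x) ∈ KK ψ d then ((orderOf ψ / d : ℕ) : ℂ) else 0)) =
      ∑ t ∈ (Finset.range (orderOf ψ)).filter (fun t => (orderOf ψ).Coprime t),
        (extZ (ψ ^ t) (x⁻¹ * g * x) + extZ (ψ ^ t) (w * (x⁻¹ * g * x))) := by
    intro x
    rw [Finset.sum_add_distrib, key ψ hr0, key ψ hr0, ← Finset.sum_add_distrib]
    refine Finset.sum_congr rfl fun d _ => ?_
    rw [mul_add]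
  rw [Finset.sum_congr rfl fun x _ => hx x, Finset.sum_comm, Finset.sum_div]
  refine Finset.sum_congr rfl fun t ht => ?_
  have ht1 := (Finset.mem_filter.1 ht).2
  have hφ : (ψ ^ t) ^ 2 ≠ 1 := by
    intro h
    have h1 : orderOf (ψ ^ t) = orderOf ψ := ht1.orderOf_pow
    have h2 := orderOf_dvd_of_pow_eq_one h
    rw [h1] at h2
    have h3 := Nat.le_of_dvd (by norm_num) h2
    omega
  rw [Finset.sum_add_distrib, second hw _ hφ g, add_zero]
  unfold indFun
  congr 1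
  refine Finset.sum_congr rfl fun x _ => ?_
  by_cases h : x⁻¹ * g * x ∈ T
  · rw [if_pos h]
  · rw [if_neg h, extZ_zero _ _ h]

end StarkC.ABS
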