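import Pool.Agent.ABS.StQ

/-!
# Project ABS (MP_46b841_nt), part Q, module QDU (helper31): characters of a cyclic group
-/

set_option autoImplicit false

open scoped Classical

namespace StarkC.ABS

namespace QDUx

variable {T : Type} [Group T]

theorem ext_gen {x : T} (hx : ∀ y : T, y ∈ Subgroup.zpowers x) {M : Type} [Group M]
    {f f' : T →* M} (h : f x = f' x) : f = f' := by
  refine MonoidHom.ext fun y => ?_
  obtain ⟨k, rfl⟩ := Subgroup.mem_zpowers_iff.1 (hx y)
  rw [map_zpow, map_zpow, h]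

theorem sq_one {z : ℂˣ} (h : z ^ 2 = 1) (h1 : z ≠ 1) : z = -1 := by
  have h2 : ((z : ℂˣ) : ℂ) ^ 2 = 1 := by
    rw [← Units.val_pow_eq_pow_val, h, Units.val_one]
  have h4 : ((z : ℂˣ) : ℂ) = 1 ∨ ((z : ℂˣ) : ℂ) = -1 := by
    rw [← sq_eq_sq_iff_eq_or_eq_neg, h2, one_pow]
  rcases h4 with h3 | h3
  · exact absurd (Units.ext h3) h1
  · exact Units.ext (by rw [h3]; simp)

end QDUx

theorem QDU_thm : Stmt_QDU := by
  intro G _ _ T hT
  obtain ⟨x, hx⟩ := hT.exists_generator
  have hn : 0 < Nat.card T := Nat.card_pos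
  have hord : orderOf x = Nat.card T := orderOf_eq_card_of_forall_mem_zpowers hx
  have hz : IsPrimitiveRoot (Complex.exp (2 * Real.pi * Complex.I / (Nat.card T : ℂ)))
      (Nat.card T) := Complex.isPrimitiveRoot_exp _ hn.ne'
  refine ⟨?_, ?_, ?_⟩
  · obtain ⟨z, hzz⟩ : ∃ z : ℂˣ, IsPrimitiveRoot z (Nat.card T) := by
      obtain ⟨u, hu⟩ := hz.isUnit hn.ne'
      refine ⟨u, ?_⟩
      rw [← IsPrimitiveRoot.coe_units_iff, hu]
      exact hz
    have hdv : ∀ j : Fin (Nat.card T), orderOf (z ^ (j : ℕ)) ∣ orderOf x := by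
      intro j
      rw [hord]
      refine orderOf_dvd_of_pow_eq_one ?_
      rw [← pow_mul, mul_comm, pow_mul, hzz.pow_eq_one, one_pow]
    let f : Fin (Nat.card T) → (T →* ℂˣ) := fun j => monoidHomOfForallMemZpowers hx (hdv j)
    have hf : ∀ j, f j x = z ^ (j : ℕ) := fun j => monoidHomOfForallMemZpowers_apply_gen hx (hdv j)
    refine ⟨f, ?_, ?_⟩
    · intro i j hij
      have h1 : z ^ (i : ℕ) = z ^ (j : ℕ) := by
        rw [← hf i, ← hf j, hij]
      exact Fin.ext (hzz.pow_inj i.2 j.2 h1)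
    · intro t
      obtain ⟨m, rfl⟩ := (mem_powers_iff_mem_zpowers.2 (hx t) : t ∈ Submonoid.powers x)
      have h2 : ∀ i : Fin (Nat.card T), ((f i (x ^ m) : ℂˣ) : ℂ) = (((z ^ m : ℂˣ)) : ℂ) ^ (i : ℕ) := by
        intro i
        rw [map_pow, hf i, ← Units.val_pow_eq_pow_val]
        congr 1
        rw [← pow_mul, ← pow_mul, mul_comm]
      simp only [h2]
      rw [Fin.sum_univ_eq_sum_range (fun i => (((z ^ m : ℂˣ)) : ℂ) ^ i)]
      by_cases h3 : x ^ m = 1
      · have h4 : z ^ m = 1 := by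
          rw [hzz.pow_eq_one_iff_dvd, ← hord]
          exact orderOf_dvd_of_pow_eq_one h3
        rw [if_pos h3, h4]
        simp
      · have h4 : (((z ^ m : ℂˣ)) : ℂ) ≠ 1 := by
          intro h5
          apply h3
          have h6 : z ^ m = 1 := Units.ext h5
          rw [hzz.pow_eq_one_iff_dvd, ← hord] at h6
          exact orderOf_dvd_iff_pow_eq_one.1 h6
        rw [if_neg h3, geom_sum_eq h4]
        have h7 : (((z ^ m : ℂˣ)) : ℂ) ^ Nat.card T = 1 := by
          rw [← Units.val_pow_eq_pow_val, ← pow_mul, mul_comm, pow_mul, hzz.pow_eq_one, one_pow,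
            Units.val_one]
        rw [h7, sub_self, zero_div]
  · intro ψ ψ' h1 h2 h3 h4
    have key : ∀ φ : T →* ℂˣ, φ ^ 2 = 1 → φ ≠ 1 → φ x = -1 := by
      intro φ h5 h6
      refine QDUx.sq_one ?_ ?_
      · have := DFunLike.congr_fun h5 x
        exact this
      · intro h7
        exact h6 (QDUx.ext_gen hx (by rw [h7]; rfl))
    exact QDUx.ext_gen hx (by rw [key ψ h1 h2, key ψ' h3 h4])
  · intro hodd ψ h1
    have h2 : ψ ^ Nat.card T = 1 := by
      refine MonoidHom.ext fun t => ?_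
      show (ψ t) ^ Nat.card T = 1
      rw [← map_pow, pow_card_eq_one', map_one]
    have h3 : orderOf ψ ∣ 2 := orderOf_dvd_of_pow_eq_one h1
    have h4 : orderOf ψ ∣ Nat.card T := orderOf_dvd_of_pow_eq_one h2
    have h5 : orderOf ψ ∣ 1 := by
      have h6 : Nat.Coprime 2 (Nat.card T) := (Nat.coprime_two_left).2 hodd
      rw [← h6.gcd_eq_one]
      exact Nat.dvd_gcd h3 h4
    exact orderOf_eq_one_iff.1 (Nat.dvd_one.1 h5)

end StarkC.ABS
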