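import Pool.Agent.ABS.StQ

/-!
# Project ABS, part Q, module QEQ: norm one and multiplicity at least one imply equality
-/

set_option autoImplicit false

open scoped Classical MatrixGroups ComplexConjugate

namespace StarkC.ABS

namespace QEQx

section Char

variable {H V : Type} [Group H] [Fintype H] [AddCommGroup V] [Module ℂ V] [Module.Finite ℂ V]

open scoped Matrix ComplexOrder in
theorem char_inv (ρ : Representation ℂ H V) (g : H) :
    ρ.character g⁻¹ = conj (ρ.character g) := by
  let b := Module.finBasis ℂ V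
  let M : H → Matrix (Fin (Module.finrank ℂ V)) (Fin (Module.finrank ℂ V)) ℂ :=
    fun h => LinearMap.toMatrix b b (ρ h)
  have hM1 : M 1 = 1 := by
    simp only [M, map_one]
    exact LinearMap.toMatrix_one b
  have hMm : ∀ a c, M (a * c) = M a * M c := by
    intro a c
    simp only [M, map_mul]
    exact LinearMap.toMatrix_mul b _ _
  have htr : ∀ h, ρ.character h = (M h).trace := by
    intro h
    change LinearMap.trace ℂ _ (ρ h) = _
    rw [LinearMap.trace_eq_matrix_trace ℂ b]
  obtain ⟨A, hAd⟩ : ∃ A : Matrix (Fin (Module.finrank ℂ V)) (Fin (Module.finrank ℂ V)) ℂ,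
    A = ∑ h, (M h)ᴴ * M h := ⟨_, rfl⟩
  have hA : ∀ a, (M a)ᴴ * A * M a = A := by
    intro a
    rw [hAd, Finset.mul_sum, Finset.sum_mul]
    rw [← Equiv.sum_comp (Equiv.mulRight a) (fun h => (M h)ᴴ * M h)]
    refine Finset.sum_congr rfl fun h _ => ?_
    simp only [Equiv.coe_mulRight]
    rw [hMm, Matrix.conjTranspose_mul]
    simp only [Matrix.mul_assoc]
  have hpd : A.PosDef := by
    rw [hAd, ← Finset.add_sum_erase _ _ (Finset.mem_univ (1 : H)), hM1,
      Matrix.conjTranspose_one, Matrix.one_mul]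
    apply Matrix.PosDef.add_posSemidef Matrix.PosDef.one
    exact Matrix.posSemidef_sum _ fun h _ => Matrix.posSemidef_conjTranspose_mul_self _
  have hdet : IsUnit A.det := (Matrix.isUnit_iff_isUnit_det A).mp hpd.isUnit
  have h1 : (M g)ᴴ * A = A * M g⁻¹ := by
    have h2 : M g * M g⁻¹ = 1 := by rw [← hMm, mul_inv_cancel, hM1]
    calc (M g)ᴴ * A = (M g)ᴴ * A * (M g * M g⁻¹) := by rw [h2, Matrix.mul_one]
      _ = (M g)ᴴ * A * M g * M g⁻¹ := by rw [Matrix.mul_assoc _ (M g)]
      _ = A * M g⁻¹ := by rw [hA]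
  rw [htr, htr, starRingEnd_apply, ← Matrix.trace_conjTranspose]
  calc (M g⁻¹).trace = (M g⁻¹ * (A⁻¹ * A)).trace := by
        rw [Matrix.nonsing_inv_mul A hdet, Matrix.mul_one]
    _ = (A * (M g⁻¹ * A⁻¹)).trace := by
        rw [← Matrix.mul_assoc, Matrix.trace_mul_comm]
    _ = ((M g)ᴴ * A * A⁻¹).trace := by rw [← Matrix.mul_assoc, ← h1]
    _ = ((M g)ᴴ).trace := by
        rw [Matrix.mul_assoc, Matrix.mul_nonsing_inv A hdet, Matrix.mul_one]

theorem sum_self (ρ : Representation ℂ H V) (hρ : ρ.IsIrreducible) :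
    ∑ g, Complex.normSq (ρ.character g) = (Fintype.card H : ℝ) := by
  have hc : (Nat.card H : ℂ) ≠ 0 := Nat.cast_ne_zero.2 Nat.card_pos.ne'
  have : Invertible (Nat.card H : ℂ) := invertibleOfNonzero hc
  have h := Representation.char_orthonormal ρ ρ
  rw [if_pos ⟨Representation.Equiv.refl ρ⟩] at h
  have h1 : ∑ g : H, ρ.character g * ρ.character g⁻¹ = (Nat.card H : ℂ) := by
    rw [inv_mul_eq_iff_eq_mul₀ hc, mul_one] at h
    exact h
  have h2 : ((∑ g, Complex.normSq (ρ.character g) : ℝ) : ℂ) = ((Fintype.card H : ℝ) : ℂ) := by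
    rw [Complex.ofReal_sum, Complex.ofReal_natCast, ← Nat.card_eq_fintype_card, ← h1]
    refine Finset.sum_congr rfl fun g _ => ?_
    rw [char_inv, Complex.mul_conj]
  exact_mod_cast h2

end Char

end QEQx

open QEQx in
theorem QEQ_thm : Stmt_QEQ := by
  intro G V _ _ _ _ _ ρ f n hρ hf hχ hn g
  have h1 : ∑ x, Complex.normSq (ρ.character x) = (Fintype.card G : ℝ) := sum_self ρ hρ
  have h2 : ∑ x, Complex.normSq (f x) = (Fintype.card G : ℝ) := by
    have h3 : ((∑ x, Complex.normSq (f x) : ℝ) : ℂ) = ((Fintype.card G : ℝ) : ℂ) := by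
      rw [Complex.ofReal_sum, Complex.ofReal_natCast, ← hf]
      exact Finset.sum_congr rfl fun x _ => (Complex.mul_conj (f x)).symm
    exact_mod_cast h3
  have h4 : ∑ x, (ρ.character x * conj (f x)).re = (Fintype.card G : ℝ) * (n : ℝ) := by
    have h5 := congrArg Complex.re hχ
    rw [Complex.re_sum] at h5
    rw [h5]
    simp
  have h6 : ∑ x, Complex.normSq (ρ.character x - f x) ≤ 0 := by
    have h7 : ∑ x, Complex.normSq (ρ.character x - f x) =
        ∑ x, Complex.normSq (ρ.character x) + ∑ x, Complex.normSq (f x) -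
          2 * ∑ x, (ρ.character x * conj (f x)).re := by
      rw [Finset.mul_sum, ← Finset.sum_add_distrib, ← Finset.sum_sub_distrib]
      exact Finset.sum_congr rfl fun x _ => Complex.normSq_sub _ _
    have h8 : (1 : ℝ) ≤ n := by exact_mod_cast hn
    have h9 : (0 : ℝ) ≤ Fintype.card G := Nat.cast_nonneg _
    rw [h7, h1, h2, h4]
    nlinarith
  have h10 : Complex.normSq (ρ.character g - f g) ≤ 0 :=
    (Finset.single_le_sum (f := fun x => Complex.normSq (ρ.character x - f x))
      (fun x _ => Complex.normSq_nonneg _) (Finset.mem_univ g)).trans h6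
  have h11 : Complex.normSq (ρ.character g - f g) = 0 :=
    le_antisymm h10 (Complex.normSq_nonneg _)
  exact sub_eq_zero.1 (Complex.normSq_eq_zero.1 h11)

end StarkC.ABS
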