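import Pool.Agent.ABS.StQ

/-!
# Project ABS (MP_46b841_nt), part Q, module QFA: assembly for the abstract data
-/

set_option autoImplicit false

open scoped Classical MatrixGroups ComplexConjugate

namespace StarkC.ABS

namespace QFAx

variable {G : Type} [Group G] [Fintype G] {q d : ℕ}

theorem perm_tau (b : TB G q d) : PermC b.tau := by
  refine ⟨2, ![b.T, b.B], ![1, -1], fun g => ?_⟩
  rw [Fin.sum_univ_two]
  simp only [Matrix.cons_val_zero, Matrix.cons_val_one, TB.tau]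
  push_cast
  ring

theorem perm_neg_tau (b : TB G q d) : PermC fun g => -b.tau g := by
  refine ⟨2, ![b.T, b.B], ![-1, 1], fun g => ?_⟩
  rw [Fin.sum_univ_two]
  simp only [Matrix.cons_val_zero, Matrix.cons_val_one, TB.tau]
  push_cast
  ring

theorem three_le {T : Subgroup G} (ψ : T →* ℂˣ) (h : ψ ^ 2 ≠ 1) : 3 ≤ orderOf ψ := by
  have hpos : 0 < orderOf ψ := by
    refine orderOf_pos_iff.2 ?_
    refine isOfFinOrder_iff_pow_eq_one.2 ⟨Nat.card T, Nat.card_pos, ?_⟩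
    ext t
    rw [MonoidHom.pow_apply, ← map_pow, pow_card_eq_one', map_one, MonoidHom.one_apply]
  have h1 : orderOf ψ ≠ 1 := by
    intro h1
    apply h
    rw [orderOf_eq_one_iff.1 h1, one_pow]
  have h2 : orderOf ψ ≠ 2 := by
    intro h2
    apply h
    rw [← h2]
    exact pow_orderOf_eq_one ψ
  omega

end QFAx

theorem QFA_thm : Stmt_QFA := by
  intro hB hEQ hDU hDH hCA hC1 hC2 hC3 hBB hTR G V _ _ q _ _ _ ρ hρ
  have caseT : ∀ (d : ℕ) (b : TB G q d),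
      (∃ ψ : b.T →* ℂˣ, ψ ^ 2 ≠ 1 ∧ ∀ g, ρ.character g = b.pr ψ g) → OutQ ρ.character := by
    rintro d b ⟨ψ, hψ, hχ⟩
    refine hTR G b.T b.w ψ 1 (fun g => -b.tau g) ρ.character (hDH G q d b).1
      (QFAx.three_le ψ hψ) (Or.inl rfl) (QFAx.perm_neg_tau b) fun g => ?_
    rw [hχ g]
    simp only [TB.pr]
    push_cast
    ring
  have caseN : ∀ (d : ℕ) (b : TB G q d),
      (∃ φ : b.N →* ℂˣ, φ ^ 2 ≠ 1 ∧ ∀ g, ρ.character g = b.ds φ g) → OutQ ρ.character := by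
    rintro d b ⟨φ, hφ, hχ⟩
    refine hTR G b.N b.v φ (-1) b.tau ρ.character (hDH G q d b).2.1
      (QFAx.three_le φ hφ) (Or.inr rfl) (QFAx.perm_tau b) fun g => ?_
    rw [hχ g]
    simp only [TB.ds]
    push_cast
    ring
  refine ⟨?_, ?_⟩
  · rintro ⟨b, hb⟩
    obtain ⟨a₀, s, n, m, hM⟩ := hCA G V q 1 b ρ
    rcases hC1 hB hEQ G V q 1 b ρ a₀ s n m hM hρ with h | h | h | ⟨h1, h2⟩
    · exact Or.inl (caseT 1 b h)
    · exact Or.inl (caseN 1 b h)
    · exact Or.inr h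
    · exact Or.inr (hC3 hB hEQ hDU hDH hBB G V q b ρ a₀ s n m hM hρ hb h1 h2)
  · rintro ⟨b⟩ hperf
    obtain ⟨a₀, s, n, m, hM⟩ := hCA G V q 2 b ρ
    rcases hC1 hB hEQ G V q 2 b ρ a₀ s n m hM hρ with h | h | h | ⟨h1, h2⟩
    · exact Or.inl (caseT 2 b h)
    · exact Or.inl (caseN 2 b h)
    · exact Or.inr (Or.inl h)
    · exact Or.inr (Or.inr (hC2 hB hDU G V q b ρ a₀ s n m hM hρ hperf h1 h2))

end StarkC.ABS
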