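import Pool.Agent.ABS.StQ

/-!
# ABS (MP_46b841_nt), part Q: QIN, multiplicities are natural numbers
-/

set_option autoImplicit false

open scoped Classical MatrixGroups ComplexConjugate

namespace StarkC.ABS

namespace QINx

variable {G V : Type} [Group G] [AddCommGroup V] [Module ℂ V]

/-- The restriction of `ρ` to `H`, twisted by the inverse of `ψ`. -/
noncomputable def tw (ρ : Representation ℂ G V) (H : Subgroup G) (ψ : H →* ℂˣ) :
    Representation ℂ H V where
  toFun h := (((ψ h)⁻¹ : ℂˣ) : ℂ) • ρ (h : G)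
  map_one' := by simp
  map_mul' a b := by
    simp only [map_mul, Subgroup.coe_mul, mul_inv, Units.val_mul]
    rw [smul_mul_smul_comm]

theorem tw_char (ρ : Representation ℂ G V) (H : Subgroup G) (ψ : H →* ℂˣ) (h : H) :
    (tw ρ H ψ).character h = (((ψ h)⁻¹ : ℂˣ) : ℂ) * ρ.character (h : G) := by
  change LinearMap.trace ℂ V ((((ψ h)⁻¹ : ℂˣ) : ℂ) • ρ (h : G)) = _
  rw [map_smul, smul_eq_mul]
  rfl

theorem conj_val [Fintype G] (H : Subgroup G) (ψ : H →* ℂˣ) (h : H) :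
    conj ((ψ h : ℂˣ) : ℂ) = (((ψ h)⁻¹ : ℂˣ) : ℂ) := by
  have h1 : ((ψ h : ℂˣ) : ℂ) ^ (Fintype.card H) = 1 := by
    rw [← Units.val_pow_eq_pow_val, ← map_pow, pow_card_eq_one, map_one, Units.val_one]
  have h2 : ‖((ψ h : ℂˣ) : ℂ)‖ = 1 :=
    Complex.norm_eq_one_of_pow_eq_one h1 Fintype.card_ne_zero
  rw [Units.val_inv_eq_inv_val, Complex.inv_eq_conj h2]

end QINx

theorem QIN_thm : Stmt_QIN := by
  intro hPFR G V _ _ _ _ _ ρ H ψ
  have hcl : ∀ x g : G, ρ.character (x⁻¹ * g * x) = ρ.character g := by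
    intro x g
    have h := ρ.char_conj g x⁻¹
    rw [inv_inv] at h
    exact h
  refine ⟨Module.finrank ℂ (QINx.tw ρ H ψ).invariants, ?_⟩
  rw [hPFR G H ρ.character (extZ ψ) hcl]
  have hc : (Nat.card H : ℂ) ≠ 0 := Nat.cast_ne_zero.2 Nat.card_pos.ne'
  have : Invertible (Nat.card H : ℂ) := invertibleOfNonzero hc
  rw [← Representation.card_inv_mul_sum_char_eq_finrank (QINx.tw ρ H ψ), div_eq_mul_inv, mul_assoc]
  congr 2
  have h1 : ∑ g : G, (if g ∈ H then ρ.character g * conj (extZ ψ g) else 0) =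
      ∑ g ∈ Finset.univ.filter (fun g : G => g ∈ H), ρ.character g * conj (extZ ψ g) :=
    (Finset.sum_filter _ _).symm
  rw [h1]
  have h2 : ∑ g ∈ Finset.univ.filter (fun g : G => g ∈ H), ρ.character g * conj (extZ ψ g) =
      ∑ h : H, ρ.character (h : G) * conj (extZ ψ (h : G)) :=
    Finset.sum_subtype _ (fun g => by simp) (fun g => ρ.character g * conj (extZ ψ g))
  rw [h2]
  refine Finset.sum_congr rfl fun h _ => ?_
  rw [QINx.tw_char, mul_comm]
  congr 1
  have h3 : extZ ψ (h : G) = ((ψ h : ℂˣ) : ℂ) := by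
    unfold extZ
    rw [dif_pos h.2]
  rw [h3, QINx.conj_val]

end StarkC.ABS
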