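import Pool.Agent.ABS.StQ

/-!
# Project ABS, part Q, module QMA (helper85): the data for `PGL_2(k)`
-/

set_option autoImplicit false

open scoped Classical MatrixGroups ComplexConjugate

namespace StarkC.ABS.QMAx

open Matrix Matrix.ProjGenLinGroup

variable {k : Type} [Field k]

/-- an invertible matrix from its entries -/
noncomputable def E (a b c d : k) (h : a * d - b * c ≠ 0) : GL (Fin 2) k :=
  GeneralLinearGroup.mkOfDetNeZero !![a, b; c, d] (by rwa [Matrix.det_fin_two_of])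

theorem E_coe (a b c d : k) (h : a * d - b * c ≠ 0) :
    ((E a b c d h : GL (Fin 2) k) : Matrix (Fin 2) (Fin 2) k) = !![a, b; c, d] := rfl

theorem gl_ext {X Y : GL (Fin 2) k} (h00 : X 0 0 = Y 0 0) (h01 : X 0 1 = Y 0 1)
    (h10 : X 1 0 = Y 1 0) (h11 : X 1 1 = Y 1 1) : X = Y := by
  refine Units.ext (Matrix.ext fun i j => ?_)
  fin_cases i <;> fin_cases j <;> assumption

theorem mul_ent (X Y : GL (Fin 2) k) (i j : Fin 2) :
    (X * Y) i j = X i 0 * Y 0 j + X i 1 * Y 1 j := by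
  show ((X : Matrix (Fin 2) (Fin 2) k) * (Y : Matrix (Fin 2) (Fin 2) k)) i j = _
  rw [Matrix.mul_apply, Fin.sum_univ_two]

theorem scal_ent (X : GL (Fin 2) k) (u : kˣ) (i j : Fin 2) :
    (X * GeneralLinearGroup.scalar (Fin 2) u) i j = X i j * u := by
  rw [mul_ent]
  fin_cases j <;> simp [Matrix.scalar]

theorem det_ne (X : GL (Fin 2) k) : X 0 0 * X 1 1 - X 0 1 * X 1 0 ≠ 0 := by
  have h := (GeneralLinearGroup.det X).ne_zero
  rwa [GeneralLinearGroup.val_det_apply, Matrix.det_fin_two] at h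

theorem mk_eq {X Y : GL (Fin 2) k} : mkP k X = mkP k Y ↔ ∃ u : kˣ, ∀ i j, X i j * u = Y i j := by
  rw [mk_eq_mk_iff]
  refine exists_congr fun u => ⟨fun h i j => ?_, fun h => ?_⟩
  · rw [← scal_ent, h]
  · exact Units.ext (Matrix.ext fun i j => (scal_ent X u i j).trans (h i j))

/-- the unipotent matrices -/
noncomputable def uH : Multiplicative k →* GL (Fin 2) k where
  toFun b := E 1 (Multiplicative.toAdd b) 0 1 (by simp)
  map_one' := by
    refine Units.ext ?_
    rw [E_coe, toAdd_one, ← Matrix.one_fin_two]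
    rfl
  map_mul' a b := by
    refine Units.ext ?_
    rw [Units.val_mul, E_coe, E_coe, E_coe, Matrix.mul_fin_two, toAdd_mul]
    simp [add_comm]

/-- the diagonal matrices -/
noncomputable def dH : kˣ →* GL (Fin 2) k where
  toFun a := E (a : k) 0 0 1 (by simp)
  map_one' := by
    refine Units.ext ?_
    rw [E_coe, Units.val_one, ← Matrix.one_fin_two]
    rfl
  map_mul' a b := by
    refine Units.ext ?_
    show !![((a * b : kˣ) : k), 0; 0, 1] = !![(a : k), 0; 0, 1] * !![(b : k), 0; 0, 1]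
    rw [Matrix.mul_fin_two, Units.val_mul]
    simp

theorem uH_coe (b : Multiplicative k) :
    ((uH b : GL (Fin 2) k) : Matrix (Fin 2) (Fin 2) k) = !![1, Multiplicative.toAdd b; 0, 1] := rfl

theorem dH_coe (a : kˣ) :
    ((dH a : GL (Fin 2) k) : Matrix (Fin 2) (Fin 2) k) = !![(a : k), 0; 0, 1] := rfl

/-- the upper triangular matrices -/
def BG (k : Type) [Field k] : Subgroup (GL (Fin 2) k) where
  carrier := {X | X 1 0 = 0}
  one_mem' := by
    show (1 : Matrix (Fin 2) (Fin 2) k) 1 0 = 0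
    simp
  mul_mem' := by
    intro X Y hX hY
    have hX' : X 1 0 = 0 := hX
    have hY' : Y 1 0 = 0 := hY
    show (X * Y) 1 0 = 0
    rw [mul_ent, hX', hY']
    ring
  inv_mem' := by
    intro X hX
    have hX' : X 1 0 = 0 := hX
    have h1 := mul_ent X X⁻¹ 1 0
    rw [mul_inv_cancel, hX'] at h1
    have h0 : (1 : GL (Fin 2) k) 1 0 = 0 := by
      show (1 : Matrix (Fin 2) (Fin 2) k) 1 0 = 0
      simp
    rw [h0, zero_mul, zero_add] at h1
    have h2 := det_ne X
    rw [hX', mul_zero, sub_zero] at h2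
    exact (mul_eq_zero.1 h1.symm).resolve_left (right_ne_zero_of_mul h2)

/-- the image of the upper triangular matrices -/
def BB (k : Type) [Field k] : Subgroup PGL(2, k) := (BG k).map (mkP k)

theorem mem_BB {X : GL (Fin 2) k} : mkP k X ∈ BB k ↔ X 1 0 = 0 := by
  constructor
  · rintro ⟨Y, hY, h⟩
    obtain ⟨u, hu⟩ := mk_eq.1 h
    have hY' : Y 1 0 = 0 := hY
    rw [← hu 1 0, hY', zero_mul]
  · intro h
    exact ⟨X, h, rfl⟩

/-- the image of the unipotent matrices -/
noncomputable def UU (k : Type) [Field k] : Subgroup PGL(2, k) := ((mkP k).comp uH).range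

/-- the image of the diagonal matrices -/
noncomputable def TT (k : Type) [Field k] : Subgroup PGL(2, k) := ((mkP k).comp dH).range

theorem inj_u : Function.Injective ((mkP k).comp (uH (k := k))) := by
  intro a b h
  obtain ⟨u, hu⟩ := mk_eq.1 h
  have h1 := hu 1 1
  have h2 := hu 0 1
  rw [uH_coe, uH_coe] at h1 h2
  simp only [Matrix.of_apply, Matrix.cons_val', Matrix.cons_val_zero, Matrix.cons_val_one,
    Matrix.cons_val_fin_one] at h1 h2
  rw [one_mul] at h1
  rw [h1, mul_one] at h2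
  exact h2

theorem inj_d : Function.Injective ((mkP k).comp (dH (k := k))) := by
  intro a b h
  obtain ⟨u, hu⟩ := mk_eq.1 h
  have h1 := hu 1 1
  have h2 := hu 0 0
  rw [dH_coe, dH_coe] at h1 h2
  simp only [Matrix.of_apply, Matrix.cons_val', Matrix.cons_val_zero, Matrix.cons_val_one,
    Matrix.cons_val_fin_one] at h1 h2
  rw [one_mul] at h1
  rw [h1, mul_one] at h2
  exact Units.ext h2

/-- the involution -/
noncomputable def W : GL (Fin 2) k := E 0 (-1) 1 0 (by simp)

theorem W_coe : ((W : GL (Fin 2) k) : Matrix (Fin 2) (Fin 2) k) = !![0, -1; 1, 0] := rfl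

theorem u00 (b : Multiplicative k) : uH b 0 0 = 1 := rfl
theorem u01 (b : Multiplicative k) : uH b 0 1 = Multiplicative.toAdd b := rfl
theorem u10 (b : Multiplicative k) : uH b 1 0 = 0 := rfl
theorem u11 (b : Multiplicative k) : uH b 1 1 = 1 := rfl
theorem d00 (a : kˣ) : dH a 0 0 = a := rfl
theorem d01 (a : kˣ) : dH a 0 1 = 0 := rfl
theorem d10 (a : kˣ) : dH a 1 0 = 0 := rfl
theorem d11 (a : kˣ) : dH a 1 1 = 1 := rfl
theorem W00 : (W : GL (Fin 2) k) 0 0 = 0 := rfl
theorem W01 : (W : GL (Fin 2) k) 0 1 = -1 := rfl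
theorem W10 : (W : GL (Fin 2) k) 1 0 = 1 := rfl
theorem W11 : (W : GL (Fin 2) k) 1 1 = 0 := rfl

/-- moving a unipotent matrix across a diagonal one -/
theorem u_d (a : kˣ) (b : Multiplicative k) :
    uH b * dH a = dH a * uH (Multiplicative.ofAdd ((a : k)⁻¹ * Multiplicative.toAdd b)) := by
  refine gl_ext ?_ ?_ ?_ ?_ <;> simp only [mul_ent, u00, u01, u10, u11, d00, d01, d10, d11,
    toAdd_ofAdd]
  · ring
  · have := a.ne_zero
    field_simp
    ring
  · ring
  · ring

theorem mem_UU {g : PGL(2, k)} : g ∈ UU k ↔ ∃ b, mkP k (uH b) = g := Iff.rfl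

theorem mem_TT {g : PGL(2, k)} : g ∈ TT k ↔ ∃ a, mkP k (dH a) = g := Iff.rfl

theorem conj_u (a : kˣ) (b : Multiplicative k) :
    (mkP k (dH a))⁻¹ * mkP k (uH b) * mkP k (dH a) =
      mkP k (uH (Multiplicative.ofAdd ((a : k)⁻¹ * Multiplicative.toAdd b))) := by
  rw [mul_assoc, ← map_mul, u_d, map_mul, inv_mul_cancel_left]

theorem mem_B (g : PGL(2, k)) : g ∈ BB k ↔ ∃ u ∈ UU k, ∃ t ∈ TT k, g = u * t := by
  constructor
  · intro hg
    obtain ⟨X, rfl⟩ := mk_surjective g
    have h10 : X 1 0 = 0 := mem_BB.1 hg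
    have hd := det_ne X
    rw [h10, mul_zero, sub_zero] at hd
    have h00 := left_ne_zero_of_mul hd
    have h11 := right_ne_zero_of_mul hd
    refine ⟨_, ⟨Multiplicative.ofAdd (X 0 1 / X 1 1), rfl⟩, _,
      ⟨Units.mk0 (X 0 0 / X 1 1) (div_ne_zero h00 h11), rfl⟩, ?_⟩
    show mkP k X = mkP k (uH _) * mkP k (dH _)
    rw [← map_mul]
    symm
    refine mk_eq.2 ⟨Units.mk0 (X 1 1) h11, ?_⟩
    intro i j
    fin_cases i <;> fin_cases j
    · show (uH _ * dH _ : GL (Fin 2) k) 0 0 * X 1 1 = X 0 0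
      rw [mul_ent, u00, u01, d00, d10, Units.val_mk0]
      field_simp
      ring
    · show (uH _ * dH _ : GL (Fin 2) k) 0 1 * X 1 1 = X 0 1
      rw [mul_ent, u00, u01, d01, d11, toAdd_ofAdd]
      field_simp
      ring
    · show (uH _ * dH _ : GL (Fin 2) k) 1 0 * X 1 1 = X 1 0
      rw [mul_ent, u10, u11, d00, d10, h10]
      ring
    · show (uH _ * dH _ : GL (Fin 2) k) 1 1 * X 1 1 = X 1 1
      rw [mul_ent, u10, u11, d01, d11]
      ring
  · rintro ⟨_, ⟨b, rfl⟩, _, ⟨a, rfl⟩, rfl⟩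
    show mkP k (uH b) * mkP k (dH a) ∈ BB k
    rw [← map_mul, mem_BB, mul_ent, u10, u11, d10]
    ring

/-- equations for a conjugate which is upper triangular -/
theorem conj_eq {X Z : GL (Fin 2) k} (h : (mkP k X)⁻¹ * mkP k Z * mkP k X ∈ BB k) :
    ∃ c : k, X 0 0 * c = Z 0 0 * X 0 0 + Z 0 1 * X 1 0 ∧
      X 1 0 * c = Z 1 0 * X 0 0 + Z 1 1 * X 1 0 := by
  rw [← map_inv, ← map_mul, ← map_mul, mem_BB] at h
  have e : X * (X⁻¹ * Z * X) = Z * X := by
    group
  have e0 := congrArg (fun Y : GL (Fin 2) k => Y 0 0) e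
  have e1 := congrArg (fun Y : GL (Fin 2) k => Y 1 0) e
  simp only [mul_ent X, mul_ent Z, h] at e0 e1
  refine ⟨(X⁻¹ * Z * X) 0 0, ?_, ?_⟩
  · linear_combination e0
  · linear_combination e1

theorem fus_U : ∀ u ∈ UU k, u ≠ 1 → ∀ x, x⁻¹ * u * x ∈ BB k → x ∈ BB k := by
  rintro _ ⟨b, rfl⟩ hb x hx
  obtain ⟨X, rfl⟩ := mk_surjective x
  have hb' : Multiplicative.toAdd b ≠ 0 := by
    intro h0
    refine hb ?_
    have : b = 1 := h0
    rw [this, map_one]
  obtain ⟨c, h0, h1⟩ := conj_eq (X := X) (Z := uH b) hx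
  rw [u00, u01] at h0
  rw [u10, u11] at h1
  show mkP k X ∈ BB k
  rw [mem_BB]
  by_contra hne
  have hc : c = 1 := by
    have : X 1 0 * (c - 1) = 0 := by linear_combination h1
    exact sub_eq_zero.1 ((mul_eq_zero.1 this).resolve_left hne)
  rw [hc] at h0
  have : Multiplicative.toAdd b * X 1 0 = 0 := by linear_combination -h0
  exact (mul_eq_zero.1 this).elim hb' hne

theorem fus_T : ∀ t ∈ TT k, t ≠ 1 → ∀ x, x⁻¹ * t * x ∈ BB k →
    x ∈ BB k ∨ mkP k W * x ∈ BB k := by
  rintro _ ⟨a, rfl⟩ ha x hx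
  obtain ⟨X, rfl⟩ := mk_surjective x
  have ha' : (a : k) ≠ 1 := by
    intro h0
    refine ha ?_
    have : a = 1 := Units.ext h0
    rw [this, map_one]
  obtain ⟨c, h0, h1⟩ := conj_eq (X := X) (Z := dH a) hx
  rw [d00, d01] at h0
  rw [d10, d11] at h1
  show mkP k X ∈ BB k ∨ mkP k W * mkP k X ∈ BB k
  rw [← map_mul, mem_BB, mem_BB, mul_ent, W10, W11]
  by_cases hne : X 1 0 = 0
  · exact Or.inl hne
  · right
    have hc : c = 1 := by
      have : X 1 0 * (c - 1) = 0 := by linear_combination h1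
      exact sub_eq_zero.1 ((mul_eq_zero.1 this).resolve_left hne)
    rw [hc] at h0
    have : X 0 0 * (1 - a) = 0 := by linear_combination h0
    rcases mul_eq_zero.1 this with h | h
    · rw [h]
      ring
    · exact absurd (sub_eq_zero.1 h).symm ha'

theorem free : ∀ t ∈ TT k, ∀ u ∈ UU k, t ≠ 1 → t⁻¹ * u * t = u → u = 1 := by
  rintro _ ⟨a, rfl⟩ _ ⟨b, rfl⟩ ha h
  have h' : mkP k (uH (Multiplicative.ofAdd ((a : k)⁻¹ * Multiplicative.toAdd b))) =
      mkP k (uH b) := (conj_u a b).symm.trans h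
  have h1 := inj_u h'
  have h2 : (a : k)⁻¹ * Multiplicative.toAdd b = Multiplicative.toAdd b := h1
  have ha' : (a : k) ≠ 1 := by
    intro h0
    refine ha ?_
    have : a = 1 := Units.ext h0
    rw [this, map_one]
  have h3 : Multiplicative.toAdd b = 0 := by
    have h4 : (1 - (a : k)) * Multiplicative.toAdd b = 0 := by
      have h5 : (a : k) * ((a : k)⁻¹ * Multiplicative.toAdd b) = a * Multiplicative.toAdd b := by
        rw [h2]
      rw [mul_inv_cancel_left₀ a.ne_zero] at h5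
      linear_combination h5
    rcases mul_eq_zero.1 h4 with h | h
    · exact absurd (sub_eq_zero.1 h).symm ha'
    · exact h
  have h4 : b = 1 := h3
  rw [h4, map_one]

theorem W_sq : mkP k W * mkP k W = 1 := by
  rw [← map_mul, ← map_one (mkP k)]
  refine mk_eq.2 ⟨-1, ?_⟩
  intro i j
  rw [mul_ent]
  fin_cases i <;> fin_cases j
  · show ((W : GL (Fin 2) k) 0 0 * W 0 0 + W 0 1 * W 1 0) * ((-1 : kˣ) : k) = 1
    rw [W00, W01, W10]
    simp
  · show ((W : GL (Fin 2) k) 0 0 * W 0 1 + W 0 1 * W 1 1) * ((-1 : kˣ) : k) = 0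
    rw [W00, W01, W11]
    simp
  · show ((W : GL (Fin 2) k) 1 0 * W 0 0 + W 1 1 * W 1 0) * ((-1 : kˣ) : k) = 0
    rw [W00, W11, W10]
    simp
  · show ((W : GL (Fin 2) k) 1 0 * W 0 1 + W 1 1 * W 1 1) * ((-1 : kˣ) : k) = 1
    rw [W11, W01, W10]
    simp

theorem W_T : ∀ t ∈ TT k, mkP k W * t * mkP k W = t⁻¹ := by
  rintro _ ⟨a, rfl⟩
  show mkP k W * mkP k (dH a) * mkP k W = (mkP k (dH a))⁻¹
  rw [eq_inv_iff_mul_eq_one, ← map_mul, ← map_mul, ← map_mul, ← map_one (mkP k)]
  refine mk_eq.2 ⟨-a⁻¹, ?_⟩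
  have ha := a.ne_zero
  have e : ((-a⁻¹ : kˣ) : k) = -(a : k)⁻¹ := by simp
  intro i j
  simp only [mul_ent, e]
  fin_cases i <;> fin_cases j
  · show _ = (1 : k)
    simp only [Fin.zero_eta, W00, W01, W10, W11, d00, d01, d10, d11]
    field_simp
    ring
  · show _ = (0 : k)
    simp only [Fin.zero_eta, Fin.mk_one, W00, W01, W10, W11, d00, d01, d10, d11]
    ring
  · show _ = (0 : k)
    simp only [Fin.zero_eta, Fin.mk_one, W00, W01, W10, W11, d00, d01, d10, d11]
    ring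
  · show _ = (1 : k)
    simp only [Fin.mk_one, W00, W01, W10, W11, d00, d01, d10, d11]
    field_simp
    ring

theorem W_B : mkP k W ∉ BB k := by
  rw [mem_BB, W10]
  exact one_ne_zero

/-! ### The image of `SL_2` -/

theorem mem_P {X : GL (Fin 2) k} :
    mkP k X ∈ (Matrix.SpecialLinearGroup.toPGL (n := Fin 2) (R := k)).range ↔
      IsSquare (X.1.det) := by
  constructor
  · rintro ⟨S, hS⟩
    obtain ⟨u, hu⟩ := mk_eq_mk_iff.1 hS
    have h1 := congrArg (fun Y : GL (Fin 2) k => Y.1.det) hu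
    refine ⟨(u : k), ?_⟩
    show X.1.det = u * u
    rw [← h1]
    show ((SpecialLinearGroup.toGL S : GL (Fin 2) k).1 * (Matrix.scalar (Fin 2) (u : k))).det = _
    rw [Matrix.det_mul]
    have h2 : (SpecialLinearGroup.toGL S : GL (Fin 2) k).1.det = 1 := S.2
    rw [h2, one_mul]
    simp [Matrix.scalar, Matrix.det_diagonal, sq]
  · rintro ⟨r, hr⟩
    have hX : X.1.det ≠ 0 := (GeneralLinearGroup.det X).ne_zero
    have hr0 : r ≠ 0 := by
      rintro rfl
      exact hX (by rw [hr, zero_mul])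
    have hdet : (r⁻¹ • X.1).det = 1 := by
      rw [Matrix.det_smul, hr, Fintype.card_fin]
      field_simp
    refine ⟨⟨r⁻¹ • X.1, hdet⟩, ?_⟩
    refine mk_eq.2 ⟨Units.mk0 r hr0, fun i j => ?_⟩
    show (r⁻¹ • X.1) i j * r = X.1 i j
    rw [Matrix.smul_apply, smul_eq_mul]
    field_simp

theorem char_ne [Fintype k] (hq : Odd (Fintype.card k)) : ringChar k ≠ 2 := by
  intro h
  have h1 := FiniteField.even_card_of_char_two h
  exact (Nat.not_even_iff_odd.2 hq) (Nat.even_iff.2 h1)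

theorem index_P [Fintype k] (hq : Odd (Fintype.card k)) :
    (Matrix.SpecialLinearGroup.toPGL (n := Fin 2) (R := k)).range.index = 2 := by
  rw [Subgroup.index_eq_two_iff]
  obtain ⟨r, hr⟩ := FiniteField.exists_nonsquare (char_ne hq)
  have hr0 : r ≠ 0 := by
    rintro rfl
    exact hr (IsSquare.zero)
  refine ⟨mkP k (dH (Units.mk0 r hr0)), fun b => ?_⟩
  obtain ⟨X, rfl⟩ := mk_surjective b
  show Xor (mkP k X * mkP k (dH (Units.mk0 r hr0)) ∈ _) (mkP k X ∈ _)
  rw [← map_mul, mem_P, mem_P]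
  have hX : X.1.det ≠ 0 := (GeneralLinearGroup.det X).ne_zero
  have e : (X * dH (Units.mk0 r hr0)).1.det = X.1.det * r := by
    rw [Units.val_mul, Matrix.det_mul, dH_coe, Matrix.det_fin_two_of]
    simp
  rw [e, ← quadraticChar_one_iff_isSquare (mul_ne_zero hX hr0),
    ← quadraticChar_one_iff_isSquare hX, map_mul,
    quadraticChar_neg_one_iff_not_isSquare.2 hr]
  rcases quadraticChar_dichotomy hX with h | h
  · rw [h]
    exact Or.inr ⟨rfl, by norm_num⟩
  · rw [h]
    exact Or.inl ⟨by norm_num, by norm_num⟩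

theorem card_UU [Fintype k] : Nat.card (UU k) = Fintype.card k := by
  have h1 : Nat.card (UU k) = Nat.card (Multiplicative k) :=
    (Nat.card_congr (MonoidHom.ofInjective (inj_u (k := k))).toEquiv).symm
  rw [h1, ← Nat.card_eq_fintype_card]
  rfl

theorem card_TT [Fintype k] : ((1 : ℕ) : ℤ) * (Nat.card (TT k) : ℤ) = (Fintype.card k : ℤ) - 1 := by
  have h1 : Nat.card (TT k) = Nat.card kˣ :=
    (Nat.card_congr (MonoidHom.ofInjective (inj_d (k := k))).toEquiv).symm
  have h2 : Nat.card kˣ = Fintype.card k - 1 := by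
    rw [Nat.card_units, Nat.card_eq_fintype_card]
  have h3 : 0 < Fintype.card k := Fintype.card_pos
  rw [h1, h2, Nat.cast_sub h3]
  push_cast
  ring

theorem cyc_TT [Fintype k] : IsCyclic (TT k) :=
  isCyclic_of_surjective ((mkP k).comp dH).rangeRestrict
    ((mkP k).comp dH).rangeRestrict_surjective

theorem comm_UU : ∀ a ∈ UU k, ∀ b ∈ UU k, a * b = b * a := by
  rintro _ ⟨a, rfl⟩ _ ⟨b, rfl⟩
  rw [← map_mul, ← map_mul, mul_comm]

theorem TT_UU : ∀ t ∈ TT k, ∀ u ∈ UU k, t⁻¹ * u * t ∈ UU k := by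
  rintro _ ⟨a, rfl⟩ _ ⟨b, rfl⟩
  exact ⟨_, (conj_u a b).symm⟩

end StarkC.ABS.QMAx

namespace StarkC.ABS

open QMAx Matrix Matrix.ProjGenLinGroup

theorem QMA_thm : Stmt_QMA := by
  intro hC k _ _ _ N v hN
  let b : TB PGL(2, k) (Fintype.card k) 1 :=
    { U := UU k
      T := TT k
      N := N
      B := BB k
      w := mkP k W
      v := v
      card := by
        rw [Nat.cast_one, one_mul, ← Nat.card_eq_fintype_card]
        exact hC k
      card_U := card_UU
      card_T := card_TT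
      card_N := by
        rw [hN.card]
        push_cast
        ring
      mem_B := mem_B
      U_comm := comm_UU
      T_cyc := cyc_TT
      N_cyc := hN.cyc
      T_U := TT_UU
      free := free
      w_sq := W_sq
      w_T := W_T
      w_B := W_B
      v_sq := hN.v_sq
      v_N := hN.v_N
      v_not := hN.v_not
      fus_U := fus_U
      fus_T := fus_T
      fus_N := hN.fus
      N_B := by
        intro y hy hy1 x hx
        obtain ⟨X, hX, he⟩ := hx
        exact hN.N_B' y hy hy1 x X he hX }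
  refine ⟨b, fun hq => ?_⟩
  refine ⟨index_P hq, ?_, ?_, hN.v_SL, ?_, hN.not_SL hq⟩
  · rintro _ ⟨c, rfl⟩
    show mkP k (uH c) ∈ _
    rw [mem_P, uH_coe, Matrix.det_fin_two_of]
    simp
  · show mkP k W ∈ _
    rw [mem_P, W_coe, Matrix.det_fin_two_of]
    simp
  · intro hle
    obtain ⟨r, hr⟩ := FiniteField.exists_nonsquare (char_ne hq)
    have hr0 : r ≠ 0 := by
      rintro rfl
      exact hr (IsSquare.zero)
    have h1 : mkP k (dH (Units.mk0 r hr0)) ∈
        (Matrix.SpecialLinearGroup.toPGL (n := Fin 2) (R := k)).range := hle ⟨_, rfl⟩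
    rw [mem_P, dH_coe, Matrix.det_fin_two_of] at h1
    refine hr ?_
    simpa using h1

end StarkC.ABS
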