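import Pool.Agent.ABS.StQ
import Mathlib.LinearAlgebra.Matrix.GeneralLinearGroup.Card

/-!
# ABS, part Q: the order of `PGL_2(k)`
-/

set_option autoImplicit false

open scoped Classical MatrixGroups

namespace StarkC.ABS

namespace QMCx

theorem scalar_inj (k : Type) [Field k] :
    Function.Injective (Matrix.GeneralLinearGroup.scalar (Fin 2) : kˣ →* GL (Fin 2) k) := by
  intro u v h
  have h1 := congrArg (fun M : GL (Fin 2) k => (M : Matrix (Fin 2) (Fin 2) k) 0 0) h
  apply Units.ext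
  simpa using h1

theorem card_center (k : Type) [Field k] [Fintype k] :
    Nat.card (Subgroup.center (GL (Fin 2) k)) = Fintype.card k - 1 := by
  rw [Matrix.GeneralLinearGroup.center_eq_range_scalar]
  rw [← Nat.card_congr (MonoidHom.ofInjective (scalar_inj k)).toEquiv]
  rw [Nat.card_eq_fintype_card, Fintype.card_units]

end QMCx

open QMCx in
theorem QMC_thm : Stmt_QMC := by
  intro k _ _
  have h1 := Subgroup.card_eq_card_quotient_mul_card_subgroup (Subgroup.center (GL (Fin 2) k))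
  have h2 : Nat.card (GL (Fin 2) k) =
      ∏ i : Fin 2, (Fintype.card k ^ 2 - Fintype.card k ^ (i : ℕ)) := Matrix.card_GL_field 2
  rw [card_center, h2, Fin.prod_univ_two] at h1
  have hq : 1 < Fintype.card k := Fintype.one_lt_card
  have h3 : (Nat.card PGL(2, k)) = Nat.card (GL (Fin 2) k ⧸ Subgroup.center (GL (Fin 2) k)) := rfl
  rw [← h3] at h1
  generalize Nat.card PGL(2, k) = P at h1 ⊢
  generalize Fintype.card k = q at h1 hq ⊢
  have e1 : ((q ^ 2 - q ^ ((0 : Fin 2) : ℕ) : ℕ) : ℤ) = (q : ℤ) ^ 2 - 1 := by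
    rw [Nat.cast_sub (Nat.pow_le_pow_right (by omega) (by simp))]
    push_cast
    simp
  have e2 : ((q ^ 2 - q ^ ((1 : Fin 2) : ℕ) : ℕ) : ℤ) = (q : ℤ) ^ 2 - q := by
    rw [Nat.cast_sub (Nat.pow_le_pow_right (by omega) (by simp))]
    push_cast
    simp
  have e3 : ((q - 1 : ℕ) : ℤ) = (q : ℤ) - 1 := by
    rw [Nat.cast_sub hq.le]
    simp
  have h4 : ((q : ℤ) ^ 2 - 1) * ((q : ℤ) ^ 2 - q) = P * ((q : ℤ) - 1) := by
    rw [← e1, ← e2, ← e3]
    exact_mod_cast h1
  have h5 : (q : ℤ) - 1 ≠ 0 := by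
    have : (1 : ℤ) < q := by exact_mod_cast hq
    omega
  refine mul_right_cancel₀ h5 ?_
  rw [← h4]
  ring

end StarkC.ABS
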