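import Pool.Agent.ABS.StQ

/-!
# ABS_QMJ (MP_46b841_nt, part Q): an irreducible `X² - s X + n` and its norm form
-/

set_option autoImplicit false

open scoped Classical

namespace StarkC.ABS

theorem QMJ_thm : Stmt_QMJ := by
  intro k _ _
  have hns : ¬ Function.Surjective (fun p : k × k => ((p.1 + p.2, p.1 * p.2) : k × k)) := by
    rw [← Finite.injective_iff_surjective]
    intro h
    have := @h (0, 1) (1, 0) (by simp)
    simp at this
  simp only [Function.Surjective, not_forall, not_exists] at hns
  obtain ⟨⟨s, n⟩, h⟩ := hns
  have hroot : ∀ x : k, x ^ 2 - s * x + n ≠ 0 := by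
    intro x hx
    apply h (x, s - x)
    simp only [Prod.mk.injEq]
    exact ⟨by ring, by linear_combination - hx⟩
  refine ⟨s, n, hroot, ?_, ?_⟩
  · intro c _
    by_cases h2 : ringChar k = 2
    · obtain ⟨y, hy⟩ := FiniteField.isSquare_of_char_two h2 c
      exact ⟨y, 0, by rw [hy]; ring⟩
    · have hodd : Fintype.card k % 2 = 1 := FiniteField.odd_card_of_char_ne_two h2
      have htwo : (2 : k) ≠ 0 := Ring.two_ne_zero h2
      have hd : n - s ^ 2 / 4 ≠ 0 := by
        intro h0
        apply hroot (s / 2)
        have h4 : (4 : k) ≠ 0 := by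
          have : (4 : k) = 2 * 2 := by norm_num
          rw [this]; exact mul_ne_zero htwo htwo
        field_simp at h0 ⊢
        linear_combination h0
      obtain ⟨a, b, hab⟩ := FiniteField.exists_root_sum_quadratic (R := k)
        (f := Polynomial.C 1 * Polynomial.X ^ 2 + Polynomial.C 0 * Polynomial.X + Polynomial.C 0)
        (g := Polynomial.C (n - s ^ 2 / 4) * Polynomial.X ^ 2 + Polynomial.C 0 * Polynomial.X
          + Polynomial.C (-c))
        (Polynomial.degree_quadratic one_ne_zero) (Polynomial.degree_quadratic hd) hodd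
      refine ⟨a - b * s / 2, b, ?_⟩
      simp only [Polynomial.eval_add, Polynomial.eval_mul, Polynomial.eval_C, Polynomial.eval_pow,
        Polynomial.eval_X] at hab
      have h4 : (4 : k) ≠ 0 := by
        have : (4 : k) = 2 * 2 := by norm_num
        rw [this]; exact mul_ne_zero htwo htwo
      field_simp at hab ⊢
      linear_combination hab
  · intro h2 hs
    obtain ⟨y, hy⟩ := FiniteField.isSquare_of_char_two h2 n
    apply hroot y
    have : CharP k 2 := by rw [← h2]; exact ringChar.charP k
    have h20 : (2 : k) = 0 := CharTwo.two_eq_zero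
    rw [hs, hy]
    linear_combination y ^ 2 * h20

end StarkC.ABS
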