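import Pool.Agent.ABS.StQ

/-!
# Project ABS, part Q, module QMN (helper34): the nonsplit torus of `PGL_2(k)`
-/

set_option autoImplicit false

open scoped Classical MatrixGroups ComplexConjugate

namespace StarkC.ABS.QMNx

open Matrix Matrix.ProjGenLinGroup

variable {k : Type} [Field k]

/-- an invertible matrix from its entries -/
noncomputable def E (a b c d : k) (h : a * d - b * c ≠ 0) : GL (Fin 2) k :=
  GeneralLinearGroup.mkOfDetNeZero !![a, b; c, d] (by rwa [Matrix.det_fin_two_of])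

theorem E_coe (a b c d : k) (h : a * d - b * c ≠ 0) :
    ((E a b c d h : GL (Fin 2) k) : Matrix (Fin 2) (Fin 2) k) = !![a, b; c, d] := rfl

theorem gl_ext {X Y : GL (Fin 2) k} (h00 : X 0 0 = Y 0 0) (h01 : X 0 1 = Y 0 1)
    (h10 : X 1 0 = Y 1 0) (h11 : X 1 1 = Y 1 1) : X = Y := by
  refine Units.ext (Matrix.ext fun i j => ?_)
  fin_cases i <;> fin_cases j <;> assumption

theorem mul_ent (X Y : GL (Fin 2) k) (i j : Fin 2) :
    (X * Y) i j = X i 0 * Y 0 j + X i 1 * Y 1 j := by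
  show ((X : Matrix (Fin 2) (Fin 2) k) * (Y : Matrix (Fin 2) (Fin 2) k)) i j = _
  rw [Matrix.mul_apply, Fin.sum_univ_two]

theorem scal_ent (X : GL (Fin 2) k) (u : kˣ) (i j : Fin 2) :
    (X * GeneralLinearGroup.scalar (Fin 2) u) i j = X i j * u := by
  rw [mul_ent]
  fin_cases j <;> simp [Matrix.scalar]

theorem det_ne (X : GL (Fin 2) k) : X 0 0 * X 1 1 - X 0 1 * X 1 0 ≠ 0 := by
  have h := (GeneralLinearGroup.det X).ne_zero
  rwa [GeneralLinearGroup.val_det_apply, Matrix.det_fin_two] at h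

theorem mk_eq {X Y : GL (Fin 2) k} : mkP k X = mkP k Y ↔ ∃ u : kˣ, ∀ i j, X i j * u = Y i j := by
  rw [mk_eq_mk_iff]
  refine exists_congr fun u => ⟨fun h i j => ?_, fun h => ?_⟩
  · rw [← scal_ent, h]
  · exact Units.ext (Matrix.ext fun i j => (scal_ent X u i j).trans (h i j))

theorem one_ent (i j : Fin 2) : (1 : GL (Fin 2) k) i j = if i = j then 1 else 0 := by
  show (1 : Matrix (Fin 2) (Fin 2) k) i j = _
  rw [Matrix.one_apply]

theorem mk_one' {X : GL (Fin 2) k} : mkP k X = 1 ↔ X 0 1 = 0 ∧ X 1 0 = 0 ∧ X 0 0 = X 1 1 := by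
  rw [← map_one (mkP k), eq_comm, mk_eq]
  constructor
  · rintro ⟨u, hu⟩
    refine ⟨?_, ?_, ?_⟩
    · rw [← hu, one_ent]; simp
    · rw [← hu, one_ent]; simp
    · rw [← hu, ← hu, one_ent, one_ent]; simp
  · rintro ⟨h1, h2, h3⟩
    have h4 : X 0 0 ≠ 0 := by
      intro h0
      apply det_ne X
      rw [h0, h1]; ring
    refine ⟨Units.mk0 (X 0 0) h4, fun i j => ?_⟩
    rw [one_ent]
    fin_cases i <;> fin_cases j
    · simp
    · simp [h1]
    · simp [h2]
    · simp [h3]

/-- the centralizer of `J = (0 -n; 1 s)` -/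
def Cs (s n : k) : Subgroup (GL (Fin 2) k) where
  carrier := {X | X 0 1 = -(n * X 1 0) ∧ X 1 1 = X 0 0 + s * X 1 0}
  mul_mem' := by
    rintro X Y ⟨h1, h2⟩ ⟨h3, h4⟩
    constructor
    · rw [mul_ent, mul_ent, h1, h2, h3, h4]; ring
    · rw [mul_ent, mul_ent, mul_ent, h1, h2, h3, h4]; ring
  one_mem' := by
    constructor
    · rw [one_ent, one_ent]; simp
    · rw [one_ent, one_ent, one_ent]; simp
  inv_mem' := by
    rintro X ⟨h1, h2⟩
    have hd := det_ne X
    have e : ∀ i j, X i 0 * X⁻¹ 0 j + X i 1 * X⁻¹ 1 j = if i = j then 1 else 0 := by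
      intro i j
      rw [← mul_ent, mul_inv_cancel, one_ent]
    have e00 := e 0 0
    have e01 := e 0 1
    have e10 := e 1 0
    have e11 := e 1 1
    rw [if_pos rfl] at e00 e11
    rw [if_neg (by decide)] at e01 e10
    rw [h1, h2] at hd
    rw [h1] at e00 e01
    rw [h2] at e10 e11
    constructor
    · refine mul_left_cancel₀ hd ?_
      linear_combination (X 0 0 + s * X 1 0) * e01 + n * X 1 0 * e11 - n * X 1 0 * e00
        + n * X 0 0 * e10
    · refine mul_left_cancel₀ hd ?_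
      linear_combination (- X 1 0) * e01 + X 0 0 * e11 - (X 0 0 + s * X 1 0) * e00
        - n * X 1 0 * e10 + s * X 1 0 * e00 - s * X 0 0 * e10

theorem mem_Cs {s n : k} {X : GL (Fin 2) k} :
    X ∈ Cs s n ↔ X 0 1 = -(n * X 1 0) ∧ X 1 1 = X 0 0 + s * X 1 0 := Iff.rfl

theorem scal_mem {s n : k} {X Y : GL (Fin 2) k} (h : mkP k X = mkP k Y) (hX : X ∈ Cs s n) :
    Y ∈ Cs s n := by
  obtain ⟨u, hu⟩ := mk_eq.1 h
  rw [mem_Cs] at hX ⊢
  rw [← hu, ← hu, ← hu, ← hu, hX.1, hX.2]
  constructor <;> ring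

theorem mem_N {s n : k} {X : GL (Fin 2) k} : mkP k X ∈ (Cs s n).map (mkP k) ↔ X ∈ Cs s n := by
  constructor
  · rintro ⟨Y, hY, h⟩
    exact scal_mem h hY
  · intro h
    exact ⟨X, h, rfl⟩

theorem hD {s n : k} (hroot : ∀ x : k, x ^ 2 - s * x + n ≠ 0) (a b : k)
    (h : a ^ 2 + a * b * s + b ^ 2 * n = 0) : a = 0 ∧ b = 0 := by
  by_cases hb : b = 0
  · subst hb
    refine ⟨?_, rfl⟩
    have h1 : a ^ 2 = 0 := by linear_combination h
    exact pow_eq_zero_iff (two_ne_zero) |>.1 h1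
  · exfalso
    apply hroot (-a / b)
    field_simp
    linear_combination h

/-- the element `a + b J` -/
noncomputable def Cm (s n : k) (hroot : ∀ x : k, x ^ 2 - s * x + n ≠ 0) (a b : k)
    (h : (a, b) ≠ (0, 0)) : GL (Fin 2) k :=
  E a (-(n * b)) b (a + s * b) (by
    intro h0
    apply h
    obtain ⟨h1, h2⟩ := hD hroot a b (by linear_combination h0)
    rw [h1, h2])

theorem Cm_mem (s n : k) (hroot : ∀ x : k, x ^ 2 - s * x + n ≠ 0) (a b : k)
    (h : (a, b) ≠ (0, 0)) : Cm s n hroot a b h ∈ Cs s n := ⟨rfl, rfl⟩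

/-- the parametrisation of the centralizer -/
noncomputable def Ceq (s n : k) (hroot : ∀ x : k, x ^ 2 - s * x + n ≠ 0) :
    Cs s n ≃ {p : k × k // p ≠ (0, 0)} where
  toFun X := ⟨((X : GL (Fin 2) k) 0 0, (X : GL (Fin 2) k) 1 0), by
    intro h
    have h1 := congrArg Prod.fst h
    have h2 := congrArg Prod.snd h
    apply det_ne (X : GL (Fin 2) k)
    simp only at h1 h2
    rw [h1, h2]; ring⟩
  invFun p := ⟨Cm s n hroot p.1.1 p.1.2 p.2, Cm_mem s n hroot _ _ p.2⟩
  left_inv X := by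
    apply Subtype.ext
    obtain ⟨h1, h2⟩ := mem_Cs.1 X.2
    exact gl_ext rfl h1.symm rfl h2.symm
  right_inv p := by
    apply Subtype.ext
    rfl

theorem card_C [Fintype k] (s n : k) (hroot : ∀ x : k, x ^ 2 - s * x + n ≠ 0) :
    Nat.card (Cs s n) + 1 = Fintype.card k * Fintype.card k := by
  rw [Nat.card_congr (Ceq s n hroot), Nat.card_eq_fintype_card]
  have h1 : Fintype.card {p : k × k // p ≠ (0, 0)} = Fintype.card (k × k) - 1 := by
    rw [Fintype.card_subtype_compl, Fintype.card_subtype_eq]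
  have h2 : 0 < Fintype.card (k × k) := Fintype.card_pos
  rw [h1, ← Fintype.card_prod]
  omega

theorem cyc_C [Fintype k] (s n : k) (hroot : ∀ x : k, x ^ 2 - s * x + n ≠ 0) :
    IsCyclic (Cs s n) := by
  obtain ⟨α, hα⟩ : ∃ α : AlgebraicClosure k,
      α ^ 2 - algebraMap k (AlgebraicClosure k) s * α + algebraMap k (AlgebraicClosure k) n = 0 := by
    obtain ⟨α, hα⟩ := IsAlgClosed.exists_root
      (Polynomial.C (1 : AlgebraicClosure k) * Polynomial.X ^ 2
        + Polynomial.C (-algebraMap k (AlgebraicClosure k) s) * Polynomial.X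
        + Polynomial.C (algebraMap k (AlgebraicClosure k) n))
      (by rw [Polynomial.degree_quadratic one_ne_zero]; decide)
    refine ⟨α, ?_⟩
    rw [Polynomial.IsRoot.def] at hα
    simp only [Polynomial.eval_add, Polynomial.eval_mul, Polynomial.eval_C, Polynomial.eval_pow,
      Polynomial.eval_X] at hα
    linear_combination hα
  have hz : ∀ x y : k, algebraMap k (AlgebraicClosure k) x + algebraMap k _ y * α = 0 →
      x = 0 ∧ y = 0 := by
    intro x y h
    apply hD hroot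
    apply FaithfulSMul.algebraMap_injective k (AlgebraicClosure k)
    simp only [map_add, map_mul, map_pow, map_zero]
    linear_combination (algebraMap k (AlgebraicClosure k) x + algebraMap k _ y *
      (algebraMap k _ s - α)) * h + (algebraMap k (AlgebraicClosure k) y) ^ 2 * hα
  let f : Cs s n →* AlgebraicClosure k :=
    { toFun := fun X => algebraMap k _ ((X : GL (Fin 2) k) 0 0) +
        algebraMap k _ ((X : GL (Fin 2) k) 1 0) * α
      map_one' := by
        have h1 : (((1 : Cs s n) : GL (Fin 2) k) 0 0) = 1 := by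
          rw [Subgroup.coe_one, one_ent]; simp
        have h2 : (((1 : Cs s n) : GL (Fin 2) k) 1 0) = 0 := by
          rw [Subgroup.coe_one, one_ent]; simp
        rw [h1, h2, map_one, map_zero]
        ring
      map_mul' := by
        intro X Y
        obtain ⟨h1, h2⟩ := mem_Cs.1 X.2
        rw [Subgroup.coe_mul, mul_ent, mul_ent, h1, h2]
        simp only [map_add, map_mul, map_neg]
        linear_combination (- algebraMap k (AlgebraicClosure k) ((X : GL (Fin 2) k) 1 0) *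
          algebraMap k (AlgebraicClosure k) ((Y : GL (Fin 2) k) 1 0)) * hα }
  refine isCyclic_of_injective_ringHom f ?_
  intro X Y h
  have h1 : algebraMap k (AlgebraicClosure k) ((X : GL (Fin 2) k) 0 0) +
        algebraMap k _ ((X : GL (Fin 2) k) 1 0) * α =
      algebraMap k (AlgebraicClosure k) ((Y : GL (Fin 2) k) 0 0) +
        algebraMap k _ ((Y : GL (Fin 2) k) 1 0) * α := h
  obtain ⟨h2, h3⟩ := hz ((X : GL (Fin 2) k) 0 0 - (Y : GL (Fin 2) k) 0 0)
    ((X : GL (Fin 2) k) 1 0 - (Y : GL (Fin 2) k) 1 0) (by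
      rw [map_sub, map_sub]
      linear_combination h1)
  have h4 := sub_eq_zero.1 h2
  have h5 := sub_eq_zero.1 h3
  apply Subtype.ext
  obtain ⟨h6, h7⟩ := mem_Cs.1 X.2
  obtain ⟨h8, h9⟩ := mem_Cs.1 Y.2
  exact gl_ext h4 (by rw [h6, h8, h5]) h5 (by rw [h7, h9, h4, h5])

theorem card_ker [Fintype k] (s n : k) :
    Nat.card ((mkP k).comp (Cs s n).subtype).ker + 1 = Fintype.card k := by
  have hmem : ∀ u : kˣ, (GeneralLinearGroup.scalar (Fin 2) u : GL (Fin 2) k) ∈ Cs s n := by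
    intro u
    have h1 : ∀ i j, (GeneralLinearGroup.scalar (Fin 2) u : GL (Fin 2) k) i j =
        (1 : GL (Fin 2) k) i j * u := by
      intro i j
      rw [← scal_ent, one_mul]
    rw [mem_Cs, h1, h1, h1, h1]
    simp only [one_ent]
    simp
  let f : kˣ → ((mkP k).comp (Cs s n).subtype).ker := fun u =>
    ⟨⟨GeneralLinearGroup.scalar (Fin 2) u, hmem u⟩, by
      rw [MonoidHom.mem_ker]
      exact mk_scalar u⟩
  have hf : Function.Bijective f := by
    constructor
    · intro u v h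
      have h1 : (GeneralLinearGroup.scalar (Fin 2) u : GL (Fin 2) k) =
          GeneralLinearGroup.scalar (Fin 2) v :=
        congrArg (fun z : ((mkP k).comp (Cs s n).subtype).ker => ((z : Cs s n) : GL (Fin 2) k)) h
      have h2 := congrArg (fun M : GL (Fin 2) k => (M : Matrix (Fin 2) (Fin 2) k) 0 0) h1
      apply Units.ext
      simpa using h2
    · rintro ⟨X, hX⟩
      rw [MonoidHom.mem_ker] at hX
      have h1 : mkP k (1 : GL (Fin 2) k) = mkP k (X : GL (Fin 2) k) := by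
        rw [map_one]
        exact hX.symm
      obtain ⟨u, hu⟩ := mk_eq_mk_iff.1 h1
      refine ⟨u, ?_⟩
      apply Subtype.ext
      apply Subtype.ext
      rw [← hu, one_mul]
  rw [← Nat.card_congr (Equiv.ofBijective f hf), Nat.card_eq_fintype_card, Fintype.card_units]
  have : 0 < Fintype.card k := Fintype.card_pos
  omega

theorem card_N [Fintype k] (s n : k) (hroot : ∀ x : k, x ^ 2 - s * x + n ≠ 0) :
    Nat.card ((Cs s n).map (mkP k)) = Fintype.card k + 1 := by
  have h1 := card_C s n hroot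
  have h2 := card_ker s n
  have h3 := Subgroup.card_mul_index ((mkP k).comp (Cs s n).subtype).ker
  rw [Subgroup.index_ker, MonoidHom.range_comp, Subgroup.range_subtype] at h3
  have hq : 1 < Fintype.card k := Fintype.one_lt_card
  generalize Fintype.card k = q at *
  generalize Nat.card ((Cs s n).map (mkP k)) = x at *
  generalize Nat.card (Cs s n) = y at *
  generalize Nat.card ((mkP k).comp (Cs s n).subtype).ker = z at *
  have hz : 0 < z := by omega
  subst h2
  refine Nat.eq_of_mul_eq_mul_left hz ?_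
  rw [h3]
  nlinarith

theorem tr0 {X : GL (Fin 2) k} (h : X 1 1 = - X 0 0) : mkP k X * mkP k X = 1 := by
  rw [← map_mul, mk_one', mul_ent, mul_ent, mul_ent, mul_ent, h]
  refine ⟨by ring, by ring, by ring⟩

theorem conj_cases {s n : k} (hroot : ∀ x : k, x ^ 2 - s * x + n ≠ 0) (a b a' b' : k)
    (ht : 2 * a' + s * b' = 2 * a + s * b)
    (hd : a' ^ 2 + a' * b' * s + b' ^ 2 * n = a ^ 2 + a * b * s + b ^ 2 * n) :
    (a' = a ∧ b' = b) ∨ (a' = a + s * b ∧ b' = -b) := by
  have key : ((a' - a) ^ 2 + (a' - a) * (b' - b) * s + (b' - b) ^ 2 * n) *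
      ((a' - a - s * b) ^ 2 + (a' - a - s * b) * (b' + b) * s + (b' + b) ^ 2 * n) =
      (a' ^ 2 - n * b' ^ 2 - (2 * a + s * b) * a' + (a ^ 2 + a * b * s + b ^ 2 * n)) ^ 2 +
      (a' ^ 2 - n * b' ^ 2 - (2 * a + s * b) * a' + (a ^ 2 + a * b * s + b ^ 2 * n)) *
        (2 * a' * b' + s * b' ^ 2 - (2 * a + s * b) * b') * s +
      (2 * a' * b' + s * b' ^ 2 - (2 * a + s * b) * b') ^ 2 * n := by ring
  have h1 : a' ^ 2 - n * b' ^ 2 - (2 * a + s * b) * a' + (a ^ 2 + a * b * s + b ^ 2 * n) = 0 := by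
    linear_combination a' * ht - hd
  have h2 : 2 * a' * b' + s * b' ^ 2 - (2 * a + s * b) * b' = 0 := by
    linear_combination b' * ht
  rw [h1, h2] at key
  have key2 : ((a' - a) ^ 2 + (a' - a) * (b' - b) * s + (b' - b) ^ 2 * n) *
      ((a' - a - s * b) ^ 2 + (a' - a - s * b) * (b' + b) * s + (b' + b) ^ 2 * n) = 0 := by
    rw [key]; ring
  rcases mul_eq_zero.1 key2 with h | h
  · obtain ⟨h3, h4⟩ := hD hroot _ _ h
    exact Or.inl ⟨sub_eq_zero.1 h3, sub_eq_zero.1 h4⟩
  · obtain ⟨h3, h4⟩ := hD hroot _ _ h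
    refine Or.inr ⟨by linear_combination h3, by linear_combination h4⟩

theorem trace_conj (X Y : GL (Fin 2) k) :
    (X⁻¹ * Y * X) 0 0 + (X⁻¹ * Y * X) 1 1 = Y 0 0 + Y 1 1 := by
  have h1 : Matrix.trace ((X⁻¹ * Y * X : GL (Fin 2) k) : Matrix (Fin 2) (Fin 2) k) =
      Matrix.trace (Y : Matrix (Fin 2) (Fin 2) k) := by
    rw [Units.val_mul, Matrix.trace_mul_comm, ← Units.val_mul, ← mul_assoc, mul_inv_cancel,
      one_mul]
  rwa [Matrix.trace_fin_two, Matrix.trace_fin_two] at h1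

theorem det_conj (X Y : GL (Fin 2) k) :
    (X⁻¹ * Y * X) 0 0 * (X⁻¹ * Y * X) 1 1 - (X⁻¹ * Y * X) 0 1 * (X⁻¹ * Y * X) 1 0 =
      Y 0 0 * Y 1 1 - Y 0 1 * Y 1 0 := by
  have h1 : GeneralLinearGroup.det (X⁻¹ * Y * X) = GeneralLinearGroup.det Y := by
    rw [map_mul, map_mul, map_inv, mul_comm, ← mul_assoc, mul_inv_cancel, one_mul]
  have h2 := congrArg (fun u : kˣ => (u : k)) h1
  simp only [GeneralLinearGroup.val_det_apply] at h2
  rwa [Matrix.det_fin_two, Matrix.det_fin_two] at h2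

theorem b_ne {s n : k} {Y : GL (Fin 2) k} (hY : Y ∈ Cs s n) (h : mkP k Y ≠ 1) : Y 1 0 ≠ 0 := by
  intro h10
  apply h
  rw [mem_Cs] at hY
  rw [mk_one']
  exact ⟨by rw [hY.1, h10]; ring, h10, by rw [hY.2, h10]; ring⟩

end StarkC.ABS.QMNx

namespace StarkC.ABS

open Matrix Matrix.ProjGenLinGroup in
open QMNx in
theorem QMN_thm : Stmt_QMN := by
  intro hJ k _ _
  obtain ⟨s, n, hroot, hnorm, hs2⟩ := hJ k
  obtain ⟨a₀, b₀, h0⟩ := hnorm (-1) (neg_ne_zero.2 one_ne_zero)
  have hV : (a₀ + s * b₀) * (-(a₀ + s * b₀)) - (s * a₀ + s ^ 2 * b₀ - n * b₀) * (-b₀) = 1 := by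
    linear_combination -h0
  obtain ⟨V, hVe⟩ : ∃ V : GL (Fin 2) k, V = E (a₀ + s * b₀) (s * a₀ + s ^ 2 * b₀ - n * b₀) (-b₀)
    (-(a₀ + s * b₀)) (by rw [hV]; exact one_ne_zero) := ⟨_, rfl⟩
  have v00 : V 0 0 = a₀ + s * b₀ := by rw [hVe]; rfl
  have v01 : V 0 1 = s * a₀ + s ^ 2 * b₀ - n * b₀ := by rw [hVe]; rfl
  have v10 : V 1 0 = -b₀ := by rw [hVe]; rfl
  have v11 : V 1 1 = -(a₀ + s * b₀) := by rw [hVe]; rfl
  have hVY : ∀ Y ∈ Cs s n, (V * Y) 1 1 = - (V * Y) 0 0 := by
    intro Y hY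
    rw [mem_Cs] at hY
    rw [mul_ent, mul_ent, v00, v01, v10, v11, hY.1, hY.2]
    ring
  have hvy : ∀ Y ∈ Cs s n, (mkP k V * mkP k Y) * (mkP k V * mkP k Y) = 1 := by
    intro Y hY
    have h1 := tr0 (hVY Y hY)
    rwa [map_mul] at h1
  have hvv : mkP k V * mkP k V = 1 := by
    have h1 := hvy 1 (Subgroup.one_mem _)
    rwa [map_one, mul_one] at h1
  refine ⟨(Cs s n).map (mkP k), mkP k V, card_N s n hroot, ?_, hvv, ?_, ?_, ?_, ?_, ?_, ?_, ?_⟩
  · have hc := cyc_C s n hroot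
    exact isCyclic_of_surjective ((mkP k).subgroupMap (Cs s n))
      ((mkP k).subgroupMap_surjective (Cs s n))
  · rintro y ⟨Y, hY, rfl⟩
    have h1 := hvy Y hY
    rw [eq_inv_iff_mul_eq_one, ← h1]
    simp only [mul_assoc]
  · intro hmem
    rw [mem_N, mem_Cs, v00, v01, v10, v11] at hmem
    obtain ⟨e1, e2⟩ := hmem
    have h2 : (2 : k) = 0 := by
      linear_combination 2 * h0 + a₀ * e2 + b₀ * (e1 + s * e2)
    have hs : s = 0 := by
      linear_combination s * h0 - a₀ * e1 + n * b₀ * e2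
    have h3 : ringChar k ∣ 2 := ringChar.dvd (by exact_mod_cast h2)
    rcases (Nat.dvd_prime Nat.prime_two).1 h3 with h4 | h4
    · exact CharP.ringChar_ne_one h4
    · exact hs2 h4 hs
  · rintro y ⟨Y, hY, rfl⟩ hy1 x hx
    obtain ⟨X, rfl⟩ := mk_surjective x
    have hb := b_ne hY hy1
    have hZ : X⁻¹ * Y * X ∈ Cs s n := by
      rw [← mem_N, map_mul, map_mul, map_inv]
      exact hx
    have hT := trace_conj X Y
    have hDt := det_conj X Y
    have hXZ : X * (X⁻¹ * Y * X) = Y * X := by group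
    generalize X⁻¹ * Y * X = Z at hZ hT hDt hXZ
    have hY' := mem_Cs.1 hY
    have hZ' := mem_Cs.1 hZ
    rw [hZ'.1, hZ'.2, hY'.1, hY'.2] at hDt
    rw [hZ'.2, hY'.2] at hT
    have e00 : (X * Z) 0 0 = (Y * X) 0 0 := by rw [hXZ]
    have e10 : (X * Z) 1 0 = (Y * X) 1 0 := by rw [hXZ]
    rw [mul_ent, mul_ent] at e00 e10
    rw [hY'.1] at e00
    rw [hY'.2] at e10
    rcases conj_cases hroot (Y 0 0) (Y 1 0) (Z 0 0) (Z 1 0) (by linear_combination hT)
      (by linear_combination hDt) with ⟨h1, h2⟩ | ⟨h1, h2⟩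
    · left
      change mkP k X ∈ _
      rw [mem_N, mem_Cs]
      rw [h1, h2] at e00 e10
      constructor
      · refine mul_left_cancel₀ hb ?_
        linear_combination e00
      · refine mul_left_cancel₀ hb ?_
        linear_combination e10
    · right
      change mkP k V * mkP k X ∈ _
      rw [← map_mul, mem_N, mem_Cs]
      rw [h1, h2] at e00 e10
      have x01 : X 0 1 = s * X 0 0 + n * X 1 0 := by
        refine mul_left_cancel₀ hb ?_
        linear_combination (-1) * e00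
      have x11 : X 1 1 = - X 0 0 := by
        refine mul_left_cancel₀ hb ?_
        linear_combination (-1) * e10
      rw [mul_ent, mul_ent, mul_ent, mul_ent, v00, v01, v10, v11, x01, x11]
      constructor <;> ring
  · intro X hX hX1
    exact b_ne (mem_N.1 hX) hX1
  · rintro y ⟨Y, hY, rfl⟩ hy1 x X hX h10
    obtain ⟨Z, rfl⟩ := mk_surjective x
    have hb := b_ne hY hy1
    have h1 : mkP k (Z * X) = mkP k (Y * Z) := by
      rw [map_mul, hX, map_mul]
      change mkP k Z * ((mkP k Z)⁻¹ * mkP k Y * mkP k Z) = _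
      group
    obtain ⟨u, hu⟩ := mk_eq.1 h1
    have e0 := hu 0 0
    have e1 := hu 1 0
    have hY' := mem_Cs.1 hY
    rw [mul_ent, mul_ent, h10, hY'.1] at e0
    rw [mul_ent, mul_ent, h10, hY'.2] at e1
    by_cases hr : Z 1 0 = 0
    · rw [hr] at e1
      have h2 : Y 1 0 * Z 0 0 = 0 := by linear_combination (-1) * e1
      rcases mul_eq_zero.1 h2 with h3 | h3
      · exact hb h3
      · apply det_ne Z
        rw [hr, h3]; ring
    · have h2 : (X 0 0 * u - Y 0 0) ^ 2 - s * Y 1 0 * (X 0 0 * u - Y 0 0) + n * Y 1 0 ^ 2 = 0 := by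
        refine (mul_eq_zero.1 (?_ : Z 1 0 * _ = 0)).resolve_left hr
        linear_combination (X 0 0 * u - Y 0 0) * e1 + Y 1 0 * e0
      apply hroot ((X 0 0 * u - Y 0 0) / Y 1 0)
      field_simp
      linear_combination h2
  · refine ⟨⟨!![a₀ + s * b₀, s * a₀ + s ^ 2 * b₀ - n * b₀; -b₀, -(a₀ + s * b₀)], by
      rw [Matrix.det_fin_two_of]; exact hV⟩, ?_⟩
    change mkP k _ = mkP k V
    rw [hVe]
    refine congrArg (mkP k) (Units.ext ?_)
    rfl
  · intro hodd hle
    have h2 : ringChar k ≠ 2 := by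
      intro h
      have h1 := FiniteField.even_card_iff_char_two.1 h
      rw [Nat.odd_iff] at hodd
      omega
    obtain ⟨d, hd⟩ := FiniteField.exists_nonsquare h2
    have hd0 : d ≠ 0 := by
      rintro rfl
      exact hd (IsSquare.zero)
    obtain ⟨a, b, hab⟩ := hnorm d hd0
    have hne : (a, b) ≠ (0, 0) := by
      intro h
      have h3 := congrArg Prod.fst h
      have h4 := congrArg Prod.snd h
      simp only at h3 h4
      apply hd0
      rw [← hab, h3, h4]; ring
    obtain ⟨g, hg⟩ := hle (mem_N.2 (Cm_mem s n hroot a b hne))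
    obtain ⟨u, hu⟩ := mk_eq.1 (show mkP k (Matrix.SpecialLinearGroup.toGL g) =
      mkP k (Cm s n hroot a b hne) from hg)
    have hg1 : (g : Matrix (Fin 2) (Fin 2) k) 0 0 * (g : Matrix (Fin 2) (Fin 2) k) 1 1 -
        (g : Matrix (Fin 2) (Fin 2) k) 0 1 * (g : Matrix (Fin 2) (Fin 2) k) 1 0 = 1 := by
      rw [← Matrix.det_fin_two]
      exact g.2
    have u00 : (g : Matrix (Fin 2) (Fin 2) k) 0 0 * u = a := hu 0 0
    have u01 : (g : Matrix (Fin 2) (Fin 2) k) 0 1 * u = -(n * b) := hu 0 1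
    have u10 : (g : Matrix (Fin 2) (Fin 2) k) 1 0 * u = b := hu 1 0
    have u11 : (g : Matrix (Fin 2) (Fin 2) k) 1 1 * u = a + s * b := hu 1 1
    apply hd
    refine ⟨u, ?_⟩
    have h3 : a * (a + s * b) - -(n * b) * b = (u : k) * u := by
      rw [← u11, ← u01]
      nth_rewrite 1 [← u00]
      rw [← u10]
      linear_combination ((u : k) * u) * hg1
    linear_combination h3 - hab

end StarkC.ABS
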