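import Pool.Agent.ABS.StQ

/-!
# Project ABS, part Q, module QNT (helper10): norms of the principal and discrete series
-/

set_option autoImplicit false

open scoped Classical MatrixGroups ComplexConjugate

namespace StarkC.ABS

namespace QNTx

variable {G : Type} [Group G] [Fintype G]

theorem indFun_class (H : Subgroup G) (f : G → ℂ) (x g : G) :
    indFun H f (x⁻¹ * g * x) = indFun H f g := by
  unfold indFun
  congr 1
  refine Fintype.sum_equiv (Equiv.mulLeft x) _ _ fun y => ?_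
  have h : y⁻¹ * (x⁻¹ * g * x) * y = (x * y)⁻¹ * g * (x * y) := by group
  rw [h, Equiv.coe_mulLeft]

theorem indFun_congr (H : Subgroup G) (f f' : G → ℂ) (h : ∀ g ∈ H, f g = f' g) (g : G) :
    indFun H f g = indFun H f' g := by
  unfold indFun
  congr 1
  refine Finset.sum_congr rfl fun x _ => ?_
  by_cases hx : x⁻¹ * g * x ∈ H
  · rw [if_pos hx, if_pos hx, h _ hx]
  · rw [if_neg hx, if_neg hx]

theorem extZ_mem {H : Subgroup G} (ψ : H →* ℂˣ) (g : G) (hg : g ∈ H) :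
    extZ ψ g = ((ψ ⟨g, hg⟩ : ℂˣ) : ℂ) := by
  unfold extZ
  rw [dif_pos hg]

theorem extZ_one {H : Subgroup G} (g : G) (hg : g ∈ H) : extZ (1 : H →* ℂˣ) g = 1 := by
  rw [extZ_mem _ g hg]
  rfl

theorem extZ_at_one {H : Subgroup G} (ψ : H →* ℂˣ) : extZ ψ 1 = 1 := by
  rw [extZ_mem ψ 1 H.one_mem]
  have h : (⟨1, H.one_mem⟩ : H) = 1 := rfl
  rw [h, map_one, Units.val_one]

theorem conj_ext {H : Subgroup G} (ψ : H →* ℂˣ) (g : G) (hg : g ∈ H) :
    conj (extZ ψ g) = (extZ ψ g)⁻¹ := by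
  rw [extZ_mem ψ g hg]
  symm
  apply Complex.inv_eq_conj
  have h1 : ((ψ ⟨g, hg⟩ : ℂˣ) : ℂ) ^ Nat.card H = 1 := by
    rw [← Units.val_pow_eq_pow_val, ← map_pow, pow_card_eq_one', map_one, Units.val_one]
  exact Complex.norm_eq_one_of_pow_eq_one h1 (Nat.card_pos.ne')

theorem sum_const (H : Subgroup G) (c : ℂ) :
    ∑ g : G, (if g ∈ H then c else 0) = (Nat.card H : ℂ) * c := by
  rw [← Finset.sum_filter, Finset.sum_const, nsmul_eq_mul, Nat.card_eq_fintype_card,
    Fintype.card_subtype]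

theorem sum_sub (H : Subgroup G) (F : G → ℂ) :
    ∑ g : G, (if g ∈ H then F g else 0) = ∑ h : H, F h := by
  rw [← Finset.sum_filter]
  exact Finset.sum_subtype (Finset.univ.filter fun g => g ∈ H) (fun x => by simp) F

theorem sum_char {H : Subgroup G} (ψ : H →* ℂˣ) :
    ∑ g : G, (if g ∈ H then (extZ ψ g)⁻¹ * (extZ ψ g)⁻¹ else 0) =
      if ψ ^ 2 = 1 then (Nat.card H : ℂ) else 0 := by
  have h1 := sum_sub H fun g => (extZ ψ g)⁻¹ * (extZ ψ g)⁻¹
  rw [h1]
  have h2 : ∀ h : H, (extZ ψ (h : G))⁻¹ * (extZ ψ (h : G))⁻¹ =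
      ((Units.coeHom ℂ).comp (ψ ^ 2)⁻¹) h := by
    intro h
    rw [extZ_mem ψ h h.2]
    simp [pow_two, MonoidHom.mul_apply]
  rw [Finset.sum_congr rfl fun h _ => h2 h, sum_hom_units]
  have h3 : (Units.coeHom ℂ).comp (ψ ^ 2)⁻¹ = 1 ↔ ψ ^ 2 = 1 := by
    constructor
    · intro h
      ext x
      have h4 : ((((ψ ^ 2) x)⁻¹ : ℂˣ) : ℂ) = 1 := DFunLike.congr_fun h x
      rw [Units.val_inv_eq_inv_val, inv_eq_one] at h4
      exact h4
    · intro h
      ext x
      have h4 : (ψ ^ 2) x = 1 := by rw [h]; rfl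
      show ((((ψ ^ 2) x)⁻¹ : ℂˣ) : ℂ) = 1
      rw [h4, inv_one, Units.val_one]
  by_cases h : ψ ^ 2 = 1
  · rw [if_pos h, if_pos (h3.2 h), Nat.card_eq_fintype_card]
  · rw [if_neg h, if_neg fun h' => h (h3.1 h')]
    exact Nat.cast_zero

/-- the sum of `(ψ + ψ⁻¹) conj ψ` -/
theorem sum_AA {H : Subgroup G} (ψ : H →* ℂˣ) (F : G → ℂ)
    (hF : ∀ g ∈ H, g ≠ 1 → F g = extZ ψ g + (extZ ψ g)⁻¹) :
    ∑ g : G, (if g ∈ H then F g * conj (extZ ψ g) else 0) =
      F 1 - 2 + (Nat.card H : ℂ) + if ψ ^ 2 = 1 then (Nat.card H : ℂ) else 0 := by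
  have h1 : ∀ g : G, (if g ∈ H then F g * conj (extZ ψ g) else 0) =
      (if g = 1 then F 1 - 2 else 0) + (if g ∈ H then (1 : ℂ) else 0) +
        (if g ∈ H then (extZ ψ g)⁻¹ * (extZ ψ g)⁻¹ else 0) := by
    intro g
    by_cases hg : g ∈ H
    · rw [if_pos hg, if_pos hg, if_pos hg, conj_ext ψ g hg]
      by_cases h : g = 1
      · subst h
        rw [if_pos rfl, extZ_at_one]
        ring
      · rw [if_neg h, hF g hg h]
        have h0 : extZ ψ g ≠ 0 := by
          rw [extZ_mem ψ g hg]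
          exact Units.ne_zero _
        field_simp
        ring
    · have h : g ≠ 1 := fun h => hg (h ▸ H.one_mem)
      rw [if_neg hg, if_neg hg, if_neg hg, if_neg h]
      ring
  rw [Finset.sum_congr rfl fun g _ => h1 g, Finset.sum_add_distrib, Finset.sum_add_distrib,
    sum_const, sum_char, Finset.sum_ite_eq' Finset.univ (1 : G), if_pos (Finset.mem_univ _)]
  ring

/-- the sum of a function which vanishes outside of `1` -/
theorem sum_one (H : Subgroup G) (F : G → ℂ) (hF : ∀ g ∈ H, g ≠ 1 → F g = 0) :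
    ∑ g : G, (if g ∈ H then F g else 0) = F 1 := by
  rw [Finset.sum_eq_single (1 : G), if_pos H.one_mem]
  · intro g _ hg
    by_cases h : g ∈ H
    · rw [if_pos h, hF g h hg]
    · rw [if_neg h]
  · intro h
    exact absurd (Finset.mem_univ _) h

variable {q d : ℕ}

theorem tau_class (b : TB G q d) (x g : G) : b.tau (x⁻¹ * g * x) = b.tau g := by
  unfold TB.tau
  rw [indFun_class, indFun_class]

/-- `∑ Ind_H 1 = |G|` -/
theorem sum_ind_one (hP : Stmt_PFR) (H : Subgroup G) :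
    ∑ g, indFun H (fun _ => 1) g = (Fintype.card G : ℂ) := by
  have h1 := hP G H (fun _ => 1) (fun _ => 1) (fun _ _ => rfl)
  have h2 : ∑ g : G, (if g ∈ H then (1 : ℂ) * conj (1 : ℂ) else 0) = (Nat.card H : ℂ) := by
    rw [map_one, mul_one, sum_const, mul_one]
  have h0 : (Nat.card H : ℂ) ≠ 0 := by exact_mod_cast Nat.card_pos.ne'
  rw [h2, div_mul_cancel₀ _ h0] at h1
  have h3 : conj (∑ g, indFun H (fun _ => 1) g) = (Fintype.card G : ℂ) := by
    rw [map_sum, ← h1]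
    exact Finset.sum_congr rfl fun g _ => (one_mul _).symm
  have h4 := congrArg conj h3
  rwa [Complex.conj_conj, Complex.conj_natCast] at h4

/-- expansion of a square -/
theorem expand (A B : G → ℂ) :
    ∑ g, (A g - B g) * conj (A g - B g) =
      ∑ g, A g * conj (A g) - ∑ g, B g * conj (A g) - conj (∑ g, B g * conj (A g)) +
        ∑ g, B g * conj (B g) := by
  rw [map_sum, ← Finset.sum_sub_distrib, ← Finset.sum_sub_distrib, ← Finset.sum_add_distrib]
  refine Finset.sum_congr rfl fun g _ => ?_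
  rw [map_sub, map_mul, Complex.conj_conj]
  ring

end QNTx

open QNTx in
theorem QNT_thm : Stmt_QNT := by
  intro hP hDH hVT hVB hBB G _ _ q d b
  obtain ⟨hT, hN, hUT, hB⟩ := hDH G q d b
  obtain ⟨v1, v2, v3, v4, v5, v6⟩ := hVB hDH hVT G q d b
  obtain ⟨hBs, -⟩ := hBB hDH G q d b
  -- numbers
  have hq0 : (q : ℂ) ≠ 0 := by
    have h := b.card_U
    rw [← h]
    exact_mod_cast Nat.card_pos.ne'
  have ht0 : (Nat.card b.T : ℂ) ≠ 0 := by exact_mod_cast Nat.card_pos.ne'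
  have hn0 : (Nat.card b.N : ℂ) ≠ 0 := by exact_mod_cast Nat.card_pos.ne'
  have e1 : (d : ℂ) * (Fintype.card G : ℂ) = (q : ℂ) * ((q : ℂ) ^ 2 - 1) := by
    exact_mod_cast b.card
  have e2 : (d : ℂ) * (Nat.card b.T : ℂ) = (q : ℂ) - 1 := by exact_mod_cast b.card_T
  have e3 : (d : ℂ) * (Nat.card b.N : ℂ) = (q : ℂ) + 1 := by exact_mod_cast b.card_N
  have hd0 : (d : ℂ) ≠ 0 := by
    intro h
    rw [h, zero_mul] at e2 e3
    have h1 : (2 : ℂ) = 0 := by linear_combination e2 - e3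
    norm_num at h1
  have hcT : (Fintype.card G : ℂ) = (q : ℂ) * ((q : ℂ) + 1) * (Nat.card b.T : ℂ) := by
    apply mul_left_cancel₀ hd0
    linear_combination e1 - (q : ℂ) * ((q : ℂ) + 1) * e2
  have hcN : (Fintype.card G : ℂ) = (q : ℂ) * ((q : ℂ) - 1) * (Nat.card b.N : ℂ) := by
    apply mul_left_cancel₀ hd0
    linear_combination e1 - (q : ℂ) * ((q : ℂ) - 1) * e3
  have hBc : (Nat.card b.B : ℂ) = (q : ℂ) * (Nat.card b.T : ℂ) := by
    rw [hB, Nat.cast_mul]
  -- inner products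
  have hr : ∀ m : ℕ, conj ((Fintype.card G : ℂ) / (m : ℂ) * ((q : ℂ) ^ 2 - 1)) =
      (Fintype.card G : ℂ) / (m : ℂ) * ((q : ℂ) ^ 2 - 1) := by
    intro m
    rw [map_mul, map_div₀, map_sub, map_pow, map_one, Complex.conj_natCast, Complex.conj_natCast,
      Complex.conj_natCast]
  have tA : ∀ ψ : b.T →* ℂˣ, ∑ g, b.tau g * conj (indFun b.T (extZ ψ) g) =
      (Fintype.card G : ℂ) / (Nat.card b.T : ℂ) * ((q : ℂ) ^ 2 - 1) := by
    intro ψ
    rw [hP G b.T b.tau (extZ ψ) (tau_class b), sum_one b.T _ (fun g hg h => by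
      rw [(v1 g hg h).1, zero_mul]), v6, extZ_at_one, map_one, mul_one]
  have t1 : ∑ g, b.tau g * conj (indFun b.T (fun _ => 1) g) =
      (Fintype.card G : ℂ) / (Nat.card b.T : ℂ) * ((q : ℂ) ^ 2 - 1) := by
    rw [hP G b.T b.tau (fun _ => 1) (tau_class b), sum_one b.T _ (fun g hg h => by
      rw [(v1 g hg h).1, zero_mul]), v6, map_one, mul_one]
  have tC : ∀ φ : b.N →* ℂˣ, ∑ g, b.tau g * conj (indFun b.N (extZ φ) g) =
      (Fintype.card G : ℂ) / (Nat.card b.N : ℂ) * ((q : ℂ) ^ 2 - 1) := by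
    intro φ
    rw [hP G b.N b.tau (extZ φ) (tau_class b), sum_one b.N _ (fun g hg h => by
      rw [(v3 g hg h).1, zero_mul]), v6, extZ_at_one, map_one, mul_one]
  have sU : ∀ (F : G → ℂ) (a : ℂ), F 1 = a → (∀ u ∈ b.U, u ≠ 1 → F u = -1) →
      ∑ g, (if g ∈ b.U then F g else 0) = a + 1 - (q : ℂ) := by
    intro F a h1 h2
    have h3 : ∀ g : G, (if g ∈ b.U then F g else 0) =
        (if g = 1 then a + 1 else 0) + (if g ∈ b.U then (-1 : ℂ) else 0) := by
      intro g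
      by_cases hg : g ∈ b.U
      · rw [if_pos hg, if_pos hg]
        by_cases h : g = 1
        · rw [if_pos h, h, h1]
          ring
        · rw [if_neg h, h2 g hg h]
          ring
      · have h : g ≠ 1 := fun h => hg (h ▸ b.U.one_mem)
        rw [if_neg hg, if_neg hg, if_neg h]
        ring
    rw [Finset.sum_congr rfl fun g _ => h3 g, Finset.sum_add_distrib, sum_const, b.card_U,
      Finset.sum_ite_eq' Finset.univ (1 : G), if_pos (Finset.mem_univ _)]
    ring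
  have sT : ∀ F : G → ℂ, (∀ t ∈ b.T, t ≠ 1 → F t = 0) →
      ∑ g, (if g ∈ b.T ∧ g ≠ 1 then F g else 0) = 0 := by
    intro F h
    refine Finset.sum_eq_zero fun g _ => ?_
    by_cases hg : g ∈ b.T ∧ g ≠ 1
    · rw [if_pos hg, h g hg.1 hg.2]
    · rw [if_neg hg]
  have tB : ∑ g, b.tau g * conj (indFun b.B (fun _ => 1) g) =
      (Fintype.card G : ℂ) / (Nat.card b.B : ℂ) * ((q : ℂ) ^ 2 - (q : ℂ)) := by
    rw [hP G b.B b.tau (fun _ => 1) (tau_class b)]
    congr 1
    have h1 : ∀ g : G, (if g ∈ b.B then b.tau g * conj (1 : ℂ) else 0) =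
        (if g ∈ b.B then b.tau g else 0) := by
      intro g
      rw [map_one, mul_one]
    rw [Finset.sum_congr rfl fun g _ => h1 g, hBs b.tau (tau_class b),
      sU b.tau _ v6 (fun u hu h => (v2 u hu h).1), sT b.tau (fun t ht h => (v1 t ht h).1)]
    ring
  have tt : ∑ g, b.tau g * conj (b.tau g) =
      (Fintype.card G : ℂ) / (Nat.card b.T : ℂ) * ((q : ℂ) ^ 2 - 1) -
        (Fintype.card G : ℂ) / (Nat.card b.B : ℂ) * ((q : ℂ) ^ 2 - (q : ℂ)) := by
    rw [← t1, ← tB, ← Finset.sum_sub_distrib]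
    refine Finset.sum_congr rfl fun g _ => ?_
    have h1 : conj (b.tau g) = conj (indFun b.T (fun _ => 1) g) -
        conj (indFun b.B (fun _ => 1) g) := by
      unfold TB.tau
      rw [map_sub]
    rw [h1]
    ring
  have AA : ∀ ψ : b.T →* ℂˣ, ∑ g, indFun b.T (extZ ψ) g * conj (indFun b.T (extZ ψ) g) =
      (Fintype.card G : ℂ) / (Nat.card b.T : ℂ) *
        ((Fintype.card G : ℂ) / (Nat.card b.T : ℂ) - 2 + (Nat.card b.T : ℂ) +
          if ψ ^ 2 = 1 then (Nat.card b.T : ℂ) else 0) := by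
    intro ψ
    rw [hP G b.T (indFun b.T (extZ ψ)) (extZ ψ) (indFun_class b.T _),
      sum_AA ψ _ (fun g hg h => hVT G b.T b.w ψ hT g hg h), v4]
  have CC : ∀ φ : b.N →* ℂˣ, ∑ g, indFun b.N (extZ φ) g * conj (indFun b.N (extZ φ) g) =
      (Fintype.card G : ℂ) / (Nat.card b.N : ℂ) *
        ((Fintype.card G : ℂ) / (Nat.card b.N : ℂ) - 2 + (Nat.card b.N : ℂ) +
          if φ ^ 2 = 1 then (Nat.card b.N : ℂ) else 0) := by
    intro φ
    rw [hP G b.N (indFun b.N (extZ φ)) (extZ φ) (indFun_class b.N _),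
      sum_AA φ _ (fun g hg h => hVT G b.N b.v φ hN g hg h), v5]
  -- `pr 1 = Ind_B 1`
  have hpr1 : ∀ g, b.pr 1 g = indFun b.B (fun _ => 1) g := by
    intro g
    unfold TB.pr TB.tau
    rw [indFun_congr b.T (extZ 1) (fun _ => 1) (fun x hx => extZ_one x hx)]
    ring
  have hdiv1 : (Fintype.card G : ℂ) / (Nat.card b.T : ℂ) = (q : ℂ) * ((q : ℂ) + 1) := by
    rw [div_eq_iff ht0]
    exact hcT
  have hdiv2 : (Fintype.card G : ℂ) / (Nat.card b.N : ℂ) = (q : ℂ) * ((q : ℂ) - 1) := by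
    rw [div_eq_iff hn0]
    exact hcN
  have hdiv3 : (Fintype.card G : ℂ) / (Nat.card b.B : ℂ) = (q : ℂ) + 1 := by
    rw [hBc, div_eq_iff (mul_ne_zero hq0 ht0)]
    linear_combination hcT
  refine ⟨fun ψ => ?_, fun φ => ?_, ?_, ?_, ?_, hpr1, ?_⟩
  · have h1 := expand (indFun b.T (extZ ψ)) b.tau
    rw [tA ψ, hr, AA ψ, tt, hdiv1, hdiv3] at h1
    have h2 : ∑ g, b.pr ψ g * conj (b.pr ψ g) =
        ∑ g, (indFun b.T (extZ ψ) g - b.tau g) * conj (indFun b.T (extZ ψ) g - b.tau g) := rfl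
    rw [h2, h1, hcT]
    split_ifs
    · ring
    · ring
  · have h1 := expand (indFun b.N (extZ φ)) b.tau
    rw [tC φ, hr, CC φ, tt, hdiv1, hdiv2, hdiv3] at h1
    have h2 : ∑ g, b.ds φ g * conj (b.ds φ g) =
        ∑ g, (indFun b.N (extZ φ) g - b.tau g) * conj (indFun b.N (extZ φ) g - b.tau g) := by
      refine Finset.sum_congr rfl fun g _ => ?_
      unfold TB.ds
      rw [map_sub, map_sub]
      ring
    rw [h2, h1, hcN]
    split_ifs
    · ring
    · ring
  · have h1 : ∀ g, b.ds 1 g * conj (b.pr 1 g) = b.ds 1 g * conj (indFun b.B (fun _ => 1) g) := by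
      intro g
      rw [hpr1]
    have hcl : ∀ x g, b.ds 1 (x⁻¹ * g * x) = b.ds 1 g := by
      intro x g
      unfold TB.ds
      rw [tau_class, indFun_class]
    rw [Finset.sum_congr rfl fun g _ => h1 g, hP G b.B (b.ds 1) (fun _ => 1) hcl]
    have h2 : ∀ g : G, (if g ∈ b.B then b.ds 1 g * conj (1 : ℂ) else 0) =
        (if g ∈ b.B then b.ds 1 g else 0) := by
      intro g
      rw [map_one, mul_one]
    have h3 : b.ds 1 1 = (q : ℂ) - 1 := by
      unfold TB.ds
      rw [v6, v5, hdiv2]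
      ring
    rw [Finset.sum_congr rfl fun g _ => h2 g, hBs (b.ds 1) hcl,
      sU (b.ds 1) _ h3 (fun u hu h => by
        unfold TB.ds
        rw [(v2 u hu h).1, (v2 u hu h).2.2]
        ring),
      sT (b.ds 1) (fun t ht h => by
        unfold TB.ds
        rw [(v1 t ht h).1, (v1 t ht h).2]
        ring)]
    ring
  · rw [Finset.sum_congr rfl fun g _ => hpr1 g]
    exact sum_ind_one hP b.B
  · have h1 : ∀ g, b.ds 1 g = indFun b.T (fun _ => 1) g - indFun b.B (fun _ => 1) g -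
        indFun b.N (fun _ => 1) g := by
      intro g
      unfold TB.ds TB.tau
      rw [indFun_congr b.N (extZ 1) (fun _ => 1) (fun x hx => extZ_one x hx)]
    rw [Finset.sum_congr rfl fun g _ => h1 g, Finset.sum_sub_distrib, Finset.sum_sub_distrib,
      sum_ind_one hP, sum_ind_one hP, sum_ind_one hP]
    ring
  · unfold TB.pr
    rw [v4, v6, hdiv1]
    ring

end StarkC.ABS
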