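import Pool.Agent.ABS.StQ

/-!
# ABS, module QPG: `G ≅ PGL_2(k)`
-/

set_option autoImplicit false

open scoped Classical MatrixGroups ComplexConjugate

namespace StarkC.ABS

theorem QPG_thm : Stmt_QPG := by
  intro hMJ hMN hMC hMA hTP k G _ _ _ _ hG
  obtain ⟨f⟩ := hG
  haveI : Finite PGL(2, k) := Finite.of_equiv G f.toEquiv
  haveI : Fintype PGL(2, k) := Fintype.ofFinite _
  obtain ⟨N, v, hN⟩ := hMN hMJ k
  obtain ⟨b, hb⟩ := hMA hMC k N v hN
  obtain ⟨b', hb'⟩ := hTP PGL(2, k) G (Fintype.card k) 1 f.symm b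
  refine ⟨b', ?_⟩
  rcases Nat.even_or_odd (Fintype.card k) with he | ho
  · exact Or.inl he
  · exact Or.inr (hb' ⟨_, hb ho⟩)

end StarkC.ABS
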