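import Pool.Agent.ABS.StQ

/-!
# Project ABS, part Q: `G ≅ PSL_2(k)` (QPS, helper15)
-/

set_option autoImplicit false

open scoped Classical MatrixGroups ComplexConjugate

namespace StarkC.ABS

namespace QPSx

theorem exists_sq_ne (k : Type) [Field k] [Fintype k] (h : 4 ≤ Fintype.card k) :
    ∃ a : k, a ≠ 0 ∧ a ^ 2 ≠ 1 := by
  have hF : 4 ≤ Nat.card k := by rwa [Nat.card_eq_fintype_card]
  obtain ⟨x, hx⟩ : IsCyclic kˣ := by infer_instance
  refine ⟨x, Units.ne_zero x, fun h ↦ ?_⟩
  have h1 : orderOf x ≤ 2 := orderOf_le_of_pow_eq_one zero_lt_two (Units.ext <| by simpa using h)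
  have h2 := Nat.card_eq_card_units_add_one k
  have h3 := orderOf_eq_card_of_forall_mem_zpowers hx
  omega

theorem comm_top (k : Type) [Field k] [Fintype k] (h : 4 ≤ Fintype.card k) :
    commutator PSL(2, k) = ⊤ :=
  SL2Simple.PSL_commutator_eq_top (exists_sq_ne k h)

theorem comm_transport {G H : Type} [Group G] [Group H] (f : G ≃* H) (h : commutator H = ⊤) :
    commutator G = ⊤ := by
  have h1 : Subgroup.map f.symm.toMonoidHom (commutator H) = commutator G := by
    rw [commutator_def, commutator_def, Subgroup.map_commutator]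
    congr 1 <;> exact Subgroup.map_top_of_surjective _ f.symm.surjective
  rw [← h1, h]
  exact Subgroup.map_top_of_surjective _ f.symm.surjective

theorem range_eq (k : Type) [Field k] :
    (Matrix.ProjectiveSpecialLinearGroup.toPGL (n := Fin 2) (R := k)).range =
      (Matrix.SpecialLinearGroup.toPGL (n := Fin 2) (R := k)).range := by
  ext x
  constructor
  · rintro ⟨y, rfl⟩
    induction y using QuotientGroup.induction_on with | H y =>
    exact ⟨y, rfl⟩
  · rintro ⟨y, rfl⟩
    exact ⟨QuotientGroup.mk y, rfl⟩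

/-- `PSL_2(k)` is isomorphic to the image of `SL_2(k)` in `PGL_2(k)`. -/
noncomputable def eqv (k : Type) [Field k] :
    PSL(2, k) ≃* (Matrix.SpecialLinearGroup.toPGL (n := Fin 2) (R := k)).range :=
  (MonoidHom.ofInjective (Matrix.ProjectiveSpecialLinearGroup.toPGL_injective)).trans
    (MulEquiv.subgroupCongr (range_eq k))

theorem surj (k : Type) [Field k] [Fintype k] (h : Even (Fintype.card k)) :
    Function.Surjective (Matrix.ProjectiveSpecialLinearGroup.toPGL (n := Fin 2) (R := k)) := by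
  apply Matrix.ProjectiveSpecialLinearGroup.toPGL_surj_of_roots
  intro r
  have h2 : ringChar k = 2 := by
    by_contra hne
    have := FiniteField.odd_card_of_char_ne_two (F := k) hne
    rw [Nat.even_iff] at h
    omega
  obtain ⟨a, ha⟩ := FiniteField.isSquare_of_char_two h2 (r : k)
  have ha0 : a ≠ 0 := by
    rintro rfl
    exact r.ne_zero (by rw [ha, mul_zero])
  refine ⟨Units.mk0 a ha0, Units.ext ?_⟩
  simp [ha, pow_two]

theorem finite_PGL (k : Type) [Field k] [Fintype k] : Finite PGL(2, k) :=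
  Finite.of_surjective (Matrix.ProjGenLinGroup.mk (n := Fin 2) (R := k))
    Matrix.ProjGenLinGroup.mk_surjective

theorem odd_step (hQSB : Stmt_QSB) (hQTP : Stmt_QTP) {G H : Type} [Group G] [Fintype G] [Group H]
    [Fintype H] {q : ℕ} (b : TB H q 1) (P : Subgroup H) (hP : TS b P) (f : P ≃* G) :
    Nonempty (TB G q 2) := by
  obtain ⟨c⟩ := hQSB _ _ b _ hP
  obtain ⟨b', -⟩ := hQTP _ G _ _ f c
  exact ⟨b'⟩

end QPSx

open QPSx in
theorem QPS_thm : Stmt_QPS := by
  intro hQMJ hQMN hQMC hQMA hQSB hQTP k G _ _ _ _ hk hG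
  obtain ⟨f⟩ := hG
  have := finite_PGL k
  let _ : Fintype PGL(2, k) := Fintype.ofFinite _
  obtain ⟨N, v, hN⟩ := hQMN hQMJ k
  obtain ⟨b, hb⟩ := hQMA hQMC k N v hN
  refine ⟨comm_transport f (comm_top k hk), fun ho => ?_, fun he => ?_⟩
  · exact odd_step hQSB hQTP b _ (hb ho) ((f.trans (eqv k)).symm)
  · let e : PSL(2, k) ≃* PGL(2, k) := MulEquiv.ofBijective _
      ⟨Matrix.ProjectiveSpecialLinearGroup.toPGL_injective, surj k he⟩
    obtain ⟨b', -⟩ := hQTP _ G _ _ ((f.trans e).symm) b
    exact ⟨b'⟩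

end StarkC.ABS
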