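import Pool.Agent.ABS.StQ

/-!
# Project ABS (MP_46b841_nt), part Q, module QSB: restriction to a subgroup of index two
-/

set_option autoImplicit false

open scoped Classical MatrixGroups ComplexConjugate

namespace StarkC.ABS

namespace QSBx

theorem card_le {G : Type} [Group G] (H P : Subgroup G) (h : H ≤ P) :
    Nat.card (H.subgroupOf P) = Nat.card H :=
  Nat.card_congr (Subgroup.subgroupOfEquivOfLe h).toEquiv

theorem card_half {G : Type} [Group G] [Fintype G] (H P : Subgroup G) (hP : P.index = 2)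
    (h : ¬ H ≤ P) : 2 * Nat.card (H.subgroupOf P) = Nat.card H := by
  have hn : P.Normal := Subgroup.normal_of_index_eq_two hP
  have h1 : P.relIndex H ∣ 2 := hP ▸ Subgroup.relIndex_dvd_index_of_normal P H
  have h2 : P.relIndex H ≠ 1 := fun h3 => h (Subgroup.relIndex_eq_one.1 h3)
  have h3 : P.relIndex H = 2 := by
    rcases (Nat.dvd_prime Nat.prime_two).1 h1 with h4 | h4
    · exact absurd h4 h2
    · exact h4
  have h4 : Nat.card (P.subgroupOf H) * (P.subgroupOf H).index = Nat.card H :=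
    Subgroup.card_mul_index _
  have h5 : (P.subgroupOf H).index = 2 := h3
  have h6 : Nat.card (H.subgroupOf P) = Nat.card (P.subgroupOf H) := by
    refine Nat.card_congr ⟨fun x => ⟨⟨x.1.1, x.2⟩, x.1.2⟩, fun x => ⟨⟨x.1.1, x.2⟩, x.1.2⟩,
      fun x => rfl, fun x => rfl⟩
  rw [h6, ← h4, h5, mul_comm]

theorem cyc {G : Type} [Group G] (H P : Subgroup G) (h : IsCyclic H) :
    IsCyclic (H.subgroupOf P) := by
  have := h
  refine isCyclic_of_injective (G' := H)
    (⟨⟨fun x => ⟨x.1.1, x.2⟩, rfl⟩, fun x y => rfl⟩ : H.subgroupOf P →* H) ?_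
  intro x y hxy
  have h1 : x.1.1 = y.1.1 := congrArg (fun z : H => z.1) hxy
  exact Subtype.ext (Subtype.ext h1)

end QSBx

theorem QSB_thm : Stmt_QSB := by
  intro G _ _ q b P hP
  have hcardP : 2 * Nat.card P = Nat.card G := by
    have h1 := P.card_mul_index
    rw [hP.index, mul_comm] at h1
    exact h1
  refine ⟨{
    U := b.U.subgroupOf P
    T := b.T.subgroupOf P
    N := b.N.subgroupOf P
    B := b.B.subgroupOf P
    w := ⟨b.w, hP.w_mem⟩
    v := ⟨b.v, hP.v_mem⟩
    card := ?_
    card_U := ?_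
    card_T := ?_
    card_N := ?_
    mem_B := ?_
    U_comm := ?_
    T_cyc := QSBx.cyc _ _ b.T_cyc
    N_cyc := QSBx.cyc _ _ b.N_cyc
    T_U := ?_
    free := ?_
    w_sq := ?_
    w_T := ?_
    w_B := ?_
    v_sq := ?_
    v_N := ?_
    v_not := ?_
    fus_U := ?_
    fus_T := ?_
    fus_N := ?_
    N_B := ?_ }⟩
  · have h1 := b.card
    have h2 : Fintype.card P = Nat.card P := by rw [Nat.card_eq_fintype_card]
    have h3 : Fintype.card G = Nat.card G := by rw [Nat.card_eq_fintype_card]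
    rw [h3] at h1
    rw [h2]
    push_cast at h1 ⊢
    rw [← hcardP] at h1
    push_cast at h1
    linarith
  · rw [QSBx.card_le _ _ hP.U_le]
    exact b.card_U
  · have h1 := b.card_T
    have h2 := QSBx.card_half b.T P hP.index hP.T_not
    rw [← h2] at h1
    push_cast at h1 ⊢
    linarith
  · have h1 := b.card_N
    have h2 := QSBx.card_half b.N P hP.index hP.N_not
    rw [← h2] at h1
    push_cast at h1 ⊢
    linarith
  · intro g
    rw [Subgroup.mem_subgroupOf, b.mem_B]
    constructor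
    · rintro ⟨u, hu, t, ht, h⟩
      have htP : t ∈ P := by
        have h1 : u * t ∈ P := h ▸ g.2
        exact (P.mul_mem_cancel_left (hP.U_le hu)).1 h1
      exact ⟨⟨u, hP.U_le hu⟩, hu, ⟨t, htP⟩, ht, Subtype.ext h⟩
    · rintro ⟨u, hu, t, ht, h⟩
      exact ⟨u.1, hu, t.1, ht, congrArg Subtype.val h⟩
  · intro x hx y hy
    exact Subtype.ext (b.U_comm x.1 hx y.1 hy)
  · intro t ht u hu
    exact b.T_U t.1 ht u.1 hu
  · intro t ht u hu h1 h2
    exact Subtype.ext (b.free t.1 ht u.1 hu (fun h => h1 (Subtype.ext h))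
      (congrArg Subtype.val h2))
  · exact Subtype.ext b.w_sq
  · intro t ht
    exact Subtype.ext (b.w_T t.1 ht)
  · exact b.w_B
  · exact Subtype.ext b.v_sq
  · intro y hy
    exact Subtype.ext (b.v_N y.1 hy)
  · exact b.v_not
  · intro u hu h1 x hx
    exact b.fus_U u.1 hu (fun h => h1 (Subtype.ext h)) x.1 hx
  · intro t ht h1 x hx
    exact b.fus_T t.1 ht (fun h => h1 (Subtype.ext h)) x.1 hx
  · intro y hy h1 x hx
    exact b.fus_N y.1 hy (fun h => h1 (Subtype.ext h)) x.1 hx
  · intro y hy h1 x hx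
    exact b.N_B y.1 hy (fun h => h1 (Subtype.ext h)) x.1 hx

end StarkC.ABS
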