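import Pool.Agent.ABS.StQ

/-!
# Project ABS (MP_46b841_nt), part Q: transport along an isomorphism (module QTP)
-/

set_option autoImplicit false

open scoped Classical MatrixGroups ComplexConjugate

namespace StarkC.ABS

namespace QTPx

variable {G G' : Type} [Group G] [Group G']

/-- The image of a subgroup. -/
def tr (f : G ≃* G') (H : Subgroup G) : Subgroup G' := H.comap f.symm.toMonoidHom

theorem mem_tr (f : G ≃* G') (H : Subgroup G) (x : G') : x ∈ tr f H ↔ f.symm x ∈ H := Iff.rfl

theorem card_tr (f : G ≃* G') (H : Subgroup G) : Nat.card (tr f H) = Nat.card H :=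
  Nat.card_congr (f.symm.toEquiv.subtypeEquiv fun _ => Iff.rfl)

/-- The restriction of the isomorphism. -/
def res (f : G ≃* G') (H : Subgroup G) : H →* tr f H :=
  (f.toMonoidHom.comp H.subtype).codRestrict (tr f H) fun x => by
    rw [mem_tr]
    show f.symm (f (x : G)) ∈ H
    rw [f.symm_apply_apply]
    exact x.2

theorem res_surj (f : G ≃* G') (H : Subgroup G) : Function.Surjective (res f H) := by
  intro y
  refine ⟨⟨f.symm y, (mem_tr f H y).1 y.2⟩, ?_⟩
  apply Subtype.ext
  show f (f.symm (y : G')) = y
  exact f.apply_symm_apply _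

theorem cyc (f : G ≃* G') (H : Subgroup G) (h : IsCyclic H) : IsCyclic (tr f H) :=
  haveI := h
  isCyclic_of_surjective (res f H) (res_surj f H)

/-- The transported data. -/
def mk [Fintype G] [Fintype G'] {q d : ℕ} (f : G ≃* G') (b : TB G q d) : TB G' q d where
  U := tr f b.U
  T := tr f b.T
  N := tr f b.N
  B := tr f b.B
  w := f b.w
  v := f b.v
  card := by
    rw [← Fintype.card_congr f.toEquiv]
    exact b.card
  card_U := by rw [card_tr]; exact b.card_U
  card_T := by rw [card_tr]; exact b.card_T
  card_N := by rw [card_tr]; exact b.card_N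
  mem_B := by
    intro g
    rw [mem_tr, b.mem_B]
    constructor
    · rintro ⟨u, hu, t, ht, h⟩
      refine ⟨f u, ?_, f t, ?_, ?_⟩
      · rw [mem_tr, f.symm_apply_apply]; exact hu
      · rw [mem_tr, f.symm_apply_apply]; exact ht
      · rw [← map_mul, ← h, f.apply_symm_apply]
    · rintro ⟨u, hu, t, ht, h⟩
      exact ⟨f.symm u, hu, f.symm t, ht, by rw [h, map_mul]⟩
  U_comm := by
    intro a ha c hc
    apply f.symm.injective
    rw [map_mul, map_mul]
    exact b.U_comm _ ha _ hc
  T_cyc := cyc f b.T b.T_cyc
  N_cyc := cyc f b.N b.N_cyc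
  T_U := by
    intro t ht u hu
    rw [mem_tr, map_mul, map_mul, map_inv]
    exact b.T_U _ ht _ hu
  free := by
    intro t ht u hu h1 h2
    have := b.free (f.symm t) ht (f.symm u) hu (by
      intro h
      exact h1 (by simpa using congrArg f h)) (by
      have := congrArg f.symm h2
      simpa using this)
    simpa using congrArg f this
  w_sq := by rw [← map_mul, b.w_sq, map_one]
  w_T := by
    intro t ht
    have := congrArg f (b.w_T (f.symm t) ht)
    simpa using this
  w_B := by
    rw [mem_tr, f.symm_apply_apply]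
    exact b.w_B
  v_sq := by rw [← map_mul, b.v_sq, map_one]
  v_N := by
    intro t ht
    have := congrArg f (b.v_N (f.symm t) ht)
    simpa using this
  v_not := by
    rw [mem_tr, f.symm_apply_apply]
    exact b.v_not
  fus_U := by
    intro u hu h1 x hx
    rw [mem_tr, map_mul, map_mul, map_inv] at hx
    exact b.fus_U (f.symm u) hu (by
      intro h
      exact h1 (by simpa using congrArg f h)) (f.symm x) hx
  fus_T := by
    intro t ht h1 x hx
    rw [mem_tr, map_mul, map_mul, map_inv] at hx
    have := b.fus_T (f.symm t) ht (by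
      intro h
      exact h1 (by simpa using congrArg f h)) (f.symm x) hx
    rw [mem_tr, mem_tr, map_mul, f.symm_apply_apply]
    exact this
  fus_N := by
    intro t ht h1 x hx
    rw [mem_tr, map_mul, map_mul, map_inv] at hx
    have := b.fus_N (f.symm t) ht (by
      intro h
      exact h1 (by simpa using congrArg f h)) (f.symm x) hx
    rw [mem_tr, mem_tr, map_mul, f.symm_apply_apply]
    exact this
  N_B := by
    intro t ht h1 x hx
    rw [mem_tr, map_mul, map_mul, map_inv] at hx
    exact b.N_B (f.symm t) ht (by
      intro h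
      exact h1 (by simpa using congrArg f h)) (f.symm x) hx

theorem not_le (f : G ≃* G') (T P : Subgroup G) (h : ¬ T ≤ P) : ¬ tr f T ≤ tr f P := by
  intro h1
  apply h
  intro t ht
  have h2 : f t ∈ tr f T := by rw [mem_tr, f.symm_apply_apply]; exact ht
  have h3 := h1 h2
  rwa [mem_tr, f.symm_apply_apply] at h3

theorem ts [Fintype G] [Fintype G'] {q d : ℕ} (f : G ≃* G') (b : TB G q d) (P : Subgroup G)
    (h : TS b P) : TS (mk f b) (tr f P) where
  index := by
    rw [← h.index]
    exact Subgroup.index_comap_of_surjective P f.symm.surjective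
  U_le := fun _ hx => h.U_le hx
  w_mem := by
    show f b.w ∈ tr f P
    rw [mem_tr, f.symm_apply_apply]
    exact h.w_mem
  v_mem := by
    show f b.v ∈ tr f P
    rw [mem_tr, f.symm_apply_apply]
    exact h.v_mem
  T_not := not_le f b.T P h.T_not
  N_not := not_le f b.N P h.N_not

end QTPx

theorem QTP_thm : Stmt_QTP := by
  intro G G' _ _ _ _ q d f b
  exact ⟨QTPx.mk f b, fun ⟨P, hP⟩ => ⟨QTPx.tr f P, QTPx.ts f b P hP⟩⟩

end StarkC.ABS
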