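import Pool.Agent.ABS.StQ

/-!
# Project ABS, part Q, module QTR: the field of values of `e Ind_T ψ + R`
-/

set_option autoImplicit false

open scoped Classical MatrixGroups ComplexConjugate

namespace StarkC.ABS

namespace QTRx

section

variable {G : Type} [Group G] [Fintype G]

lemma indFun_congr (H : Subgroup G) (f f' : G → ℂ) (h : ∀ g ∈ H, f g = f' g) (g : G) :
    indFun H f g = indFun H f' g := by
  unfold indFun
  congr 1
  refine Finset.sum_congr rfl fun x _ => ?_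
  by_cases hx : x⁻¹ * g * x ∈ H
  · rw [if_pos hx, if_pos hx, h _ hx]
  · rw [if_neg hx, if_neg hx]

lemma indFun_one (H : Subgroup G) (g : G) :
    indFun H (extZ (1 : H →* ℂˣ)) g = indFun H (fun _ => 1) g := by
  refine indFun_congr H _ _ (fun x hx => ?_) g
  unfold extZ
  rw [dif_pos hx]
  simp

/-- an endomorphism of `ℂ` and induction -/
lemma map_indFun (σ : ℂ →+* ℂ) (H : Subgroup G) (f : G → ℂ) (g : G) :
    σ (indFun H f g) = indFun H (fun x => σ (f x)) g := by
  unfold indFun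
  rw [map_div₀, map_sum, map_natCast]
  congr 1
  refine Finset.sum_congr rfl fun x _ => ?_
  by_cases hx : x⁻¹ * g * x ∈ H
  · rw [if_pos hx, if_pos hx]
  · rw [if_neg hx, if_neg hx, map_zero]

lemma map_perm (σ : ℂ →+* ℂ) {R : G → ℂ} (hR : PermC R) (g : G) : σ (R g) = R g := by
  obtain ⟨r, H, c, h⟩ := hR
  rw [h g, map_sum]
  refine Finset.sum_congr rfl fun i _ => ?_
  rw [map_mul, map_intCast, map_indFun]
  simp

lemma perm_comb {θ R : G → ℂ} (hθ : PermC θ) (hR : PermC R) (a b : ℤ) :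
    PermC fun g => (a : ℂ) * θ g + (b : ℂ) * R g := by
  obtain ⟨r, H, c, h⟩ := hθ
  obtain ⟨r', H', c', h'⟩ := hR
  refine ⟨r + r', Fin.append H H', Fin.append (fun i => a * c i) fun i => b * c' i, fun g => ?_⟩
  change (a : ℂ) * θ g + (b : ℂ) * R g = _
  rw [Fin.sum_univ_add, h g, h' g, Finset.mul_sum, Finset.mul_sum]
  congr 1
  · refine Finset.sum_congr rfl fun i _ => ?_
    rw [Fin.append_left, Fin.append_left]
    push_cast
    ring
  · refine Finset.sum_congr rfl fun i _ => ?_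
    rw [Fin.append_right, Fin.append_right]
    push_cast
    ring

variable {T : Subgroup G} {w : G}

omit [Fintype G] in
lemma ext_of {ψ : T →* ℂˣ} {g : G} (h : g ∈ T) : extZ ψ g = ((ψ ⟨g, h⟩ : ℂˣ) : ℂ) := dif_pos h

omit [Fintype G] in
lemma ext_pow (ψ : T →* ℂˣ) (t : ℕ) {g : G} (h : g ∈ T) : extZ (ψ ^ t) g = extZ ψ g ^ t := by
  rw [ext_of h, ext_of h]
  simp

lemma ext_root (ψ : T →* ℂˣ) {g : G} (h : g ∈ T) : extZ ψ g ^ orderOf ψ = 1 := by
  rw [← ext_pow ψ _ h, pow_orderOf_eq_one, ext_of h]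
  simp

lemma order_pos (ψ : T →* ℂˣ) : 0 < orderOf ψ := by
  have : ψ ^ Nat.card T = 1 := by
    ext x
    have h1 := pow_card_eq_one' (x := x)
    have h2 : (ψ x) ^ Nat.card T = 1 := by rw [← map_pow, h1, map_one]
    have h3 : (ψ ^ Nat.card T) x = ψ x ^ Nat.card T := rfl
    rw [h3, h2]
    rfl
  exact orderOf_pos_iff.2 (isOfFinOrder_iff_pow_eq_one.2 ⟨_, Nat.card_pos, this⟩)

omit [Fintype G] in
lemma w_conj (hD : Dih T w) {y : G} : w⁻¹ * y * w ∈ T ↔ y ∈ T := by
  have hw : w⁻¹ = w := inv_eq_of_mul_eq_one_left hD.sq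
  rw [hw]
  constructor
  · intro h
    have h1 := hD.inv _ h
    have h2 : w * (w * y * w) * w = y := by
      have : w * (w * y * w) * w = (w * w) * y * (w * w) := by group
      rw [this, hD.sq]
      simp
    rw [h2] at h1
    rw [h1]
    exact T.inv_mem h
  · intro h
    rw [hD.inv _ h]
    exact T.inv_mem h

/-- `Ind_T ψ` is real -/
lemma real (hD : Dih T w) (ψ : T →* ℂˣ) (g : G) :
    conj (indFun T (extZ ψ) g) = indFun T (extZ ψ) g := by
  have hw : w⁻¹ = w := inv_eq_of_mul_eq_one_left hD.sq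
  have h1 : conj (indFun T (extZ ψ) g) = indFun T (fun x => conj (extZ ψ x)) g :=
    map_indFun (starRingEnd ℂ) T _ g
  rw [h1]
  unfold indFun
  congr 1
  rw [← Equiv.sum_comp (Equiv.mulRight w) fun x => if x⁻¹ * g * x ∈ T then
    extZ ψ (x⁻¹ * g * x) else 0]
  refine Finset.sum_congr rfl fun x _ => ?_
  have h2 : ((Equiv.mulRight w) x)⁻¹ * g * (Equiv.mulRight w) x = w⁻¹ * (x⁻¹ * g * x) * w := by
    simp only [Equiv.coe_mulRight]
    group
  rw [h2]
  by_cases hx : x⁻¹ * g * x ∈ T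
  · have hx' := (w_conj hD).2 hx
    rw [if_pos hx, if_pos hx']
    have h3 : w⁻¹ * (x⁻¹ * g * x) * w = (x⁻¹ * g * x)⁻¹ := by
      rw [hw]
      exact hD.inv _ hx
    have h4 : extZ ψ (x⁻¹ * g * x)⁻¹ = (extZ ψ (x⁻¹ * g * x))⁻¹ := by
      rw [ext_of hx, ext_of (T.inv_mem hx)]
      have : (⟨(x⁻¹ * g * x)⁻¹, T.inv_mem hx⟩ : T) = ⟨x⁻¹ * g * x, hx⟩⁻¹ := rfl
      rw [this, map_inv]
      simp
    rw [h3, h4]
    have h5 := Complex.norm_eq_one_of_pow_eq_one (ext_root ψ hx) (order_pos ψ).ne'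
    exact (Complex.inv_eq_conj h5).symm
  · rw [if_neg hx, if_neg fun h => hx ((w_conj hD).1 h)]

/-- an element with a value of maximal order -/
lemma exists_val (ψ : T →* ℂˣ) : ∃ y ∈ T, IsPrimitiveRoot (extZ ψ y) (orderOf ψ) := by
  obtain ⟨⟨_, y, rfl⟩, hy⟩ := IsCyclic.exists_generator (α := ψ.range)
  refine ⟨y.1, y.2, ?_⟩
  have h1 : extZ ψ y.1 = ((ψ y : ℂˣ) : ℂ) := ext_of y.2
  have h2 : orderOf ψ ∣ orderOf (ψ y) := by
    rw [orderOf_dvd_iff_pow_eq_one]
    ext x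
    obtain ⟨k, hk⟩ := hy ⟨ψ x, x, rfl⟩
    have h3 : ψ y ^ k = ψ x := congrArg Subtype.val hk
    have h4 : ψ x ^ orderOf (ψ y) = 1 := by
      rw [← h3, ← zpow_natCast, ← zpow_mul, mul_comm, zpow_mul, zpow_natCast, pow_orderOf_eq_one,
        one_zpow]
    simp [h4]
  have h3 : orderOf (ψ y) ∣ orderOf ψ := by
    rw [orderOf_dvd_iff_pow_eq_one]
    have h4 : (ψ ^ orderOf ψ) y = ψ y ^ orderOf ψ := rfl
    rw [← h4, pow_orderOf_eq_one]
    rfl
  rw [h1, Nat.dvd_antisymm h2 h3]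
  exact IsPrimitiveRoot.coe_units_iff.2 (IsPrimitiveRoot.orderOf (ψ y))

end

/-- the two exponents -/
lemma two_exp {ζ : ℂ} {r t : ℕ} (hζ : IsPrimitiveRoot ζ r) (hr : 3 ≤ r) (ht : t < r)
    (h : ζ ^ t + (ζ ^ t)⁻¹ = ζ + ζ⁻¹) : t = 1 ∨ t = r - 1 := by
  have h0 : ζ ≠ 0 := hζ.ne_zero (by omega)
  have h1 : ζ ^ t ≠ 0 := pow_ne_zero _ h0
  have h2 : (ζ ^ t - ζ) * (ζ ^ (t + 1) - 1) = 0 := by
    have h3 : (ζ ^ t + (ζ ^ t)⁻¹) * (ζ ^ t * ζ) = (ζ + ζ⁻¹) * (ζ ^ t * ζ) := by rw [h]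
    have h4 : (ζ ^ t + (ζ ^ t)⁻¹) * (ζ ^ t * ζ) = ζ ^ t * ζ ^ t * ζ + ζ := by
      field_simp
    have h5 : (ζ + ζ⁻¹) * (ζ ^ t * ζ) = ζ * ζ ^ t * ζ + ζ ^ t := by
      field_simp
    rw [h4, h5] at h3
    rw [pow_succ]
    linear_combination h3
  rcases mul_eq_zero.1 h2 with h3 | h3
  · left
    have h4 : ζ ^ t = ζ ^ 1 := by rw [pow_one]; exact sub_eq_zero.1 h3
    exact hζ.pow_inj ht (by omega) h4
  · right
    have h4 : r ∣ t + 1 := hζ.dvd_of_pow_eq_one _ (sub_eq_zero.1 h3)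
    have h5 := Nat.le_of_dvd (Nat.succ_pos t) h4
    omega

end QTRx

open QTRx in
theorem QTR_thm : Stmt_QTR := by
  intro hQVT hQDI hsig hF G _ _ T w ψ e R χ hD h3 he hR hχ
  obtain ⟨θ, hθ, hθs⟩ := hQDI G T w ψ hD h3
  have he0 : (e : ℂ) ≠ 0 := by rcases he with rfl | rfl <;> norm_num
  obtain ⟨m, HR, cR, hRs⟩ := hR
  have hR : PermC R := ⟨m, HR, cR, hRs⟩
  have hr0 : 0 < orderOf ψ := by omega
  obtain ⟨r, hr⟩ : ∃ r, r = orderOf ψ := ⟨_, rfl⟩
  -- the terms
  let H : Fin (m + 1) → Subgroup G := Fin.cons T HR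
  let Ps : ∀ i, H i →* ℂˣ := Fin.cons (α := fun i => H i →* ℂˣ) ψ fun i => (1 : HR i →* ℂˣ)
  let c : Fin (m + 1) → ℤ := Fin.cons e cR
  have hψn : ∀ i, Ps i ^ orderOf ψ = 1 := by
    intro i
    refine Fin.cases ?_ (fun j => ?_) i
    · exact pow_orderOf_eq_one ψ
    · exact one_pow (M := HR j →* ℂˣ) _
  have hP0 : ∀ (t : ℕ) (g : G), indFun (H 0) (extZ (Ps 0 ^ t)) g = indFun T (extZ (ψ ^ t)) g :=
    fun t g => rfl
  have hPs : ∀ (t : ℕ) (j : Fin m) (g : G), indFun (H j.succ) (extZ (Ps j.succ ^ t)) g =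
      indFun (HR j) (fun _ => 1) g := fun t j g => by
    have h : Ps j.succ ^ t = (1 : HR j →* ℂˣ) := one_pow (M := HR j →* ℂˣ) t
    rw [h]
    exact indFun_one (HR j) g
  have hPs1 : ∀ (j : Fin m) (g : G), indFun (H j.succ) (extZ (Ps j.succ)) g =
      indFun (HR j) (fun _ => 1) g := fun j g => indFun_one (HR j) g
  have hchi : ∀ g, χ g = ∑ i, (c i : ℂ) * indFun (H i) (extZ (Ps i)) g := by
    intro g
    rw [Fin.sum_univ_succ, hχ g, hRs g]
    congr 1
    refine Finset.sum_congr rfl fun j _ => ?_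
    rw [hPs1]
    rfl
  obtain ⟨e', he', hcard, hfin, htr⟩ := hF G (orderOf ψ) 1 (m + 1) χ H Ps c hr0 one_pos hψn
    (fun g => by rw [Nat.cast_one, one_mul]; exact hchi g)
  -- an automorphism on `χ`
  have hσχ : ∀ (σ : ℂ →+* ℂ) (g : G), σ (χ g) = (e : ℂ) * indFun T (fun x => σ (extZ ψ x)) g +
      R g := by
    intro σ g
    rw [hχ g, map_add, map_mul, map_intCast, map_indFun, map_perm σ hR]
  have hreal : ∀ g, conj (χ g) = χ g := by
    intro g
    rw [hσχ (starRingEnd ℂ) g, ← map_indFun (starRingEnd ℂ) T (extZ ψ) g, real hD ψ g, hχ g]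
  obtain ⟨y, hyT, hy⟩ := exists_val ψ
  have hy1 : y ≠ 1 := by
    rintro rfl
    have h1 : extZ ψ 1 = 1 := by
      rw [ext_of T.one_mem]
      have : (⟨1, T.one_mem⟩ : T) = 1 := rfl
      rw [this, map_one]
      rfl
    rw [h1] at hy
    have := hy.unique IsPrimitiveRoot.one
    omega
  have hset : (((Finset.range (orderOf ψ)).filter fun t => (orderOf ψ).Coprime t).filter
      fun t => ∀ σ : ℂ ≃+* ℂ, (∀ z : ℂ, z ^ orderOf ψ = 1 → σ z = z ^ t) →
        ∀ g, σ (χ g) = χ g) = {1, orderOf ψ - 1} := by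
    ext t
    rw [Finset.mem_filter, Finset.mem_filter, Finset.mem_range, Finset.mem_insert,
      Finset.mem_singleton]
    constructor
    · rintro ⟨⟨ht, hco⟩, h⟩
      obtain ⟨σ, hσ⟩ := hsig (orderOf ψ) t hr0 hco
      have h1 := h σ hσ y
      have h2 : σ (χ y) = (e : ℂ) * σ (indFun T (extZ ψ) y) + R y := by
        have := hσχ (σ : ℂ →+* ℂ) y
        rw [← map_indFun] at this
        exact this
      rw [h2, hχ y, hQVT G T w ψ hD y hyT hy1] at h1
      have h4 := mul_left_cancel₀ he0 (add_right_cancel h1)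
      rw [map_add, map_inv₀, hσ _ (ext_root ψ hyT)] at h4
      exact two_exp hy h3 ht h4
    · intro h
      have hco : (orderOf ψ).Coprime t := by
        rcases h with rfl | rfl
        · exact Nat.coprime_one_right _
        · have : (orderOf ψ - 1).Coprime (orderOf ψ - 1 + 1) := by simp
          rw [Nat.sub_add_cancel hr0] at this
          exact this.symm
      refine ⟨⟨by rcases h with rfl | rfl <;> omega, hco⟩, fun σ hσ g => ?_⟩
      have h2 := hσχ (σ : ℂ →+* ℂ) g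
      have h4 : indFun T (fun x => (σ : ℂ →+* ℂ) (extZ ψ x)) g = indFun T (extZ ψ) g := by
        rcases h with rfl | rfl
        · refine indFun_congr T _ _ (fun x hx => ?_) g
          have := hσ _ (ext_root ψ hx)
          rw [pow_one] at this
          exact this
        · have h5 : indFun T (fun x => (σ : ℂ →+* ℂ) (extZ ψ x)) g =
              indFun T (fun x => (starRingEnd ℂ) (extZ ψ x)) g := by
            refine indFun_congr T _ _ (fun x hx => ?_) g
            have h6 := hσ _ (ext_root ψ hx)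
            have h7 := Complex.norm_eq_one_of_pow_eq_one (ext_root ψ hx) hr0.ne'
            have h8 : extZ ψ x ≠ 0 := by
              intro h9
              rw [h9, norm_zero] at h7
              exact zero_ne_one h7
            have h10 : extZ ψ x ^ (orderOf ψ - 1) * extZ ψ x = 1 := by
              rw [← pow_succ, Nat.sub_add_cancel hr0]
              exact ext_root ψ hx
            have h11 : extZ ψ x ^ (orderOf ψ - 1) = (extZ ψ x)⁻¹ := eq_inv_of_mul_eq_one_left h10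
            change σ (extZ ψ x) = _
            rw [h6, h11, Complex.inv_eq_conj h7]
          rw [h5, ← map_indFun (starRingEnd ℂ) T (extZ ψ) g]
          exact real hD ψ g
      rw [h4] at h2
      change σ (χ g) = _ at h2
      rw [h2, hχ g]
  have he2 : e' = 2 := by
    rw [hcard, hset, Finset.card_pair]
    omega
  have hfin2 : 2 * Module.finrank ℚ (StarkP.charField χ) = (orderOf ψ).totient := by
    rw [← hfin, he2]
  refine ⟨orderOf ψ, h3, ⟨m + 1, H, Ps, c, hψn, hchi⟩, ?_, hfin2, hreal⟩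
  have hfun : StarkP.trChar χ = fun g => (e : ℂ) * θ g +
      ((Module.finrank ℚ (StarkP.charField χ) : ℤ) : ℂ) * R g := by
    funext g
    have h1 := htr g
    have hc0 : (c 0 : ℂ) = (e : ℂ) := rfl
    have hcs : ∀ j : Fin m, (c j.succ : ℂ) = (cR j : ℂ) := fun j => rfl
    have hphi : (((Finset.range (orderOf ψ)).filter fun t => (orderOf ψ).Coprime t).card : ℂ) =
        2 * (Module.finrank ℚ (StarkP.charField χ) : ℂ) := by
      have h2 : ((Finset.range (orderOf ψ)).filter fun t => (orderOf ψ).Coprime t).card =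
        (orderOf ψ).totient := rfl
      rw [h2, ← hfin2]
      push_cast
      ring
    rw [Fin.sum_univ_succ] at h1
    simp only [hP0, hPs, hcs, hc0, Finset.sum_const, nsmul_eq_mul, hphi] at h1
    rw [hθs g, he2] at h1
    have h2 : ∑ j : Fin m, (cR j : ℂ) * (2 * (Module.finrank ℚ (StarkP.charField χ) : ℂ) *
        indFun (HR j) (fun _ => 1) g) =
        2 * (Module.finrank ℚ (StarkP.charField χ) : ℂ) * R g := by
      rw [hRs g, Finset.mul_sum]
      refine Finset.sum_congr rfl fun j _ => ?_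
      ring
    rw [h2] at h1
    push_cast at h1 ⊢
    linear_combination (1 / 2 : ℂ) * h1
  rw [hfun]
  exact perm_comb hθ hR e _

end StarkC.ABS
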