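import Pool.Agent.ABS.StQ

/-!
# Project ABS, part Q, module QVB: other values of the induced functions (helper61)
-/

set_option autoImplicit false

open scoped Classical MatrixGroups ComplexConjugate

namespace StarkC.ABS

namespace QVBx

variable {G : Type} [Group G] [Fintype G]

theorem ind_zero (H : Subgroup G) (f : G → ℂ) (g : G) (h : ∀ x, x⁻¹ * g * x ∉ H) :
    indFun H f g = 0 := by
  unfold indFun
  rw [Finset.sum_eq_zero fun x _ => if_neg (h x), zero_div]

theorem ind_at_one (H : Subgroup G) (f : G → ℂ) (hf : f 1 = 1) :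
    indFun H f 1 = (Fintype.card G : ℂ) / (Nat.card H : ℂ) := by
  unfold indFun
  have h1 : ∀ x : G, (if x⁻¹ * 1 * x ∈ H then f (x⁻¹ * 1 * x) else 0) = 1 := by
    intro x
    have h2 : x⁻¹ * 1 * x = 1 := by group
    rw [h2, if_pos H.one_mem, hf]
  rw [Finset.sum_congr rfl fun x _ => h1 x, Finset.sum_const, Finset.card_univ, nsmul_eq_mul,
    mul_one]

theorem extZ_one {H : Subgroup G} (ψ : H →* ℂˣ) : extZ ψ 1 = 1 := by
  unfold extZ
  rw [dif_pos H.one_mem]
  have h1 : (⟨1, H.one_mem⟩ : H) = 1 := rfl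
  rw [h1, map_one, Units.val_one]

theorem sum_mem (H : Subgroup G) : (∑ x : G, if x ∈ H then (1 : ℂ) else 0) =
    (Nat.card H : ℂ) := by
  rw [Finset.sum_boole, Nat.card_eq_fintype_card, Fintype.card_subtype]

theorem card_ne (H : Subgroup G) : (Nat.card H : ℂ) ≠ 0 := by
  have h1 : 0 < Nat.card H := Nat.card_pos
  exact_mod_cast h1.ne'

/-- The functions `1` and `extZ 1` give the same induced function. -/
theorem ind_one (H : Subgroup G) (g : G) :
    indFun H (fun _ => 1) g = indFun H (extZ (1 : H →* ℂˣ)) g := by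
  unfold indFun
  congr 1
  refine Finset.sum_congr rfl fun x _ => ?_
  by_cases h : x⁻¹ * g * x ∈ H
  · rw [if_pos h, if_pos h]
    unfold extZ
    rw [dif_pos h]
    rfl
  · rw [if_neg h, if_neg h]

variable {q d : ℕ} (b : TB G q d)

theorem T_le (t : G) (ht : t ∈ b.T) : t ∈ b.B :=
  (b.mem_B t).2 ⟨1, b.U.one_mem, t, ht, (one_mul t).symm⟩

theorem U_le (u : G) (hu : u ∈ b.U) : u ∈ b.B :=
  (b.mem_B u).2 ⟨u, hu, 1, b.T.one_mem, (mul_one u).symm⟩

/-- No conjugate of an element of `B` other than `1` is in `N`. -/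
theorem not_N (g : G) (hg : g ∈ b.B) (h1 : g ≠ 1) (x : G) : x⁻¹ * g * x ∉ b.N := by
  intro h
  have h2 : x⁻¹ * g * x ≠ 1 := by
    intro h3
    apply h1
    calc g = x * (x⁻¹ * g * x) * x⁻¹ := by group
      _ = 1 := by rw [h3]; group
  have h3 := b.N_B _ h h2 x⁻¹
  apply h3
  have h4 : x⁻¹⁻¹ * (x⁻¹ * g * x) * x⁻¹ = g := by group
  rw [h4]
  exact hg

/-- No conjugate of an element of `U` other than `1` is in `T`. -/
theorem not_T (hUT : ∀ g ∈ b.U, g ∈ b.T → g = 1) (u : G) (hu : u ∈ b.U) (h1 : u ≠ 1) (x : G) :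
    x⁻¹ * u * x ∉ b.T := by
  intro h
  have h2 := b.fus_U u hu h1 x (T_le b _ h)
  obtain ⟨v, hv, t, ht, rfl⟩ := (b.mem_B x).1 h2
  have h3 : (v * t)⁻¹ * u * (v * t) = t⁻¹ * u * t := by
    have h4 : v⁻¹ * u * v = u := by
      rw [mul_assoc, b.U_comm u hu v hv]
      group
    calc (v * t)⁻¹ * u * (v * t) = t⁻¹ * (v⁻¹ * u * v) * t := by group
      _ = t⁻¹ * u * t := by rw [h4]
  rw [h3] at h
  have h5 := hUT _ (b.T_U t ht u hu) h
  apply h1
  calc u = t * (t⁻¹ * u * t) * t⁻¹ := by group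
    _ = 1 := by rw [h5]; group

theorem conj_mem (x g : G) (hx : x ∈ b.B) (hg : g ∈ b.B) : x⁻¹ * g * x ∈ b.B :=
  b.B.mul_mem (b.B.mul_mem (b.B.inv_mem hx) hg) hx

/-- The value of `Ind_B 1` at the elements of `U`. -/
theorem ind_B_u (u : G) (hu : u ∈ b.U) (h1 : u ≠ 1) : indFun b.B (fun _ => 1) u = 1 := by
  unfold indFun
  have h2 : ∀ x : G, (if x⁻¹ * u * x ∈ b.B then (1 : ℂ) else 0) = if x ∈ b.B then 1 else 0 := by
    intro x
    by_cases hx : x ∈ b.B
    · rw [if_pos hx, if_pos (conj_mem b x u hx (U_le b u hu))]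
    · rw [if_neg hx, if_neg fun h => hx (b.fus_U u hu h1 x h)]
  rw [Finset.sum_congr rfl fun x _ => h2 x, sum_mem, div_self (card_ne b.B)]

/-- The value of `Ind_B 1` at the elements of `T`. -/
theorem ind_B_t (t : G) (ht : t ∈ b.T) (h1 : t ≠ 1) : indFun b.B (fun _ => 1) t = 2 := by
  unfold indFun
  have hw : b.w⁻¹ = b.w := inv_eq_of_mul_eq_one_left b.w_sq
  have h2 : ∀ x : G, (if x⁻¹ * t * x ∈ b.B then (1 : ℂ) else 0) =
      (if x ∈ b.B then 1 else 0) + if b.w * x ∈ b.B then 1 else 0 := by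
    intro x
    by_cases hx : x ∈ b.B
    · have h3 : b.w * x ∉ b.B := by
        intro h
        apply b.w_B
        have h4 := b.B.mul_mem h (b.B.inv_mem hx)
        rwa [mul_assoc, mul_inv_cancel, mul_one] at h4
      rw [if_pos hx, if_neg h3, if_pos (conj_mem b x t hx (T_le b t ht)), add_zero]
    · by_cases hwx : b.w * x ∈ b.B
      · have h3 : x⁻¹ * t * x ∈ b.B := by
          have h4 : x⁻¹ * t * x = (b.w * x)⁻¹ * t⁻¹ * (b.w * x) := by
            rw [← b.w_T t ht, mul_inv_rev, hw]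
            have h5 : b.w * (b.w * t * b.w) * (b.w * x) = t * x := by
              calc b.w * (b.w * t * b.w) * (b.w * x) = (b.w * b.w) * t * ((b.w * b.w) * x) := by
                    group
                _ = t * x := by rw [b.w_sq, one_mul, one_mul]
            calc x⁻¹ * t * x = x⁻¹ * (t * x) := by group
              _ = x⁻¹ * (b.w * (b.w * t * b.w) * (b.w * x)) := by rw [h5]
              _ = x⁻¹ * b.w * (b.w * t * b.w) * (b.w * x) := by group
          rw [h4]
          exact conj_mem b _ _ hwx (b.B.inv_mem (T_le b t ht))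
        rw [if_neg hx, if_pos hwx, if_pos h3, zero_add]
      · rw [if_neg hx, if_neg hwx, if_neg, add_zero]
        intro h
        rcases b.fus_T t ht h1 x h with h3 | h3
        · exact hx h3
        · exact hwx h3
  have h3 : (∑ x : G, if b.w * x ∈ b.B then (1 : ℂ) else 0) =
      ∑ x : G, if x ∈ b.B then (1 : ℂ) else 0 :=
    Equiv.sum_comp (Equiv.mulLeft b.w) fun x => if x ∈ b.B then (1 : ℂ) else 0
  rw [Finset.sum_congr rfl fun x _ => h2 x, Finset.sum_add_distrib, h3, sum_mem]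
  have h4 := card_ne b.B
  field_simp
  norm_num

end QVBx

open QVBx in
theorem QVB_thm : Stmt_QVB := by
  intro hDH hVT G _ _ q d b
  obtain ⟨hT, hN, hUT, hcB⟩ := hDH G q d b
  refine ⟨fun t ht h1 => ⟨?_, fun φ => ind_zero _ _ _ (not_N b t (T_le b t ht) h1)⟩,
    fun u hu h1 => ⟨?_, fun ψ => ind_zero _ _ _ (not_T b hUT u hu h1),
      fun φ => ind_zero _ _ _ (not_N b u (U_le b u hu) h1)⟩,
    fun y hy h1 => ⟨?_, fun ψ => ind_zero _ _ _ fun x h => b.N_B y hy h1 x (T_le b _ h)⟩,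
    fun ψ => ind_at_one _ _ (extZ_one ψ), fun φ => ind_at_one _ _ (extZ_one φ), ?_⟩
  · unfold TB.tau
    rw [ind_one b.T t, hVT G b.T b.w 1 hT t ht h1, ind_B_t b t ht h1]
    have h2 : extZ (1 : b.T →* ℂˣ) t = 1 := by
      unfold extZ
      rw [dif_pos ht]
      rfl
    rw [h2]
    norm_num
  · unfold TB.tau
    rw [ind_zero b.T _ u (not_T b hUT u hu h1), ind_B_u b u hu h1]
    norm_num
  · unfold TB.tau
    rw [ind_zero b.T _ y fun x h => b.N_B y hy h1 x (T_le b _ h),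
      ind_zero b.B _ y fun x h => b.N_B y hy h1 x h, sub_zero]
  · unfold TB.tau
    rw [ind_at_one b.T _ rfl, ind_at_one b.B _ rfl, hcB]
    have h1 : (d : ℂ) * (Fintype.card G : ℂ) = (q : ℂ) * ((q : ℂ) ^ 2 - 1) := by
      exact_mod_cast congrArg (Int.cast : ℤ → ℂ) b.card
    have h2 : (d : ℂ) * (Nat.card b.T : ℂ) = (q : ℂ) - 1 := by
      exact_mod_cast congrArg (Int.cast : ℤ → ℂ) b.card_T
    have h3 := card_ne b.T
    have hd : d ≠ 0 := by
      rintro rfl
      have h4 := b.card_N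
      push_cast at h4
      rw [zero_mul] at h4
      omega
    have hd' : (d : ℂ) ≠ 0 := Nat.cast_ne_zero.2 hd
    have hq : q ≠ 0 := by
      rw [← b.card_U]
      exact Nat.card_pos.ne'
    have hq' : (q : ℂ) ≠ 0 := Nat.cast_ne_zero.2 hq
    push_cast
    apply mul_left_cancel₀ (mul_ne_zero hd' (mul_ne_zero hq' h3))
    have e1 : (d : ℂ) * ((q : ℂ) * (Nat.card b.T : ℂ)) *
        ((Fintype.card G : ℂ) / (Nat.card b.T : ℂ) -
          (Fintype.card G : ℂ) / ((q : ℂ) * (Nat.card b.T : ℂ))) =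
        (d : ℂ) * (Fintype.card G : ℂ) * ((q : ℂ) - 1) := by
      field_simp
    rw [e1, h1]
    have e2 : (d : ℂ) * ((q : ℂ) * (Nat.card b.T : ℂ)) * ((q : ℂ) ^ 2 - 1) =
        (d : ℂ) * (Nat.card b.T : ℂ) * (q : ℂ) * ((q : ℂ) ^ 2 - 1) := by ring
    rw [e2, h2]
    ring

end StarkC.ABS
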