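import Pool.Agent.ABS.StQ

/-!
# ABS part Q, module QVT: values of `Ind_T ψ` on `T` (helper59)
-/

set_option autoImplicit false

open scoped Classical

namespace StarkC.ABS

namespace QVTx

theorem card_eq {G : Type} [Group G] [Fintype G] (T : Subgroup G) (c : ℂ) :
    ∑ x : G, (if x ∈ T then c else 0) = (Nat.card T : ℂ) * c := by
  rw [← Finset.sum_filter, Finset.sum_const, nsmul_eq_mul]
  congr 2
  rw [Nat.card_eq_fintype_card, Fintype.card_subtype]

end QVTx

theorem QVT_thm : Stmt_QVT := by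
  intro G _ _ T w ψ h t ht ht1
  have hti : t⁻¹ ∈ T := T.inv_mem ht
  have hft : extZ ψ t = ((ψ ⟨t, ht⟩ : ℂˣ) : ℂ) := by simp [extZ, ht]
  have hfi : extZ ψ t⁻¹ = (extZ ψ t)⁻¹ := by
    have h1 : extZ ψ t⁻¹ = ((ψ ⟨t⁻¹, hti⟩ : ℂˣ) : ℂ) := by simp [extZ, ht]
    have h2 : (⟨t⁻¹, hti⟩ : T) = (⟨t, ht⟩ : T)⁻¹ := rfl
    rw [h1, hft, h2, map_inv, Units.val_inv_eq_inv_val]
  have hterm : ∀ x : G, (if x⁻¹ * t * x ∈ T then extZ ψ (x⁻¹ * t * x) else 0) =
      (if x ∈ T then extZ ψ t else 0) + (if w * x ∈ T then (extZ ψ t)⁻¹ else 0) := by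
    intro x
    by_cases hx : x ∈ T
    · have h1 : x⁻¹ * t * x = t := by
        rw [mul_assoc, h.comm t ht x hx, inv_mul_cancel_left]
      have h2 : w * x ∉ T := fun h3 => h.not_mem (by
        have := T.mul_mem h3 (T.inv_mem hx)
        rwa [mul_inv_cancel_right] at this)
      rw [h1, if_pos ht, if_pos hx, if_neg h2, add_zero]
    · by_cases hwx : w * x ∈ T
      · have h1 : x⁻¹ * t * x = t⁻¹ := by
          have e : x = w * (w * x) := by rw [← mul_assoc, h.sq, one_mul]
          have hwi : w⁻¹ = w := inv_eq_of_mul_eq_one_left h.sq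
          have e2 : x⁻¹ * t * x = (w * x)⁻¹ * ((w * t * w) * (w * x)) := by
            rw [mul_inv_rev, hwi]
            simp only [mul_assoc]
            rw [← mul_assoc w w (t * _), h.sq, one_mul, ← mul_assoc w w x, h.sq, one_mul]
          rw [e2, h.inv t ht, h.comm _ hti _ hwx, inv_mul_cancel_left]
        rw [h1, if_pos hti, if_neg hx, if_pos hwx, zero_add, hfi]
      · have h1 : x⁻¹ * t * x ∉ T := fun h2 => by
          rcases h.fus t ht ht1 x h2 with h3 | h3
          · exact hx h3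
          · exact hwx h3
        rw [if_neg h1, if_neg hx, if_neg hwx, add_zero]
  have hs2 : ∑ x : G, (if w * x ∈ T then (extZ ψ t)⁻¹ else 0) =
      (Nat.card T : ℂ) * (extZ ψ t)⁻¹ := by
    rw [← QVTx.card_eq T]
    exact Fintype.sum_equiv (Equiv.mulLeft w) _ _ (fun x => rfl)
  have hT : (Nat.card T : ℂ) ≠ 0 := by
    have : 0 < Nat.card T := Nat.card_pos
    exact_mod_cast this.ne'
  unfold indFun
  rw [Finset.sum_congr rfl (fun x _ => hterm x), Finset.sum_add_distrib, QVTx.card_eq, hs2,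
    ← mul_add, mul_div_cancel_left₀ _ hT]

end StarkC.ABS
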