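import Pool.Agent.ABS.QNB
import Pool.Agent.ABS.FGM
import Pool.Agent.ABS.QDH
import Pool.Agent.ABS.QVT
import Pool.Agent.ABS.QVB
import Pool.Agent.ABS.QBB
import Pool.Agent.ABS.QNT
import Pool.Agent.ABS.QD1
import Pool.Agent.ABS.QDU
import Pool.Agent.ABS.QIN
import Pool.Agent.ABS.QEQ
import Pool.Agent.ABS.QCA
import Pool.Agent.ABS.QC1R
import Pool.Agent.ABS.QC2
import Pool.Agent.ABS.QC3
import Pool.Agent.ABS.QDI
import Pool.Agent.ABS.QTR
import Pool.Agent.ABS.QSQ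
import Pool.Agent.ABS.QMJ
import Pool.Agent.ABS.QMN
import Pool.Agent.ABS.QMC
import Pool.Agent.ABS.QMA
import Pool.Agent.ABS.QSB
import Pool.Agent.ABS.QTP
import Pool.Agent.ABS.QPS
import Pool.Agent.ABS.QPG
import Pool.Agent.ABS.QFA

/-!
# Project ABS (MP_46b841_nt), part Q: assembly (helper91)

All irreducible representations whose image is isomorphic to `PSL_2(k)` (`q ≥ 4`) or `PGL_2(k)`, `k` a
finite field with `q` elements.
-/

set_option autoImplicit false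

open NumberField IsDedekindDomain
open scoped TensorProduct Classical MatrixGroups ComplexConjugate

namespace StarkC.ABS

namespace FINQx

theorem qbase : QBase :=
  ⟨QNT_thm PFR_thm QDH_thm QVT_thm QVB_thm QBB_thm,
    QD1_thm (QNT_thm PFR_thm QDH_thm QVT_thm QVB_thm QBB_thm), QIN_thm PFR_thm⟩

theorem qtr (G : Type) [Group G] [Fintype G] (T : Subgroup G) (w : G) (ψ : T →* ℂˣ) (e : ℤ)
    (R χ : G → ℂ) (hD : Dih T w) (h3 : 3 ≤ orderOf ψ) (he : e = 1 ∨ e = -1) (hR : PermC R)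
    (hχ : ∀ g, χ g = (e : ℂ) * indFun T (extZ ψ) g + R g) : OutQ χ :=
  QTR_thm QVT_thm QDI_thm SIGT_thm
    (fun G _ _ n m r χ H ψ c hn hm hψ hχ => (FCH_thm SIGT_thm TRT_thm G n m r χ H ψ c hn hm hψ hχ).2)
    G T w ψ e R χ hD h3 he hR hχ

theorem qc1 : Stmt_QC1 := by
  intro hB hE G V _ _ q d b _ _ _ ρ a₀ s n m hM hρ
  rcases QC1R_thm hB hE G V q d b ρ a₀ s n m hM hρ with h | h | h | h
  · exact Or.inl h
  · exact Or.inr (Or.inl h)
  · exact Or.inr (Or.inr (Or.inl h.1))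
  · exact Or.inr (Or.inr (Or.inr h))

theorem qfa (G V : Type) [Group G] [Fintype G] (q : ℕ) [AddCommGroup V] [Module ℂ V]
    [Module.Finite ℂ V] (ρ : Representation ℂ G V) (hρ : ρ.IsIrreducible) :
    ((∃ b : TB G q 1, Even q ∨ ∃ P : Subgroup G, TS b P) →
      OutQ ρ.character ∨ PermC ρ.character) ∧
    (Nonempty (TB G q 2) → commutator G = ⊤ →
      OutQ ρ.character ∨ PermC ρ.character ∨
      (q % 4 = 3 ∧ 2 * Module.finrank ℂ V + 1 = q ∨
        q % 4 = 1 ∧ 2 * Module.finrank ℂ V = q + 1)) :=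
  QFA_thm qbase QEQ_thm QDU_thm QDH_thm
    (QCA_thm QDH_thm QBB_thm QDU_thm (QIN_thm PFR_thm)) qc1 QC2_thm QC3_thm QBB_thm
    qtr G V q ρ hρ

/-- The half characters when `q` is a square. -/
theorem half_sq (k G V : Type) [Field k] [Fintype k] [Group G] [Fintype G] [AddCommGroup V]
    [Module ℂ V] [Module.Finite ℂ V] (ρ : Representation ℂ G V) (h5 : 5 ≤ Fintype.card k)
    (hsq : IsSquare (Fintype.card k)) (hG : Nonempty (G ≃* PSL(2, k))) (hρ : ρ.IsIrreducible)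
    (hdim : Fintype.card k % 4 = 3 ∧ 2 * Module.finrank ℂ V + 1 = Fintype.card k ∨
      Fintype.card k % 4 = 1 ∧ 2 * Module.finrank ℂ V = Fintype.card k + 1) :
    PermC ρ.character := by
  obtain ⟨e, hQ, hd⟩ : ∃ e : ℤ, GoodQ k e ∧
      2 * (Module.finrank ℂ V : ℤ) = (Fintype.card k : ℤ) - e := by
    rcases hdim with ⟨h3, hd⟩ | ⟨h1, hd⟩
    · exact ⟨1, ⟨h5, Or.inl ⟨rfl, h3⟩⟩, by omega⟩
    · exact ⟨-1, ⟨h5, Or.inr ⟨rfl, h1⟩⟩, by omega⟩
  obtain ⟨d⟩ := PM6_thm PM1_thm PM2_thm PM3_thm PM4_thm PM5_thm k G e hQ hG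
  have hnt : ¬ ∀ g, ρ g = 1 := by
    intro h
    have := PSLx.finrank_le_of_trivial ρ hρ h
    rcases hdim with ⟨_, hd'⟩ | ⟨_, hd'⟩ <;> omega
  obtain ⟨ψ, hψ, hu⟩ := PRU_thm PGS_thm k G V e d ρ hQ hd hnt
  have heq := PEQ_thm PGS_thm PNO_thm PIN_thm PFR_thm PVU_thm PVD_thm k G V e d ρ ψ hQ hρ hd hψ hu
  have hfun : ρ.character = d.chi ψ := funext heq
  rw [hfun]
  exact QSQ_thm PUH_thm FGN_thm k G e d ψ hQ hsq hψ

/-- The conclusion of the group theory. -/
def OutH {G : Type} [Group G] [Fintype G] (χ : G → ℂ) : Prop :=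
  ∃ p : ℕ, p.Prime ∧ p ≠ 2 ∧ MonC p χ ∧ PermC (StarkP.trChar χ) ∧
    Module.finrank ℚ (StarkP.charField χ) = 2

theorem group (k G V : Type) [Field k] [Fintype k] [Group G] [Fintype G] [AddCommGroup V]
    [Module ℂ V] [Module.Finite ℂ V] (ρ : Representation ℂ G V) (hρ : ρ.IsIrreducible)
    (hG : (4 ≤ Fintype.card k ∧ Nonempty (G ≃* PSL(2, k))) ∨ Nonempty (G ≃* PGL(2, k))) :
    OutQ ρ.character ∨ PermC ρ.character ∨ OutH ρ.character := by
  rcases hG with ⟨h4, hG⟩ | hG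
  · obtain ⟨hperf, hodd, heven⟩ :=
      QPS_thm QMJ_thm QMN_thm QMC_thm QMA_thm QSB_thm QTP_thm k G h4 hG
    rcases Nat.even_or_odd (Fintype.card k) with he | ho
    · obtain ⟨b⟩ := heven he
      rcases (qfa G V (Fintype.card k) ρ hρ).1 ⟨b, Or.inl he⟩ with h | h
      · exact Or.inl h
      · exact Or.inr (Or.inl h)
    · rcases (qfa G V (Fintype.card k) ρ hρ).2 (hodd ho) hperf with h | h | h
      · exact Or.inl h
      · exact Or.inr (Or.inl h)
      · have h5 : 5 ≤ Fintype.card k := by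
          rcases ho with ⟨c, hc⟩
          omega
        by_cases hsq : IsSquare (Fintype.card k)
        · exact Or.inr (Or.inl (half_sq k G V ρ h5 hsq hG hρ h))
        · obtain ⟨h1, h2, h3, -⟩ := FINPx.psl k G V ρ h5 hsq hG hρ h
          refine Or.inr (Or.inr ⟨ringChar k, CharP.char_is_prime k (ringChar k), ?_, h1, h2, h3⟩)
          intro h6
          have h7 : Fintype.card k % 2 = 0 := FiniteField.even_card_iff_char_two.1 h6
          rw [← Nat.even_iff] at h7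
          exact (Nat.not_even_iff_odd.2 ho) h7
  · obtain ⟨b, hb⟩ := QPG_thm QMJ_thm QMN_thm QMC_thm QMA_thm QTP_thm k G hG
    rcases (qfa G V (Fintype.card k) ρ hρ).1 ⟨b, hb⟩ with h | h
    · exact Or.inl h
    · exact Or.inr (Or.inl h)

theorem permC_infl {G Q : Type} [Group G] [Fintype G] [Group Q] [Fintype Q] (π : G →* Q)
    (hπ : Function.Surjective π) (θ : Q → ℂ) (h : PermC θ) : PermC (fun g => θ (π g)) := by
  obtain ⟨r, H, c, hc⟩ := h
  refine ⟨r, fun i => (H i).comap π, c, fun g => ?_⟩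
  show θ (π g) = _
  rw [hc (π g)]
  refine Finset.sum_congr rfl fun i _ => ?_
  rw [CMB.indFun_infl π hπ]

end FINQx

open FINQx

/-- Theorem (Q): all irreducible representations with image `PSL_2(k)` (`|k| ≥ 4`) or `PGL_2(k)`. -/
theorem finalPGL (K L : Type) [Field K] [NumberField K] [Field L] [NumberField L] [Algebra K L]
    [IsGalois K L] (S : Finset (HeightOneSpectrum (𝓞 K)))
    (Θ : ((L → ℝ) →₀ ℂ) →ₗ[ℂ] ((L → ℝ) →₀ ℂ))
    (hΘ : StarkP.IsTheta K (StarkP.aboveSet K L S) Θ)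
    (V : Type) [AddCommGroup V] [Module ℂ V] [Module.Finite ℂ V]
    (ρ : Representation ℂ (L ≃ₐ[K] L) V) (k : Type) [Field k] [Fintype k]
    (hρ : ρ.IsIrreducible)
    (hG : (4 ≤ Fintype.card k ∧
        Nonempty ((L ≃ₐ[K] L) ⧸ MonoidHom.ker ρ ≃* PSL(2, k))) ∨
      Nonempty ((L ≃ₐ[K] L) ⧸ MonoidHom.ker ρ ≃* PGL(2, k))) :
    (∀ E : IntermediateField ℚ ℂ, E ≤ StarkP.charField ρ.character →
      IsCyclic (E ≃ₐ[ℚ] E) →
      (Odd (Module.finrank ℚ E) ∨
        ∃ ℓ j : ℕ, ℓ.Prime ∧ ℓ ≠ 2 ∧ E ≤ StarkP.rootField (ℓ ^ j)) →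
      StarkP.NormIn E ρ.character (S : Set (HeightOneSpectrum (𝓞 K))) Θ) ∧
    (Module.finrank ℚ (StarkP.charField ρ.character) = 2 → (∃ g, (ρ.character g).im ≠ 0) →
      StarkP.AbsIn ρ.character (S : Set (HeightOneSpectrum (𝓞 K))) Θ) := by
  let π : (L ≃ₐ[K] L) →* ((L ≃ₐ[K] L) ⧸ MonoidHom.ker ρ) := QuotientGroup.mk' (MonoidHom.ker ρ)
  let _ : Fintype ((L ≃ₐ[K] L) ⧸ MonoidHom.ker ρ) := Fintype.ofFinite _
  have hπ : Function.Surjective π := QuotientGroup.mk'_surjective _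
  let ρ' : Representation ℂ ((L ≃ₐ[K] L) ⧸ MonoidHom.ker ρ) V :=
    QuotientGroup.lift (MonoidHom.ker ρ) ρ (fun _ hg => hg)
  have hρ' : ∀ g, ρ' (π g) = ρ g := fun g => rfl
  have hchar : (fun g => ρ'.character (π g)) = ρ.character := rfl
  have hcF : StarkP.charField ρ.character = StarkP.charField ρ'.character := by
    rw [← hchar]
    exact VFINx.charField_comp π hπ _
  have htr : PermC (StarkP.trChar ρ'.character) → PermC (StarkP.trChar ρ.character) := by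
    intro h
    rw [← hchar, VFINx.trChar_comp π hπ]
    exact permC_infl π hπ _ h
  have habs : ∀ (_ : StarkP.NormIn (StarkP.charField ρ.character) ρ.character
      (S : Set (HeightOneSpectrum (𝓞 K))) Θ)
      (_ : Module.finrank ℚ (StarkP.charField ρ.character) = 2)
      (_ : ∃ g, (ρ.character g).im ≠ 0),
      StarkP.AbsIn ρ.character (S : Set (HeightOneSpectrum (𝓞 K))) Θ := fun h h2 him =>
    abs_of_normIn S Θ hΘ V ρ h2 him h
  rcases group k _ V ρ' (FINPx.irr_of π hπ ρ ρ' hρ' hρ) hG with h | h | h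
  · obtain ⟨r, hr, hM, hP, hdeg, hreal⟩ := h
    have hout : OutQ ρ.character := ⟨r, hr, by
      rw [← hchar]
      exact VBRx.monC_infl π hπ _ _ hM, htr hP, by rw [hcF]; exact hdeg, fun g => hreal (π g)⟩
    refine ⟨fun E hE hcyc hd => outQ_norm S Θ hΘ _ hout E hE hcyc hd, fun _ ⟨g, hg⟩ => ?_⟩
    exact absurd (Complex.conj_eq_iff_im.1 (hout.choose_spec.2.2.2.2 g)) hg
  · have hP : PermC ρ.character := by
      rw [← hchar]
      exact permC_infl π hπ _ h
    refine ⟨fun E hE hcyc _ => perm_norm S Θ hΘ _ hP E hE hcyc, fun h2 _ => ?_⟩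
    rw [(perm_field _ hP).1, IntermediateField.finrank_bot] at h2
    omega
  · obtain ⟨p, hp, hp2, hM, hP, hF⟩ := h
    have hM' : MonC p ρ.character := by
      rw [← hchar]
      exact VBRx.monC_infl π hπ _ _ hM
    have hF' : Module.finrank ℚ (StarkP.charField ρ.character) = 2 := by
      rw [hcF]
      exact hF
    refine ⟨fun E hE hcyc _ => half_norm S Θ hΘ _ p hp hp2 hM' (htr hP) hF' E hE hcyc,
      habs (FINPx.critG K L _ p 1 1 S Θ hΘ hp hp2 one_pos (Nat.coprime_one_left _) (htr hP) (by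
        rw [pow_one]
        simpa only [Nat.cast_one, one_mul] using hM'))⟩

end StarkC.ABS
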