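import Pool.Agent.ABS.StQR
import Pool.Agent.ABS.QC3

/-!
# Project ABS (MP_46b841_nt), part Q: QC3R, the last case for `PGL_2(k)`, with multiplicity one
-/

set_option autoImplicit false

open scoped Classical MatrixGroups ComplexConjugate

namespace StarkC.ABS

open QC3x in
theorem QC3R_thm : Stmt_QC3R := by
  intro hbase hQEQ hQDU hQDH hQBB G V _ _ q b _ _ _ ρ a₀ s n m hmult hirr hev hn hm
  obtain ⟨hQNT, hQD1, hQIN⟩ := hbase
  obtain ⟨hnorm, -, -, hsum, -, -, -⟩ := hQNT G q 1 b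
  obtain ⟨hM1, hM2, hM3, ⟨f, -, hM4⟩, ⟨f', -, hM5⟩⟩ := hmult
  obtain ⟨-, hT2, hT3⟩ := hQDU G b.T b.T_cyc
  obtain ⟨-, hN2, hN3⟩ := hQDU G b.N b.N_cyc
  have hct := b.card_T
  have hcn := b.card_N
  -- some multiplicity is positive
  have key : (∃ ψ, 1 ≤ n ψ) ∨ ∃ φ, 1 ≤ m φ := by
    by_contra hcon
    push Not at hcon
    obtain ⟨hc1, hc2⟩ := hcon
    have h1 : (a₀ : ℤ) ≤ 0 := by
      rw [hM4]
      exact Finset.sum_nonpos fun i _ => by have := hc1 (f i); omega
    have h2 : (Nat.card b.N : ℤ) * s - Module.finrank ℂ V ≤ 0 := by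
      rw [hM5]
      exact Finset.sum_nonpos fun i _ => by have := hc2 (f' i); omega
    have hnt : Nontrivial V := by
      by_contra hV
      have hsub : Subsingleton V := not_nontrivial_iff_subsingleton.1 hV
      obtain ⟨x, y, hxy⟩ := hirr.toNontrivial.exists_pair_ne
      exact hxy (SetLike.ext fun v => by
        rw [Subsingleton.elim v 0]
        exact iff_of_true (zero_mem x.toSubmodule) (zero_mem y.toSubmodule))
    have h3 : 0 < Module.finrank ℂ V := Module.finrank_pos
    have h4 : (Nat.card b.N : ℤ) = Nat.card b.T + 2 := by push_cast at hct hcn; linarith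
    have h5 : 0 < (Nat.card b.T : ℤ) := by exact_mod_cast Nat.card_pos
    rw [h4] at h2
    have h6 : s ≤ 0 := by nlinarith
    nlinarith
  have key2 : (∃ ψ, 1 ≤ n ψ ∧ ψ ^ 2 = 1 ∧ ψ ≠ 1) ∨ ∃ φ, 1 ≤ m φ ∧ φ ^ 2 = 1 ∧ φ ≠ 1 := by
    rcases key with ⟨ψ, h⟩ | ⟨φ, h⟩
    · refine Or.inl ⟨ψ, h, ?_, ?_⟩
      · by_contra h1
        have := hn ψ (Or.inl h1)
        omega
      · intro h1
        have := hn ψ (Or.inr h1)
        omega
    · refine Or.inr ⟨φ, h, ?_, ?_⟩
      · by_contra h1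
        have := hm φ (Or.inl h1)
        omega
      · intro h1
        have := hm φ (Or.inr h1)
        omega
  rcases hev with hev | ⟨P, hTS⟩
  · exfalso
    obtain ⟨k, hk⟩ := hev
    push_cast at hct hcn
    rcases key2 with ⟨ψ, -, h1, h2⟩ | ⟨φ, -, h1, h2⟩
    · exact h2 (hT3 (by rw [Nat.odd_iff]; omega) ψ h1)
    · exact h2 (hN3 (by rw [Nat.odd_iff]; omega) φ h1)
  have hP := hTS.index
  obtain ⟨-, hB⟩ := hQBB hQDH G q 1 b
  -- the sign character
  have hpr : ∀ g, b.pr (rs P hP b.T) g = sgn P g * b.pr 1 g := by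
    intro g
    unfold TB.pr
    rw [ind_rs, ind_one, mul_sub, sgn_tau b hP hTS.U_le hB]
  have hds : ∀ g, b.ds (rs P hP b.N) g = b.pr (rs P hP b.T) g - 2 * sgn P g := by
    intro g
    have h1 : b.ds (rs P hP b.N) g = sgn P g * b.ds 1 g := by
      unfold TB.ds
      rw [ind_rs, ind_one, mul_sub, sgn_tau b hP hTS.U_le hB]
    rw [h1, hQD1, hpr]
    ring
  obtain ⟨c, hc⟩ := hQIN G V ρ ⊤ (rs P hP ⊤)
  have hc' : ∑ g, ρ.character g * conj (sgn P g) = (Fintype.card G : ℂ) * (c : ℂ) := by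
    rw [← hc]
    refine Finset.sum_congr rfl fun g _ => ?_
    rw [ind_rs, ind_top, mul_one]
  have hG : (Fintype.card G : ℂ) ≠ 0 := cardG_ne
  have hmn : (m (rs P hP b.N) : ℂ) = n (rs P hP b.T) - 2 * c := by
    have h1 := hM2 (rs P hP b.N)
    have h2 := hM1 (rs P hP b.T)
    have h3 : ∑ g, ρ.character g * conj (b.ds (rs P hP b.N) g) =
        ∑ g, ρ.character g * conj (b.pr (rs P hP b.T) g) -
          2 * ∑ g, ρ.character g * conj (sgn P g) := by
      rw [Finset.mul_sum, ← Finset.sum_sub_distrib]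
      refine Finset.sum_congr rfl fun g _ => ?_
      rw [hds, map_sub, map_mul, Complex.conj_ofNat]
      ring
    rw [h1, h2, hc'] at h3
    apply mul_left_cancel₀ hG
    linear_combination h3
  have hmn' : m (rs P hP b.N) = n (rs P hP b.T) - 2 * (c : ℤ) := by exact_mod_cast hmn
  have hn1 : 1 ≤ n (rs P hP b.T) := by
    rcases key2 with ⟨ψ, h0, h1, h2⟩ | ⟨φ, h0, h1, h2⟩
    · rw [hT2 (rs P hP b.T) ψ (rs_sq P hP b.T) (rs_ne P hP b.T hTS.T_not) h1 h2]
      exact h0
    · rw [hN2 φ (rs P hP b.N) h1 h2 (rs_sq P hP b.N) (rs_ne P hP b.N hTS.N_not)] at h0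
      omega
  have hss : ∑ g, sgn P g * conj (sgn P g) = (Fintype.card G : ℂ) := by
    rw [Finset.sum_congr rfl (fun g _ => by rw [conj_sgn, sgn_sq]), Finset.sum_const,
      Finset.card_univ, nsmul_eq_mul, mul_one]
  rcases Nat.eq_zero_or_pos c with hc0 | hc0
  · -- `χ = pr ψ₂ - sgn`
    have h1 := hnorm (rs P hP b.T)
    rw [if_pos (rs_sq P hP b.T)] at h1
    have h2 : ∑ g, b.pr (rs P hP b.T) g * conj (sgn P g) = (Fintype.card G : ℂ) := by
      rw [← hsum]
      refine Finset.sum_congr rfl fun g _ => ?_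
      rw [hpr, conj_sgn]
      linear_combination b.pr 1 g * sgn_sq P g
    have h3 : ∑ g, sgn P g * conj (b.pr (rs P hP b.T) g) = (Fintype.card G : ℂ) := by
      have h4 := congrArg conj h2
      rw [map_sum, Complex.conj_natCast] at h4
      rw [← h4]
      refine Finset.sum_congr rfl fun g _ => ?_
      rw [map_mul, Complex.conj_conj]
      ring
    have hχ : ∀ g, ρ.character g = b.pr (rs P hP b.T) g - sgn P g := by
      refine hQEQ G V ρ (fun g => b.pr (rs P hP b.T) g - sgn P g)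
        (n (rs P hP b.T)) hirr ?_ ?_ hn1
      · have h5 : ∑ g, (b.pr (rs P hP b.T) g - sgn P g) *
            conj (b.pr (rs P hP b.T) g - sgn P g) =
            ∑ g, b.pr (rs P hP b.T) g * conj (b.pr (rs P hP b.T) g) -
              ∑ g, b.pr (rs P hP b.T) g * conj (sgn P g) -
              ∑ g, sgn P g * conj (b.pr (rs P hP b.T) g) + ∑ g, sgn P g * conj (sgn P g) := by
          rw [← Finset.sum_sub_distrib, ← Finset.sum_sub_distrib, ← Finset.sum_add_distrib]
          refine Finset.sum_congr rfl fun g _ => ?_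
          rw [map_sub]
          ring
        rw [h5, h1, h2, h3, hss]
        ring
      · have h1 : ∑ g, ρ.character g * conj (b.pr (rs P hP b.T) g - sgn P g) =
            ∑ g, ρ.character g * conj (b.pr (rs P hP b.T) g) -
              ∑ g, ρ.character g * conj (sgn P g) := by
          rw [← Finset.sum_sub_distrib]
          refine Finset.sum_congr rfl fun g _ => ?_
          rw [map_sub]
          ring
        rw [h1, hM1, hc', hc0]
        push_cast
        ring
    refine ⟨permC_pr b hP hTS.T_not hχ, b.B, rs P hP b.B, rs_sq P hP b.B, ?_⟩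
    have hB1 : ∀ g, indFun b.B (extZ (rs P hP b.B)) g = b.pr (rs P hP b.T) g := by
      intro g
      rw [ind_rs, hpr]
      unfold TB.pr TB.tau
      rw [ind_one]
      ring
    have h6 : ∑ g, ρ.character g * conj (indFun b.B (extZ (rs P hP b.B)) g) =
        ∑ g, b.pr (rs P hP b.T) g * conj (b.pr (rs P hP b.T) g) -
          ∑ g, sgn P g * conj (b.pr (rs P hP b.T) g) := by
      rw [← Finset.sum_sub_distrib]
      refine Finset.sum_congr rfl fun g _ => ?_
      rw [hB1, hχ]
      ring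
    rw [h6, h1, h3]
    ring
  · -- `χ = sgn`
    have hχ : ∀ g, ρ.character g = sgn P g := hQEQ G V ρ (sgn P) c hirr hss
      (by rw [hc']; push_cast; ring) (by exact_mod_cast hc0)
    refine ⟨permC_sgn hP hχ, ⊤, rs P hP ⊤, rs_sq P hP ⊤, ?_⟩
    rw [← hss]
    refine Finset.sum_congr rfl fun g _ => ?_
    rw [ind_rs, ind_top, mul_one, hχ]

end StarkC.ABS
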