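import Pool.Agent.ABS.StQR
import Pool.Agent.ABS.QNT

/-!
# Project ABS, part Q, module QR1: multiplicity of the trivial character of `T`
-/

set_option autoImplicit false

open scoped Classical MatrixGroups ComplexConjugate

namespace StarkC.ABS

namespace QR1x

open QNTx

variable {G : Type} [Group G] [Fintype G]

theorem sum_ext {H : Subgroup G} (ψ : H →* ℂˣ) (h : ψ ≠ 1) :
    ∑ g : G, (if g ∈ H then extZ ψ g else 0) = 0 := by
  rw [sum_sub H fun g => extZ ψ g]
  have h2 : ∀ h : H, extZ ψ (h : G) = ((Units.coeHom ℂ).comp ψ) h := by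
    intro h
    rw [extZ_mem ψ h h.2]
    rfl
  rw [Finset.sum_congr rfl fun h _ => h2 h, sum_hom_units, if_neg, Nat.cast_zero]
  intro h'
  apply h
  ext x
  exact DFunLike.congr_fun h' x

theorem sum_ext_inv {H : Subgroup G} (ψ : H →* ℂˣ) (h : ψ ≠ 1) :
    ∑ g : G, (if g ∈ H then (extZ ψ g)⁻¹ else 0) = 0 := by
  have h0 : ψ⁻¹ ≠ 1 := by
    intro h'
    apply h
    ext x
    have h2 : (ψ x)⁻¹ = 1 := DFunLike.congr_fun h' x
    rw [inv_eq_one.1 h2]
    rfl
  refine (Finset.sum_congr rfl fun g _ => ?_).trans (sum_ext ψ⁻¹ h0)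
  by_cases hg : g ∈ H
  · rw [if_pos hg, if_pos hg, extZ_mem ψ g hg, extZ_mem ψ⁻¹ g hg, MonoidHom.inv_apply,
      Units.val_inv_eq_inv_val]
  · rw [if_neg hg, if_neg hg]

end QR1x

open QNTx QR1x in
theorem QR1_thm : Stmt_QR1 := by
  intro hP hDH hVT hVB G _ _ q d b
  obtain ⟨hT, -, -, -⟩ := hDH G q d b
  obtain ⟨v1, v2, v3, v4, v5, v6⟩ := hVB hDH hVT G q d b
  have ht0 : (Nat.card b.T : ℂ) ≠ 0 := by exact_mod_cast Nat.card_pos.ne'
  have hn0 : (Nat.card b.N : ℂ) ≠ 0 := by exact_mod_cast Nat.card_pos.ne'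
  have e1 : (d : ℂ) * (Fintype.card G : ℂ) = (q : ℂ) * ((q : ℂ) ^ 2 - 1) := by
    exact_mod_cast b.card
  have e2 : (d : ℂ) * (Nat.card b.T : ℂ) = (q : ℂ) - 1 := by exact_mod_cast b.card_T
  have e3 : (d : ℂ) * (Nat.card b.N : ℂ) = (q : ℂ) + 1 := by exact_mod_cast b.card_N
  have hd0 : (d : ℂ) ≠ 0 := by
    intro h
    rw [h, zero_mul] at e2 e3
    have h1 : (2 : ℂ) = 0 := by linear_combination e2 - e3
    norm_num at h1
  have hcT : (Fintype.card G : ℂ) = (q : ℂ) * ((q : ℂ) + 1) * (Nat.card b.T : ℂ) := by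
    apply mul_left_cancel₀ hd0
    linear_combination e1 - (q : ℂ) * ((q : ℂ) + 1) * e2
  have hcN : (Fintype.card G : ℂ) = (q : ℂ) * ((q : ℂ) - 1) * (Nat.card b.N : ℂ) := by
    apply mul_left_cancel₀ hd0
    linear_combination e1 - (q : ℂ) * ((q : ℂ) - 1) * e3
  have key : ∀ F : G → ℂ, (∀ x g, F (x⁻¹ * g * x) = F g) →
      ∑ g : G, (if g ∈ b.T then F g else 0) = (q : ℂ) - 1 →
      ∑ g, F g * conj (indFun b.T (extZ (1 : b.T →* ℂˣ)) g) = (Fintype.card G : ℂ) * (d : ℂ) := by
    intro F hF hs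
    rw [hP G b.T F (extZ (1 : b.T →* ℂˣ)) hF]
    have h1 : ∀ g : G, (if g ∈ b.T then F g * conj (extZ (1 : b.T →* ℂˣ) g) else 0) =
        if g ∈ b.T then F g else 0 := by
      intro g
      by_cases hg : g ∈ b.T
      · rw [if_pos hg, if_pos hg, extZ_one g hg, map_one, mul_one]
      · rw [if_neg hg, if_neg hg]
    rw [Finset.sum_congr rfl fun g _ => h1 g, hs, ← e2]
    field_simp
  constructor
  · intro ψ hψ
    apply key
    · intro x g
      unfold TB.pr
      rw [indFun_class, tau_class]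
    · have h1 : ∀ g : G, (if g ∈ b.T then b.pr ψ g else 0) =
          (if g = 1 then (q : ℂ) - 1 else 0) + (if g ∈ b.T then extZ ψ g else 0) +
            (if g ∈ b.T then (extZ ψ g)⁻¹ else 0) := by
        intro g
        by_cases hg : g ∈ b.T
        · rw [if_pos hg, if_pos hg, if_pos hg]
          by_cases h : g = 1
          · subst h
            have h2 : b.pr ψ 1 = (q : ℂ) + 1 := by
              unfold TB.pr
              rw [v4, v6, hcT]
              field_simp
              ring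
            rw [if_pos rfl, h2, extZ_at_one]
            ring
          · rw [if_neg h, zero_add]
            unfold TB.pr
            rw [hVT G b.T b.w ψ hT g hg h, (v1 g hg h).1, sub_zero]
        · have h : g ≠ 1 := fun h => hg (h ▸ b.T.one_mem)
          rw [if_neg hg, if_neg hg, if_neg hg, if_neg h]
          ring
      rw [Finset.sum_congr rfl fun g _ => h1 g, Finset.sum_add_distrib, Finset.sum_add_distrib,
        sum_ext ψ hψ, sum_ext_inv ψ hψ, Finset.sum_ite_eq' Finset.univ (1 : G),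
        if_pos (Finset.mem_univ _), add_zero, add_zero]
  · intro φ
    apply key
    · intro x g
      unfold TB.ds
      rw [indFun_class, tau_class]
    · rw [sum_one b.T (b.ds φ) (fun g hg h => by
        unfold TB.ds
        rw [(v1 g hg h).1, (v1 g hg h).2 φ, sub_zero])]
      unfold TB.ds
      rw [v5, v6, hcN]
      field_simp
      ring

end StarkC.ABS
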