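import Pool.Agent.ABS.StQR
import Pool.Agent.ABS.QNT
import Pool.Agent.ABS.QDI

/-!
# Project ABS, part Q, module QR2 (helper85): multiplicity one for `PSL_2(k)`, `q` odd
-/

set_option autoImplicit false

open scoped Classical MatrixGroups ComplexConjugate

namespace StarkC.ABS

namespace QR2x

open QNTx QDIx

variable {G : Type} [Group G]

theorem sq_one {T : Subgroup G} {ψ : T →* ℂˣ} (h : ψ ^ 2 = 1) (a : T) : ψ a * ψ a = 1 := by
  have h1 := DFunLike.congr_fun h a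
  rwa [MonoidHom.pow_apply, MonoidHom.one_apply, pow_two] at h1

theorem inv_self {T : Subgroup G} {ψ : T →* ℂˣ} (h : ψ ^ 2 = 1) (a : T) : ψ a⁻¹ = ψ a := by
  rw [map_inv]
  exact inv_eq_of_mul_eq_one_left (sq_one h a)

/-- the dihedral group -/
abbrev D {T : Subgroup G} {w : G} (hw : Dih T w) : Subgroup G := DD hw T le_rfl

/-- the value of the linear character of the dihedral group -/
noncomputable def dv {T : Subgroup G} {w : G} (hw : Dih T w) (ψ : T →* ℂˣ) (x : D hw) : ℂˣ :=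
  if hx : x.1 ∈ T then ψ ⟨x.1, hx⟩ else ψ ⟨w * x.1, x.2.resolve_left hx⟩

theorem dv_mem {T : Subgroup G} {w : G} (hw : Dih T w) (ψ : T →* ℂˣ) (x : D hw)
    (hx : x.1 ∈ T) : dv hw ψ x = ψ ⟨x.1, hx⟩ := dif_pos hx

theorem dv_not {T : Subgroup G} {w : G} (hw : Dih T w) (ψ : T →* ℂˣ) (x : D hw)
    (hx : w * x.1 ∈ T) : dv hw ψ x = ψ ⟨w * x.1, hx⟩ := by
  have h : x.1 ∉ T := fun h => not_both hw T le_rfl x.1 h hx
  exact dif_neg h

/-- the linear character of the dihedral group -/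
noncomputable def dl {T : Subgroup G} {w : G} (hw : Dih T w) (ψ : T →* ℂˣ) (hψ : ψ ^ 2 = 1) :
    D hw →* ℂˣ where
  toFun := dv hw ψ
  map_one' := by
    rw [dv_mem hw ψ 1 T.one_mem]
    exact map_one ψ
  map_mul' := by
    intro x y
    rcases x.2 with hx | hx <;> rcases y.2 with hy | hy
    · rw [dv_mem hw ψ x hx, dv_mem hw ψ y hy, dv_mem hw ψ (x * y) (T.mul_mem hx hy), ← map_mul]
      rfl
    · have h1 : w * (x.1 * y.1) = x.1⁻¹ * (w * y.1) := by
        rw [← hw.inv _ hx]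
        calc w * (x.1 * y.1) = w * x.1 * (1 * y.1) := by group
          _ = w * x.1 * ((w * w) * y.1) := by rw [hw.sq]
          _ = w * x.1 * w * (w * y.1) := by group
      have h2 : w * (x * y : D hw).1 ∈ T := by
        show w * (x.1 * y.1) ∈ T
        rw [h1]
        exact T.mul_mem (T.inv_mem hx) hy
      rw [dv_mem hw ψ x hx, dv_not hw ψ y hy, dv_not hw ψ (x * y) h2, ← inv_self hψ ⟨x.1, hx⟩,
        ← map_mul]
      exact congrArg ψ (Subtype.ext h1)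
    · have h1 : w * (x.1 * y.1) = (w * x.1) * y.1 := by group
      have h2 : w * (x * y : D hw).1 ∈ T := by
        show w * (x.1 * y.1) ∈ T
        rw [h1]
        exact T.mul_mem hx hy
      rw [dv_not hw ψ x hx, dv_mem hw ψ y hy, dv_not hw ψ (x * y) h2, ← map_mul]
      exact congrArg ψ (Subtype.ext h1)
    · have h1 : x.1 * y.1 = (w * x.1)⁻¹ * (w * y.1) := by
        rw [← hw.inv _ hx]
        calc x.1 * y.1 = (1 * x.1) * (1 * y.1) := by group
          _ = ((w * w) * x.1) * ((w * w) * y.1) := by rw [hw.sq]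
          _ = w * (w * x.1) * w * (w * y.1) := by group
      have h2 : (x * y : D hw).1 ∈ T := by
        show x.1 * y.1 ∈ T
        rw [h1]
        exact T.mul_mem (T.inv_mem hx) hy
      rw [dv_not hw ψ x hx, dv_not hw ψ y hy, dv_mem hw ψ (x * y) h2,
        ← inv_self hψ ⟨w * x.1, hx⟩, ← map_mul]
      exact congrArg ψ (Subtype.ext h1)

theorem dl_sq {T : Subgroup G} {w : G} (hw : Dih T w) (ψ : T →* ℂˣ) (hψ : ψ ^ 2 = 1) :
    dl hw ψ hψ ^ 2 = 1 := by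
  refine MonoidHom.ext fun x => ?_
  rw [MonoidHom.pow_apply, MonoidHom.one_apply, pow_two]
  show dv hw ψ x * dv hw ψ x = 1
  rcases x.2 with hx | hx
  · rw [dv_mem hw ψ x hx]
    exact sq_one hψ _
  · rw [dv_not hw ψ x hx]
    exact sq_one hψ _

theorem ext_dl [Fintype G] {T : Subgroup G} {w : G} (hw : Dih T w) (ψ : T →* ℂˣ) (hψ : ψ ^ 2 = 1) (x : G)
    (hx : x ∈ T) : extZ (dl hw ψ hψ) x = extZ ψ x := by
  have h : x ∈ D hw := Or.inl hx
  rw [extZ_mem _ x h, extZ_mem _ x hx]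
  exact congrArg _ (dv_mem hw ψ ⟨x, h⟩ hx)

theorem ext_dl' [Fintype G] {T : Subgroup G} {w : G} (hw : Dih T w) (ψ : T →* ℂˣ) (hψ : ψ ^ 2 = 1) (x : G)
    (hx : w * x ∈ T) : extZ (dl hw ψ hψ) x = extZ ψ (w * x) := by
  have h : x ∈ D hw := Or.inr hx
  rw [extZ_mem _ x h, extZ_mem _ (w * x) hx]
  exact congrArg _ (dv_not hw ψ ⟨x, h⟩ hx)

/-- the criterion -/
theorem mone [Fintype G] (hP : Stmt_PFR) {T : Subgroup G} {w : G} (hw : Dih T w) (F : G → ℂ)
    (hF : ∀ x g, F (x⁻¹ * g * x) = F g) (ψ : T →* ℂˣ) (hψ : ψ ^ 2 = 1)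
    (hs : ∑ g, (if g ∈ T then F g * conj (extZ ψ g) else 0) +
      ∑ g, (if g ∈ T then F (w * g) * conj (extZ ψ g) else 0) = 2 * (Nat.card T : ℂ)) :
    MOne F := by
  refine ⟨D hw, dl hw ψ hψ, dl_sq hw ψ hψ, ?_⟩
  rw [hP G (D hw) F _ hF]
  have h1 : ∀ g : G, (if g ∈ D hw then F g * conj (extZ (dl hw ψ hψ) g) else 0) =
      (if g ∈ T then F g * conj (extZ ψ g) else 0) +
        (if w * g ∈ T then F (w * (w * g)) * conj (extZ ψ (w * g)) else 0) := by
    intro g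
    have hwg : w * (w * g) = g := by rw [← mul_assoc, hw.sq, one_mul]
    by_cases h : g ∈ T
    · have h' : w * g ∉ T := fun h' => not_both hw T le_rfl g h h'
      have h2 : g ∈ D hw := Or.inl h
      rw [if_pos h, if_neg h', if_pos h2, ext_dl hw ψ hψ g h, add_zero]
    · by_cases h' : w * g ∈ T
      · have h2 : g ∈ D hw := Or.inr h'
        rw [if_neg h, if_pos h', if_pos h2, ext_dl' hw ψ hψ g h', zero_add, hwg]
      · have h2 : g ∉ D hw := by
          rintro (h3 | h3)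
          · exact h h3
          · exact h' h3
        rw [if_neg h, if_neg h', if_neg h2, add_zero]
  rw [Finset.sum_congr rfl fun g _ => h1 g, Finset.sum_add_distrib]
  have h2 : ∑ g : G, (if w * g ∈ T then F (w * (w * g)) * conj (extZ ψ (w * g)) else 0) =
      ∑ g : G, (if g ∈ T then F (w * g) * conj (extZ ψ g) else 0) :=
    Fintype.sum_equiv (Equiv.mulLeft w) _ _ fun g => rfl
  rw [h2, hs, card_DD hw T le_rfl]
  have h3 : (Nat.card T : ℂ) ≠ 0 := by exact_mod_cast Nat.card_pos.ne'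
  push_cast
  field_simp

/-- the sum of a character -/
theorem sum_chi [Fintype G] {H : Subgroup G} (χ : H →* ℂˣ) (hχ : χ ≠ 1) :
    ∑ g : G, (if g ∈ H then extZ χ g else 0) = 0 := by
  rw [sum_sub H fun g => extZ χ g]
  have h2 : ∀ h : H, extZ χ (h : G) = ((Units.coeHom ℂ).comp χ) h := fun h => extZ_mem χ h h.2
  rw [Finset.sum_congr rfl fun h _ => h2 h, sum_hom_units]
  have h3 : (Units.coeHom ℂ).comp χ ≠ 1 := by
    intro h
    refine hχ (MonoidHom.ext fun x => Units.ext ?_)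
    exact DFunLike.congr_fun h x
  rw [if_neg h3]
  exact Nat.cast_zero

theorem extZ_mul [Fintype G] {H : Subgroup G} (ψ χ : H →* ℂˣ) (g : G) (hg : g ∈ H) :
    extZ (ψ * χ⁻¹) g = extZ ψ g * (extZ χ g)⁻¹ := by
  rw [extZ_mem _ g hg, extZ_mem _ g hg, extZ_mem _ g hg]
  simp [MonoidHom.mul_apply]

theorem extZ_inv [Fintype G] {H : Subgroup G} (ψ : H →* ℂˣ) (g : G) (hg : g ∈ H) :
    extZ ψ⁻¹ g = (extZ ψ g)⁻¹ := by
  rw [extZ_mem _ g hg, extZ_mem _ g hg]
  simp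

/-- the sum over the torus -/
theorem sum_gen [Fintype G] {H : Subgroup G} (F : G → ℂ) (e : ℂ) (ψ χ : H →* ℂˣ)
    (hF : ∀ g ∈ H, g ≠ 1 → F g = e * (extZ ψ g + (extZ ψ g)⁻¹)) (h1 : ψ * χ⁻¹ ≠ 1)
    (h2 : ψ⁻¹ * χ⁻¹ ≠ 1) :
    ∑ g, (if g ∈ H then F g * conj (extZ χ g) else 0) = F 1 - 2 * e := by
  have h3 : ∀ g : G, (if g ∈ H then F g * conj (extZ χ g) else 0) =
      (if g = 1 then F 1 - 2 * e else 0) + e * (if g ∈ H then extZ (ψ * χ⁻¹) g else 0) +
        e * (if g ∈ H then extZ (ψ⁻¹ * χ⁻¹) g else 0) := by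
    intro g
    by_cases hg : g ∈ H
    · rw [if_pos hg, if_pos hg, if_pos hg, conj_ext χ g hg, extZ_mul ψ χ g hg,
        extZ_mul ψ⁻¹ χ g hg, extZ_inv ψ g hg]
      by_cases h : g = 1
      · subst h
        rw [if_pos rfl, extZ_at_one, extZ_at_one]
        ring
      · rw [if_neg h, hF g hg h]
        ring
    · have h : g ≠ 1 := fun h => hg (h ▸ H.one_mem)
      rw [if_neg hg, if_neg hg, if_neg hg, if_neg h]
      ring
  rw [Finset.sum_congr rfl fun g _ => h3 g, Finset.sum_add_distrib, Finset.sum_add_distrib,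
    ← Finset.mul_sum, ← Finset.mul_sum, sum_chi _ h1, sum_chi _ h2,
    Finset.sum_ite_eq' Finset.univ (1 : G), if_pos (Finset.mem_univ _)]
  ring

theorem invol {T : Subgroup G} {w : G} (hw : Dih T w) {g : G} (hg : g ∈ T) :
    w * g ≠ 1 ∧ (w * g) * (w * g) = 1 := by
  constructor
  · intro h
    apply hw.not_mem
    have h1 : w = (w * g) * g⁻¹ := by group
    rw [h1, h, one_mul]
    exact T.inv_mem hg
  · have h1 : (w * g) * (w * g) = (w * g * w) * g := by group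
    rw [h1, hw.inv g hg, inv_mul_cancel]

/-- the sum over the other coset -/
theorem sum_other [Fintype G] {T : Subgroup G} {w : G} (F : G → ℂ) (c : ℂ) (χ : T →* ℂˣ)
    (hc : ∀ g ∈ T, F (w * g) = c) (h : c = 0 ∨ χ ≠ 1) :
    ∑ g, (if g ∈ T then F (w * g) * conj (extZ χ g) else 0) = 0 := by
  have h1 : ∀ g : G, (if g ∈ T then F (w * g) * conj (extZ χ g) else 0) =
      c * conj (if g ∈ T then extZ χ g else 0) := by
    intro g
    by_cases hg : g ∈ T
    · rw [if_pos hg, if_pos hg, hc g hg]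
    · rw [if_neg hg, if_neg hg, map_zero, mul_zero]
  rw [Finset.sum_congr rfl fun g _ => h1 g, ← Finset.mul_sum, ← map_sum]
  rcases h with h | h
  · rw [h, zero_mul]
  · rw [sum_chi χ h, map_zero, mul_zero]

theorem exists_inv [Fintype G] (T : Subgroup G) (he : Even (Nat.card T)) :
    ∃ t ∈ T, t ≠ 1 ∧ t * t = 1 := by
  have : Fact (Nat.Prime 2) := ⟨Nat.prime_two⟩
  obtain ⟨x, hx⟩ := exists_prime_orderOf_dvd_card' (G := T) 2 he.two_dvd
  refine ⟨x, x.2, ?_, ?_⟩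
  · intro h
    have h1 : x = 1 := Subtype.ext h
    rw [h1, orderOf_one] at hx
    norm_num at hx
  · have h1 := pow_orderOf_eq_one x
    rw [hx, pow_two] at h1
    exact congrArg Subtype.val h1

/-- a character of order two -/
theorem exists_two [Fintype G] (hQ : Stmt_QDU) (T : Subgroup G) (hT : IsCyclic T)
    (he : Even (Nat.card T)) : ∃ χ : T →* ℂˣ, χ ^ 2 = 1 ∧ χ ≠ 1 := by
  obtain ⟨t, ht, ht1, ht2⟩ := exists_inv T he
  obtain ⟨f, -, hf⟩ := (hQ G T hT).1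
  have hne : (⟨t, ht⟩ : T) ≠ 1 := fun h => ht1 (congrArg Subtype.val h)
  have hs := hf ⟨t, ht⟩
  rw [if_neg hne] at hs
  obtain ⟨i, hi⟩ : ∃ i, f i ⟨t, ht⟩ ≠ 1 := by
    by_contra hcon
    push Not at hcon
    have h1 : ∀ i, ((f i ⟨t, ht⟩ : ℂˣ) : ℂ) = 1 := fun i => by rw [hcon i, Units.val_one]
    rw [Finset.sum_congr rfl fun i _ => h1 i, Finset.sum_const, Finset.card_univ,
      Fintype.card_fin, nsmul_eq_mul, mul_one] at hs
    have h3 : (Nat.card T : ℂ) ≠ 0 := by exact_mod_cast Nat.card_pos.ne'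
    exact h3 hs
  have hpow : f i ^ Nat.card T = 1 := by
    refine MonoidHom.ext fun x => ?_
    rw [MonoidHom.pow_apply, ← map_pow, pow_card_eq_one', map_one, MonoidHom.one_apply]
  have hpos : 0 < orderOf (f i) := orderOf_pos_iff.2 (isOfFinOrder_iff_pow_eq_one.2
    ⟨_, Nat.card_pos, hpow⟩)
  have h2 : 2 ∣ orderOf (f i) := by
    by_contra h2
    apply hi
    have h3 : f i ⟨t, ht⟩ ^ orderOf (f i) = 1 := by
      rw [← MonoidHom.pow_apply, pow_orderOf_eq_one, MonoidHom.one_apply]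
    have h4 : f i ⟨t, ht⟩ ^ 2 = 1 := by
      rw [← map_pow, pow_two]
      have : (⟨t, ht⟩ : T) * ⟨t, ht⟩ = 1 := Subtype.ext ht2
      rw [this, map_one]
    have h5 := pow_gcd_eq_one.2 ⟨h3, h4⟩
    have h6 : (orderOf (f i)).gcd 2 = 1 := by
      rw [Nat.gcd_comm]
      exact (Nat.Prime.coprime_iff_not_dvd Nat.prime_two).2 h2
    rwa [h6, pow_one] at h5
  obtain ⟨m, hm⟩ := h2
  rw [hm] at hpos
  refine ⟨f i ^ m, ?_, ?_⟩
  · refine MonoidHom.ext fun x => ?_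
    rw [MonoidHom.pow_apply, MonoidHom.pow_apply, ← pow_mul, mul_comm m 2, ← hm,
      ← MonoidHom.pow_apply, pow_orderOf_eq_one]
  · intro h
    have h0 : 0 < m := by omega
    have h1 := Nat.le_of_dvd h0 (orderOf_dvd_of_pow_eq_one (x := f i) (n := m)
      (MonoidHom.ext fun x => DFunLike.congr_fun h x))
    rw [hm] at h1
    omega

theorem one_sq (H : Subgroup G) : (1 : H →* ℂˣ) ^ 2 = 1 := by
  refine MonoidHom.ext fun x => ?_
  rw [MonoidHom.pow_apply, MonoidHom.one_apply, one_pow]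

theorem ne_of_sq {H : Subgroup G} {ψ χ : H →* ℂˣ} (hψ : ψ ^ 2 ≠ 1) (hχ : χ ^ 2 = 1) :
    ψ * χ⁻¹ ≠ 1 ∧ ψ⁻¹ * χ⁻¹ ≠ 1 := by
  constructor
  · intro h
    refine hψ (MonoidHom.ext fun x => ?_)
    have h1 : ψ x * (χ x)⁻¹ = 1 := DFunLike.congr_fun h x
    rw [MonoidHom.pow_apply, MonoidHom.one_apply, pow_two, mul_inv_eq_one.1 h1]
    exact sq_one hχ x
  · intro h
    refine hψ (MonoidHom.ext fun x => ?_)
    have h1 : (ψ x)⁻¹ * (χ x)⁻¹ = 1 := DFunLike.congr_fun h x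
    have h2 : χ x = (ψ x)⁻¹ := (mul_inv_eq_one.1 h1).symm
    have h3 := sq_one hχ x
    rw [h2, ← mul_inv, inv_eq_one] at h3
    rw [MonoidHom.pow_apply, MonoidHom.one_apply, pow_two, h3]

end QR2x

open QNTx QR2x

theorem QR2_thm : Stmt_QR2 := by
  intro hP hDH hVT hVB hDU G _ _ q b hinv
  obtain ⟨hDT, hDN, -, -⟩ := hDH G q 2 b
  obtain ⟨vT, -, vN, v1T, v1N, vt⟩ := hVB hDH hVT G q 2 b
  have ht0 : (Nat.card b.T : ℂ) ≠ 0 := by exact_mod_cast Nat.card_pos.ne'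
  have hn0 : (Nat.card b.N : ℂ) ≠ 0 := by exact_mod_cast Nat.card_pos.ne'
  have cT : (2 : ℂ) * (Nat.card b.T : ℂ) = (q : ℂ) - 1 := by
    have := b.card_T
    have h : (((2 : ℕ) : ℤ) : ℂ) * ((Nat.card b.T : ℤ) : ℂ) = ((q : ℤ) : ℂ) - 1 := by
      exact_mod_cast congrArg (fun z : ℤ => (z : ℂ)) this
    simpa using h
  have cN : (2 : ℂ) * (Nat.card b.N : ℂ) = (q : ℂ) + 1 := by
    have := b.card_N
    have h : (((2 : ℕ) : ℤ) : ℂ) * ((Nat.card b.N : ℤ) : ℂ) = ((q : ℤ) : ℂ) + 1 := by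
      exact_mod_cast congrArg (fun z : ℤ => (z : ℂ)) this
    simpa using h
  have cG : (2 : ℂ) * (Fintype.card G : ℂ) = (q : ℂ) * ((q : ℂ) ^ 2 - 1) := by
    have := b.card
    have h : (((2 : ℕ) : ℤ) : ℂ) * ((Fintype.card G : ℤ) : ℂ) =
        ((q : ℤ) : ℂ) * (((q : ℤ) : ℂ) ^ 2 - 1) := by
      exact_mod_cast congrArg (fun z : ℤ => (z : ℂ)) this
    simpa using h
  have pr1 : ∀ ψ : b.T →* ℂˣ, b.pr ψ 1 = 2 * (Nat.card b.T : ℂ) + 2 := by
    intro ψ
    show indFun b.T (extZ ψ) 1 - b.tau 1 = _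
    rw [v1T, vt]
    have h1 : (Fintype.card G : ℂ) / (Nat.card b.T : ℂ) = q * (q + 1) := by
      rw [div_eq_iff ht0]
      have h2 : (2 : ℂ) * (Fintype.card G : ℂ) = 2 * (q * (q + 1) * (Nat.card b.T : ℂ)) := by
        rw [cG]
        linear_combination (-(q : ℂ) * (q + 1)) * cT
      exact mul_left_cancel₀ two_ne_zero h2
    rw [h1]
    linear_combination -cT
  have ds1 : ∀ φ : b.N →* ℂˣ, b.ds φ 1 = 2 * (Nat.card b.T : ℂ) := by
    intro φ
    show b.tau 1 - indFun b.N (extZ φ) 1 = _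
    rw [v1N, vt]
    have h1 : (Fintype.card G : ℂ) / (Nat.card b.N : ℂ) = q * (q - 1) := by
      rw [div_eq_iff hn0]
      have h2 : (2 : ℂ) * (Fintype.card G : ℂ) = 2 * (q * (q - 1) * (Nat.card b.N : ℂ)) := by
        rw [cG]
        linear_combination (-(q : ℂ) * (q - 1)) * cN
      exact mul_left_cancel₀ two_ne_zero h2
    rw [h1]
    linear_combination -cT
  have clpr : ∀ (ψ : b.T →* ℂˣ) (x g : G), b.pr ψ (x⁻¹ * g * x) = b.pr ψ g := by
    intro ψ x g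
    show indFun b.T (extZ ψ) (x⁻¹ * g * x) - b.tau (x⁻¹ * g * x) = _
    rw [indFun_class, tau_class]
    rfl
  have clds : ∀ (φ : b.N →* ℂˣ) (x g : G), b.ds φ (x⁻¹ * g * x) = b.ds φ g := by
    intro φ x g
    show b.tau (x⁻¹ * g * x) - indFun b.N (extZ φ) (x⁻¹ * g * x) = _
    rw [indFun_class, tau_class]
    rfl
  -- values
  have prT : ∀ (ψ : b.T →* ℂˣ), ∀ g ∈ b.T, g ≠ 1 →
      b.pr ψ g = 1 * (extZ ψ g + (extZ ψ g)⁻¹) := by
    intro ψ g hg h1
    show indFun b.T (extZ ψ) g - b.tau g = _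
    rw [(vT g hg h1).1, hVT G b.T b.w ψ hDT g hg h1]
    ring
  have prN : ∀ (ψ : b.T →* ℂˣ), ∀ g ∈ b.N, g ≠ 1 → b.pr ψ g = 0 := by
    intro ψ g hg h1
    show indFun b.T (extZ ψ) g - b.tau g = _
    rw [(vN g hg h1).1, (vN g hg h1).2 ψ, sub_zero]
  have dsT : ∀ (φ : b.N →* ℂˣ), ∀ g ∈ b.T, g ≠ 1 → b.ds φ g = 0 := by
    intro φ g hg h1
    show b.tau g - indFun b.N (extZ φ) g = _
    rw [(vT g hg h1).1, (vT g hg h1).2 φ, sub_zero]
  have dsN : ∀ (φ : b.N →* ℂˣ), ∀ g ∈ b.N, g ≠ 1 →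
      b.ds φ g = -1 * (extZ φ g + (extZ φ g)⁻¹) := by
    intro φ g hg h1
    show b.tau g - indFun b.N (extZ φ) g = _
    rw [(vN g hg h1).1, hVT G b.N b.v φ hDN g hg h1]
    ring
  -- class functions on involutions
  have hcl : ∀ F : G → ℂ, (∀ x g, F (x⁻¹ * g * x) = F g) → ∀ x y : G, x ≠ 1 → y ≠ 1 →
      x * x = 1 → y * y = 1 → F x = F y := by
    intro F hF x y hx hy hx2 hy2
    obtain ⟨z, hz⟩ := hinv x y hx hy hx2 hy2
    rw [← hz, hF]
  have hpar : Even (Nat.card b.T) ∨ Even (Nat.card b.N) := by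
    have h1 := b.card_T
    have h2 := b.card_N
    push_cast at h1 h2
    have h3 : Nat.card b.N = Nat.card b.T + 1 := by omega
    rw [h3]
    rcases Nat.even_or_odd (Nat.card b.T) with h | h
    · exact Or.inl h
    · exact Or.inr (h.add_one)
  constructor
  · intro ψ hψ
    rcases hpar with he | he
    · obtain ⟨χ, hχ, hχ1⟩ := exists_two hDU b.T b.T_cyc he
      refine mone hP hDT (b.pr ψ) (clpr ψ) χ hχ ?_
      obtain ⟨n1, n2⟩ := ne_of_sq hψ hχ
      rw [sum_gen (b.pr ψ) 1 ψ χ (prT ψ) n1 n2, sum_other (b.pr ψ) (b.pr ψ b.w) χ ?_ (Or.inr hχ1),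
        pr1]
      · ring
      · intro g hg
        obtain ⟨i1, i2⟩ := invol hDT hg
        have hw1 : b.w ≠ 1 := fun h => hDT.not_mem (h ▸ b.T.one_mem)
        exact hcl _ (clpr ψ) _ _ i1 hw1 i2 hDT.sq
    · obtain ⟨y, hy, hy1, hy2⟩ := exists_inv b.N he
      have hχ : (1 : b.T →* ℂˣ) ^ 2 = 1 := one_sq b.T
      refine mone hP hDT (b.pr ψ) (clpr ψ) 1 hχ ?_
      obtain ⟨n1, n2⟩ := ne_of_sq hψ hχ
      rw [sum_gen (b.pr ψ) 1 ψ 1 (prT ψ) n1 n2, sum_other (b.pr ψ) 0 1 ?_ (Or.inl rfl), pr1]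
      · ring
      · intro g hg
        obtain ⟨i1, i2⟩ := invol hDT hg
        rw [hcl _ (clpr ψ) _ _ i1 hy1 i2 hy2]
        exact prN ψ y hy hy1
  · intro φ hφ
    rcases hpar with he | he
    · obtain ⟨y, hy, hy1, hy2⟩ := exists_inv b.T he
      have hχ : (1 : b.T →* ℂˣ) ^ 2 = 1 := one_sq b.T
      refine mone hP hDT (b.ds φ) (clds φ) 1 hχ ?_
      rw [sum_other (b.ds φ) 0 1 ?_ (Or.inl rfl),
        sum_one b.T (fun g => b.ds φ g * conj (extZ (1 : b.T →* ℂˣ) g)) ?_]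
      · show b.ds φ 1 * conj (extZ (1 : b.T →* ℂˣ) 1) + 0 = _
        rw [extZ_at_one, map_one, ds1]
        ring
      · intro g hg h1
        show b.ds φ g * _ = 0
        rw [dsT φ g hg h1, zero_mul]
      · intro g hg
        obtain ⟨i1, i2⟩ := invol hDT hg
        rw [hcl _ (clds φ) _ _ i1 hy1 i2 hy2]
        exact dsT φ y hy hy1
    · obtain ⟨χ, hχ, hχ1⟩ := exists_two hDU b.N b.N_cyc he
      refine mone hP hDN (b.ds φ) (clds φ) χ hχ ?_
      obtain ⟨n1, n2⟩ := ne_of_sq hφ hχ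
      rw [sum_gen (b.ds φ) (-1) φ χ (dsN φ) n1 n2,
        sum_other (b.ds φ) (b.ds φ b.v) χ ?_ (Or.inr hχ1), ds1]
      · linear_combination cT - cN
      · intro g hg
        obtain ⟨i1, i2⟩ := invol hDN hg
        have hv1 : b.v ≠ 1 := fun h => hDN.not_mem (h ▸ b.N.one_mem)
        exact hcl _ (clds φ) _ _ i1 hv1 i2 hDN.sq

end StarkC.ABS
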