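import Pool.Agent.ABS.StQR

/-!
# Project ABS, part Q, module QR3: multiplicity one for the half characters
-/

set_option autoImplicit false

open scoped Classical MatrixGroups ComplexConjugate

namespace StarkC.ABS

namespace QR3x

variable {k G : Type} [Field k] [Fintype k] [Group G] [Fintype G] {e : ℤ}

theorem mem_D (d : PD k G e) (g : G) : g ∈ d.D ↔ g * d.z = d.z * g := by
  unfold PD.D
  rw [Subgroup.mem_centralizer_singleton_iff]

theorem sum_one (H : Subgroup G) : ∑ g, (if g ∈ H then (1 : ℂ) else 0) = (Nat.card H : ℂ) := by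
  rw [← Finset.sum_filter, Finset.sum_const, nsmul_eq_mul, Nat.card_eq_fintype_card,
    Fintype.card_subtype, mul_one]

omit [Fintype G] in
theorem ext_one (H : Subgroup G) {g : G} (hg : g ∈ H) : extZ (1 : H →* ℂˣ) g = 1 := by
  unfold extZ
  rw [dif_pos hg]
  simp

/-- the sum of `χ₀` over `T` -/
theorem sum_T (hU : Stmt_PVU) (hD : Stmt_PVD) (d : PD k G e) (ψ : AddChar k ℂ)
    (hq : GoodQ k e) (hone : d.chi ψ 1 = ((Fintype.card k : ℂ) - (e : ℂ)) / 2) :
    ∑ g, (if g ∈ d.T then d.chi ψ g * conj (extZ (1 : d.T →* ℂˣ) g) else 0) =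
      (Nat.card d.T : ℂ) := by
  obtain ⟨-, h2, -, h4⟩ := hD k G e d hq
  obtain ⟨-, -, h5, -⟩ := hU k G e d ψ hq
  have hterm : ∀ g : G, (if g ∈ d.T then d.chi ψ g * conj (extZ (1 : d.T →* ℂˣ) g) else 0) =
      (if g = 1 then ((Fintype.card k : ℂ) - (e : ℂ)) / 2 + (e : ℂ) else 0) -
        (e : ℂ) * (2 * (if g ∈ d.D₁ then (1 : ℂ) else 0) - (if g ∈ d.D then (1 : ℂ) else 0)) +
      (e : ℂ) * (if g * d.z = d.z * g ∧ g ∉ d.T then (if g ∈ d.D₁ then (1 : ℂ) else -1)
        else 0) := by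
    intro g
    by_cases hg : g * d.z = d.z * g
    · have hgD : g ∈ d.D := (mem_D d g).2 hg
      rw [if_pos hgD]
      by_cases hT : g ∈ d.T
      · have hc : ¬ (g * d.z = d.z * g ∧ g ∉ d.T) := fun h => h.2 hT
        rw [if_pos hT, if_neg hc, mul_zero, add_zero, ext_one _ hT, map_one, mul_one]
        by_cases h1 : g = 1
        · subst h1
          rw [if_pos rfl, if_pos d.D₁.one_mem, hone]
          ring
        · rw [if_neg h1]
          have h6 := h2 g hT h1
          have h7 := h5 g hg h1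
          have h8 : d.chi ψ g = -(e : ℂ) * (if g ∈ d.D₁ then 1 else -1) := by
            unfold PD.chi
            rw [h7, ← h6]
            ring
          rw [h8]
          by_cases h9 : g ∈ d.D₁
          · rw [if_pos h9, if_pos h9]
            ring
          · rw [if_neg h9, if_neg h9]
            ring
      · have h1 : g ≠ 1 := by
          rintro rfl
          exact hT d.T.one_mem
        have hc : g * d.z = d.z * g ∧ g ∉ d.T := ⟨hg, hT⟩
        rw [if_neg h1, if_neg hT, if_pos hc]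
        by_cases h9 : g ∈ d.D₁
        · rw [if_pos h9, if_pos h9]
          ring
        · rw [if_neg h9, if_neg h9]
          ring
    · have hgD : g ∉ d.D := fun h => hg ((mem_D d g).1 h)
      have hg1 : g ∉ d.D₁ := fun h => hg (d.D₁_z g h)
      have hgT : g ∉ d.T := fun h => hg (d.T_z g h)
      have h1 : g ≠ 1 := by
        rintro rfl
        exact hgT d.T.one_mem
      have hc : ¬ (g * d.z = d.z * g ∧ g ∉ d.T) := fun h => hg h.1
      rw [if_neg hgD, if_neg hg1, if_neg hgT, if_neg h1, if_neg hc]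
      ring
  rw [Finset.sum_congr rfl fun g _ => hterm g, Finset.sum_add_distrib,
    Finset.sum_sub_distrib, ← Finset.mul_sum, ← Finset.mul_sum, Finset.sum_sub_distrib,
    ← Finset.mul_sum, h4, mul_zero, add_zero, sum_one, sum_one,
    Finset.sum_ite_eq' Finset.univ (1 : G), if_pos (Finset.mem_univ _)]
  have hT : 2 * (Nat.card d.T : ℂ) = (Fintype.card k : ℂ) + (e : ℂ) := by
    exact_mod_cast congrArg (fun n : ℤ => (n : ℂ)) d.card_T
  have hcD : (Nat.card d.D : ℂ) = (Fintype.card k : ℂ) + (e : ℂ) := by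
    exact_mod_cast congrArg (fun n : ℤ => (n : ℂ)) d.card_D
  have hcD₁ : (Nat.card d.D₁ : ℂ) = (Nat.card d.T : ℂ) := by rw [d.card_D₁]
  rw [hcD₁, hcD]
  linear_combination (-(e : ℂ) - 1 / 2) * hT

end QR3x

open QR3x in
theorem QR3_thm : Stmt_QR3 := by
  intro hF hG hU hD hN k G _ _ _ _ e d ψ hq hψ
  obtain ⟨hcl, hone, -, -⟩ := hN hF hG hU hD k G e d ψ hq hψ
  refine ⟨d.T, 1, MonoidHom.ext fun x => one_pow 2, ?_⟩
  rw [hF G d.T (d.chi ψ) (extZ (1 : d.T →* ℂˣ)) hcl, sum_T hU hD d ψ hq hone]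
  have hTne : (Nat.card d.T : ℂ) ≠ 0 := by
    exact_mod_cast Nat.card_pos.ne'
  rw [div_mul_cancel₀ _ hTne]

end StarkC.ABS
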