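import Pool.Agent.ABS.PDefsU

/-!
# Definitions for the statement about one `φ` for all rational-valued characters
-/

open NumberField IsDedekindDomain

namespace StarkP

/-- `σ` is (isomorphic to) a subrepresentation of `ρ`. -/
def IsSub {G V W : Type} [Group G] [AddCommGroup V] [Module ℂ V] [AddCommGroup W] [Module ℂ W]
    (σ : Representation ℂ G W) (ρ : Representation ℂ G V) : Prop :=
  ∃ i : W →ₗ[ℂ] V, Function.Injective i ∧ ∀ g w, i (σ g w) = ρ g (i w)

section Occ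

variable {K L : Type} [Field K] [Field L] [NumberField L] [Algebra K L]
variable {V : Type} [AddCommGroup V] [Module ℂ V]

/-- `Hom_{ℂ[G]}(V^*, ℂ ⊗ X) ≠ 0`, `V^*` the contragredient representation of `ρ`. -/
def OccursIn (T : Set (HeightOneSpectrum (𝓞 L))) (ρ : Representation ℂ (L ≃ₐ[K] L) V) : Prop :=
  ∃ f : Module.Dual ℂ V →ₗ[ℂ] ((L → ℝ) →₀ ℂ), f ≠ 0 ∧ (∀ α, f α ∈ XC L T) ∧
    ∀ (g : L ≃ₐ[K] L) (α : Module.Dual ℂ V), f (ρ.dual g α) = act (g : L ≃+* L) (f α)

end Occ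

end StarkP
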