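import Pool.Agent.ABS.PDefsA

/-!
# Definitions for the statement of Stark's conjecture in norm, all characters
-/

open NumberField IsDedekindDomain

namespace StarkP

open scoped Classical in
/-- The sum of the `σ ∘ χ`, `σ ∈ Gal(ℚ(ζ_n)/ℚ)`, of a function `χ` with values in `ℚ(ζ_n)`: the trace of
`ℚ(ζ_n)/ℚ` of the values. -/
noncomputable def trRoot (n : ℕ) {G : Type} (χ : G → ℂ) : G → ℂ := fun g =>
  if h : χ g ∈ rootField n then ((Algebra.trace ℚ (rootField n) ⟨χ g, h⟩ : ℚ) : ℂ) else 0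

section Norm

variable {K L : Type} [Field K] [NumberField K] [Field L] [NumberField L] [Algebra K L]

/-- The Artin `L`-series of `θ` has a meromorphic continuation `f` and
`A_S(θ, φ) = R / L^* = N(α)` for some `α ∈ E^*`, where `N` is the norm of `E/ℚ`. -/
def NormOf (E : IntermediateField ℚ ℂ) (θ : (L ≃ₐ[K] L) → ℂ)
    (S : Set (HeightOneSpectrum (𝓞 K))) (Θ : ((L → ℝ) →₀ ℂ) →ₗ[ℂ] ((L → ℝ) →₀ ℂ)) : Prop :=
  ∃ (f : ℂ → ℂ) (α : E), IsArtinL θ S f ∧ α ≠ 0 ∧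
    ∀ (V : Type) [AddCommGroup V] [Module ℂ V] [Module.Finite ℂ V]
      (ρ : Representation ℂ (L ≃ₐ[K] L) V), ρ.character = θ →
      Reg (aboveSet K L S) ρ Θ / meromorphicTrailingCoeffAt f 0 = ((Algebra.norm ℚ α : ℚ) : ℂ)

end Norm

end StarkP
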