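import Pool.Agent.ABS.PDefsA

/-!
# Project ABS: norms from cyclic subfields of `ℚ(ζ_n)`

If `a ∈ ℚ^*` is a norm from `ℚ(ζ_q)` for all prime powers `q` exactly dividing `n`, then `a` is a
norm from every subfield of `ℚ(ζ_n)` which is cyclic over `ℚ` (the characters `κ` of
`(ℤ/n)^*` such that `(κ, a) = 0` in the Brauer group form a group; here with explicit cochains).
-/

set_option autoImplicit false

open scoped Classical

namespace StarkC.ABS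

open StarkP (rootField)

/-- The cyclotomic character modulo `n` of `Aut(ℂ)`. -/
noncomputable def cych (n : ℕ) [NeZero n] : (ℂ ≃+* ℂ) →* (ZMod n)ˣ :=
  modularCyclotomicCharacter ℂ (Complex.card_rootsOfUnity n)

/-- The representative in `[0, d)` of `κ(u) ∈ ℤ/d`. -/
def vl {n d : ℕ} (κ : (ZMod n)ˣ →* Multiplicative (ZMod d)) (u : (ZMod n)ˣ) : ℕ :=
  (Multiplicative.toAdd (κ u)).val

/-- The class `(κ, a)` is trivial in `H^2(Gal(ℚ(ζ_n)/ℚ), ℚ(ζ_n)^*)`: there is a cochain `b` with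
coboundary `a ^ carry`. -/
def Coch (n d : ℕ) [NeZero n] (a : ℚ) (κ : (ZMod n)ˣ →* Multiplicative (ZMod d)) : Prop :=
  ∃ b : (ZMod n)ˣ → ℂ, (∀ u, b u ∈ rootField n ∧ b u ≠ 0) ∧
    ∀ (g : ℂ ≃+* ℂ) (w : (ZMod n)ˣ), b (cych n g) * g (b w) =
      b (cych n g * w) * (a : ℂ) ^ ((vl κ (cych n g) + vl κ w) / d)

/-- SCY.  `Aut(ℂ)` maps onto `(ℤ/n)^*` (SIGT), automorphisms with the same value agree on
`ℚ(ζ_n)` (`modularCyclotomicCharacter.spec`), compatibility for `m ∣ n`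
(`modularCyclotomicCharacter.unique`). -/
def Stmt_SCY : Prop :=
  ∀ (n : ℕ) [NeZero n],
    (∀ u : (ZMod n)ˣ, ∃ g : ℂ ≃+* ℂ, cych n g = u) ∧
    (∀ g h : ℂ ≃+* ℂ, cych n g = cych n h → ∀ x ∈ rootField n, g x = h x) ∧
    (∀ g : ℂ ≃+* ℂ, ∀ x ∈ rootField n, g x ∈ rootField n) ∧
    (∀ (m : ℕ) [NeZero m] (h : m ∣ n) (g : ℂ ≃+* ℂ), cych m g = ZMod.unitsMap h (cych n g))

/-- SNM.  The norm of `ℚ(ζ_n)` is the product over `(ℤ/n)^*` (model: ABS/NORMT.lean). -/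
def Stmt_SNM : Prop :=
  ∀ (n : ℕ) [NeZero n] (s : (ZMod n)ˣ → (ℂ ≃+* ℂ)), (∀ u, cych n (s u) = u) →
    ∀ α : rootField n, ((Algebra.norm ℚ α : ℚ) : ℂ) = ∏ u, s u (α : ℂ)

/-- SPB.  If `a = N(α)`, `α ∈ ℚ(ζ_n)`, then every `κ` has a cochain:
`b(u) = ∏_{w, vl κ w < vl κ u} s_w(α)`.  For `g` with `cych n g = u`, `g s_w = s_{u w}` on
`ℚ(ζ_n)`, so `g(b(w)) = ∏_{w', (vl κ w' - vl κ u mod d) < vl κ w} s_{w'}(α)`, and with `b(u)` the
product over `vl κ w' < vl κ u + vl κ w` if this is `≤ d`, and otherwise the product over all `w'`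
(which is `a`) times that over `vl κ w' < vl κ u + vl κ w - d`
(`(vl κ u + vl κ w) / d` is `0` resp. `1`; in the case `= d` use `b = 1` at `vl = 0`). -/
def Stmt_SPB : Prop :=
  Stmt_SCY → Stmt_SNM → ∀ (n d : ℕ) [NeZero n] [NeZero d] (a : ℚ) (α : rootField n), a ≠ 0 →
    Algebra.norm ℚ α = a → ∀ κ : (ZMod n)ˣ →* Multiplicative (ZMod d), Coch n d a κ

/-- SPM.  Products: `b(u) b'(u) a^(-m(u))`, `vl κ u + vl κ' u = vl (κ κ') u + d m(u)`. -/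
def Stmt_SPM : Prop :=
  ∀ (n d : ℕ) [NeZero n] [NeZero d] (a : ℚ) (κ κ' : (ZMod n)ˣ →* Multiplicative (ZMod d)),
    a ≠ 0 → Coch n d a κ → Coch n d a κ' → Coch n d a (κ * κ')

/-- SPI.  Inflation: `b ∘ unitsMap`. -/
def Stmt_SPI : Prop :=
  Stmt_SCY → ∀ (m n d : ℕ) [NeZero m] [NeZero n] (h : m ∣ n) (a : ℚ)
    (κ : (ZMod m)ˣ →* Multiplicative (ZMod d)), Coch m d a κ →
      Coch n d a (κ.comp (ZMod.unitsMap h))

/-- SCR.  Chinese remainder theorem: for coprime `x, y` every `κ` is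
`(κ₁ ∘ unitsMap) (κ₂ ∘ unitsMap)`. -/
def Stmt_SCR : Prop :=
  ∀ (x y d : ℕ) [NeZero x] [NeZero y], x.Coprime y →
    ∀ κ : (ZMod (x * y))ˣ →* Multiplicative (ZMod d),
      ∃ (κ₁ : (ZMod x)ˣ →* Multiplicative (ZMod d)) (κ₂ : (ZMod y)ˣ →* Multiplicative (ZMod d)),
        κ = κ₁.comp (ZMod.unitsMap (Nat.dvd_mul_right x y)) *
          κ₂.comp (ZMod.unitsMap (Nat.dvd_mul_left y x))

/-- SPA.  All `κ`, by `Nat.recOnPosPrimePosCoprime`. -/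
def Stmt_SPA : Prop :=
  Stmt_SCY → Stmt_SNM → Stmt_SPB → Stmt_SPM → Stmt_SPI → Stmt_SCR →
  ∀ (n d : ℕ) [NeZero n] [NeZero d] (a : ℚ), a ≠ 0 →
    (∀ p k : ℕ, p.Prime → 0 < k → p ^ k ∣ n → (n / p ^ k).Coprime p →
      ∃ α : rootField (p ^ k), Algebra.norm ℚ α = a) →
    ∀ κ : (ZMod n)ˣ →* Multiplicative (ZMod d), Coch n d a κ

/-- SH9.  Hilbert 90 for `ker κ`: the cochain may be taken `1` on `ker κ`, so it is constant on its
cosets and its values are fixed by the `g` with `vl κ (cych n g) = 0`.  (`H = ker κ`;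
`c = ∑_{h ∈ H} b(h) s_h(x) ≠ 0` for some `x ∈ ℚ(ζ_n)` by `linearIndependent_monoidHom`;
`g(c) = c / b(cych n g)` for `cych n g ∈ H`; replace `b(u)` by `b(u) s_u(c) / c`; then
`b(h u) = s_h(b(u))`, `b(u h) = b(u)`.) -/
def Stmt_SH9 : Prop :=
  Stmt_SCY → ∀ (n d : ℕ) [NeZero n] [NeZero d] (a : ℚ)
    (κ : (ZMod n)ˣ →* Multiplicative (ZMod d)), a ≠ 0 → Coch n d a κ →
    ∃ b : (ZMod n)ˣ → ℂ, (∀ u, b u ∈ rootField n ∧ b u ≠ 0) ∧
      (∀ (g : ℂ ≃+* ℂ) (w : (ZMod n)ˣ), b (cych n g) * g (b w) =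
        b (cych n g * w) * (a : ℂ) ^ ((vl κ (cych n g) + vl κ w) / d)) ∧
      (∀ u, vl κ u = 0 → b u = 1) ∧
      ∀ (g : ℂ ≃+* ℂ) (u : (ZMod n)ˣ), vl κ (cych n g) = 0 → g (b u) = b u

/-- SKA.  The character of a cyclic field `F ⊆ ℚ(ζ_n)` of degree `d`: `κ` with kernel the
automorphisms trivial on `F`, and the norm as a product over the powers of one `g`,
`κ(g) = 1`. -/
def Stmt_SKA : Prop :=
  Stmt_SCY → ∀ (n : ℕ) [NeZero n] (F : IntermediateField ℚ ℂ), F ≤ rootField n → IsGalois ℚ F →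
    IsCyclic (F ≃ₐ[ℚ] F) → 1 < Module.finrank ℚ F →
    ∃ (κ : (ZMod n)ˣ →* Multiplicative (ZMod (Module.finrank ℚ F))) (g : ℂ ≃+* ℂ),
      vl κ (cych n g) = 1 ∧
      (∀ h : ℂ ≃+* ℂ, (∀ x ∈ F, h x = x) → vl κ (cych n h) = 0) ∧
      ∀ y : F, ((Algebra.norm ℚ y : ℚ) : ℂ) =
        ∏ i ∈ Finset.range (Module.finrank ℚ F), (g ^ i) (y : ℂ)

/-- SFF.  The end: `y = b(cych n g)` is in `F` (ABS/FIXC.lean, FIXCx.core, copied), and
`a = ∏_{i < d} g^i(y)` from `b(u^(j+1)) a^((1 + j) / d) = y g(b(u^j))`, `u = cych n g`. -/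
def Stmt_SFF : Prop :=
  Stmt_SCY → Stmt_SH9 → Stmt_SKA → ∀ (n : ℕ) [NeZero n] (a : ℚ), a ≠ 0 →
    (∀ (d : ℕ) [NeZero d] (κ : (ZMod n)ˣ →* Multiplicative (ZMod d)), Coch n d a κ) →
    ∀ F : IntermediateField ℚ ℂ, F ≤ rootField n → IsGalois ℚ F → IsCyclic (F ≃ₐ[ℚ] F) →
      ∃ β : F, Algebra.norm ℚ β = a

end StarkC.ABS
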