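import Pool.Agent.ABS.StE
import Pool.Agent.ABS.StS
import Pool.Agent.ABS.LAST

/-!
# Project ABS: linear characters of any order, norms from all cyclic subfields
-/

set_option autoImplicit false

open NumberField IsDedekindDomain
open scoped TensorProduct Classical

namespace StarkC.ABS

/-- The end of part S. -/
def Stmt_SYM : Prop :=
  ∀ (n : ℕ) (a : ℚ), 0 < n → a ≠ 0 →
    (∀ p k : ℕ, p.Prime → 0 < k → p ^ k ∣ n → (n / p ^ k).Coprime p →
      ∃ α : StarkP.rootField (p ^ k), Algebra.norm ℚ α = a) →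
    ∀ E : IntermediateField ℚ ℂ, E ≤ StarkP.rootField n → IsGalois ℚ E →
      IsCyclic (E ≃ₐ[ℚ] E) → ∃ β : E, Algebra.norm ℚ β = a

theorem sym_of (h1 : Stmt_SCY) (h2 : Stmt_SNM) (h3 : Stmt_SPB) (h4 : Stmt_SPM) (h5 : Stmt_SPI)
    (h6 : Stmt_SCR) (h7 : Stmt_SPA) (h8 : Stmt_SH9) (h9 : Stmt_SKA) (h10 : Stmt_SFF) :
    Stmt_SYM := by
  intro n a hn ha h E hE hG hc
  have : NeZero n := ⟨hn.ne'⟩
  exact h10 h1 h8 h9 n a ha (fun d _ κ => h7 h1 h2 h3 h4 h5 h6 n d a ha h κ) E hE hG hc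

namespace SYMx

/-- `ℚ(ζ_2) = ℚ`. -/
theorem rootField_two : StarkP.rootField 2 = ⊥ := by
  rw [StarkP.rootField, IntermediateField.adjoin_eq_bot_iff]
  intro z hz
  have hz' : z ^ 2 = 1 := hz
  rcases sq_eq_one_iff.mp hz' with h | h
  · rw [h]; exact one_mem _
  · rw [h]; exact neg_mem (one_mem _)

theorem norm_two (a : ℚ) : ∃ α : StarkP.rootField 2, Algebra.norm ℚ α = a := by
  rw [rootField_two]
  refine ⟨algebraMap ℚ _ a, ?_⟩
  rw [Algebra.norm_algebraMap, IntermediateField.finrank_bot, pow_one]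

/-- A representation with character a sum of linear characters. -/
theorem exists_rep {G : Type} [Group G] (n : ℕ) (ψ : G →* ℂˣ) :
    ∃ (V : Type) (_ : AddCommGroup V) (_ : Module ℂ V) (_ : Module.Finite ℂ V)
      (ρ : Representation ℂ G V), ∀ g, ρ.character g = cSum n ψ g := by
  let D : G → (Ex n → ℂ) := fun g t => ((ψ g : ℂˣ) : ℂ) ^ (t : ℕ)
  let ρ : Representation ℂ G (Ex n → ℂ) :=
    { toFun := fun g => Matrix.toLin' (Matrix.diagonal (D g))
      map_one' := by
        have h1 : Matrix.diagonal (D 1) = (1 : Matrix (Ex n) (Ex n) ℂ) := by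
          rw [← Matrix.diagonal_one]
          congr 1
          funext t
          simp [D]
        rw [h1, Matrix.toLin'_one]
        rfl
      map_mul' := fun g h => by
        have h1 : Matrix.diagonal (D (g * h)) =
            Matrix.diagonal (D g) * Matrix.diagonal (D h) := by
          rw [Matrix.diagonal_mul_diagonal]
          congr 1
          funext t
          simp [D, mul_pow]
        rw [h1, Matrix.toLin'_mul]
        rfl }
  refine ⟨Ex n → ℂ, inferInstance, inferInstance, inferInstance, ρ, fun g => ?_⟩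
  show LinearMap.trace ℂ (Ex n → ℂ) (Matrix.toLin' (Matrix.diagonal (D g))) = _
  rw [Matrix.trace_toLin'_eq, Matrix.trace_diagonal]
  unfold cSum
  rw [← Finset.sum_coe_sort (Ex n)]

end SYMx

/-- Norms from all cyclic subfields, from the values at the prime powers exactly dividing `n`. -/
theorem cyc_of_PT (hS : Stmt_SYM) {K L : Type} [Field K] [NumberField K] [Field L] [NumberField L]
    [Algebra K L] [IsGalois K L] (n : ℕ) (hn : 3 ≤ n) (ψ : (L ≃ₐ[K] L) →* ℂˣ)
    (S : Finset (HeightOneSpectrum (𝓞 K)))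
    (φ : XQ L (aboveSet K L S) ≃ₗ[ℚ] QU L (aboveSet K L S))
    (Θ : XC L (aboveSet K L S) →ₗ[ℂ] XC L (aboveSet K L S))
    (hφ : IsPhiTheta K (aboveSet K L S) φ Θ)
    (h : ∀ ℓ k m : ℕ, ℓ.Prime → 0 < k → 2 < ℓ ^ k → n = ℓ ^ k * m → (ℓ ^ k).Coprime m →
      PT (ℓ ^ k) (cSum n ψ) S Θ) :
    ∃ (F : ℂ → ℂ) (a : ℚ), IsArtinL (cSum n ψ) (S : Set (HeightOneSpectrum (𝓞 K))) F ∧ a ≠ 0 ∧
      (∀ (V : Type) [AddCommGroup V] [Module ℂ V] [Module.Finite ℂ V]
        (ρ : Representation ℂ (L ≃ₐ[K] L) V), (∀ g, ρ.character g = cSum n ψ g) →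
        Reg (aboveSet K L S) ρ Θ = (a : ℂ) * meromorphicTrailingCoeffAt F 0) ∧
      (∀ p k : ℕ, p.Prime → 0 < k → p ^ k ∣ n → (n / p ^ k).Coprime p →
        ∃ α : StarkP.rootField (p ^ k), Algebra.norm ℚ α = a) ∧
      ∀ E : IntermediateField ℚ ℂ, E ≤ StarkP.rootField n → IsGalois ℚ E →
        IsCyclic (E ≃ₐ[ℚ] E) → ∃ β : E, Algebra.norm ℚ β = a := by
  -- one prime power `> 2` exactly dividing `n`
  obtain ⟨p, k, hp, hk, h2, m, hm, hc⟩ : ∃ p k : ℕ, p.Prime ∧ 0 < k ∧ 2 < p ^ k ∧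
      ∃ m, n = p ^ k * m ∧ (p ^ k).Coprime m := by
    have hn0 : n ≠ 0 := by omega
    have key : ∀ p : ℕ, p.Prime → p ∣ n → 2 < p ^ (n.factorization p) →
        ∃ p k : ℕ, p.Prime ∧ 0 < k ∧ 2 < p ^ k ∧ ∃ m, n = p ^ k * m ∧ (p ^ k).Coprime m := by
      intro p hp hpn h2
      have hk : 0 < n.factorization p := hp.factorization_pos_of_dvd hn0 hpn
      exact ⟨p, n.factorization p, hp, hk, h2, n / p ^ n.factorization p,
        (Nat.ordProj_mul_ordCompl_eq_self n p).symm,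
        Nat.Coprime.pow_left _ (Nat.coprime_ordCompl hp hn0)⟩
    by_cases h4 : ∃ p : ℕ, p.Prime ∧ p ∣ n ∧ p ≠ 2
    · obtain ⟨p, hp, hpn, h2⟩ := h4
      refine key p hp hpn ?_
      have hk : 0 < n.factorization p := hp.factorization_pos_of_dvd hn0 hpn
      have h3 : 2 < p := lt_of_le_of_ne hp.two_le (Ne.symm h2)
      exact lt_of_lt_of_le h3 (Nat.le_self_pow hk.ne' p)
    · push Not at h4
      have h5 : n = 2 ^ n.primeFactorsList.length :=
        Nat.eq_prime_pow_of_unique_prime_dvd hn0 fun {d} hd hdn => h4 d hd hdn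
      have h6 : 2 ∣ n := by
        rw [h5]
        refine dvd_pow_self 2 ?_
        intro h0
        rw [h0] at h5
        omega
      refine key 2 Nat.prime_two h6 ?_
      have h7 : n.factorization 2 = n.primeFactorsList.length := by
        conv_lhs => rw [h5]
        rw [Nat.Prime.factorization_pow Nat.prime_two, Finsupp.single_eq_same]
      rw [h7, ← h5]
      omega
  obtain ⟨F, α, hF, hα, hR⟩ := h p k m hp hk h2 hm hc
  have ha : Algebra.norm ℚ α ≠ 0 := by
    have hfd : FiniteDimensional ℚ (Cyc (p ^ k)) := by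
      have h1 : Finite {z : ℂ | z ^ (p ^ k) = 1} := by
        have h3 : {z : ℂ | z ^ (p ^ k) = 1} =
            ((Polynomial.nthRootsFinset (p ^ k) (1 : ℂ) : Finset ℂ) : Set ℂ) := by
          ext z
          rw [Set.mem_ofPred_eq, Finset.mem_coe, Polynomial.mem_nthRootsFinset (by omega)]
        rw [h3]
        exact (Finset.finite_toSet _).to_subtype
      refine IntermediateField.finiteDimensional_adjoin fun z hz => ?_
      refine ⟨Polynomial.X ^ (p ^ k) - Polynomial.C 1,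
        Polynomial.monic_X_pow_sub_C 1 (by omega), ?_⟩
      have hz' : z ^ (p ^ k) = 1 := hz
      simp [hz']
    exact (Algebra.norm_ne_zero_iff).2 hα
  obtain ⟨V, _, _, _, ρ, hρ⟩ := SYMx.exists_rep (G := L ≃ₐ[K] L) n ψ
  have hreg : Reg (aboveSet K L S) ρ Θ ≠ 0 := StarkG.reg_ne_zero S φ Θ hφ V ρ
  have hpp : ∀ p' k' : ℕ, p'.Prime → 0 < k' → p' ^ k' ∣ n → (n / p' ^ k').Coprime p' →
      ∃ β : StarkP.rootField (p' ^ k'), Algebra.norm ℚ β = Algebra.norm ℚ α := by
    intro p' k' hp' hk' hd hc'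
    by_cases h2' : 2 < p' ^ k'
    · obtain ⟨F', α', hF', hα', hR'⟩ := h p' k' (n / p' ^ k') hp' hk' h2'
        (Nat.mul_div_cancel' hd).symm (Nat.Coprime.pow_left _ hc'.symm)
      have ht : meromorphicTrailingCoeffAt F' 0 = meromorphicTrailingCoeffAt F 0 :=
        LASTx.trail_unique hF'.1 hF.1 fun s hs => by rw [hF'.2 s hs, hF.2 s hs]
      have h3 := hR V ρ hρ
      have h4 := hR' V ρ hρ
      rw [ht] at h4
      rw [h3] at h4 hreg
      have h5 := mul_right_cancel₀ (right_ne_zero_of_mul hreg) h4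
      refine ⟨α', ?_⟩
      have h6 : ((Algebra.norm ℚ α : ℚ) : ℂ) = ((Algebra.norm ℚ α' : ℚ) : ℂ) := h5
      exact (Rat.cast_injective h6).symm
    · have h3 : p' ^ k' = 2 := by
        have h4 : 2 ≤ p' ^ k' := le_trans hp'.two_le (Nat.le_self_pow hk'.ne' p')
        omega
      rw [h3]
      exact SYMx.norm_two _
  exact ⟨F, Algebra.norm ℚ α, hF, ha, fun V _ _ _ ρ hρ => hR V ρ hρ, hpp,
    hS n _ (by omega) ha hpp⟩

end StarkC.ABS
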