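import Pool.Agent.ABS.StF
import Pool.Agent.ABS.SYMG
import Pool.Agent.ABS.PDefsU

/-!
# Project ABS (MP_46b841_nt), part U: all characters of all finite Galois extensions

THEOREM (U).  `L/K` any finite Galois extension of number fields, `χ` the character of any representation
of `G = Gal(L/K)`, `n ≥ 1` with `g^n = 1` for all `g ∈ G`, `E ⊆ ℚ(ζ_n)` cyclic over `ℚ`.  Then
`A_S(∑_σ χ^σ, φ) = N_{E/ℚ}(α)`, `α ∈ E^*`, the sum over `σ ∈ Gal(ℚ(ζ_n)/ℚ)` (Stark predicts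
`N_{ℚ(ζ_n)/ℚ}(A_S(χ, φ))`).

THEOREM (P) (helper76).  `E ⊆ ℚ(ζ_N)` cyclic over `ℚ`, `θ = ∑_i c_i Ind_(H_i) Tr ψ_i`, where `Tr ψ` is the
sum of the `φ(o)` conjugates of a linear character `ψ` of exact order `o`, and
`[E : E ∩ ℚ(ψ_i)]` divides `c_i` for all `i`.  Then `A_S(θ, φ) = N_{E/ℚ}(α)`.
PROOF.  `y_i = A(Ind Tr ψ_i) = N(β_i)` with `β_i ∈ E_i = E ∩ ℚ(ζ_o)` (`E_i/ℚ` is cyclic; PV3, PV2, PV1: the
theorem of v1 for the fixed field of `H_i`), `N_{E/ℚ}(β_i) = y_i^[E : E_i]` (PFN), so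
`∏ y_i^(c_i)` is a norm from `E` (PPP); PCX: `A(θ) = ∏ y_i^(c_i)`.
PROOF of (U): Brauer's theorem `χ = ∑ c_i Ind_(H_i) ψ_i`, `ψ_i^n = 1`;
`∑_σ χ^σ = ∑_i c_i ∑_{t ∈ Ex n} Ind ψ_i^t = ∑_i c_i (φ(n)/φ(o_i)) Ind Tr ψ_i` (UTR, UEX), and
`[E : E ∩ ℚ(ζ_o)]` divides `φ(n)/φ(o)` (UDV).

Module `X` proves `theorem StarkC.ABS.X_thm : Stmt_X` in the file `Pool/Agent/ABS/X.lean` (import
`Pool.Agent.ABS.StU` and finished modules of ABS if you like); helper lemmas in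
`namespace StarkC.ABS.Xx`.  The statements used are hypotheses inside `Stmt_X`.
-/

set_option autoImplicit false

open NumberField IsDedekindDomain
open scoped TensorProduct Classical

namespace StarkC.ABS

open StarkP (rootField trRoot)

/-! ### Values -/

/-- `x ∈ ℚ^*`, and `x` is the norm of an element of every subfield of `ℚ(ζ_o)` which is cyclic over `ℚ`. -/
def QQ (o : ℕ) (x : ℂ) : Prop :=
  ∃ a : ℚ, a ≠ 0 ∧ x = (a : ℂ) ∧ ∀ E : IntermediateField ℚ ℂ, E ≤ rootField o → IsGalois ℚ E →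
    IsCyclic (E ≃ₐ[ℚ] E) → ∃ β : E, Algebra.norm ℚ β = a

/-- `A_S(∑_{t ∈ Ex q} ψ^t, φ)` has the property `Q`, for all `φ` (compare `PPall`). -/
def VAll (q : ℕ) (Q : ℂ → Prop) {K L : Type} [Field K] [NumberField K] [Field L] [NumberField L]
    [Algebra K L] (ψ : (L ≃ₐ[K] L) →* ℂˣ) (S : Finset (HeightOneSpectrum (𝓞 K))) : Prop :=
  ∀ (φ : XQ L (aboveSet K L S) ≃ₗ[ℚ] QU L (aboveSet K L S))
    (Θ : XC L (aboveSet K L S) →ₗ[ℂ] XC L (aboveSet K L S)),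
    IsPhiTheta K (aboveSet K L S) φ Θ →
    ∃ (F : ℂ → ℂ) (x : ℂ), IsArtinL (cSum q ψ) (S : Set (HeightOneSpectrum (𝓞 K))) F ∧ x ≠ 0 ∧ Q x ∧
      cReg q (aboveSet K L S) ψ Θ = x * meromorphicTrailingCoeffAt F 0

/-- The conclusion of ORDN. -/
def ConclN : Prop :=
  ∀ (K L : Type) [Field K] [NumberField K] [Field L] [NumberField L] [Algebra K L] [IsGalois K L]
    (ℓ k m : ℕ) (ψ : (L ≃ₐ[K] L) →* ℂˣ) (S : Finset (HeightOneSpectrum (𝓞 K)))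
    (φ : XQ L (aboveSet K L S) ≃ₗ[ℚ] QU L (aboveSet K L S))
    (Θ : XC L (aboveSet K L S) →ₗ[ℂ] XC L (aboveSet K L S)),
    OkOrd ℓ k → 0 < m → (ℓ ^ k).Coprime m → orderOf ψ = ℓ ^ k * m →
    IsPhiTheta K (aboveSet K L S) φ Θ → PT (ℓ ^ k) (cSum (ℓ ^ k * m) ψ) S Θ

/-- The trivial character. -/
def ConclOne : Prop :=
  ∀ (K L : Type) [Field K] [NumberField K] [Field L] [NumberField L] [Algebra K L] [IsGalois K L]
    (S : Finset (HeightOneSpectrum (𝓞 K))), PPall 1 (1 : (L ≃ₐ[K] L) →* ℂˣ) S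

/-- PCX (about 90 lines).  Combinations with arbitrary properties of the values: the proof of `FCX_thm`
(`ABS/FCX.lean`) with `x i` in place of `nm (q i) (α i)`. -/
def Stmt_PCX : Prop :=
  ∀ (K L : Type) [Field K] [NumberField K] [Field L] [NumberField L] [Algebra K L] [IsGalois K L]
    (S : Finset (HeightOneSpectrum (𝓞 K)))
    (φ : XQ L (aboveSet K L S) ≃ₗ[ℚ] QU L (aboveSet K L S))
    (Θ : XC L (aboveSet K L S) →ₗ[ℂ] XC L (aboveSet K L S))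
    (r : ℕ) (H : Fin r → Subgroup (L ≃ₐ[K] L)) (q : Fin r → ℕ) (ψ : ∀ i, H i →* ℂˣ)
    (Q : Fin r → ℂ → Prop),
    IsPhiTheta K (aboveSet K L S) φ Θ →
    (∀ i (S' : Finset (HeightOneSpectrum (𝓞 (IntermediateField.fixedField (H i))))),
      VAll (q i) (Q i) (liftChar (H i) (ψ i)) S') →
    ∃ x : Fin r → ℂ, (∀ i, x i ≠ 0 ∧ Q i (x i)) ∧
      ∀ (c : Fin r → ℤ) (θ : (L ≃ₐ[K] L) → ℂ),
        (∀ g, θ g = ∑ i, (c i : ℂ) * ∑ t ∈ Ex (q i), indFun (H i) (extZ (ψ i ^ t)) g) →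
        ∃ F : ℂ → ℂ, IsArtinL θ (S : Set (HeightOneSpectrum (𝓞 K))) F ∧
          ∀ (V : Type) [AddCommGroup V] [Module ℂ V] [Module.Finite ℂ V]
            (ρ : Representation ℂ (L ≃ₐ[K] L) V), (∀ g, ρ.character g = θ g) →
            Reg (aboveSet K L S) ρ Θ = (∏ i, x i ^ c i) * meromorphicTrailingCoeffAt F 0

/-- PV1 (about 50 lines), the trivial character.  `α ∈ Cyc 1 = rootField 1 = ⊥`, `a = N(α)`; every
`E ≤ rootField 1 = ⊥` is `⊥`, and `a = N(algebraMap ℚ ⊥ a)` (`Algebra.norm_algebraMap`,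
`IntermediateField.finrank_bot`; see `SYMx.norm_two`, `SYMx.rootField_two`). `a ≠ 0` as `α ≠ 0`. -/
def Stmt_PV1 : Prop :=
  ConclOne →
  ∀ (K L : Type) [Field K] [NumberField K] [Field L] [NumberField L] [Algebra K L] [IsGalois K L]
    (S : Finset (HeightOneSpectrum (𝓞 K))), VAll 1 (QQ 1) (1 : (L ≃ₐ[K] L) →* ℂˣ) S

/-- PV2 (about 120 lines), quadratic characters: `ψ = Ind_(ker ψ) 1 - Ind_⊤ 1`.  PCX with
`H = ![⊤, ψ.ker]`, the trivial characters, `q = 1`, `Q = QQ 1` (`liftChar H 1 = 1`), `c = ![-1, 1]`,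
`θ g = ψ g` (`Ex 1 = {0}`; `Ind_(ker ψ) 1 (g) = 2` if `ψ g = 1` and `0` otherwise, as the index is `2`:
`IDXx.index_ker`).  `Ex 2 = {1}`, so `cSum 2 ψ = ψ` and `cReg 2 T ψ Θ = Reg T (linRep (ψ ^ 1)) Θ`.
`x = x₀⁻¹ x₁ ∈ ℚ^*`, and `rootField 2 = ⊥` (`SYMx.rootField_two`). -/
def Stmt_PV2 : Prop :=
  Stmt_PCX →
  (∀ (K L : Type) [Field K] [NumberField K] [Field L] [NumberField L] [Algebra K L] [IsGalois K L]
    (S : Finset (HeightOneSpectrum (𝓞 K))), VAll 1 (QQ 1) (1 : (L ≃ₐ[K] L) →* ℂˣ) S) →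
  ∀ (K L : Type) [Field K] [NumberField K] [Field L] [NumberField L] [Algebra K L] [IsGalois K L]
    (ψ : (L ≃ₐ[K] L) →* ℂˣ) (S : Finset (HeightOneSpectrum (𝓞 K))), orderOf ψ = 2 →
    VAll 2 (QQ 2) ψ S

/-- PV3 (about 60 lines), order at least three: `cyc_of_PT` (`ABS/SYMG.lean`; used as in
`ABS/RESG.lean`, `0 < m` because `orderOf ψ ≠ 0`), and `cReg` from the values by `RESFx.creg_of`
(`ABS/RESF.lean`). -/
def Stmt_PV3 : Prop :=
  Stmt_SYM → ConclN →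
  ∀ (K L : Type) [Field K] [NumberField K] [Field L] [NumberField L] [Algebra K L] [IsGalois K L]
    (ψ : (L ≃ₐ[K] L) →* ℂˣ) (S : Finset (HeightOneSpectrum (𝓞 K))), 3 ≤ orderOf ψ →
    VAll (orderOf ψ) (QQ (orderOf ψ)) ψ S

/-! ### Fields -/

/-- PFN (about 70 lines).  Norms in the tower `E' ⊆ E`: with the algebra structure of
`IntermediateField.inclusion h`, `Algebra.norm_norm` and `Algebra.norm_algebraMap`
(`Module.finrank_mul_finrank`).  `E'` has finite degree as a subspace of `E`. -/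
def Stmt_PFN : Prop :=
  ∀ (E E' : IntermediateField ℚ ℂ) (h : E' ≤ E), FiniteDimensional ℚ E →
    ∃ k : ℕ, 0 < k ∧ Module.finrank ℚ E = k * Module.finrank ℚ E' ∧
      ∀ β : E', Algebra.norm ℚ (IntermediateField.inclusion h β) = Algebra.norm ℚ β ^ k

/-- PCY (about 40 lines).  A subfield `F` of a field `E ⊆ ℚ(ζ_N)` which is cyclic over `ℚ`: Galois by
`galois_of_le` (`ABS/SYMH.lean`), and its group is a quotient of that of `E`
(`AlgEquiv.restrictNormalHom_surjective`, `isCyclic_of_surjective`, with the algebra structure of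
`IntermediateField.inclusion`; see `FENx.cyc` in `ABS/FEN.lean`). -/
def Stmt_PCY : Prop :=
  ∀ (N : ℕ) (E F : IntermediateField ℚ ℂ), 0 < N → E ≤ rootField N → F ≤ E →
    IsCyclic (E ≃ₐ[ℚ] E) → IsGalois ℚ F ∧ IsCyclic (F ≃ₐ[ℚ] F)

/-- UDV (about 120 lines).  `[E : E ∩ ℚ(ζ_o)]` divides `[ℚ(ζ_n) : ℚ(ζ_o)] = φ(n)/φ(o)`.
Proof: inside `M = ℚ(ζ_n)`, Galois over `ℚ` with an abelian group `A` (`IsCyclotomicExtension.autEquivPow`,
`FENx.isCyc`), let `U`, `W` be the groups which fix `E` and `ℚ(ζ_o)` (both as intermediate fields of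
`M/ℚ`: `IntermediateField.restrict` or `comap` of `M.val`).  The group of `E ∩ ℚ(ζ_o)` is `U ⊔ W`
(`IsGalois.intermediateFieldEquivSubgroup`), `[E : E ∩ ℚ(ζ_o)] = [U ⊔ W : U] = [W : U ⊓ W]`
(`Subgroup.relIndex_sup_left` or similar; `U` is normal) divides `|W| = [M : ℚ(ζ_o)]`
(`IsGalois.card_fixingSubgroup_eq_finrank`).  Or with fields only: `M ⊇ E ℚ(ζ_o) ⊇ ℚ(ζ_o)` and
`[E F : F] = [E : E ∩ F]` for `E/ℚ` Galois, if Mathlib has it
(`IntermediateField.finrank_sup`, `IsGalois`...). -/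
def Stmt_UDV : Prop :=
  ∀ (n o : ℕ) (E : IntermediateField ℚ ℂ), 0 < n → o ∣ n → E ≤ rootField n →
    Module.finrank ℚ E ∣ n.totient / o.totient *
      Module.finrank ℚ (E ⊓ rootField o : IntermediateField ℚ ℂ)

/-! ### Theorem (P) -/

/-- `A_S(θ, φ) = N(α)`, `α ∈ E^*`. -/
def PE (E : IntermediateField ℚ ℂ) {K L : Type} [Field K] [NumberField K] [Field L] [NumberField L]
    [Algebra K L] (θ : (L ≃ₐ[K] L) → ℂ) (S : Finset (HeightOneSpectrum (𝓞 K)))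
    (Θ : XC L (aboveSet K L S) →ₗ[ℂ] XC L (aboveSet K L S)) : Prop :=
  ∃ (F : ℂ → ℂ) (α : E), IsArtinL θ (S : Set (HeightOneSpectrum (𝓞 K))) F ∧ α ≠ 0 ∧
    ∀ (V : Type) [AddCommGroup V] [Module ℂ V] [Module.Finite ℂ V]
      (ρ : Representation ℂ (L ≃ₐ[K] L) V), (∀ g, ρ.character g = θ g) →
      Reg (aboveSet K L S) ρ Θ =
        ((Algebra.norm ℚ α : ℚ) : ℂ) * meromorphicTrailingCoeffAt F 0

/-- The values for all linear characters. -/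
def ConclV : Prop :=
  ∀ (K L : Type) [Field K] [NumberField K] [Field L] [NumberField L] [Algebra K L] [IsGalois K L]
    (ψ : (L ≃ₐ[K] L) →* ℂˣ) (S : Finset (HeightOneSpectrum (𝓞 K))),
    VAll (orderOf ψ) (QQ (orderOf ψ)) ψ S

/-- PPP (about 120 lines), THEOREM (P).  PCX with `q i = orderOf (ψ i)` (`liftChar (H i) (ψ i)` has the
same order: it is `ψ i` composed with an isomorphism), `Q i = QQ (orderOf (ψ i))`.  For every `i`:
`x i = a_i`, `E_i = E ⊓ rootField o_i` is Galois and cyclic over `ℚ` (PCY), so `a_i = N(β_i)`, `β_i ∈ E_i`;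
`[E : ℚ] = k_i [E_i : ℚ]` and `N_{E/ℚ}(β_i) = a_i ^ k_i` (PFN); `[E : ℚ]` divides `c_i [E_i : ℚ]`, so
`c_i = k_i d_i` with an integer `d_i` (`[E_i : ℚ] > 0`), and `x i ^ c i = N(β_i ^ d_i)`
(`zpow` in the field `E`; `β_i ≠ 0`).  `α = ∏ β_i ^ d_i` (compare `COMBx.nm_zpow`, `nm_prod`). -/
def Stmt_PPP : Prop :=
  Stmt_PCX → Stmt_PFN → Stmt_PCY → ConclV →
  ∀ (K L : Type) [Field K] [NumberField K] [Field L] [NumberField L] [Algebra K L] [IsGalois K L]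
    (S : Finset (HeightOneSpectrum (𝓞 K)))
    (φ : XQ L (aboveSet K L S) ≃ₗ[ℚ] QU L (aboveSet K L S))
    (Θ : XC L (aboveSet K L S) →ₗ[ℂ] XC L (aboveSet K L S))
    (N : ℕ) (E : IntermediateField ℚ ℂ)
    (r : ℕ) (H : Fin r → Subgroup (L ≃ₐ[K] L)) (ψ : ∀ i, H i →* ℂˣ) (c : Fin r → ℤ)
    (θ : (L ≃ₐ[K] L) → ℂ),
    IsPhiTheta K (aboveSet K L S) φ Θ → 0 < N → E ≤ rootField N → IsCyclic (E ≃ₐ[ℚ] E) →
    (∀ i, (Module.finrank ℚ E : ℤ) ∣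
      c i * Module.finrank ℚ (E ⊓ rootField (orderOf (ψ i)) : IntermediateField ℚ ℂ)) →
    (∀ g, θ g = ∑ i, (c i : ℂ) * ∑ t ∈ Ex (orderOf (ψ i)), indFun (H i) (extZ (ψ i ^ t)) g) →
    PE E θ S Θ

/-! ### Theorem (U) -/

/-- UEX (about 60 lines).  Reduction modulo `o ∣ n` maps the `t ∈ Ex n` onto the `t ∈ Ex o`, all fibres have
`φ(n)/φ(o)` elements (`ZMod.unitsMap_surjective`; the fibres of a surjective homomorphism
`(ZMod n)ˣ → (ZMod o)ˣ` have equal size; `Ex n` corresponds to `(ZMod n)ˣ` by `ZMod.val`, for `n = 1`: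
`Ex 1 = {0}`).  (A proof is inside `ABS/FPD.lean` for prime powers.) -/
def Stmt_UEX : Prop :=
  ∀ (n o : ℕ) (f : ℕ → ℂ), 0 < n → o ∣ n → (∀ t, f (t % o) = f t) →
    ∑ t ∈ Ex n, f t = ((n.totient / o.totient : ℕ) : ℂ) * ∑ t ∈ Ex o, f t

/-- UTR (about 120 lines).  The trace of `ℚ(ζ_n)/ℚ` of the values of `χ = ∑ c_i Ind ψ_i`.  `χ g` is in
`rootField n = Cyc n` (sums of `n`-th roots of unity with rational coefficients).  Let `σ_t`, `t ∈ Ex n`,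
be automorphisms with `σ_t z = z^t` for `z^n = 1` (SIGT); TRT gives `trRoot n χ g = ∑_{t ∈ Ex n} σ_t (χ g)`,
and `σ_t (indFun H (extZ ψ) g) = indFun H (extZ (ψ ^ t)) g` (`ψ^n = 1`; outside `H` both extensions by
zero are zero). -/
def Stmt_UTR : Prop :=
  Stmt_SIGT → Stmt_TRT →
  ∀ (G : Type) [Group G] [Fintype G] (n r : ℕ) (χ : G → ℂ) (H : Fin r → Subgroup G)
    (ψ : ∀ i, H i →* ℂˣ) (c : Fin r → ℤ), 0 < n → (∀ i, ψ i ^ n = 1) →
    (∀ g, χ g = ∑ i, (c i : ℂ) * indFun (H i) (extZ (ψ i)) g) →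
    ∀ g, χ g ∈ rootField n ∧
      trRoot n χ g = ∑ i, (c i : ℂ) * ∑ t ∈ Ex n, indFun (H i) (extZ (ψ i ^ t)) g

/-- UAS (about 100 lines), THEOREM (U).  Brauer (`Stmt_BRA`) gives `χ = ρ.character = ∑ c_i Ind ψ_i`, and
`ψ_i^n = 1` as `g^n = 1` on `G`; UTR, UEX (`f t = indFun (H i) (extZ (ψ i ^ t)) g` depends on `t` modulo
`o_i = orderOf (ψ i)`, `o_i ∣ n`: `orderOf_dvd_of_pow_eq_one`, `pow_mod_orderOf`); so
`trRoot n χ = ∑ (c_i φ(n)/φ(o_i)) ∑_{t ∈ Ex o_i} Ind ψ_i^t`.  The conclusion of PPP (hypothesis `hP`) with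
UDV.  The end as `RESFx.normIn_of` (`StarkB.exists_isPhiTheta` gives `φ`, `Θ₀`; `StarkG.reg_ne_zero`). -/
def Stmt_UAS : Prop :=
  Stmt_BRA → Stmt_SIGT → Stmt_TRT → Stmt_UTR → Stmt_UEX → Stmt_UDV →
  (∀ (K L : Type) [Field K] [NumberField K] [Field L] [NumberField L] [Algebra K L] [IsGalois K L]
    (S : Finset (HeightOneSpectrum (𝓞 K)))
    (φ : XQ L (aboveSet K L S) ≃ₗ[ℚ] QU L (aboveSet K L S))
    (Θ : XC L (aboveSet K L S) →ₗ[ℂ] XC L (aboveSet K L S))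
    (N : ℕ) (E : IntermediateField ℚ ℂ)
    (r : ℕ) (H : Fin r → Subgroup (L ≃ₐ[K] L)) (ψ : ∀ i, H i →* ℂˣ) (c : Fin r → ℤ)
    (θ : (L ≃ₐ[K] L) → ℂ),
    IsPhiTheta K (aboveSet K L S) φ Θ → 0 < N → E ≤ rootField N → IsCyclic (E ≃ₐ[ℚ] E) →
    (∀ i, (Module.finrank ℚ E : ℤ) ∣
      c i * Module.finrank ℚ (E ⊓ rootField (orderOf (ψ i)) : IntermediateField ℚ ℂ)) →
    (∀ g, θ g = ∑ i, (c i : ℂ) * ∑ t ∈ Ex (orderOf (ψ i)), indFun (H i) (extZ (ψ i ^ t)) g) →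
    PE E θ S Θ) →
  ∀ (K L : Type) [Field K] [NumberField K] [Field L] [NumberField L] [Algebra K L]
    [IsGalois K L] (V : Type) [AddCommGroup V] [Module ℂ V] [Module.Finite ℂ V]
    (ρ : Representation ℂ (L ≃ₐ[K] L) V) (n : ℕ)
    (S : Finset (HeightOneSpectrum (𝓞 K))) (Θ : ((L → ℝ) →₀ ℂ) →ₗ[ℂ] ((L → ℝ) →₀ ℂ))
    (E : IntermediateField ℚ ℂ),
    StarkP.IsTheta K (StarkP.aboveSet K L S) Θ → 0 < n → (∀ g : L ≃ₐ[K] L, g ^ n = 1) →
    E ≤ rootField n → IsCyclic (E ≃ₐ[ℚ] E) →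
    StarkP.NormOf E (trRoot n ρ.character) (S : Set (HeightOneSpectrum (𝓞 K))) Θ

end StarkC.ABS
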