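import Pool.Agent.ABS.StN
import Pool.Agent.ABS.StU
import Pool.Agent.ABS.StG

/-!
# Project ABS (MP_46b841_nt), part N: the assembly

See `ABS/StN.lean` for the theorem.  Module `X` proves `theorem StarkC.ABS.X_thm : Stmt_X` in the file
`Pool/Agent/ABS/X.lean` (import `Pool.Agent.ABS.StN2` and finished modules); helper lemmas in
`namespace StarkC.ABS.Xx`.  The statements used are hypotheses inside `Stmt_X`.
-/

set_option autoImplicit false

open NumberField IsDedekindDomain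
open scoped TensorProduct Classical

namespace StarkC.ABS

open StarkP (rootField charField trChar NormIn AbsIn IsTheta)

/-- `x` is the norm of an element of `ℚ(ζ_q)^*`. -/
def QN (q : ℕ) (x : ℂ) : Prop := ∃ α : Cyc q, α ≠ 0 ∧ x = nm q α

/-- The conclusion of NVQ. -/
def ConclNVQ : Prop :=
  ∀ (K L : Type) [Field K] [NumberField K] [Field L] [NumberField L] [Algebra K L] [IsGalois K L]
    (ψ : (L ≃ₐ[K] L) →* ℂˣ) (S : Finset (HeightOneSpectrum (𝓞 K))) (ℓ k m : ℕ),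
    OkOrd ℓ k → 0 < m → (ℓ ^ k).Coprime m → orderOf ψ = ℓ ^ k * m →
    VAll (orderOf ψ) (QN (ℓ ^ k)) ψ S

/-- NVQ (40 lines).  PROOF. `ConclN` gives `F`, `α` with `IsArtinL (cSum (ℓ ^ k * m) ψ) S F` and the
regulators of all representations with this character; `x = nm (ℓ ^ k) α`, which is not zero as
`α ≠ 0` (`Algebra.norm_ne_zero_iff`; see `COMBx`), and `cReg` from the values by
`RESFx.creg_of` (`ABS/RESF.lean`). -/
def Stmt_NVQ : Prop := ConclN → ConclNVQ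

/-- NIN (70 lines).  PROOF. PCX with `r = 1`, `H`, `q = orderOf ψ`, `Q = QN (ℓ ^ k)`, `c = 1`.
`liftChar H ψ` (a character of the Galois group of `L` over the fixed field of `H`) has the same order
as `ψ` (see `hord'` in `abs_ind`, `ABS/ABL.lean`), so the hypothesis of PCX is the conclusion of NVQ
over the fixed field of `H` (with `L` Galois over it).  `x 0 = nm (ℓ ^ k) α`. -/
def Stmt_NIN : Prop :=
  Stmt_PCX → ConclNVQ →
  ∀ (K L : Type) [Field K] [NumberField K] [Field L] [NumberField L] [Algebra K L] [IsGalois K L]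
    (S : Finset (HeightOneSpectrum (𝓞 K)))
    (φ : XQ L (aboveSet K L S) ≃ₗ[ℚ] QU L (aboveSet K L S))
    (Θ : XC L (aboveSet K L S) →ₗ[ℂ] XC L (aboveSet K L S))
    (H : Subgroup (L ≃ₐ[K] L)) (ψ : H →* ℂˣ) (ℓ k m : ℕ) (θ : (L ≃ₐ[K] L) → ℂ),
    IsPhiTheta K (aboveSet K L S) φ Θ → OkOrd ℓ k → 0 < m → (ℓ ^ k).Coprime m →
    orderOf ψ = ℓ ^ k * m →
    (∀ g, θ g = ∑ t ∈ Ex (orderOf ψ), indFun H (extZ (ψ ^ t)) g) → PT (ℓ ^ k) θ S Θ

/-- NQF (90 lines), which cyclotomic fields are equal to `ℚ(ζ_q)`, `q ≥ 3` a prime power.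
PROOF. `q = ℓ ^ j`.  `n` = the least common multiple of `o` and `q`; `rootField n` is the compositum of
`rootField o` and `rootField q` (an `n`-th root of unity is a product of an `o`-th and a `q`-th one), so
`rootField n = rootField q` and `φ(n) = φ(q)` (`RESFx.finrank_cyc`).  `n = q c`,
`φ(q) φ(c) ≤ φ(q c)` (`Nat.totient_super_multiplicative`), so `φ(c) = 1`, `c ≤ 2`
(`Nat.totient_eq_one_iff`), and `c = 2` only for odd `q` (`φ(2 q) = 2 φ(q)` for even `q`).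
In the same way `n = o c'` with `c' = 1`, or `c' = 2` and `o` odd.  `q` odd: `n = q` or `n = 2 q`; `o = n` or
`o = n / 2` with `o` odd, so `o = q` (`m = 1`) or `o = 2 q` (`m = 2`).  `q` even: `n = q`, and `o = n` or
`o = q / 2` odd, which is impossible for `q = 2 ^ j ≥ 4`; so `o = q`, `m = 1`. -/
def Stmt_NQF : Prop :=
  ∀ q o : ℕ, IsPrimePow q → 3 ≤ q → 0 < o → rootField o = rootField q →
    ∃ ℓ k m : ℕ, OkOrd ℓ k ∧ 0 < m ∧ (ℓ ^ k).Coprime m ∧ o = ℓ ^ k * m ∧ q = ℓ ^ k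

/-- NRE (40 lines).  PROOF. `rootField o` is contained in the real numbers only if `o ≤ 2`: for `o ≥ 3` it
contains the primitive `o`-th root of unity `exp (2 π i / o)` with imaginary part
`sin (2 π / o) > 0`.  If all `χ g` are real then
`charField χ` is contained in the subfield of `ℂ` of all real numbers (as an intermediate field of
`ℂ/ℚ`: `(algebraMap ℝ ℂ).fieldRange` with its `ℚ`-structure, or `IntermediateField.adjoin_le_iff` with
`{z | conj z = z}`).  For `o ≤ 2` the degree of `rootField o` is `φ(o) = 1`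
(`RESFx.finrank_cyc`). -/
def Stmt_NRE : Prop :=
  ∀ (G : Type) (χ : G → ℂ) (o : ℕ), 0 < o → charField χ = rootField o →
    Module.finrank ℚ (charField χ) = 2 → ∃ g, (χ g).im ≠ 0

/-- The conclusion of PPP. -/
def ConclPPP : Prop :=
  ∀ (K L : Type) [Field K] [NumberField K] [Field L] [NumberField L] [Algebra K L] [IsGalois K L]
    (S : Finset (HeightOneSpectrum (𝓞 K)))
    (φ : XQ L (aboveSet K L S) ≃ₗ[ℚ] QU L (aboveSet K L S))
    (Θ : XC L (aboveSet K L S) →ₗ[ℂ] XC L (aboveSet K L S))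
    (N : ℕ) (E : IntermediateField ℚ ℂ)
    (r : ℕ) (H : Fin r → Subgroup (L ≃ₐ[K] L)) (ψ : ∀ i, H i →* ℂˣ) (c : Fin r → ℤ)
    (θ : (L ≃ₐ[K] L) → ℂ),
    IsPhiTheta K (aboveSet K L S) φ Θ → 0 < N → E ≤ rootField N → IsCyclic (E ≃ₐ[ℚ] E) →
    (∀ i, (Module.finrank ℚ E : ℤ) ∣
      c i * Module.finrank ℚ (E ⊓ rootField (orderOf (ψ i)) : IntermediateField ℚ ℂ)) →
    (∀ g, θ g = ∑ i, (c i : ℂ) * ∑ t ∈ Ex (orderOf (ψ i)), indFun (H i) (extZ (ψ i ^ t)) g) →
    PE E θ S Θ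

/-- The conclusion of FAB. -/
def ConclFAB : Prop :=
  ∀ (K L : Type) [Field K] [NumberField K] [Field L] [NumberField L] [Algebra K L]
    [IsGalois K L] (χ : (L ≃ₐ[K] L) → ℂ) (n m : ℕ)
    (S : Finset (HeightOneSpectrum (𝓞 K))) (Θ : ((L → ℝ) →₀ ℂ) →ₗ[ℂ] ((L → ℝ) →₀ ℂ)),
    IsTheta K (StarkP.aboveSet K L S) Θ → 0 < n → 0 < m →
    MonC n (fun g => (m : ℂ) * χ g) →
    Module.finrank ℚ (charField χ) = 2 → (∃ g, (χ g).im ≠ 0) →
    NormIn (charField χ) χ (S : Set (HeightOneSpectrum (𝓞 K))) Θ →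
    AbsIn χ (S : Set (HeightOneSpectrum (𝓞 K))) Θ

/-- The conclusion of NIN. -/
def ConclNIN : Prop :=
  ∀ (K L : Type) [Field K] [NumberField K] [Field L] [NumberField L] [Algebra K L] [IsGalois K L]
    (S : Finset (HeightOneSpectrum (𝓞 K)))
    (φ : XQ L (aboveSet K L S) ≃ₗ[ℚ] QU L (aboveSet K L S))
    (Θ : XC L (aboveSet K L S) →ₗ[ℂ] XC L (aboveSet K L S))
    (H : Subgroup (L ≃ₐ[K] L)) (ψ : H →* ℂˣ) (ℓ k m : ℕ) (θ : (L ≃ₐ[K] L) → ℂ),
    IsPhiTheta K (aboveSet K L S) φ Θ → OkOrd ℓ k → 0 < m → (ℓ ^ k).Coprime m →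
    orderOf ψ = ℓ ^ k * m →
    (∀ g, θ g = ∑ t ∈ Ex (orderOf ψ), indFun H (extZ (ψ ^ t)) g) → PT (ℓ ^ k) θ S Θ

/-- NAS (150 lines), THEOREM (N).  PROOF. `RESFx.irr_of`, NPR, the conclusion of NFX: `H`, `ψ`,
`o = orderOf ψ > 0`.  `charField χ = Cyc o` (CFR; `Cyc o = rootField o` by definition) and
`trChar χ g = ∑_{t ∈ Ex o} indFun H (extZ (ψ ^ t)) g` (TRX with SIGT, TRT), as in `RESFx.irr`
(`ABS/RESF.lean`); `StarkB.exists_isPhiTheta` gives `φ`, `Θ₀`.
(a) the conclusion of PPP with `N = o`, `r = 1`, `c = 1`: `E ⊓ rootField o = E`; the printed form as in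
`RESFx.normIn_of` / `RESGx.cyc`.  (b) `q = 2`: `charField χ = rootField 2 = ⊥` (`SYMx.rootField_two`), so (a) for
`E = charField χ` (its group is trivial: `finrank = 1`, `IntermediateField.finrank_bot`); `q ≥ 3`: NQF, NIN and
`RESFx.normIn_of` with `charField χ = Cyc (ℓ ^ k)`.  (c) `E = charField χ` has degree two, so it is Galois (`galois_of_le`,
`ABS/SYMH.lean`) with a group of order two, cyclic (`isCyclic_of_prime_card`); (a), NRE and FAB with `m = 1`, `n = o`,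
`MonC o (1 * χ)` (one term; `χ = indFun H (extZ ψ)`, `ψ ^ o = 1`). -/
def Stmt_NAS : Prop :=
  ConclNFX → Stmt_NPR → Stmt_CFR → Stmt_SIGT → Stmt_TRT → Stmt_TRX → ConclPPP → ConclNIN →
  Stmt_NQF → Stmt_NRE → ConclFAB →
  ∀ (K L : Type) [Field K] [NumberField K] [Field L] [NumberField L] [Algebra K L] [IsGalois K L]
    (S : Finset (HeightOneSpectrum (𝓞 K))) (Θ : ((L → ℝ) →₀ ℂ) →ₗ[ℂ] ((L → ℝ) →₀ ℂ)),
    IsTheta K (StarkP.aboveSet K L S) Θ →
    ∀ (V : Type) [AddCommGroup V] [Module ℂ V] [Module.Finite ℂ V]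
      (ρ : Representation ℂ (L ≃ₐ[K] L) V), ρ.IsIrreducible →
      Group.IsNilpotent ((L ≃ₐ[K] L) ⧸ MonoidHom.ker ρ) →
      (∀ a b : L ≃ₐ[K] L, (∃ j : ℕ, a ^ (2 ^ j) = 1) → (∃ j : ℕ, b ^ (2 ^ j) = 1) →
        ρ (a * b) = ρ (b * a)) →
      (∀ E : IntermediateField ℚ ℂ, E ≤ charField ρ.character → IsCyclic (E ≃ₐ[ℚ] E) →
        NormIn E ρ.character (S : Set (HeightOneSpectrum (𝓞 K))) Θ) ∧
      (∀ q : ℕ, IsPrimePow q → charField ρ.character = rootField q →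
        NormIn (charField ρ.character) ρ.character (S : Set (HeightOneSpectrum (𝓞 K))) Θ) ∧
      (Module.finrank ℚ (charField ρ.character) = 2 →
        AbsIn ρ.character (S : Set (HeightOneSpectrum (𝓞 K))) Θ)

end StarkC.ABS
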