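import Pool.Agent.ABS.StX
import Pool.Agent.ABS.StN2
import Pool.Agent.ABS.PDefsY

/-!
# Project ABS (MP_46b841_nt), part Y: one `φ` for all rational-valued characters, any Galois group

THEOREM (Y).  `L/K` ANY finite Galois extension of number fields, `G` its group, `S` finite.  There is ONE
`ℚ[G]`-isomorphism `φ` with `R_S(θ, φ) = L_S^*(0, θ)` for every rational-valued character `θ` of `G` all of
whose irreducible constituents `χ` satisfy: (i) `χ = Ind_H ψ`, `ψ` linear with values in `ℚ(χ)` and of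
order dividing `2ℓ^k` (`ℓ` a prime number, possibly `2`; `ℓ^k` depends on `χ`), (ii) `r_S(χ) ≥ 1`
(`Hom_G(V_χ^*, ℂ ⊗ X) ≠ 0`).  (i) holds for all irreducible `χ` if `G` is nilpotent of exponent dividing
`2ℓ^k` and the elements of `2`-power order commute, for example for all extensions of odd prime
power degree (Roquette; part N).

PROOF.  As part X (`ABS/StX.lean`), with pairs `p = (H, ψ)` in place of linear characters of `G`.  A pair is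
good (`GoodP`) if `χ_p = Ind_H ψ` has norm one, automorphisms which fix `χ_p` fix `ψ`, and the order of
`ψ` divides some `2ℓ^k`.  There is a set `P` of good pairs, stable under conjugation, such that
`p ↦ χ_p` is a bijection of `P` onto the characters of all good pairs; Mackey's criterion: if
`ψ_p(h) = ψ_q(g⁻¹hg)` on `H_p ∩ g H_q g⁻¹` then `p = q` and `g ∈ H_p` (YM1, YM2, YMK, YCH).  `E_p(M)` = the `x ∈ M`
with `h x = ψ(h) x` for `h ∈ H`.  For `a : P → ℂ^*` with `σ(a_p) = a_(σp)`, `a_p = 1` if `E_p(M) = 0`, there is a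
`ℚ[G]`-automorphism `ξ` of `W = ℚ ⊗ X` whose determinant on `E_p(M)`, `M = ℂ ⊗ X`, is `a_p`:
`ξ x = x + ∑_g (∑_h u(h) f(h g⁻¹ x)) g w` with `u(h) = ∑_p |H_p| c_p ψ_p(h)⁻¹` (sum over the `p ∈ P` with
`h ∈ H_p`), which is rational; on `E_p(M)` it is the transvection `x + F(x) v`,
`v = c_p |H_p|² ∑_(h ∈ H_p) ψ_p(h)⁻¹ h w` (YTR, YEG).  `A_S(Ind Tr ψ, φ₀) = N(α)`, `α ∈ ℚ(ζ_o)^*` (YVN).

Module `Z` proves `theorem StarkC.ABS.Z_thm : Stmt_Z` in the file `Pool/Agent/ABS/Z.lean` (import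
`Pool.Agent.ABS.StY` and finished modules of ABS if you like: the modules `X...` are good models);
helper lemmas in `namespace StarkC.ABS.Zx`.  The statements used are hypotheses inside `Stmt_Z`.
-/

set_option autoImplicit false

open NumberField IsDedekindDomain
open scoped TensorProduct Classical

namespace StarkC.ABS

open StarkP (rootField)

/-! ### Pairs -/

/-- The pairs `p = (H, ψ)`, `ψ` a linear character of the subgroup `H`. -/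
abbrev Pr (G : Type) [Group G] : Type := Σ H : Subgroup G, (H →* ℂˣ)

/-- The induced character. -/
noncomputable def ch {G : Type} [Group G] [Fintype G] (p : Pr G) : G → ℂ := indFun p.1 (extZ p.2)

/-- The conjugate pair `(H, σ ∘ ψ)`. -/
noncomputable def tw {G : Type} [Group G] (σ : ℂ ≃+* ℂ) (p : Pr G) : Pr G := ⟨p.1, twist σ p.2⟩

/-- The pair `(H, ψ^t)`. -/
noncomputable def pw {G : Type} [Group G] (p : Pr G) (t : ℕ) : Pr G := ⟨p.1, p.2 ^ t⟩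

/-- The inner product, times `|G|`. -/
noncomputable def ip {G : Type} [Group G] [Fintype G] (f f' : G → ℂ) : ℂ := ∑ g, f g * f' g⁻¹

/-- `ψ_p(h) = ψ_q(g⁻¹ h g)` for all `h` in `H_p ∩ g H_q g⁻¹`. -/
def Agree {G : Type} [Group G] (p q : Pr G) (g : G) : Prop :=
  ∀ (h : G) (h1 : h ∈ p.1) (h2 : g⁻¹ * h * g ∈ q.1), p.2 ⟨h, h1⟩ = q.2 ⟨g⁻¹ * h * g, h2⟩

/-- `|H_p ∩ g H_q g⁻¹|` if `p` and `q` agree at `g`, otherwise `0`. -/
noncomputable def nI {G : Type} [Group G] [Fintype G] (p q : Pr G) (g : G) : ℕ :=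
  if Agree p q g then Fintype.card {h : G // h ∈ p.1 ∧ g⁻¹ * h * g ∈ q.1} else 0

/-- The good pairs. -/
def GoodP {G : Type} [Group G] [Fintype G] (p : Pr G) : Prop :=
  ip (ch p) (ch p) = (Fintype.card G : ℂ) ∧
    (∀ σ : ℂ ≃+* ℂ, (∀ g, σ (ch p g) = ch p g) → tw σ p = p) ∧
    ∃ ℓ k : ℕ, ℓ.Prime ∧ orderOf p.2 ∣ 2 * ℓ ^ k

/-- `P` is stable under conjugation and satisfies Mackey's criterion. -/
def Sys {G : Type} [Group G] (P : Finset (Pr G)) : Prop :=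
  (∀ p ∈ P, ∀ σ : ℂ ≃+* ℂ, tw σ p ∈ P) ∧ ∀ p ∈ P, ∀ q ∈ P, ∀ g, Agree p q g → p = q ∧ g ∈ p.1

/-- `r` chooses a representative in every class of conjugate pairs of `P`. -/
def Rep {G : Type} [Group G] (P : Finset (Pr G)) (r : Pr G → Pr G) : Prop :=
  ∀ p ∈ P, r p ∈ P ∧ (∃ σ : ℂ ≃+* ℂ, tw σ (r p) = p) ∧ ∀ σ : ℂ ≃+* ℂ, r (tw σ p) = r p

/-- `χ` is the character of an irreducible subrepresentation of `ρ`. -/
def IsCon {G V : Type} [Group G] [AddCommGroup V] [Module ℂ V] (ρ : Representation ℂ G V)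
    (χ : G → ℂ) : Prop :=
  ∃ (W : Type) (_ : AddCommGroup W) (_ : Module ℂ W) (_ : Module.Finite ℂ W)
    (σ : Representation ℂ G W), σ.IsIrreducible ∧ StarkP.IsSub σ ρ ∧ σ.character = χ

/-- YM1 (about 120 lines).  `ch p (g) = |H|⁻¹ ∑_x ψ°(x⁻¹ g x)` (`ψ°` = `extZ ψ`, zero outside `H`), so
`|H| |H'| ip = ∑_(x,y) ∑_g ψ°(x⁻¹ g x) ψ'°(y⁻¹ g⁻¹ y)`; put `g = x h x⁻¹`, `y = x z`:
`= |G| ∑_z ∑_h ψ°(h) ψ'°(z⁻¹ h⁻¹ z)`.  For fixed `z` the sum over the `h` in the group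
`D = H ∩ z H' z⁻¹` of the linear character `ψ(h) ψ'(z⁻¹ h z)⁻¹` of `D` is `|D|` if `p` and `q` agree at `z`, and `0`
otherwise (`sum_hom_units`, or multiply by the value at some `h₀`). -/
def Stmt_YM1 : Prop :=
  ∀ (G : Type) [Group G] [Fintype G] (p q : Pr G),
    ip (ch p) (ch q) * ((Nat.card p.1 : ℂ) * (Nat.card q.1 : ℂ)) =
      (Fintype.card G : ℂ) * ((∑ g, nI p q g : ℕ) : ℂ)

/-- YM2 (about 150 lines), ONLY Mathlib facts.  Let `p`, `q` agree at `g`, `D = H_p ∩ g H_q g⁻¹`.  `(a, b) ↦ a g b`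
maps `H_p × H_q` onto the double coset, all fibres have `|D|` elements
(`a g b = a' g b'` iff `d = a⁻¹ a' ∈ D` and `b' = (g⁻¹ d⁻¹ g) b`).  `nI p q (a g b) = |D|`:
`H_p ∩ (a g b) H_q (a g b)⁻¹ = a D a⁻¹`, and `p`, `q` agree there (`ψ_p(a d a⁻¹) = ψ_p(d)`,
`ψ_q(b⁻¹ g⁻¹ d g b) = ψ_q(g⁻¹ d g)`).  So the sum of `nI p q` over the double coset is `|H_p| |H_q|`. -/
def Stmt_YM2 : Prop :=
  ∀ (G : Type) [Group G] [Fintype G] (p q : Pr G) (g : G), Agree p q g →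
    Nat.card p.1 * Nat.card q.1 =
      ∑ y ∈ Finset.univ.filter (fun y => ∃ a ∈ p.1, ∃ b ∈ q.1, y = a * g * b), nI p q y

/-- YMK (about 120 lines), Mackey.  First part: the double cosets of `1` (which is `H_p`) and of
`g ∉ H_p` are disjoint, both give `|H_p|²` (YM2), so `∑ nI p p ≥ 2 |H_p|²`, but YM1 and the norm one give
`∑ nI p p = |H_p|²`.  Second part: `∑ nI p q ≥ |H_p| |H_q|` (YM2), so by YM1 `ip (ch p) (ch q)` is a real
number `≥ |G|`; `ch q g⁻¹ = conj (ch q g)` (the values of `ψ` are roots of unity), so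
`∑_g |ch p g - ch q g|² = |G| + |G| - 2 Re ip ≤ 0`.  Third part: otherwise no `g` agrees (second part),
all `nI` are zero, and YM1. -/
def Stmt_YMK : Prop :=
  Stmt_YM1 → Stmt_YM2 →
  ∀ (G : Type) [Group G] [Fintype G] (p q : Pr G), ip (ch p) (ch p) = (Fintype.card G : ℂ) →
    ip (ch q) (ch q) = (Fintype.card G : ℂ) →
    (∀ g, Agree p p g → g ∈ p.1) ∧ (∀ g, Agree p q g → ch p = ch q) ∧
    (ch p ≠ ch q → ip (ch p) (ch q) = 0)

/-- YCH (about 150 lines).  `ch (tw σ p) g = σ (ch p g)`, `tw (σ σ') = tw σ ∘ tw σ'`, and `GoodP` is preserved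
by `tw σ` (`ip` of the conjugates is `σ (ip)`; the order of `twist σ ψ` is the order of `ψ`).
`q ~ q'` if `ch q' = σ ∘ ch q` for some `σ`: an equivalence relation on the good pairs; choose a
representative `s q` of every class (a function of the class: `Quotient.out`), `P` = all
`tw σ (s q)`, `q` good (`Pr G` is finite: `Subgroup G` is finite, `XDU` for the dual groups;
`Set.toFinset`).  If `p = tw σ q`, `p' = tw σ' q'` (`q`, `q'` representatives) agree at `g` then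
`ch p = ch p'` (YMK), so `q ~ q'`, `q = q'`; `σ'⁻¹ σ` fixes `ch q`, so `tw (σ'⁻¹ σ) q = q` and
`p = p'`; and `g ∈ H_p` (YMK).  The representative in the class of a pair `p ∈ P` under `tw`: a good pair is
`p = tw σ (s p)`; `r p = s p` (if `ch p' = σ' ∘ ch p` then `s p' = s p`). -/
def Stmt_YCH : Prop :=
  Stmt_XDU → Stmt_YM1 → Stmt_YM2 → Stmt_YMK →
  ∀ (G : Type) [Group G] [Fintype G], ∃ (P : Finset (Pr G)) (r : Pr G → Pr G),
    (∀ p ∈ P, GoodP p) ∧ Sys P ∧ Rep P r ∧ ∀ q, GoodP q → ∃ p ∈ P, ch p = ch q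

/-- YCL (about 90 lines; model: `ABS/XCL.lean`).  The class of `p ∈ P` with `r p = p` consists of the
`pw p t`, `t ∈ Ex (orderOf ψ)`, each once (XTW; `pow_injOn_Iio_orderOf`). -/
def Stmt_YCL : Prop :=
  Stmt_SIGT → Stmt_XTW →
  ∀ (G : Type) [Group G] [Fintype G] (P : Finset (Pr G)) (r : Pr G → Pr G) (f : Pr G → ℂ),
    (∀ p ∈ P, ∀ σ : ℂ ≃+* ℂ, tw σ p ∈ P) → Rep P r →
    ∑ p ∈ P, f p = ∑ p ∈ P.filter (fun p => r p = p), ∑ t ∈ Ex (orderOf p.2), f (pw p t)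

/-- YFA (about 110 lines; model: `ABS/XFA.lean`).  For `p ∈ P` choose `σ_p` with `tw σ_p (r p) = p` and put
`a p = σ_p (α (r p))`.  Two automorphisms with the same `twist` of `ψ` agree on
`rootField (orderOf ψ)` (`ABS/XFA.lean`).  The product as in XFA (NORMT, XTW). -/
def Stmt_YFA : Prop :=
  Stmt_SIGT → Stmt_NORMT → Stmt_XTW →
  ∀ (G : Type) [Group G] [Fintype G] (P : Finset (Pr G)) (r : Pr G → Pr G) (α : Pr G → ℂ),
    (∀ p ∈ P, ∀ σ : ℂ ≃+* ℂ, tw σ p ∈ P) → Rep P r →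
    (∀ p ∈ P, α p ∈ rootField (orderOf p.2)) → (∀ p ∈ P, α p ≠ 0) →
    ∃ a : Pr G → ℂ, (∀ p ∈ P, a p ≠ 0) ∧
      (∀ (σ : ℂ ≃+* ℂ), ∀ p ∈ P, σ (a p) = a (tw σ p)) ∧
      (∀ p ∈ P, α (r p) = 1 → a p = 1) ∧
      ∀ p ∈ P, r p = p → ∀ β : rootField (orderOf p.2), (β : ℂ) = α p →
        ∏ t ∈ Ex (orderOf p.2), a (pw p t) = ((Algebra.norm ℚ β : ℚ) : ℂ)

/-! ### Representations -/

/-- YDE (about 150 lines).  Every representation of a finite group is a sum of irreducible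
subrepresentations (only their characters are needed).  Strong induction on the dimension: a nonzero
stable subspace `U` of minimal dimension is irreducible; Maschke: a stable complement `U'` (kernel of the
average of a projection onto `U`; Mathlib: `MonoidAlgebra.Submodule.exists_isCompl`, or
`Representation` has it; a subrepresentation of a subrepresentation is a subrepresentation);
`ρ.character = sum of the characters of U and U'` (`LinearMap.trace_prod`-like; see `Stark/MON*.lean`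
and `ABS/RAV.lean`, where characters of subrepresentations `sub ρ ...` are used). -/
def Stmt_YDE : Prop :=
  ∀ (G V : Type) [Group G] [Fintype G] [AddCommGroup V] [Module ℂ V] [Module.Finite ℂ V]
    (ρ : Representation ℂ G V), ∃ (m : ℕ) (χ : Fin m → G → ℂ), (∀ i, IsCon ρ (χ i)) ∧
      ∀ g, ρ.character g = ∑ i, χ i g

/-- YRO (about 120 lines; model: `ABS/XRO.lean`).  YDE; every `χ i` is `ch p` for a unique `p ∈ P`
(`ip (ch p) (ch q)` is `|G|` if `p = q` and `0` otherwise on `P`: `GoodP`, YM1 and `Sys`: if no `g` agrees all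
`nI` vanish).  `n p` = the number of the `i` with `χ i = ch p`; `ρ.character = ∑_(p ∈ P) n p • ch p`, so
`n p |G| = ip ρ.character (ch p)`, and `n (tw σ p) = n p`, as `σ` fixes `ρ.character`.
`c p = n p` if `r p = p`, otherwise `0`; YCL for `f p = n p * ch p g`, `n (pw p t) = n p` for
`t ∈ Ex (orderOf ψ)` (XTW). -/
def Stmt_YRO : Prop :=
  Stmt_SIGT → Stmt_XTW → Stmt_YM1 → Stmt_YCL → Stmt_YDE →
  ∀ (G V : Type) [Group G] [Fintype G] [AddCommGroup V] [Module ℂ V] [Module.Finite ℂ V]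
    (ρ : Representation ℂ G V) (P : Finset (Pr G)) (r : Pr G → Pr G), (∀ p ∈ P, GoodP p) →
    Sys P → Rep P r → (∀ g, ∃ q : ℚ, ρ.character g = (q : ℂ)) →
    (∀ χ, IsCon ρ χ → ∃ p ∈ P, ch p = χ) →
    ∃ c : Pr G → ℕ, (∀ p, c p ≠ 0 → p ∈ P ∧ r p = p ∧ IsCon ρ (ch p)) ∧
      ∀ g, ρ.character g = ∑ p ∈ P, (c p : ℂ) * ∑ t ∈ Ex (orderOf p.2), ch (pw p t) g

/-- YGD (about 80 lines).  Irreducible representations with nilpotent image (part N).  The conclusion of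
NFX gives `H`, `ψ`; `ip = |G|` by `Representation.char_orthonormal`; if `σ` fixes `χ` it fixes the `o`-th
roots of unity, so `ψ`; `o ∣ 2ℓ^k`, because `ψ(h)^(2ℓ^k) = ψ(h^(2ℓ^k)) = 1` (`orderOf_dvd_of_pow_eq_one`).
`NImg` from the hypotheses: NPR.  (`RESFx.irr_of` for `Irr`.) -/
def Stmt_YGD : Prop :=
  ConclNFX → Stmt_NPR →
  ∀ (G V : Type) [Group G] [Fintype G] [AddCommGroup V] [Module ℂ V] [Module.Finite ℂ V]
    (ρ : Representation ℂ G V) (ℓ k : ℕ), ℓ.Prime → ρ.IsIrreducible →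
    Group.IsNilpotent (G ⧸ MonoidHom.ker ρ) →
    (∀ a b : G, (∃ j : ℕ, a ^ (2 ^ j) = 1) → (∃ j : ℕ, b ^ (2 ^ j) = 1) →
      ρ (a * b) = ρ (b * a)) →
    (∀ g : G, g ^ (2 * ℓ ^ k) = 1) → ∃ p : Pr G, GoodP p ∧ ρ.character = ch p

/-- YGM (about 60 lines).  Irreducible monomial representations, the printed condition (i): `ip = |G|` by
`Representation.char_orthonormal`; if `σ` fixes `χ` it fixes `charField χ`
(`IntermediateField.adjoin_induction`), so it fixes the values of `ψ` and `twist σ ψ = ψ`. -/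
def Stmt_YGM : Prop :=
  ∀ (G V : Type) [Group G] [Fintype G] [AddCommGroup V] [Module ℂ V] [Module.Finite ℂ V]
    (ρ : Representation ℂ G V) (H : Subgroup G) (ψ : H →* ℂˣ) (ℓ k : ℕ), ℓ.Prime →
    ρ.IsIrreducible → ρ.character = indFun H (extZ ψ) →
    (∀ h : H, ((ψ h : ℂˣ) : ℂ) ∈ StarkP.charField ρ.character) → orderOf ψ ∣ 2 * ℓ ^ k →
    ∃ p : Pr G, GoodP p ∧ ρ.character = ch p

/-! ### The automorphism -/

/-- YFO (about 60 lines).  `u g = ∑_(p ∈ P) |H_p| c_p ψ_p(g)⁻¹` (`ψ_p(g)⁻¹ := 0` outside `H_p`) is fixed by all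
`σ` (`p ↦ tw σ p` is a bijection of `P`: injective, inverse `tw σ.symm`), so rational (FIXC for
`n = 1` as in `ABS/XFO.lean`). -/
def Stmt_YFO : Prop :=
  Stmt_FIXC →
  ∀ (G : Type) [Group G] [Fintype G] (P : Finset (Pr G)) (c : Pr G → ℂ),
    (∀ p ∈ P, ∀ σ : ℂ ≃+* ℂ, tw σ p ∈ P) →
    (∀ (σ : ℂ ≃+* ℂ), ∀ p ∈ P, σ (c p) = c (tw σ p)) →
    ∃ u : G → ℚ, ∀ g, (u g : ℂ) = ∑ p ∈ P, (Nat.card p.1 : ℂ) * c p * extZ (p.2⁻¹) g

/-- YBW (about 110 lines; model: `ABS/XBW.lean`, with sums over `H_p` in place of `G`). -/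
def Stmt_YBW : Prop :=
  Stmt_XNZ →
  ∀ (G W M : Type) [Group G] [Fintype G] [AddCommGroup W] [Module ℚ W] [AddCommGroup M] [Module ℂ M]
    (τ : Representation ℚ G W) (μ : Representation ℂ G M) (j : W →+ M) (n : ℕ)
    (b : Module.Basis (Fin n) ℚ W) (c : Module.Basis (Fin n) ℂ M), (∀ i, j (b i) = c i) →
    (∀ (q : ℚ) (x : W), j (q • x) = (q : ℂ) • j x) → (∀ g x, j (τ g x) = μ g (j x)) →
    ∀ P : Finset (Pr G),
      (∀ p ∈ P, ∃ x : M, x ≠ 0 ∧ ∀ h : p.1, μ h x = ((p.2 h : ℂˣ) : ℂ) • x) →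
      ∃ (w : W) (f : W →ₗ[ℚ] ℚ), ∀ p ∈ P,
        ∑ h : p.1, (((p.2 h)⁻¹ : ℂˣ) : ℂ) * ((f (τ h w) : ℚ) : ℂ) ≠ 0

/-- YTR (about 100 lines; model: the first half of `ABS/XTR.lean`), the explicit form. -/
def Stmt_YTR : Prop :=
  ∀ (G W M : Type) [Group G] [Fintype G] [AddCommGroup W] [Module ℚ W] [AddCommGroup M] [Module ℂ M]
    (τ : Representation ℚ G W) (μ : Representation ℂ G M) (j : W →+ M) (n : ℕ)
    (b : Module.Basis (Fin n) ℚ W) (c : Module.Basis (Fin n) ℂ M), (∀ i, j (b i) = c i) →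
    (∀ (q : ℚ) (x : W), j (q • x) = (q : ℂ) • j x) → (∀ g x, j (τ g x) = μ g (j x)) →
    ∀ (u : G → ℚ) (w : W) (f : W →ₗ[ℚ] ℚ),
      ∃ (ξ : W →ₗ[ℚ] W) (A : M →ₗ[ℂ] M) (F : M →ₗ[ℂ] ℂ),
        (∀ x, F (j x) = ((f x : ℚ) : ℂ)) ∧ (∀ g x, ξ (τ g x) = τ g (ξ x)) ∧
        (∀ x, A (j x) = j (ξ x)) ∧ (∀ g x, A (μ g x) = μ g (A x)) ∧
        ∀ x, A x = x + ∑ g, (∑ h, (u h : ℂ) * F (μ (h * g⁻¹) x)) • μ g (j w)

/-- YEG (about 170 lines; the heart).  For `q ∈ P`, `ε_q z = ∑_(h ∈ H_q) ψ_q(h)⁻¹ μ(h) z`.  Exchange the sums: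
`T x := A x - x = ∑_(q ∈ P) |H_q| c_q ∑_g F(ε_q (μ(g⁻¹) x)) • μ(g) y`.  Second part: all
`ε_q (μ(g⁻¹) x)` are zero.  First part: let `x ∈ E_p`, and suppose `ε_q (μ(γ) x) ≠ 0`, `γ = g⁻¹`; for
`h ∈ H_q` with `γ⁻¹ h γ ∈ H_p`: `ε_q (μ(h) z) = ψ_q(h) ε_q z` (shift the sum) and
`μ(h) μ(γ) x = μ(γ) μ(γ⁻¹ h γ) x = ψ_p(γ⁻¹ h γ) μ(γ) x`, so `ψ_q(h) = ψ_p(γ⁻¹ h γ)`: `Agree q p γ`, hence
`q = p` and `γ ∈ H_p`.  So `T x = |H_p| c_p ∑_(g ∈ H_p) F(ε_p (μ(g⁻¹) x)) • μ(g) y`, and for `g ∈ H_p`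
`ε_p (μ(g⁻¹) x) = ψ_p(g)⁻¹ ε_p x = ψ_p(g)⁻¹ |H_p| x`. -/
def Stmt_YEG : Prop :=
  ∀ (G M : Type) [Group G] [Fintype G] [AddCommGroup M] [Module ℂ M] (μ : Representation ℂ G M)
    (P : Finset (Pr G)) (c : Pr G → ℂ) (u : G → ℚ) (F : M →ₗ[ℂ] ℂ) (y : M) (A : M →ₗ[ℂ] M),
    (∀ p ∈ P, ∀ q ∈ P, ∀ g, Agree p q g → p = q ∧ g ∈ p.1) →
    (∀ g, (u g : ℂ) = ∑ p ∈ P, (Nat.card p.1 : ℂ) * c p * extZ (p.2⁻¹) g) →
    (∀ x, A x = x + ∑ g, (∑ h, (u h : ℂ) * F (μ (h * g⁻¹) x)) • μ g y) →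
    (∀ p ∈ P, ∀ x, (∀ h : p.1, μ h x = ((p.2 h : ℂˣ) : ℂ) • x) →
      A x = x + F x • ((c p * (Nat.card p.1 : ℂ) ^ 2) •
        ∑ h : p.1, (((p.2 h)⁻¹ : ℂˣ) : ℂ) • μ h y)) ∧
    ∀ x, (∀ p ∈ P, ∀ g, ∑ h : p.1, (((p.2 h)⁻¹ : ℂˣ) : ℂ) • μ ((h : G) * g) x = 0) → A x = x

/-- YIN (about 80 lines).  Let `A x = 0`.  For `p ∈ P` and `g ∈ G` the vector
`z = ∑_(h ∈ H_p) ψ_p(h)⁻¹ μ(h g) x` is in `E_p` and `A z = 0`, so `z + F(z) v = 0`; apply `F`: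
`F(z) (1 + F v) = 0`, `z = 0`.  So `x = A x = 0`; finite dimension. -/
def Stmt_YIN : Prop :=
  ∀ (G M : Type) [Group G] [Fintype G] [AddCommGroup M] [Module ℂ M] [Module.Finite ℂ M]
    (μ : Representation ℂ G M) (P : Finset (Pr G)) (A : M →ₗ[ℂ] M),
    (∀ g x, A (μ g x) = μ g (A x)) →
    (∀ p ∈ P, ∃ (F : M →ₗ[ℂ] ℂ) (v : M),
      (∀ x, (∀ h : p.1, μ h x = ((p.2 h : ℂˣ) : ℂ) • x) → A x = x + F x • v) ∧ 1 + F v ≠ 0) →
    (∀ x, (∀ p ∈ P, ∀ g, ∑ h : p.1, (((p.2 h)⁻¹ : ℂˣ) : ℂ) • μ ((h : G) * g) x = 0) → A x = x) →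
    Function.Bijective A

/-- The conclusion of YXI. -/
def ConclYI : Prop :=
  ∀ (G W M : Type) [Group G] [Fintype G] [AddCommGroup W] [Module ℚ W] [AddCommGroup M] [Module ℂ M]
    (τ : Representation ℚ G W) (μ : Representation ℂ G M) (j : W →+ M) (n : ℕ)
    (b : Module.Basis (Fin n) ℚ W) (c : Module.Basis (Fin n) ℂ M), (∀ i, j (b i) = c i) →
    (∀ (q : ℚ) (x : W), j (q • x) = (q : ℂ) • j x) → (∀ g x, j (τ g x) = μ g (j x)) →
    ∀ (P : Finset (Pr G)) (a : Pr G → ℂ), Sys P → (∀ p ∈ P, a p ≠ 0) →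
    (∀ (σ : ℂ ≃+* ℂ), ∀ p ∈ P, σ (a p) = a (tw σ p)) →
    (∀ p ∈ P, a p ≠ 1 → ∃ x : M, x ≠ 0 ∧ ∀ h : p.1, μ h x = ((p.2 h : ℂˣ) : ℂ) • x) →
    ∃ (ξ : W ≃ₗ[ℚ] W) (A : M →ₗ[ℂ] M), (∀ g x, ξ (τ g x) = τ g (ξ x)) ∧
      (∀ x, A (j x) = j (ξ x)) ∧ (∀ g x, A (μ g x) = μ g (A x)) ∧ Function.Bijective A ∧
      ∀ p ∈ P, ∃ (F : M →ₗ[ℂ] ℂ) (v : M), (∀ h : p.1, μ h v = ((p.2 h : ℂˣ) : ℂ) • v) ∧
        (∀ x, (∀ h : p.1, μ h x = ((p.2 h : ℂˣ) : ℂ) • x) → A x = x + F x • v) ∧ 1 + F v = a p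

/-- YXI (about 130 lines; model: `ABS/XXI.lean`).  YBW with `{p ∈ P | a p ≠ 1}`;
`β p = ∑_(h ∈ H_p) ψ_p(h)⁻¹ f(τ(h) w)`, `σ (β p) = β (tw σ p)`;
`c p = (a p - 1) / (|H_p|² ... )`: `c p = (a p - 1) / ((Nat.card p.1)^2 * β p)` (`= 0` if `β p = 0`, then
`a p = 1`); YFO, YTR, YEG with `y = j w` (`F (μ(h) (j w)) = f(τ(h) w)`, so `F v = c p |H_p|² β p = a p - 1`; `v` is in
`E_p` by shifting the sum), YIN; `ξ` is injective because `j` and `A` are. -/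
def Stmt_YXI : Prop :=
  Stmt_FIXC → Stmt_XNZ → Stmt_YFO → Stmt_YBW → Stmt_YTR → Stmt_YEG → Stmt_YIN → ConclYI

/-! ### Regulators -/

/-- YRG (about 60 lines).  XRG over the fixed field of `H` (`StableT`: `IND.stable_sub`; the
representation: `IND.repX_sub`; `liftChar H ψ g = ψ` of the corresponding element of `H`;
`IntermediateField.subgroupEquivAlgEquiv`). -/
def Stmt_YRG : Prop :=
  Stmt_XRG →
  ∀ (K L : Type) [Field K] [NumberField K] [Field L] [NumberField L] [Algebra K L] [IsGalois K L]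
    (T : Set (HeightOneSpectrum (𝓞 L))) (hT : StableT K T) (H : Subgroup (L ≃ₐ[K] L))
    (ψ : H →* ℂˣ) (A : XC L T →ₗ[ℂ] XC L T) (F : XC L T →ₗ[ℂ] ℂ) (v : XC L T), T.Finite →
    (∀ g : L ≃ₐ[K] L, A ∘ₗ repX K T hT g = repX K T hT g ∘ₗ A) →
    (∀ h : H, repX K T hT (h : L ≃ₐ[K] L) v = (((ψ h)⁻¹ : ℂˣ) : ℂ) • v) →
    (∀ x, (∀ h : H, repX K T hT (h : L ≃ₐ[K] L) x = (((ψ h)⁻¹ : ℂˣ) : ℂ) • x) →
      A x = x + F x • v) →
    Reg T (linRep (liftChar H ψ)) A = 1 + F v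

/-- YRS (about 90 lines; model: `ABS/XRS.lean`).  `IND.reg_comb` for the family of all `(i, t)`,
`t ∈ Ex (orderOf (p i).2)`, with the coefficients `c i`; or as `XRS`, `INDP.reg_comb`. -/
def Stmt_YRS : Prop :=
  ∀ (K L : Type) [Field K] [NumberField K] [Field L] [NumberField L] [Algebra K L] [IsGalois K L]
    (T : Set (HeightOneSpectrum (𝓞 L))) (hT : StableT K T) (A : XC L T →ₗ[ℂ] XC L T)
    (V : Type) [AddCommGroup V] [Module ℂ V] [Module.Finite ℂ V]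
    (ρ : Representation ℂ (L ≃ₐ[K] L) V) (m : ℕ) (c : Fin m → ℕ) (p : Fin m → Pr (L ≃ₐ[K] L)),
    T.Finite → (∀ g : L ≃ₐ[K] L, A ∘ₗ repX K T hT g = repX K T hT g ∘ₗ A) →
    Function.Bijective A →
    (∀ g, ρ.character g = ∑ i, (c i : ℂ) * ∑ t ∈ Ex (orderOf (p i).2), ch (pw (p i) t) g) →
    Reg T ρ A = ∏ i, (∏ t ∈ Ex (orderOf (p i).2),
      Reg T (linRep (liftChar (p i).1 ((p i).2 ^ t))) A) ^ c i

/-- YEV (about 40 lines; model: `ABS/XEV.lean`, the same with `h ∈ H`). -/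
def Stmt_YEV : Prop :=
  ∀ (K L : Type) [Field K] [NumberField K] [Field L] [NumberField L] [Algebra K L]
    (T : Set (HeightOneSpectrum (𝓞 L))) (hT : StableT K T) (σ : ℂ ≃+* ℂ)
    (H : Subgroup (L ≃ₐ[K] L)) (ψ : H →* ℂˣ) (x : XC L T), x ≠ 0 →
    (∀ h : H, repX K T hT (h : L ≃ₐ[K] L) x = (((ψ h)⁻¹ : ℂˣ) : ℂ) • x) →
    ∃ y : XC L T, y ≠ 0 ∧
      ∀ h : H, repX K T hT (h : L ≃ₐ[K] L) y = (((twist σ ψ h)⁻¹ : ℂˣ) : ℂ) • y

/-- YOC (about 120 lines).  Frobenius reciprocity.  `P = |H|⁻¹ ∑_(h ∈ H) ψ(h) σ^*(h)` on the dual `W^*`,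
`σ^*(h) = σ.dual h`, has trace `|H|⁻¹ ∑_h ψ(h) χ(h⁻¹)`, and this is `|G|⁻¹ ip χ χ = 1` for
`χ = Ind_H ψ`: `∑_(g ∈ G) χ(g⁻¹) indFun H (extZ ψ) g = (|G|/|H|) ∑_h ψ(h) χ(h⁻¹)` (`χ` is a class
function), `ip χ χ = |G|` by `Representation.char_orthonormal`.  So `P ≠ 0`: there is `α ≠ 0` in the image,
`σ^*(h) α = ψ(h)⁻¹ α`.  `x = f α`: `h x = ψ(h)⁻¹ x`, and `x ≠ 0` because `f` is injective: the common kernel in
`W` of all `α' ∈ ker f` is stable under `σ`, so it is `⊥` or `⊤`; if `⊥` then `ker f = ⊤` (double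
annihilator, finite dimension) and `f = 0`; so it is `⊤` and `ker f = ⊥`. -/
def Stmt_YOC : Prop :=
  ∀ (K L : Type) [Field K] [NumberField K] [Field L] [NumberField L] [Algebra K L] [IsGalois K L]
    (T : Set (HeightOneSpectrum (𝓞 L))) (hT : StableT K T)
    (W : Type) [AddCommGroup W] [Module ℂ W] [Module.Finite ℂ W]
    (σ : Representation ℂ (L ≃ₐ[K] L) W) (p : Pr (L ≃ₐ[K] L)), σ.IsIrreducible →
    σ.character = ch p → StarkP.OccursIn T σ →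
    ∃ x : XC L T, x ≠ 0 ∧
      ∀ h : p.1, repX K T hT (h : L ≃ₐ[K] L) x = (((p.2 h)⁻¹ : ℂˣ) : ℂ) • x

/-- The conclusion of YPH. -/
def ConclYP : Prop :=
  ∀ (K L : Type) [Field K] [NumberField K] [Field L] [NumberField L] [Algebra K L] [IsGalois K L]
    (S : Finset (HeightOneSpectrum (𝓞 K)))
    (φ : XQ L (aboveSet K L S) ≃ₗ[ℚ] QU L (aboveSet K L S))
    (Θ : XC L (aboveSet K L S) →ₗ[ℂ] XC L (aboveSet K L S))
    (hT : StableT K (aboveSet K L (S : Set (HeightOneSpectrum (𝓞 K)))))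
    (P : Finset (Pr (L ≃ₐ[K] L))) (a : Pr (L ≃ₐ[K] L) → ℂ),
    IsPhiTheta K (aboveSet K L S) φ Θ → Sys P → (∀ p ∈ P, a p ≠ 0) →
    (∀ (σ : ℂ ≃+* ℂ), ∀ p ∈ P, σ (a p) = a (tw σ p)) →
    (∀ p ∈ P, a p ≠ 1 → ∃ x : XC L (aboveSet K L S), x ≠ 0 ∧
      ∀ h : p.1, repX K (aboveSet K L S) hT (h : L ≃ₐ[K] L) x = (((p.2 h)⁻¹ : ℂˣ) : ℂ) • x) →
    ∃ (φ₁ : XQ L (aboveSet K L S) ≃ₗ[ℚ] QU L (aboveSet K L S))
      (Θ₁ A : XC L (aboveSet K L S) →ₗ[ℂ] XC L (aboveSet K L S)),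
      IsPhiTheta K (aboveSet K L S) φ₁ Θ₁ ∧ Θ₁ = Θ ∘ₗ A ∧ Function.Bijective A ∧
      (∀ g : L ≃ₐ[K] L, A ∘ₗ repX K (aboveSet K L S) hT g = repX K (aboveSet K L S) hT g ∘ₗ A) ∧
      ∀ p ∈ P, Reg (aboveSet K L S) (linRep (liftChar p.1 p.2)) A = a p

/-- YPH (about 150 lines; model: `ABS/XPH.lean`).  `ConclYI` for the set of the `(H, ψ⁻¹)`, `(H, ψ) ∈ P`
(`Sys` holds: `twist σ ψ⁻¹ = (twist σ ψ)⁻¹`, and the pairs with inverse characters agree where the pairs do)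
and `a' (H, ψ) = a (H, ψ⁻¹)`; then as `XPH`, with YRG. -/
def Stmt_YPH : Prop := Stmt_XRG → Stmt_YRG → ConclYI → ConclYP

/-- YVN (about 110 lines; model: `ABS/XVN.lean`).  PCX with `H i = (p i).1`, `ψ i = (p i).2`,
`q i = orderOf (p i).2`, `Q i x := ∃ α : Cyc (q i), α ≠ 0 ∧ x = nm (q i) α` (`ConclNO` for
`liftChar (p i).1 (p i).2`, which has the same order). -/
def Stmt_YVN : Prop :=
  Stmt_PCX → ConclNO →
  ∀ (K L : Type) [Field K] [NumberField K] [Field L] [NumberField L] [Algebra K L] [IsGalois K L]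
    (S : Finset (HeightOneSpectrum (𝓞 K)))
    (φ : XQ L (aboveSet K L S) ≃ₗ[ℚ] QU L (aboveSet K L S))
    (Θ : XC L (aboveSet K L S) →ₗ[ℂ] XC L (aboveSet K L S)) (m : ℕ)
    (p : Fin m → Pr (L ≃ₐ[K] L)), IsPhiTheta K (aboveSet K L S) φ Θ →
    (∀ i, ∃ ℓ k : ℕ, ℓ.Prime ∧ orderOf (p i).2 ∣ 2 * ℓ ^ k) →
    ∃ α : ∀ i, rootField (orderOf (p i).2), (∀ i, α i ≠ 0) ∧
      ∀ (c : Fin m → ℕ) (θ : (L ≃ₐ[K] L) → ℂ),
        (∀ g, θ g = ∑ i, (c i : ℂ) * ∑ t ∈ Ex (orderOf (p i).2), ch (pw (p i) t) g) →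
        ∃ F : ℂ → ℂ, IsArtinL θ (S : Set (HeightOneSpectrum (𝓞 K))) F ∧
          ∀ (V : Type) [AddCommGroup V] [Module ℂ V] [Module.Finite ℂ V]
            (ρ : Representation ℂ (L ≃ₐ[K] L) V), (∀ g, ρ.character g = θ g) →
            Reg (aboveSet K L S) ρ Θ =
              (∏ i, ((Algebra.norm ℚ (α i) : ℚ) : ℂ) ^ c i) * meromorphicTrailingCoeffAt F 0

/-- The conclusion of YFI. -/
def ConclY : Prop :=
  ∀ (K L : Type) [Field K] [NumberField K] [Field L] [NumberField L] [Algebra K L] [IsGalois K L]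
    (S : Finset (HeightOneSpectrum (𝓞 K))),
    ∃ (φ : XQ L (aboveSet K L S) ≃ₗ[ℚ] QU L (aboveSet K L S))
      (Θ : XC L (aboveSet K L S) →ₗ[ℂ] XC L (aboveSet K L S)),
      IsPhiTheta K (aboveSet K L S) φ Θ ∧
      ∀ (V : Type) [AddCommGroup V] [Module ℂ V] [Module.Finite ℂ V]
        (ρ : Representation ℂ (L ≃ₐ[K] L) V), (∀ g, ∃ q : ℚ, ρ.character g = (q : ℂ)) →
        (∀ (W : Type) [AddCommGroup W] [Module ℂ W] [Module.Finite ℂ W]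
          (σ : Representation ℂ (L ≃ₐ[K] L) W), σ.IsIrreducible → StarkP.IsSub σ ρ →
          StarkP.OccursIn (aboveSet K L S) σ ∧ ∃ p, GoodP p ∧ σ.character = ch p) →
        ∃ F : ℂ → ℂ, IsArtinL ρ.character (S : Set (HeightOneSpectrum (𝓞 K))) F ∧
          Reg (aboveSet K L S) ρ Θ = meromorphicTrailingCoeffAt F 0

/-- YFI (about 180 lines; model: `ABS/XFI.lean`), THEOREM (Y).  `P`, `r` from YCH; `φ₀`, `Θ₀` from
`ALLT.exph K L S`; `e : Fin m ≃ P`; `α` from YVN.  `occ p`: there is `x ≠ 0` in `XC` with `h x = ψ(h)⁻¹ x` for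
`h ∈ H`; `occ (r p) ↔ occ p` (YEV).  `α' p = (α p)⁻¹` if `occ p`, and `1` otherwise; YFA gives `a`, and
`a p ≠ 1` implies `occ p`; ConclYP gives `φ₁`, `Θ₁`, `A`.  For `ρ`: every `IsCon ρ χ` is `ch p`, `p ∈ P` (YCH, last
part), and `occ p` by YOC (for this `p`); YRO gives `c`.  YVN for `c ∘ e` and
`Reg ρ Θ₁ = Reg ρ A * Reg ρ Θ₀` (`PHIR.reg_mul`), `Reg ρ A` by YRS; `pw p t ∈ P` for
`t ∈ Ex (orderOf ψ)` (XTW, SIGT: it is `tw σ p`), and `∏_t a (pw p t) = N(α p)⁻¹` if `c p ≠ 0`. -/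
def Stmt_YFI : Prop :=
  Stmt_SIGT → Stmt_NORMT → Stmt_PCX → ConclNO → Stmt_YVN → Stmt_XDU → Stmt_XTW → Stmt_YM1 →
  Stmt_YM2 → Stmt_YMK → Stmt_YCH → Stmt_YCL → Stmt_YFA → Stmt_YDE → Stmt_YRO → Stmt_YRS →
  Stmt_YEV → Stmt_YOC → ConclYP → ConclY

end StarkC.ABS
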