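import Pool.Agent.ABS.FINQ
import Pool.Agent.ABS.StY
import Pool.Agent.ABS.QR1
import Pool.Agent.ABS.QR2
import Pool.Agent.ABS.QR3
import Pool.Agent.ABS.QC3R

/-!
# Project ABS (MP_46b841_nt), part Q: multiplicity one (helper91)

Every irreducible representation of `PSL_2(k)` (`|k| ≥ 4`) or `PGL_2(k)`, `k` a finite field, occurs
exactly once in a representation induced from a linear character with values `±1`.
-/

set_option autoImplicit false

open scoped Classical MatrixGroups ComplexConjugate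

namespace StarkC.ABS

open FINQx

namespace FINRx

theorem ne_one_of_sq {G : Type} [Group G] [Fintype G] (H : Subgroup G) (ψ : H →* ℂˣ) (h : ψ ^ 2 ≠ 1) :
    ψ ≠ 1 := by
  rintro rfl
  exact h (QC1Rx.one_sq H)

/-- The case `d = 1`. -/
theorem one1 (G V : Type) [Group G] [Fintype G] (q : ℕ) (b : TB G q 1)
    (hb : Even q ∨ ∃ P : Subgroup G, TS b P) [AddCommGroup V] [Module ℂ V] [Module.Finite ℂ V]
    (ρ : Representation ℂ G V) (hρ : ρ.IsIrreducible) : MOne ρ.character := by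
  obtain ⟨a₀, s, n, m, hM⟩ :=
    QCA_thm QDH_thm QBB_thm QDU_thm (QIN_thm PFR_thm) G V q 1 b ρ
  have h1 := QR1_thm PFR_thm QDH_thm QVT_thm QVB_thm G q 1 b
  rcases QC1R_thm qbase QEQ_thm G V q 1 b ρ a₀ s n m hM hρ with
    ⟨ψ, hψ, h⟩ | ⟨φ, hφ, h⟩ | h | ⟨hn, hm⟩
  · refine ⟨b.T, 1, QC1Rx.one_sq b.T, ?_⟩
    rw [show ρ.character = b.pr ψ from funext h, h1.1 ψ (ne_one_of_sq _ ψ hψ), Nat.cast_one, mul_one]
  · refine ⟨b.T, 1, QC1Rx.one_sq b.T, ?_⟩
    rw [show ρ.character = b.ds φ from funext h, h1.2 φ, Nat.cast_one, mul_one]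
  · exact h.2
  · exact (QC3R_thm qbase QEQ_thm QDU_thm QDH_thm QBB_thm G V q b ρ a₀ s n m hM hρ hb hn hm).2

/-- The case `d = 2`. -/
theorem one2 (G V : Type) [Group G] [Fintype G] (q : ℕ) (b : TB G q 2)
    (hperf : commutator G = ⊤)
    (hinv : ∀ x y : G, x ≠ 1 → y ≠ 1 → x * x = 1 → y * y = 1 → ∃ z, z⁻¹ * x * z = y)
    [AddCommGroup V] [Module ℂ V] [Module.Finite ℂ V]
    (ρ : Representation ℂ G V) (hρ : ρ.IsIrreducible) :
    MOne ρ.character ∨ (q % 4 = 3 ∧ 2 * Module.finrank ℂ V + 1 = q ∨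
      q % 4 = 1 ∧ 2 * Module.finrank ℂ V = q + 1) := by
  obtain ⟨a₀, s, n, m, hM⟩ :=
    QCA_thm QDH_thm QBB_thm QDU_thm (QIN_thm PFR_thm) G V q 2 b ρ
  have h2 := QR2_thm PFR_thm QDH_thm QVT_thm QVB_thm QDU_thm G q b hinv
  rcases QC1R_thm qbase QEQ_thm G V q 2 b ρ a₀ s n m hM hρ with
    ⟨ψ, hψ, h⟩ | ⟨φ, hφ, h⟩ | h | ⟨hn, hm⟩
  · rw [show ρ.character = b.pr ψ from funext h]
    exact Or.inl (h2.1 ψ hψ)
  · rw [show ρ.character = b.ds φ from funext h]
    exact Or.inl (h2.2 φ hφ)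
  · exact Or.inl h.2
  · exact Or.inr (QC2_thm qbase QDU_thm G V q b ρ a₀ s n m hM hρ hperf hn hm)

theorem mone (k G V : Type) [Field k] [Fintype k] [Group G] [Fintype G] [AddCommGroup V]
    [Module ℂ V] [Module.Finite ℂ V] (ρ : Representation ℂ G V) (hρ : ρ.IsIrreducible)
    (hG : (4 ≤ Fintype.card k ∧ Nonempty (G ≃* PSL(2, k))) ∨ Nonempty (G ≃* PGL(2, k))) :
    MOne ρ.character := by
  rcases hG with ⟨h4, hG⟩ | hG
  · obtain ⟨hperf, hodd, heven⟩ :=
      QPS_thm QMJ_thm QMN_thm QMC_thm QMA_thm QSB_thm QTP_thm k G h4 hG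
    rcases Nat.even_or_odd (Fintype.card k) with he | ho
    · obtain ⟨b⟩ := heven he
      exact one1 G V _ b (Or.inl he) ρ hρ
    · obtain ⟨b⟩ := hodd ho
      have h5 : 5 ≤ Fintype.card k := by
        rcases ho with ⟨c, hc⟩
        omega
      obtain ⟨e, hQ⟩ : ∃ e : ℤ, GoodQ k e := by
        have h4 : Fintype.card k % 4 = 3 ∨ Fintype.card k % 4 = 1 := by
          rcases ho with ⟨c, hc⟩
          omega
        rcases h4 with h | h
        · exact ⟨1, h5, Or.inl ⟨rfl, h⟩⟩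
        · exact ⟨-1, h5, Or.inr ⟨rfl, h⟩⟩
      obtain ⟨d⟩ := PM6_thm PM1_thm PM2_thm PM3_thm PM4_thm PM5_thm k G e hQ hG
      have hinv : ∀ x y : G, x ≠ 1 → y ≠ 1 → x * x = 1 → y * y = 1 →
          ∃ z, z⁻¹ * x * z = y := by
        intro x y hx hy hx2 hy2
        obtain ⟨a, ha⟩ := d.inv_conj x hx hx2
        obtain ⟨c, hc⟩ := d.inv_conj y hy hy2
        refine ⟨a * c⁻¹, ?_⟩
        have h1 : (a * c⁻¹)⁻¹ * x * (a * c⁻¹) = c * (a⁻¹ * x * a) * c⁻¹ := by group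
        rw [h1, ha, ← hc]
        group
      rcases one2 G V _ b hperf hinv ρ hρ with h | h
      · exact h
      · have hd : 2 * (Module.finrank ℂ V : ℤ) = (Fintype.card k : ℤ) - e := by
          rcases hQ.2 with ⟨rfl, h3⟩ | ⟨rfl, h3⟩ <;> rcases h with ⟨h6, h7⟩ | ⟨h6, h7⟩ <;> omega
        have hnt : ¬ ∀ g, ρ g = 1 := by
          intro h'
          have := PSLx.finrank_le_of_trivial ρ hρ h'
          rcases h with ⟨_, hd'⟩ | ⟨_, hd'⟩ <;> omega
        obtain ⟨ψ, hψ, hu⟩ := PRU_thm PGS_thm k G V e d ρ hQ hd hnt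
        have heq := PEQ_thm PGS_thm PNO_thm PIN_thm PFR_thm PVU_thm PVD_thm k G V e d ρ ψ hQ hρ
          hd hψ hu
        rw [show ρ.character = d.chi ψ from funext heq]
        exact QR3_thm PFR_thm PGS_thm PVU_thm PVD_thm PNO_thm k G e d ψ hQ hψ
  · obtain ⟨b, hb⟩ := QPG_thm QMJ_thm QMN_thm QMC_thm QMA_thm QTP_thm k G hG
    exact one1 G V _ b hb ρ hρ

end FINRx

/-- Multiplicity one. -/
theorem mult_one (k G V : Type) [Field k] [Fintype k] [Group G] [Fintype G] [AddCommGroup V]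
    [Module ℂ V] [Module.Finite ℂ V] (ρ : Representation ℂ G V) (hρ : ρ.IsIrreducible)
    (hG : (4 ≤ Fintype.card k ∧ Nonempty (G ≃* PSL(2, k))) ∨ Nonempty (G ≃* PGL(2, k))) :
    ∃ (H : Subgroup G) (psi : H →* ℂˣ), (∀ h, psi h = 1 ∨ psi h = -1) ∧
      ip (indFun H (extZ psi)) ρ.character = (Fintype.card G : ℂ) := by
  obtain ⟨H, lam, hlam, h⟩ := FINRx.mone k G V ρ hρ hG
  refine ⟨H, lam, fun x => ?_, ?_⟩
  · have h1 : lam x ^ 2 = 1 := by
      have := DFunLike.congr_fun hlam x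
      rwa [MonoidHom.pow_apply, MonoidHom.one_apply] at this
    have h2 : ((lam x : ℂˣ) : ℂ) ^ 2 = 1 := by
      rw [← Units.val_pow_eq_pow_val, h1, Units.val_one]
    rw [pow_two] at h2
    rcases mul_self_eq_one_iff.1 h2 with h3 | h3
    · exact Or.inl (Units.ext h3)
    · exact Or.inr (Units.ext h3)
  · have h1 := congrArg (starRingEnd ℂ) h
    rw [map_sum, map_natCast] at h1
    rw [← h1]
    unfold ip
    refine Finset.sum_congr rfl fun g _ => ?_
    rw [map_mul, Complex.conj_conj, PEQx.char_inv, mul_comm]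

end StarkC.ABS
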