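import Pool.Agent.ABS.StQ
import Pool.Agent.ABS.FINV
import Pool.Agent.ABS.FINP

/-!
# Project ABS (MP_46b841_nt), part Q: number theory (helper91)
-/

set_option autoImplicit false

open NumberField IsDedekindDomain
open scoped TensorProduct Classical ComplexConjugate

namespace StarkC.ABS

namespace QNBx

/-- Two automorphisms of `ℂ` which agree on the `n`-th roots of unity agree on `ℚ(ζ_n)`. -/
theorem agree (n : ℕ) (f g : ℂ →+* ℂ) (h : ∀ z : ℂ, z ^ n = 1 → f z = g z) :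
    ∀ x ∈ StarkP.rootField n, f x = g x := by
  let f' : ℂ →ₐ[ℚ] ℂ := RingHom.toRatAlgHom f
  let g' : ℂ →ₐ[ℚ] ℂ := RingHom.toRatAlgHom g
  have h1 : ∀ z ∈ {z : ℂ | z ^ n = 1}, f' z = g' z := fun z hz => h z hz
  have h2 : StarkP.rootField n ≤ IntermediateField.mk (AlgHom.equalizer f' g') (by
      intro x hx
      have hx' : f' x = g' x := hx
      show f' x⁻¹ = g' x⁻¹
      rw [map_inv₀, map_inv₀, hx']) := by
    unfold StarkP.rootField
    exact IntermediateField.adjoin_le_iff.2 h1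
  intro x hx
  exact h2 hx

/-- Action on the roots of unity. -/
theorem act (n : ℕ) (hn : 0 < n) (σ : ℂ ≃+* ℂ) : ∃ s : ℕ, n.Coprime s ∧
    ∀ z : ℂ, z ^ n = 1 → σ z = z ^ s := by
  have : NeZero n := ⟨hn.ne'⟩
  have hζ := Complex.isPrimitiveRoot_exp n hn.ne'
  have h1 : IsPrimitiveRoot (σ (Complex.exp (2 * Real.pi * Complex.I / n))) n :=
    hζ.map_of_injective σ.injective
  obtain ⟨s, -, hs⟩ := hζ.eq_pow_of_pow_eq_one h1.pow_eq_one
  refine ⟨s, ?_, fun z hz => ?_⟩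
  · rw [← hs] at h1
    exact (((hζ.pow_iff_coprime hn s).1 h1)).symm
  · obtain ⟨i, -, rfl⟩ := hζ.eq_pow_of_pow_eq_one hz
    rw [map_pow, ← hs, ← pow_mul, ← pow_mul, mul_comm s i]

theorem conj_rootu (r : ℕ) (hr : 0 < r) (z : ℂ) (hz : z ^ r = 1) : conj z = z⁻¹ := by
  have h1 : ‖z‖ = 1 := Complex.norm_eq_one_of_pow_eq_one hz hr.ne'
  rw [Complex.inv_def, Complex.normSq_eq_norm_sq, h1]
  simp

/-- The condition of the criterion: real subfields of `ℚ(ζ_r)` which lie in `ℚ(ζ_(ℓ^j))`. -/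
theorem sq_cond (r : ℕ) (E : IntermediateField ℚ ℂ) (hr : 0 < r) (hE : E ≤ StarkP.rootField r)
    (hreal : ∀ x ∈ E, conj x = x) (ℓ j : ℕ) (hℓ : ℓ.Prime) (h2 : ℓ ≠ 2)
    (hEℓ : E ≤ StarkP.rootField (ℓ ^ j)) (σ : ℂ ≃+* ℂ)
    (hσ : ∀ z : ℂ, z ^ r = 1 → (σ ^ 2) z = z) : ∀ x ∈ E, σ x = x := by
  have hN : 0 < ℓ ^ j := pow_pos hℓ.pos j
  have hn : 0 < r.lcm (ℓ ^ j) := Nat.lcm_pos hr hN
  obtain ⟨s, hs, hact⟩ := act (r.lcm (ℓ ^ j)) hn σ
  have hact_r : ∀ z : ℂ, z ^ r = 1 → σ z = z ^ s := fun z hz =>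
    hact z (by
      obtain ⟨c, hc⟩ := Nat.dvd_lcm_left r (ℓ ^ j)
      rw [hc, pow_mul, hz, one_pow])
  have hact_N : ∀ z : ℂ, z ^ (ℓ ^ j) = 1 → σ z = z ^ s := fun z hz =>
    hact z (by
      obtain ⟨c, hc⟩ := Nat.dvd_lcm_right r (ℓ ^ j)
      rw [hc, pow_mul, hz, one_pow])
  -- `s² ≡ 1` modulo `r`
  have hs2 : s * s ≡ 1 [MOD r] := by
    have : NeZero r := ⟨hr.ne'⟩
    have hζ := Complex.isPrimitiveRoot_exp r hr.ne'
    have h3 := hσ _ hζ.pow_eq_one
    rw [pow_two] at h3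
    have h4 : σ (σ (Complex.exp (2 * Real.pi * Complex.I / r))) =
      Complex.exp (2 * Real.pi * Complex.I / r) := h3
    rw [hact_r _ hζ.pow_eq_one, map_pow, hact_r _ hζ.pow_eq_one, ← pow_mul] at h4
    have h5 : Complex.exp (2 * Real.pi * Complex.I / r) ^ (s * s) =
      Complex.exp (2 * Real.pi * Complex.I / r) ^ 1 := by rw [h4, pow_one]
    have h6 := (hζ.isOfFinOrder hr.ne').pow_eq_pow_iff_modEq.1 h5
    rwa [← hζ.eq_orderOf] at h6
  have hsN : (ℓ ^ j).Coprime s := Nat.Coprime.coprime_dvd_left (Nat.dvd_lcm_right r _) hs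
  have hsr : r.Coprime s := Nat.Coprime.coprime_dvd_left (Nat.dvd_lcm_left r _) hs
  -- the two cases modulo the gcd
  have hpm : s ≡ 1 [MOD r.gcd (ℓ ^ j)] ∨ s ≡ r - 1 [MOD r.gcd (ℓ ^ j)] := by
    obtain ⟨i, hi, hgi⟩ := (Nat.dvd_prime_pow hℓ).1 (Nat.gcd_dvd_right r (ℓ ^ j))
    rw [hgi]
    have hgr : ℓ ^ i ∣ r := hgi ▸ Nat.gcd_dvd_left r (ℓ ^ j)
    have h3 : s * s ≡ 1 [MOD ℓ ^ i] := hs2.of_dvd hgr
    have h4 : ((ℓ ^ i : ℕ) : ℤ) ∣ ((s : ℤ) - 1) * ((s : ℤ) + 1) := by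
      have h5 : (1 : ℤ) ≡ (s : ℤ) * s [ZMOD ((ℓ ^ i : ℕ) : ℤ)] := by
        have := (Int.natCast_modEq_iff).2 h3.symm
        push_cast at this ⊢
        exact this
      have h6 := h5.dvd
      rwa [show ((s : ℤ) - 1) * ((s : ℤ) + 1) = (s : ℤ) * s - 1 by ring]
    have hcase : ((ℓ ^ i : ℕ) : ℤ) ∣ ((s : ℤ) - 1) ∨ ((ℓ ^ i : ℕ) : ℤ) ∣ ((s : ℤ) + 1) := by
      push_cast at h4 ⊢
      have hp : Prime (ℓ : ℤ) := Nat.prime_iff_prime_int.1 hℓ
      by_cases h6 : (ℓ : ℤ) ∣ (s : ℤ) - 1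
      · left
        refine (IsCoprime.dvd_of_dvd_mul_right ?_ h4)
        refine IsCoprime.pow_left ((Prime.coprime_iff_not_dvd hp).2 fun h7 => ?_)
        have h8 : (ℓ : ℤ) ∣ 2 := by
          have := dvd_sub h7 h6
          ring_nf at this
          exact this
        have h9 : ℓ ∣ 2 := by exact_mod_cast h8
        exact h2 ((Nat.prime_dvd_prime_iff_eq hℓ Nat.prime_two).1 h9)
      · right
        refine (IsCoprime.dvd_of_dvd_mul_left ?_ h4)
        exact IsCoprime.pow_left ((Prime.coprime_iff_not_dvd hp).2 h6)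
    rcases hcase with h | h
    · left
      refine ((Int.natCast_modEq_iff).1 ?_).symm
      exact (Int.modEq_iff_dvd).2 (by push_cast at h ⊢; exact h)
    · right
      refine (Int.natCast_modEq_iff).1 ?_
      refine (Int.modEq_iff_dvd).2 ?_
      rw [Nat.cast_sub hr]
      have h9 : ((ℓ ^ i : ℕ) : ℤ) ∣ (r : ℤ) := by exact_mod_cast hgr
      have h10 := dvd_sub h9 h
      have h11 : ((r : ℤ) - ((1 : ℕ) : ℤ)) - (s : ℤ) = (r : ℤ) - ((s : ℤ) + 1) := by
        push_cast; ring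
      rw [h11]
      exact h10
  -- an automorphism with the same action on the second field
  have key : ∀ u : ℕ, r.Coprime u → s ≡ u [MOD r.gcd (ℓ ^ j)] → ∃ σ' : ℂ ≃+* ℂ,
      (∀ z : ℂ, z ^ r = 1 → σ' z = z ^ u) ∧ ∀ x ∈ E, σ' x = σ x := by
    intro u hu hsu
    obtain ⟨t, ht1, ht2⟩ := Nat.chineseRemainder' (n := r) (m := ℓ ^ j) (a := u) (b := s) hsu.symm
    have htr : r.Coprime t := by
      rw [Nat.Coprime, Nat.gcd_comm, ht1.gcd_eq, Nat.gcd_comm]
      exact hu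
    have htN : (ℓ ^ j).Coprime t := by
      rw [Nat.Coprime, Nat.gcd_comm, ht2.gcd_eq, Nat.gcd_comm]
      exact hsN
    have htl : (r.lcm (ℓ ^ j)).Coprime t :=
      Nat.Coprime.coprime_dvd_left (Nat.lcm_dvd_mul r (ℓ ^ j)) (Nat.Coprime.mul_left htr htN)
    obtain ⟨σ', hσ'⟩ := SIGT_thm (r.lcm (ℓ ^ j)) t hn htl
    have hpow : ∀ (N a b : ℕ) (z : ℂ), z ^ N = 1 → a ≡ b [MOD N] → z ^ a = z ^ b := by
      intro N a b z hz hab
      have h3 : ∀ c : ℕ, z ^ c = z ^ (c % N) := fun c => by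
        conv_lhs => rw [← Nat.div_add_mod c N, pow_add, pow_mul, hz, one_pow, one_mul]
      rw [h3 a, h3 b, hab]
    refine ⟨σ', fun z hz => ?_, fun x hx => ?_⟩
    · rw [hσ' z (by
        obtain ⟨c, hc⟩ := Nat.dvd_lcm_left r (ℓ ^ j)
        rw [hc, pow_mul, hz, one_pow])]
      exact hpow r t u z hz ht1
    · refine agree (ℓ ^ j) (σ' : ℂ →+* ℂ) (σ : ℂ →+* ℂ) (fun z hz => ?_) x (hEℓ hx)
      show σ' z = σ z
      rw [hσ' z (by
        obtain ⟨c, hc⟩ := Nat.dvd_lcm_right r (ℓ ^ j)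
        rw [hc, pow_mul, hz, one_pow]), hact_N z hz]
      exact hpow _ t s z hz ht2
  intro x hx
  rcases hpm with h | h
  · obtain ⟨σ', h3, h4⟩ := key 1 (Nat.coprime_one_right r) h
    rw [← h4 x hx]
    refine agree r (σ' : ℂ →+* ℂ) (RingHom.id ℂ) (fun z hz => ?_) x (hE hx)
    show σ' z = z
    rw [h3 z hz, pow_one]
  · have hcr : r.Coprime (r - 1) := by
      have := Nat.coprime_self_sub_right (m := 1) (n := r) hr
      exact this.2 (Nat.coprime_one_right r)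
    obtain ⟨σ', h3, h4⟩ := key (r - 1) hcr h
    rw [← h4 x hx]
    have h5 : σ' x = conj x := by
      refine agree r (σ' : ℂ →+* ℂ) (starRingEnd ℂ) (fun z hz => ?_) x (hE hx)
      show σ' z = conj z
      rw [h3 z hz, conj_rootu r hr z hz]
      refine eq_inv_of_mul_eq_one_left ?_
      rw [← pow_succ, Nat.sub_add_cancel hr, hz]
    rw [h5, hreal x hx]

end QNBx

open QNBx

section

variable {K L : Type} [Field K] [NumberField K] [Field L] [NumberField L] [Algebra K L]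
  [IsGalois K L] (S : Finset (HeightOneSpectrum (𝓞 K)))
  (Θ : ((L → ℝ) →₀ ℂ) →ₗ[ℂ] ((L → ℝ) →₀ ℂ))

/-- The rational part. -/
theorem bot_norm (hΘ : StarkP.IsTheta K (StarkP.aboveSet K L S) Θ)
    (χ : (L ≃ₐ[K] L) → ℂ) (n : ℕ) (hn : 0 < n) (hP : PermC (StarkP.trChar χ)) (hM : MonC n χ)
    (hcyc : IsCyclic ((⊥ : IntermediateField ℚ ℂ) ≃ₐ[ℚ] (⊥ : IntermediateField ℚ ℂ))) :
    StarkP.NormIn ⊥ χ (S : Set (HeightOneSpectrum (𝓞 K))) Θ :=
  crit_coprime S Θ hΘ χ n 1 ⊥ hn one_pos hP (by simpa only [Nat.cast_one, one_mul] using hM)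
    bot_le hcyc (by rw [IntermediateField.finrank_bot]; exact Nat.coprime_one_right _)

/-- The characters `pr ψ`, `ds φ`. -/
theorem outQ_norm (hΘ : StarkP.IsTheta K (StarkP.aboveSet K L S) Θ)
    (χ : (L ≃ₐ[K] L) → ℂ) (h : OutQ χ) (E : IntermediateField ℚ ℂ)
    (hE : E ≤ StarkP.charField χ) (hcyc : IsCyclic (E ≃ₐ[ℚ] E))
    (hd : Odd (Module.finrank ℚ E) ∨
      ∃ ℓ j : ℕ, ℓ.Prime ∧ ℓ ≠ 2 ∧ E ≤ StarkP.rootField (ℓ ^ j)) :
    StarkP.NormIn E χ (S : Set (HeightOneSpectrum (𝓞 K))) Θ := by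
  obtain ⟨r, hr3, hM, hP, hdeg, hreal⟩ := h
  have hr : 0 < r := by omega
  have hEr : E ≤ StarkP.rootField r := hE.trans (charField_le_of_monC χ r hr hM)
  have hM' : MonC r (fun g => ((1 : ℕ) : ℂ) * χ g) := by
    simpa only [Nat.cast_one, one_mul] using hM
  have hpos : 0 < Module.finrank ℚ (StarkP.charField χ) := by
    rcases Nat.eq_zero_or_pos (Module.finrank ℚ (StarkP.charField χ)) with h0 | h0
    · rw [h0, mul_zero] at hdeg
      exact absurd hdeg.symm (Nat.totient_pos.2 hr).ne'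
    · exact h0
  have hq : 1 * (r.totient / Module.finrank ℚ (StarkP.charField χ)) = 2 := by
    rw [← hdeg, Nat.mul_div_cancel _ hpos]
  rcases hd with hd | ⟨ℓ, j, hℓ, h2, hEℓ⟩
  · refine crit_coprime S Θ hΘ χ r 1 E hr one_pos hP hM' hEr hcyc ?_
    rw [hq]
    exact (Nat.coprime_two_left).2 hd
  · refine FINVx.crit K L χ r 1 E S Θ hΘ hr one_pos hP hM' hEr hcyc ?_
    rw [hq]
    intro σ hσ
    refine sq_cond r E hr hEr ?_ ℓ j hℓ h2 hEℓ σ hσ
    have h3 : StarkP.charField χ ≤ IntermediateField.mk (AlgHom.equalizer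
        (RingHom.toRatAlgHom (starRingEnd ℂ)) (AlgHom.id ℚ ℂ)) (by
          intro x hx
          have hx' : conj x = x := hx
          show conj x⁻¹ = x⁻¹
          rw [map_inv₀, hx']) := by
      unfold StarkP.charField
      refine IntermediateField.adjoin_le_iff.2 ?_
      rintro _ ⟨g, rfl⟩
      exact hreal g
    intro x hx
    exact h3 (hE hx)

/-- The half characters. -/
theorem half_norm (hΘ : StarkP.IsTheta K (StarkP.aboveSet K L S) Θ)
    (χ : (L ≃ₐ[K] L) → ℂ) (p : ℕ) (hp : p.Prime) (h2 : p ≠ 2) (hM : MonC p χ)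
    (hP : PermC (StarkP.trChar χ)) (hF : Module.finrank ℚ (StarkP.charField χ) = 2)
    (E : IntermediateField ℚ ℂ) (hE : E ≤ StarkP.charField χ) (hcyc : IsCyclic (E ≃ₐ[ℚ] E)) :
    StarkP.NormIn E χ (S : Set (HeightOneSpectrum (𝓞 K))) Θ := by
  have : FiniteDimensional ℚ (StarkP.charField χ) :=
    Module.finite_of_finrank_pos (by rw [hF]; norm_num)
  have h3 : Module.finrank ℚ E ∣ 2 := by
    rw [← hF]
    let _ : Algebra E (StarkP.charField χ) := (IntermediateField.inclusion hE).toRingHom.toAlgebra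
    have : IsScalarTower ℚ E (StarkP.charField χ) := IsScalarTower.of_algebraMap_eq fun x => rfl
    exact Dvd.intro _ (Module.finrank_mul_finrank ℚ E (StarkP.charField χ))
  rcases (Nat.dvd_prime Nat.prime_two).1 h3 with h4 | h4
  · have h5 : E = ⊥ := IntermediateField.finrank_eq_one_iff.1 h4
    subst h5
    exact bot_norm S Θ hΘ χ p hp.pos hP hM hcyc
  · have h5 : E = StarkP.charField χ :=
      IntermediateField.eq_of_le_of_finrank_eq hE (by rw [h4, hF])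
    subst h5
    refine FINPx.critG K L χ p 1 1 S Θ hΘ hp h2 one_pos (Nat.coprime_one_left _) hP ?_
    rw [pow_one]
    simpa only [Nat.cast_one, one_mul] using hM

/-- Combinations of permutation characters have rational values. -/
theorem perm_field {G : Type} [Group G] [Fintype G] (χ : G → ℂ) (h : PermC χ) :
    StarkP.charField χ = ⊥ ∧ MonC 1 χ := by
  have hM : MonC 1 χ := by
    obtain ⟨r, H, c, hc⟩ := h
    refine ⟨r, H, fun _ => 1, c, fun i => one_pow (M := (H i →* ℂˣ)) 1, fun g => ?_⟩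
    rw [hc g]
    refine Finset.sum_congr rfl fun i _ => ?_
    congr 1
    unfold indFun
    congr 1
    refine Finset.sum_congr rfl fun x _ => ?_
    by_cases hx : x⁻¹ * g * x ∈ H i
    · rw [if_pos hx, if_pos hx]
      unfold extZ
      rw [dif_pos hx]
      rfl
    · rw [if_neg hx, if_neg hx]
  refine ⟨le_antisymm ?_ bot_le, hM⟩
  refine (charField_le_of_monC χ 1 one_pos hM).trans ?_
  unfold StarkP.rootField
  refine IntermediateField.adjoin_le_iff.2 ?_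
  intro z hz
  have hz' : z ^ 1 = 1 := hz
  rw [pow_one] at hz'
  rw [hz']
  exact one_mem _

/-- Combinations of permutation characters. -/
theorem perm_norm (hΘ : StarkP.IsTheta K (StarkP.aboveSet K L S) Θ)
    (χ : (L ≃ₐ[K] L) → ℂ) (h : PermC χ) (E : IntermediateField ℚ ℂ)
    (hE : E ≤ StarkP.charField χ) (hcyc : IsCyclic (E ≃ₐ[ℚ] E)) :
    StarkP.NormIn E χ (S : Set (HeightOneSpectrum (𝓞 K))) Θ := by
  obtain ⟨hF, hM⟩ := perm_field χ h
  have hE' : E = ⊥ := le_antisymm (hF ▸ hE) bot_le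
  have hfr : Module.finrank ℚ (StarkP.charField χ) = 1 := by
    rw [hF]
    exact IntermediateField.finrank_bot
  subst hE'
  refine bot_norm S Θ hΘ χ 1 one_pos ?_ hM hcyc
  have htr : StarkP.trChar χ = χ := by
    funext g
    unfold StarkP.trChar
    have h5 : χ g ∈ (⊥ : IntermediateField ℚ ℂ) :=
      hF ▸ IntermediateField.subset_adjoin ℚ _ (Set.mem_range_self g)
    obtain ⟨a, ha⟩ := IntermediateField.mem_bot.1 h5
    have h6 : (⟨χ g, IntermediateField.subset_adjoin ℚ _ (Set.mem_range_self g)⟩ :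
        StarkP.charField χ) = algebraMap ℚ _ a := by
      apply Subtype.ext
      exact ha.symm
    rw [h6, Algebra.trace_algebraMap, hfr, one_smul]
    exact ha
  rw [htr]
  exact h

end

end StarkC.ABS
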