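import Pool.Agent.ABS.QL2
import Pool.Agent.ABS.QNB
import Pool.Agent.ABS.NAS
import Pool.Agent.ABS.QVT

/-!
# Project ABS (MP_46b841_nt), part Q: the prime two, end (helper91)
-/

set_option autoImplicit false

open NumberField IsDedekindDomain
open scoped TensorProduct Classical ComplexConjugate

namespace StarkC.ABS

open StarkC.MON
open StarkP (rootField charField trChar NormIn AbsIn IsTheta)

namespace QL3x

open QNBx

theorem root_mono {a b : ℕ} (h : a ∣ b) : rootField a ≤ rootField b := by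
  unfold StarkP.rootField
  refine IntermediateField.adjoin.mono ℚ _ _ fun z hz => ?_
  obtain ⟨c, rfl⟩ := h
  have hz' : z ^ a = 1 := hz
  show z ^ (a * c) = 1
  rw [pow_mul, hz', one_pow]

theorem fin_of {o : ℕ} (ho : 0 < o) (E : IntermediateField ℚ ℂ) (h : E ≤ rootField o) :
    FiniteDimensional ℚ E := by
  have : NeZero o := ⟨ho.ne'⟩
  have h1 := rootField_cyc o
  have h2 : FiniteDimensional ℚ (rootField o) :=
    IsCyclotomicExtension.finiteDimensional {o} ℚ (rootField o)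
  exact Module.Finite.of_injective (IntermediateField.inclusion h).toLinearMap
    (IntermediateField.inclusion h).injective

theorem norm_down (E M : IntermediateField ℚ ℂ) (h : E ≤ M) (hM : FiniteDimensional ℚ M)
    (α : M) (hα : α ≠ 0) : ∃ β : E, β ≠ 0 ∧ Algebra.norm ℚ β = Algebra.norm ℚ α := by
  let _ : Algebra E M := (IntermediateField.inclusion h).toRingHom.toAlgebra
  have : IsScalarTower ℚ E M := IsScalarTower.of_algebraMap_eq fun x => rfl
  have : FiniteDimensional ℚ E := Module.Finite.of_injective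
    (IntermediateField.inclusion h).toLinearMap (IntermediateField.inclusion h).injective
  have : FiniteDimensional E M := Module.Finite.of_restrictScalars_finite ℚ E M
  exact ⟨Algebra.norm E α, Algebra.norm_ne_zero_iff.2 hα, Algebra.norm_norm⟩

theorem finrank_dvd (E M : IntermediateField ℚ ℂ) (h : E ≤ M) :
    Module.finrank ℚ E ∣ Module.finrank ℚ M := by
  let _ : Algebra E M := (IntermediateField.inclusion h).toRingHom.toAlgebra
  have : IsScalarTower ℚ E M := IsScalarTower.of_algebraMap_eq fun x => rfl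
  exact Dvd.intro _ (Module.finrank_mul_finrank ℚ E M)

theorem pow_congr (N a b : ℕ) (z : ℂ) (hz : z ^ N = 1) (hab : a ≡ b [MOD N]) :
    z ^ a = z ^ b := by
  have h3 : ∀ c : ℕ, z ^ c = z ^ (c % N) := fun c => by
    conv_lhs => rw [← Nat.div_add_mod c N, pow_add, pow_mul, hz, one_pow, one_mul]
  rw [h3 a, h3 b, hab]

theorem root_dvd {a b : ℕ} (h : a ∣ b) (z : ℂ) (hz : z ^ a = 1) : z ^ b = 1 := by
  obtain ⟨c, rfl⟩ := h
  rw [pow_mul, hz, one_pow]

/-- `ℚ(ζ_(2^j)) ∩ ℚ(ζ_(2^n m)) ≤ ℚ(ζ_(2^n))`, `m` odd. -/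
theorem inter (n j m : ℕ) (hm : Odd m) (x : ℂ) (h1 : x ∈ rootField (2 ^ j))
    (h2 : x ∈ rootField (2 ^ n * m)) : x ∈ rootField (2 ^ n) := by
  rcases Nat.lt_or_ge n j with hnj | hnj
  · have hj0 : 0 < 2 ^ j := by positivity
    have hN : 0 < 2 ^ j * m := Nat.mul_pos hj0 hm.pos
    refine FIXC_thm (2 ^ n) x fun σ hσ => ?_
    obtain ⟨s, hs, hact⟩ := act (2 ^ j * m) hN σ
    have hs1 : s ≡ 1 [MOD 2 ^ n] := by
      have hn0 : (2 ^ n) ≠ 0 := by positivity
      have : NeZero (2 ^ n) := ⟨hn0⟩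
      have hζ := Complex.isPrimitiveRoot_exp (2 ^ n) hn0
      have h3 : (2 ^ n) ∣ 2 ^ j * m := Dvd.dvd.mul_right (pow_dvd_pow 2 hnj.le) m
      have h4 := hact _ (root_dvd h3 _ hζ.pow_eq_one)
      rw [hσ _ (IntermediateField.subset_adjoin ℚ _ hζ.pow_eq_one)] at h4
      have h5 : Complex.exp (2 * Real.pi * Complex.I / (2 ^ n : ℕ)) ^ s =
        Complex.exp (2 * Real.pi * Complex.I / (2 ^ n : ℕ)) ^ 1 := by rw [← h4, pow_one]
      have h6 := (hζ.isOfFinOrder hn0).pow_eq_pow_iff_modEq.1 h5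
      rwa [← hζ.eq_orderOf] at h6
    have hcop : (2 ^ j).Coprime m := Nat.Coprime.pow_left j (Nat.coprime_two_left.2 hm)
    obtain ⟨t, ht1, ht2⟩ := Nat.chineseRemainder hcop s 1
    have ht3 : t ≡ 1 [MOD 2 ^ n] := (ht1.of_dvd (pow_dvd_pow 2 hnj.le)).trans hs1
    have ht4 : t ≡ 1 [MOD 2 ^ n * m] :=
      (Nat.modEq_and_modEq_iff_modEq_mul (Nat.Coprime.pow_left n
        (Nat.coprime_two_left.2 hm))).1 ⟨ht3, ht2⟩
    have htc : (2 ^ j * m).Coprime t := by
      refine Nat.Coprime.mul_left ?_ ?_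
      · rw [Nat.Coprime, Nat.gcd_comm, ht1.gcd_eq, Nat.gcd_comm]
        exact Nat.Coprime.coprime_dvd_left (Dvd.intro m rfl) hs
      · rw [Nat.Coprime, Nat.gcd_comm, ht2.gcd_eq, Nat.gcd_comm]
        exact Nat.coprime_one_right m
    obtain ⟨σ', hσ'⟩ := SIGT_thm (2 ^ j * m) t hN htc
    have e1 : σ' x = σ x := by
      refine agree (2 ^ j) (σ' : ℂ →+* ℂ) (σ : ℂ →+* ℂ) (fun z hz => ?_) x h1
      show σ' z = σ z
      have hz' := root_dvd (Dvd.intro m rfl : 2 ^ j ∣ 2 ^ j * m) z hz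
      rw [hσ' z hz', hact z hz']
      exact pow_congr _ t s z hz ht1
    have e2 : σ' x = x := by
      refine agree (2 ^ n * m) (σ' : ℂ →+* ℂ) (RingHom.id ℂ) (fun z hz => ?_) x h2
      show σ' z = z
      have hz' := root_dvd (Nat.mul_dvd_mul_right (pow_dvd_pow 2 hnj.le) m) z hz
      rw [hσ' z hz', pow_congr _ t 1 z hz ht4, pow_one]
    rw [← e1, e2]
  · exact root_mono (pow_dvd_pow 2 hnj) h1

/-- Real subfields of `ℚ(ζ_(2^n))`. -/
theorem le_EF2 (n s : ℕ) (hs : (s + 1) % 2 ^ n = 0) (E : IntermediateField ℚ ℂ)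
    (hE : E ≤ rootField (2 ^ n)) (hreal : ∀ x ∈ E, conj x = x) : E ≤ EF2 n s := by
  intro x hx
  refine ⟨hE hx, fun σ hσ => ?_⟩
  have h1 : σ x = conj x := by
    refine agree (2 ^ n) (σ : ℂ →+* ℂ) (starRingEnd ℂ) (fun z hz => ?_) x (hE hx)
    show σ z = conj z
    rw [hσ z hz, conj_rootu (2 ^ n) (by positivity) z hz]
    refine eq_inv_of_mul_eq_one_left ?_
    rw [← pow_succ, pow_congr (2 ^ n) (s + 1) 0 z hz hs, pow_zero]
  rw [h1, hreal x hx]

theorem eq_bot (n : ℕ) (hn : n ≤ 2) (E : IntermediateField ℚ ℂ)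
    (hE : E ≤ rootField (2 ^ n)) (hreal : ∀ x ∈ E, conj x = x) : E = ⊥ := by
  refine le_antisymm (fun x hx => ?_) bot_le
  have h4 : x ∈ rootField 4 := root_mono (by
    have := pow_dvd_pow 2 hn
    simpa using this) (hE hx)
  have h1 : x ∈ rootField 1 := by
    refine FIXC_thm 1 x fun σ _ => ?_
    obtain ⟨s, hs, hact⟩ := act 4 (by norm_num) σ
    have h5 : s ≡ 1 [MOD 4] ∨ s ≡ 3 [MOD 4] := by
      have h6 : ¬ 2 ∣ s := fun h => by
        have h7 := Nat.dvd_gcd (by norm_num : 2 ∣ 4) h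
        rw [hs] at h7
        omega
      have h8 : s % 4 = 1 ∨ s % 4 = 3 := by omega
      exact h8
    rcases h5 with h5 | h5
    · refine agree 4 (σ : ℂ →+* ℂ) (RingHom.id ℂ) (fun z hz => ?_) x h4
      show σ z = z
      rw [hact z hz, pow_congr 4 s 1 z hz h5, pow_one]
    · have h6 : σ x = conj x := by
        refine agree 4 (σ : ℂ →+* ℂ) (starRingEnd ℂ) (fun z hz => ?_) x h4
        show σ z = conj z
        rw [hact z hz, conj_rootu 4 (by norm_num) z hz, pow_congr 4 s 3 z hz h5]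
        refine eq_inv_of_mul_eq_one_left ?_
        rw [← pow_succ, hz]
      rw [h6, hreal x hx]
  have h7 : rootField 1 ≤ ⊥ := by
    unfold StarkP.rootField
    refine IntermediateField.adjoin_le_iff.2 ?_
    intro z hz
    have hz' : z ^ 1 = 1 := hz
    rw [pow_one] at hz'
    rw [hz']
    exact one_mem _
  exact h7 h1

theorem real_of {G : Type} (χ : G → ℂ) (hreal : ∀ g, conj (χ g) = χ g) :
    ∀ x ∈ charField χ, conj x = x := by
  have h3 : StarkP.charField χ ≤ IntermediateField.mk (AlgHom.equalizer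
      (RingHom.toRatAlgHom (starRingEnd ℂ)) (AlgHom.id ℚ ℂ)) (by
        intro x hx
        have hx' : conj x = x := hx
        show conj x⁻¹ = x⁻¹
        rw [map_inv₀, hx']) := by
    unfold StarkP.charField
    refine IntermediateField.adjoin_le_iff.2 ?_
    rintro _ ⟨g, rfl⟩
    exact hreal g
  intro x hx
  exact h3 hx

/-- Inflation. -/
theorem dl {G Q : Type} [Group G] [Group Q] (π : G →* Q) (T : Subgroup Q) (w : Q)
    (hD : Dih T w) (ψ : T →* ℂˣ) (g : G) (hg : π g = w) (s : ℕ) (hs : ψ ^ (s + 1) = 1) :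
    DL (T.comap π) (ψ.comp (π.subgroupComap T)) g s := by
  have hw : w⁻¹ = w := inv_eq_of_mul_eq_one_left hD.sq
  refine ⟨fun a ha => ?_, fun a b h => ?_, ?_, fun a ha => ?_⟩
  · show π (g⁻¹ * a * g) ∈ T
    rw [map_mul, map_mul, map_inv, hg, hw, hD.inv _ ha]
    exact T.inv_mem ha
  · have h1 : π.subgroupComap T b = (π.subgroupComap T a)⁻¹ := by
      apply Subtype.ext
      show π (b : G) = (π (a : G))⁻¹
      rw [h, map_mul, map_mul, map_inv, hg, hw, hD.inv _ a.2]
    show ψ (π.subgroupComap T b) = ψ (π.subgroupComap T a) ^ s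
    have h2 : ψ (π.subgroupComap T a) ^ (s + 1) = 1 := by
      have := DFunLike.congr_fun hs (π.subgroupComap T a)
      exact this
    rw [h1, map_inv]
    refine inv_eq_of_mul_eq_one_left ?_
    rw [← pow_succ, h2]
  · show π (g * g) ∈ T
    rw [map_mul, hg, hD.sq]
    exact T.one_mem
  · have h1 : π.subgroupComap T a = 1 := by
      apply Subtype.ext
      show π (a : G) = 1
      rw [ha, map_mul, hg, hD.sq]
    show ψ (π.subgroupComap T a) = 1
    rw [h1, map_one]

theorem orderOf_comp {G Q : Type} [Group G] [Group Q] (π : G →* Q)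
    (hπ : Function.Surjective π) (T : Subgroup Q) (ψ : T →* ℂˣ) :
    orderOf (ψ.comp (π.subgroupComap T)) = orderOf ψ := by
  rw [orderOf_eq_orderOf_iff]
  intro k
  have hsurj : Function.Surjective (π.subgroupComap T) := by
    rintro ⟨y, hy⟩
    obtain ⟨x, rfl⟩ := hπ y
    exact ⟨⟨x, hy⟩, rfl⟩
  constructor
  · intro h
    refine MonoidHom.ext fun y => ?_
    obtain ⟨x, rfl⟩ := hsurj y
    exact DFunLike.congr_fun h x
  · intro h
    refine MonoidHom.ext fun x => ?_
    exact DFunLike.congr_fun h (π.subgroupComap T x)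

theorem ext_comp {G Q : Type} [Group G] [Fintype G] [Group Q] [Fintype Q] (π : G →* Q)
    (hπ : Function.Surjective π) (T : Subgroup Q) (ψ : T →* ℂˣ) (j : ℕ) (x : G) :
    indFun T (extZ (ψ ^ j)) (π x) =
      indFun (T.comap π) (extZ ((ψ.comp (π.subgroupComap T)) ^ j)) x := by
  rw [CMB.indFun_infl π hπ]
  refine QTRx.indFun_congr _ _ _ (fun y hy => ?_) x
  have hy' : π y ∈ T := hy
  show extZ (ψ ^ j) (π y) = _
  unfold extZ
  rw [dif_pos hy, dif_pos hy']
  rfl

end QL3x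

open QL3x QNBx

/-- Norms from the subfields of `ℚ(ζ_(2^j))`, for the characters `e Ind_T ψ + R`. -/
theorem two_norm (hD : ConclD) (K L : Type) [Field K] [NumberField K] [Field L] [NumberField L]
    [Algebra K L] [IsGalois K L] (S : Finset (HeightOneSpectrum (𝓞 K)))
    (Θ : ((L → ℝ) →₀ ℂ) →ₗ[ℂ] ((L → ℝ) →₀ ℂ))
    (hΘ : StarkP.IsTheta K (StarkP.aboveSet K L S) Θ)
    (Q : Type) [Group Q] [Fintype Q] (π : (L ≃ₐ[K] L) →* Q) (hπ : Function.Surjective π)
    (T : Subgroup Q) (w : Q) (ψ : T →* ℂˣ) (e : ℤ) (R χ : Q → ℂ) (hDih : Dih T w)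
    (h3 : 3 ≤ orderOf ψ) (he : e = 1 ∨ e = -1) (hR : PermC R)
    (hχ : ∀ g, χ g = (e : ℂ) * indFun T (extZ ψ) g + R g)
    (hOut : StarkP.NormIn ⊥ (fun g => χ (π g)) (S : Set (HeightOneSpectrum (𝓞 K))) Θ)
    (E : IntermediateField ℚ ℂ) (hE : E ≤ charField (fun g => χ (π g))) (j : ℕ)
    (hEj : E ≤ rootField (2 ^ j)) :
    StarkP.NormIn E (fun g => χ (π g)) (S : Set (HeightOneSpectrum (𝓞 K))) Θ := by
  obtain ⟨hM, hreal, hdeg, htr⟩ := QTS_thm QVT_thm SIGT_thm
    (fun G _ _ n m r χ H ψ c hn hm hψ hχ => (FCH_thm SIGT_thm TRT_thm G n m r χ H ψ c hn hm hψ hχ).2)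
    Q T w ψ e R χ hDih h3 he hR hχ
  rw [VFINx.charField_comp π hπ] at hE
  have hr : 0 < orderOf ψ := by omega
  have hEr : E ≤ rootField (orderOf ψ) := hE.trans (charField_le_of_monC χ _ hr hM)
  have hEreal : ∀ x ∈ E, conj x = x := fun x hx => real_of χ hreal x (hE hx)
  obtain ⟨n, m, hm, hnm⟩ := Nat.exists_eq_two_pow_mul_odd hr.ne'
  have hEn : E ≤ rootField (2 ^ n) := fun x hx => inter n j m hm x (hEj hx) (hnm ▸ hEr hx)
  rcases Nat.lt_or_ge n 3 with hn | hn
  · have h1 : E = ⊥ := eq_bot n (by omega) E hEn hEreal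
    rw [h1]
    exact hOut
  · obtain ⟨g, hg⟩ := hπ w
    obtain ⟨s, hs⟩ : ∃ s, s + 1 = orderOf ψ := ⟨orderOf ψ - 1, by omega⟩
    have hs2 : (s + 1) % 2 ^ n = 0 := by
      rw [hs, hnm]
      exact Nat.mul_mod_right _ _
    have hTT : TT n s := ⟨by omega, Or.inl hs2⟩
    have hL := dl π T w hDih ψ g hg s (by rw [hs, pow_orderOf_eq_one])
    have hord : orderOf (ψ.comp (π.subgroupComap T)) = 2 ^ n * m := by
      rw [orderOf_comp π hπ, hnm]
    have hPR : PermC (fun x => R (π x)) := by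
      obtain ⟨r, H, c, hc⟩ := hR
      refine ⟨r, fun i => (H i).comap π, c, fun x => ?_⟩
      show R (π x) = _
      rw [hc (π x)]
      exact Finset.sum_congr rfl fun i _ => by rw [CMB.indFun_infl π hπ]
    obtain ⟨φ, Θ₀, hφ, hreg⟩ := StarkB.exists_isPhiTheta (K := K) (L := L)
      (S : Set (HeightOneSpectrum (𝓞 K))) S.finite_toSet Θ hΘ
    obtain ⟨r, α, c, y, hα, hy, hval⟩ := QL2x.val hD K L S φ Θ₀ hφ (T.comap π)
      (ψ.comp (π.subgroupComap T)) g n m s hn hL hTT hm hord e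
      (Module.finrank ℚ (charField χ)) (fun x => R (π x)) (trChar (fun g => χ (π g))) hPR
      (fun x => by
        rw [VFINx.trChar_comp π hπ]
        show trChar χ (π x) = _
        have h1 := htr (π x)
        unfold hTr
        rw [← hnm]
        have h2 : ∑ t ∈ (Finset.range (orderOf ψ)).filter (fun t => (orderOf ψ).Coprime t),
            indFun T (extZ (ψ ^ t)) (π x) = ∑ j ∈ Ex (orderOf ψ),
              indFun (T.comap π) (extZ ((ψ.comp (π.subgroupComap T)) ^ j)) x :=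
          Finset.sum_congr rfl fun t _ => ext_comp π hπ T ψ t x
        rw [h2] at h1
        linear_combination (1 / 2 : ℂ) * h1)
    have hEF : E ≤ EF2 n s := le_EF2 n s hs2 E hEn hEreal
    have hfin : FiniteDimensional ℚ (EF2 n s) := fin_of (o := 2 ^ n) (by positivity) _
      (fun x hx => hx.1)
    have hfinE : FiniteDimensional ℚ E := fin_of (o := 2 ^ n) (by positivity) _ hEn
    choose β hβ0 hβ using fun i => norm_down E (EF2 n s) hEF hfin (α i) (hα i)
    obtain ⟨d, hd⟩ := finrank_dvd E (charField χ) hE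
    obtain ⟨F, hF, hV⟩ := hval
    refine NASx.normIn_of_PE S Θ φ Θ₀ hφ hreg _ E
      ⟨F, (∏ i, β i ^ c i) * (algebraMap ℚ E y) ^ d, hF, ?_, ?_⟩
    · exact mul_ne_zero (Finset.prod_ne_zero_iff.2 fun i _ => zpow_ne_zero _ (hβ0 i))
        (pow_ne_zero _ (by
          rw [Ne, FaithfulSMul.algebraMap_eq_zero_iff]
          exact hy))
    · intro V' _ _ _ ρ' h
      rw [hV V' ρ' h]
      congr 2
      rw [map_mul, map_prod, map_pow, Algebra.norm_algebraMap, ← pow_mul, ← hd]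
      congr 1
      refine Finset.prod_congr rfl fun i _ => ?_
      rw [← hβ i, PPPx.norm_zpow (β i) (hβ0 i)]

end StarkC.ABS
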