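import Pool.Agent.ABS.FINR
import Pool.Agent.ABS.QL3

/-!
# Project ABS (MP_46b841_nt), part Q with the prime two (helper91)

All irreducible representations whose image is isomorphic to `PSL_2(k)` (`q ≥ 4`) or `PGL_2(k)`, `k` a
finite field with `q` elements: norms from the cyclic subfields of odd degree or of prime power
conductor (`ℓ = 2` with part D).
-/

set_option autoImplicit false

open NumberField IsDedekindDomain
open scoped TensorProduct Classical MatrixGroups ComplexConjugate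

namespace StarkC.ABS

open FINQx

namespace FINSx

/-- `± Ind_T ψ + R`, `ψ` of order at least three, inverted by an involution. -/
def DihC {G : Type} [Group G] [Fintype G] (χ : G → ℂ) : Prop :=
  ∃ (T : Subgroup G) (w : G) (ψ : T →* ℂˣ) (e : ℤ) (R : G → ℂ), Dih T w ∧ 3 ≤ orderOf ψ ∧
    (e = 1 ∨ e = -1) ∧ PermC R ∧ ∀ g, χ g = (e : ℂ) * indFun T (extZ ψ) g + R g

theorem dih_T {G V : Type} [Group G] [Fintype G] {q d : ℕ} [AddCommGroup V] [Module ℂ V]
    [Module.Finite ℂ V] (ρ : Representation ℂ G V) (b : TB G q d)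
    (h : ∃ ψ : b.T →* ℂˣ, ψ ^ 2 ≠ 1 ∧ ∀ g, ρ.character g = b.pr ψ g) : DihC ρ.character := by
  obtain ⟨ψ, hψ, hχ⟩ := h
  refine ⟨b.T, b.w, ψ, 1, fun g => -b.tau g, (QDH_thm G q d b).1, QFAx.three_le ψ hψ,
    Or.inl rfl, QFAx.perm_neg_tau b, fun g => ?_⟩
  rw [hχ g]
  simp only [TB.pr]
  push_cast
  ring

theorem dih_N {G V : Type} [Group G] [Fintype G] {q d : ℕ} [AddCommGroup V] [Module ℂ V]
    [Module.Finite ℂ V] (ρ : Representation ℂ G V) (b : TB G q d)
    (h : ∃ φ : b.N →* ℂˣ, φ ^ 2 ≠ 1 ∧ ∀ g, ρ.character g = b.ds φ g) : DihC ρ.character := by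
  obtain ⟨φ, hφ, hχ⟩ := h
  refine ⟨b.N, b.v, φ, -1, b.tau, (QDH_thm G q d b).2.1, QFAx.three_le φ hφ,
    Or.inr rfl, QFAx.perm_tau b, fun g => ?_⟩
  rw [hχ g]
  simp only [TB.ds]
  push_cast
  ring

theorem cls (G V : Type) [Group G] [Fintype G] (q : ℕ) [AddCommGroup V] [Module ℂ V]
    [Module.Finite ℂ V] (ρ : Representation ℂ G V) (hρ : ρ.IsIrreducible) :
    ((∃ b : TB G q 1, Even q ∨ ∃ P : Subgroup G, TS b P) →
      DihC ρ.character ∨ PermC ρ.character) ∧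
    (Nonempty (TB G q 2) → commutator G = ⊤ →
      DihC ρ.character ∨ PermC ρ.character ∨
      (q % 4 = 3 ∧ 2 * Module.finrank ℂ V + 1 = q ∨
        q % 4 = 1 ∧ 2 * Module.finrank ℂ V = q + 1)) := by
  refine ⟨?_, ?_⟩
  · rintro ⟨b, hb⟩
    obtain ⟨a₀, s, n, m, hM⟩ :=
      QCA_thm QDH_thm QBB_thm QDU_thm (QIN_thm PFR_thm) G V q 1 b ρ
    rcases QC1R_thm qbase QEQ_thm G V q 1 b ρ a₀ s n m hM hρ with h | h | h | ⟨h1, h2⟩
    · exact Or.inl (dih_T ρ b h)
    · exact Or.inl (dih_N ρ b h)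
    · exact Or.inr h.1
    · exact Or.inr (QC3_thm qbase QEQ_thm QDU_thm QDH_thm QBB_thm G V q b ρ a₀ s n m hM hρ hb
        h1 h2)
  · rintro ⟨b⟩ hperf
    obtain ⟨a₀, s, n, m, hM⟩ :=
      QCA_thm QDH_thm QBB_thm QDU_thm (QIN_thm PFR_thm) G V q 2 b ρ
    rcases QC1R_thm qbase QEQ_thm G V q 2 b ρ a₀ s n m hM hρ with h | h | h | ⟨h1, h2⟩
    · exact Or.inl (dih_T ρ b h)
    · exact Or.inl (dih_N ρ b h)
    · exact Or.inr (Or.inl h.1)
    · exact Or.inr (Or.inr (QC2_thm qbase QDU_thm G V q b ρ a₀ s n m hM hρ hperf h1 h2))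

theorem group (k G V : Type) [Field k] [Fintype k] [Group G] [Fintype G] [AddCommGroup V]
    [Module ℂ V] [Module.Finite ℂ V] (ρ : Representation ℂ G V) (hρ : ρ.IsIrreducible)
    (hG : (4 ≤ Fintype.card k ∧ Nonempty (G ≃* PSL(2, k))) ∨ Nonempty (G ≃* PGL(2, k))) :
    DihC ρ.character ∨ PermC ρ.character ∨ OutH ρ.character := by
  rcases hG with ⟨h4, hG⟩ | hG
  · obtain ⟨hperf, hodd, heven⟩ :=
      QPS_thm QMJ_thm QMN_thm QMC_thm QMA_thm QSB_thm QTP_thm k G h4 hG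
    rcases Nat.even_or_odd (Fintype.card k) with he | ho
    · obtain ⟨b⟩ := heven he
      rcases (cls G V (Fintype.card k) ρ hρ).1 ⟨b, Or.inl he⟩ with h | h
      · exact Or.inl h
      · exact Or.inr (Or.inl h)
    · rcases (cls G V (Fintype.card k) ρ hρ).2 (hodd ho) hperf with h | h | h
      · exact Or.inl h
      · exact Or.inr (Or.inl h)
      · have h5 : 5 ≤ Fintype.card k := by
          rcases ho with ⟨c, hc⟩
          omega
        by_cases hsq : IsSquare (Fintype.card k)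
        · exact Or.inr (Or.inl (half_sq k G V ρ h5 hsq hG hρ h))
        · obtain ⟨h1, h2, h3, -⟩ := FINPx.psl k G V ρ h5 hsq hG hρ h
          refine Or.inr (Or.inr ⟨ringChar k, CharP.char_is_prime k (ringChar k), ?_, h1, h2, h3⟩)
          intro h6
          have h7 : Fintype.card k % 2 = 0 := FiniteField.even_card_iff_char_two.1 h6
          rw [← Nat.even_iff] at h7
          exact (Nat.not_even_iff_odd.2 ho) h7
  · obtain ⟨b, hb⟩ := QPG_thm QMJ_thm QMN_thm QMC_thm QMA_thm QTP_thm k G hG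
    rcases (cls G V (Fintype.card k) ρ hρ).1 ⟨b, hb⟩ with h | h
    · exact Or.inl h
    · exact Or.inr (Or.inl h)

end FINSx

open FINSx in
/-- Theorem (Q), with part D: all irreducible representations with image `PSL_2(k)` (`|k| ≥ 4`) or
`PGL_2(k)`. -/
theorem finalPGL2 (hD : ConclD) (K L : Type) [Field K] [NumberField K] [Field L] [NumberField L]
    [Algebra K L] [IsGalois K L] (S : Finset (HeightOneSpectrum (𝓞 K)))
    (Θ : ((L → ℝ) →₀ ℂ) →ₗ[ℂ] ((L → ℝ) →₀ ℂ))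
    (hΘ : StarkP.IsTheta K (StarkP.aboveSet K L S) Θ)
    (V : Type) [AddCommGroup V] [Module ℂ V] [Module.Finite ℂ V]
    (ρ : Representation ℂ (L ≃ₐ[K] L) V) (k : Type) [Field k] [Fintype k]
    (hρ : ρ.IsIrreducible)
    (hG : (4 ≤ Fintype.card k ∧
        Nonempty ((L ≃ₐ[K] L) ⧸ MonoidHom.ker ρ ≃* PSL(2, k))) ∨
      Nonempty ((L ≃ₐ[K] L) ⧸ MonoidHom.ker ρ ≃* PGL(2, k)))
    (E : IntermediateField ℚ ℂ) (hE : E ≤ StarkP.charField ρ.character)
    (hcyc : IsCyclic (E ≃ₐ[ℚ] E))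
    (hd : Odd (Module.finrank ℚ E) ∨ ∃ ℓ j : ℕ, ℓ.Prime ∧ E ≤ StarkP.rootField (ℓ ^ j)) :
    StarkP.NormIn E ρ.character (S : Set (HeightOneSpectrum (𝓞 K))) Θ := by
  have hQ := (finalPGL K L S Θ hΘ V ρ k hρ hG).1
  rcases hd with hd | ⟨ℓ, j, hℓ, hEj⟩
  · exact hQ E hE hcyc (Or.inl hd)
  by_cases h2 : ℓ = 2
  swap
  · exact hQ E hE hcyc (Or.inr ⟨ℓ, j, hℓ, h2, hEj⟩)
  subst h2
  let π : (L ≃ₐ[K] L) →* ((L ≃ₐ[K] L) ⧸ MonoidHom.ker ρ) := QuotientGroup.mk' (MonoidHom.ker ρ)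
  let _ : Fintype ((L ≃ₐ[K] L) ⧸ MonoidHom.ker ρ) := Fintype.ofFinite _
  have hπ : Function.Surjective π := QuotientGroup.mk'_surjective _
  let ρ' : Representation ℂ ((L ≃ₐ[K] L) ⧸ MonoidHom.ker ρ) V :=
    QuotientGroup.lift (MonoidHom.ker ρ) ρ (fun _ hg => hg)
  have hρ' : ∀ g, ρ' (π g) = ρ g := fun g => rfl
  have hchar : (fun g => ρ'.character (π g)) = ρ.character := rfl
  have hcF : StarkP.charField ρ.character = StarkP.charField ρ'.character := by
    rw [← hchar]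
    exact VFINx.charField_comp π hπ _
  rcases FINSx.group k _ V ρ' (FINPx.irr_of π hπ ρ ρ' hρ' hρ) hG with h | h | h
  · obtain ⟨T, w, ψ, e, R, hDih, h3, he, hR, hχ⟩ := h
    rw [← hchar]
    refine two_norm hD K L S Θ hΘ _ π hπ T w ψ e R ρ'.character hDih h3 he hR hχ ?_ E
      (by rw [hchar]; exact hE) j hEj
    rw [hchar]
    refine hQ ⊥ bot_le ?_ (Or.inl ?_)
    · exact NASx.cyc_of (n := 1) one_pos ⊥ bot_le (Or.inl IntermediateField.finrank_bot)
    · rw [IntermediateField.finrank_bot]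
      exact odd_one
  · have hP : PermC ρ.character := by
      rw [← hchar]
      exact permC_infl π hπ _ h
    exact perm_norm S Θ hΘ _ hP E hE hcyc
  · obtain ⟨p, hp, hp2, hM, hP, hF⟩ := h
    have hM' : MonC p ρ.character := by
      rw [← hchar]
      exact VBRx.monC_infl π hπ _ _ hM
    have hF' : Module.finrank ℚ (StarkP.charField ρ.character) = 2 := by
      rw [hcF]
      exact hF
    have htr : PermC (StarkP.trChar ρ.character) := by
      rw [← hchar, VFINx.trChar_comp π hπ]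
      exact permC_infl π hπ _ hP
    exact half_norm S Θ hΘ _ p hp hp2 hM' htr hF' E hE hcyc

end StarkC.ABS
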