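import Pool.Agent.ABS.FINS
import Pool.Agent.ABS.SYMH

/-!
# Project ABS (MP_46b841_nt), part Q: fields of prime power conductor (helper91)
-/

set_option autoImplicit false

open NumberField IsDedekindDomain
open scoped TensorProduct Classical MatrixGroups ComplexConjugate

namespace StarkC.ABS

open FINQx

namespace FINSNx

/-- The subfields of `ℚ(ζ_(ℓ^j))`, `ℓ` odd. -/
theorem cyc (ℓ j : ℕ) (hℓ : ℓ.Prime) (h2 : ℓ ≠ 2) (F : IntermediateField ℚ ℂ)
    (hF : F ≤ StarkP.rootField (ℓ ^ j)) : IsCyclic (F ≃ₐ[ℚ] F) := by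
  have hn : 0 < ℓ ^ j := pow_pos hℓ.pos j
  have hG : IsGalois ℚ F := galois_of_le _ hn F hF
  have : NeZero (ℓ ^ j) := ⟨hn.ne'⟩
  have h1 : IsCyclotomicExtension {ℓ ^ j} ℚ (StarkP.rootField (ℓ ^ j)) := rootField_cyc _
  have h3 : IsGalois ℚ (StarkP.rootField (ℓ ^ j)) := IsCyclotomicExtension.isGalois {ℓ ^ j} ℚ _
  have h4 : IsCyclic (ZMod (ℓ ^ j))ˣ := ZMod.isCyclic_units_of_prime_pow ℓ hℓ h2 j
  let e := IsCyclotomicExtension.autEquivPow (StarkP.rootField (ℓ ^ j))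
    (Polynomial.cyclotomic.irreducible_rat hn)
  have h5 : IsCyclic (StarkP.rootField (ℓ ^ j) ≃ₐ[ℚ] StarkP.rootField (ℓ ^ j)) :=
    isCyclic_of_surjective e.symm e.symm.surjective
  let : Algebra F (StarkP.rootField (ℓ ^ j)) :=
    (IntermediateField.inclusion hF).toRingHom.toAlgebra
  have : IsScalarTower ℚ F (StarkP.rootField (ℓ ^ j)) :=
    IsScalarTower.of_algebraMap_eq fun x => ((IntermediateField.inclusion hF).commutes x).symm
  exact isCyclic_of_surjective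
    (AlgEquiv.restrictNormalHom F :
      (StarkP.rootField (ℓ ^ j) ≃ₐ[ℚ] StarkP.rootField (ℓ ^ j)) →* (F ≃ₐ[ℚ] F))
    (AlgEquiv.restrictNormalHom_surjective _)

end FINSNx

/-- All irreducible representations with image `PSL_2(k)` (`|k| ≥ 4`) or `PGL_2(k)`: norms from all
subfields `E` of `ℚ(χ)` of prime power conductor. -/
theorem proj_norm (hD : ConclD) (K L : Type) [Field K] [NumberField K] [Field L] [NumberField L]
    [Algebra K L] [IsGalois K L] (S : Finset (HeightOneSpectrum (𝓞 K)))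
    (Θ : ((L → ℝ) →₀ ℂ) →ₗ[ℂ] ((L → ℝ) →₀ ℂ))
    (hΘ : StarkP.IsTheta K (StarkP.aboveSet K L S) Θ)
    (V : Type) [AddCommGroup V] [Module ℂ V] [Module.Finite ℂ V]
    (ρ : Representation ℂ (L ≃ₐ[K] L) V) (k : Type) [Field k] [Fintype k]
    (hρ : ρ.IsIrreducible)
    (hG : (4 ≤ Fintype.card k ∧
        Nonempty ((L ≃ₐ[K] L) ⧸ MonoidHom.ker ρ ≃* PSL(2, k))) ∨
      Nonempty ((L ≃ₐ[K] L) ⧸ MonoidHom.ker ρ ≃* PGL(2, k)))
    (E : IntermediateField ℚ ℂ) (hE : E ≤ StarkP.charField ρ.character) (ℓ j : ℕ)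
    (hℓ : ℓ.Prime) (hEj : E ≤ StarkP.rootField (ℓ ^ j)) :
    StarkP.NormIn E ρ.character (S : Set (HeightOneSpectrum (𝓞 K))) Θ := by
  have hQ := (finalPGL K L S Θ hΘ V ρ k hρ hG).1
  by_cases h2 : ℓ = 2
  swap
  · exact hQ E hE (FINSNx.cyc ℓ j hℓ h2 E hEj) (Or.inr ⟨ℓ, j, hℓ, h2, hEj⟩)
  subst h2
  let π : (L ≃ₐ[K] L) →* ((L ≃ₐ[K] L) ⧸ MonoidHom.ker ρ) := QuotientGroup.mk' (MonoidHom.ker ρ)
  let _ : Fintype ((L ≃ₐ[K] L) ⧸ MonoidHom.ker ρ) := Fintype.ofFinite _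
  have hπ : Function.Surjective π := QuotientGroup.mk'_surjective _
  let ρ' : Representation ℂ ((L ≃ₐ[K] L) ⧸ MonoidHom.ker ρ) V :=
    QuotientGroup.lift (MonoidHom.ker ρ) ρ (fun _ hg => hg)
  have hρ' : ∀ g, ρ' (π g) = ρ g := fun g => rfl
  have hchar : (fun g => ρ'.character (π g)) = ρ.character := rfl
  have hcF : StarkP.charField ρ.character = StarkP.charField ρ'.character := by
    rw [← hchar]
    exact VFINx.charField_comp π hπ _
  have hn2 : 0 < 2 ^ j := by positivity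
  rcases FINSx.group k _ V ρ' (FINPx.irr_of π hπ ρ ρ' hρ' hρ) hG with h | h | h
  · obtain ⟨T, w, ψ, e, R, hDih, h3, he, hR, hχ⟩ := h
    rw [← hchar]
    refine two_norm hD K L S Θ hΘ _ π hπ T w ψ e R ρ'.character hDih h3 he hR hχ ?_ E
      (by rw [hchar]; exact hE) j hEj
    rw [hchar]
    refine hQ ⊥ bot_le ?_ (Or.inl ?_)
    · exact NASx.cyc_of (n := 1) one_pos ⊥ bot_le (Or.inl IntermediateField.finrank_bot)
    · rw [IntermediateField.finrank_bot]
      exact odd_one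
  · have hP : PermC ρ.character := by
      rw [← hchar]
      exact permC_infl π hπ _ h
    refine perm_norm S Θ hΘ _ hP E hE (NASx.cyc_of hn2 E hEj (Or.inl ?_))
    have h5 : E = ⊥ := le_antisymm ((perm_field _ hP).1 ▸ hE) bot_le
    rw [h5]
    exact IntermediateField.finrank_bot
  · obtain ⟨p, hp, hp2, hM, hP, hF⟩ := h
    have hM' : MonC p ρ.character := by
      rw [← hchar]
      exact VBRx.monC_infl π hπ _ _ hM
    have hF' : Module.finrank ℚ (StarkP.charField ρ.character) = 2 := by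
      rw [hcF]
      exact hF
    have htr : PermC (StarkP.trChar ρ.character) := by
      rw [← hchar, VFINx.trChar_comp π hπ]
      exact permC_infl π hπ _ hP
    refine half_norm S Θ hΘ _ p hp hp2 hM' htr hF' E hE (NASx.cyc_of hn2 E hEj ?_)
    have h6 := QL3x.finrank_dvd E _ hE
    rw [hF'] at h6
    exact (Nat.dvd_prime Nat.prime_two).1 h6

end StarkC.ABS
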