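import Pool.Agent.ABS.FINV
import Pool.Agent.StarkT.MULR

/-!
# Project ABS: degrees prime to `D`, given that `A_S(Tr χ, φ)` is rational (Tate's theorem)

`NormIn ⊥ χ` says: the `L`-series of `Tr χ` continues and `A_S(Tr χ, φ) ∈ ℚ^*`.
-/

set_option autoImplicit false

open NumberField IsDedekindDomain
open scoped TensorProduct Classical

namespace StarkC.ABS

namespace FINTx

/-- The exponents `m` with `a^m ∈ N(E^*)` form an ideal. -/
theorem norm_root (E : IntermediateField ℚ ℂ) (a : ℚ) (ha : a ≠ 0) (D : ℕ)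
    (hD : D.Coprime (Module.finrank ℚ E)) (β : E) (hβ : β ≠ 0)
    (h : a ^ D = Algebra.norm ℚ β) : ∃ γ : E, γ ≠ 0 ∧ Algebra.norm ℚ γ = a := by
  have h1 : (1 : ℤ) = D * Nat.gcdA D (Module.finrank ℚ E) +
      (Module.finrank ℚ E) * Nat.gcdB D (Module.finrank ℚ E) := by
    have := Nat.gcd_eq_gcd_ab D (Module.finrank ℚ E)
    rw [Nat.Coprime.gcd_eq_one hD] at this
    exact_mod_cast this
  set u := Nat.gcdA D (Module.finrank ℚ E)
  set v := Nat.gcdB D (Module.finrank ℚ E)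
  have ha' : (algebraMap ℚ E a) ≠ 0 := by
    rw [Ne, map_eq_zero_iff _ (algebraMap ℚ E).injective]
    exact ha
  let N : Eˣ →* ℚˣ := Units.map (Algebra.norm ℚ : E →* ℚ)
  let b : Eˣ := Units.mk0 β hβ
  let c : Eˣ := Units.mk0 _ ha'
  let q : ℚˣ := Units.mk0 a ha
  have hb : N b = q ^ (D : ℤ) := by
    apply Units.ext
    rw [zpow_natCast, Units.val_pow_eq_pow_val]
    exact h.symm
  have hc : N c = q ^ ((Module.finrank ℚ E : ℕ) : ℤ) := by
    apply Units.ext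
    rw [zpow_natCast, Units.val_pow_eq_pow_val]
    exact Algebra.norm_algebraMap a
  refine ⟨((b ^ u * c ^ v : Eˣ) : E), Units.ne_zero _, ?_⟩
  have h2 : N (b ^ u * c ^ v) = q := by
    rw [map_mul, map_zpow, map_zpow, hb, hc, ← zpow_mul, ← zpow_mul, ← zpow_add, ← h1, zpow_one]
  exact congrArg (fun x : ℚˣ => (x : ℚ)) h2

/-- The norm of `⊥`. -/
theorem norm_bot (α : (⊥ : IntermediateField ℚ ℂ)) :
    algebraMap ℚ (⊥ : IntermediateField ℚ ℂ) (Algebra.norm ℚ α) = α := by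
  obtain ⟨a, ha⟩ := IntermediateField.mem_bot.1 α.2
  have h1 : α = algebraMap ℚ (⊥ : IntermediateField ℚ ℂ) a := Subtype.ext ha.symm
  rw [h1, Algebra.norm_algebraMap, IntermediateField.finrank_bot, pow_one]

end FINTx

open FINTx

section

variable {K L : Type} [Field K] [NumberField K] [Field L] [NumberField L] [Algebra K L]
  [IsGalois K L] (S : Finset (HeightOneSpectrum (𝓞 K)))
  (Θ : ((L → ℝ) →₀ ℂ) →ₗ[ℂ] ((L → ℝ) →₀ ℂ))

/-- If `A_S(D Tr χ, φ)` is a norm from `E`, `D` is prime to `[E : ℚ]` and `A_S(Tr χ, φ)` is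
rational, then `A_S(Tr χ, φ)` is a norm from `E`. -/
theorem normIn_of_mul (hΘ : StarkP.IsTheta K (StarkP.aboveSet K L S) Θ)
    (χ : (L ≃ₐ[K] L) → ℂ) (E : IntermediateField ℚ ℂ) (D : ℕ) (hD0 : 0 < D)
    (hD : D.Coprime (Module.finrank ℚ E))
    (h1 : StarkP.NormIn E (fun g => (D : ℂ) * χ g) (S : Set (HeightOneSpectrum (𝓞 K))) Θ)
    (hT : StarkP.NormIn ⊥ χ (S : Set (HeightOneSpectrum (𝓞 K))) Θ) :
    StarkP.NormIn E χ (S : Set (HeightOneSpectrum (𝓞 K))) Θ := by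
  obtain ⟨F, β, hF, hβ, hFβ⟩ := h1
  obtain ⟨f, α, hf, hα, hfα⟩ := hT
  obtain ⟨φ, Θ₀, hφ, hreg⟩ := StarkB.exists_isPhiTheta (K := K) (L := L)
    (S : Set (HeightOneSpectrum (𝓞 K))) S.finite_toSet Θ hΘ
  rw [VFINx.trChar_mul D hD0] at hF hFβ
  have ha : (Algebra.norm ℚ α : ℚ) ≠ 0 := by
    intro h0
    apply hα
    rw [← norm_bot α, h0, map_zero]
  by_cases hex : ∃ (V : Type) (_ : AddCommGroup V) (_ : Module ℂ V) (_ : Module.Finite ℂ V)
      (ρ : Representation ℂ (L ≃ₐ[K] L) V), ρ.character = StarkP.trChar χ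
  · obtain ⟨V, _, _, _, ρ, hρ⟩ := hex
    have h2 := hfα V ρ hρ
    have h3 : (StarkP.mulRep D ρ).character = fun g => (D : ℂ) * StarkP.trChar χ g := by
      funext g
      rw [MULR.mulRep_character, hρ]
    have h4 := hFβ (Fin D → V) (StarkP.mulRep D ρ) h3
    have h7 : StarkP.Reg (StarkP.aboveSet K L S) (StarkP.mulRep D ρ) Θ =
        StarkP.Reg (StarkP.aboveSet K L S) ρ Θ ^ D := by
      have h8 := MULR.reg_mulRep K L S φ Θ₀ V ρ D hφ
      rw [← hreg, ← hreg] at h8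
      exact h8
    rw [h7] at h4
    have h5 : meromorphicTrailingCoeffAt F 0 = meromorphicTrailingCoeffAt f 0 ^ D := by
      rw [← (hf.1 0).meromorphicTrailingCoeffAt_pow]
      refine LASTx.trail_unique hF.1 (fun z => (hf.1 z).pow D) fun s hs => ?_
      rw [hF.2 s hs, Pi.pow_apply, hf.2 s hs, ← Complex.exp_nat_mul]
      congr 1
      exact (INDT.logL_mul LA_thm ALLT.lb (S : Set (HeightOneSpectrum (𝓞 K))) s hs (D : ℂ) (StarkP.trChar χ))
    rw [h5, ← div_pow, h2] at h4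
    have h6 : (Algebra.norm ℚ α : ℚ) ^ D = Algebra.norm ℚ β := by exact_mod_cast h4
    obtain ⟨γ, hγ, hγn⟩ := norm_root E _ ha D hD β hβ h6
    refine ⟨f, γ, hf, hγ, fun V' _ _ _ ρ' hρ' => ?_⟩
    rw [hfα V' ρ' hρ', hγn]
  · refine ⟨f, 1, hf, one_ne_zero, fun V' i1 i2 i3 ρ' hρ' => ?_⟩
    exact absurd ⟨V', i1, i2, i3, ρ', hρ'⟩ hex

end

end StarkC.ABS
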