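import Pool.Agent.ABS.StG

/-!
# Project ABS (MP_46b841_nt), part V: Artin's theorem for traces

`G` a finite group, `χ` a character of `G`, `F = ℚ(χ)`, `E ⊆ F` cyclic over `ℚ`.  THEOREM V (VAR):
`|G| Tr χ = ∑ c_i Ind_(H_i) Tr ψ_i` (`Tr ψ_i` = the sum of the `φ(o)` conjugates of `ψ_i`, `o` the order
of `ψ_i`), where `[E : E ∩ ℚ(ψ_i)]` divides `c_i`.  So by theorem (P) (`ABS/StU.lean`, helper63)
`A_S(Tr χ, φ)^|G|` is a norm from `E`, for EVERY character `χ` of every Galois group `G`.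

PROOF.  Artin: `|G| θ = ∑_(C cyclic) Ind_C f_C`, `f_C(x) = |C| θ(x)` if `x` generates `C`, and zero
otherwise (VAG); Fourier analysis on `C` (VFO): `f_C = ∑_ψ b(ψ) ψ`, `b(ψ) = ∑_(x gen. C) θ(x) ψ(x)⁻¹`.  For
`θ = Tr χ`: `b(ψ) = ∑_(τ ∈ Gal(F/ℚ)) c_τ`, `c_τ = ∑_(x gen. C) τ(χ(x)) ψ(x)⁻¹`, an integer (VIN).  So `b`
takes the same value at the conjugates of `ψ` and for `g ∈ Aut(ℂ/ℚ(ψ))`: `c_(g τ) = g(c_τ) = c_τ` (VCF);
the group of the `g` restricted to `F` acts freely on `Gal(F/ℚ)`, so its order `[F : F ∩ ℚ(ψ)]` divides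
`b`, and `[E : E ∩ ℚ(ψ)]` divides `[F : F ∩ ℚ(ψ)]` (VDV).

Module `X` proves `theorem StarkC.ABS.X_thm : Stmt_X` in the file `Pool/Agent/ABS/X.lean` (import
`Pool.Agent.ABS.StV`); helper lemmas in `namespace StarkC.ABS.Xx`.
-/

set_option autoImplicit false

open scoped Classical

namespace StarkC.ABS

/-- `θ = ∑ c_i Ind_(H_i) Tr ψ_i`, where `[E : E ∩ ℚ(ψ_i)]` divides `c_i`. -/
def TrC {G : Type} [Group G] [Fintype G] (E : IntermediateField ℚ ℂ) (θ : G → ℂ) : Prop :=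
  ∃ (r : ℕ) (H : Fin r → Subgroup G) (ψ : ∀ i, H i →* ℂˣ) (c : Fin r → ℤ),
    (∀ i, (Module.finrank ℚ E : ℤ) ∣
      c i * (Module.finrank ℚ ↥(E ⊓ Cyc (orderOf (ψ i))) : ℤ)) ∧
    ∀ g, θ g = ∑ i, (c i : ℂ) * ∑ t ∈ Ex (orderOf (ψ i)), indFun (H i) (extZ (ψ i ^ t)) g

/-- VTC (about 120 lines).  Sums, multiples (append the families, `Fin.append` or `finSumFinEquiv` as
in `FAS`; multiply the `c i`); permutation characters: `ψ = 1` has order `1`, `Ex 1 = {0}`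
(`FASx.ex_one`, `FASx.indFun_one` in `ABS/FAS.lean`), and `[E : ℚ]` divides `[E : ℚ] n_i`;
inflation along a surjective `π`: the subgroups `(H i).comap π` and the characters `ψ_i ∘ π`
(`CMBN.bra_aux`, `CMB.indFun_infl`; the order of `ψ_i ∘ π` is the order of `ψ_i`, as
`(H i).comap π → H i` is surjective). -/
def Stmt_VTC : Prop :=
  (∀ (G : Type) [Group G] [Fintype G] (E : IntermediateField ℚ ℂ) (θ θ' : G → ℂ) (u v : ℤ),
    TrC E θ → TrC E θ' → TrC E (fun g => (u : ℂ) * θ g + (v : ℂ) * θ' g)) ∧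
  (∀ (G : Type) [Group G] [Fintype G] (E : IntermediateField ℚ ℂ) (θ : G → ℂ), PermC θ →
    TrC E (fun g => (Module.finrank ℚ E : ℂ) * θ g)) ∧
  (∀ (G Q : Type) [Group G] [Fintype G] [Group Q] [Fintype Q] (π : G →* Q)
    (E : IntermediateField ℚ ℂ) (θ : Q → ℂ), Function.Surjective π → TrC E θ →
    TrC E (fun g => θ (π g))) ∧
  ∀ (G Q : Type) [Group G] [Fintype G] [Group Q] [Fintype Q] (π : G →* Q) (n : ℕ) (θ : Q → ℂ),
    Function.Surjective π → MonC n θ → MonC n (fun g => θ (π g))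

/-- VBR (about 60 lines), Brauer's theorem for the group `Q = G / ker ρ`: `bra_quot`, `bra_aux` in
`Stark/CMBN.lean` (there with `2 ^ n * M` in place of `n`; `ψ_i(h)^n = ψ_i(h^n) = ψ_i(1)`, as
`q^n = 1` for all `q ∈ Q`); `BRA_thm SOL_thm` and the proof of `Stmt_MON` give `hbra`. -/
def Stmt_VBR : Prop :=
  Stmt_BRA → ∀ (G V : Type) [Group G] [Fintype G] [AddCommGroup V] [Module ℂ V] [Module.Finite ℂ V]
    (ρ : Representation ℂ G V) (n : ℕ), (∀ g, ρ g ^ n = 1) →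
    MonC n ρ.character ∧
      ∃ (Q W : Type) (_ : Group Q) (_ : Fintype Q) (_ : AddCommGroup W) (_ : Module ℂ W)
        (_ : Module.Finite ℂ W) (π : G →* Q) (ρ' : Representation ℂ Q W),
        Function.Surjective π ∧ Fintype.card Q = Nat.card (Set.range ρ) ∧
        (∀ q, ρ' q ^ n = 1) ∧ MonC n ρ'.character ∧ ∀ g, ρ.character g = ρ'.character (π g)

/-! ### Fourier analysis, Artin's formula -/

/-- VAG (about 80 lines), Artin's formula.  `indFun C (…) g = |C|⁻¹ ∑_x [⟨x⁻¹ g x⟩ = C] |C| θ(g)`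
(`θ(x⁻¹ g x) = θ(g)`; if `⟨y⟩ = C` then `y ∈ C`); for every `x` exactly one `C` occurs,
`C = ⟨x⁻¹ g x⟩`, which is cyclic. -/
def Stmt_VAG : Prop :=
  ∀ (G : Type) [Group G] [Fintype G] (θ : G → ℂ), (∀ x g, θ (x⁻¹ * g * x) = θ g) →
    ∀ g, (Fintype.card G : ℂ) * θ g =
      ∑ C ∈ (Finset.univ : Finset (Subgroup G)).filter (fun C : Subgroup G => IsCyclic C),
        indFun C (fun y => if Subgroup.zpowers y = C then (Nat.card C : ℂ) * θ y else 0) g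

/-- VFO (about 150 lines), Fourier analysis on a cyclic group of order `N`.  Generator `g₀`, `ζ` a
primitive `N`-th root of unity, `ψ d (g₀^j) = ζ^(d j)`; for `d ∣ N` its order is `N / d`.
`N f(y) = ∑_(j < N) f^(j) ψ₁(y)^j`, `f^(j) = ∑_x f(x) ψ₁(x)^(-j)`, as `∑_(j < N) z^j` is `N` or `0` for
`z^N = 1`; the `j < N` are the `d t`, `d ∣ N`, `t ∈ Ex (N / d)`, each exactly once (`d = gcd(j, N)`;
`d = N`, `t = 0` for `j = 0`), and `ψ₁^(d t) = (ψ d)^t`; the hypothesis on `f` gives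
`f^(d t) = f^(d)`. -/
def Stmt_VFO : Prop :=
  ∀ (C : Type) [Group C] [Fintype C] [IsCyclic C], ∃ ψ : ℕ → (C →* ℂˣ),
    (∀ d ∈ (Fintype.card C).divisors, orderOf (ψ d) = Fintype.card C / d) ∧
    ∀ f : C → ℂ, (∀ d ∈ (Fintype.card C).divisors, ∀ t ∈ Ex (Fintype.card C / d),
        ∑ x, f x * ((((ψ d x : ℂˣ) : ℂ)) ^ t)⁻¹ = ∑ x, f x * ((ψ d x : ℂˣ) : ℂ)⁻¹) →
      ∀ y, (Fintype.card C : ℂ) * f y = ∑ d ∈ (Fintype.card C).divisors,
        (∑ x, f x * ((ψ d x : ℂˣ) : ℂ)⁻¹) * ∑ t ∈ Ex (Fintype.card C / d), ((ψ d y : ℂˣ) : ℂ) ^ t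

/-! ### Coefficients -/

/-- VIN (about 180 lines), integrality.  By linearity `χ = Ind_H λ`, `λ^n = 1`:
`∑_(x gen. C) χ(x) ψ(x)⁻¹ = |H|⁻¹ ∑_y ∑_(x gen. C, y⁻¹ x y ∈ H) λ(y⁻¹ x y) ψ(x)⁻¹`.  For fixed `y` the condition
`y⁻¹ x y ∈ H` is the same for all generators `x` of `C` (it means `y⁻¹ C y ⊆ H`), and then the inner sum
is `∑_(x gen. C) μ(x)` with a character `μ` of `C`: an algebraic integer (a sum of roots of unity) which is
fixed by all automorphisms `σ` of `ℂ` (`σ` acts on the `|C|`-th roots of unity as `z ↦ z^t`, `t` prime to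
`|C|`, and `x ↦ x^t` permutes the generators), so a rational number (`FIXC` for `n = 1`: hypothesis
`Stmt_FIXC`, `Cyc 1 = ℚ`) and an integer (`IsIntegrallyClosed.isIntegral_iff`); it does not change if
`y` is replaced by `y h`, `h ∈ H` (`λ(h⁻¹ z h) = λ(z)` for `z ∈ H`), so `∑_y` is a multiple of `|H|`.
`σ ∘ χ`: if `σ z = z^t` on the `n`-th roots of unity then `σ(Ind_H λ) = Ind_H λ^t` (see the proof of
FCH, `ABS/FCH.lean`), and `(λ^t)^n = 1`. -/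
def Stmt_VIN : Prop :=
  Stmt_FIXC → Stmt_SIGT →
  ∀ (G : Type) [Group G] [Fintype G] (n : ℕ) (χ : G → ℂ), 0 < n → MonC n χ →
    (∀ x g, χ (x⁻¹ * g * x) = χ g) ∧ (∀ σ : ℂ ≃+* ℂ, MonC n (fun g => σ (χ g))) ∧
    ∀ (C : Subgroup G) (ψ : C →* ℂˣ), ∃ a : ℤ,
      ∑ x : C, (if Subgroup.zpowers (x : G) = C then χ x * ((ψ x : ℂˣ) : ℂ)⁻¹ else 0) = (a : ℂ)

/-- VCF (about 150 lines).  `F = ℚ(χ)`.  For `τ ∈ Gal(F/ℚ)` let `σ` be an automorphism of `ℂ` which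
extends it (`F` is finite over `ℚ`; `StarkAlg.AutF.exists_extend` in `StarkAlg/AutF.lean`, or: `τ` extends to
the normal field `Cyc n ⊇ F`, and SIGT).  `c τ` = the integer `∑_(x gen. C) σ(χ(x)) ψ(x)⁻¹` (VIN for
`σ ∘ χ`), `= ∑ τ(χ(x)) ψ(x)⁻¹`.  If `g` fixes the values of `ψ` (the `o`-th roots of unity,
`o = orderOf ψ`) then `c τ = g(c τ) = ∑ g(τ(χ(x))) ψ(x)⁻¹ = c τ'`.  The sum of the `c τ` is
`∑_(x gen. C) Tr χ(x) ψ(x)⁻¹` (`trace_eq_sum_automorphisms`).  The last part: `b` = this sum is an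
integer, so it is fixed by the `σ_t`, `t ∈ Ex o` (SIGT), and `Tr χ(x)` is rational. -/
def Stmt_VCF : Prop :=
  Stmt_SIGT → Stmt_VIN →
  ∀ (G : Type) [Group G] [Fintype G] (n : ℕ) (χ : G → ℂ), 0 < n → MonC n χ →
    StarkP.charField χ ≤ Cyc n → ∀ [FiniteDimensional ℚ (StarkP.charField χ)]
    [IsGalois ℚ (StarkP.charField χ)] (C : Subgroup G) (ψ : C →* ℂˣ),
    ∃ c : (StarkP.charField χ ≃ₐ[ℚ] StarkP.charField χ) → ℤ,
      (∀ (g : ℂ ≃+* ℂ) (τ τ' : StarkP.charField χ ≃ₐ[ℚ] StarkP.charField χ),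
        (∀ z : ℂ, z ^ orderOf ψ = 1 → g z = z) →
        (∀ x : StarkP.charField χ, ((τ' x : StarkP.charField χ) : ℂ) = g ((τ x : _) : ℂ)) →
        c τ' = c τ) ∧
      (∑ x : C, (if Subgroup.zpowers (x : G) = C then StarkP.trChar χ x * ((ψ x : ℂˣ) : ℂ)⁻¹
        else 0) = ((∑ τ, c τ : ℤ) : ℂ)) ∧
      ∀ t ∈ Ex (orderOf ψ),
        ∑ x : C, (if Subgroup.zpowers (x : G) = C then
          StarkP.trChar χ x * ((((ψ x : ℂˣ) : ℂ)) ^ t)⁻¹ else 0) = ((∑ τ, c τ : ℤ) : ℂ)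

/-! ### Fields -/

/-- VNI (about 150 lines), natural irrationalities in `ℚ(ζ_N)`: `[E : ℚ] [M : ℚ] =
[E M : ℚ] [E ∩ M : ℚ]`.  In the abelian group `Γ = Gal(ℚ(ζ_N)/ℚ)` the subgroups `A`, `B` fixing `E`, `M`:
`E M` is fixed by `A ∩ B` and `E ∩ M` by `A B`, and `|A B| |A ∩ B| = |A| |B|`.  The second part: a `g`
which fixes `E ∩ M` is `a b` on `ℚ(ζ_N)`, `a` fixing `E`, `b` fixing `M`; extend `b` to an
automorphism of `ℂ` (SIGT: it acts on the `N`-th roots of unity as `z ↦ z^t`). -/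
def Stmt_VNI : Prop :=
  Stmt_SIGT → ∀ (N : ℕ) (E M : IntermediateField ℚ ℂ), 0 < N → E ≤ Cyc N → M ≤ Cyc N →
    Module.finrank ℚ E * Module.finrank ℚ M =
      Module.finrank ℚ ↥(E ⊔ M) * Module.finrank ℚ ↥(E ⊓ M) ∧
    ∀ g : ℂ ≃+* ℂ, (∀ x ∈ E ⊓ M, g x = x) →
      ∃ g' : ℂ ≃+* ℂ, (∀ x ∈ M, g' x = x) ∧ ∀ x ∈ E, g' x = g x

/-- VDV (about 150 lines; USES VNI).  `N' = N o`: `F`, `M = Cyc o` are contained in `Cyc N'`.  `D = F ∩ M`,
`W` = the subgroup of `Gal(F/ℚ)` fixing `D`, of order `[F : D]`.  Every `w ∈ W` is the restriction of a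
`g ∈ Aut(ℂ)` which fixes `M` (VNI, second part for `F`, `M`, and an extension of `w` to `ℂ`), so
`c (w τ) = c τ` and `[F : D]` divides `∑ c τ` (sum over the cosets of `W`).  By VNI for `E`, `D`
(`E ∩ D = E ∩ M` as `E ≤ F`): `[E : ℚ] [D : ℚ] = [E D : ℚ] [E ∩ M : ℚ]`, and `[E D : D]` divides
`[F : D]` (`E D ≤ F`); so `[E : E ∩ M] = [E D : D]` divides `∑ c τ`. -/
def Stmt_VDV : Prop :=
  Stmt_SIGT → Stmt_VNI →
  ∀ (N o : ℕ) (F E : IntermediateField ℚ ℂ) [FiniteDimensional ℚ F] [IsGalois ℚ F], 0 < N →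
    0 < o → F ≤ Cyc N → E ≤ F → ∀ c : (F ≃ₐ[ℚ] F) → ℤ,
    (∀ (g : ℂ ≃+* ℂ) (τ τ' : F ≃ₐ[ℚ] F), (∀ z : ℂ, z ^ o = 1 → g z = z) →
      (∀ x : F, ((τ' x : F) : ℂ) = g ((τ x : F) : ℂ)) → c τ' = c τ) →
    (Module.finrank ℚ E : ℤ) ∣ (∑ τ, c τ) * (Module.finrank ℚ ↥(E ⊓ Cyc o) : ℤ)

/-! ### The end -/

/-- VAR (about 180 lines), THEOREM V.  `F = ℚ(χ) ≤ Cyc n` by FCH (`m = 1`).  `θ = Tr χ` is a class
function (a class function of `χ`).  VAG for `θ`; VFO for every cyclic `C` and `f(x) = θ(x)` if `x`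
generates `C` and zero otherwise, with the hypothesis by VCF (third part).  The family: the pairs
`(C, d)`, `C` a cyclic subgroup, `d ∣ |C|` (`Fintype.equivFin` of the sigma type), `H = C`,
`ψ = ψ_(C,d)`, `c = ∑ c τ` from VCF, of order `|C| / d`; `indFun C` of a combination of the
`extZ (ψ^t)`; the divisibility by VDV. -/
def Stmt_VAR : Prop :=
  Stmt_SIGT → Stmt_TRT → Stmt_FCH → Stmt_VAG → Stmt_VFO → Stmt_VIN → Stmt_VCF → Stmt_VNI →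
  Stmt_VDV → Stmt_FIXC →
  (∀ (n : ℕ) (E : IntermediateField ℚ ℂ), 0 < n → E ≤ Cyc n → IsGalois ℚ E) →
  ∀ (G : Type) [Group G] [Fintype G] (n : ℕ) (χ : G → ℂ) (E : IntermediateField ℚ ℂ), 0 < n →
    MonC n χ → E ≤ StarkP.charField χ →
    TrC E (fun g => (Fintype.card G : ℂ) * StarkP.trChar χ g)

/-- VUE (about 120 lines; USES VNI), the second multiple: `e Tr χ`, `e = [ℚ(ζ_n) : ℚ(χ)]`.  FCH with
`m = 1`: `e Tr χ = ∑_i c_i ∑_{t ∈ Ex n} Ind ψ_i^t = ∑_i c_i (φ(n) / φ(o_i)) ∑_{t ∈ Ex o_i} Ind ψ_i^t`,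
`o_i = orderOf (ψ i) ∣ n` (the fibres of `Ex n → Ex o`, `t ↦ t % o`, have `φ(n) / φ(o)` elements:
`ZMod.unitsMap_surjective`, or `Nat.totient` and a group homomorphism; `ψ^t` depends on `t` modulo
`o`).  VNI for `E`, `M = Cyc o` in `Cyc n`: `[E : ℚ] φ(o) = [E M : ℚ] [E ∩ M : ℚ]` and `[E M : ℚ]`
divides `φ(n)`; so `[E : ℚ]` divides `(φ(n) / φ(o)) [E ∩ M : ℚ]`. -/
def Stmt_VUE : Prop :=
  Stmt_SIGT → Stmt_TRT → Stmt_FCH → Stmt_VNI →
  ∀ (G : Type) [Group G] [Fintype G] (n : ℕ) (χ : G → ℂ) (E : IntermediateField ℚ ℂ), 0 < n →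
    MonC n χ → E ≤ Cyc n → ∃ e : ℕ, 0 < e ∧
      e * Module.finrank ℚ (StarkP.charField χ) = n.totient ∧
      TrC E (fun g => (e : ℂ) * StarkP.trChar χ g)

end StarkC.ABS
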