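import Pool.Agent.ABS.StU
import Pool.Agent.ABS.RESF

/-!
# Project ABS (MP_46b841_nt), part U: the theorem for all characters, from the parts
-/

set_option autoImplicit false

open NumberField IsDedekindDomain
open scoped TensorProduct Classical

namespace StarkC.ABS

open StarkP (rootField trRoot)

namespace UASx

section

variable {K L : Type} [Field K] [NumberField K] [Field L] [NumberField L] [Algebra K L]
  [IsGalois K L]

/-- from `PE` to the printed form -/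
theorem normOf_of (S : Finset (HeightOneSpectrum (𝓞 K)))
    (Θ : ((L → ℝ) →₀ ℂ) →ₗ[ℂ] ((L → ℝ) →₀ ℂ))
    (φ : XQ L (aboveSet K L S) ≃ₗ[ℚ] QU L (aboveSet K L S))
    (Θ₀ : XC L (aboveSet K L S) →ₗ[ℂ] XC L (aboveSet K L S))
    (hφ : IsPhiTheta K (aboveSet K L S) φ Θ₀)
    (hreg : ∀ (V : Type) [AddCommGroup V] [Module ℂ V] (ρ : Representation ℂ (L ≃ₐ[K] L) V),
      StarkP.Reg (aboveSet K L S) ρ Θ = Reg (aboveSet K L S) ρ Θ₀)
    (E : IntermediateField ℚ ℂ) (θ : (L ≃ₐ[K] L) → ℂ) (h : PE E θ S Θ₀) :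
    StarkP.NormOf E θ (S : Set (HeightOneSpectrum (𝓞 K))) Θ := by
  obtain ⟨F, α, hF, hα, hR⟩ := h
  refine ⟨F, α, ⟨hF.1, hF.2⟩, hα, fun V _ _ _ ρ hρ => ?_⟩
  have h1 := hR V ρ fun g => by rw [hρ]
  have h0 : meromorphicTrailingCoeffAt F 0 ≠ 0 := by
    intro h
    have h2 := StarkG.reg_ne_zero S φ Θ₀ hφ V ρ
    rw [h1, h, mul_zero] at h2
    exact h2 rfl
  rw [show StarkP.Reg (StarkP.aboveSet K L S) ρ Θ = _ from hreg V ρ, h1, mul_div_assoc,
    div_self h0, mul_one]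

end

theorem pow_eq_one {G : Type} [Group G] {n : ℕ} (hG : ∀ g : G, g ^ n = 1) (H : Subgroup G)
    (ψ : H →* ℂˣ) : ψ ^ n = 1 := by
  refine MonoidHom.ext fun g => ?_
  rw [MonoidHom.pow_apply, ← map_pow]
  have : g ^ n = 1 := Subtype.ext (by rw [Subgroup.coe_pow, hG]; rfl)
  rw [this, map_one, MonoidHom.one_apply]

end UASx

theorem UAS_thm : Stmt_UAS := by
  intro hBRA hSIGT hTRT hUTR hUEX hUDV hP K L _ _ _ _ _ _ V _ _ _ ρ n S Θ E hΘ hn hG hE hcyc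
  obtain ⟨φ, Θ₀, hφ, hreg⟩ := StarkB.exists_isPhiTheta (K := K) (L := L)
    (S : Set (HeightOneSpectrum (𝓞 K))) S.finite_toSet Θ hΘ
  refine UASx.normOf_of S Θ φ Θ₀ hφ hreg E _ ?_
  obtain ⟨r, H, ψ, c, hχ⟩ := hBRA (L ≃ₐ[K] L) V ρ
  have hψn : ∀ i, ψ i ^ n = 1 := fun i => UASx.pow_eq_one hG (H i) (ψ i)
  have hod : ∀ i, orderOf (ψ i) ∣ n := fun i => orderOf_dvd_of_pow_eq_one (hψn i)
  refine hP K L S φ Θ₀ n E r H ψ
    (fun i => c i * ((n.totient / (orderOf (ψ i)).totient : ℕ) : ℤ)) _ hφ hn hE hcyc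
    (fun i => ?_) fun g => ?_
  · have h1 := hUDV n (orderOf (ψ i)) E hn (hod i) hE
    have h2 : (Module.finrank ℚ E : ℤ) ∣ (((n.totient / (orderOf (ψ i)).totient) *
        Module.finrank ℚ (E ⊓ rootField (orderOf (ψ i)) : IntermediateField ℚ ℂ) : ℕ) : ℤ) :=
      Int.natCast_dvd_natCast.2 h1
    rw [Nat.cast_mul] at h2
    rw [mul_assoc]
    exact h2.mul_left _
  · rw [(hUTR hSIGT hTRT (L ≃ₐ[K] L) n r ρ.character H ψ c hn hψn hχ g).2]
    refine Finset.sum_congr rfl fun i _ => ?_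
    rw [hUEX n (orderOf (ψ i)) (fun t => indFun (H i) (extZ (ψ i ^ t)) g) hn (hod i)
      fun t => by rw [pow_mod_orderOf]]
    rw [Int.cast_mul, Int.cast_natCast, mul_assoc]

end StarkC.ABS
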