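import Pool.Agent.ABS.StU

/-!
# Project ABS, part U: degrees of subfields of a cyclotomic field (helper52)
-/

set_option autoImplicit false

open NumberField IsDedekindDomain
open scoped TensorProduct Classical

namespace StarkC.ABS

open StarkP (rootField)

namespace UDVx

/-- the group-theoretic core, for intermediate fields of an abelian extension -/
theorem core {k M : Type} [Field k] [Field M] [Algebra k M] [FiniteDimensional k M] [IsGalois k M]
    (hc : ∀ a b : M ≃ₐ[k] M, a * b = b * a) (E F : IntermediateField k M) :
    Module.finrank k E ∣ Module.finrank k M / Module.finrank k F *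
      Module.finrank k (E ⊓ F : IntermediateField k M) := by
  have h1 : (E ⊓ F : IntermediateField k M).fixingSubgroup =
      E.fixingSubgroup ⊔ F.fixingSubgroup :=
    congrArg OrderDual.ofDual (IsGalois.intermediateFieldEquivSubgroup.map_inf E F)
  have hn : E.fixingSubgroup.Normal :=
    ⟨fun a ha g => by rw [hc g a, mul_inv_cancel_right]; exact ha⟩
  have h2 : Module.finrank k M / Module.finrank k F = Nat.card F.fixingSubgroup := by
    rw [IsGalois.card_fixingSubgroup_eq_finrank, ← Module.finrank_mul_finrank k F M,
      Nat.mul_div_cancel_left _ Module.finrank_pos]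
  rw [h2, IntermediateField.finrank_eq_fixingSubgroup_index M E,
    IntermediateField.finrank_eq_fixingSubgroup_index M (E ⊓ F), h1,
    ← Subgroup.relIndex_mul_index
      (le_sup_left : E.fixingSubgroup ≤ E.fixingSubgroup ⊔ F.fixingSubgroup),
    Subgroup.relIndex_sup_left]
  exact mul_dvd_mul (Subgroup.relIndex_dvd_card _ _) dvd_rfl

theorem isCyc (n : ℕ) (hn : n ≠ 0) : IsCyclotomicExtension {n} ℚ (rootField n) := by
  have h := IntermediateField.isCyclotomicExtension_adjoin_of_exists_isPrimitiveRoot {n} ℚ ℂ (by
    intro m hm hm0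
    exact ⟨_, Complex.isPrimitiveRoot_exp m hm0⟩)
  have e : {b : ℂ | ∃ m ∈ ({n} : Set ℕ), m ≠ 0 ∧ b ^ m = 1} = {z : ℂ | z ^ n = 1} := by
    ext z
    simp [hn]
  rw [e] at h
  exact h

theorem deg (n : ℕ) (hn : 0 < n) : Module.finrank ℚ (rootField n) = n.totient := by
  have : NeZero n := ⟨hn.ne'⟩
  have h1 : IsCyclotomicExtension {n} ℚ (rootField n) := isCyc _ hn.ne'
  exact IsCyclotomicExtension.finrank _ (Polynomial.cyclotomic.irreducible_rat hn)

end UDVx

/-- UDV. -/
theorem UDV_thm : Stmt_UDV := by
  intro n o E hn ho hE
  have ho0 : 0 < o := Nat.pos_of_dvd_of_pos ho hn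
  have : NeZero n := ⟨hn.ne'⟩
  have h1 : IsCyclotomicExtension {n} ℚ (rootField n) := UDVx.isCyc _ hn.ne'
  have h2 : FiniteDimensional ℚ (rootField n) := IsCyclotomicExtension.finiteDimensional {n} ℚ _
  have h3 : IsGalois ℚ (rootField n) := IsCyclotomicExtension.isGalois {n} ℚ _
  have hF : rootField o ≤ rootField n := by
    refine IntermediateField.adjoin.mono ℚ _ _ fun z hz => ?_
    obtain ⟨k, rfl⟩ := ho
    show z ^ (o * k) = 1
    rw [pow_mul, show z ^ o = 1 from hz, one_pow]
  have hEF : E ⊓ rootField o ≤ rootField n := inf_le_left.trans hE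
  have hc : ∀ a b : rootField n ≃ₐ[ℚ] rootField n, a * b = b * a := by
    intro a b
    apply (IsCyclotomicExtension.autEquivPow (rootField n)
      (Polynomial.cyclotomic.irreducible_rat hn)).injective
    rw [map_mul, map_mul, mul_comm]
  have key : Module.finrank ℚ (IntermediateField.restrict hE) ∣
      Module.finrank ℚ (rootField n) / Module.finrank ℚ (IntermediateField.restrict hF) *
        Module.finrank ℚ ↥(IntermediateField.restrict hE ⊓ IntermediateField.restrict hF) :=
    UDVx.core hc (IntermediateField.restrict hE) (IntermediateField.restrict hF)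
  have e1 : IntermediateField.restrict hE ⊓ IntermediateField.restrict hF =
      IntermediateField.restrict hEF := by
    ext x
    rw [IntermediateField.mem_inf, IntermediateField.mem_restrict, IntermediateField.mem_restrict,
      IntermediateField.mem_restrict, IntermediateField.mem_inf]
  rw [e1, ← (IntermediateField.restrictAlgEquiv hE).toLinearEquiv.finrank_eq,
    ← (IntermediateField.restrictAlgEquiv hF).toLinearEquiv.finrank_eq,
    ← (IntermediateField.restrictAlgEquiv hEF).toLinearEquiv.finrank_eq,
    UDVx.deg n hn, UDVx.deg o ho0] at key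
  exact key

end StarkC.ABS
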