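import Pool.Agent.ABS.StU
import Pool.Agent.ABS.FCH

/-!
# Project ABS, module UTR: the trace of `ℚ(ζ_n)/ℚ` of the values of a combination of induced linear
characters
-/

set_option autoImplicit false

open NumberField IsDedekindDomain
open scoped TensorProduct Classical

namespace StarkC.ABS

open StarkP (rootField trRoot)

open FCHx in
theorem UTR_thm : Stmt_UTR := by
  intro hSIGT hTRT G _ _ n r χ H ψ c hn hψ hχ g
  have hmem : χ g ∈ Cyc n := by
    rw [hχ g]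
    exact sum_mem fun i _ => mul_mem (intCast_mem _ _) (ind_mem _ _ (hψ i) g)
  have hmem' : χ g ∈ rootField n := hmem
  refine ⟨hmem', ?_⟩
  obtain ⟨σ, hσ⟩ : ∃ σ : ℕ → (ℂ ≃+* ℂ), ∀ t ∈ Ex n, ∀ z : ℂ, z ^ n = 1 → σ t z = z ^ t := by
    have h5 : ∀ t : ℕ, ∃ τ : ℂ ≃+* ℂ, t ∈ Ex n → ∀ z : ℂ, z ^ n = 1 → τ z = z ^ t := by
      intro t
      by_cases ht : t ∈ Ex n
      · obtain ⟨τ, hτ⟩ := hSIGT n t hn (Finset.mem_filter.1 ht).2
        exact ⟨τ, fun _ => hτ⟩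
      · exact ⟨RingEquiv.refl ℂ, fun h => absurd h ht⟩
    choose σ hσ using h5
    exact ⟨σ, hσ⟩
  have h0 : trRoot n χ g = ∑ t ∈ Ex n, σ t (χ g) := by
    have h1 : trRoot n χ g = ((Algebra.trace ℚ (rootField n) ⟨χ g, hmem'⟩ : ℚ) : ℂ) := by
      unfold StarkP.trRoot
      rw [dif_pos hmem']
    rw [h1]
    exact hTRT n σ hn hσ ⟨χ g, hmem⟩
  have h1 : ∀ t ∈ Ex n, σ t (χ g) =
      ∑ i, (c i : ℂ) * indFun (H i) (extZ (ψ i ^ t)) g := by
    intro t ht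
    rw [hχ g, map_sum]
    refine Finset.sum_congr rfl fun i _ => ?_
    rw [map_mul, map_intCast, conj_ind (H i) (ψ i) (hψ i) (σ t) (hσ t ht)]
  rw [h0, Finset.sum_congr rfl h1, Finset.sum_comm]
  refine Finset.sum_congr rfl fun i _ => ?_
  rw [Finset.mul_sum]

end StarkC.ABS
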