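import Pool.Agent.ABS.FINF
import Pool.Agent.ABS.FRT
import Pool.Agent.ABS.FRA
import Pool.Agent.ABS.PCX
import Pool.Agent.ABS.PV1
import Pool.Agent.ABS.PV2
import Pool.Agent.ABS.PV3
import Pool.Agent.ABS.PFN
import Pool.Agent.ABS.PCY
import Pool.Agent.ABS.UDV
import Pool.Agent.ABS.PPP
import Pool.Agent.ABS.UEX
import Pool.Agent.ABS.UTR
import Pool.Agent.ABS.UAS
import Pool.Agent.Stark.BRA
import Pool.Agent.ABS.StV

/-!
# Project ABS, part U: the theorem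
-/

set_option autoImplicit false

open NumberField IsDedekindDomain
open scoped TensorProduct Classical

namespace StarkC.ABS

namespace FINUx

open FINFx

theorem conclN : ConclN := ORDN_thm concl1 COMB_thm RAM_thm IDX_thm

theorem fra : ∀ (K L : Type) [Field K] [NumberField K] [Field L] [NumberField L] [Algebra K L]
    [IsGalois K L] (Θ : ((L → ℝ) →₀ ℂ) →ₗ[ℂ] ((L → ℝ) →₀ ℂ)),
    StarkP.IsTheta K (StarkP.aboveSet K L ∅) Θ →
    ∃ a : ℚ, a ≠ 0 ∧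
      StarkP.detOn Θ (StarkP.XC L (StarkP.aboveSet K L ∅) ⊓
        StarkP.ABS.fixP (⊤ : Subgroup (L ≃ₐ[K] L))) = (((a : ℝ) * Units.regulator K : ℝ) : ℂ) :=
  _root_.ABS.FRA_thm _root_.ABS.IOT_thm _root_.ABS.LMU_thm _root_.ABS.SPN_thm _root_.ABS.TRE_thm
    _root_.ABS.JN_thm _root_.ABS.JV_thm _root_.ABS.LG_thm _root_.ABS.LJ_thm _root_.ABS.TRF_thm
    _root_.ABS.MUL_thm _root_.ABS.DTC_thm _root_.ABS.REG1_thm

theorem conclOne : ConclOne := FRT_thm fra REGI_thm zeta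
  (PSTEP_thm FIXC_thm SIGT_thm NORMT_thm PRAT_thm)

theorem conclV : ConclV := by
  intro K L _ _ _ _ _ _ ψ S
  have hpos : 0 < orderOf ψ := orderOf_pos_iff.2 <| isOfFinOrder_iff_pow_eq_one.2
    ⟨Nat.card (L ≃ₐ[K] L), Nat.card_pos, MonoidHom.ext fun g => by
      rw [MonoidHom.pow_apply, ← map_pow, pow_card_eq_one']; simp⟩
  rcases Nat.lt_or_ge (orderOf ψ) 3 with h3 | h3
  · have h12 : orderOf ψ = 1 ∨ orderOf ψ = 2 := by omega
    rcases h12 with h1 | h2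
    · have hψ : ψ = 1 := orderOf_eq_one_iff.1 h1
      subst hψ
      rw [h1]
      exact PV1_thm conclOne K L S
    · rw [h2]
      exact PV2_thm PCX_thm (PV1_thm conclOne) K L ψ S h2
  · exact PV3_thm SYM_thm conclN K L ψ S h3

end FINUx

open FINUx

/-- Theorem (P). -/
theorem finalP (K L : Type) [Field K] [NumberField K] [Field L] [NumberField L] [Algebra K L]
    [IsGalois K L] (S : Finset (HeightOneSpectrum (𝓞 K)))
    (φ : XQ L (aboveSet K L S) ≃ₗ[ℚ] QU L (aboveSet K L S))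
    (Θ : XC L (aboveSet K L S) →ₗ[ℂ] XC L (aboveSet K L S))
    (N : ℕ) (E : IntermediateField ℚ ℂ)
    (r : ℕ) (H : Fin r → Subgroup (L ≃ₐ[K] L)) (ψ : ∀ i, H i →* ℂˣ) (c : Fin r → ℤ)
    (θ : (L ≃ₐ[K] L) → ℂ) (hφ : IsPhiTheta K (aboveSet K L S) φ Θ) (hN : 0 < N)
    (hE : E ≤ StarkP.rootField N) (hc : IsCyclic (E ≃ₐ[ℚ] E))
    (hdvd : ∀ i, (Module.finrank ℚ E : ℤ) ∣
      c i * Module.finrank ℚ (E ⊓ StarkP.rootField (orderOf (ψ i)) : IntermediateField ℚ ℂ))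
    (hθ : ∀ g, θ g = ∑ i, (c i : ℂ) *
      ∑ t ∈ Ex (orderOf (ψ i)), indFun (H i) (extZ (ψ i ^ t)) g) : PE E θ S Θ :=
  PPP_thm PCX_thm PFN_thm PCY_thm conclV K L S φ Θ N E r H ψ c θ hφ hN hE hc hdvd hθ

/-- Theorem (P), printed form (for part V). -/
theorem finalPN (K L : Type) [Field K] [NumberField K] [Field L] [NumberField L] [Algebra K L]
    [IsGalois K L] (S : Finset (HeightOneSpectrum (𝓞 K)))
    (Θ : ((L → ℝ) →₀ ℂ) →ₗ[ℂ] ((L → ℝ) →₀ ℂ))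
    (hΘ : StarkP.IsTheta K (StarkP.aboveSet K L S) Θ)
    (χ : (L ≃ₐ[K] L) → ℂ) (N : ℕ) (E : IntermediateField ℚ ℂ) (hN : 0 < N) (hE : E ≤ Cyc N)
    (hc : IsCyclic (E ≃ₐ[ℚ] E)) (h : TrC E (StarkP.trChar χ)) :
    StarkP.NormIn E χ (S : Set (HeightOneSpectrum (𝓞 K))) Θ := by
  obtain ⟨φ, Θ₀, hφ, hreg⟩ := StarkB.exists_isPhiTheta (K := K) (L := L)
    (S : Set (HeightOneSpectrum (𝓞 K))) S.finite_toSet Θ hΘ
  obtain ⟨r, H, ψ, c, hdvd, hθ⟩ := h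
  obtain ⟨F, α, hF, hα, hR⟩ := finalP K L S φ Θ₀ N E r H ψ c (StarkP.trChar χ) hφ hN hE hc hdvd hθ
  refine ⟨F, α, ⟨hF.1, hF.2⟩, hα, fun V _ _ _ ρ hρ => ?_⟩
  have h1 := hR V ρ fun g => by rw [hρ]
  have h0 : meromorphicTrailingCoeffAt F 0 ≠ 0 := by
    intro h
    have h2 := StarkG.reg_ne_zero S φ Θ₀ hφ V ρ
    rw [h1, h, mul_zero] at h2
    exact h2 rfl
  rw [show StarkP.Reg (StarkP.aboveSet K L S) ρ Θ = _ from hreg V ρ, h1, mul_div_assoc,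
    div_self h0, mul_one]

/-- Theorem (U): Stark's conjecture in norm for all characters of all finite Galois extensions. -/
theorem finalU (K L : Type) [Field K] [NumberField K] [Field L] [NumberField L] [Algebra K L]
    [IsGalois K L] (V : Type) [AddCommGroup V] [Module ℂ V] [Module.Finite ℂ V]
    (ρ : Representation ℂ (L ≃ₐ[K] L) V) (n : ℕ)
    (S : Finset (HeightOneSpectrum (𝓞 K))) (Θ : ((L → ℝ) →₀ ℂ) →ₗ[ℂ] ((L → ℝ) →₀ ℂ))
    (E : IntermediateField ℚ ℂ) (hΘ : StarkP.IsTheta K (StarkP.aboveSet K L S) Θ) (hn : 0 < n)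
    (hg : ∀ g : L ≃ₐ[K] L, g ^ n = 1) (hE : E ≤ StarkP.rootField n)
    (hc : IsCyclic (E ≃ₐ[ℚ] E)) :
    StarkP.NormOf E (StarkP.trRoot n ρ.character) (S : Set (HeightOneSpectrum (𝓞 K))) Θ :=
  UAS_thm (BRA_thm SOL_thm MON_thm) SIGT_thm TRT_thm UTR_thm UEX_thm UDV_thm
    (PPP_thm PCX_thm PFN_thm PCY_thm conclV) K L V ρ n S Θ E hΘ hn hg hE hc

end StarkC.ABS
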