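import Pool.Agent.ABS.StX

/-!
# ABS, module XBW: a vector and a linear form with nonzero sums (helper64)
-/

set_option autoImplicit false

open NumberField IsDedekindDomain
open scoped TensorProduct Classical

namespace StarkC.ABS

namespace XBWx

variable {G W M : Type} [Group G] [Fintype G] [AddCommGroup W] [Module ℚ W] [AddCommGroup M]
  [Module ℂ M] (τ : Representation ℚ G W) (μ : Representation ℂ G M)

/-- the bilinear map -/
noncomputable def B (ψ : G →* ℂˣ) : W →ₗ[ℚ] (W →ₗ[ℚ] ℚ) →ₗ[ℚ] ℂ :=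
  LinearMap.mk₂ ℚ (fun w f => ∑ g, (((ψ g)⁻¹ : ℂˣ) : ℂ) * ((f (τ g w) : ℚ) : ℂ))
    (by
      intro w w' f
      simp only [map_add, Rat.cast_add, mul_add, Finset.sum_add_distrib])
    (by
      intro q w f
      simp only [map_smul, smul_eq_mul, Rat.cast_mul]
      rw [Rat.smul_def, Finset.mul_sum]
      exact Finset.sum_congr rfl fun g _ => by ring)
    (by
      intro w f f'
      simp only [LinearMap.add_apply, Rat.cast_add, mul_add, Finset.sum_add_distrib])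
    (by
      intro q w f
      simp only [LinearMap.smul_apply, smul_eq_mul, Rat.cast_mul]
      rw [Rat.smul_def, Finset.mul_sum]
      exact Finset.sum_congr rfl fun g _ => by ring)

theorem B_apply (ψ : G →* ℂˣ) (w : W) (f : W →ₗ[ℚ] ℚ) :
    B τ ψ w f = ∑ g, (((ψ g)⁻¹ : ℂˣ) : ℂ) * ((f (τ g w) : ℚ) : ℂ) := rfl

/-- the projection, up to a factor -/
noncomputable def P (ψ : G →* ℂˣ) : M →ₗ[ℂ] M := ∑ g, (((ψ g)⁻¹ : ℂˣ) : ℂ) • μ g

theorem P_apply (ψ : G →* ℂˣ) (x : M) : P μ ψ x = ∑ g, (((ψ g)⁻¹ : ℂˣ) : ℂ) • μ g x := by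
  unfold P
  rw [LinearMap.sum_apply]
  rfl

theorem coord_j {n : ℕ} (j : W →+ M) (b : Module.Basis (Fin n) ℚ W) (c : Module.Basis (Fin n) ℂ M)
    (hb : ∀ i, j (b i) = c i) (hq : ∀ (q : ℚ) (x : W), j (q • x) = (q : ℂ) • j x) (y : W)
    (k : Fin n) : c.coord k (j y) = ((b.coord k y : ℚ) : ℂ) := by
  have h1 : j y = ∑ i, ((b.repr y i : ℚ) : ℂ) • c i := by
    conv_lhs => rw [← b.sum_repr y, map_sum]
    exact Finset.sum_congr rfl fun i _ => by rw [hq, hb]
  rw [h1, map_sum, Finset.sum_eq_single k]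
  · rw [map_smul, Module.Basis.coord_apply, Module.Basis.repr_self, Finsupp.single_eq_same,
      smul_eq_mul, mul_one, Module.Basis.coord_apply]
  · intro i _ hi
    rw [map_smul, Module.Basis.coord_apply, Module.Basis.repr_self,
      Finsupp.single_eq_of_ne (Ne.symm hi), smul_zero]
  · intro h
    exact absurd (Finset.mem_univ k) h

theorem B_ne {n : ℕ} (j : W →+ M) (b : Module.Basis (Fin n) ℚ W) (c : Module.Basis (Fin n) ℂ M)
    (hb : ∀ i, j (b i) = c i) (hq : ∀ (q : ℚ) (x : W), j (q • x) = (q : ℂ) • j x)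
    (hg : ∀ g x, j (τ g x) = μ g (j x)) (ψ : G →* ℂˣ) (x : M) (hx : x ≠ 0)
    (hψ : ∀ g, μ g x = ((ψ g : ℂˣ) : ℂ) • x) : B τ ψ ≠ 0 := by
  intro h0
  have h1 : P μ ψ = 0 := by
    refine c.ext fun i => ?_
    refine c.ext_elem fun k => ?_
    have h2 : c.coord k (P μ ψ (c i)) = 0 := by
      rw [P_apply, map_sum]
      have h3 : ∀ g, c.coord k ((((ψ g)⁻¹ : ℂˣ) : ℂ) • μ g (c i)) =
          (((ψ g)⁻¹ : ℂˣ) : ℂ) * ((b.coord k (τ g (b i)) : ℚ) : ℂ) := by
        intro g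
        rw [map_smul, smul_eq_mul, ← hb, ← hg, coord_j j b c hb hq]
      rw [Finset.sum_congr rfl fun g _ => h3 g, ← B_apply, h0]
      rfl
    rw [LinearMap.zero_apply, map_zero, Finsupp.zero_apply]
    exact h2
  have h2 : P μ ψ x = (Fintype.card G : ℂ) • x := by
    rw [P_apply]
    have h3 : ∀ g, (((ψ g)⁻¹ : ℂˣ) : ℂ) • μ g x = x := by
      intro g
      rw [hψ, smul_smul, ← Units.val_mul, inv_mul_cancel, Units.val_one, one_smul]
    rw [Finset.sum_congr rfl fun g _ => h3 g, Finset.sum_const, Finset.card_univ,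
      Nat.cast_smul_eq_nsmul]
  rw [h1, LinearMap.zero_apply] at h2
  rcases smul_eq_zero.1 h2.symm with h3 | h3
  · exact absurd (Nat.cast_eq_zero.1 h3) Fintype.card_ne_zero
  · exact hx h3

end XBWx

open XBWx in
theorem XBW_thm : Stmt_XBW := by
  intro hNZ hDU G W M _ _ _ _ _ _ τ μ j n b c hb hq hg Ψ hΨ
  have : Finite (G →* ℂˣ) := (hDU G).1
  have : Finite Ψ := inferInstance
  obtain ⟨w, f, h⟩ := hNZ Ψ W (W →ₗ[ℚ] ℚ) (fun ψ => B τ ψ.1) (fun ψ => by
    obtain ⟨x, hx, hx'⟩ := hΨ ψ.1 ψ.2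
    exact B_ne τ μ j b c hb hq hg ψ.1 x hx hx')
  exact ⟨w, f, fun ψ hψ => h ⟨ψ, hψ⟩⟩

end StarkC.ABS
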