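import Pool.Agent.ABS.StX

/-!
# ABS (MP_46b841_nt), part X: XCL, sums over the classes of generators
-/

set_option autoImplicit false

open scoped Classical

namespace StarkC.ABS

namespace XCLx

theorem zp_pow {X : Type} [Group X] [Finite X] (y : X) {t : ℕ} (h : (orderOf y).Coprime t) :
    Subgroup.zpowers (y ^ t) = Subgroup.zpowers y := by
  refine Subgroup.eq_of_le_of_card_ge ?_ ?_
  · rw [Subgroup.zpowers_le]
    exact Subgroup.pow_mem _ (Subgroup.mem_zpowers y) t
  · rw [Nat.card_zpowers, Nat.card_zpowers, h.orderOf_pow]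

theorem of_zp {X : Type} [Group X] [Finite X] {x y : X}
    (h : Subgroup.zpowers x = Subgroup.zpowers y) : ∃ t ∈ Ex (orderOf y), y ^ t = x := by
  have h1 : x ∈ Subgroup.zpowers y := by
    rw [← h]
    exact Subgroup.mem_zpowers x
  have h2 : x ∈ Submonoid.powers y := (isOfFinOrder_of_finite y).mem_powers_iff_mem_zpowers.2 h1
  rw [(isOfFinOrder_of_finite y).mem_powers_iff_mem_range_orderOf] at h2
  obtain ⟨t, ht, rfl⟩ := Finset.mem_image.1 h2
  refine ⟨t, Finset.mem_filter.2 ⟨ht, ?_⟩, rfl⟩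
  have h3 : orderOf (y ^ t) = orderOf y := by
    rw [← Nat.card_zpowers, ← Nat.card_zpowers, h]
  have h4 := orderOf_pow (n := t) y
  rw [h3] at h4
  have h5 : 0 < orderOf y := orderOf_pos y
  have h6 : (orderOf y).gcd t ∣ orderOf y := Nat.gcd_dvd_left _ _
  have h7 := Nat.div_mul_cancel h6
  rw [← h4] at h7
  exact Nat.eq_of_mul_eq_mul_left h5 (by rw [h7, mul_one])

end XCLx

open XCLx in
theorem XCL_thm : Stmt_XCL := by
  intro X _ _ r f h1 h2
  have hmaps : ∀ x ∈ (Finset.univ : Finset X), r x ∈ Finset.univ.filter (fun x => r x = x) :=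
    fun x _ => Finset.mem_filter.2 ⟨Finset.mem_univ _, h2 _ _ (h1 x)⟩
  rw [← Finset.sum_fiberwise_of_maps_to hmaps]
  refine Finset.sum_congr rfl fun y hy => ?_
  have hy' : r y = y := (Finset.mem_filter.1 hy).2
  symm
  refine Finset.sum_bij (fun t _ => y ^ t) ?_ ?_ ?_ (fun _ _ => rfl)
  · intro t ht
    refine Finset.mem_filter.2 ⟨Finset.mem_univ _, ?_⟩
    rw [h2 _ _ (zp_pow y (Finset.mem_filter.1 ht).2), hy']
  · intro t ht t' ht' h
    exact pow_injOn_Iio_orderOf (Finset.mem_range.1 (Finset.mem_filter.1 ht).1)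
      (Finset.mem_range.1 (Finset.mem_filter.1 ht').1) h
  · intro x hx
    have hx' : r x = y := (Finset.mem_filter.1 hx).2
    obtain ⟨t, ht, h⟩ := of_zp (x := x) (y := y) (by rw [← h1 x, hx'])
    exact ⟨t, ht, h⟩

end StarkC.ABS
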