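import Pool.Agent.ABS.StX

/-!
# Project ABS (MP_46b841_nt), part X, module XDU: the dual group of a finite group
-/

set_option autoImplicit false

open scoped Classical

namespace StarkC.ABS

namespace XDUx

lemma fin (G : Type) [Group G] [Finite G] : Finite (G →* ℂˣ) := inferInstance

end XDUx

theorem XDU_thm : Stmt_XDU := by
  intro G _ _
  refine ⟨XDUx.fin G, ?_⟩
  intro hcomm _ g
  let _ : CommGroup G := { (inferInstance : Group G) with mul_comm := hcomm }
  have hN : NeZero (Monoid.exponent G) := ⟨Monoid.exponent_ne_zero_of_finite⟩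
  by_cases hg : g = 1
  · subst hg
    rw [if_pos rfl]
    have h1 : Nat.card (G →* ℂˣ) = Nat.card G :=
      CommGroup.card_monoidHom_of_hasEnoughRootsOfUnity G ℂ
    have h2 : Fintype.card (G →* ℂˣ) = Nat.card G := by
      rw [← h1, Nat.card_eq_fintype_card]
    simp only [map_one, Units.val_one, Finset.sum_const, Finset.card_univ, nsmul_eq_mul, mul_one]
    rw [h2]
  · rw [if_neg hg]
    obtain ⟨ψ₀, h0⟩ : ∃ φ : G →* ℂˣ, φ g ≠ 1 :=
      CommGroup.exists_apply_ne_one_of_hasEnoughRootsOfUnity G ℂ hg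
    have h1 : ((ψ₀ g : ℂˣ) : ℂ) * ∑ ψ : G →* ℂˣ, ((ψ g : ℂˣ) : ℂ) =
        ∑ ψ : G →* ℂˣ, ((ψ g : ℂˣ) : ℂ) := by
      rw [Finset.mul_sum]
      refine Fintype.sum_equiv (Equiv.mulLeft ψ₀) _ _ fun ψ => ?_
      simp
    have h2 : (((ψ₀ g : ℂˣ) : ℂ) - 1) * ∑ ψ : G →* ℂˣ, ((ψ g : ℂˣ) : ℂ) = 0 := by
      rw [sub_mul, h1, one_mul, sub_self]
    rcases mul_eq_zero.1 h2 with h3 | h3
    · exfalso
      apply h0
      ext
      rw [Units.val_one]
      exact sub_eq_zero.1 h3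
    · exact h3

end StarkC.ABS
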