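import Pool.Agent.ABS.StX

/-!
# ABS, part X, module XEV (helper90): conjugate eigenvectors
-/

set_option autoImplicit false

open NumberField IsDedekindDomain
open scoped TensorProduct Classical

namespace StarkC.ABS

namespace XEVx

variable {L : Type} [Field L] [NumberField L] {T : Set (HeightOneSpectrum (𝓞 L))}

/-- apply `σ` to the coefficients -/
noncomputable def conj (σ : ℂ ≃+* ℂ) (x : (L → ℝ) →₀ ℂ) : (L → ℝ) →₀ ℂ :=
  Finsupp.mapRange σ (map_zero σ) x

omit [Field L] [NumberField L] in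
theorem conj_apply (σ : ℂ ≃+* ℂ) (x : (L → ℝ) →₀ ℂ) (a : L → ℝ) : conj σ x a = σ (x a) := rfl

omit [NumberField L] in
theorem sum_conj (σ : ℂ ≃+* ℂ) (x : (L → ℝ) →₀ ℂ) :
    Finsupp.linearCombination ℂ (fun _ : L → ℝ => (1 : ℂ)) (conj σ x) =
      σ (Finsupp.linearCombination ℂ (fun _ : L → ℝ => (1 : ℂ)) x) := by
  rw [Finsupp.linearCombination_apply, Finsupp.linearCombination_apply, conj,
    Finsupp.sum_mapRange_index (h := fun _ a => a • (1 : ℂ)) (fun _ => zero_smul ℂ _), Finsupp.sum,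
    Finsupp.sum, map_sum]
  refine Finset.sum_congr rfl fun a _ => ?_
  rw [smul_eq_mul, smul_eq_mul, mul_one, mul_one]

theorem conj_mem (σ : ℂ ≃+* ℂ) {x : (L → ℝ) →₀ ℂ} (hx : x ∈ XCsub L T) :
    conj σ x ∈ XCsub L T := by
  rw [XCsub, Submodule.mem_inf] at hx ⊢
  refine ⟨?_, ?_⟩
  · rw [Finsupp.mem_supported] at hx ⊢
    intro a ha
    refine hx.1 ?_
    rw [Finset.mem_coe, Finsupp.mem_support_iff] at ha ⊢
    intro h
    exact ha (by rw [conj_apply, h, map_zero])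
  · rw [LinearMap.mem_ker] at hx ⊢
    rw [sum_conj, hx.2, map_zero]

omit [NumberField L] in
theorem act_conj (σ : ℂ ≃+* ℂ) (g : L ≃+* L) (x : (L → ℝ) →₀ ℂ) :
    actC g (conj σ x) = conj σ (actC g x) :=
  Finsupp.mapDomain_mapRange (fun a : L → ℝ => a ∘ g.symm) x σ (map_zero σ) (map_add σ)

end XEVx

open XEVx in
theorem XEV_thm : Stmt_XEV := by
  intro K L _ _ _ _ _ T hT σ ψ x hx h
  refine ⟨(⟨conj σ x.1, conj_mem σ x.2⟩ : ↥(XCsub L T)), ?_, ?_⟩
  · intro h0
    apply hx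
    apply Subtype.ext
    have h1 : conj σ x.1 = 0 := congrArg Subtype.val h0
    refine Finsupp.ext fun a => ?_
    have h2 := DFunLike.congr_fun h1 a
    rw [conj_apply] at h2
    exact (map_eq_zero σ).1 h2
  · intro g
    apply Subtype.ext
    have h1 : actC (g : L ≃+* L) x.1 = (((ψ g)⁻¹ : ℂˣ) : ℂ) • x.1 := congrArg Subtype.val (h g)
    show actC (g : L ≃+* L) (conj σ x.1) = (((twist σ ψ g)⁻¹ : ℂˣ) : ℂ) • conj σ x.1
    rw [act_conj, h1]
    refine Finsupp.ext fun a => ?_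
    rw [conj_apply, Finsupp.smul_apply, Finsupp.smul_apply, conj_apply, smul_eq_mul, smul_eq_mul,
      map_mul]
    rfl

end StarkC.ABS
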