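import Pool.Agent.ABS.StX

/-!
# Project ABS, part X: an equivariant function on the dual group with given norms
-/

set_option autoImplicit false

open NumberField IsDedekindDomain
open scoped TensorProduct Classical

namespace StarkC.ABS

open StarkP (rootField)

namespace XFAx

variable {G : Type} [Group G]

theorem twist_twist (σ τ : ℂ ≃+* ℂ) (ψ : G →* ℂˣ) :
    twist (τ.trans σ) ψ = twist σ (twist τ ψ) := by
  ext g
  rfl

/-- Two automorphisms with the same values on the `n`-th roots of unity agree on `ℚ(ζ_n)`. -/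
theorem eq_on (n : ℕ) (σ τ : ℂ ≃+* ℂ) (h : ∀ z : ℂ, z ^ n = 1 → σ z = τ z) (x : ℂ)
    (hx : x ∈ rootField n) : σ x = τ x := by
  have h1 : (σ : ℂ →+* ℂ).toRatAlgHom.comp (rootField n).val =
      (τ : ℂ →+* ℂ).toRatAlgHom.comp (rootField n).val := by
    refine IntermediateField.adjoin_algHom_ext (F := ℚ) (fun z hz => ?_)
    exact h z hz
  exact congrArg (fun f : rootField n →ₐ[ℚ] ℂ => f ⟨x, hx⟩) h1

theorem order_pos [Finite G] (ψ : G →* ℂˣ) : 0 < orderOf ψ := by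
  rw [orderOf_pos_iff, isOfFinOrder_iff_pow_eq_one]
  refine ⟨Nat.card G, Nat.card_pos, ?_⟩
  ext g
  rw [MonoidHom.pow_apply, ← map_pow, pow_card_eq_one', map_one, MonoidHom.one_apply]

theorem order_eq (ψ χ : G →* ℂˣ) (h : Subgroup.zpowers ψ = Subgroup.zpowers χ) :
    orderOf ψ = orderOf χ := by
  rw [← Nat.card_zpowers, ← Nat.card_zpowers, h]

theorem pow_eq (ψ : G →* ℂˣ) (s t : ℕ) (hs : s ∈ Ex (orderOf ψ)) (ht : t ∈ Ex (orderOf ψ))
    (h : ψ ^ s = ψ ^ t) : s = t := by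
  unfold Ex at hs ht
  rw [Finset.mem_filter, Finset.mem_range] at hs ht
  exact pow_injOn_Iio_orderOf hs.1 ht.1 h

theorem zpowers_eq (ψ : G →* ℂˣ) (t : ℕ) (ht : t ∈ Ex (orderOf ψ)) :
    Subgroup.zpowers (ψ ^ t) = Subgroup.zpowers ψ := by
  unfold Ex at ht
  rw [Finset.mem_filter] at ht
  apply le_antisymm
  · rw [Subgroup.zpowers_le]
    exact Subgroup.npow_mem_zpowers ψ t
  · rw [Subgroup.zpowers_le]
    obtain ⟨m, hm⟩ := exists_pow_eq_self_of_coprime ht.2.symm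
    have h2 : (ψ ^ t) ^ m ∈ Subgroup.zpowers (ψ ^ t) := Subgroup.npow_mem_zpowers _ m
    rwa [hm] at h2

end XFAx

open XFAx in
theorem XFA_thm : Stmt_XFA := by
  intro hS hN hT G _ _ r α hr hr2 hα hα0
  have hX := hT hS G
  -- automorphisms with the same action on `χ` agree on `ℚ(ζ_o)`
  have hag : ∀ (χ : G →* ℂˣ) (σ τ : ℂ ≃+* ℂ), twist σ χ = twist τ χ →
      ∀ x ∈ rootField (orderOf χ), σ x = τ x := by
    intro χ σ τ h
    obtain ⟨s, hs, hs1, hs2, -⟩ := (hX χ).1 σ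
    obtain ⟨t, ht, ht1, ht2, -⟩ := (hX χ).1 τ
    have hst : s = t := pow_eq χ s t hs ht (by rw [← hs2, ← ht2, h])
    refine eq_on (orderOf χ) σ τ fun z hz => ?_
    rw [hs1 z hz, ht1 z hz, hst]
  -- the automorphisms `σ_ψ`
  have hex : ∀ ψ : G →* ℂˣ, ∃ σ : ℂ ≃+* ℂ, twist σ (r ψ) = ψ := by
    intro ψ
    obtain ⟨t, -, -, σ, -, h⟩ := (hX (r ψ)).2 ψ (hr ψ).symm
    exact ⟨σ, h⟩
  choose τ₀ hτ₀ using hex
  refine ⟨fun ψ => τ₀ ψ (α (r ψ)), fun ψ => ?_, fun σ ψ => ?_, fun ψ h => ?_, ?_⟩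
  · exact (map_ne_zero_iff _ (τ₀ ψ).injective).2 (hα0 (r ψ))
  · have hz : Subgroup.zpowers (twist σ ψ) = Subgroup.zpowers ψ := by
      obtain ⟨t, -, -, -, h⟩ := (hX ψ).1 σ
      exact h
    have hrr : r (twist σ ψ) = r ψ := hr2 _ _ hz
    have h1 : twist ((τ₀ ψ).trans σ) (r ψ) = twist (τ₀ (twist σ ψ)) (r ψ) := by
      rw [twist_twist, hτ₀ ψ, ← hrr, hτ₀ (twist σ ψ)]
    have h2 := hag (r ψ) _ _ h1 (α (r ψ)) (hα (r ψ))
    show σ (τ₀ ψ (α (r ψ))) = τ₀ (twist σ ψ) (α (r (twist σ ψ)))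
    rw [hrr, ← h2]
    rfl
  · show τ₀ ψ (α (r ψ)) = 1
    rw [h, map_one]
  · intro ψ hψ β hβ
    have hrt : ∀ t ∈ Ex (orderOf ψ), r (ψ ^ t) = ψ := by
      intro t ht
      rw [hr2 _ _ (zpowers_eq ψ t ht), hψ]
    have h1 := hN (orderOf ψ) (fun t => τ₀ (ψ ^ t)) (order_pos ψ) (fun t ht z hz => by
      obtain ⟨s, hs, hs1, hs2, -⟩ := (hX ψ).1 (τ₀ (ψ ^ t))
      have h3 := hτ₀ (ψ ^ t)
      rw [hrt t ht, hs2] at h3
      have hst : s = t := pow_eq ψ s t hs ht h3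
      rw [← hst]
      rw [← hst] at hs1
      exact hs1 z hz) β
    have h4 : nm (orderOf ψ) β = ((Algebra.norm ℚ β : ℚ) : ℂ) := rfl
    rw [← h4, h1]
    refine Finset.prod_congr rfl fun t ht => ?_
    show τ₀ (ψ ^ t) (α (r (ψ ^ t))) = τ₀ (ψ ^ t) β
    rw [hrt t ht, ← hβ]

end StarkC.ABS
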