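import Pool.Agent.ABS.StX

/-!
# Project ABS, part X: one `φ` for all rational-valued characters (module XFI)
-/

set_option autoImplicit false

open NumberField IsDedekindDomain
open scoped TensorProduct Classical

namespace StarkC.ABS

open StarkP (rootField)

namespace XFIx

/-- Choose one generator of every cyclic subgroup. -/
theorem exists_rep (X : Type) [Group X] :
    ∃ r : X → X, (∀ x, Subgroup.zpowers (r x) = Subgroup.zpowers x) ∧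
      ∀ x y, Subgroup.zpowers x = Subgroup.zpowers y → r x = r y := by
  have h : ∀ C : Subgroup X, ∃ y : X, (∃ x, Subgroup.zpowers x = C) → Subgroup.zpowers y = C := by
    intro C
    by_cases hC : ∃ x, Subgroup.zpowers x = C
    · obtain ⟨x, hx⟩ := hC
      exact ⟨x, fun _ => hx⟩
    · exact ⟨1, fun h => absurd h hC⟩
  choose R hR using h
  refine ⟨fun x => R (Subgroup.zpowers x), fun x => hR _ ⟨x, rfl⟩, ?_⟩
  intro x y hxy
  show R (Subgroup.zpowers x) = R (Subgroup.zpowers y)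
  rw [hxy]

section Occ

variable {K L : Type} [Field K] [NumberField K] [Field L] [NumberField L] [Algebra K L]

/-- The contragredient of `ψ` occurs in `ℂ ⊗ X`. -/
def occ (T : Set (HeightOneSpectrum (𝓞 L))) (hT : StableT K T) (ψ : (L ≃ₐ[K] L) →* ℂˣ) : Prop :=
  ∃ x : XC L T, x ≠ 0 ∧ ∀ g : L ≃ₐ[K] L, repX K T hT g x = (((ψ g)⁻¹ : ℂˣ) : ℂ) • x

/-- The condition depends only on the class of `ψ`. -/
theorem occ_of_zpowers (hSIGT : Stmt_SIGT) (hXTW : Stmt_XTW) (hXEV : Stmt_XEV)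
    {T : Set (HeightOneSpectrum (𝓞 L))} {hT : StableT K T} {ψ ψ' : (L ≃ₐ[K] L) →* ℂˣ}
    (h : Subgroup.zpowers ψ' = Subgroup.zpowers ψ) (ho : occ T hT ψ) : occ T hT ψ' := by
  obtain ⟨t, ht, h1, σ, hσ, h2⟩ := (hXTW hSIGT (L ≃ₐ[K] L) ψ).2 ψ' h
  obtain ⟨x, hx, hx2⟩ := ho
  obtain ⟨y, hy, hy2⟩ := hXEV K L T hT σ ψ x hx hx2
  rw [h2] at hy2
  exact ⟨y, hy, hy2⟩

/-- The condition `Occurs` gives `occ`. -/
theorem occ_of_occurs {T : Set (HeightOneSpectrum (𝓞 L))} {hT : StableT K T} {V : Type}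
    [AddCommGroup V] [Module ℂ V] (ρ : Representation ℂ (L ≃ₐ[K] L) V)
    (hO : StarkP.Occurs T ρ) (ψ : (L ≃ₐ[K] L) →* ℂˣ)
    (h : ∃ v : V, v ≠ 0 ∧ ∀ g, ρ g v = ((ψ g : ℂˣ) : ℂ) • v) : occ T hT ψ := by
  obtain ⟨v, hv, hv2⟩ := h
  obtain ⟨x, hx, hx0, hx2⟩ := hO ψ v hv hv2
  have hx' : x ∈ XCsub L T := hx
  refine ⟨(⟨x, hx'⟩ : ↥(XCsub L T)), ?_, ?_⟩
  · intro h
    exact hx0 (congrArg (fun y : ↥(XCsub L T) => (y : (L → ℝ) →₀ ℂ)) h)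
  · intro g
    exact Subtype.ext (hx2 g)

end Occ

end XFIx

open XFIx in
theorem XFI_thm : Stmt_XFI := by
  intro hSIGT hNORMT hPCX hNO hXVN hXDU hXTW hXCL hXRA hXRO hXFA hXRS hXEV hXP
  intro K L _ _ _ _ _ _ ℓ k S hcomm hℓ hexp
  obtain ⟨φ₀, Θ₀, h0⟩ := ALLT.exph K L S
  have hTf : (aboveSet K L (S : Set (HeightOneSpectrum (𝓞 K)))).Finite :=
    IND.aboveSet_finite _ S.finite_toSet
  have hT : StableT K (aboveSet K L (S : Set (HeightOneSpectrum (𝓞 K)))) := STB_thm K L _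
  have hc0 := ALLT.thc K L _ hT φ₀ Θ₀ hTf h0
  haveI hfin : Finite ((L ≃ₐ[K] L) →* ℂˣ) := (hXDU (L ≃ₐ[K] L)).1
  haveI hft : Fintype ((L ≃ₐ[K] L) →* ℂˣ) := Fintype.ofFinite _
  obtain ⟨m, ⟨e⟩⟩ : ∃ m : ℕ, Nonempty (Fin m ≃ ((L ≃ₐ[K] L) →* ℂˣ)) :=
    ⟨_, ⟨(Finite.equivFin _).symm⟩⟩
  obtain ⟨α, hα0, hα⟩ := hXVN hPCX hNO K L ℓ k S φ₀ Θ₀ m e h0 hℓ hexp
  obtain ⟨r, hr1, hr2⟩ := exists_rep ((L ≃ₐ[K] L) →* ℂˣ)
  -- the numbers `α`, indexed by the characters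
  have hβex : ∀ ψ : (L ≃ₐ[K] L) →* ℂˣ, ∃ β : rootField (orderOf ψ), β ≠ 0 ∧
      ∀ i, e i = ψ → Algebra.norm ℚ β = Algebra.norm ℚ (α i) := by
    intro ψ
    obtain ⟨i, rfl⟩ := e.surjective ψ
    refine ⟨α i, hα0 i, ?_⟩
    intro j hj
    obtain rfl := e.injective hj
    rfl
  choose β hβ0 hβ using hβex
  let α' : ((L ≃ₐ[K] L) →* ℂˣ) → ℂ := fun ψ =>
    if occ (aboveSet K L (S : Set (HeightOneSpectrum (𝓞 K)))) hT ψ then ((β ψ : ℂ))⁻¹ else 1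
  have hα'1 : ∀ ψ, occ (aboveSet K L (S : Set (HeightOneSpectrum (𝓞 K)))) hT ψ →
      α' ψ = ((β ψ : ℂ))⁻¹ := fun ψ h => if_pos h
  have hα'2 : ∀ ψ, ¬ occ (aboveSet K L (S : Set (HeightOneSpectrum (𝓞 K)))) hT ψ →
      α' ψ = 1 := fun ψ h => if_neg h
  have hβ0' : ∀ ψ, ((β ψ : rootField (orderOf ψ)) : ℂ) ≠ 0 := by
    intro ψ h
    exact hβ0 ψ (Subtype.ext h)
  have hmem : ∀ ψ, α' ψ ∈ rootField (orderOf ψ) := by
    intro ψ
    by_cases h : occ (aboveSet K L (S : Set (HeightOneSpectrum (𝓞 K)))) hT ψ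
    · rw [hα'1 ψ h]
      exact inv_mem (β ψ).2
    · rw [hα'2 ψ h]
      exact one_mem _
  have hne : ∀ ψ, α' ψ ≠ 0 := by
    intro ψ
    by_cases h : occ (aboveSet K L (S : Set (HeightOneSpectrum (𝓞 K)))) hT ψ
    · rw [hα'1 ψ h]
      exact inv_ne_zero (hβ0' ψ)
    · rw [hα'2 ψ h]
      exact one_ne_zero
  obtain ⟨a, ha0, haσ, ha1, haN⟩ :=
    hXFA hSIGT hNORMT hXTW (L ≃ₐ[K] L) r α' hr1 hr2 hmem hne
  have hocc : ∀ ψ, a ψ ≠ 1 → occ (aboveSet K L (S : Set (HeightOneSpectrum (𝓞 K)))) hT ψ := by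
    intro ψ h
    by_contra hno
    refine h (ha1 ψ (hα'2 _ ?_))
    intro h2
    exact hno (occ_of_zpowers hSIGT hXTW hXEV (hr1 ψ).symm h2)
  obtain ⟨φ₁, Θ₁, A, h1, hΘ, hAb, hAc, hAr⟩ :=
    hXP K L S φ₀ Θ₀ hT a h0 hcomm ha0 haσ hocc
  refine ⟨φ₁, Θ₁, h1, ?_⟩
  intro V _ _ _ ρ hO hq
  obtain ⟨c, hc1, hc2⟩ := hXRO hXDU hSIGT hXTW hXCL hXRA (L ≃ₐ[K] L) V ρ r hcomm hr1 hr2 hq
  have hchar : ∀ g, ρ.character g =
      ∑ i, ((c (e i) : ℕ) : ℂ) * cSum (orderOf (e i)) (e i) g := by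
    intro g
    rw [hc2 g]
    exact (Equiv.sum_comp e (fun ψ => ((c ψ : ℕ) : ℂ) * cSum (orderOf ψ) ψ g)).symm
  obtain ⟨F, hF, hR⟩ := hα (fun i => c (e i)) ρ.character hchar
  refine ⟨F, hF, ?_⟩
  have hR0 := hR V ρ (fun _ => rfl)
  have hRA := hXRS K L _ hT A V ρ m (fun i => orderOf (e i)) (fun i => c (e i)) e hTf hAc hAb
    hchar
  rw [hΘ, PHIR.reg_mul hT ρ Θ₀ A hc0 hAc, hR0, hRA, ← mul_assoc, ← Finset.prod_mul_distrib]
  have hone : ∀ i : Fin m,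
      cReg (orderOf (e i)) (aboveSet K L (S : Set (HeightOneSpectrum (𝓞 K)))) (e i) A ^ c (e i) *
        ((Algebra.norm ℚ (α i) : ℚ) : ℂ) ^ c (e i) = 1 := by
    intro i
    by_cases hci : c (e i) = 0
    · rw [hci, pow_zero, pow_zero, one_mul]
    · obtain ⟨hri, hvi⟩ := hc1 (e i) hci
      have hoi : occ (aboveSet K L (S : Set (HeightOneSpectrum (𝓞 K)))) hT (e i) :=
        occ_of_occurs ρ hO (e i) hvi
      have h2 := haN (e i) hri (β (e i))⁻¹ (by rw [hα'1 _ hoi]; rfl)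
      have h3 : cReg (orderOf (e i)) (aboveSet K L (S : Set (HeightOneSpectrum (𝓞 K)))) (e i) A =
          ((Algebra.norm ℚ ((β (e i))⁻¹) : ℚ) : ℂ) := by
        rw [← h2]
        exact Finset.prod_congr rfl fun t _ => hAr (e i ^ t)
      have h4 : Algebra.norm ℚ ((β (e i))⁻¹) * Algebra.norm ℚ (α i) = 1 := by
        rw [← hβ (e i) i rfl, ← map_mul, inv_mul_cancel₀ (hβ0 (e i)), map_one]
      rw [h3, ← mul_pow, ← Rat.cast_mul, h4, Rat.cast_one, one_pow]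
  rw [Finset.prod_congr rfl (fun i _ => hone i), Finset.prod_const_one, one_mul]

end StarkC.ABS
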