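import Pool.Agent.ABS.StX

/-!
# Project ABS, module XFO: Fourier inversion with rational coefficients
-/

set_option autoImplicit false

open NumberField IsDedekindDomain
open scoped TensorProduct Classical

namespace StarkC.ABS

namespace XFOx

theorem mem_bot_of {x : ℂ} (hx : x ∈ Cyc 1) : ∃ q : ℚ, (q : ℂ) = x := by
  have h1 : Cyc 1 = ⊥ := by
    show IntermediateField.adjoin ℚ {z : ℂ | z ^ 1 = 1} = ⊥
    rw [IntermediateField.adjoin_eq_bot_iff]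
    intro z hz
    have hz' : z ^ 1 = 1 := hz
    rw [pow_one] at hz'
    rw [hz']
    exact one_mem _
  rw [h1, IntermediateField.mem_bot] at hx
  obtain ⟨q, hq⟩ := hx
  exact ⟨q, hq⟩

theorem twist_twist {G : Type} [Group G] (σ τ : ℂ ≃+* ℂ) (h : ∀ z, σ (τ z) = z)
    (ψ : G →* ℂˣ) : twist σ (twist τ ψ) = ψ := by
  ext g
  exact h _

/-- the action of an automorphism on the dual group -/
noncomputable def tw {G : Type} [Group G] (σ : ℂ ≃+* ℂ) : (G →* ℂˣ) ≃ (G →* ℂˣ) where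
  toFun := twist σ
  invFun := twist σ.symm
  left_inv := twist_twist _ _ fun z => σ.symm_apply_apply z
  right_inv := twist_twist _ _ fun z => σ.apply_symm_apply z

theorem orth {G : Type} [Group G] [Fintype G] (ψ ψ' : G →* ℂˣ) :
    ∑ g, (((ψ g)⁻¹ : ℂˣ) : ℂ) * ((ψ' g : ℂˣ) : ℂ)
      = if ψ = ψ' then (Fintype.card G : ℂ) else 0 := by
  have h1 : ∀ g, (((ψ g)⁻¹ : ℂˣ) : ℂ) * ((ψ' g : ℂˣ) : ℂ)
      = ((Units.coeHom ℂ).comp (ψ⁻¹ * ψ')) g := fun g => rfl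
  rw [Finset.sum_congr rfl fun g _ => h1 g]
  by_cases h : ψ = ψ'
  · subst h
    rw [if_pos rfl]
    have h2 : ∀ g : G, ((Units.coeHom ℂ).comp (ψ⁻¹ * ψ)) g = 1 := by
      intro g
      show (((ψ g)⁻¹ * ψ g : ℂˣ) : ℂ) = 1
      rw [inv_mul_cancel]
      rfl
    rw [Finset.sum_congr rfl fun g _ => h2 g, Finset.sum_const, nsmul_eq_mul, mul_one,
      Finset.card_univ]
  · rw [if_neg h]
    refine sum_hom_units_eq_zero _ fun h3 => h ?_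
    have h4 : ψ⁻¹ * ψ' = 1 := by
      ext g
      exact DFunLike.congr_fun h3 g
    exact inv_mul_eq_one.1 h4

end XFOx

open XFOx in
/-- **XFO**: Fourier inversion with rational coefficients. -/
theorem XFO_thm : Stmt_XFO := by
  intro hF hDU G _ _ c hc
  have : Finite (G →* ℂˣ) := (hDU G).1
  have : Fintype (G →* ℂˣ) := Fintype.ofFinite _
  have hcard : (Fintype.card G : ℂ) ≠ 0 := Nat.cast_ne_zero.2 Fintype.card_ne_zero
  have hfix : ∀ (σ : ℂ ≃+* ℂ) (g : G),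
      σ ((Fintype.card G : ℂ)⁻¹ * ∑ ψ : G →* ℂˣ, c ψ * (((ψ g)⁻¹ : ℂˣ) : ℂ))
        = (Fintype.card G : ℂ)⁻¹ * ∑ ψ : G →* ℂˣ, c ψ * (((ψ g)⁻¹ : ℂˣ) : ℂ) := by
    intro σ g
    rw [map_mul, map_inv₀, map_natCast, map_sum]
    congr 1
    rw [← Equiv.sum_comp (tw σ) fun ψ : G →* ℂˣ => c ψ * (((ψ g)⁻¹ : ℂˣ) : ℂ)]
    refine Finset.sum_congr rfl fun ψ _ => ?_
    rw [map_mul, hc]
    rfl
  have hQ : ∀ g : G, ∃ q : ℚ, (q : ℂ)
      = (Fintype.card G : ℂ)⁻¹ * ∑ ψ : G →* ℂˣ, c ψ * (((ψ g)⁻¹ : ℂˣ) : ℂ) :=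
    fun g => mem_bot_of (hF 1 _ fun σ _ => hfix σ g)
  choose u hu using hQ
  refine ⟨u, fun ψ' => ?_⟩
  have h1 : ∀ g : G, (u g : ℂ) * ((ψ' g : ℂˣ) : ℂ) = ∑ ψ : G →* ℂˣ,
      (Fintype.card G : ℂ)⁻¹ * c ψ * ((((ψ g)⁻¹ : ℂˣ) : ℂ) * ((ψ' g : ℂˣ) : ℂ)) := by
    intro g
    rw [hu g, Finset.mul_sum, Finset.sum_mul]
    refine Finset.sum_congr rfl fun ψ _ => ?_
    ring
  rw [Finset.sum_congr rfl fun g _ => h1 g, Finset.sum_comm]
  have h2 : ∀ ψ : G →* ℂˣ, ∑ g, (Fintype.card G : ℂ)⁻¹ * c ψ *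
      ((((ψ g)⁻¹ : ℂˣ) : ℂ) * ((ψ' g : ℂˣ) : ℂ))
      = if ψ = ψ' then c ψ else 0 := by
    intro ψ
    rw [← Finset.mul_sum, orth]
    by_cases h : ψ = ψ'
    · rw [if_pos h, if_pos h]
      field_simp
    · rw [if_neg h, if_neg h, mul_zero]
  rw [Finset.sum_congr rfl fun ψ _ => h2 ψ, Finset.sum_ite_eq' Finset.univ ψ' c,
    if_pos (Finset.mem_univ _)]

end StarkC.ABS
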