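import Pool.Agent.ABS.StX

/-!
# Project ABS (MP_46b841_nt), module XIN (helper68): injectivity of `A` from its action on eigenvectors
-/

set_option autoImplicit false

open scoped Classical

namespace StarkC.ABS

namespace XINx

variable {G M : Type} [Group G] [Fintype G] [AddCommGroup M] [Module ℂ M]

/-- the projection to an eigenspace -/
noncomputable def pj (μ : Representation ℂ G M) (ψ : G →* ℂˣ) (x : M) : M :=
  ∑ g, (((ψ g)⁻¹ : ℂˣ) : ℂ) • μ g x

theorem pj_eig (μ : Representation ℂ G M) (ψ : G →* ℂˣ) (x : M) (h : G) :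
    μ h (pj μ ψ x) = ((ψ h : ℂˣ) : ℂ) • pj μ ψ x := by
  unfold pj
  rw [map_sum, Finset.smul_sum]
  refine Fintype.sum_equiv (Equiv.mulLeft h) _ _ fun g => ?_
  rw [map_smul, smul_smul, Equiv.coe_mulLeft, map_mul ψ, map_mul μ, Module.End.mul_apply,
    ← Units.val_mul, mul_inv, mul_inv_cancel_left]

theorem pj_map (μ : Representation ℂ G M) (A : M →ₗ[ℂ] M) (hA : ∀ g x, A (μ g x) = μ g (A x))
    (ψ : G →* ℂˣ) (x : M) : A (pj μ ψ x) = pj μ ψ (A x) := by
  unfold pj
  rw [map_sum]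
  refine Finset.sum_congr rfl fun g _ => ?_
  rw [map_smul, hA]

theorem pj_zero (μ : Representation ℂ G M) (ψ : G →* ℂˣ) : pj μ ψ 0 = 0 := by
  unfold pj
  simp

theorem sum_pj (hXDU : Stmt_XDU) (hc : ∀ g h : G, g * h = h * g) (μ : Representation ℂ G M)
    [Fintype (G →* ℂˣ)] (x : M) : ∑ ψ : G →* ℂˣ, pj μ ψ x = (Nat.card G : ℂ) • x := by
  unfold pj
  rw [Finset.sum_comm]
  have h1 : ∀ g : G, ∑ ψ : G →* ℂˣ, (((ψ g)⁻¹ : ℂˣ) : ℂ) • μ g x =
      (if g = 1 then (Nat.card G : ℂ) else 0) • μ g x := by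
    intro g
    rw [← Finset.sum_smul]
    congr 1
    have h2 := (hXDU G).2 hc g⁻¹
    simp only [inv_eq_one] at h2
    rw [← h2]
    refine Finset.sum_congr rfl fun ψ _ => ?_
    rw [map_inv]
  rw [Finset.sum_congr rfl fun g _ => h1 g, Finset.sum_eq_single 1]
  · rw [if_pos rfl, map_one, Module.End.one_apply]
  · intro g _ hg
    rw [if_neg hg, zero_smul]
  · intro h
    exact absurd (Finset.mem_univ _) h

end XINx

theorem XIN_thm : Stmt_XIN := by
  intro hXDU G M _ _ _ _ _ μ A hc hA hF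
  have _ : Fintype G := Fintype.ofFinite G
  have _ : Finite (G →* ℂˣ) := (hXDU G).1
  have _ : Fintype (G →* ℂˣ) := Fintype.ofFinite _
  have hinj : Function.Injective A := by
    rw [← LinearMap.ker_eq_bot, LinearMap.ker_eq_bot']
    intro x hx
    have h1 : ∀ ψ : G →* ℂˣ, XINx.pj μ ψ x = 0 := by
      intro ψ
      obtain ⟨F, v, h2, h3⟩ := hF ψ
      have h4 := h2 (XINx.pj μ ψ x) fun g => XINx.pj_eig μ ψ x g
      rw [XINx.pj_map μ A hA, hx, XINx.pj_zero] at h4
      have h5 := congrArg F h4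
      rw [map_zero, map_add, map_smul, smul_eq_mul] at h5
      have h6 : F (XINx.pj μ ψ x) * (1 + F v) = 0 := by
        rw [mul_add, mul_one]
        exact h5.symm
      have h7 : F (XINx.pj μ ψ x) = 0 := (mul_eq_zero.1 h6).resolve_right h3
      rw [h7, zero_smul, add_zero] at h4
      exact h4.symm
    have h2 := XINx.sum_pj hXDU hc μ x
    rw [Finset.sum_eq_zero fun ψ _ => h1 ψ] at h2
    have h3 : (Nat.card G : ℂ) ≠ 0 := by
      exact_mod_cast Nat.card_pos.ne'
    exact (smul_eq_zero.1 h2.symm).resolve_left h3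
  exact ⟨hinj, LinearMap.injective_iff_surjective.1 hinj⟩

end StarkC.ABS
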