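import Pool.Agent.ABS.StX

/-!
# Project ABS, module XNZ: finitely many nonzero bilinear maps have a common nonzero point
-/

set_option autoImplicit false

namespace StarkC.ABS

namespace XNZx

/-- finitely many nonzero linear maps have a common point where all are nonzero -/
theorem lin {ι W F : Type} [Finite ι] [AddCommGroup W] [Module ℚ W] [AddCommGroup F] [Module ℚ F]
    (B : ι → W →ₗ[ℚ] F) (hB : ∀ i, B i ≠ 0) : ∃ w : W, ∀ i, B i w ≠ 0 := by
  by_contra hcon
  push Not at hcon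
  have h1 : (⋃ i, ((LinearMap.ker (B i) : Subspace ℚ W) : Set W)) = Set.univ := by
    refine Set.eq_univ_of_forall fun w => ?_
    obtain ⟨i, hi⟩ := hcon w
    exact Set.mem_iUnion.2 ⟨i, LinearMap.mem_ker.2 hi⟩
  obtain ⟨i, hi⟩ := Subspace.exists_eq_top_of_iUnion_eq_univ h1
  exact hB i (LinearMap.ker_eq_top.1 hi)

end XNZx

theorem XNZ_thm : Stmt_XNZ := by
  intro ι W F _ _ _ _ _ B hB
  obtain ⟨w, hw⟩ := XNZx.lin B hB
  obtain ⟨f, hf⟩ := XNZx.lin (fun i => B i w) hw
  exact ⟨w, f, hf⟩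

end StarkC.ABS
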