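import Pool.Agent.ABS.StX
import Pool.Agent.Stark.INFL
import Pool.Agent.Stark.XRAT

/-!
# Project ABS, part X: the isomorphism `φ₁ = φ ∘ ξ`
-/

set_option autoImplicit false

open NumberField IsDedekindDomain
open scoped TensorProduct Classical

namespace StarkC.ABS.XPHx

theorem twist_inv {G : Type} [Group G] (σ : ℂ ≃+* ℂ) (ψ : G →* ℂˣ) :
    twist σ ψ⁻¹ = (twist σ ψ)⁻¹ := by
  ext g
  simp [twist]

section

variable {L : Type} [Field L] [NumberField L] {T : Set (HeightOneSpectrum (𝓞 L))}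

/-- An element of `ℂ ⊗ X` is determined by its coefficients. -/
theorem val_inj {x y : XC L T} (h : x.val = y.val) : x = y := Subtype.ext h

theorem iN_smul (q : ℚ) (x : XQ L T) : INFL.iN T (q • x) = (q : ℂ) • INFL.iN T x := by
  apply val_inj
  ext a
  rw [INFL.iN_val, map_smul, Finsupp.smul_apply, INFL.iN_val, smul_eq_mul]
  have h : (((q • x : XQ L T) : (L → ℝ) →₀ ℚ) a : ℚ) = q * ((x : (L → ℝ) →₀ ℚ) a) := rfl
  rw [h]
  push_cast
  rfl

end

section

variable {K L : Type} [Field K] [NumberField K] [Field L] [NumberField L] [Algebra K L]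
  {T : Set (HeightOneSpectrum (𝓞 L))}

theorem iN_act (hT : StableT K T) (g : L ≃ₐ[K] L) (x : XQ L T) :
    INFL.iN T (INFL.repQ T hT g x) = repX K T hT g (INFL.iN T x) := by
  apply val_inj
  exact INFL.castQC_act (g : L ≃+* L) _

end

end StarkC.ABS.XPHx

namespace StarkC.ABS

open XPHx

theorem XPH_thm : Stmt_XPH := by
  intro hRG hXI K L _ _ _ _ _ _ S φ Θ hT a hφ hcomm ha0 hσ hocc
  have hTf : (aboveSet K L (S : Set (HeightOneSpectrum (𝓞 K)))).Finite :=
    INFL.finite_aboveSet S.finite_toSet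
  obtain ⟨n, b, c, hbc⟩ := XRAT_thm L (aboveSet K L (S : Set (HeightOneSpectrum (𝓞 K)))) hTf
  obtain ⟨ξ, A, h1, h2, h3, h4, h5⟩ := hXI (L ≃ₐ[K] L)
    (XQ L (aboveSet K L (S : Set (HeightOneSpectrum (𝓞 K)))))
    (XC L (aboveSet K L (S : Set (HeightOneSpectrum (𝓞 K)))))
    (INFL.repQ (aboveSet K L (S : Set (HeightOneSpectrum (𝓞 K)))) hT)
    (repX K (aboveSet K L (S : Set (HeightOneSpectrum (𝓞 K)))) hT)
    (INFL.iN (aboveSet K L (S : Set (HeightOneSpectrum (𝓞 K))))) n b c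
    (by
      intro i
      apply val_inj
      ext x
      rw [INFL.iN_val, hbc])
    iN_smul
    (fun g x => iN_act hT g x)
    hcomm (fun ψ => a ψ⁻¹) (fun ψ => ha0 _)
    (by
      intro σ ψ
      show σ (a ψ⁻¹) = a (twist σ ψ)⁻¹
      rw [hσ, twist_inv])
    (by
      intro ψ hψ
      obtain ⟨x, hx0, hx⟩ := hocc _ hψ
      refine ⟨x, hx0, fun g => ?_⟩
      rw [hx g, MonoidHom.inv_apply, inv_inv])
  have hAc : ∀ g : L ≃ₐ[K] L,
      A ∘ₗ repX K (aboveSet K L (S : Set (HeightOneSpectrum (𝓞 K)))) hT g =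
        repX K (aboveSet K L (S : Set (HeightOneSpectrum (𝓞 K)))) hT g ∘ₗ A := by
    intro g
    ext1 x
    exact h3 g x
  refine ⟨ξ.trans φ, Θ ∘ₗ A, A, ⟨?_, ?_⟩, rfl, h4, hAc, ?_⟩
  · intro g x y hxy
    have h6 : y = INFL.repQ (aboveSet K L (S : Set (HeightOneSpectrum (𝓞 K)))) hT g x :=
      Subtype.ext hxy
    rw [LinearEquiv.trans_apply, LinearEquiv.trans_apply]
    refine hφ.1 g (ξ x) (ξ y) ?_
    rw [h6, h1 g x, INFL.repQ_val]
  · intro x z hz
    have h6 : z = INFL.iN (aboveSet K L (S : Set (HeightOneSpectrum (𝓞 K)))) x := by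
      apply val_inj
      ext a
      rw [hz a, INFL.iN_val]
    rw [LinearMap.comp_apply, LinearEquiv.trans_apply]
    refine hφ.2 (ξ x) (A z) ?_
    intro a
    rw [h6, h2 x, INFL.iN_val]
  · intro ψ
    obtain ⟨F, v, hv, hF, hd⟩ := h5 ψ⁻¹
    have h6 := hRG K L (aboveSet K L (S : Set (HeightOneSpectrum (𝓞 K)))) hT ψ A F v hTf hAc
      (by
        intro g
        rw [hv g, MonoidHom.inv_apply])
      (by
        intro x hx
        refine hF x fun g => ?_
        rw [hx g, MonoidHom.inv_apply])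
    have h7 : ψ⁻¹⁻¹ = ψ := by
      ext g
      simp
    rw [h6, hd, h7]

end StarkC.ABS
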