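import Pool.Agent.ABS.StX

/-!
# ABS, module XRA : multiplicities of linear characters in a representation of an abelian group
-/

set_option autoImplicit false

open scoped Classical

namespace StarkC.ABS

namespace XRAx

variable {G V : Type} [Group G] [Fintype G] [AddCommGroup V] [Module ℂ V]

/-- the projection onto the part of the character `ψ` -/
noncomputable def P (ρ : Representation ℂ G V) (ψ : G →* ℂˣ) : V →ₗ[ℂ] V :=
  (Nat.card G : ℂ)⁻¹ • ∑ g : G, (((ψ g)⁻¹ : ℂˣ) : ℂ) • ρ g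

theorem card_ne : (Nat.card G : ℂ) ≠ 0 := by
  have : 0 < Nat.card G := Nat.card_pos
  exact_mod_cast this.ne'

theorem act (ρ : Representation ℂ G V) (ψ : G →* ℂˣ) (h : G) :
    ρ h * P ρ ψ = ((ψ h : ℂˣ) : ℂ) • P ρ ψ := by
  unfold P
  rw [mul_smul_comm, Finset.mul_sum, smul_comm ((ψ h : ℂˣ) : ℂ)]
  congr 1
  rw [Finset.smul_sum]
  refine Fintype.sum_equiv (Equiv.mulLeft h) _ _ fun g => ?_
  rw [Equiv.coe_mulLeft, mul_smul_comm, ← map_mul, smul_smul]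
  congr 1
  rw [map_mul, mul_inv_rev, Units.val_mul, mul_comm, mul_assoc, ← Units.val_mul, inv_mul_cancel,
    Units.val_one, mul_one]

theorem idem (ρ : Representation ℂ G V) (ψ : G →* ℂˣ) : IsIdempotentElem (P ρ ψ) := by
  unfold IsIdempotentElem
  have e : P ρ ψ * P ρ ψ
      = (Nat.card G : ℂ)⁻¹ • ∑ g : G, ((((ψ g)⁻¹ : ℂˣ) : ℂ) • ρ g * P ρ ψ) := by
    show ((Nat.card G : ℂ)⁻¹ • ∑ g : G, (((ψ g)⁻¹ : ℂˣ) : ℂ) • ρ g) * P ρ ψ = _
    rw [smul_mul_assoc, Finset.sum_mul]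
  rw [e]
  have : ∀ g : G, (((ψ g)⁻¹ : ℂˣ) : ℂ) • ρ g * P ρ ψ = P ρ ψ := by
    intro g
    rw [smul_mul_assoc, act, smul_smul, ← Units.val_mul, inv_mul_cancel, Units.val_one, one_smul]
  rw [Finset.sum_congr rfl fun g _ => this g, Finset.sum_const, Finset.card_univ,
    ← Nat.card_eq_fintype_card, ← Nat.cast_smul_eq_nsmul ℂ, smul_smul, inv_mul_cancel₀ card_ne,
    one_smul]

theorem tr [Module.Finite ℂ V] (ρ : Representation ℂ G V) (ψ : G →* ℂˣ) :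
    LinearMap.trace ℂ V (P ρ ψ) =
      (∑ g, ρ.character g * (((ψ g)⁻¹ : ℂˣ) : ℂ)) / (Nat.card G : ℂ) := by
  unfold P
  rw [map_smul, map_sum, smul_eq_mul, div_eq_inv_mul]
  congr 1
  refine Finset.sum_congr rfl fun g _ => ?_
  rw [map_smul, smul_eq_mul, mul_comm]
  rfl

theorem tot [Fintype (G →* ℂˣ)] (ρ : Representation ℂ G V)
    (h : ∀ g : G, ∑ ψ : G →* ℂˣ, ((ψ g : ℂˣ) : ℂ) = if g = 1 then (Nat.card G : ℂ) else 0) :
    ∑ ψ : G →* ℂˣ, P ρ ψ = 1 := by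
  unfold P
  rw [← Finset.smul_sum, Finset.sum_comm]
  have : ∀ g : G, ∑ ψ : G →* ℂˣ, (((ψ g)⁻¹ : ℂˣ) : ℂ) • ρ g
      = if g = 1 then (Nat.card G : ℂ) • (1 : V →ₗ[ℂ] V) else 0 := by
    intro g
    rw [← Finset.sum_smul]
    have e : ∑ ψ : G →* ℂˣ, (((ψ g)⁻¹ : ℂˣ) : ℂ) = ∑ ψ : G →* ℂˣ, ((ψ g⁻¹ : ℂˣ) : ℂ) :=
      Finset.sum_congr rfl fun ψ _ => by rw [map_inv]
    rw [e, h g⁻¹]
    by_cases hg : g = 1
    · subst hg
      rw [if_pos inv_one, if_pos rfl, map_one]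
    · rw [if_neg (by rwa [inv_eq_one]), if_neg hg, zero_smul]
  rw [Finset.sum_congr rfl fun g _ => this g, Finset.sum_ite_eq' Finset.univ (1 : G)]
  rw [if_pos (Finset.mem_univ _), smul_smul, inv_mul_cancel₀ card_ne, one_smul]

end XRAx

open XRAx in
/-- MODULE XRA. -/
theorem XRA_thm : Stmt_XRA := by
  intro hdu G V _ _ _ _ _ _ ρ hcomm
  have hs := (hdu G).2 hcomm
  have hm : ∀ ψ : G →* ℂˣ,
      (Module.finrank ℂ (LinearMap.range (P ρ ψ)) : ℂ) = LinearMap.trace ℂ V (P ρ ψ) := fun ψ =>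
    ((LinearMap.isProj_range_iff_isIdempotentElem (P ρ ψ)).2 (idem ρ ψ)).trace.symm
  refine ⟨fun ψ => Module.finrank ℂ (LinearMap.range (P ρ ψ)), fun ψ => ?_, fun ψ hψ => ?_,
    fun g => ?_⟩
  · rw [hm, tr]
  · have hne : LinearMap.range (P ρ ψ) ≠ ⊥ := by
      intro hb
      exact hψ (by show Module.finrank ℂ (LinearMap.range (P ρ ψ)) = 0; rw [hb, finrank_bot])
    obtain ⟨v, hv, hv0⟩ := Submodule.exists_mem_ne_zero_of_ne_bot hne
    obtain ⟨w, rfl⟩ := LinearMap.mem_range.1 hv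
    refine ⟨P ρ ψ w, hv0, fun g => ?_⟩
    have := congrArg (fun f : V →ₗ[ℂ] V => f w) (act ρ ψ g)
    exact this
  · have h1 : ρ.character g = LinearMap.trace ℂ V (ρ g * ∑ ψ : G →* ℂˣ, P ρ ψ) := by
      rw [tot ρ hs, mul_one]
      rfl
    rw [h1, Finset.mul_sum, map_sum]
    refine Finset.sum_congr rfl fun ψ _ => ?_
    rw [act, map_smul, smul_eq_mul, hm, mul_comm]

end StarkC.ABS
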