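import Pool.Agent.ABS.StX

/-!
# Project ABS, module XRG: the regulator of a linear character for a transvection
-/

set_option autoImplicit false

open NumberField IsDedekindDomain
open scoped TensorProduct Classical

namespace StarkC.ABS

open StarkP (rootField)

namespace XRGx

section

variable {K L : Type} [Field K] [Field L] [NumberField L] [Algebra K L]
variable {T : Set (HeightOneSpectrum (𝓞 L))}

/-- the eigenspace -/
noncomputable def eig (hT : StableT K T) (ψ : (L ≃ₐ[K] L) →* ℂˣ) : Submodule ℂ (XC L T) where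
  carrier := {x | ∀ g : L ≃ₐ[K] L, repX K T hT g x = (((ψ g)⁻¹ : ℂˣ) : ℂ) • x}
  add_mem' := by
    intro a b ha hb g
    rw [map_add, ha g, hb g, smul_add]
  zero_mem' := by
    intro g
    rw [map_zero, smul_zero]
  smul_mem' := by
    intro c x hx g
    rw [map_smul, hx g, smul_comm]

theorem dual_lin (ψ : (L ≃ₐ[K] L) →* ℂˣ) (g : L ≃ₐ[K] L) (α : Module.Dual ℂ ℂ) :
    (linRep ψ).dual g α = (((ψ g)⁻¹ : ℂˣ) : ℂ) • α := by
  refine LinearMap.ext fun z => ?_
  have h1 : (linRep ψ).dual g α z = α ((ψ g⁻¹ : ℂ) * z) := rfl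
  rw [h1, map_inv, ← smul_eq_mul, map_smul]
  rfl

theorem dual_id (α : Module.Dual ℂ ℂ) : α = α 1 • (LinearMap.id : ℂ →ₗ[ℂ] ℂ) := by
  refine LinearMap.ext fun z => ?_
  have h1 : α z = α (z • (1 : ℂ)) := by rw [smul_eq_mul, mul_one]
  rw [h1, map_smul, LinearMap.smul_apply, LinearMap.id_apply, smul_eq_mul, smul_eq_mul, mul_comm]

theorem mem_hom (hT : StableT K T) (ψ : (L ≃ₐ[K] L) →* ℂˣ)
    (f : Module.Dual ℂ ℂ →ₗ[ℂ] XC L T) :
    f ∈ homG T (linRep ψ) ↔ f LinearMap.id ∈ eig hT ψ := by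
  constructor
  · intro hf g
    have h1 : f ((linRep ψ).dual g LinearMap.id) = repX K T hT g (f LinearMap.id) :=
      THB.val_inj (hf g LinearMap.id)
    rw [← h1, dual_lin, map_smul]
  · intro hf g α
    have h1 : repX K T hT g (f LinearMap.id) = (((ψ g)⁻¹ : ℂˣ) : ℂ) • f LinearMap.id := hf g
    have h2 : f ((linRep ψ).dual g α) = repX K T hT g (f α) := by
      rw [dual_lin, map_smul]
      have h3 : f α = α 1 • f LinearMap.id := by
        conv_lhs => rw [dual_id α, map_smul]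
      rw [h3, map_smul, h1, smul_comm]
    rw [h2]
    rfl

/-- the isomorphism with the eigenspace -/
noncomputable def equ (hT : StableT K T) (ψ : (L ≃ₐ[K] L) →* ℂˣ) :
    homG T (linRep ψ) ≃ₗ[ℂ] eig hT ψ where
  toFun f := ⟨f.1 LinearMap.id, (mem_hom hT ψ f.1).1 f.2⟩
  map_add' a b := rfl
  map_smul' c a := rfl
  invFun x := ⟨LinearMap.smulRight (Module.Dual.eval ℂ ℂ (1 : ℂ)) x.1, by
    rw [mem_hom hT ψ]
    have h1 : LinearMap.smulRight (Module.Dual.eval ℂ ℂ (1 : ℂ)) x.1 LinearMap.id = x.1 := by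
      rw [LinearMap.smulRight_apply, Module.Dual.eval_apply, LinearMap.id_apply, one_smul]
    rw [h1]
    exact x.2⟩
  left_inv f := by
    apply Subtype.ext
    refine LinearMap.ext fun α => ?_
    have h1 : f.1 α = α 1 • f.1 LinearMap.id := by
      conv_lhs => rw [dual_id α, map_smul]
    rw [h1]
    rfl
  right_inv x := by
    apply Subtype.ext
    change LinearMap.smulRight (Module.Dual.eval ℂ ℂ (1 : ℂ)) x.1 LinearMap.id = x.1
    rw [LinearMap.smulRight_apply, Module.Dual.eval_apply, LinearMap.id_apply, one_smul]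

end

end XRGx

open XRGx in
/-- **XRG**: the regulator of a linear character for a transvection. -/
theorem XRG_thm : Stmt_XRG := by
  intro K L _ _ _ _ _ T hT ψ A F v hfin hA hv hx
  obtain ⟨n, -, c, -⟩ := XRAT_thm L T hfin
  have hfd : Module.Finite ℂ (XC L T) := Module.Finite.of_basis c
  have hst := PHIR.hom_stable hT (linRep ψ) A hA
  rw [Reg, dif_pos hst]
  have hvE : v ∈ eig hT ψ := hv
  have hfE : Module.Finite ℂ (eig hT ψ) := inferInstance
  rw [← LinearMap.det_conj _ (equ hT ψ)]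
  have h1 : ((equ hT ψ : homG T (linRep ψ) →ₗ[ℂ] eig hT ψ) ∘ₗ
      ((LinearMap.compRight ℂ A).restrict hst) ∘ₗ
      ((equ hT ψ).symm : eig hT ψ →ₗ[ℂ] homG T (linRep ψ))) =
      LinearMap.transvection (F ∘ₗ (eig hT ψ).subtype) (⟨v, hvE⟩ : eig hT ψ) := by
    refine LinearMap.ext fun x => ?_
    obtain ⟨f, rfl⟩ := (equ hT ψ).surjective x
    rw [LinearMap.comp_apply, LinearMap.comp_apply, LinearMap.transvection.apply]
    have h2 : ((equ hT ψ).symm : eig hT ψ →ₗ[ℂ] homG T (linRep ψ)) (equ hT ψ f) = f :=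
      (equ hT ψ).symm_apply_apply f
    rw [h2]
    apply Subtype.ext
    change A (f.1 LinearMap.id) = f.1 LinearMap.id + F (f.1 LinearMap.id) • v
    exact hx _ ((mem_hom hT ψ f.1).1 f.2)
  rw [h1, LinearMap.transvection.det]
  rfl

end StarkC.ABS
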