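import Pool.Agent.ABS.StX

/-!
# Project ABS (MP_46b841_nt), part X, module XRO

A rational-valued character of an abelian group is a sum of classes of conjugate linear characters.
-/

set_option autoImplicit false

open NumberField IsDedekindDomain
open scoped TensorProduct Classical

namespace StarkC.ABS.XROx

theorem twist_coe {G : Type} [Group G] (σ : ℂ ≃+* ℂ) (ψ : G →* ℂˣ) (g : G) :
    ((twist σ ψ g : ℂˣ) : ℂ) = σ ((ψ g : ℂˣ) : ℂ) := rfl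

theorem twist_inv_coe {G : Type} [Group G] (σ : ℂ ≃+* ℂ) (ψ : G →* ℂˣ) (g : G) :
    ((((twist σ ψ g)⁻¹ : ℂˣ)) : ℂ) = σ ((((ψ g)⁻¹ : ℂˣ)) : ℂ) := by
  rw [Units.val_inv_eq_inv_val, Units.val_inv_eq_inv_val, twist_coe, map_inv₀]

/-- The multiplicity of a conjugate character is the same. -/
theorem mult_twist {G : Type} [Group G] [Fintype G] (χ : G → ℂ) (m : (G →* ℂˣ) → ℕ)
    (hm : ∀ ψ, (m ψ : ℂ) = (∑ g, χ g * (((ψ g)⁻¹ : ℂˣ) : ℂ)) / (Nat.card G : ℂ))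
    (hq : ∀ g, ∃ q : ℚ, χ g = (q : ℂ)) (σ : ℂ ≃+* ℂ) (ψ : G →* ℂˣ) :
    m (twist σ ψ) = m ψ := by
  have hσ : ∀ g, σ (χ g) = χ g := by
    intro g
    obtain ⟨q, hq'⟩ := hq g
    rw [hq', map_ratCast]
  have h1 : (m (twist σ ψ) : ℂ) = σ (m ψ : ℂ) := by
    rw [hm, hm, map_div₀, map_sum, map_natCast]
    congr 1
    refine Finset.sum_congr rfl fun g _ => ?_
    rw [map_mul, hσ, twist_inv_coe]
  rw [map_natCast] at h1
  exact_mod_cast h1

/-- A power with exponent coprime to the order generates the same subgroup. -/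
theorem zpowers_pow {X : Type} [Group X] (x : X) (t : ℕ) (ht : (orderOf x).Coprime t) :
    Subgroup.zpowers (x ^ t) = Subgroup.zpowers x := by
  apply le_antisymm
  · rw [Subgroup.zpowers_le]
    exact Subgroup.npow_mem_zpowers x t
  · rw [Subgroup.zpowers_le]
    obtain ⟨k, hk⟩ := exists_pow_eq_self_of_coprime ht.symm
    rw [Subgroup.mem_zpowers_iff]
    exact ⟨k, by rw [zpow_natCast]; exact hk⟩

theorem main (hXDU : Stmt_XDU) (hSIGT : Stmt_SIGT) (hXTW : Stmt_XTW) (hXCL : Stmt_XCL)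
    (hXRA : Stmt_XRA)
    (G V : Type) [Group G] [Fintype G] [Fintype (G →* ℂˣ)] [AddCommGroup V] [Module ℂ V]
    [Module.Finite ℂ V] (ρ : Representation ℂ G V) (r : (G →* ℂˣ) → (G →* ℂˣ))
    (hc : ∀ g h : G, g * h = h * g)
    (hr1 : ∀ ψ, Subgroup.zpowers (r ψ) = Subgroup.zpowers ψ)
    (hr2 : ∀ ψ ψ', Subgroup.zpowers ψ = Subgroup.zpowers ψ' → r ψ = r ψ')
    (hq : ∀ g, ∃ q : ℚ, ρ.character g = (q : ℂ)) :
    ∃ c : (G →* ℂˣ) → ℕ,
      (∀ ψ, c ψ ≠ 0 → r ψ = ψ ∧ ∃ v : V, v ≠ 0 ∧ ∀ g, ρ g v = ((ψ g : ℂˣ) : ℂ) • v) ∧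
      ∀ g, ρ.character g = ∑ ψ : G →* ℂˣ, (c ψ : ℂ) * cSum (orderOf ψ) ψ g := by
  obtain ⟨m, hm1, hm2, hm3⟩ := hXRA hXDU G V ρ hc
  have hpow : ∀ ψ : G →* ℂˣ, ∀ t ∈ Ex (orderOf ψ), m (ψ ^ t) = m ψ := by
    intro ψ t ht
    have hco : (orderOf ψ).Coprime t := by
      unfold Ex at ht
      exact (Finset.mem_filter.mp ht).2
    obtain ⟨s, hs, hs1, σ, hσ1, hσ2⟩ := (hXTW hSIGT G ψ).2 (ψ ^ t) (zpowers_pow ψ t hco)
    rw [← hσ2]
    exact mult_twist ρ.character m hm1 hq σ ψ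
  refine ⟨fun ψ => if r ψ = ψ then m ψ else 0, ?_, ?_⟩
  · intro ψ hψ
    by_cases h : r ψ = ψ
    · refine ⟨h, ?_⟩
      simp only [h, if_true] at hψ
      exact hm2 ψ hψ
    · simp [h] at hψ
  · intro g
    rw [hm3 g]
    rw [hXCL (G →* ℂˣ) r (fun ψ => (m ψ : ℂ) * ((ψ g : ℂˣ) : ℂ)) hr1 hr2]
    rw [Finset.sum_filter]
    refine Finset.sum_congr rfl fun ψ _ => ?_
    by_cases h : r ψ = ψ
    · simp only [h, if_true]
      unfold cSum
      rw [Finset.mul_sum]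
      refine Finset.sum_congr rfl fun t ht => ?_
      rw [hpow ψ t ht]
      rw [MonoidHom.pow_apply, Units.val_pow_eq_pow_val]
    · simp [h]

end StarkC.ABS.XROx

namespace StarkC.ABS

theorem XRO_thm : Stmt_XRO := by
  intro hXDU hSIGT hXTW hXCL hXRA G V _ _ _ _ _ _ ρ r hc hr1 hr2 hq
  exact XROx.main hXDU hSIGT hXTW hXCL hXRA G V ρ r hc hr1 hr2 hq

end StarkC.ABS
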