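import Pool.Agent.ABS.StX
import Pool.Agent.ABS.LAST

/-!
# Project ABS, module XRS: the regulator of a sum of classes (helper61)
-/

set_option autoImplicit false

open NumberField IsDedekindDomain
open scoped TensorProduct Classical

namespace StarkC.ABS

theorem XRS_thm : Stmt_XRS := by
  intro K L _ _ _ _ _ T hT A V _ _ _ ρ m q c ψ hTf hc hb h
  obtain ⟨W₀, _, _, _, B₀, hdet0, -, htr0⟩ := ALLT.rgt K L T hT A V ρ hTf hc hb
  choose W hW1 hW2 hW3 B hdet hne htr using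
    fun x : (Σ i : Fin m, {t // t ∈ Ex (q i)}) =>
      ALLT.rgt K L T hT A ℂ (linRep (ψ x.1 ^ (x.2 : ℕ))) hTf hc hb
  let e : Fin (Fintype.card (Σ i : Fin m, {t // t ∈ Ex (q i)})) ≃
    (Σ i : Fin m, {t // t ∈ Ex (q i)}) := (Fintype.equivFin _).symm
  have key := @TRD_thm (Fintype.card (Σ i : Fin m, {t // t ∈ Ex (q i)})) W₀ _ _ _ B₀
    (fun k => W (e k)) (fun k => hW1 (e k)) (fun k => hW2 (e k)) (fun k => hW3 (e k))
    (fun k => B (e k)) (fun k => ((c (e k).1 : ℕ) : ℤ)) (fun k => hne (e k)) ?_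
  · rw [hdet0] at key
    rw [key]
    have h1 : (∏ k, LinearMap.det (B (e k)) ^ ((c (e k).1 : ℕ) : ℤ)) =
        ∏ x : (Σ i : Fin m, {t // t ∈ Ex (q i)}),
          Reg T (linRep (ψ x.1 ^ (x.2 : ℕ))) A ^ c x.1 := by
      rw [← Equiv.prod_comp e]
      refine Finset.prod_congr rfl fun k _ => ?_
      rw [zpow_natCast, hdet (e k)]
    rw [h1, Fintype.prod_sigma]
    refine Finset.prod_congr rfl fun i _ => ?_
    show (∏ y : {t // t ∈ Ex (q i)}, Reg T (linRep (ψ i ^ (y : ℕ))) A ^ c i) =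
      (∏ t ∈ Ex (q i), Reg T (linRep (ψ i ^ t)) A) ^ c i
    rw [Finset.prod_pow, ← Finset.prod_coe_sort (Ex (q i))]
  · intro k
    rw [htr0 k]
    have h1 : (∑ g : L ≃ₐ[K] L, ρ.character g *
        LinearMap.trace ℂ (XC L T) (repX K T hT g ∘ₗ (A ^ k))) =
        ∑ x : (Σ i : Fin m, {t // t ∈ Ex (q i)}), (c x.1 : ℂ) *
          ∑ g : L ≃ₐ[K] L, (linRep (ψ x.1 ^ (x.2 : ℕ))).character g *
          LinearMap.trace ℂ (XC L T) (repX K T hT g ∘ₗ (A ^ k)) := by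
      have h2 : ∀ x : (Σ i : Fin m, {t // t ∈ Ex (q i)}), (c x.1 : ℂ) *
          ∑ g : L ≃ₐ[K] L, (linRep (ψ x.1 ^ (x.2 : ℕ))).character g *
          LinearMap.trace ℂ (XC L T) (repX K T hT g ∘ₗ (A ^ k)) =
          ∑ g : L ≃ₐ[K] L, (c x.1 : ℂ) * ((linRep (ψ x.1 ^ (x.2 : ℕ))).character g *
          LinearMap.trace ℂ (XC L T) (repX K T hT g ∘ₗ (A ^ k))) := fun x =>
        Finset.mul_sum _ _ _
      rw [Finset.sum_congr rfl fun x _ => h2 x, Finset.sum_comm]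
      refine Finset.sum_congr rfl fun g _ => ?_
      rw [h, Finset.sum_mul, Fintype.sum_sigma]
      refine Finset.sum_congr rfl fun i _ => ?_
      unfold cSum
      rw [← Finset.sum_coe_sort (Ex (q i)), Finset.mul_sum, Finset.sum_mul]
      refine Finset.sum_congr rfl fun t _ => ?_
      rw [IND.linRep_character]
      show (c i : ℂ) * ((ψ i g : ℂˣ) : ℂ) ^ (t : ℕ) *
        LinearMap.trace ℂ (XC L T) (repX K T hT g ∘ₗ (A ^ k)) =
        (c i : ℂ) * ((((ψ i ^ (t : ℕ)) g : ℂˣ) : ℂ) *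
        LinearMap.trace ℂ (XC L T) (repX K T hT g ∘ₗ (A ^ k)))
      rw [MonoidHom.pow_apply, Units.val_pow_eq_pow_val, mul_assoc]
    rw [h1, Finset.sum_div, ← Equiv.sum_comp e]
    refine Finset.sum_congr rfl fun j _ => ?_
    rw [htr (e j) k, Int.cast_natCast, mul_div_assoc]

end StarkC.ABS
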