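import Pool.Agent.ABS.StX

/-!
# XTR: the automorphism `ξ`, an average of a transvection
-/

set_option autoImplicit false

namespace StarkC.ABS

namespace XTRx

/-- the complex linear form which extends the rational one -/
theorem ext_form {W M : Type} [AddCommGroup W] [Module ℚ W] [AddCommGroup M] [Module ℂ M]
    (j : W →+ M) (n : ℕ) (b : Module.Basis (Fin n) ℚ W) (c : Module.Basis (Fin n) ℂ M)
    (hjb : ∀ i, j (b i) = c i) (hjq : ∀ (q : ℚ) (x : W), j (q • x) = (q : ℂ) • j x)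
    (f : W →ₗ[ℚ] ℚ) : ∃ F : M →ₗ[ℂ] ℂ, ∀ x : W, F (j x) = ((f x : ℚ) : ℂ) := by
  refine ⟨c.constr ℂ (fun i => ((f (b i) : ℚ) : ℂ)), fun x => ?_⟩
  have h1 : j x = ∑ i, ((b.repr x i : ℚ) : ℂ) • c i := by
    conv_lhs => rw [← b.sum_repr x]
    rw [map_sum]
    exact Finset.sum_congr rfl fun i _ => by rw [hjq, hjb]
  have h2 : f x = ∑ i, b.repr x i * f (b i) := by
    conv_lhs => rw [← b.sum_repr x]
    rw [map_sum]
    exact Finset.sum_congr rfl fun i _ => by rw [map_smul, smul_eq_mul]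
  rw [h1, map_sum, h2]
  push_cast
  refine Finset.sum_congr rfl fun i _ => ?_
  rw [map_smul, smul_eq_mul, Module.Basis.constr_basis]

end XTRx

open XTRx in
theorem XTR_thm : Stmt_XTR := by
  intro G W M _ _ _ _ _ _ τ μ j n b c hjb hjq hjτ u w f
  obtain ⟨F, hF⟩ := ext_form j n b c hjb hjq f
  obtain ⟨ξ, hξ⟩ : ∃ ξ : W →ₗ[ℚ] W, ∀ x, ξ x =
      x + ∑ g, (∑ h, u h * f (τ (h * g⁻¹) x)) • τ g w := by
    refine ⟨LinearMap.id + ∑ g, (∑ h, u h • (f ∘ₗ τ (h * g⁻¹))).smulRight (τ g w), fun x => ?_⟩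
    simp only [LinearMap.add_apply, LinearMap.id_apply, LinearMap.sum_apply,
      LinearMap.smulRight_apply, LinearMap.smul_apply, LinearMap.comp_apply, smul_eq_mul]
  obtain ⟨A, hA⟩ : ∃ A : M →ₗ[ℂ] M, ∀ x, A x =
      x + ∑ g, (∑ h, ((u h : ℚ) : ℂ) * F (μ (h * g⁻¹) x)) • μ g (j w) := by
    refine ⟨LinearMap.id + ∑ g, (∑ h, ((u h : ℚ) : ℂ) • (F ∘ₗ μ (h * g⁻¹))).smulRight
      (μ g (j w)), fun x => ?_⟩
    simp only [LinearMap.add_apply, LinearMap.id_apply, LinearMap.sum_apply,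
      LinearMap.smulRight_apply, LinearMap.smul_apply, LinearMap.comp_apply, smul_eq_mul]
  refine ⟨ξ, A, ?_, ?_, ?_, ?_⟩
  · intro k x
    rw [hξ, hξ, map_add, map_sum]
    congr 1
    rw [← Equiv.sum_comp (Equiv.mulLeft k)]
    refine Finset.sum_congr rfl fun g _ => ?_
    rw [Equiv.coe_mulLeft, map_smul, map_mul τ k g, Module.End.mul_apply]
    congr 1
    refine Finset.sum_congr rfl fun h _ => ?_
    rw [← Module.End.mul_apply, ← map_mul]
    congr 4
    group
  · intro x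
    rw [hA, hξ, map_add, map_sum]
    congr 1
    refine Finset.sum_congr rfl fun g _ => ?_
    rw [hjq, hjτ]
    congr 1
    push_cast
    refine Finset.sum_congr rfl fun h _ => ?_
    rw [← hjτ, hF]
  · intro k x
    rw [hA, hA, map_add, map_sum]
    congr 1
    rw [← Equiv.sum_comp (Equiv.mulLeft k)]
    refine Finset.sum_congr rfl fun g _ => ?_
    rw [Equiv.coe_mulLeft, map_smul, map_mul μ k g, Module.End.mul_apply]
    congr 1
    refine Finset.sum_congr rfl fun h _ => ?_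
    rw [← Module.End.mul_apply, ← map_mul]
    congr 4
    group
  · intro ψ
    obtain ⟨P, hP⟩ : ∃ P : M, P = ∑ g, (((ψ g)⁻¹ : ℂˣ) : ℂ) • μ g (j w) := ⟨_, rfl⟩
    have hP1 : ∀ k, μ k P = ((ψ k : ℂˣ) : ℂ) • P := by
      intro k
      rw [hP, map_sum, Finset.smul_sum]
      conv_rhs => rw [← Equiv.sum_comp (Equiv.mulLeft k)]
      refine Finset.sum_congr rfl fun g _ => ?_
      rw [Equiv.coe_mulLeft, map_smul, smul_smul, map_mul μ k g, Module.End.mul_apply, map_mul]
      congr 1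
      rw [mul_inv, Units.val_mul, ← mul_assoc, ← Units.val_mul, mul_inv_cancel, Units.val_one,
        one_mul]
    refine ⟨F, (∑ h, ((u h : ℚ) : ℂ) * ((ψ h : ℂˣ) : ℂ)) • P, ?_, ?_, ?_⟩
    · intro g
      rw [map_smul, hP1, smul_comm]
    · intro x hx
      rw [hA]
      congr 1
      rw [hP, Finset.smul_sum, Finset.smul_sum]
      refine Finset.sum_congr rfl fun g _ => ?_
      rw [smul_smul, smul_smul]
      congr 1
      rw [Finset.mul_sum, Finset.sum_mul]
      refine Finset.sum_congr rfl fun h _ => ?_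
      rw [hx, map_smul, smul_eq_mul, map_mul, map_inv, Units.val_mul]
      ring
    · rw [map_smul, smul_eq_mul, hP, map_sum]
      congr 1
      refine Finset.sum_congr rfl fun g _ => ?_
      rw [map_smul, smul_eq_mul, ← hjτ, hF]

end StarkC.ABS
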