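import Pool.Agent.ABS.StX

/-!
# ABS, part X, module XTW: conjugate linear characters
-/

set_option autoImplicit false

open NumberField IsDedekindDomain
open scoped TensorProduct Classical

namespace StarkC.ABS

namespace XTWx

theorem fin {G : Type} [Group G] [Finite G] (ψ : G →* ℂˣ) : IsOfFinOrder ψ := by
  rw [isOfFinOrder_iff_pow_eq_one]
  refine ⟨Nat.card G, Nat.card_pos, ?_⟩
  ext g
  rw [MonoidHom.pow_apply, ← map_pow, pow_card_eq_one', map_one, MonoidHom.one_apply]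

theorem twist_eq {G : Type} [Group G] (ψ : G →* ℂˣ) (σ : ℂ ≃+* ℂ) (t : ℕ)
    (h : ∀ z : ℂ, z ^ orderOf ψ = 1 → σ z = z ^ t) : twist σ ψ = ψ ^ t := by
  ext g
  have h1 : ((ψ g : ℂˣ) : ℂ) ^ orderOf ψ = 1 := by
    rw [← Units.val_pow_eq_pow_val, ← MonoidHom.pow_apply, pow_orderOf_eq_one,
      MonoidHom.one_apply, Units.val_one]
  have h2 : ((twist σ ψ g : ℂˣ) : ℂ) = σ ((ψ g : ℂˣ) : ℂ) := rfl
  rw [h2, h _ h1, MonoidHom.pow_apply, Units.val_pow_eq_pow_val]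

theorem zpow_eq {G : Type} [Group G] [Finite G] (ψ : G →* ℂˣ) (t : ℕ)
    (ht : (orderOf ψ).Coprime t) : Subgroup.zpowers (ψ ^ t) = Subgroup.zpowers ψ := by
  have h0 : 0 < orderOf ψ := (fin ψ).orderOf_pos
  have h1 : Nat.card (Subgroup.zpowers ψ) = orderOf ψ := Nat.card_zpowers ψ
  have h2 : Nat.card (Subgroup.zpowers (ψ ^ t)) = orderOf (ψ ^ t) := Nat.card_zpowers _
  have h3 : Finite (Subgroup.zpowers ψ) := Nat.finite_of_card_ne_zero (by omega)
  refine Subgroup.eq_of_le_of_card_ge ?_ ?_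
  · rw [Subgroup.zpowers_le]
    exact Subgroup.pow_mem _ (Subgroup.mem_zpowers ψ) t
  · rw [h1, h2, Nat.Coprime.orderOf_pow ht]

end XTWx

open XTWx in
theorem XTW_thm : Stmt_XTW := by
  intro hS G _ _ ψ
  have h0 : 0 < orderOf ψ := (fin ψ).orderOf_pos
  refine ⟨fun σ => ?_, fun ψ' hψ' => ?_⟩
  · have hζ := Complex.isPrimitiveRoot_exp (orderOf ψ) h0.ne'
    set ζ : ℂ := Complex.exp (2 * Real.pi * Complex.I / (orderOf ψ : ℂ)) with hdef
    have h1 : IsPrimitiveRoot (σ ζ) (orderOf ψ) := hζ.map_of_injective σ.injective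
    have : NeZero (orderOf ψ) := ⟨h0.ne'⟩
    obtain ⟨t, ht, hc, he⟩ := hζ.isPrimitiveRoot_iff.1 h1
    have h2 : ∀ z : ℂ, z ^ orderOf ψ = 1 → σ z = z ^ t := by
      intro z hz
      obtain ⟨i, -, rfl⟩ := hζ.eq_pow_of_pow_eq_one hz
      rw [map_pow, ← he, ← pow_mul, ← pow_mul, mul_comm]
    have h3 := twist_eq ψ σ t h2
    refine ⟨t, ?_, h2, h3, ?_⟩
    · rw [Ex, Finset.mem_filter, Finset.mem_range]
      exact ⟨ht, hc.symm⟩
    · rw [h3]
      exact zpow_eq ψ t hc.symm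
  · have h1 : ψ' ∈ Submonoid.powers ψ := by
      rw [(fin ψ).mem_powers_iff_mem_zpowers, ← hψ']
      exact Subgroup.mem_zpowers ψ'
    obtain ⟨s, hs⟩ := h1
    have hs : ψ ^ s = ψ' := hs
    have h2 : ψ ^ (s % orderOf ψ) = ψ' := by rw [pow_mod_orderOf, hs]
    have h3 : orderOf ψ' = orderOf ψ := by
      rw [← Nat.card_zpowers ψ', hψ', Nat.card_zpowers]
    have h4 : (orderOf ψ).Coprime (s % orderOf ψ) := by
      rw [← h2, (fin ψ).orderOf_pow] at h3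
      rcases Nat.div_eq_self.1 h3 with h5 | h5
      · omega
      · exact h5
    obtain ⟨σ, hσ⟩ := hS (orderOf ψ) (s % orderOf ψ) h0 h4
    refine ⟨s % orderOf ψ, ?_, h2.symm, σ, hσ, ?_⟩
    · rw [Ex, Finset.mem_filter, Finset.mem_range]
      exact ⟨Nat.mod_lt _ h0, h4⟩
    · rw [twist_eq ψ σ _ hσ, h2]

end StarkC.ABS
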