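import Pool.Agent.ABS.StX

/-!
# Project ABS (MP_46b841_nt), module XVL (helper55): values of linear characters of order dividing
`2 ℓ^k`
-/

set_option autoImplicit false

open NumberField IsDedekindDomain
open scoped TensorProduct Classical

namespace StarkC.ABS

open StarkP (rootField)

namespace XVLx

theorem fin_root (n : ℕ) (hn : 0 < n) : FiniteDimensional ℚ (rootField n) := by
  have : NeZero n := ⟨hn.ne'⟩
  have h := IntermediateField.isCyclotomicExtension_adjoin_of_exists_isPrimitiveRoot {n} ℚ ℂ (by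
    intro m hm hm0
    exact ⟨_, Complex.isPrimitiveRoot_exp m hm0⟩)
  have e : {b : ℂ | ∃ m ∈ ({n} : Set ℕ), m ≠ 0 ∧ b ^ m = 1} = {z : ℂ | z ^ n = 1} := by
    ext z
    simp [hn.ne']
  rw [e] at h
  have h1 : IsCyclotomicExtension {n} ℚ (rootField n) := h
  exact IsCyclotomicExtension.finiteDimensional {n} ℚ _

/-- the orders -/
theorem orders (ℓ k o : ℕ) (hℓ : ℓ.Prime) (ho : o ∣ 2 * ℓ ^ k) :
    (∃ j, OkOrd 2 j ∧ o = 2 ^ j) ∨ IsCyclic (ZMod o)ˣ := by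
  by_cases h2 : ℓ = 2
  · subst h2
    rw [← pow_succ'] at ho
    obtain ⟨j, -, rfl⟩ := (Nat.dvd_prime_pow Nat.prime_two).1 ho
    rcases le_or_gt j 2 with h | h
    · exact Or.inr ((ZMod.isCyclic_units_two_pow_iff j).2 h)
    · refine Or.inl ⟨j, ⟨Nat.prime_two, by omega, ?_⟩, rfl⟩
      calc 2 < 2 ^ 2 := by norm_num
        _ ≤ 2 ^ j := Nat.pow_le_pow_right (by norm_num) h.le
  · right
    obtain ⟨y, z, hy, hz, rfl⟩ := (Nat.dvd_mul).1 ho
    obtain ⟨i, -, rfl⟩ := (Nat.dvd_prime_pow hℓ).1 hz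
    have hodd : Odd (ℓ ^ i) := (hℓ.odd_of_ne_two h2).pow
    rcases (Nat.dvd_prime Nat.prime_two).1 hy with rfl | rfl
    · rw [one_mul]
      exact ZMod.isCyclic_units_of_prime_pow ℓ hℓ h2 i
    · exact (ZMod.isCyclic_units_two_mul_iff_of_odd _ hodd).2
        (ZMod.isCyclic_units_of_prime_pow ℓ hℓ h2 i)

end XVLx

open XVLx in
theorem XVL_thm : Stmt_XVL := by
  intro h1 hV hX K L _ _ _ _ _ _ ℓ k ψ S hℓ ho
  have ho0 : 0 < orderOf ψ :=
    Nat.pos_of_dvd_of_pos ho (Nat.mul_pos (by norm_num) (Nat.pow_pos hℓ.pos))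
  rcases orders ℓ k (orderOf ψ) hℓ ho with ⟨j, hj, hoj⟩ | hc
  · have h := h1 K L 2 j ψ S hj hoj
    rwa [← hoj] at h
  · intro φ Θ hφ
    obtain ⟨F, x, hF, hx, ⟨a, ha, hxa, hE⟩, hreg⟩ := hV K L ψ S φ Θ hφ
    obtain ⟨hG, hcy⟩ := hX (orderOf ψ) (orderOf ψ) ho0 dvd_rfl hc
    obtain ⟨β, hβ⟩ := hE (rootField (orderOf ψ)) le_rfl hG hcy
    have hfd := fin_root (orderOf ψ) ho0
    have hβ0 : β ≠ 0 := by
      rintro rfl
      rw [Algebra.norm_zero] at hβ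
      exact ha hβ.symm
    refine ⟨F, β, hF, hβ0, ?_⟩
    rw [hreg, hxa, ← hβ]
    rfl

end StarkC.ABS
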