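import Pool.Agent.ABS.StX

/-!
# Project ABS, module XVN (helper46): the values of all linear characters as norms
-/

set_option autoImplicit false

open NumberField IsDedekindDomain
open scoped TensorProduct Classical

namespace StarkC.ABS

open StarkP (rootField)

namespace XVNx

theorem finDim (n : ℕ) (hn : 0 < n) : FiniteDimensional ℚ (Cyc n) := by
  have h1 : Finite {z : ℂ | z ^ n = 1} := by
    have h3 : {z : ℂ | z ^ n = 1} = ((Polynomial.nthRootsFinset n (1 : ℂ) : Finset ℂ) : Set ℂ) := by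
      ext z
      rw [Set.mem_ofPred_eq, Finset.mem_coe, Polynomial.mem_nthRootsFinset hn]
    rw [h3]
    exact (Finset.finite_toSet _).to_subtype
  refine IntermediateField.finiteDimensional_adjoin fun z hz => ?_
  refine ⟨Polynomial.X ^ n - Polynomial.C 1, Polynomial.monic_X_pow_sub_C 1 hn.ne', ?_⟩
  have hz' : z ^ n = 1 := hz
  simp [hz']

theorem nm_ne (n : ℕ) (hn : 0 < n) (α : Cyc n) (hα : α ≠ 0) : nm n α ≠ 0 := by
  have := finDim n hn
  have h : Algebra.norm ℚ α ≠ 0 := Algebra.norm_ne_zero_iff.2 hα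
  unfold nm
  exact_mod_cast h

section Lift

variable {K L : Type} [Field K] [NumberField K] [Field L] [NumberField L] [Algebra K L]

/-- the restriction to the full subgroup -/
noncomputable def res {G : Type} [Group G] (ψ : G →* ℂˣ) : (⊤ : Subgroup G) →* ℂˣ :=
  ψ.comp (⊤ : Subgroup G).subtype

theorem res_pow_eq_one {G : Type} [Group G] (ψ : G →* ℂˣ) (n : ℕ) : res ψ ^ n = 1 ↔ ψ ^ n = 1 := by
  constructor
  · intro h
    refine MonoidHom.ext fun a => ?_
    exact DFunLike.congr_fun h ⟨a, Subgroup.mem_top a⟩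
  · intro h
    refine MonoidHom.ext fun a => ?_
    exact DFunLike.congr_fun h (a : G)

theorem lift_pow_eq_one (H : Subgroup (L ≃ₐ[K] L)) (ψ : H →* ℂˣ) (n : ℕ) :
    liftChar H ψ ^ n = 1 ↔ ψ ^ n = 1 := by
  constructor
  · intro h
    refine MonoidHom.ext fun a => ?_
    have h1 := DFunLike.congr_fun h (IntermediateField.subgroupEquivAlgEquiv H a)
    have h2 : ((liftChar H ψ) ^ n) (IntermediateField.subgroupEquivAlgEquiv H a) = (ψ ^ n) a := by
      show (ψ ((IntermediateField.subgroupEquivAlgEquiv H).symm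
        (IntermediateField.subgroupEquivAlgEquiv H a))) ^ n = (ψ a) ^ n
      rw [MulEquiv.symm_apply_apply]
    rw [h2] at h1
    exact h1
  · intro h
    refine MonoidHom.ext fun g => ?_
    have h1 := DFunLike.congr_fun h ((IntermediateField.subgroupEquivAlgEquiv H).symm g)
    exact h1

theorem order_lift (ψ : (L ≃ₐ[K] L) →* ℂˣ) :
    orderOf (liftChar (⊤ : Subgroup (L ≃ₐ[K] L)) (res ψ)) = orderOf ψ :=
  orderOf_eq_orderOf_iff.2 fun n => (lift_pow_eq_one _ _ n).trans (res_pow_eq_one ψ n)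

end Lift

theorem ind_top {G : Type} [Group G] [Fintype G] (ψ : G →* ℂˣ) (t : ℕ) (g : G) :
    indFun (⊤ : Subgroup G) (extZ (res ψ ^ t)) g = ((ψ g : ℂˣ) : ℂ) ^ t := by
  unfold indFun
  have hc : (Fintype.card G : ℂ) ≠ 0 := by
    exact_mod_cast Fintype.card_ne_zero
  have h1 : ∀ x : G, extZ (res ψ ^ t) (x⁻¹ * g * x) = ((ψ g : ℂˣ) : ℂ) ^ t := fun x => by
    unfold extZ
    rw [dif_pos (Subgroup.mem_top _), MonoidHom.pow_apply, Units.val_pow_eq_pow_val]
    congr 2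
    show ψ (x⁻¹ * g * x) = ψ g
    rw [map_mul, map_mul, map_inv, mul_comm, mul_inv_cancel_left]
  rw [Finset.sum_congr rfl fun x (_ : x ∈ Finset.univ) =>
    (if_pos (Subgroup.mem_top (x⁻¹ * g * x))).trans (h1 x)]
  rw [Finset.sum_const, Finset.card_univ, nsmul_eq_mul]
  have h2 : (Nat.card (⊤ : Subgroup G) : ℂ) = (Fintype.card G : ℂ) := by
    rw [Subgroup.card_top, Nat.card_eq_fintype_card]
  rw [h2, mul_div_cancel_left₀ _ hc]

theorem order_dvd {G : Type} [Group G] (ψ : G →* ℂˣ) (n : ℕ) (h : ∀ g : G, g ^ n = 1) :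
    orderOf ψ ∣ n := by
  refine orderOf_dvd_of_pow_eq_one (MonoidHom.ext fun g => ?_)
  rw [MonoidHom.pow_apply, ← map_pow, h g, map_one, MonoidHom.one_apply]

end XVNx

open XVNx in
/-- module XVN -/
theorem XVN_thm : Stmt_XVN := by
  intro hPCX hNO K L _ _ _ _ _ _ ℓ k S φ Θ m ψ hφ hℓ hexp
  have hn : 0 < 2 * ℓ ^ k := Nat.mul_pos two_pos (pow_pos hℓ.pos k)
  have hdvd : ∀ i, orderOf (ψ i) ∣ 2 * ℓ ^ k := fun i => order_dvd (ψ i) _ hexp
  have hpos : ∀ i, 0 < orderOf (ψ i) := fun i => Nat.pos_of_dvd_of_pos (hdvd i) hn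
  obtain ⟨x, hx, h⟩ := hPCX K L S φ Θ m (fun _ => ⊤) (fun i => orderOf (ψ i))
    (fun i => res (ψ i)) (fun i z => ∃ α : Cyc (orderOf (ψ i)), α ≠ 0 ∧ z = nm (orderOf (ψ i)) α)
    hφ (fun i S' => by
      intro φ' Θ' hφ'
      have h1 := hNO (IntermediateField.fixedField (⊤ : Subgroup (L ≃ₐ[K] L))) L ℓ k
        (liftChar (⊤ : Subgroup (L ≃ₐ[K] L)) (res (ψ i))) S' hℓ
        (by rw [order_lift]; exact hdvd i)
      rw [order_lift] at h1
      obtain ⟨F, α, hF, hα, hR⟩ := h1 φ' Θ' hφ'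
      exact ⟨F, nm (orderOf (ψ i)) α, hF, nm_ne _ (hpos i) α hα, ⟨α, hα, rfl⟩, hR⟩)
  choose hx0 α hα0 hα using hx
  refine ⟨α, hα0, fun c θ hθ => ?_⟩
  obtain ⟨F, hF, hR⟩ := h (fun i => (c i : ℤ)) θ (fun g => by
    rw [hθ g]
    refine Finset.sum_congr rfl fun i _ => ?_
    rw [Int.cast_natCast]
    congr 1
    unfold cSum
    exact Finset.sum_congr rfl fun t _ => (ind_top (ψ i) t g).symm)
  refine ⟨F, hF, fun V _ _ _ ρ hρ => ?_⟩
  rw [hR V ρ hρ]
  congr 1
  refine Finset.prod_congr rfl fun i _ => ?_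
  rw [zpow_natCast, hα i]
  rfl

end StarkC.ABS
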