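import Pool.Agent.ABS.StX

/-!
# XXI: the automorphism with given determinants on the eigenspaces
-/

set_option autoImplicit false

open NumberField IsDedekindDomain
open scoped TensorProduct Classical

namespace StarkC.ABS

namespace XXIx

theorem twist_inv_apply {G : Type} [Group G] (σ : ℂ ≃+* ℂ) (ψ : G →* ℂˣ) (g : G) :
    σ (((ψ g)⁻¹ : ℂˣ) : ℂ) = (((twist σ ψ g)⁻¹ : ℂˣ) : ℂ) := by
  rw [Units.val_inv_eq_inv_val, Units.val_inv_eq_inv_val, map_inv₀]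
  rfl

theorem inj {W M : Type} [AddCommGroup W] [Module ℚ W] [AddCommGroup M] [Module ℂ M]
    (j : W →+ M) (n : ℕ) (b : Module.Basis (Fin n) ℚ W) (c : Module.Basis (Fin n) ℂ M)
    (hjb : ∀ i, j (b i) = c i) (hjq : ∀ (q : ℚ) (x : W), j (q • x) = (q : ℂ) • j x) :
    Function.Injective j := by
  rw [injective_iff_map_eq_zero]
  intro x hx
  have h1 : j x = ∑ i, ((b.repr x i : ℚ) : ℂ) • c i := by
    conv_lhs => rw [← b.sum_repr x]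
    rw [map_sum]
    exact Finset.sum_congr rfl fun i _ => by rw [hjq, hjb]
  rw [hx] at h1
  have h2 := Fintype.linearIndependent_iff.1 c.linearIndependent _ h1.symm
  have h3 : b.repr x = 0 := by
    ext i
    exact_mod_cast h2 i
  exact (b.repr.map_eq_zero_iff).1 h3

end XXIx

open XXIx in
theorem XXI_thm : Stmt_XXI := by
  intro hFIXC hXDU hXNZ hXFO hXBW hXTR hXIN G W M _ _ _ _ _ _ τ μ j n b c hjb hjq hjg hcomm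
    a ha0 haσ haocc
  obtain ⟨w, f, hwf⟩ := hXBW hXNZ hXDU G W M τ μ j n b c hjb hjq hjg {ψ | a ψ ≠ 1}
    (fun ψ hψ => haocc ψ hψ)
  have hβσ : ∀ (σ : ℂ ≃+* ℂ) (ψ : G →* ℂˣ),
      σ (∑ g, (((ψ g)⁻¹ : ℂˣ) : ℂ) * ((f (τ g w) : ℚ) : ℂ)) =
        ∑ g, (((twist σ ψ g)⁻¹ : ℂˣ) : ℂ) * ((f (τ g w) : ℚ) : ℂ) := by
    intro σ ψ
    rw [map_sum]
    refine Finset.sum_congr rfl fun g _ => ?_
    rw [map_mul, twist_inv_apply, map_ratCast]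
  have hcβ : ∀ ψ : G →* ℂˣ,
      (a ψ - 1) / (∑ g, (((ψ g)⁻¹ : ℂˣ) : ℂ) * ((f (τ g w) : ℚ) : ℂ)) *
        (∑ g, (((ψ g)⁻¹ : ℂˣ) : ℂ) * ((f (τ g w) : ℚ) : ℂ)) = a ψ - 1 := by
    intro ψ
    by_cases h : a ψ = 1
    · rw [h]; simp
    · exact div_mul_cancel₀ _ (hwf ψ h)
  obtain ⟨u, hu⟩ := hXFO hFIXC hXDU G
    (fun ψ => (a ψ - 1) / (∑ g, (((ψ g)⁻¹ : ℂˣ) : ℂ) * ((f (τ g w) : ℚ) : ℂ))) (by
      intro σ ψ
      show σ ((a ψ - 1) / (∑ g, (((ψ g)⁻¹ : ℂˣ) : ℂ) * ((f (τ g w) : ℚ) : ℂ))) =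
        (a (twist σ ψ) - 1) / (∑ g, (((twist σ ψ g)⁻¹ : ℂˣ) : ℂ) * ((f (τ g w) : ℚ) : ℂ))
      rw [map_div₀, map_sub, map_one, haσ, hβσ])
  obtain ⟨ξ, A, hξτ, hAj, hAμ, hF⟩ := hXTR G W M τ μ j n b c hjb hjq hjg u w f
  have hF' : ∀ ψ : G →* ℂˣ, ∃ (F : M →ₗ[ℂ] ℂ) (v : M), (∀ g, μ g v = ((ψ g : ℂˣ) : ℂ) • v) ∧
      (∀ x, (∀ g, μ g x = ((ψ g : ℂˣ) : ℂ) • x) → A x = x + F x • v) ∧ 1 + F v = a ψ := by
    intro ψ
    obtain ⟨F, v, h1, h2, h3⟩ := hF ψ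
    refine ⟨F, v, h1, h2, ?_⟩
    rw [h3, hu ψ]
    show 1 + (a ψ - 1) / (∑ g, (((ψ g)⁻¹ : ℂˣ) : ℂ) * ((f (τ g w) : ℚ) : ℂ)) *
        (∑ g, (((ψ g)⁻¹ : ℂˣ) : ℂ) * ((f (τ g w) : ℚ) : ℂ)) = a ψ
    rw [hcβ]; ring
  have : Module.Finite ℂ M := Module.Finite.of_basis c
  have : Module.Finite ℚ W := Module.Finite.of_basis b
  have hbij : Function.Bijective A := hXIN hXDU G M μ A hcomm hAμ (fun ψ => by
    obtain ⟨F, v, _, h2, h3⟩ := hF' ψ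
    exact ⟨F, v, h2, by rw [h3]; exact ha0 ψ⟩)
  have hξ : Function.Injective ξ := by
    intro x y hxy
    apply inj j n b c hjb hjq
    apply hbij.1
    rw [hAj, hAj, hxy]
  exact ⟨LinearEquiv.ofInjectiveEndo ξ hξ, A, hξτ, hAj, hAμ, hbij, hF'⟩

end StarkC.ABS
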