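import Pool.Agent.ABS.FINU
import Pool.Agent.ABS.XDU
import Pool.Agent.ABS.XTW
import Pool.Agent.ABS.XCL
import Pool.Agent.ABS.XFO
import Pool.Agent.ABS.XFA
import Pool.Agent.ABS.XRA
import Pool.Agent.ABS.XRO
import Pool.Agent.ABS.XNZ
import Pool.Agent.ABS.XBW
import Pool.Agent.ABS.XTR
import Pool.Agent.ABS.XIN
import Pool.Agent.ABS.XXI
import Pool.Agent.ABS.XRG
import Pool.Agent.ABS.XRS
import Pool.Agent.ABS.XEV
import Pool.Agent.ABS.XPH
import Pool.Agent.ABS.XCY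
import Pool.Agent.ABS.XVL
import Pool.Agent.ABS.XVN
import Pool.Agent.ABS.XFI

/-!
# Project ABS, part X: the theorem
-/

set_option autoImplicit false

open NumberField IsDedekindDomain
open scoped TensorProduct Classical

namespace StarkC.ABS

namespace FINXx

open FINUx FINFx

theorem conclNO : ConclNO := XVL_thm concl1 conclV XCY_thm

theorem conclXI : ConclXI :=
  XXI_thm FIXC_thm XDU_thm XNZ_thm XFO_thm XBW_thm XTR_thm XIN_thm

theorem conclXP : ConclXP := XPH_thm XRG_thm conclXI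

theorem conclX : ConclX :=
  XFI_thm SIGT_thm NORMT_thm PCX_thm conclNO XVN_thm XDU_thm (XTW_thm) XCL_thm
    XRA_thm XRO_thm XFA_thm XRS_thm XEV_thm conclXP

end FINXx

open FINXx

/-- THEOREM (X): one `φ` for all rational-valued characters of an abelian extension of exponent dividing
`2ℓ^k`. -/
theorem finalX (K L : Type) [Field K] [NumberField K] [Field L] [NumberField L] [Algebra K L]
    [IsGalois K L] (ℓ k : ℕ) (S : Finset (HeightOneSpectrum (𝓞 K)))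
    (hab : ∀ g h : L ≃ₐ[K] L, g * h = h * g) (hℓ : ℓ.Prime)
    (hg : ∀ g : L ≃ₐ[K] L, g ^ (2 * ℓ ^ k) = 1) :
    ∃ Θ : ((L → ℝ) →₀ ℂ) →ₗ[ℂ] ((L → ℝ) →₀ ℂ),
      StarkP.IsTheta K (StarkP.aboveSet K L S) Θ ∧
      ∀ (V : Type) [AddCommGroup V] [Module ℂ V] [Module.Finite ℂ V]
        (ρ : Representation ℂ (L ≃ₐ[K] L) V), StarkP.Occurs (StarkP.aboveSet K L S) ρ →
        (∀ g, ∃ q : ℚ, ρ.character g = (q : ℂ)) →
        ∃ F : ℂ → ℂ, StarkP.IsArtinL ρ.character (S : Set (HeightOneSpectrum (𝓞 K))) F ∧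
          StarkP.Reg (StarkP.aboveSet K L S) ρ Θ = meromorphicTrailingCoeffAt F 0 := by
  obtain ⟨φ, Θ₀, hφ, h⟩ := conclX K L ℓ k S hab hℓ hg
  obtain ⟨Θ, hΘ, hreg⟩ := StarkB.exists_isTheta (K := K) (L := L)
    (S : Set (HeightOneSpectrum (𝓞 K))) S.finite_toSet φ Θ₀ hφ
  refine ⟨Θ, hΘ, fun V _ _ _ ρ hρ hq => ?_⟩
  obtain ⟨F, hF, hR⟩ := h V ρ hρ hq
  exact ⟨F, ⟨hF.1, hF.2⟩, (hreg V ρ).trans hR⟩

end StarkC.ABS
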