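import Pool.Agent.ABS.StY

/-!
# Project ABS, module YCH: a complete set of good pairs
-/

set_option autoImplicit false

open scoped Classical

namespace StarkC.ABS

namespace YCHx

theorem extZ_twist {G : Type} [Group G] {H : Subgroup G} (σ : ℂ ≃+* ℂ) (ψ : H →* ℂˣ) (g : G) :
    extZ (twist σ ψ) g = σ (extZ ψ g) := by
  unfold extZ
  split_ifs with h
  · simp [twist]
  · simp

theorem ch_tw {G : Type} [Group G] [Fintype G] (σ : ℂ ≃+* ℂ) (p : Pr G) (g : G) :
    ch (tw σ p) g = σ (ch p g) := by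
  unfold ch tw indFun
  rw [map_div₀, map_sum, map_natCast]
  congr 1
  refine Finset.sum_congr rfl fun x _ => ?_
  simp only [extZ_twist]
  split_ifs
  · rfl
  · simp

theorem tw_tw {G : Type} [Group G] (σ σ' : ℂ ≃+* ℂ) (p : Pr G) :
    tw σ (tw σ' p) = tw (σ'.trans σ) p := by
  unfold tw
  rfl

theorem tw_refl {G : Type} [Group G] (p : Pr G) : tw (RingEquiv.refl ℂ) p = p := by
  obtain ⟨H, ψ⟩ := p
  unfold tw
  congr 1

/-- `twist σ` as a homomorphism. -/
noncomputable def twH {G : Type} [Group G] (σ : ℂ ≃+* ℂ) : (G →* ℂˣ) →* (G →* ℂˣ) where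
  toFun := twist σ
  map_one' := by
    ext g
    simp [twist]
  map_mul' a b := by
    ext g
    simp [twist]

theorem twH_inj {G : Type} [Group G] (σ : ℂ ≃+* ℂ) :
    Function.Injective (twH (G := G) σ) := by
  intro a b h
  ext g
  have h1 := DFunLike.congr_fun h g
  have h2 : σ ((a g : ℂˣ) : ℂ) = σ ((b g : ℂˣ) : ℂ) := by
    have h3 := congrArg (fun u : ℂˣ => (u : ℂ)) h1
    simpa [twH, twist] using h3
  exact σ.injective h2

theorem order_tw {G : Type} [Group G] (σ : ℂ ≃+* ℂ) (p : Pr G) :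
    orderOf (tw σ p).2 = orderOf p.2 :=
  orderOf_injective (twH σ) (twH_inj σ) p.2

theorem ip_tw {G : Type} [Group G] [Fintype G] (σ : ℂ ≃+* ℂ) (p q : Pr G) :
    ip (ch (tw σ p)) (ch (tw σ q)) = σ (ip (ch p) (ch q)) := by
  unfold ip
  rw [map_sum]
  refine Finset.sum_congr rfl fun g _ => ?_
  rw [ch_tw, ch_tw, map_mul]

theorem good_tw {G : Type} [Group G] [Fintype G] (σ : ℂ ≃+* ℂ) (p : Pr G) (h : GoodP p) :
    GoodP (tw σ p) := by
  obtain ⟨h1, h2, h3⟩ := h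
  refine ⟨?_, ?_, ?_⟩
  · rw [ip_tw, h1, map_natCast]
  · intro σ' h4
    have h5 : tw ((σ.trans σ').trans σ.symm) p = p := by
      apply h2
      intro g
      have h6 := h4 g
      rw [ch_tw] at h6
      change σ.symm (σ' (σ (ch p g))) = ch p g
      rw [h6, RingEquiv.symm_apply_apply]
    have h7 : tw σ' (tw σ p) = tw σ (tw ((σ.trans σ').trans σ.symm) p) := by
      rw [tw_tw, tw_tw]
      congr 1
      ext z
      simp
    rw [h7, h5]
  · obtain ⟨l, k, h4, h5⟩ := h3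
    exact ⟨l, k, h4, by rw [order_tw]; exact h5⟩

/-- The equivalence of good pairs: conjugate characters. -/
def st (G : Type) [Group G] [Fintype G] : Setoid {q : Pr G // GoodP q} where
  r q q' := ∃ σ : ℂ ≃+* ℂ, ∀ g, ch q'.1 g = σ (ch q.1 g)
  iseqv := by
    refine ⟨?_, ?_, ?_⟩
    · intro q
      exact ⟨RingEquiv.refl ℂ, fun g => rfl⟩
    · rintro q q' ⟨σ, h⟩
      refine ⟨σ.symm, fun g => ?_⟩
      rw [h g, RingEquiv.symm_apply_apply]
    · rintro q q' q'' ⟨σ, h⟩ ⟨σ', h'⟩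
      refine ⟨σ.trans σ', fun g => ?_⟩
      rw [h' g, h g]
      rfl

/-- The representative. -/
noncomputable def rp (G : Type) [Group G] [Fintype G] (q : Pr G) : Pr G :=
  if h : GoodP q then (Quotient.out (Quotient.mk (st G) ⟨q, h⟩)).1 else q

theorem rp_good {G : Type} [Group G] [Fintype G] {q : Pr G} (h : GoodP q) : GoodP (rp G q) := by
  unfold rp
  rw [dif_pos h]
  exact (Quotient.out (Quotient.mk (st G) ⟨q, h⟩)).2

theorem rp_rel {G : Type} [Group G] [Fintype G] {q : Pr G} (h : GoodP q) :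
    ∃ σ : ℂ ≃+* ℂ, ∀ g, ch q g = σ (ch (rp G q) g) := by
  have h1 : (st G).r (Quotient.out (Quotient.mk (st G) ⟨q, h⟩)) ⟨q, h⟩ :=
    Quotient.exact (Quotient.out_eq (Quotient.mk (st G) ⟨q, h⟩))
  obtain ⟨σ, h2⟩ := h1
  refine ⟨σ, fun g => ?_⟩
  unfold rp
  rw [dif_pos h]
  exact h2 g

theorem rp_eq {G : Type} [Group G] [Fintype G] {q q' : Pr G} (h : GoodP q) (h' : GoodP q')
    (hr : ∃ σ : ℂ ≃+* ℂ, ∀ g, ch q' g = σ (ch q g)) : rp G q = rp G q' := by
  have h1 : Quotient.mk (st G) ⟨q, h⟩ = Quotient.mk (st G) ⟨q', h'⟩ := Quotient.sound hr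
  unfold rp
  rw [dif_pos h, dif_pos h', h1]

theorem rp_rp {G : Type} [Group G] [Fintype G] {q : Pr G} (h : GoodP q) :
    rp G (rp G q) = rp G q :=
  rp_eq (rp_good h) h (rp_rel h)

theorem rp_tw {G : Type} [Group G] [Fintype G] (σ : ℂ ≃+* ℂ) {q : Pr G} (h : GoodP q) :
    rp G (tw σ q) = rp G q :=
  (rp_eq h (good_tw σ q h) ⟨σ, fun g => ch_tw σ q g⟩).symm

end YCHx

open YCHx in
theorem YCH_thm : Stmt_YCH := by
  intro hXDU hM1 hM2 hMK G _ _
  have fin0 : ∀ H : Subgroup G, Finite (H →* ℂˣ) := fun H => (hXDU H).1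
  haveI : Finite (Pr G) := by
    unfold Pr
    infer_instance
  have hfin : Set.Finite {p : Pr G | ∃ (q : Pr G) (σ : ℂ ≃+* ℂ), GoodP q ∧ p = tw σ (rp G q)} :=
    Set.toFinite _
  have hP : ∀ p, p ∈ hfin.toFinset ↔ ∃ (q : Pr G) (σ : ℂ ≃+* ℂ), GoodP q ∧ p = tw σ (rp G q) := by
    intro p
    simp
  have hgood : ∀ p ∈ hfin.toFinset, GoodP p := by
    intro p hp
    obtain ⟨q, σ, h1, rfl⟩ := (hP p).1 hp
    exact good_tw σ _ (rp_good h1)
  refine ⟨hfin.toFinset, rp G, hgood, ⟨?_, ?_⟩, ?_, ?_⟩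
  · intro p hp σ'
    obtain ⟨q, σ, h1, rfl⟩ := (hP p).1 hp
    exact (hP _).2 ⟨q, σ.trans σ', h1, tw_tw σ' σ (rp G q)⟩
  · intro p hp p' hp' g hA
    obtain ⟨hK1, hK2, -⟩ := hMK hM1 hM2 G p p' (hgood p hp).1 (hgood p' hp').1
    have hch : ch p = ch p' := hK2 g hA
    have heq : p = p' := by
      obtain ⟨q, σ, h1, h2⟩ := (hP p).1 hp
      obtain ⟨q', σ', h1', h2'⟩ := (hP p').1 hp'
      have e1 : rp G p = rp G q := by
        rw [h2, rp_tw σ (rp_good h1), rp_rp h1]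
      have e2 : rp G p' = rp G q' := by
        rw [h2', rp_tw σ' (rp_good h1'), rp_rp h1']
      have e3 : rp G p = rp G p' := by
        apply rp_eq (hgood p hp) (hgood p' hp')
        exact ⟨RingEquiv.refl ℂ, fun g => by rw [hch]; rfl⟩
      have e4 : rp G q = rp G q' := by rw [← e1, ← e2, e3]
      have e5 : tw (σ.trans σ'.symm) (rp G q) = rp G q := by
        apply (rp_good h1).2.1
        intro g
        have h3 := congrFun hch g
        rw [h2, h2', ch_tw, ch_tw, ← e4] at h3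
        change σ'.symm (σ (ch (rp G q) g)) = _
        rw [h3, RingEquiv.symm_apply_apply]
      calc p = tw σ (rp G q) := h2
        _ = tw σ' (tw (σ.trans σ'.symm) (rp G q)) := by
          rw [tw_tw]
          congr 1
          ext z
          simp
        _ = tw σ' (rp G q) := by rw [e5]
        _ = p' := by rw [e4, ← h2']
    refine ⟨heq, ?_⟩
    rw [← heq] at hA
    exact hK1 g hA
  · intro p hp
    obtain ⟨q, σ, h1, h2⟩ := (hP p).1 hp
    have e1 : rp G p = rp G q := by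
      rw [h2, rp_tw σ (rp_good h1), rp_rp h1]
    refine ⟨?_, ?_, ?_⟩
    · refine (hP _).2 ⟨q, RingEquiv.refl ℂ, h1, ?_⟩
      rw [tw_refl, e1]
    · exact ⟨σ, by rw [e1, ← h2]⟩
    · intro σ'
      exact rp_tw σ' (hgood p hp)
  · intro q hq
    obtain ⟨σ, h1⟩ := rp_rel hq
    refine ⟨tw σ (rp G q), (hP _).2 ⟨q, σ, hq, rfl⟩, ?_⟩
    funext g
    rw [ch_tw, h1 g]

end StarkC.ABS
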