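import Pool.Agent.ABS.StY

/-!
# ABS (MP_46b841_nt), part Y: YCL, sums over the classes of conjugate pairs
-/

set_option autoImplicit false

open scoped Classical

namespace StarkC.ABS

namespace YCLx

variable {G : Type} [Group G]

/-- the conjugate character is the power -/
theorem twist_eq (σ : ℂ ≃+* ℂ) (ψ : G →* ℂˣ) (t : ℕ)
    (h : ∀ z : ℂ, z ^ orderOf ψ = 1 → σ z = z ^ t) : twist σ ψ = ψ ^ t := by
  ext g
  change σ ((ψ g : ℂˣ) : ℂ) = (((ψ ^ t) g : ℂˣ) : ℂ)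
  have h1 : ((ψ g : ℂˣ) : ℂ) ^ orderOf ψ = 1 := by
    rw [← Units.val_pow_eq_pow_val, ← MonoidHom.pow_apply, pow_orderOf_eq_one]
    rfl
  rw [h _ h1, MonoidHom.pow_apply, Units.val_pow_eq_pow_val]

/-- the conjugate pair is the power -/
theorem tw_eq (σ : ℂ ≃+* ℂ) (p : Pr G) (t : ℕ) (h : twist σ p.2 = p.2 ^ t) :
    tw σ p = pw p t := by
  unfold tw pw
  rw [h]

theorem pw_inj (p : Pr G) {t t' : ℕ} (h : pw p t = pw p t') : p.2 ^ t = p.2 ^ t' := by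
  unfold pw at h
  exact eq_of_heq (Sigma.mk.inj h).2

end YCLx

open YCLx in
theorem YCL_thm : Stmt_YCL := by
  intro hS hX G _ _ P r f hP hr
  have hrr : ∀ p ∈ P, r (r p) = r p := by
    intro p hp
    obtain ⟨hrp, ⟨σ, hσ⟩, _⟩ := hr p hp
    obtain ⟨_, _, h3⟩ := hr (r p) hrp
    rw [← h3 σ, hσ]
  have hmaps : ∀ p ∈ P, r p ∈ P.filter (fun p => r p = p) :=
    fun p hp => Finset.mem_filter.2 ⟨(hr p hp).1, hrr p hp⟩
  rw [← Finset.sum_fiberwise_of_maps_to hmaps]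
  refine Finset.sum_congr rfl fun q hq => ?_
  obtain ⟨hqP, hq'⟩ := Finset.mem_filter.1 hq
  have hXq := (hX hS q.1 q.2).1
  symm
  refine Finset.sum_bij (fun t _ => pw q t) ?_ ?_ ?_ (fun _ _ => rfl)
  · intro t ht
    obtain ⟨h1, h2⟩ := Finset.mem_filter.1 ht
    obtain ⟨σ, hσ⟩ := hS (orderOf q.2) t (by have := Finset.mem_range.1 h1; omega) h2
    have h3 : tw σ q = pw q t := tw_eq σ q t (twist_eq σ q.2 t hσ)
    rw [← h3]
    refine Finset.mem_filter.2 ⟨hP q hqP σ, ?_⟩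
    rw [(hr q hqP).2.2 σ, hq']
  · intro t ht t' ht' h
    exact pow_injOn_Iio_orderOf (Finset.mem_range.1 (Finset.mem_filter.1 ht).1)
      (Finset.mem_range.1 (Finset.mem_filter.1 ht').1) (pw_inj q h)
  · intro p hp
    obtain ⟨hpP, hpq⟩ := Finset.mem_filter.1 hp
    obtain ⟨_, ⟨σ, hσ⟩, _⟩ := hr p hpP
    rw [hpq] at hσ
    obtain ⟨t, ht, _, h2, _⟩ := hXq σ
    refine ⟨t, ht, ?_⟩
    rw [← hσ]
    exact (tw_eq σ q t h2).symm

end StarkC.ABS
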