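import Pool.Agent.ABS.StY

/-!
# Project ABS, part Y, module YEG: the endomorphism on the eigenspaces of the pairs
-/

set_option autoImplicit false

open NumberField IsDedekindDomain
open scoped TensorProduct Classical

namespace StarkC.ABS

namespace YEGx

section

variable {G M : Type} [Group G] [Fintype G] [AddCommGroup M] [Module ℂ M]
  (μ : Representation ℂ G M)

/-- The projection (times the order) to the eigenspace of the pair. -/
noncomputable def ep (q : Pr G) (z : M) : M :=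
  ∑ h : q.1, (((q.2 h)⁻¹ : ℂˣ) : ℂ) • μ (h : G) z

/-- Sums against the extension by zero. -/
theorem sum_extZ (q : Pr G) (φ : G → ℂ) :
    ∑ h : G, extZ (q.2⁻¹) h * φ h = ∑ h : q.1, (((q.2 h)⁻¹ : ℂˣ) : ℂ) * φ h := by
  rw [← Fintype.sum_subtype_add_sum_subtype (fun h : G => h ∈ q.1)]
  have h2 : ∑ h : {h : G // ¬ h ∈ q.1}, extZ (q.2⁻¹) (h : G) * φ h = 0 := by
    refine Finset.sum_eq_zero fun h _ => ?_
    have h3 : extZ (q.2⁻¹) (h : G) = 0 := dif_neg h.2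
    rw [h3, zero_mul]
  rw [h2, add_zero]
  refine Finset.sum_congr rfl fun h _ => ?_
  have h3 : extZ (q.2⁻¹) (h : G) = (((q.2 h)⁻¹ : ℂˣ) : ℂ) := dif_pos h.2
  rw [h3]

/-- Sums of vectors against the extension by zero. -/
theorem sum_extZ' (q : Pr G) (φ : G → M) :
    ∑ h : G, extZ (q.2⁻¹) h • φ h = ∑ h : q.1, (((q.2 h)⁻¹ : ℂˣ) : ℂ) • φ h := by
  rw [← Fintype.sum_subtype_add_sum_subtype (fun h : G => h ∈ q.1)]
  have h2 : ∑ h : {h : G // ¬ h ∈ q.1}, extZ (q.2⁻¹) (h : G) • φ h = 0 := by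
    refine Finset.sum_eq_zero fun h _ => ?_
    have h3 : extZ (q.2⁻¹) (h : G) = 0 := dif_neg h.2
    rw [h3, zero_smul]
  rw [h2, add_zero]
  refine Finset.sum_congr rfl fun h _ => ?_
  have h3 : extZ (q.2⁻¹) (h : G) = (((q.2 h)⁻¹ : ℂˣ) : ℂ) := dif_pos h.2
  rw [h3]

/-- Shifting the sum. -/
theorem ep_shift (q : Pr G) (h : q.1) (z : M) :
    ep μ q (μ (h : G) z) = ((q.2 h : ℂˣ) : ℂ) • ep μ q z := by
  unfold ep
  rw [Finset.smul_sum]
  refine Fintype.sum_equiv (Equiv.mulRight h) _ _ fun h' => ?_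
  rw [Equiv.coe_mulRight, smul_smul, map_mul, mul_inv, Units.val_mul, Subgroup.coe_mul, map_mul]
  rw [show ((q.2 h : ℂˣ) : ℂ) * ((((q.2 h')⁻¹ : ℂˣ) : ℂ) * (((q.2 h)⁻¹ : ℂˣ) : ℂ)) =
    (((q.2 h')⁻¹ : ℂˣ) : ℂ) * (((q.2 h : ℂˣ) : ℂ) * (((q.2 h)⁻¹ : ℂˣ) : ℂ)) by ring,
    Units.mul_inv, mul_one]
  rfl

theorem ep_smul (q : Pr G) (r : ℂ) (z : M) : ep μ q (r • z) = r • ep μ q z := by
  unfold ep
  rw [Finset.smul_sum]
  refine Finset.sum_congr rfl fun h _ => ?_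
  rw [map_smul, smul_comm]

/-- The projection of an eigenvector. -/
theorem ep_self (p : Pr G) (x : M) (hx : ∀ h : p.1, μ (h : G) x = ((p.2 h : ℂˣ) : ℂ) • x) :
    ep μ p x = (Nat.card p.1 : ℂ) • x := by
  unfold ep
  have h1 : ∀ h : p.1, (((p.2 h)⁻¹ : ℂˣ) : ℂ) • μ (h : G) x = x := by
    intro h
    rw [hx h, smul_smul, Units.inv_mul, one_smul]
  rw [Finset.sum_congr rfl fun h _ => h1 h, Finset.sum_const, Finset.card_univ,
    Nat.card_eq_fintype_card, Nat.cast_smul_eq_nsmul]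

/-- The coefficient of `μ g y`. -/
theorem coef (P : Finset (Pr G)) (c : Pr G → ℂ) (u : G → ℚ) (F : M →ₗ[ℂ] ℂ)
    (hu : ∀ g, (u g : ℂ) = ∑ p ∈ P, (Nat.card p.1 : ℂ) * c p * extZ (p.2⁻¹) g) (x : M) (g : G) :
    ∑ h, (u h : ℂ) * F (μ (h * g⁻¹) x) =
      ∑ q ∈ P, (Nat.card q.1 : ℂ) * c q * F (ep μ q (μ g⁻¹ x)) := by
  have h1 : ∀ h : G, (u h : ℂ) * F (μ (h * g⁻¹) x) =
      ∑ q ∈ P, (Nat.card q.1 : ℂ) * c q * (extZ (q.2⁻¹) h * F (μ (h * g⁻¹) x)) := by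
    intro h
    rw [hu, Finset.sum_mul]
    refine Finset.sum_congr rfl fun q _ => ?_
    ring
  rw [Finset.sum_congr rfl fun h _ => h1 h, Finset.sum_comm]
  refine Finset.sum_congr rfl fun q _ => ?_
  rw [← Finset.mul_sum, sum_extZ q fun h => F (μ (h * g⁻¹) x)]
  congr 1
  unfold ep
  rw [map_sum]
  refine Finset.sum_congr rfl fun h _ => ?_
  rw [map_smul, map_mul, smul_eq_mul]
  rfl

/-- Mackey. -/
theorem agree_of_ne (p q : Pr G) (x : M)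
    (hx : ∀ h : p.1, μ (h : G) x = ((p.2 h : ℂˣ) : ℂ) • x) (g : G)
    (hne : ep μ q (μ g⁻¹ x) ≠ 0) : Agree q p g⁻¹ := by
  intro h h1 h2
  have e1 := ep_shift μ q ⟨h, h1⟩ (μ g⁻¹ x)
  have e2 : μ h (μ g⁻¹ x) = μ g⁻¹ (μ ((g⁻¹)⁻¹ * h * g⁻¹) x) := by
    have e3 : μ h (μ g⁻¹ x) = μ (h * g⁻¹) x := by
      rw [map_mul]
      rfl
    have e4 : μ g⁻¹ (μ ((g⁻¹)⁻¹ * h * g⁻¹) x) = μ (g⁻¹ * ((g⁻¹)⁻¹ * h * g⁻¹)) x := by
      rw [map_mul μ g⁻¹]
      rfl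
    rw [e3, e4]
    congr 2
    group
  have e5 := hx ⟨(g⁻¹)⁻¹ * h * g⁻¹, h2⟩
  have e6 : μ h (μ g⁻¹ x) = ((p.2 ⟨(g⁻¹)⁻¹ * h * g⁻¹, h2⟩ : ℂˣ) : ℂ) • μ g⁻¹ x := by
    rw [e2, ← map_smul]
    exact congrArg _ e5
  have e7 : ep μ q (μ h (μ g⁻¹ x)) = ((q.2 ⟨h, h1⟩ : ℂˣ) : ℂ) • ep μ q (μ g⁻¹ x) := e1
  rw [e6, ep_smul] at e7
  exact Units.ext (smul_left_injective ℂ hne e7.symm)

end

end YEGx

open YEGx in
theorem YEG_thm : Stmt_YEG := by
  intro G M _ _ _ _ μ P c u F y A hP hu hA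
  refine ⟨fun p hp x hx => ?_, fun x hx => ?_⟩
  · rw [hA x]
    congr 1
    have h1 : ∀ g : G, (∑ h, (u h : ℂ) * F (μ (h * g⁻¹) x)) • μ g y =
        ((Nat.card p.1 : ℂ) ^ 2 * c p * F x) • (extZ (p.2⁻¹) g • μ g y) := by
      intro g
      rw [coef μ P c u F hu x g, smul_smul]
      congr 1
      have h2 : ∀ q ∈ P, q ≠ p → (Nat.card q.1 : ℂ) * c q * F (ep μ q (μ g⁻¹ x)) = 0 := by
        intro q hq hqp
        by_cases hne : ep μ q (μ g⁻¹ x) = 0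
        · rw [hne, map_zero, mul_zero]
        · exact absurd (hP q hq p hp _ (agree_of_ne μ p q x hx g hne)).1 hqp
      rw [Finset.sum_eq_single p h2 fun h => absurd hp h]
      by_cases hg : g ∈ p.1
      · have h3 : extZ (p.2⁻¹) g = (((p.2 ⟨g, hg⟩)⁻¹ : ℂˣ) : ℂ) := dif_pos hg
        have h4 := ep_shift μ p (⟨g, hg⟩⁻¹) x
        have h5 : ep μ p (μ g⁻¹ x) = (((p.2 ⟨g, hg⟩)⁻¹ : ℂˣ) : ℂ) • ep μ p x := by
          rw [map_inv] at h4
          exact h4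
        rw [h3, h5, ep_self μ p x hx, map_smul, map_smul, smul_eq_mul, smul_eq_mul]
        ring
      · have h3 : extZ (p.2⁻¹) g = 0 := dif_neg hg
        have h4 : ep μ p (μ g⁻¹ x) = 0 := by
          by_contra hne
          have h5 := (hP p hp p hp _ (agree_of_ne μ p p x hx g hne)).2
          exact hg ((Subgroup.inv_mem_iff _).mp h5)
        rw [h3, h4, map_zero, mul_zero, mul_zero]
    rw [Finset.sum_congr rfl fun g _ => h1 g, ← Finset.smul_sum, sum_extZ' p fun g => μ g y,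
      smul_smul]
    congr 1
    ring
  · rw [hA x]
    have h1 : ∀ g : G, (∑ h, (u h : ℂ) * F (μ (h * g⁻¹) x)) • μ g y = 0 := by
      intro g
      rw [coef μ P c u F hu x g]
      have h2 : ∀ q ∈ P, (Nat.card q.1 : ℂ) * c q * F (ep μ q (μ g⁻¹ x)) = 0 := by
        intro q hq
        have h3 : ep μ q (μ g⁻¹ x) = 0 := by
          rw [← hx q hq g⁻¹]
          unfold ep
          refine Finset.sum_congr rfl fun h _ => ?_
          rw [map_mul]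
          rfl
        rw [h3, map_zero, mul_zero]
      rw [Finset.sum_eq_zero h2, zero_smul]
    rw [Finset.sum_eq_zero fun g _ => h1 g, add_zero]

end StarkC.ABS
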