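import Pool.Agent.ABS.StY
import Pool.Agent.ABS.XEV

/-!
# ABS, part Y, module YEV (helper48): conjugate eigenvectors of a subgroup
-/

set_option autoImplicit false

open NumberField IsDedekindDomain
open scoped TensorProduct Classical

namespace StarkC.ABS

open XEVx in
theorem YEV_thm : Stmt_YEV := by
  intro K L _ _ _ _ _ T hT σ H ψ x hx h
  refine ⟨(⟨conj σ x.1, conj_mem σ x.2⟩ : ↥(XCsub L T)), ?_, ?_⟩
  · intro h0
    apply hx
    apply Subtype.ext
    have h1 : conj σ x.1 = 0 := congrArg Subtype.val h0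
    refine Finsupp.ext fun a => ?_
    have h2 := DFunLike.congr_fun h1 a
    rw [conj_apply] at h2
    exact (map_eq_zero σ).1 h2
  · intro g
    apply Subtype.ext
    have h1 : actC ((g : L ≃ₐ[K] L) : L ≃+* L) x.1 = (((ψ g)⁻¹ : ℂˣ) : ℂ) • x.1 :=
      congrArg Subtype.val (h g)
    show actC ((g : L ≃ₐ[K] L) : L ≃+* L) (conj σ x.1) =
      (((twist σ ψ g)⁻¹ : ℂˣ) : ℂ) • conj σ x.1
    rw [act_conj, h1]
    refine Finsupp.ext fun a => ?_
    rw [conj_apply, Finsupp.smul_apply, Finsupp.smul_apply, conj_apply, smul_eq_mul, smul_eq_mul,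
      map_mul]
    rfl

end StarkC.ABS
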