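import Pool.Agent.ABS.StY
import Pool.Agent.ABS.XFA

/-!
# Project ABS, part Y: an equivariant function on a set of pairs with given norms
-/

set_option autoImplicit false

open NumberField IsDedekindDomain
open scoped TensorProduct Classical

namespace StarkC.ABS

open StarkP (rootField)

namespace YFAx

variable {G : Type} [Group G]

theorem tw_tw (σ τ : ℂ ≃+* ℂ) (p : Pr G) : tw (τ.trans σ) p = tw σ (tw τ p) := by
  unfold tw
  rw [XFAx.twist_twist]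

theorem tw_inj (σ τ : ℂ ≃+* ℂ) (p : Pr G) (h : tw σ p = tw τ p) : twist σ p.2 = twist τ p.2 := by
  unfold tw at h
  rw [Sigma.mk.injEq] at h
  exact eq_of_heq h.2

theorem tw_pw (σ : ℂ ≃+* ℂ) (p : Pr G) (t : ℕ) (h : tw σ p = pw p t) :
    twist σ p.2 = p.2 ^ t := by
  unfold tw pw at h
  rw [Sigma.mk.injEq] at h
  exact eq_of_heq h.2

theorem pw_tw (σ : ℂ ≃+* ℂ) (p : Pr G) (t : ℕ) (h : twist σ p.2 = p.2 ^ t) :
    pw p t = tw σ p := by
  unfold tw pw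
  rw [h]

end YFAx

open YFAx in
theorem YFA_thm : Stmt_YFA := by
  intro hS hN hT G _ _ P r α hP hr hα hα0
  have hX : ∀ p : Pr G, _ := fun p => hT hS p.1 p.2
  -- automorphisms with the same action on `p` agree on `ℚ(ζ_o)`
  have hag : ∀ (p : Pr G) (σ τ : ℂ ≃+* ℂ), tw σ p = tw τ p →
      ∀ x ∈ rootField (orderOf p.2), σ x = τ x := by
    intro p σ τ h
    have h' := tw_inj σ τ p h
    obtain ⟨s, hs, hs1, hs2, -⟩ := (hX p).1 σ
    obtain ⟨t, ht, ht1, ht2, -⟩ := (hX p).1 τ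
    have hst : s = t := XFAx.pow_eq p.2 s t hs ht (by rw [← hs2, ← ht2, h'])
    refine XFAx.eq_on (orderOf p.2) σ τ fun z hz => ?_
    rw [hs1 z hz, ht1 z hz, hst]
  have hex : ∀ p : Pr G, ∃ σ : ℂ ≃+* ℂ, p ∈ P → tw σ (r p) = p := by
    intro p
    by_cases hp : p ∈ P
    · obtain ⟨σ, hσ⟩ := (hr p hp).2.1
      exact ⟨σ, fun _ => hσ⟩
    · exact ⟨RingEquiv.refl ℂ, fun h => absurd h hp⟩
  choose τ₀ hτ₀ using hex
  refine ⟨fun p => τ₀ p (α (r p)), fun p hp => ?_, fun σ p hp => ?_, fun p hp h => ?_, ?_⟩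
  · exact (map_ne_zero_iff _ (τ₀ p).injective).2 (hα0 (r p) (hr p hp).1)
  · have hrr : r (tw σ p) = r p := (hr p hp).2.2 σ
    have h1 : tw ((τ₀ p).trans σ) (r p) = tw (τ₀ (tw σ p)) (r p) := by
      rw [tw_tw, hτ₀ p hp, ← hrr, hτ₀ (tw σ p) (hP p hp σ)]
    have h2 := hag (r p) _ _ h1 (α (r p)) (hα (r p) (hr p hp).1)
    show σ (τ₀ p (α (r p))) = τ₀ (tw σ p) (α (r (tw σ p)))
    rw [hrr, ← h2]
    rfl
  · show τ₀ p (α (r p)) = 1
    rw [h, map_one]
  · intro p hp hpr β hβ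
    have hmem : ∀ t ∈ Ex (orderOf p.2), pw p t ∈ P ∧ r (pw p t) = p := by
      intro t ht
      obtain ⟨t', -, -, σ, -, h⟩ := (hX p).2 (p.2 ^ t) (XFAx.zpowers_eq p.2 t ht)
      have e := pw_tw σ p t h
      refine ⟨by rw [e]; exact hP p hp σ, ?_⟩
      rw [e, (hr p hp).2.2 σ, hpr]
    have h1 := hN (orderOf p.2) (fun t => τ₀ (pw p t)) (XFAx.order_pos p.2) (fun t ht z hz => by
      obtain ⟨s, hs, hs1, hs2, -⟩ := (hX p).1 (τ₀ (pw p t))
      have h3 := hτ₀ (pw p t) (hmem t ht).1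
      rw [(hmem t ht).2] at h3
      have h4 := tw_pw _ p t h3
      rw [hs2] at h4
      have hst : s = t := XFAx.pow_eq p.2 s t hs ht h4
      rw [← hst]
      rw [← hst] at hs1
      exact hs1 z hz) β
    have h4 : nm (orderOf p.2) β = ((Algebra.norm ℚ β : ℚ) : ℂ) := rfl
    rw [← h4, h1]
    refine Finset.prod_congr rfl fun t ht => ?_
    show τ₀ (pw p t) (α (r (pw p t))) = τ₀ (pw p t) β
    rw [(hmem t ht).2, ← hβ]

end StarkC.ABS
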