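import Pool.Agent.ABS.StY

/-!
# Project ABS, part Y: one `φ` for all rational-valued characters, any Galois group (module YFI)
-/

set_option autoImplicit false

open NumberField IsDedekindDomain
open scoped TensorProduct Classical

namespace StarkC.ABS

open StarkP (rootField)

namespace YFIx

/-- An automorphism which raises the `o`-th roots of unity to the power `t`, `o` the order of `ψ`. -/
theorem twist_eq {H : Type} [Group H] (ψ : H →* ℂˣ) (t : ℕ) (σ : ℂ ≃+* ℂ)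
    (hσ : ∀ z : ℂ, z ^ orderOf ψ = 1 → σ z = z ^ t) : twist σ ψ = ψ ^ t := by
  refine MonoidHom.ext fun h => Units.ext ?_
  have h1 : ((ψ h : ℂˣ) : ℂ) ^ orderOf ψ = 1 := by
    have h2 : (ψ ^ orderOf ψ) h = 1 := by
      rw [pow_orderOf_eq_one]
      rfl
    rw [MonoidHom.pow_apply] at h2
    rw [← Units.val_pow_eq_pow_val, h2, Units.val_one]
  show σ ((ψ h : ℂˣ) : ℂ) = (((ψ ^ t) h : ℂˣ) : ℂ)
  rw [hσ _ h1, MonoidHom.pow_apply, Units.val_pow_eq_pow_val]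

/-- The pairs `pw p t` are conjugate to `p`. -/
theorem pw_mem (hSIGT : Stmt_SIGT) (hXDU : Stmt_XDU) {G : Type} [Group G] [Fintype G]
    {P : Finset (Pr G)} (hP : ∀ p ∈ P, ∀ σ : ℂ ≃+* ℂ, tw σ p ∈ P) {p : Pr G} (hp : p ∈ P) {t : ℕ}
    (ht : t ∈ Ex (orderOf p.2)) : pw p t ∈ P := by
  have : Finite (p.1 →* ℂˣ) := (hXDU p.1).1
  obtain ⟨σ, hσ⟩ := hSIGT (orderOf p.2) t (orderOf_pos p.2) (Finset.mem_filter.1 ht).2
  have h1 : tw σ p = pw p t := by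
    show (⟨p.1, twist σ p.2⟩ : Pr G) = ⟨p.1, p.2 ^ t⟩
    rw [twist_eq p.2 t σ hσ]
  rw [← h1]
  exact hP p hp σ

/-- The numbers `α`, indexed by the pairs. -/
theorem exists_beta {G : Type} [Group G] (P : Finset (Pr G)) (m : ℕ) (e : Fin m ≃ P)
    (α : ∀ i, rootField (orderOf ((e i : P) : Pr G).2)) (hα0 : ∀ i, α i ≠ 0) (p : Pr G) :
    ∃ β : rootField (orderOf p.2), β ≠ 0 ∧
      ∀ i, ((e i : P) : Pr G) = p → Algebra.norm ℚ β = Algebra.norm ℚ (α i) := by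
  by_cases hp : p ∈ P
  · obtain ⟨i, hi⟩ := e.surjective ⟨p, hp⟩
    have hi' : ((e i : P) : Pr G) = p := congrArg Subtype.val hi
    subst hi'
    refine ⟨α i, hα0 i, ?_⟩
    intro j hj
    have h1 : e j = e i := Subtype.ext hj
    have h2 : j = i := e.injective h1
    subst h2
    rfl
  · exact ⟨1, one_ne_zero, fun i hi => absurd (hi ▸ (e i).2) hp⟩

/-- The numbers for YFA. -/
theorem exists_alpha {G : Type} [Group G] (o : Pr G → Prop)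
    (β : ∀ p : Pr G, rootField (orderOf p.2)) (hβ0 : ∀ p, β p ≠ 0) :
    ∃ α' : Pr G → ℂ, (∀ p, α' p ∈ rootField (orderOf p.2)) ∧ (∀ p, α' p ≠ 0) ∧
      (∀ p, o p → α' p = ((β p : rootField (orderOf p.2)) : ℂ)⁻¹) ∧ ∀ p, ¬ o p → α' p = 1 := by
  have h : ∀ p : Pr G, ∃ z : ℂ, z ∈ rootField (orderOf p.2) ∧ z ≠ 0 ∧
      (o p → z = ((β p : rootField (orderOf p.2)) : ℂ)⁻¹) ∧ (¬ o p → z = 1) := by
    intro p
    by_cases hp : o p
    · exact ⟨_, inv_mem (β p).2, inv_ne_zero fun h => hβ0 p (Subtype.ext h), fun _ => rfl,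
        fun h => absurd hp h⟩
    · exact ⟨1, one_mem _, one_ne_zero, fun h => absurd h hp, fun _ => rfl⟩
  choose α' h1 h2 h3 h4 using h
  exact ⟨α', h1, h2, h3, h4⟩

section Occ

variable {K L : Type} [Field K] [NumberField K] [Field L] [NumberField L] [Algebra K L]

/-- The contragredient of `Ind ψ` occurs in `ℂ ⊗ X`. -/
def occ (T : Set (HeightOneSpectrum (𝓞 L))) (hT : StableT K T) (p : Pr (L ≃ₐ[K] L)) : Prop :=
  ∃ x : XC L T, x ≠ 0 ∧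
    ∀ h : p.1, repX K T hT (h : L ≃ₐ[K] L) x = (((p.2 h)⁻¹ : ℂˣ) : ℂ) • x

/-- The condition depends only on the class of `p`. -/
theorem occ_tw (hYEV : Stmt_YEV) {T : Set (HeightOneSpectrum (𝓞 L))} {hT : StableT K T}
    {p : Pr (L ≃ₐ[K] L)} (σ : ℂ ≃+* ℂ) (ho : occ T hT p) : occ T hT (tw σ p) := by
  obtain ⟨x, hx, hx2⟩ := ho
  obtain ⟨y, hy, hy2⟩ := hYEV K L T hT σ p.1 p.2 x hx hx2
  exact ⟨y, hy, hy2⟩

end Occ

end YFIx

open YFIx in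
theorem YFI_thm : Stmt_YFI := by
  intro hSIGT hNORMT hPCX hNO hYVN hXDU hXTW hYM1 hYM2 hYMK hYCH hYCL hYFA hYDE hYRO hYRS hYEV
    hYOC hYP
  intro K L _ _ _ _ _ _ S
  obtain ⟨φ₀, Θ₀, h0⟩ := ALLT.exph K L S
  have hTf : (aboveSet K L (S : Set (HeightOneSpectrum (𝓞 K)))).Finite :=
    IND.aboveSet_finite _ S.finite_toSet
  have hT : StableT K (aboveSet K L (S : Set (HeightOneSpectrum (𝓞 K)))) := STB_thm K L _
  have hc0 := ALLT.thc K L _ hT φ₀ Θ₀ hTf h0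
  obtain ⟨P, r, hPg, hSys, hRep, hPall⟩ := hYCH hXDU hYM1 hYM2 hYMK (L ≃ₐ[K] L)
  obtain ⟨m, ⟨e⟩⟩ : ∃ m : ℕ, Nonempty (Fin m ≃ P) := ⟨_, ⟨(Finite.equivFin _).symm⟩⟩
  obtain ⟨α, hα0, hα⟩ := hYVN hPCX hNO K L S φ₀ Θ₀ m (fun i => ((e i : P) : Pr (L ≃ₐ[K] L))) h0
    (fun i => (hPg _ (e i).2).2.2)
  -- the numbers `α`, indexed by the pairs
  choose β hβ0 hβ using exists_beta P m e α hα0
  obtain ⟨α', hmem, hne, hα'1, hα'2⟩ := exists_alpha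
    (occ (aboveSet K L (S : Set (HeightOneSpectrum (𝓞 K)))) hT) β hβ0
  obtain ⟨a, ha0, haσ, ha1, haN⟩ :=
    hYFA hSIGT hNORMT hXTW (L ≃ₐ[K] L) P r α' hSys.1 hRep (fun p _ => hmem p) (fun p _ => hne p)
  have hocc : ∀ p ∈ P, a p ≠ 1 →
      occ (aboveSet K L (S : Set (HeightOneSpectrum (𝓞 K)))) hT p := by
    intro p hp h
    by_contra hno
    refine h (ha1 p hp (hα'2 _ ?_))
    intro h2
    obtain ⟨σ, hσ⟩ := (hRep p hp).2.1
    refine hno ?_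
    rw [← hσ]
    exact occ_tw hYEV σ h2
  obtain ⟨φ₁, Θ₁, A, h1, hΘ, hAb, hAc, hAr⟩ :=
    hYP K L S φ₀ Θ₀ hT P a h0 hSys ha0 haσ hocc
  refine ⟨φ₁, Θ₁, h1, ?_⟩
  intro V _ _ _ ρ hq hcon
  have hcon' : ∀ χ, IsCon ρ χ → ∃ p ∈ P, ch p = χ := by
    rintro χ ⟨W, _, _, _, σ, hirr, hsub, rfl⟩
    obtain ⟨_, p, hp, hpc⟩ := hcon W σ hirr hsub
    obtain ⟨p', hp', hpc'⟩ := hPall p hp
    exact ⟨p', hp', hpc'.trans hpc.symm⟩
  obtain ⟨c, hc1, hc2⟩ := hYRO hSIGT hXTW hYM1 hYCL hYDE (L ≃ₐ[K] L) V ρ P r hPg hSys hRep hq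
    hcon'
  have hchar : ∀ g, ρ.character g =
      ∑ i, ((c ((e i : P) : Pr (L ≃ₐ[K] L)) : ℕ) : ℂ) *
        ∑ t ∈ Ex (orderOf ((e i : P) : Pr (L ≃ₐ[K] L)).2), ch (pw ((e i : P) : Pr (L ≃ₐ[K] L)) t) g := by
    intro g
    rw [hc2 g, ← Finset.sum_coe_sort P]
    exact (Equiv.sum_comp e (fun p : P => ((c (p : Pr (L ≃ₐ[K] L)) : ℕ) : ℂ) *
      ∑ t ∈ Ex (orderOf (p : Pr (L ≃ₐ[K] L)).2), ch (pw (p : Pr (L ≃ₐ[K] L)) t) g)).symm
  obtain ⟨F, hF, hR⟩ := hα (fun i => c (e i)) ρ.character hchar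
  refine ⟨F, hF, ?_⟩
  have hR0 := hR V ρ (fun _ => rfl)
  have hRA := hYRS K L _ hT A V ρ m (fun i => c (e i)) (fun i => ((e i : P) : Pr (L ≃ₐ[K] L))) hTf
    hAc hAb hchar
  rw [hΘ, PHIR.reg_mul hT ρ Θ₀ A hc0 hAc, hR0, hRA, ← mul_assoc, ← Finset.prod_mul_distrib]
  have hone : ∀ i : Fin m,
      (∏ t ∈ Ex (orderOf ((e i : P) : Pr (L ≃ₐ[K] L)).2),
        Reg (aboveSet K L (S : Set (HeightOneSpectrum (𝓞 K))))
          (linRep (liftChar ((e i : P) : Pr (L ≃ₐ[K] L)).1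
            (((e i : P) : Pr (L ≃ₐ[K] L)).2 ^ t))) A) ^ c (e i) *
        ((Algebra.norm ℚ (α i) : ℚ) : ℂ) ^ c (e i) = 1 := by
    intro i
    by_cases hci : c (e i) = 0
    · rw [hci, pow_zero, pow_zero, one_mul]
    · obtain ⟨hpi, hri, W, _, _, _, σ, hirr, hsub, hσc⟩ := hc1 (e i) hci
      have hoi : occ (aboveSet K L (S : Set (HeightOneSpectrum (𝓞 K)))) hT (e i) :=
        hYOC K L _ hT W σ (e i) hirr hσc (hcon W σ hirr hsub).1
      have h2 := haN (e i) hpi hri (β (e i))⁻¹ (by rw [hα'1 _ hoi]; rfl)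
      have h3 : (∏ t ∈ Ex (orderOf ((e i : P) : Pr (L ≃ₐ[K] L)).2),
          Reg (aboveSet K L (S : Set (HeightOneSpectrum (𝓞 K))))
            (linRep (liftChar ((e i : P) : Pr (L ≃ₐ[K] L)).1
              (((e i : P) : Pr (L ≃ₐ[K] L)).2 ^ t))) A) =
          ((Algebra.norm ℚ ((β (e i))⁻¹) : ℚ) : ℂ) := by
        rw [← h2]
        exact Finset.prod_congr rfl fun t ht =>
          hAr (pw (e i) t) (pw_mem hSIGT hXDU hSys.1 hpi ht)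
      have h4 : Algebra.norm ℚ ((β (e i))⁻¹) * Algebra.norm ℚ (α i) = 1 := by
        rw [← hβ (e i) i rfl, ← map_mul, inv_mul_cancel₀ (hβ0 (e i)), map_one]
      rw [h3, ← mul_pow, ← Rat.cast_mul, h4, Rat.cast_one, one_pow]
  rw [Finset.prod_congr rfl (fun i _ => hone i), Finset.prod_const_one, one_mul]

end StarkC.ABS
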