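import Pool.Agent.ABS.StY

/-!
# ABS_YGD: irreducible representations with nilpotent image are good (MP_46b841_nt, part Y)
-/

set_option autoImplicit false

open NumberField IsDedekindDomain
open scoped TensorProduct Classical

namespace StarkC.ABS

namespace YGDx

variable {G V : Type} [Group G] [AddCommGroup V] [Module ℂ V]

theorem irr_of (ρ : Representation ℂ G V) (h : ρ.IsIrreducible) : Irr ρ := by
  constructor
  · by_contra hV
    rw [not_nontrivial_iff_subsingleton] at hV
    have h1 : (⊥ : Subrepresentation ρ) = ⊤ := by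
      apply Subrepresentation.toSubmodule_injective
      exact Subsingleton.elim _ _
    exact bot_ne_top h1
  · intro W hW
    have h1 := h.eq_bot_or_eq_top ⟨W, fun g v hv => hW g v hv⟩
    rcases h1 with h1 | h1
    · left
      exact congrArg Subrepresentation.toSubmodule h1
    · right
      exact congrArg Subrepresentation.toSubmodule h1

variable [Fintype G] [Module.Finite ℂ V]

theorem norm_one (ρ : Representation ℂ G V) (hρ : ρ.IsIrreducible) :
    ip ρ.character ρ.character = (Fintype.card G : ℂ) := by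
  have hc : (Nat.card G : ℂ) ≠ 0 := Nat.cast_ne_zero.2 Nat.card_pos.ne'
  have : Invertible (Nat.card G : ℂ) := invertibleOfNonzero hc
  have h := Representation.char_orthonormal ρ ρ
  rw [if_pos ⟨Representation.Equiv.refl ρ⟩] at h
  rw [inv_mul_eq_iff_eq_mul₀ hc, mul_one] at h
  unfold ip
  rw [h, Nat.card_eq_fintype_card]

end YGDx

open YGDx in
theorem YGD_thm : Stmt_YGD := by
  intro hN hP G V _ _ _ _ _ ρ ℓ k hℓ hirr hnil hcomm hexp
  obtain ⟨H, ψ, _, hχ, hfix, _⟩ := hN G V ρ (irr_of ρ hirr) (hP G V ρ hnil hcomm)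
  have hch : ρ.character = ch ⟨H, ψ⟩ := hχ
  refine ⟨⟨H, ψ⟩, ⟨?_, ?_, ℓ, k, hℓ, ?_⟩, hch⟩
  · rw [← hch]
    exact norm_one ρ hirr
  · intro σ hσ
    rw [← hch] at hσ
    have h1 := (hfix σ).1 hσ
    have h2 : twist σ ψ = ψ := by
      refine MonoidHom.ext fun h => Units.ext ?_
      have h3 : ((ψ h : ℂˣ) : ℂ) ^ orderOf ψ = 1 := by
        have h4 := DFunLike.congr_fun (pow_orderOf_eq_one ψ) h
        have h5 : (ψ h) ^ orderOf ψ = 1 := h4
        rw [← Units.val_pow_eq_pow_val, h5, Units.val_one]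
      exact h1 _ h3
    change (⟨H, twist σ ψ⟩ : Pr G) = ⟨H, ψ⟩
    rw [h2]
  · refine orderOf_dvd_of_pow_eq_one ?_
    refine MonoidHom.ext fun h => ?_
    have h1 : h ^ (2 * ℓ ^ k) = 1 := Subtype.ext (by
      rw [Subgroup.coe_pow, hexp, Subgroup.coe_one])
    change (ψ h) ^ (2 * ℓ ^ k) = 1
    rw [← map_pow, h1, map_one]

end StarkC.ABS
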