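import Pool.Agent.ABS.StY

/-!
# Project ABS (MP_46b841_nt), module YGM (helper68): irreducible monomial representations are good
-/

set_option autoImplicit false

open scoped Classical

namespace StarkC.ABS

namespace YGMx

theorem ip_self {G V : Type} [Group G] [Fintype G] [AddCommGroup V] [Module ℂ V]
    [Module.Finite ℂ V] (ρ : Representation ℂ G V) (hρ : ρ.IsIrreducible) :
    ∑ g, ρ.character g * ρ.character g⁻¹ = (Fintype.card G : ℂ) := by
  have hc : (Nat.card G : ℂ) ≠ 0 := Nat.cast_ne_zero.2 Nat.card_pos.ne'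
  have : Invertible (Nat.card G : ℂ) := invertibleOfNonzero hc
  have h := Representation.char_orthonormal ρ ρ
  rw [if_pos ⟨Representation.Equiv.refl ρ⟩, inv_mul_eq_iff_eq_mul₀ hc, mul_one,
    Nat.card_eq_fintype_card] at h
  exact h

theorem fix {G : Type} (σ : ℂ ≃+* ℂ) (χ : G → ℂ) (hσ : ∀ g, σ (χ g) = χ g) (x : ℂ)
    (hx : x ∈ StarkP.charField χ) : σ x = x := by
  unfold StarkP.charField at hx
  induction hx using IntermediateField.adjoin_induction with
  | mem x hx =>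
    obtain ⟨g, rfl⟩ := hx
    exact hσ g
  | algebraMap q =>
    rw [eq_ratCast]
    exact map_ratCast σ q
  | add x y _ _ hx hy => rw [map_add, hx, hy]
  | inv x _ hx => rw [map_inv₀, hx]
  | mul x y _ _ hx hy => rw [map_mul, hx, hy]

end YGMx

theorem YGM_thm : Stmt_YGM := by
  intro G V _ _ _ _ _ ρ H ψ ℓ k hℓ hirr hχ hval hord
  refine ⟨⟨H, ψ⟩, ⟨?_, ?_, ℓ, k, hℓ, hord⟩, hχ⟩
  · show ∑ g, indFun H (extZ ψ) g * indFun H (extZ ψ) g⁻¹ = (Fintype.card G : ℂ)
    rw [← hχ]
    exact YGMx.ip_self ρ hirr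
  · intro σ hσ
    have h0 : ∀ g, σ (ρ.character g) = ρ.character g := by
      rw [hχ]
      exact hσ
    have h1 : twist σ ψ = ψ := by
      refine MonoidHom.ext fun h => Units.ext ?_
      show σ ((ψ h : ℂˣ) : ℂ) = ((ψ h : ℂˣ) : ℂ)
      exact YGMx.fix σ ρ.character h0 _ (hval h)
    show (⟨H, twist σ ψ⟩ : Pr G) = ⟨H, ψ⟩
    rw [h1]

end StarkC.ABS
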