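import Pool.Agent.ABS.StY

/-!
# Project ABS, part Y, module YM1 (helper43): the inner product of two induced linear characters
-/

set_option autoImplicit false

open NumberField IsDedekindDomain
open scoped TensorProduct Classical

namespace StarkC.ABS

namespace YM1x

variable {G : Type} [Group G]

theorem extZ_of {H : Subgroup G} (ψ : H →* ℂˣ) {g : G} (h : g ∈ H) :
    extZ ψ g = ((ψ ⟨g, h⟩ : ℂˣ) : ℂ) := dif_pos h

theorem extZ_not {H : Subgroup G} (ψ : H →* ℂˣ) {g : G} (h : g ∉ H) : extZ ψ g = 0 :=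
  dif_neg h

theorem extZ_one {H : Subgroup G} (ψ : H →* ℂˣ) : extZ ψ 1 = 1 := by
  rw [extZ_of ψ H.one_mem]
  have h : (⟨1, H.one_mem⟩ : H) = 1 := rfl
  rw [h, map_one, Units.val_one]

theorem extZ_mul {H : Subgroup G} (ψ : H →* ℂˣ) {a b : G} (ha : a ∈ H) :
    extZ ψ (a * b) = extZ ψ a * extZ ψ b := by
  by_cases hb : b ∈ H
  · rw [extZ_of ψ (H.mul_mem ha hb), extZ_of ψ ha, extZ_of ψ hb, ← Units.val_mul, ← map_mul]
    rfl
  · rw [extZ_not ψ hb, extZ_not ψ (fun h => hb ((H.mul_mem_cancel_left ha).1 h)), mul_zero]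

theorem extZ_mul' {H : Subgroup G} (ψ : H →* ℂˣ) {a b : G} (hb : b ∈ H) :
    extZ ψ (a * b) = extZ ψ a * extZ ψ b := by
  by_cases ha : a ∈ H
  · exact extZ_mul ψ ha
  · rw [extZ_not ψ ha, extZ_not ψ (fun h => ha ((H.mul_mem_cancel_right hb).1 h)), zero_mul]

theorem conj_inv (z h : G) : z⁻¹ * h⁻¹ * z = (z⁻¹ * h * z)⁻¹ := by group

theorem mem_conj_inv {H : Subgroup G} (z h : G) : z⁻¹ * h⁻¹ * z ∈ H ↔ z⁻¹ * h * z ∈ H := by
  rw [conj_inv, H.inv_mem_iff]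

/-- the value at an inverse -/
theorem extZ_inv_mul {H : Subgroup G} (ψ : H →* ℂˣ) (z h : G) (hh : z⁻¹ * h * z ∈ H) :
    extZ ψ (z⁻¹ * h * z) * extZ ψ (z⁻¹ * h⁻¹ * z) = 1 := by
  rw [← extZ_mul ψ hh, conj_inv, mul_inv_cancel, extZ_one]

/-- the inner sum -/
theorem inner [Fintype G] (p q : Pr G) (z : G) :
    ∑ h, extZ p.2 h * extZ q.2 (z⁻¹ * h⁻¹ * z) = (nI p q z : ℂ) := by
  unfold nI
  by_cases hA : Agree p q z
  · rw [if_pos hA, Fintype.card_subtype]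
    have h1 : ∀ h : G, extZ p.2 h * extZ q.2 (z⁻¹ * h⁻¹ * z) =
        if h ∈ p.1 ∧ z⁻¹ * h * z ∈ q.1 then 1 else 0 := by
      intro h
      by_cases hp : h ∈ p.1
      · by_cases hq : z⁻¹ * h * z ∈ q.1
        · rw [if_pos ⟨hp, hq⟩]
          have h2 : extZ p.2 h = extZ q.2 (z⁻¹ * h * z) := by
            rw [extZ_of p.2 hp, extZ_of q.2 hq, hA h hp hq]
          rw [h2, extZ_inv_mul q.2 z h hq]
        · rw [if_neg fun h' => hq h'.2, extZ_not q.2 fun h' => hq ((mem_conj_inv z h).1 h'),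
            mul_zero]
      · rw [if_neg fun h' => hp h'.1, extZ_not p.2 hp, zero_mul]
    rw [Finset.sum_congr rfl fun h _ => h1 h, Finset.sum_boole]
  · rw [if_neg hA, Nat.cast_zero]
    unfold Agree at hA
    push Not at hA
    obtain ⟨h0, hp, hq, hne⟩ := hA
    set F : G → ℂ := fun h => extZ p.2 h * extZ q.2 (z⁻¹ * h⁻¹ * z) with hF
    have hmul : ∀ h, F (h0 * h) = F h0 * F h := by
      intro h
      have e1 : z⁻¹ * (h0 * h)⁻¹ * z = (z⁻¹ * h⁻¹ * z) * (z⁻¹ * h0⁻¹ * z) := by group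
      simp only [hF]
      rw [e1, extZ_mul p.2 hp, extZ_mul' q.2 ((mem_conj_inv z h0).2 hq)]
      ring
    have hF0 : F h0 ≠ 1 := by
      intro h
      apply hne
      have h2 := extZ_inv_mul q.2 z h0 hq
      have h3 : extZ p.2 h0 = extZ q.2 (z⁻¹ * h0 * z) := by
        have h4 : extZ p.2 h0 * (extZ q.2 (z⁻¹ * h0 * z) * extZ q.2 (z⁻¹ * h0⁻¹ * z)) =
            extZ q.2 (z⁻¹ * h0 * z) * F h0 := by
          simp only [hF]
          ring
        rw [h2, h, mul_one, mul_one] at h4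
        exact h4
      rw [extZ_of p.2 hp, extZ_of q.2 hq] at h3
      exact Units.ext h3
    have hsum : ∑ h, F h = F h0 * ∑ h, F h := by
      rw [Finset.mul_sum]
      refine (Fintype.sum_equiv (Equiv.mulLeft h0) _ _ fun h => ?_).symm
      rw [Equiv.coe_mulLeft, hmul]
    have h5 : (1 - F h0) * ∑ h, F h = 0 := by
      rw [sub_mul, one_mul, ← hsum, sub_self]
    rcases mul_eq_zero.1 h5 with h6 | h6
    · exact absurd (sub_eq_zero.1 h6).symm hF0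
    · exact h6

theorem ch_mul [Fintype G] (p : Pr G) (g : G) :
    ch p g * (Nat.card p.1 : ℂ) = ∑ x, extZ p.2 (x⁻¹ * g * x) := by
  unfold ch indFun
  rw [div_mul_cancel₀ _ (by exact_mod_cast Nat.card_pos.ne')]
  refine Finset.sum_congr rfl fun x _ => ?_
  by_cases h : x⁻¹ * g * x ∈ p.1
  · rw [if_pos h]
  · rw [if_neg h, extZ_not p.2 h]

/-- the sums for a fixed first conjugating element -/
theorem shift [Fintype G] (a b : G → ℂ) (x : G) :
    ∑ g, ∑ y, a (x⁻¹ * g * x) * b (y⁻¹ * g⁻¹ * y) =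
      ∑ h, ∑ z, a h * b (z⁻¹ * h⁻¹ * z) := by
  refine Fintype.sum_equiv (MulAut.conj x⁻¹).toEquiv _ _ fun g => ?_
  have h1 : (MulAut.conj x⁻¹).toEquiv g = x⁻¹ * g * x := by
    show x⁻¹ * g * x⁻¹⁻¹ = x⁻¹ * g * x
    rw [inv_inv]
  rw [h1]
  refine Fintype.sum_equiv (Equiv.mulLeft x⁻¹) _ _ fun y => ?_
  rw [Equiv.coe_mulLeft]
  have h2 : (x⁻¹ * y)⁻¹ * (x⁻¹ * g * x)⁻¹ * (x⁻¹ * y) = y⁻¹ * g⁻¹ * y := by group
  rw [h2]

end YM1x

open YM1x in
theorem YM1_thm : Stmt_YM1 := by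
  intro G _ _ p q
  have h1 : ip (ch p) (ch q) * ((Nat.card p.1 : ℂ) * (Nat.card q.1 : ℂ)) =
      ∑ g, (∑ x, extZ p.2 (x⁻¹ * g * x)) * ∑ y, extZ q.2 (y⁻¹ * g⁻¹ * y) := by
    unfold ip
    rw [Finset.sum_mul]
    refine Finset.sum_congr rfl fun g _ => ?_
    rw [← ch_mul p g, ← ch_mul q g⁻¹]
    ring
  have h2 : ∑ g, (∑ x, extZ p.2 (x⁻¹ * g * x)) * ∑ y, extZ q.2 (y⁻¹ * g⁻¹ * y) =
      ∑ x : G, ∑ g, ∑ y, extZ p.2 (x⁻¹ * g * x) * extZ q.2 (y⁻¹ * g⁻¹ * y) := by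
    rw [Finset.sum_comm]
    refine Finset.sum_congr rfl fun g _ => ?_
    rw [Finset.sum_mul_sum]
  have h3 : ∑ h, ∑ z, extZ p.2 h * extZ q.2 (z⁻¹ * h⁻¹ * z) = ((∑ g, nI p q g : ℕ) : ℂ) := by
    rw [Finset.sum_comm, Nat.cast_sum]
    exact Finset.sum_congr rfl fun z _ => inner p q z
  rw [h1, h2, Finset.sum_congr rfl fun x _ => shift (extZ p.2) (extZ q.2) x, Finset.sum_const,
    Finset.card_univ, nsmul_eq_mul, h3]

end StarkC.ABS
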