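import Pool.Agent.ABS.StY

/-!
# Part Y, module YM2 (helper7): the sum of `nI` over a double coset
-/

set_option autoImplicit false

open scoped Classical

namespace StarkC.ABS

namespace YM2x

variable {G : Type} [Group G]

theorem agree_mul (H K : Subgroup G) (ψ : H →* ℂˣ) (φ : K →* ℂˣ) (g a b : G) (ha : a ∈ H)
    (hb : b ∈ K) (hag : Agree ⟨H, ψ⟩ ⟨K, φ⟩ g) : Agree ⟨H, ψ⟩ ⟨K, φ⟩ (a * g * b) := by
  intro h h1 h2
  have h1' : h ∈ H := h1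
  have h2' : (a * g * b)⁻¹ * h * (a * g * b) ∈ K := h2
  have hd : a⁻¹ * h * a ∈ H := H.mul_mem (H.mul_mem (H.inv_mem ha) h1') ha
  have he : g⁻¹ * (a⁻¹ * h * a) * g ∈ K := by
    have h3 : g⁻¹ * (a⁻¹ * h * a) * g = b * ((a * g * b)⁻¹ * h * (a * g * b)) * b⁻¹ := by
      group
    rw [h3]
    exact K.mul_mem (K.mul_mem hb h2') (K.inv_mem hb)
  have h4 : ψ ⟨a⁻¹ * h * a, hd⟩ = φ ⟨g⁻¹ * (a⁻¹ * h * a) * g, he⟩ := hag _ hd he
  have h5 : ψ ⟨h, h1'⟩ = ψ ⟨a⁻¹ * h * a, hd⟩ := by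
    have h6 : (⟨h, h1'⟩ : H) = ⟨a, ha⟩ * ⟨a⁻¹ * h * a, hd⟩ * ⟨a, ha⟩⁻¹ := by
      apply Subtype.ext
      show h = a * (a⁻¹ * h * a) * a⁻¹
      group
    rw [h6, map_mul, map_mul, map_inv, mul_comm (ψ ⟨a, ha⟩), mul_assoc, mul_inv_cancel, mul_one]
  have h7 : φ ⟨g⁻¹ * (a⁻¹ * h * a) * g, he⟩ = φ ⟨(a * g * b)⁻¹ * h * (a * g * b), h2'⟩ := by
    have h6 : (⟨g⁻¹ * (a⁻¹ * h * a) * g, he⟩ : K) =
        ⟨b, hb⟩ * ⟨(a * g * b)⁻¹ * h * (a * g * b), h2'⟩ * ⟨b, hb⟩⁻¹ := by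
      apply Subtype.ext
      show g⁻¹ * (a⁻¹ * h * a) * g = b * ((a * g * b)⁻¹ * h * (a * g * b)) * b⁻¹
      group
    rw [h6, map_mul, map_mul, map_inv, mul_comm (φ ⟨b, hb⟩), mul_assoc, mul_inv_cancel, mul_one]
  exact h5.trans (h4.trans h7)

/-- The fibre of `(a, b) ↦ a g b` over `y`. -/
def fibEquiv (H K : Subgroup G) (g y a₀ b₀ : G) (ha₀ : a₀ ∈ H) (hb₀ : b₀ ∈ K)
    (hy : y = a₀ * g * b₀) :
    {x : H × K // (x.1 : G) * g * (x.2 : G) = y} ≃ {h : G // h ∈ H ∧ y⁻¹ * h * y ∈ K} where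
  toFun x := ⟨(x.1.1 : G) * a₀⁻¹, H.mul_mem x.1.1.2 (H.inv_mem ha₀), by
    have h1 : y⁻¹ * ((x.1.1 : G) * a₀⁻¹) * y = (x.1.2 : G)⁻¹ * b₀ := by
      have h2 : y⁻¹ * ((x.1.1 : G) * a₀⁻¹) * y =
          ((x.1.1 : G) * g * (x.1.2 : G))⁻¹ * ((x.1.1 : G) * a₀⁻¹) * (a₀ * g * b₀) := by
        rw [x.2, ← hy]
      rw [h2]
      group
    rw [h1]
    exact K.mul_mem (K.inv_mem x.1.2.2) hb₀⟩
  invFun h := ⟨(⟨(h : G) * a₀, H.mul_mem h.2.1 ha₀⟩, ⟨b₀ * (y⁻¹ * (h : G) * y)⁻¹,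
    K.mul_mem hb₀ (K.inv_mem h.2.2)⟩), by
      show (h : G) * a₀ * g * (b₀ * (y⁻¹ * (h : G) * y)⁻¹) = y
      have h1 : (h : G) * a₀ * g * (b₀ * (y⁻¹ * (h : G) * y)⁻¹) =
          (h : G) * (a₀ * g * b₀) * (y⁻¹ * (h : G) * y)⁻¹ := by group
      rw [h1, ← hy]
      group⟩
  left_inv x := by
    apply Subtype.ext
    apply Prod.ext
    · apply Subtype.ext
      show (x.1.1 : G) * a₀⁻¹ * a₀ = x.1.1
      group
    · apply Subtype.ext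
      show b₀ * (y⁻¹ * ((x.1.1 : G) * a₀⁻¹) * y)⁻¹ = x.1.2
      have h2 : y⁻¹ * ((x.1.1 : G) * a₀⁻¹) * y =
          ((x.1.1 : G) * g * (x.1.2 : G))⁻¹ * ((x.1.1 : G) * a₀⁻¹) * (a₀ * g * b₀) := by
        rw [x.2, ← hy]
      rw [h2]
      group
  right_inv h := by
    apply Subtype.ext
    show (h : G) * a₀ * a₀⁻¹ = h
    group

end YM2x

open YM2x in
/-- YM2: the sum of `nI` over a double coset. -/
theorem YM2_thm : Stmt_YM2 := by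
  intro G _ _ p q g hag
  obtain ⟨H, ψ⟩ := p
  obtain ⟨K, φ⟩ := q
  show Nat.card H * Nat.card K = _
  have h1 : Nat.card H * Nat.card K = (Finset.univ : Finset (H × K)).card := by
    rw [Finset.card_univ, Fintype.card_prod, Nat.card_eq_fintype_card, Nat.card_eq_fintype_card]
  rw [h1, Finset.card_eq_sum_card_fiberwise (f := fun x : H × K => (x.1 : G) * g * (x.2 : G))
    (t := Finset.univ.filter (fun y => ∃ a ∈ H, ∃ b ∈ K, y = a * g * b))]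
  · refine Finset.sum_congr rfl fun y hy => ?_
    obtain ⟨a, ha, b, hb, hy⟩ := (Finset.mem_filter.mp hy).2
    have h2 : Agree ⟨H, ψ⟩ ⟨K, φ⟩ y := by
      rw [hy]
      exact agree_mul H K ψ φ g a b ha hb hag
    unfold nI
    rw [if_pos h2, ← Fintype.card_subtype]
    exact Fintype.card_congr (fibEquiv H K g y a b ha hb hy)
  · intro x _
    rw [Finset.mem_coe, Finset.mem_filter]
    exact ⟨Finset.mem_univ _, x.1, x.1.2, x.2, x.2.2, rfl⟩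

end StarkC.ABS
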