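import Pool.Agent.ABS.StY

/-!
# ABS (MP_46b841_nt), part Y: YMK, Mackey's criterion from the norm one
-/

set_option autoImplicit false

open scoped Classical ComplexConjugate

namespace StarkC.ABS

namespace YMKx

theorem ext_inv {G : Type} [Group G] [Finite G] {H : Subgroup G} (ψ : H →* ℂˣ) (y : G) :
    extZ ψ y⁻¹ = conj (extZ ψ y) := by
  unfold extZ
  by_cases h : y ∈ H
  · have h' : y⁻¹ ∈ H := H.inv_mem h
    rw [dif_pos h, dif_pos h']
    have h1 : (⟨y⁻¹, h'⟩ : H) = (⟨y, h⟩ : H)⁻¹ := rfl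
    rw [h1, map_inv, Units.val_inv_eq_inv_val]
    refine Complex.inv_eq_conj ?_
    refine Complex.norm_eq_one_of_pow_eq_one (n := orderOf (⟨y, h⟩ : H)) ?_ (orderOf_pos _).ne'
    rw [← Units.val_pow_eq_pow_val, ← map_pow, pow_orderOf_eq_one, map_one, Units.val_one]
  · have h' : y⁻¹ ∉ H := fun h2 => h (by simpa using H.inv_mem h2)
    rw [dif_neg h, dif_neg h', map_zero]

theorem ch_inv {G : Type} [Group G] [Fintype G] (p : Pr G) (g : G) :
    ch p g⁻¹ = conj (ch p g) := by
  unfold ch indFun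
  rw [map_div₀, map_natCast, map_sum]
  congr 1
  refine Finset.sum_congr rfl fun x _ => ?_
  have h1 : x⁻¹ * g⁻¹ * x = (x⁻¹ * g * x)⁻¹ := by group
  rw [h1, ext_inv]
  by_cases h : x⁻¹ * g * x ∈ p.1
  · rw [if_pos h, if_pos (p.1.inv_mem h)]
  · rw [if_neg h, if_neg (fun h2 => h (by simpa using p.1.inv_mem h2)), map_zero]

theorem agree_one {G : Type} [Group G] (p : Pr G) : Agree p p 1 := by
  intro h h1 h2
  congr 1
  apply Subtype.ext
  simp

theorem ip_re {G : Type} [Group G] [Fintype G] (p q : Pr G) :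
    (ip (ch p) (ch q)).re = ∑ g, (ch p g * conj (ch q g)).re := by
  unfold ip
  rw [Complex.re_sum]
  exact Finset.sum_congr rfl fun g _ => by rw [ch_inv]

theorem eq_of_ip {G : Type} [Group G] [Fintype G] {p q : Pr G}
    (hp : ip (ch p) (ch p) = (Fintype.card G : ℂ)) (hq : ip (ch q) (ch q) = (Fintype.card G : ℂ))
    (h : (Fintype.card G : ℝ) ≤ (ip (ch p) (ch q)).re) : ch p = ch q := by
  have e1 : ∀ r : Pr G, ip (ch r) (ch r) = (Fintype.card G : ℂ) →
      ∑ g, Complex.normSq (ch r g) = (Fintype.card G : ℝ) := by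
    intro r hr
    have h1 := ip_re r r
    rw [hr, Complex.natCast_re] at h1
    rw [h1]
    refine Finset.sum_congr rfl fun g _ => ?_
    rw [Complex.mul_conj, Complex.ofReal_re]
  have e2 : ∑ g, Complex.normSq (ch p g - ch q g) ≤ 0 := by
    have h1 : ∑ g, Complex.normSq (ch p g - ch q g) =
        ∑ g, Complex.normSq (ch p g) + ∑ g, Complex.normSq (ch q g) -
          2 * ∑ g, (ch p g * conj (ch q g)).re := by
      rw [Finset.mul_sum, ← Finset.sum_add_distrib, ← Finset.sum_sub_distrib]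
      exact Finset.sum_congr rfl fun g _ => Complex.normSq_sub _ _
    rw [h1, e1 p hp, e1 q hq, ← ip_re]
    linarith
  have e3 : ∑ g, Complex.normSq (ch p g - ch q g) = 0 :=
    le_antisymm e2 (Finset.sum_nonneg fun g _ => Complex.normSq_nonneg _)
  rw [Finset.sum_eq_zero_iff_of_nonneg fun g _ => Complex.normSq_nonneg _] at e3
  funext g
  exact sub_eq_zero.1 (Complex.normSq_eq_zero.1 (e3 g (Finset.mem_univ _)))

end YMKx

open YMKx in
theorem YMK_thm : Stmt_YMK := by
  intro h1 h2 G _ _ p q hp hq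
  have cp : 0 < Nat.card p.1 := Nat.card_pos
  have cq : 0 < Nat.card q.1 := Nat.card_pos
  have cG : 0 < Fintype.card G := Fintype.card_pos
  have hcG : (Fintype.card G : ℂ) ≠ 0 := by exact_mod_cast cG.ne'
  have hpc : (Nat.card p.1 : ℂ) ≠ 0 := by exact_mod_cast cp.ne'
  have hqc : (Nat.card q.1 : ℂ) ≠ 0 := by exact_mod_cast cq.ne'
  have second : ∀ g, Agree p q g → ch p = ch q := by
    intro g hg
    refine eq_of_ip hp hq ?_
    have h3 := h1 G p q
    have h4 := h2 G p q g hg
    have h5 : Nat.card p.1 * Nat.card q.1 ≤ ∑ g, nI p q g := by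
      rw [h4]
      exact Finset.sum_le_sum_of_subset (Finset.filter_subset _ _)
    have h6 : ip (ch p) (ch q) = (((Fintype.card G : ℝ) * ((∑ g, nI p q g : ℕ) : ℝ) /
        ((Nat.card p.1 : ℝ) * (Nat.card q.1 : ℝ)) : ℝ) : ℂ) := by
      push_cast
      rw [eq_div_iff (mul_ne_zero hpc hqc), h3]
      push_cast
      ring
    rw [h6, Complex.ofReal_re, le_div_iff₀ (by positivity)]
    refine mul_le_mul_of_nonneg_left ?_ (by positivity)
    exact_mod_cast h5
  refine ⟨fun g hg => ?_, second, fun hne => ?_⟩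
  · by_contra hn
    have h3 := h1 G p p
    rw [hp] at h3
    have h4 : Nat.card p.1 * Nat.card p.1 = ∑ g, nI p p g := by
      have h5 := mul_left_cancel₀ hcG h3
      exact_mod_cast h5
    have h5 := h2 G p p g hg
    have h6 := h2 G p p 1 (agree_one p)
    have hdis : Disjoint (Finset.univ.filter (fun y => ∃ a ∈ p.1, ∃ b ∈ p.1, y = a * g * b))
        (Finset.univ.filter (fun y => ∃ a ∈ p.1, ∃ b ∈ p.1, y = a * 1 * b)) := by
      rw [Finset.disjoint_left]
      intro y hy hy'
      obtain ⟨a, ha, b, hb, e1⟩ := (Finset.mem_filter.1 hy).2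
      obtain ⟨a', ha', b', hb', e2⟩ := (Finset.mem_filter.1 hy').2
      apply hn
      have e3 : g = a⁻¹ * (a' * b') * b⁻¹ := by
        rw [e1, mul_one] at e2
        rw [← e2]
        group
      rw [e3]
      exact p.1.mul_mem (p.1.mul_mem (p.1.inv_mem ha) (p.1.mul_mem ha' hb')) (p.1.inv_mem hb)
    have h7 : Nat.card p.1 * Nat.card p.1 + Nat.card p.1 * Nat.card p.1 ≤ ∑ g, nI p p g := by
      nth_rewrite 1 [h5]
      nth_rewrite 1 [h6]
      rw [← Finset.sum_union hdis]
      exact Finset.sum_le_sum_of_subset (Finset.subset_univ _)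
    rw [← h4] at h7
    have h8 : 0 < Nat.card p.1 * Nat.card p.1 := Nat.mul_pos cp cp
    omega
  · have h3 := h1 G p q
    have h4 : ∑ g, nI p q g = 0 := by
      refine Finset.sum_eq_zero fun g _ => ?_
      unfold nI
      rw [if_neg fun hg => hne (second g hg)]
    rw [h4, Nat.cast_zero, mul_zero] at h3
    exact (mul_eq_zero.1 h3).resolve_right (mul_ne_zero hpc hqc)

end StarkC.ABS
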