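import Pool.Agent.ABS.StY

/-!
# Project ABS, part Y: module YOC (Frobenius reciprocity)
-/

set_option autoImplicit false

open NumberField IsDedekindDomain
open scoped TensorProduct Classical

namespace StarkC.ABS

namespace YOCx

variable {G W : Type} [Group G] [AddCommGroup W] [Module ℂ W]

/-- `|H| ∑_g χ(g) χ(g⁻¹) = |G| ∑_(h ∈ H) ψ(h) χ(h⁻¹)` for `χ = Ind_H ψ`, a class function. -/
theorem sum_ch [Fintype G] (p : Pr G) (χ : G → ℂ) (hχ : ∀ x g, χ (x * g * x⁻¹) = χ g) :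
    (∑ g, ch p g * χ g⁻¹) * (Nat.card p.1 : ℂ) =
      (Fintype.card G : ℂ) * ∑ h : p.1, ((p.2 h : ℂˣ) : ℂ) * χ ((h : G)⁻¹) := by
  have hc : (Nat.card p.1 : ℂ) ≠ 0 := by exact_mod_cast Nat.card_pos.ne'
  have h1 : ∀ g, ch p g * χ g⁻¹ * (Nat.card p.1 : ℂ) =
      ∑ x : G, (if x⁻¹ * g * x ∈ p.1 then extZ p.2 (x⁻¹ * g * x) else 0) * χ g⁻¹ := by
    intro g
    unfold ch StarkC.indFun
    rw [← Finset.sum_mul]
    field_simp
  rw [Finset.sum_mul]
  simp_rw [h1]
  rw [Finset.sum_comm]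
  have h2 : ∀ x : G, (∑ g : G, (if x⁻¹ * g * x ∈ p.1 then extZ p.2 (x⁻¹ * g * x) else 0) *
      χ g⁻¹) = ∑ g : G, (if g ∈ p.1 then extZ p.2 g else 0) * χ g⁻¹ := by
    intro x
    refine Fintype.sum_equiv ((MulAut.conj x⁻¹).toEquiv) _ _ fun g => ?_
    have h3 : (MulAut.conj x⁻¹).toEquiv g = x⁻¹ * g * x := by simp
    rw [h3]
    congr 1
    have h4 := hχ x ((x⁻¹ * g * x)⁻¹)
    rw [← h4]
    congr 1
    group
  simp_rw [h2]
  rw [Finset.sum_const, Finset.card_univ, nsmul_eq_mul]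
  congr 1
  have h5 : ∀ g : G, (if g ∈ p.1 then extZ p.2 g else 0) * χ g⁻¹ =
      if g ∈ p.1 then extZ p.2 g * χ g⁻¹ else 0 := by
    intro g
    split_ifs
    · rfl
    · rw [zero_mul]
  simp_rw [h5]
  rw [← Finset.sum_filter, Finset.sum_subtype (p := fun g => g ∈ p.1) _ (by simp)]
  refine Finset.sum_congr rfl fun h _ => ?_
  have h6 : extZ p.2 (h : G) = ((p.2 h : ℂˣ) : ℂ) := by
    unfold extZ
    rw [dif_pos h.2]
  rw [h6]

/-- A nonzero equivariant linear map on the dual of an irreducible representation is injective. -/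
theorem dual_inj [Module.Finite ℂ W] {X : Type} [AddCommGroup X] [Module ℂ X]
    (σ : Representation ℂ G W) (hσ : σ.IsIrreducible) (τ : Representation ℂ G X)
    (f : Module.Dual ℂ W →ₗ[ℂ] X) (hf : f ≠ 0) (he : ∀ g α, f (σ.dual g α) = τ g (f α)) :
    Function.Injective f := by
  let N : Submodule ℂ (Module.Dual ℂ W) := LinearMap.ker f
  have hN : ∀ g α, α ∈ N → σ.dual g α ∈ N := by
    intro g α hα
    have h1 : f α = 0 := hα
    show f (σ.dual g α) = 0
    rw [he, h1, map_zero]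
  let U : Subrepresentation σ := ⟨N.dualCoannihilator, fun g w hw => by
    rw [Submodule.mem_dualCoannihilator] at hw ⊢
    intro α hα
    have h1 := hw _ (hN g⁻¹ α hα)
    have h2 : σ.dual g⁻¹ α w = α (σ g w) := by
      show α (σ (g⁻¹)⁻¹ w) = α (σ g w)
      rw [inv_inv]
    rw [← h2]
    exact h1⟩
  rcases hσ.eq_bot_or_eq_top U with h | h
  · exfalso
    apply hf
    have h1 : N.dualCoannihilator = ⊥ := congrArg Subrepresentation.toSubmodule h
    have h2 : N = ⊤ := by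
      rw [← Subspace.dualCoannihilator_dualAnnihilator_eq (W := N), h1,
        Submodule.dualAnnihilator_bot]
    exact LinearMap.ker_eq_top.mp h2
  · have h1 : N.dualCoannihilator = ⊤ := congrArg Subrepresentation.toSubmodule h
    have h2 : N = ⊥ := by
      rw [← Subspace.dualCoannihilator_dualAnnihilator_eq (W := N), h1,
        Submodule.dualAnnihilator_top]
    exact LinearMap.ker_eq_bot.mp h2

/-- Frobenius reciprocity, abstract form. -/
theorem frob [Fintype G] [Module.Finite ℂ W] {X : Type} [AddCommGroup X] [Module ℂ X]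
    (σ : Representation ℂ G W) (hσ : σ.IsIrreducible) (τ : Representation ℂ G X) (p : Pr G)
    (hp : σ.character = ch p)
    (f : Module.Dual ℂ W →ₗ[ℂ] X) (hf : f ≠ 0) (he : ∀ g α, f (σ.dual g α) = τ g (f α)) :
    ∃ x : X, x ≠ 0 ∧ ∀ h : p.1, τ (h : G) x = (((p.2 h)⁻¹ : ℂˣ) : ℂ) • x := by
  have hinj := dual_inj σ hσ τ f hf he
  let P : Module.Dual ℂ W →ₗ[ℂ] Module.Dual ℂ W :=
    ∑ h : p.1, ((p.2 h : ℂˣ) : ℂ) • σ.dual (h : G)
  have hP : P ≠ 0 := by
    intro h0
    have h1 : LinearMap.trace ℂ _ P = ∑ h : p.1, ((p.2 h : ℂˣ) : ℂ) * σ.character ((h : G)⁻¹) := by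
      simp only [P, map_sum, map_smul, smul_eq_mul]
      refine Finset.sum_congr rfl fun h _ => ?_
      congr 1
      exact σ.char_dual (h : G)
    rw [h0, map_zero] at h1
    have h2 := sum_ch p σ.character (fun x g => σ.char_conj g x)
    rw [← h1, mul_zero] at h2
    have h3 : (∑ g, σ.character g * σ.character g⁻¹) = 0 := by
      have hc : (Nat.card p.1 : ℂ) ≠ 0 := by exact_mod_cast Nat.card_pos.ne'
      rw [hp]
      rw [hp] at h2
      exact (mul_eq_zero.mp h2).resolve_right hc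
    have hcG : (Nat.card G : ℂ) ≠ 0 := by exact_mod_cast Nat.card_pos.ne'
    have : Invertible (Nat.card G : ℂ) := invertibleOfNonzero hcG
    have := hσ
    have h4 := Representation.char_orthonormal σ σ
    rw [h3, mul_zero, if_pos ⟨Representation.Equiv.refl σ⟩] at h4
    exact zero_ne_one h4
  have hex : ∃ β, P β ≠ 0 := by
    by_contra hcon
    push Not at hcon
    exact hP (LinearMap.ext hcon)
  obtain ⟨β, hβ⟩ := hex
  have hPβ : P β = ∑ h : p.1, ((p.2 h : ℂˣ) : ℂ) • σ.dual (h : G) β := by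
    simp only [P, LinearMap.sum_apply, LinearMap.smul_apply]
  have key : ∀ h : p.1, σ.dual (h : G) (P β) = (((p.2 h)⁻¹ : ℂˣ) : ℂ) • P β := by
    intro k
    rw [hPβ, map_sum, Finset.smul_sum]
    refine Fintype.sum_equiv (Equiv.mulLeft k) _ _ fun h => ?_
    show σ.dual (k : G) (((p.2 h : ℂˣ) : ℂ) • σ.dual (h : G) β) =
      (((p.2 k)⁻¹ : ℂˣ) : ℂ) • (((p.2 (k * h) : ℂˣ) : ℂ) • σ.dual ((k * h : p.1) : G) β)
    have h1 : σ.dual ((k * h : p.1) : G) β = σ.dual (k : G) (σ.dual (h : G) β) := by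
      rw [Subgroup.coe_mul, map_mul]
      rfl
    rw [h1, map_smul, smul_smul]
    congr 1
    rw [map_mul, Units.val_mul, ← mul_assoc, ← Units.val_mul, inv_mul_cancel, Units.val_one,
      one_mul]
  refine ⟨f (P β), fun h => hβ (hinj (by rw [h, map_zero])), fun h => ?_⟩
  rw [← he, key, map_smul]

end YOCx

theorem YOC_thm : Stmt_YOC := by
  intro K L _ _ _ _ _ _ T hT W _ _ _ σ p hσ hp hocc
  obtain ⟨f, hf, hmem, he⟩ := hocc
  let f' : Module.Dual ℂ W →ₗ[ℂ] XC L T := LinearMap.codRestrict (XCsub L T) f hmem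
  have hf' : f' ≠ 0 := by
    intro h
    apply hf
    ext1 α
    have h1 : f' α = 0 := by rw [h]; rfl
    have h2 : f α = (f' α : XC L T).1 := rfl
    rw [h2, h1]
    rfl
  exact YOCx.frob σ hσ (repX K T hT) p hp f' hf' fun g α => Subtype.ext (he g α)

end StarkC.ABS
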