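import Pool.Agent.ABS.StY
import Pool.Agent.ABS.XPH

/-!
# Project ABS, part Y, module YPH (helper85): the isomorphism `φ₁ = φ ∘ ξ`
-/

set_option autoImplicit false

open NumberField IsDedekindDomain
open scoped TensorProduct Classical

namespace StarkC.ABS.YPHx

/-- the pair with the inverse character -/
noncomputable def iv {G : Type} [Group G] (p : Pr G) : Pr G := ⟨p.1, p.2⁻¹⟩

theorem iv_iv {G : Type} [Group G] (p : Pr G) : iv (iv p) = p := by
  obtain ⟨H, ψ⟩ := p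
  have h : ψ⁻¹⁻¹ = ψ := by
    ext g
    simp
  exact congrArg (Sigma.mk H) h

theorem tw_iv {G : Type} [Group G] (σ : ℂ ≃+* ℂ) (p : Pr G) : iv (tw σ p) = tw σ (iv p) := by
  unfold iv tw
  rw [XPHx.twist_inv]

/-- the set of the pairs with inverse characters -/
noncomputable def ivs {G : Type} [Group G] (P : Finset (Pr G)) : Finset (Pr G) := P.image iv

theorem mem_ivs {G : Type} [Group G] {P : Finset (Pr G)} {p : Pr G} : p ∈ ivs P ↔ iv p ∈ P := by
  unfold ivs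
  rw [Finset.mem_image]
  constructor
  · rintro ⟨q, hq, rfl⟩
    rwa [iv_iv]
  · intro h
    exact ⟨iv p, h, iv_iv p⟩

theorem agree_iv {G : Type} [Group G] {p q : Pr G} {g : G} (h : Agree p q g) :
    Agree (iv p) (iv q) g := by
  intro x h1 h2
  have h3 := h x h1 h2
  show (p.2 ⟨x, h1⟩)⁻¹ = (q.2 ⟨g⁻¹ * x * g, h2⟩)⁻¹
  rw [h3]

theorem sys_ivs {G : Type} [Group G] {P : Finset (Pr G)} (h : Sys P) : Sys (ivs P) := by
  refine ⟨fun p hp σ => ?_, fun p hp q hq g hA => ?_⟩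
  · rw [mem_ivs, tw_iv]
    exact h.1 _ (mem_ivs.1 hp) σ
  · obtain ⟨h1, h2⟩ := h.2 _ (mem_ivs.1 hp) _ (mem_ivs.1 hq) g (agree_iv hA)
    refine ⟨?_, h2⟩
    rw [← iv_iv p, h1, iv_iv]

end StarkC.ABS.YPHx

namespace StarkC.ABS

open XPHx YPHx

theorem YPH_thm : Stmt_YPH := by
  intro hXRG hYRG hYI K L _ _ _ _ _ _ S φ Θ hT P a hφ hSys ha0 hσ hocc
  have hRG := hYRG hXRG
  have hTf : (aboveSet K L (S : Set (HeightOneSpectrum (𝓞 K)))).Finite :=
    INFL.finite_aboveSet S.finite_toSet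
  obtain ⟨n, b, c, hbc⟩ := XRAT_thm L (aboveSet K L (S : Set (HeightOneSpectrum (𝓞 K)))) hTf
  obtain ⟨ξ, A, h1, h2, h3, h4, h5⟩ := hYI (L ≃ₐ[K] L)
    (XQ L (aboveSet K L (S : Set (HeightOneSpectrum (𝓞 K)))))
    (XC L (aboveSet K L (S : Set (HeightOneSpectrum (𝓞 K)))))
    (INFL.repQ (aboveSet K L (S : Set (HeightOneSpectrum (𝓞 K)))) hT)
    (repX K (aboveSet K L (S : Set (HeightOneSpectrum (𝓞 K)))) hT)
    (INFL.iN (aboveSet K L (S : Set (HeightOneSpectrum (𝓞 K))))) n b c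
    (by
      intro i
      apply val_inj
      ext x
      rw [INFL.iN_val, hbc])
    iN_smul
    (fun g x => iN_act hT g x)
    (ivs P) (fun p => a (iv p)) (sys_ivs hSys) (fun p hp => ha0 _ (mem_ivs.1 hp))
    (by
      intro σ p hp
      show σ (a (iv p)) = a (iv (tw σ p))
      rw [hσ σ _ (mem_ivs.1 hp), tw_iv])
    (by
      intro p hp hap
      obtain ⟨x, hx0, hx⟩ := hocc _ (mem_ivs.1 hp) hap
      refine ⟨x, hx0, fun h => ?_⟩
      have h6 := hx h
      have h7 : ((iv p).2 h)⁻¹ = p.2 h := inv_inv _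
      rw [h7] at h6
      exact h6)
  have hAc : ∀ g : L ≃ₐ[K] L,
      A ∘ₗ repX K (aboveSet K L (S : Set (HeightOneSpectrum (𝓞 K)))) hT g =
        repX K (aboveSet K L (S : Set (HeightOneSpectrum (𝓞 K)))) hT g ∘ₗ A := by
    intro g
    ext1 x
    exact h3 g x
  refine ⟨ξ.trans φ, Θ ∘ₗ A, A, ⟨?_, ?_⟩, rfl, h4, hAc, ?_⟩
  · intro g x y hxy
    have h6 : y = INFL.repQ (aboveSet K L (S : Set (HeightOneSpectrum (𝓞 K)))) hT g x :=
      Subtype.ext hxy
    rw [LinearEquiv.trans_apply, LinearEquiv.trans_apply]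
    refine hφ.1 g (ξ x) (ξ y) ?_
    rw [h6, h1 g x, INFL.repQ_val]
  · intro x z hz
    have h6 : z = INFL.iN (aboveSet K L (S : Set (HeightOneSpectrum (𝓞 K)))) x := by
      apply val_inj
      ext a
      rw [hz a, INFL.iN_val]
    rw [LinearMap.comp_apply, LinearEquiv.trans_apply]
    refine hφ.2 (ξ x) (A z) ?_
    intro a
    rw [h6, h2 x, INFL.iN_val]
  · intro p hp
    have hp' : iv p ∈ ivs P := by
      rw [mem_ivs, iv_iv]
      exact hp
    obtain ⟨F, v, hv, hF, hd⟩ := h5 (iv p) hp'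
    have h6 := hRG K L (aboveSet K L (S : Set (HeightOneSpectrum (𝓞 K)))) hT p.1 p.2 A F v hTf hAc
      hv hF
    rw [h6, hd, iv_iv]

end StarkC.ABS
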