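import Pool.Agent.ABS.StY

/-!
# Project ABS, part Y, module YRG (helper90): the regulator over the fixed field of a subgroup
-/

set_option autoImplicit false

open NumberField IsDedekindDomain
open scoped TensorProduct Classical

namespace StarkC.ABS

theorem YRG_thm : Stmt_YRG := by
  intro hXRG K L _ _ _ _ _ _ T hT H ψ A F v hTf hA hv hx
  refine hXRG (IntermediateField.fixedField H) L T (IND.stable_sub _ hT) (liftChar H ψ) A F v hTf
    ?_ ?_ ?_
  · intro g
    rw [IND.repX_sub]
    exact hA _
  · intro g
    rw [IND.repX_sub]
    exact hv _
  · intro x h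
    refine hx x fun h' => ?_
    have h1 := h (IntermediateField.subgroupEquivAlgEquiv H h')
    rw [IND.repX_sub, MulEquiv.symm_apply_apply] at h1
    have h2 : liftChar H ψ (IntermediateField.subgroupEquivAlgEquiv H h') = ψ h' := by
      show ψ ((IntermediateField.subgroupEquivAlgEquiv H).symm
        (IntermediateField.subgroupEquivAlgEquiv H h')) = ψ h'
      rw [MulEquiv.symm_apply_apply]
    rw [h2] at h1
    exact h1

end StarkC.ABS
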