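import Pool.Agent.ABS.StY

/-!
# Project ABS (MP_46b841_nt), part Y, module YRO

A rational-valued character is a sum of classes of conjugate induced characters.
-/

set_option autoImplicit false

open NumberField IsDedekindDomain
open scoped TensorProduct Classical

namespace StarkC.ABS.YROx

variable {G : Type} [Group G] [Fintype G]

omit [Fintype G] in
theorem map_extZ {H : Subgroup G} (σ : ℂ ≃+* ℂ) (ψ : H →* ℂˣ) (g : G) :
    σ (extZ ψ g) = extZ (twist σ ψ) g := by
  unfold extZ
  split_ifs with h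
  · rfl
  · exact map_zero σ

theorem map_ch (σ : ℂ ≃+* ℂ) (p : Pr G) (g : G) : σ (ch p g) = ch (tw σ p) g := by
  unfold ch indFun tw
  rw [map_div₀, map_natCast, map_sum]
  congr 1
  refine Finset.sum_congr rfl fun x _ => ?_
  split_ifs with hx
  · exact map_extZ σ p.2 _
  · exact map_zero σ

/-- orthogonality -/
theorem ip_zero (hYM1 : Stmt_YM1) (p q : Pr G) (h : ∀ g, ¬ Agree p q g) :
    ip (ch p) (ch q) = 0 := by
  have h1 := hYM1 G p q
  have h2 : ∀ g, nI p q g = 0 := fun g => if_neg (h g)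
  rw [Finset.sum_eq_zero (fun g _ => h2 g), Nat.cast_zero, mul_zero] at h1
  have h3 : (Nat.card p.1 : ℂ) ≠ 0 := Nat.cast_ne_zero.2 (Nat.card_pos).ne'
  have h4 : (Nat.card q.1 : ℂ) ≠ 0 := Nat.cast_ne_zero.2 (Nat.card_pos).ne'
  rcases mul_eq_zero.1 h1 with h5 | h5
  · exact h5
  · exact absurd h5 (mul_ne_zero h3 h4)

theorem zpowers_pow {X : Type} [Group X] (x : X) (t : ℕ) (ht : (orderOf x).Coprime t) :
    Subgroup.zpowers (x ^ t) = Subgroup.zpowers x := by
  apply le_antisymm
  · rw [Subgroup.zpowers_le]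
    exact Subgroup.npow_mem_zpowers x t
  · rw [Subgroup.zpowers_le]
    obtain ⟨k, hk⟩ := exists_pow_eq_self_of_coprime ht.symm
    rw [Subgroup.mem_zpowers_iff]
    exact ⟨k, by rw [zpow_natCast]; exact hk⟩

end StarkC.ABS.YROx

namespace StarkC.ABS

open YROx in
theorem YRO_thm : Stmt_YRO := by
  intro hSIGT hXTW hYM1 hYCL hYDE G V _ _ _ _ _ ρ P r hP hS hr hq hcon
  obtain ⟨m, χ, hχ1, hχ2⟩ := hYDE G V ρ
  choose q hqP hqχ using fun i => hcon (χ i) (hχ1 i)
  let n : Pr G → ℕ := fun p => (Finset.univ.filter fun i => q i = p).card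
  have hcar : ∀ g, ρ.character g = ∑ p ∈ P, (n p : ℂ) * ch p g := by
    intro g
    rw [hχ2 g, ← Finset.sum_fiberwise_of_maps_to (t := P) (g := q) (fun i _ => hqP i)]
    refine Finset.sum_congr rfl fun p _ => ?_
    rw [Finset.sum_congr rfl (g := fun _ => ch p g) (fun i hi => by
      rw [← hqχ i, (Finset.mem_filter.1 hi).2]), Finset.sum_const, nsmul_eq_mul]
  have hG : (Fintype.card G : ℂ) ≠ 0 := Nat.cast_ne_zero.2 Fintype.card_ne_zero
  have hip : ∀ p ∈ P, ∑ g, ρ.character g * ch p g⁻¹ = (n p : ℂ) * (Fintype.card G : ℂ) := by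
    intro p hp
    have h1 : ∑ g, ρ.character g * ch p g⁻¹ = ∑ p' ∈ P, (n p' : ℂ) * ip (ch p') (ch p) := by
      unfold ip
      simp only [hcar, Finset.sum_mul, Finset.mul_sum]
      rw [Finset.sum_comm]
      refine Finset.sum_congr rfl fun p' _ => Finset.sum_congr rfl fun g _ => ?_
      rw [mul_assoc]
    rw [h1, Finset.sum_eq_single p]
    · rw [(hP p hp).1]
    · intro p' hp' hne
      rw [ip_zero hYM1 p' p (fun g hg => hne (hS.2 p' hp' p hp g hg).1), mul_zero]
    · exact fun h => absurd hp h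
  have htw : ∀ p ∈ P, ∀ σ : ℂ ≃+* ℂ, n (tw σ p) = n p := by
    intro p hp σ
    have h1 := hip (tw σ p) (hS.1 p hp σ)
    have h2 := congrArg σ (hip p hp)
    rw [map_mul, map_natCast, map_natCast, map_sum] at h2
    have h3 : ∑ g, σ (ρ.character g * ch p g⁻¹) = ∑ g, ρ.character g * ch (tw σ p) g⁻¹ := by
      refine Finset.sum_congr rfl fun g _ => ?_
      obtain ⟨a, ha⟩ := hq g
      rw [map_mul, map_ch, ha, map_ratCast]
    rw [h3, h1] at h2
    exact_mod_cast mul_right_cancel₀ hG h2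
  have hpw : ∀ p ∈ P, ∀ t ∈ Ex (orderOf p.2), n (pw p t) = n p := by
    intro p hp t ht
    have hco : (orderOf p.2).Coprime t := by
      unfold Ex at ht
      exact (Finset.mem_filter.mp ht).2
    obtain ⟨s, hs, hs1, σ, hσ1, hσ2⟩ := (hXTW hSIGT p.1 p.2).2 (p.2 ^ t) (zpowers_pow p.2 t hco)
    have h1 : pw p t = tw σ p := by
      unfold pw tw
      rw [hσ2]
    rw [h1]
    exact htw p hp σ
  refine ⟨fun p => if p ∈ P ∧ r p = p then n p else 0, ?_, ?_⟩
  · intro p hp
    by_cases h : p ∈ P ∧ r p = p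
    · refine ⟨h.1, h.2, ?_⟩
      simp only [h, and_self, if_true] at hp
      obtain ⟨i, hi⟩ := Finset.card_pos.1 (Nat.pos_of_ne_zero hp)
      have hi' := (Finset.mem_filter.1 hi).2
      rw [← hi', hqχ]
      exact hχ1 i
    · simp only [h, if_false] at hp
      exact absurd rfl hp
  · intro g
    rw [hcar g, hYCL hSIGT hXTW G P r (fun p => (n p : ℂ) * ch p g) hS.1 hr, Finset.sum_filter]
    refine Finset.sum_congr rfl fun p hp => ?_
    by_cases h : r p = p
    · simp only [h, hp, and_self, if_true]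
      rw [Finset.mul_sum]
      refine Finset.sum_congr rfl fun t ht => ?_
      rw [hpw p hp t ht]
    · simp [h]

end StarkC.ABS
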