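import Pool.Agent.ABS.StY
import Pool.Agent.ABS.LAST

/-!
# Project ABS, module YRS: the regulator of a sum of monomial characters (helper63)
-/

set_option autoImplicit false

open NumberField IsDedekindDomain
open scoped TensorProduct Classical

namespace StarkC.ABS

theorem YRSx.prodFin {ι : Type} [Fintype ι] (n : ℕ) (e : Fin n ≃ ι) (R : ι → ℂ) (c : ι → ℕ) :
    ∏ k, R (e k) ^ ((c (e k) : ℕ) : ℤ) = ∏ x, R x ^ c x := by
  rw [← Equiv.prod_comp e]
  exact Finset.prod_congr rfl fun k _ => zpow_natCast _ _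

theorem YRSx.sumFin {ι : Type} [Fintype ι] (n : ℕ) (e : Fin n ≃ ι) (R : ι → ℂ) (c : ι → ℕ) :
    ∑ k, (((c (e k) : ℕ) : ℤ) : ℂ) * R (e k) = ∑ x, (c x : ℂ) * R x := by
  rw [← Equiv.sum_comp e]
  exact Finset.sum_congr rfl fun k _ => by rw [Int.cast_natCast]

theorem YRSx.prodSig (m : ℕ) (E : Fin m → Finset ℕ) (R : Fin m → ℕ → ℂ) (c : Fin m → ℕ) :
    (∏ x : (Σ i : Fin m, {t // t ∈ E i}), R x.1 (x.2 : ℕ) ^ c x.1) =
      ∏ i, (∏ t ∈ E i, R i t) ^ c i := by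
  rw [Fintype.prod_sigma]
  refine Finset.prod_congr rfl fun i _ => ?_
  show (∏ y : {t // t ∈ E i}, R i (y : ℕ) ^ c i) = _
  rw [Finset.prod_pow, ← Finset.prod_coe_sort (E i)]

theorem YRSx.sumSig (m : ℕ) (E : Fin m → Finset ℕ) (R : Fin m → ℕ → ℂ) (c : Fin m → ℕ) :
    (∑ x : (Σ i : Fin m, {t // t ∈ E i}), (c x.1 : ℂ) * R x.1 (x.2 : ℕ)) =
      ∑ i, (c i : ℂ) * ∑ t ∈ E i, R i t := by
  rw [Fintype.sum_sigma]
  refine Finset.sum_congr rfl fun i _ => ?_
  show (∑ y : {t // t ∈ E i}, (c i : ℂ) * R i (y : ℕ)) = _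
  rw [← Finset.mul_sum, ← Finset.sum_coe_sort (E i)]

theorem YRSx.comb (K L : Type) [Field K] [NumberField K] [Field L] [NumberField L] [Algebra K L]
    [IsGalois K L] (T : Set (HeightOneSpectrum (𝓞 L))) (hT : StableT K T)
    (A : XC L T →ₗ[ℂ] XC L T) (V : Type) [AddCommGroup V] [Module ℂ V] [Module.Finite ℂ V]
    (ρ : Representation ℂ (L ≃ₐ[K] L) V) (hTf : T.Finite)
    (hc : ∀ g : L ≃ₐ[K] L, A ∘ₗ repX K T hT g = repX K T hT g ∘ₗ A)
    (hb : Function.Bijective A) {ι : Type} [Fintype ι] (c : ι → ℕ) (P : ι → Pr (L ≃ₐ[K] L))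
    (h : ∀ g, ρ.character g = ∑ x, (c x : ℂ) * ch (P x) g) :
    Reg T ρ A = ∏ x, Reg T (linRep (liftChar (P x).1 (P x).2)) A ^ c x := by
  have key := IND.reg_comb TRD_thm ALLT.rgt hTf hT A hb hc V ρ (Fintype.card ι)
    (fun k => (P ((Fintype.equivFin ι).symm k)).1) (fun k => (P ((Fintype.equivFin ι).symm k)).2)
    (fun k => ((c ((Fintype.equivFin ι).symm k) : ℕ) : ℤ)) (by
      intro g
      rw [h g]
      exact (YRSx.sumFin (Fintype.card ι) (Fintype.equivFin ι).symm (fun x => ch (P x) g) c).symm)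
  exact key.trans (YRSx.prodFin (Fintype.card ι) (Fintype.equivFin ι).symm
    (fun x => Reg T (linRep (liftChar (P x).1 (P x).2)) A) c)

theorem YRS_thm : Stmt_YRS := by
  intro K L _ _ _ _ _ _ T hT A V _ _ _ ρ m c p hTf hc hb h
  have key := YRSx.comb K L T hT A V ρ hTf hc hb
    (ι := Σ i : Fin m, {t // t ∈ Ex (orderOf (p i).2)}) (fun x => c x.1)
    (fun x => pw (p x.1) (x.2 : ℕ)) (by
      intro g
      rw [h g]
      exact (YRSx.sumSig m (fun i => Ex (orderOf (p i).2)) (fun i t => ch (pw (p i) t) g) c).symm)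
  rw [key]
  exact YRSx.prodSig m (fun i => Ex (orderOf (p i).2))
    (fun i t => Reg T (linRep (liftChar (p i).1 ((p i).2 ^ t))) A) c

end StarkC.ABS
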