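import Pool.Agent.ABS.StY

/-!
# Project ABS (MP_46b841_nt), part Y, module YTR: the explicit form of the automorphism
-/

set_option autoImplicit false

open NumberField IsDedekindDomain
open scoped TensorProduct Classical

namespace StarkC.ABS

namespace YTRx

section

variable {G V R : Type} [Group G] [Fintype G] [CommRing R] [AddCommGroup V] [Module R V]
  (τ : Representation R G V)

/-- `x + ∑_g (∑_h u(h) f(h g⁻¹ x)) g w` -/
noncomputable def tr (u : G → R) (w : V) (f : V →ₗ[R] R) : V →ₗ[R] V :=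
  LinearMap.id + ∑ g, (∑ h, u h • (f ∘ₗ τ (h * g⁻¹))).smulRight (τ g w)

theorem tr_apply (u : G → R) (w : V) (f : V →ₗ[R] R) (x : V) :
    tr τ u w f x = x + ∑ g, (∑ h, u h * f (τ (h * g⁻¹) x)) • τ g w := by
  unfold tr
  rw [LinearMap.add_apply, LinearMap.id_apply, LinearMap.sum_apply]
  congr 1
  refine Finset.sum_congr rfl fun g _ => ?_
  rw [LinearMap.smulRight_apply, LinearMap.sum_apply]
  congr 1

theorem tr_comm (u : G → R) (w : V) (f : V →ₗ[R] R) (a : G) (x : V) :
    tr τ u w f (τ a x) = τ a (tr τ u w f x) := by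
  rw [tr_apply, tr_apply, map_add, map_sum]
  congr 1
  rw [← Equiv.sum_comp (Equiv.mulLeft a)]
  refine Finset.sum_congr rfl fun g _ => ?_
  rw [map_smul, Equiv.coe_mulLeft]
  have h1 : τ (a * g) w = τ a (τ g w) := by rw [map_mul]; rfl
  rw [h1]
  congr 1
  refine Finset.sum_congr rfl fun h _ => ?_
  have h2 : τ (h * (a * g)⁻¹) (τ a x) = τ (h * g⁻¹) x := by
    have h3 : h * g⁻¹ = h * (a * g)⁻¹ * a := by group
    rw [h3, map_mul τ (h * (a * g)⁻¹) a]
    rfl
  rw [h2]

end

end YTRx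

open YTRx in
theorem YTR_thm : Stmt_YTR := by
  intro G W M _ _ _ _ _ _ τ μ j n b c hbc hjq hjτ u w f
  obtain ⟨F, hF⟩ : ∃ F : M →ₗ[ℂ] ℂ, ∀ x, F (j x) = ((f x : ℚ) : ℂ) := by
    refine ⟨c.constr ℂ fun i => ((f (b i) : ℚ) : ℂ), fun x => ?_⟩
    have hx : j x = ∑ i, ((b.repr x i : ℚ) : ℂ) • c i := by
      conv_lhs => rw [← b.sum_repr x]
      rw [map_sum]
      refine Finset.sum_congr rfl fun i _ => ?_
      rw [hjq, hbc]
    have hfx : f x = ∑ i, b.repr x i * f (b i) := by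
      conv_lhs => rw [← b.sum_repr x]
      rw [map_sum]
      refine Finset.sum_congr rfl fun i _ => ?_
      rw [map_smul, smul_eq_mul]
    rw [hx, hfx, map_sum, Rat.cast_sum]
    refine Finset.sum_congr rfl fun i _ => ?_
    rw [map_smul, Module.Basis.constr_basis, smul_eq_mul, Rat.cast_mul]
  refine ⟨tr τ u w f, tr μ (fun h => (u h : ℂ)) (j w) F, F, hF, tr_comm τ u w f, fun x => ?_,
    tr_comm μ _ (j w) F, fun x => tr_apply μ _ (j w) F x⟩
  rw [tr_apply, tr_apply, map_add, map_sum]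
  congr 1
  refine Finset.sum_congr rfl fun g _ => ?_
  rw [hjq, hjτ, Rat.cast_sum]
  congr 1
  refine Finset.sum_congr rfl fun h _ => ?_
  rw [← hjτ, hF, Rat.cast_mul]

end StarkC.ABS
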