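import Pool.Agent.ABS.StY
import Pool.Agent.ABS.XVN

/-!
# Project ABS, part Y, module YVN (helper9): the values of induced characters as norms
-/

set_option autoImplicit false

open NumberField IsDedekindDomain
open scoped TensorProduct Classical

namespace StarkC.ABS

open StarkP (rootField)

namespace YVNx

variable {K L : Type} [Field K] [NumberField K] [Field L] [NumberField L] [Algebra K L]

theorem order_lift (H : Subgroup (L ≃ₐ[K] L)) (ψ : H →* ℂˣ) :
    orderOf (liftChar H ψ) = orderOf ψ :=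
  orderOf_eq_orderOf_iff.2 fun n => XVNx.lift_pow_eq_one H ψ n

end YVNx

open YVNx in
/-- module YVN -/
theorem YVN_thm : Stmt_YVN := by
  intro hPCX hNO K L _ _ _ _ _ _ S φ Θ m p hφ hord
  have hpos : ∀ i, 0 < orderOf (p i).2 := fun i => by
    obtain ⟨ℓ, k, hℓ, hd⟩ := hord i
    exact Nat.pos_of_dvd_of_pos hd (Nat.mul_pos two_pos (pow_pos hℓ.pos k))
  obtain ⟨x, hx, h⟩ := hPCX K L S φ Θ m (fun i => (p i).1) (fun i => orderOf (p i).2)
    (fun i => (p i).2)
    (fun i z => ∃ α : Cyc (orderOf (p i).2), α ≠ 0 ∧ z = nm (orderOf (p i).2) α)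
    hφ (fun i S' => by
      intro φ' Θ' hφ'
      obtain ⟨ℓ, k, hℓ, hd⟩ := hord i
      have h1 := hNO (IntermediateField.fixedField (p i).1) L ℓ k
        (liftChar (p i).1 (p i).2) S' hℓ
        (by rw [YVNx.order_lift]; exact hd)
      rw [YVNx.order_lift] at h1
      obtain ⟨F, α, hF, hα, hR⟩ := h1 φ' Θ' hφ'
      exact ⟨F, nm (orderOf (p i).2) α, hF, XVNx.nm_ne _ (hpos i) α hα, ⟨α, hα, rfl⟩, hR⟩)
  choose hx0 α hα0 hα using hx
  refine ⟨α, hα0, fun c θ hθ => ?_⟩
  obtain ⟨F, hF, hR⟩ := h (fun i => (c i : ℤ)) θ (fun g => by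
    rw [hθ g]
    refine Finset.sum_congr rfl fun i _ => ?_
    rw [Int.cast_natCast]
    rfl)
  refine ⟨F, hF, fun V _ _ _ ρ hρ => ?_⟩
  rw [hR V ρ hρ]
  congr 1
  refine Finset.prod_congr rfl fun i _ => ?_
  rw [zpow_natCast, hα i]
  rfl

end StarkC.ABS
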