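import Pool.Agent.ABS.StY

/-!
# YXI: the automorphism with given determinants on the eigenspaces, for pairs
-/

set_option autoImplicit false

open NumberField IsDedekindDomain
open scoped TensorProduct Classical

namespace StarkC.ABS

namespace YXIx

theorem twist_inv_apply {H : Type} [Group H] (σ : ℂ ≃+* ℂ) (ψ : H →* ℂˣ) (g : H) :
    σ (((ψ g)⁻¹ : ℂˣ) : ℂ) = (((twist σ ψ g)⁻¹ : ℂˣ) : ℂ) := by
  rw [Units.val_inv_eq_inv_val, Units.val_inv_eq_inv_val, map_inv₀]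
  rfl

theorem inj {W M : Type} [AddCommGroup W] [Module ℚ W] [AddCommGroup M] [Module ℂ M]
    (j : W →+ M) (n : ℕ) (b : Module.Basis (Fin n) ℚ W) (c : Module.Basis (Fin n) ℂ M)
    (hjb : ∀ i, j (b i) = c i) (hjq : ∀ (q : ℚ) (x : W), j (q • x) = (q : ℂ) • j x) :
    Function.Injective j := by
  rw [injective_iff_map_eq_zero]
  intro x hx
  have h1 : j x = ∑ i, ((b.repr x i : ℚ) : ℂ) • c i := by
    conv_lhs => rw [← b.sum_repr x]
    rw [map_sum]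
    exact Finset.sum_congr rfl fun i _ => by rw [hjq, hjb]
  rw [hx] at h1
  have h2 := Fintype.linearIndependent_iff.1 c.linearIndependent _ h1.symm
  have h3 : b.repr x = 0 := by
    ext i
    exact_mod_cast h2 i
  exact (b.repr.map_eq_zero_iff).1 h3

/-- The projection onto the eigenspace, up to a factor, is in the eigenspace. -/
theorem shift {G M : Type} [Group G] [Fintype G] [AddCommGroup M] [Module ℂ M]
    (μ : Representation ℂ G M) (H : Subgroup G) (ψ : H →* ℂˣ) (y : M) (h : H) :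
    μ h (∑ k : H, (((ψ k)⁻¹ : ℂˣ) : ℂ) • μ k y) =
      ((ψ h : ℂˣ) : ℂ) • ∑ k : H, (((ψ k)⁻¹ : ℂˣ) : ℂ) • μ k y := by
  rw [map_sum, Finset.smul_sum]
  refine Fintype.sum_equiv (Equiv.mulLeft h) _ _ fun k => ?_
  rw [map_smul, smul_smul, Equiv.coe_mulLeft]
  have e1 : μ (h : G) (μ (k : G) y) = μ ((h * k : H) : G) y := by
    rw [Subgroup.coe_mul, map_mul]; rfl
  have e2 : ((ψ h : ℂˣ) : ℂ) * (((ψ (h * k))⁻¹ : ℂˣ) : ℂ) = (((ψ k)⁻¹ : ℂˣ) : ℂ) := by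
    rw [← Units.val_mul, map_mul, mul_inv, mul_inv_cancel_left]
  rw [e1, e2]

end YXIx

open YXIx in
theorem YXI_thm : Stmt_YXI := by
  intro hFIXC hXNZ hYFO hYBW hYTR hYEG hYIN G W M _ _ _ _ _ _ τ μ j n b c hjb hjq hjg P a hSys
    ha0 haσ haocc
  obtain ⟨w, f, hwf⟩ := hYBW hXNZ G W M τ μ j n b c hjb hjq hjg (P.filter fun p => a p ≠ 1)
    (fun p hp => haocc p (Finset.mem_filter.1 hp).1 (Finset.mem_filter.1 hp).2)
  have hβσ : ∀ (σ : ℂ ≃+* ℂ) (p : Pr G),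
      σ (∑ h : p.1, (((p.2 h)⁻¹ : ℂˣ) : ℂ) * ((f (τ h w) : ℚ) : ℂ)) =
        ∑ h : p.1, (((twist σ p.2 h)⁻¹ : ℂˣ) : ℂ) * ((f (τ h w) : ℚ) : ℂ) := by
    intro σ p
    rw [map_sum]
    refine Finset.sum_congr rfl fun g _ => ?_
    rw [map_mul, twist_inv_apply, map_ratCast]
  have hcard : ∀ p : Pr G, (Nat.card p.1 : ℂ) ^ 2 ≠ 0 := by
    intro p
    have : Nat.card p.1 ≠ 0 := Nat.card_pos.ne'
    exact pow_ne_zero _ (by exact_mod_cast this)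
  have hcβ : ∀ p ∈ P, (a p - 1) /
      ((Nat.card p.1 : ℂ) ^ 2 * ∑ h : p.1, (((p.2 h)⁻¹ : ℂˣ) : ℂ) * ((f (τ h w) : ℚ) : ℂ)) *
        ((Nat.card p.1 : ℂ) ^ 2 * ∑ h : p.1, (((p.2 h)⁻¹ : ℂˣ) : ℂ) * ((f (τ h w) : ℚ) : ℂ)) =
          a p - 1 := by
    intro p hp
    by_cases h : a p = 1
    · rw [h]; simp
    · exact div_mul_cancel₀ _ (mul_ne_zero (hcard p) (hwf p (Finset.mem_filter.2 ⟨hp, h⟩)))
  obtain ⟨u, hu⟩ := hYFO hFIXC G P (fun p => (a p - 1) /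
      ((Nat.card p.1 : ℂ) ^ 2 * ∑ h : p.1, (((p.2 h)⁻¹ : ℂˣ) : ℂ) * ((f (τ h w) : ℚ) : ℂ)))
    hSys.1 (by
      intro σ p hp
      show σ ((a p - 1) /
        ((Nat.card p.1 : ℂ) ^ 2 * ∑ h : p.1, (((p.2 h)⁻¹ : ℂˣ) : ℂ) * ((f (τ h w) : ℚ) : ℂ))) =
        (a (tw σ p) - 1) / ((Nat.card p.1 : ℂ) ^ 2 *
          ∑ h : p.1, (((twist σ p.2 h)⁻¹ : ℂˣ) : ℂ) * ((f (τ h w) : ℚ) : ℂ))
      rw [map_div₀, map_sub, map_one, haσ σ p hp, map_mul, hβσ, map_pow, map_natCast])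
  obtain ⟨ξ, A, F, hFj, hξτ, hAj, hAμ, hA⟩ := hYTR G W M τ μ j n b c hjb hjq hjg u w f
  obtain ⟨h1, h2⟩ := hYEG G M μ P _ u F (j w) A hSys.2 hu hA
  have hF' : ∀ p ∈ P, ∃ (F : M →ₗ[ℂ] ℂ) (v : M),
      (∀ h : p.1, μ h v = ((p.2 h : ℂˣ) : ℂ) • v) ∧
        (∀ x, (∀ h : p.1, μ h x = ((p.2 h : ℂˣ) : ℂ) • x) → A x = x + F x • v) ∧
          1 + F v = a p := by
    intro p hp
    refine ⟨F, _, ?_, h1 p hp, ?_⟩
    · intro h
      rw [map_smul, shift, smul_comm]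
    · rw [map_smul, map_sum, smul_eq_mul]
      have e : ∑ h : p.1, F ((((p.2 h)⁻¹ : ℂˣ) : ℂ) • μ h (j w)) =
          ∑ h : p.1, (((p.2 h)⁻¹ : ℂˣ) : ℂ) * ((f (τ h w) : ℚ) : ℂ) := by
        refine Finset.sum_congr rfl fun h _ => ?_
        rw [map_smul, smul_eq_mul, ← hjg, hFj]
      rw [e]
      have h3 := hcβ p hp
      rw [mul_assoc, h3]
      ring
  have : Module.Finite ℂ M := Module.Finite.of_basis c
  have : Module.Finite ℚ W := Module.Finite.of_basis b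
  have hbij : Function.Bijective A := hYIN G M μ P A hAμ (fun p hp => by
    obtain ⟨F, v, _, h2, h3⟩ := hF' p hp
    exact ⟨F, v, h2, by rw [h3]; exact ha0 p hp⟩) h2
  have hξ : Function.Injective ξ := by
    intro x y hxy
    apply inj j n b c hjb hjq
    apply hbij.1
    rw [hAj, hAj, hxy]
  exact ⟨LinearEquiv.ofInjectiveEndo ξ hξ, A, hξτ, hAj, hAμ, hbij, hF'⟩

end StarkC.ABS
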