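import Pool.Agent.ABS.FINX
import Pool.Agent.ABS.StY
import Pool.Agent.ABS.YM1
import Pool.Agent.ABS.YM2
import Pool.Agent.ABS.YMK
import Pool.Agent.ABS.YCH
import Pool.Agent.ABS.YCL
import Pool.Agent.ABS.YFA
import Pool.Agent.ABS.YDE
import Pool.Agent.ABS.YRO
import Pool.Agent.ABS.YGD
import Pool.Agent.ABS.YGM
import Pool.Agent.ABS.YFO
import Pool.Agent.ABS.YBW
import Pool.Agent.ABS.YTR
import Pool.Agent.ABS.YEG
import Pool.Agent.ABS.YIN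
import Pool.Agent.ABS.YXI
import Pool.Agent.ABS.YRG
import Pool.Agent.ABS.YRS
import Pool.Agent.ABS.YEV
import Pool.Agent.ABS.YOC
import Pool.Agent.ABS.YPH
import Pool.Agent.ABS.YVN
import Pool.Agent.ABS.YFI
import Pool.Agent.ABS.NPR
import Pool.Agent.ABS.NGP
import Pool.Agent.ABS.NLI
import Pool.Agent.ABS.NEL
import Pool.Agent.ABS.NSU
import Pool.Agent.ABS.NOQ
import Pool.Agent.ABS.NFX

/-!
# Project ABS, part Y: the theorem
-/

set_option autoImplicit false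

open NumberField IsDedekindDomain
open scoped TensorProduct Classical

namespace StarkC.ABS

namespace FINYx

open FINUx FINFx FINXx

theorem conclYI : ConclYI :=
  YXI_thm FIXC_thm XNZ_thm YFO_thm YBW_thm YTR_thm YEG_thm YIN_thm

theorem conclYP : ConclYP := YPH_thm XRG_thm YRG_thm conclYI

theorem conclY : ConclY :=
  YFI_thm SIGT_thm NORMT_thm PCX_thm conclNO YVN_thm XDU_thm XTW_thm YM1_thm
    YM2_thm YMK_thm YCH_thm YCL_thm YFA_thm YDE_thm YRO_thm YRS_thm YEV_thm YOC_thm conclYP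

theorem conclNFX : ConclNFX := NFX_thm (NOQ_thm NEL_thm NSU_thm NGP_thm NLI_thm)

end FINYx

open FINYx

/-- Everything with an abstract condition on the constituents. -/
theorem finalY0 (K L : Type) [Field K] [NumberField K] [Field L] [NumberField L] [Algebra K L]
    [IsGalois K L] (S : Finset (HeightOneSpectrum (𝓞 K))) :
    ∃ Θ : ((L → ℝ) →₀ ℂ) →ₗ[ℂ] ((L → ℝ) →₀ ℂ),
      StarkP.IsTheta K (StarkP.aboveSet K L S) Θ ∧
      ∀ (V : Type) [AddCommGroup V] [Module ℂ V] [Module.Finite ℂ V]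
        (ρ : Representation ℂ (L ≃ₐ[K] L) V), (∀ g, ∃ q : ℚ, ρ.character g = (q : ℂ)) →
        (∀ (W : Type) [AddCommGroup W] [Module ℂ W] [Module.Finite ℂ W]
          (σ : Representation ℂ (L ≃ₐ[K] L) W), σ.IsIrreducible → StarkP.IsSub σ ρ →
          StarkP.OccursIn (StarkP.aboveSet K L S) σ ∧ ∃ p, GoodP p ∧ σ.character = ch p) →
        ∃ F : ℂ → ℂ, StarkP.IsArtinL ρ.character (S : Set (HeightOneSpectrum (𝓞 K))) F ∧
          StarkP.Reg (StarkP.aboveSet K L S) ρ Θ = meromorphicTrailingCoeffAt F 0 := by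
  obtain ⟨φ, Θ₀, hφ, h⟩ := conclY K L S
  obtain ⟨Θ, hΘ, hreg⟩ := StarkB.exists_isTheta (K := K) (L := L)
    (S : Set (HeightOneSpectrum (𝓞 K))) S.finite_toSet φ Θ₀ hφ
  refine ⟨Θ, hΘ, fun V _ _ _ ρ hq hρ => ?_⟩
  obtain ⟨F, hF, hR⟩ := h V ρ hq hρ
  exact ⟨F, ⟨hF.1, hF.2⟩, (hreg V ρ).trans hR⟩

/-- THEOREM (Y): one `φ` for all rational-valued characters whose irreducible constituents `χ` are
`Ind_H ψ`, `ψ` linear with values in `ℚ(χ)` and of order dividing `2ℓ^k`, and occur in `X`. -/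
theorem finalY (K L : Type) [Field K] [NumberField K] [Field L] [NumberField L] [Algebra K L]
    [IsGalois K L] (S : Finset (HeightOneSpectrum (𝓞 K))) :
    ∃ Θ : ((L → ℝ) →₀ ℂ) →ₗ[ℂ] ((L → ℝ) →₀ ℂ),
      StarkP.IsTheta K (StarkP.aboveSet K L S) Θ ∧
      ∀ (V : Type) [AddCommGroup V] [Module ℂ V] [Module.Finite ℂ V]
        (ρ : Representation ℂ (L ≃ₐ[K] L) V), (∀ g, ∃ q : ℚ, ρ.character g = (q : ℂ)) →
        (∀ (W : Type) [AddCommGroup W] [Module ℂ W] [Module.Finite ℂ W]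
          (σ : Representation ℂ (L ≃ₐ[K] L) W), σ.IsIrreducible → StarkP.IsSub σ ρ →
          StarkP.OccursIn (StarkP.aboveSet K L S) σ ∧
          ∃ (H : Subgroup (L ≃ₐ[K] L)) (ψ : H →* ℂˣ) (ℓ k : ℕ), ℓ.Prime ∧
            orderOf ψ ∣ 2 * ℓ ^ k ∧ σ.character = indFun H (extZ ψ) ∧
            ∀ h : H, ((ψ h : ℂˣ) : ℂ) ∈ StarkP.charField σ.character) →
        ∃ F : ℂ → ℂ, StarkP.IsArtinL ρ.character (S : Set (HeightOneSpectrum (𝓞 K))) F ∧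
          StarkP.Reg (StarkP.aboveSet K L S) ρ Θ = meromorphicTrailingCoeffAt F 0 := by
  obtain ⟨Θ, hΘ, h⟩ := finalY0 K L S
  refine ⟨Θ, hΘ, fun V _ _ _ ρ hq hρ => h V ρ hq fun W _ _ _ σ hσ hs => ?_⟩
  obtain ⟨ho, H, ψ, ℓ, k, hℓ, hord, hch, hval⟩ := hρ W σ hσ hs
  exact ⟨ho, YGM_thm (L ≃ₐ[K] L) W σ H ψ ℓ k hℓ hσ hch hval hord⟩

/-- THEOREM (Y) for nilpotent groups. -/
theorem finalYN (K L : Type) [Field K] [NumberField K] [Field L] [NumberField L] [Algebra K L]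
    [IsGalois K L] (ℓ k : ℕ) (S : Finset (HeightOneSpectrum (𝓞 K))) (hℓ : ℓ.Prime)
    (hn : Group.IsNilpotent (L ≃ₐ[K] L))
    (h2 : ∀ a b : L ≃ₐ[K] L, (∃ j : ℕ, a ^ (2 ^ j) = 1) → (∃ j : ℕ, b ^ (2 ^ j) = 1) →
      a * b = b * a)
    (hg : ∀ g : L ≃ₐ[K] L, g ^ (2 * ℓ ^ k) = 1) :
    ∃ Θ : ((L → ℝ) →₀ ℂ) →ₗ[ℂ] ((L → ℝ) →₀ ℂ),
      StarkP.IsTheta K (StarkP.aboveSet K L S) Θ ∧
      ∀ (V : Type) [AddCommGroup V] [Module ℂ V] [Module.Finite ℂ V]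
        (ρ : Representation ℂ (L ≃ₐ[K] L) V), (∀ g, ∃ q : ℚ, ρ.character g = (q : ℂ)) →
        (∀ (W : Type) [AddCommGroup W] [Module ℂ W] [Module.Finite ℂ W]
          (σ : Representation ℂ (L ≃ₐ[K] L) W), σ.IsIrreducible → StarkP.IsSub σ ρ →
          StarkP.OccursIn (StarkP.aboveSet K L S) σ) →
        ∃ F : ℂ → ℂ, StarkP.IsArtinL ρ.character (S : Set (HeightOneSpectrum (𝓞 K))) F ∧
          StarkP.Reg (StarkP.aboveSet K L S) ρ Θ = meromorphicTrailingCoeffAt F 0 := by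
  obtain ⟨Θ, hΘ, h⟩ := finalY0 K L S
  refine ⟨Θ, hΘ, fun V _ _ _ ρ hq hρ => h V ρ hq fun W _ _ _ σ hσ hs => ⟨hρ W σ hσ hs, ?_⟩⟩
  exact YGD_thm conclNFX NPR_thm (L ≃ₐ[K] L) W σ ℓ k hℓ hσ inferInstance
    (fun a b ha hb => by rw [h2 a b ha hb]) hg

/-- THEOREM (Y) for extensions of odd prime power degree. -/
theorem finalYL (K L : Type) [Field K] [NumberField K] [Field L] [NumberField L] [Algebra K L]
    [IsGalois K L] (ℓ k : ℕ) (S : Finset (HeightOneSpectrum (𝓞 K))) (hℓ : ℓ.Prime) (h2 : ℓ ≠ 2)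
    (hG : Module.finrank K L = ℓ ^ k) :
    ∃ Θ : ((L → ℝ) →₀ ℂ) →ₗ[ℂ] ((L → ℝ) →₀ ℂ),
      StarkP.IsTheta K (StarkP.aboveSet K L S) Θ ∧
      ∀ (V : Type) [AddCommGroup V] [Module ℂ V] [Module.Finite ℂ V]
        (ρ : Representation ℂ (L ≃ₐ[K] L) V), (∀ g, ∃ q : ℚ, ρ.character g = (q : ℂ)) →
        (∀ (W : Type) [AddCommGroup W] [Module ℂ W] [Module.Finite ℂ W]
          (σ : Representation ℂ (L ≃ₐ[K] L) W), σ.IsIrreducible → StarkP.IsSub σ ρ →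
          StarkP.OccursIn (StarkP.aboveSet K L S) σ) →
        ∃ F : ℂ → ℂ, StarkP.IsArtinL ρ.character (S : Set (HeightOneSpectrum (𝓞 K))) F ∧
          StarkP.Reg (StarkP.aboveSet K L S) ρ Θ = meromorphicTrailingCoeffAt F 0 := by
  have hcard : Nat.card (L ≃ₐ[K] L) = ℓ ^ k := by
    rw [IsGalois.card_aut_eq_finrank, hG]
  have hp : IsPGroup ℓ (L ≃ₐ[K] L) := IsPGroup.of_card hcard
  have hpow : ∀ g : L ≃ₐ[K] L, g ^ (ℓ ^ k) = 1 := fun g => by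
    rw [← hcard]
    exact pow_card_eq_one'
  have : Fact ℓ.Prime := ⟨hℓ⟩
  have hone : ∀ a : L ≃ₐ[K] L, (∃ j : ℕ, a ^ (2 ^ j) = 1) → a = 1 := by
    rintro a ⟨j, hj⟩
    have h1 : orderOf a ∣ 2 ^ j := orderOf_dvd_of_pow_eq_one hj
    have h3 : orderOf a ∣ ℓ ^ k := orderOf_dvd_of_pow_eq_one (hpow a)
    have hcop : Nat.Coprime (2 ^ j) (ℓ ^ k) :=
      Nat.Coprime.pow _ _ ((Nat.coprime_primes Nat.prime_two hℓ).2 (Ne.symm h2))
    have h4 : orderOf a ∣ 1 := by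
      rw [← Nat.coprime_iff_gcd_eq_one.1 hcop]
      exact Nat.dvd_gcd h1 h3
    exact orderOf_eq_one_iff.1 (Nat.dvd_one.1 h4)
  exact finalYN K L ℓ k S hℓ hp.isNilpotent
    (fun a b ha hb => by rw [hone a ha, hone b hb]) fun g => by
      rw [mul_comm, pow_mul, hpow, one_pow]

end StarkC.ABS
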