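import Pool.Agent.ABS.StA

/-!
# Stark's conjecture in norm, part D (dihedral and semidihedral leaves): algebraic modules

Project ABS (MP_46b841_nt), Mathlib and `StA` only.  `n = 2 ^ k ≥ 8`, `t = -1` or `t = -1 + n / 2` modulo
`n`; `C = ℚ(ζ_n)`, `E ⊆ C` the fixed field of the automorphism `τ : ζ ↦ ζ ^ t`, `[C : E] = 2`.
`G = Gal(L/K)` contains `σ` of order `n` and `γ` with `γ² = 1`, `γ σ = σ ^ t γ`; `F` is the fixed field of
`σ ^ (n / 2)`, `[L : F] = 2`.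

Module `X` proves `theorem ABS.X_thm : Stmt_X` in the file `Pool/Agent/ABS/X.lean`, which begins with
`import Pool.Agent.ABS.StD1` (or `StD2`); helper lemmas in `namespace ABS.X`.  The statements used are
hypotheses inside `Stmt_X` (do not unfold them until needed: `intro hCRD ...`).
-/

open NumberField NumberField.InfinitePlace
open scoped Classical

namespace ABS

/-- `E` is the subfield of `C = ℚ(ζ)`, `ζ` of order `2 ^ k`, fixed by `τ : ζ ↦ ζ ^ t`. -/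
structure FD (k t : ℕ) (E : Type) [Field E] [NumberField E]
    [Algebra E (CyclotomicField (2 ^ k) ℚ)]
    (τ : CyclotomicField (2 ^ k) ℚ ≃ₐ[E] CyclotomicField (2 ^ k) ℚ) : Prop where
  k3 : 3 ≤ k
  cases : (t : ZMod (2 ^ k)) = -1 ∨ (t : ZMod (2 ^ k)) = -1 + 2 ^ (k - 1)
  act : ∀ z : CyclotomicField (2 ^ k) ℚ, z ^ (2 ^ k) = 1 → τ z = z ^ t
  rank : Module.finrank E (CyclotomicField (2 ^ k) ℚ) = 2

section

variable (E : Type) [Field E] [NumberField E]

/-- `q` is a quotient of norms of ideals of `E`. -/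
def IdF (q : ℚ) : Prop :=
  ∃ I J : Ideal (𝓞 E), I ≠ ⊥ ∧ J ≠ ⊥ ∧
    q = (Ideal.absNorm I : ℚ) / (Ideal.absNorm J : ℚ)

/-- `q` is the norm of an element `≠ 0` of `E`. -/
def NoF (q : ℚ) : Prop := ∃ α : E, α ≠ 0 ∧ Algebra.norm ℚ α = q

/-- `q = r² 2^e`, `r` a quotient of norms of ideals of `E`. -/
def SqF (q : ℚ) : Prop := ∃ (r : ℚ) (e : ℤ), IdF E r ∧ q = r ^ 2 * 2 ^ e

variable {E}

theorem IdF.mul {a b : ℚ} (ha : IdF E a) (hb : IdF E b) : IdF E (a * b) := by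
  obtain ⟨I, J, hI, hJ, rfl⟩ := ha
  obtain ⟨I', J', hI', hJ', rfl⟩ := hb
  refine ⟨I * I', J * J', mul_ne_zero hI hI', mul_ne_zero hJ hJ', ?_⟩
  rw [map_mul, map_mul, Nat.cast_mul, Nat.cast_mul, div_mul_div_comm]

theorem IdF.inv {a : ℚ} (ha : IdF E a) : IdF E a⁻¹ := by
  obtain ⟨I, J, hI, hJ, rfl⟩ := ha
  exact ⟨J, I, hJ, hI, by rw [inv_div]⟩

theorem IdF.one : IdF E 1 := ⟨⊤, ⊤, top_ne_bot, top_ne_bot, by simp⟩

theorem IdF.pos {a : ℚ} (ha : IdF E a) : 0 < a := by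
  obtain ⟨I, J, hI, hJ, rfl⟩ := ha
  have h1 : Ideal.absNorm I ≠ 0 := fun h => hI (Ideal.absNorm_eq_zero_iff.1 h)
  have h2 : Ideal.absNorm J ≠ 0 := fun h => hJ (Ideal.absNorm_eq_zero_iff.1 h)
  have h3 : (0 : ℚ) < Ideal.absNorm I := by exact_mod_cast Nat.pos_of_ne_zero h1
  have h4 : (0 : ℚ) < Ideal.absNorm J := by exact_mod_cast Nat.pos_of_ne_zero h2
  positivity

theorem SqF.mul {a b : ℚ} (ha : SqF E a) (hb : SqF E b) : SqF E (a * b) := by
  obtain ⟨r, e, hr, rfl⟩ := ha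
  obtain ⟨r', e', hr', rfl⟩ := hb
  refine ⟨r * r', e + e', hr.mul hr', ?_⟩
  rw [zpow_add₀ (by norm_num : (2 : ℚ) ≠ 0)]
  ring

theorem SqF.inv {a : ℚ} (ha : SqF E a) : SqF E a⁻¹ := by
  obtain ⟨r, e, hr, rfl⟩ := ha
  refine ⟨r⁻¹, -e, hr.inv, ?_⟩
  rw [zpow_neg, inv_pow, mul_inv]

theorem SqF.pos {a : ℚ} (ha : SqF E a) : 0 < a := by
  obtain ⟨r, e, hr, rfl⟩ := ha
  have := hr.pos
  positivity

theorem NoF.mul {a b : ℚ} (ha : NoF E a) (hb : NoF E b) : NoF E (a * b) := by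
  obtain ⟨x, hx, rfl⟩ := ha
  obtain ⟨y, hy, rfl⟩ := hb
  exact ⟨x * y, mul_ne_zero hx hy, map_mul _ _ _⟩

end

/-! ### Finite groups -/

/-- DKR (about 200 lines; USES CRD; see `KER.lean`).  PROOF. `n = 2 ^ k`, `C = ℚ(ζ_n)`.  As in `KER.lean`
(`KER.aeval_cyc` with `l = 2`: `∑_{i < 2} s^[n / 2 * i] x = x - x = 0`) there is a homomorphism of rings
`Φ : 𝓞 C → End M`, `ζ ↦ s`; `s^[n] = id`.  `g Φ(x) = Φ(τ x) g` for all `x ∈ 𝓞 C` (both sides, composed with
`g⁻¹ = g`, are homomorphisms of rings which agree at `ζ`: `PowerBasis.algHom_ext`, or induction with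
`x = ∑ c_i ζ^i`); so the elements of `𝓞 E` (`τ x = x`) act on `M⁺ = {x | g x = x}`, and CRD gives `I` with
`absNorm I = |M⁺|`.  `M = M⁺ ⊕ M⁻` (odd order: `x = y + z`, `2 y = x + g x`), so `|M| = |M⁺| |M⁻|`.
`δ x = s x - s^[t] x` maps `M⁺` into `M⁻` and `M⁻` into `M⁺` (`t² ≡ 1` modulo `n`), and it is injective: with
`ω = s^[t - 1]` (or `s^[n + t - 1]`), `ω^(n / 4) = s^((t - 1) n / 4) = s^(- n / 2) = -1` (both cases, `8 ∣ n`), so
`δ x = 0` gives `ω x = x`, `-x = x`, `x = 0`.  So `|M⁺| = |M⁻|`. -/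
def Stmt_DKR : Prop :=
  Stmt_CRD → ∀ (k t : ℕ) (E : Type) [Field E] [NumberField E]
    [Algebra E (CyclotomicField (2 ^ k) ℚ)]
    (τ : CyclotomicField (2 ^ k) ℚ ≃ₐ[E] CyclotomicField (2 ^ k) ℚ), FD k t E τ →
    ∀ (M : Type) [AddCommGroup M] [Finite M] (s g : M →+ M), Odd (Nat.card M) →
      (∀ x, s^[2 ^ k / 2] x = -x) → (∀ x, g (s x) = s^[t] (g x)) → (∀ x, g (g x) = x) →
      ∃ I : Ideal (𝓞 E), I ≠ ⊥ ∧ Ideal.absNorm I ^ 2 = Nat.card M

/-- The situation of the transfer (as `TRData` for `l = 2`), with the involution `g`. -/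
def TRDataG (n t : ℕ) (A M : Type) [AddCommGroup A] [AddCommGroup M] : Prop :=
  ∃ (s g : M →+ M) (j : A →+ M) (N : M →+ A), (∀ x, s^[n] x = x) ∧ (∀ a, N (j a) = 2 • a) ∧
    (∀ x, j (N x) = ∑ i ∈ Finset.range 2, s^[n / 2 * i] x) ∧
    (∀ x, g (s x) = s^[t] (g x)) ∧ ∀ x, g (g x) = x

/-- The conclusion of DTN. -/
def QuotG : Prop :=
  ∀ (k t : ℕ) (E : Type) [Field E] [NumberField E] [Algebra E (CyclotomicField (2 ^ k) ℚ)]
    (τ : CyclotomicField (2 ^ k) ℚ ≃ₐ[E] CyclotomicField (2 ^ k) ℚ), FD k t E τ →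
    ∀ (A M : Type) [AddCommGroup A] [AddCommGroup M] [Finite A] [Finite M],
      TRDataG (2 ^ k) t A M → SqF E ((Nat.card M : ℚ) / Nat.card A)

/-- DTN (about 170 lines; USES DKR; see `TRN.lean`, from which most can be copied).  PROOF.
`M'' = ker (j N)` is stable under `s` and `g` (`j N = 1 + s^[n/2]` commutes with `s`; and with `g`:
`g s^[n/2] = s^[t n/2] g = s^[n/2] g` as `t` is odd, `s^[n] = id`), and `s^[n / 2] x = -x` on `M''`.
`|M| = |M''| |im (j N)|`, `|A| = |A / im N| |im N|`, `|im N| = |ker (j | im N)| |im (j N)|`, where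
`A / im N` and `ker j` are killed by `2`, so their orders are powers of `2` (`TRN.card_pow`).
`|M''| = 2 ^ e m`, `m` odd; `M' = {x ∈ M'' | m x = 0}` is stable under `s`, `g`, its order is odd (it is killed by
`m`: Cauchy, `exists_prime_addOrderOf_dvd_card'`), and the image of `x ↦ m x` on `M''` is killed by `2 ^ e`, so of
order a power of `2`; `|M''| = |M'| |m M''|`.  DKR for `M'`. -/
def Stmt_DTN : Prop := Stmt_CRD → Stmt_DKR → QuotG

/-! ### Fields -/

/-- The situation: `σ`, `γ` in `Gal(L/K)` with `σ ^ n = 1`, `γ² = 1`, `γ σ = σ ^ t γ`; `F` between, with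
`Gal(L/F) = {1, σ ^ (n / 2)}`. -/
structure TowG (k t : ℕ) (K F L : Type) [Field K] [NumberField K] [Field F] [NumberField F]
    [Field L] [NumberField L] [Algebra K F] [Algebra K L] [Algebra F L] [IsScalarTower K F L]
    [IsGalois F L] (σ γ : L ≃ₐ[K] L) : Prop where
  pow : σ ^ (2 ^ k) = 1
  inv : γ * γ = 1
  conj : γ * σ = σ ^ t * γ
  rank : Module.finrank F L = 2
  sum : ∀ (M : Type) [AddCommMonoid M] (f : (L ≃ₐ[K] L) → M),
      ∑ b : L ≃ₐ[F] L, f (b.restrictScalars K) = ∑ i ∈ Finset.range 2, f (σ ^ (2 ^ k / 2 * i))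

/-- DCG (about 200 lines; USES CLN; see `CLG.lean`, a copy with `l = 2` and the action of `γ`: the lemma
`CLG.ind`, `act`, and `hT.sum`, `hT.pow`, `hT.rank` instead of GEN). -/
def Stmt_DCG : Prop :=
  Stmt_CLN → ∀ (k t : ℕ) (K F L : Type) [Field K] [NumberField K] [Field F]
    [NumberField F] [Field L] [NumberField L] [Algebra K F] [Algebra K L] [Algebra F L]
    [IsScalarTower K F L] [IsGalois F L] (σ γ : L ≃ₐ[K] L), TowG k t K F L σ γ →
    TRDataG (2 ^ k) t (Additive (ClassGroup (𝓞 F))) (Additive (ClassGroup (𝓞 L)))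

/-- DMU (about 60 lines; see `MUG.lean`, whose lemmas can be imported: `import Pool.Agent.ABS.MUG`). -/
def Stmt_DMU : Prop :=
  ∀ (k t : ℕ) (K F L : Type) [Field K] [NumberField K] [Field F] [NumberField F]
    [Field L] [NumberField L] [Algebra K F] [Algebra K L] [Algebra F L] [IsScalarTower K F L]
    [IsGalois F L] (σ γ : L ≃ₐ[K] L), TowG k t K F L σ γ →
    TRDataG (2 ^ k) t (Additive (Units.torsion F)) (Additive (Units.torsion L))

/-- DQU (about 120 lines; USES JN, JV, LG; see `QUO.lean`, whose lemmas can be imported). -/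
def Stmt_DQU : Prop :=
  Stmt_JN → Stmt_JV → Stmt_LG →
  ∀ (k t : ℕ) (K F L : Type) [Field K] [NumberField K] [Field F] [NumberField F]
    [Field L] [NumberField L] [Algebra K F] [Algebra K L] [Algebra F L] [IsScalarTower K F L]
    [IsGalois F L] (σ γ : L ≃ₐ[K] L), TowG k t K F L σ γ →
    ∀ (A B : AddSubgroup (V F)) (A' B' : AddSubgroup (V L)),
      (∀ (x : V F) (y : V L), (y : InfinitePlace L → ℝ) = jf F L x →
        (x ∈ A → y ∈ A') ∧ (x ∈ B → y ∈ B')) →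
      (∀ (y : V L) (x : V F), (x : InfinitePlace F → ℝ) = nf F L y →
        (y ∈ A' → x ∈ A) ∧ (y ∈ B' → x ∈ B)) →
      (∀ (g : L ≃ₐ[K] L) (y z : V L), (z : InfinitePlace L → ℝ) = actf g y →
        (y ∈ A' → z ∈ A') ∧ (y ∈ B' → z ∈ B')) →
      TRDataG (2 ^ k) t (B ⧸ A.addSubgroupOf B) (B' ⧸ A'.addSubgroupOf B')

/-- The conclusion of DCO. -/
def CoreG : Prop :=
  ∀ (k t : ℕ) (E : Type) [Field E] [NumberField E] [Algebra E (CyclotomicField (2 ^ k) ℚ)]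
    (τ : CyclotomicField (2 ^ k) ℚ ≃ₐ[E] CyclotomicField (2 ^ k) ℚ), FD k t E τ →
    ∀ (K F L : Type) [Field K] [NumberField K] [Field F] [NumberField F]
    [Field L] [NumberField L] [Algebra K F] [Algebra K L] [Algebra F L] [IsScalarTower K F L]
    [IsGalois F L] (σ γ : L ≃ₐ[K] L), TowG k t K F L σ γ →
    ∀ (T : V L →ₗ[ℝ] V L) (T' : V F →ₗ[ℝ] V F), TH K F L T T' →
    ∃ q : ℚ, SqF E q ∧
      |LinearMap.det T| / (classNumber L * Units.regulator L / Units.torsionOrder L) =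
        (q : ℝ) * (|LinearMap.det T'| /
          (classNumber F * Units.regulator F / Units.torsionOrder F))

/-- DCO (about 170 lines; a copy of `CORE.lean`, whose lemmas (`card_quot`, `finite_quot`, `img`,
`mem_img`, `calc_final`) can be imported: `import Pool.Agent.ABS.CORE`; `pair` for SqF). -/
def Stmt_DCO : Prop :=
  QuotG → Stmt_CLN → Stmt_DCG → Stmt_DMU → Stmt_JN → Stmt_JV → Stmt_LJ → Stmt_LG → Stmt_DQU →
    Stmt_REG1 → Stmt_XI → Stmt_MUL → Stmt_COMN → CoreG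

end ABS
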