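import Pool.Agent.ABS.StZH
import Pool.Agent.ABS.StS
import Pool.Agent.ABS.StD1

/-!
# Project ABS (MP_46b841_nt), part Z (group part), the assembly

The interface with the arithmetic part D (`ConclDG`, `ConclL`; helper37), and the end of the proof for the characters
with a dihedral or semidihedral leaf.

Module `X` proves `theorem StarkC.ABS.X_thm : Stmt_X` in the file `Pool/Agent/ABS/X.lean` (import
`Pool.Agent.ABS.StZI` and the finished modules named in the text); helper lemmas in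
`namespace StarkC.ABS.Xx`.  The statements used are hypotheses inside `Stmt_X`.
-/

set_option autoImplicit false

open NumberField IsDedekindDomain
open scoped TensorProduct Classical

namespace StarkC.ABS

open StarkC.MON
open StarkP (rootField charField trChar NormIn AbsIn IsTheta)

/-- `a` is the norm of an element of the field `E` fixed by `ζ ↦ ζ^s` in `ℚ(ζ_(2^n))` (`FD`, `NoF`: `ABS/StD1.lean`). -/
def NoG (n s : ℕ) (a : ℚ) : Prop :=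
  ∃ (E : Type) (_ : Field E) (_ : NumberField E) (_ : Algebra E (CyclotomicField (2 ^ n) ℚ))
    (τ : CyclotomicField (2 ^ n) ℚ ≃ₐ[E] CyclotomicField (2 ^ n) ℚ),
    _root_.ABS.FD n s E τ ∧ _root_.ABS.NoF E a

/-- `(κ, a) = 0` for all characters `κ` of `(ZMod (2 ^ n))ˣ` with `κ(s) = 1`. -/
def CS (n s : ℕ) (a : ℚ) : Prop :=
  a ≠ 0 ∧ ∀ (d : ℕ) [NeZero d] (κ : (ZMod (2 ^ n))ˣ →* Multiplicative (ZMod d)),
    (∀ u : (ZMod (2 ^ n))ˣ, (u : ZMod (2 ^ n)) = (s : ZMod (2 ^ n)) → κ u = 1) →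
    Coch (2 ^ n) d a κ

/-- `A_S(θ, φ) = a`. -/
def Val {K L : Type} [Field K] [NumberField K] [Field L] [NumberField L] [Algebra K L]
    (θ : (L ≃ₐ[K] L) → ℂ) (S : Finset (HeightOneSpectrum (𝓞 K)))
    (Θ : XC L (aboveSet K L S) →ₗ[ℂ] XC L (aboveSet K L S)) (a : ℂ) : Prop :=
  ∃ F : ℂ → ℂ, IsArtinL θ (S : Set (HeightOneSpectrum (𝓞 K))) F ∧
    ∀ (V : Type) [AddCommGroup V] [Module ℂ V] [Module.Finite ℂ V]
      (ρ : Representation ℂ (L ≃ₐ[K] L) V), (∀ g, ρ.character g = θ g) →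
      Reg (aboveSet K L S) ρ Θ = a * meromorphicTrailingCoeffAt F 0

/-- Half of the sum of the conjugates of `Ind_A ψ`. -/
noncomputable def hTr {G : Type} [Group G] [Fintype G] (A : Subgroup G) (ψ : A →* ℂˣ) (o : ℕ) :
    G → ℂ := fun x => (∑ j ∈ Ex o, indFun A (extZ (ψ ^ j)) x) / 2

/-- PART D (helper37), leaves of order `2^n`. -/
def ConclDG : Prop :=
  ∀ (K L : Type) [Field K] [NumberField K] [Field L] [NumberField L] [Algebra K L] [IsGalois K L]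
    (S : Finset (HeightOneSpectrum (𝓞 K)))
    (φ : XQ L (aboveSet K L S) ≃ₗ[ℚ] QU L (aboveSet K L S))
    (Θ : XC L (aboveSet K L S) →ₗ[ℂ] XC L (aboveSet K L S))
    (A : Subgroup (L ≃ₐ[K] L)) (ψ : A →* ℂˣ) (g : L ≃ₐ[K] L) (n s : ℕ),
    IsPhiTheta K (aboveSet K L S) φ Θ → 3 ≤ n → Leaf A ψ g n 1 s →
    ∃ a : ℚ, Val (hTr A ψ (2 ^ n)) S Θ (a : ℂ) ∧ NoG n s a

/-- ZCB (180 lines; model `SPB_thm`, `ABS/SPB.lean`).  The cochains from a norm.  PROOF. `N = 2 ^ n`, `ι : ℚ(ζ_N) → ℂ`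
(`CyclotomicField N ℚ`), `E` of degree `φ(N)/2` (`FD.rank`), `α : E` with `norm α = a`, `y = ι α ∈ rootField N`.
(1) For `g : ℂ ≃+* ℂ` with `cych N g = s` or `1`: `g (ι x) = ι (τ x)` resp. `ι x` for all `x` (both sides are homomorphisms of
rings which agree at the roots of unity, `FD.act`; see `ABS/SCY.lean`, `ABS/SNM.lean`), so `g y = y` (`τ` is over `E`).  So
`g y = g' y` if `cych N g` and `cych N g'` are equal in `Q = (ZMod N)ˣ ⧸ zpowers s` (`s * s = 1` in `(ZMod N)ˣ`).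
(2) `a = ∏_{q : Q} g_q y`, `cych N (g_q) = q.out`: `Algebra.norm_eq_prod_embeddings ℚ ℂ α`, and `q ↦ g_q ∘ ι` is a
bijection of `Q` with `E →ₐ[ℚ] ℂ`: surjective, as an embedding of `E` extends to `ℚ(ζ_N)` (`IsAlgClosed.lift`, over `E`), and
the extension is `g ∘ ι` for some `g` (SCY, it maps `ζ` to a primitive root); both sides have `φ(N)/2` elements
(`AlgHom.card`, `Module.finrank_mul_finrank`, `Subgroup.card_eq_card_quotient_mul_card_subgroup`, `s` has order `2`).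
(3) `b u = ∏_{q : Q, vl' q < vl κ u} g_q y`, `vl' q = vl κ q.out` (`κ` is trivial at `s`), with the proof of SPB
(`SPBx.count`), `Q` in place of `(ZMod n)ˣ`. -/
def Stmt_ZCB : Prop :=
  Stmt_SCY → ∀ (n s : ℕ) (a : ℚ), NoG n s a → CS n s a

/-- ZCM (50 lines).  Products and inverses of the cochains (`Finset.prod`, `zpow`; rational numbers are fixed by all
automorphisms; `a ≠ 0`). -/
def Stmt_ZCM : Prop :=
  ∀ (n s : ℕ) (ι : Type) (I : Finset ι) (a : ι → ℚ) (c : ι → ℤ),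
    (∀ i ∈ I, CS n s (a i)) → CS n s (∏ i ∈ I, a i ^ c i)

/-- ZCK (80 lines).  PROOF. SCR (`x = 2 ^ n`, `y = m`): `κ = (κ₁ ∘ unitsMap) (κ₂ ∘ unitsMap)`.  `κ₁ s = 1`: take `u` with
`u = s` modulo `2 ^ n m` (`s` is prime to `2 ^ n` and to `m`, `s = 1` modulo `m`), then `κ u = κ₁ s`.  CS for `κ₁`, SPA for `m` and
`κ₂`; SPI twice, SPM. -/
def Stmt_ZCK : Prop :=
  Stmt_SCY → Stmt_SNM → Stmt_SPB → Stmt_SPM → Stmt_SPI → Stmt_SCR → Stmt_SPA →
  ∀ (n m s d : ℕ) [NeZero (2 ^ n * m)] [NeZero d] (a : ℚ), TT n s → Odd m → s % m = 1 % m →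
    CS n s a →
    (∀ p k : ℕ, p.Prime → 0 < k → p ^ k ∣ m → (m / p ^ k).Coprime p →
      ∃ α : rootField (p ^ k), Algebra.norm ℚ α = a) →
    ∀ κ : (ZMod (2 ^ n * m))ˣ →* Multiplicative (ZMod d),
      (∀ u : (ZMod (2 ^ n * m))ˣ, (u : ZMod (2 ^ n * m)) = (s : ZMod (2 ^ n * m)) → κ u = 1) →
      Coch (2 ^ n * m) d a κ

/-- ZCF (60 lines).  PROOF. Copy of `SFF_thm` (`ABS/SFF.lean`; its lemmas can be imported): the `κ` of SKA satisfies the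
condition. -/
def Stmt_ZCF : Prop :=
  Stmt_SCY → Stmt_SH9 → Stmt_SKA → ∀ (N : ℕ) [NeZero N] (a : ℚ) (F : IntermediateField ℚ ℂ), a ≠ 0 →
    (∀ (d : ℕ) [NeZero d] (κ : (ZMod N)ˣ →* Multiplicative (ZMod d)),
      (∀ h : ℂ ≃+* ℂ, (∀ x ∈ F, h x = x) → κ (cych N h) = 1) → Coch N d a κ) →
    F ≤ rootField N → IsGalois ℚ F → IsCyclic (F ≃ₐ[ℚ] F) →
      ∃ β : F, Algebra.norm ℚ β = a

/-- The arithmetic: norms from the cyclic subfields of `ℚ(ζ_(2^n m))` fixed by `ζ ↦ ζ^s`. -/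
def ConclL : Prop :=
  ∀ (n m s : ℕ) (a : ℚ) (E : IntermediateField ℚ ℂ), TT n s → Odd m → s % m = 1 % m →
    CS n s a →
    (∀ p k : ℕ, p.Prime → 0 < k → p ^ k ∣ m → (m / p ^ k).Coprime p →
      ∃ α : rootField (p ^ k), Algebra.norm ℚ α = a) →
    E ≤ rootField (2 ^ n * m) → IsGalois ℚ E → IsCyclic (E ≃ₐ[ℚ] E) →
    (∀ σ : ℂ ≃+* ℂ, (∀ z : ℂ, z ^ (2 ^ n * m) = 1 → σ z = z ^ s) → ∀ x ∈ E, σ x = x) →
    ∃ β : E, Algebra.norm ℚ β = a

/-- ZCL (60 lines).  PROOF. ZCF for `N = 2 ^ n m`: let `κ` be trivial at the `cych N h`, `h` trivial on `E`.  If `u = s` in `ZMod N`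
take `σ` with `cych N σ = u` (SCY): `σ z = z ^ s` for `z ^ N = 1` (`modularCyclotomicCharacter.spec`), so `σ` is trivial on
`E` and `κ u = 1`.  ZCK. -/
def Stmt_ZCL : Prop :=
  Stmt_SCY → Stmt_SNM → Stmt_SPB → Stmt_SPM → Stmt_SPI → Stmt_SCR → Stmt_SPA → Stmt_SH9 →
  Stmt_SKA → Stmt_ZCK → Stmt_ZCF → ConclL

/-- ZUN (100 lines), uniqueness of values.  PROOF. There is a representation with the character `θ` (direct sum
of the induced representations, `StarkT/INDREP.lean`; `Representation.prod`), its regulator is not zero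
(`StarkG.reg_ne_zero`), so the trailing coefficients of the two functions are not zero, and they are equal
(`LASTx.trail_unique`, see its use in `ABS/ABL.lean` or `ABS/FAB.lean`). -/
def Stmt_ZUN : Prop :=
  ∀ (K L : Type) [Field K] [NumberField K] [Field L] [NumberField L] [Algebra K L] [IsGalois K L]
    (S : Finset (HeightOneSpectrum (𝓞 K)))
    (φ : XQ L (aboveSet K L S) ≃ₗ[ℚ] QU L (aboveSet K L S))
    (Θ : XC L (aboveSet K L S) →ₗ[ℂ] XC L (aboveSet K L S))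
    (C : Subgroup (L ≃ₐ[K] L)) (ε : C →* ℂˣ) (q : ℕ) (θ : (L ≃ₐ[K] L) → ℂ) (a b : ℂ),
    IsPhiTheta K (aboveSet K L S) φ Θ → (∀ x, θ x = ∑ j ∈ Ex q, indFun C (extZ (ε ^ j)) x) →
    Val θ S Θ a → Val θ S Θ b → a = b

/-- ZVA (200 lines), the value for a leaf.  PROOF. ZID gives `C`, `ε` of order `2 m` with
`hTr A ψ (2^n m) = ∑_{j ∈ Ex 2m} Ind_C ε^j`, ZRM gives the leaves `B d`, `η d`, and ZID for them gives
`C_d`, `ε_d` of order `2` with `hTr (B d) (η d) (2^n) = ∑_{j ∈ Ex 2} Ind_(C_d) ε_d^j`, so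
`hTr A ψ (2^n m) = ∑_{d ∣ m} μ(d) ∑_{j ∈ Ex 2} Ind_(C_d) ε_d^j`.  PCX for the family `C`, `C_d` (`d ∣ m`; index it by
`Fin (r + 1)`, `Fin.cons`, `m.divisors.equivFin`) with `q = 2m`, `2`, `Q = QQ (2m)`, `QQ 2` (ConclV; `liftChar H ψ` has the
order of `ψ`: `hord'` in `abs_ind`, `ABS/ABL.lean`, or the proof of `PPP_thm`): numbers `x₀`, `x_d`.  With the coefficients
`(1, 0)`: `A = x₀`, rational and a norm from all cyclic `E ≤ rootField (2m)`; with `(0, μ)`: `A = ∏ x_d ^ μ(d)`, so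
`x₀ = ∏ x_d ^ μ(d)` (ZUN); with `(0, 1_d)` and ConclDG: `x_d = a_d` (ZUN) with `NoG n s (a_d)`, if `n ≥ 3`, so
`CS n s (a_d)` (ZCB), and ZCM.  (SCY: `SCY_thm` or a hypothesis.) -/
def Stmt_ZVA : Prop :=
  Stmt_PCX → ConclV → ConclDG → Stmt_SCY → Stmt_ZCB → Stmt_ZCM → Stmt_RAM → Stmt_IDX → Stmt_ZID →
  Stmt_ZRM → Stmt_ZUN →
  ∀ (K L : Type) [Field K] [NumberField K] [Field L] [NumberField L] [Algebra K L] [IsGalois K L]
    (S : Finset (HeightOneSpectrum (𝓞 K)))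
    (φ : XQ L (aboveSet K L S) ≃ₗ[ℚ] QU L (aboveSet K L S))
    (Θ : XC L (aboveSet K L S) →ₗ[ℂ] XC L (aboveSet K L S))
    (A : Subgroup (L ≃ₐ[K] L)) (ψ : A →* ℂˣ) (g : L ≃ₐ[K] L) (n m s : ℕ),
    IsPhiTheta K (aboveSet K L S) φ Θ → Leaf A ψ g n m s →
    ∃ a : ℚ, a ≠ 0 ∧ Val (hTr A ψ (2 ^ n * m)) S Θ (a : ℂ) ∧
      (∀ E : IntermediateField ℚ ℂ, E ≤ rootField (2 * m) → IsGalois ℚ E →
        IsCyclic (E ≃ₐ[ℚ] E) → ∃ β : E, Algebra.norm ℚ β = a) ∧ (3 ≤ n → CS n s a)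

/-- ZFD (120 lines), fields.  `F ≤ rootField (2^n m)` is fixed by `ζ ↦ ζ^s`.  PROOF. (1) `n = 2`: `x ∈ F` is fixed by every `σ`
with `σ z = z` for `z^(2m) = 1`: `σ z = z^j` for `z^(4m) = 1` (SIGT-like: `σ` maps a primitive root to a power of it),
`j = 1` modulo `2 m`, so `j = 1` or `j = s` modulo `4 m`.  So `F ≤ rootField (2m)` (`FIXC_thm`, `ABS/FIXC.lean`).
(2) `i ∉ F`: take `σ` with `σ z = z^s` (SIGT): `σ i = i^s = -i`.  (3) `m = 1` and `F` is the whole fixed field: its group is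
a quotient of `(ZMod (2^n))ˣ` by `s`, generated by the image of `5` (`-1` is `s`, or `s` times a power of `5`:
every unit is `± 5^j`, see `AU4_thm`, `ABS/AU4.lean`), so it is cyclic; `F/ℚ` is Galois by `galois_of_le`
(`ABS/SYMH.lean`); surjectivity from `rootField (2^n)`: `AlgEquiv.restrictNormalHom_surjective` (see `PCY_thm`). -/
def Stmt_ZFD : Prop :=
  Stmt_SIGT →
  ∀ (n m s : ℕ) (F : IntermediateField ℚ ℂ), TT n s → Odd m → s % m = 1 % m →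
    F ≤ rootField (2 ^ n * m) →
    (∀ σ : ℂ ≃+* ℂ, (∀ z : ℂ, z ^ (2 ^ n * m) = 1 → σ z = z ^ s) → ∀ x ∈ F, σ x = x) →
    (n = 2 → F ≤ rootField (2 * m)) ∧ Complex.I ∉ F ∧
    (m = 1 → (IsGalois ℚ F ∧ IsCyclic (F ≃ₐ[ℚ] F)))

/-- ZEN (200 lines), the end for a leaf.  PROOF. ZFX and ZTR (`o = 2^n m`, `s`): `charField χ ≤ rootField o` and
`trChar χ = hTr A ψ o`; ZVA for `φ`, `Θ₀` from `StarkB.exists_isPhiTheta`.  `E ≤ charField χ` cyclic, `E` Galois (`PCY_thm` or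
`galois_of_le`); the automorphisms `z ↦ z^s` fix `χ` (ZFX), so `charField χ` (`MASx.fix_of`, `ABS/MAS.lean`), so `E`.
`n = 2`: ZFD and ZVA (`E ≤ rootField (2m)`).  `n ≥ 3`: ConclL with ZVA; the norms from `rootField (p^k)`, `p^k ∣ m`, `p` odd:
`rootField (p^k) ≤ rootField (2m)` is Galois and cyclic (`FENx`/`SYMH`: `IsCyclotomicExtension`, odd prime power).  The
printed form: `NASx.normIn_of_PE`-like (`ABS/NAS.lean`).  (b) `charField χ = rootField q`, `q` a prime power: `4 ∤ q` as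
`i ∉ charField χ` (ZFD), so `q` is odd or `2` and `rootField q` is cyclic: (a).  (c) image of `2`-power order: `m = 1` (ZIM),
`charField χ` is cyclic (ZFD): (a). -/
def Stmt_ZEN : Prop :=
  Stmt_SIGT → Stmt_TRT → Stmt_ZFX → Stmt_ZTR → Stmt_ZFD → Stmt_ZIM → ConclL →
  (∀ (K L : Type) [Field K] [NumberField K] [Field L] [NumberField L] [Algebra K L] [IsGalois K L]
    (S : Finset (HeightOneSpectrum (𝓞 K)))
    (φ : XQ L (aboveSet K L S) ≃ₗ[ℚ] QU L (aboveSet K L S))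
    (Θ : XC L (aboveSet K L S) →ₗ[ℂ] XC L (aboveSet K L S))
    (A : Subgroup (L ≃ₐ[K] L)) (ψ : A →* ℂˣ) (g : L ≃ₐ[K] L) (n m s : ℕ),
    IsPhiTheta K (aboveSet K L S) φ Θ → Leaf A ψ g n m s →
    ∃ a : ℚ, a ≠ 0 ∧ Val (hTr A ψ (2 ^ n * m)) S Θ (a : ℂ) ∧
      (∀ E : IntermediateField ℚ ℂ, E ≤ rootField (2 * m) → IsGalois ℚ E →
        IsCyclic (E ≃ₐ[ℚ] E) → ∃ β : E, Algebra.norm ℚ β = a) ∧ (3 ≤ n → CS n s a)) →
  ∀ (K L : Type) [Field K] [NumberField K] [Field L] [NumberField L] [Algebra K L] [IsGalois K L]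
    (S : Finset (HeightOneSpectrum (𝓞 K))) (Θ : ((L → ℝ) →₀ ℂ) →ₗ[ℂ] ((L → ℝ) →₀ ℂ))
    (V : Type) [AddCommGroup V] [Module ℂ V] [Module.Finite ℂ V]
    (ρ : Representation ℂ (L ≃ₐ[K] L) V)
    (A : Subgroup (L ≃ₐ[K] L)) (ψ : A →* ℂˣ) (g : L ≃ₐ[K] L) (n m s : ℕ),
    IsTheta K (StarkP.aboveSet K L S) Θ → Leaf A ψ g n m s →
    ρ.character = indFun A (extZ ψ) →
    (∀ σ : ℂ ≃+* ℂ, (∀ x, σ (ρ.character x) = ρ.character x) →
      (∀ a, σ ((ψ a : ℂˣ) : ℂ) = ((ψ a : ℂˣ) : ℂ)) ∨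
        ∀ a, σ ((ψ a : ℂˣ) : ℂ) = ((ψ a : ℂˣ) : ℂ) ^ s) →
    (∀ E : IntermediateField ℚ ℂ, E ≤ charField ρ.character → IsCyclic (E ≃ₐ[ℚ] E) →
      NormIn E ρ.character (S : Set (HeightOneSpectrum (𝓞 K))) Θ) ∧
    (∀ q : ℕ, IsPrimePow q → charField ρ.character = rootField q →
      NormIn (charField ρ.character) ρ.character (S : Set (HeightOneSpectrum (𝓞 K))) Θ) ∧
    ((∀ x, ∃ j : ℕ, ρ (x ^ (2 ^ j)) = 1) →
      NormIn (charField ρ.character) ρ.character (S : Set (HeightOneSpectrum (𝓞 K))) Θ)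

end StarkC.ABS
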