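import Pool.Agent.ABS.StZI
import Pool.Agent.ABS.AU4
import Pool.Agent.ABS.FIXC
import Pool.Agent.ABS.SYMH
import Pool.Agent.ABS.VIN

/-!
# ABS_ZFD: subfields of `ℚ(ζ_(2^n m))` fixed by `ζ ↦ ζ^s` (MP_46b841_nt, part Z)
-/

set_option autoImplicit false

open scoped Classical

namespace StarkC.ABS

open StarkP (rootField)

namespace ZFDx

/-- automorphisms of `ℂ` which agree on the roots of unity agree on the field -/
theorem agree {N : ℕ} {σ τ : ℂ ≃+* ℂ} (h : ∀ z : ℂ, z ^ N = 1 → σ z = τ z) {x : ℂ}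
    (hx : x ∈ rootField N) : σ x = τ x := by
  unfold StarkP.rootField at hx
  induction hx using IntermediateField.adjoin_induction with
  | mem z hz => exact h z hz
  | algebraMap q => rw [eq_ratCast, map_ratCast, map_ratCast]
  | add a b _ _ ha hb => rw [map_add, map_add, ha, hb]
  | inv a _ ha => rw [map_inv₀, map_inv₀, ha]
  | mul a b _ _ ha hb => rw [map_mul, map_mul, ha, hb]

theorem pw {z : ℂ} {N a b : ℕ} (hz : z ^ N = 1) (h : a ≡ b [MOD N]) : z ^ a = z ^ b := by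
  have h1 : a % N = b % N := h
  rw [pow_eq_pow_mod a hz, pow_eq_pow_mod b hz, h1]

theorem four_dvd {n s : ℕ} (h : TT n s) : 4 ∣ s + 1 := by
  have e4 : (4 : ℕ) = 2 ^ 2 := by norm_num
  rw [e4]
  obtain ⟨h2, h | ⟨h3, h⟩⟩ := h
  · exact (pow_dvd_pow 2 h2).trans (Nat.dvd_of_mod_eq_zero h)
  · have h6 := Nat.div_add_mod (s + 1) (2 ^ n)
    rw [h] at h6
    rw [← h6]
    exact Dvd.dvd.add ((pow_dvd_pow 2 h2).mul_right _) (pow_dvd_pow 2 (by omega))

theorem coprime {n m s : ℕ} (h : TT n s) (hm : s % m = 1 % m) : (2 ^ n * m).Coprime s := by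
  have h4 := four_dvd h
  refine Nat.Coprime.mul_left (Nat.Coprime.pow_left n ?_) ?_
  · rw [Nat.coprime_two_left, Nat.odd_iff]
    omega
  · have h1 : s ≡ 1 [MOD m] := hm
    have h2 := h1.gcd_eq
    rw [Nat.gcd_one_left, Nat.gcd_comm] at h2
    exact h2

theorem I_notMem {n m s : ℕ} {F : IntermediateField ℚ ℂ} (h : TT n s) {σ : ℂ ≃+* ℂ}
    (hσ : ∀ z : ℂ, z ^ (2 ^ n * m) = 1 → σ z = z ^ s) (hfix : ∀ x ∈ F, σ x = x) :
    Complex.I ∉ F := by
  intro hI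
  have h1 := hfix _ hI
  have h2 : Complex.I ^ (2 ^ n * m) = 1 := by
    have h3 : 4 ∣ 2 ^ n * m := by
      have e4 : (4 : ℕ) = 2 ^ 2 := by norm_num
      rw [e4]
      exact (pow_dvd_pow 2 h.1).mul_right _
    obtain ⟨c, hc⟩ := h3
    rw [hc, pow_mul, Complex.I_pow_four, one_pow]
  rw [hσ _ h2] at h1
  obtain ⟨q, hq⟩ := four_dvd h
  obtain ⟨r, rfl⟩ : ∃ r, q = r + 1 := ⟨q - 1, by omega⟩
  have h3 : s = 4 * r + 3 := by omega
  rw [h3, pow_add, pow_mul, Complex.I_pow_four, one_pow, one_mul, Complex.I_pow_three] at h1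
  have h4 : (Complex.I : ℂ) = 0 := by
    have h5 : (2 : ℂ) * Complex.I = 0 := by linear_combination -h1
    rcases mul_eq_zero.1 h5 with h6 | h6
    · exact absurd h6 two_ne_zero
    · exact h6
  exact Complex.I_ne_zero h4

/-- order `4 m` -/
theorem four_case {m s : ℕ} {F : IntermediateField ℚ ℂ} (h4 : 4 ∣ s + 1) (hm : Odd m)
    (hs : s % m = 1 % m) (hF : F ≤ rootField (4 * m))
    (hfix : ∀ σ : ℂ ≃+* ℂ, (∀ z : ℂ, z ^ (4 * m) = 1 → σ z = z ^ s) → ∀ x ∈ F, σ x = x) :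
    F ≤ rootField (2 * m) := by
  intro x hx
  have hm0 : 0 < m := hm.pos
  refine FIXC_thm (2 * m) x fun σ hσ => ?_
  obtain ⟨j, hj, hact⟩ := VINx.act σ (4 * m) (by omega)
  have hj1 : 1 ≤ j := by
    rcases Nat.eq_zero_or_pos j with h0 | h0
    · rw [h0, Nat.coprime_zero_right] at hj
      omega
    · exact h0
  have hζ := Complex.isPrimitiveRoot_exp (4 * m) (by omega)
  obtain ⟨ζ, hζd⟩ : ∃ ζ, ζ = Complex.exp (2 * Real.pi * Complex.I / ((4 * m : ℕ) : ℂ)) := ⟨_, rfl⟩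
  rw [← hζd] at hζ
  have h1 : (ζ ^ 2) ^ (2 * m) = 1 := by
    rw [← pow_mul, ← hζ.pow_eq_one]
    congr 1
    ring
  have h2 : σ (ζ ^ 2) = ζ ^ 2 := hσ _ (IntermediateField.subset_adjoin ℚ _ h1)
  have h3 : σ (ζ ^ 2) = (ζ ^ 2) ^ j := hact _ (by
    rw [show 4 * m = 2 * m * 2 by ring, pow_mul, h1, one_pow])
  have hζ0 : ζ ≠ 0 := hζ.ne_zero (by omega)
  have h5 : ζ ^ (2 * (j - 1)) = 1 := by
    have h6 : ζ ^ (2 * (j - 1)) * ζ ^ 2 = 1 * ζ ^ 2 := by
      rw [one_mul, ← pow_add, show 2 * (j - 1) + 2 = 2 * j by omega, pow_mul, ← h3, h2]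
    exact mul_right_cancel₀ (pow_ne_zero 2 hζ0) h6
  have h7 : 4 * m ∣ 2 * (j - 1) := hζ.dvd_of_pow_eq_one _ h5
  have h8 : 2 * m ∣ j - 1 := by
    refine Nat.dvd_of_mul_dvd_mul_left (by norm_num : 0 < 2) ?_
    rw [← mul_assoc]
    exact h7
  obtain ⟨q, hq⟩ := h8
  rcases Nat.even_or_odd q with hq2 | hq2
  · -- `σ` is trivial
    obtain ⟨r, hr⟩ := hq2
    have h9 : j ≡ 1 [MOD 4 * m] := by
      refine ((Nat.modEq_iff_dvd' hj1).2 ?_).symm
      exact ⟨r, by rw [hq, hr]; ring⟩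
    refine agree (N := 4 * m) (τ := RingEquiv.refl ℂ) (fun z hz => ?_) (hF hx)
    rw [hact z hz, pw hz h9, pow_one]
    rfl
  · refine hfix σ (fun z hz => ?_) x hx
    rw [hact z hz]
    refine pw hz ?_
    obtain ⟨r, hr⟩ := hq2
    have h9 : j ≡ 1 + 2 * m [MOD 4 * m] := by
      refine ((Nat.modEq_iff_dvd' ?_).2 ?_).symm
      · have h11 : 2 * m * (2 * r + 1) = j - 1 := by rw [hq, hr]
        have h12 : 2 * m * (2 * r + 1) = 4 * m * r + 2 * m := by ring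
        generalize 4 * m * r = y at h12
        omega
      · refine ⟨r, ?_⟩
        have h10 : j - (1 + 2 * m) = j - 1 - 2 * m := by omega
        rw [h10, hq, hr]
        have : 2 * m * (2 * r + 1) = 4 * m * r + 2 * m := by ring
        omega
    refine h9.trans ?_
    have hcop : Nat.Coprime 4 m := by
      have e4 : (4 : ℕ) = 2 ^ 2 := by norm_num
      rw [e4]
      exact Nat.Coprime.pow_left 2 (Nat.coprime_two_left.2 hm)
    refine (Nat.modEq_and_modEq_iff_modEq_mul hcop).1 ⟨?_, ?_⟩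
    · obtain ⟨c, hc⟩ := hm
      show (1 + 2 * m) % 4 = s % 4
      omega
    · have h10 : 1 + 2 * m ≡ 1 [MOD m] := by
        show (1 + 2 * m) % m = 1 % m
        rw [Nat.add_mul_mod_self_right]
      exact h10.trans (show 1 % m = s % m from hs.symm)

/-- powers of `5` -/
theorem five (j t : ℕ) (ht : t % 4 = 1) : ∃ k : ℕ, 5 ^ k ≡ t [MOD 2 ^ (j + 2)] := by
  have hcop : Nat.Coprime t (2 ^ (j + 2)) := by
    refine Nat.Coprime.pow_right _ ?_
    rw [Nat.coprime_two_right, Nat.odd_iff]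
    omega
  have h4 : 4 ∣ 2 ^ (j + 2) := _root_.ABS.AU4.dv4 j
  have h1 : ZMod.unitsMap h4 (ZMod.unitOfCoprime t hcop) = 1 := by
    rw [_root_.ABS.AU4.unitsMap_iff, ZMod.coe_unitOfCoprime, ZMod.val_natCast]
    show t % 2 ^ (j + 2) % 4 = 1 % 4
    rw [Nat.mod_mod_of_dvd _ h4, ht]
  have h2 := _root_.ABS.AU4.mem_five j h1
  rw [← mem_powers_iff_mem_zpowers] at h2
  obtain ⟨k, hk⟩ := h2
  refine ⟨k, ?_⟩
  have h3 : ((_root_.ABS.AU4.u5 j ^ k : (ZMod (2 ^ (j + 2)))ˣ) : ZMod (2 ^ (j + 2))) =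
      (ZMod.unitOfCoprime t hcop : (ZMod (2 ^ (j + 2)))ˣ) := congrArg Units.val hk
  rw [Units.val_pow_eq_pow_val, _root_.ABS.AU4.u5_val, ZMod.coe_unitOfCoprime] at h3
  rw [← ZMod.natCast_eq_natCast_iff]
  push_cast
  exact h3

/-- a number fixed by `ζ ↦ ζ^5` and `ζ ↦ ζ^s` is rational -/
theorem rational {j s : ℕ} (h4 : 4 ∣ s + 1) {y : ℂ} (hy : y ∈ rootField (2 ^ (j + 2)))
    {σ₀ σ₅ : ℂ ≃+* ℂ} (h0 : ∀ z : ℂ, z ^ 2 ^ (j + 2) = 1 → σ₀ z = z ^ s)
    (h5 : ∀ z : ℂ, z ^ 2 ^ (j + 2) = 1 → σ₅ z = z ^ 5) (hy0 : σ₀ y = y) (hy5 : σ₅ y = y)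
    (σ : ℂ ≃+* ℂ) : σ y = y := by
  have hroot : ∀ (z : ℂ) (i : ℕ), z ^ 2 ^ (j + 2) = 1 → (z ^ i) ^ 2 ^ (j + 2) = 1 := by
    intro z i hz
    rw [← pow_mul, mul_comm, pow_mul, hz, one_pow]
  have hpow : ∀ k : ℕ, ∃ τ : ℂ ≃+* ℂ, (∀ z : ℂ, z ^ 2 ^ (j + 2) = 1 → τ z = z ^ 5 ^ k) ∧
      τ y = y := by
    intro k
    induction k with
    | zero => exact ⟨RingEquiv.refl ℂ, fun z _ => by simp, rfl⟩
    | succ k ih =>
      obtain ⟨τ, h1, h2⟩ := ih
      refine ⟨τ.trans σ₅, fun z hz => ?_, ?_⟩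
      · rw [RingEquiv.trans_apply, h1 z hz, map_pow, h5 z hz, ← pow_mul, pow_succ, mul_comm]
      · rw [RingEquiv.trans_apply, h2, hy5]
  obtain ⟨t, hcop, hact⟩ := VINx.act σ (2 ^ (j + 2)) (by positivity)
  have hodd : t % 2 = 1 := by
    have h1 : Nat.Coprime 2 t := Nat.Coprime.coprime_dvd_left (dvd_pow_self 2 (by omega)) hcop
    exact Nat.odd_iff.1 (Nat.coprime_two_left.1 h1)
  rcases (show t % 4 = 1 ∨ t % 4 = 3 by omega) with ht | ht
  · obtain ⟨k, hk⟩ := five j t ht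
    obtain ⟨τ, h1, h2⟩ := hpow k
    rw [agree (N := 2 ^ (j + 2)) (σ := σ) (τ := τ) (fun z hz => by
      rw [hact z hz, h1 z hz, pw hz hk.symm]) hy, h2]
  · have hts : (t * s) % 4 = 1 := by
      have hs : s % 4 = 3 := by omega
      rw [Nat.mul_mod, ht, hs]
    obtain ⟨k, hk⟩ := five j (t * s) hts
    obtain ⟨τ, h1, h2⟩ := hpow k
    have h3 := agree (N := 2 ^ (j + 2)) (σ := σ₀.trans σ) (τ := τ) (fun z hz => by
      rw [RingEquiv.trans_apply, h0 z hz, map_pow, hact z hz, h1 z hz, ← pow_mul,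
        pw hz hk.symm]) hy
    rw [RingEquiv.trans_apply, hy0, h2] at h3
    exact h3

/-- order `2^n` -/
theorem two_case (hSIG : Stmt_SIGT) {n s : ℕ} {F : IntermediateField ℚ ℂ} (hT : TT n s)
    (hF : F ≤ rootField (2 ^ n))
    (hfix : ∀ σ : ℂ ≃+* ℂ, (∀ z : ℂ, z ^ 2 ^ n = 1 → σ z = z ^ s) → ∀ x ∈ F, σ x = x) :
    IsGalois ℚ F ∧ IsCyclic (F ≃ₐ[ℚ] F) := by
  have h4 := four_dvd hT
  have hG : IsGalois ℚ F := galois_of_le (2 ^ n) (by positivity) F hF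
  refine ⟨hG, ?_⟩
  have hne : NeZero (2 ^ n) := ⟨by positivity⟩
  have hfin : FiniteDimensional ℚ F := by
    have h1 := rootField_cyc (2 ^ n)
    have h2 : FiniteDimensional ℚ (rootField (2 ^ n)) :=
      IsCyclotomicExtension.finiteDimensional {2 ^ n} ℚ (rootField (2 ^ n))
    exact FiniteDimensional.of_injective (IntermediateField.inclusion hF).toLinearMap
      (IntermediateField.inclusion_injective hF)
  obtain ⟨j, rfl⟩ : ∃ j, n = j + 2 := ⟨n - 2, by have := hT.1; omega⟩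
  obtain ⟨σ₀, h0⟩ := hSIG (2 ^ (j + 2)) s (by positivity) (by
    have h1 := coprime (m := 1) hT (by rw [Nat.mod_one, Nat.mod_one])
    rwa [mul_one] at h1)
  obtain ⟨σ₅, h5⟩ := hSIG (2 ^ (j + 2)) 5 (by positivity)
    (Nat.Coprime.pow_left _ (by norm_num))
  have hcomm : ∀ q : ℚ, σ₅ (algebraMap ℚ ℂ q) = algebraMap ℚ ℂ q := fun q => by
    rw [eq_ratCast, map_ratCast]
  let e : ℂ ≃ₐ[ℚ] ℂ := AlgEquiv.ofRingEquiv (f := σ₅) hcomm
  let g : F ≃ₐ[ℚ] F := e.restrictNormal F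
  have hg : ∀ x : F, ((g x : F) : ℂ) = σ₅ (x : ℂ) := fun x =>
    AlgEquiv.restrictNormal_commutes e F x
  have hbot : IntermediateField.fixedField (Subgroup.zpowers g) ≤ ⊥ := by
    intro x hx
    have h6 : g x = x := by
      have h7 := (IntermediateField.mem_fixedField_iff _ _).1 hx g (Subgroup.mem_zpowers g)
      exact h7
    have h7 : σ₅ (x : ℂ) = (x : ℂ) := by rw [← hg, h6]
    have h8 : (x : ℂ) ∈ Cyc 1 := FIXC_thm 1 (x : ℂ) fun σ _ =>
      rational h4 (hF x.2) h0 h5 (hfix σ₀ h0 _ x.2) h7 σ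
    have h9 : Cyc 1 ≤ ⊥ := by
      unfold Cyc
      rw [IntermediateField.adjoin_le_iff]
      intro z hz
      have hz1 : z = 1 := by
        have h10 : z ^ 1 = 1 := hz
        rwa [pow_one] at h10
      rw [hz1]
      exact one_mem _
    have h10 := h9 h8
    rw [IntermediateField.mem_bot] at h10 ⊢
    obtain ⟨q, hq⟩ := h10
    refine ⟨q, ?_⟩
    apply Subtype.ext
    rw [← hq]
    rfl
  have htop : Subgroup.zpowers g = ⊤ := by
    rw [← IntermediateField.fixingSubgroup_fixedField (Subgroup.zpowers g), eq_top_iff]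
    intro τ _
    rw [IntermediateField.mem_fixingSubgroup_iff]
    intro x hx
    have h6 := hbot hx
    rw [IntermediateField.mem_bot] at h6
    obtain ⟨q, rfl⟩ := h6
    exact τ.commutes q
  exact isCyclic_iff_exists_zpowers_eq_top.2 ⟨g, htop⟩

end ZFDx

open ZFDx in
theorem ZFD_thm : Stmt_ZFD := by
  intro hSIG n m s F hT hm hs hF hfix
  obtain ⟨σ₀, h0⟩ := hSIG (2 ^ n * m) s (Nat.mul_pos (by positivity) hm.pos) (coprime hT hs)
  refine ⟨fun hn => ?_, I_notMem hT h0 (hfix σ₀ h0), fun h1 => ?_⟩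
  · subst hn
    have e : 2 ^ 2 * m = 4 * m := by norm_num
    rw [e] at hF
    refine four_case (four_dvd hT) hm hs hF fun σ hσ => hfix σ fun z hz => hσ z ?_
    rw [← e]
    exact hz
  · subst h1
    have e : 2 ^ n * 1 = 2 ^ n := mul_one _
    rw [e] at hF
    refine two_case hSIG hT hF fun σ hσ => hfix σ fun z hz => hσ z ?_
    rw [← e]
    exact hz

end StarkC.ABS
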