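import Pool.Agent.ABS.StZG
import Pool.Agent.ABS.RFX

/-!
# ABS, module ZFX: the field of values of a dihedral or semidihedral leaf
-/

set_option autoImplicit false

open scoped Classical

namespace StarkC.ABS

namespace ZFXx

open StarkC.MON RFX

/-- Conjugation by `g⁻¹` preserves membership in `A` in both directions. -/
theorem mem_iff {G : Type} [Group G] [Fintype G] {A : Subgroup G} {g : G}
    (h : ∀ a ∈ A, g⁻¹ * a * g ∈ A) (w : G) : g⁻¹ * w * g ∈ A ↔ w ∈ A := by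
  refine ⟨fun hw => ?_, h w⟩
  let f : A → A := fun a => ⟨g⁻¹ * a * g, h a a.2⟩
  have hf : Function.Injective f := by
    intro a b hab
    have h1 : g⁻¹ * (a : G) * g = g⁻¹ * (b : G) * g := congrArg Subtype.val hab
    exact Subtype.ext (mul_left_cancel (mul_right_cancel h1))
  obtain ⟨a, ha⟩ := Finite.injective_iff_surjective.1 hf ⟨g⁻¹ * w * g, hw⟩
  have h1 : g⁻¹ * (a : G) * g = g⁻¹ * w * g := congrArg Subtype.val ha
  have h2 : (a : G) = w := mul_left_cancel (mul_right_cancel h1)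
  rw [← h2]
  exact a.2

theorem indFun_pow {G : Type} [Group G] [Fintype G] {A : Subgroup G} {ψ : A →* ℂˣ} {g : G}
    {s : ℕ} (h : ∀ a ∈ A, g⁻¹ * a * g ∈ A)
    (hc : ∀ a b : A, (b : G) = g⁻¹ * a * g → ψ b = ψ a ^ s) (x : G) :
    indFun A (extZ (ψ ^ s)) x = indFun A (extZ ψ) x := by
  have h1 : ∀ w : G, extZ (ψ ^ s) w = extZ ψ (g⁻¹ * w * g) := by
    intro w
    by_cases hw : w ∈ A
    · rw [extZ_pow _ _ hw, extZ_pow _ _ (h w hw), hc ⟨w, hw⟩ ⟨_, h w hw⟩ rfl]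
      rfl
    · rw [extZ, dif_neg hw, extZ, dif_neg fun h2 => hw ((mem_iff h w).1 h2)]
  rw [indFun_extZ, indFun_extZ]
  congr 1
  rw [← Equiv.sum_comp (Equiv.mulRight g) (fun y => extZ ψ (y⁻¹ * x * y))]
  refine Finset.sum_congr rfl fun y _ => ?_
  rw [h1, Equiv.coe_mulRight]
  congr 1
  rw [mul_inv_rev]
  simp only [mul_assoc]

end ZFXx

open RFX in
theorem ZFX_thm : Stmt_ZFX := by
  intro G _ _ A ψ g n m s hL hfix
  have hpos : 0 < 2 ^ n * m := Nat.mul_pos (pow_pos (by norm_num) n) hL.odd.pos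
  have hval : ∀ x : A, (((ψ x : ℂˣ) : ℂ)) ^ (2 ^ n * m) = 1 := by
    intro x
    have h1 : (ψ ^ (2 ^ n * m)) x = 1 := by rw [← hL.ord, pow_orderOf_eq_one]; rfl
    rw [← Units.val_pow_eq_pow_val, ← Units.val_one]
    exact congrArg Units.val h1
  obtain ⟨x₀, hx₀⟩ := exists_value ψ
  have hprim : IsPrimitiveRoot ((ψ x₀ : ℂˣ) : ℂ) (2 ^ n * m) := by
    rw [IsPrimitiveRoot.coe_units_iff, ← hL.ord, ← hx₀]
    exact IsPrimitiveRoot.orderOf _
  have : NeZero (2 ^ n * m) := ⟨hpos.ne'⟩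
  refine ⟨fun σ => ⟨fun h => ?_, fun h x => ?_⟩, fun σ j h x => ?_⟩
  · rcases hfix σ h with h1 | h1
    · refine Or.inl fun z hz => ?_
      obtain ⟨i, -, rfl⟩ := hprim.eq_pow_of_pow_eq_one hz
      rw [map_pow, h1]
    · refine Or.inr fun z hz => ?_
      obtain ⟨i, -, rfl⟩ := hprim.eq_pow_of_pow_eq_one hz
      rw [map_pow, h1, ← pow_mul, ← pow_mul, mul_comm]
  · rcases h with h | h
    · have h1 := map_indFun A ψ σ 1 (fun y => by rw [h _ (hval y), pow_one]) x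
      have h2 : ψ ^ 1 = ψ := MonoidHom.ext fun y => pow_one (ψ y)
      rw [h2] at h1
      exact h1
    · rw [map_indFun A ψ σ s (fun y => h _ (hval y)) x]
      exact ZFXx.indFun_pow hL.norm hL.conj x
  · exact map_indFun A ψ σ j (fun y => h _ (hval y)) x

end StarkC.ABS
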