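import Pool.Agent.ABS.StZG
import Pool.Agent.ABS.MGP

/-!
# Part Z, module ZGP (helper49): the group lemma for `2`-groups (dihedral, semidihedral, quaternion)

A modified copy of module MGP (helper7).
-/

set_option autoImplicit false

open scoped Classical

namespace StarkC.ABS

open StarkC.MON

namespace ZGPx

open MGPx

/-- a power of `x` outside of `A` whose square is in `A` -/
theorem exists_pow {P : Type} [Group P] (hP : IsPGroup 2 P) (A : Subgroup P) (x : P)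
    (hx : x ∉ A) : ∃ k : ℕ, x ^ (2 ^ k) ∉ A ∧ x ^ (2 ^ k) * x ^ (2 ^ k) ∈ A := by
  have hex : ∃ k : ℕ, x ^ (2 ^ k) ∈ A := by
    obtain ⟨k, hk⟩ := hP x
    exact ⟨k, by rw [hk]; exact A.one_mem⟩
  have h1 := Nat.find_spec hex
  have h2 : Nat.find hex ≠ 0 := by
    intro h0
    rw [h0, pow_zero, pow_one] at h1
    exact hx h1
  obtain ⟨k, hk⟩ : ∃ k, Nat.find hex = k + 1 := ⟨Nat.find hex - 1, by omega⟩
  refine ⟨k, Nat.find_min hex (by omega), ?_⟩
  rw [hk] at h1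
  rw [← pow_add]
  have h3 : 2 ^ k + 2 ^ k = 2 ^ (k + 1) := by ring
  rw [h3]
  exact h1

variable {P : Type} [Group P]

theorem conj_pw {c x : P} {s : ℕ} (h : x * c * x⁻¹ = c ^ s) (m : ℕ) :
    x ^ m * c * (x ^ m)⁻¹ = c ^ (s ^ m) := by
  induction m with
  | zero => simp
  | succ m ih =>
    have h1 : x ^ (m + 1) * c * (x ^ (m + 1))⁻¹ = x * (x ^ m * c * (x ^ m)⁻¹) * x⁻¹ := by
      rw [pow_succ']
      group
    rw [h1, ih, ← conj_pow, h, ← pow_mul, pow_succ']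

theorem pow_mod {s : ℕ} (h : s % 4 = 1) (m : ℕ) : s ^ m % 4 = 1 := by
  simp [Nat.pow_mod, h]

/-- the case of a cyclic `A` on which the group acts by powers, `g ∉ A`, `g ^ 2 ∈ A` with an exponent `1` modulo
`4` -/
theorem main (A : Subgroup P) (c : P) (n : ℕ)
    (hc : ∀ j, c ^ j = 1 ↔ 2 ^ n ∣ j) (hA : ∀ x, x ∈ A ↔ ∃ j : ℕ, x = c ^ j)
    (hcj : ∀ x, ∃ s : ℕ, x * c * x⁻¹ = c ^ s) (hcen : ∀ x, x * c = c * x → x ∈ A)
    (h1 : ∀ (x : P) (s : ℕ), x * c * x⁻¹ = c ^ s → s % 2 = 1) (g : P) (hg : g ∉ A)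
    (hgg : g * g ∈ A) (s : ℕ) (hs : g * c * g⁻¹ = c ^ s) (hs4 : s % 4 = 1) :
    ∃ a : P, a ∉ Subgroup.center P ∧ a ^ 2 = 1 ∧
      ∀ g : P, g⁻¹ * a * g * a⁻¹ ∈ Subgroup.center P := by
  obtain ⟨q, hq⟩ : ∃ q, s = 4 * q + 1 := ⟨s / 4, by omega⟩
  obtain ⟨k, hk⟩ := (hA _).mp hgg
  have hw : (2 * q + 1) % 2 = 1 := by omega
  -- `s ^ 2 = 1`
  have hss : c ^ (s * s) = c := by
    have h2 : g * g * c = c * (g * g) := by
      rw [hk]
      exact (Commute.refl c).pow_left k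
    have h3 : g * g * c = c ^ (s * s) * (g * g) := by
      have h4 := mv hs 1
      rw [pow_one, mul_one] at h4
      calc g * g * c = g * (g * c) := mul_assoc _ _ _
        _ = g * (c ^ s * g) := by rw [h4]
        _ = (g * c ^ s) * g := (mul_assoc _ _ _).symm
        _ = c ^ (s * s) * g * g := by rw [mv hs s]
        _ = c ^ (s * s) * (g * g) := mul_assoc _ _ _
    exact mul_right_cancel (h3.symm.trans h2)
  have hd1 : 2 ^ n ∣ 8 * q := by
    have h2 : c ^ (8 * q * (2 * q + 1)) = 1 := by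
      have h3 : s * s = 8 * q * (2 * q + 1) + 1 := by
        rw [hq]
        ring
      rw [h3, pow_succ] at hss
      exact mul_eq_right.mp hss
    exact (coprime_odd hw n).dvd_of_dvd_mul_right ((hc _).mp h2)
  have hd2 : ¬ 2 ^ n ∣ 4 * q := by
    intro h2
    apply hg
    apply hcen
    have h3 := mv hs 1
    rw [pow_one, mul_one, hq, pow_succ, (hc _).mpr h2, one_mul] at h3
    exact h3
  -- `k` is even
  have hk2 : k % 2 = 0 := by
    by_contra hcon
    apply hd2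
    have h2 : g * c ^ k = c ^ k * g := by
      rw [← hk]
      group
    have h3 := (mv hs k).symm.trans h2
    have h4 : c ^ (s * k) = c ^ k := mul_right_cancel h3
    have h5 : c ^ (4 * q * k) = 1 := by
      have h6 : s * k = 4 * q * k + k := by
        rw [hq]
        ring
      rw [h6, pow_add] at h4
      exact mul_eq_right.mp h4
    exact (coprime_odd (by omega : k % 2 = 1) n).dvd_of_dvd_mul_right ((hc _).mp h5)
  obtain ⟨k', hk'⟩ : ∃ k', k = 2 * k' := ⟨k / 2, by omega⟩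
  obtain ⟨m, hm⟩ := exists_m (2 * q + 1) hw k' n
  obtain ⟨x, hx⟩ : ∃ x, x = g * c ^ m := ⟨_, rfl⟩
  have hxc : x * c * x⁻¹ = c ^ s := by
    rw [← hs, hx, mul_assoc g, (Commute.refl c).pow_left m]
    group
  have hxx : x * x = 1 := by
    have h2 : x * x = c ^ (2 * (k' + m * (2 * q + 1))) := by
      calc x * x = (g * c ^ m) * (g * c ^ m) := by rw [hx]
        _ = c ^ (s * m) * g * (g * c ^ m) := by rw [mv hs m]
        _ = c ^ (s * m) * (g * g) * c ^ m := by simp only [mul_assoc]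
        _ = c ^ (s * m) * c ^ k * c ^ m := by rw [hk]
        _ = c ^ (s * m + k + m) := by rw [← pow_add, ← pow_add]
        _ = c ^ (2 * (k' + m * (2 * q + 1))) := by
          congr 1
          rw [hq, hk']
          ring
    rw [h2, hc]
    exact Dvd.dvd.mul_left hm 2
  have hxA : x ∉ A := by
    intro h2
    apply hg
    have h3 : g = x * (c ^ m)⁻¹ := by
      rw [hx]
      group
    rw [h3]
    exact A.mul_mem h2 (A.inv_mem ((hA _).mpr ⟨m, rfl⟩))
  have hxs : x * c ^ s = c * x := by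
    rw [mv hxc s, hss]
  have hxi : x⁻¹ * c = c ^ s * x⁻¹ := by
    have h2 : c ^ s = x⁻¹ * (c * x) := by
      rw [← hxs]
      group
    rw [h2]
    group
  refine ⟨x, ?_, by rw [pow_two]; exact hxx, ?_⟩
  · intro h2
    apply hxA
    apply hcen
    exact (Subgroup.mem_center_iff.mp h2 c).symm
  · intro h
    obtain ⟨u, hu⟩ := hcj h
    obtain ⟨y, hy⟩ : ∃ y, y = h⁻¹ * x * h := ⟨_, rfl⟩
    have hyc : ∀ j, y * c ^ j = c ^ (s * j) * y := by
      intro j
      have h2 : h * c ^ j = c ^ (u * j) * h := mv hu j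
      have h3 : c ^ (s * j) = h⁻¹ * c ^ (s * (u * j)) * h := by
        have h4 : h * c ^ (s * j) = c ^ (u * (s * j)) * h := mv hu (s * j)
        have h5 : s * (u * j) = u * (s * j) := by ring
        rw [h5, mul_assoc, ← h4]
        group
      calc y * c ^ j = h⁻¹ * x * (h * c ^ j) := by rw [hy]; group
        _ = h⁻¹ * x * (c ^ (u * j) * h) := by rw [h2]
        _ = h⁻¹ * (x * c ^ (u * j)) * h := by simp only [mul_assoc]
        _ = h⁻¹ * (c ^ (s * (u * j)) * x) * h := by rw [mv hxc]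
        _ = (h⁻¹ * c ^ (s * (u * j)) * h) * (h⁻¹ * x * h) := by group
        _ = c ^ (s * j) * y := by rw [← h3, ← hy]
    have hec : y * x⁻¹ * c = c * (y * x⁻¹) := by
      calc y * x⁻¹ * c = y * (x⁻¹ * c) := mul_assoc _ _ _
        _ = y * (c ^ s * x⁻¹) := by rw [hxi]
        _ = y * c ^ s * x⁻¹ := (mul_assoc _ _ _).symm
        _ = c ^ (s * s) * y * x⁻¹ := by rw [hyc]
        _ = c * (y * x⁻¹) := by rw [hss, mul_assoc]
    obtain ⟨j, hj⟩ := (hA _).mp (hcen _ hec)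
    have hyx : y = c ^ j * x := by
      rw [← hj]
      group
    have hyy : y * y = 1 := by
      calc y * y = h⁻¹ * (x * x) * h := by rw [hy]; group
        _ = 1 := by rw [hxx]; group
    have hdj : 2 ^ n ∣ 2 * j := by
      have h2 : c ^ (2 * j * (2 * q + 1)) = 1 := by
        calc c ^ (2 * j * (2 * q + 1)) = c ^ (j + s * j) := by
              congr 1
              rw [hq]
              ring
          _ = c ^ j * c ^ (s * j) := pow_add _ _ _
          _ = c ^ j * c ^ (s * j) * (x * x) := by rw [hxx, mul_one]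
          _ = c ^ j * (c ^ (s * j) * x) * x := by simp only [mul_assoc]
          _ = c ^ j * (x * c ^ j) * x := by rw [mv hxc j]
          _ = (c ^ j * x) * (c ^ j * x) := by simp only [mul_assoc]
          _ = 1 := by rw [← hyx, hyy]
      exact (coprime_odd hw n).dvd_of_dvd_mul_right ((hc _).mp h2)
    rw [← hy, hj, Subgroup.mem_center_iff]
    intro z
    obtain ⟨v, hv⟩ := hcj z
    have hv4 : v % 2 = 1 := h1 z v hv
    obtain ⟨v', hv'⟩ : ∃ v', v = 2 * v' + 1 := ⟨v / 2, by omega⟩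
    rw [mv hv j]
    congr 1
    have h2 : v * j = 2 * j * v' + j := by
      rw [hv']
      ring
    rw [h2, pow_add, (hc _).mpr (Dvd.dvd.mul_right hdj v'), one_mul]

/-- the dihedral, semidihedral and quaternion groups -/
theorem main2 (A : Subgroup P) (c : P) (n : ℕ) (hn2 : 2 ≤ n)
    (hc : ∀ j, c ^ j = 1 ↔ 2 ^ n ∣ j) (hA : ∀ x, x ∈ A ↔ ∃ j : ℕ, x = c ^ j)
    (hcj : ∀ x, ∃ s : ℕ, x * c * x⁻¹ = c ^ s)
    (h1 : ∀ (x : P) (s : ℕ), x ∉ A → x * c * x⁻¹ = c ^ s → s % 4 = 3) (g₀ : P) (hg₀ : g₀ ∉ A) :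
    ∃ (g : P) (t : ℕ), TT n t ∧ g * c * g⁻¹ = c ^ t ∧
      (∀ x : P, ∃ j : ℕ, x = c ^ j ∨ x = g * c ^ j) ∧
      (g * g = 1 ∨ ((t + 1) % 2 ^ n = 0 ∧ g * g = c ^ (2 ^ (n - 1)))) := by
  obtain ⟨n', hn'⟩ : ∃ n', n = n' + 1 := ⟨n - 1, by omega⟩
  obtain ⟨t, ht⟩ := hcj g₀
  have ht4 := h1 g₀ t hg₀ ht
  obtain ⟨q, hq⟩ : ∃ q, t = 4 * q + 3 := ⟨t / 4, by omega⟩
  have hw : (2 * q + 1) % 2 = 1 := by omega
  have hin : ∀ (x : P) (s : ℕ), x * c * x⁻¹ = c ^ s → s % 4 = 1 → x ∈ A := by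
    intro x s hs hs4
    by_contra hcon
    have h2 := h1 x s hcon hs
    omega
  have hgi : g₀⁻¹ ∉ A := fun h => hg₀ (by simpa using A.inv_mem h)
  obtain ⟨t', ht'⟩ := hcj g₀⁻¹
  have ht4' := h1 g₀⁻¹ t' hgi ht'
  have hall : ∀ x : P, ∃ j : ℕ, x = c ^ j ∨ x = g₀ * c ^ j := by
    intro x
    by_cases hx : x ∈ A
    · obtain ⟨j, hj⟩ := (hA x).mp hx
      exact ⟨j, Or.inl hj⟩
    · obtain ⟨s, hs⟩ := hcj x
      have hs4 := h1 x s hx hs
      have h2 : (g₀⁻¹ * x) * c * (g₀⁻¹ * x)⁻¹ = c ^ (t' * s) := by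
        have h3 : (g₀⁻¹ * x) * c * (g₀⁻¹ * x)⁻¹ = g₀⁻¹ * (x * c * x⁻¹) * g₀⁻¹⁻¹ := by group
        rw [h3, hs, ← conj_pow, ht', ← pow_mul]
      have h3 : t' * s % 4 = 1 := by
        rw [Nat.mul_mod, ht4', hs4]
      obtain ⟨j, hj⟩ := (hA _).mp (hin _ _ h2 h3)
      refine ⟨j, Or.inr ?_⟩
      rw [← hj]
      group
  have hgg : g₀ * g₀ ∈ A := by
    have h2 : (g₀ * g₀) * c * (g₀ * g₀)⁻¹ = c ^ (t * t) := by
      have h3 : (g₀ * g₀) * c * (g₀ * g₀)⁻¹ = g₀ * (g₀ * c * g₀⁻¹) * g₀⁻¹ := by group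
      rw [h3, ht, ← conj_pow, ht, ← pow_mul]
    apply hin _ _ h2
    rw [Nat.mul_mod, ht4]
  obtain ⟨k, hk⟩ := (hA _).mp hgg
  have hss : c ^ (t * t) = c := by
    have h2 : g₀ * g₀ * c = c * (g₀ * g₀) := by
      rw [hk]
      exact (Commute.refl c).pow_left k
    have h3 : g₀ * g₀ * c = c ^ (t * t) * (g₀ * g₀) := by
      have h4 := mv ht 1
      rw [pow_one, mul_one] at h4
      calc g₀ * g₀ * c = g₀ * (g₀ * c) := mul_assoc _ _ _
        _ = g₀ * (c ^ t * g₀) := by rw [h4]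
        _ = (g₀ * c ^ t) * g₀ := (mul_assoc _ _ _).symm
        _ = c ^ (t * t) * g₀ * g₀ := by rw [mv ht t]
        _ = c ^ (t * t) * (g₀ * g₀) := mul_assoc _ _ _
    exact mul_right_cancel (h3.symm.trans h2)
  have hd1 : 2 ^ n ∣ 8 * (q + 1) := by
    have h2 : c ^ (8 * (q + 1) * (2 * q + 1)) = 1 := by
      have h3 : t * t = 8 * (q + 1) * (2 * q + 1) + 1 := by
        rw [hq]
        ring
      rw [h3, pow_succ] at hss
      exact mul_eq_right.mp hss
    exact (coprime_odd hw n).dvd_of_dvd_mul_right ((hc _).mp h2)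
  obtain ⟨r, hr⟩ := hd1
  have hr1 : t + 1 = 2 ^ n' * r := by
    have h2 : 2 * (t + 1) = 2 * (2 ^ n' * r) := by
      calc 2 * (t + 1) = 8 * (q + 1) := by rw [hq]; ring
        _ = 2 ^ n * r := hr
        _ = 2 * (2 ^ n' * r) := by rw [hn', pow_succ]; ring
    omega
  have hpos : 0 < 2 ^ n' := by positivity
  have hev : r % 2 = 0 → (t + 1) % 2 ^ n = 0 := by
    intro h2
    obtain ⟨r', hr'⟩ : ∃ r', r = 2 * r' := ⟨r / 2, by omega⟩
    have h3 : t + 1 = 2 ^ n * r' := by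
      rw [hr1, hr', hn', pow_succ]
      ring
    rw [h3]
    exact Nat.mul_mod_right _ _
  have hod : r % 2 = 1 → (t + 1) % 2 ^ n = 2 ^ (n - 1) := by
    intro h2
    obtain ⟨r', hr'⟩ : ∃ r', r = 2 * r' + 1 := ⟨r / 2, by omega⟩
    have h3 : t + 1 = 2 ^ n' + 2 ^ n * r' := by
      rw [hr1, hr', hn', pow_succ]
      ring
    rw [h3, Nat.add_mul_mod_self_left, Nat.mod_eq_of_lt, hn', Nat.add_sub_cancel]
    rw [hn', pow_succ]
    omega
  have hTT : TT n t := by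
    refine ⟨hn2, ?_⟩
    rcases Nat.mod_two_eq_zero_or_one r with h2 | h2
    · exact Or.inl (hev h2)
    · refine Or.inr ⟨?_, hod h2⟩
      by_contra hcon
      have h3 : n' = 1 := by omega
      rw [h3, pow_one, hq] at hr1
      omega
  -- `g² = 1` or `g² = z`
  have hd2 : 2 ^ n ∣ 2 * k := by
    have h2 : g₀ * c ^ k = c ^ k * g₀ := by
      rw [← hk]
      group
    have h3 := (mv ht k).symm.trans h2
    have h4 : c ^ (t * k) = c ^ k := mul_right_cancel h3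
    have h5 : c ^ (2 * k * (2 * q + 1)) = 1 := by
      have h6 : t * k = 2 * k * (2 * q + 1) + k := by
        rw [hq]
        ring
      rw [h6, pow_add] at h4
      exact mul_eq_right.mp h4
    exact (coprime_odd hw n).dvd_of_dvd_mul_right ((hc _).mp h5)
  obtain ⟨u, hu⟩ := hd2
  have hu1 : k = 2 ^ n' * u := by
    have h2 : 2 * k = 2 * (2 ^ n' * u) := by
      rw [hu, hn', pow_succ]
      ring
    omega
  have hz : ∀ w : ℕ, w % 2 = 0 → c ^ (2 ^ n' * w) = 1 := by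
    intro w h2
    rw [hc]
    obtain ⟨w', hw'⟩ : ∃ w', w = 2 * w' := ⟨w / 2, by omega⟩
    refine ⟨w', ?_⟩
    rw [hw', hn', pow_succ]
    ring
  have hz1 : ∀ w : ℕ, w % 2 = 1 → c ^ (2 ^ n' * w) = c ^ (2 ^ n') := by
    intro w h2
    obtain ⟨w', hw'⟩ : ∃ w', w = 2 * w' + 1 := ⟨w / 2, by omega⟩
    have h3 : 2 ^ n' * w = 2 ^ n' * (2 * w') + 2 ^ n' := by
      rw [hw']
      ring
    rw [h3, pow_add, hz _ (by omega), one_mul]
  have hn1 : n - 1 = n' := by omega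
  rcases Nat.mod_two_eq_zero_or_one u with h2 | h2
  · refine ⟨g₀, t, hTT, ht, hall, Or.inl ?_⟩
    rw [hk, hu1, hz u h2]
  · have hg2 : g₀ * g₀ = c ^ (2 ^ n') := by rw [hk, hu1, hz1 u h2]
    rcases Nat.mod_two_eq_zero_or_one r with h3 | h3
    · refine ⟨g₀, t, hTT, ht, hall, Or.inr ⟨hev h3, ?_⟩⟩
      rw [hn1, hg2]
    · refine ⟨g₀ * c, t, hTT, ?_, fun x => ?_, Or.inl ?_⟩
      · rw [← ht]
        group
      · obtain ⟨j, hj | hj⟩ := hall x
        · exact ⟨j, Or.inl hj⟩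
        · refine ⟨j + (2 ^ n - 1), Or.inr ?_⟩
          have h4 : c * c ^ (j + (2 ^ n - 1)) = c ^ j := by
            have h5 : 0 < 2 ^ n := by positivity
            rw [← pow_succ', show j + (2 ^ n - 1) + 1 = j + 2 ^ n by omega, pow_add,
              (hc (2 ^ n)).mpr dvd_rfl, mul_one]
          rw [mul_assoc, h4]
          exact hj
      · have h4 : g₀ * c = c ^ t * g₀ := by
          have h5 := mv ht 1
          rwa [pow_one, mul_one] at h5
        have h5 : g₀ * c ^ t = c * g₀ := by rw [mv ht t, hss]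
        have h6 : c ^ t * (g₀ * g₀) = (g₀ * g₀) * c ^ t := by
          rw [hk, ← pow_add, ← pow_add, add_comm]
        calc g₀ * c * (g₀ * c) = (c ^ t * g₀) * (g₀ * c) := by rw [h4]
          _ = c ^ t * (g₀ * g₀) * c := by simp only [mul_assoc]
          _ = c ^ t * c ^ (2 ^ n') * c := by rw [hg2]
          _ = c ^ (2 ^ n') * c ^ (t + 1) := by
            rw [← pow_add, ← pow_succ, ← pow_add]
            congr 1
            ring
          _ = 1 := by
            rw [hr1, hz1 r h3, ← pow_add]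
            have h7 : 2 ^ n' + 2 ^ n' = 2 ^ n' * 2 := by ring
            rw [h7]
            exact hz 2 rfl

end ZGPx

open MGPx ZGPx in
/-- ZGP: the group lemma for `2`-groups, with dihedral, semidihedral and quaternion groups. -/
theorem ZGP_thm : Stmt_ZGP := by
  intro hMAB hMAX P _ _ hP hcyc hnab
  have : Fact (Nat.Prime 2) := ⟨Nat.prime_two⟩
  obtain ⟨A, hAn, hAab, hAc⟩ := hMAX P hP.isNilpotent
  by_cases hcA : IsCyclic A
  swap
  · exact Or.inl (hMAB P A hP hcyc hAn hAab hcA)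
  obtain ⟨c₀, hc₀⟩ := hcA.exists_generator
  obtain ⟨c, hcc⟩ : ∃ c : P, c = (c₀ : P) := ⟨_, rfl⟩
  have hcA' : c ∈ A := by
    rw [hcc]
    exact c₀.2
  have hA : ∀ x, x ∈ A ↔ ∃ j : ℕ, x = c ^ j := by
    intro x
    constructor
    · intro hx
      have h1 := (isOfFinOrder_of_finite c₀).mem_powers_iff_mem_zpowers.mpr (hc₀ ⟨x, hx⟩)
      obtain ⟨j, hj⟩ := h1
      refine ⟨j, ?_⟩
      have h2 : ((c₀ ^ j : A) : P) = x := congrArg Subtype.val hj
      rw [← h2, hcc]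
      rfl
    · rintro ⟨j, rfl⟩
      exact A.pow_mem hcA' j
  have hcj : ∀ x, ∃ s : ℕ, x * c * x⁻¹ = c ^ s := fun x => (hA _).mp (hAn.conj_mem c hcA' x)
  have hcen : ∀ x, x * c = c * x → x ∈ A := by
    intro x hx
    apply hAc
    intro a ha
    obtain ⟨j, rfl⟩ := (hA a).mp ha
    exact (Commute.pow_right (show Commute x c from hx) j)
  obtain ⟨n, hn⟩ := IsPGroup.iff_orderOf.mp hP c
  have hc : ∀ j, c ^ j = 1 ↔ 2 ^ n ∣ j := by
    intro j
    rw [← hn, orderOf_dvd_iff_pow_eq_one]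
  have hne : ∃ g₀ : P, g₀ ∉ A := by
    by_contra hcon
    push Not at hcon
    exact hnab fun a b => hAab a (hcon a) b (hcon b)
  obtain ⟨g₀, hg₀⟩ := hne
  have hodd : 1 ≤ n → ∀ (x : P) (s : ℕ), x * c * x⁻¹ = c ^ s → s % 2 = 1 := by
    intro hn1 x s hs
    by_contra hcon
    obtain ⟨s', hs'⟩ : ∃ s', s = 2 * s' := ⟨s / 2, by omega⟩
    obtain ⟨n', hn'⟩ : ∃ n', n = n' + 1 := ⟨n - 1, by omega⟩
    have h1 : (x * c * x⁻¹) ^ (2 ^ n') = 1 := by
      rw [hs, ← pow_mul, hc, hs', hn', pow_succ]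
      exact ⟨s', by ring⟩
    rw [conj_pow, conj_eq_one_iff, hc, hn'] at h1
    have h2 := Nat.le_of_dvd (by positivity) h1
    have h3 : 2 ^ n' < 2 ^ (n' + 1) := by
      rw [pow_succ]
      have : 0 < 2 ^ n' := by positivity
      omega
    omega
  have hn2 : 2 ≤ n := by
    by_contra hcon
    apply hg₀
    apply hcen
    obtain ⟨s, hs⟩ := hcj g₀
    have h1 : c ^ s = c := by
      rcases Nat.eq_zero_or_pos n with h0 | h0
      · have h2 : ∀ j, c ^ j = 1 := fun j => (hc j).mpr (by rw [h0, pow_zero]; exact one_dvd j)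
        have h3 := h2 1
        rw [pow_one] at h3
        rw [h2, h3]
      · have h2 := hodd h0 g₀ s hs
        have h3 : n = 1 := by omega
        obtain ⟨s', hs'⟩ : ∃ s', s = 2 * s' + 1 := ⟨s / 2, by omega⟩
        rw [hs', pow_succ, (hc (2 * s')).mpr (by rw [h3, pow_one]; exact dvd_mul_right 2 s'),
          one_mul]
    rw [h1] at hs
    have h4 : g₀ * c = c * g₀ := by
      calc g₀ * c = (g₀ * c * g₀⁻¹) * g₀ := by group
        _ = c * g₀ := by rw [hs]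
    exact h4
  have hodd' : ∀ (x : P) (s : ℕ), x * c * x⁻¹ = c ^ s → s % 2 = 1 := hodd (by omega)
  by_cases h3 : ∃ (x : P) (s : ℕ), x ∉ A ∧ s % 4 = 1 ∧ x * c * x⁻¹ = c ^ s
  · obtain ⟨x, s, hx, hs4, hs⟩ := h3
    obtain ⟨k, hk1, hk2⟩ := exists_pow hP A x hx
    exact Or.inl (ZGPx.main A c n hc hA hcj hcen hodd' (x ^ (2 ^ k)) hk1 hk2 (s ^ (2 ^ k))
      (conj_pw hs _) (ZGPx.pow_mod hs4 _))
  · push Not at h3
    obtain ⟨g, t, h4, h5, h6, h7⟩ := main2 A c n hn2 hc hA hcj (fun x s hx hs => by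
      have h8 := hodd' x s hs
      have h9 : s % 4 ≠ 1 := fun h => h3 x s hx h hs
      omega) g₀ hg₀
    exact Or.inr ⟨c, g, t, n, h4, hn, h5, h6, fun x hx => (hA x).mp (hcen x hx), h7⟩

end StarkC.ABS
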