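import Pool.Agent.ABS.StZH
import Pool.Agent.ABS.IDX
import Pool.Agent.Stark.MON

/-!
# Part Z (group part), module ZID: the trace of the character of a leaf is induced from order `2 m`
-/

set_option autoImplicit false

open scoped Classical

namespace StarkC.ABS

open StarkC.MON

namespace ZIDx

/-! ### Numbers -/

theorem s_mod {n s : ℕ} (h : TT n s) : s % 4 = 3 := by
  obtain ⟨hn, h⟩ := h
  have h4 : 4 ∣ 2 ^ n := pow_dvd_pow 2 hn
  have h5 := Nat.mod_mod_of_dvd (s + 1) h4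
  rcases h with h | ⟨hn3, h⟩
  · rw [h] at h5
    omega
  · have h6 : 4 ∣ 2 ^ (n - 1) := pow_dvd_pow 2 (by omega : 2 ≤ n - 1)
    rw [h] at h5
    omega

theorem pow_s {m s : ℕ} (hs : s % 4 = 3) (hm : Odd m) (h1 : s % m = 1 % m) (w : ℂˣ)
    (hw : w ^ (2 * m) = 1) : w ^ s = w := by
  have h2 : s ≡ 1 [MOD 2] := by
    show s % 2 = 1 % 2
    omega
  have hc : Nat.Coprime 2 m := by
    rw [Nat.coprime_two_left]
    exact hm
  have h3 : s ≡ 1 [MOD 2 * m] := (Nat.modEq_and_modEq_iff_modEq_mul hc).1 ⟨h2, h1⟩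
  have h4 : s ≡ 1 [MOD orderOf w] := h3.of_dvd (orderOf_dvd_of_pow_eq_one hw)
  have h5 := pow_eq_pow_iff_modEq.2 h4
  rw [pow_one] at h5
  exact h5

/-- splitting of the sum over the units -/
theorem sum_Ex (N K : ℕ) (hN : 0 < N) (hc : ∀ j, (N * K).Coprime j ↔ N.Coprime j)
    (z : ℂ) : ∑ t ∈ Ex (N * K), z ^ t = (∑ i ∈ Ex N, z ^ i) * ∑ k ∈ Finset.range K, (z ^ N) ^ k := by
  rw [Finset.sum_mul_sum, ← Finset.sum_product']
  symm
  refine Finset.sum_bij' (fun p _ => p.1 + N * p.2) (fun t _ => (t % N, t / N)) ?_ ?_ ?_ ?_ ?_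
  · rintro ⟨i, k⟩ hp
    rw [Finset.mem_product] at hp
    obtain ⟨hi, hk⟩ := hp
    simp only [Ex, Finset.mem_filter, Finset.mem_range] at hi hk ⊢
    refine ⟨?_, ?_⟩
    · calc i + N * k < N + N * k := by omega
        _ = N * (k + 1) := by ring
        _ ≤ N * K := Nat.mul_le_mul_left _ hk
    · rw [hc, Nat.coprime_add_mul_left_right]
      exact hi.2
  · intro t ht
    simp only [Ex, Finset.mem_filter, Finset.mem_range] at ht
    rw [Finset.mem_product]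
    simp only [Ex, Finset.mem_filter, Finset.mem_range]
    refine ⟨⟨Nat.mod_lt _ hN, ?_⟩, ?_⟩
    · have h1 := (hc t).1 ht.2
      have h2 := Nat.mod_add_div t N
      rw [← h2, Nat.coprime_add_mul_left_right] at h1
      exact h1
    · rw [Nat.div_lt_iff_lt_mul hN, mul_comm]
      exact ht.1
  · rintro ⟨i, k⟩ hp
    rw [Finset.mem_product] at hp
    obtain ⟨hi, hk⟩ := hp
    simp only [Ex, Finset.mem_filter, Finset.mem_range] at hi hk
    simp only [Nat.add_mul_mod_self_left, Nat.mod_eq_of_lt hi.1, Nat.add_mul_div_left _ _ hN,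
      Nat.div_eq_of_lt hi.1, zero_add]
  · intro t _
    exact Nat.mod_add_div t N
  · rintro ⟨i, k⟩ _
    simp only
    rw [pow_add, pow_mul]

theorem sum_Ex' {n m : ℕ} (hn : 1 ≤ n) (hm : 0 < m) (z : ℂ) (hz : z ^ (2 ^ n * m) = 1) :
    ∑ t ∈ Ex (2 ^ n * m), z ^ t =
      if z ^ (2 * m) = 1 then 2 ^ (n - 1) * ∑ t ∈ Ex (2 * m), z ^ t else 0 := by
  have e : 2 ^ n * m = 2 * m * 2 ^ (n - 1) := by
    obtain ⟨k, rfl⟩ : ∃ k, n = k + 1 := ⟨n - 1, by omega⟩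
    rw [Nat.add_sub_cancel, pow_succ]
    ring
  rw [e] at hz ⊢
  rw [sum_Ex (2 * m) (2 ^ (n - 1)) (by omega) (fun j => ?_)]
  · split_ifs with h
    · rw [h]
      simp [mul_comm]
    · rw [geom_sum_eq h, ← pow_mul, hz, sub_self, zero_div, mul_zero]
  · constructor
    · intro h
      exact Nat.Coprime.coprime_mul_right h
    · intro h
      have h2 : Nat.Coprime 2 j := Nat.Coprime.coprime_mul_right h
      exact Nat.Coprime.mul_left h (Nat.Coprime.pow_left _ h2)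

/-! ### The groups -/

variable {G : Type} [Group G]

/-- the function `ψ` on `G` -/
noncomputable def P {A : Subgroup G} (ψ : A →* ℂˣ) (x : G) : ℂˣ :=
  if h : x ∈ A then ψ ⟨x, h⟩ else 1

theorem P_of {A : Subgroup G} (ψ : A →* ℂˣ) {x : G} (h : x ∈ A) : P ψ x = ψ ⟨x, h⟩ := dif_pos h

theorem P_mul {A : Subgroup G} (ψ : A →* ℂˣ) {x y : G} (hx : x ∈ A) (hy : y ∈ A) :
    P ψ (x * y) = P ψ x * P ψ y := by
  rw [P_of ψ hx, P_of ψ hy, P_of ψ (A.mul_mem hx hy), ← map_mul]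
  rfl

theorem P_one {A : Subgroup G} (ψ : A →* ℂˣ) : P ψ 1 = 1 := by
  rw [P_of ψ A.one_mem]
  exact map_one ψ

theorem P_inv {A : Subgroup G} (ψ : A →* ℂˣ) {x : G} (hx : x ∈ A) : P ψ x⁻¹ = (P ψ x)⁻¹ := by
  rw [P_of ψ hx, P_of ψ (A.inv_mem hx), ← map_inv]
  rfl

/-- the subgroup `C₀` -/
noncomputable def C0 {A : Subgroup G} (ψ : A →* ℂˣ) (m : ℕ) : Subgroup G where
  carrier := {x | x ∈ A ∧ P ψ x ^ (2 * m) = 1}
  mul_mem' := by
    rintro x y ⟨hx, hx'⟩ ⟨hy, hy'⟩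
    exact ⟨A.mul_mem hx hy, by rw [P_mul ψ hx hy, mul_pow, hx', hy', one_mul]⟩
  one_mem' := ⟨A.one_mem, by rw [P_one, one_pow]⟩
  inv_mem' := by
    rintro x ⟨hx, hx'⟩
    exact ⟨A.inv_mem hx, by rw [P_inv ψ hx, inv_pow, hx', inv_one]⟩

theorem mem_C0 {A : Subgroup G} (ψ : A →* ℂˣ) (m : ℕ) (x : G) :
    x ∈ C0 ψ m ↔ x ∈ A ∧ P ψ x ^ (2 * m) = 1 := Iff.rfl

variable {A : Subgroup G} {ψ : A →* ℂˣ} {g : G} {n m s : ℕ}

theorem P_conj (h : Leaf A ψ g n m s) {x : G} (hx : x ∈ A) :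
    P ψ (g⁻¹ * x * g) = P ψ x ^ s := by
  rw [P_of ψ (h.norm x hx), P_of ψ hx]
  exact h.conj ⟨x, hx⟩ ⟨g⁻¹ * x * g, h.norm x hx⟩ rfl

theorem C0_conj (h : Leaf A ψ g n m s) {x : G} (hx : x ∈ C0 ψ m) :
    g⁻¹ * x * g ∈ C0 ψ m ∧ P ψ (g⁻¹ * x * g) = P ψ x := by
  rw [mem_C0] at hx ⊢
  have h1 : P ψ (g⁻¹ * x * g) = P ψ x := by
    rw [P_conj h hx.1, pow_s (s_mod h.tt) h.odd h.one _ hx.2]
  exact ⟨⟨h.norm x hx.1, by rw [h1, hx.2]⟩, h1⟩

theorem gg (h : Leaf A ψ g n m s) : g * g ∈ C0 ψ m ∧ P ψ (g * g) = 1 := by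
  have h1 : P ψ (g * g) = 1 := by
    rw [P_of ψ h.mem]
    exact h.sq _ rfl
  exact ⟨⟨h.mem, by rw [h1, one_pow]⟩, h1⟩

theorem m_pos (h : Leaf A ψ g n m s) : 0 < m := h.odd.pos

theorem P_ord (h : Leaf A ψ g n m s) {x : G} (hx : x ∈ A) : P ψ x ^ (2 ^ n * m) = 1 := by
  rw [P_of ψ hx, ← h.ord, ← MonoidHom.pow_apply, pow_orderOf_eq_one]
  rfl

variable [Fintype G]

theorem exists_a (h : Leaf A ψ g n m s) : ∃ a ∈ A, orderOf (P ψ a) = 2 ^ n * m := by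
  obtain ⟨a, ha⟩ := IDXx.exists_orderOf ψ
  refine ⟨a, a.2, ?_⟩
  rw [P_of ψ a.2, ← h.ord, ← ha]

theorem not_mem (h : Leaf A ψ g n m s) : g ∉ A := by
  intro hg
  obtain ⟨a, ha, ho⟩ := exists_a h
  have h1 := P_conj h ha
  rw [P_mul ψ (A.mul_mem (A.inv_mem hg) ha) hg, P_mul ψ (A.inv_mem hg) ha, P_inv ψ hg,
    mul_comm (P ψ g)⁻¹, inv_mul_cancel_right] at h1
  have h2 : P ψ a ^ 1 = P ψ a ^ s := by rw [pow_one]; exact h1
  rw [pow_eq_pow_iff_modEq, ho] at h2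
  have h3 : 4 ∣ 2 ^ n * m := (pow_dvd_pow 2 h.tt.1).mul_right m
  have h4 : 1 % 4 = s % 4 := h2.of_dvd h3
  have h5 := s_mod h.tt
  omega

/-- the function `ε` on `G` -/
noncomputable def e (ψ : A →* ℂˣ) (g : G) (x : G) : ℂˣ :=
  if x ∈ A then P ψ x else P ψ (g⁻¹ * x)

omit [Fintype G] in
theorem e0 {x : G} (hx : x ∈ C0 ψ m) : e ψ g x = P ψ x := if_pos hx.1

theorem e1' (h : Leaf A ψ g n m s) {x : G} (hx : g⁻¹ * x ∈ A) : x ∉ A := by
  intro hxA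
  apply not_mem h
  have h1 : g = x * (g⁻¹ * x)⁻¹ := by group
  rw [h1]
  exact A.mul_mem hxA (A.inv_mem hx)

theorem e1 (h : Leaf A ψ g n m s) {x : G} (hx : g⁻¹ * x ∈ C0 ψ m) :
    e ψ g x = P ψ (g⁻¹ * x) := if_neg (e1' h hx.1)

theorem mul_e (h : Leaf A ψ g n m s) {x y : G} (hx : x ∈ C0 ψ m ∨ g⁻¹ * x ∈ C0 ψ m)
    (hy : y ∈ C0 ψ m ∨ g⁻¹ * y ∈ C0 ψ m) :
    (x * y ∈ C0 ψ m ∨ g⁻¹ * (x * y) ∈ C0 ψ m) ∧ e ψ g (x * y) = e ψ g x * e ψ g y := by
  rcases hx with hx | hx <;> rcases hy with hy | hy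
  · have h1 := (C0 ψ m).mul_mem hx hy
    refine ⟨Or.inl h1, ?_⟩
    rw [e0 h1, e0 hx, e0 hy, P_mul ψ hx.1 hy.1]
  · have h2 := C0_conj h hx
    have h3 : g⁻¹ * (x * y) = (g⁻¹ * x * g) * (g⁻¹ * y) := by group
    have h1 : g⁻¹ * (x * y) ∈ C0 ψ m := by
      rw [h3]
      exact (C0 ψ m).mul_mem h2.1 hy
    refine ⟨Or.inr h1, ?_⟩
    rw [e1 h h1, e0 hx, e1 h hy, h3, P_mul ψ h2.1.1 hy.1, h2.2]
  · have h3 : g⁻¹ * (x * y) = (g⁻¹ * x) * y := by group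
    have h1 : g⁻¹ * (x * y) ∈ C0 ψ m := by
      rw [h3]
      exact (C0 ψ m).mul_mem hx hy
    refine ⟨Or.inr h1, ?_⟩
    rw [e1 h h1, e1 h hx, e0 hy, h3, P_mul ψ hx.1 hy.1]
  · have h2 := C0_conj h hx
    have h4 := gg h
    have h3 : x * y = (g * g) * (g⁻¹ * (g⁻¹ * x) * g) * (g⁻¹ * y) := by group
    have h1 : x * y ∈ C0 ψ m := by
      rw [h3]
      exact (C0 ψ m).mul_mem ((C0 ψ m).mul_mem h4.1 h2.1) hy
    refine ⟨Or.inl h1, ?_⟩
    rw [e0 h1, e1 h hx, e1 h hy, h3, P_mul ψ (A.mul_mem h4.1.1 h2.1.1) hy.1,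
      P_mul ψ h4.1.1 h2.1.1, h2.2, h4.2, one_mul]

/-- the subgroup `C` -/
noncomputable def C (h : Leaf A ψ g n m s) : Subgroup G where
  carrier := {x | x ∈ C0 ψ m ∨ g⁻¹ * x ∈ C0 ψ m}
  mul_mem' := fun hx hy => (mul_e h hx hy).1
  one_mem' := Or.inl (C0 ψ m).one_mem
  inv_mem' := by
    rintro x (hx | hx)
    · exact Or.inl ((C0 ψ m).inv_mem hx)
    · right
      have h2 := C0_conj h ((C0 ψ m).inv_mem hx)
      have h4 := gg h
      have h3 : g⁻¹ * x⁻¹ = (g⁻¹ * (g⁻¹ * x)⁻¹ * g) * (g * g)⁻¹ := by group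
      show g⁻¹ * x⁻¹ ∈ C0 ψ m
      rw [h3]
      exact (C0 ψ m).mul_mem h2.1 ((C0 ψ m).inv_mem h4.1)

theorem mem_C (h : Leaf A ψ g n m s) (x : G) :
    x ∈ C h ↔ (x ∈ C0 ψ m ∨ g⁻¹ * x ∈ C0 ψ m) := Iff.rfl

/-- the character `ε` -/
noncomputable def eps (h : Leaf A ψ g n m s) : C h →* ℂˣ where
  toFun x := e ψ g x
  map_one' := by
    show e ψ g 1 = 1
    rw [e0 (C0 ψ m).one_mem, P_one]
  map_mul' x y := (mul_e h x.2 y.2).2

theorem card_C (h : Leaf A ψ g n m s) : Nat.card (C h) = 2 * Nat.card (C0 ψ m) := by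
  let f : (C0 ψ m) ⊕ (C0 ψ m) → C h := fun x => match x with
    | Sum.inl c => ⟨c, Or.inl c.2⟩
    | Sum.inr c => ⟨g * c, Or.inr (by rw [inv_mul_cancel_left]; exact c.2)⟩
  have hf : Function.Bijective f := by
    constructor
    · rintro (x | x) (y | y) hxy
      · have h1 := congrArg Subtype.val hxy
        have h2 : (x : G) = y := h1
        rw [Subtype.ext h2]
      · exfalso
        have h1 := congrArg Subtype.val hxy
        have h2 : (x : G) = g * y := h1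
        apply e1' h (x := (x : G)) _ x.2.1
        rw [h2, inv_mul_cancel_left]
        exact y.2.1
      · exfalso
        have h1 := congrArg Subtype.val hxy
        have h2 : g * (x : G) = y := h1
        apply e1' h (x := (y : G)) _ y.2.1
        rw [← h2, inv_mul_cancel_left]
        exact x.2.1
      · have h1 := congrArg Subtype.val hxy
        have h2 : g * (x : G) = g * y := h1
        rw [Subtype.ext (mul_left_cancel h2)]
    · rintro ⟨x, hx | hx⟩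
      · exact ⟨Sum.inl ⟨x, hx⟩, rfl⟩
      · refine ⟨Sum.inr ⟨g⁻¹ * x, hx⟩, ?_⟩
        apply Subtype.ext
        show g * (g⁻¹ * x) = x
        rw [mul_inv_cancel_left]
  rw [← Nat.card_congr (Equiv.ofBijective f hf), Nat.card_sum, two_mul]

theorem card_A (h : Leaf A ψ g n m s) : Nat.card A = 2 ^ (n - 1) * Nat.card (C0 ψ m) := by
  have hn := h.tt.1
  have hm := m_pos h
  have h1 : C0 ψ m = (ψ ^ (2 * m)).ker.map A.subtype := by
    ext x
    rw [mem_C0, Subgroup.mem_map]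
    constructor
    · rintro ⟨hx, hx'⟩
      refine ⟨⟨x, hx⟩, ?_, rfl⟩
      rw [MonoidHom.mem_ker, MonoidHom.pow_apply, ← P_of ψ hx]
      exact hx'
    · rintro ⟨y, hy, rfl⟩
      refine ⟨y.2, ?_⟩
      rw [MonoidHom.mem_ker, MonoidHom.pow_apply] at hy
      show P ψ (y : G) ^ (2 * m) = 1
      rw [P_of ψ y.2]
      exact hy
  have h2 : Nat.card ((ψ ^ (2 * m)).ker.map A.subtype) = Nat.card (ψ ^ (2 * m)).ker :=
    Nat.card_congr ((ψ ^ (2 * m)).ker.equivMapOfInjective A.subtype A.subtype_injective).symm.toEquiv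
  have h3 := Subgroup.index_mul_card (ψ ^ (2 * m)).ker
  have h4 : 2 * m ∣ 2 ^ n * m := Nat.mul_dvd_mul_right (dvd_pow_self 2 (by omega)) m
  rw [IDXx.index_ker, orderOf_pow_of_dvd (by omega) (by rw [h.ord]; exact h4), h.ord,
    Nat.mul_div_mul_right _ _ hm] at h3
  rw [h1, h2, ← h3]
  congr 1
  obtain ⟨k, rfl⟩ : ∃ k, n = k + 1 := ⟨n - 1, by omega⟩
  rw [pow_succ, Nat.mul_div_cancel _ (by norm_num), Nat.add_sub_cancel]

theorem ord_eps (h : Leaf A ψ g n m s) : orderOf (eps h) = 2 * m := by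
  have hn := h.tt.1
  have hm := m_pos h
  apply Nat.dvd_antisymm
  · apply orderOf_dvd_of_pow_eq_one
    ext x
    rw [MonoidHom.pow_apply, MonoidHom.one_apply]
    congr 1
    show e ψ g (x : G) ^ (2 * m) = 1
    rcases x.2 with hx | hx
    · rw [e0 hx]
      exact hx.2
    · rw [e1 h hx]
      exact hx.2
  · obtain ⟨a, ha, ho⟩ := exists_a h
    have hP : ∀ k : ℕ, P ψ (a ^ k) = P ψ a ^ k := by
      intro k
      induction k with
      | zero => rw [pow_zero, pow_zero, P_one]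
      | succ k ih => rw [pow_succ, pow_succ, P_mul ψ (A.pow_mem ha k) ha, ih]
    have e2 : 2 ^ n * m = 2 ^ (n - 1) * (2 * m) := by
      obtain ⟨k, rfl⟩ : ∃ k, n = k + 1 := ⟨n - 1, by omega⟩
      rw [Nat.add_sub_cancel, pow_succ]
      ring
    have h1 : orderOf (P ψ (a ^ (2 ^ (n - 1)))) = 2 * m := by
      rw [hP, orderOf_pow_of_dvd (by positivity) (by rw [ho, e2]; exact dvd_mul_right _ _), ho, e2,
        Nat.mul_div_cancel_left _ (by positivity)]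
    have h2 : a ^ (2 ^ (n - 1)) ∈ C0 ψ m :=
      ⟨A.pow_mem ha _, by rw [← h1, pow_orderOf_eq_one]⟩
    rw [← h1]
    apply orderOf_dvd_of_pow_eq_one
    have h3 := DFunLike.congr_fun (pow_orderOf_eq_one (eps h)) ⟨a ^ (2 ^ (n - 1)), Or.inl h2⟩
    rw [MonoidHom.pow_apply, MonoidHom.one_apply] at h3
    rw [← e0 (g := g) h2]
    exact h3

/-- the function on `C₀` -/
noncomputable def K0 (ψ : A →* ℂˣ) (m : ℕ) (w : G) : ℂ :=
  if w ∈ C0 ψ m then ∑ t ∈ Ex (2 * m), ((P ψ w : ℂˣ) : ℂ) ^ t else 0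

omit [Fintype G] in
theorem sum_A (h : Leaf A ψ g n m s) (w : G) :
    ∑ j ∈ Ex (2 ^ n * m), extZ (ψ ^ j) w = 2 ^ (n - 1) * K0 ψ m w := by
  have hn := h.tt.1
  by_cases hw : w ∈ A
  · have h1 : ∀ j, extZ (ψ ^ j) w = ((P ψ w : ℂˣ) : ℂ) ^ j := by
      intro j
      unfold extZ
      rw [dif_pos hw, MonoidHom.pow_apply, P_of ψ hw, Units.val_pow_eq_pow_val]
    rw [Finset.sum_congr rfl fun j _ => h1 j]
    have h2 : ((P ψ w : ℂˣ) : ℂ) ^ (2 ^ n * m) = 1 := by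
      rw [← Units.val_pow_eq_pow_val, P_ord h hw, Units.val_one]
    rw [sum_Ex' (by omega) (m_pos h) _ h2]
    have h3 : ((P ψ w : ℂˣ) : ℂ) ^ (2 * m) = 1 ↔ w ∈ C0 ψ m := by
      rw [mem_C0, ← Units.val_pow_eq_pow_val, Units.val_eq_one]
      exact ⟨fun h => ⟨hw, h⟩, fun h => h.2⟩
    unfold K0
    by_cases h4 : w ∈ C0 ψ m
    · rw [if_pos (h3.2 h4), if_pos h4]
    · rw [if_neg (fun h => h4 (h3.1 h)), if_neg h4, mul_zero]
  · have h1 : ∀ j, extZ (ψ ^ j) w = 0 := by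
      intro j
      unfold extZ
      rw [dif_neg hw]
    rw [Finset.sum_eq_zero fun j _ => h1 j]
    unfold K0
    rw [if_neg (fun h => hw h.1), mul_zero]

theorem sum_C (h : Leaf A ψ g n m s) (w : G) :
    ∑ j ∈ Ex (2 * m), extZ (eps h ^ j) w = K0 ψ m w + K0 ψ m (g⁻¹ * w) := by
  have h1 : ∀ (hw : w ∈ C h) (j : ℕ), extZ (eps h ^ j) w = ((e ψ g w : ℂˣ) : ℂ) ^ j := by
    intro hw j
    unfold extZ
    rw [dif_pos hw, MonoidHom.pow_apply, Units.val_pow_eq_pow_val]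
    rfl
  unfold K0
  by_cases h2 : w ∈ C0 ψ m
  · have h3 : g⁻¹ * w ∉ C0 ψ m := fun h4 => e1' h h4.1 h2.1
    rw [Finset.sum_congr rfl fun j _ => h1 (Or.inl h2) j, if_pos h2, if_neg h3, add_zero, e0 h2]
  · by_cases h3 : g⁻¹ * w ∈ C0 ψ m
    · rw [Finset.sum_congr rfl fun j _ => h1 (Or.inr h3) j, if_neg h2, if_pos h3, zero_add,
        e1 h h3]
    · rw [if_neg h2, if_neg h3, add_zero]
      refine Finset.sum_eq_zero fun j _ => ?_
      unfold extZ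
      rw [dif_neg]
      rintro (h4 | h4)
      · exact h2 h4
      · exact h3 h4

theorem sum_zero (h : Leaf A ψ g n m s) (x : G) :
    ∑ y : G, K0 ψ m (g⁻¹ * (y⁻¹ * x * y)) = 0 := by
  have hn := h.tt.1
  have hm := m_pos h
  obtain ⟨a, ha, ho⟩ := exists_a h
  have hP : ∀ k : ℕ, P ψ (a ^ k) = P ψ a ^ k := by
    intro k
    induction k with
    | zero => rw [pow_zero, pow_zero, P_one]
    | succ k ih => rw [pow_succ, pow_succ, P_mul ψ (A.pow_mem ha k) ha, ih]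
  obtain ⟨b, hb, hbo⟩ : ∃ b ∈ A, orderOf (P ψ b) = 4 := by
    have e2 : 2 ^ n * m = 2 ^ (n - 2) * m * 4 := by
      obtain ⟨k, rfl⟩ : ∃ k, n = k + 2 := ⟨n - 2, by omega⟩
      rw [Nat.add_sub_cancel, pow_add]
      ring
    refine ⟨a ^ (2 ^ (n - 2) * m), A.pow_mem ha _, ?_⟩
    rw [hP, orderOf_pow_of_dvd (by positivity) (by rw [ho, e2]; exact dvd_mul_right _ _), ho, e2,
      Nat.mul_div_cancel_left _ (by positivity)]
  have hb4 : P ψ b ^ 4 = 1 := by rw [← hbo, pow_orderOf_eq_one]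
  have hb2 : ((P ψ b ^ 2 : ℂˣ) : ℂ) = -1 := by
    have h1 : ((P ψ b ^ 2 : ℂˣ) : ℂ) ^ 2 = 1 := by
      rw [← Units.val_pow_eq_pow_val, ← pow_mul, hb4, Units.val_one]
    rw [sq] at h1
    rcases mul_self_eq_one_iff.1 h1 with h2 | h2
    · exfalso
      rw [Units.val_eq_one] at h2
      have h3 := orderOf_dvd_of_pow_eq_one h2
      rw [hbo] at h3
      omega
    · exact h2
  have hbs : P ψ b ^ s = P ψ b ^ 3 := by
    rw [pow_eq_pow_iff_modEq, hbo]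
    show s % 4 = 3 % 4
    rw [s_mod h.tt]
  have key : ∀ w : G, K0 ψ m (g⁻¹ * (b⁻¹ * w * b)) = -K0 ψ m (g⁻¹ * w) := by
    intro w
    have h1 : g⁻¹ * (b⁻¹ * w * b) = (g⁻¹ * b⁻¹ * g) * (g⁻¹ * w) * b := by group
    have h2 : g⁻¹ * b⁻¹ * g ∈ A := h.norm _ (A.inv_mem hb)
    have h3 : g⁻¹ * (b⁻¹ * w * b) ∈ A ↔ g⁻¹ * w ∈ A := by
      rw [h1]
      rw [Subgroup.mul_mem_cancel_right _ hb, Subgroup.mul_mem_cancel_left _ h2]
    have h4 : g⁻¹ * w ∈ A → ((P ψ (g⁻¹ * (b⁻¹ * w * b)) : ℂˣ) : ℂ) =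
        -((P ψ (g⁻¹ * w) : ℂˣ) : ℂ) := by
      intro hw
      have h5 : P ψ (g⁻¹ * (b⁻¹ * w * b)) = P ψ (g⁻¹ * w) * P ψ b ^ 2 := by
        rw [h1, P_mul ψ (A.mul_mem h2 hw) hb, P_mul ψ h2 hw, P_conj h (A.inv_mem hb),
          P_inv ψ hb, inv_pow, hbs]
        have h6 : P ψ b * P ψ b ^ 3 = 1 := by rw [← pow_succ', hb4]
        have h7 : (P ψ b ^ 3)⁻¹ = P ψ b := (eq_inv_of_mul_eq_one_left h6).symm
        rw [h7, mul_comm (P ψ b), mul_assoc, sq]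
      rw [h5, Units.val_mul, hb2]
      ring
    have h5 : g⁻¹ * (b⁻¹ * w * b) ∈ C0 ψ m ↔ g⁻¹ * w ∈ C0 ψ m := by
      rw [mem_C0, mem_C0]
      constructor
      · rintro ⟨h6, h7⟩
        have h8 := h3.1 h6
        refine ⟨h8, ?_⟩
        rw [← Units.val_eq_one, Units.val_pow_eq_pow_val, h4 h8, pow_mul, neg_sq, ← pow_mul] at h7
        rw [← Units.val_eq_one, Units.val_pow_eq_pow_val]
        exact h7
      · rintro ⟨h8, h7⟩
        refine ⟨h3.2 h8, ?_⟩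
        rw [← Units.val_eq_one, Units.val_pow_eq_pow_val, h4 h8, pow_mul, neg_sq, ← pow_mul]
        rw [← Units.val_eq_one, Units.val_pow_eq_pow_val] at h7
        exact h7
    unfold K0
    by_cases h6 : g⁻¹ * w ∈ C0 ψ m
    · rw [if_pos h6, if_pos (h5.2 h6), ← Finset.sum_neg_distrib]
      refine Finset.sum_congr rfl fun t ht => ?_
      rw [h4 h6.1]
      have h7 : Odd t := by
        simp only [Ex, Finset.mem_filter] at ht
        have h8 : Nat.Coprime 2 t := Nat.Coprime.coprime_mul_right ht.2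
        rw [Nat.coprime_two_left] at h8
        exact h8
      exact h7.neg_pow _
    · rw [if_neg h6, if_neg (fun h => h6 (h5.1 h)), neg_zero]
  have h1 : ∑ y : G, K0 ψ m (g⁻¹ * (y⁻¹ * x * y)) =
      ∑ y : G, K0 ψ m (g⁻¹ * ((y * b)⁻¹ * x * (y * b))) :=
    (Fintype.sum_equiv (Equiv.mulRight b) _ _ fun y => rfl).symm
  have h2 : ∀ y : G, K0 ψ m (g⁻¹ * ((y * b)⁻¹ * x * (y * b))) =
      -K0 ψ m (g⁻¹ * (y⁻¹ * x * y)) := by
    intro y
    rw [← key (y⁻¹ * x * y)]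
    congr 1
    group
  rw [Finset.sum_congr rfl fun y _ => h2 y, Finset.sum_neg_distrib] at h1
  exact self_eq_neg.1 h1

end ZIDx

open ZIDx in
theorem ZID_thm : Stmt_ZID := by
  intro _ G _ _ A ψ g n m s h
  refine ⟨C h, eps h, ord_eps h, fun x => ?_⟩
  have hA : Nat.card A = 2 ^ (n - 1) * Nat.card (C0 ψ m) := card_A h
  have hC := card_C h
  have h0 : (Nat.card (C0 ψ m) : ℂ) ≠ 0 := by
    have : 0 < Nat.card (C0 ψ m) := Nat.card_pos
    exact_mod_cast this.ne'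
  have h1 : ∑ j ∈ Ex (2 ^ n * m), indFun A (extZ (ψ ^ j)) x =
      (2 ^ (n - 1) * ∑ y : G, K0 ψ m (y⁻¹ * x * y)) / (Nat.card A : ℂ) := by
    rw [Finset.sum_congr rfl fun j _ => indFun_extZ A (ψ ^ j) x, ← Finset.sum_div,
      Finset.sum_comm, Finset.mul_sum]
    congr 1
    exact Finset.sum_congr rfl fun y _ => sum_A h _
  have h2 : ∑ j ∈ Ex (2 * m), indFun (C h) (extZ (eps h ^ j)) x =
      (∑ y : G, K0 ψ m (y⁻¹ * x * y)) / (Nat.card (C h) : ℂ) := by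
    rw [Finset.sum_congr rfl fun j _ => indFun_extZ (C h) (eps h ^ j) x, ← Finset.sum_div,
      Finset.sum_comm]
    congr 1
    rw [Finset.sum_congr rfl fun y _ => sum_C h (y⁻¹ * x * y), Finset.sum_add_distrib,
      sum_zero h x, add_zero]
  rw [h1, h2, hA, hC]
  push_cast
  have h3 : (2 : ℂ) ^ (n - 1) ≠ 0 := pow_ne_zero _ two_ne_zero
  field_simp

end StarkC.ABS
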