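import Pool.Agent.ABS.StZH

/-!
# Project ABS, part Z (group part), module ZIM (helper56): image a 2-group

If the image of `ρ` is a `2`-group then it is nilpotent, and a leaf `(A, ψ)` with `ρ = Ind_A ψ` has `m = 1`.
-/

set_option autoImplicit false

open scoped Classical

namespace StarkC.ABS

open StarkC.MON

namespace ZIMx

theorem nim {G V : Type} [Group G] [Fintype G] [AddCommGroup V] [Module ℂ V]
    (ρ : Representation ℂ G V) (h2 : ∀ g, ∃ j : ℕ, ρ (g ^ (2 ^ j)) = 1) : NIm ρ := by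
  have : Fact (Nat.Prime 2) := ⟨Nat.prime_two⟩
  have hP : IsPGroup 2 (G ⧸ MonoidHom.ker ρ) := by
    intro x
    obtain ⟨g, rfl⟩ := QuotientGroup.mk_surjective x
    obtain ⟨j, hj⟩ := h2 g
    refine ⟨j, ?_⟩
    rw [← QuotientGroup.mk_pow]
    exact (QuotientGroup.eq_one_iff _).2 hj
  have hnil : Group.IsNilpotent (G ⧸ MonoidHom.ker ρ) := hP.isNilpotent
  obtain ⟨n, hn⟩ := Subgroup.nilpotent_iff_lowerCentralSeries.1 hnil
  refine ⟨n, fun g hg => ?_⟩
  have h1 : QuotientGroup.mk' (MonoidHom.ker ρ) g ∈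
      ((⊤ : Subgroup G).lowerCentralSeries n).map (QuotientGroup.mk' (MonoidHom.ker ρ)) :=
    Subgroup.mem_map_of_mem _ hg
  rw [Subgroup.map_lowerCentralSeries, Subgroup.map_top_of_surjective _
    (QuotientGroup.mk'_surjective _), hn, Subgroup.mem_bot] at h1
  exact (QuotientGroup.eq_one_iff g).1 h1

theorem norm_val {G : Type} [Group G] [Fintype G] {A : Subgroup G} (ψ : A →* ℂˣ) (a : A) :
    ‖((ψ a : ℂˣ) : ℂ)‖ = 1 := by
  have h1 : ((ψ a : ℂˣ) : ℂ) ^ orderOf a = 1 := by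
    rw [← Units.val_pow_eq_pow_val, ← map_pow, pow_orderOf_eq_one, map_one, Units.val_one]
  exact Complex.norm_eq_one_of_pow_eq_one h1 (orderOf_pos a).ne'

/-- the terms of the induced character -/
noncomputable def tm {G : Type} [Group G] {A : Subgroup G} (ψ : A →* ℂˣ) (b x : G) : ℂ :=
  if x⁻¹ * b * x ∈ A then extZ ψ (x⁻¹ * b * x) else 0

theorem norm_tm {G : Type} [Group G] [Fintype G] {A : Subgroup G} (ψ : A →* ℂˣ) (b x : G) :
    ‖tm ψ b x‖ ≤ 1 := by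
  unfold tm
  split_ifs with h
  · unfold extZ
    rw [dif_pos h]
    exact (norm_val ψ _).le
  · simp

theorem tm_one {G : Type} [Group G] {A : Subgroup G} (ψ : A →* ℂˣ) (x : G) : tm ψ 1 x = 1 := by
  have e : x⁻¹ * 1 * x = 1 := by group
  unfold tm
  rw [e, if_pos A.one_mem]
  unfold extZ
  rw [dif_pos A.one_mem]
  have : (⟨1, A.one_mem⟩ : A) = 1 := rfl
  rw [this, map_one, Units.val_one]

theorem val_one {G : Type} [Group G] [Fintype G] {A : Subgroup G} (ψ : A →* ℂˣ) (b : G)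
    (h : indFun A (extZ ψ) b = indFun A (extZ ψ) 1) (hb : b ∈ A) : ψ ⟨b, hb⟩ = 1 := by
  have hc : (Nat.card A : ℂ) ≠ 0 := by
    exact_mod_cast Nat.card_pos.ne'
  have h1 : ∑ x : G, tm ψ b x = ∑ x : G, tm ψ 1 x := by
    have h2 : (∑ x : G, tm ψ b x) / (Nat.card A : ℂ) = (∑ x : G, tm ψ 1 x) / (Nat.card A : ℂ) := h
    exact (div_left_inj' hc).1 h2
  have h2 : ∑ x : G, (1 - (tm ψ b x).re) = 0 := by
    have h3 := congrArg Complex.re h1
    rw [Complex.re_sum, Complex.re_sum] at h3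
    rw [Finset.sum_sub_distrib, h3, ← Finset.sum_sub_distrib]
    exact Finset.sum_eq_zero fun x _ => by rw [tm_one, Complex.one_re, sub_self]
  have h4 : ∀ x ∈ (Finset.univ : Finset G), 0 ≤ 1 - (tm ψ b x).re := fun x _ => by
    have := Complex.re_le_norm (tm ψ b x)
    have := norm_tm ψ b x
    linarith
  have h5 := (Finset.sum_eq_zero_iff_of_nonneg h4).1 h2 1 (Finset.mem_univ _)
  have e : (1 : G)⁻¹ * b * 1 = b := by group
  have h6 : tm ψ b 1 = ((ψ ⟨b, hb⟩ : ℂˣ) : ℂ) := by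
    unfold tm
    rw [e, if_pos hb]
    unfold extZ
    rw [dif_pos hb]
  rw [h6] at h5
  have h7 : (((ψ ⟨b, hb⟩ : ℂˣ) : ℂ)).re = 1 := by linarith
  have h8 := norm_val ψ ⟨b, hb⟩
  have h9 : (((ψ ⟨b, hb⟩ : ℂˣ) : ℂ)).im = 0 := by
    have h10 := Complex.sq_norm ((ψ ⟨b, hb⟩ : ℂˣ) : ℂ)
    rw [h8, Complex.normSq_apply, h7] at h10
    nlinarith [h10]
  apply Units.ext
  rw [Units.val_one]
  exact Complex.ext (by rw [h7, Complex.one_re]) (by rw [h9, Complex.one_im])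

end ZIMx

open ZIMx

theorem ZIM_thm : Stmt_ZIM := by
  intro G V _ _ _ _ _ ρ h2
  refine ⟨nim ρ h2, fun A ψ g n m s hL hχ => ?_⟩
  have h3 : ∀ a : A, ∃ j : ℕ, ψ a ^ (2 ^ j) = 1 := by
    intro a
    obtain ⟨j, hj⟩ := h2 (a : G)
    refine ⟨j, ?_⟩
    have hb : (a : G) ^ (2 ^ j) ∈ A := A.pow_mem a.2 _
    have h4 : ρ.character ((a : G) ^ (2 ^ j)) = ρ.character 1 := by
      change LinearMap.trace ℂ V (ρ ((a : G) ^ (2 ^ j))) = LinearMap.trace ℂ V (ρ 1)
      rw [hj, map_one ρ]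
    rw [hχ] at h4
    have h5 := val_one ψ _ h4 hb
    rw [← map_pow]
    exact h5
  choose j hj using h3
  have h6 : ψ ^ (2 ^ (Finset.univ.sup j)) = 1 := by
    ext a
    have h7 : 2 ^ j a ∣ 2 ^ (Finset.univ.sup j) := pow_dvd_pow 2 (Finset.le_sup (Finset.mem_univ a))
    obtain ⟨k, hk⟩ := h7
    have h8 : ψ a ^ (2 ^ (Finset.univ.sup j)) = 1 := by
      rw [hk, pow_mul, hj a, one_pow]
    rw [MonoidHom.pow_apply, h8, MonoidHom.one_apply]
  have h7 : m ∣ 2 ^ (Finset.univ.sup j) :=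
    (Dvd.intro_left _ hL.ord.symm).trans (orderOf_dvd_of_pow_eq_one h6)
  have h8 : Nat.Coprime m (2 ^ (Finset.univ.sup j)) :=
    Nat.Coprime.pow_right _ (Nat.coprime_two_right.2 hL.odd)
  exact Nat.eq_one_of_dvd_coprimes h8 dvd_rfl h7

end StarkC.ABS
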