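import Pool.Agent.ABS.StZG

/-!
# ABS, part Z, module ZLG: the leaf
-/

set_option autoImplicit false

open scoped Classical

namespace StarkC.ABS

open StarkC.MON

namespace ZLGx

variable {G V : Type} [Group G] [AddCommGroup V] [Module ℂ V]

/-- The data of a leaf. -/
structure Ctx (ρ : Representation ℂ G V) (c g : G) (t n : ℕ) (v : V) (ζ : ℂ) : Prop where
  gg : ρ (g * g) = 1
  v0 : v ≠ 0
  prim : IsPrimitiveRoot ζ (2 ^ n)
  cv : ρ c v = ζ • v
  cg : ρ c (ρ g v) = ζ ^ t • ρ g v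
  sp : ∀ w : V, ∃ a b : ℂ, w = a • v + b • ρ g v
  li : ∀ a b : ℂ, a • v + b • ρ g v = 0 → a = 0 ∧ b = 0
  dq : DQ ρ c g t n

theorem pow_mod_eq {z : ℂ} {N a b : ℕ} (hz : z ^ N = 1) (h : a ≡ b [MOD N]) : z ^ a = z ^ b := by
  rw [pow_eq_pow_mod a hz, pow_eq_pow_mod b hz, h]

section

variable {ρ : Representation ℂ G V} {c g : G} {t n : ℕ} {v : V} {ζ : ℂ}

theorem Ctx.g_ne (C : Ctx ρ c g t n v ζ) : ρ g v ≠ 0 := by
  intro h
  have h1 := C.li 0 1 (by rw [h, zero_smul, smul_zero, add_zero])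
  exact one_ne_zero h1.2

theorem Ctx.ggv (C : Ctx ρ c g t n v ζ) : ρ g (ρ g v) = v := by
  rw [← Module.End.mul_apply, ← map_mul, C.gg, Module.End.one_apply]

theorem Ctx.inv_g (C : Ctx ρ c g t n v ζ) (w : V) : ρ g⁻¹ w = ρ g w := by
  have h1 : ρ g (ρ g w) = w := by
    rw [← Module.End.mul_apply, ← map_mul, C.gg, Module.End.one_apply]
  conv_lhs => rw [← h1]
  rw [← Module.End.mul_apply (ρ g⁻¹), ← map_mul, inv_mul_cancel, map_one, Module.End.one_apply]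

/-- The two kinds of elements. -/
theorem Ctx.cases (C : Ctx ρ c g t n v ζ) (x : G) : ∃ (j m : ℕ) (u : G) (ω : ℂ), Odd m ∧
    ω ^ m = 1 ∧ (∀ w, ρ u w = ω • w) ∧
    ((ρ x v = (ζ ^ j * ω) • v ∧ ρ x (ρ g v) = ((ζ ^ t) ^ j * ω) • ρ g v) ∨
      (ρ x v = (ζ ^ j * ω) • ρ g v ∧ ρ x (ρ g v) = ((ζ ^ t) ^ j * ω) • v)) := by
  obtain ⟨j, m, u, hm, hu, ⟨ω, hω⟩, hx⟩ := C.dq.all x
  have h1 : ω ^ m = 1 := by
    have h2 := pow_apply_eigen ρ (hω v) m
    rw [hu, Module.End.one_apply] at h2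
    have h3 : (1 : ℂ) • v = ω ^ m • v := by rw [one_smul]; exact h2
    exact (smul_left_injective ℂ C.v0 h3).symm
  have h4 : ρ (c ^ j * u) v = (ζ ^ j * ω) • v := by
    rw [map_mul, Module.End.mul_apply, hω, map_smul, pow_apply_eigen ρ C.cv, smul_smul, mul_comm]
  have h5 : ρ (c ^ j * u) (ρ g v) = ((ζ ^ t) ^ j * ω) • ρ g v := by
    rw [map_mul, Module.End.mul_apply, hω, map_smul, pow_apply_eigen ρ C.cg, smul_smul, mul_comm]
  refine ⟨j, m, u, ω, hm, h1, hω, ?_⟩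
  rcases hx with hx | hx
  · left
    rw [hx]
    exact ⟨h4, h5⟩
  · right
    rw [hx, mul_assoc, map_mul, Module.End.mul_apply, Module.End.mul_apply, h4, h5, map_smul,
      map_smul, C.ggv]
    exact ⟨rfl, rfl⟩

/-- The subgroup. -/
def stb (ρ : Representation ℂ G V) (v : V) (hv : v ≠ 0) : Subgroup G where
  carrier := {x | ∃ l : ℂ, ρ x v = l • v}
  one_mem' := ⟨1, by simp⟩
  mul_mem' := by
    rintro x y ⟨l, hl⟩ ⟨k, hk⟩
    exact ⟨k * l, by rw [map_mul, Module.End.mul_apply, hk, map_smul, hl, smul_smul]⟩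
  inv_mem' := by
    rintro x ⟨l, hl⟩
    have h2 : ρ x⁻¹ (ρ x v) = v := by
      rw [← Module.End.mul_apply, ← map_mul, inv_mul_cancel, map_one, Module.End.one_apply]
    rw [hl, map_smul] at h2
    have h0 : l ≠ 0 := by
      rintro rfl
      rw [zero_smul] at h2
      exact hv h2.symm
    refine ⟨l⁻¹, ?_⟩
    rw [eq_inv_smul_iff₀ h0]
    exact h2

theorem mem_stb {hv : v ≠ 0} {x : G} : x ∈ stb ρ v hv ↔ ∃ l : ℂ, ρ x v = l • v := Iff.rfl

/-- The eigenvalue of an element. -/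
noncomputable def lam (ρ : Representation ℂ G V) (v : V) (x : G) : ℂ :=
  if h : ∃ l : ℂ, ρ x v = l • v then Classical.choose h else 0

theorem lam_spec (ρ : Representation ℂ G V) (v : V) (x : G) (h : ∃ l : ℂ, ρ x v = l • v) :
    ρ x v = lam ρ v x • v := by
  rw [lam, dif_pos h]
  exact Classical.choose_spec h

/-- The eigenvalue. -/
noncomputable def ev (ρ : Representation ℂ G V) (v : V) (hv : v ≠ 0) : stb ρ v hv →* ℂ where
  toFun x := lam ρ v (x : G)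
  map_one' := by
    have h1 := lam_spec ρ v ((1 : stb ρ v hv) : G) (mem_stb.1 (1 : stb ρ v hv).2)
    refine smul_left_injective ℂ hv ?_
    show lam ρ v ((1 : stb ρ v hv) : G) • v = (1 : ℂ) • v
    rw [← h1]
    simp
  map_mul' x y := by
    have h1 := lam_spec ρ v ((x * y : stb ρ v hv) : G) (mem_stb.1 (x * y).2)
    have h2 := lam_spec ρ v (x : G) (mem_stb.1 x.2)
    have h3 := lam_spec ρ v (y : G) (mem_stb.1 y.2)
    refine smul_left_injective ℂ hv ?_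
    show lam ρ v ((x * y : stb ρ v hv) : G) • v = (lam ρ v (x : G) * lam ρ v (y : G)) • v
    rw [← h1, Subgroup.coe_mul, map_mul, Module.End.mul_apply]
    conv_lhs => rw [h3, map_smul, h2, smul_smul]
    rw [mul_comm]

theorem ev_spec (ρ : Representation ℂ G V) (v : V) (hv : v ≠ 0) (x : stb ρ v hv) :
    ρ (x : G) v = ev ρ v hv x • v := lam_spec ρ v (x : G) (mem_stb.1 x.2)

/-- The linear character. -/
noncomputable def psi (ρ : Representation ℂ G V) (v : V) (hv : v ≠ 0) : stb ρ v hv →* ℂˣ :=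
  (ev ρ v hv).toHomUnits

theorem psi_spec (ρ : Representation ℂ G V) (v : V) (hv : v ≠ 0) (x : stb ρ v hv) :
    ρ (x : G) v = ((psi ρ v hv x : ℂˣ) : ℂ) • v := by
  rw [psi, MonoidHom.coe_toHomUnits]
  exact ev_spec ρ v hv x

theorem psi_eq (ρ : Representation ℂ G V) (v : V) (hv : v ≠ 0) (x : stb ρ v hv) {l : ℂ}
    (h : ρ (x : G) v = l • v) : ((psi ρ v hv x : ℂˣ) : ℂ) = l := by
  rw [psi_spec] at h
  exact smul_left_injective ℂ hv h

/-- An element that maps `v` to a multiple of `ρ g v` is not in the subgroup. -/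
theorem Ctx.not_mem (C : Ctx ρ c g t n v ζ) {x : G} {l : ℂ} (hl : l ≠ 0)
    (h : ρ x v = l • ρ g v) : x ∉ stb ρ v C.v0 := by
  rintro ⟨k, hk⟩
  rw [h] at hk
  have h1 := C.li k (-l) (by rw [neg_smul, hk]; abel)
  exact hl (neg_eq_zero.1 h1.2)

theorem Ctx.zeta_ne (C : Ctx ρ c g t n v ζ) : ζ ≠ 0 := C.prim.ne_zero (by positivity)

/-- The elements of the subgroup. -/
theorem Ctx.mem_cases (C : Ctx ρ c g t n v ζ) (x : stb ρ v C.v0) : ∃ (j m : ℕ) (u : G) (ω : ℂ),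
    Odd m ∧ ω ^ m = 1 ∧ (∀ w, ρ u w = ω • w) ∧
    ((psi ρ v C.v0 x : ℂˣ) : ℂ) = ζ ^ j * ω ∧
      ρ (x : G) (ρ g v) = ((ζ ^ t) ^ j * ω) • ρ g v := by
  obtain ⟨j, m, u, ω, hm, hω, hu, h | h⟩ := C.cases (x : G)
  · exact ⟨j, m, u, ω, hm, hω, hu, psi_eq ρ v C.v0 x h.1, h.2⟩
  · exfalso
    have h0 : ω ≠ 0 := by
      rintro rfl
      rw [zero_pow hm.pos.ne'] at hω
      exact zero_ne_one hω
    exact C.not_mem (mul_ne_zero (pow_ne_zero _ C.zeta_ne) h0) h.1 x.2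

theorem Ctx.c_mem (C : Ctx ρ c g t n v ζ) : c ∈ stb ρ v C.v0 := ⟨ζ, C.cv⟩

theorem Ctx.psi_c (C : Ctx ρ c g t n v ζ) :
    ((psi ρ v C.v0 ⟨c, C.c_mem⟩ : ℂˣ) : ℂ) = ζ := psi_eq ρ v C.v0 _ C.cv

/-- A common odd exponent. -/
theorem Ctx.exp [Fintype G] (C : Ctx ρ c g t n v ζ) :
    ∃ M : ℕ, Odd M ∧ psi ρ v C.v0 ^ (2 ^ n * M) = 1 := by
  choose j m u ω hm hω hu hp hx using C.mem_cases
  have hfin : Fintype (stb ρ v C.v0) := Fintype.ofFinite _
  refine ⟨∏ x, m x, Finset.prod_induction _ Odd (fun _ _ => Odd.mul) odd_one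
    (fun x _ => hm x), ?_⟩
  ext x
  rw [MonoidHom.pow_apply, Units.val_pow_eq_pow_val, hp, MonoidHom.one_apply, Units.val_one,
    mul_pow, ← pow_mul, mul_comm (j x), mul_assoc, pow_mul, C.prim.pow_eq_one, one_pow, one_mul]
  have h1 : m x ∣ 2 ^ n * ∏ x, m x := Dvd.dvd.mul_left (Finset.dvd_prod_of_mem _ (Finset.mem_univ x)) _
  obtain ⟨k, hk⟩ := h1
  rw [hk, pow_mul, hω, one_pow]

/-- The order of `ψ`. -/
theorem Ctx.order [Fintype G] (C : Ctx ρ c g t n v ζ) :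
    ∃ m : ℕ, Odd m ∧ orderOf (psi ρ v C.v0) = 2 ^ n * m := by
  obtain ⟨M, hM, hp⟩ := C.exp
  have h1 : orderOf (psi ρ v C.v0) ∣ 2 ^ n * M := orderOf_dvd_of_pow_eq_one hp
  have h2 : 2 ^ n ∣ orderOf (psi ρ v C.v0) := by
    rw [← C.prim.pow_eq_one_iff_dvd]
    have h3 := congrArg (fun f : stb ρ v C.v0 →* ℂˣ => ((f ⟨c, C.c_mem⟩ : ℂˣ) : ℂ))
      (pow_orderOf_eq_one (psi ρ v C.v0))
    simp only [MonoidHom.pow_apply, Units.val_pow_eq_pow_val, MonoidHom.one_apply,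
      Units.val_one] at h3
    rw [C.psi_c] at h3
    exact h3
  obtain ⟨m, hm⟩ := h2
  refine ⟨m, ?_, hm⟩
  rw [hm] at h1
  have h4 : m ∣ M := Nat.dvd_of_mul_dvd_mul_left (by positivity) h1
  exact Odd.of_dvd_nat hM h4

/-- The scalars: `ω ^ m = 1` for the odd part `m` of the order of `ψ`. -/
theorem Ctx.om (C : Ctx ρ c g t n v ζ) {m k : ℕ} {u : G} {ω : ℂ} (hm : Odd k)
    (ho : orderOf (psi ρ v C.v0) = 2 ^ n * m) (hω : ω ^ k = 1) (hu : ∀ w, ρ u w = ω • w) :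
    ω ^ m = 1 := by
  have hmem : u ∈ stb ρ v C.v0 := ⟨ω, hu v⟩
  have h1 : ((psi ρ v C.v0 ⟨u, hmem⟩ : ℂˣ) : ℂ) = ω := psi_eq ρ v C.v0 _ (hu v)
  have h3 := congrArg (fun f : stb ρ v C.v0 →* ℂˣ => ((f ⟨u, hmem⟩ : ℂˣ) : ℂ))
      (pow_orderOf_eq_one (psi ρ v C.v0))
  simp only [MonoidHom.pow_apply, Units.val_pow_eq_pow_val, MonoidHom.one_apply,
      Units.val_one] at h3
  rw [h1, ho] at h3
  have h4 : orderOf ω ∣ k := orderOf_dvd_of_pow_eq_one hω
  have h5 : orderOf ω ∣ 2 ^ n * m := orderOf_dvd_of_pow_eq_one h3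
  have h6 : (orderOf ω).Coprime (2 ^ n) :=
    (Nat.Coprime.pow_right n ((Nat.coprime_two_right).2 (Odd.of_dvd_nat hm h4)))
  exact orderOf_dvd_iff_pow_eq_one.1 (h6.dvd_of_dvd_mul_left h5)

/-- The conjugate. -/
theorem Ctx.conjv [Fintype G] (C : Ctx ρ c g t n v ζ) {m s : ℕ}
    (ho : orderOf (psi ρ v C.v0) = 2 ^ n * m) (hs : s ≡ t [MOD 2 ^ n]) (hs1 : s ≡ 1 [MOD m])
    (a : stb ρ v C.v0) :
    ρ (a : G) (ρ g v) = (((psi ρ v C.v0 a : ℂˣ) : ℂ) ^ s) • ρ g v ∧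
    ρ (g⁻¹ * a * g) v = (((psi ρ v C.v0 a : ℂˣ) : ℂ) ^ s) • v := by
  obtain ⟨j, k, u, ω, hk, hω, hu, h1, h2⟩ := C.mem_cases a
  have h3 : ω ^ m = 1 := C.om hk ho hω hu
  have h4 : ω ^ s = ω := by
    conv_rhs => rw [← pow_one ω]
    exact pow_mod_eq h3 hs1
  have h5 : ζ ^ s = ζ ^ t := pow_mod_eq C.prim.pow_eq_one hs
  have h6 : (((psi ρ v C.v0 a : ℂˣ) : ℂ) ^ s) = (ζ ^ t) ^ j * ω := by
    rw [h1, mul_pow, h4, ← pow_mul, mul_comm j s, pow_mul, h5]
  rw [h6]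
  refine ⟨h2, ?_⟩
  rw [map_mul, map_mul, Module.End.mul_apply, Module.End.mul_apply, h2, map_smul, C.inv_g, C.ggv]

/-- The trace in the basis `v`, `ρ g v`. -/
theorem Ctx.trace [Module.Finite ℂ V] (C : Ctx ρ c g t n v ζ) (f : V →ₗ[ℂ] V) (p q r s : ℂ)
    (h1 : f v = p • v + q • ρ g v) (h2 : f (ρ g v) = r • v + s • ρ g v) :
    LinearMap.trace ℂ V f = p + s := by
  have hli : LinearIndependent ℂ ![v, ρ g v] := LinearIndependent.pair_iff.2 C.li
  have hsp : ⊤ ≤ Submodule.span ℂ (Set.range ![v, ρ g v]) := by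
    intro w _
    obtain ⟨a, b, rfl⟩ := C.sp w
    refine Submodule.add_mem _ (Submodule.smul_mem _ _ ?_) (Submodule.smul_mem _ _ ?_)
    · exact Submodule.subset_span ⟨0, rfl⟩
    · exact Submodule.subset_span ⟨1, rfl⟩
  have hb0 : (Module.Basis.mk hli hsp) 0 = v := by rw [Module.Basis.mk_apply]; rfl
  have hb1 : (Module.Basis.mk hli hsp) 1 = ρ g v := by rw [Module.Basis.mk_apply]; rfl
  generalize Module.Basis.mk hli hsp = b at hb0 hb1
  have r0 : b.repr v = Finsupp.single 0 1 := by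
    rw [← hb0]
    exact b.repr_self 0
  have r1 : b.repr (ρ g v) = Finsupp.single 1 1 := by
    rw [← hb1]
    exact b.repr_self 1
  rw [LinearMap.trace_eq_matrix_trace ℂ b f, Matrix.trace_fin_two, LinearMap.toMatrix_apply,
    LinearMap.toMatrix_apply, hb0, hb1, h1, h2, map_add, map_add, map_smul, map_smul, map_smul,
    map_smul, r0, r1]
  simp

end

end ZLGx

open ZLGx in
theorem ZLG_thm : Stmt_ZLG := by
  intro hVB hSQ G V _ _ _ _ _ ρ c g t n hirr hD hSy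
  obtain ⟨v, ζ, hv, hζ, hcv, hcg, hsp, hli, -⟩ := hVB G V ρ c g t n hirr hD
  have hgg := hSQ hVB G V ρ c g t n hirr hD hSy
  have C : Ctx ρ c g t n v ζ := ⟨hgg, hv, hζ, hcv, hcg, hsp, hli, hD⟩
  obtain ⟨m, hm, ho⟩ := C.order
  have hco : (2 ^ n).Coprime m := Nat.Coprime.pow_left n ((Nat.coprime_two_left).2 hm)
  obtain ⟨s, hs, hs1⟩ := Nat.chineseRemainder hco t 1
  have hconj := C.conjv ho hs hs1
  have hnorm : ∀ a ∈ stb ρ v C.v0, g⁻¹ * a * g ∈ stb ρ v C.v0 :=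
    fun a ha => ⟨_, (hconj ⟨a, ha⟩).2⟩
  have hggm : g * g ∈ stb ρ v C.v0 := ⟨1, by rw [hgg, one_smul, Module.End.one_apply]⟩
  have hpb : ∀ a b : stb ρ v C.v0, (b : G) = g⁻¹ * a * g →
      ((psi ρ v C.v0 b : ℂˣ) : ℂ) = ((psi ρ v C.v0 a : ℂˣ) : ℂ) ^ s := by
    intro a b hb
    refine psi_eq ρ v C.v0 b ?_
    rw [hb]
    exact (hconj a).2
  have hmem : ∀ x : G, x ∉ stb ρ v C.v0 → ∃ p q : ℂ, p ≠ 0 ∧ ρ x v = p • ρ g v ∧
      ρ x (ρ g v) = q • v := by
    intro x hx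
    obtain ⟨j, k, u, ω, hk, hω, hu, h | h⟩ := C.cases x
    · exact absurd ⟨_, h.1⟩ hx
    · have h0 : ω ≠ 0 := by
        rintro rfl
        rw [zero_pow hk.pos.ne'] at hω
        exact zero_ne_one hω
      exact ⟨_, _, mul_ne_zero (pow_ne_zero _ C.zeta_ne) h0, h.1, h.2⟩
  have hgi : ∀ x : G, x ∉ stb ρ v C.v0 ↔ g⁻¹ * x ∈ stb ρ v C.v0 := by
    intro x
    constructor
    · intro hx
      obtain ⟨p, q, -, h1, -⟩ := hmem x hx
      refine ⟨p, ?_⟩
      rw [map_mul, Module.End.mul_apply, h1, map_smul, C.inv_g, C.ggv]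
    · rintro ⟨l, hl⟩
      have h1 : ρ x v = l • ρ g v := by
        have h2 : x = g * (g⁻¹ * x) := by group
        rw [h2, map_mul, Module.End.mul_apply, hl, map_smul]
      refine C.not_mem ?_ h1
      rintro rfl
      rw [zero_smul] at h1
      have h3 : ρ x⁻¹ (ρ x v) = v := by
        rw [← Module.End.mul_apply, ← map_mul, inv_mul_cancel, map_one, Module.End.one_apply]
      rw [h1, map_zero] at h3
      exact hv h3.symm
  have hchar : ∀ x : G, ρ.character x = if h : x ∈ stb ρ v C.v0 then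
      ((psi ρ v C.v0 ⟨x, h⟩ : ℂˣ) : ℂ) + ((psi ρ v C.v0 ⟨x, h⟩ : ℂˣ) : ℂ) ^ s else 0 := by
    intro x
    split_ifs with h
    · refine C.trace (ρ x) _ 0 0 _ ?_ ?_
      · rw [zero_smul, add_zero]
        exact psi_spec ρ v C.v0 ⟨x, h⟩
      · rw [zero_smul, zero_add]
        exact (hconj ⟨x, h⟩).1
    · obtain ⟨p, q, -, h1, h2⟩ := hmem x h
      have h3 := C.trace (ρ x) 0 p q 0 (by rw [zero_smul, zero_add]; exact h1)
        (by rw [zero_smul, add_zero]; exact h2)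
      rw [add_zero] at h3
      exact h3
  refine ⟨stb ρ v C.v0, psi ρ v C.v0, m, s, ⟨?_, hm, hs1, ho, hnorm, ?_, hggm, ?_⟩, ?_, ?_⟩
  · refine ⟨hD.tt.1, ?_⟩
    have h1 : (s + 1) % 2 ^ n = (t + 1) % 2 ^ n := Nat.ModEq.add_right 1 hs
    rw [h1]
    exact hD.tt.2
  · intro a b hb
    ext
    rw [hpb a b hb, Units.val_pow_eq_pow_val]
  · intro a ha
    ext
    rw [Units.val_one]
    refine psi_eq ρ v C.v0 a ?_
    rw [ha, hgg, one_smul, Module.End.one_apply]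
  · funext x
    rw [indFun_extZ, hchar]
    have hA0 : (Nat.card (stb ρ v C.v0) : ℂ) ≠ 0 := by
      exact_mod_cast Nat.card_pos.ne'
    have hcA : (Finset.univ.filter fun y : G => y ∈ stb ρ v C.v0).card =
        Nat.card (stb ρ v C.v0) := by
      rw [Nat.card_eq_fintype_card, Fintype.card_subtype]
    have hcB : (Finset.univ.filter fun y : G => ¬ y ∈ stb ρ v C.v0).card =
        Nat.card (stb ρ v C.v0) := by
      rw [← hcA]
      refine Finset.card_bij (fun y _ => g⁻¹ * y) ?_ ?_ ?_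
      · intro y hy
        rw [Finset.mem_filter] at hy ⊢
        exact ⟨Finset.mem_univ _, (hgi y).1 hy.2⟩
      · intro y _ y' _ h
        exact mul_left_cancel h
      · intro y hy
        rw [Finset.mem_filter] at hy
        refine ⟨g * y, ?_, by group⟩
        rw [Finset.mem_filter]
        refine ⟨Finset.mem_univ _, (hgi _).2 ?_⟩
        have : g⁻¹ * (g * y) = y := by group
        rw [this]
        exact hy.2
    have hcA' : ∀ y ∈ stb ρ v C.v0, (y⁻¹ * x * y ∈ stb ρ v C.v0 ↔ x ∈ stb ρ v C.v0) := by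
      intro y hy
      constructor
      · intro h
        have h1 := (stb ρ v C.v0).mul_mem ((stb ρ v C.v0).mul_mem hy h)
          ((stb ρ v C.v0).inv_mem hy)
        have h2 : y * (y⁻¹ * x * y) * y⁻¹ = x := by group
        rwa [h2] at h1
      · intro h
        exact (stb ρ v C.v0).mul_mem ((stb ρ v C.v0).mul_mem ((stb ρ v C.v0).inv_mem hy) h) hy
    have hng : ∀ z : G, g⁻¹ * z * g ∈ stb ρ v C.v0 → z ∈ stb ρ v C.v0 := by
      intro z hz
      by_contra hcon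
      obtain ⟨p, q, hp, h1, h2⟩ := hmem z hcon
      have h3 : ρ (g⁻¹ * z * g) v = q • ρ g v := by
        rw [map_mul, map_mul, Module.End.mul_apply, Module.End.mul_apply, h2, map_smul, C.inv_g]
      have h4 : q ≠ 0 := by
        rintro rfl
        rw [zero_smul] at h2
        have h5 : ρ z⁻¹ (ρ z (ρ g v)) = ρ g v := by
          rw [← Module.End.mul_apply, ← map_mul, inv_mul_cancel, map_one, Module.End.one_apply]
        rw [h2, map_zero] at h5
        exact C.g_ne h5.symm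
      exact C.not_mem h4 h3 hz
    have hin : ∀ y ∈ stb ρ v C.v0, ∀ (h : x ∈ stb ρ v C.v0),
        extZ (psi ρ v C.v0) (y⁻¹ * x * y) = ((psi ρ v C.v0 ⟨x, h⟩ : ℂˣ) : ℂ) := by
      intro y hy h
      rw [extZ, dif_pos ((hcA' y hy).2 h)]
      have h1 : (⟨y⁻¹ * x * y, (hcA' y hy).2 h⟩ : stb ρ v C.v0) =
          (⟨y, hy⟩ : stb ρ v C.v0)⁻¹ * ⟨x, h⟩ * ⟨y, hy⟩ := rfl
      rw [h1, map_mul, map_mul, map_inv, mul_comm, mul_inv_cancel_left]
    have hout : ∀ y, ¬ y ∈ stb ρ v C.v0 → ∀ (h : x ∈ stb ρ v C.v0),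
        extZ (psi ρ v C.v0) (y⁻¹ * x * y) = ((psi ρ v C.v0 ⟨x, h⟩ : ℂˣ) : ℂ) ^ s := by
      intro y hy h
      have hy' := (hgi y).1 hy
      have hxg := hnorm x h
      have h1 : y⁻¹ * x * y = (g⁻¹ * y)⁻¹ * (g⁻¹ * x * g) * (g⁻¹ * y) := by group
      have h2 : (g⁻¹ * y)⁻¹ * (g⁻¹ * x * g) * (g⁻¹ * y) ∈ stb ρ v C.v0 :=
        (stb ρ v C.v0).mul_mem ((stb ρ v C.v0).mul_mem ((stb ρ v C.v0).inv_mem hy') hxg) hy'
      rw [h1, extZ, dif_pos h2]
      have h3 : (⟨(g⁻¹ * y)⁻¹ * (g⁻¹ * x * g) * (g⁻¹ * y), h2⟩ : stb ρ v C.v0) =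
          (⟨g⁻¹ * y, hy'⟩ : stb ρ v C.v0)⁻¹ * ⟨g⁻¹ * x * g, hxg⟩ * ⟨g⁻¹ * y, hy'⟩ := rfl
      rw [h3, map_mul, map_mul, map_inv, mul_comm, mul_inv_cancel_left]
      exact hpb ⟨x, h⟩ _ rfl
    rw [← Finset.sum_filter_add_sum_filter_not Finset.univ (fun y : G => y ∈ stb ρ v C.v0)]
    by_cases h : x ∈ stb ρ v C.v0
    · rw [dif_pos h, Finset.sum_congr rfl (fun y hy => hin y (Finset.mem_filter.1 hy).2 h),
        Finset.sum_congr rfl (fun y hy => hout y (Finset.mem_filter.1 hy).2 h), Finset.sum_const,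
        Finset.sum_const, hcA, hcB, nsmul_eq_mul, nsmul_eq_mul]
      field_simp
    · rw [dif_neg h]
      have h1 : ∀ y : G, extZ (psi ρ v C.v0) (y⁻¹ * x * y) = 0 := by
        intro y
        rw [extZ, dif_neg]
        intro h2
        by_cases hy : y ∈ stb ρ v C.v0
        · exact h ((hcA' y hy).1 h2)
        · have hy' := (hgi y).1 hy
          have h3 : g⁻¹ * x * g = (g⁻¹ * y) * (y⁻¹ * x * y) * (g⁻¹ * y)⁻¹ := by group
          have h4 : g⁻¹ * x * g ∈ stb ρ v C.v0 := by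
            rw [h3]
            exact (stb ρ v C.v0).mul_mem ((stb ρ v C.v0).mul_mem hy' h2)
              ((stb ρ v C.v0).inv_mem hy')
          exact h (hng x h4)
      rw [Finset.sum_congr rfl (fun y _ => h1 y), Finset.sum_congr rfl (fun y _ => h1 y)]
      simp
  · intro σ hσ
    by_contra hcon
    push Not at hcon
    obtain ⟨⟨a1, h1⟩, ⟨a2, h2⟩⟩ := hcon
    let f : stb ρ v C.v0 →* ℂ := (Units.coeHom ℂ).comp (psi ρ v C.v0)
    let f' : stb ρ v C.v0 →* ℂ := ((σ : ℂ →* ℂ)).comp f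
    have hf1 : f' ≠ f := by
      intro h
      exact h1 (DFunLike.congr_fun h a1)
    have hf2 : f' ≠ f ^ s := by
      intro h
      exact h2 (DFunLike.congr_fun h a2)
    have hli' := linearIndependent_iff.1 (linearIndependent_monoidHom (stb ρ v C.v0) ℂ)
      (Finsupp.single f' 1 + Finsupp.single (f' ^ s) 1 - Finsupp.single f 1 -
        Finsupp.single (f ^ s) 1) (by
        rw [map_sub, map_sub, map_add, Finsupp.linearCombination_single,
          Finsupp.linearCombination_single, Finsupp.linearCombination_single,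
          Finsupp.linearCombination_single, one_smul, one_smul, one_smul, one_smul]
        funext a
        have h3 := hσ (a : G)
        rw [hchar, dif_pos a.2, map_add, map_pow] at h3
        have h4 : f' a + f' a ^ s = f a + f a ^ s := h3
        show f' a + (f' ^ s) a - f a - (f ^ s) a = 0
        rw [MonoidHom.pow_apply, MonoidHom.pow_apply, h4]
        ring)
    have h5 := DFunLike.congr_fun hli' f'
    rw [Finsupp.sub_apply, Finsupp.sub_apply, Finsupp.add_apply, Finsupp.single_eq_same,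
      Finsupp.single_eq_of_ne' hf1.symm, Finsupp.single_eq_of_ne' hf2.symm, Finsupp.zero_apply] at h5
    by_cases h6 : f' ^ s = f'
    · rw [h6, Finsupp.single_eq_same] at h5
      norm_num at h5
    · rw [Finsupp.single_eq_of_ne' h6] at h5
      norm_num at h5

end StarkC.ABS
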