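import Pool.Agent.ABS.StZG
import Pool.Agent.ABS.RAV
import Pool.Agent.ABS.ROQ
import Pool.Agent.ABS.NOQ

/-!
# Project ABS, part Z (group part), module ZOQ (helper29): the induction of Roquette with dihedral leaves

Modified copy of `ABS/NOQ.lean` (helper62).
-/

set_option autoImplicit false

open scoped Classical

namespace StarkC.ABS

open StarkC.MON

namespace ZOQx

variable {G V : Type} [Group G] [AddCommGroup V] [Module ℂ V]

/-- The element of `A ≤ H` which belongs to an element of `A.map H.subtype`. -/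
theorem coe_symm (H : Subgroup G) (A : Subgroup H) (x : A.map H.subtype) :
    ((((A.equivMapOfInjective H.subtype H.subtype_injective).symm x : A) : H) : G) = (x : G) := by
  obtain ⟨y, rfl⟩ := (A.equivMapOfInjective H.subtype H.subtype_injective).surjective x
  rw [MulEquiv.symm_apply_apply]
  rfl

theorem tr_apply (H : Subgroup G) (A : Subgroup H) (ψ : A →* ℂˣ) (x : A.map H.subtype) :
    tr A ψ x = ψ ((A.equivMapOfInjective H.subtype H.subtype_injective).symm x) := rfl

theorem orderOf_tr (H : Subgroup G) (A : Subgroup H) (ψ : A →* ℂˣ) :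
    orderOf (tr A ψ) = orderOf ψ := by
  rw [orderOf_eq_orderOf_iff]
  intro k
  constructor
  · intro h
    refine MonoidHom.ext fun a => ?_
    have h1 := DFunLike.congr_fun h (A.equivMapOfInjective H.subtype H.subtype_injective a)
    rw [MonoidHom.pow_apply, tr_apply, MulEquiv.symm_apply_apply] at h1
    rw [MonoidHom.pow_apply, h1]
    rfl
  · intro h
    refine MonoidHom.ext fun a => ?_
    rw [MonoidHom.pow_apply, tr_apply, ← MonoidHom.pow_apply, h]
    rfl

/-- Leaves of a subgroup are leaves of the group. -/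
theorem leaf_up (H : Subgroup G) (A : Subgroup H) (ψ : A →* ℂˣ) (g : H) (n m s : ℕ)
    (h : Leaf A ψ g n m s) : Leaf (A.map H.subtype) (tr A ψ) (g : G) n m s where
  tt := h.tt
  odd := h.odd
  one := h.one
  ord := by rw [orderOf_tr, h.ord]
  norm := by
    rintro a ⟨b, hb, rfl⟩
    exact ⟨g⁻¹ * b * g, h.norm b hb, rfl⟩
  conj := by
    intro a b hab
    rw [tr_apply, tr_apply]
    refine h.conj _ _ (Subtype.ext ?_)
    rw [coe_symm, hab]
    change _ = (g : G)⁻¹ * ((((A.equivMapOfInjective H.subtype H.subtype_injective).symm a : A) :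
      H) : G) * (g : G)
    rw [coe_symm]
  mem := ⟨g * g, h.mem, rfl⟩
  sq := by
    intro a ha
    rw [tr_apply]
    refine h.sq _ (Subtype.ext ?_)
    rw [coe_symm, ha]
    rfl

/-- The image stays nilpotent. -/
theorem nim_sub (ρ : Representation ℂ G V) (H : Subgroup G) (W : Submodule ℂ V)
    (hW : ∀ g ∈ H, ∀ v ∈ W, ρ g v ∈ W) (h : NIm ρ) : NIm (sub ρ H W hW) := by
  obtain ⟨n, hn⟩ := h
  refine ⟨n, fun g hg => ?_⟩
  have h1 : (g : G) ∈ (⊤ : Subgroup G).lowerCentralSeries n := by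
    have h3 : (g : G) ∈ ((⊤ : Subgroup H).lowerCentralSeries n).map H.subtype :=
      Subgroup.mem_map_of_mem H.subtype hg
    rw [Subgroup.top_subtype_lowerCentralSeries] at h3
    exact Subgroup.lowerCentralSeries_mono n le_top h3
  refine LinearMap.ext fun v => Subtype.ext ?_
  change ρ (g : G) (v : V) = (v : V)
  rw [hn _ h1]
  rfl

theorem main (hRAV : Stmt_RAV) (hZEL : ConclZEL) (hZTW : Stmt_ZTW) (hZSI : Stmt_ZSI)
    (hZVB : Stmt_ZVB) (hZSQ : Stmt_ZSQ) (hZLG : Stmt_ZLG) (n : ℕ) : ∀ (G V : Type) [Group G]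
    [Fintype G] [AddCommGroup V] [Module ℂ V] [Module.Finite ℂ V] (ρ : Representation ℂ G V),
    Nat.card G ≤ n → Irr ρ → NIm ρ → ¬ Sy ρ →
    (∃ (H : Subgroup G) (ψ : H →* ℂˣ), ρ.character = indFun H (extZ ψ) ∧
      ∀ σ : ℂ ≃+* ℂ, (∀ g, σ (ρ.character g) = ρ.character g) →
        ∀ h, σ ((ψ h : ℂˣ) : ℂ) = ((ψ h : ℂˣ) : ℂ)) ∨
    ∃ (A : Subgroup G) (ψ : A →* ℂˣ) (g : G) (n m s : ℕ), Leaf A ψ g n m s ∧
      ρ.character = indFun A (extZ ψ) ∧
      ∀ σ : ℂ ≃+* ℂ, (∀ x, σ (ρ.character x) = ρ.character x) →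
        (∀ a, σ ((ψ a : ℂˣ) : ℂ) = ((ψ a : ℂˣ) : ℂ)) ∨
          ∀ a, σ ((ψ a : ℂˣ) : ℂ) = ((ψ a : ℂˣ) : ℂ) ^ s := by
  induction n with
  | zero =>
    intro G V _ _ _ _ _ ρ hG
    have : 0 < Nat.card G := Nat.card_pos
    omega
  | succ n ih =>
    intro G V _ _ _ _ _ ρ hcard hirr hN hSy
    by_cases hsc : ∀ g, IsScal ρ g
    · exact Or.inl (NOQx.scal ρ hirr hsc)
    · rcases hZEL G V ρ hirr hN hsc with ⟨p, a, z, ζ, hp, ha, hap, hya, hζ, hz⟩ | ⟨c, g, t, k, hDQ⟩
      · obtain ⟨H, W, hW, l, hHt, hchi, hirrW, ⟨v, hv, hav⟩, hθ⟩ := hRAV G V ρ a hirr ha hya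
        have h1 : Nat.card H < Nat.card G := by
          refine lt_of_le_of_ne (Subgroup.card_le_card_group H) ?_
          intro h2
          exact hHt (Subgroup.eq_top_of_card_eq H h2)
        have h3 : ¬ Sy (sub ρ H W hW) := fun h =>
          hSy (hZSI hZTW G V ρ H W hW hirr hN hirrW hchi h)
        have hfs : ∀ σ : ℂ ≃+* ℂ, (∀ g, σ (ρ.character g) = ρ.character g) →
            ∀ h, σ ((sub ρ H W hW).character h) = (sub ρ H W hW).character h := fun σ hσ =>
          ROQ.fix_sub ρ hirr.1 hp.pos hap hζ hz hv hav _ (fun h : H => (h : G)) hθ σ hσ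
        rcases ih H W (sub ρ H W hW) (by omega) hirrW (nim_sub ρ H W hW hN) h3 with
          ⟨K, ψ, hK, hfix⟩ | ⟨A, ψ, g, k, m, s, hL, hK, hfix⟩
        · refine Or.inl ⟨K.map H.subtype, tr K ψ, ?_, ?_⟩
          · rw [hchi, hK, indL_indFun]
          · intro σ hσ h
            exact hfix σ (hfs σ hσ)
              ((K.equivMapOfInjective H.subtype H.subtype_injective).symm h)
        · refine Or.inr ⟨A.map H.subtype, tr A ψ, (g : G), k, m, s, leaf_up H A ψ g k m s hL,
            ?_, ?_⟩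
          · rw [hchi, hK, indL_indFun]
          · intro σ hσ
            rcases hfix σ (hfs σ hσ) with h | h
            · exact Or.inl fun a =>
                h ((A.equivMapOfInjective H.subtype H.subtype_injective).symm a)
            · exact Or.inr fun a =>
                h ((A.equivMapOfInjective H.subtype H.subtype_injective).symm a)
      · obtain ⟨A, ψ, m, s, hL, hK, hfix⟩ := hZLG hZVB hZSQ G V ρ c g t k hirr hDQ hSy
        exact Or.inr ⟨A, ψ, g, k, m, s, hL, hK, hfix⟩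

end ZOQx

/-- **ZOQ**: the theorem of Roquette for nilpotent images with dihedral and semidihedral leaves. -/
theorem ZOQ_thm : Stmt_ZOQ := by
  intro hZEL hZTW hZSI hZVB hZSQ hZLG G V _ _ _ _ _ ρ hirr hN hSy
  exact ZOQx.main RAV_thm hZEL hZTW hZSI hZVB hZSQ hZLG _ G V ρ le_rfl hirr hN hSy

end StarkC.ABS
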