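import Pool.Agent.ABS.StZH

/-!
# ABS, module ZRM: Ramanujan sums for the characters of a leaf
-/

set_option autoImplicit false

open scoped Classical

namespace StarkC.ABS

namespace ZRMx

open StarkC.MON

theorem tr_apply {G : Type} [Group G] {A : Subgroup G} (K : Subgroup A) (χ : K →* ℂˣ) (y : A)
    (hy : y ∈ K) (h : (y : G) ∈ K.map A.subtype) : tr K χ ⟨(y : G), h⟩ = χ ⟨y, hy⟩ := by
  have h2 : (K.equivMapOfInjective A.subtype A.subtype_injective).symm ⟨(y : G), h⟩ =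
      ⟨y, hy⟩ := by
    rw [MulEquiv.symm_apply_eq]
    rfl
  show χ ((K.equivMapOfInjective A.subtype A.subtype_injective).symm ⟨(y : G), h⟩) = _
  rw [h2]

theorem tr_pow {G : Type} [Group G] {A : Subgroup G} (K : Subgroup A) (χ : K →* ℂˣ) (j : ℕ) :
    tr K χ ^ j = tr K (χ ^ j) :=
  MonoidHom.ext fun _ => rfl

theorem orderOf_tr {G : Type} [Group G] {A : Subgroup G} (K : Subgroup A) (χ : K →* ℂˣ) :
    orderOf (tr K χ) = orderOf χ := by
  rw [orderOf_eq_orderOf_iff]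
  intro k
  rw [tr_pow]
  constructor
  · intro h
    refine MonoidHom.ext fun y => ?_
    have h1 : ((y : A) : G) ∈ K.map A.subtype := ⟨y, y.2, rfl⟩
    have h2 := tr_apply K (χ ^ k) y y.2 h1
    rw [h] at h2
    exact h2.symm
  · intro h
    rw [h]
    exact MonoidHom.ext fun _ => rfl

theorem sum_indFun {G : Type} [Group G] [Fintype G] (A : Subgroup G) (ψ : A →* ℂˣ) (j : ℕ) :
    indFun A (extZ (ψ ^ j)) = indL A (fun w => ((ψ w : ℂˣ) : ℂ) ^ j) := by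
  funext x
  rw [indL_apply]
  unfold indFun
  congr 1
  refine Finset.sum_congr rfl fun y _ => ?_
  by_cases h : y⁻¹ * x * y ∈ A
  · rw [if_pos h, dif_pos h, extZ, dif_pos h]
    simp
  · rw [if_neg h, dif_neg h]

/-- The characters of the kernel form a leaf. -/
theorem leaf {G : Type} [Group G] {A : Subgroup G} {ψ : A →* ℂˣ} {g : G} {n m s : ℕ}
    (hL : Leaf A ψ g n m s) (a e : ℕ)
    (ho : orderOf ((ψ ^ a).comp (ψ ^ e).ker.subtype) = 2 ^ n) :
    Leaf ((ψ ^ e).ker.map A.subtype) (tr (ψ ^ e).ker ((ψ ^ a).comp (ψ ^ e).ker.subtype))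
      g n 1 s := by
  have hker : ∀ y : A, y ∈ (ψ ^ e).ker ↔ ψ y ^ e = 1 := by
    intro y
    rw [MonoidHom.mem_ker, MonoidHom.pow_apply]
  have hval : ∀ (y : A) (hy : y ∈ (ψ ^ e).ker) (h : (y : G) ∈ (ψ ^ e).ker.map A.subtype),
      tr (ψ ^ e).ker ((ψ ^ a).comp (ψ ^ e).ker.subtype) ⟨(y : G), h⟩ = ψ y ^ a := by
    intro y hy h
    rw [tr_apply _ _ y hy h]
    rfl
  refine ⟨hL.tt, odd_one, by simp [Nat.mod_one], ?_, ?_, ?_, ?_, ?_⟩
  · rw [orderOf_tr, ho, mul_one]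
  · rintro _ ⟨y, hy, rfl⟩
    refine ⟨⟨g⁻¹ * y * g, hL.norm y y.2⟩, ?_, rfl⟩
    have h1 := hL.conj y ⟨g⁻¹ * y * g, hL.norm y y.2⟩ rfl
    have hy' : ψ y ^ e = 1 := (hker y).1 hy
    show _ ∈ (ψ ^ e).ker
    rw [hker, h1, ← pow_mul, mul_comm, pow_mul, hy', one_pow]
  · rintro ⟨_, ⟨y, hy, rfl⟩⟩ ⟨_, ⟨y', hy', rfl⟩⟩ h
    have h1 := hL.conj y y' h
    have h2 := hval y hy ⟨y, hy, rfl⟩
    have h3 := hval y' hy' ⟨y', hy', rfl⟩
    show tr (ψ ^ e).ker ((ψ ^ a).comp (ψ ^ e).ker.subtype) ⟨(y' : G), _⟩ =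
      (tr (ψ ^ e).ker ((ψ ^ a).comp (ψ ^ e).ker.subtype) ⟨(y : G), _⟩) ^ s
    rw [h2, h3, h1, ← pow_mul, ← pow_mul, mul_comm]
  · refine ⟨⟨g * g, hL.mem⟩, ?_, rfl⟩
    show _ ∈ (ψ ^ e).ker
    rw [hker, hL.sq ⟨g * g, hL.mem⟩ rfl, one_pow]
  · rintro ⟨_, ⟨y, hy, rfl⟩⟩ h
    have h1 := hL.sq y h
    have h2 := hval y hy ⟨y, hy, rfl⟩
    show tr (ψ ^ e).ker ((ψ ^ a).comp (ψ ^ e).ker.subtype) ⟨(y : G), _⟩ = 1
    rw [h2, h1, one_pow]

end ZRMx

open StarkC.MON ZRMx in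
theorem ZRM_thm : Stmt_ZRM := by
  intro hRam hIdx G _ _ A ψ g n m s hL
  obtain ⟨q, hq⟩ : ∃ q, q = 2 ^ n := ⟨_, rfl⟩
  have hq0 : 0 < q := by
    rw [hq]
    exact pow_pos (by norm_num) n
  have hm : 0 < m := hL.odd.pos
  have hcop : q.Coprime m := by
    rw [hq]
    exact Nat.Coprime.pow_left n (Nat.coprime_two_left.2 hL.odd)
  have hord : orderOf ψ = q * m := by rw [hq]; exact hL.ord
  obtain ⟨a, h1, h2⟩ := Nat.chineseRemainder hcop 1 0
  have ha : m ∣ a := (Nat.modEq_zero_iff_dvd).1 h2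
  have ha1 : a % q = 1 % q := h1
  refine ⟨fun d => (ψ ^ (q * d)).ker.map A.subtype,
    fun d => tr (ψ ^ (q * d)).ker ((ψ ^ a).comp (ψ ^ (q * d)).ker.subtype), fun d hd => ?_,
    fun x => ?_⟩
  · refine leaf hL a (q * d) ?_
    rw [← hq]
    exact (hIdx A q m a d ψ hq0 hm hcop ha1 ha hord (Nat.dvd_of_mem_divisors hd)).1
  · rw [← hq]
    have hl : ∑ j ∈ Ex (q * m), indFun A (extZ (ψ ^ j)) x =
        indL A (∑ j ∈ Ex (q * m), fun w => ((ψ w : ℂˣ) : ℂ) ^ j) x := by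
      rw [map_sum, Finset.sum_apply]
      exact Finset.sum_congr rfl fun j _ => by rw [sum_indFun]
    have hr : ∑ d ∈ m.divisors, (ArithmeticFunction.moebius d : ℂ) *
        ∑ j ∈ Ex q, indFun ((ψ ^ (q * d)).ker.map A.subtype)
          (extZ (tr (ψ ^ (q * d)).ker ((ψ ^ a).comp (ψ ^ (q * d)).ker.subtype) ^ j)) x =
        indL A (∑ d ∈ m.divisors, ArithmeticFunction.moebius d • ∑ j ∈ Ex q,
          indFun (ψ ^ (q * d)).ker
            (extZ (((ψ ^ a).comp (ψ ^ (q * d)).ker.subtype) ^ j))) x := by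
      rw [map_sum, Finset.sum_apply]
      refine Finset.sum_congr rfl fun d _ => ?_
      rw [map_zsmul, Pi.smul_apply, zsmul_eq_mul, map_sum, Finset.sum_apply]
      congr 1
      refine Finset.sum_congr rfl fun j _ => ?_
      rw [tr_pow, indL_indFun]
    rw [hl]
    refine Eq.trans ?_ hr.symm
    have hF : (∑ j ∈ Ex (q * m), fun w : A => ((ψ w : ℂˣ) : ℂ) ^ j) =
        ∑ d ∈ m.divisors, ArithmeticFunction.moebius d • ∑ j ∈ Ex q,
          indFun (ψ ^ (q * d)).ker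
            (extZ (((ψ ^ a).comp (ψ ^ (q * d)).ker.subtype) ^ j)) := by
      funext w
      rw [Finset.sum_apply, Finset.sum_apply]
      obtain ⟨z, hz⟩ : ∃ z : ℂ, z = ((ψ w : ℂˣ) : ℂ) := ⟨_, rfl⟩
      have hz1 : z ^ (q * m) = 1 := by
        rw [hz, ← Units.val_pow_eq_pow_val, ← MonoidHom.pow_apply, ← hord, pow_orderOf_eq_one]
        rfl
      have h4 := hRam q m a z hq0 hm hcop ha1 ha hz1
      rw [← hz, h4, Finset.mul_sum]
      refine Finset.sum_congr rfl fun d hd => ?_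
      rw [Pi.smul_apply, zsmul_eq_mul, Finset.sum_apply]
      rw [Finset.sum_congr rfl fun j _ =>
        (hIdx A q m a d ψ hq0 hm hcop ha1 ha hord (Nat.dvd_of_mem_divisors hd)).2 j w]
      rw [← hz]
      by_cases h : z ^ (q * d) = 1
      · simp only [if_pos h]
        rw [← Finset.mul_sum]
        ring
      · simp only [if_neg h, Finset.sum_const_zero, mul_zero]
    rw [hF]

end StarkC.ABS
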