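import Pool.Agent.ABS.StZG

/-!
# ABS_ZSI: invariant alternating forms go up (MP_46b841_nt, part Z)
-/

set_option autoImplicit false

open scoped Classical

namespace StarkC.ABS

open StarkC.MON

namespace ZSIx

section Reps

variable {G : Type} [Group G]

/-- representatives adapted to the normal subgroup `T` -/
theorem reps (H T : Subgroup G) (hT : T.Normal) : ∃ y : G ⧸ H → G,
    (∀ i, (QuotientGroup.mk (y i) : G ⧸ H) = i) ∧
      ∀ h ∈ T, ∀ i : G ⧸ H, (y (h • i))⁻¹ * h * y i ∈ T := by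
  have key : ∀ i : G ⧸ H, ∃ x : G, (QuotientGroup.mk x : G ⧸ H) = i ∧
      ((QuotientGroup.mk x : G ⧸ (T ⊔ H)).out)⁻¹ * x ∈ T := by
    intro i
    set x₀ : G := i.out with hx₀
    set r : G := (QuotientGroup.mk x₀ : G ⧸ (T ⊔ H)).out with hr
    have h1 : r⁻¹ * x₀ ∈ T ⊔ H := by
      rw [← QuotientGroup.eq, hr, QuotientGroup.out_eq']
    have h2 : r⁻¹ * x₀ ∈ ((T ⊔ H : Subgroup G) : Set G) := h1
    rw [Subgroup.normal_mul] at h2
    obtain ⟨t, ht, h, hh, hth⟩ := Set.mem_mul.1 h2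
    have h3 : r * t = x₀ * h⁻¹ := by
      rw [eq_mul_inv_iff_mul_eq, mul_assoc, hth, mul_inv_cancel_left]
    have h4 : (QuotientGroup.mk (r * t) : G ⧸ (T ⊔ H)) = QuotientGroup.mk x₀ := by
      rw [h3]
      exact QuotientGroup.mk_mul_of_mem _ (inv_mem (Subgroup.mem_sup_right hh))
    refine ⟨r * t, ?_, ?_⟩
    · rw [h3, QuotientGroup.mk_mul_of_mem _ (inv_mem hh), hx₀, QuotientGroup.out_eq']
    · rw [h4, ← hr, inv_mul_cancel_left]
      exact ht
  choose y hy hyT using key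
  refine ⟨y, hy, fun h hh i => ?_⟩
  have h1 : (y (h • i))⁻¹ * (h * y i) ∈ H := by
    rw [← QuotientGroup.eq, hy]
    have h2 : h • i = (QuotientGroup.mk (h * y i) : G ⧸ H) := by
      conv_lhs => rw [← hy i]
      rfl
    exact h2
  have h2 : (QuotientGroup.mk (y (h • i)) : G ⧸ (T ⊔ H)) = QuotientGroup.mk (y i) := by
    have h3 : (QuotientGroup.mk (y (h • i)) : G ⧸ (T ⊔ H)) = QuotientGroup.mk (h * y i) := by
      rw [QuotientGroup.eq]
      exact Subgroup.mem_sup_right h1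
    rw [h3, QuotientGroup.eq]
    refine Subgroup.mem_sup_left ?_
    have h4 : (h * y i)⁻¹ * y i = (y i)⁻¹ * h⁻¹ * ((y i)⁻¹)⁻¹ := by group
    rw [h4]
    exact hT.conj_mem _ (inv_mem hh) _
  have h5 := hyT (h • i)
  rw [h2] at h5
  set r : G := (QuotientGroup.mk (y i) : G ⧸ (T ⊔ H)).out
  have h6 : (y (h • i))⁻¹ * h * y i = (r⁻¹ * y (h • i))⁻¹ * (r⁻¹ * h * (r⁻¹)⁻¹) * (r⁻¹ * y i) := by
    group
  rw [h6]
  exact mul_mem (mul_mem (inv_mem h5) (hT.conj_mem _ hh _)) (hyT i)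

end Reps

variable {G V : Type} [Group G] [Fintype G] [AddCommGroup V] [Module ℂ V] [Module.Finite ℂ V]

theorem dim (ρ : Representation ℂ G V) (H : Subgroup G) (W : Submodule ℂ V)
    (hW : ∀ g ∈ H, ∀ v ∈ W, ρ g v ∈ W)
    (hc : ρ.character = indL H (sub ρ H W hW).character) :
    Module.finrank ℂ V = Fintype.card (G ⧸ H) * Module.finrank ℂ W := by
  have h := congrFun hc 1
  rw [indL_apply, Representation.char_one] at h
  have h1 : ∀ x : G, (if h : x⁻¹ * 1 * x ∈ H then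
      (sub ρ H W hW).character ⟨x⁻¹ * 1 * x, h⟩ else 0) = (Module.finrank ℂ W : ℂ) := by
    intro x
    have e : x⁻¹ * 1 * x = 1 := by group
    have e1 : x⁻¹ * 1 * x ∈ H := by
      rw [e]
      exact one_mem H
    rw [dif_pos e1]
    have e2 : (⟨x⁻¹ * 1 * x, e1⟩ : H) = 1 := Subtype.ext e
    rw [e2, Representation.char_one]
  rw [Finset.sum_congr rfl fun x _ => h1 x, Finset.sum_const, Finset.card_univ, nsmul_eq_mul] at h
  have hcard := Subgroup.card_eq_card_quotient_mul_card_subgroup H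
  have hH : (Nat.card H : ℂ) ≠ 0 := Nat.cast_ne_zero.2 Nat.card_pos.ne'
  rw [eq_div_iff hH, ← Nat.card_eq_fintype_card, hcard] at h
  have h2 : Module.finrank ℂ V * Nat.card H =
      (Nat.card (G ⧸ H) * Nat.card H) * Module.finrank ℂ W := by exact_mod_cast h
  rw [← Nat.card_eq_fintype_card]
  have h3 : 0 < Nat.card H := Nat.card_pos
  refine Nat.eq_of_mul_eq_mul_right h3 ?_
  rw [h2]
  ring

section Phi

variable (ρ : Representation ℂ G V) (H : Subgroup G) (W : Submodule ℂ V)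

/-- the sum map -/
noncomputable def Phi (y : G ⧸ H → G) : (G ⧸ H → W) →ₗ[ℂ] V :=
  ∑ i, ρ (y i) ∘ₗ W.subtype ∘ₗ LinearMap.proj i

theorem Phi_apply (y : G ⧸ H → G) (w : G ⧸ H → W) :
    Phi ρ H W y w = ∑ i, ρ (y i) (w i : V) := by
  unfold Phi
  rw [LinearMap.sum_apply]
  rfl

variable {H} in
omit [Fintype G] in
theorem nmem {y : G ⧸ H → G} (hy : ∀ i, (QuotientGroup.mk (y i) : G ⧸ H) = i) (g : G)
    (j : G ⧸ H) : (y j)⁻¹ * g * y (g⁻¹ • j) ∈ H := by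
  rw [mul_assoc, ← QuotientGroup.eq, hy]
  have h2 : g • (g⁻¹ • j) = (QuotientGroup.mk (g * y (g⁻¹ • j)) : G ⧸ H) := by
    conv_lhs => rw [← hy (g⁻¹ • j)]
    rfl
  rw [← h2, smul_inv_smul]

variable (hW : ∀ g ∈ H, ∀ v ∈ W, ρ g v ∈ W)

/-- the action on the families -/
noncomputable def act {y : G ⧸ H → G} (hy : ∀ i, (QuotientGroup.mk (y i) : G ⧸ H) = i) (g : G)
    (w : G ⧸ H → W) : G ⧸ H → W :=
  fun j => sub ρ H W hW ⟨(y j)⁻¹ * g * y (g⁻¹ • j), nmem hy g j⟩ (w (g⁻¹ • j))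

theorem Phi_act {y : G ⧸ H → G} (hy : ∀ i, (QuotientGroup.mk (y i) : G ⧸ H) = i) (g : G)
    (w : G ⧸ H → W) : ρ g (Phi ρ H W y w) = Phi ρ H W y (act ρ H W hW hy g w) := by
  rw [Phi_apply, Phi_apply, map_sum]
  symm
  refine Fintype.sum_equiv (MulAction.toPerm g⁻¹) _ _ fun j => ?_
  change ρ (y j) (ρ ((y j)⁻¹ * g * y (g⁻¹ • j)) (w (g⁻¹ • j) : V)) =
    ρ g (ρ (y (g⁻¹ • j)) (w (g⁻¹ • j) : V))
  rw [← Module.End.mul_apply, ← Module.End.mul_apply, ← map_mul, ← map_mul]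
  congr 2
  group

end Phi

end ZSIx

open ZSIx in
theorem ZSI_thm : Stmt_ZSI := by
  intro hTW G V _ _ _ _ _ ρ H W hW hirr hnil hirrW hc hsy
  obtain ⟨T, hT, hTm⟩ := hTW G V ρ hnil
  obtain ⟨y, hy, hyT⟩ := reps H T hT
  obtain ⟨BW, hB1, hB2, hB3⟩ := hsy
  -- surjectivity
  have hsurj : Function.Surjective (Phi ρ H W y) := by
    have hR := hirr.2 (LinearMap.range (Phi ρ H W y)) (by
      rintro g v ⟨w, rfl⟩
      exact ⟨act ρ H W hW hy g w, (Phi_act ρ H W hW hy g w).symm⟩)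
    rcases hR with hR | hR
    · exfalso
      have := hirrW.1
      obtain ⟨w₀, hw₀⟩ := exists_ne (0 : W)
      have h1 : Phi ρ H W y (Pi.single (QuotientGroup.mk 1 : G ⧸ H) w₀) = 0 := by
        have h2 : Phi ρ H W y (Pi.single (QuotientGroup.mk 1 : G ⧸ H) w₀) ∈
            LinearMap.range (Phi ρ H W y) := ⟨_, rfl⟩
        rw [hR] at h2
        exact (Submodule.mem_bot ℂ).1 h2
      rw [Phi_apply, Finset.sum_eq_single (QuotientGroup.mk 1 : G ⧸ H)] at h1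
      · rw [Pi.single_eq_same] at h1
        have h3 := congrArg (ρ (y (QuotientGroup.mk 1 : G ⧸ H))⁻¹) h1
        rw [← Module.End.mul_apply, ← map_mul, inv_mul_cancel, map_one, map_zero] at h3
        exact hw₀ (Subtype.ext h3)
      · intro i _ hi
        rw [Pi.single_eq_of_ne hi, Submodule.coe_zero, map_zero]
      · intro h
        exact absurd (Finset.mem_univ _) h
    · exact LinearMap.range_eq_top.1 hR
  have hdim : Module.finrank ℂ (G ⧸ H → W) = Module.finrank ℂ V := by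
    rw [dim ρ H W hW hc, Module.finrank_pi_fintype, Finset.sum_const, Finset.card_univ,
      smul_eq_mul]
  have hinj : Function.Injective (Phi ρ H W y) :=
    (LinearMap.injective_iff_surjective_of_finrank_eq_finrank hdim).2 hsurj
  let e : (G ⧸ H → W) ≃ₗ[ℂ] V := LinearEquiv.ofBijective (Phi ρ H W y) ⟨hinj, hsurj⟩
  have he : ∀ w, e.symm (Phi ρ H W y w) = w := fun w => e.symm_apply_apply w
  let B : V →ₗ[ℂ] V →ₗ[ℂ] ℂ := ∑ i : G ⧸ H,
    BW.compl₁₂ ((LinearMap.proj i : (G ⧸ H → W) →ₗ[ℂ] W) ∘ₗ (e.symm : V →ₗ[ℂ] (G ⧸ H → W)))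
      ((LinearMap.proj i : (G ⧸ H → W) →ₗ[ℂ] W) ∘ₗ (e.symm : V →ₗ[ℂ] (G ⧸ H → W)))
  have hB : ∀ w w', B (Phi ρ H W y w) (Phi ρ H W y w') = ∑ i, BW (w i) (w' i) := by
    intro w w'
    change (∑ i : G ⧸ H, BW.compl₁₂
      ((LinearMap.proj i : (G ⧸ H → W) →ₗ[ℂ] W) ∘ₗ (e.symm : V →ₗ[ℂ] (G ⧸ H → W)))
      ((LinearMap.proj i : (G ⧸ H → W) →ₗ[ℂ] W) ∘ₗ (e.symm : V →ₗ[ℂ] (G ⧸ H → W))))
      (Phi ρ H W y w) (Phi ρ H W y w') = _
    rw [LinearMap.sum_apply, LinearMap.sum_apply]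
    refine Finset.sum_congr rfl fun i _ => ?_
    change BW (e.symm (Phi ρ H W y w) i) (e.symm (Phi ρ H W y w') i) = _
    rw [he, he]
  refine ⟨B, ?_, ?_, ?_⟩
  · intro v
    obtain ⟨w, rfl⟩ := hsurj v
    rw [hB]
    exact Finset.sum_eq_zero fun i _ => hB1 _
  · intro v hv
    obtain ⟨w, rfl⟩ := hsurj v
    have h1 : w = 0 := by
      funext i
      refine hB2 (w i) fun w' => ?_
      have h2 := hv (Phi ρ H W y (Pi.single i w'))
      rw [hB, Finset.sum_eq_single i] at h2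
      · rw [Pi.single_eq_same] at h2
        exact h2
      · intro j _ hj
        rw [Pi.single_eq_of_ne hj, map_zero]
      · intro h
        exact absurd (Finset.mem_univ _) h
    rw [h1, map_zero]
  · intro g hg v v'
    have hgT : g ∈ T := (hTm g).2 hg
    obtain ⟨w, rfl⟩ := hsurj v
    obtain ⟨w', rfl⟩ := hsurj v'
    rw [Phi_act ρ H W hW hy, Phi_act ρ H W hW hy, hB, hB]
    refine Fintype.sum_equiv (MulAction.toPerm g⁻¹) _ _ fun j => ?_
    change BW (sub ρ H W hW ⟨(y j)⁻¹ * g * y (g⁻¹ • j), nmem hy g j⟩ (w (g⁻¹ • j)))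
      (sub ρ H W hW ⟨(y j)⁻¹ * g * y (g⁻¹ • j), nmem hy g j⟩ (w' (g⁻¹ • j))) =
      BW (w (g⁻¹ • j)) (w' (g⁻¹ • j))
    refine hB3 _ ?_ _ _
    have h1 : (y j)⁻¹ * g * y (g⁻¹ • j) ∈ T := by
      have h2 := hyT g hgT (g⁻¹ • j)
      rwa [smul_inv_smul] at h2
    obtain ⟨m, hm⟩ := (hTm _).1 h1
    refine ⟨m, LinearMap.ext fun u => Subtype.ext ?_⟩
    change ρ (((⟨(y j)⁻¹ * g * y (g⁻¹ • j), nmem hy g j⟩ : H) ^ (2 ^ m) : H) : G) (u : V) = (u : V)
    rw [Subgroup.coe_pow, hm]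
    rfl

end StarkC.ABS
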