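import Pool.Agent.ABS.StZG

/-!
# Project ABS, module ZSQ: quaternion leaves are symplectic (helper39)
-/

set_option autoImplicit false

open scoped Classical

namespace StarkC.ABS

open StarkC.MON

namespace ZSQx

lemma pow_app {V : Type} [AddCommGroup V] [Module ℂ V] (T : V →ₗ[ℂ] V) (v : V) (μ : ℂ)
    (h : T v = μ • v) (k : ℕ) : (T ^ k) v = μ ^ k • v := by
  induction k with
  | zero => simp
  | succ k ih =>
    rw [pow_succ, Module.End.mul_apply, h, map_smul, ih, smul_smul, pow_succ, mul_comm]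

lemma eq_one_of {ω : ℂ} {m N : ℕ} (hm : Odd m) (h1 : ω ^ m = 1) (h2 : ω ^ (2 ^ N) = 1) :
    ω = 1 := by
  have h3 : orderOf ω ∣ m := orderOf_dvd_of_pow_eq_one h1
  have h4 : orderOf ω ∣ 2 ^ N := orderOf_dvd_of_pow_eq_one h2
  have h5 : Nat.Coprime m (2 ^ N) := Nat.Coprime.pow_right _ hm.coprime_two_right
  have h6 : orderOf ω ∣ 1 := by
    rw [← h5]
    exact Nat.dvd_gcd h3 h4
  exact orderOf_eq_one_iff.1 (Nat.dvd_one.1 h6)

end ZSQx

open ZSQx in
theorem ZSQ_thm : Stmt_ZSQ := by
  intro hZVB G V _ _ _ _ _ ρ c g t n hirr hDQ hSy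
  obtain ⟨v, ζ, hv, hζ, hcv, hcg, hspan, hind, hz⟩ := hZVB G V ρ c g t n hirr hDQ
  by_contra hne
  obtain ⟨ht, hgg⟩ := hDQ.sq.resolve_left hne
  apply hSy
  -- `ζ ^ (t + 1) = 1`
  have hζt : ζ ^ (t + 1) = 1 := (hζ.pow_eq_one_iff_dvd _).2 (Nat.dvd_of_mod_eq_zero ht)
  have hggv : ρ g (ρ g v) = -v := by
    rw [← Module.End.mul_apply, ← map_mul, hgg, hz]
  -- coordinates
  let E : (ℂ × ℂ) →ₗ[ℂ] V :=
    { toFun := fun p => p.1 • v + p.2 • ρ g v
      map_add' := fun p q => by
        simp only [Prod.fst_add, Prod.snd_add, add_smul]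
        abel
      map_smul' := fun a p => by
        simp only [Prod.smul_fst, Prod.smul_snd, smul_eq_mul, mul_smul, smul_add,
          RingHom.id_apply] }
  have hE : Function.Bijective E := by
    constructor
    · rw [← LinearMap.ker_eq_bot, LinearMap.ker_eq_bot']
      rintro ⟨a, b⟩ hab
      obtain ⟨ha, hb⟩ := hind a b hab
      rw [ha, hb]
      rfl
    · intro w
      obtain ⟨a, b, hab⟩ := hspan w
      exact ⟨(a, b), hab.symm⟩
  let e : (ℂ × ℂ) ≃ₗ[ℂ] V := LinearEquiv.ofBijective E hE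
  let α : V →ₗ[ℂ] ℂ := LinearMap.fst ℂ ℂ ℂ ∘ₗ e.symm.toLinearMap
  let β : V →ₗ[ℂ] ℂ := LinearMap.snd ℂ ℂ ℂ ∘ₗ e.symm.toLinearMap
  have hab : ∀ a b : ℂ, α (a • v + b • ρ g v) = a ∧ β (a • v + b • ρ g v) = b := by
    intro a b
    have h1 : e.symm (a • v + b • ρ g v) = (a, b) := by
      rw [LinearEquiv.symm_apply_eq]
      rfl
    constructor
    · change (e.symm (a • v + b • ρ g v)).1 = a
      rw [h1]
    · change (e.symm (a • v + b • ρ g v)).2 = b
      rw [h1]
  have hw : ∀ w, w = α w • v + β w • ρ g v := by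
    intro w
    obtain ⟨a, b, h⟩ := hspan w
    rw [h, (hab a b).1, (hab a b).2]
  let B : V →ₗ[ℂ] V →ₗ[ℂ] ℂ := LinearMap.mk₂ ℂ (fun w w' => α w * β w' - α w' * β w)
    (fun x y z => by simp only [map_add]; ring) (fun a x y => by simp only [map_smul, smul_eq_mul]; ring)
    (fun x y z => by simp only [map_add]; ring) (fun a x y => by simp only [map_smul, smul_eq_mul]; ring)
  have hB : ∀ w w', B w w' = α w * β w' - α w' * β w := fun w w' => rfl
  have hv1 : α v = 1 ∧ β v = 0 := by
    have h := hab 1 0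
    rwa [one_smul, zero_smul, add_zero] at h
  have hgv1 : α (ρ g v) = 0 ∧ β (ρ g v) = 1 := by
    have h := hab 0 1
    rwa [one_smul, zero_smul, zero_add] at h
  refine ⟨B, fun w => ?_, fun w h => ?_, ?_⟩
  · rw [hB]
    ring
  · have h1 := h (ρ g v)
    have h2 := h v
    rw [hB, hgv1.1, hgv1.2] at h1
    rw [hB, hv1.1, hv1.2] at h2
    have h3 : α w = 0 := by linear_combination h1
    have h4 : β w = 0 := by linear_combination -h2
    rw [hw w, h3, h4, zero_smul, zero_smul, add_zero]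
  · rintro x ⟨j, hj⟩ w w'
    obtain ⟨i, m, u, hm, hum, ⟨ω, hω⟩, hx⟩ := hDQ.all x
    have hωm : ω ^ m = 1 := by
      have h1 : (ρ u ^ m) v = ω ^ m • v := pow_app _ _ _ (hω v) m
      rw [← map_pow, hum, Module.End.one_apply] at h1
      have h2 : (ω ^ m - 1) • v = 0 := by
        rw [sub_smul, one_smul, ← h1, sub_self]
      exact sub_eq_zero.1 ((smul_eq_zero.1 h2).resolve_right hv)
    have hci : ∀ k : ℕ, ρ (c ^ k) v = ζ ^ k • v := by
      intro k
      rw [map_pow]
      exact pow_app _ _ _ hcv k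
    have hci' : ∀ k : ℕ, ρ (c ^ k) (ρ g v) = (ζ ^ t) ^ k • ρ g v := by
      intro k
      rw [map_pow]
      exact pow_app _ _ _ hcg k
    have hζti : ζ ^ i * (ζ ^ t) ^ i = 1 := by
      rw [← mul_pow, ← pow_succ', hζt, one_pow]
    -- the action of `c ^ i u`
    have hcu : ∀ a b : ℂ, ρ (c ^ i * u) (a • v + b • ρ g v) =
        (ω * ζ ^ i * a) • v + (ω * (ζ ^ t) ^ i * b) • ρ g v := by
      intro a b
      rw [map_mul, Module.End.mul_apply, hω, map_smul, map_add, map_smul, map_smul, hci, hci',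
        smul_add, smul_smul, smul_smul, smul_smul, smul_smul]
      congr 2 <;> ring
    rcases hx with hx | hx
    · -- first case
      have hxw : ∀ w, α (ρ x w) = ω * ζ ^ i * α w ∧ β (ρ x w) = ω * (ζ ^ t) ^ i * β w := by
        intro w
        have h1 : ρ x w = (ω * ζ ^ i * α w) • v + (ω * (ζ ^ t) ^ i * β w) • ρ g v := by
          rw [hx]
          conv_lhs => rw [hw w]
          exact hcu _ _
        rw [h1]
        exact hab _ _
      have hω1 : ω = 1 := by
        have h1 : ρ x v = (ω * ζ ^ i) • v := by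
          have h2 := hcu 1 0
          rw [one_smul, zero_smul, add_zero, mul_one, mul_zero, zero_smul, add_zero] at h2
          rw [hx]
          exact h2
        have h2 := pow_app _ _ _ h1 (2 ^ j)
        rw [← map_pow, hj, Module.End.one_apply] at h2
        have h3 : (ω * ζ ^ i) ^ (2 ^ j) = 1 := by
          have h4 : ((ω * ζ ^ i) ^ (2 ^ j) - 1) • v = 0 := by
            rw [sub_smul, one_smul, ← h2, sub_self]
          exact sub_eq_zero.1 ((smul_eq_zero.1 h4).resolve_right hv)
        refine eq_one_of (N := j + n) hm hωm ?_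
        have h5 : ((ω * ζ ^ i) ^ (2 ^ j)) ^ (2 ^ n) = 1 := by rw [h3, one_pow]
        have h6 : (ζ ^ i) ^ (2 ^ n) = 1 := by
          rw [← pow_mul, mul_comm, pow_mul, hζ.pow_eq_one, one_pow]
        rw [← pow_mul, mul_pow, ← pow_add] at h5
        have h7 : (ζ ^ i) ^ (2 ^ (j + n)) = 1 := by
          rw [pow_add, mul_comm, pow_mul, h6, one_pow]
        rwa [h7, mul_one] at h5
      rw [hB, hB, (hxw w).1, (hxw w).2, (hxw w').1, (hxw w').2, hω1]
      linear_combination (α w * β w' - α w' * β w) * hζti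
    · -- second case
      have hgcu : ∀ a b : ℂ, ρ (g * c ^ i * u) (a • v + b • ρ g v) =
          (-(ω * (ζ ^ t) ^ i * b)) • v + (ω * ζ ^ i * a) • ρ g v := by
        intro a b
        rw [mul_assoc, map_mul, Module.End.mul_apply, hcu, map_add, map_smul, map_smul, hggv,
          smul_neg, neg_smul, add_comm]
      have hxw : ∀ w, α (ρ x w) = -(ω * (ζ ^ t) ^ i * β w) ∧ β (ρ x w) = ω * ζ ^ i * α w := by
        intro w
        have h1 : ρ x w = (-(ω * (ζ ^ t) ^ i * β w)) • v + (ω * ζ ^ i * α w) • ρ g v := by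
          rw [hx]
          conv_lhs => rw [hw w]
          exact hgcu _ _
        rw [h1]
        exact hab _ _
      have hω1 : ω = 1 := by
        have h1 : (ρ x ^ 2) v = (-(ω ^ 2)) • v := by
          have h2 := hgcu 1 0
          rw [one_smul, zero_smul, add_zero, mul_one, mul_zero, neg_zero, zero_smul,
            zero_add] at h2
          have h3 := hgcu 0 (ω * ζ ^ i)
          rw [zero_smul, zero_add, mul_zero, zero_smul, add_zero] at h3
          rw [pow_two, Module.End.mul_apply, hx, h2, h3]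
          congr 1
          linear_combination -(ω ^ 2) * hζti
        have h2 := pow_app _ _ _ h1 (2 ^ j)
        have h3 : (ρ x ^ 2) ^ (2 ^ j) = 1 := by
          rw [← pow_mul, mul_comm, pow_mul, ← map_pow, hj, one_pow]
        rw [h3, Module.End.one_apply] at h2
        have h4 : (-(ω ^ 2)) ^ (2 ^ j) = 1 := by
          have h5 : ((-(ω ^ 2)) ^ (2 ^ j) - 1) • v = 0 := by
            rw [sub_smul, one_smul, ← h2, sub_self]
          exact sub_eq_zero.1 ((smul_eq_zero.1 h5).resolve_right hv)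
        refine eq_one_of (N := j + 2) hm hωm ?_
        have h5 : ((-(ω ^ 2)) ^ (2 ^ j)) ^ 2 = 1 := by rw [h4, one_pow]
        rw [← pow_mul, mul_comm, pow_mul, neg_sq, ← pow_mul, ← pow_mul] at h5
        have h6 : 2 ^ (j + 2) = 2 * (2 * 2 ^ j) := by ring
        rw [h6]
        exact h5
      rw [hB, hB, (hxw w).1, (hxw w).2, (hxw w').1, (hxw w').2, hω1]
      linear_combination (α w * β w' - α w' * β w) * hζti

end StarkC.ABS
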