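import Pool.Agent.ABS.StZH
import Pool.Agent.ABS.FCH
import Pool.Agent.ABS.FIXC

/-!
# Project ABS, module ZTR: the trace of `ℚ(χ)/ℚ`, when `ℚ(ζ_o)/ℚ(χ)` is quadratic
-/

set_option autoImplicit false

open scoped Classical

namespace StarkC.ABS

open StarkP (rootField charField trChar)

namespace ZTRx

/-- the automorphisms of all exponents -/
lemma exists_sigma (hSIGT : Stmt_SIGT) {n : ℕ} (hn : 0 < n) :
    ∃ σ : ℕ → (ℂ ≃+* ℂ), ∀ t ∈ Ex n, ∀ z : ℂ, z ^ n = 1 → σ t z = z ^ t := by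
  have h5 : ∀ t : ℕ, ∃ τ : ℂ ≃+* ℂ, t ∈ Ex n → ∀ z : ℂ, z ^ n = 1 → τ z = z ^ t := by
    intro t
    by_cases ht : t ∈ Ex n
    · obtain ⟨τ, hτ⟩ := hSIGT n t hn (Finset.mem_filter.1 ht).2
      exact ⟨τ, fun _ => hτ⟩
    · exact ⟨RingEquiv.refl ℂ, fun h => absurd h ht⟩
  choose σ hσ using h5
  exact ⟨σ, hσ⟩

lemma mod_mem {o t : ℕ} (ho : 0 < o) (h : o.Coprime t) : t % o ∈ Ex o := by
  unfold Ex
  rw [Finset.mem_filter, Finset.mem_range]
  refine ⟨Nat.mod_lt _ ho, ?_⟩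
  unfold Nat.Coprime at h ⊢
  rw [Nat.gcd_comm, ← Nat.gcd_rec]
  exact h

/-- two exponents with the same automorphism are equal modulo `o` -/
lemma eq_of_exp {o t u : ℕ} (ho : 0 < o) (σ : ℂ ≃+* ℂ)
    (h1 : ∀ z : ℂ, z ^ o = 1 → σ z = z ^ t) (h2 : ∀ z : ℂ, z ^ o = 1 → σ z = z ^ u) :
    t % o = u % o := by
  have hζ := Complex.isPrimitiveRoot_exp o ho.ne'
  have h3 := (h1 _ hζ.pow_eq_one).symm.trans (h2 _ hζ.pow_eq_one)
  rw [← pow_mod_orderOf, ← pow_mod_orderOf (n := u), ← hζ.eq_orderOf] at h3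
  exact hζ.pow_inj (Nat.mod_lt _ ho) (Nat.mod_lt _ ho) h3

lemma pow_mod {o t : ℕ} {z : ℂ} (hz : z ^ o = 1) : z ^ (t % o) = z ^ t :=
  (pow_eq_pow_mod t hz).symm

end ZTRx

open ZTRx in
theorem ZTR_thm : Stmt_ZTR := by
  intro hSIGT hTRT G χ χt o s ho hcop hss hs1 hfix hχt
  have hF : charField χ ≤ rootField o := by
    unfold StarkP.charField
    rw [IntermediateField.adjoin_le_iff]
    rintro _ ⟨x, rfl⟩
    exact FIXC_thm o (χ x) fun σ hσ =>
      (hfix σ).2 (Or.inl fun z hz => hσ z (FCHx.root_mem hz)) x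
  refine ⟨hF, fun x => ?_⟩
  obtain ⟨σ, hσ⟩ := exists_sigma hSIGT ho
  obtain ⟨e, _, he, _, het⟩ := FCHx.count ho hTRT χ hF σ hσ
  have hcard : ((Ex o).filter fun t => ∀ σ : ℂ ≃+* ℂ, (∀ z : ℂ, z ^ o = 1 → σ z = z ^ t) →
        ∀ g, σ (χ g) = χ g) = {1 % o, s % o} := by
    ext t
    rw [Finset.mem_filter, Finset.mem_insert, Finset.mem_singleton]
    constructor
    · rintro ⟨ht, h⟩
      have h1 := (Finset.mem_filter.1 ht).1
      have htm : t % o = t := Nat.mod_eq_of_lt (Finset.mem_range.1 h1)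
      rcases (hfix (σ t)).1 (h (σ t) (hσ t ht)) with h2 | h2
      · left
        rw [← eq_of_exp ho (σ t) (hσ t ht) (fun z hz => by rw [h2 z hz, pow_one]), htm]
      · right
        rw [← eq_of_exp ho (σ t) (hσ t ht) h2, htm]
    · rintro (rfl | rfl)
      · refine ⟨mod_mem ho (Nat.coprime_one_right o), fun τ hτ => (hfix τ).2 (Or.inl ?_)⟩
        intro z hz
        rw [hτ z hz, pow_mod hz, pow_one]
      · refine ⟨mod_mem ho hcop, fun τ hτ => (hfix τ).2 (Or.inr ?_)⟩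
        intro z hz
        rw [hτ z hz, pow_mod hz]
  have he2 : e = 2 := by
    rw [he, hcard]
    exact Finset.card_pair fun h => hs1 h.symm
  have h1 := het x
  rw [he2] at h1
  have h2 : (2 : ℂ) * trChar χ x = ∑ t ∈ Ex o, σ t (χ x) := by
    rw [← h1]
    norm_num
  rw [h2]
  exact Finset.sum_congr rfl fun t ht => hχt t ht (σ t) (hσ t ht) x

end StarkC.ABS
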