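import Pool.Agent.ABS.StZG
import Pool.Agent.ABS.REL

/-!
# Part Z, module ZTW: the elements of `2`-power order
-/

set_option autoImplicit false

open scoped Classical

namespace StarkC.ABS

open StarkC.MON

namespace ZTWx

open REL

variable {G V : Type} [Group G] [AddCommGroup V] [Module ℂ V]

/-- the image is nilpotent -/
theorem nilp (ρ : Representation ℂ G V) (h : NIm ρ) : Group.IsNilpotent (Im ρ) := by
  obtain ⟨n, hn⟩ := h
  rw [Subgroup.nilpotent_iff_lowerCentralSeries]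
  refine ⟨n, ?_⟩
  have h1 := Subgroup.map_lowerCentralSeries (⊤ : Subgroup G) (pr ρ) n
  rw [Subgroup.map_top_of_surjective _ (pr_surj ρ)] at h1
  rw [← h1, eq_bot_iff]
  rintro x ⟨g, hg, rfl⟩
  rw [Subgroup.mem_bot, pr_one]
  exact hn g hg

/-- the elements of `2`-power order of a finite nilpotent group -/
theorem grp (H : Type) [Group H] [Finite H] (hnil : Group.IsNilpotent H) :
    ∃ P : Subgroup H, P.Normal ∧ ∀ x, x ∈ P ↔ ∃ j : ℕ, x ^ (2 ^ j) = 1 := by
  have hfact : Fact (Nat.Prime 2) := ⟨Nat.prime_two⟩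
  obtain ⟨P⟩ : Nonempty (Sylow 2 H) := inferInstance
  have hnorm := (Group.isNilpotent_of_finite_tfae (G := H)).out 0 3 |>.mp hnil
  have hn : (P : Subgroup H).Normal := hnorm 2 hfact P
  refine ⟨P, hn, fun x => ⟨fun hx => ?_, fun hx => ?_⟩⟩
  · obtain ⟨k, hk⟩ := P.isPGroup' ⟨x, hx⟩
    exact ⟨k, congrArg Subtype.val hk⟩
  · obtain ⟨j, hj⟩ := hx
    have hz : IsPGroup 2 (Subgroup.zpowers x) := by
      rintro ⟨y, hy⟩
      obtain ⟨k, rfl⟩ := Subgroup.mem_zpowers_iff.1 hy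
      refine ⟨j, ?_⟩
      apply Subtype.ext
      show (x ^ k) ^ (2 ^ j) = 1
      rw [← zpow_natCast, ← zpow_mul, mul_comm, zpow_mul, zpow_natCast, hj, one_zpow]
    obtain ⟨Q, hQ⟩ := hz.exists_le_sylow
    have h1 := (Sylow.unique_of_normal P hn).uniq Q
    have h2 := (Sylow.unique_of_normal P hn).uniq P
    have h3 : Q = P := h1.trans h2.symm
    rw [h3] at hQ
    exact hQ (Subgroup.mem_zpowers x)

end ZTWx

open REL ZTWx in
theorem ZTW_thm : Stmt_ZTW := by
  intro G V _ _ _ _ _ ρ hN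
  have hfin : Finite (Im ρ) := Finite.of_surjective _ (pr_surj ρ)
  obtain ⟨P, hP, hPm⟩ := grp (Im ρ) (nilp ρ hN)
  refine ⟨P.comap (pr ρ), hP.comap _, fun g => ?_⟩
  rw [Subgroup.mem_comap, hPm]
  refine exists_congr fun j => ?_
  rw [← map_pow, pr_one]

end StarkC.ABS
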