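import Pool.Agent.ABS.StZI
import Pool.Agent.ABS.LAST
import Pool.Agent.StarkT.INDREP
import Pool.Agent.StarkAlg.GCore

/-!
# ABS, module ZUN: uniqueness of the values
-/

set_option autoImplicit false

open NumberField IsDedekindDomain
open scoped TensorProduct Classical

namespace StarkC.ABS

namespace ZUNx

/-- a representation whose character is a sum of induced linear characters -/
theorem sum_rep {G ι : Type} [Group G] [Fintype G] (I : Finset ι) (H : ι → Subgroup G)
    (ψ : ∀ i, H i →* ℂˣ) :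
    ∃ (V : Type) (_ : AddCommGroup V) (_ : Module ℂ V) (_ : Module.Finite ℂ V)
      (ρ : Representation ℂ G V), ∀ g, ρ.character g = ∑ i ∈ I, indFun (H i) (extZ (ψ i)) g := by
  induction I using Finset.induction_on with
  | empty =>
    refine ⟨PUnit, inferInstance, inferInstance, inferInstance, 1, fun g => ?_⟩
    show LinearMap.trace ℂ PUnit (1 : PUnit →ₗ[ℂ] PUnit) = _
    rw [LinearMap.trace_one, Module.finrank_zero_of_subsingleton]
    simp
  | insert i I hi ih =>
    obtain ⟨V, i1, i2, i3, ρ, hρ⟩ := ih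
    obtain ⟨W, j1, j2, j3, τ, hτ⟩ := INDREP_thm G (H i) (ψ i)
    refine ⟨W × V, inferInstance, inferInstance, inferInstance, τ.prod ρ, fun g => ?_⟩
    have h3 : (τ.prod ρ).character g = τ.character g + ρ.character g :=
      LinearMap.trace_prodMap' (τ g) (ρ g)
    rw [h3, hτ, hρ, Finset.sum_insert hi]

end ZUNx

open ZUNx in
theorem ZUN_thm : Stmt_ZUN := by
  intro K L _ _ _ _ _ _ S φ Θ C ε q θ a b hφ hθ hA hB
  obtain ⟨F₁, hF₁, hR₁⟩ := hA
  obtain ⟨F₂, hF₂, hR₂⟩ := hB
  obtain ⟨V, _, _, _, ρ, hρ⟩ := sum_rep (Ex q) (fun _ => C) (fun j => ε ^ j)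
  have hc : ∀ g, ρ.character g = θ g := fun g => by rw [hρ, hθ]
  have h1 := hR₁ V ρ hc
  have h2 := hR₂ V ρ hc
  have hne := StarkG.reg_ne_zero S φ Θ hφ V ρ
  have ht := LASTx.trail_unique hF₁.1 hF₂.1 fun s hs => by rw [hF₁.2 s hs, hF₂.2 s hs]
  rw [ht] at h1
  have h0 : meromorphicTrailingCoeffAt F₂ 0 ≠ 0 := by
    intro h
    rw [h, mul_zero] at h2
    exact hne h2
  exact mul_right_cancel₀ h0 (h1.symm.trans h2)

end StarkC.ABS
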