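import Pool.Agent.ABS.StZG
import Pool.Agent.ABS.REL

/-!
# ABS, module ZVB: the two-dimensional space of a dihedral, semidihedral or quaternion leaf
-/

set_option autoImplicit false

open scoped Classical

namespace StarkC.ABS

open StarkC.MON

namespace ZVBx

theorem t_mod {n t : ℕ} (h : TT n t) : t % 4 = 3 := by
  obtain ⟨hn, h⟩ := h
  obtain ⟨k, rfl⟩ : ∃ k, n = k + 2 := ⟨n - 2, by omega⟩
  have h4 : (4 : ℕ) ∣ 2 ^ (k + 2) := ⟨2 ^ k, by rw [pow_add]; ring⟩
  have key : 4 ∣ t + 1 := by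
    rcases h with h | ⟨h3, h⟩
    · exact h4.trans (Nat.dvd_of_mod_eq_zero h)
    · obtain ⟨l, rfl⟩ : ∃ l, k = l + 1 := ⟨k - 1, by omega⟩
      have e : (2 : ℕ) ^ (l + 1 + 2 - 1) = 4 * 2 ^ l := by
        rw [show l + 1 + 2 - 1 = l + 2 from by omega, pow_add]; ring
      rw [e] at h
      have h5 := Nat.div_add_mod (t + 1) (2 ^ (l + 1 + 2))
      rw [h] at h5
      rw [← h5]
      exact dvd_add (h4.mul_right _) ⟨2 ^ l, rfl⟩
  omega

variable {G V : Type} [Group G] [AddCommGroup V] [Module ℂ V]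

theorem inj (ρ : Representation ℂ G V) (g : G) {v : V} (h : ρ g v = 0) : v = 0 := by
  have h2 : ρ g⁻¹ (ρ g v) = v := by
    rw [← Module.End.mul_apply, ← map_mul, inv_mul_cancel, map_one, Module.End.one_apply]
  rw [← h2, h, map_zero]

theorem comm_rel (ρ : Representation ℂ G V) {c g : G} {t n : ℕ} (h : DQ ρ c g t n) :
    ρ (c * g) = ρ (g * c ^ t) := by
  rw [← REL.pr_eq]
  have hc : REL.pr ρ (g * c * g⁻¹) = REL.pr ρ (c ^ t) := (REL.pr_eq _ _ _).2 h.conj
  have hsq : REL.pr ρ (g * g) = 1 ∨ REL.pr ρ (g * g) = REL.pr ρ (c ^ (2 ^ (n - 1))) := by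
    rcases h.sq with h | ⟨_, h⟩
    · exact Or.inl ((REL.pr_one _ _).2 h)
    · exact Or.inr ((REL.pr_eq _ _ _).2 h)
  simp only [map_mul, map_pow, map_inv] at hc hsq ⊢
  generalize REL.pr ρ g = γ at *
  generalize REL.pr ρ c = κ at *
  have hcomm : γ * γ * κ = κ * (γ * γ) := by
    rcases hsq with h | h
    · rw [h]; simp
    · rw [h]
      exact ((Commute.refl κ).pow_left _).eq
  rw [← hc]
  calc κ * γ = κ * (γ * γ) * γ⁻¹ := by group
    _ = γ * γ * κ * γ⁻¹ := by rw [hcomm]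
    _ = γ * (γ * κ * γ⁻¹) := by group

end ZVBx

open ZVBx in
theorem ZVB_thm : Stmt_ZVB := by
  intro G V _ _ _ _ _ ρ c g t n hI h
  have : Nontrivial V := hI.1
  obtain ⟨ζ, hζ⟩ := Module.End.exists_eigenvalue (ρ c)
  obtain ⟨v, hv⟩ := hζ.exists_hasEigenvector
  have hcv : ρ c v = ζ • v := hv.apply_eq_smul
  have hv0 : v ≠ 0 := hv.2
  have ht := t_mod h.tt
  have hn := h.tt.1
  have hcg : ρ c (ρ g v) = ζ ^ t • ρ g v := by
    rw [← Module.End.mul_apply, ← map_mul, comm_rel ρ h, map_mul, Module.End.mul_apply,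
      pow_apply_eigen ρ hcv, map_smul]
  have hz1 : ζ ^ (2 ^ n) = 1 := by
    have h1 := pow_apply_eigen ρ hcv (2 ^ n)
    rw [h.ord, Module.End.one_apply] at h1
    have h2 : (ζ ^ (2 ^ n) - 1) • v = 0 := by rw [sub_smul, one_smul, ← h1, sub_self]
    rcases smul_eq_zero.1 h2 with h3 | h3
    · exact sub_eq_zero.1 h3
    · exact absurd h3 hv0
  have hζ0 : ζ ≠ 0 := by
    rintro rfl
    rw [zero_pow (by positivity)] at hz1
    exact zero_ne_one hz1
  have hsqv : ∃ d : ℂ, ρ g (ρ g v) = d • v := by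
    rw [← Module.End.mul_apply, ← map_mul]
    rcases h.sq with h1 | ⟨_, h1⟩
    · exact ⟨1, by rw [h1, Module.End.one_apply, one_smul]⟩
    · exact ⟨_, by rw [h1]; exact pow_apply_eigen ρ hcv _⟩
  have hspan : ∀ w : V, ∃ a b : ℂ, w = a • v + b • ρ g v := by
    have hW : ∀ x, ∀ w ∈ Submodule.span ℂ {v, ρ g v}, ρ x w ∈ Submodule.span ℂ {v, ρ g v} := by
      intro x w hw
      obtain ⟨a, b, rfl⟩ := Submodule.mem_span_pair.1 hw
      obtain ⟨j, m, u, -, -, ⟨ω, hω⟩, hx⟩ := h.all x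
      obtain ⟨d, hd⟩ := hsqv
      have e1 : ρ (c ^ j * u) v = (ω * ζ ^ j) • v := by
        rw [map_mul, Module.End.mul_apply, hω, map_smul, pow_apply_eigen ρ hcv, smul_smul]
      have e2 : ρ (c ^ j * u) (ρ g v) = (ω * (ζ ^ t) ^ j) • ρ g v := by
        rw [map_mul, Module.End.mul_apply, hω, map_smul, pow_apply_eigen ρ hcg, smul_smul]
      rcases hx with hx | hx
      · rw [hx, map_add, map_smul, map_smul, e1, e2, smul_smul, smul_smul]
        exact Submodule.mem_span_pair.2 ⟨_, _, rfl⟩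
      · rw [hx, mul_assoc, map_mul, Module.End.mul_apply, map_add, map_smul, map_smul, e1, e2,
          map_add, map_smul, map_smul, map_smul, map_smul, hd, smul_smul, smul_smul, smul_smul,
          add_comm]
        exact Submodule.mem_span_pair.2 ⟨_, _, rfl⟩
    intro w
    rcases hI.2 _ hW with h1 | h1
    · exfalso
      have h2 : v ∈ Submodule.span ℂ {v, ρ g v} := Submodule.subset_span (by simp)
      rw [h1, Submodule.mem_bot] at h2
      exact hv0 h2
    · have h2 : w ∈ Submodule.span ℂ {v, ρ g v} := by rw [h1]; trivial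
      obtain ⟨a, b, hab⟩ := Submodule.mem_span_pair.1 h2
      exact ⟨a, b, hab.symm⟩
  have hpow : (2 : ℕ) ^ (n - 1) * 2 = 2 ^ n := by
    rw [← pow_succ, show n - 1 + 1 = n from by omega]
  have hε2 : ζ ^ (2 ^ (n - 1)) = 1 ∨ ζ ^ (2 ^ (n - 1)) = -1 := by
    have h1 : (ζ ^ (2 ^ (n - 1))) ^ 2 = 1 := by rw [← pow_mul, hpow, hz1]
    have h2 : (ζ ^ (2 ^ (n - 1)) - 1) * (ζ ^ (2 ^ (n - 1)) + 1) = 0 := by linear_combination h1
    rcases mul_eq_zero.1 h2 with h3 | h3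
    · exact Or.inl (sub_eq_zero.1 h3)
    · exact Or.inr (eq_neg_of_add_eq_zero_left h3)
  have hzw : ∀ w, ρ (c ^ (2 ^ (n - 1))) w = ζ ^ (2 ^ (n - 1)) • w := by
    intro w
    obtain ⟨a, b, rfl⟩ := hspan w
    have hε : (ζ ^ t) ^ (2 ^ (n - 1)) = ζ ^ (2 ^ (n - 1)) := by
      have hodd : Odd t := by rw [Nat.odd_iff]; omega
      rw [← pow_mul, mul_comm, pow_mul]
      rcases hε2 with h1 | h1
      · rw [h1, one_pow]
      · rw [h1, hodd.neg_one_pow]
    rw [map_add, map_smul, map_smul, pow_apply_eigen ρ hcv, pow_apply_eigen ρ hcg, hε,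
      smul_add, smul_comm a, smul_comm b]
  have hε : ζ ^ (2 ^ (n - 1)) = -1 := by
    rcases hε2 with h1 | h1
    · exact absurd (LinearMap.ext fun w => by rw [hzw w, h1, one_smul, Module.End.one_apply]) h.ne
    · exact h1
  have hprim : IsPrimitiveRoot ζ (2 ^ n) := by
    rw [IsPrimitiveRoot.iff_orderOf]
    have h1 : ¬ ζ ^ 2 ^ (n - 1) = 1 := by rw [hε]; norm_num
    have h2 : ζ ^ 2 ^ (n - 1 + 1) = 1 := by rw [show n - 1 + 1 = n from by omega]; exact hz1
    have h3 := orderOf_eq_prime_pow h1 h2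
    rwa [show n - 1 + 1 = n from by omega] at h3
  have hne : ζ ^ t ≠ ζ := by
    intro h1
    have h2 : ζ ^ (t - 1) = 1 := by
      have h3 : ζ * ζ ^ (t - 1) = ζ * 1 := by
        rw [← pow_succ', show t - 1 + 1 = t from by omega, h1, mul_one]
      exact mul_left_cancel₀ hζ0 h3
    have h3 : 2 ^ n ∣ t - 1 := hprim.dvd_of_pow_eq_one _ h2
    have h4 : (4 : ℕ) ∣ 2 ^ n := pow_dvd_pow 2 hn
    have h5 := h4.trans h3
    omega
  refine ⟨v, ζ, hv0, hprim, hcv, hcg, hspan, ?_, fun w => by rw [hzw w, hε, neg_one_smul]⟩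
  intro a b hab
  have h1 : a • ζ • v + b • ζ ^ t • ρ g v = 0 := by
    have h2 := congrArg (ρ c) hab
    rwa [map_add, map_smul, map_smul, hcv, hcg, map_zero] at h2
  have h2 : (b * (ζ ^ t - ζ)) • ρ g v = 0 := by
    have h3 : (b * (ζ ^ t - ζ)) • ρ g v =
        (a • ζ • v + b • ζ ^ t • ρ g v) - ζ • (a • v + b • ρ g v) := by
      module
    rw [h3, h1, hab, smul_zero, sub_zero]
  have hb : b = 0 := by
    rcases smul_eq_zero.1 h2 with h3 | h3
    · exact (mul_eq_zero.1 h3).resolve_right (sub_ne_zero.2 hne)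
    · exact absurd (inj ρ g h3) hv0
  rw [hb, zero_smul, add_zero] at hab
  exact ⟨(smul_eq_zero.1 hab).resolve_right hv0, hb⟩

end StarkC.ABS
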