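import Pool.Agent.ABS.FINZ
import Pool.Agent.ABS.StZI
import Pool.Agent.ABS.ZGP
import Pool.Agent.ABS.ZEL
import Pool.Agent.ABS.ZTW
import Pool.Agent.ABS.ZSI
import Pool.Agent.ABS.ZVB
import Pool.Agent.ABS.ZSQ
import Pool.Agent.ABS.ZLG
import Pool.Agent.ABS.ZOQ
import Pool.Agent.ABS.ZFX
import Pool.Agent.ABS.ZTR
import Pool.Agent.ABS.ZIM
import Pool.Agent.ABS.ZRM
import Pool.Agent.ABS.ZID
import Pool.Agent.ABS.ZUN
import Pool.Agent.ABS.ZFD

/-!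
# Project ABS (MP_46b841_nt), part Z: irreducible characters with nilpotent image, not symplectic
-/

set_option autoImplicit false

open NumberField IsDedekindDomain
open scoped TensorProduct Classical

namespace StarkC.ABS

open StarkC.MON FINUx FINZx
open StarkP (rootField charField trChar NormIn AbsIn IsTheta)

namespace FINZGx

open RFX in
/-- The linear case. -/
theorem indData_of {G V : Type} [Group G] [Fintype G] [AddCommGroup V] [Module ℂ V]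
    (ρ : Representation ℂ G V) (H : Subgroup G) (ψ : H →* ℂˣ)
    (hχ : ρ.character = indFun H (extZ ψ))
    (hfix : ∀ σ : ℂ ≃+* ℂ, (∀ g, σ (ρ.character g) = ρ.character g) →
        ∀ h, σ ((ψ h : ℂˣ) : ℂ) = ((ψ h : ℂˣ) : ℂ)) : IndData ρ := by
  have hval : ∀ x : H, (((ψ x : ℂˣ) : ℂ)) ^ (orderOf ψ) = 1 := by
    intro x
    have h1 : (ψ ^ orderOf ψ) x = 1 := by rw [pow_orderOf_eq_one]; rfl
    rw [← Units.val_pow_eq_pow_val, ← Units.val_one]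
    exact congrArg Units.val h1
  have hpos : 0 < orderOf ψ := by
    obtain ⟨x, hx⟩ := exists_value ψ
    rw [← hx, orderOf_pos_iff, isOfFinOrder_iff_pow_eq_one]
    refine ⟨Nat.card H, Nat.card_pos, ?_⟩
    rw [← map_pow, pow_card_eq_one', map_one]
  refine ⟨H, ψ, hpos, hχ, fun σ => ⟨fun h => ?_, fun h g => ?_⟩, fun σ t h g => ?_⟩
  · intro z hz
    have h1 := hfix σ h
    obtain ⟨x, hx⟩ := exists_value ψ
    have h2 : IsPrimitiveRoot ((ψ x : ℂˣ) : ℂ) (orderOf ψ) := by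
      rw [IsPrimitiveRoot.coe_units_iff, ← hx]
      exact IsPrimitiveRoot.orderOf _
    have : NeZero (orderOf ψ) := ⟨hpos.ne'⟩
    obtain ⟨i, -, rfl⟩ := h2.eq_pow_of_pow_eq_one hz
    rw [map_pow, h1]
  · rw [hχ]
    have h1 := map_indFun H ψ σ 1 (fun x => by rw [h _ (hval x), pow_one]) g
    have h2 : ψ ^ 1 = ψ := MonoidHom.ext fun x => pow_one (ψ x)
    rw [h2] at h1
    exact h1
  · rw [hχ]
    exact map_indFun H ψ σ t (fun x => h _ (hval x)) g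

theorem conclZOQ : ConclZOQ :=
  ZOQ_thm (ZEL_thm MAB_thm MAX_thm ZGP_thm) ZTW_thm ZSI_thm ZVB_thm ZSQ_thm ZLG_thm

/-- The conclusion for a leaf (ZEN). -/
def LeafN : Prop :=
  ∀ (K L : Type) [Field K] [NumberField K] [Field L] [NumberField L] [Algebra K L] [IsGalois K L]
    (S : Finset (HeightOneSpectrum (𝓞 K))) (Θ : ((L → ℝ) →₀ ℂ) →ₗ[ℂ] ((L → ℝ) →₀ ℂ))
    (V : Type) [AddCommGroup V] [Module ℂ V] [Module.Finite ℂ V]
    (ρ : Representation ℂ (L ≃ₐ[K] L) V)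
    (A : Subgroup (L ≃ₐ[K] L)) (ψ : A →* ℂˣ) (g : L ≃ₐ[K] L) (n m s : ℕ),
    IsTheta K (StarkP.aboveSet K L S) Θ → Leaf A ψ g n m s →
    ρ.character = indFun A (extZ ψ) →
    (∀ σ : ℂ ≃+* ℂ, (∀ x, σ (ρ.character x) = ρ.character x) →
      (∀ a, σ ((ψ a : ℂˣ) : ℂ) = ((ψ a : ℂˣ) : ℂ)) ∨
        ∀ a, σ ((ψ a : ℂˣ) : ℂ) = ((ψ a : ℂˣ) : ℂ) ^ s) →
    (∀ E : IntermediateField ℚ ℂ, E ≤ charField ρ.character → IsCyclic (E ≃ₐ[ℚ] E) →
      NormIn E ρ.character (S : Set (HeightOneSpectrum (𝓞 K))) Θ) ∧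
    (∀ q : ℕ, IsPrimePow q → charField ρ.character = rootField q →
      NormIn (charField ρ.character) ρ.character (S : Set (HeightOneSpectrum (𝓞 K))) Θ) ∧
    ((∀ x, ∃ j : ℕ, ρ (x ^ (2 ^ j)) = 1) →
      NormIn (charField ρ.character) ρ.character (S : Set (HeightOneSpectrum (𝓞 K))) Θ)

/-- The image of a leaf is not a group of odd prime power order. -/
theorem two_of_leaf {G V : Type} [Group G] [Fintype G] [AddCommGroup V] [Module ℂ V]
    (ρ : Representation ℂ G V) (A : Subgroup G) (ψ : A →* ℂˣ) (g : G) (n m s : ℕ)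
    (hL : Leaf A ψ g n m s) (hχ : ρ.character = indFun A (extZ ψ)) (ℓ : ℕ) (hℓ : ℓ.Prime)
    (h : StarkP.HasImage ℓ ρ) : ℓ = 2 := by
  obtain ⟨k, hk⟩ := order_pow ρ A ψ hχ ℓ hℓ h
  have h1 : 2 ∣ ℓ ^ k := by
    rw [← hk, hL.ord]
    exact (dvd_pow_self 2 (by have := hL.tt.1; omega)).mul_right m
  exact ((Nat.prime_dvd_prime_iff_eq Nat.prime_two hℓ).1 (Nat.prime_two.dvd_of_dvd_pow h1)).symm

end FINZGx

open FINZGx

/-- Theorem (Z): irreducible representations with nilpotent image, not symplectic. -/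
theorem finZG_of (hZ : LeafN) (K L : Type) [Field K] [NumberField K] [Field L] [NumberField L]
    [Algebra K L] [IsGalois K L] (S : Finset (HeightOneSpectrum (𝓞 K)))
    (Θ : ((L → ℝ) →₀ ℂ) →ₗ[ℂ] ((L → ℝ) →₀ ℂ)) (hΘ : IsTheta K (StarkP.aboveSet K L S) Θ)
    (V : Type) [AddCommGroup V] [Module ℂ V] [Module.Finite ℂ V]
    (ρ : Representation ℂ (L ≃ₐ[K] L) V) (hirr : ρ.IsIrreducible)
    (hnil : Group.IsNilpotent ((L ≃ₐ[K] L) ⧸ MonoidHom.ker ρ)) (hsy : ¬ Sy ρ) :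
    (∀ E : IntermediateField ℚ ℂ, E ≤ charField ρ.character → IsCyclic (E ≃ₐ[ℚ] E) →
      NormIn E ρ.character (S : Set (HeightOneSpectrum (𝓞 K))) Θ) ∧
    (∀ q : ℕ, IsPrimePow q → charField ρ.character = rootField q →
      NormIn (charField ρ.character) ρ.character (S : Set (HeightOneSpectrum (𝓞 K))) Θ) ∧
    (∀ ℓ : ℕ, ℓ.Prime → StarkP.HasImage ℓ ρ →
      NormIn (charField ρ.character) ρ.character (S : Set (HeightOneSpectrum (𝓞 K))) Θ) := by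
  rcases conclZOQ (L ≃ₐ[K] L) V ρ (irr_of ρ hirr) (lcs_of ρ hnil) hsy with
    ⟨H, ψ, hχ, hfix⟩ | ⟨A, ψ, g, n, m, s, hL, hχ, hfix⟩
  · obtain ⟨-, h1, h2, h3, -⟩ := finZ_N K L S Θ hΘ V ρ (indData_of ρ H ψ hχ hfix)
    exact ⟨h1, h2, h3⟩
  · obtain ⟨h1, h2, h3⟩ := hZ K L S Θ V ρ A ψ g n m s hΘ hL hχ hfix
    refine ⟨h1, h2, fun ℓ hℓ himg => h3 fun x => ?_⟩
    have h4 := two_of_leaf ρ A ψ g n m s hL hχ ℓ hℓ himg
    subst h4
    exact himg x

end StarkC.ABS
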