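import Pool.Agent.ABS.StD3
import Pool.Agent.StarkT.SREG

/-!
# Project ABS (MP_46b841_nt), part D: dihedral and semidihedral leaves, second half

Change of `φ` (DPH), of `S` (DSP, DSR, DSL, DST), inflation (DIF), change of the base field (DRT, DLL,
DLV), the fields (DFL, DBB), signs (DTW, DP2, DPS, DRE, DPE), the end (DFI).  See `ABS/StD3.lean`.

Module `X` proves `theorem StarkC.ABS.X_thm : Stmt_X` in the file `Pool/Agent/ABS/X.lean` (import
`Pool.Agent.ABS.StD4` and the finished modules named in the text); helper lemmas in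
`namespace StarkC.ABS.Xx`.  The statements used are hypotheses inside `Stmt_X` (finished modules
`Y_thm` may also be imported).
-/

set_option autoImplicit false

open NumberField IsDedekindDomain
open scoped TensorProduct Classical

namespace StarkC.ABS

open StarkP (rootField)

/-! ### Conclusions of modules of `StD3.lean` -/

/-- The conclusion of DI1. -/
def ConclDI1 : Prop :=
  ∀ (G : Type) [Group G] [Fintype G] (k t : ℕ) (σ γ : G), DLeaf k t σ γ →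
    ∀ ψ : Subgroup.zpowers σ →* ℂˣ, Function.Injective ψ → ∀ x : G,
      lfun k (Subgroup.zpowers σ) ψ x =
        indFun (Subgroup.zpowers γ) (fun _ => 1) x -
          indFun (Subgroup.zpowers γ ⊔ Subgroup.zpowers (σ ^ (2 ^ k / 2))) (fun _ => 1) x

/-- The conclusion of DEN. -/
def ConclDEN : Prop :=
  ∀ k t : ℕ, 3 ≤ k → TT k t → ∀ x : Cyc (2 ^ k),
    (∀ σ : ℂ ≃+* ℂ, (∀ z : ℂ, z ^ (2 ^ k) = 1 → σ z = z ^ t) → σ x = x) →
    ∃ α : EF2 k t, (α : ℂ) = x ∧ nm (2 ^ k) x = ((Algebra.norm ℚ α : ℚ) : ℂ) ^ 2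

/-! ### Change of `φ` -/

/-- DLI (about 60 lines).  PROOF. `indFun` with `x ↦ x g` in the sum: `x⁻¹ y x ∈ A` iff `g⁻¹ (x⁻¹ y x) g ∈ A` (conjugation
by `g⁻¹` maps `A` into `A`, so onto `A`, as `G` is finite), and `ψ (g⁻¹ a g) = ψ(a) ^ t`. -/
def Stmt_DLI : Prop :=
  ∀ (G : Type) [Group G] [Fintype G] (A : Subgroup G) (ψ : A →* ℂˣ) (g : G) (n m s : ℕ),
    Leaf A ψ g n m s → ∀ (j : ℕ) (x : G),
      indFun A (extZ (ψ ^ (j * s))) x = indFun A (extZ (ψ ^ j)) x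

/-- DPH (about 150 lines; model: `PRAT.lean`).  PROOF. Over `M = fixedField A`, with a set `S'` such that
`aboveSet M L S' = aboveSet K L S` (`IND.exists_S'`; transport as in `PCXx.vv_of`, `ABS/PCX.lean`) and
`IND.isPhiTheta_sub`: as in `PRAT.lean`, with `n = 2 ^ k`, `ψ' = liftChar A ψ`: `x ∈ Cyc n`, `x ≠ 0`, and
`R₂(ψ'^j) = σ_j(x) R(ψ'^j)` for every automorphism `σ_j` with `σ_j z = z ^ j` on the `n`-th roots of unity, where
`R = Reg _ (linRep ·) Θ`, `R₂ = Reg _ (linRep ·) Θ₂`; `liftChar A (ψ ^ j) = ψ' ^ j` (`COMBx.lift_pow`).  Let `σ z = z ^ t`: DLI and DRC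
(`m = 2`, `H = ![A, A]`, `ψ^t`, `ψ`, `c = ![1, -1]`) give `R(ψ^t) = R(ψ)`, `R₂(ψ^t) = R₂(ψ)`, and `R ≠ 0`
(`StarkG.reg_ne_zero`), so `σ x = x`.  DEN: `α' ∈ EF2 k t` with `nm n x = N(α')²`, and
`∏_{j ∈ Ex n} σ_j(x) = nm n x` (NORMT).  The new `α` is `α α'`. -/
def Stmt_DPH : Prop :=
  Stmt_FIXC → Stmt_SIGT → Stmt_NORMT → ConclDEN → Stmt_DLI → Stmt_DRC →
  ∀ (K L : Type) [Field K] [NumberField K] [Field L] [NumberField L] [Algebra K L] [IsGalois K L]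
    (S : Finset (HeightOneSpectrum (𝓞 K)))
    (φ φ₂ : XQ L (aboveSet K L S) ≃ₗ[ℚ] QU L (aboveSet K L S))
    (Θ Θ₂ : XC L (aboveSet K L S) →ₗ[ℂ] XC L (aboveSet K L S))
    (A : Subgroup (L ≃ₐ[K] L)) (ψ : A →* ℂˣ) (g : L ≃ₐ[K] L) (k t : ℕ), 3 ≤ k →
    Leaf A ψ g k 1 t → IsPhiTheta K (aboveSet K L S) φ Θ → IsPhiTheta K (aboveSet K L S) φ₂ Θ₂ →
    PD2 k t A ψ S Θ → PD2 k t A ψ S Θ₂

/-- The conclusion of DPH. -/
def ConclDPH : Prop :=
  ∀ (K L : Type) [Field K] [NumberField K] [Field L] [NumberField L] [Algebra K L] [IsGalois K L]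
    (S : Finset (HeightOneSpectrum (𝓞 K)))
    (φ φ₂ : XQ L (aboveSet K L S) ≃ₗ[ℚ] QU L (aboveSet K L S))
    (Θ Θ₂ : XC L (aboveSet K L S) →ₗ[ℂ] XC L (aboveSet K L S))
    (A : Subgroup (L ≃ₐ[K] L)) (ψ : A →* ℂˣ) (g : L ≃ₐ[K] L) (k t : ℕ), 3 ≤ k →
    Leaf A ψ g k 1 t → IsPhiTheta K (aboveSet K L S) φ Θ → IsPhiTheta K (aboveSet K L S) φ₂ Θ₂ →
    PD2 k t A ψ S Θ → PD2 k t A ψ S Θ₂

/-! ### Change of `S` -/

/-- DSP (about 150 lines), regulators of the trivial character.  PROOF. Induction on `W`, generalizing `T₂`,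
`Θ₂`.  `W = ∅`: `T₂ = T` and `Θ₂ = Θ`.  `insert w W`: `T₁ = T ∪ aboveSet M L W`, `Split T T₁ (aboveSet M L W)`,
`Split T₁ T₂ (above M L w)`, `T₁` stable; `Θ₁` = the restriction of `Θ₂` to `XC L T₁` (stable by `Split.XC_iff`, as `Θ₂`
multiplies the coordinates at the places above `w` by `c`).  The induction hypothesis for `T₁`, `Θ₁`, and
`SREG.reg_eq` (with `ψ = 1`: `TrivD` holds; some `w₀ ∈ above M L w` exists, see the end of `StarkT/SREG.lean`). -/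
def Stmt_DSP : Prop :=
  ∀ (M L : Type) [Field M] [NumberField M] [Field L] [NumberField L] [Algebra M L] [IsGalois M L]
    (T T₂ : Set (HeightOneSpectrum (𝓞 L))) (W : Finset (HeightOneSpectrum (𝓞 M)))
    (h : SREG.Split T T₂ (aboveSet M L (W : Set (HeightOneSpectrum (𝓞 M)))))
    (hT : StableT M T) (hT₂ : StableT M T₂)
    (Θ : XC L T →ₗ[ℂ] XC L T) (Θ₂ : XC L T₂ →ₗ[ℂ] XC L T₂) (c : ℂ),
    (∀ g : L ≃ₐ[M] L, Θ ∘ₗ repX M T hT g = repX M T hT g ∘ₗ Θ) →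
    (∀ g : L ≃ₐ[M] L, Θ₂ ∘ₗ repX M T₂ hT₂ g = repX M T₂ hT₂ g ∘ₗ Θ₂) →
    (∀ z : XC L T, Θ₂ (SREG.incC h.XC_le z) = SREG.incC h.XC_le (Θ z)) →
    (∀ w : HeightOneSpectrum (𝓞 L), w ∈ aboveSet M L (W : Set (HeightOneSpectrum (𝓞 M))) →
      ∀ z : XC L T₂, (Θ₂ z).val (finAbs L w) = c * z.val (finAbs L w)) →
    Reg T₂ (linRep (1 : (L ≃ₐ[M] L) →* ℂˣ)) Θ₂ =
      Reg T (linRep (1 : (L ≃ₐ[M] L) →* ℂˣ)) Θ * c ^ W.card

/-- DSR (about 120 lines; model: the end of `StarkT/SREG.lean`).  PROOF. `φ₂`, `Θ₂` as in `SREG_thm`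
(`SREG.exists_phi`, `THE_thm`, `SREG.theta_inc`, `SREG.theta_coord`); `c = log N(w₀)` for one (any) prime `w₀` of `L`
above `v`: all of them have the same norm (`SREG.exists_mv`, `STB.absNorm_mv`).  For `H`: `M = fixedField H`, the
primes of `L` above `v` are the primes above those in `W` (`IND.under_under`), so DSP applies
(`liftChar H 1 = 1`; `IND.stable_sub`, `IND.repX_sub`).  `w ∈ W`: choose `w'` above `w` in `L`; `N(w') = N(w)^f`, `f` the
residue degree (`LB.absNorm_under`, `SREG.log_norm`), which divides `[L : M] = |H|`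
(`Ideal.ncard_primesOver_mul_ramificationIdxIn_mul_inertiaDegIn`,
`IntermediateField.finrank_fixedField_eq_card`). -/
def Stmt_DSR : Prop :=
  Stmt_DSP →
  ∀ (K L : Type) [Field K] [NumberField K] [Field L] [NumberField L] [Algebra K L] [IsGalois K L]
    (S : Finset (HeightOneSpectrum (𝓞 K))) (v : HeightOneSpectrum (𝓞 K)), v ∉ S →
    ∀ (φ : XQ L (aboveSet K L S) ≃ₗ[ℚ] QU L (aboveSet K L S))
      (Θ : XC L (aboveSet K L S) →ₗ[ℂ] XC L (aboveSet K L S)),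
      IsPhiTheta K (aboveSet K L S) φ Θ →
      ∃ (φ₂ : XQ L (aboveSet K L (insert v S : Finset (HeightOneSpectrum (𝓞 K)))) ≃ₗ[ℚ]
          QU L (aboveSet K L (insert v S : Finset (HeightOneSpectrum (𝓞 K)))))
        (Θ₂ : XC L (aboveSet K L (insert v S : Finset (HeightOneSpectrum (𝓞 K)))) →ₗ[ℂ]
          XC L (aboveSet K L (insert v S : Finset (HeightOneSpectrum (𝓞 K))))) (c : ℝ),
        0 < c ∧
        IsPhiTheta K (aboveSet K L (insert v S : Finset (HeightOneSpectrum (𝓞 K)))) φ₂ Θ₂ ∧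
        ∀ (H : Subgroup (L ≃ₐ[K] L))
          (W : Finset (HeightOneSpectrum (𝓞 (IntermediateField.fixedField H)))),
          (∀ w, w ∈ W ↔ w.under (𝓞 K) = v) →
          (∀ w ∈ W, ∃ f : ℕ, f ∣ Nat.card H ∧ c = f * Real.log (Ideal.absNorm w.asIdeal)) ∧
          Reg (aboveSet K L (insert v S : Finset (HeightOneSpectrum (𝓞 K))))
              (linRep (liftChar H 1)) Θ₂ =
            Reg (aboveSet K L S) (linRep (liftChar H 1)) Θ * (c : ℂ) ^ W.card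

/-- The conclusion of DSR. -/
def ConclDSR : Prop :=
  ∀ (K L : Type) [Field K] [NumberField K] [Field L] [NumberField L] [Algebra K L] [IsGalois K L]
    (S : Finset (HeightOneSpectrum (𝓞 K))) (v : HeightOneSpectrum (𝓞 K)), v ∉ S →
    ∀ (φ : XQ L (aboveSet K L S) ≃ₗ[ℚ] QU L (aboveSet K L S))
      (Θ : XC L (aboveSet K L S) →ₗ[ℂ] XC L (aboveSet K L S)),
      IsPhiTheta K (aboveSet K L S) φ Θ →
      ∃ (φ₂ : XQ L (aboveSet K L (insert v S : Finset (HeightOneSpectrum (𝓞 K)))) ≃ₗ[ℚ]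
          QU L (aboveSet K L (insert v S : Finset (HeightOneSpectrum (𝓞 K)))))
        (Θ₂ : XC L (aboveSet K L (insert v S : Finset (HeightOneSpectrum (𝓞 K)))) →ₗ[ℂ]
          XC L (aboveSet K L (insert v S : Finset (HeightOneSpectrum (𝓞 K))))) (c : ℝ),
        0 < c ∧
        IsPhiTheta K (aboveSet K L (insert v S : Finset (HeightOneSpectrum (𝓞 K)))) φ₂ Θ₂ ∧
        ∀ (H : Subgroup (L ≃ₐ[K] L))
          (W : Finset (HeightOneSpectrum (𝓞 (IntermediateField.fixedField H)))),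
          (∀ w, w ∈ W ↔ w.under (𝓞 K) = v) →
          (∀ w ∈ W, ∃ f : ℕ, f ∣ Nat.card H ∧ c = f * Real.log (Ideal.absNorm w.asIdeal)) ∧
          Reg (aboveSet K L (insert v S : Finset (HeightOneSpectrum (𝓞 K))))
              (linRep (liftChar H 1)) Θ₂ =
            Reg (aboveSet K L S) (linRep (liftChar H 1)) Θ * (c : ℂ) ^ W.card

/-- DSL (about 120 lines), the Euler factors.  PROOF. `M = fixedField H`, `S'` with
`aboveSet M L S' = aboveSet K L S` (`IND.exists_S'`); then `aboveSet M L (S' ∪ W) = aboveSet K L (insert v S)`, and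
no `w ∈ W` is in `S'` (a prime of `L` above it would be above `S`).  `ALLT.lind` (as in `LFBx.sub_eq`, `ABS/LFB.lean`)
for both sets, and induction on `W` with `SLF_thm M L w 1 (RingEquiv.refl ℂ)`: the number `z` there is `1`
(`TrivD w 1` holds). -/
def Stmt_DSL : Prop :=
  ∀ (K L : Type) [Field K] [NumberField K] [Field L] [NumberField L] [Algebra K L] [IsGalois K L]
    (S : Finset (HeightOneSpectrum (𝓞 K))) (v : HeightOneSpectrum (𝓞 K)), v ∉ S →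
    ∀ (H : Subgroup (L ≃ₐ[K] L))
      (W : Finset (HeightOneSpectrum (𝓞 (IntermediateField.fixedField H)))),
      (∀ w, w ∈ W ↔ w.under (𝓞 K) = v) → ∀ s : ℂ, 1 < s.re →
      Complex.exp (logL (indFun H (fun _ => 1))
          ((insert v S : Finset (HeightOneSpectrum (𝓞 K))) : Set (HeightOneSpectrum (𝓞 K))) s) =
        Complex.exp (logL (indFun H (fun _ => 1)) (S : Set (HeightOneSpectrum (𝓞 K))) s) *
          ∏ w ∈ W, (1 - (Ideal.absNorm w.asIdeal : ℂ) ^ (-s))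

/-- DTW (about 60 lines).  PROOF. `E`, `τ` from DEM.  `2`: `ConclE` with `a = 2`, `q = 4 = 1² 2²` (`IdF.one`).  `-1`: `ConclE`
with `a = -1`, `q = 1 = 1² 2⁰`; `(t : ZMod (2 ^ k)) = -1`. -/
def Stmt_DTW : Prop :=
  _root_.ABS.ConclE → Stmt_SIGT → Stmt_DEM → ∀ k t : ℕ, 3 ≤ k → TT k t →
    (∃ α : EF2 k t, α ≠ 0 ∧ Algebra.norm ℚ α = 2) ∧
    ((t + 1) % 2 ^ k = 0 → ∃ α : EF2 k t, α ≠ 0 ∧ Algebra.norm ℚ α = -1)

/-- The conclusion of DTW. -/
def ConclDTW : Prop :=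
  ∀ k t : ℕ, 3 ≤ k → TT k t →
    (∃ α : EF2 k t, α ≠ 0 ∧ Algebra.norm ℚ α = 2) ∧
    ((t + 1) % 2 ^ k = 0 → ∃ α : EF2 k t, α ≠ 0 ∧ Algebra.norm ℚ α = -1)

/-- DST (about 200 lines; model: `PSTEP.lean`).  PROOF. `n = 2 ^ k`, `H₁ = ⟨γ⟩`, `H₂ = ⟨γ, σ ^ (n / 2)⟩`, `W_i` the finite set of the
primes of the fixed field of `H_i` above `v`.  `φ`, `Θ` for `S` (`ALLT.exph`), `F`, `α`, `r` from `PD2all`;
`φ₂`, `Θ₂`, `c` from DSR.  By DI1 and DRC (as in DBS, `ABS/StD3.lean`): `∏_{j ∈ Ex n} R(ψ^j) = (R(H₁) / R(H₂))²` for both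
sets, where `R(H) = Reg _ (linRep (liftChar H 1)) _`, so the new product is the old one times
`(c ^ |W₁| / c ^ |W₂|)²`.  `F₂(s) = F(s) ∏_{w ∈ W₁} (1 - N(w)^(-s)) / ∏_{w ∈ W₂} (1 - N(w)^(-s))` is an `L`-function of
`lfun` for `insert v S` (DI1, `IND.logL_sum`, DSL), its leading coefficient is
`r₂ = r ∏_{W₁} log N(w) / ∏_{W₂} log N(w) > 0` (`LEULZ_thm`, see `PSTEPx.mulE`).  `c / log N(w) = f` divides `|H_i|`, which is
`2` or `4` (`H_i` is killed by `2` and commutative; or `|G| = 2 ^ (k + 1)` and Lagrange), so it is a power of `2`, and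
`c ^ |W₁| / c ^ |W₂| = 2 ^ e (r₂ / r)` with an integer `e`.  `2 = N(β)` (DTW), the new `α` is `α β ^ e`.  Then DPH with the
leaf `Leaf ⟨σ⟩ ψ γ k 1 t` (`ψ` injective: order `2 ^ k`; `γ⁻¹ = γ`, `γ σ^i γ = σ^(t i)`). -/
def Stmt_DST : Prop :=
  ConclDI1 → Stmt_DRC → ConclDSR → Stmt_DSL → ConclDTW → ConclDPH →
  ∀ (K L : Type) [Field K] [NumberField K] [Field L] [NumberField L] [Algebra K L] [IsGalois K L]
    (k t : ℕ) (σ γ : L ≃ₐ[K] L) (ψ : Subgroup.zpowers σ →* ℂˣ), DLeaf k t σ γ →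
    Function.Injective ψ →
    ∀ (S : Finset (HeightOneSpectrum (𝓞 K))) (v : HeightOneSpectrum (𝓞 K)), v ∉ S →
      PD2all k t (Subgroup.zpowers σ) ψ S → PD2all k t (Subgroup.zpowers σ) ψ (insert v S)

/-! ### Inflation -/

/-- DIF (about 150 lines; model: `PINF.lean`).  PROOF. `φ₀`, `Θ₀` for `L`, `S` (`ALLT.exph`), `F`, `α`, `r` from `PD2all`;
`ALLT.infl K L N S φ₀ Θ₀` gives `φ₁`, `Θ₁` and equal regulators for all representations `ρ` of `Gal(L/K)` and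
`ρ ∘ res`.  For `j`: let `ρ_j` have the character `Ind (ψ^j)` (`INDREP_thm`, `StarkT/INDREP.lean`); `ρ_j ∘ res` has the
character `Ind_A (ψ'^j)` (`CMB.indFun_infl`, `CMB.indFun_congr`; `res` is surjective), so by `INDP.reg_comb`
(`M = 1`, one term; see `PCX.lean`) the regulators `R(liftChar A (ψ'^j))` for `Θ₁` and `R(liftChar ⟨σ⟩ (ψ^j))` for `Θ₀` agree.
`lfun k A ψ' = lfun k ⟨σ⟩ ψ ∘ res`, so `F` is an `L`-function of it (`PINFx.logL_infl`; `lfun` is a class function).  So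
`PD2` for `Θ₁`, and ConclDPH gives it for all `φ`. -/
def Stmt_DIF : Prop :=
  ConclDPH →
  ∀ (K L N : Type) [Field K] [NumberField K] [Field L] [NumberField L] [Field N]
    [NumberField N] [Algebra K L] [Algebra K N] [Algebra L N] [IsScalarTower K L N]
    [IsGalois K L] [IsGalois K N] (k t : ℕ) (σ γ : L ≃ₐ[K] L) (ψ : Subgroup.zpowers σ →* ℂˣ)
    (A : Subgroup (N ≃ₐ[K] N)) (ψ' : A →* ℂˣ) (g : N ≃ₐ[K] N)
    (S : Finset (HeightOneSpectrum (𝓞 K))), DLeaf k t σ γ → Function.Injective ψ →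
    Leaf A ψ' g k 1 t →
    A = (Subgroup.zpowers σ).comap (AlgEquiv.restrictNormalHom L : (N ≃ₐ[K] N) →* (L ≃ₐ[K] L)) →
    (∀ (a : A) (b : Subgroup.zpowers σ),
      (b : L ≃ₐ[K] L) = AlgEquiv.restrictNormalHom L (a : N ≃ₐ[K] N) → ψ' a = ψ b) →
    PD2all k t (Subgroup.zpowers σ) ψ S → PD2all k t A ψ' S

/-- DFL (about 150 lines; model: `FAITH.exists_field`, `StarkU/FAITH.lean`).  PROOF. `N = ` the image of `ψ.ker` in `G`
(`Subgroup.map A.subtype`): normal in `G` (`A` is normal: conjugation by elements of `A` and by `g`; `ψ (g⁻¹ a g) = ψ(a)^t`, and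
`ψ(b) = 1` for `b = g a g⁻¹`, as `ψ(a) = ψ(b)^t`, `t` odd, `ψ` of order `2 ^ k`; every element is `a` or `g a`).
`L₀` = its fixed field, `Gal(L₀/K) = G / N` (`res` is surjective with kernel `N`).  `σ = res a`, `ψ a` of order `2 ^ k` (the image of
`ψ` is cyclic of order `2 ^ k`), `γ = res g`: `γ² = 1` as `ψ (g g) = 1`, `γ σ γ = σ ^ t`.  `⟨σ⟩ = res A`, `A` contains `N`, so
`A` is the preimage of `⟨σ⟩`; `ψ₀` with `ψ₀ (res a) = ψ a` is injective. -/
def Stmt_DFL : Prop :=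
  ∀ (K L : Type) [Field K] [NumberField K] [Field L] [NumberField L] [Algebra K L] [IsGalois K L]
    (A : Subgroup (L ≃ₐ[K] L)) (ψ : A →* ℂˣ) (g : L ≃ₐ[K] L) (k t : ℕ), 3 ≤ k →
    Leaf A ψ g k 1 t → (∀ x : L ≃ₐ[K] L, x ∈ A ∨ g⁻¹ * x ∈ A) →
    ∃ (L₀ : Type) (_ : Field L₀) (_ : NumberField L₀) (_ : Algebra K L₀) (_ : Algebra L₀ L)
      (_ : IsScalarTower K L₀ L) (_ : IsGalois K L₀) (σ γ : L₀ ≃ₐ[K] L₀)
      (ψ₀ : Subgroup.zpowers σ →* ℂˣ),
      DLeaf k t σ γ ∧ Function.Injective ψ₀ ∧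
      A = (Subgroup.zpowers σ).comap
        (AlgEquiv.restrictNormalHom L₀ : (L ≃ₐ[K] L) →* (L₀ ≃ₐ[K] L₀)) ∧
      ∀ (a : A) (b : Subgroup.zpowers σ),
        (b : L₀ ≃ₐ[K] L₀) = AlgEquiv.restrictNormalHom L₀ (a : L ≃ₐ[K] L) → ψ a = ψ₀ b

/-! ### Change of the base field -/

/-- DRT (about 60 lines).  PROOF. By `SREG.mem_homG` the two subspaces `homG T (linRep ψ₁)` and
`homG T (linRep ψ₂)` of `Module.Dual ℂ ℂ →ₗ[ℂ] XC L T` are equal (`actC` depends only on the ring automorphism), so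
`Reg` is the same (a lemma for two equal submodules, by `subst`). -/
def Stmt_DRT : Prop :=
  ∀ (K₁ K₂ L : Type) [Field K₁] [NumberField K₁] [Field K₂] [NumberField K₂] [Field L]
    [NumberField L] [Algebra K₁ L] [Algebra K₂ L]
    (T : Set (HeightOneSpectrum (𝓞 L))) (ψ₁ : (L ≃ₐ[K₁] L) →* ℂˣ) (ψ₂ : (L ≃ₐ[K₂] L) →* ℂˣ)
    (Θ : XC L T →ₗ[ℂ] XC L T),
    (∀ g₁ : L ≃ₐ[K₁] L, ∃ g₂ : L ≃ₐ[K₂] L, (∀ x, g₂ x = g₁ x) ∧ ψ₂ g₂ = ψ₁ g₁) →
    (∀ g₂ : L ≃ₐ[K₂] L, ∃ g₁ : L ≃ₐ[K₁] L, (∀ x, g₂ x = g₁ x) ∧ ψ₂ g₂ = ψ₁ g₁) →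
    Reg T (linRep ψ₁) Θ = Reg T (linRep ψ₂) Θ

/-- DLL (about 80 lines).  PROOF. `ALLT.lb` and `ALLT.lc` (`Stmt_LB`, `Stmt_LC`, `Stark/Stmts.lean`) over `K` and over
the fixed field of `B`: both sides are the same sum over the primes of `L`, as `FrobPow` depends only on
the map and `|A| = |A'|`. -/
def Stmt_DLL : Prop :=
  ∀ (K L : Type) [Field K] [NumberField K] [Field L] [NumberField L] [Algebra K L] [IsGalois K L]
    (B A : Subgroup (L ≃ₐ[K] L)) (ψ : A →* ℂˣ)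
    (A' : Subgroup (L ≃ₐ[IntermediateField.fixedField B] L)) (ψ' : A' →* ℂˣ)
    (S : Set (HeightOneSpectrum (𝓞 K)))
    (S' : Set (HeightOneSpectrum (𝓞 (IntermediateField.fixedField B)))) (s : ℂ), 1 < s.re →
    A ≤ B → aboveSet (IntermediateField.fixedField B) L S' = aboveSet K L S →
    (∀ x : L ≃ₐ[IntermediateField.fixedField B] L, x ∈ A' ↔ x.restrictScalars K ∈ A) →
    (∀ (x : A') (y : A), (y : L ≃ₐ[K] L) =
      (x : L ≃ₐ[IntermediateField.fixedField B] L).restrictScalars K → ψ' x = ψ y) →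
    logL (indFun A (extZ ψ)) S s = logL (indFun A' (extZ ψ')) S' s

/-- DLV (about 120 lines).  PROOF. `S'` with `aboveSet M L S' = aboveSet K L S`, `M = fixedField B`
(`IND.exists_S'`; transport as in `PCXx.vv_of`), `IND.isPhiTheta_sub`.  The regulators agree by DRT for the fixed
fields of `A` and of `A'` (the elements of both Galois groups are the elements of `A`; `liftChar` and
`subgroupEquivAlgEquiv`), the `L`-functions by DLL and `IND.logL_sum` (`A'` and `ψ'^j`, `ψ^j`). -/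
def Stmt_DLV : Prop :=
  Stmt_DRT → Stmt_DLL →
  ∀ (K L : Type) [Field K] [NumberField K] [Field L] [NumberField L] [Algebra K L] [IsGalois K L]
    (B A : Subgroup (L ≃ₐ[K] L)) (ψ : A →* ℂˣ)
    (A' : Subgroup (L ≃ₐ[IntermediateField.fixedField B] L)) (ψ' : A' →* ℂˣ) (k t : ℕ)
    (S : Finset (HeightOneSpectrum (𝓞 K))), A ≤ B →
    (∀ x : L ≃ₐ[IntermediateField.fixedField B] L, x ∈ A' ↔ x.restrictScalars K ∈ A) →
    (∀ (x : A') (y : A), (y : L ≃ₐ[K] L) =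
      (x : L ≃ₐ[IntermediateField.fixedField B] L).restrictScalars K → ψ' x = ψ y) →
    (∀ S' : Finset (HeightOneSpectrum (𝓞 (IntermediateField.fixedField B))),
      PD2all k t A' ψ' S') → PD2all k t A ψ S

/-- DBB (about 120 lines).  PROOF. `B = A ∪ g A`, a subgroup (`a g = g (g⁻¹ a g)`, `g g ∈ A`, `g⁻¹ ∈ g A`).  `A'`, `ψ'`, `g'` by
`IntermediateField.subgroupEquivAlgEquiv B` (an isomorphism of `B` with the Galois group over the fixed
field; `restrictScalars` is its inverse followed by the inclusion). -/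
def Stmt_DBB : Prop :=
  ∀ (K L : Type) [Field K] [NumberField K] [Field L] [NumberField L] [Algebra K L] [IsGalois K L]
    (A : Subgroup (L ≃ₐ[K] L)) (ψ : A →* ℂˣ) (g : L ≃ₐ[K] L) (k t : ℕ), Leaf A ψ g k 1 t →
    ∃ (B : Subgroup (L ≃ₐ[K] L)) (A' : Subgroup (L ≃ₐ[IntermediateField.fixedField B] L))
      (ψ' : A' →* ℂˣ) (g' : L ≃ₐ[IntermediateField.fixedField B] L),
      A ≤ B ∧ Leaf A' ψ' g' k 1 t ∧
      (∀ x : L ≃ₐ[IntermediateField.fixedField B] L, x ∈ A' ∨ g'⁻¹ * x ∈ A') ∧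
      (∀ x : L ≃ₐ[IntermediateField.fixedField B] L, x ∈ A' ↔ x.restrictScalars K ∈ A) ∧
      ∀ (x : A') (y : A), (y : L ≃ₐ[K] L) =
        (x : L ≃ₐ[IntermediateField.fixedField B] L).restrictScalars K → ψ' x = ψ y

/-- The property for all data. -/
def ConclPD : Prop :=
  ∀ (K L : Type) [Field K] [NumberField K] [Field L] [NumberField L] [Algebra K L] [IsGalois K L]
    (A : Subgroup (L ≃ₐ[K] L)) (ψ : A →* ℂˣ) (g : L ≃ₐ[K] L) (k t : ℕ), 3 ≤ k →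
    Leaf A ψ g k 1 t → ∀ S : Finset (HeightOneSpectrum (𝓞 K)), PD2all k t A ψ S

/-- DFI (about 60 lines).  PROOF. DBB and DLV: it is enough to prove it over the fixed field of `B`, so if every `x`
is in `A` or in `g A`.  Then DFL and DIF: it is enough to prove it for `L₀`, where it follows by induction
on `S` (`Finset.induction_on`) from the first two hypotheses (the conclusions of DBS and DST). -/
def Stmt_DFI : Prop :=
  (∀ (K L : Type) [Field K] [NumberField K] [Field L] [NumberField L] [Algebra K L] [IsGalois K L]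
    (k t : ℕ) (σ γ : L ≃ₐ[K] L) (ψ : Subgroup.zpowers σ →* ℂˣ), DLeaf k t σ γ →
    Function.Injective ψ →
    PD2all k t (Subgroup.zpowers σ) ψ (∅ : Finset (HeightOneSpectrum (𝓞 K)))) →
  (∀ (K L : Type) [Field K] [NumberField K] [Field L] [NumberField L] [Algebra K L] [IsGalois K L]
    (k t : ℕ) (σ γ : L ≃ₐ[K] L) (ψ : Subgroup.zpowers σ →* ℂˣ), DLeaf k t σ γ →
    Function.Injective ψ →
    ∀ (S : Finset (HeightOneSpectrum (𝓞 K))) (v : HeightOneSpectrum (𝓞 K)), v ∉ S →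
      PD2all k t (Subgroup.zpowers σ) ψ S → PD2all k t (Subgroup.zpowers σ) ψ (insert v S)) →
  ConclDPH → Stmt_DIF → Stmt_DFL → Stmt_DRT → Stmt_DLL → Stmt_DLV → Stmt_DBB → ConclPD

/-! ### Signs, the end -/

/-- DP2 (about 100 lines; model: `ABS/DPO.lean`).  PROOF. `E = EF2 k t` (a number field: it is contained in
`rootField (2 ^ k)`, of finite degree, `RESFx.finrank_cyc`); `ζ - ζ⁻¹ ∈ E` for a primitive `2 ^ k`-th root of unity `ζ`
(`ζ ^ t = - ζ⁻¹`).  In every embedding `φ : E → ℂ` the number `y = φ (ζ - ζ⁻¹)` is not real: `φ` extends to `rootField (2 ^ k)`, so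
`y = w - w⁻¹` with `w` a primitive root of unity, `y = w - conj w ≠ 0` is purely imaginary.  So `E` is totally
complex, `ABS.POS.norm_pos`. -/
def Stmt_DP2 : Prop :=
  ∀ k t : ℕ, 3 ≤ k → (t + 1) % 2 ^ k = 2 ^ (k - 1) → ∀ α : EF2 k t, α ≠ 0 →
    0 < Algebra.norm ℚ α

/-- DPS (about 100 lines).  PROOF. DI4 and `INDP.reg_comb` (see `PCX.lean`): `Reg ρ` is the product over the odd
`j < 2 ^ k / 4` of `R(liftChar A (ψ^j)) R(liftChar A (ψ⁻¹^j))`, `liftChar A (ψ⁻¹ ^ j) = (liftChar A (ψ ^ j))⁻¹`, and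
REGC over the fixed field of `A` (transport of the set as in `PCXx.vv_of`): the second factor is the complex
conjugate of the first.  The factors are not zero (`StarkG.reg_ne_zero`, or as `Reg ρ ≠ 0`). -/
def Stmt_DPS : Prop :=
  Stmt_DI4 → Stmt_REGC →
  ∀ (K L : Type) [Field K] [NumberField K] [Field L] [NumberField L] [Algebra K L] [IsGalois K L]
    (S : Finset (HeightOneSpectrum (𝓞 K)))
    (φ : XQ L (aboveSet K L S) ≃ₗ[ℚ] QU L (aboveSet K L S))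
    (Θ : XC L (aboveSet K L S) →ₗ[ℂ] XC L (aboveSet K L S))
    (A : Subgroup (L ≃ₐ[K] L)) (ψ : A →* ℂˣ) (g : L ≃ₐ[K] L) (k t : ℕ), 3 ≤ k →
    Leaf A ψ g k 1 t → (t + 1) % 2 ^ k = 2 ^ (k - 1) → IsPhiTheta K (aboveSet K L S) φ Θ →
    ∀ (V : Type) [AddCommGroup V] [Module ℂ V] [Module.Finite ℂ V]
      (ρ : Representation ℂ (L ≃ₐ[K] L) V), (∀ g, ρ.character g = lfun k A ψ g) →
      ∃ r : ℝ, 0 < r ∧ Reg (aboveSet K L S) ρ Θ = (r : ℂ)

/-- DRE (about 40 lines).  PROOF. `RGT_thm RTR_thm` for both representations and `PHIR.det_conj TRD_thm` with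
`RingEquiv.refl ℂ` (as in `REGC.lean`). -/
def Stmt_DRE : Prop :=
  ∀ (K L : Type) [Field K] [NumberField K] [Field L] [NumberField L] [Algebra K L] [IsGalois K L]
    (S : Finset (HeightOneSpectrum (𝓞 K)))
    (φ : XQ L (aboveSet K L S) ≃ₗ[ℚ] QU L (aboveSet K L S))
    (Θ : XC L (aboveSet K L S) →ₗ[ℂ] XC L (aboveSet K L S)),
    IsPhiTheta K (aboveSet K L S) φ Θ →
    ∀ (V V' : Type) [AddCommGroup V] [Module ℂ V] [Module.Finite ℂ V] [AddCommGroup V']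
      [Module ℂ V'] [Module.Finite ℂ V'] (ρ : Representation ℂ (L ≃ₐ[K] L) V)
      (ρ' : Representation ℂ (L ≃ₐ[K] L) V'), (∀ g, ρ.character g = ρ'.character g) →
      Reg (aboveSet K L S) ρ Θ = Reg (aboveSet K L S) ρ' Θ

/-- THEOREM (D). -/
def ConclD : Prop :=
  ∀ (K L : Type) [Field K] [NumberField K] [Field L] [NumberField L] [Algebra K L] [IsGalois K L]
    (S : Finset (HeightOneSpectrum (𝓞 K)))
    (φ : XQ L (aboveSet K L S) ≃ₗ[ℚ] QU L (aboveSet K L S))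
    (Θ : XC L (aboveSet K L S) →ₗ[ℂ] XC L (aboveSet K L S))
    (A : Subgroup (L ≃ₐ[K] L)) (ψ : A →* ℂˣ) (g : L ≃ₐ[K] L) (k t : ℕ), 3 ≤ k →
    Leaf A ψ g k 1 t → IsPhiTheta K (aboveSet K L S) φ Θ → PE (EF2 k t) (lfun k A ψ) S Θ

/-- DPE (about 120 lines).  PROOF. `F`, `α`, `r` from ConclPD.  For every `ρ` with character `lfun k A ψ`:
`Reg(ρ)² = ∏_{j ∈ Ex n} R(ψ^j)` (`INDP.reg_comb` with `M = 2`, see `PCX.lean`), so `Reg(ρ)² = (N(α) r)²` and
`Reg(ρ) = ± N(α) r`.  Semidihedral case: `Reg(ρ) > 0` (DPS) and `N(α) > 0` (DP2): the sign is `+`.  Case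
`(t + 1) % 2 ^ k = 0`: if the sign is `-` for one `ρ` then for all (DRE), and `α` is replaced by `α β`,
`N(β) = -1` (DTW). -/
def Stmt_DPE : Prop :=
  ConclPD → ConclDTW → Stmt_DP2 → Stmt_DI4 → Stmt_REGC → Stmt_DPS → Stmt_DRE → ConclD

end StarkC.ABS
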