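import Pool.Agent.ABS.StZI
import Pool.Agent.ABS.SPB
import Pool.Agent.ABS.SCY

/-!
# Project ABS, part Z, module ZCB (helper40): the cochains from a norm
-/

set_option autoImplicit false

open scoped Classical

namespace StarkC.ABS

open StarkP (rootField)

namespace ZCBx

section units

variable {n s : ℕ}

theorem two_pow_zero (n : ℕ) : (2 : ZMod (2 ^ n)) ^ n = 0 := by
  have h := ZMod.natCast_self (2 ^ n)
  push_cast at h
  exact h

theorem sq_one (h3 : 3 ≤ n) (hc : (s : ZMod (2 ^ n)) = -1 ∨ (s : ZMod (2 ^ n)) = -1 + 2 ^ (n - 1)) :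
    (s : ZMod (2 ^ n)) * s = 1 := by
  have h0 := two_pow_zero n
  rcases hc with h | h
  · rw [h]
    ring
  · rw [h]
    have h1 : (-1 + (2 : ZMod (2 ^ n)) ^ (n - 1)) * (-1 + 2 ^ (n - 1)) =
        1 - 2 * 2 ^ (n - 1) + 2 ^ (n - 1) * 2 ^ (n - 1) := by ring
    have h2 : (2 : ZMod (2 ^ n)) * 2 ^ (n - 1) = 0 := by
      rw [← pow_succ', Nat.sub_add_cancel (by omega)]
      exact h0
    have h4 : (2 : ZMod (2 ^ n)) ^ (n - 1) * 2 ^ (n - 1) = 0 := by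
      have h5 : n - 1 + (n - 1) = n + (n - 2) := by omega
      rw [← pow_add, h5, pow_add, h0, zero_mul]
    rw [h1, h2, h4]
    ring

theorem ne_one (h3 : 3 ≤ n) (hc : (s : ZMod (2 ^ n)) = -1 ∨ (s : ZMod (2 ^ n)) = -1 + 2 ^ (n - 1)) :
    (s : ZMod (2 ^ n)) ≠ 1 := by
  intro h
  have h2 : ∀ m : ℕ, 0 < m → m < 2 ^ n → (m : ZMod (2 ^ n)) ≠ 0 := by
    intro m hm hlt h
    rw [ZMod.natCast_eq_zero_iff] at h
    exact absurd (Nat.le_of_dvd hm h) (by omega)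
  have h4 : 2 ^ 2 ≤ 2 ^ (n - 1) := Nat.pow_le_pow_right two_pos (by omega)
  have h5 : 2 ^ n = 2 * 2 ^ (n - 1) := by
    rw [← pow_succ', Nat.sub_add_cancel (by omega)]
  rcases hc with h' | h'
  · apply h2 2 two_pos (by omega)
    have h6 : (1 : ZMod (2 ^ n)) = -1 := h.symm.trans h'
    push_cast
    linear_combination h6
  · apply h2 (2 ^ (n - 1) - 2) (by omega) (by omega)
    have h6 : (1 : ZMod (2 ^ n)) = -1 + 2 ^ (n - 1) := h.symm.trans h'
    rw [Nat.cast_sub (by omega)]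
    push_cast
    linear_combination -h6

end units

section fields

variable {n s : ℕ}

theorem inst (n : ℕ) : IsCyclotomicExtension {2 ^ n} ℚ (CyclotomicField (2 ^ n) ℚ) := by
  have : NeZero (((2 ^ n : ℕ) : ℚ)) := NeZero.charZero
  exact CyclotomicField.isCyclotomicExtension (2 ^ n) ℚ

theorem ext_hom (f g : CyclotomicField (2 ^ n) ℚ →+* ℂ) (ζ : CyclotomicField (2 ^ n) ℚ)
    (hζ : IsPrimitiveRoot ζ (2 ^ n)) (h : f ζ = g ζ) : f = g := by
  have hcy := inst n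
  have h1 : f.toRatAlgHom = g.toRatAlgHom := by
    refine (hζ.powerBasis ℚ).algHom_ext ?_
    rw [IsPrimitiveRoot.powerBasis_gen ℚ hζ]
    exact h
  ext x
  exact DFunLike.congr_fun h1 x

theorem mem_root (ι : CyclotomicField (2 ^ n) ℚ →+* ℂ) (x : CyclotomicField (2 ^ n) ℚ) :
    ι x ∈ rootField (2 ^ n) := by
  have hcy := inst n
  have hζ := IsCyclotomicExtension.zeta_spec (2 ^ n) ℚ (CyclotomicField (2 ^ n) ℚ)
  obtain ⟨p, hp⟩ := (hζ.powerBasis ℚ).exists_eq_aeval' x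
  rw [IsPrimitiveRoot.powerBasis_gen ℚ hζ] at hp
  have h1 : ι x = Polynomial.aeval (ι (IsCyclotomicExtension.zeta (2 ^ n) ℚ
      (CyclotomicField (2 ^ n) ℚ))) p := by
    have h2 := Polynomial.aeval_algHom_apply ι.toRatAlgHom (IsCyclotomicExtension.zeta (2 ^ n) ℚ
      (CyclotomicField (2 ^ n) ℚ)) p
    rw [hp]
    exact h2.symm
  have h3 : ι (IsCyclotomicExtension.zeta (2 ^ n) ℚ (CyclotomicField (2 ^ n) ℚ)) ∈
      rootField (2 ^ n) := by
    refine IntermediateField.subset_adjoin ℚ _ ?_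
    show (ι (IsCyclotomicExtension.zeta (2 ^ n) ℚ (CyclotomicField (2 ^ n) ℚ))) ^ (2 ^ n) = 1
    rw [← map_pow, hζ.pow_eq_one, map_one]
  rw [h1]
  exact Algebra.adjoin_le (S := (rootField (2 ^ n)).toSubalgebra) (Set.singleton_subset_iff.2 h3)
    (Polynomial.aeval_mem_adjoin_singleton ℚ _)

variable {E : Type} [Field E] [NumberField E] [Algebra E (CyclotomicField (2 ^ n) ℚ)]
  {τ : CyclotomicField (2 ^ n) ℚ ≃ₐ[E] CyclotomicField (2 ^ n) ℚ}

theorem conj (ht : _root_.ABS.FD n s E τ) (ι : CyclotomicField (2 ^ n) ℚ →+* ℂ) (h : ℂ ≃+* ℂ)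
    (hh : ((cych (2 ^ n) h : (ZMod (2 ^ n))ˣ) : ZMod (2 ^ n)) = s)
    (x : CyclotomicField (2 ^ n) ℚ) : h (ι x) = ι (τ x) := by
  have hcy := inst n
  have hζ := IsCyclotomicExtension.zeta_spec (2 ^ n) ℚ (CyclotomicField (2 ^ n) ℚ)
  have e : (h : ℂ →+* ℂ).comp ι =
      ι.comp (τ : CyclotomicField (2 ^ n) ℚ →+* CyclotomicField (2 ^ n) ℚ) := by
    refine ext_hom _ _ _ hζ ?_
    show h (ι _) = ι (τ _)
    have h1 : (ι (IsCyclotomicExtension.zeta (2 ^ n) ℚ (CyclotomicField (2 ^ n) ℚ))) ^ (2 ^ n) =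
        1 := by
      rw [← map_pow, hζ.pow_eq_one, map_one]
    rw [SCYx.spec (2 ^ n) h _ h1, hh, ht.act _ hζ.pow_eq_one, map_pow, ZMod.val_natCast]
    exact (pow_eq_pow_mod s h1).symm
  exact DFunLike.congr_fun e x

theorem same (hS : Stmt_SCY) (ht : _root_.ABS.FD n s E τ) (ι : CyclotomicField (2 ^ n) ℚ →+* ℂ)
    (u : (ZMod (2 ^ n))ˣ) (hu : (u : ZMod (2 ^ n)) = s) (g g' : ℂ ≃+* ℂ)
    (h : (QuotientGroup.mk (cych (2 ^ n) g) : (ZMod (2 ^ n))ˣ ⧸ Subgroup.zpowers u) =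
      QuotientGroup.mk (cych (2 ^ n) g')) (e : E) :
    g (ι (algebraMap E _ e)) = g' (ι (algebraMap E _ e)) := by
  obtain ⟨h1, h2, h3, _⟩ := hS (2 ^ n)
  obtain ⟨c, hc⟩ := h1 u
  have hcy : c (ι (algebraMap E _ e)) = ι (algebraMap E _ e) := by
    rw [conj ht ι c (by rw [hc, hu]), AlgEquiv.commutes]
  rw [QuotientGroup.eq] at h
  obtain ⟨k, hk⟩ := Subgroup.mem_zpowers_iff.1 h
  have h5 : cych (2 ^ n) g' = cych (2 ^ n) (g * c ^ k) := by
    rw [map_mul, map_zpow, hc, hk]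
    group
  have h6 : c ∈ MulAction.stabilizer (ℂ ≃+* ℂ) (ι (algebraMap E _ e)) := hcy
  have h7 : (c ^ k) (ι (algebraMap E _ e)) = ι (algebraMap E _ e) := zpow_mem h6 k
  have h8 := h2 g' _ h5 _ (mem_root ι (algebraMap E _ e))
  rw [h8]
  show g _ = g ((c ^ k) _)
  rw [h7]

theorem algE (ι : CyclotomicField (2 ^ n) ℚ →+* ℂ) (hS : Stmt_SCY)
    (ht : _root_.ABS.FD n s E τ) (u : (ZMod (2 ^ n))ˣ) (hu : (u : ZMod (2 ^ n)) = s)
    (hu2 : orderOf u = 2) (γ : (ZMod (2 ^ n))ˣ ⧸ Subgroup.zpowers u → (ℂ ≃+* ℂ))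
    (hγ : ∀ q, (QuotientGroup.mk (cych (2 ^ n) (γ q)) : (ZMod (2 ^ n))ˣ ⧸ Subgroup.zpowers u) = q)
    (α : E) : ((Algebra.norm ℚ α : ℚ) : ℂ) = ∏ q, γ q (ι (algebraMap E _ α)) := by
  have hcy := inst n
  have hζ := IsCyclotomicExtension.zeta_spec (2 ^ n) ℚ (CyclotomicField (2 ^ n) ℚ)
  have h1 : ((Algebra.norm ℚ α : ℚ) : ℂ) = ∏ f : E →ₐ[ℚ] ℂ, f α := by
    rw [← Algebra.norm_eq_prod_embeddings ℚ ℂ α, eq_ratCast]
  rw [h1]
  have hfin : FiniteDimensional E (CyclotomicField (2 ^ n) ℚ) := by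
    refine FiniteDimensional.of_finrank_pos ?_
    rw [ht.rank]
    exact two_pos
  let Φ : (ZMod (2 ^ n))ˣ ⧸ Subgroup.zpowers u → (E →ₐ[ℚ] ℂ) := fun q =>
    ((γ q : ℂ →+* ℂ).comp (ι.comp (algebraMap E (CyclotomicField (2 ^ n) ℚ)))).toRatAlgHom
  have hsur : Function.Surjective Φ := by
    intro f
    let _ : Algebra E ℂ := f.toRingHom.toAlgebra
    let F : CyclotomicField (2 ^ n) ℚ →ₐ[E] ℂ := IsAlgClosed.lift
    have hF : ∀ e : E, F (algebraMap E _ e) = f e := fun e => F.commutes e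
    have hz : IsPrimitiveRoot (F (IsCyclotomicExtension.zeta (2 ^ n) ℚ
        (CyclotomicField (2 ^ n) ℚ))) (2 ^ n) :=
      hζ.map_of_injective (f := F) F.toRingHom.injective
    have hz' : IsPrimitiveRoot (ι (IsCyclotomicExtension.zeta (2 ^ n) ℚ
        (CyclotomicField (2 ^ n) ℚ))) (2 ^ n) :=
      hζ.map_of_injective (f := ι) ι.injective
    obtain ⟨t, ht', hc, he⟩ := hz'.isPrimitiveRoot_iff.1 hz
    obtain ⟨g, hg⟩ := (hS (2 ^ n)).1 (ZMod.unitOfCoprime t hc)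
    have e1 : (g : ℂ →+* ℂ).comp ι = (F : CyclotomicField (2 ^ n) ℚ →+* ℂ) := by
      refine ext_hom _ _ _ hζ ?_
      show g (ι _) = F _
      rw [SCYx.spec (2 ^ n) g _ hz'.pow_eq_one, hg, ZMod.coe_unitOfCoprime, ZMod.val_natCast,
        Nat.mod_eq_of_lt ht', he]
    refine ⟨QuotientGroup.mk (cych (2 ^ n) g), ?_⟩
    ext e
    show γ (QuotientGroup.mk (cych (2 ^ n) g)) (ι (algebraMap E _ e)) = f e
    rw [same hS ht ι u hu _ g (hγ _) e, ← hF e]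
    exact DFunLike.congr_fun e1 (algebraMap E _ e)
  have hcard : Fintype.card ((ZMod (2 ^ n))ˣ ⧸ Subgroup.zpowers u) =
      Fintype.card (E →ₐ[ℚ] ℂ) := by
    have c1 := Subgroup.card_eq_card_quotient_mul_card_subgroup (Subgroup.zpowers u)
    rw [Nat.card_zpowers, hu2, Nat.card_eq_fintype_card, Nat.card_eq_fintype_card,
      ZMod.card_units_eq_totient] at c1
    have c2 := IsCyclotomicExtension.finrank (n := 2 ^ n) (CyclotomicField (2 ^ n) ℚ)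
      (Polynomial.cyclotomic.irreducible_rat (n := 2 ^ n) (by positivity))
    have c3 := Module.finrank_mul_finrank ℚ E (CyclotomicField (2 ^ n) ℚ)
    rw [ht.rank, c2] at c3
    rw [AlgHom.card]
    omega
  have hbij : Function.Bijective Φ := (Fintype.bijective_iff_surjective_and_card Φ).2
    ⟨hsur, hcard⟩
  exact (hbij.prod_comp (fun f : E →ₐ[ℚ] ℂ => f α)).symm

end fields

end ZCBx

open ZCBx SPBx in
theorem ZCB_thm : Stmt_ZCB := by
  rintro hS n s a ⟨E, _, _, _, τ, ht, α, hα, hn⟩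
  have ha : a ≠ 0 := by
    rw [← hn]
    exact Algebra.norm_ne_zero_iff.2 hα
  refine ⟨ha, fun d _ κ hκ => ?_⟩
  have hss := sq_one ht.k3 ht.cases
  let u : (ZMod (2 ^ n))ˣ := ⟨(s : ZMod (2 ^ n)), (s : ZMod (2 ^ n)), hss, hss⟩
  have hu : (u : ZMod (2 ^ n)) = s := rfl
  have hu2 : orderOf u = 2 := by
    refine orderOf_eq_prime ?_ fun h => ne_one ht.k3 ht.cases (congrArg Units.val h)
    rw [pow_two]
    exact Units.ext hss
  have hκu : κ u = 1 := hκ u rfl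
  have hcy := inst n
  let ι0 : CyclotomicField (2 ^ n) ℚ →ₐ[ℚ] ℂ := IsAlgClosed.lift
  let ι : CyclotomicField (2 ^ n) ℚ →+* ℂ := ι0
  obtain ⟨h1, h2, h3, _⟩ := hS (2 ^ n)
  have hex : ∀ q : (ZMod (2 ^ n))ˣ ⧸ Subgroup.zpowers u, ∃ g : ℂ ≃+* ℂ,
      (QuotientGroup.mk (cych (2 ^ n) g) : (ZMod (2 ^ n))ˣ ⧸ Subgroup.zpowers u) = q := by
    intro q
    obtain ⟨w, rfl⟩ := QuotientGroup.mk_surjective q
    obtain ⟨g, hg⟩ := h1 w
    exact ⟨g, by rw [hg]⟩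
  choose γ hγ using hex
  have hnorm : (a : ℂ) = ∏ q, γ q (ι (algebraMap E _ α)) := by
    rw [← algE ι hS ht u hu hu2 γ hγ α, hn]
  set y : ℂ := ι (algebraMap E _ α) with hy
  have hy0 : y ≠ 0 := by
    rw [hy, Ne, map_eq_zero_iff _ ι.injective,
      map_eq_zero_iff _ (algebraMap E (CyclotomicField (2 ^ n) ℚ)).injective]
    exact hα
  have hym : y ∈ rootField (2 ^ n) := mem_root ι _
  have hle : ∀ x ∈ Subgroup.zpowers u, κ x = 1 := by
    intro x hx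
    obtain ⟨k, rfl⟩ := Subgroup.mem_zpowers_iff.1 hx
    rw [map_zpow, hκu, one_zpow]
  let κ' : (ZMod (2 ^ n))ˣ ⧸ Subgroup.zpowers u →* Multiplicative (ZMod d) :=
    QuotientGroup.lift (Subgroup.zpowers u) κ hle
  let v : (ZMod (2 ^ n))ˣ ⧸ Subgroup.zpowers u → ℕ := fun q => (Multiplicative.toAdd (κ' q)).val
  have hv : ∀ w, v (QuotientGroup.mk w) = vl κ w := fun w => rfl
  have hvlt : ∀ q, v q < d := fun q => ZMod.val_lt _
  have hvmul : ∀ q q', v (q * q') = (v q + v q') % d := by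
    intro q q'
    show (Multiplicative.toAdd (κ' (q * q'))).val = _
    rw [map_mul, toAdd_mul, ZMod.val_add]
  have hf : ∀ (g : ℂ ≃+* ℂ) (q : (ZMod (2 ^ n))ˣ ⧸ Subgroup.zpowers u), g (γ q y) =
      γ ((QuotientGroup.mk (cych (2 ^ n) g) : (ZMod (2 ^ n))ˣ ⧸ Subgroup.zpowers u) * q) y := by
    intro g q
    refine same hS ht ι u hu (g * γ q) _ ?_ α
    rw [map_mul, QuotientGroup.mk_mul, hγ, hγ]
  refine ⟨fun w => ∏ q, γ q y ^ (if v q < vl κ w then 1 else 0), ?_, ?_⟩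
  · intro w
    refine ⟨prod_mem fun q _ => pow_mem (h3 _ _ hym) _, ?_⟩
    refine Finset.prod_ne_zero_iff.2 fun q _ => pow_ne_zero _ ?_
    rw [Ne, map_eq_zero_iff _ (γ q).injective]
    exact hy0
  · intro g w
    show (∏ q, γ q y ^ (if v q < vl κ (cych (2 ^ n) g) then 1 else 0)) *
      g (∏ q, γ q y ^ (if v q < vl κ w then 1 else 0)) =
      (∏ q, γ q y ^ (if v q < vl κ (cych (2 ^ n) g * w) then 1 else 0)) *
        (a : ℂ) ^ ((vl κ (cych (2 ^ n) g) + vl κ w) / d)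
    have e1 : ∀ e : (ZMod (2 ^ n))ˣ ⧸ Subgroup.zpowers u → ℕ, ∏ q, γ q y ^ e q =
        ∏ q, γ ((QuotientGroup.mk (cych (2 ^ n) g) : (ZMod (2 ^ n))ˣ ⧸ Subgroup.zpowers u) * q) y ^
          e ((QuotientGroup.mk (cych (2 ^ n) g) : (ZMod (2 ^ n))ˣ ⧸ Subgroup.zpowers u) * q) :=
      fun e => (Equiv.prod_comp (Equiv.mulLeft
        (QuotientGroup.mk (cych (2 ^ n) g) : (ZMod (2 ^ n))ˣ ⧸ Subgroup.zpowers u))
        (fun q => γ q y ^ e q)).symm
    rw [e1 (fun q => if v q < vl κ (cych (2 ^ n) g) then 1 else 0),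
      e1 (fun q => if v q < vl κ (cych (2 ^ n) g * w) then 1 else 0), map_prod, hnorm,
      ← Finset.prod_pow, e1 (fun _ => (vl κ (cych (2 ^ n) g) + vl κ w) / d),
      ← Finset.prod_mul_distrib, ← Finset.prod_mul_distrib]
    refine Finset.prod_congr rfl fun q _ => ?_
    rw [map_pow, hf, ← pow_add, ← pow_add]
    congr 1
    rw [hvmul, hv, vl_mul κ (cych (2 ^ n) g) w]
    exact count (vl_lt κ _) (hvlt _) (vl_lt κ _)

end StarkC.ABS
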