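import Pool.Agent.ABS.StZI
import Pool.Agent.ABS.SFF

/-!
# Norms from cyclic subfields of `ℚ(ζ_N)`: the end, with a weaker hypothesis
-/

set_option autoImplicit false

open scoped Classical

namespace StarkC.ABS

open StarkP (rootField)

namespace ZCFx

theorem eq_one {n d : ℕ} [NeZero d] (κ : (ZMod n)ˣ →* Multiplicative (ZMod d)) (u : (ZMod n)ˣ)
    (h : vl κ u = 0) : κ u = 1 := by
  have h1 : Multiplicative.toAdd (κ u) = 0 := (ZMod.val_eq_zero _).1 h
  exact h1

end ZCFx

/-- ZCF. -/
theorem ZCF_thm : Stmt_ZCF := by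
  intro hY hH hK n _ a F ha hall hF hG hC
  have hn : 0 < n := Nat.pos_of_ne_zero (NeZero.ne n)
  have hfd : FiniteDimensional ℚ F := by
    have h1 := SFFx.finite_root n hn
    exact Module.Finite.of_injective (IntermediateField.inclusion hF).toLinearMap
      (IntermediateField.inclusion hF).injective
  have hpos : 0 < Module.finrank ℚ F := Module.finrank_pos
  by_cases h1 : Module.finrank ℚ F = 1
  · refine ⟨algebraMap ℚ F a, ?_⟩
    rw [Algebra.norm_algebraMap, h1, pow_one]
  have hd : 1 < Module.finrank ℚ F := by omega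
  obtain ⟨κ, g, hg1, hfix, hnorm⟩ := hK hY n F hF hG hC hd
  have hne : NeZero (Module.finrank ℚ F) := ⟨by omega⟩
  generalize hdd : Module.finrank ℚ F = d at *
  obtain ⟨b, hb0, hb1, hb2, hb3⟩ := hH hY n d a κ ha
    (hall d κ fun h hh => ZCFx.eq_one κ (cych n h) (hfix h hh))
  set u := cych n g with hu
  have hyF : b u ∈ F := by
    have h2 : b u ∈ F.toSubfield := SFFx.core F.toSubfield (b u) fun σ hσ =>
      hb3 σ u (hfix σ fun x hx => hσ x hx)
    exact h2
  have hind : ∀ j : ℕ, j < d → ∏ i ∈ Finset.range j, (g ^ i) (b u) = b (u ^ j) := by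
    intro j
    induction j with
    | zero =>
      intro _
      rw [Finset.prod_range_zero, pow_zero, hb2 1]
      have h3 := SFFx.vl_pow κ u hg1 0
      rw [pow_zero, Nat.zero_mod] at h3
      exact h3
    | succ j ih =>
      intro hj
      rw [SFFx.prod_succ, ih (by omega), hu, hb1 g (u ^ j), ← hu, hg1,
        SFFx.vl_pow κ u hg1 j, Nat.mod_eq_of_lt (by omega : j < d),
        Nat.div_eq_of_lt (by omega : 1 + j < d), pow_zero, mul_one, ← pow_succ']
  refine ⟨⟨b u, hyF⟩, ?_⟩
  have h4 := hnorm ⟨b u, hyF⟩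
  have h5 : ∏ i ∈ Finset.range d, (g ^ i) (b u) = (a : ℂ) := by
    obtain ⟨e, he⟩ : ∃ e, d = e + 1 := ⟨d - 1, by omega⟩
    have hcarry : (1 + e) / d = 1 := by
      rw [he, add_comm 1 e]
      exact Nat.div_self (by omega)
    have hlast : b (u ^ (e + 1)) = 1 := by
      apply hb2
      rw [SFFx.vl_pow κ u hg1 (e + 1), ← he, Nat.mod_self]
    have h6 := hb1 g (u ^ e)
    rw [← hu, hg1, SFFx.vl_pow κ u hg1 e, Nat.mod_eq_of_lt (by omega : e < d), hcarry,
      ← pow_succ', hlast, one_mul, pow_one] at h6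
    rw [he, SFFx.prod_succ, hind e (by omega), h6]
  rw [h5] at h4
  exact_mod_cast h4

end StarkC.ABS
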