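import Pool.Agent.ABS.StZI

/-!
# Project ABS (MP_46b841_nt), part Z, module ZCK: the cochains of the characters trivial at `s`
-/

set_option autoImplicit false

open NumberField IsDedekindDomain
open scoped TensorProduct Classical

namespace StarkC.ABS

namespace ZCKx

lemma odd_of_TT {n s : ℕ} (h : TT n s) : Odd s := by
  obtain ⟨h2, h⟩ := h
  have hd : 2 ∣ 2 ^ n := dvd_pow_self 2 (by omega)
  have h1 : 2 ∣ (s + 1) % 2 ^ n := by
    rcases h with h | ⟨h3, h⟩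
    · rw [h]
      exact dvd_zero 2
    · rw [h]
      exact dvd_pow_self 2 (by omega)
  have h3 : 2 ∣ s + 1 := (Nat.dvd_mod_iff hd).1 h1
  rcases Nat.even_or_odd s with h4 | h4
  · exfalso
    obtain ⟨k, hk⟩ := h4
    omega
  · exact h4

lemma cop {n m s : ℕ} (h : TT n s) (hs : s % m = 1 % m) : s.Coprime (2 ^ n * m) := by
  apply Nat.Coprime.mul_right
  · exact Nat.Coprime.pow_right n ((Nat.coprime_two_right).2 (odd_of_TT h))
  · have h1 : Nat.ModEq m s 1 := hs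
    have h2 := h1.gcd_eq
    unfold Nat.Coprime
    rw [h2, Nat.gcd_one_left]

end ZCKx

theorem ZCK_thm : Stmt_ZCK := by
  intro hSCY hSNM hSPB hSPM hSPI hSCR hSPA n m s d _ _ a hTT hm hs hCS hnorm κ hκ
  have h2n : NeZero (2 ^ n) := ⟨by positivity⟩
  have hmz : NeZero m := ⟨by
    rintro rfl
    exact (NeZero.ne (2 ^ n * 0)) (Nat.mul_zero _)⟩
  have hcop : (2 ^ n).Coprime m := Nat.Coprime.pow_left n ((Nat.coprime_two_left).2 hm)
  obtain ⟨κ₁, κ₂, hk⟩ := hSCR (2 ^ n) m d hcop κ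
  have h1 : ∀ u : (ZMod (2 ^ n))ˣ, (u : ZMod (2 ^ n)) = (s : ZMod (2 ^ n)) → κ₁ u = 1 := by
    intro u hu
    have h2 := ZCKx.cop hTT hs
    let v : (ZMod (2 ^ n * m))ˣ := ZMod.unitOfCoprime s h2
    have hv : (v : ZMod (2 ^ n * m)) = (s : ZMod (2 ^ n * m)) := ZMod.coe_unitOfCoprime s h2
    have h3 := hκ v hv
    have h4 : ZMod.unitsMap (Nat.dvd_mul_right (2 ^ n) m) v = u := by
      apply Units.ext
      rw [hu, ZMod.unitsMap_val, hv]
      exact ZMod.cast_natCast (Nat.dvd_mul_right (2 ^ n) m) s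
    have h5 : ZMod.unitsMap (Nat.dvd_mul_left m (2 ^ n)) v = 1 := by
      apply Units.ext
      rw [ZMod.unitsMap_val, hv, ZMod.cast_natCast (Nat.dvd_mul_left m (2 ^ n)) s, Units.val_one]
      have h6 : ((s : ℕ) : ZMod m) = ((1 : ℕ) : ZMod m) := (ZMod.natCast_eq_natCast_iff s 1 m).2 hs
      rw [h6, Nat.cast_one]
    rw [hk] at h3
    have h7 : κ₁ (ZMod.unitsMap (Nat.dvd_mul_right (2 ^ n) m) v) *
        κ₂ (ZMod.unitsMap (Nat.dvd_mul_left m (2 ^ n)) v) = 1 := h3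
    rw [h4, h5, map_one, mul_one] at h7
    exact h7
  have hA : Coch (2 ^ n) d a κ₁ := hCS.2 d κ₁ h1
  have hB : Coch m d a κ₂ := hSPA hSCY hSNM hSPB hSPM hSPI hSCR m d a hCS.1 hnorm κ₂
  rw [hk]
  exact hSPM (2 ^ n * m) d a _ _ hCS.1
    (hSPI hSCY (2 ^ n) (2 ^ n * m) d (Nat.dvd_mul_right (2 ^ n) m) a κ₁ hA)
    (hSPI hSCY m (2 ^ n * m) d (Nat.dvd_mul_left m (2 ^ n)) a κ₂ hB)

end StarkC.ABS
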