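import Pool.Agent.ABS.StZI
import Pool.Agent.ABS.SCY

/-!
# ABS, part Z, module ZCL (helper48): the arithmetic from ZCK and ZCF
-/

set_option autoImplicit false

open NumberField IsDedekindDomain
open scoped TensorProduct Classical

namespace StarkC.ABS

open StarkP (rootField)

theorem ZCL_thm : Stmt_ZCL := by
  intro hSCY hSNM hSPB hSPM hSPI hSCR hSPA hSH9 hSKA hZCK hZCF n m s a E hTT hm hs hCS hN hE hG hC
    hfix
  have hm0 : m ≠ 0 := by
    rintro rfl
    exact absurd hm (by decide)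
  have hne : NeZero (2 ^ n * m) := ⟨Nat.mul_ne_zero (by positivity) hm0⟩
  refine hZCF hSCY hSH9 hSKA (2 ^ n * m) a E hCS.1 (fun d _ κ hκ => ?_) hE hG hC
  refine hZCK hSCY hSNM hSPB hSPM hSPI hSCR hSPA n m s d a hTT hm hs hCS hN κ (fun u hu => ?_)
  obtain ⟨σ, hσ⟩ := (hSCY (2 ^ n * m)).1 u
  have h1 : ∀ z : ℂ, z ^ (2 ^ n * m) = 1 → σ z = z ^ s := by
    intro z hz
    rw [SCYx.spec (2 ^ n * m) σ z hz, hσ, hu, ZMod.val_natCast]
    exact (pow_eq_pow_mod s hz).symm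
  have h2 := hκ σ (hfix σ h1)
  rwa [hσ] at h2

end StarkC.ABS
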