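import Pool.Agent.ABS.StZI

/-!
# Project ABS (MP_46b841_nt), part Z: products of the cochains (module ZCM)
-/

set_option autoImplicit false

open NumberField IsDedekindDomain
open scoped TensorProduct Classical

namespace StarkC.ABS

open StarkP (rootField)

namespace ZCMx

/-- products and inverses of cochains -/
theorem coch {n d : ℕ} [NeZero n] (κ : (ZMod n)ˣ →* Multiplicative (ZMod d)) {ι : Type}
    (I : Finset ι) (a : ι → ℚ) (c : ι → ℤ) (h : ∀ i ∈ I, Coch n d (a i) κ) :
    Coch n d (∏ i ∈ I, a i ^ c i) κ := by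
  unfold Coch at h
  choose! b hb1 hb2 using h
  refine ⟨fun u => ∏ i ∈ I, b i u ^ c i, fun u => ⟨?_, ?_⟩, fun g w => ?_⟩
  · exact prod_mem fun i hi => zpow_mem (hb1 i hi u).1 _
  · exact Finset.prod_ne_zero_iff.2 fun i hi => zpow_ne_zero _ (hb1 i hi u).2
  · rw [map_prod, ← Finset.prod_mul_distrib, Rat.cast_prod, ← Finset.prod_pow,
      ← Finset.prod_mul_distrib]
    refine Finset.prod_congr rfl fun i hi => ?_
    rw [map_zpow₀, ← mul_zpow, hb2 i hi g w, mul_zpow, Rat.cast_zpow]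
    congr 1
    rw [← zpow_natCast, ← zpow_natCast, ← zpow_mul, ← zpow_mul, mul_comm]

end ZCMx

theorem ZCM_thm : Stmt_ZCM := by
  intro n s ι I a c h
  refine ⟨Finset.prod_ne_zero_iff.2 fun i hi => zpow_ne_zero _ (h i hi).1, ?_⟩
  intro d _ κ hκ
  exact ZCMx.coch κ I a c fun i hi => (h i hi).2 d κ hκ

end StarkC.ABS
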