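import Pool.Agent.ABS.StZJ
import Pool.Agent.ABS.DEM

/-!
# Project ABS, part Z: from `EF2` to `NoG` (the proof of `DEM_thm`)
-/

set_option autoImplicit false

open scoped Classical

namespace StarkC.ABS

open DEMx

/-- From `EF2` to `NoG`. -/
theorem ZNG_thm : Stmt_ZNG := by
  intro hS k t hk ht α hα
  have hn : (2 : ℕ) ^ k ≠ 0 := by positivity
  have hne : NeZero ((2 : ℕ) ^ k) := ⟨hn⟩
  have hC := COREBx.isCyc (2 ^ k) hn
  obtain ⟨σ, hσ⟩ := hS (2 ^ k) t (Nat.pos_of_ne_zero hn) (coprime hk ht)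
  obtain ⟨τ₀, hτ₀, hord⟩ := exists_tau k t hk ht σ hσ
  have hfd : FiniteDimensional ℚ (Cyc (2 ^ k)) :=
    IsCyclotomicExtension.finiteDimensional {2 ^ k} ℚ _
  have hle : EF2 k t ≤ Cyc (2 ^ k) := fun x hx => hx.1
  have hfE : FiniteDimensional ℚ (EF2 k t) :=
    FiniteDimensional.of_injective (IntermediateField.inclusion hle).toLinearMap
      (IntermediateField.inclusion_injective hle)
  have hNF : NumberField (EF2 k t) := { to_charZero := inferInstance, to_finiteDimensional := by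
                                          convert hfE }
  obtain ⟨e⟩ := exists_equiv (2 ^ k) hn
  let inc : EF2 k t →+* Cyc (2 ^ k) := (IntermediateField.inclusion hle).toRingHom
  have hinc : ∀ r, ((inc r : Cyc (2 ^ k)) : ℂ) = (r : ℂ) := fun r => rfl
  let alg : Algebra (EF2 k t) (CyclotomicField (2 ^ k) ℚ) :=
    ((e.symm : Cyc (2 ^ k) →+* CyclotomicField (2 ^ k) ℚ).comp inc).toAlgebra
  have halg : ∀ r : EF2 k t, algebraMap (EF2 k t) (CyclotomicField (2 ^ k) ℚ) r =
      e.symm (inc r) := fun r => rfl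
  have hfix : ∀ r : EF2 k t, τ₀ (inc r) = inc r := fun r => Subtype.ext (by
    rw [hτ₀, hinc]
    exact ((mem_iff σ hσ (r : ℂ)).1 r.2).2)
  let τ : CyclotomicField (2 ^ k) ℚ ≃ₐ[EF2 k t] CyclotomicField (2 ^ k) ℚ :=
    AlgEquiv.ofRingEquiv (f := e.trans (τ₀.toRingEquiv.trans e.symm)) (fun r => by
      rw [halg]
      show e.symm (τ₀ (e (e.symm (inc r)))) = _
      rw [e.apply_symm_apply, hfix])
  have hτ : ∀ z, τ z = e.symm (τ₀ (e z)) := fun z => rfl
  refine ⟨EF2 k t, inferInstance, hNF, alg, τ, ⟨hk, cases_zmod ht, fun z hz => ?_, ?_⟩, ?_⟩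
  · rw [hτ, RingEquiv.symm_apply_eq, map_pow]
    apply Subtype.ext
    rw [hτ₀]
    have h1 : ((e z : Cyc (2 ^ k)) : ℂ) ^ (2 ^ k) = 1 := by
      have h2 : (e z) ^ (2 ^ k) = 1 := by rw [← map_pow, hz, map_one]
      exact congrArg Subtype.val h2
    rw [hσ _ h1]
    rfl
  · have hcard : Module.finrank (IntermediateField.fixedField (Subgroup.zpowers τ₀))
        (Cyc (2 ^ k)) = 2 := by
      rw [IntermediateField.finrank_fixedField_eq_card, Nat.card_zpowers, hord]
    refine Eq.trans ?_ hcard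
    have hmemF : ∀ r : EF2 k t, inc r ∈ IntermediateField.fixedField (Subgroup.zpowers τ₀) := by
      intro r
      rw [IntermediateField.mem_fixedField_iff]
      intro g hg
      obtain ⟨i, rfl⟩ := Subgroup.mem_zpowers_iff.1 hg
      have h1 : ∀ m : ℕ, (τ₀ ^ m) (inc r) = inc r := by
        intro m
        induction m with
        | zero => rfl
        | succ m ih => rw [pow_succ, AlgEquiv.mul_apply, hfix, ih]
      rcases i with m | m
      · exact h1 m
      · rw [zpow_negSucc]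
        have h2 := h1 (m + 1)
        rw [← h2]
        rw [h2]
        exact (AlgEquiv.symm_apply_eq _).2 h2.symm
    let i : EF2 k t →+* IntermediateField.fixedField (Subgroup.zpowers τ₀) :=
      inc.codRestrict (IntermediateField.fixedField (Subgroup.zpowers τ₀)) hmemF
    have hi : Function.Bijective i := by
      refine ⟨i.injective, fun y => ?_⟩
      have hy : τ₀ (y : Cyc (2 ^ k)) = y :=
        (IntermediateField.mem_fixedField_iff _ _).1 y.2 τ₀ (Subgroup.mem_zpowers τ₀)
      refine ⟨⟨((y : Cyc (2 ^ k)) : ℂ), (mem_iff σ hσ _).2 ⟨(y : Cyc (2 ^ k)).2, ?_⟩⟩, ?_⟩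
      · rw [← hτ₀, hy]
      · exact Subtype.ext (Subtype.ext rfl)
    refine Algebra.finrank_eq_of_equiv_equiv (RingEquiv.ofBijective i hi) e ?_
    ext r
    show ((inc r : Cyc (2 ^ k)) : ℂ) = ((e (e.symm (inc r)) : Cyc (2 ^ k)) : ℂ)
    rw [e.apply_symm_apply]
  · exact ⟨α, hα, rfl⟩

end StarkC.ABS
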