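import Pool.Agent.ABS.StZI
import Pool.Agent.ABS.PPP

/-!
# Project ABS, module ZVA: the value for a leaf
-/

set_option autoImplicit false

open NumberField IsDedekindDomain
open scoped TensorProduct Classical

namespace StarkC.ABS

open StarkC.MON
open StarkP (rootField charField trChar NormIn AbsIn IsTheta)

namespace ZVAx

/-- PCX for linear characters of known orders. -/
theorem vals (hPCX : Stmt_PCX) (hV : ConclV)
    (K L : Type) [Field K] [NumberField K] [Field L] [NumberField L] [Algebra K L] [IsGalois K L]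
    (S : Finset (HeightOneSpectrum (𝓞 K)))
    (φ : XQ L (aboveSet K L S) ≃ₗ[ℚ] QU L (aboveSet K L S))
    (Θ : XC L (aboveSet K L S) →ₗ[ℂ] XC L (aboveSet K L S))
    (hφ : IsPhiTheta K (aboveSet K L S) φ Θ)
    (r : ℕ) (H : Fin r → Subgroup (L ≃ₐ[K] L)) (q : Fin r → ℕ) (ψ : ∀ i, H i →* ℂˣ)
    (hq : ∀ i, orderOf (ψ i) = q i) :
    ∃ x : Fin r → ℂ, (∀ i, x i ≠ 0 ∧ QQ (q i) (x i)) ∧
      ∀ (c : Fin r → ℤ) (θ : (L ≃ₐ[K] L) → ℂ),
        (∀ g, θ g = ∑ i, (c i : ℂ) * ∑ t ∈ Ex (q i), indFun (H i) (extZ (ψ i ^ t)) g) →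
        Val θ S Θ (∏ i, x i ^ c i) :=
  hPCX K L S φ Θ r H q ψ (fun i => QQ (q i)) hφ (fun i S' => by
    have h1 := hV (IntermediateField.fixedField (H i)) L (liftChar (H i) (ψ i)) S'
    rw [PPPx.orderOf_lift, hq i] at h1
    exact h1)

/-- A sum over the divisors as a sum over `Fin r`. -/
theorem sum_div {M : Type*} [AddCommMonoid M] (m : ℕ) (f : ℕ → M) :
    ∑ d ∈ m.divisors, f d =
      ∑ i : Fin m.divisors.card, f ((m.divisors.equivFin.symm i : m.divisors) : ℕ) := by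
  rw [← Finset.sum_coe_sort m.divisors f]
  exact (Equiv.sum_comp m.divisors.equivFin.symm (fun d : m.divisors => f (d : ℕ))).symm

end ZVAx

open ZVAx in
/-- module ZVA -/
theorem ZVA_thm : Stmt_ZVA := by
  intro hPCX hV hD hSCY hZCB hZCM hRAM hIDX hZID hZRM hZUN K L _ _ _ _ _ _ S φ Θ A ψ g n m s hφ hL
  obtain ⟨C, ε, hε, hC⟩ := hZID hRAM (L ≃ₐ[K] L) A ψ g n m s hL
  obtain ⟨B, η, hB, hBsum⟩ := hZRM hRAM hIDX (L ≃ₐ[K] L) A ψ g n m s hL
  set r : ℕ := m.divisors.card with hr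
  let dd : Fin r → ℕ := fun i => ((m.divisors.equivFin.symm i : m.divisors) : ℕ)
  have hdd : ∀ i, dd i ∈ m.divisors := fun i => (m.divisors.equivFin.symm i).2
  have hLi : ∀ i, Leaf (B (dd i)) (η (dd i)) g n 1 s := fun i => hB _ (hdd i)
  have hZ : ∀ i : Fin r, ∃ (C : Subgroup (L ≃ₐ[K] L)) (ε : C →* ℂˣ), orderOf ε = 2 ∧
      ∀ x, ∑ j ∈ Ex (2 ^ n), indFun (B (dd i)) (extZ (η (dd i) ^ j)) x =
        2 * ∑ j ∈ Ex 2, indFun C (extZ (ε ^ j)) x := by
    intro i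
    have h := hZID hRAM (L ≃ₐ[K] L) (B (dd i)) (η (dd i)) g n 1 s (hLi i)
    simpa only [mul_one] using h
  choose Cd εd hεd hCd using hZ
  -- the identities for the characters
  have hT0 : ∀ x, hTr A ψ (2 ^ n * m) x = ∑ j ∈ Ex (2 * m), indFun C (extZ (ε ^ j)) x := by
    intro x
    unfold hTr
    rw [hC x]
    ring
  have hTi : ∀ i, ∀ x, hTr (B (dd i)) (η (dd i)) (2 ^ n) x =
      ∑ j ∈ Ex 2, indFun (Cd i) (extZ (εd i ^ j)) x := by
    intro i x
    unfold hTr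
    rw [hCd i x]
    ring
  have hTsum : ∀ x, hTr A ψ (2 ^ n * m) x =
      ∑ i : Fin r, ((ArithmeticFunction.moebius (dd i) : ℤ) : ℂ) *
        ∑ j ∈ Ex 2, indFun (Cd i) (extZ (εd i ^ j)) x := by
    intro x
    have h1 : hTr A ψ (2 ^ n * m) x =
        (∑ d ∈ m.divisors, (ArithmeticFunction.moebius d : ℂ) *
          ∑ j ∈ Ex (2 ^ n), indFun (B d) (extZ (η d ^ j)) x) / 2 := by
      unfold hTr
      rw [hBsum x]
    rw [h1, sum_div m (fun d => (ArithmeticFunction.moebius d : ℂ) *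
      ∑ j ∈ Ex (2 ^ n), indFun (B d) (extZ (η d ^ j)) x), Finset.sum_div]
    refine Finset.sum_congr rfl fun i _ => ?_
    show (ArithmeticFunction.moebius (dd i) : ℂ) *
      (∑ j ∈ Ex (2 ^ n), indFun (B (dd i)) (extZ (η (dd i) ^ j)) x) / 2 = _
    rw [hCd i x]
    ring
  -- the values
  obtain ⟨x0, hx0, hx0V⟩ := vals hPCX hV K L S φ Θ hφ 1 (fun _ => C) (fun _ => 2 * m)
    (fun _ => ε) (fun _ => hε)
  obtain ⟨x, hx, hxV⟩ := vals hPCX hV K L S φ Θ hφ r Cd (fun _ => 2) εd hεd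
  have hV0 : Val (hTr A ψ (2 ^ n * m)) S Θ (x0 0) := by
    have h1 := hx0V (fun _ => 1) (hTr A ψ (2 ^ n * m)) (fun x => by
      rw [hT0 x, Fin.sum_univ_one]
      simp)
    simpa using h1
  have hV1 : Val (hTr A ψ (2 ^ n * m)) S Θ
      (∏ i, x i ^ (ArithmeticFunction.moebius (dd i) : ℤ)) :=
    hxV (fun i => ArithmeticFunction.moebius (dd i)) _ hTsum
  have hVi : ∀ i, Val (hTr (B (dd i)) (η (dd i)) (2 ^ n)) S Θ (x i) := by
    intro i
    have h1 := hxV (fun k => if k = i then 1 else 0) (hTr (B (dd i)) (η (dd i)) (2 ^ n)) (fun y => by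
      rw [hTi i y, Finset.sum_eq_single i]
      · simp
      · intro b _ hb
        simp [hb]
      · intro h
        exact absurd (Finset.mem_univ i) h)
    have h2 : (∏ k, x k ^ (if k = i then (1 : ℤ) else 0)) = x i := by
      rw [Finset.prod_eq_single i]
      · simp
      · intro b _ hb
        simp [hb]
      · intro h
        exact absurd (Finset.mem_univ i) h
    rw [h2] at h1
    exact h1
  have hE : x0 0 = ∏ i, x i ^ (ArithmeticFunction.moebius (dd i) : ℤ) :=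
    hZUN K L S φ Θ C ε (2 * m) _ _ _ hφ hT0 hV0 hV1
  obtain ⟨a, ha, hxa, hn⟩ := (hx0 0).2
  refine ⟨a, ha, ?_, hn, ?_⟩
  · rw [← hxa]
    exact hV0
  · intro h3
    have hex : ∀ i : Fin r, ∃ b : ℚ, x i = (b : ℂ) ∧ CS n s b := by
      intro i
      obtain ⟨b, hb, hN⟩ := hD K L S φ Θ (B (dd i)) (η (dd i)) g n s hφ h3 (hLi i)
      exact ⟨b, hZUN K L S φ Θ (Cd i) (εd i) 2 _ _ _ hφ (hTi i) (hVi i) hb,
        hZCB hSCY n s b hN⟩
    choose b hb hCS using hex
    have h4 : a = ∏ i, b i ^ (ArithmeticFunction.moebius (dd i) : ℤ) := by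
      have h5 : ((a : ℚ) : ℂ) = ((∏ i, b i ^ (ArithmeticFunction.moebius (dd i) : ℤ) : ℚ) : ℂ) := by
        rw [← hxa, hE, Rat.cast_prod]
        refine Finset.prod_congr rfl fun i _ => ?_
        rw [hb i, Rat.cast_zpow]
      exact_mod_cast h5
    rw [h4]
    exact hZCM n s (Fin r) Finset.univ b (fun i => (ArithmeticFunction.moebius (dd i) : ℤ))
      (fun i _ => hCS i)

end StarkC.ABS
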