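import Pool.Agent.ABS.FINZG
import Pool.Agent.ABS.ZVA
import Pool.Agent.ABS.ZEN
import Pool.Agent.ABS.ZCL
import Pool.Agent.ABS.ZCK
import Pool.Agent.ABS.ZCF
import Pool.Agent.ABS.ZCM
import Pool.Agent.ABS.ZCB
import Pool.Agent.ABS.ZNG
import Pool.Agent.ABS.StD4

/-!
# Project ABS (MP_46b841_nt), part Z: the leaves
-/

set_option autoImplicit false

open NumberField IsDedekindDomain
open scoped TensorProduct Classical

namespace StarkC.ABS

open StarkC.MON FINUx FINZx FINZGx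
open StarkP (rootField charField trChar NormIn AbsIn IsTheta)

namespace FINZHx

/-- From part D (helper37) to `ConclDG`. -/
theorem conclDG_of (hD : ConclD) : ConclDG := by
  intro K L _ _ _ _ _ _ S φ Θ A ψ g n s hφ hn hL
  obtain ⟨F, α, hF, hα, h⟩ := hD K L S φ Θ A ψ g n s hn hL hφ
  exact ⟨Algebra.norm ℚ α, ⟨F, hF, h⟩, ZNG_thm SIGT_thm n s hn hL.tt α hα⟩

theorem conclL : ConclL :=
  ZCL_thm SCY_thm SNM_thm SPB_thm SPM_thm SPI_thm SCR_thm SPA_thm SH9_thm SKA_thm ZCK_thm ZCF_thm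

theorem leafN (hD : ConclD) : LeafN :=
  ZEN_thm SIGT_thm TRT_thm ZFX_thm ZTR_thm ZFD_thm ZIM_thm conclL
    (ZVA_thm PCX_thm conclV (conclDG_of hD) SCY_thm ZCB_thm ZCM_thm RAM_thm IDX_thm ZID_thm ZRM_thm
      ZUN_thm)

end FINZHx

end StarkC.ABS
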