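import Pool.Agent.ABS.FINZH
import Pool.Agent.ABS.FIND

/-!
# Project ABS (MP_46b841_nt), part Z: irreducible characters with nilpotent image, not symplectic
-/

set_option autoImplicit false

open NumberField IsDedekindDomain
open scoped TensorProduct Classical

namespace StarkC.ABS

open FINZGx FINZHx
open StarkP (rootField charField trChar NormIn AbsIn IsTheta)

/-- Theorem (Z): irreducible representations with nilpotent image, not symplectic. -/
theorem finZG (K L : Type) [Field K] [NumberField K] [Field L] [NumberField L]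
    [Algebra K L] [IsGalois K L] (S : Finset (HeightOneSpectrum (𝓞 K)))
    (Θ : ((L → ℝ) →₀ ℂ) →ₗ[ℂ] ((L → ℝ) →₀ ℂ)) (hΘ : IsTheta K (StarkP.aboveSet K L S) Θ)
    (V : Type) [AddCommGroup V] [Module ℂ V] [Module.Finite ℂ V]
    (ρ : Representation ℂ (L ≃ₐ[K] L) V) (hirr : ρ.IsIrreducible)
    (hnil : Group.IsNilpotent ((L ≃ₐ[K] L) ⧸ MonoidHom.ker ρ)) (hsy : ¬ Sy ρ) :
    (∀ E : IntermediateField ℚ ℂ, E ≤ charField ρ.character → IsCyclic (E ≃ₐ[ℚ] E) →
      NormIn E ρ.character (S : Set (HeightOneSpectrum (𝓞 K))) Θ) ∧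
    (∀ q : ℕ, IsPrimePow q → charField ρ.character = rootField q →
      NormIn (charField ρ.character) ρ.character (S : Set (HeightOneSpectrum (𝓞 K))) Θ) ∧
    (∀ ℓ : ℕ, ℓ.Prime → StarkP.HasImage ℓ ρ →
      NormIn (charField ρ.character) ρ.character (S : Set (HeightOneSpectrum (𝓞 K))) Θ) :=
  finZG_of (leafN conclD) K L S Θ hΘ V ρ hirr hnil hsy

end StarkC.ABS
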