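import Pool.Agent.ABS.StG4

/-!
# Project ABS, module FV5: the character of a nontrivial representation of degree `3` of `A_5`
-/

set_option autoImplicit false

open scoped Classical

namespace StarkC.ABS.FV5x

open Polynomial Module

section Lin

variable {V : Type} [AddCommGroup V] [Module ℂ V] [Module.Finite ℂ V]

/-- An endomorphism of finite order is diagonalisable. -/
theorem exists_eigenbasis (T : V →ₗ[ℂ] V) (h3 : finrank ℂ V = 3) {n : ℕ} (hn : 0 < n)
    (hT : T ^ n = 1) : ∃ (b : Basis (Fin 3) ℂ V) (z : Fin 3 → ℂ), ∀ i, T (b i) = z i • b i := by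
  have hss : Module.End.IsSemisimple T := by
    apply Module.End.isSemisimple_of_squarefree_aeval_eq_zero (p := X ^ n - 1)
    · exact (X_pow_sub_one_separable_iff.2 (by exact_mod_cast hn.ne')).squarefree
    · rw [map_sub, map_pow, aeval_X, map_one, hT, sub_self]
  have htop := hss.iSup_eigenspace_eq_top
  have hint : DirectSum.IsInternal (fun μ : ℂ => Module.End.eigenspace T μ) :=
    DirectSum.isInternal_submodule_of_iSupIndep_of_iSup_eq_top
      (Module.End.eigenspaces_iSupIndep T) htop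
  let B := hint.collectedBasis (fun μ => finBasis ℂ (Module.End.eigenspace T μ))
  haveI : Finite (Σ μ : ℂ, Fin (finrank ℂ (Module.End.eigenspace T μ))) :=
    Module.Finite.finite_basis B
  haveI : Fintype (Σ μ : ℂ, Fin (finrank ℂ (Module.End.eigenspace T μ))) := Fintype.ofFinite _
  have hcard : Fintype.card (Σ μ : ℂ, Fin (finrank ℂ (Module.End.eigenspace T μ))) = 3 := by
    rw [← finrank_eq_card_basis B, h3]
  let e := Fintype.equivFinOfCardEq hcard
  refine ⟨B.reindex e, fun i => (e.symm i).1, fun i => ?_⟩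
  rw [Basis.reindex_apply]
  have hmem : B (e.symm i) ∈ Module.End.eigenspace T (e.symm i).1 :=
    hint.collectedBasis_mem (fun μ => finBasis ℂ (Module.End.eigenspace T μ)) (e.symm i)
  exact Module.End.mem_eigenspace_iff.1 hmem

theorem pow_apply_basis {T : V →ₗ[ℂ] V} {b : Basis (Fin 3) ℂ V} {z : Fin 3 → ℂ}
    (h : ∀ i, T (b i) = z i • b i) (j : ℕ) (i : Fin 3) : (T ^ j) (b i) = z i ^ j • b i := by
  induction j with
  | zero => simp
  | succ j ih => rw [pow_succ', Module.End.mul_apply, ih, map_smul, h, smul_smul, pow_succ]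

theorem trace_pow_basis {T : V →ₗ[ℂ] V} {b : Basis (Fin 3) ℂ V} {z : Fin 3 → ℂ}
    (h : ∀ i, T (b i) = z i • b i) (j : ℕ) :
    LinearMap.trace ℂ V (T ^ j) = z 0 ^ j + z 1 ^ j + z 2 ^ j := by
  rw [LinearMap.trace_eq_matrix_trace ℂ b, Matrix.trace, Fin.sum_univ_three]
  simp only [Matrix.diag_apply, LinearMap.toMatrix_apply, pow_apply_basis h, map_smul,
    Finsupp.smul_apply, Basis.repr_self, Finsupp.single_eq_same, smul_eq_mul, mul_one]

theorem det_basis {T : V →ₗ[ℂ] V} {b : Basis (Fin 3) ℂ V} {z : Fin 3 → ℂ}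
    (h : ∀ i, T (b i) = z i • b i) : LinearMap.det T = z 0 * z 1 * z 2 := by
  have hdiag : LinearMap.toMatrix b b T = Matrix.diagonal z := by
    ext i j
    rw [LinearMap.toMatrix_apply, h, map_smul, Finsupp.smul_apply, Basis.repr_self, smul_eq_mul]
    by_cases hij : i = j
    · subst hij
      rw [Finsupp.single_eq_same, mul_one, Matrix.diagonal_apply_eq]
    · rw [Finsupp.single_eq_of_ne hij, mul_zero, Matrix.diagonal_apply_ne _ hij]
  rw [← LinearMap.det_toMatrix b T, hdiag, Matrix.det_diagonal, Fin.prod_univ_three]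

/-- Three numbers of product `1` with `∑ z = ∑ z⁻¹` are `1, z, z⁻¹`. -/
theorem exists_of_sym {x y w : ℂ} (hp : x * y * w = 1) (hs : x + y + w = x⁻¹ + y⁻¹ + w⁻¹) :
    ∃ z : ℂ, (z = x ∨ z = y ∨ z = w) ∧ (z = 1 → x = 1 ∧ y = 1 ∧ w = 1) ∧
      ∀ j : ℕ, x ^ j + y ^ j + w ^ j = 1 + z ^ j + (z ^ j)⁻¹ := by
  have hx : x ≠ 0 := by
    rintro rfl
    simp at hp
  have hy : y ≠ 0 := by
    rintro rfl
    simp at hp
  have hw : w ≠ 0 := by
    rintro rfl
    simp at hp
  have e1 : x⁻¹ = y * w := by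
    rw [inv_eq_of_mul_eq_one_right]
    rw [← hp]
    ring
  have e2 : y⁻¹ = x * w := by
    rw [inv_eq_of_mul_eq_one_right]
    rw [← hp]
    ring
  have e3 : w⁻¹ = x * y := by
    rw [inv_eq_of_mul_eq_one_right]
    rw [← hp]
    ring
  rw [e1, e2, e3] at hs
  have hz : (x - 1) * (y - 1) * (w - 1) = 0 := by
    linear_combination hp + hs
  have key : ∀ a b c : ℂ, a = 1 → a * b * c = 1 → c = b⁻¹ := by
    intro a b c ha habc
    rw [ha, one_mul] at habc
    exact (inv_eq_of_mul_eq_one_right habc).symm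
  rcases mul_eq_zero.1 hz with h | h
  · rcases mul_eq_zero.1 h with h | h
    · have hx1 : x = 1 := sub_eq_zero.1 h
      have hw1 : w = y⁻¹ := key x y w hx1 hp
      refine ⟨y, Or.inr (Or.inl rfl), fun hy1 => ⟨hx1, hy1, ?_⟩, fun j => ?_⟩
      · rw [hw1, hy1, inv_one]
      · rw [hx1, hw1, one_pow, inv_pow]
    · have hy1 : y = 1 := sub_eq_zero.1 h
      have hw1 : w = x⁻¹ := key y x w hy1 (by rw [← hp]; ring)
      refine ⟨x, Or.inl rfl, fun hx1 => ⟨hx1, hy1, ?_⟩, fun j => ?_⟩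
      · rw [hw1, hx1, inv_one]
      · rw [hy1, hw1, one_pow, inv_pow]
        ring
  · have hw1 : w = 1 := sub_eq_zero.1 h
    have hy1 : y = x⁻¹ := key w x y hw1 (by rw [← hp]; ring)
    refine ⟨x, Or.inl rfl, fun hx1 => ⟨hx1, ?_, hw1⟩, fun j => ?_⟩
    · rw [hy1, hx1, inv_one]
    · rw [hw1, hy1, one_pow, inv_pow]
      ring

end Lin

section Rep

variable {V : Type} [AddCommGroup V] [Module ℂ V] [Module.Finite ℂ V]
  (ρ : Representation ℂ A5 V)

theorem g5_ne (hK : Stmt_FK5) : g5 ≠ 1 ∧ g5 ^ 5 = 1 := by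
  have h := hK.2.1 1 1 (by norm_num)
  simpa using h

/-- `A_5` is not commutative. -/
theorem not_comm (hK : Stmt_FK5) : ¬ ∀ a b : A5, a * b = b * a := by
  intro hc
  obtain ⟨x, hx⟩ := hK.2.2 g5
  have h1 : g5 = g5⁻¹ := by
    rw [hc x⁻¹ g5, inv_mul_cancel_right] at hx
    exact hx
  have h2 : g5 ^ 2 = 1 := by
    rw [sq]
    nth_rewrite 2 [h1]
    exact mul_inv_cancel _
  obtain ⟨h3, h4⟩ := g5_ne hK
  apply h3
  have h5 : g5 ^ 5 = (g5 ^ 2) ^ 2 * g5 := by
    rw [← pow_mul, ← pow_succ]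
  rw [h5, h2, one_pow, one_mul] at h4
  exact h4

theorem injective_rho (hρ : ¬ ∀ g, ρ g = 1) {g : A5} (h : ρ g = 1) : g = 1 := by
  haveI : IsSimpleGroup A5 := alternatingGroup.isSimpleGroup_five
  rcases (MonoidHom.normal_ker ρ).eq_bot_or_eq_top with hk | hk
  · have : g ∈ MonoidHom.ker ρ := MonoidHom.mem_ker.2 h
    rw [hk, Subgroup.mem_bot] at this
    exact this
  · exfalso
    apply hρ
    intro g
    have : g ∈ MonoidHom.ker ρ := by
      rw [hk]
      exact Subgroup.mem_top g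
    exact MonoidHom.mem_ker.1 this

theorem det_rho (hK : Stmt_FK5) (g : A5) : LinearMap.det (ρ g) = 1 := by
  haveI : IsSimpleGroup A5 := alternatingGroup.isSimpleGroup_five
  let δ : A5 →* ℂ := LinearMap.det.comp ρ
  rcases (MonoidHom.normal_ker δ).eq_bot_or_eq_top with hk | hk
  · exfalso
    apply not_comm hK
    intro a b
    have h1 : a * b * (b * a)⁻¹ ∈ MonoidHom.ker δ := by
      rw [MonoidHom.mem_ker]
      have h2 : δ (b * a) * δ (b * a)⁻¹ = 1 := by rw [← map_mul, mul_inv_cancel, map_one]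
      rw [map_mul, map_mul δ a b, mul_comm (δ a) (δ b), ← map_mul δ b a]
      exact h2
    rw [hk, Subgroup.mem_bot, mul_inv_eq_one] at h1
    exact h1
  · have : g ∈ MonoidHom.ker δ := by
      rw [hk]
      exact Subgroup.mem_top g
    exact MonoidHom.mem_ker.1 this

/-- The eigenvalues of `ρ g` are `1, z, z⁻¹`. -/
theorem exists_z (hK : Stmt_FK5) (h3 : finrank ℂ V = 3) (hρ : ¬ ∀ g, ρ g = 1) {g : A5} {n : ℕ}
    (hn : 0 < n) (hg : g ^ n = 1) (hg1 : g ≠ 1) :
    ∃ z : ℂ, z ^ n = 1 ∧ z ≠ 1 ∧ ∀ j : ℕ, ρ.character (g ^ j) = 1 + z ^ j + (z ^ j)⁻¹ := by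
  have hT : (ρ g) ^ n = 1 := by rw [← map_pow, hg, map_one]
  obtain ⟨b, z, hz⟩ := exists_eigenbasis (ρ g) h3 hn hT
  have hzn : ∀ i, z i ^ n = 1 := by
    intro i
    have h1 := pow_apply_basis hz n i
    rw [hT, Module.End.one_apply] at h1
    have h2 : (z i ^ n - 1) • b i = 0 := by rw [sub_smul, one_smul, ← h1, sub_self]
    rcases smul_eq_zero.1 h2 with h | h
    · exact sub_eq_zero.1 h
    · exact absurd h (b.ne_zero i)
  have hinv : ∀ i, z i ^ (n - 1) = (z i)⁻¹ := by
    intro i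
    symm
    apply inv_eq_of_mul_eq_one_right
    rw [← pow_succ', Nat.sub_add_cancel hn]
    exact hzn i
  have hchar : ∀ j : ℕ, ρ.character (g ^ j) = z 0 ^ j + z 1 ^ j + z 2 ^ j := by
    intro j
    rw [← trace_pow_basis hz j, ← map_pow]
    rfl
  have hsum : z 0 + z 1 + z 2 = (z 0)⁻¹ + (z 1)⁻¹ + (z 2)⁻¹ := by
    obtain ⟨x, hx⟩ := hK.2.2 g
    have h1 : ρ.character g = ρ.character g⁻¹ := by
      rw [← hx]
      have := ρ.char_conj g x⁻¹
      rw [inv_inv] at this
      exact this.symm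
    have h2 := hchar 1
    rw [pow_one, pow_one, pow_one, pow_one] at h2
    have h4 : g⁻¹ = g ^ (n - 1) := by
      apply inv_eq_of_mul_eq_one_right
      rw [← pow_succ', Nat.sub_add_cancel hn]
      exact hg
    rw [← h2, h1, h4, hchar, hinv, hinv, hinv]
  have hprod : z 0 * z 1 * z 2 = 1 := by
    rw [← det_basis hz]
    exact det_rho ρ hK g
  obtain ⟨w, hw, hw1, hw2⟩ := exists_of_sym hprod hsum
  refine ⟨w, ?_, ?_, fun j => ?_⟩
  · rcases hw with rfl | rfl | rfl
    · exact hzn 0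
    · exact hzn 1
    · exact hzn 2
  · intro h1
    obtain ⟨z0, z1, z2⟩ := hw1 h1
    apply hg1
    apply injective_rho ρ hρ
    apply b.ext
    intro i
    have hi : z i = 1 := by
      fin_cases i
      · exact z0
      · exact z1
      · exact z2
    rw [hz i, hi, one_smul, Module.End.one_apply]
  · rw [hchar, hw2]

end Rep

end StarkC.ABS.FV5x

namespace StarkC.ABS

open FV5x in
theorem FV5_thm : Stmt_FV5 := by
  intro hK V _ _ _ ρ h3 hρ
  obtain ⟨h5, h5'⟩ := g5_ne hK
  obtain ⟨ζ, hζ5, hζ1, hζ⟩ := exists_z ρ hK h3 hρ (by norm_num : 0 < 5) h5' h5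
  refine ⟨ζ, ?_, ?_, ?_, ?_, ?_⟩
  · haveI : Fact (Nat.Prime 5) := ⟨by norm_num⟩
    rw [← orderOf_eq_prime hζ5 hζ1]
    exact IsPrimitiveRoot.orderOf ζ
  · rw [Representation.char_one, h3]
    norm_num
  · intro g hg1 hg
    obtain ⟨z, hz, hz1, hzc⟩ := exists_z ρ hK h3 hρ (by norm_num : 0 < 2) hg hg1
    have h := hzc 1
    rw [pow_one, pow_one] at h
    have h2 : z = -1 := by
      have : (z - 1) * (z + 1) = 0 := by linear_combination hz
      rcases mul_eq_zero.1 this with h' | h'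
      · exact absurd (sub_eq_zero.1 h') hz1
      · exact eq_neg_of_add_eq_zero_left h'
    rw [h, h2]
    norm_num
  · intro g hg1 hg
    obtain ⟨z, hz, hz1, hzc⟩ := exists_z ρ hK h3 hρ (by norm_num : 0 < 3) hg hg1
    have h := hzc 1
    rw [pow_one, pow_one] at h
    have h2 : 1 + z + z ^ 2 = 0 := by
      have : (z - 1) * (1 + z + z ^ 2) = 0 := by linear_combination hz
      rcases mul_eq_zero.1 this with h' | h'
      · exact absurd (sub_eq_zero.1 h') hz1
      · exact h'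
    have h4 : z⁻¹ = z ^ 2 := by
      apply inv_eq_of_mul_eq_one_right
      rw [← pow_succ']
      exact hz
    rw [h, h4, h2]
  · intro x j hj
    have hc := ρ.char_conj (g5 ^ j) x⁻¹
    rw [inv_inv] at hc
    rw [hc, hζ]

end StarkC.ABS
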