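import Pool.Agent.ABS.StHO
import Pool.Agent.ABS.FCL

/-!
# Project ABS, module HEA: hyperelementary groups with elementary abelian Sylow subgroup (helper91)
-/

set_option autoImplicit false
set_option linter.unusedSectionVars false

open scoped Classical

namespace StarkC.ABS

namespace HEAx

theorem exists_compl {A : Type} [CommGroup A] (p : ℕ) (hp : p.Prime) (h : ∀ x : A, x ^ p = 1)
    (B : Subgroup A) : ∃ D : Subgroup A, (∀ x ∈ B, x ∈ D → x = 1) ∧
      ∀ x : A, ∃ b ∈ B, ∃ d ∈ D, x = b * d := by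
  have : Fact p.Prime := ⟨hp⟩
  let _ : Module (ZMod p) (Additive A) := AddCommGroup.zmodModule (n := p) fun x => h x.toMul
  obtain ⟨D, hD⟩ := Submodule.exists_isCompl
    (AddSubgroup.toZModSubmodule p (Subgroup.toAddSubgroup B))
  refine ⟨AddSubgroup.toSubgroup' D.toAddSubgroup, fun x hx hx' => ?_, fun x => ?_⟩
  · have h1 : (Additive.ofMul x) ∈ AddSubgroup.toZModSubmodule p (Subgroup.toAddSubgroup B) ⊓ D :=
      ⟨hx, hx'⟩
    rw [hD.inf_eq_bot, Submodule.mem_bot] at h1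
    exact h1
  · have h1 : (Additive.ofMul x) ∈ AddSubgroup.toZModSubmodule p (Subgroup.toAddSubgroup B) ⊔ D := by
      rw [hD.sup_eq_top]
      trivial
    obtain ⟨b, hb, d, hd, hbd⟩ := Submodule.mem_sup.1 h1
    exact ⟨b.toMul, hb, d.toMul, hd, hbd.symm⟩

section

variable {G V : Type} [Group G] [Fintype G] [AddCommGroup V] [Module ℂ V] [Module.Finite ℂ V]

/-- The character of a representation with a basis of translates of an eigenvector. -/
theorem char_of (ρ : Representation ℂ G V) (hirr : ρ.IsIrreducible) (U : Subgroup G)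
    (ψ : U →* ℂˣ) (v : V) (hv0 : v ≠ 0) (hc : ∀ a : U, ρ (a : G) v = ((ψ a : ℂˣ) : ℂ) • v)
    (hli : LinearIndependent ℂ (fun q : G ⧸ U => ρ q.out v)) :
    ∀ g, ρ.character g = indFun U (extZ ψ) g := by
  obtain ⟨hnt, hir⟩ := FCLx.irr_of ρ hirr
  have hρψ : ∀ (g : G) (a : U), ρ (g * a) v = ((ψ a : ℂˣ) : ℂ) • ρ g v := by
    intro g a
    rw [map_mul, Module.End.mul_apply, hc, map_smul]
  have hspan : ⊤ ≤ Submodule.span ℂ (Set.range fun q : G ⧸ U => ρ q.out v) := by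
    rcases hir (Submodule.span ℂ (Set.range fun g : G => ρ g v)) (by
      intro g u hu
      induction hu using Submodule.span_induction with
      | mem x hx =>
        obtain ⟨y, rfl⟩ := hx
        apply Submodule.subset_span
        refine ⟨g * y, ?_⟩
        show ρ (g * y) v = ρ g (ρ y v)
        rw [map_mul, Module.End.mul_apply]
      | zero => rw [map_zero]; exact Submodule.zero_mem _
      | add x y _ _ hx hy => rw [map_add]; exact Submodule.add_mem _ hx hy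
      | smul a x _ hx => rw [map_smul]; exact Submodule.smul_mem _ _ hx) with h | h
    · exfalso
      apply hv0
      have h1 : v ∈ Submodule.span ℂ (Set.range fun g : G => ρ g v) := by
        apply Submodule.subset_span
        refine ⟨1, ?_⟩
        show ρ 1 v = v
        rw [map_one, Module.End.one_apply]
      rw [h, Submodule.mem_bot] at h1
      exact h1
    · rw [← h, Submodule.span_le]
      rintro _ ⟨g, rfl⟩
      obtain ⟨u, hu⟩ := QuotientGroup.mk_out_eq_mul U g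
      have h1 : ρ g v = ((ψ u : ℂˣ) : ℂ)⁻¹ • ρ (QuotientGroup.mk g : G ⧸ U).out v := by
        rw [hu, hρψ, inv_smul_smul₀ (Units.ne_zero _)]
      show ρ g v ∈ _
      rw [h1]
      exact Submodule.smul_mem _ _ (Submodule.subset_span ⟨_, rfl⟩)
  let b := Module.Basis.mk hli hspan
  have hb : ∀ q, b q = ρ q.out v := fun q => by
    rw [Module.Basis.mk_apply]
  have hF : ∀ (h x : G), ∀ u ∈ U,
      extZ ψ ((x * u)⁻¹ * h * (x * u)) = extZ ψ (x⁻¹ * h * x) := by
    intro h x u hu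
    have e : (x * u)⁻¹ * h * (x * u) = u⁻¹ * (x⁻¹ * h * x) * u := by group
    rw [e]
    by_cases hy : x⁻¹ * h * x ∈ U
    · have hy' : u⁻¹ * (x⁻¹ * h * x) * u ∈ U := U.mul_mem (U.mul_mem (U.inv_mem hu) hy) hu
      rw [extZ, dif_pos hy', extZ, dif_pos hy]
      have e2 : (⟨u⁻¹ * (x⁻¹ * h * x) * u, hy'⟩ : U) =
          (⟨u, hu⟩ : U)⁻¹ * ⟨x⁻¹ * h * x, hy⟩ * ⟨u, hu⟩ := rfl
      rw [e2, map_mul, map_mul, map_inv, mul_comm (ψ ⟨u, hu⟩)⁻¹, inv_mul_cancel_right]
    · have hy' : u⁻¹ * (x⁻¹ * h * x) * u ∉ U := by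
        intro h1
        apply hy
        have h2 := U.mul_mem (U.mul_mem hu h1) (U.inv_mem hu)
        have e3 : u * (u⁻¹ * (x⁻¹ * h * x) * u) * u⁻¹ = x⁻¹ * h * x := by group
        rw [e3] at h2
        exact h2
      rw [extZ, dif_neg hy', extZ, dif_neg hy]
  intro h
  rw [StarkC.MON.indFun_extZ, FCLx.sum_coset U (fun x => extZ ψ (x⁻¹ * h * x)) (hF h),
    mul_div_cancel_left₀]
  · show LinearMap.trace ℂ V (ρ h) = _
    rw [LinearMap.trace_eq_matrix_trace ℂ b, Matrix.trace]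
    refine Finset.sum_congr rfl fun q _ => ?_
    rw [Matrix.diag_apply, LinearMap.toMatrix_apply, hb]
    obtain ⟨u, hu⟩ := QuotientGroup.mk_out_eq_mul U (h * q.out)
    have h1 : ρ h (ρ q.out v) = ((ψ u : ℂˣ) : ℂ)⁻¹ • b (QuotientGroup.mk (h * q.out)) := by
      rw [hb, hu, hρψ, inv_smul_smul₀ (Units.ne_zero _), map_mul, Module.End.mul_apply]
    rw [h1, map_smul, Finsupp.smul_apply, Module.Basis.repr_self, Finsupp.single_apply,
      smul_eq_mul]
    by_cases hq : (QuotientGroup.mk (h * q.out) : G ⧸ U) = q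
    · rw [if_pos hq, mul_one]
      rw [hq] at hu
      have e : q.out⁻¹ * h * q.out = ((u⁻¹ : U) : G) := by
        rw [Subgroup.coe_inv]
        have h2 : h * q.out = q.out * (u : G)⁻¹ := by
          rw [eq_mul_inv_iff_mul_eq]
          exact hu.symm
        rw [mul_assoc, h2, inv_mul_cancel_left]
      rw [e, extZ, dif_pos (SetLike.coe_mem _)]
      show _ = ((ψ u⁻¹ : ℂˣ) : ℂ)
      rw [map_inv, Units.val_inv_eq_inv_val]
    · rw [if_neg hq, mul_zero, extZ, dif_neg]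
      intro h2
      apply hq
      have h3 : (QuotientGroup.mk (h * q.out) : G ⧸ U) = QuotientGroup.mk q.out := by
        rw [eq_comm, QuotientGroup.eq, ← mul_assoc]
        exact h2
      rw [h3, QuotientGroup.out_eq']
  · exact_mod_cast Nat.card_pos.ne'

/-- A common eigenvector on a stable subspace on which `T` acts commutatively. -/
theorem eig_on (ρ : Representation ℂ G V) (T : Subgroup G) (W : Submodule ℂ V) (hW0 : W ≠ ⊥)
    (hWs : ∀ t ∈ T, ∀ v ∈ W, ρ t v ∈ W)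
    (hcm : ∀ s ∈ T, ∀ t ∈ T, ∀ v ∈ W, ρ s (ρ t v) = ρ t (ρ s v)) :
    ∃ (ψ : T →* ℂˣ) (v : V), v ∈ W ∧ v ≠ 0 ∧ ∀ a : T, ρ (a : G) v = ((ψ a : ℂˣ) : ℂ) • v := by
  let κ : Representation ℂ T W :=
    { toFun := fun t => (ρ (t : G)).restrict (hWs t t.2)
      map_one' := by
        ext w
        show ρ ((1 : T) : G) (w : V) = _
        rw [OneMemClass.coe_one, map_one]
        rfl
      map_mul' := fun s t => by
        ext w
        show ρ ((s * t : T) : G) (w : V) = ρ (s : G) (ρ (t : G) (w : V))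
        rw [Subgroup.coe_mul, map_mul, Module.End.mul_apply] }
  have hκ : ∀ (t : T) (w : W), ((κ t w : W) : V) = ρ (t : G) (w : V) := fun t w => rfl
  obtain ⟨w, hw0, hw⟩ := FCLx.exists_common κ ⊤ (Submodule.nontrivial_iff_ne_bot.2 hW0) (by
    intro a _ b _
    ext w
    show ((κ a (κ b w) : W) : V) = ((κ b (κ a w) : W) : V)
    rw [hκ, hκ, hκ, hκ]
    exact hcm a a.2 b b.2 w w.2)
  have hv0 : (w : V) ≠ 0 := fun h => hw0 (Subtype.ext h)
  have hinj : ∀ x y : ℂ, x • (w : V) = y • (w : V) → x = y := fun x y hxy => by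
    have h2 : (x - y) • (w : V) = 0 := by rw [sub_smul, hxy, sub_self]
    rcases smul_eq_zero.1 h2 with h3 | h3
    · exact sub_eq_zero.1 h3
    · exact absurd h3 hv0
  choose c hc using fun a : T => hw a (Subgroup.mem_top a)
  have hc' : ∀ a : T, ρ (a : G) (w : V) = c a • (w : V) := fun a => by
    rw [← hκ, hc a]
    rfl
  let χ : T →* ℂ :=
    { toFun := c
      map_one' := by
        apply hinj
        rw [← hc', OneMemClass.coe_one, map_one, Module.End.one_apply, one_smul]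
      map_mul' := by
        intro g h
        apply hinj
        rw [← hc', Subgroup.coe_mul, map_mul, Module.End.mul_apply, hc' h, map_smul, hc' g,
          smul_smul, mul_comm] }
  exact ⟨χ.toHomUnits, w, w.2, hv0, fun a => hc' a⟩

end

end HEAx

open HEAx

theorem HEA_thm : Stmt_HEA := by
  intro G V _ _ _ _ _ ρ p C S hirr hp hC hcyc hpC hSp hSc hCS
  obtain ⟨hnt, hir⟩ := FCLx.irr_of ρ hirr
  have hCcomm : ∀ a ∈ C, ∀ b ∈ C, a * b = b * a := by
    intro a ha b hb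
    have h1 : (⟨a, ha⟩ : C) * ⟨b, hb⟩ = ⟨b, hb⟩ * ⟨a, ha⟩ := by
      obtain ⟨g, hg⟩ := hcyc.exists_generator
      obtain ⟨i, hi⟩ := hg ⟨a, ha⟩
      obtain ⟨j, hj⟩ := hg ⟨b, hb⟩
      rw [← hi, ← hj]
      exact (zpow_mul_comm g i j)
    exact congrArg Subtype.val h1
  -- an eigenvector of `C`
  obtain ⟨lam, v₀, -, hv₀0, hv₀⟩ := eig_on ρ C ⊤ (by
      obtain ⟨x, hx⟩ := exists_ne (0 : V)
      intro h
      have : x ∈ (⊤ : Submodule ℂ V) := Submodule.mem_top
      rw [h, Submodule.mem_bot] at this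
      exact hx this) (fun _ _ _ _ => Submodule.mem_top) (by
    intro s hs t ht v _
    rw [← Module.End.mul_apply, ← map_mul, hCcomm s hs t ht, map_mul, Module.End.mul_apply])
  have hCconj : ∀ (g : G) (c : C), g⁻¹ * (c : G) * g ∈ C := fun g c => by
    have := hC.conj_mem c c.2 g⁻¹
    rwa [inv_inv] at this
  -- the stabiliser
  let T : Subgroup G :=
    { carrier := {g | ∀ c : C, lam ⟨g⁻¹ * (c : G) * g, hCconj g c⟩ = lam c}
      one_mem' := by
        intro c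
        congr 1
        apply Subtype.ext
        show (1 : G)⁻¹ * (c : G) * 1 = c
        group
      mul_mem' := by
        intro g h hg hh c
        rw [← hg c, ← hh ⟨g⁻¹ * (c : G) * g, hCconj g c⟩]
        congr 1
        apply Subtype.ext
        show (g * h)⁻¹ * (c : G) * (g * h) = h⁻¹ * (g⁻¹ * (c : G) * g) * h
        group
      inv_mem' := by
        intro g hg c
        have h1 := hg ⟨g⁻¹⁻¹ * (c : G) * g⁻¹, hCconj g⁻¹ c⟩
        rw [← h1]
        congr 1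
        apply Subtype.ext
        show g⁻¹ * (g⁻¹⁻¹ * (c : G) * g⁻¹) * g = (c : G)
        group }
  have hT : ∀ g, g ∈ T ↔ ∀ c : C, lam ⟨g⁻¹ * (c : G) * g, hCconj g c⟩ = lam c := fun g => Iff.rfl
  have hCT : C ≤ T := by
    intro g hg c
    congr 1
    apply Subtype.ext
    show g⁻¹ * (c : G) * g = c
    rw [mul_assoc, hCcomm c c.2 g hg, inv_mul_cancel_left]
  -- commutators are in `C`
  have hcommC : ∀ x y : G, x⁻¹ * y⁻¹ * x * y ∈ C := by
    intro x y
    obtain ⟨c, hc, s, hs, rfl⟩ := hCS x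
    obtain ⟨d, hd, t, ht, rfl⟩ := hCS y
    have h1 := QuotientGroup.eq_one_iff (N := C) ((c * s)⁻¹ * (d * t)⁻¹ * (c * s) * (d * t))
    rw [← h1]
    have hc1 : (QuotientGroup.mk c : G ⧸ C) = 1 := (QuotientGroup.eq_one_iff c).2 hc
    have hd1 : (QuotientGroup.mk d : G ⧸ C) = 1 := (QuotientGroup.eq_one_iff d).2 hd
    have hst : (QuotientGroup.mk s : G ⧸ C) * QuotientGroup.mk t =
        QuotientGroup.mk t * QuotientGroup.mk s := by
      rw [← QuotientGroup.mk_mul, ← QuotientGroup.mk_mul, hSc s hs t ht]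
    have h2 : (QuotientGroup.mk ((c * s)⁻¹ * (d * t)⁻¹ * (c * s) * (d * t)) : G ⧸ C) =
        ((QuotientGroup.mk c : G ⧸ C) * QuotientGroup.mk s)⁻¹ *
        ((QuotientGroup.mk d : G ⧸ C) * QuotientGroup.mk t)⁻¹ *
        ((QuotientGroup.mk c : G ⧸ C) * QuotientGroup.mk s) *
        ((QuotientGroup.mk d : G ⧸ C) * QuotientGroup.mk t) := rfl
    rw [h2, hc1, hd1, one_mul, one_mul]
    have h3 : (QuotientGroup.mk s : G ⧸ C)⁻¹ * (QuotientGroup.mk t)⁻¹ * QuotientGroup.mk s *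
        QuotientGroup.mk t = (QuotientGroup.mk s)⁻¹ * (QuotientGroup.mk t)⁻¹ *
        (QuotientGroup.mk s * QuotientGroup.mk t) := by group
    rw [h3, hst]
    group
  have hTn : ∀ x : G, ∀ t ∈ T, x⁻¹ * t * x ∈ T := by
    intro x t ht
    have h1 : x⁻¹ * t * x = t * (t⁻¹ * x⁻¹ * t * x) := by group
    rw [h1]
    exact T.mul_mem ht (hCT (hcommC t x))
  -- the eigenspace
  let W : Submodule ℂ V :=
    { carrier := {v | ∀ c : C, ρ (c : G) v = ((lam c : ℂˣ) : ℂ) • v}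
      zero_mem' := fun c => by rw [map_zero, smul_zero]
      add_mem' := fun {a b} ha hb c => by rw [map_add, ha c, hb c, smul_add]
      smul_mem' := fun a v hv c => by rw [map_smul, hv c, smul_comm] }
  have hWm : ∀ v, v ∈ W ↔ ∀ c : C, ρ (c : G) v = ((lam c : ℂˣ) : ℂ) • v := fun v => Iff.rfl
  have hW0 : W ≠ ⊥ := by
    intro h
    have h1 : v₀ ∈ W := hv₀
    rw [h, Submodule.mem_bot] at h1
    exact hv₀0 h1
  have hWs : ∀ t ∈ T, ∀ v ∈ W, ρ t v ∈ W := by
    intro t ht v hv c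
    have h1 : (c : G) * t = t * (t⁻¹ * (c : G) * t) := by group
    rw [← Module.End.mul_apply, ← map_mul, h1, map_mul, Module.End.mul_apply]
    have h2 := hv ⟨t⁻¹ * (c : G) * t, hCconj t c⟩
    rw [ht c] at h2
    rw [h2, map_smul]
  have hcm : ∀ s ∈ T, ∀ t ∈ T, ∀ v ∈ W, ρ s (ρ t v) = ρ t (ρ s v) := by
    intro a ha b hb v hv
    obtain ⟨c, hc, s, hs, rfl⟩ := hCS a
    obtain ⟨d, hd, t, ht, rfl⟩ := hCS b
    have hsT : s ∈ T := by
      have := T.mul_mem (T.inv_mem (hCT hc)) ha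
      rwa [inv_mul_cancel_left] at this
    have htT : t ∈ T := by
      have := T.mul_mem (T.inv_mem (hCT hd)) hb
      rwa [inv_mul_cancel_left] at this
    have h1 : ∀ (e : G) (he : e ∈ C) (u : G), u ∈ T → ∀ w ∈ W,
        ρ (e * u) w = ((lam ⟨e, he⟩ : ℂˣ) : ℂ) • ρ u w := by
      intro e he u hu w hw
      rw [map_mul, Module.End.mul_apply]
      exact hWs u hu w hw ⟨e, he⟩
    rw [h1 d hd t htT v hv, h1 c hc s hsT v hv, map_smul, map_smul,
      h1 c hc s hsT _ (hWs t htT v hv), h1 d hd t htT _ (hWs s hsT v hv),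
      ← Module.End.mul_apply, ← Module.End.mul_apply, ← map_mul, ← map_mul, hSc s hs t ht,
      smul_comm]
  obtain ⟨ψ, v, hvW, hv0, hvψ⟩ := eig_on ρ T W hW0 hWs hcm
  have hψlam : ∀ (c : C), ψ ⟨c, hCT c.2⟩ = lam c := by
    intro c
    apply Units.ext
    have h1 := hvψ ⟨c, hCT c.2⟩
    have h2 := hvW c
    have h3 : (((ψ ⟨c, hCT c.2⟩ : ℂˣ) : ℂ) - ((lam c : ℂˣ) : ℂ)) • v = 0 := by
      rw [sub_smul, ← h1, ← h2, sub_self]
    rcases smul_eq_zero.1 h3 with h4 | h4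
    · exact sub_eq_zero.1 h4
    · exact absurd h4 hv0
  -- the complement
  let _ : CommGroup S := { (inferInstance : Group S) with
    mul_comm := fun a b => Subtype.ext (hSc a a.2 b b.2) }
  obtain ⟨D, hD1, hD2⟩ := exists_compl p hp (fun x : S => Subtype.ext (hSp x x.2))
    (T.subgroupOf S)
  have hPm : ∀ x, x ∈ D.map S.subtype ↔ ∃ h : x ∈ S, (⟨x, h⟩ : S) ∈ D := by
    intro x
    rw [Subgroup.mem_map]
    constructor
    · rintro ⟨y, hy, rfl⟩
      exact ⟨y.2, hy⟩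
    · rintro ⟨h, h'⟩
      exact ⟨⟨x, h⟩, h', rfl⟩
  refine ⟨T, D.map S.subtype, ψ, ⟨hTn, ?_, ?_, ?_, ?_⟩, ?_, ?_⟩
  · intro x hx hx'
    obtain ⟨h, h'⟩ := (hPm x).1 hx'
    have h1 := hD1 ⟨x, h⟩ hx h'
    exact congrArg Subtype.val h1
  · intro g
    obtain ⟨c, hc, s, hs, rfl⟩ := hCS g
    obtain ⟨b, hb, d, hd, hbd⟩ := hD2 ⟨s, hs⟩
    refine ⟨c * b, T.mul_mem (hCT hc) hb, d, (hPm d).2 ⟨d.2, hd⟩, ?_⟩
    have h1 : s = (b : G) * (d : G) := congrArg Subtype.val hbd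
    rw [h1, mul_assoc]
  · intro x hx
    obtain ⟨hxS, -⟩ := (hPm x).1 hx
    obtain ⟨c₀, hc₀⟩ := hcyc.exists_generator
    have hfin : 0 < orderOf c₀ := orderOf_pos c₀
    obtain ⟨i, hi⟩ : ∃ i : ℕ, (⟨x⁻¹ * (c₀ : G) * x, hCconj x c₀⟩ : C) = c₀ ^ i := by
      have h1 := hc₀ ⟨x⁻¹ * (c₀ : G) * x, hCconj x c₀⟩
      obtain ⟨i, -, hi⟩ := mem_powers_iff_mem_zpowers.2 h1 |>.elim fun i hi =>
        (⟨i, trivial, hi.symm⟩ : ∃ i : ℕ, True ∧ _ = c₀ ^ i)
      exact ⟨i, hi⟩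
    have hall : ∀ c : C, (⟨x⁻¹ * (c : G) * x, hCconj x c⟩ : C) = c ^ i := by
      intro c
      obtain ⟨k, hk⟩ : ∃ k : ℕ, c = c₀ ^ k := by
        obtain ⟨k, hk⟩ := mem_powers_iff_mem_zpowers.2 (hc₀ c)
        exact ⟨k, hk.symm⟩
      subst hk
      have h1 : (⟨x⁻¹ * ((c₀ ^ k : C) : G) * x, hCconj x (c₀ ^ k)⟩ : C) =
          (⟨x⁻¹ * (c₀ : G) * x, hCconj x c₀⟩ : C) ^ k := by
        apply Subtype.ext
        show x⁻¹ * ((c₀ ^ k : C) : G) * x = (x⁻¹ * (c₀ : G) * x) ^ k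
        rw [Subgroup.coe_pow]
        have := conj_pow (i := k) (a := x⁻¹) (b := (c₀ : G))
        rw [inv_inv] at this
        exact this.symm
      rw [h1, hi, ← pow_mul, ← pow_mul, mul_comm]
    obtain ⟨s, hs1, hs2⟩ := Nat.chineseRemainder
      ((Nat.Prime.coprime_iff_not_dvd hp).2 hpC) 1 i
    have hmod : ∀ (N a b : ℕ) (z : ℂˣ), z ^ N = 1 → a ≡ b [MOD N] → z ^ a = z ^ b := by
      intro N a b z hz hab
      have h3 : ∀ c : ℕ, z ^ c = z ^ (c % N) := fun c => by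
        conv_lhs => rw [← Nat.div_add_mod c N, pow_add, pow_mul, hz, one_pow, one_mul]
      rw [h3 a, h3 b, hab]
    refine ⟨s, fun a b hab => ?_⟩
    obtain ⟨c, hc, u, hu, hcu⟩ := hCS (a : G)
    have huT : u ∈ T := by
      have := T.mul_mem (T.inv_mem (hCT hc)) a.2
      rwa [hcu, inv_mul_cancel_left] at this
    have ha : a = ⟨c, hCT hc⟩ * ⟨u, huT⟩ := Subtype.ext hcu
    have hb : b = ⟨x⁻¹ * c * x, hCT (hCconj x ⟨c, hc⟩)⟩ * ⟨u, huT⟩ := by
      apply Subtype.ext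
      show (b : G) = x⁻¹ * c * x * u
      have h9 : u * x = x * u := hSc u hu x hxS
      rw [hab, hcu]
      calc x⁻¹ * (c * u) * x = x⁻¹ * c * (u * x) := by group
        _ = x⁻¹ * c * (x * u) := by rw [h9]
        _ = x⁻¹ * c * x * u := by group
    rw [ha, hb, map_mul, map_mul, mul_pow]
    have e1 : ψ ⟨x⁻¹ * c * x, hCT (hCconj x ⟨c, hc⟩)⟩ = ψ ⟨c, hCT hc⟩ ^ s := by
      have h1 := hψlam ⟨x⁻¹ * c * x, hCconj x ⟨c, hc⟩⟩
      have h2 := hψlam ⟨c, hc⟩
      have h3 := hall ⟨c, hc⟩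
      rw [h1, h2, h3, map_pow]
      refine (hmod (Nat.card C) s i _ ?_ hs2).symm
      rw [← map_pow, pow_card_eq_one', map_one]
    have e2 : ψ ⟨u, huT⟩ = ψ ⟨u, huT⟩ ^ s := by
      have h1 : ψ ⟨u, huT⟩ ^ p = 1 := by
        rw [← map_pow]
        have h2 : (⟨u, huT⟩ : T) ^ p = 1 := Subtype.ext (hSp u hu)
        rw [h2, map_one]
      have h2 := hmod p s 1 _ h1 hs1
      rw [h2, pow_one]
    rw [e1, ← e2]
  · intro x hx hψx
    obtain ⟨h, h'⟩ := (hPm x).1 hx
    have hxT : x ∈ T := by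
      intro c
      have h1 := hψx ⟨c, hCT c.2⟩ ⟨x⁻¹ * (c : G) * x, hCT (hCconj x c)⟩ rfl
      have h2 := hψlam c
      have h3 := hψlam ⟨x⁻¹ * (c : G) * x, hCconj x c⟩
      rw [← h2, ← h3]
      exact h1
    exact congrArg Subtype.val (hD1 ⟨x, h⟩ hxT h')
  · intro x hx
    exact ((hPm x).1 hx).1
  · obtain ⟨c₀, hc₀⟩ := hcyc.exists_generator
    refine char_of ρ hirr T ψ v hv0 hvψ ?_
    refine Module.End.eigenvectors_linearIndependent' (ρ (c₀ : G))
      (fun q : G ⧸ T => ((lam ⟨q.out⁻¹ * (c₀ : G) * q.out, hCconj q.out c₀⟩ : ℂˣ) : ℂ)) ?_ _ ?_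
    · intro q q' hqq
      have h1 : lam ⟨q.out⁻¹ * (c₀ : G) * q.out, hCconj q.out c₀⟩ =
          lam ⟨q'.out⁻¹ * (c₀ : G) * q'.out, hCconj q'.out c₀⟩ := Units.ext hqq
      have h2 : ∀ c : C, lam ⟨q.out⁻¹ * (c : G) * q.out, hCconj q.out c⟩ =
          lam ⟨q'.out⁻¹ * (c : G) * q'.out, hCconj q'.out c⟩ := by
        intro c
        obtain ⟨k, hk⟩ := mem_powers_iff_mem_zpowers.2 (hc₀ c)
        have hk' : c₀ ^ k = c := hk
        subst hk'
        have h3 : ∀ y : G, (⟨y⁻¹ * ((c₀ ^ k : C) : G) * y, hCconj y (c₀ ^ k)⟩ : C) =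
            (⟨y⁻¹ * (c₀ : G) * y, hCconj y c₀⟩ : C) ^ k := by
          intro y
          apply Subtype.ext
          show y⁻¹ * ((c₀ ^ k : C) : G) * y = (y⁻¹ * (c₀ : G) * y) ^ k
          rw [Subgroup.coe_pow]
          have := conj_pow (i := k) (a := y⁻¹) (b := (c₀ : G))
          rw [inv_inv] at this
          exact this.symm
        rw [h3, h3, map_pow, map_pow, h1]
      rw [← QuotientGroup.out_eq' q, ← QuotientGroup.out_eq' q', QuotientGroup.eq]
      intro c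
      have h4 : q.out * (c : G) * q.out⁻¹ ∈ C := hC.conj_mem c c.2 q.out
      have h5 := h2 ⟨q.out * (c : G) * q.out⁻¹, h4⟩
      have e1 : (⟨q.out⁻¹ * (q.out * (c : G) * q.out⁻¹) * q.out,
          hCconj q.out ⟨_, h4⟩⟩ : C) = c := by
        apply Subtype.ext
        show q.out⁻¹ * (q.out * (c : G) * q.out⁻¹) * q.out = (c : G)
        group
      have e2 : (⟨q'.out⁻¹ * (q.out * (c : G) * q.out⁻¹) * q'.out,
          hCconj q'.out ⟨_, h4⟩⟩ : C) =
          ⟨(q.out⁻¹ * q'.out)⁻¹ * (c : G) * (q.out⁻¹ * q'.out), hCconj _ c⟩ := by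
        apply Subtype.ext
        show q'.out⁻¹ * (q.out * (c : G) * q.out⁻¹) * q'.out =
          (q.out⁻¹ * q'.out)⁻¹ * (c : G) * (q.out⁻¹ * q'.out)
        group
      rw [← e2]
      refine h5.symm.trans ?_
      exact congrArg lam e1
    · intro q
      refine ⟨Module.End.mem_eigenspace_iff.2 ?_, ?_⟩
      · have h1 : (c₀ : G) * q.out = q.out * (q.out⁻¹ * (c₀ : G) * q.out) := by group
        rw [← Module.End.mul_apply, ← map_mul, h1, map_mul, Module.End.mul_apply]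
        have h2 := hvW ⟨q.out⁻¹ * (c₀ : G) * q.out, hCconj q.out c₀⟩
        rw [h2, map_smul]
      · intro h0
        apply hv0
        have h1 : ρ q.out⁻¹ (ρ q.out v) = v := by
          rw [← Module.End.mul_apply, ← map_mul, inv_mul_cancel, map_one, Module.End.one_apply]
        rw [← h1, h0, map_zero]

end StarkC.ABS
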