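import Pool.Agent.ABS.HEA

/-!
# Project ABS: hyperelementary groups with elementary abelian Sylow subgroups, end (helper91)
-/

set_option autoImplicit false

open scoped Classical

namespace StarkC.ABS

/-- All `p`-subgroups are elementary abelian, for all primes `p`. -/
def ElAb (G : Type) [Group G] : Prop :=
  ∀ (p : ℕ) (P : Subgroup G), p.Prime → IsPGroup p P →
    (∀ x ∈ P, x ^ p = 1) ∧ ∀ x ∈ P, ∀ y ∈ P, x * y = y * x

theorem ElAb.subgroup {G : Type} [Group G] (h : ElAb G) (H : Subgroup G) : ElAb H := by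
  intro p P hp hP
  have h1 := h p (P.map H.subtype) hp (hP.map _)
  refine ⟨fun x hx => ?_, fun x hx y hy => ?_⟩
  · apply Subtype.ext
    show ((x : G)) ^ p = 1
    exact h1.1 x ⟨x, hx, rfl⟩
  · apply Subtype.ext
    show (x : G) * (y : G) = (y : G) * (x : G)
    exact h1.2 x ⟨x, hx, rfl⟩ y ⟨y, hy, rfl⟩

/-- Every irreducible representation of a hyperelementary group with elementary abelian Sylow
subgroups is induced from data as in `HolD`. -/
theorem holD_of_hyper (G V : Type) [Group G] [Fintype G] [AddCommGroup V] [Module ℂ V]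
    [Module.Finite ℂ V] (ρ : Representation ℂ G V) (hirr : ρ.IsIrreducible) (hE : ElAb G)
    (hH : IsQuasiElem G) : ∃ (p : ℕ) (T P : Subgroup G) (ψ : T →* ℂˣ), p.Prime ∧ IsPGroup p P ∧
      HolD T ψ P ∧ ∀ g, ρ.character g = indFun T (extZ ψ) g := by
  obtain ⟨p, C, hp, hC, hcyc, hpC, n, hn⟩ := hH
  have : Fact p.Prime := ⟨hp⟩
  obtain ⟨S⟩ := (inferInstance : Nonempty (Sylow p G))
  have hcard : Nat.card C * p ^ n = Nat.card G := by
    rw [← hn]
    exact C.card_mul_index
  have hS : Nat.card (S : Subgroup G) = p ^ n := by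
    rw [Sylow.card_eq_multiplicity, ← hcard]
    congr 1
    rw [Nat.factorization_mul Nat.card_pos.ne' (pow_ne_zero _ hp.ne_zero), Finsupp.add_apply,
      Nat.factorization_eq_zero_of_not_dvd hpC, hp.factorization_pow]
    simp
  have hcomp : Subgroup.IsComplement' C (S : Subgroup G) := by
    refine Subgroup.isComplement'_of_coprime (by rw [hS, hcard]) ?_
    rw [hS]
    exact Nat.Coprime.pow_right n ((Nat.Prime.coprime_iff_not_dvd hp).2 hpC).symm
  have hel := hE p (S : Subgroup G) hp S.isPGroup'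
  obtain ⟨T, P, ψ, hol, hPS, hχ⟩ := HEA_thm G V ρ p C (S : Subgroup G) hirr hp hC hcyc hpC
    hel.1 hel.2 (fun g => by
      obtain ⟨⟨c, s⟩, h, -⟩ := hcomp.existsUnique g
      exact ⟨c, c.2, s, s.2, h.symm⟩)
  exact ⟨p, T, P, ψ, hp, S.isPGroup'.to_le hPS, hol, hχ⟩

end StarkC.ABS
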