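import Pool.Agent.ABS.HEB
import Pool.Agent.ABS.GTR
import Pool.Agent.ABS.PDefsE

/-!
# Project ABS: groups with elementary abelian Sylow subgroups (helper91)
-/

set_option autoImplicit false

open scoped Classical

namespace StarkC.ABS

open StarkP (charField rootField traceOver trChar)

/-- HOF1: the trace over `ℚ` of a character with data `HolD`. -/
def Stmt_HOF1 : Prop :=
  ∀ (G : Type) [Group G] [Fintype G] (T P : Subgroup G) (ψ : T →* ℂˣ), HolD T ψ P →
    PermC (trChar (indFun T (extZ ψ)))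

/-- HOF2: the trace over `F` of a character with data `HolD`. -/
def Stmt_HOF2 : Prop :=
  ∀ (G : Type) [Group G] [Fintype G] (T P : Subgroup G) (ψ : T →* ℂˣ) (F : IntermediateField ℚ ℂ)
    (ℓ j : ℕ), ℓ.Prime → HolD T ψ P → F ⊓ charField (indFun T (extZ ψ)) ≤ rootField (ℓ ^ j) →
    ∃ a : ℕ, MonC (ℓ ^ a) (traceOver F (indFun T (extZ ψ)))

/-- Characters of groups with elementary abelian Sylow subgroups with values in the field of the
`ℓ^j`-th roots of unity, `ℓ` odd. -/
theorem inH_of_elAb (h1 : Stmt_HOF1) (h2 : Stmt_HOF2) {G V : Type} [Group G] [Fintype G]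
    [AddCommGroup V] [Module ℂ V] (ρ : Representation ℂ G V) (hE : ElAb G) (ℓ j : ℕ)
    (hl : ℓ.Prime) (hl2 : ℓ ≠ 2) (hF : charField ρ.character ≤ rootField (ℓ ^ j)) :
    StarkP.InH ρ := by
  intro H hH W _ _ _ τ hτ _
  obtain ⟨p, T, P, ψ, hp, hP, hol, hχ⟩ := holD_of_hyper H W τ hτ (hE.subgroup H) hH
  have e : τ.character = indFun T (extZ ψ) := funext hχ
  obtain ⟨a, ha⟩ := h2 H T P ψ (charField ρ.character) ℓ j hl hol (inf_le_left.trans hF)
  refine Or.inr (Or.inr ⟨ℓ ^ a, pow_pos hl.pos a, ?_, ?_, ?_⟩)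
  · exact ZMod.isCyclic_units_of_prime_pow ℓ hl hl2 a
  · rw [e]
    exact (GTRx.mon_iff _ _).2 ha
  · rw [e]
    exact (GTRx.perm_iff _).2 (h1 H T P ψ hol)

end StarkC.ABS
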