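import Pool.Agent.ABS.NSY
import Pool.Agent.ABS.HOF3
import Pool.Agent.ABS.ZDU
import Pool.Agent.ABS.FINZ

/-!
# Project ABS (MP_46b841_nt): groups in which every element has prime power order (helper91)
-/

set_option autoImplicit false

open scoped Classical

namespace StarkC.ABS

open StarkP (charField rootField traceOver trChar NilNS InB InH)

namespace HEPx

/-- A nondegenerate alternating form exists only in even dimension. -/
theorem even_of_alt {V : Type} [AddCommGroup V] [Module ℂ V] [Module.Finite ℂ V]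
    (B : V →ₗ[ℂ] V →ₗ[ℂ] ℂ) (h1 : ∀ v, B v v = 0) (h2 : ∀ v, (∀ w, B v w = 0) → v = 0) :
    ¬ Odd (Module.finrank ℂ V) := by
  intro hodd
  have hsk : ∀ v w, B v w = - B w v := by
    intro v w
    have h3 := h1 (v + w)
    simp only [map_add, LinearMap.add_apply, h1, zero_add, add_zero] at h3
    linear_combination h3
  let b := Module.finBasis ℂ V
  let M : Matrix (Fin (Module.finrank ℂ V)) (Fin (Module.finrank ℂ V)) ℂ :=
    fun i j => B (b i) (b j)
  have hM : M.transpose = -M := by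
    ext i j
    exact hsk _ _
  have hdet : M.det = 0 := by
    have h3 : M.det = - M.det := by
      conv_lhs => rw [← Matrix.det_transpose, hM, Matrix.det_neg, Fintype.card_fin, hodd.neg_one_pow,
        neg_one_mul]
    exact self_eq_neg.1 h3
  obtain ⟨v, hv0, hv⟩ := Matrix.exists_vecMul_eq_zero_iff.2 hdet
  have h3 : (∑ i, v i • b i) = 0 := by
    refine h2 _ fun w => ?_
    have h4 : B (∑ i, v i • b i) = 0 := by
      refine b.ext fun j => ?_
      rw [map_sum, LinearMap.sum_apply]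
      have h5 := congrFun hv j
      rw [Matrix.vecMul, dotProduct] at h5
      rw [LinearMap.zero_apply]
      rw [Pi.zero_apply] at h5
      rw [← h5]
      refine Finset.sum_congr rfl fun i _ => ?_
      rw [map_smul, LinearMap.smul_apply, smul_eq_mul]
    rw [h4, LinearMap.zero_apply]
  apply hv0
  funext i
  exact Fintype.linearIndependent_iff.1 b.linearIndependent v h3 i

/-- The degrees of the irreducible representations of a `q`-group, `q` odd, are odd. -/
theorem odd_dim {G V : Type} [Group G] [Fintype G] [AddCommGroup V] [Module ℂ V]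
    [Module.Finite ℂ V] (ρ : Representation ℂ G V) (hirr : ρ.IsIrreducible) (q : ℕ) (hq : q.Prime)
    (hq2 : q ≠ 2) (hG : IsPGroup q G) : Odd (Module.finrank ℂ V) := by
  have himg : StarkP.HasImage q ρ := by
    intro g
    obtain ⟨j, hj⟩ := hG g
    exact ⟨j, by rw [hj, map_one]⟩
  obtain ⟨H, ψ, -, hχ, -, -⟩ := FINZx.indData_N ρ hirr (FINZx.nil_of_image ρ q hq himg)
    (fun a b ha hb => by
      rw [map_mul, map_mul, FINZx.two_of_image ρ q hq hq2 himg a ha,
        FINZx.two_of_image ρ q hq hq2 himg b hb])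
  have h1 : ρ.character 1 = (Module.finrank ℂ V : ℂ) := by
    show LinearMap.trace ℂ V (ρ 1) = _
    rw [map_one]
    exact LinearMap.trace_one ℂ V
  have h2 : indFun H (extZ ψ) 1 = (Fintype.card G : ℂ) / (Nat.card H : ℂ) := by
    unfold indFun
    congr 1
    have h3 : ∀ x : G, (if x⁻¹ * (1 : G) * x ∈ H then extZ ψ (x⁻¹ * (1 : G) * x) else 0) =
        (1 : ℂ) := by
      intro x
      have h4 : x⁻¹ * (1 : G) * x = 1 := by group
      rw [h4, if_pos H.one_mem]
      unfold extZ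
      rw [dif_pos H.one_mem]
      have h5 : (⟨1, H.one_mem⟩ : H) = 1 := rfl
      rw [h5, map_one, Units.val_one]
    rw [Finset.sum_congr rfl fun x _ => h3 x, Finset.sum_const, nsmul_eq_mul, mul_one,
      Finset.card_univ]
  have hH : (Nat.card H : ℂ) ≠ 0 := by exact_mod_cast Nat.card_pos.ne'
  have h3 : (Module.finrank ℂ V : ℂ) * (Nat.card H : ℂ) = (Fintype.card G : ℂ) := by
    rw [← h1, hχ, h2, div_mul_cancel₀ _ hH]
  have h4 : Module.finrank ℂ V * Nat.card H = Nat.card G := by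
    rw [Nat.card_eq_fintype_card (α := G)]
    exact_mod_cast h3
  have : Fact q.Prime := ⟨hq⟩
  obtain ⟨n, hn⟩ := IsPGroup.iff_card.1 hG
  have h5 : Odd (Nat.card G) := by
    rw [hn]
    exact (hq.odd_of_ne_two hq2).pow
  rw [← h4, Nat.odd_mul] at h5
  exact h5.1

/-- Representations whose image is the image of a `q`-subgroup. -/
theorem nilNS_of {G V : Type} [Group G] [Fintype G] [AddCommGroup V] [Module ℂ V]
    [Module.Finite ℂ V] (ρ : Representation ℂ G V) (hirr : ρ.IsIrreducible) (q : ℕ) (hq : q.Prime)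
    (D : Subgroup G) (hD : IsPGroup q D) (hG : ∀ g, ∃ d ∈ D, ρ g = ρ d) (hN : NoSymp G) :
    NilNS ρ ∧ ∃ j, charField ρ.character ≤ rootField (q ^ j) := by
  have : Fact q.Prime := ⟨hq⟩
  have hpow : ∀ (g : G) (k : ℕ), (∀ d ∈ D, d ^ k = 1) → ρ g ^ k = 1 := by
    intro g k hk
    obtain ⟨d, hd, h⟩ := hG g
    rw [h, ← map_pow, hk d hd, map_one]
  obtain ⟨n, hn⟩ := IsPGroup.iff_card.1 hD
  have hDn : ∀ d ∈ D, d ^ q ^ n = 1 := by
    intro d hd
    have h1 : (⟨d, hd⟩ : D) ^ Nat.card D = 1 := pow_card_eq_one'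
    rw [hn] at h1
    exact congrArg Subtype.val h1
  have himg : StarkP.HasImage q ρ := fun g => ⟨n, by rw [map_pow, hpow g _ hDn]⟩
  let ρ' : Representation ℂ D V := MonoidHom.comp ρ D.subtype
  have hirr' : ρ'.IsIrreducible := by
    refine ZDUx.irr_of _ (ZDUx.nontrivial_of ρ hirr) fun U hU => ZDUx.sub_of ρ hirr U
      fun g v hv => ?_
    obtain ⟨d, hd, h⟩ := hG g
    rw [h]
    exact hU ⟨d, hd⟩ v hv
  refine ⟨⟨FINZx.nil_of_image ρ q hq himg, ?_⟩, n, charField_le ρ _ (pow_pos hq.pos n) fun g =>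
    hpow g _ hDn⟩
  rintro ⟨B, h1, h2, h3⟩
  by_cases hq2 : q = 2
  · subst hq2
    refine hN D hD V ρ' hirr' ⟨B, h1, h2, fun g v w => h3 g ⟨n, ?_⟩ v w⟩
    rw [map_pow, hpow _ _ hDn]
  · exact even_of_alt B h1 h2 (odd_dim ρ' hirr' q hq hq2 hD)

section

variable {G V : Type} [Group G] [Fintype G] [AddCommGroup V] [Module ℂ V] [Module.Finite ℂ V]

/-- `x ∈ G` acts by a power on a cyclic normal subgroup. -/
theorem act (C : Subgroup G) (hC : C.Normal) (hcyc : IsCyclic C) (x : G) :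
    ∃ i : ℕ, ∀ c ∈ C, x⁻¹ * c * x = c ^ i := by
  have hCconj : ∀ (g : G) (c : C), g⁻¹ * (c : G) * g ∈ C := fun g c => by
    have := hC.conj_mem c c.2 g⁻¹
    rwa [inv_inv] at this
  obtain ⟨c₀, hc₀⟩ := hcyc.exists_generator
  obtain ⟨i, hi⟩ := mem_powers_iff_mem_zpowers.2 (hc₀ ⟨x⁻¹ * (c₀ : G) * x, hCconj x c₀⟩)
  have hi' : (c₀ : G) ^ i = x⁻¹ * (c₀ : G) * x := congrArg Subtype.val hi
  refine ⟨i, fun c hc => ?_⟩
  obtain ⟨k, hk⟩ := mem_powers_iff_mem_zpowers.2 (hc₀ ⟨c, hc⟩)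
  have hk' : (c₀ : G) ^ k = c := congrArg Subtype.val hk
  rw [← hk']
  have h1 := conj_pow (i := k) (a := x⁻¹) (b := (c₀ : G))
  rw [inv_inv] at h1
  rw [← h1, ← hi', ← pow_mul, ← pow_mul, mul_comm]

/-- The induced character, when the stabilisers in `S` of the nontrivial characters of `C` are
trivial. -/
theorem hol_of_free (ρ : Representation ℂ G V) (hirr : ρ.IsIrreducible) (C S : Subgroup G)
    (hC : C.Normal) (hcyc : IsCyclic C) (hdis : ∀ x ∈ C, x ∈ S → x = 1)
    (hCS : ∀ g : G, ∃ c ∈ C, ∃ x ∈ S, g = c * x)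
    (hst : ∀ lam : C →* ℂˣ, lam ≠ 1 → ∀ x ∈ S,
      (∀ a b : C, (b : G) = x⁻¹ * a * x → lam b = lam a) → x = 1)
    (hnt : ¬ ∀ c ∈ C, ρ c = 1) :
    ∃ ψ : C →* ℂˣ, HolD C ψ S ∧ ∀ g, ρ.character g = indFun C (extZ ψ) g := by
  have hCconj : ∀ (g : G) (c : C), g⁻¹ * (c : G) * g ∈ C := fun g c => by
    have := hC.conj_mem c c.2 g⁻¹
    rwa [inv_inv] at this
  obtain ⟨c₀, hc₀⟩ := hcyc.exists_generator
  have hgen : ∀ c : C, ∃ k : ℕ, c₀ ^ k = c := fun c => mem_powers_iff_mem_zpowers.2 (hc₀ c)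
  have hCcomm : ∀ a ∈ C, ∀ b ∈ C, a * b = b * a := by
    intro a ha b hb
    obtain ⟨i, hi⟩ := hgen ⟨a, ha⟩
    obtain ⟨j, hj⟩ := hgen ⟨b, hb⟩
    have h1 : (⟨a, ha⟩ : C) * ⟨b, hb⟩ = ⟨b, hb⟩ * ⟨a, ha⟩ := by
      rw [← hi, ← hj, ← pow_add, ← pow_add, add_comm]
    exact congrArg Subtype.val h1
  obtain ⟨lam, v, -, hv0, hv⟩ := HEAx.eig_on ρ C ⊤ (by
      have hV := ZDUx.nontrivial_of ρ hirr
      obtain ⟨x, hx⟩ := exists_ne (0 : V)
      intro h
      have : x ∈ (⊤ : Submodule ℂ V) := Submodule.mem_top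
      rw [h, Submodule.mem_bot] at this
      exact hx this) (fun _ _ _ _ => Submodule.mem_top) (by
    intro s hs t ht v _
    rw [← Module.End.mul_apply, ← map_mul, hCcomm s hs t ht, map_mul, Module.End.mul_apply])
  have hlam : lam ≠ 1 := by
    intro h1
    apply hnt
    have h2 := ZDUx.sub_of ρ hirr
      { carrier := {w | ∀ c ∈ C, ρ c w = w}
        zero_mem' := fun c _ => map_zero _
        add_mem' := fun {a b} ha hb c hc => by rw [map_add, ha c hc, hb c hc]
        smul_mem' := fun a w hw c hc => by rw [map_smul, hw c hc] } (by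
      intro g w hw c hc
      have h3 : c * g = g * (g⁻¹ * c * g) := by group
      rw [← Module.End.mul_apply, ← map_mul, h3, map_mul, Module.End.mul_apply,
        hw _ (hCconj g ⟨c, hc⟩)])
    rcases h2 with h2 | h2
    · exfalso
      have h3 : v ∈ (⊥ : Submodule ℂ V) := by
        rw [← h2]
        intro c hc
        have h4 := hv ⟨c, hc⟩
        rw [h1] at h4
        simpa using h4
      exact hv0 ((Submodule.mem_bot ℂ).1 h3)
    · intro c hc
      ext w
      have h3 : w ∈ (⊤ : Submodule ℂ V) := Submodule.mem_top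
      rw [← h2] at h3
      exact h3 c hc
  refine ⟨lam, ⟨?_, hdis, hCS, ?_, hst lam hlam⟩, ?_⟩
  · intro x t ht
    exact hCconj x ⟨t, ht⟩
  · intro x _
    obtain ⟨i, hi⟩ := act C hC hcyc x
    refine ⟨i, fun a b hab => ?_⟩
    have h1 : b = a ^ i := Subtype.ext (by rw [hab, hi a a.2]; rfl)
    rw [h1, map_pow]
  · refine HEAx.char_of ρ hirr C lam v hv0 hv ?_
    refine Module.End.eigenvectors_linearIndependent' (ρ (c₀ : G))
      (fun q : G ⧸ C => ((lam ⟨q.out⁻¹ * (c₀ : G) * q.out, hCconj q.out c₀⟩ : ℂˣ) : ℂ)) ?_ _ ?_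
    · intro q q' hqq
      have h1 : lam ⟨q.out⁻¹ * (c₀ : G) * q.out, hCconj q.out c₀⟩ =
          lam ⟨q'.out⁻¹ * (c₀ : G) * q'.out, hCconj q'.out c₀⟩ := Units.ext hqq
      have h2 : ∀ c : C, lam ⟨q.out⁻¹ * (c : G) * q.out, hCconj q.out c⟩ =
          lam ⟨q'.out⁻¹ * (c : G) * q'.out, hCconj q'.out c⟩ := by
        intro c
        obtain ⟨k, hk'⟩ := hgen c
        subst hk'
        have h3 : ∀ y : G, (⟨y⁻¹ * ((c₀ ^ k : C) : G) * y, hCconj y (c₀ ^ k)⟩ : C) =
            (⟨y⁻¹ * (c₀ : G) * y, hCconj y c₀⟩ : C) ^ k := by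
          intro y
          apply Subtype.ext
          show y⁻¹ * ((c₀ ^ k : C) : G) * y = (y⁻¹ * (c₀ : G) * y) ^ k
          rw [Subgroup.coe_pow]
          have := conj_pow (i := k) (a := y⁻¹) (b := (c₀ : G))
          rw [inv_inv] at this
          exact this.symm
        rw [h3, h3, map_pow, map_pow, h1]
      -- `x = q⁻¹ q'` fixes `lam`
      have h3 : ∀ a b : C, (b : G) = (q.out⁻¹ * q'.out)⁻¹ * a * (q.out⁻¹ * q'.out) →
          lam b = lam a := by
        intro c b hb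
        have h4 : q.out * (c : G) * q.out⁻¹ ∈ C := hC.conj_mem c c.2 q.out
        have h5 := h2 ⟨q.out * (c : G) * q.out⁻¹, h4⟩
        have e1 : (⟨q.out⁻¹ * (q.out * (c : G) * q.out⁻¹) * q.out,
            hCconj q.out ⟨_, h4⟩⟩ : C) = c := by
          apply Subtype.ext
          show q.out⁻¹ * (q.out * (c : G) * q.out⁻¹) * q.out = (c : G)
          group
        have e2 : (⟨q'.out⁻¹ * (q.out * (c : G) * q.out⁻¹) * q'.out,
            hCconj q'.out ⟨_, h4⟩⟩ : C) = b := by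
          apply Subtype.ext
          show q'.out⁻¹ * (q.out * (c : G) * q.out⁻¹) * q'.out = (b : G)
          rw [hb]
          group
        rw [← e2]
        refine h5.symm.trans ?_
        exact congrArg lam e1
      obtain ⟨c, hc, x, hx, hcx⟩ := hCS (q.out⁻¹ * q'.out)
      have hx1 : x = 1 := by
        refine hst lam hlam x hx fun a b hb => ?_
        refine h3 a b ?_
        rw [hb, hcx]
        have h6 : c⁻¹ * (a : G) * c = a := by
          rw [mul_assoc, hCcomm a a.2 c hc, inv_mul_cancel_left]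
        calc x⁻¹ * (a : G) * x = x⁻¹ * (c⁻¹ * (a : G) * c) * x := by rw [h6]
          _ = (c * x)⁻¹ * (a : G) * (c * x) := by group
      rw [← QuotientGroup.out_eq' q, ← QuotientGroup.out_eq' q', QuotientGroup.eq, hcx, hx1,
        mul_one]
      exact hc
    · intro q
      refine ⟨Module.End.mem_eigenspace_iff.2 ?_, ?_⟩
      · have h1 : (c₀ : G) * q.out = q.out * (q.out⁻¹ * (c₀ : G) * q.out) := by group
        rw [← Module.End.mul_apply, ← map_mul, h1, map_mul, Module.End.mul_apply]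
        have h2 := hv ⟨q.out⁻¹ * (c₀ : G) * q.out, hCconj q.out c₀⟩
        rw [h2, map_smul]
      · intro h0
        apply hv0
        have h1 : ρ q.out⁻¹ (ρ q.out v) = v := by
          rw [← Module.End.mul_apply, ← map_mul, inv_mul_cancel, map_one, Module.End.one_apply]
        rw [← h1, h0, map_zero]

end

section

variable {G : Type} [Group G] [Fintype G] {T : Subgroup G} {ψ : T →* ℂˣ} {P : Subgroup G}

/-- The trace over any field. -/
theorem trF_any (h : HolD T ψ P) (F : IntermediateField ℚ ℂ) (hF : FiniteDimensional ℚ F) :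
    MonC (orderOf ψ) (SOL3x.trF F (indFun T (extZ ψ))) := by
  have hN0 : 0 < orderOf ψ := HOF2x.s_pos
  let O : Finset (G → ℂ) := ((Ex (orderOf ψ)).image (HOF2x.f (G := G) ψ)).filter
    (fun p => p ∈ SOL3x.Cj F (indFun T (extZ ψ)))
  have hO : ∀ p, p ∈ O ↔ p ∈ SOL3x.Cj F (indFun T (extZ ψ)) := by
    intro p
    rw [Finset.mem_filter]
    refine ⟨fun h1 => h1.2, fun h1 => ⟨?_, h1⟩⟩
    obtain ⟨σ, -, rfl⟩ := h1
    obtain ⟨u, hu, hact⟩ := VINx.act σ (orderOf ψ) hN0
    rw [← HOF2x.f_one, HOF2x.gcj_f σ u hact, one_mul, ← HOF2x.f_mod]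
    exact Finset.mem_image_of_mem _ (ZTRx.mod_mem hN0 hu)
  have e : SOL3x.trF F (indFun T (extZ ψ)) =
      fun x => ∑ i : Fin O.card, ((O.equivFin.symm i : G → ℂ)) x := by
    funext x
    rw [SOL3x.trF_eq F hF (indFun T (extZ ψ)) (fun g => by
      rw [← HOF2x.f_one]; exact HOF2x.f_int h 1 g) O hO x, ← Finset.sum_coe_sort]
    exact (Equiv.sum_comp O.equivFin.symm fun p : O => (p : G → ℂ) x).symm
  rw [e]
  refine HOF3x.monC_sum _ _ _ fun i => ?_
  have h1 := (O.equivFin.symm i).2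
  obtain ⟨t, -, ht⟩ := Finset.mem_image.1 (Finset.mem_filter.1 h1).1
  rw [← ht]
  refine ⟨1, fun _ => T, fun _ => ψ ^ t, fun _ => 1, fun _ => ?_, fun g => ?_⟩
  · refine MonoidHom.ext fun x => ?_
    show ((ψ x) ^ t) ^ orderOf ψ = 1
    rw [← pow_mul, mul_comm, pow_mul, (HOF2x.ord_dvd ψ _).1 dvd_rfl x, one_pow]
  · rw [Fin.sum_univ_one, Int.cast_one, one_mul]
    rfl

end

/-- In a group with elements of prime power order. -/
theorem free {G : Type} [Group G] [Finite G] (hE : PPO G) (p : ℕ) (hp : p.Prime)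
    (C S : Subgroup G) (hpC : ¬ p ∣ Nat.card C) (hS : IsPGroup p S)
    (hdis : ∀ x ∈ C, x ∈ S → x = 1) (x c : G) (hx : x ∈ S) (hc : c ∈ C) (hc1 : c ≠ 1)
    (hxc : x * c = c * x) : x = 1 := by
  obtain ⟨q, k, hq, hk⟩ := hE (x * c)
  have hcm : Commute x c := hxc
  rw [hcm.mul_pow] at hk
  have h1 : x ^ q ^ k = 1 := by
    have h2 : x ^ q ^ k = (c ^ q ^ k)⁻¹ := eq_inv_of_mul_eq_one_left hk
    refine hdis _ ?_ (S.pow_mem hx _)
    rw [h2]
    exact C.inv_mem (C.pow_mem hc _)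
  have h2 : c ^ q ^ k = 1 := by rwa [h1, one_mul] at hk
  have hqp : q ≠ p := by
    rintro rfl
    apply hpC
    have h3 : orderOf c ∣ Nat.card C := by
      have h4 : orderOf (⟨c, hc⟩ : C) ∣ Nat.card C := orderOf_dvd_natCard _
      rwa [Subgroup.orderOf_mk] at h4
    have h4 := orderOf_dvd_of_pow_eq_one h2
    obtain ⟨m, -, hm⟩ := (Nat.dvd_prime_pow hq).1 h4
    have hm0 : m ≠ 0 := by
      rintro rfl
      rw [pow_zero] at hm
      exact hc1 (orderOf_eq_one_iff.1 hm)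
    rw [hm] at h3
    exact (dvd_pow_self q hm0).trans h3
  obtain ⟨j, hj⟩ := hS ⟨x, hx⟩
  have hj' : x ^ p ^ j = 1 := congrArg Subtype.val hj
  have h3 := Nat.dvd_gcd (orderOf_dvd_of_pow_eq_one h1) (orderOf_dvd_of_pow_eq_one hj')
  rw [Nat.Coprime.gcd_eq_one (Nat.Coprime.pow _ _ ((Nat.coprime_primes hq hp).2 hqp))] at h3
  exact orderOf_eq_one_iff.1 (Nat.dvd_one.1 h3)

end HEPx

open HEPx

theorem inB_of_ppo {H W : Type} [Group H] [Fintype H] [AddCommGroup W] [Module ℂ W]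
    [Module.Finite ℂ W] (τ : Representation ℂ H W) (hτ : τ.IsIrreducible) (hE : PPO H)
    (hN : NoSymp H) (hH : IsQuasiElem H) (F : IntermediateField ℚ ℂ)
    (hF : FiniteDimensional ℚ F) : InB F τ := by
  obtain ⟨p, C, hp, hC, hcyc, hpC, n, hn⟩ := hH
  have : Fact p.Prime := ⟨hp⟩
  obtain ⟨S⟩ := (inferInstance : Nonempty (Sylow p H))
  have hcard : Nat.card C * p ^ n = Nat.card H := by
    rw [← hn]
    exact C.card_mul_index
  have hS : Nat.card (S : Subgroup H) = p ^ n := by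
    rw [Sylow.card_eq_multiplicity, ← hcard]
    congr 1
    rw [Nat.factorization_mul Nat.card_pos.ne' (pow_ne_zero _ hp.ne_zero), Finsupp.add_apply,
      Nat.factorization_eq_zero_of_not_dvd hpC, hp.factorization_pow]
    simp
  have hcomp : Subgroup.IsComplement' C (S : Subgroup H) := by
    refine Subgroup.isComplement'_of_coprime (by rw [hS, hcard]) ?_
    rw [hS]
    exact Nat.Coprime.pow_right n ((Nat.Prime.coprime_iff_not_dvd hp).2 hpC).symm
  have hCS : ∀ g : H, ∃ c ∈ C, ∃ x ∈ (S : Subgroup H), g = c * x := fun g => by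
    obtain ⟨⟨c, s⟩, h, -⟩ := hcomp.existsUnique g
    exact ⟨c, c.2, s, s.2, h.symm⟩
  have hdis : ∀ x ∈ C, x ∈ (S : Subgroup H) → x = 1 := fun x hx hx' => by
    have h1 := hcomp.disjoint.le_bot (Subgroup.mem_inf.2 ⟨hx, hx'⟩)
    exact Subgroup.mem_bot.1 h1
  -- first alternative
  have key : ∀ (q : ℕ) (D : Subgroup H), q.Prime → IsPGroup q D → (∀ g, ∃ d ∈ D, τ g = τ d) →
      InB F τ := by
    intro q D hq hD hG
    obtain ⟨h1, j, h2⟩ := nilNS_of τ hτ q hq D hD hG hN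
    exact Or.inl ⟨Or.inl h1, q, j, hq, inf_le_right.trans h2⟩
  by_cases hC1 : ∀ c ∈ C, τ c = 1
  · refine key p S hp S.isPGroup' fun g => ?_
    obtain ⟨c, hc, s, hs, rfl⟩ := hCS g
    exact ⟨s, hs, by rw [map_mul, hC1 c hc, one_mul]⟩
  obtain ⟨c₀, hc₀⟩ := hcyc.exists_generator
  have hgen : ∀ c ∈ C, ∃ k : ℕ, (c₀ : H) ^ k = c := fun c hc => by
    obtain ⟨k, hk⟩ := mem_powers_iff_mem_zpowers.2 (hc₀ ⟨c, hc⟩)
    exact ⟨k, congrArg Subtype.val hk⟩
  obtain ⟨l, a, hl, ha⟩ := hE (c₀ : H)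
  by_cases hS1 : ∀ x ∈ (S : Subgroup H), x = 1
  · have : Fact l.Prime := ⟨hl⟩
    refine key l C hl (fun c => ⟨a, ?_⟩) fun g => ?_
    · obtain ⟨k, hk⟩ := hgen c c.2
      apply Subtype.ext
      show (c : H) ^ l ^ a = 1
      rw [← hk, ← pow_mul, mul_comm, pow_mul, ha, one_pow]
    · obtain ⟨c, hc, s, hs, rfl⟩ := hCS g
      exact ⟨c, hc, by rw [hS1 s hs, mul_one]⟩
  -- the element of order `l`
  have hc₀1 : (c₀ : H) ≠ 1 := by
    intro h1
    apply hC1
    intro c hc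
    obtain ⟨k, hk⟩ := hgen c hc
    rw [← hk, h1, one_pow, map_one]
  obtain ⟨b, -, hb⟩ := (Nat.dvd_prime_pow hl).1 (orderOf_dvd_of_pow_eq_one ha)
  have hb0 : b ≠ 0 := by
    rintro rfl
    rw [pow_zero] at hb
    exact hc₀1 (orderOf_eq_one_iff.1 hb)
  obtain ⟨b', rfl⟩ := Nat.exists_eq_succ_of_ne_zero hb0
  obtain ⟨c₁, hc₁⟩ : ∃ c₁, c₁ = (c₀ : H) ^ l ^ b' := ⟨_, rfl⟩
  have hc₁C : c₁ ∈ C := by
    rw [hc₁]
    exact C.pow_mem c₀.2 _
  have hc₁1 : c₁ ≠ 1 := by
    intro h1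
    rw [hc₁] at h1
    have h2 := orderOf_dvd_of_pow_eq_one h1
    rw [hb] at h2
    have h3 := (Nat.pow_dvd_pow_iff_le_right hl.one_lt).1 h2
    omega
  have hc₁l : c₁ ^ l = 1 := by
    rw [hc₁, ← pow_mul, ← pow_succ, ← hb, pow_orderOf_eq_one]
  have hmod : ∀ i : ℕ, i ≡ 1 [MOD l] → c₁ ^ i = c₁ := by
    intro i hi
    have h1 : orderOf c₁ ∣ l := orderOf_dvd_of_pow_eq_one hc₁l
    have h2 : c₁ ^ i = c₁ ^ 1 := pow_eq_pow_iff_modEq.2 (hi.of_dvd h1)
    rwa [pow_one] at h2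
  have hfree : ∀ x ∈ (S : Subgroup H), x⁻¹ * c₁ * x = c₁ → x = 1 := by
    intro x hx h1
    refine free hE p hp C S hpC S.isPGroup' hdis x c₁ hx hc₁C hc₁1 ?_
    conv_lhs => rw [← h1]
    group
  have hl2 : l ≠ 2 := by
    rintro rfl
    apply hS1
    intro x hx
    apply hfree x hx
    obtain ⟨i, hi⟩ := act C hC hcyc x
    rw [hi c₁ hc₁C]
    apply hmod
    rcases Nat.even_or_odd i with h1 | h1
    · exfalso
      obtain ⟨m, hm⟩ := h1
      have h2 := hi c₁ hc₁C
      rw [hm, ← two_mul, pow_mul, hc₁l, one_pow] at h2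
      apply hc₁1
      have h3 : c₁ = x * (x⁻¹ * c₁ * x) * x⁻¹ := by group
      rw [h3, h2, mul_one, mul_inv_cancel]
    · exact Nat.odd_iff.1 h1
  have hst : ∀ lam : C →* ℂˣ, lam ≠ 1 → ∀ x ∈ (S : Subgroup H),
      (∀ a b : C, (b : H) = x⁻¹ * a * x → lam b = lam a) → x = 1 := by
    intro lam hlam x hx hfix
    apply hfree x hx
    obtain ⟨i, hi⟩ := act C hC hcyc x
    rw [hi c₁ hc₁C]
    apply hmod
    have h1 : lam c₀ ^ i = lam c₀ ^ 1 := by
      rw [← map_pow, pow_one]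
      exact hfix c₀ (c₀ ^ i) (by rw [hi _ c₀.2]; rfl)
    have h2 : i ≡ 1 [MOD orderOf (lam c₀)] := pow_eq_pow_iff_modEq.1 h1
    refine h2.of_dvd ?_
    have h3 : lam c₀ ^ l ^ a = 1 := by
      rw [← map_pow]
      have h4 : c₀ ^ l ^ a = 1 := Subtype.ext ha
      rw [h4, map_one]
    obtain ⟨m, -, hm⟩ := (Nat.dvd_prime_pow hl).1 (orderOf_dvd_of_pow_eq_one h3)
    rw [hm]
    refine dvd_pow_self l ?_
    rintro rfl
    rw [pow_zero] at hm
    apply hlam
    have h4 := orderOf_eq_one_iff.1 hm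
    ext c
    obtain ⟨k, hk⟩ := hgen c c.2
    have h5 : c = c₀ ^ k := Subtype.ext hk.symm
    rw [h5, map_pow, h4, one_pow]
    rfl
  obtain ⟨ψ, hol, hχ⟩ := hol_of_free τ hτ C S hC hcyc hdis hCS hst hC1
  have e : τ.character = indFun C (extZ ψ) := funext hχ
  have h3 : orderOf ψ ∣ l ^ a := by
    rw [HOF2x.ord_dvd]
    intro c
    obtain ⟨k, hk⟩ := hgen c c.2
    have h5 : c = c₀ ^ k := Subtype.ext hk.symm
    have h4 : c₀ ^ l ^ a = 1 := Subtype.ext ha
    rw [h5, map_pow, ← pow_mul, mul_comm, pow_mul, ← map_pow, h4, map_one, one_pow]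
  obtain ⟨m, -, hm⟩ := (Nat.dvd_prime_pow hl).1 h3
  have h4 := trF_any hol F hF
  rw [hm] at h4
  refine Or.inr (Or.inr ⟨l ^ m, pow_pos hl.pos m, ?_, ?_, ?_⟩)
  · exact ZMod.isCyclic_units_of_prime_pow l hl hl2 m
  · rw [e]
    exact (GTRx.mon_iff _ _).2 h4
  · rw [e]
    exact (GTRx.perm_iff _).2 (HOF3x.trChar_perm hol)

/-- All characters of groups in which every element has prime power order and no `2`-subgroup has a
symplectic irreducible representation. -/
theorem inH_of_ppo {G V : Type} [Group G] [Fintype G] [AddCommGroup V] [Module ℂ V]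
    [Module.Finite ℂ V] (ρ : Representation ℂ G V) (hE : PPO G) (hN : NoSymp G) : InH ρ := by
  have hF : FiniteDimensional ℚ (charField ρ.character) := by
    have h1 : charField ρ.character ≤ rootField (Nat.card G) :=
      charField_le ρ _ Nat.card_pos fun g => by rw [← map_pow, pow_card_eq_one', map_one]
    exact ZENx.fin_of Nat.card_pos _ h1
  intro H hH W _ _ _ τ hτ _
  exact inB_of_ppo τ hτ (NSYx.PPO.subgroup hE H) (NSYx.subgroup hN H) hH _ hF

end StarkC.ABS
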