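import Pool.Agent.ABS.StHO
import Pool.Agent.ABS.VAR

/-!
# Project ABS (MP_46b841_nt): the trace formulas for split images `C_N ⋊ P` (helper72)
-/

set_option autoImplicit false

open scoped Classical

namespace StarkC.ABS

namespace HOF1x

/-! ### Orthogonality and Möbius -/

theorem orth {T : Type} [Group T] [Fintype T] (χ : T →* ℂˣ) (b : ℂˣ) (n m c : ℕ)
    (hn : m * c = n) (hb : b ^ n = 1) (hχ : ∀ t, χ t ^ n = 1) :
    (m : ℂ) * ((Finset.univ.filter fun t : T => (b * χ t) ^ c = 1).card : ℂ) =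
      (Fintype.card T : ℂ) * ∑ j ∈ Finset.range m,
        if ∀ t, χ t ^ (c * j) = 1 then ((b : ℂˣ) : ℂ) ^ (c * j) else 0 := by
  have h1 : ∀ t : T, ∑ j ∈ Finset.range m, (((b * χ t : ℂˣ) : ℂ) ^ c) ^ j =
      if (b * χ t) ^ c = 1 then (m : ℂ) else 0 := by
    intro t
    have h2 : ((((b * χ t : ℂˣ) : ℂ)) ^ c) ^ m = 1 := by
      rw [← pow_mul, mul_comm c m, hn, ← Units.val_pow_eq_pow_val, mul_pow, hb, one_mul,
        hχ, Units.val_one]
    split_ifs with h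
    · have h3 : (((b * χ t : ℂˣ) : ℂ)) ^ c = 1 := by
        rw [← Units.val_pow_eq_pow_val, h, Units.val_one]
      rw [h3]
      simp
    · have h3 : (((b * χ t : ℂˣ) : ℂ)) ^ c ≠ 1 := by
        intro h4
        apply h
        rw [← Units.val_pow_eq_pow_val] at h4
        exact Units.val_eq_one.1 h4
      rw [geom_sum_eq h3, h2, sub_self, zero_div]
  have h2 : ∑ t : T, ∑ j ∈ Finset.range m, (((b * χ t : ℂˣ) : ℂ) ^ c) ^ j =
      (m : ℂ) * ((Finset.univ.filter fun t : T => (b * χ t) ^ c = 1).card : ℂ) := by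
    rw [Finset.sum_congr rfl fun t _ => h1 t, ← Finset.sum_filter, Finset.sum_const,
      nsmul_eq_mul, mul_comm]
  rw [← h2, Finset.sum_comm, Finset.mul_sum]
  refine Finset.sum_congr rfl fun j _ => ?_
  have h3 : ∀ t : T, (((b * χ t : ℂˣ) : ℂ) ^ c) ^ j =
      ((b : ℂˣ) : ℂ) ^ (c * j) * (((Units.coeHom ℂ).comp (χ ^ (c * j))) t) := by
    intro t
    rw [← pow_mul, Units.val_mul, mul_pow]
    rfl
  rw [Finset.sum_congr rfl fun t _ => h3 t, ← Finset.mul_sum, sum_hom_units]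
  by_cases h : ∀ t, χ t ^ (c * j) = 1
  · have h4 : (Units.coeHom ℂ).comp (χ ^ (c * j)) = 1 :=
      MonoidHom.ext fun t => congrArg Units.val (h t)
    rw [if_pos h, if_pos h4, mul_comm]
  · have h4 : (Units.coeHom ℂ).comp (χ ^ (c * j)) ≠ 1 := by
      intro h5
      apply h
      intro t
      exact Units.ext (DFunLike.congr_fun h5 t)
    rw [if_neg h, if_neg h4, Nat.cast_zero, mul_zero, mul_zero]

theorem moebius (n : ℕ) (hn : 0 < n) (f : ℕ → ℂ) :
    ∑ c ∈ n.divisors, ((ArithmeticFunction.moebius c : ℤ) : ℂ) * ∑ j ∈ Finset.range (n / c), f (c * j) =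
      ∑ k ∈ Ex n, f k := by
  have h1 : ∀ c ∈ n.divisors, ∑ j ∈ Finset.range (n / c), f (c * j) =
      ∑ k ∈ Finset.range n, if c ∣ k then f k else 0 := by
    intro c hc
    obtain ⟨⟨m, rfl⟩, -⟩ := Nat.mem_divisors.1 hc
    have hc0 : 0 < c := by
      rcases Nat.eq_zero_or_pos c with h0 | h0
      · rw [h0, zero_mul] at hn
        exact absurd hn (lt_irrefl 0)
      · exact h0
    rw [Nat.mul_div_cancel_left m hc0, ← Finset.sum_filter]
    refine Finset.sum_bij (fun j _ => c * j) ?_ ?_ ?_ ?_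
    · intro j hj
      rw [Finset.mem_filter, Finset.mem_range]
      exact ⟨(Nat.mul_lt_mul_left hc0).2 (Finset.mem_range.1 hj), dvd_mul_right c j⟩
    · intro j _ j' _ h
      exact Nat.eq_of_mul_eq_mul_left hc0 h
    · intro k hk
      rw [Finset.mem_filter, Finset.mem_range] at hk
      obtain ⟨hk1, ⟨j, rfl⟩⟩ := hk
      exact ⟨j, Finset.mem_range.2 ((Nat.mul_lt_mul_left hc0).1 hk1), rfl⟩
    · intro j _
      rfl
  rw [Finset.sum_congr rfl fun c hc => by rw [h1 c hc]]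
  simp only [Finset.mul_sum]
  rw [Finset.sum_comm]
  unfold Ex
  rw [Finset.sum_filter]
  refine Finset.sum_congr rfl fun k _ => ?_
  have h2 : ∑ c ∈ n.divisors, ((ArithmeticFunction.moebius c : ℤ) : ℂ) * (if c ∣ k then f k else 0) =
      (∑ c ∈ (Nat.gcd n k).divisors, ((ArithmeticFunction.moebius c : ℤ) : ℂ)) * f k := by
    rw [Finset.sum_mul]
    have h3 : (Nat.gcd n k).divisors = n.divisors.filter fun c => c ∣ k := by
      ext c
      rw [Nat.mem_divisors, Finset.mem_filter, Nat.mem_divisors, Nat.dvd_gcd_iff]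
      constructor
      · rintro ⟨⟨h4, h5⟩, -⟩
        exact ⟨⟨h4, hn.ne'⟩, h5⟩
      · rintro ⟨⟨h4, -⟩, h5⟩
        exact ⟨⟨h4, h5⟩, (Nat.gcd_pos_of_pos_left _ hn).ne'⟩
    rw [h3, Finset.sum_filter]
    refine Finset.sum_congr rfl fun c _ => ?_
    split_ifs
    · rfl
    · rw [mul_zero]
  rw [h2]
  have h4 : (∑ c ∈ (Nat.gcd n k).divisors, (ArithmeticFunction.moebius c : ℤ)) =
      if Nat.gcd n k = 1 then 1 else 0 := by
    have h5 := congrArg (fun F : ArithmeticFunction ℤ => F (Nat.gcd n k))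
      ArithmeticFunction.moebius_mul_coe_zeta
    rw [ArithmeticFunction.coe_mul_zeta_apply, ArithmeticFunction.one_apply] at h5
    exact h5
  have h6 : (∑ c ∈ (Nat.gcd n k).divisors, ((ArithmeticFunction.moebius c : ℤ) : ℂ)) =
      if n.Coprime k then 1 else 0 := by
    rw [← Int.cast_sum, h4]
    unfold Nat.Coprime
    split_ifs <;> simp
  rw [h6]
  split_ifs
  · rw [one_mul]
  · rw [zero_mul]

/-! ### The data -/

/-- `G = T ⋊ P`, acting on `α`, `β` by the powers `s`. -/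
structure Dat {G : Type} [Group G] (T : Subgroup G) (α β : T →* ℂˣ) (P : Subgroup G)
    (s : G → ℕ) : Prop where
  norm : ∀ x : G, ∀ t ∈ T, x⁻¹ * t * x ∈ T
  disj : ∀ x ∈ T, x ∈ P → x = 1
  gen : ∀ g : G, ∃ t ∈ T, ∃ x ∈ P, g = t * x
  actA : ∀ x ∈ P, ∀ a b : T, (b : G) = x⁻¹ * a * x → α b = α a ^ s x
  actB : ∀ x ∈ P, ∀ a b : T, (b : G) = x⁻¹ * a * x → β b = β a ^ s x
  faith : ∀ x ∈ P, (∀ a b : T, (b : G) = x⁻¹ * a * x → α b = α a ∧ β b = β a) → x = 1

section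

variable {G : Type} [Group G] {T : Subgroup G} {α β : T →* ℂˣ} {P : Subgroup G} {s : G → ℕ}

theorem Dat.norm' (D : Dat T α β P s) (x : G) (t : G) (ht : t ∈ T) : x * t * x⁻¹ ∈ T := by
  have h := D.norm x⁻¹ t ht
  rwa [inv_inv] at h

/-- Conjugation. -/
def kap (D : Dat T α β P s) (x : G) : T →* T where
  toFun t := ⟨x * t * x⁻¹, D.norm' x t t.2⟩
  map_one' := Subtype.ext (by simp)
  map_mul' a b := Subtype.ext (by
    show x * ((a : G) * b) * x⁻¹ = x * a * x⁻¹ * (x * b * x⁻¹)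
    group)

/-- The elements of `P` acting trivially on `α`. -/
def D1 (D : Dat T α β P s) : Subgroup G where
  carrier := {x | x ∈ P ∧ ∀ a b : T, (b : G) = x⁻¹ * a * x → α b = α a}
  one_mem' := ⟨P.one_mem, fun a b h => by
    have : b = a := Subtype.ext (by rw [h]; group)
    rw [this]⟩
  mul_mem' := by
    rintro x y ⟨hx, hx'⟩ ⟨hy, hy'⟩
    refine ⟨P.mul_mem hx hy, fun a b h => ?_⟩
    rw [hy' ⟨x⁻¹ * a * x, D.norm x a a.2⟩ b (by rw [h]; show _ = y⁻¹ * (x⁻¹ * a * x) * y; group)]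
    exact hx' a _ rfl
  inv_mem' := by
    rintro x ⟨hx, hx'⟩
    refine ⟨P.inv_mem hx, fun a b h => ?_⟩
    exact (hx' b a (by rw [h]; group)).symm

theorem mem_D1 (D : Dat T α β P s) {x : G} :
    x ∈ D1 D ↔ x ∈ P ∧ ∀ a b : T, (b : G) = x⁻¹ * a * x → α b = α a := Iff.rfl

/-- `K_c D_1`. -/
def W (D : Dat T α β P s) (c : ℕ) : Subgroup G where
  carrier := {g | ∃ (a : T) (x : G), x ∈ D1 D ∧ g = a * x ∧ β a ^ c = 1}
  one_mem' := ⟨1, 1, (D1 D).one_mem, by simp, by rw [map_one, one_pow]⟩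
  mul_mem' := by
    rintro _ _ ⟨a, x, hx, rfl, ha⟩ ⟨b, y, hy, rfl, hb⟩
    refine ⟨a * kap D x b, x * y, (D1 D).mul_mem hx hy, ?_, ?_⟩
    · show (a : G) * x * (b * y) = a * (x * b * x⁻¹) * (x * y)
      group
    · have h1 : β (kap D x b) = β b ^ s x⁻¹ :=
        D.actB x⁻¹ (P.inv_mem hx.1) b (kap D x b) (by
          show x * (b : G) * x⁻¹ = _
          rw [inv_inv])
      rw [map_mul, mul_pow, ha, one_mul, h1, ← pow_mul, mul_comm, pow_mul, hb, one_pow]
  inv_mem' := by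
    rintro _ ⟨a, x, hx, rfl, ha⟩
    refine ⟨kap D x⁻¹ a⁻¹, x⁻¹, (D1 D).inv_mem hx, ?_, ?_⟩
    · show ((a : G) * x)⁻¹ = x⁻¹ * (a : G)⁻¹ * x⁻¹⁻¹ * x⁻¹
      group
    · have h1 : β (kap D x⁻¹ a⁻¹) = β a⁻¹ ^ s x :=
        D.actB x hx.1 a⁻¹ (kap D x⁻¹ a⁻¹) (by
          show x⁻¹ * ((a⁻¹ : T) : G) * x⁻¹⁻¹ = _
          rw [inv_inv])
      rw [h1, ← pow_mul, mul_comm, pow_mul, map_inv, inv_pow, ha, inv_one, one_pow]

theorem mem_W (D : Dat T α β P s) {c : ℕ} {g : G} :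
    g ∈ W D c ↔ ∃ (a : T) (x : G), x ∈ D1 D ∧ g = a * x ∧ β a ^ c = 1 := Iff.rfl

theorem uniq (D : Dat T α β P s) {a b : T} {x y : G} (hx : x ∈ P) (hy : y ∈ P)
    (h : (a : G) * x = b * y) : a = b ∧ x = y := by
  have h1 : (b : G)⁻¹ * a = y * x⁻¹ := by
    have h2 : (b : G)⁻¹ * (a * x) * x⁻¹ = (b : G)⁻¹ * (b * y) * x⁻¹ := by rw [h]
    calc (b : G)⁻¹ * a = (b : G)⁻¹ * (a * x) * x⁻¹ := by group
      _ = (b : G)⁻¹ * (b * y) * x⁻¹ := h2
      _ = y * x⁻¹ := by group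
  have h2 : (b : G)⁻¹ * a = 1 := D.disj _ (T.mul_mem (T.inv_mem b.2) a.2) (by
    rw [h1]
    exact P.mul_mem hy (P.inv_mem hx))
  have h3 : (a : G) = b := by
    rw [inv_mul_eq_one] at h2
    exact h2.symm
  refine ⟨Subtype.ext h3, ?_⟩
  rw [h3] at h
  exact mul_left_cancel h

theorem mem_W' (D : Dat T α β P s) {c : ℕ} {a : T} {x : G} (hx : x ∈ P) :
    (a : G) * x ∈ W D c ↔ x ∈ D1 D ∧ β a ^ c = 1 := by
  constructor
  · rintro ⟨b, y, hy, h, hb⟩
    obtain ⟨rfl, rfl⟩ := uniq D hx hy.1 h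
    exact ⟨hy, hb⟩
  · rintro ⟨h1, h2⟩
    exact ⟨a, x, h1, rfl, h2⟩

/-- The linear character `a x ↦ α a` of `K_c D_1`. -/
noncomputable def phi (D : Dat T α β P s) (c : ℕ) : W D c →* ℂˣ where
  toFun g := α (Classical.choose ((mem_W D).1 g.2))
  map_one' := by
    obtain ⟨y, hy, h, hb⟩ := Classical.choose_spec ((mem_W D).1 (1 : W D c).2)
    have h1 : ((1 : T) : G) * 1 = (Classical.choose ((mem_W D).1 (1 : W D c).2) : T) * y := by
      rw [← h]
      show (1 : G) * 1 = 1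
      rw [mul_one]
    rw [← (uniq D P.one_mem hy.1 h1).1, map_one]
  map_mul' g g' := by
    obtain ⟨y, hy, h, hb⟩ := Classical.choose_spec ((mem_W D).1 (g * g' : W D c).2)
    obtain ⟨x, hx, h1, ha⟩ := Classical.choose_spec ((mem_W D).1 g.2)
    obtain ⟨x', hx', h2, ha'⟩ := Classical.choose_spec ((mem_W D).1 g'.2)
    set a := Classical.choose ((mem_W D).1 g.2) with had
    set a' := Classical.choose ((mem_W D).1 g'.2) with had'
    have h3 : ((a * kap D x a' : T) : G) * (x * x') =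
        (Classical.choose ((mem_W D).1 (g * g' : W D c).2) : T) * y := by
      rw [← h]
      show (a : G) * (x * a' * x⁻¹) * (x * x') = (g : G) * g'
      rw [h1, h2]
      group
    rw [← (uniq D (P.mul_mem hx.1 hx'.1) hy.1 h3).1, map_mul]
    congr 1
    exact (hx.2 (kap D x a') a' (by
      show (a' : G) = x⁻¹ * (x * a' * x⁻¹) * x
      group)).symm

theorem phi_apply (D : Dat T α β P s) {c : ℕ} {a : T} {x : G} (hx : x ∈ P)
    (h : (a : G) * x ∈ W D c) : phi D c ⟨(a : G) * x, h⟩ = α a := by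
  show α (Classical.choose ((mem_W D).1 (⟨(a : G) * x, h⟩ : W D c).2)) = α a
  obtain ⟨y, hy, h1, hb⟩ := Classical.choose_spec ((mem_W D).1 (⟨(a : G) * x, h⟩ : W D c).2)
  exact congrArg α (uniq D hy.1 hx h1.symm).1

theorem extZ_phi (D : Dat T α β P s) {c : ℕ} {a : T} {x : G} (hx : x ∈ P) :
    extZ (phi D c) ((a : G) * x) =
      if x ∈ D1 D ∧ β a ^ c = 1 then ((α a : ℂˣ) : ℂ) else 0 := by
  unfold extZ
  by_cases h : (a : G) * x ∈ W D c
  · rw [dif_pos h, if_pos ((mem_W' D hx).1 h), phi_apply D hx h]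
  · rw [dif_neg h, if_neg fun h1 => h ((mem_W' D hx).2 h1)]

end

/-! ### Values -/

section

variable {G : Type} [Group G] [Fintype G] {T : Subgroup G} {α β : T →* ℂˣ} {P : Subgroup G}
  {s : G → ℕ}

theorem bij (D : Dat T α β P s) :
    Function.Bijective fun p : P × T => ((p.2 : T) : G) * (p.1 : P) := by
  constructor
  · rintro ⟨x, a⟩ ⟨y, b⟩ h
    obtain ⟨h1, h2⟩ := uniq D x.2 y.2 h
    exact Prod.ext (Subtype.ext h2) h1
  · intro g
    obtain ⟨a, ha, x, hx, rfl⟩ := D.gen g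
    exact ⟨(⟨x, hx⟩, ⟨a, ha⟩), rfl⟩

theorem sum_split (D : Dat T α β P s) (F : G → ℂ) :
    ∑ y : G, F y = ∑ z : P, ∑ t : T, F ((t : G) * z) := by
  rw [← Fintype.sum_prod_type']
  exact (Fintype.sum_bijective _ (bij D) _ _ fun p => rfl).symm

theorem D1_conj (D : Dat T α β P s) {x z : G} (hz : z ∈ P) (hx : x ∈ D1 D) :
    z⁻¹ * x * z ∈ D1 D := by
  refine ⟨P.mul_mem (P.mul_mem (P.inv_mem hz) hx.1) hz, fun a b h => ?_⟩
  have h1 : α b = α ⟨x⁻¹ * kap D z a * x, D.norm x _ (kap D z a).2⟩ ^ s z := by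
    refine D.actA z hz _ b ?_
    rw [h]
    show (z⁻¹ * x * z)⁻¹ * a * (z⁻¹ * x * z) = z⁻¹ * (x⁻¹ * (z * a * z⁻¹) * x) * z
    group
  have h2 : α ⟨x⁻¹ * kap D z a * x, D.norm x _ (kap D z a).2⟩ = α (kap D z a) :=
    hx.2 (kap D z a) _ rfl
  have h3 : α a = α (kap D z a) ^ s z := by
    refine D.actA z hz _ a ?_
    show (a : G) = z⁻¹ * (z * a * z⁻¹) * z
    group
  rw [h1, h2, ← h3]

theorem D1_conj_iff (D : Dat T α β P s) {x z : G} (hz : z ∈ P) :
    z⁻¹ * x * z ∈ D1 D ↔ x ∈ D1 D := by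
  constructor
  · intro h
    have h1 := D1_conj D (P.inv_mem hz) h
    have h2 : z⁻¹⁻¹ * (z⁻¹ * x * z) * z⁻¹ = x := by group
    rwa [h2] at h1
  · exact D1_conj D hz

/-- The defect of `β` under `x`. -/
def dft (D : Dat T α β P s) (x : G) : T →* ℂˣ := β.comp (kap D x) * β⁻¹

theorem dft_apply (D : Dat T α β P s) (x : G) (t : T) : dft D x t = β (kap D x t) * (β t)⁻¹ := rfl

theorem term (D : Dat T α β P s) (c : ℕ) (a : T) {x : G} (hx : x ∈ P) {z : G} (hz : z ∈ P)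
    (t : T) :
    (if ((t : G) * z)⁻¹ * ((a : G) * x) * ((t : G) * z) ∈ W D c then
      extZ (phi D c) (((t : G) * z)⁻¹ * ((a : G) * x) * ((t : G) * z)) else 0) =
    if x ∈ D1 D ∧ (β a * dft D x t) ^ c = 1 then ((α a : ℂˣ) : ℂ) ^ s z else 0 := by
  let u : T := t⁻¹ * a * kap D x t
  let v : T := ⟨z⁻¹ * u * z, D.norm z u u.2⟩
  have h1 : ((t : G) * z)⁻¹ * ((a : G) * x) * ((t : G) * z) = (v : G) * (z⁻¹ * x * z) := by
    show _ = z⁻¹ * ((t : G)⁻¹ * a * (x * t * x⁻¹)) * z * (z⁻¹ * x * z)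
    group
  have hxz : z⁻¹ * x * z ∈ P := P.mul_mem (P.mul_mem (P.inv_mem hz) hx) hz
  have hu : β u = β a * dft D x t := by
    rw [dft_apply]
    show β (t⁻¹ * a * kap D x t) = _
    rw [map_mul, map_mul, map_inv, mul_comm (β t)⁻¹, mul_assoc, mul_comm (β t)⁻¹]
  have hv : β v = β u ^ s z := D.actB z hz u v rfl
  have hv' : β u = β v ^ s z⁻¹ := by
    refine D.actB z⁻¹ (P.inv_mem hz) v u ?_
    show (u : G) = z⁻¹⁻¹ * (z⁻¹ * u * z) * z⁻¹
    group
  have hiff : β v ^ c = 1 ↔ β u ^ c = 1 := by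
    constructor
    · intro h
      rw [hv', ← pow_mul, mul_comm, pow_mul, h, one_pow]
    · intro h
      rw [hv, ← pow_mul, mul_comm, pow_mul, h, one_pow]
  rw [h1, extZ_phi D hxz]
  by_cases h : x ∈ D1 D ∧ (β a * dft D x t) ^ c = 1
  · have h2' : z⁻¹ * x * z ∈ D1 D ∧ β v ^ c = 1 :=
      ⟨(D1_conj_iff D hz).2 h.1, hiff.2 (by rw [hu]; exact h.2)⟩
    have h2 : (v : G) * (z⁻¹ * x * z) ∈ W D c := (mem_W' D hxz).2 h2'
    rw [if_pos h2, if_pos h2', if_pos h]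
    have h3 : α v = α u ^ s z := D.actA z hz u v rfl
    have h4 : α u = α a := by
      show α (t⁻¹ * a * kap D x t) = α a
      have h5 : α t = α (kap D x t) := by
        refine h.1.2 (kap D x t) t ?_
        show (t : G) = x⁻¹ * (x * t * x⁻¹) * x
        group
      rw [map_mul, map_mul, map_inv, ← h5, mul_comm (α t)⁻¹, mul_assoc, inv_mul_cancel, mul_one]
    rw [h3, h4, Units.val_pow_eq_pow_val]
  · have h2' : ¬ (z⁻¹ * x * z ∈ D1 D ∧ β v ^ c = 1) := fun h3 =>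
      h ⟨(D1_conj_iff D hz).1 h3.1, by rw [← hu]; exact hiff.1 h3.2⟩
    rw [if_neg h2', if_neg h]
    split_ifs <;> rfl

theorem dft_pow (D : Dat T α β P s) (n : ℕ) (hβ : orderOf β = n) (x : G) (t : T) :
    β t ^ n = 1 ∧ dft D x t ^ n = 1 := by
  have h1 : ∀ t, β t ^ n = 1 := fun t => by
    have h2 := DFunLike.congr_fun (pow_orderOf_eq_one β) t
    rw [hβ] at h2
    exact h2
  refine ⟨h1 t, ?_⟩
  rw [dft_apply, mul_pow, inv_pow, h1, h1, inv_one, mul_one]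

theorem card_W (D : Dat T α β P s) (c : ℕ) :
    (Nat.card (W D c) : ℂ) =
      ((Finset.univ.filter fun t : T => β t ^ c = 1).card : ℂ) * (Nat.card (D1 D) : ℂ) := by
  have e : {t : T // β t ^ c = 1} × D1 D ≃ W D c :=
    Equiv.ofBijective (fun p => ⟨(p.1.1 : G) * p.2.1, ⟨p.1.1, p.2.1, p.2.2, rfl, p.1.2⟩⟩) (by
      constructor
      · rintro ⟨⟨a, ha⟩, ⟨x, hx⟩⟩ ⟨⟨b, hb⟩, ⟨y, hy⟩⟩ h
        obtain ⟨rfl, rfl⟩ := uniq D hx.1 hy.1 (congrArg Subtype.val h)
        rfl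
      · rintro ⟨_, ⟨a, x, hx, rfl, ha⟩⟩
        exact ⟨(⟨a, ha⟩, ⟨x, hx⟩), rfl⟩)
  rw [← Nat.card_congr e, Nat.card_prod, Nat.cast_mul, Nat.card_eq_fintype_card,
    Fintype.card_subtype]

/-- The value of the induced character. -/
theorem ind_val (D : Dat T α β P s) (n : ℕ) (hn : 0 < n) (hβ : orderOf β = n) (c : ℕ)
    (hc : c ∣ n) (a : T) {x : G} (hx : x ∈ P) :
    (Nat.card (D1 D) : ℂ) * indFun (W D c) (extZ (phi D c)) ((a : G) * x) =
      if x ∈ D1 D then (∑ z : P, ((α a : ℂˣ) : ℂ) ^ s z) * ∑ j ∈ Finset.range (n / c),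
        (if ∀ t, dft D x t ^ (c * j) = 1 then ((β a : ℂˣ) : ℂ) ^ (c * j) else 0) else 0 := by
  obtain ⟨m, rfl⟩ := hc
  have hc0 : 0 < c := Nat.pos_of_mul_pos_right hn
  have hm0 : 0 < m := Nat.pos_of_mul_pos_left hn
  have hTc : (Fintype.card T : ℂ) ≠ 0 := by exact_mod_cast Fintype.card_ne_zero
  have hmc : (m : ℂ) ≠ 0 := by exact_mod_cast hm0.ne'
  have hβn : ∀ t, β t ^ (c * m) = 1 := fun t => (dft_pow D _ hβ x t).1
  have hdn : ∀ t, dft D x t ^ (c * m) = 1 := fun t => (dft_pow D _ hβ x t).2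
  have hK := orth β 1 (c * m) m c (mul_comm m c) (one_pow _) hβn
  have hK1 : ∑ j ∈ Finset.range m, (if ∀ t, β t ^ (c * j) = 1 then
      ((1 : ℂˣ) : ℂ) ^ (c * j) else 0) = (1 : ℂ) := by
    rw [Finset.sum_eq_single_of_mem 0 (Finset.mem_range.2 hm0)]
    · rw [if_pos fun t => by rw [mul_zero, pow_zero], mul_zero, pow_zero]
    · intro j hj hj0
      rw [if_neg]
      intro h
      have h1 : orderOf β ∣ c * j :=
        orderOf_dvd_of_pow_eq_one (x := β) (n := c * j) (MonoidHom.ext h)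
      rw [hβ] at h1
      have h2 := (Nat.mul_dvd_mul_iff_left hc0).1 h1
      exact absurd (Nat.le_of_dvd (Nat.pos_of_ne_zero hj0) h2) (not_le.2 (Finset.mem_range.1 hj))
  rw [hK1, mul_one] at hK
  have hKf : (Finset.univ.filter fun t : T => ((1 : ℂˣ) * β t) ^ c = 1) =
      Finset.univ.filter fun t : T => β t ^ c = 1 := by
    ext t
    rw [Finset.mem_filter, Finset.mem_filter, one_mul]
  rw [hKf] at hK
  have hC := orth (dft D x) (β a) (c * m) m c (mul_comm m c) (hβn a) hdn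
  rw [← hK, mul_assoc] at hC
  have hC' := mul_left_cancel₀ hmc hC
  rw [Nat.mul_div_cancel_left m hc0]
  unfold indFun
  rw [sum_split D, Finset.sum_congr rfl fun z _ => Finset.sum_congr rfl fun t _ =>
    term D c a hx z.2 t, card_W D c]
  by_cases h : x ∈ D1 D
  · rw [if_pos h]
    have h1 : ∀ z : P, ∑ t : T, (if x ∈ D1 D ∧ (β a * dft D x t) ^ c = 1 then
        ((α a : ℂˣ) : ℂ) ^ s z else 0) = ((α a : ℂˣ) : ℂ) ^ s z *
          ((Finset.univ.filter fun t : T => (β a * dft D x t) ^ c = 1).card : ℂ) := by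
      intro z
      rw [← Finset.sum_filter, Finset.sum_const, nsmul_eq_mul, mul_comm]
      congr 3
      ext t
      rw [Finset.mem_filter, Finset.mem_filter]
      exact ⟨fun h2 => ⟨h2.1, h2.2.2⟩, fun h2 => ⟨h2.1, h, h2.2⟩⟩
    rw [Finset.sum_congr rfl fun z _ => h1 z, ← Finset.sum_mul, hC']
    have hDc : (Nat.card (D1 D) : ℂ) ≠ 0 := by exact_mod_cast Nat.card_pos.ne'
    have hKc : ((Finset.univ.filter fun t : T => β t ^ c = 1).card : ℂ) ≠ 0 := by
      intro h2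
      rw [h2, mul_zero] at hK
      exact hTc hK.symm
    field_simp
  · rw [if_neg h, Finset.sum_eq_zero, zero_div, mul_zero]
    intro z _
    refine Finset.sum_eq_zero fun t _ => ?_
    rw [if_neg fun h2 => h h2.1]

/-- The first formula. -/
theorem formula (D : Dat T α β P s) (n : ℕ) (hn : 0 < n) (hβ : orderOf β = n) (a : T) {x : G}
    (hx : x ∈ P) :
    (Nat.card (D1 D) : ℂ) * ∑ c ∈ n.divisors, ((ArithmeticFunction.moebius c : ℤ) : ℂ) *
      indFun (W D c) (extZ (phi D c)) ((a : G) * x) =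
      if x = 1 then (∑ z : P, ((α a : ℂˣ) : ℂ) ^ s z) * ∑ k ∈ Ex n, ((β a : ℂˣ) : ℂ) ^ k
        else 0 := by
  have h1 : (Nat.card (D1 D) : ℂ) * ∑ c ∈ n.divisors, ((ArithmeticFunction.moebius c : ℤ) : ℂ) *
      indFun (W D c) (extZ (phi D c)) ((a : G) * x) =
      if x ∈ D1 D then (∑ z : P, ((α a : ℂˣ) : ℂ) ^ s z) * ∑ k ∈ Ex n,
        (if ∀ t, dft D x t ^ k = 1 then ((β a : ℂˣ) : ℂ) ^ k else 0) else 0 := by
    rw [Finset.mul_sum]
    have h2 : ∀ c ∈ n.divisors, (Nat.card (D1 D) : ℂ) *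
        (((ArithmeticFunction.moebius c : ℤ) : ℂ) *
          indFun (W D c) (extZ (phi D c)) ((a : G) * x)) =
        if x ∈ D1 D then (∑ z : P, ((α a : ℂˣ) : ℂ) ^ s z) *
          (((ArithmeticFunction.moebius c : ℤ) : ℂ) * ∑ j ∈ Finset.range (n / c),
            (if ∀ t, dft D x t ^ (c * j) = 1 then ((β a : ℂˣ) : ℂ) ^ (c * j) else 0)) else 0 := by
      intro c hc
      rw [mul_left_comm, ind_val D n hn hβ c (Nat.dvd_of_mem_divisors hc) a hx]
      split_ifs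
      · ring
      · rw [mul_zero]
    rw [Finset.sum_congr rfl h2]
    split_ifs with h
    · rw [← Finset.mul_sum, moebius n hn fun k => if ∀ t, dft D x t ^ k = 1 then
        ((β a : ℂˣ) : ℂ) ^ k else 0]
    · rw [Finset.sum_const_zero]
  rw [h1]
  have hdn : ∀ t, dft D x t ^ n = 1 := fun t => (dft_pow D _ hβ x t).2
  by_cases h : x = 1
  · subst h
    have h2 : ∀ t, dft D 1 t = 1 := by
      intro t
      rw [dft_apply]
      have h3 : kap D 1 t = t := Subtype.ext (by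
        show (1 : G) * t * 1⁻¹ = t
        group)
      rw [h3, mul_inv_cancel]
    rw [if_pos (D1 D).one_mem, if_pos rfl]
    congr 1
    refine Finset.sum_congr rfl fun k _ => ?_
    rw [if_pos fun t => by rw [h2, one_pow]]
  · rw [if_neg h]
    split_ifs with h2
    · have h0 : ∑ k ∈ Ex n, (if ∀ t, dft D x t ^ k = 1 then ((β a : ℂˣ) : ℂ) ^ k else 0) = 0 := ?_
      · rw [h0, mul_zero]
      refine Finset.sum_eq_zero fun k hk => ?_
      rw [if_neg]
      intro h3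
      apply h
      have h4 : ∀ t, dft D x t = 1 := by
        intro t
        have h5 : n.Coprime k := (Finset.mem_filter.1 hk).2
        have h6 := Nat.dvd_gcd (orderOf_dvd_of_pow_eq_one (hdn t))
          (orderOf_dvd_of_pow_eq_one (h3 t))
        rw [h5] at h6
        exact orderOf_eq_one_iff.1 (Nat.dvd_one.1 h6)
      refine D.faith x hx fun u v huv => ⟨h2.2 u v huv, ?_⟩
      have h7 := h4 v
      rw [dft_apply, mul_inv_eq_one] at h7
      rw [← h7]
      congr 1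
      refine Subtype.ext ?_
      show x * (v : G) * x⁻¹ = u
      rw [huv]
      group
    · rfl

end

end HOF1x

end StarkC.ABS
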