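import Pool.Agent.ABS.HOF1
import Pool.Agent.ABS.HEC
import Pool.Agent.ABS.FINC3
import Pool.Agent.ABS.SOLT3
import Pool.Agent.ABS.RFX
import Pool.Agent.ABS.VIN
import Pool.Agent.ABS.GTR
import Pool.Agent.ABS.ZFD
import Pool.Agent.ABS.ZTR

/-!
# Project ABS (MP_46b841_nt): the traces of the characters with split image `C_N ⋊ P` (helper72)
-/

set_option autoImplicit false

open scoped Classical

namespace StarkC.ABS

namespace HOF2x

open HOF1x

/-! ### Exponents -/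

theorem ord_dvd {T : Type} [Group T] (ψ : T →* ℂˣ) (k : ℕ) :
    orderOf ψ ∣ k ↔ ∀ t, ψ t ^ k = 1 := by
  rw [orderOf_dvd_iff_pow_eq_one]
  exact ⟨fun h t => DFunLike.congr_fun h t, fun h => MonoidHom.ext h⟩

theorem ord_mod {T : Type} [Group T] (ψ : T →* ℂˣ) (a b : ℕ) :
    a ≡ b [MOD orderOf ψ] ↔ ∀ t, ψ t ^ a = ψ t ^ b := by
  refine (pow_eq_pow_iff_modEq (x := ψ) (n := a) (m := b)).symm.trans ?_
  exact ⟨fun h t => DFunLike.congr_fun h t, fun h => MonoidHom.ext h⟩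

/-- The exponents `= 1` modulo `M`. -/
def J (M n : ℕ) : Finset ℕ := (Ex (M * n)).filter fun t => t % M = 1 % M

theorem mem_J {M n t : ℕ} : t ∈ J M n ↔ t < M * n ∧ (M * n).Coprime t ∧ t ≡ 1 [MOD M] := by
  unfold J Ex
  rw [Finset.mem_filter, Finset.mem_filter, Finset.mem_range, and_assoc]
  rfl

theorem reindex (M n : ℕ) (h0 : 0 < M * n) (hco : M.Coprime n) (u : ℕ) (hu : n.Coprime u)
    (F : ℕ → ℂ) (hF : ∀ k, F (k % n) = F k) :
    ∑ t ∈ J M n, F (t * u) = ∑ k ∈ Ex n, F k := by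
  have hn : 0 < n := Nat.pos_of_mul_pos_left h0
  refine Finset.sum_bij (fun t _ => (t * u) % n) ?_ ?_ ?_ ?_
  · intro t ht
    obtain ⟨_, h2, _⟩ := mem_J.1 ht
    exact ZTRx.mod_mem hn (Nat.Coprime.mul_right (Nat.Coprime.coprime_mul_left h2) hu)
  · intro t ht t' ht' h
    obtain ⟨h1, h2, h3⟩ := mem_J.1 ht
    obtain ⟨h1', h2', h3'⟩ := mem_J.1 ht'
    have h4 : t * u ≡ t' * u [MOD n] := h
    have h5 : t ≡ t' [MOD n] := Nat.ModEq.cancel_right_of_coprime hu h4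
    have h6 : t ≡ t' [MOD M * n] :=
      (Nat.modEq_and_modEq_iff_modEq_mul hco).1 ⟨h3.trans h3'.symm, h5⟩
    exact Nat.ModEq.eq_of_lt_of_lt h6 h1 h1'
  · intro k hk
    unfold Ex at hk
    rw [Finset.mem_filter, Finset.mem_range] at hk
    obtain ⟨hk1, hk2⟩ := hk
    obtain ⟨u', hu'⟩ : ∃ u', u * u' ≡ 1 [MOD n] := by
      rcases Nat.lt_or_ge 1 n with h1 | h1
      · obtain ⟨m, hm⟩ := Nat.exists_mul_mod_eq_one_of_coprime hu.symm h1
        refine ⟨m, ?_⟩
        have : (u * m) % n = 1 % n := by rw [hm.2, Nat.mod_eq_of_lt h1]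
        exact this
      · have : n = 1 := by omega
        subst this
        exact ⟨0, Nat.modEq_one⟩
    obtain ⟨t, ht1, ht2⟩ := Nat.chineseRemainder hco 1 (k * u')
    refine ⟨t % (M * n), ?_, ?_⟩
    · have h6 : n.Coprime u' := by
        have h7 := hu'.gcd_eq
        rw [Nat.gcd_one_left] at h7
        exact Nat.Coprime.symm (Nat.Coprime.coprime_mul_left h7)
      have h7 : n.Coprime t := by
        have h8 := ht2.gcd_eq
        have h9 : Nat.gcd (k * u') n = 1 := Nat.Coprime.symm (Nat.Coprime.mul_right hk2 h6)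
        rw [h9] at h8
        exact Nat.Coprime.symm h8
      have h8 : M.Coprime t := by
        have h9 := ht1.gcd_eq
        rw [Nat.gcd_one_left] at h9
        exact Nat.Coprime.symm h9
      have h9 := ZTRx.mod_mem h0 (Nat.Coprime.mul_left h8 h7)
      unfold Ex at h9
      rw [Finset.mem_filter, Finset.mem_range] at h9
      refine mem_J.2 ⟨h9.1, h9.2, ?_⟩
      refine Nat.ModEq.trans ?_ ht1
      exact (Nat.mod_modEq t (M * n)).of_mul_right n
    · show (t % (M * n) * u) % n = k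
      have h6 : t % (M * n) * u ≡ k [MOD n] := by
        have h7 : t % (M * n) ≡ k * u' [MOD n] :=
          ((Nat.mod_modEq t (M * n)).of_mul_left M).trans ht2
        have h8 : k * u' * u ≡ k * 1 [MOD n] := by
          rw [mul_assoc, mul_comm u' u]
          exact Nat.ModEq.mul_left k hu'
        rw [mul_one] at h8
        exact (Nat.ModEq.mul_right u h7).trans h8
      have h7 : t % (M * n) * u % n = k % n := h6
      rw [h7, Nat.mod_eq_of_lt hk1]
  · intro t _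
    exact (hF _).symm

section

variable {G : Type} [Group G] {T : Subgroup G} {ψ : T →* ℂˣ} {P : Subgroup G}

theorem exists_s (h : HolD T ψ P) : ∃ s : G → ℕ, ∀ x ∈ P, ∀ a b : T,
    (b : G) = x⁻¹ * a * x → ψ b = ψ a ^ s x := by
  have h1 : ∀ x : G, ∃ s : ℕ, x ∈ P → ∀ a b : T, (b : G) = x⁻¹ * a * x → ψ b = ψ a ^ s := by
    intro x
    by_cases hx : x ∈ P
    · obtain ⟨s, hs⟩ := h.act x hx
      exact ⟨s, fun _ => hs⟩
    · exact ⟨0, fun h => absurd h hx⟩
  choose s hs using h1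
  exact ⟨s, fun x hx => hs x hx⟩

theorem dat (h : HolD T ψ P) (s : G → ℕ)
    (hs : ∀ x ∈ P, ∀ a b : T, (b : G) = x⁻¹ * a * x → ψ b = ψ a ^ s x)
    (M n : ℕ) (hMn : M.Coprime n) (hN : orderOf ψ = M * n) :
    ∃ α β : T →* ℂˣ, HOF1x.Dat T α β P s ∧ orderOf α = M ∧ orderOf β = n ∧
      ∀ t, ψ t = α t * β t := by
  obtain ⟨e, he1, he2⟩ := Nat.chineseRemainder hMn 1 0
  obtain ⟨d, hd1, hd2⟩ := Nat.chineseRemainder hMn 0 1
  have hMe : M.Coprime e := by
    have h1 := he1.gcd_eq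
    rw [Nat.gcd_one_left] at h1
    exact Nat.Coprime.symm h1
  have hnd : n.Coprime d := by
    have h1 := hd2.gcd_eq
    rw [Nat.gcd_one_left] at h1
    exact Nat.Coprime.symm h1
  have hne : n ∣ e := (Nat.modEq_zero_iff_dvd).1 he2
  have hMd : M ∣ d := (Nat.modEq_zero_iff_dvd).1 hd1
  have hsum : e + d ≡ 1 [MOD M * n] := by
    refine (Nat.modEq_and_modEq_iff_modEq_mul hMn).1 ⟨?_, ?_⟩
    · exact (he1.add hd1)
    · exact (he2.add hd2)
  have hψ : ∀ t, ψ t = ψ t ^ e * ψ t ^ d := by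
    intro t
    rw [← pow_add]
    rw [← hN] at hsum
    have h1 := (ord_mod ψ _ _).1 hsum t
    rw [h1, pow_one]
  refine ⟨ψ ^ e, ψ ^ d, ⟨h.norm, h.disj, h.gen, ?_, ?_, ?_⟩, ?_, ?_, hψ⟩
  · intro x hx a b hb
    show ψ b ^ e = (ψ a ^ e) ^ s x
    rw [hs x hx a b hb, ← pow_mul, ← pow_mul, mul_comm]
  · intro x hx a b hb
    show ψ b ^ d = (ψ a ^ d) ^ s x
    rw [hs x hx a b hb, ← pow_mul, ← pow_mul, mul_comm]
  · intro x hx hab
    refine h.faith x hx fun a b hb => ?_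
    obtain ⟨h1, h2⟩ := hab a b hb
    have h1' : ψ b ^ e = ψ a ^ e := h1
    have h2' : ψ b ^ d = ψ a ^ d := h2
    rw [hψ b, hψ a, h1', h2']
  · refine Nat.dvd_antisymm ?_ ?_
    · rw [ord_dvd]
      intro t
      show (ψ t ^ e) ^ M = 1
      rw [← pow_mul]
      refine (ord_dvd ψ _).1 ?_ t
      rw [hN, mul_comm e M]
      exact Nat.mul_dvd_mul_left M hne
    · have h1 : M * n ∣ e * orderOf (ψ ^ e) := by
        rw [← hN, ord_dvd]
        intro t
        rw [pow_mul]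
        exact (ord_dvd (ψ ^ e) _).1 dvd_rfl t
      exact hMe.dvd_of_dvd_mul_left ((Dvd.intro n rfl).trans h1)
  · refine Nat.dvd_antisymm ?_ ?_
    · rw [ord_dvd]
      intro t
      show (ψ t ^ d) ^ n = 1
      rw [← pow_mul]
      refine (ord_dvd ψ _).1 ?_ t
      rw [hN]
      exact Nat.mul_dvd_mul_right hMd n
    · have h1 : M * n ∣ d * orderOf (ψ ^ d) := by
        rw [← hN, ord_dvd]
        intro t
        rw [pow_mul]
        exact (ord_dvd (ψ ^ d) _).1 dvd_rfl t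
      exact hnd.dvd_of_dvd_mul_left ((Dvd.intro_left M rfl).trans h1)

/-! ### Multiplicativity of the exponents -/

variable {s : G → ℕ} (h : HolD T ψ P)
  (hs : ∀ x ∈ P, ∀ a b : T, (b : G) = x⁻¹ * a * x → ψ b = ψ a ^ s x)

include h hs

theorem s_mul {x y : G} (hx : x ∈ P) (hy : y ∈ P) : s (x * y) ≡ s x * s y [MOD orderOf ψ] := by
  rw [ord_mod]
  intro a
  let b : T := ⟨x⁻¹ * a * x, h.norm x a a.2⟩
  let c : T := ⟨y⁻¹ * b * y, h.norm y b b.2⟩
  have h1 : ψ b = ψ a ^ s x := hs x hx a b rfl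
  have h2 : ψ c = ψ b ^ s y := hs y hy b c rfl
  have h3 : ψ c = ψ a ^ s (x * y) := by
    refine hs (x * y) (P.mul_mem hx hy) a c ?_
    show y⁻¹ * (x⁻¹ * a * x) * y = (x * y)⁻¹ * a * (x * y)
    group
  rw [← h3, h2, h1, pow_mul]

omit h in
theorem s_one : s 1 ≡ 1 [MOD orderOf ψ] := by
  rw [ord_mod]
  intro a
  rw [← hs 1 P.one_mem a a (by group), pow_one]

theorem s_inv {x : G} (hx : x ∈ P) : s x * s x⁻¹ ≡ 1 [MOD orderOf ψ] := by
  have h1 := s_mul h hs hx (P.inv_mem hx)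
  rw [mul_inv_cancel] at h1
  exact h1.symm.trans (s_one hs)

theorem s_cop {x : G} (hx : x ∈ P) : (orderOf ψ).Coprime (s x) := by
  have h1 := (s_inv h hs hx).gcd_eq
  rw [Nat.gcd_one_left] at h1
  exact Nat.Coprime.symm (Nat.Coprime.coprime_mul_right h1)

theorem s_inj {x y : G} (hx : x ∈ P) (hy : y ∈ P) (hxy : s x ≡ s y [MOD orderOf ψ]) : x = y := by
  have h1 : s (x * y⁻¹) ≡ 1 [MOD orderOf ψ] :=
    (s_mul h hs hx (P.inv_mem hy)).trans ((Nat.ModEq.mul_right _ hxy).trans (s_inv h hs hy))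
  have h2 : x * y⁻¹ = 1 := by
    refine h.faith _ (P.mul_mem hx (P.inv_mem hy)) fun a b hb => ?_
    rw [hs _ (P.mul_mem hx (P.inv_mem hy)) a b hb]
    have h3 := (ord_mod ψ _ _).1 h1 a
    rw [h3, pow_one]
  exact mul_inv_eq_one.1 h2

end

/-! ### The induced characters -/

section

variable {G : Type} [Group G] [Fintype G] {T : Subgroup G} {α β : T →* ℂˣ} {P : Subgroup G}
  {s : G → ℕ}

theorem ind_T (D : HOF1x.Dat T α β P s) (γ : T →* ℂˣ)
    (hγ : ∀ x ∈ P, ∀ a b : T, (b : G) = x⁻¹ * a * x → γ b = γ a ^ s x) (a : T) {x : G}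
    (hx : x ∈ P) :
    indFun T (extZ γ) ((a : G) * x) = if x = 1 then ∑ z : P, ((γ a : ℂˣ) : ℂ) ^ s z else 0 := by
  have hT : (Nat.card T : ℂ) ≠ 0 := by exact_mod_cast Nat.card_pos.ne'
  have key : ∀ (z : P) (t : T),
      (if ((t : G) * z)⁻¹ * ((a : G) * x) * ((t : G) * z) ∈ T then
        extZ γ (((t : G) * z)⁻¹ * ((a : G) * x) * ((t : G) * z)) else 0) =
      if x = 1 then ((γ a : ℂˣ) : ℂ) ^ s z else 0 := by
    intro z t
    by_cases h : x = 1
    · subst h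
      let u : T := t⁻¹ * a * t
      let v : T := ⟨(z : G)⁻¹ * u * z, D.norm z u u.2⟩
      have h1 : ((t : G) * z)⁻¹ * ((a : G) * 1) * ((t : G) * z) = (v : G) := by
        show _ = (z : G)⁻¹ * ((t : G)⁻¹ * a * t) * z
        group
      rw [h1, if_pos v.2, if_pos rfl]
      have h2 : γ v = γ u ^ s z := hγ z z.2 u v rfl
      have h3 : γ u = γ a := by
        show γ (t⁻¹ * a * t) = γ a
        rw [map_mul, map_mul, map_inv, mul_comm, ← mul_assoc, mul_inv_cancel, one_mul]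
      unfold extZ
      rw [dif_pos v.2]
      show ((γ v : ℂˣ) : ℂ) = _
      rw [h2, h3, Units.val_pow_eq_pow_val]
    · rw [if_neg h, if_neg]
      intro h1
      apply h
      have h2 : (z : G)⁻¹ * x * z ∈ T := by
        have h3 : ((t : G) * z)⁻¹ * ((a : G) * x) * ((t : G) * z) =
            ((z : G)⁻¹ * ((t : G)⁻¹ * a * (x * t * x⁻¹)) * z) * ((z : G)⁻¹ * x * z) := by group
        rw [h3] at h1
        refine (Subgroup.mul_mem_cancel_left T ?_).1 h1
        refine D.norm z _ (T.mul_mem (T.mul_mem (T.inv_mem t.2) a.2) ?_)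
        exact HOF1x.Dat.norm' D x t t.2
      have h3 := D.disj _ h2 (P.mul_mem (P.mul_mem (P.inv_mem z.2) hx) z.2)
      have h4 : x = (z : G) * ((z : G)⁻¹ * x * z) * (z : G)⁻¹ := by group
      rw [h4, h3]
      group
  unfold indFun
  rw [sum_split D, Finset.sum_congr rfl fun z _ => Finset.sum_congr rfl fun t _ => key z t]
  by_cases h : x = 1
  · rw [if_pos h]
    simp only [if_pos h, Finset.sum_const, Finset.card_univ, nsmul_eq_mul]
    rw [← Finset.mul_sum, ← Nat.card_eq_fintype_card, mul_div_cancel_left₀ _ hT]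
  · rw [if_neg h]
    simp only [if_neg h, Finset.sum_const_zero, zero_div]

end

section

variable {G : Type} [Group G] [Fintype G] {T : Subgroup G} {ψ : T →* ℂˣ} {P : Subgroup G}
  {s : G → ℕ} (h : HolD T ψ P)
  (hs : ∀ x ∈ P, ∀ a b : T, (b : G) = x⁻¹ * a * x → ψ b = ψ a ^ s x)

/-- The conjugate characters. -/
noncomputable def f (ψ : T →* ℂˣ) (t : ℕ) : G → ℂ := indFun T (extZ (ψ ^ t))

omit [Fintype G] in
theorem pw {t : ℕ} (hs : ∀ x ∈ P, ∀ a b : T, (b : G) = x⁻¹ * a * x → ψ b = ψ a ^ s x) :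
    ∀ x ∈ P, ∀ a b : T, (b : G) = x⁻¹ * a * x → (ψ ^ t) b = (ψ ^ t) a ^ s x := by
  intro x hx a b hb
  show ψ b ^ t = (ψ a ^ t) ^ s x
  rw [hs x hx a b hb, ← pow_mul, ← pow_mul, mul_comm]

theorem f_congr {t u : ℕ} (htu : t ≡ u [MOD orderOf ψ]) : f ψ t = f ψ u := by
  have h1 : ψ ^ t = ψ ^ u := MonoidHom.ext fun a => (ord_mod ψ t u).1 htu a
  unfold f
  rw [h1]

theorem s_pos : 0 < orderOf ψ := by
  obtain ⟨x, hx⟩ := RFX.exists_value ψ
  rw [← hx, orderOf_pos_iff, isOfFinOrder_iff_pow_eq_one]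
  refine ⟨Nat.card T, Nat.card_pos, ?_⟩
  rw [← map_pow, pow_card_eq_one', map_one]

include h hs

theorem f_val (t : ℕ) (a : T) {x : G} (hx : x ∈ P) :
    f ψ t ((a : G) * x) = if x = 1 then ∑ z : P, ((ψ a : ℂˣ) : ℂ) ^ (t * s z) else 0 := by
  obtain ⟨α, β, D, -⟩ := dat h s hs 1 (orderOf ψ) (Nat.coprime_one_left _) (one_mul _).symm
  have h1 := ind_T D (ψ ^ t) (pw hs) a hx
  unfold f
  rw [h1]
  refine if_congr Iff.rfl (Finset.sum_congr rfl fun z _ => ?_) rfl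
  show (((ψ a) ^ t : ℂˣ) : ℂ) ^ s z = _
  rw [Units.val_pow_eq_pow_val, ← pow_mul]

omit [Fintype G] hs in
theorem f_ext (f₁ f₂ : G → ℂ)
    (hf : ∀ (a : T) (x : G), x ∈ P → f₁ ((a : G) * x) = f₂ ((a : G) * x)) : f₁ = f₂ := by
  funext g
  obtain ⟨a, ha, x, hx, rfl⟩ := h.gen g
  exact hf ⟨a, ha⟩ x hx

theorem f_s (t : ℕ) {x : G} (hx : x ∈ P) : f ψ (t * s x) = f ψ t := by
  refine f_ext h _ _ fun a y hy => ?_
  rw [f_val h hs _ a hy, f_val h hs _ a hy]
  refine if_congr Iff.rfl ?_ rfl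
  rw [← Equiv.sum_comp (Equiv.mulLeft (⟨x, hx⟩ : P)) fun z : P => ((ψ a : ℂˣ) : ℂ) ^ (t * s z)]
  refine Finset.sum_congr rfl fun z _ => ?_
  show _ = ((ψ a : ℂˣ) : ℂ) ^ (t * s (x * z))
  rw [← Units.val_pow_eq_pow_val, ← Units.val_pow_eq_pow_val]
  congr 1
  refine (ord_mod ψ _ _).1 ?_ a
  rw [mul_assoc]
  exact (Nat.ModEq.mul_left t (s_mul h hs hx z.2)).symm

/-- The pairing with `ψ ^ t`. -/
theorem pair (t u : ℕ) :
    ∑ a : T, ((((ψ a) ^ t)⁻¹ : ℂˣ) : ℂ) * f ψ u (a : G) = (Fintype.card T : ℂ) *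
      ((Finset.univ.filter fun z : P => u * s z ≡ t [MOD orderOf ψ]).card : ℂ) := by
  have h1 : ∀ a : T, f ψ u (a : G) = ∑ z : P, ((ψ a : ℂˣ) : ℂ) ^ (u * s z) := by
    intro a
    have h2 := f_val h hs u a P.one_mem
    rw [mul_one, if_pos rfl] at h2
    exact h2
  simp only [h1, Finset.mul_sum]
  rw [Finset.sum_comm]
  have h3 : ∀ z : P, ∑ a : T, ((((ψ a) ^ t)⁻¹ : ℂˣ) : ℂ) * ((ψ a : ℂˣ) : ℂ) ^ (u * s z) =
      if u * s z ≡ t [MOD orderOf ψ] then (Fintype.card T : ℂ) else 0 := by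
    intro z
    have h4 : ∀ a : T, ((((ψ a) ^ t)⁻¹ : ℂˣ) : ℂ) * ((ψ a : ℂˣ) : ℂ) ^ (u * s z) =
        ((Units.coeHom ℂ).comp (ψ ^ (u * s z) * (ψ ^ t)⁻¹)) a := by
      intro a
      rw [mul_comm, ← Units.val_pow_eq_pow_val, ← Units.val_mul]
      rfl
    rw [Finset.sum_congr rfl fun a _ => h4 a, sum_hom_units]
    have h5 : ((Units.coeHom ℂ).comp (ψ ^ (u * s z) * (ψ ^ t)⁻¹) = 1) ↔
        u * s z ≡ t [MOD orderOf ψ] := by
      rw [ord_mod]
      constructor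
      · intro h6 a
        have h7 : ψ a ^ (u * s z) * (ψ a ^ t)⁻¹ = 1 := Units.ext (DFunLike.congr_fun h6 a)
        exact mul_inv_eq_one.1 h7
      · intro h6
        refine MonoidHom.ext fun a => ?_
        have h7 : ψ a ^ (u * s z) * (ψ a ^ t)⁻¹ = 1 := mul_inv_eq_one.2 (h6 a)
        exact congrArg Units.val h7
    by_cases h6 : u * s z ≡ t [MOD orderOf ψ]
    · rw [if_pos (h5.2 h6), if_pos h6]
    · rw [if_neg fun h7 => h6 (h5.1 h7), if_neg h6, Nat.cast_zero]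
  rw [Finset.sum_congr rfl fun z _ => h3 z, ← Finset.sum_filter, Finset.sum_const, nsmul_eq_mul,
    mul_comm]

theorem f_eq {t u : ℕ} (htu : f ψ t = f ψ u) : ∃ x ∈ P, t ≡ u * s x [MOD orderOf ψ] := by
  have h1 := pair h hs t t
  have h2 := pair h hs t u
  rw [← htu, h1] at h2
  have hT : (Fintype.card T : ℂ) ≠ 0 := by exact_mod_cast Fintype.card_ne_zero
  have h3 := mul_left_cancel₀ hT h2
  have h4 : 0 < (Finset.univ.filter fun z : P => t * s z ≡ t [MOD orderOf ψ]).card := by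
    refine Finset.card_pos.2 ⟨1, Finset.mem_filter.2 ⟨Finset.mem_univ _, ?_⟩⟩
    have h5 := Nat.ModEq.mul_left t (s_one hs)
    rw [mul_one] at h5
    exact h5
  have h5 : (Finset.univ.filter fun z : P => t * s z ≡ t [MOD orderOf ψ]).card =
      (Finset.univ.filter fun z : P => u * s z ≡ t [MOD orderOf ψ]).card := by exact_mod_cast h3
  rw [h5] at h4
  obtain ⟨z, hz⟩ := Finset.card_pos.1 h4
  exact ⟨z, z.2, (Finset.mem_filter.1 hz).2.symm⟩

end

/-! ### The formula -/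

section

variable {G : Type} [Group G] [Fintype G] {T : Subgroup G} {ψ : T →* ℂˣ} {P : Subgroup G}
  {s : G → ℕ} (h : HolD T ψ P)
  (hs : ∀ x ∈ P, ∀ a b : T, (b : G) = x⁻¹ * a * x → ψ b = ψ a ^ s x)

include h hs

/-- The number of the exponents `t ∈ J` with the same induced character. -/
theorem fiber (M n : ℕ) (hN : orderOf ψ = M * n) (h0 : 0 < M * n) {t : ℕ} (ht : t ∈ J M n) :
    ((J M n).filter fun u => f ψ u = f ψ t).card =
      (Finset.univ.filter fun x : P => s x ≡ 1 [MOD M]).card := by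
  obtain ⟨ht1, ht2, ht3⟩ := mem_J.1 ht
  symm
  refine Finset.card_bij (fun x _ => (t * s x) % (M * n)) ?_ ?_ ?_
  · intro x hx
    have hx' := (Finset.mem_filter.1 hx).2
    have h1 : (M * n).Coprime (s x) := by
      have := s_cop h hs x.2
      rwa [hN] at this
    have h2 := ZTRx.mod_mem h0 (Nat.Coprime.mul_right ht2 h1)
    unfold Ex at h2
    rw [Finset.mem_filter, Finset.mem_range] at h2
    refine Finset.mem_filter.2 ⟨mem_J.2 ⟨h2.1, h2.2, ?_⟩, ?_⟩
    · refine ((Nat.mod_modEq _ (M * n)).of_mul_right n).trans ?_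
      have h3 := ht3.mul hx'
      rw [mul_one] at h3
      exact h3
    · rw [← f_s h hs t x.2]
      refine f_congr ?_
      rw [hN]
      exact Nat.mod_modEq _ _
  · intro x _ y _ hxy
    have h1 : t * s x ≡ t * s y [MOD orderOf ψ] := by
      rw [hN]
      exact hxy
    have h2 : s x ≡ s y [MOD orderOf ψ] := by
      refine Nat.ModEq.cancel_left_of_coprime ?_ h1
      rw [hN]
      exact ht2
    exact Subtype.ext (s_inj h hs x.2 y.2 h2)
  · intro u hu
    obtain ⟨hu1, hu2⟩ := Finset.mem_filter.1 hu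
    obtain ⟨hu3, hu4, hu5⟩ := mem_J.1 hu1
    obtain ⟨x, hx, hxu⟩ := f_eq h hs hu2
    rw [hN] at hxu
    refine ⟨⟨x, hx⟩, Finset.mem_filter.2 ⟨Finset.mem_univ _, ?_⟩, ?_⟩
    · have h1 : u ≡ t * s x [MOD M] := hxu.of_mul_right n
      have h2 : t * s x ≡ 1 * s x [MOD M] := Nat.ModEq.mul_right _ ht3
      rw [one_mul] at h2
      exact (h2.symm.trans h1.symm).trans hu5
    · show (t * s x) % (M * n) = u
      have h1 : u % (M * n) = (t * s x) % (M * n) := hxu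
      rw [← h1, Nat.mod_eq_of_lt hu3]

/-- `∑_(t ∈ J) Ind ψ^t` and the combination of the `Ind_(K_c D_1) φ_c`. -/
theorem sum_J (M n : ℕ) (hMn : M.Coprime n) (hN : orderOf ψ = M * n) (h0 : 0 < M * n) :
    ∃ θ : G → ℂ, MonC M θ ∧ ∀ g, ((Finset.univ.filter fun x : P => s x ≡ 1 [MOD M]).card : ℂ) *
      θ g = ∑ t ∈ J M n, f ψ t g := by
  obtain ⟨α, β, D, hα, hβ, hab⟩ := dat h s hs M n hMn hN
  have hn : 0 < n := Nat.pos_of_mul_pos_left h0
  refine ⟨fun g => ∑ c ∈ n.divisors, ((ArithmeticFunction.moebius c : ℤ) : ℂ) *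
      indFun (W D c) (extZ (phi D c)) g, ?_, fun g => ?_⟩
  · -- an integral combination
    let e := Fintype.equivFin {c // c ∈ n.divisors}
    refine ⟨Fintype.card {c // c ∈ n.divisors}, fun i => W D (e.symm i), fun i => phi D (e.symm i),
      fun i => ArithmeticFunction.moebius (e.symm i : ℕ), fun i => ?_, fun g => ?_⟩
    · refine MonoidHom.ext fun w => ?_
      show α (Classical.choose ((mem_W D).1 w.2)) ^ M = 1
      rw [← hα]
      exact (ord_dvd α _).1 dvd_rfl _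
    · show ∑ c ∈ n.divisors, ((ArithmeticFunction.moebius c : ℤ) : ℂ) *
        indFun (W D c) (extZ (phi D c)) g = _
      rw [← Finset.sum_coe_sort n.divisors fun c => ((ArithmeticFunction.moebius c : ℤ) : ℂ) *
        indFun (W D c) (extZ (phi D c)) g]
      exact (Equiv.sum_comp e.symm fun c : {c // c ∈ n.divisors} =>
        ((ArithmeticFunction.moebius c : ℤ) : ℂ) * indFun (W D c) (extZ (phi D c)) g).symm
  · have hcard : ((Finset.univ.filter fun x : P => s x ≡ 1 [MOD M]).card : ℂ) =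
        (Nat.card (D1 D) : ℂ) := by
      rw [Nat.card_eq_fintype_card, Fintype.card_subtype]
      congr 1
      refine Finset.card_bij (fun x _ => (x : G)) ?_ ?_ ?_
      · intro x hx
        refine Finset.mem_filter.2 ⟨Finset.mem_univ _, x.2, fun a b hb => ?_⟩
        have h1 := (Finset.mem_filter.1 hx).2
        rw [← hα] at h1
        rw [D.actA x x.2 a b hb, (ord_mod α _ _).1 h1 a, pow_one]
      · intro x _ y _ hxy
        exact Subtype.ext hxy
      · intro x hx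
        obtain ⟨hx1, hx2⟩ := (Finset.mem_filter.1 hx).2
        refine ⟨⟨x, hx1⟩, Finset.mem_filter.2 ⟨Finset.mem_univ _, ?_⟩, rfl⟩
        rw [← hα, ord_mod]
        intro a
        rw [← D.actA x hx1 a ⟨x⁻¹ * a * x, D.norm x a a.2⟩ rfl, hx2 a _ rfl, pow_one]
    rw [hcard]
    obtain ⟨a, ha, x, hx, rfl⟩ := h.gen g
    have h1 := formula D n hn hβ ⟨a, ha⟩ hx
    have h2 : ((⟨a, ha⟩ : T) : G) = a := rfl
    rw [h2] at h1
    rw [h1]
    have h3 : ∀ t ∈ J M n, f ψ t (a * x) =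
        if x = 1 then ∑ z : P, ((ψ ⟨a, ha⟩ : ℂˣ) : ℂ) ^ (t * s z) else 0 :=
      fun t _ => f_val h hs t ⟨a, ha⟩ hx
    rw [Finset.sum_congr rfl h3]
    by_cases hx1 : x = 1
    · rw [if_pos hx1]
      simp only [if_pos hx1]
      rw [Finset.sum_comm, Finset.sum_mul]
      refine Finset.sum_congr rfl fun z _ => ?_
      have h4 : ∀ t ∈ J M n, ((ψ ⟨a, ha⟩ : ℂˣ) : ℂ) ^ (t * s z) =
          ((α ⟨a, ha⟩ : ℂˣ) : ℂ) ^ s z * ((β ⟨a, ha⟩ : ℂˣ) : ℂ) ^ (t * s z) := by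
        intro t ht
        rw [hab ⟨a, ha⟩, Units.val_mul, mul_pow]
        congr 1
        rw [← Units.val_pow_eq_pow_val, ← Units.val_pow_eq_pow_val]
        congr 1
        refine (ord_mod α _ _).1 ?_ _
        rw [hα]
        have h5 := Nat.ModEq.mul_right (s z) (mem_J.1 ht).2.2
        rw [one_mul] at h5
        exact h5
      rw [Finset.sum_congr rfl h4, ← Finset.mul_sum]
      congr 1
      refine (reindex M n h0 hMn (s z) ?_ (fun k => ((β ⟨a, ha⟩ : ℂˣ) : ℂ) ^ k) fun k => ?_).symm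
      · have h5 := s_cop h hs z.2
        rw [hN] at h5
        exact Nat.Coprime.coprime_mul_left h5
      · show ((β ⟨a, ha⟩ : ℂˣ) : ℂ) ^ (k % n) = ((β ⟨a, ha⟩ : ℂˣ) : ℂ) ^ k
        rw [← Units.val_pow_eq_pow_val, ← Units.val_pow_eq_pow_val]
        congr 1
        refine (ord_mod β _ _).1 ?_ _
        rw [hβ]
        exact Nat.mod_modEq k n
    · rw [if_neg hx1]
      simp only [if_neg hx1, Finset.sum_const_zero]

end

/-! ### Galois conjugates -/

section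

variable {G : Type} [Group G] [Fintype G] {T : Subgroup G} {ψ : T →* ℂˣ} {P : Subgroup G}

theorem gcj_f (σ : ℂ ≃+* ℂ) (u : ℕ) (hσ : ∀ z : ℂ, z ^ orderOf ψ = 1 → σ z = z ^ u) (t : ℕ) :
    gcj σ (f (G := G) ψ t) = f ψ (t * u) := by
  have hz : ∀ x : T, (((ψ ^ t) x : ℂˣ) : ℂ) ^ orderOf ψ = 1 := by
    intro x
    show (((ψ x) ^ t : ℂˣ) : ℂ) ^ orderOf ψ = 1
    rw [← Units.val_pow_eq_pow_val, ← pow_mul, mul_comm, pow_mul, (ord_dvd ψ _).1 dvd_rfl x,
      one_pow, Units.val_one]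
  have e : (ψ ^ t) ^ u = ψ ^ (t * u) := MonoidHom.ext fun x => (pow_mul (ψ x) t u).symm
  funext g
  have h1 := RFX.map_indFun T (ψ ^ t) σ u (fun x => hσ _ (hz x)) g
  rw [e] at h1
  exact h1

theorem f_one : f (G := G) ψ 1 = indFun T (extZ ψ) := by
  have e : ψ ^ 1 = ψ := MonoidHom.ext fun x => pow_one (ψ x)
  unfold f
  rw [e]

theorem f_mod (t : ℕ) : f (G := G) ψ (t % orderOf ψ) = f ψ t := f_congr (Nat.mod_modEq _ _)

theorem f_mem (h : HolD T ψ P) (t : ℕ) (g : G) : f ψ t g ∈ StarkP.rootField (orderOf ψ) := by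
  obtain ⟨s, hs⟩ := exists_s h
  obtain ⟨a, ha, x, hx, rfl⟩ := h.gen g
  have h1 := f_val h hs t ⟨a, ha⟩ hx
  have h2 : ((⟨a, ha⟩ : T) : G) = a := rfl
  rw [h2] at h1
  rw [h1]
  split_ifs
  · refine sum_mem fun z _ => pow_mem (IntermediateField.subset_adjoin ℚ _ ?_) _
    show ((ψ ⟨a, ha⟩ : ℂˣ) : ℂ) ^ orderOf ψ = 1
    rw [← Units.val_pow_eq_pow_val, (ord_dvd ψ _).1 dvd_rfl, Units.val_one]
  · exact zero_mem _

theorem int_of_root {N : ℕ} (hN : 0 < N) {x : ℂ} (hx : x ∈ StarkP.rootField N) :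
    IsIntegral ℚ x := by
  have h1 : FiniteDimensional ℚ (StarkP.rootField N) := ZENx.fin_of hN _ le_rfl
  exact (IsIntegral.of_finite ℚ (⟨x, hx⟩ : StarkP.rootField N)).map (StarkP.rootField N).val

theorem f_int (h : HolD T ψ P) (t : ℕ) (g : G) : IsIntegral ℚ (f ψ t g) :=
  int_of_root s_pos (f_mem h t g)

/-- An automorphism which fixes `ℚ(ζ_M)` acts on the roots of unity of order `M n` by an exponent
`= 1` modulo `M`. -/
theorem exp_one {M N u : ℕ} (hM : 0 < M) (hMN : M ∣ N) (σ : ℂ ≃+* ℂ)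
    (hσ : ∀ z : ℂ, z ^ N = 1 → σ z = z ^ u) (hfix : ∀ x ∈ StarkP.rootField M, σ x = x) :
    u ≡ 1 [MOD M] := by
  have hζ := Complex.isPrimitiveRoot_exp M hM.ne'
  obtain ⟨ζ, hζd⟩ : ∃ ζ, ζ = Complex.exp (2 * Real.pi * Complex.I / ((M : ℕ) : ℂ)) := ⟨_, rfl⟩
  rw [← hζd] at hζ
  have h1 : ζ ^ N = 1 := by
    obtain ⟨c, rfl⟩ := hMN
    rw [pow_mul, hζ.pow_eq_one, one_pow]
  have h3 : ζ ^ u = ζ ^ 1 := by
    rw [← hσ ζ h1, pow_one]
    exact hfix _ (IntermediateField.subset_adjoin ℚ _ hζ.pow_eq_one)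
  have hfo : IsOfFinOrder ζ := isOfFinOrder_iff_pow_eq_one.2 ⟨_, hM, hζ.pow_eq_one⟩
  have h5 := hfo.pow_eq_pow_iff_modEq.1 h3
  rwa [← hζ.eq_orderOf] at h5

theorem fix_root {M N u : ℕ} (hMN : M ∣ N) (σ : ℂ ≃+* ℂ)
    (hσ : ∀ z : ℂ, z ^ N = 1 → σ z = z ^ u) (hu : u ≡ 1 [MOD M]) :
    ∀ x ∈ StarkP.rootField M, σ x = x := by
  intro x hx
  refine ZFDx.agree (N := M) (τ := RingEquiv.refl ℂ) (fun z hz => ?_) hx
  have hz' : z ^ N = 1 := by
    obtain ⟨c, rfl⟩ := hMN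
    rw [pow_mul, hz, one_pow]
  rw [hσ z hz', ZFDx.pw hz hu, pow_one]
  rfl

/-- The trace over `ℚ(ζ_M)`, `N = M n`. -/
theorem trF_root (h : HolD T ψ P) (M n : ℕ) (hMn : M.Coprime n) (hN : orderOf ψ = M * n) :
    MonC M (SOL3x.trF (StarkP.rootField M) (indFun T (extZ ψ))) := by
  obtain ⟨s, hs⟩ := exists_s h
  have h0 : 0 < M * n := by
    rw [← hN]
    exact s_pos
  have hM : 0 < M := Nat.pos_of_mul_pos_right h0
  obtain ⟨θ, hθ, hsum⟩ := sum_J h hs M n hMn hN h0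
  have hO : ∀ p, p ∈ (J M n).image (f (G := G) ψ) ↔
      p ∈ SOL3x.Cj (StarkP.rootField M) (indFun T (extZ ψ)) := by
    intro p
    rw [Finset.mem_image]
    constructor
    · rintro ⟨t, ht, rfl⟩
      obtain ⟨h1, h2, h3⟩ := mem_J.1 ht
      obtain ⟨σ, hσ⟩ := SIGT_thm (M * n) t h0 h2
      refine ⟨σ, fix_root (Dvd.intro n rfl) σ hσ h3, ?_⟩
      rw [← f_one, gcj_f σ t (by rw [hN]; exact hσ), one_mul]
    · rintro ⟨σ, hfix, rfl⟩
      obtain ⟨u, hu, hact⟩ := VINx.act σ (M * n) h0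
      have h1 : u ≡ 1 [MOD M] := exp_one hM (Dvd.intro n rfl) σ hact hfix
      have h2 := ZTRx.mod_mem h0 hu
      unfold Ex at h2
      rw [Finset.mem_filter, Finset.mem_range] at h2
      refine ⟨u % (M * n), mem_J.2 ⟨h2.1, h2.2, ?_⟩, ?_⟩
      · exact ((Nat.mod_modEq u (M * n)).of_mul_right n).trans h1
      · rw [← f_one, gcj_f σ u (by rw [hN]; exact hact), one_mul, ← hN, f_mod]
  have hfd : FiniteDimensional ℚ (StarkP.rootField M) := ZENx.fin_of hM _ le_rfl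
  have e : SOL3x.trF (StarkP.rootField M) (indFun T (extZ ψ)) = θ := by
    funext x
    have h1 := SOL3x.trF_eq (StarkP.rootField M) hfd (indFun T (extZ ψ))
      (fun g => by rw [← f_one]; exact f_int h 1 g) _ hO x
    rw [h1]
    have h2 := hsum x
    have h3 := Finset.sum_comp (fun p : G → ℂ => p x) (f (G := G) ψ) (s := J M n)
    rw [h3] at h2
    have hc : ((Finset.univ.filter fun x : P => s x ≡ 1 [MOD M]).card : ℂ) ≠ 0 := by
      have h4 : 0 < (Finset.univ.filter fun x : P => s x ≡ 1 [MOD M]).card := by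
        refine Finset.card_pos.2 ⟨1, Finset.mem_filter.2 ⟨Finset.mem_univ _, ?_⟩⟩
        have h5 := s_one hs
        rw [hN] at h5
        exact h5.of_mul_right n
      exact_mod_cast h4.ne'
    refine mul_left_cancel₀ hc ?_
    rw [h2, Finset.mul_sum]
    refine Finset.sum_congr rfl fun p hp => ?_
    obtain ⟨t, ht, rfl⟩ := Finset.mem_image.1 hp
    rw [fiber h hs M n hN h0 ht, nsmul_eq_mul]
  rw [e]
  exact hθ

end

end HOF2x

end StarkC.ABS
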