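import Pool.Agent.ABS.HOF3
import Pool.Agent.ABS.FINZI

/-!
# Project ABS (MP_46b841_nt): norms for the characters with split image `C_N ⋊ P` (helper72)
-/

set_option autoImplicit false

open NumberField IsDedekindDomain
open scoped TensorProduct Classical

namespace StarkC.ABS

open StarkP (rootField charField trChar NormIn IsTheta Realizable)

/-- Norms from all `E ≤ ℚ(χ)` contained in `ℚ(ζ_(ℓ^j))`, `ℓ` odd, for `χ = Ind ψ` with data `HolD`. -/
theorem good_hol (K L : Type) [Field K] [NumberField K] [Field L] [NumberField L]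
    [Algebra K L] [IsGalois K L] (S : Finset (HeightOneSpectrum (𝓞 K)))
    (Θ : ((L → ℝ) →₀ ℂ) →ₗ[ℂ] ((L → ℝ) →₀ ℂ)) (hΘ : IsTheta K (StarkP.aboveSet K L S) Θ)
    (V : Type) [AddCommGroup V] [Module ℂ V] [Module.Finite ℂ V]
    (ρ : Representation ℂ (L ≃ₐ[K] L) V) (hirr : ρ.IsIrreducible)
    {T P : Subgroup (L ≃ₐ[K] L)} {ψ : T →* ℂˣ} (hol : HolD T ψ P)
    (hχ : ∀ g, ρ.character g = indFun T (extZ ψ) g) (E : IntermediateField ℚ ℂ)
    (hE : E ≤ charField ρ.character) (ℓ j : ℕ) (hl : ℓ.Prime) (hl2 : ℓ ≠ 2)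
    (hEj : E ≤ rootField (ℓ ^ j)) :
    NormIn E ρ.character (S : Set (HeightOneSpectrum (𝓞 K))) Θ := by
  have e : ρ.character = indFun T (extZ ψ) := funext hχ
  have hj : 0 < ℓ ^ j := pow_pos hl.pos j
  have hfd : FiniteDimensional ℚ (rootField (ℓ ^ j)) := ZENx.fin_of hj _ le_rfl
  obtain ⟨a, ha⟩ := HOF3x.trF_F hol (rootField (ℓ ^ j)) ℓ j hl le_rfl
  have h1 := good_c3 S Θ hΘ V ρ hirr (rootField (ℓ ^ j)) hfd ⟨ℓ ^ a, pow_pos hl.pos a,
    ZMod.isCyclic_units_of_prime_pow ℓ hl hl2 a, by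
      rw [e]
      exact (GTRx.mon_iff _ _).2 ha, by
      rw [e]
      exact (GTRx.perm_iff _).2 (HOF3x.trChar_perm hol)⟩
  refine FINZIx.normIn_le S Θ _ E _ (le_inf hEj hE) ?_ h1
  exact ZENx.fin_of hj _ inf_le_left

/-- Realizability. -/
theorem real_hol {G V : Type} [Group G] [Fintype G] [AddCommGroup V] [Module ℂ V]
    [Module.Finite ℂ V] (ρ : Representation ℂ G V) (hirr : ρ.IsIrreducible) {T P : Subgroup G}
    {ψ : T →* ℂˣ} (hol : HolD T ψ P) (hχ : ∀ g, ρ.character g = indFun T (extZ ψ) g) :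
    Realizable ρ.character := by
  have e : ρ.character = indFun T (extZ ψ) := funext hχ
  refine real_of_perm _ ⟨V, inferInstance, inferInstance, inferInstance, ρ, hirr, rfl⟩ ?_
  rw [e]
  exact HOF3x.trChar_perm hol

end StarkC.ABS
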