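import Pool.Agent.ABS.HOF3
import Pool.Agent.ABS.FINZI

/-!
# Project ABS (MP_46b841_nt): elementary abelian Sylow subgroups, all prime powers (helper72)
-/

set_option autoImplicit false

open scoped Classical

namespace StarkC.ABS

open StarkP (rootField charField)

/-- Characters with values in the field of the `ℓ^j`-th roots of unity, `ℓ` any prime, of groups with
elementary abelian Sylow subgroups. -/
theorem inH_of_EA' {G V : Type} [Group G] [Fintype G] [AddCommGroup V] [Module ℂ V]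
    [Module.Finite ℂ V] (ρ : Representation ℂ G V) (hE : ElAb G) (ℓ j : ℕ) (hl : ℓ.Prime)
    (hF : charField ρ.character ≤ rootField (ℓ ^ j)) : StarkP.InH ρ := by
  by_cases hl2 : ℓ = 2
  swap
  · exact inH_of_EA ρ hE ℓ j hl hl2 hF
  subst hl2
  obtain ⟨a, m, hm, hG⟩ := Nat.exists_eq_two_pow_mul_odd (n := Nat.card G) Nat.card_pos.ne'
  have h2m : ∀ g : G, g ^ (2 * m) = 1 := by
    intro g
    have h1 : (g ^ m) ^ 2 ^ a = 1 := by
      rw [← pow_mul, mul_comm m, ← hG, pow_card_eq_one']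
    have hP : IsPGroup 2 (Subgroup.zpowers (g ^ m)) := by
      rintro ⟨x, hx⟩
      obtain ⟨k, rfl⟩ := Subgroup.mem_zpowers_iff.1 hx
      refine ⟨a, Subtype.ext ?_⟩
      show ((g ^ m) ^ k) ^ 2 ^ a = 1
      rw [← zpow_natCast, ← zpow_mul, mul_comm, zpow_mul, zpow_natCast, h1, one_zpow]
    have h2 := (hE 2 _ Nat.prime_two hP).1 (g ^ m) (Subgroup.mem_zpowers _)
    rw [mul_comm, pow_mul, h2]
  have h3 := charField_le ρ (2 * m) (Nat.mul_pos two_pos hm.pos) fun g => by
    rw [← map_pow, h2m, map_one]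
  have h4 := FINZIx.inf_root (a := 2 ^ j) (b := 2 * m) (by positivity)
    (Nat.mul_pos two_pos hm.pos) _ hF h3
  have h5 : Nat.gcd (2 ^ j) (2 * m) ∣ 2 := by
    refine Nat.Coprime.dvd_of_dvd_mul_right (n := m) ?_ (Nat.gcd_dvd_right _ _)
    exact Nat.Coprime.coprime_dvd_left (Nat.gcd_dvd_left _ _)
      (Nat.Coprime.pow_left j (Nat.coprime_two_left.2 hm))
  have h6 : charField ρ.character ≤ rootField 2 := h4.trans (ZENx.root_mono h5)
  rw [SYMx.rootField_two] at h6
  exact inH_of_EA ρ hE 3 0 Nat.prime_three (by norm_num) (h6.trans bot_le)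

end StarkC.ABS
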