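import Pool.Agent.ABS.PDefsE

/-!
# Definitions for the statement about one `φ`: the class of characters
-/

open NumberField IsDedekindDomain

namespace StarkP

/-- All `p`-subgroups of `G` are elementary abelian, for all primes `p`. -/
def ElAb (G : Type) [Group G] : Prop :=
  ∀ (p : ℕ) (P : Subgroup G), p.Prime → IsPGroup p P →
    (∀ x ∈ P, x ^ p = 1) ∧ ∀ x ∈ P, ∀ y ∈ P, x * y = y * x

/-- Every element of `G` has prime power order. -/
def PPO (G : Type) [Group G] : Prop := ∀ g : G, ∃ p n : ℕ, p.Prime ∧ g ^ p ^ n = 1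

/-- No `2`-subgroup of `G` has a symplectic irreducible character. -/
def NoSymp (G : Type) [Group G] : Prop :=
  ∀ P : Subgroup G, IsPGroup 2 P → ∀ (W : Type) [AddCommGroup W] [Module ℂ W] [Module.Finite ℂ W]
    (τ : Representation ℂ P W), τ.IsIrreducible →
    ¬ ∃ B : W →ₗ[ℂ] W →ₗ[ℂ] ℂ, (∀ v, B v v = 0) ∧ (∀ v, (∀ w, B v w = 0) → v = 0) ∧
      ∀ g : P, ∀ v w, B (τ g v) (τ g w) = B v w

/-- The image of `ρ` is a semidirect product: generated by a cyclic normal subgroup `A` and a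
subgroup `B` which acts faithfully on `A`. -/
def HolIm {G V : Type} [Group G] [AddCommGroup V] [Module ℂ V] (ρ : Representation ℂ G V) : Prop :=
  ∃ A B : Subgroup (G ⧸ MonoidHom.ker ρ), A.Normal ∧ IsCyclic A ∧ A ⊔ B = ⊤ ∧
    ∀ b ∈ B, (∀ a ∈ A, a * b = b * a) → b = 1

/-- The condition on a character `τ` for a field `F`, with `T` the image and `E = F ∩ ℚ(τ)`:
(a) the exponent of `T` divides `2ℓ^k`, `ℓ` an odd prime; (b) all elements of `T` have prime power order and no
`2`-subgroup of `T` has a symplectic character; (c) the Sylow subgroups of `T` are elementary abelian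
and `ℚ(τ)` is contained in the field of the `q`-th roots of unity for some prime power `q = ℓ^j`;
(d) `NilNS`, and `E/ℚ` is cyclic or contained in such a field; (e) `ProjIm`, and `E` is contained in
such a field; (f) `HolIm`, and `E` is contained in such a field with `q` odd. -/
def Base (F : IntermediateField ℚ ℂ) {G V : Type} [Group G] [AddCommGroup V] [Module ℂ V]
    (ρ : Representation ℂ G V) : Prop :=
  (∃ ℓ k : ℕ, ℓ.Prime ∧ ℓ ≠ 2 ∧ ∀ g : G, ρ g ^ (2 * ℓ ^ k) = 1) ∨
  (PPO (G ⧸ MonoidHom.ker ρ) ∧ NoSymp (G ⧸ MonoidHom.ker ρ)) ∨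
  (ElAb (G ⧸ MonoidHom.ker ρ) ∧
    ∃ ℓ j : ℕ, ℓ.Prime ∧ charField ρ.character ≤ rootField (ℓ ^ j)) ∨
  (NilNS ρ ∧ (IsCyclic ((F ⊓ charField ρ.character : IntermediateField ℚ ℂ) ≃ₐ[ℚ]
      (F ⊓ charField ρ.character : IntermediateField ℚ ℂ)) ∨
    ∃ ℓ j : ℕ, ℓ.Prime ∧ F ⊓ charField ρ.character ≤ rootField (ℓ ^ j))) ∨
  (ProjIm ρ ∧ ∃ ℓ j : ℕ, ℓ.Prime ∧ F ⊓ charField ρ.character ≤ rootField (ℓ ^ j)) ∨
  (HolIm ρ ∧ ∃ ℓ j : ℕ, ℓ.Prime ∧ ℓ ≠ 2 ∧ F ⊓ charField ρ.character ≤ rootField (ℓ ^ j))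

/-- `χ` is an integral combination of characters induced from the traces over `ℚ(χ)` of irreducible
characters of subgroups as in `Base` (with `F = ℚ(χ)`). -/
def InSpan {G V : Type} [Group G] [Fintype G] [AddCommGroup V] [Module ℂ V]
    (ρ : Representation ℂ G V) : Prop :=
  ∃ (m : ℕ) (H : Fin m → Subgroup G) (W : Fin m → Type) (_ : ∀ i, AddCommGroup (W i))
    (_ : ∀ i, Module ℂ (W i)) (_ : ∀ i, Module.Finite ℂ (W i))
    (τ : ∀ i, Representation ℂ (H i) (W i)) (c : Fin m → ℤ),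
    (∀ i, (τ i).IsIrreducible ∧ Base (charField ρ.character) (τ i)) ∧
    ∀ g, ρ.character g =
      ∑ i, (c i : ℂ) * indOf (H i) (traceOver (charField ρ.character) (τ i).character) g

/-- Every irreducible constituent of the restriction of `ρ` to a hyperelementary subgroup is as in
`Base` (with `F = ℚ(χ)`). -/
def InRes {G V : Type} [Group G] [AddCommGroup V] [Module ℂ V] (ρ : Representation ℂ G V) : Prop :=
  ∀ H : Subgroup G, IsHyper H → ∀ (W : Type) [AddCommGroup W] [Module ℂ W] [Module.Finite ℂ W]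
    (τ : Representation ℂ H W), τ.IsIrreducible → IsSub τ (ρ.comp H.subtype) →
    Base (charField ρ.character) τ

/-- Some place `a ∈ S(L)` is fixed by no `g ≠ 1` in `Gal(L/K)`: some place in `S` (or infinite place)
of `K` splits completely in `L`. -/
def SplitPlace (K : Type) {L : Type} [Field K] [Field L] [NumberField L] [Algebra K L]
    (T : Set (HeightOneSpectrum (𝓞 L))) : Prop :=
  ∃ a ∈ placeSet L T, ∀ g : L ≃ₐ[K] L, (∀ x, a (g x) = a x) → g = 1

end StarkP
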