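import Pool.Agent.ABS.HOF3
import Pool.Agent.ABS.VFIN
import Pool.Agent.ABS.COM
import Pool.Agent.ABS.PDefsF
import Pool.Agent.ABS.FINC3

/-!
# Project ABS: representations whose image is `A B`, `A` cyclic and normal, `B` acting faithfully on
`A` (helper37)
-/

set_option autoImplicit false

open scoped Classical

namespace StarkC.ABS

open StarkP (charField rootField traceOver trChar)
open SOL3x HEAx

namespace HOLx

/-- Elements act on a cyclic normal subgroup by powers. -/
theorem act_pow {Q : Type} [Group Q] [Finite Q] (A : Subgroup Q) (hA : A.Normal) (hc : IsCyclic A)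
    (x : Q) : ∃ i : ℕ, ∀ a ∈ A, x⁻¹ * a * x = a ^ i := by
  obtain ⟨c, hc⟩ := hc.exists_generator
  have hconj : ∀ a ∈ A, x⁻¹ * a * x ∈ A := fun a ha => by
    have := hA.conj_mem a ha x⁻¹
    rwa [inv_inv] at this
  obtain ⟨i, hi⟩ := mem_powers_iff_mem_zpowers.2 (hc ⟨x⁻¹ * (c : Q) * x, hconj c c.2⟩)
  have hi' : (c : Q) ^ i = x⁻¹ * (c : Q) * x := congrArg Subtype.val hi
  refine ⟨i, fun a ha => ?_⟩
  obtain ⟨k, hk⟩ := mem_powers_iff_mem_zpowers.2 (hc ⟨a, ha⟩)
  have hk' : (c : Q) ^ k = a := congrArg Subtype.val hk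
  have h1 := conj_pow (i := k) (a := x⁻¹) (b := (c : Q))
  rw [inv_inv] at h1
  rw [← hk', ← h1, ← hi', ← pow_mul, ← pow_mul, mul_comm]

section

variable {Q V : Type} [Group Q] [Fintype Q] [AddCommGroup V] [Module ℂ V] [Module.Finite ℂ V]

theorem core (ρ : Representation ℂ Q V) (hirr : ρ.IsIrreducible) (A B : Subgroup Q)
    (hA : A.Normal) (hcyc : IsCyclic A) (hAB : A ⊔ B = ⊤)
    (hB : ∀ b ∈ B, (∀ a ∈ A, a * b = b * a) → b = 1) (hf : ∀ a ∈ A, ρ a = 1 → a = 1) :
    ∃ ψ : A →* ℂˣ, HolD A ψ B ∧ ∀ g, ρ.character g = indFun A (extZ ψ) g := by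
  obtain ⟨hnt, hir⟩ := FCLx.irr_of ρ hirr
  have hcomm : ∀ a ∈ A, ∀ b ∈ A, a * b = b * a := by
    intro a ha b hb
    obtain ⟨g, hg⟩ := hcyc.exists_generator
    obtain ⟨i, hi⟩ := hg ⟨a, ha⟩
    obtain ⟨j, hj⟩ := hg ⟨b, hb⟩
    have h1 : (⟨a, ha⟩ : A) * ⟨b, hb⟩ = ⟨b, hb⟩ * ⟨a, ha⟩ := by
      rw [← hi, ← hj]
      exact (zpow_mul_comm g i j)
    exact congrArg Subtype.val h1
  obtain ⟨ψ, v, -, hv0, hv⟩ := eig_on ρ A ⊤ (by
      obtain ⟨x, hx⟩ := exists_ne (0 : V)
      intro h
      have : x ∈ (⊤ : Submodule ℂ V) := Submodule.mem_top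
      rw [h, Submodule.mem_bot] at this
      exact hx this) (fun _ _ _ _ => Submodule.mem_top) (by
    intro s hs t ht v _
    rw [← Module.End.mul_apply, ← map_mul, hcomm s hs t ht, map_mul, Module.End.mul_apply])
  have hconj : ∀ (x : Q) (a : A), x⁻¹ * (a : Q) * x ∈ A := fun x a => by
    have := hA.conj_mem a a.2 x⁻¹
    rwa [inv_inv] at this
  -- translates of `v` are eigenvectors
  have htr : ∀ (x : Q) (a : A), ρ (a : Q) (ρ x v) =
      ((ψ ⟨x⁻¹ * (a : Q) * x, hconj x a⟩ : ℂˣ) : ℂ) • ρ x v := by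
    intro x a
    have h1 : (a : Q) * x = x * (x⁻¹ * (a : Q) * x) := by group
    rw [← Module.End.mul_apply, ← map_mul, h1, map_mul, Module.End.mul_apply]
    have h2 := hv ⟨x⁻¹ * (a : Q) * x, hconj x a⟩
    rw [h2, map_smul]
  have hspan : Submodule.span ℂ (Set.range fun x : Q => ρ x v) = ⊤ := by
    rcases hir (Submodule.span ℂ (Set.range fun g : Q => ρ g v)) (by
      intro g u hu
      induction hu using Submodule.span_induction with
      | mem x hx =>
        obtain ⟨y, rfl⟩ := hx
        apply Submodule.subset_span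
        refine ⟨g * y, ?_⟩
        show ρ (g * y) v = ρ g (ρ y v)
        rw [map_mul, Module.End.mul_apply]
      | zero => rw [map_zero]; exact Submodule.zero_mem _
      | add x y _ _ hx hy => rw [map_add]; exact Submodule.add_mem _ hx hy
      | smul a x _ hx => rw [map_smul]; exact Submodule.smul_mem _ _ hx) with h | h
    · exfalso
      apply hv0
      have h1 : v ∈ Submodule.span ℂ (Set.range fun g : Q => ρ g v) := by
        apply Submodule.subset_span
        refine ⟨1, ?_⟩
        show ρ 1 v = v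
        rw [map_one, Module.End.one_apply]
      rw [h, Submodule.mem_bot] at h1
      exact h1
    · exact h
  -- `ψ` is injective
  have hinj : ∀ a : A, ψ a = 1 → (a : Q) = 1 := by
    intro a ha
    refine hf a a.2 (LinearMap.ext fun u => ?_)
    have hu : u ∈ Submodule.span ℂ (Set.range fun g : Q => ρ g v) := by
      rw [hspan]
      exact Submodule.mem_top
    rw [Module.End.one_apply]
    induction hu using Submodule.span_induction with
    | mem x hx =>
      obtain ⟨y, rfl⟩ := hx
      show ρ (a : Q) (ρ y v) = ρ y v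
      rw [htr y a]
      obtain ⟨i, hi⟩ := act_pow A hA hcyc y
      have h1 : (⟨y⁻¹ * (a : Q) * y, hconj y a⟩ : A) = a ^ i := by
        apply Subtype.ext
        exact hi a a.2
      rw [h1, map_pow, ha, one_pow, Units.val_one, one_smul]
    | zero => rw [map_zero]
    | add x y _ _ hx hy => rw [map_add, hx, hy]
    | smul c x _ hx => rw [map_smul, hx]
  have hinj' : ∀ a b : A, ψ a = ψ b → (a : Q) = b := by
    intro a b hab
    have h1 := hinj (a * b⁻¹) (by rw [map_mul, map_inv, hab, mul_inv_cancel])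
    rw [Subgroup.coe_mul, Subgroup.coe_inv, mul_inv_eq_one] at h1
    exact h1
  have hgen : ∀ g : Q, ∃ t ∈ A, ∃ x ∈ B, g = t * x := by
    intro g
    have h1 : g ∈ A ⊔ B := by rw [hAB]; exact Subgroup.mem_top g
    obtain ⟨t, ht, x, hx, h⟩ := Subgroup.mem_sup_of_normal_left.1 h1
    exact ⟨t, ht, x, hx, h.symm⟩
  -- the centraliser of `A`
  have hcent : ∀ g : Q, (∀ a ∈ A, a * g = g * a) → g ∈ A := by
    intro g hg
    obtain ⟨t, ht, x, hx, rfl⟩ := hgen g
    have h1 : x = 1 := by
      refine hB x hx fun a ha => ?_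
      have h2 := hg a ha
      have h3 : a * t = t * a := hcomm a ha t ht
      rw [← mul_assoc, h3, mul_assoc, mul_assoc] at h2
      exact mul_left_cancel h2
    rw [h1, mul_one]
    exact ht
  refine ⟨ψ, ⟨fun x t ht => hconj x ⟨t, ht⟩, ?_, hgen, ?_, ?_⟩, ?_⟩
  · intro x hx hx'
    exact hB x hx' fun a ha => hcomm a ha x hx
  · intro x _
    obtain ⟨i, hi⟩ := act_pow A hA hcyc x
    refine ⟨i, fun a b hab => ?_⟩
    have h1 : b = a ^ i := Subtype.ext (hab.trans (hi a a.2))
    rw [h1, map_pow]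
  · intro x hx h
    refine hB x hx fun a ha => ?_
    have h1 := hinj' ⟨x⁻¹ * a * x, hconj x ⟨a, ha⟩⟩ ⟨a, ha⟩ (h ⟨a, ha⟩ _ rfl)
    have h2 : x⁻¹ * a * x = a := h1
    calc a * x = x * (x⁻¹ * a * x) := by group
      _ = x * a := by rw [h2]
  · obtain ⟨c₀, hc₀⟩ := hcyc.exists_generator
    refine char_of ρ hirr A ψ v hv0 hv ?_
    refine Module.End.eigenvectors_linearIndependent' (ρ (c₀ : Q))
      (fun q : Q ⧸ A => ((ψ ⟨q.out⁻¹ * (c₀ : Q) * q.out, hconj q.out c₀⟩ : ℂˣ) : ℂ)) ?_ _ ?_
    · intro q q' hqq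
      have h1 : q.out⁻¹ * (c₀ : Q) * q.out = q'.out⁻¹ * (c₀ : Q) * q'.out :=
        hinj' _ _ (Units.ext hqq)
      rw [← QuotientGroup.out_eq' q, ← QuotientGroup.out_eq' q', QuotientGroup.eq]
      have h2 : (c₀ : Q) * (q'.out * q.out⁻¹) = (q'.out * q.out⁻¹) * c₀ := by
        calc (c₀ : Q) * (q'.out * q.out⁻¹) =
              q'.out * (q'.out⁻¹ * (c₀ : Q) * q'.out) * q.out⁻¹ := by group
          _ = q'.out * (q.out⁻¹ * (c₀ : Q) * q.out) * q.out⁻¹ := by rw [h1]
          _ = (q'.out * q.out⁻¹) * c₀ := by group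
      have h3 : q'.out * q.out⁻¹ ∈ A := by
        refine hcent _ fun a ha => ?_
        obtain ⟨k, hk⟩ := mem_powers_iff_mem_zpowers.2 (hc₀ ⟨a, ha⟩)
        have hk' : (c₀ : Q) ^ k = a := congrArg Subtype.val hk
        rw [← hk']
        exact (show Commute (c₀ : Q) (q'.out * q.out⁻¹) from h2).pow_left k
      have h4 := hconj q.out ⟨_, h3⟩
      have e : q.out⁻¹ * (q'.out * q.out⁻¹) * q.out = q.out⁻¹ * q'.out := by group
      rw [← e]
      exact h4
    · intro q
      exact ⟨Module.End.mem_eigenspace_iff.2 (htr q.out c₀), fun h => hv0 (by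
        have h1 : ρ q.out⁻¹ (ρ q.out v) = v := by
          rw [← Module.End.mul_apply, ← map_mul, inv_mul_cancel, map_one, Module.End.one_apply]
        rw [← h1]
        have h2 : ρ q.out v = 0 := h
        rw [h2, map_zero])⟩

end

/-! ### Traces over `F` and over `F ∩ ℚ(χ)` -/

theorem trF_inf (F : IntermediateField ℚ ℂ) [hF : FiniteDimensional ℚ F] {X : Type} [Finite X]
    (f : X → ℂ) (hf : ∀ x, IsIntegral ℚ (f x)) (hG : IsGalois ℚ (charField f)) (x : X) :
    trF F f x = trF (F ⊓ charField f) f x := by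
  set M := charField f with hM
  set E := F ⊓ M with hE
  have hfs : Finite (Set.range f) := (Set.finite_range f).to_subtype
  have hMf : FiniteDimensional ℚ M := IntermediateField.finiteDimensional_adjoin fun z hz => by
    obtain ⟨g, rfl⟩ := hz
    exact hf g
  have hEf : FiniteDimensional ℚ E :=
    FiniteDimensional.of_injective (IntermediateField.inclusion (inf_le_left : E ≤ F)).toLinearMap
      (IntermediateField.inclusion_injective (inf_le_left : E ≤ F))
  set L := IntermediateField.adjoin F (Set.range f) with hL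
  set L' := IntermediateField.adjoin E (Set.range f) with hL'
  have hLf : FiniteDimensional F L := IntermediateField.finiteDimensional_adjoin fun z hz => by
    obtain ⟨g, rfl⟩ := hz
    exact (hf g).tower_top
  have hLf' : FiniteDimensional E L' := IntermediateField.finiteDimensional_adjoin fun z hz => by
    obtain ⟨g, rfl⟩ := hz
    exact (hf g).tower_top
  have hmem : ∀ x, f x ∈ L := fun x => IntermediateField.subset_adjoin F _ (Set.mem_range_self x)
  have hmem' : ∀ x, f x ∈ L' := fun x => IntermediateField.subset_adjoin E _ (Set.mem_range_self x)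
  have hsup : L.restrictScalars ℚ = M ⊔ F := by
    refine le_antisymm ?_ (sup_le ?_ (fun x hx => ?_))
    · have h1 : L ≤ IntermediateField.extendScalars (le_sup_right : F ≤ M ⊔ F) :=
        IntermediateField.adjoin_le_iff.2 fun x hx =>
          (le_sup_left : _ ≤ M ⊔ F) (IntermediateField.subset_adjoin ℚ _ hx)
      exact fun x hx => h1 hx
    · exact IntermediateField.adjoin_le_iff.2 (IntermediateField.subset_adjoin F _)
    · exact L.algebraMap_mem ⟨x, hx⟩
  have hsup' : L'.restrictScalars ℚ = M := by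
    refine le_antisymm ?_ ?_
    · have h1 : L' ≤ IntermediateField.extendScalars (inf_le_right : E ≤ M) :=
        IntermediateField.adjoin_le_iff.2 fun x hx => IntermediateField.subset_adjoin ℚ _ hx
      exact fun x hx => h1 hx
    · exact IntermediateField.adjoin_le_iff.2 (IntermediateField.subset_adjoin E _)
  have hdeg : Module.finrank F L = Module.finrank E L' := by
    have e1 := COMx.deg M F
    have e2 : Module.finrank ℚ F * Module.finrank F L =
        Module.finrank ℚ (M ⊔ F : IntermediateField ℚ ℂ) := by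
      rw [← hsup]
      exact Module.finrank_mul_finrank ℚ F L
    have e3 : Module.finrank ℚ E * Module.finrank E L' = Module.finrank ℚ M := by
      conv_rhs => rw [← hsup']
      exact Module.finrank_mul_finrank ℚ E L'
    have e4 : (M ⊓ F : IntermediateField ℚ ℂ) = E := inf_comm _ _
    rw [← e2, e4, ← e3] at e1
    have p1 : 0 < Module.finrank ℚ F := Module.finrank_pos
    have p2 : 0 < Module.finrank ℚ E := Module.finrank_pos
    have h3 : (Module.finrank ℚ F * Module.finrank ℚ E) * Module.finrank F L =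
        (Module.finrank ℚ F * Module.finrank ℚ E) * Module.finrank E L' := by
      rw [show Module.finrank ℚ F * Module.finrank ℚ E * Module.finrank F L =
        Module.finrank ℚ F * Module.finrank F L * Module.finrank ℚ E by ring, e1]
      ring
    exact Nat.eq_of_mul_eq_mul_left (Nat.mul_pos p1 p2) h3
  have hle : ∀ z ∈ L', z ∈ L := by
    intro z hz
    have h1 : z ∈ L'.restrictScalars ℚ := hz
    rw [hsup'] at h1
    have h2 : z ∈ M ⊔ F := (le_sup_left : M ≤ M ⊔ F) h1
    rw [← hsup] at h2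
    exact h2
  let r : (L →ₐ[F] ℂ) → (L' →ₐ[E] ℂ) := fun φ =>
    { toFun := fun z => φ ⟨z, hle z z.2⟩
      map_one' := map_one φ
      map_mul' := fun a b => map_mul φ ⟨a, hle a a.2⟩ ⟨b, hle b b.2⟩
      map_zero' := map_zero φ
      map_add' := fun a b => map_add φ ⟨a, hle a a.2⟩ ⟨b, hle b b.2⟩
      commutes' := fun c => φ.commutes ⟨(c : ℂ), (inf_le_left : E ≤ F) c.2⟩ }
  have hr : ∀ (φ : L →ₐ[F] ℂ) (x : X), r φ ⟨f x, hmem' x⟩ = φ ⟨f x, hmem x⟩ := fun _ _ => rfl
  have hinj : Function.Injective r := by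
    intro φ φ' h
    refine IntermediateField.adjoin_algHom_ext (F := F) (fun z hz => ?_)
    obtain ⟨g, rfl⟩ := hz
    have h1 := congrArg (fun ψ : L' →ₐ[E] ℂ => ψ ⟨f g, hmem' g⟩) h
    exact h1
  have hbij : Function.Bijective r := by
    refine (Fintype.bijective_iff_injective_and_card r).2 ⟨hinj, ?_⟩
    rw [AlgHom.card F L ℂ, AlgHom.card E L' ℂ, hdeg]
  have h1 : trF F f x = ∑ φ : L →ₐ[F] ℂ, φ ⟨f x, hmem x⟩ := by
    unfold trF
    rw [← trace_eq_sum_embeddings ℂ (K := F)]
    rfl
  have h2 : trF E f x = ∑ φ : L' →ₐ[E] ℂ, φ ⟨f x, hmem' x⟩ := by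
    unfold trF
    rw [← trace_eq_sum_embeddings ℂ (K := E)]
    rfl
  rw [h1, h2]
  exact Fintype.sum_bijective r hbij _ _ fun φ => (hr φ x).symm

/-! ### Inflation -/

theorem trF_comp (F : IntermediateField ℚ ℂ) {X Y : Type} (π : X → Y)
    (hπ : Function.Surjective π) (f : Y → ℂ) (x : X) :
    trF F (fun z => f (π z)) x = trF F f (π x) := by
  have h : ∀ (s t : Set ℂ) (hst : s = t) (z : ℂ) (hs : z ∈ s) (ht : z ∈ t),
      Algebra.trace F (IntermediateField.adjoin F s) ⟨z, IntermediateField.subset_adjoin F _ hs⟩ =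
        Algebra.trace F (IntermediateField.adjoin F t)
          ⟨z, IntermediateField.subset_adjoin F _ ht⟩ := by
    intro s t hst z hs ht
    subst hst
    rfl
  unfold trF
  exact congrArg Subtype.val
    (h _ _ (hπ.range_comp f) (f (π x)) (Set.mem_range_self x) (Set.mem_range_self (π x)))

theorem trF_comp' (F : IntermediateField ℚ ℂ) {X Y : Type} (π : X → Y)
    (hπ : Function.Surjective π) (f : Y → ℂ) (χ : X → ℂ) (h : χ = fun z => f (π z)) :
    trF F χ = fun z => trF F f (π z) := by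
  subst h
  exact funext fun z => trF_comp F π hπ f z

theorem permC_infl {G Q : Type} [Group G] [Fintype G] [Group Q] [Fintype Q] (π : G →* Q)
    (hπ : Function.Surjective π) (θ : Q → ℂ) (h : PermC θ) : PermC (fun g => θ (π g)) := by
  obtain ⟨r, H, c, hc⟩ := h
  refine ⟨r, fun i => (H i).comap π, c, fun g => ?_⟩
  show θ (π g) = _
  rw [hc (π g)]
  refine Finset.sum_congr rfl fun i _ => ?_
  rw [CMB.indFun_infl π hπ]

theorem irr_of {G Q V : Type} [Group G] [Group Q] [AddCommGroup V] [Module ℂ V] (π : G →* Q)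
    (hπ : Function.Surjective π) (ρ : Representation ℂ G V) (ρ' : Representation ℂ Q V)
    (h : ∀ g, ρ' (π g) = ρ g) (hρ : ρ.IsIrreducible) : ρ'.IsIrreducible := by
  let e : Subrepresentation ρ' ≃o Subrepresentation ρ :=
    { toFun := fun W => ⟨W.toSubmodule, fun g v hv => by
        rw [← h g]
        exact W.apply_mem_toSubmodule (π g) hv⟩
      invFun := fun W => ⟨W.toSubmodule, fun q v hv => by
        obtain ⟨g, rfl⟩ := hπ q
        rw [h g]
        exact W.apply_mem_toSubmodule g hv⟩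
      left_inv := fun W => rfl
      right_inv := fun W => rfl
      map_rel_iff' := Iff.rfl }
  exact (OrderIso.isSimpleOrder_iff e).2 hρ

/-- The character of `ρ` is inflated from a character with data `HolD`. -/
theorem exists_data {G V : Type} [Group G] [Fintype G] [AddCommGroup V] [Module ℂ V]
    [Module.Finite ℂ V] (ρ : Representation ℂ G V) (hirr : ρ.IsIrreducible)
    (h : StarkP.HolIm ρ) :
    ∃ (Q : Type) (_ : Group Q) (_ : Fintype Q) (π : G →* Q) (A B : Subgroup Q) (ψ : A →* ℂˣ),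
      Function.Surjective π ∧ HolD A ψ B ∧
      ρ.character = fun g => indFun A (extZ ψ) (π g) := by
  obtain ⟨A, B, hA, hcyc, hAB, hB⟩ := h
  let π : G →* (G ⧸ MonoidHom.ker ρ) := QuotientGroup.mk' (MonoidHom.ker ρ)
  let _ : Fintype (G ⧸ MonoidHom.ker ρ) := Fintype.ofFinite _
  have hπ : Function.Surjective π := QuotientGroup.mk'_surjective _
  let ρ' : Representation ℂ (G ⧸ MonoidHom.ker ρ) V :=
    QuotientGroup.lift (MonoidHom.ker ρ) ρ (fun _ hg => hg)
  have hρ' : ∀ g, ρ' (π g) = ρ g := fun g => rfl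
  obtain ⟨ψ, hol, hχ⟩ := core ρ' (irr_of π hπ ρ ρ' hρ' hirr) A B hA hcyc hAB hB (by
    intro a _ ha
    obtain ⟨g, rfl⟩ := hπ a
    rw [hρ' g] at ha
    exact (QuotientGroup.eq_one_iff g).2 ha)
  have hc : ρ.character = fun g => indFun A (extZ ψ) (π g) := funext fun g => hχ (π g)
  exact ⟨G ⧸ MonoidHom.ker ρ, inferInstance, Fintype.ofFinite _, π, A, B, ψ, hπ, hol, hc⟩

end HOLx

open HOLx

/-- The case `HolIm` of the class of characters. -/
theorem base_holIm {G V : Type} [Group G] [Fintype G] [AddCommGroup V] [Module ℂ V]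
    [Module.Finite ℂ V] (ρ : Representation ℂ G V) (hirr : ρ.IsIrreducible)
    (h : StarkP.HolIm ρ) (F : IntermediateField ℚ ℂ) [FiniteDimensional ℚ F] (ℓ j : ℕ)
    (hl : ℓ.Prime) (hl2 : ℓ ≠ 2) (hF : F ⊓ charField ρ.character ≤ rootField (ℓ ^ j)) :
    StarkP.InB F ρ := by
  obtain ⟨Q, _, _, π, A, B, ψ, hπ, hol, hχ⟩ := exists_data ρ hirr h
  have hG : IsGalois ℚ (charField ρ.character) :=
    galois_of_le (Fintype.card G) Fintype.card_pos _
      (charField_le ρ (Fintype.card G) Fintype.card_pos fun g => by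
        rw [← map_pow, pow_card_eq_one, map_one])
  obtain ⟨a, ha⟩ := HOF3x.trF_F hol (F ⊓ charField ρ.character) ℓ j hl hF
  refine Or.inr (Or.inr ⟨ℓ ^ a, pow_pos hl.pos a, ?_, ?_, ?_⟩)
  · exact ZMod.isCyclic_units_of_prime_pow ℓ hl hl2 a
  · have e1 : traceOver F ρ.character = trF (F ⊓ charField ρ.character) ρ.character :=
      funext fun g => HOLx.trF_inf F ρ.character (fun g => ZTNx.int_char ρ g) hG g
    have e2 := trF_comp' (F ⊓ charField ρ.character) π hπ _ _ hχ
    rw [e1, e2]
    exact (GTRx.mon_iff _ _).2 (VBRx.monC_infl π hπ _ _ ha)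
  · have e : trChar ρ.character = fun g => trChar (indFun A (extZ ψ)) (π g) :=
      (congrArg trChar hχ).trans (VFINx.trChar_comp π hπ _)
    rw [e]
    exact (GTRx.perm_iff _).2 (permC_infl π hπ _ (HOF3x.trChar_perm hol))

end StarkC.ABS
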