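import Pool.Agent.ABS.HOL

/-!
# Project ABS: `HolIm` representations are never symplectic; with a `2`-group as image they are
`NilNS` (helper76)
-/

set_option autoImplicit false

open scoped Classical

namespace StarkC.ABS

open SOL3x HEAx

namespace NSHx

/-- An irreducible representation of `A B`, `A` cyclic and normal, `B` acting faithfully on `A`,
faithful on `A`, has no invariant symplectic form. -/
theorem notSymp {Q V : Type} [Group Q] [Fintype Q] [AddCommGroup V] [Module ℂ V]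
    [Module.Finite ℂ V] (ρ : Representation ℂ Q V) (hirr : ρ.IsIrreducible) (A B : Subgroup Q)
    (hA : A.Normal) (hcyc : IsCyclic A) (hAB : A ⊔ B = ⊤)
    (hB : ∀ b ∈ B, (∀ a ∈ A, a * b = b * a) → b = 1) (hf : ∀ a ∈ A, ρ a = 1 → a = 1)
    (β : V →ₗ[ℂ] V →ₗ[ℂ] ℂ) (halt : ∀ v, β v v = 0) (hnd : ∀ v, (∀ w, β v w = 0) → v = 0)
    (hinv : ∀ g v w, β (ρ g v) (ρ g w) = β v w) : False := by
  obtain ⟨hnt, hir⟩ := FCLx.irr_of ρ hirr
  have hcomm : ∀ a ∈ A, ∀ b ∈ A, a * b = b * a := by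
    intro a ha b hb
    obtain ⟨g, hg⟩ := hcyc.exists_generator
    obtain ⟨i, hi⟩ := hg ⟨a, ha⟩
    obtain ⟨j, hj⟩ := hg ⟨b, hb⟩
    have h1 : (⟨a, ha⟩ : A) * ⟨b, hb⟩ = ⟨b, hb⟩ * ⟨a, ha⟩ := by
      rw [← hi, ← hj]
      exact (zpow_mul_comm g i j)
    exact congrArg Subtype.val h1
  obtain ⟨ψ, v, -, hv0, hv⟩ := eig_on ρ A ⊤ (by
      obtain ⟨x, hx⟩ := exists_ne (0 : V)
      intro h
      have : x ∈ (⊤ : Submodule ℂ V) := Submodule.mem_top
      rw [h, Submodule.mem_bot] at this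
      exact hx this) (fun _ _ _ _ => Submodule.mem_top) (by
    intro s hs t ht v _
    rw [← Module.End.mul_apply, ← map_mul, hcomm s hs t ht, map_mul, Module.End.mul_apply])
  have hconj : ∀ (x : Q) (a : A), x⁻¹ * (a : Q) * x ∈ A := fun x a => by
    have := hA.conj_mem a a.2 x⁻¹
    rwa [inv_inv] at this
  have htr : ∀ (x : Q) (a : A), ρ (a : Q) (ρ x v) =
      ((ψ ⟨x⁻¹ * (a : Q) * x, hconj x a⟩ : ℂˣ) : ℂ) • ρ x v := by
    intro x a
    have h1 : (a : Q) * x = x * (x⁻¹ * (a : Q) * x) := by group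
    rw [← Module.End.mul_apply, ← map_mul, h1, map_mul, Module.End.mul_apply]
    have h2 := hv ⟨x⁻¹ * (a : Q) * x, hconj x a⟩
    rw [h2, map_smul]
  have hspan : Submodule.span ℂ (Set.range fun x : Q => ρ x v) = ⊤ := by
    rcases hir (Submodule.span ℂ (Set.range fun g : Q => ρ g v)) (by
      intro g u hu
      induction hu using Submodule.span_induction with
      | mem x hx =>
        obtain ⟨y, rfl⟩ := hx
        apply Submodule.subset_span
        refine ⟨g * y, ?_⟩
        show ρ (g * y) v = ρ g (ρ y v)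
        rw [map_mul, Module.End.mul_apply]
      | zero => rw [map_zero]; exact Submodule.zero_mem _
      | add x y _ _ hx hy => rw [map_add]; exact Submodule.add_mem _ hx hy
      | smul a x _ hx => rw [map_smul]; exact Submodule.smul_mem _ _ hx) with h | h
    · exfalso
      apply hv0
      have h1 : v ∈ Submodule.span ℂ (Set.range fun g : Q => ρ g v) := by
        apply Submodule.subset_span
        refine ⟨1, ?_⟩
        show ρ 1 v = v
        rw [map_one, Module.End.one_apply]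
      rw [h, Submodule.mem_bot] at h1
      exact h1
    · exact h
  have hinj : ∀ a : A, ψ a = 1 → (a : Q) = 1 := by
    intro a ha
    refine hf a a.2 (LinearMap.ext fun u => ?_)
    have hu : u ∈ Submodule.span ℂ (Set.range fun g : Q => ρ g v) := by
      rw [hspan]
      exact Submodule.mem_top
    rw [Module.End.one_apply]
    induction hu using Submodule.span_induction with
    | mem x hx =>
      obtain ⟨y, rfl⟩ := hx
      show ρ (a : Q) (ρ y v) = ρ y v
      rw [htr y a]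
      obtain ⟨i, hi⟩ := HOLx.act_pow A hA hcyc y
      have h1 : (⟨y⁻¹ * (a : Q) * y, hconj y a⟩ : A) = a ^ i := by
        apply Subtype.ext
        exact hi a a.2
      rw [h1, map_pow, ha, one_pow, Units.val_one, one_smul]
    | zero => rw [map_zero]
    | add x y _ _ hx hy => rw [map_add, hx, hy]
    | smul c x _ hx => rw [map_smul, hx]
  -- some translate `ρ y v` is not orthogonal to `v`
  have hy : ∃ y : Q, β v (ρ y v) ≠ 0 := by
    by_contra hcon
    push Not at hcon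
    refine hv0 (hnd v fun w => ?_)
    have hw : w ∈ Submodule.span ℂ (Set.range fun g : Q => ρ g v) := by
      rw [hspan]
      exact Submodule.mem_top
    induction hw using Submodule.span_induction with
    | mem x hx =>
      obtain ⟨y, rfl⟩ := hx
      exact hcon y
    | zero => rw [map_zero]
    | add x y _ _ hx hy => rw [map_add, hx, hy, add_zero]
    | smul c x _ hx => rw [map_smul, hx, smul_zero]
  obtain ⟨y, hy⟩ := hy
  have h1 : y ∈ A ⊔ B := by rw [hAB]; exact Subgroup.mem_top y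
  obtain ⟨t, ht, x, hx, rfl⟩ := Subgroup.mem_sup_of_normal_left.1 h1
  have hbx : β v (ρ x v) ≠ 0 := by
    intro h0
    apply hy
    rw [map_mul, Module.End.mul_apply]
    have h2 := htr x ⟨t, ht⟩
    rw [h2, map_smul, h0, smul_zero]
  -- `x` inverts `A`
  have hxinv : ∀ a ∈ A, x⁻¹ * a * x = a⁻¹ := by
    intro a ha
    have h2 := hinv a v (ρ x v)
    have h3 : ρ a v = ((ψ ⟨a, ha⟩ : ℂˣ) : ℂ) • v := hv ⟨a, ha⟩
    have h4 := htr x ⟨a, ha⟩
    rw [h3, h4, map_smul, map_smul, LinearMap.smul_apply, smul_smul, smul_eq_mul] at h2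
    have h5 : ((ψ ⟨x⁻¹ * a * x, hconj x ⟨a, ha⟩⟩ : ℂˣ) : ℂ) * ((ψ ⟨a, ha⟩ : ℂˣ) : ℂ) = 1 := by
      have h6 : (((ψ ⟨x⁻¹ * a * x, hconj x ⟨a, ha⟩⟩ : ℂˣ) : ℂ) * ((ψ ⟨a, ha⟩ : ℂˣ) : ℂ) - 1) *
          β v (ρ x v) = 0 := by
        rw [sub_mul, one_mul, h2, sub_self]
      rcases mul_eq_zero.1 h6 with h7 | h7
      · exact sub_eq_zero.1 h7
      · exact absurd h7 hbx
    have h6 : ψ (⟨x⁻¹ * a * x, hconj x ⟨a, ha⟩⟩ * ⟨a, ha⟩) = 1 := by
      rw [map_mul]
      exact Units.ext (by rw [Units.val_mul]; exact h5)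
    have h7 : x⁻¹ * a * x * a = 1 := hinj _ h6
    exact eq_inv_of_mul_eq_one_left h7
  have hxx : x * x = 1 := by
    refine hB _ (B.mul_mem hx hx) fun a ha => ?_
    have h2 := hxinv a ha
    have h3 := hxinv a⁻¹ (A.inv_mem ha)
    rw [inv_inv] at h3
    calc a * (x * x) = x * (x⁻¹ * a * x) * x := by group
      _ = x * a⁻¹ * x := by rw [h2]
      _ = x * x * (x⁻¹ * a⁻¹ * x) := by group
      _ = x * x * a := by rw [h3]
  have h2 := hinv x v (ρ x v)
  rw [← Module.End.mul_apply, ← map_mul, hxx, map_one, Module.End.one_apply] at h2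
  have h3 : β (ρ x v) v = -β v (ρ x v) := by
    have h4 := halt (v + ρ x v)
    rw [map_add, map_add, LinearMap.add_apply, LinearMap.add_apply, halt v, halt (ρ x v), zero_add,
      add_zero] at h4
    exact eq_neg_of_add_eq_zero_left h4
  rw [h3] at h2
  refine hbx ?_
  have h4 : (2 : ℂ) * β v (ρ x v) = 0 := by linear_combination -h2
  rcases mul_eq_zero.1 h4 with h5 | h5
  · exact absurd h5 two_ne_zero
  · exact h5

end NSHx

/-- `HolIm` and a `2`-group as image: `NilNS`. -/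
theorem nilNS_of_hol2 {G V : Type} [Group G] [Fintype G] [AddCommGroup V] [Module ℂ V]
    [Module.Finite ℂ V] (ρ : Representation ℂ G V) (hirr : ρ.IsIrreducible)
    (h : StarkP.HolIm ρ) (h2 : IsPGroup 2 (G ⧸ MonoidHom.ker ρ)) : StarkP.NilNS ρ := by
  obtain ⟨A, B, hA, hcyc, hAB, hB⟩ := h
  let π : G →* (G ⧸ MonoidHom.ker ρ) := QuotientGroup.mk' (MonoidHom.ker ρ)
  let _ : Fintype (G ⧸ MonoidHom.ker ρ) := Fintype.ofFinite _
  have hπ : Function.Surjective π := QuotientGroup.mk'_surjective _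
  let ρ' : Representation ℂ (G ⧸ MonoidHom.ker ρ) V :=
    QuotientGroup.lift (MonoidHom.ker ρ) ρ (fun _ hg => hg)
  have hρ' : ∀ g, ρ' (π g) = ρ g := fun g => rfl
  have : Fact (Nat.Prime 2) := ⟨Nat.prime_two⟩
  refine ⟨h2.isNilpotent, ?_⟩
  rintro ⟨β, halt, hnd, hinv⟩
  refine NSHx.notSymp ρ' (HOLx.irr_of π hπ ρ ρ' hρ' hirr) A B hA hcyc hAB hB (by
    intro a _ ha
    obtain ⟨g, rfl⟩ := hπ a
    rw [hρ' g] at ha
    exact (QuotientGroup.eq_one_iff g).2 ha) β halt hnd ?_
  intro q v w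
  obtain ⟨g, rfl⟩ := hπ q
  rw [hρ' g]
  refine hinv g ?_ v w
  obtain ⟨j, hj⟩ := h2 (π g)
  refine ⟨j, ?_⟩
  rw [← hρ' (g ^ 2 ^ j), map_pow, hj, map_one]

end StarkC.ABS
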