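import Pool.Agent.ABS.HOF2
import Pool.Agent.ABS.NSH

/-!
# Project ABS (MP_46b841_nt): the `α`-part of the data `T ⋊ P` as a representation (helper63)

`th D` is the representation of `G` induced from `a x ↦ α a` on `T D_1`, on the functions on
`U = P / D_1`.
-/

set_option autoImplicit false

open scoped Classical

namespace StarkC.ABS

namespace HOT1x

open HOF1x

section

variable {G : Type} [Group G] {T : Subgroup G} {α β : T →* ℂˣ} {P : Subgroup G} {s : G → ℕ}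

/-- The `T`-part. -/
noncomputable def tp (D : HOF1x.Dat T α β P s) (g : G) : T :=
  ⟨Classical.choose (D.gen g), (Classical.choose_spec (D.gen g)).1⟩

/-- The `P`-part. -/
noncomputable def pp (D : HOF1x.Dat T α β P s) (g : G) : P :=
  ⟨Classical.choose (Classical.choose_spec (D.gen g)).2,
    (Classical.choose_spec (Classical.choose_spec (D.gen g)).2).1⟩

theorem tp_pp (D : HOF1x.Dat T α β P s) (g : G) : g = (tp D g : G) * (pp D g : G) :=
  (Classical.choose_spec (Classical.choose_spec (D.gen g)).2).2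

theorem tp_pp_mk (D : HOF1x.Dat T α β P s) (a : T) (x : P) :
    tp D ((a : G) * x) = a ∧ pp D ((a : G) * x) = x := by
  obtain ⟨h1, h2⟩ := uniq D (pp D ((a : G) * x)).2 x.2 (tp_pp D ((a : G) * x)).symm
  exact ⟨h1, Subtype.ext h2⟩

theorem tp_pp_mul (D : HOF1x.Dat T α β P s) (g h : G) :
    tp D (g * h) = tp D g * kap D (pp D g) (tp D h) ∧ pp D (g * h) = pp D g * pp D h := by
  have h1 : g * h = ((tp D g * kap D (pp D g) (tp D h) : T) : G) * ((pp D g * pp D h : P) : G) := by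
    show g * h = (tp D g : G) * ((pp D g : G) * (tp D h : G) * (pp D g : G)⁻¹) *
      ((pp D g : G) * (pp D h : G))
    conv_lhs => rw [tp_pp D g, tp_pp D h]
    group
  rw [h1]
  exact tp_pp_mk D _ _

theorem tp_pp_one (D : HOF1x.Dat T α β P s) : tp D (1 : G) = 1 ∧ pp D (1 : G) = 1 := by
  have h1 : (1 : G) = ((1 : T) : G) * ((1 : P) : G) := by
    rw [Subgroup.coe_one, Subgroup.coe_one, one_mul]
  have h2 := tp_pp_mk D (1 : T) (1 : P)
  rwa [← h1] at h2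

/-- `P / D_1`. -/
abbrev U (D : HOF1x.Dat T α β P s) : Type := P ⧸ (D1 D).subgroupOf P

/-- `α (z⁻¹ a z)`. -/
def wz (D : HOF1x.Dat T α β P s) (z : G) (a : T) : ℂˣ := α (kap D z⁻¹ a)

theorem wz_congr (D : HOF1x.Dat T α β P s) {z z' : P} (h : (z : U D) = (z' : U D)) (a : T) :
    wz D z a = wz D z' a := by
  have h1 : (z⁻¹ * z' : P) ∈ (D1 D).subgroupOf P := QuotientGroup.eq.1 h
  have h2 : ((z⁻¹ * z' : P) : G) ∈ D1 D := h1
  refine (h2.2 (kap D (z : G)⁻¹ a) (kap D (z' : G)⁻¹ a) ?_).symm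
  show (z' : G)⁻¹ * a * (z' : G)⁻¹⁻¹ =
    ((z : G)⁻¹ * z')⁻¹ * ((z : G)⁻¹ * a * (z : G)⁻¹⁻¹) * ((z : G)⁻¹ * z')
  group

theorem wz_kap (D : HOF1x.Dat T α β P s) (z x : G) (a : T) : wz D z (kap D x a) = wz D (x⁻¹ * z) a := by
  unfold wz
  congr 1
  refine Subtype.ext ?_
  show z⁻¹ * (x * a * x⁻¹) * z⁻¹⁻¹ = (x⁻¹ * z)⁻¹ * a * (x⁻¹ * z)⁻¹⁻¹
  group

theorem wz_mul (D : HOF1x.Dat T α β P s) (z : G) (a b : T) : wz D z (a * b) = wz D z a * wz D z b := by
  unfold wz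
  rw [map_mul, map_mul]

theorem wz_one (D : HOF1x.Dat T α β P s) (z : G) : wz D z 1 = 1 := by
  unfold wz
  rw [map_one, map_one]

/-- The weight at `u`. -/
noncomputable def wu (D : HOF1x.Dat T α β P s) (u : U D) (a : T) : ℂˣ := wz D (u.out : P) a

theorem wu_mk (D : HOF1x.Dat T α β P s) (z : P) (a : T) : wu D (z : U D) a = wz D z a :=
  wz_congr D (QuotientGroup.out_eq' _) a

theorem wu_kap (D : HOF1x.Dat T α β P s) (u : U D) (x : P) (a : T) :
    wu D u (kap D x a) = wu D (x⁻¹ • u) a := by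
  obtain ⟨z, rfl⟩ := QuotientGroup.mk_surjective u
  rw [wu_mk, wz_kap]
  have h1 : x⁻¹ • (QuotientGroup.mk z : U D) = (QuotientGroup.mk (x⁻¹ * z) : U D) := rfl
  rw [h1, wu_mk]
  rfl

/-- The operator of `g`. -/
noncomputable def op (D : HOF1x.Dat T α β P s) (g : G) : (U D → ℂ) →ₗ[ℂ] (U D → ℂ) where
  toFun f := fun u => ((wu D u (tp D g) : ℂˣ) : ℂ) * f ((pp D g)⁻¹ • u)
  map_add' f f' := by
    funext u
    show _ * (f _ + f' _) = _ * f _ + _ * f' _
    ring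
  map_smul' c f := by
    funext u
    show _ * (c * f _) = c * (_ * f _)
    ring

theorem op_apply (D : HOF1x.Dat T α β P s) (g : G) (f : U D → ℂ) (u : U D) :
    op D g f u = ((wu D u (tp D g) : ℂˣ) : ℂ) * f ((pp D g)⁻¹ • u) := rfl

/-- The representation. -/
noncomputable def th (D : HOF1x.Dat T α β P s) : Representation ℂ G (U D → ℂ) where
  toFun g := op D g
  map_one' := by
    refine LinearMap.ext fun f => funext fun u => ?_
    obtain ⟨h1, h2⟩ := tp_pp_one D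
    rw [op_apply, h1, h2]
    show ((wz D _ 1 : ℂˣ) : ℂ) * f ((1 : P)⁻¹ • u) = f u
    rw [wz_one, Units.val_one, one_mul, inv_one, one_smul]
  map_mul' g h := by
    refine LinearMap.ext fun f => funext fun u => ?_
    obtain ⟨h1, h2⟩ := tp_pp_mul D g h
    show op D (g * h) f u = op D g (op D h f) u
    rw [op_apply, op_apply, op_apply, h1, h2]
    have h3 : wu D u (tp D g * kap D (pp D g) (tp D h)) =
        wu D u (tp D g) * wu D ((pp D g)⁻¹ • u) (tp D h) := by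
      rw [← wu_kap]
      exact wz_mul D _ _ _
    rw [h3, Units.val_mul, mul_assoc, mul_inv_rev, mul_smul]

theorem th_apply (D : HOF1x.Dat T α β P s) (g : G) (f : U D → ℂ) (u : U D) :
    th D g f u = ((wu D u (tp D g) : ℂˣ) : ℂ) * f ((pp D g)⁻¹ • u) := rfl

theorem th_mk (D : HOF1x.Dat T α β P s) (a : T) (x : P) (f : U D → ℂ) (u : U D) :
    th D ((a : G) * x) f u = ((wu D u a : ℂˣ) : ℂ) * f (x⁻¹ • u) := by
  obtain ⟨h1, h2⟩ := tp_pp_mk D a x
  rw [th_apply, h1, h2]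

/-- `{a x : β a ^ c = 1}`. -/
def Hc (D : HOF1x.Dat T α β P s) (c : ℕ) : Subgroup G where
  carrier := {g | ∃ (a : T) (x : G), x ∈ P ∧ g = a * x ∧ β a ^ c = 1}
  one_mem' := ⟨1, 1, P.one_mem, by simp, by rw [map_one, one_pow]⟩
  mul_mem' := by
    rintro _ _ ⟨a, x, hx, rfl, ha⟩ ⟨b, y, hy, rfl, hb⟩
    refine ⟨a * kap D x b, x * y, P.mul_mem hx hy, ?_, ?_⟩
    · show (a : G) * x * (b * y) = a * (x * b * x⁻¹) * (x * y)
      group
    · have h1 : β (kap D x b) = β b ^ s x⁻¹ :=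
        D.actB x⁻¹ (P.inv_mem hx) b (kap D x b) (by
          show x * (b : G) * x⁻¹ = _
          rw [inv_inv])
      rw [map_mul, mul_pow, ha, one_mul, h1, ← pow_mul, mul_comm, pow_mul, hb, one_pow]
  inv_mem' := by
    rintro _ ⟨a, x, hx, rfl, ha⟩
    refine ⟨kap D x⁻¹ a⁻¹, x⁻¹, P.inv_mem hx, ?_, ?_⟩
    · show ((a : G) * x)⁻¹ = x⁻¹ * (a : G)⁻¹ * x⁻¹⁻¹ * x⁻¹
      group
    · have h1 : β (kap D x⁻¹ a⁻¹) = β a⁻¹ ^ s x :=
        D.actB x hx a⁻¹ (kap D x⁻¹ a⁻¹) (by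
          show x⁻¹ * ((a⁻¹ : T) : G) * x⁻¹⁻¹ = _
          rw [inv_inv])
      rw [h1, ← pow_mul, mul_comm, pow_mul, map_inv, inv_pow, ha, inv_one, one_pow]

theorem mem_Hc (D : HOF1x.Dat T α β P s) {c : ℕ} {a : T} {x : G} (hx : x ∈ P) :
    (a : G) * x ∈ Hc D c ↔ β a ^ c = 1 := by
  constructor
  · rintro ⟨b, y, hy, h, hb⟩
    obtain ⟨rfl, rfl⟩ := uniq D hx hy h
    exact hb
  · intro h2
    exact ⟨a, x, hx, rfl, h2⟩

end

section

variable {G : Type} [Group G] [Fintype G] {T : Subgroup G} {α β : T →* ℂˣ} {P : Subgroup G}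
  {s : G → ℕ}

theorem smul_eq_iff (D : HOF1x.Dat T α β P s) (x : P) (u : U D) : x⁻¹ • u = u ↔ (x : G) ∈ D1 D := by
  obtain ⟨z, rfl⟩ := QuotientGroup.mk_surjective u
  have h1 : x⁻¹ • (QuotientGroup.mk z : U D) = (QuotientGroup.mk (x⁻¹ * z) : U D) := rfl
  rw [h1, QuotientGroup.eq]
  show (((x⁻¹ * z : P)⁻¹ * z : P) : G) ∈ D1 D ↔ _
  have h2 : (((x⁻¹ * z : P)⁻¹ * z : P) : G) = (z : G)⁻¹ * (x : G) * z := by
    show ((x : G)⁻¹ * z)⁻¹ * z = _
    group
  rw [h2]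
  exact D1_conj_iff D z.2

/-- The character. -/
theorem th_char (D : HOF1x.Dat T α β P s) (a : T) (x : P) :
    (th D).character ((a : G) * x) =
      if (x : G) ∈ D1 D then ∑ u : U D, ((wu D u a : ℂˣ) : ℂ) else 0 := by
  have h0 : (th D).character ((a : G) * x) = LinearMap.trace ℂ (U D → ℂ) (th D ((a : G) * x)) := rfl
  rw [h0, LinearMap.trace_eq_matrix_trace ℂ (Pi.basisFun ℂ (U D)), Matrix.trace]
  have h1 : ∀ u : U D, (LinearMap.toMatrix (Pi.basisFun ℂ (U D)) (Pi.basisFun ℂ (U D))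
      (th D ((a : G) * x))).diag u = if (x : G) ∈ D1 D then ((wu D u a : ℂˣ) : ℂ) else 0 := by
    intro u
    rw [Matrix.diag_apply, LinearMap.toMatrix_apply, Pi.basisFun_repr, Pi.basisFun_apply, th_mk]
    by_cases h : (x : G) ∈ D1 D
    · rw [if_pos h, (smul_eq_iff D x u).2 h, Pi.single_eq_same, mul_one]
    · rw [if_neg h, Pi.single_eq_of_ne (fun h2 => h ((smul_eq_iff D x u).1 h2)), mul_zero]
  rw [Finset.sum_congr rfl fun u _ => h1 u]
  split_ifs
  · rfl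
  · rw [Finset.sum_const_zero]

/-- Sums over `P` and over `U`. -/
theorem sum_P (D : HOF1x.Dat T α β P s) (a : T) :
    ∑ z : P, ((wz D z a : ℂˣ) : ℂ) = (Nat.card (D1 D) : ℂ) * ∑ u : U D, ((wu D u a : ℂˣ) : ℂ) := by
  have h1 : ∀ z : P, ((wz D z a : ℂˣ) : ℂ) = ((wu D (z : U D) a : ℂˣ) : ℂ) := fun z => by
    rw [wu_mk]
  rw [Finset.sum_congr rfl fun z _ => h1 z,
    Finset.sum_comp (fun u : U D => ((wu D u a : ℂˣ) : ℂ)) (fun z : P => (z : U D)), Finset.mul_sum]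
  have h2 : (Finset.univ : Finset P).image (fun z : P => (z : U D)) = Finset.univ := by
    ext u
    obtain ⟨z, rfl⟩ := QuotientGroup.mk_surjective u
    simp
  rw [h2]
  refine Finset.sum_congr rfl fun u _ => ?_
  obtain ⟨z, rfl⟩ := QuotientGroup.mk_surjective u
  rw [nsmul_eq_mul]
  congr 2
  rw [Nat.card_eq_fintype_card]
  refine (Finset.card_bij (s := (Finset.univ : Finset (D1 D)))
    (fun d _ => (z * ⟨(d : G), d.2.1⟩ : P)) ?_ ?_ ?_).symm
  · intro d _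
    refine Finset.mem_filter.2 ⟨Finset.mem_univ _, ?_⟩
    refine (QuotientGroup.eq.2 ?_).symm
    show ((z⁻¹ * (z * ⟨(d : G), d.2.1⟩) : P) : G) ∈ D1 D
    rw [inv_mul_cancel_left]
    exact d.2
  · intro d _ d' _ h
    have h3 := congrArg Subtype.val (mul_left_cancel h)
    exact Subtype.ext h3
  · intro y hy
    have h3 : (y : U D) = (z : U D) := (Finset.mem_filter.1 hy).2
    have h4 : (z⁻¹ * y : P) ∈ (D1 D).subgroupOf P := QuotientGroup.eq.1 h3.symm
    exact ⟨⟨_, h4⟩, Finset.mem_univ _, Subtype.ext (by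
      show (z : G) * ((z : G)⁻¹ * y) = y
      group)⟩

end

end HOT1x

end StarkC.ABS
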