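import Pool.Agent.ABS.HOT1

/-!
# Project ABS (MP_46b841_nt): irreducibility and image of the `α`-part (helper63)
-/

set_option autoImplicit false

open scoped Classical

namespace StarkC.ABS

namespace HOT1x

open HOF1x HOF2x

section

variable {G : Type} [Group G] [Fintype G] {T : Subgroup G} {α β : T →* ℂˣ} {P : Subgroup G}
  {s : G → ℕ}

omit [Fintype G] in
theorem wz_s (D : HOF1x.Dat T α β P s) {z : G} (hz : z ∈ P) (a : T) : wz D z a = α a ^ s z := by
  refine D.actA z hz a (kap D z⁻¹ a) ?_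
  show z⁻¹ * (a : G) * z⁻¹⁻¹ = z⁻¹ * a * z
  rw [inv_inv]

omit [Fintype G] in
theorem wz_val (D : HOF1x.Dat T α β P s) (a : T) : wz D 1 a = α a := by
  unfold wz
  congr 1
  refine Subtype.ext ?_
  show (1 : G)⁻¹ * a * (1 : G)⁻¹⁻¹ = a
  group

omit [Fintype G] in
theorem wu_pow (D : HOF1x.Dat T α β P s) (u : U D) {a b : T} {k : ℕ} (h : α b = α a ^ k) :
    wu D u b = wu D u a ^ k := by
  unfold wu
  rw [wz_s D (u.out : P).2, wz_s D (u.out : P).2, h, ← pow_mul, ← pow_mul, mul_comm]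

omit [Fintype G] in
theorem wu_congr (D : HOF1x.Dat T α β P s) (u : U D) {a b : T} (h : α b = α a) :
    wu D u b = wu D u a := by
  have h1 := wu_pow D u (a := a) (b := b) (k := 1) (by rw [h, pow_one])
  rwa [pow_one] at h1

/-- An element of `T` with `α a₀` a generator of the values. -/
theorem exists_gen (α : T →* ℂˣ) : ∃ a₀ : T, ∀ a : T, ∃ k : ℕ, α a = α a₀ ^ k := by
  obtain ⟨a₀, h0⟩ := RFX.exists_value α
  refine ⟨a₀, fun a => ?_⟩
  have hpos : 0 < orderOf α := s_pos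
  have hz : NeZero (orderOf α) := ⟨hpos.ne'⟩
  have h1 : IsPrimitiveRoot (α a₀) (orderOf α) := by
    rw [← h0]
    exact IsPrimitiveRoot.orderOf _
  have h2 : IsPrimitiveRoot ((α a₀ : ℂˣ) : ℂ) (orderOf α) := IsPrimitiveRoot.coe_units_iff.2 h1
  have h3 : ((α a : ℂˣ) : ℂ) ^ orderOf α = 1 := by
    rw [← Units.val_pow_eq_pow_val, (ord_dvd α _).1 dvd_rfl, Units.val_one]
  obtain ⟨i, -, hi⟩ := h2.eq_pow_of_pow_eq_one h3
  refine ⟨i, Units.ext ?_⟩
  rw [Units.val_pow_eq_pow_val, hi]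

omit [Fintype G] in
theorem wu_inj (D : HOF1x.Dat T α β P s) {a₀ : T} (h0 : ∀ a : T, ∃ k : ℕ, α a = α a₀ ^ k) {u v : U D}
    (h : wu D u a₀ = wu D v a₀) : u = v := by
  obtain ⟨z, rfl⟩ := QuotientGroup.mk_surjective u
  obtain ⟨y, rfl⟩ := QuotientGroup.mk_surjective v
  have h1 : ∀ a, wz D z a = wz D y a := by
    intro a
    obtain ⟨k, hk⟩ := h0 a
    rw [← wu_mk D z a, ← wu_mk D y a]
    have e1 := wu_pow D (QuotientGroup.mk z : U D) hk
    have e2 := wu_pow D (QuotientGroup.mk y : U D) hk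
    rw [e1, e2, h]
  rw [QuotientGroup.eq]
  show ((z⁻¹ * y : P) : G) ∈ D1 D
  refine ⟨(z⁻¹ * y : P).2, fun a b hb => ?_⟩
  have h2 : b = kap D (y : G)⁻¹ (kap D z a) := by
    refine Subtype.ext ?_
    rw [hb]
    show ((z : G)⁻¹ * y)⁻¹ * a * ((z : G)⁻¹ * y) = (y : G)⁻¹ * ((z : G) * a * (z : G)⁻¹) * (y : G)⁻¹⁻¹
    group
  have h3 : a = kap D (z : G)⁻¹ (kap D z a) := by
    refine Subtype.ext ?_
    show (a : G) = (z : G)⁻¹ * ((z : G) * a * (z : G)⁻¹) * (z : G)⁻¹⁻¹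
    group
  calc α b = wz D y (kap D z a) := by rw [h2]; rfl
    _ = wz D z (kap D z a) := (h1 _).symm
    _ = α a := by
      conv_rhs => rw [h3]
      rfl

omit [Fintype G] in
theorem single_mem (D : HOF1x.Dat T α β P s) (W : Submodule ℂ (U D → ℂ))
    (hW : ∀ g, ∀ v ∈ W, th D g v ∈ W) (u v : U D) (h : Pi.single u (1 : ℂ) ∈ W) :
    Pi.single v (1 : ℂ) ∈ W := by
  obtain ⟨z, rfl⟩ := QuotientGroup.mk_surjective u
  obtain ⟨y, rfl⟩ := QuotientGroup.mk_surjective v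
  have h1 := hW (((1 : T) : G) * ((y * z⁻¹ : P) : G)) _ h
  have h2 : th D (((1 : T) : G) * ((y * z⁻¹ : P) : G)) (Pi.single (QuotientGroup.mk z) (1 : ℂ)) =
      Pi.single (QuotientGroup.mk y) (1 : ℂ) := by
    funext w
    rw [th_mk]
    have h3 : wu D w (1 : T) = 1 := wz_one D _
    rw [h3, Units.val_one, one_mul]
    have h4 : (y * z⁻¹ : P)⁻¹ • w = (QuotientGroup.mk z : U D) ↔ w = (QuotientGroup.mk y : U D) := by
      rw [inv_smul_eq_iff]
      have h5 : (y * z⁻¹ : P) • (QuotientGroup.mk z : U D) = (QuotientGroup.mk (y * z⁻¹ * z) : U D) :=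
        rfl
      rw [h5, inv_mul_cancel_right]
    by_cases h5 : w = (QuotientGroup.mk y : U D)
    · rw [h4.2 h5, h5, Pi.single_eq_same, Pi.single_eq_same]
    · rw [Pi.single_eq_of_ne (fun h6 => h5 (h4.1 h6)), Pi.single_eq_of_ne h5]
  rwa [h2] at h1

/-- The representation `th D` is irreducible on every subset of `G` with the same image. -/
theorem th_sub (D : HOF1x.Dat T α β P s) (W : Submodule ℂ (U D → ℂ))
    (hW : ∀ g, ∀ v ∈ W, th D g v ∈ W) : W = ⊥ ∨ W = ⊤ := by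
  by_cases h0 : W = ⊥
  · exact Or.inl h0
  right
  obtain ⟨a₀, ha⟩ := exists_gen α
  have hex : ∃ n : ℕ, ∃ f ∈ W, f ≠ 0 ∧ (Finset.univ.filter fun u => f u ≠ 0).card = n := by
    obtain ⟨f, hf, hf0⟩ := (Submodule.ne_bot_iff W).1 h0
    exact ⟨_, f, hf, hf0, rfl⟩
  obtain ⟨f, hf, hf0, hcard⟩ := Nat.find_spec hex
  have hmin := fun m hm => Nat.find_min hex (m := m) hm
  have h1 : ∃ u, f u ≠ 0 := by
    by_contra h
    push Not at h
    exact hf0 (funext h)
  obtain ⟨u, hu⟩ := h1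
  have h2 : ∀ v, v ≠ u → f v = 0 := by
    intro v hv
    by_contra hfv
    -- remove `v` from the support
    let g : U D → ℂ := th D (((a₀ : T) : G) * ((1 : P) : G)) f - ((wu D v a₀ : ℂˣ) : ℂ) • f
    have hg : g ∈ W := W.sub_mem (hW _ _ hf) (W.smul_mem _ hf)
    have hgv : ∀ w, g w = (((wu D w a₀ : ℂˣ) : ℂ) - ((wu D v a₀ : ℂˣ) : ℂ)) * f w := by
      intro w
      show th D (((a₀ : T) : G) * ((1 : P) : G)) f w - ((wu D v a₀ : ℂˣ) : ℂ) * f w = _
      rw [th_mk, inv_one, one_smul]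
      ring
    have hgu : g u ≠ 0 := by
      rw [hgv]
      refine mul_ne_zero (fun h3 => hv ?_) hu
      exact (wu_inj D ha (Units.ext (sub_eq_zero.1 h3))).symm
    refine hmin (Finset.univ.filter fun u => g u ≠ 0).card ?_ ⟨g, hg, fun h3 => hgu ?_, rfl⟩
    · rw [← hcard]
      refine Finset.card_lt_card (Finset.ssubset_iff_subset_ne.2 ⟨fun w hw => ?_, fun h3 => ?_⟩)
      · refine Finset.mem_filter.2 ⟨Finset.mem_univ _, fun h4 => ?_⟩
        refine (Finset.mem_filter.1 hw).2 ?_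
        rw [hgv, h4, mul_zero]
      · have h4 : v ∈ Finset.univ.filter fun u => f u ≠ 0 :=
          Finset.mem_filter.2 ⟨Finset.mem_univ _, hfv⟩
        rw [← h3] at h4
        refine (Finset.mem_filter.1 h4).2 ?_
        rw [hgv, sub_self, zero_mul]
    · rw [h3]
      rfl
  have h3 : Pi.single u (1 : ℂ) ∈ W := by
    have h4 : Pi.single u (1 : ℂ) = (f u)⁻¹ • f := by
      funext w
      show _ = (f u)⁻¹ * f w
      by_cases hw : w = u
      · rw [hw, Pi.single_eq_same, inv_mul_cancel₀ hu]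
      · rw [Pi.single_eq_of_ne hw, h2 w hw, mul_zero]
    rw [h4]
    exact W.smul_mem _ hf
  refine (Submodule.eq_top_iff').2 fun p => ?_
  have h4 : p = ∑ w, p w • Pi.single w (1 : ℂ) := by
    funext w
    rw [Finset.sum_apply, Finset.sum_eq_single w]
    · show _ = p w * _
      rw [Pi.single_eq_same, mul_one]
    · intro b _ hb
      show p b * _ = 0
      rw [Pi.single_eq_of_ne hb.symm, mul_zero]
    · intro h
      exact absurd (Finset.mem_univ _) h
  rw [h4]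
  exact W.sum_mem fun w _ => W.smul_mem _ (single_mem D W hW u w h3)

theorem th_irr (D : HOF1x.Dat T α β P s) : (th D).IsIrreducible := by
  refine ZDUx.irr_of _ ?_ (th_sub D)
  have h1 : Nonempty (U D) := ⟨QuotientGroup.mk 1⟩
  exact Function.nontrivial

/-! ### The image -/

omit [Fintype G] in
theorem th_T (D : HOF1x.Dat T α β P s) {a b : T} (h : α b = α a) (x : P) :
    th D ((b : G) * x) = th D ((a : G) * x) := by
  refine LinearMap.ext fun f => funext fun u => ?_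
  rw [th_mk, th_mk, wu_congr D u h]

omit [Fintype G] in
theorem th_T' (D : HOF1x.Dat T α β P s) {a b : T} (h : th D (b : G) = th D (a : G)) : α b = α a := by
  have h1 : ∀ c : T, th D (c : G) (fun _ => 1) (QuotientGroup.mk 1 : U D) = ((α c : ℂˣ) : ℂ) := by
    intro c
    have h2 := th_mk D c 1 (fun _ => (1 : ℂ)) (QuotientGroup.mk 1 : U D)
    rw [Subgroup.coe_one, mul_one, mul_one] at h2
    rw [h2, wu_mk]
    have h3 := wz_val D c
    rw [← h3]
    rfl
  refine Units.ext ?_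
  rw [← h1, ← h1, h]

theorem th_D1 (D : HOF1x.Dat T α β P s) {x : P} (hx : (x : G) ∈ D1 D) : th D (x : G) = 1 := by
  refine LinearMap.ext fun f => funext fun u => ?_
  have h2 := th_mk D 1 x f u
  rw [Subgroup.coe_one, one_mul] at h2
  rw [h2, (smul_eq_iff D x u).2 hx]
  have h3 : wu D u (1 : T) = 1 := wz_one D _
  rw [h3, Units.val_one, one_mul]
  rfl

theorem th_hol (D : HOF1x.Dat T α β P s) : StarkP.HolIm (th D) := by
  let π : G →* (G ⧸ MonoidHom.ker (th D)) := QuotientGroup.mk' (MonoidHom.ker (th D))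
  have hπ : Function.Surjective π := QuotientGroup.mk'_surjective _
  have hπe : ∀ g h : G, π g = π h ↔ th D g = th D h := by
    intro g h
    have e1 : π g = π h ↔ g⁻¹ * h ∈ MonoidHom.ker (th D) := QuotientGroup.eq
    rw [e1, MonoidHom.mem_ker, map_mul]
    constructor
    · intro h1
      have h2 : th D g * (th D g⁻¹ * th D h) = th D g * 1 := by rw [h1]
      rw [← mul_assoc, ← map_mul, mul_inv_cancel, map_one, one_mul, mul_one] at h2
      exact h2.symm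
    · intro h1
      rw [← h1, ← map_mul, inv_mul_cancel, map_one]
  have hTn : T.Normal := ⟨fun t ht g => D.norm' g t ht⟩
  obtain ⟨a₀, ha⟩ := exists_gen α
  refine ⟨T.map π, P.map π, Subgroup.Normal.map hTn π hπ, ?_, ?_, ?_⟩
  · refine ⟨⟨⟨π a₀, ⟨a₀, a₀.2, rfl⟩⟩, ?_⟩⟩
    rintro ⟨_, ⟨a, haT, rfl⟩⟩
    obtain ⟨k, hk⟩ := ha ⟨a, haT⟩
    refine ⟨(k : ℤ), Subtype.ext ?_⟩
    show (((⟨π a₀, ⟨a₀, a₀.2, rfl⟩⟩ : T.map π) ^ (k : ℤ) : T.map π) : G ⧸ MonoidHom.ker (th D)) =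
      π a
    rw [zpow_natCast]
    show (π a₀) ^ k = π a
    rw [← map_pow, hπe]
    have h1 : α (a₀ ^ k) = α ⟨a, haT⟩ := by rw [map_pow, hk]
    have h2 := th_T D h1 1
    rw [Subgroup.coe_one, mul_one, mul_one] at h2
    exact h2
  · rw [Subgroup.eq_top_iff']
    intro q
    obtain ⟨g, rfl⟩ := hπ q
    obtain ⟨a, haT, x, hx, rfl⟩ := D.gen g
    rw [map_mul]
    exact Subgroup.mul_mem_sup ⟨a, haT, rfl⟩ ⟨x, hx, rfl⟩
  · rintro _ ⟨x, hx, rfl⟩ h
    have h1 : x ∈ D1 D := by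
      refine ⟨hx, fun a b hb => ?_⟩
      have h2 := h (π a) ⟨a, a.2, rfl⟩
      have h3 : π b = π a := by
        rw [hb, map_mul, map_mul, map_inv, mul_assoc, h2, ← mul_assoc, inv_mul_cancel, one_mul]
      exact th_T' D ((hπe _ _).1 h3)
    have h2 : π x = π 1 := by
      rw [hπe, map_one]
      exact th_D1 D (x := ⟨x, hx⟩) h1
    rw [h2, map_one]

omit [Fintype G] in
theorem s_unit (D : HOF1x.Dat T α β P s) {x : G} (hx : x ∈ P) : (orderOf α).Coprime (s x) := by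
  have h1 : s x * s x⁻¹ ≡ 1 [MOD orderOf α] := by
    rw [ord_mod]
    intro a
    have h2 : α (kap D x⁻¹ a) = α a ^ s x := wz_s D hx a
    have h3 : α a = α (kap D x⁻¹ a) ^ s x⁻¹ := by
      refine D.actA x⁻¹ (P.inv_mem hx) (kap D x⁻¹ a) a ?_
      show (a : G) = x⁻¹⁻¹ * (x⁻¹ * a * x⁻¹⁻¹) * x⁻¹
      group
    rw [pow_mul, ← h2, ← h3, pow_one]
  have h2 := h1.gcd_eq
  rw [Nat.gcd_one_left] at h2
  exact Nat.Coprime.symm (Nat.Coprime.coprime_mul_right h2)

omit [Fintype G] in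
theorem act_powP (D : HOF1x.Dat T α β P s) {x : G} (hx : x ∈ P) (m : ℕ) (a : T) :
    wz D (x ^ m) a = α a ^ (s x) ^ m := by
  induction m with
  | zero => rw [pow_zero, pow_zero, pow_one, wz_val]
  | succ m ih =>
    have h1 : kap D (x ^ (m + 1))⁻¹ a = kap D x⁻¹ (kap D (x ^ m)⁻¹ a) := by
      refine Subtype.ext ?_
      show (x ^ (m + 1))⁻¹ * a * (x ^ (m + 1))⁻¹⁻¹ =
        x⁻¹ * ((x ^ m)⁻¹ * a * (x ^ m)⁻¹⁻¹) * x⁻¹⁻¹
      rw [pow_succ]
      group
    have h2 : wz D (x ^ (m + 1)) a = wz D x (kap D (x ^ m)⁻¹ a) := by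
      unfold wz
      rw [h1]
    have h3 : α (kap D (x ^ m)⁻¹ a) = wz D (x ^ m) a := rfl
    rw [h2, wz_s D hx, h3, ih, ← pow_mul, pow_succ]

theorem th_two (D : HOF1x.Dat T α β P s) (e : ℕ) (he : orderOf α = 2 ^ e) :
    IsPGroup 2 (G ⧸ MonoidHom.ker (th D)) := by
  intro q
  obtain ⟨g, rfl⟩ := QuotientGroup.mk_surjective q
  -- `x ^ (2 ^ e)` is in `D_1`
  have h1 : ∀ x : P, ((x ^ 2 ^ e : P) : G) ∈ D1 D := by
    intro x
    refine ⟨(x ^ 2 ^ e : P).2, fun a b hb => ?_⟩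
    have h2 : b = kap D ((x : G) ^ 2 ^ e)⁻¹ a := by
      refine Subtype.ext ?_
      rw [hb]
      show ((x : G) ^ 2 ^ e)⁻¹ * a * (x : G) ^ 2 ^ e = ((x : G) ^ 2 ^ e)⁻¹ * a * ((x : G) ^ 2 ^ e)⁻¹⁻¹
      rw [inv_inv]
    have h3 : α b = α a ^ (s (x : G)) ^ 2 ^ e := by
      rw [h2]
      exact act_powP D x.2 _ a
    have h4 : (s (x : G)) ^ 2 ^ e ≡ 1 [MOD orderOf α] := by
      have h5 := s_unit D x.2
      rw [he] at h5 ⊢
      have h6 : Nat.totient (2 ^ e) ∣ 2 ^ e := by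
        rcases Nat.eq_zero_or_pos e with h7 | h7
        · rw [h7]
          simp
        · rw [Nat.totient_prime_pow Nat.prime_two h7]
          norm_num
          exact pow_dvd_pow 2 (Nat.sub_le e 1)
      obtain ⟨c, hc⟩ := h6
      have h7 := (Nat.ModEq.pow_totient h5.symm).pow c
      rw [one_pow, ← pow_mul, ← hc] at h7
      exact h7
    rw [h3, (ord_mod α _ _).1 h4 a, pow_one]
  have hpp : ∀ m : ℕ, pp D (g ^ m) = pp D g ^ m := by
    intro m
    induction m with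
    | zero => rw [pow_zero, pow_zero]; exact (tp_pp_one D).2
    | succ m ih => rw [pow_succ, pow_succ, (tp_pp_mul D _ _).2, ih]
  have h2 : th D (g ^ 2 ^ e) = th D (tp D (g ^ 2 ^ e) : G) := by
    have h3 := tp_pp D (g ^ 2 ^ e)
    rw [hpp] at h3
    conv_lhs => rw [h3]
    rw [map_mul, th_D1 D (x := pp D g ^ 2 ^ e) (h1 _), mul_one]
  refine ⟨e + e, ?_⟩
  rw [← QuotientGroup.mk_pow, QuotientGroup.eq_one_iff, MonoidHom.mem_ker, pow_add, pow_mul,
    map_pow, h2, ← map_pow]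
  have h3 : α (tp D (g ^ 2 ^ e) ^ 2 ^ e) = α 1 := by
    rw [map_pow, map_one, ← he, (ord_dvd α _).1 dvd_rfl]
  have h4 := th_T D h3 1
  rw [Subgroup.coe_one, mul_one, mul_one, Subgroup.coe_one, map_one] at h4
  exact h4

theorem th_nilNS (D : HOF1x.Dat T α β P s) (e : ℕ) (he : orderOf α = 2 ^ e) : StarkP.NilNS (th D) :=
  nilNS_of_hol2 (th D) (th_irr D) (th_hol D) (th_two D e he)

/-! ### Restriction to `H_c` -/

omit [Fintype G] in
theorem same_im (D : HOF1x.Dat T α β P s) (M n c : ℕ) (hα : orderOf α = M) (hβ : orderOf β = n)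
    (hMn : M.Coprime n) (g : G) : ∃ h : Hc D c, th D (h : G) = th D g := by
  obtain ⟨e, he1, he2⟩ := Nat.chineseRemainder hMn 1 0
  obtain ⟨a, ha, x, hx, rfl⟩ := D.gen g
  have h1 : α ((⟨a, ha⟩ : T) ^ e) = α ⟨a, ha⟩ := by
    rw [map_pow]
    rw [← hα] at he1
    rw [(ord_mod α _ _).1 he1, pow_one]
  have h2 : β ((⟨a, ha⟩ : T) ^ e) = 1 := by
    rw [map_pow]
    exact (ord_dvd β e).1 (by rw [hβ]; exact (Nat.modEq_zero_iff_dvd).1 he2) _
  refine ⟨⟨_, (mem_Hc D hx).2 (show β ((⟨a, ha⟩ : T) ^ e) ^ c = 1 by rw [h2, one_pow])⟩, ?_⟩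
  exact th_T D h1 ⟨x, hx⟩

/-- `θ_c`. -/
noncomputable abbrev thc (D : HOF1x.Dat T α β P s) (c : ℕ) : Representation ℂ (Hc D c) (U D → ℂ) :=
  (th D).comp (Hc D c).subtype

theorem thc_irr (D : HOF1x.Dat T α β P s) (M n c : ℕ) (hα : orderOf α = M) (hβ : orderOf β = n)
    (hMn : M.Coprime n) : (thc D c).IsIrreducible := by
  have h1 : Nonempty (U D) := ⟨QuotientGroup.mk 1⟩
  refine ZDUx.irr_of _ Function.nontrivial fun W hW => th_sub D W fun g v hv => ?_
  obtain ⟨h, hh⟩ := same_im D M n c hα hβ hMn g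
  rw [← hh]
  exact hW h v hv

theorem thc_nilNS (D : HOF1x.Dat T α β P s) (e n c : ℕ) (hα : orderOf α = 2 ^ e) (hβ : orderOf β = n)
    (hMn : (2 ^ e).Coprime n) : StarkP.NilNS (thc D c) := by
  obtain ⟨h1, h2⟩ := th_nilNS D e hα
  refine ⟨?_, ?_⟩
  · let f : Hc D c →* G ⧸ MonoidHom.ker (th D) :=
      (QuotientGroup.mk' (MonoidHom.ker (th D))).comp (Hc D c).subtype
    have hf : Function.Surjective f := by
      intro q
      obtain ⟨g, rfl⟩ := QuotientGroup.mk_surjective q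
      obtain ⟨h, hh⟩ := same_im D _ n c hα hβ hMn g
      refine ⟨h, ?_⟩
      show ((h : G) : G ⧸ MonoidHom.ker (th D)) = g
      rw [QuotientGroup.eq, MonoidHom.mem_ker, map_mul]
      have h3 : th D (h : G)⁻¹ * th D (h : G) = 1 := by
        rw [← map_mul, inv_mul_cancel, map_one]
      rw [← hh, h3]
    have hk : MonoidHom.ker f = MonoidHom.ker (thc D c) := by
      ext g
      rw [MonoidHom.mem_ker, MonoidHom.mem_ker]
      show (((g : G)) : G ⧸ MonoidHom.ker (th D)) = 1 ↔ th D (g : G) = 1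
      rw [QuotientGroup.eq_one_iff, MonoidHom.mem_ker]
    have q := (QuotientGroup.quotientMulEquivOfEq hk.symm).trans
      (QuotientGroup.quotientKerEquivOfSurjective f hf)
    have h3 : Group.IsNilpotent (G ⧸ MonoidHom.ker (th D)) := h1
    exact Group.nilpotent_of_mulEquiv q.symm
  · rintro ⟨B, hB1, hB2, hB3⟩
    refine h2 ⟨B, hB1, hB2, fun g hg v w => ?_⟩
    obtain ⟨j, hj⟩ := hg
    obtain ⟨h, hh⟩ := same_im D _ n c hα hβ hMn g
    have e1 : thc D c (h ^ 2 ^ j) = 1 := by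
      have e2 : thc D c (h ^ 2 ^ j) = (thc D c h) ^ 2 ^ j := map_pow _ _ _
      have e3 : thc D c h = th D (h : G) := rfl
      rw [e2, e3, hh, ← map_pow, hj]
    have e4 := hB3 h ⟨j, e1⟩ v w
    have e3 : thc D c h = th D (h : G) := rfl
    rw [e3, hh] at e4
    exact e4

end

end HOT1x

end StarkC.ABS
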