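import Pool.Agent.ABS.HOF1

/-!
# Project ABS: transitivity of induction in a form with representatives (helper76)
-/

set_option autoImplicit false

open scoped Classical

namespace StarkC.ABS

namespace IND2x

/-- If `θ` is on `H` the function induced from `f` on `W` (sum over representatives `r u`, `u : U`),
then `Ind_H^G θ = Ind_W^G f`. -/
theorem ind_trans {G U : Type} [Group G] [Fintype G] [Fintype U] [Nonempty U] (H W : Subgroup G)
    (f θ : G → ℂ) (r : U → G) (hr : ∀ u, r u ∈ H) (hW : W ≤ H)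
    (hcard : Nat.card H = Nat.card W * Fintype.card U)
    (hθ : ∀ h ∈ H, θ h = ∑ u : U, if (r u)⁻¹ * h * r u ∈ W then f ((r u)⁻¹ * h * r u) else 0)
    (g : G) : indFun H θ g = indFun W f g := by
  unfold indFun
  have h1 : (∑ x : G, if x⁻¹ * g * x ∈ H then θ (x⁻¹ * g * x) else 0) =
      ∑ x : G, ∑ u : U, if (x * r u)⁻¹ * g * (x * r u) ∈ W then f ((x * r u)⁻¹ * g * (x * r u))
        else 0 := by
    refine Finset.sum_congr rfl fun x _ => ?_
    have h2 : ∀ u : U, (x * r u)⁻¹ * g * (x * r u) = (r u)⁻¹ * (x⁻¹ * g * x) * r u := fun u => by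
      group
    by_cases hx : x⁻¹ * g * x ∈ H
    · rw [if_pos hx, hθ _ hx]
      exact Finset.sum_congr rfl fun u _ => by rw [h2 u]
    · rw [if_neg hx]
      symm
      refine Finset.sum_eq_zero fun u _ => ?_
      rw [if_neg]
      intro h3
      apply hx
      rw [h2 u] at h3
      have h4 := H.mul_mem (H.mul_mem (hr u) (hW h3)) (H.inv_mem (hr u))
      have h5 : r u * ((r u)⁻¹ * (x⁻¹ * g * x) * r u) * (r u)⁻¹ = x⁻¹ * g * x := by group
      rwa [h5] at h4
  rw [h1, Finset.sum_comm]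
  have h2 : ∀ u : U, (∑ x : G, if (x * r u)⁻¹ * g * (x * r u) ∈ W then
      f ((x * r u)⁻¹ * g * (x * r u)) else 0) =
      ∑ x : G, if x⁻¹ * g * x ∈ W then f (x⁻¹ * g * x) else 0 := fun u =>
    Fintype.sum_equiv (Equiv.mulRight (r u)) _ _ fun x => rfl
  rw [Finset.sum_congr rfl fun u _ => h2 u, Finset.sum_const, Finset.card_univ, nsmul_eq_mul,
    hcard, Nat.cast_mul]
  have hU : (Fintype.card U : ℂ) ≠ 0 := Nat.cast_ne_zero.2 Fintype.card_ne_zero
  rw [mul_comm (Nat.card W : ℂ), mul_div_mul_left _ _ hU]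

end IND2x

end StarkC.ABS
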