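import Pool.Agent.Stark.SOL
import Pool.Agent.Stark.BRA
import Pool.Agent.ABS.PDefsE
import Pool.Agent.ABS.SOLT3

/-!
# Project ABS (MP_46b841_nt): characters and hyperelementary subgroups (helper91)

By Solomon's theorem `χ = ∑ n_i Ind_(H_i) (χ|_(H_i))` with hyperelementary `H_i`, and `χ|_(H_i)` is a sum of
traces over `ℚ(χ)` of its irreducible constituents.
-/

set_option autoImplicit false

open scoped Classical

namespace StarkC.ABS

open StarkP (charField traceOver indOf IsHyper InB InK InH IsSub)

namespace SOLBx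

theorem int_char {G W : Type} [Group G] [Fintype G] [AddCommGroup W] [Module ℂ W]
    [Module.Finite ℂ W] (κ : Representation ℂ G W) (g : G) :
    IsIntegral ℚ (κ.character g) := by
  have h0 : κ.character g = LinearMap.trace ℂ W (κ g) := rfl
  rw [h0, Module.End.trace_eq_sum_roots_charpoly_of_splits (IsAlgClosed.splits _)]
  refine IsIntegral.multiset_sum fun z hz => ?_
  have h1 : Module.End.HasEigenvalue (κ g : Module.End ℂ W) z :=
    (Module.End.hasEigenvalue_iff_isRoot_charpoly (κ g) z).2 (Polynomial.isRoot_of_mem_roots hz)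
  obtain ⟨v, hv⟩ := h1.exists_hasEigenvector
  have h2 : ∀ k : ℕ, ((κ g) ^ k) v = z ^ k • v := fun k => hv.pow_apply k
  have h3 : (κ g) ^ (Fintype.card G) = 1 := by
    rw [← map_pow, pow_card_eq_one, map_one]
  have h4 := h2 (Fintype.card G)
  rw [h3] at h4
  have h5 : z ^ (Fintype.card G) = 1 := by
    have h6 : (z ^ (Fintype.card G) - 1) • v = 0 := by
      rw [sub_smul, one_smul, ← h4]
      exact sub_self v
    rcases smul_eq_zero.1 h6 with h7 | h7
    · exact sub_eq_zero.1 h7
    · exact absurd h7 hv.2
  refine ⟨Polynomial.X ^ (Fintype.card G) - Polynomial.C 1,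
    Polynomial.monic_X_pow_sub_C 1 Fintype.card_ne_zero, ?_⟩
  simp [h5]

theorem fin_char {G W : Type} [Group G] [Fintype G] [AddCommGroup W] [Module ℂ W]
    [Module.Finite ℂ W] (κ : Representation ℂ G W) :
    FiniteDimensional ℚ (charField κ.character) := by
  have h1 : Finite (Set.range κ.character) := (Set.finite_range κ.character).to_subtype
  refine IntermediateField.finiteDimensional_adjoin fun z hz => ?_
  obtain ⟨g, rfl⟩ := hz
  exact int_char κ g

theorem ind_eq {G : Type} [Group G] [Fintype G] (H : Subgroup G) (χ : G → ℂ) (g : G) :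
    indFun H χ g = indOf H (fun h : H => χ h) g := by
  unfold indFun indOf
  congr 1

theorem ind_sum {G : Type} [Group G] [Fintype G] (H : Subgroup G) {m : ℕ} (θ : Fin m → H → ℂ)
    (g : G) : indOf H (fun h => ∑ i, θ i h) g = ∑ i, indOf H (θ i) g := by
  unfold indOf
  rw [← Finset.sum_div, Finset.sum_comm]
  congr 1
  refine Finset.sum_congr rfl fun x _ => ?_
  by_cases hx : x⁻¹ * g * x ∈ H
  · simp only [dif_pos hx]
  · simp only [dif_neg hx, Finset.sum_const_zero]

end SOLBx

open SOLBx

/-- Every representation as in `InH` is as in `InK`. -/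
theorem inK_of_inH (G : Type) [Group G] [Fintype G] (V : Type)
    [AddCommGroup V] [Module ℂ V] [Module.Finite ℂ V] (ρ : Representation ℂ G V)
    (h : InH ρ) : InK ρ := by
  obtain ⟨m, H, n, hH, hn⟩ := SOL_thm G
  have hfin := fin_char ρ
  have hcl : ∀ x g : G, ρ.character (x⁻¹ * g * x) = ρ.character g := by
    intro x g
    have := Representation.char_conj ρ g x⁻¹
    rwa [inv_inv] at this
  have hsum : ∀ g, ρ.character g =
      ∑ i, (n i : ℂ) * indOf (H i) (fun h : H i => ρ.character h) g := by
    intro g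
    calc ρ.character g = ρ.character g * 1 := (mul_one _).symm
      _ = ρ.character g * ∑ i, (n i : ℂ) * indFun (H i) (fun _ => 1) g := by rw [← hn g]
      _ = ∑ i, (n i : ℂ) * indOf (H i) (fun h : H i => ρ.character h) g := by
        rw [Finset.mul_sum]
        refine Finset.sum_congr rfl fun i _ => ?_
        rw [← ind_eq, ← BRA.mul_indFun_one (H i) _ hcl]
        ring
  have hdec : ∀ i, ∃ (k : ℕ) (τ : Fin k → (H i → ℂ)),
      (∀ j, IsCon (ρ.comp (H i).subtype) (τ j)) ∧
      ∀ x : H i, ρ.character x = ∑ j, traceOver (charField ρ.character) (τ j) x := by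
    intro i
    exact trace_dec (H i) V (ρ.comp (H i).subtype) (charField ρ.character) hfin fun x =>
      IntermediateField.subset_adjoin ℚ _ (Set.mem_range_self (x : G))
  choose k τ hτ hτs using hdec
  choose W iA iM iF σ hσi hσs hσc using hτ
  let e := (finSigmaFinEquiv (n := k)).symm
  refine ⟨∑ i, k i, fun a => H (e a).1, fun a => W (e a).1 (e a).2, fun a => iA (e a).1 (e a).2,
    fun a => iM (e a).1 (e a).2, fun a => iF (e a).1 (e a).2, fun a => σ (e a).1 (e a).2,
    fun a => n (e a).1, fun a => ⟨hσi _ _, ?_⟩, fun g => ?_⟩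
  · exact @h (H (e a).1) (hH _) (W (e a).1 (e a).2) (iA (e a).1 (e a).2) (iM (e a).1 (e a).2)
      (iF (e a).1 (e a).2) (σ (e a).1 (e a).2) (hσi _ _) (hσs _ _)
  · rw [hsum g]
    have h1 : ∀ i, indOf (H i) (fun h : H i => ρ.character h) g =
        ∑ j, indOf (H i) (traceOver (charField ρ.character) (τ i j)) g := by
      intro i
      rw [← ind_sum]
      congr 1
      funext x
      exact hτs i x
    simp only [h1, Finset.mul_sum, hσc]
    have h2 := Fintype.sum_sigma' (fun (i : Fin m) (j : Fin (k i)) => (n i : ℂ) *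
      indOf (H i) (traceOver (charField ρ.character) (τ i j)) g)
    rw [← h2]
    exact (Equiv.sum_comp e (fun a : (i : Fin m) × Fin (k i) => (n a.1 : ℂ) *
        indOf (H a.1) (traceOver (charField ρ.character) (τ a.1 a.2)) g)).symm

end StarkC.ABS
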