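import Pool.Agent.ABS.HOT1
import Pool.Agent.ABS.IND2
import Pool.Agent.ABS.SOLB

/-!
# Project ABS (MP_46b841_nt): the character of `th D` on `H_c` is induced from `K_c D_1` (helper37)
-/

set_option autoImplicit false

open scoped Classical

namespace StarkC.ABS

namespace HOT1x

open HOF1x

section

variable {G : Type} [Group G] [Fintype G] {T : Subgroup G} {α β : T →* ℂˣ} {P : Subgroup G}
  {s : G → ℕ}

theorem card_Hc (D : HOF1x.Dat T α β P s) (c : ℕ) :
    Nat.card (Hc D c) = (Finset.univ.filter fun t : T => β t ^ c = 1).card * Nat.card P := by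
  have e : {t : T // β t ^ c = 1} × P ≃ Hc D c :=
    Equiv.ofBijective (fun p => ⟨(p.1.1 : G) * p.2.1, ⟨p.1.1, p.2.1, p.2.2, rfl, p.1.2⟩⟩) (by
      constructor
      · rintro ⟨⟨a, ha⟩, ⟨x, hx⟩⟩ ⟨⟨b, hb⟩, ⟨y, hy⟩⟩ h
        obtain ⟨rfl, rfl⟩ := uniq D hx hy (congrArg Subtype.val h)
        rfl
      · rintro ⟨_, ⟨a, x, hx, rfl, ha⟩⟩
        exact ⟨(⟨a, ha⟩, ⟨x, hx⟩), rfl⟩)
  rw [← Nat.card_congr e, Nat.card_prod, Nat.card_eq_fintype_card (α := {t : T // β t ^ c = 1}),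
    Fintype.card_subtype]

theorem card_PU (D : HOF1x.Dat T α β P s) :
    Nat.card P = Nat.card (D1 D) * Fintype.card (U D) := by
  have h1 := Subgroup.card_eq_card_quotient_mul_card_subgroup ((D1 D).subgroupOf P)
  have h2 : Nat.card ((D1 D).subgroupOf P) = Nat.card (D1 D) :=
    Nat.card_congr (Subgroup.subgroupOfEquivOfLe
      (fun x hx => ((mem_D1 D).1 hx).1 : D1 D ≤ P)).toEquiv
  rw [h1, h2, Nat.card_eq_fintype_card (α := P ⧸ (D1 D).subgroupOf P), mul_comm]

/-- The induced function. -/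
theorem ind_thc (D : HOF1x.Dat T α β P s) (c : ℕ) (g : G) :
    StarkP.indOf (Hc D c) (fun h => (th D).character (h : G)) g =
      indFun (W D c) (extZ (phi D c)) g := by
  rw [← SOLBx.ind_eq]
  have hne : Nonempty (U D) := ⟨QuotientGroup.mk 1⟩
  refine IND2x.ind_trans (U := U D) (Hc D c) (W D c) _ _ (fun u => ((u.out : P) : G)) ?_ ?_ ?_ ?_ g
  · intro u
    exact ⟨1, (u.out : P), (u.out : P).2, by rw [Subgroup.coe_one, one_mul],
      by rw [map_one, one_pow]⟩
  · rintro _ ⟨a, x, hx, rfl, ha⟩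
    exact ⟨a, x, hx.1, rfl, ha⟩
  · have h1 := card_W D c
    have h2 : Nat.card (W D c) =
        (Finset.univ.filter fun t : T => β t ^ c = 1).card * Nat.card (D1 D) := by
      exact_mod_cast h1
    rw [card_Hc D c, h2, card_PU D]
    ring
  · rintro _ ⟨a, x, hx, rfl, ha⟩
    have h1 := th_char D a ⟨x, hx⟩
    have h1' : (th D).character ((a : G) * x) =
      if x ∈ D1 D then ∑ u : U D, ((wu D u a : ℂˣ) : ℂ) else 0 := h1
    rw [h1']
    have h2 : ∀ u : U D, (if ((u.out : P) : G)⁻¹ * ((a : G) * x) * ((u.out : P) : G) ∈ W D c then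
        extZ (phi D c) (((u.out : P) : G)⁻¹ * ((a : G) * x) * ((u.out : P) : G)) else 0) =
        if x ∈ D1 D then ((wu D u a : ℂˣ) : ℂ) else 0 := by
      intro u
      obtain ⟨z, hz⟩ : ∃ z : P, z = u.out := ⟨_, rfl⟩
      rw [← hz]
      have h3 : (z : G)⁻¹ * ((a : G) * x) * z = ((kap D (z : G)⁻¹ a : T) : G) * ((z : G)⁻¹ * x * z) := by
        show _ = (z : G)⁻¹ * a * (z : G)⁻¹⁻¹ * ((z : G)⁻¹ * x * z)
        group
      have hxz : (z : G)⁻¹ * x * z ∈ P := P.mul_mem (P.mul_mem (P.inv_mem z.2) hx) z.2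
      have h4 : β (kap D (z : G)⁻¹ a) ^ c = 1 := by
        have h5 : β (kap D (z : G)⁻¹ a) = β a ^ s z :=
          D.actB z z.2 a (kap D (z : G)⁻¹ a) (by
            show (z : G)⁻¹ * a * (z : G)⁻¹⁻¹ = _
            rw [inv_inv])
        rw [h5, ← pow_mul, mul_comm, pow_mul, ha, one_pow]
      rw [h3, extZ_phi D hxz]
      by_cases h : x ∈ D1 D
      · have h5 := (D1_conj_iff D z.2).2 h
        rw [if_pos ((mem_W' D hxz).2 ⟨h5, h4⟩), if_pos ⟨h5, h4⟩, if_pos h]
        have h6 : wu D u a = wz D z a := by rw [hz]; rfl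
        rw [h6]
        rfl
      · have h5 : ¬ ((z : G)⁻¹ * x * z ∈ D1 D) := fun h5 => h ((D1_conj_iff D z.2).1 h5)
        rw [if_neg fun h6 => h5 ((mem_W' D hxz).1 h6).1, if_neg h]
    rw [Finset.sum_congr rfl fun u _ => h2 u]
    split_ifs
    · rfl
    · rw [Finset.sum_const_zero]

end

end HOT1x

end StarkC.ABS
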