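import Pool.Agent.ABS.HOT2

/-!
# Project ABS (MP_46b841_nt): the explicit formula over `ℚ(ζ_M)` and the values of `θ_c` (helper63)
-/

set_option autoImplicit false

open scoped Classical

namespace StarkC.ABS

namespace HOT1x

open HOF1x HOF2x
open StarkP (rootField charField)
open SOL3x (trF Cj Fx)

section

variable {G : Type} [Group G] [Fintype G] {T : Subgroup G} {ψ : T →* ℂˣ} {P : Subgroup G}
  {s : G → ℕ} (h : HolD T ψ P)
  (hs : ∀ x ∈ P, ∀ a b : T, (b : G) = x⁻¹ * a * x → ψ b = ψ a ^ s x)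
  {α β : T →* ℂˣ} (D : HOF1x.Dat T α β P s)

/-- The combination of the `Ind_(K_c D_1) φ_c`. -/
noncomputable def cmb (n : ℕ) (g : G) : ℂ :=
  ∑ c ∈ n.divisors, ((ArithmeticFunction.moebius c : ℤ) : ℂ) *
    indFun (W D c) (extZ (phi D c)) g

include h hs

theorem sum_J' (M n : ℕ) (hMn : M.Coprime n) (hN : orderOf ψ = M * n) (h0 : 0 < M * n)
    (hα : orderOf α = M) (hβ : orderOf β = n) (hab : ∀ t, ψ t = α t * β t) (g : G) :
    ((Finset.univ.filter fun x : P => s x ≡ 1 [MOD M]).card : ℂ) * cmb D n g =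
      ∑ t ∈ J M n, f ψ t g := by
  have hn : 0 < n := Nat.pos_of_mul_pos_left h0
  unfold cmb
  have hcard : ((Finset.univ.filter fun x : P => s x ≡ 1 [MOD M]).card : ℂ) =
      (Nat.card (D1 D) : ℂ) := by
    rw [Nat.card_eq_fintype_card, Fintype.card_subtype]
    congr 1
    refine Finset.card_bij (fun x _ => (x : G)) ?_ ?_ ?_
    · intro x hx
      refine Finset.mem_filter.2 ⟨Finset.mem_univ _, x.2, fun a b hb => ?_⟩
      have h1 := (Finset.mem_filter.1 hx).2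
      rw [← hα] at h1
      rw [D.actA x x.2 a b hb, (ord_mod α _ _).1 h1 a, pow_one]
    · intro x _ y _ hxy
      exact Subtype.ext hxy
    · intro x hx
      obtain ⟨hx1, hx2⟩ := (Finset.mem_filter.1 hx).2
      refine ⟨⟨x, hx1⟩, Finset.mem_filter.2 ⟨Finset.mem_univ _, ?_⟩, rfl⟩
      rw [← hα, ord_mod]
      intro a
      rw [← D.actA x hx1 a ⟨x⁻¹ * a * x, D.norm x a a.2⟩ rfl, hx2 a _ rfl, pow_one]
  rw [hcard]
  obtain ⟨a, ha, x, hx, rfl⟩ := h.gen g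
  have h1 := formula D n hn hβ ⟨a, ha⟩ hx
  have h2 : ((⟨a, ha⟩ : T) : G) = a := rfl
  rw [h2] at h1
  rw [h1]
  have h3 : ∀ t ∈ J M n, f ψ t (a * x) =
      if x = 1 then ∑ z : P, ((ψ ⟨a, ha⟩ : ℂˣ) : ℂ) ^ (t * s z) else 0 :=
    fun t _ => f_val h hs t ⟨a, ha⟩ hx
  rw [Finset.sum_congr rfl h3]
  by_cases hx1 : x = 1
  · rw [if_pos hx1]
    simp only [if_pos hx1]
    rw [Finset.sum_comm, Finset.sum_mul]
    refine Finset.sum_congr rfl fun z _ => ?_
    have h4 : ∀ t ∈ J M n, ((ψ ⟨a, ha⟩ : ℂˣ) : ℂ) ^ (t * s z) =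
        ((α ⟨a, ha⟩ : ℂˣ) : ℂ) ^ s z * ((β ⟨a, ha⟩ : ℂˣ) : ℂ) ^ (t * s z) := by
      intro t ht
      rw [hab ⟨a, ha⟩, Units.val_mul, mul_pow]
      congr 1
      rw [← Units.val_pow_eq_pow_val, ← Units.val_pow_eq_pow_val]
      congr 1
      refine (ord_mod α _ _).1 ?_ _
      rw [hα]
      have h5 := Nat.ModEq.mul_right (s z) (mem_J.1 ht).2.2
      rw [one_mul] at h5
      exact h5
    rw [Finset.sum_congr rfl h4, ← Finset.mul_sum]
    congr 1
    refine (reindex M n h0 hMn (s z) ?_ (fun k => ((β ⟨a, ha⟩ : ℂˣ) : ℂ) ^ k) fun k => ?_).symm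
    · have h5 := s_cop h hs z.2
      rw [hN] at h5
      exact Nat.Coprime.coprime_mul_left h5
    · show ((β ⟨a, ha⟩ : ℂˣ) : ℂ) ^ (k % n) = ((β ⟨a, ha⟩ : ℂˣ) : ℂ) ^ k
      rw [← Units.val_pow_eq_pow_val, ← Units.val_pow_eq_pow_val]
      congr 1
      refine (ord_mod β _ _).1 ?_ _
      rw [hβ]
      exact Nat.mod_modEq k n
  · rw [if_neg hx1]
    simp only [if_neg hx1, Finset.sum_const_zero]

/-- The trace over `ℚ(ζ_M)`, explicitly. -/
theorem trF_root' (M n : ℕ) (hMn : M.Coprime n) (hN : orderOf ψ = M * n)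
    (hα : orderOf α = M) (hβ : orderOf β = n) (hab : ∀ t, ψ t = α t * β t) :
    trF (rootField M) (indFun T (extZ ψ)) = cmb D n := by
  have h0 : 0 < M * n := by
    rw [← hN]
    exact s_pos
  have hM : 0 < M := Nat.pos_of_mul_pos_right h0
  have hsum := sum_J' h hs D M n hMn hN h0 hα hβ hab
  have hO : ∀ p, p ∈ (J M n).image (f (G := G) ψ) ↔
      p ∈ Cj (rootField M) (indFun T (extZ ψ)) := by
    intro p
    rw [Finset.mem_image]
    constructor
    · rintro ⟨t, ht, rfl⟩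
      obtain ⟨h1, h2, h3⟩ := mem_J.1 ht
      obtain ⟨σ, hσ⟩ := SIGT_thm (M * n) t h0 h2
      refine ⟨σ, fix_root (Dvd.intro n rfl) σ hσ h3, ?_⟩
      rw [← f_one, gcj_f σ t (by rw [hN]; exact hσ), one_mul]
    · rintro ⟨σ, hfix, rfl⟩
      obtain ⟨u, hu, hact⟩ := VINx.act σ (M * n) h0
      have h1 : u ≡ 1 [MOD M] := exp_one hM (Dvd.intro n rfl) σ hact hfix
      have h2 := ZTRx.mod_mem h0 hu
      unfold Ex at h2
      rw [Finset.mem_filter, Finset.mem_range] at h2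
      refine ⟨u % (M * n), mem_J.2 ⟨h2.1, h2.2, ?_⟩, ?_⟩
      · exact ((Nat.mod_modEq u (M * n)).of_mul_right n).trans h1
      · rw [← f_one, gcj_f σ u (by rw [hN]; exact hact), one_mul, ← hN, f_mod]
  have hfd : FiniteDimensional ℚ (rootField M) := ZENx.fin_of hM _ le_rfl
  funext x
  have h1 := SOL3x.trF_eq (rootField M) hfd (indFun T (extZ ψ))
    (fun g => by rw [← f_one]; exact f_int h 1 g) _ hO x
  rw [h1]
  have h2 := hsum x
  have h3 := Finset.sum_comp (fun p : G → ℂ => p x) (f (G := G) ψ) (s := J M n)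
  rw [h3] at h2
  have hc : ((Finset.univ.filter fun x : P => s x ≡ 1 [MOD M]).card : ℂ) ≠ 0 := by
    have h4 : 0 < (Finset.univ.filter fun x : P => s x ≡ 1 [MOD M]).card := by
      refine Finset.card_pos.2 ⟨1, Finset.mem_filter.2 ⟨Finset.mem_univ _, ?_⟩⟩
      have h5 := s_one hs
      rw [hN] at h5
      exact h5.of_mul_right n
    exact_mod_cast h4.ne'
  refine mul_left_cancel₀ hc ?_
  rw [h2, Finset.mul_sum]
  refine Finset.sum_congr rfl fun p hp => ?_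
  obtain ⟨t, ht, rfl⟩ := Finset.mem_image.1 hp
  rw [fiber h hs M n hN h0 ht, nsmul_eq_mul]

/-- The values of the character of `th D`. -/
theorem th_val (M n : ℕ) (hN : orderOf ψ = M * n) (hα : orderOf α = M) (g : G) :
    (th D).character g ∈ rootField M ⊓ charField (indFun T (extZ ψ)) := by
  obtain ⟨a, ha, x, hx, rfl⟩ := D.gen g
  have hc := th_char D ⟨a, ha⟩ ⟨x, hx⟩
  have hc' : (th D).character (a * x) =
      if x ∈ D1 D then ∑ u : U D, ((wu D u ⟨a, ha⟩ : ℂˣ) : ℂ) else 0 := hc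
  rw [hc']
  split_ifs with hxD
  swap
  · exact zero_mem _
  have hpow : ∀ u : U D, (wu D u ⟨a, ha⟩) ^ M = 1 := by
    intro u
    rw [← hα]
    exact (ord_dvd α _).1 dvd_rfl _
  refine ⟨sum_mem fun u _ => IntermediateField.subset_adjoin ℚ _ ?_, ?_⟩
  · show ((wu D u ⟨a, ha⟩ : ℂˣ) : ℂ) ^ M = 1
    rw [← Units.val_pow_eq_pow_val, hpow, Units.val_one]
  have key : ∑ u : U D, ((wu D u ⟨a, ha⟩ : ℂˣ) : ℂ) ∈
      (charField (indFun T (extZ ψ))).toSubfield := by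
    refine FIXCx.core _ _ fun σ hσ => ?_
    have hN0 : 0 < orderOf ψ := s_pos
    obtain ⟨t, ht, hact⟩ := VINx.act σ (orderOf ψ) hN0
    have h1 : gcj σ (f (G := G) ψ 1) = f ψ 1 := by
      funext g
      refine hσ _ ?_
      rw [f_one]
      exact IntermediateField.subset_adjoin ℚ _ (Set.mem_range_self g)
    rw [gcj_f σ t hact, one_mul] at h1
    obtain ⟨y, hy, hty⟩ := f_eq h hs h1
    rw [one_mul, hN] at hty
    have hty' : t ≡ s y [MOD M] := hty.of_mul_right n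
    have h2 : ∀ u : U D, σ ((wu D u ⟨a, ha⟩ : ℂˣ) : ℂ) =
        ((wu D ((⟨y, hy⟩ : P) • u) ⟨a, ha⟩ : ℂˣ) : ℂ) := by
      intro u
      have h3 : ((wu D u ⟨a, ha⟩ : ℂˣ) : ℂ) ^ orderOf ψ = 1 := by
        rw [← Units.val_pow_eq_pow_val, hN, pow_mul, hpow, one_pow, Units.val_one]
      have h4 : wu D u (kap D y⁻¹ ⟨a, ha⟩) = wu D u ⟨a, ha⟩ ^ s y :=
        wu_pow D u (wz_s D hy ⟨a, ha⟩)
      have h5 := wu_kap D u (⟨y, hy⟩⁻¹ : P) ⟨a, ha⟩
      rw [inv_inv] at h5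
      have h6 : wu D u (kap D y⁻¹ ⟨a, ha⟩) = wu D ((⟨y, hy⟩ : P) • u) ⟨a, ha⟩ := h5
      rw [hact _ h3, ← h6, h4, ← Units.val_pow_eq_pow_val]
      congr 1
      refine pow_eq_pow_iff_modEq.2 (hty'.of_dvd ?_)
      exact orderOf_dvd_of_pow_eq_one (hpow u)
    rw [map_sum, Finset.sum_congr rfl fun u _ => h2 u]
    exact Equiv.sum_comp (MulAction.toPerm (⟨y, hy⟩ : P))
      fun u : U D => ((wu D u ⟨a, ha⟩ : ℂˣ) : ℂ)
  exact key

end

end HOT1x

end StarkC.ABS
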