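import Pool.Agent.ABS.PDefsE

/-!
# Project ABS: groups without symplectic characters of `2`-subgroups (helper37)
-/

set_option autoImplicit false

namespace StarkC.ABS

open StarkP

/-- No irreducible representation of a `2`-subgroup of `G` leaves a nondegenerate alternating form
invariant. -/
def NoSymp (G : Type) [Group G] : Prop :=
  ∀ P : Subgroup G, IsPGroup 2 P → ∀ (W : Type) [AddCommGroup W] [Module ℂ W] [Module.Finite ℂ W]
    (τ : Representation ℂ P W), τ.IsIrreducible →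
    ¬ ∃ B : W →ₗ[ℂ] W →ₗ[ℂ] ℂ, (∀ v, B v v = 0) ∧ (∀ v, (∀ w, B v w = 0) → v = 0) ∧
      ∀ (g : P) (v w : W), B (τ g v) (τ g w) = B v w

/-- Every element of `G` has prime power order. -/
def PPO (G : Type) [Group G] : Prop := ∀ g : G, ∃ p n : ℕ, p.Prime ∧ g ^ p ^ n = 1

namespace NSYx

variable {G : Type} [Group G]

theorem nilNS [Finite G] (h : NoSymp G) (P : Subgroup G) (hP : IsPGroup 2 P) {W : Type}
    [AddCommGroup W] [Module ℂ W] [Module.Finite ℂ W] (τ : Representation ℂ P W)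
    (hτ : τ.IsIrreducible) : NilNS τ := by
  have : Group.IsNilpotent P := hP.isNilpotent
  refine ⟨inferInstance, ?_⟩
  rintro ⟨B, h1, h2, h3⟩
  refine h P hP W τ hτ ⟨B, h1, h2, fun g v w => h3 g ?_ v w⟩
  obtain ⟨j, hj⟩ := hP g
  exact ⟨j, by rw [hj, map_one]⟩

/-- subrepresentations of `τ` and of `τ ∘ e`, `e` surjective -/
def subIso {H K W : Type} [Group H] [Group K] [AddCommGroup W] [Module ℂ W]
    (τ : Representation ℂ K W) (e : H →* K) (he : Function.Surjective e) :
    Subrepresentation (τ.comp e) ≃o Subrepresentation τ where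
  toFun S := ⟨S.toSubmodule, fun g v hv => by
    obtain ⟨x, rfl⟩ := he g
    exact S.apply_mem_toSubmodule x hv⟩
  invFun S := ⟨S.toSubmodule, fun g _ hv => S.apply_mem_toSubmodule (e g) hv⟩
  left_inv _ := rfl
  right_inv _ := rfl
  map_rel_iff' := Iff.rfl

theorem irr_comp {H K W : Type} [Group H] [Group K] [AddCommGroup W] [Module ℂ W]
    (τ : Representation ℂ K W) (e : H →* K) (he : Function.Surjective e)
    (hτ : τ.IsIrreducible) : Representation.IsIrreducible (τ.comp e) :=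
  (OrderIso.isSimpleOrder_iff (subIso τ e he)).2 hτ

theorem subgroup (h : NoSymp G) (H : Subgroup G) : NoSymp H := by
  intro P hP W _ _ _ τ hτ
  rintro ⟨B, h1, h2, h3⟩
  let e : P.map H.subtype ≃* P := (P.equivMapOfInjective H.subtype H.subtype_injective).symm
  exact h (P.map H.subtype) (hP.map _) W (τ.comp e.toMonoidHom)
    (irr_comp τ e.toMonoidHom e.surjective hτ) ⟨B, h1, h2, fun g => h3 (e g)⟩

theorem PPO.subgroup (h : PPO G) (H : Subgroup G) : PPO H := fun g => by
  obtain ⟨p, n, hp, h1⟩ := h g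
  exact ⟨p, n, hp, Subtype.ext h1⟩

/-- a one-dimensional space has no nondegenerate alternating form -/
theorem no_form {W : Type} [AddCommGroup W] [Module ℂ W] (h : Module.finrank ℂ W = 1)
    (B : W →ₗ[ℂ] W →ₗ[ℂ] ℂ) (h1 : ∀ v, B v v = 0) : ¬ ∀ v, (∀ w, B v w = 0) → v = 0 := by
  intro h2
  obtain ⟨v, hv, hs⟩ := finrank_eq_one_iff'.1 h
  refine hv (h2 v fun w => ?_)
  obtain ⟨c, rfl⟩ := hs w
  rw [map_smul, h1, smul_zero]

/-- abelian `2`-subgroups -/
theorem noSymp_of_comm (h : ∀ P : Subgroup G, IsPGroup 2 P → ∀ x ∈ P, ∀ y ∈ P, x * y = y * x) :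
    NoSymp G := by
  intro P hP W _ _ _ τ hτ
  rintro ⟨B, h1, h2, -⟩
  have hc : IsMulCommutative P := ⟨⟨fun x y => Subtype.ext (h P hP x x.2 y y.2)⟩⟩
  exact no_form (Representation.IsIrreducible.finrank_eq_one_of_isMulCommutative τ) B h1 h2

theorem ppo_A5 : PPO (alternatingGroup (Fin 5)) := by
  have h : ∀ g : alternatingGroup (Fin 5), g ^ 2 = 1 ∨ g ^ 3 = 1 ∨ g ^ 5 = 1 := by
    decide +kernel
  intro g
  rcases h g with h | h | h
  · exact ⟨2, 1, Nat.prime_two, by rwa [pow_one]⟩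
  · exact ⟨3, 1, Nat.prime_three, by rwa [pow_one]⟩
  · exact ⟨5, 1, Nat.prime_five, by rwa [pow_one]⟩

theorem noSymp_A5 : NoSymp (alternatingGroup (Fin 5)) := by
  refine noSymp_of_comm fun P hP x hx y hy => ?_
  have h2 : ∀ z ∈ P, z ^ 2 = 1 := by
    have h : ∀ g : alternatingGroup (Fin 5), g ^ 2 = 1 ∨ g ^ 3 = 1 ∨ g ^ 5 = 1 := by
      decide +kernel
    intro z hz
    obtain ⟨j, hj⟩ := hP ⟨z, hz⟩
    have hj' : z ^ 2 ^ j = 1 := congrArg Subtype.val hj
    have h4 : ∀ q : ℕ, q.Coprime 2 → z ^ q = 1 → z ^ 2 = 1 := by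
      intro q hq h5
      have h6 : z ^ Nat.gcd (2 ^ j) q = 1 := by
        rw [← orderOf_dvd_iff_pow_eq_one] at *
        exact Nat.dvd_gcd hj' h5
      rw [Nat.Coprime.gcd_eq_one (Nat.Coprime.pow_left _ hq.symm), pow_one] at h6
      rw [h6, one_pow]
    rcases h z with h | h | h
    · exact h
    · exact h4 3 (by norm_num) h
    · exact h4 5 (by norm_num) h
  have h1 := h2 (x * y) (mul_mem hx hy)
  have h3 := h2 x hx
  have h4 := h2 y hy
  rw [pow_two] at h1 h3 h4
  calc x * y = x * (x * y * (x * y)) * y := by rw [h1, mul_one]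
    _ = (x * x) * (y * x) * (y * y) := by group
    _ = y * x := by rw [h3, h4, one_mul, mul_one]

end NSYx

end StarkC.ABS
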