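import Pool.Agent.ABS.OPK
import Pool.Agent.ABS.NSY
import Pool.Agent.ABS.VBR
import Pool.Agent.ABS.GTR

/-!
# Project ABS: the class `InK` and inflation (helper6)
-/

set_option autoImplicit false

open scoped Classical

namespace StarkC.ABS

open StarkP (charField trChar rootField NilNS ProjIm InB InK InH MonComb traceOver indOf IsSub)

namespace OPIx

section

variable {G Q : Type} [Group G] [Group Q] (e : G →* Q) (he : Function.Surjective e)
  {V : Type} [AddCommGroup V] [Module ℂ V] (ρ : Representation ℂ Q V)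

/-- `ρ ∘ e`. -/
abbrev inf : Representation ℂ G V := MonoidHom.comp ρ e

theorem inf_apply (g : G) : inf e ρ g = ρ (e g) := rfl

theorem inf_char : (inf e ρ).character = fun g => ρ.character (e g) := rfl

include he

theorem inf_range : Set.range (inf e ρ).character = Set.range ρ.character := by
  have h : (inf e ρ).character = ρ.character ∘ e := rfl
  rw [h, he.range_comp]

theorem inf_charField : charField (inf e ρ).character = charField ρ.character := by
  show IntermediateField.adjoin ℚ (Set.range (inf e ρ).character) = _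
  rw [inf_range e he]
  rfl

theorem inf_traceOver (F : IntermediateField ℚ ℂ) :
    traceOver F (inf e ρ).character = fun g => traceOver F ρ.character (e g) := by
  funext g
  unfold traceOver
  congr 1
  exact OPKx.trace_congr F (inf_range e he ρ) _ _ _

omit he in
theorem tr_congr {s s' : Set ℂ} (h : s = s') (z : ℂ)
    (hz : z ∈ IntermediateField.adjoin ℚ s) (hz' : z ∈ IntermediateField.adjoin ℚ s') :
    Algebra.trace ℚ (IntermediateField.adjoin ℚ s) ⟨z, hz⟩ =
      Algebra.trace ℚ (IntermediateField.adjoin ℚ s') ⟨z, hz'⟩ := by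
  subst h
  rfl

theorem inf_trChar : trChar (inf e ρ).character = fun g => trChar ρ.character (e g) := by
  funext g
  unfold trChar
  congr 1
  exact tr_congr (inf_range e he ρ) _ _ _

/-- The isomorphism of the images. -/
theorem inf_quot : Nonempty (G ⧸ MonoidHom.ker (inf e ρ) ≃* Q ⧸ MonoidHom.ker ρ) := by
  let f : G →* Q ⧸ MonoidHom.ker ρ := (QuotientGroup.mk' (MonoidHom.ker ρ)).comp e
  have hf : Function.Surjective f := (QuotientGroup.mk'_surjective _).comp he
  have hk : MonoidHom.ker f = MonoidHom.ker (inf e ρ) := by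
    ext g
    rw [MonoidHom.mem_ker, MonoidHom.mem_ker]
    show ((e g : Q) : Q ⧸ MonoidHom.ker ρ) = 1 ↔ ρ (e g) = 1
    rw [QuotientGroup.eq_one_iff, MonoidHom.mem_ker]
  exact ⟨(QuotientGroup.quotientMulEquivOfEq hk.symm).trans
    (QuotientGroup.quotientKerEquivOfSurjective f hf)⟩

theorem inf_nilNS (h : NilNS ρ) : NilNS (inf e ρ) := by
  obtain ⟨h1, h2⟩ := h
  obtain ⟨q⟩ := inf_quot e he ρ
  refine ⟨?_, ?_⟩
  · have h3 : Group.IsNilpotent (Q ⧸ MonoidHom.ker ρ) := h1
    exact Group.nilpotent_of_mulEquiv q.symm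
  · rintro ⟨B, hB1, hB2, hB3⟩
    refine h2 ⟨B, hB1, hB2, fun g hg v w => ?_⟩
    obtain ⟨j, hj⟩ := hg
    obtain ⟨x, rfl⟩ := he g
    exact hB3 x ⟨j, by rw [inf_apply, map_pow]; exact hj⟩ v w

theorem inf_projIm (h : ProjIm ρ) : ProjIm (inf e ρ) := by
  obtain ⟨k, i1, i2, h1⟩ := h
  obtain ⟨q⟩ := inf_quot e he ρ
  refine ⟨k, i1, i2, ?_⟩
  rcases h1 with ⟨h1, ⟨h2⟩⟩ | h2
  · exact Or.inl ⟨h1, ⟨q.trans h2⟩⟩
  · obtain ⟨h3⟩ := h2
    exact Or.inr ⟨q.trans h3⟩

omit he in
theorem inf_monComb [Fintype G] [Fintype Q] (he : Function.Surjective e) (n : ℕ) (θ : Q → ℂ)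
    (h : MonComb n θ) : MonComb n (fun g => θ (e g)) :=
  (GTRx.mon_iff n _).2 (VBRx.monC_infl e he n θ ((GTRx.mon_iff n θ).1 h))

theorem inf_inB [Fintype G] [Fintype Q] (F : IntermediateField ℚ ℂ) (h : InB F ρ) :
    InB F (inf e ρ) := by
  have hcf : F ⊓ charField ρ.character = F ⊓ charField (inf e ρ).character := by
    rw [inf_charField e he ρ]
  have key : ∀ E E' : IntermediateField ℚ ℂ, E = E' → IsCyclic (E ≃ₐ[ℚ] E) →
      IsCyclic (E' ≃ₐ[ℚ] E') := by
    rintro E _ rfl h
    exact h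
  rcases h with ⟨h1, ℓ, j, hℓ, h2⟩ | ⟨h1, h2⟩ | ⟨n, h1, h2, h3, h4⟩
  · refine Or.inl ⟨?_, ℓ, j, hℓ, by rw [← hcf]; exact h2⟩
    rcases h1 with h1 | h1
    · exact Or.inl (inf_nilNS e he ρ h1)
    · exact Or.inr (inf_projIm e he ρ h1)
  · exact Or.inr (Or.inl ⟨inf_nilNS e he ρ h1, key _ _ hcf h2⟩)
  · refine Or.inr (Or.inr ⟨n, h1, h2, ?_, ?_⟩)
    · rw [inf_traceOver e he]
      exact inf_monComb e he n _ h3
    · rw [inf_trChar e he]
      exact inf_monComb e he 1 _ h4

end

theorem ex0_infl {G Q : Type} [Group G] [Group Q] (e : G →* Q) (H : Subgroup Q) (θ : H → ℂ)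
    (g : G) (hg : g ∈ H.comap e) :
    COMx.ex0 (fun h : H.comap e => θ ((e.subgroupComap H) h)) g = COMx.ex0 θ (e g) := by
  have h1 : e g ∈ H := hg
  unfold COMx.ex0
  rw [dif_pos hg, dif_pos h1]
  rfl

theorem indOf_infl {G Q : Type} [Group G] [Fintype G] [Group Q] [Fintype Q] (e : G →* Q)
    (he : Function.Surjective e) (H : Subgroup Q) (θ : H → ℂ) (g : G) :
    indOf (H.comap e) (fun h => θ ((e.subgroupComap H) h)) g = indOf H θ (e g) := by
  rw [COMx.indOf_eq, COMx.indOf_eq, CMB.indFun_infl e he]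
  exact congrFun (CMB.indFun_congr (H.comap e) fun x hx => ex0_infl e H θ x hx) g

/-- Inflation. -/
theorem inK_infl {G Q : Type} [Group G] [Fintype G] [Group Q] [Fintype Q] (e : G →* Q)
    (he : Function.Surjective e) {V : Type} [AddCommGroup V] [Module ℂ V]
    (ρ : Representation ℂ Q V) (h : InK ρ) : InK (inf e ρ) := by
  obtain ⟨m, H, W, i1, i2, i3, τ, c, hτ, hsum⟩ := h
  have hs : ∀ i, Function.Surjective (e.subgroupComap (H i)) := by
    intro i y
    obtain ⟨x, hx⟩ := he y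
    have hx' : x ∈ (H i).comap e := by
      rw [Subgroup.mem_comap, hx]
      exact y.2
    exact ⟨⟨x, hx'⟩, Subtype.ext hx⟩
  refine ⟨m, fun i => (H i).comap e, W, i1, i2, i3, fun i => inf (e.subgroupComap (H i)) (τ i), c,
    fun i => ⟨NSYx.irr_comp (τ i) _ (hs i) (hτ i).1, ?_⟩, fun g => ?_⟩
  · rw [inf_charField e he ρ]
    exact inf_inB _ (hs i) (τ i) _ (hτ i).2
  · show ρ.character (e g) = _
    rw [hsum (e g), inf_charField e he ρ]
    refine Finset.sum_congr rfl fun i _ => ?_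
    rw [← indOf_infl e he, inf_traceOver _ (hs i)]

/-- Representations are inflated from their images. -/
theorem inK_of_quot {G V : Type} [Group G] [Fintype G] [AddCommGroup V] [Module ℂ V]
    (ρ : Representation ℂ G V)
    (h : ∀ ρ' : Representation ℂ (G ⧸ MonoidHom.ker ρ) V, (∀ g : G, ρ' g = ρ g) → InK ρ') :
    InK ρ := by
  let ρ' : Representation ℂ (G ⧸ MonoidHom.ker ρ) V :=
    QuotientGroup.lift (MonoidHom.ker ρ) ρ fun _ hg => hg
  have h1 := inK_infl (QuotientGroup.mk' (MonoidHom.ker ρ)) (QuotientGroup.mk'_surjective _) ρ'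
    (h ρ' fun g => rfl)
  exact h1

end OPIx

end StarkC.ABS
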