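import Pool.Agent.ABS.HOL
import Pool.Agent.ABS.FIXC
import Pool.Agent.ABS.COM
import Pool.Agent.ABS.FINZI
import Pool.Agent.ABS.SOLB

/-!
# Project ABS (MP_46b841_nt): the trace of an irreducible character over a field (helper37)
-/

set_option autoImplicit false

open NumberField IsDedekindDomain
open scoped Classical

namespace StarkC.ABS

open StarkP (rootField charField trChar traceOver NormIn)

namespace TRTx

open SOL3x

/-- Transitivity of the trace. -/
theorem tr_trans {X : Type} (E : IntermediateField ℚ ℂ) (hE : FiniteDimensional ℚ E) (f : X → ℂ)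
    (hle : E ≤ IntermediateField.adjoin ℚ (Set.range f))
    (hfin : FiniteDimensional ℚ (IntermediateField.adjoin ℚ (Set.range f))) (x : X) :
    INIx.tF E (trF E f x) = INIx.tF (IntermediateField.adjoin ℚ (Set.range f)) (f x) := by
  have hmem : f x ∈ IntermediateField.adjoin ℚ (Set.range f) :=
    IntermediateField.subset_adjoin ℚ _ (Set.mem_range_self x)
  have hE' : trF E f x ∈ E := SetLike.coe_mem _
  rw [INIx.tF, dif_pos hE', INIx.tF, dif_pos hmem]
  have hsup : IntermediateField.adjoin ℚ (Set.range f) =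
      (IntermediateField.adjoin E (Set.range f)).restrictScalars ℚ := by
    refine le_antisymm
      (IntermediateField.adjoin_le_iff.2 (IntermediateField.subset_adjoin E (Set.range f))) ?_
    have h1 : IntermediateField.adjoin E (Set.range f) ≤ IntermediateField.extendScalars hle :=
      IntermediateField.adjoin_le_iff.2 fun z hz => IntermediateField.subset_adjoin ℚ _ hz
    exact fun z hz => h1 hz
  have hfin' : FiniteDimensional ℚ
      ((IntermediateField.adjoin E (Set.range f)).restrictScalars ℚ) := hsup ▸ hfin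
  have hfin'' : FiniteDimensional ℚ (IntermediateField.adjoin E (Set.range f)) := hfin'
  have hM : Module.Finite E (IntermediateField.adjoin E (Set.range f)) :=
    Module.Finite.of_restrictScalars_finite ℚ _ _
  have h4 : Algebra.trace ℚ E (Algebra.trace E (IntermediateField.adjoin E (Set.range f))
      ⟨f x, IntermediateField.subset_adjoin E _ (Set.mem_range_self x)⟩) =
      Algebra.trace ℚ (IntermediateField.adjoin E (Set.range f))
        ⟨f x, IntermediateField.subset_adjoin E _ (Set.mem_range_self x)⟩ :=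
    Algebra.trace_trace (S := E) _
  have h5 := Algebra.trace_eq_of_algEquiv (IntermediateField.equivOfEq hsup) ⟨f x, hmem⟩
  have h6 : Algebra.trace ℚ (IntermediateField.adjoin E (Set.range f))
      ⟨f x, IntermediateField.subset_adjoin E _ (Set.mem_range_self x)⟩ =
      Algebra.trace ℚ (IntermediateField.adjoin ℚ (Set.range f)) ⟨f x, hmem⟩ := h5
  rw [← h6, ← h4]
  rfl

theorem agree {X : Type} (χ : X → ℂ) (σ τ : ℂ ≃+* ℂ) (h : gcj σ χ = gcj τ χ) {y : ℂ}
    (hy : y ∈ charField χ) : σ y = τ y := by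
  refine IntermediateField.adjoin_induction ℚ (s := Set.range χ)
    (p := fun y _ => σ y = τ y) ?_ ?_ ?_ ?_ ?_ hy
  · rintro _ ⟨x, rfl⟩
    exact congrFun h x
  · intro q
    rw [eq_ratCast, map_ratCast, map_ratCast]
  · intro a b _ _ ha hb
    rw [map_add, map_add, ha, hb]
  · intro a _ ha
    rw [map_inv₀, map_inv₀, ha]
  · intro a b _ _ ha hb
    rw [map_mul, map_mul, ha, hb]

variable {G : Type} [Group G] [Fintype G]

theorem exists_O (F : IntermediateField ℚ ℂ) (χ : G → ℂ) (hχ : IrrCh χ) :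
    ∃ O : Finset (G → ℂ), ∀ p, p ∈ O ↔ p ∈ Cj F χ := by
  refine ⟨(ZFS_thm G).toFinset.filter fun p => p ∈ Cj F χ, fun p => ?_⟩
  rw [Finset.mem_filter]
  refine ⟨fun h => h.2, fun h => ⟨?_, h⟩⟩
  obtain ⟨σ, _, rfl⟩ := h
  rw [Set.Finite.mem_toFinset]
  exact RLCx.irr_gcj χ hχ σ

/-- An automorphism which fixes the trace over `F` of an irreducible character `χ` acts on `χ` as an
automorphism over `F`. -/
theorem fix_conj (F : IntermediateField ℚ ℂ) (hF : FiniteDimensional ℚ F) (χ : G → ℂ)
    (hχ : IrrCh χ) (hint : ∀ g, IsIntegral ℚ (χ g)) (σ : ℂ ≃+* ℂ)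
    (hσ : gcj σ (trF F χ) = trF F χ) : gcj σ χ ∈ Cj F χ := by
  obtain ⟨O, hO⟩ := exists_O F χ hχ
  have hirr : ∀ p ∈ O, IrrCh p := by
    intro p hp
    obtain ⟨τ, _, rfl⟩ := (hO p).1 hp
    exact RLCx.irr_gcj χ hχ τ
  by_contra hn
  have hq := RLCx.irr_gcj χ hχ σ
  have hG : (Fintype.card G : ℂ) ≠ 0 := Nat.cast_ne_zero.2 Fintype.card_ne_zero
  have hs : ∀ g, ∑ p ∈ O, gcj σ p g = ∑ p ∈ O, p g := by
    intro g
    rw [← trF_eq F hF χ hint O hO g]
    have h1 := congrFun hσ g
    have h2 : gcj σ (trF F χ) g = σ (trF F χ g) := rfl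
    rw [← h1, h2, trF_eq F hF χ hint O hO g, map_sum]
    rfl
  have h1 : ∑ p ∈ O, ip p (gcj σ χ) = 0 := by
    refine Finset.sum_eq_zero fun p hp => ?_
    rw [ZDCx.ip_irr (hirr p hp) hq, if_neg]
    rintro rfl
    exact hn ((hO _).1 hp)
  have h2 : ∑ p ∈ O, ip (gcj σ p) (gcj σ χ) = (Fintype.card G : ℂ) := by
    rw [Finset.sum_eq_single χ]
    · rw [ZDCx.ip_irr hq hq, if_pos rfl]
    · intro p hp hne
      rw [ZDCx.ip_irr (RLCx.irr_gcj p (hirr p hp) σ) hq, if_neg]
      intro h
      apply hne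
      funext g
      exact σ.injective (congrFun h g)
    · exact fun h => absurd ((hO χ).2 (Cj_self F χ)) h
  have h3 : ∑ p ∈ O, ip (gcj σ p) (gcj σ χ) = ∑ p ∈ O, ip p (gcj σ χ) := by
    unfold ip
    rw [Finset.sum_comm, Finset.sum_comm (s := O)]
    refine Finset.sum_congr rfl fun g _ => ?_
    rw [← Finset.sum_mul, ← Finset.sum_mul, hs g]
  rw [h1, h2] at h3
  exact hG h3

variable {V : Type} [AddCommGroup V] [Module ℂ V] [Module.Finite ℂ V]
  (ρ : Representation ℂ G V)

theorem gal_char : IsGalois ℚ (charField ρ.character) :=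
  galois_of_le (Fintype.card G) Fintype.card_pos _
    (charField_le ρ (Fintype.card G) Fintype.card_pos fun g => by
      rw [← map_pow, pow_card_eq_one, map_one])

/-- The field of the trace over `F` of an irreducible character. -/
theorem charField_trF (hirr : ρ.IsIrreducible) (F : IntermediateField ℚ ℂ)
    [FiniteDimensional ℚ F] :
    charField (trF F ρ.character) = F ⊓ charField ρ.character := by
  have hint : ∀ g, IsIntegral ℚ (ρ.character g) := fun g => ZTNx.int_char ρ g
  refine le_antisymm (IntermediateField.adjoin_le_iff.2 ?_) fun x hx => ?_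
  · rintro _ ⟨g, rfl⟩
    rw [HOLx.trF_inf F ρ.character hint (gal_char ρ) g]
    exact SetLike.coe_mem _
  · have h1 : x ∈ (charField (trF F ρ.character)).toSubfield := by
      refine FIXCx.core _ x fun σ hσ => ?_
      have h2 : gcj σ (trF F ρ.character) = trF F ρ.character := funext fun g =>
        hσ _ (IntermediateField.subset_adjoin ℚ _ (Set.mem_range_self g))
      obtain ⟨τ, hτ, h3⟩ := fix_conj F inferInstance ρ.character
        ⟨V, inferInstance, inferInstance, inferInstance, ρ, hirr, rfl⟩ hint σ h2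
      rw [← agree ρ.character τ σ h3 hx.2]
      exact hτ x hx.1
    exact h1

/-- The trace over `ℚ` of the trace over `F`. -/
theorem trChar_trF (hirr : ρ.IsIrreducible) (F : IntermediateField ℚ ℂ)
    [hF : FiniteDimensional ℚ F] : trChar (trF F ρ.character) = trChar ρ.character := by
  have hint : ∀ g, IsIntegral ℚ (ρ.character g) := fun g => ZTNx.int_char ρ g
  have hfin : FiniteDimensional ℚ (charField ρ.character) := SOLBx.fin_char ρ
  have hE : FiniteDimensional ℚ (F ⊓ charField ρ.character : IntermediateField ℚ ℂ) :=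
    FiniteDimensional.of_injective
      (IntermediateField.inclusion (inf_le_left : F ⊓ charField ρ.character ≤ F)).toLinearMap
      (IntermediateField.inclusion_injective (inf_le_left : F ⊓ charField ρ.character ≤ F))
  funext g
  rw [INIx.trChar_eq, INIx.trChar_eq, charField_trF ρ hirr F,
    HOLx.trF_inf F ρ.character hint (gal_char ρ) g]
  exact tr_trans (F ⊓ charField ρ.character) hE ρ.character inf_le_right hfin g

end TRTx

open TRTx

/-- Norms for the trace over `F` of an irreducible character `χ` give norms for `χ` from the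
subfields of `F ∩ ℚ(χ)`. -/
theorem normIn_of_trF {K L : Type} [Field K] [NumberField K] [Field L] [NumberField L]
    [Algebra K L] [IsGalois K L] (S : Finset (HeightOneSpectrum (𝓞 K)))
    (Θ : ((L → ℝ) →₀ ℂ) →ₗ[ℂ] ((L → ℝ) →₀ ℂ)) (V : Type) [AddCommGroup V] [Module ℂ V]
    [Module.Finite ℂ V] (ρ : Representation ℂ (L ≃ₐ[K] L) V) (hirr : ρ.IsIrreducible)
    (F : IntermediateField ℚ ℂ) [hF : FiniteDimensional ℚ F] (E : IntermediateField ℚ ℂ)
    (hE : E ≤ F ⊓ charField ρ.character)
    (h : NormIn (charField (SOL3x.trF F ρ.character)) (SOL3x.trF F ρ.character)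
      (S : Set (HeightOneSpectrum (𝓞 K))) Θ) :
    NormIn E ρ.character (S : Set (HeightOneSpectrum (𝓞 K))) Θ := by
  have hfd : FiniteDimensional ℚ (F ⊓ charField ρ.character : IntermediateField ℚ ℂ) :=
    FiniteDimensional.of_injective
      (IntermediateField.inclusion (inf_le_left : F ⊓ charField ρ.character ≤ F)).toLinearMap
      (IntermediateField.inclusion_injective (inf_le_left : F ⊓ charField ρ.character ≤ F))
  refine FINZIx.normIn_le S Θ _ E _ hE hfd ?_
  rw [charField_trF ρ hirr F] at h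
  obtain ⟨f, α, hf, hα, hR⟩ := h
  rw [trChar_trF ρ hirr F] at hf
  refine ⟨f, α, hf, hα, fun V' _ _ _ ρ' hρ' => hR V' ρ' ?_⟩
  rw [trChar_trF ρ hirr F]
  exact hρ'

/-- A subfield of `ℚ(χ)` of prime power conductor. -/
theorem le_rootField_part {M n ℓ j : ℕ} (hℓ : ℓ.Prime) {a : ℕ} (hM : M = ℓ ^ a)
    (hn : 0 < n) (hln : ¬ ℓ ∣ n) (E : IntermediateField ℚ ℂ) (h1 : E ≤ rootField (M * n))
    (h2 : E ≤ rootField (ℓ ^ j)) : E ≤ rootField M := by
  subst hM
  have h3 := FINZIx.inf_root (Nat.mul_pos (pow_pos hℓ.pos a) hn) (pow_pos hℓ.pos j) E h1 h2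
  refine h3.trans (IntermediateField.adjoin.mono ℚ _ _ fun z hz => ?_)
  have h4 : Nat.gcd (ℓ ^ a * n) (ℓ ^ j) ∣ ℓ ^ a := by
    have h5 : Nat.Coprime n (ℓ ^ j) :=
      (Nat.Coprime.pow_left j ((Nat.Prime.coprime_iff_not_dvd hℓ).2 hln)).symm
    rw [Nat.Coprime.gcd_mul_right_cancel _ h5]
    exact Nat.gcd_dvd_left _ _
  obtain ⟨c, hc⟩ := h4
  show z ^ ℓ ^ a = 1
  rw [hc, pow_mul]
  have h6 : z ^ Nat.gcd (ℓ ^ a * n) (ℓ ^ j) = 1 := hz
  rw [h6, one_pow]

end StarkC.ABS
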