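import Pool.Agent.ABS.HOT3
import Pool.Agent.ABS.HOT4
import Pool.Agent.ABS.TOF
import Pool.Agent.ABS.OPI

/-!
# Project ABS (MP_46b841_nt): split image, `E` of conductor a power of `2` (helper63)
-/

set_option autoImplicit false

open NumberField IsDedekindDomain
open scoped Classical

namespace StarkC.ABS

open StarkP (rootField charField trChar NormIn NilNS HolIm indOf traceOver)
open SOL3x (trF Cj Fx)

namespace HOT1x

open HOF1x HOF2x

/-- Functions with values in `F` are their traces over `F`. -/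
theorem tr_self {X : Type} [Finite X] (F : IntermediateField ℚ ℂ) (hF : FiniteDimensional ℚ F)
    (f : X → ℂ) (hf : ∀ x, f x ∈ F) : trF F f = f := by
  funext x
  have hint : ∀ x, IsIntegral ℚ (f x) := fun x =>
    (IsIntegral.of_finite ℚ (⟨f x, hf x⟩ : F)).map F.val
  rw [SOL3x.trF_eq F hF f hint {f} (fun p => ?_) x, Finset.sum_singleton]
  rw [Finset.mem_singleton]
  constructor
  · rintro rfl
    exact SOL3x.Cj_self F _
  · rintro ⟨σ, hσ, rfl⟩
    exact funext fun y => hσ _ (hf y)

/-- The combination, on the group. -/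
theorem exists_comb {G V : Type} [Group G] [Fintype G] [AddCommGroup V] [Module ℂ V]
    [Module.Finite ℂ V] (ρ : Representation ℂ G V) (hirr : ρ.IsIrreducible) (hol : HolIm ρ) :
    ∃ a n : ℕ, 0 < n ∧ ¬ 2 ∣ n ∧ charField ρ.character ≤ rootField (2 ^ a * n) ∧
      ∃ (m : ℕ) (H : Fin m → Subgroup G) (W : Fin m → Type) (_ : ∀ i, AddCommGroup (W i))
        (_ : ∀ i, Module ℂ (W i)) (_ : ∀ i, Module.Finite ℂ (W i))
        (τ : ∀ i, Representation ℂ (H i) (W i)) (c : Fin m → ℤ),
        (∀ i, (τ i).IsIrreducible ∧ NilNS (τ i) ∧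
          ∀ h, (τ i).character h ∈ rootField (2 ^ a) ⊓ charField ρ.character) ∧
        ∀ g, trF (rootField (2 ^ a)) ρ.character g =
          ∑ i, (c i : ℂ) * indOf (H i) (τ i).character g := by
  obtain ⟨Q, _, _, π, T, P, ψ, hπ, hD, hχ⟩ := HOLx.exists_data ρ hirr hol
  obtain ⟨s, hs⟩ := exists_s hD
  have hN0 : 0 < orderOf ψ := s_pos
  obtain ⟨a, n, h2n, hN⟩ := Nat.exists_eq_pow_mul_and_not_dvd hN0.ne' 2 (by norm_num)
  have hn : 0 < n := by
    rcases Nat.eq_zero_or_pos n with h0 | h0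
    · rw [h0] at h2n
      exact absurd (dvd_zero 2) h2n
    · exact h0
  have hMn : (2 ^ a).Coprime n :=
    Nat.Coprime.pow_left a ((Nat.Prime.coprime_iff_not_dvd Nat.prime_two).2 h2n)
  obtain ⟨α, β, D, hα, hβ, hab⟩ := dat hD s hs (2 ^ a) n hMn hN
  have hcf : charField ρ.character = charField (indFun T (extZ ψ)) := by
    have h1 : Set.range ρ.character = Set.range (indFun T (extZ ψ)) := by
      rw [hχ]
      exact hπ.range_comp (indFun T (extZ ψ))
    show IntermediateField.adjoin ℚ (Set.range ρ.character) = _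
    rw [h1]
    rfl
  refine ⟨a, n, hn, h2n, ?_, ?_⟩
  · rw [hcf]
    refine IntermediateField.adjoin_le_iff.2 ?_
    rintro _ ⟨g, rfl⟩
    rw [← f_one, ← hN]
    exact f_mem hD 1 g
  · let e := Fintype.equivFin {c // c ∈ n.divisors}
    have hsj : ∀ c : ℕ, Function.Surjective (π.subgroupComap (Hc D c)) := by
      intro c y
      obtain ⟨x, hx⟩ := hπ y
      have hx' : x ∈ (Hc D c).comap π := by
        rw [Subgroup.mem_comap, hx]
        exact y.2
      exact ⟨⟨x, hx'⟩, Subtype.ext hx⟩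
    refine ⟨Fintype.card {c // c ∈ n.divisors}, fun i => (Hc D (e.symm i)).comap π,
      fun i => U D → ℂ, fun i => inferInstance, fun i => inferInstance, fun i => inferInstance,
      fun i => OPIx.inf (π.subgroupComap (Hc D (e.symm i))) (thc D (e.symm i)),
      fun i => ArithmeticFunction.moebius (e.symm i : ℕ), fun i => ⟨?_, ?_, ?_⟩, fun g => ?_⟩
    · exact NSYx.irr_comp (thc D (e.symm i)) _ (hsj _) (thc_irr D _ n _ hα hβ hMn)
    · exact OPIx.inf_nilNS _ (hsj _) (thc D (e.symm i)) (thc_nilNS D a n _ hα hβ hMn)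
    · intro h
      rw [hcf]
      exact th_val hD hs D (2 ^ a) n hN hα _
    · rw [HOLx.trF_comp' (rootField (2 ^ a)) π hπ _ _ hχ]
      show trF (rootField (2 ^ a)) (indFun T (extZ ψ)) (π g) = _
      rw [trF_root' hD hs D (2 ^ a) n hMn hN hα hβ hab]
      unfold cmb
      rw [← Finset.sum_coe_sort n.divisors fun c => ((ArithmeticFunction.moebius c : ℤ) : ℂ) *
        indFun (W D c) (extZ (phi D c)) (π g)]
      have h1 := Equiv.sum_comp e.symm fun c : {c // c ∈ n.divisors} =>
        ((ArithmeticFunction.moebius c : ℤ) : ℂ) * indFun (W D c) (extZ (phi D c)) (π g)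
      rw [← h1]
      refine Finset.sum_congr rfl fun i _ => ?_
      rw [← ind_thc D (e.symm i)]
      congr 1
      exact (OPIx.indOf_infl π hπ (Hc D (e.symm i)) (fun h => (th D).character (h : Q)) g).symm

end HOT1x

open HOT1x

/-- Split image `A B`: norms from all `E ≤ ℚ(χ)` contained in `ℚ(ζ_(2^j))`. -/
theorem norm_hol2 (K L : Type) [Field K] [NumberField K] [Field L] [NumberField L]
    [Algebra K L] [IsGalois K L] (S : Finset (HeightOneSpectrum (𝓞 K)))
    (Θ : ((L → ℝ) →₀ ℂ) →ₗ[ℂ] ((L → ℝ) →₀ ℂ))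
    (hΘ : StarkP.IsTheta K (StarkP.aboveSet K L S) Θ)
    (V : Type) [AddCommGroup V] [Module ℂ V] [Module.Finite ℂ V]
    (ρ : Representation ℂ (L ≃ₐ[K] L) V) (hirr : ρ.IsIrreducible) (h : HolIm ρ)
    (E : IntermediateField ℚ ℂ) (hE : E ≤ charField ρ.character) (j : ℕ)
    (hEj : E ≤ rootField (2 ^ j)) :
    NormIn E ρ.character (S : Set (HeightOneSpectrum (𝓞 K))) Θ := by
  obtain ⟨a, n, hn, h2n, hle, m, H, W, i1, i2, i3, τ, c, hτ, hsum⟩ := exists_comb ρ hirr h
  have ha : 0 < 2 ^ a := by positivity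
  have hF : FiniteDimensional ℚ (rootField (2 ^ a)) := ZENx.fin_of ha _ le_rfl
  have hEF : E ≤ rootField (2 ^ a) :=
    le_rootField_part Nat.prime_two rfl hn h2n E (hE.trans hle) hEj
  have hcf := TRTx.charField_trF ρ hirr (rootField (2 ^ a))
  have hfin : FiniteDimensional ℚ (charField (trF (rootField (2 ^ a)) ρ.character)) := by
    rw [hcf]
    exact ZENx.fin_of ha _ inf_le_left
  have hgal : IsGalois ℚ (charField (trF (rootField (2 ^ a)) ρ.character)) := by
    rw [hcf]
    exact galois_of_le _ ha _ inf_le_left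
  refine normIn_of_trF S Θ V ρ hirr (rootField (2 ^ a)) E (le_inf hEF hE) ?_
  refine COMx.normIn_comb S Θ hΘ m H W τ c (trF (rootField (2 ^ a)) ρ.character) hfin hgal
    (fun g => ?_) (fun i S' hΘ' => ?_)
  · rw [hsum g]
    refine Finset.sum_congr rfl fun i _ => ?_
    have h1 : traceOver (charField (trF (rootField (2 ^ a)) ρ.character)) (τ i).character =
        (τ i).character := by
      rw [hcf]
      exact tr_self _ (ZENx.fin_of ha _ inf_le_left) _ (hτ i).2.2
    rw [h1]
  · have h1 := INJx.pb_charField (IntermediateField.subgroupEquivAlgEquiv (H i)).symm (τ i)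
    refine finZI (IntermediateField.fixedField (H i)) L S' Θ hΘ' (W i) _
      (INJx.pb_irr _ (τ i) (hτ i).1) (INJx.pb_nilNS _ (τ i) (hτ i).2.1) _ ?_
      (Or.inr ⟨2, a, Nat.prime_two, ?_⟩)
    · rw [h1]
      exact inf_le_right
    · refine inf_le_left.trans ?_
      rw [hcf]
      exact inf_le_left

end StarkC.ABS
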