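import Pool.Agent.ABS.FINZ
import Pool.Agent.ABS.ZTN
import Pool.Agent.ABS.ZSU
import Pool.Agent.ABS.ZCJ
import Pool.Agent.ABS.PDefsC

/-!
# Project ABS: Stark in norm is inductive if the field of values does not change (helper6)
-/

set_option autoImplicit false

open NumberField IsDedekindDomain
open scoped TensorProduct Classical

namespace StarkC.ABS

namespace INIx

/-! ### Conjugate representations -/

section Conj

variable {G : Type} [Group G]

theorem ex_mat {V : Type} [AddCommGroup V] [Module ℂ V] [Module.Finite ℂ V]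
    (κ : Representation ℂ G V) :
    ∃ (d : ℕ) (R : G →* Matrix (Fin d) (Fin d) ℂ), ∀ g, (R g).trace = κ.character g := by
  let b := Module.finBasis ℂ V
  let R : G →* Matrix (Fin (Module.finrank ℂ V)) (Fin (Module.finrank ℂ V)) ℂ :=
    ((LinearMap.toMatrixAlgEquiv b : (V →ₗ[ℂ] V) ≃ₐ[ℂ] _) : (V →ₗ[ℂ] V) →* _).comp κ
  refine ⟨_, R, fun g => ?_⟩
  exact (LinearMap.trace_eq_matrix_trace ℂ b (κ g)).symm

theorem ex_conj {V : Type} [AddCommGroup V] [Module ℂ V] [Module.Finite ℂ V]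
    (κ : Representation ℂ G V) (σ : ℂ ≃+* ℂ) :
    ∃ (W : Type) (_ : AddCommGroup W) (_ : Module ℂ W) (_ : Module.Finite ℂ W)
      (κ' : Representation ℂ G W), ∀ g, κ'.character g = σ (κ.character g) := by
  obtain ⟨d, R, hR⟩ := ex_mat κ
  refine ⟨Fin d → ℂ, inferInstance, inferInstance, inferInstance, ZCJx.rep (ZCJx.mat σ R),
    fun g => ?_⟩
  rw [ZCJx.rep_character, ZCJx.trace_mat, hR]

/-- There is a representation with character `Tr χ`. -/
theorem ex_tr [Fintype G] {V : Type} [AddCommGroup V] [Module ℂ V] [Module.Finite ℂ V]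
    (κ : Representation ℂ G V) :
    ∃ (W : Type) (_ : AddCommGroup W) (_ : Module ℂ W) (_ : Module.Finite ℂ W)
      (κ' : Representation ℂ G W), κ'.character = StarkP.trChar κ.character := by
  have hfin : FiniteDimensional ℚ (StarkP.charField κ.character) := by
    have h1 : Finite (Set.range κ.character) := (Set.finite_range _).to_subtype
    refine IntermediateField.finiteDimensional_adjoin fun z hz => ?_
    obtain ⟨g, rfl⟩ := hz
    exact ZTNx.int_char κ g
  choose s hs using ZTNx.ext (StarkP.charField κ.character) hfin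
  let e : Fin (Fintype.card (StarkP.charField κ.character →ₐ[ℚ] ℂ)) ≃
      (StarkP.charField κ.character →ₐ[ℚ] ℂ) := (Fintype.equivFin _).symm
  have h1 := fun i => ex_conj κ (s (e i))
  choose W h2 h3 h4 κ' h5 using h1
  obtain ⟨U, i1, i2, i3, τ, hτ⟩ := ZSU_thm G _ W κ'
  refine ⟨U, i1, i2, i3, τ, ?_⟩
  funext g
  rw [hτ g]
  have h6 := trace_eq_sum_embeddings (K := ℚ) (L := StarkP.charField κ.character) ℂ
    (x := ⟨κ.character g, IntermediateField.subset_adjoin ℚ _ (Set.mem_range_self g)⟩)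
  have h7 : StarkP.trChar κ.character g = ∑ φ : StarkP.charField κ.character →ₐ[ℚ] ℂ,
      φ ⟨κ.character g, IntermediateField.subset_adjoin ℚ _ (Set.mem_range_self g)⟩ := h6
  rw [h7, ← Equiv.sum_comp e]
  refine Finset.sum_congr rfl fun i _ => ?_
  rw [h5 i g]
  exact hs (e i) ⟨κ.character g, _⟩

end Conj

/-! ### `L`-series and regulators -/

section Ind

variable {K N : Type} [Field K] [NumberField K] [Field N] [NumberField N] [Algebra K N]
  [IsGalois K N] (H : Subgroup (N ≃ₐ[K] N)) (f : (N ≃ₐ[K] N) → ℂ)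
  (f' : (N ≃ₐ[IntermediateField.fixedField H] N) → ℂ)
  (hf : ∀ h : H, f' (IntermediateField.subgroupEquivAlgEquiv H h) = f h)

include hf

theorem logL_ind (S : Set (HeightOneSpectrum (𝓞 K)))
    (S' : Set (HeightOneSpectrum (𝓞 (IntermediateField.fixedField H)))) (s : ℂ)
    (hS : aboveSet (IntermediateField.fixedField H) N S' = aboveSet K N S) (hs : 1 < s.re) :
    logL (indFun H f) S s = logL f' S' s := by
  rw [ALLT.lb K N (indFun H f) S s hs, ALLT.lc K N H f S s hs,
    ALLT.lb (IntermediateField.fixedField H) N f' S' s hs, hS]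
  unfold coreSum
  have hc : Nat.card (N ≃ₐ[IntermediateField.fixedField H] N) = Nat.card H :=
    (Nat.card_congr (IntermediateField.subgroupEquivAlgEquiv H).toEquiv).symm
  rw [hc]
  congr 1
  refine tsum_congr fun p => ?_
  congr 1
  symm
  refine Finset.sum_bij (fun g _ => (((IntermediateField.subgroupEquivAlgEquiv H).symm g : H) :
    N ≃ₐ[K] N)) ?_ ?_ ?_ ?_
  · intro g hg
    rw [Finset.mem_filter] at hg ⊢
    refine ⟨Finset.mem_univ _, SetLike.coe_mem _, ?_⟩
    have e : ((((IntermediateField.subgroupEquivAlgEquiv H).symm g : H) : N ≃ₐ[K] N) : N → N) =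
        (g : N → N) := by
      funext x
      rw [← LIND.equiv_apply, MulEquiv.apply_symm_apply]
    rw [e]
    exact hg.2
  · intro a _ b _ hab
    exact (IntermediateField.subgroupEquivAlgEquiv H).symm.injective (Subtype.ext hab)
  · intro g hg
    rw [Finset.mem_filter] at hg
    refine ⟨IntermediateField.subgroupEquivAlgEquiv H ⟨g, hg.2.1⟩, ?_, ?_⟩
    · rw [Finset.mem_filter]
      exact ⟨Finset.mem_univ _, hg.2.2⟩
    · rw [MulEquiv.symm_apply_apply]
  · intro g _
    rw [← hf, MulEquiv.apply_symm_apply]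

theorem pair_ind {T : Set (HeightOneSpectrum (𝓞 N))} (hT : StableT K T)
    (Θ : XC N T →ₗ[ℂ] XC N T)
    (hc : ∀ g : N ≃ₐ[K] N, Θ ∘ₗ repX K T hT g = repX K T hT g ∘ₗ Θ) (k : ℕ) :
    INDT.pair hT Θ (indFun H f) k =
      INDT.pair (K := IntermediateField.fixedField H) (IND.stable_sub _ hT) Θ f' k := by
  set t : (N ≃ₐ[K] N) → ℂ := fun g => LinearMap.trace ℂ (XC N T) (repX K T hT g ∘ₗ (Θ ^ k))
    with ht
  have hck : ∀ g : N ≃ₐ[K] N, (Θ ^ k) ∘ₗ repX K T hT g = repX K T hT g ∘ₗ (Θ ^ k) := by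
    intro g
    have h1 : Commute Θ (repX K T hT g) := hc g
    exact (h1.pow_left k).eq
  have hclass : ∀ x g, t (x * g * x⁻¹) = t g := by
    intro x g
    simp only [ht]
    have h1 : repX K T hT (x * g * x⁻¹) ∘ₗ (Θ ^ k) =
        (repX K T hT x) * ((repX K T hT g ∘ₗ (Θ ^ k)) * repX K T hT x⁻¹) := by
      rw [map_mul, map_mul]
      show (repX K T hT x * repX K T hT g * repX K T hT x⁻¹) * (Θ ^ k) = _
      have h2 : (Θ ^ k) * repX K T hT x⁻¹ = repX K T hT x⁻¹ * (Θ ^ k) := hck x⁻¹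
      rw [mul_assoc, ← h2]
      rfl
    rw [h1, LinearMap.trace_mul_comm, mul_assoc, ← map_mul]
    simp
  show (∑ g : N ≃ₐ[K] N, indFun H f g * t g) / _ = _
  rw [IND.sum_indFun_mul H f t hclass]
  have h4 : (Nat.card H : ℂ) = (Nat.card (N ≃ₐ[IntermediateField.fixedField H] N) : ℂ) := by
    rw [Nat.card_congr (IntermediateField.subgroupEquivAlgEquiv H).toEquiv]
  rw [h4, INDT.pair]
  congr 1
  refine Fintype.sum_equiv (IntermediateField.subgroupEquivAlgEquiv H).toEquiv _ _
    fun h => ?_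
  have h7 : repX (IntermediateField.fixedField H) T (IND.stable_sub _ hT)
      ((IntermediateField.subgroupEquivAlgEquiv H) h) = repX K T hT (h : N ≃ₐ[K] N) := by
    rw [IND.repX_sub, MulEquiv.symm_apply_apply]
  show f (h : N ≃ₐ[K] N) * t h = f' ((IntermediateField.subgroupEquivAlgEquiv H) h) *
      LinearMap.trace ℂ (XC N T) (repX (IntermediateField.fixedField H) T
        (IND.stable_sub _ hT) ((IntermediateField.subgroupEquivAlgEquiv H) h) ∘ₗ (Θ ^ k))
  rw [hf, h7]

/-- The regulator of an induced character. -/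
theorem reg_ind {T : Set (HeightOneSpectrum (𝓞 N))} (hTf : T.Finite) (hT : StableT K T)
    (Θ : XC N T →ₗ[ℂ] XC N T) (hb : Function.Bijective Θ)
    (hc : ∀ g : N ≃ₐ[K] N, Θ ∘ₗ repX K T hT g = repX K T hT g ∘ₗ Θ)
    (V : Type) [AddCommGroup V] [Module ℂ V] [Module.Finite ℂ V]
    (ρ : Representation ℂ (N ≃ₐ[K] N) V) (hρ : ρ.character = indFun H f)
    (W : Type) [AddCommGroup W] [Module ℂ W] [Module.Finite ℂ W]
    (ρ' : Representation ℂ (N ≃ₐ[IntermediateField.fixedField H] N) W)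
    (hρ' : ρ'.character = f') : Reg T ρ Θ = Reg T ρ' Θ := by
  have hci : ∀ g : N ≃ₐ[IntermediateField.fixedField H] N,
      Θ ∘ₗ repX (IntermediateField.fixedField H) T (IND.stable_sub _ hT) g =
        repX (IntermediateField.fixedField H) T (IND.stable_sub _ hT) g ∘ₗ Θ := by
    intro g
    rw [IND.repX_sub]
    exact hc _
  obtain ⟨W₁, a1, a2, a3, B₁, h1, h2, h3⟩ := ALLT.rgt K N T hT Θ V ρ hTf hc hb
  obtain ⟨W₂, b1, b2, b3, B₂, h4, h5, h6⟩ := ALLT.rgt (IntermediateField.fixedField H) N T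
    (IND.stable_sub _ hT) Θ W ρ' hTf hci hb
  have key := TRD_thm 1 W₁ B₁ (fun _ => W₂) (fun _ => B₂) (fun _ => 1) (fun _ => h5) (fun k => by
    rw [Fin.sum_univ_one, Int.cast_one, one_mul, h3 k, h6 k, hρ, hρ']
    exact pair_ind H f f' hf hT Θ hc k)
  rw [Fin.prod_univ_one, zpow_one, h1, h4] at key
  exact key

end Ind

/-- The trace of `F/ℚ` on the elements of `F`. -/
noncomputable def tF (F : IntermediateField ℚ ℂ) (z : ℂ) : ℂ :=
  if h : z ∈ F then ((Algebra.trace ℚ F ⟨z, h⟩ : ℚ) : ℂ) else 0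

theorem trChar_eq {G : Type} (χ : G → ℂ) (g : G) :
    StarkP.trChar χ g = tF (StarkP.charField χ) (χ g) := by
  have h : χ g ∈ StarkP.charField χ :=
    IntermediateField.subset_adjoin ℚ _ (Set.mem_range_self g)
  rw [tF, dif_pos h]
  rfl

theorem tF_add (F : IntermediateField ℚ ℂ) {x y : ℂ} (hx : x ∈ F) (hy : y ∈ F) :
    tF F (x + y) = tF F x + tF F y := by
  rw [tF, dif_pos (F.add_mem hx hy), tF, dif_pos hx, tF, dif_pos hy, ← Rat.cast_add, ← map_add]
  rfl

theorem tF_zero (F : IntermediateField ℚ ℂ) : tF F 0 = 0 := by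
  rw [tF, dif_pos F.zero_mem]
  have h : (⟨0, F.zero_mem⟩ : F) = 0 := rfl
  rw [h, map_zero, Rat.cast_zero]

theorem tF_sum (F : IntermediateField ℚ ℂ) {ι : Type} (s : Finset ι) (x : ι → ℂ)
    (hx : ∀ i, x i ∈ F) : tF F (∑ i ∈ s, x i) = ∑ i ∈ s, tF F (x i) := by
  induction s using Finset.induction_on with
  | empty => rw [Finset.sum_empty, Finset.sum_empty, tF_zero]
  | insert a s ha ih =>
    rw [Finset.sum_insert ha, Finset.sum_insert ha, tF_add F (hx a) (F.sum_mem fun i _ => hx i),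
      ih]

theorem tF_div (F : IntermediateField ℚ ℂ) {x : ℂ} (hx : x ∈ F) (n : ℕ) (hn : n ≠ 0) :
    tF F (x / n) = tF F x / n := by
  have hn' : (n : ℂ) ≠ 0 := Nat.cast_ne_zero.2 hn
  have hmem : x / n ∈ F := F.div_mem hx (natCast_mem F n)
  rw [eq_div_iff hn', tF, dif_pos hmem, tF, dif_pos hx]
  have h1 : (⟨x, hx⟩ : F) = (n : ℚ) • (⟨x / n, hmem⟩ : F) := by
    apply Subtype.ext
    show x = ((n : ℚ) • (⟨x / n, hmem⟩ : F) : F)
    rw [IntermediateField.coe_smul, Rat.smul_def, Rat.cast_natCast]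
    field_simp
  rw [h1, map_smul, smul_eq_mul, Rat.cast_mul, Rat.cast_natCast, mul_comm]

/-- The trace of an induced character. -/
theorem trChar_ind {G : Type} [Group G] [Fintype G] (H : Subgroup G) (θ : H → ℂ) (χ : G → ℂ)
    (hχ : χ = indFun H (fun g => if h : g ∈ H then θ ⟨g, h⟩ else 0))
    (hF : StarkP.charField θ = StarkP.charField χ) :
    StarkP.trChar χ = indFun H (fun g => if h : g ∈ H then StarkP.trChar θ ⟨g, h⟩ else 0) := by
  funext g
  rw [trChar_eq]
  have h1 : ∀ x : G, (if x⁻¹ * g * x ∈ H then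
      (fun g => if h : g ∈ H then θ ⟨g, h⟩ else 0) (x⁻¹ * g * x) else 0) ∈
        StarkP.charField χ := by
    intro x
    split_ifs with h
    · show dite _ _ _ ∈ _
      rw [dif_pos h, ← hF]
      exact IntermediateField.subset_adjoin ℚ _ (Set.mem_range_self _)
    · exact zero_mem _
  have h2 : χ g = (∑ x : G, if x⁻¹ * g * x ∈ H then
      (fun g => if h : g ∈ H then θ ⟨g, h⟩ else 0) (x⁻¹ * g * x) else 0) / (Nat.card H : ℂ) := by
    conv_lhs => rw [hχ]
    rfl
  rw [h2, tF_div _ (IntermediateField.sum_mem _ fun x _ => h1 x) _ Nat.card_pos.ne',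
    tF_sum _ _ _ h1]
  show _ = (∑ x : G, if x⁻¹ * g * x ∈ H then
      (fun g => if h : g ∈ H then StarkP.trChar θ ⟨g, h⟩ else 0) (x⁻¹ * g * x) else 0) /
        (Nat.card H : ℂ)
  congr 1
  refine Finset.sum_congr rfl fun x _ => ?_
  by_cases h : x⁻¹ * g * x ∈ H
  · rw [if_pos h, if_pos h]
    show tF (StarkP.charField χ) (dite _ _ _) = dite _ _ _
    rw [dif_pos h, dif_pos h, trChar_eq, hF]
  · rw [if_neg h, if_neg h, tF_zero]

end INIx

end StarkC.ABS
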