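import Pool.Agent.ABS.StN3

/-!
# Project ABS (MP_46b841_nt), part Z (group part): irreducible characters with nilpotent image, not symplectic

THEOREM (Z), group part (idea helper37).  `ρ` irreducible with nilpotent image, and no nondegenerate
alternating form on `V` is invariant under the `ρ g` of `2`-power order (the `2`-part of `ρ` is not
symplectic).  Then `χ = Ind_A ψ` with a linear character `ψ` such that either `ℚ(χ) = ℚ(ψ)`, or there is a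
dihedral or semidihedral leaf (`Leaf`): `g ∈ G` normalises `A`, `ψ(g⁻¹ a g) = ψ(a)^s`, `ψ(g²) = 1`, `s` is
`-1` or `-1 + 2^(n-1)` modulo `2^n` and `1` modulo `m`, `2^n m` the order of `ψ`, `m` odd, and `ℚ(χ)` is the field
of the elements of `ℚ(ψ)` fixed by `ζ ↦ ζ^s`.

PROOF.  Roquette's induction as in part N (`ABS/StN.lean`, `ABS/StN3.lean`): if there is an `a` as in NEL go down to the
stabiliser of the eigenspace of `a` (ZOQ); the hypothesis on forms goes down by ZSI.  Otherwise (ZEL, ZGP) the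
image is `P × O`, `O` central of odd order, `P` dihedral, semidihedral or quaternion, and `P` is not
quaternion because of the hypothesis on forms (ZSQ): ZLG.

Module `X` proves `theorem StarkC.ABS.X_thm : Stmt_X` in the file `Pool/Agent/ABS/X.lean` (import
`Pool.Agent.ABS.StZG` and the finished modules named in the text); helper lemmas in
`namespace StarkC.ABS.Xx`.  The statements used are hypotheses inside `Stmt_X`.
-/

set_option autoImplicit false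

open scoped Classical

namespace StarkC.ABS

open StarkC.MON

/-- The exponents `-1` and `-1 + 2 ^ (n - 1)` modulo `2 ^ n`. -/
def TT (n t : ℕ) : Prop :=
  2 ≤ n ∧ ((t + 1) % 2 ^ n = 0 ∨ (3 ≤ n ∧ (t + 1) % 2 ^ n = 2 ^ (n - 1)))

/-- The image of `ρ` is nilpotent. -/
def NIm {G V : Type} [Group G] [AddCommGroup V] [Module ℂ V] (ρ : Representation ℂ G V) : Prop :=
  ∃ n : ℕ, ∀ g ∈ (⊤ : Subgroup G).lowerCentralSeries n, ρ g = 1

/-- There is a nondegenerate alternating form on `V` invariant under the `ρ g` of `2`-power order. -/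
def Sy {G V : Type} [Group G] [AddCommGroup V] [Module ℂ V] (ρ : Representation ℂ G V) : Prop :=
  ∃ B : V →ₗ[ℂ] V →ₗ[ℂ] ℂ, (∀ v, B v v = 0) ∧ (∀ v, (∀ w, B v w = 0) → v = 0) ∧
    ∀ g : G, (∃ j : ℕ, ρ (g ^ (2 ^ j)) = 1) → ∀ v w, B (ρ g v) (ρ g w) = B v w

/-- The image is `P × O`, `O` central of odd order, `P` dihedral, semidihedral or quaternion, generated by
`c` of order `2 ^ n` and `g`. -/
structure DQ {G V : Type} [Group G] [AddCommGroup V] [Module ℂ V] (ρ : Representation ℂ G V)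
    (c g : G) (t n : ℕ) : Prop where
  tt : TT n t
  ord : ρ (c ^ (2 ^ n)) = 1
  ne : ρ (c ^ (2 ^ (n - 1))) ≠ 1
  conj : ρ (g * c * g⁻¹) = ρ (c ^ t)
  all : ∀ x : G, ∃ (j m : ℕ) (u : G), Odd m ∧ ρ (u ^ m) = 1 ∧ IsScal ρ u ∧
    (ρ x = ρ (c ^ j * u) ∨ ρ x = ρ (g * c ^ j * u))
  sq : ρ (g * g) = 1 ∨ ((t + 1) % 2 ^ n = 0 ∧ ρ (g * g) = ρ (c ^ (2 ^ (n - 1))))

/-- The dihedral and semidihedral leaves: `ρ` induced from `ψ` is irreducible for `⟨A, g⟩`. -/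
structure Leaf {G : Type} [Group G] (A : Subgroup G) (ψ : A →* ℂˣ) (g : G) (n m s : ℕ) : Prop where
  tt : TT n s
  odd : Odd m
  one : s % m = 1 % m
  ord : orderOf ψ = 2 ^ n * m
  norm : ∀ a ∈ A, g⁻¹ * a * g ∈ A
  conj : ∀ a b : A, (b : G) = g⁻¹ * a * g → ψ b = ψ a ^ s
  mem : g * g ∈ A
  sq : ∀ a : A, (a : G) = g * g → ψ a = 1

/-- An element `a` which splits `ρ` (as in NEL, MEL). -/
def Spl {G V : Type} [Group G] [AddCommGroup V] [Module ℂ V] (ρ : Representation ℂ G V) : Prop :=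
  ∃ (p : ℕ) (a z : G) (ζ : ℂ), p.Prime ∧ ¬ IsScal ρ a ∧ ρ (a ^ p) = 1 ∧
    (∀ y : G, ∃ c : ℂ, ∀ v, ρ (y⁻¹ * a * y) v = c • ρ a v) ∧ IsPrimitiveRoot ζ p ∧
    ∀ v, ρ z v = ζ • v

/-! ### Groups -/

/-- ZGP (200 lines; model `MGP_thm`, `ABS/MGP.lean`: copy it).  PROOF. `A` from MAX; if `A` is not cyclic: MAB.
Let `A = ⟨c⟩`, of order `2 ^ n`, `n ≥ 2` as in MGP.  If there is `x ∉ A` with `x c x⁻¹ = c ^ s`, `s % 4 = 1`: these `x`
form with `A` a subgroup `A₁ ≠ A`, and `A₁/A` is a nontrivial `2`-group: take `g ∈ A₁`, `g ∉ A`, `g² ∈ A` and finish as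
in MGP (the argument there for `h ∈ P` uses only that all conjugations act on `A` by powers); first case.
Otherwise for `x, y ∉ A` the exponents are `3` modulo `4`, so that of `x⁻¹ y` is `1` modulo `4` and `x⁻¹ y ∈ A`; `P ≠ A`:
let `g ∉ A`; every `x` is `c ^ j` or `g c ^ j`.  `g c g⁻¹ = c ^ t`, `t % 4 = 3`; `g² ∈ A`, so `c` commutes with `g²`,
`t² = 1` modulo `2 ^ n`, `(t + 1)(t - 1) = 0` modulo `2 ^ n` and `t - 1 = 2` modulo `4`: `2 ^ (n - 1)` divides `t + 1`; and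
`4 ∣ t + 1`: `TT n t`.  `g² = c ^ k` commutes with `g`: `k (t - 1) = 0` modulo `2 ^ n`, so `2 ^ (n - 1) ∣ k`, `g² = 1` or
`g² = z = c ^ (2 ^ (n - 1))`.  If `(t + 1) % 2 ^ n = 2 ^ (n - 1)` and `g² = z`: replace `g` by `g c`
(`(g c)² = g² (g⁻¹ c g) c = g² c ^ (t + 1) = z z = 1`; `g⁻¹ c g = c ^ t` as well).  If `x c = c x` then `x ∈ A` (MAX). -/
def Stmt_ZGP : Prop :=
  Stmt_MAB → Stmt_MAX →
  ∀ (P : Type) [Group P] [Finite P], IsPGroup 2 P → IsCyclic (Subgroup.center P) →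
    (¬ ∀ a b : P, a * b = b * a) →
    (∃ a : P, a ∉ Subgroup.center P ∧ a ^ 2 = 1 ∧
      ∀ g : P, g⁻¹ * a * g * a⁻¹ ∈ Subgroup.center P) ∨
    ∃ (c g : P) (t n : ℕ), TT n t ∧ orderOf c = 2 ^ n ∧ g * c * g⁻¹ = c ^ t ∧
      (∀ x : P, ∃ j : ℕ, x = c ^ j ∨ x = g * c ^ j) ∧
      (∀ x : P, x * c = c * x → ∃ j : ℕ, x = c ^ j) ∧
      (g * g = 1 ∨ ((t + 1) % 2 ^ n = 0 ∧ g * g = c ^ (2 ^ (n - 1))))

/-- ZEL (200 lines; model `MEL_thm`, `ABS/MEL.lean`: copy it).  PROOF. As MEL, with ZGP in place of MGP.  In the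
second case lift `c`, `g` of the Sylow `2`-subgroup `P` of `Im ρ` to `G`.  Every element of `Im ρ` is `i (P-component)`
times an element `h` with trivial `P`-component, which is central of odd order, so `ρ` of a lift `u` of `h` is a scalar
(`REL.mem_center`) with `ρ (u ^ m) = 1`, `m` odd. -/
def Stmt_ZEL : Prop :=
  Stmt_MAB → Stmt_MAX → Stmt_ZGP →
  ∀ (G V : Type) [Group G] [Fintype G] [AddCommGroup V] [Module ℂ V] [Module.Finite ℂ V]
    (ρ : Representation ℂ G V), Irr ρ → NIm ρ → (¬ ∀ g, IsScal ρ g) →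
    Spl ρ ∨ ∃ (c g : G) (t n : ℕ), DQ ρ c g t n

/-- ZTW (80 lines).  The elements of `2`-power order of a finite nilpotent group form a normal
subgroup.  PROOF. `Im ρ` (`ABS/REL.lean`: `Im`, `pr`) is nilpotent (as in `MEL_thm`, `ABS/MEL.lean`).  Its Sylow `2`-subgroup `P` is
normal (`isNilpotent_of_finite_tfae`), so it is the only one (`Sylow.unique_of_normal`), and it contains every
element `x` with `x ^ (2 ^ j) = 1` (`IsPGroup.exists_le_sylow` for `Subgroup.zpowers x`).  `T` = the preimage of `P`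
under `pr ρ`. -/
def Stmt_ZTW : Prop :=
  ∀ (G V : Type) [Group G] [Fintype G] [AddCommGroup V] [Module ℂ V] [Module.Finite ℂ V]
    (ρ : Representation ℂ G V), NIm ρ →
    ∃ T : Subgroup G, T.Normal ∧ ∀ g, g ∈ T ↔ ∃ j : ℕ, ρ (g ^ (2 ^ j)) = 1

/-! ### Alternating forms -/

/-- ZSI (200 lines), forms go up.  PROOF. `T` from ZTW.  (1) `V` is the direct sum of the `ρ(y) W`, `y ∈ G/H`: the span of all
`ρ g W` is stable and not zero, so it is `V`, and `dim V = [G : H] dim W` by the formula for the characters at `1`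
(`MON.indL_apply`).  So for every choice of representatives `y : G ⧸ H → G` the map
`Φ : (G ⧸ H → W) → V`, `w ↦ ∑ ρ (y i) (w i)`, is surjective between spaces of equal dimension, hence bijective.
(2) Choose `y` with: for `h ∈ T` and `i`, `j = h • i`, the element `(y j)⁻¹ h (y i)` is in `T ⊓ H`: choose one `r` in every
coset of the subgroup `H ⊔ T` (`T` is normal: `H ⊔ T = H T`), and for `i = x H` with `x ∈ r H T = r T H` let `y i ∈ r T ∩ x H`.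
Then `h (y i) ∈ h r T = r T` and `y j ∈ r T`, so `(y j)⁻¹ h (y i) ∈ T`; and it is in `H` as `h (y i) H = y j H`.
(3) `B (Φ w) (Φ w') = ∑_i B_W (w i) (w' i)`: alternating, nondegenerate, and for `h ∈ T`:
`ρ h Φ(w) = ∑ ρ (y j) ρ (n_i) (w i)`, `n_i ∈ T ⊓ H`, and `B_W` is invariant under `n_i` (some `ρ (n_i ^ (2 ^ e)) = 1`, so also
its restriction to `W`). -/
def Stmt_ZSI : Prop :=
  Stmt_ZTW →
  ∀ (G V : Type) [Group G] [Fintype G] [AddCommGroup V] [Module ℂ V] [Module.Finite ℂ V]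
    (ρ : Representation ℂ G V) (H : Subgroup G) (W : Submodule ℂ V)
    (hW : ∀ g ∈ H, ∀ v ∈ W, ρ g v ∈ W), Irr ρ → NIm ρ → Irr (sub ρ H W hW) →
    ρ.character = indL H (sub ρ H W hW).character → Sy (sub ρ H W hW) → Sy ρ

/-! ### The leaves -/

/-- ZVB (120 lines).  The space of a leaf.  PROOF. `ρ c` has an eigenvector `v` with eigenvalue `ζ`, `ζ ^ (2 ^ n) = 1`
(`Module.End.exists_eigenvalue`).  `ρ (g² c) = ρ (c g²)` by `sq`, so from `conj` twice: `ρ c = ρ (c ^ (t t))`, and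
`ρ (c g) = ρ (g c ^ t)` (multiply `g c ^ t g⁻¹ = (g c g⁻¹)^t = c ^ (t t) = c` on the images); so `ρ g v` has eigenvalue
`ζ ^ t`.  The span of `v` and `ρ g v` is stable (`all`, `sq`), so it is `V`.  `ρ z`, `z = c ^ (2 ^ (n - 1))`, acts on `v` by
`ε = ζ ^ (2 ^ (n - 1)) = ± 1` and on `ρ g v` by `ε ^ t = ε` (`t` is odd), and `ρ z ≠ 1`: `ε = -1`, so `ζ` is primitive
(`IsPrimitiveRoot.iff_orderOf`, `orderOf_eq_prime_pow`), and `ζ ^ t ≠ ζ` (`t - 1 = 2` modulo `4`), so `v`, `ρ g v` are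
linearly independent. -/
def Stmt_ZVB : Prop :=
  ∀ (G V : Type) [Group G] [Fintype G] [AddCommGroup V] [Module ℂ V] [Module.Finite ℂ V]
    (ρ : Representation ℂ G V) (c g : G) (t n : ℕ), Irr ρ → DQ ρ c g t n →
    ∃ (v : V) (ζ : ℂ), v ≠ 0 ∧ IsPrimitiveRoot ζ (2 ^ n) ∧ ρ c v = ζ • v ∧
      ρ c (ρ g v) = ζ ^ t • ρ g v ∧ (∀ w : V, ∃ a b : ℂ, w = a • v + b • ρ g v) ∧
      (∀ a b : ℂ, a • v + b • ρ g v = 0 → a = 0 ∧ b = 0) ∧
      ∀ w, ρ (c ^ (2 ^ (n - 1))) w = -w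

/-- ZSQ (120 lines), quaternion leaves are symplectic.  PROOF. Otherwise (`sq`) `ρ (g g) = ρ (c ^ (2 ^ (n - 1))) = -1` and
`ζ ^ t = ζ⁻¹`.  ZVB: `B (a v + b ρ g v, a' v + b' ρ g v) = a b' - a' b` (a basis: `Basis.mk`, or the linear maps `a`, `b`).
`B (ρ x w) (ρ x w') = det B(w, w')`: it is enough to see that the determinant of `ρ x` in this basis is `1` if
`ρ (x ^ (2 ^ j)) = 1`.  For `ρ c`: `ζ ζ⁻¹ = 1`; for `ρ g`: the matrix `(0, -1; 1, 0)`, determinant `1`.  `ρ x = ρ (c ^ i u)` or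
`ρ (g c ^ i u)` (`all`), `ρ u = ω` a scalar, `ω ^ m = 1`, `m` odd: `ρ (x ^ 2)` is `ω²` times `ρ` of a power of `c` (`(g c ^ i)² = g²`
on the images), so `ω ^ (2 ^ N) = 1` for large `N`, `ω = 1`. -/
def Stmt_ZSQ : Prop :=
  Stmt_ZVB →
  ∀ (G V : Type) [Group G] [Fintype G] [AddCommGroup V] [Module ℂ V] [Module.Finite ℂ V]
    (ρ : Representation ℂ G V) (c g : G) (t n : ℕ), Irr ρ → DQ ρ c g t n → ¬ Sy ρ →
    ρ (g * g) = 1

/-- ZLG (250 lines), the leaf.  PROOF. ZVB, ZSQ.  `A` = the `x` with `ρ (x c) = ρ (c x)` = those with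
`ρ x = ρ (c ^ j u)` (`all`; `g c ^ j u` does not commute with `c`: it maps `v` to a multiple of `ρ g v`).  `x ∈ A` acts on `v` by
`ψ x = ζ ^ j ω` (`ω` the scalar `ρ u`) and on `ρ g v` by `ζ ^ (t j) ω`.  The order of `ψ`: a power `ψ ^ (2 ^ n M) = 1`, `M` odd
(the odd part of `|G|`), and `ψ c = ζ`, so it is `2 ^ n m` with `m ∣ M`.  `s` by the Chinese remainder theorem
(`Nat.chineseRemainder`): `s = t` modulo `2 ^ n`, `s = 1` modulo `m`.  `ω ^ m = 1`: `ω` has odd order and is a value of `ψ`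
(at `u`), of order dividing `2 ^ n m`.  So `ψ (g⁻¹ x g) = ζ ^ (t j) ω = (ψ x)^s` (`ρ (g⁻¹) = ρ g`).  `g g ∈ A`, `ψ (g g) = 1`.
`χ x = ψ x + (ψ x)^s` for `x ∈ A` and `0` for `x ∉ A` (`x` exchanges the two lines); the trace in the basis `v`, `ρ g v`
(`LinearMap.trace_eq_matrix_trace`); `indFun A (extZ ψ)`: `G = A ∪ g A`, `|G| = 2 |A|`.
Let `σ` fix `χ`: `σ ψ + σ (ψ^s) = ψ + ψ^s` as functions on `A`; the characters `ψ ≠ ψ^s` of `A` are linearly independent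
(`linearIndependent_monoidHom`), so `σ ψ` is one of them. -/
def Stmt_ZLG : Prop :=
  Stmt_ZVB → Stmt_ZSQ →
  ∀ (G V : Type) [Group G] [Fintype G] [AddCommGroup V] [Module ℂ V] [Module.Finite ℂ V]
    (ρ : Representation ℂ G V) (c g : G) (t n : ℕ), Irr ρ → DQ ρ c g t n → ¬ Sy ρ →
    ∃ (A : Subgroup G) (ψ : A →* ℂˣ) (m s : ℕ), Leaf A ψ g n m s ∧
      ρ.character = indFun A (extZ ψ) ∧
      ∀ σ : ℂ ≃+* ℂ, (∀ x, σ (ρ.character x) = ρ.character x) →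
        (∀ a, σ ((ψ a : ℂˣ) : ℂ) = ((ψ a : ℂˣ) : ℂ)) ∨
          ∀ a, σ ((ψ a : ℂˣ) : ℂ) = ((ψ a : ℂˣ) : ℂ) ^ s

/-- The conclusion of ZEL. -/
def ConclZEL : Prop :=
  ∀ (G V : Type) [Group G] [Fintype G] [AddCommGroup V] [Module ℂ V] [Module.Finite ℂ V]
    (ρ : Representation ℂ G V), Irr ρ → NIm ρ → (¬ ∀ g, IsScal ρ g) →
    Spl ρ ∨ ∃ (c g : G) (t n : ℕ), DQ ρ c g t n

/-- The conclusion of ZOQ. -/
def ConclZOQ : Prop :=
  ∀ (G V : Type) [Group G] [Fintype G] [AddCommGroup V] [Module ℂ V] [Module.Finite ℂ V]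
    (ρ : Representation ℂ G V), Irr ρ → NIm ρ → ¬ Sy ρ →
    (∃ (H : Subgroup G) (ψ : H →* ℂˣ), ρ.character = indFun H (extZ ψ) ∧
      ∀ σ : ℂ ≃+* ℂ, (∀ g, σ (ρ.character g) = ρ.character g) →
        ∀ h, σ ((ψ h : ℂˣ) : ℂ) = ((ψ h : ℂˣ) : ℂ)) ∨
    ∃ (A : Subgroup G) (ψ : A →* ℂˣ) (g : G) (n m s : ℕ), Leaf A ψ g n m s ∧
      ρ.character = indFun A (extZ ψ) ∧
      ∀ σ : ℂ ≃+* ℂ, (∀ x, σ (ρ.character x) = ρ.character x) →
        (∀ a, σ ((ψ a : ℂˣ) : ℂ) = ((ψ a : ℂˣ) : ℂ)) ∨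
          ∀ a, σ ((ψ a : ℂˣ) : ℂ) = ((ψ a : ℂˣ) : ℂ) ^ s

/-- ZOQ (150 lines; model `NOQ_thm`, `ABS/NOQ.lean`: copy it).  PROOF. Induction on `|G|`.  All `ρ g` scalars:
`NOQx.scal`.  Otherwise ConclZEL.  Second case: ZLG.  First case: RAV (`RAV_thm`), the induction for `sub ρ H W hW`:
`NIm` as in `NSU_thm` (`ABS/NSU.lean`), `¬ Sy` by ZSI.  The linear case as in NOQ.  The other case: `Leaf A ψ g n m s` in `H`
gives `Leaf (A.map H.subtype) (tr A ψ) (g : G) n m s` (`MON.tr`, `MON.indL_indFun`, `orderOf` of `tr A ψ` = of `ψ`: `tr` is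
composition with an isomorphism; `orderOf_injective` or `MonoidHom.ext`), and the automorphisms as in NOQ
(`ROQ.fix_sub`). -/
def Stmt_ZOQ : Prop :=
  ConclZEL → Stmt_ZTW → Stmt_ZSI → Stmt_ZVB → Stmt_ZSQ → Stmt_ZLG → ConclZOQ

/-! ### Fields of values and identities -/

/-- ZFX (100 lines; model `NFX_thm`, `ABS/NFX.lean`).  PROOF. `ψ` takes a value of order `2 ^ n m` (`CFLx.exists_gen` or the
argument in `RFX_thm`), so an automorphism `σ` with `σ ψ = ψ` (`σ ψ = ψ ^ s`) satisfies `σ z = z` (`σ z = z ^ s`) for all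
`z ^ (2 ^ n m) = 1`.  Conversely if `σ z = z` then `σ χ = χ`, and if `σ z = z ^ s` then `σ χ = Ind ψ ^ s`, and
`Ind ψ ^ s = Ind ψ`: `indFun` with `x ↦ x g` (`ψ (g⁻¹ a g) = ψ(a)^s`, and `g⁻¹ a g ∈ A ↔ a ∈ A`, as `A` is
finite).  The last part as in `NFX_thm`. -/
def Stmt_ZFX : Prop :=
  ∀ (G : Type) [Group G] [Fintype G] (A : Subgroup G) (ψ : A →* ℂˣ) (g : G) (n m s : ℕ),
    Leaf A ψ g n m s →
    (∀ σ : ℂ ≃+* ℂ, (∀ x, σ (indFun A (extZ ψ) x) = indFun A (extZ ψ) x) →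
      (∀ a, σ ((ψ a : ℂˣ) : ℂ) = ((ψ a : ℂˣ) : ℂ)) ∨
        ∀ a, σ ((ψ a : ℂˣ) : ℂ) = ((ψ a : ℂˣ) : ℂ) ^ s) →
    (∀ σ : ℂ ≃+* ℂ, (∀ x, σ (indFun A (extZ ψ) x) = indFun A (extZ ψ) x) ↔
      ((∀ z : ℂ, z ^ (2 ^ n * m) = 1 → σ z = z) ∨
        ∀ z : ℂ, z ^ (2 ^ n * m) = 1 → σ z = z ^ s)) ∧
    ∀ (σ : ℂ ≃+* ℂ) (j : ℕ), (∀ z : ℂ, z ^ (2 ^ n * m) = 1 → σ z = z ^ j) →
      ∀ x, σ (indFun A (extZ ψ) x) = indFun A (extZ (ψ ^ j)) x

end StarkC.ABS
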