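import Pool.Agent.ABS.RLZ
import Pool.Agent.ABS.StZG
import Pool.Agent.ABS.FIXC

/-!
# Project ABS: non-symplectic characters with nilpotent image are realizable (helper6)
-/

set_option autoImplicit false

open scoped Classical

namespace StarkC.ABS

namespace RLLx

open RLZx

/-! ### Induction of matrix representations -/

section Block

variable {G : Type} [Group G] {H : Subgroup G} {k : ℕ} (T : H →* Matrix (Fin k) (Fin k) ℂ)

/-- Extension by zero. -/
noncomputable def T0 (x : G) : Matrix (Fin k) (Fin k) ℂ := if h : x ∈ H then T ⟨x, h⟩ else 0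

theorem T0_mem {x : G} (hx : x ∈ H) : T0 T x = T ⟨x, hx⟩ := dif_pos hx

theorem T0_not {x : G} (hx : x ∉ H) : T0 T x = 0 := dif_neg hx

theorem T0_mul {x y : G} (hy : y ∈ H) : T0 T (x * y) = T0 T x * T0 T y := by
  by_cases hx : x ∈ H
  · rw [T0_mem T hx, T0_mem T hy, T0_mem T (H.mul_mem hx hy), ← map_mul]
    rfl
  · rw [T0_not T hx, T0_not T fun h => hx ((H.mul_mem_cancel_right hy).1 h), zero_mul]

theorem T0_conj {x y : G} (hy : y ∈ H) : (T0 T (y⁻¹ * x * y)).trace = (T0 T x).trace := by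
  by_cases hx : x ∈ H
  · have h1 : y⁻¹ * x * y ∈ H := H.mul_mem (H.mul_mem (H.inv_mem hy) hx) hy
    rw [T0_mem T hx, T0_mem T h1]
    have h2 : (⟨y⁻¹ * x * y, h1⟩ : H) = ⟨y, hy⟩⁻¹ * ⟨x, hx⟩ * ⟨y, hy⟩ := rfl
    rw [h2, map_mul, map_mul, Matrix.trace_mul_comm, ← mul_assoc, ← map_mul, mul_inv_cancel,
      map_one, one_mul]
  · rw [T0_not T hx, T0_not T fun h => hx ?_]
    have h1 := H.mul_mem (H.mul_mem hy h) (H.inv_mem hy)
    rwa [show y * (y⁻¹ * x * y) * y⁻¹ = x by group] at h1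

/-- The matrices of the induced representation. -/
noncomputable def MB (g : G) : Matrix ((G ⧸ H) × Fin k) ((G ⧸ H) × Fin k) ℂ :=
  fun p q => T0 T (p.1.out⁻¹ * g * q.1.out) p.2 q.2

theorem MB_one : MB T 1 = 1 := by
  ext ⟨a, i⟩ ⟨b, j⟩
  show T0 T (a.out⁻¹ * 1 * b.out) i j = _
  rw [mul_one]
  by_cases h : a = b
  · subst h
    rw [inv_mul_cancel, T0_mem T H.one_mem]
    have h2 : (⟨1, H.one_mem⟩ : H) = 1 := rfl
    rw [h2, map_one]
    by_cases hij : i = j
    · subst hij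
      rw [Matrix.one_apply_eq, Matrix.one_apply_eq]
    · rw [Matrix.one_apply_ne hij, Matrix.one_apply_ne fun h => hij (Prod.ext_iff.1 h).2]
  · rw [Matrix.one_apply_ne fun h' => h (Prod.ext_iff.1 h').1, T0_not]
    · rfl
    intro h1
    apply h
    rw [eq_of_mem h1]
    exact Quotient.out_eq b

theorem MB_mul [Fintype (G ⧸ H)] (g g' : G) : MB T (g * g') = MB T g * MB T g' := by
  ext ⟨a, i⟩ ⟨c, l⟩
  rw [Matrix.mul_apply, Fintype.sum_prod_type,
    Finset.sum_eq_single ((g' * c.out : G) : G ⧸ H)]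
  · have h1 : (((g' * c.out : G) : G ⧸ H).out)⁻¹ * g' * c.out ∈ H := by
      rw [mul_assoc]
      exact out_mem _
    have h2 := T0_mul T (x := a.out⁻¹ * g * ((g' * c.out : G) : G ⧸ H).out) h1
    show T0 T (a.out⁻¹ * (g * g') * c.out) i l = _
    rw [show a.out⁻¹ * (g * g') * c.out = a.out⁻¹ * g * ((g' * c.out : G) : G ⧸ H).out *
      (((g' * c.out : G) : G ⧸ H).out⁻¹ * g' * c.out) by group, h2, Matrix.mul_apply]
    rfl
  · intro b _ hb
    refine Finset.sum_eq_zero fun j _ => ?_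
    have h1 : MB T g' (b, j) (c, l) = 0 := by
      show T0 T (b.out⁻¹ * g' * c.out) j l = 0
      rw [T0_not T fun h => hb (by
        rw [mul_assoc] at h
        exact eq_of_mem h)]
      rfl
    rw [h1, mul_zero]
  · intro h
    exact absurd (Finset.mem_univ _) h

theorem MB_trace [Fintype G] [Fintype (G ⧸ H)] (g : G) :
    (MB T g).trace = indFun H (fun x => (T0 T x).trace) g := by
  have h1 : ∀ x : G, (if x⁻¹ * g * x ∈ H then (T0 T (x⁻¹ * g * x)).trace else 0) =
      (T0 T (x⁻¹ * g * x)).trace := fun x => by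
    split_ifs with h
    · rfl
    · rw [T0_not T h, Matrix.trace_zero]
  have h2 : ∑ x : G, (T0 T (x⁻¹ * g * x)).trace =
      ∑ p : (G ⧸ H) × H, (T0 T (p.1.out⁻¹ * g * p.1.out)).trace := by
    rw [← (bij (H := H)).sum_comp]
    refine Finset.sum_congr rfl fun p _ => ?_
    have h3 : (p.1.out * (p.2 : G))⁻¹ * g * (p.1.out * (p.2 : G)) =
        (p.2 : G)⁻¹ * (p.1.out⁻¹ * g * p.1.out) * (p.2 : G) := by group
    rw [h3, T0_conj T p.2.2]
  have h4 : indFun H (fun x => (T0 T x).trace) g =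
      (∑ x : G, (T0 T (x⁻¹ * g * x)).trace) / (Nat.card H : ℂ) := by
    unfold indFun
    congr 1
    exact Finset.sum_congr rfl fun x _ => h1 x
  have h5 : (Nat.card H : ℂ) ≠ 0 := Nat.cast_ne_zero.2 Nat.card_pos.ne'
  rw [h4, h2, Fintype.sum_prod_type, eq_div_iff h5, Matrix.trace, Fintype.sum_prod_type,
    Finset.sum_mul]
  refine Finset.sum_congr rfl fun a _ => ?_
  show (T0 T (a.out⁻¹ * g * a.out)).trace * (Nat.card H : ℂ) =
    ∑ _y : H, (T0 T (a.out⁻¹ * g * a.out)).trace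
  rw [Finset.sum_const, Finset.card_univ, Nat.card_eq_fintype_card, nsmul_eq_mul, mul_comm]

/-- Characters induced from matrix representations. -/
theorem realizable_block [Fintype G] (χ : G → ℂ)
    (hχ : ∀ g, χ g = indFun H (fun x => (T0 T x).trace) g)
    (hT : ∀ h i j, T h i j ∈ StarkP.charField χ) : StarkP.Realizable χ := by
  have : Fintype (G ⧸ H) := Fintype.ofFinite _
  let e : ((G ⧸ H) × Fin k) ≃ Fin (Fintype.card ((G ⧸ H) × Fin k)) := Fintype.equivFin _
  have h1 : Matrix.reindex e e (MB T 1) = 1 := by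
    rw [MB_one]
    simp
  have h2 : ∀ a b : G, Matrix.reindex e e (MB T (a * b)) =
      Matrix.reindex e e (MB T a) * Matrix.reindex e e (MB T b) := by
    intro a b
    rw [MB_mul]
    simp only [Matrix.reindex_apply]
    exact (Matrix.submatrix_mul_equiv _ _ _ _ _).symm
  let R : G →* Matrix (Fin (Fintype.card ((G ⧸ H) × Fin k)))
      (Fin (Fintype.card ((G ⧸ H) × Fin k))) ℂ :=
    MonoidHom.mk ⟨fun g => Matrix.reindex e e (MB T g), h1⟩ h2
  refine ⟨Fintype.card ((G ⧸ H) × Fin k), R, ?_, ?_⟩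
  · intro g i j
    show T0 T ((e.symm i).1.out⁻¹ * g * (e.symm j).1.out) (e.symm i).2 (e.symm j).2 ∈ _
    unfold T0
    split_ifs with h
    · exact hT _ _ _
    · exact zero_mem _
  · intro g
    rw [hχ, ← MB_trace]
    show ∑ i, MB T g (e.symm i) (e.symm i) = ∑ a, MB T g a a
    exact e.symm.sum_comp fun a => MB T g a a

end Block

/-! ### The leaf -/

section Lf

variable {G : Type} [Group G] {A : Subgroup G} (ψ : A →* ℂˣ)

/-- Matrices with respect to representatives. -/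
noncomputable def MM {ι : Type} (r : ι → G) (x : G) : Matrix ι ι ℂ :=
  fun a b => extZ ψ ((r a)⁻¹ * x * r b)

theorem MM_mul {ι : Type} [Fintype ι] (r : ι → G) (x y : G)
    (h : ∀ c, ∃ b, (r b)⁻¹ * (y * r c) ∈ A) (hu : ∀ b b', (r b)⁻¹ * r b' ∈ A → b = b') :
    MM ψ r (x * y) = MM ψ r x * MM ψ r y := by
  ext a c
  obtain ⟨b, hb⟩ := h c
  rw [Matrix.mul_apply, Finset.sum_eq_single b]
  · have h1 : (r b)⁻¹ * y * r c ∈ A := by
      rw [mul_assoc]
      exact hb
    show extZ ψ ((r a)⁻¹ * (x * y) * r c) = extZ ψ ((r a)⁻¹ * x * r b) * extZ ψ _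
    rw [← extZ_mul ψ h1]
    congr 1
    group
  · intro b' _ hb'
    have h1 : MM ψ r y b' c = 0 := extZ_not ψ fun h2 => hb' (by
      rw [mul_assoc] at h2
      apply hu
      have h3 := A.mul_mem h2 (A.inv_mem hb)
      rwa [show (r b')⁻¹ * (y * r c) * ((r b)⁻¹ * (y * r c))⁻¹ = (r b')⁻¹ * r b by group] at h3)
    rw [h1, mul_zero]
  · intro h1
    exact absurd (Finset.mem_univ _) h1

/-- `A ∪ g A`. -/
def A2 (A : Subgroup G) (g : G) (h1 : ∀ a ∈ A, g⁻¹ * a * g ∈ A) (h2 : g * g ∈ A) :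
    Subgroup G where
  carrier := {x | x ∈ A ∨ g⁻¹ * x ∈ A}
  one_mem' := Or.inl A.one_mem
  mul_mem' := by
    rintro x y (hx | hx) (hy | hy)
    · exact Or.inl (A.mul_mem hx hy)
    · right
      have h3 := A.mul_mem (h1 x hx) hy
      rwa [show g⁻¹ * x * g * (g⁻¹ * y) = g⁻¹ * (x * y) by group] at h3
    · right
      have h3 := A.mul_mem hx hy
      rwa [show g⁻¹ * x * y = g⁻¹ * (x * y) by group] at h3
    · left
      have h3 := A.mul_mem (A.mul_mem h2 (h1 _ hx)) hy
      rwa [show g * g * (g⁻¹ * (g⁻¹ * x) * g) * (g⁻¹ * y) = x * y by group] at h3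
  inv_mem' := by
    rintro x (hx | hx)
    · exact Or.inl (A.inv_mem hx)
    · right
      have h3 := A.mul_mem (h1 _ (A.inv_mem hx)) (A.inv_mem h2)
      rwa [show g⁻¹ * (g⁻¹ * x)⁻¹ * g * (g * g)⁻¹ = g⁻¹ * x⁻¹ by group] at h3

theorem card_A2 [Finite G] (g : G) (h1 : ∀ a ∈ A, g⁻¹ * a * g ∈ A) (h2 : g * g ∈ A)
    (hg : g ∉ A) : Nat.card (A2 A g h1 h2) = 2 * Nat.card A := by
  have h3 : ((A2 A g h1 h2 : Subgroup G) : Set G) = (A : Set G) ∪ (fun x => g * x) '' (A : Set G) := by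
    ext x
    constructor
    · rintro (hx | hx)
      · exact Or.inl hx
      · exact Or.inr ⟨_, hx, by simp⟩
    · rintro (hx | ⟨y, hy, rfl⟩)
      · exact Or.inl hx
      · right
        show g⁻¹ * (g * y) ∈ A
        rwa [inv_mul_cancel_left]
  have h4 : Disjoint (A : Set G) ((fun x => g * x) '' (A : Set G)) := by
    rw [Set.disjoint_left]
    rintro _ hx ⟨y, hy, rfl⟩
    exact hg ((A.mul_mem_cancel_right hy).1 hx)
  have h5 : ((A2 A g h1 h2 : Subgroup G) : Set G).ncard = (A : Set G).ncard + (A : Set G).ncard := by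
    rw [h3, Set.ncard_union_eq h4 (Set.toFinite _) (Set.toFinite _),
      Set.ncard_image_of_injective _ (mul_right_injective g)]
  rw [two_mul]
  exact h5

section Leaf

variable [Fintype G] {g : G} {n m s : ℕ} (hL : Leaf A ψ g n m s)

include hL

omit [Fintype G] in
theorem four_dvd : 4 ∣ s + 1 := by
  obtain ⟨hn, h⟩ := hL.tt
  have h4 : 4 ∣ 2 ^ n := by
    obtain ⟨k, rfl⟩ := Nat.exists_eq_add_of_le hn
    exact ⟨2 ^ k, by rw [pow_add]; norm_num⟩
  rcases h with h | ⟨hn3, h⟩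
  · exact h4.trans (Nat.dvd_of_mod_eq_zero h)
  · have h5 : 4 ∣ 2 ^ (n - 1) := by
      obtain ⟨k, rfl⟩ := Nat.exists_eq_add_of_le hn3
      exact ⟨2 ^ k, by rw [show 3 + k - 1 = k + 2 by omega, pow_add]; ring⟩
    rw [← Nat.div_add_mod (s + 1) (2 ^ n), h]
    exact dvd_add (h4.trans (dvd_mul_right _ _)) h5

omit [Fintype G] in
theorem s_pos : s ≠ 0 := by
  rintro rfl
  have := four_dvd ψ hL
  omega

theorem exists_ne : ∃ a : A, ((ψ a : ℂˣ) : ℂ) ^ s ≠ ((ψ a : ℂˣ) : ℂ) := by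
  by_contra h
  push Not at h
  have hs := s_pos ψ hL
  have h3 : orderOf ψ ∣ s - 1 := by
    apply orderOf_dvd_of_pow_eq_one
    ext a
    have h1 : (ψ a) ^ (s - 1) * ψ a = ψ a := by
      rw [← pow_succ, Nat.sub_add_cancel (Nat.one_le_iff_ne_zero.2 hs)]
      apply Units.ext
      rw [Units.val_pow_eq_pow_val]
      exact h a
    have h2 : (ψ a) ^ (s - 1) = 1 := mul_eq_right.1 h1
    exact congrArg Units.val h2
  rw [hL.ord] at h3
  have h4 : 4 ∣ 2 ^ n := by
    obtain ⟨k, hk⟩ := Nat.exists_eq_add_of_le hL.tt.1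
    exact ⟨2 ^ k, by rw [hk, pow_add]; norm_num⟩
  have h5 : 4 ∣ s - 1 := (h4.trans (dvd_mul_right _ _)).trans h3
  have h6 := four_dvd ψ hL
  omega

omit [Fintype G] in
theorem norm' {x : G} (hx : g⁻¹ * x * g ∈ A) : x ∈ A := by
  have h1 := A.mul_mem (A.mul_mem hL.mem (hL.norm _ hx)) (A.inv_mem hL.mem)
  rwa [show g * g * (g⁻¹ * (g⁻¹ * x * g) * g) * (g * g)⁻¹ = x by group] at h1

theorem extZ_g (x : G) : extZ ψ (g⁻¹ * x * g) = extZ ψ x ^ s := by
  by_cases hx : x ∈ A
  · rw [extZ_mem ψ hx, extZ_mem ψ (hL.norm x hx), ← Units.val_pow_eq_pow_val,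
      hL.conj ⟨x, hx⟩ ⟨_, hL.norm x hx⟩ rfl]
  · rw [extZ_not ψ hx, extZ_not ψ fun h => hx (norm' ψ hL h), zero_pow (s_pos ψ hL)]

omit [Fintype G] in
theorem extZ_gg : extZ ψ (g * g) = 1 := by
  rw [extZ_mem ψ hL.mem, hL.sq ⟨_, hL.mem⟩ rfl, Units.val_one]

theorem extZ_ss (x : G) : (extZ ψ x ^ s) ^ s = extZ ψ x := by
  rw [← extZ_g ψ hL, ← extZ_g ψ hL, show g⁻¹ * (g⁻¹ * x * g) * g = (g * g)⁻¹ * x * (g * g) by group,
    extZ_conj ψ hL.mem]

theorem g_not : g ∉ A := by
  intro hg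
  obtain ⟨a, ha⟩ := exists_ne ψ hL
  apply ha
  have h1 := extZ_g ψ hL (a : G)
  rw [extZ_conj ψ hg, extZ_mem ψ a.2] at h1
  exact h1.symm

omit [Fintype G] in
theorem D_mul (x : G) {y : G} (hy : y ∈ A2 A g hL.norm hL.mem) (hg : g ∉ A) :
    MM ψ ![1, g] (x * y) = MM ψ ![1, g] x * MM ψ ![1, g] y := by
  apply MM_mul
  · intro c
    have h0 : ∀ z, z ∈ A2 A g hL.norm hL.mem → ∃ b : Fin 2, (![1, g] b)⁻¹ * z ∈ A := by
      rintro z (hz | hz)
      · exact ⟨0, by simpa using hz⟩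
      · exact ⟨1, by simpa using hz⟩
    apply h0
    have hgm : g ∈ A2 A g hL.norm hL.mem := Or.inr (by simp)
    fin_cases c
    · simpa using hy
    · exact (A2 A g hL.norm hL.mem).mul_mem hy hgm
  · intro b b' h
    fin_cases b <;> fin_cases b'
    · rfl
    · exact absurd (by simpa using h) hg
    · exact absurd (by simpa using h) hg
    · rfl

theorem realizable (χ : G → ℂ) (hχ : χ = indFun A (extZ ψ))
    (hσ : ∀ σ : ℂ ≃+* ℂ, (∀ x, σ (χ x) = χ x) →
      (∀ a, σ ((ψ a : ℂˣ) : ℂ) = ((ψ a : ℂˣ) : ℂ)) ∨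
        ∀ a, σ ((ψ a : ℂˣ) : ℂ) = ((ψ a : ℂˣ) : ℂ) ^ s) : StarkP.Realizable χ := by
  have hg := g_not ψ hL
  obtain ⟨a₀, ha₀⟩ := exists_ne ψ hL
  set ζ : ℂ := ((ψ a₀ : ℂˣ) : ℂ) with hζ
  have hζs : (ζ ^ s) ^ s = ζ := by
    have h := extZ_ss ψ hL (a₀ : G)
    rwa [extZ_mem ψ a₀.2] at h
  have hd : ζ ^ s - ζ ≠ 0 := sub_ne_zero.2 ha₀
  let P : Matrix (Fin 2) (Fin 2) ℂ := !![1, ζ; 1, ζ ^ s]
  let Q : Matrix (Fin 2) (Fin 2) ℂ := (ζ ^ s - ζ)⁻¹ • !![ζ ^ s, -ζ; -1, 1]
  have hQP : Q * P = 1 := by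
    show ((ζ ^ s - ζ)⁻¹ • !![ζ ^ s, -ζ; -1, 1]) * !![1, ζ; 1, ζ ^ s] = 1
    rw [Matrix.smul_mul, Matrix.mul_fin_two, Matrix.one_fin_two, Matrix.smul_of]
    congr 1
    ext i j
    fin_cases i <;> fin_cases j
    · show (ζ ^ s - ζ)⁻¹ * (ζ ^ s * 1 + -ζ * 1) = 1
      rw [mul_one, mul_one, ← sub_eq_add_neg, inv_mul_cancel₀ hd]
    · show (ζ ^ s - ζ)⁻¹ * (ζ ^ s * ζ + -ζ * ζ ^ s) = 0
      ring
    · show (ζ ^ s - ζ)⁻¹ * (-1 * 1 + 1 * 1) = 0
      ring
    · show (ζ ^ s - ζ)⁻¹ * (-1 * ζ + 1 * ζ ^ s) = 1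
      rw [show -1 * ζ + 1 * ζ ^ s = ζ ^ s - ζ by ring, inv_mul_cancel₀ hd]
  have hPQ : P * Q = 1 := mul_eq_one_comm.1 hQP
  have hA := card_A2 g hL.norm hL.mem hg
  let B : Subgroup G := A2 A g hL.norm hL.mem
  let T : B →* Matrix (Fin 2) (Fin 2) ℂ := MonoidHom.mk
    ⟨fun x => Q * MM ψ ![1, g] (x : G) * P, by
      have h1 : MM ψ ![1, g] (1 : G) = 1 := by
        ext i j
        fin_cases i <;> fin_cases j
        · show extZ ψ (1⁻¹ * 1 * 1) = 1
          rw [inv_one, mul_one, mul_one, extZ_one]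
        · show extZ ψ (1⁻¹ * 1 * g) = 0
          rw [inv_one, mul_one, one_mul, extZ_not ψ hg]
        · show extZ ψ (g⁻¹ * 1 * 1) = 0
          rw [mul_one, mul_one, extZ_not ψ fun h => hg (by simpa using A.inv_mem h)]
        · show extZ ψ (g⁻¹ * 1 * g) = 1
          rw [mul_one, inv_mul_cancel, extZ_one]
      show Q * MM ψ ![1, g] (1 : G) * P = 1
      rw [h1, mul_one, hQP]⟩ (fun x y => by
      show Q * MM ψ ![1, g] ((x : G) * (y : G)) * P =
        (Q * MM ψ ![1, g] (x : G) * P) * (Q * MM ψ ![1, g] (y : G) * P)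
      rw [D_mul ψ hL _ y.2 hg]
      calc Q * (MM ψ ![1, g] (x : G) * MM ψ ![1, g] (y : G)) * P
          = Q * MM ψ ![1, g] (x : G) * 1 * (MM ψ ![1, g] (y : G) * P) := by
            simp only [mul_assoc, mul_one]
        _ = _ := by rw [← hPQ]; simp only [mul_assoc])
  have hT : ∀ x : B, T x = Q * MM ψ ![1, g] (x : G) * P := fun x => rfl
  refine realizable_block T χ ?_ ?_
  · -- the character
    intro x
    have h1 : ∀ z : G, (T0 T z).trace = extZ ψ z + extZ ψ (g⁻¹ * z * g) := by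
      intro z
      by_cases hz : z ∈ B
      · rw [T0_mem T hz, hT, Matrix.trace_mul_cycle, hPQ, one_mul, Matrix.trace_fin_two]
        show extZ ψ (1⁻¹ * z * 1) + extZ ψ (g⁻¹ * z * g) = _
        rw [inv_one, one_mul, mul_one]
      · rw [T0_not T hz, Matrix.trace_zero, extZ_not ψ fun h => hz (Or.inl h),
          extZ_not ψ fun h => hz (Or.inl (norm' ψ hL h)), add_zero]
    have h2 : ∀ z : G, (if z ∈ B then (T0 T z).trace else 0) =
        extZ ψ z + extZ ψ (g⁻¹ * z * g) := by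
      intro z
      split_ifs with hz
      · exact h1 z
      · rw [extZ_not ψ fun h => hz (Or.inl h),
          extZ_not ψ fun h => hz (Or.inl (norm' ψ hL h)), add_zero]
    have h3 : indFun B (fun x => (T0 T x).trace) x =
        (∑ y : G, (extZ ψ (y⁻¹ * x * y) + extZ ψ (g⁻¹ * (y⁻¹ * x * y) * g))) /
          (Nat.card B : ℂ) := by
      unfold indFun
      congr 1
      exact Finset.sum_congr rfl fun y _ => h2 _
    have h4 : ∑ y : G, extZ ψ (g⁻¹ * (y⁻¹ * x * y) * g) = ∑ y : G, extZ ψ (y⁻¹ * x * y) := by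
      rw [← Equiv.sum_comp (Equiv.mulRight g) (fun y => extZ ψ (y⁻¹ * x * y))]
      refine Finset.sum_congr rfl fun y _ => ?_
      rw [Equiv.coe_mulRight]
      congr 1
      group
    have h5 : indFun A (extZ ψ) x = (∑ y : G, extZ ψ (y⁻¹ * x * y)) / (Nat.card A : ℂ) := by
      unfold indFun
      congr 1
      refine Finset.sum_congr rfl fun y _ => ?_
      split_ifs with h
      · rfl
      · exact (extZ_not ψ h).symm
    have h6 : (Nat.card A : ℂ) ≠ 0 := Nat.cast_ne_zero.2 Nat.card_pos.ne'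
    have h7 : (Nat.card B : ℂ) = 2 * (Nat.card A : ℂ) := by
      rw [show Nat.card B = 2 * Nat.card A from hA]
      push_cast
      ring
    rw [hχ, h3, h5, Finset.sum_add_distrib, h4, h7, ← two_mul]
    field_simp
  · -- the entries
    intro x i j
    refine FIXCx.core (StarkP.charField χ).toSubfield _ fun σ hfix => ?_
    have hfix' : ∀ x, σ (χ x) = χ x := fun x =>
      hfix _ (IntermediateField.subset_adjoin ℚ _ (Set.mem_range_self x))
    have hmap : (T x).map σ = T x := by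
      have e1 : (T x).map σ = Q.map σ * (MM ψ ![1, g] (x : G)).map σ * P.map σ := by
        rw [hT]
        rw [show ((Q * MM ψ ![1, g] (x : G) * P).map σ) =
          (Q * MM ψ ![1, g] (x : G) * P).map (σ : ℂ →+* ℂ) from rfl, Matrix.map_mul,
          Matrix.map_mul]
        rfl
      rcases hσ σ hfix' with h | h
      · have h1 : ∀ z, σ (extZ ψ z) = extZ ψ z := by
          intro z
          by_cases hz : z ∈ A
          · rw [extZ_mem ψ hz, h]
          · rw [extZ_not ψ hz, map_zero]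
        have hP : P.map σ = P := by
          ext a b
          fin_cases a <;> fin_cases b
          · exact map_one σ
          · exact h a₀
          · exact map_one σ
          · show σ (ζ ^ s) = ζ ^ s
            rw [map_pow, h a₀]
        have hQ : Q.map σ = Q := by
          have h2 : Q.map σ * P = 1 := by
            have h3 : (Q * P).map (σ : ℂ →+* ℂ) = 1 := by rw [hQP]; simp
            rw [Matrix.map_mul] at h3
            have h4 : Q.map σ * P.map σ = 1 := h3
            rwa [hP] at h4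
          calc Q.map σ = Q.map σ * (P * Q) := by rw [hPQ, mul_one]
            _ = Q := by rw [← mul_assoc, h2, one_mul]
        have hD : (MM ψ ![1, g] (x : G)).map σ = MM ψ ![1, g] (x : G) := by
          ext a b
          exact h1 _
        rw [e1, hP, hQ, hD, hT]
      · have h1 : ∀ z, σ (extZ ψ z) = extZ ψ (g⁻¹ * z * g) := by
          intro z
          rw [extZ_g ψ hL]
          by_cases hz : z ∈ A
          · rw [extZ_mem ψ hz, h]
          · rw [extZ_not ψ hz, map_zero, zero_pow (s_pos ψ hL)]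
        let W : Matrix (Fin 2) (Fin 2) ℂ := !![0, 1; 1, 0]
        have hW : W * W = 1 := by
          show !![0, 1; 1, 0] * !![0, 1; 1, 0] = (1 : Matrix (Fin 2) (Fin 2) ℂ)
          rw [Matrix.mul_fin_two, Matrix.one_fin_two]
          simp
        have hP : P.map σ = W * P := by
          have h2 : W * P = !![1, ζ ^ s; 1, ζ] := by
            show !![0, 1; 1, 0] * !![1, ζ; 1, ζ ^ s] = _
            rw [Matrix.mul_fin_two]
            simp
          rw [h2]
          ext a b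
          fin_cases a <;> fin_cases b
          · exact map_one σ
          · exact h a₀
          · exact map_one σ
          · show σ (ζ ^ s) = ζ
            rw [map_pow, h a₀]
            exact hζs
        have hQ : Q.map σ = Q * W := by
          have h2 : Q.map σ * (W * P) = 1 := by
            have h3 : (Q * P).map (σ : ℂ →+* ℂ) = 1 := by rw [hQP]; simp
            rw [Matrix.map_mul] at h3
            have h4 : Q.map σ * P.map σ = 1 := h3
            rwa [hP] at h4
          calc Q.map σ = Q.map σ * (W * (P * Q) * W) := by rw [hPQ, mul_one, hW, mul_one]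
            _ = Q.map σ * (W * P) * (Q * W) := by simp only [mul_assoc]
            _ = Q * W := by rw [h2, one_mul]
        have hD : (MM ψ ![1, g] (x : G)).map σ = W * MM ψ ![1, g] (x : G) * W := by
          have h2 : MM ψ ![1, g] (x : G) = !![extZ ψ x, extZ ψ (x * g);
              extZ ψ (g⁻¹ * x), extZ ψ (g⁻¹ * x * g)] := by
            ext a b
            fin_cases a <;> fin_cases b
            · show extZ ψ (1⁻¹ * (x : G) * 1) = extZ ψ x
              rw [inv_one, one_mul, mul_one]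
            · show extZ ψ (1⁻¹ * (x : G) * g) = extZ ψ (x * g)
              rw [inv_one, one_mul]
            · show extZ ψ (g⁻¹ * (x : G) * 1) = extZ ψ (g⁻¹ * x)
              rw [mul_one]
            · rfl
          have h3 : W * MM ψ ![1, g] (x : G) * W = !![extZ ψ (g⁻¹ * x * g), extZ ψ (g⁻¹ * x);
              extZ ψ (x * g), extZ ψ x] := by
            rw [h2]
            show !![0, 1; 1, 0] * _ * !![0, 1; 1, 0] = _
            rw [Matrix.mul_fin_two, Matrix.mul_fin_two]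
            simp
          have e01 : extZ ψ (g⁻¹ * ((x : G) * g) * g) = extZ ψ (g⁻¹ * x) := by
            rw [show g⁻¹ * ((x : G) * g) * g = g⁻¹ * x * (g * g) by group, extZ_mul ψ hL.mem,
              extZ_gg ψ hL, mul_one]
          have e10 : extZ ψ (g⁻¹ * (g⁻¹ * (x : G)) * g) = extZ ψ (x * g) := by
            have h4 := extZ_conj ψ (x := (x : G) * g) hL.mem
            rw [← h4, show (g * g)⁻¹ * ((x : G) * g) * (g * g) =
              g⁻¹ * (g⁻¹ * (x : G)) * g * (g * g) by group, extZ_mul ψ hL.mem, extZ_gg ψ hL,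
              mul_one]
          have e11 : extZ ψ (g⁻¹ * (g⁻¹ * (x : G) * g) * g) = extZ ψ x := by
            rw [show g⁻¹ * (g⁻¹ * (x : G) * g) * g = (g * g)⁻¹ * x * (g * g) by group,
              extZ_conj ψ hL.mem]
          rw [h3, h2]
          ext a b
          fin_cases a <;> fin_cases b
          · exact h1 _
          · exact (h1 _).trans e01
          · exact (h1 _).trans e10
          · exact (h1 _).trans e11
        rw [e1, hP, hQ, hD, hT]
        calc Q * W * (W * MM ψ ![1, g] (x : G) * W) * (W * P)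
            = Q * (W * W) * MM ψ ![1, g] (x : G) * (W * W) * P := by simp only [mul_assoc]
          _ = _ := by rw [hW, mul_one, mul_one]
    exact congrFun (congrFun hmap i) j

end Leaf

end Lf

end RLLx

/-- Characters as in the conclusion of ZOQ are realizable. -/
theorem realizable_OQ {G : Type} [Group G] [Fintype G] (χ : G → ℂ)
    (h : (∃ (H : Subgroup G) (ψ : H →* ℂˣ), χ = indFun H (extZ ψ) ∧
      ∀ σ : ℂ ≃+* ℂ, (∀ g, σ (χ g) = χ g) →
        ∀ h, σ ((ψ h : ℂˣ) : ℂ) = ((ψ h : ℂˣ) : ℂ)) ∨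
    ∃ (A : Subgroup G) (ψ : A →* ℂˣ) (g : G) (n m s : ℕ), Leaf A ψ g n m s ∧
      χ = indFun A (extZ ψ) ∧
      ∀ σ : ℂ ≃+* ℂ, (∀ x, σ (χ x) = χ x) →
        (∀ a, σ ((ψ a : ℂˣ) : ℂ) = ((ψ a : ℂˣ) : ℂ)) ∨
          ∀ a, σ ((ψ a : ℂˣ) : ℂ) = ((ψ a : ℂˣ) : ℂ) ^ s) : StarkP.Realizable χ := by
  rcases h with ⟨H, ψ, h1, h2⟩ | ⟨A, ψ, g, n, m, s, hL, h1, h2⟩
  · refine realizable_ind H ψ χ h1 fun h => ?_
    refine FIXCx.core (StarkP.charField χ).toSubfield _ fun σ hfix => h2 σ (fun x => ?_) h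
    exact hfix _ (IntermediateField.subset_adjoin ℚ _ (Set.mem_range_self x))
  · exact RLLx.realizable ψ hL χ h1 h2

end StarkC.ABS
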