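import Pool.Agent.ABS.INI
import Pool.Agent.ABS.RLL
import Pool.Agent.ABS.ZDU

/-!
# Project ABS: Stark in norm is inductive if the field of values does not change (helper6)
-/

set_option autoImplicit false

open NumberField IsDedekindDomain
open scoped TensorProduct Classical

namespace StarkC.ABS

open StarkP (charField trChar rootField NormIn InC NilNS ProjIm IsInd HasImage Realizable)

namespace INJx

/-! ### Transport along an isomorphism of groups -/

section Transport

variable {G G' V : Type} [Group G] [Group G'] [AddCommGroup V] [Module ℂ V] (e : G ≃* G')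
  (ρ : Representation ℂ G' V)

/-- `ρ ∘ e`. -/
abbrev pb : Representation ℂ G V := MonoidHom.comp ρ (e : G →* G')

theorem pb_apply (g : G) : pb e ρ g = ρ (e g) := rfl

theorem pb_char (g : G) : (pb e ρ).character g = ρ.character (e g) := rfl

theorem pb_range : Set.range (pb e ρ).character = Set.range ρ.character := by
  have h : (pb e ρ).character = ρ.character ∘ e := rfl
  rw [h, e.surjective.range_comp]

theorem pb_charField : charField (pb e ρ).character = charField ρ.character := by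
  show IntermediateField.adjoin ℚ (Set.range (pb e ρ).character) = _
  rw [pb_range]
  rfl

theorem pb_irr (h : ρ.IsIrreducible) : (pb e ρ).IsIrreducible :=
  ZDUx.irr_of _ (ZDUx.nontrivial_of ρ h) fun W hW => ZDUx.sub_of ρ h W fun g v hv => by
    have h1 := hW (e.symm g) v hv
    rwa [pb_apply, e.apply_symm_apply] at h1

theorem pb_ker : (MonoidHom.ker (pb e ρ)).map (e : G →* G') = MonoidHom.ker ρ := by
  ext g
  rw [Subgroup.mem_map]
  constructor
  · rintro ⟨x, hx, rfl⟩
    exact hx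
  · intro hg
    refine ⟨e.symm g, ?_, e.apply_symm_apply g⟩
    rw [MonoidHom.mem_ker]
    show ρ (e (e.symm g)) = 1
    rw [e.apply_symm_apply]
    exact hg

/-- The isomorphism of the images. -/
noncomputable def pb_quot : G ⧸ MonoidHom.ker (pb e ρ) ≃* G' ⧸ MonoidHom.ker ρ :=
  QuotientGroup.congr _ _ e (pb_ker e ρ)

theorem pb_image (ℓ : ℕ) (h : HasImage ℓ ρ) : HasImage ℓ (pb e ρ) := by
  intro g
  obtain ⟨j, hj⟩ := h (e g)
  refine ⟨j, ?_⟩
  rw [pb_apply, map_pow]
  exact hj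

theorem pb_nilNS (h : NilNS ρ) : NilNS (pb e ρ) := by
  obtain ⟨h1, h2⟩ := h
  refine ⟨?_, ?_⟩
  · have h3 : Group.IsNilpotent (G' ⧸ MonoidHom.ker ρ) := h1
    exact Group.nilpotent_of_mulEquiv (pb_quot e ρ).symm
  · rintro ⟨B, hB1, hB2, hB3⟩
    refine h2 ⟨B, hB1, hB2, fun g hg v w => ?_⟩
    obtain ⟨j, hj⟩ := hg
    have h3 := hB3 (e.symm g) ⟨j, by rw [pb_apply, map_pow, e.apply_symm_apply]; exact hj⟩ v w
    rwa [pb_apply, e.apply_symm_apply] at h3

theorem pb_projIm (h : ProjIm ρ) : ProjIm (pb e ρ) := by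
  obtain ⟨k, i1, i2, h1⟩ := h
  refine ⟨k, i1, i2, ?_⟩
  rcases h1 with ⟨h1, ⟨h2⟩⟩ | h2
  · exact Or.inl ⟨h1, ⟨(pb_quot e ρ).trans h2⟩⟩
  · obtain ⟨h3⟩ := h2
    exact Or.inr ⟨(pb_quot e ρ).trans h3⟩

theorem pb_inC (h : InC ρ) : InC (pb e ρ) := by
  have hcf := pb_charField e ρ
  rcases h with ⟨h1, h2⟩ | ⟨h1, ℓ, j, hℓ, hℓ2, h2⟩
  · refine Or.inl ⟨pb_nilNS e ρ h1, ?_⟩
    rcases h2 with ⟨ℓ, hℓ, h2⟩ | h2
    · exact Or.inl ⟨ℓ, hℓ, pb_image e ρ ℓ h2⟩
    · right
      have key : ∀ F F' : IntermediateField ℚ ℂ, F = F' → IsCyclic (F ≃ₐ[ℚ] F) →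
          IsCyclic (F' ≃ₐ[ℚ] F') := by
        rintro F _ rfl h
        exact h
      exact key _ _ hcf.symm h2
  · exact Or.inr ⟨pb_projIm e ρ h1, ℓ, j, hℓ, hℓ2, by rw [hcf]; exact h2⟩

theorem real_pb (h : Realizable (pb e ρ).character) : Realizable ρ.character := by
  obtain ⟨d, R, h1, h2⟩ := h
  refine ⟨d, R.comp (e.symm : G' →* G), fun g i j => ?_, fun g => ?_⟩
  · rw [← pb_charField e ρ]
    exact h1 (e.symm g) i j
  · show (R (e.symm g)).trace = _
    rw [h2, pb_char, e.apply_symm_apply]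

theorem pb_trChar (g : G) : trChar (pb e ρ).character g = trChar ρ.character (e g) := by
  rw [INIx.trChar_eq, INIx.trChar_eq, pb_charField, pb_char]

end Transport

/-! ### Number fields -/

section Main

variable {K L : Type} [Field K] [NumberField K] [Field L] [NumberField L] [Algebra K L]
  [IsGalois K L]

omit [NumberField K] [IsGalois K L] in
theorem isTheta_sub (F : IntermediateField K L) {T : Set (HeightOneSpectrum (𝓞 L))}
    (Θ : ((L → ℝ) →₀ ℂ) →ₗ[ℂ] ((L → ℝ) →₀ ℂ)) (h : StarkP.IsTheta K T Θ) :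
    StarkP.IsTheta F T Θ :=
  ⟨fun g x hx => h.1 (g.restrictScalars K) x hx, h.2⟩

/-- Stark in norm for `τ` over the fixed field of `H` gives Stark in norm for `χ = Ind_H τ`, if
`ℚ(χ) = ℚ(τ)`. -/
theorem normIn_ind (S : Finset (HeightOneSpectrum (𝓞 K)))
    (Θ : ((L → ℝ) →₀ ℂ) →ₗ[ℂ] ((L → ℝ) →₀ ℂ))
    (hΘ : StarkP.IsTheta K (StarkP.aboveSet K L S) Θ) (E : IntermediateField ℚ ℂ)
    (H : Subgroup (L ≃ₐ[K] L))
    (W : Type) [AddCommGroup W] [Module ℂ W] [Module.Finite ℂ W] (τ : Representation ℂ H W)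
    (V : Type) [AddCommGroup V] [Module ℂ V] (ρ : Representation ℂ (L ≃ₐ[K] L) V)
    (hI : IsInd H τ ρ)
    (hN : ∀ S' : Finset (HeightOneSpectrum (𝓞 (IntermediateField.fixedField H))),
      StarkP.IsTheta (IntermediateField.fixedField H)
        (StarkP.aboveSet (IntermediateField.fixedField H) L S') Θ →
      NormIn E (pb (IntermediateField.subgroupEquivAlgEquiv H).symm τ).character
        (S' : Set (HeightOneSpectrum (𝓞 (IntermediateField.fixedField H)))) Θ) :
    NormIn E ρ.character (S : Set (HeightOneSpectrum (𝓞 K))) Θ := by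
  obtain ⟨S', hS'⟩ := IND.exists_S' (IntermediateField.fixedField H)
    (S : Set (HeightOneSpectrum (𝓞 K))) S.finite_toSet
  have hST : StarkP.aboveSet (IntermediateField.fixedField H) L
      (S' : Set (HeightOneSpectrum (𝓞 (IntermediateField.fixedField H)))) =
      StarkP.aboveSet K L (S : Set (HeightOneSpectrum (𝓞 K))) := hS'
  have hΘ' : StarkP.IsTheta (IntermediateField.fixedField H)
      (StarkP.aboveSet (IntermediateField.fixedField H) L
        (S' : Set (HeightOneSpectrum (𝓞 (IntermediateField.fixedField H))))) Θ := by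
    rw [hST]
    exact isTheta_sub _ Θ hΘ
  obtain ⟨F, α, hF, hα, hE⟩ := hN S' hΘ'
  obtain ⟨hcf, hchar⟩ := hI
  have hind : ρ.character = indFun H (fun g => if h : g ∈ H then τ.character ⟨g, h⟩ else 0) := by
    funext g
    rw [hchar g]
    unfold indFun
    congr 1
    refine Finset.sum_congr rfl fun x _ => ?_
    by_cases h : x⁻¹ * g * x ∈ H
    · rw [dif_pos h, if_pos h]
      show _ = dite _ _ _
      rw [dif_pos h]
    · rw [dif_neg h, if_neg h]
  have htr := INIx.trChar_ind H τ.character ρ.character hind hcf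
  set f : (L ≃ₐ[K] L) → ℂ := fun g => if h : g ∈ H then trChar τ.character ⟨g, h⟩ else 0 with hf
  set e := IntermediateField.subgroupEquivAlgEquiv H with he
  have hff : ∀ h : H, trChar (pb e.symm τ).character (e h) = f h := by
    intro h
    rw [pb_trChar, e.symm_apply_apply, hf]
    show _ = dite _ _ _
    rw [dif_pos h.2]
  refine ⟨F, α, ⟨hF.1, fun s hs => ?_⟩, hα, fun V₁ _ _ _ ρ₁ hρ₁ => ?_⟩
  · rw [hF.2 s hs]
    congr 1
    rw [htr]
    exact (INIx.logL_ind H f _ hff (S : Set (HeightOneSpectrum (𝓞 K)))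
      (S' : Set (HeightOneSpectrum (𝓞 (IntermediateField.fixedField H)))) s hS' hs).symm
  · obtain ⟨U, i1, i2, i3, κ, hκ⟩ := INIx.ex_tr (pb e.symm τ)
    have h1 := hE U κ hκ
    rw [hST] at h1
    have hTf : (aboveSet K L (S : Set (HeightOneSpectrum (𝓞 K)))).Finite :=
      IND.aboveSet_finite _ S.finite_toSet
    have hT : StableT K (aboveSet K L (S : Set (HeightOneSpectrum (𝓞 K)))) :=
      STB_thm K L (S : Set (HeightOneSpectrum (𝓞 K)))
    obtain ⟨φ, Θ₀, hφ, h2⟩ := StarkB.exists_phiTheta hT hTf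
      (StarkB.actU_mem' (S : Set (HeightOneSpectrum (𝓞 K)))) Θ hΘ
    have hb := ALLT.thb K L _ φ Θ₀ hTf hφ
    have hc := ALLT.thc K L _ hT φ Θ₀ hTf hφ
    have h3 : Reg (aboveSet K L (S : Set (HeightOneSpectrum (𝓞 K)))) ρ₁ Θ₀ =
        Reg (aboveSet K L (S : Set (HeightOneSpectrum (𝓞 K)))) κ Θ₀ :=
      INIx.reg_ind H f (trChar (pb e.symm τ).character) hff hTf hT Θ₀ hb hc V₁ ρ₁
        (hρ₁.trans htr) U κ hκ
    have h4 : StarkP.Reg (StarkP.aboveSet K L (S : Set (HeightOneSpectrum (𝓞 K)))) ρ₁ Θ =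
        Reg (aboveSet K L (S : Set (HeightOneSpectrum (𝓞 K)))) ρ₁ Θ₀ :=
      StarkB.Reg_eq ρ₁ Θ₀ Θ h2
    have h5 : StarkP.Reg (StarkP.aboveSet K L (S : Set (HeightOneSpectrum (𝓞 K)))) κ Θ =
        Reg (aboveSet K L (S : Set (HeightOneSpectrum (𝓞 K)))) κ Θ₀ :=
      StarkB.Reg_eq κ Θ₀ Θ h2
    rw [h4, h3, ← h5]
    exact h1

end Main

/-- Induced representations are realizable. -/
theorem real_ind {G : Type} [Group G] [Fintype G] (H : Subgroup G)
    (W : Type) [AddCommGroup W] [Module ℂ W] (τ : Representation ℂ H W)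
    (V : Type) [AddCommGroup V] [Module ℂ V] (ρ : Representation ℂ G V)
    (hI : IsInd H τ ρ) (hτ : Realizable τ.character) : Realizable ρ.character := by
  obtain ⟨hcf, hchar⟩ := hI
  obtain ⟨d, T, hT, htr⟩ := hτ
  refine RLLx.realizable_block T ρ.character (fun g => ?_) fun h i j => ?_
  · rw [hchar g]
    unfold indFun
    congr 1
    refine Finset.sum_congr rfl fun x _ => ?_
    by_cases h : x⁻¹ * g * x ∈ H
    · rw [dif_pos h, if_pos h]
      show _ = (RLLx.T0 T (x⁻¹ * g * x)).trace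
      rw [RLLx.T0_mem T h, htr]
    · rw [dif_neg h, if_neg h]
  · rw [← hcf]
    exact hT h i j

end INJx

end StarkC.ABS
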