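import Pool.Agent.ABS.PDefsF
import Pool.Agent.Stark.PBridge

/-!
# Project ABS: a place which splits completely

If some place in `S(L)` is fixed by no `g ≠ 1` in `Gal(L/K)`, then every irreducible `σ` which is not
trivial satisfies `OccursIn`.
-/

set_option autoImplicit false

open NumberField IsDedekindDomain
open scoped TensorProduct Classical

namespace StarkC.ABS

/-- An irreducible representation which is not trivial has no invariants. -/
theorem irr_inv_zero {G V : Type} [Group G] [AddCommGroup V] [Module ℂ V]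
    (σ : Representation ℂ G V) (hirr : σ.IsIrreducible) (hnt : ∃ g, σ g ≠ 1) (v : V)
    (hv : ∀ g, σ g v = v) : v = 0 := by
  let W : Subrepresentation σ := ⟨σ.invariants, fun g w hw => by
    rw [Representation.mem_invariants] at hw ⊢
    intro h
    rw [hw g, hw h]⟩
  rcases hirr.eq_bot_or_eq_top W with h4 | h4
  · have h5 : v ∈ W := (Representation.mem_invariants σ v).2 hv
    rw [h4] at h5
    exact h5
  · exfalso
    obtain ⟨g, hg⟩ := hnt
    apply hg
    ext1 w
    have h5 : w ∈ W := by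
      rw [h4]
      exact Submodule.mem_top
    exact (Representation.mem_invariants σ w).1 h5 g

section Split

variable {K L : Type} [Field K] [Field L] [NumberField L] [Algebra K L]
variable {V : Type} [AddCommGroup V] [Module ℂ V]

/-- The map `α ↦ ∑ α(σ(g) v) · g(a)`. -/
noncomputable def splitMap [Fintype (L ≃ₐ[K] L)] (σ : Representation ℂ (L ≃ₐ[K] L) V) (v : V)
    (a : L → ℝ) : Module.Dual ℂ V →ₗ[ℂ] ((L → ℝ) →₀ ℂ) :=
  ∑ g : L ≃ₐ[K] L, (Finsupp.lsingle (a ∘ (g : L ≃+* L).symm)).comp
    (LinearMap.applyₗ (σ g v) : Module.Dual ℂ V →ₗ[ℂ] ℂ)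

theorem splitMap_apply [Fintype (L ≃ₐ[K] L)] (σ : Representation ℂ (L ≃ₐ[K] L) V) (v : V)
    (a : L → ℝ) (α : Module.Dual ℂ V) : splitMap σ v a α =
      ∑ g : L ≃ₐ[K] L, Finsupp.single (a ∘ (g : L ≃+* L).symm) (α (σ g v)) := by
  unfold splitMap
  rw [LinearMap.sum_apply]
  rfl

theorem occ_of_split [Finite (L ≃ₐ[K] L)] (T : Set (HeightOneSpectrum (𝓞 L)))
    (hT : StableT K T) (hsp : StarkP.SplitPlace K T) (σ : Representation ℂ (L ≃ₐ[K] L) V)
    (hirr : σ.IsIrreducible) (hnt : ∃ g, σ g ≠ 1) : StarkP.OccursIn T σ := by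
  haveI := Fintype.ofFinite (L ≃ₐ[K] L)
  obtain ⟨a, ha, hst⟩ := hsp
  obtain ⟨v, hv⟩ : ∃ v : V, v ≠ 0 := by
    by_contra hcon
    push Not at hcon
    obtain ⟨g, hg⟩ := hnt
    apply hg
    ext1 w
    rw [hcon (σ g w)]
    exact (hcon w).symm
  -- injectivity of the orbit map
  have hinj : ∀ g : L ≃ₐ[K] L, a ∘ (g : L ≃+* L).symm = a → g = 1 := by
    intro g hg
    have h1 : g⁻¹ = 1 := hst g⁻¹ fun x => congrFun hg x
    exact inv_eq_one.1 h1
  refine ⟨splitMap σ v a, ?_, ?_, ?_⟩
  · intro h0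
    obtain ⟨α, hα⟩ : ∃ α : Module.Dual ℂ V, α v ≠ 0 := by
      by_contra hcon
      push Not at hcon
      exact hv ((Module.forall_dual_apply_eq_zero_iff ℂ v).1 hcon)
    apply hα
    have h1 : splitMap σ v a α a = 0 := by
      rw [h0]
      rfl
    rw [splitMap_apply, Finsupp.finsetSum_apply, Finset.sum_eq_single (1 : L ≃ₐ[K] L)] at h1
    · have h2 : a ∘ ((1 : L ≃ₐ[K] L) : L ≃+* L).symm = a := by
        funext x
        rfl
      rw [h2, Finsupp.single_eq_same, map_one] at h1
      exact h1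
    · intro g _ hg
      rw [Finsupp.single_apply, if_neg]
      intro h2
      exact hg (hinj g h2)
    · intro h2
      exact absurd (Finset.mem_univ _) h2
  · intro α
    rw [splitMap_apply]
    refine Submodule.mem_inf.2 ⟨?_, ?_⟩
    · refine Submodule.sum_mem _ fun g _ => ?_
      rw [Finsupp.mem_supported]
      intro b hb
      have h1 := Finsupp.support_single_subset (Finset.mem_coe.1 hb)
      rw [Finset.mem_singleton] at h1
      rw [h1]
      exact hT g a ha
    · rw [LinearMap.mem_ker, map_sum]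
      have h1 : ∀ g : L ≃ₐ[K] L, Finsupp.linearCombination ℂ (fun _ : L → ℝ => (1 : ℂ))
          (Finsupp.single (a ∘ (g : L ≃+* L).symm) (α (σ g v))) = α (σ g v) := by
        intro g
        rw [Finsupp.linearCombination_single, smul_eq_mul, mul_one]
      rw [Finset.sum_congr rfl fun g _ => h1 g, ← map_sum]
      have h2 : ∑ g : L ≃ₐ[K] L, σ g v = 0 := by
        refine irr_inv_zero σ hirr hnt _ fun h => ?_
        rw [map_sum]
        refine Fintype.sum_equiv (Equiv.mulLeft h) _ _ fun g => ?_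
        show σ h (σ g v) = σ (h * g) v
        rw [map_mul]
        rfl
      rw [h2, map_zero]
  · intro h α
    rw [splitMap_apply, splitMap_apply, map_sum]
    symm
    refine Fintype.sum_equiv (Equiv.mulLeft h) _ _ fun g => ?_
    have h1 : StarkP.act (h : L ≃+* L) (Finsupp.single (a ∘ (g : L ≃+* L).symm) (α (σ g v))) =
        Finsupp.single ((a ∘ (g : L ≃+* L).symm) ∘ (h : L ≃+* L).symm) (α (σ g v)) := by
      show Finsupp.mapDomain _ _ = _
      rw [Finsupp.mapDomain_single]
    rw [h1]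
    have h2 : (σ.dual h α) (σ (h * g) v) = α (σ g v) := by
      rw [Representation.dual_apply]
      show α (σ h⁻¹ (σ (h * g) v)) = α (σ g v)
      have h3 : σ h⁻¹ (σ (h * g) v) = σ (h⁻¹ * (h * g)) v := by
        rw [map_mul σ h⁻¹]
        rfl
      rw [h3, inv_mul_cancel_left]
    show _ = Finsupp.single (a ∘ ((h * g : L ≃ₐ[K] L) : L ≃+* L).symm) ((σ.dual h α) (σ (h * g) v))
    rw [h2]
    rfl

end Split

/-- The form for `aboveSet`. -/
theorem occ_of_split_above (K L : Type) [Field K] [NumberField K] [Field L] [NumberField L]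
    [Algebra K L] (S : Set (HeightOneSpectrum (𝓞 K))) {V : Type} [AddCommGroup V] [Module ℂ V]
    (hsp : StarkP.SplitPlace K (StarkP.aboveSet K L S)) (σ : Representation ℂ (L ≃ₐ[K] L) V)
    (hirr : σ.IsIrreducible) (hnt : ∃ g, σ g ≠ 1) :
    StarkP.OccursIn (StarkP.aboveSet K L S) σ :=
  occ_of_split _ (STB_thm K L S) hsp σ hirr hnt

end StarkC.ABS
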