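import Pool.Agent.ABS.OPM
import Pool.Agent.ABS.PDefsF
import Pool.Agent.ABS.HOF5
import Pool.Agent.ABS.HEP
import Pool.Agent.ABS.EXQ2
import Pool.Agent.ABS.HOL
import Pool.Agent.ABS.OCC
import Pool.Agent.ABS.OPI
import Pool.Agent.ABS.EXQ

/-!
# Project ABS: one `φ`, the printed theorem (helper6)
-/

set_option autoImplicit false

open NumberField IsDedekindDomain
open scoped Classical

namespace StarkC.ABS

open StarkP (charField rootField InB InK InH InSpan InRes Base HolIm NilNS ProjIm traceOver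
  indOf IsSub OccursIn MonComb Realizable NormIn)

/-! ### the class -/

namespace OPFx

/-- The cases of `Base`. -/
theorem cases_base {G V : Type} [Group G] [Fintype G] [AddCommGroup V] [Module ℂ V]
    [Module.Finite ℂ V] (ρ : Representation ℂ G V) (hirr : ρ.IsIrreducible)
    (F : IntermediateField ℚ ℂ) (hF : FiniteDimensional ℚ F) (h : Base F ρ) :
    InK ρ ∨ InB F ρ := by
  rcases h with ⟨ℓ, k, hℓ, hℓ2, h⟩ | ⟨h1, h2⟩ | ⟨h1, ℓ, j, hℓ, h2⟩ | ⟨h1, h2 | h2⟩ | ⟨h1, h2⟩ |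
    ⟨h1, ℓ, j, hℓ, hℓ2, h2⟩
  · left
    refine OPIx.inK_of_quot ρ fun ρ' _ => inK_of_inH _ V ρ' (inH_of_exp2 ρ' ℓ k hℓ hℓ2 fun q => ?_)
    induction q using QuotientGroup.induction_on with
    | H g =>
      rw [← QuotientGroup.mk_pow, QuotientGroup.eq_one_iff, MonoidHom.mem_ker, map_pow]
      exact h g
  · exact Or.inl (OPIx.inK_of_quot ρ fun ρ' _ => inK_of_inH _ V ρ' (inH_of_ppo ρ' h1 h2))
  · left
    refine OPIx.inK_of_quot ρ fun ρ' hρ' => inK_of_inH _ V ρ' (inH_of_EA' ρ' h1 ℓ j hℓ ?_)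
    have h3 := OPIx.inf_charField (QuotientGroup.mk' (MonoidHom.ker ρ))
      (QuotientGroup.mk'_surjective _) ρ'
    have h4 : OPIx.inf (QuotientGroup.mk' (MonoidHom.ker ρ)) ρ' = ρ := MonoidHom.ext hρ'
    rw [h4] at h3
    rw [← h3]
    exact h2
  · exact Or.inr (Or.inr (Or.inl ⟨h1, h2⟩))
  · exact Or.inr (Or.inl ⟨Or.inl h1, h2⟩)
  · exact Or.inr (Or.inl ⟨Or.inr h1, h2⟩)
  · exact Or.inr (base_holIm ρ hirr h1 F ℓ j hℓ hℓ2 h2)

theorem real_base {G V : Type} [Group G] [Fintype G] [AddCommGroup V] [Module ℂ V]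
    [Module.Finite ℂ V] (ρ : Representation ℂ G V) (hirr : ρ.IsIrreducible)
    (F : IntermediateField ℚ ℂ) (hF : FiniteDimensional ℚ F) (h : Base F ρ) :
    Realizable ρ.character := by
  rcases cases_base ρ hirr F hF h with h | h
  · exact real_inK ρ hirr h
  · exact real_inB F ρ hirr h

theorem real_inSpan {G V : Type} [Group G] [Fintype G] [AddCommGroup V] [Module ℂ V]
    [Module.Finite ℂ V] (ρ : Representation ℂ G V) (hirr : ρ.IsIrreducible) (h : InSpan ρ) :
    Realizable ρ.character := by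
  obtain ⟨m, H, W, i1, i2, i3, τ, c, hτ, hsum⟩ := h
  exact real_of_traces ρ.character ⟨V, inferInstance, inferInstance, inferInstance, ρ, hirr, rfl⟩ H
    (fun i => (τ i).character) c
    (fun i => real_base (τ i) (hτ i).1 _ (SOLBx.fin_char ρ) (hτ i).2) fun g => hsum g

/-- Norms from `F ∩ ℚ(τ)`. -/
theorem norm_pb (K L : Type) [Field K] [NumberField K] [Field L] [NumberField L] [Algebra K L]
    [IsGalois K L] (S : Finset (HeightOneSpectrum (𝓞 K)))
    (Θ : ((L → ℝ) →₀ ℂ) →ₗ[ℂ] ((L → ℝ) →₀ ℂ))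
    (hΘ : StarkP.IsTheta K (StarkP.aboveSet K L S) Θ) {H : Type} [Group H] [Fintype H]
    (e : (L ≃ₐ[K] L) ≃* H) (W : Type) [AddCommGroup W] [Module ℂ W] [Module.Finite ℂ W]
    (τ : Representation ℂ H W) (hτ : τ.IsIrreducible) (F : IntermediateField ℚ ℂ)
    (hF : FiniteDimensional ℚ F) (h : Base F τ) :
    NormIn (F ⊓ charField τ.character) (INJx.pb e τ).character
      (S : Set (HeightOneSpectrum (𝓞 K))) Θ := by
  have hcf := INJx.pb_charField e τ
  rcases cases_base τ hτ F hF h with h | h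
  · have h1 : InK (INJx.pb e τ) := OPIx.inK_infl (e : (L ≃ₐ[K] L) →* H) e.surjective τ h
    have h2 := OPKx.norm_inK K L S Θ hΘ W (INJx.pb e τ) h1
    rw [hcf] at h2
    exact FINZIx.normIn_le S Θ _ _ _ inf_le_right (SOLBx.fin_char τ) h2
  · have h2 := OPKx.norm_inB K L S Θ hΘ W (INJx.pb e τ) (INJx.pb_irr e τ hτ) F hF
      (OPKx.pb_inB e F τ h)
    rw [hcf] at h2
    exact h2

theorem norm_inSpan (K L : Type) [Field K] [NumberField K] [Field L] [NumberField L] [Algebra K L]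
    [IsGalois K L] (S : Finset (HeightOneSpectrum (𝓞 K)))
    (Θ : ((L → ℝ) →₀ ℂ) →ₗ[ℂ] ((L → ℝ) →₀ ℂ))
    (hΘ : StarkP.IsTheta K (StarkP.aboveSet K L S) Θ)
    (V : Type) [AddCommGroup V] [Module ℂ V] [Module.Finite ℂ V]
    (ρ : Representation ℂ (L ≃ₐ[K] L) V) (h : InSpan ρ) :
    NormIn (charField ρ.character) ρ.character (S : Set (HeightOneSpectrum (𝓞 K))) Θ := by
  obtain ⟨m, H, W, i1, i2, i3, τ, c, hτ, hsum⟩ := h
  have hfin := SOLBx.fin_char ρ
  have hn : 0 < Fintype.card (L ≃ₐ[K] L) := Fintype.card_pos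
  have hle := charField_le ρ (Fintype.card (L ≃ₐ[K] L)) hn fun g => by
    rw [← map_pow, pow_card_eq_one, map_one]
  have hgal : IsGalois ℚ (charField ρ.character) := galois_of_le _ hn _ hle
  exact COMx.normIn_comb S Θ hΘ m H W τ c ρ.character hfin hgal hsum fun i S' hΘ' =>
    norm_pb (IntermediateField.fixedField (H i)) L S' Θ hΘ'
      (IntermediateField.subgroupEquivAlgEquiv (H i)).symm (W i) (τ i) (hτ i).1 _ hfin (hτ i).2

/-- Solomon's theorem: `InRes` gives `InSpan`. -/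
theorem inSpan_of_inRes (G : Type) [Group G] [Fintype G] (V : Type)
    [AddCommGroup V] [Module ℂ V] [Module.Finite ℂ V] (ρ : Representation ℂ G V)
    (h : InRes ρ) : InSpan ρ := by
  obtain ⟨m, H, n, hH, hn⟩ := SOL_thm G
  have hfin := SOLBx.fin_char ρ
  have hcl : ∀ x g : G, ρ.character (x⁻¹ * g * x) = ρ.character g := by
    intro x g
    have := Representation.char_conj ρ g x⁻¹
    rwa [inv_inv] at this
  have hsum : ∀ g, ρ.character g =
      ∑ i, (n i : ℂ) * indOf (H i) (fun h : H i => ρ.character h) g := by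
    intro g
    calc ρ.character g = ρ.character g * 1 := (mul_one _).symm
      _ = ρ.character g * ∑ i, (n i : ℂ) * indFun (H i) (fun _ => 1) g := by rw [← hn g]
      _ = ∑ i, (n i : ℂ) * indOf (H i) (fun h : H i => ρ.character h) g := by
        rw [Finset.mul_sum]
        refine Finset.sum_congr rfl fun i _ => ?_
        rw [← SOLBx.ind_eq, ← BRA.mul_indFun_one (H i) _ hcl]
        ring
  have hdec : ∀ i, ∃ (k : ℕ) (τ : Fin k → (H i → ℂ)),
      (∀ j, IsCon (ρ.comp (H i).subtype) (τ j)) ∧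
      ∀ x : H i, ρ.character x = ∑ j, traceOver (charField ρ.character) (τ j) x := by
    intro i
    exact trace_dec (H i) V (ρ.comp (H i).subtype) (charField ρ.character) hfin fun x =>
      IntermediateField.subset_adjoin ℚ _ (Set.mem_range_self (x : G))
  choose k τ hτ hτs using hdec
  choose W iA iM iF σ hσi hσs hσc using hτ
  let e := (finSigmaFinEquiv (n := k)).symm
  refine ⟨∑ i, k i, fun a => H (e a).1, fun a => W (e a).1 (e a).2, fun a => iA (e a).1 (e a).2,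
    fun a => iM (e a).1 (e a).2, fun a => iF (e a).1 (e a).2, fun a => σ (e a).1 (e a).2,
    fun a => n (e a).1, fun a => ⟨hσi _ _, ?_⟩, fun g => ?_⟩
  · exact @h (H (e a).1) (hH _) (W (e a).1 (e a).2) (iA (e a).1 (e a).2) (iM (e a).1 (e a).2)
      (iF (e a).1 (e a).2) (σ (e a).1 (e a).2) (hσi _ _) (hσs _ _)
  · rw [hsum g]
    have h1 : ∀ i, indOf (H i) (fun h : H i => ρ.character h) g =
        ∑ j, indOf (H i) (traceOver (charField ρ.character) (τ i j)) g := by
      intro i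
      rw [← SOLBx.ind_sum]
      congr 1
      funext x
      exact hτs i x
    simp only [h1, Finset.mul_sum, hσc]
    have h2 := Fintype.sum_sigma' (fun (i : Fin m) (j : Fin (k i)) => (n i : ℂ) *
      indOf (H i) (traceOver (charField ρ.character) (τ i j)) g)
    rw [← h2]
    exact (Equiv.sum_comp e (fun a : (i : Fin m) × Fin (k i) => (n a.1 : ℂ) *
        indOf (H a.1) (traceOver (charField ρ.character) (τ a.1 a.2)) g)).symm

end OPFx

open OPFx

/-- The printed theorem. -/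
theorem mainF (K L : Type) [Field K] [NumberField K] [Field L] [NumberField L] [Algebra K L]
    [IsGalois K L] (S : Finset (HeightOneSpectrum (𝓞 K))) :
    ∃ Θ : ((L → ℝ) →₀ ℂ) →ₗ[ℂ] ((L → ℝ) →₀ ℂ), StarkP.IsTheta K (StarkP.aboveSet K L S) Θ ∧
      ∀ (V : Type) [AddCommGroup V] [Module ℂ V] [Module.Finite ℂ V]
        (ρ : Representation ℂ (L ≃ₐ[K] L) V),
        (∀ (W : Type) [AddCommGroup W] [Module ℂ W] [Module.Finite ℂ W]
          (σ : Representation ℂ (L ≃ₐ[K] L) W), σ.IsIrreducible → IsSub σ ρ →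
          (OccursIn (StarkP.aboveSet K L S) σ ∨
            (StarkP.SplitPlace K (StarkP.aboveSet K L S) ∧ ∃ g, σ g ≠ 1)) ∧
            (Base (charField σ.character) σ ∨ InSpan σ ∨ InRes σ)) →
        ((∀ g, ∃ q : ℚ, ρ.character g = (q : ℂ)) → ∃ F : ℂ → ℂ,
          StarkP.IsArtinL ρ.character S F ∧
          StarkP.Reg (StarkP.aboveSet K L S) ρ Θ = meromorphicTrailingCoeffAt F 0) ∧
        (((∀ g, ∃ q : ℚ, (ρ.character g).re = (q : ℝ)) ∨ (∀ g, ρ g ^ 6 = 1) ∨
            (∀ g, ρ g ^ 4 = 1)) →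
          ∀ F : ℂ → ℂ, StarkP.IsArtinL ρ.character S F →
          ‖StarkP.Reg (StarkP.aboveSet K L S) ρ Θ‖ = ‖meromorphicTrailingCoeffAt F 0‖) := by
  obtain ⟨Θ, hΘ, hex⟩ := finalR K L S
  have key : ∀ (W : Type) [AddCommGroup W] [Module ℂ W] [Module.Finite ℂ W]
      (σ : Representation ℂ (L ≃ₐ[K] L) W), σ.IsIrreducible →
      (OccursIn (StarkP.aboveSet K L S) σ ∨
        (StarkP.SplitPlace K (StarkP.aboveSet K L S) ∧ ∃ g, σ g ≠ 1)) ∧
        (Base (charField σ.character) σ ∨ InSpan σ ∨ InRes σ) →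
      StarkP.OccursIn (StarkP.aboveSet K L S) σ ∧ StarkP.Realizable σ.character ∧
      ∃ Θ' : ((L → ℝ) →₀ ℂ) →ₗ[ℂ] ((L → ℝ) →₀ ℂ),
        StarkP.IsTheta K (StarkP.aboveSet K L S) Θ' ∧
        StarkP.NormIn (StarkP.charField σ.character) σ.character
          (S : Set (HeightOneSpectrum (𝓞 K))) Θ' := by
    intro W _ _ _ σ hσ h
    have h0 : OccursIn (StarkP.aboveSet K L S) σ :=
      h.1.elim id fun h3 => occ_of_split_above K L S h3.1 σ hσ h3.2
    rcases h.2 with h2 | h2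
    · refine ⟨h0, real_base σ hσ _ (SOLBx.fin_char σ) h2, Θ, hΘ, ?_⟩
      have h3 := norm_pb K L S Θ hΘ (MulEquiv.refl (L ≃ₐ[K] L)) W σ hσ _ (SOLBx.fin_char σ) h2
      rw [inf_idem] at h3
      exact h3
    · have h1 : InSpan σ := h2.elim id fun h2 => inSpan_of_inRes _ W σ h2
      exact ⟨h0, real_inSpan σ hσ h1, Θ, hΘ, norm_inSpan K L S Θ hΘ W σ h1⟩
  refine ⟨Θ, hΘ, fun V _ _ _ ρ hcon => ⟨fun hq => ?_, fun hre F hF => ?_⟩⟩
  · exact hex V ρ hq fun W _ _ _ σ hσ hs => key W σ hσ (hcon W σ hσ hs)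
  · refine abs_re S Θ hΘ hex V ρ (fun W _ _ _ σ hσ hs => key W σ hσ (hcon W σ hσ hs)) ?_ F hF
    rcases hre with hre | h6 | h4
    · exact hre
    · exact EXQx.re_rational ρ 6 (Or.inr rfl) h6
    · exact EXQx.re_rational ρ 4 (Or.inl rfl) h4

end StarkC.ABS
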