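import Pool.Agent.ABS.PDefsF

/-!
# Definitions for the statement about one `φ`: the class of characters, short form
-/

open NumberField IsDedekindDomain

namespace StarkP

/-- `NilNS`, `ProjIm` or `HolIm`: the image of `ρ` is nilpotent and its `2`-part is not symplectic,
or it is `PSL₂(k)` or `PGL₂(k)`, or a semidirect product `A B` with `A` cyclic and `B` acting
faithfully on `A`. -/
def GoodIm {G V : Type} [Group G] [AddCommGroup V] [Module ℂ V] (ρ : Representation ℂ G V) : Prop :=
  NilNS ρ ∨ ProjIm ρ ∨ HolIm ρ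

/-- The character `χ` of `ρ` is an integral combination of characters induced from the traces over
`ℚ(χ)` of irreducible characters of subgroups as in `GoodIm`. -/
def SpanTr {G V : Type} [Group G] [Fintype G] [AddCommGroup V] [Module ℂ V]
    (ρ : Representation ℂ G V) : Prop :=
  ∃ (m : ℕ) (H : Fin m → Subgroup G) (W : Fin m → Type) (_ : ∀ i, AddCommGroup (W i))
    (_ : ∀ i, Module ℂ (W i)) (_ : ∀ i, Module.Finite ℂ (W i))
    (τ : ∀ i, Representation ℂ (H i) (W i)) (c : Fin m → ℤ),
    (∀ i, (τ i).IsIrreducible ∧ GoodIm (τ i)) ∧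
    ∀ g, ρ.character g =
      ∑ i, (c i : ℂ) * indOf (H i) (traceOver (charField ρ.character) (τ i).character) g

/-- The class of characters `χ`: (I) the exponent of the image divides `2q` for an odd prime power
`q = ℓ^k`; (II) all elements of the image have prime power order and no `2`-subgroup of it has a
symplectic character; or `ℚ(χ)` is contained in the field of the `q`-th roots of unity for some prime
power `q = ℓ^j` and (III) the Sylow subgroups of the image are elementary abelian, (IV) `GoodIm` or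
(V) `SpanTr`. -/
def InClass {G V : Type} [Group G] [Fintype G] [AddCommGroup V] [Module ℂ V]
    (ρ : Representation ℂ G V) : Prop :=
  (∃ ℓ k : ℕ, ℓ.Prime ∧ ℓ ≠ 2 ∧ ∀ g : G, ρ g ^ (2 * ℓ ^ k) = 1) ∨
  (PPO (G ⧸ MonoidHom.ker ρ) ∧ NoSymp (G ⧸ MonoidHom.ker ρ)) ∨
  ((∃ ℓ j : ℕ, ℓ.Prime ∧ charField ρ.character ≤ rootField (ℓ ^ j)) ∧
    (ElAb (G ⧸ MonoidHom.ker ρ) ∨ GoodIm ρ ∨ SpanTr ρ))

end StarkP
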