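import Pool.Agent.ABS.OPF
import Pool.Agent.ABS.PDefsH
import Pool.Agent.ABS.HOT5

/-!
# Project ABS: one `φ`, the printed theorem in the short form (helper6)
-/

set_option autoImplicit false

open NumberField IsDedekindDomain
open scoped Classical

namespace StarkC.ABS

open StarkP (charField rootField InB InK InH Base HolIm NilNS ProjIm traceOver GoodIm SpanTr InClass
  indOf IsSub OccursIn MonComb Realizable NormIn)

namespace OPHx

/-! ### `HolIm` -/

theorem inf_holIm {G Q : Type} [Group G] [Group Q] (e : G →* Q) (he : Function.Surjective e)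
    {V : Type} [AddCommGroup V] [Module ℂ V] (ρ : Representation ℂ Q V) (h : HolIm ρ) :
    HolIm (OPIx.inf e ρ) := by
  obtain ⟨q⟩ := OPIx.inf_quot e he ρ
  obtain ⟨A, B, hA, hc, hAB, hB⟩ := h
  refine ⟨A.map q.symm.toMonoidHom, B.map q.symm.toMonoidHom, ?_, ?_, ?_, ?_⟩
  · exact hA.map _ q.symm.surjective
  · have h1 : A.map q.symm.toMonoidHom ≃* A :=
      (A.equivMapOfInjective q.symm.toMonoidHom q.symm.injective).symm
    exact (isCyclic_of_surjective h1.symm h1.symm.surjective)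
  · rw [← Subgroup.map_sup, hAB, Subgroup.map_top_of_surjective _ q.symm.surjective]
  · rintro _ ⟨b, hb, rfl⟩ h
    have h1 : b = 1 := hB b hb fun a ha => by
      have h2 := h (q.symm a) ⟨a, ha, rfl⟩
      have h3 : q.symm (a * b) = q.symm (b * a) := by
        rw [map_mul, map_mul]
        exact h2
      exact q.symm.injective h3
    rw [h1, map_one]

theorem pb_good {G G' V : Type} [Group G] [Group G'] [AddCommGroup V] [Module ℂ V] (e : G ≃* G')
    (ρ : Representation ℂ G' V) (h : GoodIm ρ) : GoodIm (INJx.pb e ρ) := by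
  rcases h with h | h | h
  · exact Or.inl (INJx.pb_nilNS e ρ h)
  · exact Or.inr (Or.inl (INJx.pb_projIm e ρ h))
  · exact Or.inr (Or.inr (inf_holIm (e : G →* G') e.surjective ρ h))

theorem real_good {G V : Type} [Group G] [Fintype G] [AddCommGroup V] [Module ℂ V]
    [Module.Finite ℂ V] (ρ : Representation ℂ G V) (hirr : ρ.IsIrreducible) (h : GoodIm ρ) :
    Realizable ρ.character := by
  rcases h with h | h | h
  · exact real_NilNS ρ hirr h
  · exact real_ProjIm ρ hirr h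
  · have hb : FiniteDimensional ℚ (⊥ : IntermediateField ℚ ℂ) := inferInstance
    exact real_inB ⊥ ρ hirr (base_holIm ρ hirr h ⊥ 3 0 Nat.prime_three (by norm_num)
      (inf_le_left.trans bot_le))

theorem norm_good (K L : Type) [Field K] [NumberField K] [Field L] [NumberField L] [Algebra K L]
    [IsGalois K L] (S : Finset (HeightOneSpectrum (𝓞 K)))
    (Θ : ((L → ℝ) →₀ ℂ) →ₗ[ℂ] ((L → ℝ) →₀ ℂ))
    (hΘ : StarkP.IsTheta K (StarkP.aboveSet K L S) Θ)
    (V : Type) [AddCommGroup V] [Module ℂ V] [Module.Finite ℂ V]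
    (ρ : Representation ℂ (L ≃ₐ[K] L) V) (hirr : ρ.IsIrreducible) (h : GoodIm ρ)
    (E : IntermediateField ℚ ℂ) (hE : E ≤ charField ρ.character) (ℓ j : ℕ) (hℓ : ℓ.Prime)
    (hEj : E ≤ rootField (ℓ ^ j)) :
    NormIn E ρ.character (S : Set (HeightOneSpectrum (𝓞 K))) Θ := by
  rcases h with h | ⟨k, i1, i2, h⟩ | h
  · exact finZI K L S Θ hΘ V ρ hirr h E hE (Or.inr ⟨ℓ, j, hℓ, hEj⟩)
  · exact proj_norm conclD K L S Θ hΘ V ρ k hirr h E hE ℓ j hℓ hEj
  · by_cases h2 : ℓ = 2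
    · subst h2
      exact norm_hol2 K L S Θ hΘ V ρ hirr h E hE j hEj
    · have hfin := SOLBx.fin_char ρ
      have hEf : FiniteDimensional ℚ E :=
        FiniteDimensional.of_injective (IntermediateField.inclusion hE).toLinearMap
          (IntermediateField.inclusion_injective hE)
      have h3 : E ⊓ charField ρ.character = E := inf_eq_left.2 hE
      have h4 := OPKx.norm_inB K L S Θ hΘ V ρ hirr E hEf
        (base_holIm ρ hirr h E ℓ j hℓ h2 (by rw [h3]; exact hEj))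
      rwa [h3] at h4

theorem norm_span (K L : Type) [Field K] [NumberField K] [Field L] [NumberField L] [Algebra K L]
    [IsGalois K L] (S : Finset (HeightOneSpectrum (𝓞 K)))
    (Θ : ((L → ℝ) →₀ ℂ) →ₗ[ℂ] ((L → ℝ) →₀ ℂ))
    (hΘ : StarkP.IsTheta K (StarkP.aboveSet K L S) Θ)
    (V : Type) [AddCommGroup V] [Module ℂ V] [Module.Finite ℂ V]
    (ρ : Representation ℂ (L ≃ₐ[K] L) V) (h : SpanTr ρ) (ℓ j : ℕ) (hℓ : ℓ.Prime)
    (hF : charField ρ.character ≤ rootField (ℓ ^ j)) :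
    NormIn (charField ρ.character) ρ.character (S : Set (HeightOneSpectrum (𝓞 K))) Θ := by
  obtain ⟨m, H, W, i1, i2, i3, τ, c, hτ, hsum⟩ := h
  have hfin := SOLBx.fin_char ρ
  have hn : 0 < Fintype.card (L ≃ₐ[K] L) := Fintype.card_pos
  have hle := charField_le ρ (Fintype.card (L ≃ₐ[K] L)) hn fun g => by
    rw [← map_pow, pow_card_eq_one, map_one]
  have hgal : IsGalois ℚ (charField ρ.character) := galois_of_le _ hn _ hle
  refine COMx.normIn_comb S Θ hΘ m H W τ c ρ.character hfin hgal hsum fun i S' hΘ' => ?_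
  have hg : GoodIm (INJx.pb (IntermediateField.subgroupEquivAlgEquiv (H i)).symm (τ i)) :=
    pb_good _ (τ i) (hτ i).2
  exact norm_good (IntermediateField.fixedField (H i)) L S' Θ hΘ' (W i) _
    (INJx.pb_irr _ (τ i) (hτ i).1) hg _ (by rw [INJx.pb_charField]; exact inf_le_right) ℓ j hℓ
    (inf_le_left.trans hF)

theorem real_span {G V : Type} [Group G] [Fintype G] [AddCommGroup V] [Module ℂ V]
    [Module.Finite ℂ V] (ρ : Representation ℂ G V) (hirr : ρ.IsIrreducible) (h : SpanTr ρ) :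
    Realizable ρ.character := by
  obtain ⟨m, H, W, i1, i2, i3, τ, c, hτ, hsum⟩ := h
  exact real_of_traces ρ.character ⟨V, inferInstance, inferInstance, inferInstance, ρ, hirr, rfl⟩ H
    (fun i => (τ i).character) c (fun i => real_good (τ i) (hτ i).1 (hτ i).2) fun g => hsum g

theorem good_class (K L : Type) [Field K] [NumberField K] [Field L] [NumberField L] [Algebra K L]
    [IsGalois K L] (S : Finset (HeightOneSpectrum (𝓞 K)))
    (Θ : ((L → ℝ) →₀ ℂ) →ₗ[ℂ] ((L → ℝ) →₀ ℂ))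
    (hΘ : StarkP.IsTheta K (StarkP.aboveSet K L S) Θ)
    (V : Type) [AddCommGroup V] [Module ℂ V] [Module.Finite ℂ V]
    (ρ : Representation ℂ (L ≃ₐ[K] L) V) (hirr : ρ.IsIrreducible) (h : InClass ρ) :
    Realizable ρ.character ∧
      NormIn (charField ρ.character) ρ.character (S : Set (HeightOneSpectrum (𝓞 K))) Θ := by
  have hfin := SOLBx.fin_char ρ
  have key : Base (charField ρ.character) ρ → Realizable ρ.character ∧
      NormIn (charField ρ.character) ρ.character (S : Set (HeightOneSpectrum (𝓞 K))) Θ := by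
    intro hb
    refine ⟨OPFx.real_base ρ hirr _ hfin hb, ?_⟩
    have h3 := OPFx.norm_pb K L S Θ hΘ (MulEquiv.refl (L ≃ₐ[K] L)) V ρ hirr _ hfin hb
    rw [inf_idem] at h3
    exact h3
  rcases h with h | h | ⟨⟨ℓ, j, hℓ, hF⟩, h | h | h⟩
  · exact key (Or.inl h)
  · exact key (Or.inr (Or.inl h))
  · exact key (Or.inr (Or.inr (Or.inl ⟨h, ℓ, j, hℓ, hF⟩)))
  · exact ⟨real_good ρ hirr h, norm_good K L S Θ hΘ V ρ hirr h _ le_rfl ℓ j hℓ hF⟩
  · exact ⟨real_span ρ hirr h, norm_span K L S Θ hΘ V ρ h ℓ j hℓ hF⟩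

end OPHx

open OPHx

/-- The printed theorem. -/
theorem mainH (K L : Type) [Field K] [NumberField K] [Field L] [NumberField L] [Algebra K L]
    [IsGalois K L] (S : Finset (HeightOneSpectrum (𝓞 K))) :
    ∃ Θ : ((L → ℝ) →₀ ℂ) →ₗ[ℂ] ((L → ℝ) →₀ ℂ), StarkP.IsTheta K (StarkP.aboveSet K L S) Θ ∧
      ∀ (V : Type) [AddCommGroup V] [Module ℂ V] [Module.Finite ℂ V]
        (ρ : Representation ℂ (L ≃ₐ[K] L) V),
        (∀ (W : Type) [AddCommGroup W] [Module ℂ W] [Module.Finite ℂ W]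
          (σ : Representation ℂ (L ≃ₐ[K] L) W), σ.IsIrreducible → IsSub σ ρ →
          InClass σ ∧ (OccursIn (StarkP.aboveSet K L S) σ ∨
            (StarkP.SplitPlace K (StarkP.aboveSet K L S) ∧ ∃ g, σ g ≠ 1))) →
        ((∀ g, ∃ q : ℚ, ρ.character g = (q : ℂ)) → ∃ F : ℂ → ℂ,
          StarkP.IsArtinL ρ.character S F ∧
          StarkP.Reg (StarkP.aboveSet K L S) ρ Θ = meromorphicTrailingCoeffAt F 0) ∧
        (((∀ g, ∃ q : ℚ, (ρ.character g).re = (q : ℝ)) ∨ (∀ g, ρ g ^ 6 = 1)) →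
          ∀ F : ℂ → ℂ, StarkP.IsArtinL ρ.character S F →
          ‖StarkP.Reg (StarkP.aboveSet K L S) ρ Θ‖ = ‖meromorphicTrailingCoeffAt F 0‖) := by
  obtain ⟨Θ, hΘ, hex⟩ := finalR K L S
  have key : ∀ (W : Type) [AddCommGroup W] [Module ℂ W] [Module.Finite ℂ W]
      (σ : Representation ℂ (L ≃ₐ[K] L) W), σ.IsIrreducible →
      InClass σ ∧ (OccursIn (StarkP.aboveSet K L S) σ ∨
        (StarkP.SplitPlace K (StarkP.aboveSet K L S) ∧ ∃ g, σ g ≠ 1)) →
      StarkP.OccursIn (StarkP.aboveSet K L S) σ ∧ StarkP.Realizable σ.character ∧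
      ∃ Θ' : ((L → ℝ) →₀ ℂ) →ₗ[ℂ] ((L → ℝ) →₀ ℂ),
        StarkP.IsTheta K (StarkP.aboveSet K L S) Θ' ∧
        StarkP.NormIn (StarkP.charField σ.character) σ.character
          (S : Set (HeightOneSpectrum (𝓞 K))) Θ' := by
    intro W _ _ _ σ hσ h
    have h0 : OccursIn (StarkP.aboveSet K L S) σ :=
      h.2.elim id fun h3 => occ_of_split_above K L S h3.1 σ hσ h3.2
    obtain ⟨h1, h2⟩ := good_class K L S Θ hΘ W σ hσ h.1
    exact ⟨h0, h1, Θ, hΘ, h2⟩
  refine ⟨Θ, hΘ, fun V _ _ _ ρ hcon => ⟨fun hq => ?_, fun hre F hF => ?_⟩⟩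
  · exact hex V ρ hq fun W _ _ _ σ hσ hs => key W σ hσ (hcon W σ hσ hs)
  · refine abs_re S Θ hΘ hex V ρ (fun W _ _ _ σ hσ hs => key W σ hσ (hcon W σ hσ hs)) ?_ F hF
    rcases hre with hre | h6
    · exact hre
    · exact EXQx.re_rational ρ 6 (Or.inr rfl) h6

end StarkC.ABS
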