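import Pool.Agent.ABS.RLC

/-!
# Project ABS, part Z: restriction of scalars for matrix representations (helper63)
-/

set_option autoImplicit false

open scoped Classical

namespace StarkC.ABS

open StarkP (charField trChar Realizable)

/-- The trace of `F(τ)/F` applied to the values of `τ`: the sum of the conjugates of `τ` over `F`. -/
noncomputable def relTr {H : Type} (F : IntermediateField ℚ ℂ) (τ : H → ℂ) : H → ℂ := fun h =>
  ((Algebra.trace F (IntermediateField.adjoin F (Set.range τ))
    ⟨τ h, IntermediateField.subset_adjoin F _ (Set.mem_range_self h)⟩ : F) : ℂ)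

namespace RSCx

theorem le_adjoin {H : Type} (F : IntermediateField ℚ ℂ) (τ : H → ℂ) {x : ℂ}
    (hx : x ∈ charField τ) : x ∈ IntermediateField.adjoin F (Set.range τ) := by
  unfold StarkP.charField at hx
  induction hx using IntermediateField.adjoin_induction with
  | mem x hx => exact IntermediateField.subset_adjoin F _ hx
  | algebraMap q =>
    have h1 : algebraMap ℚ ℂ q = ((q : ℚ) : ℂ) := by simp
    rw [h1]
    exact SubfieldClass.ratCast_mem _ q
  | add x y _ _ hx hy => exact add_mem hx hy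
  | inv x _ hx => exact inv_mem hx
  | mul x y _ _ hx hy => exact mul_mem hx hy

end RSCx

open RSCx

/-- Restriction of scalars from `F(τ)` to `F`. -/
theorem exists_relTr {H : Type} [Group H] (F : IntermediateField ℚ ℂ) (τ : H → ℂ)
    (hfin : Module.Finite F (IntermediateField.adjoin F (Set.range τ)))
    (h : Realizable τ) :
    ∃ (d : ℕ) (R : H →* Matrix (Fin d) (Fin d) ℂ), (∀ x i j, R x i j ∈ F) ∧
      ∀ x, (R x).trace = relTr F τ x := by
  obtain ⟨d, R, hR, htr⟩ := h
  let L := IntermediateField.adjoin F (Set.range τ)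
  let b := Module.finBasis F L
  let n := Module.finrank F L
  -- the matrices over `L`
  let M : H →* Matrix (Fin d) (Fin d) L :=
    { toFun := fun g i j => ⟨R g i j, le_adjoin F τ (hR g i j)⟩
      map_one' := by
        ext i j
        show R 1 i j = ((1 : Matrix (Fin d) (Fin d) L) i j : ℂ)
        rw [map_one, Matrix.one_apply, Matrix.one_apply]
        by_cases h : i = j
        · rw [if_pos h, if_pos h]; rfl
        · rw [if_neg h, if_neg h]; rfl
      map_mul' := by
        intro x y
        ext i j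
        show R (x * y) i j = ((∑ k, (⟨R x i k, le_adjoin F τ (hR x i k)⟩ : L) *
          ⟨R y k j, le_adjoin F τ (hR y k j)⟩ : L) : ℂ)
        rw [map_mul, Matrix.mul_apply]
        push_cast
        rfl }
  let f : L →+* Matrix (Fin n) (Fin n) F := (Algebra.leftMulMatrix b : L →ₐ[F] _).toRingHom
  let g1 : Matrix (Fin d) (Fin d) L →+* Matrix (Fin d) (Fin d) (Matrix (Fin n) (Fin n) F) :=
    f.mapMatrix
  let g2 : Matrix (Fin d) (Fin d) (Matrix (Fin n) (Fin n) F) ≃+*
      Matrix (Fin d × Fin n) (Fin d × Fin n) F := Matrix.compRingEquiv _ _ _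
  let g3 : Matrix (Fin d × Fin n) (Fin d × Fin n) F ≃+*
      Matrix (Fin (d * n)) (Fin (d * n)) F :=
    (Matrix.reindexAlgEquiv F F finProdFinEquiv).toRingEquiv
  let g4 : Matrix (Fin (d * n)) (Fin (d * n)) F →+* Matrix (Fin (d * n)) (Fin (d * n)) ℂ :=
    RingHom.mapMatrix (algebraMap F ℂ)
  let Q : H →* Matrix (Fin (d * n)) (Fin (d * n)) ℂ :=
    (g4.comp (g3.toRingHom.comp (g2.toRingHom.comp g1))).toMonoidHom.comp M
  refine ⟨d * n, Q, fun x i j => ?_, fun x => ?_⟩
  · show algebraMap F ℂ (g3 (g2 (g1 (M x))) i j) ∈ F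
    exact (g3 (g2 (g1 (M x))) i j).2
  · have h1 : (Q x).trace = algebraMap F ℂ ((g3 (g2 (g1 (M x)))).trace) := by
      show (Matrix.map (g3 (g2 (g1 (M x)))) (algebraMap F ℂ)).trace = _
      unfold Matrix.trace
      rw [map_sum]
      rfl
    have h2 : (g3 (g2 (g1 (M x)))).trace = (g2 (g1 (M x))).trace := by
      show ∑ i, g2 (g1 (M x)) (finProdFinEquiv.symm i) (finProdFinEquiv.symm i) =
        ∑ i, g2 (g1 (M x)) i i
      exact Equiv.sum_comp finProdFinEquiv.symm fun i => g2 (g1 (M x)) i i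
    have h3 : (g2 (g1 (M x))).trace = ∑ i, (f (M x i i)).trace := by
      show ∑ p : Fin d × Fin n, f (M x p.1 p.1) p.2 p.2 = ∑ i, (f (M x i i)).trace
      rw [Fintype.sum_prod_type]
      rfl
    have h4 : ∀ i, (f (M x i i)).trace = Algebra.trace F L (M x i i) := fun i =>
      (Algebra.trace_eq_matrix_trace b (M x i i)).symm
    have h5 : ∑ i, M x i i = (⟨τ x, IntermediateField.subset_adjoin F _
        (Set.mem_range_self x)⟩ : L) := by
      apply Subtype.ext
      show ((∑ i, (⟨R x i i, le_adjoin F τ (hR x i i)⟩ : L) : L) : ℂ) = τ x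
      rw [← htr x]
      push_cast
      rfl
    rw [h1, h2, h3, Finset.sum_congr rfl fun i _ => h4 i, ← map_sum, h5]
    rfl

/-- The field `F(τ)` is finite over `F`. -/
theorem finite_adjoin {H : Type} [Group H] [Fintype H] (F : IntermediateField ℚ ℂ) (τ : H → ℂ)
    (h : Realizable τ) : Module.Finite F (IntermediateField.adjoin F (Set.range τ)) := by
  obtain ⟨d, R, -, htr⟩ := h
  have h1 : Finite (Set.range τ) := (Set.finite_range τ).to_subtype
  refine IntermediateField.finiteDimensional_adjoin fun z hz => ?_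
  obtain ⟨g, rfl⟩ := hz
  have h2 : IsIntegral ℚ (τ g) := by
    rw [← htr g, ← ZCJx.rep_character]
    exact ZTNx.int_char (ZCJx.rep R) g
  obtain ⟨p, hp, hp0⟩ := h2
  refine ⟨p.map (algebraMap ℚ F), hp.map _, ?_⟩
  rw [Polynomial.eval₂_map]
  have h3 : (algebraMap F ℂ).comp (algebraMap ℚ F) = algebraMap ℚ ℂ :=
    RingHom.ext_rat _ _
  rw [h3]
  exact hp0

/-- A matrix representation with the character `Ind_H (Tr_(F(τ)/F) τ)` and entries in `F`. -/
theorem exists_ind_relTr {G : Type} [Group G] [Fintype G] (F : IntermediateField ℚ ℂ)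
    (H : Subgroup G) (τ : H → ℂ) (h : Realizable τ) :
    ∃ (d : ℕ) (R : G →* Matrix (Fin d) (Fin d) ℂ), (∀ x i j, R x i j ∈ F) ∧
      ∀ g, (R g).trace = (∑ x : G, if h : x⁻¹ * g * x ∈ H then relTr F τ ⟨x⁻¹ * g * x, h⟩ else 0) /
        (Nat.card H : ℂ) := by
  obtain ⟨d, R, hR, htr⟩ := exists_relTr F τ (finite_adjoin F τ h) h
  obtain ⟨d', R', hR', htr'⟩ := RZI_thm G H d R F hR
  refine ⟨d', R', hR', fun g => ?_⟩
  rw [htr']
  unfold indFun extM
  congr 1
  refine Finset.sum_congr rfl fun x _ => ?_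
  by_cases hx : x⁻¹ * g * x ∈ H
  · rw [if_pos hx, dif_pos hx, dif_pos hx, htr]
  · rw [if_neg hx, dif_neg hx]

/-- An irreducible character `χ` which is an integral combination of characters induced from traces
over `ℚ(χ)` of realizable characters of subgroups is realizable. -/
theorem real_of_traces {G : Type} [Group G] [Fintype G] (χ : G → ℂ) (hχ : IrrCh χ) {r : ℕ}
    (H : Fin r → Subgroup G) (τ : ∀ i, H i → ℂ) (c : Fin r → ℤ) (hτ : ∀ i, Realizable (τ i))
    (h1 : ∀ g, χ g = ∑ i, (c i : ℂ) * ((∑ x : G, if h : x⁻¹ * g * x ∈ H i then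
      relTr (charField χ) (τ i) ⟨x⁻¹ * g * x, h⟩ else 0) / (Nat.card (H i) : ℂ))) :
    Realizable χ := by
  choose d R hR htr using fun i => exists_ind_relTr (charField χ) (H i) (τ i) (hτ i)
  refine real_of_sum χ hχ d R c hR fun g => ?_
  rw [h1 g]
  exact Finset.sum_congr rfl fun i _ => by rw [htr i g]

end StarkC.ABS
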