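import Pool.Agent.ABS.REP
import Pool.Agent.ABS.RSC
import Pool.Agent.ABS.PDefsE

/-!
# Project ABS, part Z: realizability for the class `InK` (helper63)
-/

set_option autoImplicit false

open scoped Classical

namespace StarkC.ABS

open StarkP (charField Realizable NilNS ProjIm InB InK traceOver indOf MonComb)

/-- Combinations of characters induced from `ψ` with `ψ^1 = 1` are combinations of permutation
characters. -/
theorem permC_of_monComb {G : Type} [Group G] [Fintype G] (θ : G → ℂ) (h : MonComb 1 θ) :
    PermC θ := by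
  obtain ⟨r, H, ψ, c, hψ, hsum⟩ := h
  refine ⟨r, H, c, fun g => ?_⟩
  rw [hsum g]
  refine Finset.sum_congr rfl fun i _ => ?_
  congr 1
  unfold StarkP.indChar indFun
  congr 1
  refine Finset.sum_congr rfl fun x _ => ?_
  by_cases hx : x⁻¹ * g * x ∈ H i
  · have h1 : ψ i = 1 := by rw [← pow_one (ψ i), hψ i]
    rw [dif_pos hx, if_pos hx, h1]
    rfl
  · rw [dif_neg hx, if_neg hx]

theorem real_inB {G V : Type} [Group G] [Fintype G] [AddCommGroup V] [Module ℂ V]
    [Module.Finite ℂ V] (F : IntermediateField ℚ ℂ) (ρ : Representation ℂ G V)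
    (hirr : ρ.IsIrreducible) (h : InB F ρ) : Realizable ρ.character := by
  rcases h with ⟨h | h, -⟩ | ⟨h, -⟩ | ⟨n, -, -, -, h⟩
  · exact real_NilNS ρ hirr h
  · exact real_ProjIm ρ hirr h
  · exact real_NilNS ρ hirr h
  · exact real_of_perm ρ.character ⟨V, inferInstance, inferInstance, inferInstance, ρ, hirr, rfl⟩
      (permC_of_monComb _ h)

theorem real_inK {G V : Type} [Group G] [Fintype G] [AddCommGroup V] [Module ℂ V]
    [Module.Finite ℂ V] (ρ : Representation ℂ G V) (hirr : ρ.IsIrreducible) (h : InK ρ) :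
    Realizable ρ.character := by
  obtain ⟨m, H, W, i1, i2, i3, τ, c, hτ, hsum⟩ := h
  exact real_of_traces ρ.character ⟨V, inferInstance, inferInstance, inferInstance, ρ, hirr, rfl⟩ H
    (fun i => (τ i).character) c (fun i => real_inB _ (τ i) (hτ i).1 (hτ i).2) fun g => hsum g

end StarkC.ABS
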