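import Pool.Agent.ABS.COM
import Pool.Agent.ABS.REK
import Pool.Agent.ABS.FINZI
import Pool.Agent.ABS.FINSN
import Pool.Agent.ABS.FIND
import Pool.Agent.ABS.SOLB
import Pool.Agent.ABS.SOLT3
import Pool.Agent.ABS.EXR
import Pool.Agent.ABS.FINO
import Pool.Agent.ABS.FINC3

/-!
# Project ABS: one `φ` for the class `InK` (helper6)
-/

set_option autoImplicit false

open NumberField IsDedekindDomain
open scoped TensorProduct Classical

namespace StarkC.ABS

open StarkP (charField trChar rootField NormIn NilNS ProjIm Realizable InB InK InH MonComb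
  traceOver indOf IsSub OccursIn)

namespace OPKx

/-! ### Transport along an isomorphism of groups -/

section Transport

variable {G G' : Type} [Group G] [Group G'] (e : G ≃* G')

theorem trace_congr (F : IntermediateField ℚ ℂ) {s s' : Set ℂ} (h : s = s') (z : ℂ)
    (hz : z ∈ IntermediateField.adjoin F s) (hz' : z ∈ IntermediateField.adjoin F s') :
    Algebra.trace F (IntermediateField.adjoin F s) ⟨z, hz⟩ =
      Algebra.trace F (IntermediateField.adjoin F s') ⟨z, hz'⟩ := by
  subst h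
  rfl

theorem pb_traceOver (F : IntermediateField ℚ ℂ) {V : Type} [AddCommGroup V] [Module ℂ V]
    (ρ : Representation ℂ G' V) :
    traceOver F (INJx.pb e ρ).character = fun g => traceOver F ρ.character (e g) := by
  funext g
  unfold traceOver
  congr 1
  exact trace_congr F (INJx.pb_range e ρ) _ _ _

theorem pb_ind [Fintype G] [Fintype G'] (H : Subgroup G') (ψ : H →* ℂˣ) (g : G) :
    StarkP.indChar (H.comap (e : G →* G')) (ψ.comp ((e : G →* G').subgroupComap H)) g =
      StarkP.indChar H ψ (e g) := by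
  unfold StarkP.indChar
  have hc : Nat.card (H.comap (e : G →* G')) = Nat.card H := by
    refine Nat.card_congr (Equiv.ofBijective ((e : G →* G').subgroupComap H) ⟨fun a b h => ?_,
      fun b => ?_⟩)
    · apply Subtype.ext
      exact e.injective (congrArg Subtype.val h)
    · refine ⟨⟨e.symm b, ?_⟩, ?_⟩
      · rw [Subgroup.mem_comap]
        show e (e.symm b) ∈ H
        rw [e.apply_symm_apply]
        exact b.2
      · apply Subtype.ext
        exact e.apply_symm_apply b
  rw [hc]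
  congr 1
  refine Fintype.sum_equiv e.toEquiv _ _ fun x => ?_
  have h1 : (e x)⁻¹ * e g * e x = e (x⁻¹ * g * x) := by rw [map_mul, map_mul, map_inv]
  show (if h : x⁻¹ * g * x ∈ H.comap (e : G →* G') then _ else 0) =
    if h : (e x)⁻¹ * e g * e x ∈ H then _ else 0
  by_cases h : e (x⁻¹ * g * x) ∈ H
  · have h2 : x⁻¹ * g * x ∈ H.comap (e : G →* G') := h
    have h3 : (e x)⁻¹ * e g * e x ∈ H := by rw [h1]; exact h
    rw [dif_pos h2, dif_pos h3]
    have h4 : ((e : G →* G').subgroupComap H) ⟨x⁻¹ * g * x, h2⟩ =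
        ⟨(e x)⁻¹ * e g * e x, h3⟩ := Subtype.ext h1.symm
    rw [MonoidHom.comp_apply, h4]
    rfl
  · have h2 : x⁻¹ * g * x ∉ H.comap (e : G →* G') := h
    have h3 : (e x)⁻¹ * e g * e x ∉ H := by rw [h1]; exact h
    rw [dif_neg h2, dif_neg h3]

theorem pb_monComb [Fintype G] [Fintype G'] (n : ℕ) (θ : G' → ℂ) (h : MonComb n θ) :
    MonComb n (fun g => θ (e g)) := by
  obtain ⟨r, H, ψ, c, h1, h2⟩ := h
  refine ⟨r, fun i => (H i).comap (e : G →* G'),
    fun i => (ψ i).comp ((e : G →* G').subgroupComap (H i)), c, fun i => ?_, fun g => ?_⟩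
  · ext x
    have h3 := DFunLike.congr_fun (h1 i) (((e : G →* G').subgroupComap (H i)) x)
    exact congrArg Units.val h3
  · show θ (e g) = _
    rw [h2 (e g)]
    exact Finset.sum_congr rfl fun i _ => by rw [pb_ind]

theorem pb_inB [Fintype G] [Fintype G'] (F : IntermediateField ℚ ℂ) {V : Type} [AddCommGroup V]
    [Module ℂ V] (ρ : Representation ℂ G' V) (h : InB F ρ) : InB F (INJx.pb e ρ) := by
  have hcf : F ⊓ charField ρ.character = F ⊓ charField (INJx.pb e ρ).character := by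
    rw [INJx.pb_charField e ρ]
  have key : ∀ E E' : IntermediateField ℚ ℂ, E = E' → IsCyclic (E ≃ₐ[ℚ] E) →
      IsCyclic (E' ≃ₐ[ℚ] E') := by
    rintro E _ rfl h
    exact h
  rcases h with ⟨h1, ℓ, j, hℓ, h2⟩ | ⟨h1, h2⟩ | ⟨n, h1, h2, h3, h4⟩
  · refine Or.inl ⟨?_, ℓ, j, hℓ, by rw [← hcf]; exact h2⟩
    rcases h1 with h1 | h1
    · exact Or.inl (INJx.pb_nilNS e ρ h1)
    · exact Or.inr (INJx.pb_projIm e ρ h1)
  · exact Or.inr (Or.inl ⟨INJx.pb_nilNS e ρ h1, key _ _ hcf h2⟩)
  · refine Or.inr (Or.inr ⟨n, h1, h2, ?_, ?_⟩)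
    · rw [pb_traceOver]
      exact pb_monComb e n _ h3
    · have h5 : trChar (INJx.pb e ρ).character = fun g => trChar ρ.character (e g) :=
        funext fun g => INJx.pb_trChar e ρ g
      rw [h5]
      exact pb_monComb e 1 _ h4

end Transport

/-! ### Stark in norm for the class -/

section Main

variable (K L : Type) [Field K] [NumberField K] [Field L] [NumberField L] [Algebra K L]
  [IsGalois K L] (S : Finset (HeightOneSpectrum (𝓞 K)))
  (Θ : ((L → ℝ) →₀ ℂ) →ₗ[ℂ] ((L → ℝ) →₀ ℂ))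

theorem norm_inB (hΘ : StarkP.IsTheta K (StarkP.aboveSet K L S) Θ)
    (V : Type) [AddCommGroup V] [Module ℂ V] [Module.Finite ℂ V]
    (ρ : Representation ℂ (L ≃ₐ[K] L) V) (hirr : ρ.IsIrreducible) (F : IntermediateField ℚ ℂ)
    (hF : FiniteDimensional ℚ F) (h : InB F ρ) :
    NormIn (F ⊓ charField ρ.character) ρ.character (S : Set (HeightOneSpectrum (𝓞 K))) Θ := by
  rcases h with ⟨h1, ℓ, j, hℓ, h2⟩ | ⟨h1, h2⟩ | h3
  · rcases h1 with h1 | ⟨k, i1, i2, h1⟩
    · exact finZI K L S Θ hΘ V ρ hirr h1 _ inf_le_right (Or.inr ⟨ℓ, j, hℓ, h2⟩)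
    · exact proj_norm conclD K L S Θ hΘ V ρ k hirr h1 _ inf_le_right ℓ j hℓ h2
  · exact finZI K L S Θ hΘ V ρ hirr h1 _ inf_le_right (Or.inl h2)
  · exact good_c3 S Θ hΘ V ρ hirr F hF h3

theorem norm_inK (hΘ : StarkP.IsTheta K (StarkP.aboveSet K L S) Θ)
    (V : Type) [AddCommGroup V] [Module ℂ V] [Module.Finite ℂ V]
    (ρ : Representation ℂ (L ≃ₐ[K] L) V) (h : InK ρ) :
    NormIn (charField ρ.character) ρ.character (S : Set (HeightOneSpectrum (𝓞 K))) Θ := by
  obtain ⟨m, H, W, i1, i2, i3, τ, c, hτ, hsum⟩ := h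
  have hfin := SOLBx.fin_char ρ
  have hn : 0 < Fintype.card (L ≃ₐ[K] L) := Fintype.card_pos
  have hle := charField_le ρ (Fintype.card (L ≃ₐ[K] L)) hn fun g => by
    rw [← map_pow, pow_card_eq_one, map_one]
  have hgal : IsGalois ℚ (charField ρ.character) := galois_of_le _ hn _ hle
  refine COMx.normIn_comb S Θ hΘ m H W τ c ρ.character hfin hgal hsum fun i S' hΘ' => ?_
  have h1 := norm_inB (IntermediateField.fixedField (H i)) L S' Θ hΘ' (W i)
    (INJx.pb (IntermediateField.subgroupEquivAlgEquiv (H i)).symm (τ i))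
    (INJx.pb_irr _ (τ i) (hτ i).1) (charField ρ.character) hfin (pb_inB _ _ (τ i) (hτ i).2)
  rw [INJx.pb_charField] at h1
  exact h1

end Main

end OPKx

end StarkC.ABS
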