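import Pool.Agent.ABS.PDefsH

/-!
# Definitions for the statement about one `φ`: the class of characters, final form
-/

open NumberField IsDedekindDomain

namespace StarkP

/-- The Sylow `p`-subgroups of `G` are elementary abelian for `p = 2` and for every prime `p` which
divides `r - 1` for some prime divisor `r` of the order of `G`. -/
def SylEl (G : Type) [Group G] : Prop :=
  ∀ p : ℕ, p.Prime → (p = 2 ∨ ∃ r : ℕ, r.Prime ∧ r ∣ Nat.card G ∧ p ∣ r - 1) →
    ∀ P : Subgroup G, IsPGroup p P →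
      (∀ x ∈ P, x ^ p = 1) ∧ ∀ x ∈ P, ∀ y ∈ P, x * y = y * x

/-- The class of characters `χ`: (I) the exponent of the image divides `2q` for an odd prime power
`q = ℓ^k`; (II) all elements of the image have prime power order and no `2`-subgroup of it has a
symplectic character; or `ℚ(χ)` is contained in the field of the `q`-th roots of unity for some prime
power `q = ℓ^j` and (III) the image is as in `SylEl`, (IV) `GoodIm` or (V) `SpanTr`. -/
def InCls {G V : Type} [Group G] [Fintype G] [AddCommGroup V] [Module ℂ V]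
    (ρ : Representation ℂ G V) : Prop :=
  (∃ ℓ k : ℕ, ℓ.Prime ∧ ℓ ≠ 2 ∧ ∀ g : G, ρ g ^ (2 * ℓ ^ k) = 1) ∨
  (PPO (G ⧸ MonoidHom.ker ρ) ∧ NoSymp (G ⧸ MonoidHom.ker ρ)) ∨
  ((∃ ℓ j : ℕ, ℓ.Prime ∧ charField ρ.character ≤ rootField (ℓ ^ j)) ∧
    (SylEl (G ⧸ MonoidHom.ker ρ) ∨ GoodIm ρ ∨ SpanTr ρ))

end StarkP
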