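import Pool.Agent.ABS.OPH
import Pool.Agent.ABS.EX6
import Pool.Agent.ABS.PDefsL

/-!
# Project ABS: groups whose Sylow `p`-subgroups are elementary abelian for `p = 2` and for the `p`
dividing `r - 1`, `r` a prime divisor of the order (helper6)
-/

set_option autoImplicit false

open NumberField IsDedekindDomain
open scoped Classical

namespace StarkC.ABS

open StarkP (charField rootField HolIm NilNS ProjIm traceOver GoodIm SpanTr indOf IsSub IsHyper SylEl
  InClass InCls OccursIn)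

namespace OPLx

/-- If the character is constant on a subgroup, the subgroup acts trivially. -/
theorem triv_of_char {G V : Type} [Group G] [Fintype G] [AddCommGroup V] [Module ℂ V]
    [Module.Finite ℂ V] (ρ : Representation ℂ G V) (N : Subgroup G)
    (h : ∀ n ∈ N, ρ.character n = ρ.character 1) (n : G) (hn : n ∈ N) : ρ n = 1 := by
  let κ : Representation ℂ N V := ρ.comp N.subtype
  have hcard : (Fintype.card N : ℂ) ≠ 0 := by exact_mod_cast Fintype.card_ne_zero
  have hinv : Invertible (Fintype.card N : ℂ) := invertibleOfNonzero hcard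
  have h1 : LinearMap.trace ℂ V κ.averageMap = Module.finrank ℂ κ.invariants :=
    κ.isProj_averageMap.trace
  have h2 : LinearMap.trace ℂ V κ.averageMap = Module.finrank ℂ V := by
    have h3 : κ.averageMap = ⅟(Fintype.card N : ℂ) • ∑ g : N, κ g := by
      unfold Representation.averageMap GroupAlgebra.average
      rw [map_smul, map_sum]
      congr 1
      refine Finset.sum_congr rfl fun g _ => ?_
      rw [MonoidAlgebra.of_apply, Representation.asAlgebraHom_single_one]
    rw [h3, map_smul, map_sum]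
    have h4 : ∀ g : N, LinearMap.trace ℂ V (κ g) = (Module.finrank ℂ V : ℂ) := by
      intro g
      have h5 : LinearMap.trace ℂ V (κ g) = ρ.character (g : G) := rfl
      rw [h5, h g g.2]
      show LinearMap.trace ℂ V (ρ 1) = _
      rw [map_one]
      exact LinearMap.trace_one ℂ V
    rw [Finset.sum_congr rfl fun g _ => h4 g, Finset.sum_const, nsmul_eq_mul, Finset.card_univ,
      smul_eq_mul, ← mul_assoc, invOf_mul_self, one_mul]
  have h3 : Module.finrank ℂ κ.invariants = Module.finrank ℂ V := by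
    exact_mod_cast h1.symm.trans h2
  have h4 : κ.invariants = ⊤ := Submodule.eq_top_of_finrank_eq h3
  refine LinearMap.ext fun v => ?_
  have h5 : v ∈ κ.invariants := by
    rw [h4]
    trivial
  exact h5 ⟨n, hn⟩

/-- `ρ` is trivial on the kernel of `ψ`. -/
theorem triv_of_psi {G V : Type} [Group G] [Fintype G] [AddCommGroup V] [Module ℂ V]
    [Module.Finite ℂ V] (ρ : Representation ℂ G V) {T P : Subgroup G} {ψ : T →* ℂˣ}
    (hol : HolD T ψ P) (hχ : ∀ g, ρ.character g = indFun T (extZ ψ) g) (t : T) (ht : ψ t = 1) :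
    ρ (t : G) = 1 := by
  have key : ∀ n ∈ ψ.ker.map T.subtype, ∀ x : G,
      (if x⁻¹ * n * x ∈ T then extZ ψ (x⁻¹ * n * x) else 0 : ℂ) = 1 := by
    rintro _ ⟨n, hn, rfl⟩ x
    have hn' : ψ n = 1 := hn
    obtain ⟨t, ht, y, hy, rfl⟩ := hol.gen x
    have h1 : (t * y)⁻¹ * (n : G) * (t * y) = y⁻¹ * (t⁻¹ * n * t) * y := by group
    have h2 : t⁻¹ * (n : G) * t ∈ T := hol.norm t n n.2
    have h3 : (t * y)⁻¹ * (n : G) * (t * y) ∈ T := hol.norm _ n n.2
    obtain ⟨s, hs⟩ := hol.act y hy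
    have h4 : ψ ⟨(t * y)⁻¹ * (n : G) * (t * y), h3⟩ = 1 := by
      rw [hs ⟨t⁻¹ * n * t, h2⟩ ⟨(t * y)⁻¹ * (n : G) * (t * y), h3⟩ h1]
      have h5 : (⟨t⁻¹ * (n : G) * t, h2⟩ : T) = ⟨t, ht⟩⁻¹ * n * ⟨t, ht⟩ := Subtype.ext rfl
      rw [h5, map_mul, map_mul, hn', mul_one, map_inv, inv_mul_cancel, one_pow]
    have h6 : (T.subtype n : G) = n := rfl
    rw [h6, if_pos h3]
    unfold extZ
    rw [dif_pos h3, h4, Units.val_one]
  refine triv_of_char ρ (ψ.ker.map T.subtype) (fun n hn => ?_) t ⟨t, ht, rfl⟩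
  rw [hχ, hχ]
  unfold indFun
  congr 1
  rw [Finset.sum_congr rfl fun x _ => key n hn x,
    Finset.sum_congr rfl fun x _ => key 1 (Subgroup.one_mem _) x]

/-- `HolD` gives `HolIm`. -/
theorem holIm_of_holD {G V : Type} [Group G] [Fintype G] [AddCommGroup V] [Module ℂ V]
    [Module.Finite ℂ V] (ρ : Representation ℂ G V) {T P : Subgroup G} {ψ : T →* ℂˣ}
    (hol : HolD T ψ P) (hχ : ∀ g, ρ.character g = indFun T (extZ ψ) g) : HolIm ρ := by
  have hT : T.Normal := ⟨fun t ht g => by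
    have := hol.norm g⁻¹ t ht
    rwa [inv_inv] at this⟩
  let q := QuotientGroup.mk' (MonoidHom.ker ρ)
  have hq : Function.Surjective q := QuotientGroup.mk'_surjective _
  have hqe : ∀ a b : G, q a = q b → ρ a = ρ b := by
    intro a b hab
    have h1 : a⁻¹ * b ∈ MonoidHom.ker ρ := QuotientGroup.eq.1 hab
    rw [MonoidHom.mem_ker, map_mul] at h1
    calc ρ a = ρ a * (ρ a⁻¹ * ρ b) := by rw [h1, mul_one]
      _ = ρ b := by rw [← mul_assoc, ← map_mul, mul_inv_cancel, map_one, one_mul]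
  refine ⟨T.map q, P.map q, hT.map q hq, ?_, ?_, ?_⟩
  · let f : T →* T.map q := q.subgroupMap T
    have hf : Function.Surjective f := q.subgroupMap_surjective T
    have hker : ψ.ker ≤ f.ker := by
      intro t ht
      have h1 : ρ (t : G) = 1 := triv_of_psi ρ hol hχ t ht
      refine Subtype.ext ?_
      show q (t : G) = 1
      exact (QuotientGroup.eq_one_iff _).2 h1
    have h1 : IsCyclic (T ⧸ ψ.ker) :=
      isCyclic_of_surjective (QuotientGroup.quotientKerEquivRange ψ).symm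
        (QuotientGroup.quotientKerEquivRange ψ).symm.surjective
    refine isCyclic_of_surjective (QuotientGroup.lift ψ.ker f hker) fun y => ?_
    obtain ⟨t, rfl⟩ := hf y
    exact ⟨QuotientGroup.mk t, rfl⟩
  · rw [← Subgroup.map_sup, eq_top_iff]
    rintro y -
    obtain ⟨g, rfl⟩ := hq y
    obtain ⟨t, ht, x, hx, rfl⟩ := hol.gen g
    exact ⟨t * x, Subgroup.mul_mem_sup ht hx, rfl⟩
  · rintro _ ⟨x, hx, rfl⟩ h
    have h1 : x = 1 := by
      refine hol.faith x hx fun a b hab => ?_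
      have h2 : ρ (b : G) = ρ (a : G) := by
        refine hqe _ _ ?_
        have h3 := h (q a) ⟨a, a.2, rfl⟩
        rw [hab, map_mul, map_mul, mul_assoc, h3, ← mul_assoc, ← map_mul, inv_mul_cancel, map_one,
          one_mul]
      have h4 : ρ ((a⁻¹ * b : T) : G) = 1 := by
        show ρ ((a : G)⁻¹ * b) = 1
        rw [map_mul, h2, ← map_mul, inv_mul_cancel, map_one]
      have h5 := FINZx.ker_triv ρ T ψ (funext hχ) _ h4
      rw [map_mul, map_inv, inv_mul_eq_one] at h5
      exact h5.symm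
    rw [h1, map_one]

/-- `p` does not divide `φ(m)`. -/
theorem not_dvd_totient (p m : ℕ) (hp : p.Prime) (hm : m ≠ 0) (h1 : ¬ p ∣ m)
    (h2 : ∀ r : ℕ, r.Prime → r ∣ m → ¬ p ∣ r - 1) : ¬ p ∣ Nat.totient m := by
  rw [Nat.totient_eq_prod_factorization hm]
  intro h
  obtain ⟨r, hr, h3⟩ := (Prime.dvd_finsetProd_iff hp.prime _).1 h
  have hr' : r ∈ m.primeFactors := by
    rwa [Nat.support_factorization] at hr
  have hrp := Nat.prime_of_mem_primeFactors hr'
  have hrm := Nat.dvd_of_mem_primeFactors hr'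
  rcases (Nat.Prime.dvd_mul hp).1 h3 with h4 | h4
  · have h5 := hp.dvd_of_dvd_pow h4
    exact h1 (h5.trans hrm)
  · exact h2 r hrp hrm h4

/-- A normal cyclic subgroup of index `p^n` is central if `p` does not divide the order of its
automorphism group. -/
theorem central_of_totient {G : Type} [Group G] [Finite G] (p n : ℕ) (C : Subgroup G)
    (hp : p.Prime) (hC : C.Normal) (hcyc : IsCyclic C) (hn : C.index = p ^ n)
    (h : ¬ p ∣ Nat.totient (Nat.card C)) : C ≤ Subgroup.center G := by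
  intro c hc
  rw [Subgroup.mem_center_iff]
  intro g
  have hcomm : ∀ a b : C, a * b = b * a := by
    obtain ⟨x, hx⟩ := hcyc.exists_generator
    intro a b
    obtain ⟨i, rfl⟩ := Subgroup.mem_zpowers_iff.1 (hx a)
    obtain ⟨j, rfl⟩ := Subgroup.mem_zpowers_iff.1 (hx b)
    rw [← zpow_add, ← zpow_add, add_comm]
  have h1 : (MulAut.conjNormal g : MulAut C) ^ p ^ n = 1 := by
    rw [← map_pow]
    have h2 : g ^ p ^ n ∈ C := by
      rw [← hn]
      exact C.pow_index_mem g
    ext x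
    rw [MulAut.conjNormal_apply]
    have h3 := congrArg Subtype.val (hcomm ⟨g ^ p ^ n, h2⟩ x)
    have h4 : g ^ p ^ n * (x : G) = x * g ^ p ^ n := h3
    rw [h4, mul_inv_cancel_right]
    rfl
  have h2 : (MulAut.conjNormal g : MulAut C) ^ Nat.totient (Nat.card C) = 1 := by
    have : Finite (MulAut C) := inferInstance
    rw [← IsCyclic.card_mulAut C]
    exact pow_card_eq_one'
  have h3 : (p ^ n).Coprime (Nat.totient (Nat.card C)) :=
    Nat.Coprime.pow_left n ((Nat.Prime.coprime_iff_not_dvd hp).2 h)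
  have h4 : (MulAut.conjNormal g : MulAut C) = 1 := by
    have h5 := Nat.dvd_gcd (orderOf_dvd_of_pow_eq_one h1) (orderOf_dvd_of_pow_eq_one h2)
    rw [h3.gcd_eq_one, Nat.dvd_one] at h5
    exact orderOf_eq_one_iff.1 h5
  have h5 : g * c * g⁻¹ = c := by
    have h6 := MulAut.conjNormal_apply g ⟨c, hc⟩
    rw [h4] at h6
    exact h6.symm
  calc g * c = g * c * g⁻¹ * g := by group
    _ = c * g := by rw [h5]

theorem sylEl_sub {G : Type} [Group G] [Finite G] (h : SylEl G) (H : Subgroup G) : SylEl H := by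
  intro p hp hc P hP
  have h1 : p = 2 ∨ ∃ r : ℕ, r.Prime ∧ r ∣ Nat.card G ∧ p ∣ r - 1 := by
    rcases hc with hc | ⟨r, h1, h2, h3⟩
    · exact Or.inl hc
    · exact Or.inr ⟨r, h1, h2.trans (Subgroup.card_subgroup_dvd_card H), h3⟩
  obtain ⟨h2, h3⟩ := h p hp h1 (P.map H.subtype) (hP.map H.subtype)
  refine ⟨fun x hx => ?_, fun x hx y hy => ?_⟩
  · exact Subtype.ext (h2 (x : G) ⟨x, hx, rfl⟩)
  · exact Subtype.ext (h3 (x : G) ⟨x, hx, rfl⟩ (y : G) ⟨y, hy, rfl⟩)

/-- Irreducible characters of hyperelementary groups as in `SylEl`. -/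
theorem good_of_syl {G V : Type} [Group G] [Fintype G] [AddCommGroup V] [Module ℂ V]
    [Module.Finite ℂ V] (ρ : Representation ℂ G V) (hirr : ρ.IsIrreducible) (hE : SylEl G)
    (hH : IsHyper G) : GoodIm ρ := by
  obtain ⟨p, C, hp, hC, hcyc, hpC, n, hn⟩ := hH
  by_cases hc : p = 2 ∨ ∃ r : ℕ, r.Prime ∧ r ∣ Nat.card G ∧ p ∣ r - 1
  · obtain ⟨T, P, ψ, hol, hχ⟩ := EX6x.holD_of_p G V ρ hirr p C hp hC hcyc hpC n hn (hE p hp hc)
    exact Or.inr (Or.inr (holIm_of_holD ρ hol hχ))
  · push Not at hc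
    refine Or.inl (EX6x.nilNS_central ρ hirr p C hp hc.1 hC hpC n hn ?_)
    refine central_of_totient p n C hp hC hcyc hn
      (not_dvd_totient p _ hp Nat.card_pos.ne' hpC fun r hr hrC => ?_)
    exact hc.2 r hr (hrC.trans (Subgroup.card_subgroup_dvd_card C))

/-- Solomon's theorem. -/
theorem spanTr_of_res (G : Type) [Group G] [Fintype G] (V : Type)
    [AddCommGroup V] [Module ℂ V] [Module.Finite ℂ V] (ρ : Representation ℂ G V)
    (h : ∀ H : Subgroup G, IsHyper H → ∀ (W : Type) [AddCommGroup W] [Module ℂ W]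
      [Module.Finite ℂ W] (τ : Representation ℂ H W), τ.IsIrreducible → GoodIm τ) :
    SpanTr ρ := by
  obtain ⟨m, H, n, hH, hn⟩ := SOL_thm G
  have hfin := SOLBx.fin_char ρ
  have hcl : ∀ x g : G, ρ.character (x⁻¹ * g * x) = ρ.character g := by
    intro x g
    have := Representation.char_conj ρ g x⁻¹
    rwa [inv_inv] at this
  have hsum : ∀ g, ρ.character g =
      ∑ i, (n i : ℂ) * indOf (H i) (fun h : H i => ρ.character h) g := by
    intro g
    calc ρ.character g = ρ.character g * 1 := (mul_one _).symm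
      _ = ρ.character g * ∑ i, (n i : ℂ) * indFun (H i) (fun _ => 1) g := by rw [← hn g]
      _ = ∑ i, (n i : ℂ) * indOf (H i) (fun h : H i => ρ.character h) g := by
        rw [Finset.mul_sum]
        refine Finset.sum_congr rfl fun i _ => ?_
        rw [← SOLBx.ind_eq, ← BRA.mul_indFun_one (H i) _ hcl]
        ring
  have hdec : ∀ i, ∃ (k : ℕ) (τ : Fin k → (H i → ℂ)),
      (∀ j, IsCon (ρ.comp (H i).subtype) (τ j)) ∧
      ∀ x : H i, ρ.character x = ∑ j, traceOver (charField ρ.character) (τ j) x := by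
    intro i
    exact trace_dec (H i) V (ρ.comp (H i).subtype) (charField ρ.character) hfin fun x =>
      IntermediateField.subset_adjoin ℚ _ (Set.mem_range_self (x : G))
  choose k τ hτ hτs using hdec
  choose W iA iM iF σ hσi hσs hσc using hτ
  let e := (finSigmaFinEquiv (n := k)).symm
  refine ⟨∑ i, k i, fun a => H (e a).1, fun a => W (e a).1 (e a).2, fun a => iA (e a).1 (e a).2,
    fun a => iM (e a).1 (e a).2, fun a => iF (e a).1 (e a).2, fun a => σ (e a).1 (e a).2,
    fun a => n (e a).1, fun a => ⟨hσi _ _, ?_⟩, fun g => ?_⟩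
  · exact @h (H (e a).1) (hH _) (W (e a).1 (e a).2) (iA (e a).1 (e a).2) (iM (e a).1 (e a).2)
      (iF (e a).1 (e a).2) (σ (e a).1 (e a).2) (hσi _ _)
  · rw [hsum g]
    have h1 : ∀ i, indOf (H i) (fun h : H i => ρ.character h) g =
        ∑ j, indOf (H i) (traceOver (charField ρ.character) (τ i j)) g := by
      intro i
      rw [← SOLBx.ind_sum]
      congr 1
      funext x
      exact hτs i x
    simp only [h1, Finset.mul_sum, hσc]
    have h2 := Fintype.sum_sigma' (fun (i : Fin m) (j : Fin (k i)) => (n i : ℂ) *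
      indOf (H i) (traceOver (charField ρ.character) (τ i j)) g)
    rw [← h2]
    exact (Equiv.sum_comp e (fun a : (i : Fin m) × Fin (k i) => (n a.1 : ℂ) *
        indOf (H a.1) (traceOver (charField ρ.character) (τ a.1 a.2)) g)).symm

theorem inf_good {G Q : Type} [Group G] [Group Q] (e : G →* Q) (he : Function.Surjective e)
    {V : Type} [AddCommGroup V] [Module ℂ V] (ρ : Representation ℂ Q V) (h : GoodIm ρ) :
    GoodIm (OPIx.inf e ρ) := by
  rcases h with h | h | h
  · exact Or.inl (OPIx.inf_nilNS e he ρ h)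
  · exact Or.inr (Or.inl (OPIx.inf_projIm e he ρ h))
  · exact Or.inr (Or.inr (OPHx.inf_holIm e he ρ h))

/-- Inflation. -/
theorem spanTr_infl {G Q : Type} [Group G] [Fintype G] [Group Q] [Fintype Q] (e : G →* Q)
    (he : Function.Surjective e) {V : Type} [AddCommGroup V] [Module ℂ V]
    (ρ : Representation ℂ Q V) (h : SpanTr ρ) : SpanTr (OPIx.inf e ρ) := by
  obtain ⟨m, H, W, i1, i2, i3, τ, c, hτ, hsum⟩ := h
  have hs : ∀ i, Function.Surjective (e.subgroupComap (H i)) := by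
    intro i y
    obtain ⟨x, hx⟩ := he y
    have hx' : x ∈ (H i).comap e := by
      rw [Subgroup.mem_comap, hx]
      exact y.2
    exact ⟨⟨x, hx'⟩, Subtype.ext hx⟩
  refine ⟨m, fun i => (H i).comap e, W, i1, i2, i3,
    fun i => OPIx.inf (e.subgroupComap (H i)) (τ i), c,
    fun i => ⟨NSYx.irr_comp (τ i) _ (hs i) (hτ i).1, inf_good _ (hs i) (τ i) (hτ i).2⟩,
    fun g => ?_⟩
  show ρ.character (e g) = _
  rw [hsum (e g), OPIx.inf_charField e he ρ]
  refine Finset.sum_congr rfl fun i _ => ?_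
  rw [← OPIx.indOf_infl e he, OPIx.inf_traceOver _ (hs i)]

/-- Groups as in `SylEl`. -/
theorem spanTr_of_syl {G V : Type} [Group G] [Fintype G] [AddCommGroup V] [Module ℂ V]
    [Module.Finite ℂ V] (ρ : Representation ℂ G V) (h : SylEl (G ⧸ MonoidHom.ker ρ)) :
    SpanTr ρ := by
  let ρ' : Representation ℂ (G ⧸ MonoidHom.ker ρ) V :=
    QuotientGroup.lift (MonoidHom.ker ρ) ρ fun _ hg => hg
  have h0 : SpanTr ρ' := by
    refine spanTr_of_res _ V ρ' fun H hH W _ _ _ τ hτ => ?_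
    exact good_of_syl τ hτ (sylEl_sub h H) hH
  exact spanTr_infl (QuotientGroup.mk' (MonoidHom.ker ρ)) (QuotientGroup.mk'_surjective _) ρ' h0

theorem inClass_of {G V : Type} [Group G] [Fintype G] [AddCommGroup V] [Module ℂ V]
    [Module.Finite ℂ V] (ρ : Representation ℂ G V) (h : InCls ρ) : InClass ρ := by
  rcases h with h | h | ⟨h0, h | h | h⟩
  · exact Or.inl h
  · exact Or.inr (Or.inl h)
  · exact Or.inr (Or.inr ⟨h0, Or.inr (Or.inr (spanTr_of_syl ρ h))⟩)
  · exact Or.inr (Or.inr ⟨h0, Or.inr (Or.inl h)⟩)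
  · exact Or.inr (Or.inr ⟨h0, Or.inr (Or.inr h)⟩)

end OPLx

open OPLx

/-- The printed theorem. -/
theorem mainL (K L : Type) [Field K] [NumberField K] [Field L] [NumberField L] [Algebra K L]
    [IsGalois K L] (S : Finset (HeightOneSpectrum (𝓞 K))) :
    ∃ Θ : ((L → ℝ) →₀ ℂ) →ₗ[ℂ] ((L → ℝ) →₀ ℂ), StarkP.IsTheta K (StarkP.aboveSet K L S) Θ ∧
      ∀ (V : Type) [AddCommGroup V] [Module ℂ V] [Module.Finite ℂ V]
        (ρ : Representation ℂ (L ≃ₐ[K] L) V),
        (∀ (W : Type) [AddCommGroup W] [Module ℂ W] [Module.Finite ℂ W]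
          (σ : Representation ℂ (L ≃ₐ[K] L) W), σ.IsIrreducible → IsSub σ ρ →
          InCls σ ∧ (OccursIn (StarkP.aboveSet K L S) σ ∨
            (StarkP.SplitPlace K (StarkP.aboveSet K L S) ∧ ∃ g, σ g ≠ 1))) →
        ((∀ g, ∃ q : ℚ, ρ.character g = (q : ℂ)) → ∃ F : ℂ → ℂ,
          StarkP.IsArtinL ρ.character S F ∧
          StarkP.Reg (StarkP.aboveSet K L S) ρ Θ = meromorphicTrailingCoeffAt F 0) ∧
        (((∀ g, ∃ q : ℚ, (ρ.character g).re = (q : ℝ)) ∨ (∀ g, ρ g ^ 6 = 1)) →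
          ∀ F : ℂ → ℂ, StarkP.IsArtinL ρ.character S F →
          ‖StarkP.Reg (StarkP.aboveSet K L S) ρ Θ‖ = ‖meromorphicTrailingCoeffAt F 0‖) := by
  obtain ⟨Θ, hΘ, h⟩ := mainH K L S
  refine ⟨Θ, hΘ, fun V _ _ _ ρ hcon => ?_⟩
  exact h V ρ fun W _ _ _ σ hσ hs => ⟨inClass_of σ (hcon W σ hσ hs).1, (hcon W σ hσ hs).2⟩

end StarkC.ABS
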