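import Pool.Agent.ABS.OPK

/-!
# Project ABS: one `φ`, exact for rational-valued characters and exact in absolute value for
characters with rational real part (helper6)
-/

set_option autoImplicit false

open NumberField IsDedekindDomain

namespace StarkC.ABS

open StarkP (charField trChar rootField NormIn Realizable InB InK InH IsSub OccursIn)

/-- The representations as in `InK` are good. -/
theorem good_inK (K L : Type) [Field K] [NumberField K] [Field L] [NumberField L] [Algebra K L]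
    [IsGalois K L] (S : Finset (HeightOneSpectrum (𝓞 K)))
    (W : Type) [AddCommGroup W] [Module ℂ W] [Module.Finite ℂ W]
    (σ : Representation ℂ (L ≃ₐ[K] L) W) (hσ : σ.IsIrreducible)
    (h : OccursIn (StarkP.aboveSet K L S) σ ∧ InK σ)
    (Θ : ((L → ℝ) →₀ ℂ) →ₗ[ℂ] ((L → ℝ) →₀ ℂ))
    (hΘ : StarkP.IsTheta K (StarkP.aboveSet K L S) Θ) :
    StarkP.OccursIn (StarkP.aboveSet K L S) σ ∧ StarkP.Realizable σ.character ∧
      ∃ Θ' : ((L → ℝ) →₀ ℂ) →ₗ[ℂ] ((L → ℝ) →₀ ℂ),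
        StarkP.IsTheta K (StarkP.aboveSet K L S) Θ' ∧
        StarkP.NormIn (StarkP.charField σ.character) σ.character
          (S : Set (HeightOneSpectrum (𝓞 K))) Θ' :=
  ⟨h.1, real_inK σ hσ h.2, Θ, hΘ, OPKx.norm_inK K L S Θ hΘ W σ h.2⟩

/-- One `φ` for all representations whose constituents occur and are as in `InK`. -/
theorem onePhi (K L : Type) [Field K] [NumberField K] [Field L] [NumberField L] [Algebra K L]
    [IsGalois K L] (S : Finset (HeightOneSpectrum (𝓞 K))) :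
    ∃ Θ : ((L → ℝ) →₀ ℂ) →ₗ[ℂ] ((L → ℝ) →₀ ℂ), StarkP.IsTheta K (StarkP.aboveSet K L S) Θ ∧
      ∀ (V : Type) [AddCommGroup V] [Module ℂ V] [Module.Finite ℂ V]
        (ρ : Representation ℂ (L ≃ₐ[K] L) V),
        (∀ (W : Type) [AddCommGroup W] [Module ℂ W] [Module.Finite ℂ W]
          (σ : Representation ℂ (L ≃ₐ[K] L) W), σ.IsIrreducible → IsSub σ ρ →
          OccursIn (StarkP.aboveSet K L S) σ ∧ InK σ) →
        ((∀ g, ∃ q : ℚ, ρ.character g = (q : ℂ)) → ∃ F : ℂ → ℂ,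
          StarkP.IsArtinL ρ.character S F ∧
          StarkP.Reg (StarkP.aboveSet K L S) ρ Θ = meromorphicTrailingCoeffAt F 0) ∧
        ((∀ g, ∃ q : ℚ, (ρ.character g).re = (q : ℝ)) → ∀ F : ℂ → ℂ,
          StarkP.IsArtinL ρ.character S F →
          ‖StarkP.Reg (StarkP.aboveSet K L S) ρ Θ‖ = ‖meromorphicTrailingCoeffAt F 0‖) := by
  obtain ⟨Θ, hΘ, hex⟩ := finalR K L S
  refine ⟨Θ, hΘ, fun V _ _ _ ρ hcon => ⟨fun hq => ?_, fun hre F hF => ?_⟩⟩
  · exact hex V ρ hq fun W _ _ _ σ hσ hs => good_inK K L S W σ hσ (hcon W σ hσ hs) Θ hΘ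
  · exact abs_re S Θ hΘ hex V ρ
      (fun W _ _ _ σ hσ hs => good_inK K L S W σ hσ (hcon W σ hσ hs) Θ hΘ) hre F hF

end StarkC.ABS
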