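import Pool.Agent.YNG.CB

/-!
# Project ABS: CM subfields and isomorphisms (helper6)
-/

set_option autoImplicit false

open NumberField
open scoped Classical

namespace StarkC.ABS

namespace XCTx

/-- A field isomorphic to a CM field is a CM field. -/
theorem cm_equiv (A B : Type) [Field A] [NumberField A] [Field B] [CharZero B] (e : A ≃+* B)
    (hA : IsCMField A) : IsCMField B := by
  let c : A ≃ₐ[maximalRealSubfield A] A := IsCMField.complexConj A
  have hc : ∀ (φ : A →+* ℂ) (x : A), φ (c x) = starRingEnd ℂ (φ x) := fun φ x =>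
    IsCMField.complexEmbedding_complexConj A φ x
  let j : B →+* B := (e : A →+* B).comp ((c : A →+* A).comp (e.symm : B →+* A))
  have hj : ∀ (ψ : B →+* ℂ) (x : B), ψ (j x) = star (ψ x) := by
    intro ψ x
    have h1 := hc (ψ.comp (e : A →+* B)) (e.symm x)
    have h2 : ψ (e (e.symm x)) = ψ x := by rw [RingEquiv.apply_symm_apply]
    change ψ (e (c (e.symm x))) = star (ψ (e (e.symm x))) at h1
    rw [h2] at h1
    exact h1
  have hne : ∃ x, j x ≠ x := by
    by_contra hcon
    push Not at hcon
    apply IsCMField.complexConj_ne_one A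
    ext x
    have h1 := hcon (e x)
    change e (c (e.symm (e x))) = e x at h1
    rw [RingEquiv.symm_apply_apply] at h1
    exact e.injective h1
  let φ₀ : A →+* ℂ := Classical.choice inferInstance
  let ψ₀ : B →+* ℂ := φ₀.comp (e.symm : B →+* A)
  refine Pool.Agent.YNG.CBx.cm_of B j ?_ ?_ ?_ ψ₀ fun x => (hj ψ₀ x).symm
  · intro x
    apply ψ₀.injective
    rw [hj, hj, star_star]
  · intro ψ x hx
    rw [← hj, hx]
  · intro ψ
    obtain ⟨x, hx⟩ := hne
    refine ⟨x, fun h => hx (ψ.injective ?_)⟩
    rw [hj, h]

section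

variable {K : Type} [Field K] [NumberField K]

/-- The image in the algebraic closure of a subfield of `F`. -/
noncomputable def img (hK : Module.finrank ℚ K = 1)
    (F : IntermediateField K (AlgebraicClosure K)) [NumberField F]
    (E : IntermediateField ℚ F) : IntermediateField K (AlgebraicClosure K) :=
  { E.toSubfield.map (algebraMap F (AlgebraicClosure K)) with
    algebraMap_mem' := by
      intro k
      have h1 : (⊥ : Subalgebra ℚ K) = ⊤ := Subalgebra.bot_eq_top_iff_finrank_eq_one.2 hK
      have hx : k ∈ (⊥ : Subalgebra ℚ K) := by rw [h1]; exact Algebra.mem_top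
      obtain ⟨q, rfl⟩ := Algebra.mem_bot.1 hx
      refine ⟨algebraMap ℚ F q, E.algebraMap_mem q, ?_⟩
      simp }

theorem mem_img (hK : Module.finrank ℚ K = 1)
    (F : IntermediateField K (AlgebraicClosure K)) [NumberField F]
    (E : IntermediateField ℚ F) (y : AlgebraicClosure K) :
    y ∈ img hK F E ↔ ∃ x ∈ E, algebraMap F (AlgebraicClosure K) x = y := Iff.rfl

theorem img_cm (hK : Module.finrank ℚ K = 1)
    (F : IntermediateField K (AlgebraicClosure K)) [NumberField F]
    (E : IntermediateField ℚ F) (hE : IsCMField E) : IsCMField (img hK F E) := by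
  let f : E →+* img hK F E :=
    { toFun := fun x => ⟨algebraMap F (AlgebraicClosure K) x, (mem_img hK F E _).2 ⟨x, x.2, rfl⟩⟩
      map_one' := Subtype.ext (by simp)
      map_mul' := fun a b => Subtype.ext (by simp)
      map_zero' := Subtype.ext (by simp)
      map_add' := fun a b => Subtype.ext (by simp) }
  have hf : Function.Bijective f := by
    refine ⟨f.injective, ?_⟩
    rintro ⟨y, hy⟩
    obtain ⟨x, hx, rfl⟩ := (mem_img hK F E y).1 hy
    exact ⟨⟨x, hx⟩, rfl⟩
  exact cm_equiv E (img hK F E) (RingEquiv.ofBijective f hf) hE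

/-- The largest CM subfield, in terms of the subfields of `F`. -/
theorem max_transport (hK : Module.finrank ℚ K = 1)
    (F E : IntermediateField K (AlgebraicClosure K)) [NumberField F]
    (hmax : ∀ E' : IntermediateField K (AlgebraicClosure K), E' ≤ F → IsCMField E' → E' ≤ E)
    (E' : IntermediateField ℚ F) (hE' : IsCMField E') (x : F) (hx : x ∈ E') :
    (x : AlgebraicClosure K) ∈ E := by
  have h1 : img hK F E' ≤ F := by
    intro y hy
    obtain ⟨z, -, rfl⟩ := (mem_img hK F E' y).1 hy
    exact z.2
  exact hmax _ h1 (img_cm hK F E' hE') ((mem_img hK F E' _).2 ⟨x, hx, rfl⟩)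

end

end XCTx

end StarkC.ABS
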