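import Pool.Agent.ABS.XCM
import Pool.Agent.ABS.XCT

/-!
# Project ABS: the index formula for fields with CM subfields, subfields of the algebraic closure
(helper6)
-/

set_option autoImplicit false

open NumberField IsDedekindDomain
open scoped Classical

namespace StarkC.ABS

open StarkP (InCls InClsS ConF IsSub OccursIn Lift Extends IsTheta PExt SplitPlace PPow)

namespace XCEx

open OPZx OPSx XRLx XCMx XCTx Pool.Agent.YNG

theorem index_max (hXP : Stmt_XPR) (hXC : Stmt_XPC) (hXN : Stmt_XRN) (hCN : Stmt_XCN)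
    (hXO : Stmt_XOC) (hCA : Stmt_CA) (hCB : Stmt_CB) (hCC : Stmt_CC) (hCW : Stmt_CW)
    (hZD : Stmt_WZD) (hZR : Stmt_WZR) (hZL : Stmt_WZL)
    (hZX : Stmt_WZX) (hZN : Stmt_WZN) (hRS : Stmt_WRS)
    {K : Type} [Field K] [NumberField K] (hK : Module.finrank ℚ K = 1)
    (F L : IntermediateField K (AlgebraicClosure K)) [NumberField F] [NumberField L]
    [IsGalois K L] (h : F ≤ L)
    (Θ : ∀ M : IntermediateField K (AlgebraicClosure K), ((M → ℝ) →₀ ℂ) →ₗ[ℂ] ((M → ℝ) →₀ ℂ))
    (hT : ∀ (M : IntermediateField K (AlgebraicClosure K)) [NumberField M],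
      IsTheta K (StarkP.aboveSet K M ((∅ : Finset (HeightOneSpectrum (𝓞 K))) :
        Set (HeightOneSpectrum (𝓞 K)))) (Θ M))
    (hext : ∀ (M N : IntermediateField K (AlgebraicClosure K)) [NumberField M] [NumberField N]
      (h : M ≤ N), Extends (IntermediateField.inclusion h : M →+* N)
        (StarkP.aboveSet K M ((∅ : Finset (HeightOneSpectrum (𝓞 K))) :
          Set (HeightOneSpectrum (𝓞 K))))
        (StarkP.aboveSet K N ((∅ : Finset (HeightOneSpectrum (𝓞 K))) :
          Set (HeightOneSpectrum (𝓞 K)))) (Θ M) (Θ N))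
    (hG : GoodR K L (Θ L))
    (hcls : ∀ (W : Type) [AddCommGroup W] [Module ℂ W] [Module.Finite ℂ W]
      (σ : Representation ℂ (L ≃ₐ[K] L) W), ConF h σ → InCls σ)
    (E : IntermediateField K (AlgebraicClosure K)) [NumberField E] [IsCMField E] (hE : E ≤ F)
    (hmax : ∀ E' : IntermediateField K (AlgebraicClosure K), E' ≤ F → IsCMField E' → E' ≤ E) :
    StarkP.unitIndex (Θ F) * classNumber E * 2 ^ Units.rank E =
      IsCMField.indexRealUnits E * classNumber (maximalRealSubfield E) * classNumber F := by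
  let : Algebra F L := (IntermediateField.inclusion h : F →+* L).toAlgebra
  have : IsScalarTower K F L := IsScalarTower.of_algebraMap_eq fun x => rfl
  let : Algebra E F := (IntermediateField.inclusion hE : E →+* F).toAlgebra
  let : Algebra E L := (IntermediateField.inclusion (hE.trans h) : E →+* L).toAlgebra
  have : IsScalarTower K E L := IsScalarTower.of_algebraMap_eq fun x => rfl
  have : IsScalarTower E F L := IsScalarTower.of_algebraMap_eq fun x => rfl
  have hmem : ∀ k : K, algebraMap K E k ∈ maximalRealSubfield E := by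
    intro k
    have h1 : (⊥ : Subalgebra ℚ K) = ⊤ := Subalgebra.bot_eq_top_iff_finrank_eq_one.2 hK
    have hx : k ∈ (⊥ : Subalgebra ℚ K) := by rw [h1]; exact Algebra.mem_top
    obtain ⟨q, rfl⟩ := Algebra.mem_bot.1 hx
    have h2 : algebraMap K E (algebraMap ℚ K q) = ((q : maximalRealSubfield E) : E) := by simp
    rw [h2]
    exact Subtype.property _
  let : Algebra K (maximalRealSubfield E) :=
    ((algebraMap K E).codRestrict (maximalRealSubfield E) hmem).toAlgebra
  have : IsScalarTower K (maximalRealSubfield E) L :=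
    IsScalarTower.of_algebraMap_eq fun x => rfl
  have hmax' : ∀ E' : IntermediateField ℚ F, IsCMField E' → ∀ x ∈ E',
      x ∈ Set.range (algebraMap E F) := fun E' hE' x hx =>
    ⟨⟨x, max_transport hK F E hmax E' hE' x hx⟩, rfl⟩
  have hclsF : ClsF K F L := fun W _ _ _ σ hσ hn hv => hcls W σ ⟨hσ, hn, hv⟩
  have hclsP : ClsF K (maximalRealSubfield E) L := by
    rintro W _ _ _ σ hσ hn ⟨v, hv0, hv⟩
    refine hclsF W σ hσ hn ⟨v, hv0, fun g hg => hv g fun x => ?_⟩
    exact hg (algebraMap E F (x : E))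
  have a1 := index_rel K E F L hXC hZR hZL hZX hRS (Θ E) (Θ F) (Θ L) (hT E) (hT F) (hT L)
    (hext E L (hE.trans h)) (hext F L h) hG (conR_of K E F L hXO hCC hK hclsF hmax')
  have a2 := index_cm K E L hXP hXC hXN hCN hXO hCA hCB hZD hZR hZL hZX hZN hRS (Θ E) (Θ L)
    (hT E) (hT L) (hext E L (hE.trans h)) hG hK hclsP
  rw [hCW E F hmax'] at a1
  have h3 : (0 : ℝ) < Units.torsionOrder F := by exact_mod_cast Units.torsionOrder_pos F
  have a3 : (StarkP.unitIndex (Θ F) : ℝ) * classNumber E =
      StarkP.unitIndex (Θ E) * classNumber F := by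
    field_simp at a1
    exact a1
  refine Rat.cast_injective (α := ℝ) ?_
  push_cast
  rw [a3, mul_right_comm, a2]

end XCEx

end StarkC.ABS
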