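import Pool.Agent.ABS.XGF
import Pool.Agent.ABS.XCE

/-!
# Project ABS: one `φ`; the class of extensions (pure fields and fields with CM subfields included),
assembly (helper6)
-/

set_option autoImplicit false

open NumberField IsDedekindDomain
open scoped Classical

namespace StarkC.ABS

open StarkP (InCls InClsS ConF GoodF IsSub OccursIn Lift Extends IsTheta PExt SplitPlace PPow)

open OPZx OPSx XGEx XGFx Pool.Agent.YNG

/-- The printed theorem, from the modules. -/
theorem mainQ_of (hXP : Stmt_XPR) (hXO : Stmt_XOC) (hCA : Stmt_CA) (hCB : Stmt_CB)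
    (hY : Stmt_YT) (hPA : Stmt_PA) (hPD : Stmt_PD) (hPE : Stmt_PE) (hPO : Stmt_PO)
    (hQ : Stmt_XQ4) (hS0 : Stmt_PS0) (hS1 : Stmt_PS1) (hS2 : Stmt_PS2) (hS3 : Stmt_PS3)
    (hTC : Stmt_TC) (hTQ : Stmt_TQ) (hFA : Stmt_FA) (hFB : Stmt_FB)
    (hXC : Stmt_XPC) (hXN : Stmt_XRN) (hCN : Stmt_XCN) (hCC : Stmt_CC) (hCW : Stmt_CW)
    (K : Type) [Field K] [NumberField K] (S : Finset (HeightOneSpectrum (𝓞 K))) :
    ∃ Θ : ∀ L : IntermediateField K (AlgebraicClosure K),
      ((L → ℝ) →₀ ℂ) →ₗ[ℂ] ((L → ℝ) →₀ ℂ),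
      (∀ (F : IntermediateField K (AlgebraicClosure K)) [NumberField F],
        IsTheta K (StarkP.aboveSet K F S) (Θ F)) ∧
      (∀ (F L : IntermediateField K (AlgebraicClosure K)) [NumberField F] [NumberField L]
        (h : F ≤ L), Extends (IntermediateField.inclusion h : F →+* L) (StarkP.aboveSet K F S)
          (StarkP.aboveSet K L S) (Θ F) (Θ L)) ∧
      (S = ∅ → ∀ (F L : IntermediateField K (AlgebraicClosure K)) [NumberField F] [NumberField L]
        [IsGalois K L] (h : F ≤ L),
        ((PPow K L ∨ (GoodF h ∧ (Odd (Module.finrank K F) ∨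
            ∀ (W : Type) [AddCommGroup W] [Module ℂ W] [Module.Finite ℂ W]
              (σ : Representation ℂ (L ≃ₐ[K] L) W), ConF h σ →
                OccursIn (StarkP.aboveSet K L S) σ))) →
          StarkP.unitIndex (Θ F) * (if Fintype.card (InfinitePlace K) = 1 then
            (classNumber K : ℚ) / Units.torsionOrder K else 1) =
          (classNumber F : ℚ) / Units.torsionOrder F) ∧
        (Module.finrank ℚ K = 1 →
          (PPow K L ∨ (GoodF h ∧ (Odd (Module.finrank K F) ∨
            ¬ ∃ E : IntermediateField ℚ F, IsCMField E))) →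
          StarkP.unitIndex (Θ F) = classNumber F) ∧
        (Module.finrank ℚ K = 1 → GoodF h →
          ∀ (E : IntermediateField K (AlgebraicClosure K)) [NumberField E] [IsCMField E], E ≤ F →
          (∀ E' : IntermediateField K (AlgebraicClosure K), E' ≤ F → IsCMField E' → E' ≤ E) →
          StarkP.unitIndex (Θ F) * classNumber E * 2 ^ Units.rank E =
            IsCMField.indexRealUnits E * classNumber (maximalRealSubfield E) *
              classNumber F)) ∧
      ∀ (L : IntermediateField K (AlgebraicClosure K)) [NumberField L] [IsGalois K L]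
        (V : Type) [AddCommGroup V] [Module ℂ V] [Module.Finite ℂ V]
        (ρ : Representation ℂ (L ≃ₐ[K] L) V),
        ((1 < Fintype.card (InfinitePlace K) + S.card ∧ PPow K L) ∨
          ∀ (W : Type) [AddCommGroup W] [Module ℂ W] [Module.Finite ℂ W]
            (σ : Representation ℂ (L ≃ₐ[K] L) W), σ.IsIrreducible → IsSub σ ρ →
            InClsS σ ∧ (OccursIn (StarkP.aboveSet K L S) σ ∨
              (SplitPlace K (StarkP.aboveSet K L S) ∧ ∃ g, σ g ≠ 1))) →
        ((∀ g, ∃ q : ℚ, ρ.character g = (q : ℂ)) → ∃ F : ℂ → ℂ,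
          StarkP.IsArtinL ρ.character S F ∧
          StarkP.Reg (StarkP.aboveSet K L S) ρ (Θ L) = meromorphicTrailingCoeffAt F 0) ∧
        (((∀ g, ∃ q : ℚ, (ρ.character g).re = (q : ℝ)) ∨ (∀ g, ρ g ^ 6 = 1)) →
          ∀ F : ℂ → ℂ, StarkP.IsArtinL ρ.character S F →
          ‖StarkP.Reg (StarkP.aboveSet K L S) ρ (Θ L)‖ = ‖meromorphicTrailingCoeffAt F 0‖) := by
  obtain ⟨Θ₀, hE, h2⟩ := mainT K S
  obtain ⟨Θ, hΘ₀, hT, hext⟩ := family WZD_thm WZI_thm WTR_thm S Θ₀ (fun L _ _ => (h2 L).1) hE
  refine ⟨Θ, hT, hext, ?_, ?_⟩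
  · intro hS F L _ _ _ h
    subst hS
    let : Algebra F L := (IntermediateField.inclusion h : F →+* L).toAlgebra
    have : IsScalarTower K F L := IsScalarTower.of_algebraMap_eq fun x => rfl
    have hG : GoodR K L (Θ L) := by
      intro V _ _ _ ρ hρ hq
      rw [hΘ₀ L]
      exact ((h2 L).2 V ρ hρ).1 hq
    have key : (AllC K L ∨ ConC K F L) →
        StarkP.unitIndex (Θ F) * (if Fintype.card (InfinitePlace K) = 1 then
            (classNumber K : ℚ) / Units.torsionOrder K else 1) =
          (classNumber F : ℚ) / Units.torsionOrder F := by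
      intro hP
      by_cases hc : Fintype.card (InfinitePlace K) = 1
      · rw [if_pos hc]
        refine Rat.cast_injective (α := ℝ) ?_
        push_cast
        rcases hP with hP | hP
        · exact index_one K F L WZD_thm WZR_thm WZL_thm WZXb_thm WZP_thm WZNb_thm WRS_thm (Θ F)
            (Θ L) (hT F) (hT L) (hext F L h) hG hP hc
        · exact index_one' K F L hXP WZD_thm WZR_thm WZL_thm WZXb_thm WZNb_thm WRS_thm (Θ F)
            (Θ L) (hT F) (hT L) (hext F L h) hG hP hc
      · rw [if_neg hc]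
        have hc' : 1 < Fintype.card (InfinitePlace K) := by
          have h4 : 0 < Fintype.card (InfinitePlace K) := Fintype.card_pos
          omega
        refine Rat.cast_injective (α := ℝ) ?_
        push_cast
        rcases hP with hP | hP
        · exact index_two K F L WZR_thm WZL_thm WZXb_thm WZP_thm WVT_thm (Θ F) (Θ L)
            (hT F) (hT L) (hext F L h) hG hP hc'
        · exact index_two' K F L hXP WZR_thm WZL_thm WZXb_thm WVT_thm (Θ F) (Θ L)
            (hT F) (hT L) (hext F L h) hG hP hc'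
    refine ⟨fun hP => key ?_, fun hK hP => ?_, fun hK hgood E _ _ hE hmax => ?_⟩
    · rcases hP with hP | hP
      · exact Or.inl (allC_of K L WVC_thm WVO_thm hP)
      · refine Or.inr fun W _ _ _ σ hσ hn hv => ⟨?_, ?_⟩
        · exact cls_of_goodF hFA hFB h (fun W _ _ _ σ hg =>
            cls_of_good hY hPA hPD hPE hQ hS0 hS1 hS2 hS3 hTC hTQ h hg W σ) hP.1 W σ
            ⟨hσ, hn, hv⟩
        · exact hP.2.elim (fun ho => occ_odd K F L hXO hPO ho W σ hσ hn hv)
            fun h3 => h3 W σ ⟨hσ, hn, hv⟩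
    · obtain ⟨h5, h6, h7, h8⟩ := WZNb_thm.2.1 K hK
      rcases hP with hP | ⟨hP, hcm⟩
      · have hA : AllC K L := allC_of K L WVC_thm WVO_thm hP
        have h9 := WZM_thm K F L h8 hA.1
        have h10 := key (Or.inl hA)
        rw [if_pos h7, h5, h6, h9] at h10
        push_cast at h10
        linarith
      · have hcon : ∀ (W : Type) [AddCommGroup W] [Module ℂ W] [Module.Finite ℂ W]
            (σ : Representation ℂ (L ≃ₐ[K] L) W), σ.IsIrreducible → (∃ g, σ g ≠ 1) →
            (∃ v : W, v ≠ 0 ∧ ∀ g ∈ fixK K F L, σ g v = v) →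
            OccursIn (StarkP.aboveSet K L ((∅ : Finset (HeightOneSpectrum (𝓞 K))) :
              Set (HeightOneSpectrum (𝓞 K)))) σ := by
          intro W _ _ _ σ hσ hn hv
          rcases hcm with ho | hcm
          · exact occ_odd K F L hXO hPO ho W σ hσ hn hv
          · by_contra ho
            refine hcm (hCB K F L hK W σ hv fun w v hw => ?_)
            by_contra hv0
            exact ho (hXO K L W σ hσ hn w v hv0 hw)
        have h9 : Units.torsionOrder F = 2 := by
          rcases hcm with ho | hcm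
          · refine Units.torsionOrder_eq_two_of_odd_finrank ?_
            have : FiniteDimensional K F := Module.Finite.of_restrictScalars_finite ℚ K F
            rw [← Module.finrank_mul_finrank ℚ K F, hK, one_mul]
            exact ho
          · exact hCA F hcm
        have h10 := key (Or.inr fun W _ _ _ σ hσ hn hv =>
          ⟨cls_of_goodF hFA hFB h (fun W _ _ _ σ hg =>
            cls_of_good hY hPA hPD hPE hQ hS0 hS1 hS2 hS3 hTC hTQ h hg W σ) hP W σ ⟨hσ, hn, hv⟩,
            hcon W σ hσ hn hv⟩)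
        rw [if_pos h7, h5, h6, h9] at h10
        push_cast at h10
        linarith
    · exact XCEx.index_max hXP hXC hXN hCN hXO hCA hCB hCC hCW WZD_thm WZR_thm WZL_thm WZXb_thm
        WZNb_thm WRS_thm hK F L h Θ (fun M _ => hT M) (fun M N _ _ h => hext M N h) hG
        (fun W _ _ _ σ hσ => cls_of_goodF hFA hFB h (fun W _ _ _ σ hg =>
            cls_of_good hY hPA hPD hPE hQ hS0 hS1 hS2 hS3 hTC hTQ h hg W σ) hgood W σ hσ) E hE hmax
  · intro L _ _ V _ _ _ ρ hρ
    rw [hΘ₀ L]
    refine (h2 L).2 V ρ ?_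
    rcases hρ with h | h
    · exact Or.inl ⟨h.1, h.2.1, h.2.2⟩
    · exact Or.inr fun W _ _ _ σ hσ hs => ⟨inCls_of hTQ σ (h W σ hσ hs).1, (h W σ hσ hs).2⟩

end StarkC.ABS
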