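import Pool.Agent.ABS.StTowerD
import Pool.Agent.ABS.PDefsY
import Pool.Agent.Stark.IOT_B

/-!
# Project ABS, part C of the tower, module XOC

A nontrivial irreducible representation with a nonzero vector fixed by the stabilizer of an
infinite place occurs in `X`: the map is `α ↦ ∑ α(σ(g) v) · g(w)`.
-/

set_option autoImplicit false

open NumberField IsDedekindDomain
open scoped Classical

set_option linter.unusedSectionVars false

namespace StarkC.ABS

namespace XOCx

open StarkC.IOT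

variable {K L : Type} [Field K] [NumberField K] [Field L] [NumberField L] [Algebra K L]
variable {V : Type} [AddCommGroup V] [Module ℂ V]

/-- An irreducible representation which is not trivial has no invariants. -/
theorem inv_zero {G W : Type} [Group G] [AddCommGroup W] [Module ℂ W]
    (σ : Representation ℂ G W) (hirr : σ.IsIrreducible) (hnt : ∃ g, σ g ≠ 1) (v : W)
    (hv : ∀ g, σ g v = v) : v = 0 := by
  let U : Subrepresentation σ := ⟨σ.invariants, fun g w hw => by
    rw [Representation.mem_invariants] at hw ⊢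
    intro h
    rw [hw g, hw h]⟩
  rcases hirr.eq_bot_or_eq_top U with h4 | h4
  · have h5 : v ∈ U := (Representation.mem_invariants σ v).2 hv
    rw [h4] at h5
    exact h5
  · exfalso
    obtain ⟨g, hg⟩ := hnt
    apply hg
    ext1 w
    have h5 : w ∈ U := by
      rw [h4]
      exact Submodule.mem_top
    exact (Representation.mem_invariants σ w).1 h5 g

/-- The map `α ↦ ∑ α(σ(g) v) · g(a)`. -/
noncomputable def gmap [Fintype (L ≃ₐ[K] L)] (σ : Representation ℂ (L ≃ₐ[K] L) V) (v : V)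
    (a : L → ℝ) : Module.Dual ℂ V →ₗ[ℂ] ((L → ℝ) →₀ ℂ) :=
  ∑ g : L ≃ₐ[K] L, (Finsupp.lsingle (a ∘ (g : L ≃+* L).symm)).comp
    (LinearMap.applyₗ (σ g v) : Module.Dual ℂ V →ₗ[ℂ] ℂ)

theorem gmap_apply [Fintype (L ≃ₐ[K] L)] (σ : Representation ℂ (L ≃ₐ[K] L) V) (v : V)
    (a : L → ℝ) (α : Module.Dual ℂ V) : gmap σ v a α =
      ∑ g : L ≃ₐ[K] L, Finsupp.single (a ∘ (g : L ≃+* L).symm) (α (σ g v)) := by
  unfold gmap
  rw [LinearMap.sum_apply]
  rfl

theorem fix_of_comp (w : InfinitePlace L) (g : L ≃ₐ[K] L)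
    (h : infAbs L w ∘ (g : L ≃+* L).symm = infAbs L w) :
    g ∈ MulAction.stabilizer (L ≃ₐ[K] L) w := by
  rw [infAbs_comp] at h
  have h1 := infAbs_inj L h
  rw [MulAction.mem_stabilizer_iff]
  exact h1

theorem gmap_self [Fintype (L ≃ₐ[K] L)] (σ : Representation ℂ (L ≃ₐ[K] L) V) (v : V)
    (w : InfinitePlace L) (hv : ∀ g ∈ MulAction.stabilizer (L ≃ₐ[K] L) w, σ g v = v)
    (α : Module.Dual ℂ V) :
    gmap σ v (infAbs L w) α (infAbs L w) =
      ((Finset.univ.filter (fun g : L ≃ₐ[K] L =>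
        infAbs L w ∘ (g : L ≃+* L).symm = infAbs L w)).card : ℂ) * α v := by
  rw [gmap_apply, Finsupp.finsetSum_apply, Finset.card_filter]
  push_cast
  rw [Finset.sum_mul]
  refine Finset.sum_congr rfl fun g _ => ?_
  rw [Finsupp.single_apply]
  split_ifs with h
  · rw [hv g (fix_of_comp w g h), one_mul]
  · rw [zero_mul]

theorem card_ne [Fintype (L ≃ₐ[K] L)] (w : InfinitePlace L) :
    ((Finset.univ.filter (fun g : L ≃ₐ[K] L =>
        infAbs L w ∘ (g : L ≃+* L).symm = infAbs L w)).card : ℂ) ≠ 0 := by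
  rw [Nat.cast_ne_zero]
  refine Finset.card_ne_zero_of_mem (a := 1) ?_
  rw [Finset.mem_filter]
  refine ⟨Finset.mem_univ _, ?_⟩
  funext x
  rfl

theorem main (W : Type) [AddCommGroup W] [Module ℂ W]
    (σ : Representation ℂ (L ≃ₐ[K] L) W) (hirr : σ.IsIrreducible) (hnt : ∃ g, σ g ≠ 1)
    (S : Set (HeightOneSpectrum (𝓞 K))) (w : InfinitePlace L) (v : W) (hv0 : v ≠ 0)
    (hv : ∀ g ∈ MulAction.stabilizer (L ≃ₐ[K] L) w, σ g v = v) :
    StarkP.OccursIn (StarkP.aboveSet K L S) σ := by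
  have := Fintype.ofFinite (L ≃ₐ[K] L)
  refine ⟨gmap σ v (infAbs L w), ?_, ?_, ?_⟩
  · intro h0
    obtain ⟨α, hα⟩ : ∃ α : Module.Dual ℂ W, α v ≠ 0 := by
      by_contra hcon
      push Not at hcon
      exact hv0 ((Module.forall_dual_apply_eq_zero_iff ℂ v).1 hcon)
    have h1 : gmap σ v (infAbs L w) α (infAbs L w) = 0 := by
      rw [h0]
      rfl
    rw [gmap_self σ v w hv α] at h1
    exact mul_ne_zero (card_ne w) hα h1
  · intro α
    rw [gmap_apply]
    refine Submodule.mem_inf.2 ⟨?_, ?_⟩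
    · refine Submodule.sum_mem _ fun g _ => ?_
      exact Finsupp.single_mem_supported ℂ _
        (stab K S g.symm (a := infAbs L w) (Or.inl ⟨w, rfl⟩))
    · rw [LinearMap.mem_ker, map_sum]
      have h1 : ∀ g : L ≃ₐ[K] L, Finsupp.linearCombination ℂ (fun _ : L → ℝ => (1 : ℂ))
          (Finsupp.single (infAbs L w ∘ (g : L ≃+* L).symm) (α (σ g v))) = α (σ g v) := by
        intro g
        rw [Finsupp.linearCombination_single, smul_eq_mul, mul_one]
      rw [Finset.sum_congr rfl fun g _ => h1 g, ← map_sum]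
      have h2 : ∑ g : L ≃ₐ[K] L, σ g v = 0 := by
        refine inv_zero σ hirr hnt _ fun h => ?_
        rw [map_sum]
        refine Fintype.sum_equiv (Equiv.mulLeft h) _ _ fun g => ?_
        show σ h (σ g v) = σ (h * g) v
        rw [map_mul]
        rfl
      rw [h2, map_zero]
  · intro h α
    rw [gmap_apply, gmap_apply, map_sum]
    symm
    refine Fintype.sum_equiv (Equiv.mulLeft h) _ _ fun g => ?_
    have h1 : StarkP.act (h : L ≃+* L)
        (Finsupp.single (infAbs L w ∘ (g : L ≃+* L).symm) (α (σ g v))) =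
        Finsupp.single ((infAbs L w ∘ (g : L ≃+* L).symm) ∘ (h : L ≃+* L).symm)
          (α (σ g v)) := by
      show Finsupp.mapDomain _ _ = _
      rw [Finsupp.mapDomain_single]
    rw [h1]
    have h2 : (σ.dual h α) (σ (h * g) v) = α (σ g v) := by
      rw [Representation.dual_apply]
      show α (σ h⁻¹ (σ (h * g) v)) = α (σ g v)
      have h3 : σ h⁻¹ (σ (h * g) v) = σ (h⁻¹ * (h * g)) v := by
        rw [map_mul σ h⁻¹]
        rfl
      rw [h3, inv_mul_cancel_left]
    show _ = Finsupp.single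
      (infAbs L w ∘ ((h * g : L ≃ₐ[K] L) : L ≃+* L).symm) ((σ.dual h α) (σ (h * g) v))
    rw [h2]
    rfl

end XOCx

theorem XOC_thm : Stmt_XOC := by
  intro K L _ _ _ _ _ _ W _ _ _ σ hirr hnt w v hv0 hv
  exact XOCx.main W σ hirr hnt _ w v hv0 hv

end StarkC.ABS
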