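import Pool.Agent.ABS.StTower

/-!
# Project ABS, WDC: the invariants of a normal subgroup split off (helper73)
-/

set_option autoImplicit false

open scoped Classical

namespace StarkC.ABS

open StarkP (IsSub)

namespace WDCx

section

variable {G Q : Type} [Group G] [Fintype G] [Group Q] [Fintype Q] (p : G →* Q)
variable {V : Type} [AddCommGroup V] [Module ℂ V] [Module.Finite ℂ V]
variable (ρ : Representation ℂ G V)

set_option linter.unusedSectionVars false

/-- The average over the kernel. -/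
noncomputable def av : V →ₗ[ℂ] V :=
  ((Nat.card p.ker : ℂ)⁻¹) • ∑ᶠ d : p.ker, ρ (d : G)

theorem av_eq : av p ρ = ((Nat.card p.ker : ℂ)⁻¹) • ∑ d : p.ker, ρ (d : G) := by
  unfold av
  rw [finsum_eq_sum_of_fintype]

theorem card_ne : (Nat.card p.ker : ℂ) ≠ 0 := by
  exact_mod_cast Nat.card_pos.ne'

theorem av_apply (v : V) : av p ρ v = ((Nat.card p.ker : ℂ)⁻¹) • ∑ d : p.ker, ρ (d : G) v := by
  rw [av_eq, LinearMap.smul_apply, LinearMap.sum_apply]

/-- The vectors fixed by the kernel. -/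
def inv0 : Submodule ℂ V where
  carrier := {v | ∀ d : G, p d = 1 → ρ d v = v}
  add_mem' := by
    intro a b ha hb d hd
    rw [map_add, ha d hd, hb d hd]
  zero_mem' := by
    intro d _
    rw [map_zero]
  smul_mem' := by
    intro c x hx d hd
    rw [map_smul, hx d hd]

theorem av_of_inv {v : V} (hv : v ∈ inv0 p ρ) : av p ρ v = v := by
  rw [av_apply]
  have h1 : ∀ d : p.ker, ρ (d : G) v = v := fun d => hv d (MonoidHom.mem_ker.mp d.2)
  rw [Finset.sum_congr rfl fun d _ => h1 d, Finset.sum_const, Finset.card_univ,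
    ← Nat.card_eq_fintype_card, ← Nat.cast_smul_eq_nsmul ℂ, smul_smul,
    inv_mul_cancel₀ (card_ne p), one_smul]

theorem av_mem (v : V) : av p ρ v ∈ inv0 p ρ := by
  intro d hd
  rw [av_apply, map_smul, map_sum]
  congr 1
  have hd' : d ∈ p.ker := MonoidHom.mem_ker.mpr hd
  have h1 : ∀ x : p.ker, ρ d (ρ (x : G) v) = ρ (((⟨d, hd'⟩ : p.ker) * x : p.ker) : G) v := by
    intro x
    rw [Subgroup.coe_mul, map_mul]
    rfl
  rw [Finset.sum_congr rfl fun x _ => h1 x]
  exact Equiv.sum_comp (Equiv.mulLeft (⟨d, hd'⟩ : p.ker)) fun y : p.ker => ρ (y : G) v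

theorem av_comm (g : G) (v : V) : av p ρ (ρ g v) = ρ g (av p ρ v) := by
  rw [av_apply, av_apply, map_smul, map_sum]
  congr 1
  have hn : ∀ d : p.ker, g * (d : G) * g⁻¹ ∈ p.ker := fun d =>
    (inferInstance : p.ker.Normal).conj_mem d d.2 g
  have h1 : ∀ x : p.ker, ρ g (ρ (x : G) v) =
      ρ ((MulAut.conjNormal (H := p.ker) g x : p.ker) : G) (ρ g v) := by
    intro x
    have h2 : g * (x : G) = ((MulAut.conjNormal (H := p.ker) g x : p.ker) : G) * g := by
      rw [MulAut.conjNormal_apply]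
      group
    have h3 : ρ (g * (x : G)) v = ρ (((MulAut.conjNormal (H := p.ker) g x : p.ker) : G) * g) v := by
      rw [h2]
    rw [map_mul, map_mul] at h3
    exact h3
  rw [Finset.sum_congr rfl fun x _ => h1 x]
  exact (Equiv.sum_comp (MulAut.conjNormal (H := p.ker) g).toEquiv
    fun y : p.ker => ρ (y : G) (ρ g v)).symm

theorem inv0_map (g : G) : ∀ v ∈ inv0 p ρ, ρ g v ∈ inv0 p ρ := by
  intro v hv
  rw [← av_of_inv p ρ hv, ← av_comm]
  exact av_mem p ρ _

/-- The kernel of the average. -/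
noncomputable def inv1 : Submodule ℂ V := LinearMap.ker (av p ρ)

theorem inv1_map (g : G) : ∀ v ∈ inv1 p ρ, ρ g v ∈ inv1 p ρ := by
  intro v hv
  have h1 : av p ρ v = 0 := LinearMap.mem_ker.mp hv
  refine LinearMap.mem_ker.mpr ?_
  rw [av_comm, h1, map_zero]

theorem compl : IsCompl (inv0 p ρ) (inv1 p ρ) := by
  refine IsCompl.of_eq ?_ ?_
  · rw [Submodule.eq_bot_iff]
    rintro x ⟨h0, h1⟩
    have h2 : av p ρ x = 0 := LinearMap.mem_ker.mp h1
    rw [← av_of_inv p ρ h0, h2]
  · rw [Submodule.eq_top_iff']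
    intro x
    refine Submodule.mem_sup.mpr ⟨av p ρ x, av_mem p ρ x, x - av p ρ x, ?_, by abel⟩
    refine LinearMap.mem_ker.mpr ?_
    rw [map_sub, av_of_inv p ρ (av_mem p ρ x), sub_self]

theorem eq_of_map_eq {g h : G} (hgh : p g = p h) {v : V} (hv : v ∈ inv0 p ρ) :
    ρ g v = ρ h v := by
  have h1 : ρ (g⁻¹ * h) v = v := hv _ (by rw [map_mul, map_inv, hgh, inv_mul_cancel])
  have h2 : ρ h v = ρ g (ρ (g⁻¹ * h) v) := by
    have h3 : ρ h = ρ g * ρ (g⁻¹ * h) := by
      rw [← map_mul]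
      congr 1
      group
    rw [h3]
    rfl
  rw [h2, h1]

variable (hp : Function.Surjective p)

/-- The representation of the quotient on the fixed vectors. -/
noncomputable def rep0 : Representation ℂ Q (inv0 p ρ) where
  toFun q := (ρ (Function.surjInv hp q)).restrict (inv0_map p ρ _)
  map_one' := by
    refine LinearMap.ext fun v => Subtype.ext ?_
    rw [LinearMap.coe_restrict_apply]
    rw [eq_of_map_eq p ρ (g := Function.surjInv hp 1) (h := 1)
      (by rw [Function.surjInv_eq hp, map_one]) v.2, map_one]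
    rfl
  map_mul' := by
    intro a b
    refine LinearMap.ext fun v => Subtype.ext ?_
    rw [LinearMap.coe_restrict_apply]
    rw [eq_of_map_eq p ρ (g := Function.surjInv hp (a * b))
      (h := Function.surjInv hp a * Function.surjInv hp b)
      (by rw [map_mul, Function.surjInv_eq hp, Function.surjInv_eq hp, Function.surjInv_eq hp]) v.2,
      map_mul]
    rfl

theorem rep0_apply (g : G) (v : inv0 p ρ) : ((rep0 p ρ hp (p g) v : inv0 p ρ) : V) = ρ g v := by
  have h1 : ((rep0 p ρ hp (p g) v : inv0 p ρ) : V) = ρ (Function.surjInv hp (p g)) v := rfl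
  rw [h1]
  exact eq_of_map_eq p ρ (Function.surjInv_eq hp (p g)) v.2

/-- The representation on the kernel of the average. -/
noncomputable def rep1 : Representation ℂ G (inv1 p ρ) where
  toFun g := (ρ g).restrict (inv1_map p ρ g)
  map_one' := by
    refine LinearMap.ext fun v => Subtype.ext ?_
    rw [LinearMap.coe_restrict_apply, map_one]
    rfl
  map_mul' := by
    intro a b
    refine LinearMap.ext fun v => Subtype.ext ?_
    rw [LinearMap.coe_restrict_apply, map_mul]
    rfl

theorem rep1_apply (g : G) (v : inv1 p ρ) : ((rep1 p ρ g v : inv1 p ρ) : V) = ρ g v := rfl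

theorem char_add (g : G) :
    ρ.character g = (rep0 p ρ hp).character (p g) + (rep1 p ρ).character g := by
  have h1 : ρ g = (Submodule.prodEquivOfIsCompl _ _ (compl p ρ)).conj
      (LinearMap.prodMap (rep0 p ρ hp (p g)) (rep1 p ρ g)) := by
    refine LinearMap.ext fun v => ?_
    obtain ⟨w, rfl⟩ := (Submodule.prodEquivOfIsCompl _ _ (compl p ρ)).surjective v
    rw [LinearEquiv.conj_apply_apply, LinearEquiv.symm_apply_apply, LinearMap.prodMap_apply,
      Submodule.coe_prodEquivOfIsCompl', Submodule.coe_prodEquivOfIsCompl', rep0_apply, rep1_apply,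
      map_add]
  unfold Representation.character
  rw [h1, LinearMap.trace_conj', LinearMap.trace_prodMap']

theorem char_av (g : G) :
    (rep0 p ρ hp).character (p g) =
      ((Nat.card p.ker : ℂ)⁻¹) * ∑ d : p.ker, ρ.character (g * (d : G)) := by
  have h1 : ρ g ∘ₗ av p ρ = (Submodule.prodEquivOfIsCompl _ _ (compl p ρ)).conj
      (LinearMap.prodMap (rep0 p ρ hp (p g)) (0 : inv1 p ρ →ₗ[ℂ] inv1 p ρ)) := by
    refine LinearMap.ext fun v => ?_
    obtain ⟨w, rfl⟩ := (Submodule.prodEquivOfIsCompl _ _ (compl p ρ)).surjective v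
    have h2 : av p ρ (w.2 : V) = 0 := LinearMap.mem_ker.mp w.2.2
    rw [LinearEquiv.conj_apply_apply, LinearEquiv.symm_apply_apply, LinearMap.prodMap_apply,
      Submodule.coe_prodEquivOfIsCompl', Submodule.coe_prodEquivOfIsCompl', LinearMap.comp_apply,
      map_add, av_of_inv p ρ w.1.2, h2, add_zero, rep0_apply]
    simp
  have h3 : LinearMap.trace ℂ V (ρ g ∘ₗ av p ρ) = (rep0 p ρ hp).character (p g) := by
    unfold Representation.character
    rw [h1, LinearMap.trace_conj', LinearMap.trace_prodMap', map_zero, add_zero]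
  have h4 : ρ g ∘ₗ (∑ d : p.ker, ρ (d : G)) = ∑ d : p.ker, ρ (g * (d : G)) := by
    refine LinearMap.ext fun v => ?_
    rw [LinearMap.comp_apply, LinearMap.sum_apply, LinearMap.sum_apply, map_sum]
    refine Finset.sum_congr rfl fun d _ => ?_
    rw [map_mul]
    rfl
  rw [← h3, av_eq, LinearMap.comp_smul, map_smul, smul_eq_mul, h4, map_sum]
  rfl

end

end WDCx

theorem WDC_thm : Stmt_WDC := by
  intro G Q _ _ _ _ p hp V _ _ _ ρ
  have hQ : (∀ g, ∃ q : ℚ, ρ.character g = (q : ℂ)) →
      ∀ g, ∃ q : ℚ, (WDCx.rep0 p ρ hp).character (p g) = (q : ℂ) := by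
    intro h g
    choose f hf using h
    refine ⟨((Nat.card p.ker : ℚ)⁻¹) * ∑ d : p.ker, f (g * (d : G)), ?_⟩
    rw [WDCx.char_av, Finset.sum_congr rfl fun (d : p.ker) _ => hf (g * (d : G))]
    push_cast
    rfl
  have hR : (∀ g, ∃ q : ℚ, (ρ.character g).re = (q : ℝ)) →
      ∀ g, ∃ q : ℚ, ((WDCx.rep0 p ρ hp).character (p g)).re = (q : ℝ) := by
    intro h g
    choose f hf using h
    refine ⟨((Nat.card p.ker : ℚ)⁻¹) * ∑ d : p.ker, f (g * (d : G)), ?_⟩
    have h1 : ((Nat.card p.ker : ℂ)⁻¹) = (((Nat.card p.ker : ℝ)⁻¹ : ℝ) : ℂ) := by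
      push_cast
      rfl
    rw [WDCx.char_av, h1, Complex.re_ofReal_mul, Complex.re_sum,
      Finset.sum_congr rfl fun (d : p.ker) _ => hf (g * (d : G))]
    push_cast
    rfl
  refine ⟨WDCx.inv0 p ρ, WDCx.inv1 p ρ, inferInstance, inferInstance, inferInstance, inferInstance,
    inferInstance, inferInstance, WDCx.rep0 p ρ hp, WDCx.rep1 p ρ, WDCx.char_add p ρ hp, ?_, ?_,
    ?_, ?_, ?_⟩
  · exact ⟨(WDCx.inv0 p ρ).subtype, Subtype.val_injective, fun g w => WDCx.rep0_apply p ρ hp g w⟩
  · exact ⟨(WDCx.inv1 p ρ).subtype, Subtype.val_injective, fun g w => WDCx.rep1_apply p ρ g w⟩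
  · intro v hv
    have h1 : (v : V) ∈ WDCx.inv0 p ρ := by
      intro d hd
      exact congrArg Subtype.val (hv d hd)
    have h2 : WDCx.av p ρ (v : V) = 0 := LinearMap.mem_ker.mp v.2
    refine Subtype.ext ?_
    rw [← WDCx.av_of_inv p ρ h1, h2]
    rfl
  · intro h
    refine ⟨fun q => ?_, fun g => ?_⟩
    · obtain ⟨g, rfl⟩ := hp q
      exact hQ h g
    · obtain ⟨a, ha⟩ := h g
      obtain ⟨b, hb⟩ := hQ h g
      refine ⟨a - b, ?_⟩
      have h3 := WDCx.char_add p ρ hp g
      rw [ha, hb] at h3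
      push_cast
      rw [h3]
      ring
  · intro h
    refine ⟨fun q => ?_, fun g => ?_⟩
    · obtain ⟨g, rfl⟩ := hp q
      exact hR h g
    · obtain ⟨a, ha⟩ := h g
      obtain ⟨b, hb⟩ := hR h g
      refine ⟨a - b, ?_⟩
      have h3 := congrArg Complex.re (WDCx.char_add p ρ hp g)
      rw [Complex.add_re, ha, hb] at h3
      push_cast
      linarith

end StarkC.ABS
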