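import Pool.Agent.ABS.StTowerC
import Pool.Agent.ABS.WDC

/-!
# Project ABS, WZP: the permutation representation on the cosets of a subgroup (helper55)
-/

set_option autoImplicit false

open scoped Classical

namespace StarkC.ABS

open StarkP (IsSub)

namespace WZPx

variable {G : Type} [Group G] [Fintype G] (H : Subgroup G)

set_option linter.unusedSectionVars false

/-- The permutation representation on the functions on `G ⧸ H`. -/
noncomputable def perm : Representation ℂ G (G ⧸ H → ℂ) where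
  toFun g := LinearMap.funLeft ℂ ℂ (fun x : G ⧸ H => g⁻¹ • x)
  map_one' := by
    refine LinearMap.ext fun f => funext fun x => ?_
    rw [LinearMap.funLeft_apply, inv_one, one_smul]
    rfl
  map_mul' := by
    intro a b
    refine LinearMap.ext fun f => funext fun x => ?_
    rw [LinearMap.funLeft_apply, mul_inv_rev, mul_smul]
    rfl

theorem perm_apply (g : G) (f : G ⧸ H → ℂ) (x : G ⧸ H) : perm H g f x = f (g⁻¹ • x) := rfl

theorem char_perm (g : G) :
    (perm H).character g = ∑ x : G ⧸ H, if g⁻¹ • x = x then (1 : ℂ) else 0 := by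
  unfold Representation.character
  rw [LinearMap.trace_eq_matrix_trace ℂ (Pi.basisFun ℂ (G ⧸ H)), Matrix.trace]
  refine Finset.sum_congr rfl fun x _ => ?_
  rw [Matrix.diag_apply, LinearMap.toMatrix_apply, Pi.basisFun_repr, Pi.basisFun_apply,
    perm_apply, Pi.single_apply]

theorem fix_iff (g x : G) : g⁻¹ • (x : G ⧸ H) = (x : G ⧸ H) ↔ x⁻¹ * g * x ∈ H := by
  have h1 : g⁻¹ • (x : G ⧸ H) = (x : G ⧸ H) ↔ (x : G ⧸ H) = g • (x : G ⧸ H) := by
    rw [inv_smul_eq_iff]
  rw [h1]
  have h2 : g • (x : G ⧸ H) = ((g * x : G) : G ⧸ H) := rfl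
  rw [h2, QuotientGroup.eq, mul_assoc]

theorem sum_mk (F : G ⧸ H → ℂ) :
    ∑ x : G, F (x : G ⧸ H) = (Nat.card H : ℂ) * ∑ q : G ⧸ H, F q := by
  rw [← Finset.sum_fiberwise (s := Finset.univ) (g := fun x : G => (x : G ⧸ H)),
    Finset.mul_sum]
  refine Finset.sum_congr rfl fun q _ => ?_
  rw [Finset.sum_congr rfl (g := fun _ => F q) fun x hx => by rw [(Finset.mem_filter.1 hx).2],
    Finset.sum_const, nsmul_eq_mul]
  congr 2
  have h1 := QuotientGroup.card_preimage_mk H ({q} : Set (G ⧸ H))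
  have h2 : Nat.card (({q} : Set (G ⧸ H)) : Type) = 1 := by simp
  rw [h2, mul_one] at h1
  rw [← h1, Nat.card_eq_fintype_card, Fintype.card_subtype]
  congr 1
  ext x
  simp

theorem char_eq (g : G) : (perm H).character g = indFun H (fun _ => 1) g := by
  have h1 := sum_mk H (fun q => if g⁻¹ • q = q then (1 : ℂ) else 0)
  have h2 : (Nat.card H : ℂ) ≠ 0 := by
    exact_mod_cast Nat.card_pos.ne'
  unfold indFun
  rw [char_perm, eq_div_iff h2, mul_comm, ← h1]
  refine Finset.sum_congr rfl fun x _ => ?_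
  exact if_congr (fix_iff H g x) rfl rfl

theorem char_rat (g : G) : ∃ q : ℚ, (perm H).character g = (q : ℂ) := by
  refine ⟨∑ x : G ⧸ H, if g⁻¹ • x = x then (1 : ℚ) else 0, ?_⟩
  rw [char_perm, Rat.cast_sum]
  refine Finset.sum_congr rfl fun x _ => ?_
  split_ifs
  · rw [Rat.cast_one]
  · rw [Rat.cast_zero]

/-- The trivial homomorphism. -/
def pp : G →* Unit := 1

theorem hpp : Function.Surjective (pp : G →* Unit) := fun _ => ⟨1, rfl⟩

theorem inv_const {f : G ⧸ H → ℂ} (hf : f ∈ WDCx.inv0 (pp : G →* Unit) (perm H))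
    (x y : G ⧸ H) : f x = f y := by
  obtain ⟨g, hg⟩ := MulAction.exists_smul_eq G x y
  have h1 : perm H g f = f := hf g rfl
  have h2 := congrFun h1 y
  rw [perm_apply, ← hg, inv_smul_smul, hg] at h2
  exact h2

theorem finrank_inv : Module.finrank ℂ (WDCx.inv0 (pp : G →* Unit) (perm H)) = 1 := by
  have h0 : (fun _ : G ⧸ H => (1 : ℂ)) ∈ WDCx.inv0 (pp : G →* Unit) (perm H) := by
    intro d _
    rfl
  refine finrank_eq_one (⟨fun _ => 1, h0⟩ : WDCx.inv0 (pp : G →* Unit) (perm H)) ?_ ?_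
  · intro h
    have h1 := congrArg Subtype.val h
    exact one_ne_zero (congrFun h1 ((1 : G) : G ⧸ H))
  · rintro ⟨f, hf⟩
    refine ⟨f ((1 : G) : G ⧸ H), Subtype.ext (funext fun x => ?_)⟩
    have h1 : ((f ((1 : G) : G ⧸ H) • (⟨fun _ => 1, h0⟩ :
      WDCx.inv0 (pp : G →* Unit) (perm H)) : WDCx.inv0 (pp : G →* Unit) (perm H)) :
        G ⧸ H → ℂ) x = f ((1 : G) : G ⧸ H) * 1 := rfl
    rw [h1, mul_one]
    exact inv_const H hf _ _

theorem char_inv (g : G) : (WDCx.rep0 pp (perm H) hpp).character (pp g) = 1 := by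
  have h1 : (pp g : Unit) = 1 := rfl
  rw [h1]
  unfold Representation.character
  rw [map_one]
  have h2 := LinearMap.trace_one ℂ (WDCx.inv0 (pp : G →* Unit) (perm H))
  rw [h2, finrank_inv]
  norm_num

end WZPx

theorem WZP_thm : Stmt_WZP := by
  intro G _ _ H
  refine ⟨⟨G ⧸ H → ℂ, inferInstance, inferInstance, inferInstance, WZPx.perm H,
    WZPx.char_eq H, WZPx.char_rat H⟩, ?_⟩
  have hch : ∀ g, (WDCx.rep1 WZPx.pp (WZPx.perm H)).character g =
      indFun H (fun _ => 1) g - 1 := by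
    intro g
    have h1 := WDCx.char_add WZPx.pp (WZPx.perm H) WZPx.hpp g
    rw [WZPx.char_inv, WZPx.char_eq] at h1
    rw [h1]
    ring
  refine ⟨WDCx.inv1 WZPx.pp (WZPx.perm H), inferInstance, inferInstance, inferInstance,
    WDCx.rep1 WZPx.pp (WZPx.perm H), hch, ?_, ?_⟩
  · intro g
    obtain ⟨q, hq⟩ := WZPx.char_rat H g
    refine ⟨q - 1, ?_⟩
    rw [hch, ← WZPx.char_eq, hq]
    push_cast
    rfl
  · intro W _ _ _ σ hσ hs
    by_contra hn
    push Not at hn
    obtain ⟨i, hi, hig⟩ := hs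
    have hz : ∀ w : W, w = 0 := by
      intro w
      apply hi
      rw [map_zero]
      have h1 : ((i w : WDCx.inv1 WZPx.pp (WZPx.perm H)) : G ⧸ H → ℂ) ∈
          WDCx.inv0 (WZPx.pp : G →* Unit) (WZPx.perm H) := by
        intro d _
        have h3 := hig d w
        rw [hn d] at h3
        exact (congrArg Subtype.val h3).symm
      have h2 : WDCx.av WZPx.pp (WZPx.perm H) (i w : G ⧸ H → ℂ) = 0 :=
        LinearMap.mem_ker.mp (i w).2
      refine Subtype.ext ?_
      rw [← WDCx.av_of_inv WZPx.pp (WZPx.perm H) h1, h2]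
      rfl
    have h4 : (⊥ : Subrepresentation σ) = ⊤ := by
      ext x
      have hx : x = 0 := hz x
      rw [hx]
      exact ⟨fun _ => trivial, fun _ => rfl⟩
    have : Nontrivial (Subrepresentation σ) := hσ.toNontrivial
    exact bot_ne_top h4

end StarkC.ABS
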