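import Pool.Agent.ABS.StTowerD
import Pool.Agent.ABS.WZP

/-!
# Project ABS, XPR: the permutation representation, vectors fixed by the subgroup (helper12)
-/

set_option autoImplicit false

open scoped Classical

namespace StarkC.ABS

open StarkP (IsSub)

namespace XPRx

variable {G : Type} [Group G] [Fintype G] (H : Subgroup G)

/-- A vector fixed by `H` in an irreducible subrepresentation of the permutation representation. -/
theorem fixed_vec {W : Type} [AddCommGroup W] [Module ℂ W] (σ : Representation ℂ G W)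
    (hσ : σ.IsIrreducible) (hs : IsSub σ (WZPx.perm H)) :
    ∃ v : W, v ≠ 0 ∧ ∀ h ∈ H, σ h v = v := by
  obtain ⟨i, hi, hig⟩ := hs
  -- the evaluation at the coset of `1`
  have hev : ∀ g w, i (σ g w) ((1 : G) : G ⧸ H) = i w ((g⁻¹ : G) : G ⧸ H) := by
    intro g w
    have h2 : g⁻¹ • ((1 : G) : G ⧸ H) = ((g⁻¹ : G) : G ⧸ H) := by
      change ((g⁻¹ * 1 : G) : G ⧸ H) = _
      rw [mul_one]
    rw [hig, WZPx.perm_apply, h2]
  have hw : ∃ w : W, i w ((1 : G) : G ⧸ H) ≠ 0 := by
    by_contra hn
    push Not at hn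
    have hz : ∀ w : W, w = 0 := by
      intro w
      apply hi
      rw [map_zero]
      funext x
      obtain ⟨g, rfl⟩ := QuotientGroup.mk_surjective x
      have h1 := hev g⁻¹ w
      rw [hn, inv_inv] at h1
      exact h1.symm
    have h4 : (⊥ : Subrepresentation σ) = ⊤ := by
      ext x
      have hx : x = 0 := hz x
      rw [hx]
      exact ⟨fun _ => trivial, fun _ => rfl⟩
    have : Nontrivial (Subrepresentation σ) := hσ.toNontrivial
    exact bot_ne_top h4
  obtain ⟨w, hw⟩ := hw
  have hH : ∀ h : H, i (σ (h : G) w) ((1 : G) : G ⧸ H) = i w ((1 : G) : G ⧸ H) := by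
    intro h
    have h2 : (((h : G)⁻¹ : G) : G ⧸ H) = ((1 : G) : G ⧸ H) := by
      rw [QuotientGroup.eq]
      simp
    rw [hev, h2]
  refine ⟨∑ h : H, σ (h : G) w, fun h0 => ?_, fun k hk => ?_⟩
  · have h1 : i (∑ h : H, σ (h : G) w) ((1 : G) : G ⧸ H) =
        (Fintype.card H : ℂ) * i w ((1 : G) : G ⧸ H) := by
      rw [map_sum, Finset.sum_apply, Finset.sum_congr rfl fun h _ => hH h, Finset.sum_const,
        Finset.card_univ, nsmul_eq_mul]
    rw [h0, map_zero] at h1
    have h2 : (Fintype.card H : ℂ) ≠ 0 := by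
      exact_mod_cast Fintype.card_ne_zero
    exact mul_ne_zero h2 hw h1.symm
  · rw [map_sum]
    have h1 : ∀ h : H, σ k (σ (h : G) w) = σ (((⟨k, hk⟩ : H) * h : H) : G) w := by
      intro h
      rw [Subgroup.coe_mul, map_mul]
      rfl
    rw [Finset.sum_congr rfl fun h _ => h1 h]
    exact Equiv.sum_comp (Equiv.mulLeft (⟨k, hk⟩ : H)) fun h : H => σ (h : G) w

end XPRx

theorem XPR_thm : Stmt_XPR := by
  intro G _ _ H
  refine ⟨⟨G ⧸ H → ℂ, inferInstance, inferInstance, inferInstance, WZPx.perm H,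
    WZPx.char_eq H, WZPx.char_rat H, fun W _ _ _ σ hσ hs => XPRx.fixed_vec H σ hσ hs⟩, ?_⟩
  have hch : ∀ g, (WDCx.rep1 WZPx.pp (WZPx.perm H)).character g =
      indFun H (fun _ => 1) g - 1 := by
    intro g
    have h1 := WDCx.char_add WZPx.pp (WZPx.perm H) WZPx.hpp g
    rw [WZPx.char_inv, WZPx.char_eq] at h1
    rw [h1]
    ring
  refine ⟨WDCx.inv1 WZPx.pp (WZPx.perm H), inferInstance, inferInstance, inferInstance,
    WDCx.rep1 WZPx.pp (WZPx.perm H), hch, ?_, ?_⟩
  · intro g
    obtain ⟨q, hq⟩ := WZPx.char_rat H g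
    refine ⟨q - 1, ?_⟩
    rw [hch, ← WZPx.char_eq, hq]
    push_cast
    rfl
  · intro W _ _ _ σ hσ hs
    refine ⟨?_, ?_⟩
    · by_contra hn
      push Not at hn
      obtain ⟨i, hi, hig⟩ := hs
      have hz : ∀ w : W, w = 0 := by
        intro w
        apply hi
        rw [map_zero]
        have h1 : ((i w : WDCx.inv1 WZPx.pp (WZPx.perm H)) : G ⧸ H → ℂ) ∈
            WDCx.inv0 (WZPx.pp : G →* Unit) (WZPx.perm H) := by
          intro d _
          have h3 := hig d w
          rw [hn d] at h3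
          exact (congrArg Subtype.val h3).symm
        have h2 : WDCx.av WZPx.pp (WZPx.perm H) (i w : G ⧸ H → ℂ) = 0 :=
          LinearMap.mem_ker.mp (i w).2
        refine Subtype.ext ?_
        rw [← WDCx.av_of_inv WZPx.pp (WZPx.perm H) h1, h2]
        rfl
      have h4 : (⊥ : Subrepresentation σ) = ⊤ := by
        ext x
        have hx : x = 0 := hz x
        rw [hx]
        exact ⟨fun _ => trivial, fun _ => rfl⟩
      have : Nontrivial (Subrepresentation σ) := hσ.toNontrivial
      exact bot_ne_top h4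
    · obtain ⟨i, hi, hig⟩ := hs
      refine XPRx.fixed_vec H σ hσ ⟨(WDCx.inv1 WZPx.pp (WZPx.perm H)).subtype.comp i,
        Subtype.val_injective.comp hi, fun g w => ?_⟩
      have h1 := congrArg Subtype.val (hig g w)
      exact h1

end StarkC.ABS
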