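import Pool.Agent.ABS.StTowerE

/-!
# Project ABS, quartic fields: constituents of permutation characters of degree 4 (helper78)
-/

set_option autoImplicit false

open NumberField IsDedekindDomain
open scoped Classical

namespace StarkC.ABS

open StarkP (charField rootField InCls)

namespace XQ4x

section Rep

variable {G V : Type} [Group G] [AddCommGroup V] [Module ℂ V]

theorem irr_of' (ρ : Representation ℂ G V) (h : ρ.IsIrreducible) :
    Nontrivial V ∧ ∀ W : Submodule ℂ V, (∀ g, ∀ v ∈ W, ρ g v ∈ W) → W = ⊥ ∨ W = ⊤ := by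
  constructor
  · by_contra hV
    rw [not_nontrivial_iff_subsingleton] at hV
    have h1 : (⊥ : Subrepresentation ρ) = ⊤ := by
      apply Subrepresentation.toSubmodule_injective
      exact Subsingleton.elim _ _
    exact bot_ne_top h1
  · intro W hW
    have h1 := h.eq_bot_or_eq_top ⟨W, fun g v hv => hW g v hv⟩
    rcases h1 with h1 | h1
    · left
      exact congrArg Subrepresentation.toSubmodule h1
    · right
      exact congrArg Subrepresentation.toSubmodule h1

/-- Commuting operators on an irreducible representation are scalars. -/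
theorem scalar_of_comm [Module.Finite ℂ V] (ρ : Representation ℂ G V) (h : ρ.IsIrreducible)
    (hc : ∀ a b, ρ a * ρ b = ρ b * ρ a) (g : G) : ∃ c : ℂ, ∀ v, ρ g v = c • v := by
  obtain ⟨hnt, hinv⟩ := irr_of' ρ h
  obtain ⟨l, hl⟩ := Module.End.exists_eigenvalue (ρ g)
  obtain ⟨w, hw⟩ := hl.exists_hasEigenvector
  have hw0 : w ≠ 0 := hw.2
  have hwe : ρ g w = l • w := hw.apply_eq_smul
  refine ⟨l, ?_⟩
  let W : Submodule ℂ V := LinearMap.ker (ρ g - l • (1 : Module.End ℂ V))
  have hmem : ∀ u, u ∈ W ↔ ρ g u = l • u := by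
    intro u
    show u ∈ LinearMap.ker (ρ g - l • (1 : Module.End ℂ V)) ↔ _
    rw [LinearMap.mem_ker, LinearMap.sub_apply, LinearMap.smul_apply,
      Module.End.one_apply, sub_eq_zero]
  rcases hinv W (by
    intro a u hu
    rw [hmem] at hu ⊢
    have h1 : ρ g (ρ a u) = (ρ g * ρ a) u := rfl
    have h2 : ρ a (ρ g u) = (ρ a * ρ g) u := rfl
    rw [h1, hc g a, ← h2, hu, map_smul]) with h1 | h1
  · exfalso
    have h2 : w ∈ W := (hmem w).2 hwe
    rw [h1, Submodule.mem_bot] at h2
    exact hw0 h2
  · intro v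
    have h2 : v ∈ W := by
      rw [h1]
      exact Submodule.mem_top
    exact (hmem v).1 h2

/-- There is no nondegenerate alternating form if the operators commute. -/
theorem no_form [Module.Finite ℂ V] (ρ : Representation ℂ G V) (h : ρ.IsIrreducible)
    (hc : ∀ a b, ρ a * ρ b = ρ b * ρ a) (B : V →ₗ[ℂ] V →ₗ[ℂ] ℂ) (h1 : ∀ v, B v v = 0)
    (h2 : ∀ v, (∀ w, B v w = 0) → v = 0) : False := by
  obtain ⟨hnt, hinv⟩ := irr_of' ρ h
  obtain ⟨w, hw⟩ := exists_ne (0 : V)
  have h3 : Submodule.span ℂ {w} = ⊤ := by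
    rcases hinv (Submodule.span ℂ {w}) (by
      intro g v hv
      obtain ⟨c, hcv⟩ := scalar_of_comm ρ h hc g
      rw [hcv v]
      exact Submodule.smul_mem _ _ hv) with h4 | h4
    · exfalso
      apply hw
      have h5 : w ∈ Submodule.span ℂ {w} := Submodule.mem_span_singleton_self w
      rw [h4, Submodule.mem_bot] at h5
      exact h5
    · exact h4
  apply hw
  apply h2 w
  intro u
  have h4 : u ∈ Submodule.span ℂ {w} := by
    rw [h3]
    exact Submodule.mem_top
  obtain ⟨a, rfl⟩ := Submodule.mem_span_singleton.1 h4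
  rw [map_smul, h1, smul_zero]

/-- The vectors `ρ g v` span. -/
theorem orbit_span (ρ : Representation ℂ G V) (h : ρ.IsIrreducible) (v : V) (hv : v ≠ 0) :
    Submodule.span ℂ (Set.range fun g => ρ g v) = ⊤ := by
  obtain ⟨hnt, hinv⟩ := irr_of' ρ h
  rcases hinv (Submodule.span ℂ (Set.range fun g => ρ g v)) (by
    intro g u hu
    induction hu using Submodule.span_induction with
    | mem x hx =>
      obtain ⟨g', rfl⟩ := hx
      have h1 : ρ g (ρ g' v) = ρ (g * g') v := by
        rw [map_mul]
        rfl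
      show ρ g (ρ g' v) ∈ _
      rw [h1]
      exact Submodule.subset_span ⟨g * g', rfl⟩
    | zero =>
      rw [map_zero]
      exact Submodule.zero_mem _
    | add x y _ _ hx hy =>
      rw [map_add]
      exact Submodule.add_mem _ hx hy
    | smul a x _ hx =>
      rw [map_smul]
      exact Submodule.smul_mem _ _ hx) with h1 | h1
  · exfalso
    apply hv
    have h2 : v ∈ Submodule.span ℂ (Set.range fun g => ρ g v) := by
      refine Submodule.subset_span ⟨1, ?_⟩
      show ρ 1 v = v
      rw [map_one]
      rfl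
    rw [h1, Submodule.mem_bot] at h2
    exact h2
  · exact h1

theorem ext_span (ρ : Representation ℂ G V) (h : ρ.IsIrreducible) (v : V) (hv : v ≠ 0)
    (T : Module.End ℂ V) (hT : ∀ g, T (ρ g v) = ρ g v) : T = 1 := by
  have h1 := orbit_span ρ h v hv
  ext1 w
  have h2 : w ∈ Submodule.span ℂ (Set.range fun g => ρ g v) := by
    rw [h1]
    exact Submodule.mem_top
  show T w = w
  induction h2 using Submodule.span_induction with
  | mem x hx =>
    obtain ⟨g', rfl⟩ := hx
    exact hT g'
  | zero => exact map_zero T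
  | add x y _ _ hx hy => rw [map_add, hx, hy]
  | smul a x _ hx => rw [map_smul, hx]

theorem rad_span (ρ : Representation ℂ G V) (h : ρ.IsIrreducible) (v : V) (hv : v ≠ 0)
    (b : V →ₗ[ℂ] ℂ) (hT : ∀ g, b (ρ g v) = 0) : ∀ w, b w = 0 := by
  have h1 := orbit_span ρ h v hv
  intro w
  have h2 : w ∈ Submodule.span ℂ (Set.range fun g => ρ g v) := by
    rw [h1]
    exact Submodule.mem_top
  induction h2 using Submodule.span_induction with
  | mem x hx =>
    obtain ⟨g', rfl⟩ := hx
    exact hT g'
  | zero => exact map_zero b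
  | add x y _ _ hx hy => rw [map_add, hx, hy, add_zero]
  | smul a x _ hx => rw [map_smul, hx, smul_zero]

end Rep

/-- Groups whose order divides `4` are commutative. -/
theorem comm_of_dvd_four (P : Type) [Group P] [Finite P] (h : Nat.card P ∣ 4) (a b : P) :
    a * b = b * a := by
  have h1 : Nat.card P ≤ 4 := Nat.le_of_dvd (by norm_num) h
  have h0 : 0 < Nat.card P := Nat.card_pos
  have h2 : Nat.card P = 1 ∨ Nat.card P = 2 ∨ Nat.card P = 2 ^ 2 := by
    interval_cases hP : Nat.card P <;> tauto
  rcases h2 with h2 | h2 | h2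
  · have h3 := (Nat.card_eq_one_iff_unique.1 h2).1
    exact Subsingleton.elim _ _
  · have : Fact (Nat.Prime 2) := ⟨Nat.prime_two⟩
    have h3 : IsCyclic P := isCyclic_of_prime_card h2
    obtain ⟨g, hg⟩ := h3
    obtain ⟨i, rfl⟩ := Subgroup.mem_zpowers_iff.1 (hg a)
    obtain ⟨j, rfl⟩ := Subgroup.mem_zpowers_iff.1 (hg b)
    rw [← zpow_add, ← zpow_add, add_comm]
  · have : Fact (Nat.Prime 2) := ⟨Nat.prime_two⟩
    exact (IsPGroup.isMulCommutative_of_card_eq_prime_sq h2).is_comm.comm a b

theorem perm_key : ∀ (t h : Equiv.Perm (Fin 4)) (o : Fin 4), h o = o → h ≠ 1 → h ^ 4 = 1 →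
    t ^ 4 = 1 → (t * h) ^ 4 = 1 → (t (t o) = o ∨ (t * h) ((t * h) o) = o) := by
  decide +kernel

theorem perm_eight : ∀ t : Equiv.Perm (Fin 4), t ^ 8 = 1 → t ^ 4 = 1 := by
  decide +kernel

theorem perm_even : ∀ t : Equiv.Perm (Fin 4), Equiv.Perm.sign t = 1 → t ^ 2 = 1 ∨ t ^ 3 = 1 := by
  decide +kernel

end XQ4x

open XQ4x

theorem XQ4_thm (hY : Pool.Agent.YNG.Stmt_YT) : Stmt_XQ4 := by
  intro G _ _ H hH W _ _ _ σ hirr hnt ⟨v, hv0, hv⟩
  have hHfi : H.FiniteIndex := ⟨by rw [hH]; norm_num⟩
  -- the action on the cosets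
  have hcard : Nat.card (G ⧸ H) = 4 := by
    rw [← Subgroup.index_eq_card, hH]
  have : Finite (G ⧸ H) := Subgroup.finite_quotient_of_finiteIndex
  let e : G ⧸ H ≃ Fin 4 := Finite.equivFinOfCardEq hcard
  let f : G →* Equiv.Perm (Fin 4) :=
    (e.permCongrHom.toMonoidHom).comp (MulAction.toPermHom G (G ⧸ H))
  have hf : ∀ (g : G) (x : G ⧸ H), f g (e x) = e (g • x) := by
    intro g x
    show e.permCongrHom (MulAction.toPermHom G (G ⧸ H) g) (e x) = _
    show e ((MulAction.toPermHom G (G ⧸ H) g) (e.symm (e x))) = _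
    rw [Equiv.symm_apply_apply]
    rfl
  have hker : f.ker ≤ H := by
    intro n hn
    have h1 := hf n (QuotientGroup.mk 1)
    rw [MonoidHom.mem_ker.1 hn] at h1
    have h2 : (QuotientGroup.mk 1 : G ⧸ H) = n • QuotientGroup.mk 1 := e.injective h1
    have h3 : (QuotientGroup.mk 1 : G ⧸ H) = QuotientGroup.mk (n * 1) := h2
    rw [QuotientGroup.eq] at h3
    simpa using h3
  have hk : ∀ g, f g = 1 → σ g = 1 := by
    intro n hn
    refine ext_span σ hirr v hv0 (σ n) fun g => ?_
    have h1 : g⁻¹ * n * g ∈ f.ker := by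
      rw [MonoidHom.mem_ker, map_mul, map_mul, hn, mul_one, ← map_mul, inv_mul_cancel, map_one]
    have h2 := hv _ (hker h1)
    have h3 : σ n (σ g v) = σ g (σ (g⁻¹ * n * g) v) := by
      rw [← Module.End.mul_apply, ← Module.End.mul_apply, ← map_mul, ← map_mul]
      congr 2
      group
    rw [h3, h2]
  have hkle : f.ker ≤ MonoidHom.ker σ := fun g hg => hk g hg
  -- the order of the image
  have hrc : Nat.card f.range = f.ker.index := by
    rw [Subgroup.index_ker]
  have h4 : 4 ∣ Nat.card f.range := by
    have h1 := Subgroup.index_dvd_of_le hker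
    rw [hH] at h1
    rw [hrc]
    exact h1
  have hP4 : Nat.card (Equiv.Perm (Fin 4)) = 24 := by
    rw [Nat.card_eq_fintype_card, Fintype.card_perm, Fintype.card_fin]
    rfl
  have h24 : Nat.card f.range ∣ 24 := by
    rw [← hP4]
    exact Subgroup.card_subgroup_dvd_card f.range
  have hcases : Nat.card f.range = 4 ∨ Nat.card f.range = 8 ∨ Nat.card f.range = 12 ∨
      Nat.card f.range = 24 := by
    have h1 : Nat.card f.range ≤ 24 := Nat.le_of_dvd (by norm_num) h24
    obtain ⟨k, hk'⟩ := h4
    rw [hk'] at h24 h1 ⊢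
    have h2 : k ≤ 6 := by omega
    interval_cases k <;> omega
  have hq : Nat.card (G ⧸ MonoidHom.ker σ) ∣ Nat.card f.range := by
    rw [hrc, ← Subgroup.index_eq_card]
    exact Subgroup.index_dvd_of_le hkle
  have hmk : ∀ g : G, ∀ n : ℕ, f g ^ n = 1 → (QuotientGroup.mk g : G ⧸ MonoidHom.ker σ) ^ n = 1 := by
    intro g n hn
    have h1 : g ^ n ∈ MonoidHom.ker σ := by
      apply hkle
      rw [MonoidHom.mem_ker, map_pow, hn]
    have h2 : (QuotientGroup.mk (g ^ n) : G ⧸ MonoidHom.ker σ) = 1 :=
      (QuotientGroup.eq_one_iff _).2 h1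
    rw [← h2]
    rfl
  -- the case of a `2`-group
  have two : (Nat.card f.range = 4 ∨ Nat.card f.range = 8) → InCls σ := by
    intro hc
    have hc8 : Nat.card f.range ∣ 8 := by
      rcases hc with h | h <;> rw [h] <;> norm_num
    have hf4 : ∀ g, f g ^ 4 = 1 := by
      intro g
      apply perm_eight
      have h1 : (⟨f g, ⟨g, rfl⟩⟩ : f.range) ^ 8 = 1 := by
        obtain ⟨m, hm⟩ := hc8
        rw [hm, pow_mul, pow_card_eq_one', one_pow]
      exact congrArg Subtype.val h1
    have hσ4 : ∀ g, σ g ^ 4 = 1 := by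
      intro g
      rw [← map_pow]
      apply hk
      rw [map_pow, hf4]
    have h1 : charField σ.character ≤ rootField (2 ^ 2) :=
      charField_le σ (2 ^ 2) (by norm_num) (fun g => by
        have := hσ4 g
        norm_num
        exact this)
    refine Or.inr (Or.inr ⟨⟨2, 2, Nat.prime_two, h1⟩, Or.inr (Or.inl (Or.inl ⟨?_, ?_⟩))⟩)
    · -- nilpotent
      have : Fact (Nat.Prime 2) := ⟨Nat.prime_two⟩
      have h2 : Nat.card (G ⧸ MonoidHom.ker σ) ∣ 2 ^ 3 := hq.trans (by
        rw [show (2 : ℕ) ^ 3 = 8 by norm_num]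
        exact hc8)
      obtain ⟨m, -, hm⟩ := (Nat.dvd_prime_pow Nat.prime_two).1 h2
      have h3 : IsPGroup 2 (G ⧸ MonoidHom.ker σ) := IsPGroup.of_card hm
      exact h3.isNilpotent
    · rintro ⟨B, hB1, hB2, hB3⟩
      have hinv : ∀ g x y, B (σ g x) (σ g y) = B x y := by
        intro g
        apply hB3 g
        refine ⟨2, ?_⟩
        rw [map_pow]
        exact hσ4 g
      have hanti : ∀ x y, B x y = - B y x := by
        intro x y
        have h2 := hB1 (x + y)
        rw [map_add, map_add, LinearMap.add_apply, LinearMap.add_apply, hB1 x, hB1 y] at h2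
        linear_combination h2
      by_cases hcase : ∀ h ∈ H, f h = 1
      · -- the image has four elements
        have h2 : f.ker = H := le_antisymm hker fun h hh => hcase h hh
        have h3 : Nat.card f.range = 4 := by
          rw [hrc, h2, hH]
        refine no_form σ hirr (fun a b => ?_) B hB1 hB2
        have h4 := comm_of_dvd_four f.range (by rw [h3]) ⟨f a, ⟨a, rfl⟩⟩ ⟨f b, ⟨b, rfl⟩⟩
        have h5 : f a * f b = f b * f a := congrArg Subtype.val h4
        have h6 : f (a * b * (b * a)⁻¹) = 1 := by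
          rw [map_mul, map_inv, map_mul, map_mul, h5, mul_inv_cancel]
        have h7 := hk _ h6
        have h8 : σ (a * b) = σ (b * a) := by
          have h9 : σ (a * b * (b * a)⁻¹) * σ (b * a) = σ (a * b) := by
            rw [← map_mul]
            congr 1
            group
          rw [← h9, h7, one_mul]
        rw [← map_mul, ← map_mul, h8]
      · push Not at hcase
        obtain ⟨h, hh, hne⟩ := hcase
        -- `v` is in the radical
        apply hv0
        apply hB2 v
        refine rad_span σ hirr v hv0 (B v) fun g => ?_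
        have hfix : ∀ x : G, x ∈ H ↔ f x (e (QuotientGroup.mk 1)) = e (QuotientGroup.mk 1) := by
          intro x
          rw [hf]
          have h5 : x • (QuotientGroup.mk 1 : G ⧸ H) = QuotientGroup.mk (x * 1) := rfl
          rw [h5, mul_one, e.injective.eq_iff, eq_comm, QuotientGroup.eq, inv_one, one_mul]
        have hzero : ∀ g : G, g * g ∈ H → B v (σ g v) = 0 := by
          intro g hg
          have h5 : σ g (σ g v) = v := by
            rw [← Module.End.mul_apply, ← map_mul]
            exact hv _ hg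
          have h6 := hinv g v (σ g v)
          rw [h5] at h6
          have h7 := hanti v (σ g v)
          have h8 : B v (σ g v) = - B v (σ g v) := by
            conv_lhs => rw [h7, h6]
          linear_combination h8 / 2
        have h5 := perm_key (f g) (f h) (e (QuotientGroup.mk 1)) ((hfix h).1 hh) hne (hf4 h)
          (hf4 g) (by rw [← map_mul]; exact hf4 _)
        rcases h5 with h5 | h5
        · apply hzero
          rw [hfix, map_mul]
          exact h5
        · have h6 : σ g v = σ (g * h) v := by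
            rw [map_mul, Module.End.mul_apply, hv h hh]
          rw [h6]
          apply hzero
          rw [hfix, map_mul f (g * h) (g * h), map_mul f g h]
          exact h5
  rcases hcases with hc | hc | hc | hc
  · exact two (Or.inl hc)
  · exact two (Or.inr hc)
  · -- the alternating group
    have hidx : f.range.index = 2 := by
      have h1 := Subgroup.card_mul_index f.range
      rw [hc, hP4] at h1
      omega
    have halt := Equiv.Perm.eq_alternatingGroup_of_index_eq_two hidx
    refine Or.inr (Or.inl ⟨?_, ?_⟩)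
    · intro x
      obtain ⟨g, rfl⟩ := QuotientGroup.mk_surjective x
      have h1 : f g ∈ f.range := ⟨g, rfl⟩
      rw [halt, Equiv.Perm.mem_alternatingGroup] at h1
      rcases perm_even (f g) h1 with h2 | h2
      · refine ⟨2, 1, Nat.prime_two, ?_⟩
        rw [pow_one]
        exact hmk g 2 h2
      · refine ⟨3, 1, Nat.prime_three, ?_⟩
        rw [pow_one]
        exact hmk g 3 h2
    · intro P hP W' _ _ _ τ hτ
      rintro ⟨B, hB1, hB2, -⟩
      have : Fact (Nat.Prime 2) := ⟨Nat.prime_two⟩
      obtain ⟨m, hm⟩ := IsPGroup.iff_card.1 hP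
      have h1 : Nat.card P ∣ 12 := by
        rw [← hc]
        exact (Subgroup.card_subgroup_dvd_card P).trans hq
      have h2 : Nat.card P ∣ 4 := by
        rw [hm] at h1 ⊢
        have h3 : m ≤ 2 := by
          by_contra h4
          have h5 : 2 ^ 3 ∣ 2 ^ m := Nat.pow_dvd_pow 2 (by omega)
          have h6 : 2 ^ 3 ∣ 12 := h5.trans h1
          norm_num at h6
        exact (Nat.pow_dvd_pow 2 h3).trans (by norm_num)
      refine no_form τ hτ (fun a b => ?_) B hB1 hB2
      rw [← map_mul, ← map_mul, comm_of_dvd_four P h2 a b]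
  · -- the symmetric group
    have hsurj : Function.Surjective f := by
      rw [← MonoidHom.range_eq_top]
      exact Subgroup.eq_top_of_card_eq _ (by rw [hc, hP4])
    exact inCls_of_surj hY σ 4 f hsurj hk

end StarkC.ABS
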