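import Pool.Agent.ABS.OPV
import Pool.Agent.ABS.XPR
import Pool.Agent.ABS.XOC
import Pool.Agent.ABS.XQ4
import Pool.Agent.YNG.YT
import Pool.Agent.YNG.YL
import Pool.Agent.YNG.YD1
import Pool.Agent.YNG.YD2
import Pool.Agent.YNG.YI
import Pool.Agent.YNG.YA
import Pool.Agent.YNG.YP
import Pool.Agent.YNG.YK
import Pool.Agent.YNG.YG
import Pool.Agent.YNG.YO
import Pool.Agent.YNG.CA
import Pool.Agent.YNG.CB
import Pool.Agent.YNG.CB1
import Pool.Agent.YNG.PM0
import Pool.Agent.YNG.PM
import Pool.Agent.YNG.PD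
import Pool.Agent.YNG.PE
import Pool.Agent.YNG.PA
import Pool.Agent.YNG.PO
import Pool.Agent.YNG.PS0
import Pool.Agent.YNG.PS1
import Pool.Agent.YNG.PS2
import Pool.Agent.YNG.PS3
import Pool.Agent.YNG.TC
import Pool.Agent.YNG.TL
import Pool.Agent.YNG.TI
import Pool.Agent.YNG.TP
import Pool.Agent.YNG.TE

/-!
# Project ABS: one `φ`, final form (helper6)
-/

set_option autoImplicit false

open NumberField IsDedekindDomain
open scoped Classical

namespace StarkC.ABS

open StarkP (InCls InClsS ConF GoodExt IsSub OccursIn Lift Extends IsTheta PExt SplitPlace PPow)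

open Pool.Agent.YNG

/-- Young's theorem. -/
theorem YT_all : Stmt_YT :=
  YT_of YL_thm YD1_thm YD2_thm YI_thm YA_thm YP_thm YK_thm (YG_thm YK_thm) YO_thm

/-- Young's theorem for products of symmetric groups. -/
theorem TQ_all : Stmt_TQ := fun k n =>
  TQx.permG_pi YD1_thm YD2_thm YI_thm YA_thm YP_thm YK_thm (YG_thm YK_thm) YO_thm TL_thm TI_thm
    TP_thm TE_thm k n

/-- The printed theorem. -/
theorem mainV (K : Type) [Field K] [NumberField K] (S : Finset (HeightOneSpectrum (𝓞 K))) :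
    ∃ Θ : ∀ L : IntermediateField K (AlgebraicClosure K),
      ((L → ℝ) →₀ ℂ) →ₗ[ℂ] ((L → ℝ) →₀ ℂ),
      (∀ (F : IntermediateField K (AlgebraicClosure K)) [NumberField F],
        IsTheta K (StarkP.aboveSet K F S) (Θ F)) ∧
      (∀ (F L : IntermediateField K (AlgebraicClosure K)) [NumberField F] [NumberField L]
        (h : F ≤ L), Extends (IntermediateField.inclusion h : F →+* L) (StarkP.aboveSet K F S)
          (StarkP.aboveSet K L S) (Θ F) (Θ L)) ∧
      (S = ∅ → ∀ (F L : IntermediateField K (AlgebraicClosure K)) [NumberField F] [NumberField L]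
        [IsGalois K L] (h : F ≤ L),
        ((PPow K L ∨ (GoodExt h ∧ (Odd (Module.finrank K F) ∨
            ∀ (W : Type) [AddCommGroup W] [Module ℂ W] [Module.Finite ℂ W]
              (σ : Representation ℂ (L ≃ₐ[K] L) W), ConF h σ →
                OccursIn (StarkP.aboveSet K L S) σ))) →
          StarkP.unitIndex (Θ F) * (if Fintype.card (InfinitePlace K) = 1 then
            (classNumber K : ℚ) / Units.torsionOrder K else 1) =
          (classNumber F : ℚ) / Units.torsionOrder F) ∧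
        (Module.finrank ℚ K = 1 →
          (PPow K L ∨ (GoodExt h ∧ (Odd (Module.finrank K F) ∨
            ¬ ∃ E : IntermediateField ℚ F, IsCMField E))) →
          StarkP.unitIndex (Θ F) = classNumber F)) ∧
      ∀ (L : IntermediateField K (AlgebraicClosure K)) [NumberField L] [IsGalois K L]
        (V : Type) [AddCommGroup V] [Module ℂ V] [Module.Finite ℂ V]
        (ρ : Representation ℂ (L ≃ₐ[K] L) V),
        ((1 < Fintype.card (InfinitePlace K) + S.card ∧ PPow K L) ∨
          ∀ (W : Type) [AddCommGroup W] [Module ℂ W] [Module.Finite ℂ W]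
            (σ : Representation ℂ (L ≃ₐ[K] L) W), σ.IsIrreducible → IsSub σ ρ →
            InClsS σ ∧ (OccursIn (StarkP.aboveSet K L S) σ ∨
              (SplitPlace K (StarkP.aboveSet K L S) ∧ ∃ g, σ g ≠ 1))) →
        ((∀ g, ∃ q : ℚ, ρ.character g = (q : ℂ)) → ∃ F : ℂ → ℂ,
          StarkP.IsArtinL ρ.character S F ∧
          StarkP.Reg (StarkP.aboveSet K L S) ρ (Θ L) = meromorphicTrailingCoeffAt F 0) ∧
        (((∀ g, ∃ q : ℚ, (ρ.character g).re = (q : ℝ)) ∨ (∀ g, ρ g ^ 6 = 1)) →
          ∀ F : ℂ → ℂ, StarkP.IsArtinL ρ.character S F →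
          ‖StarkP.Reg (StarkP.aboveSet K L S) ρ (Θ L)‖ = ‖meromorphicTrailingCoeffAt F 0‖) :=
  mainV_of XPR_thm XOC_thm CA_thm (CB_thm CB1_thm) YT_all PA_thm (PD_thm (PM_thm PM0_thm)) PE_thm
    PO_thm (XQ4_thm YT_all) PS0_thm PS1_thm PS2_thm PS3_thm TC_thm TQ_all K S

end StarkC.ABS
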