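import Pool.Agent.ABS.StTowerG

/-!
# Project ABS, part G of the tower, module XCN

Odd characters of a CM field do not occur in `X`.
-/

set_option autoImplicit false

open NumberField IsDedekindDomain
open scoped Classical

namespace StarkC.ABS

open StarkP (IsSub OccursIn)

namespace XCNx

/-- all embeddings of a number field of degree one agree -/
theorem hom_eq (K : Type) [Field K] [NumberField K] (h : Module.finrank ℚ K = 1)
    (f g : K →+* ℂ) : f = g := by
  have h1 : (⊥ : Subalgebra ℚ K) = ⊤ := Subalgebra.bot_eq_top_iff_finrank_eq_one.2 h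
  ext x
  have hx : x ∈ (⊥ : Subalgebra ℚ K) := by rw [h1]; exact Algebra.mem_top
  obtain ⟨q, rfl⟩ := Algebra.mem_bot.1 hx
  simp

/-- the complex conjugation of an embedding -/
theorem exists_conj {K L : Type} [Field K] [NumberField K] [Field L] [NumberField L]
    [Algebra K L] [IsGalois K L] (hK : Module.finrank ℚ K = 1) (φ : L →+* ℂ) :
    ∃ c : L ≃ₐ[K] L, ∀ x, φ (c x) = starRingEnd ℂ (φ x) := by
  obtain ⟨τ, hτ⟩ := ComplexEmbedding.exists_comp_symm_eq_of_comp_eq (k := K) φ
    (ComplexEmbedding.conjugate φ) (hom_eq K hK _ _)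
  refine ⟨τ.symm, fun x => ?_⟩
  have := congrArg (fun f : L →+* ℂ => f x) hτ
  simpa using this

/-- a map which is trivial on the maximal real subfield of a CM field `E` is on `E` the identity or
the complex conjugation -/
theorem cm_split (E : Type) [Field E] [NumberField E] [IsCMField E] {L : Type} [Field L]
    [Algebra E L] (m : L →+* L)
    (hm : ∀ x ∈ maximalRealSubfield E, m (algebraMap E L x) = algebraMap E L x) :
    (∀ x : E, m (algebraMap E L x) = algebraMap E L x) ∨
      (∀ x : E, m (algebraMap E L x) = algebraMap E L (IsCMField.complexConj E x)) := by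
  have hm' : ∀ x : E, IsCMField.complexConj E x = x → m (algebraMap E L x) = algebraMap E L x := by
    intro x hx
    exact hm x ((IsCMField.complexConj_eq_self_iff E x).1 hx)
  obtain ⟨d0, hd0⟩ : ∃ d0 : E, IsCMField.complexConj E d0 ≠ d0 := by
    by_contra hcon
    push Not at hcon
    apply IsCMField.complexConj_ne_one E
    ext x
    exact hcon x
  have hjj : ∀ x : E, IsCMField.complexConj E (IsCMField.complexConj E x) = x :=
    fun x => IsCMField.complexConj_apply_apply E x
  set j := IsCMField.complexConj E with hj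
  obtain ⟨d, hd⟩ : ∃ d : E, d = d0 - j d0 := ⟨_, rfl⟩
  have hdj : j d = -d := by
    rw [hd, map_sub, hjj]
    ring
  have hdne : d ≠ 0 := by
    rw [hd]
    exact sub_ne_zero.2 (Ne.symm hd0)
  have hsq : m (algebraMap E L d) * m (algebraMap E L d) =
      algebraMap E L d * algebraMap E L d := by
    rw [← map_mul m, ← map_mul (algebraMap E L)]
    apply hm'
    rw [map_mul, hdj]
    ring
  have hcase : m (algebraMap E L d) = algebraMap E L d ∨
      m (algebraMap E L d) = -algebraMap E L d := mul_self_eq_mul_self_iff.1 hsq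
  have h2 : (2 : E) ≠ 0 := two_ne_zero
  have hdec : ∀ x : E, ∃ s r : E, j s = s ∧ j r = r ∧ x = s + r * d ∧ j x = s - r * d := by
    intro x
    refine ⟨(x + j x) / 2, (x - j x) / (2 * d), ?_, ?_, ?_, ?_⟩
    · rw [map_div₀, map_add, hjj, map_ofNat]
      ring
    · rw [map_div₀, map_sub, hjj, map_mul, hdj, map_ofNat]
      field_simp
      ring
    · field_simp
      ring
    · field_simp
      ring
  rcases hcase with h | h
  · left
    intro x
    obtain ⟨s, r, hs, hr, hx, -⟩ := hdec x
    rw [hx]
    simp only [map_add, map_mul]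
    rw [hm' s hs, hm' r hr, h]
  · right
    intro x
    obtain ⟨s, r, hs, hr, hx, hjx⟩ := hdec x
    rw [hjx, hx]
    simp only [map_add, map_mul, map_sub]
    rw [hm' s hs, hm' r hr, h]
    ring

theorem mapDomain_comp {N : Type} [Field N] (g : N ≃+* N) (x : (N → ℝ) →₀ ℂ) (b : N → ℝ) :
    Finsupp.mapDomain (fun a : N → ℝ => a ∘ g.symm) x b = x (b ∘ g) := by
  have hinj : Function.Injective (fun a : N → ℝ => a ∘ g.symm) := by
    intro a c hac
    funext t
    have := congrFun hac (g t)
    simpa using this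
  have h : b = (fun a : N → ℝ => a ∘ g.symm) (b ∘ g) := by
    funext t
    simp
  conv_lhs => rw [h]
  rw [Finsupp.mapDomain_apply hinj]

end XCNx

open XCNx in
theorem XCN_thm : Stmt_XCN := by
  intro K E L _ _ _ _ _ _ _ _ _ _ _ _ hK W _ _ _ σ hirr hv hocc
  obtain ⟨v, hfix, m, hm, hmv⟩ := hv
  -- the map `m` is the complex conjugation on `E`
  have hmE : ∀ x : E, m (algebraMap E L x) = algebraMap E L (IsCMField.complexConj E x) := by
    rcases cm_split E (m : L →+* L) (fun x hx => hm x hx) with h | h
    · exfalso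
      exact hmv (hfix m (fun x => h x))
    · exact fun x => h x
  have hcE : ∀ (φ : L →+* ℂ) (c : L ≃ₐ[K] L), (∀ x, φ (c x) = starRingEnd ℂ (φ x)) →
      ∀ x : E, c (algebraMap E L x) = algebraMap E L (IsCMField.complexConj E x) := by
    intro φ c hc x
    apply φ.injective
    rw [hc]
    exact (IsCMField.complexEmbedding_complexConj E (φ.comp (algebraMap E L)) x).symm
  have hcc : ∀ (φ : L →+* ℂ) (c : L ≃ₐ[K] L), (∀ x, φ (c x) = starRingEnd ℂ (φ x)) →
      c * c = 1 := by
    intro φ c hc
    ext x
    apply φ.injective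
    rw [AlgEquiv.mul_apply, hc, hc, Complex.conj_conj, AlgEquiv.one_apply]
  have hcv : ∀ (φ : L →+* ℂ) (c : L ≃ₐ[K] L), (∀ x, φ (c x) = starRingEnd ℂ (φ x)) →
      σ c v = σ m v := by
    intro φ c hc
    have h1 : σ (c⁻¹ * m) v = v := by
      apply hfix
      intro x
      show c.symm (m (algebraMap E L x)) = algebraMap E L x
      rw [hmE, AlgEquiv.symm_apply_eq, hcE φ c hc]
    calc σ c v = σ c (σ (c⁻¹ * m) v) := by rw [h1]
      _ = σ (c * (c⁻¹ * m)) v := by rw [map_mul σ c]; rfl
      _ = σ m v := by rw [mul_inv_cancel_left]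
  obtain ⟨u, hu⟩ : ∃ u : W, u = v - σ m v := ⟨_, rfl⟩
  have hu0 : u ≠ 0 := by
    rw [hu]
    exact sub_ne_zero.2 (Ne.symm hmv)
  have hcu : ∀ (φ : L →+* ℂ) (c : L ≃ₐ[K] L), (∀ x, φ (c x) = starRingEnd ℂ (φ x)) →
      σ c u = -u := by
    intro φ c hc
    have h1 := hcv φ c hc
    have h2 : σ c (σ c v) = v := by
      have h3 : σ (c * c) v = σ c (σ c v) := by rw [map_mul]; rfl
      rw [← h3, hcc φ c hc, map_one]
      rfl
    rw [hu, map_sub, ← h1, h2]
    abel
  have hcg : ∀ (φ : L →+* ℂ) (c : L ≃ₐ[K] L), (∀ x, φ (c x) = starRingEnd ℂ (φ x)) →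
      ∀ g : L ≃ₐ[K] L, σ c (σ g u) = -σ g u := by
    intro φ c hc g
    have h1 : σ (g⁻¹ * c * g) u = -u := by
      apply hcu (φ.comp ((g : L ≃+* L) : L →+* L))
      intro x
      show φ (g (g.symm (c (g x)))) = starRingEnd ℂ (φ (g x))
      rw [AlgEquiv.apply_symm_apply, hc]
    have h2 : σ c (σ g u) = σ g (σ (g⁻¹ * c * g) u) := by
      have h3 : σ (g * (g⁻¹ * c * g)) u = σ g (σ (g⁻¹ * c * g) u) := by rw [map_mul]; rfl
      have h4 : σ (c * g) u = σ c (σ g u) := by rw [map_mul]; rfl
      rw [← h3, ← h4]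
      congr 2
      group
    rw [h2, h1, map_neg]
  have hall : ∀ (φ : L →+* ℂ) (c : L ≃ₐ[K] L), (∀ x, φ (c x) = starRingEnd ℂ (φ x)) →
      ∀ w : W, σ c w = -w := by
    intro φ c hc
    let U : Subrepresentation σ :=
      ⟨{ carrier := {w | ∀ g, σ c (σ g w) = -σ g w}
         add_mem' := by
          intro a b ha hb g
          rw [map_add, map_add, ha g, hb g]
          abel
         zero_mem' := by
          intro g
          simp
         smul_mem' := by
          intro t a ha g
          rw [map_smul, map_smul, ha g, smul_neg] },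
       fun h w hw => by
        intro g
        have h1 : σ (g * h) w = σ g (σ h w) := by rw [map_mul]; rfl
        rw [← h1]
        exact hw (g * h)⟩
    have huU : u ∈ U := hcg φ c hc
    rcases hirr.eq_bot_or_eq_top U with h4 | h4
    · exfalso
      rw [h4] at huU
      exact hu0 huU
    · intro w
      have h5 : w ∈ U := by
        rw [h4]
        exact Submodule.mem_top
      have h6 : σ c (σ 1 w) = -σ 1 w := h5 1
      rw [map_one] at h6
      exact h6
  obtain ⟨f, hf0, hfX, hfe⟩ := hocc
  apply hf0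
  ext α a
  show f α a = 0
  by_cases ha : a ∈ StarkP.placeSet L (StarkP.aboveSet K L
      ((∅ : Finset (HeightOneSpectrum (𝓞 K))) : Set (HeightOneSpectrum (𝓞 K))))
  · rcases ha with ⟨w, rfl⟩ | ⟨w, hw, rfl⟩
    · obtain ⟨c, hc⟩ := exists_conj (K := K) hK w.embedding
      have h1 : (σ.dual c α) = -α := by
        ext x
        rw [Representation.dual_apply]
        show α (σ c⁻¹ x) = -α x
        have h2 : σ c⁻¹ x = -x := by
          have h3 : c⁻¹ = c := inv_eq_of_mul_eq_one_left (hcc w.embedding c hc)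
          rw [h3, hall w.embedding c hc]
        rw [h2, map_neg]
      have h4 := hfe c α
      rw [h1, map_neg] at h4
      have h5 := congrArg (fun y : (L → ℝ) →₀ ℂ => y (StarkP.infAbs L w)) h4
      simp only [Finsupp.coe_neg, Pi.neg_apply] at h5
      have h6 : StarkP.act (c : L ≃+* L) (f α) (StarkP.infAbs L w) =
          f α (StarkP.infAbs L w ∘ (c : L ≃+* L)) := mapDomain_comp (c : L ≃+* L) (f α) _
      have h7 : StarkP.infAbs L w ∘ (c : L ≃+* L) = StarkP.infAbs L w := by
        funext x
        show (w (c x)) ^ w.mult = (w x) ^ w.mult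
        rw [← InfinitePlace.norm_embedding_eq w (c x), hc, Complex.norm_conj,
          InfinitePlace.norm_embedding_eq]
      rw [h6, h7] at h5
      exact self_eq_neg.1 h5.symm
    · exfalso
      have h1 : w.under (𝓞 K) ∈ ((∅ : Finset (HeightOneSpectrum (𝓞 K))) :
        Set (HeightOneSpectrum (𝓞 K))) := hw
      simp at h1
  · have h1 := (Submodule.mem_inf.1 (hfX α)).1
    by_contra h2
    exact ha ((Finsupp.mem_supported ℂ (f α)).1 h1 (by simpa using h2))

end StarkC.ABS
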