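import Pool.Agent.ABS.StTowerF
import Pool.Agent.ABS.WZP

/-!
# Project ABS, XPC: permutation representations of `H ≤ M`, the complement (helper31)
-/

set_option autoImplicit false

open scoped Classical

namespace StarkC.ABS

open StarkP (IsSub)

namespace XPCx

variable {G : Type} [Group G] [Fintype G] {H M : Subgroup G} (hHM : H ≤ M)

set_option linter.unusedSectionVars false

/-- The projection of the cosets. -/
def pr : G ⧸ H → G ⧸ M := Subgroup.quotientMapOfLE hHM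

theorem pr_mk (g : G) : pr hHM (g : G ⧸ H) = (g : G ⧸ M) := rfl

theorem pr_smul (g : G) (x : G ⧸ H) : pr hHM (g • x) = g • pr hHM x := by
  obtain ⟨a, rfl⟩ := QuotientGroup.mk_surjective x
  rfl

/-- The pull back. -/
noncomputable def P : (G ⧸ M → ℂ) →ₗ[ℂ] (G ⧸ H → ℂ) := LinearMap.funLeft ℂ ℂ (pr hHM)

/-- The sum over the fibres. -/
noncomputable def T : (G ⧸ H → ℂ) →ₗ[ℂ] (G ⧸ M → ℂ) where
  toFun f := fun y => ∑ x : G ⧸ H, if pr hHM x = y then f x else 0
  map_add' := by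
    intro f f'
    funext y
    rw [Pi.add_apply, ← Finset.sum_add_distrib]
    refine Finset.sum_congr rfl fun x _ => ?_
    split_ifs
    · rfl
    · rw [add_zero]
  map_smul' := by
    intro c f
    funext y
    rw [RingHom.id_apply, Pi.smul_apply, smul_eq_mul, Finset.mul_sum]
    refine Finset.sum_congr rfl fun x _ => ?_
    split_ifs
    · rfl
    · rw [mul_zero]

theorem T_apply (f : G ⧸ H → ℂ) (y : G ⧸ M) :
    T hHM f y = ∑ x : G ⧸ H, if pr hHM x = y then f x else 0 := rfl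

theorem T_perm (g : G) (f : G ⧸ H → ℂ) :
    T hHM (WZPx.perm H g f) = WZPx.perm M g (T hHM f) := by
  funext y
  rw [WZPx.perm_apply, T_apply, T_apply,
    ← Equiv.sum_comp (MulAction.toPerm g : Equiv.Perm (G ⧸ H))]
  refine Finset.sum_congr rfl fun x _ => ?_
  rw [MulAction.toPerm_apply, pr_smul, WZPx.perm_apply, inv_smul_smul]
  refine if_congr ?_ rfl rfl
  rw [smul_eq_iff_eq_inv_smul]

theorem P_perm (g : G) (f : G ⧸ M → ℂ) :
    P hHM (WZPx.perm M g f) = WZPx.perm H g (P hHM f) := by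
  funext x
  rw [WZPx.perm_apply]
  unfold P
  rw [LinearMap.funLeft_apply, LinearMap.funLeft_apply, WZPx.perm_apply, pr_smul]

/-- The size of a fibre. -/
noncomputable def n0 : ℂ := ∑ x : G ⧸ H, if pr hHM x = ((1 : G) : G ⧸ M) then 1 else 0

theorem n_eq (y : G ⧸ M) : (∑ x : G ⧸ H, if pr hHM x = y then (1 : ℂ) else 0) = n0 hHM := by
  obtain ⟨g, rfl⟩ := QuotientGroup.mk_surjective y
  unfold n0
  rw [← Equiv.sum_comp (MulAction.toPerm g : Equiv.Perm (G ⧸ H))]
  refine Finset.sum_congr rfl fun x _ => ?_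
  rw [MulAction.toPerm_apply, pr_smul]
  refine if_congr ?_ rfl rfl
  have h1 : ((g : G) : G ⧸ M) = g • ((1 : G) : G ⧸ M) := by
    change _ = ((g * 1 : G) : G ⧸ M)
    rw [mul_one]
  rw [h1]
  exact smul_left_cancel_iff g

theorem n0_ne : n0 hHM ≠ 0 := by
  unfold n0
  rw [Finset.sum_boole]
  have : (Finset.univ.filter fun x : G ⧸ H => pr hHM x = ((1 : G) : G ⧸ M)).card ≠ 0 := by
    rw [Finset.card_ne_zero]
    exact ⟨((1 : G) : G ⧸ H), by simp [pr_mk]⟩
  exact_mod_cast this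

theorem T_P (b : G ⧸ M → ℂ) : T hHM (P hHM b) = n0 hHM • b := by
  funext y
  rw [T_apply, Pi.smul_apply, smul_eq_mul, ← n_eq hHM y, Finset.sum_mul]
  refine Finset.sum_congr rfl fun x _ => ?_
  unfold P
  rw [LinearMap.funLeft_apply]
  split_ifs with h
  · rw [h, one_mul]
  · rw [zero_mul]

/-- The decomposition. -/
noncomputable def dec : (G ⧸ H → ℂ) ≃ₗ[ℂ] (LinearMap.ker (T hHM) × (G ⧸ M → ℂ)) where
  toFun f := (⟨f - (n0 hHM)⁻¹ • P hHM (T hHM f), by
    rw [LinearMap.mem_ker, map_sub, map_smul, T_P, smul_smul, inv_mul_cancel₀ (n0_ne hHM),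
      one_smul, sub_self]⟩, T hHM f)
  map_add' := by
    intro f f'
    refine Prod.ext (Subtype.ext ?_) (map_add _ _ _)
    change f + f' - (n0 hHM)⁻¹ • P hHM (T hHM (f + f')) =
      (f - (n0 hHM)⁻¹ • P hHM (T hHM f)) + (f' - (n0 hHM)⁻¹ • P hHM (T hHM f'))
    rw [map_add, map_add, smul_add]
    abel
  map_smul' := by
    intro c f
    refine Prod.ext (Subtype.ext ?_) (map_smul _ _ _)
    change c • f - (n0 hHM)⁻¹ • P hHM (T hHM (c • f)) =
      c • (f - (n0 hHM)⁻¹ • P hHM (T hHM f))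
    rw [map_smul, map_smul, smul_sub, smul_comm]
  invFun a := (a.1 : G ⧸ H → ℂ) + (n0 hHM)⁻¹ • P hHM a.2
  left_inv := by
    intro f
    change f - (n0 hHM)⁻¹ • P hHM (T hHM f) + (n0 hHM)⁻¹ • P hHM (T hHM f) = f
    rw [sub_add_cancel]
  right_inv := by
    intro a
    have h1 : T hHM ((a.1 : G ⧸ H → ℂ) + (n0 hHM)⁻¹ • P hHM a.2) = a.2 := by
      rw [map_add, LinearMap.mem_ker.1 a.1.2, zero_add, map_smul, T_P, smul_smul,
        inv_mul_cancel₀ (n0_ne hHM), one_smul]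
    refine Prod.ext (Subtype.ext ?_) h1
    change (a.1 : G ⧸ H → ℂ) + (n0 hHM)⁻¹ • P hHM a.2 -
      (n0 hHM)⁻¹ • P hHM (T hHM ((a.1 : G ⧸ H → ℂ) + (n0 hHM)⁻¹ • P hHM a.2)) = a.1
    rw [h1, add_sub_cancel_right]

theorem inv_ker (g : G) : ∀ f ∈ LinearMap.ker (T hHM), WZPx.perm H g f ∈ LinearMap.ker (T hHM) := by
  intro f hf
  rw [LinearMap.mem_ker] at hf ⊢
  rw [T_perm, hf, map_zero]

/-- The complement. -/
noncomputable def cmp : Representation ℂ G (LinearMap.ker (T hHM)) where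
  toFun g := (WZPx.perm H g).restrict (inv_ker hHM g)
  map_one' := by
    refine LinearMap.ext fun f => Subtype.ext ?_
    change WZPx.perm H 1 (f : G ⧸ H → ℂ) = f
    rw [map_one]
    rfl
  map_mul' := by
    intro a b
    refine LinearMap.ext fun f => Subtype.ext ?_
    change WZPx.perm H (a * b) (f : G ⧸ H → ℂ) = WZPx.perm H a (WZPx.perm H b f)
    rw [map_mul]
    rfl

theorem cmp_coe (g : G) (f : LinearMap.ker (T hHM)) :
    ((cmp hHM g f : LinearMap.ker (T hHM)) : G ⧸ H → ℂ) = WZPx.perm H g f := rfl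

theorem conj_eq (g : G) : (dec hHM).conj (WZPx.perm H g) =
    LinearMap.prodMap (cmp hHM g) (WZPx.perm M g) := by
  refine LinearMap.ext fun a => ?_
  have h0 : (dec hHM).conj (WZPx.perm H g) a =
      dec hHM (WZPx.perm H g ((dec hHM).symm a)) := rfl
  have h1 : (dec hHM).symm a = (a.1 : G ⧸ H → ℂ) + (n0 hHM)⁻¹ • P hHM a.2 := rfl
  have h2 : WZPx.perm H g ((dec hHM).symm a) =
      (dec hHM).symm (cmp hHM g a.1, WZPx.perm M g a.2) := by
    have h3 : (dec hHM).symm (cmp hHM g a.1, WZPx.perm M g a.2) =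
      WZPx.perm H g (a.1 : G ⧸ H → ℂ) + (n0 hHM)⁻¹ • P hHM (WZPx.perm M g a.2) := rfl
    rw [h3, h1, map_add, map_smul, P_perm]
  rw [h0, h2, LinearEquiv.apply_symm_apply]
  rfl

theorem char_cmp (g : G) : (cmp hHM).character g =
    indFun H (fun _ => 1) g - indFun M (fun _ => 1) g := by
  have h1 := LinearMap.trace_conj' (WZPx.perm H g) (dec hHM)
  rw [conj_eq, LinearMap.trace_prodMap'] at h1
  rw [← WZPx.char_eq, ← WZPx.char_eq]
  unfold Representation.character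
  rw [← h1]
  ring

theorem sub_vec {W : Type} [AddCommGroup W] [Module ℂ W] (σ : Representation ℂ G W)
    (hσ : σ.IsIrreducible) (hs : IsSub σ (cmp hHM)) :
    ∃ v : W, (∀ h ∈ H, σ h v = v) ∧ ∃ m ∈ M, σ m v ≠ v := by
  obtain ⟨i, hi, hig⟩ := hs
  have hev : ∀ g w, (i (σ g w) : G ⧸ H → ℂ) ((1 : G) : G ⧸ H) =
      (i w : G ⧸ H → ℂ) ((g⁻¹ : G) : G ⧸ H) := by
    intro g w
    have h2 : g⁻¹ • ((1 : G) : G ⧸ H) = ((g⁻¹ : G) : G ⧸ H) := by
      change ((g⁻¹ * 1 : G) : G ⧸ H) = _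
      rw [mul_one]
    rw [hig, cmp_coe, WZPx.perm_apply, h2]
  have hw : ∃ w : W, (i w : G ⧸ H → ℂ) ((1 : G) : G ⧸ H) ≠ 0 := by
    by_contra hn
    push Not at hn
    have hz : ∀ w : W, w = 0 := by
      intro w
      apply hi
      rw [map_zero]
      refine Subtype.ext (funext fun x => ?_)
      obtain ⟨g, rfl⟩ := QuotientGroup.mk_surjective x
      have h1 := hev g⁻¹ w
      rw [hn, inv_inv] at h1
      exact h1.symm
    have h4 : (⊥ : Subrepresentation σ) = ⊤ := by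
      ext x
      have hx : x = 0 := hz x
      rw [hx]
      exact ⟨fun _ => trivial, fun _ => rfl⟩
    have : Nontrivial (Subrepresentation σ) := hσ.toNontrivial
    exact bot_ne_top h4
  obtain ⟨w, hw⟩ := hw
  have hH : ∀ h : H, (i (σ (h : G) w) : G ⧸ H → ℂ) ((1 : G) : G ⧸ H) =
      (i w : G ⧸ H → ℂ) ((1 : G) : G ⧸ H) := by
    intro h
    have h2 : (((h : G)⁻¹ : G) : G ⧸ H) = ((1 : G) : G ⧸ H) := by
      rw [QuotientGroup.eq]
      simp
    rw [hev, h2]
  have hfix : ∀ k ∈ H, σ k (∑ h : H, σ (h : G) w) = ∑ h : H, σ (h : G) w := by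
    intro k hk
    rw [map_sum]
    have h1 : ∀ h : H, σ k (σ (h : G) w) = σ (((⟨k, hk⟩ : H) * h : H) : G) w := by
      intro h
      rw [Subgroup.coe_mul, map_mul]
      rfl
    rw [Finset.sum_congr rfl fun h _ => h1 h]
    exact Equiv.sum_comp (Equiv.mulLeft (⟨k, hk⟩ : H)) fun h : H => σ (h : G) w
  have hne : (i (∑ h : H, σ (h : G) w) : G ⧸ H → ℂ) ((1 : G) : G ⧸ H) ≠ 0 := by
    have h1 : (i (∑ h : H, σ (h : G) w) : G ⧸ H → ℂ) ((1 : G) : G ⧸ H) =
        (Fintype.card H : ℂ) * (i w : G ⧸ H → ℂ) ((1 : G) : G ⧸ H) := by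
      rw [map_sum, AddSubmonoidClass.coe_finsetSum, Finset.sum_apply,
        Finset.sum_congr rfl fun h _ => hH h, Finset.sum_const, Finset.card_univ, nsmul_eq_mul]
    rw [h1]
    have h2 : (Fintype.card H : ℂ) ≠ 0 := by
      exact_mod_cast Fintype.card_ne_zero
    exact mul_ne_zero h2 hw
  generalize (∑ h : H, σ (h : G) w) = v at hfix hne
  refine ⟨v, hfix, ?_⟩
  by_contra hn
  push Not at hn
  have h1 : T hHM (i v : G ⧸ H → ℂ) ((1 : G) : G ⧸ M) = 0 := by
    rw [LinearMap.mem_ker.1 (i v).2]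
    rfl
  have h2 : T hHM (i v : G ⧸ H → ℂ) ((1 : G) : G ⧸ M) =
      n0 hHM * (i v : G ⧸ H → ℂ) ((1 : G) : G ⧸ H) := by
    rw [T_apply]
    unfold n0
    rw [Finset.sum_mul]
    refine Finset.sum_congr rfl fun x _ => ?_
    split_ifs with hx
    · obtain ⟨g, rfl⟩ := QuotientGroup.mk_surjective x
      rw [one_mul]
      have hx' : ((g : G) : G ⧸ M) = ((1 : G) : G ⧸ M) := hx
      have hg : g⁻¹ ∈ M := by
        have h5 := QuotientGroup.eq.1 hx'
        rwa [mul_one] at h5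
      have h3 := hev g⁻¹ v
      rw [hn _ hg, inv_inv] at h3
      exact h3.symm
    · rw [zero_mul]
  rw [h2] at h1
  exact mul_ne_zero (n0_ne hHM) hne h1

end XPCx

theorem XPC_thm : Stmt_XPC := by
  intro G _ _ H M hHM
  refine ⟨⟨G ⧸ M → ℂ, inferInstance, inferInstance, inferInstance, WZPx.perm M,
    WZPx.char_eq M⟩, ?_⟩
  refine ⟨LinearMap.ker (XPCx.T hHM), inferInstance, inferInstance, inferInstance,
    XPCx.cmp hHM, XPCx.char_cmp hHM, ?_, fun W _ _ _ σ hσ hs => XPCx.sub_vec hHM σ hσ hs⟩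
  intro g
  obtain ⟨q, hq⟩ := WZPx.char_rat H g
  obtain ⟨q', hq'⟩ := WZPx.char_rat M g
  refine ⟨q - q', ?_⟩
  rw [XPCx.char_cmp, ← WZPx.char_eq, ← WZPx.char_eq, hq, hq']
  push_cast
  rfl

end StarkC.ABS
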