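import Pool.Agent.ABS.StTowerG

set_option autoImplicit false

open NumberField IsDedekindDomain
open scoped Classical

namespace StarkC.ABS

open StarkP (IsSub OccursIn)

namespace XRNx

section gen

variable {G : Type} [Group G] {V : Type} [AddCommGroup V] [Module ℂ V]

theorem compl_sub {ρ : Representation ℂ G V} {P Q : Subrepresentation ρ} (h : IsCompl P Q) :
    IsCompl P.toSubmodule Q.toSubmodule := by
  refine IsCompl.of_eq ?_ ?_
  · exact congrArg Subrepresentation.toSubmodule h.inf_eq_bot
  · exact congrArg Subrepresentation.toSubmodule h.sup_eq_top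

theorem proj_equiv {ρ : Representation ℂ G V} {P Q : Subrepresentation ρ}
    (h : IsCompl P.toSubmodule Q.toSubmodule) (g : G) (v : V) :
    P.toSubmodule.projectionOnto Q.toSubmodule h (ρ g v) =
      P.toRepresentation g (P.toSubmodule.projectionOnto Q.toSubmodule h v) := by
  have h1 := Submodule.projection_add_projection_eq_self h v
  have hp : P.toSubmodule.projection Q.toSubmodule h v ∈ P.toSubmodule :=
    Submodule.projection_apply_mem h v
  have hq : Q.toSubmodule.projection P.toSubmodule h.symm v ∈ Q.toSubmodule :=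
    Submodule.projection_apply_mem h.symm v
  have h2 : ρ g v = ρ g (P.toSubmodule.projection Q.toSubmodule h v) +
      ρ g (Q.toSubmodule.projection P.toSubmodule h.symm v) := by
    rw [← map_add, h1]
  rw [h2, map_add, Submodule.projectionOnto_apply_of_mem_left h (P.apply_mem_toSubmodule g hp),
    Submodule.projectionOnto_apply_of_mem_right h (Q.apply_mem_toSubmodule g hq), add_zero]
  rfl

theorem sub_self (ρ : Representation ℂ G V) : IsSub ρ ρ :=
  ⟨LinearMap.id, Function.injective_id, fun _ _ => rfl⟩

theorem sub_sub {ρ : Representation ℂ G V} (P : Subrepresentation ρ) :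
    IsSub P.toRepresentation ρ :=
  ⟨P.toSubmodule.subtype, Subtype.val_injective, fun _ _ => rfl⟩

theorem sub_trans {V' V'' : Type} [AddCommGroup V'] [Module ℂ V'] [AddCommGroup V'']
    [Module ℂ V''] {ρ : Representation ℂ G V} {ρ' : Representation ℂ G V'}
    {ρ'' : Representation ℂ G V''} (h1 : IsSub ρ'' ρ') (h2 : IsSub ρ' ρ) : IsSub ρ'' ρ := by
  obtain ⟨i, hi, hi'⟩ := h1
  obtain ⟨j, hj, hj'⟩ := h2
  exact ⟨j.comp i, hj.comp hi, fun g w => by
    rw [LinearMap.comp_apply, LinearMap.comp_apply, hi', hj']⟩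

/-- Equivariant maps with values in `X`. -/
def Eq {M : Type} [AddCommGroup M] [Module ℂ M] (X : Submodule ℂ M) (A : G → M → M)
    (ρ : Representation ℂ G V) (f : Module.Dual ℂ V →ₗ[ℂ] M) : Prop :=
  (∀ α, f α ∈ X) ∧ ∀ (g : G) (α : Module.Dual ℂ V), f (ρ.dual g α) = A g (f α)

theorem eq_restrict {M : Type} [AddCommGroup M] [Module ℂ M] {X : Submodule ℂ M}
    {A : G → M → M} {ρ : Representation ℂ G V} {f : Module.Dual ℂ V →ₗ[ℂ] M} (hf : Eq X A ρ f)
    {P Q : Subrepresentation ρ} (h : IsCompl P.toSubmodule Q.toSubmodule) :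
    Eq X A P.toRepresentation
      (f ∘ₗ Module.Dual.transpose (P.toSubmodule.projectionOnto Q.toSubmodule h)) := by
  refine ⟨fun α => hf.1 _, fun g α => ?_⟩
  rw [LinearMap.comp_apply, LinearMap.comp_apply, ← hf.2]
  congr 1
  ext v
  show α (P.toRepresentation g⁻¹ (P.toSubmodule.projectionOnto Q.toSubmodule h v)) =
    α (P.toSubmodule.projectionOnto Q.toSubmodule h (ρ g⁻¹ v))
  rw [proj_equiv]

end gen

theorem main {G : Type} [Group G] [Finite G] {M : Type} [AddCommGroup M] [Module ℂ M]
    (X : Submodule ℂ M) (A : G → M → M) (n : ℕ) :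
    ∀ (V : Type) [AddCommGroup V] [Module ℂ V] [Module.Finite ℂ V] (ρ : Representation ℂ G V),
    Module.finrank ℂ V = n →
    (∀ (W : Type) [AddCommGroup W] [Module ℂ W] [Module.Finite ℂ W] (σ : Representation ℂ G W),
      σ.IsIrreducible → IsSub σ ρ → ∀ f : Module.Dual ℂ W →ₗ[ℂ] M, Eq X A σ f → f = 0) →
    ∀ f : Module.Dual ℂ V →ₗ[ℂ] M, Eq X A ρ f → f = 0 := by
  induction n using Nat.strong_induction_on with
  | _ n ih =>
    intro V _ _ _ ρ hn hirr f hf
    by_cases hsub : Subsingleton V
    · ext α
      have : α = 0 := by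
        ext v
        rw [Subsingleton.elim v 0, map_zero, map_zero]
      rw [this, map_zero, map_zero]
    · by_cases hρ : ρ.IsIrreducible
      · exact hirr V ρ hρ (sub_self ρ) f hf
      · have : Nontrivial V := not_subsingleton_iff_nontrivial.1 hsub
        obtain ⟨P, hP0, hP1⟩ : ∃ P : Subrepresentation ρ, P ≠ ⊥ ∧ P ≠ ⊤ := by
          by_contra hcon
          apply hρ
          have : Nontrivial (Subrepresentation ρ) := by
            refine ⟨⊥, ⊤, fun h => ?_⟩
            have h2 : (⊥ : Submodule ℂ V) = ⊤ := congrArg Subrepresentation.toSubmodule h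
            exact bot_ne_top h2
          refine ⟨fun P => ?_⟩
          by_contra h
          rw [not_or] at h
          exact hcon ⟨P, h.1, h.2⟩
        have : NeZero (Nat.card G : ℂ) := ⟨by exact_mod_cast Nat.card_pos.ne'⟩
        obtain ⟨Q, hPQ⟩ := exists_isCompl P
        have hc := compl_sub hPQ
        have hPt : P.toSubmodule ≠ ⊤ := fun h => hP1 (Subrepresentation.toSubmodule_injective h)
        have hQt : Q.toSubmodule ≠ ⊤ := by
          intro h
          have h2 := hc.inf_eq_bot
          rw [h, inf_top_eq] at h2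
          exact hP0 (Subrepresentation.toSubmodule_injective h2)
        have hfP := ih (Module.finrank ℂ P.toSubmodule)
          (by rw [← hn]; exact Submodule.finrank_lt hPt) P.toSubmodule P.toRepresentation rfl
          (fun W _ _ _ σ h1 h2 f' hf' => hirr W σ h1 (sub_trans h2 (sub_sub P)) f' hf') _
          (eq_restrict hf hc)
        have hfQ := ih (Module.finrank ℂ Q.toSubmodule)
          (by rw [← hn]; exact Submodule.finrank_lt hQt) Q.toSubmodule Q.toRepresentation rfl
          (fun W _ _ _ σ h1 h2 f' hf' => hirr W σ h1 (sub_trans h2 (sub_sub Q)) f' hf') _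
          (eq_restrict hf hc.symm)
        refine LinearMap.ext fun α => ?_
        have e : α = Module.Dual.transpose (P.toSubmodule.projectionOnto Q.toSubmodule hc)
            (α ∘ₗ P.toSubmodule.subtype) +
            Module.Dual.transpose (Q.toSubmodule.projectionOnto P.toSubmodule hc.symm)
            (α ∘ₗ Q.toSubmodule.subtype) := by
          refine LinearMap.ext fun v => ?_
          have h1 := Submodule.projection_add_projection_eq_self hc v
          show α v = α (P.toSubmodule.projection Q.toSubmodule hc v) +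
            α (Q.toSubmodule.projection P.toSubmodule hc.symm v)
          rw [← map_add, h1]
        have h1 := LinearMap.congr_fun hfP (α ∘ₗ P.toSubmodule.subtype)
        have h2 := LinearMap.congr_fun hfQ (α ∘ₗ Q.toSubmodule.subtype)
        rw [LinearMap.comp_apply] at h1 h2
        rw [e, map_add, h1, h2, LinearMap.zero_apply, LinearMap.zero_apply, add_zero,
          LinearMap.zero_apply]

theorem det_bot {M : Type} [AddCommGroup M] [Module ℂ M] (A : M →ₗ[ℂ] M) (W : Submodule ℂ M)
    (h : ∀ x ∈ W, x = 0) : StarkP.detOn A W = 1 := by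
  unfold StarkP.detOn
  have h1 : ∀ x ∈ W, A x ∈ W := by
    intro x hx
    rw [h x hx, map_zero]
    exact zero_mem _
  rw [dif_pos h1]
  have : Subsingleton W := ⟨fun a b => Subtype.ext ((h a a.2).trans (h b b.2).symm)⟩
  exact LinearMap.det_eq_one_of_subsingleton _

end XRNx

theorem XRN_thm : Stmt_XRN := by
  intro K L _ _ _ _ _ _ T V _ _ _ ρ hirr Θ
  have hz : StarkP.homG T ρ = ⊥ := by
    unfold StarkP.homG
    rw [Submodule.span_eq_bot]
    rintro f ⟨hf1, hf2⟩
    refine XRNx.main (G := (L ≃ₐ[K] L)) (StarkP.XC L T)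
      (fun (g : L ≃ₐ[K] L) x => StarkP.act (g : L ≃+* L) x)
      (Module.finrank ℂ V) V ρ rfl ?_ f ⟨hf1, hf2⟩
    intro W _ _ _ σ h1 h2 f' hf'
    by_contra hne
    exact hirr W σ h1 h2 ⟨f', hne, hf'.1, hf'.2⟩
  have h : ∀ x ∈ StarkP.homG T ρ, x = 0 := by
    intro x hx
    rw [hz] at hx
    exact (Submodule.mem_bot ℂ).1 hx
  exact XRNx.det_bot _ _ h

end StarkC.ABS
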