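import Pool.Agent.ABS.OPQ
import Pool.Agent.ABS.OPY
import Pool.Agent.ABS.XPC
import Pool.Agent.ABS.XRN
import Pool.Agent.ABS.XCN
import Pool.Agent.YNG.FA0
import Pool.Agent.YNG.FA
import Pool.Agent.YNG.FB1
import Pool.Agent.YNG.FB
import Pool.Agent.YNG.CC
import Pool.Agent.YNG.CW

/-!
# Project ABS: one `φ`, final form with pure fields and fields with CM subfields (helper6)
-/

set_option autoImplicit false

open NumberField IsDedekindDomain
open scoped Classical

namespace StarkC.ABS

open StarkP (InCls InClsS ConF GoodF IsSub OccursIn Lift Extends IsTheta PExt SplitPlace PPow)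

open Pool.Agent.YNG

/-- The printed theorem. -/
theorem mainQ (K : Type) [Field K] [NumberField K] (S : Finset (HeightOneSpectrum (𝓞 K))) :
    ∃ Θ : ∀ L : IntermediateField K (AlgebraicClosure K),
      ((L → ℝ) →₀ ℂ) →ₗ[ℂ] ((L → ℝ) →₀ ℂ),
      (∀ (F : IntermediateField K (AlgebraicClosure K)) [NumberField F],
        IsTheta K (StarkP.aboveSet K F S) (Θ F)) ∧
      (∀ (F L : IntermediateField K (AlgebraicClosure K)) [NumberField F] [NumberField L]
        (h : F ≤ L), Extends (IntermediateField.inclusion h : F →+* L) (StarkP.aboveSet K F S)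
          (StarkP.aboveSet K L S) (Θ F) (Θ L)) ∧
      (S = ∅ → ∀ (F L : IntermediateField K (AlgebraicClosure K)) [NumberField F] [NumberField L]
        [IsGalois K L] (h : F ≤ L),
        ((PPow K L ∨ (GoodF h ∧ (Odd (Module.finrank K F) ∨
            ∀ (W : Type) [AddCommGroup W] [Module ℂ W] [Module.Finite ℂ W]
              (σ : Representation ℂ (L ≃ₐ[K] L) W), ConF h σ →
                OccursIn (StarkP.aboveSet K L S) σ))) →
          StarkP.unitIndex (Θ F) * (if Fintype.card (InfinitePlace K) = 1 then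
            (classNumber K : ℚ) / Units.torsionOrder K else 1) =
          (classNumber F : ℚ) / Units.torsionOrder F) ∧
        (Module.finrank ℚ K = 1 →
          (PPow K L ∨ (GoodF h ∧ (Odd (Module.finrank K F) ∨
            ¬ ∃ E : IntermediateField ℚ F, IsCMField E))) →
          StarkP.unitIndex (Θ F) = classNumber F) ∧
        (Module.finrank ℚ K = 1 → GoodF h →
          ∀ (E : IntermediateField K (AlgebraicClosure K)) [NumberField E] [IsCMField E], E ≤ F →
          (∀ E' : IntermediateField K (AlgebraicClosure K), E' ≤ F → IsCMField E' → E' ≤ E) →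
          StarkP.unitIndex (Θ F) * classNumber E * 2 ^ Units.rank E =
            IsCMField.indexRealUnits E * classNumber (maximalRealSubfield E) *
              classNumber F)) ∧
      ∀ (L : IntermediateField K (AlgebraicClosure K)) [NumberField L] [IsGalois K L]
        (V : Type) [AddCommGroup V] [Module ℂ V] [Module.Finite ℂ V]
        (ρ : Representation ℂ (L ≃ₐ[K] L) V),
        ((1 < Fintype.card (InfinitePlace K) + S.card ∧ PPow K L) ∨
          ∀ (W : Type) [AddCommGroup W] [Module ℂ W] [Module.Finite ℂ W]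
            (σ : Representation ℂ (L ≃ₐ[K] L) W), σ.IsIrreducible → IsSub σ ρ →
            InClsS σ ∧ (OccursIn (StarkP.aboveSet K L S) σ ∨
              (SplitPlace K (StarkP.aboveSet K L S) ∧ ∃ g, σ g ≠ 1))) →
        ((∀ g, ∃ q : ℚ, ρ.character g = (q : ℂ)) → ∃ F : ℂ → ℂ,
          StarkP.IsArtinL ρ.character S F ∧
          StarkP.Reg (StarkP.aboveSet K L S) ρ (Θ L) = meromorphicTrailingCoeffAt F 0) ∧
        (((∀ g, ∃ q : ℚ, (ρ.character g).re = (q : ℝ)) ∨ (∀ g, ρ g ^ 6 = 1)) →
          ∀ F : ℂ → ℂ, StarkP.IsArtinL ρ.character S F →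
          ‖StarkP.Reg (StarkP.aboveSet K L S) ρ (Θ L)‖ = ‖meromorphicTrailingCoeffAt F 0‖) :=
  mainQ_of XPR_thm XOC_thm CA_thm (CB_thm CB1_thm) YT_all PA_thm (PD_thm (PM_thm PM0_thm)) PE_thm
    PO_thm (XQ4_thm YT_all) PS0_thm PS1_thm PS2_thm PS3_thm TC_thm TQ_all (FA_thm FA0_thm)
    (FB_thm FB1_thm) XPC_thm XRN_thm XCN_thm (CC_thm CB1_thm) CW_thm K S

end StarkC.ABS
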