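import Pool.Agent.ABS.OPR
import Pool.Agent.ABS.OPY
import Pool.Agent.ABS.XPC
import Pool.Agent.ABS.XRN
import Pool.Agent.ABS.XCN
import Pool.Agent.YNG.FA0
import Pool.Agent.YNG.FA
import Pool.Agent.YNG.FB1
import Pool.Agent.YNG.FB
import Pool.Agent.YNG.CC
import Pool.Agent.YNG.CW
import Pool.Agent.YNG.GA
import Pool.Agent.YNG.GB
import Pool.Agent.YNG.GC
import Pool.Agent.YNG.GD
import Pool.Agent.YNG.GE
import Pool.Agent.YNG.GF

/-!
# Project ABS: one `φ`, final form with pure fields, fields of squarefree discriminant and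
fields with CM subfields (helper6)
-/

set_option autoImplicit false

open NumberField IsDedekindDomain
open scoped Classical

namespace StarkC.ABS

open StarkP (InCls InClsS ConF GoodD IsSub OccursIn Lift Extends IsTheta PExt SplitPlace PPow)

open Pool.Agent.YNG

/-- The printed theorem. -/
theorem mainR (K : Type) [Field K] [NumberField K] (S : Finset (HeightOneSpectrum (𝓞 K))) :
    ∃ Θ : ∀ L : IntermediateField K (AlgebraicClosure K),
      ((L → ℝ) →₀ ℂ) →ₗ[ℂ] ((L → ℝ) →₀ ℂ),
      (∀ (F : IntermediateField K (AlgebraicClosure K)) [NumberField F],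
        IsTheta K (StarkP.aboveSet K F S) (Θ F)) ∧
      (∀ (F L : IntermediateField K (AlgebraicClosure K)) [NumberField F] [NumberField L]
        (h : F ≤ L), Extends (IntermediateField.inclusion h : F →+* L) (StarkP.aboveSet K F S)
          (StarkP.aboveSet K L S) (Θ F) (Θ L)) ∧
      (S = ∅ → ∀ (F L : IntermediateField K (AlgebraicClosure K)) [NumberField F] [NumberField L]
        [IsGalois K L] (h : F ≤ L),
        ((PPow K L ∨ (GoodD h ∧ (Odd (Module.finrank K F) ∨
            ∀ (W : Type) [AddCommGroup W] [Module ℂ W] [Module.Finite ℂ W]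
              (σ : Representation ℂ (L ≃ₐ[K] L) W), ConF h σ →
                OccursIn (StarkP.aboveSet K L S) σ))) →
          StarkP.unitIndex (Θ F) * (if Fintype.card (InfinitePlace K) = 1 then
            (classNumber K : ℚ) / Units.torsionOrder K else 1) =
          (classNumber F : ℚ) / Units.torsionOrder F) ∧
        (Module.finrank ℚ K = 1 →
          (PPow K L ∨ (GoodD h ∧ (Odd (Module.finrank K F) ∨
            ¬ ∃ E : IntermediateField ℚ F, IsCMField E))) →
          StarkP.unitIndex (Θ F) = classNumber F) ∧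
        (Module.finrank ℚ K = 1 → GoodD h →
          ∀ (E : IntermediateField K (AlgebraicClosure K)) [NumberField E] [IsCMField E], E ≤ F →
          (∀ E' : IntermediateField K (AlgebraicClosure K), E' ≤ F → IsCMField E' → E' ≤ E) →
          StarkP.unitIndex (Θ F) * classNumber E * 2 ^ Units.rank E =
            IsCMField.indexRealUnits E * classNumber (maximalRealSubfield E) *
              classNumber F)) ∧
      ∀ (L : IntermediateField K (AlgebraicClosure K)) [NumberField L] [IsGalois K L]
        (V : Type) [AddCommGroup V] [Module ℂ V] [Module.Finite ℂ V]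
        (ρ : Representation ℂ (L ≃ₐ[K] L) V),
        ((1 < Fintype.card (InfinitePlace K) + S.card ∧ PPow K L) ∨
          ∀ (W : Type) [AddCommGroup W] [Module ℂ W] [Module.Finite ℂ W]
            (σ : Representation ℂ (L ≃ₐ[K] L) W), σ.IsIrreducible → IsSub σ ρ →
            InClsS σ ∧ (OccursIn (StarkP.aboveSet K L S) σ ∨
              (SplitPlace K (StarkP.aboveSet K L S) ∧ ∃ g, σ g ≠ 1))) →
        ((∀ g, ∃ q : ℚ, ρ.character g = (q : ℂ)) → ∃ F : ℂ → ℂ,
          StarkP.IsArtinL ρ.character S F ∧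
          StarkP.Reg (StarkP.aboveSet K L S) ρ (Θ L) = meromorphicTrailingCoeffAt F 0) ∧
        (((∀ g, ∃ q : ℚ, (ρ.character g).re = (q : ℝ)) ∨ (∀ g, ρ g ^ 6 = 1)) →
          ∀ F : ℂ → ℂ, StarkP.IsArtinL ρ.character S F →
          ‖StarkP.Reg (StarkP.aboveSet K L S) ρ (Θ L)‖ = ‖meromorphicTrailingCoeffAt F 0‖) :=
  mainR_of XPR_thm XOC_thm CA_thm (CB_thm CB1_thm) YT_all PA_thm (PD_thm (PM_thm PM0_thm)) PE_thm
    PO_thm (XQ4_thm YT_all) PS0_thm PS1_thm PS2_thm PS3_thm TC_thm TQ_all (FA_thm FA0_thm)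
    (FB_thm FB1_thm) (GF_thm GA_thm (GE_thm GB_thm GC_thm GD_thm)) XPC_thm XRN_thm XCN_thm (CC_thm CB1_thm) CW_thm K S

end StarkC.ABS
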