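import Pool.Agent.ABS.PDefsW

/-!
# Definitions for the statement about one `φ`: the index of `φ(X)` in the units
-/

open NumberField IsDedekindDomain
open scoped Classical

namespace StarkP

/-- The exponent of `G = Gal(L/K)` divides `2 p^n` for an odd prime `p`, and `K` has a complex
place or the order of `G` is odd (so that `G` is a `p`-group). -/
def PPow (K L : Type) [Field K] [NumberField K] [Field L] [Algebra K L] : Prop :=
  (∃ p n : ℕ, p.Prime ∧ p ≠ 2 ∧ ∀ g : L ≃ₐ[K] L, g ^ (2 * p ^ n) = 1) ∧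
    ((∃ v : InfinitePlace K, v.IsComplex) ∨ Odd (Nat.card (L ≃ₐ[K] L)))

section Index

variable (F : Type) [Field F] [NumberField F]

/-- The lattice `X` for the set of the infinite places of `F`: the elements of `ℂ ⊗ X` with integral
coefficients (they form a subgroup). -/
noncomputable def XInt : AddSubgroup ((F → ℝ) →₀ ℂ) :=
  AddSubgroup.closure {x | x ∈ XC F ∅ ∧ ∀ a, ∃ n : ℤ, x a = (n : ℂ)}

/-- The image of the unit group of `F` under the logarithm map: the elements
`λ(u) = -∑ log|u|_a · a` (they form a subgroup). -/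
noncomputable def LamInt : AddSubgroup ((F → ℝ) →₀ ℂ) :=
  AddSubgroup.closure {x | ∃ u : (𝓞 F)ˣ, ∀ a : F → ℝ, x a =
    if a ∈ placeSet F ∅ then -((Real.log (a ((u : 𝓞 F) : F)) : ℝ) : ℂ) else 0}

variable {F}

/-- The index of `φ(X)` in the group of units of `F` modulo roots of unity, `Θ = λ ∘ φ`: the index
of `Θ(X)` in `λ(𝓞_F^×)`, where the index of `A` in `B` is `(B : A ∩ B) / (A : A ∩ B)`. -/
noncomputable def unitIndex (Θ : ((F → ℝ) →₀ ℂ) →ₗ[ℂ] ((F → ℝ) →₀ ℂ)) : ℚ :=
  (((XInt F).map Θ.toAddMonoidHom).relIndex (LamInt F) : ℚ) /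
    ((LamInt F).relIndex ((XInt F).map Θ.toAddMonoidHom) : ℚ)

end Index

end StarkP
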