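import Pool.Agent.ABS.PDefsL
import Pool.Agent.ABS.PDefsZ

/-!
# Definitions for the statement about one `φ`: symmetric groups, constituents of permutation
characters
-/

open NumberField IsDedekindDomain

namespace StarkP

/-- The class of characters `χ`: (I) the exponent of the image divides `2q` for an odd prime power
`q = ℓ^k`; (II) all elements of the image have prime power order and no `2`-subgroup of it has a
symplectic character; (III) `ℚ(χ)` is contained in the field of the `q`-th roots of unity for some prime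
power `q = ℓ^j` and `GoodIm` or `SpanTr`; or (IV) `χ` factors through a quotient of `G` which is
isomorphic to a finite product of symmetric groups `S_n`. -/
def InClsS {G V : Type} [Group G] [Fintype G] [AddCommGroup V] [Module ℂ V]
    (ρ : Representation ℂ G V) : Prop :=
  (∃ ℓ k : ℕ, ℓ.Prime ∧ ℓ ≠ 2 ∧ ∀ g : G, ρ g ^ (2 * ℓ ^ k) = 1) ∨
  (PPO (G ⧸ MonoidHom.ker ρ) ∧ NoSymp (G ⧸ MonoidHom.ker ρ)) ∨
  ((∃ ℓ j : ℕ, ℓ.Prime ∧ charField ρ.character ≤ rootField (ℓ ^ j)) ∧
    (GoodIm ρ ∨ SpanTr ρ)) ∨
  ∃ (k : ℕ) (n : Fin k → ℕ) (p : G →* (∀ i, Equiv.Perm (Fin (n i)))),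
    Function.Surjective p ∧ ∀ g, p g = 1 → ρ g = 1

/-- A nontrivial irreducible representation `σ` of `Gal(L/K)` which occurs in the permutation
representation on the cosets of `Gal(L/F)`: some vector which is not zero is fixed by
`Gal(L/F)`. -/
def ConF {K : Type} [Field K] {F L : IntermediateField K (AlgebraicClosure K)} (h : F ≤ L)
    {W : Type} [AddCommGroup W] [Module ℂ W] (σ : Representation ℂ (L ≃ₐ[K] L) W) : Prop :=
  σ.IsIrreducible ∧ (∃ g, σ g ≠ 1) ∧ ∃ v : W, v ≠ 0 ∧ ∀ g : L ≃ₐ[K] L,
    (∀ x : F, g (IntermediateField.inclusion h x) = IntermediateField.inclusion h x) → σ g v = v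

end StarkP
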