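import Pool.Agent.ABS.StTowerC

/-!
# Project ABS, part C of the tower (fields without CM subfield): statements of modules (helper6)

All modules prove `theorem X_thm : Stmt_X` in `namespace StarkC.ABS`, file `Pool/Agent/ABS/X.lean`,
importing `Pool.Agent.ABS.StTowerD` and existing files (auxiliary lemmas in `namespace StarkC.ABS.Xx`).
-/

set_option autoImplicit false

open NumberField IsDedekindDomain
open scoped Classical

namespace StarkC.ABS

open StarkP (IsSub)

/-- XPR: as WZP (`WZP_thm`, `Pool/Agent/ABS/WZP.lean`, the same two representations), with the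
vectors fixed by `H`.  Proof: let `i : W → (G ⧸ H → ℂ)` be injective and equivariant,
`e w = i w (the coset of 1)`.  `e (σ h w) = e w` for `h ∈ H` and `e ≠ 0` (the value of `i w` at the
coset of `g` is `e (σ g⁻¹ w)`).  If `e w ≠ 0` then `v = ∑_{h ∈ H} σ h w` is fixed by `H` and
`e v = |H| e w ≠ 0`.  The second representation is a subrepresentation of the first. -/
def Stmt_XPR : Prop :=
  ∀ (G : Type) [Group G] [Fintype G] (H : Subgroup G),
    (∃ (V : Type) (_ : AddCommGroup V) (_ : Module ℂ V) (_ : Module.Finite ℂ V)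
      (ρ : Representation ℂ G V), (∀ g, ρ.character g = indFun H (fun _ => 1) g) ∧
      (∀ g, ∃ q : ℚ, ρ.character g = (q : ℂ)) ∧
      ∀ (W : Type) [AddCommGroup W] [Module ℂ W] [Module.Finite ℂ W] (σ : Representation ℂ G W),
        σ.IsIrreducible → IsSub σ ρ → ∃ v : W, v ≠ 0 ∧ ∀ h ∈ H, σ h v = v) ∧
    ∃ (V : Type) (_ : AddCommGroup V) (_ : Module ℂ V) (_ : Module.Finite ℂ V)
      (ρ : Representation ℂ G V), (∀ g, ρ.character g = indFun H (fun _ => 1) g - 1) ∧
      (∀ g, ∃ q : ℚ, ρ.character g = (q : ℂ)) ∧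
      ∀ (W : Type) [AddCommGroup W] [Module ℂ W] [Module.Finite ℂ W] (σ : Representation ℂ G W),
        σ.IsIrreducible → IsSub σ ρ → (∃ g, σ g ≠ 1) ∧ ∃ v : W, v ≠ 0 ∧ ∀ h ∈ H, σ h v = v

/-- XOC: a nontrivial irreducible representation with a vector `v ≠ 0` fixed by the stabilizer of an
infinite place `w` occurs in `X`.  Proof: `f α = ∑_{h ∈ G} α (σ h v) [h w]` (`[w] = single (infAbs L w) 1`,
`act h [w] = [h w]`; see the proof of `WVT_thm` in `ABS/WVT.lean` and the definitions of `OccursIn`,
`act`, `XC`): equivariant; the coefficient at `w` is `|Stab w| α v`, not `0` for a suitable `α`;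
the sum of the coefficients is `α (∑_h σ h v) = 0` because an irreducible nontrivial representation
has no invariants. -/
def Stmt_XOC : Prop :=
  ∀ (K L : Type) [Field K] [NumberField K] [Field L] [NumberField L] [Algebra K L] [IsGalois K L]
    (W : Type) [AddCommGroup W] [Module ℂ W] [Module.Finite ℂ W]
    (σ : Representation ℂ (L ≃ₐ[K] L) W), σ.IsIrreducible → (∃ g, σ g ≠ 1) →
    ∀ (w : InfinitePlace L) (v : W), v ≠ 0 →
      (∀ g ∈ MulAction.stabilizer (L ≃ₐ[K] L) w, σ g v = v) →
      StarkP.OccursIn (StarkP.aboveSet K L ((∅ : Finset (HeightOneSpectrum (𝓞 K))) :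
        Set (HeightOneSpectrum (𝓞 K)))) σ

end StarkC.ABS
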