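import Pool.Agent.ABS.PDefsS
import Pool.Agent.ABS.OPL
import Pool.Agent.YNG.St
import Pool.Agent.YNG.TQ

/-!
# Project ABS: representations whose image is a symmetric group are in the class (helper6)
-/

set_option autoImplicit false

open NumberField IsDedekindDomain
open scoped Classical

namespace StarkC.ABS

open StarkP (charField rootField NilNS traceOver GoodIm SpanTr indOf InCls InClsS)

namespace XCSx

/-- The trace of a function with values in the field. -/
theorem traceOver_const (F : IntermediateField ℚ ℂ) {X : Type} (x : X) :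
    traceOver F (fun _ : X => (1 : ℂ)) x = 1 := by
  unfold traceOver
  have h : IntermediateField.adjoin F (Set.range fun _ : X => (1 : ℂ)) = ⊥ := by
    rw [IntermediateField.adjoin_eq_bot_iff]
    rintro _ ⟨y, rfl⟩
    exact one_mem _
  have h1 : (⟨1, IntermediateField.subset_adjoin F _ (Set.mem_range_self x)⟩ :
      IntermediateField.adjoin F (Set.range fun _ : X => (1 : ℂ))) =
      algebraMap F _ 1 := Subtype.ext (by rw [map_one]; rfl)
  rw [h1, Algebra.trace_algebraMap, h, IntermediateField.finrank_bot]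
  simp

theorem triv_good (H : Type) [Group H] : GoodIm (Representation.trivial ℂ H ℂ) := by
  refine Or.inl ⟨?_, ?_⟩
  · have h : MonoidHom.ker (Representation.trivial ℂ H ℂ) = ⊤ := by
      rw [eq_top_iff]
      intro g _
      exact MonoidHom.mem_ker.2 rfl
    have : Subsingleton (H ⧸ MonoidHom.ker (Representation.trivial ℂ H ℂ)) := by
      rw [h]
      exact QuotientGroup.subsingleton_quotient_top
    infer_instance
  · rintro ⟨B, h1, h2, -⟩
    refine one_ne_zero (h2 1 fun w => ?_)
    have h3 : B 1 w = w * B 1 1 := by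
      have h4 : (w : ℂ) = w • (1 : ℂ) := by simp
      conv_lhs => rw [h4]
      rw [map_smul, smul_eq_mul]
    rw [h3, h1, mul_zero]

theorem triv_irr (H : Type) [Group H] : (Representation.trivial ℂ H ℂ).IsIrreducible := by
  refine ZDUx.irr_of _ inferInstance fun W _ => ?_
  exact eq_bot_or_eq_top W

theorem char_triv' {G : Type} [Group G] :
    (Representation.trivial ℂ G ℂ).character = fun _ => 1 := by
  funext g
  have h1 : Representation.trivial ℂ G ℂ g = LinearMap.id := rfl
  show LinearMap.trace ℂ ℂ (Representation.trivial ℂ G ℂ g) = 1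
  rw [h1, LinearMap.trace_id, Module.finrank_self, Nat.cast_one]

theorem ind_one {G : Type} [Group G] [Fintype G] (H : Subgroup G) (g : G) :
    indOf H (fun _ => 1) g =
      (∑ x : G, if x⁻¹ * g * x ∈ H then (1 : ℂ) else 0) / (Nat.card H : ℂ) := by
  unfold indOf
  congr 1

/-- Integral combinations of permutation characters. -/
theorem spanTr_of_perm {G V : Type} [Group G] [Fintype G] [AddCommGroup V] [Module ℂ V]
    (ρ : Representation ℂ G V) (m : ℕ) (H : Fin m → Subgroup G) (c : Fin m → ℤ)
    (h : ∀ g, ρ.character g = ∑ i, (c i : ℂ) * ((∑ x : G,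
      if x⁻¹ * g * x ∈ H i then (1 : ℂ) else 0) / (Nat.card (H i) : ℂ))) : SpanTr ρ := by
  refine ⟨m, H, fun _ => ℂ, fun _ => inferInstance, fun _ => inferInstance,
    fun _ => inferInstance, fun i => Representation.trivial ℂ (H i) ℂ, c,
    fun i => ⟨triv_irr _, triv_good _⟩, fun g => ?_⟩
  rw [h g]
  refine Finset.sum_congr rfl fun i _ => ?_
  have h1 : traceOver (charField ρ.character) (Representation.trivial ℂ (H i) ℂ).character =
      fun _ => 1 := by
    rw [char_triv']
    funext x
    exact traceOver_const _ x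
  rw [h1, ind_one]

theorem char_rat {G V : Type} [Group G] [Fintype G] [AddCommGroup V] [Module ℂ V]
    (ρ : Representation ℂ G V) (m : ℕ) (H : Fin m → Subgroup G) (c : Fin m → ℤ)
    (h : ∀ g, ρ.character g = ∑ i, (c i : ℂ) * ((∑ x : G,
      if x⁻¹ * g * x ∈ H i then (1 : ℂ) else 0) / (Nat.card (H i) : ℂ))) :
    charField ρ.character ≤ rootField (2 ^ 0) := by
  unfold charField
  rw [IntermediateField.adjoin_le_iff]
  rintro _ ⟨g, rfl⟩
  have h1 : ρ.character g = ((∑ i, (c i : ℚ) * ((∑ x : G,
      if x⁻¹ * g * x ∈ H i then (1 : ℚ) else 0) / (Nat.card (H i) : ℚ)) : ℚ) : ℂ) := by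
    rw [h g]
    push_cast
    refine Finset.sum_congr rfl fun i _ => ?_
    congr 2
    refine Finset.sum_congr rfl fun x _ => ?_
    split_ifs <;> simp
  rw [h1]
  exact (rootField (2 ^ 0)).algebraMap_mem _

end XCSx

open XCSx

/-- Representations which factor through a surjection onto a group as in `PermG`. -/
theorem inCls_of_permG {G Q V : Type} [Group G] [Fintype G] [Group Q] [Fintype Q]
    [AddCommGroup V] [Module ℂ V] [Module.Finite ℂ V] (hQ : Pool.Agent.YNG.PermG Q)
    (ρ : Representation ℂ G V) (p : G →* Q) (hp : Function.Surjective p)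
    (hk : ∀ g, p g = 1 → ρ g = 1) : InCls ρ := by
  have hk' : p.ker ≤ MonoidHom.ker ρ := fun g hg => hk g hg
  let ρ₁ : Representation ℂ Q V :=
    (QuotientGroup.lift p.ker ρ hk').comp
      (QuotientGroup.quotientKerEquivOfSurjective p hp).symm.toMonoidHom
  have hρ : OPIx.inf p ρ₁ = ρ := by
    refine MonoidHom.ext fun g => ?_
    show QuotientGroup.lift p.ker ρ hk'
      ((QuotientGroup.quotientKerEquivOfSurjective p hp).symm (p g)) = ρ g
    have h1 : (QuotientGroup.quotientKerEquivOfSurjective p hp).symm (p g) =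
        (QuotientGroup.mk g : G ⧸ p.ker) := by
      rw [MulEquiv.symm_apply_eq]
      rfl
    rw [h1]
    rfl
  obtain ⟨m, H, c, hc⟩ := hQ V ρ₁
  have h1 : SpanTr ρ := by
    rw [← hρ]
    exact OPLx.spanTr_infl p hp ρ₁ (spanTr_of_perm ρ₁ m H c hc)
  have h2 : charField ρ.character ≤ rootField (2 ^ 0) := by
    rw [← hρ, OPIx.inf_charField p hp]
    exact char_rat ρ₁ m H c hc
  exact Or.inr (Or.inr ⟨⟨2, 0, Nat.prime_two, h2⟩, Or.inr (Or.inr h1)⟩)

/-- Representations which factor through a surjection onto a symmetric group. -/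
theorem inCls_of_surj (hY : Pool.Agent.YNG.Stmt_YT) {G V : Type} [Group G] [Fintype G]
    [AddCommGroup V] [Module ℂ V] [Module.Finite ℂ V] (ρ : Representation ℂ G V) (n : ℕ)
    (p : G →* Equiv.Perm (Fin n)) (hp : Function.Surjective p)
    (hk : ∀ g, p g = 1 → ρ g = 1) : InCls ρ :=
  inCls_of_permG (fun V _ _ _ ρ => hY n V ρ) ρ p hp hk

/-- The larger class is contained in `InCls`. -/
theorem inCls_of (hT : Pool.Agent.YNG.Stmt_TQ) {G V : Type} [Group G] [Fintype G]
    [AddCommGroup V] [Module ℂ V] [Module.Finite ℂ V] (ρ : Representation ℂ G V)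
    (h : InClsS ρ) : InCls ρ := by
  rcases h with h | h | h | ⟨k, n, p, hp, hk⟩
  · exact Or.inl h
  · exact Or.inr (Or.inl h)
  · exact Or.inr (Or.inr ⟨h.1, Or.inr h.2⟩)
  · exact inCls_of_permG (hT k n) ρ p hp hk

end StarkC.ABS
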