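import Pool.Agent.ABS.OPX
import Pool.Agent.ABS.PDefsS
import Pool.Agent.ABS.StTowerD
import Pool.Agent.ABS.XCS
import Pool.Agent.YNG.StC

/-!
# Project ABS: one `φ`, symmetric groups, fields without CM subfield, assembly (helper6)
-/

set_option autoImplicit false

open NumberField IsDedekindDomain
open scoped Classical

namespace StarkC.ABS

open StarkP (InCls InClsS ConF IsSub OccursIn Lift Extends IsTheta PExt SplitPlace PPow)

namespace OPSx

open OPZx

section Index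

variable (K F L : Type) [Field K] [NumberField K] [Field F] [NumberField F] [Field L]
  [NumberField L] [Algebra K F] [Algebra K L] [Algebra F L] [IsScalarTower K F L] [IsGalois K L]

/-- All nontrivial constituents of the permutation character are in the class and occur in `X`. -/
def ConC : Prop :=
  ∀ (W : Type) [AddCommGroup W] [Module ℂ W] [Module.Finite ℂ W]
    (σ : Representation ℂ (L ≃ₐ[K] L) W), σ.IsIrreducible → (∃ g, σ g ≠ 1) →
    (∃ v : W, v ≠ 0 ∧ ∀ g ∈ fixK K F L, σ g v = v) → InCls σ ∧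
      OccursIn (StarkP.aboveSet K L ((∅ : Finset (HeightOneSpectrum (𝓞 K))) :
        Set (HeightOneSpectrum (𝓞 K)))) σ

/-- The trivial representation is in the class. -/
theorem triv_cls {G W : Type} [Group G] [Fintype G] [AddCommGroup W] [Module ℂ W]
    (σ : Representation ℂ G W) (h : ∀ g, σ g = 1) : InCls σ :=
  Or.inl ⟨3, 0, Nat.prime_three, by norm_num, fun g => by rw [h g, one_pow]⟩

theorem index_two' (hXP : Stmt_XPR) (hZR : Stmt_WZR) (hZL : Stmt_WZL) (hZX : Stmt_WZX)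
    (hVT : Stmt_WVT)
    (Θ : ((F → ℝ) →₀ ℂ) →ₗ[ℂ] ((F → ℝ) →₀ ℂ)) (Θ' : ((L → ℝ) →₀ ℂ) →ₗ[ℂ] ((L → ℝ) →₀ ℂ))
    (hΘ : IsTheta K (StarkP.aboveSet K F ((∅ : Finset (HeightOneSpectrum (𝓞 K))) :
        Set (HeightOneSpectrum (𝓞 K)))) Θ)
    (hΘ' : IsTheta K (StarkP.aboveSet K L ((∅ : Finset (HeightOneSpectrum (𝓞 K))) :
        Set (HeightOneSpectrum (𝓞 K)))) Θ')
    (hext : Extends (algebraMap F L) (StarkP.aboveSet K F ((∅ : Finset (HeightOneSpectrum (𝓞 K))) :
        Set (HeightOneSpectrum (𝓞 K)))) (StarkP.aboveSet K L ((∅ : Finset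
        (HeightOneSpectrum (𝓞 K))) : Set (HeightOneSpectrum (𝓞 K)))) Θ Θ')
    (hG : GoodR K L Θ') (hP : ConC K F L) (hcard : 1 < Fintype.card (InfinitePlace K)) :
    (StarkP.unitIndex Θ : ℝ) * 1 = (classNumber F : ℝ) / Units.torsionOrder F := by
  obtain ⟨⟨V, _, _, _, ρ, hch, hq, hfix⟩, -⟩ := hXP (L ≃ₐ[K] L) (fixK K F L)
  obtain ⟨f, hf, hR'⟩ := hG V ρ (Or.inr fun W _ _ _ σ hσ hs => by
    by_cases hn : ∃ g, σ g ≠ 1
    · obtain ⟨h1, h2⟩ := hP W σ hσ hn (hfix W σ hσ hs)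
      exact ⟨h1, Or.inl h2⟩
    · push Not at hn
      have := nontriv σ hσ
      exact ⟨triv_cls σ hn, Or.inl (hVT K L ∅ (by simpa using hcard) W σ hn)⟩) hq
  have e1 := hZR K F L ∅ Θ Θ' hΘ hΘ' hext V ρ hch
  have e2 := hZL K F L ρ.character f hch hf
  have e3 : Set.BijOn Θ (StarkP.XQ F ∅) (StarkP.LamU F ∅) := by
    have := hΘ.2
    rwa [above_empty K F] at this
  have e4 := hZX F Θ e3
  rw [above_empty K F, hR', e2] at e1
  rw [← e1, norm_hR] at e4
  exact fin_of_hR F _ 1 (by rw [mul_one]; exact e4.symm)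

theorem index_one' (hXP : Stmt_XPR) (hZD : Stmt_WZD) (hZR : Stmt_WZR) (hZL : Stmt_WZL)
    (hZX : Stmt_WZX) (hZN : Stmt_WZN) (hRS : Stmt_WRS)
    (Θ : ((F → ℝ) →₀ ℂ) →ₗ[ℂ] ((F → ℝ) →₀ ℂ)) (Θ' : ((L → ℝ) →₀ ℂ) →ₗ[ℂ] ((L → ℝ) →₀ ℂ))
    (hΘ : IsTheta K (StarkP.aboveSet K F ((∅ : Finset (HeightOneSpectrum (𝓞 K))) :
        Set (HeightOneSpectrum (𝓞 K)))) Θ)
    (hΘ' : IsTheta K (StarkP.aboveSet K L ((∅ : Finset (HeightOneSpectrum (𝓞 K))) :
        Set (HeightOneSpectrum (𝓞 K)))) Θ')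
    (hext : Extends (algebraMap F L) (StarkP.aboveSet K F ((∅ : Finset (HeightOneSpectrum (𝓞 K))) :
        Set (HeightOneSpectrum (𝓞 K)))) (StarkP.aboveSet K L ((∅ : Finset
        (HeightOneSpectrum (𝓞 K))) : Set (HeightOneSpectrum (𝓞 K)))) Θ Θ')
    (hG : GoodR K L Θ') (hP : ConC K F L) (hcard : Fintype.card (InfinitePlace K) = 1) :
    (StarkP.unitIndex Θ : ℝ) * ((classNumber K : ℝ) / Units.torsionOrder K) =
      (classNumber F : ℝ) / Units.torsionOrder F := by
  obtain ⟨⟨V, _, _, _, ρ, hch, hq, -⟩, V', _, _, _, ρ', hch', hq', hirr⟩ :=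
    hXP (L ≃ₐ[K] L) (fixK K F L)
  obtain ⟨hsum, hmul, htr, hinf⟩ := hRS
  obtain ⟨hXK, hRK⟩ := hZN.1 K hcard
  obtain ⟨f', hf', hR'⟩ := hG V' ρ' (Or.inr fun W _ _ _ σ hσ hsub => by
    obtain ⟨h1, h2⟩ := hirr W σ hσ hsub
    obtain ⟨h3, h4⟩ := hP W σ hσ h1 h2
    exact ⟨h3, Or.inl h4⟩) hq'
  -- the trivial representation
  let ρ₀ : Representation ℂ (L ≃ₐ[K] L) ℂ := Representation.trivial ℂ (L ≃ₐ[K] L) ℂ
  have hch₀ : ∀ g, ρ₀.character g = indFun (fixK K K L) (fun _ => 1) g := by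
    intro g
    rw [fix_top' K L, indFun_top]
    exact char_triv g
  obtain ⟨ΘK, hΘK, hextK⟩ := hZD K K L ∅ Θ' hΘ'
  have e0 := hZR K K L ∅ ΘK Θ' hΘK hΘ' hextK ℂ ρ₀ hch₀
  rw [above_empty K K, det_zero K ΘK hXK] at e0
  obtain ⟨Z, hZ, -⟩ := FINFx.zeta K
  have hZ1 : StarkP.IsArtinL (Representation.trivial ℂ (K ≃ₐ[K] K) ℂ).character
      ((∅ : Finset (HeightOneSpectrum (𝓞 K))) : Set (HeightOneSpectrum (𝓞 K))) Z := by
    have h1 : (Representation.trivial ℂ (K ≃ₐ[K] K) ℂ).character = fun _ => 1 :=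
      funext fun g => char_triv g
    rw [h1, Finset.coe_empty]
    exact hZ
  have hZ2 : StarkP.IsArtinL ρ₀.character
      ((∅ : Finset (HeightOneSpectrum (𝓞 K))) : Set (HeightOneSpectrum (𝓞 K))) Z :=
    (hinf K K L ∅ ℂ (Representation.trivial ℂ (K ≃ₐ[K] K) ℂ) Z).2 hZ1
  have hadd : ∀ g, ρ.character g = ρ₀.character g + ρ'.character g := by
    intro g
    rw [hch, hch', hch₀, fix_top' K L, indFun_top]
    ring
  have e1 : StarkP.Reg (StarkP.aboveSet K L ((∅ : Finset (HeightOneSpectrum (𝓞 K))) :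
      Set (HeightOneSpectrum (𝓞 K)))) ρ Θ' =
      StarkP.Reg (StarkP.aboveSet K L ((∅ : Finset (HeightOneSpectrum (𝓞 K))) :
      Set (HeightOneSpectrum (𝓞 K)))) ρ₀ Θ' * StarkP.Reg (StarkP.aboveSet K L
        ((∅ : Finset (HeightOneSpectrum (𝓞 K))) : Set (HeightOneSpectrum (𝓞 K)))) ρ' Θ' :=
    hsum K L ∅ Θ' hΘ' V ℂ V' ρ ρ₀ ρ' hadd
  have hf := hmul K L ∅ ρ.character ρ₀.character ρ'.character Z f' hadd hZ2 hf'
  have e2 := htr K L ∅ ρ.character ρ₀.character ρ'.character _ Z f' hadd hf hZ2 hf'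
  have e3 := hZL K F L ρ.character _ hch hf
  have e4 := hZL K K L ρ₀.character Z hch₀ hZ2
  have e5 := hZR K F L ∅ Θ Θ' hΘ hΘ' hext V ρ hch
  have e6 : Set.BijOn Θ (StarkP.XQ F ∅) (StarkP.LamU F ∅) := by
    have := hΘ.2
    rwa [above_empty K F] at this
  have e7 := hZX F Θ e6
  rw [above_empty K F, e1, e0, one_mul, hR'] at e5
  rw [← e5] at e7
  have e8 : hR F = hR K * ‖meromorphicTrailingCoeffAt f' 0‖ := by
    rw [← norm_hR F, ← e3, e2, norm_mul, e4, norm_hR K]
  have e9 : hR K = (classNumber K : ℝ) / Units.torsionOrder K := by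
    unfold hR
    rw [hRK, mul_one]
  rw [e7] at e8
  refine fin_of_hR F _ _ ?_
  rw [← e9, e8]
  ring

end Index

/-- A field in an extension of odd degree of `ℚ` has two roots of unity; the case `PPow`. -/
theorem conC_of (hXOd : ∀ (K L : Type) [Field K] [NumberField K] [Field L] [NumberField L]
      [Algebra K L] [IsGalois K L] (W : Type) [AddCommGroup W] [Module ℂ W] [Module.Finite ℂ W]
      (σ : Representation ℂ (L ≃ₐ[K] L) W), σ.IsIrreducible → (∃ g, σ g ≠ 1) →
      SplitPlace K (StarkP.aboveSet K L ((∅ : Finset (HeightOneSpectrum (𝓞 K))) :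
        Set (HeightOneSpectrum (𝓞 K)))) →
      OccursIn (StarkP.aboveSet K L ((∅ : Finset (HeightOneSpectrum (𝓞 K))) :
        Set (HeightOneSpectrum (𝓞 K)))) σ)
    (K F L : Type) [Field K] [NumberField K] [Field F] [NumberField F] [Field L]
    [NumberField L] [Algebra K F] [Algebra K L] [Algebra F L] [IsScalarTower K F L]
    [IsGalois K L] (h : AllC K L) : ConC K F L :=
  fun W _ _ _ σ hσ hn _ => ⟨h.2 W σ hσ, hXOd K L W σ hσ hn h.1⟩

end OPSx

open OPZx OPSx

/-- The printed theorem, from the modules. -/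
theorem mainS_of (hXP : Stmt_XPR) (hXO : Stmt_XOC) (hCA : Pool.Agent.YNG.Stmt_CA)
    (hCB : Pool.Agent.YNG.Stmt_CB) (hY : Pool.Agent.YNG.Stmt_TQ)
    (K : Type) [Field K] [NumberField K] (S : Finset (HeightOneSpectrum (𝓞 K))) :
    ∃ Θ : ∀ L : IntermediateField K (AlgebraicClosure K),
      ((L → ℝ) →₀ ℂ) →ₗ[ℂ] ((L → ℝ) →₀ ℂ),
      (∀ (F : IntermediateField K (AlgebraicClosure K)) [NumberField F],
        IsTheta K (StarkP.aboveSet K F S) (Θ F)) ∧
      (∀ (F L : IntermediateField K (AlgebraicClosure K)) [NumberField F] [NumberField L]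
        (h : F ≤ L), Extends (IntermediateField.inclusion h : F →+* L) (StarkP.aboveSet K F S)
          (StarkP.aboveSet K L S) (Θ F) (Θ L)) ∧
      (S = ∅ → ∀ (F L : IntermediateField K (AlgebraicClosure K)) [NumberField F] [NumberField L]
        [IsGalois K L] (h : F ≤ L),
        ((PPow K L ∨ ∀ (W : Type) [AddCommGroup W] [Module ℂ W] [Module.Finite ℂ W]
            (σ : Representation ℂ (L ≃ₐ[K] L) W), ConF h σ →
              InClsS σ ∧ OccursIn (StarkP.aboveSet K L S) σ) →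
          StarkP.unitIndex (Θ F) * (if Fintype.card (InfinitePlace K) = 1 then
            (classNumber K : ℚ) / Units.torsionOrder K else 1) =
          (classNumber F : ℚ) / Units.torsionOrder F) ∧
        (Module.finrank ℚ K = 1 →
          (PPow K L ∨ ((¬ ∃ E : IntermediateField ℚ F, IsCMField E) ∧
            ∀ (W : Type) [AddCommGroup W] [Module ℂ W] [Module.Finite ℂ W]
              (σ : Representation ℂ (L ≃ₐ[K] L) W), ConF h σ → InClsS σ)) →
          StarkP.unitIndex (Θ F) = classNumber F)) ∧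
      ∀ (L : IntermediateField K (AlgebraicClosure K)) [NumberField L] [IsGalois K L]
        (V : Type) [AddCommGroup V] [Module ℂ V] [Module.Finite ℂ V]
        (ρ : Representation ℂ (L ≃ₐ[K] L) V),
        ((1 < Fintype.card (InfinitePlace K) + S.card ∧ PPow K L) ∨
          ∀ (W : Type) [AddCommGroup W] [Module ℂ W] [Module.Finite ℂ W]
            (σ : Representation ℂ (L ≃ₐ[K] L) W), σ.IsIrreducible → IsSub σ ρ →
            InClsS σ ∧ (OccursIn (StarkP.aboveSet K L S) σ ∨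
              (SplitPlace K (StarkP.aboveSet K L S) ∧ ∃ g, σ g ≠ 1))) →
        ((∀ g, ∃ q : ℚ, ρ.character g = (q : ℂ)) → ∃ F : ℂ → ℂ,
          StarkP.IsArtinL ρ.character S F ∧
          StarkP.Reg (StarkP.aboveSet K L S) ρ (Θ L) = meromorphicTrailingCoeffAt F 0) ∧
        (((∀ g, ∃ q : ℚ, (ρ.character g).re = (q : ℝ)) ∨ (∀ g, ρ g ^ 6 = 1)) →
          ∀ F : ℂ → ℂ, StarkP.IsArtinL ρ.character S F →
          ‖StarkP.Reg (StarkP.aboveSet K L S) ρ (Θ L)‖ = ‖meromorphicTrailingCoeffAt F 0‖) := by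
  obtain ⟨Θ₀, hE, h2⟩ := mainT K S
  obtain ⟨Θ, hΘ₀, hT, hext⟩ := family WZD_thm WZI_thm WTR_thm S Θ₀ (fun L _ _ => (h2 L).1) hE
  refine ⟨Θ, hT, hext, ?_, ?_⟩
  · intro hS F L _ _ _ h
    subst hS
    let : Algebra F L := (IntermediateField.inclusion h : F →+* L).toAlgebra
    have : IsScalarTower K F L := IsScalarTower.of_algebraMap_eq fun x => rfl
    have hG : GoodR K L (Θ L) := by
      intro V _ _ _ ρ hρ hq
      rw [hΘ₀ L]
      exact ((h2 L).2 V ρ hρ).1 hq
    have key : (AllC K L ∨ ConC K F L) →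
        StarkP.unitIndex (Θ F) * (if Fintype.card (InfinitePlace K) = 1 then
            (classNumber K : ℚ) / Units.torsionOrder K else 1) =
          (classNumber F : ℚ) / Units.torsionOrder F := by
      intro hP
      by_cases hc : Fintype.card (InfinitePlace K) = 1
      · rw [if_pos hc]
        refine Rat.cast_injective (α := ℝ) ?_
        push_cast
        rcases hP with hP | hP
        · exact index_one K F L WZD_thm WZR_thm WZL_thm WZXb_thm WZP_thm WZNb_thm WRS_thm (Θ F)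
            (Θ L) (hT F) (hT L) (hext F L h) hG hP hc
        · exact index_one' K F L hXP WZD_thm WZR_thm WZL_thm WZXb_thm WZNb_thm WRS_thm (Θ F)
            (Θ L) (hT F) (hT L) (hext F L h) hG hP hc
      · rw [if_neg hc]
        have hc' : 1 < Fintype.card (InfinitePlace K) := by
          have h4 : 0 < Fintype.card (InfinitePlace K) := Fintype.card_pos
          omega
        refine Rat.cast_injective (α := ℝ) ?_
        push_cast
        rcases hP with hP | hP
        · exact index_two K F L WZR_thm WZL_thm WZXb_thm WZP_thm WVT_thm (Θ F) (Θ L)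
            (hT F) (hT L) (hext F L h) hG hP hc'
        · exact index_two' K F L hXP WZR_thm WZL_thm WZXb_thm WVT_thm (Θ F) (Θ L)
            (hT F) (hT L) (hext F L h) hG hP hc'
    refine ⟨fun hP => key ?_, fun hK hP => ?_⟩
    · rcases hP with hP | hP
      · exact Or.inl (allC_of K L WVC_thm WVO_thm hP)
      · refine Or.inr fun W _ _ _ σ hσ hn hv => ?_
        obtain ⟨h3, h4⟩ := hP W σ ⟨hσ, hn, hv⟩
        exact ⟨inCls_of hY σ h3, h4⟩
    · obtain ⟨h5, h6, h7, h8⟩ := WZNb_thm.2.1 K hK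
      rcases hP with hP | ⟨hcm, hP⟩
      · have hA : AllC K L := allC_of K L WVC_thm WVO_thm hP
        have h9 := WZM_thm K F L h8 hA.1
        have h10 := key (Or.inl hA)
        rw [if_pos h7, h5, h6, h9] at h10
        push_cast at h10
        linarith
      · have h9 : Units.torsionOrder F = 2 := hCA F hcm
        have h10 := key (Or.inr fun W _ _ _ σ hσ hn hv => by
          refine ⟨inCls_of hY σ (hP W σ ⟨hσ, hn, hv⟩), ?_⟩
          by_contra ho
          refine hcm (hCB K F L hK W σ hv fun w v hw => ?_)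
          by_contra hv0
          exact ho (hXO K L W σ hσ hn w v hv0 hw))
        rw [if_pos h7, h5, h6, h9] at h10
        push_cast at h10
        linarith
  · intro L _ _ V _ _ _ ρ hρ
    rw [hΘ₀ L]
    refine (h2 L).2 V ρ ?_
    rcases hρ with h | h
    · exact Or.inl ⟨h.1, h.2.1, h.2.2⟩
    · exact Or.inr fun W _ _ _ σ hσ hs => ⟨inCls_of hY σ (h W σ hσ hs).1, (h W σ hσ hs).2⟩

end StarkC.ABS
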