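import Pool.Agent.ABS.PDefsW

/-!
# Definitions for the statement about one `φ`: the case without a condition on the characters
-/

open NumberField IsDedekindDomain

namespace StarkP

/-- The prime ideals in `S` and the infinite places of `K` are more than one place, the exponent of
`G = Gal(L/K)` divides `2 p^n` for an odd prime `p`, and `K` has a complex place or the order of `G`
is odd (so that `G` is a `p`-group). -/
def PExt (K L : Type) [Field K] [NumberField K] [Field L] [Algebra K L]
    (S : Finset (HeightOneSpectrum (𝓞 K))) : Prop :=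
  1 < Fintype.card (InfinitePlace K) + S.card ∧
    (∃ p n : ℕ, p.Prime ∧ p ≠ 2 ∧ ∀ g : L ≃ₐ[K] L, g ^ (2 * p ^ n) = 1) ∧
    ((∃ v : InfinitePlace K, v.IsComplex) ∨ Odd (Nat.card (L ≃ₐ[K] L)))

end StarkP
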