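import Pool.Agent.ABS.PDefsW

/-!
# Project ABS, part W: statements of the modules on `r_S(χ) > 0` (helper6)
-/

set_option autoImplicit false

open NumberField IsDedekindDomain
open scoped Classical

namespace StarkC.ABS

/-- WVT: if `S` and the infinite places together have more than one element, the trivial
representation occurs in `ℂ ⊗ X`. -/
def Stmt_WVT : Prop :=
  ∀ (K L : Type) [Field K] [NumberField K] [Field L] [NumberField L] [Algebra K L] [IsGalois K L]
    (S : Finset (HeightOneSpectrum (𝓞 K))),
    1 < Fintype.card (InfinitePlace K) + S.card →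
    ∀ (V : Type) [AddCommGroup V] [Module ℂ V] [Nontrivial V]
      (σ : Representation ℂ (L ≃ₐ[K] L) V), (∀ g, σ g = 1) →
      StarkP.OccursIn (StarkP.aboveSet K L S) σ

/-- WVC: a complex place of `K` splits completely. -/
def Stmt_WVC : Prop :=
  ∀ (K L : Type) [Field K] [NumberField K] [Field L] [NumberField L] [Algebra K L] [IsGalois K L]
    (S : Finset (HeightOneSpectrum (𝓞 K))),
    (∃ v : InfinitePlace K, v.IsComplex) → StarkP.SplitPlace K (StarkP.aboveSet K L S)

/-- WVO: the infinite places split completely in an extension of odd degree. -/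
def Stmt_WVO : Prop :=
  ∀ (K L : Type) [Field K] [NumberField K] [Field L] [NumberField L] [Algebra K L] [IsGalois K L]
    (S : Finset (HeightOneSpectrum (𝓞 K))),
    Odd (Nat.card (L ≃ₐ[K] L)) → StarkP.SplitPlace K (StarkP.aboveSet K L S)

end StarkC.ABS
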