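import Pool.Agent.ABS.StTower

/-!
# The class and inflation (helper93)

The class `InCls` contains `ρ ∘ p` if and only if it contains `ρ`, for a surjective homomorphism `p`
of finite groups.  The only part which is not formal is `SpanTr` for the quotient: in
`χ ∘ p = ∑ c i * Ind (Tr τ i)` one takes the average over the cosets of the kernel of `p`; the terms
with `τ i` trivial on `H i ∩ ker p` give the corresponding terms for `p (H i)`, and the others give
zero, since the sum of `τ i` over a fibre of `H i → p (H i)` maps into the vectors fixed by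
`H i ∩ ker p`.
-/

set_option autoImplicit false

open scoped Classical

namespace StarkC.ABS

open StarkP (charField rootField NilNS ProjIm HolIm GoodIm SpanTr InCls traceOver indOf SylEl)

namespace WCLx

/-! ### Isomorphic groups -/

section Iso

variable {A B : Type} [Group A] [Group B] (e : A ≃* B)

include e

theorem ppo_iso (h : StarkP.PPO A) : StarkP.PPO B := fun b => by
  obtain ⟨p, n, hp, h1⟩ := h (e.symm b)
  refine ⟨p, n, hp, ?_⟩
  have h2 := congrArg e h1
  rwa [map_pow, MulEquiv.apply_symm_apply, map_one] at h2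

theorem noSymp_iso (h : StarkP.NoSymp A) : StarkP.NoSymp B := by
  intro P hP W _ _ _ τ hτ
  rintro ⟨C, h1, h2, h3⟩
  let f : P.map e.symm.toMonoidHom ≃* P :=
    (P.equivMapOfInjective e.symm.toMonoidHom e.symm.injective).symm
  exact h (P.map e.symm.toMonoidHom) (hP.map _) W (τ.comp f.toMonoidHom)
    (NSYx.irr_comp τ f.toMonoidHom f.surjective hτ) ⟨C, h1, h2, fun g => h3 (f g)⟩

theorem sylEl_iso (h : SylEl A) : SylEl B := by
  intro p hp hc P hP
  have h0 : Nat.card A = Nat.card B := Nat.card_congr e.toEquiv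
  obtain ⟨h2, h3⟩ := h p hp (by rw [h0]; exact hc) (P.map e.symm.toMonoidHom) (hP.map _)
  refine ⟨fun x hx => ?_, fun x hx y hy => ?_⟩
  · have h4 := congrArg e (h2 (e.symm x) ⟨x, hx, rfl⟩)
    rwa [map_pow, MulEquiv.apply_symm_apply, map_one] at h4
  · have h4 := congrArg e (h3 (e.symm x) ⟨x, hx, rfl⟩ (e.symm y) ⟨y, hy, rfl⟩)
    rwa [map_mul, map_mul, MulEquiv.apply_symm_apply, MulEquiv.apply_symm_apply] at h4

end Iso

/-! ### Deflation -/

section Desc

variable {G Q : Type} [Group G] [Group Q] (e : G →* Q) (he : Function.Surjective e)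
  {V : Type} [AddCommGroup V] [Module ℂ V] (ρ : Representation ℂ Q V)

include he

theorem nilNS_desc (h : NilNS (OPIx.inf e ρ)) : NilNS ρ := by
  obtain ⟨h1, h2⟩ := h
  obtain ⟨q⟩ := OPIx.inf_quot e he ρ
  refine ⟨Group.nilpotent_of_mulEquiv q, ?_⟩
  rintro ⟨B, hB1, hB2, hB3⟩
  refine h2 ⟨B, hB1, hB2, fun g hg v w => ?_⟩
  obtain ⟨j, hj⟩ := hg
  exact hB3 (e g) ⟨j, by rw [← map_pow]; exact hj⟩ v w

theorem projIm_desc (h : ProjIm (OPIx.inf e ρ)) : ProjIm ρ := by
  obtain ⟨k, i1, i2, h1⟩ := h
  obtain ⟨q⟩ := OPIx.inf_quot e he ρ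
  refine ⟨k, i1, i2, ?_⟩
  rcases h1 with ⟨h1, ⟨h2⟩⟩ | h2
  · exact Or.inl ⟨h1, ⟨q.symm.trans h2⟩⟩
  · obtain ⟨h3⟩ := h2
    exact Or.inr ⟨q.symm.trans h3⟩

theorem holIm_desc (h : HolIm (OPIx.inf e ρ)) : HolIm ρ := by
  obtain ⟨q⟩ := OPIx.inf_quot e he ρ
  obtain ⟨A, B, hA, hc, hAB, hB⟩ := h
  refine ⟨A.map q.toMonoidHom, B.map q.toMonoidHom, ?_, ?_, ?_, ?_⟩
  · exact hA.map _ q.surjective
  · have h1 : A.map q.toMonoidHom ≃* A :=
      (A.equivMapOfInjective q.toMonoidHom q.injective).symm
    exact (isCyclic_of_surjective h1.symm h1.symm.surjective)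
  · rw [← Subgroup.map_sup, hAB, Subgroup.map_top_of_surjective _ q.surjective]
  · rintro _ ⟨b, hb, rfl⟩ h
    have h1 : b = 1 := hB b hb fun a ha => by
      have h2 := h (q a) ⟨a, ha, rfl⟩
      have h3 : q (a * b) = q (b * a) := by
        rw [map_mul, map_mul]
        exact h2
      exact q.injective h3
    rw [h1, map_one]

theorem good_desc (h : GoodIm (OPIx.inf e ρ)) : GoodIm ρ := by
  rcases h with h | h | h
  · exact Or.inl (nilNS_desc e he ρ h)
  · exact Or.inr (Or.inl (projIm_desc e he ρ h))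
  · exact Or.inr (Or.inr (holIm_desc e he ρ h))

end Desc

/-! ### Averages over the fibres -/

section Avg

variable {G' G : Type} [Group G'] [Fintype G'] [Group G] [Fintype G] (p : G' →* G)

/-- The sum over the elements of `H` above `y`. -/
noncomputable def fs (H : Subgroup G') (θ : H → ℂ) (y : G) : ℂ :=
  ∑ z : H, if p z = y then θ z else 0

omit [Fintype G] in
theorem card_fiber (hp : Function.Surjective p) (y : G) :
    (Finset.univ.filter fun x : G' => p x = y).card =
      (Finset.univ.filter fun x : G' => p x = 1).card :=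
  MonoidHom.card_fiber_eq_of_mem_range p (hp y) (hp 1)

theorem sum_comp (hp : Function.Surjective p) (F : G → ℂ) :
    ∑ x : G', F (p x) = ((Finset.univ.filter fun x : G' => p x = 1).card : ℂ) * ∑ y, F y := by
  rw [← Finset.sum_fiberwise Finset.univ p fun x => F (p x), Finset.mul_sum]
  refine Finset.sum_congr rfl fun y _ => ?_
  rw [Finset.sum_congr rfl fun x hx => by rw [(Finset.mem_filter.1 hx).2], Finset.sum_const,
    card_fiber p hp y, nsmul_eq_mul]

omit [Fintype G] in
/-- The sum over one conjugate. -/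
theorem sum_conj (H : Subgroup G') (θ : H → ℂ) (g x : G') :
    (∑ n ∈ Finset.univ.filter (fun n : G' => p n = 1),
      if h : x⁻¹ * (g * n) * x ∈ H then θ ⟨x⁻¹ * (g * n) * x, h⟩ else 0) =
      fs p H θ ((p x)⁻¹ * p g * p x) := by
  have h1 : fs p H θ ((p x)⁻¹ * p g * p x) =
      ∑ z ∈ Finset.univ.filter (fun z : G' => p z = (p x)⁻¹ * p g * p x),
        if h : z ∈ H then θ ⟨z, h⟩ else 0 := by
    rw [Finset.sum_filter]
    refine Fintype.sum_of_injective (fun z : H => (z : G')) Subtype.val_injective _ _ ?_ ?_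
    · intro z hz
      have h2 : z ∉ H := fun h => hz ⟨⟨z, h⟩, rfl⟩
      rw [dif_neg h2, ite_self]
    · intro z
      by_cases h2 : p z = (p x)⁻¹ * p g * p x
      · rw [if_pos h2, if_pos h2, dif_pos z.2]
      · rw [if_neg h2, if_neg h2]
  rw [h1]
  refine Finset.sum_bij (fun n _ => x⁻¹ * (g * n) * x) ?_ ?_ ?_ ?_
  · intro n hn
    have h2 : p n = 1 := (Finset.mem_filter.1 hn).2
    refine Finset.mem_filter.2 ⟨Finset.mem_univ _, ?_⟩
    rw [map_mul, map_mul, map_mul, map_inv, h2, mul_one]
  · intro a _ b _ hab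
    exact mul_left_cancel (mul_left_cancel (mul_right_cancel hab))
  · intro z hz
    have h2 : p z = (p x)⁻¹ * p g * p x := (Finset.mem_filter.1 hz).2
    refine ⟨g⁻¹ * (x * z * x⁻¹), Finset.mem_filter.2 ⟨Finset.mem_univ _, ?_⟩, ?_⟩
    · rw [map_mul, map_mul, map_mul, map_inv, map_inv, h2]
      group
    · group
  · intro n _
    rfl

/-- The cardinality of a subgroup and of its image. -/
theorem card_map (H : Subgroup G') : Nat.card H =
    (Finset.univ.filter fun z : H => p z = 1).card * Nat.card (H.map p) := by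
  have h1 := sum_comp (p.subgroupMap H) (p.subgroupMap_surjective H) fun _ => (1 : ℂ)
  have h2 : (Finset.univ.filter fun z : H => (p.subgroupMap H) z = 1).card =
      (Finset.univ.filter fun z : H => p z = 1).card := by
    refine congrArg Finset.card (Finset.ext fun z => ?_)
    rw [Finset.mem_filter, Finset.mem_filter, Subtype.ext_iff]
    rfl
  simp only [Finset.sum_const, Finset.card_univ, nsmul_eq_mul, mul_one] at h1
  have h3 : (Fintype.card H : ℂ) = ((Finset.univ.filter fun z : H => p z = 1).card : ℂ) *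
      (Fintype.card (H.map p) : ℂ) := by
    rw [← h2]
    convert h1
  rw [Nat.card_eq_fintype_card, Nat.card_eq_fintype_card]
  exact_mod_cast h3

theorem avg_ind (hp : Function.Surjective p) (H : Subgroup G') (θ : H → ℂ) (θ' : H.map p → ℂ)
    (h : ∀ y, fs p H θ y = ((Finset.univ.filter fun z : H => p z = 1).card : ℂ) *
      if h : y ∈ H.map p then θ' ⟨y, h⟩ else 0) (g : G') :
    ∑ n ∈ Finset.univ.filter (fun n : G' => p n = 1), indOf H θ (g * n) =
      ((Finset.univ.filter fun x : G' => p x = 1).card : ℂ) * indOf (H.map p) θ' (p g) := by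
  have hc := card_map p H
  have h0 : ((Finset.univ.filter fun z : H => p z = 1).card : ℂ) ≠ 0 := by
    have : (Finset.univ.filter fun z : H => p z = 1).Nonempty :=
      ⟨1, Finset.mem_filter.2 ⟨Finset.mem_univ _, by simp⟩⟩
    exact_mod_cast this.card_pos.ne'
  have h2 : (Nat.card (H.map p) : ℂ) ≠ 0 := by
    exact_mod_cast Nat.card_pos.ne'
  unfold indOf
  rw [← Finset.sum_div, Finset.sum_comm]
  rw [Finset.sum_congr rfl fun x _ => sum_conj p H θ g x]
  rw [sum_comp p hp fun y => fs p H θ (y⁻¹ * p g * y), hc]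
  simp only [h, ← Finset.mul_sum]
  push_cast
  field_simp

end Avg

/-! ### Irreducible representations -/

section Irr

variable {H Y W : Type} [Group H] [Fintype H] [Group Y] [AddCommGroup W] [Module ℂ W]

/-- The fibre sums vanish if the representation is not trivial on the kernel. -/
theorem fiber_zero (q : H →* Y) (τ : Representation ℂ H W) (hτ : τ.IsIrreducible)
    (hk : ¬ q.ker ≤ MonoidHom.ker τ) (y : Y) :
    ∑ z : H, (if q z = y then τ.character z else 0) = 0 := by
  let S : Subrepresentation τ := ⟨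
    { carrier := {v | ∀ n ∈ q.ker, τ n v = v}
      add_mem' := fun {a b} ha hb n hn => by rw [map_add, ha n hn, hb n hn]
      zero_mem' := fun n _ => map_zero _
      smul_mem' := fun c v hv n hn => by rw [map_smul, hv n hn] },
    fun g v hv n hn => by
      have h1 : g⁻¹ * n * g ∈ q.ker := by
        have := (MonoidHom.normal_ker q).conj_mem n hn g⁻¹
        rwa [inv_inv] at this
      have h2 : n * g = g * (g⁻¹ * n * g) := by group
      have h3 : τ n (τ g v) = τ (n * g) v := by
        rw [map_mul]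
        rfl
      rw [h3, h2, map_mul]
      show τ g (τ (g⁻¹ * n * g) v) = τ g v
      rw [hv _ h1]⟩
  have h0 : S = ⊥ ∨ S = ⊤ := hτ.eq_bot_or_eq_top S
  rcases h0 with h0 | h0
  · have hE : (∑ z : H, if q z = y then τ z else 0) = (0 : W →ₗ[ℂ] W) := by
      refine LinearMap.ext fun v => ?_
      have h1 : (∑ z : H, if q z = y then τ z else 0 : W →ₗ[ℂ] W) v ∈ S.toSubmodule := by
        intro n hn
        have hn1 : q n = 1 := hn
        have h2 : τ n * (∑ z : H, if q z = y then τ z else 0) =
            ∑ z : H, if q z = y then τ z else 0 := by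
          rw [Finset.mul_sum]
          refine Fintype.sum_equiv (Equiv.mulLeft n) _ _ fun z => ?_
          rw [Equiv.coe_mulLeft, map_mul, hn1, one_mul]
          by_cases h : q z = y
          · rw [if_pos h, if_pos h, map_mul]
          · rw [if_neg h, if_neg h, mul_zero]
        exact LinearMap.congr_fun h2 v
      rw [h0] at h1
      exact h1
    have h2 := congrArg (LinearMap.trace ℂ W) hE
    rw [map_sum, map_zero] at h2
    refine Eq.trans (Finset.sum_congr rfl fun z _ => ?_) h2
    by_cases h : q z = y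
    · rw [if_pos h, if_pos h]
      rfl
    · rw [if_neg h, if_neg h, map_zero]
  · exfalso
    refine hk fun n hn => ?_
    rw [MonoidHom.mem_ker]
    refine LinearMap.ext fun v => ?_
    have h1 : v ∈ S := by
      rw [h0]
      exact Submodule.mem_top
    exact h1 n hn

omit [Fintype H] in
/-- A representation which is trivial on the kernel. -/
theorem exists_desc (q : H →* Y) (hq : Function.Surjective q) (τ : Representation ℂ H W)
    (hk : q.ker ≤ MonoidHom.ker τ) : ∃ τ' : Representation ℂ Y W, OPIx.inf q τ' = τ := by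
  let f := QuotientGroup.lift q.ker τ fun x hx => hk hx
  refine ⟨f.comp (QuotientGroup.quotientKerEquivOfSurjective q hq).symm.toMonoidHom, ?_⟩
  refine MonoidHom.ext fun z => ?_
  show f ((QuotientGroup.quotientKerEquivOfSurjective q hq).symm (q z)) = τ z
  have h1 : (QuotientGroup.quotientKerEquivOfSurjective q hq).symm (q z) = (z : H ⧸ q.ker) := by
    rw [MulEquiv.symm_apply_eq]
    rfl
  rw [h1]
  rfl

omit [Fintype H] in
theorem irr_desc (q : H →* Y) (hq : Function.Surjective q) (τ : Representation ℂ Y W)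
    (h : Representation.IsIrreducible (OPIx.inf q τ)) : τ.IsIrreducible :=
  (OrderIso.isSimpleOrder_iff (NSYx.subIso τ q hq)).1 h

end Irr

theorem trace_zero (F : IntermediateField ℚ ℂ) {X : Type} (f : X → ℂ) (s : Finset X)
    (h : ∑ x ∈ s, f x = 0) : ∑ x ∈ s, traceOver F f x = 0 := by
  unfold traceOver
  have h1 : ∀ g : X → F, ∑ x ∈ s, ((g x : F) : ℂ) = ((∑ x ∈ s, g x : F) : ℂ) := fun g =>
    (map_sum (algebraMap F ℂ) g s).symm
  rw [h1, ← map_sum]
  have h2 : ∑ x ∈ s, (⟨f x, IntermediateField.subset_adjoin F _ (Set.mem_range_self x)⟩ :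
      IntermediateField.adjoin F (Set.range f)) = 0 := by
    refine Subtype.ext ?_
    exact (map_sum (algebraMap (IntermediateField.adjoin F (Set.range f)) ℂ) _ s).trans h
  rw [h2, map_zero]
  rfl

/-! ### `SpanTr` -/

section Span

variable {G' G V : Type} [Group G'] [Fintype G'] [Group G] [Fintype G] [AddCommGroup V] [Module ℂ V]

omit [Fintype G] in
/-- The average of a character over the fibres. -/
theorem char_avg (p : G' →* G) (ρ : Representation ℂ G V) (g : G') :
    ∑ n ∈ Finset.univ.filter (fun n : G' => p n = 1), (OPIx.inf p ρ).character (g * n) =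
      ((Finset.univ.filter fun x : G' => p x = 1).card : ℂ) * ρ.character (p g) := by
  rw [← nsmul_eq_mul, ← Finset.sum_const]
  refine Finset.sum_congr rfl fun n hn => ?_
  show ρ.character (p (g * n)) = _
  rw [map_mul, (Finset.mem_filter.1 hn).2, mul_one]

/-- The average of one term. -/
theorem term_good (p : G' →* G) (hp : Function.Surjective p) (H : Subgroup G')
    {W : Type} [AddCommGroup W] [Module ℂ W] (F : IntermediateField ℚ ℂ)
    (τ : Representation ℂ H W) (τ' : Representation ℂ (H.map p) W)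
    (h : OPIx.inf (p.subgroupMap H) τ' = τ) (g : G') :
    ∑ n ∈ Finset.univ.filter (fun n : G' => p n = 1), indOf H (traceOver F τ.character) (g * n) =
      ((Finset.univ.filter fun x : G' => p x = 1).card : ℂ) *
        indOf (H.map p) (traceOver F τ'.character) (p g) := by
  refine avg_ind p hp H _ _ (fun y => ?_) g
  have h1 : ∀ z : H, traceOver F τ.character z =
      traceOver F τ'.character ⟨p z, Subgroup.mem_map_of_mem p z.2⟩ := by
    intro z
    rw [← h, OPIx.inf_traceOver _ (p.subgroupMap_surjective H)]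
    rfl
  by_cases hy : y ∈ H.map p
  · rw [dif_pos hy]
    unfold fs
    rw [← Finset.sum_filter]
    have h2 : ∀ z ∈ Finset.univ.filter (fun z : H => p z = y), traceOver F τ.character z =
        traceOver F τ'.character ⟨y, hy⟩ := by
      intro z hz
      have h3 : p z = y := (Finset.mem_filter.1 hz).2
      rw [h1 z]
      congr 1
      exact Subtype.ext h3
    rw [Finset.sum_congr rfl h2, Finset.sum_const, nsmul_eq_mul]
    congr 2
    have h4 := card_fiber (p.subgroupMap H) (p.subgroupMap_surjective H) ⟨y, hy⟩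
    simp only [Subtype.ext_iff] at h4
    exact h4
  · rw [dif_neg hy, mul_zero]
    refine Finset.sum_eq_zero fun z _ => if_neg fun h2 => hy ?_
    rw [← h2]
    exact Subgroup.mem_map_of_mem p z.2

theorem term_bad (p : G' →* G) (hp : Function.Surjective p) (H : Subgroup G')
    {W : Type} [AddCommGroup W] [Module ℂ W] (F : IntermediateField ℚ ℂ)
    (τ : Representation ℂ H W) (hτ : τ.IsIrreducible)
    (hk : ¬ (p.subgroupMap H).ker ≤ MonoidHom.ker τ) (g : G') :
    ∑ n ∈ Finset.univ.filter (fun n : G' => p n = 1), indOf H (traceOver F τ.character) (g * n) =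
      0 := by
  have h1 := avg_ind p hp H (traceOver F τ.character) (fun _ => 0) (fun y => ?_) g
  · rw [h1]
    unfold indOf
    simp
  · rw [dite_eq_right_iff.2 fun _ => rfl, mul_zero]
    unfold fs
    rw [← Finset.sum_filter]
    refine trace_zero F _ _ ?_
    by_cases hy : y ∈ H.map p
    · have h2 := fiber_zero (p.subgroupMap H) τ hτ hk ⟨y, hy⟩
      simp only [Subtype.ext_iff] at h2
      rw [Finset.sum_filter]
      exact h2
    · rw [Finset.filter_eq_empty_iff.2, Finset.sum_empty]
      intro z _ h2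
      refine hy ?_
      rw [← h2]
      exact Subgroup.mem_map_of_mem p z.2

/-- `SpanTr` for the quotient. -/
theorem spanTr_desc (p : G' →* G) (hp : Function.Surjective p) (ρ : Representation ℂ G V)
    (h : SpanTr (OPIx.inf p ρ)) : SpanTr ρ := by
  obtain ⟨m, H, W, i1, i2, i3, τ, c, hτ, hsum⟩ := h
  rw [OPIx.inf_charField p hp] at hsum
  let P : Fin m → Prop := fun i => (p.subgroupMap (H i)).ker ≤ MonoidHom.ker (τ i)
  have hex : ∀ i : {i // P i}, ∃ τ' : Representation ℂ ((H i).map p) (W i),
      OPIx.inf (p.subgroupMap (H i)) τ' = τ i := fun i =>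
    exists_desc _ (p.subgroupMap_surjective (H i)) (τ i) i.2
  choose τ' hτ' using hex
  let e := (Fintype.equivFin {i // P i}).symm
  refine ⟨Fintype.card {i // P i}, fun a => (H (e a)).map p, fun a => W (e a), fun a => i1 (e a),
    fun a => i2 (e a), fun a => i3 (e a), fun a => τ' (e a), fun a => c (e a), fun a => ⟨?_, ?_⟩,
    fun g => ?_⟩
  · refine irr_desc (p.subgroupMap (H (e a))) (p.subgroupMap_surjective _) _ ?_
    rw [hτ' (e a)]
    exact (hτ (e a)).1
  · refine good_desc (p.subgroupMap (H (e a))) (p.subgroupMap_surjective _) _ ?_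
    rw [hτ' (e a)]
    exact (hτ (e a)).2
  · obtain ⟨g, rfl⟩ := hp g
    have hN : ((Finset.univ.filter fun x : G' => p x = 1).card : ℂ) ≠ 0 := by
      have : (Finset.univ.filter fun x : G' => p x = 1).Nonempty :=
        ⟨1, Finset.mem_filter.2 ⟨Finset.mem_univ _, map_one p⟩⟩
      exact_mod_cast this.card_pos.ne'
    refine mul_left_cancel₀ hN ?_
    rw [← char_avg p ρ g, Finset.sum_congr rfl fun n _ => hsum (g * n), Finset.sum_comm,
      Finset.mul_sum]
    have h1 : ∀ i, ∑ n ∈ Finset.univ.filter (fun n : G' => p n = 1),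
        (c i : ℂ) * indOf (H i) (traceOver (charField ρ.character) (τ i).character) (g * n) =
        if hi : P i then ((Finset.univ.filter fun x : G' => p x = 1).card : ℂ) * ((c i : ℂ) *
          indOf ((H i).map p) (traceOver (charField ρ.character) (τ' ⟨i, hi⟩).character) (p g))
        else 0 := by
      intro i
      rw [← Finset.mul_sum]
      by_cases hi : P i
      · rw [dif_pos hi, term_good p hp (H i) _ (τ i) (τ' ⟨i, hi⟩) (hτ' ⟨i, hi⟩) g]
        ring
      · rw [dif_neg hi, term_bad p hp (H i) _ (τ i) (hτ i).1 hi g, mul_zero]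
    rw [Finset.sum_congr rfl fun i _ => h1 i]
    rw [Equiv.sum_comp e (fun a : {i // P i} =>
      ((Finset.univ.filter fun x : G' => p x = 1).card : ℂ) * ((c a : ℂ) *
        indOf ((H a).map p) (traceOver (charField ρ.character) (τ' a).character) (p g)))]
    refine (Fintype.sum_of_injective (fun a : {i // P i} => (a : Fin m)) Subtype.val_injective
      _ _ ?_ ?_).symm
    · intro i hi
      exact dif_neg fun h => hi ⟨⟨i, h⟩, rfl⟩
    · intro a
      rw [dif_pos a.2]

end Span

/-! ### The class -/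

section Cls

variable {G' G V : Type} [Group G'] [Fintype G'] [Group G] [Fintype G] [AddCommGroup V] [Module ℂ V]

theorem inCls_desc (p : G' →* G) (hp : Function.Surjective p) (ρ : Representation ℂ G V)
    (h : InCls (OPIx.inf p ρ)) : InCls ρ := by
  obtain ⟨q⟩ := OPIx.inf_quot p hp ρ
  rcases h with ⟨l, k, hl, h2, h⟩ | ⟨h1, h2⟩ | ⟨h0, h⟩
  · refine Or.inl ⟨l, k, hl, h2, fun g => ?_⟩
    obtain ⟨g, rfl⟩ := hp g
    exact h g
  · exact Or.inr (Or.inl ⟨ppo_iso q h1, noSymp_iso q h2⟩)
  · rw [OPIx.inf_charField p hp] at h0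
    refine Or.inr (Or.inr ⟨h0, ?_⟩)
    rcases h with h | h | h
    · exact Or.inl (sylEl_iso q h)
    · exact Or.inr (Or.inl (good_desc p hp ρ h))
    · exact Or.inr (Or.inr (spanTr_desc p hp ρ h))

theorem inCls_infl (p : G' →* G) (hp : Function.Surjective p) (ρ : Representation ℂ G V)
    (h : InCls ρ) : InCls (OPIx.inf p ρ) := by
  obtain ⟨q⟩ := OPIx.inf_quot p hp ρ
  rcases h with ⟨l, k, hl, h2, h⟩ | ⟨h1, h2⟩ | ⟨h0, h⟩
  · exact Or.inl ⟨l, k, hl, h2, fun g => h (p g)⟩
  · exact Or.inr (Or.inl ⟨ppo_iso q.symm h1, noSymp_iso q.symm h2⟩)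
  · rw [← OPIx.inf_charField p hp] at h0
    refine Or.inr (Or.inr ⟨h0, ?_⟩)
    rcases h with h | h | h
    · exact Or.inl (sylEl_iso q.symm h)
    · exact Or.inr (Or.inl (OPLx.inf_good p hp ρ h))
    · exact Or.inr (Or.inr (OPLx.spanTr_infl p hp ρ h))

end Cls

end WCLx

open WCLx

theorem WCL_thm : Stmt_WCL := by
  intro G Q _ _ _ _ p hp V _ _ _ ρ
  exact ⟨inCls_desc p hp ρ, inCls_infl p hp ρ⟩

end StarkC.ABS
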