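import Pool.Agent.ABS.StTower

/-!
# ABS, module WCO (helper32): the finite Galois extensions have a cofinal sequence
-/

set_option autoImplicit false

open NumberField IsDedekindDomain
open scoped Classical

namespace StarkC.ABS

namespace WCOx

/-- the tower generated by a sequence -/
noncomputable def tw (K Ω : Type) [Field K] [Field Ω] [Algebra K Ω] [IsGalois K Ω] (a : ℕ → Ω) :
    ℕ → FiniteGaloisIntermediateField K Ω
  | 0 => ⊥
  | n + 1 => tw K Ω a n ⊔ FiniteGaloisIntermediateField.adjoin K {a n}

lemma mono (K Ω : Type) [Field K] [Field Ω] [Algebra K Ω] [IsGalois K Ω] (a : ℕ → Ω) :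
    Monotone (tw K Ω a) := monotone_nat_of_le_succ fun _ => le_sup_left

lemma mem (K Ω : Type) [Field K] [Field Ω] [Algebra K Ω] [IsGalois K Ω] (a : ℕ → Ω) (n : ℕ) :
    a n ∈ (tw K Ω a (n + 1)).toIntermediateField := by
  have h1 : FiniteGaloisIntermediateField.adjoin K {a n} ≤ tw K Ω a (n + 1) := le_sup_right
  exact FiniteGaloisIntermediateField.adjoin_simple_le_iff.1 h1

end WCOx

theorem WCO_thm : Stmt_WCO := by
  intro K _ _
  have hK : Countable K := by
    rw [← Cardinal.mk_le_aleph0_iff]
    have h1 := Algebra.IsAlgebraic.cardinalMk_le_max ℚ K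
    have h2 : Cardinal.mk ℚ ≤ Cardinal.aleph0 := Cardinal.mk_le_aleph0_iff.2 inferInstance
    exact h1.trans (max_le h2 le_rfl)
  have hO : Countable (AlgebraicClosure K) := by
    rw [← Cardinal.mk_le_aleph0_iff]
    have h1 := Algebra.IsAlgebraic.cardinalMk_le_max K (AlgebraicClosure K)
    have h2 : Cardinal.mk K ≤ Cardinal.aleph0 := Cardinal.mk_le_aleph0_iff.2 hK
    exact h1.trans (max_le h2 le_rfl)
  obtain ⟨a, ha⟩ := exists_surjective_nat (AlgebraicClosure K)
  have hG : IsGalois K (AlgebraicClosure K) := inferInstance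
  refine ⟨fun n => ⟨(WCOx.tw K (AlgebraicClosure K) a n).toIntermediateField,
    (WCOx.tw K (AlgebraicClosure K) a n).finiteDimensional,
    (WCOx.tw K (AlgebraicClosure K) a n).isGalois⟩, ?_, ?_⟩
  · intro m n hmn
    exact WCOx.mono K (AlgebraicClosure K) a hmn
  · rintro ⟨L, hL1, hL2⟩
    obtain ⟨x, hx⟩ := Field.exists_primitive_element K L
    obtain ⟨n, hn⟩ := ha (x : AlgebraicClosure K)
    refine ⟨n + 1, ?_⟩
    show L ≤ (WCOx.tw K (AlgebraicClosure K) a (n + 1)).toIntermediateField
    have h1 : L = IntermediateField.adjoin K {(x : AlgebraicClosure K)} := by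
      have h2 := congrArg (IntermediateField.map L.val) hx
      rw [IntermediateField.adjoin_map, Set.image_singleton] at h2
      rw [← AlgHom.fieldRange_eq_map, IntermediateField.fieldRange_val] at h2
      exact h2.symm
    rw [h1, IntermediateField.adjoin_simple_le_iff, ← hn]
    exact WCOx.mem K (AlgebraicClosure K) a n

end StarkC.ABS
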