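import Pool.Agent.ABS.PDefsL

/-!
# Definitions for the statement about one `φ`: compatibility in towers
-/

open NumberField IsDedekindDomain

namespace StarkP

section Tower

variable {L N : Type} [Field L] [NumberField L] [Field N] [NumberField N]

/-- `z` is the image of `y` under the map `ℂ ⊗ X_L → ℂ ⊗ X_N` which takes a place `a` of `L` to the
sum of the places `b ∣ a` of `N` with the local degrees `[N_b : L_a]` as coefficients: `n` is the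
local degree if `|x|_b = |x|_a ^ n` for all `x ∈ L`.  If `y = λ_L(u)` with `u ∈ U_L`, then
`z = λ_N(u)`. -/
def Lift (j : L →+* N) (T : Set (HeightOneSpectrum (𝓞 L))) (T' : Set (HeightOneSpectrum (𝓞 N)))
    (y : (L → ℝ) →₀ ℂ) (z : (N → ℝ) →₀ ℂ) : Prop :=
  ∀ a ∈ placeSet L T, ∀ b ∈ placeSet N T', ∀ n : ℕ, (∀ x : L, b (j x) = a x ^ n) → z b = n * y a

/-- `φ_N` extends `φ_L` (`ℚ ⊗ X_L` and `ℚ ⊗ U_L` being contained in `ℚ ⊗ X_N` and `ℚ ⊗ U_N`), in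
terms of `Θ = λ ∘ φ_L` and `Θ' = λ ∘ φ_N`. -/
def Extends (j : L →+* N) (T : Set (HeightOneSpectrum (𝓞 L)))
    (T' : Set (HeightOneSpectrum (𝓞 N))) (Θ : ((L → ℝ) →₀ ℂ) →ₗ[ℂ] ((L → ℝ) →₀ ℂ))
    (Θ' : ((N → ℝ) →₀ ℂ) →ₗ[ℂ] ((N → ℝ) →₀ ℂ)) : Prop :=
  ∀ y ∈ XC L T, ∀ z ∈ XC N T', Lift j T T' y z → Lift j T T' (Θ y) (Θ' z)

end Tower

end StarkP
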