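import Pool.Agent.Stark.INFL
import Pool.Agent.Stark.IOT
import Pool.Agent.Stark.UDE
import Pool.Agent.Stark.THE
import Pool.Agent.Stark.XRAT
import Pool.Agent.Stark.UNIT
import Pool.Agent.Stark.STB
import Pool.Agent.Stark.PBridgeReg
import Pool.Agent.ABS.PDefsW

/-!
# Project ABS, version 3: extension and restriction of `φ` and `Θ` along `L ⊂ N`
-/

set_option autoImplicit false

open NumberField IsDedekindDomain
open scoped TensorProduct Classical

namespace StarkC.ABS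

open StarkC.INFL

namespace WEXx

/-! ### Averages -/

set_option linter.unusedSectionVars false


section av

variable {k : Type} [Field k] [CharZero k] {G A B : Type} [Group G] [Fintype G] [AddCommGroup A]
  [Module k A] [AddCommGroup B] [Module k B]

/-- The average of `α` over the subgroup `D`. -/
noncomputable def av (α : Representation k G A) (D : Subgroup G) : A →ₗ[k] A :=
  (Fintype.card D : k)⁻¹ • ∑ d : D, α d

theorem av_apply (α : Representation k G A) (D : Subgroup G) (x : A) :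
    av α D x = (Fintype.card D : k)⁻¹ • ∑ d : D, α d x := by
  unfold av
  rw [LinearMap.smul_apply, LinearMap.sum_apply]

theorem card_ne (D : Subgroup G) : (Fintype.card D : k) ≠ 0 := by
  exact_mod_cast Fintype.card_ne_zero

theorem av_mem (α : Representation k G A) (D : Subgroup G) (x : A) (d : G) (hd : d ∈ D) :
    α d (av α D x) = av α D x := by
  rw [av_apply, map_smul, map_sum]
  congr 1
  refine Fintype.sum_bijective (fun e : D => (⟨d, hd⟩ : D) * e) (Group.mulLeft_bijective _) _ _ ?_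
  intro e
  show α d (α e x) = α ((d : G) * (e : G)) x
  rw [map_mul]
  rfl

theorem av_fix (α : Representation k G A) (D : Subgroup G) (x : A) (h : ∀ d ∈ D, α d x = x) :
    av α D x = x := by
  rw [av_apply, Finset.sum_congr rfl fun d _ => h (d : D) d.2, Finset.sum_const, Finset.card_univ,
    ← Nat.cast_smul_eq_nsmul k, smul_smul, inv_mul_cancel₀ (card_ne D), one_smul]

theorem av_av (α : Representation k G A) (D : Subgroup G) (x : A) :
    av α D (av α D x) = av α D x :=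
  av_fix α D _ fun d hd => av_mem α D x d hd

theorem av_comm (α : Representation k G A) (D : Subgroup G) [hD : D.Normal] (g : G) (x : A) :
    av α D (α g x) = α g (av α D x) := by
  rw [av_apply, av_apply, map_smul, map_sum]
  congr 1
  refine Fintype.sum_bijective (fun e : D => (⟨g⁻¹ * e * g, by
    have := hD.conj_mem e e.2 g⁻¹
    rwa [inv_inv] at this⟩ : D)) ?_ _ _ ?_
  · constructor
    · intro e f hef
      have h1 : g⁻¹ * (e : G) * g = g⁻¹ * (f : G) * g := congrArg Subtype.val hef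
      exact Subtype.ext (mul_left_cancel (mul_right_cancel h1))
    · intro f
      refine ⟨⟨g * f * g⁻¹, hD.conj_mem f f.2 g⟩, Subtype.ext ?_⟩
      show g⁻¹ * (g * (f : G) * g⁻¹) * g = f
      group
  · intro e
    show α (e : G) (α g x) = α g (α (g⁻¹ * (e : G) * g) x)
    rw [← Module.End.mul_apply, ← Module.End.mul_apply, ← map_mul, ← map_mul]
    congr 2
    group

theorem av_map (α : Representation k G A) (β : Representation k G B) (D : Subgroup G)
    (φ : A →ₗ[k] B) (h : ∀ g x, φ (α g x) = β g (φ x)) (x : A) :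
    φ (av α D x) = av β D (φ x) := by
  rw [av_apply, av_apply, map_smul, map_sum]
  congr 1
  exact Finset.sum_congr rfl fun d _ => h d x

/-- The extension of an isomorphism of the invariants. -/
theorem ext_lin (α : Representation k G A) (β : Representation k G B) (D : Subgroup G)
    [hD : D.Normal] (A₀ : Submodule k A) (B₀ : Submodule k B)
    (hA₀ : ∀ x, x ∈ A₀ ↔ ∀ d ∈ D, α d x = x) (hB₀ : ∀ x, x ∈ B₀ ↔ ∀ d ∈ D, β d x = x)
    (e₀ : A₀ ≃ₗ[k] B₀) (he₀ : ∀ (g : G) (x y : A₀), (y : A) = α g x → (e₀ y : B) = β g (e₀ x))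
    (φ₀ : A ≃ₗ[k] B) (hφ₀ : ∀ g x, φ₀ (α g x) = β g (φ₀ x)) :
    ∃ e : A ≃ₗ[k] B, (∀ g x, e (α g x) = β g (e x)) ∧ (∀ x : A₀, e x = e₀ x) ∧
      ∀ x, e (x - av α D x) = φ₀ (x - av α D x) := by
  have hmem : ∀ x, av α D x ∈ A₀ := fun x => (hA₀ _).2 fun d hd => av_mem α D x d hd
  have hmemB : ∀ x, av β D x ∈ B₀ := fun x => (hB₀ _).2 fun d hd => av_mem β D x d hd
  have hφav : ∀ x, φ₀ (av α D x) = av β D (φ₀ x) := av_map α β D φ₀.toLinearMap hφ₀
  let P : A →ₗ[k] A₀ := (av α D).codRestrict A₀ hmem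
  have hP : ∀ x, (P x : A) = av α D x := fun x => rfl
  let f : A →ₗ[k] B := B₀.subtype ∘ₗ e₀.toLinearMap ∘ₗ P +
    φ₀.toLinearMap ∘ₗ (LinearMap.id - av α D)
  have hf : ∀ x, f x = (e₀ (P x) : B) + φ₀ (x - av α D x) := fun x => rfl
  have hPA : ∀ x : A₀, P x = x := by
    intro x
    exact Subtype.ext (av_fix α D x ((hA₀ _).1 x.2))
  have hPz : ∀ x, P (x - av α D x) = 0 := by
    intro x
    refine Subtype.ext ?_
    rw [hP, map_sub, av_av, sub_self]
    rfl
  have hzB : ∀ x, av β D (φ₀ (x - av α D x)) = 0 := by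
    intro x
    rw [← hφav, map_sub, av_av, sub_self, map_zero]
  have havf : ∀ x, av β D (f x) = e₀ (P x) := by
    intro x
    rw [hf, map_add, hzB, add_zero, av_fix β D _ ((hB₀ _).1 (e₀ (P x)).2)]
  have hbij : Function.Bijective f := by
    constructor
    · rw [injective_iff_map_eq_zero]
      intro x hx
      have h1 := havf x
      rw [hx, map_zero] at h1
      have h2 : e₀ (P x) = 0 := Subtype.ext h1.symm
      have h3 : P x = 0 := by
        rwa [LinearEquiv.map_eq_zero_iff] at h2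
      have h4 : av α D x = 0 := by
        rw [← hP, h3]
        rfl
      rw [hf, h2, h4, sub_zero] at hx
      have h5 : φ₀ x = 0 := by
        rw [← hx]
        exact (zero_add _).symm
      rwa [LinearEquiv.map_eq_zero_iff] at h5
    · intro y
      let y₀ : B₀ := ⟨av β D y, hmemB y⟩
      have hx0 : av α D (φ₀.symm (y - av β D y)) = 0 := by
        apply φ₀.injective
        rw [hφav, LinearEquiv.apply_symm_apply, map_sub, av_av, sub_self, map_zero]
      refine ⟨(e₀.symm y₀ : A) + φ₀.symm (y - av β D y), ?_⟩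
      have h1 : av α D ((e₀.symm y₀ : A) + φ₀.symm (y - av β D y)) = e₀.symm y₀ := by
        rw [map_add, hx0, add_zero, av_fix α D _ ((hA₀ _).1 (e₀.symm y₀).2)]
      have h2 : P ((e₀.symm y₀ : A) + φ₀.symm (y - av β D y)) = e₀.symm y₀ := Subtype.ext h1
      rw [hf, h2, h1, LinearEquiv.apply_symm_apply, add_sub_cancel_left,
        LinearEquiv.apply_symm_apply]
      show av β D y + (y - av β D y) = y
      rw [add_sub_cancel]
  refine ⟨LinearEquiv.ofBijective f hbij, fun g x => ?_, fun x => ?_, fun x => ?_⟩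
  · show f (α g x) = β g (f x)
    rw [hf, hf, map_add, he₀ g (P x) (P (α g x)) (by rw [hP, hP, av_comm]), av_comm, ← map_sub,
      hφ₀]
  · show f x = e₀ x
    rw [hf, hPA, av_fix α D x ((hA₀ _).1 x.2), sub_self, map_zero, add_zero]
  · show f (x - av α D x) = _
    rw [hf, hPz, map_zero, map_sub (av α D), av_av, sub_self, sub_zero]
    exact zero_add _

end av

/-- The invariants of `D`. -/
def invs {k : Type} [Field k] {G A : Type} [Group G] [AddCommGroup A] [Module k A]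
    (α : Representation k G A) (D : Subgroup G) : Submodule k A where
  carrier := {x | ∀ d ∈ D, α d x = x}
  add_mem' := by
    intro x y hx hy d hd
    rw [map_add, hx d hd, hy d hd]
  zero_mem' := by
    intro d hd
    rw [map_zero]
  smul_mem' := by
    intro c x hx d hd
    rw [map_smul, hx d hd]

theorem mem_invs {k : Type} [Field k] {G A : Type} [Group G] [AddCommGroup A] [Module k A]
    (α : Representation k G A) (D : Subgroup G) (x : A) :
    x ∈ invs α D ↔ ∀ d ∈ D, α d x = x := Iff.rfl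

/-! ### The maps `ι` -/

section arith

variable (K L N : Type) [Field K] [NumberField K] [Field L] [NumberField L] [Field N]
  [NumberField N] [Algebra K L] [Algebra K N] [Algebra L N] [IsScalarTower K L N]
  (S : Finset (HeightOneSpectrum (𝓞 K)))

/-- The map `ι` on `ℚ ⊗ X`. -/
noncomputable def iQ : XQ L (aboveSet K L S) →ₗ[ℚ] XQ N (aboveSet K N S) :=
  (IOT.io K L N ℚ S).restrict (p := XQ L (aboveSet K L S)) (q := XQ N (aboveSet K N S))
    (fun _ hx => IOT.io_mem K L N S ℚ hx)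

/-- The map `ι` on `ℂ ⊗ X`. -/
noncomputable def iC : XC L (aboveSet K L S) →ₗ[ℂ] XC N (aboveSet K N S) :=
  (IOT.io K L N ℂ S).restrict (p := XCsub L (aboveSet K L S)) (q := XCsub N (aboveSet K N S))
    (fun _ hx => IOT.io_mem K L N S ℂ hx)

theorem iQ_val (x : XQ L (aboveSet K L S)) :
    (iQ K L N S x : (N → ℝ) →₀ ℚ) = IOT.io K L N ℚ S x := rfl

theorem iC_val (x : XC L (aboveSet K L S)) : (iC K L N S x).val = IOT.io K L N ℂ S x.val := rfl

theorem iQ_inj : Function.Injective (iQ K L N S) := by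
  rw [injective_iff_map_eq_zero]
  intro x hx
  apply Subtype.ext
  refine IOT.io_inj K L N S ℚ x.2 ?_
  rw [← iQ_val, hx]
  rfl

theorem iC_inj : Function.Injective (iC K L N S) := by
  rw [injective_iff_map_eq_zero]
  intro x hx
  apply Subtype.ext
  refine IOT.io_inj K L N S ℂ x.2 ?_
  have h := iC_val K L N S x
  rw [hx] at h
  exact h.symm

theorem iC_iQ (x : XQ L (aboveSet K L S)) (z : XC L (aboveSet K L S))
    (hz : ∀ a, z.val a = (((x : (L → ℝ) →₀ ℚ) a : ℚ) : ℂ)) (a : N → ℝ) :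
    (iC K L N S z).val a = (((iQ K L N S x : (N → ℝ) →₀ ℚ) a : ℚ) : ℂ) := by
  rw [iC_val, iQ_val, IOT.io_apply, IOT.io_apply, hz]
  split_ifs <;> simp

theorem iC_lam (u : ℚ ⊗[ℤ] Additive Lˣ) (z : XC L (aboveSet K L S))
    (hz : z.val = lam L (aboveSet K L S) u) :
    (iC K L N S z).val = lam N (aboveSet K N S) (jU L N u) := by
  rw [iC_val, hz, IOT.io_lam]

/-- `Gal(N/L)` as the kernel of the restriction. -/
noncomputable def dker [IsGalois K L] : Subgroup (N ≃ₐ[K] N) :=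
  (AlgEquiv.restrictNormalHom (F := K) (K₁ := N) L).ker

instance [IsGalois K L] : (dker K L N).Normal := MonoidHom.normal_ker _

theorem mem_dker [IsGalois K L] (δ : N ≃ₐ[K] N) :
    δ ∈ dker K L N ↔ AlgEquiv.restrictNormalHom L δ = (1 : L ≃ₐ[K] L) :=
  MonoidHom.mem_ker

variable [IsGalois K L] [IsGalois K N]

theorem iQ_equi (g : N ≃ₐ[K] N) (x y : XQ L (aboveSet K L S))
    (h : (y : (L → ℝ) →₀ ℚ) = actQ (AlgEquiv.restrictNormalHom L g : L ≃+* L) x) :
    (iQ K L N S y : (N → ℝ) →₀ ℚ) = actQ (g : N ≃+* N) (iQ K L N S x) := by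
  rw [iQ_val, iQ_val, h]
  exact IOT.io_equiv K L N S ℚ g x

theorem iC_equi (g : N ≃ₐ[K] N) (x y : XC L (aboveSet K L S))
    (h : y.val = actC (AlgEquiv.restrictNormalHom L g : L ≃+* L) x.val) :
    (iC K L N S y).val = actC (g : N ≃+* N) (iC K L N S x).val := by
  rw [iC_val, iC_val, h]
  exact IOT.io_equiv K L N S ℂ g x.val

theorem iC_surj (x : XC N (aboveSet K N S))
    (hx : ∀ δ : N ≃ₐ[K] N, AlgEquiv.restrictNormalHom L δ = (1 : L ≃ₐ[K] L) →
      actC (δ : N ≃+* N) x.val = x.val) : ∃ y, iC K L N S y = x := by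
  obtain ⟨y, hy, hyx⟩ := IOT.io_range K L N S ℂ (x := x.val) x.2 hx
  exact ⟨⟨y, hy⟩, Subtype.ext hyx⟩

theorem exists_iA : ∃ ιA : XQ L (aboveSet K L S) ≃ₗ[ℚ]
    invs (repQ (K := K) (aboveSet K N (S : Set (HeightOneSpectrum (𝓞 K)))) (STB_thm K N S))
      (dker K L N),
    ∀ x, (ιA x : XQ N (aboveSet K N S)) = iQ K L N S x := by
  have hmem : ∀ x, iQ K L N S x ∈
      invs (repQ (K := K) (aboveSet K N (S : Set (HeightOneSpectrum (𝓞 K)))) (STB_thm K N S))
        (dker K L N) := by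
    intro x d hd
    have h1 := iQ_equi K L N S d x x (by
      rw [(mem_dker K L N d).1 hd]
      exact (actQ_one (K := K) _).symm)
    exact Subtype.ext h1.symm
  refine ⟨LinearEquiv.ofBijective ((iQ K L N S).codRestrict _ hmem) ?_, fun x => rfl⟩
  constructor
  · intro x y hxy
    exact iQ_inj K L N S (congrArg Subtype.val hxy)
  · rintro ⟨x, hx⟩
    obtain ⟨y, hy, hyx⟩ := IOT.io_range K L N S ℚ x.2 fun δ hδ =>
      congrArg Subtype.val (hx δ ((mem_dker K L N δ).2 hδ))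
    exact ⟨⟨y, hy⟩, Subtype.ext (Subtype.ext hyx)⟩

theorem exists_jB : ∃ jB : QU L (aboveSet K L (S : Set (HeightOneSpectrum (𝓞 K)))) ≃ₗ[ℚ]
    invs (repU (N := N) STB_thm (S : Set (HeightOneSpectrum (𝓞 K)))) (dker K L N),
    ∀ x, ((jB x : QU N (aboveSet K N (S : Set (HeightOneSpectrum (𝓞 K))))) :
      ℚ ⊗[ℤ] Additive Nˣ) = jU L N x := by
  obtain ⟨jmem, jinj, jequi, jsurj⟩ := UDE_thm K L N (S : Set (HeightOneSpectrum (𝓞 K)))
  let jUr : QU L (aboveSet K L (S : Set (HeightOneSpectrum (𝓞 K)))) →ₗ[ℚ]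
    QU N (aboveSet K N (S : Set (HeightOneSpectrum (𝓞 K)))) := (jU L N).restrict jmem
  have hmem : ∀ x, jUr x ∈
      invs (repU (N := N) STB_thm (S : Set (HeightOneSpectrum (𝓞 K)))) (dker K L N) := by
    intro x d hd
    apply Subtype.ext
    show actU (d : N ≃+* N) (jU L N x) = jU L N x
    rw [jequi, (mem_dker K L N d).1 hd, actU_one (K := K)]
  refine ⟨LinearEquiv.ofBijective (jUr.codRestrict _ hmem) ?_, fun x => rfl⟩
  constructor
  · refine (injective_iff_map_eq_zero (jUr.codRestrict _ hmem)).2 ?_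
    intro x hx
    have h1 : jU L N x = 0 := congrArg (fun y : invs (repU (N := N) STB_thm
      (S : Set (HeightOneSpectrum (𝓞 K)))) (dker K L N) => ((y : QU N
      (aboveSet K N (S : Set (HeightOneSpectrum (𝓞 K))))) : ℚ ⊗[ℤ] Additive Nˣ)) hx
    exact Subtype.ext (jinj x x.2 h1)
  · rintro ⟨x, hx⟩
    obtain ⟨y, hy, hyx⟩ := jsurj x x.2
      (fun δ hδ => congrArg Subtype.val (hx δ ((mem_dker K L N δ).2 hδ)))
    exact ⟨⟨y, hy⟩, Subtype.ext (Subtype.ext hyx)⟩

variable {K L N S}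

/-- `φ'` extends `φ`, so `Θ'` extends `Θ`. -/
theorem comm_of {φ : XQ L (aboveSet K L S) ≃ₗ[ℚ] QU L (aboveSet K L S)}
    {Θ : XC L (aboveSet K L S) →ₗ[ℂ] XC L (aboveSet K L S)}
    (h : IsPhiTheta K (aboveSet K L S) φ Θ)
    {φ' : XQ N (aboveSet K N S) ≃ₗ[ℚ] QU N (aboveSet K N S)}
    {Θ' : XC N (aboveSet K N S) →ₗ[ℂ] XC N (aboveSet K N S)}
    (h' : IsPhiTheta K (aboveSet K N S) φ' Θ')
    (hφ : ∀ x : XQ L (aboveSet K L S),
      (φ' (iQ K L N S x) : ℚ ⊗[ℤ] Additive Nˣ) = jU L N (φ x)) :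
    Θ' ∘ₗ iC K L N S = iC K L N S ∘ₗ Θ := by
  obtain ⟨r, c, c', hcc'⟩ := XRAT_thm L (aboveSet K L (S : Set (HeightOneSpectrum (𝓞 K))))
    (finite_aboveSet S.finite_toSet)
  refine c'.ext fun i => ?_
  rw [LinearMap.comp_apply, LinearMap.comp_apply]
  have h2 := iC_lam K L N S _ _ (h.2 (c i) (c' i) (hcc' i))
  have h4 := h'.2 (iQ K L N S (c i)) (iC K L N S (c' i)) (iC_iQ K L N S (c i) (c' i) (hcc' i))
  apply Subtype.ext
  refine h4.trans (Eq.trans ?_ h2.symm)
  rw [hφ]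

theorem iN_smul (T : Set (HeightOneSpectrum (𝓞 N))) (q : ℚ) (x : XQ N T) :
    iN T (q • x) = (q : ℂ) • iN T x := by
  apply Subtype.ext
  apply Finsupp.ext
  intro a
  have h1 : (((q : ℂ) • iN T x : XC N T) : XC N T).val a = (q : ℂ) * (iN T x).val a := rfl
  refine Eq.trans (iN_val T (q • x) a) (Eq.trans ?_ h1.symm)
  rw [iN_val]
  show ((q * (x : (N → ℝ) →₀ ℚ) a : ℚ) : ℂ) = _
  push_cast
  rfl

theorem iN_rep (g : N ≃ₐ[K] N)
    (x : XQ N (aboveSet K N (S : Set (HeightOneSpectrum (𝓞 K))))) :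
    iN _ (repQ (K := K) _ (STB_thm K N S) g x) = repX K _ (STB_thm K N S) g (iN _ x) := by
  apply Subtype.ext
  exact castQC_act (g : N ≃+* N) _

theorem iN_av (D : Subgroup (N ≃ₐ[K] N))
    (x : XQ N (aboveSet K N (S : Set (HeightOneSpectrum (𝓞 K))))) :
    iN _ (av (repQ (K := K) _ (STB_thm K N S)) D x) =
      av (repX K _ (STB_thm K N S)) D (iN _ x) := by
  rw [av_apply, av_apply, iN_smul, map_sum]
  congr 1
  · push_cast
    rfl
  · exact Finset.sum_congr rfl fun d _ => iN_rep _ x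

/-- If `φ'` and `φ₀` agree on the kernel of the average, so do `Θ'` and `Θ₀`. -/
theorem ker_of {φ₀ : XQ N (aboveSet K N S) ≃ₗ[ℚ] QU N (aboveSet K N S)}
    {Θ₀ : XC N (aboveSet K N S) →ₗ[ℂ] XC N (aboveSet K N S)}
    (h₀ : IsPhiTheta K (aboveSet K N S) φ₀ Θ₀)
    {φ' : XQ N (aboveSet K N S) ≃ₗ[ℚ] QU N (aboveSet K N S)}
    {Θ' : XC N (aboveSet K N S) →ₗ[ℂ] XC N (aboveSet K N S)}
    (h' : IsPhiTheta K (aboveSet K N S) φ' Θ') (D : Subgroup (N ≃ₐ[K] N))
    (hφ : ∀ x : XQ N (aboveSet K N S), φ' (x - av (repQ (K := K) _ (STB_thm K N S)) D x) =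
      φ₀ (x - av (repQ (K := K) _ (STB_thm K N S)) D x))
    (x : XC N (aboveSet K N S)) (hx : ∑ d : D, actC ((d : N ≃ₐ[K] N) : N ≃+* N) x.val = 0) :
    Θ' x = Θ₀ x := by
  have h1 : av (repX K _ (STB_thm K N S)) D x = 0 := by
    rw [av_apply]
    have h2 : ∑ d : D, repX K _ (STB_thm K N S) (d : N ≃ₐ[K] N) x = 0 := by
      apply Subtype.ext
      refine Eq.trans ?_ hx
      exact map_sum (XC.val (L := N) (T := aboveSet K N (S : Set (HeightOneSpectrum (𝓞 K)))))
        (fun d : D => repX K _ (STB_thm K N S) (d : N ≃ₐ[K] N) x) Finset.univ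
    rw [h2, smul_zero]
  have h3 : Θ' ∘ₗ (LinearMap.id - av (repX K _ (STB_thm K N S)) D) =
      Θ₀ ∘ₗ (LinearMap.id - av (repX K _ (STB_thm K N S)) D) := by
    obtain ⟨r, c, c', hcc'⟩ := XRAT_thm N (aboveSet K N (S : Set (HeightOneSpectrum (𝓞 K))))
      (finite_aboveSet S.finite_toSet)
    refine c'.ext fun i => ?_
    have h4 : iN _ (c i) = c' i := by
      apply Subtype.ext
      apply Finsupp.ext
      intro a
      exact (hcc' i a).symm
    have h5 : c' i - av (repX K _ (STB_thm K N S)) D (c' i) =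
        iN _ (c i - av (repQ (K := K) _ (STB_thm K N S)) D (c i)) := by
      rw [map_sub, iN_av, h4]
    show Θ' (c' i - av (repX K _ (STB_thm K N S)) D (c' i)) =
      Θ₀ (c' i - av (repX K _ (STB_thm K N S)) D (c' i))
    rw [h5]
    apply Subtype.ext
    refine (h'.2 _ _ fun a => iN_val _ _ a).trans (Eq.trans ?_ (h₀.2 _ _ fun a =>
      iN_val _ _ a).symm)
    rw [hφ]
  have h6 := LinearMap.congr_fun h3 x
  have h7 : x - av (repX K _ (STB_thm K N S)) D x = x := by rw [h1, sub_zero]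
  have h8 : Θ' (x - av (repX K _ (STB_thm K N S)) D x) =
    Θ₀ (x - av (repX K _ (STB_thm K N S)) D x) := h6
  rwa [h7] at h8

/-- The equivariance of `φ` in terms of representations. -/
theorem equi_iff {φ : XQ N (aboveSet K N S) ≃ₗ[ℚ] QU N (aboveSet K N S)} :
    (∀ (g : N ≃ₐ[K] N) (x y : XQ N (aboveSet K N S)),
      (y : (N → ℝ) →₀ ℚ) = actQ (g : N ≃+* N) x →
      (φ y : ℚ ⊗[ℤ] Additive Nˣ) = actU (g : N ≃+* N) (φ x)) ↔
    ∀ g x, φ (repQ (K := K) _ (STB_thm K N S) g x) =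
      repU (N := N) STB_thm (S : Set (HeightOneSpectrum (𝓞 K))) g (φ x) := by
  constructor
  · intro h g x
    exact Subtype.ext (h g x _ rfl)
  · intro h g x y hxy
    have h1 : y = repQ (K := K) _ (STB_thm K N S) g x := Subtype.ext hxy
    rw [h1, h g x]
    rfl

/-- **Extension.** -/
theorem ext_thm {φ : XQ L (aboveSet K L S) ≃ₗ[ℚ] QU L (aboveSet K L S)}
    {Θ : XC L (aboveSet K L S) →ₗ[ℂ] XC L (aboveSet K L S)}
    (h : IsPhiTheta K (aboveSet K L S) φ Θ)
    {φ₀ : XQ N (aboveSet K N S) ≃ₗ[ℚ] QU N (aboveSet K N S)}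
    {Θ₀ : XC N (aboveSet K N S) →ₗ[ℂ] XC N (aboveSet K N S)}
    (h₀ : IsPhiTheta K (aboveSet K N S) φ₀ Θ₀) :
    ∃ (φ' : XQ N (aboveSet K N S) ≃ₗ[ℚ] QU N (aboveSet K N S))
      (Θ' : XC N (aboveSet K N S) →ₗ[ℂ] XC N (aboveSet K N S)),
      IsPhiTheta K (aboveSet K N S) φ' Θ' ∧ Θ' ∘ₗ iC K L N S = iC K L N S ∘ₗ Θ ∧
      ∀ x : XC N (aboveSet K N S),
        ∑ d : dker K L N, actC ((d : N ≃ₐ[K] N) : N ≃+* N) x.val = 0 → Θ' x = Θ₀ x := by
  obtain ⟨ιA, hιA⟩ := exists_iA K L N S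
  obtain ⟨jB, hjB⟩ := exists_jB K L N S
  have jequi := (UDE_thm K L N (S : Set (HeightOneSpectrum (𝓞 K)))).2.2.1
  have hE : ∀ x, ((ιA.symm.trans φ).trans jB) (ιA x) = jB (φ x) := by
    intro x
    simp only [LinearEquiv.trans_apply, LinearEquiv.symm_apply_apply]
  obtain ⟨e, he1, he2, he3⟩ := ext_lin
    (repQ (K := K) (aboveSet K N (S : Set (HeightOneSpectrum (𝓞 K)))) (STB_thm K N S))
    (repU (N := N) STB_thm (S : Set (HeightOneSpectrum (𝓞 K)))) (dker K L N) _ _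
    (fun x => Iff.rfl) (fun x => Iff.rfl) ((ιA.symm.trans φ).trans jB) (by
      intro g x y hxy
      obtain ⟨x', rfl⟩ := ιA.surjective x
      obtain ⟨y', rfl⟩ := ιA.surjective y
      rw [hE, hE]
      have h1 : (y' : (L → ℝ) →₀ ℚ) =
          actQ (AlgEquiv.restrictNormalHom L g : L ≃+* L) x' := by
        have h2 := iQ_equi K L N S g x' (repQ (K := K) _ (STB_thm K L S)
          (AlgEquiv.restrictNormalHom L g) x') (repQ_val _ _ _ _)
        have h3 : (iQ K L N S y' : (N → ℝ) →₀ ℚ) =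
            actQ (g : N ≃+* N) (iQ K L N S x') := by
          rw [← hιA, ← hιA]
          exact congrArg Subtype.val hxy
        rw [← h2] at h3
        have h4 := iQ_inj K L N S (Subtype.ext h3)
        rw [h4, repQ_val]
      have h5 := h.1 (AlgEquiv.restrictNormalHom L g) x' y' h1
      apply Subtype.ext
      rw [hjB, h5, ← jequi, ← hjB]
      rfl) φ₀ (equi_iff.1 h₀.1)
  obtain ⟨Θ', hΘ'⟩ := THE_thm XRAT_thm UNIT_thm K N
    (aboveSet K N (S : Set (HeightOneSpectrum (𝓞 K)))) e (finite_aboveSet S.finite_toSet)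
    (equi_iff.2 he1)
  refine ⟨e, Θ', hΘ', comm_of h hΘ' fun x => ?_, ker_of h₀ hΘ' (dker K L N) he3⟩
  rw [← hιA, he2, hE, hjB]

/-- **Restriction.** -/
theorem dsc_thm {φN : XQ N (aboveSet K N S) ≃ₗ[ℚ] QU N (aboveSet K N S)}
    {ΘN : XC N (aboveSet K N S) →ₗ[ℂ] XC N (aboveSet K N S)}
    (h : IsPhiTheta K (aboveSet K N S) φN ΘN) :
    ∃ (φ : XQ L (aboveSet K L S) ≃ₗ[ℚ] QU L (aboveSet K L S))
      (Θ : XC L (aboveSet K L S) →ₗ[ℂ] XC L (aboveSet K L S)),
      IsPhiTheta K (aboveSet K L S) φ Θ ∧ ΘN ∘ₗ iC K L N S = iC K L N S ∘ₗ Θ := by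
  obtain ⟨ιA, hιA⟩ := exists_iA K L N S
  obtain ⟨jB, hjB⟩ := exists_jB K L N S
  have jequi := (UDE_thm K L N (S : Set (HeightOneSpectrum (𝓞 K)))).2.2.1
  have hφ := equi_iff.1 h.1
  have hm : ∀ x, x ∈ invs (repQ (K := K) (aboveSet K N (S : Set (HeightOneSpectrum (𝓞 K))))
      (STB_thm K N S)) (dker K L N) ↔ φN x ∈
      invs (repU (N := N) STB_thm (S : Set (HeightOneSpectrum (𝓞 K)))) (dker K L N) := by
    intro x
    rw [mem_invs, mem_invs]
    refine forall₂_congr fun d _ => ?_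
    rw [← hφ d x]
    exact φN.injective.eq_iff.symm
  let r : invs (repQ (K := K) (aboveSet K N (S : Set (HeightOneSpectrum (𝓞 K))))
      (STB_thm K N S)) (dker K L N) ≃ₗ[ℚ]
      invs (repU (N := N) STB_thm (S : Set (HeightOneSpectrum (𝓞 K)))) (dker K L N) :=
    LinearEquiv.ofBijective (φN.toLinearMap.restrict (fun x hx => (hm x).1 hx)) (by
      constructor
      · intro x y hxy
        exact Subtype.ext (φN.injective (congrArg Subtype.val hxy))
      · rintro ⟨y, hy⟩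
        obtain ⟨x, rfl⟩ := φN.surjective y
        exact ⟨⟨x, (hm x).2 hy⟩, rfl⟩)
  have hr : ∀ x, (r x : QU N (aboveSet K N (S : Set (HeightOneSpectrum (𝓞 K))))) = φN x :=
    fun x => rfl
  let φ : XQ L (aboveSet K L S) ≃ₗ[ℚ] QU L (aboveSet K L S) := (ιA.trans r).trans jB.symm
  have hφx : ∀ x, jB (φ x) = r (ιA x) := by
    intro x
    simp only [φ, LinearEquiv.trans_apply, LinearEquiv.apply_symm_apply]
  have hφU : ∀ x, (φN (iQ K L N S x) : ℚ ⊗[ℤ] Additive Nˣ) = jU L N (φ x) := by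
    intro x
    rw [← hjB, hφx, hr, hιA]
  obtain ⟨Θ, hΘ⟩ := THE_thm XRAT_thm UNIT_thm K L
    (aboveSet K L (S : Set (HeightOneSpectrum (𝓞 K)))) φ (finite_aboveSet S.finite_toSet) (by
      intro g x y hxy
      obtain ⟨g', rfl⟩ := AlgEquiv.restrictNormalHom_surjective (F := K) (K₁ := L) N g
      have h1 := iQ_equi K L N S g' x y hxy
      have h2 := h.1 g' _ _ h1
      rw [hφU, hφU, jequi] at h2
      have h3 := StarkB.actU_mem' (K := K) (L := L) (S : Set (HeightOneSpectrum (𝓞 K)))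
        (AlgEquiv.restrictNormalHom L g') (φ x) (φ x).2
      have h5 : (φ y : ℚ ⊗[ℤ] Additive Lˣ) -
          actU (AlgEquiv.restrictNormalHom L g' : L ≃+* L) (φ x : ℚ ⊗[ℤ] Additive Lˣ) ∈
            QU L (aboveSet K L (S : Set (HeightOneSpectrum (𝓞 K)))) :=
        Submodule.sub_mem _ (φ y).2 h3
      have h4 := (UDE_thm K L N (S : Set (HeightOneSpectrum (𝓞 K)))).2.1 _ h5
        (by rw [map_sub, h2, sub_self])
      exact sub_eq_zero.1 h4)
  exact ⟨φ, Θ, hΘ, comm_of hΘ h hφU⟩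

/-! ### `Lift` -/

omit [IsGalois K L] [IsGalois K N] in
theorem lift_iff (y : XC L (aboveSet K L S)) (z : XC N (aboveSet K N S)) :
    StarkP.Lift (algebraMap L N) (aboveSet K L S) (aboveSet K N S) y.val z.val ↔
      z = iC K L N S y := by
  constructor
  · intro h
    apply Subtype.ext
    apply Finsupp.ext
    intro b
    have h0 : (iC K L N S y).val b = IOT.io K L N ℂ S y.val b := by rw [iC_val]
    refine Eq.trans ?_ h0.symm
    rw [IOT.io_apply]
    split_ifs with hb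
    · obtain ⟨-, -, h2⟩ := IOT.blp_spec L (IOT.placeSet_sub N _ hb)
      exact h _ (IOT.blp_mem K L _ hb) b hb _ h2
    · have h1 : z.val ∈ XCsub N (aboveSet K N S) := z.2
      rw [XCsub, Submodule.mem_inf, Finsupp.mem_supported] at h1
      by_contra hc
      exact hb (h1.1 (Finset.mem_coe.2 (Finsupp.mem_support_iff.2 hc)))
  · rintro rfl
    intro a ha b hb n hn
    have ha0 : a 0 = 0 := by
      rcases ha with ⟨w, rfl⟩ | ⟨w, -, rfl⟩
      · show (w (0 : L)) ^ w.mult = 0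
        rw [map_zero, zero_pow (InfinitePlace.mult_ne_zero (w := w))]
      · show HeightOneSpectrum.adicAbv L w 0 = 0
        rw [map_zero]
    have hb0 : b 0 = 0 := by
      rcases hb with ⟨w, rfl⟩ | ⟨w, -, rfl⟩
      · show (w (0 : N)) ^ w.mult = 0
        rw [map_zero, zero_pow (InfinitePlace.mult_ne_zero (w := w))]
      · show HeightOneSpectrum.adicAbv N w 0 = 0
        rw [map_zero]
    have hn0 : 0 < n := by
      rcases Nat.eq_zero_or_pos n with h0 | h0
      · exfalso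
        have h1 := hn 0
        rw [map_zero, hb0, h0, pow_zero] at h1
        exact zero_ne_one h1
      · exact h0
    have h2 := IOT.blp_eq L (IOT.placeSet_sub N _ hb) (IOT.placeSet_sub L _ ha) hn0 hn
    have h3 : (iC K L N S y).val b = IOT.io K L N ℂ S y.val b := by rw [iC_val]
    have h4 : b ∈ placeSet N (aboveSet K N (S : Set (HeightOneSpectrum (𝓞 K)))) := hb
    refine h3.trans ?_
    rw [IOT.io_apply, if_pos h4, h2]

/-- `Extends` in terms of `ι`. -/
theorem extends_of {Θ : XC L (aboveSet K L S) →ₗ[ℂ] XC L (aboveSet K L S)}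
    {Θ' : XC N (aboveSet K N S) →ₗ[ℂ] XC N (aboveSet K N S)}
    (h : Θ' ∘ₗ iC K L N S = iC K L N S ∘ₗ Θ)
    {A : ((L → ℝ) →₀ ℂ) →ₗ[ℂ] ((L → ℝ) →₀ ℂ)} {A' : ((N → ℝ) →₀ ℂ) →ₗ[ℂ] ((N → ℝ) →₀ ℂ)}
    (hA : ∀ x : XC L (aboveSet K L S), A x.val = (Θ x).val)
    (hA' : ∀ x : XC N (aboveSet K N S), A' x.val = (Θ' x).val) :
    StarkP.Extends (algebraMap L N) (aboveSet K L S) (aboveSet K N S) A A' := by
  intro y hy z hz hyz
  let y' : XC L (aboveSet K L S) := ⟨y, hy⟩
  let z' : XC N (aboveSet K N S) := ⟨z, hz⟩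
  have h1 : z' = iC K L N S y' := (lift_iff y' z').1 hyz
  have h2 : Θ' z' = iC K L N S (Θ y') := by
    rw [h1]
    exact LinearMap.congr_fun h y'
  have h3 := (lift_iff (Θ y') (Θ' z')).2 h2
  rw [← hA, ← hA'] at h3
  exact h3

/-- The sum over `Gal(N/L)`. -/
theorem sum_dker (x : (N → ℝ) →₀ ℂ) :
    ∑ d : dker K L N, actC ((d : N ≃ₐ[K] N) : N ≃+* N) x =
      ∑ δ : N ≃ₐ[L] N, StarkP.act (δ : N ≃+* N) x := by
  symm
  refine Fintype.sum_bijective (fun σ : N ≃ₐ[L] N => (⟨σ.restrictScalars K,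
    (mem_dker K L N _).2 (IOT.restrict_one K L N σ)⟩ : dker K L N)) ?_ _ _ fun σ => rfl
  constructor
  · intro σ τ h
    have h1 : σ.restrictScalars K = τ.restrictScalars K := congrArg Subtype.val h
    ext x
    exact DFunLike.congr_fun h1 x
  · rintro ⟨d, hd⟩
    have h1 := (mem_dker K L N d).1 hd
    have h2 : ∀ x : L, d (algebraMap L N x) = algebraMap L N x := by
      intro x
      have h3 := AlgEquiv.restrictNormal_commutes d L x
      have h4 : d.restrictNormal L = (1 : L ≃ₐ[K] L) := h1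
      rw [h4] at h3
      exact h3.symm
    refine ⟨AlgEquiv.ofRingEquiv (f := (d : N ≃+* N)) h2, ?_⟩
    apply Subtype.ext
    ext x
    rfl

/-- **Extension**, ambient form. -/
theorem ext_amb (Θ : ((L → ℝ) →₀ ℂ) →ₗ[ℂ] ((L → ℝ) →₀ ℂ))
    (Θ₀ : ((N → ℝ) →₀ ℂ) →ₗ[ℂ] ((N → ℝ) →₀ ℂ))
    (h : StarkP.IsTheta K (aboveSet K L S) Θ) (h₀ : StarkP.IsTheta K (aboveSet K N S) Θ₀) :
    ∃ Θ' : ((N → ℝ) →₀ ℂ) →ₗ[ℂ] ((N → ℝ) →₀ ℂ), StarkP.IsTheta K (aboveSet K N S) Θ' ∧
      StarkP.Extends (algebraMap L N) (aboveSet K L S) (aboveSet K N S) Θ Θ' ∧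
      ∀ x ∈ StarkP.XC N (aboveSet K N S),
        (∑ δ : N ≃ₐ[L] N, StarkP.act (δ : N ≃+* N) x) = 0 → Θ' x = Θ₀ x := by
  obtain ⟨φ, A, hφ, hA⟩ := StarkB.exists_phiTheta (STB_thm K L S)
    (finite_aboveSet S.finite_toSet)
    (StarkB.actU_mem' (S : Set (HeightOneSpectrum (𝓞 K)))) Θ h
  obtain ⟨φ₀, A₀, hφ₀, hA₀⟩ := StarkB.exists_phiTheta (STB_thm K N S)
    (finite_aboveSet S.finite_toSet)
    (StarkB.actU_mem' (S : Set (HeightOneSpectrum (𝓞 K)))) Θ₀ h₀
  obtain ⟨φ', A', hφ', hcomm, hker⟩ := ext_thm hφ hφ₀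
  obtain ⟨Θ', hΘ'⟩ := LinearMap.exists_extend (p := XCsub N (aboveSet K N S))
    (XC.val ∘ₗ A' : XCsub N (aboveSet K N S) →ₗ[ℂ] ((N → ℝ) →₀ ℂ))
  have h1 : ∀ x : XC N (aboveSet K N S), Θ' x.val = (A' x).val :=
    fun x => LinearMap.congr_fun hΘ' x
  refine ⟨Θ', StarkB.isTheta_of (STB_thm K N S) (finite_aboveSet S.finite_toSet) φ' A' hφ' Θ' h1,
    extends_of hcomm hA h1, fun x hx hs => ?_⟩
  let z : XC N (aboveSet K N S) := ⟨x, hx⟩
  have h2 : A' z = A₀ z := hker z (by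
    rw [sum_dker]
    exact hs)
  have h3 : Θ' z.val = Θ₀ z.val := by
    rw [h1, hA₀, h2]
  exact h3

/-- **Restriction**, ambient form. -/
theorem dsc_amb (Θ' : ((N → ℝ) →₀ ℂ) →ₗ[ℂ] ((N → ℝ) →₀ ℂ))
    (h' : StarkP.IsTheta K (aboveSet K N S) Θ') :
    ∃ Θ : ((L → ℝ) →₀ ℂ) →ₗ[ℂ] ((L → ℝ) →₀ ℂ), StarkP.IsTheta K (aboveSet K L S) Θ ∧
      StarkP.Extends (algebraMap L N) (aboveSet K L S) (aboveSet K N S) Θ Θ' := by
  obtain ⟨φ', A', hφ', hA'⟩ := StarkB.exists_phiTheta (STB_thm K N S)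
    (finite_aboveSet S.finite_toSet)
    (StarkB.actU_mem' (S : Set (HeightOneSpectrum (𝓞 K)))) Θ' h'
  obtain ⟨φ, A, hφ, hcomm⟩ := dsc_thm (L := L) hφ'
  obtain ⟨Θ, hΘ⟩ := LinearMap.exists_extend (p := XCsub L (aboveSet K L S))
    (XC.val ∘ₗ A : XCsub L (aboveSet K L S) →ₗ[ℂ] ((L → ℝ) →₀ ℂ))
  have h1 : ∀ x : XC L (aboveSet K L S), Θ x.val = (A x).val :=
    fun x => LinearMap.congr_fun hΘ x
  exact ⟨Θ, StarkB.isTheta_of (STB_thm K L S) (finite_aboveSet S.finite_toSet) φ A hφ Θ h1,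
    extends_of hcomm h1 hA'⟩

end arith

end WEXx

end StarkC.ABS
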