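import Pool.Agent.ABS.StTower
import Pool.Agent.ABS.WEXA

/-!
# Project ABS, version 3: extension of `Θ`
-/

set_option autoImplicit false

namespace StarkC.ABS

theorem WEX_thm : Stmt_WEX := by
  intro K L N _ _ _ _ _ _ _ _ _ _ _ _ S Θ Θ₀ h h₀
  exact WEXx.ext_amb Θ Θ₀ h h₀

end StarkC.ABS
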