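import Pool.Agent.ABS.StTower
import Pool.Agent.Stark.IOT
import Pool.Agent.Stark.UDE
import Pool.Agent.Stark.PBridge

/-!
# Project ABS, module WIO (helper7): the map `ι` from places of `L` to places of `N`, explicitly
-/

set_option autoImplicit false

open NumberField IsDedekindDomain
open scoped TensorProduct Classical

namespace StarkC.ABS

namespace WIOx

open StarkC.IOT

theorem place_zero {L : Type} [Field L] [NumberField L] {a : L → ℝ}
    (ha : a ∈ StarkC.placeSet L Set.univ) : a 0 = 0 := by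
  rcases ha with ⟨w, rfl⟩ | ⟨w, hw, rfl⟩
  · have h : w.mult ≠ 0 := w.mult_ne_zero
    simp [StarkC.infAbs, h]
  · simp [StarkC.finAbs]

theorem supp {L : Type} [Field L] [NumberField L] {T : Set (HeightOneSpectrum (𝓞 L))}
    (x : StarkC.XC L T) (a : L → ℝ) (ha : a ∉ StarkC.placeSet L T) : x.val a = 0 := by
  by_contra h
  exact ha ((mem_Xg.1 (show x.val ∈ Xg ℂ (StarkC.placeSet L T) from x.2)).1 a h)

end WIOx

open StarkC.IOT WIOx

theorem WIO_thm : Stmt_WIO := by
  intro K L N _ _ _ _ _ _ _ _ _ _ _ _ S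
  let ιC : XC L (aboveSet K L S) →ₗ[ℂ] XC N (aboveSet K N S) :=
    (io K L N ℂ S).restrict (p := XCsub L (aboveSet K L S)) (q := XCsub N (aboveSet K N S))
      (fun x hx => io_mem K L N S ℂ hx)
  have hC : ∀ x : XC L (aboveSet K L S), (ιC x).val = io K L N ℂ S x.val := fun x => rfl
  have hinj : Function.Injective ιC := by
    rw [injective_iff_map_eq_zero]
    intro x hx
    apply Subtype.ext
    refine io_inj K L N S ℂ x.2 ?_
    have h := hC x
    rw [hx] at h
    exact h.symm
  have hequi : ∀ (g : N ≃ₐ[K] N) (x y : XC L (aboveSet K L S)),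
      y.val = actC (AlgEquiv.restrictNormalHom L g : L ≃+* L) x.val →
      (ιC y).val = actC (g : N ≃+* N) (ιC x).val := by
    intro g x y hxy
    rw [hC, hC, hxy]
    exact io_equiv K L N S ℂ g x.val
  have hrange : ∀ x : XC N (aboveSet K N S),
      (∀ δ : N ≃ₐ[K] N, AlgEquiv.restrictNormalHom L δ = (1 : L ≃ₐ[K] L) →
        actC (δ : N ≃+* N) x.val = x.val) → ∃ y, ιC y = x := by
    intro x hx
    obtain ⟨y, hy, hyx⟩ := io_range K L N S ℂ (x := x.val) x.2 hx
    exact ⟨⟨y, hy⟩, Subtype.ext hyx⟩
  obtain ⟨u1, -, -, u4⟩ := UDE_thm K L N (S : Set (HeightOneSpectrum (𝓞 K)))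
  have finL : (aboveSet K L (S : Set (HeightOneSpectrum (𝓞 K)))).Finite := finite_above K L S
  have finN : (aboveSet K N (S : Set (HeightOneSpectrum (𝓞 K)))).Finite := finite_above K N S
  refine ⟨ιC, hinj, hequi, hrange, ?_, ?_, ?_, ?_⟩
  · intro x hx hxQ
    obtain ⟨y, hy⟩ := hrange x hx
    refine ⟨y, hy, y.2, ?_⟩
    intro a
    by_cases ha : a ∈ placeSet L (aboveSet K L (S : Set (HeightOneSpectrum (𝓞 K))))
    · obtain ⟨b, hb, hba⟩ := (dat K L N S).surj ha
      have hpos := (dat K L N S).pos b hb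
      rw [Set.Finite.mem_toFinset] at hb
      obtain ⟨q, hq⟩ := hxQ.2 b
      rw [← hy, hC, io_apply, if_pos hb, hba] at hq
      refine ⟨q / ((blp L b).2 : ℚ), ?_⟩
      have h1 : ((blp L b).2 : ℂ) ≠ 0 := Nat.cast_ne_zero.2 (Nat.pos_iff_ne_zero.1 hpos)
      push_cast
      rw [← hq, mul_div_cancel_left₀ _ h1]
    · exact ⟨0, by rw [supp y a ha]; simp⟩
  · intro y hy
    refine ⟨(ιC y).2, ?_⟩
    intro b
    rw [hC, io_apply]
    split_ifs with hb
    · obtain ⟨q, hq⟩ := hy.2 (blp L b).1
      exact ⟨((blp L b).2 : ℚ) * q, by rw [hq]; push_cast; rfl⟩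
    · exact ⟨0, by simp⟩
  · intro y
    constructor
    · intro hy
      obtain ⟨w, hw, hwy⟩ := StarkB.of_lamU hy
      rw [hC, ← hwy, io_lam]
      exact StarkB.lamU_of (u1 w hw)
    · intro hy
      obtain ⟨w, hw, hwy⟩ := StarkB.of_lamU hy
      have hfix : ∀ δ : N ≃ₐ[K] N, AlgEquiv.restrictNormalHom L δ = (1 : L ≃ₐ[K] L) →
          actU (δ : N ≃+* N) w = w := by
        intro δ hδ
        have h1 : (ιC y).val = actC (δ : N ≃+* N) (ιC y).val := by
          apply hequi δ y y
          rw [hδ]
          show y.val = Finsupp.mapDomain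
            (fun a : L → ℝ => a ∘ ((1 : L ≃ₐ[K] L) : L ≃+* L).symm) y.val
          have : (fun a : L → ℝ => a ∘ ((1 : L ≃ₐ[K] L) : L ≃+* L).symm) = id := by
            funext a y
            rfl
          rw [this, Finsupp.mapDomain_id]
        have h2 : actU (δ : N ≃+* N) w ∈ QU N (aboveSet K N (S : Set (HeightOneSpectrum (𝓞 K)))) :=
          StarkB.actU_mem' (S : Set (HeightOneSpectrum (𝓞 K))) δ w hw
        have h3 : lam N (aboveSet K N (S : Set (HeightOneSpectrum (𝓞 K)))) (actU (δ : N ≃+* N) w) =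
            lam N (aboveSet K N (S : Set (HeightOneSpectrum (𝓞 K)))) w := by
          have h4 := StarkC.INFL.lam_act
            (StarkC.STB_thm K N (S : Set (HeightOneSpectrum (𝓞 K)))) δ w
          rw [h4, hwy]
          exact h1.symm
        exact StarkB.lam_inj' finN h2 hw h3
      obtain ⟨u, hu, huw⟩ := u4 w hw hfix
      have h2 : lam L (aboveSet K L S) u ∈ XCsub L (aboveSet K L S) := StarkB.lam_mem finL hu
      have h3 : ιC ⟨lam L (aboveSet K L S) u, h2⟩ = ιC y := by
        apply Subtype.ext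
        show io K L N ℂ S (lam L (aboveSet K L S) u) = (ιC y).val
        rw [io_lam, huw]
        exact hwy
      have h4 := hinj h3
      rw [← h4]
      exact StarkB.lamU_of hu
  · intro y z
    constructor
    · intro h
      apply Subtype.ext
      show z.val = (ιC y).val
      ext b
      rw [hC, io_apply]
      split_ifs with hb
      · have hb' := placeSet_sub N _ hb
        exact h (blp L b).1 (blp_mem K L _ hb) b hb (blp L b).2 (blp_spec L hb').2.2
      · exact supp z b hb
    · rintro rfl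
      intro a ha b hb n hn
      have hbc : b ∈ placeSet N (aboveSet K N (S : Set (HeightOneSpectrum (𝓞 K)))) := hb
      have ha' : a ∈ placeSet L Set.univ := placeSet_sub L _ ha
      have hb' : b ∈ placeSet N Set.univ := placeSet_sub N _ hb
      have hn0 : 0 < n := by
        rcases Nat.eq_zero_or_pos n with h0 | h0
        · exfalso
          have h1 := hn 0
          rw [h0, pow_zero, map_zero, place_zero hb'] at h1
          exact zero_ne_one h1
        · exact h0
      have h2 := blp_eq L hb' ha' hn0 hn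
      rw [hC, io_apply, if_pos hbc, h2]

end StarkC.ABS
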