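import Pool.Agent.ABS.StTower

/-!
# Project ABS, part W, module WLM: a compatible system over a directed set with a cofinal sequence
(helper6)
-/

set_option autoImplicit false

open scoped Classical

namespace StarkC.ABS

theorem WLM_thm : Stmt_WLM := by
  intro I _ D P C c hc hcof htr hca hex hup hdn
  -- the sequence
  have hstep : ∀ n (x : D (c n)), P _ x → ∃ y : D (c (n + 1)), P _ y ∧ C _ _ x y :=
    fun n x hx => hup _ _ x (hc (Nat.le_succ n)) hx
  have hne : ∀ n, Nonempty (D (c (n + 1))) := fun n => (hex _).nonempty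
  choose! f hf1 hf2 using hstep
  obtain ⟨x0, hx0⟩ := hex (c 0)
  let x : ∀ n, D (c n) := fun n => Nat.rec (motive := fun n => D (c n)) x0 (fun n y => f n y) n
  have hx : ∀ n, P _ (x n) := by
    intro n
    induction n with
    | zero => exact hx0
    | succ n ih => exact hf1 n (x n) ih
  have hxs : ∀ n, C _ _ (x n) (x (n + 1)) := fun n => hf2 n (x n) (hx n)
  have hxr : ∀ n, C _ _ (x n) (x n) := fun n =>
    hca _ _ _ _ _ _ le_rfl (hc (Nat.le_succ n)) (hxs n) (hxs n)
  have hxx : ∀ n m, n ≤ m → C _ _ (x n) (x m) := by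
    intro n m h
    induction m, h using Nat.le_induction with
    | base => exact hxr n
    | succ m h ih => exact htr _ _ _ _ _ _ (hc h) (hc (Nat.le_succ m)) ih (hxs m)
  choose n hn using hcof
  choose d hd1 hd2 using fun i => hdn i (c (n i)) (x (n i)) (hn i) (hx _)
  refine ⟨d, hd1, fun i j hij => ?_⟩
  have key : ∀ i m, n i ≤ m → C _ _ (d i) (x m) := fun i m h =>
    htr _ _ _ _ _ _ (hn i) (hc h) (hd2 i) (hxx _ _ h)
  exact hca i j (c (max (n i) (n j))) _ _ _ hij ((hn j).trans (hc (le_max_right _ _)))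
    (key i _ (le_max_left _ _)) (key j _ (le_max_right _ _))

end StarkC.ABS
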