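import Pool.Agent.ABS.StTower
import Pool.Agent.Stark.INFL
import Pool.Agent.Stark.STB

/-!
# Project ABS, part W: `OccursIn` and inflation
-/

set_option autoImplicit false

open NumberField IsDedekindDomain
open scoped Classical

namespace StarkC.ABS

open StarkP (OccursIn)

namespace WOCx

theorem occ_iff {K L : Type} [Field K] [Field L] [NumberField L] [Algebra K L]
    {V : Type} [AddCommGroup V] [Module ℂ V]
    (T : Set (HeightOneSpectrum (𝓞 L))) (ρ : Representation ℂ (L ≃ₐ[K] L) V) :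
    OccursIn T ρ ↔ ∃ f ∈ StarkC.homG T ρ, f ≠ 0 := by
  constructor
  · rintro ⟨f, hf, hm, he⟩
    refine ⟨f.codRestrict (StarkC.XCsub L T) hm, fun g α => he g α, ?_⟩
    intro h0
    apply hf
    ext1 α
    exact congrArg (fun F : Module.Dual ℂ V →ₗ[ℂ] StarkC.XC L T => (F α).val) h0
  · rintro ⟨f, hf, h0⟩
    refine ⟨(StarkC.XC.val : StarkC.XC L T →ₗ[ℂ] _) ∘ₗ f, ?_, fun α => (f α).2, fun g α => hf g α⟩
    intro h
    apply h0
    ext1 α
    apply Subtype.ext
    exact LinearMap.congr_fun h α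

end WOCx


theorem WOC_thm (hI : Stmt_WIO) : Stmt_WOC := by
  intro K L N _ _ _ _ _ _ _ _ _ _ _ _ S V _ _ _ ρ
  obtain ⟨ιC, hinj, hequi, hsurj, -⟩ := hI K L N S
  have hTL : StarkC.StableT K (aboveSet K L (S : Set (HeightOneSpectrum (𝓞 K)))) := StarkC.STB_thm K L _
  have key := StarkC.INFL.mem_homG_iff hTL ιC hinj hequi ρ
  rw [WOCx.occ_iff, WOCx.occ_iff]
  constructor
  · rintro ⟨f', hf', h0⟩
    have h1 : ∀ α, f' α ∈ LinearMap.range ιC := by
      intro α
      apply hsurj
      intro δ hδ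
      have h2 := hf' δ α
      rw [StarkC.INFL.dual_res, hδ, map_one] at h2
      exact h2.symm
    have h5 : ιC ∘ₗ ((LinearEquiv.ofInjective ιC hinj).symm.toLinearMap ∘ₗ
        f'.codRestrict _ h1) = f' := by
      ext1 α
      simp only [LinearMap.comp_apply, LinearEquiv.coe_coe]
      have h3 := LinearEquiv.apply_symm_apply (LinearEquiv.ofInjective ιC hinj)
        (f'.codRestrict _ h1 α)
      exact congrArg Subtype.val h3
    refine ⟨(LinearEquiv.ofInjective ιC hinj).symm.toLinearMap ∘ₗ f'.codRestrict _ h1,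
      (key _).1 (by rw [h5]; exact hf'), ?_⟩
    intro h
    apply h0
    rw [← h5, h, LinearMap.comp_zero]
  · rintro ⟨f, hf, h0⟩
    refine ⟨ιC ∘ₗ f, (key f).2 hf, ?_⟩
    intro h
    apply h0
    ext1 α
    apply hinj
    rw [LinearMap.zero_apply, map_zero]
    exact LinearMap.congr_fun h α

end StarkC.ABS
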