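import Pool.Agent.ABS.StTower

/-!
# ABS, part W, module WRA

The regulator of a representation without `Gal(N/L)`-invariants depends only on the values of `Θ`
on the elements with trace zero.
-/

set_option autoImplicit false
set_option linter.unusedSectionVars false

open NumberField IsDedekindDomain
open scoped Classical

namespace StarkC.ABS

namespace WRAx

theorem detOn_congr {M : Type} [AddCommGroup M] [Module ℂ M] (A B : M →ₗ[ℂ] M)
    (W : Submodule ℂ M) (h : ∀ x ∈ W, A x = B x) : StarkP.detOn A W = StarkP.detOn B W := by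
  unfold StarkP.detOn
  by_cases hA : ∀ x ∈ W, A x ∈ W
  · have hB : ∀ x ∈ W, B x ∈ W := fun x hx => by rw [← h x hx]; exact hA x hx
    rw [dif_pos hA, dif_pos hB]
    congr 1
    ext x
    exact h x.1 x.2
  · have hB : ¬ ∀ x ∈ W, B x ∈ W := fun hB => hA fun x hx => by rw [h x hx]; exact hB x hx
    rw [dif_neg hA, dif_neg hB]

variable {K L N : Type} [Field K] [NumberField K] [Field L] [NumberField L] [Field N]
  [NumberField N] [Algebra K L] [Algebra K N] [Algebra L N] [IsScalarTower K L N] [IsGalois K L]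
  [IsGalois K N]

/-- the `L`-automorphism with the same values -/
noncomputable def up (e : N ≃ₐ[K] N) (he : AlgEquiv.restrictNormalHom L e = (1 : L ≃ₐ[K] L)) :
    N ≃ₐ[L] N :=
  AlgEquiv.ofRingEquiv (f := (e : N ≃+* N)) (by
    intro x
    have h := AlgEquiv.restrictNormal_commutes e L x
    have h2 : e.restrictNormal L = 1 := he
    rw [h2] at h
    exact h.symm)

theorem up_rs (e : N ≃ₐ[K] N) (he : AlgEquiv.restrictNormalHom L e = (1 : L ≃ₐ[K] L)) :
    (up e he).restrictScalars K = e := by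
  ext x
  rfl

theorem rs_mul (a b : N ≃ₐ[L] N) :
    (a * b).restrictScalars K = a.restrictScalars K * b.restrictScalars K := by
  ext x
  rfl

theorem rs_inv (a : N ≃ₐ[L] N) : (a⁻¹).restrictScalars K = (a.restrictScalars K)⁻¹ := by
  ext x
  rfl

variable {V : Type} [AddCommGroup V] [Module ℂ V]

theorem sum_zero (ρ : Representation ℂ (N ≃ₐ[K] N) V)
    (hρ : ∀ v : V, (∀ δ : N ≃ₐ[K] N, AlgEquiv.restrictNormalHom L δ = (1 : L ≃ₐ[K] L) →
      ρ δ v = v) → v = 0) (α : Module.Dual ℂ V) :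
    ∑ δ : N ≃ₐ[L] N, ρ.dual (δ.restrictScalars K) α = 0 := by
  ext v
  have hw : ∑ δ : N ≃ₐ[L] N, ρ ((δ.restrictScalars K)⁻¹) v = 0 := by
    apply hρ
    intro e he
    rw [map_sum]
    have h1 : ∀ δ : N ≃ₐ[L] N, ρ e (ρ ((δ.restrictScalars K)⁻¹) v) =
        ρ (((δ * (up e he)⁻¹).restrictScalars K)⁻¹) v := by
      intro δ
      rw [rs_mul, rs_inv, up_rs, mul_inv_rev, inv_inv, map_mul]
      rfl
    rw [Finset.sum_congr rfl fun δ _ => h1 δ]
    exact Fintype.sum_equiv (Equiv.mulRight (up e he)⁻¹) _ _ fun δ => rfl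
  rw [LinearMap.sum_apply]
  have h2 : ∀ δ : N ≃ₐ[L] N, (ρ.dual (δ.restrictScalars K) α) v =
      α (ρ ((δ.restrictScalars K)⁻¹) v) := fun δ => rfl
  rw [Finset.sum_congr rfl fun δ _ => h2 δ, ← map_sum, hw, map_zero]
  rfl

theorem main (T : Set (HeightOneSpectrum (𝓞 N))) (Θ' Θ₀ : ((N → ℝ) →₀ ℂ) →ₗ[ℂ] ((N → ℝ) →₀ ℂ))
    (hΘ : ∀ x ∈ StarkP.XC N T,
      (∑ δ : N ≃ₐ[L] N, StarkP.act (δ : N ≃+* N) x) = 0 → Θ' x = Θ₀ x)
    (ρ : Representation ℂ (N ≃ₐ[K] N) V)
    (hρ : ∀ v : V, (∀ δ : N ≃ₐ[K] N, AlgEquiv.restrictNormalHom L δ = (1 : L ≃ₐ[K] L) →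
      ρ δ v = v) → v = 0) :
    StarkP.Reg T ρ Θ' = StarkP.Reg T ρ Θ₀ := by
  unfold StarkP.Reg
  refine detOn_congr _ _ _ fun f hf => ?_
  unfold StarkP.homG at hf
  induction hf using Submodule.span_induction with
  | mem f hf =>
    obtain ⟨h1, h2⟩ := hf
    ext α : 1
    refine hΘ (f α) (h1 α) ?_
    have h3 : ∀ δ : N ≃ₐ[L] N, StarkP.act (δ : N ≃+* N) (f α) =
        f (ρ.dual (δ.restrictScalars K) α) := fun δ => (h2 (δ.restrictScalars K) α).symm
    rw [Finset.sum_congr rfl fun δ _ => h3 δ, ← map_sum, sum_zero ρ hρ α, map_zero]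
  | zero => rw [map_zero, map_zero]
  | add x y _ _ hx hy => rw [map_add, map_add, hx, hy]
  | smul a x _ hx => rw [map_smul, map_smul, hx]

end WRAx

theorem WRA_thm : Stmt_WRA := by
  intro K L N _ _ _ _ _ _ _ _ _ _ _ _ S Θ' Θ₀ hΘ V _ _ _ ρ hρ
  exact WRAx.main _ Θ' Θ₀ hΘ ρ hρ

end StarkC.ABS
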