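import Pool.Agent.ABS.StTower
import Pool.Agent.Stark.PBridge

/-!
# Project ABS, part W: the regulator and inflation (helper65)
-/

set_option autoImplicit false

open NumberField IsDedekindDomain
open scoped Classical

namespace StarkC.ABS

open StarkP (Lift Extends IsTheta)

namespace WRIx

theorem core {K L N : Type} [Field K] [NumberField K] [Field L] [NumberField L] [Field N]
    [NumberField N] [Algebra K L] [Algebra K N] [Algebra L N] [IsScalarTower K L N] [IsGalois K L]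
    [IsGalois K N] {TL : Set (HeightOneSpectrum (𝓞 L))} {TN : Set (HeightOneSpectrum (𝓞 N))}
    (hTL : StableT K TL) (ιC : XC L TL →ₗ[ℂ] XC N TN) (hinj : Function.Injective ιC)
    (hequi : ∀ (g : N ≃ₐ[K] N) (x y : XC L TL),
        y.val = actC (AlgEquiv.restrictNormalHom L g : L ≃+* L) x.val →
        (ιC y).val = actC (g : N ≃+* N) (ιC x).val)
    (hsurj : ∀ x : XC N TN,
        (∀ δ : N ≃ₐ[K] N, AlgEquiv.restrictNormalHom L δ = (1 : L ≃ₐ[K] L) →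
          actC (δ : N ≃+* N) x.val = x.val) → ∃ y, ιC y = x)
    (hlift : ∀ (y : XC L TL) (z : XC N TN),
        Lift (algebraMap L N) TL TN y.val z.val ↔ z = ιC y)
    (Θ : ((L → ℝ) →₀ ℂ) →ₗ[ℂ] ((L → ℝ) →₀ ℂ)) (Θ' : ((N → ℝ) →₀ ℂ) →ₗ[ℂ] ((N → ℝ) →₀ ℂ))
    (Θ0 : XC L TL →ₗ[ℂ] XC L TL) (Θ1 : XC N TN →ₗ[ℂ] XC N TN)
    (h0 : ∀ x : XC L TL, Θ x.val = (Θ0 x).val) (h1 : ∀ x : XC N TN, Θ' x.val = (Θ1 x).val)
    (hE : Extends (algebraMap L N) TL TN Θ Θ')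
    {V : Type} [AddCommGroup V] [Module ℂ V] (ρ : Representation ℂ (L ≃ₐ[K] L) V) :
    StarkP.Reg TN (ρ.comp (AlgEquiv.restrictNormalHom L)) Θ' = StarkP.Reg TL ρ Θ := by
  have hcomm : Θ1 ∘ₗ ιC = ιC ∘ₗ Θ0 := by
    refine LinearMap.ext fun y => ?_
    rw [LinearMap.comp_apply, LinearMap.comp_apply]
    have e1 := (hlift y (ιC y)).2 rfl
    have e2 := hE y.val y.2 (ιC y).val (ιC y).2 e1
    rw [h0, h1] at e2
    exact (hlift (Θ0 y) (Θ1 (ιC y))).1 e2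
  rw [StarkB.Reg_eq (ρ.comp (AlgEquiv.restrictNormalHom L)) Θ1 Θ' h1, StarkB.Reg_eq ρ Θ0 Θ h0]
  exact StarkC.INFL.reg_eq hTL ιC hinj hequi hsurj Θ0 Θ1 hcomm ρ

theorem ex0 (K L : Type) [Field K] [NumberField K] [Field L] [NumberField L]
    [Algebra K L] (S : Finset (HeightOneSpectrum (𝓞 K)))
    (Θ : ((L → ℝ) →₀ ℂ) →ₗ[ℂ] ((L → ℝ) →₀ ℂ))
    (hΘ : IsTheta K (aboveSet K L (S : Set (HeightOneSpectrum (𝓞 K)))) Θ) :
    ∃ Θ0 : XC L (aboveSet K L (S : Set (HeightOneSpectrum (𝓞 K)))) →ₗ[ℂ]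
        XC L (aboveSet K L (S : Set (HeightOneSpectrum (𝓞 K)))),
      ∀ x : XC L (aboveSet K L (S : Set (HeightOneSpectrum (𝓞 K)))), Θ x.val = (Θ0 x).val := by
  have hS : (S : Set (HeightOneSpectrum (𝓞 K))).Finite := S.finite_toSet
  obtain ⟨φ0, Θ0, hφ0, h0⟩ := StarkB.exists_phiTheta (STB_thm K L S)
    (IND.aboveSet_finite (S : Set (HeightOneSpectrum (𝓞 K))) hS)
    (StarkB.actU_mem' (S : Set (HeightOneSpectrum (𝓞 K)))) Θ hΘ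
  exact ⟨Θ0, h0⟩

end WRIx

theorem WRI_thm (hI : Stmt_WIO) : Stmt_WRI := by
  intro K L N _ _ _ _ _ _ _ _ _ _ _ _ S Θ Θ' hΘ hΘ' hE V _ _ _ ρ
  obtain ⟨Θ0, h0⟩ := WRIx.ex0 K L S Θ hΘ
  obtain ⟨Θ1, h1⟩ := WRIx.ex0 K N S Θ' hΘ'
  obtain ⟨ιC, hinj, hequi, hsurj, -, -, -, hlift⟩ := hI K L N S
  exact WRIx.core (STB_thm K L S) ιC hinj hequi hsurj hlift Θ Θ' Θ0 Θ1 h0 h1 hE ρ

end StarkC.ABS
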