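import Pool.Agent.ABS.StTower

/-!
# Project ABS, module WRS: sums and inflations
-/

set_option autoImplicit false

open NumberField IsDedekindDomain
open scoped TensorProduct Classical

namespace StarkC.ABS

namespace WRSx

section

variable {K L : Type} [Field K] [NumberField K] [Field L] [NumberField L] [Algebra K L]
  [IsGalois K L]

omit [IsGalois K L] in
/-- The regulator of a sum, `StarkC` version. -/
theorem reg_core {T : Set (HeightOneSpectrum (𝓞 L))} (hTf : T.Finite) (hT : StableT K T)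
    (Θ : XC L T →ₗ[ℂ] XC L T) (hb : Function.Bijective Θ)
    (hc : ∀ g : L ≃ₐ[K] L, Θ ∘ₗ repX K T hT g = repX K T hT g ∘ₗ Θ)
    (V V₀ V₁ : Type) [AddCommGroup V] [Module ℂ V] [Module.Finite ℂ V] [AddCommGroup V₀]
    [Module ℂ V₀] [Module.Finite ℂ V₀] [AddCommGroup V₁] [Module ℂ V₁] [Module.Finite ℂ V₁]
    (ρ : Representation ℂ (L ≃ₐ[K] L) V) (ρ₀ : Representation ℂ (L ≃ₐ[K] L) V₀)
    (ρ₁ : Representation ℂ (L ≃ₐ[K] L) V₁)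
    (h : ∀ g, ρ.character g = ρ₀.character g + ρ₁.character g) :
    Reg T ρ Θ = Reg T ρ₀ Θ * Reg T ρ₁ Θ := by
  obtain ⟨W, _, _, _, B, hdet, -, htr⟩ := ALLT.rgt K L T hT Θ V ρ hTf hc hb
  have hfam : ∀ i : Fin 2, ∃ (W : Type) (_ : AddCommGroup W) (_ : Module ℂ W)
      (_ : Module.Finite ℂ W) (B : W →ₗ[ℂ] W),
      LinearMap.det B = (![Reg T ρ₀ Θ, Reg T ρ₁ Θ] : Fin 2 → ℂ) i ∧ LinearMap.det B ≠ 0 ∧
      ∀ k : ℕ, LinearMap.trace ℂ W (B ^ k) =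
        (∑ g : L ≃ₐ[K] L, (![ρ₀.character, ρ₁.character] : Fin 2 → (L ≃ₐ[K] L) → ℂ) i g *
          LinearMap.trace ℂ (XC L T) (repX K T hT g ∘ₗ (Θ ^ k))) /
          (Nat.card (L ≃ₐ[K] L) : ℂ) := by
    intro i
    match i with
    | 0 => exact ALLT.rgt K L T hT Θ V₀ ρ₀ hTf hc hb
    | 1 => exact ALLT.rgt K L T hT Θ V₁ ρ₁ hTf hc hb
  choose W' hW1 hW2 hW3 B' hdet' hne' htr' using hfam
  have key := @TRD_thm 2 W _ _ _ B W' hW1 hW2 hW3 B' (fun _ => 1) hne' ?_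
  · rw [hdet, Fin.prod_univ_two, hdet' 0, hdet' 1, zpow_one, zpow_one] at key
    exact key
  · intro k
    rw [htr k, Fin.sum_univ_two, htr' 0 k, htr' 1 k, Int.cast_one, one_mul, one_mul, ← add_div,
      ← Finset.sum_add_distrib]
    congr 1
    refine Finset.sum_congr rfl fun g _ => ?_
    rw [h g, add_mul]
    rfl

omit [IsGalois K L] in
/-- The regulator of a sum. -/
theorem reg_add (S : Finset (HeightOneSpectrum (𝓞 K))) (Θ : ((L → ℝ) →₀ ℂ) →ₗ[ℂ] ((L → ℝ) →₀ ℂ))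
    (hΘ : StarkP.IsTheta K (aboveSet K L S) Θ)
    (V V₀ V₁ : Type) [AddCommGroup V] [Module ℂ V] [Module.Finite ℂ V] [AddCommGroup V₀]
    [Module ℂ V₀] [Module.Finite ℂ V₀] [AddCommGroup V₁] [Module ℂ V₁] [Module.Finite ℂ V₁]
    (ρ : Representation ℂ (L ≃ₐ[K] L) V) (ρ₀ : Representation ℂ (L ≃ₐ[K] L) V₀)
    (ρ₁ : Representation ℂ (L ≃ₐ[K] L) V₁)
    (h : ∀ g, ρ.character g = ρ₀.character g + ρ₁.character g) :
    StarkP.Reg (aboveSet K L S) ρ Θ =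
      StarkP.Reg (aboveSet K L S) ρ₀ Θ * StarkP.Reg (aboveSet K L S) ρ₁ Θ := by
  obtain ⟨φ, Θ₀, hφ, hreg⟩ := StarkB.exists_isPhiTheta (K := K) (L := L)
    (S : Set (HeightOneSpectrum (𝓞 K))) S.finite_toSet Θ hΘ
  have hTf : (aboveSet K L (S : Set (HeightOneSpectrum (𝓞 K)))).Finite :=
    IND.aboveSet_finite _ S.finite_toSet
  have hT := STB_thm K L (S : Set (HeightOneSpectrum (𝓞 K)))
  have hc := ALLT.thc K L _ hT φ Θ₀ hTf hφ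
  have hb := ALLT.thb K L _ φ Θ₀ hTf hφ
  rw [hreg V ρ, hreg V₀ ρ₀, hreg V₁ ρ₁]
  exact reg_core hTf hT Θ₀ hb hc V V₀ V₁ ρ ρ₀ ρ₁ h

/-- `log L` of a sum. -/
theorem logL_add (χ χ₀ χ₁ : (L ≃ₐ[K] L) → ℂ) (h : ∀ g, χ g = χ₀ g + χ₁ g)
    (S : Set (HeightOneSpectrum (𝓞 K))) (s : ℂ) (hs : 1 < s.re) :
    StarkP.logL χ S s = StarkP.logL χ₀ S s + StarkP.logL χ₁ S s := by
  have h2 : χ = fun x => ∑ i : Fin 2, (![(1 : ℂ), 1] : Fin 2 → ℂ) i *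
      (![χ₀, χ₁] : Fin 2 → (L ≃ₐ[K] L) → ℂ) i x := by
    funext x
    rw [h x, Fin.sum_univ_two]
    simp
  have h3 := IND.logL_sum (K := K) (N := L) LA_thm ALLT.lb S s hs 2 ![(1 : ℂ), 1] ![χ₀, χ₁]
  rw [← h2, Fin.sum_univ_two] at h3
  simp only [Matrix.cons_val_zero, Matrix.cons_val_one, one_mul] at h3
  exact h3

/-- The product of the continuations. -/
theorem artin_mul (χ χ₀ χ₁ : (L ≃ₐ[K] L) → ℂ) (h : ∀ g, χ g = χ₀ g + χ₁ g)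
    (S : Set (HeightOneSpectrum (𝓞 K))) (F₀ F₁ : ℂ → ℂ) (h₀ : StarkP.IsArtinL χ₀ S F₀)
    (h₁ : StarkP.IsArtinL χ₁ S F₁) : StarkP.IsArtinL χ S (fun z => F₀ z * F₁ z) := by
  refine ⟨fun z => (h₀.1 z).mul (h₁.1 z), fun s hs => ?_⟩
  show F₀ s * F₁ s = _
  rw [h₀.2 s hs, h₁.2 s hs, ← Complex.exp_add, logL_add χ χ₀ χ₁ h S s hs]

/-- The quotient of the continuations. -/
theorem artin_div (χ χ₀ χ₁ : (L ≃ₐ[K] L) → ℂ) (h : ∀ g, χ g = χ₀ g + χ₁ g)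
    (S : Set (HeightOneSpectrum (𝓞 K))) (F F₀ : ℂ → ℂ) (hF : StarkP.IsArtinL χ S F)
    (h₀ : StarkP.IsArtinL χ₀ S F₀) : StarkP.IsArtinL χ₁ S (fun z => F z * (F₀ z)⁻¹) := by
  refine ⟨fun z => (hF.1 z).mul (h₀.1 z).inv, fun s hs => ?_⟩
  show F s * (F₀ s)⁻¹ = _
  rw [hF.2 s hs, h₀.2 s hs, logL_add χ χ₀ χ₁ h S s hs, Complex.exp_add, mul_assoc,
    mul_comm (Complex.exp (StarkP.logL χ₁ S s)), ← mul_assoc,
    mul_inv_cancel₀ (Complex.exp_ne_zero _)]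
  simp

/-- The leading coefficient of a sum. -/
theorem trail_add (χ χ₀ χ₁ : (L ≃ₐ[K] L) → ℂ) (h : ∀ g, χ g = χ₀ g + χ₁ g)
    (S : Set (HeightOneSpectrum (𝓞 K))) (F F₀ F₁ : ℂ → ℂ) (hF : StarkP.IsArtinL χ S F)
    (h₀ : StarkP.IsArtinL χ₀ S F₀) (h₁ : StarkP.IsArtinL χ₁ S F₁) :
    meromorphicTrailingCoeffAt F 0 =
      meromorphicTrailingCoeffAt F₀ 0 * meromorphicTrailingCoeffAt F₁ 0 := by
  have h2 := artin_mul χ χ₀ χ₁ h S F₀ F₁ h₀ h₁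
  have h3 := MeromorphicAt.meromorphicTrailingCoeffAt_mul (h₀.1 0) (h₁.1 0)
  rw [← h3]
  refine LASTx.trail_unique hF.1 h2.1 fun s hs => ?_
  rw [hF.2 s hs]
  exact (h2.2 s hs).symm

end

/-- Inflation. -/
theorem artin_infl (K L N : Type) [Field K] [NumberField K] [Field L] [NumberField L] [Field N]
    [NumberField N] [Algebra K L] [Algebra K N] [Algebra L N] [IsScalarTower K L N]
    [IsGalois K L] [IsGalois K N] (S : Set (HeightOneSpectrum (𝓞 K))) (V : Type)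
    [AddCommGroup V] [Module ℂ V] [Module.Finite ℂ V]
    (ρ : Representation ℂ (L ≃ₐ[K] L) V) (F : ℂ → ℂ) :
    StarkP.IsArtinL
      (Representation.character (ρ.comp (AlgEquiv.restrictNormalHom L : (N ≃ₐ[K] N) →* _))) S F ↔
    StarkP.IsArtinL ρ.character S F := by
  have h : ∀ s, StarkP.logL
      (Representation.character (ρ.comp (AlgEquiv.restrictNormalHom L : (N ≃ₐ[K] N) →* _))) S s =
      StarkP.logL ρ.character S s := fun s =>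
    PINFx.logL_infl K L N ρ.character (fun g h => Representation.char_conj ρ g h) S s
  constructor
  · rintro ⟨h1, h2⟩
    exact ⟨h1, fun s hs => by rw [h2 s hs, h s]⟩
  · rintro ⟨h1, h2⟩
    exact ⟨h1, fun s hs => by rw [h2 s hs, h s]⟩

end WRSx

/-- WRS. -/
theorem WRS_thm : Stmt_WRS :=
  ⟨fun _ _ _ _ _ _ _ _ S Θ hΘ V V₀ V₁ _ _ _ _ _ _ _ _ _ ρ ρ₀ ρ₁ h =>
      WRSx.reg_add S Θ hΘ V V₀ V₁ ρ ρ₀ ρ₁ h,
    fun _ _ _ _ _ _ _ _ S χ χ₀ χ₁ F₀ F₁ h h₀ h₁ =>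
      WRSx.artin_mul χ χ₀ χ₁ h S F₀ F₁ h₀ h₁,
    fun _ _ _ _ _ _ _ _ S χ χ₀ χ₁ F F₀ F₁ h hF h₀ h₁ =>
      WRSx.trail_add χ χ₀ χ₁ h S F F₀ F₁ hF h₀ h₁,
    fun K L N _ _ _ _ _ _ _ _ _ _ _ _ S V _ _ _ ρ F =>
      WRSx.artin_infl K L N S V ρ F⟩

end StarkC.ABS
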