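import Pool.Agent.Stark.IOT_B
import Pool.Agent.ABS.PDefsW

/-!
# Project ABS, module WTR: `Lift` is transitive (main part)
-/

set_option autoImplicit false

open NumberField IsDedekindDomain
open scoped Classical

namespace StarkC.ABS.WTRx

open StarkP (Lift)

theorem place_zero {L : Type} [Field L] [NumberField L] {a : L → ℝ}
    (ha : a ∈ placeSet L Set.univ) : a 0 = 0 := by
  rcases ha with ⟨w, rfl⟩ | ⟨w, -, rfl⟩
  · rw [infAbs, map_zero, zero_pow w.mult_pos.ne']
  · rw [finAbs, map_zero]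

theorem main (K L N M : Type) [Field K] [NumberField K] [Field L] [NumberField L] [Field N]
    [NumberField N] [Field M] [NumberField M] [Algebra K L] [Algebra K N] [Algebra K M]
    (j : L →ₐ[K] N) (k : N →ₐ[K] M) (S : Finset (HeightOneSpectrum (𝓞 K)))
    (y : (L → ℝ) →₀ ℂ) (z : (N → ℝ) →₀ ℂ) (w : (M → ℝ) →₀ ℂ)
    (h1 : Lift (j : L →+* N) (aboveSet K L S) (aboveSet K N S) y z)
    (h2 : Lift (k : N →+* M) (aboveSet K N S) (aboveSet K M S) z w) :
    Lift ((k.comp j : L →ₐ[K] M) : L →+* M) (aboveSet K L S) (aboveSet K M S) y w := by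
  intro a ha c hc n hn
  let _ : Algebra L N := (j : L →+* N).toAlgebra
  let _ : Algebra N M := (k : N →+* M).toAlgebra
  have _ : IsScalarTower K L N := IsScalarTower.of_algebraMap_eq (fun x => (j.commutes x).symm)
  have _ : IsScalarTower K N M := IsScalarTower.of_algebraMap_eq (fun x => (k.commutes x).symm)
  have hc' : c ∈ placeSet M (aboveSet K M S) := hc
  have ha' : a ∈ placeSet L (aboveSet K L S) := ha
  have hcu : c ∈ placeSet M Set.univ := IOT.placeSet_sub M _ hc'
  obtain ⟨hb1, hb2, hb3⟩ := IOT.blp_spec N hcu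
  have hb4 : (IOT.blp N c).1 ∈ placeSet N (aboveSet K N S) := IOT.blp_mem K N S hc'
  obtain ⟨he1, he2, he3⟩ := IOT.blp_spec L hb1
  have hcomp : ∀ x : L, c (k (j x)) =
      (IOT.blp L (IOT.blp N c).1).1 x ^ ((IOT.blp L (IOT.blp N c).1).2 * (IOT.blp N c).2) := by
    intro x
    have e1 := hb3 (j x)
    have e2 := he3 x
    rw [pow_mul, ← e2]
    exact e1
  have hn' : ∀ x : L, c (k (j x)) = a x ^ n := hn
  have hn0 : 0 < n := by
    rcases Nat.eq_zero_or_pos n with h | h
    · exfalso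
      have e1 := hn' 0
      rw [map_zero, map_zero, place_zero hcu, h, pow_zero] at e1
      exact zero_ne_one e1
    · exact h
  obtain ⟨e1, e2⟩ := IOT.uniq L (IOT.placeSet_sub L _ ha') he1 hn0 (Nat.mul_pos he2 hb2)
    (fun x => by rw [← hn', hcomp])
  have e3 := h2 (IOT.blp N c).1 hb4 c hc (IOT.blp N c).2 hb3
  have e4 := h1 a ha (IOT.blp N c).1 hb4 (IOT.blp L (IOT.blp N c).1).2 (fun x => by
    rw [e1]
    exact he3 x)
  rw [e3, e4, e2]
  push_cast
  ring

end StarkC.ABS.WTRx
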