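import Pool.Agent.ABS.StTower
import Pool.Agent.ABS.WTRa

/-!
# Project ABS, module WTR: `Lift` is transitive
-/

set_option autoImplicit false

namespace StarkC.ABS

theorem WTR_thm : Stmt_WTR := WTRx.main

end StarkC.ABS
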