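import Pool.Agent.ABS.StTowerB

/-!
# Project ABS, module WVC: a complex place of `K` splits completely
-/

set_option autoImplicit false

open NumberField IsDedekindDomain
open scoped Classical

namespace StarkC.ABS

theorem WVC_thm : Stmt_WVC := by
  intro K L _ _ _ _ _ _ S ⟨v, hv⟩
  obtain ⟨w, hw⟩ := InfinitePlace.comap_surjective (k := K) (K := L) v
  refine ⟨StarkP.infAbs L w, Or.inl ⟨w, rfl⟩, fun g hg => ?_⟩
  have h1 : ∀ x, w (g x) = w x := fun x => by
    have h2 := hg x
    unfold StarkP.infAbs at h2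
    exact (pow_left_inj₀ (apply_nonneg _ _) (apply_nonneg _ _) w.mult_pos.ne').1 h2
  have hu : InfinitePlace.IsUnramified K w :=
    InfinitePlace.isUnramified_iff.2 (Or.inr (show (w.comap (algebraMap K L)).IsComplex by
      rw [show w.comap (algebraMap K L) = v from hw]; exact hv))
  have hs : g⁻¹ ∈ MulAction.stabilizer (L ≃ₐ[K] L) w := by
    rw [MulAction.mem_stabilizer_iff, InfinitePlace.smul_eq_comap]
    ext x
    exact h1 x
  rw [hu.stabilizer_eq_bot, Subgroup.mem_bot] at hs
  exact inv_eq_one.1 hs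

end StarkC.ABS
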