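import Pool.Agent.ABS.StTowerB

/-!
# Project ABS, module WVO: the infinite places split completely in an extension of odd degree
-/

set_option autoImplicit false

open NumberField IsDedekindDomain
open scoped Classical

namespace StarkC.ABS

theorem WVO_thm : Stmt_WVO := by
  intro K L _ _ _ _ _ _ S hodd
  obtain ⟨w⟩ : Nonempty (InfinitePlace L) := inferInstance
  have hun : InfinitePlace.IsUnramified K w := by
    by_contra h
    exact (Nat.not_even_iff_odd.mpr hodd)
      (InfinitePlace.even_nat_card_aut_of_not_isUnramified h)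
  refine ⟨StarkP.infAbs L w, Or.inl ⟨w, rfl⟩, fun g hg => ?_⟩
  have hw : ∀ x, w (g x) = w x := by
    intro x
    have h1 : (w (g x)) ^ w.mult = (w x) ^ w.mult := hg x
    exact (pow_left_inj₀ (apply_nonneg w _) (apply_nonneg w _) w.mult_pos.ne').mp h1
  have hm : g ∈ MulAction.stabilizer (L ≃ₐ[K] L) w := by
    rw [MulAction.mem_stabilizer_iff]
    ext x
    rw [InfinitePlace.smul_apply]
    have h1 := hw (g.symm x)
    simpa using h1.symm
  rw [hun.stabilizer_eq_bot] at hm
  exact Subgroup.mem_bot.mp hm

end StarkC.ABS
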