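import Pool.Agent.ABS.StTowerB
import Pool.Agent.Stark.IOT_B

/-!
# Project ABS, part W: the trivial representation occurs if there are two places
-/

set_option autoImplicit false

open NumberField IsDedekindDomain
open scoped Classical

set_option linter.unusedSectionVars false

namespace StarkC.ABS

namespace WVTx

open StarkC.IOT

variable {K L : Type} [Field K] [NumberField K] [Field L] [NumberField L] [Algebra K L]

theorem exists_above_fin (v : HeightOneSpectrum (𝓞 K)) :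
    ∃ w : HeightOneSpectrum (𝓞 L), w.under (𝓞 K) = v := by
  obtain ⟨⟨P, hP1, hP2⟩⟩ := v.asIdeal.nonempty_primesOver (S := 𝓞 L)
  have hne : P ≠ ⊥ := Ideal.ne_bot_of_liesOver_of_ne_bot v.ne_bot P
  refine ⟨⟨P, hP1, hne⟩, ?_⟩
  apply HeightOneSpectrum.ext
  exact hP2.over.symm

theorem exists_above (S : Set (HeightOneSpectrum (𝓞 K))) {u : K → ℝ} (hu : u ∈ placeSet K S) :
    ∃ a ∈ placeSet L (aboveSet K L S), (blp K a).1 = u := by
  rcases hu with ⟨v, rfl⟩ | ⟨v, hv, rfl⟩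
  · obtain ⟨w, hw⟩ := InfinitePlace.comap_surjective (k := K) (K := L) v
    refine ⟨infAbs L w, Or.inl ⟨w, rfl⟩, ?_⟩
    have hw2 : w.comap (algebraMap K L) = v := hw
    rw [blp_inf, hw2]
  · obtain ⟨w, hw⟩ := exists_above_fin (L := L) v
    refine ⟨finAbs L w, Or.inr ⟨w, ?_, rfl⟩, ?_⟩
    · change w.under (𝓞 K) ∈ S
      rw [hw]
      exact hv
    · rw [blp_fin, hw]

theorem two_places (S : Finset (HeightOneSpectrum (𝓞 K)))
    (h : 1 < Fintype.card (InfinitePlace K) + S.card) :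
    ∃ u ∈ placeSet K (S : Set (HeightOneSpectrum (𝓞 K))),
      ∃ u' ∈ placeSet K (S : Set (HeightOneSpectrum (𝓞 K))), u ≠ u' := by
  have v0 : InfinitePlace K := Classical.arbitrary _
  by_cases hS : S.Nonempty
  · obtain ⟨v, hv⟩ := hS
    exact ⟨infAbs K v0, Or.inl ⟨_, rfl⟩, finAbs K v, Or.inr ⟨v, hv, rfl⟩,
      infAbs_ne_finAbs K v0 v⟩
  · rw [Finset.not_nonempty_iff_eq_empty] at hS
    subst hS
    rw [Finset.card_empty, add_zero] at h
    obtain ⟨v, v', hvv⟩ := Fintype.exists_pair_of_one_lt_card h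
    exact ⟨infAbs K v, Or.inl ⟨_, rfl⟩, infAbs K v', Or.inl ⟨_, rfl⟩,
      fun h' => hvv (infAbs_inj K h')⟩

/-- The sum of the conjugates of the place `a`. -/
noncomputable def orb (K : Type) [Field K] {L : Type} [Field L] [NumberField L]
    [Algebra K L] [Fintype (L ≃ₐ[K] L)] (a : L → ℝ) : (L → ℝ) →₀ ℂ :=
  ∑ g : L ≃ₐ[K] L, Finsupp.single (a ∘ (g : L ≃+* L)) (1 : ℂ)

theorem act_single (h : L ≃ₐ[K] L) (a : L → ℝ) (c : ℂ) :
    StarkP.act (h : L ≃+* L) (Finsupp.single a c) =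
      Finsupp.single (a ∘ ((h⁻¹ : L ≃ₐ[K] L) : L ≃+* L)) c := by
  rw [StarkP.act, Finsupp.lmapDomain_apply, Finsupp.mapDomain_single]
  rfl

theorem act_orb [Fintype (L ≃ₐ[K] L)] (h : L ≃ₐ[K] L) (a : L → ℝ) :
    StarkP.act (h : L ≃+* L) (orb K a) = orb K a := by
  rw [orb, map_sum]
  simp only [act_single]
  rw [← Equiv.sum_comp (Equiv.mulRight h⁻¹) (fun g : L ≃ₐ[K] L =>
    Finsupp.single (a ∘ (g : L ≃+* L)) (1 : ℂ))]
  refine Finset.sum_congr rfl (fun g _ => ?_)
  rfl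

theorem orb_apply [Fintype (L ≃ₐ[K] L)] (a b : L → ℝ) :
    orb K a b = ((Finset.univ.filter
      (fun g : L ≃ₐ[K] L => a ∘ (g : L ≃+* L) = b)).card : ℂ) := by
  rw [orb, Finsupp.finsetSum_apply, Finset.card_filter]
  push_cast
  refine Finset.sum_congr rfl (fun g _ => ?_)
  rw [Finsupp.single_apply]

theorem orb_supp [Fintype (L ≃ₐ[K] L)] (S : Set (HeightOneSpectrum (𝓞 K))) {a : L → ℝ}
    (ha : a ∈ placeSet L (aboveSet K L S)) :
    orb K a ∈ Finsupp.supported ℂ ℂ (placeSet L (aboveSet K L S)) := by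
  rw [orb]
  refine Submodule.sum_mem _ (fun g _ => ?_)
  exact Finsupp.single_mem_supported ℂ _ (stab K S g ha)

theorem orb_sum [Fintype (L ≃ₐ[K] L)] (a : L → ℝ) :
    Finsupp.linearCombination ℂ (fun _ : L → ℝ => (1 : ℂ)) (orb K a) =
      (Fintype.card (L ≃ₐ[K] L) : ℂ) := by
  rw [orb, map_sum]
  simp

end WVTx

open WVTx in
theorem WVT_thm : Stmt_WVT := by
  intro K L _ _ _ _ _ _ S hS V _ _ _ σ hσ
  obtain ⟨u, hu, u', hu', huu⟩ := two_places S hS
  obtain ⟨a, ha, hau⟩ := exists_above (L := L) _ hu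
  obtain ⟨a', ha', hau'⟩ := exists_above (L := L) _ hu'
  set x : (L → ℝ) →₀ ℂ := orb K a - orb K a' with hx
  have hxm : x ∈ StarkP.XC L (StarkP.aboveSet K L (S : Set (HeightOneSpectrum (𝓞 K)))) := by
    refine ⟨Submodule.sub_mem _ (orb_supp _ ha) (orb_supp _ ha'), ?_⟩
    change Finsupp.linearCombination ℂ (fun _ : L → ℝ => (1 : ℂ)) x = 0
    rw [hx, map_sub, orb_sum, orb_sum, sub_self]
  have hxa : ∀ g : L ≃ₐ[K] L, StarkP.act (g : L ≃+* L) x = x := by
    intro g
    rw [hx, map_sub, act_orb, act_orb]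
  have hx0 : x ≠ 0 := by
    intro h0
    have h1 : x a = 0 := by rw [h0]; rfl
    rw [hx, Finsupp.sub_apply, orb_apply, orb_apply, sub_eq_zero] at h1
    have h2 : (Finset.univ.filter
        (fun g : L ≃ₐ[K] L => a' ∘ (g : L ≃+* L) = a)).card = 0 := by
      rw [Finset.card_eq_zero, Finset.filter_eq_empty_iff]
      intro g _ hg
      apply huu
      rw [← hau, ← hau', ← hg, StarkC.IOT.blp_comp K (g : L ≃+* L) (RingEquiv.refl K)
        (fun x => by simp) (StarkC.IOT.placeSet_sub L _ ha')]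
      rfl
    rw [h2, Nat.cast_zero, Nat.cast_eq_zero, Finset.card_eq_zero,
      Finset.filter_eq_empty_iff] at h1
    exact h1 (Finset.mem_univ (1 : L ≃ₐ[K] L)) rfl
  obtain ⟨v0, hv0⟩ := exists_ne (0 : V)
  obtain ⟨α, hα⟩ : ∃ α : Module.Dual ℂ V, α v0 ≠ 0 := by
    by_contra hcon
    push Not at hcon
    exact hv0 ((Module.forall_dual_apply_eq_zero_iff ℂ v0).1 hcon)
  refine ⟨(LinearMap.toSpanSingleton ℂ _ x) ∘ₗ (Module.Dual.eval ℂ V v0), ?_, ?_, ?_⟩
  · intro h0
    have h1 := LinearMap.congr_fun h0 α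
    simp only [LinearMap.comp_apply, Module.Dual.eval_apply, LinearMap.toSpanSingleton_apply,
      LinearMap.zero_apply, smul_eq_zero] at h1
    rcases h1 with h1 | h1
    · exact hα h1
    · exact hx0 h1
  · intro β
    simp only [LinearMap.comp_apply, Module.Dual.eval_apply, LinearMap.toSpanSingleton_apply]
    exact Submodule.smul_mem _ _ hxm
  · intro g β
    simp only [LinearMap.comp_apply, Module.Dual.eval_apply, LinearMap.toSpanSingleton_apply,
      map_smul, hxa]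
    congr 1
    rw [Representation.dual_apply, hσ]
    rfl

end StarkC.ABS
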