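import Pool.Agent.ABS.OPW
import Pool.Agent.ABS.PDefsT
import Pool.Agent.ABS.StTowerB
import Pool.Agent.ABS.WIO
import Pool.Agent.ABS.WTR
import Pool.Agent.ABS.WEX
import Pool.Agent.ABS.WDE
import Pool.Agent.ABS.WRI
import Pool.Agent.ABS.WRA
import Pool.Agent.ABS.WRS
import Pool.Agent.ABS.WOC
import Pool.Agent.ABS.WDC
import Pool.Agent.ABS.WCL
import Pool.Agent.ABS.WLM
import Pool.Agent.ABS.WCO
import Pool.Agent.ABS.WVT
import Pool.Agent.ABS.WVC
import Pool.Agent.ABS.WVO

/-!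
# Project ABS, part W: ONE `φ` over the algebraic closure (helper6)
-/

set_option autoImplicit false

open NumberField IsDedekindDomain
open scoped Classical

namespace StarkC.ABS

open StarkP (InCls IsSub OccursIn Extends IsTheta PExt SplitPlace)

/-- In the case `PExt` all characters are in the class and have `r_S(χ) > 0`. -/
theorem cond_of_pext (hVT : Stmt_WVT) (hVC : Stmt_WVC) (hVO : Stmt_WVO) (K L : Type) [Field K]
    [NumberField K] [Field L] [NumberField L] [Algebra K L] [IsGalois K L]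
    (S : Finset (HeightOneSpectrum (𝓞 K))) (h : PExt K L S) (W : Type) [AddCommGroup W]
    [Module ℂ W] [Module.Finite ℂ W] (σ : Representation ℂ (L ≃ₐ[K] L) W)
    (hσ : σ.IsIrreducible) :
    InCls σ ∧ (OccursIn (StarkP.aboveSet K L S) σ ∨
      (SplitPlace K (StarkP.aboveSet K L S) ∧ ∃ g, σ g ≠ 1)) := by
  obtain ⟨h1, ⟨p, n, hp, hp2, hg⟩, h3⟩ := h
  refine ⟨Or.inl ⟨p, n, hp, hp2, fun g => by rw [← map_pow, hg, map_one]⟩, ?_⟩
  have hs : SplitPlace K (StarkP.aboveSet K L S) := h3.elim (hVC K L S) (hVO K L S)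
  by_cases hn : ∃ g, σ g ≠ 1
  · exact Or.inr ⟨hs, hn⟩
  · push Not at hn
    have : Nontrivial W := by
      by_contra hW
      rw [not_nontrivial_iff_subsingleton] at hW
      have h4 : (⊥ : Subrepresentation σ) = ⊤ := by
        ext x
        have hx : x = 0 := Subsingleton.elim _ _
        rw [hx]
        exact ⟨fun _ => trivial, fun _ => rfl⟩
      have : Nontrivial (Subrepresentation σ) := hσ.toNontrivial
      exact bot_ne_top h4
    exact Or.inl (hVT K L S h1 W σ hn)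

/-- The printed theorem. -/
theorem mainT (K : Type) [Field K] [NumberField K] (S : Finset (HeightOneSpectrum (𝓞 K))) :
    ∃ Θ : ∀ L : IntermediateField K (AlgebraicClosure K),
      ((L → ℝ) →₀ ℂ) →ₗ[ℂ] ((L → ℝ) →₀ ℂ),
      (∀ (L N : IntermediateField K (AlgebraicClosure K)) [NumberField L] [NumberField N]
        [IsGalois K L] [IsGalois K N] (h : L ≤ N),
        Extends (IntermediateField.inclusion h : L →+* N) (StarkP.aboveSet K L S)
          (StarkP.aboveSet K N S) (Θ L) (Θ N)) ∧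
      ∀ (L : IntermediateField K (AlgebraicClosure K)) [NumberField L] [IsGalois K L],
        IsTheta K (StarkP.aboveSet K L S) (Θ L) ∧
        ∀ (V : Type) [AddCommGroup V] [Module ℂ V] [Module.Finite ℂ V]
          (ρ : Representation ℂ (L ≃ₐ[K] L) V),
          (PExt K L S ∨ ∀ (W : Type) [AddCommGroup W] [Module ℂ W] [Module.Finite ℂ W]
            (σ : Representation ℂ (L ≃ₐ[K] L) W), σ.IsIrreducible → IsSub σ ρ →
            InCls σ ∧ (OccursIn (StarkP.aboveSet K L S) σ ∨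
              (SplitPlace K (StarkP.aboveSet K L S) ∧ ∃ g, σ g ≠ 1))) →
          ((∀ g, ∃ q : ℚ, ρ.character g = (q : ℂ)) → ∃ F : ℂ → ℂ,
            StarkP.IsArtinL ρ.character S F ∧
            StarkP.Reg (StarkP.aboveSet K L S) ρ (Θ L) = meromorphicTrailingCoeffAt F 0) ∧
          (((∀ g, ∃ q : ℚ, (ρ.character g).re = (q : ℝ)) ∨ (∀ g, ρ g ^ 6 = 1)) →
            ∀ F : ℂ → ℂ, StarkP.IsArtinL ρ.character S F →
            ‖StarkP.Reg (StarkP.aboveSet K L S) ρ (Θ L)‖ = ‖meromorphicTrailingCoeffAt F 0‖) := by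
  obtain ⟨Θ, h1, h2⟩ := mainW_of WIO_thm WTR_thm WEX_thm WDE_thm (WRI_thm WIO_thm) WRA_thm WRS_thm
    (WOC_thm WIO_thm) WDC_thm WCL_thm WLM_thm WCO_thm K S
  refine ⟨Θ, h1, fun L _ _ => ⟨(h2 L).1, fun V _ _ _ ρ hρ => (h2 L).2 V ρ ?_⟩⟩
  rcases hρ with hρ | hρ
  · exact fun W _ _ _ σ hσ _ => cond_of_pext WVT_thm WVC_thm WVO_thm K L S hρ W σ hσ
  · exact hρ

end StarkC.ABS
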