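import Pool.Agent.ABS.XGE

/-!
# Project ABS: one `φ`; the class of extensions (prime degree, degree four, doubly transitive,
all constituents in the class), assembly (helper6)
-/

set_option autoImplicit false

open NumberField IsDedekindDomain
open scoped Classical

namespace StarkC.ABS

open StarkP (InCls InClsS ConF GoodExt IsSub OccursIn Lift Extends IsTheta PExt SplitPlace PPow)

open OPZx OPSx XGEx Pool.Agent.YNG

/-- The printed theorem, from the modules. -/
theorem mainV_of (hXP : Stmt_XPR) (hXO : Stmt_XOC) (hCA : Stmt_CA) (hCB : Stmt_CB)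
    (hY : Stmt_YT) (hPA : Stmt_PA) (hPD : Stmt_PD) (hPE : Stmt_PE) (hPO : Stmt_PO)
    (hQ : Stmt_XQ4) (hS0 : Stmt_PS0) (hS1 : Stmt_PS1) (hS2 : Stmt_PS2) (hS3 : Stmt_PS3)
    (hTC : Stmt_TC) (hTQ : Stmt_TQ)
    (K : Type) [Field K] [NumberField K] (S : Finset (HeightOneSpectrum (𝓞 K))) :
    ∃ Θ : ∀ L : IntermediateField K (AlgebraicClosure K),
      ((L → ℝ) →₀ ℂ) →ₗ[ℂ] ((L → ℝ) →₀ ℂ),
      (∀ (F : IntermediateField K (AlgebraicClosure K)) [NumberField F],
        IsTheta K (StarkP.aboveSet K F S) (Θ F)) ∧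
      (∀ (F L : IntermediateField K (AlgebraicClosure K)) [NumberField F] [NumberField L]
        (h : F ≤ L), Extends (IntermediateField.inclusion h : F →+* L) (StarkP.aboveSet K F S)
          (StarkP.aboveSet K L S) (Θ F) (Θ L)) ∧
      (S = ∅ → ∀ (F L : IntermediateField K (AlgebraicClosure K)) [NumberField F] [NumberField L]
        [IsGalois K L] (h : F ≤ L),
        ((PPow K L ∨ (GoodExt h ∧ (Odd (Module.finrank K F) ∨
            ∀ (W : Type) [AddCommGroup W] [Module ℂ W] [Module.Finite ℂ W]
              (σ : Representation ℂ (L ≃ₐ[K] L) W), ConF h σ →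
                OccursIn (StarkP.aboveSet K L S) σ))) →
          StarkP.unitIndex (Θ F) * (if Fintype.card (InfinitePlace K) = 1 then
            (classNumber K : ℚ) / Units.torsionOrder K else 1) =
          (classNumber F : ℚ) / Units.torsionOrder F) ∧
        (Module.finrank ℚ K = 1 →
          (PPow K L ∨ (GoodExt h ∧ (Odd (Module.finrank K F) ∨
            ¬ ∃ E : IntermediateField ℚ F, IsCMField E))) →
          StarkP.unitIndex (Θ F) = classNumber F)) ∧
      ∀ (L : IntermediateField K (AlgebraicClosure K)) [NumberField L] [IsGalois K L]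
        (V : Type) [AddCommGroup V] [Module ℂ V] [Module.Finite ℂ V]
        (ρ : Representation ℂ (L ≃ₐ[K] L) V),
        ((1 < Fintype.card (InfinitePlace K) + S.card ∧ PPow K L) ∨
          ∀ (W : Type) [AddCommGroup W] [Module ℂ W] [Module.Finite ℂ W]
            (σ : Representation ℂ (L ≃ₐ[K] L) W), σ.IsIrreducible → IsSub σ ρ →
            InClsS σ ∧ (OccursIn (StarkP.aboveSet K L S) σ ∨
              (SplitPlace K (StarkP.aboveSet K L S) ∧ ∃ g, σ g ≠ 1))) →
        ((∀ g, ∃ q : ℚ, ρ.character g = (q : ℂ)) → ∃ F : ℂ → ℂ,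
          StarkP.IsArtinL ρ.character S F ∧
          StarkP.Reg (StarkP.aboveSet K L S) ρ (Θ L) = meromorphicTrailingCoeffAt F 0) ∧
        (((∀ g, ∃ q : ℚ, (ρ.character g).re = (q : ℝ)) ∨ (∀ g, ρ g ^ 6 = 1)) →
          ∀ F : ℂ → ℂ, StarkP.IsArtinL ρ.character S F →
          ‖StarkP.Reg (StarkP.aboveSet K L S) ρ (Θ L)‖ = ‖meromorphicTrailingCoeffAt F 0‖) := by
  obtain ⟨Θ₀, hE, h2⟩ := mainT K S
  obtain ⟨Θ, hΘ₀, hT, hext⟩ := family WZD_thm WZI_thm WTR_thm S Θ₀ (fun L _ _ => (h2 L).1) hE
  refine ⟨Θ, hT, hext, ?_, ?_⟩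
  · intro hS F L _ _ _ h
    subst hS
    let : Algebra F L := (IntermediateField.inclusion h : F →+* L).toAlgebra
    have : IsScalarTower K F L := IsScalarTower.of_algebraMap_eq fun x => rfl
    have hG : GoodR K L (Θ L) := by
      intro V _ _ _ ρ hρ hq
      rw [hΘ₀ L]
      exact ((h2 L).2 V ρ hρ).1 hq
    have key : (AllC K L ∨ ConC K F L) →
        StarkP.unitIndex (Θ F) * (if Fintype.card (InfinitePlace K) = 1 then
            (classNumber K : ℚ) / Units.torsionOrder K else 1) =
          (classNumber F : ℚ) / Units.torsionOrder F := by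
      intro hP
      by_cases hc : Fintype.card (InfinitePlace K) = 1
      · rw [if_pos hc]
        refine Rat.cast_injective (α := ℝ) ?_
        push_cast
        rcases hP with hP | hP
        · exact index_one K F L WZD_thm WZR_thm WZL_thm WZXb_thm WZP_thm WZNb_thm WRS_thm (Θ F)
            (Θ L) (hT F) (hT L) (hext F L h) hG hP hc
        · exact index_one' K F L hXP WZD_thm WZR_thm WZL_thm WZXb_thm WZNb_thm WRS_thm (Θ F)
            (Θ L) (hT F) (hT L) (hext F L h) hG hP hc
      · rw [if_neg hc]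
        have hc' : 1 < Fintype.card (InfinitePlace K) := by
          have h4 : 0 < Fintype.card (InfinitePlace K) := Fintype.card_pos
          omega
        refine Rat.cast_injective (α := ℝ) ?_
        push_cast
        rcases hP with hP | hP
        · exact index_two K F L WZR_thm WZL_thm WZXb_thm WZP_thm WVT_thm (Θ F) (Θ L)
            (hT F) (hT L) (hext F L h) hG hP hc'
        · exact index_two' K F L hXP WZR_thm WZL_thm WZXb_thm WVT_thm (Θ F) (Θ L)
            (hT F) (hT L) (hext F L h) hG hP hc'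
    refine ⟨fun hP => key ?_, fun hK hP => ?_⟩
    · rcases hP with hP | hP
      · exact Or.inl (allC_of K L WVC_thm WVO_thm hP)
      · refine Or.inr fun W _ _ _ σ hσ hn hv => ⟨?_, ?_⟩
        · exact cls_of_good hY hPA hPD hPE hQ hS0 hS1 hS2 hS3 hTC hTQ h hP.1 W σ ⟨hσ, hn, hv⟩
        · exact hP.2.elim (fun ho => occ_odd K F L hXO hPO ho W σ hσ hn hv)
            fun h3 => h3 W σ ⟨hσ, hn, hv⟩
    · obtain ⟨h5, h6, h7, h8⟩ := WZNb_thm.2.1 K hK
      rcases hP with hP | ⟨hP, hcm⟩
      · have hA : AllC K L := allC_of K L WVC_thm WVO_thm hP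
        have h9 := WZM_thm K F L h8 hA.1
        have h10 := key (Or.inl hA)
        rw [if_pos h7, h5, h6, h9] at h10
        push_cast at h10
        linarith
      · have hcon : ∀ (W : Type) [AddCommGroup W] [Module ℂ W] [Module.Finite ℂ W]
            (σ : Representation ℂ (L ≃ₐ[K] L) W), σ.IsIrreducible → (∃ g, σ g ≠ 1) →
            (∃ v : W, v ≠ 0 ∧ ∀ g ∈ fixK K F L, σ g v = v) →
            OccursIn (StarkP.aboveSet K L ((∅ : Finset (HeightOneSpectrum (𝓞 K))) :
              Set (HeightOneSpectrum (𝓞 K)))) σ := by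
          intro W _ _ _ σ hσ hn hv
          rcases hcm with ho | hcm
          · exact occ_odd K F L hXO hPO ho W σ hσ hn hv
          · by_contra ho
            refine hcm (hCB K F L hK W σ hv fun w v hw => ?_)
            by_contra hv0
            exact ho (hXO K L W σ hσ hn w v hv0 hw)
        have h9 : Units.torsionOrder F = 2 := by
          rcases hcm with ho | hcm
          · refine Units.torsionOrder_eq_two_of_odd_finrank ?_
            have : FiniteDimensional K F := Module.Finite.of_restrictScalars_finite ℚ K F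
            rw [← Module.finrank_mul_finrank ℚ K F, hK, one_mul]
            exact ho
          · exact hCA F hcm
        have h10 := key (Or.inr fun W _ _ _ σ hσ hn hv =>
          ⟨cls_of_good hY hPA hPD hPE hQ hS0 hS1 hS2 hS3 hTC hTQ h hP W σ ⟨hσ, hn, hv⟩, hcon W σ hσ hn hv⟩)
        rw [if_pos h7, h5, h6, h9] at h10
        push_cast at h10
        linarith
  · intro L _ _ V _ _ _ ρ hρ
    rw [hΘ₀ L]
    refine (h2 L).2 V ρ ?_
    rcases hρ with h | h
    · exact Or.inl ⟨h.1, h.2.1, h.2.2⟩
    · exact Or.inr fun W _ _ _ σ hσ hs => ⟨inCls_of hTQ σ (h W σ hσ hs).1, (h W σ hσ hs).2⟩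

end StarkC.ABS
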