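import Pool.Agent.ABS.StTower

/-!
# Project ABS, part W: ONE `φ` over the algebraic closure, assembly (helper6)
-/

set_option autoImplicit false

open NumberField IsDedekindDomain
open scoped Classical

namespace StarkC.ABS

open StarkP (InCls IsSub OccursIn Lift Extends IsTheta)

namespace OPWx

/-- The regulator is equal to the leading coefficient of the `L`-series. -/
def Ex (K L : Type) [Field K] [NumberField K] [Field L] [NumberField L] [Algebra K L]
    (S : Finset (HeightOneSpectrum (𝓞 K))) (Θ : ((L → ℝ) →₀ ℂ) →ₗ[ℂ] ((L → ℝ) →₀ ℂ))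
    {V : Type} [AddCommGroup V] [Module ℂ V] (ρ : Representation ℂ (L ≃ₐ[K] L) V) : Prop :=
  ∃ F : ℂ → ℂ, StarkP.IsArtinL ρ.character (S : Set (HeightOneSpectrum (𝓞 K))) F ∧
    StarkP.Reg (StarkP.aboveSet K L S) ρ Θ = meromorphicTrailingCoeffAt F 0

/-- `Θ` is good for all characters with constituents in the class. -/
def GoodT (K L : Type) [Field K] [NumberField K] [Field L] [NumberField L] [Algebra K L]
    (S : Finset (HeightOneSpectrum (𝓞 K))) (Θ : ((L → ℝ) →₀ ℂ) →ₗ[ℂ] ((L → ℝ) →₀ ℂ)) : Prop :=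
  IsTheta K (StarkP.aboveSet K L S) Θ ∧
    ∀ (V : Type) [AddCommGroup V] [Module ℂ V] [Module.Finite ℂ V]
      (ρ : Representation ℂ (L ≃ₐ[K] L) V),
      (∀ (W : Type) [AddCommGroup W] [Module ℂ W] [Module.Finite ℂ W]
        (σ : Representation ℂ (L ≃ₐ[K] L) W), σ.IsIrreducible → IsSub σ ρ →
        InCls σ ∧ OccursIn (StarkP.aboveSet K L S) σ) →
      ((∀ g, ∃ q : ℚ, ρ.character g = (q : ℂ)) → Ex K L S Θ ρ) ∧
      ((∀ g, ∃ q : ℚ, (ρ.character g).re = (q : ℝ)) → Ex K L S Θ (ρ.prod ρ.dual))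

theorem sub_trans {G V W U : Type} [Group G] [AddCommGroup V] [Module ℂ V] [AddCommGroup W]
    [Module ℂ W] [AddCommGroup U] [Module ℂ U] {σ : Representation ℂ G W}
    {τ : Representation ℂ G U} {ρ : Representation ℂ G V} (h : IsSub σ τ) (h' : IsSub τ ρ) :
    IsSub σ ρ := by
  obtain ⟨i, hi, hi'⟩ := h
  obtain ⟨j, hj, hj'⟩ := h'
  refine ⟨j ∘ₗ i, hj.comp hi, fun g w => ?_⟩
  rw [LinearMap.comp_apply, LinearMap.comp_apply, hi', hj']

theorem sub_comp {G Q V W : Type} [Group G] [Group Q] [AddCommGroup V] [Module ℂ V]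
    [AddCommGroup W] [Module ℂ W] {σ : Representation ℂ Q W} {ρ : Representation ℂ Q V}
    (p : G →* Q) (h : IsSub σ ρ) : IsSub (σ.comp p) (ρ.comp p) := by
  obtain ⟨i, hi, hi'⟩ := h
  exact ⟨i, hi, fun g w => hi' (p g) w⟩

/-- The constituents of an inflation are inflations. -/
theorem sub_infl {G Q V W : Type} [Group G] [Group Q] [AddCommGroup V] [Module ℂ V]
    [AddCommGroup W] [Module ℂ W] (p : G →* Q) (hp : Function.Surjective p)
    (ρ : Representation ℂ Q V) (σ : Representation ℂ G W) (hσ : σ.IsIrreducible)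
    (h : IsSub σ (ρ.comp p)) : ∃ τ : Representation ℂ Q W, τ.IsIrreducible ∧ IsSub τ ρ ∧
      σ = τ.comp p := by
  obtain ⟨i, hi, hi'⟩ := h
  have hker : ∀ d ∈ p.ker, σ d = 1 := by
    intro d hd
    rw [MonoidHom.mem_ker] at hd
    refine LinearMap.ext fun w => hi ?_
    rw [hi']
    show ρ (p d) (i w) = i w
    rw [hd, map_one]
    rfl
  let e := QuotientGroup.quotientKerEquivOfSurjective p hp
  let τ : Representation ℂ Q W := (QuotientGroup.lift p.ker σ hker).comp e.symm.toMonoidHom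
  have hτ : ∀ g, τ (p g) = σ g := by
    intro g
    have h1 : e.symm (p g) = QuotientGroup.mk g := by
      rw [MulEquiv.symm_apply_eq]
      rfl
    show QuotientGroup.lift p.ker σ hker (e.symm (p g)) = σ g
    rw [h1]
    rfl
  have hτc : σ = τ.comp p := MonoidHom.ext fun g => (hτ g).symm
  refine ⟨τ, ?_, ⟨i, hi, fun q w => ?_⟩, hτc⟩
  · rw [hτc] at hσ
    exact (OrderIso.isSimpleOrder_iff (NSYx.subIso τ p hp)).1 hσ
  · obtain ⟨g, rfl⟩ := hp q
    rw [hτ]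
    exact hi' g w

theorem char_prod {G V : Type} [Group G] [AddCommGroup V] [Module ℂ V] [Module.Finite ℂ V]
    (ρ : Representation ℂ G V) (g : G) :
    (ρ.prod ρ.dual).character g = ρ.character g + ρ.character g⁻¹ := by
  have h3 : (ρ.prod ρ.dual).character g = ρ.character g + ρ.dual.character g :=
    LinearMap.trace_prodMap' (ρ g) (ρ.dual g)
  rw [h3, Representation.char_dual]

/-- Base case: a good `Θ` exists. -/
theorem good_exists (K L : Type) [Field K] [NumberField K] [Field L] [NumberField L]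
    [Algebra K L] [IsGalois K L] (S : Finset (HeightOneSpectrum (𝓞 K))) :
    ∃ Θ, GoodT K L S Θ := by
  obtain ⟨Θ, hΘ, hex⟩ := finalR K L S
  have key : ∀ (W : Type) [AddCommGroup W] [Module ℂ W] [Module.Finite ℂ W]
      (σ : Representation ℂ (L ≃ₐ[K] L) W), σ.IsIrreducible →
      InCls σ ∧ OccursIn (StarkP.aboveSet K L S) σ → EXRx.Good S σ := by
    intro W _ _ _ σ hσ h
    obtain ⟨h1, h2⟩ := OPHx.good_class K L S Θ hΘ W σ hσ (OPLx.inClass_of σ h.1)
    exact ⟨h.2, h1, Θ, hΘ, h2⟩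
  refine ⟨Θ, hΘ, fun V _ _ _ ρ hρ => ⟨fun hq => ?_, fun hre => ?_⟩⟩
  · exact hex V ρ hq fun W _ _ _ σ hσ hs => key W σ hσ (hρ W σ hσ hs)
  · refine hex (V × Module.Dual ℂ V) (ρ.prod ρ.dual) (fun g => ?_) (fun W _ _ _ σ hσ hsub => ?_)
    · obtain ⟨q, hq⟩ := hre g
      refine ⟨2 * q, ?_⟩
      rw [char_prod, EXRx.char_inv, Complex.add_conj, hq]
      push_cast
      ring
    · rcases EXRx.con_prod' ρ σ hσ hsub with h1 | h1
      · exact key W σ hσ (hρ W σ hσ h1)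
      · exact EXRx.good_dual S σ hσ (key _ σ.dual (ZDUx.dual_irr σ hσ)
          (hρ _ σ.dual (ZDUx.dual_irr σ hσ) (EXRx.sub_of_dual ρ σ h1)))

section Step

variable (K L N : Type) [Field K] [NumberField K] [Field L] [NumberField L] [Field N]
  [NumberField N] [Algebra K L] [Algebra K N] [Algebra L N] [IsScalarTower K L N] [IsGalois K L]
  [IsGalois K N]

/-- The step for one representation. -/
theorem ex_step (hRI : Stmt_WRI) (hRA : Stmt_WRA) (hRS : Stmt_WRS)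
    (S : Finset (HeightOneSpectrum (𝓞 K)))
    (Θ : ((L → ℝ) →₀ ℂ) →ₗ[ℂ] ((L → ℝ) →₀ ℂ)) (Θ₀ Θ' : ((N → ℝ) →₀ ℂ) →ₗ[ℂ] ((N → ℝ) →₀ ℂ))
    (hΘ : IsTheta K (StarkP.aboveSet K L S) Θ) (hΘ' : IsTheta K (StarkP.aboveSet K N S) Θ')
    (hext : Extends (algebraMap L N) (StarkP.aboveSet K L S) (StarkP.aboveSet K N S) Θ Θ')
    (hag : ∀ x ∈ StarkP.XC N (StarkP.aboveSet K N S),
      (∑ δ : N ≃ₐ[L] N, StarkP.act (δ : N ≃+* N) x) = 0 → Θ' x = Θ₀ x)
    (V V₀ V₁ : Type) [AddCommGroup V] [Module ℂ V] [Module.Finite ℂ V] [AddCommGroup V₀]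
    [Module ℂ V₀] [Module.Finite ℂ V₀] [AddCommGroup V₁] [Module ℂ V₁] [Module.Finite ℂ V₁]
    (ρ : Representation ℂ (N ≃ₐ[K] N) V) (ρ₀ : Representation ℂ (L ≃ₐ[K] L) V₀)
    (ρ₁ : Representation ℂ (N ≃ₐ[K] N) V₁)
    (hch : ∀ g, ρ.character g =
      ρ₀.character (AlgEquiv.restrictNormalHom L g) + ρ₁.character g)
    (hinv : ∀ v : V₁, (∀ δ : N ≃ₐ[K] N, AlgEquiv.restrictNormalHom L δ = (1 : L ≃ₐ[K] L) →
      ρ₁ δ v = v) → v = 0)
    (h0 : Ex K L S Θ ρ₀) (h1 : Ex K N S Θ₀ ρ₁) : Ex K N S Θ' ρ := by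
  obtain ⟨hsum, hmul, htr, hinf⟩ := hRS
  obtain ⟨F₀, hF₀, hR₀⟩ := h0
  obtain ⟨F₁, hF₁, hR₁⟩ := h1
  have hR : StarkP.Reg (StarkP.aboveSet K N S) ρ Θ' =
      StarkP.Reg (StarkP.aboveSet K L S) ρ₀ Θ * StarkP.Reg (StarkP.aboveSet K N S) ρ₁ Θ₀ := by
    have e1 := hsum K N S Θ' hΘ' V V₀ V₁ ρ (ρ₀.comp (AlgEquiv.restrictNormalHom L)) ρ₁ hch
    have e2 := hRI K L N S Θ Θ' hΘ hΘ' hext V₀ ρ₀
    have e3 := hRA K L N S Θ' Θ₀ hag V₁ ρ₁ hinv
    exact e1.trans (congrArg₂ (· * ·) e2 e3)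
  have hF₀' := (hinf K L N S V₀ ρ₀ F₀).2 hF₀
  have hF := hmul K N S ρ.character _ ρ₁.character F₀ F₁ hch hF₀' hF₁
  refine ⟨fun z => F₀ z * F₁ z, hF, ?_⟩
  rw [hR, hR₀, hR₁]
  exact (htr K N S ρ.character _ ρ₁.character _ F₀ F₁ hch hF hF₀' hF₁).symm

/-- The contragredient of a representation without invariants. -/
theorem dual_inv {G V : Type} [Group G] [Fintype G] [AddCommGroup V] [Module ℂ V]
    (P : G → Prop) (hmul : ∀ a b, P a → P b → P (a * b)) (hinv' : ∀ a, P a → P a⁻¹)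
    (h1 : P 1) (ρ : Representation ℂ G V)
    (hinv : ∀ v : V, (∀ δ : G, P δ → ρ δ v = v) → v = 0) (v : V × Module.Dual ℂ V)
    (hv : ∀ δ : G, P δ → (ρ.prod ρ.dual) δ v = v) : v = 0 := by
  have e1 : v.1 = 0 := hinv v.1 fun δ hδ => congrArg Prod.fst (hv δ hδ)
  have e2 : ∀ δ : G, P δ → ρ.dual δ v.2 = v.2 := fun δ hδ => congrArg Prod.snd (hv δ hδ)
  have e3 : v.2 = 0 := by
    refine LinearMap.ext fun w => ?_
    have e4 : (∑ δ : G with P δ, ρ δ w) = 0 := by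
      refine hinv _ fun ε hε => ?_
      rw [map_sum]
      refine Finset.sum_bij' (fun δ _ => ε * δ) (fun δ _ => ε⁻¹ * δ) ?_ ?_ ?_ ?_ ?_
      · intro δ hδ
        rw [Finset.mem_filter] at hδ ⊢
        exact ⟨Finset.mem_univ _, hmul _ _ hε hδ.2⟩
      · intro δ hδ
        rw [Finset.mem_filter] at hδ ⊢
        exact ⟨Finset.mem_univ _, hmul _ _ (hinv' _ hε) hδ.2⟩
      · intro δ _
        exact inv_mul_cancel_left ε δ
      · intro δ _
        exact mul_inv_cancel_left ε δ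
      · intro δ _
        rw [map_mul]
        rfl
    have e5 : ∀ δ : G, P δ → v.2 (ρ δ w) = v.2 w := by
      intro δ hδ
      have e6 := LinearMap.congr_fun (e2 δ⁻¹ (hinv' δ hδ)) w
      rw [Representation.dual_apply, inv_inv, Module.Dual.transpose_apply,
        LinearMap.comp_apply] at e6
      exact e6
    have e7 := congrArg v.2 e4
    rw [map_sum, map_zero] at e7
    have e8 : ∑ δ : G with P δ, v.2 (ρ δ w) = ∑ δ : G with P δ, v.2 w :=
      Finset.sum_congr rfl fun δ hδ => e5 δ (Finset.mem_filter.1 hδ).2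
    rw [e8, Finset.sum_const, nsmul_eq_mul] at e7
    rcases mul_eq_zero.1 e7 with e9 | e9
    · exfalso
      rw [Nat.cast_eq_zero, Finset.card_eq_zero] at e9
      have : (1 : G) ∈ Finset.univ.filter P := Finset.mem_filter.2 ⟨Finset.mem_univ _, h1⟩
      rw [e9] at this
      exact absurd this (Finset.notMem_empty _)
    · exact e9
  exact Prod.ext e1 e3

/-- Extension of a good `Θ`. -/
theorem good_ext (hEX : Stmt_WEX) (hRI : Stmt_WRI) (hRA : Stmt_WRA) (hRS : Stmt_WRS)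
    (hOC : Stmt_WOC) (hDC : Stmt_WDC) (hCL : Stmt_WCL) (S : Finset (HeightOneSpectrum (𝓞 K)))
    (Θ : ((L → ℝ) →₀ ℂ) →ₗ[ℂ] ((L → ℝ) →₀ ℂ)) (h : GoodT K L S Θ) :
    ∃ Θ' : ((N → ℝ) →₀ ℂ) →ₗ[ℂ] ((N → ℝ) →₀ ℂ), GoodT K N S Θ' ∧
      Extends (algebraMap L N) (StarkP.aboveSet K L S) (StarkP.aboveSet K N S) Θ Θ' := by
  obtain ⟨Θ₀, h₀⟩ := good_exists K N S
  obtain ⟨Θ', hΘ', hext, hag⟩ := hEX K L N S Θ Θ₀ h.1 h₀.1
  refine ⟨Θ', ⟨hΘ', fun V _ _ _ ρ hρ => ?_⟩, hext⟩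
  have hp : Function.Surjective (AlgEquiv.restrictNormalHom L : (N ≃ₐ[K] N) →* (L ≃ₐ[K] L)) :=
    AlgEquiv.restrictNormalHom_surjective N
  obtain ⟨V₀, V₁, i1, i2, i3, i4, i5, i6, ρ₀, ρ₁, hch, hs0, hs1, hinv, hrat, hre⟩ :=
    hDC (N ≃ₐ[K] N) (L ≃ₐ[K] L) (AlgEquiv.restrictNormalHom L) hp V ρ
  have hcon0 : ∀ (W : Type) [AddCommGroup W] [Module ℂ W] [Module.Finite ℂ W]
        (σ : Representation ℂ (L ≃ₐ[K] L) W), σ.IsIrreducible → IsSub σ ρ₀ →
        InCls σ ∧ OccursIn (StarkP.aboveSet K L S) σ := by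
    intro W _ _ _ σ hσ hs
    have h1 := hρ W (σ.comp (AlgEquiv.restrictNormalHom L))
      (NSYx.irr_comp σ _ hp hσ) (sub_trans (sub_comp _ hs) hs0)
    exact ⟨(hCL _ _ _ hp W σ).1 h1.1, (hOC K L N S W σ).1 h1.2⟩
  have hcon1 : ∀ (W : Type) [AddCommGroup W] [Module ℂ W] [Module.Finite ℂ W]
        (σ : Representation ℂ (N ≃ₐ[K] N) W), σ.IsIrreducible → IsSub σ ρ₁ →
        InCls σ ∧ OccursIn (StarkP.aboveSet K N S) σ :=
    fun W _ _ _ σ hσ hs => hρ W σ hσ (sub_trans hs hs1)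
  constructor
  · intro hq
    obtain ⟨hq0, hq1⟩ := hrat hq
    exact ex_step K L N hRI hRA hRS S Θ Θ₀ Θ' h.1 hΘ' hext hag V V₀ V₁ ρ ρ₀ ρ₁ hch hinv
      ((h.2 V₀ ρ₀ hcon0).1 hq0) ((h₀.2 V₁ ρ₁ hcon1).1 hq1)
  · intro hq
    obtain ⟨hq0, hq1⟩ := hre hq
    refine ex_step K L N hRI hRA hRS S Θ Θ₀ Θ' h.1 hΘ' hext hag (V × Module.Dual ℂ V)
      (V₀ × Module.Dual ℂ V₀) (V₁ × Module.Dual ℂ V₁) (ρ.prod ρ.dual) (ρ₀.prod ρ₀.dual)
      (ρ₁.prod ρ₁.dual) (fun g => ?_) (fun v hv => ?_)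
      ((h.2 V₀ ρ₀ hcon0).2 hq0) ((h₀.2 V₁ ρ₁ hcon1).2 hq1)
    · rw [char_prod, char_prod, char_prod, hch, hch, map_inv]
      ring
    · exact dual_inv (fun δ : N ≃ₐ[K] N => AlgEquiv.restrictNormalHom L δ = (1 : L ≃ₐ[K] L))
        (fun a b ha hb => by rw [map_mul, ha, hb, one_mul])
        (fun a ha => by rw [map_inv, ha, inv_one]) (map_one _) ρ₁ hinv v hv

omit [NumberField K] [NumberField L] [NumberField N] [IsGalois K N] in
theorem prod_comp {V : Type} [AddCommGroup V] [Module ℂ V] (ρ : Representation ℂ (L ≃ₐ[K] L) V) :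
    Representation.prod (ρ.comp (AlgEquiv.restrictNormalHom L : (N ≃ₐ[K] N) →* _))
      (Representation.dual (ρ.comp (AlgEquiv.restrictNormalHom L : (N ≃ₐ[K] N) →* _))) =
    (ρ.prod ρ.dual).comp (AlgEquiv.restrictNormalHom L : (N ≃ₐ[K] N) →* _) := by
  refine MonoidHom.ext fun g => LinearMap.ext fun v => ?_
  have h1 : Representation.dual (ρ.comp (AlgEquiv.restrictNormalHom L : (N ≃ₐ[K] N) →* _)) g =
      ρ.dual (AlgEquiv.restrictNormalHom L g) := by
    rw [Representation.dual_apply, Representation.dual_apply, ← map_inv]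
    rfl
  refine Prod.ext rfl ?_
  exact LinearMap.congr_fun h1 v.2

/-- Descent of a good `Θ`. -/
theorem good_desc (hDE : Stmt_WDE) (hRI : Stmt_WRI) (hRS : Stmt_WRS)
    (hOC : Stmt_WOC) (hCL : Stmt_WCL) (S : Finset (HeightOneSpectrum (𝓞 K)))
    (Θ' : ((N → ℝ) →₀ ℂ) →ₗ[ℂ] ((N → ℝ) →₀ ℂ)) (h : GoodT K N S Θ') :
    ∃ Θ : ((L → ℝ) →₀ ℂ) →ₗ[ℂ] ((L → ℝ) →₀ ℂ), GoodT K L S Θ ∧
      Extends (algebraMap L N) (StarkP.aboveSet K L S) (StarkP.aboveSet K N S) Θ Θ' := by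
  obtain ⟨Θ, hΘ, hext⟩ := hDE K L N S Θ' h.1
  obtain ⟨-, -, -, hinf⟩ := hRS
  refine ⟨Θ, ⟨hΘ, fun V _ _ _ ρ hρ => ?_⟩, hext⟩
  have hp : Function.Surjective (AlgEquiv.restrictNormalHom L : (N ≃ₐ[K] N) →* (L ≃ₐ[K] L)) :=
    AlgEquiv.restrictNormalHom_surjective N
  have h1 := h.2 V (ρ.comp (AlgEquiv.restrictNormalHom L)) fun W _ _ _ σ hσ hs => by
    obtain ⟨τ, hτ, hsub, rfl⟩ := sub_infl _ hp ρ σ hσ hs
    obtain ⟨h2, h3⟩ := hρ W τ hτ hsub
    exact ⟨(hCL _ _ _ hp W τ).2 h2, (hOC K L N S W τ).2 h3⟩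
  constructor
  · intro hq
    obtain ⟨F, hF, hF'⟩ := h1.1 fun g => hq (AlgEquiv.restrictNormalHom L g)
    exact ⟨F, (hinf K L N S V ρ F).1 hF, (hRI K L N S Θ Θ' hΘ h.1 hext V ρ).symm.trans hF'⟩
  · intro hq
    obtain ⟨F, hF, hF'⟩ := h1.2 fun g => hq (AlgEquiv.restrictNormalHom L g)
    rw [prod_comp] at hF hF'
    exact ⟨F, (hinf K L N S (V × Module.Dual ℂ V) (ρ.prod ρ.dual) F).1 hF,
      (hRI K L N S Θ Θ' hΘ h.1 hext (V × Module.Dual ℂ V) (ρ.prod ρ.dual)).symm.trans hF'⟩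

end Step

/-! ### The tower -/

theorem lift_cancel (K L N M : Type) [Field K] [NumberField K] [Field L] [NumberField L] [Field N]
    [NumberField N] [Field M] [NumberField M] [Algebra K L] [Algebra K N] [Algebra K M]
    (j : L →ₐ[K] N) (k : N →ₐ[K] M) (S : Finset (HeightOneSpectrum (𝓞 K)))
    (y : (L → ℝ) →₀ ℂ) (z : (N → ℝ) →₀ ℂ) (w : (M → ℝ) →₀ ℂ)
    (h1 : Lift ((k.comp j : L →ₐ[K] M) : L →+* M) (StarkP.aboveSet K L S) (StarkP.aboveSet K M S)
      y w)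
    (h2 : Lift (k : N →+* M) (StarkP.aboveSet K N S) (StarkP.aboveSet K M S) z w) :
    Lift (j : L →+* N) (StarkP.aboveSet K L S) (StarkP.aboveSet K N S) y z := by
  let : Algebra N M := (k : N →+* M).toAlgebra
  have : IsScalarTower K N M := IsScalarTower.of_algebraMap_eq fun x => (k.commutes x).symm
  intro a ha b hb n hn
  obtain ⟨c, hc, hcb⟩ := (IOT.dat K N M S).surj hb
  rw [Set.Finite.mem_toFinset] at hc
  obtain ⟨-, hm, hspec⟩ := IOT.blp_spec N (IOT.placeSet_sub M _ hc)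
  have hcb' : (IOT.blp N c).1 = b := hcb
  rw [hcb'] at hspec
  have e1 := h2 b hb c hc (IOT.blp N c).2 hspec
  have e2 := h1 a ha c hc (n * (IOT.blp N c).2) fun x => by
    have h3 : c (algebraMap N M (j x)) = b (j x) ^ (IOT.blp N c).2 := hspec (j x)
    have h4 : b (j x) = a x ^ n := hn x
    rw [h4, ← pow_mul] at h3
    exact h3
  rw [e1] at e2
  have hm0 : ((IOT.blp N c).2 : ℂ) ≠ 0 := Nat.cast_ne_zero.2 hm.ne'
  refine mul_left_cancel₀ hm0 (e2.trans ?_)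
  push_cast
  ring

/-- The finite Galois extensions of `K` in the algebraic closure. -/
abbrev Idx (K : Type) [Field K] : Type :=
  {L : IntermediateField K (AlgebraicClosure K) // FiniteDimensional K L ∧ IsGalois K L}

theorem nf {K : Type} [Field K] [NumberField K] (i : Idx K) : NumberField i.1 := by
  have := i.2.1
  have : CharZero i.1 := charZero_of_injective_algebraMap (algebraMap K i.1).injective
  exact NumberField.of_module_finite K i.1

end OPWx

open OPWx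

/-- The printed theorem, from the modules. -/
theorem mainW_of (hIO : Stmt_WIO) (hTR : Stmt_WTR) (hEX : Stmt_WEX) (hDE : Stmt_WDE)
    (hRI : Stmt_WRI) (hRA : Stmt_WRA) (hRS : Stmt_WRS) (hOC : Stmt_WOC) (hDC : Stmt_WDC)
    (hCL : Stmt_WCL) (hLM : Stmt_WLM) (hCO : Stmt_WCO)
    (K : Type) [Field K] [NumberField K] (S : Finset (HeightOneSpectrum (𝓞 K))) :
    ∃ Θ : ∀ L : IntermediateField K (AlgebraicClosure K),
      ((L → ℝ) →₀ ℂ) →ₗ[ℂ] ((L → ℝ) →₀ ℂ),
      (∀ (L N : IntermediateField K (AlgebraicClosure K)) [NumberField L] [NumberField N]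
        [IsGalois K L] [IsGalois K N] (h : L ≤ N),
        Extends (IntermediateField.inclusion h : L →+* N) (StarkP.aboveSet K L S)
          (StarkP.aboveSet K N S) (Θ L) (Θ N)) ∧
      ∀ (L : IntermediateField K (AlgebraicClosure K)) [NumberField L] [IsGalois K L],
        IsTheta K (StarkP.aboveSet K L S) (Θ L) ∧
        ∀ (V : Type) [AddCommGroup V] [Module ℂ V] [Module.Finite ℂ V]
          (ρ : Representation ℂ (L ≃ₐ[K] L) V),
          (∀ (W : Type) [AddCommGroup W] [Module ℂ W] [Module.Finite ℂ W]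
            (σ : Representation ℂ (L ≃ₐ[K] L) W), σ.IsIrreducible → IsSub σ ρ →
            InCls σ ∧ (OccursIn (StarkP.aboveSet K L S) σ ∨
              (StarkP.SplitPlace K (StarkP.aboveSet K L S) ∧ ∃ g, σ g ≠ 1))) →
          ((∀ g, ∃ q : ℚ, ρ.character g = (q : ℂ)) → ∃ F : ℂ → ℂ,
            StarkP.IsArtinL ρ.character S F ∧
            StarkP.Reg (StarkP.aboveSet K L S) ρ (Θ L) = meromorphicTrailingCoeffAt F 0) ∧
          (((∀ g, ∃ q : ℚ, (ρ.character g).re = (q : ℝ)) ∨ (∀ g, ρ g ^ 6 = 1)) →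
            ∀ F : ℂ → ℂ, StarkP.IsArtinL ρ.character S F →
            ‖StarkP.Reg (StarkP.aboveSet K L S) ρ (Θ L)‖ = ‖meromorphicTrailingCoeffAt F 0‖) := by
  let D : Idx K → Type := fun i => ((i.1 → ℝ) →₀ ℂ) →ₗ[ℂ] ((i.1 → ℝ) →₀ ℂ)
  let P : ∀ i, D i → Prop := fun i Θ => @GoodT K i.1 _ _ _ (nf i) _ S Θ
  let C : ∀ i j : Idx K, D i → D j → Prop := fun i j Θ Θ' => ∀ h : i.1 ≤ j.1,
    @Extends i.1 j.1 _ (nf i) _ (nf j) (IntermediateField.inclusion h : i.1 →+* j.1)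
      (StarkP.aboveSet K i.1 S) (StarkP.aboveSet K j.1 S) Θ Θ'
  obtain ⟨c, hc, hcof⟩ := hCO K
  -- existence of images
  have hex : ∀ (i j : Idx K) (h : i.1 ≤ j.1) (y : (i.1 → ℝ) →₀ ℂ),
      y ∈ @StarkP.XC i.1 _ (nf i) (StarkP.aboveSet K i.1 S) →
      ∃ z ∈ @StarkP.XC j.1 _ (nf j) (StarkP.aboveSet K j.1 S),
        @Lift i.1 j.1 _ (nf i) _ (nf j) (IntermediateField.inclusion h : i.1 →+* j.1)
          (StarkP.aboveSet K i.1 S) (StarkP.aboveSet K j.1 S) y z := by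
    intro i j h y hy
    have := nf i
    have := nf j
    have := i.2.2
    have := j.2.2
    let : Algebra i.1 j.1 := (IntermediateField.inclusion h : i.1 →+* j.1).toAlgebra
    have : IsScalarTower K i.1 j.1 := IsScalarTower.of_algebraMap_eq fun x => rfl
    obtain ⟨ι, -, -, -, -, -, -, hι⟩ := hIO K i.1 j.1 S
    let y' : XC i.1 (aboveSet K i.1 S) := ⟨y, hy⟩
    exact ⟨(ι y').val, (ι y').2, (hι y' (ι y')).2 rfl⟩
  have huni : ∀ (i j : Idx K) (h : i.1 ≤ j.1) (y : (i.1 → ℝ) →₀ ℂ) (z z' : (j.1 → ℝ) →₀ ℂ),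
      y ∈ @StarkP.XC i.1 _ (nf i) (StarkP.aboveSet K i.1 S) →
      z ∈ @StarkP.XC j.1 _ (nf j) (StarkP.aboveSet K j.1 S) →
      z' ∈ @StarkP.XC j.1 _ (nf j) (StarkP.aboveSet K j.1 S) →
      @Lift i.1 j.1 _ (nf i) _ (nf j) (IntermediateField.inclusion h : i.1 →+* j.1)
          (StarkP.aboveSet K i.1 S) (StarkP.aboveSet K j.1 S) y z →
      @Lift i.1 j.1 _ (nf i) _ (nf j) (IntermediateField.inclusion h : i.1 →+* j.1)
          (StarkP.aboveSet K i.1 S) (StarkP.aboveSet K j.1 S) y z' → z = z' := by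
    intro i j h y z z' hy hz hz' hl hl'
    have := nf i
    have := nf j
    have := i.2.2
    have := j.2.2
    let : Algebra i.1 j.1 := (IntermediateField.inclusion h : i.1 →+* j.1).toAlgebra
    have : IsScalarTower K i.1 j.1 := IsScalarTower.of_algebraMap_eq fun x => rfl
    obtain ⟨ι, -, -, -, -, -, -, hι⟩ := hIO K i.1 j.1 S
    let y1 : XC i.1 (aboveSet K i.1 S) := ⟨y, hy⟩
    let z1 : XC j.1 (aboveSet K j.1 S) := ⟨z, hz⟩
    let z2 : XC j.1 (aboveSet K j.1 S) := ⟨z', hz'⟩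
    have e1 : z1 = ι y1 := (hι y1 z1).1 hl
    have e2 : z2 = ι y1 := (hι y1 z2).1 hl'
    exact congrArg Subtype.val (e1.trans e2.symm)
  obtain ⟨d, hP, hC⟩ := hLM (Idx K) D P C c hc hcof
    (by
      intro i j k x y z hij hjk h1 h2 h a ha b hb hab
      obtain ⟨u, hu, hau⟩ := hex i j hij a ha
      obtain ⟨v, hv, huv⟩ := hex j k hjk u hu
      have := nf i
      have := nf j
      have := nf k
      have h3 := hTR K i.1 j.1 k.1 (IntermediateField.inclusion hij)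
        (IntermediateField.inclusion hjk) S a u v hau huv
      have h4 : b = v := huni i k h a b v ha hb hv hab h3
      subst h4
      have h5 := h1 hij a ha u hu hau
      have h6 := h2 hjk u hu b hb huv
      exact hTR K i.1 j.1 k.1 (IntermediateField.inclusion hij)
        (IntermediateField.inclusion hjk) S (x a) (y u) (z b) h5 h6)
    (by
      intro i j k x y z hij hjk h1 h2 h a ha u hu hau
      obtain ⟨v, hv, huv⟩ := hex j k hjk u hu
      have := nf i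
      have := nf j
      have := nf k
      have h3 := hTR K i.1 j.1 k.1 (IntermediateField.inclusion hij)
        (IntermediateField.inclusion hjk) S a u v hau huv
      have h5 := h1 (hij.trans hjk) a ha v hv h3
      have h6 := h2 hjk u hu v hv huv
      exact lift_cancel K i.1 j.1 k.1 (IntermediateField.inclusion hij)
        (IntermediateField.inclusion hjk) S (x a) (y u) (z v) h5 h6)
    (by
      intro i
      have := nf i
      have := i.2.2
      exact good_exists K i.1 S)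
    (by
      intro i j x hij hx
      have := nf i
      have := nf j
      have := i.2.2
      have := j.2.2
      let : Algebra i.1 j.1 := (IntermediateField.inclusion hij : i.1 →+* j.1).toAlgebra
      have : IsScalarTower K i.1 j.1 := IsScalarTower.of_algebraMap_eq fun x => rfl
      obtain ⟨y, hy, hxy⟩ := good_ext K i.1 j.1 hEX hRI hRA hRS hOC hDC hCL S x hx
      exact ⟨y, hy, fun _ => hxy⟩)
    (by
      intro i j y hij hy
      have := nf i
      have := nf j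
      have := i.2.2
      have := j.2.2
      let : Algebra i.1 j.1 := (IntermediateField.inclusion hij : i.1 →+* j.1).toAlgebra
      have : IsScalarTower K i.1 j.1 := IsScalarTower.of_algebraMap_eq fun x => rfl
      obtain ⟨x, hx, hxy⟩ := good_desc K i.1 j.1 hDE hRI hRS hOC hCL S y hy
      exact ⟨x, hx, fun _ => hxy⟩)
  let Θ : ∀ L : IntermediateField K (AlgebraicClosure K),
      ((L → ℝ) →₀ ℂ) →ₗ[ℂ] ((L → ℝ) →₀ ℂ) := fun L =>
    if h : FiniteDimensional K L ∧ IsGalois K L then d ⟨L, h⟩ else 0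
  have hΘ : ∀ i : Idx K, Θ i.1 = d i := fun i => dif_pos i.2
  have hfd : ∀ (L : IntermediateField K (AlgebraicClosure K)) [NumberField L],
      FiniteDimensional K L := by
    intro L _
    exact Module.Finite.of_restrictScalars_finite ℚ K L
  refine ⟨Θ, ?_, ?_⟩
  · intro L N _ _ _ _ h
    let i : Idx K := ⟨L, hfd L, inferInstance⟩
    let j : Idx K := ⟨N, hfd N, inferInstance⟩
    have h1 := hC i j h h
    rw [← hΘ i, ← hΘ j] at h1
    exact h1
  · intro L _ _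
    let i : Idx K := ⟨L, hfd L, inferInstance⟩
    have h1 : GoodT K L S (d i) := hP i
    rw [← hΘ i] at h1
    refine ⟨h1.1, fun V _ _ _ ρ hρ => ?_⟩
    have h2 := h1.2 V ρ fun W _ _ _ σ hσ hs => ⟨(hρ W σ hσ hs).1,
      (hρ W σ hσ hs).2.elim id fun h3 => occ_of_split_above K L S h3.1 σ hσ h3.2⟩
    refine ⟨h2.1, fun hre F hF => ?_⟩
    obtain ⟨A, hA, hA'⟩ := h2.2 (hre.elim id fun h6 => EXQx.re_rational ρ 6 (Or.inr rfl) h6)
    refine EXRx.abs_exact' S (Θ L) h1.1 V ρ A ?_ hA' F hF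
    have h3 : (ρ.prod ρ.dual).character =
        fun g => ρ.character g + (starRingEnd ℂ) (ρ.character g) :=
      funext fun g => by rw [char_prod, EXRx.char_inv]
    rw [← h3]
    exact hA

end StarkC.ABS
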