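import Pool.Agent.ABS.StTowerC
import Pool.Agent.ABS.WEXA

/-!
# Project ABS, module WZD (helper53): descent of `Θ` to an intermediate field
-/

set_option autoImplicit false
set_option linter.unusedSectionVars false

open NumberField IsDedekindDomain
open scoped Classical

namespace StarkC.ABS

open StarkP (IsSub Lift Extends IsTheta)

namespace WZDx

variable {K F N : Type} [Field K] [NumberField K] [Field F] [NumberField F] [Field N]
  [NumberField N] [Algebra K F] [Algebra K N] [Algebra F N] [IsScalarTower K F N]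

/-- The finite set of the primes of `F` above `S`. -/
theorem above_self (S : Set (HeightOneSpectrum (𝓞 K))) :
    StarkP.aboveSet F F (StarkP.aboveSet K F S) = StarkP.aboveSet K F S := by
  ext w
  have h1 : w.under (𝓞 F) = w := by
    apply HeightOneSpectrum.ext
    exact Ideal.comap_id _
  show w.under (𝓞 F) ∈ StarkP.aboveSet K F S ↔ _
  rw [h1]

theorem above_above (S : Set (HeightOneSpectrum (𝓞 K))) :
    StarkP.aboveSet F N (StarkP.aboveSet K F S) = StarkP.aboveSet K N S := by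
  ext w
  show (w.under (𝓞 F)).under (𝓞 K) ∈ S ↔ w.under (𝓞 K) ∈ S
  rw [UDE.under_under' (K := K) (L := F) w]

theorem act_apply {M : Type} [Field M] [NumberField M] (g : M ≃+* M) (x : (M → ℝ) →₀ ℂ)
    (b : M → ℝ) : StarkP.act g x b = x (b ∘ g) :=
  IOT.mapDomain_comp_apply g x b

theorem stab' (S : Set (HeightOneSpectrum (𝓞 K))) (g : F ≃ₐ[K] F) {a : F → ℝ}
    (ha : a ∈ StarkP.placeSet F (StarkP.aboveSet K F S)) :
    a ∘ (g : F ≃+* F) ∈ StarkP.placeSet F (StarkP.aboveSet K F S) :=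
  IOT.stab K S g ha

theorem act_mem (S : Finset (HeightOneSpectrum (𝓞 K))) (g : F ≃ₐ[K] F) {x : (F → ℝ) →₀ ℂ}
    (hx : x ∈ StarkP.XC F (StarkP.aboveSet K F S)) :
    StarkP.act (g : F ≃+* F) x ∈ StarkP.XC F (StarkP.aboveSet K F S) :=
  (repX K _ (STB_thm K F (S : Set (HeightOneSpectrum (𝓞 K)))) g ⟨x, hx⟩).2

theorem theta_mem {S : Finset (HeightOneSpectrum (𝓞 K))} {Θ : ((F → ℝ) →₀ ℂ) →ₗ[ℂ] ((F → ℝ) →₀ ℂ)}
    (h : IsTheta K (StarkP.aboveSet K F S) Θ) {x : (F → ℝ) →₀ ℂ}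
    (hx : x ∈ StarkP.XC F (StarkP.aboveSet K F S)) :
    Θ x ∈ StarkP.XC F (StarkP.aboveSet K F S) := by
  obtain ⟨φ, A, -, hA⟩ := StarkB.exists_phiTheta (STB_thm K F S)
    (StarkC.INFL.finite_aboveSet S.finite_toSet)
    (StarkB.actU_mem' (S : Set (HeightOneSpectrum (𝓞 K)))) Θ h
  have h1 := hA ⟨x, hx⟩
  have h2 : Θ x = (A ⟨x, hx⟩).val := h1
  rw [h2]
  exact (A ⟨x, hx⟩).2

/-- `Lift` commutes with the actions. -/
theorem lift_act (S : Set (HeightOneSpectrum (𝓞 K))) (g : F ≃ₐ[K] F) (h : N ≃ₐ[K] N)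
    (hgh : ∀ x : F, h (algebraMap F N x) = algebraMap F N (g x)) {y : (F → ℝ) →₀ ℂ}
    {z : (N → ℝ) →₀ ℂ}
    (hyz : Lift (algebraMap F N) (StarkP.aboveSet K F S) (StarkP.aboveSet K N S) y z) :
    Lift (algebraMap F N) (StarkP.aboveSet K F S) (StarkP.aboveSet K N S)
      (StarkP.act (g : F ≃+* F) y) (StarkP.act (h : N ≃+* N) z) := by
  intro a ha b hb n hn
  rw [act_apply, act_apply]
  refine hyz _ (stab' S g ha) _ (stab' S h hb) n fun x => ?_
  show b (h (algebraMap F N x)) = a (g x) ^ n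
  rw [hgh]
  exact hn _

/-- Existence, uniqueness and injectivity of `Lift`. -/
theorem lift_ex (S : Finset (HeightOneSpectrum (𝓞 K))) {y : (F → ℝ) →₀ ℂ}
    (hy : y ∈ StarkP.XC F (StarkP.aboveSet K F S)) :
    ∃ z ∈ StarkP.XC N (StarkP.aboveSet K N S),
      Lift (algebraMap F N) (StarkP.aboveSet K F S) (StarkP.aboveSet K N S) y z := by
  refine ⟨(WEXx.iC K F N S ⟨y, hy⟩).val, (WEXx.iC K F N S ⟨y, hy⟩).2, ?_⟩
  exact (WEXx.lift_iff (⟨y, hy⟩ : XC F (aboveSet K F (S : Set (HeightOneSpectrum (𝓞 K)))))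
    (WEXx.iC K F N S ⟨y, hy⟩)).2 rfl

theorem lift_inj (S : Finset (HeightOneSpectrum (𝓞 K))) {y y' : (F → ℝ) →₀ ℂ}
    (hy : y ∈ StarkP.XC F (StarkP.aboveSet K F S)) (hy' : y' ∈ StarkP.XC F (StarkP.aboveSet K F S))
    {z : (N → ℝ) →₀ ℂ} (hz : z ∈ StarkP.XC N (StarkP.aboveSet K N S))
    (h : Lift (algebraMap F N) (StarkP.aboveSet K F S) (StarkP.aboveSet K N S) y z)
    (h' : Lift (algebraMap F N) (StarkP.aboveSet K F S) (StarkP.aboveSet K N S) y' z) :
    y = y' := by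
  have h1 := (WEXx.lift_iff (⟨y, hy⟩ : XC F (aboveSet K F (S : Set (HeightOneSpectrum (𝓞 K)))))
    (⟨z, hz⟩ : XC N (aboveSet K N (S : Set (HeightOneSpectrum (𝓞 K)))))).1 h
  have h2 := (WEXx.lift_iff (⟨y', hy'⟩ : XC F (aboveSet K F (S : Set (HeightOneSpectrum (𝓞 K)))))
    (⟨z, hz⟩ : XC N (aboveSet K N (S : Set (HeightOneSpectrum (𝓞 K)))))).1 h'
  exact congrArg Subtype.val (WEXx.iC_inj K F N S (h1.symm.trans h2))

theorem main (K F N : Type) [Field K] [NumberField K] [Field F] [NumberField F] [Field N]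
    [NumberField N] [Algebra K F] [Algebra K N] [Algebra F N] [IsScalarTower K F N] [IsGalois K N]
    (S : Finset (HeightOneSpectrum (𝓞 K)))
    (Θ' : ((N → ℝ) →₀ ℂ) →ₗ[ℂ] ((N → ℝ) →₀ ℂ)) (hΘ' : IsTheta K (StarkP.aboveSet K N S) Θ') :
    ∃ Θ : ((F → ℝ) →₀ ℂ) →ₗ[ℂ] ((F → ℝ) →₀ ℂ), IsTheta K (StarkP.aboveSet K F S) Θ ∧
      Extends (algebraMap F N) (StarkP.aboveSet K F S) (StarkP.aboveSet K N S) Θ Θ' := by
  have hfin : (StarkP.aboveSet K F (S : Set (HeightOneSpectrum (𝓞 K)))).Finite :=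
    StarkC.INFL.finite_aboveSet S.finite_toSet
  let S' : Finset (HeightOneSpectrum (𝓞 F)) := hfin.toFinset
  have hS' : (S' : Set (HeightOneSpectrum (𝓞 F))) = StarkP.aboveSet K F S := hfin.coe_toFinset
  have e1 : StarkP.aboveSet F F (S' : Set (HeightOneSpectrum (𝓞 F))) = StarkP.aboveSet K F S := by
    rw [hS', above_self]
  have e2 : StarkP.aboveSet F N (S' : Set (HeightOneSpectrum (𝓞 F))) = StarkP.aboveSet K N S := by
    rw [hS', above_above]
  have : IsGalois F N := IsGalois.tower_top_of_isGalois K F N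
  have h1 : IsTheta F (StarkP.aboveSet F N (S' : Set (HeightOneSpectrum (𝓞 F)))) Θ' := by
    rw [e2]
    refine ⟨fun g x hx => ?_, hΘ'.2⟩
    exact hΘ'.1 (g.restrictScalars K) x hx
  obtain ⟨Θ, h2, h3⟩ := WEXx.dsc_amb (K := F) (L := F) (N := N) (S := S') Θ' h1
  change IsTheta F (StarkP.aboveSet F F (S' : Set (HeightOneSpectrum (𝓞 F)))) Θ at h2
  change Extends (algebraMap F N) (StarkP.aboveSet F F (S' : Set (HeightOneSpectrum (𝓞 F))))
    (StarkP.aboveSet F N (S' : Set (HeightOneSpectrum (𝓞 F)))) Θ Θ' at h3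
  have hmem : ∀ x ∈ StarkP.XC F (StarkP.aboveSet K F S), Θ x ∈ StarkP.XC F (StarkP.aboveSet K F S) := by
    intro x hx
    have := theta_mem h2 (x := x) (by rw [e1]; exact hx)
    rwa [e1] at this
  rw [e1] at h2 h3
  rw [e2] at h3
  refine ⟨Θ, ⟨fun g y hy => ?_, h2.2⟩, h3⟩
  obtain ⟨h, hh⟩ : ∃ h : N ≃ₐ[K] N, ∀ x : F, h (algebraMap F N x) = algebraMap F N (g x) := by
    exact ⟨g.liftNormal N, fun x => g.liftNormal_commutes N x⟩
  obtain ⟨z, hz, hyz⟩ := lift_ex (N := N) S hy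
  have h4 := h3 y hy z hz hyz
  have h5 := lift_act (S : Set (HeightOneSpectrum (𝓞 K))) g h hh h4
  have h6 := h3 _ (act_mem S g hy) _ (act_mem S h hz) (lift_act _ g h hh hyz)
  rw [hΘ'.1 h z hz] at h6
  exact lift_inj S (hmem _ (act_mem S g hy)) (act_mem S g (hmem _ hy))
    (act_mem S h (theta_mem hΘ' hz)) h6 h5

end WZDx

theorem WZD_thm : Stmt_WZD := by
  intro K F N _ _ _ _ _ _ _ _ _ _ _ S Θ' hΘ'
  exact WZDx.main K F N S Θ' hΘ'

end StarkC.ABS
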