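import Pool.Agent.ABS.StTowerC
import Pool.Agent.ABS.WIO
import Pool.Agent.Stark.IND

/-!
# Project ABS, module WZI: images under `Lift` for an intermediate field which is not
necessarily Galois over `K` (helper37)
-/

set_option autoImplicit false

open NumberField IsDedekindDomain
open scoped Classical

namespace StarkC.ABS

open StarkP (IsSub Lift Extends IsTheta)

namespace WZIx

theorem under_eq {K L : Type} [Field K] [NumberField K] [Field L] [NumberField L] [Algebra K L]
    (w : HeightOneSpectrum (𝓞 L)) (v : HeightOneSpectrum (𝓞 K))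
    (h : ∀ x : 𝓞 K, algebraMap (𝓞 K) (𝓞 L) x ∈ w.asIdeal ↔ x ∈ v.asIdeal) :
    w.under (𝓞 K) = v := by
  apply HeightOneSpectrum.ext
  ext x
  exact h x

/-- The set of all primes of `F` above a set of primes of `F` is the set itself. -/
theorem aboveSet_self (F : Type) [Field F] [NumberField F] (S : Set (HeightOneSpectrum (𝓞 F))) :
    StarkC.aboveSet F F S = S := by
  ext w
  rw [StarkC.aboveSet, Set.mem_ofPred_eq, under_eq (K := F) (L := F) w w]
  intro x
  have key : ∀ y : 𝓞 F, y = x → (y ∈ w.asIdeal ↔ x ∈ w.asIdeal) := by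
    intro y hy
    rw [hy]
  apply key
  ext
  rfl

theorem under_under (K F N : Type) [Field K] [NumberField K] [Field F] [NumberField F]
    [Field N] [NumberField N] [Algebra K F] [Algebra K N] [Algebra F N] [IsScalarTower K F N]
    (w : HeightOneSpectrum (𝓞 N)) : (w.under (𝓞 F)).under (𝓞 K) = w.under (𝓞 K) := by
  apply HeightOneSpectrum.ext
  simp only [HeightOneSpectrum.under_asIdeal]
  exact Ideal.under_under _

/-- The primes of `N` above the primes of `F` above the primes in `S`. -/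
theorem aboveSet_tower (K F N : Type) [Field K] [NumberField K] [Field F] [NumberField F]
    [Field N] [NumberField N] [Algebra K F] [Algebra K N] [Algebra F N] [IsScalarTower K F N]
    (S : Set (HeightOneSpectrum (𝓞 K))) :
    StarkC.aboveSet F N (StarkC.aboveSet K F S) = StarkC.aboveSet K N S := by
  ext w
  show (w.under (𝓞 F)).under (𝓞 K) ∈ S ↔ w.under (𝓞 K) ∈ S
  rw [under_under]

/-- The statement for the fields `F, F, N`. -/
theorem base (F N : Type) [Field F] [NumberField F] [Field N] [NumberField N] [Algebra F N]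
    [IsGalois F N] (S : Finset (HeightOneSpectrum (𝓞 F))) (T : Set (HeightOneSpectrum (𝓞 F)))
    (T' : Set (HeightOneSpectrum (𝓞 N)))
    (hT : StarkC.aboveSet F F (S : Set (HeightOneSpectrum (𝓞 F))) = T)
    (hT' : StarkC.aboveSet F N (S : Set (HeightOneSpectrum (𝓞 F))) = T') :
    (∀ y ∈ StarkP.XC F T, ∃ z ∈ StarkP.XC N T', Lift (algebraMap F N) T T' y z) ∧
    ∀ y ∈ StarkP.XC F T, ∀ z ∈ StarkP.XC N T', ∀ z' ∈ StarkP.XC N T',
      Lift (algebraMap F N) T T' y z → Lift (algebraMap F N) T T' y z' → z = z' := by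
  subst hT hT'
  obtain ⟨ι, -, -, -, -, -, -, hι⟩ := WIO_thm F F N S
  refine ⟨fun y hy => ?_, fun y hy z hz z' hz' h h' => ?_⟩
  · exact ⟨(ι ⟨y, hy⟩).val, (ι ⟨y, hy⟩).2, (hι ⟨y, hy⟩ (ι ⟨y, hy⟩)).2 rfl⟩
  · have h1 := (hι ⟨y, hy⟩ ⟨z, hz⟩).1 h
    have h2 := (hι ⟨y, hy⟩ ⟨z', hz'⟩).1 h'
    exact congrArg Subtype.val (h1.trans h2.symm)

end WZIx

open WZIx in
theorem WZI_thm : Stmt_WZI := by
  intro K F N _ _ _ _ _ _ _ _ _ _ _ S
  have hFN : IsGalois F N := IsGalois.tower_top_of_isGalois K F N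
  have hfin : (StarkC.aboveSet K F (S : Set (HeightOneSpectrum (𝓞 K)))).Finite :=
    StarkC.IND.aboveSet_finite (K := K) (N := F) (S : Set (HeightOneSpectrum (𝓞 K))) S.finite_toSet
  have e0 : ((hfin.toFinset : Finset (HeightOneSpectrum (𝓞 F))) : Set (HeightOneSpectrum (𝓞 F))) =
      StarkC.aboveSet K F (S : Set (HeightOneSpectrum (𝓞 K))) := hfin.coe_toFinset
  have e1 : StarkC.aboveSet F F (hfin.toFinset : Set (HeightOneSpectrum (𝓞 F))) =
      StarkC.aboveSet K F (S : Set (HeightOneSpectrum (𝓞 K))) := by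
    rw [e0, aboveSet_self]
  have e2 : StarkC.aboveSet F N (hfin.toFinset : Set (HeightOneSpectrum (𝓞 F))) =
      StarkC.aboveSet K N (S : Set (HeightOneSpectrum (𝓞 K))) := by
    rw [e0, aboveSet_tower]
  exact base F N hfin.toFinset _ _ e1 e2

end StarkC.ABS
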