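import Pool.Agent.ABS.StTowerC
import Pool.Agent.ABS.FINF
import Pool.Agent.ABS.LFB
import Pool.Agent.ABS.LAST

/-!
# Project ABS, module WZL: the leading coefficient of the Artin series of a permutation character
-/

set_option autoImplicit false

open NumberField IsDedekindDomain
open scoped Classical

namespace StarkC.ABS

namespace WZLx

/-- The series of the permutation character on the cosets of `Gal(L/F)`. -/
theorem fix_eq {K F L : Type} [Field K] [NumberField K] [Field F] [NumberField F] [Field L]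
    [NumberField L] [Algebra K F] [Algebra K L] [Algebra F L] [IsScalarTower K F L]
    [IsGalois K L] [IsGalois F L] (s : ℂ) (hs : 1 < s.re) :
    logL (indFun (fixK K F L) (fun _ => 1)) (∅ : Set (HeightOneSpectrum (𝓞 K))) s =
      logL (K := F) (L := L) (fun _ => 1) ∅ s := by
  have h := DOWNL.logL_eq (E := K) (K := F) (N := L) ALLT.lb ALLT.lc 1
    (∅ : Set (HeightOneSpectrum (𝓞 K))) (∅ : Set (HeightOneSpectrum (𝓞 F))) rfl s hs
  have e1 : (fun g : L ≃ₐ[F] L => (((1 : (L ≃ₐ[F] L) →* ℂˣ) g : ℂˣ) : ℂ)) = fun _ => 1 := by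
    funext g
    rfl
  have e2 : indFun (fixK K F L) (extK K (1 : (L ≃ₐ[F] L) →* ℂˣ)) =
      indFun (fixK K F L) (fun _ => 1) := by
    apply LFBx.indFun_congr
    intro g hg
    unfold extK
    rw [dif_pos hg]
    rfl
  rw [e1, e2] at h
  exact h.symm

theorem inf_eq' {F L : Type} [Field F] [NumberField F] [Field L] [NumberField L] [Algebra F L]
    [IsGalois F L] (s : ℂ) :
    logL (K := F) (L := L) (fun _ => 1) ∅ s = logL (K := F) (L := F) (fun _ => 1) ∅ s := by
  unfold logL
  refine tsum_congr fun p => ?_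
  have h := LINF_thm F F L (fun _ => 1) (fun _ _ => rfl) p.1 (p.2 + 1)
  rw [h]

end WZLx

open WZLx in
theorem WZL_thm : Stmt_WZL := by
  intro K F L _ _ _ _ _ _ _ _ _ _ _ χ f hχ hf
  have hFL : IsGalois F L := IsGalois.tower_top_of_isGalois K F L
  obtain ⟨Z, hZ, hZ0⟩ := FINFx.zeta F
  rw [← hZ0]
  refine LASTx.trail_unique hf.1 hZ.1 fun s hs => ?_
  have hχ' : χ = indFun (fixK K F L) (fun _ => 1) := funext hχ
  have h1 : f s = Complex.exp (logL χ (∅ : Set (HeightOneSpectrum (𝓞 K))) s) := by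
    have h2 := hf.2 s hs
    rw [Finset.coe_empty] at h2
    exact h2
  rw [h1, hZ.2 s hs, hχ', fix_eq s hs, inf_eq']

end StarkC.ABS
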