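import Pool.Agent.ABS.StTowerC
import Pool.Agent.ABS.PARTA

/-!
# Project ABS, module WZX: the index and the regulator (helper6)
-/

set_option autoImplicit false

open NumberField IsDedekindDomain
open scoped Classical

namespace StarkC.ABS

namespace WZXb

theorem idx {M : Type} [AddCommGroup M] (A B C : AddSubgroup M) (N : ℕ) (hN : 0 < N)
    (hCA : C ≤ A) (hCB : C ≤ B) (h1 : C.relIndex A = N) :
    ((A.relIndex B : ℚ) / (B.relIndex A : ℚ)) * N = C.relIndex B := by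
  have e1 : C.relIndex (A ⊓ B) * (A ⊓ B).relIndex B = C.relIndex B :=
    AddSubgroup.relIndex_mul_relIndex C (A ⊓ B) B (le_inf hCA hCB) inf_le_right
  have e2 : C.relIndex (A ⊓ B) * (A ⊓ B).relIndex A = C.relIndex A :=
    AddSubgroup.relIndex_mul_relIndex C (A ⊓ B) A (le_inf hCA hCB) inf_le_left
  rw [AddSubgroup.inf_relIndex_right] at e1
  rw [AddSubgroup.inf_relIndex_left, h1] at e2
  have hb : (B.relIndex A : ℚ) ≠ 0 := by
    intro h
    rw [Nat.cast_eq_zero] at h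
    rw [h, mul_zero] at e2
    omega
  rw [← e1, ← e2]
  push_cast
  field_simp

section

variable (F : Type) [Field F] [NumberField F]

/-- The embedding of `V F`. -/
noncomputable def kap : _root_.ABS.V F →+ ((F → ℝ) →₀ ℂ) where
  toFun x := _root_.ABS.iot F (x : InfinitePlace F → ℝ)
  map_zero' := by
    have h := (_root_.ABS.IOT_thm F).1 0 0
    rw [add_zero] at h
    show _root_.ABS.iot F 0 = 0
    exact left_eq_add.1 h
  map_add' x y := (_root_.ABS.IOT_thm F).1 _ _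

theorem kap_apply (x : _root_.ABS.V F) (a : F → ℝ) : kap F x a =
    ∑ w, if _root_.StarkP.infAbs F w = a then (((x : InfinitePlace F → ℝ) w : ℝ) : ℂ) else 0 := by
  show _root_.ABS.iot F (x : InfinitePlace F → ℝ) a = _
  unfold _root_.ABS.iot
  rw [Finsupp.finsetSum_apply]
  exact Finset.sum_congr rfl fun w _ => Finsupp.single_apply

theorem kap_inj : Function.Injective (kap F) := by
  intro x y h
  have h1 := (_root_.ABS.IOT_thm F).2.2.1 ((x : InfinitePlace F → ℝ) - y) 0 (by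
    have h2 := (_root_.ABS.IOT_thm F).1 ((x : InfinitePlace F → ℝ) - y) y
    rw [sub_add_cancel] at h2
    have h3 : _root_.ABS.iot F (x : InfinitePlace F → ℝ) = _root_.ABS.iot F y := h
    have h4 : _root_.ABS.iot F 0 = 0 := (kap F).map_zero
    rw [h4, smul_zero, add_zero]
    rw [h3] at h2
    exact right_eq_add.1 h2)
  exact Subtype.ext (sub_eq_zero.1 h1.1)

theorem infAbs_inj : Function.Injective (StarkP.infAbs F) := _root_.ABS.IOT.infAbs_inj F

theorem kap_at (x : _root_.ABS.V F) (w : InfinitePlace F) :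
    kap F x (StarkP.infAbs F w) = (((x : InfinitePlace F → ℝ) w : ℝ) : ℂ) := by
  rw [kap_apply, Finset.sum_eq_single w]
  · rw [if_pos rfl]
  · intro w' _ hw'
    rw [if_neg fun h => hw' (infAbs_inj F h)]
  · exact fun h => absurd (Finset.mem_univ _) h

theorem kap_off (x : _root_.ABS.V F) (a : F → ℝ) (ha : a ∉ StarkP.placeSet F ∅) :
    kap F x a = 0 := by
  rw [kap_apply]
  refine Finset.sum_eq_zero fun w _ => if_neg fun h => ha ?_
  exact Or.inl ⟨w, h⟩

theorem XInt_eq : StarkP.XInt F = (_root_.ABS.X F).map (kap F) := by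
  have h : {x | x ∈ StarkP.XC F ∅ ∧ ∀ a, ∃ n : ℤ, x a = (n : ℂ)} =
      (((_root_.ABS.X F).map (kap F) : AddSubgroup ((F → ℝ) →₀ ℂ)) : Set ((F → ℝ) →₀ ℂ)) := by
    ext x
    constructor
    · rintro ⟨h1, h2⟩
      have h3 : x ∈ StarkP.XQ F ∅ := ⟨h1, fun a => by
        obtain ⟨n, hn⟩ := h2 a
        exact ⟨n, by rw [hn]; push_cast; rfl⟩⟩
      obtain ⟨v, hv, -, hx⟩ := ((_root_.ABS.IOT_thm F).2.2.2.2.2.1 x).1 h3
      refine ⟨⟨v, hv⟩, fun w => ?_, hx.symm⟩
      obtain ⟨n, hn⟩ := h2 (StarkP.infAbs F w)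
      refine ⟨n, ?_⟩
      have h4 := kap_at F ⟨v, hv⟩ w
      have h5 : kap F ⟨v, hv⟩ = x := hx.symm
      rw [h5, hn] at h4
      exact_mod_cast h4.symm
    · rintro ⟨v, hv, rfl⟩
      refine ⟨(_root_.ABS.IOT_thm F).2.2.2.1 v v.2, fun a => ?_⟩
      by_cases ha : a ∈ StarkP.placeSet F ∅
      · rcases ha with ⟨w, rfl⟩ | ⟨w, hw, -⟩
        · obtain ⟨n, hn⟩ := hv w
          refine ⟨n, ?_⟩
          rw [kap_at, hn]
          push_cast
          rfl
        · exact absurd hw (Set.notMem_empty _)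
      · exact ⟨0, by rw [kap_off F v a ha]; simp⟩
  unfold StarkP.XInt
  rw [h, AddSubgroup.closure_eq]

theorem LamInt_eq : StarkP.LamInt F = (_root_.ABS.Lam F).map (kap F) := by
  have key : ∀ (u : (𝓞 F)ˣ) (a : F → ℝ), kap F (_root_.ABS.lam F u) a =
      if a ∈ StarkP.placeSet F ∅ then -((Real.log (a ((u : 𝓞 F) : F)) : ℝ) : ℂ) else 0 := by
    intro u a
    by_cases ha : a ∈ StarkP.placeSet F ∅
    · rw [if_pos ha]
      rcases ha with ⟨w, rfl⟩ | ⟨w, hw, -⟩
      · rw [kap_at]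
        have h1 : (_root_.ABS.lam F u : InfinitePlace F → ℝ) w =
            -((w.mult : ℝ) * Real.log (w (u : F))) := rfl
        have h2 : StarkP.infAbs F w ((u : 𝓞 F) : F) = (w ((u : 𝓞 F) : F)) ^ w.mult := rfl
        rw [h1, h2, Real.log_pow]
        push_cast
        rfl
      · exact absurd hw (Set.notMem_empty _)
    · rw [if_neg ha, kap_off F _ a ha]
  have h : {x : (F → ℝ) →₀ ℂ | ∃ u : (𝓞 F)ˣ, ∀ a : F → ℝ, x a =
      if a ∈ StarkP.placeSet F ∅ then -((Real.log (a ((u : 𝓞 F) : F)) : ℝ) : ℂ) else 0} =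
      (((_root_.ABS.Lam F).map (kap F) : AddSubgroup ((F → ℝ) →₀ ℂ)) : Set ((F → ℝ) →₀ ℂ)) := by
    ext x
    constructor
    · rintro ⟨u, hu⟩
      refine ⟨_root_.ABS.lam F u, ⟨u, rfl⟩, ?_⟩
      ext a
      rw [key, hu a]
    · rintro ⟨v, ⟨u, rfl⟩, rfl⟩
      exact ⟨u, fun a => key u a⟩
  unfold StarkP.LamInt
  rw [h, AddSubgroup.closure_eq]

end

end WZXb

open WZXb

theorem WZXb_thm : Stmt_WZX := by
  intro F _ _ Θ hΘ
  have hT : StarkP.IsTheta F (∅ : Set (HeightOneSpectrum (𝓞 F))) Θ := by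
    refine ⟨fun g x _ => ?_, hΘ⟩
    have hg : (g : F ≃+* F) = RingEquiv.refl F := by
      ext y
      exact g.commutes y
    have h1 : ∀ y : (F → ℝ) →₀ ℂ, StarkP.act (g : F ≃+* F) y = y := by
      intro y
      rw [hg]
      show Finsupp.mapDomain (fun a : F → ℝ => a ∘ (RingEquiv.refl F).symm) y = y
      exact Finsupp.mapDomain_id
    rw [h1, h1]
  obtain ⟨T, hT1, hT2, -, hT4⟩ := _root_.ABS.TRE_thm _root_.ABS.IOT_thm _root_.ABS.LMU_thm
    _root_.ABS.SPN_thm F F Θ hT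
  obtain ⟨i1, i2, i3, i4, i5, -, -⟩ := _root_.ABS.IOT_thm F
  obtain ⟨m, hm0, hm⟩ := _root_.ABS.MUL.one F T hT4
  -- the determinant
  have hd1 : StarkP.detOn Θ (StarkP.XC F ∅) = ((LinearMap.det T : ℝ) : ℂ) := by
    refine _root_.ABS.DTC_thm _ Θ _ (_root_.ABS.V F)
      (fun x => _root_.ABS.iot F (x : InfinitePlace F → ℝ)) T
      (fun x y => i1 _ _) (fun c x => i2 _ _) (fun x => i4 _ x.2) (fun w hw => ?_)
      (fun x y h => ?_) hT1
    · obtain ⟨x, hx, y, hy, h⟩ := i5 w hw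
      exact ⟨⟨x, hx⟩, ⟨y, hy⟩, h⟩
    · obtain ⟨h1, h2⟩ := i3 _ _ h
      exact ⟨Subtype.ext h1, Subtype.ext h2⟩
  obtain ⟨-, h2⟩ := _root_.ABS.REG1_thm F T m hm0 hT2 hm
  have h3 := _root_.ABS.XI_thm F m hm0
  -- the lattices
  set A := (_root_.ABS.X F).map T.toAddMonoidHom with hA
  set C := (_root_.ABS.X F).map ((m : ℝ) • T).toAddMonoidHom with hC
  have hC' : C = ((_root_.ABS.X F).map
      ((m : ℝ) • (LinearMap.id : _root_.ABS.V F →ₗ[ℝ] _root_.ABS.V F)).toAddMonoidHom).map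
        T.toAddMonoidHom := by
    rw [hC, AddSubgroup.map_map]
    congr 1
    ext1 x
    show (m : ℝ) • T x = T ((m : ℝ) • x)
    rw [map_smul]
  have h4 : C.relIndex A = m ^ Units.rank F := by
    rw [hC', hA, AddSubgroup.relIndex_map_map_of_injective _ _ hT2, h3]
  have hCA : C ≤ A := by
    rintro _ ⟨x, hx, rfl⟩
    have h5 : ((m : ℝ) • T).toAddMonoidHom x = m • (T.toAddMonoidHom x) := by
      show (m : ℝ) • T x = m • T x
      rw [Nat.cast_smul_eq_nsmul]
    rw [h5]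
    exact AddSubgroup.nsmul_mem _ (AddSubgroup.mem_map_of_mem _ hx) _
  have hCB : C ≤ _root_.ABS.Lam F := by
    rintro _ ⟨x, hx, rfl⟩
    exact hm x hx
  have h6 := idx A (_root_.ABS.Lam F) C _ (pow_pos hm0 _) hCA hCB h4
  have hmap : (StarkP.XInt F).map Θ.toAddMonoidHom = A.map (kap F) := by
    rw [XInt_eq, hA, AddSubgroup.map_map, AddSubgroup.map_map]
    congr 1
    ext1 x
    exact hT1 x
  have h7 : StarkP.unitIndex Θ = (A.relIndex (_root_.ABS.Lam F) : ℚ) /
      ((_root_.ABS.Lam F).relIndex A : ℚ) := by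
    unfold StarkP.unitIndex
    rw [hmap, LamInt_eq, AddSubgroup.relIndex_map_map_of_injective _ _ (kap_inj F),
      AddSubgroup.relIndex_map_map_of_injective _ _ (kap_inj F)]
  rw [← h7] at h6
  have h8 : (StarkP.unitIndex Θ : ℝ) * (m : ℝ) ^ Units.rank F =
      (C.relIndex (_root_.ABS.Lam F) : ℝ) := by
    have := congrArg (fun q : ℚ => (q : ℝ)) h6
    push_cast at this
    exact this
  rw [← h8] at h2
  have h9 : ((m : ℝ) ^ Units.rank F) ≠ 0 := pow_ne_zero _ (Nat.cast_ne_zero.2 hm0.ne')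
  rw [hd1, Complex.norm_real, Real.norm_eq_abs]
  refine mul_right_cancel₀ h9 (h2.trans ?_)
  ring

end StarkC.ABS
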