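import Pool.Agent.ABS.StTowerC
import Pool.Agent.ABS.WZXb

/-!
# Project ABS, module WZN: fields with one infinite place
-/

set_option autoImplicit false

open NumberField IsDedekindDomain
open scoped Classical

namespace StarkC.ABS

namespace WZNb

theorem reg_one (K : Type) [Field K] [NumberField K] (h : Fintype.card (InfinitePlace K) = 1) :
    Units.regulator K = 1 := by
  have hr : Units.rank K = 0 := by
    unfold Units.rank
    omega
  rw [Units.regulator_eq_regOfFamily_fundSystem, Units.regOfFamily_eq_det']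
  have : IsEmpty (Fin (Units.rank K)) := by
    rw [hr]
    exact Fin.isEmpty
  have h2 : IsEmpty {w : InfinitePlace K // w ≠ Units.dirichletUnitTheorem.w₀} := by
    refine ⟨fun w => w.2 ?_⟩
    exact (Fintype.card_eq_one_iff.1 h).elim fun a ha => (ha _).trans (ha _).symm
  simp

theorem xc_zero (K : Type) [Field K] [NumberField K] (h : Fintype.card (InfinitePlace K) = 1) :
    ∀ x ∈ StarkP.XC K ∅, x = 0 := by
  intro z hz
  obtain ⟨x, hx, y, hy, hxy⟩ := (_root_.ABS.IOT_thm K).2.2.2.2.1 z hz
  have h0 : ∀ v ∈ _root_.ABS.V K, v = 0 := by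
    intro v hv
    have h1 : ∑ w, v w = 0 := hv
    obtain ⟨a, ha⟩ := Fintype.card_eq_one_iff.1 h
    have h2 : ∀ w, v w = 0 := by
      intro w
      rw [Finset.sum_eq_single w] at h1
      · exact h1
      · intro b _ hb
        exact absurd ((ha b).trans (ha w).symm) hb
      · exact fun hh => absurd (Finset.mem_univ _) hh
    exact funext h2
  rw [hxy, h0 x hx, h0 y hy]
  have h4 : _root_.ABS.iot K 0 = 0 := (WZXb.kap K).map_zero
  rw [h4, smul_zero, add_zero]

theorem card_one (K : Type) [Field K] [NumberField K] (h : Module.finrank ℚ K = 1) :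
    Fintype.card (InfinitePlace K) = 1 ∧ ¬ ∃ v : InfinitePlace K, v.IsComplex := by
  have h1 := InfinitePlace.nrComplexPlaces_eq_zero_of_finrank_eq_one h
  have h2 := InfinitePlace.nrRealPlaces_eq_one_of_finrank_eq_one h
  constructor
  · rw [InfinitePlace.card_eq_nrRealPlaces_add_nrComplexPlaces, h1, h2]
  · rintro ⟨v, hv⟩
    rw [InfinitePlace.nrComplexPlaces, Fintype.card_eq_zero_iff] at h1
    exact h1.elim ⟨v, hv⟩

theorem class_one (K : Type) [Field K] [NumberField K] (h : Module.finrank ℚ K = 1) :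
    classNumber K = 1 := by
  rw [classNumber_eq_one_iff]
  have hb : Function.Bijective (algebraMap ℚ K) := by
    refine ⟨(algebraMap ℚ K).injective, ?_⟩
    have h1 : (⊥ : Subalgebra ℚ K) = ⊤ := Subalgebra.bot_eq_top_iff_finrank_eq_one.2 h
    intro x
    have hx : x ∈ (⊥ : Subalgebra ℚ K) := h1 ▸ Algebra.mem_top
    exact Algebra.mem_bot.1 hx
  let e : ℚ ≃+* K := RingEquiv.ofBijective (algebraMap ℚ K) hb
  have hP : IsPrincipalIdealRing (𝓞 ℚ) := by
    rw [← classNumber_eq_one_iff]
    exact Rat.classNumber_eq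
  exact IsPrincipalIdealRing.of_surjective (RingOfIntegers.mapRingEquiv e : 𝓞 ℚ ≃+* 𝓞 K)
    (RingOfIntegers.mapRingEquiv e).surjective

end WZNb

open WZNb

theorem WZNb_thm : Stmt_WZN := by
  refine ⟨fun K _ _ h => ⟨xc_zero K h, reg_one K h⟩, fun K _ _ h => ?_, ?_⟩
  · exact ⟨class_one K h, Units.torsionOrder_eq_two_of_odd_finrank (by rw [h]; exact odd_one),
      (card_one K h).1, (card_one K h).2⟩
  · intro K F L _ _ _ _ _ _ _ _ _ _ _ hK hodd
    have : FiniteDimensional K L := Module.Finite.of_restrictScalars_finite ℚ K L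
    have h1 : Module.finrank ℚ L = Nat.card (L ≃ₐ[K] L) := by
      rw [IsGalois.card_aut_eq_finrank, ← Module.finrank_mul_finrank ℚ K L, hK, one_mul]
    have h2 : Odd (Module.finrank ℚ L) := h1 ▸ hodd
    rw [← Module.finrank_mul_finrank ℚ F L] at h2
    exact Units.torsionOrder_eq_two_of_odd_finrank (Nat.odd_mul.1 h2).1

end StarkC.ABS
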