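import Pool.Agent.ABS.StTowerC
import Pool.Agent.ABS.WIO
import Pool.Agent.ABS.WRI
import Pool.Agent.ABS.REGI
import Pool.Agent.StarkT.DOWN
import Pool.Agent.StarkT.DESC
import Pool.Agent.StarkT.ALLI

/-!
# Project ABS, module WZR: the regulator of the permutation representation on the cosets of
`Gal(L/F)` is the determinant for `F`
-/

set_option autoImplicit false

open NumberField IsDedekindDomain
open scoped Classical

namespace StarkC.ABS

open StarkP (IsSub Lift Extends IsTheta)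

namespace WZRx

theorem tower {K F L : Type} [Field K] [NumberField K] [Field F] [NumberField F] [Field L]
    [NumberField L] [Algebra K F] [Algebra K L] [Algebra F L] [IsScalarTower K F L]
    (S : Set (HeightOneSpectrum (𝓞 K))) :
    aboveSet F L (aboveSet K F S) = aboveSet K L S := by
  ext w
  show (w.under (𝓞 F)).under (𝓞 K) ∈ S ↔ w.under (𝓞 K) ∈ S
  rw [UDE.under_under']

theorem act_one {F : Type} [Field F] [NumberField F] (x : (F → ℝ) →₀ ℂ) :
    StarkP.act ((1 : F ≃ₐ[F] F) : F ≃+* F) x = x := by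
  show Finsupp.mapDomain (fun a : F → ℝ => a ∘ ((1 : F ≃ₐ[F] F) : F ≃+* F).symm) x = x
  have h : (fun a : F → ℝ => a ∘ ((1 : F ≃ₐ[F] F) : F ≃+* F).symm) = id := by
    funext a y
    rfl
  rw [h, Finsupp.mapDomain_id]

/-- For the trivial group the regulator of the trivial character is the determinant. -/
theorem reg_triv {F : Type} [Field F] [NumberField F] {T : Set (HeightOneSpectrum (𝓞 F))}
    (hTf : T.Finite) (hT : StableT F T) (Θ : ((F → ℝ) →₀ ℂ) →ₗ[ℂ] ((F → ℝ) →₀ ℂ))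
    (Θ0 : XC F T →ₗ[ℂ] XC F T) (h0 : ∀ x : XC F T, Θ x.val = (Θ0 x).val) :
    StarkP.Reg T (linRep (1 : (F ≃ₐ[F] F) →* ℂˣ)) Θ = StarkP.detOn Θ (StarkP.XC F T) := by
  have hinv : ∀ x : XC F T, x ∈ (repX F T hT).invariants := by
    intro x g
    rw [DESC.aut_eq_one F g, map_one]
    rfl
  have hc : ∀ g : F ≃ₐ[F] F, Θ0 ∘ₗ repX F T hT g = repX F T hT g ∘ₗ Θ0 := by
    intro g
    rw [DESC.aut_eq_one F g, map_one]
    rfl
  have hst : ∀ x ∈ (repX F T hT).invariants, Θ0 x ∈ (repX F T hT).invariants :=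
    fun x _ => hinv _
  have hW : ∀ x ∈ StarkP.XC F T, Θ x ∈ StarkP.XC F T := by
    intro x hx
    have h1 : Θ x = (Θ0 ⟨x, hx⟩).val := h0 ⟨x, hx⟩
    rw [h1]
    exact (Θ0 ⟨x, hx⟩).2
  have htop : (repX F T hT).invariants = ⊤ := by
    rw [eq_top_iff]
    intro x _
    exact hinv x
  rw [StarkB.Reg_eq (linRep (1 : (F ≃ₐ[F] F) →* ℂˣ)) Θ0 Θ h0,
    REGI_thm F F T hT Θ0 hTf hc hst]
  symm
  exact StarkB.detOn_eq (M := (repX F T hT).invariants) (N := (F → ℝ) →₀ ℂ) Θ (StarkP.XC F T) hW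
    (Θ0.restrict hst) (LinearEquiv.ofTop (repX F T hT).invariants htop) (fun x => h0 x.1)

end WZRx

open WZRx in
theorem WZR_thm : Stmt_WZR := by
  intro K F L _ _ _ _ _ _ _ _ _ _ _ S Θ Θ' hΘ hΘ' hE V _ _ _ ρ hρ
  have : IsGalois F L := IsGalois.tower_top_of_isGalois K F L
  have hfF : (aboveSet K F (S : Set (HeightOneSpectrum (𝓞 K)))).Finite :=
    IND.aboveSet_finite (K := K) (N := F) (S : Set (HeightOneSpectrum (𝓞 K))) S.finite_toSet
  have hfL : (aboveSet K L (S : Set (HeightOneSpectrum (𝓞 K)))).Finite :=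
    IND.aboveSet_finite (K := K) (N := L) (S : Set (HeightOneSpectrum (𝓞 K))) S.finite_toSet
  have hS' : ((hfF.toFinset : Finset (HeightOneSpectrum (𝓞 F))) :
      Set (HeightOneSpectrum (𝓞 F))) = aboveSet K F (S : Set (HeightOneSpectrum (𝓞 K))) :=
    Set.Finite.coe_toFinset _
  have e1 : aboveSet F F (hfF.toFinset : Set (HeightOneSpectrum (𝓞 F))) =
      aboveSet K F (S : Set (HeightOneSpectrum (𝓞 K))) := by
    rw [DESC.aboveSet_self, hS']
  have e2 : aboveSet F L (hfF.toFinset : Set (HeightOneSpectrum (𝓞 F))) =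
      aboveSet K L (S : Set (HeightOneSpectrum (𝓞 K))) := by
    rw [hS', tower]
  have t1 : IsTheta F (aboveSet F F (hfF.toFinset : Set (HeightOneSpectrum (𝓞 F)))) Θ := by
    rw [e1]
    refine ⟨fun g x _ => ?_, hΘ.2⟩
    rw [DESC.aut_eq_one F g, act_one, act_one]
  have t2 : IsTheta F (aboveSet F L (hfF.toFinset : Set (HeightOneSpectrum (𝓞 F)))) Θ' := by
    rw [e2]
    exact ⟨fun g x hx => hΘ'.1 (g.restrictScalars K) x hx, hΘ'.2⟩
  have t3 : Extends (algebraMap F L) (aboveSet F F (hfF.toFinset : Set (HeightOneSpectrum (𝓞 F))))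
      (aboveSet F L (hfF.toFinset : Set (HeightOneSpectrum (𝓞 F)))) Θ Θ' := by
    rw [e1, e2]
    exact hE
  have w := WRI_thm WIO_thm F F L hfF.toFinset Θ Θ' t1 t2 t3 ℂ
    (linRep (1 : (F ≃ₐ[F] F) →* ℂˣ))
  obtain ⟨Θ1, h1⟩ := WRIx.ex0 F F hfF.toFinset Θ t1
  have hTF : StableT F (aboveSet F F (hfF.toFinset : Set (HeightOneSpectrum (𝓞 F)))) :=
    STB_thm F F _
  have hfT : (aboveSet F F (hfF.toFinset : Set (HeightOneSpectrum (𝓞 F)))).Finite := by
    rw [e1]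
    exact hfF
  rw [reg_triv hfT hTF Θ Θ1 h1, DESC.linRep_comp, e1, e2] at w
  have hT : StableT K (aboveSet K L (S : Set (HeightOneSpectrum (𝓞 K)))) := STB_thm K L _
  obtain ⟨φ0, Θ0, hφ0, h0⟩ := StarkB.exists_phiTheta hT hfL
    (StarkB.actU_mem' (S : Set (HeightOneSpectrum (𝓞 K)))) Θ' hΘ'
  have hc := ALLT.thc K L _ hT φ0 Θ0 hfL hφ0
  have hb := ALLT.thb K L _ φ0 Θ0 hfL hφ0
  have r := DOWN.reg_eq (E := K) (K := F) (N := L) TRD_thm ALLT.rgt hfL hT Θ0 hb hc V ρ hρ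
  have a1 := StarkB.Reg_eq ρ Θ0 Θ' h0
  have a2 := StarkB.Reg_eq (linRep (1 : (L ≃ₐ[F] L) →* ℂˣ)) Θ0 Θ' h0
  exact a1.trans (r.trans (a2.symm.trans w))

end StarkC.ABS
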