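import Pool.Agent.ABS.OPL
import Pool.Agent.ABS.PDefsW

/-!
# Project ABS, part W (ONE `φ` over the algebraic closure): statements of the modules (helper6)

All modules prove `theorem X_thm : Stmt_X` in `namespace StarkC.ABS`, file `Pool/Agent/ABS/X.lean`,
importing `Pool.Agent.ABS.StTower` (auxiliary lemmas in `namespace StarkC.ABS.Xx`).
-/

set_option autoImplicit false

open NumberField IsDedekindDomain
open scoped Classical

namespace StarkC.ABS

open StarkP (InCls IsSub OccursIn Lift Extends IsTheta)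

/-! ### Places -/

/-- WIO: the map `ι` of `IOT_thm` with its explicit form (`StarkC.IOT.io`, `io_apply`, `blp_eq`,
`blp_spec` in Stark/IOT*.lean). -/
def Stmt_WIO : Prop :=
  ∀ (K L N : Type) [Field K] [NumberField K] [Field L] [NumberField L] [Field N] [NumberField N]
    [Algebra K L] [Algebra K N] [Algebra L N] [IsScalarTower K L N] [IsGalois K L] [IsGalois K N]
    (S : Finset (HeightOneSpectrum (𝓞 K))),
    ∃ ιC : XC L (aboveSet K L S) →ₗ[ℂ] XC N (aboveSet K N S),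
      Function.Injective ιC ∧
      (∀ (g : N ≃ₐ[K] N) (x y : XC L (aboveSet K L S)),
        y.val = actC (AlgEquiv.restrictNormalHom L g : L ≃+* L) x.val →
        (ιC y).val = actC (g : N ≃+* N) (ιC x).val) ∧
      (∀ x : XC N (aboveSet K N S),
        (∀ δ : N ≃ₐ[K] N, AlgEquiv.restrictNormalHom L δ = (1 : L ≃ₐ[K] L) →
          actC (δ : N ≃+* N) x.val = x.val) → ∃ y, ιC y = x) ∧
      (∀ x : XC N (aboveSet K N S),
        (∀ δ : N ≃ₐ[K] N, AlgEquiv.restrictNormalHom L δ = (1 : L ≃ₐ[K] L) →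
          actC (δ : N ≃+* N) x.val = x.val) → x.val ∈ StarkP.XQ N (aboveSet K N S) →
        ∃ y, ιC y = x ∧ y.val ∈ StarkP.XQ L (aboveSet K L S)) ∧
      (∀ y : XC L (aboveSet K L S), y.val ∈ StarkP.XQ L (aboveSet K L S) →
        (ιC y).val ∈ StarkP.XQ N (aboveSet K N S)) ∧
      (∀ y : XC L (aboveSet K L S), y.val ∈ StarkP.LamU L (aboveSet K L S) ↔
        (ιC y).val ∈ StarkP.LamU N (aboveSet K N S)) ∧
      ∀ (y : XC L (aboveSet K L S)) (z : XC N (aboveSet K N S)),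
        Lift (algebraMap L N) (aboveSet K L S) (aboveSet K N S) y.val z.val ↔ z = ιC y

/-- WTR: `Lift` is transitive. -/
def Stmt_WTR : Prop :=
  ∀ (K L N M : Type) [Field K] [NumberField K] [Field L] [NumberField L] [Field N] [NumberField N]
    [Field M] [NumberField M] [Algebra K L] [Algebra K N] [Algebra K M]
    (j : L →ₐ[K] N) (k : N →ₐ[K] M) (S : Finset (HeightOneSpectrum (𝓞 K)))
    (y : (L → ℝ) →₀ ℂ) (z : (N → ℝ) →₀ ℂ) (w : (M → ℝ) →₀ ℂ),
    Lift (j : L →+* N) (aboveSet K L S) (aboveSet K N S) y z →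
    Lift (k : N →+* M) (aboveSet K N S) (aboveSet K M S) z w →
    Lift ((k.comp j : L →ₐ[K] M) : L →+* M) (aboveSet K L S) (aboveSet K M S) y w

/-! ### The isomorphisms -/

/-- WEX (extension). -/
def Stmt_WEX : Prop :=
  ∀ (K L N : Type) [Field K] [NumberField K] [Field L] [NumberField L] [Field N] [NumberField N]
    [Algebra K L] [Algebra K N] [Algebra L N] [IsScalarTower K L N] [IsGalois K L] [IsGalois K N]
    (S : Finset (HeightOneSpectrum (𝓞 K)))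
    (Θ : ((L → ℝ) →₀ ℂ) →ₗ[ℂ] ((L → ℝ) →₀ ℂ)) (Θ₀ : ((N → ℝ) →₀ ℂ) →ₗ[ℂ] ((N → ℝ) →₀ ℂ)),
    IsTheta K (aboveSet K L S) Θ → IsTheta K (aboveSet K N S) Θ₀ →
    ∃ Θ' : ((N → ℝ) →₀ ℂ) →ₗ[ℂ] ((N → ℝ) →₀ ℂ), IsTheta K (aboveSet K N S) Θ' ∧
      Extends (algebraMap L N) (aboveSet K L S) (aboveSet K N S) Θ Θ' ∧
      ∀ x ∈ StarkP.XC N (aboveSet K N S),
        (∑ δ : N ≃ₐ[L] N, StarkP.act (δ : N ≃+* N) x) = 0 → Θ' x = Θ₀ x

/-- WDE (descent). -/
def Stmt_WDE : Prop :=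
  ∀ (K L N : Type) [Field K] [NumberField K] [Field L] [NumberField L] [Field N] [NumberField N]
    [Algebra K L] [Algebra K N] [Algebra L N] [IsScalarTower K L N] [IsGalois K L] [IsGalois K N]
    (S : Finset (HeightOneSpectrum (𝓞 K))) (Θ' : ((N → ℝ) →₀ ℂ) →ₗ[ℂ] ((N → ℝ) →₀ ℂ)),
    IsTheta K (aboveSet K N S) Θ' →
    ∃ Θ : ((L → ℝ) →₀ ℂ) →ₗ[ℂ] ((L → ℝ) →₀ ℂ), IsTheta K (aboveSet K L S) Θ ∧
      Extends (algebraMap L N) (aboveSet K L S) (aboveSet K N S) Θ Θ'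

/-! ### The regulator -/

/-- WRI: inflation (`StarkC.INFL.reg_eq` and the bridge Stark/PBridge*.lean). -/
def Stmt_WRI : Prop :=
  ∀ (K L N : Type) [Field K] [NumberField K] [Field L] [NumberField L] [Field N] [NumberField N]
    [Algebra K L] [Algebra K N] [Algebra L N] [IsScalarTower K L N] [IsGalois K L] [IsGalois K N]
    (S : Finset (HeightOneSpectrum (𝓞 K)))
    (Θ : ((L → ℝ) →₀ ℂ) →ₗ[ℂ] ((L → ℝ) →₀ ℂ)) (Θ' : ((N → ℝ) →₀ ℂ) →ₗ[ℂ] ((N → ℝ) →₀ ℂ)),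
    IsTheta K (aboveSet K L S) Θ → IsTheta K (aboveSet K N S) Θ' →
    Extends (algebraMap L N) (aboveSet K L S) (aboveSet K N S) Θ Θ' →
    ∀ (V : Type) [AddCommGroup V] [Module ℂ V] [Module.Finite ℂ V]
      (ρ : Representation ℂ (L ≃ₐ[K] L) V),
      StarkP.Reg (aboveSet K N S) (ρ.comp (AlgEquiv.restrictNormalHom L)) Θ' =
        StarkP.Reg (aboveSet K L S) ρ Θ

/-- WRA: the regulator of a representation without `Gal(N/L)`-invariants depends only on the values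
of `Θ` on the elements with trace zero. -/
def Stmt_WRA : Prop :=
  ∀ (K L N : Type) [Field K] [NumberField K] [Field L] [NumberField L] [Field N] [NumberField N]
    [Algebra K L] [Algebra K N] [Algebra L N] [IsScalarTower K L N] [IsGalois K L] [IsGalois K N]
    (S : Finset (HeightOneSpectrum (𝓞 K)))
    (Θ' Θ₀ : ((N → ℝ) →₀ ℂ) →ₗ[ℂ] ((N → ℝ) →₀ ℂ)),
    (∀ x ∈ StarkP.XC N (aboveSet K N S),
      (∑ δ : N ≃ₐ[L] N, StarkP.act (δ : N ≃+* N) x) = 0 → Θ' x = Θ₀ x) →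
    ∀ (V : Type) [AddCommGroup V] [Module ℂ V] [Module.Finite ℂ V]
      (ρ : Representation ℂ (N ≃ₐ[K] N) V),
      (∀ v : V, (∀ δ : N ≃ₐ[K] N, AlgEquiv.restrictNormalHom L δ = (1 : L ≃ₐ[K] L) → ρ δ v = v) →
        v = 0) →
      StarkP.Reg (aboveSet K N S) ρ Θ' = StarkP.Reg (aboveSet K N S) ρ Θ₀

/-- WRS: the regulator and the `L`-function of a sum (`LASTx.reg_sum`, `REGC_thm`,
`IND.logL_sum`, `LASTx.trail_unique`, `DBSx.artin_add`), and of an inflation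
(`PINFx.logL_infl`). -/
def Stmt_WRS : Prop :=
  (∀ (K L : Type) [Field K] [NumberField K] [Field L] [NumberField L] [Algebra K L] [IsGalois K L]
    (S : Finset (HeightOneSpectrum (𝓞 K))) (Θ : ((L → ℝ) →₀ ℂ) →ₗ[ℂ] ((L → ℝ) →₀ ℂ)),
    IsTheta K (aboveSet K L S) Θ →
    ∀ (V V₀ V₁ : Type) [AddCommGroup V] [Module ℂ V] [Module.Finite ℂ V] [AddCommGroup V₀]
      [Module ℂ V₀] [Module.Finite ℂ V₀] [AddCommGroup V₁] [Module ℂ V₁] [Module.Finite ℂ V₁]
      (ρ : Representation ℂ (L ≃ₐ[K] L) V) (ρ₀ : Representation ℂ (L ≃ₐ[K] L) V₀)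
      (ρ₁ : Representation ℂ (L ≃ₐ[K] L) V₁),
      (∀ g, ρ.character g = ρ₀.character g + ρ₁.character g) →
      StarkP.Reg (aboveSet K L S) ρ Θ =
        StarkP.Reg (aboveSet K L S) ρ₀ Θ * StarkP.Reg (aboveSet K L S) ρ₁ Θ) ∧
  (∀ (K L : Type) [Field K] [NumberField K] [Field L] [NumberField L] [Algebra K L] [IsGalois K L]
    (S : Finset (HeightOneSpectrum (𝓞 K))) (χ χ₀ χ₁ : (L ≃ₐ[K] L) → ℂ) (F₀ F₁ : ℂ → ℂ),
    (∀ g, χ g = χ₀ g + χ₁ g) →
    StarkP.IsArtinL χ₀ (S : Set (HeightOneSpectrum (𝓞 K))) F₀ →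
    StarkP.IsArtinL χ₁ (S : Set (HeightOneSpectrum (𝓞 K))) F₁ →
    StarkP.IsArtinL χ (S : Set (HeightOneSpectrum (𝓞 K))) (fun z => F₀ z * F₁ z)) ∧
  (∀ (K L : Type) [Field K] [NumberField K] [Field L] [NumberField L] [Algebra K L] [IsGalois K L]
    (S : Finset (HeightOneSpectrum (𝓞 K))) (χ χ₀ χ₁ : (L ≃ₐ[K] L) → ℂ) (F F₀ F₁ : ℂ → ℂ),
    (∀ g, χ g = χ₀ g + χ₁ g) →
    StarkP.IsArtinL χ (S : Set (HeightOneSpectrum (𝓞 K))) F →
    StarkP.IsArtinL χ₀ (S : Set (HeightOneSpectrum (𝓞 K))) F₀ →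
    StarkP.IsArtinL χ₁ (S : Set (HeightOneSpectrum (𝓞 K))) F₁ →
    meromorphicTrailingCoeffAt F 0 =
      meromorphicTrailingCoeffAt F₀ 0 * meromorphicTrailingCoeffAt F₁ 0) ∧
  ∀ (K L N : Type) [Field K] [NumberField K] [Field L] [NumberField L] [Field N] [NumberField N]
    [Algebra K L] [Algebra K N] [Algebra L N] [IsScalarTower K L N] [IsGalois K L] [IsGalois K N]
    (S : Finset (HeightOneSpectrum (𝓞 K))) (V : Type) [AddCommGroup V] [Module ℂ V]
    [Module.Finite ℂ V] (ρ : Representation ℂ (L ≃ₐ[K] L) V) (F : ℂ → ℂ),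
    StarkP.IsArtinL
      (Representation.character (ρ.comp (AlgEquiv.restrictNormalHom L : (N ≃ₐ[K] N) →* _)))
      (S : Set (HeightOneSpectrum (𝓞 K))) F ↔
    StarkP.IsArtinL ρ.character (S : Set (HeightOneSpectrum (𝓞 K))) F

/-- WOC: `OccursIn` and inflation. -/
def Stmt_WOC : Prop :=
  ∀ (K L N : Type) [Field K] [NumberField K] [Field L] [NumberField L] [Field N] [NumberField N]
    [Algebra K L] [Algebra K N] [Algebra L N] [IsScalarTower K L N] [IsGalois K L] [IsGalois K N]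
    (S : Finset (HeightOneSpectrum (𝓞 K))) (V : Type) [AddCommGroup V] [Module ℂ V]
    [Module.Finite ℂ V] (ρ : Representation ℂ (L ≃ₐ[K] L) V),
    OccursIn (aboveSet K N S) (ρ.comp (AlgEquiv.restrictNormalHom L : (N ≃ₐ[K] N) →* _)) ↔
      OccursIn (aboveSet K L S) ρ

/-! ### Representations -/

/-- WDC: the invariants of a normal subgroup split off. -/
def Stmt_WDC : Prop :=
  ∀ (G Q : Type) [Group G] [Fintype G] [Group Q] [Fintype Q] (p : G →* Q),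
    Function.Surjective p → ∀ (V : Type) [AddCommGroup V] [Module ℂ V] [Module.Finite ℂ V]
    (ρ : Representation ℂ G V),
    ∃ (V₀ V₁ : Type) (_ : AddCommGroup V₀) (_ : Module ℂ V₀) (_ : Module.Finite ℂ V₀)
      (_ : AddCommGroup V₁) (_ : Module ℂ V₁) (_ : Module.Finite ℂ V₁)
      (ρ₀ : Representation ℂ Q V₀) (ρ₁ : Representation ℂ G V₁),
      (∀ g, ρ.character g = ρ₀.character (p g) + ρ₁.character g) ∧
      IsSub (ρ₀.comp p) ρ ∧ IsSub ρ₁ ρ ∧
      (∀ v : V₁, (∀ d, p d = 1 → ρ₁ d v = v) → v = 0) ∧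
      ((∀ g, ∃ q : ℚ, ρ.character g = (q : ℂ)) →
        (∀ g, ∃ q : ℚ, ρ₀.character g = (q : ℂ)) ∧ ∀ g, ∃ q : ℚ, ρ₁.character g = (q : ℂ)) ∧
      ((∀ g, ∃ q : ℚ, (ρ.character g).re = (q : ℝ)) →
        (∀ g, ∃ q : ℚ, (ρ₀.character g).re = (q : ℝ)) ∧
          ∀ g, ∃ q : ℚ, (ρ₁.character g).re = (q : ℝ))

/-- WCL: the class and inflation (helper93). -/
def Stmt_WCL : Prop :=
  ∀ (G Q : Type) [Group G] [Fintype G] [Group Q] [Fintype Q] (p : G →* Q),
    Function.Surjective p → ∀ (V : Type) [AddCommGroup V] [Module ℂ V] [Module.Finite ℂ V]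
    (ρ : Representation ℂ Q V), InCls (ρ.comp p) ↔ InCls ρ

/-! ### Towers -/

/-- WLM: the limit over a directed set with a cofinal sequence. -/
def Stmt_WLM : Prop :=
  ∀ (I : Type) [PartialOrder I] (D : I → Type) (P : ∀ i, D i → Prop)
    (C : ∀ i j : I, D i → D j → Prop) (c : ℕ → I),
    Monotone c → (∀ i, ∃ n, i ≤ c n) →
    (∀ i j k (x : D i) (y : D j) (z : D k), i ≤ j → j ≤ k → C i j x y → C j k y z → C i k x z) →
    (∀ i j k (x : D i) (y : D j) (z : D k), i ≤ j → j ≤ k → C i k x z → C j k y z → C i j x y) →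
    (∀ i, ∃ x, P i x) →
    (∀ i j (x : D i), i ≤ j → P i x → ∃ y, P j y ∧ C i j x y) →
    (∀ i j (y : D j), i ≤ j → P j y → ∃ x, P i x ∧ C i j x y) →
    ∃ d : ∀ i, D i, (∀ i, P i (d i)) ∧ ∀ i j, i ≤ j → C i j (d i) (d j)

/-- WCO: the finite Galois extensions of `K` in an algebraic closure have a cofinal sequence. -/
def Stmt_WCO : Prop :=
  ∀ (K : Type) [Field K] [NumberField K],
    ∃ c : ℕ → {L : IntermediateField K (AlgebraicClosure K) //
      FiniteDimensional K L ∧ IsGalois K L}, Monotone c ∧ ∀ L, ∃ n, L ≤ c n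

end StarkC.ABS
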