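import Pool.Agent.ABS.PDefsZ
import Pool.Agent.ABS.StTower
import Pool.Agent.StarkT.Stmts

/-!
# Project ABS, part WZ (the index of `φ(X)` in the units): statements of the modules (helper6)

All modules prove `theorem X_thm : Stmt_X` in `namespace StarkC.ABS`, file `Pool/Agent/ABS/X.lean`,
importing `Pool.Agent.ABS.StTowerC` (auxiliary lemmas in `namespace StarkC.ABS.Xx`).
-/

set_option autoImplicit false

open NumberField IsDedekindDomain
open scoped Classical

namespace StarkC.ABS

open StarkP (IsSub Lift Extends IsTheta)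

/-- WZD (descent to an intermediate field `F` which is not necessarily Galois over `K`).  Proof: let
`S'` be the finite set `aboveSet K F S` of primes of `F`.  `aboveSet F F S' = S'`,
`aboveSet F N S' = aboveSet K N S`, and `Gal(N/F) ⊆ Gal(N/K)`, so `Θ'` is `IsTheta F`; `WDE_thm` for
the fields `F, F, N` gives `Θ` with `IsTheta F` and `Extends`.  Last, `g : F ≃ₐ[K] F` extends to
`N` (normal), and `Lift` commutes with the actions (`WIO_thm` for `F, F, N`, injectivity). -/
def Stmt_WZD : Prop :=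
  ∀ (K F N : Type) [Field K] [NumberField K] [Field F] [NumberField F] [Field N] [NumberField N]
    [Algebra K F] [Algebra K N] [Algebra F N] [IsScalarTower K F N] [IsGalois K N]
    (S : Finset (HeightOneSpectrum (𝓞 K)))
    (Θ' : ((N → ℝ) →₀ ℂ) →ₗ[ℂ] ((N → ℝ) →₀ ℂ)), IsTheta K (StarkP.aboveSet K N S) Θ' →
    ∃ Θ : ((F → ℝ) →₀ ℂ) →ₗ[ℂ] ((F → ℝ) →₀ ℂ), IsTheta K (StarkP.aboveSet K F S) Θ ∧
      Extends (algebraMap F N) (StarkP.aboveSet K F S) (StarkP.aboveSet K N S) Θ Θ'

/-- WZI (images under `Lift` for an intermediate field which is not necessarily Galois over `K`):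
`WIO_thm` for the fields `F, F, N` and the finite set `S' = aboveSet K F S`. -/
def Stmt_WZI : Prop :=
  ∀ (K F N : Type) [Field K] [NumberField K] [Field F] [NumberField F] [Field N] [NumberField N]
    [Algebra K F] [Algebra K N] [Algebra F N] [IsScalarTower K F N] [IsGalois K N]
    (S : Finset (HeightOneSpectrum (𝓞 K))),
    (∀ y ∈ StarkP.XC F (StarkP.aboveSet K F S), ∃ z ∈ StarkP.XC N (StarkP.aboveSet K N S),
      Lift (algebraMap F N) (StarkP.aboveSet K F S) (StarkP.aboveSet K N S) y z) ∧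
    ∀ y ∈ StarkP.XC F (StarkP.aboveSet K F S), ∀ z ∈ StarkP.XC N (StarkP.aboveSet K N S),
      ∀ z' ∈ StarkP.XC N (StarkP.aboveSet K N S),
      Lift (algebraMap F N) (StarkP.aboveSet K F S) (StarkP.aboveSet K N S) y z →
      Lift (algebraMap F N) (StarkP.aboveSet K F S) (StarkP.aboveSet K N S) y z' → z = z'

/-- WZR: the regulator of a representation with the character of the permutation representation on
the cosets of `Gal(L/F)` is the determinant for `F`.  Proof: as in WZD everything is `IsTheta F`;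
`DOWNL.reg_eq` (`StarkT/DOWNL.lean`, `E := K`, `K := F`, `ψ := 1`; see its use in `ABS/LFB.lean`
for the L-series, and `Stark/PReg.lean`, `StarkB.Reg_eq`, for the passage between `StarkP.Reg` and
`StarkC.Reg`) gives the regulator of the trivial character of `Gal(L/F)`, which is the inflation
of the trivial character of `Gal(F/F)`: `WRI_thm WIO_thm` for the fields `F, F, L`; then `REGI_thm`
for `F, F` (all elements of `XC F` are invariant; `StarkB.detOn_eq`). -/
def Stmt_WZR : Prop :=
  ∀ (K F L : Type) [Field K] [NumberField K] [Field F] [NumberField F] [Field L] [NumberField L]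
    [Algebra K F] [Algebra K L] [Algebra F L] [IsScalarTower K F L] [IsGalois K L]
    (S : Finset (HeightOneSpectrum (𝓞 K)))
    (Θ : ((F → ℝ) →₀ ℂ) →ₗ[ℂ] ((F → ℝ) →₀ ℂ)) (Θ' : ((L → ℝ) →₀ ℂ) →ₗ[ℂ] ((L → ℝ) →₀ ℂ)),
    IsTheta K (StarkP.aboveSet K F S) Θ → IsTheta K (StarkP.aboveSet K L S) Θ' →
    Extends (algebraMap F L) (StarkP.aboveSet K F S) (StarkP.aboveSet K L S) Θ Θ' →
    ∀ (V : Type) [AddCommGroup V] [Module ℂ V] [Module.Finite ℂ V]
      (ρ : Representation ℂ (L ≃ₐ[K] L) V),
      (∀ g, ρ.character g = indFun (fixK K F L) (fun _ => 1) g) →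
      StarkP.Reg (StarkP.aboveSet K L S) ρ Θ' =
        StarkP.detOn Θ (StarkP.XC F (StarkP.aboveSet K F S))

/-- WZL: the leading coefficient of the Artin `L`-series of the permutation character
(`S = S_∞`).  Proof: `DOWNL.logL_eq` and `LINF_thm` as in `ABS/LFB.lean` (`bot_eq`, `inf_eq`),
`FINFx.zeta` or `ZBR_thm HEZ.zeta0` (`ABS/FINF.lean`, `ABS/ZBR.lean`), uniqueness of the trailing coefficient
(`LASTx.trail_unique`). -/
def Stmt_WZL : Prop :=
  ∀ (K F L : Type) [Field K] [NumberField K] [Field F] [NumberField F] [Field L] [NumberField L]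
    [Algebra K F] [Algebra K L] [Algebra F L] [IsScalarTower K F L] [IsGalois K L]
    (χ : (L ≃ₐ[K] L) → ℂ) (f : ℂ → ℂ), (∀ g, χ g = indFun (fixK K F L) (fun _ => 1) g) →
    StarkP.IsArtinL χ ((∅ : Finset (HeightOneSpectrum (𝓞 K))) : Set (HeightOneSpectrum (𝓞 K))) f →
    meromorphicTrailingCoeffAt f 0 =
      -((classNumber F : ℂ) * ((Units.regulator F : ℝ) : ℂ) / (Units.torsionOrder F : ℂ))

/-- WZX: the index and the regulator.  Proof: `REG1_thm`, `XI_thm` (`ABS/REG1.lean`, `ABS/XI.lean`; namespace `ABS`): transport `Θ`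
to a real endomorphism `T` of `ABS.V F` (`Θ` maps the rational elements of `XC F ∅` to real
ones); take `m > 0` with `m Θ(X) ⊆ λ(U)`; with `A = Θ(X)`, `B = λ(U)`:
`(B : m A) = (B : A ∩ B) (A ∩ B : m A)`, `m^r = (A : m A) = (A : A ∩ B) (A ∩ B : m A)`
(`AddSubgroup.relIndex_mul_relIndex`). -/
def Stmt_WZX : Prop :=
  ∀ (F : Type) [Field F] [NumberField F] (Θ : ((F → ℝ) →₀ ℂ) →ₗ[ℂ] ((F → ℝ) →₀ ℂ)),
    Set.BijOn Θ (StarkP.XQ F ∅) (StarkP.LamU F ∅) →
    ‖StarkP.detOn Θ (StarkP.XC F ∅)‖ = (StarkP.unitIndex Θ : ℝ) * Units.regulator F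

/-- WZP: the permutation representation on `G/H` (on the functions `G ⧸ H → ℂ`, for instance), and
the representation on the functions with sum zero, which has no invariants `≠ 0`. -/
def Stmt_WZP : Prop :=
  ∀ (G : Type) [Group G] [Fintype G] (H : Subgroup G),
    (∃ (V : Type) (_ : AddCommGroup V) (_ : Module ℂ V) (_ : Module.Finite ℂ V)
      (ρ : Representation ℂ G V), (∀ g, ρ.character g = indFun H (fun _ => 1) g) ∧
      ∀ g, ∃ q : ℚ, ρ.character g = (q : ℂ)) ∧
    ∃ (V : Type) (_ : AddCommGroup V) (_ : Module ℂ V) (_ : Module.Finite ℂ V)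
      (ρ : Representation ℂ G V), (∀ g, ρ.character g = indFun H (fun _ => 1) g - 1) ∧
      (∀ g, ∃ q : ℚ, ρ.character g = (q : ℂ)) ∧
      ∀ (W : Type) [AddCommGroup W] [Module ℂ W] [Module.Finite ℂ W] (σ : Representation ℂ G W),
        σ.IsIrreducible → IsSub σ ρ → ∃ g, σ g ≠ 1

/-- WZN: fields with one infinite place, and roots of unity for `K = ℚ`
(`Units.torsionOrder_eq_two_of_odd_finrank`, `Rat.classNumber_eq`, `InfinitePlace`). -/
def Stmt_WZN : Prop :=
  (∀ (K : Type) [Field K] [NumberField K], Fintype.card (InfinitePlace K) = 1 →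
    (∀ x ∈ StarkP.XC K ∅, x = 0) ∧ Units.regulator K = 1) ∧
  (∀ (K : Type) [Field K] [NumberField K], Module.finrank ℚ K = 1 →
    classNumber K = 1 ∧ Units.torsionOrder K = 2 ∧ Fintype.card (InfinitePlace K) = 1 ∧
      ¬ ∃ v : InfinitePlace K, v.IsComplex) ∧
  ∀ (K F L : Type) [Field K] [NumberField K] [Field F] [NumberField F] [Field L] [NumberField L]
    [Algebra K F] [Algebra K L] [Algebra F L] [IsScalarTower K F L] [IsGalois K L],
    Module.finrank ℚ K = 1 → Odd (Nat.card (L ≃ₐ[K] L)) → Units.torsionOrder F = 2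

end StarkC.ABS
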