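import Pool.Agent.ABS.StTowerC
import Pool.Agent.ABS.PDefsL

/-!
# Project ABS, module WZM: roots of unity of subfields of totally real fields
-/

set_option autoImplicit false

open NumberField IsDedekindDomain
open scoped Classical

namespace StarkC.ABS

namespace WZMx

theorem torsion_of_real (F : Type) [Field F] [NumberField F]
    (h : 0 < InfinitePlace.nrRealPlaces F) : Units.torsionOrder F = 2 := by
  have h1 : ∀ x : Units.torsion F, x.1 = 1 ∨ x.1 = -1 := by
    intro x
    let f : (𝓞 F)ˣ →* F := ((algebraMap (𝓞 F) F : 𝓞 F →+* F) : 𝓞 F →* F).comp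
      (_root_.Units.coeHom (𝓞 F))
    have hf : Function.Injective f := fun a b hab =>
      _root_.Units.ext (FaithfulSMul.algebraMap_injective (𝓞 F) F hab)
    have ho : orderOf (f x.1) = orderOf x.1 := orderOf_injective f hf x.1
    by_cases hc : 2 < orderOf x.1
    · rw [← ho] at hc
      have h2 := InfinitePlace.IsPrimitiveRoot.nrRealPlaces_eq_zero_of_two_lt hc (IsPrimitiveRoot.orderOf (f x.1))
      omega
    · have h3 : 0 < orderOf x.1 := orderOf_pos_iff.2 ((CommGroup.mem_torsion x.1).1 x.2)
      have h4 : orderOf x.1 = 1 ∨ orderOf x.1 = 2 := by omega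
      rcases h4 with h4 | h4
      · exact Or.inl (orderOf_eq_one_iff.1 h4)
      · right
        rw [← ho, CharP.orderOf_eq_two_iff 0 (by decide)] at h4
        apply hf
        rw [h4]
        show (-1 : F) = algebraMap (𝓞 F) F ((-1 : (𝓞 F)ˣ) : 𝓞 F)
        rw [_root_.Units.val_neg, _root_.Units.val_one, map_neg, map_one]
  let := Fintype.ofFinite (Units.torsion F)
  rw [Units.torsionOrder, Nat.card_eq_fintype_card]
  refine (Finset.card_eq_two.2 ⟨1, ⟨-1, neg_one_mem_torsion⟩,
    by simp [← Subtype.coe_ne_coe], Finset.ext fun x ↦ ⟨fun _ ↦ ?_, fun _ ↦ Finset.mem_univ _⟩⟩)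
  rw [Finset.mem_insert, Finset.mem_singleton, ← Subtype.val_inj, ← Subtype.val_inj]
  exact h1 x

end WZMx

open WZMx

/-- WZM: if `[K : ℚ] = 1` and the infinite place splits completely in `L`, the roots of unity in
`F ⊆ L` are `±1`. -/
theorem WZM_thm (K F L : Type) [Field K] [NumberField K] [Field F] [NumberField F] [Field L]
    [NumberField L] [Algebra K F] [Algebra K L] [Algebra F L] [IsScalarTower K F L] [IsGalois K L]
    (hK : ¬ ∃ v : InfinitePlace K, v.IsComplex)
    (h : StarkP.SplitPlace K (StarkP.aboveSet K L ((∅ : Finset (HeightOneSpectrum (𝓞 K))) :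
        Set (HeightOneSpectrum (𝓞 K))))) : Units.torsionOrder F = 2 := by
  obtain ⟨a, ha, hs⟩ := h
  rcases ha with ⟨w, rfl⟩ | ⟨v, hv, rfl⟩
  · have h1 : MulAction.stabilizer (L ≃ₐ[K] L) w = ⊥ := by
      rw [eq_bot_iff]
      intro g hg
      rw [MulAction.mem_stabilizer_iff, InfinitePlace.smul_eq_comap] at hg
      have h2 : g⁻¹ = 1 := hs g⁻¹ fun x => by
        have h3 : w (g.symm x) = w x := congrArg (fun u : InfinitePlace L => u x) hg
        show (w (g⁻¹ x)) ^ w.mult = (w x) ^ w.mult
        have h4 : g⁻¹ x = g.symm x := rfl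
        rw [h4, h3]
      rw [Subgroup.mem_bot]
      exact inv_eq_one.1 h2
    have h5 : InfinitePlace.IsUnramified K w :=
      (InfinitePlace.isUnramified_iff_stabilizer_eq_bot).2 h1
    have h6 : w.IsReal := by
      rcases InfinitePlace.isUnramified_iff.1 h5 with h6 | h6
      · exact h6
      · exact absurd ⟨_, h6⟩ hK
    have h7 : (w.comap (algebraMap F L)).IsReal := InfinitePlace.IsReal.comap _ h6
    apply torsion_of_real
    rw [InfinitePlace.nrRealPlaces, Fintype.card_pos_iff]
    exact ⟨⟨_, h7⟩⟩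
  · exfalso
    simp [StarkP.aboveSet] at hv

end StarkC.ABS
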