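import Pool.Agent.ABS.OPT
import Pool.Agent.ABS.StTowerC
import Pool.Agent.ABS.WZM

/-!
# Project ABS, part WZ: the index of `φ(X)` in the units, assembly (helper6)
-/

set_option autoImplicit false

open NumberField IsDedekindDomain
open scoped Classical

namespace StarkC.ABS

open StarkP (InCls IsSub OccursIn Lift Extends IsTheta PExt SplitPlace PPow)

namespace OPZx

section

variable {K : Type} [Field K] [NumberField K]

/-- `Θ` is good for the intermediate field `F`. -/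
def GoodF (S : Finset (HeightOneSpectrum (𝓞 K)))
    (Θ₀ : ∀ L : IntermediateField K (AlgebraicClosure K),
      ((L → ℝ) →₀ ℂ) →ₗ[ℂ] ((L → ℝ) →₀ ℂ))
    (F : IntermediateField K (AlgebraicClosure K)) [NumberField F]
    (Θ : ((F → ℝ) →₀ ℂ) →ₗ[ℂ] ((F → ℝ) →₀ ℂ)) : Prop :=
  IsTheta K (StarkP.aboveSet K F S) Θ ∧
    ∀ (N : IntermediateField K (AlgebraicClosure K)) [NumberField N] [IsGalois K N] (h : F ≤ N),
      Extends (IntermediateField.inclusion h : F →+* N) (StarkP.aboveSet K F S)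
        (StarkP.aboveSet K N S) Θ (Θ₀ N)

theorem fd (L : IntermediateField K (AlgebraicClosure K)) [NumberField L] :
    FiniteDimensional K L := Module.Finite.of_restrictScalars_finite ℚ K L

theorem nfd (L : IntermediateField K (AlgebraicClosure K)) [FiniteDimensional K L] :
    NumberField L := by
  have : CharZero L := charZero_of_injective_algebraMap (algebraMap K L).injective
  exact NumberField.of_module_finite K L

/-- The Galois closure. -/
theorem exists_galois (F : IntermediateField K (AlgebraicClosure K)) [NumberField F] :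
    ∃ (N : IntermediateField K (AlgebraicClosure K)) (_ : NumberField N) (_ : IsGalois K N),
      F ≤ N ∧ ∀ (M : IntermediateField K (AlgebraicClosure K)) [IsGalois K M], F ≤ M → N ≤ M := by
  have := fd F
  refine ⟨IntermediateField.normalClosure K F (AlgebraicClosure K), ?_, ?_, ?_, ?_⟩
  · exact nfd _
  · exact {}
  · exact F.le_normalClosure
  · intro M _ h
    exact IntermediateField.normalClosure_le_iff_of_normal.2 h

/-- Existence and uniqueness of images. -/
theorem lift_ex (hZI : Stmt_WZI) (S : Finset (HeightOneSpectrum (𝓞 K)))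
    (F N : IntermediateField K (AlgebraicClosure K)) [NumberField F] [NumberField N]
    [IsGalois K N] (h : F ≤ N) :
    (∀ y ∈ StarkP.XC F (StarkP.aboveSet K F S), ∃ z ∈ StarkP.XC N (StarkP.aboveSet K N S),
      Lift (IntermediateField.inclusion h : F →+* N) (StarkP.aboveSet K F S)
        (StarkP.aboveSet K N S) y z) ∧
    ∀ y ∈ StarkP.XC F (StarkP.aboveSet K F S), ∀ z ∈ StarkP.XC N (StarkP.aboveSet K N S),
      ∀ z' ∈ StarkP.XC N (StarkP.aboveSet K N S),
      Lift (IntermediateField.inclusion h : F →+* N) (StarkP.aboveSet K F S)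
        (StarkP.aboveSet K N S) y z →
      Lift (IntermediateField.inclusion h : F →+* N) (StarkP.aboveSet K F S)
        (StarkP.aboveSet K N S) y z' → z = z' := by
  let : Algebra F N := (IntermediateField.inclusion h : F →+* N).toAlgebra
  have : IsScalarTower K F N := IsScalarTower.of_algebraMap_eq fun x => rfl
  exact hZI K F N S

/-- Transitivity of extensions. -/
theorem ext_trans (hZI : Stmt_WZI) (hTR : Stmt_WTR) (S : Finset (HeightOneSpectrum (𝓞 K)))
    (F N M : IntermediateField K (AlgebraicClosure K)) [NumberField F] [NumberField N]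
    [NumberField M] [IsGalois K N] [IsGalois K M] (h : F ≤ N) (h' : N ≤ M)
    (Θ : ((F → ℝ) →₀ ℂ) →ₗ[ℂ] ((F → ℝ) →₀ ℂ)) (Θ' : ((N → ℝ) →₀ ℂ) →ₗ[ℂ] ((N → ℝ) →₀ ℂ))
    (Θ'' : ((M → ℝ) →₀ ℂ) →ₗ[ℂ] ((M → ℝ) →₀ ℂ))
    (h1 : Extends (IntermediateField.inclusion h : F →+* N) (StarkP.aboveSet K F S)
        (StarkP.aboveSet K N S) Θ Θ')
    (h2 : Extends (IntermediateField.inclusion h' : N →+* M) (StarkP.aboveSet K N S)
        (StarkP.aboveSet K M S) Θ' Θ'') :
    Extends (IntermediateField.inclusion (h.trans h') : F →+* M) (StarkP.aboveSet K F S)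
        (StarkP.aboveSet K M S) Θ Θ'' := by
  intro a ha b hb hab
  obtain ⟨u, hu, hau⟩ := (lift_ex hZI S F N h).1 a ha
  obtain ⟨v, hv, huv⟩ := (lift_ex hZI S N M h').1 u hu
  have h3 := hTR K F N M (IntermediateField.inclusion h) (IntermediateField.inclusion h')
    S a u v hau huv
  have h4 : b = v := (lift_ex hZI S F M (h.trans h')).2 a ha b hb v hv hab h3
  subst h4
  have h5 := h1 a ha u hu hau
  have h6 := h2 u hu b hb huv
  exact hTR K F N M (IntermediateField.inclusion h) (IntermediateField.inclusion h')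
    S (Θ a) (Θ' u) (Θ'' b) h5 h6

theorem goodF_ex (hZD : Stmt_WZD) (hZI : Stmt_WZI) (hTR : Stmt_WTR)
    (S : Finset (HeightOneSpectrum (𝓞 K)))
    (Θ₀ : ∀ L : IntermediateField K (AlgebraicClosure K),
      ((L → ℝ) →₀ ℂ) →ₗ[ℂ] ((L → ℝ) →₀ ℂ))
    (h0 : ∀ (L : IntermediateField K (AlgebraicClosure K)) [NumberField L] [IsGalois K L],
      IsTheta K (StarkP.aboveSet K L S) (Θ₀ L))
    (hE : ∀ (L N : IntermediateField K (AlgebraicClosure K)) [NumberField L] [NumberField N]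
        [IsGalois K L] [IsGalois K N] (h : L ≤ N),
        Extends (IntermediateField.inclusion h : L →+* N) (StarkP.aboveSet K L S)
          (StarkP.aboveSet K N S) (Θ₀ L) (Θ₀ N))
    (F : IntermediateField K (AlgebraicClosure K)) [NumberField F] :
    ∃ Θ, GoodF S Θ₀ F Θ := by
  obtain ⟨N, i1, i2, h, hmin⟩ := exists_galois F
  let : Algebra F N := (IntermediateField.inclusion h : F →+* N).toAlgebra
  have : IsScalarTower K F N := IsScalarTower.of_algebraMap_eq fun x => rfl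
  obtain ⟨Θ, hΘ, hext⟩ := hZD K F N S (Θ₀ N) (h0 N)
  exact ⟨Θ, hΘ, fun M _ _ hM => ext_trans hZI hTR S F N M h (hmin M hM) Θ (Θ₀ N) (Θ₀ M) hext
    (hE N M (hmin M hM))⟩

/-- The family for all finite extensions. -/
theorem family (hZD : Stmt_WZD) (hZI : Stmt_WZI) (hTR : Stmt_WTR)
    (S : Finset (HeightOneSpectrum (𝓞 K)))
    (Θ₀ : ∀ L : IntermediateField K (AlgebraicClosure K),
      ((L → ℝ) →₀ ℂ) →ₗ[ℂ] ((L → ℝ) →₀ ℂ))
    (h0 : ∀ (L : IntermediateField K (AlgebraicClosure K)) [NumberField L] [IsGalois K L],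
      IsTheta K (StarkP.aboveSet K L S) (Θ₀ L))
    (hE : ∀ (L N : IntermediateField K (AlgebraicClosure K)) [NumberField L] [NumberField N]
        [IsGalois K L] [IsGalois K N] (h : L ≤ N),
        Extends (IntermediateField.inclusion h : L →+* N) (StarkP.aboveSet K L S)
          (StarkP.aboveSet K N S) (Θ₀ L) (Θ₀ N)) :
    ∃ Θ : ∀ L : IntermediateField K (AlgebraicClosure K),
      ((L → ℝ) →₀ ℂ) →ₗ[ℂ] ((L → ℝ) →₀ ℂ),
      (∀ (L : IntermediateField K (AlgebraicClosure K)) [NumberField L] [IsGalois K L],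
        Θ L = Θ₀ L) ∧
      (∀ (F : IntermediateField K (AlgebraicClosure K)) [NumberField F],
        IsTheta K (StarkP.aboveSet K F S) (Θ F)) ∧
      ∀ (F L : IntermediateField K (AlgebraicClosure K)) [NumberField F] [NumberField L]
        (h : F ≤ L), Extends (IntermediateField.inclusion h : F →+* L) (StarkP.aboveSet K F S)
          (StarkP.aboveSet K L S) (Θ F) (Θ L) := by
  have hex : ∀ (F : IntermediateField K (AlgebraicClosure K)) [NumberField F],
      ∃ Θ, GoodF S Θ₀ F Θ ∧ (IsGalois K F → Θ = Θ₀ F) := by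
    intro F _
    by_cases hF : IsGalois K F
    · exact ⟨Θ₀ F, ⟨h0 F, fun N _ _ h => hE F N h⟩, fun _ => rfl⟩
    · obtain ⟨Θ, hΘ⟩ := goodF_ex hZD hZI hTR S Θ₀ h0 hE F
      exact ⟨Θ, hΘ, fun h => absurd h hF⟩
  choose Θ hΘ hG using hex
  let Θ' : ∀ L : IntermediateField K (AlgebraicClosure K),
      ((L → ℝ) →₀ ℂ) →ₗ[ℂ] ((L → ℝ) →₀ ℂ) := fun L =>
    if h : NumberField L then @Θ L h else 0
  have hΘ' : ∀ (L : IntermediateField K (AlgebraicClosure K)) [h : NumberField L],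
      Θ' L = Θ L := fun L h => dif_pos h
  refine ⟨Θ', ?_, ?_, ?_⟩
  · intro L _ hL
    rw [hΘ' L, hG L hL]
  · intro F _
    rw [hΘ' F]
    exact (hΘ F).1
  · intro F L _ _ h
    rw [hΘ' F, hΘ' L]
    obtain ⟨N, i1, i2, hN, -⟩ := exists_galois L
    intro y hy z hz hyz
    obtain ⟨w, hw, hzw⟩ := (lift_ex hZI S L N hN).1 z hz
    have h3 := hTR K F L N (IntermediateField.inclusion h) (IntermediateField.inclusion hN)
      S y z w hyz hzw
    have h4 := (hΘ F).2 N (h.trans hN) y hy w hw h3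
    have h5 := (hΘ L).2 N hN z hz w hw hzw
    exact OPWx.lift_cancel K F L N (IntermediateField.inclusion h)
      (IntermediateField.inclusion hN) S (Θ F y) (Θ L z) (Θ₀ N w) h4 h5

end

section Index

variable (K F L : Type) [Field K] [NumberField K] [Field F] [NumberField F] [Field L]
  [NumberField L] [Algebra K F] [Algebra K L] [Algebra F L] [IsScalarTower K F L] [IsGalois K L]

omit [NumberField K] [NumberField F] in
theorem above_empty :
    StarkP.aboveSet K F ((∅ : Finset (HeightOneSpectrum (𝓞 K))) :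
      Set (HeightOneSpectrum (𝓞 K))) = ∅ := by
  ext w
  simp [StarkP.aboveSet]

/-- `Θ'` is good for the characters in question. -/
def GoodR (Θ' : ((L → ℝ) →₀ ℂ) →ₗ[ℂ] ((L → ℝ) →₀ ℂ)) : Prop :=
  ∀ (V : Type) [AddCommGroup V] [Module ℂ V] [Module.Finite ℂ V]
    (ρ : Representation ℂ (L ≃ₐ[K] L) V),
    (PExt K L ∅ ∨ ∀ (W : Type) [AddCommGroup W] [Module ℂ W] [Module.Finite ℂ W]
      (σ : Representation ℂ (L ≃ₐ[K] L) W), σ.IsIrreducible → IsSub σ ρ →
      InCls σ ∧ (OccursIn (StarkP.aboveSet K L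
          ((∅ : Finset (HeightOneSpectrum (𝓞 K))) : Set (HeightOneSpectrum (𝓞 K)))) σ ∨
        (SplitPlace K (StarkP.aboveSet K L
          ((∅ : Finset (HeightOneSpectrum (𝓞 K))) : Set (HeightOneSpectrum (𝓞 K)))) ∧
          ∃ g, σ g ≠ 1))) →
    (∀ g, ∃ q : ℚ, ρ.character g = (q : ℂ)) → ∃ f : ℂ → ℂ,
      StarkP.IsArtinL ρ.character ((∅ : Finset (HeightOneSpectrum (𝓞 K))) :
        Set (HeightOneSpectrum (𝓞 K))) f ∧
      StarkP.Reg (StarkP.aboveSet K L ((∅ : Finset (HeightOneSpectrum (𝓞 K))) :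
        Set (HeightOneSpectrum (𝓞 K)))) ρ Θ' = meromorphicTrailingCoeffAt f 0

/-- `h R / w`. -/
noncomputable def hR (F : Type) [Field F] [NumberField F] : ℝ :=
  (classNumber F : ℝ) * Units.regulator F / Units.torsionOrder F

theorem norm_hR (F : Type) [Field F] [NumberField F] :
    ‖-((classNumber F : ℂ) * ((Units.regulator F : ℝ) : ℂ) / (Units.torsionOrder F : ℂ))‖ =
      hR F := by
  have h1 : -((classNumber F : ℂ) * ((Units.regulator F : ℝ) : ℂ) / (Units.torsionOrder F : ℂ)) =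
      ((-hR F : ℝ) : ℂ) := by
    unfold hR
    push_cast
    ring
  rw [h1, Complex.norm_real, norm_neg, Real.norm_of_nonneg]
  unfold hR
  have := (Units.regulator_pos F).le
  positivity

theorem fin_of_hR (F : Type) [Field F] [NumberField F] (x : ℚ) (c : ℝ)
    (h : (x : ℝ) * Units.regulator F * c = hR F) :
    (x : ℝ) * c = (classNumber F : ℝ) / Units.torsionOrder F := by
  have h1 := Units.regulator_ne_zero F
  unfold hR at h
  field_simp at h ⊢
  linarith

/-- Some infinite place splits completely and all irreducible characters are in the class. -/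
def AllC : Prop :=
  SplitPlace K (StarkP.aboveSet K L ((∅ : Finset (HeightOneSpectrum (𝓞 K))) :
    Set (HeightOneSpectrum (𝓞 K)))) ∧
  ∀ (W : Type) [AddCommGroup W] [Module ℂ W] [Module.Finite ℂ W]
    (σ : Representation ℂ (L ≃ₐ[K] L) W), σ.IsIrreducible → InCls σ

theorem allC_of (hVC : Stmt_WVC) (hVO : Stmt_WVO) (hP : PPow K L) : AllC K L := by
  obtain ⟨⟨p, n, hp, hp2, hg⟩, h3⟩ := hP
  exact ⟨h3.elim (hVC K L ∅) (hVO K L ∅), fun W _ _ _ σ _ =>
    Or.inl ⟨p, n, hp, hp2, fun g => by rw [← map_pow, hg, map_one]⟩⟩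

theorem nontriv {G W : Type} [Group G] [AddCommGroup W] [Module ℂ W]
    (σ : Representation ℂ G W) (hσ : σ.IsIrreducible) : Nontrivial W := by
  by_contra hW
  rw [not_nontrivial_iff_subsingleton] at hW
  have h4 : (⊥ : Subrepresentation σ) = ⊤ := by
    ext x
    have hx : x = 0 := Subsingleton.elim _ _
    rw [hx]
    exact ⟨fun _ => trivial, fun _ => rfl⟩
  have : Nontrivial (Subrepresentation σ) := hσ.toNontrivial
  exact bot_ne_top h4

theorem index_two (hZR : Stmt_WZR) (hZL : Stmt_WZL) (hZX : Stmt_WZX) (hZP : Stmt_WZP)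
    (hVT : Stmt_WVT)
    (Θ : ((F → ℝ) →₀ ℂ) →ₗ[ℂ] ((F → ℝ) →₀ ℂ)) (Θ' : ((L → ℝ) →₀ ℂ) →ₗ[ℂ] ((L → ℝ) →₀ ℂ))
    (hΘ : IsTheta K (StarkP.aboveSet K F ((∅ : Finset (HeightOneSpectrum (𝓞 K))) :
        Set (HeightOneSpectrum (𝓞 K)))) Θ)
    (hΘ' : IsTheta K (StarkP.aboveSet K L ((∅ : Finset (HeightOneSpectrum (𝓞 K))) :
        Set (HeightOneSpectrum (𝓞 K)))) Θ')
    (hext : Extends (algebraMap F L) (StarkP.aboveSet K F ((∅ : Finset (HeightOneSpectrum (𝓞 K))) :
        Set (HeightOneSpectrum (𝓞 K)))) (StarkP.aboveSet K L ((∅ : Finset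
        (HeightOneSpectrum (𝓞 K))) : Set (HeightOneSpectrum (𝓞 K)))) Θ Θ')
    (hG : GoodR K L Θ') (hP : AllC K L) (hcard : 1 < Fintype.card (InfinitePlace K)) :
    (StarkP.unitIndex Θ : ℝ) * 1 = (classNumber F : ℝ) / Units.torsionOrder F := by
  obtain ⟨⟨V, _, _, _, ρ, hch, hq⟩, -⟩ := hZP (L ≃ₐ[K] L) (fixK K F L)
  obtain ⟨f, hf, hR'⟩ := hG V ρ (Or.inr fun W _ _ _ σ hσ _ => ⟨hP.2 W σ hσ, by
    by_cases hn : ∃ g, σ g ≠ 1
    · exact Or.inr ⟨hP.1, hn⟩
    · push Not at hn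
      have := nontriv σ hσ
      exact Or.inl (hVT K L ∅ (by simpa using hcard) W σ hn)⟩) hq
  have e1 := hZR K F L ∅ Θ Θ' hΘ hΘ' hext V ρ hch
  have e2 := hZL K F L ρ.character f hch hf
  have e3 : Set.BijOn Θ (StarkP.XQ F ∅) (StarkP.LamU F ∅) := by
    have := hΘ.2
    rwa [above_empty K F] at this
  have e4 := hZX F Θ e3
  rw [above_empty K F, hR', e2] at e1
  rw [← e1, norm_hR] at e4
  exact fin_of_hR F _ 1 (by rw [mul_one]; exact e4.symm)

omit [NumberField K] [NumberField L] [IsGalois K L] in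
theorem fix_top' : fixK K K L = ⊤ := by
  rw [eq_top_iff]
  intro g _ x
  exact g.commutes x

theorem indFun_top {G : Type} [Group G] [Fintype G] (g : G) :
    indFun (⊤ : Subgroup G) (fun _ => 1) g = 1 := by
  unfold indFun
  rw [Nat.card_congr (Subgroup.topEquiv (G := G)).toEquiv, Nat.card_eq_fintype_card]
  simp only [Subgroup.mem_top, if_true, Finset.sum_const, Finset.card_univ, nsmul_eq_mul, mul_one]
  exact div_self (Nat.cast_ne_zero.2 Fintype.card_ne_zero)

theorem char_triv {G : Type} [Group G] (g : G) :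
    (Representation.trivial ℂ G ℂ).character g = 1 := by
  have h1 : Representation.trivial ℂ G ℂ g = LinearMap.id := rfl
  show LinearMap.trace ℂ ℂ (Representation.trivial ℂ G ℂ g) = 1
  rw [h1, LinearMap.trace_id]
  simp

theorem det_zero (Θ : ((K → ℝ) →₀ ℂ) →ₗ[ℂ] ((K → ℝ) →₀ ℂ))
    (h : ∀ x ∈ StarkP.XC K ∅, x = 0) : StarkP.detOn Θ (StarkP.XC K ∅) = 1 := by
  unfold StarkP.detOn
  have h1 : ∀ x ∈ StarkP.XC K ∅, Θ x ∈ StarkP.XC K ∅ := by
    intro x hx
    rw [h x hx, map_zero]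
    exact zero_mem _
  rw [dif_pos h1]
  have : Subsingleton (StarkP.XC K ∅) := ⟨fun a b => Subtype.ext ((h a a.2).trans (h b b.2).symm)⟩
  exact LinearMap.det_eq_one_of_subsingleton _

theorem index_one (hZD : Stmt_WZD) (hZR : Stmt_WZR) (hZL : Stmt_WZL) (hZX : Stmt_WZX)
    (hZP : Stmt_WZP) (hZN : Stmt_WZN) (hRS : Stmt_WRS)
    (Θ : ((F → ℝ) →₀ ℂ) →ₗ[ℂ] ((F → ℝ) →₀ ℂ)) (Θ' : ((L → ℝ) →₀ ℂ) →ₗ[ℂ] ((L → ℝ) →₀ ℂ))
    (hΘ : IsTheta K (StarkP.aboveSet K F ((∅ : Finset (HeightOneSpectrum (𝓞 K))) :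
        Set (HeightOneSpectrum (𝓞 K)))) Θ)
    (hΘ' : IsTheta K (StarkP.aboveSet K L ((∅ : Finset (HeightOneSpectrum (𝓞 K))) :
        Set (HeightOneSpectrum (𝓞 K)))) Θ')
    (hext : Extends (algebraMap F L) (StarkP.aboveSet K F ((∅ : Finset (HeightOneSpectrum (𝓞 K))) :
        Set (HeightOneSpectrum (𝓞 K)))) (StarkP.aboveSet K L ((∅ : Finset
        (HeightOneSpectrum (𝓞 K))) : Set (HeightOneSpectrum (𝓞 K)))) Θ Θ')
    (hG : GoodR K L Θ') (hP : AllC K L) (hcard : Fintype.card (InfinitePlace K) = 1) :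
    (StarkP.unitIndex Θ : ℝ) * ((classNumber K : ℝ) / Units.torsionOrder K) =
      (classNumber F : ℝ) / Units.torsionOrder F := by
  obtain ⟨⟨V, _, _, _, ρ, hch, hq⟩, V', _, _, _, ρ', hch', hq', hirr⟩ :=
    hZP (L ≃ₐ[K] L) (fixK K F L)
  obtain ⟨hsum, hmul, htr, hinf⟩ := hRS
  obtain ⟨hXK, hRK⟩ := hZN.1 K hcard
  obtain ⟨f', hf', hR'⟩ := hG V' ρ' (Or.inr fun W _ _ _ σ hσ hsub =>
    ⟨hP.2 W σ hσ, Or.inr ⟨hP.1, hirr W σ hσ hsub⟩⟩) hq'
  -- the trivial representation
  let ρ₀ : Representation ℂ (L ≃ₐ[K] L) ℂ := Representation.trivial ℂ (L ≃ₐ[K] L) ℂ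
  have hch₀ : ∀ g, ρ₀.character g = indFun (fixK K K L) (fun _ => 1) g := by
    intro g
    rw [fix_top' K L, indFun_top]
    exact char_triv g
  obtain ⟨ΘK, hΘK, hextK⟩ := hZD K K L ∅ Θ' hΘ'
  have e0 := hZR K K L ∅ ΘK Θ' hΘK hΘ' hextK ℂ ρ₀ hch₀
  rw [above_empty K K, det_zero K ΘK hXK] at e0
  obtain ⟨Z, hZ, -⟩ := FINFx.zeta K
  have hZ1 : StarkP.IsArtinL (Representation.trivial ℂ (K ≃ₐ[K] K) ℂ).character
      ((∅ : Finset (HeightOneSpectrum (𝓞 K))) : Set (HeightOneSpectrum (𝓞 K))) Z := by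
    have h1 : (Representation.trivial ℂ (K ≃ₐ[K] K) ℂ).character = fun _ => 1 :=
      funext fun g => char_triv g
    rw [h1, Finset.coe_empty]
    exact hZ
  have hZ2 : StarkP.IsArtinL ρ₀.character
      ((∅ : Finset (HeightOneSpectrum (𝓞 K))) : Set (HeightOneSpectrum (𝓞 K))) Z :=
    (hinf K K L ∅ ℂ (Representation.trivial ℂ (K ≃ₐ[K] K) ℂ) Z).2 hZ1
  have hadd : ∀ g, ρ.character g = ρ₀.character g + ρ'.character g := by
    intro g
    rw [hch, hch', hch₀, fix_top' K L, indFun_top]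
    ring
  have e1 : StarkP.Reg (StarkP.aboveSet K L ((∅ : Finset (HeightOneSpectrum (𝓞 K))) :
      Set (HeightOneSpectrum (𝓞 K)))) ρ Θ' =
      StarkP.Reg (StarkP.aboveSet K L ((∅ : Finset (HeightOneSpectrum (𝓞 K))) :
      Set (HeightOneSpectrum (𝓞 K)))) ρ₀ Θ' * StarkP.Reg (StarkP.aboveSet K L
        ((∅ : Finset (HeightOneSpectrum (𝓞 K))) : Set (HeightOneSpectrum (𝓞 K)))) ρ' Θ' :=
    hsum K L ∅ Θ' hΘ' V ℂ V' ρ ρ₀ ρ' hadd
  have hf := hmul K L ∅ ρ.character ρ₀.character ρ'.character Z f' hadd hZ2 hf'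
  have e2 := htr K L ∅ ρ.character ρ₀.character ρ'.character _ Z f' hadd hf hZ2 hf'
  have e3 := hZL K F L ρ.character _ hch hf
  have e4 := hZL K K L ρ₀.character Z hch₀ hZ2
  have e5 := hZR K F L ∅ Θ Θ' hΘ hΘ' hext V ρ hch
  have e6 : Set.BijOn Θ (StarkP.XQ F ∅) (StarkP.LamU F ∅) := by
    have := hΘ.2
    rwa [above_empty K F] at this
  have e7 := hZX F Θ e6
  rw [above_empty K F, e1, e0, one_mul, hR'] at e5
  rw [← e5] at e7
  have e8 : hR F = hR K * ‖meromorphicTrailingCoeffAt f' 0‖ := by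
    rw [← norm_hR F, ← e3, e2, norm_mul, e4, norm_hR K]
  have e9 : hR K = (classNumber K : ℝ) / Units.torsionOrder K := by
    unfold hR
    rw [hRK, mul_one]
  rw [e7] at e8
  refine fin_of_hR F _ _ ?_
  rw [← e9, e8]
  ring

end Index

end OPZx

open OPZx

/-- The printed theorem, from the modules. -/
theorem mainZ_of (hZD : Stmt_WZD) (hZI : Stmt_WZI) (hZR : Stmt_WZR) (hZL : Stmt_WZL)
    (hZX : Stmt_WZX) (hZP : Stmt_WZP) (hZN : Stmt_WZN)
    (K : Type) [Field K] [NumberField K] (S : Finset (HeightOneSpectrum (𝓞 K))) :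
    ∃ Θ : ∀ L : IntermediateField K (AlgebraicClosure K),
      ((L → ℝ) →₀ ℂ) →ₗ[ℂ] ((L → ℝ) →₀ ℂ),
      (∀ (F : IntermediateField K (AlgebraicClosure K)) [NumberField F],
        IsTheta K (StarkP.aboveSet K F S) (Θ F)) ∧
      (∀ (F L : IntermediateField K (AlgebraicClosure K)) [NumberField F] [NumberField L]
        (h : F ≤ L), Extends (IntermediateField.inclusion h : F →+* L) (StarkP.aboveSet K F S)
          (StarkP.aboveSet K L S) (Θ F) (Θ L)) ∧
      (S = ∅ → ∀ (F L : IntermediateField K (AlgebraicClosure K)) [NumberField F] [NumberField L]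
        [IsGalois K L], F ≤ L →
        (PPow K L ∨ (SplitPlace K (StarkP.aboveSet K L S) ∧
          ∀ (W : Type) [AddCommGroup W] [Module ℂ W] [Module.Finite ℂ W]
            (σ : Representation ℂ (L ≃ₐ[K] L) W), σ.IsIrreducible → InCls σ)) →
        (StarkP.unitIndex (Θ F) * (if Fintype.card (InfinitePlace K) = 1 then
            (classNumber K : ℚ) / Units.torsionOrder K else 1) =
          (classNumber F : ℚ) / Units.torsionOrder F) ∧
        (Module.finrank ℚ K = 1 → StarkP.unitIndex (Θ F) = classNumber F)) ∧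
      ∀ (L : IntermediateField K (AlgebraicClosure K)) [NumberField L] [IsGalois K L]
        (V : Type) [AddCommGroup V] [Module ℂ V] [Module.Finite ℂ V]
        (ρ : Representation ℂ (L ≃ₐ[K] L) V),
        ((1 < Fintype.card (InfinitePlace K) + S.card ∧ PPow K L) ∨
          ∀ (W : Type) [AddCommGroup W] [Module ℂ W] [Module.Finite ℂ W]
            (σ : Representation ℂ (L ≃ₐ[K] L) W), σ.IsIrreducible → IsSub σ ρ →
            InCls σ ∧ (OccursIn (StarkP.aboveSet K L S) σ ∨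
              (SplitPlace K (StarkP.aboveSet K L S) ∧ ∃ g, σ g ≠ 1))) →
        ((∀ g, ∃ q : ℚ, ρ.character g = (q : ℂ)) → ∃ F : ℂ → ℂ,
          StarkP.IsArtinL ρ.character S F ∧
          StarkP.Reg (StarkP.aboveSet K L S) ρ (Θ L) = meromorphicTrailingCoeffAt F 0) ∧
        (((∀ g, ∃ q : ℚ, (ρ.character g).re = (q : ℝ)) ∨ (∀ g, ρ g ^ 6 = 1)) →
          ∀ F : ℂ → ℂ, StarkP.IsArtinL ρ.character S F →
          ‖StarkP.Reg (StarkP.aboveSet K L S) ρ (Θ L)‖ = ‖meromorphicTrailingCoeffAt F 0‖) := by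
  obtain ⟨Θ₀, hE, h2⟩ := mainT K S
  obtain ⟨Θ, hΘ₀, hT, hext⟩ := family hZD hZI WTR_thm S Θ₀ (fun L _ _ => (h2 L).1) hE
  refine ⟨Θ, hT, hext, ?_, ?_⟩
  · intro hS F L _ _ _ h hP
    subst hS
    have hP : AllC K L := hP.elim (allC_of K L WVC_thm WVO_thm) id
    let : Algebra F L := (IntermediateField.inclusion h : F →+* L).toAlgebra
    have : IsScalarTower K F L := IsScalarTower.of_algebraMap_eq fun x => rfl
    have hG : GoodR K L (Θ L) := by
      intro V _ _ _ ρ hρ hq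
      rw [hΘ₀ L]
      exact ((h2 L).2 V ρ hρ).1 hq
    have key : StarkP.unitIndex (Θ F) * (if Fintype.card (InfinitePlace K) = 1 then
            (classNumber K : ℚ) / Units.torsionOrder K else 1) =
          (classNumber F : ℚ) / Units.torsionOrder F := by
      by_cases hc : Fintype.card (InfinitePlace K) = 1
      · rw [if_pos hc]
        have h3 := index_one K F L hZD hZR hZL hZX hZP hZN WRS_thm (Θ F) (Θ L)
          (hT F) (hT L) (hext F L h) hG hP hc
        refine Rat.cast_injective (α := ℝ) ?_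
        push_cast
        exact h3
      · rw [if_neg hc]
        have hc' : 1 < Fintype.card (InfinitePlace K) := by
          have h4 : 0 < Fintype.card (InfinitePlace K) := Fintype.card_pos
          omega
        have h3 := index_two K F L hZR hZL hZX hZP WVT_thm (Θ F) (Θ L)
          (hT F) (hT L) (hext F L h) hG hP hc'
        refine Rat.cast_injective (α := ℝ) ?_
        push_cast
        exact h3
    refine ⟨key, fun hK => ?_⟩
    obtain ⟨h5, h6, h7, h8⟩ := hZN.2.1 K hK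
    have h9 := WZM_thm K F L h8 hP.1
    rw [if_pos h7, h5, h6, h9] at key
    push_cast at key
    linarith
  · intro L _ _ V _ _ _ ρ hρ
    rw [hΘ₀ L]
    refine (h2 L).2 V ρ (hρ.imp_left fun h => ⟨h.1, h.2.1, h.2.2⟩)

end StarkC.ABS
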