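import Pool.Agent.ABS.PDefsV

/-!
# Definitions for the statement about one `φ`: the class of fields, with pure fields and fields of
squarefree discriminant
-/

open NumberField IsDedekindDomain IntermediateField

namespace StarkP

section

variable {K : Type} [Field K] {F L : IntermediateField K (AlgebraicClosure K)} (h : F ≤ L)

/-- The class of extensions `F/K` (in the finite Galois extension `L/K`): the degree is `4`, `6` or a
prime number, or `MinRank`, or all nontrivial irreducible constituents of the permutation character
`Ind 1` from `Gal(L/F)` belong to the class `InClsS`, or `K` is the field of rational numbers and the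
discriminant of `F` is squarefree or the degree `n` of `F` is odd and `F = K(α)` with `α ^ n ∈ K` (a
pure field of odd degree). -/
def GoodD [NumberField K] [NumberField F] [NumberField L] : Prop :=
  Module.finrank K F = 4 ∨ Module.finrank K F = 6 ∨ (Module.finrank K F).Prime ∨ MinRank h ∨
    (∀ (W : Type) [AddCommGroup W] [Module ℂ W] [Module.Finite ℂ W]
      (σ : Representation ℂ (L ≃ₐ[K] L) W), ConF h σ → InClsS σ) ∨
    (Module.finrank ℚ K = 1 ∧ (Squarefree (discr F) ∨ (Odd (Module.finrank K F) ∧
      ∃ α : F, K⟮α⟯ = ⊤ ∧ α ^ Module.finrank K F ∈ Set.range (algebraMap K F))))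

end

end StarkP
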