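import Pool.Agent.ABS.PDefsV

/-!
# Definitions for the statement about one `φ`: the class of fields, closed under extensions of
minimal rank
-/

open NumberField IsDedekindDomain IntermediateField

namespace StarkP

section

variable {K : Type} [Field K] {F L : IntermediateField K (AlgebraicClosure K)} (h : F ≤ L)

/-- The class of extensions `F/K` (in the finite Galois extension `L/K`): the degree is `4`, `6` or a
prime number, or all nontrivial irreducible constituents of the permutation character `Ind 1` from
`Gal(L/F)` belong to the class `InClsS`, or `K` is the field of rational numbers and the discriminant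
of `F` is squarefree or the degree `n` of `F` is odd and `F = K(α)` with `α ^ n ∈ K` (a pure field of
odd degree). -/
def GoodB [NumberField K] [NumberField F] [NumberField L] : Prop :=
  Module.finrank K F = 4 ∨ Module.finrank K F = 6 ∨ (Module.finrank K F).Prime ∨
    (∀ (W : Type) [AddCommGroup W] [Module ℂ W] [Module.Finite ℂ W]
      (σ : Representation ℂ (L ≃ₐ[K] L) W), ConF h σ → InClsS σ) ∨
    (Module.finrank ℚ K = 1 ∧ (Squarefree (discr F) ∨ (Odd (Module.finrank K F) ∧
      ∃ α : F, K⟮α⟯ = ⊤ ∧ α ^ Module.finrank K F ∈ Set.range (algebraMap K F))))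

/-- The number of double cosets of `Gal(L/F)` in `Gal(L/K)` (the number of orbits of `Gal(L/F)` on the
conjugates of `F` over `K`). -/
noncomputable def rankF : ℕ :=
  Nat.card (DoubleCoset.Quotient (GalF h : Set (L ≃ₐ[K] L)) (GalF h : Set (L ≃ₐ[K] L)))

/-- `F` has minimal rank over a field `E` as in `GoodB`: there are `k + 1` groups
`Gal(L/E) = C_0 > C_1 > ... > C_k = Gal(L/F)` (so `k + 1` fields `E = F_0 < F_1 < ... < F_k = F`), and
`rankF` increases by `k`.  This is so for `E = F` (`k = 0`), and for `E = K` and `k = 1` it means that
`Gal(L/K)` is doubly transitive on the conjugates of `F`. -/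
def GoodT [NumberField K] [NumberField L] : Prop :=
  ∃ (E : IntermediateField K (AlgebraicClosure K)) (hE : E ≤ F) (_ : NumberField E)
    (k : ℕ) (C : Fin (k + 1) → Subgroup (L ≃ₐ[K] L)), GoodB (hE.trans h) ∧ StrictAnti C ∧
    C 0 = GalF (hE.trans h) ∧ C (Fin.last k) = GalF h ∧ rankF h = rankF (hE.trans h) + k

end

end StarkP
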