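import Pool.Agent.ABS.PDefsS

/-!
# Definitions for the statement about one `φ`: the class of extensions
-/

open NumberField IsDedekindDomain

namespace StarkP

section

variable {K : Type} [Field K] {F L : IntermediateField K (AlgebraicClosure K)} (h : F ≤ L)

/-- The subgroup `Gal(L/F)` of `Gal(L/K)`. -/
def GalF : Subgroup (L ≃ₐ[K] L) where
  carrier := {g | ∀ x : F, g (IntermediateField.inclusion h x) = IntermediateField.inclusion h x}
  mul_mem' {a b} ha hb x := by
    show a (b _) = _
    rw [hb x, ha x]
  one_mem' _ := rfl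
  inv_mem' {a} ha x := by
    have h1 := congrArg (a⁻¹ : L ≃ₐ[K] L) (ha x)
    rw [← AlgEquiv.mul_apply, inv_mul_cancel] at h1
    exact h1.symm

/-- `Gal(L/K)` has minimal rank on the conjugates of `F`: there are `k + 1` groups
`Gal(L/K) = C_0 > C_1 > ... > C_k = Gal(L/F)` (so `k + 1` fields `K = F_0 < F_1 < ... < F_k = F`), and the
number of double cosets of `Gal(L/F)` (the number of orbits of `Gal(L/F)` on the conjugates of `F`) is
`k + 1`.  For `k = 1`: `Gal(L/K)` is doubly transitive on the conjugates of `F`. -/
def MinRank : Prop :=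
  ∃ (k : ℕ) (C : Fin (k + 1) → Subgroup (L ≃ₐ[K] L)), StrictAnti C ∧ C 0 = ⊤ ∧
    C (Fin.last k) = GalF h ∧
    Nat.card (DoubleCoset.Quotient (GalF h : Set (L ≃ₐ[K] L)) (GalF h : Set (L ≃ₐ[K] L))) = k + 1

/-- The class of extensions `F/K` (in the finite Galois extension `L/K`): the degree is `4`, `6` or a
prime number, or `MinRank`, or all nontrivial irreducible constituents of the permutation character
`Ind 1` from `Gal(L/F)` belong to the class `InClsS`. -/
def GoodExt [NumberField K] [NumberField L] : Prop :=
  Module.finrank K F = 4 ∨ Module.finrank K F = 6 ∨ (Module.finrank K F).Prime ∨ MinRank h ∨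
    ∀ (W : Type) [AddCommGroup W] [Module ℂ W] [Module.Finite ℂ W]
      (σ : Representation ℂ (L ≃ₐ[K] L) W), ConF h σ → InClsS σ

end

end StarkP
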