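import Pool.Agent.ABS.PDefsU

/-!
# Definitions for the statement about one `φ` for all rational-valued characters
-/

open NumberField IsDedekindDomain

namespace StarkP

section Occ

variable {K L : Type} [Field K] [Field L] [NumberField L] [Algebra K L]
variable {V : Type} [AddCommGroup V] [Module ℂ V]

/-- Every linear character `ψ` which occurs in `ρ` satisfies `Hom_{ℂ[G]}(V_ψ^*, ℂ ⊗ X) ≠ 0`: the
contragredient `ψ⁻¹` occurs in `ℂ ⊗ X`. -/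
def Occurs (T : Set (HeightOneSpectrum (𝓞 L))) (ρ : Representation ℂ (L ≃ₐ[K] L) V) : Prop :=
  ∀ (ψ : (L ≃ₐ[K] L) →* ℂˣ) (v : V), v ≠ 0 → (∀ g, ρ g v = ((ψ g : ℂˣ) : ℂ) • v) →
    ∃ x ∈ XC L T, x ≠ 0 ∧ ∀ g : L ≃ₐ[K] L,
      act (g : L ≃+* L) x = (((ψ g)⁻¹ : ℂˣ) : ℂ) • x

end Occ

end StarkP
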