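import Pool.Agent.ABS.StP

/-!
# Project ABS, part P, module PSQ: squares of the prime field
-/

set_option autoImplicit false
set_option linter.unusedSectionVars false

open scoped Classical MatrixGroups ComplexConjugate

namespace StarkC.ABS

namespace PSQx

lemma pow_odd (h j : ℕ) : ∃ M, Odd M ∧ (2 * h + 1) ^ (2 * j + 1) = 2 * (h * M) + 1 := by
  induction j with
  | zero => exact ⟨1, odd_one, by ring⟩
  | succ j ih =>
    obtain ⟨M, hM, e⟩ := ih
    refine ⟨M * (2 * h + 1) ^ 2 + 2 * h + 2, ?_, ?_⟩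
    · have h1 : Odd ((2 * h + 1) ^ 2) := Odd.pow ⟨h, rfl⟩
      have h2 : Odd (M * (2 * h + 1) ^ 2) := hM.mul h1
      obtain ⟨a, ha⟩ := h2
      exact ⟨a + h + 1, by omega⟩
    · have e1 : (2 * h + 1) ^ (2 * (j + 1) + 1) =
          (2 * h + 1) ^ (2 * j + 1) * (2 * h + 1) ^ 2 := by ring
      rw [e1, e]
      ring

variable {k : Type} [Field k] [Fintype k]

lemma odd_char (hq : Odd (Fintype.card k)) (p : ℕ) [Fact p.Prime] [CharP k p] : p ≠ 2 := by
  rintro rfl
  obtain ⟨n, _, hn⟩ := FiniteField.card k 2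
  rw [hn] at hq
  exact (Nat.not_odd_iff_even.2 (Nat.even_pow.2 ⟨even_two, n.ne_zero⟩)) hq

/-- squares of the prime field -/
lemma sq_iff (hq : Odd (Fintype.card k)) (hs : ¬ IsSquare (Fintype.card k)) (p : ℕ)
    [Fact p.Prime] [CharP k p] (t : ℕ) (ht : ¬ p ∣ t) :
    IsSquare (t : k) ↔ IsSquare (t : ZMod p) := by
  have hp2 : p ≠ 2 := odd_char hq p
  obtain ⟨n, hp, hn⟩ := FiniteField.card k p
  have hnodd : Odd (n : ℕ) := by
    by_contra h
    rw [Nat.not_odd_iff_even] at h
    obtain ⟨m, hm⟩ := h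
    exact hs ⟨p ^ m, by rw [hn, hm, pow_add]⟩
  obtain ⟨h, hh⟩ := hp.odd_of_ne_two hp2
  obtain ⟨j, hj⟩ := hnodd
  obtain ⟨M, hM, e⟩ := pow_odd h j
  have hc : Fintype.card k = 2 * (h * M) + 1 := by rw [hn, hj, hh, e]
  have hk0 : (t : k) ≠ 0 := fun h0 => ht ((CharP.cast_eq_zero_iff k p t).1 h0)
  have hz0 : (t : ZMod p) ≠ 0 := fun h0 => ht ((ZMod.natCast_eq_zero_iff t p).1 h0)
  have hr : ringChar k ≠ 2 := by
    rw [ringChar.eq k p]
    exact hp2
  rw [FiniteField.isSquare_iff hr hk0, ZMod.euler_criterion p hz0]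
  have e1 : Fintype.card k / 2 = h * M := by omega
  have e2 : p / 2 = h := by omega
  rw [e1, e2]
  let φ : ZMod p →+* k := ZMod.castHom (dvd_refl p) k
  have hφ : Function.Injective φ := φ.injective
  have e3 : (t : k) ^ (h * M) = φ ((t : ZMod p) ^ (h * M)) := by
    rw [map_pow, map_natCast]
  rw [e3, pow_mul]
  have hd := ZMod.pow_div_two_eq_neg_one_or_one p hz0
  rw [e2] at hd
  have hne : (-1 : ZMod p) ≠ 1 := by
    intro h0
    have h1 : ((2 : ℕ) : ZMod p) = 0 := by
      push_cast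
      linear_combination -h0
    have h2 := (ZMod.natCast_eq_zero_iff 2 p).1 h1
    have h3 := (Nat.prime_dvd_prime_iff_eq hp Nat.prime_two).1 h2
    exact hp2 h3
  constructor
  · intro h1
    have h2 : ((t : ZMod p) ^ h) ^ M = 1 := hφ (by rw [h1, map_one])
    rcases hd with h3 | h3
    · exact h3
    · rw [h3, hM.neg_one_pow] at h2
      exact absurd h2 hne
  · intro h1
    rw [h1, one_pow, map_one]

lemma chi_eq (hq : Odd (Fintype.card k)) (hs : ¬ IsSquare (Fintype.card k)) (p : ℕ)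
    [Fact p.Prime] [CharP k p] (t : ℕ) (ht : ¬ p ∣ t) :
    quadraticChar k (t : k) = quadraticChar (ZMod p) (t : ZMod p) := by
  have hk0 : (t : k) ≠ 0 := fun h0 => ht ((CharP.cast_eq_zero_iff k p t).1 h0)
  have hz0 : (t : ZMod p) ≠ 0 := fun h0 => ht ((ZMod.natCast_eq_zero_iff t p).1 h0)
  have h := sq_iff hq hs p t ht
  rcases quadraticChar_dichotomy hk0 with h1 | h1
  · rw [h1, eq_comm, quadraticChar_one_iff_isSquare hz0, ← h, ← quadraticChar_one_iff_isSquare hk0]
    exact h1
  · rw [h1, eq_comm, quadraticChar_neg_one_iff_not_isSquare, ← h,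
      ← quadraticChar_neg_one_iff_not_isSquare]
    exact h1

lemma sum_zmod (p : ℕ) [hp : Fact p.Prime] (hp2 : p ≠ 2) :
    ∑ t ∈ (Finset.range p).filter (fun t => p.Coprime t), quadraticChar (ZMod p) (t : ZMod p) = 0 := by
  rw [Finset.sum_filter_of_ne]
  · have h := quadraticChar_sum_zero (F := ZMod p) (by rw [ZMod.ringChar_zmod_n]; exact hp2)
    rw [← h]
    symm
    refine Finset.sum_nbij' (fun a => a.val) (fun t => (t : ZMod p)) (fun a _ => ?_)
      (fun t _ => Finset.mem_univ _) (fun a _ => ?_) (fun t ht => ?_) (fun a _ => ?_)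
    · exact Finset.mem_range.2 (ZMod.val_lt a)
    · exact ZMod.natCast_zmod_val a
    · exact ZMod.val_cast_of_lt (Finset.mem_range.1 ht)
    · rw [ZMod.natCast_zmod_val]
  · intro t _ ht
    rw [hp.out.coprime_iff_not_dvd]
    intro hd
    apply ht
    rw [(ZMod.natCast_eq_zero_iff t p).2 hd]
    exact MulChar.map_zero _

lemma card_sol (hr : ringChar k ≠ 2) {t c : k} (ht : t ≠ 0) (hc : c ≠ 0) :
    ((Finset.univ.filter fun a : kˣ => t * (a : k) ^ 2 = c).card : ℤ) =
      quadraticChar k c * quadraticChar k t + 1 := by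
  have h1 := quadraticChar_card_sqrts (F := k) hr (c / t)
  have h2 : quadraticChar k (c / t) = quadraticChar k c * quadraticChar k t := by
    have e : c / t = c * t * (t⁻¹) ^ 2 := by
      field_simp
    rw [e, map_mul, map_mul, quadraticChar_sq_one' (inv_ne_zero ht), mul_one]
  rw [← h2, ← h1]
  congr 1
  refine Finset.card_bij (fun a _ => (a : k)) (fun a ha => ?_) (fun a _ b _ h => Units.ext h)
    (fun x hx => ?_)
  · rw [Finset.mem_filter] at ha
    rw [Set.mem_toFinset, Set.mem_ofPred_eq, eq_div_iff ht, mul_comm]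
    exact ha.2
  · rw [Set.mem_toFinset, Set.mem_ofPred_eq] at hx
    have hx0 : x ≠ 0 := by
      rintro rfl
      have h3 : c / t = 0 := by rw [← hx]; ring
      exact (div_ne_zero hc ht) h3
    refine ⟨Units.mk0 x hx0, ?_, rfl⟩
    rw [Finset.mem_filter]
    refine ⟨Finset.mem_univ _, ?_⟩
    rw [Units.val_mk0, hx]
    field_simp

end PSQx

open PSQx in
theorem PSQ_thm : Stmt_PSQ := by
  intro k _ _ hq hs
  have hchar : CharP k (ringChar k) := ringChar.charP k
  have hprime : (ringChar k).Prime := CharP.char_is_prime k (ringChar k)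
  have : Fact (ringChar k).Prime := ⟨hprime⟩
  have hp2 : ringChar k ≠ 2 := odd_char hq (ringChar k)
  set p : ℕ := ringChar k with hp
  set S : Finset ℕ := (Finset.range p).filter (fun t => p.Coprime t) with hS
  have hcard : S.card = p - 1 := by
    rw [hS, ← Nat.totient_eq_card_coprime, Nat.totient_prime hprime]
  have hdvd : ∀ t ∈ S, ¬ p ∣ t := by
    intro t ht
    rw [hS, Finset.mem_filter, hprime.coprime_iff_not_dvd] at ht
    exact ht.2
  have hne : ∀ t ∈ S, (t : k) ≠ 0 := fun t ht h0 => hdvd t ht ((CharP.cast_eq_zero_iff k p t).1 h0)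
  have hsum : ∑ t ∈ S, quadraticChar k (t : k) = 0 := by
    rw [Finset.sum_congr rfl fun t ht => chi_eq hq hs p t (hdvd t ht)]
    exact sum_zmod p hp2
  have h1p : 1 ≤ p := hprime.one_le
  refine ⟨?_, fun c hc f => ?_⟩
  · have h1 : ∑ t ∈ S, (quadraticChar k (t : k) + 1) = ((p - 1 : ℕ) : ℤ) := by
      rw [Finset.sum_add_distrib, hsum, Finset.sum_const, hcard]
      simp
    have h2 : ∑ t ∈ S, (quadraticChar k (t : k) + 1) =
        ∑ t ∈ S, (if IsSquare (t : k) then (2 : ℤ) else 0) := by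
      refine Finset.sum_congr rfl fun t ht => ?_
      rcases quadraticChar_dichotomy (hne t ht) with h3 | h3
      · rw [if_pos ((quadraticChar_one_iff_isSquare (hne t ht)).1 h3), h3]
        norm_num
      · rw [if_neg (quadraticChar_neg_one_iff_not_isSquare.1 h3), h3]
        norm_num
    rw [h2, ← Finset.sum_filter, Finset.sum_const, nsmul_eq_mul] at h1
    have h3 : ((2 * (S.filter fun t : ℕ => IsSquare (t : k)).card : ℕ) : ℤ) = ((p - 1 : ℕ) : ℤ) := by
      rw [← h1]
      push_cast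
      ring
    exact_mod_cast h3
  · have h1 : ∀ t ∈ S, ∑ a : kˣ, (if (t : k) * (a : k) ^ 2 = c then f c else 0) =
        ((quadraticChar k c * quadraticChar k (t : k) + 1 : ℤ) : ℂ) * f c := by
      intro t ht
      rw [← Finset.sum_filter, Finset.sum_const, nsmul_eq_mul]
      congr 1
      rw [← card_sol hp2 (hne t ht) hc]
      push_cast
      rfl
    rw [Finset.sum_congr rfl h1, ← Finset.sum_mul]
    congr 1
    rw [← Int.cast_sum, Finset.sum_add_distrib, ← Finset.mul_sum, hsum, mul_zero, zero_add,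
      Finset.sum_const, hcard]
    simp [Nat.cast_sub h1p]

end StarkC.ABS
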