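import Pool.Agent.ABS.QTR

/-!
# Project ABS, part Q: the trace of `e Ind_T ψ + R`, explicit form (helper91)
-/

set_option autoImplicit false

open scoped Classical MatrixGroups ComplexConjugate

namespace StarkC.ABS

open QTRx in
/-- The trace of `χ = e Ind_T ψ + R`. -/
theorem QTS_thm (hQVT : Stmt_QVT)
    (hsig : ∀ n t : ℕ, 0 < n → n.Coprime t → ∃ σ : ℂ ≃+* ℂ, ∀ z : ℂ, z ^ n = 1 → σ z = z ^ t)
    (hF : ∀ (G : Type) [Group G] [Fintype G] (n m r : ℕ) (χ : G → ℂ) (H : Fin r → Subgroup G)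
      (ψ : ∀ i, H i →* ℂˣ) (c : Fin r → ℤ), 0 < n → 0 < m → (∀ i, ψ i ^ n = 1) →
      (∀ g, (m : ℂ) * χ g = ∑ i, (c i : ℂ) * indFun (H i) (extZ (ψ i)) g) →
      ∃ e : ℕ, 0 < e ∧
        e = (((Finset.range n).filter fun t => n.Coprime t).filter fun t => ∀ σ : ℂ ≃+* ℂ,
          (∀ z : ℂ, z ^ n = 1 → σ z = z ^ t) → ∀ g, σ (χ g) = χ g).card ∧
        e * Module.finrank ℚ (StarkP.charField χ) = n.totient ∧
        ∀ g, ((m * e : ℕ) : ℂ) * StarkP.trChar χ g = ∑ i, (c i : ℂ) *
          ∑ t ∈ (Finset.range n).filter (fun t => n.Coprime t), indFun (H i) (extZ (ψ i ^ t)) g)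
    (G : Type) [Group G] [Fintype G] (T : Subgroup G) (w : G) (ψ : T →* ℂˣ) (e : ℤ)
    (R χ : G → ℂ) (hD : Dih T w) (h3 : 3 ≤ orderOf ψ) (he : e = 1 ∨ e = -1) (hR : PermC R)
    (hχ : ∀ g, χ g = (e : ℂ) * indFun T (extZ ψ) g + R g) :
    MonC (orderOf ψ) χ ∧ (∀ g, conj (χ g) = χ g) ∧
      2 * Module.finrank ℚ (StarkP.charField χ) = (orderOf ψ).totient ∧
      ∀ g, 2 * StarkP.trChar χ g =
        (e : ℂ) * ∑ t ∈ (Finset.range (orderOf ψ)).filter (fun t => (orderOf ψ).Coprime t),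
          indFun T (extZ (ψ ^ t)) g +
        2 * ((Module.finrank ℚ (StarkP.charField χ) : ℂ) * R g) := by
  have he0 : (e : ℂ) ≠ 0 := by rcases he with rfl | rfl <;> norm_num
  obtain ⟨m, HR, cR, hRs⟩ := hR
  have hR : PermC R := ⟨m, HR, cR, hRs⟩
  have hr0 : 0 < orderOf ψ := by omega
  obtain ⟨r, hr⟩ : ∃ r, r = orderOf ψ := ⟨_, rfl⟩
  -- the terms
  let H : Fin (m + 1) → Subgroup G := Fin.cons T HR
  let Ps : ∀ i, H i →* ℂˣ := Fin.cons (α := fun i => H i →* ℂˣ) ψ fun i => (1 : HR i →* ℂˣ)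
  let c : Fin (m + 1) → ℤ := Fin.cons e cR
  have hψn : ∀ i, Ps i ^ orderOf ψ = 1 := by
    intro i
    refine Fin.cases ?_ (fun j => ?_) i
    · exact pow_orderOf_eq_one ψ
    · exact one_pow (M := HR j →* ℂˣ) _
  have hP0 : ∀ (t : ℕ) (g : G), indFun (H 0) (extZ (Ps 0 ^ t)) g = indFun T (extZ (ψ ^ t)) g :=
    fun t g => rfl
  have hPs : ∀ (t : ℕ) (j : Fin m) (g : G), indFun (H j.succ) (extZ (Ps j.succ ^ t)) g =
      indFun (HR j) (fun _ => 1) g := fun t j g => by
    have h : Ps j.succ ^ t = (1 : HR j →* ℂˣ) := one_pow (M := HR j →* ℂˣ) t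
    rw [h]
    exact indFun_one (HR j) g
  have hPs1 : ∀ (j : Fin m) (g : G), indFun (H j.succ) (extZ (Ps j.succ)) g =
      indFun (HR j) (fun _ => 1) g := fun j g => indFun_one (HR j) g
  have hchi : ∀ g, χ g = ∑ i, (c i : ℂ) * indFun (H i) (extZ (Ps i)) g := by
    intro g
    rw [Fin.sum_univ_succ, hχ g, hRs g]
    congr 1
    refine Finset.sum_congr rfl fun j _ => ?_
    rw [hPs1]
    rfl
  obtain ⟨e', he', hcard, hfin, htr⟩ := hF G (orderOf ψ) 1 (m + 1) χ H Ps c hr0 one_pos hψn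
    (fun g => by rw [Nat.cast_one, one_mul]; exact hchi g)
  -- an automorphism on `χ`
  have hσχ : ∀ (σ : ℂ →+* ℂ) (g : G), σ (χ g) = (e : ℂ) * indFun T (fun x => σ (extZ ψ x)) g +
      R g := by
    intro σ g
    rw [hχ g, map_add, map_mul, map_intCast, map_indFun, map_perm σ hR]
  have hreal : ∀ g, conj (χ g) = χ g := by
    intro g
    rw [hσχ (starRingEnd ℂ) g, ← map_indFun (starRingEnd ℂ) T (extZ ψ) g, real hD ψ g, hχ g]
  obtain ⟨y, hyT, hy⟩ := exists_val ψ
  have hy1 : y ≠ 1 := by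
    rintro rfl
    have h1 : extZ ψ 1 = 1 := by
      rw [ext_of T.one_mem]
      have : (⟨1, T.one_mem⟩ : T) = 1 := rfl
      rw [this, map_one]
      rfl
    rw [h1] at hy
    have := hy.unique IsPrimitiveRoot.one
    omega
  have hset : (((Finset.range (orderOf ψ)).filter fun t => (orderOf ψ).Coprime t).filter
      fun t => ∀ σ : ℂ ≃+* ℂ, (∀ z : ℂ, z ^ orderOf ψ = 1 → σ z = z ^ t) →
        ∀ g, σ (χ g) = χ g) = {1, orderOf ψ - 1} := by
    ext t
    rw [Finset.mem_filter, Finset.mem_filter, Finset.mem_range, Finset.mem_insert,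
      Finset.mem_singleton]
    constructor
    · rintro ⟨⟨ht, hco⟩, h⟩
      obtain ⟨σ, hσ⟩ := hsig (orderOf ψ) t hr0 hco
      have h1 := h σ hσ y
      have h2 : σ (χ y) = (e : ℂ) * σ (indFun T (extZ ψ) y) + R y := by
        have := hσχ (σ : ℂ →+* ℂ) y
        rw [← map_indFun] at this
        exact this
      rw [h2, hχ y, hQVT G T w ψ hD y hyT hy1] at h1
      have h4 := mul_left_cancel₀ he0 (add_right_cancel h1)
      rw [map_add, map_inv₀, hσ _ (ext_root ψ hyT)] at h4
      exact two_exp hy h3 ht h4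
    · intro h
      have hco : (orderOf ψ).Coprime t := by
        rcases h with rfl | rfl
        · exact Nat.coprime_one_right _
        · have : (orderOf ψ - 1).Coprime (orderOf ψ - 1 + 1) := by simp
          rw [Nat.sub_add_cancel hr0] at this
          exact this.symm
      refine ⟨⟨by rcases h with rfl | rfl <;> omega, hco⟩, fun σ hσ g => ?_⟩
      have h2 := hσχ (σ : ℂ →+* ℂ) g
      have h4 : indFun T (fun x => (σ : ℂ →+* ℂ) (extZ ψ x)) g = indFun T (extZ ψ) g := by
        rcases h with rfl | rfl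
        · refine indFun_congr T _ _ (fun x hx => ?_) g
          have := hσ _ (ext_root ψ hx)
          rw [pow_one] at this
          exact this
        · have h5 : indFun T (fun x => (σ : ℂ →+* ℂ) (extZ ψ x)) g =
              indFun T (fun x => (starRingEnd ℂ) (extZ ψ x)) g := by
            refine indFun_congr T _ _ (fun x hx => ?_) g
            have h6 := hσ _ (ext_root ψ hx)
            have h7 := Complex.norm_eq_one_of_pow_eq_one (ext_root ψ hx) hr0.ne'
            have h8 : extZ ψ x ≠ 0 := by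
              intro h9
              rw [h9, norm_zero] at h7
              exact zero_ne_one h7
            have h10 : extZ ψ x ^ (orderOf ψ - 1) * extZ ψ x = 1 := by
              rw [← pow_succ, Nat.sub_add_cancel hr0]
              exact ext_root ψ hx
            have h11 : extZ ψ x ^ (orderOf ψ - 1) = (extZ ψ x)⁻¹ := eq_inv_of_mul_eq_one_left h10
            change σ (extZ ψ x) = _
            rw [h6, h11, Complex.inv_eq_conj h7]
          rw [h5, ← map_indFun (starRingEnd ℂ) T (extZ ψ) g]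
          exact real hD ψ g
      rw [h4] at h2
      change σ (χ g) = _ at h2
      rw [h2, hχ g]
  have he2 : e' = 2 := by
    rw [hcard, hset, Finset.card_pair]
    omega
  have hfin2 : 2 * Module.finrank ℚ (StarkP.charField χ) = (orderOf ψ).totient := by
    rw [← hfin, he2]
  refine ⟨⟨m + 1, H, Ps, c, hψn, hchi⟩, hreal, hfin2, fun g => ?_⟩
  have h1 := htr g
  have hc0 : (c 0 : ℂ) = (e : ℂ) := rfl
  have hcs : ∀ j : Fin m, (c j.succ : ℂ) = (cR j : ℂ) := fun j => rfl
  have hphi : (((Finset.range (orderOf ψ)).filter fun t => (orderOf ψ).Coprime t).card : ℂ) =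
      2 * (Module.finrank ℚ (StarkP.charField χ) : ℂ) := by
    have h2 : ((Finset.range (orderOf ψ)).filter fun t => (orderOf ψ).Coprime t).card =
      (orderOf ψ).totient := rfl
    rw [h2, ← hfin2]
    push_cast
    ring
  rw [Fin.sum_univ_succ] at h1
  simp only [hP0, hPs, hcs, hc0, Finset.sum_const, nsmul_eq_mul, hphi] at h1
  rw [he2] at h1
  have h2 : ∑ j : Fin m, (cR j : ℂ) * (2 * (Module.finrank ℚ (StarkP.charField χ) : ℂ) *
      indFun (HR j) (fun _ => 1) g) =
      2 * (Module.finrank ℚ (StarkP.charField χ) : ℂ) * R g := by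
    rw [hRs g, Finset.mul_sum]
    refine Finset.sum_congr rfl fun j _ => ?_
    ring
  rw [h2] at h1
  push_cast at h1 ⊢
  linear_combination h1

end StarkC.ABS
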