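import Pool.Agent.ABS.ZRM
import Pool.Agent.ABS.ZID
import Pool.Agent.ABS.ZUN
import Pool.Agent.ABS.ZVA
import Pool.Agent.ABS.FINV
import Pool.Agent.ABS.StD4
import Pool.Agent.ABS.QTS

/-!
# Project ABS (MP_46b841_nt), part Q: the prime two (helper91)

`χ = e Ind_T ψ + R`, `ψ` of order `2 ^ n m`, `m` odd, `n ≥ 3`, inverted by an involution.  By part D
(`ConclD`) and Ramanujan sums `A_S(Tr χ, φ)` is a norm from the subfields of `ℚ(ζ_(2^n))⁺`.
-/

set_option autoImplicit false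

open NumberField IsDedekindDomain
open scoped TensorProduct Classical ComplexConjugate

namespace StarkC.ABS

open StarkC.MON
open StarkP (rootField charField trChar NormIn AbsIn IsTheta)

/-- A character of `A` and an element `g` with `ψ(g⁻¹ a g) = ψ(a)^s`, `ψ(g²) = 1`. -/
structure DL {G : Type} [Group G] (A : Subgroup G) (ψ : A →* ℂˣ) (g : G) (s : ℕ) : Prop where
  norm : ∀ a ∈ A, g⁻¹ * a * g ∈ A
  cj : ∀ a b : A, (b : G) = g⁻¹ * a * g → ψ b = ψ a ^ s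
  mem : g * g ∈ A
  sq : ∀ a : A, (a : G) = g * g → ψ a = 1

namespace QL2x

open ZRMx

/-- The characters of the kernel form a leaf. -/
theorem leaf {G : Type} [Group G] {A : Subgroup G} {ψ : A →* ℂˣ} {g : G} {n s : ℕ}
    (hL : DL A ψ g s) (htt : TT n s) (a e : ℕ)
    (ho : orderOf ((ψ ^ a).comp (ψ ^ e).ker.subtype) = 2 ^ n) :
    Leaf ((ψ ^ e).ker.map A.subtype) (tr (ψ ^ e).ker ((ψ ^ a).comp (ψ ^ e).ker.subtype))
      g n 1 s := by
  have hker : ∀ y : A, y ∈ (ψ ^ e).ker ↔ ψ y ^ e = 1 := by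
    intro y
    rw [MonoidHom.mem_ker, MonoidHom.pow_apply]
  have hval : ∀ (y : A) (hy : y ∈ (ψ ^ e).ker) (h : (y : G) ∈ (ψ ^ e).ker.map A.subtype),
      tr (ψ ^ e).ker ((ψ ^ a).comp (ψ ^ e).ker.subtype) ⟨(y : G), h⟩ = ψ y ^ a := by
    intro y hy h
    rw [tr_apply _ _ y hy h]
    rfl
  refine ⟨htt, odd_one, by simp [Nat.mod_one], ?_, ?_, ?_, ?_, ?_⟩
  · rw [orderOf_tr, ho, mul_one]
  · rintro _ ⟨y, hy, rfl⟩
    refine ⟨⟨g⁻¹ * y * g, hL.norm y y.2⟩, ?_, rfl⟩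
    have h1 := hL.cj y ⟨g⁻¹ * y * g, hL.norm y y.2⟩ rfl
    have hy' : ψ y ^ e = 1 := (hker y).1 hy
    show _ ∈ (ψ ^ e).ker
    rw [hker, h1, ← pow_mul, mul_comm, pow_mul, hy', one_pow]
  · rintro ⟨_, ⟨y, hy, rfl⟩⟩ ⟨_, ⟨y', hy', rfl⟩⟩ h
    have h1 := hL.cj y y' h
    have h2 := hval y hy ⟨y, hy, rfl⟩
    have h3 := hval y' hy' ⟨y', hy', rfl⟩
    show tr (ψ ^ e).ker ((ψ ^ a).comp (ψ ^ e).ker.subtype) ⟨(y' : G), _⟩ =
      (tr (ψ ^ e).ker ((ψ ^ a).comp (ψ ^ e).ker.subtype) ⟨(y : G), _⟩) ^ s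
    rw [h2, h3, h1, ← pow_mul, ← pow_mul, mul_comm]
  · refine ⟨⟨g * g, hL.mem⟩, ?_, rfl⟩
    show _ ∈ (ψ ^ e).ker
    rw [hker, hL.sq ⟨g * g, hL.mem⟩ rfl, one_pow]
  · rintro ⟨_, ⟨y, hy, rfl⟩⟩ h
    have h1 := hL.sq y h
    have h2 := hval y hy ⟨y, hy, rfl⟩
    show tr (ψ ^ e).ker ((ψ ^ a).comp (ψ ^ e).ker.subtype) ⟨(y : G), _⟩ = 1
    rw [h2, h1, one_pow]

/-- Ramanujan sums. -/
theorem rama (G : Type) [Group G] [Fintype G] (A : Subgroup G) (ψ : A →* ℂˣ) (g : G) (n m s : ℕ)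
    (hL : DL A ψ g s) (htt : TT n s) (hodd : Odd m) (hord' : orderOf ψ = 2 ^ n * m) :
    ∃ (B : ℕ → Subgroup G) (η : ∀ d, B d →* ℂˣ), (∀ d ∈ m.divisors, Leaf (B d) (η d) g n 1 s) ∧
      ∀ x, ∑ j ∈ Ex (2 ^ n * m), indFun A (extZ (ψ ^ j)) x =
        ∑ d ∈ m.divisors, (ArithmeticFunction.moebius d : ℂ) *
          ∑ j ∈ Ex (2 ^ n), indFun (B d) (extZ (η d ^ j)) x := by
  obtain ⟨q, hq⟩ : ∃ q, q = 2 ^ n := ⟨_, rfl⟩
  have hq0 : 0 < q := by
    rw [hq]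
    exact pow_pos (by norm_num) n
  have hm : 0 < m := hodd.pos
  have hcop : q.Coprime m := by
    rw [hq]
    exact Nat.Coprime.pow_left n (Nat.coprime_two_left.2 hodd)
  have hord : orderOf ψ = q * m := by rw [hq]; exact hord'
  obtain ⟨a, h1, h2⟩ := Nat.chineseRemainder hcop 1 0
  have ha : m ∣ a := (Nat.modEq_zero_iff_dvd).1 h2
  have ha1 : a % q = 1 % q := h1
  refine ⟨fun d => (ψ ^ (q * d)).ker.map A.subtype,
    fun d => tr (ψ ^ (q * d)).ker ((ψ ^ a).comp (ψ ^ (q * d)).ker.subtype), fun d hd => ?_,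
    fun x => ?_⟩
  · refine leaf hL htt a (q * d) ?_
    rw [← hq]
    exact (IDX_thm A q m a d ψ hq0 hm hcop ha1 ha hord (Nat.dvd_of_mem_divisors hd)).1
  · rw [← hq]
    have hl : ∑ j ∈ Ex (q * m), indFun A (extZ (ψ ^ j)) x =
        indL A (∑ j ∈ Ex (q * m), fun w => ((ψ w : ℂˣ) : ℂ) ^ j) x := by
      rw [map_sum, Finset.sum_apply]
      exact Finset.sum_congr rfl fun j _ => by rw [sum_indFun]
    have hr : ∑ d ∈ m.divisors, (ArithmeticFunction.moebius d : ℂ) *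
        ∑ j ∈ Ex q, indFun ((ψ ^ (q * d)).ker.map A.subtype)
          (extZ (tr (ψ ^ (q * d)).ker ((ψ ^ a).comp (ψ ^ (q * d)).ker.subtype) ^ j)) x =
        indL A (∑ d ∈ m.divisors, ArithmeticFunction.moebius d • ∑ j ∈ Ex q,
          indFun (ψ ^ (q * d)).ker
            (extZ (((ψ ^ a).comp (ψ ^ (q * d)).ker.subtype) ^ j))) x := by
      rw [map_sum, Finset.sum_apply]
      refine Finset.sum_congr rfl fun d _ => ?_
      rw [map_zsmul, Pi.smul_apply, zsmul_eq_mul, map_sum, Finset.sum_apply]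
      congr 1
      refine Finset.sum_congr rfl fun j _ => ?_
      rw [tr_pow, indL_indFun]
    rw [hl]
    refine Eq.trans ?_ hr.symm
    have hF : (∑ j ∈ Ex (q * m), fun w : A => ((ψ w : ℂˣ) : ℂ) ^ j) =
        ∑ d ∈ m.divisors, ArithmeticFunction.moebius d • ∑ j ∈ Ex q,
          indFun (ψ ^ (q * d)).ker
            (extZ (((ψ ^ a).comp (ψ ^ (q * d)).ker.subtype) ^ j)) := by
      funext w
      rw [Finset.sum_apply, Finset.sum_apply]
      obtain ⟨z, hz⟩ : ∃ z : ℂ, z = ((ψ w : ℂˣ) : ℂ) := ⟨_, rfl⟩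
      have hz1 : z ^ (q * m) = 1 := by
        rw [hz, ← Units.val_pow_eq_pow_val, ← MonoidHom.pow_apply, ← hord, pow_orderOf_eq_one]
        rfl
      have h4 := RAM_thm q m a z hq0 hm hcop ha1 ha hz1
      rw [← hz, h4, Finset.mul_sum]
      refine Finset.sum_congr rfl fun d hd => ?_
      rw [Pi.smul_apply, zsmul_eq_mul, Finset.sum_apply]
      rw [Finset.sum_congr rfl fun j _ =>
        (IDX_thm A q m a d ψ hq0 hm hcop ha1 ha hord (Nat.dvd_of_mem_divisors hd)).2 j w]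
      rw [← hz]
      by_cases h : z ^ (q * d) = 1
      · simp only [if_pos h]
        rw [← Finset.mul_sum]
        ring
      · simp only [if_neg h, Finset.sum_const_zero, mul_zero]
    rw [hF]

/-- `Val` and the fields of part D. -/
theorem val_leaf (hD : ConclD) (K L : Type) [Field K] [NumberField K] [Field L] [NumberField L]
    [Algebra K L] [IsGalois K L] (S : Finset (HeightOneSpectrum (𝓞 K)))
    (φ : XQ L (aboveSet K L S) ≃ₗ[ℚ] QU L (aboveSet K L S))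
    (Θ : XC L (aboveSet K L S) →ₗ[ℂ] XC L (aboveSet K L S))
    (A : Subgroup (L ≃ₐ[K] L)) (ψ : A →* ℂˣ) (g : L ≃ₐ[K] L) (n s : ℕ) (h3 : 3 ≤ n)
    (hL : Leaf A ψ g n 1 s) (hφ : IsPhiTheta K (aboveSet K L S) φ Θ) :
    ∃ α : EF2 n s, α ≠ 0 ∧ Val (hTr A ψ (2 ^ n)) S Θ ((Algebra.norm ℚ α : ℚ) : ℂ) := by
  obtain ⟨F, α, hF, hα, hR⟩ := hD K L S φ Θ A ψ g n s h3 hL hφ
  exact ⟨α, hα, F, hF, hR⟩

/-- The value of `e hTr + f R`. -/
theorem val (hD : ConclD) (K L : Type) [Field K] [NumberField K] [Field L] [NumberField L]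
    [Algebra K L] [IsGalois K L] (S : Finset (HeightOneSpectrum (𝓞 K)))
    (φ : XQ L (aboveSet K L S) ≃ₗ[ℚ] QU L (aboveSet K L S))
    (Θ : XC L (aboveSet K L S) →ₗ[ℂ] XC L (aboveSet K L S))
    (hφ : IsPhiTheta K (aboveSet K L S) φ Θ)
    (A : Subgroup (L ≃ₐ[K] L)) (ψ : A →* ℂˣ) (g : L ≃ₐ[K] L) (n m s : ℕ) (h3 : 3 ≤ n)
    (hL : DL A ψ g s) (htt : TT n s) (hodd : Odd m) (hord : orderOf ψ = 2 ^ n * m)
    (e : ℤ) (f : ℕ) (R θ : (L ≃ₐ[K] L) → ℂ) (hR : PermC R)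
    (hθ : ∀ x, θ x = (e : ℂ) * hTr A ψ (2 ^ n * m) x + (f : ℂ) * R x) :
    ∃ (r : ℕ) (α : Fin r → EF2 n s) (c : Fin r → ℤ) (y : ℚ), (∀ i, α i ≠ 0) ∧ y ≠ 0 ∧
      Val θ S Θ (((∏ i, (Algebra.norm ℚ (α i)) ^ c i) * y ^ f : ℚ) : ℂ) := by
  obtain ⟨B, η, hB, hBsum⟩ := rama (L ≃ₐ[K] L) A ψ g n m s hL htt hodd hord
  obtain ⟨r', HR, cR, hRs⟩ := hR
  set r : ℕ := m.divisors.card with hr
  let dd : Fin r → ℕ := fun i => ((m.divisors.equivFin.symm i : m.divisors) : ℕ)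
  have hdd : ∀ i, dd i ∈ m.divisors := fun i => (m.divisors.equivFin.symm i).2
  have hLi : ∀ i, Leaf (B (dd i)) (η (dd i)) g n 1 s := fun i => hB _ (hdd i)
  have hZ : ∀ i : Fin r, ∃ (C : Subgroup (L ≃ₐ[K] L)) (ε : C →* ℂˣ), orderOf ε = 2 ∧
      ∀ x, ∑ j ∈ Ex (2 ^ n), indFun (B (dd i)) (extZ (η (dd i) ^ j)) x =
        2 * ∑ j ∈ Ex 2, indFun C (extZ (ε ^ j)) x := by
    intro i
    have h := ZID_thm RAM_thm (L ≃ₐ[K] L) (B (dd i)) (η (dd i)) g n 1 s (hLi i)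
    simpa only [mul_one] using h
  choose Cd εd hεd hCd using hZ
  have hTi : ∀ i, ∀ x, hTr (B (dd i)) (η (dd i)) (2 ^ n) x =
      ∑ j ∈ Ex 2, indFun (Cd i) (extZ (εd i ^ j)) x := by
    intro i x
    unfold hTr
    rw [hCd i x]
    ring
  have hTsum : ∀ x, hTr A ψ (2 ^ n * m) x =
      ∑ i : Fin r, ((ArithmeticFunction.moebius (dd i) : ℤ) : ℂ) *
        ∑ j ∈ Ex 2, indFun (Cd i) (extZ (εd i ^ j)) x := by
    intro x
    have h1 : hTr A ψ (2 ^ n * m) x =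
        (∑ d ∈ m.divisors, (ArithmeticFunction.moebius d : ℂ) *
          ∑ j ∈ Ex (2 ^ n), indFun (B d) (extZ (η d ^ j)) x) / 2 := by
      unfold hTr
      rw [hBsum x]
    rw [h1, ZVAx.sum_div m (fun d => (ArithmeticFunction.moebius d : ℂ) *
      ∑ j ∈ Ex (2 ^ n), indFun (B d) (extZ (η d ^ j)) x), Finset.sum_div]
    refine Finset.sum_congr rfl fun i _ => ?_
    show (ArithmeticFunction.moebius (dd i) : ℂ) *
      (∑ j ∈ Ex (2 ^ n), indFun (B (dd i)) (extZ (η (dd i) ^ j)) x) / 2 = _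
    rw [hCd i x]
    ring
  -- the family
  let P : Fin (r + r') → (Σ H : Subgroup (L ≃ₐ[K] L), H →* ℂˣ) :=
    Fin.append (fun i => ⟨Cd i, εd i⟩) (fun i => ⟨HR i, 1⟩)
  let q : Fin (r + r') → ℕ := Fin.append (fun _ => 2) (fun _ => 1)
  have hP1 : ∀ i, P (Fin.castAdd r' i) = ⟨Cd i, εd i⟩ := fun i => Fin.append_left _ _ i
  have hP2 : ∀ i, P (Fin.natAdd r i) = ⟨HR i, 1⟩ := fun i => Fin.append_right _ _ i
  have hq1 : ∀ i, q (Fin.castAdd r' i) = 2 := fun i => Fin.append_left _ _ i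
  have hq2 : ∀ i, q (Fin.natAdd r i) = 1 := fun i => Fin.append_right _ _ i
  have hq : ∀ i, orderOf (P i).2 = q i := by
    intro i
    refine Fin.addCases (fun j => ?_) (fun j => ?_) i
    · rw [hP1, hq1]
      exact hεd j
    · rw [hP2, hq2]
      exact orderOf_one
  obtain ⟨x, hx, hxV⟩ := ZVAx.vals PCX_thm FINVx.conclV K L S φ Θ hφ (r + r')
    (fun i => (P i).1) q (fun i => (P i).2) hq
  have hone : ∀ (H : Subgroup (L ≃ₐ[K] L)) (z : L ≃ₐ[K] L),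
      ∑ j ∈ Ex 1, indFun H (extZ ((1 : H →* ℂˣ) ^ j)) z = indFun H (fun _ => 1) z := by
    intro H z
    have h1 : Ex 1 = {0} := by
      ext t
      simp only [Ex, Finset.mem_filter, Finset.mem_range, Finset.mem_singleton]
      constructor
      · intro h
        omega
      · rintro rfl
        exact ⟨by norm_num, Nat.coprime_one_left 0⟩
    have h2 : (1 : H →* ℂˣ) ^ 0 = 1 := one_pow (M := H →* ℂˣ) 0
    rw [h1, Finset.sum_singleton, h2]
    exact QTRx.indFun_one H z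
  -- the values of the leaves
  have hVi : ∀ i : Fin r, Val (hTr (B (dd i)) (η (dd i)) (2 ^ n)) S Θ (x (Fin.castAdd r' i)) := by
    intro i
    have h1 := hxV (fun k => if k = Fin.castAdd r' i then 1 else 0)
      (hTr (B (dd i)) (η (dd i)) (2 ^ n)) (fun y => by
      rw [hTi i y, Finset.sum_eq_single (Fin.castAdd r' i)]
      · rw [if_pos rfl, hP1, hq1, Int.cast_one, one_mul]
      · intro b _ hb
        rw [if_neg hb, Int.cast_zero, zero_mul]
      · intro h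
        exact absurd (Finset.mem_univ _) h)
    have h2 : (∏ k, x k ^ (if k = Fin.castAdd r' i then (1 : ℤ) else 0)) =
        x (Fin.castAdd r' i) := by
      rw [Finset.prod_eq_single (Fin.castAdd r' i)]
      · rw [if_pos rfl, zpow_one]
      · intro b _ hb
        rw [if_neg hb, zpow_zero]
      · intro h
        exact absurd (Finset.mem_univ _) h
    rw [h2] at h1
    exact h1
  have hex : ∀ i : Fin r, ∃ α : EF2 n s, α ≠ 0 ∧
      x (Fin.castAdd r' i) = ((Algebra.norm ℚ α : ℚ) : ℂ) := by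
    intro i
    obtain ⟨α, hα, hv⟩ := val_leaf hD K L S φ Θ (B (dd i)) (η (dd i)) g n s h3 (hLi i) hφ
    exact ⟨α, hα, ZUN_thm K L S φ Θ (Cd i) (εd i) 2 _ _ _ hφ (hTi i) (hVi i) hv⟩
  choose α hα hxα using hex
  have hex2 : ∀ i : Fin r', ∃ b : ℚ, b ≠ 0 ∧ x (Fin.natAdd r i) = (b : ℂ) := by
    intro i
    obtain ⟨b, hb, hxb, -⟩ := (hx (Fin.natAdd r i)).2
    exact ⟨b, hb, hxb⟩
  choose b hb hxb using hex2
  refine ⟨r, α, fun i => e * ArithmeticFunction.moebius (dd i), ∏ i, b i ^ cR i, hα,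
    Finset.prod_ne_zero_iff.2 fun i _ => zpow_ne_zero _ (hb i), ?_⟩
  let c : Fin (r + r') → ℤ := Fin.append (fun i => e * ArithmeticFunction.moebius (dd i))
    (fun i => (f : ℤ) * cR i)
  have hc1 : ∀ i, c (Fin.castAdd r' i) = e * ArithmeticFunction.moebius (dd i) := fun i =>
    Fin.append_left _ _ i
  have hc2 : ∀ i, c (Fin.natAdd r i) = (f : ℤ) * cR i := fun i => Fin.append_right _ _ i
  have h1 := hxV c θ (fun z => by
    rw [hθ z, Fin.sum_univ_add, hTsum z, hRs z, Finset.mul_sum, Finset.mul_sum]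
    congr 1
    · refine Finset.sum_congr rfl fun i _ => ?_
      rw [hc1, hP1, hq1]
      push_cast
      ring
    · refine Finset.sum_congr rfl fun i _ => ?_
      rw [hc2, hP2, hq2, hone]
      push_cast
      ring)
  have h2 : (((∏ i, (Algebra.norm ℚ (α i)) ^ (e * ArithmeticFunction.moebius (dd i))) *
      (∏ i, b i ^ cR i) ^ f : ℚ) : ℂ) = ∏ k, x k ^ c k := by
    rw [Fin.prod_univ_add]
    push_cast
    congr 1
    · refine Finset.prod_congr rfl fun i _ => ?_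
      rw [hc1, hxα]
    · rw [← Finset.prod_pow]
      refine Finset.prod_congr rfl fun i _ => ?_
      rw [hc2, hxb, mul_comm, zpow_mul, zpow_natCast]
  rw [h2]
  exact h1

end QL2x

end StarkC.ABS
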