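import Pool.Agent.ABS.StQ
import Pool.Agent.ABS.PPM

/-!
# Project ABS (MP_46b841_nt), part Q, module QSQ: half characters for `q` a square
-/

set_option autoImplicit false

open scoped Classical MatrixGroups ComplexConjugate

namespace StarkC.ABS

namespace QSQx

open PPMx

section

variable {k : Type} [Field k]

theorem cast_pow [Fintype k] (s j : ℕ) : (s : k) ^ (ringChar k ^ j) = (s : k) := by
  have hp : Fact (ringChar k).Prime := ⟨CharP.char_is_prime k (ringChar k)⟩
  have h := congrArg (ZMod.castHom (dvd_refl (ringChar k)) k)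
    (ZMod.pow_card_pow (n := j) (s : ZMod (ringChar k)))
  rwa [map_pow, map_natCast] at h

theorem sq_of [Fintype k] (hsq : IsSquare (Fintype.card k)) (hodd : Odd (Fintype.card k)) (s : ℕ)
    (hs : (ringChar k).Coprime s) : IsSquare (s : k) := by
  have hp : (ringChar k).Prime := CharP.char_is_prime k (ringChar k)
  have hs0 : (s : k) ≠ 0 := t_ne hs
  obtain ⟨n, -, hn⟩ := FiniteField.card k (ringChar k)
  obtain ⟨r, hr⟩ := hsq
  have hd : r ∣ ringChar k ^ (n : ℕ) := by
    rw [← hn, hr]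
    exact dvd_mul_right r r
  obtain ⟨j, -, rfl⟩ := (Nat.dvd_prime_pow hp).1 hd
  have hP : Odd (ringChar k ^ j) := by
    rw [hr] at hodd
    exact (Nat.odd_mul.1 hodd).1
  have h2 : ringChar k ≠ 2 := by
    intro h
    have h3 : (Fintype.card k) % 2 = 1 := Nat.odd_iff.1 hodd
    have h4 := FiniteField.even_card_of_char_two h
    omega
  rw [FiniteField.isSquare_iff h2 hs0]
  obtain ⟨Q, hQ⟩ := hP
  have h5 : Fintype.card k / 2 = (ringChar k ^ j - 1) * (Q + 1) := by
    rw [hr, hQ]
    have : (2 * Q + 1) * (2 * Q + 1) = 2 * ((2 * Q + 1 - 1) * (Q + 1)) + 1 := by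
      rw [Nat.add_sub_cancel]
      ring
    omega
  have h6 : (s : k) ^ (ringChar k ^ j - 1) = 1 := by
    have h7 := cast_pow (k := k) s j
    have h8 : ringChar k ^ j = (ringChar k ^ j - 1) + 1 := by omega
    rw [h8, pow_succ] at h7
    exact mul_right_cancel₀ hs0 (by rw [h7, one_mul])
  rw [h5, pow_mul, h6, one_pow]

/-- a primitive root -/
theorem prim (hp : (ringChar k).Prime) : ∃ t₀ : ℕ, (ringChar k).Coprime t₀ ∧
    ∀ i : ℕ, (t₀ : k) ^ i = 1 ↔ ringChar k - 1 ∣ i := by
  have hf : Fact (ringChar k).Prime := ⟨hp⟩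
  obtain ⟨g, hg⟩ := IsCyclic.exists_generator (α := (ZMod (ringChar k))ˣ)
  have ho : orderOf g = ringChar k - 1 := by
    rw [orderOf_eq_card_of_forall_mem_zpowers hg, Nat.card_eq_fintype_card,
      ZMod.card_units_eq_totient, Nat.totient_prime hp]
  have hv : (((g : ZMod (ringChar k)).val : ℕ) : ZMod (ringChar k)) = (g : ZMod (ringChar k)) :=
    ZMod.natCast_zmod_val _
  refine ⟨(g : ZMod (ringChar k)).val, ?_, fun i => ?_⟩
  · exact (ZMod.val_coe_unit_coprime g).symm
  · rw [← ho, orderOf_dvd_iff_pow_eq_one, ← Units.val_inj, Units.val_pow_eq_pow_val,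
      Units.val_one]
    let f := ZMod.castHom (dvd_refl (ringChar k)) k
    have hfi : Function.Injective f := f.injective
    have h1 : ((((g : ZMod (ringChar k)).val : ℕ) : k)) = f (g : ZMod (ringChar k)) := by
      conv_rhs => rw [← hv]
      rw [map_natCast]
    rw [h1, ← map_pow, ← map_one f]
    exact hfi.eq_iff

end

end QSQx

open PPMx QSQx in
theorem QSQ_thm : Stmt_QSQ := by
  intro hPUH hFGN k G _ _ _ _ e d ψ hgood hsq hψ
  have hodd : Odd (Fintype.card k) := by
    rw [← Nat.not_even_iff_odd, Nat.even_iff]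
    rcases hgood.2 with h | h <;> omega
  have hp : (ringChar k).Prime := CharP.char_is_prime k (ringChar k)
  have hf : Fact (ringChar k).Prime := ⟨hp⟩
  obtain ⟨ψ', hψp, hψe⟩ := hPUH k G e d ψ
  have hval : ∀ (t : ℕ) (b : k), extZ (ψ' ^ t) (d.u b) = (ψ ^ t) b := fun t b => by
    rw [hψe t _ ⟨b, rfl⟩, ext_u]
  have hval1 : ∀ b : k, extZ ψ' (d.u b) = ψ b := fun b => by
    have h1 := hval 1 b
    have h2 : ψ' ^ 1 = ψ' := pow_one ψ'
    rw [h2, pow_one] at h1
    exact h1
  have hψ1 : ψ' ≠ 1 := by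
    intro h
    apply hψ
    ext b
    rw [← hval1 b, h, AddChar.one_apply]
    unfold extZ
    rw [dif_pos (show d.u b ∈ d.U from ⟨b, rfl⟩)]
    rfl
  have hord : orderOf ψ' = ringChar k ^ 1 := by
    rw [pow_one]
    exact orderOf_eq_prime hψp hψ1
  obtain ⟨t₀, ht₀, hpr⟩ := prim (k := k) hp
  obtain ⟨s, hs⟩ := sq_of hsq hodd t₀ ht₀
  have hs0 : s ≠ 0 := by
    rintro rfl
    exact t_ne ht₀ (by rw [hs, mul_zero])
  let a : kˣ := Units.mk0 s hs0
  have ha : (a : k) ^ 2 = (t₀ : k) := by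
    rw [hs, pow_two]
    rfl
  have hpow : ∀ i : ℕ, d.t a ^ i = d.t (a ^ i) := fun i => (map_pow (tH d) a i).symm
  have hone : ∀ i : ℕ, d.t (a ^ i) = 1 ↔ ringChar k - 1 ∣ i := by
    intro i
    rw [d.t_one, ← hpr i, ← ha, ← Units.val_inj, Units.val_pow_eq_pow_val,
      Units.val_pow_eq_pow_val, Units.val_one, ← pow_mul, ← pow_mul, mul_comm]
  have hp1 : 0 < ringChar k - 1 := by
    have := hp.one_lt
    omega
  obtain ⟨H₁, H₂, hH⟩ := hFGN G (ringChar k) 1 d.U ψ' (d.t a) t₀ (ringChar k - 1) hp one_pos hord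
    hp1 (by
      rintro u ⟨b, rfl⟩
      rw [d.t_u, hval1, hval1, ha, ← nsmul_eq_mul, AddChar.map_nsmul_eq_pow]) (by
      rw [hpow, (hone _).2 dvd_rfl]
      unfold extZ
      rw [dif_pos (one_mem _)]
      have : (⟨1, one_mem _⟩ : d.U) = 1 := rfl
      rw [this, map_one, Units.val_one]) (by
      rintro i ⟨c, hc⟩
      rw [hpow] at hc
      exact (hone i).1 (S_U d _ c hc.symm)) (by
      intro i hi him h
      have h1 : (t₀ : k) ^ i = 1 := by
        have h2 : ((t₀ ^ i : ℕ) : k) = ((1 : ℕ) : k) := by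
          rw [← sub_eq_zero]
          have h3 := (CharP.cast_eq_iff_mod_eq k (ringChar k) (a := t₀ ^ i) (b := 1)).2 h
          rw [h3, sub_self]
        rwa [Nat.cast_pow, Nat.cast_one] at h2
      exact absurd (Nat.le_of_dvd hi ((hpr i).1 h1)) (by omega))
  have hU : ∀ g, indFun d.U (d.ext ψ) g = indFun H₁ (fun _ => 1) g - indFun H₂ (fun _ => 1) g := by
    intro g
    have h1 := hH g
    have h2 : ∀ s ∈ (Finset.range (ringChar k ^ 1)).filter
        (fun s => (ringChar k ^ 1).Coprime s), indFun d.U (extZ (ψ' ^ s)) g =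
        indFun d.U (d.ext ψ) g := by
      intro s hs'
      rw [pow_one] at hs'
      have hcs := (Finset.mem_filter.1 hs').2
      obtain ⟨c, hc⟩ := sq_of hsq hodd s hcs
      have hc0 : c ≠ 0 := by
        rintro rfl
        exact t_ne hcs (by rw [hc, mul_zero])
      have h3 := ind_inv d ψ (Units.mk0 c hc0) g
      rw [Units.val_mk0, pow_two, ← hc, ← AddChar.pow_mulShift] at h3
      rw [← h3]
      unfold indFun
      congr 1
      refine Finset.sum_congr rfl fun x _ => ?_
      split_ifs with h4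
      · exact hψe s _ h4
      · rfl
    rw [Finset.sum_congr rfl h2, Finset.sum_const, nsmul_eq_mul] at h1
    have h4 : ((Finset.range (ringChar k ^ 1)).filter
        (fun s => (ringChar k ^ 1).Coprime s)).card = ringChar k - 1 := by
      rw [pow_one, ← Nat.totient_prime hp]
      rfl
    rw [h4] at h1
    have h5 : ((ringChar k - 1 : ℕ) : ℂ) ≠ 0 := by exact_mod_cast hp1.ne'
    exact (mul_left_cancel₀ h5 h1).symm
  refine ⟨4, ![H₁, H₂, d.D₁, d.D], ![e, -e, -e, e], fun g => ?_⟩
  unfold PD.chi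
  simp only [hU g, Fin.sum_univ_four, Matrix.cons_val_zero, Matrix.cons_val_one,
    Matrix.cons_val]
  push_cast
  ring

end StarkC.ABS
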