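import Pool.Agent.ABS.StB
import Pool.Agent.StarkT.PHIR
import Pool.Agent.Stark.INFL
import Pool.Agent.Stark.MAIN

/-!
# REGC: the regulator of the inverse character
-/

open NumberField IsDedekindDomain
open scoped TensorProduct Classical

namespace StarkC.ABS

namespace REGCx

variable {L : Type} [Field L] [NumberField L] {T : Set (HeightOneSpectrum (𝓞 L))}

/-- The coordinates are real. -/
def RL (z : XC L T) : Prop := ∀ a, starRingEnd ℂ (z.val a) = z.val a

theorem repr_real {n : ℕ} (c : Module.Basis (Fin n) ℂ (XC L T)) (hc : ∀ i, RL (c i))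
    (z : XC L T) (hz : RL z) (i : Fin n) : starRingEnd ℂ (c.repr z i) = c.repr z i := by
  have h2 : ∀ a, z.val a = ∑ j, c.repr z j * (c j).val a := by
    intro a
    conv_lhs => rw [← c.sum_repr z]
    rw [map_sum, Finsupp.finsetSum_apply]
    apply Finset.sum_congr rfl
    intro j _
    rw [map_smul, Finsupp.smul_apply, smul_eq_mul]
  have h1 : ∑ j, (starRingEnd ℂ (c.repr z j)) • c j = z := by
    apply THB.val_inj
    ext a
    rw [map_sum, Finsupp.finsetSum_apply, ← hz a, h2 a, map_sum]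
    apply Finset.sum_congr rfl
    intro j _
    rw [map_smul, Finsupp.smul_apply, smul_eq_mul, map_mul, hc j a]
  have h3 := congrFun (c.repr_sum_self (fun j => starRingEnd ℂ (c.repr z j))) i
  rw [h1] at h3
  exact h3.symm

theorem trace_real {n : ℕ} (c : Module.Basis (Fin n) ℂ (XC L T)) (hc : ∀ i, RL (c i))
    (P : XC L T →ₗ[ℂ] XC L T) (hP : ∀ z, RL z → RL (P z)) :
    starRingEnd ℂ (LinearMap.trace ℂ (XC L T) P) = LinearMap.trace ℂ (XC L T) P := by
  rw [LinearMap.trace_eq_matrix_trace ℂ c, Matrix.trace, map_sum]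
  apply Finset.sum_congr rfl
  intro i _
  rw [Matrix.diag_apply, LinearMap.toMatrix_apply]
  exact repr_real c hc _ (hP _ (hc i)) i

theorem lam_real (x : ℚ ⊗[ℤ] Additive Lˣ) (a : L → ℝ) :
    starRingEnd ℂ (lam L T x a) = lam L T x a := by
  induction x using TensorProduct.induction_on with
  | zero => simp
  | tmul q u =>
    have h1 := INFL.lam_tmul T q (Additive.toMul u)
    rw [show q ⊗ₜ[ℤ] u = q ⊗ₜ[ℤ] Additive.ofMul (Additive.toMul u) from rfl, h1,
      Finsupp.smul_apply, INFL.lamHom_apply]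
    split_ifs
    · rw [Rat.smul_def, map_mul, map_ratCast, map_neg, Complex.conj_ofReal]
    · simp
  | add x y hx hy => rw [map_add, Finsupp.add_apply, map_add, hx, hy]

theorem theta_real (K : Type) [Field K] [Algebra K L] {n : ℕ}
    (b : Module.Basis (Fin n) ℚ (XQ L T)) (c : Module.Basis (Fin n) ℂ (XC L T))
    (hbc : ∀ i a, (c i).val a = ((((b i : XQ L T) : (L → ℝ) →₀ ℚ) a : ℚ) : ℂ))
    (hc : ∀ i, RL (c i)) (φ : XQ L T ≃ₗ[ℚ] QU L T) (Θ : XC L T →ₗ[ℂ] XC L T)
    (hφ : IsPhiTheta K T φ Θ) (z : XC L T) (hz : RL z) : RL (Θ z) := by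
  intro a
  have h1 : Θ z = ∑ j, c.repr z j • Θ (c j) := by
    conv_lhs => rw [← c.sum_repr z]
    rw [map_sum]
    simp only [map_smul]
  rw [h1, map_sum, Finsupp.finsetSum_apply, map_sum]
  apply Finset.sum_congr rfl
  intro j _
  rw [map_smul, Finsupp.smul_apply, smul_eq_mul, map_mul, repr_real c hc z hz j,
    hφ.2 (b j) (c j) (hbc j), lam_real]

end REGCx

open REGCx in
/-- REGC: the regulator of the inverse character is the complex conjugate. -/
theorem REGC_thm : Stmt_REGC := by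
  intro K L _ _ _ _ _ _ ψ S φ Θ hφ
  have hTf : (aboveSet K L (S : Set (HeightOneSpectrum (𝓞 K)))).Finite :=
    INFL.finite_aboveSet S.finite_toSet
  have hT : StableT K (aboveSet K L (S : Set (HeightOneSpectrum (𝓞 K)))) := STB_thm K L _
  obtain ⟨T, hTT⟩ : ∃ T, T = aboveSet K L (S : Set (HeightOneSpectrum (𝓞 K))) := ⟨_, rfl⟩
  revert φ Θ
  rw [← hTT] at hTf hT ⊢
  intro φ Θ hφ
  obtain ⟨n, b, c, hbc⟩ := XRAT_thm L T hTf
  have hc : ∀ i, RL (c i) := fun i a => by rw [hbc i a, map_ratCast]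
  have hfin : Module.Finite ℂ (XC L T) := Module.Finite.of_basis c
  have hΘc := THC_thm XRAT_thm K L T hT φ Θ hTf hφ
  have hΘb := THB_thm XRAT_thm UNIT_thm K L T φ Θ hTf hφ
  obtain ⟨W, _, _, _, B, hB1, hB2, hB3⟩ :=
    RGT_thm RTR_thm K L T hT Θ ℂ (linRep ψ) hTf hΘc hΘb
  obtain ⟨W', _, _, _, B', hB1', hB2', hB3'⟩ :=
    RGT_thm RTR_thm K L T hT Θ ℂ (linRep ψ⁻¹) hTf hΘc hΘb
  rw [← hB1, ← hB1']
  refine PHIR.det_conj TRD_thm (starRingAut : ℂ ≃+* ℂ) W W' B B' hB2 fun k => ?_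
  rw [hB3' k, hB3 k, map_div₀, map_sum, map_natCast]
  congr 1
  apply Finset.sum_congr rfl
  intro g _
  rw [map_mul]
  have h1 : starRingAut (LinearMap.trace ℂ (XC L T) (repX K T hT g ∘ₗ (Θ ^ k))) =
      LinearMap.trace ℂ (XC L T) (repX K T hT g ∘ₗ (Θ ^ k)) := by
    refine trace_real c hc _ fun z hz => ?_
    have h2 : ∀ k : ℕ, ∀ z, RL z → RL ((Θ ^ k) z) := by
      intro k
      induction k with
      | zero => intro z h; exact h
      | succ k ih =>
        intro z h
        rw [pow_succ]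
        exact ih _ (theta_real K b c hbc hc φ Θ hφ z h)
    intro a
    rw [LinearMap.comp_apply, repX_val, THC.actC_apply]
    exact h2 k z hz _
  have h3 : (linRep ψ⁻¹).character g = starRingAut ((linRep ψ).character g) := by
    rw [MAIN.linRep_character, MAIN.linRep_character]
    have h4 : ((ψ g : ℂˣ) : ℂ) ^ (Nat.card (L ≃ₐ[K] L)) = 1 := by
      rw [← Units.val_pow_eq_pow_val, ← map_pow, pow_card_eq_one', map_one, Units.val_one]
    have h5 : ‖((ψ g : ℂˣ) : ℂ)‖ = 1 := Complex.norm_eq_one_of_pow_eq_one h4 Nat.card_pos.ne'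
    rw [MonoidHom.inv_apply, Units.val_inv_eq_inv_val]
    exact Complex.inv_eq_conj h5
  rw [h1, h3]

end StarkC.ABS
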