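import Pool.Agent.ABS.RZY
import Pool.Agent.ABS.FINR
import Pool.Agent.ABS.PDefsC

/-!
# Project ABS, part Z: realizability for the printed classes (helper63)
-/

set_option autoImplicit false

open scoped Classical MatrixGroups

namespace StarkC.ABS

open StarkP (charField Realizable NilNS ProjIm)

/-- Nilpotent image, not symplectic. -/
theorem real_NilNS {G V : Type} [Group G] [Fintype G] [AddCommGroup V] [Module ℂ V]
    [Module.Finite ℂ V] (ρ : Representation ℂ G V) (hirr : ρ.IsIrreducible) (h : NilNS ρ) :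
    Realizable ρ.character :=
  real_nilNS ρ hirr h.1 h.2

/-- Image `PSL₂(k)` or `PGL₂(k)`. -/
theorem real_ProjIm {G V : Type} [Group G] [Fintype G] [AddCommGroup V] [Module ℂ V]
    [Module.Finite ℂ V] (ρ : Representation ℂ G V) (hirr : ρ.IsIrreducible) (h : ProjIm ρ) :
    Realizable ρ.character := by
  obtain ⟨k, _, _, hG⟩ := h
  let _ : Fintype (G ⧸ MonoidHom.ker ρ) := Fintype.ofFinite _
  exact real_of_quot ρ hirr fun ρ' hρ' => mult_one k (G ⧸ MonoidHom.ker ρ) V ρ' hρ' hG

end StarkC.ABS
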