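import Pool.Agent.ABS.RESF
import Pool.Agent.ABS.SYMG

/-!
# Project ABS: the printed statement for linear characters, norms from cyclic fields
-/

open NumberField IsDedekindDomain
open scoped TensorProduct Classical

namespace StarkC.ABS

namespace RESGx

variable {K L : Type} [Field K] [NumberField K] [Field L] [NumberField L] [Algebra K L]
  [IsGalois K L]

theorem cyc (hSYM : Stmt_SYM)
    (hGal : ∀ (n : ℕ) (E : IntermediateField ℚ ℂ), 0 < n → E ≤ StarkP.rootField n →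
      IsGalois ℚ E)
    (hORD : ∀ (K L : Type) [Field K] [NumberField K] [Field L] [NumberField L]
    [Algebra K L] [IsGalois K L]
    (ℓ k m : ℕ) (ψ : (L ≃ₐ[K] L) →* ℂˣ) (S : Finset (HeightOneSpectrum (𝓞 K)))
    (φ : XQ L (aboveSet K L S) ≃ₗ[ℚ] QU L (aboveSet K L S))
    (Θ : XC L (aboveSet K L S) →ₗ[ℂ] XC L (aboveSet K L S)),
    OkOrd ℓ k → 0 < m → (ℓ ^ k).Coprime m → orderOf ψ = ℓ ^ k * m →
    IsPhiTheta K (aboveSet K L S) φ Θ → PT (ℓ ^ k) (cSum (ℓ ^ k * m) ψ) S Θ)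
    (hCFL : Stmt_CFL)
    (hTRX : ∀ (G : Type) (n : ℕ) (χ : G → ℂ) (χt : ℕ → G → ℂ), 0 < n →
      StarkP.charField χ = Cyc n →
      (∀ t ∈ Ex n, ∀ σ : ℂ ≃+* ℂ, (∀ z : ℂ, z ^ n = 1 → σ z = z ^ t) → ∀ g, σ (χ g) = χt t g) →
      ∀ g, StarkP.trChar χ g = ∑ t ∈ Ex n, χt t g)
    (S : Finset (HeightOneSpectrum (𝓞 K)))
    (Θ : ((L → ℝ) →₀ ℂ) →ₗ[ℂ] ((L → ℝ) →₀ ℂ))
    (hΘ : StarkP.IsTheta K (StarkP.aboveSet K L S) Θ)
    (ψ : (L ≃ₐ[K] L) →* ℂˣ) (hψ : 3 ≤ orderOf ψ) (E : IntermediateField ℚ ℂ)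
    (hE : E ≤ StarkP.charField (fun g => ((ψ g : ℂˣ) : ℂ))) (hcyc : IsCyclic (E ≃ₐ[ℚ] E)) :
    StarkP.NormIn E (fun g => ((ψ g : ℂˣ) : ℂ)) (S : Set (HeightOneSpectrum (𝓞 K))) Θ := by
  obtain ⟨φ, Θ₀, hφ, hreg⟩ := StarkB.exists_isPhiTheta (K := K) (L := L)
    (S : Set (HeightOneSpectrum (𝓞 K))) S.finite_toSet Θ hΘ
  have hCF : StarkP.charField (fun g => ((ψ g : ℂˣ) : ℂ)) = Cyc (orderOf ψ) :=
    hCFL (L ≃ₐ[K] L) ψ
  have hval : ∀ g, ((ψ g : ℂˣ) : ℂ) ^ orderOf ψ = 1 := fun g => by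
    have := DFunLike.congr_fun (pow_orderOf_eq_one ψ) g
    rw [MonoidHom.pow_apply] at this
    rw [← Units.val_pow_eq_pow_val, this]
    rfl
  have htr : StarkP.trChar (fun g => ((ψ g : ℂˣ) : ℂ)) = cSum (orderOf ψ) ψ := by
    funext g
    exact hTRX _ _ _ (fun t g => ((ψ g : ℂˣ) : ℂ) ^ t) (by omega) hCF
      (fun t _ σ hσ g => hσ _ (hval g)) g
  have hEr : E ≤ StarkP.rootField (orderOf ψ) := by
    rw [hCF] at hE
    exact hE
  obtain ⟨F, a, hF, ha, hR, -, hnorm⟩ := cyc_of_PT hSYM (orderOf ψ) hψ ψ S φ Θ₀ hφ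
    fun ℓ k m hℓ hk h2 hn hc => by
      have hm : 0 < m := by
        rcases Nat.eq_zero_or_pos m with h | h
        · rw [h, mul_zero] at hn
          omega
        · exact h
      have h := hORD K L ℓ k m ψ S φ Θ₀ ⟨hℓ, hk, h2⟩ hm hc hn hφ
      rw [← hn] at h
      exact h
  obtain ⟨β, hβ⟩ := hnorm E hEr (hGal _ E (by omega) hEr) hcyc
  refine ⟨F, β, ⟨hF.1, fun s hs => by rw [htr]; exact hF.2 s hs⟩, ?_, fun V _ _ _ ρ hρ => ?_⟩
  · rintro rfl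
    refine ha ?_
    have hfin : FiniteDimensional ℚ E := by
      have h1 := COREBx.isCyc (orderOf ψ) (by omega)
      have h2 : FiniteDimensional ℚ (Cyc (orderOf ψ)) :=
        IsCyclotomicExtension.finiteDimensional {orderOf ψ} ℚ (Cyc (orderOf ψ))
      exact FiniteDimensional.of_injective
        (IntermediateField.inclusion (show E ≤ Cyc (orderOf ψ) from hEr)).toLinearMap
        (IntermediateField.inclusion (show E ≤ Cyc (orderOf ψ) from hEr)).injective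
    rw [← hβ, Algebra.norm_zero]
  · have h1 := hR V ρ fun g => by rw [hρ, htr]
    have h0 : meromorphicTrailingCoeffAt F 0 ≠ 0 := by
      intro h
      have h2 := StarkG.reg_ne_zero S φ Θ₀ hφ V ρ
      rw [h1, h, mul_zero] at h2
      exact h2 rfl
    rw [show StarkP.Reg (StarkP.aboveSet K L S) ρ Θ = _ from hreg V ρ, h1, mul_div_assoc,
      div_self h0, mul_one, hβ]

end RESGx

end StarkC.ABS
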