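import Pool.Agent.ABS.StG
import Pool.Agent.ABS.StY
import Pool.Agent.ABS.FCL
import Pool.Agent.ABS.FGT
import Pool.Agent.ABS.FGM

/-!
# Project ABS, module RFG: multiplicity one in the situation (F)
-/

set_option autoImplicit false

open scoped Classical

namespace StarkC.ABS

namespace RFGx

open FGMx

variable {G : Type} [Group G] [Fintype G]

/-- Frobenius reciprocity for the trivial character. -/
theorem ip_ind_one (H : Subgroup G) (χ : G → ℂ) (hχ : ∀ x g : G, χ (x * g * x⁻¹) = χ g) :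
    ip (indFun H (extZ (1 : H →* ℂˣ))) χ =
      (Fintype.card G : ℂ) * (∑ y : G, if y ∈ H then χ y⁻¹ else 0) / (Nat.card H : ℂ) := by
  have h1 : ∀ y : G, (if y ∈ H then extZ (1 : H →* ℂˣ) y else 0) = if y ∈ H then (1 : ℂ) else 0 := by
    intro y
    split_ifs with h
    · unfold extZ
      rw [dif_pos h]
      simp
    · rfl
  unfold ip indFun
  simp only [h1]
  have h2 : ∀ g : G, (∑ x : G, if x⁻¹ * g * x ∈ H then (1 : ℂ) else 0) / (Nat.card H : ℂ) * χ g⁻¹ =
      (∑ x : G, if x⁻¹ * g * x ∈ H then χ g⁻¹ else 0) / (Nat.card H : ℂ) := by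
    intro g
    rw [div_mul_eq_mul_div, Finset.sum_mul]
    congr 1
    refine Finset.sum_congr rfl fun x _ => ?_
    rw [ite_mul, one_mul, zero_mul]
  rw [Finset.sum_congr rfl fun g _ => h2 g, ← Finset.sum_div, Finset.sum_comm]
  congr 1
  have h3 : ∀ x : G, (∑ g : G, if x⁻¹ * g * x ∈ H then χ g⁻¹ else 0) =
      ∑ y : G, if y ∈ H then χ y⁻¹ else 0 := by
    intro x
    refine Fintype.sum_equiv (MulAut.conj x⁻¹).toEquiv _ _ fun g => ?_
    have e1 : (MulAut.conj x⁻¹).toEquiv g = x⁻¹ * g * x := by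
      show x⁻¹ * g * x⁻¹⁻¹ = _
      rw [inv_inv]
    rw [e1]
    have e2 : χ (x⁻¹ * g * x)⁻¹ = χ g⁻¹ := by
      have := hχ x⁻¹ g⁻¹
      rw [inv_inv] at this
      rw [← this]
      congr 1
      group
    rw [e2]
  rw [Finset.sum_congr rfl fun x _ => h3 x, Finset.sum_const, Finset.card_univ, nsmul_eq_mul]

/-- Sums of a homomorphism over a finite group. -/
theorem sum_hom (N : Subgroup G) (f : G → ℂ) (hmul : ∀ x ∈ N, ∀ y ∈ N, f (x * y) = f x * f y)
    (_h1 : f 1 = 1) :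
    (∑ y : G, if y ∈ N then f y else 0) =
      if (∀ y ∈ N, f y = 1) then (Nat.card N : ℂ) else 0 := by
  split_ifs with h
  · rw [← Finset.sum_filter, Finset.sum_congr rfl fun y hy => h y (Finset.mem_filter.1 hy).2,
      Finset.sum_const, nsmul_eq_mul, mul_one]
    congr 1
    rw [Nat.card_eq_fintype_card, Fintype.card_subtype]
  · push Not at h
    obtain ⟨z, hz, hz1⟩ := h
    have h2 : (∑ y : G, if y ∈ N then f y else 0) =
        f z * ∑ y : G, if y ∈ N then f y else 0 := by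
      rw [Finset.mul_sum]
      refine Fintype.sum_equiv (Equiv.mulLeft z⁻¹) _ _ fun y => ?_
      show (if y ∈ N then f y else 0) = f z * (if z⁻¹ * y ∈ N then f (z⁻¹ * y) else 0)
      have h3 : z⁻¹ * y ∈ N ↔ y ∈ N :=
        ⟨fun h => by simpa using N.mul_mem hz h, fun h => N.mul_mem (N.inv_mem hz) h⟩
      by_cases hy : y ∈ N
      · rw [if_pos hy, if_pos (h3.2 hy), ← hmul z hz _ (h3.2 hy), mul_inv_cancel_left]
      · rw [if_neg hy, if_neg (fun h => hy (h3.1 h)), mul_zero]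
    have h4 : (f z - 1) * ∑ y : G, (if y ∈ N then f y else 0) = 0 := by
      rw [sub_mul, one_mul, ← h2, sub_self]
    exact (mul_eq_zero.1 h4).resolve_left (sub_ne_zero.2 hz1)

end RFGx

open RFGx FGMx

/-- In the situation (F), `χ` is contained exactly once in a permutation character. -/
theorem RFG_thm (G V : Type) [Group G] [Fintype G] [AddCommGroup V] [Module ℂ V]
    [Module.Finite ℂ V] (ρ : Representation ℂ G V) (ℓ : ℕ) (U : Subgroup G) (hs : SitG ℓ ρ U) :
    ∃ H : Subgroup G,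
      ip (indFun H (extZ (1 : H →* ℂˣ))) ρ.character = (Fintype.card G : ℂ) := by
  obtain ⟨k, ψ, hk, hord, hχ, hst⟩ := FCL_thm G V ρ ℓ U hs.prime hs.irr hs.normal hs.dim hs.comm
    hs.pgroup hs.nontriv
  obtain ⟨h, t, m, hm, hcj, hhm, hdiv, hnt, hcard⟩ := FGT_thm G ℓ k U ψ hs.prime hs.odd hk hs.normal
    hs.coprime hord hst
  have hl := hs.prime
  have hUn := hs.normal
  set n := ℓ ^ k with hn
  have hn0 : n ≠ 0 := pow_ne_zero _ hl.ne_zero
  have nz : NeZero n := ⟨hn0⟩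
  obtain ⟨f, hf⟩ : ∃ f : G → ℂ, f = extZ ψ := ⟨_, rfl⟩
  have f_in : ∀ x (hx : x ∈ U), f x = ((ψ ⟨x, hx⟩ : ℂˣ) : ℂ) := by
    intro x hx
    rw [hf]
    unfold extZ
    rw [dif_pos hx]
  have f_out : ∀ x, x ∉ U → f x = 0 := by
    intro x hx
    rw [hf]
    unfold extZ
    rw [dif_neg hx]
  have f_mul : ∀ x ∈ U, ∀ y ∈ U, f (x * y) = f x * f y := by
    intro x hx y hy
    rw [f_in x hx, f_in y hy, f_in _ (U.mul_mem hx hy), ← Units.val_mul, ← map_mul]
    rfl
  have f_one : f 1 = 1 := by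
    rw [f_in 1 U.one_mem]
    have : ψ ⟨1, U.one_mem⟩ = 1 := map_one ψ
    rw [this, Units.val_one]
  have f_ne : ∀ x ∈ U, f x ≠ 0 := by
    intro x hx
    rw [f_in x hx]
    exact Units.ne_zero _
  have f_pow : ∀ x ∈ U, ∀ i : ℕ, f (x ^ i) = f x ^ i := by
    intro x hx i
    induction i with
    | zero => rw [pow_zero, pow_zero, f_one]
    | succ i ih => rw [pow_succ, f_mul _ (U.pow_mem hx i) _ hx, ih, pow_succ]
  have f_inv : ∀ x ∈ U, f x⁻¹ = (f x)⁻¹ := by
    intro x hx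
    have h1 := f_mul _ (U.inv_mem hx) x hx
    rw [inv_mul_cancel, f_one] at h1
    exact eq_inv_of_mul_eq_one_left h1.symm
  have f_n : ∀ x ∈ U, f x ^ n = 1 := by
    intro x hx
    rw [f_in x hx, ← Units.val_pow_eq_pow_val, ← map_pow]
    have h1 : ψ ^ n = 1 := by rw [← hord, pow_orderOf_eq_one]
    have h2 := DFunLike.congr_fun h1 ⟨x, hx⟩
    rw [MonoidHom.pow_apply, MonoidHom.one_apply] at h2
    rw [map_pow, h2, Units.val_one]
  have hcU : ∀ x : G, ∀ u ∈ U, x⁻¹ * u * x ∈ U := by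
    intro x u hu
    have := hUn.conj_mem u hu x⁻¹
    rwa [inv_inv] at this
  have hcU' : ∀ x : G, ∀ u, x⁻¹ * u * x ∈ U → u ∈ U := by
    intro x u hu
    have := hUn.conj_mem _ hu x
    have e : x * (x⁻¹ * u * x) * x⁻¹ = u := by group
    rwa [e] at this
  -- a primitive value
  obtain ⟨u₀, hu₀, hp₀⟩ : ∃ u₀ ∈ U, IsPrimitiveRoot (f u₀) n := by
    obtain ⟨j, rfl⟩ : ∃ j, k = j + 1 := ⟨k - 1, by omega⟩
    have h1 : ψ ^ (ℓ ^ j) ≠ 1 := by
      intro h1
      have h2 : orderOf ψ ∣ ℓ ^ j := by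
        rw [orderOf_dvd_iff_pow_eq_one]
        exact h1
      rw [hord] at h2
      have h3 := Nat.le_of_dvd (pow_pos hl.pos _) h2
      have h4 : ℓ ^ j < ℓ ^ (j + 1) := Nat.pow_lt_pow_right hl.one_lt (Nat.lt_succ_self j)
      omega
    obtain ⟨⟨u, hu⟩, h2⟩ : ∃ u : U, (ψ ^ (ℓ ^ j)) u ≠ 1 := by
      by_contra hcon
      simp only [not_exists, not_not] at hcon
      exact h1 (MonoidHom.ext fun u => by rw [hcon u, MonoidHom.one_apply])
    refine ⟨u, hu, ?_⟩
    have : Fact ℓ.Prime := ⟨hl⟩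
    have h3 : orderOf (f u) = ℓ ^ (j + 1) := by
      refine orderOf_eq_prime_pow ?_ (f_n u hu)
      rw [f_in u hu, ← Units.val_pow_eq_pow_val]
      intro h4
      apply h2
      rw [MonoidHom.pow_apply]
      exact Units.ext h4
    rw [hn, ← h3]
    exact IsPrimitiveRoot.orderOf (f u)
  -- the kernel
  obtain ⟨N, hN⟩ : ∃ N : Subgroup G, ∀ x, x ∈ N ↔ x ∈ U ∧ f x = 1 :=
    ⟨{ carrier := {x | x ∈ U ∧ f x = 1}
       mul_mem' := fun {x y} hx hy => ⟨U.mul_mem hx.1 hy.1, by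
        rw [f_mul x hx.1 y hy.1, hx.2, hy.2, one_mul]⟩
       one_mem' := ⟨U.one_mem, f_one⟩
       inv_mem' := fun {x} hx => ⟨U.inv_mem hx.1, by rw [f_inv x hx.1, hx.2, inv_one]⟩ },
      fun x => Iff.rfl⟩
  have hNU : N ≤ U := fun x hx => ((hN x).1 hx).1
  have hc1 : ∀ u ∈ N, h⁻¹ * u * h ∈ N := by
    intro u hu
    rw [hN] at hu ⊢
    refine ⟨hcU h u hu.1, ?_⟩
    have h3 := hcj u hu.1
    rw [← hf] at h3
    rw [h3, hu.2, one_pow]
  have hhmU : h ^ m ∈ U := by
    by_contra hcon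
    have := f_out _ hcon
    rw [hf, hhm] at this
    exact one_ne_zero this
  have hhm1 : h ^ m ∈ N := by
    rw [hN]
    exact ⟨hhmU, by rw [hf, hhm]⟩
  have hNH : N ≤ HH h N hc1 := fun x hx => ⟨0, x, hx, by rw [pow_zero, one_mul]⟩
  have hcH : Nat.card (HH h N hc1) = m * Nat.card N := by
    refine card_mul hNH ⟨1, 1, N.one_mem, by rw [pow_one, mul_one]⟩ ?_ ?_
    · rintro x ⟨i, u, hu, rfl⟩
      refine ⟨i % m, Nat.mod_lt _ hm, ?_⟩
      have e : h ^ i = h ^ (i % m) * (h ^ m) ^ (i / m) := by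
        rw [← pow_mul, ← pow_add, Nat.mod_add_div]
      rw [e, mul_assoc, inv_mul_cancel_left]
      exact N.mul_mem (N.pow_mem hhm1 _) hu
    · intro i hi hi' hmem
      have := Nat.le_of_dvd hi (hdiv i (hNU hmem))
      omega
  have hHU : ∀ y, y ∈ HH h N hc1 → y ∈ U → y ∈ N := by
    rintro y ⟨i, u, hu, rfl⟩ hy
    have h1 : h ^ i ∈ U := (Subgroup.mul_mem_cancel_right U (hNU hu)).1 hy
    obtain ⟨q, hq⟩ := hdiv i h1
    rw [hq, pow_mul]
    exact N.mul_mem (N.pow_mem hhm1 _) hu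
  refine ⟨HH h N hc1, ?_⟩
  have hcl : ∀ x g : G, ρ.character (x * g * x⁻¹) = ρ.character g := by
    intro x g
    exact Representation.char_conj ρ g x
  rw [ip_ind_one _ _ hcl, hcH]
  -- the values of the character
  have hout : ∀ y, y ∉ U → ρ.character y = 0 := by
    intro y hy
    rw [hχ]
    unfold indFun
    rw [Finset.sum_eq_zero, zero_div]
    intro x _
    rw [if_neg fun hx => hy (hcU' x y hx)]
  have hin : ∀ y, ρ.character y = (∑ x : G, f (x⁻¹ * y * x)) / (Nat.card U : ℂ) := by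
    intro y
    rw [hχ]
    unfold indFun
    congr 1
    refine Finset.sum_congr rfl fun x _ => ?_
    split_ifs with hx
    · rw [hf]
    · exact (f_out _ hx).symm
  have hsum : (∑ y : G, if y ∈ HH h N hc1 then ρ.character y⁻¹ else 0) =
      (∑ x : G, ∑ y : G, if y ∈ N then f (x⁻¹ * y * x) else 0) / (Nat.card U : ℂ) := by
    rw [Finset.sum_comm, Finset.sum_div]
    have h1 : ∀ y : G, (if y ∈ HH h N hc1 then ρ.character y⁻¹ else 0) =
        if y ∈ N then ρ.character y⁻¹ else 0 := by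
      intro y
      by_cases hy : y ∈ N
      · rw [if_pos hy, if_pos (hNH hy)]
      · rw [if_neg hy]
        split_ifs with hy2
        · refine hout _ fun hy3 => hy (hHU y hy2 ?_)
          simpa using U.inv_mem hy3
        · rfl
    rw [Finset.sum_congr rfl fun y _ => h1 y]
    refine Fintype.sum_equiv (Equiv.inv G) _ _ fun y => ?_
    show (if y ∈ N then ρ.character y⁻¹ else 0) =
      (∑ x : G, if y⁻¹ ∈ N then f (x⁻¹ * y⁻¹ * x) else 0) / (Nat.card U : ℂ)
    by_cases hy : y ∈ N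
    · have hy' : y⁻¹ ∈ N := N.inv_mem hy
      rw [if_pos hy, hin]
      congr 1
      refine Finset.sum_congr rfl fun x _ => ?_
      rw [if_pos hy']
    · have hy' : y⁻¹ ∉ N := fun hc => hy (by simpa using N.inv_mem hc)
      rw [if_neg hy, Finset.sum_eq_zero, zero_div]
      intro x _
      rw [if_neg hy']
  -- the inner sums
  have hinner : ∀ x : G, (∑ y : G, if y ∈ N then f (x⁻¹ * y * x) else 0) =
      if (∀ y ∈ N, f (x⁻¹ * y * x) = 1) then (Nat.card N : ℂ) else 0 := by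
    intro x
    refine sum_hom N (fun y => f (x⁻¹ * y * x)) ?_ ?_
    · intro a ha b hb
      show f (x⁻¹ * (a * b) * x) = f (x⁻¹ * a * x) * f (x⁻¹ * b * x)
      rw [← f_mul _ (hcU x a (hNU ha)) _ (hcU x b (hNU hb))]
      congr 1
      group
    · show f (x⁻¹ * 1 * x) = 1
      rw [mul_one, inv_mul_cancel, f_one]
  -- the number of the `x`
  have hcj' : ∀ (x : G) (s : ℕ), cj ψ x s ↔ ∀ u ∈ U, f (x⁻¹ * u * x) = f u ^ s := by
    intro x s
    unfold cj
    rw [hf]
  have hex : ∀ x : G, (∀ y ∈ N, f (x⁻¹ * y * x) = 1) →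
      ∃ s ∈ (Finset.range n).filter (fun s => n.Coprime s), cj ψ x s := by
    intro x hx
    have h1 : f (x⁻¹ * u₀ * x) ^ n = 1 := f_n _ (hcU x u₀ hu₀)
    obtain ⟨s, hs1, hs2⟩ := hp₀.eq_pow_of_pow_eq_one h1
    have h2 : ∀ u ∈ U, f (x⁻¹ * u * x) = f u ^ s := by
      intro u hu
      obtain ⟨a, ha1, ha2⟩ := hp₀.eq_pow_of_pow_eq_one (f_n u hu)
      have h3 : (u₀ ^ a)⁻¹ * u ∈ N := by
        rw [hN]
        refine ⟨U.mul_mem (U.inv_mem (U.pow_mem hu₀ a)) hu, ?_⟩
        rw [f_mul _ (U.inv_mem (U.pow_mem hu₀ a)) _ hu, f_inv _ (U.pow_mem hu₀ a), f_pow _ hu₀, ha2,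
          inv_mul_cancel₀ (f_ne u hu)]
      have h4 := hx _ h3
      have e : x⁻¹ * u * x = (x⁻¹ * u₀ * x) ^ a * (x⁻¹ * ((u₀ ^ a)⁻¹ * u) * x) := by
        have e2 : (x⁻¹ * u₀ * x) ^ a = x⁻¹ * u₀ ^ a * x := by
          have := conj_pow (i := a) (a := x⁻¹) (b := u₀)
          rw [inv_inv] at this
          exact this
        rw [e2]
        group
      rw [e, f_mul _ (U.pow_mem (hcU x u₀ hu₀) a) _ (hcU x _ (hNU h3)), h4, mul_one,
        f_pow _ (hcU x u₀ hu₀), ← hs2, ← ha2, ← pow_mul, ← pow_mul, mul_comm]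
    refine ⟨s, Finset.mem_filter.2 ⟨Finset.mem_range.2 hs1, ?_⟩, (hcj' x s).2 h2⟩
    -- `s` is prime to `n`
    rw [hn, Nat.coprime_pow_left_iff hk, hl.coprime_iff_not_dvd]
    rintro ⟨c, hc⟩
    obtain ⟨j, hj⟩ : ∃ j, k = j + 1 := ⟨k - 1, by omega⟩
    have h5 : f u₀ ^ (ℓ ^ j) = 1 := by
      have h6 := h2 (x * u₀ * x⁻¹) (by
        exact hUn.conj_mem u₀ hu₀ x)
      have e : x⁻¹ * (x * u₀ * x⁻¹) * x = u₀ := by group
      rw [e] at h6
      rw [h6, ← pow_mul, hc]
      have e3 : ℓ * c * ℓ ^ j = n * c := by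
        rw [hn, hj, pow_succ]
        ring
      rw [e3, pow_mul, f_n _ (hUn.conj_mem u₀ hu₀ x), one_pow]
    have h7 := (hp₀.pow_eq_one_iff_dvd _).1 h5
    have h8 := Nat.le_of_dvd (pow_pos hl.pos _) h7
    have h9 : ℓ ^ j < ℓ ^ (j + 1) := Nat.pow_lt_pow_right hl.one_lt (Nat.lt_succ_self j)
    rw [hn, hj] at h8
    omega
  have huniq : ∀ (x : G) (s s' : ℕ), s ∈ Finset.range n → s' ∈ Finset.range n → cj ψ x s →
      cj ψ x s' → s = s' := by
    intro x s s' h1 h2 h3 h4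
    rw [hcj'] at h3 h4
    have h5 := (h3 u₀ hu₀).symm.trans (h4 u₀ hu₀)
    exact hp₀.pow_inj (Finset.mem_range.1 h1) (Finset.mem_range.1 h2) h5
  have hfib : ∀ s ∈ ((Finset.range n).filter fun s => n.Coprime s).filter
      (fun s => ∃ g : G, cj ψ g s),
      (Finset.univ.filter fun x : G => cj ψ x s).card = Nat.card U := by
    intro s hs'
    obtain ⟨hs1, g, hg⟩ := Finset.mem_filter.1 hs'
    have hsc := (Finset.mem_filter.1 hs1).2
    rw [Nat.card_eq_fintype_card, Fintype.card_subtype]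
    refine Finset.card_bij (fun x _ => x * g⁻¹) ?_ ?_ ?_
    · intro x hx
      rw [Finset.mem_filter] at hx ⊢
      refine ⟨Finset.mem_univ _, hst _ ?_⟩
      rw [hcj']
      intro u hu
      have h1 := (hcj' x s).1 hx.2 u hu
      have e : (x * g⁻¹)⁻¹ * u * (x * g⁻¹) = g * (x⁻¹ * u * x) * g⁻¹ := by group
      have hv : g * (x⁻¹ * u * x) * g⁻¹ ∈ U := hUn.conj_mem _ (hcU x u hu) g
      have h2 := (hcj' g s).1 hg _ hv
      have e2 : g⁻¹ * (g * (x⁻¹ * u * x) * g⁻¹) * g = x⁻¹ * u * x := by group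
      rw [e2, h1] at h2
      rw [e, pow_one]
      -- `a^s = b^s` implies `a = b`
      obtain ⟨a, ha1, ha2⟩ := hp₀.eq_pow_of_pow_eq_one (f_n u hu)
      obtain ⟨b, hb1, hb2⟩ := hp₀.eq_pow_of_pow_eq_one (f_n _ hv)
      rw [← ha2, ← hb2, ← pow_mul, ← pow_mul, pow_iff hp₀ hn0] at h2
      rw [← ha2, ← hb2, pow_iff hp₀ hn0]
      exact (Nat.ModEq.cancel_right_of_coprime hsc h2).symm
    · intro x _ y _ hxy
      exact mul_right_cancel hxy
    · intro u hu
      rw [Finset.mem_filter] at hu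
      refine ⟨u * g, ?_, by rw [mul_inv_cancel_right]⟩
      rw [Finset.mem_filter]
      refine ⟨Finset.mem_univ _, (hcj' _ s).2 fun v hv => ?_⟩
      have e : (u * g)⁻¹ * v * (u * g) = g⁻¹ * (u⁻¹ * v * u) * g := by group
      rw [e, (hcj' g s).1 hg _ (hcU u v hv)]
      congr 1
      rw [f_mul _ (U.mul_mem (U.inv_mem hu.2) hv) _ hu.2, f_mul _ (U.inv_mem hu.2) _ hv,
        f_inv _ hu.2, mul_comm, ← mul_assoc, mul_inv_cancel₀ (f_ne u hu.2), one_mul]
  obtain ⟨F, hF⟩ : ∃ F : G → ℕ, ∀ x, (∃ s ∈ (Finset.range n).filter (fun s => n.Coprime s),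
      cj ψ x s) → F x ∈ (Finset.range n).filter (fun s => n.Coprime s) ∧ cj ψ x (F x) :=
    ⟨fun x => if hx : ∃ s ∈ (Finset.range n).filter (fun s => n.Coprime s), cj ψ x s then
      hx.choose else 0, fun x hx => by
        show (dite _ _ _ ∈ _ ∧ cj ψ x (dite _ _ _))
        rw [dif_pos hx]
        exact hx.choose_spec⟩
  have hcount : (Finset.univ.filter fun x : G => ∀ y ∈ N, f (x⁻¹ * y * x) = 1).card =
      m * Nat.card U := by
    rw [Finset.card_eq_sum_card_fiberwise (f := F)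
        (t := ((Finset.range n).filter fun s => n.Coprime s).filter fun s => ∃ g : G, cj ψ g s)]
    · have h1 : ∀ s ∈ ((Finset.range n).filter fun s => n.Coprime s).filter
          (fun s => ∃ g : G, cj ψ g s),
          ((Finset.univ.filter fun x : G => ∀ y ∈ N, f (x⁻¹ * y * x) = 1).filter fun x =>
            F x = s).card = Nat.card U := by
        intro s hs'
        rw [← hfib s hs']
        congr 1
        ext x
        rw [Finset.mem_filter, Finset.mem_filter, Finset.mem_filter]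
        obtain ⟨hs1, g, hg⟩ := Finset.mem_filter.1 hs'
        constructor
        · rintro ⟨⟨_, h1⟩, h2⟩
          refine ⟨Finset.mem_univ _, ?_⟩
          rw [← h2]
          exact (hF x (hex x h1)).2
        · rintro ⟨_, h1⟩
          refine ⟨⟨Finset.mem_univ _, fun y hy => ?_⟩, ?_⟩
          · rw [(hcj' x s).1 h1 y (hNU hy), ((hN y).1 hy).2, one_pow]
          · have h3 := hF x ⟨s, hs1, h1⟩
            exact huniq x _ _ (Finset.mem_filter.1 h3.1).1 (Finset.mem_filter.1 hs1).1 h3.2 h1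
      rw [Finset.sum_congr rfl h1, Finset.sum_const, smul_eq_mul, hcard]
    · intro x hx
      rw [Finset.mem_coe, Finset.mem_filter] at hx
      have h3 := hF x (hex x hx.2)
      rw [Finset.mem_coe, Finset.mem_filter]
      exact ⟨h3.1, x, h3.2⟩
  rw [hsum, Finset.sum_congr rfl fun x _ => hinner x, ← Finset.sum_filter, Finset.sum_const,
    hcount, nsmul_eq_mul]
  have hU0 : (Nat.card U : ℂ) ≠ 0 := by exact_mod_cast Nat.card_pos.ne'
  have hN0 : (Nat.card N : ℂ) ≠ 0 := by exact_mod_cast Nat.card_pos.ne'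
  have hm0 : (m : ℂ) ≠ 0 := by exact_mod_cast hm.ne'
  push_cast
  field_simp

end StarkC.ABS
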