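import Pool.Agent.ABS.PDefsR
import Pool.Agent.Stark.Stmts

/-!
# Project ABS: monomial characters are realizable (helper6)
-/

set_option autoImplicit false

open scoped Classical

namespace StarkC.ABS

namespace RLZx

variable {G : Type} [Group G] {H : Subgroup G} (ψ : H →* ℂˣ)

theorem extZ_mem {x : G} (hx : x ∈ H) : extZ ψ x = ((ψ ⟨x, hx⟩ : ℂˣ) : ℂ) := dif_pos hx

theorem extZ_not {x : G} (hx : x ∉ H) : extZ ψ x = 0 := dif_neg hx

theorem extZ_mul {x y : G} (hy : y ∈ H) : extZ ψ (x * y) = extZ ψ x * extZ ψ y := by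
  by_cases hx : x ∈ H
  · rw [extZ_mem ψ hx, extZ_mem ψ hy, extZ_mem ψ (H.mul_mem hx hy), ← Units.val_mul, ← map_mul]
    rfl
  · rw [extZ_not ψ hx, extZ_not ψ fun h => hx ((H.mul_mem_cancel_right hy).1 h), zero_mul]

theorem extZ_conj {x y : G} (hy : y ∈ H) : extZ ψ (y⁻¹ * x * y) = extZ ψ x := by
  by_cases hx : x ∈ H
  · have h1 : y⁻¹ * x * y ∈ H := H.mul_mem (H.mul_mem (H.inv_mem hy) hx) hy
    rw [extZ_mem ψ hx, extZ_mem ψ h1]
    have h2 : (⟨y⁻¹ * x * y, h1⟩ : H) = ⟨y, hy⟩⁻¹ * ⟨x, hx⟩ * ⟨y, hy⟩ := rfl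
    rw [h2, map_mul, map_mul, mul_comm, ← mul_assoc, ← map_mul, mul_inv_cancel, map_one, one_mul]
  · rw [extZ_not ψ hx, extZ_not ψ fun h => hx ?_]
    have h1 := H.mul_mem (H.mul_mem hy h) (H.inv_mem hy)
    rwa [show y * (y⁻¹ * x * y) * y⁻¹ = x by group] at h1

theorem extZ_one : extZ ψ 1 = 1 := by
  rw [extZ_mem ψ H.one_mem]
  have h2 : (⟨1, H.one_mem⟩ : H) = 1 := rfl
  rw [h2, map_one, Units.val_one]

/-- The matrices of the induced representation. -/
noncomputable def M (g : G) : Matrix (G ⧸ H) (G ⧸ H) ℂ :=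
  fun a b => extZ ψ (a.out⁻¹ * g * b.out)

theorem out_mem (x : G) : ((x : G ⧸ H).out)⁻¹ * x ∈ H :=
  QuotientGroup.eq.1 (Quotient.out_eq _)

theorem eq_of_mem {b : G ⧸ H} {x : G} (h : b.out⁻¹ * x ∈ H) : b = (x : G ⧸ H) := by
  have h1 : ((b.out : G) : G ⧸ H) = (x : G ⧸ H) := QuotientGroup.eq.2 h
  rw [← h1]
  exact (Quotient.out_eq b).symm

theorem M_one : M ψ 1 = 1 := by
  ext a b
  rw [M, mul_one]
  by_cases h : a = b
  · subst h
    rw [inv_mul_cancel, extZ_one, Matrix.one_apply_eq]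
  · rw [Matrix.one_apply_ne h, extZ_not]
    intro h1
    apply h
    rw [eq_of_mem h1]
    exact Quotient.out_eq b

theorem M_mul [Fintype (G ⧸ H)] (g g' : G) : M ψ (g * g') = M ψ g * M ψ g' := by
  ext a c
  rw [Matrix.mul_apply, Finset.sum_eq_single ((g' * c.out : G) : G ⧸ H)]
  · show extZ ψ (a.out⁻¹ * (g * g') * c.out) = extZ ψ (a.out⁻¹ * g * _) * extZ ψ (_⁻¹ * g' * c.out)
    have h1 : (((g' * c.out : G) : G ⧸ H).out)⁻¹ * g' * c.out ∈ H := by
      rw [mul_assoc]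
      exact out_mem _
    rw [← extZ_mul ψ h1]
    congr 1
    group
  · intro b _ hb
    have h1 : M ψ g' b c = 0 := extZ_not ψ fun h => hb (by
      rw [mul_assoc] at h
      exact eq_of_mem h)
    rw [h1, mul_zero]
  · intro h
    exact absurd (Finset.mem_univ _) h

theorem bij : Function.Bijective (fun p : (G ⧸ H) × H => p.1.out * (p.2 : G)) := by
  constructor
  · rintro ⟨a, h⟩ ⟨b, k⟩ e
    have e' : a.out * (h : G) = b.out * (k : G) := e
    have h1 : a = b := by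
      have h2 : a = ((b.out : G) : G ⧸ H) := by
        apply eq_of_mem
        have h3 : a.out⁻¹ * b.out = h * (k : G)⁻¹ := by
          rw [inv_mul_eq_iff_eq_mul, ← mul_assoc, e', mul_assoc, mul_inv_cancel, mul_one]
        rw [h3]
        exact H.mul_mem h.2 (H.inv_mem k.2)
      rw [h2]
      exact Quotient.out_eq b
    subst h1
    rw [Prod.mk.injEq]
    exact ⟨rfl, Subtype.ext (mul_left_cancel e')⟩
  · intro x
    refine ⟨⟨(x : G ⧸ H), ⟨_, out_mem x⟩⟩, ?_⟩
    show (x : G ⧸ H).out * (((x : G ⧸ H).out)⁻¹ * x) = x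
    group

theorem M_trace [Fintype G] [Fintype (G ⧸ H)] (g : G) :
    (M ψ g).trace = indFun H (extZ ψ) g := by
  have h1 : ∀ x : G, (if x⁻¹ * g * x ∈ H then extZ ψ (x⁻¹ * g * x) else 0) =
      extZ ψ (x⁻¹ * g * x) := fun x => by
    split_ifs with h
    · rfl
    · exact (extZ_not ψ h).symm
  have h2 : ∑ x : G, extZ ψ (x⁻¹ * g * x) =
      ∑ p : (G ⧸ H) × H, extZ ψ (p.1.out⁻¹ * g * p.1.out) := by
    rw [← (bij (H := H)).sum_comp]
    refine Finset.sum_congr rfl fun p _ => ?_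
    have h3 : (p.1.out * (p.2 : G))⁻¹ * g * (p.1.out * (p.2 : G)) =
        (p.2 : G)⁻¹ * (p.1.out⁻¹ * g * p.1.out) * (p.2 : G) := by group
    rw [h3, extZ_conj ψ p.2.2]
  have h4 : indFun H (extZ ψ) g = (∑ x : G, extZ ψ (x⁻¹ * g * x)) / (Nat.card H : ℂ) := by
    unfold indFun
    congr 1
    exact Finset.sum_congr rfl fun x _ => h1 x
  have h5 : (Nat.card H : ℂ) ≠ 0 := Nat.cast_ne_zero.2 Nat.card_pos.ne'
  rw [h4, h2, Fintype.sum_prod_type, eq_div_iff h5, Matrix.trace, Finset.sum_mul]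
  refine Finset.sum_congr rfl fun a _ => ?_
  show (M ψ g).diag a * (Nat.card H : ℂ) = ∑ _y : H, extZ ψ (a.out⁻¹ * g * a.out)
  rw [Finset.sum_const, Finset.card_univ, Nat.card_eq_fintype_card, nsmul_eq_mul, mul_comm]
  rfl

end RLZx

open RLZx in
/-- Monomial characters are realizable over the field of the values of the linear character. -/
theorem realizable_ind {G : Type} [Group G] [Fintype G] (H : Subgroup G) (ψ : H →* ℂˣ)
    (χ : G → ℂ) (hχ : χ = indFun H (extZ ψ))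
    (hψ : ∀ h, ((ψ h : ℂˣ) : ℂ) ∈ StarkP.charField χ) : StarkP.Realizable χ := by
  have : Fintype (G ⧸ H) := Fintype.ofFinite _
  let e : (G ⧸ H) ≃ Fin (Fintype.card (G ⧸ H)) := Fintype.equivFin _
  have h1 : Matrix.reindex e e (M ψ 1) = 1 := by
    rw [M_one]
    simp
  have h2 : ∀ a b : G, Matrix.reindex e e (M ψ (a * b)) =
      Matrix.reindex e e (M ψ a) * Matrix.reindex e e (M ψ b) := by
    intro a b
    rw [M_mul]
    simp only [Matrix.reindex_apply]
    exact (Matrix.submatrix_mul_equiv _ _ _ _ _).symm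
  let R : G →* Matrix (Fin (Fintype.card (G ⧸ H))) (Fin (Fintype.card (G ⧸ H))) ℂ :=
    MonoidHom.mk ⟨fun g => Matrix.reindex e e (M ψ g), h1⟩ h2
  refine ⟨Fintype.card (G ⧸ H), R, ?_, ?_⟩
  · intro g i j
    show M ψ g (e.symm i) (e.symm j) ∈ _
    unfold M extZ
    split_ifs with h
    · exact hψ _
    · exact zero_mem _
  · intro g
    show (Matrix.reindex e e (M ψ g)).trace = χ g
    rw [hχ, ← M_trace]
    show ∑ i, M ψ g (e.symm i) (e.symm i) = ∑ a, M ψ g a a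
    exact e.symm.sum_comp fun a => M ψ g a a

end StarkC.ABS
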