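import Pool.Agent.ABS.StF

/-!
# Project ABS, stage R: irreducible characters of groups of odd prime power order
-/

open NumberField IsDedekindDomain
open scoped TensorProduct Classical

namespace StarkC.ABS

/-- RPT: for an irreducible character `χ ≠ 1` of a Galois group whose image is an `ℓ`-group, `ℓ` odd:
`ℚ(χ) = ℚ(ζ_n)`, `n = ℓ^k`, and `A_S(Tr χ, φ)` is the norm of an element of `ℚ(χ)`. -/
theorem RPT (h1 : Concl1) (hCOMB : Stmt_COMB) (hSIGT : Stmt_SIGT) (hTRT : Stmt_TRT)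
    (hTRX : Stmt_TRX) (hCFR : Stmt_CFR) (hRCY : Stmt_RCY) (hRGP : Stmt_RGP) (hREL : Stmt_REL)
    (hRAV : Stmt_RAV) (hROQ : Stmt_ROQ) (hRFX : Stmt_RFX)
    (K L : Type) [Field K] [NumberField K] [Field L] [NumberField L] [Algebra K L] [IsGalois K L]
    (ℓ : ℕ) (V : Type) [AddCommGroup V] [Module ℂ V] [Module.Finite ℂ V]
    (ρ : Representation ℂ (L ≃ₐ[K] L) V) (hℓ : ℓ.Prime) (hℓ2 : ℓ ≠ 2) (hirr : Irr ρ)
    (hl : LImg ℓ ρ) (hne : ¬ ∀ g, ρ g = 1) :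
    ∃ k : ℕ, 0 < k ∧ StarkP.charField ρ.character = Cyc (ℓ ^ k) ∧
      ∀ (S : Finset (HeightOneSpectrum (𝓞 K)))
        (φ : XQ L (aboveSet K L S) ≃ₗ[ℚ] QU L (aboveSet K L S))
        (Θ : XC L (aboveSet K L S) →ₗ[ℂ] XC L (aboveSet K L S)),
        IsPhiTheta K (aboveSet K L S) φ Θ →
          PT (ℓ ^ k) (StarkP.trChar ρ.character) S Θ := by
  obtain ⟨k, H, ψ, hk, hord, hfix, hval⟩ := hRFX hRCY hRGP hREL hRAV hROQ ℓ (L ≃ₐ[K] L) V ρ hℓ hℓ2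
    hirr hl hne
  have hcf : StarkP.charField ρ.character = Cyc (ℓ ^ k) := hCFR _ _ _ hfix
  have hn : 0 < ℓ ^ k := pow_pos hℓ.pos k
  have h3 : 3 ≤ ℓ := by
    have := hℓ.two_le
    omega
  have hok : OkOrd ℓ k := by
    refine ⟨hℓ, hk, ?_⟩
    calc 2 < ℓ := by omega
      _ = ℓ ^ 1 := (pow_one ℓ).symm
      _ ≤ ℓ ^ k := Nat.pow_le_pow_right hℓ.pos hk
  have htr : ∀ g, StarkP.trChar ρ.character g =
      ∑ t ∈ Ex (ℓ ^ k), indFun H (extZ (ψ ^ t)) g :=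
    hTRX hSIGT hTRT (L ≃ₐ[K] L) (ℓ ^ k) ρ.character (fun t => indFun H (extZ (ψ ^ t))) hn hcf
      (fun t _ σ hσ g => hval σ t hσ g)
  refine ⟨k, hk, hcf, fun S φ Θ hφ => ?_⟩
  refine hCOMB h1 K L ℓ k S φ Θ 1 (fun _ => H) (fun _ => ψ) (fun _ => 1) _ hok (fun _ => hord) hφ
    (fun g => ?_)
  rw [htr g]
  simp

end StarkC.ABS
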