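import Pool.Agent.ABS.StZR
import Pool.Agent.ABS.FIXC
import Pool.Agent.ABS.CFL

/-!
# Project ABS, part Z, addition: the dihedral and semidihedral leaf in matrices over `ℚ(χ)`
-/

set_option autoImplicit false

open scoped Classical

namespace StarkC.ABS.RZDx

open StarkP (charField Realizable)

/-- The exponent `s`. -/
theorem sfacts (n m s : ℕ) (h : TT n s) (hodd : Odd m) (hone : s % m = 1 % m) :
    s % 4 = 3 ∧ s * s ≡ 1 [MOD 2 ^ n * m] := by
  obtain ⟨hn, h⟩ := h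
  obtain ⟨k, rfl⟩ : ∃ k, n = k + 2 := ⟨n - 2, by omega⟩
  have hd : 2 ^ (k + 1) ∣ s + 1 := by
    rcases h with h | ⟨_, h⟩
    · exact (pow_dvd_pow 2 (by omega)).trans (Nat.dvd_of_mod_eq_zero h)
    · have h1 : k + 2 - 1 = k + 1 := by omega
      rw [h1] at h
      have h2 := Nat.div_add_mod (s + 1) (2 ^ (k + 2))
      rw [h] at h2
      rw [← h2]
      exact Dvd.dvd.add (Dvd.dvd.mul_right (pow_dvd_pow 2 (by omega)) _) dvd_rfl
  have h4 : 4 ∣ s + 1 := by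
    rcases h with h | ⟨h3, h⟩
    · have h5 : (4 : ℕ) ∣ 2 ^ (k + 2) := ⟨2 ^ k, by ring⟩
      exact h5.trans (Nat.dvd_of_mod_eq_zero h)
    · obtain ⟨j, rfl⟩ : ∃ j, k = j + 1 := ⟨k - 1, by omega⟩
      have h5 : (4 : ℕ) ∣ 2 ^ (j + 1 + 1) := ⟨2 ^ j, by ring⟩
      exact h5.trans hd
  have h3 : s % 4 = 3 := by omega
  refine ⟨h3, ?_⟩
  obtain ⟨q, hq⟩ := hd
  obtain ⟨t, ht⟩ : ∃ t, s = 2 * t + 1 := ⟨s / 2, by omega⟩
  have hs1 : 1 ≤ s * s := Nat.mul_pos (by omega) (by omega)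
  have e1 : s * s ≡ 1 [MOD 2 ^ (k + 2)] := by
    refine ((Nat.modEq_iff_dvd' hs1).2 ?_).symm
    refine ⟨q * t, ?_⟩
    have h6 : s * s - 1 = (s + 1) * (2 * t) := by
      rw [Nat.sub_eq_iff_eq_add hs1]
      rw [ht]
      ring
    rw [h6, hq]
    ring
  have e2 : s * s ≡ 1 [MOD m] := by
    have h6 : s ≡ 1 [MOD m] := hone
    exact h6.mul h6
  have hco : Nat.Coprime (2 ^ (k + 2)) m :=
    Nat.Coprime.pow_left _ (Nat.coprime_two_left.2 hodd)
  exact (Nat.modEq_and_modEq_iff_modEq_mul hco).1 ⟨e1, e2⟩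

section

variable {G : Type} [Group G] [Fintype G] {A : Subgroup G} {ψ : A →* ℂˣ} {g : G} {n m s : ℕ}

omit [Fintype G] in
theorem ext_mem (a : A) : extZ ψ (a : G) = ((ψ a : ℂˣ) : ℂ) := by
  unfold extZ
  rw [dif_pos a.2]

omit [Fintype G] in
theorem ext_not {x : G} (hx : x ∉ A) : extZ ψ x = 0 := by
  unfold extZ
  rw [dif_neg hx]

omit [Fintype G] in
theorem ext_mul {x y : G} (hx : x ∈ A) (hy : y ∈ A) :
    extZ ψ (x * y) = extZ ψ x * extZ ψ y := by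
  rw [ext_mem (⟨x, hx⟩ : A), ext_mem (⟨y, hy⟩ : A),
    show x * y = ((⟨x, hx⟩ * ⟨y, hy⟩ : A) : G) from rfl, ext_mem, map_mul]
  push_cast
  rfl

omit [Fintype G] in
theorem ext_one : extZ ψ (1 : G) = 1 := by
  rw [show (1 : G) = ((1 : A) : G) from rfl, ext_mem, map_one]
  rfl

variable (h : Leaf A ψ g n m s)

include h

theorem pow_ss (x : G) : (extZ ψ x) ^ (s * s) = extZ ψ x := by
  have hs := sfacts n m s h.tt h.odd h.one
  by_cases hx : x ∈ A
  · rw [ext_mem (⟨x, hx⟩ : A)]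
    have h1 : (ψ ⟨x, hx⟩ : ℂˣ) ^ (2 ^ n * m) = 1 := by
      rw [← h.ord]
      have h3 := DFunLike.congr_fun (pow_orderOf_eq_one ψ) ⟨x, hx⟩
      rwa [MonoidHom.pow_apply, MonoidHom.one_apply] at h3
    have h2 : (ψ ⟨x, hx⟩ : ℂˣ) ^ (s * s) = (ψ ⟨x, hx⟩ : ℂˣ) ^ 1 := by
      refine pow_eq_pow_iff_modEq.2 ?_
      exact hs.2.of_dvd (orderOf_dvd_of_pow_eq_one h1)
    rw [← Units.val_pow_eq_pow_val, h2, pow_one]
  · rw [ext_not hx, zero_pow]
    have : s ≠ 0 := by have := hs.1; omega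
    exact Nat.mul_ne_zero this this

theorem s_ne : s ≠ 0 := by
  have := (sfacts n m s h.tt h.odd h.one).1
  omega

/-- `g` normalises `A`. -/
theorem norm' (b : G) (hb : b ∈ A) : g * b * g⁻¹ ∈ A := by
  let c : A → A := fun a => ⟨g⁻¹ * a * g, h.norm a a.2⟩
  have hinj : Function.Injective c := by
    intro a a' haa
    have h1 : g⁻¹ * (a : G) * g = g⁻¹ * (a' : G) * g := congrArg Subtype.val haa
    apply Subtype.ext
    simpa using h1
  obtain ⟨a, ha⟩ := (Finite.injective_iff_surjective.1 hinj) ⟨b, hb⟩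
  have h1 : g⁻¹ * (a : G) * g = b := congrArg Subtype.val ha
  have h2 : g * b * g⁻¹ = a := by
    rw [← h1]
    group
  rw [h2]
  exact a.2

/-- `ψ (g b g⁻¹) = ψ(b)^s`. -/
theorem conj' (b : G) (hb : b ∈ A) : extZ ψ (g * b * g⁻¹) = (extZ ψ b) ^ s := by
  have h1 := norm' h b hb
  have h2 := h.conj ⟨g * b * g⁻¹, h1⟩ ⟨b, hb⟩ (by
    show b = g⁻¹ * (g * b * g⁻¹) * g
    group)
  have h3 : extZ ψ b = (extZ ψ (g * b * g⁻¹)) ^ s := by
    rw [ext_mem (⟨b, hb⟩ : A), ext_mem (⟨g * b * g⁻¹, h1⟩ : A), h2, Units.val_pow_eq_pow_val]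
  rw [h3, ← pow_mul, pow_ss h]

theorem sq' : extZ ψ (g * g) = 1 := by
  rw [ext_mem (⟨g * g, h.mem⟩ : A), h.sq ⟨g * g, h.mem⟩ rfl]
  rfl

/-- A value of `ψ` which is moved by the exponent `s`. -/
theorem exz : ∃ a : A, ((ψ a : ℂˣ) : ℂ) ^ s ≠ ((ψ a : ℂˣ) : ℂ) := by
  obtain ⟨a, ha⟩ := CFLx.exists_gen A ψ
  refine ⟨a, fun h1 => ?_⟩
  have h2 : (ψ a : ℂˣ) ^ s = (ψ a : ℂˣ) ^ 1 := by
    apply Units.ext
    rw [Units.val_pow_eq_pow_val, pow_one]
    exact h1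
  have h3 := pow_eq_pow_iff_modEq.1 h2
  rw [ha, h.ord] at h3
  have hs := (sfacts n m s h.tt h.odd h.one).1
  have h4 : (4 : ℕ) ∣ 2 ^ n * m := by
    obtain ⟨k, rfl⟩ : ∃ k, n = k + 2 := ⟨n - 2, by have := h.tt.1; omega⟩
    exact ⟨2 ^ k * m, by ring⟩
  have h5 := h3.of_dvd h4
  have h6 : s % 4 = 1 % 4 := h5
  omega

theorem g_not : g ∉ A := by
  intro hg
  obtain ⟨a, ha⟩ := exz h
  apply ha
  have h1 := conj' h (a : G) a.2
  rw [ext_mul (A.mul_mem hg a.2) (A.inv_mem hg), ext_mul hg a.2, ext_mem a] at h1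
  rw [← h1]
  have h2 : extZ ψ g * extZ ψ g⁻¹ = 1 := by
    rw [← ext_mul hg (A.inv_mem hg), mul_inv_cancel, ext_one]
  linear_combination ((ψ a : ℂˣ) : ℂ) * h2

/-- The group `A ∪ A g`. -/
def Bg : Subgroup G where
  carrier := {x | x ∈ A ∨ x * g⁻¹ ∈ A}
  one_mem' := Or.inl A.one_mem
  mul_mem' := by
    rintro x y (hx | hx) (hy | hy)
    · exact Or.inl (A.mul_mem hx hy)
    · right
      rw [mul_assoc]
      exact A.mul_mem hx hy
    · right
      have h1 : x * y * g⁻¹ = x * g⁻¹ * (g * y * g⁻¹) := by group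
      rw [h1]
      exact A.mul_mem hx (norm' h y hy)
    · left
      have h1 : x * y = x * g⁻¹ * (g * (y * g⁻¹) * g⁻¹) * (g * g) := by group
      rw [h1]
      exact A.mul_mem (A.mul_mem hx (norm' h _ hy)) h.mem
  inv_mem' := by
    rintro x (hx | hx)
    · exact Or.inl (A.inv_mem hx)
    · right
      have h1 : x⁻¹ * g⁻¹ = g⁻¹ * (x * g⁻¹)⁻¹ * g * (g * g)⁻¹ := by group
      rw [h1]
      exact A.mul_mem (h.norm _ (A.inv_mem hx)) (A.inv_mem h.mem)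

omit h [Fintype G] in
/-- The matrices of the representation induced from `ψ`. -/
noncomputable def Dm (ψ : A →* ℂˣ) (g : G) (s : ℕ) (x : G) : Matrix (Fin 2) (Fin 2) ℂ :=
  if x ∈ A then !![extZ ψ x, 0; 0, (extZ ψ x) ^ s]
  else !![0, extZ ψ (x * g⁻¹); (extZ ψ (x * g⁻¹)) ^ s, 0]

omit h [Fintype G] in
theorem Dm_mem {x : G} (hx : x ∈ A) : Dm ψ g s x = !![extZ ψ x, 0; 0, (extZ ψ x) ^ s] :=
  if_pos hx

omit h [Fintype G] in
theorem Dm_not {x : G} (hx : x ∉ A) :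
    Dm ψ g s x = !![0, extZ ψ (x * g⁻¹); (extZ ψ (x * g⁻¹)) ^ s, 0] :=
  if_neg hx

theorem not_mem_of {x : G} (hx : x * g⁻¹ ∈ A) : x ∉ A := by
  intro h1
  have h2 : g = (x * g⁻¹)⁻¹ * x := by group
  exact g_not h (by rw [h2]; exact A.mul_mem (A.inv_mem hx) h1)

theorem Dm_mul {x y : G} (hx : x ∈ A ∨ x * g⁻¹ ∈ A) (hy : y ∈ A ∨ y * g⁻¹ ∈ A) :
    Dm ψ g s (x * y) = Dm ψ g s x * Dm ψ g s y := by
  rcases hx with hx | hx <;> rcases hy with hy | hy
  · rw [Dm_mem (A.mul_mem hx hy), Dm_mem hx, Dm_mem hy, ext_mul hx hy, mul_pow]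
    simp [Matrix.mul_fin_two]
  · have h1 : x * y * g⁻¹ = x * (y * g⁻¹) := by group
    have h2 : x * y * g⁻¹ ∈ A := by rw [h1]; exact A.mul_mem hx hy
    rw [Dm_not (not_mem_of h h2), Dm_mem hx, Dm_not (not_mem_of h hy), h1, ext_mul hx hy, mul_pow]
    simp [Matrix.mul_fin_two]
  · have h1 : x * y * g⁻¹ = x * g⁻¹ * (g * y * g⁻¹) := by group
    have h2 : x * y * g⁻¹ ∈ A := by rw [h1]; exact A.mul_mem hx (norm' h y hy)
    rw [Dm_not (not_mem_of h h2), Dm_not (not_mem_of h hx), Dm_mem hy, h1,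
      ext_mul hx (norm' h y hy), conj' h y hy, mul_pow, ← pow_mul (extZ ψ y), pow_ss h y]
    simp [Matrix.mul_fin_two]
  · have h1 : x * y = x * g⁻¹ * (g * (y * g⁻¹) * g⁻¹) * (g * g) := by group
    have h2 : x * y ∈ A := by
      rw [h1]
      exact A.mul_mem (A.mul_mem hx (norm' h _ hy)) h.mem
    rw [Dm_mem h2, Dm_not (not_mem_of h hx), Dm_not (not_mem_of h hy), h1,
      ext_mul (A.mul_mem hx (norm' h _ hy)) h.mem, ext_mul hx (norm' h _ hy), conj' h _ hy,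
      sq' h, mul_one, mul_pow, ← pow_mul (extZ ψ (y * g⁻¹)), pow_ss h (y * g⁻¹)]
    simp [Matrix.mul_fin_two]

omit [Fintype G] h in
theorem Dm_one : Dm ψ g s 1 = 1 := by
  rw [Dm_mem A.one_mem, ext_one, one_pow]
  exact Matrix.one_fin_two.symm

omit [Fintype G] h in
/-- The base change. -/
noncomputable def Pm (z : ℂ) (s : ℕ) : Matrix (Fin 2) (Fin 2) ℂ := !![1, z; 1, z ^ s]

omit [Group G] [Fintype G] h in
theorem Pm_unit {z : ℂ} (hz : z ^ s ≠ z) : IsUnit (Pm z s).det := by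
  unfold Pm
  rw [Matrix.det_fin_two_of, isUnit_iff_ne_zero]
  intro h1
  apply hz
  linear_combination h1

/-- The representation. -/
noncomputable def Rm (z : ℂ) (hz : z ^ s ≠ z) : Bg h →* Matrix (Fin 2) (Fin 2) ℂ where
  toFun x := (Pm z s)⁻¹ * Dm ψ g s (x : G) * Pm z s
  map_one' := by
    rw [show ((1 : Bg h) : G) = 1 from rfl, Dm_one, mul_one,
      Matrix.nonsing_inv_mul _ (Pm_unit hz)]
  map_mul' x y := by
    rw [show ((x * y : Bg h) : G) = (x : G) * (y : G) from rfl, Dm_mul h x.2 y.2]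
    have h1 := Matrix.mul_nonsing_inv _ (Pm_unit hz)
    calc (Pm z s)⁻¹ * (Dm ψ g s x * Dm ψ g s y) * Pm z s
        = (Pm z s)⁻¹ * Dm ψ g s x * (Pm z s * (Pm z s)⁻¹) * Dm ψ g s y * Pm z s := by
          rw [h1, mul_one]
          simp only [Matrix.mul_assoc]
      _ = _ := by simp only [Matrix.mul_assoc]

theorem Rm_eq (z : ℂ) (hz : z ^ s ≠ z) (x : Bg h) :
    Pm z s * Rm h z hz x = Dm ψ g s (x : G) * Pm z s := by
  show Pm z s * ((Pm z s)⁻¹ * Dm ψ g s (x : G) * Pm z s) = _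
  rw [Matrix.mul_assoc (Pm z s)⁻¹, Matrix.mul_nonsing_inv_cancel_left _ _ (Pm_unit hz)]

theorem Rm_unique (z : ℂ) (hz : z ^ s ≠ z) (x : Bg h) (M : Matrix (Fin 2) (Fin 2) ℂ)
    (hM : Pm z s * M = Dm ψ g s (x : G) * Pm z s) : M = Rm h z hz x := by
  have h1 := Rm_eq h z hz x
  rw [← hM] at h1
  have h2 := congrArg (fun N => (Pm z s)⁻¹ * N) h1
  simp only [Matrix.nonsing_inv_mul_cancel_left _ _ (Pm_unit hz)] at h2
  exact h2.symm

theorem Rm_trace (z : ℂ) (hz : z ^ s ≠ z) (x : Bg h) :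
    (Rm h z hz x).trace = extZ ψ (x : G) + (extZ ψ (x : G)) ^ s := by
  have h1 : (Rm h z hz x).trace = (Dm ψ g s (x : G)).trace := by
    show ((Pm z s)⁻¹ * Dm ψ g s (x : G) * Pm z s).trace = _
    rw [Matrix.trace_mul_comm, ← Matrix.mul_assoc, Matrix.mul_nonsing_inv _ (Pm_unit hz),
      one_mul]
  rw [h1]
  by_cases hx : (x : G) ∈ A
  · rw [Dm_mem hx]
    simp [Matrix.trace_fin_two]
  · rw [Dm_not hx, ext_not hx, zero_pow (s_ne h)]
    simp [Matrix.trace_fin_two]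

omit [Fintype G] h in
theorem map_two (σ : ℂ ≃+* ℂ) (a b c d : ℂ) :
    (!![a, b; c, d] : Matrix (Fin 2) (Fin 2) ℂ).map σ = !![σ a, σ b; σ c, σ d] := by
  ext i j
  fin_cases i <;> fin_cases j <;> rfl

/-- The entries are fixed. -/
theorem fixed (z : ℂ) (a₀ : A) (hz0 : ((ψ a₀ : ℂˣ) : ℂ) = z) (hz : z ^ s ≠ z) (σ : ℂ ≃+* ℂ)
    (hσ : (∀ a, σ ((ψ a : ℂˣ) : ℂ) = ((ψ a : ℂˣ) : ℂ)) ∨
      ∀ a, σ ((ψ a : ℂˣ) : ℂ) = ((ψ a : ℂˣ) : ℂ) ^ s) (x : Bg h) :
    (Rm h z hz x).map σ = Rm h z hz x := by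
  have hmul : ∀ M N : Matrix (Fin 2) (Fin 2) ℂ, (M * N).map σ = M.map σ * N.map σ := fun M N =>
    Matrix.map_mul (f := (σ : ℂ →+* ℂ))
  have h0 := congrArg (fun M : Matrix (Fin 2) (Fin 2) ℂ => M.map σ) (Rm_eq h z hz x)
  simp only [hmul] at h0
  apply Rm_unique
  rcases hσ with hσ | hσ
  · have he : ∀ y : G, σ (extZ ψ y) = extZ ψ y := by
      intro y
      by_cases hy : y ∈ A
      · rw [ext_mem (⟨y, hy⟩ : A), hσ]
      · rw [ext_not hy, map_zero]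
    have hP : (Pm z s).map σ = Pm z s := by
      unfold Pm
      rw [map_two, map_pow, ← hz0, hσ, map_one]
    have hD : (Dm ψ g s (x : G)).map σ = Dm ψ g s (x : G) := by
      by_cases hx : (x : G) ∈ A
      · rw [Dm_mem hx, map_two, map_pow, he, map_zero]
      · rw [Dm_not hx, map_two, map_pow, he, map_zero]
    rwa [hP, hD] at h0
  · have he : ∀ y : G, σ (extZ ψ y) = (extZ ψ y) ^ s := by
      intro y
      by_cases hy : y ∈ A
      · rw [ext_mem (⟨y, hy⟩ : A), hσ]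
      · rw [ext_not hy, map_zero, zero_pow (s_ne h)]
    have hzz : z ^ (s * s) = z := by
      have h1 := pow_ss h (a₀ : G)
      rwa [ext_mem a₀, hz0] at h1
    let w : Matrix (Fin 2) (Fin 2) ℂ := !![0, 1; 1, 0]
    have hw : w * w = 1 := by
      show (!![0, 1; 1, 0] : Matrix (Fin 2) (Fin 2) ℂ) * !![0, 1; 1, 0] = 1
      rw [Matrix.one_fin_two]
      simp [Matrix.mul_fin_two]
    have hP : (Pm z s).map σ = w * Pm z s := by
      show (!![1, z; 1, z ^ s] : Matrix (Fin 2) (Fin 2) ℂ).map σ = !![0, 1; 1, 0] * !![1, z; 1, z ^ s]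
      rw [map_two, map_pow, ← hz0, hσ, hz0, map_one, ← pow_mul, hzz]
      simp [Matrix.mul_fin_two]
    have hD : (Dm ψ g s (x : G)).map σ = w * Dm ψ g s (x : G) * w := by
      by_cases hx : (x : G) ∈ A
      · rw [Dm_mem hx, map_two, map_pow, he, map_zero, ← pow_mul, pow_ss h]
        show _ = !![0, 1; 1, 0] * !![extZ ψ (x : G), 0; 0, (extZ ψ (x : G)) ^ s] * !![0, 1; 1, 0]
        simp [Matrix.mul_fin_two]
      · rw [Dm_not hx, map_two, map_pow, he, map_zero, ← pow_mul, pow_ss h]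
        show _ = !![0, 1; 1, 0] * !![0, extZ ψ ((x : G) * g⁻¹); (extZ ψ ((x : G) * g⁻¹)) ^ s, 0] *
          !![0, 1; 1, 0]
        simp [Matrix.mul_fin_two]
    rw [hP, hD] at h0
    have h1 := congrArg (fun N => w * N) h0
    calc Pm z s * (Rm h z hz x).map σ = w * (w * Pm z s * (Rm h z hz x).map σ) := by
          rw [Matrix.mul_assoc w, ← Matrix.mul_assoc w w, hw, one_mul]
      _ = w * (w * Dm ψ g s (x : G) * w * (w * Pm z s)) := h1
      _ = (w * w) * Dm ψ g s (x : G) * ((w * w) * Pm z s) := by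
          simp only [Matrix.mul_assoc]
      _ = Dm ψ g s (x : G) * Pm z s := by rw [hw, one_mul, one_mul]

theorem card_B : Nat.card (Bg h) = 2 * Nat.card A := by
  let f : A ⊕ A → Bg h := Sum.elim (fun a => ⟨a, Or.inl a.2⟩)
    (fun a => ⟨a * g, Or.inr (by rw [mul_inv_cancel_right]; exact a.2)⟩)
  have hf : Function.Bijective f := by
    constructor
    · rintro (a | a) (b | b) hab
      · have h1 : (a : G) = b := congrArg (fun t : Bg h => (t : G)) hab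
        rw [Subtype.ext h1]
      · have h1 : (a : G) = b * g := congrArg (fun t : Bg h => (t : G)) hab
        exact absurd a.2 (not_mem_of h (by rw [h1, mul_inv_cancel_right]; exact b.2))
      · have h1 : (a : G) * g = b := congrArg (fun t : Bg h => (t : G)) hab
        exact absurd b.2 (not_mem_of h (by rw [← h1, mul_inv_cancel_right]; exact a.2))
      · have h1 : (a : G) * g = b * g := congrArg (fun t : Bg h => (t : G)) hab
        rw [Subtype.ext (mul_right_cancel h1)]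
    · rintro ⟨x, hx | hx⟩
      · exact ⟨Sum.inl ⟨x, hx⟩, rfl⟩
      · refine ⟨Sum.inr ⟨x * g⁻¹, hx⟩, Subtype.ext ?_⟩
        show x * g⁻¹ * g = x
        group
  rw [← Nat.card_eq_of_bijective f hf, Nat.card_sum]
  ring

end

end StarkC.ABS.RZDx

namespace StarkC.ABS

open StarkP (charField Realizable)

theorem RZD_thm : Stmt_RZD := by
  intro G _ _ A ψ g n m s h hχ
  obtain ⟨a₀, ha₀⟩ := RZDx.exz h
  refine ⟨RZDx.Bg h, RZDx.Rm h ((ψ a₀ : ℂˣ) : ℂ) ha₀, ?_, ?_, RZDx.card_B h, ?_⟩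
  · intro x i j
    have h1 := FIXCx.core (charField (indFun A (extZ ψ))).toSubfield
      (RZDx.Rm h ((ψ a₀ : ℂˣ) : ℂ) ha₀ x i j) (by
        intro σ hσ
        have h2 := RZDx.fixed h _ a₀ rfl ha₀ σ (hχ σ fun y => hσ _
          (IntermediateField.subset_adjoin ℚ _ (Set.mem_range_self y))) x
        exact congrFun (congrFun h2 i) j)
    exact h1
  · intro a ha
    exact Or.inl ha
  · intro x
    exact RZDx.Rm_trace h _ ha₀ x

end StarkC.ABS
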