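import Pool.Agent.ABS.StZR

/-!
# Part Z, module RZI (helper49): induced matrix representations
-/

set_option autoImplicit false

open scoped Classical

namespace StarkC.ABS

namespace RZIx

variable {G : Type} [Group G] {H : Subgroup G} {d : ℕ}

/-- `R` extended by zero -/
noncomputable def F (R : H →* Matrix (Fin d) (Fin d) ℂ) (x : G) : Matrix (Fin d) (Fin d) ℂ :=
  if hx : x ∈ H then R ⟨x, hx⟩ else 0

theorem F_mem (R : H →* Matrix (Fin d) (Fin d) ℂ) {x : G} (hx : x ∈ H) : F R x = R ⟨x, hx⟩ :=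
  dif_pos hx

theorem F_not (R : H →* Matrix (Fin d) (Fin d) ℂ) {x : G} (hx : x ∉ H) : F R x = 0 :=
  dif_neg hx

theorem F_mul (R : H →* Matrix (Fin d) (Fin d) ℂ) {x y : G} (hy : y ∈ H) :
    F R (x * y) = F R x * F R y := by
  by_cases hx : x ∈ H
  · rw [F_mem R hx, F_mem R hy, F_mem R (H.mul_mem hx hy), ← map_mul]
    rfl
  · have h1 : x * y ∉ H := by
      intro h
      apply hx
      have h2 : x = (x * y) * y⁻¹ := by group
      rw [h2]
      exact H.mul_mem h (H.inv_mem hy)
    rw [F_not R hx, F_not R h1, Matrix.zero_mul]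

theorem extM_eq (R : H →* Matrix (Fin d) (Fin d) ℂ) (x : G) : extM R x = (F R x).trace := by
  unfold extM
  by_cases hx : x ∈ H
  · rw [dif_pos hx, F_mem R hx]
  · rw [dif_neg hx, F_not R hx, Matrix.trace_zero]

theorem extM_conj (R : H →* Matrix (Fin d) (Fin d) ℂ) (x h : G) (hh : h ∈ H) :
    extM R (h⁻¹ * x * h) = extM R x := by
  by_cases hx : x ∈ H
  · rw [extM_eq, extM_eq, F_mul R hh, F_mul R hx, Matrix.trace_mul_cycle, ← F_mul R (H.inv_mem hh),
      mul_inv_cancel, F_mem R H.one_mem]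
    have h1 : R ⟨1, H.one_mem⟩ = 1 := map_one R
    rw [h1, Matrix.one_mul]
  · have h1 : h⁻¹ * x * h ∉ H := by
      intro h2
      apply hx
      have h3 : x = h * (h⁻¹ * x * h) * h⁻¹ := by group
      rw [h3]
      exact H.mul_mem (H.mul_mem hh h2) (H.inv_mem hh)
    rw [extM_eq, extM_eq, F_not R hx, F_not R h1]

/-- the index set -/
noncomputable def out (i : G ⧸ H) : G := Quotient.out i

theorem mk_out (i : G ⧸ H) : ((out i : G) : G ⧸ H) = i := QuotientGroup.out_eq' i

theorem mem_iff (i : G ⧸ H) (x : G) : (out i)⁻¹ * x ∈ H ↔ i = (x : G ⧸ H) := by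
  rw [← QuotientGroup.eq, mk_out]

/-- the induced matrices -/
noncomputable def M (R : H →* Matrix (Fin d) (Fin d) ℂ) (g : G) :
    Matrix ((G ⧸ H) × Fin d) ((G ⧸ H) × Fin d) ℂ :=
  Matrix.of fun p q => F R ((out p.1)⁻¹ * g * out q.1) p.2 q.2

theorem M_one (R : H →* Matrix (Fin d) (Fin d) ℂ) : M R 1 = 1 := by
  ext ⟨i, a⟩ ⟨j, b⟩
  show F R ((out i)⁻¹ * 1 * out j) a b = _
  rw [mul_one]
  by_cases h : i = j
  · subst h
    rw [inv_mul_cancel, F_mem R H.one_mem]
    have h1 : R ⟨1, H.one_mem⟩ = 1 := map_one R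
    rw [h1, Matrix.one_apply, Matrix.one_apply]
    simp
  · have h1 : (out i)⁻¹ * out j ∉ H := by
      rw [mem_iff, mk_out]
      exact h
    rw [F_not R h1, Matrix.one_apply, if_neg]
    · rfl
    · intro h2
      exact h (congrArg Prod.fst h2)

variable [Fintype G]

theorem M_mul (R : H →* Matrix (Fin d) (Fin d) ℂ) (g g' : G) : M R (g * g') = M R g * M R g' := by
  ext ⟨i, a⟩ ⟨j, b⟩
  rw [Matrix.mul_apply, Fintype.sum_prod_type]
  show F R ((out i)⁻¹ * (g * g') * out j) a b =
    ∑ k : G ⧸ H, ∑ c : Fin d, F R ((out i)⁻¹ * g * out k) a c * F R ((out k)⁻¹ * g' * out j) c b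
  have h1 : ∀ k : G ⧸ H,
      ∑ c : Fin d, F R ((out i)⁻¹ * g * out k) a c * F R ((out k)⁻¹ * g' * out j) c b =
        (F R ((out i)⁻¹ * g * out k) * F R ((out k)⁻¹ * g' * out j)) a b := by
    intro k
    rw [Matrix.mul_apply]
  rw [Finset.sum_congr rfl fun k _ => h1 k,
    Finset.sum_eq_single ((g' * out j : G) : G ⧸ H)]
  · have h2 : (out ((g' * out j : G) : G ⧸ H))⁻¹ * g' * out j ∈ H := by
      rw [mul_assoc, mem_iff]
    rw [← F_mul R h2]
    have h3 : (out i)⁻¹ * (g * g') * out j = ((out i)⁻¹ * g * out ((g' * out j : G) : G ⧸ H)) *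
        ((out ((g' * out j : G) : G ⧸ H))⁻¹ * g' * out j) := by group
    rw [h3]
  · intro k _ hk
    have h2 : (out k)⁻¹ * g' * out j ∉ H := by
      rw [mul_assoc, mem_iff]
      exact hk
    rw [F_not R h2, Matrix.mul_zero]
    rfl
  · intro h
    exact absurd (Finset.mem_univ _) h

theorem trace_M (R : H →* Matrix (Fin d) (Fin d) ℂ) (g : G) :
    (M R g).trace = ∑ i : G ⧸ H, extM R ((out i)⁻¹ * g * out i) := by
  unfold Matrix.trace
  rw [Fintype.sum_prod_type]
  refine Finset.sum_congr rfl fun i _ => ?_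
  rw [extM_eq]
  rfl

/-- sums over `G` of functions which are constant on the left cosets -/
theorem sum_out (f : G → ℂ) (hf : ∀ x h, h ∈ H → f (x * h) = f x) :
    ∑ x : G, f x = (Nat.card H : ℂ) * ∑ i : G ⧸ H, f (out i) := by
  have hb : Function.Bijective (fun p : (G ⧸ H) × H => out p.1 * (p.2 : G)) := by
    constructor
    · rintro ⟨i, h⟩ ⟨j, k⟩ hij
      have h1 : out i * (h : G) = out j * (k : G) := hij
      have h2 : i = j := by
        have h3 := congrArg (fun x : G => (x : G ⧸ H)) h1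
        have h4 : ∀ (i : G ⧸ H) (h : H), ((out i * (h : G) : G) : G ⧸ H) = i := by
          intro i h
          rw [QuotientGroup.mk_mul_of_mem _ h.2, mk_out]
        simpa only [h4] using h3
      subst h2
      have h3 : (h : G) = (k : G) := mul_left_cancel h1
      rw [Subtype.ext h3]
    · intro x
      have h1 : (out (x : G ⧸ H))⁻¹ * x ∈ H := by rw [mem_iff]
      refine ⟨⟨(x : G ⧸ H), ⟨_, h1⟩⟩, ?_⟩
      show out (x : G ⧸ H) * ((out (x : G ⧸ H))⁻¹ * x) = x
      group
  rw [← hb.sum_comp f, Fintype.sum_prod_type, Finset.mul_sum]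
  refine Finset.sum_congr rfl fun i _ => ?_
  have h1 : ∀ h : H, f (out i * (h : G)) = f (out i) := fun h => hf (out i) (h : G) h.2
  show ∑ h : H, f (out i * (h : G)) = _
  rw [Finset.sum_congr rfl fun h _ => h1 h, Finset.sum_const, Finset.card_univ,
    nsmul_eq_mul, Nat.card_eq_fintype_card]

end RZIx

open RZIx in
/-- RZI: induced matrix representations. -/
theorem RZI_thm : Stmt_RZI := by
  intro G _ _ H d R E hE
  obtain ⟨e⟩ : Nonempty (((G ⧸ H) × Fin d) ≃ Fin (Fintype.card ((G ⧸ H) × Fin d))) :=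
    ⟨Fintype.equivFin _⟩
  refine ⟨Fintype.card ((G ⧸ H) × Fin d),
    { toFun := fun g => Matrix.reindexAlgEquiv ℂ ℂ e (M R g)
      map_one' := by rw [M_one, map_one]
      map_mul' := fun g g' => by rw [M_mul, map_mul] }, ?_, ?_⟩
  · intro g i j
    show F R ((out (e.symm i).1)⁻¹ * g * out (e.symm j).1) (e.symm i).2 (e.symm j).2 ∈ E
    by_cases h : (out (e.symm i).1)⁻¹ * g * out (e.symm j).1 ∈ H
    · rw [F_mem R h]
      exact hE _ _ _
    · rw [F_not R h]
      exact E.zero_mem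
  · intro g
    have h1 : Matrix.trace (Matrix.reindexAlgEquiv ℂ ℂ e (M R g)) = (M R g).trace := by
      unfold Matrix.trace
      exact Equiv.sum_comp e.symm fun p => M R g p p
    show Matrix.trace (Matrix.reindexAlgEquiv ℂ ℂ e (M R g)) = _
    rw [h1, trace_M]
    have hH : (Nat.card H : ℂ) ≠ 0 := by
      exact_mod_cast (Nat.card_pos (α := H)).ne'
    unfold StarkC.indFun
    rw [eq_div_iff hH, mul_comm]
    have h2 := sum_out (H := H) (fun x => extM R (x⁻¹ * g * x)) fun x h hh => by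
      show extM R ((x * h)⁻¹ * g * (x * h)) = extM R (x⁻¹ * g * x)
      rw [← extM_conj R (x⁻¹ * g * x) h hh]
      congr 1
      group
    rw [← h2]
    refine Finset.sum_congr rfl fun x _ => ?_
    by_cases h : x⁻¹ * g * x ∈ H
    · rw [if_pos h]
    · rw [if_neg h, extM_eq, F_not R h, Matrix.trace_zero]

end StarkC.ABS
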