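import Pool.Agent.ABS.StZR

/-!
# Project ABS, part Z addition, module RZP (helper5): multiplicity one implies realizable
-/

set_option autoImplicit false

open scoped Classical

namespace StarkC.ABS.RZPx

open Representation

section conv

variable {G : Type} [Group G] [Fintype G]

/-- `T = ∑_h f(h⁻¹) κ(h)` commutes with the representation if `f` is a class function. -/
theorem sum_comm {A : Type} [Ring A] [Algebra ℂ A] (ρ : G →* A) (f : G → ℂ)
    (hf : ∀ g h, f (h * g * h⁻¹) = f g) (g : G) :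
    (∑ h, f h⁻¹ • ρ h) * ρ g = ρ g * ∑ h, f h⁻¹ • ρ h := by
  rw [Finset.sum_mul, Finset.mul_sum]
  refine Fintype.sum_equiv ⟨fun h => g⁻¹ * h * g, fun h => g * h * g⁻¹, fun h => by group,
    fun h => by group⟩ _ _ ?_
  intro h
  show f h⁻¹ • ρ h * ρ g = ρ g * f (g⁻¹ * h * g)⁻¹ • ρ (g⁻¹ * h * g)
  have e1 : (g⁻¹ * h * g)⁻¹ = g⁻¹ * h⁻¹ * g⁻¹⁻¹ := by group
  rw [e1, hf, smul_mul_assoc, mul_smul_comm, ← map_mul, ← map_mul]
  congr 2
  group

omit [Fintype G] in
theorem cls {χ : G → ℂ} (h : IrrCh χ) : ∀ g h, χ (h * g * h⁻¹) = χ g := by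
  obtain ⟨W, i1, i2, i3, κ, hκ, rfl⟩ := h
  intro g h
  exact char_conj κ g h

omit [Fintype G] in
theorem deg_ne {χ : G → ℂ} (h : IrrCh χ) : χ 1 ≠ 0 := by
  obtain ⟨W, i1, i2, i3, κ, hκ, rfl⟩ := h
  rw [char_one]
  have : IsSimpleModule (MonoidAlgebra ℂ G) κ.asModule := inferInstance
  have hn : Nontrivial κ.asModule := IsSimpleModule.nontrivial (MonoidAlgebra ℂ G) _
  have hn' : Nontrivial W := hn
  exact Nat.cast_ne_zero.2 (Module.finrank_pos.ne')

/-- Orthogonality. -/
theorem orth {χ χ' : G → ℂ} (h : IrrCh χ) (h' : IrrCh χ') :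
    ∑ g, χ' g * χ g⁻¹ = if χ' = χ then (Fintype.card G : ℂ) else 0 := by
  obtain ⟨W, i1, i2, i3, κ, hκ, hχ⟩ := h
  obtain ⟨W', i1', i2', i3', κ', hκ', hχ'⟩ := h'
  have hcard : (Nat.card G : ℂ) ≠ 0 := Nat.cast_ne_zero.2 (Nat.card_pos.ne')
  have : Invertible (Nat.card G : ℂ) := invertibleOfNonzero hcard
  by_cases hc : χ' = χ
  · rw [if_pos hc, hc, ← hχ]
    have h2 := card_inv_mul_sum_char_mul_char_eq_finrank κ κ
    rw [IsIrreducible.finrank_intertwiningMap_self κ, Nat.cast_one] at h2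
    rw [Fintype.card_eq_nat_card]
    field_simp at h2
    exact h2
  · rw [if_neg hc]
    have h4 := char_orthonormal κ' κ
    have h5 : ¬ Nonempty (Equiv κ κ') := by
      rintro ⟨φ⟩
      exact hc (hχ'.symm.trans ((char_iso φ).symm.trans hχ))
    rw [if_neg h5, hχ, hχ'] at h4
    exact (mul_eq_zero.1 h4).resolve_left (inv_ne_zero hcard)

/-- The convolution formula. -/
theorem conv {χ χ' : G → ℂ} (h : IrrCh χ) (h' : IrrCh χ') (g : G) :
    ∑ x, χ x⁻¹ * χ' (x * g) = if χ' = χ then (Fintype.card G : ℂ) / χ 1 * χ g else 0 := by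
  have ho := orth h h'
  have hc := cls h
  have hd := deg_ne h'
  obtain ⟨W', i1', i2', i3', κ', hκ', hχ'⟩ := h'
  let T : Module.End ℂ W' := ∑ x, χ x⁻¹ • κ' x
  have hT : ∀ g, T * κ' g = κ' g * T := fun g => sum_comm κ' χ hc g
  let f : IntertwiningMap κ' κ' :=
    { toLinearMap := T
      isIntertwining' := fun g => hT g }
  obtain ⟨c, hcf⟩ := (IsIrreducible.algebraMap_intertwiningMap_bijective_of_isAlgClosed
    (ρ := κ')).2 f
  have hTc : T = c • (1 : Module.End ℂ W') := by
    have h1 : f.toLinearMap = (algebraMap ℂ (IntertwiningMap κ' κ') c).toLinearMap := by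
      rw [hcf]
    refine LinearMap.ext fun w => ?_
    have h2 := LinearMap.congr_fun h1 w
    exact h2
  have htr : ∀ g, LinearMap.trace ℂ W' (T * κ' g) = ∑ x, χ x⁻¹ * χ' (x * g) := by
    intro g
    show LinearMap.trace ℂ W' ((∑ x, χ x⁻¹ • κ' x) * κ' g) = _
    rw [Finset.sum_mul, map_sum]
    refine Finset.sum_congr rfl fun x _ => ?_
    rw [smul_mul_assoc, ← map_mul, map_smul, ← hχ']
    rfl
  have htr2 : ∀ g, LinearMap.trace ℂ W' (T * κ' g) = c * χ' g := by
    intro g
    rw [hTc, smul_mul_assoc, one_mul, map_smul, ← hχ']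
    rfl
  have h1 : c * χ' 1 = if χ' = χ then (Fintype.card G : ℂ) else 0 := by
    rw [← htr2, htr, ← ho]
    refine Finset.sum_congr rfl fun x _ => ?_
    rw [mul_one, mul_comm]
  rw [← htr, htr2]
  by_cases hcc : χ' = χ
  · rw [if_pos hcc] at h1 ⊢
    rw [hcc] at h1 hd ⊢
    rw [← h1]
    field_simp
  · rw [if_neg hcc] at h1 ⊢
    rw [(mul_eq_zero.1 h1).resolve_right hd, zero_mul]

end conv

section idem

variable {G : Type} [Group G] {F : Type} [Field F] {d : ℕ}

/-- The representation given by matrices. -/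
noncomputable def RB (R : G →* Matrix (Fin d) (Fin d) F) : Representation F G (Fin d → F) where
  toFun g := Matrix.toLin' (R g)
  map_one' := by
    rw [map_one, Matrix.toLin'_one]
    rfl
  map_mul' g h := by
    rw [map_mul, Matrix.toLin'_mul]
    rfl

theorem RB_apply (R : G →* Matrix (Fin d) (Fin d) F) (g : G) (v : Fin d → F) :
    RB R g v = (R g).mulVec v := rfl

/-- The range of the idempotent. -/
noncomputable def U (e : Matrix (Fin d) (Fin d) F) : Submodule F (Fin d → F) :=
  LinearMap.range (Matrix.toLin' e)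

theorem mulVec_mem (e : Matrix (Fin d) (Fin d) F) (v : Fin d → F) : e.mulVec v ∈ U e :=
  ⟨v, rfl⟩

theorem mulVec_of_mem {e : Matrix (Fin d) (Fin d) F} (he : e * e = e) {v : Fin d → F}
    (hv : v ∈ U e) : e.mulVec v = v := by
  obtain ⟨u, hu⟩ := hv
  have hu' : e.mulVec u = v := hu
  rw [← hu', Matrix.mulVec_mulVec, he]

variable {R : G →* Matrix (Fin d) (Fin d) F} {e : Matrix (Fin d) (Fin d) F}

theorem stable (h : ∀ g, e * R g = R g * e) (g : G) : U e ≤ (U e).comap (RB R g) := by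
  rintro v ⟨u, hu⟩
  have hu' : e.mulVec u = v := hu
  show (R g).mulVec v ∈ U e
  rw [← hu', Matrix.mulVec_mulVec, ← h g, ← Matrix.mulVec_mulVec]
  exact mulVec_mem e _

/-- The range of an equivariant idempotent gives a matrix representation. -/
theorem exists_rep (he : e * e = e) (h : ∀ g, e * R g = R g * e) :
    ∃ (d' : ℕ) (R' : G →* Matrix (Fin d') (Fin d') F),
      ∀ g, (R' g).trace = (e * R g).trace := by
  let ρ : Representation F G (U e) := (RB R).subrepresentation (U e) (stable h)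
  let b := Module.finBasis F (U e)
  have hρ : ∀ (g : G) (u : U e), ((ρ g u : U e) : Fin d → F) = (R g).mulVec (u : Fin d → F) :=
    fun g u => rfl
  refine ⟨Module.finrank F (U e),
    ((LinearMap.toMatrixAlgEquiv b : (U e →ₗ[F] U e) ≃ₐ[F] _) : _ →* _).comp ρ, ?_⟩
  intro g
  show (LinearMap.toMatrix b b (ρ g)).trace = _
  rw [← LinearMap.trace_eq_matrix_trace F b]
  have hm : ∀ x, (Matrix.toLin' (R g * e)) x ∈ U e := by
    intro x
    show (R g * e).mulVec x ∈ U e
    rw [← h g, ← Matrix.mulVec_mulVec]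
    exact mulVec_mem e _
  have e1 : ρ g = (Matrix.toLin' (R g * e)).restrict (fun x _ => hm x) := by
    refine LinearMap.ext fun u => Subtype.ext ?_
    rw [hρ]
    show _ = (R g * e).mulVec (u : Fin d → F)
    rw [← Matrix.mulVec_mulVec, mulVec_of_mem he u.2]
  rw [e1, LinearMap.trace_restrict_eq_of_forall_mem (U e) _ hm, Matrix.trace_toLin'_eq, h g]

end idem

end StarkC.ABS.RZPx

namespace StarkC.ABS

open RZPx Representation
open StarkP (charField Realizable)

theorem RZP_thm : Stmt_RZP := by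
  intro hYDE G _ _ χ d R hχ hR hip
  have hcard : (Fintype.card G : ℂ) ≠ 0 := Nat.cast_ne_zero.2 Fintype.card_ne_zero
  have hd := deg_ne hχ
  have hcl := cls hχ
  have hmem : ∀ g, χ g ∈ charField χ := fun g =>
    IntermediateField.subset_adjoin ℚ _ (Set.mem_range_self g)
  -- the idempotent
  let c : ℂ := χ 1 / Fintype.card G
  let e : Matrix (Fin d) (Fin d) ℂ := c • ∑ g, χ g⁻¹ • R g
  have hcm : c ∈ charField χ := div_mem (hmem 1) (natCast_mem _ _)
  have hcomm : ∀ g, e * R g = R g * e := by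
    intro g
    show (c • ∑ g, χ g⁻¹ • R g) * R g = R g * (c • ∑ g, χ g⁻¹ • R g)
    rw [smul_mul_assoc, mul_smul_comm, sum_comm R χ hcl g]
  have hee : e * e = e := by
    have h1 : e * e = c • ∑ g, χ g⁻¹ • (R g * e) := by
      show (c • ∑ g, χ g⁻¹ • R g) * e = _
      rw [smul_mul_assoc, Finset.sum_mul]
      congr 1
      exact Finset.sum_congr rfl fun g _ => smul_mul_assoc _ _ _
    have h2 : ∀ g, R g * e = c • ∑ k, χ (k⁻¹ * g) • R k := by
      intro g
      show R g * (c • ∑ h, χ h⁻¹ • R h) = _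
      rw [mul_smul_comm, Finset.mul_sum]
      congr 1
      refine Fintype.sum_equiv (Equiv.mulLeft g) _ _ ?_
      intro h
      show R g * χ h⁻¹ • R h = χ ((g * h)⁻¹ * g) • R (g * h)
      rw [mul_smul_comm, ← map_mul]
      congr 2
      group
    rw [h1]
    show _ = c • ∑ k, χ k⁻¹ • R k
    congr 1
    have h3 : ∀ k, ∑ g, χ g⁻¹ * χ (k⁻¹ * g) = (Fintype.card G : ℂ) / χ 1 * χ k⁻¹ := by
      intro k
      have h4 := conv hχ hχ k⁻¹
      rw [if_pos rfl] at h4
      rw [← h4]
      refine Finset.sum_congr rfl fun g _ => ?_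
      have h5 := hcl (k⁻¹ * g) k
      have h6 : k * (k⁻¹ * g) * k⁻¹ = g * k⁻¹ := by group
      rw [← h5, h6]
    calc ∑ g, χ g⁻¹ • (R g * e) = ∑ g, ∑ k, (c * (χ g⁻¹ * χ (k⁻¹ * g))) • R k := by
          refine Finset.sum_congr rfl fun g _ => ?_
          rw [h2, smul_smul, Finset.smul_sum]
          refine Finset.sum_congr rfl fun k _ => ?_
          rw [smul_smul]
          congr 1
          ring
      _ = ∑ k, ∑ g, (c * (χ g⁻¹ * χ (k⁻¹ * g))) • R k := Finset.sum_comm
      _ = ∑ k, χ k⁻¹ • R k := by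
          refine Finset.sum_congr rfl fun k _ => ?_
          rw [← Finset.sum_smul, ← Finset.mul_sum, h3]
          congr 1
          show χ 1 / Fintype.card G * _ = _
          field_simp
  -- the decomposition
  obtain ⟨m, φ, hφ, hsum⟩ := hYDE G (Fin d → ℂ) (RB R)
  have hφI : ∀ i, IrrCh (φ i) := by
    intro i
    obtain ⟨W, i1, i2, i3, σ, h1, -, h2⟩ := hφ i
    exact ⟨W, i1, i2, i3, σ, h1, h2⟩
  have hRt : ∀ g, (R g).trace = ∑ i, φ i g := by
    intro g
    rw [← hsum g]
    show _ = LinearMap.trace ℂ (Fin d → ℂ) (Matrix.toLin' (R g))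
    rw [Matrix.trace_toLin'_eq]
  have hone : ((Finset.univ.filter fun i => φ i = χ).card : ℂ) = 1 := by
    have h1 : ip (fun g => (R g).trace) χ =
        ((Finset.univ.filter fun i => φ i = χ).card : ℂ) * Fintype.card G := by
      show ∑ g, (R g).trace * χ g⁻¹ = _
      calc ∑ g, (R g).trace * χ g⁻¹ = ∑ g, ∑ i, φ i g * χ g⁻¹ := by
            refine Finset.sum_congr rfl fun g _ => ?_
            rw [hRt, Finset.sum_mul]
        _ = ∑ i, ∑ g, φ i g * χ g⁻¹ := Finset.sum_comm
        _ = ∑ i, if φ i = χ then (Fintype.card G : ℂ) else 0 :=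
            Finset.sum_congr rfl fun i _ => orth hχ (hφI i)
        _ = _ := by
            rw [← Finset.sum_filter, Finset.sum_const, nsmul_eq_mul]
    rw [hip] at h1
    have h2 : (1 - ((Finset.univ.filter fun i => φ i = χ).card : ℂ)) * Fintype.card G = 0 := by
      rw [sub_mul, one_mul, ← h1, sub_self]
    have h3 := (mul_eq_zero.1 h2).resolve_right hcard
    exact (sub_eq_zero.1 h3).symm
  have htr : ∀ g, (e * R g).trace = χ g := by
    intro g
    have h1 : (e * R g).trace = c * ∑ x, χ x⁻¹ * (R (x * g)).trace := by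
      show ((c • ∑ x, χ x⁻¹ • R x) * R g).trace = _
      rw [smul_mul_assoc, Matrix.trace_smul, Finset.sum_mul, Matrix.trace_sum, smul_eq_mul]
      congr 1
      refine Finset.sum_congr rfl fun x _ => ?_
      rw [smul_mul_assoc, Matrix.trace_smul, smul_eq_mul, ← map_mul]
    have h2 : ∑ x, χ x⁻¹ * (R (x * g)).trace = (Fintype.card G : ℂ) / χ 1 * χ g := by
      calc ∑ x, χ x⁻¹ * (R (x * g)).trace = ∑ x, ∑ i, χ x⁻¹ * φ i (x * g) := by
            refine Finset.sum_congr rfl fun x _ => ?_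
            rw [hRt, Finset.mul_sum]
        _ = ∑ i, ∑ x, χ x⁻¹ * φ i (x * g) := Finset.sum_comm
        _ = ∑ i, if φ i = χ then (Fintype.card G : ℂ) / χ 1 * χ g else 0 :=
            Finset.sum_congr rfl fun i _ => conv hχ (hφI i) g
        _ = _ := by
            rw [← Finset.sum_filter, Finset.sum_const, nsmul_eq_mul, hone, one_mul]
    rw [h1, h2]
    show χ 1 / Fintype.card G * _ = _
    field_simp
  -- over the field
  have hem : ∀ i j, e i j ∈ charField χ := by
    intro i j
    show (c • ∑ g, χ g⁻¹ • R g) i j ∈ charField χ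
    rw [Matrix.smul_apply, Matrix.sum_apply, smul_eq_mul]
    refine mul_mem hcm (sum_mem fun g _ => ?_)
    rw [Matrix.smul_apply, smul_eq_mul]
    exact mul_mem (hmem _) (hR g i j)
  let ι : charField χ →+* ℂ := algebraMap (charField χ) ℂ
  have hι : Function.Injective ι := (algebraMap (charField χ) ℂ).injective
  have hιM : ∀ {n : ℕ}, Function.Injective
      (ι.mapMatrix : Matrix (Fin n) (Fin n) (charField χ) →+* Matrix (Fin n) (Fin n) ℂ) :=
    fun {n} => Matrix.map_injective hι
  let Rf : G → Matrix (Fin d) (Fin d) (charField χ) := fun g => Matrix.of fun i j =>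
    ⟨R g i j, hR g i j⟩
  have hRf : ∀ g, ι.mapMatrix (Rf g) = R g := fun g => rfl
  let RF : G →* Matrix (Fin d) (Fin d) (charField χ) :=
    { toFun := Rf
      map_one' := hιM (by rw [hRf, map_one, map_one])
      map_mul' := fun g h => hιM (by rw [map_mul, hRf, hRf, hRf, map_mul]) }
  let eF : Matrix (Fin d) (Fin d) (charField χ) := Matrix.of fun i j => ⟨e i j, hem i j⟩
  have heF : ι.mapMatrix eF = e := rfl
  have hRF : ∀ g, ι.mapMatrix (RF g) = R g := fun g => rfl
  have h1 : eF * eF = eF := hιM (by rw [map_mul, heF, hee])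
  have h2 : ∀ g, eF * RF g = RF g * eF := fun g =>
    hιM (by rw [map_mul, map_mul, heF, hRF, hcomm])
  obtain ⟨d', R', hR'⟩ := exists_rep h1 h2
  refine ⟨d', (RingHom.toMonoidHom (ι.mapMatrix :
    Matrix (Fin d') (Fin d') (charField χ) →+* Matrix (Fin d') (Fin d') ℂ)).comp R', ?_, ?_⟩
  · intro g i j
    show ι (R' g i j) ∈ charField χ
    exact (R' g i j).2
  · intro g
    have h3 : (ι.mapMatrix (R' g)).trace = ι (R' g).trace :=
      (AddMonoidHom.map_trace ι.toAddMonoidHom (R' g)).symm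
    have h4 : (ι.mapMatrix (eF * RF g)).trace = ι (eF * RF g).trace :=
      (AddMonoidHom.map_trace ι.toAddMonoidHom (eF * RF g)).symm
    show (ι.mapMatrix (R' g)).trace = χ g
    rw [h3, hR', ← h4, map_mul, heF, hRF, htr]

end StarkC.ABS
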