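import Pool.Agent.ABS.StZR

/-!
# Project ABS (MP_46b841_nt), part Z, addition, module RZT: the leaf is realizable
-/

set_option autoImplicit false

open scoped Classical

namespace StarkC.ABS

open StarkP (charField Realizable)

namespace RZTx

variable {G : Type} [Group G]

theorem s_ne {n s : ℕ} (h : TT n s) : s ≠ 0 := by
  rintro rfl
  obtain ⟨hn, h⟩ := h
  have h1 : 2 ^ 2 ≤ 2 ^ n := Nat.pow_le_pow_right (by norm_num) hn
  have h2 : (0 + 1) % 2 ^ n = 1 := Nat.mod_eq_of_lt (by omega)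
  rcases h with h | ⟨h3, h⟩
  · omega
  · have h4 : 2 ^ 2 ≤ 2 ^ (n - 1) := Nat.pow_le_pow_right (by norm_num) (by omega)
    omega

theorem extZ_out {A : Subgroup G} (ψ : A →* ℂˣ) {u : G} (h : u ∉ A) : extZ ψ u = 0 := dif_neg h

theorem extZ_in {A : Subgroup G} (ψ : A →* ℂˣ) {u : G} (h : u ∈ A) :
    extZ ψ u = ((ψ ⟨u, h⟩ : ℂˣ) : ℂ) := dif_pos h

theorem mem_iff {A : Subgroup G} {ψ : A →* ℂˣ} {g : G} {n m s : ℕ} (L : Leaf A ψ g n m s)
    (u : G) : g⁻¹ * u * g ∈ A ↔ u ∈ A := by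
  refine ⟨fun h => ?_, fun h => L.norm u h⟩
  have h1 := L.norm _ h
  have h2 : u = (g * g) * (g⁻¹ * (g⁻¹ * u * g) * g) * (g * g)⁻¹ := by group
  rw [h2]
  exact mul_mem (mul_mem L.mem h1) (inv_mem L.mem)

theorem extZ_conj {A : Subgroup G} {ψ : A →* ℂˣ} {g : G} {n m s : ℕ} (L : Leaf A ψ g n m s)
    (u : G) : extZ ψ u ^ s = extZ ψ (g⁻¹ * u * g) := by
  by_cases h : u ∈ A
  · rw [extZ_in ψ h, extZ_in ψ (L.norm u h), L.conj ⟨u, h⟩ ⟨g⁻¹ * u * g, L.norm u h⟩ rfl,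
      Units.val_pow_eq_pow_val]
  · rw [extZ_out ψ h, extZ_out ψ fun h' => h ((mem_iff L u).1 h'), zero_pow (s_ne L.tt)]

end RZTx

open RZTx in
theorem RZT_thm : Stmt_RZT := by
  intro hRZI hRZD G _ _ A ψ g n m s L hσ
  obtain ⟨B, R, hE, hAB, hcard, htr⟩ := hRZD G A ψ g n m s L hσ
  obtain ⟨d', R', hE', htr'⟩ := hRZI G B 2 R _ hE
  refine ⟨d', R', hE', fun y => ?_⟩
  rw [htr' y]
  have h1 : ∀ u : G, (if u ∈ B then extM R u else 0) =
      extZ ψ u + extZ ψ (g⁻¹ * u * g) := by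
    intro u
    rw [← extZ_conj L u]
    by_cases h : u ∈ B
    · rw [if_pos h]
      unfold extM
      rw [dif_pos h]
      exact htr ⟨u, h⟩
    · rw [if_neg h, extZ_out ψ fun h' => h (hAB h'), zero_pow (s_ne L.tt), add_zero]
  have h2 : ∀ u : G, (if u ∈ A then extZ ψ u else 0) = extZ ψ u := by
    intro u
    by_cases h : u ∈ A
    · rw [if_pos h]
    · rw [if_neg h, extZ_out ψ h]
  unfold indFun
  rw [Finset.sum_congr rfl fun x _ => h1 (x⁻¹ * y * x),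
    Finset.sum_congr rfl fun x _ => h2 (x⁻¹ * y * x), Finset.sum_add_distrib]
  have h3 : ∑ x : G, extZ ψ (g⁻¹ * (x⁻¹ * y * x) * g) = ∑ x : G, extZ ψ (x⁻¹ * y * x) := by
    rw [← Equiv.sum_comp (Equiv.mulRight g) fun x => extZ ψ (x⁻¹ * y * x)]
    refine Finset.sum_congr rfl fun x _ => ?_
    congr 1
    rw [Equiv.coe_mulRight]
    group
  have hA : (Nat.card A : ℂ) ≠ 0 := by
    exact_mod_cast (Nat.card_pos (α := A)).ne'
  rw [h3, hcard, Nat.cast_mul, Nat.cast_two, ← two_mul]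
  exact mul_div_mul_left _ _ two_ne_zero

end StarkC.ABS
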