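import Pool.Agent.ABS.FINZG
import Pool.Agent.ABS.RZX
import Pool.Agent.ABS.RZD
import Pool.Agent.ABS.RZT
import Pool.Agent.ABS.RZP
import Pool.Agent.ABS.YDE

/-!
# Project ABS, part Z: irreducible characters with nilpotent image which are not symplectic are
realizable over their field of values (helper63)
-/

set_option autoImplicit false

open scoped Classical

namespace StarkC.ABS

open StarkP (charField Realizable)

/-- Irreducible, nilpotent image, not symplectic: `Realizable`. -/
theorem real_nilNS {G V : Type} [Group G] [Fintype G] [AddCommGroup V] [Module ℂ V]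
    [Module.Finite ℂ V] (ρ : Representation ℂ G V) (hirr : ρ.IsIrreducible)
    (hnil : Group.IsNilpotent (G ⧸ MonoidHom.ker ρ)) (hsy : ¬ Sy ρ) :
    Realizable ρ.character := by
  rcases FINZGx.conclZOQ G V ρ (FINZx.irr_of ρ hirr) (FINZx.lcs_of ρ hnil) hsy with
    ⟨H, ψ, hχ, hfix⟩ | ⟨A, ψ, g, n, m, s, hL, hχ, hfix⟩
  · exact real_of_indData ρ (FINZGx.indData_of ρ H ψ hχ hfix)
  · rw [hχ] at hfix ⊢
    exact RZT_thm RZI_thm RZD_thm G A ψ g n m s hL hfix

/-- Irreducible characters which, as characters of the image, occur exactly once in a character induced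
from a linear character with values `±1`. -/
theorem real_of_quot {G V : Type} [Group G] [Fintype G] [AddCommGroup V] [Module ℂ V]
    [Module.Finite ℂ V] (ρ : Representation ℂ G V) (hirr : ρ.IsIrreducible)
    [Fintype (G ⧸ MonoidHom.ker ρ)]
    (h : ∀ ρ' : Representation ℂ (G ⧸ MonoidHom.ker ρ) V, ρ'.IsIrreducible →
      ∃ (H : Subgroup (G ⧸ MonoidHom.ker ρ)) (ψ : H →* ℂˣ), (∀ x, ψ x = 1 ∨ ψ x = -1) ∧
        ip (indFun H (extZ ψ)) ρ'.character = (Fintype.card (G ⧸ MonoidHom.ker ρ) : ℂ)) :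
    Realizable ρ.character := by
  let π : G →* (G ⧸ MonoidHom.ker ρ) := QuotientGroup.mk' (MonoidHom.ker ρ)
  have hπ : Function.Surjective π := QuotientGroup.mk'_surjective _
  let ρ' : Representation ℂ (G ⧸ MonoidHom.ker ρ) V :=
    QuotientGroup.lift (MonoidHom.ker ρ) ρ (fun _ hg => hg)
  have hρ' : ∀ g, ρ' (π g) = ρ g := fun g => rfl
  have hirr' : ρ'.IsIrreducible := FINPx.irr_of π hπ ρ ρ' hρ' hirr
  obtain ⟨H, ψ, hψ, hip⟩ := h ρ' hirr'
  have h1 : Realizable ρ'.character :=
    real_of_mult_one RZP_thm YDE_thm ρ'.character ⟨V, inferInstance, inferInstance, inferInstance, ρ', hirr', rfl⟩ H ψ hψ hip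
  exact real_infl π hπ ρ'.character h1

end StarkC.ABS
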