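import Pool.Agent.ABS.RESF
import Pool.Agent.ABS.SYM

/-!
# Project ABS: the printed statement for linear characters of any order `≥ 3` and all cyclic
subfields
-/

set_option autoImplicit false

open NumberField IsDedekindDomain
open scoped TensorProduct Classical

namespace StarkC.ABS

namespace SYMx

variable {K L : Type} [Field K] [NumberField K] [Field L] [NumberField L] [Algebra K L]
  [IsGalois K L]

/-- Linear characters of order `≥ 3`: `A_S(Tr ψ, φ)` is the norm of an element of every subfield of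
`ℚ(ψ)` which is cyclic over `ℚ`. -/
theorem linearE (hORD : ∀ (K L : Type) [Field K] [NumberField K] [Field L] [NumberField L]
    [Algebra K L] [IsGalois K L]
    (ℓ k m : ℕ) (ψ : (L ≃ₐ[K] L) →* ℂˣ) (S : Finset (HeightOneSpectrum (𝓞 K)))
    (φ : XQ L (aboveSet K L S) ≃ₗ[ℚ] QU L (aboveSet K L S))
    (Θ : XC L (aboveSet K L S) →ₗ[ℂ] XC L (aboveSet K L S)),
    OkOrd ℓ k → 0 < m → (ℓ ^ k).Coprime m → orderOf ψ = ℓ ^ k * m →
    IsPhiTheta K (aboveSet K L S) φ Θ → PT (ℓ ^ k) (cSum (ℓ ^ k * m) ψ) S Θ)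
    (hCFL : Stmt_CFL)
    (hTRX : ∀ (G : Type) (n : ℕ) (χ : G → ℂ) (χt : ℕ → G → ℂ), 0 < n →
      StarkP.charField χ = Cyc n →
      (∀ t ∈ Ex n, ∀ σ : ℂ ≃+* ℂ, (∀ z : ℂ, z ^ n = 1 → σ z = z ^ t) → ∀ g, σ (χ g) = χt t g) →
      ∀ g, StarkP.trChar χ g = ∑ t ∈ Ex n, χt t g)
    (S : Finset (HeightOneSpectrum (𝓞 K)))
    (Θ : ((L → ℝ) →₀ ℂ) →ₗ[ℂ] ((L → ℝ) →₀ ℂ))
    (hΘ : StarkP.IsTheta K (StarkP.aboveSet K L S) Θ)
    (ψ : (L ≃ₐ[K] L) →* ℂˣ) (h3 : 3 ≤ orderOf ψ)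
    (E : IntermediateField ℚ ℂ)
    (hE : E ≤ StarkP.charField (fun g => ((ψ g : ℂˣ) : ℂ))) (hc : IsCyclic (E ≃ₐ[ℚ] E)) :
    StarkP.NormIn E (fun g => ((ψ g : ℂˣ) : ℂ)) (S : Set (HeightOneSpectrum (𝓞 K))) Θ := by
  set n := orderOf ψ with hn
  obtain ⟨φ, Θ₀, hφ, hreg⟩ := StarkB.exists_isPhiTheta (K := K) (L := L)
    (S : Set (HeightOneSpectrum (𝓞 K))) S.finite_toSet Θ hΘ
  have hCF : StarkP.charField (fun g => ((ψ g : ℂˣ) : ℂ)) = Cyc n := hCFL (L ≃ₐ[K] L) ψ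
  have hψ1 : ψ ^ n = 1 := pow_orderOf_eq_one ψ
  have hval : ∀ g, ((ψ g : ℂˣ) : ℂ) ^ n = 1 := fun g => by
    have := DFunLike.congr_fun hψ1 g
    rw [MonoidHom.pow_apply] at this
    rw [← Units.val_pow_eq_pow_val, this]
    rfl
  have htr : StarkP.trChar (fun g => ((ψ g : ℂˣ) : ℂ)) = cSum n ψ := by
    funext g
    exact hTRX _ _ _ (fun t g => ((ψ g : ℂˣ) : ℂ) ^ t) (by omega) hCF
      (fun t _ σ hσ g => hσ _ (hval g)) g
  have hE' : E ≤ StarkP.rootField n := by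
    rw [hCF] at hE
    exact hE
  obtain ⟨F, a, hF, ha, hR, -, hcyc⟩ := cyc_of_PT SYM_thm n h3 ψ S φ Θ₀ hφ
    fun ℓ k m hℓ hk h2 hm hcop => by
      have h0 : 0 < m := by
        rcases Nat.eq_zero_or_pos m with h | h
        · rw [h, mul_zero] at hm
          omega
        · exact h
      have := hORD K L ℓ k m ψ S φ Θ₀ ⟨hℓ, hk, h2⟩ h0 hcop (hn.symm.trans hm) hφ
      rw [← hm] at this
      exact this
  have hG : IsGalois ℚ E := galois_of_le n (by omega) E hE'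
  obtain ⟨β, hβ⟩ := hcyc E hE' hG hc
  have hβ0 : β ≠ 0 := by
    rintro rfl
    have hfd : FiniteDimensional ℚ E := by
      have : NeZero n := ⟨by omega⟩
      have h1 := rootField_cyc n
      have h2 : FiniteDimensional ℚ (StarkP.rootField n) :=
        IsCyclotomicExtension.finiteDimensional {n} ℚ (StarkP.rootField n)
      exact FiniteDimensional.of_injective
        (IntermediateField.inclusion hE').toLinearMap (IntermediateField.inclusion_injective hE')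
    rw [Algebra.norm_zero] at hβ
    exact ha hβ.symm
  refine ⟨F, β, ⟨hF.1, fun s hs => by rw [htr]; exact hF.2 s hs⟩, hβ0, fun V _ _ _ ρ hρ => ?_⟩
  have h1 := hR V ρ fun g => by rw [hρ, htr]
  have h0 : meromorphicTrailingCoeffAt F 0 ≠ 0 := by
    intro h
    have h2 := StarkG.reg_ne_zero S φ Θ₀ hφ V ρ
    rw [h1, h, mul_zero] at h2
    exact h2 rfl
  rw [show StarkP.Reg (StarkP.aboveSet K L S) ρ Θ = _ from hreg V ρ, h1, mul_div_assoc,
    div_self h0, mul_one, hβ]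

end SYMx

end StarkC.ABS
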