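import Mathlib

/-!
# Stark's conjecture in norm: statements of the algebraic modules, part A

Project ABS (MP_46b841_nt), Mathlib only.  `l` is a prime number, `n = l ^ k`, `L/K` is cyclic of
degree `n`, `F` is the field between `K` and `L` with `[L : F] = l`.

Module `X` proves `theorem ABS.X_thm : Stmt_X` in the file `Pool/Agent/ABS/X.lean`, which begins with
`import Pool.Agent.ABS.StA`; helper lemmas in `namespace ABS.X`.  The statements used are hypotheses
inside `Stmt_X` (do not unfold them until needed: `intro hGEN hJN ...`).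
-/

open NumberField NumberField.InfinitePlace
open scoped Classical

namespace ABS

/-! ### Norms of elements of cyclotomic fields -/

/-- `q` is the norm of an element `≠ 0` of `ℚ(ζ_n)`. -/
def IsNrm (n : ℕ) (q : ℚ) : Prop := ∃ α : CyclotomicField n ℚ, α ≠ 0 ∧ Algebra.norm ℚ α = q

theorem IsNrm.mul {n : ℕ} {a b : ℚ} (ha : IsNrm n a) (hb : IsNrm n b) : IsNrm n (a * b) := by
  obtain ⟨x, hx, rfl⟩ := ha
  obtain ⟨y, hy, rfl⟩ := hb
  exact ⟨x * y, mul_ne_zero hx hy, map_mul _ _ _⟩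

theorem IsNrm.inv {n : ℕ} {a : ℚ} (ha : IsNrm n a) : IsNrm n a⁻¹ := by
  obtain ⟨x, hx, rfl⟩ := ha
  exact ⟨x⁻¹, inv_ne_zero hx, eq_inv_of_mul_eq_one_left
    (by rw [← map_mul, inv_mul_cancel₀ hx, map_one])⟩

/-- The cases considered: `n = l ^ k > 2`. -/
def Ok (l k : ℕ) : Prop := l.Prime ∧ 0 < k ∧ 2 < l ^ k

/-- The ideal `J` is stable under all automorphisms. -/
def Sta {E : Type} [Field E] [NumberField E] (J : Ideal (𝓞 E)) : Prop :=
  ∀ (g : E ≃ₐ[ℚ] E) (x y : 𝓞 E), x ∈ J → (y : E) = g (x : E) → y ∈ J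

/-- GIN (about 200 lines).  `E = ℚ(ζ_n)`, `n = l ^ k`.  An ideal `J ≠ 0` which is stable under all
automorphisms is principal.  Strong induction on the norm of `J` (or `WfDvdMonoid` induction).  Let
`P` be a prime ideal which divides `J`, `P ∩ ℤ = (p)`.  If `p = l` then `P = (ζ - 1)`
(`IsCyclotomicExtension.Rat.eq_span_zeta_sub_one_of_liesOver`), `J = P J'` and `J'` is stable (as `P`
is: `P` is the only prime above `l`).  If `p ≠ l` then all `g P` divide `J`, these are all the primes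
above `p` (`Ideal.exists_smul_eq_of_..`, `Ideal.exists_map_eq_of_isGalois`), and `p` is unramified
(`IsCyclotomicExtension.Rat.ramificationIdx_eq_of_not_dvd`), so `(p) = ∏ Q`, the product of the
different primes above `p`, divides `J`; `J = (p) J'` and `J'` is stable. -/
def Stmt_GIN : Prop :=
  ∀ (l k : ℕ), l.Prime → 0 < k → ∀ J : Ideal (𝓞 (CyclotomicField (l ^ k) ℚ)), J ≠ ⊥ → Sta J →
    ∃ a, J = Ideal.span {a}

/-- POS (about 80 lines).  `n = l ^ k > 2`: the norms of the elements `≠ 0` of `ℚ(ζ_n)` are positive: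
the field is totally complex (`ζ` is not real in any embedding), the norm is the product over all
embeddings `φ` (`Algebra.norm_eq_prod_embeddings`), `φ` and its conjugate are different and the product
of their values is `|φ α|²` (look at the proof of `InfinitePlace.prod_eq_abs_norm`; or use the
tower `ℚ(ζ)/ℚ(ζ)⁺/ℚ`; or `Algebra.norm = ∏ g α` over the automorphisms and one embedding `φ`: complex
conjugation is an automorphism `c ≠ 1` of order two which commutes with all `g`, so the product is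
`b * c b`-like over representatives of `G/⟨c⟩`). -/
def Stmt_POS : Prop :=
  ∀ (l k : ℕ), l.Prime → 2 < l ^ k → ∀ α : CyclotomicField (l ^ k) ℚ, α ≠ 0 →
    0 < Algebra.norm ℚ α

/-- HIL (about 150 lines; USES GIN, POS).  Let `g` be a generator of the Galois group of
`E = ℚ(ζ_n)/ℚ` and `J'` the image of `J` under `g`.  If `(a) J' = (b) J` then `J` is principal.
`β = b / a`: `absNorm J' = absNorm J`, so `|N(β)| = 1`, `N(β) = 1` (POS),
`groupCohomology.exists_div_of_norm_eq_one` (Hilbert 90): `β = g(γ) / γ`; multiply `γ` by an integer: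
`c J ⊆ 𝓞` for `c = 1 / γ` integral (`γ = x / m`, so `γ⁻¹ = m / x = m N(x)/x / N(x)`; or take
`δ = γ⁻¹` and a multiple of it in `𝓞 E`).  `J₁ = δ J` is stable under `g`:
`g(δ J) = g(γ)⁻¹ β J = γ⁻¹ J`, so under all powers of `g` (the group is finite, the powers `g^i` with
`i : ℕ` suffice).  GIN: `δ J = (e)`, so `J = (e / δ)`. -/
def Stmt_HIL : Prop :=
  Stmt_GIN → Stmt_POS → ∀ (l k : ℕ), Ok l k →
    ∀ (g : CyclotomicField (l ^ k) ℚ ≃ₐ[ℚ] CyclotomicField (l ^ k) ℚ),
      (∀ h, h ∈ Subgroup.zpowers g) →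
    ∀ (J J' : Ideal (𝓞 (CyclotomicField (l ^ k) ℚ))) (a b : 𝓞 (CyclotomicField (l ^ k) ℚ)),
      J ≠ ⊥ → a ≠ 0 → b ≠ 0 →
      (∀ x y : 𝓞 (CyclotomicField (l ^ k) ℚ),
        (y : CyclotomicField (l ^ k) ℚ) = g (x : CyclotomicField (l ^ k) ℚ) →
        (x ∈ J ↔ y ∈ J')) →
      Ideal.span {a} * J' = Ideal.span {b} * J → ∃ c, J = Ideal.span {c}

/-- GNS (about 150 lines; USES HIL, POS), the genus lemma (for `n = 2 ^ k`, `k ≥ 3` see GNS4 in
`StA3.lean`).  The Galois group of `ℚ(ζ_n)/ℚ` is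
`(ℤ/n)ˣ` (`IsCyclotomicExtension.autEquivPow`, `Polynomial.cyclotomic.irreducible_rat`) and cyclic
(`ZMod.isCyclic_units_...`: prime powers of odd primes, and `4`).  By HIL the endomorphism
`c ↦ g(c) / c` of the finite group `Cl` is injective, so it is surjective: `I (x) J = (y) g(J)` with
`x, y ≠ 0`, so `absNorm I = |N(y / x)| = N(y / x)` (POS).  (The endomorphism of the class group: use
`ClassGroup.mk0` and only the map `J ↦ g(J)` on ideals; or `ClassGroup.equiv`-like maps; or count: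
the map `Cl → Cl`, `[J] ↦ [g J] [J]⁻¹`.) -/
def Stmt_GNS : Prop :=
  Stmt_HIL → Stmt_GIN → Stmt_POS → ∀ (l k : ℕ), Ok l k →
    ∀ I : Ideal (𝓞 (CyclotomicField (l ^ k) ℚ)), I ≠ ⊥ → IsNrm (l ^ k) (Ideal.absNorm I)

/-! ### Groups -/

/-- CRD (about 100 lines).  The order of a finite module over `𝓞 E` is the norm of an ideal.  Strong
induction on `Nat.card M`: if `x ≠ 0` then the submodule `𝓞 x` is isomorphic to `𝓞 / ann(x)`
(`LinearMap.quotKerEquivRange` of `LinearMap.toSpanSingleton`), of order `absNorm (ann x)`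
(`Submodule.cardQuot`, `Ideal.absNorm_apply`), and `M / 𝓞 x` is smaller; `absNorm` is
multiplicative. -/
def Stmt_CRD : Prop :=
  ∀ (E : Type) [Field E] [NumberField E] (M : Type) [AddCommGroup M] [Module (𝓞 E) M] [Finite M],
    ∃ I : Ideal (𝓞 E), I ≠ ⊥ ∧ Ideal.absNorm I = Nat.card M

/-- KER (about 120 lines; USES CRD).  `s` satisfies `Φ_n(s) = 0`, `n = l ^ k`
(`Polynomial.cyclotomic_prime_pow_eq_geom_sum`), so there is a homomorphism of rings
`𝓞 (ℚ(ζ_n)) = ℤ[ζ_n] → End(M)` with `ζ_n ↦ s` (`IsPrimitiveRoot.integralPowerBasis`, its `minpoly` is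
`Φ_n`; `PowerBasis.lift`), `M` is a module over `𝓞 (ℚ(ζ_n))`. -/
def Stmt_KER : Prop :=
  Stmt_CRD → ∀ (l k : ℕ), l.Prime → 0 < k → ∀ (M : Type) [AddCommGroup M] [Finite M] (s : M →+ M),
    (∀ x, ∑ i ∈ Finset.range l, s^[l ^ k / l * i] x = 0) →
    ∃ I : Ideal (𝓞 (CyclotomicField (l ^ k) ℚ)), I ≠ ⊥ ∧ Ideal.absNorm I = Nat.card M

/-- The situation of the transfer: `j : A → M`, `N : M → A` with `N j = l` and `j N` the sum over
the subgroup of order `l` of a cyclic group of order `n` which acts on `M` (generator `s`). -/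
def TRData (n l : ℕ) (A M : Type) [AddCommGroup A] [AddCommGroup M] : Prop :=
  ∃ (s : M →+ M) (j : A →+ M) (N : M →+ A), (∀ x, s^[n] x = x) ∧ (∀ a, N (j a) = l • a) ∧
    ∀ x, j (N x) = ∑ i ∈ Finset.range l, s^[n / l * i] x

/-- TRN (about 200 lines; USES KER, CRD).  `|M| |A| = l ^ e m`, `l ∤ m`.
`M' = {x | m x = 0}`, `M_l = {x | l ^ e x = 0}`, the same for `A`.  `x ↦ m x` maps `M` onto `M_l` with
kernel `M'`, so `|M| = |M'| |M_l|`, and `|M_l|` is a power of `l` (`IsPGroup`).  `N : M' → A'` is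
surjective (`l u ≡ 1` modulo `m`: `a = l u a = N (j (u a))`), the kernel `M'' = {x ∈ M' | N x = 0}` is
stable under `s`: `j (N (s x)) = s (j (N x)) = 0`, so `l N(s x) = N (j (N (s x))) = 0`, `N(s x) = 0`.
On `M''` the sum `∑ s^(n/l i)` is zero: KER.  So `|M| = |A'| |M''| |M_l|`, `|A| = |A'| |A_l|`. -/
def Stmt_TRN : Prop :=
  Stmt_KER → Stmt_CRD → ∀ (l k : ℕ), l.Prime → 0 < k → ∀ (A M : Type) [AddCommGroup A]
    [AddCommGroup M] [Finite A] [Finite M], TRData (l ^ k) l A M →
    ∃ (I : Ideal (𝓞 (CyclotomicField (l ^ k) ℚ))) (a b : ℕ), I ≠ ⊥ ∧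
      Nat.card M * l ^ a = Nat.card A * l ^ b * Ideal.absNorm I

/-- TRG (about 50 lines; USES TRN, GNS and what these use).  `l = absNorm (ζ - 1)`
(`IsCyclotomicExtension.Rat.absNorm_span_zeta_sub_one`). -/
def Stmt_TRG : Prop :=
  Stmt_TRN → Stmt_GNS → Stmt_KER → Stmt_CRD → Stmt_HIL → Stmt_GIN → Stmt_POS →
  ∀ (l k : ℕ), Ok l k → ∀ (A M : Type) [AddCommGroup A] [AddCommGroup M] [Finite A] [Finite M],
    TRData (l ^ k) l A M → IsNrm (l ^ k) ((Nat.card M : ℚ) / Nat.card A)

/-! ### Fields -/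

/-- The situation: `L/K` cyclic of degree `l ^ k` with generator `σ`, `F` between, `[L : F] = l`. -/
structure Tow (l k : ℕ) (K F L : Type) [Field K] [NumberField K] [Field F] [NumberField F] [Field L]
    [NumberField L] [Algebra K F] [Algebra K L] [Algebra F L] [IsScalarTower K F L]
    [IsGalois K L] [IsGalois F L] (σ : L ≃ₐ[K] L) : Prop where
  prime : l.Prime
  pos : 0 < k
  gen : ∀ g : L ≃ₐ[K] L, ∃ i : ℕ, g = σ ^ i
  card : Nat.card (L ≃ₐ[K] L) = l ^ k
  rank : Module.finrank F L = l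

/-- GEN (about 70 lines).  `Gal(L/F)`, as a subgroup of `Gal(L/K)` (`AlgEquiv.restrictScalars K`,
injective), has order `l`; a cyclic group of order `l ^ k` has exactly one subgroup of order `l`, the
powers of `σ ^ (l ^ k / l)` (`IsCyclic.card_pow_eq_one_le`-like: both sets are
`{g | g ^ l = 1}`).  `i ↦ σ ^ (l ^ k / l * i)` is injective on `i < l` (`orderOf σ = l ^ k`). -/
def Stmt_GEN : Prop :=
  ∀ (l k : ℕ) (K F L : Type) [Field K] [NumberField K] [Field F] [NumberField F] [Field L]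
    [NumberField L] [Algebra K F] [Algebra K L] [Algebra F L] [IsScalarTower K F L]
    [IsGalois K L] [IsGalois F L] (σ : L ≃ₐ[K] L), Tow l k K F L σ →
    σ ^ (l ^ k) = 1 ∧ ∀ (M : Type) [AddCommMonoid M] (f : (L ≃ₐ[K] L) → M),
      ∑ b : L ≃ₐ[F] L, f (b.restrictScalars K) = ∑ i ∈ Finset.range l, f (σ ^ (l ^ k / l * i))

/-- CLN (about 150 lines).  The norm of an ideal of `𝓞 L` is the product of its conjugates.  Shortest
proof: true for principal ideals (`Ideal.relNorm_singleton`, `Algebra.intNorm` is the norm,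
`Algebra.norm_eq_prod_automorphisms`), both sides are multiplicative, and `I ^ h` is principal,
`h = classNumber L` (`pow_card_eq_one`, `ClassGroup.mk0_eq_one_iff`); from `A ^ h = B ^ h` follows
`A = B` for ideals of a Dedekind domain (`pow_left_injective`-like; `Ideal.pow_dvd_pow_iff`,
`Associates`, or count the prime factors). -/
def Stmt_CLN : Prop :=
  ∀ (F L : Type) [Field F] [NumberField F] [Field L] [NumberField L] [Algebra F L] [IsGalois F L]
    (I : Ideal (𝓞 L)),
    (Ideal.relNorm (𝓞 F) I).map (algebraMap (𝓞 F) (𝓞 L)) =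
      ∏ b : L ≃ₐ[F] L, I.map (RingOfIntegers.mapRingEquiv (b : L ≃+* L))

/-- CLG (about 200 lines; USES GEN, CLN).  Class groups.  `j` = extension of ideals
(`ClassGroup.extendedHom`, `extendedHom_mk0`), `N` = norm of ideals, `s` = the action of `σ`
(`ClassGroup.mulEquiv` along `RingOfIntegers.mapRingEquiv`).  `N (I 𝓞_L) = I ^ l`
(`Ideal.relNorm_algebraMap`), `N(I) 𝓞_L = ∏_b b(I)` (CLN) `= ∏_i σ^(n/l i)(I)` (GEN, for the
commutative monoid of ideals, written additively).  A homomorphism `N` from the class group: on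
`nonZeroDivisors (Ideal _)` it is `mk0 ∘ relNorm`, it respects `ClassGroup.mk0_eq_mk0_iff`
(`relNorm_singleton`), and `ClassGroup.mk0_surjective`. -/
def Stmt_CLG : Prop :=
  Stmt_GEN → Stmt_CLN → ∀ (l k : ℕ) (K F L : Type) [Field K] [NumberField K] [Field F]
    [NumberField F] [Field L] [NumberField L] [Algebra K F] [Algebra K L] [Algebra F L]
    [IsScalarTower K F L] [IsGalois K L] [IsGalois F L] (σ : L ≃ₐ[K] L), Tow l k K F L σ →
    TRData (l ^ k) l (Additive (ClassGroup (𝓞 F))) (Additive (ClassGroup (𝓞 L)))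

/-- MUG (about 100 lines; USES GEN).  The groups of roots of unity: `j` = inclusion, `N` = norm
(`Algebra.norm_algebraMap`, `Algebra.norm_eq_prod_automorphisms`). -/
def Stmt_MUG : Prop :=
  Stmt_GEN → ∀ (l k : ℕ) (K F L : Type) [Field K] [NumberField K] [Field F] [NumberField F]
    [Field L] [NumberField L] [Algebra K F] [Algebra K L] [Algebra F L] [IsScalarTower K F L]
    [IsGalois K L] [IsGalois F L] (σ : L ≃ₐ[K] L), Tow l k K F L σ →
    TRData (l ^ k) l (Additive (Units.torsion F)) (Additive (Units.torsion L))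

/-! ### Units and places -/

section

variable (F : Type) [Field F] [NumberField F]

/-- The real vectors with coordinate sum zero. -/
def V : Submodule ℝ (InfinitePlace F → ℝ) where
  carrier := {x | ∑ w, x w = 0}
  add_mem' := fun {a b} ha hb => by
    simp only [Set.mem_ofPred_eq, Pi.add_apply, Finset.sum_add_distrib] at *
    rw [ha, hb, add_zero]
  zero_mem' := by simp
  smul_mem' := fun c x hx => by
    simp only [Set.mem_ofPred_eq, Pi.smul_apply, smul_eq_mul, ← Finset.mul_sum] at *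
    rw [hx, mul_zero]

/-- The vectors with integral coordinates. -/
def X : AddSubgroup (V F) where
  carrier := {x | ∀ w, ∃ k : ℤ, (x : InfinitePlace F → ℝ) w = k}
  add_mem' := fun {a b} ha hb w => by
    obtain ⟨k, hk⟩ := ha w
    obtain ⟨m, hm⟩ := hb w
    exact ⟨k + m, by simp [hk, hm]⟩
  zero_mem' := fun w => ⟨0, by simp⟩
  neg_mem' := fun {a} ha w => by
    obtain ⟨k, hk⟩ := ha w
    exact ⟨-k, by simp [hk]⟩

/-- `λ(u) = - ∑_w log ‖u‖_w · w`. -/
noncomputable def lam (u : (𝓞 F)ˣ) : V F :=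
  ⟨fun w => -((w.mult : ℝ) * Real.log (w (u : F))), by
    show ∑ w, _ = 0
    rw [Finset.sum_neg_distrib]
    have h1 := Units.sum_mult_mul_log u
    rw [h1, neg_zero]⟩

/-- The lattice `λ(U)`. -/
noncomputable def Lam : AddSubgroup (V F) where
  carrier := Set.range (lam F)
  add_mem' := by
    rintro _ _ ⟨u, rfl⟩ ⟨v, rfl⟩
    refine ⟨u * v, Subtype.ext (funext fun w => ?_)⟩
    show -((w.mult : ℝ) * Real.log (w (((u * v : (𝓞 F)ˣ) : 𝓞 F) : F))) =
      -((w.mult : ℝ) * Real.log (w ((u : 𝓞 F) : F))) + -((w.mult : ℝ) * Real.log (w ((v : 𝓞 F) : F)))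
    have hu : w ((u : 𝓞 F) : F) ≠ 0 := by
      rw [ne_eq, map_eq_zero]
      exact RingOfIntegers.coe_ne_zero_iff.2 u.ne_zero
    have hv : w ((v : 𝓞 F) : F) ≠ 0 := by
      rw [ne_eq, map_eq_zero]
      exact RingOfIntegers.coe_ne_zero_iff.2 v.ne_zero
    have h0 : (((u * v : (𝓞 F)ˣ) : 𝓞 F) : F) = ((u : 𝓞 F) : F) * ((v : 𝓞 F) : F) := by
      rw [Units.val_mul]
      exact map_mul (algebraMap (𝓞 F) F) _ _
    rw [h0, map_mul, Real.log_mul hu hv]
    ring
  zero_mem' := ⟨1, Subtype.ext (funext fun w => by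
    show -((w.mult : ℝ) * Real.log (w (((1 : (𝓞 F)ˣ) : 𝓞 F) : F))) = 0
    simp)⟩
  neg_mem' := by
    rintro _ ⟨u, rfl⟩
    refine ⟨u⁻¹, Subtype.ext (funext fun w => ?_)⟩
    show -((w.mult : ℝ) * Real.log (w (((u⁻¹ : (𝓞 F)ˣ) : 𝓞 F) : F))) =
      -(-((w.mult : ℝ) * Real.log (w ((u : 𝓞 F) : F))))
    have h1 : w (((u⁻¹ : (𝓞 F)ˣ) : 𝓞 F) : F) = (w ((u : 𝓞 F) : F))⁻¹ := by
      have h2 : (((u⁻¹ : (𝓞 F)ˣ) : 𝓞 F) : F) * ((u : 𝓞 F) : F) = 1 := by
        have h4 := map_mul (algebraMap (𝓞 F) F) ((u⁻¹ : (𝓞 F)ˣ) : 𝓞 F) (u : 𝓞 F)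
        rw [← Units.val_mul, inv_mul_cancel, Units.val_one, map_one] at h4
        exact h4.symm
      have h3 := congrArg w h2
      rw [map_mul, map_one] at h3
      exact eq_inv_of_mul_eq_one_left h3
    rw [h1, Real.log_inv]
    ring

end

section

variable (F L : Type) [Field F] [NumberField F] [Field L] [NumberField L] [Algebra F L]

/-- The place of `F` below a place of `L`. -/
noncomputable def res (w : InfinitePlace L) : InfinitePlace F := w.comap (algebraMap F L)

/-- `v ↦ ∑_{w ∣ v} [L_w : F_v] w`. -/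
noncomputable def jf : (InfinitePlace F → ℝ) →ₗ[ℝ] (InfinitePlace L → ℝ) where
  toFun x w := ((w.mult : ℝ) / ((res F L w).mult : ℝ)) * x (res F L w)
  map_add' x y := by ext w; simp [mul_add]
  map_smul' c x := by ext w; simp; ring

/-- `w ↦ w|F`. -/
noncomputable def nf : (InfinitePlace L → ℝ) →ₗ[ℝ] (InfinitePlace F → ℝ) where
  toFun y v := ∑ w, if res F L w = v then y w else 0
  map_add' x y := by
    ext v
    simp only [Pi.add_apply, ← Finset.sum_add_distrib]
    exact Finset.sum_congr rfl fun w _ => by split_ifs <;> simp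
  map_smul' c x := by
    ext v
    simp only [Pi.smul_apply, smul_eq_mul, RingHom.id_apply, Finset.mul_sum]
    exact Finset.sum_congr rfl fun w _ => by split_ifs <;> simp

end

/-- The action of a field automorphism: `w ↦ g w`. -/
noncomputable def actf {K L : Type} [Field K] [Field L] [NumberField L] [Algebra K L]
    (g : L ≃ₐ[K] L) : (InfinitePlace L → ℝ) →ₗ[ℝ] (InfinitePlace L → ℝ) where
  toFun y w := y (g⁻¹ • w)
  map_add' x y := by ext w; simp
  map_smul' c x := by ext w; simp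

/-- JN (about 150 lines).  For `L/F` Galois: `nf (jf x) = [L : F] x`, i.e.
`∑_{w ∣ v} w.mult = [L : F] v.mult`, and `jf (nf y) = ∑_b b y`: the places above `v` form one orbit
(`InfinitePlace.exists_smul_eq_of_comap_eq`), the stabiliser of `w` in `Gal(L/F)` has
`w.mult / v.mult` elements (`InfinitePlace.card_stabilizer`, `IsUnramified`), and the orbit has
`[L : F] / card stabiliser` elements. -/
def Stmt_JN : Prop :=
  ∀ (F L : Type) [Field F] [NumberField F] [Field L] [NumberField L] [Algebra F L] [IsGalois F L],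
    (∀ x : InfinitePlace F → ℝ, nf F L (jf F L x) = (Module.finrank F L : ℝ) • x) ∧
    ∀ y : InfinitePlace L → ℝ, jf F L (nf F L y) = ∑ b : L ≃ₐ[F] L, actf b y

/-- JV (about 100 lines; USES JN).  `jf` and `nf` preserve coordinate sum zero and integral
coordinates (`w.mult / v.mult` is `1` or `2`: a place below a real place is real). -/
def Stmt_JV : Prop :=
  Stmt_JN →
  ∀ (F L : Type) [Field F] [NumberField F] [Field L] [NumberField L] [Algebra F L] [IsGalois F L],
    (∀ x ∈ V F, jf F L x ∈ V L) ∧ (∀ y ∈ V L, nf F L y ∈ V F) ∧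
    (∀ x : InfinitePlace F → ℝ, (∀ v, ∃ k : ℤ, x v = k) → ∀ w, ∃ k : ℤ, jf F L x w = k) ∧
    ∀ y : InfinitePlace L → ℝ, (∀ w, ∃ k : ℤ, y w = k) → ∀ v, ∃ k : ℤ, nf F L y v = k

/-- LJ (about 120 lines).  `λ_L(u) = j λ_F(u)` for units `u` of `F`; `N λ_L(u) = λ_F(N u)` for units
`u` of `L`: `log ‖N u‖_v = ∑_{w ∣ v} log ‖u‖_w`.  For the second one, as `nf`, `jf` are known:
`jf` is injective (`nf ∘ jf = [L : F]`), `jf (nf (λ_L u)) = ∑_b b λ_L(u) = ∑_b λ_L(b u) =
λ_L(N u) = jf (λ_F (N u))` with `Algebra.norm_eq_prod_automorphisms` (USES JN, LG). -/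
def Stmt_LJ : Prop :=
  Stmt_JN →
  ∀ (F L : Type) [Field F] [NumberField F] [Field L] [NumberField L] [Algebra F L] [IsGalois F L],
    (∀ u : (𝓞 F)ˣ, ∃ u' : (𝓞 L)ˣ, ((u' : 𝓞 L) : L) = algebraMap F L ((u : 𝓞 F) : F) ∧
      (lam L u' : InfinitePlace L → ℝ) = jf F L (lam F u)) ∧
    ∀ u : (𝓞 L)ˣ, ∃ u' : (𝓞 F)ˣ, ((u' : 𝓞 F) : F) = Algebra.norm F ((u : 𝓞 L) : L) ∧
      nf F L (lam L u) = (lam F u' : InfinitePlace F → ℝ)

/-- LG (about 40 lines).  `g λ(u) = λ(g u)`, and `actf g` preserves `V L` and integrality. -/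
def Stmt_LG : Prop :=
  ∀ (K L : Type) [Field K] [NumberField K] [Field L] [NumberField L] [Algebra K L]
    (g : L ≃ₐ[K] L),
    (∀ u : (𝓞 L)ˣ, ∃ u' : (𝓞 L)ˣ, ((u' : 𝓞 L) : L) = g ((u : 𝓞 L) : L) ∧
      (lam L u' : InfinitePlace L → ℝ) = actf g (lam L u)) ∧
    (∀ y ∈ V L, actf g y ∈ V L) ∧
    ∀ (y : InfinitePlace L → ℝ), (∀ w, ∃ k : ℤ, y w = k) → ∀ w, ∃ k : ℤ, actf g y w = k

/-- QUO (about 150 lines; USES GEN, JN, JV, LG).  Two pairs of lattices `A_F ≤ B_F ≤ V F`,
`A_L ≤ B_L ≤ V L` which are stable under `jf`, `nf`, `actf σ`: TRData for the quotients.  `s` is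
induced by `actf σ` (`s^[i]` by `actf (σ ^ i)`). -/
def Stmt_QUO : Prop :=
  Stmt_GEN → Stmt_JN → Stmt_JV → Stmt_LG →
  ∀ (l k : ℕ) (K F L : Type) [Field K] [NumberField K] [Field F] [NumberField F]
    [Field L] [NumberField L] [Algebra K F] [Algebra K L] [Algebra F L] [IsScalarTower K F L]
    [IsGalois K L] [IsGalois F L] (σ : L ≃ₐ[K] L), Tow l k K F L σ →
    ∀ (A B : AddSubgroup (V F)) (A' B' : AddSubgroup (V L)),
      (∀ (x : V F) (y : V L), (y : InfinitePlace L → ℝ) = jf F L x →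
        (x ∈ A → y ∈ A') ∧ (x ∈ B → y ∈ B')) →
      (∀ (y : V L) (x : V F), (x : InfinitePlace F → ℝ) = nf F L y →
        (y ∈ A' → x ∈ A) ∧ (y ∈ B' → x ∈ B)) →
      (∀ (y z : V L), (z : InfinitePlace L → ℝ) = actf σ y →
        (y ∈ A' → z ∈ A') ∧ (y ∈ B' → z ∈ B')) →
      TRData (l ^ k) l (B ⧸ A.addSubgroupOf B) (B' ⧸ A'.addSubgroupOf B')

/-- REG1 (about 200 lines).  Drop the coordinate of the distinguished place `w₀`: an isomorphism
`V F ≃ logSpace F = ({w // w ≠ w₀} → ℝ)` which sends `X F` onto the integral vectors and `λ(u)` to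
`- logEmbedding F u`, so `Lam F` onto `unitLattice F`; `regulator F = covolume (unitLattice F)`.
`|det (m T)| = m ^ rank |det T|`, the image of the standard lattice under the transported `m T` has
covolume `|det (m T)|` (`ZLattice.covolume_map`-like, or `ZLattice.covolume_eq_det` for a basis) and
`ZLattice.covolume_div_covolume_eq_relIndex'`. -/
def Stmt_REG1 : Prop :=
  ∀ (F : Type) [Field F] [NumberField F] (T : V F →ₗ[ℝ] V F) (m : ℕ), 0 < m →
    Function.Injective T → (∀ x ∈ X F, (m : ℝ) • T x ∈ Lam F) →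
    (AddSubgroup.map ((m : ℝ) • T).toAddMonoidHom (X F)).relIndex (Lam F) ≠ 0 ∧
    |LinearMap.det T| * (m : ℝ) ^ (Units.rank F) =
      ((AddSubgroup.map ((m : ℝ) • T).toAddMonoidHom (X F)).relIndex (Lam F) : ℝ) *
        Units.regulator F

/-- XI (about 80 lines).  `X F` is free of rank `Units.rank F = card (InfinitePlace F) - 1`
(coordinates at the places `≠ w₀`), so `[X : m X] = m ^ rank`. -/
def Stmt_XI : Prop :=
  ∀ (F : Type) [Field F] [NumberField F] (m : ℕ), 0 < m →
    (AddSubgroup.map ((m : ℝ) • (LinearMap.id : V F →ₗ[ℝ] V F)).toAddMonoidHom (X F)).relIndex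
      (X F) = m ^ (Units.rank F)

/-- The maps `T = Θ`, `T_F` of the theorem. -/
structure TH (K F L : Type) [Field K] [NumberField K] [Field F] [NumberField F] [Field L]
    [NumberField L] [Algebra K L] [Algebra F L] (T : V L →ₗ[ℝ] V L) (T' : V F →ₗ[ℝ] V F) :
    Prop where
  inj : Function.Injective T
  inj' : Function.Injective T'
  comm : ∀ (g : L ≃ₐ[K] L) (x y : V L), (y : InfinitePlace L → ℝ) = actf g x →
    ((T y : V L) : InfinitePlace L → ℝ) = actf g (T x : V L)
  rat : ∀ x ∈ X L, ∃ m : ℕ, 0 < m ∧ (m : ℝ) • T x ∈ Lam L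
  compat : ∀ (x : V F) (y : V L), (y : InfinitePlace L → ℝ) = jf F L x →
    ((T y : V L) : InfinitePlace L → ℝ) = jf F L (T' x : V F)

/-- MUL (about 80 lines; USES JN, JV, LJ).  One integer `m` for both fields.  `X L` is finitely
generated.  For `x ∈ X F`: `y = jf x ∈ X L`, `m T y = λ_L(u)`, `nf` of it is `[L : F] m T' x` and
`λ_F(N u)`. -/
def Stmt_MUL : Prop :=
  Stmt_JN → Stmt_JV → Stmt_LJ →
  ∀ (K F L : Type) [Field K] [NumberField K] [Field F] [NumberField F] [Field L]
    [NumberField L] [Algebra K L] [Algebra F L] [IsGalois F L] (T : V L →ₗ[ℝ] V L)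
    (T' : V F →ₗ[ℝ] V F), TH K F L T T' →
    ∃ m : ℕ, 0 < m ∧ (∀ x ∈ X L, (m : ℝ) • T x ∈ Lam L) ∧ ∀ x ∈ X F, (m : ℝ) • T' x ∈ Lam F

/-- COMN (about 50 lines; USES JN, JV).  `T' (nf y) = nf (T y)`: apply the injective `jf`:
`jf (T' (nf y)) = T (jf (nf y)) = T (∑ b y) = ∑ b (T y) = jf (nf (T y))`. -/
def Stmt_COMN : Prop :=
  Stmt_JN → Stmt_JV →
  ∀ (K F L : Type) [Field K] [NumberField K] [Field F] [NumberField F] [Field L]
    [NumberField L] [Algebra K F] [Algebra K L] [Algebra F L] [IsScalarTower K F L]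
    [IsGalois F L] (T : V L →ₗ[ℝ] V L) (T' : V F →ₗ[ℝ] V F), TH K F L T T' →
    ∀ (y : V L) (x : V F), (x : InfinitePlace F → ℝ) = nf F L y →
      ((T' x : V F) : InfinitePlace F → ℝ) = nf F L (T y : V L)

/-- CORE (about 200 lines; USES all the above).  `q` is the product of the quotients of orders of the
four pairs `(Lam F / m T' X F, Lam L / m T X L)` (exponent `1`), `(X F / m X F, X L / m X L)`
(exponent `-1`), `(Cl F, Cl L)` (`-1`), `(μ F, μ L)` (`1`): QUO (with MUL, COMN, LJ, LG), CLG, MUG,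
each with TRG; REG1 and XI for `F` and `L`.  The theorem takes the used statements as hypotheses
(or import the finished modules).  `Nat.card (B ⧸ A.addSubgroupOf B) =
A.relIndex B` (`AddSubgroup.relIndex`, `AddSubgroup.index`), `classNumber = Fintype.card`,
`torsionOrder = Nat.card`. -/
def Stmt_CORE : Prop :=
  ∀ (l k : ℕ) (K F L : Type) [Field K] [NumberField K] [Field F] [NumberField F]
    [Field L] [NumberField L] [Algebra K F] [Algebra K L] [Algebra F L] [IsScalarTower K F L]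
    [IsGalois K L] [IsGalois F L] (σ : L ≃ₐ[K] L), Ok l k → Tow l k K F L σ →
    ∀ (T : V L →ₗ[ℝ] V L) (T' : V F →ₗ[ℝ] V F), TH K F L T T' →
    ∃ q : ℚ, IsNrm (l ^ k) q ∧
      |LinearMap.det T| / (classNumber L * Units.regulator L / Units.torsionOrder L) =
        (q : ℝ) * (|LinearMap.det T'| /
          (classNumber F * Units.regulator F / Units.torsionOrder F))

end ABS
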