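import Pool.Agent.ABS.StA
import Pool.Agent.ABS.CoreP

/-!
# Stark's conjecture in norm: statements of the algebraic modules, part A2

Project ABS (MP_46b841_nt): the link between the real space `V L` and the map `T` of part A and the
complex space `XC L T` and the map `Θ` of `StarkP`.

Module `X` proves `theorem ABS.X_thm : Stmt_X` in the file `Pool/Agent/ABS/X.lean`, which begins with
`import Pool.Agent.ABS.StA2`; helper lemmas in `namespace ABS.X`.
-/

open NumberField NumberField.InfinitePlace IsDedekindDomain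
open scoped Classical

namespace ABS

/-- DTC (about 120 lines).  Linear algebra: `W` is the complexification of the real space `V₀`
(`κ : V₀ → M` is `ℝ`-linear, every element of `W` is `κ x + i κ y` with unique `x`, `y`), so an
`ℝ`-basis of `V₀` gives a `ℂ`-basis of `W` and the matrix of `Θ` on `W` is the matrix of `T`
(`LinearMap.det_toLin`, `LinearMap.det_toMatrix`, `RingHom.map_det`). -/
def Stmt_DTC : Prop :=
  ∀ (M : Type) [AddCommGroup M] [Module ℂ M] (Θ : M →ₗ[ℂ] M) (W : Submodule ℂ M)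
    (V₀ : Type) [AddCommGroup V₀] [Module ℝ V₀] [Module.Finite ℝ V₀] (κ : V₀ → M)
    (T : V₀ →ₗ[ℝ] V₀), (∀ x y, κ (x + y) = κ x + κ y) →
    (∀ (c : ℝ) (x : V₀), κ (c • x) = (c : ℂ) • κ x) → (∀ x, κ x ∈ W) →
    (∀ w ∈ W, ∃ x y, w = κ x + Complex.I • κ y) →
    (∀ x y, κ x + Complex.I • κ y = 0 → x = 0 ∧ y = 0) → (∀ x, Θ (κ x) = κ (T x)) →
    StarkP.detOn Θ W = ((LinearMap.det T : ℝ) : ℂ)

/-- The formal linear combination `∑_w x_w · w` of the infinite places. -/
noncomputable def iot (L : Type) [Field L] [NumberField L] (x : InfinitePlace L → ℝ) :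
    (L → ℝ) →₀ ℂ :=
  ∑ w, Finsupp.single (StarkP.infAbs L w) ((x w : ℝ) : ℂ)

/-- IOT (about 150 lines).  `infAbs` is injective (the value at `2` is `2 ^ w.mult`, and then
`w = w'`), so `iot L x (infAbs L w) = x w`; linearity; the action
(`infAbs L w ∘ g.symm = infAbs L (g • w)`, `InfinitePlace.smul_apply`); the elements of `XC L ∅` are
`iot x + i iot y` with `x`, `y ∈ V L` (real and imaginary parts of the coefficients), the elements of
`XQ L ∅` are the `iot x`, `x ∈ V L` with rational coordinates. -/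
def Stmt_IOT : Prop :=
  ∀ (L : Type) [Field L] [NumberField L],
    (∀ x y : InfinitePlace L → ℝ, iot L (x + y) = iot L x + iot L y) ∧
    (∀ (c : ℝ) (x : InfinitePlace L → ℝ), iot L (c • x) = (c : ℂ) • iot L x) ∧
    (∀ x y : InfinitePlace L → ℝ, iot L x + Complex.I • iot L y = 0 → x = 0 ∧ y = 0) ∧
    (∀ x ∈ V L, iot L x ∈ StarkP.XC L ∅) ∧
    (∀ z ∈ StarkP.XC L ∅, ∃ x ∈ V L, ∃ y ∈ V L, z = iot L x + Complex.I • iot L y) ∧
    (∀ z : (L → ℝ) →₀ ℂ, z ∈ StarkP.XQ L ∅ ↔
      ∃ x ∈ V L, (∀ w, ∃ q : ℚ, x w = q) ∧ z = iot L x) ∧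
    (∀ (K : Type) [Field K] [Algebra K L] (g : L ≃ₐ[K] L) (x : InfinitePlace L → ℝ),
      StarkP.act (g : L ≃+* L) (iot L x) = iot L (actf g x))

/-- LMU (about 100 lines; USES IOT).  `LamU L ∅` is the set of the `iot x` with `n x = λ(u)` for an
integer `n ≠ 0` and a unit `u` (`Set.unit` of the empty set is the group of units of `𝓞 L`:
`Set.unit`, `mem_unit..`; an element of `L` with valuation `1` at all finite primes is a unit). -/
def Stmt_LMU : Prop :=
  Stmt_IOT → ∀ (L : Type) [Field L] [NumberField L] (z : (L → ℝ) →₀ ℂ),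
    z ∈ StarkP.LamU L ∅ ↔ ∃ (n : ℕ) (u : (𝓞 L)ˣ) (x : V L), n ≠ 0 ∧ z = iot L x ∧
      (n : ℝ) • x = lam L u

/-- SPN (about 100 lines).  Dirichlet's unit theorem: a subspace of `V L` which contains all `λ(u)` is
`V L` (`Units.dirichletUnitTheorem.unitLattice_span_eq_top`, `logEmbedding`: drop the coordinate of
the distinguished place); and a subspace which contains `X L` is `V L` (the differences
`e_w - e_(w₀)` span). -/
def Stmt_SPN : Prop :=
  ∀ (L : Type) [Field L] [NumberField L] (W : Submodule ℝ (V L)),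
    ((∀ u, lam L u ∈ W) → W = ⊤) ∧ ((∀ x ∈ X L, x ∈ W) → W = ⊤)

/-- TRE (about 150 lines; USES IOT, LMU, SPN).  The real map `T`: the set of the `x ∈ V L` with
`Θ (iot x) ∈ iot (V L)` is a subspace which contains `X L` (`XQ`, `LamU`), so it is `V L`.
`T` is surjective: its image contains all `λ(u)` (`BijOn`), so it is injective. -/
def Stmt_TRE : Prop :=
  Stmt_IOT → Stmt_LMU → Stmt_SPN →
  ∀ (K L : Type) [Field K] [Field L] [NumberField L] [Algebra K L]
    (Θ : ((L → ℝ) →₀ ℂ) →ₗ[ℂ] ((L → ℝ) →₀ ℂ)), StarkP.IsTheta K ∅ Θ →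
    ∃ T : V L →ₗ[ℝ] V L, (∀ x : V L, Θ (iot L x) = iot L (T x : V L)) ∧ Function.Injective T ∧
      (∀ (g : L ≃ₐ[K] L) (x y : V L), (y : InfinitePlace L → ℝ) = actf g x →
        ((T y : V L) : InfinitePlace L → ℝ) = actf g (T x : V L)) ∧
      ∀ x ∈ X L, ∃ m : ℕ, 0 < m ∧ (m : ℝ) • T x ∈ Lam L

/-- TRF (about 120 lines; USES JN, JV, LG).  The map on `F`: `T' = (1 / [L : F]) nf ∘ T ∘ jf`.
`jf (V F)` is the space of the vectors of `V L` fixed by `Gal(L/F)` (`jf (nf y) = ∑_b b y`, and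
`b (jf x) = jf x`), `T` maps it into itself; `T'` is injective as `jf`, `T` are. -/
def Stmt_TRF : Prop :=
  Stmt_JN → Stmt_JV → Stmt_LG →
  ∀ (K F L : Type) [Field K] [NumberField K] [Field F] [NumberField F] [Field L] [NumberField L]
    [Algebra K F] [Algebra K L] [Algebra F L] [IsScalarTower K F L] [IsGalois F L]
    (T : V L →ₗ[ℝ] V L), Function.Injective T →
    (∀ (g : L ≃ₐ[K] L) (x y : V L), (y : InfinitePlace L → ℝ) = actf g x →
        ((T y : V L) : InfinitePlace L → ℝ) = actf g (T x : V L)) →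
    (∀ x ∈ X L, ∃ m : ℕ, 0 < m ∧ (m : ℝ) • T x ∈ Lam L) →
    (∀ y : V L, (∀ b : L ≃ₐ[F] L, actf b (y : InfinitePlace L → ℝ) = y) ↔
      ∃ x : V F, jf F L x = y) ∧
    (∀ x x' : V F, jf F L x = jf F L x' → x = x') ∧
    ∃ T' : V F →ₗ[ℝ] V F, TH K F L T T'

/-- COX (about 200 lines; USES all the above), the interface with part B.  `F = fixedField B`
(`IntermediateField.fixedField`, `finrank_fixedField_eq_card`; `Gal(L/F) = B`:
`IntermediateField.fixingSubgroup_fixedField`), `Tow` for a generator `σ`; `aboveSet K L ∅ = ∅`; TRE,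
TRF; DTC for `V₀ = V L`, `κ = iot`, and for `V₀ = V F`, `κ = iot ∘ jf`; CORE; `q = N(α)`
(`q > 0` or only `|q|`: both sides are absolute values).  The theorem takes the used statements as
hypotheses: IOT, LMU, SPN, TRE, JN, JV, LG, TRF, DTC, CORE. -/
def Stmt_COX : Prop :=
  Stmt_IOT → Stmt_LMU → Stmt_SPN → Stmt_TRE → Stmt_JN → Stmt_JV → Stmt_LG → Stmt_TRF → Stmt_DTC →
    Stmt_CORE → StarkP.ABS.Stmt_COREP

end ABS
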