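import Pool.Agent.ABS.StA

/-!
# Stark's conjecture in norm: the orders `2 ^ k`, `k ≥ 3`

Project ABS (MP_46b841_nt), second stage.  The Galois group of `ℚ(ζ)/ℚ`, `ζ` of order `2 ^ k`, is not
cyclic; the genus lemma is proved over `ℚ(i)`: the group `G₁` of the automorphisms which fix `i` is
cyclic, generated by `ζ ↦ ζ ^ 5`.

Module `X` proves `theorem ABS.X_thm : Stmt_X` in the file `Pool/Agent/ABS/X.lean`, which begins with
`import Pool.Agent.ABS.StA3`; helper lemmas in `namespace ABS.X`.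
-/

open NumberField

namespace ABS

/-- H90 (about 80 lines), Hilbert 90 in elementary form.  The powers `g ^ i`, `i < m`, are different
(`m = orderOf g`), so they are linearly independent (`linearIndependent_monoidHom`, Dedekind): there
is `c` with `γ = ∑_{i < m} (∏_{j < i} g^j β) g^i c ≠ 0`, and `β g(γ) = γ` (the last term is
`(∏_{j < m} g^j β) c = c`).  (Or use `groupCohomology.exists_div_of_norm_eq_one` over the fixed
field.) -/
def Stmt_H90 : Prop :=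
  ∀ (E : Type) [Field E] [NumberField E] (g : E ≃ₐ[ℚ] E) (β : E),
    ∏ j ∈ Finset.range (orderOf g), (g ^ j) β = 1 → ∃ γ : E, γ ≠ 0 ∧ β * g γ = γ

/-- `h` fixes the square roots of `-1`. -/
def Fix4 {k : ℕ} (h : CyclotomicField (2 ^ k) ℚ ≃ₐ[ℚ] CyclotomicField (2 ^ k) ℚ) : Prop :=
  ∀ x : CyclotomicField (2 ^ k) ℚ, x ^ 2 = -1 → h x = x

/-- The ideal `J` is stable under the automorphisms which fix `i`. -/
def Sta4 {k : ℕ} (J : Ideal (𝓞 (CyclotomicField (2 ^ k) ℚ))) : Prop :=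
  ∀ (g : CyclotomicField (2 ^ k) ℚ ≃ₐ[ℚ] CyclotomicField (2 ^ k) ℚ), Fix4 g →
    ∀ (x y : 𝓞 (CyclotomicField (2 ^ k) ℚ)), x ∈ J →
      (y : CyclotomicField (2 ^ k) ℚ) = g (x : CyclotomicField (2 ^ k) ℚ) → y ∈ J

/-- AU4 (about 200 lines).  `E = ℚ(ζ)`, `ζ` of order `2 ^ k`, `i = ζ^(2^(k-2))`, `g ζ = ζ ^ 5`
(`IsCyclotomicExtension.autEquivPow`).  `h ζ = ζ ^ a` fixes `i` iff `a ≡ 1` modulo `4`, and then `a`
is a power of `5` modulo `2 ^ k` (`5` has order `2^(k-2)`, count; or Mathlib on `ZMod (2^k)`), so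
`h ∈ ⟨g⟩` and `orderOf g = m = 2^(k-2)`.  Let `u` be a unit with `g u = u`.  `c` = complex
conjugation (`ζ ↦ ζ⁻¹`): `u c(u)` is fixed by `g` and `c`, so by all automorphisms, so it is a
rational integer and a unit, and positive: `u c(u) = 1`.  In every embedding `φ`,
`|φ u|² = φ(u c(u)) = 1`, so `u` is a root of unity (`NumberField.Embeddings.pow_eq_one_of_norm_eq_one`),
`u = ζ^b` (`± ζ^b`, `-1 = ζ^(2^(k-1))`), and `g u = u` gives `2^(k-2) ∣ b`: `u` is a power of `i`.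
`∏_{j < m} g^j ζ = ζ^(∑ 5^j) = ζ^((5^m - 1)/4)`, where `(5^m - 1)/4` is `2^(k-2)` times an odd number
(induction on `k`), so it is `i` or `i⁻¹` and its powers are all powers of `i`: `v = ζ^e`. -/
def Stmt_AU4 : Prop :=
  ∀ (k : ℕ), 3 ≤ k → ∃ g : CyclotomicField (2 ^ k) ℚ ≃ₐ[ℚ] CyclotomicField (2 ^ k) ℚ,
    Fix4 g ∧ (∀ h : CyclotomicField (2 ^ k) ℚ ≃ₐ[ℚ] CyclotomicField (2 ^ k) ℚ, Fix4 h →
      h ∈ Subgroup.zpowers g) ∧
    ∀ u : (𝓞 (CyclotomicField (2 ^ k) ℚ))ˣ,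
      g ((u : 𝓞 (CyclotomicField (2 ^ k) ℚ)) : CyclotomicField (2 ^ k) ℚ) =
        ((u : 𝓞 (CyclotomicField (2 ^ k) ℚ)) : CyclotomicField (2 ^ k) ℚ) →
      ∃ v : (𝓞 (CyclotomicField (2 ^ k) ℚ))ˣ,
        (∏ j ∈ Finset.range (orderOf g),
          (g ^ j) ((v : 𝓞 (CyclotomicField (2 ^ k) ℚ)) : CyclotomicField (2 ^ k) ℚ)) *
            ((u : 𝓞 (CyclotomicField (2 ^ k) ℚ)) : CyclotomicField (2 ^ k) ℚ) = 1

/-- GIN4 (about 250 lines; model: `ABS/GIN.lean`, which proves the same for the whole Galois group).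
An ideal `J ≠ 0` stable under `G₁` is principal.  Strong induction on the norm; it is enough to find
`c ≠ 0`, not a unit, fixed by `G₁` (or such that `(g c) = (c)` for `g ∈ G₁`), with `(c) ∣ J`.  Let `P`
be a prime ideal with `P ∣ J`, `P ∩ ℤ = (p)`.  If `p = 2`: `P = (ζ - 1)`, `c = ζ - 1`.
If `p ≡ 1` modulo `4`: `p = a² + b²` (`Nat.Prime.sq_add_sq`), `p = (a + b i)(a - b i)`, and one
factor, `c = a ± b i`, is in `P`; it is fixed by `G₁`.  `(c)` divides `(p)`, the product of the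
different primes above `p`, so `(c)` is the product of the different primes `Q` which contain `c`.
Such a `Q` is `h P` with an automorphism `h` (transitivity, as in GIN); if `h` does not fix `i` then
`h i = -i`, and `Q` contains `h c = a ∓ b i` and `c`, so `2 a`, `p`, and `gcd(2a, p) = 1`:
contradiction.  So `h ∈ G₁`, `J ⊆ Q` as `J` is stable; hence `(c) ∣ J`.
If `p ≡ 3` modulo `4`: `c = p`.  Let `Q = h P` be a prime above `p`.  If `h` does not fix `i`, take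
`f : ζ ↦ ζ^p`: `f P = P` (`f x ≡ x^p` modulo `p` for `x ∈ ℤ[ζ]`, so `f P ⊆ P`), `f i = i^p = -i`, and
`Q = h f P`, where `h f` fixes `i`.  So `J ⊆ Q` for all `Q` above `p`, `(p) ∣ J`. -/
def Stmt_GIN4 : Prop :=
  ∀ (k : ℕ), 2 ≤ k → ∀ J : Ideal (𝓞 (CyclotomicField (2 ^ k) ℚ)), J ≠ ⊥ → Sta4 J →
    ∃ a, J = Ideal.span {a}

/-- HIL4 (about 180 lines; USES GIN4, H90; model: `ABS/HIL.lean`).  `m = orderOf g`.  From
`(a) g(J) = (b) J` follows, applying `g` repeatedly and `g^m = 1`,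
`(∏_j g^j a) J = (∏_j g^j b) J`, so `u = ∏_j g^j (b/a)` is a unit, and `g u = u`.  Take `v` with
`(∏_j g^j v) u = 1` (hypothesis) and replace `b` by `v b` (the same ideal): now
`∏_j g^j (b/a) = 1`.  H90: `(b/a) g(γ) = γ`; then as in HIL: for `d = m' γ` integral the ideal `(d) J`
is stable under `g`, so under all automorphisms which fix `i`, so it is principal by GIN4. -/
def Stmt_HIL4 : Prop :=
  Stmt_GIN4 → Stmt_H90 → ∀ (k : ℕ), 3 ≤ k →
    ∀ (g : CyclotomicField (2 ^ k) ℚ ≃ₐ[ℚ] CyclotomicField (2 ^ k) ℚ),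
      (∀ h : CyclotomicField (2 ^ k) ℚ ≃ₐ[ℚ] CyclotomicField (2 ^ k) ℚ, Fix4 h →
        h ∈ Subgroup.zpowers g) →
      (∀ u : (𝓞 (CyclotomicField (2 ^ k) ℚ))ˣ,
        g ((u : 𝓞 (CyclotomicField (2 ^ k) ℚ)) : CyclotomicField (2 ^ k) ℚ) =
          ((u : 𝓞 (CyclotomicField (2 ^ k) ℚ)) : CyclotomicField (2 ^ k) ℚ) →
        ∃ v : (𝓞 (CyclotomicField (2 ^ k) ℚ))ˣ,
          (∏ j ∈ Finset.range (orderOf g),
            (g ^ j) ((v : 𝓞 (CyclotomicField (2 ^ k) ℚ)) : CyclotomicField (2 ^ k) ℚ)) *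
              ((u : 𝓞 (CyclotomicField (2 ^ k) ℚ)) : CyclotomicField (2 ^ k) ℚ) = 1) →
    ∀ (J J' : Ideal (𝓞 (CyclotomicField (2 ^ k) ℚ))) (a b : 𝓞 (CyclotomicField (2 ^ k) ℚ)),
      J ≠ ⊥ → a ≠ 0 → b ≠ 0 →
      (∀ x y : 𝓞 (CyclotomicField (2 ^ k) ℚ),
        (y : CyclotomicField (2 ^ k) ℚ) = g (x : CyclotomicField (2 ^ k) ℚ) →
        (x ∈ J ↔ y ∈ J')) →
      Ideal.span {a} * J' = Ideal.span {b} * J → ∃ c, J = Ideal.span {c}

/-- GNS4 (about 100 lines; USES HIL4, GIN4, H90, AU4, POS; model: `ABS/GNS.lean`, nearly a copy), the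
genus lemma for `ℚ(ζ)`, `ζ` of order `2 ^ k`. -/
def Stmt_GNS4 : Prop :=
  Stmt_HIL4 → Stmt_GIN4 → Stmt_H90 → Stmt_AU4 → Stmt_POS → ∀ (k : ℕ), 3 ≤ k →
    ∀ I : Ideal (𝓞 (CyclotomicField (2 ^ k) ℚ)), I ≠ ⊥ → IsNrm (2 ^ k) (Ideal.absNorm I)

end ABS
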