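import Pool.Agent.ABS.StD1

/-!
# Stark's conjecture in norm, part D: the genus lemma for `E = ℚ(ζ_n)^τ`

Project ABS (MP_46b841_nt), Mathlib, `StA` and `StD1` only.  `n = 2 ^ k ≥ 8`, `C = ℚ(ζ_n)`, `τ ζ = ζ ^ t`,
`t = -1` or `t = -1 + n / 2`, `E` the fixed field of `τ` (`FD k t E τ`, `ABS/StD1.lean`).  `E/ℚ` is cyclic and
totally ramified at `2` and unramified elsewhere, so every norm of an ideal of `E` is the norm of an element
(up to the sign).  The models are `ABS/GIN.lean`, `ABS/HIL.lean`, `ABS/GNS.lean` (the same for `C`, `n` an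
odd prime power).

Module `X` proves `theorem ABS.X_thm : Stmt_X` in the file `Pool/Agent/ABS/X.lean`, which begins with
`import Pool.Agent.ABS.StD2`; helper lemmas in `namespace ABS.X`.
-/

open NumberField NumberField.InfinitePlace
open scoped Classical

namespace ABS

/-- The hypotheses of the genus lemma. -/
structure GE (E : Type) [Field E] [NumberField E] (g : E ≃ₐ[ℚ] E) : Prop where
  gal : IsGalois ℚ E
  gen : ∀ h : E ≃ₐ[ℚ] E, h ∈ Subgroup.zpowers g
  prin : ∀ J : Ideal (𝓞 E), J ≠ ⊥ → Sta J → ∃ a, J = Ideal.span {a}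
  sgn : (∃ u : (𝓞 E)ˣ, Algebra.norm ℚ ((u : 𝓞 E) : E) = -1) ∨
    ∀ α : E, α ≠ 0 → 0 < Algebra.norm ℚ α

/-- DFG (about 150 lines).  PROOF. The Galois group of `C/ℚ` is commutative, so `E/ℚ` is Galois (let `E'` be
the range of `algebraMap E C` as an intermediate field of `C/ℚ`; its fixing subgroup is normal,
`IsGalois.of_fixedField_normal_subgroup`, `IntermediateField.fixedField_fixingSubgroup`; or: `E/ℚ` is normal as
every `ℚ`-automorphism `h` of `C` commutes with `τ` and `E` is the fixed field of `τ`, so `h E = E`).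
`E` = fixed field of `{1, τ}`, as `[C : E] = 2` and `τ ≠ 1`.  Every automorphism of `E` is the restriction of some
`ζ ↦ ζ ^ a`, `a` odd (`AlgEquiv.restrictNormalHom_surjective`, `IsCyclotomicExtension.autEquivPow`).
`a ≡ 5^i` or `- 5^i` modulo `2^k` (`ABS/AU4.lean` contains: `a ≡ 1` modulo `4` implies that `a` is a power of `5`).
Let `g` be the restriction of `ζ ↦ ζ ^ 5`.  If `t = -1` then `ζ ↦ ζ⁻¹` is `τ`, trivial on `E`; if
`t = -1 + n / 2` then `- t = 1 + n / 2 (mod n)` is `≡ 1` modulo `4`, so a power of `5`, and `-1 = (- t) t⁻¹`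
acts on `E` as `- t`, a power of `g`. -/
def Stmt_DFG : Prop :=
  ∀ (k t : ℕ) (E : Type) [Field E] [NumberField E] [Algebra E (CyclotomicField (2 ^ k) ℚ)]
    (τ : CyclotomicField (2 ^ k) ℚ ≃ₐ[E] CyclotomicField (2 ^ k) ℚ), FD k t E τ →
    IsGalois ℚ E ∧ ∃ g : E ≃ₐ[ℚ] E, ∀ h : E ≃ₐ[ℚ] E, h ∈ Subgroup.zpowers g

/-- DPR (about 120 lines), the prime above `2`.  PROOF. `π` = the norm of `ζ - 1` from `C` to `E`
(`RingOfIntegers.norm E`; `C/E` is Galois), so its norm to `ℚ` is that of `ζ - 1`, which is `2`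
(`Algebra.norm_norm`; `IsCyclotomicExtension.Rat.absNorm_span_zeta_sub_one`, see `TRG.exists_ideal`), and
`absNorm (π) = 2`, `(π)` is a prime ideal (`Ideal.isPrime_of_irreducible_absNorm`), so it is maximal.  `P` above
`2`: let `Q` be a prime ideal of `𝓞 C` above `P`; `Q` is above `2`, `Q = (ζ - 1)`
(`IsCyclotomicExtension.Rat.eq_span_zeta_sub_one_of_liesOver`), and `π`, in `𝓞 C` a multiple of `ζ - 1`
(`Algebra.norm_eq_prod_automorphisms`), is in `Q ∩ 𝓞 E = P`; so `(π) = P`. -/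
def Stmt_DPR : Prop :=
  ∀ (k t : ℕ) (E : Type) [Field E] [NumberField E] [Algebra E (CyclotomicField (2 ^ k) ℚ)]
    (τ : CyclotomicField (2 ^ k) ℚ ≃ₐ[E] CyclotomicField (2 ^ k) ℚ), FD k t E τ →
    ∃ π : 𝓞 E, Ideal.absNorm (Ideal.span {π}) = 2 ∧
      ∀ P : Ideal (𝓞 E), P.IsPrime → P.LiesOver (Ideal.span {(2 : ℤ)}) → P = Ideal.span {π}

/-- DUR (about 80 lines).  Odd primes are unramified in `E`.  PROOF. As in `GIN.lean`
(`Multiset.nodup_iff_count_le_one`, `ramificationIdx_eq_normalizedFactors_count`,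
`IsCyclotomicExtension.Rat.ramificationIdx_eq_of_not_dvd` for `C`), with the multiplicativity of the
ramification index in `ℤ ⊆ 𝓞 E ⊆ 𝓞 C` (`Ideal.ramificationIdx_algebra_tower` or its new name).  Or: if `P²`
divides `(p)` in `𝓞 E` then `Q²` divides `(p)` in `𝓞 C` for a prime `Q` above `P`. -/
def Stmt_DUR : Prop :=
  ∀ (k t : ℕ) (E : Type) [Field E] [NumberField E] [Algebra E (CyclotomicField (2 ^ k) ℚ)]
    (τ : CyclotomicField (2 ^ k) ℚ ≃ₐ[E] CyclotomicField (2 ^ k) ℚ), FD k t E τ →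
    ∀ p : ℕ, p.Prime → p ≠ 2 →
      (UniqueFactorizationMonoid.normalizedFactors (Ideal.span {(p : 𝓞 E)})).Nodup

/-- DGI (about 120 lines; USES DFG, DPR, DUR; a copy of `GIN.lean`, whose lemmas `act_mem`, `step`,
`exover` can be imported). -/
def Stmt_DGI : Prop :=
  Stmt_DFG → Stmt_DPR → Stmt_DUR →
  ∀ (k t : ℕ) (E : Type) [Field E] [NumberField E] [Algebra E (CyclotomicField (2 ^ k) ℚ)]
    (τ : CyclotomicField (2 ^ k) ℚ ≃ₐ[E] CyclotomicField (2 ^ k) ℚ), FD k t E τ →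
    ∀ J : Ideal (𝓞 E), J ≠ ⊥ → Sta J → ∃ a, J = Ideal.span {a}

/-- DUN (about 150 lines), a unit of norm `-1` in `ℚ(ζ)⁺`.  PROOF. `η = ζ + ζ⁻¹ ∈ E`.  `P_3 = X² - 2`,
`P_(j+1) = P_j(X² - 2)`: monic of degree `2 ^ (j - 2)`, `P_k(η) = 0` (`x² - 2 = ζ² + ζ⁻²` for `x = ζ + ζ⁻¹`, `ζ` of
order `2 ^ j`, and `P_3(ζ + ζ⁻¹) = 0` for `ζ` of order `8`), `≡ X^(2^(j-2))` modulo `2`, and
`P_j(0)` is `-2` or `2` (`P_4(0) = P_3(-2) = 2`, `P_(j+1)(0) = P_j(-2)`, `P_j(± 2) = 2`); so `P_k` is irreducible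
(Eisenstein, `Polynomial.Monic.isIntegral..`, `Polynomial.IsEisensteinAt.irreducible`,
`Polynomial.Monic.irreducible_iff_irreducible_map_fraction_map`) and it is the minimal polynomial of `η`, of
degree `2 ^ (k - 2) = [E : ℚ]`.  `P_k(-1) = P_3(-1) = -1` (`P_(j+1)(-1) = P_j(-1)`).  The norm of `1 + η` is
`P_k(-1)` (the degree is even; `Algebra.norm_eq_prod_roots`, or `PowerBasis.norm_gen_eq_coeff_zero_minpoly` for
`1 + η` with minimal polynomial `P_k(X - 1)`, or `Algebra.PowerBasis.norm..`), and an integral element of norm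
`-1` is a unit (`RingOfIntegers.isUnit_norm`, `NumberField.isUnit_iff_norm`). -/
def Stmt_DUN : Prop :=
  ∀ (k t : ℕ) (E : Type) [Field E] [NumberField E] [Algebra E (CyclotomicField (2 ^ k) ℚ)]
    (τ : CyclotomicField (2 ^ k) ℚ ≃ₐ[E] CyclotomicField (2 ^ k) ℚ), FD k t E τ →
    (t : ZMod (2 ^ k)) = -1 → ∃ u : (𝓞 E)ˣ, Algebra.norm ℚ ((u : 𝓞 E) : E) = -1

/-- DPO (about 80 lines).  PROOF. `t = -1 + n / 2`: `ζ - ζ⁻¹` is fixed by `τ` (`ζ ^ (n / 2) = -1`), so it is in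
`E` (`[C : E] = 2`, `C/E` is Galois with group `{1, τ}`), and in every embedding of `E` (it extends to `C`) it is
`z - conj z ≠ 0` with `|z| = 1`, `z ^ n = 1` primitive: not real.  So `E` is totally complex, `POS.norm_pos`
(`ABS/POS.lean`). -/
def Stmt_DPO : Prop :=
  ∀ (k t : ℕ) (E : Type) [Field E] [NumberField E] [Algebra E (CyclotomicField (2 ^ k) ℚ)]
    (τ : CyclotomicField (2 ^ k) ℚ ≃ₐ[E] CyclotomicField (2 ^ k) ℚ), FD k t E τ →
    (t : ZMod (2 ^ k)) = -1 + 2 ^ (k - 1) → ∀ α : E, α ≠ 0 → 0 < Algebra.norm ℚ α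

/-- DHI (about 150 lines; a copy of `HIL.lean`, whose lemmas can be imported).  The only change: from
`|N(a)| = |N(b)|` follows `N(b) = N(a)` or `N(b) = - N(a)`; in the second case replace `b` by `u b`, `u` the unit of
norm `-1` (`(u b) = (b)`); if all norms are positive the second case does not occur. -/
def Stmt_DHI : Prop :=
  ∀ (E : Type) [Field E] [NumberField E] (g : E ≃ₐ[ℚ] E), GE E g →
    ∀ (J J' : Ideal (𝓞 E)) (a b : 𝓞 E), J ≠ ⊥ → a ≠ 0 → b ≠ 0 →
      (∀ x y : 𝓞 E, (y : E) = g (x : E) → (x ∈ J ↔ y ∈ J')) →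
      Ideal.span {a} * J' = Ideal.span {b} * J → ∃ c, J = Ideal.span {c}

/-- DGE (about 130 lines; USES DHI; a copy of `GNSC_thm` in `GNS.lean`, whose lemmas `im`, `ph`, `ph_mk0`,
`absNorm_im` can be imported).  `absNorm I = |N(x / y)|`, and if `N(x / y) < 0` multiply by the unit of norm
`-1`.  Then quotients of ideal norms. -/
def Stmt_DGE : Prop :=
  Stmt_DHI → ∀ (E : Type) [Field E] [NumberField E] (g : E ≃ₐ[ℚ] E), GE E g →
    ∀ q : ℚ, IdF E q → NoF E q

/-- The conclusion for `E`. -/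
def ConclE : Prop :=
  ∀ (k t : ℕ) (E : Type) [Field E] [NumberField E] [Algebra E (CyclotomicField (2 ^ k) ℚ)]
    (τ : CyclotomicField (2 ^ k) ℚ ≃ₐ[E] CyclotomicField (2 ^ k) ℚ), FD k t E τ →
    ∀ a q : ℚ, SqF E q → a ^ 2 = q → ((t : ZMod (2 ^ k)) ≠ -1 → 0 < a) → NoF E a

/-- DNE (about 80 lines; the assembly).  PROOF. `GE E g` by DFG, DGI, DUN, DPO.  `a² = r² 2^e`, `r > 0` a
quotient of ideal norms: `e` is even (the `2`-adic valuation of a rational square is even), `e = 2 f`, so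
`a = r 2^f` or `a = - r 2^f`; `2` is the norm of an ideal (DPR), so `r 2^f` is a quotient of ideal norms,
the norm of an element by DGE.  If `a < 0` then `t = -1` and the unit of norm `-1` helps. -/
def Stmt_DNE : Prop :=
  Stmt_DFG → Stmt_DPR → Stmt_DUR → Stmt_DGI → Stmt_DUN → Stmt_DPO → Stmt_DHI → Stmt_DGE → ConclE

end ABS
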