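import Pool.Agent.ABS.StD2
import Pool.Agent.ABS.StA2
import Pool.Agent.ABS.StZG
import Pool.Agent.ABS.StU

/-!
# Project ABS (MP_46b841_nt), part D: dihedral and semidihedral leaves, interface and first half

THEOREM (D).  `L/K` Galois, `Leaf A ψ g k 1 t` in `G = Gal(L/K)` (`ABS/StZG.lean`), `k ≥ 3`, so `ψ` has order
`n = 2 ^ k` and `χ = Ind_A ψ` has the field of values `E_t = ℚ(ζ_n)^τ`, `τ ζ = ζ ^ t` (if it is irreducible);
`θ = (1 / 2) ∑_{j ∈ Ex n} Ind_A ψ^j` (the trace of `χ`).  Then `A_S(θ, φ)` is the norm of an element of `E_t^*`.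

PLAN.  `PD2`: `∏_{j ∈ Ex n} R(ψ^j) = (N(α) r)²`, `α ∈ E_t`, where `r > 0` is the leading coefficient of the
`L`-function of `θ`.  (1) `Gal(L/K)` itself dihedral or semidihedral of order `2 ^ (k + 1)`
(`DLeaf`), `S = ∅`: DBS, from DCORE (class number formulas of `L` and `L^z`) and the genus lemma (`ConclE`).
(2) change of `φ`, `S`, inflation, change of `K` (`ABS/StD4.lean`).

Module `X` proves `theorem StarkC.ABS.X_thm : Stmt_X` in the file `Pool/Agent/ABS/X.lean` (import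
`Pool.Agent.ABS.StD3` and the finished modules named in the text); helper lemmas in
`namespace StarkC.ABS.Xx`.  The statements used are hypotheses inside `Stmt_X` (finished modules
`Y_thm` may also be imported).
-/

set_option autoImplicit false

open NumberField IsDedekindDomain
open scoped TensorProduct Classical

namespace StarkP.ABS

/-- The class number formulas for `S = S_∞` of `L` and of the fixed field of `B = {1, σ ^ (n / 2)}`. -/
def Stmt_DCOREP : Prop :=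
  ∀ (k t : ℕ) (E : Type) [Field E] [NumberField E] [Algebra E (CyclotomicField (2 ^ k) ℚ)]
    (τ : CyclotomicField (2 ^ k) ℚ ≃ₐ[E] CyclotomicField (2 ^ k) ℚ), _root_.ABS.FD k t E τ →
  ∀ (K L : Type) [Field K] [NumberField K] [Field L] [NumberField L] [Algebra K L] [IsGalois K L]
    (σ γ : L ≃ₐ[K] L) (B : Subgroup (L ≃ₐ[K] L))
    (Θ : ((L → ℝ) →₀ ℂ) →ₗ[ℂ] ((L → ℝ) →₀ ℂ)),
    orderOf σ = 2 ^ k → γ * γ = 1 → γ * σ = σ ^ t * γ →
    B = Subgroup.zpowers (σ ^ (2 ^ k / 2)) → IsTheta K (aboveSet K L ∅) Θ →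
    ∃ q : ℚ, _root_.ABS.SqF E q ∧
      ‖detOn Θ (XC L (aboveSet K L ∅))‖ *
          ((classNumber (IntermediateField.fixedField B) : ℝ) *
            Units.regulator (IntermediateField.fixedField B) * (Units.torsionOrder L : ℝ)) =
        (q : ℝ) * ‖detOn Θ (XC L (aboveSet K L ∅) ⊓ fixP B)‖ *
          ((classNumber L : ℝ) * Units.regulator L *
            (Units.torsionOrder (IntermediateField.fixedField B) : ℝ))

end StarkP.ABS

namespace StarkC.ABS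

open StarkP (rootField)

/-! ### Interface -/

/-- DTG (about 100 lines; model: `GEN.lean`).  PROOF. `[L : F] = |B| = 2` (`orderOf (σ ^ (2 ^ k / 2)) = 2`, as `k > 0`;
`IntermediateField.finrank_fixedField_eq_card`).  The automorphisms of `L` over `F`, as elements of
`Gal(L/K)`, are the elements of `B` (`IntermediateField.fixingSubgroup_fixedField`; `COX.exists_up`,
`COX.exists_down`), that is `1` and `σ ^ (2 ^ k / 2)`. -/
def Stmt_DTG : Prop :=
  ∀ (k t : ℕ) (K L : Type) [Field K] [NumberField K] [Field L] [NumberField L] [Algebra K L]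
    [IsGalois K L] (σ γ : L ≃ₐ[K] L) (B : Subgroup (L ≃ₐ[K] L)), 0 < k →
    orderOf σ = 2 ^ k → γ * γ = 1 → γ * σ = σ ^ t * γ →
    B = Subgroup.zpowers (σ ^ (2 ^ k / 2)) →
    _root_.ABS.TowG k t K (IntermediateField.fixedField B) L σ γ

/-- DCX (about 150 lines; USES all hypotheses; a copy of `COX.lean`, whose lemmas can be imported:
`import Pool.Agent.ABS.COX`), with DTG and `CoreG` in place of `Tow` and CORE.  `q > 0` (`SqF.pos`). -/
def Stmt_DCX : Prop :=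
  _root_.ABS.Stmt_IOT → _root_.ABS.Stmt_LMU → _root_.ABS.Stmt_SPN → _root_.ABS.Stmt_TRE →
  _root_.ABS.Stmt_JN → _root_.ABS.Stmt_JV → _root_.ABS.Stmt_LG → _root_.ABS.Stmt_TRF →
  _root_.ABS.Stmt_DTC → _root_.ABS.CoreG → Stmt_DTG → StarkP.ABS.Stmt_DCOREP

/-- The core formula. -/
def Stmt_DCORE : Prop :=
  ∀ (k t : ℕ) (E : Type) [Field E] [NumberField E] [Algebra E (CyclotomicField (2 ^ k) ℚ)]
    (τ : CyclotomicField (2 ^ k) ℚ ≃ₐ[E] CyclotomicField (2 ^ k) ℚ), _root_.ABS.FD k t E τ →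
  ∀ (K L : Type) [Field K] [NumberField K] [Field L] [NumberField L] [Algebra K L] [IsGalois K L]
    (σ γ : L ≃ₐ[K] L) (B : Subgroup (L ≃ₐ[K] L))
    (φ : XQ L (aboveSet K L (∅ : Finset (HeightOneSpectrum (𝓞 K)))) ≃ₗ[ℚ]
      QU L (aboveSet K L (∅ : Finset (HeightOneSpectrum (𝓞 K)))))
    (Θ : XC L (aboveSet K L (∅ : Finset (HeightOneSpectrum (𝓞 K)))) →ₗ[ℂ]
      XC L (aboveSet K L (∅ : Finset (HeightOneSpectrum (𝓞 K))))),
    orderOf σ = 2 ^ k → γ * γ = 1 → γ * σ = σ ^ t * γ →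
    B = Subgroup.zpowers (σ ^ (2 ^ k / 2)) →
    IsPhiTheta K (aboveSet K L (∅ : Finset (HeightOneSpectrum (𝓞 K)))) φ Θ →
    ∃ q : ℚ, _root_.ABS.SqF E q ∧
      ‖LinearMap.det Θ‖ * ((classNumber (IntermediateField.fixedField B) : ℝ) *
          Units.regulator (IntermediateField.fixedField B) * (Units.torsionOrder L : ℝ)) =
        (q : ℝ) *
          ‖Reg (aboveSet K L (∅ : Finset (HeightOneSpectrum (𝓞 K))))
            (linRep (1 : (L ≃ₐ[IntermediateField.fixedField B] L) →* ℂˣ)) Θ‖ *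
          ((classNumber L : ℝ) * Units.regulator L *
            (Units.torsionOrder (IntermediateField.fixedField B) : ℝ))

/-- DCB (about 100 lines; a copy of `COREB.lean`, whose lemmas can be imported). -/
def Stmt_DCB : Prop := StarkP.ABS.Stmt_DCOREP → Stmt_REGI → Stmt_DCORE

/-! ### The field -/

/-- The field `ℚ(ζ_n)^τ`, `n = 2 ^ k`, `τ ζ = ζ ^ t`, in `ℂ`. -/
noncomputable def EF2 (k t : ℕ) : IntermediateField ℚ ℂ where
  carrier := {x | x ∈ rootField (2 ^ k) ∧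
    ∀ σ : ℂ ≃+* ℂ, (∀ z : ℂ, z ^ (2 ^ k) = 1 → σ z = z ^ t) → σ x = x}
  mul_mem' := by
    intro a b ha hb
    exact ⟨mul_mem ha.1 hb.1, fun σ hσ => by rw [map_mul, ha.2 σ hσ, hb.2 σ hσ]⟩
  one_mem' := ⟨one_mem _, fun σ _ => map_one σ⟩
  add_mem' := by
    intro a b ha hb
    exact ⟨add_mem ha.1 hb.1, fun σ hσ => by rw [map_add, ha.2 σ hσ, hb.2 σ hσ]⟩
  zero_mem' := ⟨zero_mem _, fun σ _ => map_zero σ⟩
  algebraMap_mem' := by
    intro q
    refine ⟨IntermediateField.algebraMap_mem _ q, fun σ _ => ?_⟩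
    rw [eq_ratCast, map_ratCast]
  inv_mem' := by
    intro a ha
    exact ⟨inv_mem ha.1, fun σ hσ => by rw [map_inv₀, ha.2 σ hσ]⟩

/-- DEM (about 150 lines), the abstract form of the field.  PROOF. `C = ℚ(ζ_n)` (`CyclotomicField`),
`τ₀ : C ≃ₐ[ℚ] C`, `ζ ↦ ζ ^ t` (`t` is odd; `IsCyclotomicExtension.autEquivPow`, or `fromZetaAut`), of order two
(`t² ≡ 1`, `t ≢ 1` modulo `n`).  `E` = the fixed field of `Subgroup.zpowers τ₀`: a subfield of `C`, `[C : E] = 2`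
(`IntermediateField.finrank_fixedField_eq_card`), `τ` = `τ₀` over `E`.  With `e : C ≃ₐ[ℚ] rootField n`
(`COREBx.norm_cyc'`, `ABS/COREB.lean`) an element of `E` is mapped into `EF2 k t`: an automorphism `σ` of `ℂ` with
`σ z = z ^ t` acts on `rootField n` as `e τ₀ e⁻¹` (`ζ` generates); conversely every element of `EF2 k t` comes from
`E` (there is such a `σ`: SIGT).  So `E ≃ₐ[ℚ] EF2 k t`, and the norms agree (`Algebra.norm_eq_of_algEquiv`; for the
instances see the end of `COREBx.norm_cyc`). -/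
def Stmt_DEM : Prop :=
  Stmt_SIGT → ∀ k t : ℕ, 3 ≤ k → TT k t →
    ∃ (E : Type) (_ : Field E) (_ : NumberField E) (_ : Algebra E (CyclotomicField (2 ^ k) ℚ))
      (τ : CyclotomicField (2 ^ k) ℚ ≃ₐ[E] CyclotomicField (2 ^ k) ℚ), _root_.ABS.FD k t E τ ∧
      ∀ q : ℚ, _root_.ABS.NoF E q → ∃ α : EF2 k t, α ≠ 0 ∧ Algebra.norm ℚ α = q

/-- DEN (about 100 lines), norms in `ℚ(ζ_n) ⊇ EF2 k t ⊇ ℚ`.  PROOF. `x ∈ EF2 k t` by definition (`Cyc n` is
`rootField n`).  `E = EF2 k t ≤ Cyc n` has `[Cyc n : E] = 2`: `Cyc n / ℚ` is Galois with group `(ℤ/n)ˣ`, and `E` is the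
fixed field of the automorphism of `Cyc n` given by `z ↦ z ^ t` (SIGT), of order two.  So
`N_{Cyc n/ℚ}(x) = N_{E/ℚ}(N_{Cyc n/E}(x)) = N_{E/ℚ}(x ^ 2)` (`Algebra.norm_norm`, `Algebra.norm_algebraMap`; the tower
through `IntermediateField.inclusion`, compare `PFN.lean`: PFN gives
`Algebra.norm ℚ (inclusion h β) = Algebra.norm ℚ β ^ m`, `m = [Cyc n : E]`). -/
def Stmt_DEN : Prop :=
  Stmt_SIGT → Stmt_PFN → ∀ k t : ℕ, 3 ≤ k → TT k t → ∀ x : Cyc (2 ^ k),
    (∀ σ : ℂ ≃+* ℂ, (∀ z : ℂ, z ^ (2 ^ k) = 1 → σ z = z ^ t) → σ x = x) →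
    ∃ α : EF2 k t, (α : ℂ) = x ∧ nm (2 ^ k) x = ((Algebra.norm ℚ α : ℚ) : ℂ) ^ 2

/-! ### Functions on the group -/

/-- The group is dihedral or semidihedral of order `2 ^ (k + 1)`. -/
structure DLeaf (k t : ℕ) {G : Type} [Group G] (σ γ : G) : Prop where
  k3 : 3 ≤ k
  tt : TT k t
  ord : orderOf σ = 2 ^ k
  inv : γ * γ = 1
  conj : γ * σ = σ ^ t * γ
  all : ∀ g : G, ∃ i : ℕ, g = σ ^ i ∨ g = σ ^ i * γ

/-- Half the sum of the conjugates of `Ind_A ψ`, `ψ` of order `2 ^ k`. -/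
noncomputable def lfun (k : ℕ) {G : Type} [Group G] [Fintype G] (A : Subgroup G) (ψ : A →* ℂˣ) :
    G → ℂ :=
  fun x => (∑ j ∈ Ex (2 ^ k), indFun A (extZ (ψ ^ j)) x) / 2

/-- DI1 (about 150 lines).  PROOF. `n = 2 ^ k`, `z = σ ^ (n / 2)` is central of order two, `γ ∉ ⟨σ⟩` (otherwise it
commutes with `σ`, `σ ^ t = σ`, but `t ≢ 1` modulo `n` by TT), so `|G| = 2 n`.  Both sides at `x`:
(a) left side: `2 lfun = Ind_A (∑_j ψ^j)`; on `A = ⟨σ⟩` the sum of the conjugates is `n / 2` at `1`, `- n / 2` at `z`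
and `0` elsewhere (`CHI_thm`, `ABS/CHI.lean`, for the group `A`), and inducing (`|G| / |A| = 2`, `1` and `z` central)
gives `n`, `-n`, `0`; so `lfun` is `n / 2` at `1`, `- n / 2` at `z`, `0` elsewhere.
(b) `Ind_H 1 (x) = #{y | y⁻¹ x y ∈ H} / |H|`.  At `1`: `2 n / 2 - 2 n / 4 = n / 2`; at `z`: `0 - 2 n / 4`; at another
power of `σ`: `0 - 0`; at `x ∉ A`: let `c` be the number of `y` with `y⁻¹ x y = γ`; the number with `y⁻¹ x y = γ z` is
also `c`, as `γ z = h γ h⁻¹` for a power `h` of `σ` (`σ^i γ σ^(-i) = σ^(i (1 - t)) γ`, and `i (1 - t) ≡ n / 2` modulo `n` has the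
solution `i = n / 4` if `1 - t ≡ 2`, and also `i = n / 4` if `1 - t ≡ 2 - n / 2` as `8 ∣ n`); so `c / 2 - 2 c / 4 = 0`.
`H₂ = {1, γ, z, γ z}`. -/
def Stmt_DI1 : Prop :=
  Stmt_CHI → ∀ (G : Type) [Group G] [Fintype G] (k t : ℕ) (σ γ : G), DLeaf k t σ γ →
    ∀ ψ : Subgroup.zpowers σ →* ℂˣ, Function.Injective ψ → ∀ x : G,
      lfun k (Subgroup.zpowers σ) ψ x =
        indFun (Subgroup.zpowers γ) (fun _ => 1) x -
          indFun (Subgroup.zpowers γ ⊔ Subgroup.zpowers (σ ^ (2 ^ k / 2))) (fun _ => 1) x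

/-- DI2 (about 80 lines).  PROOF. See DI1 (a); `Ind_⊥ 1` is `2 n` at `1`, `Ind_⟨z⟩ 1` is `n` at `1` and `z`. -/
def Stmt_DI2 : Prop :=
  Stmt_CHI → ∀ (G : Type) [Group G] [Fintype G] (k t : ℕ) (σ γ : G), DLeaf k t σ γ →
    ∀ ψ : Subgroup.zpowers σ →* ℂˣ, Function.Injective ψ → ∀ x : G,
      2 * lfun k (Subgroup.zpowers σ) ψ x =
        indFun (⊥ : Subgroup G) (fun _ => 1) x -
          indFun (Subgroup.zpowers (σ ^ (2 ^ k / 2))) (fun _ => 1) x

/-- DI4 (about 100 lines), the semidihedral case.  PROOF. For `j ∈ Ex (2 ^ k)` (`j` odd) and `j' ≡ t j` modulo `2 ^ k`: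
`Ind ψ^j = Ind ψ^j'` (as functions; `indFun` with `x ↦ x g`: `ψ (g⁻¹ a g) = ψ(a) ^ t`, `g⁻¹ a g ∈ A ↔ a ∈ A`), and
`Ind ψ^j` depends on `j` modulo `2 ^ k`.  `t ≡ -1 + 2 ^ (k - 1)`, `t j ≡ - j + 2 ^ (k - 1)`: with `n = 2 ^ k` the odd numbers
below `n` are `j`, `n / 2 - j`, `n / 2 + j`, `n - j`, `j < n / 4` odd, the first two belong together and the last two. -/
def Stmt_DI4 : Prop :=
  ∀ (G : Type) [Group G] [Fintype G] (A : Subgroup G) (ψ : A →* ℂˣ) (g : G) (k t : ℕ), 3 ≤ k →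
    Leaf A ψ g k 1 t → (t + 1) % 2 ^ k = 2 ^ (k - 1) → ∀ x : G,
      lfun k A ψ x = ∑ j ∈ (Finset.range (2 ^ k / 4)).filter Odd,
        (indFun A (extZ (ψ ^ j)) x + indFun A (extZ (ψ⁻¹ ^ j)) x)

/-! ### Regulators -/

/-- DRC (about 40 lines), relations.  PROOF. `INDP.reg_comb` (see `PCX.lean`) for the representation on
`PUnit` (character `0`): its regulator is the determinant of an endomorphism of a space with one element
(`Reg`, `dif_pos`, `LinearMap.det_eq_one_of_subsingleton`). -/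
def Stmt_DRC : Prop :=
  ∀ (K L : Type) [Field K] [NumberField K] [Field L] [NumberField L] [Algebra K L] [IsGalois K L]
    (S : Finset (HeightOneSpectrum (𝓞 K)))
    (φ : XQ L (aboveSet K L S) ≃ₗ[ℚ] QU L (aboveSet K L S))
    (Θ : XC L (aboveSet K L S) →ₗ[ℂ] XC L (aboveSet K L S))
    (m : ℕ) (H : Fin m → Subgroup (L ≃ₐ[K] L)) (ψ : ∀ i, H i →* ℂˣ) (c : Fin m → ℤ),
    IsPhiTheta K (aboveSet K L S) φ Θ →
    (∀ g, ∑ i, (c i : ℂ) * indFun (H i) (extZ (ψ i)) g = 0) →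
    ∏ i, Reg (aboveSet K L S) (linRep (liftChar (H i) (ψ i))) Θ ^ c i = 1

/-- DRB (about 60 lines).  PROOF. REGI over `fixedField ⊥`: every `g` in the Galois group of `L` over it is `1`
(`IntermediateField.subgroupEquivAlgEquiv`), so all of `XC` is invariant (see the use of REGI in `COREB.lean`,
`FRT.lean`). -/
def Stmt_DRB : Prop :=
  Stmt_REGI →
  ∀ (K L : Type) [Field K] [NumberField K] [Field L] [NumberField L] [Algebra K L] [IsGalois K L]
    (S : Finset (HeightOneSpectrum (𝓞 K)))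
    (φ : XQ L (aboveSet K L S) ≃ₗ[ℚ] QU L (aboveSet K L S))
    (Θ : XC L (aboveSet K L S) →ₗ[ℂ] XC L (aboveSet K L S)),
    IsPhiTheta K (aboveSet K L S) φ Θ →
    Reg (aboveSet K L S) (linRep (liftChar (⊥ : Subgroup (L ≃ₐ[K] L)) 1)) Θ = LinearMap.det Θ

/-- DZH (about 100 lines), the trivial character of a subgroup, `S = ∅`.  PROOF. `Z` from ZETA for the fixed
field; `IsArtinL` by `LFBx.sub_eq`, `LFBx.inf_eq` (`ABS/LFB.lean`).  The rational number: `ConclOne` for `L` over the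
fixed field with `S = ∅` and this `Θ` (`IND.isPhiTheta_sub`; the set above `∅` is the same), `cReg 1` is the
regulator of the trivial character (`FRTx.ex_one`), `nm 1 α = Algebra.norm ℚ α` is rational and not zero, and the
function of `ConclOne` has the same leading coefficient as `Z` (`trail_unique`, `ABS/LAST.lean`; `FRTx.cSum_one`). -/
def Stmt_DZH : Prop :=
  Stmt_ZETA → ConclOne →
  ∀ (K L : Type) [Field K] [NumberField K] [Field L] [NumberField L] [Algebra K L] [IsGalois K L]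
    (φ : XQ L (aboveSet K L (∅ : Finset (HeightOneSpectrum (𝓞 K)))) ≃ₗ[ℚ]
      QU L (aboveSet K L (∅ : Finset (HeightOneSpectrum (𝓞 K)))))
    (Θ : XC L (aboveSet K L (∅ : Finset (HeightOneSpectrum (𝓞 K)))) →ₗ[ℂ]
      XC L (aboveSet K L (∅ : Finset (HeightOneSpectrum (𝓞 K)))))
    (H : Subgroup (L ≃ₐ[K] L)),
    IsPhiTheta K (aboveSet K L (∅ : Finset (HeightOneSpectrum (𝓞 K)))) φ Θ →
    ∃ (Z : ℂ → ℂ) (x : ℚ), x ≠ 0 ∧
      IsArtinL (indFun H (fun _ => 1)) (∅ : Set (HeightOneSpectrum (𝓞 K))) Z ∧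
      meromorphicTrailingCoeffAt Z 0 =
        -((classNumber (IntermediateField.fixedField H) : ℂ) *
          ((Units.regulator (IntermediateField.fixedField H) : ℝ) : ℂ) /
          (Units.torsionOrder (IntermediateField.fixedField H) : ℂ)) ∧
      Reg (aboveSet K L (∅ : Finset (HeightOneSpectrum (𝓞 K)))) (linRep (liftChar H 1)) Θ =
        (x : ℂ) * meromorphicTrailingCoeffAt Z 0

/-! ### The property -/

/-- `∏_{j ∈ Ex n} R(ψ^j) = (N(α) r)²`, `r > 0` the leading coefficient of the `L`-function of `lfun`. -/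
def PD2 (k t : ℕ) {K L : Type} [Field K] [NumberField K] [Field L] [NumberField L] [Algebra K L]
    (A : Subgroup (L ≃ₐ[K] L)) (ψ : A →* ℂˣ) (S : Finset (HeightOneSpectrum (𝓞 K)))
    (Θ : XC L (aboveSet K L S) →ₗ[ℂ] XC L (aboveSet K L S)) : Prop :=
  ∃ (F : ℂ → ℂ) (α : EF2 k t) (r : ℝ),
    IsArtinL (lfun k A ψ) (S : Set (HeightOneSpectrum (𝓞 K))) F ∧ α ≠ 0 ∧ 0 < r ∧
    meromorphicTrailingCoeffAt F 0 = (r : ℂ) ∧
    ∏ j ∈ Ex (2 ^ k), Reg (aboveSet K L S) (linRep (liftChar A (ψ ^ j))) Θ =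
      (((Algebra.norm ℚ α : ℚ) : ℂ) * (r : ℂ)) ^ 2

/-- The same for all `φ`. -/
def PD2all (k t : ℕ) {K L : Type} [Field K] [NumberField K] [Field L] [NumberField L]
    [Algebra K L] (A : Subgroup (L ≃ₐ[K] L)) (ψ : A →* ℂˣ)
    (S : Finset (HeightOneSpectrum (𝓞 K))) : Prop :=
  ∀ (φ : XQ L (aboveSet K L S) ≃ₗ[ℚ] QU L (aboveSet K L S))
    (Θ : XC L (aboveSet K L S) →ₗ[ℂ] XC L (aboveSet K L S)),
    IsPhiTheta K (aboveSet K L S) φ Θ → PD2 k t A ψ S Θ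

/-- DBS (about 200 lines), the base.  PROOF. `A = ⟨σ⟩`, `B = ⟨σ ^ (n / 2)⟩`, `H₁ = ⟨γ⟩`, `H₂ = H₁ ⊔ B`;
`c = ∏_{j ∈ Ex n} R(ψ^j)`.  `E`, `τ` from DEM.  By DRC (with DI1, DI2 and the definition of `lfun`; the trivial
character of `H` is `extZ 1`, `CMB.indFun_congr`): `c = (R(H₁) / R(H₂))²` and `c = R(⊥) / R(B) = det Θ / R(B)` (DRB), where
`R(H) = Reg (linRep (liftChar H 1))` (and `liftChar B 1 = 1`).  DZH: `R(H_i) = x_i (- ρ_i)`, `ρ_i = h R / w > 0` for the fixed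
field of `H_i`.  `F = Z₁ / Z₂` is an `L`-function of `lfun` (DI1, `IND.logL_sum`), with leading coefficient
`r = ρ₁ / ρ₂ > 0`.  DCORE: `|det Θ| = q |R(B)| ρ_L / ρ_B`, `q` in `SqF`, so `|c| = q ρ_L / ρ_B`, and `r² = ρ_L / ρ_B`: the functions
`F²` and `Z_L / Z_B` agree for `Re s > 1` (DI2; `LFBx.bot_eq` for `L`), `trail_unique` (`ABS/LAST.lean`).  So with `a = |x₁ / x₂|`:
`c = a² r²`, `a² r² = |c| = q r²`, `a² = q`.  `ConclE`: `NoF E a`, so `a = N(α)` with `α ∈ EF2 k t` (DEM). -/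
def Stmt_DBS : Prop :=
  _root_.ABS.ConclE → Stmt_SIGT → Stmt_DEM → Stmt_DCORE → Stmt_CHI → Stmt_REGI → Stmt_ZETA →
  ConclOne → Stmt_DI1 → Stmt_DI2 → Stmt_DRC → Stmt_DRB → Stmt_DZH →
  ∀ (K L : Type) [Field K] [NumberField K] [Field L] [NumberField L] [Algebra K L] [IsGalois K L]
    (k t : ℕ) (σ γ : L ≃ₐ[K] L) (ψ : Subgroup.zpowers σ →* ℂˣ), DLeaf k t σ γ →
    Function.Injective ψ → PD2all k t (Subgroup.zpowers σ) ψ (∅ : Finset (HeightOneSpectrum (𝓞 K)))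

end StarkC.ABS
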