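import Pool.Agent.ABS.StB

/-!
# Project ABS: combinations of induced characters, all orders

`Concl1` is the first part of `Stmt_FINA`.
-/

open NumberField IsDedekindDomain
open scoped TensorProduct Classical

namespace StarkC.ABS

/-- FINA, first part: all characters of prime power order. -/
def Concl1 : Prop :=
  ∀ (K L : Type) [Field K] [NumberField K] [Field L] [NumberField L] [Algebra K L] [IsGalois K L]
    (ℓ k : ℕ) (ψ : (L ≃ₐ[K] L) →* ℂˣ) (S : Finset (HeightOneSpectrum (𝓞 K))), OkOrd ℓ k →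
    orderOf ψ = ℓ ^ k → PPall (ℓ ^ k) ψ S

/-- `A_S(θ, φ) = N(α)`, `α ∈ ℚ(ζ_q)^*`, for all representations with character `θ`. -/
def PT (q : ℕ) {K L : Type} [Field K] [NumberField K] [Field L] [NumberField L] [Algebra K L]
    (θ : (L ≃ₐ[K] L) → ℂ) (S : Finset (HeightOneSpectrum (𝓞 K)))
    (Θ : XC L (aboveSet K L S) →ₗ[ℂ] XC L (aboveSet K L S)) : Prop :=
  ∃ (F : ℂ → ℂ) (α : Cyc q), IsArtinL θ (S : Set (HeightOneSpectrum (𝓞 K))) F ∧ α ≠ 0 ∧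
    ∀ (V : Type) [AddCommGroup V] [Module ℂ V] [Module.Finite ℂ V]
      (ρ : Representation ℂ (L ≃ₐ[K] L) V), (∀ g, ρ.character g = θ g) →
      Reg (aboveSet K L S) ρ Θ = nm q α * meromorphicTrailingCoeffAt F 0

/-- COMB.  Integral combinations of induced sums of conjugates. -/
def Stmt_COMB : Prop :=
  Concl1 →
  ∀ (K L : Type) [Field K] [NumberField K] [Field L] [NumberField L] [Algebra K L] [IsGalois K L]
    (ℓ k : ℕ) (S : Finset (HeightOneSpectrum (𝓞 K)))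
    (φ : XQ L (aboveSet K L S) ≃ₗ[ℚ] QU L (aboveSet K L S))
    (Θ : XC L (aboveSet K L S) →ₗ[ℂ] XC L (aboveSet K L S))
    (m : ℕ) (H : Fin m → Subgroup (L ≃ₐ[K] L)) (ψ : ∀ i, H i →* ℂˣ) (c : Fin m → ℤ)
    (θ : (L ≃ₐ[K] L) → ℂ),
    OkOrd ℓ k → (∀ i, orderOf (ψ i) = ℓ ^ k) → IsPhiTheta K (aboveSet K L S) φ Θ →
    (∀ g, θ g = ∑ i, (c i : ℂ) * ∑ t ∈ Ex (ℓ ^ k), indFun (H i) (extZ (ψ i ^ t)) g) →
    PT (ℓ ^ k) θ S Θ

/-- RAM.  Ramanujan sums.  `a + b = 1` mod `q m`, `q ∣ b`; CRT `Ex (q m) = Ex q × Ex m`,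
`z ^ t = (z ^ a) ^ (t mod q) (z ^ b) ^ (t mod m)`; `∑_{r ∈ Ex m} w ^ r =
∑_{d ∣ m} μ(d) ∑_{j < m / d} (w ^ d) ^ j` for `w = z ^ b`, `w ^ m = 1`; the inner sum is `m / d` if
`w ^ d = 1` and `0` otherwise; `w ^ d = 1` iff `z ^ (q d) = 1` (`z^(qd) = z^(aqd) z^(bqd)`,
`z ^ (a q) = 1`; conversely `q ∣ b`). -/
def Stmt_RAM : Prop :=
  ∀ (q m a : ℕ) (z : ℂ), 0 < q → 0 < m → q.Coprime m → a % q = 1 % q → m ∣ a →
    z ^ (q * m) = 1 →
    ∑ t ∈ Ex (q * m), z ^ t = (∑ s ∈ Ex q, (z ^ a) ^ s) *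
      ∑ d ∈ m.divisors, if z ^ (q * d) = 1 then (ArithmeticFunction.moebius d : ℂ) * ((m / d : ℕ) : ℂ)
        else 0

/-- IDX.  Inducing a character which extends to `G`: for `ψ` of order `q m` and `d ∣ m` the
subgroup `H = {g | ψ(g)^(q d) = 1}` has index `m / d` (`G/H` is isomorphic to the image of
`ψ ^ (q d)`, a cyclic group of order `orderOf (ψ ^ (q d)) = m / d`), is normal, and
`ψ ^ (a s)` is constant on conjugacy classes.  The restriction of `ψ ^ a` to `H` has order `q`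
(`a = 1` mod `q`, `m ∣ a`; on `{g | ψ(g)^q = 1}` it is `ψ`, with image of order `q`). -/
def Stmt_IDX : Prop :=
  ∀ (G : Type) [Group G] [Fintype G] (q m a d : ℕ) (ψ : G →* ℂˣ), 0 < q → 0 < m → q.Coprime m →
    a % q = 1 % q → m ∣ a → orderOf ψ = q * m → d ∣ m →
    orderOf ((ψ ^ a).comp (ψ ^ (q * d)).ker.subtype) = q ∧
    ∀ (s : ℕ) (g : G), indFun (ψ ^ (q * d)).ker
      (extZ (((ψ ^ a).comp (ψ ^ (q * d)).ker.subtype) ^ s)) g =
        if ((ψ g : ℂˣ) : ℂ) ^ (q * d) = 1 then ((m / d : ℕ) : ℂ) * (((ψ g : ℂˣ) : ℂ) ^ a) ^ s else 0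

/-- ORDN.  All orders `n = q m`, `q = ℓ^k > 2`, `(q, m) = 1`: COMB with the subgroups
`(ψ ^ (q d)).ker`, `d ∣ m`, and the integers `μ(d)` (RAM, IDX; `a` by the Chinese remainder
theorem). -/
def Stmt_ORDN : Prop :=
  Concl1 → Stmt_COMB → Stmt_RAM → Stmt_IDX →
  ∀ (K L : Type) [Field K] [NumberField K] [Field L] [NumberField L] [Algebra K L] [IsGalois K L]
    (ℓ k m : ℕ) (ψ : (L ≃ₐ[K] L) →* ℂˣ) (S : Finset (HeightOneSpectrum (𝓞 K)))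
    (φ : XQ L (aboveSet K L S) ≃ₗ[ℚ] QU L (aboveSet K L S))
    (Θ : XC L (aboveSet K L S) →ₗ[ℂ] XC L (aboveSet K L S)),
    OkOrd ℓ k → 0 < m → (ℓ ^ k).Coprime m → orderOf ψ = ℓ ^ k * m →
    IsPhiTheta K (aboveSet K L S) φ Θ → PT (ℓ ^ k) (cSum (ℓ ^ k * m) ψ) S Θ

end StarkC.ABS
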