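import Pool.Agent.ABS.StG1

/-!
# Project ABS (MP_46b841_nt), part G: the representations of degree `3` of `A_5`

`χ = Ind_C ψ - P_A - P_D + 2`, `Tr χ = P_T - 2 P_A - P_D + 2`, where `C`, `D`, `A`, `T` are subgroups of
order `5`, `10`, `12`, `3`, `P_H = Ind_H 1`, and `ψ` is a character of order `5` of `C`.

Module `X` proves `theorem StarkC.ABS.X_thm : Stmt_X` in the file `Pool/Agent/ABS/X.lean` (import
`Pool.Agent.ABS.StG4`); helper lemmas in `namespace StarkC.ABS.Xx`.  All identities were checked with a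
computer.
-/

set_option autoImplicit false

open scoped Classical

namespace StarkC.ABS

/-- The group `A_5`. -/
abbrev A5 : Type := alternatingGroup (Fin 5)

/-- The cycle `(0 1 2 3 4)`. -/
def g5 : A5 := ⟨finRotate 5, by
  rw [Equiv.Perm.mem_alternatingGroup, sign_finRotate]
  norm_num⟩

/-- FK5 (about 60 lines).  The elements of `A_5`: by `decide` (the numbers `j` may be restricted to `1`,
`2`), or by the cycle type. -/
def Stmt_FK5 : Prop :=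
  (∀ g : A5, g = 1 ∨ (g ≠ 1 ∧ g ^ 2 = 1) ∨ (g ≠ 1 ∧ g ^ 3 = 1) ∨
    ∃ (x : A5) (j : ℕ), ¬ 5 ∣ j ∧ g = x⁻¹ * g5 ^ j * x) ∧
  (∀ (x : A5) (j : ℕ), ¬ 5 ∣ j → x⁻¹ * g5 ^ j * x ≠ 1 ∧ (x⁻¹ * g5 ^ j * x) ^ 5 = 1) ∧
  (∀ g : A5, ∃ x : A5, x⁻¹ * g * x = g⁻¹)

/-- FV5 (about 200 lines; USES FK5), the character.  `A_5` is simple
(`alternatingGroup.isSimpleGroup_five`) and not commutative, so the kernel of `ρ` is trivial (`ρ` is
not trivial) and `det ρ` (a homomorphism to the commutative group `ℂˣ`; its kernel is normal and not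
trivial) is `1`.  For `g` of finite order `n` the endomorphism `ρ g` is diagonalisable (or: its
characteristic polynomial splits, the roots `z₁, z₂, z₃` are `n`-th roots of unity,
`χ g = z₁ + z₂ + z₃`, `χ (g⁻¹) = z₁⁻¹ + z₂⁻¹ + z₃⁻¹`, `det = z₁ z₂ z₃ = 1`, and if
`z₁ = z₂ = z₃` then `ρ g` is a scalar).  `χ (g⁻¹) = χ g` by FK5.  With `z₁ z₂ z₃ = 1`:
`e₂ = z₁ z₂ z₃ (z₁⁻¹ + z₂⁻¹ + z₃⁻¹) = e₁`, so the characteristic polynomial is
`X³ - e₁ X² + e₁ X - 1 = (X - 1)(X² + (1 - e₁) X + 1)`: the eigenvalues are `1, z, z⁻¹`, and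
`χ g = 1 + z + z⁻¹`, `z^n = 1`, `z ≠ 1` (otherwise `ρ g = 1`, as `ρ g` is diagonalisable, and `ρ` is
injective).  So `χ g = -1` if `g² = 1`, `0` if `g³ = 1`; and `ζ` = the `z` for `g = g5`:
`ρ (g5^j)` has the eigenvalues `1, ζ^j, ζ^(-j)`. -/
def Stmt_FV5 : Prop :=
  Stmt_FK5 →
  ∀ (V : Type) [AddCommGroup V] [Module ℂ V] [Module.Finite ℂ V] (ρ : Representation ℂ A5 V),
    Module.finrank ℂ V = 3 → (¬ ∀ g, ρ g = 1) →
    ∃ ζ : ℂ, IsPrimitiveRoot ζ 5 ∧ ρ.character 1 = 3 ∧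
      (∀ g : A5, g ≠ 1 → g ^ 2 = 1 → ρ.character g = -1) ∧
      (∀ g : A5, g ≠ 1 → g ^ 3 = 1 → ρ.character g = 0) ∧
      ∀ (x : A5) (j : ℕ), ¬ 5 ∣ j →
        ρ.character (x⁻¹ * g5 ^ j * x) = 1 + ζ ^ j + (ζ ^ j)⁻¹

/-- FI5 (about 150 lines).  `A` = the stabiliser of `4`, `D` = the normaliser of `⟨g5⟩` (the `x` with
`x⁻¹ g5 x ∈ {g5, g5⁻¹}`; order `10`), `T` = the powers of `(0 1 2)`.  `indFun H 1 g =
#{x | x⁻¹ g x ∈ H} / |H|`, by `decide` for all `g` or, as class functions, for representatives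
(`1`, `(0 1)(2 3)`, `(0 1 2)`, `g5`, `g5²`). -/
def Stmt_FI5 : Prop :=
  ∃ A D T : Subgroup A5,
    (indFun A (fun _ => 1) 1 = 5 ∧ indFun D (fun _ => 1) 1 = 6 ∧ indFun T (fun _ => 1) 1 = 20) ∧
    (∀ g : A5, g ≠ 1 → g ^ 2 = 1 →
      indFun A (fun _ => 1) g = 1 ∧ indFun D (fun _ => 1) g = 2 ∧ indFun T (fun _ => 1) g = 0) ∧
    (∀ g : A5, g ≠ 1 → g ^ 3 = 1 →
      indFun A (fun _ => 1) g = 2 ∧ indFun D (fun _ => 1) g = 0 ∧ indFun T (fun _ => 1) g = 2) ∧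
    ∀ g : A5, g ≠ 1 → g ^ 5 = 1 →
      indFun A (fun _ => 1) g = 0 ∧ indFun D (fun _ => 1) g = 1 ∧ indFun T (fun _ => 1) g = 0

/-- FJ5 (about 120 lines).  `C = ⟨g5⟩` has order `5`; `x⁻¹ g5^j x ∈ C` (`5 ∤ j`) for exactly ten `x`, and
it is `g5^j` for five and `g5^(-j)` for five of them (`decide`). -/
def Stmt_FJ5 : Prop :=
  ∀ ψ : Subgroup.zpowers g5 →* ℂˣ,
    indFun (Subgroup.zpowers g5) (extZ ψ) 1 = 12 ∧
    (∀ g : A5, g ≠ 1 → g ^ 2 = 1 → indFun (Subgroup.zpowers g5) (extZ ψ) g = 0) ∧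
    (∀ g : A5, g ≠ 1 → g ^ 3 = 1 → indFun (Subgroup.zpowers g5) (extZ ψ) g = 0) ∧
    ∀ (x : A5) (j : ℕ), ¬ 5 ∣ j → indFun (Subgroup.zpowers g5) (extZ ψ) (x⁻¹ * g5 ^ j * x) =
      extZ ψ g5 ^ j + (extZ ψ g5 ^ j)⁻¹

/-- FA5 (about 150 lines).  By FK5 every `g` is of one of the four kinds.  `ψ` = the character of
`C = ⟨g5⟩` with `ψ(g5) = ζ` (`C` is cyclic of order `5`: `zmodCyclicMulEquiv`, or `zpowersHom` and
`QuotientGroup`, or `IsPrimitiveRoot.zmodEquivZPowers` composed with `C ≅ ZMod 5`).  MonC: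
`χ = 1 · Ind_C ψ - 1 · Ind_A 1 - 1 · Ind_D 1 + 2 · Ind_⊤ 1` (`extZ 1` and `fun _ => 1` give the same
`indFun`, `indFun ⊤ 1 = 1`).  PermC: `ℚ(χ) = ℚ(w)`, `w = 1 + ζ + ζ⁻¹`, `w² = w + 1`, `w ∉ ℚ`
(`1 + ζ² + ζ⁻² = 1 - w`), so the degree is `2`, the trace of a rational number `r` is `2 r`, and
`tr w = 1`, `tr (1 - w) = 1` (minimal polynomial `X² - X - 1`; `minpoly`,
`PowerBasis.trace_gen_eq_nextCoeff_minpoly`; or `Algebra.trace` from the basis `1, w`).  So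
`Tr χ = 6, -2, 0, 1` on the four kinds, `= P_T - 2 P_A - P_D + 2`. -/
def Stmt_FA5 : Prop :=
  Stmt_FK5 → Stmt_FV5 → Stmt_FI5 → Stmt_FJ5 →
  ∀ (V : Type) [AddCommGroup V] [Module ℂ V] [Module.Finite ℂ V] (ρ : Representation ℂ A5 V),
    Module.finrank ℂ V = 3 → (¬ ∀ g, ρ g = 1) →
    MonC 5 ρ.character ∧ PermC (StarkP.trChar ρ.character)

/-- FTR (about 100 lines), transport along an isomorphism `e`: the subgroups `H.comap e`, the
characters `ψ` composed with `e`; `indFun (H.comap e) (f ∘ e) g = indFun H f (e g)`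
(`Equiv.sum_comp e`, `Nat.card` of the comap).  The second part: the representation
`ρ ∘ e.symm` of `A5` has the character `χ ∘ e.symm`, with the same set of values, so the same field and
the same trace (`trChar (θ ∘ e) = trChar θ ∘ e`, as `Set.range (θ ∘ e) = Set.range θ`). -/
def Stmt_FTR : Prop :=
  Stmt_FK5 → Stmt_FV5 → Stmt_FI5 → Stmt_FJ5 → Stmt_FA5 →
  ∀ (G V : Type) [Group G] [Fintype G] [AddCommGroup V] [Module ℂ V] [Module.Finite ℂ V]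
    (ρ : Representation ℂ G V), Nonempty (G ≃* alternatingGroup (Fin 5)) →
    Module.finrank ℂ V = 3 → (¬ ∀ g, ρ g = 1) →
    MonC 5 ρ.character ∧ PermC (StarkP.trChar ρ.character)

end StarkC.ABS
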