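import Pool.Agent.ABS.StG

/-!
# Project ABS (MP_46b841_nt), part G: corollary (F')

`χ = ± Ind_U ψ + R`, `R` an integral combination of permutation characters.
-/

set_option autoImplicit false

open NumberField NumberField.InfinitePlace IsDedekindDomain
open scoped TensorProduct Classical

namespace StarkC.ABS

/-- A subgroup `U`, a linear character `ψ` of `U` of order `ℓ^k`, `ℓ` odd, and an element `h` with
`ψ^h = ψ^t`, `ψ(h^m) = 1`, whose powers `h^i`, `0 < i < m`, are not in `U` and act on the characters of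
order `ℓ` without fixed points. -/
structure Dat (ℓ k : ℕ) {G : Type} [Group G] (U : Subgroup G) (ψ : U →* ℂˣ) (h : G) (t m : ℕ) :
    Prop where
  prime : ℓ.Prime
  odd : ℓ ≠ 2
  kpos : 0 < k
  ord : orderOf ψ = ℓ ^ k
  mpos : 0 < m
  conj : cj ψ h t
  pow : extZ ψ (h ^ m) = 1
  ker : ∀ i, h ^ i ∈ U → m ∣ i
  free : ∀ i, 0 < i → i < m → ¬ t ^ i ≡ 1 [MOD ℓ]

/-- FGN: FGM without the hypothesis that `U` is normal (`cj ψ h t` implies `h⁻¹ U h ⊆ U`, because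
`extZ ψ` is zero outside `U`); the same proof (see `ABS/FGM.lean`): at `g`,
`#{x | x⁻¹ g x ∈ H_j} = #{x | x⁻¹ g x ∈ N_j} + #{x | x⁻¹ g x ∈ H_j \ U}`; the first parts give the right
side, and `#{x | x⁻¹ g x ∈ H₂ \ U} = ℓ #{x | x⁻¹ g x ∈ H₁ \ U}`. -/
def Stmt_FGN : Prop :=
  ∀ (G : Type) [Group G] [Fintype G] (ℓ k : ℕ) (U : Subgroup G) (ψ : U →* ℂˣ) (h : G) (t m : ℕ),
    ℓ.Prime → 0 < k → orderOf ψ = ℓ ^ k → 0 < m → cj ψ h t → extZ ψ (h ^ m) = 1 →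
    (∀ i, h ^ i ∈ U → m ∣ i) → (∀ i, 0 < i → i < m → ¬ t ^ i ≡ 1 [MOD ℓ]) →
    ∃ H₁ H₂ : Subgroup G, ∀ g, (m : ℂ) * (indFun H₁ (fun _ => 1) g - indFun H₂ (fun _ => 1) g) =
      ∑ s ∈ (Finset.range (ℓ ^ k)).filter (fun s => (ℓ ^ k).Coprime s), indFun U (extZ (ψ ^ s)) g

/-- FFP (about 180 lines), corollary (F').  `n = ℓ^k`.  MonC: the terms `(U, ψ, e)`, `(H i, 1, a i)`
(`extZ 1` and `fun _ => 1` give the same `indFun`).  FCH with `m = 1` for these terms: `e'` = the number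
of the `s ∈ Ex n` with `σ χ = χ` for the `σ` acting as `z ↦ z^s`.  `σ χ = e Ind ψ^s + R`, so
`σ χ = χ` iff `Ind_U ψ^s = Ind_U ψ` (such a `σ` exists: SIGT), iff `s ≡ t^i` modulo `n` for some `i`:
one direction is the hypothesis `hfld`, the other one: `cj ψ (h^i) (t^i)` (induction; `h⁻¹ U h ⊆ U`), and
`ψ^(h^i)` and `ψ` induce the same function (substitute `x ↦ x h^i` in `indFun`; `h^i` normalises `U`:
`G` is finite).  `h^m ∈ U` (`extZ ψ (h^m) ≠ 0`) and `U` acts trivially on `ψ`, so `t^m ≡ 1` modulo `n`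
(`ψ` has a value of order `n`: `orderOf ψ = n` is the exponent of the range, which is cyclic; or
`ψ^(t^m) = ψ`); the `t^i`, `0 ≤ i < m`, are different modulo `ℓ` (`free`, `t` prime to `ℓ`), so
there are exactly `m` such classes: `e' = m`.  FCH: `m tr χ = e ∑_{s ∈ Ex n} Ind ψ^s
+ φ(n) ∑_i a_i Ind_(H i) 1` and `m [ℚ(χ) : ℚ] = φ(n)`.  FGN: `∑_s Ind ψ^s = m (Ind_{H₁} 1 -
Ind_{H₂} 1)`.  Cancel `m`: `Tr χ = e Ind_{H₁} 1 - e Ind_{H₂} 1 + [ℚ(χ) : ℚ] ∑_i a_i Ind_(H i) 1`. -/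
def Stmt_FFP : Prop :=
  Stmt_SIGT → Stmt_TRT → Stmt_FGN → Stmt_FCH →
  ∀ (G : Type) [Group G] [Fintype G] (ℓ k : ℕ) (U : Subgroup G) (ψ : U →* ℂˣ) (h : G) (t m : ℕ),
    Dat ℓ k U ψ h t m →
    (∀ s : ℕ, (ℓ ^ k).Coprime s → (∀ g, indFun U (extZ (ψ ^ s)) g = indFun U (extZ ψ) g) →
      ∃ i : ℕ, s ≡ t ^ i [MOD ℓ ^ k]) →
    ∀ (r : ℕ) (H : Fin r → Subgroup G) (a : Fin r → ℤ) (e : ℤ) (χ : G → ℂ), (e = 1 ∨ e = -1) →
    (∀ g, χ g = (e : ℂ) * indFun U (extZ ψ) g + ∑ i, (a i : ℂ) * indFun (H i) (fun _ => 1) g) →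
    MonC (ℓ ^ k) χ ∧ PermC (StarkP.trChar χ)

end StarkC.ABS
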