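import Pool.Agent.ABS.StP
import Pool.Agent.Stark.SOL

/-!
# Project ABS (MP_46b841_nt): split metacyclic images (helper91, helper76)

`HolD T ψ P`: `G / ker ψ = C_N ⋊ P`, `C_N = T / ker ψ` cyclic of order `N = orderOf ψ`, `P ≤ (ℤ/N)^*`.
-/

set_option autoImplicit false

open scoped Classical

namespace StarkC.ABS

/-- `T` is normal, `P` a complement, which acts faithfully on the linear character `ψ` of `T` by
powers. -/
structure HolD {G : Type} [Group G] (T : Subgroup G) (ψ : T →* ℂˣ) (P : Subgroup G) : Prop where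
  norm : ∀ x : G, ∀ t ∈ T, x⁻¹ * t * x ∈ T
  disj : ∀ x ∈ T, x ∈ P → x = 1
  gen : ∀ g : G, ∃ t ∈ T, ∃ x ∈ P, g = t * x
  act : ∀ x ∈ P, ∃ s : ℕ, ∀ a b : T, (b : G) = x⁻¹ * a * x → ψ b = ψ a ^ s
  faith : ∀ x ∈ P, (∀ a b : T, (b : G) = x⁻¹ * a * x → ψ b = ψ a) → x = 1

/-- HEA (helper91): hyperelementary groups with elementary abelian Sylow `p`-subgroup. -/
def Stmt_HEA : Prop :=
  ∀ (G V : Type) [Group G] [Fintype G] [AddCommGroup V] [Module ℂ V] [Module.Finite ℂ V]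
    (ρ : Representation ℂ G V) (p : ℕ) (C S : Subgroup G), ρ.IsIrreducible → p.Prime →
    C.Normal → IsCyclic C → ¬ p ∣ Nat.card C → (∀ x ∈ S, x ^ p = 1) →
    (∀ x ∈ S, ∀ y ∈ S, x * y = y * x) → (∀ g : G, ∃ c ∈ C, ∃ x ∈ S, g = c * x) →
    ∃ (T P : Subgroup G) (ψ : T →* ℂˣ), HolD T ψ P ∧ P ≤ S ∧
      ∀ g, ρ.character g = indFun T (extZ ψ) g

end StarkC.ABS
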