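import Pool.Agent.ABS.StR1

/-!
# Project ABS (MP_46b841_nt), part N: irreducible characters with nilpotent image

THEOREM (N).  `L/K` a finite Galois extension of number fields, `χ` the character of an irreducible
representation `ρ` of `G = Gal(L/K)` whose image is nilpotent with an abelian Sylow `2`-subgroup (for
example: any image of odd prime power order, any abelian image, any nilpotent image of odd order).
Then `A_S(Tr χ, φ)` is the norm of an element of `E^*` for every subfield `E` of `ℚ(χ)` cyclic over `ℚ`, and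
the norm of an element of `ℚ(χ)^*` if `ℚ(χ) = ℚ(ζ_q)`, `q` a prime power.

PROOF.  Roquette's theorem (`ABS/StR1.lean`) for these images: `χ = Ind_H ψ`, `ψ` linear of order `o`,
`ℚ(χ) = ℚ(ψ) = ℚ(ζ_o)` (NGP, NEL, NSU, NOQ, NFX); so `Tr χ = Ind_H Tr ψ`, and theorem (P) of
`ABS/StU.lean`, or the theorem for linear characters over the fixed field of `H`, applies
(`ABS/StN2.lean`).

Module `X` proves `theorem StarkC.ABS.X_thm : Stmt_X` in the file `Pool/Agent/ABS/X.lean` (import
`Pool.Agent.ABS.StN` and the finished modules named in the text); helper lemmas in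
`namespace StarkC.ABS.Xx`.  The statements used are hypotheses inside `Stmt_X`.
-/

set_option autoImplicit false

open scoped Classical

namespace StarkC.ABS

open StarkC.MON

/-- The image is nilpotent, and the images of the elements of `2`-power order commute. -/
def NImg {G V : Type} [Group G] [AddCommGroup V] [Module ℂ V] (ρ : Representation ℂ G V) : Prop :=
  (∃ n : ℕ, ∀ g ∈ (⊤ : Subgroup G).lowerCentralSeries n, ρ g = 1) ∧
    ∀ a b : G, (∃ j : ℕ, a ^ (2 ^ j) = 1) → (∃ j : ℕ, b ^ (2 ^ j) = 1) →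
      ρ (a * b) = ρ (b * a)

/-- NPR (40 lines), the printed form.  PROOF. `Q = G / ker ρ` is nilpotent:
`(⊤ : Subgroup Q).lowerCentralSeries n = ⊥` for some `n` (`nilpotent_iff_lowerCentralSeries`, or its
new name), and the projection maps the series of `G` into the series of `Q`
(`lowerCentralSeries.map`, or induction with `Subgroup.map_commutator`, `Subgroup.commutator_mono`). -/
def Stmt_NPR : Prop :=
  ∀ (G V : Type) [Group G] [AddCommGroup V] [Module ℂ V] (ρ : Representation ℂ G V),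
    Group.IsNilpotent (G ⧸ MonoidHom.ker ρ) →
    (∀ a b : G, (∃ j : ℕ, a ^ (2 ^ j) = 1) → (∃ j : ℕ, b ^ (2 ^ j) = 1) →
      ρ (a * b) = ρ (b * a)) → NImg ρ

/-- NSU (60 lines).  PROOF. The subtype map of `H` maps the lower central series of `H` into that of
`G` (`lowerCentralSeries_map_subtype_le`, or induction with `Subgroup.map_commutator`,
`Subgroup.commutator_mono`), and `sub ρ H W hW g` is the restriction of `ρ g`: it is `1` if
`ρ g = 1`, and `sub (a b) = sub (b a)` if `ρ (a b) = ρ (b a)`; `(a : G) ^ (2 ^ j) = 1`. -/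
def Stmt_NSU : Prop :=
  ∀ (G V : Type) [Group G] [AddCommGroup V] [Module ℂ V] (ρ : Representation ℂ G V)
    (H : Subgroup G) (W : Submodule ℂ V) (hW : ∀ g ∈ H, ∀ v ∈ W, ρ g v ∈ W),
    NImg ρ → NImg (sub ρ H W hW)

/-- NGP (180 lines), the group lemma.  PROOF. `G` is the product of its Sylow subgroups:
`isNilpotent_of_finite_tfae`, (1) ⇒ (5): `e : (∀ p : (Nat.card G).primeFactors, ∀ P : Sylow p G, P) ≃* G`.
If all these `P` are abelian then `G` is; so there are `p`, `P` with `P` not abelian.  Let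
`i : P →* G`, `i x = e (Pi.mulSingle p (Pi.mulSingle P x))` (injective).  `p ≠ 2`: for `p = 2` all
`i x` have `2`-power order, so they commute, and `P` is abelian.  An element `x` of the center of `P`
has `i x ∈ Subgroup.center G` (componentwise); so the center of `P` is cyclic (isomorphic to a subgroup
of the cyclic center of `G`: `isCyclic_of_injective`, `isCyclic_of_surjective` for the range, or
`Subgroup.isCyclic`).  `RGP_thm RCY_thm` (`ABS/RGP.lean`, `ABS/RCY.lean`) for `p`, `P`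
(`IsPGroup p P`: `P.isPGroup'`) gives `a₀`; `a = i a₀`.  `g⁻¹ a g a⁻¹ = i (g_P⁻¹ a₀ g_P a₀⁻¹)`, `g_P` the
component of `e.symm g` (componentwise); `a` is not central (it does not commute with some `i y`).
`z = i z₀`, `z₀` an element of order `p` of the center of `P`, which is not trivial
(`IsPGroup.center_nontrivial`, `exists_prime_orderOf_dvd_card'`; `orderOf_injective`). -/
def Stmt_NGP : Prop :=
  ∀ (G : Type) [Group G] [Finite G], Group.IsNilpotent G →
    (∀ a b : G, (∃ j : ℕ, a ^ (2 ^ j) = 1) → (∃ j : ℕ, b ^ (2 ^ j) = 1) → a * b = b * a) →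
    IsCyclic (Subgroup.center G) → (¬ ∀ a b : G, a * b = b * a) →
    ∃ (p : ℕ) (a z : G), p.Prime ∧ a ∉ Subgroup.center G ∧ a ^ p = 1 ∧
      (∀ g : G, g⁻¹ * a * g * a⁻¹ ∈ Subgroup.center G) ∧ z ∈ Subgroup.center G ∧ orderOf z = p

/-- NLI (40 lines).  Elements of `2`-power order lift.  PROOF. `f g = x`, `x ^ (2 ^ j) = 1`;
`orderOf g = 2 ^ s * m`, `m` odd.  By the Chinese remainder theorem (`Nat.chineseRemainder`) there is `k` with
`k ≡ 0` mod `m` and `k ≡ 1` mod `2 ^ (j + s)`.  `(g ^ k) ^ (2 ^ s) = 1` and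
`f (g ^ k) = x ^ k = x` (the order of `x` divides `2 ^ j`). -/
def Stmt_NLI : Prop :=
  ∀ (G Q : Type) [Group G] [Finite G] [Group Q] (f : G →* Q) (x : Q), Function.Surjective f →
    (∃ j : ℕ, x ^ (2 ^ j) = 1) → ∃ g : G, f g = x ∧ ∃ j : ℕ, g ^ (2 ^ j) = 1

/-- NEL (150 lines).  PROOF. Copy `REL_thm` (`ABS/REL.lean`; `Im ρ`, `pr ρ`, `pr_surj`, `pr_eq`, `pr_one`,
`mem_center`, the center of `Im ρ` is cyclic, `f : Subgroup.center (Im ρ) →* ℂ`).  `Im ρ` is
nilpotent (the map `pr ρ` is surjective and kills a term of the lower central series of `G`: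
the series of `Im ρ` is the image of that of `G`, by induction with `Subgroup.map_commutator` and
`Subgroup.map_top_of_surjective`; `nilpotent_iff_lowerCentralSeries`); its elements of `2`-power order
commute (NLI for `pr ρ` and the second part of `NImg`).  It is not abelian (otherwise all `ρ g` are
scalars).  NGP for `Im ρ`; lift `a` and `z`. -/
def Stmt_NEL : Prop :=
  Stmt_NGP → Stmt_NLI →
  ∀ (G V : Type) [Group G] [Fintype G] [AddCommGroup V] [Module ℂ V] [Module.Finite ℂ V]
    (ρ : Representation ℂ G V), Irr ρ → NImg ρ → (¬ ∀ g, IsScal ρ g) →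
    ∃ (p : ℕ) (a z : G) (ζ : ℂ), p.Prime ∧ ¬ IsScal ρ a ∧ ρ (a ^ p) = 1 ∧
      (∀ y : G, ∃ c : ℂ, ∀ v, ρ (y⁻¹ * a * y) v = c • ρ a v) ∧ IsPrimitiveRoot ζ p ∧
      ∀ v, ρ z v = ζ • v

/-- NOQ (120 lines).  PROOF. Copy `ROQ.main` (`ABS/ROQ.lean`): induction on `|G|`; if all `ρ g` are scalars
as in `ROQ.scal` (without the second part); otherwise NEL, `RAV_thm` (`ABS/RAV.lean`), NSU and
`ROQ.fix_sub` (with `p` for `ℓ`). -/
def Stmt_NOQ : Prop :=
  Stmt_NEL → Stmt_NSU → Stmt_NGP → Stmt_NLI →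
  ∀ (G V : Type) [Group G] [Fintype G] [AddCommGroup V] [Module ℂ V] [Module.Finite ℂ V]
    (ρ : Representation ℂ G V), Irr ρ → NImg ρ →
    ∃ (H : Subgroup G) (ψ : H →* ℂˣ), ρ.character = indFun H (extZ ψ) ∧
      ∀ σ : ℂ ≃+* ℂ, (∀ g, σ (ρ.character g) = ρ.character g) →
        ∀ h, σ ((ψ h : ℂˣ) : ℂ) = ((ψ h : ℂˣ) : ℂ)

/-- The conclusion of NOQ. -/
def ConclNOQ : Prop :=
  ∀ (G V : Type) [Group G] [Fintype G] [AddCommGroup V] [Module ℂ V] [Module.Finite ℂ V]
    (ρ : Representation ℂ G V), Irr ρ → NImg ρ →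
    ∃ (H : Subgroup G) (ψ : H →* ℂˣ), ρ.character = indFun H (extZ ψ) ∧
      ∀ σ : ℂ ≃+* ℂ, (∀ g, σ (ρ.character g) = ρ.character g) →
        ∀ h, σ ((ψ h : ℂˣ) : ℂ) = ((ψ h : ℂˣ) : ℂ)

/-- The conclusion of NFX. -/
def ConclNFX : Prop :=
  ∀ (G V : Type) [Group G] [Fintype G] [AddCommGroup V] [Module ℂ V] [Module.Finite ℂ V]
    (ρ : Representation ℂ G V), Irr ρ → NImg ρ →
    ∃ (H : Subgroup G) (ψ : H →* ℂˣ), 0 < orderOf ψ ∧ ρ.character = indFun H (extZ ψ) ∧
      (∀ σ : ℂ ≃+* ℂ, (∀ g, σ (ρ.character g) = ρ.character g) ↔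
        ∀ z : ℂ, z ^ orderOf ψ = 1 → σ z = z) ∧
      ∀ (σ : ℂ ≃+* ℂ) (t : ℕ), (∀ z : ℂ, z ^ orderOf ψ = 1 → σ z = z ^ t) →
        ∀ g, σ (ρ.character g) = indFun H (extZ (ψ ^ t)) g

/-- NFX (60 lines), the field of values.  PROOF. As `RFX_thm` (`ABS/RFX.lean`: `exists_value`,
`map_indFun`), `o = orderOf ψ`: `ψ` takes a value of order `o`, a primitive `o`-th root of unity. -/
def Stmt_NFX : Prop := ConclNOQ → ConclNFX

end StarkC.ABS
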