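import Pool.Agent.ABS.StN

/-!
# Project ABS (MP_46b841_nt), part N2: nilpotent images with `i ∈ ℚ(χ)`

THEOREM (N2) (helper76).  The conclusions of theorem (N) (`ABS/StN.lean`) hold for every irreducible `ρ` with
nilpotent image and `i ∈ ℚ(χ)` (for example all irreducible characters of `2`-groups with `i ∈ ℚ(χ)`).

PROOF.  As in part N, with the group lemma replaced by MEL: if the image is not abelian there are
`a`, `z` as in NEL.  If a Sylow `p`-subgroup of the image, `p` odd, is not abelian: `NGPx.core`.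
Otherwise the image is `P × O`, `O` central of odd order, `P` a nonabelian `2`-group; MGP: either there is such an
`a` of order `2`, or there is a cyclic normal subgroup `<c>` of `P`, equal to its centraliser, and
`g c g⁻¹ = c^t` with `t = 3` modulo `4`; in the second case MCH gives an automorphism of `ℂ` which fixes
`χ` but not `i`.

Module `X` proves `theorem StarkC.ABS.X_thm : Stmt_X` in the file `Pool/Agent/ABS/X.lean` (import
`Pool.Agent.ABS.StN3` and the finished modules named in the text); helper lemmas in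
`namespace StarkC.ABS.Xx`.  The statements used are hypotheses inside `Stmt_X`.
-/

set_option autoImplicit false

open scoped Classical

namespace StarkC.ABS

open StarkC.MON

/-- The image is nilpotent, and `i` is fixed by the automorphisms which fix the character. -/
def NIm2 {G V : Type} [Group G] [AddCommGroup V] [Module ℂ V] (ρ : Representation ℂ G V) : Prop :=
  (∃ n : ℕ, ∀ g ∈ (⊤ : Subgroup G).lowerCentralSeries n, ρ g = 1) ∧
    ∀ σ : ℂ ≃+* ℂ, (∀ g, σ (ρ.character g) = ρ.character g) → σ Complex.I = Complex.I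

/-! ### Groups -/

/-- MAB (80 lines).  PROOF. `V = {x ∈ A | x ^ 2 = 1}` is a normal subgroup of `P`.  `V` is not
contained in the center `Z` of `P`: `Z` is cyclic, so the `x ∈ Z` with `x ^ 2 = 1` are powers of one of
them (`IsCyclic.card_pow_eq_one_le`, at most two elements), and if they contain `V` then `A` is cyclic by
`RCY_thm` (`ABS/RCY.lean`, `ℓ = 2`; `A` as a commutative group, see the use of RCY in `ABS/RGP.lean`).  `P` is
nilpotent (`IsPGroup.isNilpotent`), its lower central series `P_k` reaches `1`.  Let `k` be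
maximal such that some `a ∈ V`, `a ∉ Z`, is in `P_k`.  For `g ∈ P` the commutator `g⁻¹ a g a⁻¹` is in `V` and in
`P_(k+1)`, so it is in `Z`. -/
def Stmt_MAB : Prop :=
  ∀ (P : Type) [Group P] [Finite P] (A : Subgroup P), IsPGroup 2 P →
    IsCyclic (Subgroup.center P) → A.Normal → (∀ a ∈ A, ∀ b ∈ A, a * b = b * a) → ¬ IsCyclic A →
    ∃ a : P, a ∉ Subgroup.center P ∧ a ^ 2 = 1 ∧
      ∀ g : P, g⁻¹ * a * g * a⁻¹ ∈ Subgroup.center P

/-- MAX (100 lines).  PROOF. `A` = a subgroup of maximal order among the normal abelian ones.  `C` = its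
centraliser (normal, contains `A`).  Suppose `C ≠ A`.  `P` is nilpotent; let `k` be maximal such that some
`v ∈ C`, `v ∉ A`, is in the `k`-th term of the lower central series.  Then `g v g⁻¹ v⁻¹ ∈ A` for all `g`
(it is in `C` and in the next term).  `A ⊔ Subgroup.zpowers v` is abelian (`Subgroup.closure`
induction, or its elements are the `a v^j`, as `v` commutes with `A`), normal
(`g (a v^j) g⁻¹ = (g a g⁻¹) (a' v)^j`), and larger than `A`. -/
def Stmt_MAX : Prop :=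
  ∀ (P : Type) [Group P] [Finite P], Group.IsNilpotent P →
    ∃ A : Subgroup P, A.Normal ∧ (∀ a ∈ A, ∀ b ∈ A, a * b = b * a) ∧
      ∀ x : P, (∀ a ∈ A, x * a = a * x) → x ∈ A

/-- MGP (220 lines), the group lemma.  PROOF. `A` from MAX.  If `A` is not cyclic: MAB.  Let `A` be
generated by `c`, of order `2 ^ n`.  Every `x c x⁻¹` is a power `c ^ s` (`s` odd).  `P ≠ A`; so `n ≥ 2` (for
`n ≤ 1` all `x c x⁻¹ = c`).  If `s % 4 = 3` for some `x`, `s`: the second case (`4 ∣ 2 ^ n`).  Otherwise all these `s` are `1`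
modulo `4`.  `P/A` is a nontrivial `2`-group: let `g ∉ A`, `g ^ 2 ∈ A`.  `g c g⁻¹ = c ^ s`, `s ^ 2 = 1` modulo
`2 ^ n` (`g ^ 2 ∈ A` commutes with `c`), `s + 1 = 2` modulo `4`, so `s = 1` modulo `2 ^ (n - 1)`, and
`s ≠ 1` modulo `2 ^ n` (`g` does not commute with `c`); so `n ≥ 3`,
`s = 1 + 2 ^ (n - 1)` modulo `2 ^ n`, `s + 1 = 2 w` with `w` odd.  `g ^ 2 = c ^ k` commutes with `g`:
`(s - 1) k = 0` modulo `2 ^ n`, so `k = 2 k'`.  `g⁻¹ c g = c ^ s` as well.  Choose `m` with `m w + k' = 0` modulo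
`2 ^ (n - 1)`: `x = g c ^ m` has `x ^ 2 = c ^ (k + m (s + 1)) = 1`, and `x ∉ A`.  For `h ∈ P`: `d = x⁻¹ h⁻¹ x h`
commutes with `c` (conjugations by `x` and `h` act on `A` by powers, so they commute on `A`), so
`d = c ^ j ∈ A`; `(x d) ^ 2 = h⁻¹ x ^ 2 h = 1` and `x c ^ j x⁻¹ = c ^ (j s)` give
`c ^ (j (s + 1)) = 1`, so `2 ^ (n - 1)` divides `j`: `d ^ 2 = 1`, and `d` is central (`y d y⁻¹ = d ^ s' = d`,
`s'` odd).  `h⁻¹ x h x⁻¹ = x d x⁻¹ = d`.  `x` is not central (it would be in `A`). -/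
def Stmt_MGP : Prop :=
  Stmt_MAB → Stmt_MAX →
  ∀ (P : Type) [Group P] [Finite P], IsPGroup 2 P → IsCyclic (Subgroup.center P) →
    (¬ ∀ a b : P, a * b = b * a) →
    (∃ a : P, a ∉ Subgroup.center P ∧ a ^ 2 = 1 ∧
      ∀ g : P, g⁻¹ * a * g * a⁻¹ ∈ Subgroup.center P) ∨
    ∃ (c g : P) (t n : ℕ), 2 ≤ n ∧ orderOf c = 2 ^ n ∧ (∀ x : P, ∃ s : ℕ, x⁻¹ * c * x = c ^ s) ∧
      (∀ x : P, x * c = c * x → ∃ j : ℕ, x = c ^ j) ∧ t % 4 = 3 ∧ g * c * g⁻¹ = c ^ t

/-! ### Representations -/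

/-- MSG (100 lines).  PROOF. `f = ρ g`, `f ^ n = 1`.  For every `μ` with `μ ^ n = 1` let
`p_μ = n⁻¹ ∑_{j < n} μ^(-j) f^j`.  Then `p_μ ^ 2 = p_μ`, `f^t = ∑_μ μ^t p_μ` (sum over the `n`-th roots of
unity; `∑_μ μ^(t - j) = n` if `n ∣ t - j`, else `0`), and the trace of an idempotent is the dimension `d_μ` of
its range (`LinearMap.IsProj.trace`, `LinearMap.IsIdempotentElem...`; see the end of `MON.exists_proj` in
`Stark/MON.lean`).  So `χ(g^t) = ∑ μ^t d_μ = ∑ σ(μ) d_μ = σ(χ g)`. -/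
def Stmt_MSG : Prop :=
  ∀ (G V : Type) [Group G] [AddCommGroup V] [Module ℂ V] [Module.Finite ℂ V]
    (ρ : Representation ℂ G V) (g : G) (n t : ℕ) (σ : ℂ ≃+* ℂ), 0 < n → ρ (g ^ n) = 1 →
    (∀ z : ℂ, z ^ n = 1 → σ z = z ^ t) → σ (ρ.character g) = ρ.character (g ^ t)

/-- The conclusion of SIGT. -/
def ConclSIG : Prop :=
  ∀ (n t : ℕ), 0 < n → n.Coprime t → ∃ σ : ℂ ≃+* ℂ, ∀ z : ℂ, z ^ n = 1 → σ z = z ^ t

/-- MCH (200 lines).  PROOF. (1) `χ x = 0` if `ρ (x c) ≠ ρ (c x)`: `ρ (x⁻¹ c x) = ρ (c ^ s)`;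
`χ x = χ (c^(-m) x c^m) = χ (x c^(m - s m))` for all `m` (integers).  `ρ (c ^ (1 - s)) ≠ 1` is an element of the
cyclic group of order `2 ^ n` generated by `ρ c`, so for some `m` `ρ (c^(m - s m)) = ρ z`,
`z = c ^ (2 ^ (n - 1))`.  `ρ z` commutes with all `ρ x` (`x⁻¹ z x` is `z ^ s`, `s` odd because
`ρ (c ^ s)` has the same order as `ρ c`), so it is a scalar (Schur: `REL.schur` in `ABS/REL.lean`) with square `1`, not `1`:
`ρ z = -1`.  So `χ x = χ (x z) = - χ x`.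
(2) `|G| = 2 ^ N * M`, `M` odd, `N ≥ n ≥ 2` (the order of `ρ c` divides `|G|`).  By the Chinese remainder theorem there is `t'`
with `t' = t` modulo `2 ^ N` and `t' = 1` modulo `M`; it is prime to `|G|` (`t` is odd).  Let `σ z = z ^ t'` for
`z ^ |G| = 1` (ConclSIG).  `σ i = i ^ t' = i ^ 3 = - i` (`4 ∣ |G|`, `t' = 3` modulo `4`).  Let `ρ (x c) = ρ (c x)`,
`ρ x = ρ (c ^ j u)`, `ρ u = ω`, `ω ^ m = 1`, `m` odd, `ω ^ |G| = 1`, so `ω ^ M = 1` and `σ ω = ω`.
`χ x = ω χ (c ^ j)`; `σ (χ (c ^ j)) = χ (c ^ (j t'))` (MSG with `n = |G|`)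
`= χ (c ^ (j t)) = χ (g c^j g⁻¹) = χ (c ^ j)`.  So `σ (χ x) = χ x`. -/
def Stmt_MCH : Prop :=
  ConclSIG → Stmt_MSG →
  ∀ (G V : Type) [Group G] [Fintype G] [AddCommGroup V] [Module ℂ V] [Module.Finite ℂ V]
    (ρ : Representation ℂ G V) (c g : G) (n t : ℕ), Irr ρ → 2 ≤ n → ρ (c ^ (2 ^ n)) = 1 →
    ρ (c ^ (2 ^ (n - 1))) ≠ 1 → (∀ x : G, ∃ s : ℕ, ρ (x⁻¹ * c * x) = ρ (c ^ s)) →
    (∀ x : G, ρ (x * c) = ρ (c * x) → ∃ (j m : ℕ) (u : G), Odd m ∧ ρ (u ^ m) = 1 ∧ IsScal ρ u ∧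
      ρ x = ρ (c ^ j * u)) →
    t % 4 = 3 → ρ (g * c * g⁻¹) = ρ (c ^ t) →
    ∃ σ : ℂ ≃+* ℂ, (∀ x, σ (ρ.character x) = ρ.character x) ∧ σ Complex.I = -Complex.I

/-- MEL (220 lines).  PROOF. `Im ρ` (`ABS/REL.lean`) is nilpotent with cyclic center and not abelian (copy
the beginning of `NEL_thm`, `ABS/NEL.lean`, and the end: lift `a`, `z`).  As in `NGP_thm`
(`ABS/NGP.lean`): `e : (∀ p, ∀ P : Sylow p (Im ρ), P) ≃* Im ρ`, and for every `(p, P)` the maps `i : P →* Im ρ`,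
`c : Im ρ →* P` with `c (i x) = x` and `i x * h = h * i x` if `c h = 1`.  If some `P` with `p ≠ 2` is not abelian:
`NGPx.core`.  Otherwise let `P` be a Sylow `2`-subgroup; it is not abelian (otherwise `Im ρ` is
abelian), it is the only one (`Sylow.unique_of_normal`, the normality from `isNilpotent_of_finite_tfae`), and the `h`
with `c h = 1` are central (all their components are in abelian factors) and have odd order.  The
center of `P` is cyclic (as in `core`).  MGP for `P`.  First case: `i a` and `i z₀` as in `core` (`p = 2`).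
Second case: MCH for lifts to `G` of `i c`, `i g`: conjugation of `i c` by `x` is conjugation by `i (c x)`; if `x`
commutes with `i c` then its component is `c ^ j`, `x = i (c ^ j) h`, `h` central of odd order, so a scalar
(`REL.mem_center`).  This contradicts `NIm2` (`σ I = I`, `I ≠ -I`). -/
def Stmt_MEL : Prop :=
  ConclSIG → Stmt_MSG → Stmt_MCH → Stmt_MAB → Stmt_MAX → Stmt_MGP →
  ∀ (G V : Type) [Group G] [Fintype G] [AddCommGroup V] [Module ℂ V] [Module.Finite ℂ V]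
    (ρ : Representation ℂ G V), Irr ρ → NIm2 ρ → (¬ ∀ g, IsScal ρ g) →
    ∃ (p : ℕ) (a z : G) (ζ : ℂ), p.Prime ∧ ¬ IsScal ρ a ∧ ρ (a ^ p) = 1 ∧
      (∀ y : G, ∃ c : ℂ, ∀ v, ρ (y⁻¹ * a * y) v = c • ρ a v) ∧ IsPrimitiveRoot ζ p ∧
      ∀ v, ρ z v = ζ • v

/-- The conclusion of MEL. -/
def ConclMEL : Prop :=
  ∀ (G V : Type) [Group G] [Fintype G] [AddCommGroup V] [Module ℂ V] [Module.Finite ℂ V]
    (ρ : Representation ℂ G V), Irr ρ → NIm2 ρ → (¬ ∀ g, IsScal ρ g) →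
    ∃ (p : ℕ) (a z : G) (ζ : ℂ), p.Prime ∧ ¬ IsScal ρ a ∧ ρ (a ^ p) = 1 ∧
      (∀ y : G, ∃ c : ℂ, ∀ v, ρ (y⁻¹ * a * y) v = c • ρ a v) ∧ IsPrimitiveRoot ζ p ∧
      ∀ v, ρ z v = ζ • v

/-- MOQ (120 lines).  PROOF. Copy `NOQ_thm` (`ABS/NOQ.lean`), with ConclMEL for NEL.  `NIm2` passes to
`sub ρ H W hW`: the lower central series as in `NSU_thm` (`ABS/NSU.lean`); and if `σ` fixes the character
`θ` of `sub ρ H W hW` then it fixes `χ = indL H θ` (`RAV_thm`; `MON.indL_apply`), so it fixes `i`. -/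
def Stmt_MOQ : Prop :=
  ConclMEL →
  ∀ (G V : Type) [Group G] [Fintype G] [AddCommGroup V] [Module ℂ V] [Module.Finite ℂ V]
    (ρ : Representation ℂ G V), Irr ρ → NIm2 ρ →
    ∃ (H : Subgroup G) (ψ : H →* ℂˣ), ρ.character = indFun H (extZ ψ) ∧
      ∀ σ : ℂ ≃+* ℂ, (∀ g, σ (ρ.character g) = ρ.character g) →
        ∀ h, σ ((ψ h : ℂˣ) : ℂ) = ((ψ h : ℂˣ) : ℂ)

/-- The conclusion of MFX. -/
def ConclMFX : Prop :=
  ∀ (G V : Type) [Group G] [Fintype G] [AddCommGroup V] [Module ℂ V] [Module.Finite ℂ V]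
    (ρ : Representation ℂ G V), Irr ρ → NIm2 ρ →
    ∃ (H : Subgroup G) (ψ : H →* ℂˣ), 0 < orderOf ψ ∧ ρ.character = indFun H (extZ ψ) ∧
      (∀ σ : ℂ ≃+* ℂ, (∀ g, σ (ρ.character g) = ρ.character g) ↔
        ∀ z : ℂ, z ^ orderOf ψ = 1 → σ z = z) ∧
      ∀ (σ : ℂ ≃+* ℂ) (t : ℕ), (∀ z : ℂ, z ^ orderOf ψ = 1 → σ z = z ^ t) →
        ∀ g, σ (ρ.character g) = indFun H (extZ (ψ ^ t)) g

/-- MFX (60 lines), the field of values: copy `NFX_thm` (`ABS/NFX.lean`). -/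
def Stmt_MFX : Prop :=
  (∀ (G V : Type) [Group G] [Fintype G] [AddCommGroup V] [Module ℂ V] [Module.Finite ℂ V]
    (ρ : Representation ℂ G V), Irr ρ → NIm2 ρ →
    ∃ (H : Subgroup G) (ψ : H →* ℂˣ), ρ.character = indFun H (extZ ψ) ∧
      ∀ σ : ℂ ≃+* ℂ, (∀ g, σ (ρ.character g) = ρ.character g) →
        ∀ h, σ ((ψ h : ℂˣ) : ℂ) = ((ψ h : ℂˣ) : ℂ)) → ConclMFX

end StarkC.ABS
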