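import Pool.Agent.ABS.StG1
import Mathlib.LinearAlgebra.Projectivization.PSL.PSL2

/-!
# Project ABS (MP_46b841_nt), part P: the groups `PSL_2(k)` (helper91)

`k` a finite field with `q ≥ 5` elements, `q` odd and not a square, `G ≅ PSL_2(k)`, `e = 1` if
`q ≡ 3` mod `4`, `e = -1` if `q ≡ 1` mod `4`, `ρ` an irreducible representation of dimension
`(q - e)/2`.  THEOREM: `χ = e (Ind_U ψ - Ind_{D₁} 1 + Ind_D 1)`, where `U` is the group of the
unipotent upper triangular matrices, `ψ` a nontrivial character of `U`, `D` the centraliser of an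
involution `z` (a dihedral group of order `q + e`) and `D₁` a subgroup of index two of `D`, different from
the cyclic one `T`.  Also `Tr χ = e (Ind_S 1 - Ind_B 1) + 2 e (Ind_D 1 - Ind_{D₁} 1)`, `S` the diagonal
matrices, `B = U S`, `[ℚ(χ) : ℚ] = 2`.  So the criterion (G) (`StG.lean`, FAS) applies to `ρ`.

Module `X` proves `theorem StarkC.ABS.X_thm : Stmt_X` in the file `Pool/Agent/ABS/X.lean` (import
`Pool.Agent.ABS.StP` only); helper lemmas in `namespace StarkC.ABS.Xx`.  The statements used are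
hypotheses inside `Stmt_X`, so all modules are independent.  The formulas were checked by computer for
`q = 3, 5, 7, 11, 13`.

NOTATION in the proofs: `A_S(g) = #{x | x⁻¹ g x ∈ S}`, so `indFun H 1 g = A_H(g)/|H|`;
`δ : D → ±1` with kernel `D₁`: `δ = 2 · 1_{D₁} - 1_D` on `D`; as `|D| = 2 |D₁|`,
`indFun D₁ 1 g - indFun D 1 g = |D|⁻¹ ∑_{x, x⁻¹ g x ∈ D} δ(x⁻¹ g x)`.
-/

set_option autoImplicit false

open scoped Classical MatrixGroups ComplexConjugate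

namespace StarkC.ABS

/-! ### Abstract data -/

/-- What is needed about `G ≅ PSL_2(k)`. -/
structure PD (k G : Type) [Field k] [Fintype k] [Group G] [Fintype G] (e : ℤ) where
  /-- unipotent elements -/
  u : k → G
  /-- diagonal elements `diag(a⁻¹, a)` -/
  t : kˣ → G
  /-- an involution -/
  z : G
  /-- the cyclic subgroup of index two of the centraliser of `z` -/
  T : Subgroup G
  /-- another subgroup of index two of the centraliser of `z` -/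
  D₁ : Subgroup G
  u_add : ∀ a b, u (a + b) = u a * u b
  u_inj : Function.Injective u
  t_mul : ∀ a b, t (a * b) = t a * t b
  t_one : ∀ a, t a = 1 ↔ a ^ 2 = 1
  t_u : ∀ (a : kˣ) (b : k), (t a)⁻¹ * u b * t a = u ((a : k) ^ 2 * b)
  tu : ∀ (x : G) (b c : k), b ≠ 0 → x⁻¹ * u b * x = u c → ∃ (d : k) (a : kˣ), x = u d * t a
  card : 2 * (Fintype.card G : ℤ) = (Fintype.card k : ℤ) * ((Fintype.card k : ℤ) ^ 2 - 1)
  simple : ∀ N : Subgroup G, N.Normal → u 1 ∈ N → N = ⊤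
  z_sq : z * z = 1
  z_ne : z ≠ 1
  inv_conj : ∀ g : G, g ≠ 1 → g * g = 1 → ∃ x, x⁻¹ * g * x = z
  z_T : z ∈ T
  T_z : ∀ g ∈ T, g * z = z * g
  T_sq : ∀ g ∈ T, g * g = 1 → g = 1 ∨ g = z
  out : ∀ g : G, g * z = z * g → g ∉ T → g * g = 1
  reg : ∀ g ∈ T, g * g ≠ 1 → ∀ x : G, x⁻¹ * g * x * z = z * (x⁻¹ * g * x) → x * z = z * x
  card_T : 2 * (Nat.card T : ℤ) = (Fintype.card k : ℤ) + e
  card_D : (Nat.card (Subgroup.centralizer {z}) : ℤ) = (Fintype.card k : ℤ) + e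
  D₁_z : ∀ g ∈ D₁, g * z = z * g
  card_D₁ : Nat.card D₁ = Nat.card T
  D₁_ne : D₁ ≠ T

/-- The assumptions on `q` and `e`. -/
def GoodQ (k : Type) [Field k] [Fintype k] (e : ℤ) : Prop :=
  5 ≤ Fintype.card k ∧ ((e = 1 ∧ Fintype.card k % 4 = 3) ∨ (e = -1 ∧ Fintype.card k % 4 = 1))

section

variable {k G : Type} [Field k] [Fintype k] [Group G] [Fintype G] {e : ℤ}

/-- The subgroup `U`. -/
def PD.U (d : PD k G e) : Subgroup G where
  carrier := Set.range d.u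
  mul_mem' := by
    rintro _ _ ⟨a, rfl⟩ ⟨b, rfl⟩
    exact ⟨a + b, d.u_add a b⟩
  one_mem' := ⟨0, by
    have h := d.u_add 0 0
    rw [add_zero] at h
    exact (mul_eq_left.1 h.symm)⟩
  inv_mem' := by
    rintro _ ⟨a, rfl⟩
    refine ⟨-a, ?_⟩
    have h0 : d.u 0 = 1 := by
      have h := d.u_add 0 0
      rw [add_zero] at h
      exact (mul_eq_left.1 h.symm)
    rw [eq_inv_iff_mul_eq_one, ← d.u_add, neg_add_cancel, h0]

/-- The subgroup `D`. -/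
def PD.D (d : PD k G e) : Subgroup G := Subgroup.centralizer {d.z}

/-- The function `ψ(b)` at `u b`, zero outside `U`. -/
noncomputable def PD.ext (d : PD k G e) (ψ : AddChar k ℂ) : G → ℂ :=
  fun g => if h : ∃ b, d.u b = g then ψ h.choose else 0

/-- `χ₀ = e (Ind_U ψ - Ind_{D₁} 1 + Ind_D 1)`. -/
noncomputable def PD.chi (d : PD k G e) (ψ : AddChar k ℂ) : G → ℂ :=
  fun g => (e : ℂ) * (indFun d.U (d.ext ψ) g - indFun d.D₁ (fun _ => 1) g +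
    indFun d.D (fun _ => 1) g)

end

/-! ### Characters -/

/-- PFR (50 lines), Frobenius reciprocity.  `φ` a class function: exchange the sums and substitute
`g ↦ x g x⁻¹`: `∑_g φ(g) conj(f̃(x⁻¹ g x)) = ∑_h φ(h) conj(f̃(h))`, `f̃ = f` on `H`, `0` outside. -/
def Stmt_PFR : Prop :=
  ∀ (G : Type) [Group G] [Fintype G] (H : Subgroup G) (φ f : G → ℂ),
    (∀ x g, φ (x⁻¹ * g * x) = φ g) →
    ∑ g, φ g * conj (indFun H f g) =
      (Fintype.card G : ℂ) / (Nat.card H : ℂ) * ∑ g, if g ∈ H then φ g * conj (f g) else 0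

/-- PGS (100 lines), sums of additive characters, `ψ ≠ 0` (nontrivial), `q` odd.
(1) `∑_{b ∈ k} ∑_{a ∈ k^*} ψ(a² b) ψ(-c b) = q #{a | a² = c}`, which is `2 q` if `c ≠ 0` is a square,
and `0` if `c` is no square (`AddChar.sum_mulShift`, or: `b ↦ ψ(x b)` is a nontrivial character for
`x ≠ 0`, and the sum of a nontrivial character is zero: `AddChar.sum_eq_zero_of_ne_one`; `ψ` primitive:
`AddChar.IsPrimitive`).
(2) `∑_{b ≠ 0} |∑_{a ∈ k^*} ψ(a² b)|² = q #{(a, a') | a² = a'²} - (q-1)² = (q - 1)(q + 1)`.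
(3) for `b ≠ 0` and `ν` not a square: `∑_a ψ(a² b) + ∑_a ψ(ν a² b) = 2 ∑_{c ≠ 0} ψ(c b) = -2`. -/
def Stmt_PGS : Prop :=
  ∀ (k : Type) [Field k] [Fintype k] (ψ : AddChar k ℂ), Odd (Fintype.card k) → ψ ≠ 1 →
    (∀ c : k, c ≠ 0 → (IsSquare c →
      ∑ b : k, (∑ a : kˣ, ψ ((a : k) ^ 2 * b)) * ψ (-(c * b)) = 2 * (Fintype.card k : ℂ)) ∧
      (¬ IsSquare c → ∑ b : k, (∑ a : kˣ, ψ ((a : k) ^ 2 * b)) * ψ (-(c * b)) = 0)) ∧
    ∑ b : k, (if b = 0 then 0 else ‖∑ a : kˣ, ψ ((a : k) ^ 2 * b)‖ ^ 2) =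
      ((Fintype.card k : ℝ) - 1) * ((Fintype.card k : ℝ) + 1) ∧
    ∀ ν b : k, ¬ IsSquare ν → b ≠ 0 →
      ∑ a : kˣ, ψ ((a : k) ^ 2 * b) + ∑ a : kˣ, ψ (ν * ((a : k) ^ 2 * b)) = -2

/-- PVU (150 lines), values of `Ind_U ψ`.  `b ≠ 0`: `x⁻¹ u(b) x ∈ U` iff `x = u(d) t(a)` (`tu`, `t_u`), and
then it is `u(a² b)`; every such `x` comes from exactly two pairs `(d, a)` (`u(d) t(a) = u(d') t(a')`:
then `t(a/a')` is in `U`, so it commutes with `u(b)`, so `(a/a')² = 1` by `t_u`, `t(a) = t(a')`, `d = d'`;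
conversely `t(-a) = t(a)` by `t_one`), so `∑_x = ½ ∑_d ∑_a ψ(a² b) = (q/2) ∑_a ψ(a² b)`, `|U| = q`.  At
`1`: `|G|/q`.  On `D \ 1`: the order of `g ∈ D` divides `|D| = q + e`, and `u(b)^q = 1` (`q` is a power of
the characteristic; `u(b)^p = u(p b) = 1`); if `x⁻¹ g x = u(b)` then `g^q = 1` and `g^(q+e) = 1`, so
`g^e = 1`, `g = 1`. -/
def Stmt_PVU : Prop :=
  ∀ (k G : Type) [Field k] [Fintype k] [Group G] [Fintype G] (e : ℤ) (d : PD k G e)
    (ψ : AddChar k ℂ), GoodQ k e →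
    indFun d.U (d.ext ψ) 1 = ((Fintype.card k : ℂ) ^ 2 - 1) / 2 ∧
    (∀ b : k, b ≠ 0 → indFun d.U (d.ext ψ) (d.u b) = (∑ a : kˣ, ψ ((a : k) ^ 2 * b)) / 2) ∧
    (∀ g : G, g * d.z = d.z * g → g ≠ 1 → indFun d.U (d.ext ψ) g = 0) ∧
    (∀ (b : k) (x : G), b ≠ 0 → ¬ (x⁻¹ * d.u b * x * d.z = d.z * (x⁻¹ * d.u b * x)))

/-- PVD (200 lines), the values of `E = Ind_{D₁} 1 - Ind_D 1` on `D`, where `D = centraliser of z`.
`E(g) = |D|⁻¹ ∑_{x, x⁻¹ g x ∈ D} δ(x⁻¹ g x)` (NOTATION above; `|D| = 2 |T| = 2 |D₁|`).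
(a) `E(1) = |G|/|D| = q (q - e)/2`.
(b) `g ∈ T`, `g² ≠ 1`: `x⁻¹ g x ∈ D` iff `x ∈ D` (`reg`), and `δ(x⁻¹ g x) = δ(g)` (`D₁` has index two
in `D`, so it is normal in `D`): `E(g) = δ(g)`.
(c) `g = z`: `x⁻¹ z x ∈ D` is an involution `y`; for every involution `y ∈ D` there are exactly `|D|`
elements `x` with `x⁻¹ z x = y` (`inv_conj`; a coset of `D`).  So `E(z) = ∑_{y ∈ D, y² = 1, y ≠ 1} δ(y)`
`= δ(z) + ∑_{y ∈ D \ T} δ(y)` (`out`, `T_sq`), and the last sum is `0`: `T ∩ D₁` has index two in `T`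
(`T ≠ D₁`, both of index two in `D`, so `T D₁ = D`), so `D₁ \ T` and `D \ (T ∪ D₁)` both have
`|T|/2` elements.
(d) `g ∈ D \ T`: an involution, conjugate to `z`, so `E(g) = E(z) = δ(z)`. -/
def Stmt_PVD : Prop :=
  ∀ (k G : Type) [Field k] [Fintype k] [Group G] [Fintype G] (e : ℤ) (d : PD k G e),
    GoodQ k e →
    indFun d.D₁ (fun _ => 1) 1 - indFun d.D (fun _ => 1) 1 =
      (Fintype.card k : ℂ) * ((Fintype.card k : ℂ) - (e : ℂ)) / 2 ∧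
    (∀ g ∈ d.T, g ≠ 1 → indFun d.D₁ (fun _ => 1) g - indFun d.D (fun _ => 1) g =
      if g ∈ d.D₁ then 1 else -1) ∧
    (∀ g : G, g * d.z = d.z * g → g ∉ d.T →
      indFun d.D₁ (fun _ => 1) g - indFun d.D (fun _ => 1) g = if d.z ∈ d.D₁ then 1 else -1) ∧
    ∑ g : G, (if g * d.z = d.z * g ∧ g ∉ d.T then (if g ∈ d.D₁ then (1 : ℂ) else -1) else 0) = 0

/-- PNO (150 lines), the norm and the values of `χ₀`.  `χ₀` is a class function.  On `U`: PVU and, as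
no `u(b)`, `b ≠ 0`, is conjugate to an element of `D`, `Ind_{D₁} 1` and `Ind_D 1` vanish at `u(b)`.  At `1`:
`e ((q²-1)/2 - q(q-e)/2) = (q - e)/2` (`e² = 1`).  NORM: PFR with `φ = χ₀` and the three terms:
`∑ χ₀ conj χ₀ = e [(|G|/q) ∑_b χ₀(u b) conj ψ(b) - (|G|/|D|) ∑_{g ∈ D} δ(g) χ₀(g)]`.
First sum: `(q-e)/2 + (e/2) ∑_{b ≠ 0} ∑_a ψ(a² b) ψ(-b) = (q-e)/2 + (e/2)(2 q - (q-1)) = q (1+e)/2`
(PGS (1) for `c = 1`, the term `b = 0` is `q - 1`).  Second sum: by PVD and PVU `χ₀(g) = - e δ(g)` for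
`g ∈ T \ 1` and `- e δ(z)` on `D \ T`, so it is
`(q-e)/2 - e (|T| - 1) - e δ(z) · 0 = (q - 1)(1 - e)/2`.
Total: `e |G| [(1+e)/2 - (q-1)(1-e)/(2 (q+e))] = |G|` for `e = 1` and for `e = -1`. -/
def Stmt_PNO : Prop :=
  Stmt_PFR → Stmt_PGS → Stmt_PVU → Stmt_PVD →
  ∀ (k G : Type) [Field k] [Fintype k] [Group G] [Fintype G] (e : ℤ) (d : PD k G e)
    (ψ : AddChar k ℂ), GoodQ k e → ψ ≠ 1 →
    (∀ x g, d.chi ψ (x⁻¹ * g * x) = d.chi ψ g) ∧
    d.chi ψ 1 = ((Fintype.card k : ℂ) - (e : ℂ)) / 2 ∧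
    (∀ b : k, b ≠ 0 → d.chi ψ (d.u b) = (e : ℂ) / 2 * ∑ a : kˣ, ψ ((a : k) ^ 2 * b)) ∧
    ∑ g, d.chi ψ g * conj (d.chi ψ g) = (Fintype.card G : ℂ)

/-- PRU (250 lines), the restriction of `ρ` to `U`.  `P_ψ = q⁻¹ ∑_b ψ(-b) ρ(u b)` for
`ψ : AddChar k ℂ`: projections with sum `1` (orthogonality and number of the characters,
`AddChar.card_eq`, `AddChar.sum_apply_eq_ite`), `ρ(u b) = ∑_ψ ψ(b) P_ψ`; `m_ψ = tr P_ψ` is a natural number
and `P_ψ = 0` if `m_ψ = 0` (trace of a projection = rank).  So `χ(u b) = ∑_ψ m_ψ ψ(b)`, `∑_ψ m_ψ = dim V`.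
Not all `m_ψ`, `ψ ≠ 1`, are zero, otherwise `ρ(u b) = P_1 = 1` for all `b`, so `u 1` is in the kernel of
`ρ`, which is `⊤` (`simple`).  Fix `ψ₁ ≠ 1`; every `ψ` is `b ↦ ψ₁(c b)` for exactly one `c`; let `m(c)` be
its `m_ψ`.  Conjugation with `t(a)`: `m(a² c) = m(c)` (`χ(u(a² b)) = χ(u b)`).  So `m` is constant on the
`(q-1)/2` squares `≠ 0` and on the `(q-1)/2` other elements `≠ 0`: `M₁`, `M₂`,
`m(0) + (M₁ + M₂)(q-1)/2 = dim V = (q-e)/2 < q - 1`, and `M₁ + M₂ ≥ 1`; so `M₁ + M₂ = 1` and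
`m(0) = (1-e)/2`.  Let `m(c₀) = 1`, `c₀ ≠ 0`: `χ(u b) = m(0) + ½ ∑_a ψ₁(c₀ a² b)`.  If `e = 1` take
`ψ = ψ₁(c₀ ·)`.  If `e = -1` take `ψ = ψ₁(c₀ ν ·)`, `ν` not a square: PGS (3). -/
def Stmt_PRU : Prop :=
  Stmt_PGS →
  ∀ (k G V : Type) [Field k] [Fintype k] [Group G] [Fintype G] (e : ℤ) (d : PD k G e)
    [AddCommGroup V] [Module ℂ V] [Module.Finite ℂ V] (ρ : Representation ℂ G V), GoodQ k e →
    2 * (Module.finrank ℂ V : ℤ) = (Fintype.card k : ℤ) - e → (¬ ∀ g, ρ g = 1) →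
    ∃ ψ : AddChar k ℂ, ψ ≠ 1 ∧
      ∀ b : k, b ≠ 0 → ρ.character (d.u b) = (e : ℂ) / 2 * ∑ a : kˣ, ψ ((a : k) ^ 2 * b)

/-- PIN (120 lines), integrality.  By PFR (`φ = χ`), as in PNO:
`∑ χ conj χ₀ = e |G| [q⁻¹ ∑_b χ(u b) conj ψ(b) - |D₁|⁻¹ ∑_{D₁} χ + |D|⁻¹ ∑_D χ]`.  The first term is
`(1 + e)/2` (computed in PNO, from the values on `U`), and `|H|⁻¹ ∑_{h ∈ H} χ(h)` is the dimension of
the invariants of `H` (`Representation.average_char_eq_finrank_invariants` for the restriction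
`ρ.comp H.subtype`, or: the average is a projection, its trace is its rank). -/
def Stmt_PIN : Prop :=
  Stmt_PFR → Stmt_PGS →
  ∀ (k G V : Type) [Field k] [Fintype k] [Group G] [Fintype G] (e : ℤ) (d : PD k G e)
    [AddCommGroup V] [Module ℂ V] [Module.Finite ℂ V] (ρ : Representation ℂ G V)
    (ψ : AddChar k ℂ), GoodQ k e →
    2 * (Module.finrank ℂ V : ℤ) = (Fintype.card k : ℤ) - e → ψ ≠ 1 →
    (∀ b : k, b ≠ 0 → ρ.character (d.u b) = (e : ℂ) / 2 * ∑ a : kˣ, ψ ((a : k) ^ 2 * b)) →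
    ∃ N : ℤ, ∑ g, ρ.character g * conj (d.chi ψ g) = (Fintype.card G : ℂ) * (N : ℂ)

/-- PEQ (200 lines), IDENTIFICATION: `χ = χ₀`.  `∑ |χ|² = |G|` (`ρ` irreducible:
`Representation.char_orthonormal`, `χ(g⁻¹) = conj χ(g)`), `∑ |χ₀|² = |G|` (PNO), so for `f = χ - χ₀`:
`∑ |f|² = 2 |G| (1 - N)` with `N` from PIN.  Claim `∑ |f|² < 2 |G|`; then `N > 0`, `N ≥ 1`,
`∑ |f|² ≤ 0`, `f = 0`.  PROOF of the claim: `S` = the set of the elements conjugate to some `u(b)`,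
`b ≠ 0`; `f = 0` on `S` (PRU, PNO), so
`∑ |f|² ≤ ∑_{g ∉ S} 2 (|χ|² + |χ₀|²) = 2 (2 |G| - 2 ∑_S |χ|²)`, and `∑_S |χ|² > |G|/2`: for
`F = |χ|²`, `∑_g F(g) #{x | x⁻¹ g x ∈ U \ 1} = |G| ∑_{b ≠ 0} F(u b)` and
`#{x | x⁻¹ g x ∈ U \ 1} ≤ q (q - 1)/2` for all `g`, `= 0` outside `S` (`tu`: if `x₀⁻¹ g x₀ = u(b)`,
then `x₀⁻¹ x = u(d) t(a)`; `q` values of `d`, at most `(q-1)/2` elements `t(a)`, as `t(-a) = t(a)`);
`∑_{b ≠ 0} F(u b) = (q-1)(q+1)/4` (PGS (2)).  So `∑_S F ≥ |G| (q+1)/(2 q) > |G|/2`. -/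
def Stmt_PEQ : Prop :=
  Stmt_PGS → Stmt_PNO → Stmt_PIN → Stmt_PFR → Stmt_PVU → Stmt_PVD →
  ∀ (k G V : Type) [Field k] [Fintype k] [Group G] [Fintype G] (e : ℤ) (d : PD k G e)
    [AddCommGroup V] [Module ℂ V] [Module.Finite ℂ V] (ρ : Representation ℂ G V)
    (ψ : AddChar k ℂ), GoodQ k e → ρ.IsIrreducible →
    2 * (Module.finrank ℂ V : ℤ) = (Fintype.card k : ℤ) - e → ψ ≠ 1 →
    (∀ b : k, b ≠ 0 → ρ.character (d.u b) = (e : ℂ) / 2 * ∑ a : kˣ, ψ ((a : k) ^ 2 * b)) →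
    ∀ g, ρ.character g = d.chi ψ g

/-! ### The field of values -/

/-- PSQ (120 lines), squares.  `q = p^a` with `a` odd (`FiniteField.card`; `q` is not a square).
`t ∈ F_p^*` is a square in `k` iff `t^((q-1)/2) = 1` (`FiniteField.isSquare_iff`), and
`(q-1)/2 = ((p-1)/2)(1 + p + ... + p^(a-1))`, where the second factor is odd and `t^((p-1)/2) = ±1`: iff
`t^((p-1)/2) = 1`, iff `t` is a square in `ZMod p` (Euler); half of the `p - 1` classes are.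
Second part: for `t` prime to `p` there are two `a ∈ k^*` with `t a² = c` if `t` and `c` are both
squares or both not squares in `k` (the squares have index two in `k^*`), and none otherwise: in all
`2 (p-1)/2`. -/
def Stmt_PSQ : Prop :=
  ∀ (k : Type) [Field k] [Fintype k], Odd (Fintype.card k) → ¬ IsSquare (Fintype.card k) →
    2 * (((Finset.range (ringChar k)).filter fun t => (ringChar k).Coprime t).filter
      fun t : ℕ => IsSquare (t : k)).card = ringChar k - 1 ∧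
    ∀ (c : k), c ≠ 0 → ∀ f : k → ℂ, ∑ t ∈ (Finset.range (ringChar k)).filter
        (fun t => (ringChar k).Coprime t), ∑ a : kˣ, (if (t : k) * (a : k) ^ 2 = c then f c else 0) =
      ((ringChar k : ℂ) - 1) * f c

/-- PPM (200 lines), the conjugates of `Ind_U ψ`.  `p` = the characteristic, `t < p` prime to `p`;
`ψ^t = ψ(t ·)`.
(1) if `t` is a square in `k`, `Ind_U ψ^t = Ind_U ψ` (substitute `x ↦ x t(s)⁻¹`, `s² = t`; `t_u`).
(2) if `Ind_U ψ^t` and `Ind_U ψ` agree on all `u(b)`, `b ≠ 0`, then `t` is a square (PVU; also at `b = 0`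
the sums `∑_a ψ(t a² b)` and `∑_a ψ(a² b)` agree; multiply by `ψ(-t b)` and sum over `b`: PGS (1) for
`ψ(t ·)`, `c = 1` gives `2 q`, and for `ψ`, `c = t` gives `0` if `t` is no square).  The same for
`ψ⁻¹ = ψ(- ·)` and `-1` in place of `t`.
(3) `∑_t Ind_U ψ^t = (p-1)/2 (Ind_S 1 - Ind_B 1)`, `S` = the range of `t`, `B = {u(c) t(a)}`: both sides are
`((p-1)/(q-1)) (A_1 - A_U/q)`.  LEFT: `Ind_U ψ^t = Ind_U (ψ(t a² ·))` for all `a`, so it is
`(q-1)⁻¹ ∑_a q⁻¹ ∑_x ψ~(t a² ·)(x⁻¹ g x)`; summed over `t` every `c ∈ k^*` occurs `p - 1` times as `t a²`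
(PSQ), and `∑_{c ≠ 0} ψ(c b) = q [b = 0] - 1`.  RIGHT: `|S| = (q-1)/2`, `|B| = q (q-1)/2`, and
`A_{B \ U} = q A_{S \ 1}` since `u(d) t(a) u(d)⁻¹ = u((1 - a^(-2)) d) t(a)` runs through `U t(a)` once if
`a² ≠ 1` (`B \ U` is the disjoint union of the `u(d) (S \ 1) u(d)⁻¹`; `S ∩ U = 1` as in PVU). -/
def Stmt_PPM : Prop :=
  Stmt_PGS → Stmt_PVU → Stmt_PSQ →
  ∀ (k G : Type) [Field k] [Fintype k] [Group G] [Fintype G] (e : ℤ) (d : PD k G e)
    (ψ : AddChar k ℂ), GoodQ k e → ¬ IsSquare (Fintype.card k) → ψ ≠ 1 →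
    (∀ t : ℕ, (ringChar k).Coprime t → IsSquare (t : k) →
      ∀ g, indFun d.U (d.ext (ψ ^ t)) g = indFun d.U (d.ext ψ) g) ∧
    (∀ t : ℕ, (ringChar k).Coprime t → (∀ b : k, b ≠ 0 →
      indFun d.U (d.ext (ψ ^ t)) (d.u b) = indFun d.U (d.ext ψ) (d.u b)) → IsSquare (t : k)) ∧
    ((∀ b : k, b ≠ 0 → indFun d.U (d.ext ψ) (d.u (-b)) = indFun d.U (d.ext ψ) (d.u b)) →
      IsSquare (-1 : k)) ∧
    ∃ S B : Subgroup G, ∀ g, ∑ t ∈ (Finset.range (ringChar k)).filter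
        (fun t => (ringChar k).Coprime t), indFun d.U (d.ext (ψ ^ t)) g =
      ((ringChar k : ℂ) - 1) / 2 * (indFun S (fun _ => 1) g - indFun B (fun _ => 1) g)

/-- PUH (80 lines).  `ψ` as a homomorphism `U →* ℂˣ`, of order dividing `p`, and its powers. -/
def Stmt_PUH : Prop :=
  ∀ (k G : Type) [Field k] [Fintype k] [Group G] [Fintype G] (e : ℤ) (d : PD k G e)
    (ψ : AddChar k ℂ), ∃ ψ' : d.U →* ℂˣ, ψ' ^ (ringChar k) = 1 ∧
      ∀ t : ℕ, ∀ g ∈ d.U, extZ (ψ' ^ t) g = d.ext (ψ ^ t) g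

/-- PTR (200 lines), the conclusion for `χ₀`.  MonC: three terms (PUH; `extZ 1` and `fun _ => 1` give the
same `indFun`; `indFun` depends only on the values on the subgroup).  `hF` (which is FCH) for `n = p`,
`m = 1`, `r = 3`: a number `e'` with `e' [F : ℚ] = p - 1`; `e'` counts the `t` with `σ χ₀ = χ₀` for the
`σ` acting as `z ↦ z^t` (there is one: `hsig`): `σ χ₀ = e (Ind_U ψ^t - Ind_{D₁} 1 + Ind_D 1)`, so by PPM
(1), (2) exactly the squares in `k`, `2 e' = p - 1` (PSQ), `[F : ℚ] = 2`, and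
`e' Tr χ₀ = e (∑_t Ind_U ψ^t - (p-1)(Ind_{D₁} 1 - Ind_D 1))`, so
`Tr χ₀ = e (Ind_S 1 - Ind_B 1) - 2 e (Ind_{D₁} 1 - Ind_D 1)` (PPM (3)).  Not real if `q ≡ 3` mod `4`:
`-1` is no square (`FiniteField.isSquare_neg_one_iff`); if all values were real, then
`χ₀(u b) = conj χ₀(u b) = χ₀(u(-b))`, so by PNO or PVU the hypothesis of PPM (third part). -/
def Stmt_PTR : Prop :=
  Stmt_PFR → Stmt_PGS → Stmt_PVU → Stmt_PVD → Stmt_PNO → Stmt_PSQ → Stmt_PPM → Stmt_PUH →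
  (∀ n t : ℕ, 0 < n → n.Coprime t → ∃ σ : ℂ ≃+* ℂ, ∀ z : ℂ, z ^ n = 1 → σ z = z ^ t) →
  (∀ (G : Type) [Group G] [Fintype G] (n m r : ℕ) (χ : G → ℂ) (H : Fin r → Subgroup G)
    (ψ : ∀ i, H i →* ℂˣ) (c : Fin r → ℤ), 0 < n → 0 < m → (∀ i, ψ i ^ n = 1) →
    (∀ g, (m : ℂ) * χ g = ∑ i, (c i : ℂ) * indFun (H i) (extZ (ψ i)) g) →
    ∃ e : ℕ, 0 < e ∧
      e = (((Finset.range n).filter fun t => n.Coprime t).filter fun t => ∀ σ : ℂ ≃+* ℂ,
        (∀ z : ℂ, z ^ n = 1 → σ z = z ^ t) → ∀ g, σ (χ g) = χ g).card ∧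
      e * Module.finrank ℚ (StarkP.charField χ) = n.totient ∧
      ∀ g, ((m * e : ℕ) : ℂ) * StarkP.trChar χ g = ∑ i, (c i : ℂ) *
        ∑ t ∈ (Finset.range n).filter (fun t => n.Coprime t), indFun (H i) (extZ (ψ i ^ t)) g) →
  ∀ (k G : Type) [Field k] [Fintype k] [Group G] [Fintype G] (e : ℤ) (d : PD k G e)
    (ψ : AddChar k ℂ), GoodQ k e → ¬ IsSquare (Fintype.card k) → ψ ≠ 1 →
    MonC (ringChar k) (d.chi ψ) ∧ PermC (StarkP.trChar (d.chi ψ)) ∧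
      Module.finrank ℚ (StarkP.charField (d.chi ψ)) = 2 ∧
      (e = 1 → ∃ g, (d.chi ψ g).im ≠ 0)

/-! ### Matrices -/

section

variable (k : Type) [Field k]

/-- `(0 -1; 1 0)` -/
def mJ : SL(2, k) := ⟨!![0, -1; 1, 0], by simp [Matrix.det_fin_two]⟩

variable {k}

/-- `(1 b; 0 1)` -/
def mU (b : k) : SL(2, k) := ⟨!![1, b; 0, 1], by simp [Matrix.det_fin_two]⟩

/-- `(a⁻¹ 0; 0 a)` -/
def mT (a : kˣ) : SL(2, k) := ⟨!![((a⁻¹ : kˣ) : k), 0; 0, (a : k)], by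
  simp [Matrix.det_fin_two]⟩

/-- `π` identifies `G` with `SL_2(k)/{1, -1}`. -/
def IsPi {G : Type} [Group G] (π : SL(2, k) →* G) : Prop :=
  Function.Surjective π ∧ ∀ x : SL(2, k), π x = 1 ↔
    ((x : Matrix (Fin 2) (Fin 2) k) = 1 ∨ (x : Matrix (Fin 2) (Fin 2) k) = -1)

end

/-- PM1 (150 lines).  `π X = π Y` iff `Y = ± X`.  `tu`: `x = π X`, `X⁻¹ mU(b) X = ± mU(c)`, the sign is
`+` by the trace (`2 = -2` is impossible, `q` odd); `mU(b) X = X mU(c)`, `X = (α β; γ δ)`: `b γ = 0`, so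
`γ = 0`, `α δ = 1` and `X = mU(β/δ) mT(δ)`. -/
def Stmt_PM1 : Prop :=
  ∀ (k G : Type) [Field k] [Fintype k] [Group G] [Fintype G] (π : SL(2, k) →* G), IsPi π →
    Odd (Fintype.card k) →
    (∀ a b : k, π (mU (a + b)) = π (mU a) * π (mU b)) ∧
    (Function.Injective fun b : k => π (mU b)) ∧
    (∀ a b : kˣ, π (mT (a * b)) = π (mT a) * π (mT b)) ∧
    (∀ a : kˣ, π (mT a) = 1 ↔ a ^ 2 = 1) ∧
    (∀ (a : kˣ) (b : k), (π (mT a))⁻¹ * π (mU b) * π (mT a) = π (mU ((a : k) ^ 2 * b))) ∧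
    ∀ (x : G) (b c : k), b ≠ 0 → x⁻¹ * π (mU b) * x = π (mU c) →
      ∃ (d : k) (a : kˣ), x = π (mU d) * π (mT a)

/-- PM2 (200 lines).  `g = π M`, `g² = 1`, `g ≠ 1`: `M² = ± 1`; `M² = 1`, i.e. `M = M⁻¹`, gives `M = ± 1`
(`q` odd), so `M² = -1`, `M = - M⁻¹`, `M = (a b; c -a)`, `-a² - b c = 1`.  There is `v = (p, r)` with
`det(v, M v) = c p² - 2 a p r - b r² = 1`: if `c ≠ 0`, then `c` times it is `(c p - a r)² + r²`, and every
element of `k` is a sum of two squares (`FiniteField.exists_root_sum_quadratic`, or `ZMod.sq_add_sq` for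
its proof); if `c = 0`: `r = 1`, `p = (-1 - b)/(2 a)`.  `X = (v | M v)` has determinant `1` and
`M X = X mJ` (`M² = -1`).  `X mJ = ± mJ X` if `π X` commutes with `π mJ`; `X mJ = - mJ X` iff
`X = (a b; b -a)`, and then `X² = -1`.  The last part: `X = a + b mJ` (`a² + b² = 1`), `a b ≠ 0` as
`(π X)² ≠ 1`; `Y⁻¹ X Y = a + b Y⁻¹ mJ Y` commutes or anticommutes with `mJ`; its trace `2 a ≠ 0`, so it
commutes: it is `a' + b' mJ`, `a' = a`, `Y⁻¹ mJ Y = (b'/b) mJ`, and squares: `b' = ± b`.  The group of the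
`X` with `X mJ = mJ X` is the centraliser of `mJ`; its elements are `(a -b; b a)`. -/
def Stmt_PM2 : Prop :=
  ∀ (k G : Type) [Field k] [Fintype k] [Group G] [Fintype G] (π : SL(2, k) →* G), IsPi π →
    Odd (Fintype.card k) →
    π (mJ k) * π (mJ k) = 1 ∧ π (mJ k) ≠ 1 ∧
    (∀ g : G, g ≠ 1 → g * g = 1 → ∃ x, x⁻¹ * g * x = π (mJ k)) ∧
    (∀ g ∈ (Subgroup.centralizer {mJ k}).map π, g * g = 1 → g = 1 ∨ g = π (mJ k)) ∧
    (∀ g : G, g * π (mJ k) = π (mJ k) * g → g ∉ (Subgroup.centralizer {mJ k}).map π → g * g = 1) ∧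
    ∀ g ∈ (Subgroup.centralizer {mJ k}).map π, g * g ≠ 1 → ∀ x : G,
      x⁻¹ * g * x * π (mJ k) = π (mJ k) * (x⁻¹ * g * x) → x * π (mJ k) = π (mJ k) * x

/-- PM3 (100 lines).  `|SL_2(k)| = q (q² - 1)`: from `Matrix.card_GL_field` (`SL_2` is the kernel of the
surjective `det`), or directly: the `X` with first column `v ≠ 0` are `q` many.  `π` has kernel
`{1, -1}` (two elements, `q` odd). -/
def Stmt_PM3 : Prop :=
  ∀ (k G : Type) [Field k] [Fintype k] [Group G] [Fintype G] (π : SL(2, k) →* G), IsPi π →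
    Odd (Fintype.card k) →
    2 * (Fintype.card G : ℤ) = (Fintype.card k : ℤ) * ((Fintype.card k : ℤ) ^ 2 - 1)

/-- PM4 (200 lines).  `C` = the centraliser of `mJ`: the `(a -b; b a)` with `a² + b² = 1`; their number
is `q + e`: if `q ≡ 3` mod `4` (`-1` no square) they are `(1, 0)` and
`((s² - 1)/(s² + 1), 2 s/(s² + 1))`, `s ∈ k` (or: the norm map of the quadratic extension is
surjective); if `q ≡ 1` mod `4`, `i² = -1`: `(a + i b)(a - i b) = 1`, a bijection with `k^*`.  `C.map π` has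
`(q + e)/2` elements (`π` is two to one on `C`).  The centraliser of `π mJ` is the image of `C` and of
the set of the `X` with `X mJ = - mJ X`, a coset `s C`, `s = (a b; b -a)` with `a² + b² = -1` (sum of two
squares), not in `C`; `π s ∉ C.map π` (`- s ∉ C`). -/
def Stmt_PM4 : Prop :=
  ∀ (k G : Type) [Field k] [Fintype k] [Group G] [Fintype G] (e : ℤ) (π : SL(2, k) →* G),
    IsPi π → GoodQ k e →
    2 * (Nat.card ((Subgroup.centralizer {mJ k}).map π) : ℤ) = (Fintype.card k : ℤ) + e ∧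
    (Nat.card (Subgroup.centralizer {π (mJ k)}) : ℤ) = (Fintype.card k : ℤ) + e

/-- PM5 (150 lines).  `T = C.map π` is commutative (`C` is: `(a -b; b a)`).  `s = (a b; b -a)` with
`a² + b² = -1` (sum of two squares): `s² = -1`, `s X s⁻¹ = X⁻¹` for `X ∈ C`.  Squaring `T → T` is a
homomorphism with kernel `{1, π mJ}` (PM2, part 4; two elements), so its range `T²` has `|T|/2`
elements.  `D₁ = T² ∪ π(s) T²` is a subgroup with `|T|` elements in the centraliser of `π mJ`, and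
`π s ∈ D₁`, `π s ∉ T`. -/
def Stmt_PM5 : Prop :=
  Stmt_PM2 →
  ∀ (k G : Type) [Field k] [Fintype k] [Group G] [Fintype G] (π : SL(2, k) →* G), IsPi π →
    Odd (Fintype.card k) →
    ∃ D₁ : Subgroup G, (∀ g ∈ D₁, g * π (mJ k) = π (mJ k) * g) ∧
      Nat.card D₁ = Nat.card ((Subgroup.centralizer {mJ k}).map π) ∧
      D₁ ≠ (Subgroup.centralizer {mJ k}).map π

/-- PM6 (120 lines).  The data for `G ≅ PSL(2, k)`: `π` = the quotient map
`SL(2, k) → PSL(2, k)` followed by the isomorphism; the center is `{1, -1}`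
(`Matrix.SpecialLinearGroup.mem_center_iff`).  `simple`: `PSL(2, k)` is simple
(`Matrix.ProjectiveSpecialLinearGroup.rank_two_simple`, `q ≥ 4`), so `G` is
(`MulEquiv.isSimpleGroup`), and `u 1 ≠ 1` (`u` is injective, `u 0 = 1`). -/
def Stmt_PM6 : Prop :=
  Stmt_PM1 → Stmt_PM2 → Stmt_PM3 → Stmt_PM4 → Stmt_PM5 →
  ∀ (k G : Type) [Field k] [Fintype k] [Group G] [Fintype G] (e : ℤ), GoodQ k e →
    Nonempty (G ≃* PSL(2, k)) → Nonempty (PD k G e)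

/-- PSL (80 lines), the end: PM6, PRU (`ρ` is not trivial: it is irreducible of dimension
`(q - e)/2 ≥ 2`), PEQ (`χ = χ₀`, as functions), PTR. -/
def Stmt_PSL : Prop :=
  Stmt_PM6 → Stmt_PRU → Stmt_PEQ → Stmt_PFR → Stmt_PGS → Stmt_PVU → Stmt_PVD → Stmt_PNO →
  Stmt_PIN → Stmt_PM1 → Stmt_PM2 → Stmt_PM3 → Stmt_PM4 → Stmt_PM5 →
  (∀ (k G : Type) [Field k] [Fintype k] [Group G] [Fintype G] (e : ℤ) (d : PD k G e)
    (ψ : AddChar k ℂ), GoodQ k e → ¬ IsSquare (Fintype.card k) → ψ ≠ 1 →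
    MonC (ringChar k) (d.chi ψ) ∧ PermC (StarkP.trChar (d.chi ψ)) ∧
      Module.finrank ℚ (StarkP.charField (d.chi ψ)) = 2 ∧
      (e = 1 → ∃ g, (d.chi ψ g).im ≠ 0)) →
  ∀ (k G V : Type) [Field k] [Fintype k] [Group G] [Fintype G] [AddCommGroup V] [Module ℂ V]
    [Module.Finite ℂ V] (ρ : Representation ℂ G V), 5 ≤ Fintype.card k →
    ¬ IsSquare (Fintype.card k) → Nonempty (G ≃* PSL(2, k)) → ρ.IsIrreducible →
    (Fintype.card k % 4 = 3 ∧ 2 * Module.finrank ℂ V + 1 = Fintype.card k ∨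
      Fintype.card k % 4 = 1 ∧ 2 * Module.finrank ℂ V = Fintype.card k + 1) →
    MonC (ringChar k) ρ.character ∧ PermC (StarkP.trChar ρ.character) ∧
      Module.finrank ℚ (StarkP.charField ρ.character) = 2 ∧
      (Fintype.card k % 4 = 3 → ∃ g, (ρ.character g).im ≠ 0)

end StarkC.ABS
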