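import Pool.Agent.ABS.StP
import Mathlib.LinearAlgebra.Matrix.GeneralLinearGroup.Projective

/-!
# Project ABS (MP_46b841_nt), part Q: all characters of `PSL_2(k)` and `PGL_2(k)` (helper91)

`k` a finite field with `q` elements, `G ≅ PGL_2(k)` (`d = 1`) or `G ≅ PSL_2(k)` (`d = 2` if `q` is
odd, `d = 1` if `q` is even), `U` the upper triangular unipotent matrices, `T` the diagonal matrices,
`N` the nonsplit torus, of orders `q`, `(q-1)/d`, `(q+1)/d`, `B = U T`, `|G| = q (q² - 1)/d`.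
`τ = Ind_T 1 - Ind_B 1`; `pr ψ = Ind_T ψ - τ` (degree `q + 1`, it is induced from `B`), `ψ` a
character of `T`; `ds φ = τ - Ind_N φ` (degree `q - 1`), `φ` a character of `N`.
THEOREM: every irreducible character `χ` of `G` is `pr ψ` with `ψ² ≠ 1`, or `ds φ` with `φ² ≠ 1`, or an
integral combination of permutation characters, or (`d = 2`) of degree `(q ± 1)/2` (part P).  In the first
two cases, with `r` the order of `ψ` (`φ`): `χ` is a combination of `Ind_H ψ'`, `ψ'^r = 1`;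
`2 [ℚ(χ) : ℚ] = φ(r)`; `χ` is real; and `Tr χ` is a combination of permutation characters.  All
formulas were checked by computer for `q ≤ 13`.

No character table is used: the `pr ψ`, `ds φ` have norm `1` (`2` if `ψ² = 1`), and the
multiplicities of `ρ` in them satisfy `∑_ψ n(ψ) = a₀`, `∑_φ m(φ) = |N| s - dim ρ`,
`dim ρ = a₀ + |T| s`, `a₀ = dim ρ^U`, `s = (τ, ρ)`; so some `n(ψ)` or `m(φ)` is positive.

Module `X` proves `theorem StarkC.ABS.X_thm : Stmt_X` in the file `Pool/Agent/ABS/X.lean` (import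
`Pool.Agent.ABS.StQ` only); helper lemmas in `namespace StarkC.ABS.Xx`.  The statements used are
hypotheses inside `Stmt_X`, so all modules are independent.
-/

set_option autoImplicit false

open scoped Classical MatrixGroups ComplexConjugate

namespace StarkC.ABS

/-! ### Abstract data -/

/-- A commutative subgroup `T` and an involution `w` which inverts it, such that `x ∈ T ∪ w T` if
`x⁻¹ t x ∈ T` for some `t ∈ T`, `t ≠ 1`. -/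
structure Dih {G : Type} [Group G] (T : Subgroup G) (w : G) : Prop where
  comm : ∀ a ∈ T, ∀ b ∈ T, a * b = b * a
  sq : w * w = 1
  inv : ∀ t ∈ T, w * t * w = t⁻¹
  not_mem : w ∉ T
  fus : ∀ t ∈ T, t ≠ 1 → ∀ x, x⁻¹ * t * x ∈ T → x ∈ T ∨ w * x ∈ T

/-- What is needed about `PGL_2(k)` (`d = 1`) and `PSL_2(k)` (`d = 2` for odd `q`). -/
structure TB (G : Type) [Group G] [Fintype G] (q d : ℕ) where
  U : Subgroup G
  T : Subgroup G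
  N : Subgroup G
  B : Subgroup G
  w : G
  v : G
  card : (d : ℤ) * (Fintype.card G : ℤ) = (q : ℤ) * ((q : ℤ) ^ 2 - 1)
  card_U : Nat.card U = q
  card_T : (d : ℤ) * (Nat.card T : ℤ) = (q : ℤ) - 1
  card_N : (d : ℤ) * (Nat.card N : ℤ) = (q : ℤ) + 1
  mem_B : ∀ g, g ∈ B ↔ ∃ u ∈ U, ∃ t ∈ T, g = u * t
  U_comm : ∀ a ∈ U, ∀ b ∈ U, a * b = b * a
  T_cyc : IsCyclic T
  N_cyc : IsCyclic N
  T_U : ∀ t ∈ T, ∀ u ∈ U, t⁻¹ * u * t ∈ U
  free : ∀ t ∈ T, ∀ u ∈ U, t ≠ 1 → t⁻¹ * u * t = u → u = 1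
  w_sq : w * w = 1
  w_T : ∀ t ∈ T, w * t * w = t⁻¹
  w_B : w ∉ B
  v_sq : v * v = 1
  v_N : ∀ y ∈ N, v * y * v = y⁻¹
  v_not : v ∉ N
  fus_U : ∀ u ∈ U, u ≠ 1 → ∀ x, x⁻¹ * u * x ∈ B → x ∈ B
  fus_T : ∀ t ∈ T, t ≠ 1 → ∀ x, x⁻¹ * t * x ∈ B → x ∈ B ∨ w * x ∈ B
  fus_N : ∀ y ∈ N, y ≠ 1 → ∀ x, x⁻¹ * y * x ∈ N → x ∈ N ∨ v * x ∈ N
  N_B : ∀ y ∈ N, y ≠ 1 → ∀ x, x⁻¹ * y * x ∉ B

section

variable {G : Type} [Group G] [Fintype G] {q d : ℕ}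

/-- `τ = Ind_T 1 - Ind_B 1`. -/
noncomputable def TB.tau (b : TB G q d) : G → ℂ :=
  fun g => indFun b.T (fun _ => 1) g - indFun b.B (fun _ => 1) g

/-- The principal series `Ind_T ψ - τ`. -/
noncomputable def TB.pr (b : TB G q d) (ψ : b.T →* ℂˣ) : G → ℂ :=
  fun g => indFun b.T (extZ ψ) g - b.tau g

/-- The discrete series `τ - Ind_N φ`. -/
noncomputable def TB.ds (b : TB G q d) (φ : b.N →* ℂˣ) : G → ℂ :=
  fun g => b.tau g - indFun b.N (extZ φ) g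

end

/-! ### Values and norms -/

/-- QDH (50 lines).  `T`, `w` and `N`, `v`.  `fus` for `T`: `x⁻¹ t x ∈ T ⊆ B`, so `x ∈ B` or `w x ∈ B`
(`fus_T`).  If `x = u s ∈ B` (`u ∈ U`, `s ∈ T`), then `u⁻¹ t u ∈ T`, and `u⁻¹ t u t⁻¹ = u⁻¹ (t u t⁻¹)` is in
`U`, so in `U ∩ T = 1` (if `g ∈ U ∩ T`, `g ≠ 1`, then `g⁻¹ g g = g` contradicts `free`), i.e. `t⁻¹ u t = u`
and `u = 1`, `x ∈ T`.  If `w x ∈ B`: `x = w b` and `x⁻¹ t x = b⁻¹ t⁻¹ b`, the same for `t⁻¹`.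
Also `U ∩ T = 1` and `|B| = q |T|` (unique decomposition). -/
def Stmt_QDH : Prop :=
  ∀ (G : Type) [Group G] [Fintype G] (q d : ℕ) (b : TB G q d),
    Dih b.T b.w ∧ Dih b.N b.v ∧ (∀ g ∈ b.U, g ∈ b.T → g = 1) ∧ Nat.card b.B = q * Nat.card b.T

/-- QVT (60 lines), values of `Ind_T ψ` on `T`: `{x | x⁻¹ t x ∈ T} = T ∪ w T` (disjoint), where
`x⁻¹ t x` is `t` on `T` and `t⁻¹` on `w T`. -/
def Stmt_QVT : Prop :=
  ∀ (G : Type) [Group G] [Fintype G] (T : Subgroup G) (w : G) (ψ : T →* ℂˣ), Dih T w →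
    ∀ t ∈ T, t ≠ 1 → indFun T (extZ ψ) t = extZ ψ t + (extZ ψ t)⁻¹

/-- QVB (100 lines), other values.  At `1`: `indFun H f 1 = f 1 |G|/|H|`.  `Ind_B 1` at `t ∈ T`, `t ≠ 1`:
`{x | x⁻¹ t x ∈ B} = B ∪ w B` (`fus_T`; conversely `t ∈ B`, `w t w = t⁻¹`), two disjoint sets of `|B|`
elements (`w ∉ B`); at `u ∈ U`, `u ≠ 1`: `{x | x⁻¹ u x ∈ B} = B` (`fus_U`).  No conjugate of `u` is in `T`: it
would be in `B`, so `x ∈ B`, `x⁻¹ u x ∈ U` (`T_U`, `U_comm`), and `U ∩ T = 1`.  `N_B` for the rest (`T`, `U`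
are in `B`): no conjugate of `t` or `u` is in `N`, no conjugate of `y ∈ N`, `y ≠ 1`, in `T` or `B`. -/
def Stmt_QVB : Prop :=
  Stmt_QDH → Stmt_QVT →
  ∀ (G : Type) [Group G] [Fintype G] (q d : ℕ) (b : TB G q d),
    (∀ t ∈ b.T, t ≠ 1 → b.tau t = 0 ∧ ∀ φ : b.N →* ℂˣ, indFun b.N (extZ φ) t = 0) ∧
    (∀ u ∈ b.U, u ≠ 1 → b.tau u = -1 ∧ (∀ ψ : b.T →* ℂˣ, indFun b.T (extZ ψ) u = 0) ∧
      ∀ φ : b.N →* ℂˣ, indFun b.N (extZ φ) u = 0) ∧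
    (∀ y ∈ b.N, y ≠ 1 → b.tau y = 0 ∧ ∀ ψ : b.T →* ℂˣ, indFun b.T (extZ ψ) y = 0) ∧
    (∀ ψ : b.T →* ℂˣ, indFun b.T (extZ ψ) 1 = (Fintype.card G : ℂ) / (Nat.card b.T : ℂ)) ∧
    (∀ φ : b.N →* ℂˣ, indFun b.N (extZ φ) 1 = (Fintype.card G : ℂ) / (Nat.card b.N : ℂ)) ∧
    b.tau 1 = (q : ℂ) ^ 2 - 1

/-- QBB (100 lines), the elements of `B`.  `B \ U` consists of the `v t v⁻¹`, `v ∈ U`, `t ∈ T`, `t ≠ 1`, each
once: `v t v⁻¹ = (v (t v⁻¹ t⁻¹)) t` and `v ↦ v (t v⁻¹ t⁻¹)` is an injective map `U → U` (`free`, `U_comm`).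
Second part: the first one for the class function `F(y) = #{x | x⁻¹ g x = y}` (or the same
substitution) gives `#{x | x⁻¹ g x ∈ B} = #{x | x⁻¹ g x ∈ U} + q #{x | x⁻¹ g x ∈ T \ 1}`, and
`|B| = q |T|`. -/
def Stmt_QBB : Prop :=
  Stmt_QDH →
  ∀ (G : Type) [Group G] [Fintype G] (q d : ℕ) (b : TB G q d),
    (∀ F : G → ℂ, (∀ x g, F (x⁻¹ * g * x) = F g) →
      ∑ g, (if g ∈ b.B then F g else 0) = ∑ g, (if g ∈ b.U then F g else 0) +
        (q : ℂ) * ∑ g, (if g ∈ b.T ∧ g ≠ 1 then F g else 0)) ∧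
    ∀ g : G, (if g = 1 then (Fintype.card G : ℂ) else 0) =
      indFun b.U (fun _ => 1) g + (Nat.card b.T : ℂ) * b.tau g

/-- QNT (150 lines), norms; notation `(f, h) = ∑ f conj h / |G|`.  PFR: `(F, Ind_H f) =
|H|⁻¹ ∑_{H} F conj f` for class functions `F` (all functions here are class functions).  With QVT, QVB,
QBB, `t = |T|`, `n = |N|`, `g = |G|`, `τ(1) = q² - 1`, `|B| = q t`:
`(Ind_T ψ, Ind_T ψ) = t⁻¹ (g/t + ∑_{T \ 1} (1 + ψ⁻²)) = g/t² + 1 + [ψ² = 1] - 2/t`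
(`∑_T ψ⁻² = t [ψ² = 1]`), `(τ, Ind_T ψ) = τ(1)/t`,
`(τ, τ) = τ(1)/t - (τ(1) - (q - 1))/(q t)` (QBB: `τ` is `-1` on `U \ 1` and `0` on `T \ 1`),
`(τ, Ind_N φ) = τ(1)/n`, `(Ind_N φ, Ind_N φ) = g/n² + 1 + [φ² = 1] - 2/n`.  The sums are
`1 + [ψ² = 1]` and `1 + [φ² = 1]` by `card`, `card_T`, `card_N` (`g/t = q (q+1)`, `g/n = q (q-1)`,
`d t = q - 1`, `d n = q + 1`).  Then `pr 1 = Ind_B 1`, so `(ds 1, pr 1) =
|B|⁻¹ (ds 1 (1) - (q - 1)) = 0` with `ds 1 (1) = q - 1`, and `(Ind_H 1, 1) = 1` for all `H`. -/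
def Stmt_QNT : Prop :=
  Stmt_PFR → Stmt_QDH → Stmt_QVT → Stmt_QVB → Stmt_QBB →
  ∀ (G : Type) [Group G] [Fintype G] (q d : ℕ) (b : TB G q d),
    (∀ ψ : b.T →* ℂˣ, ∑ g, b.pr ψ g * conj (b.pr ψ g) =
      (Fintype.card G : ℂ) * (if ψ ^ 2 = 1 then 2 else 1)) ∧
    (∀ φ : b.N →* ℂˣ, ∑ g, b.ds φ g * conj (b.ds φ g) =
      (Fintype.card G : ℂ) * (if φ ^ 2 = 1 then 2 else 1)) ∧
    ∑ g, b.ds 1 g * conj (b.pr 1 g) = 0 ∧ ∑ g, b.pr 1 g = (Fintype.card G : ℂ) ∧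
    ∑ g, b.ds 1 g = -(Fintype.card G : ℂ) ∧
    (∀ g, b.pr 1 g = indFun b.B (fun _ => 1) g) ∧ b.pr 1 1 = (q : ℂ) + 1

/-- QD1 (40 lines).  `ds 1 = pr 1 - 2`: with QNT, `∑ |ds 1 - pr 1 + 2|² = |G| (2 + 2 + 4 - 0 - 4 - 4) = 0`
(`pr 1`, `ds 1` are real: `indFun` of `1` and of `extZ 1` is real). -/
def Stmt_QD1 : Prop :=
  (∀ (G : Type) [Group G] [Fintype G] (q d : ℕ) (b : TB G q d),
    (∀ ψ : b.T →* ℂˣ, ∑ g, b.pr ψ g * conj (b.pr ψ g) =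
      (Fintype.card G : ℂ) * (if ψ ^ 2 = 1 then 2 else 1)) ∧
    (∀ φ : b.N →* ℂˣ, ∑ g, b.ds φ g * conj (b.ds φ g) =
      (Fintype.card G : ℂ) * (if φ ^ 2 = 1 then 2 else 1)) ∧
    ∑ g, b.ds 1 g * conj (b.pr 1 g) = 0 ∧ ∑ g, b.pr 1 g = (Fintype.card G : ℂ) ∧
    ∑ g, b.ds 1 g = -(Fintype.card G : ℂ) ∧
    (∀ g, b.pr 1 g = indFun b.B (fun _ => 1) g) ∧ b.pr 1 1 = (q : ℂ) + 1) →
  ∀ (G : Type) [Group G] [Fintype G] (q d : ℕ) (b : TB G q d) (g : G), b.ds 1 g = b.pr 1 g - 2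

/-! ### Characters -/

/-- QDU (60 lines), characters of a cyclic group `T`: with a generator `x` and `ζ` a primitive root of
unity of order `|T|` there is one `ψ_j` with `ψ_j x = ζ^j` for each `j < |T|`.  A character is determined by
its value at `x`, so one with `ψ² = 1`, `ψ ≠ 1` has the value `-1` there; if `|T|` is odd, `ψ² = 1` implies
`ψ = 1` (`ψ^|T| = 1`). -/
def Stmt_QDU : Prop :=
  ∀ (G : Type) [Group G] [Fintype G] (T : Subgroup G), IsCyclic T →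
    (∃ f : Fin (Nat.card T) → (T →* ℂˣ), Function.Injective f ∧
      ∀ t : T, ∑ i, ((f i t : ℂˣ) : ℂ) = if t = 1 then (Nat.card T : ℂ) else 0) ∧
    (∀ ψ ψ' : T →* ℂˣ, ψ ^ 2 = 1 → ψ ≠ 1 → ψ' ^ 2 = 1 → ψ' ≠ 1 → ψ = ψ') ∧
    (Odd (Nat.card T) → ∀ ψ : T →* ℂˣ, ψ ^ 2 = 1 → ψ = 1)

/-- QIN (80 lines), multiplicities.  PFR (`φ = χ`, `f = extZ ψ`, and complex conjugation):
`(χ, Ind_H ψ) = |H|⁻¹ ∑_{h ∈ H} χ(h) conj ψ(h)` is the trace of the projection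
`|H|⁻¹ ∑_h ψ(h)⁻¹ ρ(h)`, so its rank. -/
def Stmt_QIN : Prop :=
  Stmt_PFR →
  ∀ (G V : Type) [Group G] [Fintype G] [AddCommGroup V] [Module ℂ V] [Module.Finite ℂ V]
    (ρ : Representation ℂ G V) (H : Subgroup G) (ψ : H →* ℂˣ),
    ∃ n : ℕ, ∑ g, ρ.character g * conj (indFun H (extZ ψ) g) = (Fintype.card G : ℂ) * (n : ℂ)

/-- QEQ (60 lines).  `ρ` irreducible: `∑ |χ|² = |G|` (`Representation.char_orthonormal`,
`χ(g⁻¹) = conj χ(g)`; see `PEQx.sum_self`, `PEQx.char_inv` in `ABS/PEQ.lean`).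
`∑ |χ - f|² = |G| (1 - 2 n + 1) ≤ 0`. -/
def Stmt_QEQ : Prop :=
  ∀ (G V : Type) [Group G] [Fintype G] [AddCommGroup V] [Module ℂ V] [Module.Finite ℂ V]
    (ρ : Representation ℂ G V) (f : G → ℂ) (n : ℤ), ρ.IsIrreducible →
    ∑ g, f g * conj (f g) = (Fintype.card G : ℂ) →
    ∑ g, ρ.character g * conj (f g) = (Fintype.card G : ℂ) * (n : ℂ) → 1 ≤ n →
    ∀ g, ρ.character g = f g

/-- The multiplicities of `ρ` in the `pr ψ` and `ds φ`. -/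
def Mult {G V : Type} [Group G] [Fintype G] {q d : ℕ} (b : TB G q d) [AddCommGroup V] [Module ℂ V]
    (ρ : Representation ℂ G V) (a₀ : ℕ) (s : ℤ) (n : (b.T →* ℂˣ) → ℤ)
    (m : (b.N →* ℂˣ) → ℤ) : Prop :=
  (∀ ψ, ∑ g, ρ.character g * conj (b.pr ψ g) = (Fintype.card G : ℂ) * (n ψ : ℂ)) ∧
  (∀ φ, ∑ g, ρ.character g * conj (b.ds φ g) = (Fintype.card G : ℂ) * (m φ : ℂ)) ∧
  (Module.finrank ℂ V : ℤ) = a₀ + Nat.card b.T * s ∧
  (∃ f : Fin (Nat.card b.T) → (b.T →* ℂˣ), Function.Injective f ∧ (a₀ : ℤ) = ∑ i, n (f i)) ∧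
  ∃ f : Fin (Nat.card b.N) → (b.N →* ℂˣ), Function.Injective f ∧
    (Nat.card b.N : ℤ) * s - Module.finrank ℂ V = ∑ i, m (f i)

/-- QCA (150 lines).  `a₀ = (χ, Ind_U 1)`, `s = (χ, τ)`, `n ψ = (χ, pr ψ)`, `m φ = (χ, ds φ)` are integers by
QIN (with `ψ = 1` for `U`, `T`, `B`; `extZ 1` and `fun _ => 1` give the same `indFun`), `a₀ ≥ 0`.
`χ(1) = dim V` and QBB (second part): `dim V = a₀ + |T| s`.  With the family `f` of QDU:
`∑_i Ind_T f_i = ` (`|G|` at `1`, `0` elsewhere), so `∑_i pr f_i = |G| δ_1 - |T| τ = Ind_U 1` and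
`∑_i ds f_i = |N| τ - |G| δ_1`; take the inner product with `χ`. -/
def Stmt_QCA : Prop :=
  Stmt_QDH → Stmt_QBB → Stmt_QDU →
  (∀ (G V : Type) [Group G] [Fintype G] [AddCommGroup V] [Module ℂ V] [Module.Finite ℂ V]
    (ρ : Representation ℂ G V) (H : Subgroup G) (ψ : H →* ℂˣ),
    ∃ n : ℕ, ∑ g, ρ.character g * conj (indFun H (extZ ψ) g) = (Fintype.card G : ℂ) * (n : ℂ)) →
  ∀ (G V : Type) [Group G] [Fintype G] (q d : ℕ) (b : TB G q d) [AddCommGroup V] [Module ℂ V]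
    [Module.Finite ℂ V] (ρ : Representation ℂ G V),
    ∃ (a₀ : ℕ) (s : ℤ) (n : (b.T →* ℂˣ) → ℤ) (m : (b.N →* ℂˣ) → ℤ), Mult b ρ a₀ s n m

/-- The conclusions of QNT, QD1, QCA, for the next modules. -/
def QBase : Prop :=
  (∀ (G : Type) [Group G] [Fintype G] (q d : ℕ) (b : TB G q d),
    (∀ ψ : b.T →* ℂˣ, ∑ g, b.pr ψ g * conj (b.pr ψ g) =
      (Fintype.card G : ℂ) * (if ψ ^ 2 = 1 then 2 else 1)) ∧
    (∀ φ : b.N →* ℂˣ, ∑ g, b.ds φ g * conj (b.ds φ g) =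
      (Fintype.card G : ℂ) * (if φ ^ 2 = 1 then 2 else 1)) ∧
    ∑ g, b.ds 1 g * conj (b.pr 1 g) = 0 ∧ ∑ g, b.pr 1 g = (Fintype.card G : ℂ) ∧
    ∑ g, b.ds 1 g = -(Fintype.card G : ℂ) ∧
    (∀ g, b.pr 1 g = indFun b.B (fun _ => 1) g) ∧ b.pr 1 1 = (q : ℂ) + 1) ∧
  (∀ (G : Type) [Group G] [Fintype G] (q d : ℕ) (b : TB G q d) (g : G),
    b.ds 1 g = b.pr 1 g - 2) ∧
  (∀ (G V : Type) [Group G] [Fintype G] [AddCommGroup V] [Module ℂ V] [Module.Finite ℂ V]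
    (ρ : Representation ℂ G V) (H : Subgroup G) (ψ : H →* ℂˣ),
    ∃ n : ℕ, ∑ g, ρ.character g * conj (indFun H (extZ ψ) g) = (Fintype.card G : ℂ) * (n : ℂ))

/-- QC1 (150 lines), the classification, first part.  If `n ψ ≥ 1` with `ψ² ≠ 1`: QEQ, `χ = pr ψ`.  The same
for `m φ ≥ 1`, `φ² ≠ 1`.  `c = (χ, 1) ≥ 0` is an integer (QIN, `H = ⊤`, `ψ = 1`); if `c ≥ 1`, then
`χ = 1` (QEQ for `f = 1`).  Let `c = 0`.  If `n 1 ≥ 1`: QEQ for `f = pr 1 - 1`, which has norm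
`2 - 2 + 1 = 1` and `(χ, f) = n 1`.  If `m 1 ≥ 1`: `(χ, pr 1) = m 1 + 2 c ≥ 1` by QD1.  Otherwise
the last case. -/
def Stmt_QC1 : Prop :=
  QBase → Stmt_QEQ →
  ∀ (G V : Type) [Group G] [Fintype G] (q d : ℕ) (b : TB G q d) [AddCommGroup V] [Module ℂ V]
    [Module.Finite ℂ V] (ρ : Representation ℂ G V) (a₀ : ℕ) (s : ℤ) (n : (b.T →* ℂˣ) → ℤ)
    (m : (b.N →* ℂˣ) → ℤ), Mult b ρ a₀ s n m → ρ.IsIrreducible →
    (∃ ψ : b.T →* ℂˣ, ψ ^ 2 ≠ 1 ∧ ∀ g, ρ.character g = b.pr ψ g) ∨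
    (∃ φ : b.N →* ℂˣ, φ ^ 2 ≠ 1 ∧ ∀ g, ρ.character g = b.ds φ g) ∨
    PermC ρ.character ∨
    ((∀ ψ : b.T →* ℂˣ, (ψ ^ 2 ≠ 1 ∨ ψ = 1) → n ψ ≤ 0) ∧
      ∀ φ : b.N →* ℂˣ, (φ ^ 2 ≠ 1 ∨ φ = 1) → m φ ≤ 0)

/-- QC2 (150 lines), the half characters (`d = 2`, so `q` is odd, `|N| = |T| + 1`).  By QNT and
Cauchy-Schwarz (`∑ |χ|² = |G|`) `n ψ ≤ 1` and `m φ ≤ 1` if `ψ² = 1`, `φ² = 1` (`n² ≤ 2`).  In the family of
`Mult` at most one `ψ` has `ψ² = 1`, `ψ ≠ 1` (QDU), and none if `|T|` is odd; so `a₀ ≤ 1`, `a₀ ≤ 0` if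
`|T|` is odd; the same for `|N| s - dim V`.
`q ≡ 3` mod `4` (`|T|` odd): `a₀ = 0`, `dim V = |T| s > 0`, `s ≥ 1` and `s = |N| s - dim V ≤ 1`; so
`dim V = |T|`.  `q ≡ 1` mod `4` (`|N|` odd): `s - a₀ = |N| s - dim V ≤ 0`, so `a₀ = 0` would give `s ≤ 0`
and `dim V ≤ 0`; `a₀ = 1`, `s ≤ 1`, `s ≥ 0` as `dim V = 1 + |T| s ≥ 1`; `s = 0` would give `dim V = 1`,
and `ρ = 1` by `hperf`, but then `n 1 = (1, pr 1) = 1`.  So `dim V = 1 + |T|`. -/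
def Stmt_QC2 : Prop :=
  QBase → Stmt_QDU →
  ∀ (G V : Type) [Group G] [Fintype G] (q : ℕ) (b : TB G q 2) [AddCommGroup V] [Module ℂ V]
    [Module.Finite ℂ V] (ρ : Representation ℂ G V) (a₀ : ℕ) (s : ℤ) (n : (b.T →* ℂˣ) → ℤ)
    (m : (b.N →* ℂˣ) → ℤ), Mult b ρ a₀ s n m → ρ.IsIrreducible → commutator G = ⊤ →
    (∀ ψ : b.T →* ℂˣ, (ψ ^ 2 ≠ 1 ∨ ψ = 1) → n ψ ≤ 0) →
    (∀ φ : b.N →* ℂˣ, (φ ^ 2 ≠ 1 ∨ φ = 1) → m φ ≤ 0) →
    (q % 4 = 3 ∧ 2 * Module.finrank ℂ V + 1 = q ∨ q % 4 = 1 ∧ 2 * Module.finrank ℂ V = q + 1)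

/-- A subgroup `P` of index two, containing `U`, `w`, `v`, but not `T` or `N` (the kernel of the
sign character of `PGL_2(k)`, `q` odd). -/
structure TS {G : Type} [Group G] [Fintype G] {q d : ℕ} (b : TB G q d) (P : Subgroup G) : Prop where
  index : P.index = 2
  U_le : b.U ≤ P
  w_mem : b.w ∈ P
  v_mem : b.v ∈ P
  T_not : ¬ b.T ≤ P
  N_not : ¬ b.N ≤ P

/-- QC3 (200 lines), `d = 1`, `|N| = |T| + 2`: the last case of QC1 gives PermC as well.  Some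
`n ψ ≥ 1` or `m φ ≥ 1`: otherwise `a₀ ≤ 0`, `a₀ = 0`, `2 s = |N| s - dim V ≤ 0`, `dim V = |T| s ≤ 0`.  So
there is such a `ψ` or `φ` with `ψ² = 1`, `ψ ≠ 1`; this is impossible if `|T|` (and `|N|`) is odd (QDU), and
if there is `P`, it is the restriction `ψ₂`, `φ₂` of `sgn` (`1` on `P`, `-1` outside; a homomorphism, as
the index is two; QDU: uniqueness).  `Ind_T ψ₂ = sgn Ind_T 1`, `Ind_N φ₂ = sgn Ind_N 1`, `sgn τ = τ`
(by QBB `|T| τ(g) = |G| δ_1(g) - Ind_U 1 (g)`, and the conjugates of the elements of `U` are in `P`), so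
`pr ψ₂ = sgn pr 1` and `ds φ₂ = sgn ds 1 = pr ψ₂ - 2 sgn` (QD1).  `c = (χ, sgn) ≥ 0` is an integer
(QIN for `H = ⊤`).  So `n ψ₂ ≥ 1` in both cases.  If `c ≥ 1`: `χ = sgn` (QEQ).  If `c = 0`:
`f = pr ψ₂ - sgn` has `∑ |f|² = |G| (2 - 2 + 1)` (`(pr ψ₂, sgn) = (pr 1, 1) = 1`), so `χ = f` (QEQ).
PermC: `sgn = Ind_P 1 - Ind_⊤ 1`, `Ind_T ψ₂ = Ind_{T ⊓ P} 1 - Ind_T 1`, `τ`. -/
def Stmt_QC3 : Prop :=
  QBase → Stmt_QEQ → Stmt_QDU → Stmt_QDH → Stmt_QBB →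
  ∀ (G V : Type) [Group G] [Fintype G] (q : ℕ) (b : TB G q 1) [AddCommGroup V] [Module ℂ V]
    [Module.Finite ℂ V] (ρ : Representation ℂ G V) (a₀ : ℕ) (s : ℤ) (n : (b.T →* ℂˣ) → ℤ)
    (m : (b.N →* ℂˣ) → ℤ), Mult b ρ a₀ s n m → ρ.IsIrreducible →
    (Even q ∨ ∃ P : Subgroup G, TS b P) →
    (∀ ψ : b.T →* ℂˣ, (ψ ^ 2 ≠ 1 ∨ ψ = 1) → n ψ ≤ 0) →
    (∀ φ : b.N →* ℂˣ, (φ ^ 2 ≠ 1 ∨ φ = 1) → m φ ≤ 0) → PermC ρ.character

/-! ### The field of values -/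

/-- QDI (200 lines), dihedral groups.  `r = orderOf ψ`, `K_c = ker (ψ^(r/c))` for `c ∣ r` (index `c` in
`T`, `T/K_c` is cyclic), `D_c = K_c ∪ w K_c`, a subgroup of order `2 |K_c|` (`w ∉ T`).
CLAIM: `∑_t Ind_T ψ^t = 2 ∑_{c ∣ r} μ(r/c) Ind_(D_c) 1`.  (Checked by computer.)
PROOF.  At `g`: `Ind_(D_c) 1 (g) = (c / (2 |T|)) (#{x | x⁻¹ g x ∈ K_c} + #{x | x⁻¹ g x ∈ w K_c})`.
The first parts give the left side, as `∑_t ψ(y)^t = ∑_{c ∣ r, y ∈ K_c} μ(r/c) c` for `y ∈ T` (Ramanujan sum: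
if `ψ(y)` has order `r/a`, `a ∣ r`, then `y ∈ K_c` iff `c ∣ a`; the sum over the `t` prime to `r` is by
Moebius inversion; this is `UEX`-like, see `ABS/UEX.lean`, `ABS/VCF.lean`).
The second parts cancel: let `M(y) = #{x | x⁻¹ g x = w y}`, `y ∈ T`.  `M(y t²) = M(y)` for `t ∈ T`
(`t⁻¹ (w y) t = w y t²`; substitute `x ↦ x t`).  Let `S(K) = ∑_{y ∈ K} M(y)`.  If `c` is odd, `K_c T² = T`
(the index of `K_c` is odd, `T/T²` is a `2`-group), so `K_c` meets all cosets of `T²` equally and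
`c S(K_c) = S(T)`.  If `c` is even, `K_c T² = K_2` (`T/K_c` is cyclic of order `c`), so
`c S(K_c) = 2 S(K_2)`.  So the sum is `S(T) ∑_{c odd} μ(r/c) + 2 S(K_2) ∑_{c even} μ(r/c)`, and both sums
are zero: for all `c ∣ r` it is `0` (`r > 1`); the even `c = 2 c'`: `∑_{c' ∣ r/2} μ((r/2)/c') = 0` as
`r/2 > 1`. -/
def Stmt_QDI : Prop :=
  ∀ (G : Type) [Group G] [Fintype G] (T : Subgroup G) (w : G) (ψ : T →* ℂˣ), Dih T w →
    3 ≤ orderOf ψ → ∃ θ : G → ℂ, PermC θ ∧ ∀ g,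
      ∑ t ∈ (Finset.range (orderOf ψ)).filter (fun t => (orderOf ψ).Coprime t),
        indFun T (extZ (ψ ^ t)) g = 2 * θ g

/-- The conclusion for the characters `± Ind_T ψ + R`. -/
def OutQ {G : Type} [Group G] [Fintype G] (χ : G → ℂ) : Prop :=
  ∃ r : ℕ, 3 ≤ r ∧ MonC r χ ∧ PermC (StarkP.trChar χ) ∧
    2 * Module.finrank ℚ (StarkP.charField χ) = r.totient ∧ ∀ g, conj (χ g) = χ g

/-- QTR (200 lines), the field of values of `χ = e Ind_T ψ + R`.  `r = orderOf ψ`.  MonC: the terms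
`(T, ψ, e)` and those of `R` with `ψ = 1`.  Real: `Ind_T ψ⁻¹ = Ind_T ψ` (substitute `x ↦ w x`... or: QVT
type argument: `x⁻¹ g x ∈ T` iff `(x w)⁻¹ g (x w) ∈ T`, and the value is inverted) and
`conj (Ind_T ψ) = Ind_T ψ⁻¹`.  `hF` (which is FCH) for `n = r`, `m = 1` and the same terms gives `e'` with
`e' [ℚ(χ) : ℚ] = φ(r)`; `e'` counts the `t ∈ Ex r` with `σ χ = χ` for the `σ` acting as `z ↦ z^t` (there
is one: `hsig`); `σ χ = e Ind_T ψ^t + R`.  `t = 1` and `t = r - 1` are such (`r ≥ 3`: different).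
Conversely let `ψ y = ζ` be of order `r` (the range of `ψ` is a cyclic group of order `r`); `y ≠ 1` and
QVT at `y`: `ζ^t + ζ^(-t) = ζ + ζ⁻¹`, so `ζ^t = ζ` or `ζ⁻¹`.  So `e' = 2`, and
`2 Tr χ = e ∑_t Ind_T ψ^t + φ(r) R = 2 e θ + φ(r) R` with QDI, `φ(r) = 2 [ℚ(χ) : ℚ]`: PermC. -/
def Stmt_QTR : Prop :=
  Stmt_QVT → Stmt_QDI →
  (∀ n t : ℕ, 0 < n → n.Coprime t → ∃ σ : ℂ ≃+* ℂ, ∀ z : ℂ, z ^ n = 1 → σ z = z ^ t) →
  (∀ (G : Type) [Group G] [Fintype G] (n m r : ℕ) (χ : G → ℂ) (H : Fin r → Subgroup G)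
    (ψ : ∀ i, H i →* ℂˣ) (c : Fin r → ℤ), 0 < n → 0 < m → (∀ i, ψ i ^ n = 1) →
    (∀ g, (m : ℂ) * χ g = ∑ i, (c i : ℂ) * indFun (H i) (extZ (ψ i)) g) →
    ∃ e : ℕ, 0 < e ∧
      e = (((Finset.range n).filter fun t => n.Coprime t).filter fun t => ∀ σ : ℂ ≃+* ℂ,
        (∀ z : ℂ, z ^ n = 1 → σ z = z ^ t) → ∀ g, σ (χ g) = χ g).card ∧
      e * Module.finrank ℚ (StarkP.charField χ) = n.totient ∧
      ∀ g, ((m * e : ℕ) : ℂ) * StarkP.trChar χ g = ∑ i, (c i : ℂ) *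
        ∑ t ∈ (Finset.range n).filter (fun t => n.Coprime t), indFun (H i) (extZ (ψ i ^ t)) g) →
  ∀ (G : Type) [Group G] [Fintype G] (T : Subgroup G) (w : G) (ψ : T →* ℂˣ) (e : ℤ)
    (R χ : G → ℂ), Dih T w → 3 ≤ orderOf ψ → (e = 1 ∨ e = -1) → PermC R →
    (∀ g, χ g = (e : ℂ) * indFun T (extZ ψ) g + R g) → OutQ χ

/-- QSQ (150 lines), the half characters when `q` is a square (`e = -1`): `Ind_U ψ` is a combination
of permutation characters.  `p = ringChar k`, `F_p^*` consists of squares of `k` (`q = p^(2j)`; a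
generator `t₀` of `F_p^*`, as a natural number, `t₀^(p-1) = 1` in `k` and `(q-1)/2` is a multiple of
`p - 1`: `FiniteField.isSquare_iff`), `(t₀ : k) = a²`, `h = d.t a`: conjugation with `h` is
`u b ↦ u (t₀ b)`, so `ψ ↦ ψ^t₀`.  FGN (hypothesis) for `ℓ = p`, `k = 1`, `ψ' : d.U →* ℂˣ` from PUH, of order
`p`, `h`, `t = t₀`, `m = p - 1` (`h^(p-1) = d.t (± 1) = 1`; `h^i ∈ U` commutes with `u 1`, so
`t₀^i = 1`): `(p-1) (Ind_{H₁} 1 - Ind_{H₂} 1) = ∑_s Ind_U ψ^s`, and every `s` prime to `p` is a square in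
`k`, so `Ind_U ψ^s = Ind_U ψ` (substitute `x ↦ x (d.t c)⁻¹`, `c² = s`, as in PPM (1), `ABS/PPM.lean`). -/
def Stmt_QSQ : Prop :=
  Stmt_PUH →
  (∀ (G : Type) [Group G] [Fintype G] (ℓ k : ℕ) (U : Subgroup G) (ψ : U →* ℂˣ) (h : G) (t m : ℕ),
    ℓ.Prime → 0 < k → orderOf ψ = ℓ ^ k → 0 < m → cj ψ h t → extZ ψ (h ^ m) = 1 →
    (∀ i, h ^ i ∈ U → m ∣ i) → (∀ i, 0 < i → i < m → ¬ t ^ i ≡ 1 [MOD ℓ]) →
    ∃ H₁ H₂ : Subgroup G, ∀ g, (m : ℂ) * (indFun H₁ (fun _ => 1) g - indFun H₂ (fun _ => 1) g) =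
      ∑ s ∈ (Finset.range (ℓ ^ k)).filter (fun s => (ℓ ^ k).Coprime s), indFun U (extZ (ψ ^ s)) g) →
  ∀ (k G : Type) [Field k] [Fintype k] [Group G] [Fintype G] (e : ℤ) (d : PD k G e)
    (ψ : AddChar k ℂ), GoodQ k e → IsSquare (Fintype.card k) → ψ ≠ 1 → PermC (d.chi ψ)

/-! ### Matrices -/

section

variable (k : Type) [Field k] [Fintype k]

/-- The projection `GL_2(k) → PGL_2(k)`. -/
abbrev mkP : GL (Fin 2) k →* PGL(2, k) := Matrix.ProjGenLinGroup.mk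

/-- `v` and a nonsplit torus `N` in `PGL_2(k)`. -/
structure NTor (N : Subgroup PGL(2, k)) (v : PGL(2, k)) : Prop where
  card : Nat.card N = Fintype.card k + 1
  cyc : IsCyclic N
  v_sq : v * v = 1
  v_N : ∀ y ∈ N, v * y * v = y⁻¹
  v_not : v ∉ N
  fus : ∀ y ∈ N, y ≠ 1 → ∀ x, x⁻¹ * y * x ∈ N → x ∈ N ∨ v * x ∈ N
  N_B : ∀ X : GL (Fin 2) k, mkP k X ∈ N → mkP k X ≠ 1 → X 1 0 ≠ 0
  N_B' : ∀ y ∈ N, y ≠ 1 → ∀ x, ∀ X : GL (Fin 2) k, mkP k X = x⁻¹ * y * x → X 1 0 ≠ 0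
  v_SL : v ∈ (Matrix.SpecialLinearGroup.toPGL (n := Fin 2) (R := k)).range
  not_SL : Odd (Fintype.card k) →
    ¬ N ≤ (Matrix.SpecialLinearGroup.toPGL (n := Fin 2) (R := k)).range

end

/-- QMJ (60 lines).  There are `s, n` such that `X² - s X + n` has no root: there are `q²` pairs `(s, n)`, and
those with a root are the `(a + b, a b)`, `{a, b}` one of `q (q+1)/2 < q²` sets (`Sym2`; or: the map
`(a, b) ↦ (a + b, a b)` on `k × k` is not injective, as `(0, 1)`, `(1, 0)` have the same image, so it is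
not surjective).  Second part, `a² + a b s + b² n = c` is solvable for every `c ≠ 0`: if `q` is even take
`b = 0` (every element is a square: `FiniteField.isSquare_of_char_two`); if `q` is odd, complete the
square and use `FiniteField.exists_root_sum_quadratic`.  In characteristic two `s ≠ 0` (otherwise `n` is a
square). -/
def Stmt_QMJ : Prop :=
  ∀ (k : Type) [Field k] [Fintype k], ∃ s n : k, (∀ x : k, x ^ 2 - s * x + n ≠ 0) ∧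
    (∀ c : k, c ≠ 0 → ∃ a b : k, a ^ 2 + a * b * s + b ^ 2 * n = c) ∧ (ringChar k = 2 → s ≠ 0)

/-- QMN (250 lines, KEY), the nonsplit torus.  `J = (0 -n; 1 s)`, `J² = s J - n`.  The matrices commuting
with `J` are the `a + b J`; `det (a + b J) = a² + a b s + b² n`, which is `≠ 0` unless `a = b = 0` (QMJ).
`C` = the subgroup of `GL_2(k)` of the matrices commuting with `J`, `N = C.map (mkP k)`.
CARD: `C` has `q² - 1` elements and contains the `q - 1` scalars (the kernel of `mkP`): `|N| = q + 1`.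
CYCLIC: `C` is a finite group of units of the commutative domain of the `a + b J`
(`isCyclic_of_injective_ringHom` or `isCyclic_of_subgroup_isDomain`; for instance the ring
`AdjoinRoot (X^2 - s X + n)`, or the subalgebra `Algebra.adjoin k {J}`); its image is cyclic.
`V₀ = (1 s; 0 -1)`: `V₀ J V₀⁻¹ = s - J`, `V₀² = 1`, `det V₀ = -1`.  Let `c ∈ C` with `det c = -1` (QMJ),
`V = V₀ c`, `det V = 1`, `V (a + b J) V⁻¹ = a + b (s - J)`, whose product with `a + b J` is the scalar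
`det (a + b J)`; `V² = ` the scalar `det c`; `v = mkP V`.  `V` does not commute with `J`: `2 J ≠ s` (if
`2 = 0`: `s ≠ 0`).
FUS: `y = mkP Y`, `Y = a + b J`, `b ≠ 0`; `x = mkP X`; `X⁻¹ Y X` commutes with `J` (it is a scalar
multiple of an element of `C`), so `J' = X⁻¹ J X` does; `J'` is in the domain and has the same
trace and determinant, so `(J' - J) (J' - (s - J)) = J'² - s J' + n = 0`: `J' = J`, `X ∈ C`, or
`J' = s - J` and `V X ∈ C`.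
N_B, N_B': if `X 1 0 = 0` for `X` a scalar multiple of `Z⁻¹ Y Z`, `Y = a + b J`, `b ≠ 0`, then `Z e₁` is an
eigenvector of `Y`, so of `J`, and the eigenvalue is a root of `X² - s X + n`.
not_SL: the image of `SL_2` consists of the `mkP X` with `det X` a square; there is `c ∈ C` with `det c`
not a square (QMJ; `q` odd). -/
def Stmt_QMN : Prop :=
  Stmt_QMJ → ∀ (k : Type) [Field k] [Fintype k], ∃ (N : Subgroup PGL(2, k)) (v : PGL(2, k)), NTor k N v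

/-- QMC (60 lines).  `|PGL_2(k)| = |GL_2(k)|/(q - 1) = q (q² - 1)` (`Matrix.card_GL_field`; the kernel of
`mkP` is the center, the scalars). -/
def Stmt_QMC : Prop :=
  ∀ (k : Type) [Field k] [Fintype k],
    (Nat.card PGL(2, k) : ℤ) = (Fintype.card k : ℤ) * ((Fintype.card k : ℤ) ^ 2 - 1)

/-- QMA (250 lines, KEY), the data for `PGL_2(k)`, `d = 1`.  `U` = the image of the `(1 b; 0 1)`, `T` = the
image of the diagonal matrices (isomorphic to `k^*` by `diag(a, 1)`, cyclic of order `q - 1`), `B` = the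
image of the upper triangular matrices (`X 1 0 = 0`; this does not depend on the scalar), `w` = the image
of `(0 -1; 1 0)`; `N`, `v` from NTor.
mem_B: `(a b; 0 c) ~ (1 b/c; 0 1) diag(a/c, 1)`.  free: `diag(a,1)⁻¹ (1 b; 0 1) diag(a,1) = (1 b/a; 0 1)`.
fus_U: `X⁻¹ (1 b; 0 1) X` upper triangular, `b ≠ 0`: `X e₁` is an eigenvector of `(1 b; 0 1)`, so
`X e₁ ∈ k e₁`.  fus_T: `X e₁` is an eigenvector of `diag(a, 1)`, `a ≠ 1`: in `k e₁` or `k e₂`.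
N_B: `N_B'`.  `P` = the image of `SL_2(k)` (`toPGL.range`): the `mkP X` with `det X` a square; index
`[k^* : (k^*)²] = 2` if `q` is odd; `T_not`: `diag(a, 1)`, `a` not a square. -/
def Stmt_QMA : Prop :=
  Stmt_QMC → ∀ (k : Type) [Field k] [Fintype k] [Fintype PGL(2, k)] (N : Subgroup PGL(2, k))
    (v : PGL(2, k)), NTor k N v → ∃ b : TB PGL(2, k) (Fintype.card k) 1,
      Odd (Fintype.card k) → TS b (Matrix.SpecialLinearGroup.toPGL (n := Fin 2) (R := k)).range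

/-- QSB (120 lines), restriction to a subgroup of index two.  `U`, `T`, `N`, `B` are replaced by
their intersections with `P`, as subgroups of `P` (`Subgroup.subgroupOf`); `T`, `N` are not in `P`, so
`[T : T ⊓ P] = 2` (`P` is normal of index two).  All other properties are inherited, as `w, v ∈ P`.
mem_B: `u t ∈ P`, `u ∈ P` imply `t ∈ P`. -/
def Stmt_QSB : Prop :=
  ∀ (G : Type) [Group G] [Fintype G] (q : ℕ) (b : TB G q 1) (P : Subgroup G), TS b P →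
    Nonempty (TB P q 2)

/-- QTP (80 lines), transport of the data along an isomorphism (`Subgroup.map`). -/
def Stmt_QTP : Prop :=
  ∀ (G G' : Type) [Group G] [Fintype G] [Group G'] [Fintype G'] (q d : ℕ) (f : G ≃* G')
    (b : TB G q d), ∃ b' : TB G' q d, (∃ P : Subgroup G, TS b P) → ∃ P' : Subgroup G', TS b' P'

/-- QPS (100 lines), `G ≅ PSL_2(k)`, `q ≥ 4`: `PSL_2(k)` is isomorphic to the image `P` of `SL_2(k)` in
`PGL_2(k)` (`Matrix.ProjectiveSpecialLinearGroup.toPGL_injective`, the ranges are the same).  `q` odd: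
QSB, QTP.  `q` even: `P = ⊤` (all determinants are squares, `FiniteField.isSquare_of_char_two`), so
`G ≅ PGL_2(k)`.  `PSL_2(k)` is perfect (an instance in Mathlib for `q ≥ 4`:
`Mathlib/LinearAlgebra/Projectivization/PSL/PSL2.lean`). -/
def Stmt_QPS : Prop :=
  Stmt_QMJ → Stmt_QMN → Stmt_QMC → Stmt_QMA → Stmt_QSB → Stmt_QTP →
  ∀ (k G : Type) [Field k] [Fintype k] [Group G] [Fintype G], 4 ≤ Fintype.card k →
    Nonempty (G ≃* PSL(2, k)) →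
    commutator G = ⊤ ∧ (Odd (Fintype.card k) → Nonempty (TB G (Fintype.card k) 2)) ∧
      (Even (Fintype.card k) → Nonempty (TB G (Fintype.card k) 1))

/-- QPG (60 lines), `G ≅ PGL_2(k)`. -/
def Stmt_QPG : Prop :=
  Stmt_QMJ → Stmt_QMN → Stmt_QMC → Stmt_QMA → Stmt_QTP →
  ∀ (k G : Type) [Field k] [Fintype k] [Group G] [Fintype G], Nonempty (G ≃* PGL(2, k)) →
    ∃ b : TB G (Fintype.card k) 1, Even (Fintype.card k) ∨ ∃ P : Subgroup G, TS b P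

/-! ### The end -/

/-- QFA (120 lines), the theorem for the abstract data.  QCA gives `Mult`, then QC1, QC2, QC3; in the first
two cases QTR: `pr ψ = Ind_T ψ - τ`, `ds φ = - Ind_N φ + τ`, `τ` and `-τ` are PermC; `ψ² ≠ 1` implies
`3 ≤ orderOf ψ`. -/
def Stmt_QFA : Prop :=
  QBase → Stmt_QEQ → Stmt_QDU → Stmt_QDH →
  (∀ (G V : Type) [Group G] [Fintype G] (q d : ℕ) (b : TB G q d) [AddCommGroup V] [Module ℂ V]
    [Module.Finite ℂ V] (ρ : Representation ℂ G V),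
    ∃ (a₀ : ℕ) (s : ℤ) (n : (b.T →* ℂˣ) → ℤ) (m : (b.N →* ℂˣ) → ℤ), Mult b ρ a₀ s n m) →
  Stmt_QC1 → Stmt_QC2 → Stmt_QC3 → Stmt_QBB →
  (∀ (G : Type) [Group G] [Fintype G] (T : Subgroup G) (w : G) (ψ : T →* ℂˣ) (e : ℤ)
    (R χ : G → ℂ), Dih T w → 3 ≤ orderOf ψ → (e = 1 ∨ e = -1) → PermC R →
    (∀ g, χ g = (e : ℂ) * indFun T (extZ ψ) g + R g) → OutQ χ) →
  ∀ (G V : Type) [Group G] [Fintype G] (q : ℕ) [AddCommGroup V] [Module ℂ V]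
    [Module.Finite ℂ V] (ρ : Representation ℂ G V), ρ.IsIrreducible →
    ((∃ b : TB G q 1, Even q ∨ ∃ P : Subgroup G, TS b P) →
      OutQ ρ.character ∨ PermC ρ.character) ∧
    (Nonempty (TB G q 2) → commutator G = ⊤ →
      OutQ ρ.character ∨ PermC ρ.character ∨
      (q % 4 = 3 ∧ 2 * Module.finrank ℂ V + 1 = q ∨ q % 4 = 1 ∧ 2 * Module.finrank ℂ V = q + 1))

end StarkC.ABS
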