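import Pool.Agent.ABS.StQ

/-!
# Project ABS (MP_46b841_nt), part Q, addition: multiplicity one (helper91)

Every irreducible character of `PSL_2(k)` (`q ≥ 4`) and `PGL_2(k)` occurs exactly once in a
representation induced from a linear character with values `±1` (so it is realized over `ℚ(χ)`).

Module `X` proves `theorem StarkC.ABS.X_thm : Stmt_X` in the file `Pool/Agent/ABS/X.lean` (import
`Pool.Agent.ABS.StQR` only); helper lemmas in `namespace StarkC.ABS.Xx`.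
-/

set_option autoImplicit false

open scoped Classical MatrixGroups ComplexConjugate

namespace StarkC.ABS

/-- `χ` occurs once in a representation induced from a linear character with values `±1`. -/
def MOne {G : Type} [Group G] [Fintype G] (χ : G → ℂ) : Prop :=
  ∃ (H : Subgroup G) (lam : H →* ℂˣ), lam ^ 2 = 1 ∧
    ∑ g, χ g * conj (indFun H (extZ lam) g) = (Fintype.card G : ℂ)

/-- QR1 (80 lines).  PFR: `∑_G χ conj (Ind_T 1) = (|G|/|T|) ∑_T χ` (class functions).  With QVT, QVB: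
`∑_T pr ψ = (q + 1) + ∑_{t ≠ 1} (ψ(t) + ψ(t)⁻¹) = q + 1 - 2` for `ψ ≠ 1` (`pr ψ 1 = |G|/|T| - τ(1)`,
`|G|/|T| = q (q + 1)`), `∑_T ds φ = ds φ 1 = q - 1` (`|G|/|N| = q (q - 1)`), and `q - 1 = d |T|`. -/
def Stmt_QR1 : Prop :=
  Stmt_PFR → Stmt_QDH → Stmt_QVT → Stmt_QVB →
  ∀ (G : Type) [Group G] [Fintype G] (q d : ℕ) (b : TB G q d),
    (∀ ψ : b.T →* ℂˣ, ψ ≠ 1 → ∑ g, b.pr ψ g * conj (indFun b.T (extZ (1 : b.T →* ℂˣ)) g) =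
      (Fintype.card G : ℂ) * (d : ℂ)) ∧
    ∀ φ : b.N →* ℂˣ, ∑ g, b.ds φ g * conj (indFun b.T (extZ (1 : b.T →* ℂˣ)) g) =
      (Fintype.card G : ℂ) * (d : ℂ)

/-- QR2 (200 lines, KEY), `d = 2`: `|N| = |T| + 1`; all involutions are conjugate (`hinv`).
`D_T = T ∪ w T`, `D_N = N ∪ v N`, subgroups of order `2 |T|`, `2 |N|`; the elements of `w T` and `v N` are
involutions.  `δ` = the linear character of `D_T` (if `|T|` is even) with `δ(t) = δ(w t) = ψ₂(t)`, `ψ₂` the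
character of order two of the cyclic group `T`; the same for `D_N` if `|N|` is even.
`|T|` odd (`|N|` even, so `N` contains an involution `y₀`): `pr ψ`: `H = D_T`, `lam = 1`: `∑_T pr ψ = 2 |T|`
(QVT, QVB as in QR1; `ψ ≠ 1`), and `pr ψ = pr ψ (y₀) = 0` on `w T` (QVB); `ds φ`: `H = D_N`, `lam = δ`:
`∑_N ds φ φ₂ = (q - 1) - ∑_{y ≠ 1} (φ φ₂ + φ⁻¹ φ₂) = q + 1 = 2 |N|` (`φ ≠ φ₂` as `φ² ≠ 1`), and `ds φ` is
constant on `v N` (conjugate involutions), `∑_N φ₂ = 0`.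
`|T|` even: `pr ψ`: `H = D_T`, `lam = δ`: `∑_T pr ψ ψ₂ = (q + 1) - 2 = 2 |T|`, and `0` on `w T`; `ds φ`:
`H = D_T`, `lam = 1`: `∑_T ds φ = q - 1 = 2 |T|`, and `ds φ = ds φ (t₀) = 0` on `w T`, `t₀ ∈ T` the involution.
PFR: `∑_G χ conj (Ind_H lam) = (|G|/|H|) ∑_H χ conj lam`. -/
def Stmt_QR2 : Prop :=
  Stmt_PFR → Stmt_QDH → Stmt_QVT → Stmt_QVB → Stmt_QDU →
  ∀ (G : Type) [Group G] [Fintype G] (q : ℕ) (b : TB G q 2),
    (∀ x y : G, x ≠ 1 → y ≠ 1 → x * x = 1 → y * y = 1 → ∃ z, z⁻¹ * x * z = y) →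
    (∀ ψ : b.T →* ℂˣ, ψ ^ 2 ≠ 1 → MOne (b.pr ψ)) ∧ ∀ φ : b.N →* ℂˣ, φ ^ 2 ≠ 1 → MOne (b.ds φ)

/-- QR3 (80 lines), the half characters: `H = d.T`, `lam = 1`.  PFR: `(|G|/|T|) ∑_T χ₀`.  `χ₀ 1 = (q - e)/2`
(PNO); for `g ∈ T`, `g ≠ 1` (it commutes with `z`: `T_z`): `χ₀ g = - e` if `g ∈ D₁`, `e` if not (PVU: `Ind_U ψ` is
zero; PVD).  `[T : T ⊓ D₁] = 2` (`T ≠ D₁` are two subgroups of index two of the centraliser of `z`), so
`∑_T χ₀ = (q - e)/2 + e = (q + e)/2 = |T|`. -/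
def Stmt_QR3 : Prop :=
  Stmt_PFR → Stmt_PGS → Stmt_PVU → Stmt_PVD → Stmt_PNO →
  ∀ (k G : Type) [Field k] [Fintype k] [Group G] [Fintype G] (e : ℤ) (d : PD k G e)
    (ψ : AddChar k ℂ), GoodQ k e → ψ ≠ 1 → MOne (d.chi ψ)

/-- QC3R (copy of `ABS/QC3.lean` with a few more lines): QC3 with multiplicity one.  `χ = sgn`: `H = ⊤`,
`lam = sgn`.  `χ = pr ψ₂ - sgn`: `H = B`, `lam = sgn` on `B`: `Ind_B lam = sgn Ind_B 1 = sgn pr 1 = pr ψ₂`, and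
`∑ (pr ψ₂ - sgn) conj (pr ψ₂) = |G| (2 - 1)`. -/
def Stmt_QC3R : Prop :=
  QBase → Stmt_QEQ → Stmt_QDU → Stmt_QDH → Stmt_QBB →
  ∀ (G V : Type) [Group G] [Fintype G] (q : ℕ) (b : TB G q 1) [AddCommGroup V] [Module ℂ V]
    [Module.Finite ℂ V] (ρ : Representation ℂ G V) (a₀ : ℕ) (s : ℤ) (n : (b.T →* ℂˣ) → ℤ)
    (m : (b.N →* ℂˣ) → ℤ), Mult b ρ a₀ s n m → ρ.IsIrreducible →
    (Even q ∨ ∃ P : Subgroup G, TS b P) →
    (∀ ψ : b.T →* ℂˣ, (ψ ^ 2 ≠ 1 ∨ ψ = 1) → n ψ ≤ 0) →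
    (∀ φ : b.N →* ℂˣ, (φ ^ 2 ≠ 1 ∨ φ = 1) → m φ ≤ 0) → PermC ρ.character ∧ MOne ρ.character

end StarkC.ABS
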