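import Pool.Agent.ABS.PDefsS
import Pool.Agent.ABS.XCS

/-!
# Project ABS, quartic fields: statement of a module (helper6)
-/

set_option autoImplicit false

open NumberField IsDedekindDomain
open scoped Classical

namespace StarkC.ABS

/-- XQ4 (hypothesis `Pool.Agent.YNG.Stmt_YT`, which is proved elsewhere; theorem
`XQ4_thm (hY : Pool.Agent.YNG.Stmt_YT) : Stmt_XQ4`).  Proof.  `f : G →* Perm (Fin 4)` from the action on
`G ⧸ H`, `N = ker f ⊆ H` acts trivially on `W` (it is normal, fixes `v`, and the `σ g v` span `W`).
The image `T₀` has order `4, 8, 12` or `24` (divisible by `4`, divides `24`).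
(24) `f` is onto: `inCls_of_surj` (`ABS/XCS.lean`).
(12) `T₀ = A₄`: class (II) of `InCls` (`PPO`, `NoSymp`) for `G ⧸ ker σ`, a quotient of `T₀`: every element of
`A₄` satisfies `g² = 1` or `g³ = 1`; a `2`-subgroup has order at most `4`, is abelian, its irreducible
representations have dimension `1`, so there is no form `B` as in `NoSymp`.
(4, 8) `T₀` is a `2`-group, `σ g ^ 4 = 1` for all `g` (no element of order `8` in `Perm (Fin 4)`), so
`charField ≤ rootField (2^2)` (`charField_le`), and `GoodIm` by `NilNS`: the image is a `2`-group, so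
nilpotent; suppose there is a form `B` as in `NilNS`; it is invariant under all `σ g`.  The
dimension of `W` is even (nondegenerate alternating), and `(dim W)² ≤ |T₀| ≤ 8`, so it is `2`.  For `h ∈ H`
`σ h` fixes `v` and `B`: `σ h w - w` is orthogonal to `v`, so a multiple of `v` for all `w`; `σ h` is
unipotent of finite order, so `σ h = 1`.  So `σ` factors through the quotient of `G` by the normal
closure of `H`, which has at most `4` elements, so is abelian, and `dim W = 1`.  Contradiction. -/
def Stmt_XQ4 : Prop :=
  ∀ (G : Type) [Group G] [Fintype G] (H : Subgroup G), H.index = 4 →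
    ∀ (W : Type) [AddCommGroup W] [Module ℂ W] [Module.Finite ℂ W]
      (σ : Representation ℂ G W), σ.IsIrreducible → (∃ g, σ g ≠ 1) →
      (∃ v : W, v ≠ 0 ∧ ∀ h ∈ H, σ h v = v) → StarkP.InCls σ

end StarkC.ABS
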