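import Pool.Agent.ABS.StTowerC

/-!
# Project ABS, part F of the tower (fields with CM subfields): statements of modules (helper6)

All modules prove `theorem X_thm : Stmt_X` in `namespace StarkC.ABS`, file `Pool/Agent/ABS/X.lean`,
importing `Pool.Agent.ABS.StTowerF` and existing files (auxiliary lemmas in `namespace StarkC.ABS.Xx`).
-/

set_option autoImplicit false

open NumberField IsDedekindDomain
open scoped Classical

namespace StarkC.ABS

open StarkP (IsSub)

/-- XPC (about 150 lines; see `XPR_thm`, `Pool/Agent/ABS/XPR.lean`, and `WZP.lean` for the permutation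
representation `WZPx.perm H` on the functions `G ⧸ H → ℂ` and its character).  `H ≤ M`.  Proof: `ρ` = the
permutation representation on the functions `f : G ⧸ M → ℂ`; `ρ'` = the subrepresentation of the
functions `f` on `G ⧸ H` whose sum over every fibre of `G ⧸ H → G ⧸ M` is `0`, i.e. the kernel of the
equivariant surjective map `T` (sum over the fibres) to the functions on `G ⧸ M`: so its character is
the difference (`Representation.character` of kernel plus range; or: `f ↦ f - (a constant times) the
pull back of T f` is an equivariant projection onto the kernel, with complement the functions pulled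
back from `G ⧸ M`).  Let `i : W → ρ'` be injective and equivariant, `e w = i w (coset of 1)`, an
`H`-invariant functional, not `0` (the value of `i w` at the coset of `g` is `e (σ g⁻¹ w)`, see
`XPRx.fixed_vec`).  `∑_{m ∈ M} e (σ m w) = |H| * (the sum of i w over the fibre of the coset of 1) = 0`.
Take `w` with `e w ≠ 0`, `v = ∑_{h ∈ H} σ h w`: fixed by `H`, `e v = |H| e w ≠ 0`; if all vectors fixed
by `H` were fixed by `M` then `0 = ∑_{m ∈ M} e (σ m v) = |M| e v`, a contradiction. -/
def Stmt_XPC : Prop :=
  ∀ (G : Type) [Group G] [Fintype G] (H M : Subgroup G), H ≤ M →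
    (∃ (V : Type) (_ : AddCommGroup V) (_ : Module ℂ V) (_ : Module.Finite ℂ V)
      (ρ : Representation ℂ G V), ∀ g, ρ.character g = indFun M (fun _ => 1) g) ∧
    ∃ (V : Type) (_ : AddCommGroup V) (_ : Module ℂ V) (_ : Module.Finite ℂ V)
      (ρ : Representation ℂ G V),
      (∀ g, ρ.character g = indFun H (fun _ => 1) g - indFun M (fun _ => 1) g) ∧
      (∀ g, ∃ q : ℚ, ρ.character g = (q : ℂ)) ∧
      ∀ (W : Type) [AddCommGroup W] [Module ℂ W] [Module.Finite ℂ W] (σ : Representation ℂ G W),
        σ.IsIrreducible → IsSub σ ρ → ∃ v : W, (∀ h ∈ H, σ h v = v) ∧ ∃ m ∈ M, σ m v ≠ v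

end StarkC.ABS
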