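import Pool.Agent.ABS.StTowerC
import Pool.Agent.ABS.PDefsY

/-!
# Project ABS, part G of the tower (CM fields): statements of modules (helper6)

All modules prove `theorem X_thm : Stmt_X` in `namespace StarkC.ABS`, file `Pool/Agent/ABS/X.lean`,
importing `Pool.Agent.ABS.StTowerG` and existing files (auxiliary lemmas in `namespace StarkC.ABS.Xx`).
-/

set_option autoImplicit false

open NumberField IsDedekindDomain
open scoped Classical

namespace StarkC.ABS

open StarkP (IsSub OccursIn)

/-- XRN (about 100 lines): if no irreducible subrepresentation of `ρ` occurs in `X`, the regulator is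
`1`.  Proof.  `homG` is `0`: (the set after `Submodule.span` in its definition is a subspace, so) let `f` be
an element of that set, `f ≠ 0`.  Induction over the dimension of `V`: if `ρ` is irreducible then it
is a subrepresentation of itself and `f` shows `OccursIn`, a contradiction; otherwise
`V = V₁ ⊕ V₂` with smaller subrepresentations (Maschke), `f` is not `0` on the functionals of the form
`α ∘ π_k` for `k = 1` or `k = 2` (`π_k` the projection), and `α ↦ f (α ∘ π_k)`, `α ∈ V_k^*`, is equivariant with values
in `X`; the irreducible subrepresentations of `V_k` are subrepresentations of `V`.  Last: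
the determinant on the zero space is `1` (see `OPZx.det_zero` in `Pool/Agent/ABS/OPZ.lean`;
`LinearMap.det_eq_one_of_subsingleton`). -/
def Stmt_XRN : Prop :=
  ∀ (K L : Type) [Field K] [NumberField K] [Field L] [NumberField L] [Algebra K L] [IsGalois K L]
    (T : Set (HeightOneSpectrum (𝓞 L))) (V : Type) [AddCommGroup V] [Module ℂ V]
    [Module.Finite ℂ V] (ρ : Representation ℂ (L ≃ₐ[K] L) V),
    (∀ (W : Type) [AddCommGroup W] [Module ℂ W] [Module.Finite ℂ W]
      (σ : Representation ℂ (L ≃ₐ[K] L) W), σ.IsIrreducible → IsSub σ ρ → ¬ OccursIn T σ) →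
    ∀ Θ : ((L → ℝ) →₀ ℂ) →ₗ[ℂ] ((L → ℝ) →₀ ℂ), StarkP.Reg T ρ Θ = 1

/-- XCN (about 170 lines): `E` a CM field.  Proof.  For every embedding `φ : L → ℂ` there is
`c_φ : L ≃ₐ[K] L` with `φ (c_φ x) = conj (φ x)` (see `CB1_thm` in `Pool/Agent/YNG/CB1.lean`; `K` has degree
`1`), `c_φ ^ 2 = 1`, and `c_φ` is in the stabilizer of the place of `φ`.  On `E` all `c_φ` are equal to
the complex conjugation `j` of `E` (`φ (c_φ x) = conj (φ x) = φ (j x)`; `IsCMField.complexConj`).  Let `v`, `m` be as in
the hypothesis: `m` maps `E` to itself? it is enough: `m` is trivial on `E₊`, the only conjugates over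
`E₊` of `x ∈ E` are `x` and `j x` (`E/E₊` is quadratic, Galois), so the restriction of `m` to `E` is the identity or
`j`; it is not the identity (`m` would be in `fixK K E L` and fix `v`), so it is `j`, and `c_φ⁻¹ m ∈ fixK K E L`,
`σ c_φ v = σ m v` for all `φ`.  Let `u = v - σ m v`, not `0`: `σ c_φ u = σ m v - v = -u` for all `φ` (use `c_φ ^ 2 = 1`).
`c_φ g = g c_(φ g)` for `g ∈ G` (`φ g` the embedding `x ↦ φ (g x)`), so `σ c_φ (σ g u) = - σ g u`; the `σ g u` span `W`
(irreducible): `σ c_φ = -1` for all `φ`.  If `f` is as in `OccursIn`, `α` a functional, the coefficient of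
`f α` at an infinite place `w` (the place of `φ`) is equal to the one of `act c_φ (f α) = f (σ.dual c_φ α) = - f α`,
so it is `0`; and `f α ∈ XC L ∅` has only coefficients at infinite places: `f = 0`, a contradiction. -/
def Stmt_XCN : Prop :=
  ∀ (K E L : Type) [Field K] [NumberField K] [Field E] [NumberField E] [IsCMField E] [Field L]
    [NumberField L] [Algebra K E] [Algebra K L] [Algebra E L] [IsScalarTower K E L] [IsGalois K L],
    Module.finrank ℚ K = 1 →
    ∀ (W : Type) [AddCommGroup W] [Module ℂ W] [Module.Finite ℂ W]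
      (σ : Representation ℂ (L ≃ₐ[K] L) W), σ.IsIrreducible →
      (∃ v : W, (∀ g ∈ fixK K E L, σ g v = v) ∧ ∃ m : L ≃ₐ[K] L,
        (∀ x ∈ maximalRealSubfield E, m (algebraMap E L x) = algebraMap E L x) ∧ σ m v ≠ v) →
      ¬ OccursIn (StarkP.aboveSet K L ((∅ : Finset (HeightOneSpectrum (𝓞 K))) :
        Set (HeightOneSpectrum (𝓞 K)))) σ

end StarkC.ABS
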