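import Pool.Agent.ABS.StG
import Pool.Agent.ABS.StU

/-!
# Project ABS (MP_46b841_nt), part W: the criterion (G*) (helper63, helper91)

`χ` a class function on `G = Gal(L/K)`, `Tr χ` an integral combination of permutation characters,
`m χ = ∑ c_i Ind ψ_i`, `ψ_i^n = 1` (any `n ≥ 1`), `d = m [ℚ(ζ_n) : ℚ(χ)]`, `E ⊆ ℚ(χ)` cyclic over `ℚ` such that
every `σ ∈ Gal(ℚ(ζ_n)/ℚ)` with `σ^d = 1` is trivial on `E`.  THEOREM (G*) (WAS):
`A_S(Tr χ, φ)` is the norm of an element of `E^*`.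

PROOF.  `a = A_S(Tr χ, φ) ∈ ℚ^*`.  `d Tr χ = ∑_i c_i ∑_(t ∈ Ex n) Ind ψ_i^t`
`= ∑_i c_i (φ(n)/φ(o_i)) Ind Tr ψ_i` (FCH, UEX), so `a^d = ∏ (y_i^(φ(n)/φ(o_i)))^(c_i)`,
`y_i = A(Ind Tr ψ_i)`, which is a norm from `ℚ(ζ_q)` for all prime powers `q` exactly dividing `o_i` (WNQ);
so `a^d` is a norm from `ℚ(ζ_q)` for all prime powers `q` exactly dividing `n` (WTW), and the class
`(κ', a^d)` is trivial for every character `κ'` of `(ℤ/n)^*` (SPA).  Let `κ` be a character of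
`(ℤ/n)^*` with kernel the group of `E`.  It is trivial on the elements of order dividing `d`, so
`κ = d κ'` (WKM: duality of finite abelian groups), and `(κ, a) = (κ', a^d) = 0` (FPW): `a` is a norm
from `E` (SH9, the end of SFF; WEN).

Module `X` proves `theorem StarkC.ABS.X_thm : Stmt_X` in the file `Pool/Agent/ABS/X.lean` (import
`Pool.Agent.ABS.StW` and finished modules); helper lemmas in `namespace StarkC.ABS.Xx`.
-/

set_option autoImplicit false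

open NumberField IsDedekindDomain
open scoped TensorProduct Classical

namespace StarkC.ABS

open StarkP (rootField)

/-- `x ∈ ℚ^*` is a norm from `ℚ(ζ_q)` for all prime powers `q` exactly dividing `o`. -/
def NQ (o : ℕ) (x : ℂ) : Prop :=
  ∃ a : ℚ, a ≠ 0 ∧ x = (a : ℂ) ∧ ∀ p k : ℕ, p.Prime → 0 < k → p ^ k ∣ o → (o / p ^ k).Coprime p →
    ∃ α : rootField (p ^ k), Algebra.norm ℚ α = a

/-- WKM (about 100 lines), duality.  `κ` is trivial on the kernel of `u ↦ u^m`, so there is `λ` on the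
subgroup `U^m` of the `m`-th powers with `λ(u^m) = κ(u)`.  The injective group `ℚ/ℤ`
(`AddCircle (1 : ℚ)`; `CharacterModule.dual_surjective_of_injective` for the inclusion of the subgroup) or
roots of unity (`MonoidHom.restrict_surjective` for `HasEnoughRootsOfUnity`, `Mathlib/GroupTheory/FiniteAbelian/Duality.lean`):
`ℤ/d` is identified with the elements of order dividing `d` (`x ↦ x/d`); `λ` extends to a character `λ'`
of `(ℤ/n)^*`; `m λ'(u) = λ'(u^m) = κ(u)`, so `m d λ' = 0` and `λ'` has values in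
`(1/(m d)) ℤ/ℤ = ℤ/(m d)`: `λ'(u) = y/(m d)`, and `κ(u) = m λ'(u) = y/d`, i.e. `κ(u) = y` modulo `d`,
which is `redK m d κ' = κ`.  (Or with the structure of finite abelian groups: decompose
`(ℤ/n)^*` into cyclic groups, `AddCommGroup.equiv_directSum_zmod_of_finite`, and treat a cyclic group of
order `N` with generator `g`: `κ(g) = e`, `N e = 0` in `ℤ/d`; the condition says that `(N/gcd(m,N)) e = 0`, and
one needs `y ∈ ℤ/(m d)` with `N y = 0` and `y = e` modulo `d`: `y = e + d s` with `N (e + d s) = 0` modulo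
`m d`; `N e = d f`, so `f + N s = 0` modulo `m`, solvable as `gcd(m, N)` divides `f`.) -/
def Stmt_WKM : Prop :=
  ∀ (n m d : ℕ) [NeZero n] [NeZero m] [NeZero d] (κ : (ZMod n)ˣ →* Multiplicative (ZMod d)),
    (∀ u : (ZMod n)ˣ, u ^ m = 1 → κ u = 1) →
    ∃ κ' : (ZMod n)ˣ →* Multiplicative (ZMod (m * d)), redK m d κ' = κ

/-- WEN (about 120 lines).  The proof of `FEN_thm` (`ABS/FEN.lean`; the part from SKA on is copied), with
WKM in place of FKM and SPA in place of SPB: `a^m` satisfies the hypothesis of SPA, so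
`Coch n (m * d) (a ^ m) κ'` for every `κ'`.  `κ` from SKA for `E` (`d = [E : ℚ] > 1`) is trivial on the `u` with
`u^m = 1`: `u = cych n g` (SCY), and `g^m` is trivial on the `n`-th roots of unity (`cych n (g^m) = 1`;
`modularCyclotomicCharacter.spec`), so `g` is trivial on `E` by `htor` and `vl κ u = 0`, `κ u = 1`. -/
def Stmt_WEN : Prop :=
  Stmt_SCY → Stmt_SNM → Stmt_SPB → Stmt_SPM → Stmt_SPI → Stmt_SCR → Stmt_SPA → Stmt_SH9 →
  Stmt_SKA → Stmt_FPW → Stmt_WKM →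
  (∀ (n : ℕ) (E : IntermediateField ℚ ℂ), 0 < n → E ≤ rootField n → IsGalois ℚ E) →
  ∀ (n m : ℕ) (a : ℚ) (E : IntermediateField ℚ ℂ), 0 < n → 0 < m → a ≠ 0 →
    NQ n (((a ^ m : ℚ)) : ℂ) → E ≤ rootField n → IsCyclic (E ≃ₐ[ℚ] E) →
    (∀ σ : ℂ ≃+* ℂ, (∀ z : ℂ, z ^ n = 1 → (σ ^ m) z = z) → ∀ x ∈ E, σ x = x) →
    ∃ α : E, α ≠ 0 ∧ Algebra.norm ℚ α = a

/-- WNQ (about 80 lines).  As PV1, PV2, PV3 (`ABS/StU.lean`), with NQ in place of QQ.  Order at least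
three: `cyc_of_PT` (`ABS/SYMG.lean`) gives exactly this.  Orders `1`, `2`: from `hV` (QQ), the number is
rational and the only prime power exactly dividing `2` is `2`: `SYMx.norm_two`. -/
def Stmt_WNQ : Prop :=
  Stmt_SYM → ConclN → ConclV →
  ∀ (K L : Type) [Field K] [NumberField K] [Field L] [NumberField L] [Algebra K L] [IsGalois K L]
    (ψ : (L ≃ₐ[K] L) →* ℂˣ) (S : Finset (HeightOneSpectrum (𝓞 K))),
    VAll (orderOf ψ) (NQ (orderOf ψ)) ψ S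

/-- WTW (about 120 lines).  Products and integral powers of numbers with NQ; and the tower:
`q = p^k` exactly dividing `n`, `q' = p^(k')` exactly dividing `o ∣ n` (`k' = o.factorization p ≤ k`),
`y = N(β)`, `β ∈ ℚ(ζ_q')` (`k' > 0`: hypothesis; `k' = 0`: `ℚ(ζ_1) = ⊥`, `β = y`).  `ℚ(ζ_q') ≤ ℚ(ζ_q)` and PFN:
`N_q(β) = y^j`, `φ(q) = j φ(q')` (`RESFx.finrank_cyc`).  `φ(n)/φ(o) = j (φ(n/q)/φ(o/q'))`
(`Nat.totient_mul` for coprime factors, `Nat.totient_dvd_of_dvd`), so `y^(φ(n)/φ(o))` is the norm of a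
power of `β`. -/
def Stmt_WTW : Prop :=
  Stmt_PFN →
  (∀ (n : ℕ) (x y : ℂ), NQ n x → NQ n y → NQ n (x * y)) ∧
  (∀ (n : ℕ) (x : ℂ) (c : ℤ), 0 < n → NQ n x → NQ n (x ^ c)) ∧
  ∀ (n o : ℕ) (x : ℂ), 0 < n → o ∣ n → NQ o x → NQ n (x ^ (n.totient / o.totient))

/-- WAS (about 220 lines), THEOREM (G*).  Model: `FAS_thm` (`ABS/FAS.lean`).  FCH gives `e` and
`(m e) Tr χ = ∑ c'_j ∑_(t ∈ Ex n) Ind ψ_j^t = ∑ c'_j (φ(n)/φ(o_j)) ∑_(t ∈ Ex o_j) Ind ψ_j^t` (UEX;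
`o_j = orderOf ψ_j`), `e [ℚ(χ) : ℚ] = φ(n)`.  PCX for the family: `(H_i, 1, q = 1, QQ 1)` of PermC and
`(H'_j, ψ_j, q = o_j, NQ o_j)` of MonC (`liftChar H ψ` has the same order as `ψ`: see `COMB_thm`).  As in FAS:
`a = A_S(Tr χ, φ) ∈ ℚ^*` and, from the zero representation,
`a^(m e) = ∏ (y_j^(φ(n)/φ(o_j)))^(c'_j)`; NQ n for the right side by WTW.  WEN with `m e` in place
of `m` gives `α ∈ E` with `N(α) = a`: the hypothesis `htor` is the one of the theorem, as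
`m e = m (φ(n)/[ℚ(χ) : ℚ])`.  The end as in FAS. -/
def Stmt_WAS : Prop :=
  Stmt_SIGT → Stmt_TRT → Stmt_FCH → Stmt_UEX → Stmt_PCX → ConclV →
  (∀ (K L : Type) [Field K] [NumberField K] [Field L] [NumberField L] [Algebra K L] [IsGalois K L]
    (ψ : (L ≃ₐ[K] L) →* ℂˣ) (S : Finset (HeightOneSpectrum (𝓞 K))),
    VAll (orderOf ψ) (NQ (orderOf ψ)) ψ S) →
  ((∀ (n : ℕ) (x y : ℂ), NQ n x → NQ n y → NQ n (x * y)) ∧
    (∀ (n : ℕ) (x : ℂ) (c : ℤ), 0 < n → NQ n x → NQ n (x ^ c)) ∧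
    ∀ (n o : ℕ) (x : ℂ), 0 < n → o ∣ n → NQ o x → NQ n (x ^ (n.totient / o.totient))) →
  (∀ (n m : ℕ) (a : ℚ) (E : IntermediateField ℚ ℂ), 0 < n → 0 < m → a ≠ 0 →
    NQ n (((a ^ m : ℚ)) : ℂ) → E ≤ rootField n → IsCyclic (E ≃ₐ[ℚ] E) →
    (∀ σ : ℂ ≃+* ℂ, (∀ z : ℂ, z ^ n = 1 → (σ ^ m) z = z) → ∀ x ∈ E, σ x = x) →
    ∃ α : E, α ≠ 0 ∧ Algebra.norm ℚ α = a) →
  ∀ (K L : Type) [Field K] [NumberField K] [Field L] [NumberField L] [Algebra K L]
    [IsGalois K L] (χ : (L ≃ₐ[K] L) → ℂ) (n m : ℕ) (E : IntermediateField ℚ ℂ)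
    (S : Finset (HeightOneSpectrum (𝓞 K))) (Θ : ((L → ℝ) →₀ ℂ) →ₗ[ℂ] ((L → ℝ) →₀ ℂ)),
    StarkP.IsTheta K (StarkP.aboveSet K L S) Θ → 0 < n → 0 < m → PermC (StarkP.trChar χ) →
    MonC n (fun g => (m : ℂ) * χ g) → E ≤ rootField n → IsCyclic (E ≃ₐ[ℚ] E) →
    (∀ σ : ℂ ≃+* ℂ, (∀ z : ℂ, z ^ n = 1 →
      (σ ^ (m * (n.totient / Module.finrank ℚ (StarkP.charField χ)))) z = z) → ∀ x ∈ E, σ x = x) →
    StarkP.NormIn E χ (S : Set (HeightOneSpectrum (𝓞 K))) Θ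

/-- WCP (about 60 lines), the condition of (G*) when `[E : ℚ]` is prime to `d`: if `σ^d` is trivial on the
`n`-th roots of unity, it is trivial on `E ≤ ℚ(ζ_n)`; `σ` maps `E` onto itself (`E/ℚ` is Galois), the order of
its restriction to `E` divides `[E : ℚ]` (the order of the group) and `d`, so it is `1`. -/
def Stmt_WCP : Prop :=
  (∀ (n : ℕ) (E : IntermediateField ℚ ℂ), 0 < n → E ≤ rootField n → IsGalois ℚ E) →
  ∀ (n d : ℕ) (E : IntermediateField ℚ ℂ), 0 < n → E ≤ rootField n →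
    d.Coprime (Module.finrank ℚ E) →
    ∀ σ : ℂ ≃+* ℂ, (∀ z : ℂ, z ^ n = 1 → (σ ^ d) z = z) → ∀ x ∈ E, σ x = x

end StarkC.ABS
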