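import Pool.Agent.ABS.StU
import Pool.Agent.ABS.PDefsX

/-!
# Project ABS (MP_46b841_nt), part X: one `φ` for all rational-valued characters

THEOREM (X).  `L/K` abelian with group `G`, `ℓ` a prime number, `g^(2ℓ^k) = 1` for all `g ∈ G`
(`ℓ = 2` is allowed), `S` finite.  There is ONE `ℚ[G]`-isomorphism `φ` with `R_S(θ, φ) = L_S^*(0, θ)`
for every rational-valued character `θ` of `G` all of whose constituents `ψ` satisfy `r_S(ψ) ≥ 1`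
(`ψ⁻¹` occurs in `ℂ ⊗ X`).

PROOF.  Take any `φ₀`.  `A_S(Tr ψ, φ₀) = N(α_ψ)` with `α_ψ ∈ ℚ(ζ_o)^*`, `o` the order of `ψ` (XVL, XVN).  Choose one `ψ` in every class of conjugate characters (the
generators of a cyclic subgroup of the dual group) and get a function `a` on the dual group with
`σ(a_ψ) = a_(σψ)` and `∏_t a_(ψ^t) = N(α_ψ)⁻¹` (XFA), `a = 1` on the classes which do not occur in `X`.
There is a `ℚ[G]`-automorphism `ξ` of `ℚ ⊗ X` whose determinant on the `ψ`-eigenspace of `ℂ ⊗ X` is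
`a_(ψ⁻¹)` (XXI), and `φ = φ₀ ∘ ξ` has `A_S(Tr ψ, φ) = 1` (XPH, XFI).
THE AUTOMORPHISM `ξ`: `W = ℚ ⊗ X`, `M = ℂ ⊗ X`.  There are `w ∈ W` and a linear form `f` on `W` with
`β_ψ = ∑_g ψ(g)⁻¹ f(g w) ≠ 0` for all `ψ` which occur (XNZ, XBW); `u : G → ℚ` with
`∑_h u(h) ψ(h) = (a_ψ - 1)/β_ψ` (Fourier inversion, XFO); `ξ x = x + ∑_g (∑_h u(h) f(h g⁻¹ x)) g w` (XTR).
On the `ψ`-eigenspace of `M` it is the transvection `x + F(x) v` with `1 + F(v) = a_ψ`.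

Module `Y` proves `theorem StarkC.ABS.Y_thm : Stmt_Y` in the file `Pool/Agent/ABS/Y.lean` (import
`Pool.Agent.ABS.StX` and finished modules of ABS if you like); helper lemmas in
`namespace StarkC.ABS.Yx`.  The statements used are hypotheses inside `Stmt_Y`.
-/

set_option autoImplicit false

open NumberField IsDedekindDomain
open scoped TensorProduct Classical

namespace StarkC.ABS

open StarkP (rootField)

/-! ### The dual group -/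

/-- XDU (about 60 lines), ONLY Mathlib facts.  The dual group is finite (`G → {z | z^|G| = 1}`;
`rootsOfUnity` is finite; maybe there is an instance in `Mathlib/GroupTheory/FiniteAbelian/Duality.lean`);
for `g ≠ 1` in a finite abelian group there is `ψ₀` with `ψ₀ g ≠ 1`
(`CommGroup.exists_apply_ne_one_of_hasEnoughRootsOfUnity`; for the commutative structure:
`letI : CommGroup G := { (inferInstance : Group G) with mul_comm := h }`), and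
`ψ₀(g) ∑ ψ(g) = ∑ ψ(g)`.  For `g = 1`: the number of characters is `|G|`
(`CommGroup.monoidHom_mulEquiv_of_hasEnoughRootsOfUnity` or
`card_monoidHom_of_hasEnoughRootsOfUnity`, `ℂ` algebraically closed). -/
def Stmt_XDU : Prop :=
  ∀ (G : Type) [Group G] [Finite G], Finite (G →* ℂˣ) ∧
    ((∀ g h : G, g * h = h * g) → ∀ [Fintype (G →* ℂˣ)] (g : G),
      ∑ ψ : G →* ℂˣ, ((ψ g : ℂˣ) : ℂ) = if g = 1 then (Nat.card G : ℂ) else 0)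

/-- XTW (about 70 lines).  Conjugate characters.  The values of `ψ` are `o`-th roots of unity,
`o = orderOf ψ` (`ψ ^ o = 1`), and the `o`-th roots of unity in `ℂ` are the powers of one primitive root
`ζ`; `σ ζ = ζ^t` with a unique `t < o`, which is coprime to `o`.  First part: so
`twist σ ψ = ψ^t`.  Second part: `ψ' = ψ^s` with an integer `s` (`Subgroup.mem_zpowers`), reduce modulo
`o` to `t < o`; `t` is coprime to `o` because `ψ` and `ψ'` have the same order (`Nat.card` of the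
`zpowers`, `orderOf_pow`: `o = o / gcd(o, t)`); then SIGT. (`o = 1`: `Ex 1 = {0}`.) -/
def Stmt_XTW : Prop :=
  Stmt_SIGT →
  ∀ (G : Type) [Group G] [Finite G] (ψ : G →* ℂˣ),
    (∀ σ : ℂ ≃+* ℂ, ∃ t ∈ Ex (orderOf ψ), (∀ z : ℂ, z ^ orderOf ψ = 1 → σ z = z ^ t) ∧
      twist σ ψ = ψ ^ t ∧ Subgroup.zpowers (twist σ ψ) = Subgroup.zpowers ψ) ∧
    (∀ ψ' : G →* ℂˣ, Subgroup.zpowers ψ' = Subgroup.zpowers ψ → ∃ t ∈ Ex (orderOf ψ),
      ψ' = ψ ^ t ∧ ∃ σ : ℂ ≃+* ℂ, (∀ z : ℂ, z ^ orderOf ψ = 1 → σ z = z ^ t) ∧ twist σ ψ = ψ')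

/-- XCL (about 80 lines), ONLY Mathlib facts.  In a finite group the sum over all elements is the sum
over the classes of generators of cyclic subgroups; `r` chooses a representative of every class.
`Finset.sum_fiberwise`-like over the fibres of `r`; the fibre over `x` with `r x = x` is
`{y | zpowers y = zpowers x}`, and `t ↦ x ^ t` is a bijection of `Ex (orderOf x)` onto it
(`pow_injOn_Iio_orderOf`, `orderOf_pow`; `Finset.sum_bij` or `Finset.sum_image`). -/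
def Stmt_XCL : Prop :=
  ∀ (X : Type) [Group X] [Fintype X] (r : X → X) (f : X → ℂ),
    (∀ x, Subgroup.zpowers (r x) = Subgroup.zpowers x) →
    (∀ x y, Subgroup.zpowers x = Subgroup.zpowers y → r x = r y) →
    ∑ x, f x = ∑ x ∈ Finset.univ.filter (fun x => r x = x), ∑ t ∈ Ex (orderOf x), f (x ^ t)

/-- XFO (about 90 lines), Fourier inversion.  `u(g) = |G|⁻¹ ∑_ψ c(ψ) ψ(g)⁻¹`; `σ` fixes it, because
`ψ ↦ twist σ ψ` is a bijection of the (finite) dual group (inverse `twist σ.symm`), so it is rational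
(FIXC for `n = 1` as in `PV1x.cyc_one` in `ABS/PV1.lean`: `Cyc 1 = ⊥`; `IntermediateField.mem_bot`).
`∑_g u(g) ψ'(g) = |G|⁻¹ ∑_ψ c(ψ) ∑_g (ψ' ψ⁻¹)(g) = c(ψ')` (`sum_hom_units`). -/
def Stmt_XFO : Prop :=
  Stmt_FIXC → Stmt_XDU →
  ∀ (G : Type) [Group G] [Fintype G] (c : (G →* ℂˣ) → ℂ),
    (∀ (σ : ℂ ≃+* ℂ) (ψ : G →* ℂˣ), σ (c ψ) = c (twist σ ψ)) →
    ∃ u : G → ℚ, ∀ ψ : G →* ℂˣ, ∑ g, (u g : ℂ) * ((ψ g : ℂˣ) : ℂ) = c ψ

/-- XFA (about 130 lines).  For every `ψ` choose (XTW for `r ψ`, `ψ' = ψ`) `t_ψ ∈ Ex o` and `σ_ψ` with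
`ψ = (r ψ)^t_ψ` and `σ_ψ z = z^t_ψ` for `z^o = 1`, `o = orderOf (r ψ) = orderOf ψ`, and put
`a ψ = σ_ψ (α (r ψ))`.  An automorphism which raises the `o`-th roots of unity to the power `t` (modulo
`o`) is determined on `rootField o` (`IntermediateField.adjoin_induction` or `AlgHom.ext` on generators).
Equivariance: `twist σ ψ` has the same `zpowers`, hence the same `r`; `σ ∘ σ_ψ` and `σ_(twist σ ψ)` raise
the `o`-th roots of unity to powers which agree, because `(r ψ)^(s t_ψ) = (r ψ)^t_(twist σ ψ)`.  The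
product: `σ_(ψ^t)` for `r ψ = ψ`, `t ∈ Ex o`, raises the roots of unity to the power `t` (as
`ψ^t = ψ^t_(ψ^t)`, both exponents `< o`), so NORMT for the family `σ_(ψ^t)`; `Cyc o = rootField o` by
definition (see the use in `ABS/PV3.lean`, `ABS/SYMG.lean`). -/
def Stmt_XFA : Prop :=
  Stmt_SIGT → Stmt_NORMT → Stmt_XTW →
  ∀ (G : Type) [Group G] [Finite G] (r : (G →* ℂˣ) → (G →* ℂˣ)) (α : (G →* ℂˣ) → ℂ),
    (∀ ψ, Subgroup.zpowers (r ψ) = Subgroup.zpowers ψ) →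
    (∀ ψ ψ', Subgroup.zpowers ψ = Subgroup.zpowers ψ' → r ψ = r ψ') →
    (∀ ψ, α ψ ∈ rootField (orderOf ψ)) → (∀ ψ, α ψ ≠ 0) →
    ∃ a : (G →* ℂˣ) → ℂ, (∀ ψ, a ψ ≠ 0) ∧
      (∀ (σ : ℂ ≃+* ℂ) (ψ : G →* ℂˣ), σ (a ψ) = a (twist σ ψ)) ∧
      (∀ ψ, α (r ψ) = 1 → a ψ = 1) ∧
      ∀ ψ, r ψ = ψ → ∀ β : rootField (orderOf ψ), (β : ℂ) = α ψ →
        ∏ t ∈ Ex (orderOf ψ), a (ψ ^ t) = ((Algebra.norm ℚ β : ℚ) : ℂ)

/-! ### Representations of abelian groups -/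

/-- XRA (about 110 lines).  Multiplicities of the linear characters in a representation of an abelian
group.  `P_ψ = |G|⁻¹ ∑_g ψ(g)⁻¹ ρ(g)` is idempotent with `ρ(g) P_ψ = ψ(g) P_ψ`; `m ψ` is the dimension of
its range, equal to its trace (`LinearMap.IsProj.trace` or `LinearMap.IsIdempotentElem...`), which is
`|G|⁻¹ ∑_g χ(g) ψ(g)⁻¹`; `∑_ψ P_ψ = 1` by XDU, so
`χ(g) = tr(ρ(g) ∑_ψ P_ψ) = ∑_ψ ψ(g) m_ψ`. -/
def Stmt_XRA : Prop :=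
  Stmt_XDU →
  ∀ (G V : Type) [Group G] [Fintype G] [Fintype (G →* ℂˣ)] [AddCommGroup V] [Module ℂ V]
    [Module.Finite ℂ V] (ρ : Representation ℂ G V), (∀ g h : G, g * h = h * g) →
    ∃ m : (G →* ℂˣ) → ℕ,
      (∀ ψ, (m ψ : ℂ) =
        (∑ g, ρ.character g * (((ψ g)⁻¹ : ℂˣ) : ℂ)) / (Nat.card G : ℂ)) ∧
      (∀ ψ, m ψ ≠ 0 → ∃ v : V, v ≠ 0 ∧ ∀ g, ρ g v = ((ψ g : ℂˣ) : ℂ) • v) ∧
      ∀ g, ρ.character g = ∑ ψ, (m ψ : ℂ) * ((ψ g : ℂˣ) : ℂ)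

/-- XRO (about 90 lines).  A rational-valued character of an abelian group is a sum of classes of
conjugate linear characters.  `m` of XRA; `m (twist σ ψ) = m ψ` (apply `σ` to the formula for `m ψ`; `σ`
fixes rational numbers), so `m (ψ^t) = m ψ` for `t ∈ Ex (orderOf ψ)` (XTW, second part: `ψ^t` has the same
`zpowers`); `c ψ = m ψ` if `r ψ = ψ` and `0` otherwise; XCL for `X` the dual group and
`f ψ = m ψ ψ(g)`. -/
def Stmt_XRO : Prop :=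
  Stmt_XDU → Stmt_SIGT → Stmt_XTW → Stmt_XCL → Stmt_XRA →
  ∀ (G V : Type) [Group G] [Fintype G] [Fintype (G →* ℂˣ)] [AddCommGroup V] [Module ℂ V]
    [Module.Finite ℂ V] (ρ : Representation ℂ G V) (r : (G →* ℂˣ) → (G →* ℂˣ)),
    (∀ g h : G, g * h = h * g) → (∀ ψ, Subgroup.zpowers (r ψ) = Subgroup.zpowers ψ) →
    (∀ ψ ψ', Subgroup.zpowers ψ = Subgroup.zpowers ψ' → r ψ = r ψ') →
    (∀ g, ∃ q : ℚ, ρ.character g = (q : ℂ)) →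
    ∃ c : (G →* ℂˣ) → ℕ,
      (∀ ψ, c ψ ≠ 0 → r ψ = ψ ∧ ∃ v : V, v ≠ 0 ∧ ∀ g, ρ g v = ((ψ g : ℂˣ) : ℂ) • v) ∧
      ∀ g, ρ.character g = ∑ ψ : G →* ℂˣ, (c ψ : ℂ) * cSum (orderOf ψ) ψ g

/-! ### The automorphism -/

/-- XNZ (about 50 lines), ONLY Mathlib facts.  Finitely many nonzero bilinear maps have a common point
where all are nonzero.  A vector space over the infinite field `ℚ` is not a finite union of proper
subspaces (`Subspace.biUnion_ne_univ_of_top_notMem` or `Subspace.exists_eq_top_of_iUnion_eq_univ`): first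
`w` outside all `ker (B i)`, then `f` outside all `ker (B i w)`. -/
def Stmt_XNZ : Prop :=
  ∀ (ι W F : Type) [Finite ι] [AddCommGroup W] [Module ℚ W] [AddCommGroup F] [Module ℚ F]
    (B : ι → W →ₗ[ℚ] F →ₗ[ℚ] ℂ), (∀ i, B i ≠ 0) → ∃ (w : W) (f : F), ∀ i, B i w f ≠ 0

/-- XBW (about 110 lines).  `F` is the dual of `W`, `B_ψ(w, f) = ∑_g ψ(g)⁻¹ f(τ(g) w)`, `ι` is the subtype of
`Ψ` (finite by XDU).  `B_ψ ≠ 0`: `P_ψ y = ∑_g ψ(g)⁻¹ μ(g) y` maps an eigenvector `x` of `ψ` to `|G| x ≠ 0`, and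
the `j (b i) = c i` span `M`, so `P_ψ (j (b i)) ≠ 0` for some `i`; with the coordinate `k` of it not zero,
`f = b.coord k` (`(c.coord k) (j y) = b.coord k y`, by expanding `y` in the basis `b`) gives
`B_ψ(b i, f) ≠ 0`. -/
def Stmt_XBW : Prop :=
  Stmt_XNZ → Stmt_XDU →
  ∀ (G W M : Type) [Group G] [Fintype G] [AddCommGroup W] [Module ℚ W] [AddCommGroup M] [Module ℂ M]
    (τ : Representation ℚ G W) (μ : Representation ℂ G M) (j : W →+ M) (n : ℕ)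
    (b : Module.Basis (Fin n) ℚ W) (c : Module.Basis (Fin n) ℂ M), (∀ i, j (b i) = c i) →
    (∀ (q : ℚ) (x : W), j (q • x) = (q : ℂ) • j x) → (∀ g x, j (τ g x) = μ g (j x)) →
    ∀ Ψ : Set (G →* ℂˣ),
      (∀ ψ ∈ Ψ, ∃ x : M, x ≠ 0 ∧ ∀ g, μ g x = ((ψ g : ℂˣ) : ℂ) • x) →
      ∃ (w : W) (f : W →ₗ[ℚ] ℚ), ∀ ψ ∈ Ψ,
        ∑ g, (((ψ g)⁻¹ : ℂˣ) : ℂ) * ((f (τ g w) : ℚ) : ℂ) ≠ 0

/-- XTR (about 130 lines).  `ξ x = x + ∑_g (∑_h u(h) f(τ(h g⁻¹) x)) • τ(g) w`; `F : M → ℂ` the linear form with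
`F (c i) = f (b i)` (`Module.Basis.constr`), so `F (j x) = f x`; `A x = x + ∑_g (∑_h u(h) F(μ(h g⁻¹) x)) • μ(g) (j w)`.
`ξ (τ(k) x) = τ(k) (ξ x)`: substitute `g = k g'`.  For `μ(g) x = ψ(g) x`:
`A x = x + (∑_h u(h) ψ(h)) F(x) P`, `P = ∑_g ψ(g)⁻¹ μ(g) (j w)`, `μ(k) P = ψ(k) P`, `F(P) = ∑_g ψ(g)⁻¹ f(τ(g) w)`;
`v = (∑_h u(h) ψ(h)) • P`. -/
def Stmt_XTR : Prop :=
  ∀ (G W M : Type) [Group G] [Fintype G] [AddCommGroup W] [Module ℚ W] [AddCommGroup M] [Module ℂ M]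
    (τ : Representation ℚ G W) (μ : Representation ℂ G M) (j : W →+ M) (n : ℕ)
    (b : Module.Basis (Fin n) ℚ W) (c : Module.Basis (Fin n) ℂ M), (∀ i, j (b i) = c i) →
    (∀ (q : ℚ) (x : W), j (q • x) = (q : ℂ) • j x) → (∀ g x, j (τ g x) = μ g (j x)) →
    ∀ (u : G → ℚ) (w : W) (f : W →ₗ[ℚ] ℚ), ∃ (ξ : W →ₗ[ℚ] W) (A : M →ₗ[ℂ] M),
      (∀ g x, ξ (τ g x) = τ g (ξ x)) ∧ (∀ x, A (j x) = j (ξ x)) ∧
      (∀ g x, A (μ g x) = μ g (A x)) ∧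
      ∀ ψ : G →* ℂˣ, ∃ (F : M →ₗ[ℂ] ℂ) (v : M), (∀ g, μ g v = ((ψ g : ℂˣ) : ℂ) • v) ∧
        (∀ x, (∀ g, μ g x = ((ψ g : ℂˣ) : ℂ) • x) → A x = x + F x • v) ∧
        F v = (∑ h, (u h : ℂ) * ((ψ h : ℂˣ) : ℂ)) *
          ∑ g, (((ψ g)⁻¹ : ℂˣ) : ℂ) * ((f (τ g w) : ℚ) : ℂ)

/-- XIN (about 70 lines).  If `A x = 0` then `x_ψ = ∑_g ψ(g)⁻¹ μ(g) x` is a `ψ`-eigenvector with
`0 = A x_ψ = x_ψ + F(x_ψ) v`; apply `F`: `F(x_ψ) (1 + F v) = 0`, so `x_ψ = 0`; and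
`∑_ψ x_ψ = |G| x` (XDU, `∑_ψ ψ(g⁻¹)`).  So `A` is injective, and bijective as `M` has finite dimension
(`LinearMap.injective_iff_surjective`). -/
def Stmt_XIN : Prop :=
  Stmt_XDU →
  ∀ (G M : Type) [Group G] [Finite G] [AddCommGroup M] [Module ℂ M] [Module.Finite ℂ M]
    (μ : Representation ℂ G M) (A : M →ₗ[ℂ] M), (∀ g h : G, g * h = h * g) →
    (∀ g x, A (μ g x) = μ g (A x)) →
    (∀ ψ : G →* ℂˣ, ∃ (F : M →ₗ[ℂ] ℂ) (v : M),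
      (∀ x, (∀ g, μ g x = ((ψ g : ℂˣ) : ℂ) • x) → A x = x + F x • v) ∧ 1 + F v ≠ 0) →
    Function.Bijective A

/-- The conclusion of XXI. -/
def ConclXI : Prop :=
  ∀ (G W M : Type) [Group G] [Fintype G] [AddCommGroup W] [Module ℚ W] [AddCommGroup M] [Module ℂ M]
    (τ : Representation ℚ G W) (μ : Representation ℂ G M) (j : W →+ M) (n : ℕ)
    (b : Module.Basis (Fin n) ℚ W) (c : Module.Basis (Fin n) ℂ M), (∀ i, j (b i) = c i) →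
    (∀ (q : ℚ) (x : W), j (q • x) = (q : ℂ) • j x) → (∀ g x, j (τ g x) = μ g (j x)) →
    (∀ g h : G, g * h = h * g) → ∀ a : (G →* ℂˣ) → ℂ, (∀ ψ, a ψ ≠ 0) →
    (∀ (σ : ℂ ≃+* ℂ) (ψ : G →* ℂˣ), σ (a ψ) = a (twist σ ψ)) →
    (∀ ψ, a ψ ≠ 1 → ∃ x : M, x ≠ 0 ∧ ∀ g, μ g x = ((ψ g : ℂˣ) : ℂ) • x) →
    ∃ (ξ : W ≃ₗ[ℚ] W) (A : M →ₗ[ℂ] M), (∀ g x, ξ (τ g x) = τ g (ξ x)) ∧
      (∀ x, A (j x) = j (ξ x)) ∧ (∀ g x, A (μ g x) = μ g (A x)) ∧ Function.Bijective A ∧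
      ∀ ψ : G →* ℂˣ, ∃ (F : M →ₗ[ℂ] ℂ) (v : M), (∀ g, μ g v = ((ψ g : ℂˣ) : ℂ) • v) ∧
        (∀ x, (∀ g, μ g x = ((ψ g : ℂˣ) : ℂ) • x) → A x = x + F x • v) ∧ 1 + F v = a ψ

/-- XXI (about 110 lines).  XBW with `Ψ = {ψ | a ψ ≠ 1}`; `β ψ = ∑_g ψ(g)⁻¹ f(τ(g) w)` satisfies
`σ (β ψ) = β (twist σ ψ)`; `c ψ = (a ψ - 1) / β ψ` (`= 0` if `β ψ = 0`, then `a ψ = 1`), so
`c ψ * β ψ = a ψ - 1` always and `σ (c ψ) = c (twist σ ψ)`; XFO gives `u`; XTR, XIN.  `ξ` is injective,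
because `j` is injective (`j (b i) = c i`, both bases) and `A` is; `W` has finite dimension
(`LinearEquiv.ofInjectiveEndo`). -/
def Stmt_XXI : Prop :=
  Stmt_FIXC → Stmt_XDU → Stmt_XNZ → Stmt_XFO → Stmt_XBW → Stmt_XTR → Stmt_XIN → ConclXI

/-! ### Regulators -/

/-- XRG (about 110 lines).  `f ↦ f id` is a linear isomorphism of `homG T (linRep ψ)` onto the space `E` of
the `x` with `g x = ψ(g)⁻¹ x` (inverse: `x ↦ (α ↦ α(1) • x)`; `(linRep ψ).dual g α = ψ(g)⁻¹ α`), it carries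
`f ↦ A ∘ f` to `A` on `E`, which is the transvection of `F` and `v`
(`LinearMap.transvection.det : det (transvection f v) = 1 + f v`; `LinearMap.det_conj`).  `XC L T` has
finite dimension (`XRAT_thm`).  The condition in `Reg` holds by `PHIR.hom_stable`. -/
def Stmt_XRG : Prop :=
  ∀ (K L : Type) [Field K] [NumberField K] [Field L] [NumberField L] [Algebra K L]
    (T : Set (HeightOneSpectrum (𝓞 L))) (hT : StableT K T) (ψ : (L ≃ₐ[K] L) →* ℂˣ)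
    (A : XC L T →ₗ[ℂ] XC L T) (F : XC L T →ₗ[ℂ] ℂ) (v : XC L T), T.Finite →
    (∀ g : L ≃ₐ[K] L, A ∘ₗ repX K T hT g = repX K T hT g ∘ₗ A) →
    (∀ g : L ≃ₐ[K] L, repX K T hT g v = (((ψ g)⁻¹ : ℂˣ) : ℂ) • v) →
    (∀ x, (∀ g : L ≃ₐ[K] L, repX K T hT g x = (((ψ g)⁻¹ : ℂˣ) : ℂ) • x) → A x = x + F x • v) →
    Reg T (linRep ψ) A = 1 + F v

/-- XRS (about 90 lines).  The regulator of a sum of classes: as `LASTx.reg_sum` (`ABS/LAST.lean`) with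
`TRD_thm`, `ALLT.rgt`; either one index for all pairs `(i, t)`, or first `LASTx.reg_sum` for the diagonal
representation of `∑_{t ∈ Ex (q i)} (ψ i)^t` (`RESFx.diagRep` in `ABS/RESF.lean`). -/
def Stmt_XRS : Prop :=
  ∀ (K L : Type) [Field K] [NumberField K] [Field L] [NumberField L] [Algebra K L]
    (T : Set (HeightOneSpectrum (𝓞 L))) (hT : StableT K T) (A : XC L T →ₗ[ℂ] XC L T)
    (V : Type) [AddCommGroup V] [Module ℂ V] [Module.Finite ℂ V]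
    (ρ : Representation ℂ (L ≃ₐ[K] L) V) (m : ℕ) (q c : Fin m → ℕ)
    (ψ : Fin m → ((L ≃ₐ[K] L) →* ℂˣ)), T.Finite →
    (∀ g : L ≃ₐ[K] L, A ∘ₗ repX K T hT g = repX K T hT g ∘ₗ A) → Function.Bijective A →
    (∀ g, ρ.character g = ∑ i, (c i : ℂ) * cSum (q i) (ψ i) g) →
    Reg T ρ A = ∏ i, cReg (q i) T (ψ i) A ^ c i

/-- XEV (about 60 lines).  Conjugate eigenvectors: apply `σ` to the coefficients (`Finsupp.mapRange`); the
support and the sum of the coefficients stay as they are, and `actC` is a `mapDomain`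
(`Finsupp.mapDomain_mapRange`). -/
def Stmt_XEV : Prop :=
  ∀ (K L : Type) [Field K] [NumberField K] [Field L] [NumberField L] [Algebra K L]
    (T : Set (HeightOneSpectrum (𝓞 L))) (hT : StableT K T) (σ : ℂ ≃+* ℂ)
    (ψ : (L ≃ₐ[K] L) →* ℂˣ) (x : XC L T), x ≠ 0 →
    (∀ g : L ≃ₐ[K] L, repX K T hT g x = (((ψ g)⁻¹ : ℂˣ) : ℂ) • x) →
    ∃ y : XC L T, y ≠ 0 ∧
      ∀ g : L ≃ₐ[K] L, repX K T hT g y = (((twist σ ψ g)⁻¹ : ℂˣ) : ℂ) • y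

/-- The conclusion of XPH. -/
def ConclXP : Prop :=
  ∀ (K L : Type) [Field K] [NumberField K] [Field L] [NumberField L] [Algebra K L] [IsGalois K L]
    (S : Finset (HeightOneSpectrum (𝓞 K)))
    (φ : XQ L (aboveSet K L S) ≃ₗ[ℚ] QU L (aboveSet K L S))
    (Θ : XC L (aboveSet K L S) →ₗ[ℂ] XC L (aboveSet K L S))
    (hT : StableT K (aboveSet K L (S : Set (HeightOneSpectrum (𝓞 K)))))
    (a : ((L ≃ₐ[K] L) →* ℂˣ) → ℂ),
    IsPhiTheta K (aboveSet K L S) φ Θ → (∀ g h : L ≃ₐ[K] L, g * h = h * g) → (∀ ψ, a ψ ≠ 0) →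
    (∀ (σ : ℂ ≃+* ℂ) (ψ : (L ≃ₐ[K] L) →* ℂˣ), σ (a ψ) = a (twist σ ψ)) →
    (∀ ψ, a ψ ≠ 1 → ∃ x : XC L (aboveSet K L S), x ≠ 0 ∧
      ∀ g : L ≃ₐ[K] L, repX K (aboveSet K L S) hT g x = (((ψ g)⁻¹ : ℂˣ) : ℂ) • x) →
    ∃ (φ₁ : XQ L (aboveSet K L S) ≃ₗ[ℚ] QU L (aboveSet K L S))
      (Θ₁ A : XC L (aboveSet K L S) →ₗ[ℂ] XC L (aboveSet K L S)),
      IsPhiTheta K (aboveSet K L S) φ₁ Θ₁ ∧ Θ₁ = Θ ∘ₗ A ∧ Function.Bijective A ∧
      (∀ g : L ≃ₐ[K] L, A ∘ₗ repX K (aboveSet K L S) hT g = repX K (aboveSet K L S) hT g ∘ₗ A) ∧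
      ∀ ψ : (L ≃ₐ[K] L) →* ℂˣ, Reg (aboveSet K L S) (linRep ψ) A = a ψ

/-- XPH (about 140 lines).  `W = XQ`, `M = XC`, `τ = repQ` (`Stark/INFL.lean`), `μ = repX`, bases `b`, `c` from
`XRAT_thm`, `j x = ∑ (b.repr x i) • c i` with `(j x).val a = x a` (models: `PHIR.main` in
`StarkT/PHIR.lean`, where `Stmt_ND` is used with the same data).  ConclXI with `a'(ψ) = a(ψ⁻¹)`
(`twist σ ψ⁻¹ = (twist σ ψ)⁻¹`), then `φ₁ = ξ ≪≫ φ`, `Θ₁ = Θ ∘ A`: for `z.val a = x a` we have `z = j x`,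
`A z = j (ξ x)`, so `(Θ (A z)).val = lam (φ (ξ x))`.  `Reg (linRep ψ) A = a ψ` by XRG with the `F`, `v` of
`ψ⁻¹`. -/
def Stmt_XPH : Prop := Stmt_XRG → ConclXI → ConclXP

/-! ### The theorem -/

/-- XCY (about 40 lines).  `ℚ(ζ_o)` is cyclic over `ℚ` if `o ∣ n` and `(ℤ/n)^*` is cyclic:
`ZMod.unitsMap_surjective`, `isCyclic_of_surjective`, `IsCyclotomicExtension.autEquivPow` (`rootField o` is
cyclotomic: see `FENx` in `ABS/FEN.lean` or `ABS/SYMH.lean`). -/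
def Stmt_XCY : Prop :=
  ∀ n o : ℕ, 0 < n → o ∣ n → IsCyclic (ZMod n)ˣ →
    IsGalois ℚ (rootField o) ∧ IsCyclic (rootField o ≃ₐ[ℚ] rootField o)

/-- The values of all linear characters of order dividing `2ℓ^k` (`ℓ` prime, `ℓ = 2` is allowed). -/
def ConclNO : Prop :=
  ∀ (K L : Type) [Field K] [NumberField K] [Field L] [NumberField L] [Algebra K L] [IsGalois K L]
    (ℓ k : ℕ) (ψ : (L ≃ₐ[K] L) →* ℂˣ) (S : Finset (HeightOneSpectrum (𝓞 K))), ℓ.Prime →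
    orderOf ψ ∣ 2 * ℓ ^ k → PPall (orderOf ψ) ψ S

/-- XVL (about 70 lines).  Let `o` be the order.  If `ℓ = 2` and `4 ∣ o` then `o = 2^j > 2`: `Concl1`
(`OkOrd 2 j`).  Otherwise `o ∣ 2` or `ℓ` is odd, and `(ℤ/o)^*` is cyclic (`ZMod.isCyclic_units_iff` or
its parts), so `rootField o` is cyclic over `ℚ` (XCY with `n = o`) and `ConclV` with `E = rootField o`
gives `x = a = N(β)`, `β ∈ rootField o = Cyc o`, `β ≠ 0` as `a ≠ 0`. -/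
def Stmt_XVL : Prop := Concl1 → ConclV → Stmt_XCY → ConclNO

/-- XVN (about 120 lines).  PCX with `H i = ⊤`, the restriction of `ψ i` to `⊤`, `q i = orderOf (ψ i)`,
`Q i x := ∃ α : Cyc (orderOf (ψ i)), α ≠ 0 ∧ x = nm (orderOf (ψ i)) α` (`ConclNO` for `liftChar ⊤ _`, which
has the same order; `o ∣ 2ℓ^k` as `ψ^(2ℓ^k) = 1`).  `indFun ⊤ (extZ χ) g = χ g` (as in `ABS/PV2.lean`). -/
def Stmt_XVN : Prop :=
  Stmt_PCX → ConclNO →
  ∀ (K L : Type) [Field K] [NumberField K] [Field L] [NumberField L] [Algebra K L] [IsGalois K L]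
    (ℓ k : ℕ) (S : Finset (HeightOneSpectrum (𝓞 K)))
    (φ : XQ L (aboveSet K L S) ≃ₗ[ℚ] QU L (aboveSet K L S))
    (Θ : XC L (aboveSet K L S) →ₗ[ℂ] XC L (aboveSet K L S)) (m : ℕ)
    (ψ : Fin m → ((L ≃ₐ[K] L) →* ℂˣ)), IsPhiTheta K (aboveSet K L S) φ Θ → ℓ.Prime →
    (∀ g : L ≃ₐ[K] L, g ^ (2 * ℓ ^ k) = 1) →
    ∃ α : ∀ i, rootField (orderOf (ψ i)), (∀ i, α i ≠ 0) ∧
      ∀ (c : Fin m → ℕ) (θ : (L ≃ₐ[K] L) → ℂ),
        (∀ g, θ g = ∑ i, (c i : ℂ) * cSum (orderOf (ψ i)) (ψ i) g) →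
        ∃ F : ℂ → ℂ, IsArtinL θ (S : Set (HeightOneSpectrum (𝓞 K))) F ∧
          ∀ (V : Type) [AddCommGroup V] [Module ℂ V] [Module.Finite ℂ V]
            (ρ : Representation ℂ (L ≃ₐ[K] L) V), (∀ g, ρ.character g = θ g) →
            Reg (aboveSet K L S) ρ Θ =
              (∏ i, ((Algebra.norm ℚ (α i) : ℚ) : ℂ) ^ c i) * meromorphicTrailingCoeffAt F 0

/-- The conclusion of XFI. -/
def ConclX : Prop :=
  ∀ (K L : Type) [Field K] [NumberField K] [Field L] [NumberField L] [Algebra K L] [IsGalois K L]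
    (ℓ k : ℕ) (S : Finset (HeightOneSpectrum (𝓞 K))), (∀ g h : L ≃ₐ[K] L, g * h = h * g) → ℓ.Prime →
    (∀ g : L ≃ₐ[K] L, g ^ (2 * ℓ ^ k) = 1) →
    ∃ (φ : XQ L (aboveSet K L S) ≃ₗ[ℚ] QU L (aboveSet K L S))
      (Θ : XC L (aboveSet K L S) →ₗ[ℂ] XC L (aboveSet K L S)),
      IsPhiTheta K (aboveSet K L S) φ Θ ∧
      ∀ (V : Type) [AddCommGroup V] [Module ℂ V] [Module.Finite ℂ V]
        (ρ : Representation ℂ (L ≃ₐ[K] L) V), StarkP.Occurs (aboveSet K L S) ρ →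
        (∀ g, ∃ q : ℚ, ρ.character g = (q : ℂ)) →
        ∃ F : ℂ → ℂ, IsArtinL ρ.character (S : Set (HeightOneSpectrum (𝓞 K))) F ∧
          Reg (aboveSet K L S) ρ Θ = meromorphicTrailingCoeffAt F 0

/-- XFI (about 160 lines), THEOREM (X).  `φ₀`, `Θ₀` from `ALLT.exph K L S`; `ψ = e : Fin m ≃ (G →* ℂˣ)`
(`Fintype.equivFin`); `α` from XVN; `r ψ = R (zpowers ψ)`, where `R C` is a chosen generator of `C` if there is
one.  `occ ψ`: there is `x ≠ 0` in `XC` with `g x = ψ(g)⁻¹ x`; `occ (r ψ) ↔ occ ψ` (XTW, XEV).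
`α' ψ = (α ψ)⁻¹` if `occ ψ`, and `1` otherwise; XFA gives `a`, and `a ψ ≠ 1` implies `occ ψ`; ConclXP gives
`φ₁`, `Θ₁`, `A`.  For `ρ`: XRO gives `c`; if `c ψ ≠ 0` then `r ψ = ψ` and `occ ψ` (`StarkP.Occurs`; `StarkP.XC`,
`StarkP.act` are the carrier and `actC` by definition).  XVN for `c ∘ e` gives `F` and
`Reg ρ Θ₀ = ∏ N(α i)^(c i) F^*`; `Reg ρ Θ₁ = Reg ρ A * Reg ρ Θ₀` (`PHIR.reg_mul`), and
`Reg ρ A = ∏ cReg(ψ_i, A)^(c i)` (XRS), `cReg(ψ, A) = ∏_{t ∈ Ex o} a (ψ^t) = N(α ψ)⁻¹` if `c ψ ≠ 0`. -/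
def Stmt_XFI : Prop :=
  Stmt_SIGT → Stmt_NORMT → Stmt_PCX → ConclNO → Stmt_XVN → Stmt_XDU → Stmt_XTW → Stmt_XCL →
  Stmt_XRA → Stmt_XRO → Stmt_XFA → Stmt_XRS → Stmt_XEV → ConclXP → ConclX

end StarkC.ABS
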