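import Pool.Agent.ABS.StY

/-!
# Project ABS (MP_46b841_nt), part Y: when every character occurs
-/

set_option autoImplicit false

open NumberField IsDedekindDomain
open scoped TensorProduct Classical

namespace StarkC.ABS

/-- YSP (about 90 lines), printed definitions only (`Stark/PDefs.lean`, `ABS/PDefsY.lean`).  If the place `a` of
`S(L)` has `|G|` different images under `G` (the place of `K` below it splits completely) and `b` is a
place of `S(L)` which is not one of them, then every representation `ρ ≠ 0` occurs in `ℂ ⊗ X`.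
PROOF.  `v ≠ 0` in `V`; `f(α) = ∑_g α(ρ(g) v) ([g a] - [g b])`, `[g a] = Finsupp.single (a ∘ g⁻¹) 1` (so
`act h [g a] = [h g a]`), a linear map `Module.Dual ℂ V → ((L → ℝ) →₀ ℂ)`.  `f α ∈ XC`: the places `g a`, `g b` are in
`placeSet L T` (`StarkC.STB_thm`: `placeSet` is stable, `StarkP.placeSet = StarkC.placeSet` by
definition), the sum of the coefficients is zero.  `f(ρ^*(h) α) = ∑_g α(ρ(h⁻¹ g) v) ([g a] - [g b]) = h f(α)`
(substitute `g = h g'`).  The coefficient of `f(α)` at `a` is `α(v)` (`g a = a` only for `g = 1`, and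
`g b ≠ a`), and some `α` has `α(v) ≠ 0` (`Module.forall_dual_apply_eq_zero_iff`). -/
def Stmt_YSP : Prop :=
  ∀ (K L : Type) [Field K] [NumberField K] [Field L] [NumberField L] [Algebra K L] [IsGalois K L]
    (S : Set (HeightOneSpectrum (𝓞 K))) (a b : L → ℝ), a ∈ StarkP.placeSet L (StarkP.aboveSet K L S) →
    b ∈ StarkP.placeSet L (StarkP.aboveSet K L S) →
    (∀ g : L ≃ₐ[K] L, g ≠ 1 → a ∘ g ≠ a) → (∀ g : L ≃ₐ[K] L, a ∘ g ≠ b) →
    ∀ (V : Type) [AddCommGroup V] [Module ℂ V] [Module.Finite ℂ V]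
      (ρ : Representation ℂ (L ≃ₐ[K] L) V), Nontrivial V →
      StarkP.OccursIn (StarkP.aboveSet K L S) ρ

end StarkC.ABS
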