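import Pool.Agent.ABS.StZG
import Pool.Agent.ABS.StU
import Pool.Agent.ABS.StE

/-!
# Project ABS (MP_46b841_nt), part Z (group part), the identities for the characters of a leaf

`Leaf A ψ g n m s` (`ABS/StZG.lean`), `χ = Ind_A ψ`, `o = 2^n m`.  `Tr χ` is induced from a linear character of order
`2 m` (ZID, ZTR), and it is a combination of the `Tr Ind η`, `η` of order `2^n` (ZRM).

Module `X` proves `theorem StarkC.ABS.X_thm : Stmt_X` in the file `Pool/Agent/ABS/X.lean` (import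
`Pool.Agent.ABS.StZH` and the finished modules named in the text); helper lemmas in
`namespace StarkC.ABS.Xx`.  The statements used are hypotheses inside `Stmt_X`.
-/

set_option autoImplicit false

open scoped Classical

namespace StarkC.ABS

open StarkC.MON
open StarkP (rootField charField trChar)

/-- ZTR (120 lines; models `TRX_thm`, `ABS/TRX.lean`, `CFR_thm`, `ABS/CFR.lean`).  The trace of `ℚ(χ)/ℚ`, when `ℚ(ζ_o)/ℚ(χ)` is
quadratic.  PROOF. `F = charField χ ≤ rootField o`: each `χ x` is fixed by all `σ` with `σ z = z` for `z^o = 1`, so it is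
in `Cyc o` (`FIXC_thm`, `ABS/FIXC.lean`).  Let `E = rootField o`, an extension of `F` (`IntermediateField.inclusion`), `s'` an
automorphism of `ℂ` with `s' z = z^s` (SIGT).  `Tr_{E/ℚ} (χ x) = ∑_{j ∈ Ex o} χt j x` by TRT (as in `TRX_thm`).  And
`Tr_{E/ℚ} y = [E : F] Tr_{F/ℚ} y` for `y ∈ F` (`Algebra.trace_trace`, `Algebra.trace_algebraMap`).  `[E : F] = 2`:
`E/F` is Galois (`E/ℚ` is), its group has at most the two elements given by `z ↦ z`, `z ↦ z^s`: an `F`-automorphism of `E`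
extends to `σ ∈ Aut(ℂ)` (`StarkAlg.AutF.exists_extend`), which fixes all `χ x`, so it is one of the two on the `o`-th
roots of unity; and `s'` restricts to a nontrivial one (`s % o ≠ 1 % o`), `E` is stable (`IsGalois.card_aut_eq_finrank`).
Or without fields between: `y = χ x` satisfies `χt (j s % o) x = χt j x`, and `Tr_{F/ℚ} y` is the sum over the embeddings
of `F`, each of which extends to exactly two embeddings of `E`. -/
def Stmt_ZTR : Prop :=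
  Stmt_SIGT → Stmt_TRT →
  ∀ (G : Type) (χ : G → ℂ) (χt : ℕ → G → ℂ) (o s : ℕ), 0 < o → o.Coprime s →
    s * s % o = 1 % o → s % o ≠ 1 % o →
    (∀ σ : ℂ ≃+* ℂ, (∀ x, σ (χ x) = χ x) ↔
      ((∀ z : ℂ, z ^ o = 1 → σ z = z) ∨ ∀ z : ℂ, z ^ o = 1 → σ z = z ^ s)) →
    (∀ j ∈ Ex o, ∀ σ : ℂ ≃+* ℂ, (∀ z : ℂ, z ^ o = 1 → σ z = z ^ j) → ∀ x, σ (χ x) = χt j x) →
    charField χ ≤ rootField o ∧ ∀ x, 2 * trChar χ x = ∑ j ∈ Ex o, χt j x

/-- ZID (200 lines).  PROOF. `C₀ = {a ∈ A | ψ(a)^(2m) = 1}` (as a subgroup of `G`), `C = C₀ ∪ g C₀`, a subgroup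
(`g c g c' = (g g) (g⁻¹ c g) c'`, `ψ (g g) = 1`, `ψ (g⁻¹ c g) = ψ(c)^s`; `g ∉ A`, otherwise `ψ = ψ^s`, but
`s = 3` modulo `4`; `g⁻¹ C₀ g = C₀` by cardinality), `ε (c) = ψ c`, `ε (g c) = ψ c`: a homomorphism, as `ψ(c)^s = ψ(c)` for `c ∈ C₀`
(`s = 1` modulo `2 m`: `s` is odd).  `ε` has order `2 m` (`ψ` takes all values of order dividing `2^n m`, `n ≥ 1`).
`[A : C₀] = 2^(n-1)` (`ψ^(2m)` has order `2^(n-1)`, `IDXx.index_ker`), `|C| = 2 |C₀|`, `|A| = 2^(n-1) |C₀|`.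
Let `h y = ∑_{j ∈ Ex o} ψ(y)^j` on `A` (`0` outside).  `h y = 2^(n-1) ∑_{j ∈ Ex 2m} ψ(y)^j` if `y ∈ C₀`, and `h y = 0` otherwise:
RAM with `q = 2^n` (the sum over `Ex (2^n)` of the powers of a root of unity `w` of order dividing `2^n` is `2^(n-1) w`
if `w = ± 1` and `0` otherwise, see `CHI_thm`, `ABS/CHI.lean`), and RAM with `q = 2`.
Right side: `∑_{j ∈ Ex 2m} ∑_x ε^j(x⁻¹ y x)` over the `x` with `x⁻¹ y x ∈ C₀` gives the left side (times `|C|/2`,
`|A|/2^(n-1) = |C|/2`); the sum over the `x` with `w = x⁻¹ y x ∈ g C₀` is zero: let `a₁ ∈ A` with `ψ a₁ = i`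
(`i² = -1`); replacing `x` by `x a₁` changes `w` to `a₁⁻¹ w a₁ = g (g⁻¹ a₁⁻¹ g) c a₁` (`w = g c`), in `g C₀` as well, with
`ψ`-part `ψ(c) i^(1-s) = -ψ(c)` (`1 - s = 2` modulo `4`), so `ε^j`, `j` odd, changes its sign. -/
def Stmt_ZID : Prop :=
  Stmt_RAM →
  ∀ (G : Type) [Group G] [Fintype G] (A : Subgroup G) (ψ : A →* ℂˣ) (g : G) (n m s : ℕ),
    Leaf A ψ g n m s →
    ∃ (C : Subgroup G) (ε : C →* ℂˣ), orderOf ε = 2 * m ∧
      ∀ x, ∑ j ∈ Ex (2 ^ n * m), indFun A (extZ (ψ ^ j)) x =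
        2 * ∑ j ∈ Ex (2 * m), indFun C (extZ (ε ^ j)) x

/-- ZRM (200 lines; models `IDX_thm`, `ORDN_thm`).  PROOF. `a` with `a = 1` modulo `2^n`, `m ∣ a` (Chinese remainder theorem).
`B d = {x ∈ A | ψ(x)^(2^n d) = 1}` (as a subgroup of `G`, `(ψ ^ (2^n d)).ker.map A.subtype`), `η d` = the
restriction of `ψ ^ a` to `B d`.  IDX for the group `A` and `ψ` (`q = 2^n`): its order is `2^n`, and
`indFun (ψ ^ (2^n d)).ker (extZ (η d ^ i))` (in `A`) is `(m/d) (ψ^a)^i` on the kernel and `0` outside; inducing to `G`: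
`MON.indL_indFun` (`extZ_tr`).  RAM: `∑_{j ∈ Ex o} ψ^j = ∑_{d ∣ m} μ(d) ∑_{i ∈ Ex 2^n} Ind_{B d}^A η_d^i` on `A`; apply `indL A`.
`Leaf (B d) (η d) g n 1 s`: `g⁻¹ x g ∈ B d` and `η (g⁻¹ x g) = η(x)^s`, as `ψ (g⁻¹ x g) = ψ(x)^s`; `g g ∈ B d`. -/
def Stmt_ZRM : Prop :=
  Stmt_RAM → Stmt_IDX →
  ∀ (G : Type) [Group G] [Fintype G] (A : Subgroup G) (ψ : A →* ℂˣ) (g : G) (n m s : ℕ),
    Leaf A ψ g n m s →
    ∃ (B : ℕ → Subgroup G) (η : ∀ d, B d →* ℂˣ), (∀ d ∈ m.divisors, Leaf (B d) (η d) g n 1 s) ∧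
      ∀ x, ∑ j ∈ Ex (2 ^ n * m), indFun A (extZ (ψ ^ j)) x =
        ∑ d ∈ m.divisors, (ArithmeticFunction.moebius d : ℂ) *
          ∑ j ∈ Ex (2 ^ n), indFun (B d) (extZ (η d ^ j)) x

/-- ZIM (100 lines), the printed form: image of prime power order, or nilpotent image.  PROOF. If the image is a
`2`-group (every `ρ (g ^ (2 ^ j)) = 1` for some `j`) then it is nilpotent (`IsPGroup.isNilpotent` for
`G ⧸ MonoidHom.ker ρ` or `Im ρ`).  And for a `Leaf A ψ g n m s` with `ρ.character = indFun A (extZ ψ)`, `ρ` irreducible with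
such an image: `m = 1`: let `ψ a` have order `m`, odd (`a ∈ A` a power of an element with `ψ` of order `2^n m`);
`ρ (a ^ (2^j)) = 1`, so the kernel of `ρ` contains `b = a ^ (2 ^ j)`, `ψ b` of order `m`; but the kernel of
`Ind_A ψ` is contained in the kernel of `ψ`: `χ b = χ 1` is the sum of `[G : A]` roots of unity `ψ (x⁻¹ b x)`, so all are
`1`, also that for `x = 1`. -/
def Stmt_ZIM : Prop :=
  ∀ (G V : Type) [Group G] [Fintype G] [AddCommGroup V] [Module ℂ V] [Module.Finite ℂ V]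
    (ρ : Representation ℂ G V), (∀ g, ∃ j : ℕ, ρ (g ^ (2 ^ j)) = 1) →
    NIm ρ ∧ ∀ (A : Subgroup G) (ψ : A →* ℂˣ) (g : G) (n m s : ℕ), Leaf A ψ g n m s →
      ρ.character = indFun A (extZ ψ) → m = 1

end StarkC.ABS
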