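import Pool.Agent.ABS.StZI
import Pool.Agent.ABS.StD3

/-!
# Project ABS (MP_46b841_nt), part Z: from `EF2` (`ABS/StD3.lean`) to `NoG` (`ABS/StZI.lean`)
-/

set_option autoImplicit false

namespace StarkC.ABS

/-- ZNG (100 lines; the same construction as `DEM`, `ABS/StD3.lean`, the other direction).  PROOF. `E` = the fixed field of
`τ₀ : ζ ↦ ζ ^ s` in `ℚ(ζ_(2^n))` (`CyclotomicField`), `E ≃ₐ[ℚ] EF2 n s` as in DEM; the norms agree. -/
def Stmt_ZNG : Prop :=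
  Stmt_SIGT → ∀ n s : ℕ, 3 ≤ n → TT n s → ∀ α : EF2 n s, α ≠ 0 → NoG n s (Algebra.norm ℚ α)

end StarkC.ABS
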