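import Pool.Agent.ABS.StZ
import Pool.Agent.ABS.StZG

/-!
# Project ABS (MP_46b841_nt), part Z, addition: characters which are realized over `ℚ(χ)`

THEOREM.  An irreducible character `χ` with nilpotent image which is not symplectic (`¬ Sy`) is the
character of a matrix representation with entries in `ℚ(χ)` (`Realizable`).  With THEOREM (Z) and Stark in
norm this gives ONE `φ` with `R_S(θ, φ) = L_S^*(0, θ)` for all rational-valued `θ` with such constituents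
(`p`-groups, ...).

PROOF.  `ConclZOQ` (part Z, group part, helper72): `χ = Ind_H ψ` with `ψ` fixed by the automorphisms which fix `χ`
(RZM), or a leaf (RZD, RZT): `χ = Ind_A ψ`, `ψ(g⁻¹ a g) = ψ(a)^s`, `ψ(g²) = 1`; the representation of
`B = A ∪ gA` induced from `ψ` is realized over the fixed field of `ζ ↦ ζ^s` in `ℚ(ψ)`; RZI: induction
of matrix representations.

Module `X` proves `theorem StarkC.ABS.X_thm : Stmt_X` in the file `Pool/Agent/ABS/X.lean` (import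
`Pool.Agent.ABS.StZR` and finished modules of ABS if you like); helper lemmas in
`namespace StarkC.ABS.Xx`.  The statements used are hypotheses inside `Stmt_X`.
-/

set_option autoImplicit false

open scoped Classical

namespace StarkC.ABS

open StarkP (charField Realizable)

/-- The trace of the matrices, extended by zero. -/
noncomputable def extM {G : Type} [Group G] {H : Subgroup G} {d : ℕ}
    (R : H →* Matrix (Fin d) (Fin d) ℂ) : G → ℂ :=
  fun x => if hx : x ∈ H then (R ⟨x, hx⟩).trace else 0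

/-- RZI (about 180 lines).  Induced matrix representations.  `y : G ⧸ H → G` representatives
(`Quotient.out`), `e : (G ⧸ H) × Fin d ≃ Fin d'`.  `R'(g)` has at `((i, a), (j, b))` the entry
`R(y_i⁻¹ g y_j) a b` if `y_i⁻¹ g y_j ∈ H`, and `0` otherwise (`Matrix.reindex e`).  Product: for `g'` and `j` there is
exactly one `k` with `y_k⁻¹ g' y_j ∈ H` (the class of `g' y_j`), and then `y_i⁻¹ g g' y_j ∈ H` iff
`y_i⁻¹ g y_k ∈ H`.  Trace: `∑_i extM R (y_i⁻¹ g y_i) = |H|⁻¹ ∑_x extM R (x⁻¹ g x)`: `extM R` is constant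
on `x ↦ h⁻¹ x h`, and `x` runs through the `y_i h` (model: `MON.indL_apply`, `StarkT/INDREP.lean`). -/
def Stmt_RZI : Prop :=
  ∀ (G : Type) [Group G] [Fintype G] (H : Subgroup G) (d : ℕ) (R : H →* Matrix (Fin d) (Fin d) ℂ)
    (E : IntermediateField ℚ ℂ), (∀ h i j, R h i j ∈ E) →
    ∃ (d' : ℕ) (R' : G →* Matrix (Fin d') (Fin d') ℂ), (∀ g i j, R' g i j ∈ E) ∧
      ∀ g, (R' g).trace = indFun H (extM R) g

/-- RZM (about 50 lines).  RZI for the `1 × 1` matrices `ψ h` and `E = charField (indFun H (extZ ψ))`: a number fixed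
by all `σ` which fix the values of `χ` is in `charField χ` (`FIXCx.core`, `ABS/FIXC.lean`). -/
def Stmt_RZM : Prop :=
  Stmt_RZI →
  ∀ (G : Type) [Group G] [Fintype G] (H : Subgroup G) (ψ : H →* ℂˣ),
    (∀ σ : ℂ ≃+* ℂ, (∀ g, σ (indFun H (extZ ψ) g) = indFun H (extZ ψ) g) →
      ∀ h, σ ((ψ h : ℂˣ) : ℂ) = ((ψ h : ℂˣ) : ℂ)) →
    Realizable (indFun H (extZ ψ))

/-- RZD (about 220 lines).  The leaf.  `o = 2^n m` the order of `ψ`; `s² = 1` and `s ≠ 1` modulo `o` (`TT`: modulo `4`,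
`s = 3`), so `g ∉ A` (otherwise `ψ^s = ψ`).  `B = A ∪ gA = A ∪ Ag` (a subgroup: `norm`, `mem`; `g` normalises the
finite group `A`).  `D(a) = diag(ψ a, (ψ a)^s)`, `D(a g) = D(a) w`, `w` the permutation matrix of the
two coordinates, is a homomorphism on `B`: `w D(b) w = D(g b g⁻¹)` (`conj` for `b = g⁻¹ (g b g⁻¹) g`, and
`ψ(g b g⁻¹)^(s s) = ψ(g b g⁻¹)`), `D(g g) = 1`.  `z` = a value of `ψ` of order `o` (`CFLx.exists_gen`), `P` = the matrix
with the rows `(1, z)`, `(1, z^s)`, `det P = z^s - z ≠ 0`; `R(x) = P⁻¹ D(x) P`.  Let `σ` fix `χ`.  If `σ ψ = ψ`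
then `σ` fixes `z`, `P`, `D(x)`.  If `σ ψ = ψ^s` then `σ(P) = w P` and `σ(D(x)) = w D(x) w`.  In both cases
`σ(R(x)) = R(x)`, so the entries are in `charField χ` (`FIXCx.core`). -/
def Stmt_RZD : Prop :=
  ∀ (G : Type) [Group G] [Fintype G] (A : Subgroup G) (ψ : A →* ℂˣ) (g : G) (n m s : ℕ),
    Leaf A ψ g n m s →
    (∀ σ : ℂ ≃+* ℂ, (∀ x, σ (indFun A (extZ ψ) x) = indFun A (extZ ψ) x) →
      (∀ a, σ ((ψ a : ℂˣ) : ℂ) = ((ψ a : ℂˣ) : ℂ)) ∨
        ∀ a, σ ((ψ a : ℂˣ) : ℂ) = ((ψ a : ℂˣ) : ℂ) ^ s) →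
    ∃ (B : Subgroup G) (R : B →* Matrix (Fin 2) (Fin 2) ℂ),
      (∀ x i j, R x i j ∈ charField (indFun A (extZ ψ))) ∧ A ≤ B ∧
      Nat.card B = 2 * Nat.card A ∧
      ∀ x : B, (R x).trace = extZ ψ (x : G) + (extZ ψ (x : G)) ^ s

/-- RZT (about 90 lines).  RZD, RZI: it remains to see `indFun B (extM R) = indFun A (extZ ψ)`.
`s ≠ 0`.  `extM R u = extZ ψ u + (extZ ψ u)^s` for all `u` (`A ≤ B`), `(extZ ψ u)^s = extZ ψ (g⁻¹ u g)` (`u ∈ A` iff
`g⁻¹ u g ∈ A`: `norm` and `A` is finite), and `∑_x extZ ψ (g⁻¹ x⁻¹ y x g) = ∑_x extZ ψ (x⁻¹ y x)`;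
`|B| = 2 |A|`. -/
def Stmt_RZT : Prop :=
  Stmt_RZI → Stmt_RZD →
  ∀ (G : Type) [Group G] [Fintype G] (A : Subgroup G) (ψ : A →* ℂˣ) (g : G) (n m s : ℕ),
    Leaf A ψ g n m s →
    (∀ σ : ℂ ≃+* ℂ, (∀ x, σ (indFun A (extZ ψ) x) = indFun A (extZ ψ) x) →
      (∀ a, σ ((ψ a : ℂˣ) : ℂ) = ((ψ a : ℂˣ) : ℂ)) ∨
        ∀ a, σ ((ψ a : ℂˣ) : ℂ) = ((ψ a : ℂˣ) : ℂ) ^ s) →
    Realizable (indFun A (extZ ψ))

/-- RZP (about 200 lines).  Multiplicity one.  `e = (χ(1)/|G|) ∑_g χ(g⁻¹) R(g)`, entries in `F = charField χ`.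
`e R(g) = R(g) e`, `e e = e`, `tr(e R(g)) = χ(g)` (character theory: YDE for the representation given by
`R`; `∑_h χ(h⁻¹) χ'(h g)` is `0` for an irreducible `χ' ≠ χ` and `|G| χ(g) / χ(1)` for `χ' = χ`; only one constituent is
`χ`).  `U` = the range of `e` on `Fin d → F` (the matrix over `F`: `Matrix.toLin'`), stable under `R(g)`; the
matrices of `R(g)` on `U` in an `F`-basis of `U` have entries in `F` and the trace `tr(e R(g)) = χ(g)`
(`LinearMap.trace_restrict...` as in ZHM). -/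
def Stmt_RZP : Prop :=
  Stmt_YDE →
  ∀ (G : Type) [Group G] [Fintype G] (χ : G → ℂ) (d : ℕ) (R : G →* Matrix (Fin d) (Fin d) ℂ),
    IrrCh χ → (∀ g i j, R g i j ∈ charField χ) →
    ip (fun g => (R g).trace) χ = (Fintype.card G : ℂ) → Realizable χ

end StarkC.ABS
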