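import Pool.Agent.ABS.StA

/-!
# The quotient of the orders in the situation of the transfer is a norm
-/

open NumberField

namespace ABS

namespace TRG

theorem one (n : ℕ) : IsNrm n 1 := ⟨1, one_ne_zero, by rw [map_one]⟩

theorem pow {n : ℕ} {q : ℚ} (h : IsNrm n q) (m : ℕ) : IsNrm n (q ^ m) := by
  induction m with
  | zero => rw [pow_zero]; exact one n
  | succ m ih => rw [pow_succ]; exact ih.mul h

theorem exists_ideal (l k : ℕ) (hl : l.Prime) (hk : 0 < k) :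
    ∃ I : Ideal (𝓞 (CyclotomicField (l ^ k) ℚ)), Ideal.absNorm I = l := by
  obtain ⟨m, rfl⟩ : ∃ m, k = m + 1 := ⟨k - 1, by omega⟩
  haveI : Fact l.Prime := ⟨hl⟩
  haveI : NeZero (l ^ (m + 1)) := ⟨pow_ne_zero _ hl.ne_zero⟩
  haveI : NeZero ((l ^ (m + 1) : ℕ) : ℚ) := ⟨Nat.cast_ne_zero.2 (pow_ne_zero _ hl.ne_zero)⟩
  haveI : IsCyclotomicExtension {l ^ (m + 1)} ℚ (CyclotomicField (l ^ (m + 1)) ℚ) :=
    CyclotomicField.isCyclotomicExtension (l ^ (m + 1)) ℚ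
  exact ⟨_, IsCyclotomicExtension.Rat.absNorm_span_zeta_sub_one l m
    (IsCyclotomicExtension.zeta_spec (l ^ (m + 1)) ℚ (CyclotomicField (l ^ (m + 1)) ℚ))⟩

end TRG

theorem TRG_thm : Stmt_TRG := by
  intro hTRN hGNS hKER hCRD hHIL hGIN hPOS l k hok A M _ _ _ _ hT
  have hl : l.Prime := hok.1
  obtain ⟨I, a, b, hI, hcard⟩ := hTRN hKER hCRD l k hl hok.2.1 A M hT
  have hN : IsNrm (l ^ k) (Ideal.absNorm I : ℚ) := hGNS hHIL hGIN hPOS l k hok I hI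
  obtain ⟨J, hJ⟩ := TRG.exists_ideal l k hl hok.2.1
  have hJ0 : J ≠ ⊥ := by
    rintro rfl
    rw [Ideal.absNorm_bot] at hJ
    exact hl.ne_zero hJ.symm
  have hlN : IsNrm (l ^ k) (l : ℚ) := by
    have := hGNS hHIL hGIN hPOS l k hok J hJ0
    rwa [hJ] at this
  have hl0 : (l : ℚ) ≠ 0 := Nat.cast_ne_zero.2 hl.ne_zero
  have hA : (Nat.card A : ℚ) ≠ 0 := Nat.cast_ne_zero.2 Nat.card_pos.ne'
  have hq : (Nat.card M : ℚ) / Nat.card A =
      (l : ℚ) ^ b * (Ideal.absNorm I : ℚ) * ((l : ℚ) ^ a)⁻¹ := by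
    have h1 : (Nat.card M : ℚ) * (l : ℚ) ^ a =
        Nat.card A * (l : ℚ) ^ b * (Ideal.absNorm I : ℚ) := by exact_mod_cast hcard
    have hla : (l : ℚ) ^ a ≠ 0 := pow_ne_zero _ hl0
    rw [eq_mul_inv_iff_mul_eq₀ hla, div_mul_eq_mul_div, div_eq_iff hA, h1]
    ring
  rw [hq]
  exact ((TRG.pow hlN b).mul hN).mul (TRG.pow hlN a).inv

end ABS
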