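import Pool.Agent.ABS.StW

/-!
# Project ABS (MP_46b841_nt), module WTW (helper55): products, powers and the tower for `NQ`
-/

set_option autoImplicit false

open NumberField IsDedekindDomain
open scoped TensorProduct Classical

namespace StarkC.ABS

open StarkP (rootField)

namespace WTWx

theorem isCyc (n : ℕ) (hn : n ≠ 0) : IsCyclotomicExtension {n} ℚ (rootField n) := by
  have h := IntermediateField.isCyclotomicExtension_adjoin_of_exists_isPrimitiveRoot {n} ℚ ℂ (by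
    intro m hm hm0
    exact ⟨_, Complex.isPrimitiveRoot_exp m hm0⟩)
  have e : {b : ℂ | ∃ m ∈ ({n} : Set ℕ), m ≠ 0 ∧ b ^ m = 1} = {z : ℂ | z ^ n = 1} := by
    ext z
    simp [hn]
  rw [e] at h
  exact h

theorem deg (n : ℕ) (hn : 0 < n) : Module.finrank ℚ (rootField n) = n.totient := by
  have : NeZero n := ⟨hn.ne'⟩
  have h1 : IsCyclotomicExtension {n} ℚ (rootField n) := isCyc _ hn.ne'
  exact IsCyclotomicExtension.finrank _ (Polynomial.cyclotomic.irreducible_rat hn)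

theorem fin_root (n : ℕ) (hn : 0 < n) : FiniteDimensional ℚ (rootField n) := by
  have : NeZero n := ⟨hn.ne'⟩
  have h1 : IsCyclotomicExtension {n} ℚ (rootField n) := isCyc _ hn.ne'
  exact IsCyclotomicExtension.finiteDimensional {n} ℚ _

theorem mono {m n : ℕ} (h : m ∣ n) : rootField m ≤ rootField n := by
  refine IntermediateField.adjoin.mono _ _ _ fun z hz => ?_
  obtain ⟨k, rfl⟩ := h
  have hz' : z ^ m = 1 := hz
  show z ^ (m * k) = 1
  rw [pow_mul, hz', one_pow]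

theorem root_one : rootField 1 = ⊥ := by
  rw [StarkP.rootField, IntermediateField.adjoin_eq_bot_iff]
  intro z hz
  have hz' : z ^ 1 = 1 := hz
  rw [pow_one] at hz'
  rw [hz']
  exact one_mem _

theorem norm_one_field (a : ℚ) : ∃ α : rootField 1, Algebra.norm ℚ α = a := by
  rw [root_one]
  refine ⟨algebraMap ℚ _ a, ?_⟩
  rw [Algebra.norm_algebraMap, IntermediateField.finrank_bot, pow_one]

theorem norm_zpow {F : Type} [Field F] [Algebra ℚ F] (α : F) (hα : α ≠ 0) (k : ℤ) :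
    Algebra.norm ℚ (α ^ k) = (Algebra.norm ℚ α) ^ k := by
  have h1 : α ^ k = ((Units.mk0 α hα ^ k : Fˣ) : F) := by
    rw [Units.val_zpow_eq_zpow_val, Units.val_mk0]
  rw [h1]
  have h3 : Algebra.norm ℚ (((Units.mk0 α hα ^ k : Fˣ)) : F) =
      ((Units.map (Algebra.norm ℚ (S := F)) (Units.mk0 α hα ^ k) : ℚˣ) : ℚ) := rfl
  rw [h3, map_zpow, Units.val_zpow_eq_zpow_val]
  rfl

theorem mul {n : ℕ} {x y : ℂ} (hx : NQ n x) (hy : NQ n y) : NQ n (x * y) := by
  obtain ⟨a, ha, rfl, hA⟩ := hx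
  obtain ⟨b, hb, rfl, hB⟩ := hy
  refine ⟨a * b, mul_ne_zero ha hb, by push_cast; ring, fun p k hp hk hd hc => ?_⟩
  obtain ⟨α, hα⟩ := hA p k hp hk hd hc
  obtain ⟨β, hβ⟩ := hB p k hp hk hd hc
  exact ⟨α * β, by rw [map_mul, hα, hβ]⟩

theorem zpow {n : ℕ} {x : ℂ} (c : ℤ) (hx : NQ n x) : NQ n (x ^ c) := by
  obtain ⟨a, ha, rfl, hA⟩ := hx
  refine ⟨a ^ c, zpow_ne_zero _ ha, by push_cast; ring, fun p k hp hk hd hc => ?_⟩
  obtain ⟨α, hα⟩ := hA p k hp hk hd hc
  have hfd := fin_root (p ^ k) (pow_pos hp.pos k)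
  have h0 : α ≠ 0 := by
    rintro rfl
    rw [Algebra.norm_zero] at hα
    exact ha hα.symm
  exact ⟨α ^ c, by rw [norm_zpow α h0, hα]⟩

/-- the numbers `φ(p^k n₁) / φ(p^k' o₁)` -/
theorem quot {p k k' n₁ o₁ j : ℕ} (hp : p.Prime) (hn : (p ^ k).Coprime n₁) (ho : (p ^ k').Coprime o₁)
    (hd : o₁ ∣ n₁) (ho1 : 0 < o₁) (hj : (p ^ k).totient = j * (p ^ k').totient) :
    (p ^ k * n₁).totient / (p ^ k' * o₁).totient = j * (n₁.totient / o₁.totient) := by
  rw [Nat.totient_mul hn, Nat.totient_mul ho, hj]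
  obtain ⟨t, ht⟩ := Nat.totient_dvd_of_dvd hd
  rw [ht]
  have h1 : 0 < o₁.totient := Nat.totient_pos.2 ho1
  have h2 : 0 < (p ^ k').totient := Nat.totient_pos.2 (pow_pos hp.pos k')
  rw [Nat.mul_div_cancel_left _ h1]
  have h3 : j * (p ^ k').totient * (o₁.totient * t) =
      j * t * ((p ^ k').totient * o₁.totient) := by ring
  rw [h3, Nat.mul_div_cancel _ (Nat.mul_pos h2 h1)]

end WTWx

open WTWx in
theorem WTW_thm : Stmt_WTW := by
  intro hPFN
  refine ⟨fun n x y => WTWx.mul, fun n x c _ => WTWx.zpow c, ?_⟩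
  intro n o x hn hon hx
  obtain ⟨a, ha, rfl, hA⟩ := hx
  have ho : 0 < o := Nat.pos_of_dvd_of_pos hon hn
  refine ⟨a ^ (n.totient / o.totient), pow_ne_zero _ ha, by push_cast; ring,
    fun p k hp hk hd hc => ?_⟩
  set k' := o.factorization p with hk'
  have hd' : p ^ k' ∣ o := Nat.ordProj_dvd o p
  have hc' : Nat.Coprime p (o / p ^ k') := Nat.coprime_ordCompl hp ho.ne'
  obtain ⟨β, hβ⟩ : ∃ β : rootField (p ^ k'), Algebra.norm ℚ β = a := by
    rcases Nat.eq_zero_or_pos k' with h0 | h0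
    · rw [h0, pow_zero]
      exact norm_one_field a
    · exact hA p k' hp h0 hd' hc'.symm
  obtain ⟨n₁, hn₁⟩ := hd
  obtain ⟨o₁, ho₁⟩ := hd'
  have hpk : 0 < p ^ k := pow_pos hp.pos k
  have hpk' : 0 < p ^ k' := pow_pos hp.pos k'
  rw [hn₁, Nat.mul_div_cancel_left _ hpk] at hc
  rw [ho₁, Nat.mul_div_cancel_left _ hpk'] at hc'
  have hkk : k' ≤ k := by
    by_contra hlt
    rw [not_le] at hlt
    have h1 : p ^ (k + 1) ∣ n := (pow_dvd_pow p hlt).trans ((Dvd.intro o₁ ho₁.symm).trans hon)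
    rw [hn₁, pow_succ] at h1
    have h2 : p ∣ n₁ := Nat.dvd_of_mul_dvd_mul_left hpk h1
    have h3 : p ∣ Nat.gcd n₁ p := Nat.dvd_gcd h2 dvd_rfl
    rw [hc] at h3
    exact hp.one_lt.ne' (Nat.dvd_one.1 h3)
  have hle : rootField (p ^ k') ≤ rootField (p ^ k) := mono (pow_dvd_pow p hkk)
  obtain ⟨j, hj, hj1, hj2⟩ := hPFN _ _ hle (fin_root _ hpk)
  rw [deg _ hpk, deg _ hpk'] at hj1
  have hoo : o₁ ∣ n₁ := by
    have h1 : o₁ ∣ p ^ k * n₁ := by
      rw [← hn₁]
      exact (Dvd.intro_left (p ^ k') ho₁.symm).trans hon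
    exact (Nat.Coprime.pow_left k hc').symm.dvd_of_dvd_mul_left h1
  have ho1 : 0 < o₁ := Nat.pos_of_ne_zero fun h => by
    rw [h, mul_zero] at ho₁
    exact ho.ne' ho₁
  have hq : n.totient / o.totient = j * (n₁.totient / o₁.totient) := by
    rw [hn₁, ho₁]
    exact quot hp (Nat.Coprime.pow_left k hc.symm) (Nat.Coprime.pow_left k' hc') hoo ho1 hj1
  refine ⟨IntermediateField.inclusion hle β ^ (n₁.totient / o₁.totient), ?_⟩
  rw [map_pow, hj2, hβ, ← pow_mul, hq]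

end StarkC.ABS
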