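import Pool.Agent.ABS.StTowerC

/-!
# Fields with one infinite place; roots of unity of fields of odd degree (module WZN)
-/

set_option autoImplicit false

open NumberField IsDedekindDomain
open scoped Classical

namespace StarkC.ABS

namespace WZNx

theorem xc_zero (K : Type) [Field K] [NumberField K] (h : Fintype.card (InfinitePlace K) = 1) :
    ∀ x ∈ StarkP.XC K ∅, x = 0 := by
  obtain ⟨w0, hw0⟩ := Fintype.card_eq_one_iff.1 h
  intro x hx
  obtain ⟨h1, h2⟩ := Submodule.mem_inf.1 hx
  have h3 : ∀ a : K → ℝ, a ≠ StarkP.infAbs K w0 → x a = 0 := by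
    intro a ha
    by_contra hne
    have h4 : a ∈ StarkP.placeSet K ∅ :=
      (Finsupp.mem_supported ℂ x).1 h1 (Finset.mem_coe.2 (Finsupp.mem_support_iff.2 hne))
    rcases h4 with ⟨w, hw⟩ | ⟨w, hw, _⟩
    · apply ha
      rw [← hw, hw0 w]
    · exact hw
  have h5 : x (StarkP.infAbs K w0) = 0 := by
    have h6 := LinearMap.mem_ker.1 h2
    rw [Finsupp.linearCombination_apply] at h6
    have h7 : x.support ⊆ {StarkP.infAbs K w0} := by
      intro a ha
      by_contra hne
      exact (Finsupp.mem_support_iff.1 ha) (h3 a (fun h8 => hne (Finset.mem_singleton.2 h8)))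
    have h8 : (x.sum fun _ a => a • (1 : ℂ)) =
        ∑ i ∈ {StarkP.infAbs K w0}, (fun (_ : K → ℝ) (a : ℂ) => a • (1 : ℂ)) i (x i) :=
      Finsupp.sum_of_support_subset x h7 _ (fun i _ => zero_smul ℂ (1 : ℂ))
    rw [h8, Finset.sum_singleton] at h6
    have h9 : x (StarkP.infAbs K w0) • (1 : ℂ) = 0 := h6
    rw [smul_eq_mul, mul_one] at h9
    exact h9
  ext a
  by_cases ha : a = StarkP.infAbs K w0
  · rw [ha, h5, Finsupp.zero_apply]
  · rw [h3 a ha, Finsupp.zero_apply]

theorem reg_one (K : Type) [Field K] [NumberField K] (h : Fintype.card (InfinitePlace K) = 1) :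
    Units.regulator K = 1 := by
  have hE : IsEmpty {w : InfinitePlace K // w ≠ Units.dirichletUnitTheorem.w₀} :=
    ⟨fun w => w.2 (Fintype.card_le_one_iff.1 (le_of_eq h) _ _)⟩
  rw [Units.regulator_eq_det', Matrix.det_isEmpty, abs_one]

theorem pid (K : Type) [Field K] [NumberField K] (h : Module.finrank ℚ K = 1) :
    classNumber K = 1 := by
  have h1 : (⊥ : Subalgebra ℚ K) = ⊤ := Subalgebra.bot_eq_top_iff_finrank_eq_one.2 h
  have h2 : Function.Surjective (algebraMap ℚ K) := Algebra.surjective_algebraMap_iff.2 h1.symm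
  let e : ℚ ≃+* K := RingEquiv.ofBijective (algebraMap ℚ K) ⟨(algebraMap ℚ K).injective, h2⟩
  let e1 : 𝓞 ℚ ≃+* 𝓞 K := RingOfIntegers.mapRingEquiv e
  let e2 : ℤ ≃+* 𝓞 K := Rat.ringOfIntegersEquiv.symm.trans e1
  exact classNumber_eq_one_iff.mpr (IsPrincipalIdealRing.of_surjective e2.toRingHom e2.surjective)

end WZNx

theorem WZN_thm : Stmt_WZN := by
  refine ⟨?_, ?_, ?_⟩
  · intro K _ _ h
    exact ⟨WZNx.xc_zero K h, WZNx.reg_one K h⟩
  · intro K _ _ h
    have h0 := InfinitePlace.nrComplexPlaces_eq_zero_of_finrank_eq_one h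
    have h1 := InfinitePlace.nrRealPlaces_eq_one_of_finrank_eq_one h
    refine ⟨WZNx.pid K h, Units.torsionOrder_eq_two_of_odd_finrank (by rw [h]; exact odd_one),
      ?_, ?_⟩
    · rw [InfinitePlace.card_eq_nrRealPlaces_add_nrComplexPlaces, h0, h1]
    · rintro ⟨v, hv⟩
      exact (Fintype.card_eq_zero_iff.1 h0).false ⟨v, hv⟩
  · intro K F L _ _ _ _ _ _ _ _ _ _ _ h hodd
    have hfin : FiniteDimensional K L := Module.Finite.right ℚ K L
    have h1 : Module.finrank ℚ K * Module.finrank K L = Module.finrank ℚ L :=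
      Module.finrank_mul_finrank ℚ K L
    have h2 : Module.finrank ℚ F * Module.finrank F L = Module.finrank ℚ L :=
      Module.finrank_mul_finrank ℚ F L
    rw [IsGalois.card_aut_eq_finrank K L] at hodd
    rw [h, one_mul] at h1
    rw [h1, ← h2] at hodd
    exact Units.torsionOrder_eq_two_of_odd_finrank (Nat.Odd.of_mul_left hodd)

end StarkC.ABS
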