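import Pool.Agent.ABS.PDefsV
import Pool.Agent.ABS.OPS
import Pool.Agent.ABS.StTowerE
import Pool.Agent.YNG.StP
import Pool.Agent.YNG.StS
import Pool.Agent.YNG.StT

/-!
# Project ABS: the class of extensions (helper6)
-/

set_option autoImplicit false

open NumberField IsDedekindDomain
open scoped Classical

namespace StarkC.ABS

open StarkP (charField rootField InCls InClsS ConF GalF MinRank GoodExt HolIm GoodIm OccursIn)

namespace XGEx

open XCSx Pool.Agent.YNG

/-- A vector fixed by `H`. -/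
def Fx {G W : Type} [Group G] [AddCommGroup W] [Module ℂ W] (H : Subgroup G)
    (σ : Representation ℂ G W) : Prop := ∃ v : W, v ≠ 0 ∧ ∀ h ∈ H, σ h v = v

/-- Doubly transitive. -/
theorem inCls_two (hPA : Stmt_PA) {G W : Type} [Group G] [Fintype G] [AddCommGroup W]
    [Module ℂ W] [Module.Finite ℂ W] (H : Subgroup G)
    (h2 : ∀ g g' : G, g ∉ H → g' ∉ H → ∃ a ∈ H, ∃ b ∈ H, g' = a * g * b)
    (σ : Representation ℂ G W) (hσ : σ.IsIrreducible) (hn : ∃ g, σ g ≠ 1) (hv : Fx H σ) :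
    InCls σ := by
  have h3 := hPA G H h2 W σ hσ hn hv
  have h5 : ∀ g, pc (⊤ : Subgroup G) g = 1 := by
    intro g
    unfold pc
    rw [Nat.card_congr (Subgroup.topEquiv (G := G)).toEquiv, Nat.card_eq_fintype_card]
    simp only [Subgroup.mem_top, if_true, Finset.sum_const, Finset.card_univ, nsmul_eq_mul,
      mul_one]
    exact div_self (Nat.cast_ne_zero.2 Fintype.card_ne_zero)
  have h4 : ∀ g, σ.character g =
      ∑ i : Fin 2, (((![1, -1] : Fin 2 → ℤ) i : ℤ) : ℂ) *
        pc ((![H, ⊤] : Fin 2 → Subgroup G) i) g := by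
    intro g
    rw [Fin.sum_univ_two]
    show σ.character g = ((1 : ℤ) : ℂ) * pc H g + ((-1 : ℤ) : ℂ) * pc ⊤ g
    rw [h5, h3]
    push_cast
    unfold pc
    ring
  exact Or.inr (Or.inr ⟨⟨2, 0, Nat.prime_two, char_rat σ 2 _ _ h4⟩,
    Or.inr (Or.inr (spanTr_of_perm σ 2 _ _ h4))⟩)

/-- Affine groups of prime degree. -/
theorem inCls_aff (hPE : Stmt_PE) {G W : Type} [Group G] [Fintype G] [AddCommGroup W]
    [Module ℂ W] [Module.Finite ℂ W] (H : Subgroup G) (p : ℕ) [hp : Fact p.Prime]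
    (f : G →* Equiv.Perm (ZMod p)) (c : G) (h1 : ∀ g, g ∈ H ↔ f g 0 = 0)
    (h2 : ∀ x, f c x = x + 1) (h3 : ∀ g, ∃ a b : ZMod p, ∀ x, f g x = a * x + b)
    (σ : Representation ℂ G W) (hσ : σ.IsIrreducible) (hn : ∃ g, σ g ≠ 1) (hv : Fx H σ) :
    InCls σ := by
  obtain ⟨h4, h5, h6⟩ := hPE G H p f c h1 h2 h3 W σ hσ hn hv
  have h7 : charField σ.character ≤ rootField (p ^ 1) := by
    rw [pow_one]
    unfold charField
    rw [IntermediateField.adjoin_le_iff]
    rintro _ ⟨g, rfl⟩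
    rcases h6 g with h | ⟨k, h⟩
    · rw [h]
      exact zero_mem _
    · let ρ : Representation ℂ (Subgroup.zpowers c) W := σ.comp (Subgroup.zpowers c).subtype
      have h8 : ∀ x, ρ x ^ p = 1 := by
        rintro ⟨x, i, rfl⟩
        show σ (c ^ i) ^ p = 1
        rw [← map_pow, ← zpow_natCast, ← zpow_mul, mul_comm, zpow_mul, zpow_natCast]
        have h9 : c ^ p ∈ MonoidHom.ker σ := h5
        exact Subgroup.zpow_mem _ h9 i
      have h9 := charField_le ρ p hp.1.pos h8
      have h10 : σ.character g = ρ.character ⟨c ^ k, k, zpow_natCast c k⟩ := by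
        show LinearMap.trace ℂ W (σ g) = LinearMap.trace ℂ W (σ (c ^ k))
        rw [h]
      rw [h10]
      exact h9 (IntermediateField.subset_adjoin ℚ _ (Set.mem_range_self _))
  exact Or.inr (Or.inr ⟨⟨p, 1, hp.1, h7⟩, Or.inr (Or.inl (Or.inr (Or.inr h4)))⟩)

theorem inCls_prime (hPA : Stmt_PA) (hPD : Stmt_PD) (hPE : Stmt_PE) {G W : Type} [Group G]
    [Fintype G] [AddCommGroup W] [Module ℂ W] [Module.Finite ℂ W] (H : Subgroup G)
    (hp : H.index.Prime) (σ : Representation ℂ G W) (hσ : σ.IsIrreducible)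
    (hn : ∃ g, σ g ≠ 1) (hv : Fx H σ) : InCls σ := by
  have : Fact H.index.Prime := ⟨hp⟩
  rcases hPD G H H.index rfl with h | ⟨f, c, h1, h2, h3⟩
  · exact inCls_two hPA H h σ hσ hn hv
  · exact inCls_aff hPE H H.index f c h1 h2 h3 σ hσ hn hv

/-- The difference of two permutation characters. -/
theorem inCls_diff {G W : Type} [Group G] [Fintype G] [AddCommGroup W]
    [Module ℂ W] [Module.Finite ℂ W] (H M : Subgroup G) (σ : Representation ℂ G W)
    (h3 : ∀ g, σ.character g = pc H g - pc M g) : InCls σ := by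
  have h4 : ∀ g, σ.character g =
      ∑ i : Fin 2, (((![1, -1] : Fin 2 → ℤ) i : ℤ) : ℂ) *
        pc ((![H, M] : Fin 2 → Subgroup G) i) g := by
    intro g
    rw [Fin.sum_univ_two]
    show σ.character g = ((1 : ℤ) : ℂ) * pc H g + ((-1 : ℤ) : ℂ) * pc M g
    rw [h3]
    push_cast
    ring
  exact Or.inr (Or.inr ⟨⟨2, 0, Nat.prime_two, char_rat σ 2 _ _ h4⟩,
    Or.inr (Or.inr (spanTr_of_perm σ 2 _ _ h4))⟩)

/-- Index six. -/
theorem inCls_six (hPA : Stmt_PA) (hPD : Stmt_PD) (hPE : Stmt_PE) (hS0 : Stmt_PS0)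
    (hS1 : Stmt_PS1) (hS2 : Stmt_PS2) (hS3 : Stmt_PS3) {G W : Type} [Group G]
    [Fintype G] [AddCommGroup W] [Module ℂ W] [Module.Finite ℂ W] (H : Subgroup G)
    (hp : H.index = 6) (σ : Representation ℂ G W) (hσ : σ.IsIrreducible)
    (hn : ∃ g, σ g ≠ 1) (hv : Fx H σ) : InCls σ := by
  by_cases hprim : ∀ M : Subgroup G, H ≤ M → M = H ∨ M = ⊤
  · exact inCls_two hPA H (hS1 G H hp hprim) σ hσ hn hv
  push Not at hprim
  obtain ⟨M, hM, hM1, hM2⟩ := hprim
  have hidx : M.index = 2 ∨ M.index = 3 := by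
    have h1 := Subgroup.relIndex_mul_index hM
    rw [hp] at h1
    have h2 : M.index ∣ 6 := Dvd.intro_left _ h1
    have h3 : M.index ≠ 1 := fun h => hM2 (Subgroup.index_eq_one.1 h)
    have h4 : M.index ≠ 6 := by
      intro h
      rw [h] at h1
      have h5 : H.relIndex M = 1 := by omega
      exact hM1 (le_antisymm (Subgroup.relIndex_eq_one.1 h5) hM)
    have h5 : M.index ≤ 6 := Nat.le_of_dvd (by norm_num) h2
    interval_cases h6 : M.index <;> simp_all
  have hpr : M.index.Prime := by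
    rcases hidx with h | h <;> rw [h] <;> norm_num
  by_cases hfix : Fx M σ
  · exact inCls_prime hPA hPD hPE M hpr σ hσ hn hfix
  have hfix' : ∀ v : W, (∀ m ∈ M, σ m v = v) → v = 0 := by
    intro v hv1
    by_contra h
    exact hfix ⟨v, h, hv1⟩
  obtain ⟨h1, h2⟩ := hS0 G H M hM W σ hσ hv hfix'
  by_cases heq : Module.finrank ℂ W + M.index = H.index
  · exact inCls_diff H M σ (h2 heq)
  · refine Or.inl ⟨3, 1, Nat.prime_three, by norm_num, ?_⟩
    show ∀ g, σ g ^ 6 = 1
    rcases hidx with h | h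
    · exact hS3 G H M hM hp h W σ hσ hv hfix' (by omega)
    · exact hS2 G H M hM hp h W σ hσ hv hfix' (by omega)

section Tower

variable (K F L : Type) [Field K] [NumberField K] [Field F] [NumberField F] [Field L]
  [NumberField L] [Algebra K F] [Algebra K L] [Algebra F L] [IsScalarTower K F L] [IsGalois K L]

/-- The index of `Gal(L/F)` is the degree. -/
theorem index_fixK : (fixK K F L).index = Module.finrank K F := by
  have : FiniteDimensional K L := Module.Finite.of_restrictScalars_finite ℚ K L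
  have : FiniteDimensional F L := Module.Finite.of_restrictScalars_finite ℚ F L
  have : FiniteDimensional K F := Module.Finite.of_restrictScalars_finite ℚ K F
  have : IsGalois F L := IsGalois.tower_top_of_isGalois K F L
  have e : fixK K F L ≃ (L ≃ₐ[F] L) :=
    { toFun := fun g => AlgEquiv.ofRingEquiv (f := ((g : L ≃ₐ[K] L) : L ≃+* L)) fun x => g.2 x
      invFun := fun g => ⟨g.restrictScalars K, fun x => g.commutes x⟩
      left_inv := fun g => Subtype.ext (AlgEquiv.ext fun x => rfl)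
      right_inv := fun g => AlgEquiv.ext fun x => rfl }
  have h1 := (fixK K F L).card_mul_index
  rw [Nat.card_congr e, IsGalois.card_aut_eq_finrank, IsGalois.card_aut_eq_finrank,
    ← Module.finrank_mul_finrank K F L, mul_comm] at h1
  exact Nat.eq_of_mul_eq_mul_right Module.finrank_pos h1

/-- An extension of odd degree: all nontrivial constituents occur in `X`. -/
theorem occ_odd (hXO : Stmt_XOC) (hPO : Stmt_PO) (ho : Odd (Module.finrank K F)) (W : Type)
    [AddCommGroup W] [Module ℂ W] [Module.Finite ℂ W] (σ : Representation ℂ (L ≃ₐ[K] L) W)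
    (hσ : σ.IsIrreducible) (hn : ∃ g, σ g ≠ 1) (hv : Fx (fixK K F L) σ) :
    OccursIn (StarkP.aboveSet K L ((∅ : Finset (HeightOneSpectrum (𝓞 K))) :
      Set (HeightOneSpectrum (𝓞 K)))) σ := by
  obtain ⟨v, hv0, hv⟩ := hv
  let w : InfinitePlace L := Classical.choice inferInstance
  have hc : Nat.card (MulAction.stabilizer (L ≃ₐ[K] L) w) ≤ 2 := by
    rcases InfinitePlace.nat_card_stabilizer_eq_one_or_two K w with h | h <;> omega
  obtain ⟨g, hg⟩ := hPO (L ≃ₐ[K] L) (fixK K F L) (MulAction.stabilizer (L ≃ₐ[K] L) w)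
    (by rw [index_fixK]; exact ho) hc
  refine hXO K L W σ hσ hn w (σ g v) (fun h => hv0 ?_) fun t ht => ?_
  · have h1 : σ g⁻¹ (σ g v) = v := by
      rw [← Module.End.mul_apply, ← map_mul, inv_mul_cancel, map_one]
      rfl
    rw [← h1, h, map_zero]
  · have h1 : σ t (σ g v) = σ g (σ (g⁻¹ * t * g) v) := by
      rw [← Module.End.mul_apply, ← map_mul, ← Module.End.mul_apply, ← map_mul]
      congr 2
      group
    rw [h1, hv _ (hg t ht)]

end Tower

/-- The class of extensions. -/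
theorem cls_of_good (hY : Stmt_YT) (hPA : Stmt_PA) (hPD : Stmt_PD) (hPE : Stmt_PE)
    (hQ : Stmt_XQ4) (hS0 : Stmt_PS0) (hS1 : Stmt_PS1) (hS2 : Stmt_PS2) (hS3 : Stmt_PS3)
    (hTC : Stmt_TC) (hTQ : Stmt_TQ) {K : Type} [Field K] [NumberField K]
    {F L : IntermediateField K (AlgebraicClosure K)} [NumberField F] [NumberField L]
    [IsGalois K L] (h : F ≤ L) (hG : GoodExt h) (W : Type)
    [AddCommGroup W] [Module ℂ W] [Module.Finite ℂ W] (σ : Representation ℂ (L ≃ₐ[K] L) W)
    (hσ : ConF h σ) : InCls σ := by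
  let : Algebra F L := (IntermediateField.inclusion h : F →+* L).toAlgebra
  have : IsScalarTower K F L := IsScalarTower.of_algebraMap_eq fun x => rfl
  obtain ⟨h1, h2, v, hv0, hv⟩ := hσ
  have hv' : Fx (fixK K F L) σ := ⟨v, hv0, fun g hg => hv g hg⟩
  have hi := index_fixK K F L
  rcases hG with h3 | h3 | h3 | h3 | h3
  · exact hQ _ (fixK K F L) (hi.trans h3) W σ h1 h2 hv'
  · exact inCls_six hPA hPD hPE hS0 hS1 hS2 hS3 (fixK K F L) (hi.trans h3) σ h1 h2 hv'
  · refine inCls_prime hPA hPD hPE (fixK K F L) ?_ σ h1 h2 hv'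
    rw [hi]
    exact h3
  · obtain ⟨k, C, hC1, hC2, hC3, hC4⟩ := h3
    rw [← hC3] at hC4
    obtain ⟨i, j, hij⟩ := hTC (L ≃ₐ[K] L) k C hC1 hC2 hC4 W σ h1 h2
      ⟨v, hv0, fun g hg => hv g (by rw [hC3] at hg; exact hg)⟩
    exact inCls_diff (C j) (C i) σ hij
  · exact inCls_of hTQ σ (h3 W σ ⟨h1, h2, v, hv0, hv⟩)

end XGEx

end StarkC.ABS
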