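import Pool.Agent.ABS.PDefsQ
import Pool.Agent.ABS.XGE
import Pool.Agent.YNG.StF

/-!
# Project ABS: the class of extensions, affine groups and pure fields (helper6)
-/

set_option autoImplicit false

open NumberField IsDedekindDomain
open scoped Classical

namespace StarkC.ABS

open StarkP (charField rootField InCls InClsS ConF GalF MinRank GoodExt HolIm GoodIm OccursIn
  GoodF)

namespace XGFx

open XCSx XGEx Pool.Agent.YNG

/-- Groups of affine maps of `ℤ/n`. -/
theorem inCls_affn (hFA : Stmt_FA) {G W : Type} [Group G] [Fintype G] [AddCommGroup W]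
    [Module ℂ W] [Module.Finite ℂ W] (H : Subgroup G) (n : ℕ) [NeZero n]
    (f : G →* Equiv.Perm (ZMod n)) (c : G) (h1 : ∀ g, g ∈ H ↔ f g 0 = 0)
    (h2 : ∀ x, f c x = x + 1) (h3 : ∀ g, ∃ a b : ZMod n, ∀ x, f g x = a * x + b)
    (h0 : (∃ p k : ℕ, p.Prime ∧ n = p ^ k) ∨ ∀ u : (ZMod n)ˣ, ∃ g, ∀ x, f g x = u * x)
    (σ : Representation ℂ G W) (hσ : σ.IsIrreducible) (hv : Fx H σ) :
    InCls σ := by
  obtain ⟨h4, h5, h6, h7⟩ := hFA n G H f c h1 h2 h3 W σ hσ hv
  rcases h0 with ⟨p, k, hp, hn⟩ | hu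
  · have h8 : charField σ.character ≤ rootField (p ^ k) := by
      rw [← hn]
      unfold charField
      rw [IntermediateField.adjoin_le_iff]
      rintro _ ⟨g, rfl⟩
      rcases h6 g with h | ⟨j, h⟩
      · rw [h]
        exact zero_mem _
      · let ρ : Representation ℂ (Subgroup.zpowers c) W := σ.comp (Subgroup.zpowers c).subtype
        have h8 : ∀ x, ρ x ^ n = 1 := by
          rintro ⟨x, i, rfl⟩
          show σ (c ^ i) ^ n = 1
          rw [← map_pow, ← zpow_natCast, ← zpow_mul, mul_comm, zpow_mul, zpow_natCast]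
          have h9 : c ^ n ∈ MonoidHom.ker σ := by
            rw [MonoidHom.mem_ker, map_pow]
            exact h5
          exact Subgroup.zpow_mem _ h9 i
        have h9 := charField_le ρ n (NeZero.pos n) h8
        have h10 : σ.character g = ρ.character ⟨c ^ j, j, zpow_natCast c j⟩ := h
        rw [h10]
        exact h9 (IntermediateField.subset_adjoin ℚ _ (Set.mem_range_self _))
    exact Or.inr (Or.inr ⟨⟨p, k, hp, h8⟩, Or.inr (Or.inl (Or.inr (Or.inr h4)))⟩)
  · have h8 : charField σ.character ≤ rootField (2 ^ 0) := by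
      unfold charField
      rw [IntermediateField.adjoin_le_iff]
      rintro _ ⟨g, rfl⟩
      obtain ⟨q, hq⟩ := h7 hu g
      rw [hq]
      exact (rootField (2 ^ 0)).algebraMap_mem q
    exact Or.inr (Or.inr ⟨⟨2, 0, Nat.prime_two, h8⟩, Or.inr (Or.inl (Or.inr (Or.inr h4)))⟩)

/-- The class of extensions. -/
theorem cls_of_goodF (hFA : Stmt_FA) (hFB : Stmt_FB) {K : Type} [Field K] [NumberField K]
    {F L : IntermediateField K (AlgebraicClosure K)} [NumberField F] [NumberField L]
    [IsGalois K L] (h : F ≤ L)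
    (hcl : ∀ (W : Type) [AddCommGroup W] [Module ℂ W] [Module.Finite ℂ W]
      (σ : Representation ℂ (L ≃ₐ[K] L) W), GoodExt h → ConF h σ → InCls σ)
    (hG : GoodF h) (W : Type)
    [AddCommGroup W] [Module ℂ W] [Module.Finite ℂ W] (σ : Representation ℂ (L ≃ₐ[K] L) W)
    (hσ : ConF h σ) : InCls σ := by
  let : Algebra F L := (IntermediateField.inclusion h : F →+* L).toAlgebra
  have : IsScalarTower K F L := IsScalarTower.of_algebraMap_eq fun x => rfl
  have hσ' := hσ
  obtain ⟨h1, h2, v, hv0, hv⟩ := hσ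
  rcases hG with h3 | h3 | h3 | h3 | h3 | h3
  · exact hcl W σ (Or.inl h3) hσ'
  · exact hcl W σ (Or.inr (Or.inl h3)) hσ'
  · exact hcl W σ (Or.inr (Or.inr (Or.inl h3))) hσ'
  · exact hcl W σ (Or.inr (Or.inr (Or.inr (Or.inl h3)))) hσ'
  · exact hcl W σ (Or.inr (Or.inr (Or.inr (Or.inr h3)))) hσ'
  · obtain ⟨hK, ho, α, hα, hαn⟩ := h3
    have : FiniteDimensional K F := Module.Finite.of_restrictScalars_finite ℚ K F
    have hn : 0 < Module.finrank K F := Module.finrank_pos
    have : NeZero (Module.finrank K F) := ⟨hn.ne'⟩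
    obtain ⟨f, c, hf, hc, ha, hu⟩ := hFB K F L (Module.finrank K F) hK rfl ho α hα hαn
    exact inCls_affn hFA (GalF h) _ f c (fun g => hf g) hc ha (Or.inr hu) σ h1
      ⟨v, hv0, fun g hg => hv g hg⟩

end XGFx

end StarkC.ABS
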