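import Pool.Agent.ABS.XRL
import Pool.Agent.ABS.XGF
import Pool.Agent.ABS.StTowerG
import Pool.Agent.YNG.StU

/-!
# Project ABS: the index formula for fields with CM subfields (helper6)
-/

set_option autoImplicit false

open NumberField IsDedekindDomain
open scoped Classical

namespace StarkC.ABS

open StarkP (InCls InClsS ConF IsSub OccursIn Lift Extends IsTheta PExt SplitPlace PPow)

namespace XCMx

open OPZx OPSx XRLx Pool.Agent.YNG

section Tower

variable (K E F L : Type) [Field K] [NumberField K] [Field E] [NumberField E] [Field F]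
  [NumberField F] [Field L] [NumberField L] [Algebra K E] [Algebra K F] [Algebra K L]
  [Algebra E F] [Algebra E L] [Algebra F L] [IsScalarTower K E L] [IsScalarTower K F L]
  [IsScalarTower E F L] [IsGalois K L]

/-- All nontrivial irreducible representations with a vector fixed by `Gal(L/F)` are in the class. -/
def ClsF : Prop :=
  ∀ (W : Type) [AddCommGroup W] [Module ℂ W] [Module.Finite ℂ W]
    (σ : Representation ℂ (L ≃ₐ[K] L) W), σ.IsIrreducible → (∃ g, σ g ≠ 1) →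
    (∃ v : W, v ≠ 0 ∧ ∀ g ∈ fixK K F L, σ g v = v) → InCls σ

/-- If `E` contains all CM subfields of `F`. -/
theorem conR_of (hXO : Stmt_XOC) (hCC : Stmt_CC) (hK : Module.finrank ℚ K = 1)
    (hcls : ClsF K F L)
    (hmax : ∀ E' : IntermediateField ℚ F, IsCMField E' → ∀ x ∈ E',
      x ∈ Set.range (algebraMap E F)) : ConR K E F L := by
  rintro W _ _ _ σ hσ ⟨v, hv, m, hm, hmv⟩
  have hv0 : v ≠ 0 := by
    rintro rfl
    exact hmv (map_zero _)
  have hn : ∃ g, σ g ≠ 1 := ⟨m, fun h => hmv (by rw [h]; rfl)⟩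
  refine ⟨hcls W σ hσ hn ⟨v, hv0, hv⟩, ?_⟩
  by_contra ho
  obtain ⟨E', hE', hfix⟩ := hCC K F L hK W σ ⟨v, hv0, fun g hg => hv g hg⟩ fun w u hu => by
    by_contra hu0
    exact ho (hXO K L W σ hσ hn w u hu0 hu)
  refine hmv (hfix m (fun x hx => ?_) v fun g hg => hv g hg)
  obtain ⟨y, rfl⟩ := hmax E' hE' x hx
  rw [← IsScalarTower.algebraMap_apply E F L]
  exact hm y

end Tower

/-- A totally real field has no CM subfield. -/
theorem no_cm (P : Type) [Field P] [NumberField P] [IsTotallyReal P] :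
    ¬ ∃ E : IntermediateField ℚ P, IsCMField E := by
  rintro ⟨E, hE⟩
  have h1 : IsTotallyComplex E := inferInstance
  let w : InfinitePlace P := Classical.choice inferInstance
  have h2 : w.IsReal := IsTotallyReal.isReal w
  have h3 : (w.comap (algebraMap E P)).IsComplex := IsTotallyComplex.isComplex _
  exact InfinitePlace.not_isReal_iff_isComplex.2 h3 (h2.comap _)

section CM

variable (K E L : Type) [Field K] [NumberField K] [Field E] [NumberField E] [IsCMField E]
  [Field L] [NumberField L] [Algebra K E] [Algebra K L]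
  [Algebra E L] [IsScalarTower K E L] [IsGalois K L]
  [Algebra K (maximalRealSubfield E)] [IsScalarTower K (maximalRealSubfield E) L]

/-- The index for a CM field. -/
theorem index_cm (hXP : Stmt_XPR) (hXC : Stmt_XPC) (hXN : Stmt_XRN) (hCN : Stmt_XCN)
    (hXO : Stmt_XOC) (hCA : Stmt_CA) (hCB : Stmt_CB)
    (hZD : Stmt_WZD) (hZR : Stmt_WZR) (hZL : Stmt_WZL)
    (hZX : Stmt_WZX) (hZN : Stmt_WZN) (hRS : Stmt_WRS)
    (ΘE : ((E → ℝ) →₀ ℂ) →ₗ[ℂ] ((E → ℝ) →₀ ℂ))
    (Θ' : ((L → ℝ) →₀ ℂ) →ₗ[ℂ] ((L → ℝ) →₀ ℂ))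
    (hΘE : IsTheta K (StarkP.aboveSet K E ((∅ : Finset (HeightOneSpectrum (𝓞 K))) :
        Set (HeightOneSpectrum (𝓞 K)))) ΘE)
    (hΘ' : IsTheta K (StarkP.aboveSet K L ((∅ : Finset (HeightOneSpectrum (𝓞 K))) :
        Set (HeightOneSpectrum (𝓞 K)))) Θ')
    (hextE : Extends (algebraMap E L) (StarkP.aboveSet K E ((∅ : Finset
        (HeightOneSpectrum (𝓞 K))) : Set (HeightOneSpectrum (𝓞 K)))) (StarkP.aboveSet K L ((∅ : Finset
        (HeightOneSpectrum (𝓞 K))) : Set (HeightOneSpectrum (𝓞 K)))) ΘE Θ')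
    (hG : GoodR K L Θ') (hK : Module.finrank ℚ K = 1) (hcls : ClsF K (maximalRealSubfield E) L) :
    (StarkP.unitIndex ΘE : ℝ) * 2 ^ Units.rank E =
      IsCMField.indexRealUnits E * classNumber (maximalRealSubfield E) := by
  obtain ⟨h5, h6, h7, h8⟩ := hZN.2.1 K hK
  obtain ⟨ΘP, hΘP, hextP⟩ := hZD K (maximalRealSubfield E) L ∅ Θ' hΘ'
  -- the real subfield
  have hno := no_cm (maximalRealSubfield E)
  have hCon : ConC K (maximalRealSubfield E) L := by
    intro W _ _ _ σ hσ hn hv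
    refine ⟨hcls W σ hσ hn hv, ?_⟩
    by_contra ho
    refine hno (hCB K (maximalRealSubfield E) L hK W σ hv fun w v hw => ?_)
    by_contra hv0
    exact ho (hXO K L W σ hσ hn w v hv0 hw)
  have a1 := index_one' K (maximalRealSubfield E) L hXP hZD hZR hZL hZX hZN hRS ΘP Θ' hΘP hΘ'
    hextP hG hCon h7
  rw [h5, h6, hCA (maximalRealSubfield E) hno] at a1
  have a2 : (StarkP.unitIndex ΘP : ℝ) = classNumber (maximalRealSubfield E) := by
    push_cast at a1
    linarith
  -- the odd part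
  have hle : fixK K E L ≤ fixK K (maximalRealSubfield E) L := by
    intro g hg x
    exact hg x
  obtain ⟨⟨V₀, _, _, _, ρ₀, hch₀⟩, V', _, _, _, ρ', hch', hq', hirr⟩ :=
    hXC (L ≃ₐ[K] L) (fixK K E L) (fixK K (maximalRealSubfield E) L) hle
  obtain ⟨⟨V, _, _, _, ρ, hch⟩, -⟩ :=
    hXC (L ≃ₐ[K] L) (fixK K E L) (fixK K E L) le_rfl
  have hR' : StarkP.Reg (StarkP.aboveSet K L ((∅ : Finset (HeightOneSpectrum (𝓞 K))) :
      Set (HeightOneSpectrum (𝓞 K)))) ρ' Θ' = 1 := by
    refine hXN K L _ V' ρ' (fun W _ _ _ σ hσ hsub => ?_) Θ'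
    obtain ⟨v, hv, m, hm, hmv⟩ := hirr W σ hσ hsub
    exact hCN K E L hK W σ hσ ⟨v, hv, m, fun x hx => hm ⟨x, hx⟩, hmv⟩
  have hadd : ∀ g, ρ.character g = ρ₀.character g + ρ'.character g := by
    intro g
    rw [hch, hch', hch₀]
    ring
  have e0 := hZR K (maximalRealSubfield E) L ∅ ΘP Θ' hΘP hΘ' hextP V₀ ρ₀ hch₀
  have e1 : StarkP.Reg (StarkP.aboveSet K L ((∅ : Finset (HeightOneSpectrum (𝓞 K))) :
      Set (HeightOneSpectrum (𝓞 K)))) ρ Θ' =
      StarkP.Reg (StarkP.aboveSet K L ((∅ : Finset (HeightOneSpectrum (𝓞 K))) :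
      Set (HeightOneSpectrum (𝓞 K)))) ρ₀ Θ' * StarkP.Reg (StarkP.aboveSet K L
        ((∅ : Finset (HeightOneSpectrum (𝓞 K))) : Set (HeightOneSpectrum (𝓞 K)))) ρ' Θ' :=
    hRS.1 K L ∅ Θ' hΘ' V V₀ V' ρ ρ₀ ρ' hadd
  have e5 := hZR K E L ∅ ΘE Θ' hΘE hΘ' hextE V ρ hch
  have e6 : Set.BijOn ΘE (StarkP.XQ E ∅) (StarkP.LamU E ∅) := by
    have := hΘE.2
    rwa [above_empty K E] at this
  have e6' : Set.BijOn ΘP (StarkP.XQ (maximalRealSubfield E) ∅)
      (StarkP.LamU (maximalRealSubfield E) ∅) := by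
    have := hΘP.2
    rwa [above_empty K (maximalRealSubfield E)] at this
  have e7 := hZX E ΘE e6
  have e7' := hZX (maximalRealSubfield E) ΘP e6'
  rw [above_empty K (maximalRealSubfield E)] at e0
  rw [above_empty K E, e1, e0, hR', mul_one] at e5
  rw [← e5, e7', a2] at e7
  have e8 := IsCMField.regulator_div_regulator_eq_two_pow_mul_indexRealUnits_inv E
  have h1 : (0 : ℝ) < Units.regulator (maximalRealSubfield E) := Units.regulator_pos _
  have h2 : (0 : ℝ) < IsCMField.indexRealUnits E := by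
    rcases IsCMField.indexRealUnits_eq_one_or_two E with h | h <;> rw [h] <;> norm_num
  rw [div_eq_iff h1.ne'] at e8
  rw [e8] at e7
  have h3 : (StarkP.unitIndex ΘE : ℝ) * 2 ^ Units.rank E * (IsCMField.indexRealUnits E : ℝ)⁻¹ *
      Units.regulator (maximalRealSubfield E) =
      (classNumber (maximalRealSubfield E) : ℝ) * Units.regulator (maximalRealSubfield E) := by
    rw [e7]
    ring
  have h4 := mul_right_cancel₀ h1.ne' h3
  field_simp at h4
  linarith

end CM

end XCMx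

end StarkC.ABS
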