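import Pool.Agent.ABS.StX

/-!
# Project ABS, part X: `ℚ(ζ_o)` is cyclic over `ℚ` if `o ∣ n` and `(ℤ/n)^*` is cyclic
-/

set_option autoImplicit false

open scoped Classical

namespace StarkC.ABS

open StarkP (rootField)

namespace XCYx

theorem isCyc (n : ℕ) (hn : n ≠ 0) : IsCyclotomicExtension {n} ℚ (rootField n) := by
  have h := IntermediateField.isCyclotomicExtension_adjoin_of_exists_isPrimitiveRoot {n} ℚ ℂ (by
    intro m hm hm0
    exact ⟨_, Complex.isPrimitiveRoot_exp m hm0⟩)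
  have e : {b : ℂ | ∃ m ∈ ({n} : Set ℕ), m ≠ 0 ∧ b ^ m = 1} = {z : ℂ | z ^ n = 1} := by
    ext z
    simp [hn]
  rw [e] at h
  exact h

end XCYx

/-- **XCY**. -/
theorem XCY_thm : Stmt_XCY := by
  intro n o hn ho hc
  have hn' : NeZero n := ⟨hn.ne'⟩
  have ho0 : 0 < o := Nat.pos_of_dvd_of_pos ho hn
  have ho' : NeZero o := ⟨ho0.ne'⟩
  have h1 : IsCyclotomicExtension {o} ℚ (rootField o) := XCYx.isCyc _ ho0.ne'
  have h3 : IsGalois ℚ (rootField o) := IsCyclotomicExtension.isGalois {o} ℚ _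
  have h4 : IsCyclic (ZMod o)ˣ :=
    isCyclic_of_surjective (ZMod.unitsMap ho) (ZMod.unitsMap_surjective ho)
  let e := IsCyclotomicExtension.autEquivPow (rootField o)
    (Polynomial.cyclotomic.irreducible_rat ho0)
  exact ⟨h3, isCyclic_of_surjective e.symm e.symm.surjective⟩

end StarkC.ABS
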