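import Pool.Agent.ABS.PDefsV
import Pool.Agent.YNG.StG

/-!
# Project ABS: fields of squarefree discriminant (helper6)
-/

set_option autoImplicit false

open NumberField
open scoped Classical

namespace StarkC.ABS

open StarkP (InClsS ConF GalF)

namespace XSFx

open Pool.Agent.YNG

section

variable (K L : Type) [Field K] [NumberField K] [Field L] [NumberField L] [Algebra K L]

/-- A field of degree one over `ℚ` has the same automorphisms over it as `ℚ`. -/
theorem restr_surj (hK : Module.finrank ℚ K = 1) (g : L ≃ₐ[ℚ] L) :
    ∃ g' : L ≃ₐ[K] L, ∀ x, g' x = g x := by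
  have h1 : (⊥ : Subalgebra ℚ K) = ⊤ := Subalgebra.bot_eq_top_iff_finrank_eq_one.2 hK
  refine ⟨AlgEquiv.ofRingEquiv (f := (g : L ≃+* L)) fun k => ?_, fun x => rfl⟩
  have hx : k ∈ (⊥ : Subalgebra ℚ K) := by rw [h1]; exact Algebra.mem_top
  obtain ⟨q, rfl⟩ := Algebra.mem_bot.1 hx
  have h2 : algebraMap K L (algebraMap ℚ K q) = algebraMap ℚ L q := by simp
  rw [h2]
  exact g.commutes q

theorem gal_rat (hK : Module.finrank ℚ K = 1) [IsGalois K L] : IsGalois ℚ L := by
  have : FiniteDimensional K L := Module.Finite.of_restrictScalars_finite ℚ K L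
  refine IsGalois.of_card_aut_eq_finrank ℚ L (le_antisymm ?_ ?_)
  · rw [Nat.card_eq_fintype_card]
    exact AlgEquiv.card_le
  · rw [← Module.finrank_mul_finrank ℚ K L, hK, one_mul, ← IsGalois.card_aut_eq_finrank K L]
    refine Nat.card_le_card_of_injective (fun g : L ≃ₐ[K] L => g.restrictScalars ℚ) ?_
    intro a b hab
    ext x
    exact AlgEquiv.congr_fun hab x

end

variable {K : Type} [Field K] [NumberField K]
  {F L : IntermediateField K (AlgebraicClosure K)} [NumberField F] [NumberField L] [IsGalois K L]

/-- The constituents of the permutation character of a field of squarefree discriminant. -/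
theorem sq_cls (hGF : Stmt_GF) (h : F ≤ L) (hK : Module.finrank ℚ K = 1)
    (hsq : Squarefree (discr F)) (W : Type)
    [AddCommGroup W] [Module ℂ W] [Module.Finite ℂ W] (σ : Representation ℂ (L ≃ₐ[K] L) W)
    (hσ : ConF h σ) : InClsS σ := by
  obtain ⟨hirr, hn, v, hv0, hv⟩ := hσ
  have : IsGalois ℚ L := gal_rat K L hK
  have hs := hGF F L hsq
  have : Fintype (F →ₐ[ℚ] L) := Fintype.ofFinite _
  let e : (F →ₐ[ℚ] L) ≃ Fin (Fintype.card (F →ₐ[ℚ] L)) := Fintype.equivFin _
  let r : (L ≃ₐ[K] L) →* (L ≃ₐ[ℚ] L) :=
    { toFun := fun g => g.restrictScalars ℚ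
      map_one' := rfl
      map_mul' := fun a b => rfl }
  let p : (L ≃ₐ[K] L) →* (∀ _ : Fin 1, Equiv.Perm (Fin (Fintype.card (F →ₐ[ℚ] L)))) :=
    { toFun := fun g _ => e.permCongr (permX F L (r g))
      map_one' := by
        funext i
        rw [map_one, map_one]
        exact Equiv.ext fun x => e.apply_symm_apply x
      map_mul' := fun a b => by
        funext i
        rw [map_mul, map_mul]
        refine Equiv.ext fun x => ?_
        show e (permX F L (r a) (permX F L (r b) (e.symm x))) =
          e (permX F L (r a) (e.symm (e (permX F L (r b) (e.symm x)))))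
        rw [e.symm_apply_apply] }
  refine Or.inr (Or.inr (Or.inr ⟨1, fun _ => Fintype.card (F →ₐ[ℚ] L), p, ?_, ?_⟩))
  · intro y
    obtain ⟨g, hg⟩ := hs (e.symm.permCongr (y 0))
    obtain ⟨g', hg'⟩ := restr_surj K L hK g
    have h1 : r g' = g := AlgEquiv.ext hg'
    refine ⟨g', funext fun i => ?_⟩
    show e.permCongr (permX F L (r g')) = y i
    rw [h1, hg, Subsingleton.elim i 0]
    refine Equiv.ext fun x => ?_
    show e (e.symm (y 0 (e.symm.symm (e.symm x)))) = y 0 x
    rw [e.apply_symm_apply, Equiv.symm_symm, e.apply_symm_apply]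
  · intro g hg
    have h1 : permX F L (r g) = 1 := by
      have h2 : e.permCongr (permX F L (r g)) = 1 := congrFun hg 0
      refine Equiv.ext fun τ => e.injective ?_
      have h3 := Equiv.ext_iff.1 h2 (e τ)
      change e (permX F L (r g) (e.symm (e τ))) = e τ at h3
      rw [e.symm_apply_apply] at h3
      exact h3
    -- `g` fixes all `σ a v`
    have h2 : ∀ a, σ g (σ a v) = σ a v := by
      intro a
      have h3 : σ (a⁻¹ * g * a) v = v := by
        refine hv _ fun x => ?_
        let τ : F →ₐ[ℚ] L := ((r a : L ≃ₐ[ℚ] L) : L →ₐ[ℚ] L).comp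
          ((IntermediateField.inclusion h).restrictScalars ℚ)
        have h4 : permX F L (r g) τ = τ := by rw [h1]; rfl
        have h5 : g (a (IntermediateField.inclusion h x)) = a (IntermediateField.inclusion h x) :=
          AlgHom.congr_fun h4 x
        show a⁻¹ (g (a (IntermediateField.inclusion h x))) = _
        rw [h5, ← AlgEquiv.mul_apply, inv_mul_cancel]
        rfl
      calc σ g (σ a v) = σ a (σ (a⁻¹ * g * a) v) := by
            rw [← Module.End.mul_apply, ← map_mul, ← Module.End.mul_apply, ← map_mul]
            congr 2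
            group
        _ = σ a v := by rw [h3]
    -- the vectors fixed by the kernel
    let U : Subrepresentation σ :=
      ⟨Submodule.span ℂ (Set.range fun a => σ a v), fun b w hw => by
        induction hw using Submodule.span_induction with
        | mem x hx =>
          obtain ⟨a, rfl⟩ := hx
          show σ b (σ a v) ∈ _
          rw [← Module.End.mul_apply, ← map_mul]
          exact Submodule.subset_span ⟨b * a, rfl⟩
        | zero => rw [map_zero]; exact zero_mem _
        | add x y _ _ hx hy => rw [map_add]; exact add_mem hx hy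
        | smul c x _ hx => rw [map_smul]; exact Submodule.smul_mem _ c hx⟩
    have hvU : v ∈ U := by
      have : v = σ 1 v := by rw [map_one]; rfl
      rw [this]
      exact Submodule.subset_span ⟨1, rfl⟩
    have hU : U = ⊤ := by
      rcases hirr.eq_bot_or_eq_top U with h3 | h3
      · rw [h3] at hvU
        exact absurd hvU hv0
      · exact h3
    refine LinearMap.ext fun w => ?_
    have hw : w ∈ Submodule.span ℂ (Set.range fun a => σ a v) := by
      have : w ∈ U := by rw [hU]; exact Submodule.mem_top
      exact this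
    induction hw using Submodule.span_induction with
    | mem x hx =>
      obtain ⟨a, rfl⟩ := hx
      exact h2 a
    | zero => rw [map_zero]; rfl
    | add x y _ _ hx hy => rw [map_add, hx, hy]; rfl
    | smul c x _ hx => rw [map_smul, hx]; rfl

end XSFx

end StarkC.ABS
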