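import Pool.Agent.ABS.PDefsD
import Pool.Agent.ABS.XGF
import Pool.Agent.ABS.XSF

/-!
# Project ABS: the class of extensions, fields of squarefree discriminant (helper6)
-/

set_option autoImplicit false

open NumberField IsDedekindDomain
open scoped Classical

namespace StarkC.ABS

open StarkP (InCls InClsS ConF GoodExt GoodF GoodD)

namespace XGGx

open XCSx XGEx XGFx XSFx Pool.Agent.YNG

/-- The class of extensions. -/
theorem cls_of_goodD (hFA : Stmt_FA) (hFB : Stmt_FB) (hGF : Stmt_GF) (hTQ : Stmt_TQ) {K : Type}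
    [Field K] [NumberField K]
    {F L : IntermediateField K (AlgebraicClosure K)} [NumberField F] [NumberField L]
    [IsGalois K L] (h : F ≤ L)
    (hcl : ∀ (W : Type) [AddCommGroup W] [Module ℂ W] [Module.Finite ℂ W]
      (σ : Representation ℂ (L ≃ₐ[K] L) W), GoodExt h → ConF h σ → InCls σ)
    (hG : GoodD h) (W : Type)
    [AddCommGroup W] [Module ℂ W] [Module.Finite ℂ W] (σ : Representation ℂ (L ≃ₐ[K] L) W)
    (hσ : ConF h σ) : InCls σ := by
  rcases hG with h3 | h3 | h3 | h3 | h3 | ⟨hK, h3 | h3⟩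
  · exact cls_of_goodF hFA hFB h hcl (Or.inl h3) W σ hσ
  · exact cls_of_goodF hFA hFB h hcl (Or.inr (Or.inl h3)) W σ hσ
  · exact cls_of_goodF hFA hFB h hcl (Or.inr (Or.inr (Or.inl h3))) W σ hσ
  · exact cls_of_goodF hFA hFB h hcl (Or.inr (Or.inr (Or.inr (Or.inl h3)))) W σ hσ
  · exact cls_of_goodF hFA hFB h hcl (Or.inr (Or.inr (Or.inr (Or.inr (Or.inl h3))))) W σ hσ
  · exact inCls_of hTQ σ (sq_cls hGF h hK h3 W σ hσ)
  · exact cls_of_goodF hFA hFB h hcl
      (Or.inr (Or.inr (Or.inr (Or.inr (Or.inr ⟨hK, h3⟩))))) W σ hσ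

end XGGx

end StarkC.ABS
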