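import Pool.Agent.ABS.PDefsK
import Pool.Agent.ABS.XGG
import Pool.Agent.YNG.StH

/-!
# Project ABS: the class of extensions, minimal rank over a subfield (helper6)
-/

set_option autoImplicit false

open NumberField IsDedekindDomain
open scoped Classical

namespace StarkC.ABS

open StarkP (InCls InClsS ConF GoodExt GoodF GoodD GoodB GoodT rankF GalF)

namespace XGHx

open XCSx XGEx XGFx XSFx XGGx Pool.Agent.YNG

/-- The class of extensions. -/
theorem cls_of_goodT (hFA : Stmt_FA) (hFB : Stmt_FB) (hGF : Stmt_GF) (hTQ : Stmt_TQ)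
    (hHC : Stmt_HC) {K : Type} [Field K] [NumberField K]
    {F L : IntermediateField K (AlgebraicClosure K)} [NumberField L]
    [IsGalois K L] (h : F ≤ L)
    (hcl : ∀ (E : IntermediateField K (AlgebraicClosure K)) [NumberField E] (h' : E ≤ L)
      (W : Type) [AddCommGroup W] [Module ℂ W] [Module.Finite ℂ W]
      (σ : Representation ℂ (L ≃ₐ[K] L) W), GoodExt h' → ConF h' σ → InCls σ)
    (hG : GoodT h) (W : Type)
    [AddCommGroup W] [Module ℂ W] [Module.Finite ℂ W] (σ : Representation ℂ (L ≃ₐ[K] L) W)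
    (hσ : ConF h σ) : InCls σ := by
  obtain ⟨E, hE, _, k, C, hB, hC, hC0, hCk, hr⟩ := hG
  obtain ⟨h1, h2, v, hv0, hv⟩ := hσ
  have hr' : Nat.card (DoubleCoset.Quotient (C (Fin.last k) : Set (L ≃ₐ[K] L))
      (C (Fin.last k) : Set (L ≃ₐ[K] L))) =
      Nat.card (DoubleCoset.Quotient (C 0 : Set (L ≃ₐ[K] L)) (C 0 : Set (L ≃ₐ[K] L))) + k := by
    rw [hC0, hCk]
    exact hr
  rcases hHC (L ≃ₐ[K] L) k C hC hr' W σ h1
    ⟨v, hv0, fun g hg => hv g (by rw [hCk] at hg; exact hg)⟩ with ⟨v', hv0', hv'⟩ | ⟨i, j, hij⟩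
  · have hD : GoodD (hE.trans h) := by
      rcases hB with h3 | h3 | h3 | h3 | h3
      · exact Or.inl h3
      · exact Or.inr (Or.inl h3)
      · exact Or.inr (Or.inr (Or.inl h3))
      · exact Or.inr (Or.inr (Or.inr (Or.inr (Or.inl h3))))
      · exact Or.inr (Or.inr (Or.inr (Or.inr (Or.inr h3))))
    exact cls_of_goodD hFA hFB hGF hTQ (hE.trans h) (fun W _ _ _ σ => hcl E (hE.trans h) W σ) hD
      W σ ⟨h1, h2, v', hv0', fun g hg => hv' g (by rw [hC0]; exact hg)⟩
  · exact inCls_diff (C j) (C i) σ hij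

end XGHx

end StarkC.ABS
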