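import Pool.Agent.ABS.StA

/-!
# ABS, module XI: the index of `m X` in `X`
-/

set_option autoImplicit false

open NumberField NumberField.InfinitePlace
open scoped Classical

namespace ABS

namespace XI

variable {F : Type} [Field F] [NumberField F]

/-- the integral coordinates -/
noncomputable def c (x : X F) (w : InfinitePlace F) : ℤ := ⌊((x : V F) : InfinitePlace F → ℝ) w⌋

lemma c_spec (x : X F) (w : InfinitePlace F) :
    ((c x w : ℤ) : ℝ) = ((x : V F) : InfinitePlace F → ℝ) w := by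
  obtain ⟨k, hk⟩ := x.2 w
  unfold c
  rw [hk, Int.floor_intCast]

lemma c_add (x y : X F) (w : InfinitePlace F) : c (x + y) w = c x w + c y w := by
  have h : ((c (x + y) w : ℤ) : ℝ) = ((c x w + c y w : ℤ) : ℝ) := by
    rw [Int.cast_add, c_spec, c_spec, c_spec]
    rfl
  exact_mod_cast h

lemma c_sum (x : X F) : ∑ w, c x w = 0 := by
  have h : ((∑ w, c x w : ℤ) : ℝ) = ((0 : ℤ) : ℝ) := by
    rw [Int.cast_sum, Finset.sum_congr rfl fun w _ => c_spec x w, Int.cast_zero]
    exact (x : V F).2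
  exact_mod_cast h

/-- the reduction modulo `m` of the coordinates different from `w₀` -/
noncomputable def f (m : ℕ) (w₀ : InfinitePlace F) : X F →+ ({w : InfinitePlace F // w ≠ w₀} → ZMod m) where
  toFun x w := ((c x w.1 : ℤ) : ZMod m)
  map_zero' := by
    funext w
    have h : c (0 : X F) w.1 = 0 := by
      have h1 : ((c (0 : X F) w.1 : ℤ) : ℝ) = ((0 : ℤ) : ℝ) := by
        rw [c_spec, Int.cast_zero]
        rfl
      exact_mod_cast h1
    show ((c (0 : X F) w.1 : ℤ) : ZMod m) = 0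
    rw [h, Int.cast_zero]
  map_add' x y := by
    funext w
    show ((c (x + y) w.1 : ℤ) : ZMod m) = (c x w.1 : ZMod m) + (c y w.1 : ZMod m)
    rw [c_add, Int.cast_add]

lemma ker_eq (m : ℕ) (hm : 0 < m) (w₀ : InfinitePlace F) :
    (f (F := F) m w₀).ker = (AddSubgroup.map
      ((m : ℝ) • (LinearMap.id : V F →ₗ[ℝ] V F)).toAddMonoidHom (X F)).addSubgroupOf (X F) := by
  have hmr : (m : ℝ) ≠ 0 := Nat.cast_ne_zero.2 hm.ne'
  ext x
  rw [AddSubgroup.mem_addSubgroupOf, AddSubgroup.mem_map, AddMonoidHom.mem_ker]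
  constructor
  · intro h
    have h1 : ∀ w : InfinitePlace F, w ≠ w₀ → (m : ℤ) ∣ c x w := by
      intro w hw
      have h2 : ((c x w : ℤ) : ZMod m) = 0 := congrFun h ⟨w, hw⟩
      exact (ZMod.intCast_zmod_eq_zero_iff_dvd _ _).1 h2
    have h2 : ∀ w : InfinitePlace F, (m : ℤ) ∣ c x w := by
      intro w
      by_cases hw : w = w₀
      · subst hw
        have h3 := c_sum x
        rw [← Finset.add_sum_erase _ _ (Finset.mem_univ w)] at h3
        have h4 : (m : ℤ) ∣ ∑ w' ∈ Finset.univ.erase w, c x w' :=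
          Finset.dvd_sum fun w' hw' => h1 w' (Finset.ne_of_mem_erase hw')
        have h5 : c x w = - ∑ w' ∈ Finset.univ.erase w, c x w' := by linarith
        rw [h5]
        exact (dvd_neg).2 h4
      · exact h1 w hw
    refine ⟨((m : ℝ)⁻¹) • (x : V F), fun w => ?_, ?_⟩
    · obtain ⟨k, hk⟩ := h2 w
      refine ⟨k, ?_⟩
      show (m : ℝ)⁻¹ * ((x : V F) : InfinitePlace F → ℝ) w = k
      rw [← c_spec x w, hk]
      push_cast
      field_simp
    · show (m : ℝ) • ((m : ℝ)⁻¹ • (x : V F)) = (x : V F)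
      rw [smul_smul, mul_inv_cancel₀ hmr, one_smul]
  · rintro ⟨y, hy, hxy⟩
    have hxy' : (m : ℝ) • y = (x : V F) := hxy
    funext w
    show ((c x w.1 : ℤ) : ZMod m) = 0
    obtain ⟨k, hk⟩ := hy w.1
    have h1 : c x w.1 = (m : ℤ) * k := by
      have h2 : ((c x w.1 : ℤ) : ℝ) = (((m : ℤ) * k : ℤ) : ℝ) := by
        rw [c_spec, ← hxy']
        show (m : ℝ) * (y : InfinitePlace F → ℝ) w.1 = _
        rw [hk]
        push_cast
        rfl
      exact_mod_cast h2
    rw [h1]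
    push_cast
    rw [ZMod.natCast_self, zero_mul]

lemma f_surj (m : ℕ) (w₀ : InfinitePlace F) : Function.Surjective (f (F := F) m w₀) := by
  intro a
  choose b hb using fun w => ZMod.intCast_surjective (a w)
  let k : InfinitePlace F → ℤ := fun w => if h : w = w₀ then - ∑ i, b i else b ⟨w, h⟩
  have hk0 : k w₀ = - ∑ i, b i := by simp [k]
  have hk1 : ∀ w : {w : InfinitePlace F // w ≠ w₀}, k w.1 = b w := by
    intro w
    simp only [k]
    rw [dif_neg w.2]
  have hs : ∑ w, k w = 0 := by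
    rw [Fintype.sum_eq_add_sum_subtype_ne k w₀, hk0, Finset.sum_congr rfl fun w _ => hk1 w]
    ring
  let v : V F := ⟨fun w => (k w : ℝ), by
    show ∑ w, ((k w : ℤ) : ℝ) = 0
    rw [← Int.cast_sum, hs, Int.cast_zero]⟩
  refine ⟨⟨v, fun w => ⟨k w, rfl⟩⟩, ?_⟩
  funext w
  show ((c (⟨v, fun w => ⟨k w, rfl⟩⟩ : X F) w.1 : ℤ) : ZMod m) = a w
  have h1 : c (⟨v, fun w => ⟨k w, rfl⟩⟩ : X F) w.1 = k w.1 := by
    have h2 : ((c (⟨v, fun w => ⟨k w, rfl⟩⟩ : X F) w.1 : ℤ) : ℝ) = ((k w.1 : ℤ) : ℝ) := by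
      rw [c_spec]
    exact_mod_cast h2
  rw [h1, hk1, hb]

end XI

theorem XI_thm : Stmt_XI := by
  intro F _ _ m hm
  let w₀ : InfinitePlace F := Classical.arbitrary _
  have : NeZero m := ⟨hm.ne'⟩
  unfold AddSubgroup.relIndex
  rw [← XI.ker_eq m hm w₀, AddSubgroup.index_ker,
    AddMonoidHom.range_eq_top.2 (XI.f_surj m w₀)]
  rw [Nat.card_congr (AddSubgroup.topEquiv.toEquiv), Nat.card_eq_fintype_card, Fintype.card_fun,
    ZMod.card]
  congr 1
  unfold Units.rank
  simp [Fintype.card_subtype_compl]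

end ABS
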