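import Pool.Agent.ABS.OPS
import Pool.Agent.ABS.WZL
import Pool.Agent.ABS.StTowerF

/-!
# Project ABS: the index formula for `F` relative to a subfield `E` (helper6)
-/

set_option autoImplicit false

open NumberField IsDedekindDomain
open scoped Classical

namespace StarkC.ABS

open StarkP (InCls InClsS ConF IsSub OccursIn Lift Extends IsTheta PExt SplitPlace PPow)

namespace XRLx

open OPZx OPSx

/-- The Artin series of a permutation character exists. -/
theorem artin_perm (K F L : Type) [Field K] [NumberField K] [Field F] [NumberField F] [Field L]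
    [NumberField L] [Algebra K F] [Algebra K L] [Algebra F L] [IsScalarTower K F L]
    [IsGalois K L] (χ : (L ≃ₐ[K] L) → ℂ) (hχ : ∀ g, χ g = indFun (fixK K F L) (fun _ => 1) g) :
    ∃ Z : ℂ → ℂ,
      StarkP.IsArtinL χ ((∅ : Finset (HeightOneSpectrum (𝓞 K))) : Set (HeightOneSpectrum (𝓞 K)))
        Z := by
  have hFL : IsGalois F L := IsGalois.tower_top_of_isGalois K F L
  obtain ⟨Z, hZ, -⟩ := FINFx.zeta F
  have hχ' : χ = indFun (fixK K F L) (fun _ => 1) := funext hχ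
  refine ⟨Z, hZ.1, fun s hs => ?_⟩
  rw [Finset.coe_empty, hχ']
  have h1 := WZLx.fix_eq (K := K) (F := F) (L := L) s hs
  rw [hZ.2 s hs, ← WZLx.inf_eq' (F := F) (L := L) s, ← h1]
  rfl

section Index

variable (K E F L : Type) [Field K] [NumberField K] [Field E] [NumberField E] [Field F]
  [NumberField F] [Field L] [NumberField L] [Algebra K E] [Algebra K F] [Algebra K L]
  [Algebra E F] [Algebra E L] [Algebra F L] [IsScalarTower K E L] [IsScalarTower K F L]
  [IsScalarTower E F L] [IsGalois K L]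

omit [NumberField K] [NumberField E] [NumberField F] [NumberField L] [IsScalarTower K E L]
  [IsScalarTower K F L] [IsGalois K L] in
theorem fix_le : fixK K F L ≤ fixK K E L := by
  intro g hg x
  rw [IsScalarTower.algebraMap_apply E F L x]
  exact hg (algebraMap E F x)

/-- The constituents of the permutation character of `F` which are not in that of `E` are in the class
and occur in `X`. -/
def ConR : Prop :=
  ∀ (W : Type) [AddCommGroup W] [Module ℂ W] [Module.Finite ℂ W]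
    (σ : Representation ℂ (L ≃ₐ[K] L) W), σ.IsIrreducible →
    (∃ v : W, (∀ g ∈ fixK K F L, σ g v = v) ∧ ∃ m ∈ fixK K E L, σ m v ≠ v) → InCls σ ∧
      OccursIn (StarkP.aboveSet K L ((∅ : Finset (HeightOneSpectrum (𝓞 K))) :
        Set (HeightOneSpectrum (𝓞 K)))) σ

theorem index_rel (hXC : Stmt_XPC) (hZR : Stmt_WZR) (hZL : Stmt_WZL)
    (hZX : Stmt_WZX) (hRS : Stmt_WRS)
    (ΘE : ((E → ℝ) →₀ ℂ) →ₗ[ℂ] ((E → ℝ) →₀ ℂ))
    (Θ : ((F → ℝ) →₀ ℂ) →ₗ[ℂ] ((F → ℝ) →₀ ℂ)) (Θ' : ((L → ℝ) →₀ ℂ) →ₗ[ℂ] ((L → ℝ) →₀ ℂ))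
    (hΘE : IsTheta K (StarkP.aboveSet K E ((∅ : Finset (HeightOneSpectrum (𝓞 K))) :
        Set (HeightOneSpectrum (𝓞 K)))) ΘE)
    (hΘ : IsTheta K (StarkP.aboveSet K F ((∅ : Finset (HeightOneSpectrum (𝓞 K))) :
        Set (HeightOneSpectrum (𝓞 K)))) Θ)
    (hΘ' : IsTheta K (StarkP.aboveSet K L ((∅ : Finset (HeightOneSpectrum (𝓞 K))) :
        Set (HeightOneSpectrum (𝓞 K)))) Θ')
    (hextE : Extends (algebraMap E L) (StarkP.aboveSet K E ((∅ : Finset
        (HeightOneSpectrum (𝓞 K))) : Set (HeightOneSpectrum (𝓞 K)))) (StarkP.aboveSet K L ((∅ : Finset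
        (HeightOneSpectrum (𝓞 K))) : Set (HeightOneSpectrum (𝓞 K)))) ΘE Θ')
    (hext : Extends (algebraMap F L) (StarkP.aboveSet K F ((∅ : Finset (HeightOneSpectrum (𝓞 K))) :
        Set (HeightOneSpectrum (𝓞 K)))) (StarkP.aboveSet K L ((∅ : Finset
        (HeightOneSpectrum (𝓞 K))) : Set (HeightOneSpectrum (𝓞 K)))) Θ Θ')
    (hG : GoodR K L Θ') (hP : ConR K E F L) :
    (StarkP.unitIndex Θ : ℝ) * ((classNumber E : ℝ) / Units.torsionOrder E) =
      StarkP.unitIndex ΘE * ((classNumber F : ℝ) / Units.torsionOrder F) := by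
  obtain ⟨⟨V₀, _, _, _, ρ₀, hch₀⟩, V', _, _, _, ρ', hch', hq', hirr⟩ :=
    hXC (L ≃ₐ[K] L) (fixK K F L) (fixK K E L) (fix_le K E F L)
  obtain ⟨⟨V, _, _, _, ρ, hch⟩, -⟩ :=
    hXC (L ≃ₐ[K] L) (fixK K F L) (fixK K F L) le_rfl
  obtain ⟨hsum, hmul, htr, hinf⟩ := hRS
  obtain ⟨f', hf', hR'⟩ := hG V' ρ' (Or.inr fun W _ _ _ σ hσ hsub => by
    obtain ⟨h3, h4⟩ := hP W σ hσ (hirr W σ hσ hsub)
    exact ⟨h3, Or.inl h4⟩) hq'
  obtain ⟨Z, hZ2⟩ := artin_perm K E L ρ₀.character hch₀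
  have hadd : ∀ g, ρ.character g = ρ₀.character g + ρ'.character g := by
    intro g
    rw [hch, hch', hch₀]
    ring
  have e0 := hZR K E L ∅ ΘE Θ' hΘE hΘ' hextE V₀ ρ₀ hch₀
  have e1 : StarkP.Reg (StarkP.aboveSet K L ((∅ : Finset (HeightOneSpectrum (𝓞 K))) :
      Set (HeightOneSpectrum (𝓞 K)))) ρ Θ' =
      StarkP.Reg (StarkP.aboveSet K L ((∅ : Finset (HeightOneSpectrum (𝓞 K))) :
      Set (HeightOneSpectrum (𝓞 K)))) ρ₀ Θ' * StarkP.Reg (StarkP.aboveSet K L
        ((∅ : Finset (HeightOneSpectrum (𝓞 K))) : Set (HeightOneSpectrum (𝓞 K)))) ρ' Θ' :=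
    hsum K L ∅ Θ' hΘ' V V₀ V' ρ ρ₀ ρ' hadd
  have hf := hmul K L ∅ ρ.character ρ₀.character ρ'.character Z f' hadd hZ2 hf'
  have e2 := htr K L ∅ ρ.character ρ₀.character ρ'.character _ Z f' hadd hf hZ2 hf'
  have e3 := hZL K F L ρ.character _ hch hf
  have e4 := hZL K E L ρ₀.character Z hch₀ hZ2
  have e5 := hZR K F L ∅ Θ Θ' hΘ hΘ' hext V ρ hch
  have e6 : Set.BijOn Θ (StarkP.XQ F ∅) (StarkP.LamU F ∅) := by
    have := hΘ.2
    rwa [above_empty K F] at this
  have e6' : Set.BijOn ΘE (StarkP.XQ E ∅) (StarkP.LamU E ∅) := by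
    have := hΘE.2
    rwa [above_empty K E] at this
  have e7 := hZX F Θ e6
  have e7' := hZX E ΘE e6'
  rw [above_empty K E] at e0
  rw [above_empty K F, e1, e0, hR'] at e5
  rw [← e5, norm_mul, e7'] at e7
  have e8 : hR F = hR E * ‖meromorphicTrailingCoeffAt f' 0‖ := by
    rw [← norm_hR F, ← e3, e2, norm_mul, e4, norm_hR E]
  have h1 : (0 : ℝ) < Units.regulator F := Units.regulator_pos F
  have h2 : (0 : ℝ) < Units.regulator E := Units.regulator_pos E
  unfold hR at e8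
  have h3 : (0 : ℝ) < Units.torsionOrder F := by exact_mod_cast Units.torsionOrder_pos F
  have h4 : (0 : ℝ) < Units.torsionOrder E := by exact_mod_cast Units.torsionOrder_pos E
  have h5 : (StarkP.unitIndex Θ : ℝ) * ((classNumber E : ℝ) / Units.torsionOrder E) *
      Units.regulator F = StarkP.unitIndex ΘE * ((classNumber F : ℝ) / Units.torsionOrder F) *
      Units.regulator F := by
    calc _ = (StarkP.unitIndex Θ : ℝ) * Units.regulator F *
          ((classNumber E : ℝ) / Units.torsionOrder E) := by ring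
      _ = StarkP.unitIndex ΘE * Units.regulator E * ‖meromorphicTrailingCoeffAt f' 0‖ *
          ((classNumber E : ℝ) / Units.torsionOrder E) := by rw [← e7]
      _ = StarkP.unitIndex ΘE * ((classNumber E : ℝ) * Units.regulator E / Units.torsionOrder E *
          ‖meromorphicTrailingCoeffAt f' 0‖) := by ring
      _ = StarkP.unitIndex ΘE * ((classNumber F : ℝ) * Units.regulator F /
          Units.torsionOrder F) := by rw [← e8]
      _ = _ := by ring
  exact mul_right_cancel₀ h1.ne' h5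

end Index

end XRLx

end StarkC.ABS
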