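import Pool.Agent.ABS.StY

/-!
# Project ABS (MP_46b841_nt), module YIN (helper19): `A` is bijective
-/

set_option autoImplicit false

open scoped Classical

namespace StarkC.ABS

namespace YINx

variable {G M : Type} [Group G] [Fintype G] [AddCommGroup M] [Module ℂ M]

/-- the projection of `μ g x` to the eigenspace of the pair `p` -/
noncomputable def pj (μ : Representation ℂ G M) (p : Pr G) (g : G) (x : M) : M :=
  ∑ h : p.1, (((p.2 h)⁻¹ : ℂˣ) : ℂ) • μ ((h : G) * g) x

theorem pj_eig (μ : Representation ℂ G M) (p : Pr G) (g : G) (x : M) (k : p.1) :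
    μ k (pj μ p g x) = ((p.2 k : ℂˣ) : ℂ) • pj μ p g x := by
  unfold pj
  rw [map_sum, Finset.smul_sum]
  refine Fintype.sum_equiv (Equiv.mulLeft k) _ _ fun h => ?_
  rw [map_smul, smul_smul, Equiv.coe_mulLeft, map_mul p.2, Subgroup.coe_mul, mul_assoc,
    map_mul μ (k : G), Module.End.mul_apply, ← Units.val_mul, mul_inv, mul_inv_cancel_left]

theorem pj_map (μ : Representation ℂ G M) (A : M →ₗ[ℂ] M) (hA : ∀ g x, A (μ g x) = μ g (A x))
    (p : Pr G) (g : G) (x : M) : A (pj μ p g x) = pj μ p g (A x) := by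
  unfold pj
  rw [map_sum]
  refine Finset.sum_congr rfl fun h _ => ?_
  rw [map_smul, hA]

theorem pj_zero (μ : Representation ℂ G M) (p : Pr G) (g : G) : pj μ p g 0 = 0 := by
  unfold pj
  simp

end YINx

theorem YIN_thm : Stmt_YIN := by
  intro G M _ _ _ _ _ μ P A hA hF hx
  have hinj : Function.Injective A := by
    rw [← LinearMap.ker_eq_bot, LinearMap.ker_eq_bot']
    intro x hx0
    have h1 : ∀ p ∈ P, ∀ g, YINx.pj μ p g x = 0 := by
      intro p hp g
      obtain ⟨F, v, h2, h3⟩ := hF p hp
      have h4 := h2 (YINx.pj μ p g x) fun k => YINx.pj_eig μ p g x k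
      rw [YINx.pj_map μ A hA, hx0, YINx.pj_zero] at h4
      have h5 := congrArg F h4
      rw [map_zero, map_add, map_smul, smul_eq_mul] at h5
      have h6 : F (YINx.pj μ p g x) * (1 + F v) = 0 := by
        rw [mul_add, mul_one]
        exact h5.symm
      have h7 : F (YINx.pj μ p g x) = 0 := (mul_eq_zero.1 h6).resolve_right h3
      rw [h7, zero_smul, add_zero] at h4
      exact h4.symm
    rw [← hx x h1, hx0]
  exact ⟨hinj, LinearMap.injective_iff_surjective.1 hinj⟩

end StarkC.ABS
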