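import Pool.Agent.ABS.StY2
import Pool.Agent.Stark.STB

/-!
# Project ABS, part Y: module YSP
-/

set_option autoImplicit false

open NumberField IsDedekindDomain
open scoped TensorProduct Classical

namespace StarkC.ABS

namespace YSPx

variable {K L : Type} [Field K] [NumberField K] [Field L] [NumberField L] [Algebra K L]

/-- the place `g c` -/
noncomputable def mvp (g : L ≃ₐ[K] L) (c : L → ℝ) : L → ℝ := c ∘ (g : L ≃+* L).symm

lemma mvp_mul (h g : L ≃ₐ[K] L) (c : L → ℝ) : mvp (h * g) c = (mvp g c) ∘ (h : L ≃+* L).symm := by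
  funext x
  rfl

lemma mvp_eq {g : L ≃ₐ[K] L} {c d : L → ℝ} (h : mvp g c = d) : d ∘ g = c := by
  funext x
  rw [← h]
  show c ((g : L ≃+* L).symm (g x)) = c x
  exact congrArg c (g.symm_apply_apply x)

/-- the difference of two places -/
noncomputable def dif (a b : L → ℝ) (g : L ≃ₐ[K] L) : (L → ℝ) →₀ ℂ :=
  Finsupp.single (mvp g a) 1 - Finsupp.single (mvp g b) 1

lemma act_dif (a b : L → ℝ) (h g : L ≃ₐ[K] L) :
    StarkP.act (h : L ≃+* L) (dif a b g) = dif a b (h * g) := by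
  unfold dif StarkP.act
  rw [map_sub, Finsupp.lmapDomain_apply, Finsupp.lmapDomain_apply, Finsupp.mapDomain_single,
    Finsupp.mapDomain_single, mvp_mul, mvp_mul]

/-- the map -/
noncomputable def mp {V : Type} [AddCommGroup V] [Module ℂ V]
    (ρ : Representation ℂ (L ≃ₐ[K] L) V) (v : V) (a b : L → ℝ) :
    Module.Dual ℂ V →ₗ[ℂ] ((L → ℝ) →₀ ℂ) :=
  ∑ g : L ≃ₐ[K] L, (Module.Dual.eval ℂ V (ρ g v)).smulRight (dif a b g)

lemma mp_apply {V : Type} [AddCommGroup V] [Module ℂ V]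
    (ρ : Representation ℂ (L ≃ₐ[K] L) V) (v : V) (a b : L → ℝ) (α : Module.Dual ℂ V) :
    mp ρ v a b α = ∑ g : L ≃ₐ[K] L, α (ρ g v) • dif a b g := by
  unfold mp
  rw [LinearMap.sum_apply]
  rfl

end YSPx

open YSPx in
theorem YSP_thm : Stmt_YSP := by
  intro K L _ _ _ _ _ _ S a b ha hb hfree hne V _ _ _ ρ _
  obtain ⟨v, hv⟩ := exists_ne (0 : V)
  have hT : ∀ (g : L ≃ₐ[K] L) (c : L → ℝ), c ∈ StarkP.placeSet L (StarkP.aboveSet K L S) →
      mvp g c ∈ StarkP.placeSet L (StarkP.aboveSet K L S) :=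
    fun g c hc => StarkC.STB_thm K L S g c hc
  refine ⟨mp ρ v a b, ?_, ?_, ?_⟩
  · intro h0
    have h1 : ∃ α : Module.Dual ℂ V, α v ≠ 0 := by
      by_contra hcon
      push Not at hcon
      exact hv ((Module.forall_dual_apply_eq_zero_iff ℂ v).1 hcon)
    obtain ⟨α, hα⟩ := h1
    have h2 : mp ρ v a b α = 0 := by
      rw [h0]
      rfl
    have h3 := DFunLike.congr_fun h2 a
    rw [mp_apply, Finsupp.finsetSum_apply, Finset.sum_eq_single (1 : L ≃ₐ[K] L)] at h3
    · apply hα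
      have h4 : mvp (1 : L ≃ₐ[K] L) a = a := rfl
      have h5 : mvp (1 : L ≃ₐ[K] L) b ≠ a := fun h => hne 1 (mvp_eq h)
      rw [Finsupp.smul_apply, dif, Finsupp.sub_apply, h4, Finsupp.single_eq_same,
        Finsupp.single_eq_of_ne h5.symm, sub_zero, smul_eq_mul, mul_one, map_one] at h3
      exact h3
    · intro g _ hg
      have h4 : mvp g a ≠ a := fun h => hfree g hg (mvp_eq h)
      have h5 : mvp g b ≠ a := fun h => hne g (mvp_eq h)
      rw [Finsupp.smul_apply, dif, Finsupp.sub_apply, Finsupp.single_eq_of_ne h4.symm,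
        Finsupp.single_eq_of_ne h5.symm, sub_zero, smul_zero]
    · intro h
      exact absurd (Finset.mem_univ _) h
  · intro α
    rw [mp_apply]
    refine Submodule.sum_mem _ fun g _ => Submodule.smul_mem _ _ ?_
    refine Submodule.mem_inf.2 ⟨Submodule.sub_mem _ ?_ ?_, ?_⟩
    · exact Finsupp.single_mem_supported ℂ _ (hT g a ha)
    · exact Finsupp.single_mem_supported ℂ _ (hT g b hb)
    · rw [LinearMap.mem_ker, dif, map_sub, Finsupp.linearCombination_single,
        Finsupp.linearCombination_single, sub_self]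
  · intro h α
    rw [mp_apply, mp_apply, map_sum]
    have h1 : ∀ g : L ≃ₐ[K] L, (ρ.dual h α) (ρ (h * g) v) = α (ρ g v) := by
      intro g
      show α (ρ h⁻¹ (ρ (h * g) v)) = α (ρ g v)
      rw [← Module.End.mul_apply, ← map_mul, inv_mul_cancel_left]
    refine (Equiv.sum_comp (Equiv.mulLeft h) fun g : L ≃ₐ[K] L =>
      (ρ.dual h α) (ρ g v) • dif a b g).symm.trans (Finset.sum_congr rfl fun g _ => ?_)
    rw [map_smul, act_dif]
    show (ρ.dual h α) (ρ (h * g) v) • dif a b (h * g) = _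
    rw [h1]

end StarkC.ABS
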