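import Pool.Agent.ABS.StZ
import Pool.Agent.ABS.COMB

/-!
# Project ABS, module ZLF: the Artin L-series of a sum of characters (after PCX.lean; helper64)
-/

set_option autoImplicit false

open NumberField IsDedekindDomain
open scoped TensorProduct Classical

namespace StarkC.ABS

theorem ZLF_thm : Stmt_ZLF := by
  intro K L _ _ _ _ _ _ S m χ F c θ hF hθ
  refine ⟨fun z => ∏ i, F i z ^ c i, ⟨?_, ?_⟩, ?_⟩
  · intro z
    exact MeromorphicAt.fun_prod fun i _ => ((hF i).1 z).fun_pow _
  · intro s hs
    have h1 : θ = fun g => ∑ i, (c i : ℂ) * χ i g := funext hθ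
    rw [h1, IND.logL_sum LA_thm ALLT.lb _ s hs m (fun i => (c i : ℂ)) χ, Complex.exp_sum]
    refine Finset.prod_congr rfl fun i _ => ?_
    rw [(hF i).2 s hs, ← Complex.exp_nat_mul]
  · have h2 := INDT.lead_comb (fun i => (c i : ℤ)) F fun i => (hF i).1 0
    simp only [zpow_natCast] at h2
    exact h2

end StarkC.ABS
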